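import Mathlib

/-! Parts: Lib_helper55.Beil.Ked1, Lib_helper55.Beil.Ked2, Lib_helper55.Beil.Ked3, QCV.P_SPL -/

section

/-!
A smooth algebra is etale over the polynomial ring on elements whose differentials form a basis.
-/

open Algebra TensorProduct

namespace Pool.Agent.Lib_helper55.Beil

universe u

section

variable {k P S : Type} [CommRing k] [CommRing P] [CommRing S] [Algebra k P] [Algebra k S]
  [Algebra P S] [IsScalarTower k P S]

theorem etale_of_bijective [Algebra.Smooth k S] [Algebra.FiniteType k P]
    (h : Function.Bijective (KaehlerDifferential.mapBaseChange k P S)) :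
    Algebra.Etale P S := by
  have h1 : Subsingleton (Ω[S⁄P]) := by
    constructor
    intro a b
    obtain ⟨a', rfl⟩ := KaehlerDifferential.map_surjective k P S a
    obtain ⟨b', rfl⟩ := KaehlerDifferential.map_surjective k P S b
    obtain ⟨a'', rfl⟩ := h.2 a'
    obtain ⟨b'', rfl⟩ := h.2 b'
    rw [(KaehlerDifferential.exact_mapBaseChange_map k P S).apply_apply_eq_zero,
      (KaehlerDifferential.exact_mapBaseChange_map k P S).apply_apply_eq_zero]
  have h2 : Subsingleton (H1Cotangent P S) := by
    have h3 : ∀ a : H1Cotangent P S, a = 0 := by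
      intro a
      have h4 : H1Cotangent.δ k P S a = 0 := by
        apply h.1
        rw [(H1Cotangent.exact_δ_mapBaseChange k P S).apply_apply_eq_zero, map_zero]
      obtain ⟨c, hc⟩ := (H1Cotangent.exact_map_δ k P S a).1 h4
      rw [← hc, Subsingleton.elim c 0, map_zero]
    exact ⟨fun a b => (h3 a).trans (h3 b).symm⟩
  have h5 : FormallyEtale P S := ⟨h1, h2⟩
  have h6 : FinitePresentation P S := .of_restrict_scalars_finitePresentation k P S
  exact ⟨h5, h6⟩

end

variable {k S : Type} [CommRing k] [CommRing S] [Algebra k S]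

theorem etale_of_basis [Algebra.Smooth k S] {I : Type} [Finite I] (b : Module.Basis I S (Ω[S⁄k]))
    (x : I → S) (hx : ∀ i, b i = KaehlerDifferential.D k S (x i)) :
    (MvPolynomial.aeval (R := k) x).toRingHom.Etale := by
  let alg : Algebra (MvPolynomial I k) S := (MvPolynomial.aeval (R := k) x).toRingHom.toAlgebra
  have tower : IsScalarTower k (MvPolynomial I k) S :=
    IsScalarTower.of_algebraMap_eq' (by
      ext a
      change algebraMap k S a = MvPolynomial.aeval x (algebraMap k (MvPolynomial I k) a)
      rw [AlgHom.commutes])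
  change Algebra.Etale (MvPolynomial I k) S
  apply etale_of_bijective (k := k)
  let c := Module.Basis.baseChange S (KaehlerDifferential.mvPolynomialBasis k I)
  have h1 : KaehlerDifferential.mapBaseChange k (MvPolynomial I k) S =
      (c.equiv b (Equiv.refl I)).toLinearMap := by
    apply c.ext
    intro i
    rw [LinearEquiv.coe_coe, Module.Basis.equiv_apply, Equiv.refl_apply, hx,
      Module.Basis.baseChange_apply, KaehlerDifferential.mvPolynomialBasis_apply,
      KaehlerDifferential.mapBaseChange_tmul, KaehlerDifferential.map_D, one_smul]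
    congr 1
    exact MvPolynomial.aeval_X x i
  rw [h1]
  exact (c.equiv b (Equiv.refl I)).bijective

end Pool.Agent.Lib_helper55.Beil


end

section

/-!
Modifying the coordinates of an algebra by large powers of the variables of a Noether
normalisation makes the algebra integral over the new coordinates.
-/

namespace Pool.Agent.Lib_helper55.Beil

open MvPolynomial

section Val

variable {K Γ : Type} [Field K] [LinearOrderedCommGroupWithZero Γ] (v : Valuation K Γ)

lemma val_aeval_le {k : Type} [Field k] [Algebra k K] (hk : ∀ a : k, v (algebraMap k K a) ≤ 1)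
    {s D : ℕ} (y : Fin s → K) {γ : Γ} (hγ : 1 ≤ γ) (hy : ∀ j, v (y j) ≤ γ)
    (a : MvPolynomial (Fin s) k) (ha : a.totalDegree ≤ D) : v (aeval y a) ≤ γ ^ D := by
  rw [aeval_def, eval₂_eq']
  apply Valuation.map_sum_le
  intro m hm
  rw [map_mul, map_prod]
  have h1 : ∏ j, v (y j ^ m j) ≤ ∏ j, γ ^ m j := by
    apply Finset.prod_le_prod'
    intro j _
    rw [map_pow]
    exact pow_le_pow_left' (hy j) _
  have h2 : ∏ j, γ ^ m j ≤ γ ^ D := by
    rw [Finset.prod_pow_eq_pow_sum]
    apply pow_le_pow_right' hγ
    have := le_totalDegree hm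
    rw [Finsupp.sum_fintype _ _ (fun _ => rfl)] at this
    exact this.trans ha
  calc v (algebraMap k K (coeff m a)) * ∏ j, v (y j ^ m j)
      ≤ 1 * γ ^ D := mul_le_mul' (hk _) (h1.trans h2)
    _ = γ ^ D := one_mul _

lemma val_root_le {B : Γ} (hB : 1 ≤ B) (q : Polynomial K) (hq : q.Monic) (t : K)
    (ht : q.eval t = 0) (hc : ∀ l, v (q.coeff l) ≤ B) : v t ≤ B := by
  by_contra hcon
  rw [not_le] at hcon
  have hτ1 : 1 ≤ v t := hB.trans hcon.le
  have hm : q.natDegree ≠ 0 := by
    intro h0
    rw [hq.natDegree_eq_zero.1 h0, Polynomial.eval_one] at ht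
    exact one_ne_zero ht
  obtain ⟨m, hm'⟩ := Nat.exists_eq_succ_of_ne_zero hm
  rw [Polynomial.eval_eq_sum_range, Finset.sum_range_succ, hq.coeff_natDegree, one_mul,
    add_eq_zero_iff_eq_neg'] at ht
  have h1 : v (t ^ q.natDegree) = v t ^ (m + 1) := by rw [map_pow, hm']
  have hpos : 0 < v t := lt_of_lt_of_le zero_lt_one hτ1
  have h2 : v (∑ i ∈ Finset.range q.natDegree, q.coeff i * t ^ i) < v t ^ (m + 1) := by
    apply Valuation.map_sum_lt
    · exact pow_ne_zero _ hpos.ne'
    · intro l hl
      rw [Finset.mem_range, hm'] at hl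
      rw [map_mul, map_pow]
      calc v (q.coeff l) * v t ^ l ≤ B * v t ^ m :=
            mul_le_mul' (hc l) (pow_le_pow_right' hτ1 (by omega))
        _ < v t * v t ^ m := by
            exact mul_lt_mul_of_pos_right hcon (pow_pos hpos m)
        _ = v t ^ (m + 1) := (pow_succ' _ _).symm
  rw [ht, Valuation.map_neg] at h1
  exact absurd h1 (ne_of_lt h2)

end Val

variable {k S : Type} [Field k] [CommRing S] [IsDomain S] [Algebra k S]

theorem integral_trick {s : ℕ} (g : MvPolynomial (Fin s) k →ₐ[k] S)
    (hg : g.toRingHom.IsIntegral) {I : Type} [Finite I] (t : I → S) (e : Fin s → I) :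
    ∃ D : ℕ, ∀ M, D < M → ∀ x : I → S, (∀ j, x (e j) = t (e j) + g (X j) ^ M) →
      (aeval (R := k) x).toRingHom.IsIntegral := by
  have hint : ∀ i, ∃ q : Polynomial (MvPolynomial (Fin s) k), q.Monic ∧
      q.eval₂ g.toRingHom (t i) = 0 := fun i => hg (t i)
  choose q hqm hq0 using hint
  obtain ⟨D, hD⟩ : ∃ D : ℕ, ∀ i l, ((q i).coeff l).totalDegree ≤ D := by
    have : Fintype I := Fintype.ofFinite I
    refine ⟨∑ i, ∑ l ∈ Finset.range ((q i).natDegree + 1), ((q i).coeff l).totalDegree, ?_⟩
    intro i l
    rcases Nat.lt_or_ge (q i).natDegree l with h | h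
    · rw [Polynomial.coeff_eq_zero_of_natDegree_lt h]
      simp
    · refine le_trans ?_ (Finset.single_le_sum (f := fun i => ∑ l ∈ Finset.range ((q i).natDegree + 1),
        ((q i).coeff l).totalDegree) (fun _ _ => Nat.zero_le _) (Finset.mem_univ i))
      exact Finset.single_le_sum (f := fun l => ((q i).coeff l).totalDegree)
        (fun _ _ => Nat.zero_le _) (Finset.mem_range.2 (by omega))
  refine ⟨D, ?_⟩
  intro M hM x hx
  let K := FractionRing S
  let φ : S →ₐ[k] K := IsScalarTower.toAlgHom k S K
  have hφ : Function.Injective φ := IsFractionRing.injective S K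
  -- every valuation ring which contains the `x i` contains the `y j`
  have key : ∀ V : ValuationSubring K, (∀ a : k, algebraMap k K a ∈ V) → (∀ i, φ (x i) ∈ V) →
      ∀ j, φ (g (X j)) ∈ V := by
    intro V hVk hVx j
    by_contra hj
    have : Nonempty (Fin s) := ⟨j⟩
    obtain ⟨j₀, hj₀⟩ := Finite.exists_max (fun j => V.valuation (φ (g (X j))))
    set γ := V.valuation (φ (g (X j₀))) with hγdef
    have hγ1 : 1 < γ := by
      have h1 : 1 < V.valuation (φ (g (X j))) := by
        rw [← not_le, V.valuation_le_one_iff]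
        exact hj
      exact h1.trans_le (hj₀ j)
    have hk : ∀ a : k, V.valuation (algebraMap k K a) ≤ 1 := by
      intro a
      rw [V.valuation_le_one_iff]
      exact hVk a
    have hpoly : ∀ a : MvPolynomial (Fin s) k, a.totalDegree ≤ D →
        V.valuation (φ (g a)) ≤ γ ^ D := by
      intro a ha
      have h1 : φ (g a) = aeval (fun j => φ (g (X j))) a := by
        have h2 : φ.comp g = aeval (fun j => φ (g (X j))) := by
          apply MvPolynomial.algHom_ext
          intro j
          rw [aeval_X]
          rfl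
        exact congrArg (fun f => f a) h2
      rw [h1]
      exact val_aeval_le V.valuation hk _ hγ1.le hj₀ a ha
    have ht : V.valuation (φ (t (e j₀))) ≤ γ ^ D := by
      apply val_root_le V.valuation (one_le_pow₀ hγ1.le)
        ((q (e j₀)).map (φ.toRingHom.comp g.toRingHom)) ((hqm (e j₀)).map _)
      · have h5 : φ.toRingHom ((q (e j₀)).eval₂ g.toRingHom (t (e j₀))) = 0 := by
          rw [hq0, map_zero]
        rw [Polynomial.hom_eval₂] at h5
        rw [Polynomial.eval_map]
        exact h5
      · intro l
        rw [Polynomial.coeff_map]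
        exact hpoly _ (hD _ _)
    have hy : V.valuation (φ (g (X j₀) ^ M)) = γ ^ M := by
      rw [map_pow, map_pow]
    have hlt : V.valuation (φ (t (e j₀))) < V.valuation (φ (g (X j₀) ^ M)) := by
      rw [hy]
      exact ht.trans_lt (pow_lt_pow_right₀ hγ1 hM)
    have hxe : V.valuation (φ (x (e j₀))) = γ ^ M := by
      rw [hx, map_add, Valuation.map_add_eq_of_lt_right _ hlt, hy]
    have h3 : V.valuation (φ (x (e j₀))) ≤ 1 := by
      rw [V.valuation_le_one_iff]
      exact hVx _
    rw [hxe] at h3
    exact absurd h3 (not_le.2 (one_lt_pow₀ hγ1 (by omega)))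
  let f : MvPolynomial I k →ₐ[k] S := aeval (R := k) x
  have hyint : ∀ j, f.toRingHom.IsIntegralElem (g (X j)) := by
    intro j
    let Z : Set K := Set.range (algebraMap k K) ∪ Set.range (fun i => φ (x i))
    have h1 : φ (g (X j)) ∈ (⨅ V : {V : ValuationSubring K // Z ⊆ V.toSubring}, V.1.toSubring) := by
      rw [Subring.mem_iInf]
      rintro ⟨V, hV⟩
      refine key V ?_ ?_ j
      · intro a
        exact hV (Or.inl ⟨a, rfl⟩)
      · intro i
        exact hV (Or.inr ⟨i, rfl⟩)
    rw [iInf_valuationSubring_superset] at h1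
    obtain ⟨Q, hQm, hQ0⟩ := h1
    have hle : Subring.closure Z ≤ (φ.toRingHom.comp f.toRingHom).range := by
      rw [Subring.closure_le]
      rintro z (⟨a, rfl⟩ | ⟨i, rfl⟩)
      · refine ⟨algebraMap k _ a, ?_⟩
        change φ (f (algebraMap k _ a)) = _
        rw [AlgHom.commutes, AlgHom.commutes]
      · refine ⟨X i, ?_⟩
        change φ (f (X i)) = _
        rw [show f (X i) = x i from aeval_X x i]
    -- lift the polynomial
    obtain ⟨Q', hQ'm, hQ'⟩ : ∃ Q' : Polynomial (MvPolynomial I k), Q'.Monic ∧
        Q'.map (φ.toRingHom.comp f.toRingHom) = Q.map (algebraMap (Subring.closure Z) K) := by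
      have h2 : Q.map (algebraMap (Subring.closure Z) K) ∈
          Polynomial.lifts (φ.toRingHom.comp f.toRingHom) := by
        rw [Polynomial.lifts_iff_coeff_lifts]
        intro n
        rw [Polynomial.coeff_map]
        exact hle (Q.coeff n).2
      obtain ⟨Q', hQ'1, hQ'2, hQ'3⟩ := Polynomial.lifts_and_natDegree_eq_and_monic h2 (hQm.map _)
      exact ⟨Q', hQ'3, hQ'1⟩
    refine ⟨Q', hQ'm, ?_⟩
    apply hφ
    have h3 : φ.toRingHom (Polynomial.eval₂ f.toRingHom (g (X j)) Q') = 0 := by
      rw [Polynomial.hom_eval₂, ← Polynomial.eval_map, hQ', Polynomial.eval_map]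
      exact hQ0
    rw [map_zero]
    exact h3
  -- transitivity
  let alg : Algebra (MvPolynomial I k) S := f.toRingHom.toAlgebra
  have hgC : ∀ a, g a ∈ integralClosure (MvPolynomial I k) S := by
    intro a
    induction a using MvPolynomial.induction_on with
    | C a =>
      have : g (C a) = algebraMap (MvPolynomial I k) S (C a) := by
        change g (algebraMap k _ a) = f (algebraMap k _ a)
        rw [AlgHom.commutes, AlgHom.commutes]
      rw [this]
      exact Subalgebra.algebraMap_mem _ _
    | add p q hp hq => rw [map_add]; exact add_mem hp hq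
    | mul_X p n hp => rw [map_mul]; exact mul_mem hp (hyint n)
  intro z
  obtain ⟨Q, hQm, hQ0⟩ := hg z
  have h4 : IsIntegral (integralClosure (MvPolynomial I k) S) z := by
    let g' : MvPolynomial (Fin s) k →+* integralClosure (MvPolynomial I k) S :=
      g.toRingHom.codRestrict (integralClosure (MvPolynomial I k) S).toSubring hgC
    refine ⟨Q.map g', hQm.map _, ?_⟩
    rw [Polynomial.eval₂_map]
    exact hQ0
  exact isIntegral_trans z h4

end Pool.Agent.Lib_helper55.Beil


end

section

/-!
Standard smooth domains over a field of characteristic `p` are finite etale over polynomial rings.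
-/

namespace Pool.Agent.Lib_helper55.Beil

open MvPolynomial Algebra

/-- An etale algebra which is a domain is algebraic over the base domain. -/
theorem isAlgebraic_of_etale (P S : Type) [CommRing P] [IsDomain P] [CommRing S] [IsDomain S]
    [Algebra P S] [Algebra.Etale P S] (hinj : Function.Injective (algebraMap P S)) :
    Algebra.IsAlgebraic P S := by
  have hf : FaithfulSMul P S := (faithfulSMul_iff_algebraMap_injective P S).2 hinj
  let L := FractionRing S
  have h1 : FormallyUnramified S L := FormallyUnramified.of_isLocalization (nonZeroDivisors S)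
  have h2 : FormallyUnramified P L := FormallyUnramified.comp P S L
  have hf2 : FaithfulSMul P L := (faithfulSMul_iff_algebraMap_injective P L).2 (by
    rw [IsScalarTower.algebraMap_eq P S L]
    exact (IsFractionRing.injective S L).comp hinj)
  let K := FractionRing P
  let alg : Algebra K L := FractionRing.liftAlgebra P L
  have tower : IsScalarTower P K L := FractionRing.isScalarTower_liftAlgebra P L
  have h3 : FormallyUnramified K L := FormallyUnramified.of_restrictScalars P K L
  have h4 : EssFiniteType P L := EssFiniteType.comp P S L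
  have h5 : EssFiniteType K L := EssFiniteType.of_comp P K L
  have h6 : Algebra.IsSeparable K L := FormallyUnramified.isSeparable K L
  have h7 : Algebra.IsAlgebraic K L := inferInstance
  have h8 : Algebra.IsAlgebraic P L := (IsFractionRing.comap_isAlgebraic_iff (A := P) (K := K)).2 h7
  constructor
  intro x
  have := h8.isAlgebraic (algebraMap S L x)
  exact (isAlgebraic_algebraMap_iff (IsFractionRing.injective S L)).1 this

theorem injective_of_etale (P S : Type) [CommRing P] [IsDomain P] [CommRing S] [IsDomain S]
    [Algebra P S] [Algebra.Etale P S] : Function.Injective (algebraMap P S) := by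
  have : Module.Flat P S := inferInstance
  have h2 : FaithfulSMul P S := inferInstance
  exact (faithfulSMul_iff_algebraMap_injective P S).1 h2

section

variable {k S : Type} [Field k] [CommRing S] [IsDomain S] [Algebra k S]

/-- If a domain is etale over a polynomial ring in `d` variables, it has transcendence degree
`d`. -/
theorem trdeg_eq_of_etale {d : ℕ} (φ : MvPolynomial (Fin d) k →ₐ[k] S)
    (hφ : φ.toRingHom.Etale) : Algebra.trdeg k S = d := by
  let alg : Algebra (MvPolynomial (Fin d) k) S := φ.toRingHom.toAlgebra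
  have tower : IsScalarTower k (MvPolynomial (Fin d) k) S :=
    IsScalarTower.of_algebraMap_eq' (by
      ext a
      change algebraMap k S a = φ (algebraMap k (MvPolynomial (Fin d) k) a)
      rw [AlgHom.commutes])
  have h1 : Algebra.Etale (MvPolynomial (Fin d) k) S := hφ
  have hinj := injective_of_etale (MvPolynomial (Fin d) k) S
  have halg := isAlgebraic_of_etale (MvPolynomial (Fin d) k) S hinj
  have hf : FaithfulSMul (MvPolynomial (Fin d) k) S :=
    (faithfulSMul_iff_algebraMap_injective _ _).2 hinj
  have h2 := _root_.trdeg_add_eq (R := k) (S := MvPolynomial (Fin d) k) (A := S)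
  have h0 : Algebra.trdeg (MvPolynomial (Fin d) k) S = 0 := _root_.trdeg_eq_zero
  rw [h0, add_zero, MvPolynomial.trdeg_of_isDomain] at h2
  rw [← h2]
  simp

/-- A standard smooth domain over a field of characteristic `p > 0` is finite etale over a
polynomial ring. -/
theorem exists_finite_etale (p : ℕ) (hp : 0 < p) [CharP k p] [Algebra.IsStandardSmooth k S] :
    ∃ (d : ℕ) (φ : MvPolynomial (Fin d) k →ₐ[k] S), φ.toRingHom.Finite ∧
      φ.toRingHom.Etale ∧ Algebra.trdeg k S = d := by
  obtain ⟨-, I, b₀, hb₀⟩ :=
    (Algebra.IsStandardSmooth.iff_exists_basis_kaehlerDifferential (R := k) (S := S)).1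
      inferInstance
  have hI : Finite I := Module.Finite.finite_basis b₀
  set d := Nat.card I
  let b := b₀.reindex (Finite.equivFin I)
  have hb : ∀ i, ∃ t : S, KaehlerDifferential.D k S t = b i := by
    intro i
    obtain ⟨t, ht⟩ := hb₀ ⟨(Finite.equivFin I).symm i, rfl⟩
    exact ⟨t, by rw [ht, Module.Basis.reindex_apply]⟩
  choose t ht using hb
  have het := etale_of_basis b t (fun i => (ht i).symm)
  have htr := trdeg_eq_of_etale _ het
  obtain ⟨s, g, hginj, hgint⟩ := exists_integral_inj_algHom_of_fg k S
  have hs : s ≤ d := by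
    have h1 := lift_trdeg_le_of_injective g hginj
    rw [MvPolynomial.trdeg_of_isDomain, htr] at h1
    simpa using h1
  let e : Fin s → Fin d := Fin.castLE hs
  have he : Function.Injective e := Fin.castLE_injective hs
  obtain ⟨D, hD⟩ := integral_trick g hgint t e
  set M := p * (D + 1)
  have hM : D < M := Nat.lt_of_lt_of_le (Nat.lt_succ_self D) (Nat.le_mul_of_pos_left _ hp)
  let x : Fin d → S := fun i => t i + Function.extend e (fun j => g (X j) ^ M) 0 i
  have hx : ∀ j, x (e j) = t (e j) + g (X j) ^ M := by
    intro j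
    change t (e j) + Function.extend e (fun j => g (X j) ^ M) 0 (e j) = _
    rw [he.extend_apply]
  have hdx : ∀ i, KaehlerDifferential.D k S (x i) = b i := by
    intro i
    change KaehlerDifferential.D k S (t i + Function.extend e (fun j => g (X j) ^ M) 0 i) = _
    rw [map_add, ht, add_eq_left]
    by_cases h : ∃ j, e j = i
    · obtain ⟨j, rfl⟩ := h
      rw [he.extend_apply, Derivation.leibniz_pow, ← Nat.cast_smul_eq_nsmul S]
      have : (M : S) = 0 := by
        have h2 : (p : S) = 0 := by
          rw [← map_natCast (algebraMap k S) p, CharP.cast_eq_zero k p, map_zero]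
        rw [Nat.cast_mul, h2, zero_mul]
      rw [this, zero_smul]
    · rw [Function.extend_apply' _ _ _ h, Pi.zero_apply, map_zero]
  refine ⟨d, aeval (R := k) x, ?_, etale_of_basis b x (fun i => (hdx i).symm), htr⟩
  have hint := hD M hM x hx
  have h : algebraMap k S = (aeval (R := k) x).toRingHom.comp
      (algebraMap k (MvPolynomial (Fin d) k)) := by
    ext a
    change _ = (aeval (R := k) x) (algebraMap k _ a)
    rw [AlgHom.commutes]
  have fin : Algebra.FiniteType k S := inferInstance
  exact hint.to_finite (h ▸ RingHom.finiteType_algebraMap.mpr fin).of_comp_finiteType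

end

end Pool.Agent.Lib_helper55.Beil


end

section

/-!
# QCV: polynomials of degree at most two in a part of the variables
-/

set_option autoImplicit false

namespace QCV

namespace P_SPL

open MvPolynomial

/-- The first `b` variables are the inner ones. -/
def idx {s b : ℕ} (hb : b ≤ s) : Fin s ≃ Fin (s - b) ⊕ Fin b :=
  ((finCongr (show s = b + (s - b) by omega)).trans finSumFinEquiv.symm).trans
    (Equiv.sumComm (Fin b) (Fin (s - b)))

lemma idx_lt {s b : ℕ} (hb : b ≤ s) (i : Fin s) (hi : i.1 < b) :
    idx hb i = Sum.inr ⟨i.1, hi⟩ := by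
  rw [idx, Equiv.trans_apply, Equiv.trans_apply]
  have h : finSumFinEquiv.symm ((finCongr (show s = b + (s - b) by omega)) i) =
      (Sum.inl ⟨i.1, hi⟩ : Fin b ⊕ Fin (s - b)) := by
    rw [Equiv.symm_apply_eq]
    rfl
  rw [h]
  rfl

lemma idx_ge {s b : ℕ} (hb : b ≤ s) (i : Fin s) (hi : b ≤ i.1) :
    idx hb i = Sum.inl ⟨i.1 - b, by omega⟩ := by
  rw [idx, Equiv.trans_apply, Equiv.trans_apply]
  have h : finSumFinEquiv.symm ((finCongr (show s = b + (s - b) by omega)) i) =
      (Sum.inr ⟨i.1 - b, by omega⟩ : Fin b ⊕ Fin (s - b)) := by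
    rw [Equiv.symm_apply_eq]
    ext
    simp only [finCongr_apply, Fin.val_cast, finSumFinEquiv_apply_right, Fin.val_natAdd]
    omega
  rw [h]
  rfl

section

variable {R : Type} [CommRing R] {s b : ℕ} (hb : b ≤ s)

/-- The polynomials in `s` variables as polynomials in `s - b` variables. -/
noncomputable def spl : MvPolynomial (Fin s) R ≃ₐ[R]
    MvPolynomial (Fin (s - b)) (MvPolynomial (Fin b) R) :=
  (renameEquiv R (idx hb)).trans (sumAlgEquiv R (Fin (s - b)) (Fin b))

lemma spl_X_lt (i : Fin s) (hi : i.1 < b) :
    spl (R := R) hb (X i) = C (X ⟨i.1, hi⟩) := by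
  rw [spl, AlgEquiv.trans_apply, renameEquiv_apply, rename_X, idx_lt hb i hi,
    sumAlgEquiv_X_inr]

lemma spl_X_ge (i : Fin s) (hi : b ≤ i.1) :
    spl (R := R) hb (X i) = X ⟨i.1 - b, by omega⟩ := by
  rw [spl, AlgEquiv.trans_apply, renameEquiv_apply, rename_X, idx_ge hb i hi,
    sumAlgEquiv_X_inl]

lemma spl_C (c : R) : spl (R := R) hb (C c) = C (C c) := by
  rw [spl, AlgEquiv.trans_apply, renameEquiv_apply, rename_C, sumAlgEquiv_C_inl]

lemma totalDegree_spl_monomial (m : Fin s →₀ ℕ) (c : R) :
    (spl hb (monomial m c)).totalDegree ≤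
      (Finset.univ.filter (fun i : Fin s => b ≤ i.1)).sum (fun i => m i) := by
  rw [monomial_eq, map_mul, spl_C, Finsupp.prod_fintype _ _ (fun _ => pow_zero _), map_prod]
  refine (totalDegree_mul _ _).trans ?_
  rw [totalDegree_C, zero_add]
  refine (totalDegree_finsetProd _ _).trans ?_
  rw [Finset.sum_filter]
  refine Finset.sum_le_sum fun i _ => ?_
  rw [map_pow]
  refine (totalDegree_pow _ _).trans ?_
  by_cases hi : b ≤ i.1
  · rw [if_pos hi, spl_X_ge hb i hi]
    have h : (X ⟨i.1 - b, by omega⟩ :
        MvPolynomial (Fin (s - b)) (MvPolynomial (Fin b) R)).totalDegree ≤ 1 := by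
      rcases subsingleton_or_nontrivial (MvPolynomial (Fin b) R) with h | h
      · have h0 : (X ⟨i.1 - b, by omega⟩ :
          MvPolynomial (Fin (s - b)) (MvPolynomial (Fin b) R)) = 0 := Subsingleton.elim _ _
        rw [h0, totalDegree_zero]
        exact zero_le_one
      · rw [totalDegree_X]
    calc _ ≤ m i * 1 := Nat.mul_le_mul_left _ h
      _ = m i := mul_one _
  · rw [if_neg hi, spl_X_lt hb i (not_le.1 hi), totalDegree_C, mul_zero]

lemma totalDegree_spl (f : MvPolynomial (Fin s) R) (d : ℕ)
    (hf : ∀ m ∈ f.support,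
      (Finset.univ.filter (fun i : Fin s => b ≤ i.1)).sum (fun i => m i) ≤ d) :
    (spl hb f).totalDegree ≤ d := by
  rw [f.as_sum, map_sum]
  refine totalDegree_finsetSum_le fun m hm => ?_
  exact (totalDegree_spl_monomial hb m _).trans (hf m hm)

end

end P_SPL

/-- Polynomials of degree at most `D j` in the last `s - b` of `s` variables are polynomials of
degree at most `D j` over the polynomial ring in the first `b` variables. -/
theorem exists_split {k R : Type} [Field k] [CommRing R] [Algebra k R] {ι : Type} {s b : ℕ}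
    (hb : b ≤ s) (D : ι → ℕ) (h : ι → MvPolynomial (Fin s) R)
    (hdeg : ∀ j, ∀ m ∈ (h j).support,
      (Finset.univ.filter (fun i : Fin s => b ≤ i.1)).sum (fun i => m i) ≤ D j) :
    ∃ g : ι → MvPolynomial (Fin (s - b)) (MvPolynomial (Fin b) R),
      (∀ j, (g j).totalDegree ≤ D j) ∧
      Nonempty ((MvPolynomial (Fin s) R ⧸ Ideal.span (Set.range h)) ≃ₐ[k]
        (MvPolynomial (Fin (s - b)) (MvPolynomial (Fin b) R) ⧸ Ideal.span (Set.range g))) := by
  refine ⟨fun j => P_SPL.spl hb (h j), fun j => P_SPL.totalDegree_spl hb (h j) (D j) (hdeg j), ⟨?_⟩⟩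
  refine Ideal.quotientEquivAlg _ _ ((P_SPL.spl hb).restrictScalars k) ?_
  rw [Ideal.map_span]
  congr 1
  ext x
  simp only [Set.mem_range, Set.mem_image, exists_exists_eq_and]
  rfl

end QCV


end
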