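import Mathlib
import Pool.Agent.Lib_helper55.Beil.Defs
import Pool.Agent.QVM.C02

/-! Parts: Lib_helper55.Beil.Geom, Lib_helper55.Beil.Surj, Lib_helper55.Beil.Inj -/

section

/-!
Geometry of varieties: invariance of the dimension of a point, closed and open subvarieties.
-/

open CategoryTheory AlgebraicGeometry TopologicalSpace

namespace Pool.Agent.Lib_helper55.Beil

variable {k : Type} [Field k]

lemma residueFieldMap_bijective {X Y : Scheme.{0}} (f : X ⟶ Y) [IsPreimmersion f] (x : X) :
    Function.Bijective (f.residueFieldMap x).hom := by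
  refine ⟨(f.residueFieldMap x).hom.injective, ?_⟩
  have h1 : Function.Surjective (f.stalkMap x ≫ X.residue x).hom := by
    rw [CommRingCat.hom_comp]
    exact (X.residue_surjective x).comp (f.stalkMap_surjective x)
  rw [← Scheme.residue_residueFieldMap, CommRingCat.hom_comp] at h1
  exact Function.Surjective.of_comp (f := (f.residueFieldMap x).hom) (g := (Y.residue (f x)).hom) h1

lemma toResidue_map {Z X : Var k} (g : Z.X ⟶ X.X) (comm : g ≫ X.f = Z.f) (z : Z.X) :
    (g.residueFieldMap z).hom.comp (X.toResidue (g z)) = Z.toResidue z := by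
  have h : Spec.preimage (X.X.fromSpecResidueField (g z) ≫ X.f) ≫ g.residueFieldMap z =
      Spec.preimage (Z.X.fromSpecResidueField z ≫ Z.f) := by
    apply Spec.map_injective
    rw [Spec.map_comp, Spec.map_preimage, Spec.map_preimage,
      Scheme.Hom.SpecMap_residueFieldMap_fromSpecResidueField_assoc, comm]
  exact congrArg CommRingCat.Hom.hom h

theorem dim_map {Z X : Var k} (g : Z.X ⟶ X.X) (comm : g ≫ X.f = Z.f) [IsPreimmersion g]
    (z : Z.X) : X.dim (g z) = Z.dim z := by
  let : Algebra k (X.X.residueField (g z)) := (X.toResidue (g z)).toAlgebra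
  let : Algebra k (Z.X.residueField z) := (Z.toResidue z).toAlgebra
  let e : X.X.residueField (g z) ≃ₐ[k] Z.X.residueField z :=
    AlgEquiv.ofBijective
      { (g.residueFieldMap z).hom with
        commutes' := fun r => by
          have := toResidue_map g comm z
          exact congrArg (fun (φ : k →+* _) => φ r) this }
      (residueFieldMap_bijective g z)
  exact e.trdeg_eq

/-- The dimension of a point does not increase under specialisation. -/
theorem dim_le_of_specializes (X : Var k) {x y : X.X} (h : x ⤳ y) : X.dim y ≤ X.dim x := by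
  let ψ : CommRingCat.of k ⟶ X.X.presheaf.stalk y := Spec.preimage (X.X.fromSpecStalk y ≫ X.f)
  let φk : k →+* X.X.presheaf.stalk y := ψ.hom
  let φ : X.X.presheaf.stalk y ⟶ X.X.residueField x :=
    X.X.presheaf.stalkSpecializes h ≫ X.X.residue x
  have h1 : (X.X.residue y).hom.comp φk = X.toResidue y := by
    have : ψ ≫ X.X.residue y = Spec.preimage (X.X.fromSpecResidueField y ≫ X.f) := by
      apply Spec.map_injective
      rw [Spec.map_comp, Spec.map_preimage, Spec.map_preimage, Scheme.fromSpecResidueField,
        Category.assoc]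
    exact congrArg CommRingCat.Hom.hom this
  have h2 : φ.hom.comp φk = X.toResidue x := by
    have : ψ ≫ φ = Spec.preimage (X.X.fromSpecResidueField x ≫ X.f) := by
      apply Spec.map_injective
      rw [Spec.map_comp, Spec.map_comp, Spec.map_preimage, Spec.map_preimage,
        Scheme.fromSpecResidueField, Category.assoc, Category.assoc,
        Scheme.SpecMap_stalkSpecializes_fromSpecStalk_assoc]
    exact congrArg CommRingCat.Hom.hom this
  let : Algebra k (X.X.presheaf.stalk y) := φk.toAlgebra
  let : Algebra k (X.X.residueField y) := (X.toResidue y).toAlgebra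
  let : Algebra k (X.X.residueField x) := (X.toResidue x).toAlgebra
  let a : X.X.presheaf.stalk y →ₐ[k] X.X.residueField y :=
    { (X.X.residue y).hom with
      commutes' := fun r => congrArg (fun (ψ : k →+* _) => ψ r) h1 }
  let b : X.X.presheaf.stalk y →ₐ[k] X.X.residueField x :=
    { φ.hom with
      commutes' := fun r => congrArg (fun (ψ : k →+* _) => ψ r) h2 }
  have ha : Function.Surjective a := X.X.residue_surjective y
  have hker : RingHom.ker b ≤ RingHom.ker a := by
    have h3 : RingHom.ker a = IsLocalRing.maximalIdeal (X.X.presheaf.stalk y) := by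
      exact IsLocalRing.ker_residue
    rw [h3]
    exact IsLocalRing.le_maximalIdeal (RingHom.ker_ne_top _)
  have h4 : Algebra.trdeg k (X.X.presheaf.stalk y ⧸ RingHom.ker b) ≤
      Algebra.trdeg k (X.X.residueField x) :=
    trdeg_le_of_injective (Ideal.kerLiftAlg b) (Ideal.kerLiftAlg_injective b)
  have h5 : Algebra.trdeg k (X.X.residueField y) ≤
      Algebra.trdeg k (X.X.presheaf.stalk y ⧸ RingHom.ker b) := by
    refine trdeg_le_of_surjective (Ideal.Quotient.liftₐ (RingHom.ker b) a ?_) ?_
    · intro r hr
      exact hker hr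
    · intro z
      obtain ⟨w, rfl⟩ := ha z
      exact ⟨Ideal.Quotient.mk _ w, rfl⟩
  exact h5.trans h4

instance Var.compactSpace (X : Var k) : CompactSpace X.X :=
  QuasiCompact.compactSpace_of_compactSpace X.f

instance Var.isNoetherian (X : Var k) : IsNoetherian X.X where

/-- The closed subvariety with underlying set `C` (reduced structure). -/
noncomputable def closedVar (X : Var k) (C : Closeds X.X) : Var k where
  X := (Scheme.IdealSheafData.vanishingIdeal C).subscheme
  f := (Scheme.IdealSheafData.vanishingIdeal C).subschemeι ≫ X.f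
  sep := inferInstance
  lft := inferInstance
  qc := inferInstance

noncomputable def closedVarIn (X : Var k) (C : Closeds X.X) : ClosedIn (closedVar X C) X where
  g := (Scheme.IdealSheafData.vanishingIdeal C).subschemeι
  comm := rfl
  closed := inferInstanceAs
    (IsClosedImmersion (Scheme.IdealSheafData.vanishingIdeal C).subschemeι)

lemma range_closedVarIn (X : Var k) (C : Closeds X.X) :
    Set.range (closedVarIn X C).g = C := by
  have := Scheme.IdealSheafData.range_subschemeι (Scheme.IdealSheafData.vanishingIdeal C)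
  rw [Scheme.IdealSheafData.coe_support_vanishingIdeal] at this
  exact this

/-- The open subvariety with underlying set `U`. -/
noncomputable def openVar (X : Var k) (U : X.X.Opens) : Var k where
  X := U.toScheme
  f := U.ι ≫ X.f
  sep := inferInstance
  lft := inferInstance
  qc := inferInstance

noncomputable def openVarIn (X : Var k) (U : X.X.Opens) : OpenIn (openVar X U) X where
  g := U.ι
  comm := rfl
  isOpen := inferInstanceAs (IsOpenImmersion U.ι)

lemma range_openVarIn (X : Var k) (U : X.X.Opens) :
    Set.range (openVarIn X U).g = (U : Set X.X) := by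
  have := Scheme.Opens.range_ι U
  exact this


/-- The reduced subvariety. -/
noncomputable def redVar (X : Var k) : Var k where
  X := X.X.nilradical.subscheme
  f := X.X.nilradical.subschemeι ≫ X.f
  sep := inferInstance
  lft := inferInstance
  qc := inferInstance

noncomputable def redVarIn (X : Var k) : ClosedIn (redVar X) X where
  g := X.X.nilradical.subschemeι
  comm := rfl
  closed := inferInstanceAs (IsClosedImmersion X.X.nilradical.subschemeι)

lemma range_redVarIn (X : Var k) : Set.range (redVarIn X).g = Set.univ := by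
  have := Scheme.IdealSheafData.range_subschemeι X.X.nilradical
  rw [Scheme.support_nilradical] at this
  exact this

lemma isReduced_redVar (X : Var k) : IsReduced (redVar X).X := by
  change IsReduced X.X.nilradical.subscheme
  have h : ∀ U, IsReduced (X.X.nilradical.subschemeCover.openCover.X U) := by
    intro U
    change IsReduced (Spec (.of (Γ(X.X, U.1) ⧸ X.X.nilradical.ideal U)))
    have : _root_.IsReduced (Γ(X.X, U.1) ⧸ X.X.nilradical.ideal U) := by
      rw [← Ideal.isRadical_iff_quotient_reduced]
      change (Ideal.radical _).IsRadical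
      exact Ideal.radical_isRadical _
    have : _root_.IsReduced (CommRingCat.of (Γ(X.X, U.1) ⧸ X.X.nilradical.ideal U)) := this
    infer_instance
  exact IsReduced.of_openCover _ X.X.nilradical.subschemeCover.openCover


/-- Every point is a specialisation of a maximal point. -/
lemma exists_maximal (X : Var k) (x : X.X) :
    ∃ η : X.X, η ⤳ x ∧ ∀ y : X.X, y ⤳ η → y = η := by
  have h1 := isIrreducible_irreducibleComponent (x := x)
  have h2 : IsClosed (irreducibleComponent x) := isClosed_irreducibleComponent
  obtain ⟨η, hη⟩ := QuasiSober.sober h1 h2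
  refine ⟨η, ?_, ?_⟩
  · rw [specializes_iff_mem_closure, hη.def]
    exact mem_irreducibleComponent
  · intro y hy
    have h3 : closure ({η} : Set X.X) ≤ closure {y} := by
      rw [specializes_iff_mem_closure] at hy
      exact closure_minimal (Set.singleton_subset_iff.mpr hy) isClosed_closure
    have h4 : irreducibleComponent x ∈ irreducibleComponents X.X :=
      irreducibleComponent_mem_irreducibleComponents x
    have h5 : closure ({y} : Set X.X) ≤ irreducibleComponent x := by
      rw [hη.def] at h3
      exact h4.2 (isIrreducible_singleton.closure) h3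
    have h6 : η ⤳ y := by
      rw [specializes_iff_mem_closure, hη.def]
      exact h5 (subset_closure rfl)
    exact (hy.antisymm h6).eq

/-- A maximal point of a reduced variety over a perfect field has arbitrarily small open
neighbourhoods which are smooth affine integral varieties. -/
lemma exists_nice [PerfectField k] (X : Var k) [IsReduced X.X] (η : X.X)
    (hη : ∀ y : X.X, y ⤳ η → y = η) (O : X.X.Opens) (hO : η ∈ O) :
    ∃ U : X.X.Opens, η ∈ U ∧ U ≤ O ∧ IsAffine (openVar X U).X ∧
      Smooth (openVar X U).f ∧ ∃ _ : IsIntegral (openVar X U).X,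
        (openVarIn X U).g (genericPoint (openVar X U).X) = η := by
  have hC : closure ({η} : Set X.X) ∈ irreducibleComponents X.X := by
    refine ⟨isIrreducible_singleton.closure, ?_⟩
    intro D hD hD2
    obtain ⟨ξ, hξ⟩ := QuasiSober.sober hD.closure isClosed_closure
    have h1 : ξ ⤳ η := by
      rw [specializes_iff_mem_closure, hξ.def]
      exact subset_closure (hD2 (subset_closure rfl))
    have h2 := hη ξ h1
    subst h2
    rw [hξ.def]
    exact subset_closure
  let U₁ : X.X.Opens := Scheme.irreducibleComponentOpen X.X (closure {η})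
  have hηU₁ : η ∈ U₁ := by
    change η ∈ (⋃₀ (irreducibleComponents X.X \ {closure {η}}))ᶜ
    rintro ⟨D, ⟨hD1, hD2⟩, hD3⟩
    have hDc : IsClosed D := isClosed_of_mem_irreducibleComponents D hD1
    have h1 : closure ({η} : Set X.X) ≤ D :=
      closure_minimal (Set.singleton_subset_iff.mpr hD3) hDc
    exact hD2 (le_antisymm (hC.2 hD1.1 h1) h1)
  have hU₁ : ∀ y ∈ U₁, η ⤳ y := by
    intro y hy
    rw [specializes_iff_mem_closure]
    by_contra hcon
    apply (show y ∉ ⋃₀ (irreducibleComponents X.X \ {closure {η}}) from hy)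
    refine ⟨irreducibleComponent y, ⟨irreducibleComponent_mem_irreducibleComponents y, ?_⟩,
      mem_irreducibleComponent⟩
    intro h1
    apply hcon
    rw [← (show irreducibleComponent y = closure {η} from h1)]
    exact mem_irreducibleComponent
  have hdense := Scheme.Hom.dense_smoothLocus_of_perfectField X.f
  have hηs : η ∈ X.f.smoothLocus := by
    obtain ⟨y, hy1, hy2⟩ := hdense.inter_open_nonempty (O ⊓ U₁ : X.X.Opens) (O ⊓ U₁).2 ⟨η, hO, hηU₁⟩
    exact (hU₁ y hy1.2).mem_open X.f.smoothLocus.2 hy2
  obtain ⟨U, hxU, hU, hUle⟩ : ∃ U : X.X.Opens, η ∈ U ∧ IsAffineOpen U ∧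
      ∀ y ∈ U, y ∈ O ∧ y ∈ U₁ ∧ y ∈ X.f.smoothLocus := by
    obtain ⟨_, ⟨U, hU, rfl⟩, hxU, hUle⟩ :=
      X.X.isBasis_affineOpens.exists_subset_of_mem_open
        (show η ∈ ((O ⊓ U₁ ⊓ X.f.smoothLocus : X.X.Opens) : Set X.X) from ⟨⟨hO, hηU₁⟩, hηs⟩)
        (O ⊓ U₁ ⊓ X.f.smoothLocus).2
    exact ⟨U, hxU, hU, fun y hy => ⟨(hUle hy).1.1, (hUle hy).1.2, (hUle hy).2⟩⟩
  have hclos : closure (U : Set X.X) = closure {η} := by
    apply le_antisymm
    · apply closure_minimal _ isClosed_closure
      intro y hy
      rw [← specializes_iff_mem_closure]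
      exact hU₁ y (hUle y hy).2.1
    · exact closure_mono (Set.singleton_subset_iff.mpr hxU)
  refine ⟨U, hxU, fun y hy => (hUle y hy).1, hU, ?_, ?_⟩
  · change Smooth (U.ι ≫ X.f)
    rw [← Scheme.Hom.smoothLocus_eq_top_iff, ← Scheme.Hom.preimage_smoothLocus_eq]
    ext y
    simp only [Scheme.Hom.coe_preimage, Set.mem_preimage, SetLike.mem_coe, Opens.coe_top,
      Set.mem_univ, iff_true]
    exact (hUle y.1 y.2).2.2
  · have hirr : IrreducibleSpace U :=
      isIrreducible_iff_irreducibleSpace.mp
        (isIrreducible_iff_closure.mp (hclos ▸ isIrreducible_singleton.closure))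
    have hint : IsIntegral U.toScheme := isIntegral_of_irreducibleSpace_of_isReduced _
    refine ⟨hint, ?_⟩
    change U.ι (genericPoint U.toScheme) = η
    have h1 := (genericPoint_spec U.toScheme).image U.ι.continuous
    rw [Set.image_univ, U.range_ι, hclos] at h1
    exact h1.eq (show IsGenericPoint η (closure {η}) from rfl)

end Pool.Agent.Lib_helper55.Beil


end

section

/-!
The surjectivity half: if the cycle class map is surjective on arbitrarily small nonempty open
subvarieties of the smooth affine integral varieties of dimension between `i + 1` and `2 * i`, then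
for every variety the generalised eigenspace of Frobenius for the eigenvalue one is spanned by
cycle classes.
-/

open CategoryTheory AlgebraicGeometry TopologicalSpace

namespace Pool.Agent.Lib_helper55.Beil

universe v

variable {k : Type} [Field k] {E : Type} [Field E] {i : ℕ} (T : Homology.{v} k E i)

/-- The span of the cycle classes. -/
def Homology.alg (X : Var k) : Submodule E (T.H (2 * i) X) :=
  Submodule.span E (Set.range (T.cl X))

/-- The generalised eigenspace of Frobenius for the eigenvalue one. -/
def Homology.gen (X : Var k) : Submodule E (T.H (2 * i) X) :=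
  Module.End.maxGenEigenspace (T.frob (2 * i) X) 1

lemma Homology.frob_alg (X : Var k) (m : T.H (2 * i) X) (hm : m ∈ T.alg X) :
    T.frob (2 * i) X m = m := by
  induction hm using Submodule.span_induction with
  | mem x hx =>
    obtain ⟨p, rfl⟩ := hx
    exact T.frob_cl X p
  | zero => simp
  | add x y _ _ hx hy => rw [map_add, hx, hy]
  | smul a x _ hx => rw [map_smul, hx]

lemma Homology.alg_le_gen (X : Var k) : T.alg X ≤ T.gen X := by
  intro m hm
  refine (mem_maxGen_iff _ _).mpr ⟨1, ?_⟩
  rw [pow_one, LinearMap.sub_apply, Module.End.one_apply, T.frob_alg X m hm, sub_self]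

lemma Homology.push_alg {Z X : Var k} (a : ClosedIn Z X) {m : T.H (2 * i) Z} (hm : m ∈ T.alg Z) :
    T.push (2 * i) a m ∈ T.alg X := by
  have := a.closed
  induction hm using Submodule.span_induction with
  | mem x hx =>
    obtain ⟨p, rfl⟩ := hx
    rw [T.push_cl a p ((dim_map a.g a.comm p.1).trans p.2)]
    exact Submodule.subset_span ⟨_, rfl⟩
  | zero => simp
  | add x y _ _ hx hy => rw [map_add]; exact add_mem hx hy
  | smul a x _ hx => rw [map_smul]; exact Submodule.smul_mem _ _ hx

lemma Homology.res_alg_surj {U X : Var k} (j : OpenIn U X) {m : T.H (2 * i) U}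
    (hm : m ∈ T.alg U) : ∃ m' ∈ T.alg X, T.res (2 * i) j m' = m := by
  have := j.isOpen
  induction hm using Submodule.span_induction with
  | mem x hx =>
    obtain ⟨p, rfl⟩ := hx
    have h := (dim_map j.g j.comm p.1).trans p.2
    exact ⟨T.cl X ⟨j.g p.1, h⟩, Submodule.subset_span ⟨_, rfl⟩, T.res_cl j p h⟩
  | zero => exact ⟨0, zero_mem _, map_zero _⟩
  | add x y _ _ hx hy =>
    obtain ⟨x', hx', rfl⟩ := hx
    obtain ⟨y', hy', rfl⟩ := hy
    exact ⟨x' + y', add_mem hx' hy', map_add _ _ _⟩
  | smul a x _ hx =>
    obtain ⟨x', hx', rfl⟩ := hx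
    exact ⟨a • x', Submodule.smul_mem _ _ hx', map_smul _ _ _⟩

/-- The class `gen ≤ alg` of varieties is closed under localisation. -/
lemma Homology.glue {Z U X : Var k} (a : ClosedIn Z X) (j : OpenIn U X)
    (h : Complementary a j) (hZ : T.gen Z ≤ T.alg Z) (hU : T.gen U ≤ T.alg U) :
    T.gen X ≤ T.alg X := by
  intro m hm
  have h1 : T.res (2 * i) j m ∈ T.gen U :=
    maxGen_map _ _ _ (T.res_frob (2 * i) j) hm
  obtain ⟨m', hm', h2⟩ := T.res_alg_surj j (hU h1)
  have h3 : T.res (2 * i) j (m - m') = 0 := by rw [map_sub, h2, sub_self]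
  obtain ⟨z, hz⟩ := (T.exact_X (2 * i) a j h _).mp h3
  have h4 : T.push (2 * i) a z ∈ T.gen X := by
    rw [hz]
    exact sub_mem hm (T.alg_le_gen X hm')
  obtain ⟨z', hz', h5⟩ := maxGen_lift (T.frob (2 * i) Z) (T.frob (2 * i) X) (T.push (2 * i) a)
    (T.push_frob (2 * i) a) h4
  have h6 : m = T.push (2 * i) a z' + m' := by rw [h5, hz]; abel
  rw [h6]
  exact add_mem (T.push_alg a (hZ hz')) hm'

lemma Homology.res_cl_eq_zero {Z U X : Var k} (a : ClosedIn Z X) (j : OpenIn U X)
    (h : Complementary a j) (p : Pts i X) (hp : p.1 ∈ Set.range a.g) :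
    T.res (2 * i) j (T.cl X p) = 0 := by
  obtain ⟨x, hx⟩ := p
  obtain ⟨z, rfl⟩ := hp
  have := a.closed
  have hz : Z.dim z = i := (dim_map a.g a.comm z).symm.trans hx
  rw [← T.push_cl a ⟨z, hz⟩ hx]
  exact (T.exact_X (2 * i) a j h).apply_apply_eq_zero _

lemma Homology.clMap_mk (X : Var k) (c : Pts i X →₀ E) :
    T.clMap X ((ratZero E i X).mkQ c) = Finsupp.linearCombination E (T.cl X) c := by
  exact Submodule.liftQ_apply _ _ _

lemma Homology.linComb_mem_alg (X : Var k) (c : Pts i X →₀ E) :
    Finsupp.linearCombination E (T.cl X) c ∈ T.alg X := by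
  rw [Homology.alg, ← Finsupp.range_linearCombination]
  exact LinearMap.mem_range_self _ _

lemma Homology.clMap_mem_alg (X : Var k) (a : Chow E i X) : T.clMap X a ∈ T.alg X := by
  obtain ⟨c, rfl⟩ := (ratZero E i X).mkQ_surjective a
  rw [T.clMap_mk]
  exact T.linComb_mem_alg X c

lemma Homology.good_of_subsingleton (X : Var k) (h : Subsingleton (T.H (2 * i) X)) :
    T.gen X ≤ T.alg X := by
  intro m _
  rw [Subsingleton.elim m 0]
  exact zero_mem _

lemma complementary_open (X : Var k) (U : X.X.Opens) :
    Complementary (closedVarIn X U.compl) (openVarIn X U) := by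
  rw [Complementary, range_closedVarIn, range_openVarIn]
  rfl

lemma complementary_red (X : Var k) : Complementary (redVarIn X) (openVarIn X ⊥) := by
  rw [Complementary, range_redVarIn, range_openVarIn]
  simp

lemma isEmpty_openVar_bot (X : Var k) : IsEmpty (openVar X ⊥).X := by
  change IsEmpty (⊥ : X.X.Opens)
  exact ⟨fun x => x.2⟩

lemma Homology.good_of_red (X : Var k) (h : T.gen (redVar X) ≤ T.alg (redVar X)) :
    T.gen X ≤ T.alg X :=
  T.glue (redVarIn X) (openVarIn X ⊥) (complementary_red X) h
    (T.good_of_subsingleton _ (T.empty _ _ (isEmpty_openVar_bot X)))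

/-- Surjectivity of the cycle class map on arbitrarily small open subvarieties of the smooth affine
integral varieties `U` with `i < dim U ≤ 2 * i`. -/
def Homology.SmallSurj : Prop :=
  ∀ U : Var k, ∀ _ : IsIntegral U.X, IsAffine U.X → Smooth U.f →
    (i : Cardinal) < U.dim (genericPoint U.X) → U.dim (genericPoint U.X) ≤ (2 * i : ℕ) →
      ∃ (U' : Var k) (_ : OpenIn U' U), Nonempty U'.X ∧ T.Surj U'

/-- The weakest form of surjectivity: on the smooth affine integral varieties `U` with
`i < dim U ≤ 2 * i` on which all cycle classes vanish, Frobenius has no invariants, at least on a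
nonempty open subvariety. -/
def Homology.SmallVanish : Prop :=
  ∀ U : Var k, ∀ _ : IsIntegral U.X, IsAffine U.X → Smooth U.f →
    (i : Cardinal) < U.dim (genericPoint U.X) → U.dim (genericPoint U.X) ≤ (2 * i : ℕ) →
      (∀ x : Pts i U, T.cl U x = 0) →
        ∃ (U' : Var k) (_ : OpenIn U' U), Nonempty U'.X ∧
          ∀ m : T.H (2 * i) U', T.F (2 * i) U' m = m → m = 0

/-- The composition of open immersions. -/
noncomputable def OpenIn.trans {U V X : Var k} (j : OpenIn U V) (l : OpenIn V X) : OpenIn U X where
  g := j.g ≫ l.g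
  comm := by rw [Category.assoc, l.comm, j.comm]
  isOpen := by
    have := j.isOpen
    have := l.isOpen
    infer_instance

/-- The composition of closed immersions. -/
noncomputable def ClosedIn.trans {U V X : Var k} (j : ClosedIn U V) (l : ClosedIn V X) :
    ClosedIn U X where
  g := j.g ≫ l.g
  comm := by rw [Category.assoc, l.comm, j.comm]
  closed := by
    have := j.closed
    have := l.closed
    infer_instance

/-- A smooth affine integral variety is good if its proper closed subvarieties are. -/
lemma Homology.good_nice [PerfectField k] (hT : T.SmallVanish) (V : Var k) (hint : IsIntegral V.X)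
    (haff : IsAffine V.X) (hsm : Smooth V.f)
    (hD : ∀ D : Closeds V.X, genericPoint V.X ∉ D →
      T.gen (closedVar V D) ≤ T.alg (closedVar V D)) :
    T.gen V ≤ T.alg V := by
  rcases lt_trichotomy (V.dim (genericPoint V.X)) (i : Cardinal) with h | h | h
  · obtain ⟨d, hd⟩ := Cardinal.lt_aleph0.1 (h.trans (Cardinal.natCast_lt_aleph0))
    rw [hd, Nat.cast_lt] at h
    exact T.good_of_subsingleton V (T.vanish (2 * i) V hint d hd (by omega))
  · refine (T.fundamental V hint h).trans (Submodule.span_mono ?_)
    rintro _ rfl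
    exact ⟨_, rfl⟩
  · rcases lt_or_ge ((2 * i : ℕ) : Cardinal) (V.dim (genericPoint V.X)) with h2 | h2
    · exact T.good_of_subsingleton V (T.artin (2 * i) V hint haff hsm h2)
    · have hfg : (T.alg V).FG := IsNoetherian.noetherian _
      obtain ⟨s, hs, hspan⟩ := (Submodule.fg_span_iff_fg_span_finset_subset _).mp hfg
      have hs' : ∀ m : s, ∃ p : Pts i V, T.cl V p = m := fun m => hs m.2
      choose pt hpt using hs'
      let A : Set V.X := Set.range (fun m : s => (pt m).1)
      have hA : genericPoint V.X ∉ closure A := by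
        rw [show A = ⋃ m : s, {(pt m).1} by ext; simp [A, eq_comm], closure_iUnion_of_finite]
        intro hcon
        simp only [Set.mem_iUnion] at hcon
        obtain ⟨m, hm⟩ := hcon
        have h3 : (pt m).1 ⤳ genericPoint V.X := specializes_iff_mem_closure.mpr hm
        have h4 := dim_le_of_specializes V h3
        rw [(pt m).2] at h4
        exact absurd h (not_lt.mpr h4)
      have hmax : ∀ y : V.X, y ⤳ genericPoint V.X → y = genericPoint V.X := by
        intro y hy
        exact (hy.antisymm (genericPoint_specializes y)).eq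
      obtain ⟨U, hU1, hU2, hU3, hU4, hU5, hU6⟩ := exists_nice V (genericPoint V.X) hmax
        ⟨(closure A)ᶜ, isClosed_closure.isOpen_compl⟩ hA
      have hdim : (openVar V U).dim (genericPoint (openVar V U).X) = V.dim (genericPoint V.X) := by
        have := (openVarIn V U).isOpen
        rw [← dim_map (openVarIn V U).g (openVarIn V U).comm, hU6]
      have hcompU : Complementary (closedVarIn V U.compl) (openVarIn V U) :=
        complementary_open V U
      have hrange : ∀ m : s, (pt m).1 ∈ Set.range (closedVarIn V U.compl).g := by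
        intro m
        rw [range_closedVarIn]
        change (pt m).1 ∉ U
        intro h5
        exact hU2 h5 (subset_closure ⟨m, rfl⟩)
      have hres0 : ∀ m ∈ T.alg V, T.res (2 * i) (openVarIn V U) m = 0 := by
        intro m hm
        rw [Homology.alg, hspan] at hm
        induction hm using Submodule.span_induction with
        | mem x hx =>
          have h6 : T.cl V (pt ⟨x, hx⟩) = x := hpt ⟨x, hx⟩
          rw [← h6]
          exact T.res_cl_eq_zero _ (openVarIn V U) hcompU _ (hrange ⟨x, hx⟩)
        | zero => simp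
        | add x y _ _ hx hy => rw [map_add, hx, hy, add_zero]
        | smul a x _ hx => rw [map_smul, hx, smul_zero]
      have halg0 : ∀ m ∈ T.alg (openVar V U), m = 0 := by
        intro m hm
        obtain ⟨m', hm', rfl⟩ := T.res_alg_surj (openVarIn V U) hm
        exact hres0 m' hm'
      obtain ⟨U', j, hne, hinv⟩ := hT (openVar V U) hU5 hU3 hU4 (hdim ▸ h) (hdim ▸ h2)
        (fun x => halg0 _ (Submodule.subset_span ⟨x, rfl⟩))
      let j' : OpenIn U' V := j.trans (openVarIn V U)
      have hj' := j'.isOpen
      let O : V.X.Opens := j'.g.opensRange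
      have hO : genericPoint V.X ∈ O := by
        obtain ⟨u⟩ := hne
        exact (genericPoint_specializes (j'.g u)).mem_open O.2 ⟨u, rfl⟩
      have hcomp : Complementary (closedVarIn V O.compl) j' := by
        rw [Complementary, range_closedVarIn]
        rfl
      have hU'good : T.gen U' ≤ T.alg U' := by
        intro m hm
        rw [maxGen_eq_bot (T.frob (2 * i) U') hinv hm]
        exact zero_mem _
      exact T.glue (closedVarIn V O.compl) j' hcomp (hD _ (fun hcon => hcon hO)) hU'good


lemma lt_of_closed {Y X₀ : Var k} (h : Y.X ⟶ X₀.X) [IsPreimmersion h] (C : Closeds X₀.X)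
    (hC : ∀ y : Y.X, h y ∈ C) (D : Closeds Y.X) (y₀ : Y.X) (hy : y₀ ∉ D) :
    Closeds.closure (h '' (D : Set Y.X)) < C := by
  have h1 : Closeds.closure (h '' (D : Set Y.X)) ≤ C := by
    rw [Closeds.closure_le]
    rintro _ ⟨y, _, rfl⟩
    exact hC y
  refine lt_of_le_of_ne h1 ?_
  intro hcon
  have h2 : h y₀ ∈ closure (h '' (D : Set Y.X)) := by
    have : h y₀ ∈ Closeds.closure (h '' (D : Set Y.X)) := hcon ▸ hC y₀
    exact this
  have h3 : y₀ ∈ closure (D : Set Y.X) := by
    rw [h.isEmbedding.isInducing.closure_eq_preimage_closure_image]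
    exact h2
  rw [D.isClosed.closure_eq] at h3
  exact hy h3

/-- The main induction. -/
lemma Homology.good_aux [PerfectField k] (hN : ∀ (V : Var k) (_ : IsIntegral V.X),
    IsAffine V.X → Smooth V.f → (∀ D : Closeds V.X, genericPoint V.X ∉ D →
      T.gen (closedVar V D) ≤ T.alg (closedVar V D)) → T.gen V ≤ T.alg V)
    (X₀ : Var k) (C : Closeds X₀.X) :
    ∀ (Y : Var k) (g : Y.X ⟶ X₀.X), g ≫ X₀.f = Y.f → IsPreimmersion g → (∀ y, g y ∈ C) →
      T.gen Y ≤ T.alg Y := by
  induction C using WellFoundedLT.induction with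
  | ind C ih =>
  intro Y g comm hg hC
  apply T.good_of_red
  have hred := isReduced_redVar Y
  have hcl := (redVarIn Y).closed
  set Y' := redVar Y
  set g' : Y'.X ⟶ X₀.X := (redVarIn Y).g ≫ g
  have comm' : g' ≫ X₀.f = Y'.f := by
    rw [Category.assoc, comm, (redVarIn Y).comm]
  have hC' : ∀ y, g' y ∈ C := fun y => hC _
  rcases isEmpty_or_nonempty Y'.X with he | ⟨⟨x⟩⟩
  · exact T.good_of_subsingleton _ (T.empty _ _ he)
  obtain ⟨η, -, hη⟩ := exists_maximal Y' x
  obtain ⟨U, hU1, -, hU3, hU4, hU5, hU6⟩ := exists_nice Y' η hη ⊤ trivial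
  have hop := (openVarIn Y' U).isOpen
  -- closed subvarieties of a locally closed subvariety of `C` which miss a point are good
  have key : ∀ (W : Var k) (l : W.X ⟶ X₀.X), l ≫ X₀.f = W.f → IsPreimmersion l →
      (∀ y, l y ∈ C) → ∀ (D : Closeds W.X) (y₀ : W.X), y₀ ∉ D →
      T.gen (closedVar W D) ≤ T.alg (closedVar W D) := by
    intro W l hl1 hl2 hl3 D y₀ hy₀
    have hcl := (closedVarIn W D).closed
    refine ih (Closeds.closure (l '' (D : Set W.X))) (lt_of_closed l C hl3 D y₀ hy₀)
      (closedVar W D) ((closedVarIn W D).g ≫ l) ?_ inferInstance ?_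
    · rw [Category.assoc, hl1, (closedVarIn W D).comm]
    · intro y
      have h1 : (closedVarIn W D).g y ∈ (D : Set W.X) := by
        rw [← range_closedVarIn]
        exact ⟨y, rfl⟩
      exact subset_closure ⟨_, h1, rfl⟩
  refine T.glue (closedVarIn Y' U.compl) (openVarIn Y' U) (complementary_open Y' U) ?_ ?_
  · exact key Y' g' comm' inferInstance hC' U.compl η (fun hcon => hcon hU1)
  · refine hN (openVar Y' U) hU5 hU3 hU4 ?_
    intro D hD
    refine key (openVar Y' U) ((openVarIn Y' U).g ≫ g') ?_ inferInstance (fun y => hC' _) D _ hD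
    rw [Category.assoc, comm', (openVarIn Y' U).comm]

/-- The weakest form of surjectivity implies that for every variety the generalised eigenspace of
Frobenius is spanned by cycle classes. -/
theorem Homology.good_of_vanish [PerfectField k] (hT : T.SmallVanish) (X : Var k) :
    T.gen X ≤ T.alg X :=
  T.good_aux (fun V h1 h2 h3 h4 => T.good_nice hT V h1 h2 h3 h4) X ⊤ X (𝟙 _)
    (Category.id_comp _) inferInstance (fun _ => trivial)

lemma Homology.cl_zero_of_open {U' U : Var k} (j : OpenIn U' U)
    (h : ∀ x : Pts i U, T.cl U x = 0) (x : Pts i U') : T.cl U' x = 0 := by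
  have := j.isOpen
  have hx := (dim_map j.g j.comm x.1).trans x.2
  rw [← T.res_cl j x hx]
  exact (congrArg _ (h _)).trans (map_zero _)

lemma Homology.inv_zero_of_surj {U : Var k} (hs : T.Surj U) (h : ∀ x : Pts i U, T.cl U x = 0) :
    ∀ m : T.H (2 * i) U, T.F (2 * i) U m = m → m = 0 := by
  intro m hm
  obtain ⟨a, rfl⟩ := hs m hm
  have h1 := T.clMap_mem_alg U a
  have h2 : T.alg U ≤ ⊥ := by
    rw [Homology.alg, Submodule.span_le]
    rintro _ ⟨x, rfl⟩
    rw [h x]
    exact zero_mem _
  exact (Submodule.mem_bot E).1 (h2 h1)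

/-- Small surjectivity implies that for every variety the generalised eigenspace of Frobenius is
spanned by cycle classes. -/
theorem Homology.good_all [PerfectField k] (hT : T.SmallSurj) (X : Var k) :
    T.gen X ≤ T.alg X := by
  refine T.good_of_vanish ?_ X
  intro U hint haff hsm h1 h2 h3
  obtain ⟨U', j, hne, hs⟩ := hT U hint haff hsm h1 h2
  exact ⟨U', j, hne, T.inv_zero_of_surj hs (T.cl_zero_of_open j h3)⟩

theorem Homology.surj_of_good (X : Var k) (h : T.gen X ≤ T.alg X) : T.Surj X := by
  intro m hm
  replace hm : T.frob (2 * i) X m = m := hm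
  have h1 : m ∈ T.alg X := h ((mem_maxGen_iff _ _).mpr ⟨1, by
    rw [pow_one, LinearMap.sub_apply, Module.End.one_apply, hm, sub_self]⟩)
  rw [Homology.alg, ← Finsupp.range_linearCombination] at h1
  obtain ⟨c, hc⟩ := h1
  exact ⟨(ratZero E i X).mkQ c, by rw [T.clMap_mk, hc]⟩

theorem Homology.semisimple_of_good (X : Var k) (h : T.gen X ≤ T.alg X) : T.Semisimple X := by
  intro m hm
  replace hm : T.frob (2 * i) X (T.frob (2 * i) X m - m) = T.frob (2 * i) X m - m := hm
  apply T.frob_alg X m
  apply h
  refine (mem_maxGen_iff _ _).mpr ⟨2, ?_⟩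
  rw [pow_two, Module.End.mul_apply, LinearMap.sub_apply, LinearMap.sub_apply,
    Module.End.one_apply, Module.End.one_apply, hm, sub_self]

end Pool.Agent.Lib_helper55.Beil


end

section

/-!
The injectivity half: if the cycle class map is injective for the varieties of dimension at most
`2 * i + 1`, then it is injective for all varieties.
-/

open CategoryTheory AlgebraicGeometry TopologicalSpace

namespace Pool.Agent.Lib_helper55.Beil

universe v

variable {k : Type} [Field k] {E : Type} [Field E] {i : ℕ} (T : Homology.{v} k E i)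

lemma closedIn_injective {Z X : Var k} (a : ClosedIn Z X) : Function.Injective a.g := by
  have := a.closed
  exact a.g.isEmbedding.injective

/-- The map on `i`-dimensional points defined by a closed immersion. -/
noncomputable def ptsMap (i : ℕ) {Z X : Var k} (a : ClosedIn Z X) (z : Pts i Z) : Pts i X :=
  ⟨a.g z.1, by
    have := a.closed
    rw [dim_map a.g a.comm]
    exact z.2⟩

lemma ptsMap_injective (i : ℕ) {Z X : Var k} (a : ClosedIn Z X) :
    Function.Injective (ptsMap i a) := by
  intro z w h
  exact Subtype.ext (closedIn_injective a (congrArg Subtype.val h))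

lemma mem_range_ptsMap {Z X : Var k} (a : ClosedIn Z X) (p : Pts i X)
    (hp : p.1 ∈ Set.range a.g) : p ∈ Set.range (ptsMap i a) := by
  obtain ⟨z, hz⟩ := hp
  have := a.closed
  refine ⟨⟨z, ?_⟩, Subtype.ext hz⟩
  rw [← dim_map a.g a.comm, hz]
  exact p.2

/-- Push-forward of cycles along closed immersions preserves rational equivalence. -/
lemma ratZero_map {Z X : Var k} (a : ClosedIn Z X) (c : Pts i Z →₀ E)
    (hc : c ∈ ratZero E i Z) : Finsupp.mapDomain (ptsMap i a) c ∈ ratZero E i X := by
  induction hc using Submodule.span_induction with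
  | mem c hc =>
    obtain ⟨W, hW, b, φ, h1, h2, h3, h4⟩ := hc
    refine Submodule.subset_span ⟨W, hW, b.trans a, φ, h1, h2, ?_, ?_⟩
    · intro w h
      have hw : Z.dim (b.g w) = i := by
        have := a.closed
        rw [← dim_map a.g a.comm]
        exact h
      have h5 : Finsupp.mapDomain (ptsMap i a) c (ptsMap i a (Subtype.mk (b.g w) hw : Pts i Z)) =
          c (Subtype.mk (b.g w) hw : Pts i Z) :=
        Finsupp.mapDomain_apply (ptsMap_injective i a) _ _
      exact h5.trans (h3 w hw)
    · intro x hx
      by_cases hx2 : x ∈ Set.range (ptsMap i a)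
      · obtain ⟨z, rfl⟩ := hx2
        rw [Finsupp.mapDomain_apply (ptsMap_injective i a)]
        apply h4
        rintro ⟨w, hw⟩
        exact hx ⟨w, congrArg a.g hw⟩
      · exact Finsupp.mapDomain_of_notMem_range _ _ hx2
  | zero => simp
  | add x y _ _ hx hy => rw [Finsupp.mapDomain_add]; exact add_mem hx hy
  | smul r x _ hx => rw [Finsupp.mapDomain_smul]; exact Submodule.smul_mem _ _ hx

lemma Homology.push_linComb {Z X : Var k} (a : ClosedIn Z X) (c : Pts i Z →₀ E) :
    T.push (2 * i) a (Finsupp.linearCombination E (T.cl Z) c) =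
      Finsupp.linearCombination E (T.cl X) (Finsupp.mapDomain (ptsMap i a) c) := by
  rw [Finsupp.linearCombination_mapDomain, ← LinearMap.comp_apply,
    ← Finsupp.linearCombination_linear_comp]
  congr 2
  funext z
  exact T.push_cl a z (ptsMap i a z).2

/-- Injectivity in terms of cycles. -/
def Homology.InjC (X : Var k) : Prop :=
  ∀ c : Pts i X →₀ E, Finsupp.linearCombination E (T.cl X) c = 0 → c ∈ ratZero E i X

lemma Homology.inj_iff (X : Var k) : T.Inj X ↔ T.InjC X := by
  constructor
  · intro h c hc
    have h1 : T.clMap X ((ratZero E i X).mkQ c) = T.clMap X 0 := by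
      rw [T.clMap_mk, hc, map_zero]
    have h2 := h h1
    rwa [Submodule.mkQ_apply, Submodule.Quotient.mk_eq_zero] at h2
  · intro h
    rw [Homology.Inj, injective_iff_map_eq_zero]
    intro a ha
    obtain ⟨c, rfl⟩ := (ratZero E i X).mkQ_surjective a
    rw [T.clMap_mk] at ha
    rw [Submodule.mkQ_apply, Submodule.Quotient.mk_eq_zero]
    exact h c ha

/-- If `H (2 * i + 1) U` vanishes then a homologically trivial cycle of `X` with support in the
complement of `U` is rationally equivalent to zero, provided that `cl_i` is injective for this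
complement. -/
lemma Homology.injC_glue {Z U X : Var k} (a : ClosedIn Z X) (j : OpenIn U X)
    (h : Complementary a j) (hU : Subsingleton (T.H (2 * i + 1) U)) (hZ : T.InjC Z)
    (c : Pts i X →₀ E) (hc : ∀ p ∈ c.support, p.1 ∈ Set.range a.g)
    (hc0 : Finsupp.linearCombination E (T.cl X) c = 0) : c ∈ ratZero E i X := by
  obtain ⟨c', hc'⟩ : ∃ c' : Pts i Z →₀ E, Finsupp.mapDomain (ptsMap i a) c' = c := by
    refine ⟨Finsupp.comapDomain (ptsMap i a) c (ptsMap_injective i a).injOn, ?_⟩
    apply Finsupp.mapDomain_comapDomain _ (ptsMap_injective i a)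
    intro p hp
    exact mem_range_ptsMap a p (hc p hp)
  have h1 : T.push (2 * i) a (Finsupp.linearCombination E (T.cl Z) c') = 0 := by
    rw [T.push_linComb, hc', hc0]
  obtain ⟨bd, hbd⟩ := (T.localisation (2 * i) Z U X a j h).2
  obtain ⟨u, hu⟩ := (hbd _).mp h1
  have h2 : Finsupp.linearCombination E (T.cl Z) c' = 0 := by
    rw [← hu, Subsingleton.elim u 0, map_zero]
  rw [← hc']
  exact ratZero_map a c' (hZ c' h2)

lemma Homology.injC_of_red (X : Var k) (h : T.InjC (redVar X)) : T.InjC X := by
  intro c hc
  refine T.injC_glue (redVarIn X) (openVarIn X ⊥) (complementary_red X)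
    (T.empty _ _ (isEmpty_openVar_bot X)) h c (fun p _ => ?_) hc
  rw [range_redVarIn]
  exact Set.mem_univ _

/-- Injectivity of `cl_i` for the varieties of dimension at most `2 * i + 1`. -/
def Homology.LowInj : Prop := ∀ X : Var k, X.DimLE (2 * i + 1) → T.Inj X

lemma Homology.injC_aux [PerfectField k] (hT : T.LowInj) (X₀ : Var k) (C : Closeds X₀.X) :
    ∀ (Y : Var k) (g : Y.X ⟶ X₀.X), g ≫ X₀.f = Y.f → IsPreimmersion g → (∀ y, g y ∈ C) →
      T.InjC Y := by
  induction C using WellFoundedLT.induction with
  | ind C ih =>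
  intro Y g comm hg hC
  apply T.injC_of_red
  have hred := isReduced_redVar Y
  have hcl := (redVarIn Y).closed
  set Y' := redVar Y
  set g' : Y'.X ⟶ X₀.X := (redVarIn Y).g ≫ g
  have comm' : g' ≫ X₀.f = Y'.f := by
    rw [Category.assoc, comm, (redVarIn Y).comm]
  have hC' : ∀ y, g' y ∈ C := fun y => hC _
  by_cases hlow : Y'.DimLE (2 * i + 1)
  · exact (T.inj_iff Y').mp (hT Y' hlow)
  rw [Var.DimLE] at hlow
  push Not at hlow
  obtain ⟨x, hx⟩ := hlow
  obtain ⟨η, hηx, hη⟩ := exists_maximal Y' x
  have hηdim : ((2 * i + 1 : ℕ) : Cardinal) < Y'.dim η :=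
    hx.trans_le (dim_le_of_specializes Y' hηx)
  intro c hc
  let A : Set Y'.X := Set.range (fun p : c.support => p.1.1)
  have hA : η ∉ closure A := by
    rw [show A = ⋃ p : c.support, {p.1.1} by ext; simp [A, eq_comm], closure_iUnion_of_finite]
    intro hcon
    simp only [Set.mem_iUnion] at hcon
    obtain ⟨p, hp⟩ := hcon
    have h3 : p.1.1 ⤳ η := specializes_iff_mem_closure.mpr hp
    have h4 := hη _ h3
    have h5 := p.1.2
    rw [h4] at h5
    rw [h5, Nat.cast_lt] at hηdim
    omega
  obtain ⟨U, hU1, hU2, hU3, hU4, hU5, hU6⟩ := exists_nice Y' η hη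
    ⟨(closure A)ᶜ, isClosed_closure.isOpen_compl⟩ hA
  have hdim : (openVar Y' U).dim (genericPoint (openVar Y' U).X) = Y'.dim η := by
    have := (openVarIn Y' U).isOpen
    rw [← dim_map (openVarIn Y' U).g (openVarIn Y' U).comm, hU6]
  have hcl2 := (closedVarIn Y' U.compl).closed
  have hZ : T.InjC (closedVar Y' U.compl) := by
    refine ih (Closeds.closure (g' '' (U.compl : Set Y'.X)))
      (lt_of_closed g' C hC' U.compl η (fun hcon => hcon hU1))
      (closedVar Y' U.compl) ((closedVarIn Y' U.compl).g ≫ g') ?_ inferInstance ?_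
    · rw [Category.assoc, comm', (closedVarIn Y' U.compl).comm]
    · intro y
      have h1 : (closedVarIn Y' U.compl).g y ∈ (U.compl : Set Y'.X) := by
        rw [← range_closedVarIn]
        exact ⟨y, rfl⟩
      exact subset_closure ⟨_, h1, rfl⟩
  refine T.injC_glue (closedVarIn Y' U.compl) (openVarIn Y' U) (complementary_open Y' U)
    (T.artin (2 * i + 1) _ hU5 hU3 hU4 (hdim ▸ hηdim)) hZ c ?_ hc
  intro p hp
  rw [range_closedVarIn]
  intro hcon
  exact hU2 hcon (subset_closure ⟨⟨p, hp⟩, rfl⟩)

/-- Injectivity in dimension at most `2 * i + 1` implies injectivity for all varieties. -/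
theorem Homology.inj_all [PerfectField k] (hT : T.LowInj) (X : Var k) : T.Inj X :=
  (T.inj_iff X).mpr
    (T.injC_aux hT X ⊤ X (𝟙 _) (Category.id_comp _) inferInstance (fun _ => trivial))

end Pool.Agent.Lib_helper55.Beil


end
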