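import Mathlib
import Pool.Agent.QVM.C01
import Pool.Agent.QVM.C03

/-! Parts: Lib_helper55.Beil.Cover, Lib_helper55.Beil.Geom2, Lib_helper55.Beil.Full -/

section

/-!
Every smooth integral variety over a field of positive characteristic has a nonempty open
subvariety which is a finite etale cover of an affine space; consequences for the surjectivity of
the cycle class maps.
-/

open CategoryTheory AlgebraicGeometry TopologicalSpace

namespace Pool.Agent.Lib_helper55.Beil

universe v

variable {k : Type} [Field k]

/-- `U` is a finite etale cover of the affine space of dimension `d` over `k`. -/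
def Var.EtaleCover (U : Var k) (d : ℕ) : Prop :=
  ∃ g : U.X ⟶ Spec (CommRingCat.of (MvPolynomial (Fin d) k)), IsFinite g ∧ Etale g ∧
    g ≫ Spec.map (CommRingCat.ofHom MvPolynomial.C) = U.f

/-- `Z` is a smooth proper integral variety of dimension `d`. -/
def Var.SmoothProper (Z : Var k) (d : ℕ) : Prop :=
  Smooth Z.f ∧ IsProper Z.f ∧ ∃ _ : AlgebraicGeometry.IsIntegral Z.X, Z.dim (genericPoint Z.X) = d

lemma fromSpecResidueField_of_affine {X : Scheme.{0}} {W : X.Opens} (hW : IsAffineOpen W) (x : X)
    (hx : x ∈ W) : X.fromSpecResidueField x =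
      Spec.map (X.presheaf.germ W x hx ≫ X.residue x) ≫ hW.fromSpec := by
  rw [Scheme.fromSpecResidueField, ← hW.fromSpecStalk_eq_fromSpecStalk hx, Spec.map_comp,
    Category.assoc]
  rfl

/-- For an affine open neighbourhood of the generic point with ring `S`, the dimension of the
generic point is the transcendence degree of `S`. -/
lemma dim_generic_eq (V : Var k) [IsIntegral V.X] (W : V.X.Opens) (hW : IsAffineOpen W)
    (hη : genericPoint V.X ∈ W) (ψ : k →+* Γ(V.X, W))
    (hψ : Spec.map (CommRingCat.ofHom ψ) = hW.fromSpec ≫ V.f) :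
    V.dim (genericPoint V.X) = @Algebra.trdeg k Γ(V.X, W) _ _ ψ.toAlgebra := by
  have hne : Nonempty W := ⟨⟨_, hη⟩⟩
  let ρ : Γ(V.X, W) ⟶ V.X.residueField (genericPoint V.X) :=
    V.X.presheaf.germ W _ hη ≫ V.X.residue _
  have h1 : ρ.hom.comp ψ = V.toResidue (genericPoint V.X) := by
    have : CommRingCat.ofHom ψ ≫ ρ =
        Spec.preimage (V.X.fromSpecResidueField (genericPoint V.X) ≫ V.f) := by
      apply Spec.map_injective
      rw [Spec.map_comp, Spec.map_preimage, fromSpecResidueField_of_affine hW _ hη, hψ,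
        Category.assoc]
    exact congrArg CommRingCat.Hom.hom this
  let : Algebra k Γ(V.X, W) := ψ.toAlgebra
  let : Algebra k (V.X.residueField (genericPoint V.X)) :=
    (V.toResidue (genericPoint V.X)).toAlgebra
  let : Algebra Γ(V.X, W) (V.X.residueField (genericPoint V.X)) := ρ.hom.toAlgebra
  have tower : IsScalarTower k Γ(V.X, W) (V.X.residueField (genericPoint V.X)) :=
    IsScalarTower.of_algebraMap_eq' h1.symm
  let res : V.X.functionField →+* V.X.residueField (genericPoint V.X) := (V.X.residue _).hom
  have hres : Function.Bijective res := ⟨res.injective, V.X.residue_surjective _⟩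
  have hfrac : IsFractionRing Γ(V.X, W) V.X.functionField :=
    functionField_isFractionRing_of_isAffineOpen V.X W hW
  let e : V.X.functionField ≃ₐ[Γ(V.X, W)] V.X.residueField (genericPoint V.X) :=
    AlgEquiv.ofBijective { res with commutes' := fun r => rfl } hres
  have hfrac2 : IsFractionRing Γ(V.X, W) (V.X.residueField (genericPoint V.X)) :=
    IsLocalization.isLocalization_of_algEquiv (nonZeroDivisors _) e
  have halg : Algebra.IsAlgebraic Γ(V.X, W) (V.X.residueField (genericPoint V.X)) :=
    IsLocalization.isAlgebraic _ (nonZeroDivisors _)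
  have hf : FaithfulSMul Γ(V.X, W) (V.X.residueField (genericPoint V.X)) :=
    (faithfulSMul_iff_algebraMap_injective _ _).2 (IsFractionRing.injective _ _)
  have hf2 : FaithfulSMul k Γ(V.X, W) :=
    (faithfulSMul_iff_algebraMap_injective _ _).2 ψ.injective
  have h2 := _root_.trdeg_add_eq (R := k) (S := Γ(V.X, W))
    (A := V.X.residueField (genericPoint V.X))
  have h0 : Algebra.trdeg Γ(V.X, W) (V.X.residueField (genericPoint V.X)) = 0 :=
    _root_.trdeg_eq_zero
  rw [h0, add_zero] at h2
  exact h2.symm

/-- Every smooth integral variety over a field of positive characteristic has a nonempty open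
subvariety which is a finite etale cover of an affine space. -/
theorem exists_etaleCover (p : ℕ) (hp : 0 < p) [CharP k p] (V : Var k) [IsIntegral V.X]
    (hsm : Smooth V.f) : ∃ (W : V.X.Opens) (d : ℕ), genericPoint V.X ∈ W ∧
      (openVar V W).EtaleCover d ∧ V.dim (genericPoint V.X) = d := by
  obtain ⟨U₀, hU₀, W, hW, hη, e, hstd⟩ := Smooth.exists_isStandardSmooth V.f (genericPoint V.X)
  have hne : Nonempty W := ⟨⟨_, hη⟩⟩
  obtain rfl : U₀ = ⊤ := by
    rw [eq_top_iff]
    intro x _
    have : x = V.f (genericPoint V.X) := Subsingleton.elim (α := PrimeSpectrum k) _ _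
    rw [this]
    exact e hη
  let ψ' : CommRingCat.of k ⟶ Γ(V.X, W) := (Scheme.ΓSpecIso _).inv ≫ V.f.appLE ⊤ W e
  let ψ : k →+* Γ(V.X, W) := ψ'.hom
  have hψ : Spec.map (CommRingCat.ofHom ψ) = hW.fromSpec ≫ V.f := by
    change Spec.map ψ' = _
    rw [← hU₀.SpecMap_appLE_fromSpec V.f hW e, Spec.map_comp]
    congr 1
    have : hU₀.fromSpec = (Spec (CommRingCat.of k)).isoSpec.inv := IsAffineOpen.fromSpec_top
    rw [this, Scheme.isoSpec_Spec_inv]
  have hstd' : ψ.IsStandardSmooth :=
    RingHom.isStandardSmooth_respectsIso.2 (V.f.appLE ⊤ W e).hom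
      (Scheme.ΓSpecIso (CommRingCat.of k)).symm.commRingCatIsoToRingEquiv hstd
  let : Algebra k Γ(V.X, W) := ψ.toAlgebra
  have : Algebra.IsStandardSmooth k Γ(V.X, W) := hstd'
  obtain ⟨d, φ, hfin, het, htr⟩ := exists_finite_etale (k := k) (S := Γ(V.X, W)) p hp
  refine ⟨W, d, hη, ?_, ?_⟩
  · have h1 : IsFinite (Spec.map (CommRingCat.ofHom φ.toRingHom)) :=
      (IsFinite.SpecMap_iff _).2 hfin
    have h2 : Etale (Spec.map (CommRingCat.ofHom φ.toRingHom)) :=
      (HasRingHomProperty.Spec_iff (P := @Etale)).2 het
    have h3 : CommRingCat.ofHom MvPolynomial.C ≫ CommRingCat.ofHom φ.toRingHom =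
        CommRingCat.ofHom ψ := by
      ext a
      exact φ.commutes a
    have h4 : (hW.isoSpec.hom ≫ Spec.map (CommRingCat.ofHom φ.toRingHom)) ≫
        Spec.map (CommRingCat.ofHom MvPolynomial.C) = W.ι ≫ V.f := by
      rw [Category.assoc, ← Spec.map_comp, h3, hψ, ← Category.assoc, hW.isoSpec_hom_fromSpec]
    exact ⟨hW.isoSpec.hom ≫ Spec.map (CommRingCat.ofHom φ.toRingHom),
      inferInstanceAs (IsFinite (hW.isoSpec.hom ≫ Spec.map (CommRingCat.ofHom φ.toRingHom))),
      inferInstanceAs (Etale (hW.isoSpec.hom ≫ Spec.map (CommRingCat.ofHom φ.toRingHom))), h4⟩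
  · rw [dim_generic_eq V W hW hη ψ hψ]
    exact htr

variable {E : Type} [Field E] {i : ℕ} (T : Homology.{v} k E i)

/-- On the integral finite etale covers `U` of the affine spaces of dimension `d`, `i < d ≤ 2 * i`,
on which all cycle classes vanish, Frobenius has no invariants, at least on a nonempty open
subvariety. -/
def Homology.CoverVanish : Prop :=
  ∀ (d : ℕ) (U : Var k), i < d → d ≤ 2 * i → AlgebraicGeometry.IsIntegral U.X → U.EtaleCover d →
    (∀ x : Pts i U, T.cl U x = 0) →
      ∃ (U' : Var k) (_ : OpenIn U' U), Nonempty U'.X ∧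
        ∀ m : T.H (2 * i) U', T.F (2 * i) U' m = m → m = 0

theorem Homology.smallVanish_of_cover (p : ℕ) (hp : 0 < p) [CharP k p] (hT : T.CoverVanish) :
    T.SmallVanish := by
  intro V hint _ hsm h1 h2 h3
  obtain ⟨W, d, hη, hcov, hd⟩ := exists_etaleCover p hp V hsm
  rw [hd, Nat.cast_lt] at h1
  rw [hd, Nat.cast_le] at h2
  have hne : Nonempty W := ⟨⟨_, hη⟩⟩
  obtain ⟨U', j, hne', hinv⟩ := hT d (openVar V W) h1 h2
    (inferInstanceAs (AlgebraicGeometry.IsIntegral W.toScheme)) hcov
    (T.cl_zero_of_open (openVarIn V W) h3)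
  exact ⟨U', j.trans (openVarIn V W), hne', hinv⟩

/-- For a finite field the vanishing for small etale covers of affine spaces implies that for every
variety the generalised eigenspace of Frobenius is spanned by cycle classes. -/
theorem Homology.good_of_cover [Finite k] (hT : T.CoverVanish) (X : Var k) :
    T.gen X ≤ T.alg X := by
  obtain ⟨p, hp⟩ := CharP.exists k
  have hp0 : p ≠ 0 := CharP.char_ne_zero_of_finite k p
  exact T.good_of_vanish (T.smallVanish_of_cover p (Nat.pos_of_ne_zero hp0) hT) X

end Pool.Agent.Lib_helper55.Beil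


end

section

/-!
More geometry of varieties: factorisation of closed and open immersions, finite etale coverings.
-/

open CategoryTheory AlgebraicGeometry TopologicalSpace

namespace Pool.Agent.Lib_helper55.Beil

universe v

variable {k : Type} [Field k]

lemma closedIn_ext {Z X : Var k} {a b : ClosedIn Z X} (h : a.g = b.g) : a = b := by
  cases a; cases b; cases h; rfl

/-- The inclusion of the closed subvarieties with underlying sets `C ≤ C'`. -/
noncomputable def closedVarMap (X : Var k) {C C' : Closeds X.X} (h : C ≤ C') :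
    ClosedIn (closedVar X C) (closedVar X C') where
  g := Scheme.IdealSheafData.inclusion (Scheme.IdealSheafData.vanishingIdeal_antimono h)
  comm := by
    change _ ≫ Scheme.IdealSheafData.subschemeι _ ≫ X.f = Scheme.IdealSheafData.subschemeι _ ≫ X.f
    rw [Scheme.IdealSheafData.inclusion_subschemeι_assoc]
  closed := inferInstanceAs (IsClosedImmersion (Scheme.IdealSheafData.inclusion
    (Scheme.IdealSheafData.vanishingIdeal_antimono h)))

lemma closedVarMap_comp (X : Var k) {C C' : Closeds X.X} (h : C ≤ C') :
    (closedVarMap X h).g ≫ (closedVarIn X C').g = (closedVarIn X C).g :=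
  Scheme.IdealSheafData.inclusion_subschemeι _

/-- A morphism from a reduced scheme into a closed subset. -/
lemma vanishingIdeal_le_ker {W X : Scheme.{0}} [IsReduced W] (f : W ⟶ X)
    (C : Closeds X) (h : ∀ w, f w ∈ C) : Scheme.IdealSheafData.vanishingIdeal C ≤ f.ker := by
  have h1 : f.ker = Scheme.IdealSheafData.vanishingIdeal (.closure (f '' (⊤ : Closeds W))) := by
    rw [← Scheme.IdealSheafData.map_vanishingIdeal, Scheme.IdealSheafData.vanishingIdeal_top,
      Scheme.nilradical_eq_bot, Scheme.IdealSheafData.map_bot]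
  rw [h1]
  apply Scheme.IdealSheafData.vanishingIdeal_antimono
  rw [Closeds.closure_le]
  rintro _ ⟨w, _, rfl⟩
  exact h w

/-- The factorisation of a morphism from a reduced scheme through a closed subset. -/
noncomputable def liftC {W X : Scheme.{0}} [IsReduced W] (f : W ⟶ X) (C : Closeds X)
    (h : ∀ w, f w ∈ C) : W ⟶ (Scheme.IdealSheafData.vanishingIdeal C).subscheme :=
  IsClosedImmersion.lift (Scheme.IdealSheafData.vanishingIdeal C).subschemeι f
    (by rw [Scheme.IdealSheafData.ker_subschemeι]; exact vanishingIdeal_le_ker f C h)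

lemma liftC_comp {W X : Scheme.{0}} [IsReduced W] (f : W ⟶ X) (C : Closeds X)
    (h : ∀ w, f w ∈ C) :
    liftC f C h ≫ (Scheme.IdealSheafData.vanishingIdeal C).subschemeι = f :=
  IsClosedImmersion.lift_fac _ _ _

/-- The factorisation of a closed immersion of a reduced variety through a closed subset which
contains its image. -/
noncomputable def factorC {W X : Var k} [IsReduced W.X] (a : ClosedIn W X) (C : Closeds X.X)
    (h : ∀ w, a.g w ∈ C) : ClosedIn W (closedVar X C) where
  g := liftC a.g C h
  comm := by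
    change liftC a.g C h ≫ Scheme.IdealSheafData.subschemeι _ ≫ X.f = _
    rw [← Category.assoc, liftC_comp, a.comm]
  closed := by
    have h2 : IsClosedImmersion
        (liftC a.g C h ≫ (Scheme.IdealSheafData.vanishingIdeal C).subschemeι) := by
      rw [liftC_comp]
      exact a.closed
    exact IsClosedImmersion.of_comp (liftC a.g C h)
      (Scheme.IdealSheafData.vanishingIdeal C).subschemeι

lemma factorC_comp {W X : Var k} [IsReduced W.X] (a : ClosedIn W X) (C : Closeds X.X)
    (h : ∀ w, a.g w ∈ C) : (factorC a C h).g ≫ (closedVarIn X C).g = a.g :=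
  liftC_comp a.g C h

/-- The factorisation of an open immersion through a larger one. -/
noncomputable def factorO {V U X : Var k} (l : OpenIn V X) (j : OpenIn U X)
    (h : Set.range l.g ⊆ Set.range j.g) : OpenIn V U where
  g := by
    have := j.isOpen
    exact IsOpenImmersion.lift j.g l.g h
  comm := by
    have := j.isOpen
    have h1 : IsOpenImmersion.lift j.g l.g h ≫ j.g = l.g := IsOpenImmersion.lift_fac _ _ _
    change IsOpenImmersion.lift j.g l.g h ≫ U.f = V.f
    rw [← j.comm, ← Category.assoc, h1, l.comm]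
  isOpen := by
    have := j.isOpen
    have h1 : IsOpenImmersion.lift j.g l.g h ≫ j.g = l.g := IsOpenImmersion.lift_fac _ _ _
    have h2 := l.isOpen
    rw [← h1] at h2
    exact IsOpenImmersion.of_comp _ j.g

lemma factorO_comp {V U X : Var k} (l : OpenIn V X) (j : OpenIn U X)
    (h : Set.range l.g ⊆ Set.range j.g) : (factorO l j h).g ≫ j.g = l.g := by
  have := j.isOpen
  exact IsOpenImmersion.lift_fac _ _ _

/-- A finite etale surjective morphism over `k`. -/
structure FinEt (V U : Var k) where
  /-- the morphism -/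
  g : V.X ⟶ U.X
  comm : g ≫ U.f = V.f
  finite : IsFinite g
  etale : Etale g
  surj : Surjective g

/-- The restriction of a finite etale covering to an open subvariety. -/
noncomputable def FinEt.restrict {V U : Var k} (π : FinEt V U) (O : U.X.Opens) :
    FinEt (openVar V (π.g ⁻¹ᵁ O)) (openVar U O) where
  g := π.g ∣_ O
  comm := by
    change (π.g ∣_ O) ≫ O.ι ≫ U.f = (π.g ⁻¹ᵁ O).ι ≫ V.f
    rw [← π.comm, morphismRestrict_ι_assoc]
  finite := by
    have := π.finite
    exact inferInstanceAs (IsFinite (π.g ∣_ O))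
  etale := by
    have := π.etale
    exact inferInstanceAs (Etale (π.g ∣_ O))
  surj := by
    exact IsZariskiLocalAtTarget.restrict (P := @Surjective) π.surj O

lemma FinEt.restrict_comm {V U : Var k} (π : FinEt V U) (O : U.X.Opens) :
    (π.restrict O).g ≫ (openVarIn U O).g = (openVarIn V (π.g ⁻¹ᵁ O)).g ≫ π.g :=
  morphismRestrict_ι _ _

/-- For a finite morphism from an integral variety, the image of a proper closed subset is not
dense. -/
lemma FinEt.exists_open {V U : Var k} (π : FinEt V U) [IsIntegral V.X] (O : V.X.Opens)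
    (hO : genericPoint V.X ∈ O) :
    ∃ P : U.X.Opens, π.g (genericPoint V.X) ∈ P ∧ π.g ⁻¹ᵁ P ≤ O := by
  have hfin := π.finite
  have hcl : IsClosed (π.g '' (O : Set V.X)ᶜ) := π.g.isClosedMap _ O.2.isClosed_compl
  refine ⟨⟨(π.g '' (O : Set V.X)ᶜ)ᶜ, hcl.isOpen_compl⟩, ?_, ?_⟩
  · rintro ⟨x, hx, hxη⟩
    have hdisc := (π.g.isDiscrete_preimage_singleton (π.g (genericPoint V.X))).to_subtype
    have h1 : (⟨genericPoint V.X, rfl⟩ : π.g ⁻¹' {π.g (genericPoint V.X)}) ⤳ ⟨x, hxη⟩ := by
      rw [subtype_specializes_iff]
      exact genericPoint_specializes x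
    have h2 : genericPoint V.X = x := congrArg Subtype.val h1.eq
    exact hx (by rw [← h2]; exact hO)
  · intro x hx
    by_contra hcon
    exact hx ⟨x, hcon, rfl⟩

end Pool.Agent.Lib_helper55.Beil


end

section

/-!
Generic vanishing of Frobenius invariants and the bijectivity of the cycle class maps.
-/

open CategoryTheory AlgebraicGeometry TopologicalSpace

namespace Pool.Agent.Lib_helper55.Beil

universe v

variable {k : Type} [Field k] {E : Type} [Field E]

/-- Boundary maps `H (n + 1) U → H n Z` for a closed subvariety `Z` of `X` with complement `U`. -/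
structure BdMap (T : Maps.{v} k E) where
  /-- the boundary maps -/
  bd : ∀ (n : ℕ) {Z U X : Var k} (a : ClosedIn Z X) (j : OpenIn U X), Complementary a j →
    (T.H (n + 1) U →ₗ[E] T.H n Z)

/-- The boundary of a homology class. -/
def BdMap.D {T : Maps.{v} k E} (B : BdMap T) (n : ℕ) {Z U X : Var k} (a : ClosedIn Z X)
    (j : OpenIn U X) (h : Complementary a j) (m : T.H (n + 1) U) : T.H n Z := B.bd n a j h m

/-- The boundary maps commute with Frobenius. -/
def BdMap.Equivariant {T : Maps.{v} k E} (B : BdMap T) : Prop :=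
  ∀ (n : ℕ) (Z U X : Var k) (a : ClosedIn Z X) (j : OpenIn U X) (h : Complementary a j)
    (m : T.H (n + 1) U), B.D n a j h (T.F (n + 1) U m) = T.F n Z (B.D n a j h m)

/-- The localisation sequences are exact at `H (n + 1) U` and at `H n Z`. -/
def BdMap.Exact {T : Maps.{v} k E} (B : BdMap T) : Prop :=
  ∀ (n : ℕ) (Z U X : Var k) (a : ClosedIn Z X) (j : OpenIn U X) (h : Complementary a j),
    Function.Exact (T.R (n + 1) j) (B.D n a j h) ∧ Function.Exact (B.D n a j h) (T.P n a)

/-- The boundary maps are compatible with the passage to a smaller open subvariety. -/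
def BdMap.Shrink {T : Maps.{v} k E} (B : BdMap T) : Prop :=
  ∀ (n : ℕ) (Z U Z' U' X : Var k) (a : ClosedIn Z X) (j : OpenIn U X)
    (h : Complementary a j) (a' : ClosedIn Z' X) (j' : OpenIn U' X) (h' : Complementary a' j')
    (b : ClosedIn Z Z') (l : OpenIn U' U), b.g ≫ a'.g = a.g → l.g ≫ j.g = j'.g →
    ∀ m : T.H (n + 1) U, T.P n b (B.D n a j h m) = B.D n a' j' h' (T.R (n + 1) l m)

/-- The restrictions to open subvarieties are functorial. -/
def Maps.ResComp (T : Maps.{v} k E) : Prop :=
  ∀ (n : ℕ) (U V X : Var k) (j : OpenIn U V) (l : OpenIn V X) (l' : OpenIn U X),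
    j.g ≫ l.g = l'.g → ∀ m : T.H n X, T.R n l' m = T.R n j (T.R n l m)

/-- The long exact localisation sequences: boundary maps which commute with Frobenius, make the
localisation sequences exact and are compatible with the passage to a smaller open subvariety.
Moreover the restrictions are functorial. -/
structure Boundary (T : Maps.{v} k E) extends BdMap T where
  equivariance : toBdMap.Equivariant
  exactness : toBdMap.Exact
  shrinking : toBdMap.Shrink
  functoriality : T.ResComp

section

variable {T : Maps.{v} k E} (B : Boundary T)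

lemma Boundary.equivariant (n : ℕ) (Z U X : Var k) (a : ClosedIn Z X) (j : OpenIn U X)
    (h : Complementary a j) (m : T.H (n + 1) U) :
    B.bd n a j h (T.F (n + 1) U m) = T.F n Z (B.bd n a j h m) := B.equivariance n Z U X a j h m

lemma Boundary.exact_open (n : ℕ) (Z U X : Var k) (a : ClosedIn Z X) (j : OpenIn U X)
    (h : Complementary a j) : Function.Exact (T.R (n + 1) j) (B.bd n a j h) :=
  (B.exactness n Z U X a j h).1

lemma Boundary.exact_closed (n : ℕ) (Z U X : Var k) (a : ClosedIn Z X) (j : OpenIn U X)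
    (h : Complementary a j) : Function.Exact (B.bd n a j h) (T.P n a) :=
  (B.exactness n Z U X a j h).2

lemma Boundary.shrink (n : ℕ) (Z U Z' U' X : Var k) (a : ClosedIn Z X) (j : OpenIn U X)
    (h : Complementary a j) (a' : ClosedIn Z' X) (j' : OpenIn U' X) (h' : Complementary a' j')
    (b : ClosedIn Z Z') (l : OpenIn U' U) (h1 : b.g ≫ a'.g = a.g) (h2 : l.g ≫ j.g = j'.g)
    (m : T.H (n + 1) U) : T.P n b (B.bd n a j h m) = B.bd n a' j' h' (T.R (n + 1) l m) :=
  B.shrinking n Z U Z' U' X a j h a' j' h' b l h1 h2 m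

include B in
lemma Boundary.res_comp (n : ℕ) (U V X : Var k) (j : OpenIn U V) (l : OpenIn V X)
    (l' : OpenIn U X) (h : j.g ≫ l.g = l'.g) (m : T.H n X) :
    T.R n l' m = T.R n j (T.R n l m) := B.functoriality n U V X j l l' h m

end

/-- Pull-back maps along the finite etale coverings. -/
structure PullMap (T : Maps.{v} k E) where
  /-- the pull-back maps -/
  pull : ∀ (n : ℕ) {V U : Var k}, FinEt V U → (T.H n U →ₗ[E] T.H n V)

/-- Pull-back of a homology class. -/
def PullMap.C {T : Maps.{v} k E} (Q : PullMap T) (n : ℕ) {V U : Var k} (π : FinEt V U)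
    (m : T.H n U) : T.H n V := Q.pull n π m

/-- The pull-back maps are injective and commute with Frobenius. -/
def PullMap.Injective {T : Maps.{v} k E} (Q : PullMap T) : Prop :=
  ∀ (n : ℕ) (V U : Var k) (π : FinEt V U), Function.Injective (Q.C n π) ∧
    ∀ m : T.H n U, Q.C n π (T.F n U m) = T.F n V (Q.C n π m)

/-- The pull-back maps are compatible with the restriction to open subvarieties. -/
def PullMap.Restricts {T : Maps.{v} k E} (Q : PullMap T) : Prop :=
  ∀ (n : ℕ) (V' U' V U : Var k) (π : FinEt V U) (ρ : FinEt V' U') (j' : OpenIn V' V)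
    (j : OpenIn U' U), ρ.g ≫ j.g = j'.g ≫ π.g →
    ∀ m : T.H n U, Q.C n ρ (T.R n j m) = T.R n j' (Q.C n π m)

/-- Pull-back maps along the finite etale coverings: injective, compatible with Frobenius and with
the restriction to open subvarieties. -/
def Maps.Transfer (T : Maps.{v} k E) : Prop :=
  ∃ Q : PullMap T, Q.Injective ∧ Q.Restricts

/-- Every integral variety `U` of dimension `d` has a nonempty open subvariety `V` with a finite
etale covering `V'` which is an open subvariety of a smooth proper integral variety of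
dimension `d` (this follows from de Jong's alterations, for a perfect field `k`). -/
def Alterations (k : Type) [Field k] : Prop :=
  ∀ (U : Var k) (d : ℕ) (_ : IsIntegral U.X), U.dim (genericPoint U.X) = d →
    ∃ (V V' X : Var k) (_ : OpenIn V U) (_ : OpenIn V' X) (_ : FinEt V' V),
      Nonempty V.X ∧ X.SmoothProper d

variable {i : ℕ} (T : Homology.{v} k E i)

/-- On the smooth proper varieties there are no invariants of Frobenius in odd degree (Deligne). -/
def Homology.Pure : Prop :=
  ∀ (X : Var k) (d : ℕ), X.SmoothProper d →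
    ∀ m : T.H (2 * i + 1) X, T.F (2 * i + 1) X m = m → m = 0

/-- Generic vanishing in degree `n`: on the integral finite etale covers `U` of the affine spaces
of dimension `d`, `n - i < d ≤ n`, every class in `H n U` which is invariant under Frobenius
vanishes on a nonempty open subvariety. -/
def Homology.GenericVanishing (n : ℕ) : Prop :=
  ∀ (d : ℕ) (U : Var k), n < d + i → d ≤ n → AlgebraicGeometry.IsIntegral U.X → U.EtaleCover d →
    ∀ m : T.H n U, T.F n U m = m →
      ∃ (U' : Var k) (j : OpenIn U' U), Nonempty U'.X ∧ T.R n j m = 0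

/-- The identity as an open immersion. -/
noncomputable def OpenIn.refl (X : Var k) : OpenIn X X where
  g := 𝟙 _
  comm := Category.id_comp _
  isOpen := inferInstance

lemma OpenIn.isIntegral {U V : Var k} (j : OpenIn U V) [AlgebraicGeometry.IsIntegral V.X]
    (h : Nonempty U.X) : AlgebraicGeometry.IsIntegral U.X := by
  have := j.isOpen
  exact isIntegral_of_isOpenImmersion j.g

lemma OpenIn.smooth {U V : Var k} (j : OpenIn U V) (h : Smooth V.f) : Smooth U.f := by
  have := j.isOpen
  rw [← j.comm]
  infer_instance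

lemma OpenIn.generic {U V : Var k} (j : OpenIn U V) [AlgebraicGeometry.IsIntegral V.X]
    [AlgebraicGeometry.IsIntegral U.X] : j.g (genericPoint U.X) = genericPoint V.X := by
  have := j.isOpen
  exact genericPoint_eq_of_isOpenImmersion j.g

lemma OpenIn.dim_generic {U V : Var k} (j : OpenIn U V) [AlgebraicGeometry.IsIntegral V.X]
    [AlgebraicGeometry.IsIntegral U.X] :
    U.dim (genericPoint U.X) = V.dim (genericPoint V.X) := by
  have := j.isOpen
  rw [← dim_map j.g j.comm, j.generic]

lemma Homology.res_pow {U V : Var k} (j : OpenIn U V) (n r : ℕ) (m : T.H n V) :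
    T.res n j (((T.frob n V - 1) ^ r) m) = ((T.frob n U - 1) ^ r) (T.res n j m) := by
  have h1 := aeval_intertwine (T.frob n V) (T.frob n U) (T.res n j) (T.res_frob n j)
    ((Polynomial.X - 1) ^ r) m
  simp only [map_pow, map_sub, Polynomial.aeval_X, map_one] at h1
  exact h1

/-- Under generic vanishing, the classes in the generalised eigenspace for the eigenvalue one also
vanish on nonempty open subvarieties. -/
lemma Homology.gen_dies (B : Boundary T.toMaps) (p : ℕ) (hp : 0 < p) [CharP k p] {n : ℕ}
    (hT : T.GenericVanishing n) (r : ℕ) :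
    ∀ (V : Var k) (_ : AlgebraicGeometry.IsIntegral V.X) (_ : Smooth V.f) (d : ℕ),
      V.dim (genericPoint V.X) = d → n < d + i → d ≤ n → ∀ m : T.H n V,
      ((T.frob n V - 1) ^ r) m = 0 →
        ∃ (U' : Var k) (j : OpenIn U' V), Nonempty U'.X ∧ T.res n j m = 0 := by
  induction r with
  | zero =>
    intro V hint _ d _ _ _ m hm
    refine ⟨V, OpenIn.refl V, inferInstance, ?_⟩
    have : m = 0 := hm
    rw [this, map_zero]
  | succ r ih =>
    intro V hint hsm d hd h1 h2 m hm
    obtain ⟨W, d', hη, hcov, hd'⟩ := exists_etaleCover p hp V hsm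
    obtain rfl : d = d' := by rw [hd, Nat.cast_inj] at hd'; exact hd'
    have hne : Nonempty (openVar V W).X := ⟨⟨_, hη⟩⟩
    let l : OpenIn (openVar V W) V := openVarIn V W
    have hWint := l.isIntegral hne
    have hinv : T.F n (openVar V W) (T.res n l (((T.frob n V - 1) ^ r) m)) =
        T.res n l (((T.frob n V - 1) ^ r) m) := by
      change T.frob n (openVar V W) (T.res n l (((T.frob n V - 1) ^ r) m)) = _
      rw [← T.res_frob n l, ← sub_eq_zero, ← map_sub]
      have : T.frob n V (((T.frob n V - 1) ^ r) m) - ((T.frob n V - 1) ^ r) m = 0 := by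
        have h3 : ((T.frob n V - 1) ^ (r + 1)) m =
            T.frob n V (((T.frob n V - 1) ^ r) m) - ((T.frob n V - 1) ^ r) m := by
          rw [pow_succ', Module.End.mul_apply, LinearMap.sub_apply, Module.End.one_apply]
        rw [← h3, hm]
      rw [this, map_zero]
    obtain ⟨U', j, hne', hj⟩ := hT d (openVar V W) h1 h2 hWint hcov _ hinv
    have hU'int := j.isIntegral hne'
    have hj0 : ((T.frob n U' - 1) ^ r) (T.res n j (T.res n l m)) = 0 := by
      rw [← T.res_pow, ← T.res_pow]
      exact hj
    obtain ⟨U'', j', hne'', hj'⟩ := ih U' hU'int (j.smooth (l.smooth hsm)) d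
      (by rw [j.dim_generic, l.dim_generic, hd]) h1 h2 _ hj0
    refine ⟨U'', j'.trans (j.trans l), hne'', ?_⟩
    have h4 := B.res_comp n U'' U' V j' (j.trans l) (j'.trans (j.trans l)) rfl m
    have h5 := B.res_comp n U' (openVar V W) V j l (j.trans l) rfl m
    have h6 : T.res n (j.trans l) m = T.res n j (T.res n l m) := h5
    change T.res n (j'.trans (j.trans l)) m = 0
    refine h4.trans ?_
    change T.res n j' (T.res n (j.trans l) m) = 0
    rw [h6, hj']

lemma generic_mem_range {U V : Var k} (j : OpenIn U V) [AlgebraicGeometry.IsIntegral V.X]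
    (h : Nonempty U.X) : genericPoint V.X ∈ Set.range j.g := by
  have := j.isOpen
  obtain ⟨u⟩ := h
  exact (genericPoint_specializes (j.g u)).mem_open j.g.opensRange.2 ⟨u, rfl⟩

/-- The closed complement of an open subvariety. -/
noncomputable def complC {U V : Var k} (j : OpenIn U V) : Closeds V.X :=
  ⟨(Set.range j.g)ᶜ, by
    have := j.isOpen
    exact j.g.opensRange.2.isClosed_compl⟩

lemma complementary_complC {U V : Var k} (j : OpenIn U V) :
    Complementary (closedVarIn V (complC j)) j := by
  rw [Complementary, range_closedVarIn]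
  rfl

/-- A smooth affine integral variety is good if its proper closed subvarieties are. -/
lemma Homology.good_nice2 (B : Boundary T.toMaps) (p : ℕ) (hp : 0 < p) [CharP k p]
    (hT : T.GenericVanishing (2 * i)) (V : Var k) (hint : AlgebraicGeometry.IsIntegral V.X)
    (haff : IsAffine V.X) (hsm : Smooth V.f)
    (hD : ∀ D : Closeds V.X, genericPoint V.X ∉ D →
      T.gen (closedVar V D) ≤ T.alg (closedVar V D)) :
    T.gen V ≤ T.alg V := by
  obtain ⟨W, d, -, -, hd⟩ := exists_etaleCover p hp V hsm
  rcases lt_trichotomy d i with h | h | h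
  · exact T.good_of_subsingleton V (T.vanish (2 * i) V hint d hd (by omega))
  · subst h
    refine (T.fundamental V hint hd).trans (Submodule.span_mono ?_)
    rintro _ rfl
    exact ⟨_, rfl⟩
  · rcases lt_or_ge (2 * i) d with h2 | h2
    · exact T.good_of_subsingleton V (T.artin (2 * i) V hint haff hsm
        (by rw [hd, Nat.cast_lt]; exact h2))
    · intro m hm
      obtain ⟨r, hr⟩ := (mem_maxGen_iff _ _).1 hm
      obtain ⟨U', j, hne, hj⟩ := T.gen_dies B p hp hT r V hint hsm d hd (by omega) h2 m hr
      obtain ⟨z, hz⟩ := (T.exact_X (2 * i) _ j (complementary_complC j) _).mp hj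
      have h4 : T.push (2 * i) (closedVarIn V (complC j)) z ∈ T.gen V := by
        rw [hz]
        exact hm
      obtain ⟨z', hz', h5⟩ := maxGen_lift (T.frob (2 * i) _) (T.frob (2 * i) V)
        (T.push (2 * i) (closedVarIn V (complC j)))
        (T.push_frob (2 * i) (closedVarIn V (complC j))) h4
      rw [← hz, ← h5]
      exact T.push_alg _ (hD (complC j) (fun hcon => hcon (generic_mem_range j hne)) hz')

/-- Generic vanishing in degree `2 * i` implies that for every variety the generalised eigenspace
of Frobenius is spanned by cycle classes. -/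
theorem Homology.good_of_generic [PerfectField k] (B : Boundary T.toMaps) (p : ℕ) (hp : 0 < p)
    [CharP k p] (hT : T.GenericVanishing (2 * i)) (X : Var k) : T.gen X ≤ T.alg X :=
  T.good_aux (fun V h1 h2 h3 h4 => T.good_nice2 B p hp hT V h1 h2 h3 h4) X ⊤ X (𝟙 _)
    (Category.id_comp _) inferInstance (fun _ => trivial)

/-- If the generalised eigenvectors in `H (2 * i + 1) U` vanish on nonempty open subvarieties, then
homologically trivial cycles are rationally equivalent to zero. -/
lemma Homology.injC_aux2 [PerfectField k] (B : Boundary T.toMaps) (p : ℕ) (hp : 0 < p) [CharP k p]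
    (hT : T.GenericVanishing (2 * i + 1)) (hlow : ∀ X : Var k, X.DimLE (i + 1) → T.Inj X)
    (X₀ : Var k) (C : Closeds X₀.X) :
    ∀ (Y : Var k) (g : Y.X ⟶ X₀.X), g ≫ X₀.f = Y.f → IsPreimmersion g → (∀ y, g y ∈ C) →
      T.InjC Y := by
  induction C using WellFoundedLT.induction with
  | ind C ih =>
  intro Y g comm hg hC
  apply T.injC_of_red
  have hred := isReduced_redVar Y
  have hcl := (redVarIn Y).closed
  set Y' := redVar Y
  set g' : Y'.X ⟶ X₀.X := (redVarIn Y).g ≫ g
  have comm' : g' ≫ X₀.f = Y'.f := by
    rw [Category.assoc, comm, (redVarIn Y).comm]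
  have hC' : ∀ y, g' y ∈ C := fun y => hC _
  by_cases hl : Y'.DimLE (i + 1)
  · exact (T.inj_iff Y').mp (hlow Y' hl)
  rw [Var.DimLE] at hl
  push Not at hl
  obtain ⟨x, hx⟩ := hl
  obtain ⟨η, hηx, hη⟩ := exists_maximal Y' x
  have hηdim : ((i + 1 : ℕ) : Cardinal) < Y'.dim η :=
    hx.trans_le (dim_le_of_specializes Y' hηx)
  intro c hc
  let A : Set Y'.X := Set.range (fun p : c.support => p.1.1)
  have hA : η ∉ closure A := by
    rw [show A = ⋃ p : c.support, {p.1.1} by ext; simp [A, eq_comm], closure_iUnion_of_finite]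
    intro hcon
    simp only [Set.mem_iUnion] at hcon
    obtain ⟨p, hp⟩ := hcon
    have h3 : p.1.1 ⤳ η := specializes_iff_mem_closure.mpr hp
    have h4 := hη _ h3
    have h5 := p.1.2
    rw [h4] at h5
    rw [h5, Nat.cast_lt] at hηdim
    omega
  obtain ⟨U, hU1, hU2, hU3, hU4, hU5, hU6⟩ := exists_nice Y' η hη
    ⟨(closure A)ᶜ, isClosed_closure.isOpen_compl⟩ hA
  have hdim : (openVar Y' U).dim (genericPoint (openVar Y' U).X) = Y'.dim η := by
    have := (openVarIn Y' U).isOpen
    rw [← dim_map (openVarIn Y' U).g (openVarIn Y' U).comm, hU6]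
  -- closed subvarieties missing the point `η`
  have key : ∀ D : Closeds Y'.X, η ∉ D → T.InjC (closedVar Y' D) := by
    intro D hD
    have hcl2 := (closedVarIn Y' D).closed
    refine ih (Closeds.closure (g' '' (D : Set Y'.X))) (lt_of_closed g' C hC' D η hD)
      (closedVar Y' D) ((closedVarIn Y' D).g ≫ g') ?_ inferInstance ?_
    · rw [Category.assoc, comm', (closedVarIn Y' D).comm]
    · intro y
      have h1 : (closedVarIn Y' D).g y ∈ (D : Set Y'.X) := by
        rw [← range_closedVarIn]
        exact ⟨y, rfl⟩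
      exact subset_closure ⟨_, h1, rfl⟩
  let a := closedVarIn Y' U.compl
  let j := openVarIn Y' U
  have hcomp : Complementary a j := complementary_open Y' U
  obtain ⟨c', hc'⟩ : ∃ c' : Pts i (closedVar Y' U.compl) →₀ E,
      Finsupp.mapDomain (ptsMap i a) c' = c := by
    refine ⟨Finsupp.comapDomain (ptsMap i a) c (ptsMap_injective i a).injOn, ?_⟩
    apply Finsupp.mapDomain_comapDomain _ (ptsMap_injective i a)
    intro q hq
    apply mem_range_ptsMap a q
    rw [range_closedVarIn]
    intro hcon
    exact hU2 hcon (subset_closure ⟨⟨q, hq⟩, rfl⟩)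
  have h1 : T.push (2 * i) a (Finsupp.linearCombination E (T.cl _) c') = 0 := by
    rw [T.push_linComb, hc', hc]
  obtain ⟨γ, hγ⟩ := (B.exact_closed (2 * i) _ _ _ a j hcomp _).mp h1
  have hgen : B.bd (2 * i) a j hcomp γ ∈ T.gen (closedVar Y' U.compl) := by
    rw [hγ]
    exact T.alg_le_gen _ (T.linComb_mem_alg _ c')
  obtain ⟨γ', hγ', hγ2⟩ := maxGen_lift (T.frob (2 * i + 1) (openVar Y' U))
    (T.frob (2 * i) (closedVar Y' U.compl)) (B.bd (2 * i) a j hcomp)
    (fun m => B.equivariant (2 * i) _ _ _ a j hcomp m) hgen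
  obtain ⟨U', l, hne, hl⟩ : ∃ (U' : Var k) (l : OpenIn U' (openVar Y' U)), Nonempty U'.X ∧
      T.res (2 * i + 1) l γ' = 0 := by
    obtain ⟨W, d, -, -, hd⟩ := exists_etaleCover p hp (openVar Y' U) hU4
    have hd2 : i + 1 < d := by
      rw [← Nat.cast_lt (α := Cardinal), ← hd, hdim]
      exact hηdim
    rcases lt_or_ge (2 * i + 1) d with h2 | h2
    · refine ⟨openVar Y' U, OpenIn.refl _, inferInstance, ?_⟩
      have := T.artin (2 * i + 1) (openVar Y' U) hU5 hU3 hU4
        (by rw [hd, Nat.cast_lt]; exact h2)
      rw [Subsingleton.elim γ' 0, map_zero]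
    · obtain ⟨r, hr⟩ := (mem_maxGen_iff _ _).1 hγ'
      exact T.gen_dies B p hp hT r _ hU5 hU4 d hd (by omega) h2 γ' hr
  let j' : OpenIn U' Y' := l.trans j
  have hle : U.compl ≤ complC j' := by
    intro y hy
    change y ∉ Set.range j'.g
    rintro ⟨u, hu⟩
    apply hy
    have : (openVarIn Y' U).g (l.g u) ∈ Set.range (openVarIn Y' U).g := ⟨_, rfl⟩
    rw [range_openVarIn] at this
    rw [← hu]
    exact this
  let b := closedVarMap Y' hle
  have hshrink := B.shrink (2 * i) _ _ _ _ _ a j hcomp (closedVarIn Y' (complC j')) j'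
    (complementary_complC j') b l (closedVarMap_comp Y' hle) rfl γ'
  have hη' : η ∉ complC j' := by
    intro hcon
    apply hcon
    obtain ⟨u, hu⟩ := generic_mem_range l hne
    refine ⟨u, ?_⟩
    change (openVarIn Y' U).g (l.g u) = η
    rw [hu, hU6]
  have h2 : Finsupp.linearCombination E (T.cl _) (Finsupp.mapDomain (ptsMap i b) c') = 0 := by
    rw [← T.push_linComb, ← hγ, ← hγ2]
    refine hshrink.trans ?_
    have : T.R (2 * i + 1) l γ' = 0 := hl
    rw [this, map_zero]
  have h3 := ratZero_map (closedVarIn Y' (complC j')) _ (key _ hη' _ h2)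
  rw [← Finsupp.mapDomain_comp] at h3
  have h4 : ptsMap i (closedVarIn Y' (complC j')) ∘ ptsMap i b = ptsMap i a := by
    funext z
    apply Subtype.ext
    have := closedVarMap_comp Y' hle
    exact congrArg (fun f => f z.1) this
  rw [h4, hc'] at h3
  exact h3

/-- Generic vanishing in degree `2 * i + 1` implies injectivity for all varieties. -/
theorem Homology.inj_of_generic [PerfectField k] (B : Boundary T.toMaps) (p : ℕ) (hp : 0 < p)
    [CharP k p] (hT : T.GenericVanishing (2 * i + 1))
    (hlow : ∀ X : Var k, X.DimLE (i + 1) → T.Inj X) (X : Var k) : T.Inj X :=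
  (T.inj_iff X).mpr
    (T.injC_aux2 B p hp hT hlow X ⊤ X (𝟙 _) (Category.id_comp _) inferInstance (fun _ => trivial))

end Pool.Agent.Lib_helper55.Beil


end
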