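import Mathlib

/-! Parts: CUB.Defs, CUB.Dim1, CUB.StmtsA, CUB.A_DVX, CUB.Defs3, CUB.StmtsB, CUB.B_BPU -/

section

/-!
# CUB: cycles on affine varieties (ring level), double covers, homology theories with homotopy invariance
-/

set_option autoImplicit false

open Polynomial

namespace CUB

section Ring

variable (k : Type) [Field k] {A B : Type} [CommRing A] [CommRing B] [Algebra k A] [Algebra k B]

/-- The dimension of a prime ideal: the transcendence degree over `k` of the residue ring. -/
noncomputable def rdim (p : PrimeSpectrum A) : Cardinal := Algebra.trdeg k (A ⧸ p.asIdeal)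

variable (A) in
/-- The primes of dimension `n`. -/
def RP (n : ℕ) : Type := {p : PrimeSpectrum A // rdim k p = n}

/-- The length of `A / I` at the prime `p` (`0` if it is infinite). -/
noncomputable def len (I : Ideal A) (p : PrimeSpectrum A) : ℕ :=
  (Module.length (Localization.AtPrime p.asIdeal) (Localization.AtPrime p.asIdeal ⧸
    I.map (algebraMap A (Localization.AtPrime p.asIdeal)))).toNat

variable (E : Type) [Field E]

/-- The cycle `c` is the divisor of the function `a` on the closed subvariety `V(q)`. -/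
def IsDv {n : ℕ} (q : PrimeSpectrum A) (a : A) (c : RP k A n →₀ E) : Prop :=
  ∀ p : RP k A n, c p = (len (q.asIdeal ⊔ Ideal.span {a}) p.1 : E)

/-- The `n`-dimensional cycles which are rationally equivalent to zero on the closed subset `V(I)`. -/
noncomputable def ratOn (n : ℕ) (I : Ideal A) : Submodule E (RP k A n →₀ E) :=
  Submodule.span E {c | ∃ (q : RP k A (n + 1)) (a : A), I ≤ q.1.asIdeal ∧ a ∉ q.1.asIdeal ∧
    IsDv k E q.1 a c}

variable (A) in
/-- The `n`-dimensional cycles which are rationally equivalent to zero. -/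
noncomputable abbrev rat (n : ℕ) : Submodule E (RP k A n →₀ E) := ratOn k E n (⊥ : Ideal A)

/-- The cycle `c` is supported on the closed subset `V(I)`. -/
def SuppOn {n : ℕ} (I : Ideal A) (c : RP k A n →₀ E) : Prop :=
  ∀ p : RP k A n, c p ≠ 0 → I ≤ p.1.asIdeal

/-- `d` is the flat pull-back of `c` (of relative dimension `r`). -/
def IsPull (r : ℕ) (φ : A →ₐ[k] B) {n : ℕ} (c : RP k A n →₀ E) (d : RP k B (n + r) →₀ E) : Prop :=
  ∀ P : RP k B (n + r),
    (∀ h : rdim k (PrimeSpectrum.comap φ.toRingHom P.1) = n,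
      d P = c ⟨PrimeSpectrum.comap φ.toRingHom P.1, h⟩) ∧
    (rdim k (PrimeSpectrum.comap φ.toRingHom P.1) ≠ n → d P = 0)

/-- The local condition for flat pull-back of relative dimension `r` at the prime `P`. -/
def GoodAt (r : ℕ) (φ : A →ₐ[k] B) (P : PrimeSpectrum B) : Prop :=
  rdim k P ≤ rdim k (PrimeSpectrum.comap φ.toRingHom P) + r ∧
  (rdim k P = rdim k (PrimeSpectrum.comap φ.toRingHom P) + r →
    IsLocalRing.maximalIdeal (Localization.AtPrime P.asIdeal) ≤
      (PrimeSpectrum.comap φ.toRingHom P).asIdeal.map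
        ((algebraMap B (Localization.AtPrime P.asIdeal)).comp φ.toRingHom))

/-- `φ` is flat, with fibres of dimension at most `r` which are reduced at their generic points of
dimension `r`. -/
structure Good (r : ℕ) (φ : A →ₐ[k] B) : Prop where
  flat : φ.toRingHom.Flat
  at' : ∀ P : PrimeSpectrum B, GoodAt k r φ P

variable {k}

lemma rdim_comap (φ : A →ₐ[k] B) (hφ : Function.Surjective φ) (P : PrimeSpectrum B) :
    rdim k (PrimeSpectrum.comap φ.toRingHom P) = rdim k P := by
  unfold rdim
  have H : (PrimeSpectrum.comap φ.toRingHom P).asIdeal ≤ P.asIdeal.comap φ := le_refl _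
  have h1 : Function.Injective (Ideal.quotientMapₐ P.asIdeal φ H) :=
    Ideal.quotientMap_injective' (H := H) (le_refl _)
  have h2 : Function.Surjective (Ideal.quotientMapₐ P.asIdeal φ H) :=
    Ideal.quotientMap_surjective (H := H) hφ
  exact AlgEquiv.trdeg_eq (AlgEquiv.ofBijective _ ⟨h1, h2⟩)

/-- The push-forward of points along a surjective homomorphism. -/
noncomputable def pushP {n : ℕ} (φ : A →ₐ[k] B) (hφ : Function.Surjective φ) (P : RP k B n) :
    RP k A n :=
  ⟨PrimeSpectrum.comap φ.toRingHom P.1, (rdim_comap φ hφ P.1).trans P.2⟩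

/-- The push-forward of cycles along a surjective homomorphism (closed immersion). -/
noncomputable def push {n : ℕ} (φ : A →ₐ[k] B) (hφ : Function.Surjective φ) :
    (RP k B n →₀ E) →ₗ[E] (RP k A n →₀ E) :=
  Finsupp.lmapDomain E E (pushP φ hφ)

end Ring

/-! ## Double covers -/

section Cover

variable {k : Type} [Field k]

/-- The polynomial `y ^ 2 - y - g`. -/
noncomputable def asPoly {T : Type} [CommRing T] (g : T) : T[X] := X ^ 2 - X - C g

/-- The double cover `T[y] / (y ^ 2 - y - g)`. -/
abbrev Q (T : Type) [CommRing T] (g : T) : Type := AdjoinRoot (asPoly g)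

/-- The element `y` of `T[y] / (y ^ 2 - y - g)`. -/
noncomputable def yy {T : Type} [CommRing T] (g : T) : Q T g := AdjoinRoot.root (asPoly g)

lemma asPoly_monic {T : Type} [CommRing T] (g : T) : (asPoly g).Monic := by
  unfold asPoly
  monicity!

lemma eval_asPoly {T S : Type} [CommRing T] [CommRing S] (φ : T →+* S) (g : T) (x : S) :
    (asPoly g).eval₂ φ x = x ^ 2 - x - φ g := by
  simp [asPoly]

lemma yy_eq {T : Type} [CommRing T] (g : T) :
    yy g ^ 2 - yy g - algebraMap T (Q T g) g = 0 := by
  have h := AdjoinRoot.eval₂_root (asPoly g)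
  rw [eval_asPoly] at h
  exact h

instance {T : Type} [CommRing T] (g : T) : Module.Finite T (Q T g) :=
  (asPoly_monic g).finite_adjoinRoot

instance {T : Type} [CommRing T] (g : T) : Module.Free T (Q T g) :=
  (asPoly_monic g).free_adjoinRoot

instance finiteType_Q {T : Type} [CommRing T] [Algebra k T] [Algebra.FiniteType k T] (g : T) :
    Algebra.FiniteType k (Q T g) :=
  Algebra.FiniteType.trans (S := T) inferInstance inferInstance

/-- The homomorphism from the double cover defined by a homomorphism on the base and the image of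
`y`. -/
noncomputable def Qlift {T S : Type} [CommRing T] [CommRing S] [Algebra k T] [Algebra k S] {g : T}
    (φ : T →ₐ[k] S) (x : S) (h : x ^ 2 - x = φ g) : Q T g →ₐ[k] S :=
  AdjoinRoot.liftAlgHom (asPoly g) φ x (by
    have := eval_asPoly φ.toRingHom g x
    refine this.trans ?_
    rw [h]
    exact sub_self _)

@[simp] lemma Qlift_yy {T S : Type} [CommRing T] [CommRing S] [Algebra k T] [Algebra k S] {g : T}
    (φ : T →ₐ[k] S) (x : S) (h : x ^ 2 - x = φ g) : Qlift φ x h (yy g) = x :=
  AdjoinRoot.liftAlgHom_root _ _ _ _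

@[simp] lemma Qlift_algebraMap {T S : Type} [CommRing T] [CommRing S] [Algebra k T] [Algebra k S]
    {g : T} (φ : T →ₐ[k] S) (x : S) (h : x ^ 2 - x = φ g) (t : T) :
    Qlift φ x h (algebraMap T (Q T g) t) = φ t :=
  AdjoinRoot.liftAlgHom_of _ _ _ _ _

/-- Two homomorphisms on the double cover are equal if they agree on the base and at `y`. -/
lemma Q_ext {T S : Type} [CommRing T] [CommRing S] [Algebra k T] [Algebra k S] {g : T}
    {α β : Q T g →ₐ[k] S} (h1 : ∀ t, α (algebraMap T (Q T g) t) = β (algebraMap T (Q T g) t))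
    (h2 : α (yy g) = β (yy g)) : α = β := by
  apply AdjoinRoot.algHom_ext'
  · ext t
    exact h1 t
  · exact h2

/-- The base of the double cover. -/
noncomputable def Qbase {T : Type} [CommRing T] [Algebra k T] (g : T) : T →ₐ[k] Q T g :=
  IsScalarTower.toAlgHom k T (Q T g)

/-- The homomorphism `y ↦ 1 - y` -/
noncomputable def tauHom {T : Type} [CommRing T] [Algebra k T] (g : T) : Q T g →ₐ[k] Q T g :=
  Qlift (Qbase g) (1 - yy g) (by
    have h := yy_eq g
    have h2 : Qbase (k := k) g g = algebraMap T (Q T g) g := rfl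
    rw [h2]
    linear_combination h)

lemma tauHom_yy {T : Type} [CommRing T] [Algebra k T] (g : T) :
    tauHom (k := k) g (yy g) = 1 - yy g := by
  unfold tauHom
  exact Qlift_yy _ _ _

lemma tauHom_algebraMap {T : Type} [CommRing T] [Algebra k T] (g : T) (t : T) :
    tauHom (k := k) g (algebraMap T (Q T g) t) = algebraMap T (Q T g) t := by
  unfold tauHom
  exact Qlift_algebraMap _ _ _ _

lemma tauHom_comp {T : Type} [CommRing T] [Algebra k T] (g : T) :
    (tauHom (k := k) g).comp (tauHom g) = AlgHom.id k (Q T g) := by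
  apply Q_ext
  · intro t
    rw [AlgHom.comp_apply, tauHom_algebraMap, tauHom_algebraMap]
    rfl
  · rw [AlgHom.comp_apply, tauHom_yy, map_sub, map_one, tauHom_yy, sub_sub_cancel]
    rfl

/-- The involution `y ↦ 1 - y` of the double cover. -/
noncomputable def tau {T : Type} [CommRing T] [Algebra k T] (g : T) : Q T g ≃ₐ[k] Q T g :=
  AlgEquiv.ofAlgHom (tauHom g) (tauHom g) (tauHom_comp g) (tauHom_comp g)

@[simp] lemma tau_yy {T : Type} [CommRing T] [Algebra k T] (g : T) :
    tau (k := k) g (yy g) = 1 - yy g := tauHom_yy g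

@[simp] lemma tau_algebraMap {T : Type} [CommRing T] [Algebra k T] (g : T) (t : T) :
    tau (k := k) g (algebraMap T (Q T g) t) = algebraMap T (Q T g) t := tauHom_algebraMap g t

/-- The homomorphism of double covers defined by a homomorphism of the bases. -/
noncomputable def Qmap {T S : Type} [CommRing T] [CommRing S] [Algebra k T] [Algebra k S] {g : T}
    {g' : S} (φ : T →ₐ[k] S) (h : φ g = g') : Q T g →ₐ[k] Q S g' :=
  Qlift ((Qbase g').comp φ) (yy g') (by
    have h2 := yy_eq g'
    have h3 : ((Qbase (k := k) g').comp φ) g = algebraMap S (Q S g') g' := by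
      rw [← h]; rfl
    rw [h3]
    exact sub_eq_zero.mp h2)

@[simp] lemma Qmap_yy {T S : Type} [CommRing T] [CommRing S] [Algebra k T] [Algebra k S] {g : T}
    {g' : S} (φ : T →ₐ[k] S) (h : φ g = g') : Qmap φ h (yy g) = yy g' := Qlift_yy _ _ _

@[simp] lemma Qmap_algebraMap {T S : Type} [CommRing T] [CommRing S] [Algebra k T] [Algebra k S]
    {g : T} {g' : S} (φ : T →ₐ[k] S) (h : φ g = g') (t : T) :
    Qmap φ h (algebraMap T (Q T g) t) = algebraMap S (Q S g') (φ t) := Qlift_algebraMap _ _ _ _

lemma Q_span {T : Type} [CommRing T] {g : T} (x : Q T g) :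
    ∃ a b : T, x = algebraMap T (Q T g) a + algebraMap T (Q T g) b * yy g := by
  obtain ⟨p, rfl⟩ := AdjoinRoot.mk_surjective (g := asPoly g) x
  rcases subsingleton_or_nontrivial T with hT | hT
  · refine ⟨0, 0, ?_⟩
    have : Subsingleton (Q T g) := Module.subsingleton T (Q T g)
    exact Subsingleton.elim _ _
  have h1 : AdjoinRoot.mk (asPoly g) p = AdjoinRoot.mk (asPoly g) (p %ₘ asPoly g) := by
    rw [AdjoinRoot.mk_eq_mk]
    refine ⟨p /ₘ asPoly g, ?_⟩
    have := modByMonic_add_div p (asPoly g)
    linear_combination -this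
  have h2 : (p %ₘ asPoly g).natDegree < 2 := by
    have h3 : (asPoly g).natDegree = 2 := by
      unfold asPoly
      compute_degree!
    rw [← h3]
    exact natDegree_modByMonic_lt _ (asPoly_monic g) (fun h => by rw [h] at h3; simp at h3)
  have h4 : p %ₘ asPoly g = C ((p %ₘ asPoly g).coeff 0) + C ((p %ₘ asPoly g).coeff 1) * X := by
    have := Polynomial.eq_X_add_C_of_natDegree_le_one (Nat.lt_succ_iff.mp h2)
    rw [add_comm]
    exact this
  refine ⟨(p %ₘ asPoly g).coeff 0, (p %ₘ asPoly g).coeff 1, ?_⟩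
  rw [h1]
  conv_lhs => rw [h4]
  rw [map_add, map_mul]
  rfl

lemma Qmap_surjective {T S : Type} [CommRing T] [CommRing S] [Algebra k T] [Algebra k S] {g : T}
    {g' : S} (φ : T →ₐ[k] S) (h : φ g = g') (hφ : Function.Surjective φ) :
    Function.Surjective (Qmap φ h) := by
  intro x
  obtain ⟨a, b, rfl⟩ := Q_span x
  obtain ⟨a', rfl⟩ := hφ a
  obtain ⟨b', rfl⟩ := hφ b
  refine ⟨algebraMap T (Q T g) a' + algebraMap T (Q T g) b' * yy g, ?_⟩
  rw [map_add, map_mul, Qmap_algebraMap, Qmap_algebraMap, Qmap_yy]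

/-! ## The varieties `y ^ 2 - y = ∑ t_j f_j` -/

/-- The element `∑ t_j f_j` of `R[t_1, ..., t_m]`. -/
noncomputable def lin {m : ℕ} {R : Type} [CommRing R] (f : Fin m → R) : MvPolynomial (Fin m) R :=
  ∑ j, MvPolynomial.X j * MvPolynomial.C (f j)

/-- The ring `R[t_1, ..., t_m, y] / (y ^ 2 - y - ∑ t_j f_j)`. -/
abbrev VR {m : ℕ} (R : Type) [CommRing R] (f : Fin m → R) : Type :=
  Q (MvPolynomial (Fin m) R) (lin f)

lemma map_lin {m : ℕ} {R S : Type} [CommRing R] [CommRing S] [Algebra k R] [Algebra k S]
    (ψ : R →ₐ[k] S) (f : Fin m → R) :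
    MvPolynomial.mapAlgHom ψ (lin f) = lin (fun j => ψ (f j)) := by
  simp [lin]

/-- The homomorphism `R[t, y] / (y ^ 2 - y - ∑ t_j f_j) → S[t, y] / (y ^ 2 - y - ∑ t_j ψ(f_j))`. -/
noncomputable def VRmap {m : ℕ} {R S : Type} [CommRing R] [CommRing S] [Algebra k R] [Algebra k S]
    (ψ : R →ₐ[k] S) (f : Fin m → R) : VR R f →ₐ[k] VR S (fun j => ψ (f j)) :=
  Qmap (MvPolynomial.mapAlgHom ψ) (map_lin ψ f)

lemma VRmap_surjective {m : ℕ} {R S : Type} [CommRing R] [CommRing S] [Algebra k R] [Algebra k S]
    (ψ : R →ₐ[k] S) (hψ : Function.Surjective ψ) (f : Fin m → R) :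
    Function.Surjective (VRmap ψ f) :=
  Qmap_surjective _ _ (MvPolynomial.map_surjective _ hψ)

/-- The homomorphism `R → R[t, y] / (y ^ 2 - y - ∑ t_j f_j)`. -/
noncomputable def VRbase {m : ℕ} {R : Type} [CommRing R] [Algebra k R] (f : Fin m → R) :
    R →ₐ[k] VR R f :=
  (Qbase (lin f)).comp (IsScalarTower.toAlgHom k R (MvPolynomial (Fin m) R))

/-- The two sheets over the common zeros of the `f j`: if `ψ : R → S` maps all `f j` to `0`, the
homomorphism `R[t, y] / (y ^ 2 - y - ∑ t_j f_j) → S[t]` which maps `y` to `ε`, where `ε` is `0` or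
`1`. -/
noncomputable def sheet {m : ℕ} {R S : Type} [CommRing R] [CommRing S] [Algebra k R] [Algebra k S]
    (ψ : R →ₐ[k] S) (f : Fin m → R) (h : ∀ j, ψ (f j) = 0) (ε : Bool) :
    VR R f →ₐ[k] MvPolynomial (Fin m) S :=
  Qlift (MvPolynomial.mapAlgHom ψ) (if ε then 1 else 0) (by
    rw [map_lin]
    simp [lin, h])

lemma sheet_surjective {m : ℕ} {R S : Type} [CommRing R] [CommRing S] [Algebra k R] [Algebra k S]
    (ψ : R →ₐ[k] S) (hψ : Function.Surjective ψ) (f : Fin m → R) (h : ∀ j, ψ (f j) = 0)
    (ε : Bool) : Function.Surjective (sheet ψ f h ε) := by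
  intro x
  obtain ⟨y, hy⟩ := MvPolynomial.map_surjective ψ.toRingHom hψ x
  exact ⟨algebraMap _ _ y, (Qlift_algebraMap _ _ _ _).trans hy⟩

end Cover

end CUB


end

section

/-!
# CUB: the dimension of primes drops strictly
-/

set_option autoImplicit false

namespace CUB

open Cardinal

section Trdeg

variable {k : Type} [Field k] {A B : Type} [CommRing A] [CommRing B] [Algebra k A] [Algebra k B]

/-- A surjection of a domain of finite transcendence degree which is not injective lowers the
transcendence degree. -/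
lemma trdeg_lt_of_surjective [IsDomain A] [IsDomain B] (hA : Algebra.trdeg k A < ℵ₀)
    (f : A →ₐ[k] B) (hf : Function.Surjective f) (hni : ¬ Function.Injective f) :
    Algebra.trdeg k B < Algebra.trdeg k A := by
  refine lt_of_le_of_ne (_root_.trdeg_le_of_surjective f hf) ?_
  intro heq
  obtain ⟨s, hs⟩ := exists_isTranscendenceBasis k B
  have hcard : #s = Algebra.trdeg k B := hs.cardinalMk_eq_trdeg
  let y : s → A := fun a => Function.surjInv hf a.1
  have hy : ∀ a, f (y a) = a.1 := fun a => Function.surjInv_eq hf a.1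
  have hfy : (f ∘ y) = fun a : s => (a.1 : B) := funext hy
  have hyi : AlgebraicIndependent k y := by
    refine AlgebraicIndependent.of_comp f ?_
    rw [hfy]
    exact hs.1
  have hyb : IsTranscendenceBasis k y :=
    hyi.isTranscendenceBasis_of_trdeg_le hA (by rw [hcard, heq])
  have halg : Algebra.IsAlgebraic (Algebra.adjoin k (Set.range y)) A := hyb.isAlgebraic
  -- a nonzero element of the kernel
  obtain ⟨z, hz0, hz⟩ : ∃ z : A, z ≠ 0 ∧ f z = 0 := by
    by_contra hcon
    push Not at hcon
    apply hni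
    rw [injective_iff_map_eq_zero]
    intro a ha
    by_contra ha0
    exact hcon a ha0 ha
  have hne := Ideal.comap_ne_bot_of_algebraic_mem (R := Algebra.adjoin k (Set.range y))
    (I := RingHom.ker f) hz0 hz (halg.isAlgebraic z)
  apply hne
  rw [eq_bot_iff]
  rintro ⟨x, hx⟩ hx2
  have hx3 : f x = 0 := hx2
  rw [Algebra.adjoin_range_eq_range_aeval] at hx
  obtain ⟨F, hF⟩ := hx
  have h1 : MvPolynomial.aeval (f ∘ y) F = 0 := by
    have h2 := MvPolynomial.comp_aeval_apply (f := y) f F
    have h3 : MvPolynomial.aeval y F = x := hF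
    rw [h3, hx3] at h2
    exact h2.symm
  rw [hfy] at h1
  have h2 : F = 0 := (algebraicIndependent_iff.mp hs.1) F h1
  have h3 : x = 0 := by
    rw [← hF, h2]
    exact map_zero _
  exact Subtype.ext h3

variable [Algebra.FiniteType k A]

lemma rdim_lt_aleph0 (p : PrimeSpectrum A) : rdim k p < ℵ₀ :=
  trdeg_lt_aleph0_of_finiteType

lemma exists_rdim (p : PrimeSpectrum A) : ∃ n : ℕ, rdim k p = n :=
  lt_aleph0.mp (rdim_lt_aleph0 p)

/-- DIM1: the dimension of primes drops strictly. -/
theorem rdim_lt {p q : PrimeSpectrum A} (h : p < q) : rdim k q < rdim k p := by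
  have hle : p.asIdeal ≤ q.asIdeal := h.le
  refine trdeg_lt_of_surjective (rdim_lt_aleph0 p) (Ideal.Quotient.factorₐ k hle)
    (Ideal.Quotient.factor_surjective hle) ?_
  intro hinj
  apply h.not_ge
  intro a ha
  have h1 : Ideal.Quotient.factorₐ k hle (Ideal.Quotient.mk p.asIdeal a) = 0 := by
    exact Ideal.Quotient.eq_zero_iff_mem.mpr ha
  have h2 : Ideal.Quotient.mk p.asIdeal a = 0 := hinj (h1.trans (map_zero _).symm)
  exact Ideal.Quotient.eq_zero_iff_mem.mp h2

theorem rdim_le {p q : PrimeSpectrum A} (h : p ≤ q) : rdim k q ≤ rdim k p := by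
  rcases h.eq_or_lt with rfl | h
  · exact le_rfl
  · exact (rdim_lt h).le

/-- If `p < q` then the dimension of `p` is at least the dimension of `q` plus one. -/
theorem rdim_add_one_le {p q : PrimeSpectrum A} (h : p < q) : rdim k q + 1 ≤ rdim k p := by
  obtain ⟨a, ha⟩ := exists_rdim (k := k) p
  obtain ⟨b, hb⟩ := exists_rdim (k := k) q
  have h1 := rdim_lt (k := k) h
  rw [ha, hb] at h1 ⊢
  exact_mod_cast h1

/-- A prime containing a prime of the same dimension is equal to it. -/
theorem eq_of_le_of_rdim_eq {p q : PrimeSpectrum A} (h : p ≤ q) (hd : rdim k p = rdim k q) :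
    p = q := by
  rcases h.eq_or_lt with h | h
  · exact h
  · exact absurd hd (rdim_lt (k := k) h).ne'

end Trdeg

end CUB


end

section

/-!
# CUB, block A: dimension, lengths, flat pull-back, localisation (statements)

Module `X` proves `theorem t_X : M_X` (or `t_X : S_X` if there is no `M_X`) in the namespace `CUB`, in the file
`Pool/Agent/CUB/A_X.lean`, importing this file.  The hypotheses of `M_X` are statements of other modules.
All algebras are algebras of finite type over the field `k`; `rdim k p` is the transcendence degree of `A / p`, a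
cardinal, which is finite here; `RP k A n` are the primes of dimension `n`, cycles are `RP k A n →₀ E`.
-/

set_option autoImplicit false

open Polynomial

namespace CUB

/-! ## 1. Dimension -/

/-- DIM1. (1) `A / p` is of finite type, so its transcendence degree is finite (`trdeg_lt_aleph0_of_finiteType` or similar). (2) Replace `A` by `A / p`: a domain `A`, `q ≠ 0`
a prime, `d = trdeg (A / q)`; lift a transcendence basis of `A / q` to `x_1, ..., x_d` in `A`; it is algebraically independent. If `trdeg A = d` then `A` is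
algebraic over `k[x]`; let `0 ≠ a ∈ q` satisfy `c_r a^r + ... + c_0 = 0` with `c_i` in `k[x]`, `c_0 ≠ 0` (divide by powers of `a`); then `c_0 ∈ q ∩ k[x] = 0`,
a contradiction. -/
def S_DIM1 : Prop := ∀ (k A : Type) [Field k] [CommRing A] [Algebra k A] [Algebra.FiniteType k A]
  (p : PrimeSpectrum A), (∃ n : ℕ, rdim k p = n) ∧ ∀ q : PrimeSpectrum A, p < q →
    rdim k q < rdim k p

/-- DIM2. Replace `A` by the domain `A / p`, `q` of height one. Noether normalisation: `k[x_1, ..., x_d] ⊆ A` finite injective (Mathlib: `exists_integral_inj_algHom_of_fg` or similar),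
`d = trdeg A`. `q' = q ∩ k[x]`, and `A / q` is integral over `k[x] / q'`, so the transcendence degrees agree. `q' ≠ 0` (incomparability). Let `F` be an irreducible element of `q'` (UFD). Going down
(`k[x]` is integrally closed, `A` is a domain): there is a prime `q1 ⊆ q` over `(F)`; it is not `0`, so `q1 = q` and `q' = (F)`. `trdeg k[x] / (F) = d - 1`: at most `d - 1` by DIM1, and at least
`d - 1`: if the variable `x_j` occurs in `F`, the other variables are algebraically independent modulo `F` (degree in `x_j`). If going down is not in Mathlib there are other proofs: let `0 ≠ a ∈ q`, and take the norm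
`F0 = N(a) ∈ q'` for the extension of fraction fields; all minimal primes of `(a)`, for instance `q` (Krull), ... (see Atiyah-Macdonald 5.16, Matsumura 5.6, Stacks 00OE, 00OS). -/
def S_DIM2 : Prop := ∀ (k A : Type) [Field k] [CommRing A] [Algebra k A] [Algebra.FiniteType k A]
  (p q : PrimeSpectrum A), p ⋖ q → rdim k q + 1 = rdim k p

/-! ## 2. Lengths -/

/-- LENA. Lengths and surjections. `φ : A → B` surjective, `P` a prime of `B`, `p = φ⁻¹(P)`: `B_P / J B_P` and `A_p / φ⁻¹(J) A_p` are the same ring (the localisation of `B / J = A / φ⁻¹ J` at the prime), and the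
length is the length as a module over itself (lattice of ideals). -/
def S_LENA : Prop := ∀ (A B : Type) [CommRing A] [CommRing B] (φ : A →+* B),
  Function.Surjective φ → ∀ (J : Ideal B) (P : PrimeSpectrum B),
  len (J.comap φ) (PrimeSpectrum.comap φ P) = len J P

/-- LENB. Lengths and flat local homomorphisms. Let `p = P ∩ A`, and suppose the maximal ideal of `B_P` is `p B_P`. `A_p → B_P` is flat and local, and the length of `B_P ⊗ M` over `B_P` is the length of `M` over `A_p`
for every `A_p`-module `M` of finite length (composition series; for `M = A_p / p A_p` it is `B_P / p B_P`, a field); if `A_p / I` has infinite length so has `B_P / I` (faithful flatness: strict chains of submodules stay strict), so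
both sides are `0`. (Use `M = A_p / I A_p`.) -/
def S_LENB : Prop := ∀ (A B : Type) [CommRing A] [CommRing B] (φ : A →+* B) (P : PrimeSpectrum B),
  φ.Flat → IsLocalRing.maximalIdeal (Localization.AtPrime P.asIdeal) ≤
    (PrimeSpectrum.comap φ P).asIdeal.map
      ((algebraMap B (Localization.AtPrime P.asIdeal)).comp φ) →
  ∀ I : Ideal A, len (I.map φ) P = len I (PrimeSpectrum.comap φ P)

/-- LENC. Basic properties in dimension one. Let `C = A_p / q A_p`, a Noetherian local domain of dimension one by DIM2 / DIM1 (there is no prime strictly between `q` and `p`: its dimension would be strictly between `n` and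
`n + 1`), so `C / c` has finite length for `c ≠ 0` (`isFiniteLength_quotient_span_singleton`). (1) `len` is the length of `C / (a)` (`Module.length` over `A_p` or over `C` is the same) and it is additive (`Ring.ord_mul`).
(2), (3): `C / (a) = 0` iff `a` is a unit in `C` or, if `q` is not contained in `p`, `C = 0`. (4) is clear. -/
def S_LENC : Prop := ∀ (k A : Type) [Field k] [CommRing A] [Algebra k A] [Algebra.FiniteType k A]
  (n : ℕ) (q : RP k A (n + 1)) (p : RP k A n),
  (∀ a b : A, a ∉ q.1.asIdeal → b ∉ q.1.asIdeal →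
    len (q.1.asIdeal ⊔ Ideal.span {a * b}) p.1 =
      len (q.1.asIdeal ⊔ Ideal.span {a}) p.1 + len (q.1.asIdeal ⊔ Ideal.span {b}) p.1) ∧
  (∀ a : A, len (q.1.asIdeal ⊔ Ideal.span {a}) p.1 ≠ 0 → q.1.asIdeal ≤ p.1.asIdeal ∧
    a ∈ p.1.asIdeal) ∧
  (∀ a : A, a ∉ q.1.asIdeal → q.1.asIdeal ≤ p.1.asIdeal → a ∈ p.1.asIdeal →
    len (q.1.asIdeal ⊔ Ideal.span {a}) p.1 ≠ 0) ∧
  (∀ a : A, a ∉ p.1.asIdeal → len (q.1.asIdeal ⊔ Ideal.span {a}) p.1 = 0)

def M_LENC : Prop := S_DIM1 → S_LENC

/-- DVX. The divisor of a function exists: finitely many primes `p` of dimension `n` have `len (q ⊔ (a)) p ≠ 0`: by S_LENC they contain `q + (a)`, and they are minimal over it (a smaller prime containing `q + (a)` has a larger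
dimension, `≥ n + 1`, and it contains `q` strictly, so its dimension is `< n + 1`); a Noetherian ring has finitely many minimal primes over an ideal. -/
def S_DVX : Prop := ∀ (k A E : Type) [Field k] [CommRing A] [Algebra k A]
  [Algebra.FiniteType k A] [Field E] (n : ℕ) (q : RP k A (n + 1)) (a : A), a ∉ q.1.asIdeal →
  ∃ c : RP k A n →₀ E, IsDv k E q.1 a c

def M_DVX : Prop := S_DIM1 → S_LENC → S_DVX

/-! ## 3. Closed immersions -/

/-- PUSH. Closed immersions. `φ : A → B` surjective. The primes of `B` are the primes of `A` which contain the kernel, with the same dimension; `len` agrees by S_LENA: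
`φ⁻¹(Q ⊔ (φ a)) = φ⁻¹(Q) ⊔ (a)` since it contains the kernel. (1) generators of `ratOn J` are mapped to generators of `ratOn (φ⁻¹ J)` and conversely: a generator of the latter is the divisor of `a` on `V(q)`, `q ⊇ φ⁻¹ J ⊇ ker φ`, and
`push` is injective; its value at primes which do not contain `ker φ` is zero. (2) is elementary. (3) `push` is functorial. -/
def S_PUSH : Prop := (∀ (k A B E : Type) [Field k] [CommRing A] [CommRing B] [Algebra k A]
    [Algebra k B] [Field E] (φ : A →ₐ[k] B) (hφ : Function.Surjective φ) (n : ℕ),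
    Function.Injective (push E (n := n) φ hφ) ∧
    (∀ (J : Ideal B) (c : RP k B n →₀ E),
      push E φ hφ c ∈ ratOn k E n (J.comap φ.toRingHom) ↔ c ∈ ratOn k E n J) ∧
    (∀ (c : RP k B n →₀ E), c ∈ rat k B E n → push E φ hφ c ∈ ratOn k E n (RingHom.ker φ.toRingHom)) ∧
    (∀ c : RP k A n →₀ E, SuppOn k E (RingHom.ker φ.toRingHom) c ↔ ∃ c' : RP k B n →₀ E,
      push E φ hφ c' = c) ∧
    ∀ c ∈ ratOn k E n (RingHom.ker φ.toRingHom), SuppOn k E (RingHom.ker φ.toRingHom) c)

def M_PUSH : Prop := S_LENA → S_PUSH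

/-- RON. Elementary properties of `ratOn`. -/
def S_RON : Prop := ∀ (k A E : Type) [Field k] [CommRing A] [Algebra k A] [Field E] (n : ℕ)
  (I J : Ideal A), I ≤ J → ratOn k E n J ≤ ratOn k E n I

/-! ## 4. Flat pull-back -/

/-- HER. Additivity (the only non-formal input for flat pull-back). `C` a Noetherian local ring, `a ∈ C` a non zero divisor such that `C / a` has finite length, and
suppose that the localisation at every minimal prime of `C` is a field and that every prime is minimal or maximal, and that the maximal ideal is not minimal. Then the length of `C / a` is the sum of the lengths of `C / (Q + (a))` over the minimal primes `Q`. Proof: for a finitely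
generated module `M` with `M / a M` of finite length let `e(M) = length(M / a M) - length(M[a])`; it is additive in short exact sequences (snake lemma), and `0` if `M` has finite length. Take a filtration of `C` with quotients `C / P_i`; the quotients
with `P_i` maximal contribute zero, and every minimal prime `Q` occurs exactly `length C_Q = 1` times (localise at `Q`); `e(C / Q) = length(C / (Q + a))` as `a ∉ Q`. `e(C) = length(C / a)`. It may be easier to prove the general statement: if `M` is a finitely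
generated module, `e(M) = ∑_Q length_{C_Q}(M_Q) e(C / Q)`, by `IsNoetherianRing.induction_on_isQuotientEquivQuotientPrime`; it is also used in block R. -/
def S_HER : Prop := ∀ (C : Type) [CommRing C] [IsNoetherianRing C] [IsLocalRing C] (a : C),
  a ∈ nonZeroDivisors C → (∀ P : Ideal C, P.IsPrime → P = IsLocalRing.maximalIdeal C ∨
    P ∈ minimalPrimes C) → IsLocalRing.maximalIdeal C ∉ minimalPrimes C → IsReduced C →
  ∃ h : (minimalPrimes C).Finite,
    Module.length C (C ⧸ Ideal.span {a}) = ∑ Q ∈ h.toFinset, Module.length C (C ⧸ (Q ⊔ Ideal.span {a}))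

/-- FPX. Existence of flat pull-backs: the primes `P` of `B` of dimension `n + r` over a prime `p` of dimension `n` are minimal over `p B` (a smaller prime over `p` has a larger dimension by DIM1, and at most `n + r` by GoodAt), so there are finitely
many; `c` has finite support. -/
def S_FPX : Prop := ∀ (k A B E : Type) [Field k] [CommRing A] [CommRing B] [Algebra k A]
  [Algebra k B] [Algebra.FiniteType k A] [Algebra.FiniteType k B] [Field E] (r n : ℕ)
  (φ : A →ₐ[k] B), Good k r φ → ∀ c : RP k A n →₀ E, ∃ d, IsPull k E r φ c d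

def M_FPX : Prop := S_DIM1 → S_FPX

/-- FP. Flat pull-back preserves rational equivalence. It is enough to treat the divisor `c` of `a` on `V(q)`, `dim q = n + 1`, `I ⊆ q`. Let `Q_1, ..., Q_s` be the primes of `B` of dimension `n + 1 + r` over `q` (finitely many by S_FPX).
They contain `I B`, and `φ a ∉ Q_i`. CLAIM: `d = ∑ (divisor of φ a on V(Q_i))`. Let `P` be a prime of `B` of dimension `n + r`, `p = P ∩ A`. By GoodAt `dim p ≥ n`. If `q ⊄ p` or `a ∉ p` or `p = q` both sides are zero at `P`
(S_LENC). Otherwise `q < p`, `dim p = n` by DIM1, and by GoodAt the maximal ideal of `B_P` is `p B_P`. `d P = len (q + (a)) p = len (q B + (a)) P` by S_LENB. Let `C = B_P / q B_P`: it is flat over the domain `A_p / q`, so its minimal primes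
lie over `q` (going down, or: nonzero elements of `A_p / q` are non zero divisors on `C`). If `Q ⊆ P` is a prime of `B` minimal over `q B` then it lies over `q`, `Q ≠ P`, so `dim Q ≥ n + r + 1` by DIM1 and `≤ n + 1 + r` by GoodAt: `Q` is one of the
`Q_i`, and `Q B_Q = q B_Q` by GoodAt: `C_Q` is a field. Conversely a `Q_i ⊆ P` is minimal over `q B`. `C` is reduced: it has no embedded primes, because `C` is flat over the domain `A_p / q`, so it is contained in its localisation at the nonzero elements of
`A_p / q`, which is the ring of the fibre over `q` localised ... in detail: let `x` be nilpotent in `C`; it is zero in every `C_{Q}`, so there is no minimal prime containing `Ann x`; if `x ≠ 0` then `Ann x` is contained in an associated prime `P'` of `C`, which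
consists of zero divisors, so it lies over `q` in `A`, so `P' ≠ P` and its dimension is `≥ n + r + 1`, so `= n + r + 1`, so it is one of the `Q_i`, a contradiction. The primes of `C` are minimal or maximal (dimensions between `n + r` and
`n + 1 + r`). `a` is a non zero divisor of `C` by flatness. So S_HER gives `len (q B + (a)) P = ∑_i len (Q_i + (a)) P`. -/
def S_FP : Prop := ∀ (k A B E : Type) [Field k] [CommRing A] [CommRing B] [Algebra k A]
  [Algebra k B] [Algebra.FiniteType k A] [Algebra.FiniteType k B] [Field E] (r n : ℕ)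
  (φ : A →ₐ[k] B), Good k r φ → ∀ (I : Ideal A) (c : RP k A n →₀ E) (d : RP k B (n + r) →₀ E),
  IsPull k E r φ c d → c ∈ ratOn k E n I → d ∈ ratOn k E (n + r) (I.map φ.toRingHom)

def M_FP : Prop := S_DIM1 → S_LENB → S_LENC → S_DVX → S_HER → S_FPX → S_FP

/-- GCO. Composition. (1) flatness: composition; dimensions: add the inequalities; if equality holds for the composition it holds for both, and then `P C_P` is generated by `(P ∩ B)`, which generates the same ideal of `B_{P ∩ B}` as `P ∩ A`. (2) Pull-back is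
functorial: at a prime `P` of `C` of dimension `n + r + 1`, `dim (P ∩ A) = n` implies that `dim (P ∩ B) = n + r` (inequalities). Only `s = 1` and `s = 0` (and `r = 0`) are needed; `n + (r + s)` is definitionally `(n + r) + s` for numerals `s`. (3) isomorphisms are `Good 0`. -/
def S_GCO : Prop := (∀ (k A B C : Type) [Field k] [CommRing A] [CommRing B] [CommRing C]
    [Algebra k A] [Algebra k B] [Algebra k C] [Algebra.FiniteType k A] [Algebra.FiniteType k B]
    [Algebra.FiniteType k C] (φ : A →ₐ[k] B) (ψ : B →ₐ[k] C) (r s : ℕ), Good k r φ →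
    Good k s ψ → Good k (r + s) (ψ.comp φ)) ∧
  (∀ (k A B C E : Type) [Field k] [CommRing A] [CommRing B] [CommRing C]
    [Algebra k A] [Algebra k B] [Algebra k C] [Algebra.FiniteType k A] [Algebra.FiniteType k B]
    [Algebra.FiniteType k C] [Field E] (φ : A →ₐ[k] B) (ψ : B →ₐ[k] C) (r n : ℕ),
    Good k r φ → ((Good k 1 ψ → ∀ (c : RP k A n →₀ E) (d : RP k B (n + r) →₀ E)
      (e : RP k C (n + r + 1) →₀ E), IsPull k E r φ c d → IsPull k E 1 ψ d e →
      IsPull k E (r + 1) (ψ.comp φ) c e) ∧
     (Good k 0 ψ → ∀ (c : RP k A n →₀ E) (d : RP k B (n + r) →₀ E)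
      (e : RP k C (n + r) →₀ E), IsPull k E r φ c d → IsPull k E 0 ψ d e →
      IsPull k E r (ψ.comp φ) c e))) ∧
  (∀ (k A B C E : Type) [Field k] [CommRing A] [CommRing B] [CommRing C]
    [Algebra k A] [Algebra k B] [Algebra k C] [Algebra.FiniteType k A] [Algebra.FiniteType k B]
    [Algebra.FiniteType k C] [Field E] (φ : A →ₐ[k] B) (ψ : B →ₐ[k] C) (r n : ℕ),
    Good k 0 φ → Good k r ψ → ∀ (c : RP k A n →₀ E) (d : RP k B n →₀ E)
      (e : RP k C (n + r) →₀ E), IsPull k E 0 φ c d → IsPull k E r ψ d e →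
      IsPull k E r (ψ.comp φ) c e) ∧
  (∀ (k A B : Type) [Field k] [CommRing A] [CommRing B] [Algebra k A] [Algebra k B]
    (e : A ≃ₐ[k] B), Good k 0 (e : A →ₐ[k] B))

/-- PLIN. Pull-backs are unique and linear, and pull-back along an isomorphism is push-forward along the inverse. -/
def S_PLIN : Prop := (∀ (k A B E : Type) [Field k] [CommRing A] [CommRing B] [Algebra k A]
    [Algebra k B] [Field E] (r n : ℕ) (φ : A →ₐ[k] B) (c c' : RP k A n →₀ E)
    (d d' : RP k B (n + r) →₀ E) (x : E), IsPull k E r φ c d → IsPull k E r φ c' d' →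
    (c = c' → d = d') ∧ IsPull k E r φ (c + c') (d + d') ∧ IsPull k E r φ (c - c') (d - d') ∧
    IsPull k E r φ (x • c) (x • d) ∧ IsPull k E r φ (0 : RP k A n →₀ E) 0) ∧
  (∀ (k A B E : Type) [Field k] [CommRing A] [CommRing B] [Algebra k A]
    [Algebra k B] [Field E] (n : ℕ) (e : A ≃ₐ[k] B) (c : RP k A n →₀ E) (d : RP k B n →₀ E),
    IsPull k E 0 (e : A →ₐ[k] B) c d ↔
      push E (e.symm : B →ₐ[k] A) e.symm.surjective c = d)

/-- PBC. Base change: `A → B` (`φ`), `A → A'` surjective with kernel `I` (`α`), `B → B'` surjective with kernel `I B` (`β`), and `φ' : A' → B'` with `φ' α = β φ`: the pull-back along `φ` of a push-forward along `α` is the push-forward along `β` of the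
pull-back along `φ'`. Elementary: primes of `B'` are the primes of `B` containing `I`, i.e. those `P` with `P ∩ A ⊇ I`. Dimensions are preserved. -/
def S_PBC : Prop := ∀ (k A B A' B' E : Type) [Field k] [CommRing A] [CommRing B] [CommRing A']
  [CommRing B'] [Algebra k A] [Algebra k B] [Algebra k A'] [Algebra k B'] [Field E] (r n : ℕ)
  (φ : A →ₐ[k] B) (φ' : A' →ₐ[k] B') (α : A →ₐ[k] A') (β : B →ₐ[k] B')
  (hα : Function.Surjective α) (hβ : Function.Surjective β), φ'.comp α = β.comp φ →
  RingHom.ker β.toRingHom ≤ (RingHom.ker α.toRingHom).map φ.toRingHom →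
  ∀ (c : RP k A' n →₀ E) (d : RP k B' (n + r) →₀ E), IsPull k E r φ' c d →
  IsPull k E r φ (push E α hα c) (push E β hβ d)

/-! ## 5. Examples of flat homomorphisms -/

/-- GX. Polynomial rings. `R[X]` is free over `R`. A prime `P` of `R[X]` over `p` is a prime of `κ(p)[X]`: it is `0` (then `P = p R[X]`, dimension `dim p + 1`, and `P R[X]_P = p R[X]_P`) or generated by an irreducible polynomial (then `R[X] / P` is
algebraic over `R / p` and `dim P = dim p`). The second statement follows from the first, S_GCO and `MvPolynomial.finSuccEquiv` or `optionEquivLeft` by induction. -/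
def S_GX : Prop := (∀ (k R : Type) [Field k] [CommRing R] [Algebra k R]
    [Algebra.FiniteType k R], Good k 1 (IsScalarTower.toAlgHom k R R[X])) ∧
  ∀ (k R : Type) [Field k] [CommRing R] [Algebra k R] [Algebra.FiniteType k R] (m : ℕ),
    Good k m (IsScalarTower.toAlgHom k R (MvPolynomial (Fin m) R))

def M_GX : Prop := S_DIM1 → S_GCO → S_GX

/-- GLI. Local isomorphisms. If for every prime `P` of `B` there are `a ∈ A` with `φ a ∉ P` and a localisation: `B_{φ a}` is a localisation of `A_a` away from an element (that is, there is `b ∈ A` with `φ b ∉ P` and `A_b → B_{φ b}` bijective; we state this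
form), then `φ` is `Good 0`. Flatness is local; `A_p → B_P` is an isomorphism. -/
def S_GLI : Prop := ∀ (k A B : Type) [Field k] [CommRing A] [CommRing B] [Algebra k A]
  [Algebra k B] [Algebra.FiniteType k A] [Algebra.FiniteType k B] (φ : A →ₐ[k] B),
  (∀ P : PrimeSpectrum B, ∃ b : A, φ b ∉ P.asIdeal ∧
    Function.Bijective (Localization.awayMap φ.toRingHom b)) → Good k 0 φ

/-- GLO. Localisation away from an element, in any model. -/
def S_GLO : Prop := ∀ (k A B : Type) [Field k] [CommRing A] [CommRing B] [Algebra k A]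
  [Algebra k B] [Algebra.FiniteType k A] [Algebra.FiniteType k B] (φ : A →ₐ[k] B) (a : A),
  (@IsLocalization.Away A _ a B _ φ.toRingHom.toAlgebra) → Good k 0 φ

/-- GET. The double cover is etale where `2 y - 1` is invertible. `Q T g` is free of rank `2` over `T`. For a prime `P` of `Q T g` not containing `2 y - 1`, `p = P ∩ T`: `T / p → Q / P` is integral, so the dimensions agree; `Q / p Q = (T / p)[y] / (y^2 - y - g)`, and
over `κ(p)` the polynomial `y^2 - y - g` has the simple root `y mod P` in `κ(P)`, so `κ(p)[y] / (y^2 - y - g)` localised at `P` is a field. For the composition with the localisation use S_GCO-type arguments or do it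
directly for `B`. (Alternatively: standard etale algebras in Mathlib, and unramified implies `m_B = m_A B`.) -/
def S_GET : Prop := ∀ (k T B : Type) [Field k] [CommRing T] [CommRing B] [Algebra k T]
  [Algebra k B] [Algebra.FiniteType k T] [Algebra.FiniteType k B] (g : T)
  (φ : Q T g →ₐ[k] B),
  (@IsLocalization.Away (Q T g) _ (2 * yy g - 1) B _ φ.toRingHom.toAlgebra) →
  Good k 0 (φ.comp (Qbase g))

/-- GVR. The homomorphism `R → VR R f`. Flat: `VR R f` is free over `R[t]`, and `R[t]` is free over `R`. The condition `GoodAt` at the prime `P` may be checked after localising `VR R f` at an element not in `P`. If `2 y - 1 ∉ P` use S_GX (2) and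
S_GET and S_GCO. If `2 y - 1 ∈ P` then `y^2 - y ∉ P`, since `(2 y - 1)^2 = 1 + 4 (y^2 - y)`; so `∑ t_j f_j ∉ P` and `f_l ∉ P` for some `l`. `VR R f` localised at `f_l` is the polynomial ring over `R_{f_l}` in `y` and the `t_j`, `j ≠ l` (statement S_VRL), so
use S_GLO, S_GX (2) and S_GCO. -/
def S_GVR : Prop := ∀ (k R : Type) [Field k] [CommRing R] [Algebra k R]
  [Algebra.FiniteType k R] (m : ℕ) (f : Fin m → R), Good k m (VRbase f : R →ₐ[k] VR R f)

/-- VRL. `VR R f` away from `f l`: `t_l = (y ^ 2 - y - ∑_{j ≠ l} t_j f_j) / f_l`, so the localisation is a polynomial ring in one variable (`y`) over the polynomial ring `P` in the `t_j`, `j ≠ l`, over the localisation `S` of `R` away from `f l`. `B` is any localisation of `VR R f` away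
from `f l`. -/
def S_VRL : Prop := ∀ (k R S B : Type) [Field k] [CommRing R] [CommRing S] [CommRing B]
  [Algebra k R] [Algebra k S] [Algebra k B] (m : ℕ) (f : Fin (m + 1) → R) (l : Fin (m + 1))
  (σ : R →ₐ[k] S) (φ : VR R f →ₐ[k] B),
  (@IsLocalization.Away R _ (f l) S _ σ.toRingHom.toAlgebra) →
  (@IsLocalization.Away (VR R f) _ (VRbase (k := k) f (f l)) B _ φ.toRingHom.toAlgebra) →
  ∃ e : B ≃ₐ[k] (MvPolynomial (Fin m) S)[X],
    (∀ r : R, e (φ (VRbase (k := k) f r)) = C (MvPolynomial.C (σ r))) ∧
    (∀ j : Fin m, e (φ (algebraMap (MvPolynomial (Fin (m + 1)) R) (VR R f)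
      (MvPolynomial.X (l.succAbove j)))) = C (MvPolynomial.X j)) ∧
    e (φ (yy (lin f))) = X

def M_GVR : Prop := S_DIM1 → S_GCO → S_GX → S_GLO → S_GET → S_VRL → S_GVR

/-! ## 6. Localisation -/

/-- LOC. Localisation sequence. `φ : A → B` the localisation away from `a`. The primes of `B` are the primes of `A` not containing `a`, with the same dimensions (S_GLO and the inequality, or directly). If `d` is the divisor of `b / a^r` on `V(Q)` (we may take `b ∈ A`), it is the restriction of the divisor of
`b` on `V(Q ∩ A)` (lengths agree: S_LENB or directly). So there is `ρ ∈ ratOn I` with restriction `d`, the restriction of `c - ρ` is `0`, so `c - ρ` is supported on `V(a)`. (`I` arbitrary: if `Q ⊇ I B` then `Q ∩ A ⊇ I`.) -/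
def S_LOC : Prop := ∀ (k A B E : Type) [Field k] [CommRing A] [CommRing B] [Algebra k A]
  [Algebra k B] [Algebra.FiniteType k A] [Algebra.FiniteType k B] [Field E] (φ : A →ₐ[k] B)
  (a : A), (@IsLocalization.Away A _ a B _ φ.toRingHom.toAlgebra) → ∀ (n : ℕ) (I : Ideal A),
  (∀ (c : RP k A n →₀ E) (d : RP k B n →₀ E), IsPull k E 0 φ c d →
    d ∈ ratOn k E n (I.map φ.toRingHom) →
    ∃ ρ ∈ ratOn k E n I, SuppOn k E (Ideal.span {a}) (c - ρ)) ∧
  (∀ d : RP k B n →₀ E, ∃ c : RP k A n →₀ E, IsPull k E 0 φ c d)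

def M_LOC : Prop := S_DIM1 → S_LENB → S_LENC → S_DVX → S_GLO → S_LOC

end CUB


end

section

/-!
# CUB, block A, module DVX: the divisor of a function exists
-/

set_option autoImplicit false

open Polynomial

namespace CUB

namespace DVX

/-- A point of dimension `n` of the closed subset `V(q + (a))` is a minimal prime. -/
lemma mem_minimalPrimes (hD : S_DIM1) {k A : Type} [Field k] [CommRing A] [Algebra k A]
    [Algebra.FiniteType k A] {n : ℕ} (q : RP k A (n + 1)) (a : A) (ha : a ∉ q.1.asIdeal)
    (p : RP k A n) (hq : q.1.asIdeal ≤ p.1.asIdeal) (hp : a ∈ p.1.asIdeal) :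
    p.1.asIdeal ∈ (q.1.asIdeal ⊔ Ideal.span {a}).minimalPrimes := by
  refine ⟨⟨p.1.isPrime, sup_le hq ?_⟩, ?_⟩
  · rw [Ideal.span_singleton_le_iff_mem]
    exact hp
  · rintro P ⟨hP, hI⟩ hle
    by_contra hne
    let P' : PrimeSpectrum A := ⟨P, hP⟩
    have h1 : P' < p.1 := by
      refine lt_of_le_of_ne hle ?_
      intro h
      exact hne (le_of_eq (congrArg PrimeSpectrum.asIdeal h).symm)
    have haP : a ∈ P := hI (Ideal.mem_sup_right (Ideal.subset_span rfl))
    have hqP : q.1.asIdeal ≤ P := le_sup_left.trans hI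
    have h2 : q.1 < P' := by
      refine lt_of_le_of_ne hqP ?_
      intro h
      apply ha
      rw [h]
      exact haP
    obtain ⟨m, hm⟩ := (hD k A P').1
    have h3 := (hD k A P').2 p.1 h1
    have h4 := (hD k A q.1).2 P' h2
    rw [hm, p.2] at h3
    rw [hm, q.2] at h4
    have h3' : n < m := by exact_mod_cast h3
    have h4' : m < n + 1 := by exact_mod_cast h4
    omega

end DVX

theorem t_DVX : M_DVX := by
  intro hD hL k A E _ _ _ _ _ n q a ha
  classical
  have hN : IsNoetherianRing A := Algebra.FiniteType.isNoetherianRing k A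
  have hfin : (q.1.asIdeal ⊔ Ideal.span {a}).minimalPrimes.Finite :=
    Ideal.finite_minimalPrimes_of_isNoetherianRing A _
  have hinj : Function.Injective (fun p : RP k A n => p.1.asIdeal) := by
    intro p p' h
    exact Subtype.ext (PrimeSpectrum.ext h)
  have hf : (Function.support (fun p : RP k A n =>
      ((len (q.1.asIdeal ⊔ Ideal.span {a}) p.1 : ℕ) : E))).Finite := by
    refine Set.Finite.subset (hfin.preimage (hinj.injOn)) ?_
    intro p hp
    have h0 : len (q.1.asIdeal ⊔ Ideal.span {a}) p.1 ≠ 0 := by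
      intro h
      apply hp
      show ((len (q.1.asIdeal ⊔ Ideal.span {a}) p.1 : ℕ) : E) = 0
      rw [h, Nat.cast_zero]
    obtain ⟨h1, h2⟩ := (hL k A n q p).2.1 a h0
    exact DVX.mem_minimalPrimes hD q a ha p h1 h2
  exact ⟨Finsupp.ofSupportFinite _ hf, fun p => rfl⟩

end CUB


end

section

/-!
# CUB: specialisation at infinity, charts of double covers, tame symbols
-/

set_option autoImplicit false

open Polynomial

namespace CUB

/-! ## Evaluation -/

section Ev

variable {k : Type} [Field k] {R K : Type} [CommRing R] [CommRing K] [Algebra k R] [Algebra k K]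

/-- The homomorphism `R[X] → K` which is `θ` on `R` and maps `X` to `s`. -/
noncomputable def evs (θ : R →ₐ[k] K) (s : K) : R[X] →ₐ[k] K where
  toRingHom := eval₂RingHom θ.toRingHom s
  commutes' r := by
    have h : algebraMap k R[X] r = C (algebraMap k R r) := rfl
    rw [h]
    simp

@[simp] lemma evs_C (θ : R →ₐ[k] K) (s : K) (r : R) : evs θ s (C r) = θ r := eval₂_C _ _

@[simp] lemma evs_X (θ : R →ₐ[k] K) (s : K) : evs θ s X = s := eval₂_X _ _

lemma evs_apply (θ : R →ₐ[k] K) (s : K) (P : R[X]) : evs θ s P = P.eval₂ θ.toRingHom s := rfl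

lemma evs_unique (θ : R →ₐ[k] K) (s : K) (φ : R[X] →ₐ[k] K) (h : ∀ r, φ (C r) = θ r)
    (hX : φ X = s) : φ = evs θ s := by
  have h1 : φ.toRingHom = (evs θ s).toRingHom := by
    apply Polynomial.ringHom_ext
    · intro r
      exact (h r).trans (evs_C θ s r).symm
    · exact hX.trans (evs_X θ s).symm
  exact AlgHom.ext fun x => RingHom.congr_fun h1 x

variable (k) in
/-- The inclusion `R → R[X]`. -/
noncomputable def CC (R : Type) [CommRing R] [Algebra k R] : R →ₐ[k] R[X] :=
  IsScalarTower.toAlgHom k R R[X]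

@[simp] lemma CC_apply (r : R) : CC k R r = C r := rfl

/-- The homomorphism `R[X] → S[X]`. -/
noncomputable abbrev mapX (ψ : R →ₐ[k] K) : R[X] →ₐ[k] K[X] := Polynomial.mapAlgHom ψ

lemma mapX_surjective (ψ : R →ₐ[k] K) (h : Function.Surjective ψ) :
    Function.Surjective (mapX ψ) := Polynomial.map_surjective ψ.toRingHom h

/-- The homomorphism `X ↦ u X`. -/
noncomputable def muHom (u : R) : R[X] →ₐ[k] R[X] := evs (CC k R) (C u * X)

lemma muHom_C (u r : R) : muHom (k := k) u (C r) = C r := evs_C _ _ _

lemma muHom_X (u : R) : muHom (k := k) u X = C u * X := evs_X _ _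

lemma muHom_comp (u v : R) (h : u * v = 1) :
    (muHom (k := k) u).comp (muHom v) = AlgHom.id k R[X] := by
  have h1 := evs_unique (CC k R) X ((muHom (k := k) u).comp (muHom v))
    (fun r => by rw [AlgHom.comp_apply, muHom_C, muHom_C]; rfl)
    (by
      rw [AlgHom.comp_apply, muHom_X, map_mul, muHom_C, muHom_X, ← mul_assoc, ← C_mul,
        mul_comm v u, h, C_1, one_mul])
  have h2 := evs_unique (CC k R) X (AlgHom.id k R[X]) (fun r => rfl) rfl
  rw [h1, h2]

/-- The automorphism `X ↦ u X` for a unit `u`. -/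
noncomputable def mu (u : Rˣ) : R[X] ≃ₐ[k] R[X] :=
  AlgEquiv.ofAlgHom (muHom (u : R)) (muHom ((u⁻¹ : Rˣ) : R)) (muHom_comp _ _ u.mul_inv)
    (muHom_comp _ _ u.inv_mul)

/-- The automorphism `X ↦ u X` as a homomorphism. -/
noncomputable abbrev muH (u : Rˣ) : R[X] →ₐ[k] R[X] := (mu (k := k) u).toAlgHom

@[simp] lemma mu_C (u : Rˣ) (r : R) : mu (k := k) u (C r) = C r := muHom_C _ _

@[simp] lemma mu_X (u : Rˣ) : mu (k := k) u (X : R[X]) = C (u : R) * X := muHom_X _

end Ev

/-! ## Specialisation at infinity -/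

section Inf

variable {R : Type} [CommRing R]

/-- The closure in the chart at infinity: the ideal `z` of `R[X]` is extended to `R[X, 1 / X]` and then contracted along `R[X] → R[X, 1 / X]`, `X ↦ 1 / X`. -/
noncomputable def infI (z : Ideal R[X]) : Ideal R[X] :=
  (z.map (algebraMap R[X] (Localization.Away (X : R[X])))).comap
    (eval₂RingHom ((algebraMap R[X] (Localization.Away (X : R[X]))).comp C)
      (IsLocalization.Away.invSelf (X : R[X])))

/-- The multiplicity at the prime `p` of `R` of the specialisation at infinity of `V(z)`. -/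
noncomputable def bet (z : Ideal R[X]) (p : PrimeSpectrum R) : ℕ :=
  len (infI z ⊔ Ideal.span {X}) (PrimeSpectrum.comap (evalRingHom (0 : R)) p)

variable (k E : Type) [Field k] [Algebra k R] [Field E]

/-- The cycle `d` is the specialisation at infinity of the cycle `c`. -/
def IsBeta {n : ℕ} (c : RP k R[X] (n + 1) →₀ E) (d : RP k R n →₀ E) : Prop :=
  ∀ p : RP k R n, d p = c.sum (fun z e => e * (bet z.1.asIdeal p.1 : E))

end Inf

/-! ## The two sheets of a split double cover -/

section Sg

variable {k : Type} [Field k] {T : Type} [CommRing T] [Algebra k T]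

/-- The homomorphism `T[y] / (y ^ 2 - y - G) → T`, `y ↦ v`, where `v` is a root. -/
noncomputable def sg {G : T} (v : T) (hv : v ^ 2 - v = G) : Q T G →ₐ[k] T :=
  Qlift (AlgHom.id k T) v hv

@[simp] lemma sg_yy {G : T} (v : T) (hv : v ^ 2 - v = G) : sg (k := k) v hv (yy G) = v :=
  Qlift_yy _ _ _

@[simp] lemma sg_algebraMap {G : T} (v : T) (hv : v ^ 2 - v = G) (t : T) :
    sg (k := k) v hv (algebraMap T (Q T G) t) = t := Qlift_algebraMap _ _ _ _

lemma sg_surjective {G : T} (v : T) (hv : v ^ 2 - v = G) :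
    Function.Surjective (sg (k := k) v hv) := fun x => ⟨algebraMap T (Q T G) x, sg_algebraMap v hv x⟩

lemma conj_root {G v : T} (hv : v ^ 2 - v = G) : (1 - v) ^ 2 - (1 - v) = G := by
  rw [← hv]; ring

/-- The involution `y ↦ 1 - y`, as a homomorphism. -/
noncomputable abbrev tauH (g : T) : Q T g →ₐ[k] Q T g := (tau (k := k) g).toAlgHom

lemma tauH_surjective (g : T) : Function.Surjective (tauH (k := k) g) :=
  (tau (k := k) g).surjective

/-- The action of the involution `y ↦ 1 - y` on cycles. -/
noncomputable def ptau (E : Type) [Field E] (g : T) {n : ℕ} :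
    (RP k (Q T g) n →₀ E) →ₗ[E] (RP k (Q T g) n →₀ E) :=
  push E (tauH g) (tauH_surjective g)

end Sg

/-! ## Charts of the double cover `y ^ 2 - y = G + X f` over `R[X]` -/

section Chart

variable {k : Type} [Field k] {R R' : Type} [CommRing R] [CommRing R'] [Algebra k R]
  [Algebra k R']

/-- The ring `R[X][y] / (y ^ 2 - y - G - X f)`. -/
abbrev YY (G f : R) : Type := Q R[X] (C G + X * C f)

/-- The homomorphism `R[X][y] / (y ^ 2 - y - G - X f) → R'[X]`, `y ↦ v`, if `f` maps to zero
in `R'` and `v ^ 2 - v = G` in `R'`. -/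
noncomputable def shv {G f : R} (ψ : R →ₐ[k] R') (hf : ψ f = 0) (v : R') (hv : v ^ 2 - v = ψ G) :
    YY G f →ₐ[k] R'[X] :=
  Qlift (mapX ψ) (C v) (by
    have h : mapX ψ (C G + X * C f) = C (ψ G) + X * C (ψ f) := by simp [mapX]
    rw [h, hf, ← hv]
    simp)

@[simp] lemma shv_yy {G f : R} (ψ : R →ₐ[k] R') (hf : ψ f = 0) (v : R')
    (hv : v ^ 2 - v = ψ G) : shv ψ hf v hv (yy (C G + X * C f)) = C v := Qlift_yy _ _ _

@[simp] lemma shv_algebraMap {G f : R} (ψ : R →ₐ[k] R') (hf : ψ f = 0) (v : R')
    (hv : v ^ 2 - v = ψ G) (P : R[X]) :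
    shv ψ hf v hv (algebraMap R[X] (YY G f) P) = mapX ψ P := Qlift_algebraMap _ _ _ _

lemma shv_surjective {G f : R} (ψ : R →ₐ[k] R') (hψ : Function.Surjective ψ) (hf : ψ f = 0)
    (v : R') (hv : v ^ 2 - v = ψ G) : Function.Surjective (shv ψ hf v hv) := by
  intro x
  obtain ⟨P, rfl⟩ := mapX_surjective ψ hψ x
  exact ⟨_, shv_algebraMap ψ hf v hv P⟩

/-- The chart `Spec R[X] → Spec (R[X][y] / (y ^ 2 - y - G - X f))` defined by a root `v` of
`v ^ 2 - v = G`: `y ↦ v + X f` and `X ↦ X (X f + (2 v - 1))`. -/
noncomputable def chi {G f : R} (v : R) (hv : v ^ 2 - v = G) : YY G f →ₐ[k] R[X] :=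
  Qlift (evs (CC k R) (X * (X * C f + C (2 * v - 1)))) (C v + X * C f) (by
    have h : evs (CC k R) (X * (X * C f + C (2 * v - 1))) (C G + X * C f) =
        C G + X * (X * C f + C (2 * v - 1)) * C f := by simp; ring
    rw [h, ← hv]
    simp only [map_sub, map_mul, map_pow, map_one]
    have h2 : (C (2 : R) : R[X]) = 2 := rfl
    rw [h2]
    ring)

@[simp] lemma chi_yy {G f : R} (v : R) (hv : v ^ 2 - v = G) :
    chi (k := k) (f := f) v hv (yy (C G + X * C f)) = C v + X * C f := Qlift_yy _ _ _

@[simp] lemma chi_algebraMap {G f : R} (v : R) (hv : v ^ 2 - v = G) (P : R[X]) :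
    chi (k := k) (f := f) v hv (algebraMap R[X] (YY G f) P) =
      evs (CC k R) (X * (X * C f + C (2 * v - 1))) P := Qlift_algebraMap _ _ _ _

/-- The map of double covers `y ^ 2 - y = G + X f` defined by `R → R'`. -/
noncomputable def YYmap (G f : R) (ψ : R →ₐ[k] R') : YY G f →ₐ[k] YY (ψ G) (ψ f) :=
  Qmap (mapX ψ) (by simp [mapX])

lemma YYmap_surjective (G f : R) (ψ : R →ₐ[k] R') (hψ : Function.Surjective ψ) :
    Function.Surjective (YYmap G f ψ) := Qmap_surjective _ _ (mapX_surjective ψ hψ)

end Chart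

/-! ## Valuation rings, norms and tame symbols -/

section Val

variable {k : Type} [Field k] {R K : Type} [CommRing R] [Field K] [Algebra k R] [Algebra k K]

/-- The homomorphism from `R` to the residue field of the valuation ring `O`. -/
noncomputable def rhoO (θ : R →ₐ[k] K) (O : ValuationSubring K) (h : ∀ r, θ r ∈ O) :
    R →+* IsLocalRing.ResidueField O :=
  (IsLocalRing.residue O).comp (θ.toRingHom.codRestrict O.toSubring h)

/-- `b / c` is the norm of `x`, an element of the field `L`, to the subfield generated by the image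
of `ρ : R → L`. -/
def IsNm {L : Type} [Field L] (ρ : R →+* L) (x : L) (b c : R) : Prop :=
  ρ b ≠ 0 ∧ ρ c ≠ 0 ∧
    ((Algebra.norm (Subfield.closure (Set.range ρ)) x : Subfield.closure (Set.range ρ)) : L) * ρ c
      = ρ b

/-- `π` is a uniformiser of `O`. -/
def IsUnif (O : ValuationSubring K) (π : K) : Prop :=
  π ∈ O ∧ π ≠ 0 ∧ π⁻¹ ∉ O ∧ ∀ x ∈ O, x⁻¹ ∉ O → x / π ∈ O

/-- `x` is a unit of `O`. -/
def IsUn (O : ValuationSubring K) (x : K) : Prop := x ≠ 0 ∧ x ∈ O ∧ x⁻¹ ∈ O

/-- `w` is the tame symbol (up to sign and before reduction) of `a` and `u` at the discrete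
valuation ring `O`. -/
def IsTame (O : ValuationSubring K) (a u w : K) : Prop :=
  ∃ (π α β : K) (i j : ℤ), IsUnif O π ∧ IsUn O α ∧ IsUn O β ∧ a = α * π ^ i ∧ u = β * π ^ j ∧
    w = a ^ j * u ^ (-i)

variable (E : Type) [Field E]

/-- The cycle `d` is the divisor, on the centre of `O`, of the norm of the tame symbol of `a`
and `u`. -/
def IsTD (θ : R →ₐ[k] K) {n : ℕ} (O : ValuationSubring K) (a u : K) (d : RP k R n →₀ E) : Prop :=
  ∃ (h : ∀ r, θ r ∈ O) (T : RP k R (n + 1)) (w : O) (b c : R) (db dc : RP k R n →₀ E),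
    T.1.asIdeal = RingHom.ker (rhoO θ O h) ∧ IsTame O a u (w : K) ∧
    IsNm (rhoO θ O h) (IsLocalRing.residue O w) b c ∧ IsDv k E T.1 b db ∧ IsDv k E T.1 c dc ∧
    d = db - dc

variable (n : ℕ)

/-- The valuation rings `O` of `K` which contain the image of `R`, whose centre on `R` has
dimension `n + 1`, and which do not contain `s`. -/
def VV (θ : R →ₐ[k] K) (s : K) : Set (ValuationSubring K) :=
  {O | s ∉ O ∧ ∃ (h : ∀ r, θ r ∈ O) (T : RP k R (n + 1)), T.1.asIdeal = RingHom.ker (rhoO θ O h)}

end Val

end CUB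


end

section

/-!
# CUB, block B: polynomial rings, specialisation at infinity (statements)

Module `X` proves `theorem t_X : M_X` (or `t_X : S_X` if there is no `M_X`) in the namespace `CUB`, in the file
`Pool/Agent/CUB/B_X.lean`, importing this file.  The hypotheses of `M_X` are statements of other modules (of this file or of
`StmtsA`).  `CC k R : R →ₐ[k] R[X]` is the inclusion, `mapX ψ : R[X] →ₐ[k] S[X]`, `evs θ s : R[X] →ₐ[k] K` is the evaluation at `s`,
`mu u` is the automorphism `X ↦ u X` of `R[X]` (see `Defs3.lean`).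
-/

set_option autoImplicit false

open Polynomial

namespace CUB

/-! ## 1. Functoriality, flat pull-back of divisors -/

/-- PCO. Push-forward is functorial (`Finsupp.mapDomain_comp`); the push-forward along an isomorphism preserves `rat` (bijection on primes; the length `len` agrees by S_LENA; or use S_PUSH (1) with `J = ⊥`), and `tau` is an involution (`tauHom_comp`), so push-forward and pull-back agree (S_PLIN (2)). -/
def S_PCO : Prop :=
  (∀ (k A B C E : Type) [Field k] [CommRing A] [CommRing B] [CommRing C] [Algebra k A]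
    [Algebra k B] [Algebra k C] [Field E] (n : ℕ) (φ : A →ₐ[k] B) (χ : B →ₐ[k] C)
    (ψ : A →ₐ[k] C) (hφ : Function.Surjective φ) (hχ : Function.Surjective χ)
    (hψ : Function.Surjective ψ), ψ = χ.comp φ → ∀ c : RP k C n →₀ E,
    push E ψ hψ c = push E φ hφ (push E χ hχ c)) ∧
  (∀ (k A E : Type) [Field k] [CommRing A] [Algebra k A] [Field E] (n : ℕ)
    (φ : A →ₐ[k] A) (hφ : Function.Surjective φ), φ = AlgHom.id k A → ∀ c : RP k A n →₀ E,
    push E φ hφ c = c) ∧
  (∀ (k A B E : Type) [Field k] [CommRing A] [CommRing B] [Algebra k A] [Algebra k B] [Field E]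
    (n : ℕ) (e : A ≃ₐ[k] B) (c : RP k B n →₀ E),
    push E e.toAlgHom e.surjective c ∈ rat k A E n ↔ c ∈ rat k B E n) ∧
  (∀ (k T E : Type) [Field k] [CommRing T] [Algebra k T] [Field E] (g : T) (n : ℕ)
    (c : RP k (Q T g) n →₀ E), ptau E g (ptau E g c) = c ∧
      (IsPull k E 0 (tauH g) c (ptau E g c)) ∧
      (c ∈ rat k (Q T g) E n → ptau E g c ∈ rat k (Q T g) E n))

def M_PCO : Prop := S_PUSH → S_PLIN → S_PCO

/-- FPD. Flat pull-back of a divisor (this is the CLAIM in the proof of S_FP in `StmtsA`, and the same proof). `S` is the set of the primes of `B` of dimension `n + 1 + r` over `q`. -/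
def S_FPD : Prop := ∀ (k A B E : Type) [Field k] [CommRing A] [CommRing B] [Algebra k A]
  [Algebra k B] [Algebra.FiniteType k A] [Algebra.FiniteType k B] [Field E] (r n : ℕ)
  (φ : A →ₐ[k] B), Good k r φ → ∀ (q : RP k A (n + 1)) (a : A) (c : RP k A n →₀ E)
  (d : RP k B (n + r) →₀ E), a ∉ q.1.asIdeal → IsDv k E q.1 a c → IsPull k E r φ c d →
  ∃ (S : Finset (RP k B (n + r + 1))) (e : RP k B (n + r + 1) → (RP k B (n + r) →₀ E)),
    (∀ P, P ∈ S ↔ PrimeSpectrum.comap φ.toRingHom P.1 = q.1) ∧
    (∀ P ∈ S, φ a ∉ P.1.asIdeal ∧ IsDv k E P.1 (φ a) (e P)) ∧ d = ∑ P ∈ S, e P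

def M_FPD : Prop := S_DIM1 → S_LENB → S_LENC → S_DVX → S_HER → S_FPX → S_FPD

/-- KERQ. Kernels. An element of `Q T g` is uniquely `a + b y` (`Q_span`, and `1, y` is a basis: `AdjoinRoot.powerBasis'`, or degrees), and `Qmap φ h (a + b y) = φ a + φ b y`. For polynomial rings: `Polynomial.ker_mapRingHom`,
`MvPolynomial.ker_map` or similar. -/
def S_KERQ : Prop :=
  (∀ (T : Type) [CommRing T] (g a b : T), algebraMap T (Q T g) a + algebraMap T (Q T g) b * yy g = 0 →
    a = 0 ∧ b = 0) ∧
  (∀ (k T S : Type) [Field k] [CommRing T] [CommRing S] [Algebra k T] [Algebra k S] (g : T)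
    (g' : S) (φ : T →ₐ[k] S) (h : φ g = g'), RingHom.ker (Qmap φ h).toRingHom =
      (RingHom.ker φ.toRingHom).map (algebraMap T (Q T g))) ∧
  (∀ (k R S : Type) [Field k] [CommRing R] [CommRing S] [Algebra k R] [Algebra k S] (m : ℕ)
    (f : Fin m → R) (ψ : R →ₐ[k] S), RingHom.ker (VRmap ψ f).toRingHom =
      (RingHom.ker ψ.toRingHom).map (VRbase (k := k) f).toRingHom) ∧
  (∀ (k R S : Type) [Field k] [CommRing R] [CommRing S] [Algebra k R] [Algebra k S]
    (G f : R) (ψ : R →ₐ[k] S), RingHom.ker (YYmap G f ψ).toRingHom =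
      (RingHom.ker ψ.toRingHom).map ((Qbase (k := k) (C G + X * C f)).comp (CC k R)).toRingHom) ∧
  (∀ (k R S : Type) [Field k] [CommRing R] [CommRing S] [Algebra k R] [Algebra k S]
    (ψ : R →ₐ[k] S), RingHom.ker (mapX ψ).toRingHom = (RingHom.ker ψ.toRingHom).map (CC k R).toRingHom)

/-- TWO. The split double cover. `σ v : Q T G → T`, `y ↦ v`. The map `Q T G → T × T` given by `σ v` and `σ (1 - v)` is an isomorphism since `y^2 - y - G = (y - v) (y - (1 - v))` and the difference of the two roots is the unit `2 v - 1` (Chinese remainder;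
directly: `e = (y - (1 - v)) / (2 v - 1)` is idempotent, `σ v e = 1`, `σ (1 - v) e = 0`; the kernel of `σ v` is generated by `y - v`, and by `1 - e`). `σ v` is the localisation away from `e` (S_GLO, or S_GLI), so `Good 0`. A prime of `Q T G` contains exactly one
of `e` and `1 - e`, so it is the preimage of a prime of `T` under exactly one of `σ v`, `σ (1 - v)`. The statements on cycles are elementary. -/
def S_TWO : Prop := ∀ (k T E : Type) [Field k] [CommRing T] [Algebra k T]
  [Algebra.FiniteType k T] [Field E] (G v : T) (hv : v ^ 2 - v = G), IsUnit (2 * v - 1) →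
  Good k 0 (sg (k := k) v hv) ∧ Good k 0 (sg (k := k) (1 - v) (conj_root hv)) ∧
  (∀ (n : ℕ) (c : RP k (Q T G) n →₀ E) (c₀ c₁ : RP k T n →₀ E), IsPull k E 0 (sg v hv) c c₀ →
    IsPull k E 0 (sg (1 - v) (conj_root hv)) c c₁ →
    c = push E (sg v hv) (sg_surjective v hv) c₀ +
      push E (sg (1 - v) (conj_root hv)) (sg_surjective (1 - v) (conj_root hv)) c₁) ∧
  (∀ (n : ℕ) (c₀ c₁ : RP k T n →₀ E), IsPull k E 0 (sg v hv)
    (push E (sg v hv) (sg_surjective v hv) c₀ +
      push E (sg (1 - v) (conj_root hv)) (sg_surjective (1 - v) (conj_root hv)) c₁) c₀)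

def M_TWO : Prop := S_GLO → S_TWO

/-! ## 2. Cycles on polynomial rings -/

/-- L0. It is enough to treat a prime `P` of `R[X]`. Let `p = P ∩ R`. `dim p ≤ dim P ≤ dim p + 1`. (1) `dim P = n + 1`. If `dim p = n`: by the second part of `GoodAt` (S_GX) the maximal ideal of `R[X]_P` is generated by `p`, so `P = p R[X]` (a prime contained in `P`), and `[P]` is the pull-back of `[p]`: a prime `P'` of
dimension `n + 1` over `p` is also equal to `p R[X]`. If `dim p = n + 1`: let `Q = p R[X]`, of dimension `n + 2` (`trdeg` of a polynomial ring, or: `Q < P`, so `dim Q > dim P` by S_DIM1, and `≤ n + 2`). `P` corresponds to a nonzero prime of `κ(p)[X]`; let `g ∈ P` be a polynomial, not in `Q`, whose image generates it (clear denominators). Let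
`c` be the divisor of `g` on `V(Q)` (S_DVX). `c(P) = 1`: `R[X]_P / (Q + (g))` is the localisation of `κ(p)[X] / (g)` at the prime, since the elements of `R ∖ p` are invertible in `R[X]_P`, a field. If `P' ≠ P` has dimension `n + 1` and `c(P') ≠ 0` then `P' ⊇ Q + (g)` (S_LENC) and `P' ∩ R ≠ p` (otherwise `P'` in `κ(p)[X]` contains the prime
generated by `g`, so it is `P`), so `dim (P' ∩ R) ≤ n` by S_DIM1 and we are in the first case: `[P']` is a pull-back. So `[P] = c - ∑ c(P') [P']`. (2) `dim P = 0`: `dim p = 0` and as before `[P] = c`: all `P' ≠ P` with `c(P') ≠ 0` would satisfy `dim (P' ∩ R) < 0`. -/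
def S_L0 : Prop := ∀ (k R E : Type) [Field k] [CommRing R] [Algebra k R]
  [Algebra.FiniteType k R] [Field E],
  (∀ (n : ℕ) (c : RP k R[X] (n + 1) →₀ E), ∃ (v : RP k R n →₀ E) (d : RP k R[X] (n + 1) →₀ E),
    IsPull k E 1 (CC k R) v d ∧ c - d ∈ rat k R[X] E (n + 1)) ∧
  ∀ c : RP k R[X] 0 →₀ E, c ∈ rat k R[X] E 0

def M_L0 : Prop := S_DIM1 → S_LENC → S_DVX → S_GX → S_FPX → S_PLIN → S_L0

/-- L0M. Induction on `m`, using `MvPolynomial.finSuccEquiv : MvPolynomial (Fin (m + 1)) R ≃ (MvPolynomial (Fin m) R)[X]`, S_L0 for the ring `MvPolynomial (Fin m) R`, and: pull-back along `CC` preserves `rat` (S_FP with `I = ⊥`, S_GX), pull-backs compose (S_GCO), linearity (S_PLIN), isomorphisms preserve `rat` (S_PCO) and pull-back along an isomorphism is push-forward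
along the inverse (S_PLIN). For `m = 0`: `R → MvPolynomial (Fin 0) R` is an isomorphism. Second part: `j < m + 1`: if `j = 0` use S_L0 (2); if `j = j' + 1` then `c` is, modulo `rat`, the pull-back of a cycle `v` of dimension `j' < m` on `MvPolynomial (Fin m) R`, and `v ∈ rat`. -/
def S_L0M : Prop := ∀ (k R E : Type) [Field k] [CommRing R] [Algebra k R]
  [Algebra.FiniteType k R] [Field E] (m : ℕ),
  (∀ (n : ℕ) (c : RP k (MvPolynomial (Fin m) R) (n + m) →₀ E), ∃ (v : RP k R n →₀ E)
    (d : RP k (MvPolynomial (Fin m) R) (n + m) →₀ E),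
    IsPull k E m (IsScalarTower.toAlgHom k R (MvPolynomial (Fin m) R)) v d ∧
    c - d ∈ rat k (MvPolynomial (Fin m) R) E (n + m)) ∧
  ∀ j < m, ∀ c : RP k (MvPolynomial (Fin m) R) j →₀ E, c ∈ rat k (MvPolynomial (Fin m) R) E j

def M_L0M : Prop := S_GX → S_FPX → S_PLIN → S_GCO → S_FP → S_PCO → S_L0 → S_L0M

/-! ## 3. The chart at infinity -/

/-- INFA. (1) `g` lies in `infI z` iff `g (1 / X)` lies in the extension of `z` to `R[X, 1 / X]`, iff `X^M g(1 / X) ∈ z` for some `M`, and `X^N g(1 / X)` is `reflect N g` for `N ≥ natDegree g` (`R[X] → R[X, 1 / X]` is injective). (2) `1 ∈ z` after inverting `X`. (3) `infI z` is the contraction of a prime ideal (the extension of a prime not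
containing `X` to the localisation) along a ring homomorphism; `X ∉ infI z` since `1 / X` is a unit; `infI (infI z) = z` by (1): `reflect N (reflect N g) = g`, and if `X^M reflect(...) ∈ z` then remove `X^M`; (4) for constant polynomials. (5) by (1) and `s^N (g(1 / X))(s) = ...`: `(reflect N g)(s) = s^N g(s⁻¹)` for a nonzero element `s` of a field. -/
def S_INFA : Prop :=
  (∀ (R : Type) [CommRing R] (z : Ideal R[X]) (g : R[X]), g ∈ infI z ↔
    ∃ N : ℕ, g.natDegree ≤ N ∧ reflect N g ∈ z) ∧
  (∀ (R : Type) [CommRing R] (z : Ideal R[X]), X ∈ z → infI z = ⊤) ∧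
  (∀ (R : Type) [CommRing R] (z : Ideal R[X]), z.IsPrime → X ∉ z →
    (infI z).IsPrime ∧ X ∉ infI z ∧ infI (infI z) = z) ∧
  (∀ (R : Type) [CommRing R] (z : Ideal R[X]), z.IsPrime → X ∉ z →
    (infI z).comap (C : R →+* R[X]) = z.comap C) ∧
  (∀ (R K : Type) [CommRing R] [Field K] (θ : R →+* K) (s : K), s ≠ 0 →
    infI (RingHom.ker (eval₂RingHom θ s)) = RingHom.ker (eval₂RingHom θ s⁻¹))

/-- INFD. `R[X] / z` and `R[X] / infI z` have a common localisation, away from the nonzero class of `X`, compatible with `k`: so the same transcendence degree over `k` (for instance: both embed in a common field, and are generated over the image of `R` by `x` and `1 / x`; the field generated is the same; `trdeg` of a domain is the `trdeg` of its fraction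
field, `Algebra.trdeg_fractionRing_eq` or similar; use S_INFA (5) with `K` the fraction field of `R[X] / z`, `s = x`: `R[X] / z → K` and `R[X] / infI z → K`, `X ↦ x⁻¹`, are injective and `K` is algebraic over both images). -/
def S_INFD : Prop := ∀ (k R : Type) [Field k] [CommRing R] [Algebra k R]
  [Algebra.FiniteType k R] (z : Ideal R[X]) (hz : z.IsPrime) (hi : (infI z).IsPrime), X ∉ z →
  rdim k (⟨infI z, hi⟩ : PrimeSpectrum R[X]) = rdim k (⟨z, hz⟩ : PrimeSpectrum R[X])

def M_INFD : Prop := S_INFA → S_INFD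

/-- INFL. Lengths in the chart at infinity. `R[X]` localised at `z` and `R[X]` localised at `infI z` are the same ring: both are the localisation of `R[X, 1 / X]` at the prime generated by `z` (the two charts `R[X] → R[X, 1 / X]`, `X ↦ X` and `X ↦ 1 / X`). The ideal `q + (P)` and the ideal `infI q + (reflect N P)` generate the same ideal in `R[X, 1 / X]`, since
`reflect N P = X^N P(1 / X)`. A convenient way: `len` can be computed after localisation away from `X` (S_LENB for `R[X] → R[X, 1 / X]`, flat, with an isomorphism on local rings), for both charts. -/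
def S_INFL : Prop := ∀ (R : Type) [CommRing R] [IsNoetherianRing R] (q z : Ideal R[X])
  (hz : z.IsPrime) (hi : (infI z).IsPrime) (P : R[X]) (N : ℕ), q ≤ z → X ∉ z →
  P.natDegree ≤ N → len (q ⊔ Ideal.span {P}) ⟨z, hz⟩ =
    len (infI q ⊔ Ideal.span {reflect N P}) ⟨infI z, hi⟩

def M_INFL : Prop := S_LENB → S_INFA → S_INFL

/-- BETF. Functoriality of `bet`. (1) `p` prime of `R`: `infI (p R[X]) = p R[X]` by S_INFA (1), and the preimage of the ideal `p` of `R` under `evalRingHom 0` is `p R[X] + (X)`; so the number is `len p p' ` by S_LENA (`evalRingHom 0 : R[X] → R`); it is `1` if `p = p'` (a field), and `0` if `p ⊄ p'`, in particular if `p ≠ p'` and the dimensions agree (S_DIM1). (2) `infI (comap (mapX ψ) z) = comap (mapX ψ) (infI z)` by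
S_INFA (1) and surjectivity of `ψ` (`reflect` commutes with `map`), the sum with `(X)` is the preimage of the sum, then S_LENA. (3) If `ker ψ ⊄ p`, the ideal is not contained in the prime: length `0`. (4) `infI (comap (mu u) z) = comap (mu u⁻¹) (infI z)` [`g ∈ infI (comap (mu u) z)` iff `X^M g(1 / X)` with `X` replaced by `u X` is in `z`, iff `g (u⁻¹ X) ∈ infI z`], and `(X)` and the prime
`comap (evalRingHom 0) p` are stable under `mu u⁻¹`; S_LENA for the isomorphism `mu u⁻¹`. -/
def S_BETF : Prop :=
  (∀ (k R : Type) [Field k] [CommRing R] [Algebra k R] [Algebra.FiniteType k R] (n : ℕ)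
    (p p' : RP k R n), bet (p.1.asIdeal.map (C : R →+* R[X])) p'.1 = (open Classical in if p = p' then 1 else 0)) ∧
  (∀ (R S : Type) [CommRing R] [CommRing S] (ψ : R →+* S), Function.Surjective ψ →
    ∀ (z : Ideal S[X]) (p : PrimeSpectrum S),
    bet (z.comap (mapRingHom ψ)) (PrimeSpectrum.comap ψ p) = bet z p) ∧
  (∀ (R S : Type) [CommRing R] [CommRing S] (ψ : R →+* S), Function.Surjective ψ →
    ∀ (z : Ideal S[X]) (p : PrimeSpectrum R), ¬ RingHom.ker ψ ≤ p.asIdeal →
    bet (z.comap (mapRingHom ψ)) p = 0) ∧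
  (∀ (k R : Type) [Field k] [CommRing R] [Algebra k R] (u : Rˣ) (z : Ideal R[X])
    (p : PrimeSpectrum R), bet (z.comap (mu (k := k) u).toRingEquiv.toRingHom) p = bet z p)

def M_BETF : Prop := S_DIM1 → S_LENA → S_INFA → S_BETF

/-! ## 4. Specialisation of cycles -/

/-- BLIN. Linearity and uniqueness. -/
def S_BLIN : Prop := ∀ (k R E : Type) [Field k] [CommRing R] [Algebra k R] [Field E] (n : ℕ)
  (c c' : RP k R[X] (n + 1) →₀ E) (d d' : RP k R n →₀ E) (x : E), IsBeta k E c d →
  IsBeta k E c' d' → (c = c' → d = d') ∧ IsBeta k E (c + c') (d + d') ∧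
    IsBeta k E (c - c') (d - d') ∧ IsBeta k E (x • c) (x • d) ∧
    IsBeta k E (0 : RP k R[X] (n + 1) →₀ E) 0

/-- B1. Existence. If `X ∈ z` then `bet z p = 0` for all `p` (S_INFA (2)). Otherwise `infI z` is a prime of dimension `n + 1` which does not contain `X`, and `p ↦ bet z p` is the restriction of the divisor of `X` on `V(infI z)` to the primes `comap (evalRingHom 0) p`, of dimension `n` (`rdim_comap`); finitely many `p` by S_DVX. -/
def S_B1 : Prop := ∀ (k R E : Type) [Field k] [CommRing R] [Algebra k R]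
  [Algebra.FiniteType k R] [Field E] (n : ℕ) (c : RP k R[X] (n + 1) →₀ E),
  ∃ d : RP k R n →₀ E, IsBeta k E c d

def M_B1 : Prop := S_DVX → S_INFA → S_INFD → S_B1

/-- B2. The specialisation of a pull-back `d` of `c`. `d z` is `c (z ∩ R)` if `dim (z ∩ R) = n`, and then `z = (z ∩ R) R[X]` by S_GX (the maximal ideal of the localisation at `z` is generated by `z ∩ R`, and `(z ∩ R) R[X]` is a prime contained in `z`). Conversely for a prime `p` of dimension `n` the prime `p R[X]` has dimension `n + 1`. By S_BETF (1) the sum has only one nonzero term. -/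
def S_B2 : Prop := ∀ (k R E : Type) [Field k] [CommRing R] [Algebra k R]
  [Algebra.FiniteType k R] [Field E] (n : ℕ) (c : RP k R n →₀ E) (d : RP k R[X] (n + 1) →₀ E),
  IsPull k E 1 (CC k R) c d → IsBeta k E d c

def M_B2 : Prop := S_DIM1 → S_GX → S_BETF → S_B2

/-- B4. Invariance under `X ↦ u X` (S_BETF (4); the pull-back along the isomorphism `mu u` is the bijection on primes). -/
def S_B4 : Prop := ∀ (k R E : Type) [Field k] [CommRing R] [Algebra k R]
  [Algebra.FiniteType k R] [Field E] (n : ℕ) (u : Rˣ) (c d : RP k R[X] (n + 1) →₀ E)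
  (e : RP k R n →₀ E), IsPull k E 0 (muH u) c d → IsBeta k E c e →
  IsBeta k E d e

def M_B4 : Prop := S_PLIN → S_BETF → S_B4

/-- BPU. Specialisation commutes with push-forward along a closed immersion (S_BETF (2), (3)). -/
def S_BPU : Prop := ∀ (k R S E : Type) [Field k] [CommRing R] [CommRing S] [Algebra k R]
  [Algebra k S] [Algebra.FiniteType k R] [Algebra.FiniteType k S] [Field E] (n : ℕ)
  (ψ : R →ₐ[k] S) (hψ : Function.Surjective ψ) (c : RP k S[X] (n + 1) →₀ E)
  (d : RP k S n →₀ E), IsBeta k E c d →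
  IsBeta k E (push E (mapX ψ) (mapX_surjective ψ hψ) c) (push E ψ hψ d)

def M_BPU : Prop := S_BETF → S_BPU

/-- R. The main theorem on the specialisation at infinity; to be proved in block R. -/
def S_R : Prop := ∀ (k R K E : Type) [Field k] [PerfectField k] [CommRing R] [Algebra k R]
  [Algebra.FiniteType k R] [Field K] [Algebra k K] [Field E] (n : ℕ) (θ : R →ₐ[k] K),
  ∃ D : ValuationSubring K → K → K → (RP k R n →₀ E),
    (∀ (O : ValuationSubring K) (a u : K) (I : Ideal R), (∀ r ∈ I, θ r = 0 ∨ (θ r)⁻¹ ∉ O) →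
      D O a u ∈ ratOn k E n I) ∧
    (∀ (O : ValuationSubring K) (a u u' : K), u ≠ 0 → u' ≠ 0 →
      (u' / u - 1 = 0 ∨ (u' / u - 1)⁻¹ ∉ O) → D O a u = D O a u') ∧
    (∀ (s : K) (P : R[X]) (q : RP k R[X] (n + 1 + 1)) (c : RP k R[X] (n + 1) →₀ E)
      (d : RP k R n →₀ E), (∀ x : K, ∃ A B : R[X], evs θ s B ≠ 0 ∧ x * evs θ s B = evs θ s A) →
      q.1.asIdeal = RingHom.ker (evs θ s).toRingHom → P ∉ q.1.asIdeal → IsDv k E q.1 P c →
      IsBeta k E c d →
      ∃ h : (VV n θ s).Finite, d = ∑ O ∈ h.toFinset, D O (evs θ s P) s⁻¹)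

/-- B3. Specialisation preserves rational equivalence. By S_B1 and S_BLIN (span induction) it is enough to treat the divisor of `P` on `V(q)`, `q ⊇ I R[X]` a prime of dimension `n + 2`, `P ∉ q`. Let `K` be the fraction field of `R[X] / q`, `θ : R → K`, `s` the image of `X`: `evs θ s` is the canonical homomorphism (`evs_unique`), its kernel is `q`. Apply S_R: `d` is a sum of cycles `D O (..) s⁻¹`, which
are in `ratOn I` since `θ r = 0` for `r ∈ I`. -/
def S_B3 : Prop := ∀ (k R E : Type) [Field k] [PerfectField k] [CommRing R] [Algebra k R]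
  [Algebra.FiniteType k R] [Field E] (n : ℕ) (I : Ideal R) (c : RP k R[X] (n + 1) →₀ E)
  (d : RP k R n →₀ E), c ∈ ratOn k E (n + 1) (I.map (CC k R).toRingHom) → IsBeta k E c d →
  d ∈ ratOn k E n I

def M_B3 : Prop := S_B1 → S_BLIN → S_R → S_B3

/-- BINJ. Let `v, d` be as in S_L0: `c - d ∈ rat`, `d` the pull-back of `v`. `d` specialises to `v` (S_B2), so `c - d` specialises to `e - v` (S_BLIN), which is in `rat` (S_B3), so `v ∈ rat` and `d ∈ rat` (S_FP, S_GX; `I = ⊥`) and `c ∈ rat`. -/
def S_BINJ : Prop := ∀ (k R E : Type) [Field k] [PerfectField k] [CommRing R] [Algebra k R]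
  [Algebra.FiniteType k R] [Field E] (n : ℕ) (c : RP k R[X] (n + 1) →₀ E)
  (e : RP k R n →₀ E), IsBeta k E c e → e ∈ rat k R E n → c ∈ rat k R[X] E (n + 1)

def M_BINJ : Prop := S_FP → S_GX → S_L0 → S_B2 → S_B3 → S_BLIN → S_BINJ

end CUB


end

section

/-!
# CUB, block B: specialisation commutes with push-forward
-/

set_option autoImplicit false

open Polynomial

namespace CUB

namespace BPU

lemma pushP_injective {k A B : Type} [Field k] [CommRing A] [CommRing B] [Algebra k A]
    [Algebra k B] {n : ℕ} (φ : A →ₐ[k] B) (hφ : Function.Surjective φ) :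
    Function.Injective (pushP (n := n) φ hφ) := by
  intro P Q h
  apply Subtype.ext
  apply PrimeSpectrum.comap_injective_of_surjective φ.toRingHom hφ
  exact congrArg Subtype.val h

lemma exists_pushP {k A B : Type} [Field k] [CommRing A] [CommRing B] [Algebra k A]
    [Algebra k B] {n : ℕ} (φ : A →ₐ[k] B) (hφ : Function.Surjective φ) (p : RP k A n)
    (h : RingHom.ker φ.toRingHom ≤ p.1.asIdeal) : ∃ p' : RP k B n, pushP φ hφ p' = p := by
  have hs : Function.Surjective φ.toRingHom := hφ
  have hpr : (p.1.asIdeal.map φ.toRingHom).IsPrime := Ideal.map_isPrime_of_surjective hs h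
  have hc : PrimeSpectrum.comap φ.toRingHom ⟨p.1.asIdeal.map φ.toRingHom, hpr⟩ = p.1 := by
    apply PrimeSpectrum.ext
    show (p.1.asIdeal.map φ.toRingHom).comap φ.toRingHom = p.1.asIdeal
    rw [Ideal.comap_map_of_surjective _ hs]
    apply sup_eq_left.mpr
    exact h
  refine ⟨⟨⟨p.1.asIdeal.map φ.toRingHom, hpr⟩, ?_⟩, ?_⟩
  · rw [← rdim_comap φ hφ, hc]
    exact p.2
  · exact Subtype.ext hc

end BPU

theorem t_BPU : M_BPU := by
  intro hB k R S E _ _ _ _ _ _ _ _ n ψ hψ c d hcd p
  obtain ⟨_, hB2, hB3, _⟩ := hB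
  have hs : Function.Surjective ψ.toRingHom := hψ
  have h1 : (push E (mapX ψ) (mapX_surjective ψ hψ) c).sum
      (fun z e => e * (bet z.1.asIdeal p.1 : E)) =
      c.sum (fun z e => e * (bet (z.1.asIdeal.comap (mapRingHom ψ.toRingHom)) p.1 : E)) := by
    unfold push
    rw [Finsupp.lmapDomain_apply, Finsupp.sum_mapDomain_index]
    · rfl
    · intro z
      rw [zero_mul]
    · intro z e e'
      rw [add_mul]
  rw [h1]
  by_cases h : RingHom.ker ψ.toRingHom ≤ p.1.asIdeal
  · obtain ⟨p', rfl⟩ := BPU.exists_pushP ψ hψ p h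
    have h2 : push E ψ hψ d (pushP ψ hψ p') = d p' := by
      unfold push
      rw [Finsupp.lmapDomain_apply, Finsupp.mapDomain_apply (BPU.pushP_injective ψ hψ)]
    rw [h2, hcd p']
    refine Finsupp.sum_congr fun z _ => ?_
    congr 2
    exact (hB2 R S ψ.toRingHom hs z.1.asIdeal p'.1).symm
  · have h2 : push E ψ hψ d p = 0 := by
      unfold push
      rw [Finsupp.lmapDomain_apply]
      apply Finsupp.mapDomain_of_notMem_range
      rintro ⟨p', rfl⟩
      apply h
      intro x hx
      show ψ.toRingHom x ∈ p'.1.asIdeal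
      rw [RingHom.mem_ker.mp hx]
      exact Ideal.zero_mem _
    rw [h2, Finsupp.sum]
    symm
    apply Finset.sum_eq_zero
    intro z _
    rw [hB3 R S ψ.toRingHom hs z.1.asIdeal p.1 h]
    simp

end CUB


end
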