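import Mathlib

/-! Parts: Lib_helper66.GenTate.Defs, Lib_helper66.GenTate.Main, Lib_helper66.GenTate.Frob, Lib_helper66.GenTate.Ell -/

section

/-!
# Homology theories with cycle classes on the locally closed subsets of a space (MP_3af9db_ag)

Model: `X` is the underlying space of a variety over a finite field, `i` a natural number,
`K = ℚ_ℓ`, `H Y` is the group `H_{2i}(Ȳ, ℚ_ℓ(i))` of the locally closed subvariety `Y` of `X`
(reduced structure), `F` is the Frobenius, `P` is the class of the irreducible smooth affine
locally closed subvarieties of `X`.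
-/

set_option autoImplicit false

universe u v w

namespace GenTate

/-- the points of `Y` whose closure has dimension `i` (that is, the prime cycles of dimension
`i` of `Y`) -/
def pts {X : Type u} [TopologicalSpace X] (i : ℕ) (Y : Set X) : Set X :=
  {x | x ∈ Y ∧ topologicalKrullDim (closure ({x} : Set X) : Set X) = (i : WithBot ℕ∞)}

/-- The data of a homology theory with cycle classes of dimension `i` on the locally closed
subsets of `X`: groups, Frobenius, push forward from the closed subset `Y \ V`, restriction to the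
open subset `Y ∩ V` (where `V` is open in `X`), classes of prime cycles of dimension `i`. -/
structure Data (X : Type u) [TopologicalSpace X] (K : Type v) [Field K] where
  /-- the homology group of a locally closed subset -/
  H : Set X → Type w
  [grp : ∀ Y, AddCommGroup (H Y)]
  [mod : ∀ Y, Module K (H Y)]
  /-- the Frobenius -/
  F : ∀ Y, H Y →ₗ[K] H Y
  /-- push forward from a closed subset -/
  push : ∀ Y V : Set X, H (Y \ V) →ₗ[K] H Y
  /-- restriction to an open subset -/
  res : ∀ Y V : Set X, H Y →ₗ[K] H (Y ∩ V)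
  /-- the class of the closure of the point `x` in `Y` -/
  cl : ∀ Y : Set X, X → H Y

attribute [instance] Data.grp Data.mod

variable {X : Type u} [TopologicalSpace X] {K : Type v} [Field K]

/-- The cycle class map of `Y` is onto the Frobenius invariants. -/
def Data.Surj (T : Data.{u, v, w} X K) (i : ℕ) (Y : Set X) : Prop :=
  ∀ a : T.H Y, T.F Y a = a → a ∈ Submodule.span K (T.cl Y '' pts i Y)

/-- The eigenvalue `1` of Frobenius on the homology of `Y` is semisimple: `(F - 1)² a = 0` implies
`(F - 1) a = 0`. -/
def Data.Semisimple (T : Data.{u, v, w} X K) (Y : Set X) : Prop :=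
  ∀ a : T.H Y, T.F Y (T.F Y a - a) - (T.F Y a - a) = 0 → T.F Y a - a = 0

/-- The groups are finite-dimensional. -/
def Data.FiniteDim (T : Data.{u, v, w} X K) : Prop :=
  ∀ Y, IsLocallyClosed Y → FiniteDimensional K (T.H Y)

/-- Push forward commutes with Frobenius. -/
def Data.PushF (T : Data.{u, v, w} X K) : Prop :=
  ∀ Y V, IsLocallyClosed Y → IsOpen V → ∀ a, T.F Y (T.push Y V a) = T.push Y V (T.F (Y \ V) a)

/-- Restriction commutes with Frobenius. -/
def Data.ResF (T : Data.{u, v, w} X K) : Prop :=
  ∀ Y V, IsLocallyClosed Y → IsOpen V → ∀ a, T.F (Y ∩ V) (T.res Y V a) = T.res Y V (T.F Y a)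

/-- The localization sequence `H (Y \ V) → H Y → H (Y ∩ V)` is exact. -/
def Data.Exact (T : Data.{u, v, w} X K) : Prop :=
  ∀ Y V, IsLocallyClosed Y → IsOpen V → ∀ a, T.res Y V a = 0 ↔ ∃ b, T.push Y V b = a

/-- Cycle classes are Frobenius invariant. -/
def Data.ClF (T : Data.{u, v, w} X K) (i : ℕ) : Prop :=
  ∀ Y, IsLocallyClosed Y → ∀ x ∈ pts i Y, T.F Y (T.cl Y x) = T.cl Y x

/-- Cycle classes are compatible with restriction. -/
def Data.ClRes (T : Data.{u, v, w} X K) (i : ℕ) : Prop :=
  ∀ Y V, IsLocallyClosed Y → IsOpen V → ∀ x ∈ pts i (Y ∩ V),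
    T.res Y V (T.cl Y x) = T.cl (Y ∩ V) x

/-- Cycle classes are compatible with push forward. -/
def Data.ClPush (T : Data.{u, v, w} X K) (i : ℕ) : Prop :=
  ∀ Y V, IsLocallyClosed Y → IsOpen V → ∀ x ∈ pts i (Y \ V),
    T.push Y V (T.cl (Y \ V) x) = T.cl Y x

/-- In dimension at most `i` every class is fixed by a power of Frobenius and the invariants are
spanned by the cycle classes. -/
def Data.Low (T : Data.{u, v, w} X K) (i : ℕ) : Prop :=
  ∀ Y, IsLocallyClosed Y → topologicalKrullDim Y ≤ (i : WithBot ℕ∞) →
    (∀ a : T.H Y, ∃ m : ℕ, 0 < m ∧ (T.F Y ^ m) a = a) ∧ T.Surj i Y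

/-- Every nonempty locally closed subset has a nonempty open subset in the class `P`. -/
def Base (P : Set X → Prop) : Prop :=
  ∀ Y : Set X, IsLocallyClosed Y → Y.Nonempty → ∃ V, IsOpen V ∧ (Y ∩ V).Nonempty ∧ P (Y ∩ V)

/-- Members of `P` of dimension greater than `2i` have no nonzero invariant classes. -/
def Data.Affine (T : Data.{u, v, w} X K) (i : ℕ) (P : Set X → Prop) : Prop :=
  ∀ Y : Set X, IsLocallyClosed Y → P Y →
    ((2 * i : ℕ) : WithBot ℕ∞) < topologicalKrullDim Y → ∀ a : T.H Y, T.F Y a = a → a = 0

/-- The properties of the homology theory. -/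
structure Data.IsTheory (T : Data.{u, v, w} X K) (i : ℕ) (P : Set X → Prop) : Prop where
  /-- finite dimension -/
  finite : T.FiniteDim
  /-- push forward commutes with Frobenius -/
  push_F : T.PushF
  /-- restriction commutes with Frobenius -/
  res_F : T.ResF
  /-- the localization sequence is exact at `H Y` -/
  exact : T.Exact
  /-- cycle classes are Frobenius invariant -/
  cl_F : T.ClF i
  /-- cycle classes and restriction -/
  cl_res : T.ClRes i
  /-- cycle classes and push forward -/
  cl_push : T.ClPush i
  /-- dimension at most `i` -/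
  low : T.Low i
  /-- every nonempty locally closed subset has a nonempty open subset in the class `P` -/
  base : Base P
  /-- vanishing for members of `P` of dimension greater than `2i` -/
  artin : T.Affine i P

end GenTate


end

section

set_option autoImplicit false

universe u v w

namespace GenTate

open Polynomial TopologicalSpace

section LinAlg

variable {K : Type v} [Field K] {V : Type w} [AddCommGroup V] [Module K V]

/-- if `ker G² = ker G` then `G = G² q(G)` for a polynomial `q` -/
lemma exists_poly [FiniteDimensional K V] (G : Module.End K V)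
    (h : ∀ a, G (G a) = 0 → G a = 0) : ∃ q : K[X], G = G * G * aeval G q := by
  have hint : IsIntegral K G := IsIntegral.of_finite K G
  have hm : minpoly K G ≠ 0 := minpoly.ne_zero hint
  obtain ⟨q, hq, hdvd⟩ := Polynomial.exists_eq_pow_rootMultiplicity_mul_and_not_dvd
    (minpoly K G) hm 0
  rw [Polynomial.C_0, sub_zero] at hq hdvd
  set k := Polynomial.rootMultiplicity 0 (minpoly K G)
  have hcop : IsCoprime (Polynomial.X : K[X]) q :=
    (Polynomial.irreducible_X.coprime_iff_not_dvd).mpr hdvd
  obtain ⟨c, d, hcd⟩ := hcop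
  have hpow : ∀ (n : ℕ) (a : V), (G ^ (n + 1)) a = 0 → G a = 0 := by
    intro n
    induction n with
    | zero => intro a ha; simpa using ha
    | succ n ih =>
      intro a ha
      apply h
      rw [pow_succ] at ha
      exact ih (G a) ha
  have hkill : G * aeval G q = 0 := by
    ext a
    have h1 := minpoly.aeval K G
    rw [hq, map_mul, map_pow, aeval_X] at h1
    have h2 : (G ^ (k + 1)) (aeval G q a) = 0 := by
      rw [pow_succ']
      have h3 : (G ^ k * aeval G q) a = 0 := by rw [h1]; rfl
      change G ((G ^ k) (aeval G q a)) = 0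
      have h4 : (G ^ k) (aeval G q a) = 0 := h3
      rw [h4, map_zero]
    exact hpow k _ h2
  refine ⟨c, ?_⟩
  have hone : aeval G c * G + aeval G d * aeval G q = 1 := by
    have h1 := congrArg (aeval G) hcd
    rw [map_add, map_mul, map_mul, map_one, aeval_X] at h1
    exact h1
  have hcomm : Commute G (aeval G c) := by
    have h1 : Commute (aeval G (Polynomial.X : K[X])) (aeval G c) := by
      unfold Commute SemiconjBy
      rw [← map_mul, ← map_mul, mul_comm]
    rwa [aeval_X] at h1
  have hcommd : Commute G (aeval G d) := by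
    have h1 : Commute (aeval G (Polynomial.X : K[X])) (aeval G d) := by
      unfold Commute SemiconjBy
      rw [← map_mul, ← map_mul, mul_comm]
    rwa [aeval_X] at h1
  calc G = G * (aeval G c * G + aeval G d * aeval G q) := by rw [hone, mul_one]
    _ = G * (aeval G c * G) + aeval G d * (G * aeval G q) := by
        rw [mul_add, ← mul_assoc G (aeval G d), hcommd.eq, mul_assoc]
    _ = G * G * aeval G c := by
        rw [hkill, mul_zero, add_zero, ← hcomm.eq, mul_assoc]

variable {W : Type w} [AddCommGroup W] [Module K W]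

lemma aeval_comm (f : V →ₗ[K] W) (G : Module.End K V) (G' : Module.End K W)
    (h : ∀ a, f (G a) = G' (f a)) (q : K[X]) (a : V) : f (aeval G q a) = aeval G' q (f a) := by
  induction q using Polynomial.induction_on' generalizing a with
  | add p q hp hq => simp [map_add, LinearMap.add_apply, hp, hq]
  | monomial n c =>
    simp only [aeval_monomial, Module.End.mul_apply, Module.algebraMap_end_apply, map_smul]
    congr 1
    induction n generalizing a with
    | zero => simp
    | succ n ih =>
      rw [pow_succ, pow_succ, Module.End.mul_apply, Module.End.mul_apply, ih, h]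

/-- semisimplicity passes to images -/
lemma ss_image [FiniteDimensional K V] (f : V →ₗ[K] W) (G : Module.End K V) (G' : Module.End K W)
    (h : ∀ a, f (G a) = G' (f a)) (hs : ∀ a, G (G a) = 0 → G a = 0) (a : V)
    (ha : G' (G' (f a)) = 0) : G' (f a) = 0 := by
  obtain ⟨q, hq⟩ := exists_poly G hs
  have h1 : G a = aeval G q (G (G a)) := by
    have hcomm : Commute (G * G) (aeval G q) := by
      have h1 : Commute (aeval G ((Polynomial.X : K[X]) * X)) (aeval G q) := by
        unfold Commute SemiconjBy
        rw [← map_mul, ← map_mul, mul_comm]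
      rwa [map_mul, aeval_X] at h1
    calc G a = (G * G * aeval G q) a := by rw [← hq]
      _ = (aeval G q * (G * G)) a := by rw [hcomm.eq]
      _ = _ := rfl
  rw [← h, h1, aeval_comm f G G' h, h, h, ha, map_zero]

/-- invariants lift -/
lemma lift_inv [FiniteDimensional K V] (f : V →ₗ[K] W) (G : Module.End K V) (G' : Module.End K W)
    (h : ∀ a, f (G a) = G' (f a)) (hs : ∀ a, G (G a) = 0 → G a = 0) (a : V)
    (ha : G' (f a) = 0) : ∃ b, G b = 0 ∧ f b = f a := by
  obtain ⟨q, hq⟩ := exists_poly G hs
  refine ⟨a - aeval G q (G a), ?_, ?_⟩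
  · have hcomm : Commute G (aeval G q) := by
      have h1 : Commute (aeval G (Polynomial.X : K[X])) (aeval G q) := by
        unfold Commute SemiconjBy
        rw [← map_mul, ← map_mul, mul_comm]
      rwa [aeval_X] at h1
    have h1 : G (aeval G q (G a)) = (G * G * aeval G q) a := by
      have h2 : G * (aeval G q * G) = G * G * aeval G q := by
        rw [← hcomm.eq, mul_assoc]
      rw [← h2]
      rfl
    rw [map_sub, h1, ← hq, sub_self]
  · rw [map_sub, aeval_comm f G G' h, h, ha, map_zero, sub_zero]

end LinAlg

section Dim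

variable {X : Type u} [TopologicalSpace X]

lemma irr_sub (Z E : Set X) (hE : IsIrreducible E) (hEZ : E ⊆ Z) :
    IsIrreducible ((fun z : Z => (z : X)) ⁻¹' E) := by
  refine ⟨?_, ?_⟩
  · obtain ⟨x, hx⟩ := hE.1
    exact ⟨⟨x, hEZ hx⟩, hx⟩
  · rintro u v hu hv ⟨x, hxE, hxu⟩ ⟨y, hyE, hyv⟩
    obtain ⟨U, hU, rfl⟩ := isOpen_induced_iff.mp hu
    obtain ⟨V, hV, rfl⟩ := isOpen_induced_iff.mp hv
    obtain ⟨z, hzE, hzU, hzV⟩ := hE.2 U V hU hV ⟨x, hxE, hxu⟩ ⟨y, hyE, hyv⟩
    exact ⟨⟨z, hEZ hzE⟩, hzE, hzU, hzV⟩

/-- a subset of a finite union of closures of points with closures of dimension `≤ n` has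
dimension `≤ n` -/
lemma dim_le_of_subset_closure {S : Set X} (hS : S.Finite) (n : ℕ)
    (h : ∀ x ∈ S, topologicalKrullDim (closure ({x} : Set X) : Set X) ≤ (n : WithBot ℕ∞))
    (Y : Set X) (hY : Y ⊆ closure S) : topologicalKrullDim Y ≤ (n : WithBot ℕ∞) := by
  unfold topologicalKrullDim Order.krullDim
  refine iSup_le fun p => ?_
  have hmono := IrreducibleCloseds.map_strictMono_of_isInducing
    (Topology.IsInducing.subtypeVal (t := Y))
  set E : IrreducibleCloseds Y → IrreducibleCloseds X :=
    IrreducibleCloseds.map Subtype.val (Topology.IsInducing.subtypeVal (t := Y)).continuous with hE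
  have hE1 : ∀ C : IrreducibleCloseds Y, (E C : Set X) ⊆ closure S := by
    intro C
    rw [hE, IrreducibleCloseds.coe_map]
    apply closure_minimal _ isClosed_closure
    rintro _ ⟨y, -, rfl⟩
    exact hY y.2
  have hcl : closure S = ⋃₀ ((hS.toFinset.image (fun x => closure ({x} : Set X)) : Finset (Set X)) :
      Set (Set X)) := by
    have h1 : closure S = ⋃ x ∈ S, closure ({x} : Set X) := by
      rw [← hS.closure_biUnion, Set.biUnion_of_singleton]
    rw [h1]
    ext z
    simp
  obtain ⟨W, hW, hEW⟩ := isIrreducible_iff_sUnion_isClosed.mp (E p.last).isIrreducible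
    (hS.toFinset.image (fun x => closure ({x} : Set X))) (by
      intro z hz
      simp only [Finset.mem_image] at hz
      obtain ⟨x, -, rfl⟩ := hz
      exact isClosed_closure) (by
      rw [← hcl]
      exact hE1 _)
  simp only [Finset.mem_image, Set.Finite.mem_toFinset] at hW
  obtain ⟨x, hx, rfl⟩ := hW
  have hsub : ∀ k, (E (p k) : Set X) ⊆ closure {x} := by
    intro k
    refine Set.Subset.trans ?_ hEW
    have h1 : p k ≤ p.last := LTSeries.monotone p (Fin.le_last k)
    exact hmono.monotone h1
  let q : LTSeries (IrreducibleCloseds (closure ({x} : Set X) : Set X)) :=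
    { length := p.length
      toFun := fun k => ⟨(fun z : (closure ({x} : Set X) : Set X) => (z : X)) ⁻¹' (E (p k) : Set X),
        irr_sub _ _ (E (p k)).isIrreducible (hsub k),
        (E (p k)).isClosed.preimage continuous_subtype_val⟩
      step := by
        intro k
        have h1 : E (p k.castSucc) < E (p k.succ) := hmono (p.step k)
        rw [← SetLike.coe_ssubset_coe] at h1
        obtain ⟨h2, h3⟩ := h1
        change (_ : IrreducibleCloseds (closure ({x} : Set X) : Set X)) < _
        rw [← SetLike.coe_ssubset_coe]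
        refine ⟨fun z hz => h2 hz, fun h4 => h3 ?_⟩
        intro z hz
        exact h4 (a := ⟨z, hsub _ hz⟩) hz }
  have h1 : (p.length : WithBot ℕ∞) ≤
      Order.krullDim (IrreducibleCloseds (closure ({x} : Set X) : Set X)) :=
    Order.LTSeries.length_le_krullDim q
  exact h1.trans (h x hx)

/-- Noetherian induction for locally closed subsets -/
lemma noeth_induction [NoetherianSpace X] (Q : Set X → Prop)
    (h : ∀ Y, IsLocallyClosed Y →
      (∀ V, IsOpen V → (Y ∩ V).Nonempty → Q (Y \ V)) → Q Y) (Y : Set X)
    (hY : IsLocallyClosed Y) : Q Y := by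
  have hwf : WellFounded ((· < ·) : Closeds X → Closeds X → Prop) :=
    (inferInstance : WellFoundedLT (Closeds X)).wf
  have key : ∀ C : Closeds X, ∀ Y : Set X, IsLocallyClosed Y → closure Y = C → Q Y := by
    intro C
    induction C using hwf.induction with
    | _ C ih =>
      intro Y hY hC
      apply h Y hY
      intro V hV hne
      obtain ⟨O, Z, hO, hZ, rfl⟩ := hY
      refine ih ⟨closure ((O ∩ Z) \ V), isClosed_closure⟩ ?_ _ ?_ rfl
      · rw [← SetLike.coe_ssubset_coe]
        refine ⟨?_, ?_⟩
        · rw [← hC]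
          exact closure_mono Set.sdiff_subset
        · intro hsub
          obtain ⟨x, hx, hxV⟩ := hne
          have h1 : x ∈ (C : Set X) := by
            rw [← hC]
            exact subset_closure hx
          have h2 : x ∈ closure ((O ∩ Z) \ V) := hsub h1
          have h3 := mem_closure_iff.mp h2 (O ∩ V) (hO.inter hV) ⟨hx.1, hxV⟩
          obtain ⟨z, ⟨-, hzV⟩, -, hz⟩ := h3
          exact hz hzV
      · refine ⟨O, Z \ V, hO, hZ.sdiff hV, ?_⟩
        ext z
        simp only [Set.mem_sdiff, Set.mem_inter_iff]
        tauto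
  exact key ⟨closure Y, isClosed_closure⟩ Y hY rfl

end Dim

section Main

variable {X : Type u} [TopologicalSpace X] {K : Type v} [Field K] {T : Data.{u, v, w} X K}
  {i : ℕ} {P : Set X → Prop}

lemma lc_inter {Y V : Set X} (hY : IsLocallyClosed Y) (hV : IsOpen V) :
    IsLocallyClosed (Y ∩ V) := hY.inter hV.isLocallyClosed

lemma lc_diff {Y V : Set X} (hY : IsLocallyClosed Y) (hV : IsOpen V) :
    IsLocallyClosed (Y \ V) := by
  rw [Set.sdiff_eq]
  exact hY.inter hV.isClosed_compl.isLocallyClosed

namespace Data.IsTheory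

variable (hT : T.IsTheory i P)

include hT

lemma span_fixed {Y : Set X} (hY : IsLocallyClosed Y) {a : T.H Y}
    (ha : a ∈ Submodule.span K (T.cl Y '' pts i Y)) : T.F Y a = a := by
  induction ha using Submodule.span_induction with
  | mem a ha =>
    obtain ⟨x, hx, rfl⟩ := ha
    exact hT.cl_F Y hY x hx
  | zero => exact map_zero _
  | add a b _ _ ha hb => rw [map_add, ha, hb]
  | smul r a _ ha => rw [map_smul, ha]

lemma span_lift {Y V : Set X} (hY : IsLocallyClosed Y) (hV : IsOpen V) {a : T.H (Y ∩ V)}
    (ha : a ∈ Submodule.span K (T.cl (Y ∩ V) '' pts i (Y ∩ V))) :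
    ∃ b ∈ Submodule.span K (T.cl Y '' pts i Y), T.res Y V b = a := by
  induction ha using Submodule.span_induction with
  | mem a ha =>
    obtain ⟨x, hx, rfl⟩ := ha
    exact ⟨T.cl Y x, Submodule.subset_span ⟨x, ⟨hx.1.1, hx.2⟩, rfl⟩, hT.cl_res Y V hY hV x hx⟩
  | zero => exact ⟨0, Submodule.zero_mem _, map_zero _⟩
  | add a b _ _ ha hb =>
    obtain ⟨a', ha1, ha2⟩ := ha
    obtain ⟨b', hb1, hb2⟩ := hb
    exact ⟨a' + b', Submodule.add_mem _ ha1 hb1, by rw [map_add, ha2, hb2]⟩
  | smul r a _ ha =>
    obtain ⟨a', ha1, ha2⟩ := ha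
    exact ⟨r • a', Submodule.smul_mem _ _ ha1, by rw [map_smul, ha2]⟩

lemma span_push {Y V : Set X} (hY : IsLocallyClosed Y) (hV : IsOpen V) {a : T.H (Y \ V)}
    (ha : a ∈ Submodule.span K (T.cl (Y \ V) '' pts i (Y \ V))) :
    T.push Y V a ∈ Submodule.span K (T.cl Y '' pts i Y) := by
  induction ha using Submodule.span_induction with
  | mem a ha =>
    obtain ⟨x, hx, rfl⟩ := ha
    rw [hT.cl_push Y V hY hV x hx]
    exact Submodule.subset_span ⟨x, ⟨hx.1.1, hx.2⟩, rfl⟩
  | zero => rw [map_zero]; exact Submodule.zero_mem _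
  | add a b _ _ ha hb => rw [map_add]; exact Submodule.add_mem _ ha hb
  | smul r a _ ha => rw [map_smul]; exact Submodule.smul_mem _ _ ha

lemma low_ss [CharZero K] {Y : Set X} (hY : IsLocallyClosed Y)
    (hd : topologicalKrullDim Y ≤ (i : WithBot ℕ∞)) : T.Semisimple Y := by
  intro a ha
  obtain ⟨m, hm, hma⟩ := (hT.low Y hY hd).1 a
  set x := T.F Y a - a with hx
  have hFx : T.F Y x = x := sub_eq_zero.mp ha
  have h1 : ∀ n : ℕ, (T.F Y ^ n) a = a + (n : K) • x := by
    intro n
    induction n with
    | zero => simp
    | succ n ih =>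
      rw [pow_succ', Module.End.mul_apply, ih, map_add, map_smul, hFx]
      have h2 : T.F Y a = a + x := by rw [hx]; abel
      rw [h2]
      push_cast
      rw [add_smul, one_smul]
      abel
  rw [h1 m] at hma
  have h2 : (m : K) • x = 0 := by simpa using hma
  rcases smul_eq_zero.mp h2 with h3 | h3
  · exfalso
    rw [Nat.cast_eq_zero] at h3
    omega
  · exact h3

lemma surj_P (hS : ∀ U : Set X, IsLocallyClosed U → P U →
      (i : WithBot ℕ∞) < topologicalKrullDim U →
      topologicalKrullDim U ≤ ((2 * i : ℕ) : WithBot ℕ∞) → T.Surj i U)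
    {U : Set X} (hU : IsLocallyClosed U) (hP : P U) : T.Surj i U := by
  rcases le_or_gt (topologicalKrullDim U) (i : WithBot ℕ∞) with h1 | h1
  · exact (hT.low U hU h1).2
  · rcases le_or_gt (topologicalKrullDim U) ((2 * i : ℕ) : WithBot ℕ∞) with h2 | h2
    · exact hS U hU hP h1 h2
    · intro a ha
      rw [hT.artin U hU hP h2 a ha]
      exact Submodule.zero_mem _

/-- Main theorem: surjectivity for the members of `P` of dimension in `(i, 2i]` implies
surjectivity and semisimplicity for all locally closed subsets. -/
theorem main [NoetherianSpace X] [CharZero K] (hS : ∀ U : Set X, IsLocallyClosed U → P U →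
      (i : WithBot ℕ∞) < topologicalKrullDim U →
      topologicalKrullDim U ≤ ((2 * i : ℕ) : WithBot ℕ∞) → T.Surj i U) (Y : Set X)
    (hY : IsLocallyClosed Y) : T.Surj i Y ∧ T.Semisimple Y := by
  refine noeth_induction (fun Y => T.Surj i Y ∧ T.Semisimple Y) ?_ Y hY
  clear hY Y
  intro Y hY ih
  rcases le_or_gt (topologicalKrullDim Y) (i : WithBot ℕ∞) with hd | hd
  · exact ⟨(hT.low Y hY hd).2, hT.low_ss hY hd⟩
  have hlin : ∀ V, IsOpen V → ∀ a, T.push Y V ((T.F (Y \ V) - 1) a) =
      (T.F Y - 1 : Module.End K (T.H Y)) (T.push Y V a) := by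
    intro V hV a
    rw [LinearMap.sub_apply, LinearMap.sub_apply, map_sub, ← hT.push_F Y V hY hV]
    rfl
  have hss : ∀ V, T.Semisimple (Y \ V) → ∀ a : T.H (Y \ V),
      (T.F (Y \ V) - 1 : Module.End K (T.H (Y \ V)))
        ((T.F (Y \ V) - 1 : Module.End K (T.H (Y \ V))) a) = 0 →
      (T.F (Y \ V) - 1 : Module.End K (T.H (Y \ V))) a = 0 := fun V h a => h a
  have hsurj : T.Surj i Y := by
    have hne : Y.Nonempty := by
      by_contra h
      rw [Set.not_nonempty_iff_eq_empty] at h
      subst h
      have h1 : topologicalKrullDim (∅ : Set X) = ⊥ := by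
        unfold topologicalKrullDim
        rw [Order.krullDim_eq_bot_iff]
        constructor
        intro C
        obtain ⟨x, -⟩ := C.isIrreducible.nonempty
        exact x.2
      rw [h1] at hd
      exact not_lt_bot hd
    obtain ⟨V, hV, hVne, hVP⟩ := hT.base Y hY hne
    obtain ⟨ih1, ih2⟩ := ih V hV hVne
    have hfin := hT.finite (Y \ V) (lc_diff hY hV)
    intro a ha
    have h1 : T.F (Y ∩ V) (T.res Y V a) = T.res Y V a := by
      rw [hT.res_F Y V hY hV, ha]
    obtain ⟨b, hb1, hb2⟩ := hT.span_lift hY hV (hT.surj_P hS (lc_inter hY hV) hVP _ h1)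
    obtain ⟨c, hc⟩ := (hT.exact Y V hY hV (a - b)).mp (by rw [map_sub, hb2, sub_self])
    have h2 : (T.F Y - 1 : Module.End K (T.H Y)) (T.push Y V c) = 0 := by
      rw [hc, LinearMap.sub_apply, map_sub, ha, hT.span_fixed hY hb1]
      exact sub_self _
    obtain ⟨d, hd1, hd2⟩ := lift_inv (T.push Y V) (T.F (Y \ V) - 1) (T.F Y - 1) (hlin V hV)
      (hss V ih2) c h2
    have h3 : T.F (Y \ V) d = d := sub_eq_zero.mp hd1
    have h4 := hT.span_push hY hV (ih1 d h3)
    rw [hd2, hc] at h4
    have h5 : a = (a - b) + b := by abel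
    rw [h5]
    exact Submodule.add_mem _ h4 hb1
  refine ⟨hsurj, ?_⟩
  intro a ha
  set x := T.F Y a - a with hx
  have hFx : T.F Y x = x := sub_eq_zero.mp ha
  have hxs := hsurj x hFx
  rw [Finsupp.mem_span_image_iff_linearCombination] at hxs
  obtain ⟨l, hl, hlx⟩ := hxs
  have hlS : ∀ s ∈ l.support, s ∈ pts i Y := fun s hs => hl (Finset.mem_coe.mpr hs)
  set W : Set X := (closure (l.support : Set X))ᶜ with hW
  have hWo : IsOpen W := isClosed_closure.isOpen_compl
  have hne : (Y ∩ W).Nonempty := by
    by_contra h
    have h1 : Y ⊆ closure (l.support : Set X) := by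
      intro y hy
      by_contra h2
      exact h ⟨y, hy, h2⟩
    have h2 := dim_le_of_subset_closure (S := (l.support : Set X)) l.support.finite_toSet i
      (fun s hs => (hlS s hs).2.le) Y h1
    exact absurd hd (not_lt_of_ge h2)
  obtain ⟨V', hV'o, hV'ne, hV'P⟩ := hT.base (Y ∩ W) (lc_inter hY hWo) hne
  rw [Set.inter_assoc] at hV'ne hV'P
  set V : Set X := W ∩ V' with hV
  have hVo : IsOpen V := hWo.inter hV'o
  obtain ⟨ih1, ih2⟩ := ih V hVo hV'ne
  have hfin := hT.finite (Y \ V) (lc_diff hY hVo)
  have hresx : T.res Y V x = 0 := by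
    rw [← hlx, Finsupp.linearCombination_apply, Finsupp.sum, map_sum]
    apply Finset.sum_eq_zero
    intro s hs
    rw [map_smul]
    have h1 : s ∈ pts i (Y \ V) := by
      refine ⟨⟨(hlS s hs).1, fun h2 => ?_⟩, (hlS s hs).2⟩
      exact h2.1 (subset_closure (Finset.mem_coe.mpr hs))
    have h2 : T.res Y V (T.cl Y s) = 0 :=
      (hT.exact Y V hY hVo _).mpr ⟨_, hT.cl_push Y V hY hVo s h1⟩
    rw [h2, smul_zero]
  have h1 : T.F (Y ∩ V) (T.res Y V a) = T.res Y V a := by
    rw [hT.res_F Y V hY hVo]
    have h2 : T.F Y a = x + a := by rw [hx]; abel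
    rw [h2, map_add, hresx, zero_add]
  obtain ⟨b, hb1, hb2⟩ := hT.span_lift hY hVo (hT.surj_P hS (lc_inter hY hVo) hV'P _ h1)
  obtain ⟨c, hc⟩ := (hT.exact Y V hY hVo (a - b)).mp (by rw [map_sub, hb2, sub_self])
  have hFb : T.F Y b = b := hT.span_fixed hY hb1
  have h2 : (T.F Y - 1 : Module.End K (T.H Y)) (T.push Y V c) = x := by
    rw [hc, LinearMap.sub_apply, map_sub, hFb, hx]
    change T.F Y a - b - (a - b) = _
    abel
  have h3 := ss_image (T.push Y V) (T.F (Y \ V) - 1) (T.F Y - 1) (hlin V hVo) (hss V ih2) c
    (by rw [h2]; exact ha)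
  rw [h2] at h3
  exact h3

end Data.IsTheory

end Main

end GenTate


end

section

/-!
# Semisimplicity of `Ad φ` at `1` implies semisimplicity of `φ`
-/

set_option autoImplicit false

universe u v w

namespace GenTate

open Polynomial

section

variable {K : Type v} [Field K] {V : Type w} [AddCommGroup V] [Module K V]
  [FiniteDimensional K V]

/-- every functional on the endomorphisms is the trace of the product with a fixed one -/
lemma exists_trace (f : Module.Dual K (Module.End K V)) :
    ∃ z : Module.End K V, ∀ a, f a = LinearMap.trace K V (a * z) := by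
  let B : Module.End K V →ₗ[K] Module.Dual K (Module.End K V) :=
    LinearMap.mk₂ K (fun z a => LinearMap.trace K V (a * z))
      (by intro z z' a; simp [mul_add]) (by intro r z a; simp)
      (by intro z a a'; simp [add_mul]) (by intro r z a; simp)
  have hinj : Function.Injective B := by
    rw [← LinearMap.ker_eq_bot, LinearMap.ker_eq_bot']
    intro z hz
    apply LinearMap.ext
    intro x
    rw [LinearMap.zero_apply]
    rw [← Module.forall_dual_apply_eq_zero_iff K]
    intro g
    have h1 : B z (g.smulRight x) = 0 := by rw [hz]; rfl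
    have h2 : B z (g.smulRight x) = LinearMap.trace K V ((g.comp z).smulRight x) := rfl
    rw [h2, LinearMap.trace_smulRight] at h1
    exact h1
  have hsurj : Function.Surjective B := by
    have h1 : Module.finrank K (Module.End K V) =
        Module.finrank K (Module.Dual K (Module.End K V)) := (Subspace.dual_finrank_eq).symm
    exact (LinearMap.injective_iff_surjective_of_finrank_eq_finrank h1).mp hinj
  obtain ⟨z, hz⟩ := hsurj f
  exact ⟨z, fun a => by rw [← hz]; rfl⟩

/-- an endomorphism orthogonal to the commutant of `φ` is a commutator with `φ` -/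
lemma exists_commutator (φ y : Module.End K V)
    (h : ∀ z, φ * z = z * φ → LinearMap.trace K V (y * z) = 0) :
    ∃ a, φ * a - a * φ = y := by
  let L : Module.End K V →ₗ[K] Module.End K V :=
    LinearMap.mulLeft K φ - LinearMap.mulRight K φ
  have hL : ∀ a, L a = φ * a - a * φ := fun a => rfl
  by_contra hne
  have hy : y ∉ LinearMap.range L := by
    rintro ⟨a, ha⟩
    exact hne ⟨a, ha⟩
  obtain ⟨f, hf, hf0⟩ := Submodule.exists_dual_map_eq_bot_of_notMem hy inferInstance
  obtain ⟨z, hz⟩ := exists_trace f
  apply hf
  rw [hz y]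
  apply h
  have h1 : ∀ a, LinearMap.trace K V (a * (z * φ - φ * z)) = 0 := by
    intro a
    have h2 : f (L a) = 0 := by
      have h3 : f (L a) ∈ (LinearMap.range L).map f := ⟨L a, ⟨a, rfl⟩, rfl⟩
      rw [hf0] at h3
      exact h3
    rw [hz, hL, sub_mul, map_sub] at h2
    rw [mul_sub, map_sub, ← h2]
    congr 1
    rw [← mul_assoc, LinearMap.trace_mul_comm, ← mul_assoc]
  have h4 : z * φ - φ * z = 0 := by
    apply LinearMap.ext
    intro x
    rw [LinearMap.zero_apply, ← Module.forall_dual_apply_eq_zero_iff K]
    intro g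
    have h5 := h1 (g.smulRight x)
    have h6 : (g.smulRight x) * (z * φ - φ * z) = (g.comp (z * φ - φ * z)).smulRight x := rfl
    rw [h6, LinearMap.trace_smulRight] at h5
    exact h5
  exact (sub_eq_zero.mp h4).symm

/-- if the eigenvalue `1` of `a ↦ φ a φ⁻¹` is semisimple then `φ` is semisimple -/
theorem semisimple_of_ad (φ : V ≃ₗ[K] V)
    (h : ∀ a : Module.End K V,
      (φ : Module.End K V) * ((φ : Module.End K V) * a * (φ.symm : Module.End K V) - a) *
        (φ.symm : Module.End K V) - ((φ : Module.End K V) * a * (φ.symm : Module.End K V) - a) = 0 →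
      (φ : Module.End K V) * a * (φ.symm : Module.End K V) - a = 0) :
    Module.End.IsSemisimple (φ : Module.End K V) := by
  set f : Module.End K V := (φ : Module.End K V) with hf
  set g : Module.End K V := (φ.symm : Module.End K V) with hg
  have hfg : f * g = 1 := by
    apply LinearMap.ext
    intro x
    exact φ.apply_symm_apply x
  have hgf : g * f = 1 := by
    apply LinearMap.ext
    intro x
    exact φ.symm_apply_apply x
  apply Module.End.isSemisimple_of_squarefree_aeval_eq_zero (p := minpoly K f) _
    (minpoly.aeval K f)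
  intro p hp
  obtain ⟨r, hr⟩ := hp
  have hm0 : minpoly K f ≠ 0 := minpoly.ne_zero (IsIntegral.of_finite K f)
  set n : Module.End K V := aeval f (p * r) with hn
  have hcomm : ∀ z, f * z = z * f → n * z = z * n := by
    intro z hz
    have h1 : Commute z f := hz.symm
    have h2 : ∀ q : K[X], Commute z (aeval f q) := by
      intro q
      induction q using Polynomial.induction_on' with
      | add a b ha hb => rw [map_add]; exact ha.add_right hb
      | monomial k c =>
        rw [aeval_monomial]
        exact (Algebra.commute_algebraMap_right c z).mul_right (h1.pow_right k)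
    exact (h2 _).eq.symm
  have hnn : n * n = 0 := by
    rw [hn, ← map_mul]
    have h1 : p * r * (p * r) = minpoly K f * r := by
      rw [hr]
      ring
    rw [h1, map_mul, minpoly.aeval, zero_mul]
  have hnf : n * f = f * n := hcomm f rfl
  have hn0 : n = 0 := by
    obtain ⟨a, ha⟩ := exists_commutator f (n * f) (by
      intro z hz
      have h1 : n * (f * z) = f * z * n := hcomm (f * z) (by
        rw [mul_assoc, ← hz, ← mul_assoc])
      have h2 : IsNilpotent (n * f * z) := by
        refine ⟨2, ?_⟩
        rw [pow_two]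
        calc n * f * z * (n * f * z) = n * (f * z) * (n * (f * z)) := by
              simp only [mul_assoc]
          _ = n * (f * z * n) * (f * z) := by simp only [mul_assoc]
          _ = n * (n * (f * z)) * (f * z) := by rw [h1]
          _ = (n * n) * ((f * z) * (f * z)) := by simp only [mul_assoc]
          _ = 0 := by rw [hnn, zero_mul]
      exact (LinearMap.isNilpotent_trace_of_isNilpotent h2).eq_zero)
    have h3 : f * a * g - a = n := by
      calc f * a * g - a = (f * a - a * f) * g := by
            rw [sub_mul, mul_assoc a f g, hfg, mul_one]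
        _ = n * (f * g) := by rw [ha, mul_assoc]
        _ = n := by rw [hfg, mul_one]
    have h4 := h a (by
      rw [h3, ← hnf, mul_assoc, hfg, mul_one, sub_self])
    rw [← h3, h4]
  have hdvd : minpoly K f ∣ p * r := minpoly.dvd K f hn0
  have hpr : p * r ≠ 0 := by
    intro h0
    apply hm0
    rw [hr, mul_assoc, h0, mul_zero]
  rw [hr] at hdvd
  have h5 : p * (p * r) ∣ 1 * (p * r) := by
    rw [one_mul, ← mul_assoc]
    exact hdvd
  exact isUnit_of_dvd_one ((mul_dvd_mul_iff_right hpr).mp h5)

end

section

variable {X : Type u} [TopologicalSpace X] {K : Type v} [Field K] {T : Data.{u, v, w} X K}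
  {i : ℕ} {P : Set X → Prop}

/-- Semisimplicity of the whole Frobenius on a space whose endomorphisms embed in `H Y`. -/
theorem Data.IsTheory.frobenius_semisimple [TopologicalSpace.NoetherianSpace X] [CharZero K]
    (hT : T.IsTheory i P)
    (hS : ∀ U : Set X, IsLocallyClosed U → P U → (i : WithBot ℕ∞) < topologicalKrullDim U →
      topologicalKrullDim U ≤ ((2 * i : ℕ) : WithBot ℕ∞) → T.Surj i U)
    (Y : Set X) (hY : IsLocallyClosed Y)
    {V : Type w} [AddCommGroup V] [Module K V] [FiniteDimensional K V] (φ : V ≃ₗ[K] V)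
    (ι : Module.End K V →ₗ[K] T.H Y) (hι : Function.Injective ι)
    (hφ : ∀ a : Module.End K V, T.F Y (ι a) =
      ι ((φ : Module.End K V) * a * (φ.symm : Module.End K V))) :
    Module.End.IsSemisimple (φ : Module.End K V) := by
  apply semisimple_of_ad
  intro a ha
  apply hι
  rw [map_zero, map_sub, ← hφ]
  apply (hT.main hS Y hY).2
  have h1 : ι ((φ : Module.End K V) * ((φ : Module.End K V) * a * (φ.symm : Module.End K V) - a) *
        (φ.symm : Module.End K V) - ((φ : Module.End K V) * a * (φ.symm : Module.End K V) - a)) =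
        T.F Y (T.F Y (ι a) - ι a) - (T.F Y (ι a) - ι a) := by
    rw [map_sub ι, ← hφ, map_sub ι, ← hφ]
  rw [← h1, ha, map_zero]

end

end GenTate


end

section

/-!
# Realizations of the cycles of a smooth projective variety: one prime suffices
-/

set_option autoImplicit false

universe u v w v' w'

namespace GenTate

open Polynomial

/-- `IsRealization K n χ φ φ' pair cl cl'`: the `K`-spaces `V` (with Frobenius `φ`), `V'` (with
Frobenius `φ'`) in perfect equivariant duality `pair`, with invariant classes `cl`, `cl'` of the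
elements of `A` and `B`, realize the intersection numbers `n` and the characteristic polynomial
`χ`. -/
structure IsRealization (K : Type v) [Field K] [CharZero K] {A B : Type u} (n : A → B → ℚ) (χ : ℚ[X])
    {V V' : Type w} [AddCommGroup V] [Module K V] [AddCommGroup V'] [Module K V']
    [Module.Finite K V] (φ : Module.End K V) (φ' : Module.End K V') (pair : V →ₗ[K] V' →ₗ[K] K)
    (cl : A → V) (cl' : B → V') : Prop where
  /-- the duality is equivariant -/
  inv : ∀ a b, pair (φ a) (φ' b) = pair a b
  /-- no left kernel -/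
  left : ∀ a, (∀ b, pair a b = 0) → a = 0
  /-- no right kernel -/
  right : ∀ b, (∀ a, pair a b = 0) → b = 0
  /-- invariant classes -/
  cl_inv : ∀ x, φ (cl x) = cl x
  /-- invariant classes -/
  cl'_inv : ∀ y, φ' (cl' y) = cl' y
  /-- intersection numbers -/
  num : ∀ x y, pair (cl x) (cl' y) = (n x y : K)
  /-- characteristic polynomial of Frobenius -/
  char : φ.charpoly = χ.map (algebraMap ℚ K)

section

variable {K : Type v} [Field K] {V : Type w} [AddCommGroup V] [Module K V]

lemma ker_of_pow (G : Module.End K V) (h : ∀ a, G (G a) = 0 → G a = 0) (k : ℕ) (a : V)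
    (ha : (G ^ k) a = 0) : G a = 0 := by
  induction k generalizing a with
  | zero =>
    have h1 : a = 0 := by simpa using ha
    rw [h1, map_zero]
  | succ k ih =>
    rw [pow_succ] at ha
    exact h a (ih (G a) ha)

lemma mem_maxGen_iff (φ : Module.End K V)
    (h : ∀ a, φ (φ a - a) - (φ a - a) = 0 → φ a - a = 0) (a : V) :
    a ∈ φ.maxGenEigenspace 1 ↔ φ a = a := by
  rw [Module.End.mem_maxGenEigenspace]
  constructor
  · rintro ⟨k, hk⟩
    have h1 : (φ - (1 : K) • (1 : Module.End K V)) a = 0 := by
      apply ker_of_pow _ _ k a hk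
      intro b hb
      simp only [one_smul, LinearMap.sub_apply, Module.End.one_apply] at hb ⊢
      exact h b hb
    simp only [one_smul, LinearMap.sub_apply, Module.End.one_apply] at h1
    exact sub_eq_zero.mp h1
  · intro h1
    refine ⟨1, ?_⟩
    simp [h1]

/-- semisimplicity at `1` on one side: an invariant orthogonal to all invariants vanishes -/
lemma eq_zero_of_orthogonal {V' : Type w} [AddCommGroup V'] [Module K V'] [Module.Finite K V']
    (φ : Module.End K V) (φ' : Module.End K V') (pair : V →ₗ[K] V' →ₗ[K] K)
    (inv : ∀ a b, pair (φ a) (φ' b) = pair a b) (left : ∀ a, (∀ b, pair a b = 0) → a = 0)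
    (h : ∀ a, φ' (φ' a - a) - (φ' a - a) = 0 → φ' a - a = 0) (a : V) (ha : φ a = a)
    (h0 : ∀ b, φ' b = b → pair a b = 0) : a = 0 := by
  apply left
  intro b
  obtain ⟨q, hq⟩ := exists_poly (φ' - 1) (by
    intro c hc
    exact h c hc)
  -- b = (b - q(G) G b) + G (q(G) b)
  set G : Module.End K V' := φ' - 1 with hG
  have hcomm : Commute G (aeval G q) := by
    have h1 : Commute (aeval G (Polynomial.X : K[X])) (aeval G q) := by
      unfold Commute SemiconjBy
      rw [← map_mul, ← map_mul, mul_comm]
    rwa [aeval_X] at h1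
  have hker : G (b - aeval G q (G b)) = 0 := by
    have h1 : G (aeval G q (G b)) = (G * G * aeval G q) b := by
      have h2 : G * (aeval G q * G) = G * G * aeval G q := by
        rw [← hcomm.eq, mul_assoc]
      rw [← h2]
      rfl
    rw [map_sub, h1, ← hq, sub_self]
  have hrange : ∀ c, pair a (G c) = 0 := by
    intro c
    have h1 : G c = φ' c - c := rfl
    rw [h1, map_sub, sub_eq_zero]
    nth_rewrite 1 [← ha]
    exact inv a c
  have h1 : aeval G q (G b) = G (aeval G q b) := by
    have h2 := congrArg (fun f : Module.End K V' => f b) hcomm.eq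
    exact h2.symm
  have h2 : b = (b - aeval G q (G b)) + G (aeval G q b) := by
    rw [← h1]
    abel
  rw [h2, map_add, hrange, add_zero]
  apply h0
  exact sub_eq_zero.mp hker

end

section

variable {K : Type v} [Field K] [CharZero K] {A B : Type u} {n : A → B → ℚ} {χ : ℚ[X]}
    {V V' : Type w} [AddCommGroup V] [Module K V] [AddCommGroup V'] [Module K V']
    [Module.Finite K V] [Module.Finite K V'] {φ : Module.End K V} {φ' : Module.End K V'}
    {pair : V →ₗ[K] V' →ₗ[K] K} {cl : A → V} {cl' : B → V'}

/-- If the classes span the invariants on both sides and `1` is semisimple on both sides then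
there are `m = rootMultiplicity 1 χ` elements on each side with invertible Gram matrix. -/
lemma exists_gram (hR : IsRealization K n χ φ φ' pair cl cl')
    (hs : ∀ a, φ a = a → a ∈ Submodule.span K (Set.range cl))
    (hs' : ∀ a, φ' a = a → a ∈ Submodule.span K (Set.range cl'))
    (h : ∀ a, φ (φ a - a) - (φ a - a) = 0 → φ a - a = 0)
    (h' : ∀ a, φ' (φ' a - a) - (φ' a - a) = 0 → φ' a - a = 0) :
    ∃ (x : Fin (χ.rootMultiplicity 1) → A) (y : Fin (χ.rootMultiplicity 1) → B),
      (Matrix.of fun a b => n (x a) (y b)).det ≠ 0 := by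
  classical
  -- bases from the spanning sets
  have hmem : ∀ a, a ∈ Submodule.span K (Set.range cl) ↔ φ a = a := by
    intro a
    refine ⟨fun ha => ?_, hs a⟩
    induction ha using Submodule.span_induction with
    | mem a ha =>
      obtain ⟨x, rfl⟩ := ha
      exact hR.cl_inv x
    | zero => exact map_zero _
    | add a b _ _ ha hb => rw [map_add, ha, hb]
    | smul r a _ ha => rw [map_smul, ha]
  have hmem' : ∀ a, a ∈ Submodule.span K (Set.range cl') ↔ φ' a = a := by
    intro a
    refine ⟨fun ha => ?_, hs' a⟩
    induction ha using Submodule.span_induction with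
    | mem a ha =>
      obtain ⟨x, rfl⟩ := ha
      exact hR.cl'_inv x
    | zero => exact map_zero _
    | add a b _ _ ha hb => rw [map_add, ha, hb]
    | smul r a _ ha => rw [map_smul, ha]
  have hmax : φ.maxGenEigenspace 1 = Submodule.span K (Set.range cl) := by
    ext a
    rw [mem_maxGen_iff φ h, hmem]
  have hrank : Module.finrank K (Submodule.span K (Set.range cl)) = χ.rootMultiplicity 1 := by
    rw [← hmax, LinearMap.finrank_maxGenEigenspace_eq, hR.char]
    have h1 := Polynomial.eq_rootMultiplicity_map (p := χ) (f := algebraMap ℚ K)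
      (algebraMap ℚ K).injective 1
    rw [map_one] at h1
    exact h1.symm
  -- orthogonality
  have hort : ∀ a ∈ Submodule.span K (Set.range cl),
      (∀ b ∈ Submodule.span K (Set.range cl'), pair a b = 0) → a = 0 := by
    intro a ha h0
    exact eq_zero_of_orthogonal φ φ' pair hR.inv hR.left h' a ((hmem a).mp ha)
      (fun b hb => h0 b ((hmem' b).mpr hb))
  have hort' : ∀ b ∈ Submodule.span K (Set.range cl'),
      (∀ a ∈ Submodule.span K (Set.range cl), pair a b = 0) → b = 0 := by
    intro b hb h0
    exact eq_zero_of_orthogonal φ' φ pair.flip (fun b a => hR.inv a b)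
      (fun b hb => hR.right b hb) h b ((hmem' b).mp hb) (fun a ha => h0 a ((hmem a).mpr ha))
  -- equal ranks
  set S := Submodule.span K (Set.range cl) with hSdef
  set S' := Submodule.span K (Set.range cl') with hS'def
  have hrank' : Module.finrank K S' = χ.rootMultiplicity 1 := by
    rw [← hrank]
    apply le_antisymm
    · let g : S' →ₗ[K] Module.Dual K S := (Module.Dual.transpose (R := K) S.subtype).comp
        (pair.flip.comp S'.subtype)
      have hg : Function.Injective g := by
        rw [← LinearMap.ker_eq_bot, LinearMap.ker_eq_bot']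
        intro b hb
        apply Subtype.ext
        apply hort' b b.2
        intro a ha
        exact congrArg (fun f : Module.Dual K S => f ⟨a, ha⟩) hb
      have h1 := LinearMap.finrank_le_finrank_of_injective hg
      rwa [Subspace.dual_finrank_eq] at h1
    · let g : S →ₗ[K] Module.Dual K S' := (Module.Dual.transpose (R := K) S'.subtype).comp
        (pair.comp S.subtype)
      have hg : Function.Injective g := by
        rw [← LinearMap.ker_eq_bot, LinearMap.ker_eq_bot']
        intro b hb
        apply Subtype.ext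
        apply hort b b.2
        intro a ha
        exact congrArg (fun f : Module.Dual K S' => f ⟨a, ha⟩) hb
      have h1 := LinearMap.finrank_le_finrank_of_injective hg
      rwa [Subspace.dual_finrank_eq] at h1
  -- extract bases
  have key : ∀ {W : Type w} [AddCommGroup W] [Module K W] [Module.Finite K W] {C : Type u}
      (c : C → W) (m : ℕ), Module.finrank K (Submodule.span K (Set.range c)) = m →
      ∃ z : Fin m → C, LinearIndependent K (c ∘ z) ∧
        Submodule.span K (Set.range (c ∘ z)) = Submodule.span K (Set.range c) := by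
    intro W _ _ _ C c m hm
    obtain ⟨b, hb1, hb2, hb3⟩ := exists_linearIndependent K (Set.range c)
    have hfin : b.Finite := hb3.setFinite
    have : Fintype b := hfin.fintype
    have hcard : Fintype.card b = m := by
      rw [← hm, ← hb2]
      have h1 := finrank_span_eq_card (R := K) (b := (Subtype.val : b → W)) hb3
      rw [Subtype.range_coe_subtype, Set.ofPred_mem_eq] at h1
      exact h1.symm
    let e : Fin m ≃ b := (Fintype.equivFinOfCardEq hcard).symm
    choose z hz using fun k : Fin m => hb1 (e k).2
    have h2 : c ∘ z = (Subtype.val : b → W) ∘ e := by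
      funext k
      exact hz k
    refine ⟨z, ?_, ?_⟩
    · rw [h2]
      exact hb3.comp _ e.injective
    · rw [h2, Set.range_comp, e.surjective.range_eq, Set.image_univ, Subtype.range_coe_subtype,
        Set.ofPred_mem_eq, hb2]
  obtain ⟨x, hx1, hx2⟩ := key cl _ hrank
  obtain ⟨y, hy1, hy2⟩ := key cl' _ hrank'
  refine ⟨x, y, ?_⟩
  intro hdet
  have hdetK : (Matrix.of fun a b => ((n (x a) (y b) : ℚ) : K)).det = 0 := by
    have h1 := congrArg (algebraMap ℚ K) hdet
    rw [map_zero, RingHom.map_det] at h1
    rw [← h1]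
    congr 1
  obtain ⟨v, hv0, hv⟩ := Matrix.exists_vecMul_eq_zero_iff.mpr hdetK
  apply hv0
  have h1 : ∑ a, v a • cl (x a) = 0 := by
    apply hort
    · exact Submodule.sum_mem _ fun a _ => Submodule.smul_mem _ _
        (Submodule.subset_span ⟨x a, rfl⟩)
    · intro b hb
      rw [hS'def, ← hy2] at hb
      induction hb using Submodule.span_induction with
      | mem b hb =>
        obtain ⟨k, rfl⟩ := hb
        rw [map_sum, LinearMap.sum_apply]
        have h2 := congrFun hv k
        rw [Matrix.vecMul, dotProduct, Pi.zero_apply] at h2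
        rw [← h2]
        apply Finset.sum_congr rfl
        intro a _
        rw [map_smul, LinearMap.smul_apply, Function.comp_apply, hR.num]
        rfl
      | zero => exact map_zero _
      | add a b _ _ ha hb => rw [map_add, ha, hb, add_zero]
      | smul r a _ ha => rw [map_smul, ha, smul_zero]
  funext a
  exact linearIndependent_iff'.mp hx1 Finset.univ v h1 a (Finset.mem_univ a)

omit [Module.Finite K V'] in
/-- If a Gram matrix of size `m = rootMultiplicity 1 χ` is invertible then the classes span the
invariants, `1` is semisimple, and homological equals numerical equivalence. -/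
theorem of_gram (hR : IsRealization K n χ φ φ' pair cl cl')
    (x : Fin (χ.rootMultiplicity 1) → A) (y : Fin (χ.rootMultiplicity 1) → B)
    (hdet : (Matrix.of fun a b => n (x a) (y b)).det ≠ 0) :
    (∀ a, φ a = a → a ∈ Submodule.span K (Set.range cl)) ∧
    (∀ a, φ (φ a - a) - (φ a - a) = 0 → φ a - a = 0) ∧
    (∀ a ∈ Submodule.span K (Set.range cl), (∀ y, pair a (cl' y) = 0) → a = 0) ∧
    Module.finrank K (Submodule.span K (Set.range cl)) = χ.rootMultiplicity 1 := by
  classical
  have hdetK : (Matrix.of fun a b => ((n (x a) (y b) : ℚ) : K)).det ≠ 0 := by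
    intro h0
    apply hdet
    apply (algebraMap ℚ K).injective
    rw [map_zero, RingHom.map_det, ← h0]
    congr 1
  have hrow : ∀ v : Fin (χ.rootMultiplicity 1) → K,
      (∀ b, pair (∑ a, v a • cl (x a)) (cl' (y b)) = 0) → v = 0 := by
    intro v hv
    by_contra hne
    apply hdetK
    apply Matrix.exists_vecMul_eq_zero_iff.mp
    refine ⟨v, hne, ?_⟩
    funext b
    rw [Matrix.vecMul, dotProduct, Pi.zero_apply, ← hv b, map_sum, LinearMap.sum_apply]
    apply Finset.sum_congr rfl
    intro a _
    rw [map_smul, LinearMap.smul_apply, hR.num]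
    rfl
  have hli : LinearIndependent K (cl ∘ x) := by
    rw [Fintype.linearIndependent_iff]
    intro g hg
    have h1 := hrow g (by
      intro b
      have h2 : ∑ a, g a • cl (x a) = 0 := hg
      rw [h2, map_zero]
      rfl)
    intro a
    rw [h1]
    rfl
  set S := Submodule.span K (Set.range cl) with hS
  set S₀ := Submodule.span K (Set.range (cl ∘ x)) with hS₀
  set M := φ.maxGenEigenspace 1 with hM
  have h1 : S₀ ≤ S := Submodule.span_mono (by
    rintro _ ⟨k, rfl⟩
    exact ⟨x k, rfl⟩)
  have h2 : ∀ a, φ a = a → a ∈ M := by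
    intro a ha
    rw [hM, Module.End.mem_maxGenEigenspace]
    exact ⟨1, by simp [ha]⟩
  have h3 : S ≤ M := by
    rw [hS, Submodule.span_le]
    rintro _ ⟨k, rfl⟩
    exact h2 _ (hR.cl_inv k)
  have hMr : Module.finrank K M = χ.rootMultiplicity 1 := by
    rw [hM, LinearMap.finrank_maxGenEigenspace_eq, hR.char]
    have h1 := Polynomial.eq_rootMultiplicity_map (p := χ) (f := algebraMap ℚ K)
      (algebraMap ℚ K).injective 1
    rw [map_one] at h1
    exact h1.symm
  have hS₀r : Module.finrank K S₀ = χ.rootMultiplicity 1 := by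
    rw [hS₀, finrank_span_eq_card hli, Fintype.card_fin]
  have h4 : S₀ = M := Submodule.eq_of_le_of_finrank_le (h1.trans h3) (by rw [hMr, hS₀r])
  have h5 : S = M := le_antisymm h3 (h4 ▸ h1)
  have h6 : ∀ a ∈ M, φ a = a := by
    intro a ha
    rw [← h5] at ha
    induction ha using Submodule.span_induction with
    | mem a ha =>
      obtain ⟨x, rfl⟩ := ha
      exact hR.cl_inv x
    | zero => exact map_zero _
    | add a b _ _ ha hb => rw [map_add, ha, hb]
    | smul r a _ ha => rw [map_smul, ha]
  refine ⟨?_, ?_, ?_, ?_⟩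
  · intro a ha
    rw [h5]
    exact h2 a ha
  · intro a ha
    have h7 : a ∈ M := by
      rw [hM, Module.End.mem_maxGenEigenspace]
      refine ⟨2, ?_⟩
      rw [pow_two, Module.End.mul_apply]
      simp only [one_smul, LinearMap.sub_apply, Module.End.one_apply]
      exact ha
    rw [h6 a h7, sub_self]
  · intro a ha h0
    rw [h5, ← h4] at ha
    obtain ⟨v, hv⟩ := (Submodule.mem_span_range_iff_exists_fun K).mp ha
    have h7 : v = 0 := hrow v (by
      intro b
      have h8 : ∑ a, v a • cl (x a) = a := hv
      rw [h8]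
      exact h0 _)
    rw [← hv, h7]
    simp
  · rw [h5, hMr]

end

end GenTate


end
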