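import Mathlib
import Pool.Agent.QVM.C05

/-! Parts: CUB.B_PCO, CUB.StmtsC, CUB.C_CIN, CUB.C_DL1, CUB.C_MVI -/

section

/-!
# CUB, module PCO: push-forward is functorial, isomorphisms preserve rational equivalence
-/

set_option autoImplicit false

open Polynomial

namespace CUB

namespace PCO

lemma push_comp (k A B C E : Type) [Field k] [CommRing A] [CommRing B] [CommRing C] [Algebra k A]
    [Algebra k B] [Algebra k C] [Field E] (n : ℕ) (φ : A →ₐ[k] B) (χ : B →ₐ[k] C)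
    (ψ : A →ₐ[k] C) (hφ : Function.Surjective φ) (hχ : Function.Surjective χ)
    (hψ : Function.Surjective ψ) (h : ψ = χ.comp φ) (c : RP k C n →₀ E) :
    push E ψ hψ c = push E φ hφ (push E χ hχ c) := by
  subst h
  have h1 : (pushP (χ.comp φ) hψ : RP k C n → RP k A n) = pushP φ hφ ∘ pushP χ hχ := by
    funext P
    rfl
  change Finsupp.mapDomain (pushP (χ.comp φ) hψ) c =
    Finsupp.mapDomain (pushP φ hφ) (Finsupp.mapDomain (pushP χ hχ) c)
  rw [h1, Finsupp.mapDomain_comp]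

lemma push_id (k A E : Type) [Field k] [CommRing A] [Algebra k A] [Field E] (n : ℕ)
    (φ : A →ₐ[k] A) (hφ : Function.Surjective φ) (h : φ = AlgHom.id k A) (c : RP k A n →₀ E) :
    push E φ hφ c = c := by
  subst h
  have h1 : (pushP (AlgHom.id k A) hφ : RP k A n → RP k A n) = id := by
    funext P
    rfl
  change Finsupp.mapDomain (pushP (AlgHom.id k A) hφ) c = c
  rw [h1, Finsupp.mapDomain_id]

lemma push_rat (hP : S_PUSH) (k A B E : Type) [Field k] [CommRing A] [CommRing B] [Algebra k A]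
    [Algebra k B] [Field E] (n : ℕ) (e : A ≃ₐ[k] B) (c : RP k B n →₀ E) :
    push E e.toAlgHom e.surjective c ∈ rat k A E n ↔ c ∈ rat k B E n := by
  have h := (hP k A B E e.toAlgHom e.surjective n).2.1 ⊥ c
  have h2 : (⊥ : Ideal B).comap e.toAlgHom.toRingHom = ⊥ :=
    (RingHom.injective_iff_ker_eq_bot e.toAlgHom.toRingHom).mp e.injective
  rw [h2] at h
  exact h

lemma ptau_ptau (k T E : Type) [Field k] [CommRing T] [Algebra k T] [Field E] (g : T) (n : ℕ)
    (c : RP k (Q T g) n →₀ E) : ptau E g (ptau E g c) = c := by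
  have h := push_comp k (Q T g) (Q T g) (Q T g) E n (tauH g) (tauH g) (AlgHom.id k (Q T g))
    (tauH_surjective g) (tauH_surjective g) Function.surjective_id (tauHom_comp g).symm c
  have h2 := push_id k (Q T g) E n (AlgHom.id k (Q T g)) Function.surjective_id rfl c
  exact h.symm.trans h2

end PCO

theorem t_PCO : M_PCO := by
  intro hP hL
  refine ⟨fun k A B C E _ _ _ _ _ _ _ _ n φ χ ψ hφ hχ hψ h c =>
      PCO.push_comp k A B C E n φ χ ψ hφ hχ hψ h c,
    fun k A E _ _ _ _ n φ hφ h c => PCO.push_id k A E n φ hφ h c,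
    fun k A B E _ _ _ _ _ _ n e c => PCO.push_rat hP k A B E n e c, ?_⟩
  intro k T E _ _ _ _ g n c
  refine ⟨PCO.ptau_ptau k T E g n c, ?_, ?_⟩
  · exact (hL.2 k (Q T g) (Q T g) E n (tau g) c (ptau E g c)).mpr rfl
  · intro hc
    exact (PCO.push_rat hP k (Q T g) (Q T g) E n (tau g) c).mpr hc

end CUB


end

section

/-!
# CUB, block C: double covers (statements)

Module `X` proves `theorem t_X : M_X` (or `t_X : S_X` if there is no `M_X`) in the namespace `CUB`, in the file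
`Pool/Agent/CUB/C_X.lean`, importing this file.  The hypotheses of `M_X` are statements of other modules (of this file, of
`StmtsA` or of `StmtsB`).  Notation (see `Defs.lean`, `Defs3.lean`): `Q T g = T[y]/(y^2-y-g)`, `yy g` is `y`, `YY G f = Q R[X] (C G + X * C f)`,
`YYmap G f ψ : YY G f → YY (ψ G) (ψ f)`, `shv ψ hf v hv : YY G f → R'[X]` (a sheet over `f = 0`), `chi v hv : YY G f → R[X]` (a chart), `ptau` is the action of `y ↦ 1 - y` on cycles,
`VR R f = R[t_1..t_m][y]/(y^2-y-∑ t_j f_j)`, `VRmap`, `VRbase`, `sheet`.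
-/

set_option autoImplicit false

open Polynomial

namespace CUB

/-! ## 1. The two charts -/

/-- CHI. `χ = chi v hv` is `Good 0`. By S_GLI it is enough to find for every prime `P` of `R[X]` an element `b` of `Y = YY G f` with `χ b ∉ P` such that `Y[1/b] → R[X][1/χ b]` is bijective. If `f ∉ P`: `b = f` (the image of `C f`): over `R_f` the equation `y^2 - y = G + X f` can be solved for `X`: the inverse
maps `X` to `(y - v) / f`. If `f ∈ P`: `b = y - (1 - v)`, `χ b = X f + (2 v - 1) ∉ P` as `2 v - 1` is a unit; the inverse maps `X` to `X / (y - (1 - v))` [check: `v + f X / (y - 1 + v) = v + (y^2 - y - G) / (y - 1 + v) = v + (y - v) = y`, and `(X / (y - 1 + v)) (y - v + 2 v - 1) = X`]. -/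
def S_CHI : Prop := ∀ (k R : Type) [Field k] [CommRing R] [Algebra k R] [Algebra.FiniteType k R]
  (G f v : R) (hv : v ^ 2 - v = G), IsUnit (2 * v - 1) → Good k 0 (chi (k := k) (f := f) v hv)

def M_CHI : Prop := S_GLI → S_CHI

/-- CHIV. The chart and a point of `Y` outside `f = 0`. `κ : Y → K` a homomorphism to a field with `κ f ≠ 0`, `θ = κ` restricted to `R`, `s = (κ y - θ v) / θ f`. (1) `evs θ s ∘ χ = κ`: `Q_ext`; on `y`: `θ v + s θ f = κ y`; on `X`: `s (s θ f + θ (2 v - 1)) = (κ y - θ v) (κ y - 1 + θ v) / θ f = κ X`. (2) Let `P` be a prime of `R[X]` with `χ⁻¹ P = ker κ`; so `f ∉ P`. For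
`g = ∑ g_i X^i` of degree at most `N` let `g' = ∑ g_i f^(N - i) (y - v)^i ∈ Y`; since `χ (y - v) = X f` we have `χ g' = f^N g`. So `g ∈ P` iff `g' ∈ ker κ`, and the same for the prime `ker (evs θ s)` by (1). -/
def S_CHIV : Prop := ∀ (k R K : Type) [Field k] [CommRing R] [Algebra k R] [Field K]
  [Algebra k K] (G f v : R) (hv : v ^ 2 - v = G) (κ : YY G f →ₐ[k] K) (θ : R →ₐ[k] K),
  (∀ r, θ r = κ (algebraMap R[X] (YY G f) (C r))) → θ f ≠ 0 →
  (evs θ ((κ (yy (C G + X * C f)) - θ v) / θ f)).comp (chi (k := k) (f := f) v hv) = κ ∧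
  ∀ P : Ideal R[X], P.IsPrime → P.comap (chi (k := k) (f := f) v hv).toRingHom =
    RingHom.ker κ.toRingHom →
    P = RingHom.ker (evs θ ((κ (yy (C G + X * C f)) - θ v) / θ f)).toRingHom

/-- CHI2. The charts and the sheets. `ψ : R → R'` is surjective with kernel `(f)`, `u = 2 v - 1` a unit of `R`. The kernel of the sheet `shv ψ v : Y → R'[X]` is generated by `f` and `y - v`, `χ = chi v` maps it to `(f, X f) = (f)`, and `R[X] / (f) = R'[X]`; the induced homomorphism is `X ↦ X (X f + 2 v - 1) = u X` mod `f`, that is `muH` of the image of `u`.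
So S_PBC computes the pull-back of `push (shv ψ v) c₀`. The kernel of the other sheet contains `f` and `y - (1 - v)`, whose images `f`, `X f + 2 v - 1` generate the unit ideal: the pull-back of `push (shv ψ (1 - v)) c₁` is `0`: no prime of `R[X]` lies over a prime containing `f` and `y - (1 - v)`. -/
def S_CHI2 : Prop := ∀ (k R R' E : Type) [Field k] [CommRing R] [Algebra k R]
  [CommRing R'] [Algebra k R'] [Algebra.FiniteType k R] [Field E]
  (G f v : R) (hv : v ^ 2 - v = G) (u : Rˣ), (u : R) = 2 * v - 1 →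
  ∀ (ψ : R →ₐ[k] R') (hψ : Function.Surjective ψ) (hf : ψ f = 0),
  RingHom.ker ψ.toRingHom = Ideal.span {f} →
  ∀ (h0 : (ψ v) ^ 2 - ψ v = ψ G) (h1 : (1 - ψ v) ^ 2 - (1 - ψ v) = ψ G) (n : ℕ)
  (c₀ c₁ : RP k R'[X] n →₀ E),
  ∃ d : RP k R'[X] n →₀ E, IsPull k E 0 (muH (Units.map ψ.toRingHom.toMonoidHom u)) c₀ d ∧
    IsPull k E 0 (chi (k := k) (f := f) v hv)
      (push E (shv ψ hf (ψ v) h0) (shv_surjective ψ hψ hf _ h0) c₀ +
        push E (shv ψ hf (1 - ψ v) h1) (shv_surjective ψ hψ hf _ h1) c₁)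
      (push E (mapX ψ) (mapX_surjective ψ hψ) d)

def M_CHI2 : Prop := S_PBC → S_PLIN → S_CHI2

/-- DLG. The case of a generator not contained in `f = 0`. `Qp` is a prime of `Y = YY G f` of dimension `n + 2`, `f ∉ Qp`, `c` the divisor of `a` on `V(Qp)`. Let `K` be the fraction field of `Y / Qp`, `κ : Y → K`, `θ : R → K`, `s₀ = (κ y - θ v) / θ f`, `s₁ = (κ y - θ (1 - v)) / θ f = s₀ + θ (2 v - 1) / θ f`. By S_CHIV (for `v` and `1 - v`) and S_FPD (for the charts `χ_ε`, `Good 0` by S_CHI; note `2 (1 - v) - 1 = -(2 v - 1)`)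
the prime `q_ε = ker (evs θ s_ε)` is the only prime of `R[X]` over `Qp`; its dimension is `n + 2` (at most by `Good`, at least since `Y / Qp → R[X] / q_ε` is injective), and `e_ε`, the pull-back of `c`, is the divisor of `χ_ε a` on `V(q_ε)`. `evs θ s_ε (χ_ε a) = κ a ≠ 0`. Every element of `K` is a quotient of elements of `κ(Y) ⊆ evs θ s_ε (R[X])`. Take `D` from S_R (for
`θ : R → K`): `d_ε = ∑_{O ∈ VV n θ s_ε} D O (κ a) s_ε⁻¹`. Let `O ∈ VV n θ s₀` with `(θ f)⁻¹ ∈ O`. Then `w = θ (2 v - 1) / θ f ∈ O`, so `s₁ = s₀ + w ∉ O`, `O ∈ VV n θ s₁`, and `s₁⁻¹ / s₀⁻¹ - 1 = s₀ / s₁ - 1 = - w / s₁`, which lies in the maximal ideal of `O` (it is zero or its inverse is not in `O`: `s₁⁻¹` is in the maximal ideal as `s₁ ∉ O`).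
So `D O (κ a) s₀⁻¹ = D O (κ a) s₁⁻¹`. Symmetrically for `O ∈ VV n θ s₁`. So `d₀ - d₁` is a sum of terms `D O ..` with `(θ f)⁻¹ ∉ O`, which are in `ratOn (f)` by the first property of `D` (`I = (f)`; for `r = g f`: if `θ r ≠ 0` and `(θ r)⁻¹ ∈ O` then `(θ f)⁻¹ = θ g (θ r)⁻¹ ∈ O`; this uses `θ R ⊆ O`). -/
def S_DLG : Prop := ∀ (k R E : Type) [Field k] [PerfectField k] [CommRing R] [Algebra k R]
  [Algebra.FiniteType k R] [Field E] (G f v : R) (hv : v ^ 2 - v = G), IsUnit (2 * v - 1) →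
  ∀ (n : ℕ) (q : RP k (YY G f) (n + 1 + 1)) (a : YY G f) (c : RP k (YY G f) (n + 1) →₀ E)
  (e₀ e₁ : RP k R[X] (n + 1) →₀ E) (d₀ d₁ : RP k R n →₀ E),
  algebraMap R[X] (YY G f) (C f) ∉ q.1.asIdeal → a ∉ q.1.asIdeal → IsDv k E q.1 a c →
  IsPull k E 0 (chi v hv) c e₀ → IsPull k E 0 (chi (1 - v) (conj_root hv)) c e₁ →
  IsBeta k E e₀ d₀ → IsBeta k E e₁ d₁ → d₀ - d₁ ∈ ratOn k E n (Ideal.span {f})

def M_DLG : Prop := S_R → S_FPD → S_CHI → S_CHIV → S_DLG

/-- DL1. By linearity (span induction; pull-backs exist by S_FPX, specialisations by S_B1; S_PLIN, S_BLIN) we may assume that `c` is the divisor of `a` on `V(q)`. If `f ∉ q` use S_DLG. If `f ∈ q` then `c ∈ ratOn (f)`, so its pull-backs are in `ratOn ((f) R[X])` (S_FP for the charts, the image of `f` is `C f`), and the specialisations are in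
`ratOn (f)` by S_B3 with `I = (f)`. -/
def S_DL1 : Prop := ∀ (k R E : Type) [Field k] [PerfectField k] [CommRing R] [Algebra k R]
  [Algebra.FiniteType k R] [Field E] (G f v : R) (hv : v ^ 2 - v = G), IsUnit (2 * v - 1) →
  ∀ (n : ℕ) (c : RP k (YY G f) (n + 1) →₀ E)
  (e₀ e₁ : RP k R[X] (n + 1) →₀ E) (d₀ d₁ : RP k R n →₀ E), c ∈ rat k (YY G f) E (n + 1) →
  IsPull k E 0 (chi v hv) c e₀ → IsPull k E 0 (chi (1 - v) (conj_root hv)) c e₁ →
  IsBeta k E e₀ d₀ → IsBeta k E e₁ d₁ → d₀ - d₁ ∈ ratOn k E n (Ideal.span {f})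

def M_DL1 : Prop := S_FPX → S_FP → S_PLIN → S_CHI → S_B1 → S_BLIN → S_B3 → S_DLG → S_DL1

/-- DEL. `ψ : R → R'` surjective with kernel `(f)`. By S_CHI2 for `v` and for `1 - v` (with unit `- u`, and the summands exchanged) the pull-back of `c = push c₀ + push c₁` along the chart `χ_ε` is the push-forward of the pull-back of `c_ε` along `X ↦ ± u X`; its specialisation is the push-forward of `d_ε` along `R → R'`
by S_BPU and S_B4. So S_DL1 gives `push (d₀ - d₁) ∈ ratOn (f) = ratOn (ker ψ)`, and `d₀ - d₁ ∈ rat` by S_PUSH (1) with `J = ⊥`. -/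
def S_DEL : Prop := ∀ (k R R' E : Type) [Field k] [PerfectField k] [CommRing R] [Algebra k R]
  [CommRing R'] [Algebra k R'] [Algebra.FiniteType k R] [Field E] (G f v : R)
  (_ : v ^ 2 - v = G), IsUnit (2 * v - 1) → ∀ (ψ : R →ₐ[k] R') (hψ : Function.Surjective ψ)
  (hf : ψ f = 0), RingHom.ker ψ.toRingHom = Ideal.span {f} →
  ∀ (h0 : (ψ v) ^ 2 - ψ v = ψ G) (h1 : (1 - ψ v) ^ 2 - (1 - ψ v) = ψ G) (n : ℕ)
  (c₀ c₁ : RP k R'[X] (n + 1) →₀ E) (d₀ d₁ : RP k R' n →₀ E),
  push E (shv ψ hf (ψ v) h0) (shv_surjective ψ hψ hf _ h0) c₀ +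
    push E (shv ψ hf (1 - ψ v) h1) (shv_surjective ψ hψ hf _ h1) c₁ ∈
      rat k (YY G f) E (n + 1) →
  IsBeta k E c₀ d₀ → IsBeta k E c₁ d₁ → d₀ - d₁ ∈ rat k R' E n

def M_DEL : Prop := S_PUSH → S_PLIN → S_CHI2 → S_B4 → S_BPU → S_DL1 → S_DEL

/-! ## 2. Anti-invariant cycles: one equation -/

/-- WLO. `σ : S → T`, where `T` is the localisation of `Q S G` away from `2 y - 1` (via `φ`, `σ` the restriction of `φ` to `S`), `v = φ y`; `f = 0`. The homomorphism `shv σ v : Q S[X] (C G + X * C f) → T[X]`, `y ↦ v`, is the localisation away from `2 y - 1`: `Q S[X] (C G) = (Q S G)[X]`, and polynomial rings commute with localisation. (A direct verification with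
`IsLocalization.mk'` and `Q_span`, or through an isomorphism `Q S[X] (C G + X * C f) ≃ (Q S G)[X]` and the instance for polynomial rings in Mathlib, `Polynomial.isLocalization`.) -/
def S_WLO : Prop := ∀ (k S T : Type) [Field k] [CommRing S] [CommRing T] [Algebra k S]
  [Algebra k T] (G f : S) (_ : f = 0) (φ : Q S G →ₐ[k] T) (σ : S →ₐ[k] T) (v : T)
  (hv : v ^ 2 - v = σ G) (hf' : σ f = 0),
  (@IsLocalization.Away (Q S G) _ (2 * yy G - 1) T _ φ.toRingHom.toAlgebra) →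
  σ = φ.comp (Qbase G) → v = φ (yy G) →
  (@IsLocalization.Away (YY G f) _ (2 * yy (C G + X * C f) - 1) T[X] _
    (shv σ hf' v hv).toRingHom.toAlgebra)

/-- ETA. `σ : S → T` as in S_WLO, `f` arbitrary. `YYmap G f σ : YY G f → YY (σ G) (σ f)` is `Good 0` (we state this for `Qmap (mapX σ) h`, with any name `g'` for the image of `C G + X * C f`, so that equalities of types are avoided; `YYmap G f σ` is by definition such a `Qmap`): let `T' = YY G f`, `g` the image of `G` in `T'`, `φ' : Q T' g → YY (σ G) (σ f)` the homomorphism which is `YYmap G f σ` on `T'` and maps `yy g` to the image of `v`. It is the localisation away from `2 yy g - 1` (base change of `φ` along `S → T'`; `YY (σ G) (σ f) = T' ⊗_S T`, direct verification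
or `IsLocalization` of a tensor product), so S_GET applies to `φ' ∘ Qbase g = YYmap G f σ`. -/
def S_ETA : Prop := ∀ (k S T : Type) [Field k] [CommRing S] [CommRing T] [Algebra k S]
  [Algebra k T] [Algebra.FiniteType k S] [Algebra.FiniteType k T] (G f : S) (φ : Q S G →ₐ[k] T)
  (σ : S →ₐ[k] T),
  (@IsLocalization.Away (Q S G) _ (2 * yy G - 1) T _ φ.toRingHom.toAlgebra) →
  σ = φ.comp (Qbase G) → ∀ (g' : T[X]) (h : mapX σ (C G + X * C f) = g'),
    Good k 0 (Qmap (mapX σ) h)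

def M_ETA : Prop := S_GET → S_ETA

/-- ST0A. Setting: `ψ : S → S'` surjective with kernel `(f)`, `φ : Q S G → T` the localisation away from `2 y - 1`, `T' = T / f` (`ψ' : T → T'`), `φ' : Q S' (ψ G) → T'` the induced localisation away from `2 y - 1` (S_ST0A takes all these rings and maps as data), `σ, σ'` their restrictions to `S, S'`. `c` is a cycle on `D = YY (ψ G) (ψ f)` with `ptau c = - c`, and `push (YYmap G f ψ) c ∈ rat`. Let `w = shv σ' v' : D → T'[X]`, `v' = φ' y`, and `d` the pull-back of `c` along `w`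
(`Good 0`, by S_WLO, S_GLO). CLAIM: `d ∈ rat`. If `n = 0` use S_L0 (2). Let `n = j + 1`. The pull-back of `push (YYmap G f ψ) c` along `YYmap G f σ` (`Good 0`, S_ETA) is in `rat (YY (σ G) (σ f))` (S_FP), and by S_PBC (square `YYmap G f ψ`, `YYmap (σ G) (σ f) ψ'`, `YYmap G f σ`, `YYmap (ψ G) (ψ f) σ'`; kernels by S_KERQ; to avoid equalities of types use a `Qmap` with the target written as `YY (ψ' (σ G)) (ψ' (σ f))` for
`D → D' = YY (ψ' (σ G)) (ψ' (σ f))`) it is the push-forward along `YYmap (σ G) (σ f) ψ'` of the pull-back `c'` of `c` to `D'`. `D' = Q T'[X] (..)` is split with roots `C v'` and `C (1 - v')`: by S_TWO `c' = push c₀ + push c₁`, `c_ε` the pull-back of `c'` along the sheet; by S_GCO `c_ε` is the pull-back of `c` along `D → D' → T'[X]`, which is `w` for `ε = 0` and `w ∘ tau` for `ε = 1` (`Q_ext`). So `c₀ = d`, and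
`c₁` is the pull-back along `w` of the pull-back of `c` along `tau`, which is `ptau c = - c` (S_PCO (4)); `c₁ = - d`. By S_PCO (1) the push-forward to `YY (σ G) (σ f)` of `c'` is the push-forward of `c₀, c₁` along the sheets `shv ψ' v'`, `shv ψ' (1 - v')`, so S_DEL (for the ring `T`, root `v = φ y`; `2 v - 1` is a unit) gives: if `d` specialises to `e` (S_B1), `e - (- e) = 2 e ∈ rat`, so `e ∈ rat` and
`d ∈ rat` by S_BINJ. -/
def S_ST0A : Prop := ∀ (k S S' T T' E : Type) [Field k] [PerfectField k] [CommRing S]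
  [CommRing S'] [CommRing T] [CommRing T'] [Algebra k S] [Algebra k S'] [Algebra k T]
  [Algebra k T'] [Algebra.FiniteType k S] [Algebra.FiniteType k S'] [Algebra.FiniteType k T]
  [Algebra.FiniteType k T'] [Field E] [CharZero E] (G f : S) (ψ : S →ₐ[k] S')
  (hψ : Function.Surjective ψ), RingHom.ker ψ.toRingHom = Ideal.span {f} →
  ∀ (φ : Q S G →ₐ[k] T) (φ' : Q S' (ψ G) →ₐ[k] T') (ψ' : T →ₐ[k] T') (σ' : S' →ₐ[k] T') (v' : T')
    (hv' : v' ^ 2 - v' = σ' (ψ G)) (hf' : σ' (ψ f) = 0),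
  (@IsLocalization.Away (Q S G) _ (2 * yy G - 1) T _ φ.toRingHom.toAlgebra) →
  (@IsLocalization.Away (Q S' (ψ G)) _ (2 * yy (ψ G) - 1) T' _ φ'.toRingHom.toAlgebra) →
  Function.Surjective ψ' → RingHom.ker ψ'.toRingHom = Ideal.span {φ (algebraMap S (Q S G) f)} →
  (∀ x, ψ' (φ x) = φ' (Qmap ψ rfl x)) → σ' = φ'.comp (Qbase (ψ G)) → v' = φ' (yy (ψ G)) →
  ∀ (n : ℕ) (c : RP k (YY (ψ G) (ψ f)) n →₀ E) (d : RP k T'[X] n →₀ E),
  ptau E _ c = -c → push E (YYmap G f ψ) (YYmap_surjective G f ψ hψ) c ∈ rat k (YY G f) E n →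
  IsPull k E 0 (shv σ' hf' v' hv') c d → d ∈ rat k T'[X] E n

def M_ST0A : Prop := S_FP → S_FPX → S_PBC → S_PLIN → S_GCO → S_GLO → S_GET → S_PCO → S_KERQ →
  S_TWO → S_L0 → S_B1 → S_BLIN → S_BINJ → S_DEL → S_WLO → S_ETA → S_ST0A

/-- ST0B. `D = Q T g`, `B` the localisation away from `2 y - 1` (`w : D → B`), `ptau c = - c`, and the pull-back of `c` to `B` is in `rat`. By S_LOC with `I = ⊥`, `c = ρ + κ` with `ρ ∈ rat` and `κ` supported on `V(2 y - 1)`. `tau` is the identity modulo `2 y - 1` (`1 - y = y - (2 y - 1)`), so it fixes the primes containing `2 y - 1`, and `ptau κ = κ`. So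
`2 c = c - ptau c = ρ - ptau ρ ∈ rat` (S_PCO (4)). -/
def S_ST0B : Prop := ∀ (k T B E : Type) [Field k] [CommRing T] [CommRing B] [Algebra k T]
  [Algebra k B] [Algebra.FiniteType k T] [Algebra.FiniteType k B] [Field E] [CharZero E] (g : T)
  (w : Q T g →ₐ[k] B),
  (@IsLocalization.Away (Q T g) _ (2 * yy g - 1) B _ w.toRingHom.toAlgebra) →
  ∀ (n : ℕ) (c : RP k (Q T g) n →₀ E) (d : RP k B n →₀ E), ptau E g c = -c →
  IsPull k E 0 w c d → d ∈ rat k B E n → c ∈ rat k (Q T g) E n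

def M_ST0B : Prop := S_LOC → S_PCO → S_ST0B

/-- ST0. Take `T = Localization.Away (2 y - 1)` of `Q S G`, `T' ` the same for `S'`, `ψ' : T → T'` the induced map: surjective, with kernel generated by `f` (localisation of the exact sequence; S_KERQ (2)). S_ST0A and S_ST0B (with S_WLO; the pull-back `d` exists by S_FPX, S_GLO). -/
def S_ST0 : Prop := ∀ (k S S' E : Type) [Field k] [PerfectField k] [CommRing S] [CommRing S']
  [Algebra k S] [Algebra k S'] [Algebra.FiniteType k S] [Field E] [CharZero E] (G f : S)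
  (ψ : S →ₐ[k] S') (hψ : Function.Surjective ψ), RingHom.ker ψ.toRingHom = Ideal.span {f} →
  ∀ (n : ℕ) (c : RP k (YY (ψ G) (ψ f)) n →₀ E), ptau E _ c = -c →
  push E (YYmap G f ψ) (YYmap_surjective G f ψ hψ) c ∈ rat k (YY G f) E n →
  c ∈ rat k (YY (ψ G) (ψ f)) E n

def M_ST0 : Prop := S_GLO → S_FPX → S_KERQ → S_WLO → S_ST0A → S_ST0B → S_ST0

/-! ## 3. The varieties `VR R f` -/

/-- VRX. `VR R f` as a double cover of a polynomial ring in the variable `t_l` over the polynomial ring in the others. `MvPolynomial (Fin (m + 1)) R ≃ (MvPolynomial (Fin m) R)[X]`, `X l ↦ X`, `X (l.succAbove j) ↦ C (X j)` (compose `MvPolynomial.finSuccEquiv` with a permutation of the variables, or `MvPolynomial.optionEquivLeft` with an equivalence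
`Fin (m + 1) ≃ Option (Fin m)`, or define it with `aeval`, both directions), `lin f ↦ C (lin (f ∘ l.succAbove)) + X * C (C (f l))` (`Fin.sum_univ_succAbove`). Natural in `R`. -/
def S_VRX : Prop := ∀ (k R R' : Type) [Field k] [CommRing R] [CommRing R'] [Algebra k R]
  [Algebra k R'] (m : ℕ) (f : Fin (m + 1) → R) (l : Fin (m + 1)) (ψ : R →ₐ[k] R'),
  ∃ (e : VR R f ≃ₐ[k] YY (lin (fun j => f (l.succAbove j))) (MvPolynomial.C (f l)))
    (e' : VR R' (fun j => ψ (f j)) ≃ₐ[k]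
      YY ((MvPolynomial.mapAlgHom ψ) (lin (fun j => f (l.succAbove j))))
        ((MvPolynomial.mapAlgHom ψ) (MvPolynomial.C (f l)))),
    (∀ x, e (tauH (k := k) (lin f) x) = tauH (k := k) _ (e x)) ∧
    (∀ x, e' (tauH (k := k) _ x) = tauH (k := k) _ (e' x)) ∧
    ∀ x, e' (VRmap ψ f x) = YYmap _ _ (MvPolynomial.mapAlgHom ψ) (e x)

/-- STP. One equation. Transport S_ST0 (for `S = MvPolynomial (Fin m) R`, `mapAlgHom ψ`, with kernel generated by `C (f l)`, `MvPolynomial.ker_map` or similar) along the isomorphisms of S_VRX (S_PCO; write push-forward along an isomorphism, it commutes with `ptau` and the push-forwards). -/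
def S_STP : Prop := ∀ (k R R' E : Type) [Field k] [PerfectField k] [CommRing R] [CommRing R']
  [Algebra k R] [Algebra k R'] [Algebra.FiniteType k R] [Field E] [CharZero E] (m : ℕ)
  (f : Fin (m + 1) → R) (l : Fin (m + 1)) (ψ : R →ₐ[k] R') (hψ : Function.Surjective ψ),
  RingHom.ker ψ.toRingHom = Ideal.span {f l} →
  ∀ (n : ℕ) (c : RP k (VR R' (fun j => ψ (f j))) n →₀ E), ptau E _ c = -c →
  push E (VRmap ψ f) (VRmap_surjective ψ hψ f) c ∈ rat k (VR R f) E n →
  c ∈ rat k (VR R' (fun j => ψ (f j))) E n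

def M_STP : Prop := S_PCO → S_ST0 → S_VRX → S_STP

/-- CHC. Several equations. Induction on the list `L` (for all rings and `f`): `L = []`: `ψ` is an isomorphism (S_PCO). `L = l :: L'`: let `R₁ = R / (f l)`, `ψ = ψ₁ ∘ π`; `ψ₁` has kernel generated by the images of `f j`, `j ∈ L'`. `push (VRmap ψ f) c = push (VRmap π f) (push (VRmap ψ₁ _) c)` and `push (VRmap ψ₁ _) c` is anti-invariant (S_PCO), so it is in `rat` by S_STP, and the
induction hypothesis applies. -/
def S_CHC : Prop := ∀ (k E : Type) [Field k] [PerfectField k] [Field E] [CharZero E] (m : ℕ)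
  (L : List (Fin (m + 1))) (R R' : Type) [CommRing R] [CommRing R']
  [Algebra k R] [Algebra k R'] [Algebra.FiniteType k R]
  (f : Fin (m + 1) → R) (ψ : R →ₐ[k] R') (hψ : Function.Surjective ψ),
  RingHom.ker ψ.toRingHom = Ideal.span (f '' {j | j ∈ L}) →
  ∀ (n : ℕ) (c : RP k (VR R' (fun j => ψ (f j))) n →₀ E), ptau E _ c = -c →
  push E (VRmap ψ f) (VRmap_surjective ψ hψ f) c ∈ rat k (VR R f) E n →
  c ∈ rat k (VR R' (fun j => ψ (f j))) E n

def M_CHC : Prop := S_PCO → S_STP → S_CHC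

/-- SHE. The sheets of `VR R' g` for `g = 0`: S_TWO with `T = MvPolynomial (Fin m) R'`, `G = lin g = 0`, `v = 0` (`sheet ψ f h false` is `y ↦ 0`, `sheet ψ f h true` is `y ↦ 1`), and `sheet ψ f h ε = (sheet (id) (ψ ∘ f) h' ε) ∘ VRmap ψ f`. -/
def S_SHE : Prop := ∀ (k R R' E : Type) [Field k] [CommRing R] [CommRing R'] [Algebra k R]
  [Algebra k R'] [Algebra.FiniteType k R'] [Field E] (m : ℕ) (f : Fin m → R) (ψ : R →ₐ[k] R')
  (hψ : Function.Surjective ψ) (h : ∀ j, ψ (f j) = 0)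
  (h' : ∀ j, AlgHom.id k R' (ψ (f j)) = 0) (n : ℕ),
  let s₀ := sheet (AlgHom.id k R') (fun j => ψ (f j)) h' false
  let s₁ := sheet (AlgHom.id k R') (fun j => ψ (f j)) h' true
  let p₀ := push E (n := n) s₀ (sheet_surjective _ Function.surjective_id _ h' false)
  let p₁ := push E (n := n) s₁ (sheet_surjective _ Function.surjective_id _ h' true)
  Good k 0 s₀ ∧ Good k 0 s₁ ∧
  (∀ (c : RP k (VR R' (fun j => ψ (f j))) n →₀ E), ∃ c₀ c₁, c = p₀ c₀ + p₁ c₁) ∧
  (∀ c₀ c₁, IsPull k E 0 s₀ (p₀ c₀ + p₁ c₁) c₀) ∧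
  (∀ c, ptau E _ (p₀ c) = p₁ c) ∧
  (∀ c, push E (VRmap ψ f) (VRmap_surjective ψ hψ f) (p₀ c) =
    push E (sheet ψ f h false) (sheet_surjective ψ hψ f h false) c) ∧
  (∀ c, push E (VRmap ψ f) (VRmap_surjective ψ hψ f) (p₁ c) =
    push E (sheet ψ f h true) (sheet_surjective ψ hψ f h true) c)

def M_SHE : Prop := S_TWO → S_PCO → S_FPX → S_SHE

/-- MVI. Pull-back to `MvPolynomial (Fin m) R` is injective modulo `rat`: induction on `m` with `MvPolynomial.finSuccEquiv`; one variable: if `d`, the pull-back of `c`, is in `rat R[X]` then its specialisation, `c` (S_B2), is in `rat` (S_B3 with `I = ⊥`). (S_GCO: the pull-back along `R → MvPolynomial (Fin m) R → (..)[X]`.) -/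
def S_MVI : Prop := ∀ (k R E : Type) [Field k] [PerfectField k] [CommRing R] [Algebra k R]
  [Algebra.FiniteType k R] [Field E] (m n : ℕ) (c : RP k R n →₀ E)
  (d : RP k (MvPolynomial (Fin m) R) (n + m) →₀ E),
  IsPull k E m (IsScalarTower.toAlgHom k R (MvPolynomial (Fin m) R)) c d →
  d ∈ rat k (MvPolynomial (Fin m) R) E (n + m) → c ∈ rat k R E n

def M_MVI : Prop := S_GX → S_FPX → S_PLIN → S_GCO → S_PCO → S_B2 → S_B3 → S_MVI

/-- CIN. The injectivity statement on cycles. Let `c = p₀ d - p₁ d` on `VR R' 0` (notation of S_SHE; `ptau c = - c` since `ptau` exchanges them). Its push-forward to `VR R f` is in `rat`, so `c ∈ rat` by S_CHC (`L` the list of all indices), so its pull-back `d` along `s₀` is in `rat` (S_FP), so `z ∈ rat` by S_MVI. -/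
def S_CIN : Prop := ∀ (k R R' E : Type) [Field k] [PerfectField k] [CommRing R] [CommRing R']
  [Algebra k R] [Algebra k R'] [Algebra.FiniteType k R] [Field E] [CharZero E] (m n : ℕ)
  (f : Fin (m + 1) → R) (ψ : R →ₐ[k] R') (hψ : Function.Surjective ψ) (h : ∀ j, ψ (f j) = 0),
  RingHom.ker ψ.toRingHom = Ideal.span (Set.range f) →
  ∀ (z : RP k R' n →₀ E) (d : RP k (MvPolynomial (Fin (m + 1)) R') (n + (m + 1)) →₀ E),
  IsPull k E (m + 1) (IsScalarTower.toAlgHom k R' (MvPolynomial (Fin (m + 1)) R')) z d →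
  push E (sheet ψ f h false) (sheet_surjective ψ hψ f h false) d -
    push E (sheet ψ f h true) (sheet_surjective ψ hψ f h true) d ∈
      rat k (VR R f) E (n + (m + 1)) → z ∈ rat k R' E n

def M_CIN : Prop := S_FP → S_PLIN → S_CHC → S_SHE → S_MVI → S_CIN

/-! ## 4. Surjectivity on cycles -/

/-- CS1. One equation. Let `B` be the localisation of `VR R f` away from `f l`, `S = Localization.Away (f l)`; by S_VRL `B ≅ (MvPolynomial (Fin m) S)[X]`, compatibly with `R → S`. By S_L0 and S_L0M the restriction of `ζ` to `B` is, modulo `rat B`, the pull-back of a cycle `z'` on `S` (a pull-back along `S → MvPolynomial (Fin m) S → (..)[X] ≅ B`; S_GCO; the pull-back along `CC` of an element of `rat` is in `rat` by S_FP, S_GX). `z'` is the restriction of a cycle `z` on `R` (S_LOC (2)); let `y`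
be the pull-back of `z` to `VR R f` (S_GVR, S_FPX). The restriction of `ζ - y` to `B` is in `rat B` (S_GCO: `R → VR R f → B` is `R → S → B`). By S_LOC (1) (`I = ⊥`) there is `ρ ∈ rat` with `ζ - y - ρ` supported on `V(f l)`, so it is a push-forward from `VR R' _` (S_PUSH (4); the kernel of `VRmap ψ f` is generated by `f l`, S_KERQ (3)). -/
def S_CS1 : Prop := ∀ (k R R' E : Type) [Field k] [CommRing R] [CommRing R']
  [Algebra k R] [Algebra k R'] [Algebra.FiniteType k R] [Field E] (m n : ℕ)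
  (f : Fin (m + 1) → R) (l : Fin (m + 1)) (ψ : R →ₐ[k] R') (hψ : Function.Surjective ψ),
  RingHom.ker ψ.toRingHom = Ideal.span {f l} →
  ∀ ζ : RP k (VR R f) (n + (m + 1)) →₀ E, ∃ (z : RP k R n →₀ E)
    (y : RP k (VR R f) (n + (m + 1)) →₀ E)
    (ξ : RP k (VR R' (fun j => ψ (f j))) (n + (m + 1)) →₀ E),
    IsPull k E (m + 1) (VRbase f) z y ∧
    ζ - y - push E (VRmap ψ f) (VRmap_surjective ψ hψ f) ξ ∈ rat k (VR R f) E (n + (m + 1))

def M_CS1 : Prop := S_FP → S_FPX → S_PLIN → S_GCO → S_GX → S_GLO → S_GVR → S_VRL → S_LOC → S_PUSH →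
  S_PCO → S_KERQ → S_L0 → S_L0M → S_CS1

/-- CS2. Several equations: induction on `L` as in S_CHC. `ζ ≡ y + push ξ₁` with `ξ₁` on `VR R₁ _`, `R₁ = R / (f l)`, and `ξ₁ ≡ y₁ + push ξ` by induction; `y₁` is the pull-back of `z₁` on `R₁`, and `push y₁` is the pull-back to `VR R f` of the push-forward of `z₁` to `R` by S_PBC (kernels: S_KERQ (3)). `push` maps `rat` to `rat` (S_PUSH (3), S_RON). -/
def S_CS2 : Prop := ∀ (k E : Type) [Field k] [Field E] (m n : ℕ) (L : List (Fin (m + 1)))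
  (R R' : Type) [CommRing R] [CommRing R'] [Algebra k R] [Algebra k R'] [Algebra.FiniteType k R]
  (f : Fin (m + 1) → R) (ψ : R →ₐ[k] R') (hψ : Function.Surjective ψ),
  RingHom.ker ψ.toRingHom = Ideal.span (f '' {j | j ∈ L}) →
  ∀ ζ : RP k (VR R f) (n + (m + 1)) →₀ E, ∃ (z : RP k R n →₀ E)
    (y : RP k (VR R f) (n + (m + 1)) →₀ E)
    (ξ : RP k (VR R' (fun j => ψ (f j))) (n + (m + 1)) →₀ E),
    IsPull k E (m + 1) (VRbase f) z y ∧
    ζ - y - push E (VRmap ψ f) (VRmap_surjective ψ hψ f) ξ ∈ rat k (VR R f) E (n + (m + 1))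

def M_CS2 : Prop := S_PUSH → S_RON → S_PLIN → S_PBC → S_FPX → S_GVR → S_PCO → S_KERQ → S_CS1 → S_CS2

/-- CSU. The surjectivity statement on cycles. S_CS2 for the list of all indices: `y` is the pull-back of `z ∈ rat R`, so `y ∈ rat` (S_FP, S_GVR). `ξ = p₀ ξ₀ + p₁ ξ₁` (S_SHE), and `ξ_ε = d_ε + (rat)` with `d_ε` the pull-back of a cycle `z_ε` on `R'` (S_L0M). `push` preserves `rat` (S_PUSH (3), S_RON). -/
def S_CSU : Prop := ∀ (k R R' E : Type) [Field k] [CommRing R] [CommRing R']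
  [Algebra k R] [Algebra k R'] [Algebra.FiniteType k R] [Field E] (m n : ℕ)
  (f : Fin (m + 1) → R) (ψ : R →ₐ[k] R') (hψ : Function.Surjective ψ) (h : ∀ j, ψ (f j) = 0),
  RingHom.ker ψ.toRingHom = Ideal.span (Set.range f) → (∀ z : RP k R n →₀ E, z ∈ rat k R E n) →
  ∀ ζ : RP k (VR R f) (n + (m + 1)) →₀ E, ∃ (z₀ z₁ : RP k R' n →₀ E)
    (d₀ d₁ : RP k (MvPolynomial (Fin (m + 1)) R') (n + (m + 1)) →₀ E),
    IsPull k E (m + 1) (IsScalarTower.toAlgHom k R' (MvPolynomial (Fin (m + 1)) R')) z₀ d₀ ∧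
    IsPull k E (m + 1) (IsScalarTower.toAlgHom k R' (MvPolynomial (Fin (m + 1)) R')) z₁ d₁ ∧
    ζ - push E (sheet ψ f h false) (sheet_surjective ψ hψ f h false) d₀ -
      push E (sheet ψ f h true) (sheet_surjective ψ hψ f h true) d₁ ∈
        rat k (VR R f) E (n + (m + 1))

def M_CSU : Prop := S_FP → S_GVR → S_PUSH → S_RON → S_L0M → S_SHE → S_CS2 → S_CSU

/-- ZPOL. `Z_i(k[x_1, ..., x_N]) = rat` for `i < N`: S_L0M (2) for the ring `R = k`. -/
def S_ZPOL : Prop := ∀ (k E : Type) [Field k] [Field E] (N i : ℕ), i < N →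
  ∀ z : RP k (MvPolynomial (Fin N) k) i →₀ E, z ∈ rat k (MvPolynomial (Fin N) k) E i

def M_ZPOL : Prop := S_L0M → S_ZPOL

end CUB


end

section

/-!
# CIN: the injectivity statement on cycles
-/

set_option autoImplicit false

open Polynomial

namespace CUB

namespace CIN

lemma ptau_ptau {k T E : Type} [Field k] [CommRing T] [Algebra k T] [Field E] (g : T) {n : ℕ}
    (c : RP k (Q T g) n →₀ E) : ptau E g (ptau E g c) = c := by
  unfold ptau push
  rw [Finsupp.lmapDomain_apply, Finsupp.lmapDomain_apply, ← Finsupp.mapDomain_comp]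
  have h : (pushP (tauH (k := k) g) (tauH_surjective g) ∘
      pushP (tauH (k := k) g) (tauH_surjective g) : RP k (Q T g) n → RP k (Q T g) n) = id := by
    funext P
    apply Subtype.ext
    apply PrimeSpectrum.ext
    change Ideal.comap (tauH (k := k) g).toRingHom (Ideal.comap (tauH (k := k) g).toRingHom
      P.1.asIdeal) = P.1.asIdeal
    rw [Ideal.comap_comap]
    have h2 : (tauH (k := k) g).toRingHom.comp (tauH (k := k) g).toRingHom =
        RingHom.id (Q T g) := by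
      apply RingHom.ext
      intro x
      exact AlgHom.congr_fun (tauHom_comp (k := k) g) x
    rw [h2, Ideal.comap_id]
  rw [h, Finsupp.mapDomain_id]

end CIN

theorem t_CIN : M_CIN := by
  intro hFP _ hCHC hSHE hMVI k R R' E _ _ _ _ _ _ _ _ _ m n f ψ hψ h hker z d hzd hpush
  have hft : Algebra.FiniteType k R' := Algebra.FiniteType.of_surjective ψ hψ
  have h' : ∀ j, AlgHom.id k R' (ψ (f j)) = 0 := h
  obtain ⟨g0, _, _, hpull, htau, hp0, hp1⟩ := hSHE k R R' E (m + 1) f ψ hψ h h' (n + (m + 1))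
  set s₀ := sheet (AlgHom.id k R') (fun j => ψ (f j)) h' false
  set s₁ := sheet (AlgHom.id k R') (fun j => ψ (f j)) h' true
  set p₀ := push E (n := n + (m + 1)) s₀ (sheet_surjective _ Function.surjective_id _ h' false)
  set p₁ := push E (n := n + (m + 1)) s₁ (sheet_surjective _ Function.surjective_id _ h' true)
  have hc : ptau E _ (p₀ d + p₁ (-d)) = -(p₀ d + p₁ (-d)) := by
    rw [map_neg, ← htau d, map_add, map_neg, CIN.ptau_ptau]
    abel
  have hc2 : push E (VRmap ψ f) (VRmap_surjective ψ hψ f) (p₀ d + p₁ (-d)) ∈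
      rat k (VR R f) E (n + (m + 1)) := by
    rw [map_add, hp0, hp1, map_neg, ← sub_eq_add_neg]
    exact hpush
  have hset : f '' {j | j ∈ List.finRange (m + 1)} = Set.range f := by
    have : {j | j ∈ List.finRange (m + 1)} = Set.univ := by
      ext j
      simp
    rw [this, Set.image_univ]
  have hc3 : p₀ d + p₁ (-d) ∈ rat k (VR R' (fun j => ψ (f j))) E (n + (m + 1)) :=
    hCHC k E m (List.finRange (m + 1)) R R' f ψ hψ (by rw [hset]; exact hker) _ _ hc hc2
  have hpd : IsPull k E 0 s₀ (p₀ d + p₁ (-d)) d := hpull d (-d)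
  have hd : d ∈ rat k (MvPolynomial (Fin (m + 1)) R') E (n + (m + 1)) := by
    have h3 := hFP k (VR R' (fun j => ψ (f j))) (MvPolynomial (Fin (m + 1)) R') E 0
      (n + (m + 1)) s₀ g0 ⊥ _ d hpd hc3
    rw [Ideal.map_bot] at h3
    exact h3
  exact hMVI k R' E (m + 1) n z d hzd hd

end CUB


end

section

/-!
# CUB: the two specialisations of a cycle which is rationally equivalent to zero
-/

set_option autoImplicit false

open Polynomial

namespace CUB

namespace DL1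

variable {k R : Type} [Field k] [CommRing R] [Algebra k R]

lemma map_ideal (G f v : R) (hv : v ^ 2 - v = G) :
    (Ideal.span {algebraMap R[X] (YY G f) (C f)}).map (chi (k := k) v hv).toRingHom =
      (Ideal.span {f}).map (CC k R).toRingHom := by
  rw [Ideal.map_span, Ideal.map_span, Set.image_singleton, Set.image_singleton]
  have h1 : (chi (k := k) v hv).toRingHom (algebraMap R[X] (YY G f) (C f)) = C f := by
    have h2 : (chi (k := k) v hv).toRingHom (algebraMap R[X] (YY G f) (C f)) =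
        chi (k := k) v hv (algebraMap R[X] (YY G f) (C f)) := rfl
    rw [h2, chi_algebraMap, evs_C, CC_apply]
  rw [h1]
  rfl

lemma unit_conj {v : R} (h : IsUnit (2 * v - 1)) : IsUnit (2 * (1 - v) - 1) := by
  have h1 : 2 * (1 - v) - 1 = -(2 * v - 1) := by ring
  rw [h1]
  exact h.neg

/-- one chart, the case of a cycle supported on `f = 0` -/
lemma one [PerfectField k] [Algebra.FiniteType k R] {E : Type} [Field E] (hFP : S_FP)
    (hCHI : S_CHI) (hB3 : S_B3) (G f v : R) (hv : v ^ 2 - v = G) (hu : IsUnit (2 * v - 1))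
    (n : ℕ) (c : RP k (YY G f) (n + 1) →₀ E) (e : RP k R[X] (n + 1) →₀ E) (d : RP k R n →₀ E)
    (hc : c ∈ ratOn k E (n + 1) (Ideal.span {algebraMap R[X] (YY G f) (C f)}))
    (he : IsPull k E 0 (chi v hv) c e) (hd : IsBeta k E e d) :
    d ∈ ratOn k E n (Ideal.span {f}) := by
  have hg : Good k 0 (chi (k := k) (f := f) v hv) := hCHI k R G f v hv hu
  have h1 := hFP k (YY G f) R[X] E 0 (n + 1) (chi v hv) hg _ c e he hc
  rw [map_ideal] at h1
  exact hB3 k R E n (Ideal.span {f}) e d h1 hd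

end DL1

theorem t_DL1 : M_DL1 := by
  intro hFPX hFP hPL hCHI hB1 hBL hB3 hDLG
  intro k R E _ _ _ _ _ _ G f v hv hu n c
  have hu' := DL1.unit_conj hu
  have hg0 : Good k 0 (chi (k := k) (f := f) v hv) := hCHI k R G f v hv hu
  have hg1 : Good k 0 (chi (k := k) (f := f) (1 - v) (conj_root hv)) :=
    hCHI k R G f (1 - v) (conj_root hv) hu'
  suffices H : c ∈ rat k (YY G f) E (n + 1) → ∀ (e₀ e₁ : RP k R[X] (n + 1) →₀ E)
      (d₀ d₁ : RP k R n →₀ E), IsPull k E 0 (chi v hv) c e₀ →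
      IsPull k E 0 (chi (1 - v) (conj_root hv)) c e₁ → IsBeta k E e₀ d₀ → IsBeta k E e₁ d₁ →
      d₀ - d₁ ∈ ratOn k E n (Ideal.span {f}) by
    intro e₀ e₁ d₀ d₁ hc
    exact H hc e₀ e₁ d₀ d₁
  intro hc
  refine Submodule.span_induction (p := fun c _ => ∀ (e₀ e₁ : RP k R[X] (n + 1) →₀ E)
      (d₀ d₁ : RP k R n →₀ E), IsPull k E 0 (chi v hv) c e₀ →
      IsPull k E 0 (chi (1 - v) (conj_root hv)) c e₁ → IsBeta k E e₀ d₀ → IsBeta k E e₁ d₁ →
      d₀ - d₁ ∈ ratOn k E n (Ideal.span {f})) ?_ ?_ ?_ ?_ hc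
  · rintro c ⟨q, a, -, ha, hdv⟩ e₀ e₁ d₀ d₁ h0 h1 hb0 hb1
    by_cases hf : algebraMap R[X] (YY G f) (C f) ∈ q.1.asIdeal
    · have hc' : c ∈ ratOn k E (n + 1) (Ideal.span {algebraMap R[X] (YY G f) (C f)}) := by
        refine Submodule.subset_span ⟨q, a, ?_, ha, hdv⟩
        rw [Ideal.span_singleton_le_iff_mem]
        exact hf
      exact Submodule.sub_mem _ (DL1.one hFP hCHI hB3 G f v hv hu n c e₀ d₀ hc' h0 hb0)
        (DL1.one hFP hCHI hB3 G f (1 - v) (conj_root hv) hu' n c e₁ d₁ hc' h1 hb1)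
    · exact hDLG k R E G f v hv hu n q a c e₀ e₁ d₀ d₁ hf ha hdv h0 h1 hb0 hb1
  · intro e₀ e₁ d₀ d₁ h0 h1 hb0 hb1
    have z0 : e₀ = 0 := (hPL.1 k _ _ E 0 (n + 1) (chi v hv) 0 0 e₀ 0 0 h0
      (hPL.1 k _ _ E 0 (n + 1) (chi v hv) 0 0 e₀ e₀ 0 h0 h0).2.2.2.2).1 rfl
    have z1 : e₁ = 0 := (hPL.1 k _ _ E 0 (n + 1) (chi (1 - v) (conj_root hv)) 0 0 e₁ 0 0 h1
      (hPL.1 k _ _ E 0 (n + 1) (chi (1 - v) (conj_root hv)) 0 0 e₁ e₁ 0 h1 h1).2.2.2.2).1 rfl
    have hz : IsBeta k E (0 : RP k R[X] (n + 1) →₀ E) (0 : RP k R n →₀ E) :=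
      (hBL k R E n e₀ e₀ d₀ d₀ 0 hb0 hb0).2.2.2.2
    have w0 : d₀ = 0 := (hBL k R E n e₀ 0 d₀ 0 0 hb0 hz).1 z0
    have w1 : d₁ = 0 := (hBL k R E n e₁ 0 d₁ 0 0 hb1 hz).1 z1
    rw [w0, w1, sub_zero]
    exact Submodule.zero_mem _
  · intro x y _ _ hx hy e₀ e₁ d₀ d₁ h0 h1 hb0 hb1
    obtain ⟨x0, hx0⟩ := hFPX k (YY G f) R[X] E 0 (n + 1) (chi v hv) hg0 x
    obtain ⟨y0, hy0⟩ := hFPX k (YY G f) R[X] E 0 (n + 1) (chi v hv) hg0 y
    obtain ⟨x1, hx1⟩ := hFPX k (YY G f) R[X] E 0 (n + 1) (chi (1 - v) (conj_root hv)) hg1 x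
    obtain ⟨y1, hy1⟩ := hFPX k (YY G f) R[X] E 0 (n + 1) (chi (1 - v) (conj_root hv)) hg1 y
    obtain ⟨a0, ha0⟩ := hB1 k R E n x0
    obtain ⟨b0, hb0'⟩ := hB1 k R E n y0
    obtain ⟨a1, ha1⟩ := hB1 k R E n x1
    obtain ⟨b1, hb1'⟩ := hB1 k R E n y1
    have s0 := (hPL.1 k _ _ E 0 (n + 1) (chi v hv) x y x0 y0 0 hx0 hy0).2.1
    have s1 := (hPL.1 k _ _ E 0 (n + 1) (chi (1 - v) (conj_root hv)) x y x1 y1 0 hx1 hy1).2.1
    have t0 : e₀ = x0 + y0 := (hPL.1 k _ _ E 0 (n + 1) (chi v hv) (x + y) (x + y) e₀ _ 0 h0 s0).1 rfl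
    have t1 : e₁ = x1 + y1 := (hPL.1 k _ _ E 0 (n + 1) (chi (1 - v) (conj_root hv)) (x + y)
      (x + y) e₁ _ 0 h1 s1).1 rfl
    have u0 := (hBL k R E n x0 y0 a0 b0 0 ha0 hb0').2.1
    have u1 := (hBL k R E n x1 y1 a1 b1 0 ha1 hb1').2.1
    have w0 : d₀ = a0 + b0 := (hBL k R E n e₀ _ d₀ _ 0 hb0 u0).1 t0
    have w1 : d₁ = a1 + b1 := (hBL k R E n e₁ _ d₁ _ 0 hb1 u1).1 t1
    have h2 := Submodule.add_mem _ (hx x0 x1 a0 a1 hx0 hx1 ha0 ha1)
      (hy y0 y1 b0 b1 hy0 hy1 hb0' hb1')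
    have h3 : d₀ - d₁ = (a0 - a1) + (b0 - b1) := by
      rw [w0, w1]
      abel
    rw [h3]
    exact h2
  · intro r x _ hx e₀ e₁ d₀ d₁ h0 h1 hb0 hb1
    obtain ⟨x0, hx0⟩ := hFPX k (YY G f) R[X] E 0 (n + 1) (chi v hv) hg0 x
    obtain ⟨x1, hx1⟩ := hFPX k (YY G f) R[X] E 0 (n + 1) (chi (1 - v) (conj_root hv)) hg1 x
    obtain ⟨a0, ha0⟩ := hB1 k R E n x0
    obtain ⟨a1, ha1⟩ := hB1 k R E n x1
    have s0 := (hPL.1 k _ _ E 0 (n + 1) (chi v hv) x x x0 x0 r hx0 hx0).2.2.2.1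
    have s1 := (hPL.1 k _ _ E 0 (n + 1) (chi (1 - v) (conj_root hv)) x x x1 x1 r hx1 hx1).2.2.2.1
    have t0 : e₀ = r • x0 := (hPL.1 k _ _ E 0 (n + 1) (chi v hv) (r • x) (r • x) e₀ _ 0 h0 s0).1 rfl
    have t1 : e₁ = r • x1 := (hPL.1 k _ _ E 0 (n + 1) (chi (1 - v) (conj_root hv)) (r • x)
      (r • x) e₁ _ 0 h1 s1).1 rfl
    have u0 := (hBL k R E n x0 x0 a0 a0 r ha0 ha0).2.2.2.1
    have u1 := (hBL k R E n x1 x1 a1 a1 r ha1 ha1).2.2.2.1
    have w0 : d₀ = r • a0 := (hBL k R E n e₀ _ d₀ _ 0 hb0 u0).1 t0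
    have w1 : d₁ = r • a1 := (hBL k R E n e₁ _ d₁ _ 0 hb1 u1).1 t1
    have h2 := Submodule.smul_mem _ r (hx x0 x1 a0 a1 hx0 hx1 ha0 ha1)
    rw [w0, w1, ← smul_sub]
    exact h2

end CUB


end

section

/-!
# CUB: pull-back to polynomial rings is injective modulo rational equivalence
-/

set_option autoImplicit false

open Polynomial

namespace CUB

namespace MVI

variable {k R : Type} [Field k] [CommRing R] [Algebra k R]

lemma finiteType_mv [Algebra.FiniteType k R] (m : ℕ) :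
    Algebra.FiniteType k (MvPolynomial (Fin m) R) :=
  Algebra.FiniteType.trans (S := R) inferInstance inferInstance

variable (k R) in
/-- `MvPolynomial (Fin 0) R` is `R` -/
noncomputable def e0 : R ≃ₐ[k] MvPolynomial (Fin 0) R :=
  AlgEquiv.restrictScalars k (MvPolynomial.isEmptyAlgEquiv R (Fin 0)).symm

variable (k R) in
/-- `MvPolynomial (Fin (m + 1)) R` is `(MvPolynomial (Fin m) R)[X]` -/
noncomputable def e1 (m : ℕ) : (MvPolynomial (Fin m) R)[X] ≃ₐ[k] MvPolynomial (Fin (m + 1)) R :=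
  AlgEquiv.restrictScalars k (MvPolynomial.finSuccEquiv R m).symm

lemma e0_eq : ((e0 k R : R ≃ₐ[k] MvPolynomial (Fin 0) R) : R →ₐ[k] MvPolynomial (Fin 0) R) =
    IsScalarTower.toAlgHom k R (MvPolynomial (Fin 0) R) := by
  ext r
  rfl

lemma e1_eq (m : ℕ) : ((e1 k R m : (MvPolynomial (Fin m) R)[X] ≃ₐ[k]
      MvPolynomial (Fin (m + 1)) R) : (MvPolynomial (Fin m) R)[X] →ₐ[k]
      MvPolynomial (Fin (m + 1)) R).comp ((CC k (MvPolynomial (Fin m) R)).comp
      (IsScalarTower.toAlgHom k R (MvPolynomial (Fin m) R))) =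
    IsScalarTower.toAlgHom k R (MvPolynomial (Fin (m + 1)) R) := by
  refine AlgHom.ext fun r => ?_
  change (MvPolynomial.finSuccEquiv R m).symm (C (algebraMap R (MvPolynomial (Fin m) R) r)) =
    algebraMap R (MvPolynomial (Fin (m + 1)) R) r
  exact (MvPolynomial.finSuccEquiv R m).symm.commutes r

end MVI

open _root_.CUB.MVI in
theorem t_MVI : M_MVI := by
  intro hGX hFPX hPL hGCO hPCO hB2 hB3 k R E _ _ _ _ _ _ m n
  induction m with
  | zero =>
    intro c d hd hrat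
    rw [← e0_eq] at hd
    have h1 := (hPL.2 k R (MvPolynomial (Fin 0) R) E n (e0 k R) c d).1 hd
    have h2 := hPCO.2.2.1 k (MvPolynomial (Fin 0) R) R E n (e0 k R).symm c
    apply h2.1
    have h3 : push E ((e0 k R).symm.toAlgHom) (e0 k R).symm.surjective c = d := h1
    rw [h3]
    exact hrat
  | succ m ih =>
    intro c d hd hrat
    have i1 : Algebra.FiniteType k (MvPolynomial (Fin m) R) := finiteType_mv m
    have i2 : Algebra.FiniteType k (MvPolynomial (Fin (m + 1)) R) := finiteType_mv (m + 1)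
    have i3 : Algebra.FiniteType k (MvPolynomial (Fin m) R)[X] :=
      Algebra.FiniteType.trans (S := MvPolynomial (Fin m) R) inferInstance inferInstance
    have g1 : Good k m (IsScalarTower.toAlgHom k R (MvPolynomial (Fin m) R)) := hGX.2 k R m
    have g2 : Good k 1 (CC k (MvPolynomial (Fin m) R)) := hGX.1 k (MvPolynomial (Fin m) R)
    have g3 : Good k 0 ((e1 k R m : (MvPolynomial (Fin m) R)[X] ≃ₐ[k]
      MvPolynomial (Fin (m + 1)) R) : (MvPolynomial (Fin m) R)[X] →ₐ[k]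
      MvPolynomial (Fin (m + 1)) R) := hGCO.2.2.2 k _ _ _
    have g12 : Good k (m + 1) ((CC k (MvPolynomial (Fin m) R)).comp
      (IsScalarTower.toAlgHom k R (MvPolynomial (Fin m) R))) := hGCO.1 k _ _ _ _ _ m 1 g1 g2
    obtain ⟨c1, hc1⟩ := hFPX k R (MvPolynomial (Fin m) R) E m n _ g1 c
    obtain ⟨d1, hd1⟩ := hFPX k (MvPolynomial (Fin m) R) (MvPolynomial (Fin m) R)[X] E 1 (n + m)
      _ g2 c1
    obtain ⟨d2, hd2⟩ := hFPX k (MvPolynomial (Fin m) R)[X] (MvPolynomial (Fin (m + 1)) R) E 0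
      (n + m + 1) _ g3 d1
    have h1 := ((hGCO.2.1 k R (MvPolynomial (Fin m) R) (MvPolynomial (Fin m) R)[X] E _ _ m n
      g1).1 g2) c c1 d1 hc1 hd1
    have h2 := ((hGCO.2.1 k R (MvPolynomial (Fin m) R)[X] (MvPolynomial (Fin (m + 1)) R) E _ _
      (m + 1) n g12).2 g3) c d1 d2 h1 hd2
    rw [e1_eq] at h2
    have h3 : d = d2 := (hPL.1 k R (MvPolynomial (Fin (m + 1)) R) E (m + 1) n _ c c d d2 0 hd
      h2).1 rfl
    have h4 := (hPL.2 k (MvPolynomial (Fin m) R)[X] (MvPolynomial (Fin (m + 1)) R) E (n + m + 1)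
      (e1 k R m) d1 d2).1 hd2
    have h5 : d1 ∈ rat k (MvPolynomial (Fin m) R)[X] E (n + m + 1) := by
      apply (hPCO.2.2.1 k (MvPolynomial (Fin (m + 1)) R) (MvPolynomial (Fin m) R)[X] E
        (n + m + 1) (e1 k R m).symm d1).1
      have h6 : push E ((e1 k R m).symm.toAlgHom) (e1 k R m).symm.surjective d1 = d2 := h4
      rw [h6, ← h3]
      exact hrat
    have h6 : IsBeta k E d1 c1 := hB2 k (MvPolynomial (Fin m) R) E (n + m) c1 d1 hd1
    have h7 : c1 ∈ rat k (MvPolynomial (Fin m) R) E (n + m) := by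
      apply hB3 k (MvPolynomial (Fin m) R) E (n + m) ⊥ d1 c1 _ h6
      rw [Ideal.map_bot]
      exact h5
    exact ih c c1 hc1 h7

end CUB


end
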