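import Mathlib
import Pool.Agent.QVM.C03
import Pool.Agent.QVM.C04
import Pool.Agent.QVM.C06
import Pool.Agent.QVM.C07
import Pool.Agent.QVM.C08

/-! Parts: Lib_helper55.Beil.Frob, Lib_helper66.OneP.Defs, Lib_helper66.OneP.Defs2, Lib_helper66.OneP.Main, Lib_helper66.OneP.Inj, Lib_helper66.OneP.Full, CUB.C_ZPOL -/

section

/-!
Surjectivity of cycle class maps implies that Frobenius acts semisimply on the cohomology of all
smooth proper varieties.
-/

open CategoryTheory AlgebraicGeometry Limits

namespace Pool.Agent.Lib_helper55.Beil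

universe v

variable {k : Type} [Field k]

/-- The product of two varieties over `k`. -/
noncomputable def Var.prod (X Y : Var k) : Var k where
  X := pullback X.f Y.f
  f := pullback.fst X.f Y.f ≫ X.f
  sep := inferInstance
  lft := inferInstance
  qc := inferInstance

/-- The cohomology groups `coh n Z = H^n(Zbar, Q_l)` of the varieties over `k` with the
action of Frobenius (of the generator of the Galois group). -/
structure Coh (k : Type) [Field k] (E : Type) [Field E] where
  /-- the cohomology groups -/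
  coh : ℕ → Var k → Type v
  [grp : ∀ n X, AddCommGroup (coh n X)]
  [mod : ∀ n X, Module E (coh n X)]
  [fin : ∀ n X, Module.Finite E (coh n X)]
  /-- Frobenius -/
  phi : ∀ n X, coh n X ≃ₗ[E] coh n X

attribute [instance] Coh.grp Coh.mod Coh.fin

variable {E : Type} [Field E]

/-- The endomorphisms of `H^n(Zbar, Q_l)`. -/
def Coh.Endo (C : Coh.{v} k E) (n : ℕ) (Z : Var k) : Type v :=
  Module.End E (C.coh n Z)

instance (C : Coh.{v} k E) (n : ℕ) (Z : Var k) : AddCommGroup (C.Endo n Z) :=
  inferInstanceAs (AddCommGroup (Module.End E (C.coh n Z)))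

instance (C : Coh.{v} k E) (n : ℕ) (Z : Var k) : Module E (C.Endo n Z) :=
  inferInstanceAs (Module E (Module.End E (C.coh n Z)))

/-- Frobenius on `H^n(Zbar, Q_l)`. -/
def Coh.frob (C : Coh.{v} k E) (n : ℕ) (Z : Var k) : Module.End E (C.coh n Z) :=
  (C.phi n Z).toLinearMap

/-- The inverse of Frobenius on `H^n(Zbar, Q_l)`. -/
def Coh.frobInv (C : Coh.{v} k E) (n : ℕ) (Z : Var k) : Module.End E (C.coh n Z) :=
  (C.phi n Z).symm.toLinearMap

/-- Conjugation with Frobenius on the endomorphisms of `H^n(Zbar, Q_l)`. -/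
def Coh.conj (C : Coh.{v} k E) (n : ℕ) (Z : Var k) (a : C.Endo n Z) : C.Endo n Z :=
  C.frob n Z ∘ₗ a ∘ₗ C.frobInv n Z

/-- The map `ι` embeds the endomorphisms of `H^n(Zbar, Q_l)` with the conjugation with Frobenius
into `H_(2d)(Zbar x Zbar, Q_l(d))`. -/
def IsEmb (C : Coh.{v} k E) {d : ℕ} (T : Homology.{v} k E d) (n : ℕ) (Z : Var k)
    (ι : C.Endo n Z → T.H (2 * d) (Z.prod Z)) : Prop :=
  IsLinearMap E ι ∧ Function.Injective ι ∧
    ∀ a : C.Endo n Z, T.F (2 * d) (Z.prod Z) (ι a) = ι (C.conj n Z a)

/-- The Kuenneth formula and Poincare duality: for a smooth proper variety `Z` of dimension `d`,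
`End H^n(Zbar, Q_l) = H^n(Zbar, Q_l) ⊗ H^(2d-n)(Zbar, Q_l(d))` is a subspace of
`H^(2d)(Zbar x Zbar, Q_l(d)) = H_(2d)(Zbar x Zbar, Q_l(d))`, compatibly with Frobenius. -/
def Kuenneth (C : Coh.{v} k E) (T : ∀ d : ℕ, Homology.{v} k E d) : Prop :=
  ∀ (Z : Var k) (d : ℕ), Z.SmoothProper d → ∀ n : ℕ,
    ∃ ι : C.Endo n Z → (T d).H (2 * d) (Z.prod Z), IsEmb C (T d) n Z ι

theorem frobenius_semisimple [Finite k] (C : Coh.{v} k E) (T : ∀ d : ℕ, Homology.{v} k E d)
    (hK : Kuenneth C T) (Z : Var k) (d : ℕ) (hZ : Z.SmoothProper d) (hT : (T d).CoverVanish)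
    (n : ℕ) : (C.frob n Z).IsSemisimple := by
  obtain ⟨ι, hlin, hι, hF⟩ := hK Z d hZ n
  have hss := (T d).semisimple_of_good (Z.prod Z) ((T d).good_of_cover hT (Z.prod Z))
  refine GenTate.semisimple_of_ad (C.phi n Z) ?_
  intro a ha
  apply hι
  have hsub : ∀ x y : C.Endo n Z, ι (x - y) = ι x - ι y := fun x y => hlin.map_sub x y
  have h0 : ι 0 = 0 := hlin.map_zero
  set φ : Module.End E (C.coh n Z) := (C.phi n Z).toLinearMap
  set ψ : Module.End E (C.coh n Z) := (C.phi n Z).symm.toLinearMap
  have hF' : ∀ a : Module.End E (C.coh n Z),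
      (T d).F (2 * d) (Z.prod Z) (ι a) = ι (φ * a * ψ : Module.End E (C.coh n Z)) := hF
  have e3 : ι (φ * a * ψ - a : Module.End E (C.coh n Z)) =
      (T d).F (2 * d) (Z.prod Z) (ι a) - ι a := by
    rw [hF']
    exact hsub _ _
  have e2 : (T d).F (2 * d) (Z.prod Z) (ι (φ * a * ψ - a : Module.End E (C.coh n Z))) =
      ι (φ * a * ψ - a : Module.End E (C.coh n Z)) := by
    rw [hF', ← sub_eq_zero]
    refine (hsub _ _).symm.trans ?_
    have : φ * (φ * a * ψ - a) * ψ - (φ * a * ψ - a) = 0 := ha
    exact (congrArg ι this).trans h0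
  have h4 := hss (ι a) (by rw [← e3, e2])
  change ι (φ * a * ψ - a : Module.End E (C.coh n Z)) = ι 0
  rw [h0, e3, h4, sub_self]

end Pool.Agent.Lib_helper55.Beil


end

section

/-!
Further axioms of l-adic homology: weights, the equivariant boundary map, the trace of finite etale
morphisms, Poincare duality, and the data which do not depend on the prime l.
-/

set_option autoImplicit false

open CategoryTheory AlgebraicGeometry Polynomial

namespace Pool.Agent.Lib_helper66.OneP

open Pool.Agent.Lib_helper55.Beil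

universe v w

variable {k : Type} [Field k] {E : Type} [Field E] {i j : ℕ}

/-- A finite etale surjective morphism over `k`. -/
structure FinEt (V U : Var k) where
  /-- the morphism -/
  g : V.X ⟶ U.X
  comm : g ≫ U.f = V.f
  fin : IsFinite g
  etale : Etale g
  surj : Surjective g

/-- The theorem of de Jong on alterations (over a perfect field): every integral variety `U` of
dimension `d` has a nonempty open subvariety `U'` with a finite etale covering `V` which is an open
subvariety of a smooth proper integral variety `Y` of dimension `d`. -/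
def Alterations (k : Type) [Field k] : Prop :=
  ∀ (U : Var k) (_ : IsIntegral U.X) (d : ℕ), U.dim (genericPoint U.X) = d →
    ∃ (U' V Y : Var k) (_ : OpenIn U' U) (_ : FinEt V U') (_ : OpenIn V Y),
      Nonempty U'.X ∧ Y.SmoothProper d

/-- The theorem of Deligne on weights: `H_n(Zbar, Q_l(i))` has weights at least `2 * i - n`, so for
`n = 2 * i - 1` no nonzero class is invariant under Frobenius. -/
def Weights (T : Homology.{v} k E i) : Prop :=
  ∀ n : ℕ, n + 1 = 2 * i → ∀ (Z : Var k) (m : T.H n Z), T.F n Z m = m → m = 0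

/-- The linear maps from `H n X` to `H m Y`. -/
def Lin (T : Homology.{v} k E i) (n m : ℕ) (X Y : Var k) : Type v := T.H n X →ₗ[E] T.H m Y

/-- The value of a linear map from `H n X` to `H m Y`. -/
def Lin.app {T : Homology.{v} k E i} {n m : ℕ} {X Y : Var k} (f : Lin T n m X Y) (a : T.H n X) :
    T.H m Y := (id f : T.H n X →ₗ[E] T.H m Y) a

/-- The linear map `f` commutes with Frobenius. -/
def Lin.Equivariant {T : Homology.{v} k E i} {n m : ℕ} {X Y : Var k} (f : Lin T n m X Y) : Prop :=
  ∀ a, f.app (T.F n X a) = T.F m Y (f.app a)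

/-- The part `H (n + 1) X → H (n + 1) U → H n Z` of the localisation sequence is exact, for some
boundary map `bd` which commutes with Frobenius. -/
def Boundary (T : Homology.{v} k E i) : Prop :=
  ∀ n (Z U X : Var k) (a : ClosedIn Z X) (j : OpenIn U X), Complementary a j →
    ∃ bd : Lin T (n + 1) n U Z, bd.Equivariant ∧
      ∀ u, bd.app u = 0 ↔ ∃ x, T.R (n + 1) j x = u

/-- The linear map `f` maps the class of a point to a multiple of the class of a point. -/
def Lin.Classes {T : Homology.{v} k E i} {X Y : Var k} (f : Lin T (2 * i) (2 * i) X Y) : Prop :=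
  ∀ x : Pts i X, ∃ (y : Pts i Y) (e : E), f.app (T.cl X x) = e • T.cl Y y

/-- The push-forward along a finite etale surjective morphism is surjective, commutes with
Frobenius and maps the class of a point to a multiple of the class of a point. -/
def Trace (T : Homology.{v} k E i) : Prop :=
  ∀ (V U : Var k), FinEt V U →
    ∃ tr : Lin T (2 * i) (2 * i) V U, Function.Surjective tr.app ∧ tr.Equivariant ∧ tr.Classes

/-- The data which do not depend on the prime number l. -/
structure Numbers (k : Type) [Field k] where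
  /-- the intersection number of an `i`-dimensional and a `j`-dimensional subvariety of `Y` -/
  num : ∀ (i j : ℕ) (Y : Var k), Pts i Y → Pts j Y → ℚ
  /-- the characteristic polynomial of Frobenius on `H_2i(Ybar, Q_l(i))` -/
  chi : ℕ → Var k → ℚ[X]

/-- The bilinear forms on `H_2i(Ybar, Q_l(i)) × H_2j(Ybar, Q_l(j))`. -/
structure Pairing (T : Homology.{v} k E i) (S : Homology.{v} k E j) (Y : Var k) where
  /-- the value of the form -/
  app : T.H (2 * i) Y → S.H (2 * j) Y → E
  left : ∀ b, IsLinearMap E (fun a => app a b)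
  right : ∀ a, IsLinearMap E (app a)

section

variable {T : Homology.{v} k E i} {S : Homology.{v} k E j} {Y : Var k}

/-- The bilinear form is invariant under Frobenius. -/
def Pairing.Invariant (B : Pairing T S Y) : Prop :=
  ∀ a b, B.app (T.F (2 * i) Y a) (S.F (2 * j) Y b) = B.app a b

/-- The bilinear form is nondegenerate. -/
def Pairing.Nondegenerate (B : Pairing T S Y) : Prop :=
  (∀ a, (∀ b, B.app a b = 0) → a = 0) ∧ ∀ b, (∀ a, B.app a b = 0) → b = 0

/-- The values of the bilinear form on cycle classes are the intersection numbers. -/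
def Pairing.Intersections (B : Pairing T S Y) (N : Numbers k) : Prop :=
  ∀ (x : Pts i Y) (y : Pts j Y), B.app (T.cl Y x) (S.cl Y y) = (N.num i j Y x y : E)

end

/-- The characteristic polynomial of Frobenius on `H_2i(Ybar, Q_l(i))`. -/
noncomputable def char (T : Homology.{v} k E i) (Y : Var k) : E[X] :=
  LinearMap.charpoly (T.frob (2 * i) Y)

/-- The theories `T i` have the intersection numbers and the characteristic polynomials `N` for
the smooth proper integral varieties. -/
def Realizes [CharZero E] (N : Numbers k) (T : ∀ i, Homology.{v} k E i) : Prop :=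
  (∀ (i j : ℕ) (Y : Var k), Y.SmoothProper (i + j) → ∃ B : Pairing (T i) (T j) Y,
    B.Invariant ∧ B.Nondegenerate ∧ B.Intersections N) ∧
  ∀ (i d : ℕ) (Y : Var k), Y.SmoothProper d → char (T i) Y = (N.chi i Y).map (algebraMap ℚ E)

/-- For `i`-dimensional cycles on `Y` numerical equivalence (with respect to the cycles of
dimension `j`) implies homological equivalence. -/
def HomNum (N : Numbers k) (T : Homology.{v} k E i) (j : ℕ) (Y : Var k) : Prop :=
  ∀ c : Pts i Y →₀ E, (∀ y : Pts j Y, c.sum (fun x e => e * (N.num i j Y x y : E)) = 0) →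
    Finsupp.linearCombination E (T.cl Y) c = 0

end Pool.Agent.Lib_helper66.OneP


end

section

/-!
Further axioms of l-adic homology: purity, pull-back along finite etale morphisms, and the image of
the higher Chow groups `CH_i(X, 1)` in `H_(2i+1)(Xbar, Q_l(i))`.
-/

set_option autoImplicit false

open CategoryTheory AlgebraicGeometry

namespace Pool.Agent.Lib_helper66.OneP

open Pool.Agent.Lib_helper55.Beil

universe v w

variable {k : Type} [Field k] {E : Type} [Field E] {i : ℕ}

/-- The class of an `i`-dimensional cycle. -/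
noncomputable def cls (T : Homology.{v} k E i) (X : Var k) (c : Pts i X →₀ E) : T.H (2 * i) X :=
  Finsupp.linearCombination E (T.cl X) c

/-- The push-forward of a cycle along a closed immersion. -/
noncomputable def pushCyc {Z X : Var k} (a : ClosedIn Z X) (c : Pts i Z →₀ E) : Pts i X →₀ E :=
  Finsupp.mapDomain (ptsMap i a) c

/-- The theorem of Deligne: for a smooth proper variety `Y` the space `H_(2i+1)(Ybar, Q_l(i))` is
pure of weight `-1`, so no nonzero class is invariant under Frobenius. -/
def Purity (T : Homology.{v} k E i) : Prop :=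
  ∀ (Y : Var k) (d : ℕ), Y.SmoothProper d →
    ∀ m : T.H (2 * i + 1) Y, T.F (2 * i + 1) Y m = m → m = 0

/-- The pull-back `p` of cycles along a finite etale surjective morphism is compatible with the
pull-back `P` in homology, and a cycle is rationally equivalent to zero if its pull-back is (the
composition of pull-back and push-forward is multiplication by the degree). -/
def Pull (T : Homology.{v} k E i) : Prop :=
  ∀ (V U : Var k), FinEt V U →
    ∃ (p : (Pts i U →₀ E) → (Pts i V →₀ E)) (P : Lin T (2 * i) (2 * i) U V),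
      (∀ c, cls T V (p c) = P.app (cls T U c)) ∧
      ∀ c, p c ∈ ratZero E i V → c ∈ ratZero E i U

/-- Subspaces `K X` of `H (2 * i + 1) X`; the example is the span of the image of the higher Chow
group `CH_i(X, 1)` under the cycle class map. -/
def Kone (T : Homology.{v} k E i) : Type (max 1 v) :=
  ∀ X : Var k, Submodule E (T.H (2 * i + 1) X)

/-- The class `u` is in the subspace `K X`. -/
def Kone.Mem {T : Homology.{v} k E i} (K : Kone T) (X : Var k) (u : T.H (2 * i + 1) X) : Prop :=
  u ∈ (K X : Submodule E (T.H (2 * i + 1) X))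

/-- The classes in `K X` are invariant under Frobenius. -/
def Kone.Invariant {T : Homology.{v} k E i} (K : Kone T) : Prop :=
  ∀ (X : Var k) (u : T.H (2 * i + 1) X), K.Mem X u → T.F (2 * i + 1) X u = u

/-- The cycle `c` on `Z` becomes rationally equivalent to zero on `X`. -/
def Dies {Z X : Var k} (a : ClosedIn Z X) (c : Pts i Z →₀ E) : Prop :=
  pushCyc a c ∈ ratZero E i X

/-- The map `bd` is compatible with the localisation sequence `CH_i(U, 1) → CH_i(Z) → CH_i(X)`:
the image of `K U` consists of the classes of the cycles on `Z` whose push-forward to `X` is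
rationally equivalent to zero. -/
def Kone.Compatible {T : Homology.{v} k E i} (K : Kone T) {Z U X : Var k} (a : ClosedIn Z X)
    (bd : Lin T (2 * i + 1) (2 * i) U Z) : Prop :=
  (∀ u, K.Mem U u → ∃ c, Dies a c ∧ bd.app u = cls T Z c) ∧
    ∀ c, Dies a c → ∃ u, K.Mem U u ∧ bd.app u = cls T Z c

/-- The part `H (2 * i + 1) X → H (2 * i + 1) U → H (2 * i) Z → H (2 * i) X` of the localisation
sequence is exact, for some boundary map `bd` which commutes with Frobenius and is compatible with
the localisation sequence of Chow groups. -/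
def Kone.Localisation {T : Homology.{v} k E i} (K : Kone T) : Prop :=
  ∀ (Z U X : Var k) (a : ClosedIn Z X) (j : OpenIn U X), Complementary a j →
    ∃ bd : Lin T (2 * i + 1) (2 * i) U Z, bd.Equivariant ∧
      (∀ u, bd.app u = 0 ↔ ∃ x, T.R (2 * i + 1) j x = u) ∧
      (∀ z, T.P (2 * i) a z = 0 ↔ ∃ u, bd.app u = z) ∧ K.Compatible a bd

/-- The push-forward along a finite etale surjective morphism `V → U` on `H (2 * i + 1)` is
surjective, commutes with Frobenius and maps `K V` into `K U`. -/
def Kone.Trace {T : Homology.{v} k E i} (K : Kone T) : Prop :=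
  ∀ (V U : Var k), FinEt V U →
    ∃ tr : Lin T (2 * i + 1) (2 * i + 1) V U, Function.Surjective tr.app ∧ tr.Equivariant ∧
      ∀ u, K.Mem V u → K.Mem U (tr.app u)

/-- The further published properties of `l`-adic homology used here. -/
structure Published (T : Homology.{v} k E i) : Prop where
  weights : Weights T
  purity : Purity T
  boundary : Boundary T
  trace : Trace T
  pull : Pull T
  kone : ∃ K : Kone T, K.Invariant ∧ K.Localisation ∧ K.Trace

end Pool.Agent.Lib_helper66.OneP


end

section

/-!
Surjectivity for one prime implies surjectivity and semisimplicity for all primes.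
-/

set_option autoImplicit false

open CategoryTheory AlgebraicGeometry Polynomial TopologicalSpace

namespace Pool.Agent.Lib_helper66.OneP

open Pool.Agent.Lib_helper55.Beil

universe v w

variable {k : Type} [Field k] {E : Type} [Field E] {i : ℕ}

/-- the bilinear map of a pairing -/
def Pairing.bil {j : ℕ} {T : Homology.{v} k E i} {S : Homology.{v} k E j} {Y : Var k}
    (B : Pairing T S Y) : T.H (2 * i) Y →ₗ[E] S.H (2 * j) Y →ₗ[E] E :=
  LinearMap.mk₂ E B.app (fun a b c => (B.left c).map_add a b) (fun e a c => (B.left c).map_smul e a)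
    (fun a b c => (B.right a).map_add b c) (fun e a c => (B.right a).map_smul e c)

/-- the linear map -/
def Lin.lin {T : Homology.{v} k E i} {n m : ℕ} {X Y : Var k} (f : Lin T n m X Y) :
    T.H n X →ₗ[E] T.H m Y := f

lemma isRealization [CharZero E] {j : ℕ} (N : Numbers k) (T : Homology.{v} k E i)
    (S : Homology.{v} k E j) (Y : Var k) (B : Pairing T S Y)
    (h1 : B.Invariant) (h2 : B.Nondegenerate) (h3 : B.Intersections N)
    (hc : char T Y = (N.chi i Y).map (algebraMap ℚ E)) :
    GenTate.IsRealization E (N.num i j Y) (N.chi i Y) (T.frob (2 * i) Y) (S.frob (2 * j) Y) B.bil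
      (T.cl Y) (S.cl Y) where
  inv := h1
  left := h2.1
  right := h2.2
  cl_inv := T.frob_cl Y
  cl'_inv := S.frob_cl Y
  num := h3
  char := hc

lemma invariant_iff (T : Homology.{v} k E i) (Y : Var k) (a : T.H (2 * i) Y) :
    T.frob (2 * i) Y a = a → a ∈ T.gen Y := fun ha =>
  (mem_maxGen_iff _ _).mpr ⟨1, by
    rw [pow_one, LinearMap.sub_apply, Module.End.one_apply, ha, sub_self]⟩

lemma semisimple_of_good (T : Homology.{v} k E i) (Y : Var k) (h : T.gen Y ≤ T.alg Y) :
    ∀ a, T.frob (2 * i) Y (T.frob (2 * i) Y a - a) - (T.frob (2 * i) Y a - a) = 0 →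
      T.frob (2 * i) Y a - a = 0 := by
  intro a ha
  rw [sub_eq_zero]
  exact T.semisimple_of_good Y h a (sub_eq_zero.mp ha)

lemma span_of_good (T : Homology.{v} k E i) (Y : Var k) (h : T.gen Y ≤ T.alg Y) :
    ∀ a, T.frob (2 * i) Y a = a → a ∈ Submodule.span E (Set.range (T.cl Y)) := fun a ha =>
  h (invariant_iff T Y a ha)

/-- the smooth proper case -/
theorem smoothProper_main {E' : Type} [Field E'] [CharZero E] [CharZero E'] (N : Numbers k)
    (T : ∀ i, Homology.{v} k E i) (T' : ∀ i, Homology.{w} k E' i) (hT : Realizes N T)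
    (hT' : Realizes N T') (i j : ℕ) (Y : Var k) (hY : Y.SmoothProper (i + j))
    (hi : (T i).gen Y ≤ (T i).alg Y) (hj : (T j).gen Y ≤ (T j).alg Y) :
    (T' i).gen Y ≤ (T' i).alg Y ∧ HomNum N (T' i) j Y := by
  obtain ⟨B, hp1, hp2, hp3⟩ := hT.1 i j Y hY
  obtain ⟨B', hp1', hp2', hp3'⟩ := hT'.1 i j Y hY
  have hR := isRealization N (T i) (T j) Y B hp1 hp2 hp3 (hT.2 i _ Y hY)
  have hR' := isRealization N (T' i) (T' j) Y B' hp1' hp2' hp3' (hT'.2 i _ Y hY)
  obtain ⟨x, y, hxy⟩ := GenTate.exists_gram hR (span_of_good _ _ hi) (span_of_good _ _ hj)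
    (semisimple_of_good _ _ hi) (semisimple_of_good _ _ hj)
  obtain ⟨h1, h2, h3, -⟩ := GenTate.of_gram hR' x y hxy
  constructor
  · intro m hm
    exact h1 m ((GenTate.mem_maxGen_iff _ h2 m).mp hm)
  · intro c hc
    apply h3
    · rw [← Finsupp.range_linearCombination]
      exact LinearMap.mem_range_self _ _
    · intro z
      rw [← hc z, Finsupp.linearCombination_apply, Finsupp.sum, map_sum, LinearMap.sum_apply,
        Finsupp.sum]
      apply Finset.sum_congr rfl
      intro p _
      rw [map_smul, LinearMap.smul_apply, smul_eq_mul]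
      congr 1
      exact hp3' p z

lemma complementary_of_open {V Y : Var k} (j : OpenIn V Y) :
    ∃ (Z : Var k) (a : ClosedIn Z Y), Complementary a j := by
  have hj := j.isOpen
  refine ⟨closedVar Y (j.g.opensRange).compl, closedVarIn Y (j.g.opensRange).compl, ?_⟩
  rw [Complementary, range_closedVarIn]
  rfl

/-- restriction of algebraic classes -/
lemma res_alg (T : Homology.{v} k E i) {V Y : Var k} (j : OpenIn V Y) {m : T.H (2 * i) Y}
    (hm : m ∈ T.alg Y) : T.res (2 * i) j m ∈ T.alg V := by
  obtain ⟨Z, a, ha⟩ := complementary_of_open j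
  have hj := j.isOpen
  induction hm using Submodule.span_induction with
  | mem x hx =>
    obtain ⟨p, rfl⟩ := hx
    by_cases hp : p.1 ∈ Set.range j.g
    · obtain ⟨p, hpi⟩ := p
      obtain ⟨u, rfl⟩ := hp
      have hu : V.dim u = i := (dim_map j.g j.comm u).symm.trans hpi
      have h1 := T.res_cl j ⟨u, hu⟩ hpi
      rw [h1]
      exact Submodule.subset_span ⟨_, rfl⟩
    · have hp' : p.1 ∈ Set.range a.g := by
        rw [show Set.range a.g = (Set.range j.g)ᶜ from ha]
        exact hp
      rw [T.res_cl_eq_zero a j ha p hp']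
      exact zero_mem _
  | zero => simp
  | add x y _ _ hx hy => rw [map_add]; exact add_mem hx hy
  | smul a x _ hx => rw [map_smul]; exact Submodule.smul_mem _ _ hx

/-- open subvarieties of good varieties are good -/
lemma good_open (T : Homology.{v} k E i) (hi : 0 < i) (hW : Weights T) (hB : Boundary T)
    {V Y : Var k} (j : OpenIn V Y) (hY : T.gen Y ≤ T.alg Y) : T.gen V ≤ T.alg V := by
  obtain ⟨i, rfl⟩ : ∃ i', i = i' + 1 := ⟨i - 1, by omega⟩
  obtain ⟨Z, a, ha⟩ := complementary_of_open j
  obtain ⟨bd, h1, h2⟩ := hB (2 * i + 1) Z V Y a j ha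
  intro m hm
  have h3 : bd.lin m = 0 := by
    apply maxGen_eq_bot (T.frob (2 * i + 1) Z) (fun m hm => hW (2 * i + 1) (by ring) Z m hm)
    exact maxGen_map (T.frob (2 * i + 1 + 1) V) (T.frob (2 * i + 1) Z) bd.lin h1 hm
  obtain ⟨m₁, hm₁⟩ := (h2 m).mp h3
  have hm₁' : T.res (2 * (i + 1)) j m₁ = m := hm₁
  have hm' : T.res (2 * (i + 1)) j m₁ ∈ T.gen V := hm₁' ▸ hm
  obtain ⟨m₂, hm₂, h4⟩ := maxGen_lift (T.frob (2 * (i + 1)) Y) (T.frob (2 * (i + 1)) V)
    (T.res (2 * (i + 1)) j) (T.res_frob (2 * (i + 1)) j) hm'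
  rw [← hm₁', ← h4]
  exact res_alg T j (hY hm₂)

/-- quotients of good varieties by finite etale coverings are good -/
lemma good_trace (T : Homology.{v} k E i) (hTr : Trace T) {V U : Var k} (g : FinEt V U)
    (hV : T.gen V ≤ T.alg V) : T.gen U ≤ T.alg U := by
  obtain ⟨tr, h1, h2, h3⟩ := hTr V U g
  intro m hm
  obtain ⟨m₁, rfl⟩ := h1 m
  obtain ⟨m₂, hm₂, h4⟩ := maxGen_lift (T.frob (2 * i) V) (T.frob (2 * i) U) tr.lin h2 hm
  have h4' : tr.lin m₂ = tr.app m₁ := h4
  rw [← h4']
  have h5 : ∀ a ∈ T.alg V, tr.lin a ∈ T.alg U := by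
    intro a ha
    induction ha using Submodule.span_induction with
    | mem x hx =>
      obtain ⟨p, rfl⟩ := hx
      obtain ⟨u, e, hu⟩ := h3 p
      have hu' : tr.lin (T.cl V p) = e • T.cl U u := hu
      rw [hu']
      exact Submodule.smul_mem _ _ (Submodule.subset_span ⟨_, rfl⟩)
    | zero => rw [map_zero]; exact zero_mem _
    | add x y _ _ hx hy => rw [map_add]; exact add_mem hx hy
    | smul a x _ hx => rw [map_smul]; exact Submodule.smul_mem _ _ hx
  exact h5 _ (hV hm₂)

/-- If for one prime and all dimensions at most `i` the generalised eigenspaces are spanned by cycle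
classes, then small surjectivity holds for all primes in the dimension `i`. -/
theorem smallSurj_transfer {E' : Type} [Field E'] [CharZero E] [CharZero E']
    (N : Numbers k) (T : ∀ i, Homology.{v} k E i) (T' : ∀ i, Homology.{w} k E' i)
    (hT : Realizes N T) (hT' : Realizes N T') (hA : Alterations k) (i : ℕ)
    (hW : Weights (T' i)) (hB : Boundary (T' i)) (hTr : Trace (T' i))
    (hS : ∀ j ≤ i, ∀ X : Var k, (T j).gen X ≤ (T j).alg X) : (T' i).SmallSurj := by
  intro U hint haff hsm h1 h2
  obtain ⟨d, hd⟩ := Cardinal.lt_aleph0.1 (h2.trans_lt (Cardinal.natCast_lt_aleph0))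
  rw [hd, Nat.cast_lt] at h1
  rw [hd, Nat.cast_le] at h2
  obtain ⟨U', V, Y, jU, g, jV, hne, hY⟩ := hA U hint d hd
  obtain ⟨j, rfl⟩ : ∃ j, d = i + j := ⟨d - i, by omega⟩
  have hgood : (T' i).gen Y ≤ (T' i).alg Y :=
    (smoothProper_main N T T' hT hT' i j Y hY (hS i le_rfl Y) (hS j (by omega) Y)).1
  refine ⟨U', jU, hne, ?_⟩
  exact (T' i).surj_of_good U' (good_trace (T' i) hTr g
    (good_open (T' i) (by omega) hW hB jV hgood))

end Pool.Agent.Lib_helper66.OneP


end

section

/-!
Injectivity of the cycle class map on a smooth proper variety does not depend on the prime.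
-/

set_option autoImplicit false

open CategoryTheory AlgebraicGeometry Polynomial TopologicalSpace

namespace Pool.Agent.Lib_helper66.OneP

open Pool.Agent.Lib_helper55.Beil

universe v w

variable {k : Type} [Field k] {i : ℕ}

/-- extension of the coefficients of a cycle -/
noncomputable def ext (E : Type) [Field E] [CharZero E] {P : Type} (c : P →₀ ℚ) : P →₀ E :=
  c.mapRange (algebraMap ℚ E) (map_zero _)

section

variable (E : Type) [Field E] [CharZero E] {P : Type}

lemma ext_apply (c : P →₀ ℚ) (x : P) : ext E c x = algebraMap ℚ E (c x) := rfl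

lemma ext_injective : Function.Injective (ext E : (P →₀ ℚ) → (P →₀ E)) := by
  intro c d h
  ext x
  exact (algebraMap ℚ E).injective (DFunLike.congr_fun h x)

/-- a rational vector in the span of rational vectors over `E` is in the rational span -/
lemma mem_span_descend (S : Set (P →₀ ℚ)) (c : P →₀ ℚ)
    (h : ext E c ∈ Submodule.span E (ext E '' S)) : c ∈ Submodule.span ℚ S := by
  obtain ⟨r, hr⟩ := (Algebra.linearMap ℚ E).exists_leftInverse_of_injective
    (LinearMap.ker_eq_bot.mpr (algebraMap ℚ E).injective)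
  have hr1 : ∀ q : ℚ, r (algebraMap ℚ E q) = q := fun q =>
    congrArg (fun f : ℚ →ₗ[ℚ] ℚ => f q) hr
  have key : ∀ d ∈ Submodule.span E (ext E '' S), ∀ t : E,
      (t • d).mapRange r (map_zero r) ∈ Submodule.span ℚ S := by
    intro d hd
    induction hd using Submodule.span_induction with
    | mem x hx =>
      obtain ⟨s, hs, rfl⟩ := hx
      intro t
      have h1 : (t • ext E s).mapRange r (map_zero r) = r t • s := by
        ext x
        rw [Finsupp.mapRange_apply, Finsupp.smul_apply, Finsupp.smul_apply, ext_apply,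
          smul_eq_mul, smul_eq_mul, mul_comm t, ← Algebra.smul_def, map_smul, smul_eq_mul, mul_comm]
      rw [h1]
      exact Submodule.smul_mem _ _ (Submodule.subset_span hs)
    | zero => intro t; simp
    | add x y _ _ hx hy =>
      intro t
      rw [smul_add, Finsupp.mapRange_add (map_add r)]
      exact add_mem (hx t) (hy t)
    | smul a x _ hx =>
      intro t
      rw [smul_smul]
      exact hx (t * a)
  have h2 := key _ h 1
  have h3 : ((1 : E) • ext E c).mapRange r (map_zero r) = c := by
    ext x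
    rw [one_smul, Finsupp.mapRange_apply, ext_apply, hr1]
  rwa [h3] at h2

end

/-- cycles which are divisors have rational (integral) coefficients -/
lemma isDiv_descend {E : Type} [Field E] [CharZero E] {W X : Var k} (a : ClosedIn W X)
    [IsIntegral W.X] (φ : W.X.functionField) (c : Pts i X →₀ E) (h : IsDiv a φ c) :
    ∃ c₀ : Pts i X →₀ ℚ, IsDiv a φ c₀ ∧ ext E c₀ = c := by
  classical
  have h1 : ∀ x : Pts i X, ∃ z : ℤ, c x = (z : E) := by
    intro x
    by_cases hx : x.1 ∈ Set.range a.g
    · obtain ⟨x, hxi⟩ := x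
      obtain ⟨w, rfl⟩ := hx
      exact ⟨_, h.1 w hxi⟩
    · exact ⟨0, by rw [h.2 x hx]; simp⟩
  choose z hz using h1
  refine ⟨Finsupp.onFinset c.support (fun x => (z x : ℚ)) ?_, ⟨?_, ?_⟩, ?_⟩
  · intro x hx
    rw [Finsupp.mem_support_iff, hz]
    exact_mod_cast hx
  · intro w hw
    have h2 := h.1 w hw
    rw [hz] at h2
    have h3 : z ⟨a.g w, hw⟩ = (Scheme.ord φ w : ℤ) := by exact_mod_cast h2
    rw [Finsupp.onFinset_apply, h3]
  · intro x hx
    have h2 := h.2 x hx
    rw [hz] at h2
    have h3 : z x = 0 := by exact_mod_cast h2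
    rw [Finsupp.onFinset_apply, h3, Int.cast_zero]
  · ext x
    rw [ext_apply, Finsupp.onFinset_apply, hz]
    simp

lemma isDiv_ext {E : Type} [Field E] [CharZero E] {W X : Var k} (a : ClosedIn W X)
    [IsIntegral W.X] (φ : W.X.functionField) (c : Pts i X →₀ ℚ) (h : IsDiv a φ c) :
    IsDiv a φ (ext E c) := by
  constructor
  · intro w hw
    rw [ext_apply, h.1 w hw]
    simp
  · intro x hx
    rw [ext_apply, h.2 x hx, map_zero]

/-- the set of divisors -/
def divs (E : Type) [Field E] (i : ℕ) (X : Var k) : Set (Pts i X →₀ E) :=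
  {c | ∃ (W : Var k) (_ : IsIntegral W.X) (a : ClosedIn W X)
    (φ : W.X.functionField), W.dim (genericPoint W.X) = (i + 1 : ℕ) ∧ φ ≠ 0 ∧ IsDiv a φ c}

lemma divs_eq (E : Type) [Field E] [CharZero E] (X : Var k) :
    divs E i X = ext E '' divs ℚ i X := by
  ext c
  constructor
  · rintro ⟨W, hW, a, φ, h1, h2, h3⟩
    obtain ⟨c₀, h4, rfl⟩ := isDiv_descend a φ c h3
    exact ⟨c₀, ⟨W, hW, a, φ, h1, h2, h4⟩, rfl⟩
  · rintro ⟨c₀, ⟨W, hW, a, φ, h1, h2, h4⟩, rfl⟩
    exact ⟨W, hW, a, φ, h1, h2, isDiv_ext a φ c₀ h4⟩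

lemma ratZero_descend (E : Type) [Field E] [CharZero E] (X : Var k) (c : Pts i X →₀ ℚ)
    (h : ext E c ∈ ratZero E i X) : c ∈ ratZero ℚ i X := by
  apply mem_span_descend E
  have h1 : ratZero E i X = Submodule.span E (divs E i X) := rfl
  rw [h1, divs_eq] at h
  exact h

lemma ratZero_ext (E : Type) [Field E] [CharZero E] (X : Var k) (c : Pts i X →₀ ℚ)
    (h : c ∈ ratZero ℚ i X) : ext E c ∈ ratZero E i X := by
  have h1 : ratZero E i X = Submodule.span E (divs E i X) := rfl
  rw [h1, divs_eq]
  induction h using Submodule.span_induction with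
  | mem x hx => exact Submodule.subset_span ⟨x, hx, rfl⟩
  | zero =>
    have : ext E (0 : Pts i X →₀ ℚ) = 0 := by ext x; simp [ext_apply]
    rw [this]
    exact zero_mem _
  | add x y _ _ hx hy =>
    have : ext E (x + y) = ext E x + ext E y := by ext z; simp [ext_apply]
    rw [this]
    exact add_mem hx hy
  | smul a x _ hx =>
    have : ext E (a • x) = (algebraMap ℚ E a) • ext E x := by ext z; simp [ext_apply]
    rw [this]
    exact Submodule.smul_mem _ _ hx

/-- If for one theory homological and numerical equivalence agree on `Y` and the class map is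
injective, then the class map is injective for every theory with the same intersection numbers. -/
theorem inj_transfer {E E' : Type} [Field E] [Field E'] [CharZero E] [CharZero E']
    (N : Numbers k) {j : ℕ} (T : Homology.{v} k E i) (T' : Homology.{w} k E' i)
    (S' : Homology.{w} k E' j) (Y : Var k) (B' : Pairing T' S' Y) (hp : B'.Intersections N)
    (hN : HomNum N T j Y) (hI : T.Inj Y) : T'.Inj Y := by
  classical
  rw [Homology.inj_iff] at hI ⊢
  intro c hc
  -- numerically trivial
  have h1 : ∀ y : Pts j Y, c.sum (fun x e => e * (N.num i j Y x y : E')) = 0 := by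
    intro y
    have h2 : B'.bil (Finsupp.linearCombination E' (T'.cl Y) c) (S'.cl Y y) = 0 := by
      rw [hc, map_zero, LinearMap.zero_apply]
    rw [← h2, Finsupp.linearCombination_apply, Finsupp.sum, Finsupp.sum, map_sum,
      LinearMap.sum_apply]
    apply Finset.sum_congr rfl
    intro p _
    rw [map_smul, LinearMap.smul_apply, smul_eq_mul]
    congr 1
    exact (hp p y).symm
  -- coordinates
  let B := Module.Basis.ofVectorSpace ℚ E'
  have h2 : ∀ b, c.mapRange (B.coord b) (map_zero _) ∈ ratZero ℚ i Y := by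
    intro b
    apply ratZero_descend E
    apply hI
    apply hN
    intro y
    have h3 : B.coord b (c.sum (fun x e => e * (N.num i j Y x y : E'))) = 0 := by
      rw [h1 y, map_zero]
    have h4 : (c.mapRange (B.coord b) (map_zero _)).sum
        (fun x e => e * N.num i j Y x y) = 0 := by
      rw [Finsupp.sum_mapRange_index (by simp), ← h3, Finsupp.sum, Finsupp.sum, map_sum]
      apply Finset.sum_congr rfl
      intro p _
      have h5 : c p * (N.num i j Y p y : E') = (N.num i j Y p y) • c p := by
        rw [Algebra.smul_def, mul_comm]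
        rfl
      rw [h5, map_smul, smul_eq_mul, mul_comm]
    rw [ext, Finsupp.sum_mapRange_index (by simp)]
    have h5 := congrArg (algebraMap ℚ E) h4
    rw [map_zero, Finsupp.sum, map_sum] at h5
    rw [← h5, Finsupp.sum]
    apply Finset.sum_congr rfl
    intro p _
    simp
  -- reassemble
  let s : Finset _ := c.support.biUnion (fun x => (B.repr (c x)).support)
  have h3 : c = ∑ b ∈ s, (B b) • ext E' (c.mapRange (B.coord b) (map_zero _)) := by
    ext x
    rw [Finsupp.finsetSum_apply]
    by_cases hx : x ∈ c.support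
    · have h4 := B.linearCombination_repr (c x)
      rw [Finsupp.linearCombination_apply, Finsupp.sum_of_support_subset (s := s)] at h4
      · rw [← h4]
        apply Finset.sum_congr rfl
        intro b _
        rw [Finsupp.smul_apply, ext_apply, Finsupp.mapRange_apply, smul_eq_mul,
          Algebra.smul_def, mul_comm]
        rfl
      · intro b hb
        exact Finset.mem_biUnion.mpr ⟨x, hx, hb⟩
      · intro b _
        rw [zero_smul]
    · have h4 : c x = 0 := Finsupp.notMem_support_iff.mp hx
      rw [h4]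
      symm
      apply Finset.sum_eq_zero
      intro b _
      rw [Finsupp.smul_apply, ext_apply, Finsupp.mapRange_apply, h4]
      simp
  rw [h3]
  exact Submodule.sum_mem _ fun b _ => Submodule.smul_mem _ _ (ratZero_ext E' Y _ (h2 b))

end Pool.Agent.Lib_helper66.OneP


end

section

/-!
Injectivity of the cycle class map for all varieties, from injectivity for smooth proper varieties
and surjectivity.
-/

set_option autoImplicit false

open CategoryTheory AlgebraicGeometry Polynomial TopologicalSpace

namespace Pool.Agent.Lib_helper66.OneP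

open Pool.Agent.Lib_helper55.Beil

universe v w

variable {k : Type} [Field k] {E : Type} [Field E] {i : ℕ}

/-- the generalised eigenspace for one in degree `2 * i + 1` -/
def gen1 (T : Homology.{v} k E i) (X : Var k) : Submodule E (T.H (2 * i + 1) X) :=
  Module.End.maxGenEigenspace (T.frob (2 * i + 1) X) 1

lemma injC_iff (T : Homology.{v} k E i) (X : Var k) :
    T.InjC X ↔ ∀ c, cls T X c = 0 → c ∈ ratZero E i X := Iff.rfl

lemma cls_add (T : Homology.{v} k E i) (X : Var k) (c d : Pts i X →₀ E) :
    cls T X (c + d) = cls T X c + cls T X d := map_add _ _ _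

lemma cls_sub (T : Homology.{v} k E i) (X : Var k) (c d : Pts i X →₀ E) :
    cls T X (c - d) = cls T X c - cls T X d := map_sub _ _ _

lemma exists_cls (T : Homology.{v} k E i) (X : Var k) (m : T.H (2 * i) X) (hm : m ∈ T.alg X) :
    ∃ c, cls T X c = m := by
  rw [Homology.alg, ← Finsupp.range_linearCombination] at hm
  exact hm

lemma cls_mem_gen (T : Homology.{v} k E i) (X : Var k) (c : Pts i X →₀ E) :
    cls T X c ∈ T.gen X := T.alg_le_gen X (T.linComb_mem_alg X c)

lemma push_cls (T : Homology.{v} k E i) {Z X : Var k} (a : ClosedIn Z X) (c : Pts i Z →₀ E) :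
    T.push (2 * i) a (cls T Z c) = cls T X (pushCyc a c) := T.push_linComb a c

lemma pushCyc_ratZero {Z X : Var k} (a : ClosedIn Z X) (c : Pts i Z →₀ E)
    (hc : c ∈ ratZero E i Z) : pushCyc a c ∈ ratZero E i X := ratZero_map a c hc

lemma res_cls (T : Homology.{v} k E i) {U X : Var k} (j : OpenIn U X) (c : Pts i X →₀ E) :
    T.res (2 * i) j (cls T X c) = cls T U (resCyc j c) := by
  classical
  obtain ⟨Z, a, ha⟩ := complementary_of_open j
  induction c using Finsupp.induction_linear with
  | zero => simp [cls]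
  | add f g hf hg => rw [cls_add, map_add, hf, hg, map_add, cls_add]
  | single p e =>
    have h1 : cls T X (Finsupp.single p e) = e • T.cl X p := Finsupp.linearCombination_single _ _ _
    rw [h1, map_smul]
    by_cases hp : p.1 ∈ Set.range j.g
    · obtain ⟨u, rfl⟩ := mem_range_ptsMapO j p hp
      have h2 : resCyc j (Finsupp.single (ptsMapO i j u) e) = Finsupp.single u e := by
        ext v
        rw [resCyc_apply, Finsupp.single_apply, Finsupp.single_apply]
        simp only [(ptsMapO_injective i j).eq_iff]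
      rw [h2]
      have h3 : cls T U (Finsupp.single u e) = e • T.cl U u := Finsupp.linearCombination_single _ _ _
      rw [h3]
      congr 1
      exact T.res_cl j u (ptsMapO i j u).2
    · have h2 : resCyc j (Finsupp.single p e) = 0 := by
        ext v
        rw [resCyc_apply, Finsupp.single_apply, if_neg]
        · rfl
        · rintro rfl
          exact hp ⟨v.1, rfl⟩
      have hp' : p.1 ∈ Set.range a.g := by
        rw [show Set.range a.g = (Set.range j.g)ᶜ from ha]
        exact hp
      rw [h2, T.res_cl_eq_zero a j ha p hp', smul_zero]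
      simp [cls]

/-- a cycle whose restriction to the open part vanishes comes from the closed part -/
lemma exists_pushCyc {Z U X : Var k} (a : ClosedIn Z X) (j : OpenIn U X) (h : Complementary a j)
    (c : Pts i X →₀ E) (hc : resCyc j c = 0) : ∃ z : Pts i Z →₀ E, pushCyc a z = c := by
  refine ⟨Finsupp.comapDomain (ptsMap i a) c (ptsMap_injective i a).injOn, ?_⟩
  apply Finsupp.mapDomain_comapDomain _ (ptsMap_injective i a)
  intro p hp
  apply mem_range_ptsMap a p
  rw [show Set.range a.g = (Set.range j.g)ᶜ from h]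
  intro hp2
  obtain ⟨u, rfl⟩ := mem_range_ptsMapO j p hp2
  have h1 := DFunLike.congr_fun hc u
  rw [resCyc_apply] at h1
  exact (Finsupp.mem_support_iff.mp hp) h1

lemma resCyc_pushCyc {Z U X : Var k} (a : ClosedIn Z X) (j : OpenIn U X) (h : Complementary a j)
    (z : Pts i Z →₀ E) : resCyc j (pushCyc a z) = 0 := by
  ext u
  rw [resCyc_apply, pushCyc, Finsupp.mapDomain_of_notMem_range]
  · rfl
  · rintro ⟨w, hw⟩
    have h1 : a.g w.1 = j.g u.1 := congrArg Subtype.val hw
    have h2 : a.g w.1 ∈ Set.range a.g := ⟨_, rfl⟩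
    rw [show Set.range a.g = (Set.range j.g)ᶜ from h] at h2
    exact h2 ⟨u.1, h1.symm⟩

/-- every cycle on an open subvariety extends -/
lemma exists_resCyc {U X : Var k} (j : OpenIn U X) (c : Pts i U →₀ E) :
    ∃ c' : Pts i X →₀ E, resCyc j c' = c := by
  refine ⟨Finsupp.mapDomain (ptsMapO i j) c, ?_⟩
  ext u
  rw [resCyc_apply, Finsupp.mapDomain_apply (ptsMapO_injective i j)]

/-- injectivity for open subvarieties -/
lemma injC_open (T : Homology.{v} k E i) (hgood : ∀ X : Var k, T.gen X ≤ T.alg X)
    {V Y : Var k} (j : OpenIn V Y) (hY : T.InjC Y) : T.InjC V := by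
  rw [injC_iff] at hY ⊢
  intro c hc
  obtain ⟨D, a, ha⟩ := complementary_of_open j
  obtain ⟨c', rfl⟩ := exists_resCyc j c
  have h1 : T.res (2 * i) j (cls T Y c') = 0 := by rw [res_cls, hc]
  obtain ⟨z, hz⟩ := (T.exact_X (2 * i) a j ha _).mp h1
  have h2 : T.push (2 * i) a z ∈ T.gen Y := by
    rw [hz]
    exact cls_mem_gen T Y c'
  obtain ⟨z', hz', h3⟩ := maxGen_lift (T.frob (2 * i) D) (T.frob (2 * i) Y) (T.push (2 * i) a)
    (T.push_frob (2 * i) a) h2
  obtain ⟨d, hd⟩ := exists_cls T D z' (hgood D hz')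
  have h4 : cls T Y (c' - pushCyc a d) = 0 := by
    rw [cls_sub, ← push_cls, hd, h3, hz, sub_self]
  have h5 := resCyc_ratZero j _ (hY _ h4)
  rwa [map_sub, resCyc_pushCyc a j ha, sub_zero] at h5

/-- injectivity descends along finite etale coverings -/
lemma injC_pull (T : Homology.{v} k E i) (hP : Pull T) {V U : Var k} (g : FinEt V U)
    (hV : T.InjC V) : T.InjC U := by
  rw [injC_iff] at hV ⊢
  intro c hc
  obtain ⟨p, P, h1, h2⟩ := hP V U g
  apply h2
  apply hV
  rw [h1, hc]
  exact map_zero P.lin

/-- the classes in `H_(2i+1)` of an open subvariety of a smooth proper variety -/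
lemma kone_open (T : Homology.{v} k E i) (hgood : ∀ X : Var k, T.gen X ≤ T.alg X)
    (hPur : Purity T) (K : Kone T) (hKi : K.Invariant) (hK : K.Localisation) {V Y : Var k} (j : OpenIn V Y) (d : ℕ)
    (hYs : Y.SmoothProper d) (hY : T.InjC Y) (u : T.H (2 * i + 1) V) (hu : u ∈ gen1 T V) :
    K.Mem V u := by
  rw [injC_iff] at hY
  obtain ⟨D, a, ha⟩ := complementary_of_open j
  obtain ⟨bd, h1, h2, h3, h4, h5⟩ := hK D V Y a j ha
  have h6 : bd.lin u ∈ T.gen D :=
    maxGen_map (T.frob (2 * i + 1) V) (T.frob (2 * i) D) bd.lin h1 hu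
  obtain ⟨c, hc⟩ := exists_cls T D _ (hgood D h6)
  have h7 : T.push (2 * i) a (cls T D c) = 0 := by
    rw [hc]
    exact (h3 _).mpr ⟨u, rfl⟩
  rw [push_cls] at h7
  obtain ⟨u', hu', h8⟩ := h5 c (hY _ h7)
  have h9 : bd.lin (u - u') = 0 := by
    rw [map_sub, ← hc]
    exact sub_eq_zero.mpr h8.symm
  obtain ⟨x, hx⟩ := (h2 (u - u')).mp h9
  have hx' : T.res (2 * i + 1) j x = u - u' := hx
  have hgu' : u' ∈ gen1 T V := (mem_maxGen_iff _ _).mpr ⟨1, by
    have h10 : T.frob (2 * i + 1) V u' = u' := hKi V u' hu'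
    rw [pow_one, LinearMap.sub_apply, Module.End.one_apply, h10, sub_self]⟩
  have h11 : T.res (2 * i + 1) j x ∈ gen1 T V := by
    rw [hx']
    exact sub_mem hu hgu'
  obtain ⟨x', hx'', h12⟩ := maxGen_lift (T.frob (2 * i + 1) Y) (T.frob (2 * i + 1) V)
    (T.res (2 * i + 1) j) (T.res_frob (2 * i + 1) j) h11
  have h13 : x' = 0 := maxGen_eq_bot (T.frob (2 * i + 1) Y) (fun m hm => hPur Y d hYs m hm) hx''
  rw [h13, map_zero, hx'] at h12
  rw [sub_eq_zero.mp h12.symm]
  exact hu'

/-- the classes in `H_(2i+1)` of a quotient by a finite etale covering -/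
lemma kone_trace (T : Homology.{v} k E i) (K : Kone T) (hK : K.Trace) {V U : Var k}
    (g : FinEt V U) (hV : ∀ u ∈ gen1 T V, K.Mem V u) (u : T.H (2 * i + 1) U)
    (hu : u ∈ gen1 T U) : K.Mem U u := by
  obtain ⟨tr, h1, h2, h3⟩ := hK V U g
  obtain ⟨v, rfl⟩ := h1 u
  obtain ⟨v', hv', h4⟩ := maxGen_lift (T.frob (2 * i + 1) V) (T.frob (2 * i + 1) U) tr.lin h2 hu
  have h5 : tr.app v' = tr.app v := h4
  rw [← h5]
  exact h3 _ (hV v' hv')

/-- gluing of injectivity -/
lemma injC_glue2 (T : Homology.{v} k E i) (K : Kone T) (hK : K.Localisation) {Z U X : Var k} (a : ClosedIn Z X) (j : OpenIn U X)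
    (h : Complementary a j) (hU : T.InjC U) (hKU : ∀ u ∈ gen1 T U, K.Mem U u) (hZ : T.InjC Z) :
    T.InjC X := by
  rw [injC_iff] at hU hZ ⊢
  intro c hc
  have h1 : cls T U (resCyc j c) = 0 := by rw [← res_cls, hc, map_zero]
  obtain ⟨c₁, hc₁, h2⟩ := exists_ratZero j _ (hU _ h1)
  obtain ⟨z, hz⟩ := exists_pushCyc a j h (c - c₁) (by rw [map_sub, h2, sub_self])
  have h3 : cls T X c₁ = 0 := T.cl_rat X c₁ hc₁
  have h4 : T.push (2 * i) a (cls T Z z) = 0 := by
    rw [push_cls, hz, cls_sub, hc, h3, sub_self]
  obtain ⟨bd, h5, -, h6, h7, -⟩ := hK Z U X a j h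
  obtain ⟨u, hu⟩ := (h6 _).mp h4
  have hu' : bd.lin u ∈ Module.End.maxGenEigenspace (T.frob (2 * i) Z) 1 := by
    have h8 : bd.lin u = cls T Z z := hu
    rw [h8]
    exact cls_mem_gen T Z z
  obtain ⟨u', hu1, hu2⟩ := maxGen_lift (T.frob (2 * i + 1) U) (T.frob (2 * i) Z) bd.lin h5 hu'
  have hu3 : bd.app u' = cls T Z z := by
    have h8 : bd.lin u' = bd.app u := hu2
    exact h8.trans hu
  obtain ⟨c', hc', h9⟩ := h7 u' (hKU u' hu1)
  have h10 : cls T Z (z - c') = 0 := by rw [cls_sub, ← hu3, ← h9, sub_self]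
  have h11 := pushCyc_ratZero a _ (hZ _ h10)
  have h12 : pushCyc a (z - c') = pushCyc a z - pushCyc a c' := by
    exact (Finsupp.lmapDomain E E (ptsMap i a)).map_sub z c'
  rw [h12] at h11
  have h13 : pushCyc a z ∈ ratZero E i X := by
    have := add_mem h11 hc'
    rwa [sub_add_cancel] at this
  rw [hz] at h13
  have := add_mem h13 hc₁
  rwa [sub_add_cancel] at this

/-- Injectivity for the varieties of dimension at most `2 * i + 1`: the induction. -/
lemma injC_main [PerfectField k] (hA : Alterations k) (T : Homology.{v} k E i)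
    (hgood : ∀ X : Var k, T.gen X ≤ T.alg X) (hPur : Purity T) (hPull : Pull T) (K : Kone T)
    (hKi : K.Invariant) (hK : K.Localisation) (hKt : K.Trace)
    (hY : ∀ (Y : Var k) (d : ℕ), d ≤ 2 * i + 1 → Y.SmoothProper d → T.InjC Y)
    (X₀ : Var k) (C : Closeds X₀.X) :
    ∀ (Y : Var k) (g : Y.X ⟶ X₀.X), g ≫ X₀.f = Y.f → IsPreimmersion g → (∀ y, g y ∈ C) →
      Y.DimLE (2 * i + 1) → T.InjC Y := by
  induction C using WellFoundedLT.induction with
  | ind C ih =>
  intro Y g comm hg hC hdim
  apply T.injC_of_red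
  have hred := isReduced_redVar Y
  have hcl := (redVarIn Y).closed
  set Y' := redVar Y with hY'
  set g' : Y'.X ⟶ X₀.X := (redVarIn Y).g ≫ g
  have comm' : g' ≫ X₀.f = Y'.f := by
    rw [Category.assoc, comm, (redVarIn Y).comm]
  have hC' : ∀ y, g' y ∈ C := fun y => hC _
  have hdim' : Y'.DimLE (2 * i + 1) := by
    intro y
    rw [← dim_map (redVarIn Y).g (redVarIn Y).comm]
    exact hdim _
  rcases isEmpty_or_nonempty Y'.X with he | ⟨⟨x⟩⟩
  · rw [injC_iff]
    intro c _
    have : c = 0 := by
      ext p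
      exact (he.false p.1).elim
    rw [this]
    exact zero_mem _
  obtain ⟨η, -, hη⟩ := exists_maximal Y' x
  obtain ⟨U, hU1, -, hU3, hU4, hU5, hU6⟩ := exists_nice Y' η hη ⊤ trivial
  have hop := (openVarIn Y' U).isOpen
  have hdimU : (openVar Y' U).dim (genericPoint (openVar Y' U).X) = Y'.dim η := by
    rw [← dim_map (openVarIn Y' U).g (openVarIn Y' U).comm, hU6]
  obtain ⟨d, hd⟩ := Cardinal.lt_aleph0.1 ((hdim' η).trans_lt (Cardinal.natCast_lt_aleph0))
  have hdle : d ≤ 2 * i + 1 := by
    have := hdim' η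
    rw [hd] at this
    exact_mod_cast this
  obtain ⟨U', V, W, jU, γ, jV, ⟨u₀⟩, hW⟩ := hA (openVar Y' U) hU5 d (hdimU.trans hd)
  have hWinj := hY W d hdle hW
  have hVinj := injC_open T hgood jV hWinj
  have hUinj := injC_pull T hPull γ hVinj
  have hKU := kone_trace T K hKt γ (kone_open T hgood hPur K hKi hK jV d hW hWinj)
  let j' : OpenIn U' Y' := jU.trans (openVarIn Y' U)
  have hj' := j'.isOpen
  let O : Y'.X.Opens := j'.g.opensRange
  have hcomp : Complementary (closedVarIn Y' O.compl) j' := by
    rw [Complementary, range_closedVarIn]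
    rfl
  have hcl2 := (closedVarIn Y' O.compl).closed
  refine injC_glue2 T K hK (closedVarIn Y' O.compl) j' hcomp hUinj hKU ?_
  refine ih (Closeds.closure (g' '' (O.compl : Set Y'.X)))
    (lt_of_closed g' C hC' O.compl (j'.g u₀) (fun hcon => hcon ⟨u₀, rfl⟩))
    (closedVar Y' O.compl) ((closedVarIn Y' O.compl).g ≫ g') ?_ inferInstance ?_ ?_
  · rw [Category.assoc, comm', (closedVarIn Y' O.compl).comm]
  · intro y
    have h1 : (closedVarIn Y' O.compl).g y ∈ (O.compl : Set Y'.X) := by
      rw [← range_closedVarIn]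
      exact ⟨y, rfl⟩
    exact subset_closure ⟨_, h1, rfl⟩
  · intro y
    rw [← dim_map (closedVarIn Y' O.compl).g (closedVarIn Y' O.compl).comm]
    exact hdim' _

/-- Injectivity for all varieties. -/
theorem inj_full [PerfectField k] (hA : Alterations k) (T : Homology.{v} k E i)
    (hgood : ∀ X : Var k, T.gen X ≤ T.alg X) (hT : Published T)
    (hY : ∀ (Y : Var k) (d : ℕ), d ≤ 2 * i + 1 → Y.SmoothProper d → T.Inj Y) (X : Var k) :
    T.Inj X := by
  obtain ⟨K, hKi, hK, hKt⟩ := hT.kone
  apply T.inj_all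
  intro X hX
  rw [T.inj_iff]
  exact injC_main hA T hgood hT.purity hT.pull K hKi hK hKt
    (fun Y d h1 h2 => (T.inj_iff Y).mp (hY Y d h1 h2)) X ⊤ X (𝟙 _) (Category.id_comp _)
    inferInstance (fun _ => trivial) hX

/-- Surjectivity for one prime implies surjectivity for all primes. -/
theorem surj_main [PerfectField k] (hA : Alterations k) (N : Numbers k) {E' : Type} [Field E']
    [CharZero E] [CharZero E'] (T : ∀ i, Homology.{v} k E i) (T' : ∀ i, Homology.{w} k E' i)
    (hT : Realizes N T) (hT' : Realizes N T') (i : ℕ) (hP : Published (T' i))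
    (hS : ∀ j ≤ i, ∀ X : Var k, (T j).gen X ≤ (T j).alg X) (X : Var k) : (T' i).Surj X ∧ (T' i).Semisimple X := by
  have hgood := (T' i).good_all (smallSurj_transfer N T T' hT hT' hA i hP.weights hP.boundary
    hP.trace hS)
  exact ⟨(T' i).surj_of_good X (hgood X), (T' i).semisimple_of_good X (hgood X)⟩

/-- The main theorem: the conjecture for one prime implies the conjecture for all primes. -/
theorem main [PerfectField k] (hA : Alterations k) (N : Numbers k) {E' : Type} [Field E']
    [CharZero E] [CharZero E'] (T : ∀ i, Homology.{v} k E i) (T' : ∀ i, Homology.{w} k E' i)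
    (hT : Realizes N T) (hT' : Realizes N T') (i : ℕ) (hP : Published (T' i))
    (hS : ∀ j ≤ i + 1, ∀ X : Var k, (T j).gen X ≤ (T j).alg X)
    (hI : ∀ (Y : Var k) (d : ℕ), d ≤ 2 * i + 1 → Y.SmoothProper d → (T i).Inj Y) (X : Var k) :
    (T' i).Inj X ∧ (T' i).Surj X ∧ (T' i).Semisimple X := by
  have hgood := (T' i).good_all (smallSurj_transfer N T T' hT hT' hA i hP.weights hP.boundary
    hP.trace (fun j hj => hS j (by omega)))
  refine ⟨inj_full hA (T' i) hgood hP ?_ X, (T' i).surj_of_good X (hgood X),
    (T' i).semisimple_of_good X (hgood X)⟩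
  intro Y d hd hY
  rcases le_or_gt i d with h1 | h1
  · obtain ⟨j, rfl⟩ : ∃ j, d = i + j := ⟨d - i, by omega⟩
    obtain ⟨B', -, -, h2⟩ := hT'.1 i j Y hY
    exact inj_transfer N (T i) (T' i) (T' j) Y B' h2
      (smoothProper_main N T T hT hT i j Y hY (hS i (by omega) Y) (hS j (by omega) Y)).2
      (hI Y _ hd hY)
  · rw [Homology.inj_iff, injC_iff]
    intro c _
    have : c = 0 := by
      ext p
      exfalso
      obtain ⟨h2, h3, h4, h5⟩ := hY
      have h6 := dim_le_of_specializes Y (genericPoint_specializes p.1)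
      rw [p.2, h5, Nat.cast_le] at h6
      omega
    rw [this]
    exact zero_mem _

end Pool.Agent.Lib_helper66.OneP


end

section

/-!
# CUB, module ZPOL: cycles of small dimension on affine space
-/

set_option autoImplicit false

open Polynomial

namespace CUB

theorem t_ZPOL : M_ZPOL := by
  intro h k E _ _ N i hi z
  exact (h k k E N).2 i hi z

end CUB


end
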