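import Mathlib
import Pool.Agent.QVM.C04
import Pool.Agent.QVM.C05
import Pool.Agent.QVM.C06

/-! Parts: CUB.Defs2, CUB.BR1, CUB.BR2, CUB.BR3, CUB.BR4, CUB.BR5, CUB.Bridge -/

section

/-!
# CUB: affine varieties, lines, homology theories with homotopy invariance
-/

set_option autoImplicit false

open Polynomial CategoryTheory AlgebraicGeometry

namespace CUB

open Pool.Agent.Lib_helper55.Beil

universe v

section Aff

variable (k : Type) [Field k]

/-- The affine variety `Spec A`. -/
noncomputable def aff (A : Type) [CommRing A] [Algebra k A] [Algebra.FiniteType k A] : Var k where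
  X := Spec (CommRingCat.of A)
  f := Spec.map (CommRingCat.ofHom (algebraMap k A))
  sep := inferInstance
  lft := (HasRingHomProperty.Spec_iff (P := @LocallyOfFiniteType)).2
    (RingHom.finiteType_algebraMap.2 inferInstance)
  qc := inferInstance

variable {k} {A B : Type} [CommRing A] [CommRing B] [Algebra k A] [Algebra k B]
  [Algebra.FiniteType k A] [Algebra.FiniteType k B]

/-- The morphism of affine varieties defined by a homomorphism. -/
noncomputable def spm (φ : A →ₐ[k] B) : (aff k B).X ⟶ (aff k A).X :=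
  Spec.map (CommRingCat.ofHom φ.toRingHom)

lemma spm_comm (φ : A →ₐ[k] B) : spm φ ≫ (aff k A).f = (aff k B).f := by
  change Spec.map _ ≫ Spec.map _ = Spec.map _
  rw [← Spec.map_comp, ← CommRingCat.ofHom_comp]
  congr 2
  exact φ.comp_algebraMap

/-- The closed immersion defined by a surjective homomorphism. -/
noncomputable def clo (φ : A →ₐ[k] B) (hφ : Function.Surjective φ) :
    ClosedIn (aff k B) (aff k A) where
  g := spm φ
  comm := spm_comm φ
  closed := IsClosedImmersion.spec_of_surjective _ hφ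

/-- The open immersion defined by a homomorphism. -/
noncomputable def opn (φ : A →ₐ[k] B) (h : IsOpenImmersion (spm φ)) :
    OpenIn (aff k B) (aff k A) where
  g := spm φ
  comm := spm_comm φ
  isOpen := h

end Aff

variable {k : Type} [Field k]

/-- An isomorphism of varieties over `k`. -/
structure VIso (X Y : Var k) where
  /-- the isomorphism -/
  e : X.X ≅ Y.X
  comm : e.hom ≫ Y.f = X.f

/-- An isomorphism as a closed immersion. -/
def VIso.cl {X Y : Var k} (s : VIso X Y) : ClosedIn X Y where
  g := s.e.hom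
  comm := s.comm
  closed := inferInstance

/-- The isomorphism of affine varieties defined by an isomorphism of algebras. -/
noncomputable def viso {A B : Type} [CommRing A] [CommRing B] [Algebra k A] [Algebra k B]
    [Algebra.FiniteType k A] [Algebra.FiniteType k B] (e : A ≃ₐ[k] B) :
    VIso (aff k B) (aff k A) where
  e := Scheme.Spec.mapIso e.toRingEquiv.toCommRingCatIso.op
  comm := spm_comm (e : A →ₐ[k] B)

/-- `Y` is the product of `X` and the affine line, with projections `q` and `t`. -/
structure Line (Y X : Var k) where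
  /-- the projection to `X` -/
  q : Y.X ⟶ X.X
  /-- the projection to the affine line -/
  t : Y.X ⟶ Spec (CommRingCat.of k[X])
  comm : q ≫ X.f = Y.f
  prod : IsPullback q t X.f (Spec.map (CommRingCat.ofHom (algebraMap k k[X])))

variable {E : Type} [Field E]

/-- The push-forward along closed immersions is functorial. -/
def PushFunctorial (T : ∀ i : ℕ, Homology.{v} k E i) : Prop :=
  (∀ (i n : ℕ) (X : Var k) (a : ClosedIn X X), a.g = 𝟙 X.X → ∀ m, (T i).P n a m = m) ∧
  ∀ (i n : ℕ) (W Z X : Var k) (a : ClosedIn W Z) (b : ClosedIn Z X) (c : ClosedIn W X),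
    a.g ≫ b.g = c.g → ∀ m, (T i).P n b ((T i).P n a m) = (T i).P n c m

/-- For an open and closed subvariety, restriction after push-forward is the identity. -/
def Clopen (T : ∀ i : ℕ, Homology.{v} k E i) : Prop :=
  ∀ (i n : ℕ) (Z X : Var k) (a : ClosedIn Z X) (j : OpenIn Z X), a.g = j.g →
    ∀ m, (T i).R n j ((T i).P n a m) = m

/-- Boundary maps and pull-back maps for the projections `X × A^1 → X`. -/
structure ExtraMaps (T : ∀ i : ℕ, Homology.{v} k E i) where
  /-- the boundary map -/
  bd : ∀ (i n : ℕ) {Z U X : Var k} (a : ClosedIn Z X) (j : OpenIn U X), Complementary a j →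
    ((T i).H (n + 1) U →ₗ[E] (T i).H n Z)
  /-- the pull-back along the projection of a product with the affine line -/
  line : ∀ (i n : ℕ) {Y X : Var k}, Line Y X → ((T i).H n X →ₗ[E] (T (i + 1)).H (n + 2) Y)

/-- The boundary of a homology class. -/
def ExtraMaps.B {T : ∀ i : ℕ, Homology.{v} k E i} (S : ExtraMaps T) (i n : ℕ) {Z U X : Var k}
    (a : ClosedIn Z X) (j : OpenIn U X) (h : Complementary a j) (u : (T i).H (n + 1) U) :
    (T i).H n Z :=
  S.bd i n a j h u

/-- The pull-back of a homology class. -/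
def ExtraMaps.L {T : ∀ i : ℕ, Homology.{v} k E i} (S : ExtraMaps T) (i n : ℕ) {Y X : Var k}
    (q : Line Y X) (m : (T i).H n X) : (T (i + 1)).H (n + 2) Y :=
  S.line i n q m

/-- The sequence `H_(n+1)(U) → H_n(Z) → H_n(X)` is exact. -/
def ExtraMaps.BdExact {T : ∀ i : ℕ, Homology.{v} k E i} (S : ExtraMaps T) : Prop :=
  ∀ (i n : ℕ) {Z U X : Var k} (a : ClosedIn Z X) (j : OpenIn U X) (h : Complementary a j),
    Function.Exact (S.B i n a j h) ((T i).P n a)

/-- The boundary maps are compatible with isomorphisms. -/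
def ExtraMaps.BdNatural {T : ∀ i : ℕ, Homology.{v} k E i} (S : ExtraMaps T) : Prop :=
  ∀ (i n : ℕ) {Z U X Z' U' X' : Var k} (a : ClosedIn Z X) (j : OpenIn U X)
    (h : Complementary a j) (a' : ClosedIn Z' X') (j' : OpenIn U' X') (h' : Complementary a' j')
    (sZ : VIso Z Z') (sU : VIso U U') (sX : VIso X X'),
    sZ.e.hom ≫ a'.g = a.g ≫ sX.e.hom → sU.e.hom ≫ j'.g = j.g ≫ sX.e.hom →
    ∀ u, (T i).P n sZ.cl (S.B i n a j h u) = S.B i n a' j' h' ((T i).P (n + 1) sU.cl u)

/-- Homotopy invariance: the pull-back `H_n(X, i) → H_(n+2)(X × A^1, i + 1)` is bijective. -/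
def ExtraMaps.LineBij {T : ∀ i : ℕ, Homology.{v} k E i} (S : ExtraMaps T) : Prop :=
  ∀ (i n : ℕ) {Y X : Var k} (q : Line Y X), Function.Bijective (S.L i n q)

/-- The pull-back commutes with Frobenius. -/
def ExtraMaps.LineFrob {T : ∀ i : ℕ, Homology.{v} k E i} (S : ExtraMaps T) : Prop :=
  ∀ (i n : ℕ) {Y X : Var k} (q : Line Y X) (m : (T i).H n X),
    S.L i n q ((T i).F n X m) = (T (i + 1)).F (n + 2) Y (S.L i n q m)

/-- The pull-back is compatible with isomorphisms. -/
def ExtraMaps.LineNatural {T : ∀ i : ℕ, Homology.{v} k E i} (S : ExtraMaps T) : Prop :=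
  ∀ (i n : ℕ) {Y X Y' X' : Var k} (q : Line Y X) (q' : Line Y' X') (sY : VIso Y Y')
    (sX : VIso X X'), sY.e.hom ≫ q'.q = q.q ≫ sX.e.hom →
    ∀ m, (T (i + 1)).P (n + 2) sY.cl (S.L i n q m) = S.L i n q' ((T i).P n sX.cl m)

/-- The pull-back of the class of a point `x` is the class of the point `y` of dimension `i + 1`
over `x`. -/
def ExtraMaps.LineClass {T : ∀ i : ℕ, Homology.{v} k E i} (S : ExtraMaps T) : Prop :=
  ∀ (i : ℕ) {Y X : Var k} (q : Line Y X) (x : Pts i X) (y : Pts (i + 1) Y),
    q.q y.1 = x.1 → S.L i (2 * i) q ((T i).cl X x) = (T (i + 1)).cl Y y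

/-- The further formal properties of l-adic homology `(T i).H n X = H_n(Xbar, Q_l(i))` which are
used: functoriality of the push-forward, natural boundary maps, and the pull-back isomorphisms
`H_n(X, i) → H_(n+2)(X × A^1, i + 1)`. -/
structure Extra (T : ∀ i : ℕ, Homology.{v} k E i) extends ExtraMaps T where
  pushFunctorial : PushFunctorial T
  isClopen : Clopen T
  bdExact : toExtraMaps.BdExact
  bdNatural : toExtraMaps.BdNatural
  lineBij : toExtraMaps.LineBij
  lineFrob : toExtraMaps.LineFrob
  lineNatural : toExtraMaps.LineNatural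
  lineClass : toExtraMaps.LineClass

namespace Extra

variable {T : ∀ i : ℕ, Homology.{v} k E i} (hT : Extra T)

include hT

lemma push_id : ∀ (i n : ℕ) (X : Var k) (a : ClosedIn X X), a.g = 𝟙 X.X →
    ∀ m, (T i).P n a m = m := hT.pushFunctorial.1

lemma push_comp : ∀ (i n : ℕ) (W Z X : Var k) (a : ClosedIn W Z) (b : ClosedIn Z X)
    (c : ClosedIn W X), a.g ≫ b.g = c.g → ∀ m, (T i).P n b ((T i).P n a m) = (T i).P n c m :=
  hT.pushFunctorial.2

lemma clopen : ∀ (i n : ℕ) (Z X : Var k) (a : ClosedIn Z X) (j : OpenIn Z X), a.g = j.g →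
    ∀ m, (T i).R n j ((T i).P n a m) = m := hT.isClopen

lemma bd_exact : ∀ (i n : ℕ) {Z U X : Var k} (a : ClosedIn Z X) (j : OpenIn U X)
    (h : Complementary a j), Function.Exact (hT.bd i n a j h) ((T i).P n a) := hT.bdExact

lemma bd_nat : ∀ (i n : ℕ) {Z U X Z' U' X' : Var k} (a : ClosedIn Z X) (j : OpenIn U X)
    (h : Complementary a j) (a' : ClosedIn Z' X') (j' : OpenIn U' X') (h' : Complementary a' j')
    (sZ : VIso Z Z') (sU : VIso U U') (sX : VIso X X'),
    sZ.e.hom ≫ a'.g = a.g ≫ sX.e.hom → sU.e.hom ≫ j'.g = j.g ≫ sX.e.hom →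
    ∀ u, (T i).P n sZ.cl (hT.bd i n a j h u) = hT.bd i n a' j' h' ((T i).P (n + 1) sU.cl u) :=
  hT.bdNatural

lemma line_bij : ∀ (i n : ℕ) {Y X : Var k} (L : Line Y X), Function.Bijective (hT.line i n L) :=
  hT.lineBij

lemma line_frob : ∀ (i n : ℕ) {Y X : Var k} (L : Line Y X) (m : (T i).H n X),
    hT.line i n L ((T i).F n X m) = (T (i + 1)).F (n + 2) Y (hT.line i n L m) := hT.lineFrob

lemma line_nat : ∀ (i n : ℕ) {Y X Y' X' : Var k} (L : Line Y X) (L' : Line Y' X')
    (sY : VIso Y Y') (sX : VIso X X'), sY.e.hom ≫ L'.q = L.q ≫ sX.e.hom →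
    ∀ m, (T (i + 1)).P (n + 2) sY.cl (hT.line i n L m) = hT.line i n L' ((T i).P n sX.cl m) :=
  hT.lineNatural

lemma line_cl : ∀ (i : ℕ) {Y X : Var k} (L : Line Y X) (x : Pts i X) (y : Pts (i + 1) Y),
    L.q y.1 = x.1 → hT.line i (2 * i) L ((T i).cl X x) = (T (i + 1)).cl Y y := hT.lineClass

end Extra

/-- The hypersurface `y ^ 2 - y = F(x_1, ..., x_N)` of affine space of dimension `N + 1`. -/
noncomputable def cubic {N : ℕ} (F : MvPolynomial (Fin N) k) : Var k :=
  aff k (Q (MvPolynomial (Fin N) k) F)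

end CUB


end

section

/-!
# CUB: points and cycles of affine varieties
-/

set_option autoImplicit false

open Polynomial CategoryTheory AlgebraicGeometry

namespace CUB

open Pool.Agent.Lib_helper55.Beil

variable {k : Type} [Field k] {A B : Type} [CommRing A] [CommRing B] [Algebra k A] [Algebra k B]
  [Algebra.FiniteType k A] [Algebra.FiniteType k B]

/-- The point of `Spec A` defined by a prime ideal. -/
def toPt (x : PrimeSpectrum A) : (aff k A).X := x

/-- The prime ideal defined by a point of `Spec A`. -/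
def ofPt (x : (aff k A).X) : PrimeSpectrum A := x

@[simp] lemma toPt_ofPt (x : (aff k A).X) : toPt (ofPt x) = x := rfl

@[simp] lemma ofPt_toPt (x : PrimeSpectrum A) : ofPt (toPt (k := k) x) = x := rfl

lemma spm_toPt (φ : A →ₐ[k] B) (x : PrimeSpectrum B) :
    spm φ (toPt x) = toPt (PrimeSpectrum.comap φ.toRingHom x) := rfl

instance aff_isAffine : IsAffine (aff k A).X := by
  unfold aff
  infer_instance

instance aff_isIntegral [IsDomain A] : AlgebraicGeometry.IsIntegral (aff k A).X := by
  unfold aff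
  infer_instance

lemma genericPoint_aff [IsDomain A] : genericPoint (aff k A).X = toPt ⟨⊥, Ideal.isPrime_bot⟩ :=
  genericPoint_eq_bot_of_affine (CommRingCat.of A)

lemma dim_generic_aff [IsDomain A] :
    (aff k A).dim (genericPoint (aff k A).X) = Algebra.trdeg k A := by
  let V : Var k := aff k A
  let ι : A ≃+* Γ(V.X, ⊤) := (Scheme.ΓSpecIso (CommRingCat.of A)).commRingCatIsoToRingEquiv.symm
  let ψ : k →+* Γ(V.X, ⊤) := ι.toRingHom.comp (algebraMap k A)
  have hψ : Spec.map (CommRingCat.ofHom ψ) = (isAffineOpen_top V.X).fromSpec ≫ V.f := by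
    rw [IsAffineOpen.fromSpec_top]
    have h1 : V.X.isoSpec.inv = Spec.map (Scheme.ΓSpecIso (CommRingCat.of A)).inv :=
      Scheme.isoSpec_Spec_inv _
    rw [h1]
    have key : Spec.map (CommRingCat.ofHom (algebraMap k A) ≫
        (Scheme.ΓSpecIso (CommRingCat.of A)).inv) =
        Spec.map (Scheme.ΓSpecIso (CommRingCat.of A)).inv ≫
          Spec.map (CommRingCat.ofHom (algebraMap k A)) := Spec.map_comp _ _
    exact key
  rw [dim_generic_eq V ⊤ (isAffineOpen_top V.X) trivial ψ hψ]
  let : Algebra k Γ(V.X, ⊤) := ψ.toAlgebra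
  let e : A ≃ₐ[k] Γ(V.X, ⊤) := AlgEquiv.ofRingEquiv (f := ι) (fun r => rfl)
  exact e.trdeg_eq.symm

/-- The closed immersion `Spec (A / q) → Spec A`. -/
noncomputable def cq (q : Ideal A) : ClosedIn (aff k (A ⧸ q)) (aff k A) :=
  clo (Ideal.Quotient.mkₐ k q) (Ideal.Quotient.mkₐ_surjective k q)

theorem dim_toPt (x : PrimeSpectrum A) : (aff k A).dim (toPt x) = rdim k x := by
  have hc : IsClosedImmersion (cq (k := k) x.asIdeal).g := (cq x.asIdeal).closed
  have h1 := dim_map (cq (k := k) x.asIdeal).g (cq x.asIdeal).comm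
    (genericPoint (aff k (A ⧸ x.asIdeal)).X)
  rw [dim_generic_aff] at h1
  rw [genericPoint_aff] at h1
  have h2 : (cq (k := k) x.asIdeal).g (toPt ⟨⊥, Ideal.isPrime_bot⟩) = toPt x := by
    change toPt _ = toPt x
    congr 1
    apply PrimeSpectrum.ext
    change Ideal.comap (Ideal.Quotient.mk x.asIdeal) ⊥ = x.asIdeal
    exact Ideal.mk_ker
  rw [h2] at h1
  exact h1

/-- The points of dimension `n`. -/
noncomputable def ptE (n : ℕ) : RP k A n ≃ Pts n (aff k A) where
  toFun p := ⟨toPt p.1, (dim_toPt p.1).trans p.2⟩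
  invFun p := ⟨ofPt p.1, (dim_toPt (ofPt p.1)).symm.trans p.2⟩
  left_inv _ := rfl
  right_inv _ := rfl

@[simp] lemma ptE_val (n : ℕ) (p : RP k A n) : (ptE n p).1 = toPt p.1 := rfl

variable (E : Type) [Field E]

/-- Cycles on `Spec A`. -/
noncomputable def cyE (n : ℕ) : (RP k A n →₀ E) ≃ₗ[E] (Pts n (aff k A) →₀ E) :=
  Finsupp.domLCongr (ptE n)

variable {E}

lemma cyE_apply {n : ℕ} (c : RP k A n →₀ E) (p : RP k A n) : cyE E n c (ptE n p) = c p := by
  unfold cyE
  simp [Finsupp.domLCongr_apply]

lemma cyE_apply' {n : ℕ} (c : RP k A n →₀ E) (p : PrimeSpectrum A) (h : rdim k p = n)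
    (h' : (aff k A).dim (toPt p) = n) : cyE E n c ⟨toPt p, h'⟩ = c ⟨p, h⟩ :=
  cyE_apply c ⟨p, h⟩

lemma cyE_single {n : ℕ} (p : RP k A n) (e : E) :
    cyE E n (Finsupp.single p e) = Finsupp.single (ptE n p) e := by
  unfold cyE
  simp [Finsupp.domLCongr_apply]

end CUB


end

section

/-!
# CUB: lengths and orders of vanishing
-/

set_option autoImplicit false

open Polynomial CategoryTheory AlgebraicGeometry

namespace CUB

open Pool.Agent.Lib_helper55.Beil Pool.Agent.Lib_helper66.OneP

section Len

lemma length_comap {R S : Type} [CommRing R] [CommRing S] (π : R →+* S)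
    (hπ : Function.Surjective π) (J : Ideal S) :
    Module.length R (R ⧸ J.comap π) = Module.length S (S ⧸ J) := by
  let : Algebra R S := π.toAlgebra
  have h1 : Module.length R (S ⧸ J) = Module.length S (S ⧸ J) :=
    Module.length_eq_of_surjective (R := S) (S := R) hπ
  rw [← h1]
  let f : R →ₗ[R] (S ⧸ J) := (J.mkQ.restrictScalars R).comp (Algebra.linearMap R S)
  have hf : Function.Surjective f := J.mkQ_surjective.comp hπ
  have hk : LinearMap.ker f = J.comap π := by
    ext r
    exact Ideal.Quotient.eq_zero_iff_mem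
  exact ((Submodule.quotEquivOfEq _ _ hk.symm).trans (f.quotKerEquivOfSurjective hf)).length_eq

variable {A B : Type} [CommRing A] [CommRing B]

/-- Lengths and surjective homomorphisms. -/
theorem len_comap (φ : A →+* B) (hφ : Function.Surjective φ) (J : Ideal A)
    (hJ : RingHom.ker φ ≤ J) (P : PrimeSpectrum B) :
    len J (PrimeSpectrum.comap φ P) = len (J.map φ) P := by
  have hp : (PrimeSpectrum.comap φ P).asIdeal = P.asIdeal.comap φ := rfl
  let π : Localization.AtPrime (PrimeSpectrum.comap φ P).asIdeal →+*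
      Localization.AtPrime P.asIdeal := Localization.localRingHom _ _ φ hp
  have hπ : Function.Surjective π :=
    (RingHom.surjectiveOnStalks_of_surjective hφ).localRingHom_surjective _ _ hp
  have key : J.map (algebraMap A (Localization.AtPrime (PrimeSpectrum.comap φ P).asIdeal)) =
      ((J.map φ).map (algebraMap B (Localization.AtPrime P.asIdeal))).comap π := by
    apply le_antisymm
    · rw [Ideal.map_le_iff_le_comap]
      intro a ha
      have h1 : π (algebraMap A _ a) = algebraMap B _ (φ a) :=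
        Localization.localRingHom_to_map _ _ _ _ a
      have h2 : algebraMap B (Localization.AtPrime P.asIdeal) (φ a) ∈
          (J.map φ).map (algebraMap B (Localization.AtPrime P.asIdeal)) :=
        Ideal.mem_map_of_mem _ (Ideal.mem_map_of_mem _ ha)
      change π (algebraMap A _ a) ∈
        (J.map φ).map (algebraMap B (Localization.AtPrime P.asIdeal))
      rw [h1]
      exact h2
    · intro x hx
      obtain ⟨a, s, rfl⟩ := IsLocalization.exists_mk'_eq
        (PrimeSpectrum.comap φ P).asIdeal.primeCompl x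
      have h1 : π (IsLocalization.mk' _ a s) = IsLocalization.mk' _ (φ a)
          (⟨φ s.1, s.2⟩ : P.asIdeal.primeCompl) := Localization.localRingHom_mk' _ _ _ _ a s
      have h2 : IsLocalization.mk' (Localization.AtPrime P.asIdeal) (φ a)
          (⟨φ s.1, s.2⟩ : P.asIdeal.primeCompl) ∈
            (J.map φ).map (algebraMap B (Localization.AtPrime P.asIdeal)) := h1 ▸ hx
      rw [IsLocalization.mk'_mem_map_algebraMap_iff P.asIdeal.primeCompl] at h2
      obtain ⟨t, ht, ht2⟩ := h2
      obtain ⟨t, rfl⟩ := hφ t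
      rw [← map_mul, Ideal.mem_map_iff_of_surjective φ hφ] at ht2
      obtain ⟨b, hb, hb2⟩ := ht2
      rw [IsLocalization.mk'_mem_map_algebraMap_iff (PrimeSpectrum.comap φ P).asIdeal.primeCompl]
      refine ⟨t, ht, ?_⟩
      have h3 : t * a - b ∈ J := hJ (by rw [RingHom.mem_ker, map_sub, hb2, sub_self])
      have h4 := J.add_mem h3 hb
      rwa [sub_add_cancel] at h4
  unfold len
  rw [key, length_comap π hπ]

/-- The length is zero at primes which do not contain the ideal. -/
theorem len_eq_zero {I : Ideal A} {p : PrimeSpectrum A} (h : ¬ I ≤ p.asIdeal) : len I p = 0 := by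
  unfold len
  have h1 : I.map (algebraMap A (Localization.AtPrime p.asIdeal)) = ⊤ := by
    obtain ⟨a, ha, hap⟩ := Set.not_subset.mp h
    rw [Ideal.eq_top_iff_one]
    have h2 : IsUnit (algebraMap A (Localization.AtPrime p.asIdeal) a) :=
      IsLocalization.map_units (M := p.asIdeal.primeCompl) _ ⟨a, hap⟩
    exact (Ideal.eq_top_iff_one _).mp (Ideal.eq_top_of_isUnit_mem _ (Ideal.mem_map_of_mem _ ha) h2)
  rw [h1]
  have h2 : Subsingleton (Localization.AtPrime p.asIdeal ⧸
      (⊤ : Ideal (Localization.AtPrime p.asIdeal))) :=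
    Ideal.Quotient.subsingleton_iff.mpr rfl
  rw [Module.length_eq_zero]
  rfl

lemma len_span (a : A) (p : PrimeSpectrum A) : len (Ideal.span {a}) p =
    (Ring.ord (Localization.AtPrime p.asIdeal)
      (algebraMap A (Localization.AtPrime p.asIdeal) a)).toNat := by
  unfold len Ring.ord
  rw [Ideal.map_span, Set.image_singleton]

/-- The length of `A / (q + (a))` at a prime containing `q`, computed in `A / q`. -/
theorem len_quot (q : Ideal A) (a : A) (P : PrimeSpectrum (A ⧸ q)) :
    len (q ⊔ Ideal.span {a}) (PrimeSpectrum.comap (Ideal.Quotient.mk q) P) =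
      len (Ideal.span {Ideal.Quotient.mk q a}) P := by
  rw [len_comap _ Ideal.Quotient.mk_surjective _ (by rw [Ideal.mk_ker]; exact le_sup_left)]
  rw [Ideal.map_sup, Ideal.map_quotient_self, bot_sup_eq, Ideal.map_span, Set.image_singleton]

end Len

section Ord

variable {R : CommRingCat.{0}} [IsDomain R]

/-- A function as an element of the function field. -/
noncomputable def fn (a : R) : (Spec R).functionField :=
  algebraMap R (Spec R).functionField a

lemma fn_injective : Function.Injective (fn (R := R)) :=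
  IsFractionRing.injective R (Spec R).functionField

lemma fn_zero : fn (0 : R) = 0 := map_zero _

lemma fn_ne_zero {a : R} (ha : a ≠ 0) : fn a ≠ 0 := fun h => ha (fn_injective (h.trans fn_zero.symm))

lemma exists_fn (φ : (Spec R).functionField) (hφ : φ ≠ 0) :
    ∃ a b : R, a ≠ 0 ∧ b ≠ 0 ∧ φ * fn b = fn a := by
  obtain ⟨a, b, hb, h⟩ := IsFractionRing.div_surjective (A := R) φ
  have hb0 : b ≠ 0 := nonZeroDivisors.ne_zero hb
  have hb1 : (algebraMap R (Spec R).functionField b) ≠ 0 := fn_ne_zero hb0
  refine ⟨a, b, ?_, hb0, ?_⟩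
  · rintro rfl
    apply hφ
    rw [← h, map_zero, zero_div]
  · rw [← h]
    exact div_mul_cancel₀ _ hb1

/-- A point of `Spec R` as a prime ideal. -/
def pr {R : CommRingCat.{0}} (x : Spec R) : PrimeSpectrum R := x

/-- The germ of a function. -/
noncomputable def st (x : Spec R) : R →+* (Spec R).presheaf.stalk x :=
  (StructureSheaf.toStalk R (pr x)).hom

lemma fn_eq (x : Spec R) (a : R) :
    fn a = algebraMap ((Spec R).presheaf.stalk x) (Spec R).functionField (st x a) := by
  have := StructureSheaf.toStalk_stalkSpecializes (R := R) (x := genericPoint (Spec R))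
    (y := x) (genericPoint_specializes _)
  exact (congrArg (fun f => f.hom a) this).symm

lemma st_injective (x : Spec R) : Function.Injective (st x) := by
  intro b c hbc
  apply fn_injective
  rw [fn_eq x, fn_eq x, hbc]

lemma ord_st (x : Spec R) (a : R) :
    Ring.ord ((Spec R).presheaf.stalk x) (st x a) =
      Ring.ord (Localization.AtPrime (pr x).asIdeal)
        (algebraMap R (Localization.AtPrime (pr x).asIdeal) a) := by
  let : Algebra R ((Spec R).presheaf.stalk x) := (st x).toAlgebra
  have hloc : IsLocalization.AtPrime ((Spec R).presheaf.stalk x)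
      (pr x).asIdeal :=
    StructureSheaf.IsLocalization.to_stalk (R := R) (pr x)
  let e : Localization.AtPrime (pr x).asIdeal ≃ₐ[R]
      (Spec R).presheaf.stalk x :=
    IsLocalization.algEquiv (pr x).asIdeal.primeCompl _ _
  have h1 : st x a = e (algebraMap R _ a) := (e.commutes a).symm
  rw [h1]
  exact ord_ringEquiv e.toRingEquiv _

/-- The order of vanishing of a function at a point of codimension one is a length. -/
theorem ord_fn [IsNoetherianRing R] (a : R) (ha : a ≠ 0) (x : Spec R)
    (hx : Order.coheight x = 1) :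
    Scheme.ord (fn a) x = (len (Ideal.span {a}) (pr x) : ℤ) := by
  have i1 : Ring.KrullDimLE 1 ((Spec R).presheaf.stalk x) := krullDimLE_of_coheight_le hx.le
  have hsta : st x a ≠ 0 := fun h => ha (st_injective x (h.trans (map_zero _).symm))
  have hnzd : st x a ∈ nonZeroDivisors ((Spec R).presheaf.stalk x) :=
    mem_nonZeroDivisors_of_ne_zero hsta
  have hfin := Ring.ord_ne_top hnzd
  have h2 : Ring.ord ((Spec R).presheaf.stalk x) (st x a) =
      ((len (Ideal.span {a}) (pr x) : ℕ) : ℕ∞) := by
    rw [len_span, ← ord_st]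
    exact (ENat.natCast_toNat hfin).symm
  have h3 : Scheme.ordHom x hx (fn a) =
      Ring.ordMonoidWithZeroHom ((Spec R).presheaf.stalk x) (st x a) := by
    rw [fn_eq x]
    exact Ring.ordFrac_eq_ord _ hsta
  rw [Scheme.ord_eq_iff hx (fn_ne_zero ha), h3]
  exact Ring.ordMonoidWithZeroHom_eq_coe _ hnzd h2

end Ord

end CUB


end

section

/-!
# CUB: rational equivalence on affine varieties
-/

set_option autoImplicit false

open Polynomial CategoryTheory AlgebraicGeometry

namespace CUB

open Pool.Agent.Lib_helper55.Beil Pool.Agent.Lib_helper66.OneP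

variable {k : Type} [Field k]

section Coheight

variable {D : Type} [CommRing D] [Algebra k D] [Algebra.FiniteType k D] [IsDomain D]

lemma rdim_bot : rdim k (⟨⊥, Ideal.isPrime_bot⟩ : PrimeSpectrum D) = Algebra.trdeg k D :=
  (AlgEquiv.quotientBot k D).trdeg_eq

/-- A point of dimension one less than the dimension has codimension one. -/
theorem coheight_eq_one {n : ℕ} (hD : Algebra.trdeg k D = (n + 1 : ℕ)) (x : (aff k D).X)
    (hx : rdim k (ofPt x) = n) : Order.coheight x = 1 := by
  have hbot : rdim k (⟨⊥, Ideal.isPrime_bot⟩ : PrimeSpectrum D) = (n + 1 : ℕ) := rdim_bot.trans hD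
  have hne : ofPt x ≠ ⟨⊥, Ideal.isPrime_bot⟩ := by
    intro h
    rw [h, hbot] at hx
    have : n + 1 = n := by exact_mod_cast hx
    omega
  have hlt : (⟨⊥, Ideal.isPrime_bot⟩ : PrimeSpectrum D) < ofPt x :=
    lt_of_le_of_ne (fun _ h => by
      have h0 : _ = (0 : D) := h
      rw [h0]
      exact (ofPt x).asIdeal.zero_mem) hne.symm
  apply le_antisymm
  · have h1 : Order.coheight x ≤ ((1 : ℕ) : ℕ∞) := by
      rw [Order.coheight_le_coe_iff]
      intro y hy
      have h2 : y ⤳ x := hy.le
      have h3 : ofPt y ≤ ofPt x := (PrimeSpectrum.le_iff_specializes _ _).mpr h2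
      have h4 : ofPt y ≠ ofPt x := by
        intro h
        have h5 : y = x := h
        exact hy.ne h5.symm
      have h5 : ofPt y < ofPt x := lt_of_le_of_ne h3 h4
      have h6 := rdim_add_one_le (k := k) h5
      rw [hx] at h6
      have h7 : ofPt y = ⟨⊥, Ideal.isPrime_bot⟩ := by
        by_contra hcon
        have h8 : (⟨⊥, Ideal.isPrime_bot⟩ : PrimeSpectrum D) < ofPt y :=
          lt_of_le_of_ne (fun _ h => by
            have h0 : _ = (0 : D) := h
            rw [h0]
            exact (ofPt y).asIdeal.zero_mem) (fun h => hcon h.symm)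
        have h9 := rdim_lt (k := k) h8
        rw [hbot] at h9
        have h10 : ((n : Cardinal) + 1) < ((n + 1 : ℕ) : Cardinal) := h6.trans_lt h9
        rw [Nat.cast_add, Nat.cast_one] at h10
        exact lt_irrefl _ h10
      have h8 : Order.coheight y = 0 := by
        rw [Order.coheight_eq_zero]
        intro z hz
        have h9 : z ⤳ y := hz
        have h10 : ofPt z ≤ ofPt y := (PrimeSpectrum.le_iff_specializes _ _).mpr h9
        have h11 : ofPt z = ofPt y := by
          apply le_antisymm h10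
          rw [h7]
          intro _ h
          have h0 : _ = (0 : D) := h
          rw [h0]
          exact (ofPt z).asIdeal.zero_mem
        have h12 : z = y := h11
        rw [h12]
      rw [h8]
      exact_mod_cast Nat.zero_lt_one
    exact_mod_cast h1
  · rw [Order.one_le_iff_pos, Order.coheight_pos]
    intro hmax
    have h1 : toPt (k := k) (⟨⊥, Ideal.isPrime_bot⟩ : PrimeSpectrum D) ⤳ x :=
      (PrimeSpectrum.le_iff_specializes _ _).mp hlt.le
    have h2 : x ≤ toPt (k := k) (⟨⊥, Ideal.isPrime_bot⟩ : PrimeSpectrum D) := h1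
    have h3 : x ⤳ toPt (k := k) (⟨⊥, Ideal.isPrime_bot⟩ : PrimeSpectrum D) := hmax h2
    have h4 : ofPt x ≤ ⟨⊥, Ideal.isPrime_bot⟩ := (PrimeSpectrum.le_iff_specializes _ _).mpr h3
    exact hlt.not_ge h4

variable (k) in
/-- A function as an element of the function field of `Spec D`. -/
noncomputable def fnA (a : D) : (aff k D).X.functionField := fn (R := CommRingCat.of D) a

lemma fnA_ne_zero {a : D} (ha : a ≠ 0) : fnA k a ≠ 0 := fn_ne_zero (R := CommRingCat.of D) ha

lemma exists_fnA (φ : (aff k D).X.functionField) (hφ : φ ≠ 0) :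
    ∃ a b : D, a ≠ 0 ∧ b ≠ 0 ∧ φ * fnA k b = fnA k a :=
  exists_fn (R := CommRingCat.of D) φ hφ

theorem ord_fnA {n : ℕ} (hD : Algebra.trdeg k D = (n + 1 : ℕ)) (a : D) (ha : a ≠ 0)
    (x : (aff k D).X) (hx : rdim k (ofPt x) = n) :
    Scheme.ord (fnA k a) x = (len (Ideal.span {a}) (ofPt x) : ℤ) := by
  have h1 := coheight_eq_one hD x hx
  have hN : IsNoetherianRing D := Algebra.FiniteType.isNoetherianRing k D
  exact ord_fn (R := CommRingCat.of D) a ha x h1

end Coheight

section Main

variable {A : Type} [CommRing A] [Algebra k A] [Algebra.FiniteType k A] {E : Type} [Field E]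
  {n : ℕ}

lemma cq_toPt (q : Ideal A) (x : PrimeSpectrum (A ⧸ q)) :
    (cq (k := k) q).g (toPt x) = toPt (PrimeSpectrum.comap (Ideal.Quotient.mk q) x) := rfl

lemma rdim_comap_mk (q : Ideal A) (x : PrimeSpectrum (A ⧸ q)) :
    rdim k (PrimeSpectrum.comap (Ideal.Quotient.mk q) x) = rdim k x :=
  rdim_comap (Ideal.Quotient.mkₐ k q) (Ideal.Quotient.mkₐ_surjective k q) x

lemma mem_range_cq (q : Ideal A) (p : PrimeSpectrum A) :
    toPt p ∈ Set.range (cq (k := k) q).g ↔ q ≤ p.asIdeal := by
  have h1 : Set.range (cq (k := k) q).g =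
      Set.range (PrimeSpectrum.comap (Ideal.Quotient.mk q)) := rfl
  rw [h1, range_comap_of_surjective _ _ Ideal.Quotient.mk_surjective, Ideal.mk_ker]
  exact Iff.rfl

/-- The divisor of a regular function on `V(q)`, in terms of schemes and in terms of rings. -/
theorem isDiv_iff (q : PrimeSpectrum A) (hq : rdim k q = (n + 1 : ℕ)) (a : A)
    (ha : a ∉ q.asIdeal) (c : RP k A n →₀ E) :
    IsDiv (cq (k := k) q.asIdeal) (fnA k (Ideal.Quotient.mk q.asIdeal a)) (cyE E n c) ↔
      IsDv k E q a c := by
  have ha' : Ideal.Quotient.mk q.asIdeal a ≠ 0 := fun h => ha (Ideal.Quotient.eq_zero_iff_mem.mp h)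
  have key : ∀ x : PrimeSpectrum (A ⧸ q.asIdeal), rdim k x = n →
      Scheme.ord (fnA k (Ideal.Quotient.mk q.asIdeal a)) (toPt x) =
        (len (q.asIdeal ⊔ Ideal.span {a}) (PrimeSpectrum.comap (Ideal.Quotient.mk _) x) : ℤ) := by
    intro x hx
    rw [len_quot]
    exact ord_fnA hq _ ha' _ hx
  constructor
  · rintro ⟨h1, h2⟩ p
    by_cases hp : q.asIdeal ≤ p.1.asIdeal
    · obtain ⟨x, hx⟩ := (mem_range_cq (k := k) q.asIdeal p.1).mpr hp
      have hx2 : PrimeSpectrum.comap (Ideal.Quotient.mk q.asIdeal) (ofPt x) = p.1 := hx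
      have hx3 : rdim k (ofPt x) = n := by
        rw [← rdim_comap_mk, hx2]
        exact p.2
      have h3 : (aff k A).dim ((cq (k := k) q.asIdeal).g x) = n := by
        rw [hx]
        exact (dim_toPt p.1).trans p.2
      have h4 := h1 x h3
      have h5 : (⟨(cq (k := k) q.asIdeal).g x, h3⟩ : Pts n (aff k A)) = ptE n p :=
        Subtype.ext hx
      rw [h5, cyE_apply] at h4
      have h6 := key (ofPt x) hx3
      rw [toPt_ofPt] at h6
      rw [h4, h6, hx2]
      push_cast
      rfl
    · have h3 : (ptE (k := k) n p).1 ∉ Set.range (cq (k := k) q.asIdeal).g := fun h =>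
        hp ((mem_range_cq q.asIdeal p.1).mp h)
      have h4 := h2 _ h3
      rw [cyE_apply] at h4
      rw [h4, len_eq_zero (fun h => hp (le_sup_left.trans h)), Nat.cast_zero]
  · intro h
    refine ⟨?_, ?_⟩
    · intro x hx
      have hx2 : rdim k (PrimeSpectrum.comap (Ideal.Quotient.mk q.asIdeal) (ofPt x)) = n :=
        (dim_toPt _).symm.trans hx
      have hx3 : rdim k (ofPt x) = n := (rdim_comap_mk _ _).symm.trans hx2
      have h3 := h ⟨_, hx2⟩
      have h4 := key (ofPt x) hx3
      rw [toPt_ofPt] at h4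
      rw [h4]
      push_cast
      rw [← h3]
      exact cyE_apply c ⟨_, hx2⟩
    · intro x hx
      obtain ⟨p, rfl⟩ := (ptE (k := k) n).surjective x
      have hp : ¬ q.asIdeal ≤ p.1.asIdeal := fun h => hx ((mem_range_cq q.asIdeal p.1).mpr h)
      rw [cyE_apply, h p, len_eq_zero (fun h => hp (le_sup_left.trans h)), Nat.cast_zero]

lemma mem_ratZero_of_isDv (q : RP k A (n + 1)) (a : A) (ha : a ∉ q.1.asIdeal)
    (c : RP k A n →₀ E) (hc : IsDv k E q.1 a c) : cyE E n c ∈ ratZero E n (aff k A) := by
  apply Submodule.subset_span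
  refine ⟨aff k (A ⧸ q.1.asIdeal), inferInstance, cq q.1.asIdeal,
    fnA k (Ideal.Quotient.mk q.1.asIdeal a), ?_, ?_, ?_⟩
  · rw [dim_generic_aff]
    exact q.2
  · exact fnA_ne_zero (fun h => ha (Ideal.Quotient.eq_zero_iff_mem.mp h))
  · exact (isDiv_iff q.1 q.2 a ha c).mpr hc

/-- The divisor of a rational function on an integral closed subvariety of `Spec A` is rationally
equivalent to zero in the sense of rings. -/
lemma mem_rat_of_isDiv (W : Var k) [AlgebraicGeometry.IsIntegral W.X]
    (a : ClosedIn W (aff k A)) (φ : W.X.functionField)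
    (hW : W.dim (genericPoint W.X) = (n + 1 : ℕ)) (hφ : φ ≠ 0) (c : RP k A n →₀ E)
    (hc : IsDiv a φ (cyE E n c)) : c ∈ rat k A E n := by
  have hcl : IsClosedImmersion a.g := a.closed
  obtain ⟨I, e, he⟩ := (IsClosedImmersion.Spec_iff (R := CommRingCat.of A) (f := a.g)).mp hcl
  have hne : Nonempty (Spec (CommRingCat.of (A ⧸ I))) := ⟨e.hom (genericPoint W.X)⟩
  have hint : AlgebraicGeometry.IsIntegral (Spec (CommRingCat.of (A ⧸ I))) :=
    isIntegral_of_isOpenImmersion e.inv
  have hdom : IsDomain (A ⧸ I) := (affine_isIntegral_iff (CommRingCat.of (A ⧸ I))).mp hint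
  have hI : I.IsPrime := (Ideal.Quotient.isDomain_iff_prime I).mp hdom
  let q : PrimeSpectrum A := ⟨I, hI⟩
  let h : (aff k (A ⧸ I)).X ⟶ W.X := e.inv
  have hh : IsOpenImmersion h := inferInstanceAs (IsOpenImmersion e.inv)
  have hhg : h ≫ a.g = (cq (k := k) I).g := by
    have h1 : e.inv ≫ a.g = Spec.map (CommRingCat.ofHom (Ideal.Quotient.mk I)) :=
      (Iso.inv_comp_eq e).mpr he
    exact h1
  have hhg' : ∀ x, a.g (h x) = (cq (k := k) I).g x := fun x =>
    congrArg (fun f : (aff k (A ⧸ I)).X ⟶ (aff k A).X => f x) hhg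
  have hsurj : ∀ w : W.X, ∃ x, h x = w := fun w => ⟨e.hom w, by
    change (e.hom ≫ e.inv) w = w
    rw [e.hom_inv_id]
    rfl⟩
  have hcI : IsClosedImmersion (cq (k := k) I).g := (cq I).closed
  -- dimension of `q`
  have hq : rdim k q = (n + 1 : ℕ) := by
    have h1 : (aff k A).dim (a.g (genericPoint W.X)) = W.dim (genericPoint W.X) :=
      dim_map a.g a.comm _
    have h2 : h (genericPoint (aff k (A ⧸ I)).X) = genericPoint W.X :=
      genericPoint_eq_of_isOpenImmersion h
    have h3 := dim_map (cq (k := k) I).g (cq I).comm (genericPoint (aff k (A ⧸ I)).X)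
    rw [← hhg', h2, h1, hW, dim_generic_aff] at h3
    exact h3.symm
  -- the function
  have hψ : funMap h φ ≠ 0 := by
    intro h0
    exact hφ ((map_eq_zero_iff _ (funMap h).hom.injective).mp h0)
  obtain ⟨α, β, hα, hβ, hαβ⟩ := exists_fnA (k := k) (D := A ⧸ I) (funMap h φ) hψ
  obtain ⟨α, rfl⟩ := Ideal.Quotient.mk_surjective α
  obtain ⟨β, rfl⟩ := Ideal.Quotient.mk_surjective β
  have hα' : α ∉ q.asIdeal := fun h => hα (Ideal.Quotient.eq_zero_iff_mem.mpr h)
  have hβ' : β ∉ q.asIdeal := fun h => hβ (Ideal.Quotient.eq_zero_iff_mem.mpr h)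
  obtain ⟨cα, hcα⟩ := exists_div (E := E) (i := n) (cq (k := k) I)
    (fnA k (Ideal.Quotient.mk I α)) (fnA_ne_zero hα)
  obtain ⟨cβ, hcβ⟩ := exists_div (E := E) (i := n) (cq (k := k) I)
    (fnA k (Ideal.Quotient.mk I β)) (fnA_ne_zero hβ)
  obtain ⟨cα, rfl⟩ := (cyE (k := k) (A := A) E n).surjective cα
  obtain ⟨cβ, rfl⟩ := (cyE (k := k) (A := A) E n).surjective cβ
  have h1 : cα ∈ rat k A E n := Submodule.subset_span
    ⟨⟨q, hq⟩, α, bot_le, hα', (isDiv_iff q hq α hα' cα).mp hcα⟩
  have h2 : cβ ∈ rat k A E n := Submodule.subset_span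
    ⟨⟨q, hq⟩, β, bot_le, hβ', (isDiv_iff q hq β hβ' cβ).mp hcβ⟩
  have h3 : c + cβ = cα := by
    apply (cyE (k := k) (A := A) E n).injective
    apply isDiv_unique (cq (k := k) I) (fnA k (Ideal.Quotient.mk I α)) _ _ _ hcα
    rw [map_add]
    refine ⟨?_, ?_⟩
    · intro x hx
      have hx' : (aff k A).dim (a.g (h x)) = n := by rw [hhg']; exact hx
      have h4 := hc.1 (h x) hx'
      have h5 := hcβ.1 x hx
      have h6 : (⟨a.g (h x), hx'⟩ : Pts n (aff k A)) = ⟨(cq (k := k) I).g x, hx⟩ :=
        Subtype.ext (hhg' x)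
      rw [h6] at h4
      refine (Finsupp.add_apply _ _ _).trans ((congrArg₂ (· + ·) h4 h5).trans ?_)
      rw [← hαβ, Scheme.ord_mul hψ (fnA_ne_zero hβ), ord_funMap]
      push_cast
      rfl
    · intro x hx
      have hx' : x.1 ∉ Set.range a.g := by
        rintro ⟨w, hw⟩
        obtain ⟨y, rfl⟩ := hsurj w
        exact hx ⟨y, (hhg' y).symm.trans hw⟩
      exact (Finsupp.add_apply _ _ _).trans
        ((congrArg₂ (· + ·) (hc.2 x hx') (hcβ.2 x hx)).trans (add_zero _))
  have h4 : c = cα - cβ := eq_sub_of_add_eq h3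
  rw [h4]
  exact Submodule.sub_mem _ h1 h2

/-- MAIN: rational equivalence on `Spec A`, in terms of schemes and in terms of rings. -/
theorem cyE_mem (c : RP k A n →₀ E) : cyE E n c ∈ ratZero E n (aff k A) ↔ c ∈ rat k A E n := by
  constructor
  · intro h
    have h1 : ratZero E n (aff k A) ≤
        (rat k A E n).comap (cyE (k := k) (A := A) E n).symm.toLinearMap := by
      refine Submodule.span_le.mpr ?_
      rintro d ⟨W, hint, a, φ, hW, hφ, hd⟩
      obtain ⟨c, rfl⟩ := (cyE (k := k) (A := A) E n).surjective d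
      change (cyE E n).symm (cyE E n c) ∈ rat k A E n
      rw [LinearEquiv.symm_apply_apply]
      exact mem_rat_of_isDiv W a φ hW hφ c hd
    have h2 := h1 h
    change (cyE E n).symm (cyE E n c) ∈ rat k A E n at h2
    rwa [LinearEquiv.symm_apply_apply] at h2
  · intro h
    have h1 : rat k A E n ≤
        (ratZero E n (aff k A)).comap (cyE (k := k) (A := A) E n).toLinearMap := by
      refine Submodule.span_le.mpr ?_
      rintro d ⟨q, a, -, ha, hd⟩
      exact mem_ratZero_of_isDv q a ha d hd
    exact h1 h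

end Main

end CUB


end

section

/-!
# CUB: open immersions, complements, lines and isomorphisms of affine varieties
-/

set_option autoImplicit false

open Polynomial CategoryTheory AlgebraicGeometry

namespace CUB

open Pool.Agent.Lib_helper55.Beil Pool.Agent.Lib_helper66.OneP

variable {k : Type} [Field k] {A B Z : Type} [CommRing A] [CommRing B] [CommRing Z]
  [Algebra k A] [Algebra k B] [Algebra k Z]
  [Algebra.FiniteType k A] [Algebra.FiniteType k B] [Algebra.FiniteType k Z]

/-! ## Points -/

lemma clo_g (φ : A →ₐ[k] B) (hφ : Function.Surjective φ) (x : PrimeSpectrum B) :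
    (clo φ hφ).g (toPt x) = toPt (PrimeSpectrum.comap φ.toRingHom x) := rfl

lemma clo_ptE (φ : A →ₐ[k] B) (hφ : Function.Surjective φ) {n : ℕ} (P : RP k B n) :
    (clo φ hφ).g (ptE n P).1 = (ptE n (pushP φ hφ P)).1 := rfl

lemma ptsMap_clo (φ : A →ₐ[k] B) (hφ : Function.Surjective φ) {n : ℕ} (P : RP k B n) :
    ptsMap n (clo φ hφ) (ptE n P) = ptE n (pushP φ hφ P) := Subtype.ext rfl

lemma opn_g (φ : A →ₐ[k] B) (h : IsOpenImmersion (spm φ)) (x : PrimeSpectrum B) :
    (opn φ h).g (toPt x) = toPt (PrimeSpectrum.comap φ.toRingHom x) := rfl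

lemma opn_ptE (φ : A →ₐ[k] B) (h : IsOpenImmersion (spm φ)) {n : ℕ} (P : RP k B n) :
    (opn φ h).g (ptE n P).1 = toPt (PrimeSpectrum.comap φ.toRingHom P.1) := rfl

/-- An open immersion preserves the dimension of primes. -/
lemma rdim_comap_opn (φ : A →ₐ[k] B) (h : IsOpenImmersion (spm φ)) (P : PrimeSpectrum B) :
    rdim k (PrimeSpectrum.comap φ.toRingHom P) = rdim k P := by
  rw [← dim_toPt, ← dim_toPt]
  exact dim_map (spm φ) (spm_comm φ) (toPt P)

/-! ## Open immersions defined by localizations -/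

lemma isOpenImmersion_spm (φ : A →ₐ[k] B) (a : A)
    (h : @IsLocalization.Away A _ a B _ φ.toRingHom.toAlgebra) : IsOpenImmersion (spm φ) := by
  let : Algebra A B := φ.toRingHom.toAlgebra
  exact IsOpenImmersion.of_isLocalization (R := A) (S := B) a

lemma range_spm_away (φ : A →ₐ[k] B) (a : A)
    (h : @IsLocalization.Away A _ a B _ φ.toRingHom.toAlgebra) :
    Set.range (PrimeSpectrum.comap φ.toRingHom) = {p : PrimeSpectrum A | a ∉ p.asIdeal} := by
  let : Algebra A B := φ.toRingHom.toAlgebra
  exact PrimeSpectrum.localization_away_comap_range (R := A) B a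

lemma range_spm_surj (ψ : A →ₐ[k] Z) (hψ : Function.Surjective ψ) :
    Set.range (PrimeSpectrum.comap ψ.toRingHom) =
      {p : PrimeSpectrum A | RingHom.ker ψ.toRingHom ≤ p.asIdeal} := by
  have := range_comap_of_surjective Z ψ.toRingHom hψ
  rw [this]
  rfl

/-- The complement of `V(a)` is `Spec` of the localization away from `a`. -/
theorem complementary_away (φ : A →ₐ[k] B) (a : A)
    (h : @IsLocalization.Away A _ a B _ φ.toRingHom.toAlgebra)
    (ψ : A →ₐ[k] Z) (hψ : Function.Surjective ψ) (hk : RingHom.ker ψ.toRingHom = Ideal.span {a}) :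
    Complementary (clo ψ hψ) (opn φ (isOpenImmersion_spm φ a h)) := by
  have h1 : Set.range (clo ψ hψ).g =
      (Set.range (PrimeSpectrum.comap ψ.toRingHom) : Set (PrimeSpectrum A)) := rfl
  have h2 : Set.range (opn φ (isOpenImmersion_spm φ a h)).g =
      (Set.range (PrimeSpectrum.comap φ.toRingHom) : Set (PrimeSpectrum A)) := rfl
  have h3 : (Set.range (PrimeSpectrum.comap ψ.toRingHom) : Set (PrimeSpectrum A)) =
      (Set.range (PrimeSpectrum.comap φ.toRingHom))ᶜ := by
    rw [range_spm_surj ψ hψ, range_spm_away φ a h, hk]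
    ext p
    simp
  unfold Complementary
  rw [h1, h2]
  exact h3

/-! ## Lines -/

attribute [local instance] Polynomial.algebra

/-- `Spec B` is the product of `Spec A` and the affine line if `B` is isomorphic to `A[X]`. -/
noncomputable def lineE (φ : A →ₐ[k] B) (e : A[X] ≃+* B) (he : ∀ a, e (C a) = φ a) :
    Line (aff k B) (aff k A) where
  q := spm φ
  t := Spec.map (CommRingCat.ofHom (e.toRingHom.comp (Polynomial.mapRingHom (algebraMap k A))))
  comm := spm_comm φ
  prod := by
    have h1 : IsPushout (CommRingCat.ofHom (algebraMap k A)) (CommRingCat.ofHom (algebraMap k k[X]))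
        (CommRingCat.ofHom (algebraMap A A[X])) (CommRingCat.ofHom (algebraMap k[X] A[X])) :=
      CommRingCat.isPushout_of_isPushout k A k[X] A[X]
    have h2 : IsPushout (CommRingCat.ofHom (algebraMap k A)) (CommRingCat.ofHom (algebraMap k k[X]))
        (CommRingCat.ofHom φ.toRingHom)
        (CommRingCat.ofHom (e.toRingHom.comp (Polynomial.mapRingHom (algebraMap k A)))) := by
      refine h1.of_iso (Iso.refl _) (Iso.refl _) (Iso.refl _) e.toCommRingCatIso ?_ ?_ ?_ ?_
      · simp
      · simp
      · exact CommRingCat.hom_ext (RingHom.ext he)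
      · exact CommRingCat.hom_ext (RingHom.ext fun _ => rfl)
    exact isPullback_SpecMap_of_isPushout _ _ _ _ h2

lemma lineE_q (φ : A →ₐ[k] B) (e : A[X] ≃+* B) (he : ∀ a, e (C a) = φ a) :
    (lineE φ e he).q = spm φ := rfl

lemma lineE_toPt (φ : A →ₐ[k] B) (e : A[X] ≃+* B) (he : ∀ a, e (C a) = φ a)
    (x : PrimeSpectrum B) :
    (lineE φ e he).q (toPt x) = toPt (PrimeSpectrum.comap φ.toRingHom x) := rfl

/-- The line over `Spec A`. -/
noncomputable def lineX (A : Type) [CommRing A] [Algebra k A] [Algebra.FiniteType k A] :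
    Line (aff k A[X]) (aff k A) :=
  lineE (Polynomial.CAlgHom : A →ₐ[k] A[X]) (RingEquiv.refl _) (fun _ => rfl)

end CUB


end

section

/-!
# CUB: classes of cycles on affine varieties, isomorphisms
-/

set_option autoImplicit false

open Polynomial CategoryTheory AlgebraicGeometry

namespace CUB

open Pool.Agent.Lib_helper55.Beil Pool.Agent.Lib_helper66.OneP

universe v

variable {k : Type} [Field k] {A B : Type} [CommRing A] [CommRing B]
  [Algebra k A] [Algebra k B] [Algebra.FiniteType k A] [Algebra.FiniteType k B]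
  {E : Type} [Field E]

/-! ## The dimension of `p[X]` -/

section Line

/-- The ideal `p[X]` is prime. -/
lemma isPrime_map_C {A : Type} [CommRing A] (p : PrimeSpectrum A) :
    (p.asIdeal.map (C : A →+* A[X])).IsPrime :=
  have := p.2
  Ideal.isPrime_map_C_of_isPrime

/-- The prime ideal `p[X]`. -/
noncomputable def pX (p : PrimeSpectrum A) : PrimeSpectrum A[X] :=
  ⟨p.asIdeal.map C, isPrime_map_C p⟩

lemma comap_pX (p : PrimeSpectrum A) : PrimeSpectrum.comap C (pX p) = p := by
  apply PrimeSpectrum.ext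
  ext a
  change C a ∈ p.asIdeal.map C ↔ a ∈ p.asIdeal
  rw [Ideal.mem_map_C_iff]
  constructor
  · intro h
    have := h 0
    rwa [coeff_C_zero] at this
  · intro h n
    rw [coeff_C]
    split_ifs
    · exact h
    · exact p.asIdeal.zero_mem

lemma pX_le (p : PrimeSpectrum A) (P : PrimeSpectrum A[X]) (h : PrimeSpectrum.comap C P = p) :
    pX p ≤ P := by
  subst h
  exact Ideal.map_comap_le

omit [Algebra.FiniteType k A] in
lemma rdim_pX (p : PrimeSpectrum A) : rdim k (pX p) = rdim k p + 1 := by
  let D := A ⧸ p.asIdeal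
  have h1 : Algebra.trdeg k D[X] = Algebra.trdeg k D + 1 := by
    have hf : FaithfulSMul k D := (faithfulSMul_iff_algebraMap_injective k D).mpr
      (algebraMap k D).injective
    have hf2 : FaithfulSMul D D[X] := (faithfulSMul_iff_algebraMap_injective D D[X]).mpr
      C_injective
    have h2 := trdeg_add_eq k D (A := D[X])
    rw [Polynomial.trdeg_of_isDomain] at h2
    exact h2.symm
  have e : D[X] ≃ₐ[k] (A[X] ⧸ (pX p).asIdeal) := AlgEquiv.ofRingEquiv
    (f := Ideal.polynomialQuotientEquivQuotientPolynomial p.asIdeal) (by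
      intro r
      rw [IsScalarTower.algebraMap_apply k D D[X], IsScalarTower.algebraMap_apply k A D]
      have h3 : algebraMap D D[X] (algebraMap A D (algebraMap k A r)) =
          (C (algebraMap k A r)).map (Ideal.Quotient.mk p.asIdeal) := by
        rw [Polynomial.map_C]
        rfl
      exact (congrArg _ h3).trans
        (Ideal.polynomialQuotientEquivQuotientPolynomial_map_mk p.asIdeal _))
  unfold rdim
  rw [← e.trdeg_eq, h1]

/-- The points of dimension `n + 1` of `Spec B`, `B ≃ A[X]`, over the points of dimension `n`. -/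
noncomputable def lineP (φ : A →ₐ[k] B) (e : A[X] ≃+* B) (he : ∀ a, e (C a) = φ a) {n : ℕ}
    (p : RP k A n) : RP k B (n + 1) :=
  ⟨PrimeSpectrum.comap e.symm.toRingHom (pX p.1), by
    have hk : ∀ r : k, e (algebraMap k A[X] r) = algebraMap k B r := fun r => by
      rw [IsScalarTower.algebraMap_apply k A A[X]]
      exact (he _).trans (φ.commutes r)
    let e' : A[X] ≃ₐ[k] B := AlgEquiv.ofRingEquiv (f := e) hk
    have h1 := rdim_comap (e'.symm : B →ₐ[k] A[X]) e'.symm.surjective (pX p.1)
    refine h1.trans ((rdim_pX p.1).trans ?_)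
    rw [p.2]
    push_cast
    rfl⟩

lemma comap_lineP (φ : A →ₐ[k] B) (e : A[X] ≃+* B) (he : ∀ a, e (C a) = φ a) {n : ℕ}
    (p : RP k A n) : PrimeSpectrum.comap φ.toRingHom (lineP φ e he p).1 = p.1 := by
  have h1 : e.symm.toRingHom.comp φ.toRingHom = C := by
    ext1 a
    change e.symm (φ a) = C a
    rw [← he, RingEquiv.symm_apply_apply]
  have h2 : PrimeSpectrum.comap φ.toRingHom (PrimeSpectrum.comap e.symm.toRingHom (pX p.1)) =
      PrimeSpectrum.comap (e.symm.toRingHom.comp φ.toRingHom) (pX p.1) := rfl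
  change PrimeSpectrum.comap φ.toRingHom (PrimeSpectrum.comap e.symm.toRingHom (pX p.1)) = p.1
  rw [h2, h1, comap_pX]

lemma lineP_injective (φ : A →ₐ[k] B) (e : A[X] ≃+* B) (he : ∀ a, e (C a) = φ a) {n : ℕ} :
    Function.Injective (lineP φ e he (n := n)) := by
  intro p q h
  apply Subtype.ext
  rw [← comap_lineP φ e he p, ← comap_lineP φ e he q, h]

/-- A point of dimension `n + 1` over a point of dimension `n` is `lineP`. -/
lemma eq_lineP (φ : A →ₐ[k] B) (e : A[X] ≃+* B) (he : ∀ a, e (C a) = φ a) {n : ℕ}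
    (P : RP k B (n + 1)) (h : rdim k (PrimeSpectrum.comap φ.toRingHom P.1) = n) :
    P = lineP φ e he ⟨PrimeSpectrum.comap φ.toRingHom P.1, h⟩ := by
  apply Subtype.ext
  symm
  apply eq_of_le_of_rdim_eq (k := k)
  · have h1 : pX (PrimeSpectrum.comap φ.toRingHom P.1) ≤ PrimeSpectrum.comap e.toRingHom P.1 := by
      apply pX_le
      have h2 : e.toRingHom.comp C = φ.toRingHom := RingHom.ext he
      rw [← h2]
      rfl
    intro b hb
    have h2 : e (e.symm b) ∈ P.1.asIdeal := h1 hb
    rwa [RingEquiv.apply_symm_apply] at h2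
  · exact (lineP φ e he ⟨PrimeSpectrum.comap φ.toRingHom P.1, h⟩).2.trans P.2.symm

lemma mapDomain_lineP (φ : A →ₐ[k] B) (e : A[X] ≃+* B) (he : ∀ a, e (C a) = φ a) {n : ℕ}
    (c : RP k A n →₀ E) (P : RP k B (n + 1))
    (h : rdim k (PrimeSpectrum.comap φ.toRingHom P.1) = n) :
    Finsupp.mapDomain (lineP φ e he) c P = c ⟨PrimeSpectrum.comap φ.toRingHom P.1, h⟩ :=
  (congrArg (Finsupp.mapDomain (lineP φ e he) c) (eq_lineP φ e he P h)).trans
    (Finsupp.mapDomain_apply (lineP_injective φ e he) c _)

lemma mapDomain_lineP_zero (φ : A →ₐ[k] B) (e : A[X] ≃+* B) (he : ∀ a, e (C a) = φ a) {n : ℕ}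
    (c : RP k A n →₀ E) (P : RP k B (n + 1))
    (h : rdim k (PrimeSpectrum.comap φ.toRingHom P.1) ≠ n) :
    Finsupp.mapDomain (lineP φ e he) c P = 0 := by
  apply Finsupp.mapDomain_of_notMem_range
  rintro ⟨p, rfl⟩
  exact h ((congrArg (rdim k) (comap_lineP φ e he p)).trans p.2)

/-- Flat pull-back along a line. -/
theorem isPull_line_iff (φ : A →ₐ[k] B) (e : A[X] ≃+* B) (he : ∀ a, e (C a) = φ a) {n : ℕ}
    (c : RP k A n →₀ E) (d : RP k B (n + 1) →₀ E) :
    IsPull k E 1 φ c d ↔ d = Finsupp.mapDomain (lineP φ e he) c := by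
  constructor
  · intro h
    ext P
    by_cases hP : rdim k (PrimeSpectrum.comap φ.toRingHom P.1) = n
    · exact ((h P).1 hP).trans (mapDomain_lineP φ e he c P hP).symm
    · exact ((h P).2 hP).trans (mapDomain_lineP_zero φ e he c P hP).symm
  · rintro rfl P
    exact ⟨fun hP => mapDomain_lineP φ e he c P hP, fun hP => mapDomain_lineP_zero φ e he c P hP⟩

end Line

/-! ## Classes -/

section Cls

variable (T : ∀ i : ℕ, Homology.{v} k E i)

/-- The homology class of a cycle on `Spec A`. -/
noncomputable def cls (n : ℕ) : (RP k A n →₀ E) →ₗ[E] (T n).H (2 * n) (aff k A) :=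
  (Finsupp.linearCombination E ((T n).cl (aff k A))).comp (cyE E n).toLinearMap

lemma cls_eq (n : ℕ) (c : RP k A n →₀ E) :
    cls T n c = Finsupp.linearCombination E ((T n).cl (aff k A)) (cyE E n c) := rfl

lemma cls_single (n : ℕ) (p : RP k A n) (x : E) :
    cls T n (Finsupp.single p x) = x • (T n).cl (aff k A) (ptE n p) := by
  rw [cls_eq, cyE_single, Finsupp.linearCombination_single]

lemma cls_rat (n : ℕ) (c : RP k A n →₀ E) (hc : c ∈ rat k A E n) : cls T n c = 0 :=
  (T n).cl_rat _ _ ((cyE_mem c).mpr hc)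

lemma cls_frob (n : ℕ) (c : RP k A n →₀ E) :
    (T n).F (2 * n) (aff k A) (cls T n c) = cls T n c := by
  change (T n).frob (2 * n) (aff k A) (cls T n c) = cls T n c
  induction c using Finsupp.induction_linear with
  | zero => rw [map_zero, map_zero]
  | add c d hc hd => rw [map_add, map_add, hc, hd]
  | single p x => rw [cls_single, map_smul, (T n).frob_cl]

lemma cls_push (n : ℕ) (φ : A →ₐ[k] B) (hφ : Function.Surjective φ) (c : RP k B n →₀ E) :
    (T n).P (2 * n) (clo φ hφ) (cls T n c) = cls T n (push E φ hφ c) := by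
  change (T n).push (2 * n) (clo φ hφ) (cls T n c) = cls T n (push E φ hφ c)
  induction c using Finsupp.induction_linear with
  | zero => simp only [map_zero]
  | add c d hc hd => simp only [map_add, hc, hd]
  | single p x =>
    have h1 : push E φ hφ (Finsupp.single p x) = Finsupp.single (pushP φ hφ p) x :=
      Finsupp.mapDomain_single
    rw [h1, cls_single, cls_single, map_smul]
    congr 1
    exact (T n).push_cl (clo φ hφ) (ptE n p) (ptE n (pushP φ hφ p)).2

/-- The points of an open affine subvariety as points of the variety. -/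
noncomputable def resP (φ : A →ₐ[k] B) (h : IsOpenImmersion (spm φ)) {n : ℕ} (P : RP k B n) :
    RP k A n :=
  ⟨PrimeSpectrum.comap φ.toRingHom P.1, (rdim_comap_opn φ h P.1).trans P.2⟩

lemma resP_injective (φ : A →ₐ[k] B) (h : IsOpenImmersion (spm φ)) {n : ℕ} :
    Function.Injective (resP φ h (n := n)) := by
  intro P Q hPQ
  apply Subtype.ext
  have h1 : (opn φ h).g (toPt P.1) = (opn φ h).g (toPt Q.1) :=
    congrArg (fun x : RP k A n => toPt (k := k) x.1) hPQ
  exact openIn_injective (opn φ h) h1

/-- Restriction of cycles to an open affine subvariety is flat pull-back. -/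
lemma isPull_zero_iff (φ : A →ₐ[k] B) (h : IsOpenImmersion (spm φ)) {n : ℕ}
    (c : RP k A n →₀ E) (d : RP k B n →₀ E) :
    IsPull k E 0 φ c d ↔ ∀ P, d P = c (resP φ h P) := by
  constructor
  · intro hd P
    exact (hd P).1 (resP φ h P).2
  · intro hd P
    refine ⟨fun _ => hd P, fun hP => ?_⟩
    exact absurd (resP φ h P).2 hP

/-- Restriction of classes to an open affine subvariety. -/
lemma cls_res (n : ℕ) (φ : A →ₐ[k] B) (h : IsOpenImmersion (spm φ)) (c : RP k A n →₀ E)
    (d : RP k B n →₀ E) (hcd : IsPull k E 0 φ c d) :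
    (T n).R (2 * n) (opn φ h) (cls T n c) = cls T n d := by
  have h1 : d = Finsupp.lcomapDomain (R := E) (M := E) (resP φ h) (resP_injective φ h) c := by
    ext P
    exact (isPull_zero_iff φ h c d).mp hcd P
  rw [h1]
  change (T n).res (2 * n) (opn φ h) (cls T n c) = cls T n (Finsupp.lcomapDomain _ _ c)
  clear h1 hcd
  induction c using Finsupp.induction_linear with
  | zero => simp only [map_zero]
  | add c d hc hd => simp only [map_add, hc, hd]
  | single p x =>
    rw [cls_single, map_smul]
    by_cases hp : p ∈ Set.range (resP φ h (n := n))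
    · obtain ⟨P, rfl⟩ := hp
      have h2 : Finsupp.lcomapDomain (R := E) (M := E) (resP φ h) (resP_injective φ h)
          (Finsupp.single (resP φ h P) x) = Finsupp.single P x :=
        Finsupp.comapDomain_single _ _ _ _
      rw [h2, cls_single]
      congr 1
      exact (T n).res_cl (opn φ h) (ptE n P) (ptE n (resP φ h P)).2
    · have h2 : Finsupp.lcomapDomain (R := E) (M := E) (resP φ h) (resP_injective φ h)
          (Finsupp.single p x) = 0 := by
        ext P
        change Finsupp.single p x (resP φ h P) = 0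
        classical
        rw [Finsupp.single_apply, if_neg]
        intro h3
        exact hp ⟨P, h3.symm⟩
      rw [h2, map_zero]
      have h3 : (ptE (k := k) n p).1 ∉ Set.range (opn φ h).g := by
        rintro ⟨y, hy⟩
        have h4 : PrimeSpectrum.comap φ.toRingHom (ofPt y) = p.1 := hy
        apply hp
        refine ⟨⟨ofPt y, ?_⟩, Subtype.ext h4⟩
        rw [← rdim_comap_opn φ h, h4]
        exact p.2
      have hoi : IsOpenImmersion (opn φ h).g := h
      let U : (aff k A).X.Opens := (opn φ h).g.opensRange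
      have hcompl : Complementary (closedVarIn (aff k A) U.compl) (opn φ h) := by
        rw [Complementary, range_closedVarIn]
        rfl
      have h5 : (ptE (k := k) n p).1 ∈ Set.range (closedVarIn (aff k A) U.compl).g := by
        rw [hcompl]
        exact h3
      rw [(T n).res_cl_eq_zero _ _ hcompl _ h5, smul_zero]

theorem inj_iff_cls (n : ℕ) :
    (T n).Inj (aff k A) ↔ ∀ c : RP k A n →₀ E, cls T n c = 0 → c ∈ rat k A E n := by
  rw [Homology.inj_iff]
  constructor
  · intro h c hc
    exact (cyE_mem c).mp (h _ hc)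
  · intro h c hc
    obtain ⟨c, rfl⟩ := (cyE (k := k) (A := A) E n).surjective c
    exact (cyE_mem c).mpr (h c hc)

theorem surj_iff_lin (i : ℕ) (X : Var k) : (T i).Surj X ↔
    ∀ m, (T i).F (2 * i) X m = m → ∃ c, Finsupp.linearCombination E ((T i).cl X) c = m := by
  constructor
  · intro h m hm
    obtain ⟨a, ha⟩ := h m hm
    obtain ⟨c, rfl⟩ := (ratZero E i X).mkQ_surjective a
    exact ⟨c, by rw [← (T i).clMap_mk]; exact ha⟩
  · intro h m hm
    obtain ⟨c, hc⟩ := h m hm
    exact ⟨(ratZero E i X).mkQ c, by rw [(T i).clMap_mk]; exact hc⟩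

theorem surj_iff_cls (n : ℕ) : (T n).Surj (aff k A) ↔
    ∀ m, (T n).F (2 * n) (aff k A) m = m → ∃ c : RP k A n →₀ E, cls T n c = m := by
  rw [surj_iff_lin]
  constructor
  · intro h m hm
    obtain ⟨c, hc⟩ := h m hm
    obtain ⟨c, rfl⟩ := (cyE (k := k) (A := A) E n).surjective c
    exact ⟨c, hc⟩
  · intro h m hm
    obtain ⟨c, hc⟩ := h m hm
    exact ⟨_, hc⟩

/-- The class of the pull-back of a cycle to a line. -/
theorem line_cls (X : Extra T) (φ : A →ₐ[k] B) (e : A[X] ≃+* B) (he : ∀ a, e (C a) = φ a) {n : ℕ}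
    (c : RP k A n →₀ E) (d : RP k B (n + 1) →₀ E) (h : IsPull k E 1 φ c d) :
    X.line n (2 * n) (lineE φ e he) (cls T n c) = cls T (n + 1) d := by
  rw [isPull_line_iff φ e he] at h
  subst h
  induction c using Finsupp.induction_linear with
  | zero => simp only [map_zero, Finsupp.mapDomain_zero]
  | add c d hc hd => simp only [map_add, Finsupp.mapDomain_add, hc, hd]
  | single p x =>
    rw [Finsupp.mapDomain_single, cls_single, cls_single, map_smul]
    congr 1
    apply X.line_cl n (lineE φ e he) (ptE n p) (ptE (n + 1) (lineP φ e he p))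
    change toPt (PrimeSpectrum.comap φ.toRingHom (lineP φ e he p).1) = toPt p.1
    rw [comap_lineP]

end Cls

/-! ## Isomorphisms -/

section Iso

variable {X Y W : Var k}

/-- The identity. -/
noncomputable def VIso.refl (X : Var k) : VIso X X where
  e := Iso.refl _
  comm := Category.id_comp _

/-- The inverse isomorphism. -/
noncomputable def VIso.symm (s : VIso X Y) : VIso Y X where
  e := s.e.symm
  comm := (Iso.inv_comp_eq s.e).mpr s.comm.symm

/-- The composite isomorphism. -/
noncomputable def VIso.trans (s : VIso X Y) (t : VIso Y W) : VIso X W where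
  e := s.e ≪≫ t.e
  comm := by
    rw [Iso.trans_hom, Category.assoc, t.comm, s.comm]

lemma VIso.surj (s : VIso X Y) (y : Y.X) : s.cl.g (s.symm.cl.g y) = y := by
  change (s.e.inv ≫ s.e.hom) y = y
  rw [s.e.inv_hom_id]
  rfl

lemma VIso.surj' (s : VIso X Y) (x : X.X) : s.symm.cl.g (s.cl.g x) = x := by
  change (s.e.hom ≫ s.e.inv) x = x
  rw [s.e.hom_inv_id]
  rfl

lemma VIso.range (s : VIso X Y) : Set.range s.cl.g = Set.univ :=
  Set.eq_univ_of_forall fun y => ⟨_, s.surj y⟩

/-- An isomorphism induces a bijection of points. -/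
noncomputable def VIso.pts (s : VIso X Y) (i : ℕ) : Pts i X ≃ Pts i Y where
  toFun := ptsMap i s.cl
  invFun := ptsMap i s.symm.cl
  left_inv x := Subtype.ext (s.surj' x.1)
  right_inv y := Subtype.ext (s.surj y.1)

variable {i : ℕ} (T : Homology.{v} k E i)

/-- Push-forward along an isomorphism is bijective. -/
theorem push_viso_bijective (n : ℕ) (s : VIso X Y) : Function.Bijective (T.P n s.cl) := by
  have hc : Complementary s.cl (openVarIn Y ⊥) := by
    rw [Complementary, s.range, range_openVarIn]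
    simp
  have he := isEmpty_openVar_bot Y
  obtain ⟨bd, hbd⟩ := (T.localisation n X (openVar Y ⊥) Y s.cl (openVarIn Y ⊥) hc).2
  have h1 := T.exact_X n s.cl (openVarIn Y ⊥) hc
  have i1 : Subsingleton (T.H n (openVar Y ⊥)) := T.empty n _ he
  have i2 : Subsingleton (T.H (n + 1) (openVar Y ⊥)) := T.empty (n + 1) _ he
  constructor
  · change Function.Injective (T.push n s.cl)
    rw [injective_iff_map_eq_zero]
    intro m hm
    obtain ⟨u, hu⟩ := (hbd m).mp hm
    rw [← hu, Subsingleton.elim u 0, map_zero]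
  · intro m
    exact (h1 m).mp (Subsingleton.elim _ _)

theorem injC_of_viso (s : VIso X Y) (h : T.InjC Y) : T.InjC X := by
  intro c hc
  have h1 := T.push_linComb s.cl c
  rw [hc, map_zero] at h1
  have h2 := h _ h1.symm
  have h3 := ratZero_map s.symm.cl _ h2
  rw [← Finsupp.mapDomain_comp] at h3
  have h4 : ptsMap i s.symm.cl ∘ ptsMap i s.cl = id := funext fun x => (s.pts i).left_inv x
  rwa [h4, Finsupp.mapDomain_id] at h3

/-- Injectivity of the cycle class map is invariant under isomorphisms. -/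
theorem inj_viso (s : VIso X Y) : T.Inj X ↔ T.Inj Y := by
  rw [T.inj_iff, T.inj_iff]
  exact ⟨injC_of_viso T s.symm, injC_of_viso T s⟩

theorem surj_of_viso (T : ∀ i : ℕ, Homology.{v} k E i) (i : ℕ) (s : VIso X Y)
    (h : (T i).Surj Y) : (T i).Surj X := by
  rw [surj_iff_lin] at h ⊢
  intro m hm
  have h1 : (T i).F (2 * i) Y ((T i).P (2 * i) s.cl m) = (T i).P (2 * i) s.cl m := by
    rw [← (T i).equivariant.1, hm]
  obtain ⟨c, hc⟩ := h _ h1
  refine ⟨Finsupp.mapDomain (s.pts i).symm c, ?_⟩
  apply (push_viso_bijective (T i) (2 * i) s).injective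
  rw [← hc]
  change (T i).push (2 * i) s.cl _ = _
  rw [(T i).push_linComb, ← Finsupp.mapDomain_comp]
  have h4 : ptsMap i s.cl ∘ (s.pts i).symm = id := funext fun x => (s.pts i).right_inv x
  rw [h4, Finsupp.mapDomain_id]

/-- Surjectivity of the cycle class map is invariant under isomorphisms. -/
theorem surj_viso (T : ∀ i : ℕ, Homology.{v} k E i) (i : ℕ) (s : VIso X Y) :
    (T i).Surj X ↔ (T i).Surj Y :=
  ⟨surj_of_viso T i s.symm, surj_of_viso T i s⟩

/-- Every affine variety is `Spec` of an algebra of finite type. -/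
theorem exists_aff (X : Var k) [IsAffine X.X] : ∃ (A : Type) (_ : CommRing A) (_ : Algebra k A)
    (_ : Algebra.FiniteType k A), Nonempty (VIso (aff k A) X) := by
  let A : CommRingCat.{0} := Γ(X.X, ⊤)
  let ψ : CommRingCat.of k ⟶ A := Spec.preimage (X.X.isoSpec.inv ≫ X.f)
  have hψ : Spec.map ψ = X.X.isoSpec.inv ≫ X.f := Spec.map_preimage _
  have hft : ψ.hom.FiniteType := by
    have h1 : LocallyOfFiniteType (Spec.map ψ) := by
      rw [hψ]
      infer_instance
    exact (HasRingHomProperty.Spec_iff (P := @LocallyOfFiniteType)).1 h1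
  let alg : Algebra k A := ψ.hom.toAlgebra
  have hft2 : Algebra.FiniteType k A := hft
  refine ⟨A, inferInstance, alg, hft2, ⟨⟨X.X.isoSpec.symm, ?_⟩⟩⟩
  exact hψ.symm

end Iso

end CUB


end

section

/-!
# CUB: bridge between affine varieties and rings

Contents (namespace `CUB`):
* `Dim1`: `rdim_lt`, `rdim_le`, `rdim_add_one_le`, `eq_of_le_of_rdim_eq`, `exists_rdim`
* `BR1`: `toPt`, `ofPt`, `dim_toPt`, `ptE`, `cyE`, `cyE_apply`, `cyE_single`, `cq`
* `BR2`: `len_comap`, `len_eq_zero`, `len_span`, `len_quot`, `ord_fn`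
* `BR3`: `coheight_eq_one`, `isDiv_iff`, `cyE_mem`
* `BR4`: `clo_ptE`, `opn_ptE`, `rdim_comap_opn`, `isOpenImmersion_spm`, `complementary_away`,
  `lineE`, `lineX`
* `BR5`: `pX`, `rdim_pX`, `lineP`, `isPull_line_iff`, `cls`, `cls_push`, `cls_rat`, `cls_frob`,
  `cls_res`, `inj_iff_cls`, `surj_iff_cls`, `line_cls`, `VIso.refl/symm/trans`,
  `push_viso_bijective`, `inj_viso`, `surj_viso`, `exists_aff`
* here: `ss_viso`, localizations away from an element.
-/

set_option autoImplicit false

open Polynomial CategoryTheory AlgebraicGeometry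

namespace CUB

open Pool.Agent.Lib_helper55.Beil Pool.Agent.Lib_helper66.OneP

universe v

variable {k : Type} [Field k] {A : Type} [CommRing A] [Algebra k A] [Algebra.FiniteType k A]
  {E : Type} [Field E]

instance finiteType_away (a : A) : Algebra.FiniteType k (Localization.Away a) :=
  have : Algebra.FiniteType A (Localization.Away a) :=
    RingHom.finiteType_algebraMap.1 (RingHom.finiteType_holdsForLocalizationAway _ a)
  Algebra.FiniteType.trans (S := A) inferInstance inferInstance

variable (k) in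
/-- The homomorphism `A → A[1/a]`. -/
noncomputable def awayHom (a : A) : A →ₐ[k] Localization.Away a :=
  IsScalarTower.toAlgHom k A (Localization.Away a)

omit [Algebra.FiniteType k A] in
lemma isLocalization_awayHom (a : A) :
    @IsLocalization.Away A _ a (Localization.Away a) _ (awayHom k a).toRingHom.toAlgebra := by
  have h : (awayHom k a).toRingHom.toAlgebra = (inferInstance : Algebra A (Localization.Away a)) := by
    apply Algebra.algebra_ext
    intro r
    rfl
  rw [h]
  infer_instance

instance isOpenImmersion_away (a : A) : IsOpenImmersion (spm (awayHom k a)) :=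
  isOpenImmersion_spm _ a (isLocalization_awayHom a)

/-- `V(a)` and `D(a)` are complementary. -/
lemma complementary_cq (a : A) :
    Complementary (cq (k := k) (Ideal.span {a})) (opn (awayHom k a) (isOpenImmersion_away a)) :=
  complementary_away (awayHom k a) a (isLocalization_awayHom a) _ _ Ideal.mk_ker

/-- Semisimplicity is invariant under isomorphisms. -/
theorem ss_viso {X Y : Var k} {i : ℕ} (T : Homology.{v} k E i) (s : VIso X Y) :
    T.Semisimple X ↔ T.Semisimple Y := by
  have key : ∀ {X Y : Var k} (_ : VIso X Y), T.Semisimple Y → T.Semisimple X := by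
    intro X Y s h m hm
    have hF : ∀ m, T.P (2 * i) s.cl (T.F (2 * i) X m) = T.F (2 * i) Y (T.P (2 * i) s.cl m) :=
      fun m => T.equivariant.1 (2 * i) X Y s.cl m
    have hsub : ∀ m m', T.P (2 * i) s.cl (m - m') =
        T.P (2 * i) s.cl m - T.P (2 * i) s.cl m' := fun m m' => map_sub (T.push (2 * i) s.cl) m m'
    apply (push_viso_bijective T (2 * i) s).injective
    rw [hF]
    apply h
    rw [← hF, ← hsub, ← hF, hm]
  exact ⟨key s.symm, key s⟩

end CUB


end
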