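import Mathlib
import Pool.Agent.QVM.C04
import Pool.Agent.QVM.C09
import Pool.Agent.QVM.C10

/-! Parts: CUB2.Defs4, CUB2.Defs5, QCV.Defs, CUB2.StmtsH, CUB2.StmtsG, QCV.Defs2, QCV.StR -/

section

/-!
# CUB2: push-forward along proper morphisms
-/

set_option autoImplicit false

open CategoryTheory AlgebraicGeometry Limits

namespace CUB

open Pool.Agent.Lib_helper55.Beil

universe v

variable {k : Type} [Field k]

/-- A proper morphism over `k`. -/
structure PrMor (X Y : Var k) where
  /-- the morphism -/
  g : X.X ⟶ Y.X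
  comm : g ≫ Y.f = X.f
  proper : IsProper g

/-- The degree of the residue field of `x` over the residue field of `f(x)` (`0` if it is
infinite). -/
noncomputable def PrMor.deg {X Y : Var k} (f : PrMor X Y) (x : X.X) : ℕ :=
  f.g.residueDegree x

variable {E : Type} [Field E]

/-- Push-forward maps in homology for proper morphisms. -/
structure ProperMaps (T : ∀ i : ℕ, Homology.{v} k E i) where
  /-- the push-forward along a proper morphism -/
  pf : ∀ (i n : ℕ) {X Y : Var k}, PrMor X Y → ((T i).H n X →ₗ[E] (T i).H n Y)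

section

variable {T : ∀ i : ℕ, Homology.{v} k E i} (S : ProperMaps T)

/-- The push-forward of a homology class along a proper morphism. -/
def ProperMaps.G (i n : ℕ) {X Y : Var k} (f : PrMor X Y) (m : (T i).H n X) : (T i).H n Y :=
  S.pf i n f m

/-- The push-forward extends the push-forward along closed immersions. -/
def ProperMaps.Closed : Prop :=
  ∀ (i n : ℕ) {Z X : Var k} (a : ClosedIn Z X) (f : PrMor Z X), f.g = a.g →
    ∀ m, S.G i n f m = (T i).P n a m

/-- The push-forward is functorial. -/
def ProperMaps.Functorial : Prop :=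
  ∀ (i n : ℕ) {X Y Z : Var k} (f : PrMor X Y) (g : PrMor Y Z) (h : PrMor X Z), f.g ≫ g.g = h.g →
    ∀ m, S.G i n g (S.G i n f m) = S.G i n h m

/-- The push-forward is compatible with restriction to open subvarieties. -/
def ProperMaps.Restriction : Prop :=
  ∀ (i n : ℕ) {U' X' U X : Var k} (f : PrMor X' X) (f' : PrMor U' U) (j' : OpenIn U' X')
    (j : OpenIn U X), IsPullback j'.g f'.g f.g j.g →
    ∀ m, (T i).R n j (S.G i n f m) = S.G i n f' ((T i).R n j' m)

/-- The push-forward is compatible with the boundary maps `B`. -/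
def ProperMaps.Boundary (B : ExtraMaps T) : Prop :=
  ∀ (i n : ℕ) {Z' U' X' Z U X : Var k} (a' : ClosedIn Z' X') (j' : OpenIn U' X')
    (h' : Complementary a' j') (a : ClosedIn Z X) (j : OpenIn U X) (h : Complementary a j)
    (fZ : PrMor Z' Z) (fU : PrMor U' U) (fX : PrMor X' X), a'.g ≫ fX.g = fZ.g ≫ a.g →
    j'.g ≫ fX.g = fU.g ≫ j.g →
    ∀ u, S.G i n fZ (B.B i n a' j' h' u) = B.B i n a j h (S.G i (n + 1) fU u)

/-- The push-forward commutes with Frobenius. -/
def ProperMaps.Frobenius : Prop :=
  ∀ (i n : ℕ) {X Y : Var k} (f : PrMor X Y) (m : (T i).H n X),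
    S.G i n f ((T i).F n X m) = (T i).F n Y (S.G i n f m)

/-- The push-forward of the class of a point `x` is the class of `f(x)`, multiplied by the degree
of the residue fields, if `f(x)` has the same dimension as `x`, and zero otherwise. -/
def ProperMaps.Classes : Prop :=
  ∀ (i : ℕ) {X Y : Var k} (f : PrMor X Y) (x : Pts i X),
    (∀ h : Y.dim (f.g x.1) = i,
      S.G i (2 * i) f ((T i).cl X x) = (f.deg x.1 : E) • (T i).cl Y ⟨f.g x.1, h⟩) ∧
    (Y.dim (f.g x.1) ≠ i → S.G i (2 * i) f ((T i).cl X x) = 0)

end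

/-- The further formal properties of l-adic homology which are used: those of `Extra`, and the
push-forward along proper morphisms. -/
structure Full (T : ∀ i : ℕ, Homology.{v} k E i) extends Extra T, ProperMaps T where
  pfClosed : toProperMaps.Closed
  pfFunctorial : toProperMaps.Functorial
  pfRestriction : toProperMaps.Restriction
  pfBoundary : toProperMaps.Boundary toExtraMaps
  pfFrobenius : toProperMaps.Frobenius
  pfClasses : toProperMaps.Classes

end CUB


end

section

/-!
# CUB2: definitions for the modules (not used in the final statement)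
-/

set_option autoImplicit false

open CategoryTheory AlgebraicGeometry Limits Polynomial TopologicalSpace

namespace CUB

open Pool.Agent.Lib_helper55.Beil Pool.Agent.Lib_helper66.OneP

universe v

variable {k : Type} [Field k]

/-! ## Morphisms -/

instance {Z X : Var k} (a : ClosedIn Z X) : IsClosedImmersion a.g := a.closed

instance {U X : Var k} (j : OpenIn U X) : IsOpenImmersion j.g := j.isOpen

instance {X Y : Var k} (f : PrMor X Y) : IsProper f.g := f.proper

/-- The identity as a closed immersion. -/
noncomputable def idIn (X : Var k) : ClosedIn X X where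
  g := 𝟙 X.X
  comm := Category.id_comp _
  closed := inferInstance

/-- A closed immersion as a proper morphism. -/
def clPr {Z X : Var k} (a : ClosedIn Z X) : PrMor Z X where
  g := a.g
  comm := a.comm
  proper := inferInstance

/-- The composition of proper morphisms. -/
def PrMor.trans {X Y Z : Var k} (f : PrMor X Y) (g : PrMor Y Z) : PrMor X Z where
  g := f.g ≫ g.g
  comm := by rw [Category.assoc, g.comm, f.comm]
  proper := inferInstance

/-- An isomorphism as a proper morphism. -/
def VIso.pr {X Y : Var k} (s : VIso X Y) : PrMor X Y := clPr s.cl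

/-- The product of varieties. -/
noncomputable def Var.prod (X Y : Var k) : Var k where
  X := pullback X.f Y.f
  f := pullback.fst X.f Y.f ≫ X.f
  sep := inferInstance
  lft := inferInstance
  qc := inferInstance

/-- The class of a cycle (`Pool.Agent.Lib_helper66.OneP.cls`; the name `CUB.cls` is used for affine
varieties). -/
noncomputable abbrev clz {E : Type} [Field E] {i : ℕ} (T : Homology.{v} k E i) (X : Var k)
    (c : Pts i X →₀ E) : T.H (2 * i) X :=
  Pool.Agent.Lib_helper66.OneP.cls T X c

/-! ## Push-forward and pull-back of cycles -/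

section Cycles

variable (E : Type) [Field E]

open Classical in
/-- The push-forward of a point, as a cycle. -/
noncomputable def pfPt (i : ℕ) {X Y : Var k} (f : PrMor X Y) (x : Pts i X) : Pts i Y →₀ E :=
  if h : Y.dim (f.g x.1) = i then Finsupp.single ⟨f.g x.1, h⟩ (f.deg x.1 : E) else 0

/-- The push-forward of cycles. -/
noncomputable def pfc (i : ℕ) {X Y : Var k} (f : PrMor X Y) : (Pts i X →₀ E) →ₗ[E] (Pts i Y →₀ E) :=
  Finsupp.linearCombination E (pfPt E i f)

variable {E}

/-- `d` is the flat pull-back (of relative dimension one) of the cycle `c` along `q`. -/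
def IsPullC {i : ℕ} {Y X : Var k} (q : Y.X ⟶ X.X) (c : Pts i X →₀ E) (d : Pts (i + 1) Y →₀ E) :
    Prop :=
  ∀ y : Pts (i + 1) Y, (∀ h : X.dim (q y.1) = i, d y = c ⟨q y.1, h⟩) ∧
    (X.dim (q y.1) ≠ i → d y = 0)

/-- The cycle `c` is the divisor of the (global) function `π` on the closure of the point `P`. -/
def IsFDv {i : ℕ} {Y : Var k} (π : Γ(Y.X, ⊤)) (P : Y.X) (c : Pts i Y →₀ E) : Prop :=
  ∃ (V : Var k) (_ : IsIntegral V.X) (b : ClosedIn V Y), b.g (genericPoint V.X) = P ∧
    IsDiv b (V.X.presheaf.germ ⊤ (genericPoint V.X) trivial (b.g.appTop π)) c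

variable (E)

open Classical in
/-- The divisor of the function `π` on the closure of the point `P` (`0` if `π` is zero there). -/
noncomputable def gysPt (i : ℕ) {Y : Var k} (π : Γ(Y.X, ⊤)) (P : Pts (i + 1) Y) : Pts i Y →₀ E :=
  if h : ∃ c : Pts i Y →₀ E, P.1 ∈ Y.X.basicOpen π ∧ IsFDv π P.1 c then h.choose else 0

/-- The intersection of a cycle with the divisor of the function `π`. -/
noncomputable def gys (i : ℕ) {Y : Var k} (π : Γ(Y.X, ⊤)) :
    (Pts (i + 1) Y →₀ E) →ₗ[E] (Pts i Y →₀ E) :=
  Finsupp.linearCombination E (gysPt E i π)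

end Cycles

/-- The closed subvariety `D` of `Y` has the zero set of the function `π` as underlying set. -/
def IsZeros {D Y : Var k} (a : ClosedIn D Y) (π : Γ(Y.X, ⊤)) : Prop :=
  Set.range a.g = ((Y.X.basicOpen π : Y.X.Opens) : Set Y.X)ᶜ

/-- The function on `Y = X × A^1` defined by a polynomial in the coordinate. -/
noncomputable def Line.fn {Y X : Var k} (L : Line Y X) (π : k[X]) : Γ(Y.X, ⊤) :=
  L.t.appTop ((Scheme.ΓSpecIso (CommRingCat.of k[X])).inv π)

/-! ## Geometric data -/

/-- `P` is proper over `X` and contains the product of `X` and the affine line as the complement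
of a section. -/
structure PBun (P X : Var k) where
  /-- the projection -/
  p : PrMor P X
  /-- the product with the affine line -/
  U : Var k
  /-- the open immersion of the product with the affine line -/
  j : OpenIn U P
  /-- the product with the affine line -/
  L : Line U X
  hL : j.g ≫ p.g = L.q
  /-- the section at infinity -/
  s : ClosedIn X P
  hs : s.g ≫ p.g = 𝟙 X.X
  hc : Complementary s j

/-- A proper morphism which is an isomorphism over an open subvariety. -/
structure Modif (X' X : Var k) where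
  /-- the morphism -/
  f : PrMor X' X
  /-- the closed subvariety -/
  Z : Var k
  /-- the open subvariety -/
  U : Var k
  /-- the closed subvariety of `X'` -/
  Z' : Var k
  /-- the open subvariety of `X'` -/
  U' : Var k
  /-- the inclusion of `Z` -/
  a : ClosedIn Z X
  /-- the inclusion of `U` -/
  j : OpenIn U X
  h : Complementary a j
  /-- the inclusion of `Z'` -/
  a' : ClosedIn Z' X'
  /-- the inclusion of `U'` -/
  j' : OpenIn U' X'
  h' : Complementary a' j'
  /-- the morphism from `Z'` to `Z` -/
  fZ : PrMor Z' Z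
  /-- the isomorphism from `U'` to `U` -/
  fU : VIso U' U
  hZ : a'.g ≫ f.g = fZ.g ≫ a.g
  hU : IsPullback j'.g fU.e.hom f.g j.g

/-- `h` is a function on the open subset `V` of `X₀`. There are finitely many global functions on
`Y` such that the union `O` of the open subsets where one of them is invertible contains the
preimage of `V`, and the pull-back of `h` to this preimage extends to a function on `O`. -/
def Processed {Y X₀ : Scheme.{0}} (f : Y ⟶ X₀) (V : X₀.Opens) (h : Γ(X₀, V)) : Prop :=
  ∃ (s : Finset Γ(Y, ⊤)) (O : Y.Opens) (g : Γ(Y, O)) (hO : f ⁻¹ᵁ V ≤ O),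
    (∀ y : Y, y ∈ O ↔ ∃ b ∈ s, y ∈ Y.basicOpen b) ∧
    Y.presheaf.map (homOfLE hO).op g = f.app V h

/-- The inclusion `k[t] → k[t, 1 / t]`. -/
noncomputable def gm₀ : k[X] →+* LaurentPolynomial k := Polynomial.toLaurent

/-- The homomorphism `k[t] → k[t, 1 / t]`, `t ↦ 1 / t`. -/
noncomputable def gm₁ : k[X] →+* LaurentPolynomial k :=
  (LaurentPolynomial.invert (R := k) : LaurentPolynomial k →+* LaurentPolynomial k).comp gm₀

/-- The projective line over `k`: two affine lines glued along `t = 1 / s`. -/
structure PLine (k : Type) [Field k] where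
  /-- the projective line -/
  P : Var k
  proper : IsProper P.f
  /-- the first affine line -/
  j₀ : OpenIn (aff k k[X]) P
  /-- the second affine line -/
  j₁ : OpenIn (aff k k[X]) P
  cover : Set.range j₀.g ∪ Set.range j₁.g = Set.univ
  glue : IsPullback (Spec.map (CommRingCat.ofHom gm₀)) (Spec.map (CommRingCat.ofHom gm₁))
    j₀.g j₁.g

end CUB


end

section

/-!
# QCV: definitions of the final statement

Quadratic equations over bases of small dimension (MP_3af9db_ag).  See `PAPER.md`.
-/

set_option autoImplicit false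

open CategoryTheory AlgebraicGeometry Polynomial

namespace QCV

open Pool.Agent.Lib_helper55.Beil Pool.Agent.Lib_helper66.OneP CUB

universe v

/-! ## Double covers -/

section Dbl

variable {A : Type} [CommRing A] (b c : A)

/-- The polynomial `t ^ 2 + b t + c`. -/
noncomputable def dpoly : A[X] := X ^ 2 + C b * X + C c

lemma dpoly_monic : (dpoly b c).Monic := by
  unfold dpoly
  monicity!

/-- The ring `A[t] / (t ^ 2 + b t + c)`. -/
abbrev Dr (A : Type) [CommRing A] (b c : A) : Type := AdjoinRoot (dpoly b c)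

instance : Module.Finite A (Dr A b c) := (dpoly_monic b c).finite_adjoinRoot

instance finiteType_Dr {k : Type} [Field k] [Algebra k A] [Algebra.FiniteType k A] :
    Algebra.FiniteType k (Dr A b c) :=
  Algebra.FiniteType.trans (S := A) inferInstance inferInstance

variable (k : Type) [Field k] [Algebra k A]

/-- The inclusion of `A` in `A[t] / (t ^ 2 + b t + c)`. -/
noncomputable def drHom : A →ₐ[k] Dr A b c := IsScalarTower.toAlgHom k A (Dr A b c)

/-- The double cover `Spec A[t] / (t ^ 2 + b t + c) → Spec A`. -/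
noncomputable def dbl [Algebra.FiniteType k A] : PrMor (aff k (Dr A b c)) (aff k A) where
  g := spm (drHom b c k)
  comm := spm_comm _
  proper := by
    have h : IsFinite (Spec.map (CommRingCat.ofHom (drHom b c k).toRingHom)) := by
      rw [IsFinite.SpecMap_iff]
      change ((algebraMap A (Dr A b c))).Finite
      exact RingHom.finite_algebraMap.2 inferInstance
    exact (inferInstance : IsProper (Spec.map (CommRingCat.ofHom (drHom b c k).toRingHom)))

end Dbl

variable {k : Type} [Field k] {E : Type} [Field E]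

/-- Pull-back maps along the double covers `Spec A[t] / (t ^ 2 + b t + c) → Spec A`. -/
structure DblMaps (T : ∀ i : ℕ, Homology.{v} k E i) where
  /-- the pull-back -/
  pb : ∀ (i n : ℕ) (A : Type) [CommRing A] [Algebra k A] [Algebra.FiniteType k A] (b c : A),
    (T i).H n (aff k A) →ₗ[E] (T i).H n (aff k (Dr A b c))

section

variable {T : ∀ i : ℕ, Homology.{v} k E i}

/-- The pull-back of a homology class along a double cover. -/
noncomputable def DblMaps.D (S : DblMaps T) (i n : ℕ) (A : Type) [CommRing A] [Algebra k A]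
    [Algebra.FiniteType k A] (b c : A) (m : (T i).H n (aff k A)) :
    (T i).H n (aff k (Dr A b c)) :=
  S.pb i n A b c m

/-- The pull-back commutes with Frobenius. -/
def DblMaps.Frobenius (S : DblMaps T) : Prop :=
  ∀ (i n : ℕ) (A : Type) [CommRing A] [Algebra k A] [Algebra.FiniteType k A] (b c : A)
    (m : (T i).H n (aff k A)), S.D i n A b c ((T i).F n _ m) = (T i).F n _ (S.D i n A b c m)

/-- The push-forward of the pull-back is the multiplication by two. -/
def DblMaps.Degree (S : DblMaps T) (G : ProperMaps T) : Prop :=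
  ∀ (i n : ℕ) (A : Type) [CommRing A] [Algebra k A] [Algebra.FiniteType k A] (b c : A)
    (m : (T i).H n (aff k A)), G.G i n (dbl b c k) (S.D i n A b c m) = (2 : E) • m

/-- The pull-back of the class of a point `x` is the class of a cycle on the double cover whose
push-forward is `2 x`. -/
def DblMaps.Classes (S : DblMaps T) : Prop :=
  ∀ (i : ℕ) (A : Type) [CommRing A] [Algebra k A] [Algebra.FiniteType k A] (b c : A)
    (x : Pts i (aff k A)), ∃ z : Pts i (aff k (Dr A b c)) →₀ E,
      cls (T i) _ z = S.D i (2 * i) A b c ((T i).cl _ x) ∧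
        pfc E i (dbl b c k) z = Finsupp.single x 2

/-- The boundary maps commute with Frobenius. -/
def BdFrob (S : ExtraMaps T) : Prop :=
  ∀ (i n : ℕ) {Z U X : Var k} (a : ClosedIn Z X) (j : OpenIn U X) (h : Complementary a j)
    (u : (T i).H (n + 1) U), S.B i n a j h ((T i).F (n + 1) U u) = (T i).F n Z (S.B i n a j h u)

/-- The sequence `H_(n+1)(X) → H_(n+1)(U) → H_n(Z)` is exact. -/
def ResExact (S : ExtraMaps T) : Prop :=
  ∀ (i n : ℕ) {Z U X : Var k} (a : ClosedIn Z X) (j : OpenIn U X) (h : Complementary a j),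
    Function.Exact ((T i).R (n + 1) j) (S.B i n a j h)

/-- The pull-back along lines is compatible with the restriction to open subvarieties. -/
def LineRes (S : ExtraMaps T) : Prop :=
  ∀ (i n : ℕ) {Y X Y' X' : Var k} (L : Line Y X) (L' : Line Y' X') (l : OpenIn Y' Y)
    (j : OpenIn X' X), l.g ≫ L.q = L'.q ≫ j.g →
    ∀ m : (T i).H n X, (T (i + 1)).R (n + 2) l (S.L i n L m) = S.L i n L' ((T i).R n j m)

end

/-- Further published properties of l-adic homology `(T i).H n X = H_n(Xbar, Q_l(i))`: weights
(Deligne), the boundary maps of the localisation sequences, the pull-back along lines and double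
covers, and the injectivity of the cycle class map for divisors. -/
structure Pub (T : ∀ i : ℕ, Homology.{v} k E i) (hT : Full T) : Prop where
  /-- no eigenvalue one in `H_(2i-1)(Xbar, Q_l(i))` -/
  weights : ∀ i, Weights (T i)
  bdFrob : BdFrob hT.toExtraMaps
  resExact : ResExact hT.toExtraMaps
  lineRes : LineRes hT.toExtraMaps
  dbl : ∃ S : DblMaps T, S.Frobenius ∧ S.Degree hT.toProperMaps ∧ S.Classes
  /-- a divisor with class zero is rationally equivalent to zero -/
  divisors : ∀ (i : ℕ) (X : Var k), X.DimLE (i + 1) → (T i).Inj X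

/-- The conjecture for the `i`-dimensional cycles on `X`: the cycle class map is bijective onto the
invariants of Frobenius, and the eigenvalue one is semisimple. -/
def Q1 {i : ℕ} (T : Homology.{v} k E i) (X : Var k) : Prop :=
  T.Inj X ∧ T.Surj X ∧ T.Semisimple X

end QCV


end

section

/-!
# CUB2, block H: homology (statements)

Module `X` proves `theorem t_X : M_X` (or `t_X : S_X` if there is no `M_X`) in the namespace `CUB`, in the file
`Pool/Agent/CUB2/H_X.lean`, importing this file.  The hypotheses of `M_X` are statements of other modules.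
Useful: `(T i).InjC X` (cycle form of injectivity, `Homology.inj_iff`), `ptsMap`, `ratZero_map`, `Homology.push_linComb` (Lib_helper55/Beil/Inj), `clz` (= `OneP.cls`; in the comments `cls` is `clz`),
`pushCyc`, `push_cls`, `res_cls`, `exists_cls` (Lib_helper66/OneP/Full), `resCyc`, `resCyc_ratZero`, `exists_ratZero`, `exists_isDiv` (OneP/Loc), `closedVar`, `openVar`, `dim_map`
(Beil/Geom), `closedVarMap`, `liftC`, `factorC` (Beil/Geom2), `clMap_mk` (Beil/Surj), the maximal generalised eigenspace tools in Beil/LinAlg and Beil/Surj.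
-/

set_option autoImplicit false

open CategoryTheory AlgebraicGeometry Limits Polynomial TopologicalSpace

namespace CUB

open Pool.Agent.Lib_helper55.Beil Pool.Agent.Lib_helper66.OneP

universe v

/-! ## 1. Push-forward of cycles -/

/-- PFC. Push-forward of cycles. `pfPt E i f x` is `deg(x) · f(x)` if `f(x)` has dimension `i`, and `0` otherwise. (1) the residue field of `f(x)` embeds in that of `x` over `k`, so the
transcendence degree does not increase. (2) functoriality: for a point `x` of dimension `i`, `y = f x`, `z = g y`: `dim z ≤ dim y ≤ i`; if `dim z = i` then `dim y = i` and the degrees are multiplicative (`Module.finrank_mul_finrank`, no finiteness needed for fields); otherwise both sides are zero. Only the underlying morphisms matter.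
(3) for a closed immersion the residue fields agree (`residueFieldMap_bijective` in Beil/Geom), the degree is one. (4) by `pfClasses` and linearity. (5) if no point of the support of `c` has an image of dimension `i` then the push-forward is zero. (6) the value of `pfc f c` at `y` is the sum over the points `x` of the support of `c` over `y`. -/
def S_PFC : Prop :=
  (∀ (k : Type) [Field k] (X Y : Var k) (g : X.X ⟶ Y.X), g ≫ Y.f = X.f →
    ∀ x : X.X, Y.dim (g x) ≤ X.dim x) ∧
  (∀ (k E : Type) [Field k] [Field E] (i : ℕ) (X Y Z : Var k) (f : PrMor X Y) (g : PrMor Y Z)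
    (h : PrMor X Z), f.g ≫ g.g = h.g → ∀ c, pfc E i g (pfc E i f c) = pfc E i h c) ∧
  (∀ (k E : Type) [Field k] [Field E] (i : ℕ) (Z X : Var k) (a : ClosedIn Z X) (f : PrMor Z X),
    f.g = a.g → ∀ c, pfc E i f c = pushCyc a c) ∧
  (∀ (k E : Type) [Field k] [Field E] (T : ∀ i : ℕ, Homology.{v} k E i) (hT : Full T) (i : ℕ)
    (X Y : Var k) (f : PrMor X Y) (c : Pts i X →₀ E),
    clz (T i) Y (pfc E i f c) = hT.G i (2 * i) f (clz (T i) X c)) ∧
  (∀ (k E : Type) [Field k] [Field E] (i : ℕ) (X Y : Var k) (f : PrMor X Y) (c : Pts i X →₀ E),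
    (∀ x, c x ≠ 0 → Y.dim (f.g x.1) ≠ i) → pfc E i f c = 0) ∧
  (∀ (k E : Type) [Field k] [Field E] (i : ℕ) (X Y : Var k) (f : PrMor X Y) (c : Pts i X →₀ E)
    (y : Pts i Y), pfc E i f c y =
      c.sum (fun x e => e * (open Classical in if f.g x.1 = y.1 then (f.deg x.1 : E) else 0)))

/-- DST. Dimensions drop strictly under specialisation. Take a chart `Spec A` (`exists_aff`, `openVar`) around `y`; it contains `x`; `dim_toPt`, `PrimeSpectrum.le_iff_specializes` and S_DIM1 (`CUB/A_DIM1.lean`). (3) the coheight is one: `coheight_eq_one` in CUB/BR3 in a chart, or from (1) and the definition. (4) Mathlib's `IsIntegral` schemes: a closed subvariety of an integral variety `X` of dimension `n` with a point of dimension `n` is everything. -/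
def S_DST : Prop :=
  (∀ (k : Type) [Field k] (X : Var k) (x y : X.X), x ⤳ y → x ≠ y → X.dim y < X.dim x) ∧
  (∀ (k : Type) [Field k] (X : Var k) (x : X.X), ∃ n : ℕ, X.dim x = n) ∧
  (∀ (k : Type) [Field k] (n : ℕ) (X : Var k) (_ : IsIntegral X.X) (x : X.X),
    X.dim (genericPoint X.X) = (n + 1 : ℕ) → X.dim x = n → Order.coheight x = 1) ∧
  ∀ (k : Type) [Field k] (n : ℕ) (X : Var k) (_ : IsIntegral X.X) (x : X.X), X.DimLE n →
    X.dim x = n → x = genericPoint X.X

/-! ## 2. Homology -/

/-- MOD. Modifications. `f : X' → X` proper, an isomorphism over `U = X ∖ Z`, `U' = f⁻¹ U`, `Z' = X' ∖ U'`. Let `cls α = 0`, `α` a cycle on `X`. Let `α'` be the cycle on `X'` with `α' (j' u) = α (j (fU u))` for the points of `U'`, and `0` outside `U'` (`exists_cls`-like; `Finsupp.mapDomain`). Then `α = pfc f α' + pushCyc a β` with `β` on `Z` (the degree of `f` at the points of `U'` is one: at these points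
`f` is an isomorphism on stalks; or: the restriction of `pfc f α'` to `U` is computed with (2), (3), (6) of S_PFC). The restriction to `U` of `cls (pfc f α') = G f (cls α')` is `-` the restriction of `P a (cls β)`, zero, so by `pfRestriction` `G fU (R j' (cls α')) = 0`, and `G fU = P fU.cl` is bijective (`push_viso_bijective` in CUB/BR5), so `R j' (cls α') = 0` and `cls α' = P a' δ₀` (`exact_X`).
`P a (G fZ δ₀ + cls β) = G f (P a' δ₀) + P a (cls β) = cls α = 0`, so `G fZ δ₀ + cls β = B u` (`bdExact`); `u = G fU u'`; `B u = G fZ (B' u')` (`pfBoundary`). Let `δ = δ₀ - B' u'`: `G fZ δ + cls β = 0` and `P a' δ = cls α'` (`P a' (B' u') = 0` by `bdExact`). Let `δ₁` be the component of `δ` in the generalised eigenspace of Frobenius for the eigenvalue `1` (finite-dimensional spaces; the projection is natural for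
maps which commute with Frobenius, see `Beil/Surj`, `Beil/LinAlg`); `cls β` and `cls α'` are invariant under Frobenius, so `G fZ δ₁ + cls β = 0`, `P a' δ₁ = cls α'`. By `Semisimple` and `Surj` for `Z'`: `F δ₁ = δ₁` and `δ₁ = cls ε`. Then `cls (α' - pushCyc a' ε) = 0` and `cls (β + pfc fZ ε) = 0`, so both are in `ratZero`, and `α = pfc f (α' - pushCyc a' ε) + pushCyc a (β + pfc fZ ε)`
is in `ratZero` by the last hypothesis and `ratZero_map`. -/
def S_MOD : Prop := ∀ (k E : Type) [Field k] [Field E] (T : ∀ i : ℕ, Homology.{v} k E i)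
  (_ : Full T) (i : ℕ) (X' X : Var k) (M : Modif X' X),
  (∀ Z : Var k, (T i).Surj Z ∧ (T i).Semisimple Z) → (T i).InjC X' → (T i).InjC M.Z →
  (∀ c ∈ ratZero E i X', pfc E i M.f c ∈ ratZero E i X) → (T i).InjC X

def M_MOD : Prop := S_PFC.{v} → S_MOD.{v}

/-- OPEN. Open subvarieties. `Z` = the reduced complement (`closedVar`). `c` a cycle on `U` with class zero; `c = resCyc j c'`; the class of `c'` restricts to zero, so it is `P a δ`; as in S_MOD replace `δ` by its component `δ₁` for the eigenvalue one; `δ₁ = cls ε`; `c' - pushCyc a ε` has class zero, so it is in `ratZero E i X`, and its restriction `c` is in `ratZero E i U`. (Possibly this is already proved in Lib_helper55/Beil or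
Lib_helper66/OneP.) -/
def S_OPEN : Prop := ∀ (k E : Type) [Field k] [Field E] (i : ℕ) (T : Homology.{v} k E i)
  (U X : Var k) (_ : OpenIn U X), (∀ Z : Var k, T.Surj Z ∧ T.Semisimple Z) → T.InjC X →
  T.InjC U

/-- PUSHR. Push-forward preserves rational equivalence. Span induction: let `c` be a generator: `W` integral of dimension `i + 1`, `a : W → X`, `φ`, `IsDiv a φ c`. `c = pushCyc a d`, `IsDiv (idIn W) φ d` (`exists_div`, `isDiv_unique`, or directly), so `d ∈ ratZero E i W` and `cls d = 0` (`cl_rat`). Let `V` be the closed subvariety of `Y` (reduced, `closedVar`) with underlying set the closure of the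
image of `W`, `b : V → Y`; `V` is integral; `h : W → V` with `h ≫ b = a ≫ f` (`liftC`, since `W` is reduced); `h` is proper (`IsProper.of_comp` or similar, `b` is separated). The generic point of `V` is the image of that of `W`, so `V.DimLE (i + 1)` (S_PFC (1), `dim_le_of_specializes`). `cls (pfc h d) = G h (cls d) = 0`, so `pfc h d ∈ ratZero E i V` by hypothesis. `pfc f c = pfc f (pfc a d) = pfc b (pfc h d)` by S_PFC (2), (3). -/
def S_PUSHR : Prop := ∀ (k E : Type) [Field k] [Field E] (T : ∀ i : ℕ, Homology.{v} k E i)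
  (_ : Full T) (i : ℕ) (X Y : Var k) (f : PrMor X Y),
  (∀ V : Var k, V.DimLE (i + 1) → (T i).InjC V) → ∀ c ∈ ratZero E i X,
  pfc E i f c ∈ ratZero E i Y

def M_PUSHR : Prop := S_PFC.{v} → S_PUSHR.{v}

/-- LPT. The points of a product with the affine line, and of a `P^1`-bundle. The fibre over `x` is the affine line over the residue field of `x`. (1) dimensions. (2), (3) there is exactly one point over `x` of dimension `dim x + 1`, the generic point of the fibre, and it specialises to all points over `x`. For an affine open subset `Spec R` of `X` the product is `Spec R[X]`: see `pX` in CUB/BR5 and S_GX, S_DIM1 (`CUB/A_GX`, `CUB/A_DIM1`).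
(4) For a `PBun`: the points of `P` are those of `U` and those of the section, of the same dimension as their image. -/
def S_LPT : Prop :=
  (∀ (k : Type) [Field k] (Y X : Var k) (L : Line Y X) (y : Y.X), X.dim (L.q y) ≤ Y.dim y ∧
    Y.dim y ≤ X.dim (L.q y) + 1) ∧
  (∀ (k : Type) [Field k] (Y X : Var k) (L : Line Y X) (x : X.X), ∃ y : Y.X, L.q y = x ∧
    Y.dim y = X.dim x + 1 ∧ (∀ y' : Y.X, L.q y' = x → y ⤳ y') ∧
    ∀ y' : Y.X, L.q y' = x → Y.dim y' = X.dim x + 1 → y' = y) ∧
  (∀ (k : Type) [Field k] (P X : Var k) (B : PBun P X) (y : P.X), X.dim (B.p.g y) ≤ P.dim y ∧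
    P.dim y ≤ X.dim (B.p.g y) + 1) ∧
  (∀ (k : Type) [Field k] (P X : Var k) (B : PBun P X) (x : X.X), ∃ y : P.X, B.p.g y = x ∧
    P.dim y = X.dim x + 1 ∧ y ∈ Set.range B.j.g ∧
    ∀ y' : P.X, B.p.g y' = x → P.dim y' = X.dim x + 1 → y' = y)

/-- PCY. Pull-back of cycles. For every point `x` of dimension `i` there is exactly one point `y_x` of dimension `i + 1` over `x`; `d = ∑ c(x) [y_x]` (`Finsupp.mapDomain`). (3) the restriction to `U`. (4) pull-backs have no component in the section or in any closed subset which contains no `y_x`; here: the push-forward to `X` is zero. -/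
def S_PCY : Prop :=
  (∀ (k E : Type) [Field k] [Field E] (i : ℕ) (Y X : Var k) (L : Line Y X) (c : Pts i X →₀ E),
    ∃ d : Pts (i + 1) Y →₀ E, IsPullC L.q c d) ∧
  (∀ (k E : Type) [Field k] [Field E] (i : ℕ) (P X : Var k) (B : PBun P X) (c : Pts i X →₀ E),
    ∃ d : Pts (i + 1) P →₀ E, IsPullC B.p.g c d) ∧
  (∀ (k E : Type) [Field k] [Field E] (i : ℕ) (P X : Var k) (B : PBun P X) (c : Pts i X →₀ E)
    (d : Pts (i + 1) P →₀ E), IsPullC B.p.g c d → IsPullC B.L.q c (resCyc B.j d)) ∧
  (∀ (k E : Type) [Field k] [Field E] (i : ℕ) (P X : Var k) (B : PBun P X) (c : Pts i X →₀ E)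
    (d : Pts (i + 1) P →₀ E), IsPullC B.p.g c d → pfc E (i + 1) B.p d = 0) ∧
  (∀ (k E : Type) [Field k] [Field E] (i : ℕ) (Y X : Var k) (q : Y.X ⟶ X.X)
    (c c' : Pts i X →₀ E) (d d' : Pts (i + 1) Y →₀ E), IsPullC q c d → IsPullC q c' d' →
    (c = c' → d = d') ∧ IsPullC q (c + c') (d + d')) ∧
  (∀ (k E : Type) [Field k] [Field E] (T : ∀ i : ℕ, Homology.{v} k E i) (hT : Extra T) (i : ℕ)
    (Y X : Var k) (L : Line Y X) (c : Pts i X →₀ E) (d : Pts (i + 1) Y →₀ E), IsPullC L.q c d →
    clz (T (i + 1)) Y d = hT.L i (2 * i) L (clz (T i) X c))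

def M_PCY : Prop := S_PFC.{v} → S_LPT → S_PCY.{v}

/-- PULLP. The pull-back to a `P^1`-bundle of a homologically trivial cycle. `R j (cls d) = cls (resCyc j d) = L (cls c) = 0` (S_PCY (3), (6)), so `cls d = P s z`. `G p (P s z) = z` (`pfClosed`, `pfFunctorial`, `push_id`: `s ≫ p = 𝟙`). `G p (cls d) = cls (pfc p d) = 0` (S_PFC (4), S_PCY (4)). So `z = 0`. -/
def S_PULLP : Prop := ∀ (k E : Type) [Field k] [Field E] (T : ∀ i : ℕ, Homology.{v} k E i)
  (_ : Full T) (i : ℕ) (P X : Var k) (B : PBun P X) (c : Pts i X →₀ E)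
  (d : Pts (i + 1) P →₀ E), IsPullC B.p.g c d → clz (T i) X c = 0 → clz (T (i + 1)) P d = 0

def M_PULLP : Prop := S_PFC.{v} → S_PCY.{v} → S_PULLP.{v}

/-- L4. Homotopy invariance: the pull-back `CH_i(X) → CH_(i+1)(X × A^1)` is injective (module L4F in block K). -/
def S_L4 : Prop := ∀ (k E : Type) [Field k] [Finite k] [Field E] [CharZero E] (i : ℕ)
  (Y X : Var k) (L : Line Y X) (c : Pts i X →₀ E) (d : Pts (i + 1) Y →₀ E), IsPullC L.q c d →
  d ∈ ratZero E (i + 1) Y → c ∈ ratZero E i X

/-- DESC. Descent. `P → X` a `P^1`-bundle, `σ` a section, `Y = P ∖ σ(X)`. Let `cls α = 0` on `X`, `d` its pull-back to `P` (S_PCY (2)); `cls d = 0` (S_PULLP). `resCyc j d ∈ ratZero` since its class is zero. `ρ ∈ ratZero E (i + 1) P` with the same restriction to `Y` (`exists_ratZero`); `ρ - d` is supported on `σ(X)`, so `ρ - d = pushCyc σ δ` (`mem_range_ptsMap`). The class of `ρ - d` is zero; apply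
`G p`: `G p (P σ (cls δ)) = cls δ`, so `cls δ = 0` and `δ ∈ ratZero E (i + 1) X` by hypothesis; so `d ∈ ratZero E (i + 1) P`, and `resCyc B.j d ∈ ratZero E (i + 1) B.U`, the pull-back of `α` (S_PCY (3)); use S_L4. -/
def S_DESC : Prop := ∀ (k E : Type) [Field k] [Finite k] [Field E] [CharZero E]
  (T : ∀ i : ℕ, Homology.{v} k E i) (_ : Full T) (i : ℕ) (P X Y : Var k) (B : PBun P X)
  (σ : ClosedIn X P) (j : OpenIn Y P), σ.g ≫ B.p.g = 𝟙 X.X → Complementary σ j →
  (T (i + 1)).InjC X → (T (i + 1)).InjC Y → (T i).InjC X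

def M_DESC : Prop := S_PCY.{v} → S_PULLP.{v} → S_L4 → S_DESC.{v}

/-- REDI. Reduction to integral varieties. Noetherian induction on closed subsets `C` of `X`: `InjC (closedVar X C)`. If `C` is empty there are no cycles. If `C` is irreducible, `closedVar X C` is integral. Otherwise `C = C₁ ∪ C₂`, both smaller: S_MOD for `X' = closedVar C₁ → closedVar C` (closed immersion, `closedVarMap`), `Z = closedVar C₂`, `U` = the complement of `Z`, `U' = f⁻¹ U`, `Z'` = its
complement in `X'`; `U' → U` is an isomorphism: a surjective closed immersion to a reduced scheme (`closedVar` is reduced). The last hypothesis of S_MOD: S_PFC (3) and `ratZero_map`. At the end `closedVar X ⊤` is the reduced subvariety: `injC_of_red`. -/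
def S_REDI : Prop := ∀ (k E : Type) [Field k] [Field E] (T : ∀ i : ℕ, Homology.{v} k E i)
  (_ : Full T) (i : ℕ) (X : Var k), (∀ Z : Var k, (T i).Surj Z ∧ (T i).Semisimple Z) →
  (∀ V : Var k, IsIntegral V.X → ClosedIn V X → (T i).InjC V) → (T i).InjC X

def M_REDI : Prop := S_PFC.{v} → S_MOD.{v} → S_REDI.{v}

/-- P0. Dimension at most `i`. By S_REDI we may assume that `X` is integral (closed subvarieties have smaller dimension, `dim_map`). If the dimension of the generic point is less than `i` there are no cycles. Otherwise a cycle is a multiple `e [X]` of the generic point `ξ` (a point of dimension `i` is the generic point: S_DST (4)). Suppose `e • cl [X] = 0`; restrict to a nonempty affine open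
subvariety `U` (`openVar`): `e • cl [U] = 0`, so `e [U] ∈ ratZero E i U` by hypothesis, and `ratZero E i U = ⊥` (there is no integral closed subvariety of dimension `i + 1`), so `e = 0`. -/
def S_P0 : Prop := ∀ (k E : Type) [Field k] [Field E] (T : ∀ i : ℕ, Homology.{v} k E i)
  (_ : Full T) (i : ℕ), (∀ Z : Var k, (T i).Surj Z ∧ (T i).Semisimple Z) →
  (∀ X : Var k, IsAffine X.X → (T i).InjC X) → ∀ X : Var k, X.DimLE i → (T i).InjC X

def M_P0 : Prop := S_DST → S_REDI.{v} → S_P0.{v}

end CUB


end

section

/-!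
# CUB2, block G: geometry (statements)

Module `X` proves `theorem t_X : M_X` (or `t_X : S_X` if there is no `M_X`) in the namespace `CUB`, in the file
`Pool/Agent/CUB2/G_X.lean`, importing this file.  The hypotheses of `M_X` are statements of other modules.
`PLine k` (`Defs5.lean`) is the projective line over `k`: a proper variety `P` with two open immersions `j₀, j₁ : A^1 → P` which cover `P` and are glued along `t = 1 / s`; `X.prod Y` is the fibre product over `k`.
Mathlib: `AlgebraicGeometry/ProjectiveSpectrum/Basic`, `Proper`, `AlgebraicGeometry/Gluing`, `AlgebraicGeometry/QuasiAffine`, `Morphisms/Affine`.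
-/

set_option autoImplicit false

open CategoryTheory AlgebraicGeometry Limits Polynomial TopologicalSpace

namespace CUB

open Pool.Agent.Lib_helper55.Beil Pool.Agent.Lib_helper66.OneP

universe v

/-! ## 1. The projective line -/

/-- PLI. The projective line exists. `Proj` of `k[x_0, x_1]` (`MvPolynomial (Fin 2) k` with `MvPolynomial.homogeneousSubmodule`, or the graded ring of your choice): proper over `Spec 𝒜_0 = Spec k` by `AlgebraicGeometry/ProjectiveSpectrum/Proper.lean`; the charts are `Proj.awayι` for `x_0`, `x_1`, of degree one, with `Away x_0 = k[x_1 / x_0]` (polynomial ring: surjective, and injective since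
`k[x_0, x_1]` is a domain / by evaluation), they cover (`iSup_basicOpen_eq_top`), and their intersection is the chart of `x_0 x_1` (`pullbackAwayιIso`), with ring `k[t, 1 / t]`, `t ↦ t` and `t ↦ 1 / t`. Any other construction is welcome (gluing two affine lines: then separatedness and the valuative criterion have to be checked by hand). It may be convenient to prove first the existence of the scheme with the two charts, then the rest. -/
def S_PLI : Prop := ∀ (k : Type) [Field k], Nonempty (PLine k)

/-- PLP. The point at infinity: the complement of the first chart is the point `s = 0` of the second chart: the morphism `Spec k → Spec k[s] → P` (`s ↦ 0`) is a closed immersion (`Spec k` is proper over `k` and the morphism is an immersion, or a section of the separated morphism `P → Spec k`), with image the complement of the image of `j₀` (from the field `glue`: a point `j₁ y` is in the image of `j₀` iff `s` is invertible at `y`). `P` is integral. -/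
def S_PLP : Prop := ∀ (k : Type) [Field k] (H : PLine k), IsIntegral H.P.X ∧
  ∃ s : ClosedIn (aff k k) H.P, Complementary s H.j₀

/-- DIAG. `P × P ∖ Δ` is affine. Let `T` be this open subscheme. It is covered by the two open subsets `T₁` = (`j₀` chart in the first factor, coordinate `t`, `j₁` chart in the second factor, coordinate `s'`, minus the diagonal) = `Spec k[t, s'][1 / (1 - t s')]` and `T₂` = (`j₁` chart, coordinate `s`, and `j₀` chart, coordinate `t'`, minus the diagonal) = `Spec k[s, t'][1 / (1 - s t')]`: indeed a point of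
`P × P` outside both is `(j₀-point not in j₁, j₀-point not in j₁) = (0, 0)` or `(∞, ∞)`, which are in `Δ`. On the intersection `t t' s s' ≠ 0`: the functions `u₁ = 1 / (1 - t s')` on `T₁` and `u₂ = s t' / (s t' - 1)` on `T₂` agree, so they define a global function `u` on `T`; `T₁ = D(u)`: `u₁` is a unit, and a point of `T₂` where `u₂ ≠ 0` has `s ≠ 0` and `t' ≠ 0`, so it is in `T₁`. Similarly `T₂ = D(1 - u)`:
`1 - u₂ = 1 / (1 - s t')`, `1 - u₁ = - t s' / (1 - t s')`. So `T` has the global functions `u, 1 - u` generating the unit ideal with affine `D(u)`, `D(1 - u)`: `T` is affine (`isAffine_of_isAffineOpen_basicOpen` or similar in AffineScheme.lean). -/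
def S_DIAG : Prop := ∀ (k : Type) [Field k] (H : PLine k),
  ∃ T : (H.P.prod H.P).X.Opens, (T : Set (H.P.prod H.P).X) =
    (Set.range (pullback.diagonal H.P.f))ᶜ ∧ IsAffineOpen T

/-! ## 2. Products with the projective line -/

/-- PRO. `X × P` for the projective line `P` is a `PBun` over `X` with the first projection; `X × P` is integral if `X` is. (1) `U = X × A^1` (`X.prod (aff k k[X])`), `L` with `q` and `t` the projections (`IsPullback.of_hasPullback`; the structure morphism of `aff k k[X]` is the one in `Line`), `s` = the base change of the point at infinity (S_PLP), `hc`: a point of `X × P` is in the image of `U` iff its image in `P` is in the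
image of `j₀` (`Scheme.Pullback.range_fst` etc.). (2) a product `Y` of an integral variety with the affine line is integral: locally `R[X]`, `R` a domain; irreducible: the product of two nonempty affine open subsets of `X` with the line meet. `X × P` is covered by the two integral open subsets `X × A^1`, whose intersection is not empty. -/
def S_PRO : Prop :=
  (∀ (k : Type) [Field k] (H : PLine k) (X : Var k), ∃ B : PBun (X.prod H.P) X,
    B.p.g = pullback.fst X.f H.P.f) ∧
  (∀ (k : Type) [Field k] (Y X : Var k) (_ : Line Y X), IsIntegral X.X → IsIntegral Y.X) ∧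
  ∀ (k : Type) [Field k] (H : PLine k) (X : Var k), IsIntegral X.X → IsIntegral (X.prod H.P).X

def M_PRO : Prop := S_PLP → S_PRO

/-- SEC. The graph of a morphism `ψ : X → P` is a closed immersion `σ : X → X × P`, a section of the first projection (`pullback.lift`; a section of a separated morphism is a closed immersion). -/
def S_SEC : Prop := ∀ (k : Type) [Field k] (X P : Var k) (ψ : X.X ⟶ P.X), ψ ≫ P.f = X.f →
  ∃ σ : ClosedIn X (X.prod P), σ.g ≫ pullback.fst X.f P.f = 𝟙 X.X ∧
    σ.g ≫ pullback.snd X.f P.f = ψ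

/-- AFY. `X₁` a closed subvariety of `X × P`, `ψ : X₁ → P` the second projection, `σ` its graph, `Y = X₁ × P ∖ σ(X₁)`. (1) `Y → X` is affine. With `T = P × P ∖ Δ` (S_DIAG): `Y` is the preimage of `T` under `ψ × id : X₁ × P → P × P` (the graph of `ψ` is the preimage of the diagonal: points of `X₁ × P` in the preimage of `Δ` are in the image of `σ`: `σ(X₁) = X₁ × P ×_(P × P) P`, use fibre products and `Scheme.Pullback` range lemmas). `X₁ × P → (X × P) × P ≅ X × (P × P)` is a closed immersion, and `Y` is the preimage of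
`X × T`, so `Y → X × T` is a closed immersion, and `X × T → X` is affine (base change of `T → Spec k`). (2) for every open subset `W` of `P` the preimage in `Y` under `Y → X₁ → P` is a finite union of basic open subsets of global functions on `Y`: `Y` maps to the affine Noetherian scheme `T`, in which the preimage of `W` under the first projection is a finite union of basic open subsets; pull back the functions. -/
def S_AFY : Prop := ∀ (k : Type) [Field k] (H : PLine k) (X X₁ Y : Var k)
  (e : ClosedIn X₁ (X.prod H.P)) (σ : ClosedIn X₁ (X₁.prod H.P)) (j : OpenIn Y (X₁.prod H.P)),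
  σ.g ≫ pullback.fst X₁.f H.P.f = 𝟙 X₁.X →
  σ.g ≫ pullback.snd X₁.f H.P.f = e.g ≫ pullback.snd X.f H.P.f → Complementary σ j →
  IsAffineHom (j.g ≫ pullback.fst X₁.f H.P.f ≫ e.g ≫ pullback.fst X.f H.P.f) ∧
  ∀ W : H.P.X.Opens, ∃ s : Finset Γ(Y.X, ⊤), ∀ y : Y.X,
    (j.g ≫ pullback.fst X₁.f H.P.f ≫ e.g ≫ pullback.snd X.f H.P.f) y ∈ W ↔
      ∃ b ∈ s, y ∈ Y.X.basicOpen b

def M_AFY : Prop := S_DIAG → S_AFY

/-- GRA. The closure of the graph of a function. `X` integral, `V` a nonempty open subset, `φ` a function on `V`. `φ` defines `V → A^1 → P` (`j₀`), and `(id, φ) : V → X × P`, an immersion; `X₁` = its scheme-theoretic image (integral: `isIntegral_image` in OneP/Loc), `V → X₁` is an open immersion. `M.f` = `X₁ → X × P → X`, proper (`P` is proper over `k`). Over `V`: the graph of `V → P` is closed in `V × P`, so `X₁ ∩ (V × P)` is the graph, and `M.f` is an isomorphism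
over `V`. `M.U` = the open subvariety `V`, `M.Z` its reduced complement (`closedVar`), `M.U'` the preimage of `V` in `X₁`, `M.Z'` its reduced complement; `fZ` exists since `Z'` is reduced (`liftC`), and is proper. Last: the preimage of the image of `j₀` under `X₁ → P` contains the preimage of `V`, and the coordinate `t` of `A^1`, a function on the image of `j₀`, pulled back, restricts to the pull-back of `φ` on the preimage of `V`. -/
def S_GRA : Prop := ∀ (k : Type) [Field k] (H : PLine k) (X : Var k) (_ : IsIntegral X.X)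
  (V : X.X.Opens) (φ : Γ(X.X, V)), (∃ x : X.X, x ∈ V) →
  ∃ (X₁ : Var k) (_ : IsIntegral X₁.X) (M : Modif X₁ X) (e : ClosedIn X₁ (X.prod H.P)),
    e.g ≫ pullback.fst X.f H.P.f = M.f.g ∧ Set.range M.j.g = V ∧
    ∃ (g : Γ(X₁.X, (e.g ≫ pullback.snd X.f H.P.f) ⁻¹ᵁ H.j₀.g.opensRange))
      (hO : M.f.g ⁻¹ᵁ V ≤ (e.g ≫ pullback.snd X.f H.P.f) ⁻¹ᵁ H.j₀.g.opensRange),
      X₁.X.presheaf.map (homOfLE hO).op g = M.f.g.app V φ

/-- GST. The step. Put S_GRA (for `X`, the open subset `f ⁻¹ᵁ V` and the function `f.app V h`), S_SEC, S_PRO, S_AFY together; `P = X₁ × P¹`, `Y` = the complement of `σ` (`openVar`), integral as a nonempty open subscheme of an integral scheme (nonempty: the fibre of `X₁ × P → X₁` over a point has more than one point, S_LPT (4): the point of dimension `dim x + 1` is not in the section). `Processed g V h`: `O` = the preimage of the image of `j₀`, which contains the preimage of `V`. Dimensions: `M.f` is an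
isomorphism over `V`, so the generic points have the same dimension; points of an integral variety have dimension at most that of the generic point (`dim_le_of_specializes`); S_LPT (3). -/
def S_GST : Prop := ∀ (k : Type) [Field k] (X₀ X : Var k) (_ : IsIntegral X.X)
  (f : X.X ⟶ X₀.X) (_ : IsAffineHom f) (V : X₀.X.Opens) (h : Γ(X₀.X, V)), f ≫ X₀.f = X.f →
  (∃ x : X.X, f x ∈ V) →
  ∃ (X₁ P Y : Var k) (_ : IsIntegral X₁.X) (_ : IsIntegral Y.X) (M : Modif X₁ X)
    (B : PBun P X₁) (σ : ClosedIn X₁ P) (j : OpenIn Y P) (g : Y.X ⟶ X₀.X),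
    σ.g ≫ B.p.g = 𝟙 X₁.X ∧ Complementary σ j ∧ g = j.g ≫ B.p.g ≫ M.f.g ≫ f ∧
    Set.range M.j.g = f ⁻¹ᵁ V ∧ IsAffineHom g ∧ Processed g V h ∧
    ∀ n : ℕ, X.DimLE n → X₁.DimLE n ∧ Y.DimLE (n + 1)

def M_GST : Prop := S_PLI → S_PRO → S_SEC → S_AFY → S_GRA → S_LPT → S_GST

/-! ## 3. Quasi-affine varieties -/

/-- PPE. `Processed` is stable under composition: pull back the functions (`Scheme.preimage_basicOpen` or similar). -/
def S_PPE : Prop := ∀ (Z Y X₀ : Scheme.{0}) (g : Z ⟶ Y) (f : Y ⟶ X₀) (V : X₀.Opens)
  (h : Γ(X₀, V)), Processed f V h → Processed (g ≫ f) V h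

/-- SEP. Let `V` be an affine open subset of the variety `X₀`, and `S` a set of functions on `V` which together with `k` generate the ring `Γ(X₀, V)`; `f : Y → X₀` a morphism over `k`, `Y` integral, with `f⁻¹ V` not empty, and `y` a point of `Y` such that for all `h ∈ S` the pull-back of `h` extends to a neighbourhood of `y`. Then `f y ∈ V`. Proof. Let `K` be the function field of `Y`, `O = O_(Y, y) ⊆ K`. The homomorphism `Γ(X₀, V) → Γ(Y, f⁻¹ V) → K` has values in `O` (true for `h ∈ S` and for
constants, which come from `Γ(X₀, ⊤)`-free functions on `Spec k`: `Y → Spec k`). This gives `g : Spec O → V → X₀`, over `k`, and `Spec O → Y → X₀`; both agree on `Spec K`; since `X₀` is separated and `Spec O` is integral they agree (the equaliser is a closed subscheme containing the generic point; `ext_of_isDominant_of_isSeparated` or similar). The closed point of `Spec O` maps to `f y`, and to `V`. (2) finite generating sets exist (`LocallyOfFiniteType`). -/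
def S_SEP : Prop :=
  (∀ (k : Type) [Field k] (X₀ : Var k) (V : X₀.X.Opens) (Y : Scheme.{0}) (f : Y ⟶ X₀.X)
    (_ : IsIntegral Y) (S : Set Γ(X₀.X, V)) (y : Y), IsAffineOpen V → (∃ z : Y, f z ∈ V) →
    Subring.closure (Set.range ((Scheme.ΓSpecIso (CommRingCat.of k)).inv ≫
      X₀.f.appLE ⊤ V le_top).hom ∪ S) = ⊤ →
    (∀ h ∈ S, ∃ (O : Y.Opens) (g : Γ(Y, O)) (hO : f ⁻¹ᵁ V ≤ O), y ∈ O ∧
      Y.presheaf.map (homOfLE hO).op g = f.app V h) → f y ∈ V) ∧
  ∀ (k : Type) [Field k] (X₀ : Var k) (V : X₀.X.Opens), IsAffineOpen V →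
    ∃ S : Finset Γ(X₀.X, V), Subring.closure (Set.range ((Scheme.ΓSpecIso (CommRingCat.of k)).inv ≫
      X₀.f.appLE ⊤ V le_top).hom ∪ (S : Set Γ(X₀.X, V))) = ⊤

/-- QAF. The criterion. `f : Y → X₀` affine, `Y` integral, `𝒱` a set of affine open subsets covering `X₀`, `S V` finite generating sets as in S_SEP; all `h ∈ S V` are processed if `f⁻¹ V` is not empty. Then `Y` is quasi-affine. Let `y ∈ Y`, `f y ∈ V ∈ 𝒱`. For `h ∈ S V` there is `b_h` among the functions in `Processed` with `y ∈ D(b_h)` (as `f⁻¹ V ≤ O_h`); let `b` be the product of the `b_h`. For `y' ∈ D(b)` all the pull-backs of the `h ∈ S V` extend to neighbourhoods `O_h` of `y'`, so `f y' ∈ V` by S_SEP.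
So `D(b) ⊆ f⁻¹ V`, an affine open subset, and `D(b)` is a basic open subset of it: affine. Now `IsQuasiAffine.of_forall_exists_mem_basicOpen` (`Y` is quasi-compact, being a variety: `Var.compactSpace`). -/
def S_QAF : Prop := ∀ (k : Type) [Field k] (X₀ Y : Var k) (f : Y.X ⟶ X₀.X) (_ : IsAffineHom f)
  (_ : IsIntegral Y.X) (𝒱 : Set X₀.X.Opens) (S : ∀ V : X₀.X.Opens, Finset Γ(X₀.X, V)),
  (∀ x : X₀.X, ∃ V ∈ 𝒱, x ∈ V) →
  (∀ V ∈ 𝒱, IsAffineOpen V ∧ Subring.closure (Set.range
    ((Scheme.ΓSpecIso (CommRingCat.of k)).inv ≫ X₀.f.appLE ⊤ V le_top).hom ∪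
      (S V : Set Γ(X₀.X, V))) = ⊤) →
  (∀ V ∈ 𝒱, (∃ y : Y.X, f y ∈ V) → ∀ h ∈ S V, Processed f V h) → Y.X.IsQuasiAffine

def M_QAF : Prop := S_SEP → S_QAF

/-- QEM. A quasi-affine variety is an open subvariety of an affine variety. `Y` is covered by finitely many affine `D(b_r)`, `b_r ∈ Γ = Γ(Y, ⊤)`; `Γ(D(b_r))` is the localisation of `Γ` at `b_r` (`isLocalization_basicOpen_of_qcqs`), of finite type over `k`, generated by elements `g_(r s) / b_r^N`. Let `A ⊆ Γ` be the `k`-algebra generated by the `b_r, g_(r s)` (`k → Γ` from the structure morphism). `Y → Spec Γ → Spec A` is an open immersion: over `D(b_r) ⊆ Spec A` it is the isomorphism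
`Spec Γ_(b_r) → Spec A_(b_r)`, as in the proof of `of_forall_exists_mem_basicOpen` in QuasiAffine.lean. -/
def S_QEM : Prop := ∀ (k : Type) [Field k] (Y : Var k), Y.X.IsQuasiAffine →
  ∃ (A : Type) (_ : CommRing A) (_ : Algebra k A) (_ : Algebra.FiniteType k A),
    Nonempty (OpenIn Y (aff k A))

/-- FDM. Every variety has finite dimension; the dimension of a point of `Spec A` is the transcendence degree of `A / p`, at most the number of generators of `A` (S_DIM1 in CUB); finitely many charts. -/
def S_FDM : Prop := ∀ (k : Type) [Field k] (X : Var k), ∃ n : ℕ, X.DimLE n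

end CUB


end

section

/-!
# QCV: classes of varieties and of rings

`PI (T i) X` is the property of varieties (at the level `i`) which is propagated in the proof;
`Cls0`, `Cls`, `Cls1` are closure properties of a property of finitely generated `k`-algebras.
-/

set_option autoImplicit false

open CategoryTheory AlgebraicGeometry Polynomial

namespace QCV

open Pool.Agent.Lib_helper55.Beil Pool.Agent.Lib_helper66.OneP CUB

universe v

/-! ## Properties of varieties -/

section Homol

variable {k : Type} [Field k] {E : Type} [Field E] {i : ℕ}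

/-- The generalised eigenspace of Frobenius on `H n X` for the eigenvalue one. -/
noncomputable def genN (T : Homology.{v} k E i) (n : ℕ) (X : Var k) : Submodule E (T.H n X) :=
  Module.End.maxGenEigenspace (T.frob n X) 1

/-- Every element of the generalised eigenspace of `H_(2i+1)(X)` is the push-forward of a class on a
reduced closed subvariety of dimension at most `i + 1`. -/
def KK (T : Homology.{v} k E i) (X : Var k) : Prop :=
  ∀ u ∈ genN T (2 * i + 1) X, ∃ (W : Var k) (_ : IsReduced W.X) (a : ClosedIn W X),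
    W.DimLE (i + 1) ∧ ∃ w, T.P (2 * i + 1) a w = u

/-- The property of varieties at the level `i`. -/
structure PI (T : Homology.{v} k E i) (X : Var k) : Prop where
  gg : T.gen X ≤ T.alg X
  inj : T.Inj X
  kk : KK T X

/-- The property at all levels. -/
def PP (T : ∀ i : ℕ, Homology.{v} k E i) (X : Var k) : Prop := ∀ i, PI (T i) X

end Homol

/-! ## Properties of rings -/

section Rings

variable (k : Type) [Field k]

/-- All primes of `A` have dimension at most `d`. -/
def DL (A : Type) [CommRing A] [Algebra k A] (d : ℕ) : Prop :=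
  ∀ p : PrimeSpectrum A, rdim k p ≤ d

variable {k} in
/-- `z : A → Z` is the quotient by the ideal generated by `a`, and `u : A → U` is the localisation
away from `a`. -/
structure Strat {A Z U : Type} [CommRing A] [CommRing Z] [CommRing U] [Algebra k A] [Algebra k Z]
    [Algebra k U] (a : A) (z : A →ₐ[k] Z) (u : A →ₐ[k] U) : Prop where
  surj : Function.Surjective z
  ker : RingHom.ker z.toRingHom = Ideal.span {a}
  away : @IsLocalization.Away A _ a U _ u.toRingHom.toAlgebra

/-- Closure properties of a property `P` of finitely generated `k`-algebras: isomorphisms, the zero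
ring, gluing of the closed part `V(a)` and the open part `D(a)`, passage to the open part. -/
structure Cls0 (P : ∀ (A : Type) [CommRing A] [Algebra k A] [Algebra.FiniteType k A], Prop) :
    Prop where
  iso : ∀ {A B : Type} [CommRing A] [Algebra k A] [Algebra.FiniteType k A] [CommRing B]
    [Algebra k B] [Algebra.FiniteType k B], (A ≃ₐ[k] B) → P A → P B
  triv : ∀ (A : Type) [CommRing A] [Algebra k A] [Algebra.FiniteType k A], Subsingleton A → P A
  glue : ∀ {A Z U : Type} [CommRing A] [Algebra k A] [Algebra.FiniteType k A] [CommRing Z]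
    [Algebra k Z] [Algebra.FiniteType k Z] [CommRing U] [Algebra k U] [Algebra.FiniteType k U]
    (a : A) (z : A →ₐ[k] Z) (u : A →ₐ[k] U), Strat a z u → P Z → P U → P A
  opn : ∀ {A Z U : Type} [CommRing A] [Algebra k A] [Algebra.FiniteType k A] [CommRing Z]
    [Algebra k Z] [Algebra.FiniteType k Z] [CommRing U] [Algebra k U] [Algebra.FiniteType k U]
    (a : A) (z : A →ₐ[k] Z) (u : A →ₐ[k] U), Strat a z u → P A → P Z → P U

/-- In addition: products with the affine line, descent along double covers, and all rings of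
dimension at most `d`. -/
structure Cls (d : ℕ)
    (P : ∀ (A : Type) [CommRing A] [Algebra k A] [Algebra.FiniteType k A], Prop) : Prop
    extends Cls0 k P where
  line : ∀ (A : Type) [CommRing A] [Algebra k A] [Algebra.FiniteType k A], P A → P A[X]
  dbl : ∀ (A : Type) [CommRing A] [Algebra k A] [Algebra.FiniteType k A] (b c : A),
    P (Dr A b c) → P A
  base : ∀ (A : Type) [CommRing A] [Algebra k A] [Algebra.FiniteType k A], DL k A d → P A

/-- Closure properties of a property `F` of finitely generated `k`-algebras `S` with a homomorphism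
`R → S`. -/
structure Cls1 (R : Type) [CommRing R] [Algebra k R]
    (F : ∀ (S : Type) [CommRing S] [Algebra k S] [Algebra.FiniteType k S], (R →ₐ[k] S) → Prop) :
    Prop where
  iso : ∀ {S S' : Type} [CommRing S] [Algebra k S] [Algebra.FiniteType k S] [CommRing S']
    [Algebra k S'] [Algebra.FiniteType k S'] (e : S ≃ₐ[k] S') (ψ : R →ₐ[k] S),
    F S ψ → F S' (e.toAlgHom.comp ψ)
  triv : ∀ (S : Type) [CommRing S] [Algebra k S] [Algebra.FiniteType k S] (ψ : R →ₐ[k] S),
    Subsingleton S → F S ψ
  glue : ∀ {A Z U : Type} [CommRing A] [Algebra k A] [Algebra.FiniteType k A] [CommRing Z]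
    [Algebra k Z] [Algebra.FiniteType k Z] [CommRing U] [Algebra k U] [Algebra.FiniteType k U]
    (a : A) (z : A →ₐ[k] Z) (u : A →ₐ[k] U) (ψ : R →ₐ[k] A), Strat a z u →
    F Z (z.comp ψ) → F U (u.comp ψ) → F A ψ
  opn : ∀ {A Z U : Type} [CommRing A] [Algebra k A] [Algebra.FiniteType k A] [CommRing Z]
    [Algebra k Z] [Algebra.FiniteType k Z] [CommRing U] [Algebra k U] [Algebra.FiniteType k U]
    (a : A) (z : A →ₐ[k] Z) (u : A →ₐ[k] U) (ψ : R →ₐ[k] A), Strat a z u →
    F A ψ → F Z (z.comp ψ) → F U (u.comp ψ)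

end Rings

/-- The ring `R[x_1, ..., x_n] / (f_j)`. -/
abbrev ER {ι : Type} {n : ℕ} {R : Type} [CommRing R] (f : ι → MvPolynomial (Fin n) R) : Type :=
  MvPolynomial (Fin n) R ⧸ Ideal.span (Set.range f)

/-- The polynomials `f j`, mapped by `ψ`. -/
noncomputable abbrev mf {ι : Type} {n : ℕ} {R S : Type} [CommRing R] [CommRing S] (ψ : R →+* S)
    (f : ι → MvPolynomial (Fin n) R) : ι → MvPolynomial (Fin n) S :=
  fun j => MvPolynomial.map ψ (f j)

section

variable (k : Type) [Field k]
variable (P : ∀ (A : Type) [CommRing A] [Algebra k A] [Algebra.FiniteType k A], Prop)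

/-- The property for one quadric in `n` variables over all bases of dimension at most `d`. -/
def Qn (d n : ℕ) : Prop :=
  ∀ (R : Type) [CommRing R] [Algebra k R] [Algebra.FiniteType k R] (f : Fin 1 → MvPolynomial (Fin n) R),
    DL k R d → (∀ j, (f j).totalDegree ≤ 2) → P (ER f)

/-- The property for one linear and one quadratic equation in `n` variables over all bases of
dimension at most `d`. -/
def Ln (d n : ℕ) : Prop :=
  ∀ (R : Type) [CommRing R] [Algebra k R] [Algebra.FiniteType k R] (f : Fin 2 → MvPolynomial (Fin n) R),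
    DL k R d → (f 0).totalDegree ≤ 1 → (f 1).totalDegree ≤ 2 → P (ER f)

end

end QCV


end

section

/-!
# QCV: statements of the ring half, with proofs in the doc strings

Overview.  `P` is a property of finitely generated `k`-algebras with `Cls k d P` (closed under
isomorphisms, gluing, passing to open parts, products with the affine line, descent along double
covers; contains all rings of dimension at most `d`).

* `S_NOE`, `S_SPR`: noetherian induction on the base `R` of a family `ER f` of affine varieties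
  over `R`; so it suffices to treat integral bases which may be shrunk.
* `S_QUA`: `P` holds for `R[x_1, ..., x_n] / (f)`, `deg f ≤ 2`, `dim R ≤ d`, for all `n`.
  Induction on `n`: `S_Q01` (`n ≤ 1`), `S_QST` (`n + 2`): over an integral base, `a, b, c` the
  coefficients of `x_0 ^ 2, x_0 x_1, x_1 ^ 2`.  If `a = 0`, then `f = g x_0 + h` with `deg g ≤ 1`,
  `deg h ≤ 2`, and `S_LNF` applies.  If `a ≠ 0`, invert `a` and pass to the double cover
  `T = R[t] / (t ^ 2 + (b / a) t + c / a)` (`dbl`); the substitution `x_0 = t y_0 + y_1`,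
  `x_1 = y_0` (`S_SUB`) kills the coefficient of `y_0 ^ 2`, and `S_LNF` applies over `T`.
* `S_VRP`: `P` holds for `VR S f`, `S = R[x_1, ..., x_n]`, `f_1, ..., f_r` of degree at most two,
  if `dim R + r - 1 ≤ d`.
* `S_IGE`: the case `i ≥ n` for `dim R ≤ 1`.
-/

set_option autoImplicit false

open CategoryTheory AlgebraicGeometry Polynomial

namespace QCV

open Pool.Agent.Lib_helper55.Beil Pool.Agent.Lib_helper66.OneP CUB

/-! ## Dimension -/

/-- **DLR** (dimension facts).
Proofs.  `rdim k p` is the transcendence degree of `A / p` over `k` (`CUB.rdim`).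
(1) `CUB.rdim_comap` (a prime of `B` is the preimage of its preimage, same dimension).
(2) `CUB.rdim_comap_opn` and `CUB.isOpenImmersion_spm` (or: `A / p → B / P`, where `P` is the prime
over `p`, is a localisation of domains, `trdeg` does not change).
(3) for a prime `P` of `B` over `p`, `A / p → B / P` is injective and integral, so the transcendence
degrees agree (`Algebra.IsAlgebraic` + `trdeg` in towers: `Algebra.trdeg_eq_of_isAlgebraic` or as in
`CUB.coheight_eq_one`, `BR3.lean`).
(4) for a prime `P` of `A[X]` over `p`: `P` contains `pX p = p A[X]`, and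
`rdim k P ≤ rdim k (pX p) = rdim k p + 1` (`CUB.rdim_le`, `CUB.rdim_pX`, `CUB.pX_le`).
(5) if `f ≠ 0` in the domain `B`, a prime `P` of `B / (f)` has preimage `Q ≠ ⊥` in `B`, so
`rdim k Q + 1 ≤ rdim k ⊥ ≤ d + 1` (`CUB.rdim_add_one_le`). -/
def S_DLR : Prop :=
  (∀ (k A B : Type) [Field k] [CommRing A] [Algebra k A] [CommRing B] [Algebra k B] (d : ℕ)
    (φ : A →ₐ[k] B), Function.Surjective φ → DL k A d → DL k B d) ∧
  (∀ (k A B : Type) [Field k] [CommRing A] [Algebra k A] [Algebra.FiniteType k A] [CommRing B]
    [Algebra k B] [Algebra.FiniteType k B] (d : ℕ) (a : A) (φ : A →ₐ[k] B),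
    @IsLocalization.Away A _ a B _ φ.toRingHom.toAlgebra → DL k A d → DL k B d) ∧
  (∀ (k A B : Type) [Field k] [CommRing A] [Algebra k A] [Algebra.FiniteType k A] [CommRing B]
    [Algebra k B] [Algebra.FiniteType k B] [Algebra A B] [IsScalarTower k A B] [Module.Finite A B]
    (d : ℕ), DL k A d → DL k B d) ∧
  (∀ (k A : Type) [Field k] [CommRing A] [Algebra k A] [Algebra.FiniteType k A] (d : ℕ),
    DL k A d → DL k A[X] (d + 1)) ∧
  (∀ (k B : Type) [Field k] [CommRing B] [Algebra k B] [Algebra.FiniteType k B] [IsDomain B]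
    (d : ℕ) (f : B), f ≠ 0 → DL k B (d + 1) → DL k (B ⧸ Ideal.span {f}) d)

/-- **DLM**: `DL A d → DL (MvPolynomial (Fin n) A) (d + n)`.
Proof.  Induction on `n` with `MvPolynomial.isEmptyAlgEquiv` and `MvPolynomial.finSuccEquiv` (both
restricted to `k`), `S_DLR` (1) for the isomorphisms, (4). -/
def S_DLM : Prop :=
  ∀ (k A : Type) [Field k] [CommRing A] [Algebra k A] [Algebra.FiniteType k A] (d n : ℕ),
    DL k A d → DL k (MvPolynomial (Fin n) A) (d + n)

def M_DLM : Prop := S_DLR → S_DLM

/-! ## Noetherian induction -/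

/-- **NOE** (noetherian induction).
Proof.  Show by noetherian induction on the ideal `I` of `R` (`IsNoetherianRing R`, as `R` is of
finite type over the field `k`; `IsNoetherian.induction` or `WellFoundedGT`) the claim
`C(I) : F (R / I) (Ideal.Quotient.mkₐ k I)`.  Assume `C(J)` for all `J > I`.
* `I = ⊤`: `triv`.
* `I` prime: `D = R / I`.  Let `a ≠ 0` in `D` be as in the hypothesis, `a` the image of `a' ∈ R`,
  `J = I + (a')`, `J > I`.  `glue` for `A = R / I`, `Z = R / J` (`z = Ideal.Quotient.factorₐ`, kernel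
  `(a)`), `U = Localization.Away a` (`u = awayHom k a`, `CUB.isLocalization_awayHom`).
* `I ≠ ⊤` not prime: there are `a, b ∉ I` with `a b ∈ I`.  Let `Ja = I + (a)`, `Jb = I + (b)`,
  `Jab = I + (a, b)`, all `> I`.  Put `U = Localization.Away (image of a in R / Jb)`.  By `opn` for
  `A = R / Jb`, `Z = R / Jab`, `U`: `F U _`.  The composition `u : R / I → R / Jb → U` is also a
  localisation away from the image of `a` in `R / I`: in `(R / I)[1 / a]` the element `b` is zero,
  as `a b = 0`; so the kernel `Jb / I` of `R / I → R / Jb` dies in `(R / I)[1 / a]`.  Then `glue` for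
  `A = R / I`, `Z = R / Ja`, `U`.
The homomorphisms from `R` agree (`AlgHom.ext`, `Subsingleton`-free, by `rfl` after `mk` surjective).
At the end `C(⊥)` and the isomorphism `R / ⊥ ≃ R` (`AlgEquiv.quotientBot`), `iso`. -/
def S_NOE : Prop :=
  ∀ (k R : Type) [Field k] [CommRing R] [Algebra k R] [Algebra.FiniteType k R]
    (F : ∀ (S : Type) [CommRing S] [Algebra k S] [Algebra.FiniteType k S], (R →ₐ[k] S) → Prop),
    Cls1 k R F →
    (∀ (D : Type) [CommRing D] [IsDomain D] [Algebra k D] [Algebra.FiniteType k D]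
      (ψ : R →ₐ[k] D), Function.Surjective ψ →
      ∃ a : D, a ≠ 0 ∧ F (Localization.Away a) ((awayHom k a).comp ψ)) →
    F R (AlgHom.id k R)

/-- **FAM** (base change of `ER f`).
Proof.  (1) For a homomorphism `ψ : R → S` the homomorphism `MvPolynomial.map ψ` (as `mapAlgHom`)
maps `span (range f)` into `span (range (mf ψ f))` and induces `ψ' : ER f → ER (mf ψ f)`
(`Ideal.quotientMapₐ` or `Ideal.Quotient.liftₐ`).
(2) `ψ = z` surjective with kernel `(a)`: `z'` is surjective (`MvPolynomial.map_surjective`); its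
kernel: `map z G ∈ span (range (mf z f))`, i.e. `map z G = ∑ H_j map z (f_j) = map z (∑ H'_j f_j)`,
so `G - ∑ H'_j f_j` has all coefficients in `ker z = (a)`, so it is a multiple of `C a`
(`MvPolynomial.ker_map`, `Ideal.map_span`, or coefficientwise).  Slicker: the image of
`span (range f)` under the surjection `map z` is `span (range (mf z f))` (`Ideal.map_span`,
`Set.range_comp`), and `ker (map z) = Ideal.map C (ker z) = span {C a}` (`MvPolynomial.ker_map`);
then `Ideal.comap_map_of_surjective`.
(3) `ψ = u` the localisation away from `a`: `MvPolynomial (Fin n) U` is the localisation of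
`MvPolynomial (Fin n) R` away from `C a` (`MvPolynomial.isLocalization`), and localisation commutes
with quotients (`IsLocalization.of_surjective`/`Ideal.Quotient`..., e.g.
`IsLocalization.Away.quotient`...; or by the universal property: check the three axioms
`map_units`, `surj`, `exists_of_eq`, using that
`span (range (mf u f))` is the extension of `span (range f)` and
`IsLocalization.mem_map_algebraMap_iff`).
(4) an isomorphism `e : R ≃ S` induces an isomorphism: `Ideal.quotientEquivAlg` with
`MvPolynomial.mapAlgEquiv`-type isomorphism and `Ideal.map_span`. -/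
def S_FAM : Prop :=
  (∀ (k R Z U ι : Type) [Field k] [CommRing R] [Algebra k R] [CommRing Z] [Algebra k Z]
    [CommRing U] [Algebra k U] (n : ℕ) (a : R) (z : R →ₐ[k] Z) (u : R →ₐ[k] U)
    (f : ι → MvPolynomial (Fin n) R), Strat a z u →
    ∃ (z' : ER f →ₐ[k] ER (mf z.toRingHom f)) (u' : ER f →ₐ[k] ER (mf u.toRingHom f)),
      Strat (Ideal.Quotient.mk _ (MvPolynomial.C a) : ER f) z' u') ∧
  (∀ (k R S ι : Type) [Field k] [CommRing R] [Algebra k R] [CommRing S] [Algebra k S] (n : ℕ)
    (e : R ≃ₐ[k] S) (f : ι → MvPolynomial (Fin n) R),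
    Nonempty (ER f ≃ₐ[k] ER (mf (e.toAlgHom).toRingHom f)))

/-- **SPR** (spreading out).
Proof.  For `R, f` as in the conclusion apply `S_NOE` to `F S ψ := P (ER (mf ψ.toRingHom f))`.
`Cls1` follows from `Cls0` and `S_FAM` (`mf` of a composition is the composition of the `mf`:
`MvPolynomial.map_map`; rewrite the families with `funext`); `triv`: if `S` is the zero ring, then so
is `ER` (`Subsingleton` of `MvPolynomial` and of the quotient).  The hypothesis of `S_NOE`: for
`ψ : R → D` surjective, `DL k D d` by `S_DLR` (1), `Θ D (mf ψ f)` by `hΘ`, and the hypothesis `h`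
gives `a`; again `MvPolynomial.map_map`, and `awayHom k a` is `algebraMap`.  At the end
`mf (AlgHom.id k R) f = f`. -/
def S_SPR : Prop :=
  ∀ (k ι : Type) [Field k]
    (P : ∀ (A : Type) [CommRing A] [Algebra k A] [Algebra.FiniteType k A], Prop) (_ : Cls0 k P)
    (d n : ℕ) (Θ : ∀ (R : Type) [CommRing R], (ι → MvPolynomial (Fin n) R) → Prop)
    (_ : ∀ (R S : Type) [CommRing R] [CommRing S] (ψ : R →+* S) (f : ι → MvPolynomial (Fin n) R),
      Θ R f → Θ S (mf ψ f))
    (_ : ∀ (D : Type) [CommRing D] [IsDomain D] [Algebra k D] [Algebra.FiniteType k D]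
      (f : ι → MvPolynomial (Fin n) D), DL k D d → Θ D f →
      ∃ a : D, a ≠ 0 ∧ P (ER (mf (algebraMap D (Localization.Away a)) f)))
    (R : Type) [CommRing R] [Algebra k R] [Algebra.FiniteType k R]
    (f : ι → MvPolynomial (Fin n) R), DL k R d → Θ R f → P (ER f)

def M_SPR : Prop := S_DLR → S_NOE → S_FAM → S_SPR

/-! ## Affine spaces and linear equations -/

/-- **PLY**.  (1) `P A → P (MvPolynomial (Fin n) A)`: induction on `n` with
`MvPolynomial.isEmptyAlgEquiv`, `MvPolynomial.finSuccEquiv` (restricted to `k`), `iso`, `line`.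
(2) if all `f j = 0` and `P R`, then `P (ER f)`: `span (range f) = ⊥`, `AlgEquiv.quotientBot`.
(3) if the `f j` generate the unit ideal then `P (ER f)`: `triv`. -/
def S_PLY : Prop :=
  ∀ (k : Type) [Field k]
    (P : ∀ (A : Type) [CommRing A] [Algebra k A] [Algebra.FiniteType k A], Prop) (_ : Cls0 k P)
    (_ : ∀ (A : Type) [CommRing A] [Algebra k A] [Algebra.FiniteType k A], P A → P A[X])
    (R : Type) [CommRing R] [Algebra k R] [Algebra.FiniteType k R] (n : ℕ),
    (P R → P (MvPolynomial (Fin n) R)) ∧
    (∀ (ι : Type) (f : ι → MvPolynomial (Fin n) R), (∀ j, f j = 0) → P R → P (ER f)) ∧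
    (∀ (ι : Type) (f : ι → MvPolynomial (Fin n) R), (1 ∈ Ideal.span (Set.range f)) → P (ER f))

/-- **ELI** (elimination of a variable).  If `f 0` has degree at most one and the coefficient of
some `x_j` in `f 0` is a unit, then `ER f` is isomorphic to `ER` of one polynomial `h'` of degree at
most two in one variable less.
Proof.  A permutation of the variables (`MvPolynomial.renameEquiv`) reduces to `j = 0` (or work with
general `j` and `Fin.succAbove`).  `f 0 = u x_0 + l`, where `l` is a polynomial of degree at most one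
in the other variables (compare coefficients; e.g. `finSuccEquiv (f 0) = C (C u) * X + C l`).  The
homomorphism `MvPolynomial (Fin (n + 1)) R → MvPolynomial (Fin n) R`, `x_0 ↦ - u⁻¹ l`,
`x_(j+1) ↦ x_j` is surjective with kernel `(f 0)`: it is the composition of `finSuccEquiv` and the
evaluation at `- u⁻¹ l`, whose kernel is generated by `X + u⁻¹ l` (`Polynomial.ker_evalRingHom`).
It maps `f 1` to a polynomial `h'` of degree at most two (`MvPolynomial.totalDegree` of a
substitution of polynomials of degree at most one: monomialwise).  Hence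
`ER f ≅ MvPolynomial (Fin n) R / (h')`. -/
def S_ELI : Prop :=
  ∀ (k R : Type) [Field k] [CommRing R] [Algebra k R] (n : ℕ)
    (f : Fin 2 → MvPolynomial (Fin (n + 1)) R) (j : Fin (n + 1)), (f 0).totalDegree ≤ 1 →
    (f 1).totalDegree ≤ 2 → IsUnit (MvPolynomial.coeff (Finsupp.single j 1) (f 0)) →
    ∃ h : Fin 1 → MvPolynomial (Fin n) R, (h 0).totalDegree ≤ 2 ∧ Nonempty (ER f ≃ₐ[k] ER h)

/-- **TWQ**: one linear and one quadratic equation, if one quadratic equation is known.
Proof.  `S_SPR` with `ι = Fin 2`, `Θ R f := deg (f 0) ≤ 1 ∧ deg (f 1) ≤ 2`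
(`MvPolynomial.totalDegree_map_le`).  `D` a domain.
* `f 0 = 0`: `a = 1`, `ER f' ≅ ER (fun _ : Fin 1 => f' 1)` (the ideals `span (range f')` and
  `span {f' 1}` agree), `Qn k P d n` over `Localization.Away 1` (`DL` by `S_DLR` (2)).
* `f 0 = C u`, `u ≠ 0`: `a = u`, `C u` is a unit in `MvPolynomial _ (D_u)`, `S_PLY` (3).
* otherwise, as `deg (f 0) ≤ 1`, some coefficient `u = coeff (single j 1) (f 0)` is not zero (so
  `n ≥ 1`, `n = n' + 1`); `a = u`, `S_ELI` over `D_u`, `Qn k P d n'`. -/
def S_TWQ : Prop :=
  ∀ (k : Type) [Field k]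
    (P : ∀ (A : Type) [CommRing A] [Algebra k A] [Algebra.FiniteType k A], Prop) (d n : ℕ),
    Cls k d P → (∀ m, m ≤ n → Qn k P d m) → Ln k P d n

def M_TWQ : Prop := S_DLR → S_SPR → S_PLY → S_ELI → S_TWQ

/-! ## Equations of degree one in one variable -/

/-- **LNR** (commutative algebra).  `B = S[X] / (g X + h)`.
Proof.  (1) `z : B → (S / (g, h))[X]` is induced by `Polynomial.map (mk)` (it maps `g X + h` to
zero); surjective; kernel: `Polynomial.map mk F = 0` iff all coefficients of `F` are in `(g, h)` iff
`F ∈ (C g, C h)`; modulo `g X + h` we have `h = - g X`, so `F ∈ (g)` in `B`.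
(2) `u : B → U`, `X ↦ - h / g`: localisation away from `g`.  It is well defined; `g` is mapped to a
unit; surjectivity up to denominators is clear as `S → U` has it; if `F ∈ S[X]` is mapped to zero in
`U`: with `N = natDegree F`, `g ^ N F ≡ s mod (g X + h)` for some `s ∈ S` (replace `g X` by `- h`;
induction on the degree, or `Polynomial.scaleRoots`), `s` is zero in `U`, so `g ^ M s = 0` in `S`, so
`g ^ (N + M) F = 0` in `B`.  Slicker: `B[1 / g] = S[1 / g][X] / (X + h / g) = S[1 / g]`. -/
def S_LNR : Prop :=
  ∀ (k S U : Type) [Field k] [CommRing S] [Algebra k S] [CommRing U] [Algebra k U] (g h : S)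
    (u : S →ₐ[k] U), @IsLocalization.Away S _ g U _ u.toRingHom.toAlgebra →
    ∃ (z' : (S[X] ⧸ Ideal.span {C g * X + C h}) →ₐ[k] (S ⧸ Ideal.span {g, h})[X])
      (u' : (S[X] ⧸ Ideal.span {C g * X + C h}) →ₐ[k] U),
      Strat (Ideal.Quotient.mk _ (C g) : S[X] ⧸ Ideal.span {C g * X + C h}) z' u'

/-- **LNF**: `P (S[X] / (g X + h))` for `S = R[x_1, ..., x_m]`, `deg g ≤ 1`, `deg h ≤ 2`.
Proof.  `P (S / (g, h))` by `Ln k P d m` for the family `![g, h]` (the ideal `span {g, h}` is
`span (range ![g, h])`); `P (S / (g))` by `Ln` for `![g, 0]`; `P S` by `S_PLY` (1) and `base`;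
`P (S_g)` by `opn` (`A = S`, `Z = S / (g)`, `U = Localization.Away g`); `P ((S / (g, h))[X])` by
`line`; `glue` with `S_LNR`. -/
def S_LNF : Prop :=
  ∀ (k : Type) [Field k]
    (P : ∀ (A : Type) [CommRing A] [Algebra k A] [Algebra.FiniteType k A], Prop) (d m : ℕ),
    Cls k d P → Ln k P d m →
    ∀ (R : Type) [CommRing R] [Algebra k R] [Algebra.FiniteType k R] (g h : MvPolynomial (Fin m) R),
      DL k R d → g.totalDegree ≤ 1 → h.totalDegree ≤ 2 →
      P ((MvPolynomial (Fin m) R)[X] ⧸ Ideal.span {C g * X + C h})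

def M_LNF : Prop := S_PLY → S_LNR → S_LNF

/-- **LIN** (a polynomial of degree at most two without `x_0 ^ 2`).
Proof.  `finSuccEquiv f` has coefficients `c_i ∈ MvPolynomial (Fin m) R` with
`deg c_i + i ≤ 2` when `c_i ≠ 0` (`MvPolynomial.finSuccEquiv_coeff_coeff`,
`MvPolynomial.totalDegree_coeff_finSuccEquiv_add_le` or so); `c_2` has degree zero and its constant
coefficient is the coefficient of `x_0 ^ 2` in `f`, so `c_2 = 0`.  Hence
`finSuccEquiv f = C c_1 * X + C c_0`; `g = c_1`, `h = c_0`, and `finSuccEquiv` (restricted to `k`)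
induces the isomorphism of the quotients. -/
def S_LIN : Prop :=
  ∀ (k R : Type) [Field k] [CommRing R] [Algebra k R] (m : ℕ)
    (f : Fin 1 → MvPolynomial (Fin (m + 1)) R), (f 0).totalDegree ≤ 2 →
    MvPolynomial.coeff (Finsupp.single 0 2) (f 0) = 0 →
    ∃ g h : MvPolynomial (Fin m) R, g.totalDegree ≤ 1 ∧ h.totalDegree ≤ 2 ∧
      Nonempty (ER f ≃ₐ[k] ((MvPolynomial (Fin m) R)[X] ⧸ Ideal.span {C g * X + C h}))

/-- **SUB** (the substitution `x_0 = t y_0 + y_1`, `x_1 = y_0`).
Proof.  `σ = MvPolynomial.aeval` with `x_0 ↦ t x_0 + x_1`, `x_1 ↦ x_0`, `x_j ↦ x_j` for `j ≥ 2` is an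
automorphism of `R`-algebras; the inverse maps `x_0 ↦ x_1`, `x_1 ↦ x_0 - t x_1`.  It maps
polynomials of degree at most two to such polynomials (monomialwise).  The coefficient of `x_0 ^ 2`
in `σ f` is `a t ^ 2 + b t + c` (only the monomials `x_0 ^ 2, x_0 x_1, x_1 ^ 2` of `f` contribute: for
a monomial `x ^ m` of degree at most two, put `x_j = 0` for `j ≥ 2` and `x_1 = 0` after `σ`: the
coefficient of `x_0 ^ 2` in `σ (x ^ m)` is the coefficient of `X ^ 2` in the polynomial obtained by
`x_0 ↦ t X`, `x_1 ↦ X`, `x_j ↦ 0`).  The automorphism induces an isomorphism of the quotients. -/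
def S_SUB : Prop :=
  ∀ (k R : Type) [Field k] [CommRing R] [Algebra k R] (n : ℕ)
    (f : Fin 1 → MvPolynomial (Fin (n + 2)) R) (t : R), (f 0).totalDegree ≤ 2 →
    MvPolynomial.coeff (Finsupp.single 0 2) (f 0) * t ^ 2 +
      MvPolynomial.coeff (Finsupp.single 0 1 + Finsupp.single 1 1) (f 0) * t +
      MvPolynomial.coeff (Finsupp.single 1 2) (f 0) = 0 →
    ∃ f' : Fin 1 → MvPolynomial (Fin (n + 2)) R, (f' 0).totalDegree ≤ 2 ∧
      MvPolynomial.coeff (Finsupp.single 0 2) (f' 0) = 0 ∧ Nonempty (ER f ≃ₐ[k] ER f')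

/-- **DRI** (double covers of the base).  `Dr (ER f) b c` is `ER` of the same polynomials over
`Dr R b c`.
Proof.  Both rings are the quotient of `R[x_1, ..., x_n, t]` by the `f j` and `t ^ 2 + b t + c`.
Homomorphisms in both directions: `Dr (ER f) b c → ER (mf _ f)` is `AdjoinRoot.lift` of the base
change map `ER f → ER (mf _ f)` and the image of `root`; in the other direction
`MvPolynomial.eval₂Hom` of `Dr R b c → Dr (ER f) b c` (`AdjoinRoot.map` or `lift`), `x_j ↦ x_j`,
and `Ideal.Quotient.lift`.  They are inverse to each other (check on generators). -/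
def S_DRI : Prop :=
  ∀ (k R ι : Type) [Field k] [CommRing R] [Algebra k R] (n : ℕ) (f : ι → MvPolynomial (Fin n) R)
    (b c : R),
    Nonempty (Dr (ER f) (Ideal.Quotient.mk _ (MvPolynomial.C b)) (Ideal.Quotient.mk _
      (MvPolynomial.C c)) ≃ₐ[k] ER (mf (algebraMap R (Dr R b c)) f))

/-- **QST** (induction step).
Proof.  `S_SPR` with `ι = Fin 1`, `Θ R f := ∀ j, deg (f j) ≤ 2`.  `D` a domain, `a, b, c` the
coefficients of `x_0 ^ 2, x_0 x_1, x_1 ^ 2` in `f 0`.  `Ln k P d (n + 1)` by `S_TWQ`.
* `a = 0`: take `1 ∈ D`; over `R = Localization.Away 1` the polynomial `f'` has no `x_0 ^ 2`; `S_LIN`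
  and `S_LNF`.
* `a ≠ 0`: take `a`; over `R = D_a` put `b' = b / a`, `c' = c / a`, `T = Dr R b' c'`, `t` the root.
  `DL k T d` by `S_DLR` (2), (3).  The polynomial `mf _ f'` over `T` satisfies the hypothesis of
  `S_SUB` (`a t ^ 2 + b t + c = a (t ^ 2 + b' t + c') = 0`); `S_LIN`, `S_LNF` over `T` give
  `P (ER (mf _ f'))`, so `P (Dr (ER f') _ _)` by `S_DRI`, so `P (ER f')` by `dbl`. -/
def S_QST : Prop :=
  ∀ (k : Type) [Field k]
    (P : ∀ (A : Type) [CommRing A] [Algebra k A] [Algebra.FiniteType k A], Prop) (d n : ℕ),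
    Cls k d P → (∀ m, m ≤ n + 1 → Qn k P d m) → Qn k P d (n + 2)

def M_QST : Prop := S_DLR → S_SPR → S_TWQ → S_LNF → S_LIN → S_SUB → S_DRI → S_QST

/-- **Q01** (`n = 0` and `n = 1`).
Proof.  `n = 0`: `ER f` is a quotient of `MvPolynomial (Fin 0) R ≅ R`, so `DL k (ER f) d` by `S_DLR`
(1); `base`.  `n = 1`: `S_SPR`: `D` a domain, `a = 1`, `D' = Localization.Away 1` a domain with
`DL k D' d`.  If `f 0 = 0`, `S_PLY` (2) and `base`.  If `f 0 ≠ 0`, then its image over `D'` is not
zero (`D → D'` is injective, even bijective), `MvPolynomial (Fin 1) D'` is a domain with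
`DL _ (d + 1)` (`S_DLM`), so `DL k (ER f') d` by `S_DLR` (5); `base`. -/
def S_Q01 : Prop :=
  ∀ (k : Type) [Field k]
    (P : ∀ (A : Type) [CommRing A] [Algebra k A] [Algebra.FiniteType k A], Prop) (d : ℕ),
    Cls k d P → Qn k P d 0 ∧ Qn k P d 1

def M_Q01 : Prop := S_DLR → S_DLM → S_SPR → S_PLY → S_Q01

/-- **QUA**: strong induction on `n` with `S_Q01`, `S_QST`. -/
def S_QUA : Prop :=
  ∀ (k : Type) [Field k]
    (P : ∀ (A : Type) [CommRing A] [Algebra k A] [Algebra.FiniteType k A], Prop) (d : ℕ),
    Cls k d P → ∀ n, Qn k P d n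

def M_QUA : Prop := S_Q01 → S_QST → S_QUA

/-! ## The varieties `y ^ 2 - y = ∑ t_j f_j` -/

/-- **PRD** (two disjoint copies): `P A → P (A[y] / (y ^ 2 - y))`.
Proof.  `B = Q A 0`, `y = yy 0` is an idempotent.  `z : B → A`, `y ↦ 0` (`Qlift (AlgHom.id) 0`) is
surjective with kernel `(y)` (`Q_span`: `a + b y ↦ a`).  `u : B → A`, `y ↦ 1`: surjective with kernel
`(1 - y)`, and it is a localisation away from `y`: `y ↦ 1` is a unit; if `a + b y ↦ a + b = 0` then
`(a + b y) y = (a + b) y = 0`.  `glue`. -/
def S_PRD : Prop :=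
  ∀ (k : Type) [Field k]
    (P : ∀ (A : Type) [CommRing A] [Algebra k A] [Algebra.FiniteType k A], Prop), Cls0 k P →
    ∀ (A : Type) [CommRing A] [Algebra k A] [Algebra.FiniteType k A], P A → P (Q A 0)

/-- **V1R** (commutative algebra): `V = A[t][y] / (y ^ 2 - y - t F)`.
Proof.  (1) `z : V → Q ((A / F)[X]) 0` is `Qmap (mapX mk)` (`t F ↦ 0`); surjective
(`Qmap_surjective`), kernel `(F)`: by `Q_span` an element is `p + q y` with `p, q ∈ A[X]`; it is
mapped to zero iff `map mk p = map mk q = 0` iff all coefficients of `p`, `q` are divisible by `F`.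
(uniqueness of `p + q y` in `Q ((A / F)[X]) 0`: it is free with basis `1, y`).
(2) `u : V → U[X]`, where `A → U` is the localisation away from `F`: `y ↦ X`, `t ↦ (X ^ 2 - X) / F`;
it is a localisation away from `F`: `F ↦` unit; surjectivity up to denominators:
`X ↤ y`, `s ∈ A ↦ s`; injectivity up to `F`-power: let `p + q y ∈ V` be mapped to zero; modulo a
power of `F` replace `t F` by `y ^ 2 - y`: `F ^ N (p + q y) = G(y)` for some `G ∈ A[Y]`, whose image
in `U[X]` is `G(X) = 0`, so `F ^ M G = 0`, so `F ^ (N + M) (p + q y) = 0`. -/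
def S_V1R : Prop :=
  ∀ (k A U : Type) [Field k] [CommRing A] [Algebra k A] [CommRing U] [Algebra k U] (F : A)
    (u : A →ₐ[k] U), @IsLocalization.Away A _ F U _ u.toRingHom.toAlgebra →
    ∃ (z' : Q A[X] (X * C F) →ₐ[k] Q ((A ⧸ Ideal.span {F})[X]) 0) (u' : Q A[X] (X * C F) →ₐ[k] U[X]),
      Strat (algebraMap A[X] (Q A[X] (X * C F)) (C F)) z' u'

/-- **V1P**: `P A`, `P (A / F)` imply `P (V)`, `V = A[t][y] / (y ^ 2 - y - t F)`, and `P` of the open
part `t ≠ 0` of `V`.
Proof.  (1) `P (A_F)` by `opn`, `P (A_F[X])` by `line`; `P ((A / F)[X])` by `line`, `S_PRD`; `glue`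
with `S_V1R`.
(2) `V / (t) ≅ Q A 0` (`P` by `S_PRD`): the homomorphism `Qmap (evaluation at 0)` is surjective with
kernel `(t)`; `opn`. -/
def S_V1P : Prop :=
  ∀ (k : Type) [Field k]
    (P : ∀ (A : Type) [CommRing A] [Algebra k A] [Algebra.FiniteType k A], Prop), Cls0 k P →
    (∀ (A : Type) [CommRing A] [Algebra k A] [Algebra.FiniteType k A], P A → P A[X]) →
    ∀ (A : Type) [CommRing A] [Algebra k A] [Algebra.FiniteType k A] (F : A), P A →
      P (A ⧸ Ideal.span {F}) →
      P (Localization.Away (algebraMap A[X] (Q A[X] (X * C F)) X))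

def M_V1P : Prop := S_PRD → S_V1R → S_V1P

/-- The polynomial `f_0 + ∑ s_j f_(j+1)` over `S[s_1, ..., s_r]`. -/
noncomputable def fs {r : ℕ} {S : Type} [CommRing S] (f : Fin (r + 1) → S) :
    MvPolynomial (Fin r) S :=
  MvPolynomial.C (f 0) + ∑ j, MvPolynomial.X j * MvPolynomial.C (f j.succ)

/-- **VRQ** (commutative algebra): the strata `t_0 = 0` and `t_0 ≠ 0` of `VR S f`.
Proof.  `V = VR S f = S[t_0, ..., t_r][y] / (y ^ 2 - y - ∑ t_j f_j)`.
(1) `z' : V → VR S (f ∘ succ)`, `t_0 ↦ 0`, `t_(j+1) ↦ t_j`, `y ↦ y`: surjective with kernel `(t_0)`: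
`Qmap` of the homomorphism `S[t_0, ..., t_r] → S[t_1, ..., t_r]`, whose kernel is `(t_0)`.  (Compute
in the basis `1, y`, or: `Qmap φ` for a surjective `φ` with kernel `(a)` has kernel `(a)`.)
(2) `u' : V → Localization.Away t`, `t_0 ↦ t`, `t_(j+1) ↦ t s_j`, `y ↦ y`, where `t = X` in
`Q (S[s_1, ..., s_r][X]) (X * C (fs f))` (`∑ t_j f_j ↦ t f_0 + ∑ t s_j f_(j+1) = t (fs f)`).  It is
a localisation away from `t_0`: `t_0 ↦` unit.  General principle: if `φ : A → B` is a homomorphism
with `φ a = a'`, `ψ : B → A_a` with `ψ ∘ φ = ` the localisation map and `φ_a ∘ ψ = ` the localisation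
map `B → B_(a')`, then `A_a ≅ B_(a')` and `A → B_(a')` is a localisation.  Here `ψ : B → V_(t_0)`,
`s_j ↦ t_(j+1) / t_0`, `X ↦ t_0`, `y ↦ y`. -/
def S_VRQ : Prop :=
  ∀ (k S : Type) [Field k] [CommRing S] [Algebra k S] (r : ℕ) (f : Fin (r + 1) → S),
    ∃ (z' : VR S f →ₐ[k] VR S (fun j : Fin r => f j.succ))
      (u' : VR S f →ₐ[k] Localization.Away (algebraMap (MvPolynomial (Fin r) S)[X]
        (Q (MvPolynomial (Fin r) S)[X] (X * C (fs f))) X)),
      Strat (algebraMap (MvPolynomial (Fin (r + 1)) S) (VR S f) (MvPolynomial.X 0)) z' u'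

/-- **SWP**: `S[s_1, ..., s_r] / (fs f)` for `S = R[x_1, ..., x_n]` is `ER` of one polynomial of
degree at most two in `x_1, ..., x_n` over the base `R[s_1, ..., s_r]`.
Proof.  `R[x][s] ≅ R[s][x]` (`MvPolynomial.commAlgEquiv` restricted to `k`, or both are
`MvPolynomial (Fin n ⊕ Fin r) R`); `fs f` is mapped to `f_0 + ∑ s_j f_(j+1)` where the `f_j` are
considered as polynomials over `R[s]` (`MvPolynomial.map C`), of degree at most two in `x`
(`totalDegree_map_le`, `totalDegree_add_le`, `totalDegree_mul_C`...). -/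
def S_SWP : Prop :=
  ∀ (k R : Type) [Field k] [CommRing R] [Algebra k R] (n r : ℕ)
    (f : Fin (r + 1) → MvPolynomial (Fin n) R), (∀ j, (f j).totalDegree ≤ 2) →
    ∃ F : Fin 1 → MvPolynomial (Fin n) (MvPolynomial (Fin r) R), (∀ j, (F j).totalDegree ≤ 2) ∧
      Nonempty ((MvPolynomial (Fin r) (MvPolynomial (Fin n) R) ⧸ Ideal.span {fs f}) ≃ₐ[k] ER F)

/-- **VRP**.
Proof.  Induction on `r` (for `f : Fin r → S`, `S = MvPolynomial (Fin n) R`; the hypothesis is
`e + r ≤ d + 1`, and `e ≤ d`).
* `r = 0`: `VR S f = Q (MvPolynomial (Fin 0) S) (lin f)`, `lin f = 0` (empty sum), so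
  `VR S f = Q (MvPolynomial (Fin 0) S) 0`; `S_PRD`, `P (MvPolynomial (Fin 0) S)` by `S_PLY` (1)
  twice and `base`.
* `r + 1`: `S' = MvPolynomial (Fin r) S`.  `P S'` (`S_PLY` (1)).  `DL k (MvPolynomial (Fin r) R) d`
  by `S_DLM` (`e + r ≤ d`; monotone), so `P (S' / (fs f))` by `S_SWP` and `S_QUA`.  `S_V1P` for
  `A = S'`, `F = fs f`.  `P (VR S (f ∘ succ))` by induction.  `glue` with `S_VRQ`. -/
def S_VRP : Prop :=
  ∀ (k : Type) [Field k]
    (P : ∀ (A : Type) [CommRing A] [Algebra k A] [Algebra.FiniteType k A], Prop) (d e n r : ℕ),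
    Cls k d P → e ≤ d → e + r ≤ d + 1 →
    ∀ (R : Type) [CommRing R] [Algebra k R] [Algebra.FiniteType k R]
      (f : Fin r → MvPolynomial (Fin n) R), DL k R e → (∀ j, (f j).totalDegree ≤ 2) →
      P (VR (MvPolynomial (Fin n) R) f)

def M_VRP : Prop := S_DLM → S_PLY → S_QUA → S_PRD → S_V1P → S_VRQ → S_SWP → S_VRP

/-! ## Large dimension -/

/-- **IGE**: the fibres which are not the whole affine space have dimension at most `n`.
Proof.  `S_SPR` (`d := 1`, `Θ` trivially true): `D` a domain, `DL k D 1`.  If all `f j = 0`: `a = 1`,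
`P (ER f')` by hypothesis `hA`, as `f' = 0` and `ER f' ≅ MvPolynomial (Fin n) D'`,
`D' = Localization.Away 1`, `DL k D' 1` (`S_DLR` (2)).  If `f j ≠ 0`: `a = 1`,
`f' j ≠ 0` over the domain `D'`, `ER f'` is a quotient of `MvPolynomial (Fin n) D' / (f' j)` which
satisfies `DL _ n` by `S_DLM` (`DL (MvPolynomial (Fin n) D') (1 + n)`) and `S_DLR` (5), (1); `hB`. -/
def S_IGE : Prop :=
  ∀ (k ι : Type) [Field k]
    (P : ∀ (A : Type) [CommRing A] [Algebra k A] [Algebra.FiniteType k A], Prop) (n : ℕ),
    Cls0 k P →
    (∀ (A : Type) [CommRing A] [Algebra k A] [Algebra.FiniteType k A], DL k A 1 →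
      P (MvPolynomial (Fin n) A)) →
    (∀ (A : Type) [CommRing A] [Algebra k A] [Algebra.FiniteType k A], DL k A n → P A) →
    ∀ (R : Type) [CommRing R] [Algebra k R] [Algebra.FiniteType k R]
      (f : ι → MvPolynomial (Fin n) R), DL k R 1 → P (ER f)

def M_IGE : Prop := S_DLR → S_DLM → S_SPR → S_IGE

end QCV


end
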