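import Mathlib
import Pool.Agent.QVM.C05

/-! Parts: CUB.StmtsR, CUB.R_DISJ, CUB.R_FIN, CUB.R_FINL, CUB.R_KOS, CUB.R_R, CUB.R_TDU, CUB.R_VC1, LOWD.Defs, LOWD.Stmts, LOWD.CLF, LOWD.DEG, LOWD.DGL, LOWD.FPR, LOWD.KRU, LOWD.NULM -/

section

/-!
# CUB, block R: tame symbols on two-dimensional local domains (statements)

Module `X` proves `theorem t_X : M_X` (or `t_X : S_X` if there is no `M_X`) in the namespace `CUB`, in the file
`Pool/Agent/CUB/R_X.lean`, importing this file.  The hypotheses of `M_X` are statements of other modules.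
The aim is the statement `S_R` of `StmtsB`.  `len I p` is the length of `A_p / I A_p` (`Defs.lean`); `IsUnif`, `IsUn`, `IsTame`, `IsNm`, `rhoO`, `IsTD`, `VV` are in `Defs3.lean`.
-/

set_option autoImplicit false

open Polynomial

namespace CUB

/-! ## 0. Definitions -/

/-- The primes which are neither zero nor maximal. -/
def HH (A : Type) [CommRing A] : Set (PrimeSpectrum A) :=
  {p | p.asIdeal ≠ ⊥ ∧ ¬ p.asIdeal.IsMaximal}

/-- The length of the `C`-module `M` as a natural number (`0` if it is infinite). -/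
noncomputable def lC (C M : Type) [CommRing C] [AddCommGroup M] [Module C M] : ℕ :=
  (Module.length C M).toNat

/-- `C` is a Noetherian local domain of dimension at most two with fraction field `K`, `A` is its normalisation, and it is finite
over `C`. -/
structure Sit (C A K : Type) [CommRing C] [IsDomain C] [IsLocalRing C] [IsNoetherianRing C]
    [CommRing A] [IsDomain A] [Field K] [Algebra C A] [Algebra C K] [Algebra A K]
    [IsScalarTower C A K] : Prop where
  fin : Module.Finite C A
  frC : IsFractionRing C K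
  frA : IsFractionRing A K
  ic : IsIntegrallyClosed A
  dim : ∀ P P' : Ideal C, P.IsPrime → P'.IsPrime → P ≠ ⊥ → P < P' →
    P' = IsLocalRing.maximalIdeal C

/-- `O` is the localisation of `A` at the prime ideal `p`, as a subring of `K`. -/
def IsLocO {A K : Type} [CommRing A] [Field K] [Algebra A K] (p : Ideal A)
    (O : ValuationSubring K) : Prop :=
  ∀ x : K, x ∈ O ↔ ∃ a b : A, b ∉ p ∧ x * algebraMap A K b = algebraMap A K a

/-! ## 1. Lengths: additivity -/

/-- DEV. Additivity of `e(M) = length_C (M / y M) - length_C (M[y])`. `S` is a finite set of primes of `A` without inclusions, not containing `y`; every prime in the support of `M` is in `S`, or it is contained in no prime in `S` and `A / P` has finite length over `C`. Proof: dévissage (`IsNoetherianRing.induction_on_isQuotientEquivQuotientPrime`, as in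
`A_HER.lean`, module HER, or a filtration with quotients `A / P_i`). All the terms are additive in short exact sequences (snake lemma for multiplication by `y`; localisation at `P` is exact; the support of a submodule or quotient is contained in the support). For `M = A / P`, `P ∈ S`: `M[y] = 0`, `M_P` has length one over `A_P`, `M_(P') = 0` for `P' ∈ S`, `P' ≠ P`. For
`M = A / P` with `P ⊄ P'` for all `P' ∈ S`, of finite length over `C`: `M_(P') = 0`, and `length (M / y M) = length (M[y])` (endomorphism of a module of finite length). -/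
def S_DEV : Prop := ∀ (C A : Type) [CommRing C] [CommRing A] [IsNoetherianRing A] [Algebra C A]
  (y : A) (S : Finset (PrimeSpectrum A)),
  (∀ P ∈ S, y ∉ P.asIdeal ∧ Module.length C (A ⧸ (P.asIdeal ⊔ Ideal.span {y})) ≠ ⊤) →
  (∀ P ∈ S, ∀ P' ∈ S, P.asIdeal ≤ P'.asIdeal → P = P') →
  ∀ (M : Type) [AddCommGroup M] [Module A M] [Module C M] [IsScalarTower C A M]
    [Module.Finite A M],
  (∀ P ∈ Module.support A M, P ∈ S ∨
    ((∀ P' ∈ S, ¬ P.asIdeal ≤ P'.asIdeal) ∧ Module.length C (A ⧸ P.asIdeal) ≠ ⊤)) →
  Module.length C (M ⧸ (LinearMap.range (LinearMap.lsmul A M y))) ≠ ⊤ ∧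
  Module.length C (LinearMap.ker (LinearMap.lsmul A M y)) ≠ ⊤ ∧
  (∀ P ∈ S, Module.length (Localization.AtPrime P.asIdeal)
    (LocalizedModule P.asIdeal.primeCompl M) ≠ ⊤) ∧
  lC C (M ⧸ (LinearMap.range (LinearMap.lsmul A M y))) =
    lC C (LinearMap.ker (LinearMap.lsmul A M y)) +
      ∑ P ∈ S, lC (Localization.AtPrime P.asIdeal) (LocalizedModule P.asIdeal.primeCompl M) *
        lC C (A ⧸ (P.asIdeal ⊔ Ideal.span {y}))

/-- KOS. `A` a domain: `(A / x)[y] ≅ (A / y)[x]`: if `y a = x b` then `a mod x` corresponds to `b mod y` (`x`, `y` are not zero). -/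
def S_KOS : Prop := ∀ (C A : Type) [CommRing C] [CommRing A] [IsDomain A] [Algebra C A]
  (x y : A), x ≠ 0 → y ≠ 0 →
  Module.length C (LinearMap.ker (LinearMap.lsmul A (A ⧸ Ideal.span {x}) y)) =
    Module.length C (LinearMap.ker (LinearMap.lsmul A (A ⧸ Ideal.span {y}) x))

/-- HHA. Elementary facts. `A` is integral over `C`, so a nonzero prime of `A` contracts to a nonzero prime of `C` (domains), inclusions of primes of `A` which are strict remain strict, and a prime of `A` is maximal iff its contraction is (Mathlib). (1) noetherian; (2) hence; (3): a strict inclusion `0 < p' < p`, `p` not maximal, would give a chain `0 < P' < P < max` in `C`, contradicting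
`dim`. (4) a prime `p ∈ HH A` containing `x` is minimal over `(x)` by (3); finitely many minimal primes. (5) `A / (p + x)` is a finite `C`-module; the primes of `C` in its support contain `(p + x) ∩ C`, strictly larger than `p ∩ C` (`A / p` is an integral extension of the domain `C / (p ∩ C)`), so only the maximal ideal: finite length. (6) the exact sequence
`0 → A / (p + y) → A / (p + x y) → A / (p + x) → 0` (`A / p` is a domain). (7), (8) the same for `C`. (9) `A / (x, y)`: the primes of `A` containing `x` and `y` are maximal, so those of `C` in the support too; finite length. -/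
def S_HHA : Prop := ∀ (C A K : Type) [CommRing C] [IsDomain C] [IsLocalRing C]
  [IsNoetherianRing C] [CommRing A] [IsDomain A] [Field K] [Algebra C A] [Algebra C K]
  [Algebra A K] [IsScalarTower C A K], Sit C A K → IsNoetherianRing A ∧
  (∀ p ∈ HH A, PrimeSpectrum.comap (algebraMap C A) p ∈ HH C) ∧
  (∀ p ∈ HH A, ∀ p' : Ideal A, p'.IsPrime → p' < p.asIdeal → p' = ⊥) ∧
  (∀ x : A, x ≠ 0 → {p | p ∈ HH A ∧ x ∈ p.asIdeal}.Finite) ∧
  (∀ p ∈ HH A, ∀ x, x ∉ p.asIdeal →
    Module.length C (A ⧸ (p.asIdeal ⊔ Ideal.span {x})) ≠ ⊤) ∧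
  (∀ p ∈ HH A, ∀ x y, x ∉ p.asIdeal → y ∉ p.asIdeal →
    lC C (A ⧸ (p.asIdeal ⊔ Ideal.span {x * y})) =
      lC C (A ⧸ (p.asIdeal ⊔ Ideal.span {x})) + lC C (A ⧸ (p.asIdeal ⊔ Ideal.span {y}))) ∧
  (∀ z ∈ HH C, ∀ p' : Ideal C, p'.IsPrime → p' < z.asIdeal → p' = ⊥) ∧
  (∀ z ∈ HH C, ∀ x, x ∉ z.asIdeal →
    Module.length C (C ⧸ (z.asIdeal ⊔ Ideal.span {x})) ≠ ⊤) ∧
  (∀ x y : A, x ≠ 0 → y ≠ 0 → (∀ p ∈ HH A, x ∈ p.asIdeal → y ∉ p.asIdeal) →
    Module.length C (A ⧸ (Ideal.span {x} ⊔ Ideal.span {y})) ≠ ⊤)

/-- DISJ. `x, y` nonzero elements of `A` without a common prime in `HH A`. S_DEV for `M = A / x`, the element `y`, and `S` the primes in `HH A` containing `x` (other primes in the support are maximal, of finite length over `C`: `A / p` is finite over the residue field of `C`): `length (A / (x, y)) - length ((A / x)[y]) = ∑ ord_p(x) length(A / (p + y))`;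
the same with `x` and `y` exchanged; by S_KOS the left sides agree. For `p ∈ W` with `x ∉ p` the number `len (x) p` is `0`. -/
def S_DISJ : Prop := ∀ (C A K : Type) [CommRing C] [IsDomain C] [IsLocalRing C]
  [IsNoetherianRing C] [CommRing A] [IsDomain A] [Field K] [Algebra C A] [Algebra C K]
  [Algebra A K] [IsScalarTower C A K], Sit C A K → ∀ (x y : A), x ≠ 0 → y ≠ 0 →
  (∀ p ∈ HH A, x ∈ p.asIdeal → y ∉ p.asIdeal) → ∀ W : Finset (PrimeSpectrum A),
  (∀ p ∈ W, p ∈ HH A) → (∀ p ∈ HH A, x ∈ p.asIdeal ∨ y ∈ p.asIdeal → p ∈ W) →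
  ∑ p ∈ W, len (Ideal.span {x}) p * lC C (A ⧸ (p.asIdeal ⊔ Ideal.span {y})) =
    ∑ p ∈ W, len (Ideal.span {y}) p * lC C (A ⧸ (p.asIdeal ⊔ Ideal.span {x}))

def M_DISJ : Prop := S_DEV → S_KOS → S_HHA → S_DISJ

/-! ## 2. Valuation rings of a normal domain -/

/-- VC1. `A_p` is a discrete valuation ring (Noetherian, integrally closed, local, of dimension one; Mathlib: `IsDiscreteValuationRing` criteria / `IsDedekindDomain` of the localisation), considered as a valuation subring of `K`; `π` is a uniformiser which may be taken in `A`; a nonzero `a ∈ A` is a unit times `π ^ r`, `r = length of A_p / a`. Every nonzero element of `K` is a unit of `O` times a power of `π`. -/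
def S_VC1 : Prop := ∀ (A K : Type) [CommRing A] [IsDomain A] [IsNoetherianRing A]
  [IsIntegrallyClosed A] [Field K] [Algebra A K] [IsFractionRing A K] (p : PrimeSpectrum A),
  p.asIdeal ≠ ⊥ → (∀ p' : Ideal A, p'.IsPrime → p' < p.asIdeal → p' = ⊥) →
  ∃ O : ValuationSubring K, IsLocO p.asIdeal O ∧ (∃ π : A, IsUnif O (algebraMap A K π)) ∧
    ∀ π : K, IsUnif O π → (∀ x : K, x ≠ 0 → ∃ (i : ℤ) (α : K), IsUn O α ∧ x = α * π ^ i) ∧
      ∀ a : A, a ≠ 0 → ∃ α : K, IsUn O α ∧
        algebraMap A K a = α * π ^ ((len (Ideal.span {a}) p : ℕ) : ℤ)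

/-- VC2. (1) `O` contains `A` and its maximal ideal contracts to `p`: then `O ⊇ A_p`, a discrete valuation ring, and `O ≠ K`, so `O = A_p`. (2) For `O = A_p`: an element of `A` is a nonunit of `O` (or zero) iff it is in `p`. -/
def S_VC2 : Prop := ∀ (A K : Type) [CommRing A] [IsDomain A] [IsNoetherianRing A]
  [IsIntegrallyClosed A] [Field K] [Algebra A K] [IsFractionRing A K] (p : PrimeSpectrum A),
  p.asIdeal ≠ ⊥ → (∀ p' : Ideal A, p'.IsPrime → p' < p.asIdeal → p' = ⊥) →
  ∀ O : ValuationSubring K,
  (((∀ a : A, algebraMap A K a ∈ O) ∧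
    (∀ a : A, a ∈ p.asIdeal ↔ algebraMap A K a = 0 ∨ (algebraMap A K a)⁻¹ ∉ O)) ↔
      IsLocO p.asIdeal O)

/-- AVO. Prime avoidance. `T` a finite set of primes of height one of `A`, `O p = A_p`. (1) for `p ∈ T`: there is `π ∈ p`, not in the symbolic square `{a | a ∈ A, a ∈ (π₀ ^ 2) A_p}` and in no other prime of `T` (`Ideal.subset_union_prime` allows two ideals which are not prime; `p` is not contained in the other primes: height one). (2) `w` a unit at all `p ∈ T`: the ideal
`{c ∈ A | c w ∈ A}` is contained in no `p ∈ T` (as `w ∈ A_p`), so there is an element `c₂` of it in no `p ∈ T`; `c₁ = c₂ w` is a unit at `p`. -/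
def S_AVO : Prop := ∀ (A K : Type) [CommRing A] [IsDomain A] [IsNoetherianRing A]
  [IsIntegrallyClosed A] [Field K] [Algebra A K] [IsFractionRing A K]
  (T : Finset (PrimeSpectrum A)) (O : PrimeSpectrum A → ValuationSubring K),
  (∀ p ∈ T, p.asIdeal ≠ ⊥ ∧ (∀ p' : Ideal A, p'.IsPrime → p' < p.asIdeal → p' = ⊥) ∧
    IsLocO p.asIdeal (O p)) →
  (∀ p ∈ T, ∃ π : A, IsUnif (O p) (algebraMap A K π) ∧ ∀ p' ∈ T, p' ≠ p → π ∉ p'.asIdeal) ∧
  (∀ w : K, w ≠ 0 → (∀ p ∈ T, IsUn (O p) w) → ∃ c₁ c₂ : A,
    w * algebraMap A K c₂ = algebraMap A K c₁ ∧ ∀ p ∈ T, c₁ ∉ p.asIdeal ∧ c₂ ∉ p.asIdeal)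

def M_AVO : Prop := S_VC1 → S_VC2 → S_AVO

/-! ## 3. The tame symbol lemma -/

/-- TAMEF. A formal lemma. `K` a field (only its nonzero elements matter), `H` a set of places with homomorphisms `v h : K^* → ℤ`, `lam h` a homomorphism on `{a | v h a = 0}`, `A0` a set of nonzero effective elements. Let `t h a b = a ^ (v h b) * b ^ (- v h a)` and `Φ(a, b) = ∑_h lam h (t h a b)` (a finite sum: `t h a b = 1` unless `v h a ≠ 0` or `v h b ≠ 0`, and `lam h 1 = 0`). `v h (t h a b) = 0`, `Φ` is
bilinear on `K^*`, `Φ(b, a) = - Φ(a, b)`, so `Φ(a, a) = 0`.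
(A) If `a, b ∈ A0` have no common place then `Φ(a, b) = ∑ (v h b * lam h a - v h a * lam h b) = 0` by (disj). (B) If `c ∈ K^*` has `v h c = 0` at all places `h` of `b ∈ A0` (that is `v h b ≠ 0`) then `Φ(c, b) = 0`: by (frac) `c = c₁ / c₂` with `c_i ∈ A0` having no common place with `b`; use (A). (C) Let `h` be a place, and call `π ∈ A0` good if `v h π = 1`. If `π, ρ, σ` are good, and pairwise have only the
place `h` in common: `Φ(π, ρ) = Φ(σ, ρ) + Φ(π / σ, ρ) = Φ(σ, ρ)` by (B) (at the places of `ρ` other than `h`, `π` and `σ` have valuation `0`; at `h` both have valuation `1`). So for any such triple `Φ(π, ρ) = Φ(σ, ρ)`. Applying this to permutations of the triple and antisymmetry: `Φ(π, ρ) = Φ(σ, ρ) = - Φ(ρ, σ) = - Φ(π, σ) = Φ(σ, π) = Φ(ρ, π) = - Φ(π, ρ)`, so `Φ(π, ρ) = 0`. Given good `π, ρ` having only the place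
`h` in common there is such a `σ` by (appr) for `S` the set of the places of `π` and `ρ`. So `Φ(π, ρ) = 0` for all good `π, ρ` having only `h` in common.
(D) `a, b ∈ K^*` arbitrary. Write `b` as a quotient of elements of `A0` ((frac) with `S = ∅`), similarly `a`; by bilinearity `a, b ∈ A0`. `S` = places of `a` and `b`. For `h ∈ S` choose `π_h ∈ A0` by (appr), `S`. `a = ∏ π_h ^ (v h a) * c`, `v h c = 0` for `h ∈ S`, so `Φ(c, b) = 0` by (B), and it is enough that `Φ(π_h, b) = 0`, `h ∈ S`. Let `S'` be the union of `S` and the places of all `π_h`. For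
`h' ∈ S` choose `ρ_(h')` by (appr), `S'`. `b = ∏_(h' ∈ S) ρ_(h') ^ (v h' b) * d`; `v h'' d = 0` for `h'' ∈ S'` (for `h'' ∈ S' ∖ S`, `v h'' b = 0` and `v h'' ρ_(h') = 0`), so `Φ(π_h, d) = 0` by (B) and antisymmetry. `Φ(π_h, ρ_(h')) = 0`: a common place `h''` is in `S'`, so it is `h'`, and `h' ∈ S` is a place of `π_h`, so `h' = h`. So if `h' ≠ h` there is no common place (A), and if `h' = h` use (C). -/
def S_TAMEF : Prop := ∀ (K H : Type) [Field K] (v lam : H → K → ℤ) (A0 : Set K),
  (∀ h a b, a ≠ 0 → b ≠ 0 → v h (a * b) = v h a + v h b) →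
  (∀ h a b, a ≠ 0 → b ≠ 0 → v h a = 0 → v h b = 0 → lam h (a * b) = lam h a + lam h b) →
  (∀ a ∈ A0, a ≠ 0 ∧ (∀ h, 0 ≤ v h a) ∧ {h | v h a ≠ 0}.Finite) →
  (∀ (S : Finset H), ∀ h ∈ S, ∃ π ∈ A0, v h π = 1 ∧ ∀ h' ∈ S, h' ≠ h → v h' π = 0) →
  (∀ (w : K) (S : Finset H), w ≠ 0 → (∀ h ∈ S, v h w = 0) → ∃ c₁ ∈ A0, ∃ c₂ ∈ A0,
    w * c₂ = c₁ ∧ ∀ h ∈ S, v h c₁ = 0 ∧ v h c₂ = 0) →
  (∀ a ∈ A0, ∀ b ∈ A0, (∀ h, v h a = 0 ∨ v h b = 0) → ∀ S : Finset H,
    (∀ h, v h a ≠ 0 ∨ v h b ≠ 0 → h ∈ S) → ∑ h ∈ S, (v h b * lam h a - v h a * lam h b) = 0) →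
  ∀ (a b : K), a ≠ 0 → b ≠ 0 → ∀ S : Finset H, (∀ h, v h a ≠ 0 ∨ v h b ≠ 0 → h ∈ S) →
    ∑ h ∈ S, lam h (a ^ v h b * b ^ (-v h a)) = 0

/-- TAME. Apply S_TAMEF with `H` the subtype of `HH A`, `v p` the valuation of `A_p` (S_VC1; defined for instance by `x = α π ^ i`, unique `i`), `lam p w = lC (A / (p + x)) - lC (A / (p + y))` for a unit `w = x / y` of `A_p`, `x, y ∉ p` (well defined and a homomorphism by S_HHA (6)), `A0` the nonzero elements of `A`. The hypotheses are S_HHA (4), S_AVO and
S_DISJ (with `v p a = len (a) p` by S_VC1, and `0` iff `a ∉ p`). The hypothesis `IsTame (O p) a b (X p / Y p)` says that `X p / Y p = a ^ (v b) * b ^ (- v a)`: the valuations `i, j` in `IsTame` are unique. -/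
def S_TAME : Prop := ∀ (C A K : Type) [CommRing C] [IsDomain C] [IsLocalRing C]
  [IsNoetherianRing C] [CommRing A] [IsDomain A] [Field K] [Algebra C A] [Algebra C K]
  [Algebra A K] [IsScalarTower C A K], Sit C A K → ∀ (a b : K), a ≠ 0 → b ≠ 0 →
  ∀ (O : PrimeSpectrum A → ValuationSubring K) (W : Finset (PrimeSpectrum A))
  (X Y : PrimeSpectrum A → A), (∀ p ∈ HH A, IsLocO p.asIdeal (O p)) →
  (∀ p ∈ W, p ∈ HH A) → (∀ p ∈ HH A, ¬ IsUn (O p) a ∨ ¬ IsUn (O p) b → p ∈ W) →
  (∀ p ∈ W, X p ∉ p.asIdeal ∧ Y p ∉ p.asIdeal ∧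
    IsTame (O p) a b (algebraMap A K (X p) / algebraMap A K (Y p))) →
  ∑ p ∈ W, ((lC C (A ⧸ (p.asIdeal ⊔ Ideal.span {X p})) : ℤ) -
    lC C (A ⧸ (p.asIdeal ⊔ Ideal.span {Y p}))) = 0

def M_TAME : Prop := S_HHA → S_VC1 → S_VC2 → S_AVO → S_DISJ → S_TAMEF → S_TAME

/-! ## 4. From the normalisation to `C` -/

/-- PC. `a, u ∈ C` nonzero. Let `M = A / a A` and let `M' = M / Γ`, `Γ` the submodule of elements killed by a power of `u` (of a fixed power `u ^ r`: Noetherian). `M'` is a finite `A`-module and a finite `C`-module, `M'[u] = 0`. S_DEV over the ring `A` (lengths over `C`, `y = u`, `S = V`): the support of `M'` consists of the `p ∈ HH A` with `a ∈ p`, `u ∉ p`, and of maximal ideals (if `p` in the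
support is in `HH A` and `u ∈ p`: `M_p` has finite length over `A_p`, as `a ≠ 0`, and `u` acts nilpotently, so `M_p = Γ_p` and `M'_p = 0`); for `p ∈ V`, `M'_p = M_p = A_p / a` since `u` is invertible on `M_p`. So `length_C (M' / u M') = ∑_(p ∈ V) len (a) p * lC (A / (p + u))`. S_DEV over the ring `C` with the same module `M'`: `length_C (M' / u M') = ∑_(z ∈ Z) length_(C_z) (M'_z) * lC (C / (z + u))`, and
`M'_z = M_z = A_z / a A_z` has length `len (a) z = length (C_z / a)` over `C_z`: by S_DEV for the ring `C_z` (or directly) with `S = {0}`, `y = a`, and the module `A_z` (torsion-free, `A_z ⊗ K = K` of dimension one): `length (A_z / a) = 1 * length (C_z / a)`. (`C_z` is a one-dimensional Noetherian local domain: `C_z / a` has finite length.) -/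
def S_PC : Prop := ∀ (C A K : Type) [CommRing C] [IsDomain C] [IsLocalRing C]
  [IsNoetherianRing C] [CommRing A] [IsDomain A] [Field K] [Algebra C A] [Algebra C K]
  [Algebra A K] [IsScalarTower C A K], Sit C A K → ∀ (a u : C), a ≠ 0 → u ≠ 0 →
  ∀ (V : Finset (PrimeSpectrum A)) (Z : Finset (PrimeSpectrum C)),
  (∀ p, p ∈ V ↔ p ∈ HH A ∧ algebraMap C A a ∈ p.asIdeal ∧ algebraMap C A u ∉ p.asIdeal) →
  (∀ z, z ∈ Z ↔ z ∈ HH C ∧ a ∈ z.asIdeal ∧ u ∉ z.asIdeal) →
  ∑ p ∈ V, len (Ideal.span {algebraMap C A a}) p *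
      lC C (A ⧸ (p.asIdeal ⊔ Ideal.span {algebraMap C A u})) =
    ∑ z ∈ Z, len (Ideal.span {a}) z * lC C (C ⧸ (z.asIdeal ⊔ Ideal.span {u}))

def M_PC : Prop := S_DEV → S_HHA → S_PC

/-- REC. Reciprocity. Apply S_TAME to (the images in `K` of) `a` and `u` and the finite set of all `p ∈ HH A` containing `a` or `u` (S_HHA (4); outside it both are units of `O p`, S_VC2). If `u ∉ p` and `a ∈ p`: `v(u) = 0`, `v(a) = len (a) p` (S_VC1), and one may take `X = 1`, `Y = u ^ (len (a) p)`, so the contribution is `- len (a) p * lC (A / (p + u))` (S_HHA (6)). So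
`∑_(p ∈ V) len (a) p * lC (A / (p + u)) = ∑_(p ∈ W) (lC (A / (p + X p)) - lC (A / (p + Y p)))` with `W` the primes in `HH A` containing `u`. The left side is computed by S_PC. -/
def S_REC : Prop := ∀ (C A K : Type) [CommRing C] [IsDomain C] [IsLocalRing C]
  [IsNoetherianRing C] [CommRing A] [IsDomain A] [Field K] [Algebra C A] [Algebra C K]
  [Algebra A K] [IsScalarTower C A K], Sit C A K → ∀ (a u : C), a ≠ 0 → u ≠ 0 →
  ∀ (O : PrimeSpectrum A → ValuationSubring K) (W : Finset (PrimeSpectrum A))
  (Z : Finset (PrimeSpectrum C)) (X Y : PrimeSpectrum A → A),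
  (∀ p ∈ HH A, IsLocO p.asIdeal (O p)) →
  (∀ p, p ∈ W ↔ p ∈ HH A ∧ algebraMap C A u ∈ p.asIdeal) →
  (∀ z, z ∈ Z ↔ z ∈ HH C ∧ a ∈ z.asIdeal ∧ u ∉ z.asIdeal) →
  (∀ p ∈ W, X p ∉ p.asIdeal ∧ Y p ∉ p.asIdeal ∧ IsTame (O p) (algebraMap C K a)
    (algebraMap C K u) (algebraMap A K (X p) / algebraMap A K (Y p))) →
  ∑ z ∈ Z, (len (Ideal.span {a}) z : ℤ) * lC C (C ⧸ (z.asIdeal ⊔ Ideal.span {u})) =
    ∑ p ∈ W, ((lC C (A ⧸ (p.asIdeal ⊔ Ideal.span {X p})) : ℤ) -
      lC C (A ⧸ (p.asIdeal ⊔ Ideal.span {Y p})))

def M_REC : Prop := S_HHA → S_VC1 → S_VC2 → S_TAME → S_PC → S_REC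

/-! ## 5. Norms -/

/-- NORM. `B` a Noetherian domain all whose proper quotients `B / x`, `x ≠ 0`, have finite length, `F` its fraction field, `B₁` a domain, finite over `B`, with fraction field `L` (finite over `F`). For `x ∈ B₁`, `x ≠ 0`: `length_B (B₁ / x)` is the order of the norm of `x`. Proof. A lattice is a finitely generated `B`-submodule `N` of `L` which spans `L` over `F`. If `w ∈ L^*` and `w N ⊆ N` let
`χ(w, N) = length (N / w N)`, finite. (1) It does not depend on `N`: for `N ⊆ N'` stable under `w`: `length (N' / w N) = length (N' / N) + length (N / w N) = length (N' / w N') + length (w N' / w N)` and `w N' / w N ≅ N' / N`, of finite length. For arbitrary `N, N'` compare with `N + N'`. (2) `χ(w w', N) = χ(w, N) + χ(w', N)`. (3) For `c ∈ B` and a free lattice of rank `D = [L : F]`: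
`χ(c, N) = D * length (B / c)`. (4) Let `g = t^m + a_1 t^(m-1) + ... + a_m` be the minimal polynomial of `x` over `F`, `r = [L : F(x)]`, `D = m r`. Choose `0 ≠ c₀ ∈ B` with `c₀ a_i ∈ B` for all `i`, `x' = c₀ x`, a root of the monic polynomial `g' = t^m + c₀ a_1 t^(m-1) + ... + c₀^m a_m ∈ B[t]`. Let `e_1, ..., e_r` be a basis of `L` over `F(x)`; the elements `x'^j e_i`, `j < m`, are a basis of `L` over `F`, and they
generate a free lattice `N'`, stable under `x'`, with `N' / x' N' ≅ (B[t] / (g', t))^r = (B / c₀^m a_m)^r`. So `χ(x', ·) = r * length (B / (c₀^m a_m))` and `length (B₁ / x) = χ(x, B₁) = χ(x', B₁) - χ(c₀, B₁) = r * length (B / (c₀^m a_m)) - m r * length (B / c₀)`. (5) The norm of `x` is `((-1)^m a_m)^r` (Mathlib: `Algebra.norm_eq_norm_adjoin` may need separability; otherwise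
`Algebra.norm_norm` (transitivity), `PowerBasis.norm_gen_eq_coeff_zero_minpoly`, and `Algebra.norm_algebraMap`; or compute the determinant of multiplication by `x` in the basis `x^j e_i`), so `c = `, `b = ` given with `norm * c = b`: `b * c₀^(m r) = ± c * (c₀^m a_m)^r`, and lengths are additive: `length (B / (x y)) = length (B / x) + length (B / y)`. -/
def S_NORM : Prop := ∀ (B B₁ F L : Type) [CommRing B] [IsDomain B] [IsNoetherianRing B]
  [CommRing B₁] [IsDomain B₁] [Field F] [Field L] [Algebra B B₁] [Algebra B F] [Algebra B L]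
  [Algebra B₁ L] [Algebra F L] [IsScalarTower B B₁ L] [IsScalarTower B F L]
  [IsFractionRing B F] [IsFractionRing B₁ L] [Module.Finite B B₁] [Module.Finite F L],
  (∀ x : B, x ≠ 0 → Module.length B (B ⧸ Ideal.span {x}) ≠ ⊤) →
  ∀ (x : B₁) (b c : B), x ≠ 0 → b ≠ 0 → c ≠ 0 →
  Algebra.norm F (algebraMap B₁ L x) * algebraMap B F c = algebraMap B F b →
  Module.length B (B₁ ⧸ Ideal.span {x}) + Module.length B (B ⧸ Ideal.span {c}) =
    Module.length B (B ⧸ Ideal.span {b})

/-- NM. The situation of S_REC. `p ∈ HH A`, `z = p ∩ C`, `O = A_p`, `κ(O)` its residue field, `ρ : C → κ(O)` with kernel `z`. `A / p` embeds in `κ(O)`, and `κ(O)` is its fraction field. `F = Subfield.closure (range ρ)` is the fraction field of `B = C / z`, and `κ(O)` is finite over `F` (since `A / p` is finite over `C / z`). `x ∈ A ∖ p`, `w` its image in `O`. Apply S_NORM to `B = C / z`, `B₁ = A / p`,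
`L = κ(O)`: `norm_F(w) = b / c` gives `lC (A / (p + x)) + lC (C / (z + c)) = lC (C / (z + b))` (lengths over `C` and over `C / z` agree; finite by S_HHA). -/
def S_NM : Prop := ∀ (C A K : Type) [CommRing C] [IsDomain C] [IsLocalRing C]
  [IsNoetherianRing C] [CommRing A] [IsDomain A] [Field K] [Algebra C A] [Algebra C K]
  [Algebra A K] [IsScalarTower C A K], Sit C A K → ∀ (p : PrimeSpectrum A), p ∈ HH A →
  ∀ (O : ValuationSubring K), IsLocO p.asIdeal O → ∀ (ρ : C →+* IsLocalRing.ResidueField O),
  (∀ (c : C) (h : algebraMap C K c ∈ O), ρ c = IsLocalRing.residue O ⟨algebraMap C K c, h⟩) →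
  ∀ (x : A) (w : O) (b c : C), x ∉ p.asIdeal → (w : K) = algebraMap A K x →
  IsNm ρ (IsLocalRing.residue O w) b c →
  lC C (A ⧸ (p.asIdeal ⊔ Ideal.span {x})) +
      lC C (C ⧸ (p.asIdeal.comap (algebraMap C A) ⊔ Ideal.span {c})) =
    lC C (C ⧸ (p.asIdeal.comap (algebraMap C A) ⊔ Ideal.span {b}))

def M_NM : Prop := S_HHA → S_VC2 → S_NORM → S_NM

/-! ## 6. Finiteness of the normalisation -/

/-- FIN. The integral closure of a domain `B` of finite type over a perfect field `k` in its fraction field `K` is a finite `B`-module. Noether normalisation: `P = k[x_1, ..., x_d] ⊆ B` finite. `K` is finite over `k(x)`. Characteristic zero: separable extension, `IsIntegralClosure.finite` (or `isNoetherian`) for the integrally closed Noetherian domain `P`; the integral closure of `B` in `K` is the integral closure of `P` in `K`.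
Characteristic `p`: there is `q = p^e` such that (in an algebraic closure of `K`) the field `K' = K · k(x_1^(1/q), ..., x_d^(1/q))` is separable over `F' = k(x^(1/q))`: every finite extension of a field `F₀` of characteristic `p` becomes separable after a finite purely inseparable extension of `F₀` contained in `F₀^(1/q)`, and `k(x)^(1/q) = k(x^(1/q))` since `k` is perfect. The integral closure of
`P' = k[x^(1/q)]` (a polynomial ring) in `K'` is finite over `P'`, which is finite over `P`; so it is a Noetherian `P`-module, and it contains the integral closure of `P` in `K`. (If Mathlib has separable transcendence bases for perfect fields, `exists_isTranscendenceBasis_and_isSeparable_of_perfectField` or similar, another route: `B ⊆ K`; enlarge `B` to a finite extension inside `K`... any proof is welcome; the case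
needed is `k` finite, you may also use that `x ↦ x ^ q` is a bijection of `k`.) -/
def S_FIN : Prop := ∀ (k B K : Type) [Field k] [PerfectField k] [CommRing B] [IsDomain B]
  [Algebra k B] [Algebra.FiniteType k B] [Field K] [Algebra B K] [IsFractionRing B K],
  Module.Finite B (integralClosure B K)

/-- FINL. The localised version: `m` a prime of `B`, `C` its localisation, `A` the integral closure of `C` in `K`: it is the localisation of the integral closure of `B` (Mathlib: `IsLocalization` of `integralClosure`, or directly: if `x` is integral over `C` then `s x` is integral over `B` for some `s ∉ m`), so finite over `C`. -/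
def S_FINL : Prop := ∀ (k B C K : Type) [Field k] [PerfectField k] [CommRing B] [IsDomain B]
  [Algebra k B] [Algebra.FiniteType k B] [CommRing C] [Field K] [Algebra B K]
  [IsFractionRing B K] [Algebra B C] [Algebra C K] [IsScalarTower B C K] (m : Ideal B)
  [m.IsPrime] [IsLocalization.AtPrime C m], Module.Finite C (integralClosure C K)

def M_FINL : Prop := S_FIN → S_FINL

/-! ## 7. The formula on an algebra of finite type -/

/-- GREC. Setting: `S` of finite type over the perfect field `k`, `θ : S → K` with kernel `q` of dimension `n + 2`, `K` the fraction field of the image, `m` a prime of dimension `n`, `t ∈ m`, `t, x ∉ q`. `Z` is a finite set of primes `z` of dimension `n + 1` with `t ∉ z` which contains all those with `x ∈ z`, `q ⊆ z ⊆ m`. `W` is the set of the valuation rings `O ⊇ θ(S)` of `K` whose centre `z_O = ker (rhoO θ O)` has dimension `n + 1` and satisfies `t ∈ z_O ⊆ m`, and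
for `O ∈ W` the number `g O` is `len (z_O + b) m - len (z_O + c) m` where `b / c` is the norm of the tame symbol of `θ x` and `θ t` at `O`.
Proof. If `q ⊄ m` both sides are zero: `len (z ⊔ t) m = 0` unless `z ⊆ m`, `len (q ⊔ x) z = 0` unless `q ⊆ z`; `q = ker θ ⊆ z_O`. Let `q ⊆ m`, `B = S / q`, `C` = localisation of `B` at `m / q`, `A` the integral closure of `C` in `K`. `Sit C A K`: S_FINL; the primes of `C` correspond to the primes of `S` between `q` and `m`; dimensions `n + 2 > .. > n`: so a prime strictly between has dimension `n + 1` (S_DIM1), a nonzero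
prime `P < P'` gives `P' = max`. The map `z ↦ z C` is a bijection from the primes `z` of dimension `n + 1` with `q ⊆ z ⊆ m` to `HH C`; `len (q ⊔ x) z = len (x) (z C)` in the ring `C` (S_LENA for `S → B`, S_LENB for `B → C`), and `len (z ⊔ t) m` is the length of `C / (z C + t)` over `C` (the same, and the localisation of the local ring `C` at its maximal ideal is `C`). So the left side is the left side of S_REC for `a = x`,
`u = t`. (Terms of `Z` with `x ∉ z` or `q ⊄ z` or `z ⊄ m` are zero.) The right side: `p ↦ A_p` (S_VC1) is a bijection from `{p ∈ HH A | t ∈ p}` to `W`: `A_p ⊇ θ(S)`, its centre on `S` is the preimage of `p` (S_VC2), strictly between `q` and `m` (S_HHA (2)), so of dimension `n + 1`. Conversely for `O ∈ W`: elements of `S ∖ m` are not in `z_O`, so units in `O`, so `C ⊆ O`, and `A ⊆ O` since `O` is integrally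
closed; `p = m_O ∩ A` contracts to `z_O C ∈ HH C`, so `p ∈ HH A` (not zero, not maximal), and `O = A_p` by S_VC2. For `O ∈ W`, `O = A_p`, let `w` be the tame symbol given with `g O`: a unit of `A_p`, so `w = X / Y` with `X, Y ∈ A ∖ p`; the norm (multiplicative) of `w` is `b / c`; the norms of `X`, `Y` are `b₁ / c₁`, `b₂ / c₂` with `b_i, c_i ∈ C ∖ z_O C` (elements of `F^*`), `b₁ c₂ c = ± b b₂ c₁`: exactly `b₁ c₂ c ≡ b b₂ c₁`
mod `z_O C`; S_NM gives `lC (A / (p + X)) - lC (A / (p + Y)) = lC (C / (z + b)) - lC (C / (z + c))` by additivity of lengths in `C / z_O C` (the subfields generated by the images of `S` and of `C` in the residue field agree). So the right side is the right side of S_REC. -/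
def S_GREC : Prop := ∀ (k S K : Type) [Field k] [PerfectField k] [CommRing S] [Algebra k S]
  [Algebra.FiniteType k S] [Field K] [Algebra k K] (n : ℕ) (θ : S →ₐ[k] K)
  (q : RP k S (n + 1 + 1)) (m : RP k S n) (t x : S),
  (∀ y : K, ∃ a b : S, θ b ≠ 0 ∧ y * θ b = θ a) → q.1.asIdeal = RingHom.ker θ.toRingHom →
  t ∈ m.1.asIdeal → t ∉ q.1.asIdeal → x ∉ q.1.asIdeal →
  ∀ (Z : Finset (RP k S (n + 1))) (W : Finset (ValuationSubring K))
    (g : ValuationSubring K → ℤ),
  (∀ z ∈ Z, t ∉ z.1.asIdeal) →
  (∀ z : RP k S (n + 1), x ∈ z.1.asIdeal → q.1.asIdeal ≤ z.1.asIdeal →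
    z.1.asIdeal ≤ m.1.asIdeal → t ∉ z.1.asIdeal → z ∈ Z) →
  (∀ O : ValuationSubring K, O ∈ W ↔ ∃ (h : ∀ s, θ s ∈ O) (z : RP k S (n + 1)),
    z.1.asIdeal = RingHom.ker (rhoO θ O h) ∧ t ∈ z.1.asIdeal ∧ z.1.asIdeal ≤ m.1.asIdeal) →
  (∀ O ∈ W, ∀ (h : ∀ s, θ s ∈ O), ∃ (w : O) (b c : S),
    IsTame O (θ x) (θ t) (w : K) ∧ IsNm (rhoO θ O h) (IsLocalRing.residue O w) b c ∧
    g O = (len (RingHom.ker (rhoO θ O h) ⊔ Ideal.span {b}) m.1 : ℤ) -
      len (RingHom.ker (rhoO θ O h) ⊔ Ideal.span {c}) m.1) →
  ∑ z ∈ Z, (len (q.1.asIdeal ⊔ Ideal.span {x}) z.1 : ℤ) *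
    len (z.1.asIdeal ⊔ Ideal.span {t}) m.1 = ∑ O ∈ W, g O

def M_GREC : Prop := S_DIM1 → S_LENA → S_LENB → S_HHA → S_VC1 → S_VC2 → S_REC → S_NM → S_FINL →
  S_GREC

/-- GTD. Existence of the tame symbol and its norm. Let `O ⊇ θ(S)` be a valuation ring of `K` whose centre `z` has dimension `n + 1` (`dim K = n + 2`). `B = S / q`, `A` the integral closure of `B` in `K`, finite over `B` (S_FIN) and Noetherian; `A ⊆ O`; `p = m_O ∩ A` lies over `z / q`; it has height one: a prime strictly between `0` and `p` contracts to a prime of `S` strictly between `q` and `z` (integral extension), impossible by dimensions (S_DIM1). So `O = A_p`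
(S_VC2), a discrete valuation ring (S_VC1). (1) There are finitely many such `O` for given `z` (the primes of `A` over `z`, `A` finite over `B`: finite fibres, `Algebra.QuasiFinite` or similar). (2) For `a, u ∈ K^*` a tame symbol `w`, a unit of `O`, exists (S_VC1). (3) For a unit `w` of `O` there are `b, c ∈ S ∖ z` with `IsNm`: the norm of a nonzero element `w` is a nonzero element of `F = Subfield.closure (range ρ)`
(`κ(O)` is finite over `F`; even if not, the norm is `1`), and every element of `F` is a quotient of elements of the image of `S` (`Subfield.mem_closure_iff` or similar). -/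
def S_GTD : Prop := ∀ (k S K : Type) [Field k] [PerfectField k] [CommRing S] [Algebra k S]
  [Algebra.FiniteType k S] [Field K] [Algebra k K] (n : ℕ) (θ : S →ₐ[k] K)
  (q : RP k S (n + 1 + 1)) (z : RP k S (n + 1)),
  (∀ y : K, ∃ a b : S, θ b ≠ 0 ∧ y * θ b = θ a) → q.1.asIdeal = RingHom.ker θ.toRingHom →
  {O : ValuationSubring K | ∃ h : ∀ s, θ s ∈ O, z.1.asIdeal = RingHom.ker (rhoO θ O h)}.Finite ∧
  ∀ (O : ValuationSubring K) (h : ∀ s, θ s ∈ O), z.1.asIdeal = RingHom.ker (rhoO θ O h) →
    ∀ a u : K, a ≠ 0 → u ≠ 0 → ∃ (w : O) (b c : S), IsTame O a u (w : K) ∧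
      IsNm (rhoO θ O h) (IsLocalRing.residue O w) b c

def M_GTD : Prop := S_DIM1 → S_FIN → S_VC1 → S_VC2 → S_GTD

/-! ## 8. The main theorem -/

/-- TDU. The relation `IsTD θ O a u d` of `Defs3`. (1) `IsTD` determines `d`: `i, j` in `IsTame` are unique (if `α π^i = α' π'^i'` with units `α, α'` and uniformisers `π, π'` then `i = i'`: `π' / π` is a unit), so `w` is; the norm `b / c` is determined, so `b c' - b' c ∈ T`, and `div b + div c' = div b' + div c` on `V(T)` by S_LENC (additivity; `len (T ⊔ (b c')) = len (T ⊔ (b' c))` since the ideals agree). (2) `IsTD θ O a u d` and `u' / u = 1 + ε`,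
`ε` zero or a nonunit of `O` (so in the maximal ideal): `u'` has the same valuation `j` as `u`, and `w' = a^j u'^(-i) = w (1 + ε)^(-i)` has the same residue class as `w`. (3) `IsTD θ O a u d` implies `d ∈ ratOn I` for `I ⊆ T = ker`; (the hypothesis on `I` says that every `r ∈ I` maps to zero or to a nonunit of `O`, that is to zero in the residue field). -/
def S_TDU : Prop := ∀ (k R K E : Type) [Field k] [CommRing R] [Algebra k R]
  [Algebra.FiniteType k R] [Field K] [Algebra k K] [Field E] (n : ℕ) (θ : R →ₐ[k] K)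
  (O : ValuationSubring K) (a u : K) (d : RP k R n →₀ E), IsTD E θ O a u d →
  (∀ d' : RP k R n →₀ E, IsTD E θ O a u d' → d = d') ∧
  (∀ u' : K, u ≠ 0 → u' ≠ 0 → (u' / u - 1 = 0 ∨ (u' / u - 1)⁻¹ ∉ O) → IsTD E θ O a u' d) ∧
  (∀ I : Ideal R, (∀ r ∈ I, θ r = 0 ∨ (θ r)⁻¹ ∉ O) → d ∈ ratOn k E n I)

def M_TDU : Prop := S_LENC → S_TDU

/-- TDF. The main formula. `s ≠ 0`, `u = s⁻¹`; `q' = infI q = ker (evs θ u)` (S_INFA (5)), a prime of `S = R[X]` of dimension `n + 2`, `X ∉ q'` (S_INFD, S_INFA). `N = natDegree P`, `P' = reflect N P`; `evs θ u P' = u^N (evs θ s P)`. (1) `VV n θ s` is finite: for `O ∈ VV n θ s` with centre `T` on `R`: `u ∈ O` is a nonunit, so `evs θ u` maps `R[X]` to `O`, and the centre `z` of `O` on `R[X]` is the set of polynomials whose constant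
coefficient is in `T`, that is `comap (evalRingHom 0) T`; its dimension is `n + 1` (`rdim_comap`), it contains `q'` and `X`, so `z` is one of finitely many primes (S_DVX for the divisor of `X` on `V(q')`, S_LENC (3)); for each there are finitely many `O` (S_GTD (1) for `S = R[X]`). (2) `p` a prime of `R` of dimension `n`; `m = comap (evalRingHom 0) p`. By definition `d p = ∑_z c(z) bet z p`. Terms with `X ∈ z` are zero. `z ↦ z' = infI z` is a bijection
from the primes `z` with `dim = n + 1`, `X ∉ z` to themselves, `q ⊆ z` iff `q' ⊆ z'` (S_INFA (1), (3), S_INFD), and by S_INFL `c(z) = len (q ⊔ P) z = len (q' ⊔ P') z'` if `q ⊆ z`, and both are zero otherwise. So `d p = ∑_(z' , X ∉ z') len (q' ⊔ P') z' * len (z' ⊔ X) m`, and `P' ∈ z'` if the first factor is not zero. (3) For `O ∈ VV n θ s` let `D O` be such that `IsTD θ O (evs θ s P) u (D O)` (hypothesis of this statement). S_GREC for `S = R[X]`,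
`evs θ u`, `q'`, `m`, `t = X`, `x = P'`, `W` = those `O ∈ VV n θ s` whose centre `T` is contained in `p` (then the centre on `R[X]` is in `m`; conversely if `O` is in the set `W` of S_GREC then `X ∈ z`, so `u` is a nonunit, `s ∉ O`, and the centre `z` is `comap (evalRingHom 0) T`, `T = z ∩ R` with `dim T = dim z`), `g O = (D O) p`. To verify the last hypothesis of S_GREC: `D O = div b - div c` on `V(T)`, where `b / c` is the norm of the tame symbol `w` of `evs θ s P` and `u`, and `w`
is also the tame symbol of `evs θ u P' = u^N evs θ s P` and `u` (`(u^N a)^j u^(-(i + N j)) = a^j u^(-i)`); `b, c ∈ R` considered as constants `C b, C c` in `R[X]` (the subfields of the residue field generated by the images of `R` and of `R[X]` agree since `X ↦ 0`), `len (z ⊔ C b) m = len (T ⊔ b) p` by S_LENA for `evalRingHom 0`. (4) For `O ∈ VV n θ s` with `T ⊄ p`: `(D O) p = 0` (S_LENC (2)). So `d p = ∑_O (D O) p`. The numbers are integers mapped to `E`. -/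
def S_TDF : Prop := ∀ (k R K E : Type) [Field k] [PerfectField k] [CommRing R] [Algebra k R]
  [Algebra.FiniteType k R] [Field K] [Algebra k K] [Field E] (n : ℕ) (θ : R →ₐ[k] K) (s : K)
  (P : R[X]) (q : RP k R[X] (n + 1 + 1)) (c : RP k R[X] (n + 1) →₀ E) (d : RP k R n →₀ E),
  s ≠ 0 → (∀ x : K, ∃ A B : R[X], evs θ s B ≠ 0 ∧ x * evs θ s B = evs θ s A) →
  q.1.asIdeal = RingHom.ker (evs θ s).toRingHom → P ∉ q.1.asIdeal → IsDv k E q.1 P c →
  IsBeta k E c d →
  ∃ h : (VV n θ s).Finite, ∀ D : ValuationSubring K → (RP k R n →₀ E),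
    (∀ O ∈ VV n θ s, IsTD E θ O (evs θ s P) s⁻¹ (D O)) → d = ∑ O ∈ h.toFinset, D O

def M_TDF : Prop := S_DIM1 → S_LENA → S_LENC → S_DVX → S_INFA → S_INFD → S_INFL → S_GREC → S_GTD →
  S_TDF

/-- TDE. Existence of `IsTD` for `O ∈ VV n θ s`: as in the proof of S_TDF (1) the centre of `O` on `R[X]` (for `evs θ s⁻¹`) is `comap (evalRingHom 0) T`, of dimension `n + 1`; S_GTD (2) gives `w` and `b', c' ∈ R[X]`; take `b, c ∈ R` their constant coefficients (`X ↦ 0` in the residue field; the same subfield). The divisors exist by S_DVX. -/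
def S_TDE : Prop := ∀ (k R K E : Type) [Field k] [PerfectField k] [CommRing R] [Algebra k R]
  [Algebra.FiniteType k R] [Field K] [Algebra k K] [Field E] (n : ℕ) (θ : R →ₐ[k] K) (s : K)
  (q : RP k R[X] (n + 1 + 1)),
  s ≠ 0 → (∀ x : K, ∃ A B : R[X], evs θ s B ≠ 0 ∧ x * evs θ s B = evs θ s A) →
  q.1.asIdeal = RingHom.ker (evs θ s).toRingHom → ∀ O ∈ VV n θ s, ∀ a : K, a ≠ 0 →
  ∃ d : RP k R n →₀ E, IsTD E θ O a s⁻¹ d

def M_TDE : Prop := S_DIM1 → S_DVX → S_INFA → S_INFD → S_GTD → S_TDE

/-- R. Proof of S_R: `D O a u` is the cycle `d` with `IsTD θ O a u d` if there is one (unique by S_TDU) and `0` otherwise. The first two properties: S_TDU (for the second: the relation is symmetric in `u`, `u'`: if `u' / u = 1 + ε` then `u / u' = 1 - ε / (1 + ε)`; so `IsTD .. u d` iff `IsTD .. u' d`). The third: if `s ≠ 0` use S_TDE and S_TDF. If `s = 0`: `VV n θ 0` is empty (`0 ∈ O`), and `d = 0`: `X ∈ q`, so `c z ≠ 0` implies `X ∈ q ⊆ z`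
(S_LENC (2)), `infI z = ⊤` (S_INFA (2)), and `bet z p = 0`. -/
def M_R : Prop := S_LENC → S_INFA → S_TDU → S_TDF → S_TDE → S_R

end CUB


end

section

/-!
# CUB: DISJ, the exchange formula for two elements without common primes of height one
-/

set_option autoImplicit false

namespace CUB

namespace DISJ

lemma length_max {C A : Type} [CommRing C] [IsNoetherianRing C] [CommRing A] [Algebra C A]
    [Module.Finite C A] (P : Ideal A) (hP : P.IsMaximal) : Module.length C (A ⧸ P) ≠ ⊤ := by
  haveI := hP
  haveI h1 : (P.under C).IsMaximal := Ideal.isMaximal_comap_of_isIntegral_of_isMaximal P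
  haveI : P.LiesOver (P.under C) := Ideal.over_under P
  letI : Field (C ⧸ P.under C) := Ideal.Quotient.field _
  haveI : Module.Finite (C ⧸ P.under C) (A ⧸ P) :=
    Module.Finite.of_restrictScalars_finite C _ _
  rw [Module.length_eq_of_surjective (S := C) (R := C ⧸ P.under C) (M := A ⧸ P)
    Ideal.Quotient.mk_surjective]
  exact Module.length_ne_top

lemma len_eq {A : Type} [CommRing A] (I : Ideal A) (p : PrimeSpectrum A) :
    lC (Localization.AtPrime p.asIdeal) (LocalizedModule p.asIdeal.primeCompl (A ⧸ I)) =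
      len I p := by
  unfold lC len
  congr 1
  have e1 := IsLocalizedModule.linearEquiv p.asIdeal.primeCompl
    (LocalizedModule.mkLinearMap p.asIdeal.primeCompl (A ⧸ I))
    (I.toLocalizedQuotient' (Localization.AtPrime p.asIdeal) p.asIdeal.primeCompl
      (Algebra.linearMap A (Localization.AtPrime p.asIdeal)))
  have e2 := e1.extendScalarsOfIsLocalization p.asIdeal.primeCompl
    (Localization.AtPrime p.asIdeal)
  rw [e2.length_eq, Ideal.localized'_eq_map]

lemma quot_eq {C A : Type} [CommRing C] [CommRing A] [Algebra C A] (x y : A) :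
    lC C ((A ⧸ Ideal.span {x}) ⧸ LinearMap.range (LinearMap.lsmul A (A ⧸ Ideal.span {x}) y)) =
      lC C (A ⧸ (Ideal.span {x} ⊔ Ideal.span {y})) := by
  have h : LinearMap.range (LinearMap.lsmul A (A ⧸ Ideal.span {x}) y) =
      Submodule.map (Submodule.mkQ (Ideal.span {x})) (Ideal.span {y}) := by
    ext z
    constructor
    · rintro ⟨w, rfl⟩
      obtain ⟨a, rfl⟩ := Submodule.Quotient.mk_surjective _ w
      exact ⟨y * a, Ideal.mul_mem_right _ _ (Ideal.mem_span_singleton_self y), rfl⟩
    · rintro ⟨w, hw, rfl⟩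
      obtain ⟨a, rfl⟩ := Ideal.mem_span_singleton'.1 hw
      exact ⟨(Ideal.span {x}).mkQ a, by rw [mul_comm a y]; rfl⟩
  unfold lC
  congr 1
  rw [h]
  exact ((Submodule.quotientQuotientEquivQuotientSup (Ideal.span {x})
    (Ideal.span {y})).restrictScalars C).length_eq

lemma half (hDEV : S_DEV) {C A : Type} [CommRing C] [IsNoetherianRing C] [CommRing A]
    [IsNoetherianRing A] [Algebra C A] [Module.Finite C A]
    (h3 : ∀ p ∈ HH A, ∀ p' : Ideal A, p'.IsPrime → p' < p.asIdeal → p' = ⊥)
    (h5 : ∀ p ∈ HH A, ∀ x, x ∉ p.asIdeal →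
      Module.length C (A ⧸ (p.asIdeal ⊔ Ideal.span {x})) ≠ ⊤) (x y : A) (hx : x ≠ 0)
    (h4 : {p | p ∈ HH A ∧ x ∈ p.asIdeal}.Finite)
    (hxy : ∀ p ∈ HH A, x ∈ p.asIdeal → y ∉ p.asIdeal) (W : Finset (PrimeSpectrum A))
    (hW : ∀ p ∈ W, p ∈ HH A) (hW2 : ∀ p ∈ HH A, x ∈ p.asIdeal → p ∈ W) :
    lC C (A ⧸ (Ideal.span {x} ⊔ Ideal.span {y})) =
      lC C (LinearMap.ker (LinearMap.lsmul A (A ⧸ Ideal.span {x}) y)) +
      ∑ p ∈ W, len (Ideal.span {x}) p * lC C (A ⧸ (p.asIdeal ⊔ Ideal.span {y})) := by
  classical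
  have hS : ∀ p, p ∈ h4.toFinset ↔ p ∈ HH A ∧ x ∈ p.asIdeal := by
    intro p
    rw [Set.Finite.mem_toFinset]
    rfl
  obtain ⟨_, _, _, h⟩ := hDEV C A y h4.toFinset
    (fun P hP => ⟨hxy P ((hS P).1 hP).1 ((hS P).1 hP).2,
      h5 P ((hS P).1 hP).1 y (hxy P ((hS P).1 hP).1 ((hS P).1 hP).2)⟩)
    (fun P hP P' hP' hle => by
      rcases hle.lt_or_eq with hlt | he
      · exact absurd (h3 P' ((hS P').1 hP').1 P.asIdeal P.isPrime hlt) ((hS P).1 hP).1.1
      · exact PrimeSpectrum.ext he)
    (A ⧸ Ideal.span {x}) (by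
      intro P hP
      have hxP : x ∈ P.asIdeal := by
        by_contra hcon
        rw [Module.mem_support_iff_exists_annihilator] at hP
        obtain ⟨m, hm⟩ := hP
        apply hcon
        apply hm
        rw [Submodule.mem_annihilator_span_singleton]
        obtain ⟨a, rfl⟩ := Submodule.Quotient.mk_surjective _ m
        rw [← Submodule.Quotient.mk_smul, Submodule.Quotient.mk_eq_zero]
        exact Ideal.mul_mem_right _ _ (Ideal.mem_span_singleton_self x)
      by_cases hPH : P ∈ HH A
      · exact Or.inl ((hS P).2 ⟨hPH, hxP⟩)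
      · right
        have hb : P.asIdeal ≠ ⊥ := by
          intro hb
          rw [hb] at hxP
          exact hx ((Ideal.mem_bot).1 hxP)
        have hmax : P.asIdeal.IsMaximal := by
          by_contra hcon
          exact hPH ⟨hb, hcon⟩
        refine ⟨fun P' hP' hle => ?_, length_max P.asIdeal hmax⟩
        have := hmax.eq_of_le P'.isPrime.ne_top hle
        exact ((hS P').1 hP').1.2 (this ▸ hmax))
  rw [quot_eq] at h
  rw [h]
  congr 1
  have hsub : h4.toFinset ⊆ W := fun p hp => hW2 p ((hS p).1 hp).1 ((hS p).1 hp).2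
  rw [← Finset.sum_subset hsub]
  · refine Finset.sum_congr rfl fun p _ => ?_
    rw [len_eq]
  · intro p hp hp2
    have hxp : x ∉ p.asIdeal := fun hc => hp2 ((hS p).2 ⟨hW p hp, hc⟩)
    have h0 : len (Ideal.span {x}) p = 0 := by
      have htop : (Ideal.span {x}).map (algebraMap A (Localization.AtPrime p.asIdeal)) = ⊤ := by
        rw [Ideal.eq_top_iff_one]
        have hu : IsUnit (algebraMap A (Localization.AtPrime p.asIdeal) x) :=
          IsLocalization.map_units (Localization.AtPrime p.asIdeal)
            (⟨x, hxp⟩ : p.asIdeal.primeCompl)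
        exact (Ideal.eq_top_of_isUnit_mem _
          (Ideal.mem_map_of_mem _ (Ideal.mem_span_singleton_self x)) hu) ▸ Submodule.mem_top
      unfold len
      haveI : Subsingleton (Localization.AtPrime p.asIdeal ⧸
          (Ideal.span {x}).map (algebraMap A (Localization.AtPrime p.asIdeal))) :=
        Ideal.Quotient.subsingleton_iff.2 htop
      rw [Module.length_eq_zero]
      rfl
    rw [h0, zero_mul]

end DISJ

open _root_.CUB.DISJ in
theorem t_DISJ : M_DISJ := by
  intro hDEV hKOS hHHA C A K _ _ _ _ _ _ _ _ _ _ _ hSit x y hx hy hxy W hW hW2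
  obtain ⟨hN, _, h3, h4, h5, _⟩ := hHHA C A K hSit
  haveI := hN
  haveI := hSit.fin
  have e1 := half hDEV (C := C) h3 h5 x y hx (h4 x hx) hxy W hW
    (fun p hp h => hW2 p hp (Or.inl h))
  have e2 := half hDEV (C := C) h3 h5 y x hy (h4 y hy) (fun p hp h1 h2 => hxy p hp h2 h1) W hW
    (fun p hp h => hW2 p hp (Or.inr h))
  have e3 : lC C (LinearMap.ker (LinearMap.lsmul A (A ⧸ Ideal.span {x}) y)) =
      lC C (LinearMap.ker (LinearMap.lsmul A (A ⧸ Ideal.span {y}) x)) := by
    unfold lC
    rw [hKOS C A x y hx hy]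
  rw [sup_comm, e1, e3] at e2
  exact Nat.add_left_cancel e2

end CUB


end

section

/-!
# Module FIN: finiteness of the integral closure over a perfect field
-/

namespace CUB

open scoped nonZeroDivisors

namespace FIN

/-- a ring homomorphism which becomes finite after an injective homomorphism is finite
(Noetherian source) -/
theorem fin_of_comp {P A S : Type} [CommRing P] [IsNoetherianRing P] [CommRing A] [CommRing S]
    (i : P →+* A) (ψ : A →+* S) (hinj : Function.Injective ψ) (h : (ψ.comp i).Finite) :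
    i.Finite := by
  let := i.toAlgebra
  let := (ψ.comp i).toAlgebra
  have hf : Module.Finite P S := h
  let L : A →ₐ[P] S := { ψ with commutes' := fun _ => rfl }
  have : Module.Finite P A := Module.Finite.of_injective L.toLinearMap hinj
  exact this

/-- the iterated Frobenius of a polynomial ring over a perfect field is finite -/
theorem frob_finite (k σ : Type) [Field k] [PerfectField k] [Finite σ] (p n : ℕ) [ExpChar k p]
    [ExpChar (MvPolynomial σ k) p] :
    (iterateFrobenius (MvPolynomial σ k) p n).Finite := by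
  refine RingHom.IsIntegral.to_finite ?_ ?_
  · intro y
    have hp : p ^ n ≠ 0 := (expChar_pow_pos k p n).ne'
    refine ⟨Polynomial.X ^ (p ^ n) - Polynomial.C y, Polynomial.monic_X_pow_sub_C _ hp, ?_⟩
    simp [iterateFrobenius_def]
  · have h1 : ((iterateFrobenius (MvPolynomial σ k) p n).comp (algebraMap k (MvPolynomial σ k))).FiniteType := by
      have h2 : (iterateFrobenius (MvPolynomial σ k) p n).comp (algebraMap k (MvPolynomial σ k)) =
          (algebraMap k (MvPolynomial σ k)).comp (iterateFrobenius k p n) := by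
        ext x
        simp [iterateFrobenius_def]
      rw [h2]
      refine RingHom.FiniteType.comp ?_ (RingHom.FiniteType.of_surjective _ ?_)
      · exact RingHom.finiteType_algebraMap.mpr inferInstance
      · exact (iterateFrobeniusEquiv k p n).surjective
    exact h1.of_comp_finiteType

/-- the integral closure in a finite extension of the fraction field -/
theorem core (P F K : Type) [CommRing P] [IsDomain P] [IsIntegrallyClosed P] [IsNoetherianRing P]
    [Field F] [Algebra P F] [IsFractionRing P F] [Field K] [Algebra F K] [Algebra P K]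
    [IsScalarTower P F K] [FiniteDimensional F K] (p : ℕ) [ExpChar P p] [ExpChar F p]
    (hfin : ∀ n, (iterateFrobenius P p n).Finite) : Module.Finite P (integralClosure P K) := by
  let S := separableClosure F K
  have : FiniteDimensional S K := IntermediateField.finiteDimensional_right S
  have : FiniteDimensional F S := IntermediateField.finiteDimensional_left S
  have : ExpChar S p := expChar_of_injective_algebraMap (algebraMap F S).injective p
  have : IsScalarTower P S K := IsScalarTower.of_algebraMap_eq fun x => by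
    rw [IsScalarTower.algebraMap_apply P F K, IsScalarTower.algebraMap_apply P F S,
      ← IsScalarTower.algebraMap_apply F S K]
  set n := IsPurelyInseparable.exponent S K with hn
  let φ : K →+* S := IsPurelyInseparable.iterateFrobenius S K p (n := n) le_rfl
  have hφ : ∀ a, algebraMap S K (φ a) = a ^ p ^ n := fun a =>
    IsPurelyInseparable.algebraMap_iterateFrobenius S p le_rfl a
  have hPS : Module.Finite P (integralClosure P S) := IsIntegralClosure.finite P F S _
  have hint : ∀ a : integralClosure P K, φ a ∈ integralClosure P S := by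
    intro a
    have h1 : IsIntegral P (algebraMap S K (φ a)) := by
      rw [hφ]
      exact IsIntegral.pow a.2 _
    exact (isIntegral_algebraMap_iff (algebraMap S K).injective).mp h1
  let ψ : integralClosure P K →+* integralClosure P S :=
    RingHom.codRestrict (φ.comp (algebraMap (integralClosure P K) K)) (integralClosure P S).toSubring hint
  have hψ : Function.Injective ψ := by
    intro a b h
    have h1 : φ a = φ b := congrArg Subtype.val h
    exact Subtype.ext (φ.injective h1)
  have hcomm : ψ.comp (algebraMap P (integralClosure P K)) =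
      (algebraMap P (integralClosure P S)).comp (iterateFrobenius P p n) := by
    refine RingHom.ext fun c => Subtype.ext ((algebraMap S K).injective ?_)
    change algebraMap S K (φ (algebraMap P K c)) = algebraMap S K (algebraMap P S (c ^ p ^ n))
    rw [hφ, map_pow, map_pow, ← IsScalarTower.algebraMap_apply P S K]
  have h3 : (algebraMap P (integralClosure P K)).Finite := by
    refine fin_of_comp _ ψ hψ ?_
    rw [hcomm]
    exact (RingHom.finite_algebraMap.mpr hPS).comp (hfin n)
  exact RingHom.finite_algebraMap.mp h3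

end FIN

open _root_.CUB.FIN in
/-- the integral closure of a domain of finite type over a perfect field is finite -/
theorem t_FIN : S_FIN := by
  intro k B K _ _ _ _ _ _ _ _ _
  obtain ⟨s, g, hg, hgf⟩ := exists_finite_inj_algHom_of_fg k B
  let P := MvPolynomial (Fin s) k
  let : Algebra P B := g.toRingHom.toAlgebra
  let : Algebra P K := ((algebraMap B K).comp (algebraMap P B)).toAlgebra
  have : IsScalarTower P B K := IsScalarTower.of_algebraMap_eq fun _ => rfl
  have : Module.Finite P B := hgf
  have hinjK : Function.Injective (algebraMap P K) :=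
    (IsFractionRing.injective B K).comp hg
  have : FaithfulSMul P K := (faithfulSMul_iff_algebraMap_injective P K).mpr hinjK
  have : FaithfulSMul P B := (faithfulSMul_iff_algebraMap_injective P B).mpr hg
  let : Algebra (FractionRing P) K := FractionRing.liftAlgebra P K
  have : IsScalarTower P (FractionRing P) K := FractionRing.isScalarTower_liftAlgebra P K
  have : Algebra.IsAlgebraic P B := inferInstance
  have : IsLocalization (Algebra.algebraMapSubmonoid B P⁰) K := by
    infer_instance
  have : FiniteDimensional (FractionRing P) K := .of_isLocalization P B P⁰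
  obtain ⟨p, hp⟩ := ExpChar.exists k
  have : ExpChar P p := expChar_of_injective_algebraMap (algebraMap k P).injective p
  have : ExpChar (FractionRing P) p :=
    expChar_of_injective_algebraMap (IsFractionRing.injective P (FractionRing P)) p
  have h1 : Module.Finite P (integralClosure P K) :=
    core P (FractionRing P) K p fun n => frob_finite k (Fin s) p n
  have h2 : ∀ x : integralClosure B K, IsIntegral P (x : K) := fun x =>
    isIntegral_trans (R := P) (A := B) (x : K) x.2
  let L : integralClosure B K →ₗ[P] integralClosure P K :=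
    { toFun := fun x => ⟨x.1, h2 x⟩
      map_add' := fun _ _ => rfl
      map_smul' := fun c x => by
        apply Subtype.ext
        rfl }
  have : Module.Finite P (integralClosure B K) := by
    refine Module.Finite.of_injective L ?_
    intro a b h
    have h3 : (L a : K) = L b := by rw [h]
    exact Subtype.ext h3
  exact Module.Finite.of_restrictScalars_finite P B (integralClosure B K)

end CUB


end

section

/-!
# CUB, module FINL: finiteness of the normalisation, localised
-/

set_option autoImplicit false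

namespace CUB

theorem t_FINL : M_FINL := by
  intro hF k B C K _ _ _ _ _ _ _ _ _ _ _ _ _ m _ _
  have h1 : Module.Finite B (integralClosure B K) := hF k B K
  have h2 : (Subalgebra.toSubmodule (integralClosure B K)).FG := Module.Finite.iff_fg.mp h1
  obtain ⟨G, hG⟩ := h2
  have h3 : Submodule.span C (G : Set K) = Subalgebra.toSubmodule (integralClosure C K) := by
    apply le_antisymm
    · rw [Submodule.span_le]
      intro g hg
      have h4 : g ∈ Submodule.span B (G : Set K) := Submodule.subset_span hg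
      rw [hG] at h4
      have h5 : IsIntegral B g := h4
      exact h5.tower_top
    · intro x hx
      have h4 : IsIntegral C x := hx
      obtain ⟨s, hs⟩ := IsIntegral.exists_multiple_integral_of_isLocalization m.primeCompl x h4
      have h5 : (s • x) ∈ Submodule.span B (G : Set K) := by
        rw [hG]
        exact hs
      have h6 : (s • x) ∈ Submodule.span C (G : Set K) :=
        Submodule.span_le_restrictScalars B C (G : Set K) h5
      obtain ⟨u, hu⟩ := IsLocalization.map_units C s
      have h7 : x = (↑u⁻¹ : C) • (s • x) := by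
        have h8 : s • x = (u : C) • x := by
          rw [hu, algebraMap_smul]
          rfl
        rw [h8, smul_smul, Units.inv_mul, one_smul]
      rw [h7]
      exact Submodule.smul_mem _ _ h6
  have h4 : (Subalgebra.toSubmodule (integralClosure C K)).FG := ⟨G, h3⟩
  exact Module.Finite.iff_fg.mpr h4

end CUB


end

section

/-!
# Module KOS: the kernels of multiplication on `A / x` and on `A / y`
-/

set_option autoImplicit false

namespace CUB

namespace KOS

variable {A : Type} [CommRing A]

/-- the pairs `(a, b)` with `y a = x b` -/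
def N (x y : A) : Submodule A (A × A) where
  carrier := {p | y * p.1 = x * p.2}
  add_mem' := by
    intro p q hp hq
    simp only [Set.mem_ofPred_eq, Prod.fst_add, Prod.snd_add] at hp hq ⊢
    rw [mul_add, mul_add, hp, hq]
  zero_mem' := by simp
  smul_mem' := by
    intro c p hp
    simp only [Set.mem_ofPred_eq, Prod.smul_fst, Prod.smul_snd, smul_eq_mul] at hp ⊢
    rw [mul_left_comm, hp, mul_left_comm]

theorem mem_N {x y : A} {p : A × A} : p ∈ N x y ↔ y * p.1 = x * p.2 := Iff.rfl

theorem mk_mem {x y a b : A} (h : y * a = x * b) :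
    Algebra.linearMap A (A ⧸ Ideal.span {x}) a ∈
      LinearMap.ker (LinearMap.lsmul A (A ⧸ Ideal.span {x}) y) := by
  rw [LinearMap.mem_ker, LinearMap.lsmul_apply, ← map_smul, smul_eq_mul, h,
    Algebra.linearMap_apply, Ideal.Quotient.algebraMap_eq, Ideal.Quotient.eq_zero_iff_mem]
  exact Ideal.mul_mem_right _ _ (Ideal.mem_span_singleton_self x)

theorem mk_eq_zero {x a : A} :
    Algebra.linearMap A (A ⧸ Ideal.span {x}) a = 0 ↔ ∃ c, a = x * c := by
  rw [Algebra.linearMap_apply, Ideal.Quotient.algebraMap_eq, Ideal.Quotient.eq_zero_iff_mem,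
    Ideal.mem_span_singleton]
  rfl

/-- the first projection -/
def f (x y : A) : N x y →ₗ[A] LinearMap.ker (LinearMap.lsmul A (A ⧸ Ideal.span {x}) y) :=
  LinearMap.codRestrict _ ((Algebra.linearMap A (A ⧸ Ideal.span {x})).comp
    ((LinearMap.fst A A A).comp (N x y).subtype)) fun p => mk_mem (mem_N.1 p.2)

/-- the second projection -/
def g (x y : A) : N x y →ₗ[A] LinearMap.ker (LinearMap.lsmul A (A ⧸ Ideal.span {y}) x) :=
  LinearMap.codRestrict _ ((Algebra.linearMap A (A ⧸ Ideal.span {y})).comp
    ((LinearMap.snd A A A).comp (N x y).subtype)) fun p => mk_mem (mem_N.1 p.2).symm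

theorem exists_rep {x y : A} (z : LinearMap.ker (LinearMap.lsmul A (A ⧸ Ideal.span {x}) y)) :
    ∃ a b : A, y * a = x * b ∧ Algebra.linearMap A (A ⧸ Ideal.span {x}) a = z.1 := by
  obtain ⟨z, hz⟩ := z
  obtain ⟨a, rfl⟩ := Ideal.Quotient.mk_surjective z
  rw [LinearMap.mem_ker, LinearMap.lsmul_apply] at hz
  have h1 : Algebra.linearMap A (A ⧸ Ideal.span {x}) (y * a) = 0 := by
    rw [← smul_eq_mul, map_smul]
    exact hz
  obtain ⟨b, hb⟩ := mk_eq_zero.1 h1
  exact ⟨a, b, hb, rfl⟩

theorem f_surj (x y : A) : Function.Surjective (f x y) := by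
  intro z
  obtain ⟨a, b, hab, ha⟩ := exists_rep z
  exact ⟨⟨(a, b), hab⟩, Subtype.ext ha⟩

theorem g_surj (x y : A) : Function.Surjective (g x y) := by
  intro z
  obtain ⟨b, a, hab, hb⟩ := exists_rep z
  exact ⟨⟨(a, b), hab.symm⟩, Subtype.ext hb⟩

theorem ker_eq [IsDomain A] {x y : A} (hx : x ≠ 0) (hy : y ≠ 0) :
    LinearMap.ker (f x y) = LinearMap.ker (g x y) := by
  ext ⟨⟨a, b⟩, hab⟩
  have hab' : y * a = x * b := hab
  have h1 : (⟨(a, b), hab⟩ : N x y) ∈ LinearMap.ker (f x y) ↔ ∃ c, a = x * c := by
    rw [LinearMap.mem_ker, ← mk_eq_zero, ← Subtype.coe_inj]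
    rfl
  have h2 : (⟨(a, b), hab⟩ : N x y) ∈ LinearMap.ker (g x y) ↔ ∃ c, b = y * c := by
    rw [LinearMap.mem_ker, ← mk_eq_zero, ← Subtype.coe_inj]
    rfl
  rw [h1, h2]
  constructor
  · rintro ⟨c, rfl⟩
    refine ⟨c, mul_left_cancel₀ hx ?_⟩
    rw [← hab']
    ring
  · rintro ⟨c, rfl⟩
    refine ⟨c, mul_left_cancel₀ hy ?_⟩
    rw [hab']
    ring

end KOS

theorem t_KOS : S_KOS := by
  intro C A _ _ _ _ x y hx hy
  let e : LinearMap.ker (LinearMap.lsmul A (A ⧸ Ideal.span {x}) y) ≃ₗ[A]
      LinearMap.ker (LinearMap.lsmul A (A ⧸ Ideal.span {y}) x) :=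
    ((KOS.f x y).quotKerEquivOfSurjective (KOS.f_surj x y)).symm.trans
      ((Submodule.quotEquivOfEq _ _ (KOS.ker_eq hx hy)).trans
        ((KOS.g x y).quotKerEquivOfSurjective (KOS.g_surj x y)))
  exact (e.restrictScalars C).length_eq

end CUB


end

section

/-!
# CUB R: the main theorem on the specialisation at infinity
-/

set_option autoImplicit false

open Polynomial

namespace CUB

namespace R

/-- The length of the zero ring is zero. -/
lemma len_top {A : Type} [CommRing A] (p : PrimeSpectrum A) : len (⊤ : Ideal A) p = 0 := by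
  unfold len
  have h : Subsingleton (Localization.AtPrime p.asIdeal ⧸
      (⊤ : Ideal A).map (algebraMap A (Localization.AtPrime p.asIdeal))) := by
    rw [Ideal.map_top]
    exact Ideal.Quotient.subsingleton_iff.mpr rfl
  rw [Module.length_eq_zero]
  rfl

/-- The relation between `u` and `u'` is symmetric. -/
lemma symm_rel {K : Type} [Field K] (O : ValuationSubring K) {u u' : K} (hu : u ≠ 0)
    (hu' : u' ≠ 0) (h : u' / u - 1 = 0 ∨ (u' / u - 1)⁻¹ ∉ O) :
    u / u' - 1 = 0 ∨ (u / u' - 1)⁻¹ ∉ O := by
  rcases eq_or_ne (u' / u - 1) 0 with h0 | h0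
  · left
    have h1 : u' = u := by
      rw [sub_eq_zero, div_eq_one_iff_eq hu] at h0
      exact h0
    rw [h1, div_self hu, sub_self]
  · right
    have h1 : (u' / u - 1)⁻¹ ∉ O := h.resolve_left h0
    intro h2
    apply h1
    have h3 : u' - u ≠ 0 := by
      intro h4
      apply h0
      rw [sub_eq_zero] at h4
      rw [h4, div_self hu, sub_self]
    have h5 : (u' / u - 1)⁻¹ = -((u / u' - 1)⁻¹) - 1 := by
      have h6 : u' / u - 1 = (u' - u) / u := by field_simp
      have h7 : u / u' - 1 = -((u' - u) / u') := by field_simp; ring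
      rw [h6, h7, inv_neg, neg_neg, inv_div, inv_div]
      field_simp
      ring
    rw [h5]
    exact sub_mem (neg_mem h2) (one_mem _)

end R

theorem t_R : M_R := by
  intro hLENC hINFA hTDU hTDF hTDE k R K E _ _ _ _ _ _ _ _ n θ
  classical
  refine ⟨fun O a u => if h : ∃ d, IsTD E θ O a u d then h.choose else (0 : RP k R n →₀ E),
    ?_, ?_, ?_⟩
  · intro O a u I hI
    beta_reduce
    by_cases h : ∃ d : RP k R n →₀ E, IsTD E θ O a u d
    · rw [dif_pos h]
      exact (hTDU k R K E n θ O a u h.choose h.choose_spec).2.2 I hI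
    · rw [dif_neg h]
      exact zero_mem _
  · intro O a u u' hu hu' h
    have key : ∀ d : RP k R n →₀ E, IsTD E θ O a u d ↔ IsTD E θ O a u' d := by
      intro d
      constructor
      · intro hd
        exact (hTDU k R K E n θ O a u d hd).2.1 u' hu hu' h
      · intro hd
        exact (hTDU k R K E n θ O a u' d hd).2.1 u hu' hu (CUB.R.symm_rel O hu hu' h)
    beta_reduce
    by_cases h1 : ∃ d : RP k R n →₀ E, IsTD E θ O a u d
    · have h2 : ∃ d : RP k R n →₀ E, IsTD E θ O a u' d := h1.imp fun d hd => (key d).1 hd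
      rw [dif_pos h1, dif_pos h2]
      exact (hTDU k R K E n θ O a u h1.choose h1.choose_spec).1 _
        ((key h2.choose).2 h2.choose_spec)
    · have h2 : ¬ ∃ d : RP k R n →₀ E, IsTD E θ O a u' d := fun h2 =>
        h1 (h2.imp fun d hd => (key d).2 hd)
      rw [dif_neg h1, dif_neg h2]
  · intro s P q c d hfr hq hP hc hd
    rcases eq_or_ne s 0 with hs | hs
    · subst hs
      have hV : VV n θ (0 : K) = ∅ := by
        ext O
        simp only [Set.mem_empty_iff_false, iff_false]
        intro hO
        exact hO.1 (zero_mem _)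
      refine ⟨by rw [hV]; exact Set.finite_empty, ?_⟩
      have hd0 : d = 0 := by
        refine Finsupp.ext fun p => ?_
        rw [hd p, Finsupp.zero_apply]
        refine Finset.sum_eq_zero fun z hz => ?_
        have hcz : c z ≠ 0 := Finsupp.mem_support_iff.1 hz
        have h1 : len (q.1.asIdeal ⊔ Ideal.span {P}) z.1 ≠ 0 := by
          intro h1
          apply hcz
          rw [hc z, h1, Nat.cast_zero]
        have h2 : q.1.asIdeal ≤ z.1.asIdeal := ((hLENC k R[X] (n + 1) q z).2.1 P h1).1
        have hX : (X : R[X]) ∈ z.1.asIdeal := by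
          apply h2
          rw [hq]
          exact evs_X θ (0 : K)
        have h3 : bet z.1.asIdeal p.1 = 0 := by
          unfold bet
          rw [hINFA.2.1 R z.1.asIdeal hX, top_sup_eq]
          exact CUB.R.len_top _
        show c z * (bet z.1.asIdeal p.1 : E) = 0
        rw [h3, Nat.cast_zero, mul_zero]
      rw [hd0]
      symm
      apply Finset.sum_eq_zero
      intro O hO
      rw [Set.Finite.mem_toFinset, hV] at hO
      exact absurd hO (Set.notMem_empty O)
    · obtain ⟨h, hD⟩ := hTDF k R K E n θ s P q c d hs hfr hq hP hc hd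
      refine ⟨h, hD _ ?_⟩
      intro O hO
      have ha : evs θ s P ≠ 0 := by
        intro h0
        apply hP
        rw [hq]
        exact h0
      have h1 : ∃ d : RP k R n →₀ E, IsTD E θ O (evs θ s P) s⁻¹ d :=
        hTDE k R K E n θ s q hs hfr hq O hO (evs θ s P) ha
      show IsTD E θ O (evs θ s P) s⁻¹ (if h : ∃ d, IsTD E θ O (evs θ s P) s⁻¹ d then h.choose
        else (0 : RP k R n →₀ E))
      rw [dif_pos h1]
      exact h1.choose_spec

end CUB


end

section

/-!
# TDU: the relation `IsTD` determines the cycle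
-/

set_option autoImplicit false

open Polynomial

namespace CUB

namespace TDU

section Val

variable {K : Type} [Field K]

lemma un_val {O : ValuationSubring K} {x : K} (h : IsUn O x) : O.valuation x = 1 := by
  obtain ⟨h0, h1, h2⟩ := h
  have h3 : O.valuation x ≤ 1 := (O.valuation_le_one_iff x).2 h1
  have h4 : O.valuation x⁻¹ ≤ 1 := (O.valuation_le_one_iff _).2 h2
  rw [map_inv₀] at h4
  have h5 : O.valuation x ≠ 0 := (Valuation.ne_zero_iff _).2 h0
  exact le_antisymm h3 ((inv_le_one₀ (zero_lt_iff.2 h5)).1 h4)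

lemma val_un {O : ValuationSubring K} {x : K} (h : O.valuation x = 1) : IsUn O x := by
  refine ⟨?_, ?_, ?_⟩
  · rintro rfl
    rw [map_zero] at h
    exact zero_ne_one h
  · exact (O.valuation_le_one_iff x).1 h.le
  · refine (O.valuation_le_one_iff _).1 ?_
    rw [map_inv₀, h, inv_one]

lemma lt_val {O : ValuationSubring K} {x : K} (h : x = 0 ∨ x⁻¹ ∉ O) : O.valuation x < 1 := by
  by_cases h0 : x = 0
  · rw [h0, map_zero]
    exact zero_lt_one
  · have h1 : x⁻¹ ∉ O := h.resolve_left h0
    have h2 : ¬ O.valuation x⁻¹ ≤ 1 := fun h3 => h1 ((O.valuation_le_one_iff _).1 h3)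
    rw [map_inv₀, not_le] at h2
    have h5 : O.valuation x ≠ 0 := (Valuation.ne_zero_iff _).2 h0
    exact (one_lt_inv₀ (zero_lt_iff.2 h5)).1 h2

lemma unif_val {O : ValuationSubring K} {π π' : K} (h : IsUnif O π) (h' : IsUnif O π') :
    O.valuation π' ≤ O.valuation π := by
  have h1 : π' / π ∈ O := h.2.2.2 π' h'.1 h'.2.2.1
  have h2 : O.valuation (π' / π) ≤ 1 := (O.valuation_le_one_iff _).2 h1
  rw [map_div₀] at h2
  have h5 : O.valuation π ≠ 0 := (Valuation.ne_zero_iff _).2 h.2.1
  exact (div_le_one₀ (zero_lt_iff.2 h5)).1 h2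

lemma unif_uniq {O : ValuationSubring K} {π π' α α' : K} {i i' : ℤ} (h : IsUnif O π)
    (h' : IsUnif O π') (hα : IsUn O α) (hα' : IsUn O α') (e : α * π ^ i = α' * π' ^ i') :
    i = i' := by
  have h1 : O.valuation π = O.valuation π' := le_antisymm (unif_val h' h) (unif_val h h')
  have h2 := congrArg O.valuation e
  rw [map_mul, map_mul, map_zpow₀, map_zpow₀, un_val hα, un_val hα', one_mul, one_mul, ← h1] at h2
  have h3 : O.valuation π < 1 := lt_val (Or.inr h.2.2.1)
  have h5 : O.valuation π ≠ 0 := (Valuation.ne_zero_iff _).2 h.2.1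
  exact zpow_right_injective₀ (zero_lt_iff.2 h5) h3.ne h2

lemma tame_uniq {O : ValuationSubring K} {a u w w' : K} (h : IsTame O a u w)
    (h' : IsTame O a u w') : w = w' := by
  obtain ⟨π, α, β, i, j, hπ, hα, hβ, ha, hu, hw⟩ := h
  obtain ⟨π', α', β', i', j', hπ', hα', hβ', ha', hu', hw'⟩ := h'
  have h1 : i = i' := unif_uniq hπ hπ' hα hα' (ha.symm.trans ha')
  have h2 : j = j' := unif_uniq hπ hπ' hβ hβ' (hu.symm.trans hu')
  rw [hw, hw', h1, h2]

end Val

section Nm

variable {R L : Type} [CommRing R] [Field L]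

lemma nm_eq {ρ : R →+* L} {x : L} {b c b' c' : R} (h : IsNm ρ x b c) (h' : IsNm ρ x b' c') :
    ρ (b * c') = ρ (b' * c) := by
  obtain ⟨h1, h2, h3⟩ := h
  obtain ⟨h1', h2', h3'⟩ := h'
  rw [map_mul, map_mul, ← h3, ← h3']
  ring

end Nm

lemma sup_eq {R : Type} [CommRing R] {T : Ideal R} {x y : R} (h : x - y ∈ T) :
    T ⊔ Ideal.span {x} = T ⊔ Ideal.span {y} := by
  refine le_antisymm (sup_le le_sup_left ?_) (sup_le le_sup_left ?_)
  · rw [Ideal.span_singleton_le_iff_mem]
    have h1 : x = (x - y) + y := by ring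
    rw [h1]
    exact Ideal.add_mem _ (Ideal.mem_sup_left h)
      (Ideal.mem_sup_right (Ideal.mem_span_singleton_self y))
  · rw [Ideal.span_singleton_le_iff_mem]
    have h1 : y = x - (x - y) := by ring
    rw [h1]
    exact Ideal.sub_mem _ (Ideal.mem_sup_right (Ideal.mem_span_singleton_self x))
      (Ideal.mem_sup_left h)

section Main

variable {k R K E : Type} [Field k] [CommRing R] [Algebra k R] [Algebra.FiniteType k R] [Field K]
  [Algebra k K] [Field E] {n : ℕ}

lemma td_uniq (hL : S_LENC) {θ : R →ₐ[k] K} {O : ValuationSubring K} {a u : K}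
    {d d' : RP k R n →₀ E} (H : IsTD E θ O a u d) (H' : IsTD E θ O a u d') : d = d' := by
  obtain ⟨h, T, w, b, c, db, dc, hT, hw, hN, hb, hc, rfl⟩ := H
  obtain ⟨h', T', w', b', c', db', dc', hT', hw', hN', hb', hc', rfl⟩ := H'
  have e1 : T = T' := by
    apply Subtype.ext
    apply PrimeSpectrum.ext
    rw [hT, hT']
  subst e1
  have e2 : w = w' := Subtype.ext (tame_uniq hw hw')
  subst e2
  have e3 := nm_eq hN hN'
  have e4 : b * c' - b' * c ∈ T.1.asIdeal := by
    rw [hT, RingHom.mem_ker, map_sub, e3, sub_self]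
  have mT : ∀ x : R, rhoO θ O h x ≠ 0 → x ∉ T.1.asIdeal := by
    intro x hx hx'
    rw [hT, RingHom.mem_ker] at hx'
    exact hx hx'
  have kb := mT b hN.1
  have kc := mT c hN.2.1
  have kb' := mT b' hN'.1
  have kc' := mT c' hN'.2.1
  ext p
  have l1 := (hL k R n T p).1 b c' kb kc'
  have l2 := (hL k R n T p).1 b' c kb' kc
  rw [sup_eq e4, l2] at l1
  rw [Finsupp.sub_apply, Finsupp.sub_apply, hb p, hc p, hb' p, hc' p]
  have l3 := congrArg (Nat.cast : ℕ → E) l1
  simp only [Nat.cast_add] at l3
  linear_combination -l3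

omit [Algebra.FiniteType k R] in
lemma td_mul {θ : R →ₐ[k] K} {O : ValuationSubring K} {a u u' : K}
    {d : RP k R n →₀ E} (H : IsTD E θ O a u d) (hu : u ≠ 0) (hu' : u' ≠ 0)
    (hv : u' / u - 1 = 0 ∨ (u' / u - 1)⁻¹ ∉ O) : IsTD E θ O a u' d := by
  obtain ⟨h, T, w, b, c, db, dc, hT, hw, hN, hb, hc, rfl⟩ := H
  have v1 := lt_val hv
  have v2 : u' / u - 1 ∈ O := (O.valuation_le_one_iff _).1 v1.le
  set t : O := ⟨u' / u - 1, v2⟩ with ht
  have v3 : t ∈ IsLocalRing.maximalIdeal O := (O.valuation_lt_one_iff t).2 v1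
  have v4 : IsLocalRing.residue O (1 + t) = 1 := by
    rw [map_add, map_one, (IsLocalRing.residue_eq_zero_iff t).2 v3, add_zero]
  have v5 : IsUnit (1 + t) := by
    by_contra hcon
    have h1 := (IsLocalRing.residue_eq_zero_iff (1 + t)).2 ((IsLocalRing.mem_maximalIdeal _).2 hcon)
    rw [v4] at h1
    exact one_ne_zero h1
  obtain ⟨e, he⟩ := v5
  have e1 : ((e : O) : K) = u' / u := by
    rw [he]
    change (1 : K) + (u' / u - 1) = u' / u
    ring
  have e2 : ∀ m : ℤ, (((e ^ m : Oˣ) : O) : K) = (u' / u) ^ m := by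
    intro m
    have h1 : (((e ^ m : Oˣ) : O) : K) = ((Units.map O.subtype.toMonoidHom (e ^ m) : Kˣ) : K) := rfl
    rw [h1, map_zpow, Units.val_zpow_eq_zpow_val]
    congr 1
  have e3 : ∀ m : ℤ, IsLocalRing.residue O ((e ^ m : Oˣ) : O) = 1 := by
    intro m
    have h1 : IsLocalRing.residue O ((e ^ m : Oˣ) : O) =
      ((Units.map (IsLocalRing.residue O).toMonoidHom (e ^ m) : (IsLocalRing.ResidueField O)ˣ) :
        IsLocalRing.ResidueField O) := rfl
    have h2 : Units.map (IsLocalRing.residue O).toMonoidHom e = 1 := by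
      apply Units.ext
      change IsLocalRing.residue O (e : O) = 1
      rw [he, v4]
    rw [h1, map_zpow, h2, one_zpow, Units.val_one]
  obtain ⟨π, α, β, i, j, hπ, hα, hβ, ha, hu1, hw1⟩ := hw
  refine ⟨h, T, w * ((e ^ (-i) : Oˣ) : O), b, c, db, dc, hT, ?_, ?_, hb, hc, rfl⟩
  · refine ⟨π, α, β * (u' / u), i, j, hπ, hα, ?_, ha, ?_, ?_⟩
    · apply val_un
      rw [map_mul, un_val hβ, one_mul]
      have h1 := O.valuation_unit e
      rw [e1] at h1
      exact h1
    · field_simp
      rw [hu1]
    · change (w : K) * (((e ^ (-i) : Oˣ) : O) : K) = _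
      rw [e2, hw1, mul_assoc, ← mul_zpow, mul_div_cancel₀ _ hu]
  · rw [map_mul, e3, mul_one]
    exact hN

omit [Algebra.FiniteType k R] in
lemma td_rat {θ : R →ₐ[k] K} {O : ValuationSubring K} {a u : K}
    {d : RP k R n →₀ E} (H : IsTD E θ O a u d) (I : Ideal R)
    (hI : ∀ r ∈ I, θ r = 0 ∨ (θ r)⁻¹ ∉ O) : d ∈ ratOn k E n I := by
  obtain ⟨h, T, w, b, c, db, dc, hT, hw, hN, hb, hc, rfl⟩ := H
  have hle : I ≤ T.1.asIdeal := by
    intro r hr
    rw [hT, RingHom.mem_ker]
    have h1 := lt_val (hI r hr)
    change IsLocalRing.residue O ⟨θ r, h r⟩ = 0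
    rw [IsLocalRing.residue_eq_zero_iff]
    exact (O.valuation_lt_one_iff _).2 h1
  have mT : ∀ x : R, rhoO θ O h x ≠ 0 → x ∉ T.1.asIdeal := by
    intro x hx hx'
    rw [hT, RingHom.mem_ker] at hx'
    exact hx hx'
  refine Submodule.sub_mem _ ?_ ?_
  · exact Submodule.subset_span ⟨T, b, hle, mT b hN.1, hb⟩
  · exact Submodule.subset_span ⟨T, c, hle, mT c hN.2.1, hc⟩

end Main

end TDU

theorem t_TDU : M_TDU := by
  intro hL k R K E _ _ _ _ _ _ _ n θ O a u d H
  exact ⟨fun d' H' => TDU.td_uniq hL H H', fun u' hu hu' hv => TDU.td_mul H hu hu' hv,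
    fun I hI => TDU.td_rat H I hI⟩

end CUB


end

section

/-!
# CUB, block R: VC1 (the valuation ring of a height one prime of a normal domain)
-/

set_option autoImplicit false

namespace CUB

namespace VC1

section DVR

variable (R K : Type) [CommRing R] [IsDomain R] [IsDiscreteValuationRing R] [Field K]
  [Algebra R K] [IsFractionRing R K]

/-- The discrete valuation ring `R` as a valuation subring of its fraction field. -/
noncomputable def OO : ValuationSubring K :=
  { (algebraMap R K).range with
    mem_or_inv_mem' := fun x => by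
      rcases ValuationRing.isInteger_or_isInteger R x with h | h
      · exact Or.inl h
      · exact Or.inr h }

lemma mem_OO {x : K} : x ∈ OO R K ↔ ∃ y : R, algebraMap R K y = x := Iff.rfl

lemma inv_mem {y : R} (hy : y ≠ 0) : (algebraMap R K y)⁻¹ ∈ OO R K ↔ IsUnit y := by
  have hy0 : algebraMap R K y ≠ 0 := by simpa using hy
  rw [mem_OO]
  constructor
  · rintro ⟨z, hz⟩
    have h1 : algebraMap R K (y * z) = algebraMap R K 1 := by
      rw [map_mul, hz, mul_inv_cancel₀ hy0, map_one]
    exact IsUnit.of_mul_eq_one z (IsFractionRing.injective R K h1)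
  · rintro ⟨u, rfl⟩
    refine ⟨((u⁻¹ : Rˣ) : R), ?_⟩
    apply eq_inv_of_mul_eq_one_left
    rw [← map_mul, Units.inv_mul, map_one]

lemma unif_iff (π : K) : IsUnif (OO R K) π ↔ ∃ ϖ : R, Irreducible ϖ ∧ algebraMap R K ϖ = π := by
  constructor
  · rintro ⟨⟨ϖ, rfl⟩, h0, hinv, hdiv⟩
    refine ⟨ϖ, ?_, rfl⟩
    have hϖ0 : ϖ ≠ 0 := by
      rintro rfl
      exact h0 (map_zero _)
    have hnu : ¬ IsUnit ϖ := fun h => hinv ((inv_mem R K hϖ0).mpr h)
    obtain ⟨ϖ₀, hi⟩ := IsDiscreteValuationRing.exists_irreducible R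
    obtain ⟨z, hz⟩ := hdiv (algebraMap R K ϖ₀) ⟨ϖ₀, rfl⟩
      (fun h => hi.not_isUnit ((inv_mem R K hi.ne_zero).mp h))
    have h1 : ϖ₀ = ϖ * z := by
      apply IsFractionRing.injective R K
      rw [map_mul, hz]
      field_simp
    have h2 : IsUnit z := (hi.isUnit_or_isUnit h1).resolve_left hnu
    obtain ⟨u, rfl⟩ := h2
    exact (associated_mul_unit_left ϖ (u : R) u.isUnit |>.symm).irreducible_iff.mpr (h1 ▸ hi)
  · rintro ⟨ϖ, hi, rfl⟩
    have h0 : algebraMap R K ϖ ≠ 0 := by simpa using hi.ne_zero
    refine ⟨⟨ϖ, rfl⟩, h0, fun h => hi.not_isUnit ((inv_mem R K hi.ne_zero).mp h), ?_⟩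
    rintro _ ⟨y, rfl⟩ hy
    have hy0 : y ≠ 0 := by
      rintro rfl
      apply hy
      rw [map_zero, inv_zero]
      exact ⟨0, map_zero _⟩
    have hnu : ¬ IsUnit y := fun h => hy ((inv_mem R K hy0).mpr h)
    have hm : y ∈ IsLocalRing.maximalIdeal R := (IsLocalRing.mem_maximalIdeal y).mpr hnu
    rw [hi.maximalIdeal_eq, Ideal.mem_span_singleton] at hm
    obtain ⟨z, rfl⟩ := hm
    refine ⟨z, ?_⟩
    rw [map_mul, mul_div_cancel_left₀ _ h0]

lemma isUn_unit (u : Rˣ) : IsUn (OO R K) (algebraMap R K u) := by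
  refine ⟨?_, ⟨u, rfl⟩, (inv_mem R K u.ne_zero).mpr u.isUnit⟩
  exact (map_ne_zero_iff _ (IsFractionRing.injective R K)).mpr u.ne_zero

lemma exists_zpow {ϖ : R} (hi : Irreducible ϖ) {x : K} (hx : x ≠ 0) :
    ∃ (i : ℤ) (α : K), IsUn (OO R K) α ∧ x = α * algebraMap R K ϖ ^ i := by
  obtain ⟨i, u, h⟩ := IsDiscreteValuationRing.exists_units_eq_smul_zpow_of_irreducible
    (K := K) hi hx
  refine ⟨i, algebraMap R K u, isUn_unit R K u, ?_⟩
  rw [h, Units.smul_def, Algebra.smul_def]

end DVR

lemma length_eq {R : Type} [CommRing R] [IsDomain R] [IsDiscreteValuationRing R] {ϖ : R}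
    (hi : Irreducible ϖ) (u : Rˣ) (n : ℕ) (I : Ideal R) (hI : I = Ideal.span {(u : R) * ϖ ^ n}) :
    Module.length R (R ⧸ I) = n := by
  have h1 : I = IsLocalRing.maximalIdeal R ^ n := by
    rw [hI, hi.maximalIdeal_eq, Ideal.span_singleton_pow, Ideal.span_singleton_eq_span_singleton]
    exact associated_unit_mul_left _ _ u.isUnit
  rw [h1, IsDiscreteValuationRing.length_quotient_pow_maximalIdeal]

end VC1

open _root_.CUB.VC1 in
theorem t_VC1 : S_VC1 := by
  intro A K _ _ _ _ _ _ _ p hp hht
  have hle : p.asIdeal.primeCompl ≤ nonZeroDivisors A := p.asIdeal.primeCompl_le_nonZeroDivisors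
  let Ap := Localization.AtPrime p.asIdeal
  haveI : IsDomain Ap := IsLocalization.isDomain_localization hle
  haveI : IsNoetherianRing Ap := IsLocalization.isNoetherianRing p.asIdeal.primeCompl _ inferInstance
  haveI : IsIntegrallyClosed Ap :=
    isIntegrallyClosed_of_isLocalization (S := Ap) p.asIdeal.primeCompl hle
  have hinj : Function.Injective (algebraMap A Ap) := IsLocalization.injective Ap hle
  have hmax : IsLocalRing.maximalIdeal Ap ≠ ⊥ := by
    intro h
    apply hp
    rw [← IsLocalization.AtPrime.comap_maximalIdeal Ap p.asIdeal, h]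
    exact Ideal.comap_bot_of_injective _ hinj
  have hfield : ¬ IsField Ap := by
    rw [IsLocalRing.isField_iff_maximalIdeal_eq]
    exact hmax
  haveI : IsDiscreteValuationRing Ap := by
    have htf := (IsDiscreteValuationRing.TFAE Ap hfield).out 0 3
    refine htf.mpr ⟨inferInstance, IsLocalRing.maximalIdeal Ap, ⟨hmax, inferInstance⟩, ?_⟩
    rintro P ⟨hP0, hPp⟩
    by_contra hne
    have hlt : P < IsLocalRing.maximalIdeal Ap :=
      lt_of_le_of_ne (IsLocalRing.le_maximalIdeal hPp.ne_top) hne
    have hcm := IsLocalization.AtPrime.comap_maximalIdeal Ap p.asIdeal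
    have h1 : P.comap (algebraMap A Ap) < p.asIdeal := by
      refine lt_of_le_of_ne ((Ideal.comap_mono hlt.le).trans hcm.le) ?_
      intro h
      apply hlt.ne
      have h2 := congrArg (Ideal.map (algebraMap A Ap)) (h.trans hcm.symm)
      rwa [IsLocalization.map_under p.asIdeal.primeCompl Ap,
        IsLocalization.map_under p.asIdeal.primeCompl Ap] at h2
    have h3 := hht _ (Ideal.IsPrime.comap (algebraMap A Ap)) h1
    apply hP0
    rw [← IsLocalization.map_under p.asIdeal.primeCompl Ap P, Ideal.under, h3, Ideal.map_bot]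
  have hunits : ∀ y : p.asIdeal.primeCompl, IsUnit (algebraMap A K y) := by
    intro y
    have := nonZeroDivisors.ne_zero (hle y.2)
    exact isUnit_iff_ne_zero.mpr (by simpa using this)
  letI : Algebra Ap K := (IsLocalization.lift (S := Ap) hunits).toAlgebra
  haveI : IsScalarTower A Ap K := IsScalarTower.of_algebraMap_eq fun x =>
    (IsLocalization.lift_eq hunits x).symm
  haveI : IsFractionRing Ap K :=
    IsFractionRing.isFractionRing_of_isDomain_of_isLocalization p.asIdeal.primeCompl Ap K
  refine ⟨OO Ap K, ?_, ?_, ?_⟩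
  · intro x
    rw [mem_OO]
    constructor
    · rintro ⟨y, rfl⟩
      obtain ⟨a, s, rfl⟩ := IsLocalization.exists_mk'_eq p.asIdeal.primeCompl y
      refine ⟨a, s, s.2, ?_⟩
      rw [IsScalarTower.algebraMap_apply A Ap K (s : A), ← map_mul, IsLocalization.mk'_spec,
        ← IsScalarTower.algebraMap_apply]
    · rintro ⟨a, b, hb, h⟩
      refine ⟨IsLocalization.mk' Ap a (⟨b, hb⟩ : p.asIdeal.primeCompl), ?_⟩
      have hb0 : algebraMap A K b ≠ 0 := (hunits ⟨b, hb⟩).ne_zero
      apply mul_right_cancel₀ hb0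
      rw [h, IsScalarTower.algebraMap_apply A Ap K b, ← map_mul]
      have := IsLocalization.mk'_spec Ap a (⟨b, hb⟩ : p.asIdeal.primeCompl)
      rw [this, ← IsScalarTower.algebraMap_apply]
  · obtain ⟨ϖ, hi⟩ := IsDiscreteValuationRing.exists_irreducible Ap
    obtain ⟨a, s, hs⟩ := IsLocalization.exists_mk'_eq p.asIdeal.primeCompl ϖ
    refine ⟨a, (unif_iff Ap K _).mpr ⟨algebraMap A Ap a, ?_,
      (IsScalarTower.algebraMap_apply A Ap K a).symm⟩⟩
    have h1 : algebraMap A Ap a = ϖ * algebraMap A Ap s := by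
      rw [← hs, IsLocalization.mk'_spec]
    rw [h1]
    have hu : IsUnit (algebraMap A Ap s) := IsLocalization.map_units Ap s
    exact (associated_mul_unit_left ϖ _ hu).irreducible_iff.mpr hi
  · intro π hπ
    obtain ⟨ϖ, hi, rfl⟩ := (unif_iff Ap K π).mp hπ
    refine ⟨fun x hx => exists_zpow Ap K hi hx, ?_⟩
    intro a ha
    have ha' : algebraMap A Ap a ≠ 0 := by
      intro h
      exact ha (hinj (h.trans (map_zero _).symm))
    obtain ⟨n, u, hn⟩ := IsDiscreteValuationRing.eq_unit_mul_pow_irreducible ha' hi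
    refine ⟨algebraMap Ap K u, isUn_unit Ap K u, ?_⟩
    have hlen : len (Ideal.span {a}) p = n := by
      unfold len
      rw [length_eq hi u n _ (by rw [Ideal.map_span, Set.image_singleton, hn])]
      rfl
    rw [hlen, zpow_natCast, IsScalarTower.algebraMap_apply A Ap K a, hn, map_mul, map_pow]

end CUB


end

section

/-!
# LOWD: Chow groups of small dimension of affine varieties defined by polynomials of small degree
over finite fields (definitions)

`k` is a finite field, `R` an algebra of finite type over `k`, `f i` are polynomials over `R` in the variables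
`σ` (a finite type), `AR f = R[σ] / (f i)`.  The theorem: if `deg (f i) ≤ d i` and `l + ∑ cnt l (d i) < |σ|` then every cycle of
dimension `l` on `Spec (AR f)` is rationally equivalent to zero modulo torsion.  See `PAPER.md`.
-/

set_option autoImplicit false

open Polynomial

namespace LOWD

open CUB

/-! ## 1. Expansion along a line -/

section Ln

variable {σ R S T : Type} [CommRing R] [CommRing S] [CommRing T] [Algebra R S] [Algebra R T]

/-- The polynomial `f (x + t v)` in one variable `t`. -/
noncomputable def ln (f : MvPolynomial σ R) (x v : σ → S) : S[X] :=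
  MvPolynomial.aeval (fun j => C (x j) + C (v j) * X) f

lemma ln_map (φ : S →ₐ[R] T) (f : MvPolynomial σ R) (x v : σ → S) :
    (ln f x v).map φ.toRingHom = ln f (fun j => φ (x j)) (fun j => φ (v j)) := by
  have h : (Polynomial.mapAlgHom φ).comp
      (MvPolynomial.aeval (fun j => C (x j) + C (v j) * X) : MvPolynomial σ R →ₐ[R] S[X]) =
      MvPolynomial.aeval (fun j => C (φ (x j)) + C (φ (v j)) * X) := by
    apply MvPolynomial.algHom_ext
    intro j
    simp
  exact DFunLike.congr_fun h f

/-- Translation of the parameter. -/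
lemma ln_shift (f : MvPolynomial σ R) (x v : σ → S) (y : S) :
    (ln f x v).comp (X + C y) = ln f (fun j => x j + y * v j) v := by
  have h : (Polynomial.compRingHom (X + C y)).comp
      (MvPolynomial.aeval (fun j => C (x j) + C (v j) * X) :
        MvPolynomial σ R →ₐ[R] S[X]).toRingHom =
      (MvPolynomial.aeval (fun j => C (x j + y * v j) + C (v j) * X) :
        MvPolynomial σ R →ₐ[R] S[X]).toRingHom := by
    apply MvPolynomial.ringHom_ext
    · intro r
      simp [Polynomial.algebraMap_apply]
    · intro j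
      simp
      ring
  exact RingHom.congr_fun h f

/-- The constant coefficient. -/
lemma ln_coeff_zero (f : MvPolynomial σ R) (x v : σ → S) :
    (ln f x v).coeff 0 = MvPolynomial.aeval x f := by
  have h : (Polynomial.constantCoeff).comp
      (MvPolynomial.aeval (fun j => C (x j) + C (v j) * X) :
        MvPolynomial σ R →ₐ[R] S[X]).toRingHom =
      (MvPolynomial.aeval x : MvPolynomial σ R →ₐ[R] S).toRingHom := by
    apply MvPolynomial.ringHom_ext
    · intro r
      simp [Polynomial.algebraMap_apply]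
    · intro j
      simp
  exact RingHom.congr_fun h f

/-- The degree of `f (x + t v)` is at most the degree of `f`. -/
lemma ln_natDegree_le (f : MvPolynomial σ R) (x v : σ → S) :
    (ln f x v).natDegree ≤ f.totalDegree := by
  unfold ln
  rw [MvPolynomial.aeval_def, MvPolynomial.eval₂_eq]
  apply Polynomial.natDegree_sum_le_of_forall_le
  intro m hm
  refine (Polynomial.natDegree_mul_le).trans ?_
  have h1 : (algebraMap R S[X] (MvPolynomial.coeff m f)).natDegree = 0 := by
    rw [Polynomial.algebraMap_apply]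
    exact natDegree_C _
  rw [h1, zero_add]
  refine (Polynomial.natDegree_prod_le _ _).trans ?_
  refine le_trans (Finset.sum_le_sum (g := fun i => m i) ?_) (MvPolynomial.le_totalDegree hm)
  intro i _
  refine (Polynomial.natDegree_pow_le).trans ?_
  have h2 : (C (x i) + C (v i) * X : S[X]).natDegree ≤ 1 := by
    compute_degree
  calc m i * _ ≤ m i * 1 := Nat.mul_le_mul_left _ h2
    _ = m i := mul_one _

lemma ln_coeff_eq_zero (f : MvPolynomial σ R) (x v : σ → S) (e : ℕ) (he : f.totalDegree < e) :
    (ln f x v).coeff e = 0 :=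
  coeff_eq_zero_of_natDegree_lt (lt_of_le_of_lt (ln_natDegree_le f x v) he)

end Ln

/-! ## 2. The rings -/

section Rings

variable {ι κ σ R A : Type} [CommRing R] [CommRing A]

/-- The ring `R[σ] / (f i)`. -/
abbrev AR (f : ι → MvPolynomial σ R) : Type := MvPolynomial σ R ⧸ Ideal.span (Set.range f)

/-- The coordinates in `AR f`. -/
noncomputable def xx (f : ι → MvPolynomial σ R) : σ → AR f :=
  fun j => Ideal.Quotient.mk _ (MvPolynomial.X j)

lemma aeval_xx (f : ι → MvPolynomial σ R) (i : ι) : MvPolynomial.aeval (xx f) (f i) = 0 := by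
  have h : (MvPolynomial.aeval (xx f) : MvPolynomial σ R →ₐ[R] AR f) =
      Ideal.Quotient.mkₐ R _ := by
    apply MvPolynomial.algHom_ext
    intro j
    simp [xx]
  rw [h]
  exact Ideal.Quotient.eq_zero_iff_mem.mpr (Ideal.subset_span ⟨i, rfl⟩)

/-- The coefficients of `t ^ (e + 1)`, `e < d i`, in `f i (x + t v)`, where `x` are the coordinates
of `Spec (AR f)` and `v` are the variables. -/
noncomputable def GG (f : ι → MvPolynomial σ R) (d : ι → ℕ) :
    (Σ i, Fin (d i)) → MvPolynomial σ (AR f) :=
  fun ie => (ln (f ie.1) (fun j => MvPolynomial.C (xx f j)) (fun j => MvPolynomial.X j)).coeff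
    (ie.2 + 1)

/-- The ideal of the equations `G i (v) = 0`, `v j = 0` for `j ∉ S`, `j ≠ a`, and `v a = 1`. -/
noncomputable def relB (G : κ → MvPolynomial σ A) (S : Set σ) (a : σ) :
    Ideal (MvPolynomial σ A) :=
  Ideal.span ({MvPolynomial.X a - 1} ∪ (MvPolynomial.X '' {j | j ∉ S ∧ j ≠ a} ∪ Set.range G))

/-- The ring `A[v] / (G i (v), v a - 1, v j (j ∉ S, j ≠ a))`. -/
abbrev BR (G : κ → MvPolynomial σ A) (S : Set σ) (a : σ) : Type :=
  MvPolynomial σ A ⧸ relB G S a

/-- The homomorphism `A → BR G S a`. -/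
noncomputable def BRh (k : Type) [Field k] [Algebra k A] (G : κ → MvPolynomial σ A) (S : Set σ)
    (a : σ) : A →ₐ[k] BR G S a := IsScalarTower.toAlgHom k A (BR G S a)

/-- The elements `v j` of `BR G S a`. -/
noncomputable def vB (G : κ → MvPolynomial σ A) (S : Set σ) (a : σ) : σ → BR G S a :=
  fun j => Ideal.Quotient.mk _ (MvPolynomial.X j)

variable (R) in
/-- The ring `R[v] / (v a - 1, v j (j ∉ S, j ≠ a))`, the functions on the set of directions. -/
abbrev RV (S : Set σ) (a : σ) : Type :=
  MvPolynomial σ R ⧸ Ideal.span ({MvPolynomial.X a - 1} ∪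
    MvPolynomial.X '' {j : σ | j ∉ S ∧ j ≠ a} : Set (MvPolynomial σ R))

variable (R) in
/-- The elements `v j` of `RV R S a`. -/
noncomputable def vR (S : Set σ) (a : σ) : σ → RV R S a :=
  fun j => Ideal.Quotient.mk _ (MvPolynomial.X j)

open Classical in
variable (R) in
/-- The coordinates of the hyperplane `x a = 0`, over the ring `RV R S a`. -/
noncomputable def x0 (S : Set σ) (a : σ) : σ → MvPolynomial {j : σ // j ≠ a} (RV R S a) :=
  fun j => if h : j ≠ a then MvPolynomial.X ⟨j, h⟩ else 0

/-- The coefficients of `t ^ e`, `e ≤ d i`, in `f i (x + t v)`, where `x` is in the hyperplane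
`x a = 0` and `v` is a direction with `v a = 1`, `v j = 0` for `j ∉ S`, `j ≠ a`. -/
noncomputable def gg (f : ι → MvPolynomial σ R) (d : ι → ℕ) (S : Set σ) (a : σ) :
    (Σ i, Fin (d i + 1)) → MvPolynomial {j : σ // j ≠ a} (RV R S a) :=
  fun ie => (ln (f ie.1) (x0 R S a) (fun j => MvPolynomial.C (vR R S a j))).coeff ie.2

end Rings

section Instances

variable {k : Type} [Field k] {ι κ σ R A : Type} [CommRing R] [CommRing A] [Algebra k R]
  [Algebra k A]

lemma finiteType_mvp (k σ R : Type) [Field k] [CommRing R] [Algebra k R] [Algebra.FiniteType k R]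
    [Finite σ] : Algebra.FiniteType k (MvPolynomial σ R) :=
  Algebra.FiniteType.trans (S := R) inferInstance inferInstance

lemma finiteType_quo (k R : Type) [Field k] [CommRing R] [Algebra k R] [Algebra.FiniteType k R]
    (I : Ideal R) : Algebra.FiniteType k (R ⧸ I) :=
  Algebra.FiniteType.of_surjective (Ideal.Quotient.mkₐ k I) Ideal.Quotient.mk_surjective

instance finiteType_AR [Finite σ] [Algebra.FiniteType k R] (f : ι → MvPolynomial σ R) :
    Algebra.FiniteType k (AR f) :=
  have := finiteType_mvp k σ R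
  finiteType_quo k _ _

instance finiteType_BR [Finite σ] [Algebra.FiniteType k A] (G : κ → MvPolynomial σ A) (S : Set σ)
    (a : σ) : Algebra.FiniteType k (BR G S a) :=
  have := finiteType_mvp k σ A
  finiteType_quo k _ _

instance finiteType_RV [Finite σ] [Algebra.FiniteType k R] (S : Set σ) (a : σ) :
    Algebra.FiniteType k (RV R S a) :=
  have := finiteType_mvp k σ R
  finiteType_quo k _ _

end Instances

/-! ## 3. Solutions and the ideals `JJ` -/

section Sol

variable {κ σ A : Type} [CommRing A]

/-- The forms `G i` have a nonzero common zero over the algebraic closure of the residue field of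
`p`, with `v j = 0` for `j ∉ S`. -/
def SolAt (G : κ → MvPolynomial σ A) (S : Set σ) (p : PrimeSpectrum A) : Prop :=
  ∃ w : σ → AlgebraicClosure p.asIdeal.ResidueField, w ≠ 0 ∧ (∀ j, j ∉ S → w j = 0) ∧
    ∀ i, MvPolynomial.aeval w (G i) = 0

/-- The ideal of the `G i` and the variables `v j`, `j ∉ S`. -/
noncomputable def relS (G : κ → MvPolynomial σ A) (S : Set σ) : Ideal (MvPolynomial σ A) :=
  Ideal.span (MvPolynomial.X '' {j | j ∉ S} ∪ Set.range G)

/-- The elements `h` of `A` such that `h` times every monomial of degree `N` is in `relS G S`, for some `N`. -/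
noncomputable def JJ (G : κ → MvPolynomial σ A) (S : Set σ) : Ideal A where
  carrier := {h | ∃ N : ℕ, ∀ m : σ →₀ ℕ, N ≤ m.degree →
    MvPolynomial.monomial m h ∈ relS G S}
  zero_mem' := ⟨0, fun m _ => by simp⟩
  add_mem' := by
    rintro a b ⟨N, hN⟩ ⟨M, hM⟩
    refine ⟨max N M, fun m hm => ?_⟩
    rw [map_add]
    exact Ideal.add_mem _ (hN m (le_trans (le_max_left _ _) hm))
      (hM m (le_trans (le_max_right _ _) hm))
  smul_mem' := by
    rintro c a ⟨N, hN⟩
    refine ⟨N, fun m hm => ?_⟩
    have h : MvPolynomial.monomial m (c • a) =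
        MvPolynomial.C c * MvPolynomial.monomial m a := by
      rw [MvPolynomial.C_mul_monomial, smul_eq_mul]
    rw [h]
    exact Ideal.mul_mem_left _ _ (hN m hm)

lemma mem_JJ (G : κ → MvPolynomial σ A) (S : Set σ) (h : A) :
    h ∈ JJ G S ↔ ∃ N : ℕ, ∀ m : σ →₀ ℕ, N ≤ m.degree →
      MvPolynomial.monomial m h ∈ relS G S := Iff.rfl

end Sol

/-! ## 4. Finite homomorphisms outside a closed subset, degrees -/

section Fin

variable {k : Type} [Field k] {A B : Type} [CommRing A] [CommRing B] [Algebra k A] [Algebra k B]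

/-- `B` is a finite algebra over `A` outside the closed subset `V(J)`. -/
def FinOn (φ : A →ₐ[k] B) (J : Ideal A) : Prop :=
  ∀ h ∈ J, ∃ M : Finset B, ∀ b : B, ∃ (s : ℕ) (c : B → A), φ h ^ s * b = ∑ m ∈ M, φ (c m) * m

/-- The homomorphism from `A` to the residue field of the prime `q` of `B`. -/
noncomputable def rho (φ : A →ₐ[k] B) (q : PrimeSpectrum B) : A →+* q.asIdeal.ResidueField :=
  (algebraMap B q.asIdeal.ResidueField).comp φ.toRingHom

/-- The degree of the residue field of `q` over the residue field of its image. -/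
noncomputable def dg (φ : A →ₐ[k] B) (q : PrimeSpectrum B) : ℕ :=
  Module.finrank (Subfield.closure (Set.range (rho φ q))) q.asIdeal.ResidueField

end Fin

/-! ## 5. Numbers -/

/-- The number of the equations of degree `l` obtained from an equation of degree `d`: `0` if `d = 0`, and the binomial
coefficient `(l + d - 1 choose l)` if `d > 0`. -/
def cnt (l d : ℕ) : ℕ := if d = 0 then 0 else Nat.choose (l + d - 1) l

end LOWD


end

section

/-!
# LOWD: statements

Module `X` proves `theorem t_X : M_X` (or `t_X : S_X` if there is no `M_X`) in the namespace `LOWD`, in the file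
`Pool/Agent/LOWD/X.lean`, importing this file.  The hypotheses of `M_X` are statements of other modules; the statements `S_...` of `CUB`
which occur (`S_DIM1`, `S_DIM2`, `S_LENA`, `S_LENB`, `S_LENC`, `S_DVX`, `S_NORM`, `S_FIN`, ...) are proved in `Pool/Agent/CUB`.
Definitions: `rdim`, `RP`, `len`, `IsDv`, `rat` in `CUB/Defs.lean`; `IsNm` in `CUB/Defs3.lean`; `lC` in `CUB/StmtsR.lean`; `ln`, `AR`, `xx`, `GG`,
`BR`, `BRh`, `vB`, `RV`, `vR`, `x0`, `gg`, `SolAt`, `relS`, `JJ`, `FinOn`, `rho`, `dg`, `cnt` in `LOWD/Defs.lean`.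
-/

set_option autoImplicit false

open Polynomial

namespace LOWD

open CUB

/-! ## 1. Finite homomorphisms and norms -/

/-- LTH. Lengths over a subring. Let `Λ` be the set of the `D`-modules `M` (with the `C`-module structure given by `C → D`) of finite length over `D` such that `length_C M` is finite. CLAIM: for `M ∈ Λ` and every finite set `W` of maximal ideals of `D` which contains the support of `M`,
`length_C M = ∑_{q ∈ W} length_(D_q) (M_q) * length_C (D / q)`, where the terms with `M_q = 0` are interpreted as `0`. Induction on a composition series (`IsFiniteLength` of Mathlib is an inductive predicate: `M` has a submodule `N` with `M / N` simple and `N` of finite length): lengths over `C` and over `D_q` are additive (`Module.length_eq_add_of_exact`), localisation is exact, and for a simple module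
`M ≅ D / q₀`: `length_C M = length_C (D / q₀)`, `M_(q₀) ≅ D_(q₀) / q₀` has length one, `M_q = 0` for `q ≠ q₀` maximal (an element of `q₀` outside `q` acts as zero and invertibly). Apply the claim to `M = D / I` (`D / I` has finite length over `C`, hence over `D`, since `D`-submodules are `C`-submodules; all primes containing `I` are maximal); `len I q` is the length of `D_q / I D_q`, and
`D_q / I D_q ≅ (D / I)_q`. -/
def S_LTH : Prop := ∀ (C D : Type) [CommRing C] [CommRing D] [Algebra C D] (I : Ideal D),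
  Module.length C (D ⧸ I) ≠ ⊤ → ∀ W : Finset (PrimeSpectrum D),
  (∀ q : PrimeSpectrum D, q ∈ W ↔ (q.asIdeal.IsMaximal ∧ I ≤ q.asIdeal)) →
  lC C (D ⧸ I) = ∑ q ∈ W, len I q * lC C (D ⧸ q.asIdeal)

/-- DGL. `C` is local, `C → L` kills the maximal ideal, so its image is a subfield `K₀` of `L`. It contains `ρ(A)` and every element of it is a quotient of elements of `ρ(A)`, so `K₀ = Subfield.closure (range ρ)`. The length of the `C`-module `L` is its length over `C / m` (`Module.length_eq_of_surjective`), the dimension over `K₀` (`Module.length_eq_rank` or `length_eq_finrank`); if the dimension is infinite both sides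
are `0` (`toNat ⊤ = 0`, `finrank = 0`). -/
def S_DGL : Prop := ∀ (A C L : Type) [CommRing A] [CommRing C] [IsLocalRing C] [Field L]
  [Algebra A C] [Algebra C L] (ρ : A →+* L),
  (∀ a : A, ρ a = algebraMap C L (algebraMap A C a)) →
  (∀ x : C, ∃ a b : A, ρ b ≠ 0 ∧ algebraMap C L x * ρ b = ρ a) →
  (∀ x : C, x ∈ IsLocalRing.maximalIdeal C → algebraMap C L x = 0) →
  lC C L = Module.finrank (Subfield.closure (Set.range ρ)) L

/-- FLD. Residue fields of a finite homomorphism outside `V(J)`. `p = φ⁻¹(q)`, `h ∈ J ∖ p`, `M` the finite set given by `FinOn` for `h`. `L = κ(q)`, `F = Subfield.closure (range (rho φ q))`, which is the fraction field of `A / p` (every element of `F` is `ρ a / ρ b`: `Subfield.mem_closure_iff`, or closedness of the set of quotients). `ρ h ≠ 0`. For `b ∈ B`: `h^s b = ∑ φ(c_m) m`, so the image of `b` in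
`L` is in the `F`-span `V` of the (finite) image of `M`. So the `F`-span `B'` of the image of `B` is contained in `V`: a finite dimensional `F`-algebra and a domain (a subalgebra of `L`), so a field, and `L` is the fraction field of the image of `B`, so `L = B'` is finite over `F`. (1); (2) the dimension is not zero; (3) the transcendence degree of `A / p` over `k` is that of `F`, the one of `B / q` is that of `L`, and `L` is algebraic over
`F`; or directly: `A / p → B / q` is injective and every element of `B / q` is algebraic over `A / p`. (4) the norm of a nonzero element `x` to `F` is a nonzero element of `F`, so a quotient of elements of the image of `A`. -/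
def S_FLD : Prop := ∀ (k A B : Type) [Field k] [CommRing A] [CommRing B] [Algebra k A]
  [Algebra k B] (φ : A →ₐ[k] B) (J : Ideal A), FinOn φ J →
  ∀ q : PrimeSpectrum B, ¬ J ≤ (PrimeSpectrum.comap φ.toRingHom q).asIdeal →
  Module.Finite (Subfield.closure (Set.range (rho φ q))) q.asIdeal.ResidueField ∧
  dg φ q ≠ 0 ∧ rdim k (PrimeSpectrum.comap φ.toRingHom q) = rdim k q ∧
  ∀ x : q.asIdeal.ResidueField, x ≠ 0 → ∃ c d : A, IsNm (rho φ q) x c d

/-- FPD. Push-forward of a divisor. `P = φ⁻¹(Q)`, of dimension `n + 1` by S_FLD. `c, d ∉ P` since `IsNm` says `ρ c, ρ d ≠ 0` and the kernel of `ρ = rho φ Q` is `P`. If `P ⊄ p` both sides are `0` (S_LENC (2); if `q ∈ W` and `Q ⊆ q` then `P ⊆ p`). Let `P ⊆ p`, `T` the image of `A ∖ p` in `B / Q` (`P ⊆ p`, so `0 ∉ T`), `D` the localisation of `B / Q` at `T`, and `C` the localisation of `A / P` at the prime `p / P`: a Noetherian local domain,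
`C / x` has finite length for `x ≠ 0` (see the proof of S_LENC, `R_GREC.lean`, `R_NM.lean`: dimension one). `C → D` is injective and `D` is finite over `C`: for `h ∈ J ∖ p`, `h` is a unit in `C`, so `FinOn` gives generators. The fraction fields are `F = Subfield.closure (range ρ)` and `L = κ(Q)`, `L` finite over `F` (S_FLD). S_NORM for `C → D`, `x` = image of `b`, gives `length_C (D / b) + length_C (C / d) = length_C (C / c)`.
All lengths are finite. S_LTH for `I = (b)`: `length_C (D / b) = ∑_m len (b) m * length_C (D / m)`, the sum over the maximal ideals `m` of `D` containing `b`. Maximal ideals of `D` lie over the maximal ideal of `C` (integral), and the primes of `D` over the maximal ideal of `C` are maximal and correspond to the primes `q` of `B` with `q ⊇ Q`, `φ⁻¹(q) = p`; they have dimension `n` by S_FLD. `len (b) m = len (Q ⊔ (b)) q` (S_LENA for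
`B → B / Q`, S_LENB for the localisation `B / Q → D`, as in `R_GREC.lean`), `length_C (D / m) = dg φ q`: `D / m` is a field, isomorphic to `κ(q)` over `B` (both are generated as fields by the image of `B`, with kernel `q`), use S_DGL for `A → C → D / m`. `length_C (C / c) = len (P ⊔ (c)) p` by S_LENA, S_LENB (`C` is its own localisation at its maximal ideal). The terms of the sum over `W` with `q ⊉ Q` or `b ∉ q` are zero (S_LENC (2)). -/
def S_FPD : Prop := ∀ (k A B : Type) [Field k] [CommRing A] [CommRing B] [Algebra k A]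
  [Algebra k B] [Algebra.FiniteType k A] [Algebra.FiniteType k B] (φ : A →ₐ[k] B) (J : Ideal A),
  FinOn φ J → ∀ (n : ℕ) (Q : RP k B (n + 1)) (b : B) (c d : A), b ∉ Q.1.asIdeal →
  ¬ J ≤ (PrimeSpectrum.comap φ.toRingHom Q.1).asIdeal →
  IsNm (rho φ Q.1) (algebraMap B Q.1.asIdeal.ResidueField b) c d →
  ∀ p : RP k A n, ¬ J ≤ p.1.asIdeal → ∀ W : Finset (RP k B n),
  (∀ q ∈ W, PrimeSpectrum.comap φ.toRingHom q.1 = p.1) →
  (∀ q : RP k B n, PrimeSpectrum.comap φ.toRingHom q.1 = p.1 → Q.1.asIdeal ≤ q.1.asIdeal →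
    b ∈ q.1.asIdeal → q ∈ W) →
  ∑ q ∈ W, len (Q.1.asIdeal ⊔ Ideal.span {b}) q.1 * dg φ q.1 +
    len ((PrimeSpectrum.comap φ.toRingHom Q.1).asIdeal ⊔ Ideal.span {d}) p.1 =
    len ((PrimeSpectrum.comap φ.toRingHom Q.1).asIdeal ⊔ Ideal.span {c}) p.1

def M_FPD : Prop := S_DIM1 → S_DIM2 → S_LENA → S_LENB → S_LENC → S_NORM → S_LTH → S_DGL → S_FLD →
  S_FPD

open Classical in
/-- FPR. Push-forward of rational equivalences outside `V(J)`. The set of `z'` with the property is a subspace (linearity: `Finsupp.sum`), so let `z'` be the divisor of `b` on `V(Q)`. If `J ⊆ φ⁻¹(Q)` take `z = 0`: if `z' q ≠ 0` then `Q ⊆ q` (S_LENC (2)), so `J ⊆ φ⁻¹(q)`. Otherwise choose `c, d` with `IsNm` (S_FLD (4), `x` = image of `b`), `P = φ⁻¹(Q)` has dimension `n + 1` (S_FLD (3)), `c, d ∉ P`, let `z` be the divisor of `c` minus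
the divisor of `d` on `V(P)` (S_DVX). S_FPD with `W` = the `q` in the support of `z'` with `φ⁻¹(q) = p` (if `Q ⊆ q`, `b ∈ q` then `z' q ≠ 0` by S_LENC (3) since the characteristic of `E` is zero). -/
def S_FPR : Prop := ∀ (k A B E : Type) [Field k] [CommRing A] [CommRing B] [Algebra k A]
  [Algebra k B] [Algebra.FiniteType k A] [Algebra.FiniteType k B] [Field E] [CharZero E]
  (φ : A →ₐ[k] B) (J : Ideal A), FinOn φ J → ∀ (n : ℕ) (z' : RP k B n →₀ E), z' ∈ rat k B E n →
  ∃ z ∈ rat k A E n, ∀ p : RP k A n, ¬ J ≤ p.1.asIdeal →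
    z p = z'.sum (fun q e => if PrimeSpectrum.comap φ.toRingHom q.1 = p.1 then (dg φ q.1 : E) * e
      else 0)

def M_FPR : Prop := S_LENC → S_DVX → S_FLD → S_FPD → S_FPR

/-! ## 2. Zero-cycles -/

/-- CLF. Finiteness of the class group. Noether normalisation (`exists_integral_inj_algHom_of_fg`): an injective integral homomorphism `MvPolynomial (Fin s) k → B`; `s = trdeg k B = 1`, so an injective integral homomorphism `k[X] → B`. `B` is a finite module over `k[X]` (integral and of finite type), without torsion, so free. `k[X]` is a Euclidean domain with the admissible absolute value `Polynomial.cardPowDegree` (`Polynomial.cardPowDegreeIsAdmissible`), and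
`ClassGroup.fintypeOfAdmissibleOfAlgebraic` (or `ClassGroup.mkMMem_surjective`) applies: no separability is needed there. -/
def S_CLF : Prop := ∀ (k B : Type) [Field k] [Finite k] [CommRing B] [IsDedekindDomain B]
  [Algebra k B] [Algebra.FiniteType k B], Algebra.trdeg k B = 1 → Finite (ClassGroup B)

/-- CLG. Points on curves over a finite field are torsion. `D = A / q`, `K` its fraction field, `B` the integral closure of `D` in `K`, finite over `D` by S_FIN (a finite field is perfect), `φ : A → B`; so `FinOn φ ⊤` (`B` is a finite `A`-module) and `B` is of finite type over `k`. `0 ∈ RP k B 1` by S_FLD (3) (`φ⁻¹(0) = q`). `B` is a Dedekind domain: Noetherian, integrally closed, nonzero primes are maximal (S_DIM1: dimension zero, and a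
larger prime would have negative dimension). Let `P'` be a prime of `B` over `p` (lying over, `B` is integral over `D`), of dimension zero. By S_CLF some power `P' ^ h`, `h > 0`, is principal, generated by `b ≠ 0`. Let `c` be the divisor of `b` on `V(0)` (S_DVX): if `c P'' ≠ 0` then `b ∈ P''` (S_LENC (2)), so `P' ⊆ P''` and `P'' = P'` (S_DIM1), and `c P' ≠ 0` by S_LENC (3) and `CharZero E`. So `c = c(P') [P']` is in `rat`, and S_FPR for `J = ⊤`
gives `dg φ P' * c(P') [p] ∈ rat`, with `dg φ P' ≠ 0` (S_FLD). -/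
def S_CLG : Prop := ∀ (k A E : Type) [Field k] [Finite k] [CommRing A] [Algebra k A]
  [Algebra.FiniteType k A] [Field E] [CharZero E] (q : RP k A 1) (p : RP k A 0),
  q.1.asIdeal ≤ p.1.asIdeal → Finsupp.single p (1 : E) ∈ rat k A E 0

def M_CLG : Prop := S_DIM1 → S_LENC → S_DVX → S_FIN → S_FLD → S_FPR → S_CLF → S_CLG

/-- HTM. Krull. The height of a maximal ideal of `K[σ]` is the number `s` of variables (`Polynomial.height_eq_height_add_one` and induction, or S_DIM2 over the field `K` and chains: `trdeg K[σ] = s`). If there is no such `q` then `m` is a minimal prime over the ideal generated by the `F i`, so its height is at most `|κ| < s` (`Ideal.height_le_card_of_mem_minimalPrimes_span` or similar). -/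
def S_HTM : Prop := ∀ (K σ κ : Type) [Field K] [Fintype σ] [Fintype κ]
  (F : κ → MvPolynomial σ K) (m : Ideal (MvPolynomial σ K)), m.IsMaximal → (∀ i, F i ∈ m) →
  Fintype.card κ < Fintype.card σ →
  ∃ q : Ideal (MvPolynomial σ K), q.IsPrime ∧ q < m ∧ ∀ i, F i ∈ q

/-- ZER. Zero-cycles. It is enough to treat `[p]` for `p ∈ RP k (AR f) 0`. Let `P` be the preimage of `p` in `R[σ]`, `m = P ∩ R`. `R / m ⊆ R[σ] / P` are algebraic over `k` (transcendence degree zero), so fields; `K = R / m`. The image `P'` of `P` in `K[σ]` is a maximal ideal (`K[σ] / P' = R[σ] / P`). For `i ∉ S` the image of `f i = C c` in `K[σ]` is zero since `c ∈ m`. S_HTM for the images of the `f i`, `i ∈ S`, gives a prime `Q' < P'` containing the images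
of all `f i`; its preimage in `R[σ]` contains all `f i` and is strictly contained in `P`; let `q₀ < p` be its image, a prime of `AR f`. The ring is Noetherian, so there is a maximal element `q` among the primes with `q₀ ≤ q < p`; it is covered by `p`, so its dimension is `1` by S_DIM2. S_CLG. -/
def S_ZER : Prop := ∀ (k R E σ ι : Type) [Field k] [Finite k] [CommRing R] [Algebra k R]
  [Algebra.FiniteType k R] [Field E] [CharZero E] [Fintype σ] [Fintype ι]
  (f : ι → MvPolynomial σ R) (S : Finset ι), (∀ i, i ∉ S → ∃ c : R, f i = MvPolynomial.C c) →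
  S.card < Fintype.card σ → ∀ c : RP k (AR f) 0 →₀ E, c ∈ rat k (AR f) E 0

def M_ZER : Prop := S_DIM1 → S_DIM2 → S_HTM → S_CLG → S_ZER

/-! ## 3. Forms -/

/-- KRU. `K = κ(p)`, `F i ∈ K[σ]` the image of `G i`. `m` = the ideal of the polynomials vanishing at the origin, a maximal ideal, the ideal generated by the variables; `F i ∈ m` since `F i` is homogeneous of positive degree. S_HTM: a prime `q < m` containing all `F i`. Some variable `X j` is not in `q`. By the Nullstellensatz (`MvPolynomial.IsPrime.vanishingIdeal_zeroLocus` for the field extension `AlgebraicClosure K` of `K`; it is stated for an extension `K` of `k`)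
there is a zero `w` of `q` with `w j ≠ 0`. -/
def S_KRU : Prop := ∀ (A σ κ : Type) [CommRing A] [Fintype σ] [Fintype κ]
  (G : κ → MvPolynomial σ A) (e : κ → ℕ), (∀ i, (G i).IsHomogeneous (e i)) → (∀ i, 0 < e i) →
  Fintype.card κ < Fintype.card σ → ∀ p : PrimeSpectrum A, SolAt G Set.univ p

def M_KRU : Prop := S_HTM → S_KRU

/-- NUL. Let there be no nonzero solution at `p`. `K = κ(p)`, `K' = AlgebraicClosure K`, `I` the ideal of `K[σ]` generated by the images `F i` of the `G i` and the `X j`, `j ∉ S`. Its zeros over `K'` are contained in `{0}`, so by the Nullstellensatz (`MvPolynomial.vanishingIdeal_zeroLocus_eq_radical`) a power of every variable is in `I`, and all monomials of degree `≥ N` are in `I` for some `N` (for instance `N = ∑ N_j`). Let `B' = A[σ] / relS G S`, `θ : A[σ] → B'[T]` the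
homomorphism `X j ↦ x_j T`, `x_j` the class of `X j`. As `G i` is homogeneous, `θ(G i) = G i(x) T^(e i) = 0`, `θ(X j) = 0` for `j ∉ S`, so `θ` is zero on `relS G S`. Let `m` be a monomial of degree `N`. It is in `I`; clear denominators (elements of `K` are quotients of elements of `A / p`): there is `s ∉ p` and `s m ∈ relS G S + p A[σ]`. Write `s m = r + ∑_u π_u u`, a sum over monomials `u` with `π_u ∈ p`. The coefficient of `T^N` in `θ` of it:
`s m = ∑_{deg u = N} π_u u` in `B'`. So there is `s ∉ p` with `s W ⊆ p W`, where `W` is the (finitely generated) `A`-submodule of `B'` generated by the monomials of degree `N` (take the product of the `s` for the finitely many monomials). Cayley-Hamilton (determinant trick) for multiplication by `s` on `W` (`LinearMap.exists_monic_and_coeff_mem_pow_and_aeval_eq_zero_of_range_le_smul`, or Nakayama over the localisation `A_p`, or over `A[1/s]`): there is `h ∈ s^r + p`, so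
`h ∉ p`, with `h W = 0`. So `monomial m h ∈ relS G S` for all `m` of degree `N`, and hence for all `m` of degree `≥ N`: `h ∈ JJ G S`, `h ∉ p`. -/
def S_NUL : Prop := ∀ (A σ κ : Type) [CommRing A] [Fintype σ]
  (G : κ → MvPolynomial σ A) (e : κ → ℕ), (∀ i, (G i).IsHomogeneous (e i)) → ∀ (S : Set σ)
  (p : PrimeSpectrum A), ¬ SolAt G S p → ¬ JJ G S ≤ p.asIdeal

/-- FNT. `v j` = the class of `X j` in `BR G S a` (`vB G S a j`): `v a = 1`, `v j = 0` for `j ∉ S`, `j ≠ a`. `θ : A[σ] → (BR G S a)[T]`, `X j ↦ (v j) T`. `θ(G i) = G i(v) T^(e i) = 0`, `θ(X j) = 0` for `j ∉ S`, `j ≠ a`, `θ(X a) = T`. So every element of `θ(relS G S)` is `T * θ(F)` for some `F ∈ A[σ]` (span induction, or: `relS G S` is generated by `X a`, and elements in the kernel). For a monomial `m` the element `θ(monomial m c)` is `c v^m T^|m|`, so the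
coefficient of `T^D` in `θ(F)` is in the `A`-span `V_D` of the `v^m` with `|m| = D`. Let `h ∈ JJ G S`, with `N ≥ 1` as in the definition. For `|m| = D ≥ N`: `h v^m` is the coefficient of `T^D` in `θ(monomial m h) = T θ(F)`, so `h v^m ∈ V_(D - 1)`. By induction on `D`: for all `m` there is `s` with `h^s v^m ∈ V_0 + ... + V_(N - 1)`, the span of finitely many elements `M`. Every element of `BR G S a` is an `A`-linear combination of the `v^m`. -/
def S_FNT : Prop := ∀ (k A σ κ : Type) [Field k] [CommRing A] [Algebra k A] [Fintype σ]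
  (G : κ → MvPolynomial σ A) (e : κ → ℕ), (∀ i, (G i).IsHomogeneous (e i)) → ∀ (S : Set σ)
  (a : σ), a ∉ S → FinOn (BRh k G S a) (JJ G S)

/-- PTQ. Let `w` be a solution for `insert a S`. `w a ≠ 0`, otherwise it is a solution for `S`. Replace `w` by `w / w a` (the `G i` are homogeneous), so `w a = 1`. The homomorphism `A[σ] → K' = AlgebraicClosure κ(p)`, `X j ↦ w j`, factors through `ψ : BR G S a → K'`; `q` = its kernel. The preimage of `q` in `A` is the kernel of `A → κ(p) → K'`, which is `p`. `BR G S a / q` embeds in `K'`, which is algebraic over `A / p`; so the transcendence degrees of `A / p` and of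
`BR G S a / q` over `k` agree. -/
def S_PTQ : Prop := ∀ (k A σ κ : Type) [Field k] [CommRing A] [Algebra k A]
  (G : κ → MvPolynomial σ A) (e : κ → ℕ), (∀ i, (G i).IsHomogeneous (e i)) → ∀ (S : Set σ)
  (a : σ), a ∉ S → ∀ (n : ℕ) (p : RP k A n), SolAt G (insert a S) p.1 → ¬ SolAt G S p.1 →
  ∃ q : RP k (BR G S a) n, PrimeSpectrum.comap (BRh k G S a).toRingHom q.1 = p.1

/-! ## 4. The equations of lines -/

/-- HOM. The coefficient of `t ^ e` in `ln f (C x) X` is homogeneous of degree `e` (as a polynomial in the variables `v j = X j`): the set of `g` in `R[σ]` for which this holds for all `e` contains constants (`e = 0` and coefficient `C r`, zero for `e > 0`), is closed under sums, and under multiplication by a variable: `(C (x j) + X j t) * ∑ a_e t^e` has coefficients `C (x j) a_e + X j a_(e-1)` — so it is better to use the set of polynomials in `t` whose coefficient at `t^e` is homogeneous of degree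
`e` for all `e`: it is closed under sums and products, and contains `C (x j) + X j t` and the constants. -/
def S_HOM : Prop := ∀ (ι σ R : Type) [CommRing R] (f : ι → MvPolynomial σ R) (d : ι → ℕ)
  (ie : Σ i, Fin (d i)), (GG f d ie).IsHomogeneous (ie.2 + 1)

/-- DEG. Call `F ∈ R'[x'][t]` of size `≤ D` if for all `e` the coefficient of `t^e` is zero or `e + totalDegree (coefficient) ≤ D`. Sums: maximum; products: the sizes add; `x0 j + v j t` has size `≤ 1`, constants size `≤ 0`; so a monomial `c ∏ (x0 j + v j t)^(m j)` has size `≤ ∑ m j`, and `ln f ..` has size `≤ totalDegree f`. -/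
def S_DEG : Prop := ∀ (ι σ R : Type) [CommRing R] (f : ι → MvPolynomial σ R) (d : ι → ℕ)
  (S : Set σ) (a : σ), (∀ i, (f i).totalDegree ≤ d i) → ∀ ie : Σ i, Fin (d i + 1),
  (gg f d S a ie).totalDegree ≤ d ie.1 - ie.2

/-- SUB. The substitution `x = x' + y v`, where `x' a = 0`, `y = x a`. `B = BR (GG f d) S a` is the ring of pairs `(x, v)`, `v ∈ RV`, such that all coefficients of `f i (x + t v)` vanish: in `B[t]` we have `ln (f i) x v = 0` (coefficient `0` is `f i(x) = 0` by `ln_coeff_zero`, coefficients `1, ..., d i` are the relations, use `ln_map`, and the others vanish by `ln_coeff_eq_zero`). `C' = AR (gg f d S a)`, in which `ln (f i) x' v = 0` in `C'[t]` (the same; `x' a = 0`). Homomorphisms (of `R`-algebras): `Φ : B → C'[X]`: on `AR f`: `x j ↦ x' j + v j X`; well defined because `f i (x' + X v)`, an element of `C'[X]`, is `ln (f i) x' v = 0`;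
`v j ↦ v j`; the relation: the coefficients (with respect to `t`) of `ln (f i) (x' + X v) v`, which is `(ln (f i) x' v).comp (t + X)` by `ln_shift`, vanish (coefficients in `C'[X]`, use `ln_map` for `C' → C'[X]`). `Ψ : C'[X] → B`: `v j ↦ v j` (`RV → B`), `x' j ↦ x j - x a * v j` (`j ≠ a`; this is `0` for `j = a`, as `v a = 1`), well defined because `ln (f i) (x - x a v) v = (ln (f i) x v).comp (t - x a) = 0` in `B[t]`; `X ↦ x a`. `Φ ∘ Ψ` and `Ψ ∘ Φ` are the identity on generators: `x' j ↦ x j - x a v j ↦ x' j + v j X - (x' a + v a X) v j = x' j`;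
`X ↦ x a ↦ x' a + v a X = X`; `x j ↦ x' j + v j X ↦ x j - x a v j + v j x a = x j`. Restrict scalars to `k`. -/
def S_SUB : Prop := ∀ (k R ι σ : Type) [Field k] [CommRing R] [Algebra k R]
  (f : ι → MvPolynomial σ R) (d : ι → ℕ) (S : Set σ) (a : σ), (∀ i, (f i).totalDegree ≤ d i) →
  Nonempty (BR (GG f d) S a ≃ₐ[k] (AR (gg f d S a))[X])

/-- CNT. (1) `∑_{m = 1}^{d} (l + m - 1 choose l) = (l + d choose l + 1)` (hockey stick, `Nat.sum_range_choose_...` or induction on `d` with `Fin.sum_univ_succ`); for `d = 0` both sides are `0`. (2) `(l + d choose l + 1) = (l + d choose d - 1) ≥ d` for `d ≥ 1`. (3) Pascal. -/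
def S_CNT : Prop := (∀ l d : ℕ, ∑ e : Fin (d + 1), cnt l (d - e) = cnt (l + 1) d) ∧
  (∀ l d : ℕ, d ≤ cnt (l + 1) d) ∧ (∀ l d : ℕ, cnt l d ≤ cnt (l + 1) d)

/-! ## 5. The theorem -/

/-- The theorem in dimension `l`. -/
def LowR (l : ℕ) : Prop := ∀ (k R E σ ι : Type) [Field k] [Finite k] [CommRing R] [Algebra k R]
  [Algebra.FiniteType k R] [Field E] [CharZero E] [Fintype σ] [Fintype ι]
  (f : ι → MvPolynomial σ R) (d : ι → ℕ), (∀ i, (f i).totalDegree ≤ d i) →
  l + ∑ i, cnt l (d i) < Fintype.card σ → ∀ c : RP k (AR f) l →₀ E, c ∈ rat k (AR f) E l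

/-- CB. By S_SUB, S_PCO (3) (isomorphisms preserve `rat`; push-forward along an isomorphism is surjective) it is enough to treat the ring `C'[X]`, `C' = AR (gg f d S a)`. `C'` is of the form of the theorem: base ring `RV R S a`, variables `{j // j ≠ a}` (their number is `|σ| - 1`), equations `gg f d S a` with degrees `≤ d i - e` (S_DEG), and `l + ∑_(i, e) cnt l (d i - e) = l + ∑_i cnt (l + 1) (d i) < |σ| - 1` (S_CNT (1), `Fintype.sum_sigma`). So all cycles of dimension `l` on `C'` are in `rat`. By S_L0 (1) a cycle of dimension `l + 1` on `C'[X]` is, modulo `rat`, the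
pull-back of a cycle of dimension `l` on `C'`, which is in `rat`, so its pull-back is (S_FP with `I = ⊥`, S_GX (1)). -/
def S_CB : Prop := ∀ l : ℕ, LowR l → ∀ (k R E σ ι : Type) [Field k] [Finite k] [CommRing R]
  [Algebra k R] [Algebra.FiniteType k R] [Field E] [CharZero E] [Fintype σ] [Fintype ι]
  (f : ι → MvPolynomial σ R) (d : ι → ℕ), (∀ i, (f i).totalDegree ≤ d i) →
  l + 1 + ∑ i, cnt (l + 1) (d i) < Fintype.card σ → ∀ (S : Set σ) (a : σ)
  (c : RP k (BR (GG f d) S a) (l + 1) →₀ E), c ∈ rat k (BR (GG f d) S a) E (l + 1)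

def M_CB : Prop := S_PCO → S_PLIN → S_L0 → S_GX → S_FP → S_SUB → S_DEG → S_CNT → S_CB

/-- STP. `LowR l` implies `LowR (l + 1)`. `A = AR f`, `G = GG f d` (homogeneous of degrees `e + 1 > 0` by S_HOM). CLAIM: for every `S ⊆ σ` and `p ∈ RP k A (l + 1)` with `SolAt G S p` we have `[p] ∈ rat`. Induction on the finite set `S`. `S = ∅`: there is no nonzero solution. `insert a S`, `a ∉ S`: if `SolAt G S p` use the claim for `S`. Otherwise S_PTQ gives `q ∈ RP k (BR G S a) (l + 1)` over `p`, and `J = JJ G S` is not contained in `p` by S_NUL. `[q] ∈ rat` by S_CB. `FinOn (BRh k G S a) J` by S_FNT. S_FPR for `z' = [q]`: `z ∈ rat` with `z p = dg q` and `z p' = 0` for `p' ≠ p`, `J ⊄ p'`.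
So `z - dg q [p]` is a combination of the `[p']` with `J ⊆ p'`, which satisfy `SolAt G S p'` by S_NUL, so they are in `rat`. `dg q ≠ 0` by S_FLD. Finally every `p` satisfies `SolAt G Set.univ p` by S_KRU: the number of the forms is `∑ d i ≤ ∑ cnt (l + 1) (d i) < |σ|` (S_CNT (2)). -/
def S_STP : Prop := ∀ l : ℕ, LowR l → LowR (l + 1)

def M_STP : Prop := S_FLD → S_FPR → S_KRU → S_NUL → S_FNT → S_PTQ → S_HOM → S_CNT → S_CB → S_STP

/-- ALL. `LowR 0`: S_ZER with `S = {i | d i ≠ 0}`: `cnt 0 d = 1` for `d ≠ 0`; `totalDegree (f i) = 0` implies that `f i` is constant. Induction by S_STP; if `j ≤ l` the condition for `l` implies the one for `j` (S_CNT (3)). -/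
def S_ALL : Prop := ∀ (k R E σ ι : Type) [Field k] [Finite k] [CommRing R] [Algebra k R]
  [Algebra.FiniteType k R] [Field E] [CharZero E] [Fintype σ] [Fintype ι]
  (f : ι → MvPolynomial σ R) (d : ι → ℕ), (∀ i, (f i).totalDegree ≤ d i) → ∀ l : ℕ,
  l + ∑ i, cnt l (d i) < Fintype.card σ → ∀ j ≤ l, ∀ c : RP k (AR f) j →₀ E,
  c ∈ rat k (AR f) E j

def M_ALL : Prop := S_ZER → S_STP → S_CNT → S_ALL

end LOWD


end

section

/-!
# LOWD, module CLF: the class group of a curve over a finite field is finite
-/

set_option autoImplicit false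

open Polynomial

namespace LOWD

namespace CLF

/-- The class group is finite if the ring is a finite module over the polynomial ring. -/
theorem fin_of_poly (k B : Type) [Field k] [Finite k] [CommRing B] [IsDedekindDomain B]
    [Algebra k B] (φ : k[X] →ₐ[k] B) (hi : Function.Injective φ) (hf : φ.Finite) :
    Finite (ClassGroup B) := by
  classical
  let _ : Fintype k := Fintype.ofFinite k
  let _ : Algebra k[X] B := φ.toRingHom.toAlgebra
  have : Module.Finite k[X] B := hf
  have : FaithfulSMul k[X] B := (faithfulSMul_iff_algebraMap_injective k[X] B).mpr hi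
  have : Module.IsTorsionFree k[X] B := inferInstance
  have : Module.Free k[X] B := Module.free_of_finite_type_torsion_free'
  have : Algebra.IsIntegral k[X] B := Algebra.IsIntegral.of_finite k[X] B
  have : Algebra.IsAlgebraic k[X] B := Algebra.IsIntegral.isAlgebraic
  exact @Finite.of_fintype _ (ClassGroup.fintypeOfAdmissibleOfAlgebraic
    (Module.Free.chooseBasis k[X] B) (Polynomial.cardPowDegreeIsAdmissible :
      AbsoluteValue.IsAdmissible (Polynomial.cardPowDegree : AbsoluteValue k[X] ℤ)))

end CLF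

theorem t_CLF : S_CLF := by
  intro k B _ _ _ _ _ _ ht
  obtain ⟨s, g, hi, hf⟩ := exists_finite_inj_algHom_of_fg k B
  have hs : s = 1 := by
    let _ : Algebra (MvPolynomial (Fin s) k) B := g.toRingHom.toAlgebra
    have : IsScalarTower k (MvPolynomial (Fin s) k) B := IsScalarTower.of_algebraMap_eq fun x =>
      (g.commutes x).symm
    have : Module.Finite (MvPolynomial (Fin s) k) B := hf
    have : FaithfulSMul (MvPolynomial (Fin s) k) B :=
      (faithfulSMul_iff_algebraMap_injective _ _).mpr hi
    have : Algebra.IsIntegral (MvPolynomial (Fin s) k) B := Algebra.IsIntegral.of_finite _ _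
    have : Algebra.IsAlgebraic (MvPolynomial (Fin s) k) B := Algebra.IsIntegral.isAlgebraic
    have h1 := trdeg_add_eq k (MvPolynomial (Fin s) k) (A := B)
    rw [MvPolynomial.trdeg_of_isDomain, trdeg_eq_zero, ht, add_zero] at h1
    simpa using h1
  subst hs
  let e : MvPolynomial (Fin 1) k ≃ₐ[k] k[X] :=
    MvPolynomial.uniqueAlgEquiv k (Fin 1)
  refine CLF.fin_of_poly k B (g.comp e.symm.toAlgHom) ?_ ?_
  · exact hi.comp e.symm.injective
  · have h2 : (e.symm : k[X] →+* MvPolynomial (Fin 1) k).Finite :=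
      RingHom.Finite.of_surjective _ e.symm.surjective
    exact RingHom.Finite.comp hf h2

end LOWD


end

section

/-!
# LOWD, module DEG

The coefficient of `t ^ e` in `f (x + t v)`, as a polynomial in the coordinates `x`, has total
degree at most `deg f - e`.
-/

set_option autoImplicit false

open Polynomial

namespace LOWD

namespace DEG

variable {τ R' : Type} [CommRing R']

/-- All monomials `x ^ m t ^ e` of `F` satisfy `e + |m| ≤ D`. -/
def Sz (D : ℕ) (F : (MvPolynomial τ R')[X]) : Prop :=
  ∀ (e : ℕ) (m : τ →₀ ℕ), MvPolynomial.coeff m (F.coeff e) ≠ 0 → e + m.degree ≤ D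

lemma Sz.mono {D D' : ℕ} {F : (MvPolynomial τ R')[X]} (h : Sz D F) (hD : D ≤ D') : Sz D' F :=
  fun e m hm => (h e m hm).trans hD

lemma Sz.zero (D : ℕ) : Sz D (0 : (MvPolynomial τ R')[X]) := by
  intro e m hm
  simp at hm

lemma Sz.add {D : ℕ} {F G : (MvPolynomial τ R')[X]} (hF : Sz D F) (hG : Sz D G) :
    Sz D (F + G) := by
  intro e m hm
  rw [coeff_add, MvPolynomial.coeff_add] at hm
  by_cases h : MvPolynomial.coeff m (F.coeff e) = 0
  · rw [h, zero_add] at hm
    exact hG e m hm
  · exact hF e m h

lemma Sz.sum {D : ℕ} {α : Type} (s : Finset α) (F : α → (MvPolynomial τ R')[X])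
    (h : ∀ i ∈ s, Sz D (F i)) : Sz D (∑ i ∈ s, F i) := by
  classical
  induction s using Finset.induction_on with
  | empty => simpa using Sz.zero D
  | insert i s hi ih =>
    rw [Finset.sum_insert hi]
    exact (h i (Finset.mem_insert_self i s)).add
      (ih fun j hj => h j (Finset.mem_insert_of_mem hj))

lemma Sz.mul {D E : ℕ} {F G : (MvPolynomial τ R')[X]} (hF : Sz D F) (hG : Sz E G) :
    Sz (D + E) (F * G) := by
  classical
  intro e m hm
  rw [coeff_mul, MvPolynomial.coeff_sum] at hm
  obtain ⟨p, hp, h1⟩ := Finset.exists_ne_zero_of_sum_ne_zero hm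
  rw [MvPolynomial.coeff_mul] at h1
  obtain ⟨q, hq, h2⟩ := Finset.exists_ne_zero_of_sum_ne_zero h1
  have h3 := hF p.1 q.1 (left_ne_zero_of_mul h2)
  have h4 := hG p.2 q.2 (right_ne_zero_of_mul h2)
  rw [Finset.HasAntidiagonal.mem_antidiagonal] at hp hq
  have h5 : m.degree = q.1.degree + q.2.degree := by
    rw [← hq, map_add]
  omega

lemma Sz.one : Sz 0 (1 : (MvPolynomial τ R')[X]) := by
  classical
  intro e m hm
  rw [coeff_one] at hm
  split_ifs at hm with h
  · rw [MvPolynomial.coeff_one] at hm
    split_ifs at hm with h'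
    · subst h
      subst h'
      simp
    · exact absurd rfl hm
  · simp at hm

lemma Sz.pow {D : ℕ} {F : (MvPolynomial τ R')[X]} (hF : Sz D F) (n : ℕ) :
    Sz (n * D) (F ^ n) := by
  induction n with
  | zero => simpa using Sz.one
  | succ n ih =>
    rw [pow_succ]
    exact (ih.mul hF).mono (by rw [Nat.succ_mul])

lemma Sz.prod {α : Type} (s : Finset α) (F : α → (MvPolynomial τ R')[X]) (D : α → ℕ)
    (h : ∀ i ∈ s, Sz (D i) (F i)) : Sz (∑ i ∈ s, D i) (∏ i ∈ s, F i) := by
  classical
  induction s using Finset.induction_on with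
  | empty => simpa using Sz.one
  | insert i s hi ih =>
    rw [Finset.sum_insert hi, Finset.prod_insert hi]
    exact (h i (Finset.mem_insert_self i s)).mul
      (ih fun j hj => h j (Finset.mem_insert_of_mem hj))

lemma Sz.const (c : R') : Sz 0 (C (MvPolynomial.C c) : (MvPolynomial τ R')[X]) := by
  classical
  intro e m hm
  rw [coeff_C] at hm
  split_ifs at hm with h
  · rw [MvPolynomial.coeff_C] at hm
    split_ifs at hm with h'
    · subst h
      subst h'
      simp
    · exact absurd rfl hm
  · simp at hm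

lemma Sz.var (j : τ) : Sz 1 (C (MvPolynomial.X j) : (MvPolynomial τ R')[X]) := by
  classical
  intro e m hm
  rw [coeff_C] at hm
  split_ifs at hm with h
  · rw [MvPolynomial.coeff_X] at hm
    split_ifs at hm with h'
    · subst h
      subst h'
      simp
    · exact absurd rfl hm
  · simp at hm

lemma Sz.t : Sz 1 (X : (MvPolynomial τ R')[X]) := by
  classical
  intro e m hm
  rw [coeff_X] at hm
  split_ifs at hm with h
  · rw [MvPolynomial.coeff_one] at hm
    split_ifs at hm with h'
    · subst h
      subst h'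
      simp
    · exact absurd rfl hm
  · simp at hm

/-- The total degree of the coefficients. -/
lemma Sz.totalDegree_le {D : ℕ} {F : (MvPolynomial τ R')[X]} (h : Sz D F) (e : ℕ) :
    (F.coeff e).totalDegree ≤ D - e := by
  rw [MvPolynomial.totalDegree]
  refine Finset.sup_le fun m hm => ?_
  have h1 := h e m (MvPolynomial.mem_support_iff.mp hm)
  have h2 : (m.sum fun _ n => n) = m.degree := by
    rfl
  omega

variable {σ R : Type} [CommRing R] [Algebra R R']

/-- `ln f x v` has size at most the total degree of `f`, if the `x j` have degree at most `1` and the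
`v j` are constants. -/
lemma sz_ln (f : MvPolynomial σ R) (x : σ → MvPolynomial τ R') (v : σ → R')
    (hx : ∀ j, Sz 1 (C (x j))) :
    Sz f.totalDegree (ln f x (fun j => MvPolynomial.C (v j))) := by
  unfold ln
  rw [MvPolynomial.aeval_def, MvPolynomial.eval₂_eq]
  refine Sz.sum _ _ fun m hm => ?_
  have h1 : Sz 0 (algebraMap R (MvPolynomial τ R')[X] (MvPolynomial.coeff m f)) := by
    rw [Polynomial.algebraMap_apply, MvPolynomial.algebraMap_apply]
    exact Sz.const _
  have h2 : Sz (∑ i ∈ m.support, m i) (∏ i ∈ m.support,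
      (C (x i) + C (MvPolynomial.C (v i)) * X : (MvPolynomial τ R')[X]) ^ m i) := by
    refine Sz.prod _ _ _ fun i _ => ?_
    have h3 : Sz 1 (C (x i) + C (MvPolynomial.C (v i)) * X : (MvPolynomial τ R')[X]) :=
      (hx i).add (by simpa using (Sz.const (τ := τ) (v i)).mul Sz.t)
    simpa using h3.pow (m i)
  refine (h1.mul h2).mono ?_
  rw [zero_add]
  exact MvPolynomial.le_totalDegree hm

end DEG

open _root_.LOWD.DEG in
theorem t_DEG : S_DEG := by
  classical
  intro ι σ R _ f d S a hd ie
  have hx : ∀ j, Sz 1 (C (x0 R S a j)) := by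
    intro j
    unfold x0
    split_ifs with h
    · exact Sz.var _
    · rw [map_zero]
      exact Sz.zero 1
  have h := sz_ln (f ie.1) (x0 R S a) (vR R S a) hx
  exact (h.totalDegree_le ie.2).trans (Nat.sub_le_sub_right (hd ie.1) _)

end LOWD


end

section

/-!
# LOWD: the residue degree as a length (module DGL)
-/

set_option autoImplicit false

namespace LOWD

namespace DGL

/-- The image of a local ring in a field, when the maximal ideal is killed, is a subfield. -/
def imageField (C L : Type) [CommRing C] [IsLocalRing C] [Field L] [Algebra C L]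
    (h : ∀ x : C, x ∈ IsLocalRing.maximalIdeal C → algebraMap C L x = 0) : Subfield L where
  toSubring := (algebraMap C L).range
  inv_mem' := by
    rintro y ⟨x, rfl⟩
    by_cases hx : x ∈ IsLocalRing.maximalIdeal C
    · refine ⟨0, ?_⟩
      rw [h x hx, map_zero, inv_zero]
    · have hu : IsUnit x := by
        by_contra hc
        exact hx ((IsLocalRing.mem_maximalIdeal x).2 hc)
      obtain ⟨u, rfl⟩ := hu
      refine ⟨((u⁻¹ : Cˣ) : C), ?_⟩
      refine eq_inv_of_mul_eq_one_left ?_
      rw [← map_mul, Units.inv_mul, map_one]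

theorem mem_imageField (C L : Type) [CommRing C] [IsLocalRing C] [Field L] [Algebra C L]
    (h : ∀ x : C, x ∈ IsLocalRing.maximalIdeal C → algebraMap C L x = 0) (y : L) :
    y ∈ imageField C L h ↔ ∃ x : C, algebraMap C L x = y := Iff.rfl

end DGL

open _root_.LOWD.DGL in
theorem t_DGL : S_DGL := by
  intro A C L _ _ _ _ _ _ ρ h1 h2 h3
  set K : Subfield L := Subfield.closure (Set.range ρ) with hK
  have hin : ∀ x : C, algebraMap C L x ∈ K := by
    intro x
    obtain ⟨a, b, hb, hab⟩ := h2 x
    have ha' : ρ a ∈ K := Subfield.subset_closure ⟨a, rfl⟩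
    have hb' : ρ b ∈ K := Subfield.subset_closure ⟨b, rfl⟩
    have : algebraMap C L x = ρ a / ρ b := by
      rw [← hab]
      field_simp
    rw [this]
    exact K.div_mem ha' hb'
  have hle : K ≤ imageField C L h3 := by
    rw [hK, Subfield.closure_le]
    rintro _ ⟨a, rfl⟩
    exact (mem_imageField C L h3 _).2 ⟨algebraMap A C a, (h1 a).symm⟩
  let f : C →+* K := (algebraMap C L).codRestrict K.toSubring hin
  letI : Algebra C K := f.toAlgebra
  haveI : IsScalarTower C K L := IsScalarTower.of_algebraMap_eq (fun x => rfl)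
  have hs : Function.Surjective (algebraMap C K) := by
    rintro ⟨y, hy⟩
    obtain ⟨x, hx⟩ := (mem_imageField C L h3 y).1 (hle hy)
    exact ⟨x, Subtype.ext hx⟩
  have hl : Module.length C L = Module.length K L :=
    Module.length_eq_of_surjective (R := K) (S := C) (M := L) hs
  unfold CUB.lC
  rw [hl, Module.length_eq_rank, Module.finrank]
  exact Cardinal.toNat_toENat _

end LOWD


end

section

/-!
# LOWD, module FPR: push-forward of rational equivalences outside `V(J)`
-/

set_option autoImplicit false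

namespace LOWD

open CUB

namespace FPR

open Classical in
/-- The coefficient of the push-forward at `p`. -/
noncomputable def pf {k A B : Type} (E : Type) [Field k] [CommRing A] [CommRing B] [Algebra k A]
    [Algebra k B] [Field E] (φ : A →ₐ[k] B) {n : ℕ} (p : RP k A n) :
    (RP k B n →₀ E) →ₗ[E] E :=
  Finsupp.linearCombination E (fun q : RP k B n =>
    if PrimeSpectrum.comap φ.toRingHom q.1 = p.1 then (dg φ q.1 : E) else 0)

open Classical in
lemma pf_eq {k A B E : Type} [Field k] [CommRing A] [CommRing B] [Algebra k A]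
    [Algebra k B] [Field E] (φ : A →ₐ[k] B) {n : ℕ} (p : RP k A n) (z : RP k B n →₀ E) :
    z.sum (fun q e => if PrimeSpectrum.comap φ.toRingHom q.1 = p.1 then (dg φ q.1 : E) * e
      else 0) = pf E φ p z := by
  rw [pf, Finsupp.linearCombination_apply]
  refine Finsupp.sum_congr fun q _ => ?_
  split_ifs with h
  · rw [smul_eq_mul, mul_comm]
  · simp

open Classical in
lemma pf_filter {k A B E : Type} [Field k] [CommRing A] [CommRing B] [Algebra k A]
    [Algebra k B] [Field E] (φ : A →ₐ[k] B) {n : ℕ} (p : RP k A n) (z : RP k B n →₀ E) :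
    pf E φ p z = ∑ q ∈ z.support.filter (fun q => PrimeSpectrum.comap φ.toRingHom q.1 = p.1),
      z q * (dg φ q.1 : E) := by
  rw [pf, Finsupp.linearCombination_apply, Finsupp.sum, Finset.sum_filter]
  refine Finset.sum_congr rfl fun q _ => ?_
  split_ifs with h
  · rw [smul_eq_mul]
  · simp

end FPR

open _root_.LOWD.FPR

open Classical in
theorem t_FPR : M_FPR := by
  intro hLENC hDVX hFLD hFPD k A B E _ _ _ _ _ _ _ _ _ φ J hfin n z' hz'
  have main : ∃ z ∈ rat k A E n, ∀ p : RP k A n, ¬ J ≤ p.1.asIdeal → z p = pf E φ p z' := by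
    refine Submodule.span_induction (p := fun z' _ =>
      ∃ z ∈ rat k A E n, ∀ p : RP k A n, ¬ J ≤ p.1.asIdeal → z p = pf E φ p z') ?_ ?_ ?_ ?_ hz'
    · rintro y ⟨Q, b, -, hb, hdv⟩
      by_cases hJ : J ≤ (PrimeSpectrum.comap φ.toRingHom Q.1).asIdeal
      · refine ⟨0, Submodule.zero_mem _, fun p hp => ?_⟩
        rw [pf_filter, Finsupp.zero_apply, eq_comm]
        refine Finset.sum_eq_zero fun q hq => ?_
        exfalso
        rw [Finset.mem_filter, Finsupp.mem_support_iff] at hq
        have h1 : len (Q.1.asIdeal ⊔ Ideal.span {b}) q.1 ≠ 0 := by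
          intro h
          apply hq.1
          rw [hdv q, h, Nat.cast_zero]
        have h2 := ((hLENC k B n Q q).2.1 b h1).1
        apply hp
        rw [← hq.2]
        intro x hx
        exact h2 (hJ hx)
      · obtain ⟨-, -, hdim, hnm⟩ := hFLD k A B φ J hfin Q.1 hJ
        have hx : algebraMap B Q.1.asIdeal.ResidueField b ≠ 0 := by
          rw [Ne, Ideal.algebraMap_residueField_eq_zero]
          exact hb
        obtain ⟨c, d, hcd⟩ := hnm _ hx
        let P : RP k A (n + 1) := ⟨PrimeSpectrum.comap φ.toRingHom Q.1, by rw [hdim]; exact Q.2⟩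
        have hker : ∀ a : A, rho φ Q.1 a ≠ 0 → a ∉ P.1.asIdeal := by
          intro a ha hmem
          apply ha
          have h3 : φ.toRingHom a ∈ Q.1.asIdeal := hmem
          show algebraMap B Q.1.asIdeal.ResidueField (φ.toRingHom a) = 0
          rw [Ideal.algebraMap_residueField_eq_zero]
          exact h3
        have hcP := hker c hcd.1
        have hdP := hker d hcd.2.1
        obtain ⟨zc, hzc⟩ := hDVX k A E n P c hcP
        obtain ⟨zd, hzd⟩ := hDVX k A E n P d hdP
        refine ⟨zc - zd, Submodule.sub_mem _ (Submodule.subset_span ⟨P, c, bot_le, hcP, hzc⟩)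
          (Submodule.subset_span ⟨P, d, bot_le, hdP, hzd⟩), fun p hp => ?_⟩
        have key := hFPD k A B φ J hfin n Q b c d hb hJ hcd p hp
          (y.support.filter (fun q => PrimeSpectrum.comap φ.toRingHom q.1 = p.1))
          (fun q hq => (Finset.mem_filter.1 hq).2)
          (fun q h1 h2 h3 => by
            rw [Finset.mem_filter, Finsupp.mem_support_iff]
            refine ⟨?_, h1⟩
            rw [hdv q]
            exact Nat.cast_ne_zero.2 ((hLENC k B n Q q).2.2.1 b hb h2 h3))
        have key' := congrArg (Nat.cast : ℕ → E) key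
        push_cast at key'
        rw [Finsupp.sub_apply, hzc p, hzd p, pf_filter]
        have h4 : ∑ q ∈ y.support.filter
            (fun q => PrimeSpectrum.comap φ.toRingHom q.1 = p.1), y q * (dg φ q.1 : E) =
            ∑ q ∈ y.support.filter
            (fun q => PrimeSpectrum.comap φ.toRingHom q.1 = p.1),
              (len (Q.1.asIdeal ⊔ Ideal.span {b}) q.1 : E) * (dg φ q.1 : E) :=
          Finset.sum_congr rfl fun q _ => by rw [hdv q]
        rw [h4]
        exact sub_eq_of_eq_add key'.symm
    · exact ⟨0, Submodule.zero_mem _, fun p _ => by simp⟩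
    · rintro x y - - ⟨z1, h1, h1'⟩ ⟨z2, h2, h2'⟩
      exact ⟨z1 + z2, Submodule.add_mem _ h1 h2, fun p hp => by
        rw [Finsupp.add_apply, h1' p hp, h2' p hp, map_add]⟩
    · rintro a x - ⟨z1, h1, h1'⟩
      exact ⟨a • z1, Submodule.smul_mem _ _ h1, fun p hp => by
        rw [Finsupp.smul_apply, h1' p hp, map_smul]⟩
  obtain ⟨z, hz, h⟩ := main
  exact ⟨z, hz, fun p hp => by rw [h p hp, ← pf_eq]⟩

end LOWD


end

section

/-!
# LOWD: fewer forms than variables have a common zero
-/

set_option autoImplicit false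

open Polynomial

namespace LOWD

open CUB

namespace KRU

/-- A prime ideal which contains all the variables contains the polynomials vanishing at `0`. -/
lemma sub_mem {K σ : Type} [Field K] (q : Ideal (MvPolynomial σ K))
    (hX : ∀ j, MvPolynomial.X j ∈ q) (f : MvPolynomial σ K) :
    f - MvPolynomial.C (MvPolynomial.constantCoeff f) ∈ q := by
  induction f using MvPolynomial.induction_on with
  | C a => simp
  | add f g hf hg =>
    have h : f + g - MvPolynomial.C (MvPolynomial.constantCoeff (f + g)) =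
        (f - MvPolynomial.C (MvPolynomial.constantCoeff f)) +
          (g - MvPolynomial.C (MvPolynomial.constantCoeff g)) := by
      rw [map_add, map_add]
      ring
    rw [h]
    exact q.add_mem hf hg
  | mul_X f j _ =>
    have h : MvPolynomial.constantCoeff (f * MvPolynomial.X j) = 0 := by simp
    rw [h, map_zero, sub_zero]
    exact q.mul_mem_left _ (hX j)

end KRU

open _root_.LOWD.KRU in
theorem t_KRU : M_KRU := by
  intro hHTM A σ κ _ _ _ G e hG he hcard p
  set K := p.asIdeal.ResidueField with hK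
  have hF : ∀ i, (G i).map (algebraMap A K) ∈
      RingHom.ker (MvPolynomial.constantCoeff : MvPolynomial σ K →+* K) := by
    intro i
    rw [RingHom.mem_ker, MvPolynomial.constantCoeff_map]
    have h : MvPolynomial.constantCoeff (G i) = 0 := by
      rw [MvPolynomial.constantCoeff_eq]
      apply (hG i).coeff_eq_zero
      rw [map_zero]
      exact (he i).ne
    rw [h, map_zero]
  have hmax : (RingHom.ker (MvPolynomial.constantCoeff : MvPolynomial σ K →+* K)).IsMaximal := by
    apply RingHom.ker_isMaximal_of_surjective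
    intro c
    exact ⟨MvPolynomial.C c, MvPolynomial.constantCoeff_C σ c⟩
  obtain ⟨q, hq, hlt, hFq⟩ := hHTM K σ κ (fun i => (G i).map (algebraMap A K)) _ hmax hF hcard
  have hj : ∃ j, MvPolynomial.X j ∉ q := by
    by_contra hcon
    push Not at hcon
    apply hlt.not_ge
    intro f hf
    have h := sub_mem q hcon f
    rw [RingHom.mem_ker.1 hf, map_zero, sub_zero] at h
    exact h
  obtain ⟨j, hj⟩ := hj
  have hw : ∃ w ∈ MvPolynomial.zeroLocus (AlgebraicClosure K) q, w j ≠ 0 := by
    by_contra hcon
    push Not at hcon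
    apply hj
    rw [← MvPolynomial.IsPrime.vanishingIdeal_zeroLocus (K := AlgebraicClosure K) q]
    intro x hx
    rw [MvPolynomial.aeval_X]
    exact hcon x hx
  obtain ⟨w, hw, hwj⟩ := hw
  refine ⟨w, fun h => hwj (by rw [h]; rfl), fun j hj => absurd (Set.mem_univ j) hj, fun i => ?_⟩
  have h := hw _ (hFq i)
  rw [MvPolynomial.aeval_map_algebraMap] at h
  exact h

end LOWD


end

section

/-!
# LOWD: the module NUL
-/

set_option autoImplicit false

namespace LOWD

namespace NUL

open MvPolynomial

section Gr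

attribute [local instance] MvPolynomial.gradedAlgebra

variable {A σ κ : Type} [CommRing A]

lemma hom_relS {G : κ → MvPolynomial σ A} {e : κ → ℕ} (hG : ∀ i, (G i).IsHomogeneous (e i))
    (S : Set σ) : (relS G S).IsHomogeneous (homogeneousSubmodule σ A) := by
  unfold relS
  refine Ideal.homogeneous_span _ _ ?_
  rintro x (⟨j, -, rfl⟩ | ⟨i, rfl⟩)
  · exact ⟨1, isHomogeneous_X A j⟩
  · exact ⟨e i, hG i⟩

lemma comp_mem {G : κ → MvPolynomial σ A} {e : κ → ℕ} (hG : ∀ i, (G i).IsHomogeneous (e i))
    {S : Set σ} {r : MvPolynomial σ A} (hr : r ∈ relS G S) (n : ℕ) :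
    homogeneousComponent n r ∈ relS G S :=
  homogeneousComponent_mem_of_mem (hom_relS hG S) hr n

end Gr

variable {A σ κ : Type} [CommRing A]

/-- The image of the ideal over the residue field. -/
noncomputable def II (G : κ → MvPolynomial σ A) (S : Set σ) (p : PrimeSpectrum A) :
    Ideal (MvPolynomial σ p.asIdeal.ResidueField) :=
  (relS G S).map (MvPolynomial.map (algebraMap A p.asIdeal.ResidueField))

lemma zero_of {G : κ → MvPolynomial σ A} {S : Set σ} {p : PrimeSpectrum A}
    (h : ¬ SolAt G S p) {x : σ → AlgebraicClosure p.asIdeal.ResidueField}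
    (hx : x ∈ zeroLocus (AlgebraicClosure p.asIdeal.ResidueField) (II G S p)) : x = 0 := by
  by_contra h0
  refine h ⟨x, h0, fun j hj => ?_, fun i => ?_⟩
  · have h1 : MvPolynomial.map (algebraMap A p.asIdeal.ResidueField) (X j : MvPolynomial σ A) ∈
        II G S p := Ideal.mem_map_of_mem _ (Ideal.subset_span (Or.inl ⟨j, hj, rfl⟩))
    have h2 := hx _ h1
    rwa [map_X, aeval_X] at h2
  · have h1 : MvPolynomial.map (algebraMap A p.asIdeal.ResidueField) (G i) ∈
        II G S p := Ideal.mem_map_of_mem _ (Ideal.subset_span (Or.inr ⟨i, rfl⟩))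
    have h2 := hx _ h1
    rwa [aeval_map_algebraMap] at h2

lemma X_rad [Finite σ] {G : κ → MvPolynomial σ A} {S : Set σ} {p : PrimeSpectrum A}
    (h : ¬ SolAt G S p) (j : σ) : ∃ n : ℕ, (X j : MvPolynomial σ p.asIdeal.ResidueField) ^ n ∈
      II G S p := by
  have h1 := vanishingIdeal_zeroLocus_eq_radical
    (K := AlgebraicClosure p.asIdeal.ResidueField) (II G S p)
  have h2 : (X j : MvPolynomial σ p.asIdeal.ResidueField) ∈ (II G S p).radical := by
    rw [← h1]
    intro x hx
    rw [zero_of h hx, aeval_X]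
    rfl
  exact h2

/-- All monomials of large degree are in the ideal. -/
lemma mono_mem [Fintype σ] {G : κ → MvPolynomial σ A} {S : Set σ} {p : PrimeSpectrum A}
    (h : ¬ SolAt G S p) : ∃ N : ℕ, ∀ m : σ →₀ ℕ, N ≤ m.degree →
      monomial m (1 : p.asIdeal.ResidueField) ∈ II G S p := by
  choose n hn using X_rad h
  refine ⟨∑ j, n j + 1, fun m hm => ?_⟩
  obtain ⟨j, hj⟩ : ∃ j, n j ≤ m j := by
    by_contra hc
    push Not at hc
    have h1 : m.degree ≤ ∑ j, n j := by
      rw [Finsupp.degree_eq_sum]
      exact Finset.sum_le_sum fun j _ => (hc j).le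
    omega
  have h2 : Finsupp.single j (n j) + (m - Finsupp.single j (n j)) = m :=
    add_tsub_cancel_of_le (Finsupp.single_le_iff.2 hj)
  have h3 : monomial m (1 : p.asIdeal.ResidueField) =
      monomial (m - Finsupp.single j (n j)) 1 * X j ^ n j := by
    rw [X_pow_eq_monomial, monomial_mul, add_comm, h2, one_mul]
  rw [h3]
  exact Ideal.mul_mem_left _ _ (hn j)

/-- Denominators of an element of the residue field. -/
lemma den (p : PrimeSpectrum A) (z : p.asIdeal.ResidueField) : ∃ s ∉ p.asIdeal, ∃ a : A,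
    algebraMap A p.asIdeal.ResidueField s * z = algebraMap A p.asIdeal.ResidueField a := by
  obtain ⟨w, rfl⟩ := IsLocalRing.residue_surjective z
  obtain ⟨⟨a, s⟩, h⟩ := IsLocalization.surj p.asIdeal.primeCompl w
  refine ⟨s, s.2, a, ?_⟩
  have h1 : ∀ x : A, algebraMap A p.asIdeal.ResidueField x =
      IsLocalRing.residue _ (algebraMap A (Localization.AtPrime p.asIdeal) x) := fun x => rfl
  rw [h1, h1, ← map_mul, mul_comm, h]

lemma mul_not_mem {p : PrimeSpectrum A} {s t : A} (hs : s ∉ p.asIdeal) (ht : t ∉ p.asIdeal) :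
    s * t ∉ p.asIdeal := fun h => (p.isPrime.mem_or_mem h).elim hs ht

/-- Denominators of a polynomial over the residue field. -/
lemma denP (p : PrimeSpectrum A) (z : MvPolynomial σ p.asIdeal.ResidueField) :
    ∃ s ∉ p.asIdeal, ∃ a : MvPolynomial σ A,
      C (algebraMap A p.asIdeal.ResidueField s) * z =
        MvPolynomial.map (algebraMap A p.asIdeal.ResidueField) a := by
  induction z using MvPolynomial.induction_on with
  | C z =>
    obtain ⟨s, hs, a, h⟩ := den p z
    exact ⟨s, hs, C a, by rw [← C_mul, h, map_C]⟩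
  | add z z' h h' =>
    obtain ⟨s, hs, a, h⟩ := h
    obtain ⟨s', hs', a', h'⟩ := h'
    refine ⟨s * s', mul_not_mem hs hs', C s' * a + C s * a', ?_⟩
    simp only [map_add, map_mul, map_C]
    linear_combination C (algebraMap A p.asIdeal.ResidueField s') * h +
      C (algebraMap A p.asIdeal.ResidueField s) * h'
  | mul_X z j h =>
    obtain ⟨s, hs, a, h⟩ := h
    refine ⟨s, hs, a * X j, ?_⟩
    rw [map_mul, map_X, ← h, mul_assoc]

/-- Denominators of an element of the ideal. -/
lemma denI {G : κ → MvPolynomial σ A} {S : Set σ} {p : PrimeSpectrum A}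
    {y : MvPolynomial σ p.asIdeal.ResidueField} (hy : y ∈ II G S p) :
    ∃ s ∉ p.asIdeal, ∃ r ∈ relS G S, C (algebraMap A p.asIdeal.ResidueField s) * y =
        MvPolynomial.map (algebraMap A p.asIdeal.ResidueField) r := by
  have h1 : (1 : A) ∉ p.asIdeal := (Ideal.ne_top_iff_one _).1 p.isPrime.ne_top
  unfold II Ideal.map at hy
  induction hy using Submodule.span_induction with
  | mem y hy =>
    obtain ⟨r, hr, rfl⟩ := hy
    exact ⟨1, h1, r, hr, by rw [map_one, C_1, one_mul]⟩
  | zero => exact ⟨1, h1, 0, Ideal.zero_mem _, by rw [mul_zero, map_zero]⟩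
  | add y y' _ _ h h' =>
    obtain ⟨s, hs, r, hr, h⟩ := h
    obtain ⟨s', hs', r', hr', h'⟩ := h'
    refine ⟨s * s', mul_not_mem hs hs', C s' * r + C s * r',
      Ideal.add_mem _ (Ideal.mul_mem_left _ _ hr) (Ideal.mul_mem_left _ _ hr'), ?_⟩
    simp only [map_add, map_mul, map_C]
    linear_combination C (algebraMap A p.asIdeal.ResidueField s') * h +
      C (algebraMap A p.asIdeal.ResidueField s) * h'
  | smul z y _ h =>
    obtain ⟨s, hs, r, hr, h⟩ := h
    obtain ⟨t, ht, a, h'⟩ := denP p z
    refine ⟨t * s, mul_not_mem ht hs, a * r, Ideal.mul_mem_left _ _ hr, ?_⟩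
    simp only [map_mul, smul_eq_mul, ← h, ← h']
    ring

/-- A multiple of a monomial is in the ideal modulo `p`. -/
lemma mono_p [Fintype σ] {G : κ → MvPolynomial σ A} {e : κ → ℕ}
    (hG : ∀ i, (G i).IsHomogeneous (e i)) {S : Set σ} {p : PrimeSpectrum A} {m : σ →₀ ℕ} {N : ℕ}
    (hm : m.degree = N) (h : monomial m (1 : p.asIdeal.ResidueField) ∈ II G S p) :
    ∃ s ∉ p.asIdeal, ∃ π : MvPolynomial σ A, monomial m s - π ∈ relS G S ∧
      (∀ u, coeff u π ∈ p.asIdeal) ∧ ∀ u, u.degree ≠ N → coeff u π = 0 := by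
  classical
  obtain ⟨s, hs, r, hr, h1⟩ := denI h
  refine ⟨s, hs, monomial m s - homogeneousComponent N r, ?_, fun u => ?_, fun u hu => ?_⟩
  · rw [sub_sub_cancel]
    exact comp_mem hG hr N
  · rw [coeff_sub, coeff_homogeneousComponent]
    have h2 : algebraMap A p.asIdeal.ResidueField (coeff u (monomial m s - r)) = 0 := by
      rw [← coeff_map, map_sub, ← h1, map_monomial, C_mul_monomial, mul_one, sub_self, coeff_zero]
    rw [Ideal.algebraMap_residueField_eq_zero, coeff_sub] at h2
    by_cases hu : u.degree = N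
    · rw [if_pos hu]
      exact h2
    · rw [if_neg hu, coeff_monomial, if_neg (by rintro rfl; exact hu hm), sub_zero]
      exact Ideal.zero_mem _
  · rw [coeff_sub, coeff_homogeneousComponent, if_neg hu, coeff_monomial,
      if_neg (by rintro rfl; exact hu hm), sub_zero]

lemma finite_deg [Fintype σ] (N : ℕ) : {m : σ →₀ ℕ | m.degree = N}.Finite := by
  classical
  have h : {m : σ →₀ ℕ | m.degree = N} ⊆ Set.Icc 0 (Finsupp.equivFunOnFinite.symm fun _ => N) := by
    intro m hm
    refine ⟨zero_le, fun j => ?_⟩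
    have h1 : m.degree = N := hm
    rw [Finsupp.degree_eq_sum] at h1
    have h2 : m j ≤ ∑ i, m i := Finset.single_le_sum (f := fun i => m i) (fun _ _ => Nat.zero_le _)
      (Finset.mem_univ j)
    exact h2.trans_eq h1
  exact (Set.finite_Icc _ _).subset h

/-- The common denominator. -/
lemma common [Fintype σ] {G : κ → MvPolynomial σ A} {e : κ → ℕ}
    (hG : ∀ i, (G i).IsHomogeneous (e i)) {S : Set σ} {p : PrimeSpectrum A} {N : ℕ}
    (h : ∀ m : σ →₀ ℕ, N ≤ m.degree → monomial m (1 : p.asIdeal.ResidueField) ∈ II G S p) :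
    ∃ s ∉ p.asIdeal, ∀ m : σ →₀ ℕ, m.degree = N → ∃ π : MvPolynomial σ A,
      monomial m s - π ∈ relS G S ∧ (∀ u, coeff u π ∈ p.asIdeal) ∧
        ∀ u, u.degree ≠ N → coeff u π = 0 := by
  have key : ∀ W : Finset (σ →₀ ℕ), (∀ m ∈ W, m.degree = N) → ∃ s ∉ p.asIdeal, ∀ m ∈ W,
      ∃ π : MvPolynomial σ A, monomial m s - π ∈ relS G S ∧ (∀ u, coeff u π ∈ p.asIdeal) ∧
        ∀ u, u.degree ≠ N → coeff u π = 0 := by
    classical
    intro W
    induction W using Finset.induction_on with
    | empty =>
      intro _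
      exact ⟨1, (Ideal.ne_top_iff_one _).1 p.isPrime.ne_top, fun m hm => absurd hm (by simp)⟩
    | insert m W _ ih =>
      intro hW
      obtain ⟨s, hs, h1⟩ := ih fun u hu => hW u (Finset.mem_insert_of_mem hu)
      have hm := hW m (Finset.mem_insert_self _ _)
      obtain ⟨t, ht, π, q1, q2, q3⟩ := mono_p hG hm (h m hm.ge)
      have hmul : ∀ (u : σ →₀ ℕ) (a b : A) (π : MvPolynomial σ A),
          monomial u (a * b) - C a * π = C a * (monomial u b - π) := by
        intro u a b π
        rw [mul_sub, C_mul_monomial]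
      refine ⟨t * s, mul_not_mem ht hs, fun u hu => ?_⟩
      rcases Finset.mem_insert.1 hu with rfl | hu
      · refine ⟨C s * π, ?_, fun v => ?_, fun v hv => ?_⟩
        · rw [mul_comm t s, hmul]
          exact Ideal.mul_mem_left _ _ q1
        · rw [coeff_C_mul]
          exact Ideal.mul_mem_left _ _ (q2 v)
        · rw [coeff_C_mul, q3 v hv, mul_zero]
      · obtain ⟨π', q1', q2', q3'⟩ := h1 u hu
        refine ⟨C t * π', ?_, fun v => ?_, fun v hv => ?_⟩
        · rw [hmul]
          exact Ideal.mul_mem_left _ _ q1'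
        · rw [coeff_C_mul]
          exact Ideal.mul_mem_left _ _ (q2' v)
        · rw [coeff_C_mul, q3' v hv, mul_zero]
  obtain ⟨s, hs, h1⟩ := key (finite_deg N).toFinset fun m hm => (finite_deg N).mem_toFinset.1 hm
  exact ⟨s, hs, fun m hm => h1 m ((finite_deg N).mem_toFinset.2 hm)⟩

/-- The determinant trick. -/
lemma det_trick {M : Type} [AddCommGroup M] [Module A M] (p : PrimeSpectrum A)
    (W : Submodule A M) (hW : W.FG) {s : A} (hs : s ∉ p.asIdeal)
    (h : ∀ w ∈ W, s • w ∈ p.asIdeal • W) : ∃ a ∉ p.asIdeal, ∀ w ∈ W, a • w = 0 := by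
  have hf : Module.Finite A W := Module.Finite.iff_fg.2 hW
  have h1 : LinearMap.range (algebraMap A (Module.End A W) s) ≤ p.asIdeal • (⊤ : Submodule A W) := by
    rintro _ ⟨w, rfl⟩
    rw [Submodule.mem_smul_top_iff, Module.algebraMap_end_apply]
    exact h w w.2
  obtain ⟨P, hP, -, hc, h0⟩ :=
    LinearMap.exists_monic_and_natDegree_eq_and_coeff_mem_pow_and_aeval_eq_zero A
      (algebraMap A (Module.End A W) s) p.asIdeal h1
  rw [Polynomial.aeval_algebraMap_apply] at h0
  refine ⟨Polynomial.aeval s P, fun ha => ?_, fun w hw => ?_⟩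
  · rw [Polynomial.aeval_def, Polynomial.eval₂_eq_sum_range, Finset.sum_range_succ] at ha
    have h2 : ∑ i ∈ Finset.range P.natDegree, (algebraMap A A) (P.coeff i) * s ^ i ∈
        p.asIdeal := by
      refine Ideal.sum_mem _ fun i hi => Ideal.mul_mem_right _ _ ?_
      have h3 : P.coeff i ∈ p.asIdeal ^ (P.natDegree - i) := (hc i)
      exact Ideal.pow_le_self (by have := Finset.mem_range.1 hi; omega) h3
    have h4 := (Ideal.add_mem_iff_right _ h2).1 ha
    have h5 : P.coeff P.natDegree = 1 := hP
    rw [h5, map_one, one_mul] at h4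
    exact hs (p.isPrime.mem_of_pow_mem _ h4)
  · have h2 := LinearMap.congr_fun h0 ⟨w, hw⟩
    rw [Module.algebraMap_end_apply] at h2
    exact congrArg Subtype.val h2

end NUL

open _root_.LOWD.NUL MvPolynomial in
theorem t_NUL : S_NUL := by
  intro A σ κ _ _ G e hG S p hS hle
  obtain ⟨N, hN⟩ := mono_mem hS
  obtain ⟨s, hs, h1⟩ := common hG hN
  let W : Submodule A (MvPolynomial σ A ⧸ relS G S) :=
    Submodule.span A ((fun m : σ →₀ ℕ => Ideal.Quotient.mk (relS G S) (monomial m (1 : A))) ''
      {m : σ →₀ ℕ | m.degree = N})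
  have hW : W.FG := Submodule.fg_span ((finite_deg N).image _)
  have hmk : ∀ (m : σ →₀ ℕ) (a : A), Ideal.Quotient.mk (relS G S) (monomial m a) =
      a • Ideal.Quotient.mk (relS G S) (monomial m (1 : A)) := by
    intro m a
    have h2 : monomial m a = a • monomial m (1 : A) := by
      rw [smul_monomial, smul_eq_mul, mul_one]
    rw [h2]
    rfl
  have hgen : ∀ m : σ →₀ ℕ, m.degree = N →
      Ideal.Quotient.mk (relS G S) (monomial m (1 : A)) ∈ W := fun m hm =>
    Submodule.subset_span ⟨m, hm, rfl⟩
  obtain ⟨a, ha, h2⟩ := det_trick p W hW hs (by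
    intro w hw
    induction hw using Submodule.span_induction with
    | mem w hw =>
      obtain ⟨m, hm, rfl⟩ := hw
      obtain ⟨π, q1, q2, q3⟩ := h1 m hm
      show s • Ideal.Quotient.mk (relS G S) (monomial m (1 : A)) ∈ _
      rw [← hmk m s, Ideal.Quotient.eq.2 q1]
      rw [π.as_sum, map_sum]
      refine Submodule.sum_mem _ fun u hu => ?_
      rw [hmk]
      refine Submodule.smul_mem_smul (q2 u) (hgen u ?_)
      by_contra hne
      exact (mem_support_iff.1 hu) (q3 u hne)
    | zero => rw [smul_zero]; exact Submodule.zero_mem _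
    | add x y _ _ hx hy => rw [smul_add]; exact Submodule.add_mem _ hx hy
    | smul b x _ hx => rw [smul_comm]; exact Submodule.smul_mem _ _ hx)
  refine ha (hle ?_)
  rw [mem_JJ]
  refine ⟨N, ?_⟩
  have h3 : ∀ n : ℕ, ∀ m : σ →₀ ℕ, m.degree = N + n → monomial m a ∈ relS G S := by
    intro n
    induction n with
    | zero =>
      intro m hm
      rw [← Ideal.Quotient.eq_zero_iff_mem, hmk]
      exact h2 _ (hgen m hm)
    | succ n ih =>
      intro m hm
      obtain ⟨j, hj⟩ : ∃ j, m j ≠ 0 := by
        by_contra hc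
        push Not at hc
        have h4 : m = 0 := Finsupp.ext hc
        rw [h4, map_zero] at hm
        omega
      have h5 : Finsupp.single j 1 + (m - Finsupp.single j 1) = m :=
        add_tsub_cancel_of_le (Finsupp.single_le_iff.2 (Nat.one_le_iff_ne_zero.2 hj))
      have h6 : (m - Finsupp.single j 1).degree = N + n := by
        have h7 := congrArg Finsupp.degree h5
        rw [map_add, Finsupp.degree_single] at h7
        omega
      have h8 : monomial m a = X j * monomial (m - Finsupp.single j 1) a := by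
        rw [X, monomial_mul, h5, one_mul]
      rw [h8]
      exact Ideal.mul_mem_left _ _ (ih _ h6)
  intro m hm
  exact h3 (m.degree - N) m (by omega)

end LOWD


end
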