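import Mathlib
import Pool.Agent.QVM.C08
import Pool.Agent.QVM.C10
import Pool.Agent.QVM.C12

/-! Parts: CUB.C_SHE, CUB.C_VRX, CUB.R_REC, CUB.R_VC2, LOWD.StmtsH, LOWD.HEX, LOWD.NUM2, LOWD.RES, LOWD.VA, LOWD.VB -/

section

/-!
# CUB, module SHE: the two sheets of `VR R' 0`
-/

set_option autoImplicit false

open Polynomial

namespace CUB

namespace SHE

theorem push_congr {k A B E : Type} [Field k] [CommRing A] [CommRing B] [Algebra k A]
    [Algebra k B] [Field E] {n : ℕ} (φ φ' : A →ₐ[k] B) (h : φ = φ')
    (hφ : Function.Surjective φ) (hφ' : Function.Surjective φ') :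
    push E (n := n) φ hφ = push E φ' hφ' := by
  subst h
  rfl

theorem sheet_eq {k S : Type} [Field k] [CommRing S] [Algebra k S] {m : ℕ} (g : Fin m → S)
    (h : ∀ j, AlgHom.id k S (g j) = 0) (ε : Bool) (v : MvPolynomial (Fin m) S)
    (hv : v ^ 2 - v = lin g) (hvε : v = if ε then 1 else 0) :
    sheet (AlgHom.id k S) g h ε = sg v hv := by
  apply Q_ext
  · intro t
    unfold sheet
    rw [Qlift_algebraMap, sg_algebraMap]
    change MvPolynomial.map (RingHom.id S) t = t
    exact MvPolynomial.map_id t
  · unfold sheet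
    rw [Qlift_yy, sg_yy, hvε]

theorem sheet_tau {k S : Type} [Field k] [CommRing S] [Algebra k S] {m : ℕ} (g : Fin m → S)
    (h : ∀ j, AlgHom.id k S (g j) = 0) :
    sheet (AlgHom.id k S) g h true =
      (sheet (AlgHom.id k S) g h false).comp (tauH (k := k) (lin g)) := by
  apply Q_ext
  · intro t
    have h1 : tauH (k := k) (lin g) (algebraMap _ (Q (MvPolynomial (Fin m) S) (lin g)) t) =
        algebraMap _ _ t := tau_algebraMap _ t
    rw [AlgHom.comp_apply, h1]
    unfold sheet
    rw [Qlift_algebraMap, Qlift_algebraMap]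
  · have h1 : tauH (k := k) (lin g) (yy (lin g)) = 1 - yy (lin g) := tau_yy _
    rw [AlgHom.comp_apply, h1, map_sub, map_one]
    unfold sheet
    rw [Qlift_yy, Qlift_yy]
    simp

theorem sheet_comp {k R S : Type} [Field k] [CommRing R] [CommRing S] [Algebra k R]
    [Algebra k S] {m : ℕ} (f : Fin m → R) (ψ : R →ₐ[k] S) (h : ∀ j, ψ (f j) = 0)
    (h' : ∀ j, AlgHom.id k S (ψ (f j)) = 0) (ε : Bool) :
    sheet ψ f h ε = (sheet (AlgHom.id k S) (fun j => ψ (f j)) h' ε).comp (VRmap ψ f) := by
  apply Q_ext
  · intro t
    rw [AlgHom.comp_apply]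
    unfold VRmap
    rw [Qmap_algebraMap]
    unfold sheet
    rw [Qlift_algebraMap, Qlift_algebraMap]
    change _ = MvPolynomial.map (RingHom.id S) _
    rw [MvPolynomial.map_id]
  · rw [AlgHom.comp_apply]
    unfold VRmap
    rw [Qmap_yy]
    unfold sheet
    rw [Qlift_yy, Qlift_yy]

end SHE

theorem t_SHE : M_SHE := by
  intro hTWO hPCO hFPX k R R' E _ _ _ _ _ _ _ m f ψ hψ h h' n s₀ s₁ p₀ p₁
  have hft : Algebra.FiniteType k (MvPolynomial (Fin m) R') :=
    Algebra.FiniteType.trans (S := R') inferInstance inferInstance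
  have hG : lin (fun j => ψ (f j)) = 0 := by
    simp [lin, h]
  have hv : (0 : MvPolynomial (Fin m) R') ^ 2 - 0 = lin (fun j => ψ (f j)) := by
    rw [hG]
    ring
  have hu : IsUnit (2 * (0 : MvPolynomial (Fin m) R') - 1) := by
    rw [mul_zero, zero_sub]
    exact isUnit_one.neg
  obtain ⟨hg0, hg1, hsum, hpull⟩ := hTWO k (MvPolynomial (Fin m) R') E
    (lin (fun j => ψ (f j))) 0 hv hu
  have e0 : s₀ = sg 0 hv := SHE.sheet_eq _ h' false 0 hv (by simp)
  have e1 : s₁ = sg (1 - 0) (conj_root hv) :=
    SHE.sheet_eq _ h' true (1 - 0) (conj_root hv) (by simp)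
  have q0 : p₀ = push E (sg 0 hv) (sg_surjective 0 hv) := SHE.push_congr _ _ e0 _ _
  have q1 : p₁ = push E (sg (1 - 0) (conj_root hv)) (sg_surjective (1 - 0) (conj_root hv)) :=
    SHE.push_congr _ _ e1 _ _
  have hgs0 : Good k 0 s₀ := by
    rw [e0]
    exact hg0
  have hgs1 : Good k 0 s₁ := by
    rw [e1]
    exact hg1
  refine ⟨hgs0, hgs1, ?_, ?_, ?_, ?_, ?_⟩
  · intro c
    obtain ⟨c₀, hc0⟩ := hFPX k _ _ E 0 n s₀ hgs0 c
    obtain ⟨c₁, hc1⟩ := hFPX k _ _ E 0 n s₁ hgs1 c
    rw [e0] at hc0
    rw [e1] at hc1
    refine ⟨c₀, c₁, ?_⟩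
    rw [q0, q1]
    exact hsum n c c₀ c₁ hc0 hc1
  · intro c₀ c₁
    rw [q0, q1, e0]
    exact hpull n c₀ c₁
  · intro c
    exact (hPCO.1 k _ _ _ E n (tauH (k := k) _) s₀ s₁ (tauH_surjective _) _ _
      (SHE.sheet_tau _ h') c).symm
  · intro c
    exact (hPCO.1 k _ _ _ E n (VRmap ψ f) s₀ (sheet ψ f h false) _ _ _
      (SHE.sheet_comp f ψ h h' false) c).symm
  · intro c
    exact (hPCO.1 k _ _ _ E n (VRmap ψ f) s₁ (sheet ψ f h true) _ _ _
      (SHE.sheet_comp f ψ h h' true) c).symm

end CUB


end

section

/-!
# CUB, module VRX: the varieties `VR R f` as double covers of a polynomial ring in one variable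
-/

set_option autoImplicit false

open Polynomial

namespace CUB

namespace VRX

section A

variable {k R : Type} [Field k] [CommRing R] [Algebra k R] {m : ℕ}

variable (k R) in
/-- the isomorphism `R[t_0, ..., t_m] ≃ R[t_0, ..., t_(m-1)][X]`, `t_l ↦ X` -/
noncomputable def pe (l : Fin (m + 1)) :
    MvPolynomial (Fin (m + 1)) R ≃ₐ[k] (MvPolynomial (Fin m) R)[X] :=
  ((MvPolynomial.renameEquiv R (finSuccEquiv' l)).trans
    (MvPolynomial.optionEquivLeft R (Fin m))).restrictScalars k

lemma pe_apply (l : Fin (m + 1)) (P : MvPolynomial (Fin (m + 1)) R) :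
    pe k R l P = MvPolynomial.optionEquivLeft R (Fin m) (MvPolynomial.rename (finSuccEquiv' l) P) := rfl

lemma pe_C (l : Fin (m + 1)) (r : R) : pe k R l (MvPolynomial.C r) = C (MvPolynomial.C r) := by
  rw [pe_apply, MvPolynomial.rename_C, MvPolynomial.optionEquivLeft_C]

lemma pe_X (l : Fin (m + 1)) : pe k R l (MvPolynomial.X l) = X := by
  rw [pe_apply, MvPolynomial.rename_X, finSuccEquiv'_at, MvPolynomial.optionEquivLeft_X_none]

lemma pe_X' (l : Fin (m + 1)) (j : Fin m) :
    pe k R l (MvPolynomial.X (l.succAbove j)) = C (MvPolynomial.X j) := by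
  rw [pe_apply, MvPolynomial.rename_X, finSuccEquiv'_succAbove, MvPolynomial.optionEquivLeft_X_some]

lemma pe_lin (l : Fin (m + 1)) (f : Fin (m + 1) → R) :
    pe k R l (lin f) = C (lin (fun j => f (l.succAbove j))) + X * C (MvPolynomial.C (f l)) := by
  rw [lin, map_sum, Fin.sum_univ_succAbove _ l, map_mul, pe_X, pe_C, add_comm, lin, map_sum]
  refine congrArg (fun t => t + _) (Finset.sum_congr rfl fun j _ => ?_)
  rw [map_mul, pe_X', pe_C, map_mul]

/-- isomorphism of double covers -/
noncomputable def qe {T S : Type} [CommRing T] [CommRing S] [Algebra k T] [Algebra k S] {g : T}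
    {g' : S} (φ : T ≃ₐ[k] S) (h : φ g = g') : Q T g ≃ₐ[k] Q S g' :=
  AlgEquiv.ofAlgHom (Qmap (φ : T →ₐ[k] S) h)
    (Qmap (φ.symm : S →ₐ[k] T) (by rw [← h]; exact φ.symm_apply_apply g))
    (by
      apply Q_ext
      · intro t
        rw [AlgHom.comp_apply, Qmap_algebraMap, Qmap_algebraMap]
        exact congrArg _ (φ.apply_symm_apply t)
      · rw [AlgHom.comp_apply, Qmap_yy, Qmap_yy]
        rfl)
    (by
      apply Q_ext
      · intro t
        rw [AlgHom.comp_apply, Qmap_algebraMap, Qmap_algebraMap]
        exact congrArg _ (φ.symm_apply_apply t)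
      · rw [AlgHom.comp_apply, Qmap_yy, Qmap_yy]
        rfl)

lemma qe_yy {T S : Type} [CommRing T] [CommRing S] [Algebra k T] [Algebra k S] {g : T}
    {g' : S} (φ : T ≃ₐ[k] S) (h : φ g = g') : qe φ h (yy g) = yy g' :=
  Qmap_yy (φ : T →ₐ[k] S) h

lemma qe_algebraMap {T S : Type} [CommRing T] [CommRing S] [Algebra k T] [Algebra k S] {g : T}
    {g' : S} (φ : T ≃ₐ[k] S) (h : φ g = g') (t : T) :
    qe φ h (algebraMap T (Q T g) t) = algebraMap S (Q S g') (φ t) :=
  Qmap_algebraMap (φ : T →ₐ[k] S) h t

lemma qe_tau {T S : Type} [CommRing T] [CommRing S] [Algebra k T] [Algebra k S] {g : T}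
    {g' : S} (φ : T ≃ₐ[k] S) (h : φ g = g') (x : Q T g) :
    qe φ h (tauH (k := k) g x) = tauH (k := k) g' (qe φ h x) := by
  have h1 : ((qe φ h : Q T g →ₐ[k] Q S g')).comp (tauH (k := k) g) =
      (tauH (k := k) g').comp (qe φ h : Q T g →ₐ[k] Q S g') := by
    apply Q_ext
    · intro t
      change qe φ h (tau (k := k) g (algebraMap T (Q T g) t)) =
        tau (k := k) g' (qe φ h (algebraMap T (Q T g) t))
      rw [tau_algebraMap, qe_algebraMap, tau_algebraMap]
    · change qe φ h (tau (k := k) g (yy g)) = tau (k := k) g' (qe φ h (yy g))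
      rw [tau_yy, map_sub, map_one, qe_yy, tau_yy]
  exact AlgHom.congr_fun h1 x

lemma pe_map {R' : Type} [CommRing R'] [Algebra k R'] (ψ : R →ₐ[k] R') (l : Fin (m + 1))
    (P : MvPolynomial (Fin (m + 1)) R) :
    pe k R' l (MvPolynomial.mapAlgHom ψ P) = mapX (MvPolynomial.mapAlgHom ψ) (pe k R l P) := by
  induction P using MvPolynomial.induction_on with
  | C r =>
    have h1 : MvPolynomial.mapAlgHom ψ (MvPolynomial.C (σ := Fin (m + 1)) r) = MvPolynomial.C (ψ r) :=
      MvPolynomial.map_C _ _
    have h2 : MvPolynomial.mapAlgHom ψ (MvPolynomial.C (σ := Fin m) r) = MvPolynomial.C (ψ r) :=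
      MvPolynomial.map_C _ _
    rw [h1, pe_C, pe_C, ← h2]
    exact (Polynomial.map_C _).symm
  | add p q hp hq => rw [map_add, map_add, hp, hq, map_add, map_add]
  | mul_X p i hp =>
    have h1 : MvPolynomial.mapAlgHom ψ (MvPolynomial.X (R := R) i) = MvPolynomial.X i :=
      MvPolynomial.map_X _ _
    rw [map_mul, map_mul, hp, map_mul, map_mul, h1]
    congr 1
    rcases Fin.eq_self_or_eq_succAbove l i with rfl | ⟨j, rfl⟩
    · rw [pe_X, pe_X]
      exact (Polynomial.map_X _).symm
    · rw [pe_X', pe_X']
      have h2 : MvPolynomial.mapAlgHom ψ (MvPolynomial.X (R := R) j) = MvPolynomial.X j :=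
        MvPolynomial.map_X _ _
      rw [← h2]
      exact (Polynomial.map_C _).symm

end A

end VRX

theorem t_VRX : S_VRX := by
  intro k R R' _ _ _ _ _ m f l ψ
  have h' : VRX.pe k R' l (lin (fun j => ψ (f j))) =
      C ((MvPolynomial.mapAlgHom ψ) (lin (fun j => f (l.succAbove j)))) +
        X * C ((MvPolynomial.mapAlgHom ψ) (MvPolynomial.C (f l))) := by
    have h2 : MvPolynomial.mapAlgHom ψ (MvPolynomial.C (σ := Fin m) (f l)) = MvPolynomial.C (ψ (f l)) :=
      MvPolynomial.map_C _ _
    rw [VRX.pe_lin, map_lin, h2]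
  refine ⟨VRX.qe (VRX.pe k R l) (VRX.pe_lin l f), VRX.qe (VRX.pe k R' l) h', VRX.qe_tau _ _, VRX.qe_tau _ _, ?_⟩
  intro x
  have h1 : ((VRX.qe (VRX.pe k R' l) h').toAlgHom).comp (VRmap ψ f) =
      (YYmap (lin (fun j => f (l.succAbove j))) (MvPolynomial.C (f l)) (MvPolynomial.mapAlgHom ψ)).comp
        (VRX.qe (VRX.pe k R l) (VRX.pe_lin l f)).toAlgHom := by
    apply Q_ext
    · intro t
      change VRX.qe (VRX.pe k R' l) h' (VRmap ψ f (algebraMap _ _ t)) =
        YYmap _ _ (MvPolynomial.mapAlgHom ψ) (VRX.qe (VRX.pe k R l) (VRX.pe_lin l f) (algebraMap _ _ t))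
      rw [VRX.qe_algebraMap, VRmap, Qmap_algebraMap, VRX.qe_algebraMap, YYmap, Qmap_algebraMap, VRX.pe_map]
    · change VRX.qe (VRX.pe k R' l) h' (VRmap ψ f (yy _)) =
        YYmap _ _ (MvPolynomial.mapAlgHom ψ) (VRX.qe (VRX.pe k R l) (VRX.pe_lin l f) (yy _))
      rw [VRX.qe_yy, VRmap, Qmap_yy, VRX.qe_yy, YYmap, Qmap_yy]
  exact AlgHom.congr_fun h1 x

end CUB


end

section

/-!
# REC: reciprocity on a two-dimensional local domain
-/

set_option autoImplicit false

open Polynomial

namespace CUB

namespace REC

section Loc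

variable {A K : Type} [CommRing A] [IsDomain A] [Field K] [Algebra A K] [IsFractionRing A K]
  {p : PrimeSpectrum A} {O : ValuationSubring K}

lemma am_ne {a : A} (h : a ≠ 0) : algebraMap A K a ≠ 0 :=
  (map_ne_zero_iff _ (IsFractionRing.injective A K)).2 h

lemma un_of_not (hO : IsLocO p.asIdeal O) {x : A} (hx : x ∉ p.asIdeal) :
    IsUn O (algebraMap A K x) := by
  have hx0 : x ≠ 0 := fun h => hx (h ▸ p.asIdeal.zero_mem)
  have h1 : (1 : A) ∉ p.asIdeal := fun h => p.isPrime.ne_top ((Ideal.eq_top_iff_one _).2 h)
  have hw : algebraMap A K x ≠ 0 := am_ne hx0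
  refine ⟨hw, (hO _).2 ⟨x, 1, h1, by rw [map_one, mul_one]⟩, (hO _).2 ⟨1, x, hx, ?_⟩⟩
  rw [map_one]
  exact inv_mul_cancel₀ hw

lemma locO_unique {O' : ValuationSubring K} (h : IsLocO p.asIdeal O)
    (h' : IsLocO p.asIdeal O') : O' = O := by
  ext x
  exact (h' x).trans (h x).symm

end Loc

lemma lC_one (C A : Type) [CommRing C] [CommRing A] [Algebra C A] (I : Ideal A) :
    lC C (A ⧸ (I ⊔ Ideal.span {(1 : A)})) = 0 := by
  have h : I ⊔ Ideal.span {(1 : A)} = ⊤ := by
    rw [Ideal.span_singleton_one, sup_top_eq]
  have h1 : Subsingleton (A ⧸ (I ⊔ Ideal.span {(1 : A)})) :=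
    Ideal.Quotient.subsingleton_iff.2 h
  have h2 : Module.length C (A ⧸ (I ⊔ Ideal.span {(1 : A)})) = 0 :=
    Module.length_eq_zero_iff.2 h1
  rw [lC, h2]
  rfl

lemma lC_pow (C A : Type) [CommRing C] [CommRing A] [Algebra C A] (p : PrimeSpectrum A)
    (hadd : ∀ x y, x ∉ p.asIdeal → y ∉ p.asIdeal →
      lC C (A ⧸ (p.asIdeal ⊔ Ideal.span {x * y})) =
      lC C (A ⧸ (p.asIdeal ⊔ Ideal.span {x})) + lC C (A ⧸ (p.asIdeal ⊔ Ideal.span {y})))
    (x : A) (hx : x ∉ p.asIdeal) (n : ℕ) :
    lC C (A ⧸ (p.asIdeal ⊔ Ideal.span {x ^ n})) =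
      n * lC C (A ⧸ (p.asIdeal ⊔ Ideal.span {x})) := by
  induction n with
  | zero => rw [pow_zero, lC_one, zero_mul]
  | succ n ih =>
    rw [pow_succ, hadd _ _ (fun h => hx (p.isPrime.mem_of_pow_mem _ h)) hx, ih]
    ring

end REC

open _root_.CUB.REC in
theorem t_REC : M_REC := by
  intro hHHA hVC1 hVC2 hTAME hPC
  intro C A K _ _ _ _ _ _ _ _ _ _ _ hs a u ha hu O W Z X Y hO hW hZ hXY
  classical
  have := hs.frC
  have := hs.frA
  have := hs.ic
  obtain ⟨hN, -, hht, hfin, -, hadd, -, -, -⟩ := hHHA C A K hs
  have := hN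
  have ha' : algebraMap C K a ≠ 0 := (map_ne_zero_iff _ (IsFractionRing.injective C K)).2 ha
  have hu' : algebraMap C K u ≠ 0 := (map_ne_zero_iff _ (IsFractionRing.injective C K)).2 hu
  have hae : algebraMap C K a = algebraMap A K (algebraMap C A a) :=
    IsScalarTower.algebraMap_apply C A K a
  have hue : algebraMap C K u = algebraMap A K (algebraMap C A u) :=
    IsScalarTower.algebraMap_apply C A K u
  have haA : algebraMap C A a ≠ 0 := by
    intro h
    rw [hae, h, map_zero] at ha'
    exact ha' rfl
  -- the primes containing `a` and not `u`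
  have hVf : {p | p ∈ HH A ∧ algebraMap C A a ∈ p.asIdeal ∧
      algebraMap C A u ∉ p.asIdeal}.Finite :=
    (hfin _ haA).subset fun p hp => ⟨hp.1, hp.2.1⟩
  set V := hVf.toFinset with hVdef
  have hV : ∀ p, p ∈ V ↔ p ∈ HH A ∧ algebraMap C A a ∈ p.asIdeal ∧
      algebraMap C A u ∉ p.asIdeal := by
    intro p
    rw [hVdef, Set.Finite.mem_toFinset]
    rfl
  have hdisj : Disjoint V W := by
    rw [Finset.disjoint_left]
    intro p h1 h2
    exact ((hV p).1 h1).2.2 ((hW p).1 h2).2
  have key := hTAME C A K hs (algebraMap C K a) (algebraMap C K u) ha' hu' O (V ∪ W)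
    (fun p => if p ∈ W then X p else 1)
    (fun p => if p ∈ W then Y p else
      (algebraMap C A u) ^ (len (Ideal.span {algebraMap C A a}) p)) hO
    (by
      intro p hp
      rcases Finset.mem_union.1 hp with h | h
      · exact ((hV p).1 h).1
      · exact ((hW p).1 h).1)
    (by
      intro p hp h
      by_contra hn
      rw [Finset.mem_union, not_or] at hn
      have h2 : algebraMap C A u ∉ p.asIdeal := fun h2 => hn.2 ((hW p).2 ⟨hp, h2⟩)
      have h1 : algebraMap C A a ∉ p.asIdeal := fun h1 => hn.1 ((hV p).2 ⟨hp, h1, h2⟩)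
      rcases h with h | h
      · apply h
        rw [hae]
        exact un_of_not (hO p hp) h1
      · apply h
        rw [hue]
        exact un_of_not (hO p hp) h2)
    (by
      intro p hp
      by_cases hpW : p ∈ W
      · rw [if_pos hpW, if_pos hpW]
        exact hXY p hpW
      · rw [if_neg hpW, if_neg hpW]
        have hpV : p ∈ V := (Finset.mem_union.1 hp).resolve_right hpW
        obtain ⟨hH, h1, h2⟩ := (hV p).1 hpV
        refine ⟨fun h => p.isPrime.ne_top ((Ideal.eq_top_iff_one _).2 h),
          fun h => h2 (p.isPrime.mem_of_pow_mem _ h), ?_⟩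
        obtain ⟨O', hO', ⟨π, hπ⟩, hall⟩ := hVC1 A K p hH.1 (hht p hH)
        have hOO : O' = O p := locO_unique (hO p hH) hO'
        subst hOO
        obtain ⟨-, h4⟩ := hall _ hπ
        obtain ⟨α, hα, h5⟩ := h4 _ haA
        refine ⟨algebraMap A K π, α, algebraMap A K (algebraMap C A u),
          ((len (Ideal.span {algebraMap C A a}) p : ℕ) : ℤ), 0, hπ, hα,
          un_of_not (hO p hH) h2, ?_, ?_, ?_⟩
        · rw [hae]
          exact h5
        · rw [hue, zpow_zero, mul_one]
        · rw [zpow_zero, one_mul, zpow_neg, zpow_natCast, map_one, map_pow, one_div, hue])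
  have hPC' := hPC C A K hs a u ha hu V Z hV hZ
  rw [Finset.sum_union hdisj] at key
  have e1 : ∑ p ∈ V, ((lC C (A ⧸ (p.asIdeal ⊔ Ideal.span
        {(if p ∈ W then X p else 1 : A)})) : ℤ) -
      lC C (A ⧸ (p.asIdeal ⊔ Ideal.span {(if p ∈ W then Y p else
        (algebraMap C A u) ^ (len (Ideal.span {algebraMap C A a}) p) : A)}))) =
      - ∑ p ∈ V, ((len (Ideal.span {algebraMap C A a}) p : ℤ) *
        lC C (A ⧸ (p.asIdeal ⊔ Ideal.span {algebraMap C A u}))) := by
    rw [← Finset.sum_neg_distrib]
    apply Finset.sum_congr rfl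
    intro p hp
    have hpW : p ∉ W := fun h => (Finset.disjoint_left.1 hdisj) hp h
    obtain ⟨hH, h1, h2⟩ := (hV p).1 hp
    rw [if_neg hpW, if_neg hpW, lC_one, lC_pow C A p (hadd p hH) _ h2]
    push_cast
    ring
  have e2 : ∑ p ∈ W, ((lC C (A ⧸ (p.asIdeal ⊔ Ideal.span
        {(if p ∈ W then X p else 1 : A)})) : ℤ) -
      lC C (A ⧸ (p.asIdeal ⊔ Ideal.span {(if p ∈ W then Y p else
        (algebraMap C A u) ^ (len (Ideal.span {algebraMap C A a}) p) : A)}))) =
      ∑ p ∈ W, ((lC C (A ⧸ (p.asIdeal ⊔ Ideal.span {X p})) : ℤ) -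
      lC C (A ⧸ (p.asIdeal ⊔ Ideal.span {Y p}))) := by
    apply Finset.sum_congr rfl
    intro p hp
    rw [if_pos hp, if_pos hp]
  rw [e1, e2] at key
  have e3 : (∑ z ∈ Z, (len (Ideal.span {a}) z : ℤ) *
      lC C (C ⧸ (z.asIdeal ⊔ Ideal.span {u}))) =
      ∑ p ∈ V, ((len (Ideal.span {algebraMap C A a}) p : ℤ) *
        lC C (A ⧸ (p.asIdeal ⊔ Ideal.span {algebraMap C A u}))) := by
    exact_mod_cast hPC'.symm
  rw [e3]
  linarith

end CUB


end

section

/-!
# VC2: valuation rings which dominate a prime of height one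
-/

set_option autoImplicit false

open Polynomial

namespace CUB

namespace VC2

theorem valR (A : Type) [CommRing A] [IsDomain A] [IsNoetherianRing A] [IsIntegrallyClosed A]
    (p : PrimeSpectrum A)
    (hp : ∀ p' : Ideal A, p'.IsPrime → p' < p.asIdeal → p' = ⊥) :
    ValuationRing (Localization.AtPrime p.asIdeal) := by
  have hM : p.asIdeal.primeCompl ≤ nonZeroDivisors A := p.asIdeal.primeCompl_le_nonZeroDivisors
  have hic : IsIntegrallyClosed (Localization.AtPrime p.asIdeal) :=
    isIntegrallyClosed_of_isLocalization _ p.asIdeal.primeCompl hM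
  have hno : IsNoetherianRing (Localization.AtPrime p.asIdeal) :=
    IsLocalization.isNoetherianRing p.asIdeal.primeCompl _ inferInstance
  have hdo : IsDomain (Localization.AtPrime p.asIdeal) :=
    IsLocalization.isDomain_localization hM
  have key := (tfae_of_isNoetherianRing_of_isLocalRing_of_isDomain
    (Localization.AtPrime p.asIdeal)).out 3 1
  refine key.1 ⟨hic, fun P hP0 hP => ?_⟩
  have hle : P.comap (algebraMap A (Localization.AtPrime p.asIdeal)) ≤ p.asIdeal := by
    intro x hx
    by_contra hxp
    have hu : IsUnit (algebraMap A (Localization.AtPrime p.asIdeal) x) :=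
      IsLocalization.map_units _ (⟨x, hxp⟩ : p.asIdeal.primeCompl)
    exact hP.ne_top (Ideal.eq_top_of_isUnit_mem _ hx hu)
  have hPm : (P.comap (algebraMap A (Localization.AtPrime p.asIdeal))).map
      (algebraMap A (Localization.AtPrime p.asIdeal)) = P :=
    IsLocalization.map_comap p.asIdeal.primeCompl _ P
  rcases hle.lt_or_eq with h | h
  · have h1 := hp _ (hP.comap _) h
    rw [h1, Ideal.map_bot] at hPm
    exact absurd hPm.symm hP0
  · rw [h] at hPm
    rw [← hPm]
    exact Localization.AtPrime.map_eq_maximalIdeal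

theorem dich (A : Type) [CommRing A] [IsDomain A] [IsNoetherianRing A] [IsIntegrallyClosed A]
    (p : PrimeSpectrum A)
    (hp : ∀ p' : Ideal A, p'.IsPrime → p' < p.asIdeal → p' = ⊥) (a b : A) :
    ∃ c s : A, s ∉ p.asIdeal ∧ (a * c = b * s ∨ b * c = a * s) := by
  have hV := valR A p hp
  have hM : p.asIdeal.primeCompl ≤ nonZeroDivisors A := p.asIdeal.primeCompl_le_nonZeroDivisors
  have hinj : Function.Injective (algebraMap A (Localization.AtPrime p.asIdeal)) :=
    IsLocalization.injective _ hM
  have key : ∀ (a b : A) (c : Localization.AtPrime p.asIdeal),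
      algebraMap A (Localization.AtPrime p.asIdeal) a * c =
        algebraMap A (Localization.AtPrime p.asIdeal) b →
      ∃ c s : A, s ∉ p.asIdeal ∧ a * c = b * s := by
    intro a b c hc
    obtain ⟨⟨c1, s⟩, hcs⟩ := IsLocalization.surj p.asIdeal.primeCompl c
    refine ⟨c1, s.1, s.2, hinj ?_⟩
    rw [map_mul, map_mul, ← hc, mul_assoc]
    exact congrArg _ hcs.symm
  obtain ⟨c, hc⟩ := ValuationRing.cond (algebraMap A (Localization.AtPrime p.asIdeal) a)
    (algebraMap A (Localization.AtPrime p.asIdeal) b)
  rcases hc with hc | hc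
  · obtain ⟨c', s, hs, h⟩ := key a b c hc
    exact ⟨c', s, hs, Or.inl h⟩
  · obtain ⟨c', s, hs, h⟩ := key b a c hc
    exact ⟨c', s, hs, Or.inr h⟩

end VC2

theorem t_VC2 : S_VC2 := by
  intro A K _ _ _ _ _ _ _ p hp0 hp O
  have hinj : Function.Injective (algebraMap A K) := IsFractionRing.injective A K
  constructor
  · rintro ⟨h1, h2⟩ x
    have hinv : ∀ b : A, b ∉ p.asIdeal → algebraMap A K b ≠ 0 ∧ (algebraMap A K b)⁻¹ ∈ O := by
      intro b hb
      rw [h2 b, not_or, not_not] at hb
      exact hb
    constructor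
    · intro hx
      obtain ⟨a, b, hb0, rfl⟩ := IsFractionRing.div_surjective (A := A) x
      have hb1 : algebraMap A K b ≠ 0 := by
        rw [Ne, IsFractionRing.to_map_eq_zero_iff]
        exact nonZeroDivisors.ne_zero hb0
      obtain ⟨c, s, hs, h⟩ := VC2.dich A p hp a b
      have hs1 := hinv s hs
      rcases h with h | h
      · -- `a c = b s`
        by_cases hcp : c ∈ p.asIdeal
        · exfalso
          have h3 : algebraMap A K a * algebraMap A K c = algebraMap A K b * algebraMap A K s := by
            rw [← map_mul, ← map_mul, h]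
          have hc0 : algebraMap A K c ≠ 0 := by
            intro h0
            rw [h0, mul_zero] at h3
            exact (mul_ne_zero hb1 hs1.1) h3.symm
          rcases (h2 c).1 hcp with h4 | h4
          · exact hc0 h4
          · apply h4
            have h5 : (algebraMap A K c)⁻¹ =
                algebraMap A K a / algebraMap A K b * (algebraMap A K s)⁻¹ := by
              have := hs1.1
              field_simp
              linear_combination -h3
            rw [h5]
            exact O.mul_mem _ _ hx hs1.2
        · refine ⟨s, c, hcp, ?_⟩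
          have h3 : algebraMap A K a * algebraMap A K c = algebraMap A K b * algebraMap A K s := by
            rw [← map_mul, ← map_mul, h]
          field_simp
          linear_combination h3
      · refine ⟨c, s, hs, ?_⟩
        have h3 : algebraMap A K b * algebraMap A K c = algebraMap A K a * algebraMap A K s := by
          rw [← map_mul, ← map_mul, h]
        field_simp
        linear_combination -h3
    · rintro ⟨a, b, hb, hab⟩
      obtain ⟨hb1, hb2⟩ := hinv b hb
      have h3 : x = algebraMap A K a * (algebraMap A K b)⁻¹ := by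
        rw [← hab, mul_assoc, mul_inv_cancel₀ hb1, mul_one]
      rw [h3]
      exact O.mul_mem _ _ (h1 a) hb2
  · intro hO
    refine ⟨fun a => (hO _).2 ⟨a, 1, p.2.one_notMem, by rw [map_one, mul_one]⟩, fun a => ?_⟩
    constructor
    · intro ha
      by_contra hc
      rw [not_or, not_not] at hc
      obtain ⟨c, b, hb, hcb⟩ := (hO _).1 hc.2
      apply hb
      have h3 : algebraMap A K b = algebraMap A K (a * c) := by
        rw [map_mul, ← hcb, ← mul_assoc, mul_inv_cancel₀ hc.1, one_mul]
      rw [hinj h3]
      exact p.asIdeal.mul_mem_right _ ha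
    · rintro (h | h)
      · rw [IsFractionRing.to_map_eq_zero_iff] at h
        rw [h]
        exact p.asIdeal.zero_mem
      · by_contra ha
        apply h
        refine (hO _).2 ⟨1, a, ha, ?_⟩
        rw [map_one]
        refine inv_mul_cancel₀ ?_
        rw [Ne, IsFractionRing.to_map_eq_zero_iff]
        rintro rfl
        exact ha p.asIdeal.zero_mem

end CUB


end

section

/-!
# LOWD, part 2: vanishing of the homology in small degrees (statements)

Module `X` proves `theorem t_X : M_X` (or `t_X : S_X` if there is no `M_X`) in the namespace `LOWD`, in the file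
`Pool/Agent/LOWD/X.lean`, importing this file.  `Homology k E i` is the structure of `Pool/Agent/Lib_helper55/Beil/Defs.lean` (localisation
sequences, Artin vanishing); `aff k A` is the affine variety `Spec A` (`CUB/Defs2.lean`); lemmas on it in `CUB/BR1.lean`, ..., `CUB/Bridge.lean`
(`complementary_away`, `isOpenImmersion_spm`, `clo`, `opn`, `viso`, `VIso.cl`, `push_viso_bijective`).
-/

set_option autoImplicit false

open Polynomial CategoryTheory AlgebraicGeometry

namespace LOWD

open CUB Pool.Agent.Lib_helper55.Beil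

universe v

/-- HEX. Homology of affine varieties. (1) `push_viso_bijective` in `BR5` or exactness (localisation with empty complement). (2) `clo ζ`, `opn υ` are complementary (`complementary_away`); `T.exact_X`: `H_m Z → H_m A → H_m U` is exact, and `(T.localisation ..).2`: `H_(m+1) U → H_m Z → H_m A` is exact for some boundary map. (3) `clo ζ` is surjective on points (the kernel is nilpotent, contained in every prime), so it is complementary to the empty open subvariety
(for instance the localisation at `0`, the zero ring); exactness. (4) the spectrum is empty, `T.empty`. (5) `T.artin`: `(aff k A).X` is integral and affine, `(aff k A).f` is smooth (see `Pool/Agent/CUB/V_SMOOTH.lean`, `V_SMO.lean` for `Algebra.Smooth` and `Smooth (aff k A).f`), the dimension of the generic point is `Algebra.trdeg k A` (the generic point corresponds to the ideal `0`; `dim_toPt` in `BR1`). -/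
def S_HEX : Prop := ∀ (k E : Type) [Field k] [Field E] (i : ℕ) (T : Homology.{v} k E i) (m : ℕ),
  (∀ (A B : Type) [CommRing A] [CommRing B] [Algebra k A] [Algebra k B]
    [Algebra.FiniteType k A] [Algebra.FiniteType k B], (A ≃ₐ[k] B) →
    Subsingleton (T.H m (aff k A)) → Subsingleton (T.H m (aff k B))) ∧
  (∀ (A Z U : Type) [CommRing A] [CommRing Z] [CommRing U] [Algebra k A] [Algebra k Z]
    [Algebra k U] [Algebra.FiniteType k A] [Algebra.FiniteType k Z] [Algebra.FiniteType k U]
    (a : A) (ζ : A →ₐ[k] Z) (υ : A →ₐ[k] U), Function.Surjective ζ →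
    RingHom.ker ζ.toRingHom = Ideal.span {a} →
    (@IsLocalization.Away A _ a U _ υ.toRingHom.toAlgebra) →
    (Subsingleton (T.H m (aff k Z)) → Subsingleton (T.H m (aff k U)) →
      Subsingleton (T.H m (aff k A))) ∧
    (Subsingleton (T.H (m + 1) (aff k U)) → Subsingleton (T.H m (aff k A)) →
      Subsingleton (T.H m (aff k Z)))) ∧
  (∀ (A Z : Type) [CommRing A] [CommRing Z] [Algebra k A] [Algebra k Z]
    [Algebra.FiniteType k A] [Algebra.FiniteType k Z] (ζ : A →ₐ[k] Z), Function.Surjective ζ →
    (∀ x, ζ x = 0 → IsNilpotent x) → Subsingleton (T.H m (aff k Z)) →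
    Subsingleton (T.H m (aff k A))) ∧
  (∀ (A : Type) [CommRing A] [Algebra k A] [Algebra.FiniteType k A], Subsingleton A →
    Subsingleton (T.H m (aff k A))) ∧
  (∀ (A : Type) [CommRing A] [Algebra k A] [Algebra.FiniteType k A] [IsDomain A]
    [Algebra.Smooth k A], (m : Cardinal) < Algebra.trdeg k A → Subsingleton (T.H m (aff k A)))

/-- NICE. A nonzero reduced algebra of finite type over a perfect field has a nonzero localisation which is a smooth domain. From `exists_nice` in `Pool/Agent/Lib_helper55/Beil/Geom.lean` for `X = aff k A` (reduced) and a maximal point `η` (a minimal prime): an open neighbourhood `U` of `η` which is smooth, affine and integral; choose a basic open set `D(h) ⊆ U` containing `η`: `A_h` is the ring of functions on an open subscheme of `U`, so a domain, and smooth. (Or algebraically: choose `h`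
in all minimal primes but one, so that `A_h` is a domain; generic smoothness over a perfect field if Mathlib has it for rings.) -/
def S_NICE : Prop := ∀ (k A : Type) [Field k] [PerfectField k] [CommRing A] [Algebra k A]
  [Algebra.FiniteType k A] [IsReduced A] [Nontrivial A],
  ∃ h : A, IsDomain (Localization.Away h) ∧ Algebra.Smooth k (Localization.Away h)

/-- All localisations `B[1/g]` of the algebra `B` have no homology in degrees smaller than `N`. -/
def Van {k E : Type} [Field k] [Field E] {i : ℕ} (T : Homology.{v} k E i) (N : ℕ) (B : Type)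
    [CommRing B] [Algebra k B] : Prop :=
  ∀ (g : B) (B' : Type) [CommRing B'] [Algebra k B'] [Algebra.FiniteType k B'] (φ : B →ₐ[k] B'),
    (@IsLocalization.Away B _ g B' _ φ.toRingHom.toAlgebra) → ∀ m < N,
    Subsingleton (T.H m (aff k B'))

/-- VA. Affine spaces over an arbitrary affine variety. By S_HEX (1) it is enough to treat `B' = Localization.Away g`, `g ∈ R[σ]`. Noetherian induction on the ideal `I` of `R`: claim `P(I)`: for all `g ∈ (R/I)[σ]` and `m < |σ|` the homology `H_m` of `(R/I)[σ][1/g]` vanishes. Assume `P(I')` for all `I' > I`. If `I = ⊤`: the zero ring, S_HEX (4). If `I` is not radical: let `I'` be its radical; the homomorphism `(R/I)[σ][1/g] → (R/I')[σ][1/g]` is surjective with nilpotent kernel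
(every element of the kernel is nilpotent), S_HEX (3). If `R/I` is reduced and not zero: S_NICE gives `h ∈ R/I` with `(R/I)_h` a smooth domain. `A = (R/I)[σ][1/g]`, `Z = A / h`, which is the ring `(R/I')[σ][1/g]` for the preimage `I' > I` of `(h)` (`h ≠ 0`), so `H_m(Z) = 0`; `U = A_h = (R/I)_h[σ][1/g]` is zero (S_HEX (4)) or a smooth domain of transcendence degree `≥ |σ| > m`: S_HEX (5) (`MvPolynomial σ` over a smooth algebra is smooth, see
`V_SMOOTH.lean` for `Fin m`; a localisation of a smooth algebra is smooth; the variables are algebraically independent over `k`). S_HEX (2). (It may be convenient to do the induction for all finite type algebras `R` with the statement: for every surjection from a fixed Noetherian ring.) -/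
def S_VA : Prop := ∀ (k E : Type) [Field k] [PerfectField k] [Field E] (i : ℕ)
  (T : Homology.{v} k E i) (R σ : Type) [CommRing R] [Algebra k R] [Algebra.FiniteType k R]
  [Fintype σ], Van T (Fintype.card σ) (MvPolynomial σ R)

def M_VA : Prop := S_HEX.{v} → S_NICE → S_VA.{v}

/-- VB. Closed subsets defined by `r` equations. Induction on `r`. `r = 0`: `ψ` is an isomorphism, and `B` is its own localisation at `1`. `r + 1`: let `f' : Fin r → B` be the first `r` equations and `a` the last one. `A' = B / (f')`, `H_m(A') = 0` by induction (`m + r < N`). `A = A' / a`. `U = A'_a = B_a / (f')`: `B_a` satisfies `Van T N` (a localisation `(B_a)_g` is a localisation of `B` away from one element, `g = g' / a^s`: away from `a g'`), so `H_(m+1)(U) = 0` by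
induction (`m + 1 + r < N`). S_HEX (2). -/
def S_VB : Prop := ∀ (k E : Type) [Field k] [Field E] (i : ℕ) (T : Homology.{v} k E i)
  (N r : ℕ) (B A : Type) [CommRing B] [CommRing A] [Algebra k B] [Algebra k A]
  [Algebra.FiniteType k B] [Algebra.FiniteType k A] (f : Fin r → B) (ψ : B →ₐ[k] A), Van T N B →
  Function.Surjective ψ → RingHom.ker ψ.toRingHom = Ideal.span (Set.range f) →
  ∀ m : ℕ, m + r < N → Subsingleton (T.H m (aff k A))

def M_VB : Prop := S_HEX.{v} → S_VB.{v}

/-- NUM. `cnt l d ≥ l + 1` for `d ≥ 2`: `(l + d - 1 choose l) ≥ (l + 1 choose l)`. So `l + r (l + 1) ≤ l + ∑ cnt l (d i) < n` and `2 j + r ≤ 2 l + r ≤ l + r (l + 1)` as `r ≥ 1`. -/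
def S_NUM : Prop := ∀ (r l n j : ℕ) (d : Fin r → ℕ), 0 < r → (∀ i, 2 ≤ d i) →
  l + ∑ i, cnt l (d i) < n → j ≤ l → 2 * j + r < n

end LOWD


end

section

/-!
# LOWD: module HEX, homology of affine varieties
-/

set_option autoImplicit false

open Polynomial CategoryTheory AlgebraicGeometry

namespace LOWD

open CUB Pool.Agent.Lib_helper55.Beil

universe v

namespace HEX

variable {k E : Type} [Field k] [Field E] {i : ℕ} (T : Homology.{v} k E i)

lemma sub_X (m : ℕ) {Z U X : Var k} (a : ClosedIn Z X) (j : OpenIn U X) (h : Complementary a j)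
    (hZ : Subsingleton (T.H m Z)) (hU : Subsingleton (T.H m U)) : Subsingleton (T.H m X) := by
  refine subsingleton_of_forall_eq 0 fun x => ?_
  obtain ⟨z, hz⟩ := (T.exact_X m a j h x).1 (Subsingleton.elim _ _)
  rw [← hz, Subsingleton.elim z 0, map_zero]

lemma sub_Z (m : ℕ) {Z U X : Var k} (a : ClosedIn Z X) (j : OpenIn U X) (h : Complementary a j)
    (hU : Subsingleton (T.H (m + 1) U)) (hX : Subsingleton (T.H m X)) :
    Subsingleton (T.H m Z) := by
  obtain ⟨bd, hbd⟩ := (T.localisation m Z U X a j h).2
  refine subsingleton_of_forall_eq 0 fun z => ?_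
  obtain ⟨u, hu⟩ := (hbd z).1 (Subsingleton.elim _ _)
  rw [← hu, Subsingleton.elim u 0, map_zero]

lemma sub_iso (m : ℕ) (A B : Type) [CommRing A] [CommRing B] [Algebra k A] [Algebra k B]
    [Algebra.FiniteType k A] [Algebra.FiniteType k B] (e : A ≃ₐ[k] B)
    (h : Subsingleton (T.H m (aff k A))) : Subsingleton (T.H m (aff k B)) :=
  (push_viso_bijective T m (viso e)).injective.subsingleton

lemma empty_aff (m : ℕ) (A : Type) [CommRing A] [Algebra k A] [Algebra.FiniteType k A]
    (h : Subsingleton A) : Subsingleton (T.H m (aff k A)) := by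
  apply T.empty
  exact ⟨fun x => by
    have h1 : PrimeSpectrum A := ofPt (k := k) x
    exact h1.2.ne_top (Subsingleton.elim _ _)⟩

lemma sub_nil (m : ℕ) (A Z : Type) [CommRing A] [CommRing Z] [Algebra k A] [Algebra k Z]
    [Algebra.FiniteType k A] [Algebra.FiniteType k Z] (ζ : A →ₐ[k] Z)
    (hζ : Function.Surjective ζ) (hn : ∀ x, ζ x = 0 → IsNilpotent x)
    (h : Subsingleton (T.H m (aff k Z))) : Subsingleton (T.H m (aff k A)) := by
  have h0 := isLocalization_awayHom (k := k) (0 : A)
  have hc : Complementary (clo ζ hζ) (opn (awayHom k (0 : A)) (isOpenImmersion_spm _ 0 h0)) := by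
    have h1 : Set.range (clo ζ hζ).g =
        (Set.range (PrimeSpectrum.comap ζ.toRingHom) : Set (PrimeSpectrum A)) := rfl
    have h2 : Set.range (opn (awayHom k (0 : A)) (isOpenImmersion_spm _ 0 h0)).g =
        (Set.range (PrimeSpectrum.comap (awayHom k (0 : A)).toRingHom) :
          Set (PrimeSpectrum A)) := rfl
    have h3 : (Set.range (PrimeSpectrum.comap ζ.toRingHom) : Set (PrimeSpectrum A)) =
        (Set.range (PrimeSpectrum.comap (awayHom k (0 : A)).toRingHom))ᶜ := by
      rw [range_spm_surj ζ hζ, range_spm_away _ 0 h0]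
      ext p
      simp only [Set.mem_compl_iff, Set.mem_ofPred_eq, Submodule.zero_mem, not_true_eq_false,
        not_false_eq_true, iff_true]
      intro x hx
      obtain ⟨n, hn⟩ := hn x hx
      have h4 : x ^ n ∈ p.asIdeal := by
        rw [hn]
        exact p.asIdeal.zero_mem
      exact p.2.mem_of_pow_mem _ h4
    unfold Complementary
    rw [h1, h2]
    exact h3
  refine sub_X T m _ _ hc h (empty_aff T m _ ?_)
  exact IsLocalization.subsingleton (M := Submonoid.powers (0 : A)) (Submonoid.mem_powers _)

end HEX

open _root_.LOWD.HEX in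
theorem t_HEX : S_HEX.{v} := by
  intro k E _ _ i T m
  refine ⟨?_, ?_, ?_, ?_, ?_⟩
  · intro A B _ _ _ _ _ _ e h
    exact sub_iso T m A B e h
  · intro A Z U _ _ _ _ _ _ _ _ _ a ζ υ hζ hk hl
    have hc := complementary_away υ a hl ζ hζ hk
    exact ⟨fun hZ hU => sub_X T m _ _ hc hZ hU, fun hU hA => sub_Z T m _ _ hc hU hA⟩
  · intro A Z _ _ _ _ _ _ ζ hζ hn h
    exact sub_nil T m A Z ζ hζ hn h
  · intro A _ _ _ h
    exact empty_aff T m A h
  · intro A _ _ _ _ _ h
    refine T.artin m (aff k A) inferInstance inferInstance ?_ ?_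
    · exact (HasRingHomProperty.Spec_iff (P := @Smooth)).2 (RingHom.smooth_algebraMap.2 inferInstance)
    · rw [dim_generic_aff]
      exact h

end LOWD


end

section

/-!
# The numerical condition for the homology
-/

set_option autoImplicit false

namespace LOWD

/-- If all degrees are positive and one of them is at least two, the numerical condition of the
theorem in dimension `l` implies the one for the vanishing of the homology in degree `2 * j`,
`j ≤ l`. -/
theorem num2 (r l n j : ℕ) (d : Fin r → ℕ) (h1 : ∀ i, 1 ≤ d i) (h2 : ∃ i, 2 ≤ d i)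
    (hn : l + ∑ i, cnt l (d i) < n) (hj : j ≤ l) : 2 * j + r < n := by
  classical
  have hc1 : ∀ i, 1 ≤ cnt l (d i) := by
    intro i
    have h0 : d i ≠ 0 := by
      have := h1 i
      omega
    rw [cnt, if_neg h0]
    exact Nat.choose_pos (by have := h1 i; omega)
  obtain ⟨i₀, hi₀⟩ := h2
  have hc2 : l + 1 ≤ cnt l (d i₀) := by
    rw [cnt, if_neg (by omega)]
    calc l + 1 = (l + 1).choose l := (Nat.choose_succ_self_right l).symm
      _ ≤ (l + d i₀ - 1).choose l := Nat.choose_le_choose l (by omega)
  have h3 : ∑ i, cnt l (d i) = cnt l (d i₀) + ∑ i ∈ Finset.univ.erase i₀, cnt l (d i) :=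
    (Finset.add_sum_erase _ _ (Finset.mem_univ i₀)).symm
  have h4 : (Finset.univ.erase i₀ : Finset (Fin r)).card • 1 ≤
      ∑ i ∈ Finset.univ.erase i₀, cnt l (d i) :=
    Finset.card_nsmul_le_sum _ _ _ fun i _ => hc1 i
  have h5 : (Finset.univ.erase i₀ : Finset (Fin r)).card = r - 1 := by
    rw [Finset.card_erase_of_mem (Finset.mem_univ _), Finset.card_univ, Fintype.card_fin]
  rw [h5, smul_eq_mul, mul_one] at h4
  have h6 : 0 < r := Fin.pos i₀
  omega

end LOWD


end

section

/-!
# LOWD: from rings to varieties
-/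

set_option autoImplicit false

open Polynomial CategoryTheory AlgebraicGeometry

namespace LOWD

open CUB Pool.Agent.Lib_helper55.Beil

universe v

/-- If all cycles are rationally equivalent to zero, then the Chow group is zero. -/
lemma chow_subsingleton {k A E : Type} [Field k] [CommRing A] [Algebra k A]
    [Algebra.FiniteType k A] [Field E] (j : ℕ) (h : ∀ c : RP k A j →₀ E, c ∈ rat k A E j) :
    Subsingleton (Chow E j (aff k A)) := by
  refine ⟨fun a b => ?_⟩
  obtain ⟨a, rfl⟩ := Submodule.Quotient.mk_surjective _ a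
  obtain ⟨b, rfl⟩ := Submodule.Quotient.mk_surjective _ b
  rw [Submodule.Quotient.eq]
  obtain ⟨c, hc⟩ := (cyE (k := k) (A := A) E j).surjective (a - b)
  rw [← hc]
  exact (cyE_mem c).mpr (h c)

lemma inj_of_subsingleton {k E : Type} [Field k] [Field E] {j : ℕ} (T : Homology.{v} k E j)
    (X : Var k) (h : Subsingleton (Chow E j X)) : T.Inj X := by
  intro a b _
  exact Subsingleton.elim a b

lemma surj_of_subsingleton {k E : Type} [Field k] [Field E] {j : ℕ} (T : Homology.{v} k E j)
    (X : Var k) (h : Subsingleton (T.H (2 * j) X)) : T.Surj X ∧ T.Semisimple X :=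
  ⟨fun m _ => ⟨0, Subsingleton.elim _ _⟩, fun _ _ => Subsingleton.elim _ _⟩

/-- The theorem, from the statements of the modules. -/
theorem main (hALL : S_ALL) (hVA : S_VA.{v}) (hVB : S_VB.{v}) (k E R : Type) [Field k]
    [Finite k] [Field E] [CharZero E] [CommRing R] [Algebra k R]
    [Algebra.FiniteType k R] (n r l : ℕ) (f : Fin r → MvPolynomial (Fin n) R) (d : Fin r → ℕ)
    (hf : ∀ i, (f i).totalDegree ≤ d i) (h : l + ∑ i, cnt l (d i) < n) (j : ℕ) (hj : j ≤ l) :
    Subsingleton (Chow E j (aff k (AR f))) ∧
    ((∀ i, 1 ≤ d i) → (∃ i, 2 ≤ d i) → ∀ T : Homology.{v} k E j,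
      Subsingleton (T.H (2 * j) (aff k (AR f)))) := by
  refine ⟨chow_subsingleton j ?_, ?_⟩
  · exact hALL k R E (Fin n) (Fin r) f d hf l (by simpa using h) j hj
  · intro hd hd2 T
    have h1 : 2 * j + r < n := num2 r l n j d hd hd2 h hj
    have h2 := hVA k E j T R (Fin n)
    rw [Fintype.card_fin] at h2
    have : Algebra.FiniteType k (MvPolynomial (Fin n) R) := finiteType_mvp k (Fin n) R
    exact hVB k E j T n r (MvPolynomial (Fin n) R) (AR f) f (Ideal.Quotient.mkₐ k _) h2
      Ideal.Quotient.mk_surjective Ideal.mk_ker (2 * j) h1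

end LOWD


end

section

/-!
# LOWD: the module VA
-/

set_option autoImplicit false

open Polynomial CategoryTheory AlgebraicGeometry

namespace LOWD

open CUB Pool.Agent.Lib_helper55.Beil

universe v

namespace VA

variable {k : Type} [Field k]

lemma loc {A U : Type} [CommRing A] [Algebra k A] [CommRing U] [Algebra k U] [Algebra A U]
    [IsScalarTower k A U] (x : A) [IsLocalization.Away x U] :
    @IsLocalization.Away A _ x U _ (IsScalarTower.toAlgHom k A U).toRingHom.toAlgebra := by
  have h : (IsScalarTower.toAlgHom k A U).toRingHom.toAlgebra =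
      (inferInstance : Algebra A U) := by
    apply Algebra.algebra_ext
    intro r
    rfl
  rw [h]
  infer_instance

variable {S S' σ : Type} [CommRing S] [CommRing S'] [Algebra k S] [Algebra k S']

/-- Localisation of a surjection. -/
lemma zeta (π : S →ₐ[k] S') (hπ : Function.Surjective π) (g : MvPolynomial σ S) :
    ∃ ζ : Localization.Away g →ₐ[k] Localization.Away (MvPolynomial.mapAlgHom (σ := σ) π g),
      Function.Surjective ζ ∧
      RingHom.ker ζ.toRingHom =
        (RingHom.ker π.toRingHom).map ((algebraMap (MvPolynomial σ S) (Localization.Away g)).comp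
          MvPolynomial.C) := by
  refine ⟨Localization.awayMapₐ (MvPolynomial.mapAlgHom (σ := σ) π) g, ?_, ?_⟩
  · apply IsLocalization.Away.mapₐ_surjective_of_surjective
    exact MvPolynomial.map_surjective _ hπ
  · have hT : Submonoid.map (MvPolynomial.mapAlgHom (σ := σ) π).toRingHom (Submonoid.powers g) =
        Submonoid.powers (MvPolynomial.mapAlgHom (σ := σ) π g) := by
      rw [Submonoid.map_powers]
      rfl
    have h1 := IsLocalization.ker_map (S := Localization.Away g)
      (Localization.Away (MvPolynomial.mapAlgHom (σ := σ) π g))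
      (MvPolynomial.mapAlgHom (σ := σ) π).toRingHom hT
    have h2 : RingHom.ker (MvPolynomial.mapAlgHom (σ := σ) π).toRingHom =
        (RingHom.ker π.toRingHom).map MvPolynomial.C := MvPolynomial.ker_map π.toRingHom
    rw [h2, Ideal.map_map] at h1
    exact h1

/-- The localisation which is smooth. -/
lemma big [Fintype σ] (h : S) [IsDomain (Localization.Away h)]
    [Algebra.Smooth k (Localization.Away h)] (g : MvPolynomial σ S) :
    Subsingleton (Localization.Away
      (algebraMap (MvPolynomial σ S) (Localization.Away g) (MvPolynomial.C h))) ∨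
    (IsDomain (Localization.Away
      (algebraMap (MvPolynomial σ S) (Localization.Away g) (MvPolynomial.C h))) ∧
     Algebra.Smooth k (Localization.Away
      (algebraMap (MvPolynomial σ S) (Localization.Away g) (MvPolynomial.C h))) ∧
     (Fintype.card σ : Cardinal) ≤ Algebra.trdeg k (Localization.Away
      (algebraMap (MvPolynomial σ S) (Localization.Away g) (MvPolynomial.C h)))) := by
  let _ : Algebra (MvPolynomial σ S) (MvPolynomial σ (Localization.Away h)) :=
    MvPolynomial.algebraMvPolynomial
  have hst : IsScalarTower k (MvPolynomial σ S) (MvPolynomial σ (Localization.Away h)) := by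
    apply IsScalarTower.of_algebraMap_eq'
    rw [MvPolynomial.algebraMap_def]
    ext x
    simp only [RingHom.comp_apply, MvPolynomial.algebraMap_apply, MvPolynomial.map_C,
      ← IsScalarTower.algebraMap_apply]
  have hQ : IsLocalization.Away (MvPolynomial.C h : MvPolynomial σ S)
      (MvPolynomial σ (Localization.Away h)) := by
    have h1 : IsLocalization ((Submonoid.powers h).map (MvPolynomial.C (σ := σ)))
        (MvPolynomial σ (Localization.Away h)) :=
      MvPolynomial.isLocalization (Submonoid.powers h) (Localization.Away h)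
    rw [Submonoid.map_powers] at h1
    exact h1
  let gh : MvPolynomial σ (Localization.Away h) :=
    algebraMap (MvPolynomial σ S) (MvPolynomial σ (Localization.Away h)) g
  have hV : IsLocalization.Away (MvPolynomial.C h * g) (Localization.Away gh) :=
    IsLocalization.Away.mul' (MvPolynomial σ (Localization.Away h)) (Localization.Away gh)
      (MvPolynomial.C h) g
  have hW : IsLocalization.Away (MvPolynomial.C h * g) (Localization.Away
      (algebraMap (MvPolynomial σ S) (Localization.Away g) (MvPolynomial.C h))) := inferInstance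
  let e : Localization.Away gh ≃ₐ[MvPolynomial σ S] Localization.Away
      (algebraMap (MvPolynomial σ S) (Localization.Away g) (MvPolynomial.C h)) :=
    IsLocalization.algEquiv (Submonoid.powers (MvPolynomial.C h * g)) _ _
  let e' := e.restrictScalars k
  rcases subsingleton_or_nontrivial (Localization.Away gh) with hs | hn
  · left
    exact e.symm.injective.subsingleton
  · right
    have hgh : gh ≠ 0 := by
      intro h0
      have h1 : algebraMap _ (Localization.Away gh) gh ≠ 0 :=
        (IsLocalization.Away.algebraMap_isUnit gh).ne_zero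
      have h2 : algebraMap (MvPolynomial σ (Localization.Away h)) (Localization.Away gh) gh =
          algebraMap (MvPolynomial σ (Localization.Away h)) (Localization.Away gh) 0 :=
        congrArg _ h0
      exact h1 (h2.trans (map_zero _))
    have hle : Submonoid.powers gh ≤ nonZeroDivisors _ :=
      powers_le_nonZeroDivisors_of_noZeroDivisors hgh
    have hdom : IsDomain (Localization.Away gh) :=
      IsLocalization.isDomain_of_le_nonZeroDivisors _ hle
    have hinj : Function.Injective (algebraMap (MvPolynomial σ (Localization.Away h))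
        (Localization.Away gh)) := IsLocalization.injective _ hle
    have hsm : Algebra.Smooth k (Localization.Away gh) := by
      have h1 : Algebra.Smooth (Localization.Away h) (MvPolynomial σ (Localization.Away h)) := {}
      have h2 : Algebra.Smooth k (MvPolynomial σ (Localization.Away h)) :=
        Algebra.Smooth.comp k (Localization.Away h) _
      exact Algebra.Smooth.comp k (MvPolynomial σ (Localization.Away h)) _
    refine ⟨e.symm.toMulEquiv.isDomain _, Algebra.Smooth.of_equiv e', ?_⟩
    have h1 : AlgebraicIndependent k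
        (MvPolynomial.X : σ → MvPolynomial σ (Localization.Away h)) :=
      (MvPolynomial.algebraicIndependent_X σ (Localization.Away h)).restrictScalars
        (algebraMap k (Localization.Away h)).injective
    have h2 := h1.map' (f := e'.toAlgHom.comp (IsScalarTower.toAlgHom k
      (MvPolynomial σ (Localization.Away h)) (Localization.Away gh)))
      (e'.injective.comp hinj)
    have h3 := h2.cardinalMk_le_trdeg
    rwa [Cardinal.mk_fintype] at h3

lemma finType [Fintype σ] [Algebra.FiniteType k S] (g : MvPolynomial σ S) :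
    Algebra.FiniteType k (Localization.Away g) := by
  have h1 := finiteType_mvp k σ S
  have h2 : Algebra.FiniteType (MvPolynomial σ S) (Localization.Away g) :=
    IsLocalization.finiteType_of_monoid_fg (Submonoid.powers g) _
  exact Algebra.FiniteType.trans (S := MvPolynomial σ S) h1 h2

end VA

open _root_.LOWD.VA in
theorem t_VA : M_VA.{v} := by
  intro hHEX hNICE k E _ _ _ i T R σ _ _ _ _
  have hN : IsNoetherianRing R := Algebra.FiniteType.isNoetherianRing k R
  have main : ∀ I : Ideal R, ∀ (S : Type) [CommRing S] [Algebra k S] [Algebra.FiniteType k S]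
      (π : R →ₐ[k] S), Function.Surjective π → RingHom.ker π.toRingHom = I →
      ∀ (g : MvPolynomial σ S) [Algebra.FiniteType k (Localization.Away g)] (m : ℕ),
        m < Fintype.card σ → Subsingleton (T.H m (aff k (Localization.Away g))) := by
    intro I
    induction I using IsNoetherian.induction with
    | hgt I ih =>
      intro S _ _ _ π hπ hker g _ m hm
      obtain ⟨H1, H2, H3, H4, H5⟩ := hHEX k E i T m
      -- the induction hypothesis for a quotient of `S`
      have step : ∀ (K : Ideal S), K ≠ ⊥ → ∀ (g' : MvPolynomial σ (S ⧸ K))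
          [Algebra.FiniteType k (Localization.Away g')],
          Subsingleton (T.H m (aff k (Localization.Away g'))) := by
        intro K hK g' _
        have : Algebra.FiniteType k (S ⧸ K) := finiteType_quo k S K
        refine ih (RingHom.ker ((Ideal.Quotient.mkₐ k K).comp π).toRingHom) ?_ (S ⧸ K)
          ((Ideal.Quotient.mkₐ k K).comp π)
          ((Ideal.Quotient.mkₐ_surjective k K).comp hπ) rfl g' m hm
        rw [← hker]
        obtain ⟨s, hs, hs0⟩ := Submodule.exists_mem_ne_zero_of_ne_bot hK
        obtain ⟨r, hr⟩ := hπ s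
        refine lt_of_le_of_ne ?_ ?_
        · intro x hx
          have hx' : π x = 0 := hx
          change Ideal.Quotient.mk K (π x) = 0
          rw [hx', map_zero]
        · intro heq
          have h1 : r ∈ RingHom.ker ((Ideal.Quotient.mkₐ k K).comp π).toRingHom := by
            change Ideal.Quotient.mk K (π r) = 0
            rw [hr]
            exact Ideal.Quotient.eq_zero_iff_mem.2 hs
          rw [← heq] at h1
          have h2 : π r = 0 := h1
          exact hs0 (hr ▸ h2)
      rcases subsingleton_or_nontrivial S with hS | hS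
      · exact H4 _ (algebraMap S (Localization.Away g)).codomain_trivial
      by_cases hred : nilradical S = ⊥
      · have : IsReduced S := nilradical_eq_bot_iff.1 hred
        obtain ⟨h, hdom, hsm⟩ := hNICE k S
        have hh : h ≠ 0 := by
          intro h0
          have h1 : algebraMap S (Localization.Away h) h ≠ 0 :=
            (IsLocalization.Away.algebraMap_isUnit h).ne_zero
          have h2 : algebraMap S (Localization.Away h) h = algebraMap S (Localization.Away h) 0 :=
            congrArg _ h0
          rw [map_zero] at h2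
          exact h1 h2
        have hK : Ideal.span {h} ≠ ⊥ := by
          rw [Ne, Ideal.span_singleton_eq_bot]
          exact hh
        obtain ⟨ζ, hζ, hζk⟩ := zeta (k := k) (σ := σ)
          (Ideal.Quotient.mkₐ k (Ideal.span {h})) (Ideal.Quotient.mkₐ_surjective k _) g
        have : Algebra.FiniteType k (S ⧸ Ideal.span {h}) := finiteType_quo k S _
        have := finType (k := k)
          (MvPolynomial.mapAlgHom (σ := σ) (Ideal.Quotient.mkₐ k (Ideal.span {h})) g)
        have hfU : Algebra.FiniteType k (Localization.Away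
            (algebraMap (MvPolynomial σ S) (Localization.Away g) (MvPolynomial.C h))) := by
          have h2 : Algebra.FiniteType (Localization.Away g) (Localization.Away
            (algebraMap (MvPolynomial σ S) (Localization.Away g) (MvPolynomial.C h))) :=
            IsLocalization.finiteType_of_monoid_fg (Submonoid.powers
              (algebraMap (MvPolynomial σ S) (Localization.Away g) (MvPolynomial.C h))) _
          exact Algebra.FiniteType.trans (S := Localization.Away g) inferInstance h2
        refine (H2 (Localization.Away g) _ (Localization.Away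
          (algebraMap (MvPolynomial σ S) (Localization.Away g) (MvPolynomial.C h)))
          (algebraMap (MvPolynomial σ S) (Localization.Away g) (MvPolynomial.C h)) ζ
          (IsScalarTower.toAlgHom k _ _) hζ ?_ (loc _)).1 (step _ hK _) ?_
        · rw [hζk]
          have h1 : RingHom.ker (Ideal.Quotient.mkₐ k (Ideal.span {h})).toRingHom =
              Ideal.span {h} := Ideal.mk_ker
          rw [h1, Ideal.map_span, Set.image_singleton]
          rfl
        · rcases big (k := k) h g with hs | ⟨h1, h2, h3⟩
          · exact H4 _ hs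
          · refine H5 _ (lt_of_lt_of_le ?_ h3)
            exact_mod_cast hm
      · obtain ⟨ζ, hζ, hζk⟩ := zeta (k := k) (σ := σ)
          (Ideal.Quotient.mkₐ k (nilradical S)) (Ideal.Quotient.mkₐ_surjective k _) g
        have : Algebra.FiniteType k (S ⧸ nilradical S) := finiteType_quo k S _
        have := finType (k := k)
          (MvPolynomial.mapAlgHom (σ := σ) (Ideal.Quotient.mkₐ k (nilradical S)) g)
        refine H3 _ _ ζ hζ ?_ (step _ hred _)
        intro x hx
        have h1 : x ∈ RingHom.ker ζ.toRingHom := hx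
        rw [hζk] at h1
        have h2 : RingHom.ker (Ideal.Quotient.mkₐ k (nilradical S)).toRingHom =
            nilradical S := Ideal.mk_ker
        rw [h2] at h1
        have h3 : (nilradical S).map ((algebraMap (MvPolynomial σ S) (Localization.Away g)).comp
            MvPolynomial.C) ≤ nilradical (Localization.Away g) := by
          rw [Ideal.map_le_iff_le_comap]
          intro y hy
          rw [Ideal.mem_comap, mem_nilradical]
          exact (mem_nilradical.1 hy).map _
        exact mem_nilradical.1 (h3 h1)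
  intro g B' _ _ _ φ hloc m hm
  have hfg := finType (k := k) g
  have h1 := main ⊥ R (AlgHom.id k R) Function.surjective_id
    ((RingHom.injective_iff_ker_eq_bot _).1 Function.injective_id) g m hm
  let _ : Algebra (MvPolynomial σ R) B' := φ.toRingHom.toAlgebra
  have hst : IsScalarTower k (MvPolynomial σ R) B' :=
    IsScalarTower.of_algebraMap_eq (fun x => (φ.commutes x).symm)
  have hloc' : IsLocalization.Away g B' := hloc
  let e : Localization.Away g ≃ₐ[MvPolynomial σ R] B' :=
    IsLocalization.algEquiv (Submonoid.powers g) _ _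
  exact (hHEX k E i T m).1 _ _ (e.restrictScalars k) h1

end LOWD


end

section

/-!
# Vanishing of the homology of closed subsets defined by few equations (module VB)
-/

set_option autoImplicit false

open Polynomial CategoryTheory AlgebraicGeometry

namespace LOWD

open CUB Pool.Agent.Lib_helper55.Beil

universe v

namespace VB

/-- A localisation of a localisation away from one element is a localisation away from one
element. -/
lemma away_trans {B B1 B' : Type} [CommRing B] [CommRing B1] [CommRing B'] [Algebra B B1]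
    [Algebra B1 B'] [Algebra B B'] [IsScalarTower B B1 B'] (a : B) [IsLocalization.Away a B1]
    (g : B1) [IsLocalization.Away g B'] :
    ∃ g' : B, IsLocalization.Away g' B' := by
  refine ⟨a * (IsLocalization.Away.sec a g).1, ?_⟩
  exact IsLocalization.Away.mul_of_associated a (IsLocalization.Away.sec a g).1 g
    (IsLocalization.Away.associated_sec_fst a g)

/-- Localisations inherit the vanishing. -/
lemma van_away {k E : Type} [Field k] [Field E] {i : ℕ} (T : Homology.{v} k E i) (N : ℕ)
    (B : Type) [CommRing B] [Algebra k B] (hB : Van T N B) (a : B) :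
    Van T N (Localization.Away a) := by
  intro g B' _ _ _ φ hφ m hm
  let _ := φ.toRingHom.toAlgebra
  let _alg2 : Algebra B B' :=
    (φ.toRingHom.comp (algebraMap B (Localization.Away a))).toAlgebra
  have : IsScalarTower B (Localization.Away a) B' := IsScalarTower.of_algebraMap_eq' rfl
  have : IsLocalization.Away g B' := hφ
  obtain ⟨g', hg'⟩ := away_trans (B' := B') a g
  exact hB g' B' (φ.comp (IsScalarTower.toAlgHom k B (Localization.Away a))) hg' m hm

end VB

theorem t_VB : M_VB.{v} := by
  intro hex k E _ _ i T N r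
  induction r with
  | zero =>
    intro B A _ _ _ _ _ _ f ψ hB hψ hker m hm
    have h0 : RingHom.ker ψ.toRingHom = ⊥ := by
      rw [hker]
      simp
    have hinj : Function.Injective ψ.toRingHom := (RingHom.injective_iff_ker_eq_bot _).mpr h0
    refine hB 1 A ψ ?_ m (by omega)
    let _ := ψ.toRingHom.toAlgebra
    exact IsLocalization.away_of_isUnit_of_bijective A isUnit_one ⟨hinj, hψ⟩
  | succ r ih =>
    intro B A _ _ _ _ _ _ f ψ hB hψ hker m hm
    let I : Ideal B := Ideal.span (Set.range fun j : Fin r => f j.castSucc)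
    let a : B := f (Fin.last r)
    have hI : Ideal.span (Set.range f) = I ⊔ Ideal.span {a} := by
      rw [← Ideal.span_union]
      congr 1
      ext x
      constructor
      · rintro ⟨j, rfl⟩
        refine Fin.lastCases ?_ (fun j => ?_) j
        · exact Or.inr rfl
        · exact Or.inl ⟨j, rfl⟩
      · rintro (⟨j, rfl⟩ | rfl)
        · exact ⟨j.castSucc, rfl⟩
        · exact ⟨Fin.last r, rfl⟩
    -- the closed subset defined by the first equations
    have hA' : Subsingleton (T.H m (aff k (B ⧸ I))) :=
      ih B (B ⧸ I) (fun j => f j.castSucc) (Ideal.Quotient.mkₐ k I) hB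
        (Ideal.Quotient.mkₐ_surjective k I) (Ideal.Quotient.mkₐ_ker k I) m (by omega)
    -- its open subset where `a` does not vanish
    let Ba := Localization.Away a
    let Ia : Ideal Ba := I.map (algebraMap B Ba)
    have hIa : Ia = Ideal.span (Set.range fun j : Fin r => algebraMap B Ba (f j.castSucc)) := by
      change Ideal.map _ (Ideal.span _) = _
      rw [Ideal.map_span, ← Set.range_comp]
      rfl
    have hU : Subsingleton (T.H (m + 1) (aff k (Ba ⧸ Ia))) :=
      ih Ba (Ba ⧸ Ia) (fun j => algebraMap B Ba (f j.castSucc)) (Ideal.Quotient.mkₐ k Ia)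
        (VB.van_away T N B hB a) (Ideal.Quotient.mkₐ_surjective k Ia)
        ((Ideal.Quotient.mkₐ_ker k Ia).trans hIa) (m + 1) (by omega)
    let υ : (B ⧸ I) →ₐ[k] (Ba ⧸ Ia) :=
      Ideal.quotientMapₐ Ia (IsScalarTower.toAlgHom k B Ba) (Ideal.le_comap_map)
    have hυ : @IsLocalization.Away (B ⧸ I) _ (Ideal.Quotient.mk I a) (Ba ⧸ Ia) _
        υ.toRingHom.toAlgebra := by
      let _ := υ.toRingHom.toAlgebra
      have h1 := IsLocalization.of_surjective (Submonoid.powers a) Ba (Ideal.Quotient.mk I)
        Ideal.Quotient.mk_surjective (Ideal.Quotient.mk Ia) Ideal.Quotient.mk_surjective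
        (by rfl) (by rw [Ideal.mk_ker, Ideal.mk_ker])
      rw [Submonoid.map_powers] at h1
      exact h1
    have hIker : ∀ x ∈ I, ψ x = 0 := by
      intro x hx
      have h1 : x ∈ RingHom.ker ψ.toRingHom := by
        rw [hker, hI]
        exact Submodule.mem_sup_left hx
      exact h1
    let ζ : (B ⧸ I) →ₐ[k] A := Ideal.Quotient.liftₐ I ψ hIker
    have hζ : Function.Surjective ζ := by
      intro y
      obtain ⟨x, rfl⟩ := hψ y
      exact ⟨Ideal.Quotient.mk I x, rfl⟩
    have hζker : RingHom.ker ζ.toRingHom = Ideal.span {Ideal.Quotient.mk I a} := by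
      ext y
      obtain ⟨x, rfl⟩ := Ideal.Quotient.mk_surjective y
      have h1 : Ideal.Quotient.mk I x ∈ RingHom.ker ζ.toRingHom ↔
          x ∈ RingHom.ker ψ.toRingHom := Iff.rfl
      have h2 : Ideal.span {Ideal.Quotient.mk I a} =
          Ideal.map (Ideal.Quotient.mk I) (Ideal.span {a}) := by
        rw [Ideal.map_span, Set.image_singleton]
      rw [h1, h2, hker, hI, Ideal.mem_map_iff_of_surjective _ Ideal.Quotient.mk_surjective,
        Submodule.mem_sup]
      constructor
      · rintro ⟨y, hy, z, hz, rfl⟩
        refine ⟨z, hz, ?_⟩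
        rw [map_add, Ideal.Quotient.eq_zero_iff_mem.mpr hy, zero_add]
      · rintro ⟨z, hz, h2⟩
        refine ⟨x - z, ?_, z, hz, sub_add_cancel _ _⟩
        rw [← Ideal.Quotient.eq_zero_iff_mem, map_sub, h2, sub_self]
    exact ((hex k E i T m).2.1 (B ⧸ I) A (Ba ⧸ Ia) (Ideal.Quotient.mk I a) ζ υ hζ hζker hυ).2
      hU hA'

end LOWD


end
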