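import Mathlib
import Pool.Agent.QVM.C05
import Pool.Agent.QVM.C12

/-! Parts: CUB.A_GCO, CUB.A_GVR, CUB.A_HER, CUB.B_BETF, CUB.B_FPD, LOWD.SUB -/

section

/-!
# CUB: composition of good homomorphisms and of flat pull-backs
-/

set_option autoImplicit false

namespace CUB

open Polynomial

namespace GCO

variable {k A B C : Type} [Field k] [CommRing A] [CommRing B] [CommRing C] [Algebra k A]
  [Algebra k B] [Algebra k C]

lemma comap_comp (φ : A →ₐ[k] B) (ψ : B →ₐ[k] C) (P : PrimeSpectrum C) :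
    PrimeSpectrum.comap (ψ.comp φ).toRingHom P =
      PrimeSpectrum.comap φ.toRingHom (PrimeSpectrum.comap ψ.toRingHom P) := rfl

lemma goodAt_comp [Algebra.FiniteType k A] [Algebra.FiniteType k B] [Algebra.FiniteType k C]
    (φ : A →ₐ[k] B) (ψ : B →ₐ[k] C) (r s : ℕ) (P : PrimeSpectrum C)
    (h1 : GoodAt k r φ (PrimeSpectrum.comap ψ.toRingHom P)) (h2 : GoodAt k s ψ P) :
    GoodAt k (r + s) (ψ.comp φ) P := by
  unfold GoodAt
  rw [comap_comp]
  obtain ⟨a, ha⟩ := exists_rdim (k := k)
    (PrimeSpectrum.comap φ.toRingHom (PrimeSpectrum.comap ψ.toRingHom P))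
  obtain ⟨b, hb⟩ := exists_rdim (k := k) (PrimeSpectrum.comap ψ.toRingHom P)
  obtain ⟨c, hc⟩ := exists_rdim (k := k) P
  obtain ⟨h1a, h1b⟩ := h1
  obtain ⟨h2a, h2b⟩ := h2
  rw [ha, hb] at h1a h1b
  rw [hb, hc] at h2a h2b
  rw [ha, hc]
  have e1 : b ≤ a + r := by exact_mod_cast h1a
  have e2 : c ≤ b + s := by exact_mod_cast h2a
  constructor
  · have : c ≤ a + (r + s) := by omega
    exact_mod_cast this
  · intro h
    have e3 : c = a + (r + s) := by exact_mod_cast h
    have e4 : b = a + r := by omega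
    have e5 : c = b + s := by omega
    have m1 := h1b (by exact_mod_cast e4)
    have m2 := h2b (by exact_mod_cast e5)
    have key : (Localization.localRingHom (PrimeSpectrum.comap ψ.toRingHom P).asIdeal P.asIdeal
        ψ.toRingHom rfl).comp (algebraMap B
          (Localization.AtPrime (PrimeSpectrum.comap ψ.toRingHom P).asIdeal)) =
        (algebraMap C (Localization.AtPrime P.asIdeal)).comp ψ.toRingHom := by
      ext x
      rw [RingHom.comp_apply, RingHom.comp_apply]
      exact Localization.localRingHom_to_map _ _ _ _ x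
    refine m2.trans ?_
    rw [← key, ← Ideal.map_map, Localization.AtPrime.map_eq_maximalIdeal]
    refine (Ideal.map_mono m1).trans ?_
    rw [Ideal.map_map, ← RingHom.comp_assoc, key, RingHom.comp_assoc]
    exact le_refl _

lemma good_comp [Algebra.FiniteType k A] [Algebra.FiniteType k B] [Algebra.FiniteType k C]
    (φ : A →ₐ[k] B) (ψ : B →ₐ[k] C) (r s : ℕ) (h1 : Good k r φ) (h2 : Good k s ψ) :
    Good k (r + s) (ψ.comp φ) :=
  ⟨h1.flat.comp h2.flat, fun P => goodAt_comp φ ψ r s P (h1.at' _) (h2.at' P)⟩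

lemma pull_comp [Algebra.FiniteType k A] [Algebra.FiniteType k B] [Algebra.FiniteType k C]
    {E : Type} [Field E] (φ : A →ₐ[k] B) (ψ : B →ₐ[k] C) (r s n : ℕ) (h1 : Good k r φ)
    (h2 : Good k s ψ) (c : RP k A n →₀ E) (d : RP k B (n + r) →₀ E)
    (e : RP k C (n + r + s) →₀ E) (hc : IsPull k E r φ c d) (hd : IsPull k E s ψ d e)
    (P : RP k C (n + r + s)) :
    (∀ h : rdim k (PrimeSpectrum.comap (ψ.comp φ).toRingHom P.1) = n,
      e P = c ⟨PrimeSpectrum.comap (ψ.comp φ).toRingHom P.1, h⟩) ∧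
    (rdim k (PrimeSpectrum.comap (ψ.comp φ).toRingHom P.1) ≠ n → e P = 0) := by
  obtain ⟨a, ha⟩ := exists_rdim (k := k)
    (PrimeSpectrum.comap φ.toRingHom (PrimeSpectrum.comap ψ.toRingHom P.1))
  obtain ⟨b, hb⟩ := exists_rdim (k := k) (PrimeSpectrum.comap ψ.toRingHom P.1)
  have h1a := (h1.at' (PrimeSpectrum.comap ψ.toRingHom P.1)).1
  have h2a := (h2.at' P.1).1
  rw [ha, hb] at h1a
  rw [hb, P.2] at h2a
  have e1 : b ≤ a + r := by exact_mod_cast h1a
  have e2 : n + r + s ≤ b + s := by exact_mod_cast h2a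
  rw [comap_comp]
  constructor
  · intro h
    have e3 : a = n := by
      rw [ha] at h
      exact_mod_cast h
    have e4 : rdim k (PrimeSpectrum.comap ψ.toRingHom P.1) = ((n + r : ℕ) : Cardinal) := by
      rw [hb]
      have : b = n + r := by omega
      rw [this]
    have f1 := (hd P).1 e4
    have f2 := (hc ⟨_, e4⟩).1 h
    rw [f1, f2]
  · intro h
    by_cases e4 : rdim k (PrimeSpectrum.comap ψ.toRingHom P.1) = ((n + r : ℕ) : Cardinal)
    · have f1 := (hd P).1 e4
      have f2 := (hc ⟨_, e4⟩).2 h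
      rw [f1, f2]
    · exact (hd P).2 e4

lemma good_equiv (e : A ≃ₐ[k] B) : Good k 0 (e : A →ₐ[k] B) := by
  refine ⟨RingHom.Flat.of_bijective e.bijective, fun P => ⟨?_, fun _ => ?_⟩⟩
  · rw [rdim_comap (e : A →ₐ[k] B) e.surjective P]
    simp
  · rw [← Localization.AtPrime.map_eq_maximalIdeal, Ideal.map_le_iff_le_comap]
    intro x hx
    rw [Ideal.mem_comap]
    obtain ⟨a, rfl⟩ := e.surjective x
    exact Ideal.mem_map_of_mem
      ((algebraMap B (Localization.AtPrime P.asIdeal)).comp (e : A →ₐ[k] B).toRingHom)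
      (show a ∈ (PrimeSpectrum.comap (e : A →ₐ[k] B).toRingHom P).asIdeal from hx)

end GCO

theorem t_GCO : S_GCO := by
  refine ⟨?_, ?_, ?_, ?_⟩
  · intro k A B C _ _ _ _ _ _ _ _ _ _ φ ψ r s h1 h2
    exact GCO.good_comp φ ψ r s h1 h2
  · intro k A B C E _ _ _ _ _ _ _ _ _ _ _ φ ψ r n h1
    exact ⟨fun h2 c d e hc hd P => GCO.pull_comp φ ψ r 1 n h1 h2 c d e hc hd P,
      fun h2 c d e hc hd P => GCO.pull_comp φ ψ r 0 n h1 h2 c d e hc hd P⟩
  · intro k A B C E _ _ _ _ _ _ _ _ _ _ _ φ ψ r n h1 h2 c d e hc hd P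
    exact GCO.pull_comp φ ψ 0 r n h1 h2 c d e hc hd P
  · intro k A B _ _ _ _ _ e
    exact GCO.good_equiv e

end CUB


end

section

/-!
# CUB GVR: the homomorphism `R → VR R f` is flat with good fibres
-/

set_option autoImplicit false

open Polynomial

namespace CUB

namespace GVR

/-- the localisation homomorphism -/
noncomputable abbrev locA (k : Type) {V : Type} [Field k] [CommRing V] [Algebra k V] (b : V) :
    V →ₐ[k] Localization.Away b := IsScalarTower.toAlgHom k V (Localization.Away b)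

lemma isLoc (k : Type) {V : Type} [Field k] [CommRing V] [Algebra k V] (b : V) :
    @IsLocalization.Away V _ b (Localization.Away b) _ (locA k b).toRingHom.toAlgebra := by
  have h : (locA k b).toRingHom.toAlgebra =
      (inferInstance : Algebra V (Localization.Away b)) := Algebra.algebra_ext _ _ (fun r => rfl)
  rw [h]
  infer_instance

lemma rdim_loc {k V W : Type} [Field k] [CommRing V] [CommRing W] [Algebra k V] [Algebra k W]
    (φ : V →ₐ[k] W) (P' : PrimeSpectrum W) :
    rdim k (PrimeSpectrum.comap φ.toRingHom P') ≤ rdim k P' := by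
  unfold rdim
  have H : (PrimeSpectrum.comap φ.toRingHom P').asIdeal ≤ P'.asIdeal.comap φ := le_refl _
  exact trdeg_le_of_injective (Ideal.quotientMapₐ P'.asIdeal φ H)
    (Ideal.quotientMap_injective' (H := H) (le_refl _))

/-- the condition `GoodAt` may be checked after a localisation -/
lemma goodAt_of_loc {k A V : Type} [Field k] [CommRing A] [CommRing V] [Algebra k A]
    [Algebra k V] [Algebra.FiniteType k V] (hGLO : S_GLO) (φ : A →ₐ[k] V) (b : V)
    (P : PrimeSpectrum V) (hb : b ∉ P.asIdeal) (r : ℕ)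
    (hG : Good k r ((locA k b).comp φ)) : GoodAt k r φ P := by
  have hmem : P ∈ Set.range (PrimeSpectrum.comap (algebraMap V (Localization.Away b))) := by
    rw [PrimeSpectrum.localization_away_comap_range (Localization.Away b) b]
    exact hb
  obtain ⟨P', rfl⟩ := hmem
  have hL : Good k 0 (locA k b) := hGLO k V (Localization.Away b) (locA k b) b (isLoc k b)
  have hd : rdim k P' = rdim k (PrimeSpectrum.comap (algebraMap V (Localization.Away b)) P') := by
    refine le_antisymm ?_ (rdim_loc (locA k b) P')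
    have := (hL.at' P').1
    rwa [Nat.cast_zero, add_zero] at this
  have hP := hG.at' P'
  have hc : PrimeSpectrum.comap ((locA k b).comp φ).toRingHom P' =
      PrimeSpectrum.comap φ.toRingHom
        (PrimeSpectrum.comap (algebraMap V (Localization.Away b)) P') := rfl
  refine ⟨?_, fun heq => ?_⟩
  · rw [← hd]
    exact hP.1
  · have h2 := hP.2 (by rw [hd]; exact heq)
    set Q : PrimeSpectrum V := PrimeSpectrum.comap (algebraMap V (Localization.Away b)) P'
      with hQ
    set T := Localization.AtPrime P'.asIdeal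
    have hT : IsLocalization.AtPrime T Q.asIdeal :=
      IsLocalization.isLocalization_isLocalization_atPrime_isLocalization
        (Submonoid.powers b) T P'.asIdeal
    have hmap : (PrimeSpectrum.comap ((locA k b).comp φ).toRingHom P').asIdeal.map
        ((algebraMap (Localization.Away b) T).comp ((locA k b).comp φ).toRingHom) =
        ((PrimeSpectrum.comap φ.toRingHom Q).asIdeal.map φ.toRingHom).map (algebraMap V T) := by
      rw [Ideal.map_map, hc]
      rfl
    rw [hmap] at h2
    rw [← Localization.AtPrime.map_eq_maximalIdeal, ← Ideal.map_map, Ideal.map_le_iff_le_comap]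
    intro x hx
    have hx1 : algebraMap V T x ∈ IsLocalRing.maximalIdeal T := by
      have h3 : algebraMap V (Localization.Away b) x ∈ P'.asIdeal := hx
      have h4 := Ideal.mem_map_of_mem (algebraMap (Localization.Away b) T) h3
      rw [Localization.AtPrime.map_eq_maximalIdeal] at h4
      exact h4
    have hx2 := h2 hx1
    have : IsLocalization (Q.asIdeal.primeCompl) T := hT
    rw [IsLocalization.algebraMap_mem_map_algebraMap_iff (Q.asIdeal.primeCompl)] at hx2
    rw [Ideal.mem_comap,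
      IsLocalization.algebraMap_mem_map_algebraMap_iff (Q.asIdeal.primeCompl)]
    exact hx2

variable {k R : Type} [Field k] [CommRing R] [Algebra k R]

lemma flat (m : ℕ) (f : Fin m → R) : (VRbase (k := k) f).toRingHom.Flat := by
  have h1 : (algebraMap R (MvPolynomial (Fin m) R)).Flat :=
    RingHom.flat_algebraMap_iff.2 inferInstance
  have h2 : (algebraMap (MvPolynomial (Fin m) R) (VR R f)).Flat :=
    RingHom.flat_algebraMap_iff.2 inferInstance
  exact h1.comp h2

lemma case1 [Algebra.FiniteType k R] (hGCO : S_GCO) (hGX : S_GX) (hGET : S_GET) (m : ℕ) (f : Fin m → R) :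
    Good k m ((locA k (2 * yy (lin f) - 1)).comp (VRbase (k := k) f)) := by
  have h1 : Good k 0 ((locA k (2 * yy (lin f) - 1)).comp (Qbase (k := k) (lin f))) :=
    hGET k (MvPolynomial (Fin m) R) _ (lin f) (locA k (2 * yy (lin f) - 1)) (isLoc k _)
  have h2 : Good k m (IsScalarTower.toAlgHom k R (MvPolynomial (Fin m) R)) := hGX.2 k R m
  have h3 := hGCO.1 k R (MvPolynomial (Fin m) R) (Localization.Away (2 * yy (lin f) - 1))
    (IsScalarTower.toAlgHom k R (MvPolynomial (Fin m) R))
    ((locA k (2 * yy (lin f) - 1)).comp (Qbase (k := k) (lin f))) m 0 h2 h1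
  exact h3

lemma case2 [Algebra.FiniteType k R] (hGCO : S_GCO) (hGX : S_GX) (hGLO : S_GLO) (hVRL : S_VRL) (m : ℕ)
    (f : Fin (m + 1) → R) (l : Fin (m + 1)) :
    Good k (m + 1) ((locA k (VRbase (k := k) f (f l))).comp (VRbase (k := k) f)) := by
  obtain ⟨e, he, -⟩ := hVRL k R (Localization.Away (f l)) _ m f l (locA k (f l))
    (locA k (VRbase (k := k) f (f l))) (isLoc k _) (isLoc k _)
  have h1 : Good k 0 (locA k (f l)) := hGLO k R _ (locA k (f l)) (f l) (isLoc k _)
  have h2 : Good k m (IsScalarTower.toAlgHom k (Localization.Away (f l))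
      (MvPolynomial (Fin m) (Localization.Away (f l)))) := hGX.2 k _ m
  have h3 := hGX.1 k (MvPolynomial (Fin m) (Localization.Away (f l)))
  have h4 : Good k 0 (e.symm : (MvPolynomial (Fin m) (Localization.Away (f l)))[X] →ₐ[k]
      Localization.Away (VRbase (k := k) f (f l))) := hGCO.2.2.2 k _ _ e.symm
  have h5 := hGCO.1 k _ _ _ _ _ 0 m h1 h2
  have h6 := hGCO.1 k _ _ _ _ _ (0 + m) 1 h5 h3
  have h7 := hGCO.1 k _ _ _ _ _ (0 + m + 1) 0 h6 h4
  have h8 : (e.symm : (MvPolynomial (Fin m) (Localization.Away (f l)))[X] →ₐ[k]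
      Localization.Away (VRbase (k := k) f (f l))).comp
      ((IsScalarTower.toAlgHom k (MvPolynomial (Fin m) (Localization.Away (f l)))
      (MvPolynomial (Fin m) (Localization.Away (f l)))[X]).comp
      ((IsScalarTower.toAlgHom k (Localization.Away (f l))
      (MvPolynomial (Fin m) (Localization.Away (f l)))).comp (locA k (f l)))) =
      (locA k (VRbase (k := k) f (f l))).comp (VRbase (k := k) f) := by
    refine AlgHom.ext fun r => ?_
    have h9 := he r
    have h10 : e.symm (Polynomial.C (MvPolynomial.C (locA k (f l) r))) =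
        locA k (VRbase (k := k) f (f l)) (VRbase (k := k) f r) := by
      rw [← h9, AlgEquiv.symm_apply_apply]
    exact h10
  rw [h8, Nat.zero_add] at h7
  exact h7

lemma exists_l (m : ℕ) (f : Fin m → R) (P : PrimeSpectrum (VR R f))
    (hP : 2 * yy (lin f) - 1 ∈ P.asIdeal) : ∃ l, VRbase (k := k) f (f l) ∉ P.asIdeal := by
  by_contra hcon
  push Not at hcon
  have h1 : algebraMap (MvPolynomial (Fin m) R) (VR R f) (lin f) ∈ P.asIdeal := by
    unfold lin
    rw [map_sum]
    refine Ideal.sum_mem _ fun j _ => ?_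
    rw [map_mul]
    exact Ideal.mul_mem_left _ _ (hcon j)
  have h2 := yy_eq (lin f)
  have h3 : (1 : VR R f) = (2 * yy (lin f) - 1) * (2 * yy (lin f) - 1) -
      4 * algebraMap (MvPolynomial (Fin m) R) (VR R f) (lin f) := by
    linear_combination (-4) * h2
  refine P.2.ne_top ((Ideal.eq_top_iff_one _).2 ?_)
  rw [h3]
  exact Ideal.sub_mem _ (Ideal.mul_mem_left _ _ hP) (Ideal.mul_mem_left _ _ h1)

end GVR

theorem t_GVR : M_GVR := by
  intro _ hGCO hGX hGLO hGET hVRL k R _ _ _ _ m f
  refine ⟨GVR.flat m f, fun P => ?_⟩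
  by_cases hP : 2 * yy (lin f) - 1 ∈ P.asIdeal
  · obtain ⟨l, hl⟩ := GVR.exists_l (k := k) m f P hP
    cases m with
    | zero => exact l.elim0
    | succ m => exact GVR.goodAt_of_loc hGLO _ _ P hl _ (GVR.case2 hGCO hGX hGLO hVRL m f l)
  · exact GVR.goodAt_of_loc hGLO _ _ P hP _ (GVR.case1 hGCO hGX hGET m f)

end CUB


end

section

/-!
# CUB, HER: additivity of the length over the minimal primes of a reduced local ring
-/

set_option autoImplicit false

namespace CUB

namespace HER

section Two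

variable {C : Type} [CommRing C] {X Y Z : Type} [AddCommGroup X] [AddCommGroup Y]
  [AddCommGroup Z] [Module C X] [Module C Y] [Module C Z]

/-- lengths of cokernels add up -/
lemma two (u : X →ₗ[C] Y) (v : Y →ₗ[C] Z) (hv : Function.Injective v) :
    Module.length C (Z ⧸ LinearMap.range (v ∘ₗ u)) =
      Module.length C (Y ⧸ LinearMap.range u) + Module.length C (Z ⧸ LinearMap.range v) := by
  have h1 : LinearMap.range u ≤ (LinearMap.range (v ∘ₗ u)).comap v := by
    rintro _ ⟨x, rfl⟩
    exact ⟨x, rfl⟩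
  have h2 : LinearMap.range (v ∘ₗ u) ≤ LinearMap.range v := by
    rintro _ ⟨x, rfl⟩
    exact ⟨u x, rfl⟩
  refine Module.length_eq_add_of_exact
    (Submodule.mapQ (LinearMap.range u) (LinearMap.range (v ∘ₗ u)) v h1) (Submodule.factor h2)
    ?_ (Submodule.factor_surjective h2) ?_
  · rw [← LinearMap.ker_eq_bot, LinearMap.ker_eq_bot']
    intro y hy
    induction y using Submodule.Quotient.induction_on with
    | _ y =>
      rw [Submodule.mapQ_apply, Submodule.Quotient.mk_eq_zero] at hy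
      obtain ⟨x, hx⟩ := hy
      rw [Submodule.Quotient.mk_eq_zero]
      exact ⟨x, hv hx⟩
  · intro z
    induction z using Submodule.Quotient.induction_on with
    | _ z =>
      constructor
      · intro hz
        have h3 : (Submodule.Quotient.mk z : Z ⧸ LinearMap.range v) = 0 := hz
        rw [Submodule.Quotient.mk_eq_zero] at h3
        obtain ⟨y, hy⟩ := h3
        refine ⟨Submodule.Quotient.mk y, ?_⟩
        rw [Submodule.mapQ_apply, hy]
      · rintro ⟨y, hy⟩
        induction y using Submodule.Quotient.induction_on with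
        | _ y =>
          rw [Submodule.mapQ_apply] at hy
          rw [← hy]
          show (Submodule.Quotient.mk (v y) : Z ⧸ LinearMap.range v) = 0
          rw [Submodule.Quotient.mk_eq_zero]
          exact ⟨y, rfl⟩

end Two

section Main

variable {C : Type} [CommRing C] (I : Finset (Ideal C))

/-- the product of the quotients -/
abbrev N : Type := (Q : I) → C ⧸ (Q.1 : Ideal C)

/-- the length of the cokernel of the multiplication -/
lemma lenN (a : C) : Module.length C (N I ⧸ LinearMap.range (LinearMap.lsmul C (N I) a)) =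
    ∑ Q ∈ I, Module.length C (C ⧸ (Q ⊔ Ideal.span {a})) := by
  let g : N I →ₗ[C] ((Q : I) → C ⧸ ((Q.1 : Ideal C) ⊔ Ideal.span {a})) :=
    LinearMap.pi fun Q => (Submodule.factor (le_sup_left : (Q.1 : Ideal C) ≤
      Q.1 ⊔ Ideal.span {a})) ∘ₗ LinearMap.proj Q
  have hg : Function.Surjective g := by
    intro y
    choose c hc using fun Q : I => Submodule.Quotient.mk_surjective _ (y Q)
    refine ⟨fun Q => Submodule.Quotient.mk (c Q), ?_⟩
    funext Q
    rw [← hc Q]
    rfl
  have hk : LinearMap.ker g = LinearMap.range (LinearMap.lsmul C (N I) a) := by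
    ext y
    constructor
    · intro hy
      have hy' : ∀ Q : I, ∃ z : C ⧸ (Q.1 : Ideal C), a • z = y Q := by
        intro Q
        have h1 : g y Q = 0 := by
          rw [LinearMap.mem_ker.1 hy]
          rfl
        obtain ⟨c, hc⟩ := Submodule.Quotient.mk_surjective _ (y Q)
        have h2 : (Submodule.Quotient.mk c : C ⧸ ((Q.1 : Ideal C) ⊔ Ideal.span {a})) = 0 := by
          rw [← h1]
          show _ = Submodule.factor (le_sup_left : (Q.1 : Ideal C) ≤ Q.1 ⊔ Ideal.span {a}) (y Q)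
          rw [← hc]
          rfl
        rw [Submodule.Quotient.mk_eq_zero, Submodule.mem_sup] at h2
        obtain ⟨q, hq, r, hr, hqr⟩ := h2
        obtain ⟨t, rfl⟩ := Ideal.mem_span_singleton'.1 hr
        refine ⟨Submodule.Quotient.mk t, ?_⟩
        rw [← hc, ← Submodule.Quotient.mk_smul, Submodule.Quotient.eq]
        have h3 : a • t - c = -q := by
          rw [← hqr, smul_eq_mul]
          ring
        rw [h3]
        exact neg_mem hq
      choose z hz using hy'
      exact ⟨z, funext hz⟩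
    · rintro ⟨z, rfl⟩
      rw [LinearMap.mem_ker]
      funext Q
      obtain ⟨c, hc⟩ := Submodule.Quotient.mk_surjective _ (z Q)
      show Submodule.factor (le_sup_left : (Q.1 : Ideal C) ≤ Q.1 ⊔ Ideal.span {a}) (a • z Q) = 0
      rw [← hc, ← Submodule.Quotient.mk_smul]
      show (Submodule.Quotient.mk (a • c) : C ⧸ ((Q.1 : Ideal C) ⊔ Ideal.span {a})) = 0
      rw [Submodule.Quotient.mk_eq_zero, smul_eq_mul, mul_comm]
      exact Ideal.mem_sup_right (Ideal.mul_mem_left _ _ (Ideal.mem_span_singleton_self a))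
  rw [← hk, (LinearMap.quotKerEquivOfSurjective g hg).length_eq, Module.length_pi_of_fintype]
  exact Finset.sum_coe_sort I fun Q => Module.length C (C ⧸ (Q ⊔ Ideal.span {a}))

end Main

end HER

open _root_.CUB.HER in
/-- HER -/
theorem t_HER : S_HER := by
  intro C _ _ _ a ha hP hmax hred
  have hfin : (minimalPrimes C).Finite := minimalPrimes.finite_of_isNoetherianRing C
  refine ⟨hfin, ?_⟩
  set I : Finset (Ideal C) := hfin.toFinset with hI
  have hmem : ∀ Q : Ideal C, Q ∈ I ↔ Q ∈ minimalPrimes C := fun Q => hfin.mem_toFinset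
  have : Ring.KrullDimLE 1 C := by
    rw [Ring.krullDimLE_one_iff]
    intro P hPp
    rcases hP P hPp with h | h
    · right
      rw [h]
      exact IsLocalRing.maximalIdeal.isMaximal C
    · exact Or.inl h
  have hprime : ∀ Q ∈ I, Q.IsPrime := fun Q hQ => ((hmem Q).1 hQ).1.1
  have hinter : ∀ x : C, (∀ Q ∈ I, x ∈ Q) → x = 0 := by
    intro x hx
    have h1 : x ∈ sInf (minimalPrimes C) := by
      rw [Ideal.mem_sInf]
      intro Q hQ
      exact hx Q ((hmem Q).2 hQ)
    have h2 : sInf (minimalPrimes C) = (⊥ : Ideal C).radical := Ideal.sInf_minimalPrimes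
    rw [h2] at h1
    obtain ⟨n, hn⟩ := h1
    exact hred.eq_zero x ⟨n, hn⟩
  have hnz : ∀ b : C, b ∈ nonZeroDivisors C → ∀ Q ∈ I, b ∉ Q := by
    intro b hb Q hQ hbQ
    exact notMem_nonZeroDivisors_of_mem_mem_minimalPrimes hbQ ((hmem Q).1 hQ) hb
  -- the injective maps
  let ι : C →ₗ[C] N I := LinearMap.pi fun Q => Submodule.mkQ (Q.1 : Ideal C)
  have hι : Function.Injective ι := by
    rw [← LinearMap.ker_eq_bot, LinearMap.ker_eq_bot']
    intro x hx
    refine hinter x fun Q hQ => ?_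
    have h1 : ι x ⟨Q, hQ⟩ = 0 := by
      rw [hx]
      rfl
    exact (Submodule.Quotient.mk_eq_zero _).1 h1
  have hinj : ∀ b : C, (∀ Q ∈ I, b ∉ Q) →
      Function.Injective (LinearMap.lsmul C (N I) b) := by
    intro b hb
    rw [← LinearMap.ker_eq_bot, LinearMap.ker_eq_bot']
    intro y hy
    funext Q
    have h1 : b • y Q = 0 := congrFun hy Q
    obtain ⟨c, hc⟩ := Submodule.Quotient.mk_surjective _ (y Q)
    rw [← hc, ← Submodule.Quotient.mk_smul, Submodule.Quotient.mk_eq_zero, smul_eq_mul] at h1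
    rw [← hc]
    refine (Submodule.Quotient.mk_eq_zero _).2 ?_
    exact ((hprime Q.1 Q.2).mem_or_mem h1).resolve_left (hb Q.1 Q.2)
  -- the conductor
  have hts : ∀ Q : I, ∃ t : C, t ∉ Q.1 ∧ ∀ Q' ∈ I, Q' ≠ Q.1 → t ∈ Q' := by
    classical
    intro Q
    have h1 : ¬ (I.erase Q.1).inf id ≤ Q.1 := by
      intro h
      rw [(hprime Q.1 Q.2).inf_le'] at h
      obtain ⟨Q', hQ', h2⟩ := h
      rw [Finset.mem_erase] at hQ'
      have h3 : Q'.IsPrime := hprime Q' hQ'.2
      have h4 : Q.1 ≤ Q' := ((hmem Q.1).1 Q.2).2 ⟨h3, bot_le⟩ h2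
      exact hQ'.1 (le_antisymm h2 h4)
    obtain ⟨t, ht, ht'⟩ := SetLike.not_le_iff_exists.1 h1
    refine ⟨t, ht', fun Q' hQ' hne => ?_⟩
    exact (Finset.inf_le (Finset.mem_erase.2 ⟨hne, hQ'⟩) : (I.erase Q.1).inf id ≤ id Q') ht
  choose t ht ht' using hts
  let s : C := ∑ Q : I, t Q
  have hsQ : ∀ Q : I, ∀ c : I → C, (∑ Q' : I, t Q' * c Q') - t Q * c Q ∈ Q.1 := by
    classical
    intro Q c
    rw [← Finset.add_sum_erase _ _ (Finset.mem_univ Q), add_sub_cancel_left]
    refine Ideal.sum_mem _ fun Q' hQ' => ?_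
    refine Ideal.mul_mem_right _ _ (ht' Q' Q.1 Q.2 ?_)
    intro h
    exact (Finset.mem_erase.1 hQ').1 (Subtype.ext h.symm)
  have hs1 : ∀ Q : I, s - t Q ∈ Q.1 := by
    intro Q
    have := hsQ Q fun _ => 1
    simpa only [mul_one] using this
  have hsn : ∀ Q ∈ I, s ∉ Q := by
    intro Q hQ h
    refine ht ⟨Q, hQ⟩ ?_
    have h1 := (Ideal.sub_mem _ h (hs1 ⟨Q, hQ⟩))
    rwa [sub_sub_cancel] at h1
  have hsnz : s ∈ nonZeroDivisors C := by
    rw [mem_nonZeroDivisors_iff_right]
    intro x hx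
    refine hinter x fun Q hQ => ?_
    have h1 : x * s ∈ Q := by
      rw [hx]
      exact Q.zero_mem
    exact ((hprime Q hQ).mem_or_mem h1).resolve_right (hsn Q hQ)
  have hle : LinearMap.range (LinearMap.lsmul C (N I) s) ≤ LinearMap.range ι := by
    rintro _ ⟨y, rfl⟩
    choose c hc using fun Q : I => Submodule.Quotient.mk_surjective _ (y Q)
    refine ⟨∑ Q' : I, t Q' * c Q', ?_⟩
    funext Q
    show (Submodule.Quotient.mk (∑ Q' : I, t Q' * c Q') : C ⧸ (Q.1 : Ideal C)) = s • y Q
    rw [← hc Q, ← Submodule.Quotient.mk_smul, Submodule.Quotient.eq, smul_eq_mul]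
    have h1 : (∑ Q' : I, t Q' * c Q') - s * c Q =
        ((∑ Q' : I, t Q' * c Q') - t Q * c Q) - (s - t Q) * c Q := by ring
    rw [h1]
    exact Ideal.sub_mem _ (hsQ Q c) (Ideal.mul_mem_right _ _ (hs1 Q))
  have hfinl : Module.length C (N I ⧸ LinearMap.range ι) ≠ ⊤ := by
    have h1 : Module.length C (N I ⧸ LinearMap.range ι) ≤
        Module.length C (N I ⧸ LinearMap.range (LinearMap.lsmul C (N I) s)) :=
      Module.length_le_of_surjective (Submodule.factor hle) (Submodule.factor_surjective hle)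
    have h2 : Module.length C (C ⧸ Ideal.span {s}) ≠ ⊤ :=
      Module.length_ne_top_iff.2 (isFiniteLength_quotient_span_singleton C hsnz)
    rw [lenN] at h1
    refine ne_top_of_le_ne_top ?_ h1
    rw [← lt_top_iff_ne_top, ENat.sum_lt_top]
    intro Q _
    refine lt_of_le_of_lt ?_ (lt_top_iff_ne_top.2 h2)
    exact Module.length_le_of_surjective
      (Submodule.factor (le_sup_right : Ideal.span {s} ≤ Q ⊔ Ideal.span {s}))
      (Submodule.factor_surjective _)
  have e1 := two ι (LinearMap.lsmul C (N I) a) (hinj a (hnz a ha))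
  have e2 := two (LinearMap.lsmul C C a) ι hι
  have e3 : (LinearMap.lsmul C (N I) a) ∘ₗ ι = ι ∘ₗ (LinearMap.lsmul C C a) := by
    refine LinearMap.ext fun x => ?_
    show a • ι x = ι (a • x)
    rw [map_smul]
  rw [e3, e2, add_comm] at e1
  have e4 := ENat.add_right_injective_of_ne_top hfinl e1
  have e5 : LinearMap.range (LinearMap.lsmul C C a) = Ideal.span {a} := by
    ext x
    rw [Ideal.mem_span_singleton']
    constructor
    · rintro ⟨y, rfl⟩
      exact ⟨y, by simp [mul_comm]⟩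
    · rintro ⟨y, rfl⟩
      exact ⟨y, by simp [mul_comm]⟩
  rw [e5, lenN] at e4
  exact e4

end CUB


end

section

/-!
# CUB, module BETF: functoriality of the specialisation at infinity
-/

set_option autoImplicit false

open Polynomial

namespace CUB

namespace BETF

lemma len_zero {A : Type} [CommRing A] (I : Ideal A) (p : PrimeSpectrum A)
    (h : ¬ I ≤ p.asIdeal) : len I p = 0 := by
  unfold len
  obtain ⟨x, hx, hxp⟩ := Set.not_subset.mp h
  have h1 : I.map (algebraMap A (Localization.AtPrime p.asIdeal)) = ⊤ := by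
    apply Ideal.eq_top_of_isUnit_mem _ (Ideal.mem_map_of_mem _ hx)
    exact IsLocalization.map_units (M := p.asIdeal.primeCompl) _ ⟨x, hxp⟩
  rw [h1]
  have h2 : Subsingleton (Localization.AtPrime p.asIdeal ⧸
      (⊤ : Ideal (Localization.AtPrime p.asIdeal))) := Ideal.Quotient.subsingleton_iff.mpr rfl
  rw [Module.length_eq_zero]
  rfl

lemma len_self {A : Type} [CommRing A] (p : PrimeSpectrum A) : len p.asIdeal p = 1 := by
  unfold len
  rw [Localization.AtPrime.map_eq_maximalIdeal]
  have h : IsSimpleModule (Localization.AtPrime p.asIdeal) (Localization.AtPrime p.asIdeal ⧸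
      IsLocalRing.maximalIdeal (Localization.AtPrime p.asIdeal)) := by
    rw [isSimpleModule_iff_isCoatom]
    exact (IsLocalRing.maximalIdeal.isMaximal _).out
  rw [Module.length_eq_one]
  rfl

/-- the value at zero of the pull-back of the chart -/
lemma mem_ev0 {R : Type} [CommRing R] (p : PrimeSpectrum R) (f : R[X]) :
    f ∈ (PrimeSpectrum.comap (evalRingHom (0 : R)) p).asIdeal ↔ f.eval 0 ∈ p.asIdeal := Iff.rfl

/-- raising the degree of the reflection -/
lemma reflect_mem {S : Type} [CommRing S] (z : Ideal S[X]) (h : S[X]) (N N' : ℕ) (hN : h.natDegree ≤ N)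
    (hNN : N ≤ N') (hz : reflect N h ∈ z) : reflect N' h ∈ z := by
  have h1 := reflect_mul h (1 : S[X]) (F := N) (G := N' - N) hN (by simp)
  rw [mul_one, Nat.add_sub_cancel' hNN] at h1
  rw [h1]
  exact z.mul_mem_right _ hz

section Sup

variable {R S : Type} [CommRing R] [CommRing S]

lemma comap_sup (φ : R[X] →+* S[X]) (hφ : Function.Surjective φ) (v : Sˣ) (hX : φ X = C (v : S) * X)
    (I : Ideal S[X]) : I.comap φ ⊔ Ideal.span {X} = (I ⊔ Ideal.span {X}).comap φ := by
  apply le_antisymm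
  · refine sup_le (Ideal.comap_mono le_sup_left) ?_
    rw [Ideal.span_singleton_le_iff_mem, Ideal.mem_comap, hX]
    exact Ideal.mem_sup_right (Ideal.mul_mem_left _ _ (Ideal.mem_span_singleton_self X))
  · intro f hf
    rw [Ideal.mem_comap, Submodule.mem_sup] at hf
    obtain ⟨a, ha, b, hb, hab⟩ := hf
    obtain ⟨c, rfl⟩ := Ideal.mem_span_singleton'.mp hb
    obtain ⟨d, hd⟩ := hφ (C ((v⁻¹ : Sˣ) : S) * c)
    have h1 : φ (f - d * X) = a := by
      rw [map_sub, map_mul, hX, hd, ← hab]
      have h2 : (C ((v⁻¹ : Sˣ) : S) : S[X]) * C (v : S) = 1 := by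
        rw [← C_mul, Units.inv_mul, C_1]
      linear_combination (-c * X) * h2
    have h3 : f = (f - d * X) + d * X := by ring
    rw [h3]
    refine Submodule.add_mem_sup ?_ ?_
    · rw [Ideal.mem_comap, h1]
      exact ha
    · exact Ideal.mul_mem_left _ _ (Ideal.mem_span_singleton_self X)

end Sup

lemma infI_map {R : Type} [CommRing R] (hI : S_INFA) (p : Ideal R) :
    infI (p.map (C : R →+* R[X])) = p.map C := by
  ext g
  rw [hI.1 R]
  constructor
  · rintro ⟨N, hN, h⟩
    rw [Ideal.mem_map_C_iff] at h ⊢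
    intro i
    have h1 := h (revAt N i)
    rwa [coeff_reflect, revAt_invol] at h1
  · intro h
    refine ⟨g.natDegree, le_rfl, ?_⟩
    rw [Ideal.mem_map_C_iff] at h ⊢
    intro i
    rw [coeff_reflect]
    exact h _

lemma mapC_sup {R : Type} [CommRing R] (p : PrimeSpectrum R) :
    p.asIdeal.map (C : R →+* R[X]) ⊔ Ideal.span {X} = p.asIdeal.comap (evalRingHom (0 : R)) := by
  apply le_antisymm
  · refine sup_le ?_ ?_
    · rw [Ideal.map_le_iff_le_comap]
      intro r hr
      rw [Ideal.mem_comap, Ideal.mem_comap]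
      simpa using hr
    · rw [Ideal.span_singleton_le_iff_mem, Ideal.mem_comap]
      simp
  · intro f hf
    rw [Ideal.mem_comap, coe_evalRingHom] at hf
    rw [← divX_mul_X_add f, add_comm]
    refine Submodule.add_mem_sup ?_ (Ideal.mul_mem_left _ _ (Ideal.mem_span_singleton_self X))
    rw [coeff_zero_eq_eval_zero]
    exact Ideal.mem_map_of_mem _ hf

lemma infI_comap {R S : Type} [CommRing R] [CommRing S] (hI : S_INFA) (ψ : R →+* S) (z : Ideal S[X]) :
    infI (z.comap (mapRingHom ψ)) = (infI z).comap (mapRingHom ψ) := by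
  ext g
  rw [hI.1 R, Ideal.mem_comap, hI.1 S, coe_mapRingHom]
  constructor
  · rintro ⟨N, hN, h⟩
    refine ⟨N, natDegree_map_le.trans hN, ?_⟩
    rw [Ideal.mem_comap, coe_mapRingHom, ← reflect_map] at h
    exact h
  · rintro ⟨N, hN, h⟩
    refine ⟨max N g.natDegree, le_max_right _ _, ?_⟩
    rw [Ideal.mem_comap, coe_mapRingHom, ← reflect_map]
    exact reflect_mem z _ N _ hN (le_max_left _ _) h

lemma coeff_mu {k R : Type} [Field k] [CommRing R] [Algebra k R] (u : Rˣ) (g : R[X]) (i : ℕ) :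
    (mu (k := k) u g).coeff i = (u : R) ^ i * g.coeff i := by
  induction g using Polynomial.induction_on' with
  | add p q hp hq => rw [map_add, coeff_add, hp, hq, coeff_add, mul_add]
  | monomial n a =>
    rw [← C_mul_X_pow_eq_monomial, map_mul, map_pow, mu_C, mu_X, mul_pow, ← C_pow, ← mul_assoc, ← C_mul,
      coeff_C_mul_X_pow, coeff_C_mul_X_pow]
    split_ifs with h
    · rw [h]; ring
    · rw [mul_zero]

lemma natDegree_mu {k R : Type} [Field k] [CommRing R] [Algebra k R] (u : Rˣ) (g : R[X]) :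
    (mu (k := k) u g).natDegree = g.natDegree := by
  apply le_antisymm
  · rw [natDegree_le_iff_coeff_eq_zero]
    intro N hN
    rw [coeff_mu, coeff_eq_zero_of_natDegree_lt hN, mul_zero]
  · rw [natDegree_le_iff_coeff_eq_zero]
    intro N hN
    have h := coeff_mu (k := k) u g N
    rw [coeff_eq_zero_of_natDegree_lt hN] at h
    exact ((u ^ N).mul_right_eq_zero.mp (by rw [Units.val_pow_eq_pow_val]; exact h.symm))

lemma mu_reflect {k R : Type} [Field k] [CommRing R] [Algebra k R] (u : Rˣ) (g : R[X]) (N : ℕ)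
    (hN : g.natDegree ≤ N) : mu (k := k) u (reflect N g) = C ((u : R) ^ N) * reflect N (mu (k := k) u⁻¹ g) := by
  ext i
  rw [coeff_mu, coeff_reflect, coeff_C_mul, coeff_reflect, coeff_mu]
  rcases le_or_gt i N with h | h
  · rw [revAt_le h]
    have e : (u : R) ^ N * ((u⁻¹ : Rˣ) : R) ^ (N - i) = (u : R) ^ i := by
      rw [← Units.val_pow_eq_pow_val, ← Units.val_pow_eq_pow_val, ← Units.val_pow_eq_pow_val, ← Units.val_mul]
      congr 1
      rw [inv_pow, mul_inv_eq_iff_eq_mul, ← pow_add, Nat.add_sub_cancel' h]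
    rw [← mul_assoc, e]
  · rw [revAt_eq_self_of_lt h, coeff_eq_zero_of_natDegree_lt (hN.trans_lt h)]
    simp

lemma infI_mu {k R : Type} [Field k] [CommRing R] [Algebra k R] (hI : S_INFA) (u : Rˣ) (z : Ideal R[X]) :
    infI (z.comap (mu (k := k) u).toRingEquiv.toRingHom) =
      (infI z).comap (mu (k := k) u⁻¹).toRingEquiv.toRingHom := by
  ext g
  rw [hI.1 R, Ideal.mem_comap, hI.1 R]
  have e : ∀ N, g.natDegree ≤ N → (reflect N g ∈ z.comap (mu (k := k) u).toRingEquiv.toRingHom ↔
      reflect N (mu (k := k) u⁻¹ g) ∈ z) := by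
    intro N hN
    rw [Ideal.mem_comap]
    change mu (k := k) u (reflect N g) ∈ z ↔ _
    rw [mu_reflect u g N hN]
    constructor
    · intro h
      have h1 := z.mul_mem_left (C (((u⁻¹ : Rˣ) : R) ^ N)) h
      rw [← mul_assoc, ← C_mul, ← mul_pow, Units.inv_mul, one_pow, C_1, one_mul] at h1
      exact h1
    · exact fun h => z.mul_mem_left _ h
  have hd : (mu (k := k) u⁻¹ g).natDegree = g.natDegree := natDegree_mu _ _
  constructor
  · rintro ⟨N, hN, h⟩
    exact ⟨N, hd.le.trans hN, (e N hN).mp h⟩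
  · rintro ⟨N, hN, h⟩
    have hN' : g.natDegree ≤ N := hd.symm.le.trans hN
    exact ⟨N, hN', (e N hN').mpr h⟩

end BETF

open _root_.CUB.BETF in
theorem t_BETF : M_BETF := by
  intro hD hL hI
  refine ⟨?_, ?_, ?_, ?_⟩
  · intro k R _ _ _ _ n p p'
    unfold bet
    rw [infI_map hI, mapC_sup]
    have h1 := hL R[X] R (evalRingHom (0 : R)) (fun r => ⟨C r, by simp⟩) p.1.asIdeal p'.1
    rw [h1]
    split_ifs with h
    · rw [h, len_self]
    · refine len_zero _ _ fun hle => ?_
      have h2 : p.1 ≤ p'.1 := hle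
      rcases h2.lt_or_eq with h3 | h3
      · have h4 := (hD k R p.1).2 p'.1 h3
        rw [p.2, p'.2] at h4
        exact lt_irrefl _ h4
      · exact h (Subtype.ext h3)
  · intro R S _ _ ψ hψ z p
    unfold bet
    have hs : Function.Surjective (mapRingHom ψ) := Polynomial.map_surjective ψ hψ
    rw [infI_comap hI, comap_sup (mapRingHom ψ) hs 1 (by simp)]
    have h1 : PrimeSpectrum.comap (evalRingHom (0 : R)) (PrimeSpectrum.comap ψ p) =
        PrimeSpectrum.comap (mapRingHom ψ) (PrimeSpectrum.comap (evalRingHom (0 : S)) p) := by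
      ext f
      change ψ (f.eval 0) ∈ p.asIdeal ↔ (f.map ψ).eval 0 ∈ p.asIdeal
      rw [← coeff_zero_eq_eval_zero, ← coeff_zero_eq_eval_zero, coeff_map]
    rw [h1]
    exact hL _ _ _ hs _ _
  · intro R S _ _ ψ hψ z p hp
    unfold bet
    obtain ⟨r, hr, hrp⟩ := Set.not_subset.mp hp
    refine len_zero _ _ fun hle => hrp ?_
    have h1 : (C r : R[X]) ∈ infI (z.comap (mapRingHom ψ)) := by
      rw [hI.1 R]
      refine ⟨0, by simp, ?_⟩
      rw [Ideal.mem_comap, coe_mapRingHom, reflect_C, pow_zero, mul_one, map_C, RingHom.mem_ker.mp hr, C_0]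
      exact z.zero_mem
    have h2 := hle (Ideal.mem_sup_left h1)
    rw [mem_ev0, eval_C] at h2
    exact h2
  · intro k R _ _ _ u z p
    unfold bet
    have hs : Function.Surjective (mu (k := k) u⁻¹).toRingEquiv.toRingHom := (mu (k := k) u⁻¹).surjective
    rw [infI_mu hI, comap_sup (mu (k := k) u⁻¹).toRingEquiv.toRingHom hs u⁻¹ (mu_X (k := k) u⁻¹)]
    have h1 : PrimeSpectrum.comap (evalRingHom (0 : R)) p =
        PrimeSpectrum.comap (mu (k := k) u⁻¹).toRingEquiv.toRingHom
          (PrimeSpectrum.comap (evalRingHom (0 : R)) p) := by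
      ext f
      change f.eval 0 ∈ p.asIdeal ↔ (mu (k := k) u⁻¹ f).eval 0 ∈ p.asIdeal
      rw [← coeff_zero_eq_eval_zero, ← coeff_zero_eq_eval_zero, coeff_mu, pow_zero, one_mul]
    conv_lhs => rw [h1]
    exact hL _ _ _ hs _ _

end CUB


end

section

/-!
# CUB, module FPD: the flat pull-back of a divisor is a sum of divisors
-/

set_option autoImplicit false
set_option linter.unusedSectionVars false

namespace CUB

namespace FPD

open TensorProduct

/-- elements outside a prime of the base are non zero divisors on flat fibres -/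
theorem nzd {A S : Type} [CommRing A] [CommRing S] (f : A →+* S) (hf : f.Flat) (q : Ideal A)
    (hq : q.IsPrime) {s : A} (hs : s ∉ q) :
    Ideal.Quotient.mk (q.map f) (f s) ∈ nonZeroDivisors (S ⧸ q.map f) := by
  algebraize [f]
  have h1 : IsSMulRegular (A ⧸ q) s := by
    have h0 : Function.Injective (fun x : A ⧸ q => s • x) := by
      intro x y hxy
      obtain ⟨x, rfl⟩ := Ideal.Quotient.mk_surjective x
      obtain ⟨y, rfl⟩ := Ideal.Quotient.mk_surjective y
      have h2 : Ideal.Quotient.mk q (s * x) = Ideal.Quotient.mk q (s * y) := hxy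
      rw [Ideal.Quotient.eq, ← mul_sub] at h2
      rw [Ideal.Quotient.eq]
      exact (hq.mem_or_mem h2).resolve_left hs
    exact h0
  have h2 : IsSMulRegular (S ⊗[A] (A ⧸ q)) s := h1.lTensor S
  let e := Algebra.TensorProduct.quotIdealMapEquivTensorQuot S q
  rw [mem_nonZeroDivisors_iff_right]
  intro x hx
  have h3 : s • e x = s • (0 : S ⊗[A] (A ⧸ q)) := by
    rw [smul_zero]
    have h4 : e (Ideal.Quotient.mk (q.map f) (f s) * x) = 0 := by
      rw [mul_comm]
      exact (congrArg e hx).trans (map_zero e)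
    have h5 : Ideal.Quotient.mk (q.map f) (f s) * x = (f s) • x := by
      rw [Algebra.smul_def]
      rfl
    rw [h5] at h4
    have h6 : e ((f s) • x) = (f s) • e x := map_smul e (f s) x
    rw [h6] at h4
    have h7 : (f s) • e x = s • e x := by
      exact algebraMap_smul S s (e x)
    rw [← h7]
    exact h4
  have h4 : e x = 0 := h2 h3
  exact (map_eq_zero_iff e e.injective).mp h4

/-- surjective homomorphisms, lengths of the quotients -/
theorem length_quot {R S : Type} [CommRing R] [CommRing S] (f : R →+* S)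
    (hf : Function.Surjective f) (I : Ideal R) (J : Ideal S) (h : I = J.comap f) :
    Module.length R (R ⧸ I) = Module.length S (S ⧸ J) := by
  let _ : Algebra R S := f.toAlgebra
  have h1 : Module.length R (S ⧸ J) = Module.length S (S ⧸ J) :=
    Module.length_eq_of_surjective (R := S) (S := R) (M := S ⧸ J) hf
  rw [← h1]
  let g : R →ₐ[R] (S ⧸ J) := Algebra.ofId R (S ⧸ J)
  have hg : ∀ x, g x = Ideal.Quotient.mk J (f x) := fun x => rfl
  have hgs : Function.Surjective g.toLinearMap := by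
    intro y
    obtain ⟨z, rfl⟩ := Ideal.Quotient.mk_surjective y
    obtain ⟨x, rfl⟩ := hf z
    exact ⟨x, rfl⟩
  have hk : LinearMap.ker g.toLinearMap = I := by
    ext x
    rw [LinearMap.mem_ker, h, Ideal.mem_comap]
    have : g.toLinearMap x = Ideal.Quotient.mk J (f x) := rfl
    rw [this, Ideal.Quotient.eq_zero_iff_mem]
  have e := g.toLinearMap.quotKerEquivOfSurjective hgs
  rw [hk] at e
  exact e.length_eq

/-- lengths over a quotient -/
theorem length_mk {S : Type} [CommRing S] (K J : Ideal S) (h : K ≤ J) :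
    Module.length S (S ⧸ J) =
      Module.length (S ⧸ K) ((S ⧸ K) ⧸ J.map (Ideal.Quotient.mk K)) :=
  length_quot (Ideal.Quotient.mk K) Ideal.Quotient.mk_surjective J _ (Ideal.comap_map_mk h).symm

/-- the length of `A_p / I A_p` -/
noncomputable def lenE {A : Type} [CommRing A] (I : Ideal A) (p : PrimeSpectrum A) : ℕ∞ :=
  Module.length (Localization.AtPrime p.asIdeal) (Localization.AtPrime p.asIdeal ⧸
    I.map (algebraMap A (Localization.AtPrime p.asIdeal)))

section Fibre

variable {A B : Type} [CommRing A] [CommRing B] (φ : A →+* B) (q : Ideal A) (P : PrimeSpectrum B)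

/-- the ideal of the fibre -/
noncomputable abbrev KK : Ideal (Localization.AtPrime P.asIdeal) :=
  q.map ((algebraMap B (Localization.AtPrime P.asIdeal)).comp φ)

/-- the local ring of the fibre -/
abbrev CC : Type := Localization.AtPrime P.asIdeal ⧸ KK φ q P

/-- the homomorphism to the local ring of the fibre -/
noncomputable def gg : B →+* CC φ q P :=
  (Ideal.Quotient.mk (KK φ q P)).comp (algebraMap B (Localization.AtPrime P.asIdeal))

theorem gg_apply (b : B) : gg φ q P b = Ideal.Quotient.mk (KK φ q P) (algebraMap B _ b) := rfl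

theorem gg_q {x : A} (hx : x ∈ q) : gg φ q P (φ x) = 0 := by
  rw [gg_apply, Ideal.Quotient.eq_zero_iff_mem]
  exact Ideal.mem_map_of_mem ((algebraMap B (Localization.AtPrime P.asIdeal)).comp φ) hx

theorem gg_mapq {x : B} (hx : x ∈ q.map φ) : gg φ q P x = 0 := by
  have h : q.map φ ≤ RingHom.ker (gg φ q P) := by
    rw [Ideal.map_le_iff_le_comap]
    intro y hy
    exact gg_q φ q P hy
  exact h hx

theorem gg_unit {s : B} (hs : s ∉ P.asIdeal) : IsUnit (gg φ q P s) := by
  have h : IsUnit (algebraMap B (Localization.AtPrime P.asIdeal) s) :=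
    IsLocalization.map_units (Localization.AtPrime P.asIdeal) (⟨s, hs⟩ : P.asIdeal.primeCompl)
  exact h.map (Ideal.Quotient.mk (KK φ q P))

theorem gg_repr (x : CC φ q P) : ∃ b t : B, t ∉ P.asIdeal ∧ gg φ q P t * x = gg φ q P b := by
  obtain ⟨y, rfl⟩ := Ideal.Quotient.mk_surjective x
  obtain ⟨b, t, rfl⟩ := IsLocalization.exists_mk'_eq P.asIdeal.primeCompl y
  refine ⟨b, t.1, t.2, ?_⟩
  rw [gg_apply, gg_apply, ← map_mul, IsLocalization.mk'_spec']

theorem map_comap_gg (I : Ideal (CC φ q P)) : (I.comap (gg φ q P)).map (gg φ q P) = I := by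
  apply le_antisymm Ideal.map_comap_le
  intro x hx
  obtain ⟨b, t, ht, h⟩ := gg_repr φ q P x
  have h1 : gg φ q P b ∈ (I.comap (gg φ q P)).map (gg φ q P) := by
    apply Ideal.mem_map_of_mem
    rw [Ideal.mem_comap, ← h]
    exact I.mul_mem_left _ hx
  rw [← h] at h1
  exact (Ideal.unit_mul_mem_iff_mem _ (gg_unit φ q P ht)).mp h1

theorem comap_le (I : Ideal (CC φ q P)) (hI : I ≠ ⊤) : I.comap (gg φ q P) ≤ P.asIdeal := by
  intro x hx
  by_contra h
  exact hI (Ideal.eq_top_of_isUnit_mem I hx (gg_unit φ q P h))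

theorem le_comap (I : Ideal (CC φ q P)) : q.map φ ≤ I.comap (gg φ q P) := by
  intro x hx
  rw [Ideal.mem_comap, gg_mapq φ q P hx]
  exact I.zero_mem

theorem kk_le {Q : Ideal B} (hq : q.map φ ≤ Q) :
    KK φ q P ≤ Q.map (algebraMap B (Localization.AtPrime P.asIdeal)) := by
  have h := Ideal.map_mono (f := algebraMap B (Localization.AtPrime P.asIdeal)) hq
  rw [Ideal.map_map] at h
  exact h

theorem map_gg (Q : Ideal B) : Q.map (gg φ q P) =
    (Q.map (algebraMap B (Localization.AtPrime P.asIdeal))).map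
      (Ideal.Quotient.mk (KK φ q P)) := by
  rw [Ideal.map_map]
  rfl

theorem prime_map {Q : Ideal B} (hQ : Q.IsPrime) (hq : q.map φ ≤ Q) (hP : Q ≤ P.asIdeal) :
    (Q.map (gg φ q P)).IsPrime ∧ (Q.map (gg φ q P)).comap (gg φ q P) = Q := by
  have hd : Disjoint (P.asIdeal.primeCompl : Set B) Q := by
    rw [Set.disjoint_left]
    intro x hx hx'
    exact hx (hP hx')
  have h1 : (Q.map (algebraMap B (Localization.AtPrime P.asIdeal))).IsPrime :=
    IsLocalization.isPrime_of_isPrime_disjoint P.asIdeal.primeCompl _ _ hQ hd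
  have h2 := IsLocalization.under_map_of_isPrime_disjoint P.asIdeal.primeCompl
    (Localization.AtPrime P.asIdeal) hQ hd
  have hk := kk_le φ q P hq
  constructor
  · rw [map_gg]
    apply Ideal.map_isPrime_of_surjective Ideal.Quotient.mk_surjective
    rw [Ideal.mk_ker]
    exact hk
  · rw [map_gg]
    unfold gg
    rw [← Ideal.comap_comap, Ideal.comap_map_mk hk]
    exact h2

end Fibre

section Local

variable {A B : Type} [CommRing A] [CommRing B] [IsNoetherianRing B] (φ : A →+* B)
  (q : PrimeSpectrum A) (P : PrimeSpectrum B)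

/-- the local ring of the fibre is a local ring -/
theorem local_cc (hqP : q.asIdeal.map φ ≤ P.asIdeal) :
    IsLocalRing (CC φ q.asIdeal P) := by
  have h1 := (prime_map φ q.asIdeal P P.isPrime hqP le_rfl).1
  have hn : Nontrivial (CC φ q.asIdeal P) := by
    by_contra h
    rw [not_nontrivial_iff_subsingleton] at h
    exact h1.ne_top (Subsingleton.elim _ _)
  exact IsLocalRing.of_surjective' (Ideal.Quotient.mk (KK φ q.asIdeal P))
    Ideal.Quotient.mk_surjective

theorem noeth_cc : IsNoetherianRing (CC φ q.asIdeal P) := by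
  have hS : IsNoetherianRing (Localization.AtPrime P.asIdeal) :=
    IsLocalization.isNoetherianRing P.asIdeal.primeCompl _ inferInstance
  infer_instance

theorem comap_max (hqP : q.asIdeal.map φ ≤ P.asIdeal) [IsLocalRing (CC φ q.asIdeal P)] :
    (IsLocalRing.maximalIdeal (CC φ q.asIdeal P)).comap (gg φ q.asIdeal P) = P.asIdeal := by
  have h1 := prime_map φ q.asIdeal P P.isPrime hqP le_rfl
  apply le_antisymm
  · exact comap_le φ q.asIdeal P _ (IsLocalRing.maximalIdeal.isMaximal _).ne_top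
  · have h2 := IsLocalRing.le_maximalIdeal h1.1.ne_top
    have h3 := Ideal.comap_mono (f := gg φ q.asIdeal P) h2
    rw [h1.2] at h3
    exact h3

theorem eq_of_comap {I J : Ideal (CC φ q.asIdeal P)}
    (h : I.comap (gg φ q.asIdeal P) = J.comap (gg φ q.asIdeal P)) : I = J := by
  rw [← map_comap_gg φ q.asIdeal P I, h, map_comap_gg]

theorem lenE_sum (hφ : φ.Flat) (a : A) (ha : a ∉ q.asIdeal) (haP : φ a ∈ P.asIdeal)
    (hqP : q.asIdeal.map φ ≤ P.asIdeal) (T : Finset (PrimeSpectrum B))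
    (hT : ∀ Q : PrimeSpectrum B, Q ∈ T ↔ q.asIdeal.map φ ≤ Q.asIdeal ∧ Q < P)
    (hinc : ∀ Q ∈ T, ∀ Q' ∈ T, Q ≤ Q' → Q = Q')
    (hred : ∀ Q ∈ T, IsLocalRing.maximalIdeal (Localization.AtPrime Q.asIdeal) ≤
      q.asIdeal.map ((algebraMap B (Localization.AtPrime Q.asIdeal)).comp φ))
    (her : S_HER) :
    lenE (q.asIdeal.map φ ⊔ Ideal.span {φ a}) P =
      ∑ Q ∈ T, lenE (Q.asIdeal ⊔ Ideal.span {φ a}) P := by
  have hloc := local_cc φ q P hqP
  have hnoe := noeth_cc φ q P
  have hmax := comap_max φ q P hqP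
  -- the element
  have hreg : gg φ q.asIdeal P (φ a) ∈ nonZeroDivisors (CC φ q.asIdeal P) := by
    have hf : ((algebraMap B (Localization.AtPrime P.asIdeal)).comp φ).Flat := by
      apply RingHom.Flat.comp hφ
      have h1 : Module.Flat B (Localization.AtPrime P.asIdeal) :=
        IsLocalization.flat _ P.asIdeal.primeCompl
      exact (RingHom.flat_algebraMap_iff).mpr h1
    exact nzd _ hf q.asIdeal q.isPrime ha
  -- the primes
  have hmem : ∀ I : Ideal (CC φ q.asIdeal P), ∀ hI : I.IsPrime,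
      I ≠ IsLocalRing.maximalIdeal (CC φ q.asIdeal P) →
      (⟨I.comap (gg φ q.asIdeal P), Ideal.comap_isPrime _ _⟩ : PrimeSpectrum B) ∈ T := by
    intro I hI hne
    rw [hT]
    refine ⟨le_comap φ q.asIdeal P I, lt_of_le_of_ne (comap_le φ q.asIdeal P I hI.ne_top) ?_⟩
    intro h
    apply hne
    apply eq_of_comap
    rw [hmax]
    exact congrArg PrimeSpectrum.asIdeal h
  have hpr : ∀ I : Ideal (CC φ q.asIdeal P), I.IsPrime →
      I = IsLocalRing.maximalIdeal (CC φ q.asIdeal P) ∨ I ∈ minimalPrimes (CC φ q.asIdeal P) := by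
    intro I hI
    by_cases hne : I = IsLocalRing.maximalIdeal (CC φ q.asIdeal P)
    · exact Or.inl hne
    right
    refine ⟨⟨hI, bot_le⟩, ?_⟩
    rintro J ⟨hJ, -⟩ hJI
    have hJne : J ≠ IsLocalRing.maximalIdeal (CC φ q.asIdeal P) := by
      intro h
      apply hne
      apply le_antisymm (IsLocalRing.le_maximalIdeal hI.ne_top)
      rw [← h]
      exact hJI
    have h1 := hinc _ (hmem J hJ hJne) _ (hmem I hI hne)
      (Ideal.comap_mono (f := gg φ q.asIdeal P) hJI)
    have h2 := congrArg PrimeSpectrum.asIdeal h1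
    exact (eq_of_comap φ q P h2).symm.le
  have hmaxnot : IsLocalRing.maximalIdeal (CC φ q.asIdeal P) ∉
      minimalPrimes (CC φ q.asIdeal P) := by
    intro h
    have h1 := Ideal.disjoint_nonZeroDivisors_of_mem_minimalPrimes h
    have h2 : gg φ q.asIdeal P (φ a) ∈ IsLocalRing.maximalIdeal (CC φ q.asIdeal P) := by
      have h3 : φ a ∈ (IsLocalRing.maximalIdeal (CC φ q.asIdeal P)).comap (gg φ q.asIdeal P) := by
        rw [hmax]
        exact haP
      exact h3
    exact Set.disjoint_left.mp h1 h2 hreg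
  have hredC : IsReduced (CC φ q.asIdeal P) := by
    constructor
    intro x hx
    by_contra hx0
    obtain ⟨I, hI, hle⟩ := exists_le_isAssociatedPrime_of_isNoetherianRing (CC φ q.asIdeal P) x hx0
    obtain ⟨hIp, y, hy⟩ := (Submodule.isAssociatedPrime_iff).mp hI
    have hne : I ≠ IsLocalRing.maximalIdeal (CC φ q.asIdeal P) := by
      intro h
      have h2 : gg φ q.asIdeal P (φ a) ∈ I := by
        have h3 : φ a ∈ (IsLocalRing.maximalIdeal (CC φ q.asIdeal P)).comap
            (gg φ q.asIdeal P) := by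
          rw [hmax]
          exact haP
        rw [h]
        exact h3
      rw [hy, Submodule.mem_colon_singleton, smul_eq_mul, Submodule.mem_bot] at h2
      have h3 : y = 0 := by
        rw [mul_comm] at h2
        exact (mem_nonZeroDivisors_iff_right.mp hreg) y h2
      apply hIp.ne_top
      rw [hy, h3, Ideal.eq_top_iff_one, Submodule.mem_colon_singleton]
      simp
    have hQ := hmem I hIp hne
    have hm := hred _ hQ
    obtain ⟨b, t, ht, hbt⟩ := gg_repr φ q.asIdeal P x
    have hxI : x ∈ I := by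
      obtain ⟨m, hm⟩ := hx
      have h1 : x ^ m ∈ I := by
        rw [hm]
        exact I.zero_mem
      exact hIp.mem_of_pow_mem m h1
    have hb : b ∈ I.comap (gg φ q.asIdeal P) := by
      rw [Ideal.mem_comap, ← hbt]
      exact I.mul_mem_left _ hxI
    have hprc : (I.comap (gg φ q.asIdeal P)).IsPrime := Ideal.comap_isPrime _ _
    have hb2 : algebraMap B (Localization.AtPrime (I.comap (gg φ q.asIdeal P))) b ∈
        IsLocalRing.maximalIdeal (Localization.AtPrime (I.comap (gg φ q.asIdeal P))) := by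
      rw [← Localization.AtPrime.map_eq_maximalIdeal]
      exact Ideal.mem_map_of_mem _ hb
    have hb3 := hm hb2
    rw [← Ideal.map_map, IsLocalization.algebraMap_mem_map_algebraMap_iff
      (I.comap (gg φ q.asIdeal P)).primeCompl] at hb3
    obtain ⟨s, hs, hsb⟩ := hb3
    have h1 := gg_mapq φ q.asIdeal P hsb
    rw [map_mul, ← hbt, mul_left_comm] at h1
    have h2 : gg φ q.asIdeal P s * x = 0 := by
      have h3 := gg_unit φ q.asIdeal P ht
      exact (h3.mul_right_eq_zero).mp h1
    apply hs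
    change gg φ q.asIdeal P s ∈ I
    apply hle
    rw [Submodule.mem_colon_singleton, smul_eq_mul, h2]
    exact Submodule.zero_mem _
  obtain ⟨hfin, hsum⟩ := her (CC φ q.asIdeal P) (gg φ q.asIdeal P (φ a)) hreg hpr hmaxnot hredC
  -- the lengths
  have hl : ∀ J : Ideal B, q.asIdeal.map φ ≤ J →
      lenE (J ⊔ Ideal.span {φ a}) P = Module.length (CC φ q.asIdeal P)
        (CC φ q.asIdeal P ⧸ (J.map (gg φ q.asIdeal P) ⊔
          Ideal.span {gg φ q.asIdeal P (φ a)})) := by
    intro J hJ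
    unfold lenE
    rw [length_mk (KK φ q.asIdeal P) _ ((kk_le φ q.asIdeal P hJ).trans
      (Ideal.map_mono le_sup_left))]
    rw [Ideal.map_sup, Ideal.map_sup, ← map_gg, Ideal.map_span, Set.image_singleton,
      Ideal.map_span, Set.image_singleton]
    rfl
  have hq0 : (q.asIdeal.map φ).map (gg φ q.asIdeal P) = ⊥ := by
    rw [eq_bot_iff, Ideal.map_le_iff_le_comap]
    intro x hx
    rw [Ideal.mem_comap, gg_mapq φ q.asIdeal P hx]
    exact Ideal.zero_mem _
  rw [hl _ le_rfl, hq0, bot_sup_eq, hsum]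
  symm
  have hTq : ∀ Q ∈ T, q.asIdeal.map φ ≤ Q.asIdeal ∧ Q < P := fun Q hQ => (hT Q).mp hQ
  apply Finset.sum_bij (fun (Q : PrimeSpectrum B) (_ : Q ∈ T) => Q.asIdeal.map (gg φ q.asIdeal P))
  · intro Q hQ
    rw [Set.Finite.mem_toFinset]
    have h1 := prime_map φ q.asIdeal P Q.isPrime (hTq Q hQ).1 (hTq Q hQ).2.le
    refine (hpr _ h1.1).resolve_left ?_
    intro h2
    have h3 := h1.2
    rw [h2, hmax] at h3
    exact (hTq Q hQ).2.ne (PrimeSpectrum.ext h3.symm)
  · intro Q hQ Q' hQ' h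
    have h1 := prime_map φ q.asIdeal P Q.isPrime (hTq Q hQ).1 (hTq Q hQ).2.le
    have h2 := prime_map φ q.asIdeal P Q'.isPrime (hTq Q' hQ').1 (hTq Q' hQ').2.le
    apply PrimeSpectrum.ext
    rw [← h1.2, ← h2.2]
    exact congrArg _ h
  · intro I hI
    rw [Set.Finite.mem_toFinset] at hI
    have hIp : I.IsPrime := hI.1.1
    have hne : I ≠ IsLocalRing.maximalIdeal (CC φ q.asIdeal P) := by
      intro h
      apply hmaxnot
      rw [← h]
      exact hI
    exact ⟨_, hmem I hIp hne, map_comap_gg φ q.asIdeal P I⟩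
  · intro Q hQ
    exact hl _ (hTq Q hQ).1

end Local

section Global

variable {k A B E : Type} [Field k] [CommRing A] [CommRing B] [Algebra k A] [Algebra k B]
  [Algebra.FiniteType k A] [Algebra.FiniteType k B] [Field E]

/-- the dimension of the primes of the fibre -/
theorem dims (h1 : S_DIM1) {r n : ℕ} {φ : A →ₐ[k] B} (hφ : Good k r φ) (q : RP k A (n + 1))
    (P : RP k B (n + r)) (Q : PrimeSpectrum B) (hq : q.1.asIdeal.map φ.toRingHom ≤ Q.asIdeal)
    (hQ : Q < P.1) : PrimeSpectrum.comap φ.toRingHom Q = q.1 ∧ rdim k Q = (n + 1 + r : ℕ) := by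
  obtain ⟨⟨m, hm⟩, h2⟩ := h1 k B Q
  obtain ⟨⟨l, hl⟩, -⟩ := h1 k A (PrimeSpectrum.comap φ.toRingHom Q)
  have h3 := h2 P.1 hQ
  rw [hm, P.2] at h3
  have h4 : n + r < m := by exact_mod_cast h3
  have h5 := (hφ.at' Q).1
  rw [hm, hl] at h5
  have h6 : m ≤ l + r := by exact_mod_cast h5
  have h7 : q.1 ≤ PrimeSpectrum.comap φ.toRingHom Q := Ideal.map_le_iff_le_comap.mp hq
  rcases h7.eq_or_lt with h8 | h8
  · refine ⟨h8.symm, ?_⟩
    rw [← h8, q.2] at hl
    have h9 : n + 1 = l := by exact_mod_cast hl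
    rw [hm]
    have h10 : m = n + 1 + r := by omega
    rw [h10]
  · exfalso
    have h9 := (h1 k A q.1).2 _ h8
    rw [hl, q.2] at h9
    have h10 : l < n + 1 := by exact_mod_cast h9
    omega

theorem len_eq {A : Type} [CommRing A] (I : Ideal A) (p : PrimeSpectrum A) :
    len I p = (lenE I p).toNat := rfl

theorem toNat_sum {ι : Type} (s : Finset ι) (f : ι → ℕ∞) (h : ∀ i ∈ s, f i ≠ ⊤) :
    ∑ i ∈ s, f i ≠ ⊤ ∧ (∑ i ∈ s, f i).toNat = ∑ i ∈ s, (f i).toNat := by
  classical
  induction s using Finset.induction_on with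
  | empty => simp
  | insert a s ha ih =>
    have h1 := h a (Finset.mem_insert_self a s)
    have h2 := ih fun i hi => h i (Finset.mem_insert_of_mem hi)
    rw [Finset.sum_insert ha, Finset.sum_insert ha]
    refine ⟨?_, ?_⟩
    · rw [Ne, ENat.add_eq_top, not_or]
      exact ⟨h1, h2.1⟩
    · rw [ENat.toNat_add h1 h2.1, h2.2]

/-- the flat pull-back of a divisor is the sum of the divisors on the fibre components -/
theorem gen (h1 : S_DIM1) (hLB : S_LENB) (hLC : S_LENC) (hDV : S_DVX) (hHE : S_HER)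
    (hFX : S_FPX) {r n : ℕ} {φ : A →ₐ[k] B} (hφ : Good k r φ)
    (q : RP k A (n + 1)) (a : A) (ha : a ∉ q.1.asIdeal)
    (c : RP k A n →₀ E) (hc : IsDv k E q.1 a c) (d : RP k B (n + r) →₀ E)
    (hd : IsPull k E r φ c d) :
    ∃ (S : Finset (RP k B (n + r + 1))) (e : RP k B (n + r + 1) → (RP k B (n + r) →₀ E)),
      (∀ P, P ∈ S ↔ PrimeSpectrum.comap φ.toRingHom P.1 = q.1) ∧
      (∀ P ∈ S, φ a ∉ P.1.asIdeal ∧ IsDv k E P.1 (φ a) (e P)) ∧ d = ∑ P ∈ S, e P := by
  classical
  obtain ⟨d', hd'⟩ := hFX k A B E r (n + 1) φ hφ (Finsupp.single q 1)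
  have hm : ∀ Q : RP k B (n + 1 + r), Q ∈ d'.support ↔
      PrimeSpectrum.comap φ.toRingHom Q.1 = q.1 := by
    intro Q
    rw [Finsupp.mem_support_iff]
    constructor
    · intro h
      by_cases h2 : rdim k (PrimeSpectrum.comap φ.toRingHom Q.1) = (n + 1 : ℕ)
      · rw [(hd' Q).1 h2] at h
        have h3 := Finsupp.single_apply_ne_zero.mp h
        exact congrArg Subtype.val h3.1
      · exact absurd ((hd' Q).2 h2) h
    · intro h
      have h2 : rdim k (PrimeSpectrum.comap φ.toRingHom Q.1) = (n + 1 : ℕ) := by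
        rw [h]
        exact q.2
      rw [(hd' Q).1 h2]
      have h3 : (⟨PrimeSpectrum.comap φ.toRingHom Q.1, h2⟩ : RP k A (n + 1)) = q :=
        Subtype.ext h
      rw [h3, Finsupp.single_eq_same]
      exact one_ne_zero
  have hdim : ∀ Q : RP k B (n + 1 + r), rdim k Q.1 = (n + r + 1 : ℕ) := by
    intro Q
    rw [Q.2]
    have : n + 1 + r = n + r + 1 := by omega
    rw [this]
  have hna : ∀ Q : RP k B (n + 1 + r), Q ∈ d'.support → φ a ∉ Q.1.asIdeal := by
    intro Q hQ h
    apply ha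
    rw [← (hm Q).mp hQ]
    exact h
  have hex : ∀ P : RP k B (n + r + 1), ∃ e : RP k B (n + r) →₀ E, φ a ∉ P.1.asIdeal →
      IsDv k E P.1 (φ a) e := by
    intro P
    by_cases hP : φ a ∉ P.1.asIdeal
    · obtain ⟨e, he⟩ := hDV k B E (n + r) P (φ a) hP
      exact ⟨e, fun _ => he⟩
    · exact ⟨0, fun h => absurd h hP⟩
  choose e he using hex
  let up : RP k B (n + 1 + r) → RP k B (n + r + 1) := fun Q => ⟨Q.1, hdim Q⟩
  have hup : Function.Injective up := by
    intro Q Q' h
    apply Subtype.ext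
    exact congrArg (fun P : RP k B (n + r + 1) => P.1) h
  let D : RP k B (n + 1 + r) → (RP k B (n + r) →₀ E) := fun Q => e (up Q)
  have hD : ∀ Q : RP k B (n + 1 + r), Q ∈ d'.support → IsDv k E Q.1 (φ a) (D Q) :=
    fun Q hQ => he (up Q) (hna Q hQ)
  have hqQ : ∀ Q : RP k B (n + 1 + r), Q ∈ d'.support →
      q.1.asIdeal.map φ.toRingHom ≤ Q.1.asIdeal := by
    intro Q hQ
    rw [Ideal.map_le_iff_le_comap, ← (hm Q).mp hQ]
    exact le_rfl
  -- the local computation
  have key : ∀ P : RP k B (n + r), q.1 ≤ PrimeSpectrum.comap φ.toRingHom P.1 →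
      a ∈ (PrimeSpectrum.comap φ.toRingHom P.1).asIdeal →
      len (q.1.asIdeal.map φ.toRingHom ⊔ Ideal.span {φ a}) P.1 =
        ∑ Q ∈ d'.support, len (Q.1.asIdeal ⊔ Ideal.span {φ a}) P.1 := by
    intro P hqP haP
    have hN : IsNoetherianRing B := Algebra.FiniteType.isNoetherianRing k B
    let T : Finset (PrimeSpectrum B) :=
      (d'.support.filter fun Q => Q.1 ≤ P.1).map ⟨Subtype.val, Subtype.val_injective⟩
    have hT0 : ∀ Q : PrimeSpectrum B, Q ∈ T → ∃ Q' : RP k B (n + 1 + r), Q' ∈ d'.support ∧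
        Q'.1 ≤ P.1 ∧ Q'.1 = Q := by
      intro Q hQ
      obtain ⟨Q', hQ', h⟩ := Finset.mem_map.mp hQ
      obtain ⟨h2, h3⟩ := Finset.mem_filter.mp hQ'
      exact ⟨Q', h2, h3, h⟩
    have hT : ∀ Q : PrimeSpectrum B, Q ∈ T ↔ q.1.asIdeal.map φ.toRingHom ≤ Q.asIdeal ∧
        Q < P.1 := by
      intro Q
      constructor
      · intro hQ
        obtain ⟨Q', h2, h3, rfl⟩ := hT0 Q hQ
        refine ⟨hqQ Q' h2, lt_of_le_of_ne h3 ?_⟩
        intro h4
        have h5 := P.2
        rw [← h4, Q'.2] at h5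
        have h6 : n + 1 + r = n + r := by exact_mod_cast h5
        omega
      · rintro ⟨hQ1, hQ2⟩
        obtain ⟨h3, h4⟩ := dims h1 hφ q P Q hQ1 hQ2
        refine Finset.mem_map.mpr ⟨⟨Q, h4⟩, Finset.mem_filter.mpr ⟨?_, hQ2.le⟩, rfl⟩
        exact (hm _).mpr h3
    have hinc : ∀ Q ∈ T, ∀ Q' ∈ T, Q ≤ Q' → Q = Q' := by
      intro Q hQ Q' hQ' hle
      rcases hle.eq_or_lt with h | h
      · exact h
      exfalso
      obtain ⟨Q1, h2, h3, rfl⟩ := hT0 Q hQ
      obtain ⟨Q2, h4, h5, rfl⟩ := hT0 Q' hQ'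
      have h6 := (h1 k B Q1.1).2 _ h
      rw [Q1.2, Q2.2] at h6
      exact lt_irrefl _ h6
    have hred : ∀ Q ∈ T, IsLocalRing.maximalIdeal (Localization.AtPrime Q.asIdeal) ≤
        q.1.asIdeal.map ((algebraMap B (Localization.AtPrime Q.asIdeal)).comp φ.toRingHom) := by
      intro Q hQ
      obtain ⟨hQ1, hQ2⟩ := (hT Q).mp hQ
      obtain ⟨h3, h4⟩ := dims h1 hφ q P Q hQ1 hQ2
      have h5 := (hφ.at' Q).2
      rw [h3, h4, q.2] at h5
      exact h5 (by push_cast; rfl)
    have haP' : φ.toRingHom a ∈ P.1.asIdeal := haP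
    have hs := lenE_sum φ.toRingHom q.1 P.1 hφ.flat a ha haP' (Ideal.map_le_iff_le_comap.mpr hqP)
      T hT hinc hred hHE
    have hs2 : len (q.1.asIdeal.map φ.toRingHom ⊔ Ideal.span {φ a}) P.1 =
        ∑ Q ∈ T, len (Q.asIdeal ⊔ Ideal.span {φ a}) P.1 := by
      have h2 := congrArg ENat.toNat hs
      refine h2.trans (toNat_sum T _ ?_).2
      intro Q hQ htop
      obtain ⟨Q', h3, h4, rfl⟩ := hT0 Q hQ
      have h5 := (hLC k B (n + r) ⟨Q'.1, hdim Q'⟩ P).2.2.1 (φ a) (hna Q' h3) h4 haP
      apply h5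
      rw [len_eq]
      exact (congrArg ENat.toNat htop).trans ENat.toNat_top
    have hs3 : ∑ Q ∈ T, len (Q.asIdeal ⊔ Ideal.span {φ a}) P.1 =
        ∑ Q ∈ d'.support.filter (fun Q => Q.1 ≤ P.1),
          len (Q.1.asIdeal ⊔ Ideal.span {φ a}) P.1 := Finset.sum_map _ _ _
    rw [hs2, hs3, Finset.sum_filter]
    apply Finset.sum_congr rfl
    intro Q hQ
    split_ifs with h
    · rfl
    · by_contra h2
      exact h ((hLC k B (n + r) ⟨Q.1, hdim Q⟩ P).2.1 (φ a) (fun h3 => h2 h3.symm)).1
  have hmain : d = ∑ Q ∈ d'.support, D Q := by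
    ext P
    rw [Finsupp.finsetSum_apply]
    have h2 : ∑ Q ∈ d'.support, (D Q) P =
        ((∑ Q ∈ d'.support, len (Q.1.asIdeal ⊔ Ideal.span {φ a}) P.1 : ℕ) : E) := by
      rw [Nat.cast_sum]
      exact Finset.sum_congr rfl fun Q hQ => hD Q hQ P
    rw [h2]
    by_cases hcase : q.1 ≤ PrimeSpectrum.comap φ.toRingHom P.1 ∧
        a ∈ (PrimeSpectrum.comap φ.toRingHom P.1).asIdeal
    · rw [← key P hcase.1 hcase.2]
      have hlt : q.1 < PrimeSpectrum.comap φ.toRingHom P.1 := by
        refine lt_of_le_of_ne hcase.1 fun h => ha ?_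
        rw [h]
        exact hcase.2
      obtain ⟨⟨m, hm2⟩, -⟩ := h1 k A (PrimeSpectrum.comap φ.toRingHom P.1)
      have h3 := (h1 k A q.1).2 _ hlt
      have h4 := (hφ.at' P.1).1
      rw [hm2, q.2] at h3
      rw [hm2, P.2] at h4
      have h5 : m < n + 1 := by exact_mod_cast h3
      have h6 : n + r ≤ m + r := by exact_mod_cast h4
      have h7 : m = n := by omega
      rw [h7] at hm2
      rw [(hd P).1 hm2]
      refine (hc ⟨_, hm2⟩).trans ?_
      have h8 := (hφ.at' P.1).2 (by rw [P.2, hm2]; push_cast; rfl)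
      have h9 := hLB A B φ.toRingHom P.1 hφ.flat h8 (q.1.asIdeal ⊔ Ideal.span {a})
      rw [Ideal.map_sup, Ideal.map_span, Set.image_singleton] at h9
      exact congrArg _ h9.symm
    · have h3 : ∀ Q ∈ d'.support, len (Q.1.asIdeal ⊔ Ideal.span {φ a}) P.1 = 0 := by
        intro Q hQ
        by_contra h4
        obtain ⟨h5, h6⟩ := (hLC k B (n + r) ⟨Q.1, hdim Q⟩ P).2.1 (φ a) h4
        apply hcase
        refine ⟨?_, h6⟩
        rw [← (hm Q).mp hQ]
        exact Ideal.comap_mono h5
      rw [Finset.sum_eq_zero h3, Nat.cast_zero]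
      by_cases h4 : rdim k (PrimeSpectrum.comap φ.toRingHom P.1) = n
      · rw [(hd P).1 h4]
        refine (hc ⟨_, h4⟩).trans ?_
        have h5 : len (q.1.asIdeal ⊔ Ideal.span {a})
            (PrimeSpectrum.comap φ.toRingHom P.1) = 0 := by
          by_contra h6
          exact hcase ((hLC k A n q ⟨_, h4⟩).2.1 a h6)
        exact (congrArg _ h5).trans Nat.cast_zero
      · exact (hd P).2 h4
  refine ⟨d'.support.map ⟨up, hup⟩, e, ?_, ?_, ?_⟩
  · intro P
    rw [Finset.mem_map]
    constructor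
    · rintro ⟨Q, hQ, rfl⟩
      exact (hm Q).mp hQ
    · intro h
      have h2 : rdim k P.1 = (n + 1 + r : ℕ) := by
        rw [P.2]
        have : n + 1 + r = n + r + 1 := by omega
        rw [this]
      exact ⟨⟨P.1, h2⟩, (hm _).mpr h, rfl⟩
  · intro P hP
    obtain ⟨Q, hQ, rfl⟩ := Finset.mem_map.mp hP
    exact ⟨hna Q hQ, he _ (hna Q hQ)⟩
  · rw [Finset.sum_map]
    exact hmain

end Global

end FPD

theorem t_FPD : M_FPD := by
  intro h1 hLB hLC hDV hHE hFX k A B E _ _ _ _ _ _ _ _ r n φ hφ q a c d ha hc hd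
  exact FPD.gen h1 hLB hLC hDV hHE hFX hφ q a ha c hc d hd

end CUB


end

section

/-! The substitution `x = x' + y v`. -/

set_option autoImplicit false

open Polynomial

namespace LOWD

open CUB

namespace SUB

section LiftB

variable {ι σ R T : Type} [CommRing R] [CommRing T] [Algebra R T]

/-- homomorphisms on `AR f` -/
noncomputable def liftA (f : ι → MvPolynomial σ R) (x : σ → T)
    (h : ∀ i, MvPolynomial.aeval x (f i) = 0) : AR f →ₐ[R] T :=
  Ideal.Quotient.liftₐ _ (MvPolynomial.aeval x) (by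
    intro b hb
    have : Ideal.span (Set.range f) ≤ RingHom.ker (MvPolynomial.aeval (R := R) x).toRingHom := by
      rw [Ideal.span_le]
      rintro _ ⟨i, rfl⟩
      exact h i
    exact this hb)

lemma liftA_xx (f : ι → MvPolynomial σ R) (x : σ → T)
    (h : ∀ i, MvPolynomial.aeval x (f i) = 0) (j : σ) : liftA f x h (xx f j) = x j := by
  unfold liftA xx
  rw [Ideal.Quotient.liftₐ_apply]
  simp

lemma coeff_zero_of (f : MvPolynomial σ R) (x v : σ → T) (h : ln f x v = 0) :
    MvPolynomial.aeval x f = 0 := by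
  rw [← ln_coeff_zero f x v, h, coeff_zero]

/-- homomorphisms on `BR (GG f d) S a` -/
noncomputable def liftB (f : ι → MvPolynomial σ R) (d : ι → ℕ) (S : Set σ) (a : σ)
    (x v : σ → T) (h : ∀ i, ln (f i) x v = 0) (ha : v a = 1) (hv : ∀ j, j ∉ S → j ≠ a → v j = 0) :
    BR (GG f d) S a →ₐ[R] T :=
  Ideal.Quotient.liftₐ _ (MvPolynomial.aevalTower (liftA f x (fun i => coeff_zero_of _ _ _ (h i))) v)
    (by
      intro b hb
      have : relB (GG f d) S a ≤ RingHom.ker
          (MvPolynomial.aevalTower (liftA f x (fun i => coeff_zero_of _ _ _ (h i))) v).toRingHom := by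
        unfold relB
        rw [Ideal.span_le]
        rintro _ (h1 | ⟨j, hj, rfl⟩ | ⟨ie, rfl⟩)
        · rw [Set.mem_singleton_iff] at h1
          subst h1
          simp [RingHom.mem_ker, ha]
        · simp [RingHom.mem_ker, hv j hj.1 hj.2]
        · change MvPolynomial.aevalTower (liftA f x (fun i => coeff_zero_of _ _ _ (h i))) v
            (GG f d ie) = 0
          have h2 := ln_map (MvPolynomial.aevalTower
            (liftA f x (fun i => coeff_zero_of _ _ _ (h i))) v) (f ie.1)
            (fun j => MvPolynomial.C (xx f j)) (fun j => MvPolynomial.X j)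
          simp only [MvPolynomial.aevalTower_C, MvPolynomial.aevalTower_X, liftA_xx] at h2
          rw [h ie.1] at h2
          have h3 := congrArg (fun p => Polynomial.coeff p (ie.2 + 1)) h2
          simp only [Polynomial.coeff_map, Polynomial.coeff_zero] at h3
          exact h3
      exact this hb)

/-- the coordinates `x` in `BR` -/
noncomputable def xB (f : ι → MvPolynomial σ R) (d : ι → ℕ) (S : Set σ) (a : σ) :
    σ → BR (GG f d) S a :=
  fun j => Ideal.Quotient.mk _ (MvPolynomial.C (xx f j))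

lemma liftB_xB (f : ι → MvPolynomial σ R) (d : ι → ℕ) (S : Set σ) (a : σ)
    (x v : σ → T) (h : ∀ i, ln (f i) x v = 0) (ha : v a = 1) (hv : ∀ j, j ∉ S → j ≠ a → v j = 0)
    (j : σ) : liftB f d S a x v h ha hv (xB f d S a j) = x j := by
  unfold liftB xB
  rw [Ideal.Quotient.liftₐ_apply]
  simp [liftA_xx]

lemma liftB_vB (f : ι → MvPolynomial σ R) (d : ι → ℕ) (S : Set σ) (a : σ)
    (x v : σ → T) (h : ∀ i, ln (f i) x v = 0) (ha : v a = 1) (hv : ∀ j, j ∉ S → j ≠ a → v j = 0)
    (j : σ) : liftB f d S a x v h ha hv (vB (GG f d) S a j) = v j := by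
  unfold liftB vB
  rw [Ideal.Quotient.liftₐ_apply]
  simp

lemma ext_B (f : ι → MvPolynomial σ R) (d : ι → ℕ) (S : Set σ) (a : σ)
    {g h : BR (GG f d) S a →ₐ[R] T} (hx : ∀ j, g (xB f d S a j) = h (xB f d S a j))
    (hv : ∀ j, g (vB (GG f d) S a j) = h (vB (GG f d) S a j)) : g = h := by
  apply Ideal.Quotient.algHom_ext
  apply MvPolynomial.algHom_ext'
  · apply Ideal.Quotient.algHom_ext
    apply MvPolynomial.algHom_ext
    intro j
    exact hx j
  · intro j
    exact hv j

lemma ln_B (f : ι → MvPolynomial σ R) (d : ι → ℕ) (S : Set σ) (a : σ)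
    (hd : ∀ i, (f i).totalDegree ≤ d i) (i : ι) :
    ln (f i) (xB f d S a) (vB (GG f d) S a) = 0 := by
  have h2 := ln_map (Ideal.Quotient.mkₐ R (relB (GG f d) S a)) (f i)
    (fun j => MvPolynomial.C (xx f j)) (fun j => MvPolynomial.X j)
  change _ = ln (f i) (xB f d S a) (vB (GG f d) S a) at h2
  ext e
  rw [← h2, Polynomial.coeff_map, Polynomial.coeff_zero]
  rcases e with _ | e
  · rw [ln_coeff_zero]
    have h3 : MvPolynomial.aeval (fun j => (MvPolynomial.C (xx f j) : MvPolynomial σ (AR f)))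
        (f i) = MvPolynomial.C (MvPolynomial.aeval (xx f) (f i)) := by
      have : (MvPolynomial.aeval (fun j => (MvPolynomial.C (xx f j) : MvPolynomial σ (AR f))) :
          MvPolynomial σ R →ₐ[R] MvPolynomial σ (AR f)) =
          (IsScalarTower.toAlgHom R (AR f) (MvPolynomial σ (AR f))).comp
            (MvPolynomial.aeval (xx f)) := by
        apply MvPolynomial.algHom_ext
        intro j
        simp [MvPolynomial.algebraMap_eq]
      rw [this]
      simp [MvPolynomial.algebraMap_eq]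
    rw [h3, aeval_xx]
    simp
  · by_cases he : e < d i
    · change Ideal.Quotient.mk _ (GG f d ⟨i, ⟨e, he⟩⟩) = 0
      rw [Ideal.Quotient.eq_zero_iff_mem]
      unfold relB
      exact Ideal.subset_span (Or.inr (Or.inr ⟨_, rfl⟩))
    · rw [ln_coeff_eq_zero _ _ _ _ (by have := hd i; omega), map_zero]

lemma vB_a (f : ι → MvPolynomial σ R) (d : ι → ℕ) (S : Set σ) (a : σ) :
    vB (GG f d) S a a = 1 := by
  unfold vB
  rw [← map_one (Ideal.Quotient.mk _), Ideal.Quotient.eq]
  unfold relB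
  exact Ideal.subset_span (Or.inl rfl)

lemma vB_j (f : ι → MvPolynomial σ R) (d : ι → ℕ) (S : Set σ) (a : σ) (j : σ) (h1 : j ∉ S)
    (h2 : j ≠ a) : vB (GG f d) S a j = 0 := by
  unfold vB
  rw [Ideal.Quotient.eq_zero_iff_mem]
  unfold relB
  exact Ideal.subset_span (Or.inr (Or.inl ⟨j, ⟨h1, h2⟩, rfl⟩))

end LiftB

section LiftC

variable {ι σ R T : Type} [CommRing R] [CommRing T] [Algebra R T]

/-- homomorphisms on `RV R S a` -/
noncomputable def liftV (S : Set σ) (a : σ) (v : σ → T) (ha : v a = 1)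
    (hv : ∀ j, j ∉ S → j ≠ a → v j = 0) : RV R S a →ₐ[R] T :=
  Ideal.Quotient.liftₐ _ (MvPolynomial.aeval v) (by
    intro b hb
    have : (Ideal.span ({MvPolynomial.X a - 1} ∪
        MvPolynomial.X '' {j : σ | j ∉ S ∧ j ≠ a} : Set (MvPolynomial σ R))) ≤
        RingHom.ker (MvPolynomial.aeval (R := R) v).toRingHom := by
      rw [Ideal.span_le]
      rintro _ (h1 | ⟨j, hj, rfl⟩)
      · rw [Set.mem_singleton_iff] at h1
        subst h1
        simp [RingHom.mem_ker, ha]
      · simp [RingHom.mem_ker, hv j hj.1 hj.2]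
    exact this hb)

lemma liftV_vR (S : Set σ) (a : σ) (v : σ → T) (ha : v a = 1)
    (hv : ∀ j, j ∉ S → j ≠ a → v j = 0) (j : σ) : liftV (R := R) S a v ha hv (vR R S a j) = v j := by
  unfold liftV vR
  rw [Ideal.Quotient.liftₐ_apply]
  exact MvPolynomial.aeval_X _ _

/-- homomorphisms on the polynomial ring over `RV R S a` -/
noncomputable def liftM (S : Set σ) (a : σ) (x v : σ → T) (ha : v a = 1)
    (hv : ∀ j, j ∉ S → j ≠ a → v j = 0) : MvPolynomial {j : σ // j ≠ a} (RV R S a) →ₐ[R] T :=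
  MvPolynomial.aevalTower (liftV S a v ha hv) (fun j => x j)

lemma liftM_x0 (S : Set σ) (a : σ) (x v : σ → T) (ha : v a = 1)
    (hv : ∀ j, j ∉ S → j ≠ a → v j = 0) (hx : x a = 0) (j : σ) :
    liftM (R := R) S a x v ha hv (x0 R S a j) = x j := by
  unfold liftM x0
  by_cases h : j ≠ a
  · rw [dif_pos h, MvPolynomial.aevalTower_X]
  · rw [dif_neg h, map_zero]
    push Not at h
    rw [h, hx]

lemma liftM_vR (S : Set σ) (a : σ) (x v : σ → T) (ha : v a = 1)
    (hv : ∀ j, j ∉ S → j ≠ a → v j = 0) (j : σ) :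
    liftM (R := R) S a x v ha hv (MvPolynomial.C (vR R S a j)) = v j := by
  unfold liftM
  rw [MvPolynomial.aevalTower_C, liftV_vR]

/-- homomorphisms on `AR (gg f d S a)` -/
noncomputable def liftC (f : ι → MvPolynomial σ R) (d : ι → ℕ) (S : Set σ) (a : σ) (x v : σ → T)
    (ha : v a = 1) (hv : ∀ j, j ∉ S → j ≠ a → v j = 0) (hx : x a = 0)
    (h : ∀ i, ln (f i) x v = 0) : AR (gg f d S a) →ₐ[R] T :=
  Ideal.Quotient.liftₐ _ (liftM S a x v ha hv) (by
    intro b hb
    have : Ideal.span (Set.range (gg f d S a)) ≤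
        RingHom.ker (liftM (R := R) S a x v ha hv).toRingHom := by
      rw [Ideal.span_le]
      rintro _ ⟨ie, rfl⟩
      change liftM (R := R) S a x v ha hv (gg f d S a ie) = 0
      have h2 := ln_map (liftM (R := R) S a x v ha hv) (f ie.1) (x0 R S a)
        (fun j => MvPolynomial.C (vR R S a j))
      simp only [liftM_x0 (R := R) S a x v ha hv hx, liftM_vR] at h2
      have h4 : ln (f ie.1) (fun j => x j) (fun j => v j) = 0 := h ie.1
      rw [h4] at h2
      have h3 := congrArg (fun p => Polynomial.coeff p ie.2) h2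
      simp only [Polynomial.coeff_map, Polynomial.coeff_zero] at h3
      exact h3
    exact this hb)

/-- the coordinates `x'` -/
noncomputable def xC (f : ι → MvPolynomial σ R) (d : ι → ℕ) (S : Set σ) (a : σ) :
    σ → AR (gg f d S a) :=
  fun j => Ideal.Quotient.mk _ (x0 R S a j)

/-- the coordinates `v` -/
noncomputable def vC (f : ι → MvPolynomial σ R) (d : ι → ℕ) (S : Set σ) (a : σ) :
    σ → AR (gg f d S a) :=
  fun j => Ideal.Quotient.mk _ (MvPolynomial.C (vR R S a j))

lemma liftC_xC (f : ι → MvPolynomial σ R) (d : ι → ℕ) (S : Set σ) (a : σ) (x v : σ → T)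
    (ha : v a = 1) (hv : ∀ j, j ∉ S → j ≠ a → v j = 0) (hx : x a = 0)
    (h : ∀ i, ln (f i) x v = 0) (j : σ) :
    liftC f d S a x v ha hv hx h (xC f d S a j) = x j := by
  unfold liftC xC
  rw [Ideal.Quotient.liftₐ_apply]
  exact liftM_x0 (R := R) S a x v ha hv hx j

lemma liftC_vC (f : ι → MvPolynomial σ R) (d : ι → ℕ) (S : Set σ) (a : σ) (x v : σ → T)
    (ha : v a = 1) (hv : ∀ j, j ∉ S → j ≠ a → v j = 0) (hx : x a = 0)
    (h : ∀ i, ln (f i) x v = 0) (j : σ) :
    liftC f d S a x v ha hv hx h (vC f d S a j) = v j := by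
  unfold liftC vC
  rw [Ideal.Quotient.liftₐ_apply]
  exact liftM_vR (R := R) S a x v ha hv j

lemma vR_a (S : Set σ) (a : σ) : vR R S a a = 1 := by
  unfold vR
  rw [← map_one (Ideal.Quotient.mk _), Ideal.Quotient.eq]
  exact Ideal.subset_span (Or.inl rfl)

lemma vR_j (S : Set σ) (a : σ) (j : σ) (h1 : j ∉ S) (h2 : j ≠ a) : vR R S a j = 0 := by
  unfold vR
  rw [Ideal.Quotient.eq_zero_iff_mem]
  exact Ideal.subset_span (Or.inr ⟨j, ⟨h1, h2⟩, rfl⟩)

lemma vC_a (f : ι → MvPolynomial σ R) (d : ι → ℕ) (S : Set σ) (a : σ) : vC f d S a a = 1 := by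
  unfold vC
  rw [vR_a, map_one, map_one]

lemma vC_j (f : ι → MvPolynomial σ R) (d : ι → ℕ) (S : Set σ) (a : σ) (j : σ) (h1 : j ∉ S)
    (h2 : j ≠ a) : vC f d S a j = 0 := by
  unfold vC
  rw [vR_j S a j h1 h2, map_zero, map_zero]

lemma xC_a (f : ι → MvPolynomial σ R) (d : ι → ℕ) (S : Set σ) (a : σ) : xC f d S a a = 0 := by
  unfold xC x0
  rw [dif_neg (by simp), map_zero]

lemma ln_C (f : ι → MvPolynomial σ R) (d : ι → ℕ) (S : Set σ) (a : σ)
    (hd : ∀ i, (f i).totalDegree ≤ d i) (i : ι) :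
    ln (f i) (xC f d S a) (vC f d S a) = 0 := by
  have h2 := ln_map (S := MvPolynomial {j : σ // j ≠ a} (RV R S a)) (T := AR (gg f d S a))
    (Ideal.Quotient.mkₐ R (Ideal.span (Set.range (gg f d S a)))) (f i)
    (x0 R S a) (fun j => MvPolynomial.C (vR R S a j))
  change _ = ln (f i) (xC f d S a) (vC f d S a) at h2
  ext e
  rw [← h2, Polynomial.coeff_map, Polynomial.coeff_zero]
  by_cases he : e < d i + 1
  · change Ideal.Quotient.mk _ (gg f d S a ⟨i, ⟨e, he⟩⟩) = 0
    rw [Ideal.Quotient.eq_zero_iff_mem]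
    exact Ideal.subset_span ⟨_, rfl⟩
  · rw [ln_coeff_eq_zero _ _ _ _ (by have := hd i; omega), map_zero]

lemma ext_C (f : ι → MvPolynomial σ R) (d : ι → ℕ) (S : Set σ) (a : σ)
    {g h : (AR (gg f d S a))[X] →ₐ[R] T}
    (hx : ∀ j, g (Polynomial.C (xC f d S a j)) = h (Polynomial.C (xC f d S a j)))
    (hv : ∀ j, g (Polynomial.C (vC f d S a j)) = h (Polynomial.C (vC f d S a j)))
    (hX : g X = h X) : g = h := by
  apply Polynomial.algHom_ext' _ hX
  apply Ideal.Quotient.algHom_ext
  apply MvPolynomial.algHom_ext'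
  · apply Ideal.Quotient.algHom_ext
    apply MvPolynomial.algHom_ext
    intro j
    exact hv j
  · intro j
    have := hx j
    unfold xC x0 at this
    rw [dif_pos j.2] at this
    exact this

end LiftC

section Maps

variable {ι σ R : Type} [CommRing R]

lemma ln_CX (f : ι → MvPolynomial σ R) (d : ι → ℕ) (S : Set σ) (a : σ)
    (hd : ∀ i, (f i).totalDegree ≤ d i) (i : ι) :
    ln (f i) (fun j => (Polynomial.C (xC f d S a j) : (AR (gg f d S a))[X]) +
      X * Polynomial.C (vC f d S a j)) (fun j => Polynomial.C (vC f d S a j)) = 0 := by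
  rw [← ln_shift]
  have h2 := ln_map (S := AR (gg f d S a)) (T := (AR (gg f d S a))[X])
    (Polynomial.CAlgHom (R := R)) (f i) (xC f d S a) (vC f d S a)
  rw [ln_C f d S a hd i, Polynomial.map_zero] at h2
  change (ln (f i) (fun j => Polynomial.CAlgHom (R := R) (xC f d S a j))
    (fun j => Polynomial.CAlgHom (R := R) (vC f d S a j))).comp _ = 0
  rw [← h2, Polynomial.zero_comp]

/-- the map `Φ` -/
noncomputable def Phi (f : ι → MvPolynomial σ R) (d : ι → ℕ) (S : Set σ) (a : σ)
    (hd : ∀ i, (f i).totalDegree ≤ d i) : BR (GG f d) S a →ₐ[R] (AR (gg f d S a))[X] :=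
  liftB f d S a (fun j => (Polynomial.C (xC f d S a j) : (AR (gg f d S a))[X]) +
      X * Polynomial.C (vC f d S a j)) (fun j => Polynomial.C (vC f d S a j))
    (ln_CX f d S a hd) (by simp [vC_a]) (fun j h1 h2 => by simp [vC_j f d S a j h1 h2])

lemma ln_BX (f : ι → MvPolynomial σ R) (d : ι → ℕ) (S : Set σ) (a : σ)
    (hd : ∀ i, (f i).totalDegree ≤ d i) (i : ι) :
    ln (f i) (fun j => xB f d S a j + (-(xB f d S a a)) * vB (GG f d) S a j)
      (vB (GG f d) S a) = 0 := by
  rw [← ln_shift, ln_B f d S a hd, Polynomial.zero_comp]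

/-- the map `Ψ` -/
noncomputable def Psi (f : ι → MvPolynomial σ R) (d : ι → ℕ) (S : Set σ) (a : σ)
    (hd : ∀ i, (f i).totalDegree ≤ d i) : (AR (gg f d S a))[X] →ₐ[R] BR (GG f d) S a :=
  Polynomial.eval₂AlgHom (liftC f d S a
    (fun j => xB f d S a j + (-(xB f d S a a)) * vB (GG f d) S a j) (vB (GG f d) S a)
    (vB_a f d S a) (vB_j f d S a) (by simp [vB_a]) (ln_BX f d S a hd)) (xB f d S a a)
    (fun _ => Commute.all _ _)

lemma Psi_xC (f : ι → MvPolynomial σ R) (d : ι → ℕ) (S : Set σ) (a : σ)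
    (hd : ∀ i, (f i).totalDegree ≤ d i) (j : σ) : Psi f d S a hd (Polynomial.C (xC f d S a j)) =
    xB f d S a j + (-(xB f d S a a)) * vB (GG f d) S a j := by
  unfold Psi
  rw [Polynomial.eval₂AlgHom_apply, Polynomial.eval₂_C]
  exact liftC_xC f d S a (fun j => xB f d S a j + (-(xB f d S a a)) * vB (GG f d) S a j)
    (vB (GG f d) S a) (vB_a f d S a) (vB_j f d S a) (by simp [vB_a]) (ln_BX f d S a hd) j

lemma Psi_vC (f : ι → MvPolynomial σ R) (d : ι → ℕ) (S : Set σ) (a : σ)
    (hd : ∀ i, (f i).totalDegree ≤ d i) (j : σ) : Psi f d S a hd (Polynomial.C (vC f d S a j)) =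
    vB (GG f d) S a j := by
  unfold Psi
  rw [Polynomial.eval₂AlgHom_apply, Polynomial.eval₂_C]
  exact liftC_vC f d S a (fun j => xB f d S a j + (-(xB f d S a a)) * vB (GG f d) S a j)
    (vB (GG f d) S a) (vB_a f d S a) (vB_j f d S a) (by simp [vB_a]) (ln_BX f d S a hd) j

lemma Psi_X (f : ι → MvPolynomial σ R) (d : ι → ℕ) (S : Set σ) (a : σ)
    (hd : ∀ i, (f i).totalDegree ≤ d i) : Psi f d S a hd X = xB f d S a a := by
  unfold Psi
  rw [Polynomial.eval₂AlgHom_apply, Polynomial.eval₂_X]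

lemma Phi_xB (f : ι → MvPolynomial σ R) (d : ι → ℕ) (S : Set σ) (a : σ)
    (hd : ∀ i, (f i).totalDegree ≤ d i) (j : σ) : Phi f d S a hd (xB f d S a j) =
    (Polynomial.C (xC f d S a j) : (AR (gg f d S a))[X]) + X * Polynomial.C (vC f d S a j) :=
  liftB_xB f d S a _ _ _ _ _ j

lemma Phi_vB (f : ι → MvPolynomial σ R) (d : ι → ℕ) (S : Set σ) (a : σ)
    (hd : ∀ i, (f i).totalDegree ≤ d i) (j : σ) : Phi f d S a hd (vB (GG f d) S a j) =
    Polynomial.C (vC f d S a j) :=
  liftB_vB f d S a _ _ _ _ _ j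

lemma Phi_Psi (f : ι → MvPolynomial σ R) (d : ι → ℕ) (S : Set σ) (a : σ)
    (hd : ∀ i, (f i).totalDegree ≤ d i) :
    (Phi f d S a hd).comp (Psi f d S a hd) = AlgHom.id R _ := by
  apply ext_C (T := (AR (gg f d S a))[X]) f d S a
  · intro j
    simp only [AlgHom.comp_apply, AlgHom.id_apply, Psi_xC, map_add, map_mul, map_neg, Phi_xB,
      Phi_vB, vC_a, xC_a, map_one, map_zero]
    ring
  · intro j
    simp only [AlgHom.comp_apply, AlgHom.id_apply, Psi_vC, Phi_vB]
  · simp only [AlgHom.comp_apply, AlgHom.id_apply, Psi_X, Phi_xB, vC_a, xC_a, map_one, map_zero]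
    ring

lemma Psi_Phi (f : ι → MvPolynomial σ R) (d : ι → ℕ) (S : Set σ) (a : σ)
    (hd : ∀ i, (f i).totalDegree ≤ d i) :
    (Psi f d S a hd).comp (Phi f d S a hd) = AlgHom.id R _ := by
  apply ext_B (T := BR (GG f d) S a) f d S a
  · intro j
    simp only [AlgHom.comp_apply, AlgHom.id_apply, Phi_xB, map_add, map_mul, Psi_xC, Psi_vC, Psi_X]
    ring
  · intro j
    simp only [AlgHom.comp_apply, AlgHom.id_apply, Psi_vC, Phi_vB]

end Maps

end SUB

theorem t_SUB : S_SUB := by
  intro k R ι σ _ _ _ f d S a hd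
  exact ⟨(AlgEquiv.ofAlgHom (SUB.Phi f d S a hd) (SUB.Psi f d S a hd)
    (SUB.Phi_Psi f d S a hd) (SUB.Psi_Phi f d S a hd)).restrictScalars k⟩

end LOWD


end
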