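import Mathlib
import Pool.Agent.QVM.C08
import Pool.Agent.QVM.C10
import Pool.Agent.QVM.C12
import Pool.Agent.QVM.C15

/-! Parts: CUB.C_DEL, CUB.R_GTD, CUB.R_PC, CUB2.L4Ev, CUB2.L4Glob, LOWD.FLD, LOWD.PTQ -/

section

/-!
# CUB, module DEL: a rationally trivial sum of cycles on the two sheets
-/

set_option autoImplicit false

open Polynomial

namespace CUB

namespace DEL

lemma push_shv_congr {k R R' : Type} (E : Type) [Field k] [CommRing R] [CommRing R'] [Algebra k R]
    [Algebra k R'] [Field E] {G f : R} (ψ : R →ₐ[k] R') (hψ : Function.Surjective ψ)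
    (hf : ψ f = 0) {v w : R'} (hvw : v = w) (hv : v ^ 2 - v = ψ G) (hw : w ^ 2 - w = ψ G) {n : ℕ}
    (c : RP k R'[X] n →₀ E) :
    push E (shv ψ hf v hv) (shv_surjective ψ hψ hf _ hv) c =
      push E (shv ψ hf w hw) (shv_surjective ψ hψ hf _ hw) c := by
  subst hvw
  rfl

end DEL

theorem t_DEL : M_DEL := by
  intro hPUSH _ hCHI2 hB4 hBPU hDL1
  intro k R R' E _ _ _ _ _ _ _ _ G f v hv hu ψ hψ hf hker h0 h1 n c₀ c₁ d₀ d₁ hc hb0 hb1
  have : Algebra.FiniteType k R' := Algebra.FiniteType.of_surjective ψ hψ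
  have hu0 := hu
  obtain ⟨u, hu'⟩ := hu
  obtain ⟨d, hd, hdp⟩ := hCHI2 k R R' E G f v hv u hu' ψ hψ hf hker h0 h1 (n + 1) c₀ c₁
  have hu2 : ((-u : Rˣ) : R) = 2 * (1 - v) - 1 := by
    rw [Units.val_neg, hu']
    ring
  have e0 : ψ (1 - v) = 1 - ψ v := by rw [map_sub, map_one]
  have e1 : 1 - ψ (1 - v) = ψ v := by rw [e0, sub_sub_cancel]
  have h0' : (ψ (1 - v)) ^ 2 - ψ (1 - v) = ψ G := by
    rw [e0]
    exact h1
  have h1' : (1 - ψ (1 - v)) ^ 2 - (1 - ψ (1 - v)) = ψ G := by
    rw [e1]
    exact h0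
  obtain ⟨d', hd', hdp'⟩ := hCHI2 k R R' E G f (1 - v) (conj_root hv) (-u) hu2 ψ hψ hf hker
    h0' h1' (n + 1) c₁ c₀
  rw [DEL.push_shv_congr E ψ hψ hf e0 h0' h1 c₁, DEL.push_shv_congr E ψ hψ hf e1 h1' h0 c₀,
    add_comm (push E (shv ψ hf (1 - ψ v) h1) (shv_surjective ψ hψ hf _ h1) c₁)] at hdp'
  have hB := hBPU k R R' E n ψ hψ d d₀ (hB4 k R' E n _ c₀ d d₀ hd hb0)
  have hB' := hBPU k R R' E n ψ hψ d' d₁ (hB4 k R' E n _ c₁ d' d₁ hd' hb1)
  have hmain := hDL1 k R E G f v hv hu0 n _ _ _ _ _ hc hdp hdp' hB hB'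
  rw [← map_sub, ← hker] at hmain
  have hP := (hPUSH k R R' E ψ hψ n).2.1 ⊥ (d₀ - d₁)
  exact hP.mp hmain

end CUB


end

section

/-!
# CUB, block R: existence of the tame symbol and its norm
-/

set_option autoImplicit false

open Polynomial

namespace CUB

namespace GTD

/-- The norm of a nonzero element is a quotient of elements of the image. -/
theorem exists_nm {S L : Type} [CommRing S] [Field L] (ρ : S →+* L) (x : L) (hx : x ≠ 0) :
    ∃ b c : S, IsNm ρ x b c := by
  set F := Subfield.closure (Set.range ρ) with hF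
  have h1 : Algebra.norm F x ≠ 0 := by
    have h2 : IsUnit (Algebra.norm F x) := (IsUnit.mk0 x hx).map (Algebra.norm F)
    exact h2.ne_zero
  have h2 : ((Algebra.norm F x : F) : L) ∈ Subfield.closure (Set.range ρ) :=
    (Algebra.norm F x : F).2
  rw [Subfield.mem_closure_iff] at h2
  obtain ⟨y, hy, z, hz, hyz⟩ := h2
  have h3 : Subring.closure (Set.range ρ) = ρ.range := by
    have : (Set.range ρ) = ((ρ.range : Subring L) : Set L) := by
      ext t
      simp
    rw [this, Subring.closure_eq]
  rw [h3] at hy hz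
  obtain ⟨b, rfl⟩ := hy
  obtain ⟨c, rfl⟩ := hz
  have h4 : ((Algebra.norm F x : F) : L) ≠ 0 := by
    intro h
    apply h1
    exact Subtype.ext h
  have h5 : ρ c ≠ 0 := by
    intro h
    apply h4
    rw [← hyz, h, div_zero]
  have h6 : ρ b ≠ 0 := by
    intro h
    apply h4
    rw [← hyz, h, zero_div]
  refine ⟨b, c, h6, h5, ?_⟩
  rw [← hF, ← hyz]
  field_simp

theorem IsUn_zpow {K : Type} [Field K] (O : ValuationSubring K) {α : K} (h : IsUn O α) (i : ℤ) :
    IsUn O (α ^ i) := by
  obtain ⟨h1, h2, h3⟩ := h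
  have hn : ∀ (β : K), β ∈ O → ∀ n : ℕ, β ^ n ∈ O := fun β hβ n => pow_mem hβ n
  rcases Int.eq_nat_or_neg i with ⟨n, rfl | rfl⟩
  · refine ⟨zpow_ne_zero _ h1, ?_, ?_⟩
    · rw [zpow_natCast]
      exact hn α h2 n
    · rw [zpow_natCast, ← inv_pow]
      exact hn _ h3 n
  · refine ⟨zpow_ne_zero _ h1, ?_, ?_⟩
    · rw [zpow_neg, zpow_natCast, ← inv_pow]
      exact hn _ h3 n
    · rw [zpow_neg, inv_inv, zpow_natCast]
      exact hn α h2 n

theorem IsUn_mul {K : Type} [Field K] (O : ValuationSubring K) {α β : K} (h : IsUn O α)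
    (h' : IsUn O β) : IsUn O (α * β) := by
  obtain ⟨h1, h2, h3⟩ := h
  obtain ⟨h1', h2', h3'⟩ := h'
  refine ⟨mul_ne_zero h1 h1', mul_mem h2 h2', ?_⟩
  rw [mul_inv]
  exact mul_mem h3 h3'

/-- Existence of the tame symbol. -/
theorem exists_tame {K : Type} [Field K] (O : ValuationSubring K) (π : K) (hπ : IsUnif O π)
    (H : ∀ x : K, x ≠ 0 → ∃ (i : ℤ) (α : K), IsUn O α ∧ x = α * π ^ i) (a u : K) (ha : a ≠ 0)
    (hu : u ≠ 0) : ∃ w : O, IsTame O a u (w : K) ∧ IsUn O (w : K) := by
  obtain ⟨i, α, hα, hai⟩ := H a ha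
  obtain ⟨j, β, hβ, huj⟩ := H u hu
  have hw : a ^ j * u ^ (-i) = α ^ j * β ^ (-i) := by
    rw [hai, huj, mul_zpow, mul_zpow, ← zpow_mul, ← zpow_mul]
    have h1 : π ^ (i * j) * π ^ (j * -i) = 1 := by
      rw [← zpow_add₀ hπ.2.1]
      have : i * j + j * -i = 0 := by ring
      rw [this, zpow_zero]
    calc α ^ j * π ^ (i * j) * (β ^ (-i) * π ^ (j * -i))
        = α ^ j * β ^ (-i) * (π ^ (i * j) * π ^ (j * -i)) := by ring
      _ = α ^ j * β ^ (-i) := by rw [h1, mul_one]
  have hun : IsUn O (a ^ j * u ^ (-i)) := by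
    rw [hw]
    exact IsUn_mul O (IsUn_zpow O hα j) (IsUn_zpow O hβ (-i))
  exact ⟨⟨a ^ j * u ^ (-i), hun.2.1⟩, ⟨π, α, β, i, j, hπ, hα, hβ, hai, huj, rfl⟩, hun⟩

theorem residue_ne_zero {K : Type} [Field K] (O : ValuationSubring K) (w : O)
    (h : IsUn O (w : K)) : IsLocalRing.residue O w ≠ 0 := by
  have h1 : IsUnit w := by
    refine IsUnit.of_mul_eq_one ⟨(w : K)⁻¹, h.2.2⟩ ?_
    apply Subtype.ext
    exact mul_inv_cancel₀ h.1
  exact (h1.map (IsLocalRing.residue O)).ne_zero

/-- `b` is in the maximal ideal. -/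
theorem residue_eq_zero_iff' {K : Type} [Field K] (O : ValuationSubring K) (w : O) :
    IsLocalRing.residue O w = 0 ↔ (w : K) = 0 ∨ (w : K)⁻¹ ∉ O := by
  constructor
  · intro h
    by_contra hc
    push Not at hc
    exact residue_ne_zero O w ⟨hc.1, w.2, hc.2⟩ h
  · intro h
    by_contra hc
    have h1 : IsUnit w := by
      by_contra h2
      exact hc ((IsLocalRing.residue_eq_zero_iff w).mpr ((IsLocalRing.mem_maximalIdeal w).mpr h2))
    obtain ⟨v, hv⟩ := h1.exists_right_inv
    have h2 : (w : K) * (v : K) = 1 := congrArg Subtype.val hv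
    rcases h with h | h
    · rw [h, zero_mul] at h2
      exact zero_ne_one h2
    · apply h
      rw [inv_eq_of_mul_eq_one_right h2]
      exact v.2

/-- The valuation ring is determined by the prime. -/
theorem isLocO_unique {A K : Type} [CommRing A] [Field K] [Algebra A K] (p : Ideal A)
    (O O' : ValuationSubring K) (h : IsLocO p O) (h' : IsLocO p O') : O = O' := by
  apply ValuationSubring.ext
  intro x
  rw [h x, h' x]

section Core

variable {B K : Type} [CommRing B] [IsDomain B] [Field K] [Algebra B K] [IsFractionRing B K]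

/-- The integral closure is contained in every valuation ring containing `B`. -/
theorem int_mem (O : ValuationSubring K) (hO : ∀ b : B, algebraMap B K b ∈ O) (x : K)
    (hx : IsIntegral B x) : x ∈ O := by
  let f : B →+* O := (algebraMap B K).codRestrict O.toSubring hO
  let _ : Algebra B O := f.toAlgebra
  have : IsScalarTower B O K := IsScalarTower.of_algebraMap_eq (fun _ => rfl)
  have h1 : IsIntegral O x := hx.tower_top
  obtain ⟨y, hy⟩ := IsIntegrallyClosed.algebraMap_eq_of_integral h1
  rw [← hy]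
  exact y.2

variable (hfin : Module.Finite B (integralClosure B K)) [IsNoetherianRing B]

include hfin

theorem core (vc1 : S_VC1) (vc2 : S_VC2) (z : Ideal B) (hz : z ≠ ⊥)
    (ht : ∀ P' : Ideal B, P'.IsPrime → P' < z → P' = ⊥) :
    {O : ValuationSubring K | (∀ b : B, algebraMap B K b ∈ O) ∧
      ∀ b : B, b ∈ z ↔ algebraMap B K b = 0 ∨ (algebraMap B K b)⁻¹ ∉ O}.Finite ∧
    ∀ O : ValuationSubring K, (∀ b : B, algebraMap B K b ∈ O) →
      (∀ b : B, b ∈ z ↔ algebraMap B K b = 0 ∨ (algebraMap B K b)⁻¹ ∉ O) →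
      ∀ a u : K, a ≠ 0 → u ≠ 0 → ∃ w : O, IsTame O a u (w : K) ∧ IsUn O (w : K) := by
  have hfr : IsFractionRing (integralClosure B K) K :=
    integralClosure.isFractionRing_of_finite_extension K K
  have hic : IsIntegrallyClosed (integralClosure B K) :=
    integralClosure.isIntegrallyClosedOfFiniteExtension K
  have hno : IsNoetherianRing (integralClosure B K) := IsNoetherianRing.of_finite B _
  have key : ∀ O : ValuationSubring K, (∀ b : B, algebraMap B K b ∈ O) →
      (∀ b : B, b ∈ z ↔ algebraMap B K b = 0 ∨ (algebraMap B K b)⁻¹ ∉ O) →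
      ∃ p : PrimeSpectrum (integralClosure B K),
        p.asIdeal.comap (algebraMap B (integralClosure B K)) = z ∧ p.asIdeal ≠ ⊥ ∧
        (∀ p' : Ideal (integralClosure B K), p'.IsPrime → p' < p.asIdeal → p' = ⊥) ∧
        IsLocO p.asIdeal O := by
    intro O hO hc
    have hA : ∀ a : integralClosure B K, algebraMap (integralClosure B K) K a ∈ O :=
      fun a => int_mem O hO _ a.2
    let g : integralClosure B K →+* O :=
      (algebraMap (integralClosure B K) K).codRestrict O.toSubring hA
    let p : PrimeSpectrum (integralClosure B K) :=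
      ⟨RingHom.ker ((IsLocalRing.residue O).comp g), RingHom.ker_isPrime _⟩
    have hp : ∀ a : integralClosure B K, a ∈ p.asIdeal ↔
        algebraMap (integralClosure B K) K a = 0 ∨
          (algebraMap (integralClosure B K) K a)⁻¹ ∉ O := by
      intro a
      change (IsLocalRing.residue O) (g a) = 0 ↔ _
      rw [residue_eq_zero_iff']
      rfl
    have hcm : p.asIdeal.comap (algebraMap B (integralClosure B K)) = z := by
      ext b
      rw [Ideal.mem_comap, hp, hc, ← IsScalarTower.algebraMap_apply]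
    have hne : p.asIdeal ≠ ⊥ := by
      intro h
      apply hz
      rw [← hcm, h]
      rw [← RingHom.ker_eq_comap_bot]
      exact (RingHom.injective_iff_ker_eq_bot _).mp
        (FaithfulSMul.algebraMap_injective B (integralClosure B K))
    have hht : ∀ p' : Ideal (integralClosure B K), p'.IsPrime → p' < p.asIdeal → p' = ⊥ := by
      intro p' hp' hlt
      apply Ideal.eq_bot_of_comap_eq_bot (R := B)
      apply ht _ (Ideal.comap_isPrime _ _)
      rw [← hcm]
      obtain ⟨x, hx, hx'⟩ := SetLike.exists_of_lt hlt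
      exact Ideal.comap_lt_comap_of_integral_mem_sdiff hlt.le ⟨hx, hx'⟩
        (Algebra.IsIntegral.isIntegral x)
    exact ⟨p, hcm, hne, hht, (vc2 _ K p hne hht O).mp ⟨hA, hp⟩⟩
  constructor
  · have hfib : (z.primesOver (integralClosure B K)).Finite :=
      Algebra.QuasiFinite.finite_primesOver z
    choose! P hP using key
    refine Set.Finite.of_finite_image (f := fun O => (P O).asIdeal) (hfib.subset ?_) ?_
    · rintro _ ⟨O, ⟨h1, h2⟩, rfl⟩
      refine ⟨(P O).isPrime, ⟨?_⟩⟩
      exact (hP O h1 h2).1.symm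
    · rintro O ⟨h1, h2⟩ O' ⟨h1', h2'⟩ h
      have h3 := (hP O h1 h2).2.2.2
      have h4 := (hP O' h1' h2').2.2.2
      simp only at h
      rw [← h] at h4
      exact isLocO_unique _ _ _ h3 h4
  · intro O hO hc a u ha hu
    obtain ⟨p, hcm, hne, hht, hloc⟩ := key O hO hc
    obtain ⟨O', hloc', ⟨π, hπ⟩, H⟩ := vc1 _ K p hne hht
    have hOO := isLocO_unique _ _ _ hloc hloc'
    subst hOO
    exact exists_tame O _ hπ (H _ hπ).1 a u ha hu

end Core

end GTD

open _root_.CUB.GTD

theorem t_GTD : M_GTD := by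
  intro dim1 fin vc1 vc2 k S K _ _ _ _ _ _ _ n θ q z hfrac hq
  let B := S ⧸ q.1.asIdeal
  have hqp : q.1.asIdeal.IsPrime := q.1.isPrime
  let ι : B →+* K := Ideal.Quotient.lift q.1.asIdeal θ.toRingHom (by
    intro a ha
    rw [hq] at ha
    exact ha)
  have hι : ∀ s : S, ι (Ideal.Quotient.mk _ s) = θ s := fun s => rfl
  let _ : Algebra B K := ι.toAlgebra
  have hinj : Function.Injective (algebraMap B K) := by
    rw [injective_iff_map_eq_zero]
    intro b hb
    obtain ⟨s, rfl⟩ := Ideal.Quotient.mk_surjective b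
    rw [Ideal.Quotient.eq_zero_iff_mem, hq]
    exact hb
  have : IsFractionRing B K :=
    { map_units := by
        intro y
        apply IsUnit.mk0
        intro h
        exact nonZeroDivisors.ne_zero y.2 (hinj (h.trans (map_zero _).symm))
      surj := by
        intro y
        obtain ⟨a, b, hb, hab⟩ := hfrac y
        refine ⟨⟨Ideal.Quotient.mk _ a, ⟨Ideal.Quotient.mk _ b, ?_⟩⟩, hab⟩
        apply mem_nonZeroDivisors_of_ne_zero
        intro h
        apply hb
        have h1 : algebraMap B K (Ideal.Quotient.mk _ b) = 0 := by rw [h, map_zero]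
        exact h1
      exists_of_eq := by
        intro x y h
        exact ⟨1, by rw [hinj h]⟩ }
  have hno : IsNoetherianRing B := by
    have : IsNoetherianRing S := Algebra.FiniteType.isNoetherianRing k S
    infer_instance
  have hfin : Module.Finite B (integralClosure B K) := fin k B K
  have hqz : ∀ (O : ValuationSubring K) (h : ∀ s, θ s ∈ O),
      z.1.asIdeal = RingHom.ker (rhoO θ O h) → q.1.asIdeal ≤ z.1.asIdeal := by
    intro O h hz s hs
    rw [hz]
    rw [hq] at hs
    have h1 : θ s = 0 := hs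
    change IsLocalRing.residue O ⟨θ s, h s⟩ = 0
    rw [residue_eq_zero_iff']
    exact Or.inl h1
  by_cases hle : q.1.asIdeal ≤ z.1.asIdeal
  · -- the image of `z` in `B`
    have hzm : ∀ s : S, Ideal.Quotient.mk q.1.asIdeal s ∈ z.1.asIdeal.map
        (Ideal.Quotient.mk q.1.asIdeal) ↔ s ∈ z.1.asIdeal := by
      intro s
      constructor
      · intro h
        obtain ⟨s', hs', he⟩ :=
          (Ideal.mem_map_iff_of_surjective _ Ideal.Quotient.mk_surjective).mp h
        rw [Ideal.Quotient.eq] at he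
        have h1 := hle he
        have h2 : s = s' - (s' - s) := by ring
        rw [h2]
        exact Ideal.sub_mem _ hs' h1
      · intro h
        exact Ideal.mem_map_of_mem _ h
    have hlt : q.1 < z.1 := by
      refine lt_of_le_of_ne hle ?_
      intro h
      have h1 := q.2
      have h2 := z.2
      rw [h, h2] at h1
      have h3 : (n + 1 : ℕ) = n + 1 + 1 := by exact_mod_cast h1
      omega
    have hne : z.1.asIdeal.map (Ideal.Quotient.mk q.1.asIdeal) ≠ ⊥ := by
      intro h
      apply hlt.not_ge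
      intro s hs
      have h1 := (hzm s).mpr hs
      rw [h, Ideal.mem_bot, Ideal.Quotient.eq_zero_iff_mem] at h1
      exact h1
    have hht : ∀ P' : Ideal B, P'.IsPrime →
        P' < z.1.asIdeal.map (Ideal.Quotient.mk q.1.asIdeal) → P' = ⊥ := by
      intro P' hP' hlt'
      by_contra hbot
      let Q : PrimeSpectrum S := ⟨P'.comap (Ideal.Quotient.mk q.1.asIdeal),
        Ideal.comap_isPrime _ _⟩
      have h1 : q.1 < Q := by
        refine lt_of_le_of_ne ?_ ?_
        · intro s hs
          change Ideal.Quotient.mk _ s ∈ P'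
          rw [Ideal.Quotient.eq_zero_iff_mem.mpr hs]
          exact P'.zero_mem
        · intro h
          apply hbot
          rw [eq_bot_iff]
          intro b hb
          obtain ⟨s, rfl⟩ := Ideal.Quotient.mk_surjective b
          have h2 : s ∈ Q.asIdeal := hb
          rw [← h] at h2
          rw [Ideal.mem_bot, Ideal.Quotient.eq_zero_iff_mem]
          exact h2
      have h2 : Q < z.1 := by
        refine lt_of_le_of_ne ?_ ?_
        · intro s hs
          exact (hzm s).mp (hlt'.le hs)
        · intro h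
          apply hlt'.ne
          apply le_antisymm hlt'.le
          intro b hb
          obtain ⟨s, rfl⟩ := Ideal.Quotient.mk_surjective b
          have h3 := (hzm s).mp hb
          rw [← h] at h3
          exact h3
      obtain ⟨m, hm⟩ := (dim1 k S Q).1
      have h3 := (dim1 k S q.1).2 Q h1
      have h4 := (dim1 k S Q).2 z.1 h2
      rw [q.2, hm] at h3
      rw [z.2, hm] at h4
      have h5 : m < n + 1 + 1 := by exact_mod_cast h3
      have h6 : n + 1 < m := by exact_mod_cast h4
      omega
    obtain ⟨hF, hT⟩ := core hfin vc1 vc2 _ hne hht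
    have conv : ∀ (O : ValuationSubring K) (h : ∀ s, θ s ∈ O),
        z.1.asIdeal = RingHom.ker (rhoO θ O h) → (∀ b : B, algebraMap B K b ∈ O) ∧
        ∀ b : B, b ∈ z.1.asIdeal.map (Ideal.Quotient.mk q.1.asIdeal) ↔
          algebraMap B K b = 0 ∨ (algebraMap B K b)⁻¹ ∉ O := by
      intro O h hz
      constructor
      · intro b
        obtain ⟨s, rfl⟩ := Ideal.Quotient.mk_surjective b
        exact h s
      · intro b
        obtain ⟨s, rfl⟩ := Ideal.Quotient.mk_surjective b
        rw [hzm, hz]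
        exact residue_eq_zero_iff' O ⟨θ s, h s⟩
    constructor
    · refine hF.subset ?_
      rintro O ⟨h, hz⟩
      exact conv O h hz
    · intro O h hz a u ha hu
      obtain ⟨h1, h2⟩ := conv O h hz
      obtain ⟨w, hw, hun⟩ := hT O h1 h2 a u ha hu
      obtain ⟨b, c, hbc⟩ := exists_nm (rhoO θ O h) (IsLocalRing.residue O w)
        (residue_ne_zero O w hun)
      exact ⟨w, b, c, hw, hbc⟩
  · constructor
    · convert! Set.finite_empty
      rw [Set.eq_empty_iff_forall_notMem]
      rintro O ⟨h, hz⟩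
      exact hle (hqz O h hz)
    · intro O h hz
      exact absurd (hqz O h hz) hle

end CUB


end

section

/-!
# CUB: PC, the formula for two elements of the base ring
-/

set_option autoImplicit false

namespace CUB

namespace PC

lemma length_max {C A : Type} [CommRing C] [IsNoetherianRing C] [CommRing A] [Algebra C A]
    [Module.Finite C A] (P : Ideal A) (hP : P.IsMaximal) : Module.length C (A ⧸ P) ≠ ⊤ := by
  haveI := hP
  haveI h1 : (P.under C).IsMaximal := Ideal.isMaximal_comap_of_isIntegral_of_isMaximal P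
  haveI : P.LiesOver (P.under C) := Ideal.over_under P
  letI : Field (C ⧸ P.under C) := Ideal.Quotient.field _
  haveI : Module.Finite (C ⧸ P.under C) (A ⧸ P) :=
    Module.Finite.of_restrictScalars_finite C _ _
  rw [Module.length_eq_of_surjective (S := C) (R := C ⧸ P.under C) (M := A ⧸ P)
    Ideal.Quotient.mk_surjective]
  exact Module.length_ne_top

lemma len_eq {A : Type} [CommRing A] (I : Ideal A) (p : PrimeSpectrum A) :
    lC (Localization.AtPrime p.asIdeal) (LocalizedModule p.asIdeal.primeCompl (A ⧸ I)) =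
      len I p := by
  unfold lC len
  congr 1
  have e1 := IsLocalizedModule.linearEquiv p.asIdeal.primeCompl
    (LocalizedModule.mkLinearMap p.asIdeal.primeCompl (A ⧸ I))
    (I.toLocalizedQuotient' (Localization.AtPrime p.asIdeal) p.asIdeal.primeCompl
      (Algebra.linearMap A (Localization.AtPrime p.asIdeal)))
  have e2 := e1.extendScalarsOfIsLocalization p.asIdeal.primeCompl
    (Localization.AtPrime p.asIdeal)
  rw [e2.length_eq, Ideal.localized'_eq_map]

/-- The elements which a power of `u` multiplies into `(a)`. -/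
def sat {B : Type} [CommRing B] (a u : B) : Ideal B where
  carrier := {x | ∃ n : ℕ, u ^ n * x ∈ Ideal.span {a}}
  add_mem' := by
    rintro x y ⟨n, hn⟩ ⟨m, hm⟩
    refine ⟨n + m, ?_⟩
    have h : u ^ (n + m) * (x + y) = u ^ m * (u ^ n * x) + u ^ n * (u ^ m * y) := by ring
    rw [h]
    exact Ideal.add_mem _ (Ideal.mul_mem_left _ _ hn) (Ideal.mul_mem_left _ _ hm)
  zero_mem' := ⟨0, by simp⟩
  smul_mem' := by
    rintro c x ⟨n, hn⟩
    refine ⟨n, ?_⟩
    have h : u ^ n * (c • x) = c * (u ^ n * x) := by rw [smul_eq_mul]; ring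
    rw [h]
    exact Ideal.mul_mem_left _ _ hn

lemma mem_sat {B : Type} [CommRing B] (a u x : B) :
    x ∈ sat a u ↔ ∃ n : ℕ, u ^ n * x ∈ Ideal.span {a} := Iff.rfl

lemma loc_len {R M N : Type} [CommRing R] (S : Submonoid R) [AddCommGroup M] [Module R M]
    [AddCommGroup N] [Module R N] (f : M →ₗ[R] N) (hk : ∀ m, f m = 0 → ∃ s ∈ S, s • m = 0)
    (hc : ∀ n, ∃ s ∈ S, ∃ m, s • n = f m) :
    Module.length (Localization S) (LocalizedModule S M) =
      Module.length (Localization S) (LocalizedModule S N) := by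
  haveI : IsLocalizedModule S ((LocalizedModule.mkLinearMap S N) ∘ₗ f) := by
    constructor
    · intro s
      exact IsLocalizedModule.map_units (LocalizedModule.mkLinearMap S N) s
    · intro y
      obtain ⟨⟨n, s⟩, hn⟩ := IsLocalizedModule.surj S (LocalizedModule.mkLinearMap S N) y
      obtain ⟨t, ht, m, hm⟩ := hc n
      refine ⟨⟨m, ⟨t, ht⟩ * s⟩, ?_⟩
      simp only [LinearMap.comp_apply]
      rw [← hm, map_smul, ← hn, mul_smul]
      rfl
    · intro x y h
      simp only [LinearMap.comp_apply] at h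
      obtain ⟨s, hs⟩ := (IsLocalizedModule.eq_iff_exists S
        (LocalizedModule.mkLinearMap S N)).1 h
      obtain ⟨t, ht, h2⟩ := hk ((s : R) • (x - y)) (by
        rw [map_smul, map_sub, smul_sub, sub_eq_zero]
        exact hs)
      refine ⟨⟨t, ht⟩ * s, ?_⟩
      rw [← sub_eq_zero, ← smul_sub, mul_smul]
      exact h2
  have e1 := IsLocalizedModule.linearEquiv S (LocalizedModule.mkLinearMap S M)
    ((LocalizedModule.mkLinearMap S N) ∘ₗ f)
  exact (e1.extendScalarsOfIsLocalization S (Localization S)).length_eq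

lemma onedim (hDEV : S_DEV) {R N : Type} [CommRing R] [IsDomain R] [IsNoetherianRing R]
    (hR : ∀ P : Ideal R, P.IsPrime → P ≠ ⊥ → Module.length R (R ⧸ P) ≠ ⊤)
    [AddCommGroup N] [Module R N] [Module.Finite R N] (y : R) (hy : y ≠ 0)
    (f : R →ₗ[R] N) (hf : ∀ r, f r = 0 → r = 0)
    (hc : ∀ n, ∃ s : R, s ≠ 0 ∧ ∃ m, s • n = f m) (ht : ∀ n : N, y • n = 0 → n = 0) :
    lC R (N ⧸ LinearMap.range (LinearMap.lsmul R N y)) = lC R (R ⧸ Ideal.span {y}) := by
  classical
  have hfin : Module.length R (R ⧸ Ideal.span {y}) ≠ ⊤ := by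
    obtain ⟨_, h2, _⟩ := hDEV R R 0 ∅ (by simp) (by simp) (R ⧸ Ideal.span {y}) (by
      intro P hP
      right
      refine ⟨by simp, hR P.asIdeal P.isPrime ?_⟩
      have h1 : Ideal.span {y} ≤ P.asIdeal := by
        have := Module.mem_support_iff_of_finite.1 hP
        rwa [Ideal.annihilator_quotient] at this
      intro h
      rw [h] at h1
      exact hy (by simpa using h1 (Ideal.mem_span_singleton_self y)))
    have h3 : LinearMap.ker (LinearMap.lsmul R (R ⧸ Ideal.span {y}) 0) = ⊤ := by
      rw [map_zero, LinearMap.ker_zero]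
    rw [h3] at h2
    rwa [Submodule.topEquiv.length_eq] at h2
  obtain ⟨b, hb⟩ : ∃ b : PrimeSpectrum R, b.asIdeal = ⊥ := ⟨⟨⊥, Ideal.isPrime_bot⟩, rfl⟩
  have key : ∀ (N : Type) [AddCommGroup N] [Module R N] [Module.Finite R N],
      (∀ n : N, y • n = 0 → n = 0) →
      lC R (N ⧸ LinearMap.range (LinearMap.lsmul R N y)) =
        lC (Localization.AtPrime b.asIdeal) (LocalizedModule b.asIdeal.primeCompl N) *
          lC R (R ⧸ (b.asIdeal ⊔ Ideal.span {y})) := by
    intro N _ _ _ hN
    obtain ⟨_, _, _, h4⟩ := hDEV R R y {b} (by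
      intro P hP
      rw [Finset.mem_singleton] at hP
      subst hP
      rw [hb]
      refine ⟨by simpa using hy, ?_⟩
      rwa [bot_sup_eq]) (by
      intro P hP P' hP' _
      rw [Finset.mem_singleton] at hP hP'
      rw [hP, hP']) N (by
      intro P _
      by_cases hPb : P.asIdeal = ⊥
      · left
        rw [Finset.mem_singleton]
        exact PrimeSpectrum.ext (hPb.trans hb.symm)
      · right
        refine ⟨fun P' hP' hle => ?_, hR P.asIdeal P.isPrime hPb⟩
        rw [Finset.mem_singleton] at hP'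
        subst hP'
        rw [hb] at hle
        exact hPb (le_bot_iff.1 hle))
    have h5 : LinearMap.ker (LinearMap.lsmul R N y) = ⊥ := by
      rw [LinearMap.ker_eq_bot']
      exact hN
    rw [h5, Finset.sum_singleton] at h4
    have h6 : lC R (⊥ : Submodule R N) = 0 := by
      unfold lC
      rw [Module.length_bot]
      rfl
    rw [h6, zero_add] at h4
    exact h4
  have k1 := key N ht
  have k2 := key R (fun n hn => by
    rw [smul_eq_mul, mul_eq_zero] at hn
    exact hn.resolve_left hy)
  have k3 : lC (Localization.AtPrime b.asIdeal) (LocalizedModule b.asIdeal.primeCompl R) =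
      lC (Localization.AtPrime b.asIdeal) (LocalizedModule b.asIdeal.primeCompl N) := by
    unfold lC
    congr 1
    refine loc_len b.asIdeal.primeCompl f (fun m hm => ⟨1, Submonoid.one_mem _, ?_⟩)
      (fun n => ?_)
    · rw [hf m hm, smul_zero]
    · obtain ⟨s, hs, m, hm⟩ := hc n
      refine ⟨s, ?_, m, hm⟩
      intro h
      rw [hb] at h
      exact hs (by simpa using h)
  rw [k1, ← k3, ← k2]
  have h7 : LinearMap.range (LinearMap.lsmul R R y) = Ideal.span {y} := by
    ext z
    rw [Ideal.mem_span_singleton']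
    constructor
    · rintro ⟨w, rfl⟩
      exact ⟨w, by simp [mul_comm]⟩
    · rintro ⟨w, rfl⟩
      exact ⟨w, by simp [mul_comm]⟩
  rw [h7]

lemma min_lemma {B : Type} [CommRing B] (I P : Ideal B) [P.IsPrime]
    (hmin : ∀ Q : Ideal B, Q.IsPrime → I ≤ Q → Q ≤ P → Q = P) (u : B) (hu : u ∈ P) :
    ∃ s, s ∉ P ∧ ∃ n : ℕ, u ^ n * s ∈ I := by
  by_contra hcon
  push Not at hcon
  obtain ⟨Q, hQ, hIQ, hdis⟩ := Ideal.exists_le_prime_disjoint I
    (P.primeCompl ⊔ Submonoid.powers u) (by
      rw [Set.disjoint_left]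
      intro x hx hx2
      obtain ⟨s, hs, v, ⟨n, rfl⟩, rfl⟩ := Submonoid.mem_sup.1 hx2
      apply hcon s hs n
      rw [mul_comm]
      exact hx)
  have hQP : Q ≤ P := by
    intro x hx
    by_contra hxP
    exact Set.disjoint_left.1 hdis hx (Submonoid.mem_sup_left hxP)
  have := hmin Q hQ hIQ hQP
  rw [← this] at hu
  exact Set.disjoint_left.1 hdis hu (Submonoid.mem_sup_right (Submonoid.mem_powers u))

lemma quot_loc {R M : Type} [CommRing R] (S : Submonoid R) [AddCommGroup M] [Module R M] (a : R) :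
    Module.length (Localization S)
        (LocalizedModule S (M ⧸ LinearMap.range (LinearMap.lsmul R M a))) =
      Module.length (Localization S) (LocalizedModule S M ⧸
        LinearMap.range (LinearMap.lsmul (Localization S) (LocalizedModule S M)
          (algebraMap R (Localization S) a))) := by
  have e1 := IsLocalizedModule.linearEquiv S
    (LocalizedModule.mkLinearMap S (M ⧸ LinearMap.range (LinearMap.lsmul R M a)))
    ((LinearMap.range (LinearMap.lsmul R M a)).toLocalizedQuotient' (Localization S) S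
      (LocalizedModule.mkLinearMap S M))
  have e2 := e1.extendScalarsOfIsLocalization S (Localization S)
  rw [e2.length_eq]
  have h : (LinearMap.range (LinearMap.lsmul R M a)).localized' (Localization S) S
      (LocalizedModule.mkLinearMap S M) =
      LinearMap.range (LinearMap.lsmul (Localization S) (LocalizedModule S M)
        (algebraMap R (Localization S) a)) := by
    ext x
    rw [Submodule.mem_localized']
    constructor
    · rintro ⟨_, ⟨m, rfl⟩, s, rfl⟩
      refine ⟨IsLocalizedModule.mk' (LocalizedModule.mkLinearMap S M) m s, ?_⟩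
      rw [LinearMap.lsmul_apply, LinearMap.lsmul_apply, IsLocalizedModule.mk'_smul,
        algebraMap_smul]
    · rintro ⟨w, rfl⟩
      obtain ⟨⟨m, s⟩, hm⟩ := IsLocalizedModule.mk'_surjective S
        (LocalizedModule.mkLinearMap S M) w
      refine ⟨a • m, ⟨m, rfl⟩, s, ?_⟩
      rw [LinearMap.lsmul_apply, ← hm, IsLocalizedModule.mk'_smul, algebraMap_smul]
      rfl
  rw [h]

lemma loc_dim {C : Type} [CommRing C] [IsDomain C] [IsNoetherianRing C] (z : PrimeSpectrum C)
    (h7 : ∀ p' : Ideal C, p'.IsPrime → p' < z.asIdeal → p' = ⊥)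
    (P : Ideal (Localization.AtPrime z.asIdeal)) (hP : P.IsPrime) (hb : P ≠ ⊥) :
    Module.length (Localization.AtPrime z.asIdeal) (Localization.AtPrime z.asIdeal ⧸ P) ≠ ⊤ := by
  apply length_max
  have h1 : P ≤ IsLocalRing.maximalIdeal (Localization.AtPrime z.asIdeal) :=
    IsLocalRing.le_maximalIdeal hP.ne_top
  have h2 : Ideal.under C P ≤ z.asIdeal := by
    have h3 : Ideal.under C P ≤
        Ideal.under C (IsLocalRing.maximalIdeal (Localization.AtPrime z.asIdeal)) :=
      Ideal.comap_mono h1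
    rwa [Localization.AtPrime.under_maximalIdeal] at h3
  have h4 := IsLocalization.map_under z.asIdeal.primeCompl (Localization.AtPrime z.asIdeal) P
  rcases h2.lt_or_eq with hlt | he
  · exfalso
    have h5 : Ideal.under C P = ⊥ := h7 _ (Ideal.comap_isPrime _ P) hlt
    rw [h5, Ideal.map_bot] at h4
    exact hb h4.symm
  · rw [he, Localization.AtPrime.map_eq_maximalIdeal] at h4
    rw [← h4]
    exact IsLocalRing.maximalIdeal.isMaximal _

/-- The length at `z` of `A / a A` is that of `C / a C`. -/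
lemma at_z (hDEV : S_DEV) {C A K : Type} [CommRing C] [IsDomain C] [IsNoetherianRing C]
    [CommRing A] [IsDomain A] [Field K] [Algebra C A] [Algebra C K] [Algebra A K]
    [IsScalarTower C A K] [Module.Finite C A] [IsFractionRing C K] [IsFractionRing A K]
    (z : PrimeSpectrum C) (h7 : ∀ p' : Ideal C, p'.IsPrime → p' < z.asIdeal → p' = ⊥)
    (a : C) (ha : a ≠ 0) :
    lC (Localization.AtPrime z.asIdeal) (LocalizedModule z.asIdeal.primeCompl
      (A ⧸ LinearMap.range (LinearMap.lsmul C A a))) = len (Ideal.span {a}) z := by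
  have hinj : Function.Injective (algebraMap C A) := by
    have h1 : Function.Injective (algebraMap C K) := IsFractionRing.injective C K
    rw [IsScalarTower.algebraMap_eq C A K] at h1
    exact Function.Injective.of_comp h1
  have hinjK : Function.Injective (algebraMap A K) := IsFractionRing.injective A K
  set R := Localization.AtPrime z.asIdeal with hR
  set N := LocalizedModule z.asIdeal.primeCompl A with hN
  haveI : IsDomain R := IsLocalization.isDomain_localization
    (Ideal.primeCompl_le_nonZeroDivisors z.asIdeal)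
  haveI : IsNoetherianRing R := IsLocalization.isNoetherianRing z.asIdeal.primeCompl R inferInstance
  have hzinj : Function.Injective (algebraMap C R) :=
    IsLocalization.injective R (Ideal.primeCompl_le_nonZeroDivisors z.asIdeal)
  have hmk : ∀ (x : A) (s : z.asIdeal.primeCompl), (LocalizedModule.mk x s : N) = 0 → x = 0 := by
    intro x s h
    have h1 : (LocalizedModule.mk x s : N) = LocalizedModule.mk 0 s := by
      rw [h, LocalizedModule.zero_mk]
    obtain ⟨t, ht⟩ := LocalizedModule.mk_eq.1 h1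
    have h2 : ((t : C) * (s : C)) • x = 0 := by
      rw [mul_smul]
      have h3 : t • s • x = (t : C) • (s : C) • x := rfl
      rw [← h3, ht, smul_zero, smul_zero]
    rw [Algebra.smul_def, mul_eq_zero, ← map_zero (algebraMap C A)] at h2
    rcases h2 with h2 | h2
    · exfalso
      have h3 := hinj h2
      exact (z.asIdeal.primeCompl.mul_mem t.2 s.2) (by
        rw [h3]; exact Ideal.zero_mem _)
    · rw [h2, map_zero]
  have hd := onedim hDEV (R := R) (N := N) (fun P hP hb => loc_dim z h7 P hP hb)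
    (algebraMap C R a) (by
      intro h
      rw [← map_zero (algebraMap C R)] at h
      exact ha (hzinj h))
    (LinearMap.toSpanSingleton R N (LocalizedModule.mk 1 1)) (by
      intro r hr
      obtain ⟨c, s, rfl⟩ := IsLocalization.exists_mk'_eq z.asIdeal.primeCompl r
      rw [LinearMap.toSpanSingleton_apply] at hr
      have h0 : algebraMap C R (s : C) • (IsLocalization.mk' R c s •
          (LocalizedModule.mk 1 1 : N)) = 0 := by rw [hr, smul_zero]
      rw [smul_smul, IsLocalization.mk'_spec', algebraMap_smul, LocalizedModule.smul'_mk] at h0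
      have h1 := hmk _ _ h0
      rw [Algebra.smul_def, mul_one, ← map_zero (algebraMap C A)] at h1
      rw [hinj h1, IsLocalization.mk'_zero]) (by
      intro n
      induction n using LocalizedModule.induction_on with
      | h x s =>
        obtain ⟨c, t, ht, hct⟩ := IsFractionRing.div_surjective (A := C) (algebraMap A K x)
        have ht0 : t ≠ 0 := nonZeroDivisors.ne_zero ht
        have htK : algebraMap C K t ≠ 0 := by
          intro h
          rw [← map_zero (algebraMap C K)] at h
          exact ht0 (IsFractionRing.injective C K h)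
        have h1 : t • x = c • (1 : A) := by
          apply hinjK
          rw [Algebra.smul_def, Algebra.smul_def, map_mul, map_mul, map_one, mul_one,
            ← IsScalarTower.algebraMap_apply, ← IsScalarTower.algebraMap_apply, ← hct,
            mul_div_cancel₀ _ htK]
        refine ⟨algebraMap C R (t * s), ?_, algebraMap C R c, ?_⟩
        · intro h
          rw [← map_zero (algebraMap C R)] at h
          have h2 := hzinj h
          rcases mul_eq_zero.1 h2 with h3 | h3
          · exact ht0 h3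
          · exact s.2 (by
              show (s : C) ∈ z.asIdeal
              rw [h3]; exact Ideal.zero_mem _)
        · rw [LinearMap.toSpanSingleton_apply, algebraMap_smul, algebraMap_smul,
            LocalizedModule.smul'_mk, LocalizedModule.smul'_mk, ← h1]
          rw [LocalizedModule.mk_eq]
          refine ⟨1, ?_⟩
          rw [one_smul, one_smul, one_smul]
          rw [mul_comm t (s : C), mul_smul]
          rfl) (by
      intro n hn
      induction n using LocalizedModule.induction_on with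
      | h x s =>
        rw [algebraMap_smul, LocalizedModule.smul'_mk] at hn
        have h1 := hmk _ _ hn
        rw [Algebra.smul_def, mul_eq_zero, ← map_zero (algebraMap C A)] at h1
        rcases h1 with h1 | h1
        · exact absurd (hinj h1) ha
        · rw [h1, map_zero, LocalizedModule.zero_mk])
  unfold lC at hd ⊢
  rw [quot_loc, hd]
  unfold len
  rw [Ideal.map_span, Set.image_singleton]

/-- A prime of height one containing `a` and the saturation does not contain `u`. -/
lemma not_mem {B : Type} [CommRing B] (a u : B) (ha : a ≠ 0) (P : Ideal B) [P.IsPrime]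
    (h3 : ∀ p' : Ideal B, p'.IsPrime → p' < P → p' = ⊥) (hI : sat a u ≤ P) : u ∉ P := by
  intro hu
  obtain ⟨s, hs, n, hn⟩ := min_lemma (Ideal.span {a}) P (by
    intro Q hQ hIQ hQP
    rcases hQP.lt_or_eq with hlt | he
    · exfalso
      have h4 := h3 Q hQ hlt
      rw [h4] at hIQ
      exact ha (by simpa using hIQ (Ideal.mem_span_singleton_self a))
    · exact he) u hu
  exact hs (hI ((mem_sat a u s).2 ⟨n, hn⟩))

lemma self_mem {B : Type} [CommRing B] (a u : B) : a ∈ sat a u :=
  (mem_sat a u a).2 ⟨0, by simp⟩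

lemma of_mul_mem {B : Type} [CommRing B] (a u x : B) (h : u * x ∈ sat a u) : x ∈ sat a u := by
  obtain ⟨n, hn⟩ := (mem_sat a u _).1 h
  exact (mem_sat a u x).2 ⟨n + 1, by rw [pow_succ, mul_assoc]; exact hn⟩

lemma range_len {C A M : Type} [CommRing C] [CommRing A] [Algebra C A] [AddCommGroup M]
    [Module A M] [Module C M] [IsScalarTower C A M] (u : C) :
    lC C (M ⧸ LinearMap.range (LinearMap.lsmul A M (algebraMap C A u))) =
      lC C (M ⧸ LinearMap.range (LinearMap.lsmul C M u)) := by
  unfold lC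
  congr 1
  rw [← (Submodule.Quotient.restrictScalarsEquiv C
    (LinearMap.range (LinearMap.lsmul A M (algebraMap C A u)))).length_eq]
  refine (Submodule.quotEquivOfEq _ _ ?_).length_eq
  ext x
  simp only [Submodule.restrictScalars_mem, LinearMap.mem_range, LinearMap.lsmul_apply,
    algebraMap_smul]

lemma lC_bot {C A M : Type} [CommRing C] [CommRing A] [Algebra C A] [AddCommGroup M]
    [Module A M] [Module C M] [IsScalarTower C A M] (T : Submodule A M) (hT : T = ⊥) :
    lC C T = 0 := by
  subst hT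
  unfold lC
  rw [Module.length_eq_zero]
  rfl

end PC

open _root_.CUB.PC in
theorem t_PC : M_PC := by
  classical
  intro hDEV hHHA C A K _ _ _ _ _ _ _ _ _ _ _ hSit a u ha hu V Z hV hZ
  obtain ⟨hN, _, h3, _, h5, _, h7, h8, _⟩ := hHHA C A K hSit
  haveI := hN
  haveI := hSit.fin
  haveI := hSit.frC
  haveI := hSit.frA
  have hinj : Function.Injective (algebraMap C A) := by
    have h1 : Function.Injective (algebraMap C K) := IsFractionRing.injective C K
    rw [IsScalarTower.algebraMap_eq C A K] at h1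
    exact Function.Injective.of_comp h1
  have ha' : algebraMap C A a ≠ 0 := by
    intro h
    rw [← map_zero (algebraMap C A)] at h
    exact ha (hinj h)
  obtain ⟨_, _, _, dA⟩ := hDEV C A (algebraMap C A u) V
    (fun P hP => ⟨((hV P).1 hP).2.2, h5 P ((hV P).1 hP).1 _ ((hV P).1 hP).2.2⟩)
    (fun P hP P' hP' hle => by
      rcases hle.lt_or_eq with hlt | he
      · exact absurd (h3 P' ((hV P').1 hP').1 P.asIdeal P.isPrime hlt) ((hV P).1 hP).1.1
      · exact PrimeSpectrum.ext he)
    (A ⧸ sat (algebraMap C A a) (algebraMap C A u)) (by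
      intro P hP
      have hI : sat (algebraMap C A a) (algebraMap C A u) ≤ P.asIdeal := by
        have := Module.mem_support_iff_of_finite.1 hP
        rwa [Ideal.annihilator_quotient] at this
      have haP : algebraMap C A a ∈ P.asIdeal := hI (self_mem _ _)
      by_cases hPH : P ∈ HH A
      · exact Or.inl ((hV P).2 ⟨hPH, haP, not_mem _ _ ha' P.asIdeal (h3 P hPH) hI⟩)
      · right
        have hmax : P.asIdeal.IsMaximal := by
          by_contra hcon
          refine hPH ⟨?_, hcon⟩
          intro hb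
          rw [hb] at haP
          exact ha' ((Ideal.mem_bot).1 haP)
        refine ⟨fun P' hP' hle => ?_, length_max P.asIdeal hmax⟩
        have := hmax.eq_of_le P'.isPrime.ne_top hle
        exact ((hV P').1 hP').1.2 (this ▸ hmax))
  obtain ⟨_, _, _, dC⟩ := hDEV C C u Z
    (fun P hP => ⟨((hZ P).1 hP).2.2, h8 P ((hZ P).1 hP).1 _ ((hZ P).1 hP).2.2⟩)
    (fun P hP P' hP' hle => by
      rcases hle.lt_or_eq with hlt | he
      · exact absurd (h7 P' ((hZ P').1 hP').1 P.asIdeal P.isPrime hlt) ((hZ P).1 hP).1.1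
      · exact PrimeSpectrum.ext he)
    (A ⧸ sat (algebraMap C A a) (algebraMap C A u)) (by
      intro P hP
      have hI' : ∀ c : C, algebraMap C A c ∈ sat (algebraMap C A a) (algebraMap C A u) →
          c ∈ P.asIdeal := by
        intro c hc
        apply Module.mem_support_iff_of_finite.1 hP
        rw [Module.mem_annihilator]
        intro m
        obtain ⟨x, rfl⟩ := Ideal.Quotient.mk_surjective m
        have h1 : c • Ideal.Quotient.mk (sat (algebraMap C A a) (algebraMap C A u)) x =
          Ideal.Quotient.mk (sat (algebraMap C A a) (algebraMap C A u)) (c • x) := rfl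
        rw [h1, Ideal.Quotient.eq_zero_iff_mem, Algebra.smul_def]
        exact Ideal.mul_mem_right _ _ hc
      have hI : sat a u ≤ P.asIdeal := by
        intro c hc
        obtain ⟨n, hn⟩ := (mem_sat _ _ _).1 hc
        apply hI'
        refine (mem_sat _ _ _).2 ⟨n, ?_⟩
        have := Ideal.mem_map_of_mem (algebraMap C A) hn
        rwa [Ideal.map_span, Set.image_singleton, map_mul, map_pow] at this
      have haP : a ∈ P.asIdeal := hI (self_mem _ _)
      by_cases hPH : P ∈ HH C
      · exact Or.inl ((hZ P).2 ⟨hPH, haP, not_mem _ _ ha P.asIdeal (h7 P hPH) hI⟩)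
      · right
        have hmax : P.asIdeal.IsMaximal := by
          by_contra hcon
          refine hPH ⟨?_, hcon⟩
          intro hb
          rw [hb] at haP
          exact ha ((Ideal.mem_bot).1 haP)
        refine ⟨fun P' hP' hle => ?_, length_max P.asIdeal hmax⟩
        have := hmax.eq_of_le P'.isPrime.ne_top hle
        exact ((hZ P').1 hP').1.2 (this ▸ hmax))
  have kA : LinearMap.ker (LinearMap.lsmul A
      (A ⧸ sat (algebraMap C A a) (algebraMap C A u)) (algebraMap C A u)) = ⊥ := by
    rw [LinearMap.ker_eq_bot']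
    intro m hm
    obtain ⟨x, rfl⟩ := Ideal.Quotient.mk_surjective m
    rw [LinearMap.lsmul_apply] at hm
    have h1 : Ideal.Quotient.mk (sat (algebraMap C A a) (algebraMap C A u))
        (algebraMap C A u * x) = 0 := hm
    rw [Ideal.Quotient.eq_zero_iff_mem] at h1 ⊢
    exact of_mul_mem _ _ _ h1
  have kC : LinearMap.ker (LinearMap.lsmul C
      (A ⧸ sat (algebraMap C A a) (algebraMap C A u)) u) = ⊥ := by
    rw [LinearMap.ker_eq_bot'] at kA ⊢
    intro m hm
    apply kA m
    rw [LinearMap.lsmul_apply] at hm ⊢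
    rwa [algebraMap_smul]
  rw [lC_bot _ kA, zero_add, range_len] at dA
  rw [lC_bot _ kC, zero_add, dA] at dC
  have eA : ∀ P ∈ V, lC (Localization.AtPrime P.asIdeal) (LocalizedModule P.asIdeal.primeCompl
      (A ⧸ sat (algebraMap C A a) (algebraMap C A u))) =
      len (Ideal.span {algebraMap C A a}) P := by
    intro P hP
    rw [← len_eq]
    unfold lC
    congr 1
    symm
    refine loc_len P.asIdeal.primeCompl
      (Submodule.factor (show Ideal.span {algebraMap C A a} ≤
        sat (algebraMap C A a) (algebraMap C A u) from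
        (Ideal.span_singleton_le_iff_mem _).2 (self_mem _ _))) ?_ ?_
    · intro m hm
      obtain ⟨x, rfl⟩ := Ideal.Quotient.mk_surjective m
      have h1 : Ideal.Quotient.mk (sat (algebraMap C A a) (algebraMap C A u)) x = 0 := hm
      rw [Ideal.Quotient.eq_zero_iff_mem] at h1
      obtain ⟨n, hn⟩ := (mem_sat _ _ _).1 h1
      refine ⟨algebraMap C A u ^ n, Submonoid.pow_mem _ ((hV P).1 hP).2.2 n, ?_⟩
      exact Ideal.Quotient.eq_zero_iff_mem.2 hn
    · intro n
      obtain ⟨x, rfl⟩ := Ideal.Quotient.mk_surjective n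
      exact ⟨1, Submonoid.one_mem _, Ideal.Quotient.mk _ x, by rw [one_smul]; rfl⟩
  have eC : ∀ z ∈ Z, lC (Localization.AtPrime z.asIdeal) (LocalizedModule z.asIdeal.primeCompl
      (A ⧸ sat (algebraMap C A a) (algebraMap C A u))) = len (Ideal.span {a}) z := by
    intro z hz
    rw [← at_z hDEV (A := A) (K := K) z (h7 z ((hZ z).1 hz).1) a ha]
    unfold lC
    congr 1
    symm
    refine loc_len z.asIdeal.primeCompl
      (Submodule.liftQ (LinearMap.range (LinearMap.lsmul C A a))
        ((Submodule.mkQ (sat (algebraMap C A a) (algebraMap C A u))).restrictScalars C) ?_) ?_ ?_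
    · rintro _ ⟨x, rfl⟩
      have h1 : Ideal.Quotient.mk (sat (algebraMap C A a) (algebraMap C A u)) (a • x) = 0 := by
        rw [Ideal.Quotient.eq_zero_iff_mem, Algebra.smul_def]
        exact Ideal.mul_mem_right _ _ (self_mem _ _)
      exact h1
    · intro m hm
      obtain ⟨x, rfl⟩ := Submodule.mkQ_surjective _ m
      have h1 : Ideal.Quotient.mk (sat (algebraMap C A a) (algebraMap C A u)) x = 0 := hm
      rw [Ideal.Quotient.eq_zero_iff_mem] at h1
      obtain ⟨n, hn⟩ := (mem_sat _ _ _).1 h1
      refine ⟨u ^ n, Submonoid.pow_mem _ ((hZ z).1 hz).2.2 n, ?_⟩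
      rw [← map_smul, Submodule.mkQ_apply, Submodule.Quotient.mk_eq_zero]
      obtain ⟨y, hy⟩ := Ideal.mem_span_singleton'.1 hn
      refine ⟨y, ?_⟩
      rw [LinearMap.lsmul_apply, Algebra.smul_def, Algebra.smul_def, map_pow, ← hy, mul_comm]
    · intro n
      obtain ⟨x, rfl⟩ := Ideal.Quotient.mk_surjective n
      exact ⟨1, Submonoid.one_mem _, Submodule.Quotient.mk x, by rw [one_smul]; rfl⟩
  have s1 : ∑ P ∈ V, len (Ideal.span {algebraMap C A a}) P *
      lC C (A ⧸ (P.asIdeal ⊔ Ideal.span {algebraMap C A u})) =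
      ∑ P ∈ V, lC (Localization.AtPrime P.asIdeal) (LocalizedModule P.asIdeal.primeCompl
        (A ⧸ sat (algebraMap C A a) (algebraMap C A u))) *
        lC C (A ⧸ (P.asIdeal ⊔ Ideal.span {algebraMap C A u})) :=
    Finset.sum_congr rfl fun P hP => by rw [eA P hP]
  have s2 : ∑ z ∈ Z, len (Ideal.span {a}) z * lC C (C ⧸ (z.asIdeal ⊔ Ideal.span {u})) =
      ∑ z ∈ Z, lC (Localization.AtPrime z.asIdeal) (LocalizedModule z.asIdeal.primeCompl
        (A ⧸ sat (algebraMap C A a) (algebraMap C A u))) *
        lC C (C ⧸ (z.asIdeal ⊔ Ideal.span {u})) :=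
    Finset.sum_congr rfl fun z hz => by rw [eC z hz]
  rw [s1, s2]
  exact dC

end CUB


end

section

/-!
# CUB2, L4: function fields and field valued points; the divisor of a rational function in a chart
-/

set_option autoImplicit false

open Polynomial CategoryTheory AlgebraicGeometry Limits

namespace CUB

open Pool.Agent.Lib_helper55.Beil Pool.Agent.Lib_helper66.OneP

namespace L4

section Ev

variable {L : Type} [Field L]

/-- The point of `Spec L`. -/
noncomputable abbrev pt (L : Type) [Field L] : Spec (CommRingCat.of L) :=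
  IsLocalRing.closedPoint (CommRingCat.of L)

/-- The homomorphism `e` from the function field of `V` to `L` defines the morphism `g`. -/
def Ev {V : Scheme.{0}} [IsIntegral V] (g : Spec (CommRingCat.of L) ⟶ V)
    (e : V.functionField ⟶ CommRingCat.of L) : Prop :=
  Spec.map e ≫ V.fromSpecStalk (genericPoint V) = g

lemma exists_ev {V : Scheme.{0}} [IsIntegral V] (g : Spec (CommRingCat.of L) ⟶ V)
    (h : g (pt L) = genericPoint V) : ∃ e, Ev g e := by
  have h1 := Scheme.Spec_stalkClosedPointTo_fromSpecStalk g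
  refine ⟨V.presheaf.stalkSpecializes (specializes_of_eq h) ≫ Scheme.stalkClosedPointTo g, ?_⟩
  unfold Ev
  rw [Spec.map_comp, Category.assoc, Scheme.SpecMap_stalkSpecializes_fromSpecStalk]
  exact h1

lemma ev_unique {V : Scheme.{0}} [IsIntegral V] {g : Spec (CommRingCat.of L) ⟶ V}
    {e e' : V.functionField ⟶ CommRingCat.of L} (h : Ev g e) (h' : Ev g e') : e = e' := by
  unfold Ev at h h'
  apply Spec.map_injective
  rw [← cancel_mono (V.fromSpecStalk (genericPoint V)), h, h']

lemma ev_pt {V : Scheme.{0}} [IsIntegral V] {g : Spec (CommRingCat.of L) ⟶ V}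
    {e : V.functionField ⟶ CommRingCat.of L} (h : Ev g e) (x : Spec (CommRingCat.of L)) :
    g x = genericPoint V := by
  unfold Ev at h
  have h1 : g x ∈ Set.range (V.fromSpecStalk (genericPoint V)) := by
    rw [← h, Scheme.Hom.comp_apply]
    exact ⟨_, rfl⟩
  rw [Scheme.range_fromSpecStalk] at h1
  exact (Specializes.antisymm h1 (genericPoint_specializes _)).eq

lemma ev_comp {A B : Scheme.{0}} (h : A ⟶ B) [IsOpenImmersion h] [IsIntegral A] [IsIntegral B]
    {g : Spec (CommRingCat.of L) ⟶ A} {e : A.functionField ⟶ CommRingCat.of L} (he : Ev g e) :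
    Ev (g ≫ h) (funMap h ≫ e) := by
  unfold Ev at he ⊢
  have h1 : Spec.map (funMap h) ≫ B.fromSpecStalk (genericPoint B) =
      A.fromSpecStalk (genericPoint A) ≫ h := by
    unfold funMap
    rw [Spec.map_comp, Category.assoc, Scheme.SpecMap_stalkSpecializes_fromSpecStalk,
      Scheme.SpecMap_stalkMap_fromSpecStalk]
  rw [Spec.map_comp, Category.assoc, h1, ← Category.assoc, he]

variable {k : Type} [Field k]

lemma ev_fnA {D : Type} [CommRing D] [Algebra k D] [Algebra.FiniteType k D] [IsDomain D]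
    (σ : D →+* L) {g : Spec (CommRingCat.of L) ⟶ (aff k D).X}
    (hg : Spec.map (CommRingCat.ofHom σ) = g) {e : (aff k D).X.functionField ⟶ CommRingCat.of L}
    (he : Ev g e) (b : D) : e.hom (fnA k b) = σ b := by
  unfold Ev at he
  have h1 : (aff k D).X.fromSpecStalk (genericPoint (aff k D).X) =
      Spec.map (StructureSheaf.toStalk (CommRingCat.of D) _) := Spec.fromSpecStalk_eq' _ _
  rw [h1, ← hg] at he
  have h2 : (StructureSheaf.toStalk (CommRingCat.of D) (genericPoint (aff k D).X)) ≫ e =
      CommRingCat.ofHom σ := by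
    apply Spec.map_injective
    exact (Spec.map_comp _ _).trans he
  have h3 := congrArg (fun f => f.hom b) h2
  exact h3

end Ev

section Sp

variable (k : Type) [Field k] {R : Type} [CommRing R] [Algebra k R] [Algebra.FiniteType k R]
  {O' : Type} [CommRing O']

/-- The morphism to an affine variety defined by a homomorphism of rings. -/
noncomputable def sp (ρ : R →+* O') : Spec (CommRingCat.of O') ⟶ (aff k R).X :=
  Spec.map (CommRingCat.ofHom ρ)

lemma sp_injective {ρ ρ' : R →+* O'} (h : sp k ρ = sp k ρ') : ρ = ρ' := by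
  have h1 := Spec.map_injective h
  exact congrArg (fun f => f.hom) h1

lemma exists_sp (l : Spec (CommRingCat.of O') ⟶ (aff k R).X) : ∃ ρ : R →+* O', sp k ρ = l :=
  ⟨(Spec.preimage l).hom, Spec.map_preimage l⟩

lemma sp_comp {O'' : Type} [CommRing O''] (τ : O' →+* O'') (ρ : R →+* O') :
    Spec.map (CommRingCat.ofHom τ) ≫ sp k ρ = sp k (τ.comp ρ) := by
  change Spec.map (CommRingCat.ofHom τ) ≫ Spec.map (CommRingCat.ofHom ρ) =
    Spec.map (CommRingCat.ofHom (τ.comp ρ))
  rw [← Spec.map_comp]
  rfl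

lemma sp_spm {S : Type} [CommRing S] [Algebra k S] [Algebra.FiniteType k S] (ρ : S →+* O')
    (φ : R →ₐ[k] S) : sp k ρ ≫ spm φ = sp k (ρ.comp φ.toRingHom) := by
  change Spec.map (CommRingCat.ofHom ρ) ≫ Spec.map (CommRingCat.ofHom φ.toRingHom) = _
  rw [← Spec.map_comp]
  rfl

lemma sp_f (ρ : R →+* O') : sp k ρ ≫ (aff k R).f =
    Spec.map (CommRingCat.ofHom (ρ.comp (algebraMap k R))) := by
  change Spec.map (CommRingCat.ofHom ρ) ≫ Spec.map (CommRingCat.ofHom (algebraMap k R)) = _
  rw [← Spec.map_comp]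
  rfl

end Sp

section Res

variable {k : Type} [Field k] {E : Type} [Field E] {n : ℕ}

/-- The divisor of a product. -/
lemma isDiv_mul {W X : Var k} (a : ClosedIn W X) [AlgebraicGeometry.IsIntegral W.X]
    {φ ψ : W.X.functionField} (hφ : φ ≠ 0) (hψ : ψ ≠ 0) {c d : Pts n X →₀ E}
    (hc : IsDiv a φ c) (hd : IsDiv a ψ d) : IsDiv a (φ * ψ) (c + d) := by
  refine ⟨?_, ?_⟩
  · intro w h
    refine (Finsupp.add_apply _ _ _).trans ((congrArg₂ (· + ·) (hc.1 w h) (hd.1 w h)).trans ?_)
    rw [Scheme.ord_mul hφ hψ]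
    push_cast
    rfl
  · intro x hx
    exact (Finsupp.add_apply _ _ _).trans
      ((congrArg₂ (· + ·) (hc.2 x hx) (hd.2 x hx)).trans (add_zero _))

/-- The intersection of an integral closed subvariety `W` of `Z` with a chart `Spec S` which
contains its generic point. -/
theorem exists_chart {Z W : Var k} [AlgebraicGeometry.IsIntegral W.X] (a : ClosedIn W Z)
    {L : Type} [Field L] (g : Spec (CommRingCat.of L) ⟶ W.X) (e : W.X.functionField ⟶ CommRingCat.of L)
    (he : Ev g e) {S : Type} [CommRing S] [Algebra k S] [Algebra.FiniteType k S]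
    (j : OpenIn (aff k S) Z) (σ : S →+* L)
    (hσ : sp k σ ≫ j.g = g ≫ a.g) :
    ∃ (q : PrimeSpectrum S) (h : (aff k (S ⧸ q.asIdeal)).X ⟶ W.X) (_ : IsOpenImmersion h)
      (e' : (aff k (S ⧸ q.asIdeal)).X.functionField ⟶ CommRingCat.of L),
      q.asIdeal = RingHom.ker σ ∧ h ≫ a.g = (cq (k := k) q.asIdeal).g ≫ j.g ∧
      (∀ w, a.g w ∈ Set.range j.g → w ∈ Set.range h) ∧ funMap h ≫ e' = e ∧
      ∀ b : S, e'.hom (fnA k (Ideal.Quotient.mk q.asIdeal b)) = σ b := by
  have ha := a.closed
  have hj := j.isOpen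
  have hcomm : pullback.fst a.g j.g ≫ a.g = pullback.snd a.g j.g ≫ j.g := pullback.condition
  let W' : Var k := interVar a j
  have hb : IsClosedImmersion (pullback.snd a.g j.g) := inferInstance
  let b : ClosedIn W' (aff k S) := ⟨pullback.snd a.g j.g, rfl, hb⟩
  let h₀ : W'.X ⟶ W.X := pullback.fst a.g j.g
  have hh₀ : IsOpenImmersion h₀ := inferInstanceAs (IsOpenImmersion (pullback.fst a.g j.g))
  have hr : ∀ w, a.g w ∈ Set.range j.g → w ∈ Set.range h₀ := by
    intro w hw
    have h4 := Scheme.Pullback.range_fst a.g j.g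
    rw [show Set.range h₀ = Set.range (pullback.fst a.g j.g) from rfl, h4]
    exact hw
  let g₀ : Spec (CommRingCat.of L) ⟶ W'.X := pullback.lift g (sp k σ) hσ.symm
  have hg₀ : g₀ ≫ h₀ = g := pullback.lift_fst _ _ _
  have hg₁ : g₀ ≫ b.g = Spec.map (CommRingCat.ofHom σ) := pullback.lift_snd _ _ _
  have hne : Nonempty W'.X := ⟨g₀ (pt L)⟩
  have hint : AlgebraicGeometry.IsIntegral W'.X := isIntegral_of_isOpenImmersion h₀
  obtain ⟨I, ε, hε⟩ := (IsClosedImmersion.Spec_iff (R := CommRingCat.of S) (f := b.g)).mp b.closed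
  have hne2 : Nonempty (Spec (CommRingCat.of (S ⧸ I))) := ⟨ε.hom (genericPoint W'.X)⟩
  have hint2 : AlgebraicGeometry.IsIntegral (Spec (CommRingCat.of (S ⧸ I))) :=
    isIntegral_of_isOpenImmersion ε.inv
  have hdom : IsDomain (S ⧸ I) := (affine_isIntegral_iff (CommRingCat.of (S ⧸ I))).mp hint2
  have hI : I.IsPrime := (Ideal.Quotient.isDomain_iff_prime I).mp hdom
  let q : PrimeSpectrum S := ⟨I, hI⟩
  let h : (aff k (S ⧸ I)).X ⟶ W.X := ε.inv ≫ h₀
  have hh : IsOpenImmersion h := inferInstanceAs (IsOpenImmersion (ε.inv ≫ h₀))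
  have hinv : ε.inv ≫ b.g = (cq (k := k) I).g := (Iso.inv_comp_eq ε).mpr hε
  let g' : Spec (CommRingCat.of L) ⟶ (aff k (S ⧸ I)).X := g₀ ≫ ε.hom
  have hg' : g' ≫ h = g := by
    change (g₀ ≫ ε.hom) ≫ ε.inv ≫ h₀ = g
    rw [Category.assoc, ε.hom_inv_id_assoc, hg₀]
  have hg2 : g' ≫ (cq (k := k) I).g = Spec.map (CommRingCat.ofHom σ) := by
    rw [← hinv]
    change (g₀ ≫ ε.hom) ≫ ε.inv ≫ b.g = _
    rw [Category.assoc, ε.hom_inv_id_assoc, hg₁]
  have hgen : g' (pt L) = genericPoint (aff k (S ⧸ I)).X := by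
    apply h.isOpenEmbedding.injective
    rw [genericPoint_eq_of_isOpenImmersion h, ← Scheme.Hom.comp_apply, hg']
    exact ev_pt he _
  obtain ⟨e', he'⟩ := exists_ev g' hgen
  have he2 : funMap h ≫ e' = e := by
    apply ev_unique (g := g) _ he
    rw [← hg']
    exact ev_comp h he'
  -- the homomorphism `S / I → L`
  obtain ⟨σ', hσ'⟩ : ∃ σ' : CommRingCat.of (S ⧸ I) ⟶ CommRingCat.of L, Spec.map σ' = g' :=
    ⟨Spec.preimage g', Spec.map_preimage g'⟩
  have hσ2 : ∀ x : S, σ'.hom (Ideal.Quotient.mk I x) = σ x := by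
    intro x
    have h1 : CommRingCat.ofHom (Ideal.Quotient.mk I) ≫ σ' = CommRingCat.ofHom σ := by
      apply Spec.map_injective
      rw [Spec.map_comp, hσ']
      exact hg2
    exact congrArg (fun f => f.hom x) h1
  have hev : ∀ x : S, e'.hom (fnA k (Ideal.Quotient.mk I x)) = σ x := by
    intro x
    rw [← hσ2]
    exact ev_fnA σ'.hom hσ' he' _
  have hker : I = RingHom.ker σ := by
    ext x
    rw [RingHom.mem_ker, ← hev]
    have h1 : e'.hom (fnA k (Ideal.Quotient.mk I x)) = 0 ↔ fnA k (Ideal.Quotient.mk I x) = 0 :=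
      map_eq_zero_iff _ e'.hom.injective
    rw [h1]
    constructor
    · intro hx
      rw [Ideal.Quotient.eq_zero_iff_mem.mpr hx]
      exact fn_zero
    · intro hx
      by_contra hx2
      exact fnA_ne_zero (k := k) (fun h0 => hx2 (Ideal.Quotient.eq_zero_iff_mem.mp h0)) hx
  refine ⟨q, h, hh, e', hker, ?_, ?_, he2, hev⟩
  · have e1 : (ε.inv ≫ h₀) ≫ a.g = (ε.inv ≫ b.g) ≫ j.g := by
      rw [Category.assoc, Category.assoc]
      exact congrArg (ε.inv ≫ ·) hcomm
    exact e1.trans (congrArg (· ≫ j.g) hinv)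
  · intro w hw
    obtain ⟨w', rfl⟩ := hr w hw
    refine ⟨ε.hom w', ?_⟩
    change (ε.inv ≫ h₀) (ε.hom w') = h₀ w'
    rw [← Scheme.Hom.comp_apply, ε.hom_inv_id_assoc]

section

variable {Z W : Var k} [AlgebraicGeometry.IsIntegral W.X] (a : ClosedIn W Z)
  {L : Type} [Field L] (g : Spec (CommRingCat.of L) ⟶ W.X)
  (e : W.X.functionField ⟶ CommRingCat.of L) (he : Ev g e) {S : Type} [CommRing S] [Algebra k S]
  [Algebra.FiniteType k S] (j : OpenIn (aff k S) Z) (σ : S →+* L)
  (hσ : sp k σ ≫ j.g = g ≫ a.g)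

include he hσ

/-- The dimension of the prime ideal defined by `W` in the chart. -/
theorem chart_dim (q : PrimeSpectrum S) (hq : q.asIdeal = RingHom.ker σ) :
    rdim k q = W.dim (genericPoint W.X) := by
  obtain ⟨q', h, hh, e', hq', h1, h2, h3, h4⟩ := exists_chart a g e he j σ hσ
  obtain rfl : q = q' := PrimeSpectrum.ext (hq.trans hq'.symm)
  have hj := j.isOpen
  have hc : IsClosedImmersion (cq (k := k) q.asIdeal).g := (cq q.asIdeal).closed
  have e1 : h (genericPoint (aff k (S ⧸ q.asIdeal)).X) = genericPoint W.X :=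
    genericPoint_eq_of_isOpenImmersion h
  have e2 : h ≫ W.f = (aff k (S ⧸ q.asIdeal)).f := by
    rw [← a.comm, ← Category.assoc, h1, Category.assoc, j.comm, (cq q.asIdeal).comm]
  rw [← e1, dim_map h e2, dim_generic_aff]
  rfl

/-- Every element of the function field of `W` is a quotient of functions in the chart. -/
theorem chart_frac (x : W.X.functionField) : ∃ A B : S, σ B ≠ 0 ∧ e.hom x * σ B = σ A := by
  obtain ⟨q, h, hh, e', hq, h1, h2, h3, h4⟩ := exists_chart a g e he j σ hσ
  by_cases hx : x = 0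
  · refine ⟨0, 1, ?_, ?_⟩
    · rw [map_one]
      exact one_ne_zero
    · rw [hx, map_zero, map_zero, zero_mul]
  have hψ : funMap h x ≠ 0 := by
    intro h0
    exact hx ((map_eq_zero_iff _ (funMap h).hom.injective).mp h0)
  obtain ⟨α, β, hα, hβ, hαβ⟩ := exists_fnA (k := k) (D := S ⧸ q.asIdeal) (funMap h x) hψ
  obtain ⟨α, rfl⟩ := Ideal.Quotient.mk_surjective α
  obtain ⟨β, rfl⟩ := Ideal.Quotient.mk_surjective β
  refine ⟨α, β, ?_, ?_⟩
  · intro h0
    apply hβ
    rw [Ideal.Quotient.eq_zero_iff_mem, hq]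
    exact h0
  · have h5 := congrArg e'.hom hαβ
    rw [map_mul, h4, h4] at h5
    rw [← h5, ← h3]
    rfl

/-- The functions in the chart are elements of the function field of `W`. -/
theorem chart_mem (A : S) : ∃ x : W.X.functionField, e.hom x = σ A := by
  obtain ⟨q, h, hh, e', hq, h1, h2, h3, h4⟩ := exists_chart a g e he j σ hσ
  refine ⟨inv (funMap h) (fnA k (Ideal.Quotient.mk q.asIdeal A)), ?_⟩
  rw [← h4, ← h3]
  change e'.hom (funMap h (inv (funMap h) _)) = _
  congr 1
  rw [← ConcreteCategory.comp_apply, IsIso.inv_hom_id]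
  rfl

/-- The divisor of a rational function on `W` in a chart. -/
theorem chart_div (φ : W.X.functionField) (hφ : φ ≠ 0) (c : Pts n Z →₀ E) (hc : IsDiv a φ c)
    (q : RP k S (n + 1)) (hq : q.1.asIdeal = RingHom.ker σ) (A B : S) (hA : σ A ≠ 0)
    (hB : σ B ≠ 0) (hAB : e.hom φ * σ B = σ A) (cA cB : RP k S n →₀ E)
    (hcA : IsDv k E q.1 A cA) (hcB : IsDv k E q.1 B cB) : resCyc j c = cyE E n (cA - cB) := by
  obtain ⟨q', h, hh, e', hq', h1, h2, h3, h4⟩ := exists_chart a g e he j σ hσ
  have hqq : q.1 = q' := PrimeSpectrum.ext (hq.trans hq'.symm)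
  obtain ⟨q, hqd⟩ := q
  change q = q' at hqq
  subst hqq
  have hA' : A ∉ q.asIdeal := by rw [hq]; exact hA
  have hB' : B ∉ q.asIdeal := by rw [hq]; exact hB
  have hA2 : Ideal.Quotient.mk q.asIdeal A ≠ 0 := fun h0 =>
    hA' (Ideal.Quotient.eq_zero_iff_mem.mp h0)
  have hB2 : Ideal.Quotient.mk q.asIdeal B ≠ 0 := fun h0 =>
    hB' (Ideal.Quotient.eq_zero_iff_mem.mp h0)
  have hψ : funMap h φ ≠ 0 := by
    intro h0
    exact hφ ((map_eq_zero_iff _ (funMap h).hom.injective).mp h0)
  have h5 : funMap h φ * fnA k (Ideal.Quotient.mk q.asIdeal B) =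
      fnA k (Ideal.Quotient.mk q.asIdeal A) := by
    apply e'.hom.injective
    rw [map_mul, h4, h4, ← hAB, ← h3]
    rfl
  have h6 : IsDiv (cq (k := k) q.asIdeal) (funMap h φ) (resCyc j c) :=
    isDiv_res a j (cq q.asIdeal) h h1 h2 φ c hc
  have h7 : IsDiv (cq (k := k) q.asIdeal) (fnA k (Ideal.Quotient.mk q.asIdeal B)) (cyE E n cB) :=
    (isDiv_iff q hqd B hB' cB).mpr hcB
  have h8 : IsDiv (cq (k := k) q.asIdeal) (fnA k (Ideal.Quotient.mk q.asIdeal A)) (cyE E n cA) :=
    (isDiv_iff q hqd A hA' cA).mpr hcA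
  have h9 := isDiv_mul (cq (k := k) q.asIdeal) hψ (fnA_ne_zero hB2) h6 h7
  rw [h5] at h9
  have h10 := isDiv_unique _ _ _ _ h9 h8
  rw [map_sub, ← h10, add_sub_cancel_right]

end

/-- The divisor of a rational function on `W` is zero in charts which do not meet `W`. -/
theorem chart_div_zero {Z W : Var k} [AlgebraicGeometry.IsIntegral W.X] (a : ClosedIn W Z)
    (φ : W.X.functionField) (c : Pts n Z →₀ E) (hc : IsDiv a φ c) {U : Var k} (j : OpenIn U Z)
    (h : a.g (genericPoint W.X) ∉ Set.range j.g) : resCyc j c = 0 := by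
  ext u
  rw [resCyc_apply]
  apply hc.2
  rintro ⟨w, hw⟩
  apply h
  have hj := j.isOpen
  have h1 : a.g (genericPoint W.X) ⤳ a.g w := (genericPoint_specializes w).map a.g.continuous
  exact h1.mem_open j.g.opensRange.2 ⟨u.1, hw.symm⟩

end Res

end L4

end CUB


end

section

/-!
# CUB2, L4: the divisor of an element of the residue field of a point, as a cycle on `X`
-/

set_option autoImplicit false

open Polynomial CategoryTheory AlgebraicGeometry Limits

namespace CUB

open Pool.Agent.Lib_helper55.Beil Pool.Agent.Lib_helper66.OneP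

namespace L4

variable {k : Type} [Field k] {E : Type} [Field E] {i : ℕ}

/-- The closure of the image of a field valued point. -/
theorem exists_closure (X : Var k) {L : Type} [Field L] (z : Spec (CommRingCat.of L) ⟶ X.X) :
    ∃ (W : Var k) (_ : AlgebraicGeometry.IsIntegral W.X) (a : ClosedIn W X)
      (g : Spec (CommRingCat.of L) ⟶ W.X) (e : W.X.functionField ⟶ CommRingCat.of L),
      g ≫ a.g = z ∧ Ev g e := by
  have hf2 : QuasiCompact z := by
    have : QuasiCompact (z ≫ X.f) := inferInstance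
    exact QuasiCompact.of_comp z X.f
  have ha : IsClosedImmersion z.imageι := inferInstance
  let W : Var k :=
    { X := z.image
      f := z.imageι ≫ X.f
      sep := inferInstance
      lft := inferInstance
      qc := inferInstance }
  have hW : AlgebraicGeometry.IsIntegral W.X := isIntegral_image z
  let a : ClosedIn W X := ⟨z.imageι, rfl, ha⟩
  let g : Spec (CommRingCat.of L) ⟶ W.X := z.toImage
  have hdom : DenseRange g := IsDominant.denseRange (f := z.toImage)
  have hgen : g (pt L) = genericPoint W.X := by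
    have h1 : IsGenericPoint (g (pt L)) (Set.univ : Set W.X) := by
      have h2 : Set.range g = {g (pt L)} := by
        ext x
        constructor
        · rintro ⟨y, rfl⟩
          rw [Set.mem_singleton_iff]
          congr 1
          exact Subsingleton.elim _ _
        · rintro rfl
          exact ⟨_, rfl⟩
      have h3 := hdom.closure_range
      rw [h2] at h3
      exact h3
    exact h1.eq (genericPoint_spec W.X)
  obtain ⟨e, he⟩ := exists_ev g hgen
  exact ⟨W, hW, a, g, e, z.toImage_imageι, he⟩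

/-- `D` is, in every chart, the divisor of `r`, an element of the residue field of the image `z`
of a field valued point. -/
def IsGl {X : Var k} {L : Type} [Field L] (z : Spec (CommRingCat.of L) ⟶ X.X) (r : L)
    (D : Pts i X →₀ E) : Prop :=
  (∀ (R : Type) [CommRing R] [Algebra k R] [Algebra.FiniteType k R] (j : OpenIn (aff k R) X)
    (ρ : R →+* L), sp k ρ ≫ j.g = z → ∀ (T : RP k R (i + 1)),
    T.1.asIdeal = RingHom.ker ρ → ∀ b c : R, ρ b ≠ 0 → ρ c ≠ 0 → r * ρ c = ρ b →
    ∀ db dc : RP k R i →₀ E, IsDv k E T.1 b db → IsDv k E T.1 c dc →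
      resCyc j D = cyE E i (db - dc)) ∧
  ∀ (R : Type) [CommRing R] [Algebra k R] [Algebra.FiniteType k R] (j : OpenIn (aff k R) X),
    z (pt L) ∉ Set.range j.g → resCyc j D = 0

/-- The residue field of the image of a field valued point, as a subfield, and the global divisors
of its elements. -/
theorem exists_global {X : Var k} {L : Type} [Field L] (z : Spec (CommRingCat.of L) ⟶ X.X)
    (hT : X.dim (z (pt L)) = (i + 1 : ℕ)) :
    ∃ F : Subfield L, (∀ (R : Type) [CommRing R] [Algebra k R] [Algebra.FiniteType k R]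
      (j : OpenIn (aff k R) X) (ρ : R →+* L), sp k ρ ≫ j.g = z →
      Subfield.closure (Set.range ρ) = F ∧
        ∀ T : PrimeSpectrum R, T.asIdeal = RingHom.ker ρ → rdim k T = (i + 1 : ℕ)) ∧
      ∀ r ∈ F, r ≠ 0 → ∃ D ∈ ratZero E i X, IsGl z r D := by
  obtain ⟨W, hW, a, g, e, hga, he⟩ := exists_closure X z
  have ha := a.closed
  have hgen : a.g (genericPoint W.X) = z (pt L) := by
    rw [← hga, Scheme.Hom.comp_apply, ev_pt he]
  have hdim : W.dim (genericPoint W.X) = (i + 1 : ℕ) := by
    rw [← dim_map a.g a.comm, hgen, hT]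
  refine ⟨e.hom.fieldRange, ?_, ?_⟩
  · intro R _ _ _ j ρ hρ
    have hσ : sp k ρ ≫ j.g = g ≫ a.g := by rw [hρ, hga]
    refine ⟨?_, ?_⟩
    · apply le_antisymm
      · rw [Subfield.closure_le]
        rintro _ ⟨x, rfl⟩
        obtain ⟨y, hy⟩ := chart_mem a g e he j ρ hσ x
        exact ⟨y, hy⟩
      · rintro _ ⟨x, rfl⟩
        obtain ⟨A, B, hB, hAB⟩ := chart_frac a g e he j ρ hσ x
        have h1 : e.hom x = ρ A / ρ B := (eq_div_iff hB).mpr hAB
        rw [h1]
        exact div_mem (Subfield.subset_closure ⟨A, rfl⟩) (Subfield.subset_closure ⟨B, rfl⟩)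
    · intro T hT'
      rw [chart_dim a g e he j ρ hσ T hT', hdim]
  · rintro r ⟨φ, rfl⟩ hr
    have hφ : φ ≠ 0 := by
      rintro rfl
      exact hr (map_zero e.hom)
    obtain ⟨D, hD⟩ := exists_div (E := E) (i := i) a φ hφ
    refine ⟨D, Submodule.subset_span ⟨W, hW, a, φ, hdim, hφ, hD⟩, ?_, ?_⟩
    · intro R _ _ _ j ρ hρ T hT' b c hb hc hbc db dc hdb hdc
      have hσ : sp k ρ ≫ j.g = g ≫ a.g := by rw [hρ, hga]
      exact chart_div a g e he j ρ hσ φ hφ D hD T hT' b c hb hc hbc db dc hdb hdc
    · intro R _ _ _ j hj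
      apply chart_div_zero a φ D hD j
      rw [hgen]
      exact hj

end L4

end CUB


end

section

/-!
# LOWD, module FLD: residue fields of a finite homomorphism outside a closed subset
-/

set_option autoImplicit false

namespace LOWD

open CUB

namespace FLD

/-- Elements of the subfield generated by the image of a ring are quotients. -/
lemma exists_frac {A L : Type} [CommRing A] [Field L] (ρ : A →+* L) (x : L)
    (hx : x ∈ Subfield.closure (Set.range ρ)) : ∃ a b : A, ρ b ≠ 0 ∧ x * ρ b = ρ a := by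
  rw [Subfield.mem_closure_iff] at hx
  obtain ⟨y, hy, z, hz, hyz⟩ := hx
  have hcl : Subring.closure (Set.range ρ) = ρ.range := by
    rw [← RingHom.coe_range, Subring.closure_eq]
  rw [hcl] at hy hz
  obtain ⟨b, rfl⟩ := hy
  obtain ⟨c, rfl⟩ := hz
  by_cases hc : ρ c = 0
  · refine ⟨0, 1, by simp, ?_⟩
    rw [hc, div_zero] at hyz
    rw [← hyz]
    simp
  · exact ⟨b, c, hc, by rw [← hyz, div_mul_cancel₀ _ hc]⟩

/-- If the image of `B` is in a finite dimensional subspace then the fraction field is finite. -/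
lemma core {B L : Type} [CommRing B] [Field L] (F : Subfield L) (σ : B →+* L)
    (hfr : ∀ x : L, ∃ b t : B, σ t ≠ 0 ∧ x * σ t = σ b) (M : Finset B)
    (hM : ∀ b : B, σ b ∈ Submodule.span F (σ '' M)) : Module.Finite F L := by
  let S : Subalgebra F L := Algebra.adjoin F (Set.range σ)
  have hS : Subalgebra.toSubmodule S ≤ Submodule.span F (σ '' M) := by
    rw [Algebra.adjoin_eq_span]
    apply Submodule.span_le.mpr
    intro x hx
    have h1 : Submonoid.closure (Set.range σ) ≤ MonoidHom.mrange (σ : B →* L) := by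
      rw [Submonoid.closure_le]
      rintro _ ⟨b, rfl⟩
      exact ⟨b, rfl⟩
    obtain ⟨b, rfl⟩ := h1 hx
    exact hM b
  have hfg : (Subalgebra.toSubmodule S).FG :=
    Submodule.FG.of_le (Submodule.fg_span (M.finite_toSet.image σ)) hS
  have hmem : ∀ b : B, σ b ∈ S := fun b => Algebra.subset_adjoin ⟨b, rfl⟩
  have htop : S = ⊤ := by
    rw [eq_top_iff]
    intro x _
    obtain ⟨b, t, ht, hx⟩ := hfr x
    have h0 : IsIntegral F (σ t) := IsIntegral.of_mem_of_fg S hfg _ (hmem t)
    have h1 : (σ t)⁻¹ ∈ S :=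
      Subalgebra.inv_mem_of_algebraic (A := S) (x := ⟨σ t, hmem t⟩) h0.isAlgebraic
    have h2 : x = σ b * (σ t)⁻¹ := by
      rw [← hx, mul_inv_cancel_right₀ ht]
    rw [h2]
    exact S.mul_mem (hmem b) h1
  rw [htop] at hfg
  exact Module.finite_def.mpr (by simpa using hfg)

end FLD

theorem t_FLD : S_FLD := by
  intro k A B _ _ _ _ _ φ J hJ q hq
  set p := PrimeSpectrum.comap φ.toRingHom q with hp
  obtain ⟨h, hhJ, hhp⟩ := SetLike.not_le_iff_exists.mp hq
  set L := q.asIdeal.ResidueField with hL
  let σ : B →ₐ[k] L := IsScalarTower.toAlgHom k B L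
  have hσ : ∀ b : B, σ b = algebraMap B L b := fun b => rfl
  have hρ : ∀ a : A, rho φ q a = σ (φ a) := fun a => rfl
  have hker : ∀ b : B, σ b = 0 ↔ b ∈ q.asIdeal := fun b =>
    Ideal.algebraMap_residueField_eq_zero
  have hfr : ∀ x : L, ∃ b t : B, σ t ≠ 0 ∧ x * σ t = σ b := by
    intro x
    obtain ⟨⟨b, t⟩, hx⟩ := IsLocalization.surj (nonZeroDivisors (B ⧸ q.asIdeal)) x
    obtain ⟨t, ht⟩ := t
    obtain ⟨b, rfl⟩ := Ideal.Quotient.mk_surjective b
    obtain ⟨t, rfl⟩ := Ideal.Quotient.mk_surjective t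
    refine ⟨b, t, ?_, hx⟩
    rw [Ne, hker, ← Ideal.Quotient.eq_zero_iff_mem]
    exact nonZeroDivisors.ne_zero ht
  have hhL : σ (φ h) ≠ 0 := by
    rw [Ne, hker]
    exact hhp
  let F : Subfield L := Subfield.closure (Set.range (rho φ q))
  have hρF : ∀ a : A, rho φ q a ∈ F := fun a => Subfield.subset_closure ⟨a, rfl⟩
  obtain ⟨M, hM⟩ := hJ h hhJ
  have hfin : Module.Finite F L := by
    refine FLD.core F σ.toRingHom hfr M ?_
    intro b
    obtain ⟨s, c, hc⟩ := hM b
    have h1 : σ (φ h) ^ s * σ b = ∑ m ∈ M, σ (φ (c m)) * σ m := by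
      rw [← map_pow, ← map_mul, hc, map_sum]
      simp only [map_mul]
    have h2 : σ b = ∑ m ∈ M, ((⟨rho φ q (c m), hρF _⟩ : F) * ((⟨rho φ q h, hρF h⟩ : F) ^ s)⁻¹) •
        σ m := by
      have h3 : σ b = (σ (φ h) ^ s)⁻¹ * ∑ m ∈ M, σ (φ (c m)) * σ m := by
        rw [← h1, inv_mul_cancel_left₀ (pow_ne_zero s hhL)]
      rw [h3, Finset.mul_sum]
      refine Finset.sum_congr rfl fun m _ => ?_
      rw [Subfield.smul_def, smul_eq_mul]
      push_cast
      rw [hρ, hρ]
      ring
    change σ b ∈ _
    rw [h2]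
    refine Submodule.sum_mem _ fun m hm => Submodule.smul_mem _ _ (Submodule.subset_span ?_)
    exact ⟨m, hm, rfl⟩
  refine ⟨hfin, ?_, ?_, fun x hx => CUB.GTD.exists_nm (rho φ q) x hx⟩
  · exact (Module.finrank_pos (R := F) (M := L)).ne'
  · let ρF : A →+* F := (rho φ q).codRestrict F hρF
    let algF : Algebra k F := (ρF.comp (algebraMap k A)).toAlgebra
    have hst : IsScalarTower k F L := IsScalarTower.of_algebraMap_eq (by
      intro r
      change algebraMap k L r = σ (φ (algebraMap k A r))
      rw [AlgHom.commutes, AlgHom.commutes])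
    let ρk : A →ₐ[k] F := { ρF with commutes' := fun r => rfl }
    have h1 : rdim k p = Algebra.trdeg k F := by
      refine CUB.INFD.quot ρk p ?_ ?_
      · ext a
        have h2 : ρk a = 0 ↔ σ (φ a) = 0 := by
          rw [← hρ]
          exact Subtype.ext_iff
        rw [RingHom.mem_ker]
        change ρk a = 0 ↔ φ a ∈ q.asIdeal
        rw [h2, hker]
      · intro x
        obtain ⟨a, b, hb, hx⟩ := FLD.exists_frac (rho φ q) x.1 x.2
        refine ⟨a, b, ?_, Subtype.ext hx⟩
        intro h0
        exact hb (congrArg Subtype.val h0)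
    have h2 : rdim k q = Algebra.trdeg k L := by
      refine CUB.INFD.quot σ q ?_ hfr
      ext b
      rw [RingHom.mem_ker]
      exact hker b
    have : FaithfulSMul k F := (faithfulSMul_iff_algebraMap_injective k F).mpr
      (algebraMap k F).injective
    have : Algebra.IsAlgebraic F L := Algebra.IsAlgebraic.of_finite F L
    have h3 := _root_.trdeg_add_eq k F (A := L)
    rw [_root_.trdeg_eq_zero (R := F) (A := L), add_zero] at h3
    rw [h1, h2, h3]

end LOWD


end

section

/-!
# LOWD: module PTQ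
-/

set_option autoImplicit false

open CUB

namespace LOWD

namespace PTQ

theorem aeval_scale {A σ K : Type} [CommRing A] [Field K] [Algebra A K]
    (F : MvPolynomial σ A) {e : ℕ} (hF : F.IsHomogeneous e) (w : σ → K) (c : K) :
    MvPolynomial.aeval (fun j => c * w j) F = c ^ e * MvPolynomial.aeval w F := by
  rw [MvPolynomial.aeval_def, MvPolynomial.aeval_def, MvPolynomial.eval₂_eq,
    MvPolynomial.eval₂_eq, Finset.mul_sum]
  refine Finset.sum_congr rfl fun m hm => ?_
  have h1 : m.degree = e := by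
    have := hF (MvPolynomial.mem_support_iff.mp hm)
    rw [Finsupp.degree_eq_weight_one]
    exact this
  have h2 : ∏ i ∈ m.support, (c * w i) ^ m i = c ^ e * ∏ i ∈ m.support, w i ^ m i := by
    rw [← h1, Finsupp.degree_apply, ← Finset.prod_pow_eq_pow_sum, ← Finset.prod_mul_distrib]
    refine Finset.prod_congr rfl fun i _ => ?_
    rw [mul_pow]
  rw [h2]
  ring

theorem trdeg_eq (k A : Type) [Field k] [CommRing A] [Algebra k A] (p : PrimeSpectrum A) :
    Algebra.trdeg k (AlgebraicClosure p.asIdeal.ResidueField) = rdim k p := by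
  unfold rdim
  have := p.isPrime
  have h1 : Algebra.IsAlgebraic (A ⧸ p.asIdeal) p.asIdeal.ResidueField := inferInstance
  have h2 : Algebra.IsAlgebraic (A ⧸ p.asIdeal) (AlgebraicClosure p.asIdeal.ResidueField) :=
    Algebra.IsAlgebraic.trans (A ⧸ p.asIdeal) p.asIdeal.ResidueField _
  have h3 : FaithfulSMul (A ⧸ p.asIdeal) (AlgebraicClosure p.asIdeal.ResidueField) := by
    rw [faithfulSMul_iff_algebraMap_injective, IsScalarTower.algebraMap_eq (A ⧸ p.asIdeal)
      p.asIdeal.ResidueField]
    exact (algebraMap p.asIdeal.ResidueField _).injective.comp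
      (IsFractionRing.injective (A ⧸ p.asIdeal) p.asIdeal.ResidueField)
  have h4 := trdeg_add_eq k (A ⧸ p.asIdeal) (A := AlgebraicClosure p.asIdeal.ResidueField)
  rw [trdeg_eq_zero_iff.2 h2, add_zero] at h4
  exact h4.symm

end PTQ

open _root_.LOWD.PTQ

theorem t_PTQ : S_PTQ := by
  classical
  intro k A σ κ _ _ _ G e hG S a ha n p hsol hnot
  obtain ⟨w, hw0, hwS, hwG⟩ := hsol
  have hwa : w a ≠ 0 := by
    intro h
    refine hnot ⟨w, hw0, fun j hj => ?_, hwG⟩
    by_cases hja : j = a
    · rw [hja, h]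
    · exact hwS j fun h' => by
        rcases Set.mem_insert_iff.mp h' with h1 | h1
        · exact hja h1
        · exact hj h1
  let w' : σ → AlgebraicClosure p.1.asIdeal.ResidueField := fun j => (w a)⁻¹ * w j
  have hw'a : w' a = 1 := inv_mul_cancel₀ hwa
  have hw'S : ∀ j, j ∉ S → j ≠ a → w' j = 0 := by
    intro j hj hja
    show (w a)⁻¹ * w j = 0
    rw [hwS j fun h' => (Set.mem_insert_iff.mp h').elim hja hj, mul_zero]
  have hw'G : ∀ i, MvPolynomial.aeval w' (G i) = 0 := by
    intro i
    rw [aeval_scale (G i) (hG i) w (w a)⁻¹, hwG i, mul_zero]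
  have hle : ∀ x ∈ relB G S a, (MvPolynomial.aeval w' : MvPolynomial σ A →ₐ[A] _) x = 0 := by
    intro x hx
    have h1 : relB G S a ≤ RingHom.ker (MvPolynomial.aeval w' :
        MvPolynomial σ A →ₐ[A] AlgebraicClosure p.1.asIdeal.ResidueField) := by
      refine Ideal.span_le.mpr ?_
      rintro y (hy | hy | hy)
      · rw [Set.mem_singleton_iff] at hy
        rw [hy, SetLike.mem_coe, RingHom.mem_ker, map_sub, MvPolynomial.aeval_X, hw'a, map_one,
          sub_self]
      · obtain ⟨j, ⟨hj, hja⟩, rfl⟩ := hy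
        rw [SetLike.mem_coe, RingHom.mem_ker, MvPolynomial.aeval_X]
        exact hw'S j hj hja
      · obtain ⟨i, rfl⟩ := hy
        rw [SetLike.mem_coe, RingHom.mem_ker]
        exact hw'G i
    exact RingHom.mem_ker.mp (h1 hx)
  let ψ : BR G S a →ₐ[A] AlgebraicClosure p.1.asIdeal.ResidueField :=
    Ideal.Quotient.liftₐ (relB G S a) (MvPolynomial.aeval w') hle
  let ψk : BR G S a →ₐ[k] AlgebraicClosure p.1.asIdeal.ResidueField := ψ.restrictScalars k
  let q : PrimeSpectrum (BR G S a) := ⟨RingHom.ker ψk, RingHom.ker_isPrime ψk⟩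
  have hcomap : PrimeSpectrum.comap (BRh k G S a).toRingHom q = p.1 := by
    apply PrimeSpectrum.ext
    ext x
    show BRh k G S a x ∈ RingHom.ker ψk ↔ x ∈ p.1.asIdeal
    rw [RingHom.mem_ker]
    have h1 : ψk (BRh k G S a x) = algebraMap A (AlgebraicClosure p.1.asIdeal.ResidueField) x :=
      ψ.commutes x
    rw [h1, IsScalarTower.algebraMap_apply A p.1.asIdeal.ResidueField, map_eq_zero]
    exact Ideal.algebraMap_residueField_eq_zero
  have hd : rdim k q = n := by
    refine le_antisymm ?_ ?_
    · have h1 : rdim k q ≤ Algebra.trdeg k (AlgebraicClosure p.1.asIdeal.ResidueField) :=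
        trdeg_le_of_injective (Ideal.kerLiftAlg ψk) (Ideal.kerLiftAlg_injective ψk)
      rw [trdeg_eq, p.2] at h1
      exact h1
    · rw [← p.2, ← hcomap]
      have H : (PrimeSpectrum.comap (BRh k G S a).toRingHom q).asIdeal ≤
        q.asIdeal.comap (BRh k G S a) := le_refl _
      have h1 : Function.Injective (Ideal.quotientMapₐ q.asIdeal (BRh k G S a) H) :=
        Ideal.quotientMap_injective' (H := H) (le_refl _)
      exact trdeg_le_of_injective (Ideal.quotientMapₐ q.asIdeal (BRh k G S a) H) h1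
  exact ⟨⟨q, hd⟩, hcomap⟩

end LOWD


end
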