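import Mathlib
import Pool.Agent.QVM.C05
import Pool.Agent.QVM.C08

/-! Parts: CUB.A_LENC, CUB.C_CHIV, CUB.C_ST0 -/

section

/-!
# CUB, module LENC: lengths in dimension one
-/

set_option autoImplicit false
set_option linter.unusedSectionVars false

namespace CUB

namespace LENC

/-- the length of `A_p / I A_p` -/
noncomputable def lenE {A : Type} [CommRing A] (I : Ideal A) (p : PrimeSpectrum A) : ℕ∞ :=
  Module.length (Localization.AtPrime p.asIdeal) (Localization.AtPrime p.asIdeal ⧸
    I.map (algebraMap A (Localization.AtPrime p.asIdeal)))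

theorem len_eq {A : Type} [CommRing A] (I : Ideal A) (p : PrimeSpectrum A) :
    len I p = (lenE I p).toNat := rfl

/-- the length as an order of vanishing -/
theorem lenE_eq {A : Type} [CommRing A] (q : Ideal A) (a : A) (p : PrimeSpectrum A) :
    lenE (q ⊔ Ideal.span {a}) p =
      Ring.ord (Localization.AtPrime p.asIdeal ⧸
        q.map (algebraMap A (Localization.AtPrime p.asIdeal)))
        (Ideal.Quotient.mk _ (algebraMap A _ a)) := by
  unfold lenE Ring.ord
  rw [Ideal.map_sup, Ideal.map_span, Set.image_singleton]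
  set S := Localization.AtPrime p.asIdeal with hS
  set J : Ideal S := q.map (algebraMap A S) with hJ
  set b : S := algebraMap A S a with hb
  have e := DoubleQuot.quotQuotEquivQuotSupₐ S J (Ideal.span {b})
  have h1 : (Ideal.span {b}).map (Ideal.Quotient.mkₐ S J) =
      Ideal.span {Ideal.Quotient.mk J b} := by
    rw [Ideal.map_span, Set.image_singleton]
    rfl
  rw [h1] at e
  rw [← e.toLinearEquiv.length_eq]
  exact Module.length_eq_of_surjective (S := S) (R := S ⧸ J) Ideal.Quotient.mk_surjective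

theorem lenE_top {A : Type} [CommRing A] (I : Ideal A) (p : PrimeSpectrum A)
    (h : ¬ I ≤ p.asIdeal) : lenE I p = 0 := by
  obtain ⟨x, hx, hxp⟩ := Set.not_subset.mp h
  have h1 : I.map (algebraMap A (Localization.AtPrime p.asIdeal)) = ⊤ := by
    apply Ideal.eq_top_of_isUnit_mem _ (Ideal.mem_map_of_mem _ hx)
    exact IsLocalization.map_units (Localization.AtPrime p.asIdeal)
      (⟨x, hxp⟩ : p.asIdeal.primeCompl)
  unfold lenE
  rw [h1, Module.length_eq_zero_iff]
  exact Ideal.Quotient.subsingleton_iff.mpr rfl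

theorem lenE_ne {A : Type} [CommRing A] (I : Ideal A) (p : PrimeSpectrum A)
    (h : I ≤ p.asIdeal) : lenE I p ≠ 0 := by
  unfold lenE
  rw [Ne, Module.length_eq_zero_iff, Ideal.Quotient.subsingleton_iff]
  intro h1
  have h2 : I.map (algebraMap A (Localization.AtPrime p.asIdeal)) ≤
      IsLocalRing.maximalIdeal (Localization.AtPrime p.asIdeal) := by
    rw [← Localization.AtPrime.map_eq_maximalIdeal]
    exact Ideal.map_mono h
  rw [h1] at h2
  exact (IsLocalRing.maximalIdeal.isMaximal (Localization.AtPrime p.asIdeal)).ne_top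
    (top_le_iff.mp h2)

/-- maximality of an ideal from the preimage -/
theorem max_of_comap {S C : Type} [CommRing S] [CommRing C] (f : S →+* C)
    (hf : Function.Surjective f) (I : Ideal C) (h : (I.comap f).IsMaximal) : I.IsMaximal := by
  rw [Ideal.isMaximal_def]
  refine ⟨fun h1 => h.ne_top (by rw [h1, Ideal.comap_top]), fun K hK => ?_⟩
  have h2 : I.comap f < K.comap f := by
    refine lt_of_le_of_ne (Ideal.comap_mono hK.le) fun h3 => hK.ne ?_
    exact Ideal.comap_injective_of_surjective f hf h3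
  have h3 := (Ideal.isMaximal_def.mp h).2 _ h2
  exact (Ideal.comap_eq_top_iff).mp h3

/-- the quotient of the local ring has dimension at most one -/
theorem krull_aux {A : Type} [CommRing A] (p q : Ideal A) [p.IsPrime]
    (hbet : ∀ r : Ideal A, r.IsPrime → q ≤ r → q ≠ r → r ≤ p → r = p) :
    Ring.KrullDimLE 1 (Localization.AtPrime p ⧸
      q.map (algebraMap A (Localization.AtPrime p))) := by
  apply Ring.KrullDimLE.mk₁'
  intro I hI hIp
  apply max_of_comap (Ideal.Quotient.mk _) Ideal.Quotient.mk_surjective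
  have hQp : (I.comap (Ideal.Quotient.mk _)).IsPrime := Ideal.comap_isPrime _ _
  have hJQ : q.map (algebraMap A (Localization.AtPrime p)) ≤ I.comap (Ideal.Quotient.mk _) := by
    intro x hx
    rw [Ideal.mem_comap, Ideal.Quotient.eq_zero_iff_mem.mpr hx]
    exact I.zero_mem
  have hne : q.map (algebraMap A (Localization.AtPrime p)) ≠ I.comap (Ideal.Quotient.mk _) := by
    intro h3
    apply hI
    rw [eq_bot_iff]
    intro x hx
    obtain ⟨y, rfl⟩ := Ideal.Quotient.mk_surjective x
    have h4 : y ∈ I.comap (Ideal.Quotient.mk _) := hx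
    rw [← h3] at h4
    rw [Ideal.mem_bot, Ideal.Quotient.eq_zero_iff_mem]
    exact h4
  generalize I.comap (Ideal.Quotient.mk _) = Q at hQp hJQ hne
  have hmap : (Q.comap (algebraMap A (Localization.AtPrime p))).map
      (algebraMap A (Localization.AtPrime p)) = Q :=
    IsLocalization.map_under p.primeCompl (Localization.AtPrime p) Q
  have h5 : Q.comap (algebraMap A (Localization.AtPrime p)) = p := by
    apply hbet
    · exact Ideal.comap_isPrime _ _
    · exact Ideal.map_le_iff_le_comap.mp hJQ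
    · intro h2
      apply hne
      rw [h2, hmap]
    · have h2 : Q ≤ IsLocalRing.maximalIdeal (Localization.AtPrime p) :=
        IsLocalRing.le_maximalIdeal hQp.ne_top
      intro x hx
      have h3 := h2 hx
      by_contra hxp
      have h4 : IsUnit (algebraMap A (Localization.AtPrime p) x) :=
        IsLocalization.map_units (Localization.AtPrime p) (⟨x, hxp⟩ : p.primeCompl)
      exact (IsLocalRing.mem_maximalIdeal _).mp h3 h4
  rw [← hmap, h5, Localization.AtPrime.map_eq_maximalIdeal]
  exact IsLocalRing.maximalIdeal.isMaximal _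

section Dim

variable {k A : Type} [Field k] [CommRing A] [Algebra k A] [Algebra.FiniteType k A]

/-- there is no prime strictly between -/
theorem between (h1 : S_DIM1) {n : ℕ} (q : RP k A (n + 1)) (p : RP k A n)
    (r : PrimeSpectrum A) (hq : q.1 < r) (hr : r ≤ p.1) : r = p.1 := by
  rcases hr.eq_or_lt with h | h
  · exact h
  exfalso
  obtain ⟨⟨m, hm⟩, h2⟩ := h1 k A r
  have h3 := h2 p.1 h
  have h4 := (h1 k A q.1).2 r hq
  rw [hm, p.2] at h3
  rw [hm, q.2] at h4
  have h5 : n < m := by exact_mod_cast h3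
  have h6 : m < n + 1 := by exact_mod_cast h4
  omega

theorem disj {n : ℕ} (q : RP k A (n + 1)) (p : RP k A n)
    (hqp : q.1.asIdeal ≤ p.1.asIdeal) :
    Disjoint (p.1.asIdeal.primeCompl : Set A) q.1.asIdeal := by
  rw [Set.disjoint_left]
  intro x hx hx'
  exact hx (hqp hx')

theorem prime_map {n : ℕ} (q : RP k A (n + 1)) (p : RP k A n)
    (hqp : q.1.asIdeal ≤ p.1.asIdeal) :
    (q.1.asIdeal.map (algebraMap A (Localization.AtPrime p.1.asIdeal))).IsPrime :=
  IsLocalization.isPrime_of_isPrime_disjoint p.1.asIdeal.primeCompl _ _ q.1.isPrime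
    (disj q p hqp)

theorem mk_ne {n : ℕ} (q : RP k A (n + 1)) (p : RP k A n)
    (hqp : q.1.asIdeal ≤ p.1.asIdeal) {a : A} (ha : a ∉ q.1.asIdeal) :
    (Ideal.Quotient.mk (q.1.asIdeal.map (algebraMap A (Localization.AtPrime p.1.asIdeal)))
      (algebraMap A _ a)) ≠ 0 := by
  rw [Ne, Ideal.Quotient.eq_zero_iff_mem]
  intro h
  apply ha
  have h2 := IsLocalization.under_map_of_isPrime_disjoint p.1.asIdeal.primeCompl
    (Localization.AtPrime p.1.asIdeal) q.1.isPrime (disj q p hqp)
  rw [← h2]
  exact h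

theorem krull (h1 : S_DIM1) {n : ℕ} (q : RP k A (n + 1)) (p : RP k A n)
    (hqp : q.1.asIdeal ≤ p.1.asIdeal) :
    Ring.KrullDimLE 1 (Localization.AtPrime p.1.asIdeal ⧸
      q.1.asIdeal.map (algebraMap A (Localization.AtPrime p.1.asIdeal))) := by
  apply krull_aux
  intro r hr h2 h3 h4
  have h5 := between h1 q p ⟨r, hr⟩ (lt_of_le_of_ne h2 fun h => h3 (congrArg _ h)) h4
  exact congrArg PrimeSpectrum.asIdeal h5

theorem lenE_fin (h1 : S_DIM1) {n : ℕ} (q : RP k A (n + 1)) (p : RP k A n)
    (hqp : q.1.asIdeal ≤ p.1.asIdeal) {a : A} (ha : a ∉ q.1.asIdeal) :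
    lenE (q.1.asIdeal ⊔ Ideal.span {a}) p.1 ≠ ⊤ := by
  have hp := prime_map q p hqp
  have hN : IsNoetherianRing A := Algebra.FiniteType.isNoetherianRing k A
  have hS : IsNoetherianRing (Localization.AtPrime p.1.asIdeal) :=
    IsLocalization.isNoetherianRing p.1.asIdeal.primeCompl _ hN
  have hK := krull h1 q p hqp
  rw [lenE_eq]
  exact Ring.ord_ne_top (mem_nonZeroDivisors_of_ne_zero (mk_ne q p hqp ha))

theorem lenE_mul {n : ℕ} (q : RP k A (n + 1)) (p : RP k A n)
    (hqp : q.1.asIdeal ≤ p.1.asIdeal) {a b : A} (ha : a ∉ q.1.asIdeal) :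
    lenE (q.1.asIdeal ⊔ Ideal.span {a * b}) p.1 =
      lenE (q.1.asIdeal ⊔ Ideal.span {a}) p.1 + lenE (q.1.asIdeal ⊔ Ideal.span {b}) p.1 := by
  have hp := prime_map q p hqp
  rw [lenE_eq, lenE_eq, lenE_eq, map_mul, map_mul]
  exact Ring.ord_mul' _ (mem_nonZeroDivisors_of_ne_zero (mk_ne q p hqp ha))

end Dim

end LENC

open _root_.CUB.LENC in
theorem t_LENC : M_LENC := by
  intro h1 k A _ _ _ _ n q p
  have key : ∀ a : A, ¬ (q.1.asIdeal ≤ p.1.asIdeal ∧ a ∈ p.1.asIdeal) →
      len (q.1.asIdeal ⊔ Ideal.span {a}) p.1 = 0 := by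
    intro a h
    rw [len_eq, lenE_top, ENat.toNat_zero]
    intro h2
    apply h
    refine ⟨le_sup_left.trans h2, h2 (Ideal.mem_sup_right (Ideal.mem_span_singleton_self a))⟩
  refine ⟨?_, ?_, ?_, ?_⟩
  · intro a b ha hb
    by_cases hqp : q.1.asIdeal ≤ p.1.asIdeal
    · rw [len_eq, len_eq, len_eq, lenE_mul q p hqp ha,
        ENat.toNat_add (lenE_fin h1 q p hqp ha) (lenE_fin h1 q p hqp hb)]
    · rw [key _ fun h => hqp h.1, key _ fun h => hqp h.1, key _ fun h => hqp h.1]
  · intro a h
    by_contra h2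
    exact h (key a h2)
  · intro a ha hqp hap
    rw [len_eq, Ne, ENat.toNat_eq_zero, not_or]
    refine ⟨lenE_ne _ _ ?_, lenE_fin h1 q p hqp ha⟩
    rw [sup_le_iff, Ideal.span_singleton_le_iff_mem]
    exact ⟨hqp, hap⟩
  · intro a ha
    exact key a fun h => ha h.2

end CUB


end

section

/-!
# CUB, module CHIV: the chart and a point outside `f = 0`
-/

set_option autoImplicit false

open Polynomial

namespace CUB

namespace CHIV

variable {k R : Type} [Field k] [CommRing R] [Algebra k R] {G f : R}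

/-- every polynomial is in the image of the chart after multiplication by a power of `f` -/
lemma exists_lift (v : R) (hv : v ^ 2 - v = G) (g : R[X]) :
    ∃ (N : ℕ) (g' : YY G f), chi (k := k) (f := f) v hv g' = C f ^ N * g := by
  have hC : ∀ r : R, chi (k := k) (f := f) v hv (algebraMap R[X] (YY G f) (C r)) = C r := by
    intro r
    rw [chi_algebraMap, evs_C, CC_apply]
  induction g using Polynomial.induction_on with
  | C a => exact ⟨0, algebraMap R[X] (YY G f) (C a), by rw [hC, pow_zero, one_mul]⟩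
  | add p q hp hq =>
    obtain ⟨N, g₁, h1⟩ := hp
    obtain ⟨M, g₂, h2⟩ := hq
    refine ⟨N + M, algebraMap R[X] (YY G f) (C f) ^ M * g₁ +
      algebraMap R[X] (YY G f) (C f) ^ N * g₂, ?_⟩
    rw [map_add, map_mul, map_mul, map_pow, map_pow, hC, h1, h2]
    ring
  | monomial n a h =>
    obtain ⟨N, g₁, h1⟩ := h
    refine ⟨N + 1, g₁ * (yy (C G + X * C f) - algebraMap R[X] (YY G f) (C v)), ?_⟩
    rw [map_mul, map_sub, hC, chi_yy, h1]
    ring

end CHIV

open _root_.CUB.CHIV

theorem t_CHIV : S_CHIV := by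
  intro k R K _ _ _ _ _ G f v hv κ θ hθ hf
  have hx : (κ (yy (C G + X * C f))) ^ 2 - κ (yy (C G + X * C f)) =
      θ G + κ (algebraMap R[X] (YY G f) X) * θ f := by
    have h1 := yy_eq (C G + X * C f : R[X])
    have h2 := congrArg κ h1
    rw [map_sub, map_sub, map_pow, map_zero, map_add (algebraMap R[X] (YY G f)),
      map_mul (algebraMap R[X] (YY G f)), map_add κ, map_mul κ, ← hθ, ← hθ] at h2
    exact sub_eq_zero.mp h2
  have hG : θ G = θ v ^ 2 - θ v := by rw [← hv, map_sub, map_pow]
  generalize hs : (κ (yy (C G + X * C f)) - θ v) / θ f = s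
  have hsf : s * θ f = κ (yy (C G + X * C f)) - θ v := by
    rw [← hs, div_mul_cancel₀ _ hf]
  have key : (evs θ s).comp (chi (k := k) (f := f) v hv) = κ := by
    apply Q_ext
    · intro P
      rw [AlgHom.comp_apply, chi_algebraMap]
      have e1 : ((evs θ s).comp (evs (CC k R) (X * (X * C f + C (2 * v - 1))))) =
          evs θ (κ (algebraMap R[X] (YY G f) X)) := by
        apply evs_unique
        · intro r
          rw [AlgHom.comp_apply, evs_C, CC_apply, evs_C]
        · rw [AlgHom.comp_apply, evs_X]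
          simp only [map_mul, map_add, evs_X, evs_C]
          have h3 : θ (2 * v - 1) = 2 * θ v - 1 := by
            rw [map_sub, map_mul, map_one, map_ofNat]
          rw [h3]
          apply mul_right_cancel₀ hf
          rw [hG] at hx
          generalize κ (yy (C G + X * C f)) = Y at *
          generalize κ (algebraMap R[X] (YY G f) X) = x at *
          generalize θ v = V at *
          generalize θ f = F at *
          linear_combination (s * F + Y - V + 2 * V - 1) * hsf + hx
      have e2 : κ.comp (Qbase (k := k) (C G + X * C f)) =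
          evs θ (κ (algebraMap R[X] (YY G f) X)) := by
        apply evs_unique
        · intro r
          exact (hθ r).symm
        · rfl
      have e3 := DFunLike.congr_fun (e1.trans e2.symm) P
      exact e3
    · rw [AlgHom.comp_apply, chi_yy, map_add, map_mul, evs_C, evs_X, evs_C, hsf]
      ring
  refine ⟨key, ?_⟩
  intro P hP hPk
  have hCf : (C f : R[X]) ∉ P := by
    intro h
    have h1 : algebraMap R[X] (YY G f) (C f) ∈
        P.comap (chi (k := k) (f := f) v hv).toRingHom := by
      have h2 : chi (k := k) (f := f) v hv (algebraMap R[X] (YY G f) (C f)) = C f := by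
        rw [chi_algebraMap, evs_C, CC_apply]
      change chi (k := k) (f := f) v hv (algebraMap R[X] (YY G f) (C f)) ∈ P
      rw [h2]
      exact h
    rw [hPk] at h1
    have h3 : κ (algebraMap R[X] (YY G f) (C f)) = 0 := h1
    rw [← hθ] at h3
    exact hf h3
  ext g
  obtain ⟨N, g', h1⟩ := exists_lift (k := k) (f := f) v hv g
  have h2 : g ∈ P ↔ C f ^ N * g ∈ P := by
    constructor
    · intro h
      exact P.mul_mem_left _ h
    · intro h
      rcases hP.mem_or_mem h with h | h
      · exact absurd (hP.mem_of_pow_mem _ h) hCf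
      · exact h
  have h3 : C f ^ N * g ∈ P ↔ g' ∈ RingHom.ker κ.toRingHom := by
    rw [← hPk, ← h1]
    rfl
  have h4 : g' ∈ RingHom.ker κ.toRingHom ↔ κ g' = 0 := Iff.rfl
  have h5 : g ∈ RingHom.ker (evs θ s).toRingHom ↔ evs θ s g = 0 := Iff.rfl
  have h6 : κ g' = θ f ^ N * evs θ s g := by
    have h7 := DFunLike.congr_fun key g'
    rw [AlgHom.comp_apply, h1, map_mul, map_pow, evs_C] at h7
    exact h7.symm
  rw [h2, h3, h4, h5, h6, mul_eq_zero, or_iff_right (pow_ne_zero N hf)]

end CUB


end

section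

/-!
# CUB ST0: anti-invariant cycles of the double cover over a divisor `f = 0`
-/

set_option autoImplicit false

open Polynomial

namespace CUB

namespace ST0

/-- the localisation homomorphism -/
noncomputable abbrev locA (k : Type) {V : Type} [Field k] [CommRing V] [Algebra k V] (b : V) :
    V →ₐ[k] Localization.Away b := IsScalarTower.toAlgHom k V (Localization.Away b)

lemma isLoc (k : Type) {V : Type} [Field k] [CommRing V] [Algebra k V] (b : V) :
    @IsLocalization.Away V _ b (Localization.Away b) _ (locA k b).toRingHom.toAlgebra := by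
  have h : (locA k b).toRingHom.toAlgebra =
      (inferInstance : Algebra V (Localization.Away b)) := Algebra.algebra_ext _ _ (fun r => rfl)
  rw [h]
  infer_instance

lemma ft_loc (k : Type) {V : Type} [Field k] [CommRing V] [Algebra k V] [Algebra.FiniteType k V]
    (b : V) : Algebra.FiniteType k (Localization.Away b) := by
  have h : Algebra.FiniteType V (Localization.Away b) :=
    IsLocalization.finiteType_of_monoid_fg (Submonoid.powers b) (Localization.Away b)
  exact Algebra.FiniteType.trans (S := V) inferInstance h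

/-- the localisation of a surjective homomorphism with principal kernel -/
lemma loc_map {k A A' : Type} [Field k] [CommRing A] [CommRing A'] [Algebra k A] [Algebra k A']
    (q : A →ₐ[k] A') (hq : Function.Surjective q) (a : A) (a' : A') (h : q a = a') (x : A)
    (hker : RingHom.ker q.toRingHom = Ideal.span {x}) :
    ∃ ψ' : Localization.Away a →ₐ[k] Localization.Away a', Function.Surjective ψ' ∧
      RingHom.ker ψ'.toRingHom = Ideal.span {locA k a x} ∧
      ∀ y, ψ' (locA k a y) = locA k a' (q y) := by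
  subst h
  have hM : Submonoid.map q.toRingHom (Submonoid.powers a) = Submonoid.powers (q a) :=
    Submonoid.map_powers _ _
  refine ⟨IsLocalization.Away.mapₐ (Localization.Away a) (Localization.Away (q a)) q a,
    IsLocalization.Away.mapₐ_surjective_of_surjective a hq, ?_, ?_⟩
  · have h1 := IsLocalization.ker_map (S := Localization.Away a) (Localization.Away (q a))
      q.toRingHom hM
    have h2 : Ideal.span {locA k a x} =
        (RingHom.ker q.toRingHom).map (algebraMap A (Localization.Away a)) := by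
      rw [hker, Ideal.map_span, Set.image_singleton]
      rfl
    rw [h2, ← h1]
    rfl
  · intro y
    exact IsLocalization.map_eq (M := Submonoid.powers a) (T := Submonoid.powers (q a))
      (g := q.toRingHom) (by rw [← hM]; exact Submonoid.le_comap_map _) y

end ST0

theorem t_ST0 : M_ST0 := by
  intro hGLO hFPX hKER hWLO hA hB k S S' E _ _ _ _ _ _ _ _ _ G f ψ hψ hker n c hc hpush
  have hfψ : ψ f = 0 := by
    have h1 : f ∈ RingHom.ker ψ.toRingHom := hker ▸ Ideal.mem_span_singleton_self f
    exact h1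
  have hS' : Algebra.FiniteType k S' := Algebra.FiniteType.of_surjective ψ hψ
  have hq : Qmap ψ rfl (2 * yy G - 1) = 2 * yy (ψ G) - 1 := by
    rw [map_sub, map_mul, map_one, Qmap_yy, map_ofNat]
  have hkq : RingHom.ker (Qmap (k := k) (g := G) ψ rfl).toRingHom =
      Ideal.span {algebraMap S (Q S G) f} := by
    rw [hKER.2.1 k S S' G (ψ G) ψ rfl, hker, Ideal.map_span, Set.image_singleton]
  obtain ⟨ψ', hψ', hkψ', hcomm⟩ := ST0.loc_map (Qmap (k := k) (g := G) ψ rfl)
    (Qmap_surjective ψ rfl hψ) (2 * yy G - 1) (2 * yy (ψ G) - 1) hq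
    (algebraMap S (Q S G) f) hkq
  have hT := ST0.ft_loc k (2 * yy G - 1 : Q S G)
  have hT' := ST0.ft_loc k (2 * yy (ψ G) - 1 : Q S' (ψ G))
  obtain ⟨φ', hφ'⟩ : ∃ φ', φ' = ST0.locA k (2 * yy (ψ G) - 1 : Q S' (ψ G)) := ⟨_, rfl⟩
  have hloc' : @IsLocalization.Away (Q S' (ψ G)) _ (2 * yy (ψ G) - 1)
      (Localization.Away (2 * yy (ψ G) - 1 : Q S' (ψ G))) _ φ'.toRingHom.toAlgebra := by
    rw [hφ']
    exact ST0.isLoc k _
  have hv' : (φ' (yy (ψ G))) ^ 2 - φ' (yy (ψ G)) = (φ'.comp (Qbase (ψ G))) (ψ G) := by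
    have h1 := yy_eq (ψ G)
    have h2 : (φ'.comp (Qbase (ψ G))) (ψ G) = φ' (algebraMap S' (Q S' (ψ G)) (ψ G)) := rfl
    rw [h2, ← map_pow, ← map_sub, ← sub_eq_zero, ← map_sub, h1, map_zero]
  have hf' : (φ'.comp (Qbase (ψ G))) (ψ f) = 0 := by rw [hfψ, map_zero]
  have hlocw := hWLO k S' (Localization.Away (2 * yy (ψ G) - 1 : Q S' (ψ G))) (ψ G) (ψ f) hfψ
    φ' (φ'.comp (Qbase (ψ G))) (φ' (yy (ψ G))) hv' hf' hloc' rfl rfl
  have hgood := hGLO k (YY (ψ G) (ψ f))
    (Localization.Away (2 * yy (ψ G) - 1 : Q S' (ψ G)))[X]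
    (shv (φ'.comp (Qbase (ψ G))) hf' (φ' (yy (ψ G))) hv') _ hlocw
  obtain ⟨d, hd⟩ := hFPX k (YY (ψ G) (ψ f))
    (Localization.Away (2 * yy (ψ G) - 1 : Q S' (ψ G)))[X] E 0 n
    (shv (φ'.comp (Qbase (ψ G))) hf' (φ' (yy (ψ G))) hv') hgood c
  have hdr := hA k S S' (Localization.Away (2 * yy G - 1 : Q S G))
    (Localization.Away (2 * yy (ψ G) - 1 : Q S' (ψ G))) E G f ψ hψ hker
    (ST0.locA k (2 * yy G - 1 : Q S G)) φ' ψ' (φ'.comp (Qbase (ψ G))) (φ' (yy (ψ G))) hv' hf'
    (ST0.isLoc k _) hloc' hψ' hkψ' (fun x => by rw [hφ']; exact hcomm x) rfl rfl n c d hc hpush hd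
  exact hB k S'[X] (Localization.Away (2 * yy (ψ G) - 1 : Q S' (ψ G)))[X] E
    (C (ψ G) + X * C (ψ f)) (shv (φ'.comp (Qbase (ψ G))) hf' (φ' (yy (ψ G))) hv') hlocw n c d hc
    hd hdr

end CUB


end
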