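import Mathlib
import Pool.Agent.QVM.C05
import Pool.Agent.QVM.C12
import Pool.Agent.QVM.C18

/-! Parts: CUB.B_TWO, CUB.R_GREC, CUB.R_NM, LOWD.FPD, LOWD.HTM -/

section

/-!
# CUB, module TWO: the split double cover
-/

set_option autoImplicit false

open Polynomial

namespace CUB

namespace TWO

section Push

variable {k A B E : Type} [Field k] [CommRing A] [CommRing B] [Algebra k A] [Algebra k B]
  [Field E]

lemma pushP_inj (φ : A →ₐ[k] B) (hφ : Function.Surjective φ) (n : ℕ) :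
    Function.Injective (pushP (n := n) φ hφ) := by
  intro P P' h
  apply Subtype.ext
  have h1 : PrimeSpectrum.comap φ.toRingHom P.1 = PrimeSpectrum.comap φ.toRingHom P'.1 :=
    congrArg Subtype.val h
  exact PrimeSpectrum.comap_injective_of_surjective φ.toRingHom hφ h1

lemma mem_range_iff (φ : A →ₐ[k] B) (hφ : Function.Surjective φ) (n : ℕ) (p : RP k A n) :
    p ∈ Set.range (pushP (n := n) φ hφ) ↔ RingHom.ker φ.toRingHom ≤ p.1.asIdeal := by
  constructor
  · rintro ⟨P, rfl⟩
    intro x hx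
    change φ x ∈ P.1.asIdeal
    have h : φ x = 0 := hx
    rw [h]
    exact P.1.asIdeal.zero_mem
  · intro h
    have h1 : p.1 ∈ Set.range (PrimeSpectrum.comap φ.toRingHom) := by
      rw [range_comap_of_surjective _ _ hφ]
      exact h
    obtain ⟨P, hP⟩ := h1
    refine ⟨⟨P, ?_⟩, Subtype.ext hP⟩
    rw [← rdim_comap φ hφ P, hP]
    exact p.2

lemma push_apply {n : ℕ} (φ : A →ₐ[k] B) (hφ : Function.Surjective φ) (c : RP k B n →₀ E)
    (P : RP k B n) : push E φ hφ c (pushP φ hφ P) = c P :=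
  Finsupp.mapDomain_apply (pushP_inj φ hφ n) c P

lemma push_zero {n : ℕ} (φ : A →ₐ[k] B) (hφ : Function.Surjective φ) (c : RP k B n →₀ E)
    (p : RP k A n) (hp : ¬ RingHom.ker φ.toRingHom ≤ p.1.asIdeal) : push E φ hφ c p = 0 := by
  apply Finsupp.mapDomain_of_notMem_range
  rw [mem_range_iff]
  exact hp

end Push

section Idem

variable {k T : Type} [Field k] [CommRing T] [Algebra k T] {G : T}

/-- the idempotent of the sheet `y = v`; `u` is the inverse of `2 v - 1` -/
noncomputable def ee (G v u : T) : Q T G :=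
  (yy G - algebraMap T (Q T G) (1 - v)) * algebraMap T (Q T G) u

lemma ee_idem (v u : T) (hv : v ^ 2 - v = G) (hu : (2 * v - 1) * u = 1) :
    IsIdempotentElem (ee G v u) := by
  have h1 := yy_eq G
  have h2 : algebraMap T (Q T G) G = algebraMap T (Q T G) v ^ 2 - algebraMap T (Q T G) v := by
    rw [← map_pow, ← map_sub, hv]
  have h3 : (2 * algebraMap T (Q T G) v - 1) * algebraMap T (Q T G) u = 1 := by
    have h4 := congrArg (algebraMap T (Q T G)) hu
    rw [map_mul, map_sub, map_mul, map_one, map_ofNat] at h4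
    exact h4
  unfold IsIdempotentElem ee
  rw [h2] at h1
  rw [map_sub, map_one]
  generalize algebraMap T (Q T G) v = V at *
  generalize algebraMap T (Q T G) u = U at *
  generalize yy G = Y at *
  linear_combination U ^ 2 * h1 + (Y - (1 - V)) * U * h3

lemma sg_ee (v u : T) (hv : v ^ 2 - v = G) (hu : (2 * v - 1) * u = 1) :
    sg (k := k) v hv (ee G v u) = 1 := by
  unfold ee
  rw [map_mul, map_sub, sg_yy, sg_algebraMap, sg_algebraMap]
  linear_combination hu

lemma ker_sg (v u : T) (hv : v ^ 2 - v = G) (hu : (2 * v - 1) * u = 1) :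
    RingHom.ker (sg (k := k) v hv).toRingHom = Ideal.span {1 - ee G v u} := by
  apply le_antisymm
  · intro x hx
    have hx' : sg (k := k) v hv x = 0 := hx
    obtain ⟨a, b, rfl⟩ := Q_span x
    rw [map_add, map_mul, sg_algebraMap, sg_algebraMap, sg_yy] at hx'
    rw [Ideal.mem_span_singleton]
    refine ⟨algebraMap T (Q T G) a + algebraMap T (Q T G) b * yy G, ?_⟩
    have h1 := yy_eq G
    have h2 : algebraMap T (Q T G) G = algebraMap T (Q T G) v ^ 2 - algebraMap T (Q T G) v := by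
      rw [← map_pow, ← map_sub, hv]
    have h5 : algebraMap T (Q T G) a + algebraMap T (Q T G) b * algebraMap T (Q T G) v = 0 := by
      rw [← map_mul, ← map_add, hx', map_zero]
    rw [h2] at h1
    unfold ee
    rw [map_sub, map_one]
    generalize algebraMap T (Q T G) v = V at *
    generalize algebraMap T (Q T G) u = U at *
    generalize algebraMap T (Q T G) a = A at *
    generalize algebraMap T (Q T G) b = B at *
    generalize yy G = Y at *
    linear_combination (Y - (1 - V)) * U * h5 + B * U * h1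
  · rw [Ideal.span_le]
    intro x hx
    rw [Set.mem_singleton_iff] at hx
    rw [hx]
    have : sg (k := k) v hv (1 - ee G v u) = 0 := by
      rw [map_sub, map_one, sg_ee v u hv hu, sub_self]
    exact this

lemma ee_conj (v u : T) (hv : v ^ 2 - v = G) (hu : (2 * v - 1) * u = 1) :
    ee G (1 - v) (-u) = 1 - ee G v u := by
  have h3 : (2 * algebraMap T (Q T G) v - 1) * algebraMap T (Q T G) u = 1 := by
    have h4 := congrArg (algebraMap T (Q T G)) hu
    rw [map_mul, map_sub, map_mul, map_one, map_ofNat] at h4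
    exact h4
  unfold ee
  simp only [map_sub, map_neg, map_one]
  generalize algebraMap T (Q T G) v = V at *
  generalize algebraMap T (Q T G) u = U at *
  generalize yy G = Y at *
  linear_combination h3

lemma ker_sg' (v u : T) (hv : v ^ 2 - v = G) (hu : (2 * v - 1) * u = 1) :
    RingHom.ker (sg (k := k) (1 - v) (conj_root hv)).toRingHom = Ideal.span {ee G v u} := by
  have hu' : (2 * (1 - v) - 1) * (-u) = 1 := by linear_combination hu
  have h := ker_sg (k := k) (1 - v) (-u) (conj_root hv) hu'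
  rw [ee_conj v u hv hu, sub_sub_cancel] at h
  exact h

lemma good_sg (hG : S_GLO) [Algebra.FiniteType k T] (v u : T) (hv : v ^ 2 - v = G)
    (hu : (2 * v - 1) * u = 1) : Good k 0 (sg (k := k) v hv) := by
  refine hG k (Q T G) T (sg (k := k) v hv) (ee G v u) ?_
  let _ := (sg (k := k) v hv).toRingHom.toAlgebra
  exact IsLocalization.away_of_isIdempotentElem (ee_idem v u hv hu) (ker_sg v u hv hu)
    (sg_surjective v hv)

end Idem

end TWO

open _root_.CUB.TWO

theorem t_TWO : M_TWO := by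
  intro hG k T E _ _ _ _ _ G v hv hunit
  obtain ⟨w, hw⟩ := hunit
  have hu : (2 * v - 1) * ((w⁻¹ : Tˣ) : T) = 1 := by
    rw [← hw]
    exact w.mul_inv
  generalize ((w⁻¹ : Tˣ) : T) = u at hu
  have hu' : (2 * (1 - v) - 1) * (-u) = 1 := by linear_combination hu
  have k0 := ker_sg (k := k) v u hv hu
  have k1 := ker_sg' (k := k) v u hv hu
  -- a prime does not contain both kernels
  have hno : ∀ p : PrimeSpectrum (Q T G), RingHom.ker (sg (k := k) v hv).toRingHom ≤ p.asIdeal →
      ¬ RingHom.ker (sg (k := k) (1 - v) (conj_root hv)).toRingHom ≤ p.asIdeal := by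
    intro p h0 h1
    rw [k0, Ideal.span_singleton_le_iff_mem] at h0
    rw [k1, Ideal.span_singleton_le_iff_mem] at h1
    apply p.2.ne_top
    rw [Ideal.eq_top_iff_one]
    have := p.asIdeal.add_mem h0 h1
    rwa [sub_add_cancel] at this
  have hone : ∀ p : PrimeSpectrum (Q T G),
      RingHom.ker (sg (k := k) v hv).toRingHom ≤ p.asIdeal ∨
      RingHom.ker (sg (k := k) (1 - v) (conj_root hv)).toRingHom ≤ p.asIdeal := by
    intro p
    rw [k0, k1, Ideal.span_singleton_le_iff_mem, Ideal.span_singleton_le_iff_mem]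
    apply p.2.mem_or_mem
    have h := ee_idem v u hv hu
    unfold IsIdempotentElem at h
    have h2 : (1 - ee G v u) * ee G v u = 0 := by
      rw [sub_mul, one_mul, h, sub_self]
    rw [h2]
    exact p.asIdeal.zero_mem
  refine ⟨good_sg hG v u hv hu, good_sg hG (1 - v) (-u) (conj_root hv) hu', ?_, ?_⟩
  · intro n c c₀ c₁ h0 h1
    ext p
    rw [Finsupp.add_apply]
    rcases hone p.1 with h | h
    · obtain ⟨P, hP⟩ := (mem_range_iff (sg (k := k) v hv) (sg_surjective v hv) n p).2 h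
      rw [← hP, push_apply, push_zero _ _ c₁ (pushP _ _ P) (by rw [hP]; exact hno p.1 h), add_zero]
      have h2 := (h0 P).1 ((rdim_comap _ (sg_surjective v hv) P.1).trans P.2)
      exact h2.symm
    · obtain ⟨P, hP⟩ := (mem_range_iff (sg (k := k) (1 - v) (conj_root hv))
        (sg_surjective (1 - v) (conj_root hv)) n p).2 h
      rw [← hP, push_apply, push_zero _ _ c₀ (pushP _ _ P)
        (by rw [hP]; exact fun h3 => hno p.1 h3 h), zero_add]
      have h2 := (h1 P).1 ((rdim_comap _ (sg_surjective (1 - v) (conj_root hv)) P.1).trans P.2)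
      exact h2.symm
  · intro n c₀ c₁ P
    have hd : rdim k (PrimeSpectrum.comap (sg (k := k) v hv).toRingHom P.1) = n :=
      (rdim_comap _ (sg_surjective v hv) P.1).trans P.2
    refine ⟨fun h => ?_, fun h => absurd hd h⟩
    rw [Finsupp.add_apply]
    have h1 : (⟨PrimeSpectrum.comap (sg (k := k) v hv).toRingHom P.1, h⟩ : RP k (Q T G) n) =
        pushP (n := n) (sg (k := k) v hv) (sg_surjective v hv) P := rfl
    have h2 : push E (sg (k := k) (1 - v) (conj_root hv)) (sg_surjective (1 - v) (conj_root hv)) c₁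
        (pushP (n := n) (sg (k := k) v hv) (sg_surjective v hv) P) = 0 := by
      apply push_zero
      apply hno
      exact (mem_range_iff (sg (k := k) v hv) (sg_surjective v hv) n _).1 ⟨P, rfl⟩
    rw [h1, push_apply, h2]
    exact (add_zero _).symm

end CUB


end

section

set_option autoImplicit false
set_option linter.unusedSectionVars false

/-!
# CUB, module GREC: reciprocity on an algebra of finite type
-/

open Polynomial

namespace CUB

namespace GREC

section Chart

variable {k S K C : Type} [Field k] [CommRing S] [Algebra k S] [Field K] [Algebra k K]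
  [CommRing C] [IsDomain C] [IsLocalRing C] [Algebra C K]

/-- `C` is the local ring at `m` of the closed subvariety `V(q)`. -/
structure Chart (θ : S →ₐ[k] K) (q m : PrimeSpectrum S) (γ : S →+* C) : Prop where
  comm : ∀ s, algebraMap C K (γ s) = θ s
  ker : ∀ s, γ s = 0 ↔ s ∈ q.asIdeal
  unit : ∀ s, s ∉ m.asIdeal → IsUnit (γ s)
  frac : ∀ c : C, ∃ s t, t ∉ m.asIdeal ∧ γ t * c = γ s
  mem : ∀ s, s ∈ m.asIdeal → γ s ∈ IsLocalRing.maximalIdeal C
  lenT : ∀ (I : Ideal S), q.asIdeal ≤ I → ∀ z : PrimeSpectrum C,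
    len (I.map γ) z = len I (PrimeSpectrum.comap γ z)

variable {θ : S →ₐ[k] K} {q m : PrimeSpectrum S} {γ : S →+* C}

theorem mc (H : Chart θ q m γ) (I : Ideal C) : (I.comap γ).map γ = I := by
  apply le_antisymm Ideal.map_comap_le
  intro x hx
  obtain ⟨b, t, ht, h⟩ := H.frac x
  have h1 : γ b ∈ (I.comap γ).map γ := by
    apply Ideal.mem_map_of_mem
    rw [Ideal.mem_comap, ← h]
    exact I.mul_mem_left _ hx
  rw [← h] at h1
  exact (Ideal.unit_mul_mem_iff_mem _ (H.unit t ht)).mp h1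

theorem eq_of_comap (H : Chart θ q m γ) {z z' : PrimeSpectrum C}
    (h : PrimeSpectrum.comap γ z = PrimeSpectrum.comap γ z') : z = z' := by
  have h1 : z.asIdeal.comap γ = z'.asIdeal.comap γ := congrArg PrimeSpectrum.asIdeal h
  apply PrimeSpectrum.ext
  rw [← mc H z.asIdeal, ← mc H z'.asIdeal, h1]

theorem comap_max (H : Chart θ q m γ) :
    (IsLocalRing.maximalIdeal C).comap γ = m.asIdeal := by
  apply le_antisymm
  · intro s hs
    by_contra h
    exact (IsLocalRing.mem_maximalIdeal _).mp hs (H.unit s h)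
  · intro s hs
    exact H.mem s hs

theorem comap_le (H : Chart θ q m γ) (z : PrimeSpectrum C) : PrimeSpectrum.comap γ z ≤ m := by
  intro s hs
  rw [← comap_max H]
  exact IsLocalRing.le_maximalIdeal z.isPrime.ne_top hs

theorem le_comap (H : Chart θ q m γ) (z : PrimeSpectrum C) : q ≤ PrimeSpectrum.comap γ z := by
  intro s hs
  have h : γ s ∈ z.asIdeal := by
    rw [(H.ker s).mpr hs]
    exact z.asIdeal.zero_mem
  exact h

theorem mem_map (H : Chart θ q m γ) (P : Ideal S) {c : C} (hc : c ∈ P.map γ) :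
    ∃ p ∈ P, ∃ t, t ∉ m.asIdeal ∧ γ t * c = γ p := by
  refine Submodule.span_induction ?_ ?_ ?_ ?_ hc
  · rintro _ ⟨p, hp, rfl⟩
    exact ⟨p, hp, 1, m.isPrime.one_notMem, by rw [map_one, one_mul]⟩
  · exact ⟨0, P.zero_mem, 1, m.isPrime.one_notMem, by rw [map_one, map_zero, mul_zero]⟩
  · rintro x y - - ⟨p, hp, t, ht, h⟩ ⟨p', hp', t', ht', h'⟩
    refine ⟨t' * p + t * p', P.add_mem (P.mul_mem_left _ hp) (P.mul_mem_left _ hp'), t * t',
      fun h2 => (m.isPrime.mem_or_mem h2).elim ht ht', ?_⟩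
    rw [map_mul, map_add, map_mul, map_mul, ← h, ← h']
    ring
  · rintro a x - ⟨p, hp, t, ht, h⟩
    obtain ⟨s, t', ht', h'⟩ := H.frac a
    refine ⟨s * p, P.mul_mem_left _ hp, t * t',
      fun h2 => (m.isPrime.mem_or_mem h2).elim ht ht', ?_⟩
    rw [map_mul, map_mul, ← h, ← h', smul_eq_mul]
    ring

theorem cm (H : Chart θ q m γ) (P : PrimeSpectrum S) (hq : q ≤ P) (hm : P ≤ m) :
    (P.asIdeal.map γ).comap γ = P.asIdeal := by
  apply le_antisymm _ Ideal.le_comap_map
  intro s hs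
  obtain ⟨p, hp, t, ht, h⟩ := mem_map H P.asIdeal hs
  rw [← map_mul] at h
  have h1 : t * s - p ∈ q.asIdeal := by
    rw [← H.ker, map_sub, h, sub_self]
  have h2 : t * s ∈ P.asIdeal := by
    have := P.asIdeal.add_mem (hq h1) hp
    rwa [sub_add_cancel] at this
  exact (P.isPrime.mem_or_mem h2).resolve_left fun h3 => ht (hm h3)

theorem pm (H : Chart θ q m γ) (P : PrimeSpectrum S) (hq : q ≤ P) (hm : P ≤ m) :
    (P.asIdeal.map γ).IsPrime := by
  have hcm := cm H P hq hm
  constructor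
  · intro h
    apply P.isPrime.ne_top
    rw [← hcm, h, Ideal.comap_top]
  · intro x y hxy
    obtain ⟨s, t, ht, h⟩ := H.frac x
    obtain ⟨s', t', ht', h'⟩ := H.frac y
    have h1 : s * s' ∈ P.asIdeal := by
      rw [← hcm, Ideal.mem_comap, map_mul, ← h, ← h']
      have h2 : γ t * x * (γ t' * y) = γ t * γ t' * (x * y) := by ring
      rw [h2]
      exact Ideal.mul_mem_left _ _ hxy
    rcases P.isPrime.mem_or_mem h1 with h2 | h2
    · left
      have h3 : γ s ∈ P.asIdeal.map γ := Ideal.mem_map_of_mem _ h2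
      rw [← h] at h3
      exact (Ideal.unit_mul_mem_iff_mem _ (H.unit t ht)).mp h3
    · right
      have h3 : γ s' ∈ P.asIdeal.map γ := Ideal.mem_map_of_mem _ h2
      rw [← h'] at h3
      exact (Ideal.unit_mul_mem_iff_mem _ (H.unit t' ht')).mp h3

/-- the prime of `C` given by a prime between `q` and `m` -/
theorem exists_prime (H : Chart θ q m γ) (P : PrimeSpectrum S) (hq : q ≤ P) (hm : P ≤ m) :
    ∃ z : PrimeSpectrum C, PrimeSpectrum.comap γ z = P :=
  ⟨⟨P.asIdeal.map γ, pm H P hq hm⟩, PrimeSpectrum.ext (cm H P hq hm)⟩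

theorem map_q (H : Chart θ q m γ) : q.asIdeal.map γ = ⊥ := by
  rw [eq_bot_iff, Ideal.map_le_iff_le_comap]
  intro s hs
  rw [Ideal.mem_comap, (H.ker s).mpr hs]
  exact Ideal.zero_mem _

theorem bot_iff (H : Chart θ q m γ) (z : PrimeSpectrum C) :
    z.asIdeal = ⊥ ↔ PrimeSpectrum.comap γ z = q := by
  constructor
  · intro h
    apply PrimeSpectrum.ext
    ext s
    rw [← H.ker]
    have h1 : s ∈ (PrimeSpectrum.comap γ z).asIdeal ↔ γ s ∈ z.asIdeal := Iff.rfl
    rw [h1, h, Ideal.mem_bot]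
  · intro h
    have h1 : z.asIdeal.comap γ = q.asIdeal := congrArg PrimeSpectrum.asIdeal h
    rw [← mc H z.asIdeal, ← map_q H, h1]

theorem max_iff (H : Chart θ q m γ) (z : PrimeSpectrum C) :
    z.asIdeal.IsMaximal ↔ PrimeSpectrum.comap γ z = m := by
  constructor
  · intro h
    have h1 : z.asIdeal.comap γ = m.asIdeal := by
      rw [← comap_max H, ← IsLocalRing.eq_maximalIdeal h]
    exact PrimeSpectrum.ext h1
  · intro h
    have h2 : z.asIdeal.comap γ = m.asIdeal := congrArg PrimeSpectrum.asIdeal h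
    have h1 : z.asIdeal = IsLocalRing.maximalIdeal C := by
      rw [← mc H z.asIdeal, ← mc H (IsLocalRing.maximalIdeal C), comap_max H, h2]
    rw [h1]
    exact IsLocalRing.maximalIdeal.isMaximal C

/-- lengths at the prime `z` -/
theorem len_z (H : Chart θ q m γ) (x : S) (z : PrimeSpectrum C) :
    len (Ideal.span {γ x}) z = len (q.asIdeal ⊔ Ideal.span {x}) (PrimeSpectrum.comap γ z) := by
  rw [← H.lenT _ le_sup_left, Ideal.map_sup, map_q H, bot_sup_eq, Ideal.map_span,
    Set.image_singleton]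

end Chart

/-- surjective homomorphisms, lengths of the quotients -/
theorem length_quot {R S : Type} [CommRing R] [CommRing S] (f : R →+* S)
    (hf : Function.Surjective f) (I : Ideal R) (J : Ideal S) (h : I = J.comap f) :
    Module.length R (R ⧸ I) = Module.length S (S ⧸ J) := by
  let _ : Algebra R S := f.toAlgebra
  have h1 : Module.length R (S ⧸ J) = Module.length S (S ⧸ J) :=
    Module.length_eq_of_surjective (R := S) (S := R) (M := S ⧸ J) hf
  rw [← h1]
  let g : R →ₐ[R] (S ⧸ J) := Algebra.ofId R (S ⧸ J)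
  have hg : ∀ x, g x = Ideal.Quotient.mk J (f x) := fun x => rfl
  have hgs : Function.Surjective g.toLinearMap := by
    intro y
    obtain ⟨z, rfl⟩ := Ideal.Quotient.mk_surjective y
    obtain ⟨x, rfl⟩ := hf z
    exact ⟨x, rfl⟩
  have hk : LinearMap.ker g.toLinearMap = I := by
    ext x
    rw [LinearMap.mem_ker, h, Ideal.mem_comap]
    have : g.toLinearMap x = Ideal.Quotient.mk J (f x) := rfl
    rw [this, Ideal.Quotient.eq_zero_iff_mem]
  have e := g.toLinearMap.quotKerEquivOfSurjective hgs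
  rw [hk] at e
  exact e.length_eq

/-- the localisation of a local ring at the maximal ideal -/
theorem len_max {C : Type} [CommRing C] [IsLocalRing C] (J : Ideal C) :
    len J (⟨IsLocalRing.maximalIdeal C, inferInstance⟩ : PrimeSpectrum C) = lC C (C ⧸ J) := by
  have hb : Function.Bijective (algebraMap C (Localization.AtPrime (IsLocalRing.maximalIdeal C))) := by
    have h1 : IsLocalization.AtPrime C (IsLocalRing.maximalIdeal C) := by
      apply IsLocalization.self
      intro x hx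
      exact (IsLocalRing.notMem_maximalIdeal).mp hx
    have e := IsLocalization.algEquiv (IsLocalRing.maximalIdeal C).primeCompl C
      (Localization.AtPrime (IsLocalRing.maximalIdeal C))
    have h2 : ∀ x, algebraMap C (Localization.AtPrime (IsLocalRing.maximalIdeal C)) x = e x :=
      fun x => (e.commutes x).symm
    constructor
    · intro x y hxy
      rw [h2, h2] at hxy
      exact e.injective hxy
    · intro y
      obtain ⟨x, hx⟩ := e.surjective y
      exact ⟨x, (h2 x).trans hx⟩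
  unfold len lC
  rw [length_quot _ hb.2 J (J.map (algebraMap C (Localization.AtPrime
    (IsLocalRing.maximalIdeal C)))) (Ideal.comap_map_of_bijective _ hb).symm]

section Chart2

variable {k S K C : Type} [Field k] [CommRing S] [Algebra k S] [Field K] [Algebra k K]
  [CommRing C] [IsDomain C] [IsLocalRing C] [Algebra C K] {θ : S →ₐ[k] K}
  {q m : PrimeSpectrum S} {γ : S →+* C}

theorem len_m (H : Chart θ q m γ) (y : S) (z : PrimeSpectrum C) :
    len ((PrimeSpectrum.comap γ z).asIdeal ⊔ Ideal.span {y}) m =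
      lC C (C ⧸ (z.asIdeal ⊔ Ideal.span {γ y})) := by
  have h0 : q.asIdeal ≤ (PrimeSpectrum.comap γ z).asIdeal := le_comap H z
  have h1 := H.lenT ((PrimeSpectrum.comap γ z).asIdeal ⊔ Ideal.span {y})
    (h0.trans le_sup_left) ⟨IsLocalRing.maximalIdeal C, inferInstance⟩
  have h2 : PrimeSpectrum.comap γ (⟨IsLocalRing.maximalIdeal C, inferInstance⟩ :
      PrimeSpectrum C) = m := PrimeSpectrum.ext (comap_max H)
  rw [h2, Ideal.map_sup, Ideal.map_span, Set.image_singleton] at h1
  have h3 : (PrimeSpectrum.comap γ z).asIdeal.map γ = z.asIdeal := mc H z.asIdeal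
  rw [h3, len_max] at h1
  exact h1.symm

end Chart2

section Dims

variable {k S K C : Type} [Field k] [CommRing S] [Algebra k S] [Algebra.FiniteType k S]
  [Field K] [Algebra k K] [CommRing C] [IsDomain C] [IsLocalRing C] [Algebra C K]
  {θ : S →ₐ[k] K} {n : ℕ} {q : RP k S (n + 1 + 1)} {m : RP k S n} {γ : S →+* C}

theorem rdim_mid (h1 : S_DIM1) (q : RP k S (n + 1 + 1)) (m : RP k S n) (P : PrimeSpectrum S)
    (hq : q.1 < P) (hm : P < m.1) : rdim k P = (n + 1 : ℕ) := by
  obtain ⟨⟨d, hd⟩, h2⟩ := h1 k S P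
  have h3 := h2 m.1 hm
  have h4 := (h1 k S q.1).2 P hq
  rw [hd, m.2] at h3
  rw [hd, q.2] at h4
  have h5 : n < d := by exact_mod_cast h3
  have h6 : d < n + 1 + 1 := by exact_mod_cast h4
  have h7 : d = n + 1 := by omega
  rw [hd, h7]

theorem hh_iff (h1 : S_DIM1) (H : Chart θ q.1 m.1 γ) (z : PrimeSpectrum C) :
    z ∈ HH C ↔ rdim k (PrimeSpectrum.comap γ z) = (n + 1 : ℕ) := by
  constructor
  · rintro ⟨hz1, hz2⟩
    rw [Ne, bot_iff H] at hz1
    rw [max_iff H] at hz2
    exact rdim_mid h1 q m _ (lt_of_le_of_ne (le_comap H z) (Ne.symm hz1))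
      (lt_of_le_of_ne (comap_le H z) hz2)
  · intro h
    constructor
    · intro h2
      rw [bot_iff H] at h2
      rw [h2, q.2] at h
      have h3 : n + 1 + 1 = n + 1 := by exact_mod_cast h
      omega
    · intro h2
      rw [max_iff H] at h2
      rw [h2, m.2] at h
      have h3 : n = n + 1 := by exact_mod_cast h
      omega

theorem sit (h1 : S_DIM1) (H : Chart θ q.1 m.1 γ) [IsNoetherianRing C] [IsFractionRing C K]
    (hfin : Module.Finite C (integralClosure C K)) : Sit C (integralClosure C K) K where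
  fin := hfin
  frC := inferInstance
  frA := by
    have : Algebra.IsAlgebraic C K := IsLocalization.isAlgebraic K (nonZeroDivisors C)
    apply integralClosure.isFractionRing_of_algebraic
    intro x hx
    exact (map_eq_zero_iff _ (IsFractionRing.injective C K)).mp hx
  ic := integralClosure.isIntegrallyClosedOfFiniteExtension K
  dim := by
    intro P P' hP hP' hne hlt
    have hzz : (⟨P, hP⟩ : PrimeSpectrum C) < ⟨P', hP'⟩ := hlt
    have hne' : (⟨P, hP⟩ : PrimeSpectrum C).asIdeal ≠ ⊥ := hne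
    have h3 : PrimeSpectrum.comap γ ⟨P, hP⟩ < PrimeSpectrum.comap γ ⟨P', hP'⟩ := by
      refine lt_of_le_of_ne (Ideal.comap_mono hzz.le) fun h => hzz.ne (eq_of_comap H h)
    rw [Ne, bot_iff H] at hne'
    have h4 : q.1 < PrimeSpectrum.comap γ ⟨P, hP⟩ :=
      lt_of_le_of_ne (le_comap H _) (Ne.symm hne')
    have h5 : PrimeSpectrum.comap γ ⟨P', hP'⟩ = m.1 := by
      by_contra hcon
      have h6 := lt_of_le_of_ne (comap_le H ⟨P', hP'⟩) hcon
      have h7 := rdim_mid h1 q m _ h4 (h3.trans h6)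
      have h8 := rdim_mid h1 q m _ (h4.trans h3) h6
      have h9 := (h1 k S (PrimeSpectrum.comap γ ⟨P, hP⟩)).2 _ h3
      rw [h7, h8] at h9
      exact lt_irrefl _ h9
    exact IsLocalRing.eq_maximalIdeal ((max_iff H ⟨P', hP'⟩).mpr h5)

end Dims

section Norm

theorem norm_ne {L : Type} [Field L] (F : Subfield L) {x : L} (hx : x ≠ 0) :
    Algebra.norm F x ≠ 0 := by
  by_cases h : Module.Finite F L
  · exact Algebra.norm_ne_zero_iff.mpr hx
  · rw [Algebra.norm_eq_one_of_not_module_finite h]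
    exact one_ne_zero

theorem norm_congr {L : Type} [Field L] (F F' : Subfield L) (h : F = F') (x : L) :
    ((Algebra.norm F x : F) : L) = ((Algebra.norm F' x : F') : L) := by
  subst h
  rfl

theorem ex_nm {C L : Type} [CommRing C] [Field L] (ρ : C →+* L) {x : L} (hx : x ≠ 0) :
    ∃ b c : C, IsNm ρ x b c := by
  have h0 : ((Algebra.norm (Subfield.closure (Set.range ρ)) x :
      Subfield.closure (Set.range ρ)) : L) ≠ 0 := by
    intro h
    exact norm_ne _ hx (Subtype.ext h)
  have h1 := (Algebra.norm (Subfield.closure (Set.range ρ)) x).2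
  rw [Subfield.mem_closure_iff] at h1
  obtain ⟨y, hy, z, hz, hyz⟩ := h1
  have hcl : Subring.closure (Set.range ρ) = ρ.range := by
    rw [← RingHom.coe_range, Subring.closure_eq]
  rw [hcl] at hy hz
  obtain ⟨b, rfl⟩ := hy
  obtain ⟨c, rfl⟩ := hz
  have hc : ρ c ≠ 0 := by
    intro h
    rw [h, div_zero] at hyz
    exact h0 hyz.symm
  have hb : ρ b ≠ 0 := by
    intro h
    rw [h, zero_div] at hyz
    exact h0 hyz.symm
  refine ⟨b, c, hb, hc, ?_⟩
  rw [← hyz, div_mul_cancel₀ _ hc]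

variable {k S K C : Type} [Field k] [CommRing S] [Algebra k S]
  [Field K] [Algebra k K] [CommRing C] [IsDomain C] [IsLocalRing C] [Algebra C K]
  {θ : S →ₐ[k] K} {q m : PrimeSpectrum S} {γ : S →+* C}

theorem closure_eq (H : Chart θ q m γ) {L : Type} [Field L] (ρS : S →+* L) (ρ : C →+* L)
    (h : ∀ s, ρS s = ρ (γ s)) :
    Subfield.closure (Set.range ρS) = Subfield.closure (Set.range ρ) := by
  apply le_antisymm
  · rw [Subfield.closure_le]
    rintro _ ⟨s, rfl⟩
    apply Subfield.subset_closure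
    exact ⟨γ s, (h s).symm⟩
  · rw [Subfield.closure_le]
    rintro _ ⟨c, rfl⟩
    obtain ⟨s, t, ht, hst⟩ := H.frac c
    have h1 : ρ (γ t) ≠ 0 := ((H.unit t ht).map ρ).ne_zero
    have h2 : ρ c = ρS s / ρS t := by
      rw [h, h, eq_div_iff h1, ← map_mul, mul_comm, hst]
    rw [h2]
    exact div_mem (Subfield.subset_closure ⟨s, rfl⟩) (Subfield.subset_closure ⟨t, rfl⟩)

theorem nm_C (H : Chart θ q m γ) {L : Type} [Field L] (ρS : S →+* L) (ρ : C →+* L)
    (h : ∀ s, ρS s = ρ (γ s)) {x : L} {b c : S} (hn : IsNm ρS x b c) :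
    IsNm ρ x (γ b) (γ c) := by
  obtain ⟨h1, h2, h3⟩ := hn
  refine ⟨?_, ?_, ?_⟩
  · rw [← h]
    exact h1
  · rw [← h]
    exact h2
  · rw [← h, ← h, ← h3]
    congr 1
    exact norm_congr _ _ (closure_eq H ρS ρ h).symm x

/-- additivity of the length -/
theorem length_ord {C : Type} [CommRing C] (z : Ideal C) (y : C) :
    Module.length C (C ⧸ (z ⊔ Ideal.span {y})) = Ring.ord (C ⧸ z) (Ideal.Quotient.mk z y) := by
  unfold Ring.ord
  apply length_quot (Ideal.Quotient.mk z) Ideal.Quotient.mk_surjective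
  have h1 : Ideal.span {Ideal.Quotient.mk z y} =
      (z ⊔ Ideal.span {y}).map (Ideal.Quotient.mk z) := by
    rw [Ideal.map_sup, Ideal.map_quotient_self, bot_sup_eq, Ideal.map_span,
      Set.image_singleton]
  rw [h1, Ideal.comap_map_mk le_sup_left]

theorem lC_mul {C : Type} [CommRing C] (z : Ideal C) (hz : z.IsPrime)
    (hf : ∀ x, x ∉ z → Module.length C (C ⧸ (z ⊔ Ideal.span {x})) ≠ ⊤) {y y' : C}
    (hy : y ∉ z) (hy' : y' ∉ z) :
    lC C (C ⧸ (z ⊔ Ideal.span {y * y'})) =
      lC C (C ⧸ (z ⊔ Ideal.span {y})) + lC C (C ⧸ (z ⊔ Ideal.span {y'})) := by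
  unfold lC
  rw [← ENat.toNat_add (hf y hy) (hf y' hy'), length_ord, length_ord, length_ord, map_mul]
  congr 1
  apply Ring.ord_mul
  apply mem_nonZeroDivisors_of_ne_zero
  rw [Ne, Ideal.Quotient.eq_zero_iff_mem]
  exact hy'

theorem lC_congr {C : Type} [CommRing C] (z : Ideal C) {y y' : C} (h : y - y' ∈ z) :
    lC C (C ⧸ (z ⊔ Ideal.span {y})) = lC C (C ⧸ (z ⊔ Ideal.span {y'})) := by
  have h1 : z ⊔ Ideal.span {y} = z ⊔ Ideal.span {y'} := by
    apply le_antisymm
    · refine sup_le le_sup_left ?_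
      rw [Ideal.span_singleton_le_iff_mem]
      have h2 : y = (y - y') + y' := by ring
      rw [h2]
      exact Ideal.add_mem _ (Ideal.mem_sup_left h)
        (Ideal.mem_sup_right (Ideal.mem_span_singleton_self _))
    · refine sup_le le_sup_left ?_
      rw [Ideal.span_singleton_le_iff_mem]
      have h2 : y' = -(y - y') + y := by ring
      rw [h2]
      exact Ideal.add_mem _ (Ideal.mem_sup_left (neg_mem h))
        (Ideal.mem_sup_right (Ideal.mem_span_singleton_self _))
  rw [h1]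

end Norm

section Loc

variable {k S K C A : Type} [Field k] [CommRing S] [Algebra k S]
  [Field K] [Algebra k K] [CommRing C] [IsDomain C] [IsLocalRing C] [IsNoetherianRing C]
  [Algebra C K] [CommRing A] [IsDomain A] [Algebra C A] [Algebra A K] [IsScalarTower C A K]
  {θ : S →ₐ[k] K} {q m : PrimeSpectrum S} {γ : S →+* C}

theorem mem_O {p : Ideal A} (hp : p.IsPrime) {O : ValuationSubring K} (hO : IsLocO p O) (a : A) :
    algebraMap A K a ∈ O :=
  (hO _).mpr ⟨a, 1, hp.one_notMem, by rw [map_one, mul_one]⟩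

theorem memC_O {p : Ideal A} (hp : p.IsPrime) {O : ValuationSubring K} (hO : IsLocO p O)
    (c : C) : algebraMap C K c ∈ O := by
  rw [IsScalarTower.algebraMap_apply C A K]
  exact mem_O hp hO _

theorem inv_mem {p : Ideal A} {O : ValuationSubring K} (hO : IsLocO p O)
    (hinj : Function.Injective (algebraMap A K)) {a : A} (ha : a ∉ p) :
    (algebraMap A K a)⁻¹ ∈ O := by
  refine (hO _).mpr ⟨1, a, ha, ?_⟩
  rw [map_one, inv_mul_cancel₀]
  intro h
  apply ha
  rw [(map_eq_zero_iff _ hinj).mp h]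
  exact p.zero_mem

theorem inv_notMem {p : Ideal A} {O : ValuationSubring K} (hO : IsLocO p O)
    (hinj : Function.Injective (algebraMap A K)) {a : A} (ha : a ∈ p) (ha0 : a ≠ 0) :
    (algebraMap A K a)⁻¹ ∉ O := by
  intro h
  obtain ⟨a', b, hb, h2⟩ := (hO _).mp h
  apply hb
  have h0 : algebraMap A K a ≠ 0 := fun h3 => ha0 ((map_eq_zero_iff _ hinj).mp h3)
  have h3 : algebraMap A K b = algebraMap A K (a * a') := by
    rw [map_mul, ← h2, mul_inv_cancel_left₀ h0]
  rw [hinj h3]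
  exact p.mul_mem_right _ ha

theorem residue_zero (O : ValuationSubring K) (x : O) :
    IsLocalRing.residue O x = 0 ↔ (x : K) = 0 ∨ (x : K)⁻¹ ∉ O := by
  rw [IsLocalRing.residue_eq_zero_iff, IsLocalRing.mem_maximalIdeal, mem_nonunits_iff]
  constructor
  · intro h
    by_cases h0 : (x : K) = 0
    · exact Or.inl h0
    right
    intro h2
    apply h
    refine ⟨⟨x, ⟨_, h2⟩, ?_, ?_⟩, rfl⟩
    · exact Subtype.ext (mul_inv_cancel₀ h0)
    · exact Subtype.ext (inv_mul_cancel₀ h0)
  · rintro h ⟨u, hu⟩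
    have h1 : (x : K) * ((u⁻¹ : Oˣ) : O) = 1 := by
      have h2 : x * ((u⁻¹ : Oˣ) : O) = 1 := by
        rw [← hu]
        exact u.mul_inv
      exact congrArg Subtype.val h2
    rcases h with h | h
    · rw [h, zero_mul] at h1
      exact zero_ne_one h1
    · apply h
      rw [inv_eq_of_mul_eq_one_right h1]
      exact ((u⁻¹ : Oˣ) : O).2

theorem residue_A {p : Ideal A} {O : ValuationSubring K} (hO : IsLocO p O)
    (hinj : Function.Injective (algebraMap A K)) (a : A) (h : algebraMap A K a ∈ O) :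
    IsLocalRing.residue O ⟨algebraMap A K a, h⟩ = 0 ↔ a ∈ p := by
  rw [residue_zero]
  change algebraMap A K a = 0 ∨ (algebraMap A K a)⁻¹ ∉ O ↔ a ∈ p
  constructor
  · intro h2
    by_contra ha
    rcases h2 with h2 | h2
    · apply ha
      rw [(map_eq_zero_iff _ hinj).mp h2]
      exact p.zero_mem
    · exact h2 (inv_mem hO hinj ha)
  · intro ha
    by_cases ha0 : a = 0
    · left
      rw [ha0, map_zero]
    · right
      exact inv_notMem hO hinj ha ha0

theorem local_eq (hHHA : S_HHA) (hNM : S_NM) (hsit : Sit C A K) (H : Chart θ q m γ)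
    (p : PrimeSpectrum A) (hp : p ∈ HH A) (O : ValuationSubring K) (hO : IsLocO p.asIdeal O)
    (hθ : ∀ s, θ s ∈ O) (w : O) (b c : S)
    (hn : IsNm (rhoO θ O hθ) (IsLocalRing.residue O w) b c) (X Y : A) (hX : X ∉ p.asIdeal)
    (hY : Y ∉ p.asIdeal) (hXY : (w : K) * algebraMap A K Y = algebraMap A K X) :
    (lC C (A ⧸ (p.asIdeal ⊔ Ideal.span {X})) : ℤ) - lC C (A ⧸ (p.asIdeal ⊔ Ideal.span {Y})) =
      (lC C (C ⧸ (p.asIdeal.comap (algebraMap C A) ⊔ Ideal.span {γ b})) : ℤ) -
        lC C (C ⧸ (p.asIdeal.comap (algebraMap C A) ⊔ Ideal.span {γ c})) := by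
  have hfr := hsit.frA
  have hinj : Function.Injective (algebraMap A K) := IsFractionRing.injective A K
  obtain ⟨-, hcomap, -, -, -, -, -, hfinC, -⟩ := hHHA C A K hsit
  have hCO : ∀ x : C, algebraMap C K x ∈ O.toSubring := fun x => memC_O p.isPrime hO x
  let ρ : C →+* IsLocalRing.ResidueField O :=
    (IsLocalRing.residue O).comp ((algebraMap C K).codRestrict O.toSubring hCO)
  have hρ : ∀ (x : C) (h : algebraMap C K x ∈ O),
      ρ x = IsLocalRing.residue O ⟨algebraMap C K x, h⟩ := fun x h => rfl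
  have hρS : ∀ s, rhoO θ O hθ s = ρ (γ s) := by
    intro s
    have h1 : (⟨θ s, hθ s⟩ : O) = ⟨algebraMap C K (γ s), hCO (γ s)⟩ :=
      Subtype.ext (H.comm s).symm
    exact congrArg (IsLocalRing.residue O) h1
  have hker : ∀ x : C, ρ x = 0 ↔ x ∈ p.asIdeal.comap (algebraMap C A) := by
    intro x
    rw [Ideal.mem_comap, ← residue_A hO hinj _ (mem_O p.isPrime hO _), hρ x (hCO x)]
    have h1 : (⟨algebraMap C K x, hCO x⟩ : O) =
        ⟨algebraMap A K (algebraMap C A x), mem_O p.isPrime hO _⟩ :=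
      Subtype.ext (IsScalarTower.algebraMap_apply C A K x)
    rw [h1]
  set z : Ideal C := p.asIdeal.comap (algebraMap C A) with hz
  have hzH : PrimeSpectrum.comap (algebraMap C A) p ∈ HH C := hcomap p hp
  have hzp : z.IsPrime := (PrimeSpectrum.comap (algebraMap C A) p).isPrime
  have hf : ∀ x, x ∉ z → Module.length C (C ⧸ (z ⊔ Ideal.span {x})) ≠ ⊤ :=
    fun x hx => hfinC _ hzH x hx
  -- the elements
  let wX : O := ⟨algebraMap A K X, mem_O p.isPrime hO X⟩
  let wY : O := ⟨algebraMap A K Y, mem_O p.isPrime hO Y⟩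
  have hw : w * wY = wX := Subtype.ext hXY
  have hX0 : IsLocalRing.residue O wX ≠ 0 := by
    rw [Ne, residue_A hO hinj]
    exact hX
  have hY0 : IsLocalRing.residue O wY ≠ 0 := by
    rw [Ne, residue_A hO hinj]
    exact hY
  obtain ⟨b1, c1, hn1⟩ := ex_nm ρ hX0
  obtain ⟨b2, c2, hn2⟩ := ex_nm ρ hY0
  have e1 := hNM C A K hsit p hp O hO ρ hρ X wX b1 c1 hX rfl hn1
  have e2 := hNM C A K hsit p hp O hO ρ hρ Y wY b2 c2 hY rfl hn2
  rw [← hz] at e1 e2
  have hn' := nm_C H (rhoO θ O hθ) ρ hρS hn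
  have hNmul : Algebra.norm (Subfield.closure (Set.range ρ)) (IsLocalRing.residue O w) *
      Algebra.norm (Subfield.closure (Set.range ρ)) (IsLocalRing.residue O wY) =
      Algebra.norm (Subfield.closure (Set.range ρ)) (IsLocalRing.residue O wX) := by
    rw [← map_mul, ← map_mul, hw]
  have hNmul' := congrArg (Subtype.val) hNmul
  rw [Subfield.coe_mul] at hNmul'
  obtain ⟨hb0, hc0, hbc⟩ := hn'
  obtain ⟨hb10, hc10, hbc1⟩ := hn1
  obtain ⟨hb20, hc20, hbc2⟩ := hn2
  have hrel : γ b * b2 * c1 - b1 * γ c * c2 ∈ z := by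
    rw [← hker, map_sub, map_mul, map_mul, map_mul, map_mul, ← hbc, ← hbc1, ← hbc2, ← hNmul']
    ring
  have hnz : ∀ x, ρ x ≠ 0 → x ∉ z := fun x h h2 => h ((hker x).mpr h2)
  have hmul : ∀ x y, x ∉ z → y ∉ z → x * y ∉ z := fun x y hx hy h =>
    (hzp.mem_or_mem h).elim hx hy
  have e3 := lC_congr z hrel
  rw [lC_mul z hzp hf (hmul _ _ (hnz _ hb0) (hnz _ hb20)) (hnz _ hc10),
    lC_mul z hzp hf (hnz _ hb0) (hnz _ hb20),
    lC_mul z hzp hf (hmul _ _ (hnz _ hb10) (hnz _ hc0)) (hnz _ hc20),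
    lC_mul z hzp hf (hnz _ hb10) (hnz _ hc0)] at e3
  omega

theorem ker_rho (H : Chart θ q m γ) {p : PrimeSpectrum A} {O : ValuationSubring K}
    (hO : IsLocO p.asIdeal O) (hinj : Function.Injective (algebraMap A K))
    (hθ : ∀ s, θ s ∈ O) : RingHom.ker (rhoO θ O hθ) =
      (PrimeSpectrum.comap γ (PrimeSpectrum.comap (algebraMap C A) p)).asIdeal := by
  ext s
  have h1 : s ∈ (PrimeSpectrum.comap γ (PrimeSpectrum.comap (algebraMap C A) p)).asIdeal ↔
      algebraMap C A (γ s) ∈ p.asIdeal := Iff.rfl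
  rw [h1, ← residue_A hO hinj _ (mem_O p.isPrime hO _)]
  have h2 : (⟨algebraMap A K (algebraMap C A (γ s)), mem_O p.isPrime hO _⟩ : O) =
      ⟨θ s, hθ s⟩ :=
    Subtype.ext ((IsScalarTower.algebraMap_apply C A K _).symm.trans (H.comm s))
  rw [h2]
  exact Iff.rfl

theorem un_zpow {O : ValuationSubring K} {a : K} (ha : IsUn O a) (j : ℤ) : IsUn O (a ^ j) := by
  obtain ⟨h0, h1, h2⟩ := ha
  have hp : ∀ (b : K), b ∈ O → ∀ n : ℕ, b ^ n ∈ O := fun b hb n => pow_mem hb n
  refine ⟨zpow_ne_zero _ h0, ?_, ?_⟩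
  · cases j with
    | ofNat n =>
      rw [Int.ofNat_eq_natCast, zpow_natCast]
      exact hp a h1 n
    | negSucc n =>
      rw [zpow_negSucc, ← inv_pow]
      exact hp _ h2 _
  · rw [← inv_zpow]
    cases j with
    | ofNat n =>
      rw [Int.ofNat_eq_natCast, zpow_natCast]
      exact hp _ h2 n
    | negSucc n =>
      rw [zpow_negSucc, ← inv_pow, inv_inv]
      exact hp a h1 _

theorem tame_unit {O : ValuationSubring K} {a u w : K} (h : IsTame O a u w) : IsUn O w := by
  obtain ⟨π, α, β, i, j, hπ, hα, hβ, ha, hu, hw⟩ := h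
  have hπ0 : π ≠ 0 := hπ.2.1
  have h1 : w = α ^ j * β ^ (-i) := by
    rw [hw, ha, hu, mul_zpow, mul_zpow, ← zpow_mul, ← zpow_mul]
    have h2 : π ^ (i * j) * π ^ (j * -i) = 1 := by
      rw [← zpow_add₀ hπ0]
      have : i * j + j * -i = 0 := by ring
      rw [this, zpow_zero]
    calc α ^ j * π ^ (i * j) * (β ^ (-i) * π ^ (j * -i)) =
        α ^ j * β ^ (-i) * (π ^ (i * j) * π ^ (j * -i)) := by ring
      _ = α ^ j * β ^ (-i) := by rw [h2, mul_one]
  obtain ⟨a0, a1, a2⟩ := un_zpow hα j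
  obtain ⟨b0, b1, b2⟩ := un_zpow hβ (-i)
  rw [h1]
  refine ⟨mul_ne_zero a0 b0, mul_mem a1 b1, ?_⟩
  rw [mul_inv]
  exact mul_mem a2 b2

theorem ex_XY {p : PrimeSpectrum A} {O : ValuationSubring K}
    (hO : IsLocO p.asIdeal O) (hinj : Function.Injective (algebraMap A K)) {w : K}
    (hw : IsUn O w) : ∃ X Y : A, X ∉ p.asIdeal ∧ Y ∉ p.asIdeal ∧
      w * algebraMap A K Y = algebraMap A K X := by
  obtain ⟨h0, h1, h2⟩ := hw
  obtain ⟨a, b, hb, hab⟩ := (hO _).mp h1
  obtain ⟨a', b', hb', hab'⟩ := (hO _).mp h2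
  refine ⟨a, b, ?_, hb, hab⟩
  intro ha
  have h3 : algebraMap A K (b * b') = algebraMap A K (a * a') := by
    rw [map_mul, map_mul, ← hab, ← hab']
    have h4 : w * algebraMap A K b * (w⁻¹ * algebraMap A K b') =
        (w * w⁻¹) * (algebraMap A K b * algebraMap A K b') := by ring
    rw [h4, mul_inv_cancel₀ h0, one_mul]
  have h4 : b * b' ∈ p.asIdeal := by
    rw [hinj h3]
    exact p.asIdeal.mul_mem_right _ ha
  exact (p.isPrime.mem_or_mem h4).elim hb hb'

theorem len_top {A : Type} [CommRing A] (I : Ideal A) (p : PrimeSpectrum A)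
    (h : ¬ I ≤ p.asIdeal) : len I p = 0 := by
  obtain ⟨x, hx, hxp⟩ := Set.not_subset.mp h
  have h1 : I.map (algebraMap A (Localization.AtPrime p.asIdeal)) = ⊤ := by
    apply Ideal.eq_top_of_isUnit_mem _ (Ideal.mem_map_of_mem _ hx)
    exact IsLocalization.map_units (Localization.AtPrime p.asIdeal)
      (⟨x, hxp⟩ : p.asIdeal.primeCompl)
  have h2 : Module.length (Localization.AtPrime p.asIdeal) (Localization.AtPrime p.asIdeal ⧸
    I.map (algebraMap A (Localization.AtPrime p.asIdeal))) = 0 := by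
    rw [h1, Module.length_eq_zero_iff]
    exact Ideal.Quotient.subsingleton_iff.mpr rfl
  unfold len
  rw [h2, ENat.toNat_zero]

end Loc

section Surj

variable {k S K C A : Type} [Field k] [CommRing S] [Algebra k S] [Algebra.FiniteType k S]
  [Field K] [Algebra k K] [CommRing C] [IsDomain C] [IsLocalRing C] [IsNoetherianRing C]
  [Algebra C K] [CommRing A] [IsDomain A] [Algebra C A] [Algebra A K] [IsScalarTower C A K]
  {θ : S →ₐ[k] K} {n : ℕ} {q : RP k S (n + 1 + 1)} {m : RP k S n} {γ : S →+* C}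

theorem surj (h1 : S_DIM1) (hHHA : S_HHA) (hVC2 : S_VC2) (hsit : Sit C A K)
    (H : Chart θ q.1 m.1 γ) (t : S) (O : ValuationSubring K) (h : ∀ s, θ s ∈ O)
    (z : RP k S (n + 1)) (hz : z.1.asIdeal = RingHom.ker (rhoO θ O h)) (ht : t ∈ z.1.asIdeal)
    (hzm : z.1.asIdeal ≤ m.1.asIdeal) :
    ∃ p ∈ HH A, algebraMap C A (γ t) ∈ p.asIdeal ∧ IsLocO p.asIdeal O := by
  have hfrA := hsit.frA
  have hfrC := hsit.frC
  have hic := hsit.ic
  have hfin := hsit.fin
  have hinjA : Function.Injective (algebraMap A K) := IsFractionRing.injective A K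
  have hinjC : Function.Injective (algebraMap C K) := IsFractionRing.injective C K
  obtain ⟨hNoe, -, hht, -, -, -, -, -, -⟩ := hHHA C A K hsit
  have hCO : ∀ c : C, algebraMap C K c ∈ O.toSubring := by
    intro c
    obtain ⟨s, t', ht', hst⟩ := H.frac c
    have h2 : t' ∉ RingHom.ker (rhoO θ O h) := by
      rw [← hz]
      exact fun h3 => ht' (hzm h3)
    have h3 : IsLocalRing.residue O ⟨θ t', h t'⟩ ≠ 0 := h2
    rw [Ne, residue_zero, not_or, not_not] at h3
    obtain ⟨h4, h5⟩ := h3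
    have h6 : algebraMap C K c = θ s * (θ t')⁻¹ := by
      have h7 : θ t' * algebraMap C K c = θ s := by
        rw [← H.comm, ← H.comm, ← map_mul, hst]
      rw [← h7, mul_comm (θ t'), mul_assoc, mul_inv_cancel₀ h4, mul_one]
    rw [h6]
    exact mul_mem (h s) h5
  have hAO : ∀ a : A, algebraMap A K a ∈ O.toSubring := by
    intro a
    have h2 : IsIntegral C (algebraMap A K a) :=
      IsIntegral.algebraMap (Algebra.IsIntegral.isIntegral a)
    have h3 : ((algebraMap O K).comp ((algebraMap C K).codRestrict O.toSubring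
        hCO)).IsIntegralElem (algebraMap A K a) := h2
    have h4 : IsIntegral O (algebraMap A K a) := h3.of_comp
    obtain ⟨y, hy⟩ := IsIntegrallyClosed.isIntegral_iff.mp h4
    have h5 : (y : K) = algebraMap A K a := hy
    rw [← h5]
    exact y.2
  let fA : A →+* O := (algebraMap A K).codRestrict O.toSubring hAO
  let p : PrimeSpectrum A := ⟨(IsLocalRing.maximalIdeal O).comap fA,
    Ideal.comap_isPrime _ _⟩
  have hmem : ∀ a : A, a ∈ p.asIdeal ↔ algebraMap A K a = 0 ∨ (algebraMap A K a)⁻¹ ∉ O := by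
    intro a
    have h2 : a ∈ p.asIdeal ↔ fA a ∈ IsLocalRing.maximalIdeal O := Iff.rfl
    rw [h2, ← IsLocalRing.residue_eq_zero_iff, residue_zero]
    exact Iff.rfl
  have hzz : PrimeSpectrum.comap γ (PrimeSpectrum.comap (algebraMap C A) p) = z.1 := by
    apply PrimeSpectrum.ext
    rw [hz]
    ext s
    have h2 : s ∈ (PrimeSpectrum.comap γ (PrimeSpectrum.comap (algebraMap C A) p)).asIdeal ↔
      algebraMap C A (γ s) ∈ p.asIdeal := Iff.rfl
    have h3 : s ∈ RingHom.ker (rhoO θ O h) ↔ IsLocalRing.residue O ⟨θ s, h s⟩ = 0 := Iff.rfl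
    rw [h2, h3, hmem, residue_zero, ← IsScalarTower.algebraMap_apply, H.comm]
  have hHC : PrimeSpectrum.comap (algebraMap C A) p ∈ HH C := by
    rw [hh_iff h1 H, hzz, z.2]
  have hpH : p ∈ HH A := by
    constructor
    · intro h2
      apply hHC.1
      rw [eq_bot_iff]
      intro c hc
      have h3 : algebraMap C A c ∈ p.asIdeal := hc
      rw [h2, Ideal.mem_bot] at h3
      have h4 : algebraMap C K c = 0 := by
        rw [IsScalarTower.algebraMap_apply C A K, h3, map_zero]
      exact (map_eq_zero_iff _ hinjC).mp h4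
    · intro h2
      apply hHC.2
      exact Ideal.isMaximal_comap_of_isIntegral_of_isMaximal p.asIdeal
  refine ⟨p, hpH, ?_, ?_⟩
  · have h2 : t ∈ (PrimeSpectrum.comap γ (PrimeSpectrum.comap (algebraMap C A) p)).asIdeal := by
      rw [hzz]
      exact ht
    exact h2
  · exact (hVC2 A K p hpH.1 (hht p hpH) O).mp ⟨hAO, hmem⟩

theorem core (h1 : S_DIM1) (hHHA : S_HHA) (hVC1 : S_VC1) (hVC2 : S_VC2) (hREC : S_REC)
    (hNM : S_NM) (hsit : Sit C A K) (H : Chart θ q.1 m.1 γ) (t x : S)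
    (htq : t ∉ q.1.asIdeal) (hxq : x ∉ q.1.asIdeal)
    (Z : Finset (RP k S (n + 1))) (W : Finset (ValuationSubring K))
    (g : ValuationSubring K → ℤ) (hZ1 : ∀ z ∈ Z, t ∉ z.1.asIdeal)
    (hZ2 : ∀ z : RP k S (n + 1), x ∈ z.1.asIdeal → q.1.asIdeal ≤ z.1.asIdeal →
      z.1.asIdeal ≤ m.1.asIdeal → t ∉ z.1.asIdeal → z ∈ Z)
    (hW : ∀ O : ValuationSubring K, O ∈ W ↔ ∃ (h : ∀ s, θ s ∈ O) (z : RP k S (n + 1)),
      z.1.asIdeal = RingHom.ker (rhoO θ O h) ∧ t ∈ z.1.asIdeal ∧ z.1.asIdeal ≤ m.1.asIdeal)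
    (hg : ∀ O ∈ W, ∀ (h : ∀ s, θ s ∈ O), ∃ (w : O) (b c : S),
      IsTame O (θ x) (θ t) (w : K) ∧ IsNm (rhoO θ O h) (IsLocalRing.residue O w) b c ∧
      g O = (len (RingHom.ker (rhoO θ O h) ⊔ Ideal.span {b}) m.1 : ℤ) -
        len (RingHom.ker (rhoO θ O h) ⊔ Ideal.span {c}) m.1) :
    ∑ z ∈ Z, (len (q.1.asIdeal ⊔ Ideal.span {x}) z.1 : ℤ) *
      len (z.1.asIdeal ⊔ Ideal.span {t}) m.1 = ∑ O ∈ W, g O := by
  classical
  have hfrA := hsit.frA
  have hfrC := hsit.frC
  have hic := hsit.ic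
  have hfin := hsit.fin
  have hinjA : Function.Injective (algebraMap A K) := IsFractionRing.injective A K
  have hinjC : Function.Injective (algebraMap C K) := IsFractionRing.injective C K
  obtain ⟨hNoe, hcomap, hht, hfinx, -, -, -, -, -⟩ := hHHA C A K hsit
  have ht0 : γ t ≠ 0 := fun h => htq ((H.ker t).mp h)
  have hx0 : γ x ≠ 0 := fun h => hxq ((H.ker x).mp h)
  have htA : algebraMap C A (γ t) ≠ 0 := by
    intro h
    apply ht0
    apply (map_eq_zero_iff _ hinjC).mp
    rw [IsScalarTower.algebraMap_apply C A K, h, map_zero]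
  -- the valuation rings
  have hex : ∀ p : PrimeSpectrum A, ∃ O : ValuationSubring K, p ∈ HH A → IsLocO p.asIdeal O := by
    intro p
    by_cases hp : p ∈ HH A
    · obtain ⟨O, hO, -⟩ := hVC1 A K p hp.1 (hht p hp)
      exact ⟨O, fun _ => hO⟩
    · exact ⟨⊤, fun h => absurd h hp⟩
  choose Of hOf using hex
  have hθ : ∀ p ∈ HH A, ∀ s, θ s ∈ Of p := by
    intro p hp s
    rw [← H.comm]
    exact memC_O p.isPrime (hOf p hp) (γ s)
  let WA : Finset (PrimeSpectrum A) := (hfinx _ htA).toFinset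
  have hWA : ∀ p, p ∈ WA ↔ p ∈ HH A ∧ algebraMap C A (γ t) ∈ p.asIdeal := by
    intro p
    exact Set.Finite.mem_toFinset _
  have hWO : ∀ p ∈ WA, Of p ∈ W := by
    intro p hp
    obtain ⟨hpH, hpt⟩ := (hWA p).mp hp
    have hHC := hcomap p hpH
    rw [hh_iff h1 H] at hHC
    rw [hW]
    refine ⟨hθ p hpH, ⟨_, hHC⟩, (ker_rho H (hOf p hpH) hinjA _).symm, hpt, ?_⟩
    exact comap_le H _
  -- the finite set of primes of `C`
  have hZfin : {z : PrimeSpectrum C | z ∈ HH C ∧ γ x ∈ z.asIdeal ∧ γ t ∉ z.asIdeal}.Finite := by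
    have h2 : {z : PrimeSpectrum C | z ∈ HH C ∧ γ x ∈ z.asIdeal ∧ γ t ∉ z.asIdeal} ⊆
        (PrimeSpectrum.comap γ) ⁻¹' (Subtype.val '' (Z : Set (RP k S (n + 1)))) := by
      rintro z ⟨hz1, hz2, hz3⟩
      rw [hh_iff h1 H] at hz1
      refine ⟨⟨PrimeSpectrum.comap γ z, hz1⟩, ?_, rfl⟩
      exact hZ2 ⟨PrimeSpectrum.comap γ z, hz1⟩ hz2 (le_comap H z) (comap_le H z) hz3
    refine Set.Finite.subset (Set.Finite.preimage ?_ (Z.finite_toSet.image _)) h2
    intro z _ z' _ h
    exact eq_of_comap H h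
  let ZC : Finset (PrimeSpectrum C) := hZfin.toFinset
  have hZC : ∀ z, z ∈ ZC ↔ z ∈ HH C ∧ γ x ∈ z.asIdeal ∧ γ t ∉ z.asIdeal := by
    intro z
    exact Set.Finite.mem_toFinset _
  -- the local data
  have hdata : ∀ p : PrimeSpectrum A, ∃ X Y : A, p ∈ WA → (X ∉ p.asIdeal ∧ Y ∉ p.asIdeal ∧
      IsTame (Of p) (algebraMap C K (γ x)) (algebraMap C K (γ t))
        (algebraMap A K X / algebraMap A K Y)) ∧
      ((lC C (A ⧸ (p.asIdeal ⊔ Ideal.span {X})) : ℤ) -
        lC C (A ⧸ (p.asIdeal ⊔ Ideal.span {Y})) = g (Of p)) := by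
    intro p
    by_cases hp : p ∈ WA
    · have hpH := ((hWA p).mp hp).1
      obtain ⟨w, b, c, hw, hn, hgO⟩ := hg (Of p) (hWO p hp) (hθ p hpH)
      obtain ⟨X, Y, hX, hY, hXY⟩ := ex_XY (hOf p hpH) hinjA (tame_unit hw)
      have hY0 : algebraMap A K Y ≠ 0 := by
        intro h
        apply hY
        rw [(map_eq_zero_iff _ hinjA).mp h]
        exact p.asIdeal.zero_mem
      refine ⟨X, Y, fun _ => ⟨⟨hX, hY, ?_⟩, ?_⟩⟩
      · rw [H.comm, H.comm, ← hXY, mul_div_cancel_right₀ _ hY0]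
        exact hw
      · have h2 := local_eq hHHA hNM hsit H p hpH (Of p) (hOf p hpH) (hθ p hpH) w b c hn X Y
          hX hY hXY
        rw [h2, hgO, ker_rho H (hOf p hpH) hinjA, len_m H, len_m H]
        rfl
    · exact ⟨0, 0, fun h => absurd h hp⟩
  choose X Y hXY using hdata
  have hrec := hREC C A K hsit (γ x) (γ t) hx0 ht0 Of WA ZC X Y hOf hWA hZC
    (fun p hp => (hXY p hp).1)
  -- the left side
  have hleft : ∑ z ∈ Z, (len (q.1.asIdeal ⊔ Ideal.span {x}) z.1 : ℤ) *
      len (z.1.asIdeal ⊔ Ideal.span {t}) m.1 =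
      ∑ z ∈ ZC, (len (Ideal.span {γ x}) z : ℤ) *
        lC C (C ⧸ (z.asIdeal ⊔ Ideal.span {γ t})) := by
    let G : PrimeSpectrum S → ℤ := fun P => (len (q.1.asIdeal ⊔ Ideal.span {x}) P : ℤ) *
      len (P.asIdeal ⊔ Ideal.span {t}) m.1
    have h2 : ∑ z ∈ Z, G z.1 = ∑ P ∈ Z.map ⟨Subtype.val, Subtype.val_injective⟩, G P :=
      (Finset.sum_map Z ⟨Subtype.val, Subtype.val_injective⟩ G).symm
    change ∑ z ∈ Z, G z.1 = _
    rw [h2]
    symm
    apply Finset.sum_of_injOn (PrimeSpectrum.comap γ)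
    · intro z _ z' _ h
      exact eq_of_comap H h
    · intro z hz
      obtain ⟨hz1, hz2, hz3⟩ := (hZC z).mp hz
      rw [hh_iff h1 H] at hz1
      rw [Finset.mem_coe]
      exact Finset.mem_map.mpr ⟨⟨PrimeSpectrum.comap γ z, hz1⟩,
        hZ2 ⟨PrimeSpectrum.comap γ z, hz1⟩ hz2 (le_comap H z) (comap_le H z) hz3, rfl⟩
    · intro P hP hP2
      obtain ⟨z, hz, rfl⟩ := Finset.mem_map.mp hP
      by_contra h3
      apply hP2
      have h4 := left_ne_zero_of_mul h3
      have h5 := right_ne_zero_of_mul h3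
      have h6 : q.1.asIdeal ⊔ Ideal.span {x} ≤ z.1.asIdeal := by
        by_contra h7
        exact h4 (by exact_mod_cast len_top _ _ h7)
      have h7 : z.1.asIdeal ⊔ Ideal.span {t} ≤ m.1.asIdeal := by
        by_contra h7
        exact h5 (by exact_mod_cast len_top _ _ h7)
      obtain ⟨z', hz'⟩ := exists_prime H z.1 (le_sup_left.trans h6) (le_sup_left.trans h7)
      refine ⟨z', ?_, hz'⟩
      rw [Finset.mem_coe, hZC, hh_iff h1 H, hz']
      refine ⟨z.2, ?_, ?_⟩
      · have h8 : x ∈ (PrimeSpectrum.comap γ z').asIdeal := by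
          rw [hz']
          exact h6 (Ideal.mem_sup_right (Ideal.mem_span_singleton_self _))
        exact h8
      · intro h8
        have h9 : t ∈ (PrimeSpectrum.comap γ z').asIdeal := h8
        rw [hz'] at h9
        exact hZ1 z hz h9
    · intro z hz
      change _ = (len (q.1.asIdeal ⊔ Ideal.span {x}) (PrimeSpectrum.comap γ z) : ℤ) *
        len ((PrimeSpectrum.comap γ z).asIdeal ⊔ Ideal.span {t}) m.1
      rw [len_z H, len_m H]
  -- the right side
  have hright : ∑ p ∈ WA, ((lC C (A ⧸ (p.asIdeal ⊔ Ideal.span {X p})) : ℤ) -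
      lC C (A ⧸ (p.asIdeal ⊔ Ideal.span {Y p}))) = ∑ O ∈ W, g O := by
    apply Finset.sum_of_injOn Of
    · intro p hp p' hp' h
      have hpH := ((hWA p).mp hp).1
      have hpH' := ((hWA p').mp hp').1
      have h2 := (hVC2 A K p hpH.1 (hht p hpH) (Of p)).mpr (hOf p hpH)
      have h3 := (hVC2 A K p' hpH'.1 (hht p' hpH') (Of p')).mpr (hOf p' hpH')
      apply PrimeSpectrum.ext
      ext a
      rw [h2.2, h3.2, h]
    · intro p hp
      exact hWO p hp
    · intro O hO hO2
      exfalso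
      apply hO2
      obtain ⟨h, z, hz, htz, hzm⟩ := (hW O).mp hO
      obtain ⟨p, hpH, hpt, hpO⟩ := surj (A := A) h1 hHHA hVC2 hsit H t O h z hz htz hzm
      refine ⟨p, (hWA p).mpr ⟨hpH, hpt⟩, ?_⟩
      ext y
      rw [hOf p hpH y, hpO y]
    · intro p hp
      exact (hXY p hp).2
  rw [hleft, hrec, hright]

end Surj

section Final

variable {k S K B : Type} [Field k] [PerfectField k] [CommRing S] [Algebra k S]
  [Algebra.FiniteType k S] [Field K] [Algebra k K] [CommRing B] [IsDomain B] [Algebra k B]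
  [Algebra.FiniteType k B] [Algebra B K] [IsFractionRing B K]
  {θ : S →ₐ[k] K} {n : ℕ} {q : RP k S (n + 1 + 1)} {m : RP k S n}

theorem lenB (hLA : S_LENA) (hLB : S_LENB) {S B : Type} [CommRing S] [CommRing B]
    (π : S →+* B) (hπ : Function.Surjective π) (M : Ideal B) [M.IsPrime]
    (I : Ideal S) (hI : RingHom.ker π ≤ I) (z : PrimeSpectrum (Localization.AtPrime M)) :
    len (I.map ((algebraMap B (Localization.AtPrime M)).comp π)) z =
      len I (PrimeSpectrum.comap ((algebraMap B (Localization.AtPrime M)).comp π) z) := by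
  have hflat : (algebraMap B (Localization.AtPrime M)).Flat := by
    have h1 : Module.Flat B (Localization.AtPrime M) := IsLocalization.flat _ M.primeCompl
    exact (RingHom.flat_algebraMap_iff).mpr h1
  have hmax : IsLocalRing.maximalIdeal (Localization.AtPrime z.asIdeal) ≤
      (PrimeSpectrum.comap (algebraMap B (Localization.AtPrime M)) z).asIdeal.map
        ((algebraMap (Localization.AtPrime M) (Localization.AtPrime z.asIdeal)).comp
          (algebraMap B (Localization.AtPrime M))) := by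
    have h1 : (PrimeSpectrum.comap (algebraMap B (Localization.AtPrime M)) z).asIdeal.map
        (algebraMap B (Localization.AtPrime M)) = z.asIdeal :=
      IsLocalization.map_under M.primeCompl (Localization.AtPrime M) z.asIdeal
    rw [← Ideal.map_map, h1, Localization.AtPrime.map_eq_maximalIdeal]
  have e1 := hLB B (Localization.AtPrime M) (algebraMap B (Localization.AtPrime M)) z hflat
    hmax (I.map π)
  have e2 := hLA S B π hπ (I.map π)
    (PrimeSpectrum.comap (algebraMap B (Localization.AtPrime M)) z)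
  have h3 : (I.map π).comap π = I := by
    rw [Ideal.comap_map_of_surjective π hπ]
    exact sup_eq_left.mpr hI
  rw [h3] at e2
  rw [← Ideal.map_map, e1, ← e2]
  rfl

theorem final (h1 : S_DIM1) (hLA : S_LENA) (hLB : S_LENB) (hHHA : S_HHA) (hVC1 : S_VC1)
    (hVC2 : S_VC2) (hREC : S_REC) (hNM : S_NM) (hFINL : S_FINL) (π : S →+* B)
    (hπ : Function.Surjective π) (hker : RingHom.ker π = q.1.asIdeal)
    (hπK : ∀ s, algebraMap B K (π s) = θ s) (M : Ideal B) [M.IsPrime]
    (hM : M.comap π = m.1.asIdeal) (t x : S)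
    (htq : t ∉ q.1.asIdeal) (hxq : x ∉ q.1.asIdeal)
    (Z : Finset (RP k S (n + 1))) (W : Finset (ValuationSubring K))
    (g : ValuationSubring K → ℤ) (hZ1 : ∀ z ∈ Z, t ∉ z.1.asIdeal)
    (hZ2 : ∀ z : RP k S (n + 1), x ∈ z.1.asIdeal → q.1.asIdeal ≤ z.1.asIdeal →
      z.1.asIdeal ≤ m.1.asIdeal → t ∉ z.1.asIdeal → z ∈ Z)
    (hW : ∀ O : ValuationSubring K, O ∈ W ↔ ∃ (h : ∀ s, θ s ∈ O) (z : RP k S (n + 1)),
      z.1.asIdeal = RingHom.ker (rhoO θ O h) ∧ t ∈ z.1.asIdeal ∧ z.1.asIdeal ≤ m.1.asIdeal)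
    (hg : ∀ O ∈ W, ∀ (h : ∀ s, θ s ∈ O), ∃ (w : O) (b c : S),
      IsTame O (θ x) (θ t) (w : K) ∧ IsNm (rhoO θ O h) (IsLocalRing.residue O w) b c ∧
      g O = (len (RingHom.ker (rhoO θ O h) ⊔ Ideal.span {b}) m.1 : ℤ) -
        len (RingHom.ker (rhoO θ O h) ⊔ Ideal.span {c}) m.1) :
    ∑ z ∈ Z, (len (q.1.asIdeal ⊔ Ideal.span {x}) z.1 : ℤ) *
      len (z.1.asIdeal ⊔ Ideal.span {t}) m.1 = ∑ O ∈ W, g O := by
  have hle : M.primeCompl ≤ nonZeroDivisors B := M.primeCompl_le_nonZeroDivisors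
  let _ : Algebra (Localization.AtPrime M) K :=
    IsLocalization.localizationAlgebraOfSubmonoidLe (Localization.AtPrime M) K M.primeCompl
      (nonZeroDivisors B) hle
  have hst : IsScalarTower B (Localization.AtPrime M) K :=
    IsLocalization.localization_isScalarTower_of_submonoid_le (Localization.AtPrime M) K M.primeCompl
      (nonZeroDivisors B) hle
  have hdom : IsDomain (Localization.AtPrime M) := IsLocalization.isDomain_localization hle
  have hfr : IsFractionRing (Localization.AtPrime M) K :=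
    IsFractionRing.isFractionRing_of_isDomain_of_isLocalization M.primeCompl
      (Localization.AtPrime M) K
  have hNB : IsNoetherianRing B := Algebra.FiniteType.isNoetherianRing k B
  have hNC : IsNoetherianRing (Localization.AtPrime M) :=
    IsLocalization.isNoetherianRing M.primeCompl _ hNB
  have hinj : Function.Injective (algebraMap B (Localization.AtPrime M)) :=
    IsLocalization.injective (Localization.AtPrime M) hle
  have hmM : ∀ s, s ∈ m.1.asIdeal ↔ π s ∈ M := by
    intro s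
    rw [← hM]
    exact Iff.rfl
  have hfin := hFINL k B (Localization.AtPrime M) K M
  have H : Chart θ q.1 m.1 ((algebraMap B (Localization.AtPrime M)).comp π) := by
    refine ⟨?_, ?_, ?_, ?_, ?_, ?_⟩
    · intro s
      rw [RingHom.comp_apply, ← IsScalarTower.algebraMap_apply, hπK]
    · intro s
      rw [RingHom.comp_apply, map_eq_zero_iff _ hinj, ← hker]
      exact Iff.rfl
    · intro s hs
      rw [hmM] at hs
      exact IsLocalization.map_units (Localization.AtPrime M) (⟨π s, hs⟩ : M.primeCompl)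
    · intro c
      obtain ⟨b, u, rfl⟩ := IsLocalization.exists_mk'_eq M.primeCompl c
      obtain ⟨s, rfl⟩ := hπ b
      obtain ⟨t', ht'⟩ := hπ u.1
      refine ⟨s, t', ?_, ?_⟩
      · rw [hmM, ht']
        exact u.2
      · rw [RingHom.comp_apply, RingHom.comp_apply, ht', IsLocalization.mk'_spec']
    · intro s hs
      rw [hmM] at hs
      exact (IsLocalization.AtPrime.to_map_mem_maximal_iff (Localization.AtPrime M) M
        (π s)).mpr hs
    · intro I hI z
      exact lenB hLA hLB π hπ M I (by rw [hker]; exact hI) z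
  exact core h1 hHHA hVC1 hVC2 hREC hNM (sit h1 H hfin) H t x htq hxq Z W g hZ1 hZ2 hW hg

end Final

end GREC

theorem t_GREC : M_GREC := by
  intro h1 hLA hLB hHHA hVC1 hVC2 hREC hNM hFINL k S K _ _ _ _ _ _ _ n θ q m t x hfrac hq htm
    htq hxq Z W g hZ1 hZ2 hW hg
  by_cases hqm : q.1.asIdeal ≤ m.1.asIdeal
  · have hqp : q.1.asIdeal.IsPrime := q.1.isPrime
    let _ : Algebra (S ⧸ q.1.asIdeal) K :=
      (Ideal.Quotient.lift q.1.asIdeal θ.toRingHom (fun a ha => by
        rw [hq] at ha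
        exact ha)).toAlgebra
    have hπK : ∀ s, algebraMap (S ⧸ q.1.asIdeal) K (Ideal.Quotient.mk q.1.asIdeal s) = θ s :=
      fun s => Ideal.Quotient.lift_mk _ _ _
    have hinj : Function.Injective (algebraMap (S ⧸ q.1.asIdeal) K) := by
      rw [injective_iff_map_eq_zero]
      intro b hb
      obtain ⟨s, rfl⟩ := Ideal.Quotient.mk_surjective b
      rw [hπK] at hb
      rw [Ideal.Quotient.eq_zero_iff_mem, hq]
      exact hb
    have hfs : FaithfulSMul (S ⧸ q.1.asIdeal) K :=
      (faithfulSMul_iff_algebraMap_injective _ _).mpr hinj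
    have hfr : IsFractionRing (S ⧸ q.1.asIdeal) K := by
      apply IsFractionRing.of_field
      intro y
      obtain ⟨a, b, hb, hab⟩ := hfrac y
      refine ⟨Ideal.Quotient.mk q.1.asIdeal a, Ideal.Quotient.mk q.1.asIdeal b, ?_⟩
      rw [hπK, hπK, ← hab, mul_div_cancel_right₀ _ hb]
    have hMp : (m.1.asIdeal.map (Ideal.Quotient.mk q.1.asIdeal)).IsPrime := by
      apply Ideal.map_isPrime_of_surjective Ideal.Quotient.mk_surjective
      rw [Ideal.mk_ker]
      exact hqm
    exact GREC.final h1 hLA hLB hHHA hVC1 hVC2 hREC hNM hFINL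
      (Ideal.Quotient.mk q.1.asIdeal) Ideal.Quotient.mk_surjective Ideal.mk_ker hπK
      (m.1.asIdeal.map (Ideal.Quotient.mk q.1.asIdeal)) (Ideal.comap_map_mk hqm) t x htq hxq Z W
      g hZ1 hZ2 hW hg
  · have hW0 : W = ∅ := by
      rw [Finset.eq_empty_iff_forall_notMem]
      intro O hO
      obtain ⟨h, z, hz, -, hzm⟩ := (hW O).mp hO
      apply hqm
      refine le_trans ?_ hzm
      rw [hq, hz]
      intro s hs
      have h2 : θ s = 0 := hs
      have h3 : (⟨θ s, h s⟩ : O) = 0 := Subtype.ext h2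
      have h4 : rhoO θ O h s = IsLocalRing.residue O ⟨θ s, h s⟩ := rfl
      rw [RingHom.mem_ker, h4, h3, map_zero]
    rw [hW0, Finset.sum_empty]
    apply Finset.sum_eq_zero
    intro z hz
    by_cases h2 : q.1.asIdeal ≤ z.1.asIdeal
    · have h3 : ¬ z.1.asIdeal ⊔ Ideal.span {t} ≤ m.1.asIdeal :=
        fun h4 => hqm (h2.trans (le_sup_left.trans h4))
      rw [GREC.len_top _ _ h3, Nat.cast_zero, mul_zero]
    · have h3 : ¬ q.1.asIdeal ⊔ Ideal.span {x} ≤ z.1.asIdeal :=
        fun h4 => h2 (le_sup_left.trans h4)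
      rw [GREC.len_top _ _ h3, Nat.cast_zero, zero_mul]

end CUB


end

section

set_option autoImplicit false

namespace CUB

namespace NM

/-- The length of `(A / p) / x` over a quotient ring of `C`. -/
lemma length_quot {C A B : Type} [CommRing C] [CommRing A] [Algebra C A] [CommRing B]
    [Algebra C B] (p : Ideal A) [Algebra B (A ⧸ p)] [IsScalarTower C B (A ⧸ p)]
    (hs : Function.Surjective (algebraMap C B)) (x : A) :
    Module.length B ((A ⧸ p) ⧸ Ideal.span {Ideal.Quotient.mk p x}) =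
      Module.length C (A ⧸ (p ⊔ Ideal.span {x})) := by
  rw [← Module.length_eq_of_surjective (S := C) hs]
  have h : Ideal.span {Ideal.Quotient.mk p x} =
      (Ideal.span {x}).map (Ideal.Quotient.mkₐ C p) := by
    rw [Ideal.map_span, Set.image_singleton]
    rfl
  rw [h]
  exact LinearEquiv.length_eq (DoubleQuot.quotQuotEquivQuotSupₐ C p (Ideal.span {x})).toLinearEquiv

lemma core (hN : S_NORM) {C A L : Type} [CommRing C] [IsNoetherianRing C] [CommRing A]
    [Field L] [Algebra C A] [Module.Finite C A] (p : Ideal A) [hp : p.IsPrime] (ρ : C →+* L)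
    (σ : A →+* L) (hσρ : ∀ c, σ (algebraMap C A c) = ρ c) (hker : ∀ a, σ a = 0 ↔ a ∈ p)
    (hfrac : ∀ y : L, ∃ a b : A, σ b ≠ 0 ∧ y * σ b = σ a)
    (hlen : ∀ x : C, x ∉ p.comap (algebraMap C A) →
      Module.length C (C ⧸ (p.comap (algebraMap C A) ⊔ Ideal.span {x})) ≠ ⊤)
    (x : A) (b c : C) (hx : x ∉ p) (hnm : IsNm ρ (σ x) b c) :
    Module.length C (A ⧸ (p ⊔ Ideal.span {x})) +
        Module.length C (C ⧸ (p.comap (algebraMap C A) ⊔ Ideal.span {c})) =
      Module.length C (C ⧸ (p.comap (algebraMap C A) ⊔ Ideal.span {b})) := by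
  classical
  set P : Ideal C := p.comap (algebraMap C A) with hPdef
  have hPp : P.IsPrime := Ideal.comap_isPrime _ _
  let F : Subfield L := Subfield.closure (Set.range ρ)
  have hkerρ : ∀ c, ρ c = 0 ↔ c ∈ P := by
    intro c
    rw [← hσρ, hker]
    rfl
  -- the homomorphisms
  let ρF : C →+* F := ρ.codRestrict F (fun c => Subfield.subset_closure ⟨c, rfl⟩)
  have hρF : ∀ c, ((ρF c : F) : L) = ρ c := fun c => rfl
  let ρB : C ⧸ P →+* F := Ideal.Quotient.lift P ρF (fun a ha => by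
    apply Subtype.ext
    exact (hkerρ a).mpr ha)
  let σB : A ⧸ p →+* L := Ideal.Quotient.lift p σ (fun a ha => (hker a).mpr ha)
  let algBF : Algebra (C ⧸ P) F := ρB.toAlgebra
  let algB1L : Algebra (A ⧸ p) L := σB.toAlgebra
  let algBL : Algebra (C ⧸ P) L := ((algebraMap F L).comp ρB).toAlgebra
  have hmapF : ∀ c : C, algebraMap (C ⧸ P) F (Ideal.Quotient.mk P c) = ρF c := fun c => rfl
  have hmapL : ∀ a : A, algebraMap (A ⧸ p) L (Ideal.Quotient.mk p a) = σ a := fun a => rfl
  have hmap1 : ∀ c : C, algebraMap (C ⧸ P) (A ⧸ p) (Ideal.Quotient.mk P c) =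
      Ideal.Quotient.mk p (algebraMap C A c) := fun c => rfl
  have st1 : IsScalarTower (C ⧸ P) F L := IsScalarTower.of_algebraMap_eq (fun c => rfl)
  have st2 : IsScalarTower (C ⧸ P) (A ⧸ p) L := IsScalarTower.of_algebraMap_eq (by
    intro c
    obtain ⟨c, rfl⟩ := Ideal.Quotient.mk_surjective c
    rw [hmap1, hmapL, hσρ]
    rfl)
  have : IsDomain (C ⧸ P) := Ideal.Quotient.isDomain P
  have : IsDomain (A ⧸ p) := Ideal.Quotient.isDomain p
  have injF : Function.Injective (algebraMap (C ⧸ P) F) := by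
    rw [injective_iff_map_eq_zero]
    intro c hc
    obtain ⟨c, rfl⟩ := Ideal.Quotient.mk_surjective c
    rw [hmapF] at hc
    rw [Ideal.Quotient.eq_zero_iff_mem, ← hkerρ, ← hρF, hc]
    rfl
  have injL : Function.Injective (algebraMap (A ⧸ p) L) := by
    rw [injective_iff_map_eq_zero]
    intro c hc
    obtain ⟨c, rfl⟩ := Ideal.Quotient.mk_surjective c
    rw [hmapL] at hc
    rw [Ideal.Quotient.eq_zero_iff_mem, ← hker, hc]
  have frF : IsFractionRing (C ⧸ P) F := by
    have : FaithfulSMul (C ⧸ P) F := (faithfulSMul_iff_algebraMap_injective _ _).mpr injF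
    refine IsFractionRing.of_field _ _ ?_
    intro z
    obtain ⟨y, hy, w, hw, hyw⟩ := Subfield.mem_closure_iff.mp z.2
    have hcl : Subring.closure (Set.range ρ) = ρ.range := by
      rw [← RingHom.coe_range, Subring.closure_eq]
    rw [hcl] at hy hw
    obtain ⟨y, rfl⟩ := hy
    obtain ⟨w, rfl⟩ := hw
    refine ⟨Ideal.Quotient.mk P y, Ideal.Quotient.mk P w, ?_⟩
    apply Subtype.ext
    rw [hmapF, hmapF]
    exact hyw.symm
  have frL : IsFractionRing (A ⧸ p) L := by
    have : FaithfulSMul (A ⧸ p) L := (faithfulSMul_iff_algebraMap_injective _ _).mpr injL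
    refine IsFractionRing.of_field _ _ ?_
    intro z
    obtain ⟨a, b, hb, hab⟩ := hfrac z
    refine ⟨Ideal.Quotient.mk p a, Ideal.Quotient.mk p b, ?_⟩
    rw [hmapL, hmapL, ← hab]
    field_simp
  have finB : Module.Finite (C ⧸ P) (A ⧸ p) := by
    have : Module.Finite C (A ⧸ p) := Module.Finite.of_surjective
      (Ideal.Quotient.mkₐ C p).toLinearMap Ideal.Quotient.mk_surjective
    have : IsScalarTower C (C ⧸ P) (A ⧸ p) := IsScalarTower.of_algebraMap_eq (fun c => rfl)
    exact Module.Finite.of_restrictScalars_finite C (C ⧸ P) (A ⧸ p)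
  have finL : Module.Finite F L := by
    have : FaithfulSMul (C ⧸ P) (A ⧸ p) :=
      (faithfulSMul_iff_algebraMap_injective _ _).mpr Ideal.algebraMap_quotient_injective
    have : Algebra.IsIntegral (C ⧸ P) (A ⧸ p) := Algebra.IsIntegral.of_finite _ _
    exact Module.Finite.of_isLocalization (C ⧸ P) (A ⧸ p) (nonZeroDivisors (C ⧸ P))
  obtain ⟨hb, hc, hn⟩ := hnm
  have stC : IsScalarTower C (C ⧸ P) (A ⧸ p) := IsScalarTower.of_algebraMap_eq (fun c => rfl)
  have stC2 : IsScalarTower C (C ⧸ P) (C ⧸ P) := IsScalarTower.of_algebraMap_eq (fun c => rfl)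
  have hs : Function.Surjective (algebraMap C (C ⧸ P)) := Ideal.Quotient.mk_surjective
  have key := hN (C ⧸ P) (A ⧸ p) F L (by
    intro y hy
    obtain ⟨y, rfl⟩ := Ideal.Quotient.mk_surjective y
    rw [length_quot (C := C) (B := C ⧸ P) P hs y]
    apply hlen
    intro h
    exact hy (Ideal.Quotient.eq_zero_iff_mem.mpr h))
    (Ideal.Quotient.mk p x) (Ideal.Quotient.mk P b) (Ideal.Quotient.mk P c)
    (fun h => hx (Ideal.Quotient.eq_zero_iff_mem.mp h))
    (fun h => hb ((hkerρ b).mpr (Ideal.Quotient.eq_zero_iff_mem.mp h)))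
    (fun h => hc ((hkerρ c).mpr (Ideal.Quotient.eq_zero_iff_mem.mp h)))
    (by
      apply Subtype.ext
      rw [hmapL, hmapF, hmapF]
      exact hn)
  rw [length_quot (C := C) (B := C ⧸ P) p hs x, length_quot (C := C) (B := C ⧸ P) P hs c,
    length_quot (C := C) (B := C ⧸ P) P hs b] at key
  exact key

end NM

theorem t_NM : M_NM := by
  intro hH hV hN C A K _ _ _ _ _ _ _ _ _ _ _ hS p hp O hO ρ hρ x w b c hx hw hnm
  obtain ⟨hnoeth, h2, h3, h4, h5, h6, h7, h8, h9⟩ := hH C A K hS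
  have := hS.fin
  have := hS.frA
  have := hS.ic
  have := hnoeth
  have hV1 := ((hV A K p hp.1 (h3 p hp) O).mpr hO)
  obtain ⟨hAO, hmem⟩ := hV1
  let σ : A →+* IsLocalRing.ResidueField O :=
    (IsLocalRing.residue O).comp ((algebraMap A K).codRestrict O.toSubring hAO)
  have hσ : ∀ a, σ a = IsLocalRing.residue O ⟨algebraMap A K a, hAO a⟩ := fun a => rfl
  have hinj : Function.Injective (algebraMap A K) := IsFractionRing.injective A K
  have hker : ∀ a, σ a = 0 ↔ a ∈ p.asIdeal := by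
    intro a
    rw [hσ, IsLocalRing.residue_eq_zero_iff, IsLocalRing.mem_maximalIdeal, mem_nonunits_iff, hmem]
    by_cases ha : algebraMap A K a = 0
    · exact ⟨fun _ => Or.inl ha, fun _ hu => hu.ne_zero (Subtype.ext ha)⟩
    · rw [or_iff_right ha, not_iff_not]
      constructor
      · rintro ⟨u, hu⟩
        have h1 : ((u : O) : K) * (((u⁻¹ : (O : Type)ˣ) : O) : K) = 1 :=
          congrArg Subtype.val u.mul_inv
        have h2 : ((u : O) : K) = algebraMap A K a := congrArg Subtype.val hu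
        rw [h2] at h1
        have h3 : (algebraMap A K a)⁻¹ = (((u⁻¹ : (O : Type)ˣ) : O) : K) :=
          inv_eq_of_mul_eq_one_left (by rw [mul_comm]; exact h1)
        rw [h3]
        exact SetLike.coe_mem _
      · intro h
        refine IsUnit.of_mul_eq_one (⟨(algebraMap A K a)⁻¹, h⟩ : O) ?_
        apply Subtype.ext
        exact mul_inv_cancel₀ ha
  have hσρ : ∀ c, σ (algebraMap C A c) = ρ c := by
    intro c
    have h1 : algebraMap C K c ∈ O := by
      rw [IsScalarTower.algebraMap_apply C A K]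
      exact hAO _
    rw [hρ c h1, hσ]
    congr 1
    apply Subtype.ext
    exact (IsScalarTower.algebraMap_apply C A K c).symm
  have hfrac : ∀ y : IsLocalRing.ResidueField O, ∃ a b : A, σ b ≠ 0 ∧ y * σ b = σ a := by
    intro y
    obtain ⟨y, rfl⟩ := IsLocalRing.residue_surjective y
    obtain ⟨a, b, hb, hab⟩ := (hO (y : K)).mp y.2
    refine ⟨a, b, fun h => hb ((hker b).mp h), ?_⟩
    rw [hσ, hσ, ← map_mul]
    congr 1
    apply Subtype.ext
    exact hab
  have hxw : IsLocalRing.residue O w = σ x := by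
    rw [hσ]
    congr 1
    apply Subtype.ext
    exact hw
  rw [hxw] at hnm
  have : p.asIdeal.IsPrime := p.isPrime
  have hz : PrimeSpectrum.comap (algebraMap C A) p ∈ HH C := h2 p hp
  have key := NM.core hN p.asIdeal ρ σ hσρ hker hfrac (fun y hy => h8 _ hz y hy) x b c hx hnm
  have f1 := h5 p hp x hx
  have f2 := h8 _ hz c (fun h => hnm.2.1 (by rw [← hσρ, hker]; exact h))
  have f3 : lC C (C ⧸ (p.asIdeal.comap (algebraMap C A) ⊔ Ideal.span {b})) =
      (Module.length C (A ⧸ (p.asIdeal ⊔ Ideal.span {x})) +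
        Module.length C (C ⧸ (p.asIdeal.comap (algebraMap C A) ⊔ Ideal.span {c}))).toNat := by
    rw [key]
    rfl
  rw [f3]
  exact (ENat.toNat_add f1 f2).symm

end CUB


end

section

set_option autoImplicit false

/-!
# LOWD, module FPD: push-forward of a divisor
-/

namespace LOWD

open CUB

namespace FPD

section Ch

variable {k A B D : Type} [Field k] [CommRing A] [CommRing B] [Algebra k A] [Algebra k B]
  [CommRing D]

/-- `D` is the ring of `V(Q)` localised along the fibre of `p`. -/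
structure ChD (φ : A →ₐ[k] B) (Q : PrimeSpectrum B) (p : PrimeSpectrum A) (δ : B →+* D) :
    Prop where
  ker : ∀ b, δ b = 0 ↔ b ∈ Q.asIdeal
  unit : ∀ a, a ∉ p.asIdeal → IsUnit (δ (φ a))
  frac : ∀ x : D, ∃ b t, t ∉ p.asIdeal ∧ δ (φ t) * x = δ b
  lenT : ∀ I : Ideal B, Q.asIdeal ≤ I → ∀ z : PrimeSpectrum D,
    len (I.map δ) z = len I (PrimeSpectrum.comap δ z)
  lift : ∀ (R : Type) [CommRing R] (f : B →+* R), (∀ b ∈ Q.asIdeal, f b = 0) →
    (∀ a, a ∉ p.asIdeal → IsUnit (f (φ a))) → ∃ g : D →+* R, ∀ b, g (δ b) = f b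

variable {φ : A →ₐ[k] B} {Q : PrimeSpectrum B} {p : PrimeSpectrum A} {δ : B →+* D}

theorem mc (H : ChD φ Q p δ) (I : Ideal D) : (I.comap δ).map δ = I := by
  apply le_antisymm Ideal.map_comap_le
  intro x hx
  obtain ⟨b, t, ht, h⟩ := H.frac x
  have h1 : δ b ∈ (I.comap δ).map δ := by
    apply Ideal.mem_map_of_mem
    rw [Ideal.mem_comap, ← h]
    exact I.mul_mem_left _ hx
  rw [← h] at h1
  exact (Ideal.unit_mul_mem_iff_mem _ (H.unit t ht)).mp h1

theorem eq_of_comap (H : ChD φ Q p δ) {z z' : PrimeSpectrum D}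
    (h : PrimeSpectrum.comap δ z = PrimeSpectrum.comap δ z') : z = z' := by
  have h1 : z.asIdeal.comap δ = z'.asIdeal.comap δ := congrArg PrimeSpectrum.asIdeal h
  apply PrimeSpectrum.ext
  rw [← mc H z.asIdeal, ← mc H z'.asIdeal, h1]

theorem le_comap (H : ChD φ Q p δ) (z : PrimeSpectrum D) :
    Q.asIdeal ≤ (PrimeSpectrum.comap δ z).asIdeal := by
  intro s hs
  have h : δ s ∈ z.asIdeal := by
    rw [(H.ker s).mpr hs]
    exact z.asIdeal.zero_mem
  exact h

theorem len_z (H : ChD φ Q p δ) (b : B) (z : PrimeSpectrum D) :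
    len (Ideal.span {δ b}) z = len (Q.asIdeal ⊔ Ideal.span {b}) (PrimeSpectrum.comap δ z) := by
  have h1 : Q.asIdeal.map δ = ⊥ := by
    rw [eq_bot_iff, Ideal.map_le_iff_le_comap]
    intro s hs
    rw [Ideal.mem_comap, (H.ker s).mpr hs]
    exact Ideal.zero_mem _
  rw [← H.lenT _ le_sup_left, Ideal.map_sup, h1, bot_sup_eq, Ideal.map_span,
    Set.image_singleton]

/-- the homomorphism to the residue field of a prime over `p` -/
theorem exists_tau (H : ChD φ Q p δ) (q : PrimeSpectrum B) (hQ : Q.asIdeal ≤ q.asIdeal)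
    (hq : PrimeSpectrum.comap φ.toRingHom q = p) :
    ∃ τ : D →+* q.asIdeal.ResidueField,
      (∀ b, τ (δ b) = algebraMap B q.asIdeal.ResidueField b) ∧
      ∀ x, τ x = 0 → ∀ z : PrimeSpectrum D, PrimeSpectrum.comap δ z = q → x ∈ z.asIdeal := by
  obtain ⟨τ, hτ⟩ := H.lift q.asIdeal.ResidueField (algebraMap B q.asIdeal.ResidueField)
    (fun b hb => Ideal.algebraMap_residueField_eq_zero.mpr (hQ hb)) (fun a ha => by
      apply IsUnit.mk0
      intro h
      rw [Ideal.algebraMap_residueField_eq_zero] at h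
      apply ha
      rw [← hq]
      exact h)
  refine ⟨τ, hτ, ?_⟩
  intro x hx z hz
  obtain ⟨b, t, ht, h⟩ := H.frac x
  have h1 : τ (δ b) = 0 := by rw [← h, map_mul, hx, mul_zero]
  rw [hτ, Ideal.algebraMap_residueField_eq_zero, ← hz] at h1
  have h2 : δ b ∈ z.asIdeal := h1
  rw [← h] at h2
  exact (Ideal.unit_mul_mem_iff_mem _ (H.unit t ht)).mp h2

theorem exists_prime (H : ChD φ Q p δ) (q : PrimeSpectrum B) (hQ : Q.asIdeal ≤ q.asIdeal)
    (hq : PrimeSpectrum.comap φ.toRingHom q = p) :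
    ∃ z : PrimeSpectrum D, PrimeSpectrum.comap δ z = q := by
  obtain ⟨τ, hτ, -⟩ := exists_tau H q hQ hq
  refine ⟨PrimeSpectrum.comap τ ⊥, ?_⟩
  apply PrimeSpectrum.ext
  ext b
  have h1 : b ∈ (PrimeSpectrum.comap δ (PrimeSpectrum.comap τ ⊥)).asIdeal ↔ τ (δ b) = 0 := Iff.rfl
  rw [h1, hτ, Ideal.algebraMap_residueField_eq_zero]

end Ch

section Two

variable {k A B C D K : Type} [Field k] [CommRing A] [CommRing B] [Algebra k A] [Algebra k B]
  [CommRing C] [IsDomain C] [IsLocalRing C] [CommRing D] [Algebra C D] [Field K] [Algebra k K]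
  [Algebra C K] {φ : A →ₐ[k] B} {Q : PrimeSpectrum B} {P p : PrimeSpectrum A} {δ : B →+* D}
  {γ : A →+* C} {θ : A →ₐ[k] K}

omit [IsDomain C] [IsLocalRing C] in
theorem comap_comap (hγ : ∀ a, algebraMap C D (γ a) = δ (φ a)) (z : PrimeSpectrum D) :
    PrimeSpectrum.comap φ.toRingHom (PrimeSpectrum.comap δ z) =
      PrimeSpectrum.comap γ (PrimeSpectrum.comap (algebraMap C D) z) := by
  apply PrimeSpectrum.ext
  ext a
  have h1 : a ∈ (PrimeSpectrum.comap φ.toRingHom (PrimeSpectrum.comap δ z)).asIdeal ↔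
      δ (φ a) ∈ z.asIdeal := Iff.rfl
  have h2 : a ∈ (PrimeSpectrum.comap γ (PrimeSpectrum.comap (algebraMap C D) z)).asIdeal ↔
      algebraMap C D (γ a) ∈ z.asIdeal := Iff.rfl
  rw [h1, h2, hγ]

theorem max_iff [Algebra.IsIntegral C D] (H : GREC.Chart θ P p γ)
    (hγ : ∀ a, algebraMap C D (γ a) = δ (φ a)) (z : PrimeSpectrum D) :
    z.asIdeal.IsMaximal ↔
      PrimeSpectrum.comap φ.toRingHom (PrimeSpectrum.comap δ z) = p := by
  rw [comap_comap hγ, ← GREC.max_iff H]
  constructor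
  · intro h
    exact Ideal.isMaximal_comap_of_isIntegral_of_isMaximal z.asIdeal
  · intro h
    exact Ideal.isMaximal_of_isIntegral_of_isMaximal_comap z.asIdeal h

omit [IsDomain C] [IsLocalRing C] in
theorem length_ker {L : Type} [CommRing L] [Algebra C L] (f : D →ₐ[C] L)
    (hf : Function.Surjective f) (I : Ideal D) (hI : RingHom.ker f = I) :
    Module.length C (D ⧸ I) = Module.length C L := by
  subst hI
  exact (Ideal.quotientKerAlgEquivOfSurjective (f := f) hf).toLinearEquiv.length_eq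

theorem lC_dg (hDGL : S_DGL) [Algebra.IsIntegral C D] (H : GREC.Chart θ P p γ)
    (HD : ChD φ Q p δ) (hγ : ∀ a, algebraMap C D (γ a) = δ (φ a)) (z : PrimeSpectrum D)
    (q : PrimeSpectrum B) (hz : PrimeSpectrum.comap δ z = q)
    (hq : PrimeSpectrum.comap φ.toRingHom q = p) : lC C (D ⧸ z.asIdeal) = dg φ q := by
  have hQ : Q.asIdeal ≤ q.asIdeal := by
    rw [← hz]
    exact le_comap HD z
  obtain ⟨τ, hτ, hτ0⟩ := exists_tau HD q hQ hq
  have hmax : z.asIdeal.IsMaximal := by
    rw [max_iff H hγ, hz, hq]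
  have hmem : ∀ b, b ∈ q.asIdeal ↔ δ b ∈ z.asIdeal := by
    intro b
    rw [← hz]
    exact Iff.rfl
  have hφ : ∀ a, a ∉ p.asIdeal → φ a ∉ q.asIdeal := by
    intro a ha h
    apply ha
    rw [← hq]
    exact h
  have hker : RingHom.ker τ = z.asIdeal := by
    ext x
    rw [RingHom.mem_ker]
    constructor
    · intro hx
      exact hτ0 x hx z hz
    · intro hx
      obtain ⟨b, t, ht, h⟩ := HD.frac x
      have h1 : δ b ∈ z.asIdeal := by
        rw [← h]
        exact z.asIdeal.mul_mem_left _ hx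
      rw [← hmem, ← Ideal.algebraMap_residueField_eq_zero, ← hτ, ← h, map_mul, hτ] at h1
      refine (mul_eq_zero.mp h1).resolve_left ?_
      rw [Ideal.algebraMap_residueField_eq_zero]
      exact hφ t ht
  have hsurj : Function.Surjective τ := by
    intro y
    obtain ⟨b1, b2, hb2, hy⟩ := IsFractionRing.div_surjective (A := B ⧸ q.asIdeal) y
    obtain ⟨b1, rfl⟩ := Ideal.Quotient.mk_surjective b1
    obtain ⟨b2, rfl⟩ := Ideal.Quotient.mk_surjective b2
    rw [Ideal.algebraMap_quotient_residueField_mk, Ideal.algebraMap_quotient_residueField_mk,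
      ← hτ, ← hτ] at hy
    have hb2' : b2 ∉ q.asIdeal := by
      intro h
      rw [Ideal.Quotient.eq_zero_iff_mem.mpr h] at hb2
      exact zero_notMem_nonZeroDivisors hb2
    have h1 : δ b2 ∉ z.asIdeal := fun h => hb2' ((hmem b2).mpr h)
    obtain ⟨x, hx⟩ := hmax.exists_inv h1
    obtain ⟨i, hi, hxi⟩ := hx
    have h2 : τ x * τ (δ b2) = 1 := by
      rw [← hker] at hi
      rw [← map_mul, ← add_zero (τ (x * δ b2)), ← (RingHom.mem_ker.mp hi), ← map_add, hxi, map_one]
    refine ⟨δ b1 * x, ?_⟩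
    rw [← hy, map_mul, div_eq_mul_inv, ← eq_inv_of_mul_eq_one_left h2]
  let _ : Algebra C q.asIdeal.ResidueField := (τ.comp (algebraMap C D)).toAlgebra
  let _ : Algebra A C := γ.toAlgebra
  let τa : D →ₐ[C] q.asIdeal.ResidueField := { τ with commutes' := fun _ => rfl }
  have hτa : ∀ x, τa x = τ x := fun _ => rfl
  have hker2 : RingHom.ker τa = z.asIdeal := by
    rw [← hker]
    rfl
  have h1 : lC C (D ⧸ z.asIdeal) = lC C q.asIdeal.ResidueField := by
    unfold lC
    rw [length_ker τa hsurj z.asIdeal hker2]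
  rw [h1]
  refine hDGL A C q.asIdeal.ResidueField (rho φ q) ?_ ?_ ?_
  · intro a
    change algebraMap B q.asIdeal.ResidueField (φ a) = τ (algebraMap C D (γ a))
    rw [hγ, hτ]
  · intro x
    obtain ⟨s, t, ht, h⟩ := H.frac x
    refine ⟨s, t, ?_, ?_⟩
    · change algebraMap B q.asIdeal.ResidueField (φ t) ≠ 0
      rw [Ne, Ideal.algebraMap_residueField_eq_zero]
      exact hφ t ht
    · change τ (algebraMap C D x) * algebraMap B q.asIdeal.ResidueField (φ t) =
        algebraMap B q.asIdeal.ResidueField (φ s)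
      rw [← hτ, ← hτ, ← hγ, ← hγ, ← map_mul, ← map_mul, ← h, mul_comm]
  · intro x hx
    change τ (algebraMap C D x) = 0
    rw [← RingHom.mem_ker, hker]
    have h2 : (PrimeSpectrum.comap (algebraMap C D) z).asIdeal.IsMaximal := by
      rw [GREC.max_iff H, ← comap_comap hγ, hz, hq]
    have h3 := IsLocalRing.eq_maximalIdeal h2
    rw [← h3] at hx
    exact hx

end Two

section Krull

variable {k A C K : Type} [Field k] [CommRing A] [Algebra k A] [Algebra.FiniteType k A]
  [CommRing C] [IsDomain C] [IsLocalRing C] [IsNoetherianRing C] [Field K] [Algebra k K]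
  [Algebra C K] {n : ℕ} {P : RP k A (n + 1)} {p : RP k A n} {γ : A →+* C} {θ : A →ₐ[k] K}

omit [IsNoetherianRing C] in
theorem krull (h1 : S_DIM1) (H : GREC.Chart θ P.1 p.1 γ) : Ring.KrullDimLE 1 C := by
  apply Ring.KrullDimLE.mk₁'
  intro I hI hIp
  have h2 := (GREC.max_iff H ⟨I, hIp⟩).mpr ?_
  · exact h2
  apply LENC.between h1 P p _ _ (GREC.comap_le H _)
  refine lt_of_le_of_ne (GREC.le_comap H _) ?_
  intro h
  exact hI ((GREC.bot_iff H ⟨I, hIp⟩).mpr h.symm)

theorem len_fin (h1 : S_DIM1) (H : GREC.Chart θ P.1 p.1 γ) {x : C} (hx : x ≠ 0) :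
    Module.length C (C ⧸ Ideal.span {x}) ≠ ⊤ := by
  have := krull h1 H
  exact Ring.ord_ne_top (mem_nonZeroDivisors_of_ne_zero hx)

end Krull

section Core

variable {k A B C D K : Type} [Field k] [CommRing A] [CommRing B] [Algebra k A] [Algebra k B]
  [Algebra.FiniteType k A] [Algebra.FiniteType k B]
  [CommRing C] [IsDomain C] [IsLocalRing C] [IsNoetherianRing C] [CommRing D] [IsDomain D]
  [Algebra C D] [Module.Finite C D] [Field K] [Algebra k K] [Algebra C K] {φ : A →ₐ[k] B}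
  {n : ℕ} {Q : RP k B (n + 1)} {P : RP k A (n + 1)} {p : RP k A n} {δ : B →+* D} {γ : A →+* C}
  {θ : A →ₐ[k] K}

omit [Algebra.FiniteType k B] in
/-- the norm formula -/
theorem norm_formula (h1 : S_DIM1) (hN : S_NORM) (hP : P.1 = PrimeSpectrum.comap φ.toRingHom Q.1)
    (hPp : P.1.asIdeal ≤ p.1.asIdeal) (H : GREC.Chart θ P.1 p.1 γ) (HD : ChD φ Q.1 p.1 δ)
    (hγ : ∀ a, algebraMap C D (γ a) = δ (φ a)) (b : B) (c d : A) (hb : b ∉ Q.1.asIdeal)
    (hnm : IsNm (rho φ Q.1) (algebraMap B Q.1.asIdeal.ResidueField b) c d) :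
    Module.length C (D ⧸ Ideal.span {δ b}) ≠ ⊤ ∧
    lC C (D ⧸ Ideal.span {δ b}) + len (P.1.asIdeal ⊔ Ideal.span {d}) p.1 =
      len (P.1.asIdeal ⊔ Ideal.span {c}) p.1 := by
  have hPQ : ∀ a, a ∈ P.1.asIdeal ↔ φ a ∈ Q.1.asIdeal := by
    intro a
    rw [hP]
    exact Iff.rfl
  obtain ⟨σ, hσ⟩ := HD.lift Q.1.asIdeal.ResidueField (algebraMap B Q.1.asIdeal.ResidueField)
    (fun b hb => Ideal.algebraMap_residueField_eq_zero.mpr hb) (fun a ha => by
      apply IsUnit.mk0
      intro h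
      rw [Ideal.algebraMap_residueField_eq_zero, ← hPQ] at h
      exact ha (hPp h))
  have hσ0 : ∀ x, σ x = 0 ↔ x ∈ (⊥ : Ideal D) := by
    intro x
    rw [Ideal.mem_bot]
    constructor
    · intro hx
      obtain ⟨b', t, ht, h⟩ := HD.frac x
      have h2 : σ (δ b') = 0 := by rw [← h, map_mul, hx, mul_zero]
      rw [hσ, Ideal.algebraMap_residueField_eq_zero, ← HD.ker, ← h] at h2
      exact (mul_eq_zero.mp h2).resolve_left (HD.unit t ht).ne_zero
    · intro hx
      rw [hx, map_zero]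
  have hinj : ∀ x : C, algebraMap C D x = 0 → x = 0 := by
    intro x hx
    obtain ⟨s, t, ht, h⟩ := H.frac x
    have h2 : algebraMap C D (γ s) = 0 := by rw [← h, map_mul, hx, mul_zero]
    rw [hγ, HD.ker, ← hPQ, ← H.ker, ← h] at h2
    exact (mul_eq_zero.mp h2).resolve_left (H.unit t ht).ne_zero
  have hbot : (⊥ : Ideal D).comap (algebraMap C D) = ⊥ := by
    rw [eq_bot_iff]
    intro x hx
    exact hinj x hx
  have hfrac : ∀ y : Q.1.asIdeal.ResidueField, ∃ a a' : D, σ a' ≠ 0 ∧ y * σ a' = σ a := by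
    intro y
    obtain ⟨b1, b2, hb2, hy⟩ := IsFractionRing.div_surjective (A := B ⧸ Q.1.asIdeal) y
    obtain ⟨b1, rfl⟩ := Ideal.Quotient.mk_surjective b1
    obtain ⟨b2, rfl⟩ := Ideal.Quotient.mk_surjective b2
    rw [Ideal.algebraMap_quotient_residueField_mk, Ideal.algebraMap_quotient_residueField_mk,
      ← hσ, ← hσ] at hy
    have hb2' : b2 ∉ Q.1.asIdeal := by
      intro h
      rw [Ideal.Quotient.eq_zero_iff_mem.mpr h] at hb2
      exact zero_notMem_nonZeroDivisors hb2
    have h2 : σ (δ b2) ≠ 0 := by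
      rw [hσ, Ne, Ideal.algebraMap_residueField_eq_zero]
      exact hb2'
    exact ⟨δ b1, δ b2, h2, by rw [← hy, div_mul_cancel₀ _ h2]⟩
  have hnm2 : IsNm (σ.comp (algebraMap C D)) (σ (δ b)) (γ c) (γ d) := by
    rw [hσ]
    refine GREC.nm_C H (rho φ Q.1) (σ.comp (algebraMap C D)) ?_ hnm
    intro a
    change algebraMap B Q.1.asIdeal.ResidueField (φ a) = σ (algebraMap C D (γ a))
    rw [hγ, hσ]
  have hb0 : δ b ∉ (⊥ : Ideal D) := by
    rw [Ideal.mem_bot, HD.ker]
    exact hb
  have key := NM.core hN (⊥ : Ideal D) (σ.comp (algebraMap C D)) σ (fun _ => rfl) hσ0 hfrac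
    (by
      intro x hx
      rw [hbot] at hx ⊢
      rw [bot_sup_eq]
      exact len_fin h1 H (fun h => hx (by rw [h]; exact Ideal.zero_mem _)))
    (δ b) (γ c) (γ d) hb0 hnm2
  rw [hbot, bot_sup_eq, bot_sup_eq, bot_sup_eq] at key
  -- the elements `c`, `d`
  have hc : c ∉ P.1.asIdeal := by
    intro h
    exact hnm.1 (Ideal.algebraMap_residueField_eq_zero.mpr ((hPQ c).mp h))
  have hd : d ∉ P.1.asIdeal := by
    intro h
    exact hnm.2.1 (Ideal.algebraMap_residueField_eq_zero.mpr ((hPQ d).mp h))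
  have hc' : γ c ≠ 0 := fun h => hc ((H.ker c).mp h)
  have hd' : γ d ≠ 0 := fun h => hd ((H.ker d).mp h)
  have fc := len_fin h1 H hc'
  have fd := len_fin h1 H hd'
  have hfin : Module.length C (D ⧸ Ideal.span {δ b}) ≠ ⊤ := by
    intro h
    rw [h, top_add] at key
    exact fc key.symm
  have hb2 : (⊥ : PrimeSpectrum C).asIdeal = ⊥ := rfl
  have hP2 : PrimeSpectrum.comap γ (⊥ : PrimeSpectrum C) = P.1 :=
    (GREC.bot_iff H ⊥).mp hb2
  have ec := GREC.len_m H c (⊥ : PrimeSpectrum C)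
  have ed := GREC.len_m H d (⊥ : PrimeSpectrum C)
  rw [hP2, hb2, bot_sup_eq] at ec ed
  refine ⟨hfin, ?_⟩
  rw [ec, ed]
  unfold lC
  rw [← ENat.toNat_add hfin fd, key]

omit [Algebra.FiniteType k B] in
theorem core (h1 : S_DIM1) (hN : S_NORM) (hLTH : S_LTH) (hDGL : S_DGL)
    (hr : ∀ q : PrimeSpectrum B, PrimeSpectrum.comap φ.toRingHom q = p.1 → rdim k q = n)
    (hP : P.1 = PrimeSpectrum.comap φ.toRingHom Q.1)
    (hPp : P.1.asIdeal ≤ p.1.asIdeal) (H : GREC.Chart θ P.1 p.1 γ) (HD : ChD φ Q.1 p.1 δ)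
    (hγ : ∀ a, algebraMap C D (γ a) = δ (φ a)) (b : B) (c d : A) (hb : b ∉ Q.1.asIdeal)
    (hnm : IsNm (rho φ Q.1) (algebraMap B Q.1.asIdeal.ResidueField b) c d)
    (W : Finset (RP k B n)) (hW1 : ∀ q ∈ W, PrimeSpectrum.comap φ.toRingHom q.1 = p.1)
    (hW2 : ∀ q : RP k B n, PrimeSpectrum.comap φ.toRingHom q.1 = p.1 →
      Q.1.asIdeal ≤ q.1.asIdeal → b ∈ q.1.asIdeal → q ∈ W) :
    ∑ q ∈ W, len (Q.1.asIdeal ⊔ Ideal.span {b}) q.1 * dg φ q.1 +
      len (P.1.asIdeal ⊔ Ideal.span {d}) p.1 = len (P.1.asIdeal ⊔ Ideal.span {c}) p.1 := by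
  classical
  obtain ⟨hfin, hkey⟩ := norm_formula h1 hN hP hPp H HD hγ b c d hb hnm
  rw [← hkey]
  congr 1
  have hmem : ∀ z : PrimeSpectrum D, Ideal.span {δ b} ≤ z.asIdeal ↔
      b ∈ (PrimeSpectrum.comap δ z).asIdeal := by
    intro z
    rw [Ideal.span_singleton_le_iff_mem]
    exact Iff.rfl
  have hin : ∀ z : PrimeSpectrum D, z.asIdeal.IsMaximal → Ideal.span {δ b} ≤ z.asIdeal →
      ∃ q ∈ W, q.1 = PrimeSpectrum.comap δ z := by
    intro z hz1 hz2
    rw [max_iff H hγ] at hz1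
    rw [hmem] at hz2
    exact ⟨⟨PrimeSpectrum.comap δ z, hr _ hz1⟩, hW2 _ hz1 (le_comap HD z) hz2, rfl⟩
  have hfs : {z : PrimeSpectrum D | z.asIdeal.IsMaximal ∧
      Ideal.span {δ b} ≤ z.asIdeal}.Finite := by
    have h2 : {z : PrimeSpectrum D | z.asIdeal.IsMaximal ∧ Ideal.span {δ b} ≤ z.asIdeal} ⊆
        (PrimeSpectrum.comap δ) ⁻¹' (Subtype.val '' (W : Set (RP k B n))) := by
      rintro z ⟨hz1, hz2⟩
      obtain ⟨q, hq, hqz⟩ := hin z hz1 hz2
      exact ⟨q, hq, hqz⟩
    refine Set.Finite.subset (Set.Finite.preimage ?_ (W.finite_toSet.image _)) h2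
    intro z _ z' _ h
    exact eq_of_comap HD h
  have hW' : ∀ z : PrimeSpectrum D, z ∈ hfs.toFinset ↔ (z.asIdeal.IsMaximal ∧
      Ideal.span {δ b} ≤ z.asIdeal) := by
    intro z
    exact Set.Finite.mem_toFinset _
  rw [hLTH C D (Ideal.span {δ b}) hfin hfs.toFinset hW']
  let G : PrimeSpectrum B → ℕ := fun q => len (Q.1.asIdeal ⊔ Ideal.span {b}) q * dg φ q
  have h2 : ∑ q ∈ W, G q.1 = ∑ q ∈ W.map ⟨Subtype.val, Subtype.val_injective⟩, G q :=
    (Finset.sum_map W ⟨Subtype.val, Subtype.val_injective⟩ G).symm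
  change ∑ q ∈ W, G q.1 = _
  rw [h2]
  symm
  apply Finset.sum_of_injOn (PrimeSpectrum.comap δ)
  · intro z _ z' _ h
    exact eq_of_comap HD h
  · intro z hz
    obtain ⟨hz1, hz2⟩ := (hW' z).mp hz
    obtain ⟨q, hq, hqz⟩ := hin z hz1 hz2
    rw [Finset.mem_coe]
    exact Finset.mem_map.mpr ⟨q, hq, hqz⟩
  · intro q' hq' hq2
    obtain ⟨q, hq, rfl⟩ := Finset.mem_map.mp hq'
    by_contra h3
    apply hq2
    have h4 := left_ne_zero_of_mul h3
    have h6 : Q.1.asIdeal ⊔ Ideal.span {b} ≤ q.1.asIdeal := by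
      by_contra h7
      exact h4 (GREC.len_top _ _ h7)
    obtain ⟨z, hz⟩ := exists_prime HD q.1 (le_sup_left.trans h6) (hW1 q hq)
    refine ⟨z, ?_, hz⟩
    rw [Finset.mem_coe, hW', max_iff H hγ, hz, hmem, hz]
    exact ⟨hW1 q hq, h6 (Ideal.mem_sup_right (Ideal.mem_span_singleton_self _))⟩
  · intro z hz
    obtain ⟨hz1, hz2⟩ := (hW' z).mp hz
    rw [max_iff H hγ] at hz1
    change _ = len (Q.1.asIdeal ⊔ Ideal.span {b}) (PrimeSpectrum.comap δ z) *
      dg φ (PrimeSpectrum.comap δ z)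
    rw [len_z HD, lC_dg hDGL H HD hγ z _ rfl hz1]

end Core

section Inst

/-- lengths for the localisation at a submonoid -/
theorem lenD (hLA : S_LENA) (hLB : S_LENB) {S B D : Type} [CommRing S] [CommRing B] [CommRing D]
    [Algebra B D] (T : Submonoid B) [IsLocalization T D] (π : S →+* B)
    (hπ : Function.Surjective π) (I : Ideal S) (hI : RingHom.ker π ≤ I) (z : PrimeSpectrum D) :
    len (I.map ((algebraMap B D).comp π)) z =
      len I (PrimeSpectrum.comap ((algebraMap B D).comp π) z) := by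
  have hflat : (algebraMap B D).Flat := by
    have h1 : Module.Flat B D := IsLocalization.flat _ T
    exact (RingHom.flat_algebraMap_iff).mpr h1
  have hmax : IsLocalRing.maximalIdeal (Localization.AtPrime z.asIdeal) ≤
      (PrimeSpectrum.comap (algebraMap B D) z).asIdeal.map
        ((algebraMap D (Localization.AtPrime z.asIdeal)).comp (algebraMap B D)) := by
    have h1 : (PrimeSpectrum.comap (algebraMap B D) z).asIdeal.map (algebraMap B D) = z.asIdeal :=
      IsLocalization.map_under T D z.asIdeal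
    rw [← Ideal.map_map, h1, Localization.AtPrime.map_eq_maximalIdeal]
  have e1 := hLB B D (algebraMap B D) z hflat hmax (I.map π)
  have e2 := hLA S B π hπ (I.map π) (PrimeSpectrum.comap (algebraMap B D) z)
  have h3 : (I.map π).comap π = I := by
    rw [Ideal.comap_map_of_surjective π hπ]
    exact sup_eq_left.mpr hI
  rw [h3] at e2
  rw [← Ideal.map_map, e1, ← e2]
  rfl

variable {k A B : Type} [Field k] [CommRing A] [CommRing B] [Algebra k A] [Algebra k B]

theorem chD (hLA : S_LENA) (hLB : S_LENB) (φ : A →ₐ[k] B) (Q : PrimeSpectrum B)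
    (p : PrimeSpectrum A) (T : Submonoid (B ⧸ Q.asIdeal))
    (hT : ∀ x, x ∈ T ↔ ∃ a, a ∉ p.asIdeal ∧ Ideal.Quotient.mk Q.asIdeal (φ a) = x)
    (hT0 : T ≤ nonZeroDivisors (B ⧸ Q.asIdeal)) :
    ChD φ Q p ((algebraMap (B ⧸ Q.asIdeal) (Localization T)).comp
      (Ideal.Quotient.mk Q.asIdeal)) := by
  have hinj : Function.Injective (algebraMap (B ⧸ Q.asIdeal) (Localization T)) :=
    IsLocalization.injective (Localization T) hT0
  have hu : ∀ a, a ∉ p.asIdeal → Ideal.Quotient.mk Q.asIdeal (φ a) ∈ T := by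
    intro a ha
    rw [hT]
    exact ⟨a, ha, rfl⟩
  refine ⟨?_, ?_, ?_, ?_, ?_⟩
  · intro b
    rw [RingHom.comp_apply, map_eq_zero_iff _ hinj, Ideal.Quotient.eq_zero_iff_mem]
  · intro a ha
    exact IsLocalization.map_units (Localization T) (⟨_, hu a ha⟩ : T)
  · intro x
    obtain ⟨b', u, rfl⟩ := IsLocalization.exists_mk'_eq T x
    obtain ⟨b, rfl⟩ := Ideal.Quotient.mk_surjective b'
    obtain ⟨a, ha, hau⟩ := (hT u.1).mp u.2
    refine ⟨b, a, ha, ?_⟩
    rw [RingHom.comp_apply, RingHom.comp_apply, hau, IsLocalization.mk'_spec']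
  · intro I hI z
    exact lenD hLA hLB T _ Ideal.Quotient.mk_surjective I (by rw [Ideal.mk_ker]; exact hI) z
  · intro R _ f hf hfu
    have hun : ∀ y : T, IsUnit (Ideal.Quotient.lift Q.asIdeal f hf y) := by
      intro y
      obtain ⟨a, ha, hay⟩ := (hT y.1).mp y.2
      rw [← hay, Ideal.Quotient.lift_mk]
      exact hfu a ha
    refine ⟨IsLocalization.lift hun, ?_⟩
    intro b
    rw [RingHom.comp_apply, IsLocalization.lift_eq, Ideal.Quotient.lift_mk]

theorem inst [Algebra.FiniteType k A] (h1 : S_DIM1) (hLA : S_LENA) (hLB : S_LENB)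
    (hN : S_NORM) (hLTH : S_LTH) (hDGL : S_DGL) (φ : A →ₐ[k] B) (J : Ideal A) (hJ : FinOn φ J)
    {n : ℕ} {Q : RP k B (n + 1)} {P : RP k A (n + 1)} {p : RP k A n} (hJp : ¬ J ≤ p.1.asIdeal)
    (hr : ∀ q : PrimeSpectrum B, PrimeSpectrum.comap φ.toRingHom q = p.1 → rdim k q = n)
    (hP : P.1 = PrimeSpectrum.comap φ.toRingHom Q.1)
    (hPp : P.1.asIdeal ≤ p.1.asIdeal) (b : B) (c d : A) (hb : b ∉ Q.1.asIdeal)
    (hnm : IsNm (rho φ Q.1) (algebraMap B Q.1.asIdeal.ResidueField b) c d)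
    (W : Finset (RP k B n)) (hW1 : ∀ q ∈ W, PrimeSpectrum.comap φ.toRingHom q.1 = p.1)
    (hW2 : ∀ q : RP k B n, PrimeSpectrum.comap φ.toRingHom q.1 = p.1 →
      Q.1.asIdeal ≤ q.1.asIdeal → b ∈ q.1.asIdeal → q ∈ W) :
    ∑ q ∈ W, len (Q.1.asIdeal ⊔ Ideal.span {b}) q.1 * dg φ q.1 +
      len (P.1.asIdeal ⊔ Ideal.span {d}) p.1 = len (P.1.asIdeal ⊔ Ideal.span {c}) p.1 := by
  classical
  have hPQ : ∀ a, a ∈ P.1.asIdeal ↔ φ a ∈ Q.1.asIdeal := by
    intro a
    rw [hP]
    exact Iff.rfl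
  have hPpr : P.1.asIdeal.IsPrime := P.1.isPrime
  have hQpr : Q.1.asIdeal.IsPrime := Q.1.isPrime
  -- the ring `C`
  have hMp : (p.1.asIdeal.map (Ideal.Quotient.mk P.1.asIdeal)).IsPrime := by
    apply Ideal.map_isPrime_of_surjective Ideal.Quotient.mk_surjective
    rw [Ideal.mk_ker]
    exact hPp
  obtain ⟨M, hMdef⟩ : ∃ M : Ideal (A ⧸ P.1.asIdeal),
      M = p.1.asIdeal.map (Ideal.Quotient.mk P.1.asIdeal) := ⟨_, rfl⟩
  rw [← hMdef] at hMp
  have hM : M.comap (Ideal.Quotient.mk P.1.asIdeal) = p.1.asIdeal := by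
    rw [hMdef]
    exact Ideal.comap_map_mk hPp
  have hmM : ∀ s, s ∈ p.1.asIdeal ↔ Ideal.Quotient.mk P.1.asIdeal s ∈ M := by
    intro s
    rw [← hM]
    exact Iff.rfl
  have hle : M.primeCompl ≤ nonZeroDivisors (A ⧸ P.1.asIdeal) :=
    M.primeCompl_le_nonZeroDivisors
  let _ : Algebra (Localization.AtPrime M) (FractionRing (A ⧸ P.1.asIdeal)) :=
    IsLocalization.localizationAlgebraOfSubmonoidLe (Localization.AtPrime M)
      (FractionRing (A ⧸ P.1.asIdeal)) M.primeCompl (nonZeroDivisors (A ⧸ P.1.asIdeal)) hle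
  have hst : IsScalarTower (A ⧸ P.1.asIdeal) (Localization.AtPrime M)
      (FractionRing (A ⧸ P.1.asIdeal)) :=
    IsLocalization.localization_isScalarTower_of_submonoid_le (Localization.AtPrime M)
      (FractionRing (A ⧸ P.1.asIdeal)) M.primeCompl (nonZeroDivisors (A ⧸ P.1.asIdeal)) hle
  have hdom : IsDomain (Localization.AtPrime M) := IsLocalization.isDomain_localization hle
  have hNB : IsNoetherianRing (A ⧸ P.1.asIdeal) := Algebra.FiniteType.isNoetherianRing k _
  have hNC : IsNoetherianRing (Localization.AtPrime M) :=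
    IsLocalization.isNoetherianRing M.primeCompl _ hNB
  have hinj : Function.Injective (algebraMap (A ⧸ P.1.asIdeal) (Localization.AtPrime M)) :=
    IsLocalization.injective (Localization.AtPrime M) hle
  have H : GREC.Chart ((IsScalarTower.toAlgHom k (A ⧸ P.1.asIdeal)
      (FractionRing (A ⧸ P.1.asIdeal))).comp (Ideal.Quotient.mkₐ k P.1.asIdeal)) P.1 p.1
      ((algebraMap (A ⧸ P.1.asIdeal) (Localization.AtPrime M)).comp
        (Ideal.Quotient.mk P.1.asIdeal)) := by
    refine ⟨?_, ?_, ?_, ?_, ?_, ?_⟩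
    · intro s
      rw [RingHom.comp_apply, ← IsScalarTower.algebraMap_apply]
      rfl
    · intro s
      rw [RingHom.comp_apply, map_eq_zero_iff _ hinj, Ideal.Quotient.eq_zero_iff_mem]
    · intro s hs
      rw [hmM] at hs
      exact IsLocalization.map_units (Localization.AtPrime M)
        (⟨Ideal.Quotient.mk P.1.asIdeal s, hs⟩ : M.primeCompl)
    · intro c
      obtain ⟨b, u, rfl⟩ := IsLocalization.exists_mk'_eq M.primeCompl c
      obtain ⟨s, rfl⟩ := Ideal.Quotient.mk_surjective b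
      obtain ⟨t', ht'⟩ := Ideal.Quotient.mk_surjective u.1
      refine ⟨s, t', ?_, ?_⟩
      · rw [hmM, ht']
        exact u.2
      · rw [RingHom.comp_apply, RingHom.comp_apply, ht', IsLocalization.mk'_spec']
    · intro s hs
      rw [hmM] at hs
      exact (IsLocalization.AtPrime.to_map_mem_maximal_iff (Localization.AtPrime M) M
        (Ideal.Quotient.mk P.1.asIdeal s)).mpr hs
    · intro I hI z
      exact GREC.lenB hLA hLB (Ideal.Quotient.mk P.1.asIdeal) Ideal.Quotient.mk_surjective M I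
        (by rw [Ideal.mk_ker]; exact hI) z
  -- the ring `D`
  have hPle : P.1.asIdeal ≤ Q.1.asIdeal.comap φ.toRingHom := by
    intro a ha
    exact (hPQ a).mp ha
  let ψ : (A ⧸ P.1.asIdeal) →+* (B ⧸ Q.1.asIdeal) :=
    Ideal.quotientMap Q.1.asIdeal φ.toRingHom hPle
  have hψ : ∀ a, ψ (Ideal.Quotient.mk P.1.asIdeal a) = Ideal.Quotient.mk Q.1.asIdeal (φ a) :=
    fun a => Ideal.quotientMap_mk
  let T : Submonoid (B ⧸ Q.1.asIdeal) := M.primeCompl.map ψ
  have hT : ∀ x, x ∈ T ↔ ∃ a, a ∉ p.1.asIdeal ∧ Ideal.Quotient.mk Q.1.asIdeal (φ a) = x := by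
    intro x
    constructor
    · rintro ⟨y, hy, rfl⟩
      obtain ⟨a, rfl⟩ := Ideal.Quotient.mk_surjective y
      refine ⟨a, ?_, (hψ a).symm⟩
      rw [hmM]
      exact hy
    · rintro ⟨a, ha, rfl⟩
      rw [hmM] at ha
      exact ⟨Ideal.Quotient.mk P.1.asIdeal a, ha, hψ a⟩
  have hT0 : T ≤ nonZeroDivisors (B ⧸ Q.1.asIdeal) := by
    intro x hx
    obtain ⟨a, ha, rfl⟩ := (hT x).mp hx
    apply mem_nonZeroDivisors_of_ne_zero
    rw [Ne, Ideal.Quotient.eq_zero_iff_mem, ← hPQ]
    exact fun h => ha (hPp h)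
  have hdomD : IsDomain (Localization T) := IsLocalization.isDomain_localization hT0
  have HD := chD hLA hLB φ Q.1 p.1 T hT hT0
  have hun : ∀ y : M.primeCompl, IsUnit (((algebraMap (B ⧸ Q.1.asIdeal)
      (Localization T)).comp ψ) y) := by
    intro y
    exact IsLocalization.map_units (Localization T) (⟨ψ y, ⟨y.1, y.2, rfl⟩⟩ : T)
  let _ : Algebra (Localization.AtPrime M) (Localization T) :=
    (IsLocalization.lift (S := Localization.AtPrime M) hun).toAlgebra
  have hγ : ∀ a, algebraMap (Localization.AtPrime M) (Localization T)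
      (((algebraMap (A ⧸ P.1.asIdeal) (Localization.AtPrime M)).comp
        (Ideal.Quotient.mk P.1.asIdeal)) a) =
      ((algebraMap (B ⧸ Q.1.asIdeal) (Localization T)).comp
        (Ideal.Quotient.mk Q.1.asIdeal)) (φ a) := by
    intro a
    have h2 : algebraMap (Localization.AtPrime M) (Localization T)
      (algebraMap (A ⧸ P.1.asIdeal) (Localization.AtPrime M) (Ideal.Quotient.mk P.1.asIdeal a)) =
      algebraMap (B ⧸ Q.1.asIdeal) (Localization T) (ψ (Ideal.Quotient.mk P.1.asIdeal a)) :=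
      IsLocalization.lift_eq hun _
    rw [RingHom.comp_apply, RingHom.comp_apply, h2, hψ]
  obtain ⟨h, hhJ, hhp⟩ := Set.not_subset.mp hJp
  obtain ⟨M₀, hM₀⟩ := hJ h hhJ
  have hfinD : Module.Finite (Localization.AtPrime M) (Localization T) := by
    rw [Module.finite_def]
    refine ⟨M₀.image ((algebraMap (B ⧸ Q.1.asIdeal) (Localization T)).comp
        (Ideal.Quotient.mk Q.1.asIdeal)), ?_⟩
    rw [eq_top_iff]
    intro x _
    obtain ⟨b', t, ht, hx⟩ := HD.frac x
    obtain ⟨s, c', hc'⟩ := hM₀ b'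
    have hst' : h ^ s * t ∉ p.1.asIdeal := by
      intro h2
      rcases p.1.isPrime.mem_or_mem h2 with h3 | h3
      · exact hhp (p.1.isPrime.mem_of_pow_mem s h3)
      · exact ht h3
    obtain ⟨u, hu⟩ := H.unit _ hst'
    have h3 : (u : Localization.AtPrime M) • x ∈ Submodule.span (Localization.AtPrime M)
        ((M₀.image ((algebraMap (B ⧸ Q.1.asIdeal) (Localization T)).comp
        (Ideal.Quotient.mk Q.1.asIdeal)) : Finset (Localization T)) : Set (Localization T)) := by
      rw [Algebra.smul_def, hu, hγ, map_mul φ, map_mul, mul_assoc, hx, ← map_mul, map_pow φ, hc',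
        map_sum]
      apply Submodule.sum_mem
      intro m hm
      rw [map_mul, ← hγ, ← Algebra.smul_def]
      apply Submodule.smul_mem
      apply Submodule.subset_span
      rw [Finset.mem_coe]
      exact Finset.mem_image_of_mem _ hm
    have h4 : x = (↑u⁻¹ : Localization.AtPrime M) • ((u : Localization.AtPrime M) • x) := by
      rw [smul_smul, Units.inv_mul, one_smul]
    rw [h4]
    exact Submodule.smul_mem _ _ h3
  exact core h1 hN hLTH hDGL hr hP hPp H HD hγ b c d hb hnm W hW1 hW2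

end Inst

end FPD

theorem t_FPD : M_FPD := by
  intro h1 _ hLA hLB hLC hN hLTH hDGL hFLD k A B _ _ _ _ _ _ _ φ J hJ n Q b c d hb hJQ hnm p hJp
    W hW1 hW2
  have hPd := (hFLD k A B φ J hJ Q.1 hJQ).2.2.1
  have hr : ∀ q : PrimeSpectrum B, PrimeSpectrum.comap φ.toRingHom q = p.1 → rdim k q = n := by
    intro q hq
    have h2 := (hFLD k A B φ J hJ q (by rw [hq]; exact hJp)).2.2.1
    rw [← h2, hq, p.2]
  obtain ⟨P, hP⟩ : ∃ P : RP k A (n + 1), P.1 = PrimeSpectrum.comap φ.toRingHom Q.1 :=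
    ⟨⟨PrimeSpectrum.comap φ.toRingHom Q.1, by rw [hPd, Q.2]⟩, rfl⟩
  rw [← hP]
  by_cases hPp : P.1.asIdeal ≤ p.1.asIdeal
  · exact FPD.inst h1 hLA hLB hN hLTH hDGL φ J hJ hJp hr hP hPp b c d hb hnm W hW1 hW2
  · have h3 : ∀ x : A, len (P.1.asIdeal ⊔ Ideal.span {x}) p.1 = 0 := by
      intro x
      exact GREC.len_top _ _ (fun h => hPp (le_sup_left.trans h))
    rw [h3, h3, add_zero]
    apply Finset.sum_eq_zero
    intro q hq
    rw [GREC.len_top, zero_mul]
    intro h
    apply hPp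
    rw [hP, ← hW1 q hq]
    exact Ideal.comap_mono (le_sup_left.trans h)

end LOWD


end

section

/-!
# LOWD: module HTM (Krull)
-/

set_option autoImplicit false

namespace LOWD

namespace HTM

/-- The height of a maximal ideal of a polynomial ring over a field is the number of variables. -/
theorem height_max (K : Type) [Field K] (σ : Type) [Finite σ] :
    ∀ m : Ideal (MvPolynomial σ K), m.IsMaximal → m.height = (Nat.card σ : ℕ∞) := by
  induction σ using Finite.induction_empty_option with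
  | of_equiv e H =>
    intro m hm
    have h := RingEquiv.height_comap (MvPolynomial.renameEquiv K e).toRingEquiv m
    rw [← h, H _ (Ideal.comap_isMaximal_of_equiv (MvPolynomial.renameEquiv K e).toRingEquiv),
      Nat.card_congr e]
  | h_empty =>
    intro m hm
    have h1 : (m.height : WithBot ℕ∞) ≤ ringKrullDim (MvPolynomial PEmpty K) :=
      Ideal.height_le_ringKrullDim_of_ne_top hm.ne_top
    rw [MvPolynomial.ringKrullDim_of_isNoetherianRing] at h1
    simp at h1
    simpa using h1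
  | @h_option σ _ IH =>
    intro m hm
    set e := (MvPolynomial.optionEquivLeft K σ).toRingEquiv with he
    have h := RingEquiv.height_map e m
    have hM : (m.map e).IsMaximal := Ideal.map_isMaximal_of_equiv e
    have hp : ((m.map e).under (MvPolynomial σ K)).IsMaximal :=
      Polynomial.isMaximal_comap_C_of_isJacobsonRing _
    have h2 := Polynomial.height_eq_height_add_one ((m.map e).under (MvPolynomial σ K)) (m.map e)
    rw [← h, h2, IH _ hp]
    simp

end HTM

theorem t_HTM : S_HTM := by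
  intro K σ κ _ _ _ F m hm hF hlt
  by_contra hcon
  push Not at hcon
  have hmin : m ∈ (Ideal.span (Set.range F)).minimalPrimes := by
    refine ⟨⟨hm.isPrime, Ideal.span_le.2 ?_⟩, ?_⟩
    · rintro _ ⟨i, rfl⟩
      exact hF i
    · intro q hq hqm
      by_contra hmq
      obtain ⟨i, hi⟩ := hcon q hq.1 (lt_of_le_not_ge hqm hmq)
      exact hi (hq.2 (Ideal.subset_span ⟨i, rfl⟩))
  have h1 := Ideal.height_le_card_of_mem_minimalPrimes_span (Set.finite_range F) hmin
  rw [HTM.height_max K σ m hm] at h1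
  have h2 : (Set.range F).ncard ≤ Fintype.card κ := by
    rw [← Set.image_univ, ← Nat.card_eq_fintype_card, ← Set.ncard_univ]
    exact Set.ncard_image_le (Set.finite_univ)
  have h3 : Nat.card σ ≤ (Set.range F).ncard := by exact_mod_cast h1
  rw [Nat.card_eq_fintype_card] at h3
  omega

end LOWD


end
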