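import Mathlib
import Pool.Agent.QVM.C05
import Pool.Agent.QVM.C12

/-! Parts: CUB.B_BINJ, CUB.R_HHA, LOWD.CLG, LOWD.FNT -/

section

/-!
# CUB, module BINJ: a cycle on `R[X]` whose specialisation is rationally trivial is rationally trivial
-/

set_option autoImplicit false

open Polynomial

namespace CUB

theorem t_BINJ : M_BINJ := by
  intro hFP hGX hL0 hB2 hB3 hBLIN k R E _ _ _ _ _ _ n c e hce he
  obtain ⟨v, d, hvd, hcd⟩ := (hL0 k R E).1 n c
  have hbot : (⊥ : Ideal R).map (CC k R).toRingHom = ⊥ := Ideal.map_bot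
  have hdv : IsBeta k E d v := hB2 k R E n v d hvd
  have hsub : IsBeta k E (c - d) (e - v) := (hBLIN k R E n c d e v 0 hce hdv).2.2.1
  have hev : e - v ∈ rat k R E n := by
    refine hB3 k R E n ⊥ (c - d) (e - v) ?_ hsub
    rw [hbot]
    exact hcd
  have hv : v ∈ rat k R E n := by
    have h1 : v = e - (e - v) := by abel
    rw [h1]
    exact Submodule.sub_mem _ he hev
  have hgood : Good k 1 (CC k R) := hGX.1 k R
  have hd : d ∈ ratOn k E (n + 1) ((⊥ : Ideal R).map (CC k R).toRingHom) :=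
    hFP k R R[X] E 1 n (CC k R) hgood ⊥ v d hvd hv
  rw [hbot] at hd
  have h2 : c = (c - d) + d := by abel
  rw [h2]
  exact Submodule.add_mem _ hcd hd

end CUB


end

section

/-!
# CUB, block R, module HHA
-/

set_option autoImplicit false

namespace CUB

namespace HHA

/-- a finite algebra whose primes lie over maximal ideals has finite length -/
theorem fl (C B : Type) [CommRing C] [IsNoetherianRing C] [CommRing B] [Algebra C B]
    [Module.Finite C B]
    (h : ∀ P : Ideal B, P.IsPrime → (P.comap (algebraMap C B)).IsMaximal) :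
    Module.length C B ≠ ⊤ := by
  set I : Ideal C := RingHom.ker (algebraMap C B) with hI
  let : Algebra (C ⧸ I) B := (RingHom.kerLift (algebraMap C B)).toAlgebra
  have : IsScalarTower C (C ⧸ I) B := IsScalarTower.of_algebraMap_eq fun x => rfl
  have hs : Function.Surjective (algebraMap C (C ⧸ I)) := Ideal.Quotient.mk_surjective
  rw [Module.length_eq_of_surjective (R := C ⧸ I) (S := C) (M := B) hs]
  have : Algebra.IsIntegral C B := Algebra.IsIntegral.of_finite C B
  have : Algebra.IsIntegral C (C ⧸ I) :=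
    Algebra.isIntegral_of_surjective hs
  have hz : ∀ Q : Ideal (C ⧸ I), Q.IsPrime → Q.IsMaximal := by
    intro Q hQ
    have := hQ
    have h1 : (Q.comap (algebraMap C (C ⧸ I))).IsPrime := Ideal.comap_isPrime _ _
    obtain ⟨P, -, hP, hPQ⟩ := Ideal.exists_ideal_over_prime_of_isIntegral
      (Q.comap (algebraMap C (C ⧸ I))) (⊥ : Ideal B) (by
        intro c hc
        rw [Ideal.mem_comap, Ideal.mem_bot] at hc
        rw [Ideal.mem_comap]
        have h2 : algebraMap C (C ⧸ I) c = 0 := Ideal.Quotient.eq_zero_iff_mem.2 hc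
        rw [h2]
        exact Q.zero_mem)
    have h3 := h P hP
    rw [hPQ] at h3
    exact Ideal.isMaximal_of_isIntegral_of_isMaximal_comap Q h3
  have : Ring.KrullDimLE 0 (C ⧸ I) := Ring.krullDimLE_zero_iff.2 hz
  have : IsArtinianRing (C ⧸ I) := IsNoetherianRing.isArtinianRing_of_krullDimLE_zero
  have : Module.Finite (C ⧸ I) B := Module.Finite.of_restrictScalars_finite C _ _
  exact Module.length_ne_top

/-- the same for a quotient of a finite algebra -/
theorem flq (C A : Type) [CommRing C] [IsNoetherianRing C] [CommRing A] [Algebra C A]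
    [Module.Finite C A] (J : Ideal A)
    (h : ∀ P : Ideal A, P.IsPrime → J ≤ P → P.IsMaximal) :
    Module.length C (A ⧸ J) ≠ ⊤ := by
  have : Module.Finite C (A ⧸ J) :=
    Module.Finite.of_surjective (Ideal.Quotient.mkₐ C J).toLinearMap
      (Ideal.Quotient.mkₐ_surjective C J)
  have : Algebra.IsIntegral C A := Algebra.IsIntegral.of_finite C A
  refine fl C (A ⧸ J) ?_
  intro P hP
  have h1 : (P.comap (Ideal.Quotient.mk J)).IsPrime := Ideal.comap_isPrime _ _
  have h2 : J ≤ P.comap (Ideal.Quotient.mk J) := by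
    intro x hx
    rw [Ideal.mem_comap, Ideal.Quotient.eq_zero_iff_mem.2 hx]
    exact P.zero_mem
  have h3 := h _ h1 h2
  have h4 : P.comap (algebraMap C (A ⧸ J)) =
      (P.comap (Ideal.Quotient.mk J)).comap (algebraMap C A) := by
    rw [Ideal.comap_comap]
    rfl
  rw [h4]
  exact Ideal.isMaximal_comap_of_isIntegral_of_isMaximal _

/-- the exact sequence for a product of two elements outside a prime ideal -/
theorem add (C A : Type) [CommRing C] [CommRing A] [Algebra C A]
    (p : Ideal A) (hp : p.IsPrime) (x y : A) (hx : x ∉ p)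
    (h1 : Module.length C (A ⧸ (p ⊔ Ideal.span {x})) ≠ ⊤)
    (h2 : Module.length C (A ⧸ (p ⊔ Ideal.span {y})) ≠ ⊤) :
    lC C (A ⧸ (p ⊔ Ideal.span {x * y})) =
      lC C (A ⧸ (p ⊔ Ideal.span {x})) + lC C (A ⧸ (p ⊔ Ideal.span {y})) := by
  have hle : p ⊔ Ideal.span {y} ≤
      Submodule.comap (LinearMap.lsmul A A x) (p ⊔ Ideal.span {x * y}) := by
    refine sup_le ?_ ?_
    · intro a ha
      exact Ideal.mem_sup_left (p.mul_mem_left x ha)
    · rw [Ideal.span_singleton_le_iff_mem]
      exact Ideal.mem_sup_right (Ideal.mem_span_singleton_self _)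
  have hle2 : p ⊔ Ideal.span {x * y} ≤ p ⊔ Ideal.span {x} := by
    refine sup_le le_sup_left (le_trans ?_ le_sup_right)
    rw [Ideal.span_singleton_le_iff_mem, Ideal.mem_span_singleton]
    exact Dvd.intro y rfl
  let f : (A ⧸ (p ⊔ Ideal.span {y})) →ₗ[A] (A ⧸ (p ⊔ Ideal.span {x * y})) :=
    Submodule.mapQ _ _ (LinearMap.lsmul A A x) hle
  let g : (A ⧸ (p ⊔ Ideal.span {x * y})) →ₗ[A] (A ⧸ (p ⊔ Ideal.span {x})) :=
    Submodule.factor hle2
  have hf : Function.Injective f := by
    rw [← LinearMap.ker_eq_bot, LinearMap.ker_eq_bot']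
    intro m hm
    obtain ⟨a, rfl⟩ := Submodule.Quotient.mk_surjective _ m
    have h3 : (Submodule.Quotient.mk (x * a) : A ⧸ (p ⊔ Ideal.span {x * y})) = 0 := hm
    rw [Submodule.Quotient.mk_eq_zero] at h3
    rw [Submodule.Quotient.mk_eq_zero]
    obtain ⟨u, hu, v, hv, huv⟩ := Submodule.mem_sup.1 h3
    obtain ⟨c, rfl⟩ := Ideal.mem_span_singleton'.1 hv
    have h4 : x * (a - c * y) ∈ p := by
      have : x * (a - c * y) = u := by
        linear_combination -huv
      rw [this]
      exact hu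
    have h5 := (hp.mem_or_mem h4).resolve_left hx
    have h6 : a = (a - c * y) + c * y := by ring
    rw [h6]
    exact Ideal.add_mem _ (Ideal.mem_sup_left h5)
      (Ideal.mem_sup_right (Ideal.mul_mem_left _ _ (Ideal.mem_span_singleton_self _)))
  have hg : Function.Surjective g := by
    intro m
    obtain ⟨a, rfl⟩ := Submodule.Quotient.mk_surjective _ m
    exact ⟨Submodule.Quotient.mk a, rfl⟩
  have hfg : Function.Exact f g := by
    intro m
    obtain ⟨a, rfl⟩ := Submodule.Quotient.mk_surjective _ m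
    constructor
    · intro hm
      have h3 : (Submodule.Quotient.mk a : A ⧸ (p ⊔ Ideal.span {x})) = 0 := hm
      rw [Submodule.Quotient.mk_eq_zero] at h3
      obtain ⟨u, hu, v, hv, huv⟩ := Submodule.mem_sup.1 h3
      obtain ⟨c, rfl⟩ := Ideal.mem_span_singleton'.1 hv
      refine ⟨Submodule.Quotient.mk c, ?_⟩
      show (Submodule.Quotient.mk (x * c) : A ⧸ (p ⊔ Ideal.span {x * y})) = _
      rw [Submodule.Quotient.eq]
      have h4 : x * c - a = -u := by linear_combination huv
      rw [h4]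
      exact Ideal.mem_sup_left (p.neg_mem hu)
    · rintro ⟨n, hn⟩
      obtain ⟨c, rfl⟩ := Submodule.Quotient.mk_surjective _ n
      rw [← hn]
      show (Submodule.Quotient.mk (x * c) : A ⧸ (p ⊔ Ideal.span {x})) = 0
      rw [Submodule.Quotient.mk_eq_zero]
      exact Ideal.mem_sup_right (Ideal.mul_mem_right _ _ (Ideal.mem_span_singleton_self _))
  have h := Module.length_eq_add_of_exact (f.restrictScalars C) (g.restrictScalars C) hf hg hfg
  unfold lC
  rw [h, ENat.toNat_add h2 h1, add_comm]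

end HHA

theorem t_HHA : S_HHA := by
  intro C A K _ _ _ _ _ _ _ _ _ _ _ hS
  have hfin := hS.fin
  have hfrC := hS.frC
  have hfrA := hS.frA
  have hinj : Function.Injective (algebraMap C A) := by
    have h1 : Function.Injective (algebraMap C K) := IsFractionRing.injective C K
    rw [IsScalarTower.algebraMap_eq C A K] at h1
    exact Function.Injective.of_comp (f := algebraMap A K) h1
  have hint : Algebra.IsIntegral C A := Algebra.IsIntegral.of_finite C A
  have hnA : IsNoetherian C A := isNoetherian_of_isNoetherianRing_of_finite C A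
  have hn : IsNoetherianRing A := isNoetherian_of_tower C hnA
  have hfs : FaithfulSMul C A := (faithfulSMul_iff_algebraMap_injective C A).2 hinj
  -- (7)
  have h7 : ∀ z ∈ HH C, ∀ p' : Ideal C, p'.IsPrime → p' < z.asIdeal → p' = ⊥ := by
    intro z hz p' hp' hlt
    by_contra hne
    have := hS.dim p' z.asIdeal hp' z.2 hne hlt
    apply hz.2
    rw [this]
    infer_instance
  -- (2)
  have h2 : ∀ p ∈ HH A, PrimeSpectrum.comap (algebraMap C A) p ∈ HH C := by
    intro p hp
    refine ⟨?_, ?_⟩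
    · intro h
      exact hp.1 (Ideal.eq_bot_of_comap_eq_bot h)
    · intro h
      exact hp.2 (Ideal.isMaximal_of_isIntegral_of_isMaximal_comap p.asIdeal h)
  -- (3)
  have h3 : ∀ p ∈ HH A, ∀ p' : Ideal A, p'.IsPrime → p' < p.asIdeal → p' = ⊥ := by
    intro p hp p' hp' hlt
    have hl : p'.comap (algebraMap C A) < p.asIdeal.comap (algebraMap C A) :=
      Ideal.IsIntegral.comap_lt_comap hlt
    have := h7 _ (h2 p hp) (p'.comap (algebraMap C A)) (Ideal.comap_isPrime _ _) hl
    exact Ideal.eq_bot_of_comap_eq_bot this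
  -- a prime ideal strictly above a prime in HH is maximal
  have h3' : ∀ p ∈ HH A, ∀ P : Ideal A, P.IsPrime → p.asIdeal < P → P.IsMaximal := by
    intro p hp P hP hlt
    by_contra hne
    have hP' : (⟨P, hP⟩ : PrimeSpectrum A) ∈ HH A := by
      refine ⟨?_, hne⟩
      intro h
      have h' : P = ⊥ := h
      rw [h'] at hlt
      exact absurd hlt (not_lt_bot)
    exact hp.1 (h3 _ hP' p.asIdeal p.2 hlt)
  -- (5)
  have h5 : ∀ p ∈ HH A, ∀ x, x ∉ p.asIdeal →
      Module.length C (A ⧸ (p.asIdeal ⊔ Ideal.span {x})) ≠ ⊤ := by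
    intro p hp x hx
    refine HHA.flq C A _ ?_
    intro P hP hle
    refine h3' p hp P hP (lt_of_le_of_ne (le_trans le_sup_left hle) ?_)
    intro h
    apply hx
    rw [h]
    exact hle (Ideal.mem_sup_right (Ideal.mem_span_singleton_self _))
  refine ⟨hn, h2, h3, ?_, h5, ?_, h7, ?_, ?_⟩
  · -- (4)
    intro x hx
    have hf : ((Ideal.span {x}).minimalPrimes).Finite :=
      Ideal.finite_minimalPrimes_of_isNoetherianRing A _
    refine Set.Finite.of_finite_image (f := PrimeSpectrum.asIdeal) (hf.subset ?_) ?_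
    · rintro _ ⟨p, ⟨hp, hxp⟩, rfl⟩
      refine ⟨⟨p.2, (Ideal.span_singleton_le_iff_mem _).2 hxp⟩, ?_⟩
      rintro q ⟨hq, hxq⟩ hle
      by_contra hnle
      have hlt : q < p.asIdeal := lt_of_le_not_ge hle hnle
      have := h3 p hp q hq hlt
      rw [this] at hxq
      have h0 : x ∈ (⊥ : Ideal A) := hxq (Ideal.mem_span_singleton_self _)
      exact hx (by simpa using h0)
    · intro p _ q _ h
      exact PrimeSpectrum.ext h
  · -- (6)
    intro p hp x y hx hy
    exact HHA.add C A p.asIdeal p.2 x y hx (h5 p hp x hx) (h5 p hp y hy)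
  · -- (8)
    intro z hz x hx
    refine HHA.flq C C _ ?_
    intro P hP hle
    have hlt : z.asIdeal < P := by
      refine lt_of_le_of_ne (le_trans le_sup_left hle) ?_
      intro h
      apply hx
      rw [h]
      exact hle (Ideal.mem_sup_right (Ideal.mem_span_singleton_self _))
    rw [hS.dim z.asIdeal P z.2 hP hz.1 hlt]
    infer_instance
  · -- (9)
    intro x y hx hy h
    refine HHA.flq C A _ ?_
    intro P hP hle
    by_contra hne
    have hxP : x ∈ P := hle (Ideal.mem_sup_left (Ideal.mem_span_singleton_self _))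
    have hyP : y ∈ P := hle (Ideal.mem_sup_right (Ideal.mem_span_singleton_self _))
    refine h ⟨P, hP⟩ ⟨?_, hne⟩ hxP hyP
    intro hb
    have hb' : P = ⊥ := hb
    rw [hb'] at hxP
    exact hx (by simpa using hxP)

end CUB


end

section

/-!
# LOWD, module CLG: points on curves over a finite field are torsion
-/

set_option autoImplicit false

namespace LOWD

open CUB

namespace CLG

open Classical

section Core

variable {k A B E : Type} [Field k] [Finite k] [CommRing A] [CommRing B] [Algebra k A]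
  [Algebra k B] [Algebra.FiniteType k A] [Algebra.FiniteType k B] [Field E] [CharZero E]

lemma not_top_le (p : PrimeSpectrum A) : ¬ (⊤ : Ideal A) ≤ p.asIdeal :=
  fun h => p.2.ne_top (top_le_iff.1 h)

/-- the case of a finite homomorphism to a Dedekind domain of dimension one -/
lemma core (hDIM1 : S_DIM1) (hLENC : S_LENC) (hDVX : S_DVX) (hFLD : S_FLD) (hFPR : S_FPR)
    (hCLF : S_CLF) [IsDomain B] [IsNoetherianRing B] [IsIntegrallyClosed B] (φ : A →ₐ[k] B)
    (hfin : FinOn φ ⊤) (q : RP k A 1) (p : RP k A 0)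
    (P0 : PrimeSpectrum B) (hP0 : P0.asIdeal = ⊥)
    (hq : PrimeSpectrum.comap φ.toRingHom P0 = q.1)
    (P : PrimeSpectrum B) (hP : PrimeSpectrum.comap φ.toRingHom P = p.1) :
    Finsupp.single p (1 : E) ∈ rat k A E 0 := by
  have hdim : ∀ Q : PrimeSpectrum B, rdim k (PrimeSpectrum.comap φ.toRingHom Q) = rdim k Q :=
    fun Q => (hFLD k A B φ ⊤ hfin Q (not_top_le _)).2.2.1
  have h0 : rdim k P0 = 1 := by
    rw [← hdim P0, hq]
    exact_mod_cast q.2
  have hPd : rdim k P = 0 := by
    rw [← hdim P, hP]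
    exact_mod_cast p.2
  have hmax : ∀ Q : PrimeSpectrum B, Q.asIdeal ≠ ⊥ → Q.asIdeal.IsMaximal ∧ rdim k Q = 0 := by
    intro Q hQ
    have h1 : P0 < Q := by
      refine lt_of_le_of_ne ?_ ?_
      · change P0.asIdeal ≤ Q.asIdeal
        rw [hP0]
        exact bot_le
      · rintro rfl
        exact hQ hP0
    have h2 := (hDIM1 k B P0).2 Q h1
    rw [h0] at h2
    have h3 : rdim k Q = 0 := Cardinal.lt_one_iff.1 h2
    refine ⟨?_, h3⟩
    obtain ⟨m, hm, hle⟩ := Q.asIdeal.exists_le_maximal Q.2.ne_top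
    by_cases h4 : Q.asIdeal = m
    · rw [h4]
      exact hm
    · have h5 : Q < ⟨m, hm.isPrime⟩ := lt_of_le_of_ne hle fun h => h4 (congrArg _ h)
      have h6 := (hDIM1 k B Q).2 _ h5
      rw [h3] at h6
      exact absurd h6 (by simp)
  have hdle : Ring.DimensionLEOne B :=
    ⟨fun {Q} hQ hQp => (hmax ⟨Q, hQp⟩ hQ).1⟩
  have : IsDedekindDomain B := { }
  have htr : Algebra.trdeg k B = 1 := by
    have e : (B ⧸ P0.asIdeal) ≃ₐ[k] B := by
      rw [hP0]
      exact AlgEquiv.quotientBot k B
    rw [← AlgEquiv.trdeg_eq e]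
    exact h0
  have hcl : Finite (ClassGroup B) := hCLF k B htr
  have hPne : P.asIdeal ≠ ⊥ := by
    intro h
    have h1 : P = P0 := PrimeSpectrum.ext (h.trans hP0.symm)
    rw [h1, h0] at hPd
    exact one_ne_zero hPd
  -- a power of `P` is principal
  obtain ⟨n, hn, b, hb⟩ : ∃ n : ℕ, 0 < n ∧ ∃ b : B, P.asIdeal ^ n = Ideal.span {b} := by
    let I : nonZeroDivisors (Ideal B) := ⟨P.asIdeal, mem_nonZeroDivisors_of_ne_zero hPne⟩
    have h1 := isOfFinOrder_of_finite (ClassGroup.mk0 I)
    obtain ⟨n, hn, h2⟩ := isOfFinOrder_iff_pow_eq_one.1 h1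
    rw [← map_pow, ClassGroup.mk0_eq_one_iff] at h2
    obtain ⟨b, hb⟩ := h2
    exact ⟨n, hn, b, hb⟩
  have hb0 : b ≠ 0 := by
    rintro rfl
    rw [Ideal.span_singleton_eq_bot.2 rfl] at hb
    exact hPne (pow_eq_zero_iff (M₀ := Ideal B) hn.ne' |>.1 hb)
  have hbP : b ∈ P.asIdeal := by
    have h1 : b ∈ P.asIdeal ^ n := by
      rw [hb]
      exact Ideal.mem_span_singleton_self b
    exact Ideal.pow_le_self hn.ne' h1
  have hPmem : ∀ Q : PrimeSpectrum B, b ∈ Q.asIdeal → rdim k Q = 0 → Q = P := by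
    intro Q hQ _
    have h1 : P.asIdeal ^ n ≤ Q.asIdeal := by
      rw [hb, Ideal.span_singleton_le_iff_mem]
      exact hQ
    have h2 : P.asIdeal ≤ Q.asIdeal := Q.2.le_of_pow_le h1
    exact PrimeSpectrum.ext ((hmax P hPne).1.eq_of_le Q.2.ne_top h2).symm
  let q0 : RP k B (0 + 1) := ⟨P0, by rw [h0]; norm_num⟩
  let P1 : RP k B 0 := ⟨P, by rw [hPd]; norm_num⟩
  have hbq : b ∉ q0.1.asIdeal := by
    change b ∉ P0.asIdeal
    rw [hP0]
    exact hb0
  obtain ⟨c, hc⟩ := hDVX k B E 0 q0 b hbq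
  have hcrat : c ∈ rat k B E 0 := Submodule.subset_span ⟨q0, b, bot_le, hbq, hc⟩
  have hcP : c P1 ≠ 0 := by
    rw [hc P1]
    have h1 := (hLENC k B 0 q0 P1).2.2.1 b hbq (by
      change P0.asIdeal ≤ P.asIdeal
      rw [hP0]
      exact bot_le) hbP
    exact_mod_cast h1
  have hcs : c = Finsupp.single P1 (c P1) := by
    ext Q
    by_cases hQ : Q = P1
    · rw [hQ, Finsupp.single_eq_same]
    · rw [Finsupp.single_eq_of_ne (by tauto)]
      by_contra hne
      rw [hc Q] at hne
      have h1 : len (q0.1.asIdeal ⊔ Ideal.span {b}) Q.1 ≠ 0 := by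
        intro h
        exact hne (by rw [h]; norm_num)
      have h2 := ((hLENC k B 0 q0 Q).2.1 b h1).2
      have h3 : rdim k Q.1 = 0 := by exact_mod_cast Q.2
      exact hQ (Subtype.ext (hPmem Q.1 h2 h3))
  obtain ⟨z, hz, hzv⟩ := hFPR k A B E φ ⊤ hfin 0 c hcrat
  have hdg : dg φ P ≠ 0 := (hFLD k A B φ ⊤ hfin P (not_top_le _)).2.1
  have hzs : z = Finsupp.single p ((dg φ P : E) * c P1) := by
    ext p'
    rw [hzv p' (not_top_le _), hcs, Finsupp.sum_single_index]
    · rw [Finsupp.single_eq_same]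
      change (if PrimeSpectrum.comap φ.toRingHom P = p'.1 then _ else _) = _
      rw [hP]
      by_cases h : p = p'
      · subst h
        rw [if_pos rfl, Finsupp.single_eq_same]
      · rw [if_neg (fun h' => h (Subtype.ext h')), Finsupp.single_eq_of_ne (by tauto)]
    · split_ifs <;> simp
  have hne : (dg φ P : E) * c P1 ≠ 0 := mul_ne_zero (by exact_mod_cast hdg) hcP
  have h1 : Finsupp.single p (1 : E) = ((dg φ P : E) * c P1)⁻¹ • z := by
    rw [hzs, Finsupp.smul_single, smul_eq_mul, inv_mul_cancel₀ hne]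
  rw [h1]
  exact Submodule.smul_mem _ _ hz

end Core

/-- a finite algebra over a quotient is finite outside the empty set -/
lemma finOn_top {k A B : Type} [Field k] [CommRing A] [CommRing B] [Algebra k A] [Algebra k B]
    (I : Ideal A) [Algebra (A ⧸ I) B] [Module.Finite (A ⧸ I) B] (φ : A →ₐ[k] B)
    (hφ : ∀ a, φ a = algebraMap (A ⧸ I) B (Ideal.Quotient.mk I a)) (J : Ideal A) :
    FinOn φ J := by
  intro h _
  obtain ⟨M, hM⟩ := (Module.Finite.fg_top : (⊤ : Submodule (A ⧸ I) B).FG)
  refine ⟨M, fun b => ?_⟩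
  have hb : b ∈ Submodule.span (A ⧸ I) (M : Set B) := by
    rw [hM]
    exact Submodule.mem_top
  obtain ⟨f, _, hf⟩ := Submodule.mem_span_finset.1 hb
  choose g hg using fun x : A ⧸ I => Ideal.Quotient.mk_surjective (I := I) x
  refine ⟨0, fun m => g (f m), ?_⟩
  rw [pow_zero, one_mul, ← hf]
  refine Finset.sum_congr rfl fun m _ => ?_
  rw [hφ, hg, Algebra.smul_def]

end CLG

open _root_.LOWD.CLG in
/-- **Module CLG** -/
theorem t_CLG : M_CLG := by
  intro hDIM1 hLENC hDVX hFIN hFLD hFPR hCLF k A E _ _ _ _ _ _ _ q p hqp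
  have := q.1.2
  have := p.1.2
  have : PerfectField k := inferInstance
  let D := A ⧸ q.1.asIdeal
  let K := FractionRing D
  let B := integralClosure D K
  have hfinB : Module.Finite D B := hFIN k D K
  have hftD : Algebra.FiniteType k D := finiteType_quo k A q.1.asIdeal
  have : IsScalarTower k D B := inferInstance
  have hftB : Algebra.FiniteType k B := Algebra.FiniteType.trans (S := D) hftD inferInstance
  have : IsNoetherianRing A := Algebra.FiniteType.isNoetherianRing k A
  have : IsNoetherianRing B := IsNoetherianRing.of_finite D B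
  have : IsIntegrallyClosed B := integralClosure.isIntegrallyClosedOfFiniteExtension K
  let φ : A →ₐ[k] B := (IsScalarTower.toAlgHom k D B).comp (Ideal.Quotient.mkₐ k q.1.asIdeal)
  have hφ : ∀ a, φ a = algebraMap D B (Ideal.Quotient.mk q.1.asIdeal a) := fun a => rfl
  have hinj : Function.Injective (algebraMap D B) := by
    have h1 : Function.Injective (algebraMap D K) := IsFractionRing.injective D K
    exact Function.Injective.of_comp (f := algebraMap B K) h1
  have hker : RingHom.ker (algebraMap D B) = ⊥ := (RingHom.injective_iff_ker_eq_bot _).1 hinj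
  have hsurj : Function.Surjective (Ideal.Quotient.mk q.1.asIdeal) := Ideal.Quotient.mk_surjective
  have hcomap : ∀ Q : PrimeSpectrum B, (PrimeSpectrum.comap φ.toRingHom Q).asIdeal =
      (Q.asIdeal.comap (algebraMap D B)).comap (Ideal.Quotient.mk q.1.asIdeal) := fun Q => rfl
  have hpb : (p.1.asIdeal.map (Ideal.Quotient.mk q.1.asIdeal)).IsPrime :=
    Ideal.map_isPrime_of_surjective hsurj (by rw [Ideal.mk_ker]; exact hqp)
  have hpc : (p.1.asIdeal.map (Ideal.Quotient.mk q.1.asIdeal)).comap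
      (Ideal.Quotient.mk q.1.asIdeal) = p.1.asIdeal := by
    rw [Ideal.comap_map_of_surjective _ hsurj, ← RingHom.ker_eq_comap_bot, Ideal.mk_ker,
      sup_eq_left]
    exact hqp
  obtain ⟨P, _, hPp, hPc⟩ := Ideal.exists_ideal_over_prime_of_isIntegral
    (p.1.asIdeal.map (Ideal.Quotient.mk q.1.asIdeal)) (⊥ : Ideal B) (by
      rw [← RingHom.ker_eq_comap_bot, hker]
      exact bot_le)
  refine core (B := B) hDIM1 hLENC hDVX hFLD hFPR hCLF φ
    (finOn_top q.1.asIdeal φ hφ ⊤) q p ⟨⊥, Ideal.isPrime_bot⟩ rfl ?_ ⟨P, hPp⟩ ?_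
  · apply PrimeSpectrum.ext
    rw [hcomap]
    change ((⊥ : Ideal B).comap (algebraMap D B)).comap (Ideal.Quotient.mk q.1.asIdeal) = _
    rw [← RingHom.ker_eq_comap_bot, hker, ← RingHom.ker_eq_comap_bot, Ideal.mk_ker]
  · apply PrimeSpectrum.ext
    rw [hcomap]
    change (P.comap (algebraMap D B)).comap (Ideal.Quotient.mk q.1.asIdeal) = _
    rw [hPc, hpc]

end LOWD


end

section

/-!
# LOWD, module FNT

`BR G S a` is a finite algebra over `A` outside the closed subset `V(JJ G S)`.
-/

set_option autoImplicit false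

open Polynomial

namespace LOWD

namespace FNT

section General

variable {σ A B : Type} [CommRing A] [CommRing B] [Algebra A B]

/-- The homomorphism `A[σ] → B[T]`, `X j ↦ v j T`. -/
noncomputable def th (v : σ → B) : MvPolynomial σ A →ₐ[A] B[X] :=
  MvPolynomial.aeval (fun j => C (v j) * X)

/-- The monomials in the `v j`. -/
noncomputable def vm (v : σ → B) (m : σ →₀ ℕ) : B := m.prod fun j n => v j ^ n

/-- The span of the monomials of degree `≤ D`. -/
noncomputable def W (A : Type) [CommRing A] [Algebra A B] (v : σ → B) (D : ℕ) : Submodule A B :=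
  Submodule.span A (vm v '' {m | m.degree ≤ D})

lemma vm_mem {v : σ → B} {m : σ →₀ ℕ} {D : ℕ} (h : m.degree ≤ D) : vm v m ∈ W A v D :=
  Submodule.subset_span ⟨m, h, rfl⟩

lemma W_mono (v : σ → B) {D D' : ℕ} (h : D ≤ D') : W A v D ≤ W A v D' :=
  Submodule.span_mono (Set.image_mono fun _ hm => le_trans hm h)

lemma aeval_mon (v : σ → B) (m : σ →₀ ℕ) (c : A) :
    MvPolynomial.aeval v (MvPolynomial.monomial m c) = c • vm v m := by
  rw [MvPolynomial.aeval_monomial, Algebra.smul_def]
  rfl

lemma th_mon (v : σ → B) (m : σ →₀ ℕ) (c : A) :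
    th v (MvPolynomial.monomial m c) = C (c • vm v m) * X ^ m.degree := by
  unfold th
  rw [MvPolynomial.aeval_monomial, Algebra.smul_def, Polynomial.algebraMap_apply, C_mul, mul_assoc]
  congr 1
  unfold vm Finsupp.prod
  rw [map_prod, Finsupp.degree_apply, ← Finset.prod_pow_eq_pow_sum, ← Finset.prod_mul_distrib]
  refine Finset.prod_congr rfl fun i _ => ?_
  change (C (v i) * X) ^ m i = C (v i ^ m i) * X ^ m i
  rw [mul_pow, C_pow]

lemma th_hom (v : σ → B) (F : MvPolynomial σ A) (n : ℕ) (hF : F.IsHomogeneous n) :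
    th v F = C (MvPolynomial.aeval v F) * X ^ n := by
  conv_lhs => rw [MvPolynomial.as_sum F]
  conv_rhs => rw [MvPolynomial.as_sum F]
  rw [map_sum, map_sum, map_sum, Finset.sum_mul]
  refine Finset.sum_congr rfl fun m hm => ?_
  rw [th_mon, aeval_mon]
  congr 2
  have h := hF (MvPolynomial.mem_support_iff.mp hm)
  rw [Finsupp.degree_eq_weight_one]
  exact h

lemma th_coeff (v : σ → B) (F : MvPolynomial σ A) (D : ℕ) : (th v F).coeff D ∈ W A v D := by
  rw [MvPolynomial.as_sum F, map_sum, finsetSum_coeff]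
  refine Submodule.sum_mem _ fun m _ => ?_
  rw [th_mon, coeff_C_mul, coeff_X_pow]
  split_ifs with h
  · rw [mul_one]
    exact Submodule.smul_mem _ _ (vm_mem h.ge)
  · rw [mul_zero]
    exact Submodule.zero_mem _

end General

section Main

variable {σ κ A : Type} [CommRing A] (G : κ → MvPolynomial σ A) (S : Set σ) (a : σ)

lemma aeval_vB (F : MvPolynomial σ A) :
    MvPolynomial.aeval (vB G S a) F = Ideal.Quotient.mk (relB G S a) F := by
  have h : (MvPolynomial.aeval (vB G S a) : MvPolynomial σ A →ₐ[A] BR G S a) =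
      Ideal.Quotient.mkₐ A _ := by
    apply MvPolynomial.algHom_ext
    intro j
    simp [vB]
  rw [h]
  rfl

lemma aeval_G (i : κ) : MvPolynomial.aeval (vB G S a) (G i) = 0 := by
  rw [aeval_vB]
  exact Ideal.Quotient.eq_zero_iff_mem.mpr (Ideal.subset_span (Or.inr (Or.inr ⟨i, rfl⟩)))

lemma vB_a : vB G S a a = 1 := by
  have h : Ideal.Quotient.mk (relB G S a) (MvPolynomial.X a - 1) = 0 :=
    Ideal.Quotient.eq_zero_iff_mem.mpr (Ideal.subset_span (Or.inl rfl))
  rw [map_sub, map_one, sub_eq_zero] at h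
  exact h

lemma vB_zero (j : σ) (h : j ∉ S) (h' : j ≠ a) : vB G S a j = 0 :=
  Ideal.Quotient.eq_zero_iff_mem.mpr
    (Ideal.subset_span (Or.inr (Or.inl ⟨j, ⟨h, h'⟩, rfl⟩)))

/-- The image of `relS G S` consists of multiples of `T`. -/
lemma th_relS (e : κ → ℕ) (hG : ∀ i, (G i).IsHomogeneous (e i)) (F : MvPolynomial σ A)
    (hF : F ∈ relS G S) : ∃ F' : MvPolynomial σ A, th (vB G S a) F = X * th (vB G S a) F' := by
  unfold relS at hF
  induction hF using Submodule.span_induction with
  | mem x hx =>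
    rcases hx with ⟨j, hj, rfl⟩ | ⟨i, rfl⟩
    · by_cases h : j = a
      · refine ⟨1, ?_⟩
        subst h
        simp [th, vB_a]
      · refine ⟨0, ?_⟩
        simp [th, vB_zero G S a j hj h]
    · refine ⟨0, ?_⟩
      rw [th_hom _ _ _ (hG i), aeval_G]
      simp
  | zero => exact ⟨0, by simp⟩
  | add x y _ _ hx hy =>
    obtain ⟨F, hF⟩ := hx
    obtain ⟨F', hF'⟩ := hy
    exact ⟨F + F', by rw [map_add, map_add, hF, hF', mul_add]⟩
  | smul c x _ hx =>
    obtain ⟨F, hF⟩ := hx
    exact ⟨c * F, by rw [smul_eq_mul, map_mul, map_mul, hF]; ring⟩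

variable {G S}

lemma step (e : κ → ℕ) (hG : ∀ i, (G i).IsHomogeneous (e i)) (h : A) (N : ℕ)
    (hN : ∀ m : σ →₀ ℕ, N ≤ m.degree → MvPolynomial.monomial m h ∈ relS G S) (D : ℕ)
    (hD : N ≤ D + 1) (b : BR G S a) (hb : b ∈ W A (vB G S a) (D + 1)) :
    h • b ∈ W A (vB G S a) D := by
  have key : W A (vB G S a) (D + 1) ≤
      (W A (vB G S a) D).comap (LinearMap.lsmul A (BR G S a) h) := by
    refine Submodule.span_le.mpr ?_
    rintro _ ⟨m, hm, rfl⟩
    change h • vm (vB G S a) m ∈ W A (vB G S a) D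
    rcases Nat.lt_or_ge m.degree (D + 1) with h1 | h1
    · exact Submodule.smul_mem _ _ (vm_mem (Nat.lt_succ_iff.mp h1))
    · have h2 : m.degree = D + 1 := le_antisymm hm h1
      obtain ⟨F', hF'⟩ := th_relS G S a e hG _ (hN m (hD.trans h1))
      have h3 : (th (vB G S a) (MvPolynomial.monomial m h)).coeff (D + 1) =
          h • vm (vB G S a) m := by
        rw [th_mon, h2, coeff_C_mul, coeff_X_pow, if_pos rfl, mul_one]
      rw [← h3, hF', coeff_X_mul]
      exact th_coeff _ _ _
  exact key hb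

lemma exists_pow (e : κ → ℕ) (hG : ∀ i, (G i).IsHomogeneous (e i)) (h : A) (N : ℕ)
    (hN : ∀ m : σ →₀ ℕ, N ≤ m.degree → MvPolynomial.monomial m h ∈ relS G S) (D : ℕ) :
    ∀ b ∈ W A (vB G S a) (N + D), ∃ s : ℕ, h ^ s • b ∈ W A (vB G S a) N := by
  induction D with
  | zero => exact fun b hb => ⟨0, by simpa using hb⟩
  | succ D ih =>
    intro b hb
    obtain ⟨s, hs⟩ := ih (h • b) (step a e hG h N hN (N + D) (by omega) b hb)
    exact ⟨s + 1, by rw [pow_succ, mul_smul]; exact hs⟩

end Main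

end FNT

open _root_.LOWD.FNT in
theorem t_FNT : S_FNT := by
  classical
  intro k A σ κ _ _ _ _ G e hG S a _ h hh
  obtain ⟨N, hN⟩ := (mem_JJ G S h).mp hh
  have hfin : (vm (vB G S a) '' {m : σ →₀ ℕ | m.degree ≤ N}).Finite :=
    (Finsupp.finite_of_degree_le N).image _
  refine ⟨hfin.toFinset, fun b => ?_⟩
  obtain ⟨F, rfl⟩ := Ideal.Quotient.mk_surjective b
  have h1 : Ideal.Quotient.mk (relB G S a) F ∈ W A (vB G S a) (N + F.totalDegree) := by
    rw [← aeval_vB, MvPolynomial.as_sum F, map_sum]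
    refine Submodule.sum_mem _ fun m hm => ?_
    rw [aeval_mon]
    refine Submodule.smul_mem _ _ (vm_mem ?_)
    have h2 := MvPolynomial.le_totalDegree hm
    rw [← MvPolynomial.as_sum F]
    exact (show m.degree ≤ F.totalDegree from h2).trans (Nat.le_add_left _ _)
  obtain ⟨s, hs⟩ := exists_pow a e hG h N hN F.totalDegree _ h1
  have h3 : h ^ s • Ideal.Quotient.mk (relB G S a) F ∈
      Submodule.span A (hfin.toFinset : Set (BR G S a)) := by
    rw [Set.Finite.coe_toFinset]
    exact hs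
  obtain ⟨c, -, hc⟩ := Submodule.mem_span_finset.mp h3
  refine ⟨s, c, ?_⟩
  have h4 : ∀ x : A, BRh k G S a x = algebraMap A (BR G S a) x := fun _ => rfl
  simp only [h4]
  rw [← map_pow, ← Algebra.smul_def, ← hc]
  refine Finset.sum_congr rfl fun m _ => ?_
  exact Algebra.smul_def (c m) m

end LOWD


end
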