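import Mathlib

/-! Parts: QCV.StD1, QCV.D_DSG, QCV.D_DAU, QCV.D_DNR, QCV.D_DCG, QCV.D_DDT, QCV.D_DEX, QCV.D_DLN, QCV.D_DTR, QCV.D_DHG, QCV.StU1, QCV.U_ULC, QCV.U_UGM, QCV.U_USB -/

section

/-!
# QCV, block D: statements (all cubic hypersurfaces), part 1 (only Mathlib)

Goal.  Let `k` be a perfect field of characteristic different from two and `F` a form of degree three
in `n` variables over `k`, `n ≤ d + 4`, `1 ≤ d`.  Then the affine cone `F = 0` belongs to the class
(so the projective cubic hypersurface does; `d = 1`: all cubic threefolds, with arbitrary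
singularities).  Proof.
* `S_DLN`: over a finite extension of `k` the form `F` (`4 ≤ n`) vanishes on a line.
* `S_DNR`: then `F` is `lcub G` in suitable coordinates (`s = 2`, `a = n - 3`), `G` a quadratic form
  in three variables over `K[y_0, ..., y_a]`.
* If `(lgram G).det ≠ 0` then its rank is odd (`S_DRK`), and `S_CUB` applies.
* If `(lgram G).det = 0` then `F` has a rational singular point (`S_DDT`), so in suitable coordinates
  `F = x_0 Q + H` (`S_DSG`), and `S_DSI` (or the induction hypothesis, if `Q = 0`) applies.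
* Descent along the finite etale covering defined by the extension of `k` (`S_DBC`, `S_DDS`) for `F`
  irreducible; otherwise `F = 0` or `F = l q` (`S_DFC`), `S_DRC`.
-/

set_option autoImplicit false

open Polynomial

namespace QCV

/-- The cubic form `G(1, x_1, ..., x_s)` in `R[y_0, ..., y_a, x_1, ..., x_s]` (a copy of `cub`, StC). -/
noncomputable def lcub {R : Type} [CommRing R] {a s : ℕ}
    (G : MvPolynomial (Fin (s + 1)) (MvPolynomial (Fin (a + 1)) R)) :
    MvPolynomial (Fin (a + s + 1)) R :=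
  MvPolynomial.eval₂
    (MvPolynomial.rename fun i : Fin (a + 1) => (⟨i.1, by omega⟩ : Fin (a + s + 1))).toRingHom
    (Fin.cons 1 fun j : Fin s => MvPolynomial.X ⟨a + 1 + j.1, by omega⟩) G

/-- The matrix of second derivatives of a quadratic form (a copy of `gram`, DefsO). -/
noncomputable def lgram {A : Type} [CommRing A] {n : ℕ} (f : MvPolynomial (Fin n) A) :
    Matrix (Fin n) (Fin n) A :=
  fun i j => MvPolynomial.coeff 0 (MvPolynomial.pderiv i (MvPolynomial.pderiv j f))

/-- The homomorphism `x_0 ↦ c`, `x_(j+1) ↦ x_j` (a copy of `sp`, StC). -/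
noncomputable def lsp {R : Type} [CommRing R] {n : ℕ} (c : R) :
    MvPolynomial (Fin (n + 1)) R →ₐ[R] MvPolynomial (Fin n) R :=
  MvPolynomial.aeval (Fin.cons (MvPolynomial.C c) MvPolynomial.X)

/-- **DAU** (linear automorphisms with prescribed columns).
Proof.  The linearly independent family `v` extends to a basis of `K^n` indexed by `Fin n`, with
`v j` at the place `ι j` (`LinearIndependent.extend`, or: linear maps between complements of the
spans, `Submodule.exists_isCompl`, `finrank`), so there is an invertible matrix `M` with these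
columns.  `e = aeval (fun i => ∑ j, C (M i j) * X j)` (`= MvPolynomial.bind₁ M.toMvPolynomial`;
`Matrix.toMvPolynomial_mul`, `toMvPolynomial_one` give the inverse, from `M⁻¹`). -/
def S_DAU : Prop :=
  ∀ (K : Type) [Field K] (n m : ℕ) (ι : Fin m → Fin n) (v : Fin m → Fin n → K),
    Function.Injective ι → LinearIndependent K v →
    ∃ (M : Matrix (Fin n) (Fin n) K) (e : MvPolynomial (Fin n) K ≃ₐ[K] MvPolynomial (Fin n) K),
      (∀ i j, M i (ι j) = v j i) ∧
      ∀ i, e (MvPolynomial.X i) = ∑ j, MvPolynomial.C (M i j) * MvPolynomial.X j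

/-- **DSG** (normal form at a singular point).
Proof.  `S_DAU` with `m = 1`, `ι = 0`, `v = p`: `F' = e F` is homogeneous of degree three
(`IsHomogeneous.aeval` or so, the `e (X i)` are homogeneous of degree one).  With
`e₀ = (1, 0, ..., 0)`: `eval e₀ (e G) = eval p G` for all `G`; the chain rule
`pderiv j (e F) = ∑ i, C (M i j) * e (pderiv i F)` (both sides are derivations along `e`; induction
on `F`) gives `eval e₀ (pderiv j F') = 0` for all `j`.  So the coefficients of `x_0 ^ 3` and
`x_0 ^ 2 x_j` in `F'` are zero (for a form of degree three and `j ≠ 0` the value of `pderiv j F'` at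
`e₀` is the coefficient of `x_0 ^ 2 x_j`, and `eval e₀ F'` is the coefficient of `x_0 ^ 3`).
`finSuccEquiv F'` has coefficients `c_i`, homogeneous of degree `3 - i`, `c_i = 0` for `i > 3`
(see R_LIN, C_HCH); `c_3 = c_2 = 0`; `Q = c_1`, `H = c_0`. -/
def S_DSG : Prop :=
  ∀ (K : Type) [Field K] (n : ℕ) (F : MvPolynomial (Fin (n + 1)) K) (p : Fin (n + 1) → K),
    F.IsHomogeneous 3 → p ≠ 0 → MvPolynomial.eval p F = 0 →
    (∀ i, MvPolynomial.eval p (MvPolynomial.pderiv i F) = 0) →
    ∃ (Q H : MvPolynomial (Fin n) K)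
      (e : MvPolynomial (Fin (n + 1)) K ≃ₐ[K] (MvPolynomial (Fin n) K)[X]),
      Q.IsHomogeneous 2 ∧ H.IsHomogeneous 3 ∧ e F = C Q * X + C H

def M_DSG : Prop := S_DAU → S_DSG

/-- `F` vanishes on a line over the extension `L` of `K`. -/
def HasLine {K : Type} [Field K] {n : ℕ} (F : MvPolynomial (Fin n) K) (L : Type) [Field L]
    [Algebra K L] : Prop :=
  ∃ p q : Fin n → L, LinearIndependent L ![p, q] ∧
    MvPolynomial.aeval (fun i => MvPolynomial.C (p i) * MvPolynomial.X 0 +
      MvPolynomial.C (q i) * MvPolynomial.X 1 : Fin n → MvPolynomial (Fin 2) L) F = 0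

/-- **DCG**: a cubic form which vanishes on the linear subspace `y_0 = ... = y_a = 0` is of the form
`lcub G`.
Proof.  Every monomial of `F` is `y^α x^ν`, `|α| + |ν| = 3`, `α ≠ 0`, so `|ν| ≤ 2`.  Let `G` be the sum
over the monomials `y^α x^ν` of `F` with coefficient `c` of `c y^α x_0 ^ (2 - |ν|) x^ν`
(`monomial _ (monomial α c)`; the `x_j` of `F` is the variable `j + 1` of `G`).  By linearity of
`lcub` (it is a ring homomorphism `eval₂`) compute `lcub` of a single term.  `MvPolynomial.as_sum`,
`Finset.sum` over `F.support`. -/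
def S_DCG : Prop :=
  ∀ (K : Type) [Field K] (a s : ℕ) (F : MvPolynomial (Fin (a + s + 1)) K), F.IsHomogeneous 3 →
    (∀ μ : Fin (a + s + 1) →₀ ℕ, (∀ i, i.1 ≤ a → μ i = 0) → MvPolynomial.coeff μ F = 0) →
    ∃ G : MvPolynomial (Fin (s + 1)) (MvPolynomial (Fin (a + 1)) K), G.IsHomogeneous 2 ∧
      (∀ μ, (MvPolynomial.coeff μ G).IsHomogeneous (1 + μ 0)) ∧ lcub G = F

/-- **DNR** (normal form of a cubic form with a rational line).
Proof.  `S_DAU` with `m = 2`, `ι = ![a + 1, a + 2]`, `v = ![p, q]`.  `F' = e F` is homogeneous of degree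
three, and the substitution `x_i ↦ 0` (`i ≤ a`), `x_(a+1) ↦ X 0`, `x_(a+2) ↦ X 1` maps `F'` to
`aeval (C (p i) X 0 + C (q i) X 1) F = 0` (composition of homomorphisms, check on the variables);
so the monomials without `y` have coefficient zero (the substitution is injective on them: compare
the coefficients; every other monomial goes to zero).  `S_DCG` with `s = 2`. -/
def S_DNR : Prop :=
  ∀ (K : Type) [Field K] (a : ℕ) (F : MvPolynomial (Fin (a + 2 + 1)) K), F.IsHomogeneous 3 →
    HasLine F K →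
    ∃ (G : MvPolynomial (Fin (2 + 1)) (MvPolynomial (Fin (a + 1)) K))
      (e : MvPolynomial (Fin (a + 2 + 1)) K ≃ₐ[K] MvPolynomial (Fin (a + 2 + 1)) K),
      G.IsHomogeneous 2 ∧ (∀ μ, (MvPolynomial.coeff μ G).IsHomogeneous (1 + μ 0)) ∧ e F = lcub G

def M_DNR : Prop := S_DAU → S_DCG → S_DNR

/-- **DFC**: a polynomial of degree at most three is zero, irreducible, or such a product.
Proof.  If `F` is a unit: `F * 1`.  If `F = g h` with nonunits `g, h ≠ 0`: `deg g + deg h = deg F`
(`MvPolynomial.totalDegree_mul_of_isDomain`), `deg g, deg h ≥ 1` (degree zero: constant, a unit). -/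
def S_DFC : Prop :=
  ∀ (K : Type) [Field K] (n : ℕ) (F : MvPolynomial (Fin n) K), F.totalDegree ≤ 3 →
    F = 0 ∨ Irreducible F ∨
      ∃ l q : MvPolynomial (Fin n) K, l.totalDegree ≤ 1 ∧ q.totalDegree ≤ 2 ∧ F = l * q

/-- **DEX** (explicit form of `G` for `s = 2`).
Proof.  A quadratic form in three variables is the sum over its six monomials
(`MvPolynomial.as_sum` or `ext`; the exponents of degree two on `Fin 3`).  `A, B 1, B 2, ...` are the
coefficients; `lcub` is a ring homomorphism; `lgram` is computed by `pderiv` of the explicit form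
(`QDF.lean`, O_QNO have lemmas on `lgram`). -/
def S_DEX : Prop :=
  ∀ (K : Type) [Field K] (a : ℕ) (G : MvPolynomial (Fin (2 + 1)) (MvPolynomial (Fin (a + 1)) K)),
    G.IsHomogeneous 2 → (∀ μ, (MvPolynomial.coeff μ G).IsHomogeneous (1 + μ 0)) →
    ∃ A B₁ B₂ D₁ D₂ D₃ : MvPolynomial (Fin (a + 1)) K, A.IsHomogeneous 3 ∧ B₁.IsHomogeneous 2 ∧
      B₂.IsHomogeneous 2 ∧ D₁.IsHomogeneous 1 ∧ D₂.IsHomogeneous 1 ∧ D₃.IsHomogeneous 1 ∧
      lgram G = !![2 * A, B₁, B₂; B₁, 2 * D₁, D₂; B₂, D₂, 2 * D₃] ∧
      ∀ (ρ : MvPolynomial (Fin (a + 1)) K →ₐ[K] MvPolynomial (Fin (a + 2 + 1)) K),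
        (∀ i, ρ (MvPolynomial.X i) = MvPolynomial.X ⟨i.1, by omega⟩) →
        ∀ x₁ x₂ : MvPolynomial (Fin (a + 2 + 1)) K, x₁ = MvPolynomial.X ⟨a + 1, by omega⟩ →
          x₂ = MvPolynomial.X ⟨a + 2, by omega⟩ →
          lcub G = ρ A + ρ B₁ * x₁ + ρ B₂ * x₂ + ρ D₁ * x₁ ^ 2 + ρ D₂ * (x₁ * x₂) + ρ D₃ * x₂ ^ 2

/-- **DDT** (if the discriminant vanishes then there is a rational singular point).
Proof.  `S_DEX`; `M(y)`: the matrix `lgram G` evaluated at `y ∈ K^(a+1)`, `N(y)` its lower right 2 × 2
block (entries `2 D₁, D₂, 2 D₃`, linear in `y`).  For `y`, `z ∈ K`, `x ∈ K^2` the value of `lcub G` at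
`p = (z y, x)` is `z g`, `2 g = v^T M(y) v`, `v = (z, x)`; its derivative with respect to `x_j` is
`z (M(y) v)_j`; with respect to `y_i` it is half of `v^T (∂_i M)(y) v` (use `A(z y) = z ^ 3 A(y)`,
`(∂_i A)(z y) = z ^ 2 (∂_i A)(y)` etc.).
Case 1: `adj M(y) ≠ 0` for some `y`.  `det M(y) = 0`, so
`adj_ij adj_kl = adj_il adj_kj` (polynomial identity modulo the determinant), so some diagonal entry
`adj_jj ≠ 0`; let `v` be the column `j` of `adj M(y)`: `M(y) v = 0`, `v_i v_k = adj_jj adj_ik`,
`v^T (∂_i M)(y) v = adj_jj ∑ adj_kl ∂_i M_kl = adj_jj (∂_i det M)(y) = 0`.  So `p = (v_0 y, v_1, v_2)` is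
singular; `p ≠ 0`: otherwise `v_1 = v_2 = 0`, `v_0 ≠ 0` (`v_j = adj_jj ≠ 0`), `y = 0`, `M(0) = 0`,
`adj = 0`.
Case 2: `adj M(y) = 0` for all `y ∈ K^(a+1)`.  So `det N(y) = 0` for all `y`.  If `N = 0` on `K^(a+1)`:
`p = (0, 1, 0)`.  Otherwise let `N(y₀) ≠ 0`, `w = (N_12, -N_11)` or, if this is zero, `w = (1, 0)`, taken
at `y₀`.  `det N(y₀ + y) = 0` gives `N_11 N'_22 + N'_11 N_22 = 2 N_12 N'_12`, so `w^T N(y) w = 0` for
all `y`.  `p = (0, w)`: the value and the `x_j`-derivatives are zero (`z = 0`), the `y_i`-derivative is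
half of `w^T N(e_i) w = 0` (`(∂_i D)(0) = D(e_i)` for linear `D`). -/
def S_DDT : Prop :=
  ∀ (K : Type) [Field K] (a : ℕ) (G : MvPolynomial (Fin (2 + 1)) (MvPolynomial (Fin (a + 1)) K)),
    (2 : K) ≠ 0 → G.IsHomogeneous 2 →
    (∀ μ, (MvPolynomial.coeff μ G).IsHomogeneous (1 + μ 0)) → (lgram G).det = 0 →
    ∃ p : Fin (a + 2 + 1) → K, p ≠ 0 ∧ MvPolynomial.eval p (lcub G) = 0 ∧
      ∀ i, MvPolynomial.eval p (MvPolynomial.pderiv i (lcub G)) = 0

def M_DDT : Prop := S_DEX → S_DDT

/-- **DHM**: a nonzero form is not zero on the chart `x_0 = 1`.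
Proof.  The coefficient of `x^ν` in `sp 1 f` is the coefficient of `x_0 ^ (m - |ν|) x^ν` in `f`
(`MvPolynomial.as_sum`, or `finSuccEquiv` and evaluation at one). -/
def S_DHM : Prop :=
  ∀ (R : Type) [CommRing R] (n m : ℕ) (f : MvPolynomial (Fin (n + 1)) R), f.IsHomogeneous m →
    lsp (1 : R) f = 0 → f = 0

/-- **DFX** (a fixed point in the ring of power series).
Proof.  `v_0 = 0`, `v_(n+1) = t Φ(v_n)`.  `v_(n+1) - v_n` is divisible by `t ^ (n+1)` (if
`u - u'` is divisible by `t ^ n`, then so is `Φ(u) - Φ(u')`: `Ideal.Quotient` or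
`MvPolynomial.aeval` commutes with the quotient map).  `v = mk (fun n => coeff n (v_(n+1)))` satisfies
`v ≡ v_n` modulo `t ^ n` for all `n`, so `v ≡ t Φ(v)` modulo `t ^ n` for all `n`. -/
def S_DFX : Prop :=
  ∀ (K : Type) [Field K] (m : ℕ) (Φ : Fin m → MvPolynomial (Fin m) K),
    ∃ v : Fin m → PowerSeries K, ∀ i, v i = PowerSeries.X * MvPolynomial.aeval v (Φ i)

/-- **DDF** (a line on a deformation of the form `x_2 x_0 ^ 2 + x_3 x_1 ^ 2`).
Proof.  `Ω = FractionRing (PowerSeries K)`, `t = X`.  For unknown `v = (v_0, v_1, v_2, v_3)` let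
`p = (1, 0, v_0, v_2)`, `q = (0, 1, v_1, v_3)`, so that `x_2 x_0 ^ 2 + x_3 x_1 ^ 2` at `p X_0 + q X_1` is
`v_0 X_0 ^ 3 + v_1 X_0 ^ 2 X_1 + v_2 X_0 X_1 ^ 2 + v_3 X_1 ^ 3`, and `F` at `p X_0 + q X_1` is
`∑ Φ_j(v) X_0 ^ (3 - j) X_1 ^ j`, `Φ_j ∈ K[v_0, ..., v_3]` (substitute first over
`K[v_0, ..., v_3]`; a form of degree three in two variables, so only these monomials).  `S_DFX` for
`- Φ_j`.  `p, q` are linearly independent (first two coordinates). -/
def S_DDF : Prop :=
  ∀ (K : Type) [Field K] (F : MvPolynomial (Fin 4) K), F.IsHomogeneous 3 →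
    ∃ (Ω : Type) (_ : Field Ω) (_ : Algebra K Ω) (t : Ω), Transcendental K t ∧
      HasLine (MvPolynomial.X 2 * MvPolynomial.X 0 ^ 2 + MvPolynomial.X 3 * MvPolynomial.X 1 ^ 2 +
        MvPolynomial.C t * MvPolynomial.map (algebraMap K Ω) F) Ω

def M_DDF : Prop := S_DFX → S_DDF

/-- **DVL** (specialisation `t → ∞` of a line).
Proof.  `s = t⁻¹` is transcendental over `K`; in the subring `A = K[s]` of `Ω` (`Algebra.adjoin`) the
ideal `(s)` is not the unit ideal, so there is a valuation subring `V` of `Ω` which contains `A` with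
`s` in its maximal ideal (`Ideal.image_subset_nonunits_valuationSubring`).  `κ = ` residue field of `V`,
an extension of `K`.  Let `p, q` be the linearly independent vectors.  Divide `p` by a coordinate
`p_i` of maximal valuation: all coordinates in `V` and `p_i = 1`; replace `q` by `q - q_i p`, not zero,
and divide it by a coordinate `q_j` of maximal valuation: `q_i = 0`, `q_j = 1`, all coordinates in `V`
(`F` still vanishes on the line: substitution in `X_0, X_1`, or evaluate `F` at `X_0 p + X_1 q` where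
`X_0, X_1` are arbitrary elements of `Ω[X_0, X_1]`).  The residues are linearly independent
(`i, j` coordinates).  `s F₀ + F` vanishes at `p X_0 + q X_1` in `V[X_0, X_1]` (a subring of
`Ω[X_0, X_1]`), so its residue `F` vanishes at the residue of `p X_0 + q X_1`. -/
def S_DVL : Prop :=
  ∀ (K Ω : Type) [Field K] [Field Ω] [Algebra K Ω] (n : ℕ) (F₀ F : MvPolynomial (Fin n) K) (t : Ω),
    Transcendental K t →
    HasLine (MvPolynomial.map (algebraMap K Ω) F₀ +
      MvPolynomial.C t * MvPolynomial.map (algebraMap K Ω) F) Ω →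
    ∃ (κ : Type) (_ : Field κ) (_ : Algebra K κ), HasLine F κ

/-- **DTR** (from an arbitrary extension to a finite extension).
Proof.  As in `S_DVL` (without valuation) one may assume `p_i = 1`, `q_i = 0`, `q_j = 1` and `p_j = 0`
(replace `p` by `p - p_j q`), `i ≠ j`.  Let `B = K[u_1, ..., u_n, w_1, ..., w_n]` modulo
`u_i - 1, u_j, w_i, w_j - 1` and the coefficients of `F(u X_0 + w X_1)`.  There is a homomorphism
`B → L`, so `B` is not zero; let `m` be a maximal ideal, `K' = B / m`, finite over `K`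
(`finite_of_finite_type_of_isJacobsonRing`).  (Simpler: let `B` be the `K`-subalgebra of `L` generated
by all `p_i, q_i`, of finite type; `F(p X_0 + q X_1) = 0` in `B[X_0, X_1]`; reduce modulo a maximal
ideal of `B`.) -/
def S_DTR : Prop :=
  ∀ (K L : Type) [Field K] [Field L] [Algebra K L] (n : ℕ) (F : MvPolynomial (Fin n) K),
    HasLine F L → ∃ (K' : Type) (_ : Field K') (_ : Algebra K K'), Module.Finite K K' ∧ HasLine F K'

/-- **DLN**: every cubic form in at least four variables vanishes on a line over a finite extension.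
Proof.  Let `F'` be obtained from `F` by `x_i ↦ 0` for `i ≥ 4`, a cubic form in four variables.
`S_DDF`, `S_DVL` with `F₀ = x_2 x_0 ^ 2 + x_3 x_1 ^ 2` (`map` of it is the form in `S_DDF`), `S_DTR` give a
line of `F'` over `K'`; extend `p, q` by zero. -/
def S_DLN : Prop :=
  ∀ (K : Type) [Field K] (n : ℕ) (F : MvPolynomial (Fin n) K), 4 ≤ n → F.IsHomogeneous 3 →
    ∃ (K' : Type) (_ : Field K') (_ : Algebra K K'), Module.Finite K K' ∧ HasLine F K'

def M_DLN : Prop := S_DDF → S_DVL → S_DTR → S_DLN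

/-- **DBC** (base change of an affine variety to a finite extension).
Proof.  `ER (map F)` is `(ER F) ⊗ K` (`MvPolynomial.algebraTensorAlgEquiv`, quotients; or construct
the homomorphisms in both directions as in R_DRI).  The algebra structure on `ER (map F)` is that of
the homomorphism `ER F → ER (map F)`.  `K` is separable over the perfect field `k`, so etale
(`Algebra.FormallyEtale.iff_isSeparable`, `Algebra.FormallyEtale.of_isSeparable`, and finitely
presented), base change (`Algebra.Etale.baseChange`); it is finite and free over `ER F` of positive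
rank (`Module.Finite.base_change`, `Module.FaithfullyFlat` or `Module.Free`), so injective. -/
def S_DBC : Prop :=
  ∀ (k K : Type) [Field k] [PerfectField k] [Field K] [Algebra k K] [Module.Finite k K] (n : ℕ)
    (F : MvPolynomial (Fin n) k),
    ∃ (_ : Algebra (MvPolynomial (Fin n) k ⧸
        Ideal.span (Set.range fun _ : Fin 1 => F)) (MvPolynomial (Fin n) K ⧸
        Ideal.span (Set.range fun _ : Fin 1 => MvPolynomial.map (algebraMap k K) F))),
      IsScalarTower k (MvPolynomial (Fin n) k ⧸
        Ideal.span (Set.range fun _ : Fin 1 => F)) (MvPolynomial (Fin n) K ⧸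
        Ideal.span (Set.range fun _ : Fin 1 => MvPolynomial.map (algebraMap k K) F)) ∧
      Module.Finite (MvPolynomial (Fin n) k ⧸
        Ideal.span (Set.range fun _ : Fin 1 => F)) (MvPolynomial (Fin n) K ⧸
        Ideal.span (Set.range fun _ : Fin 1 => MvPolynomial.map (algebraMap k K) F)) ∧
      Algebra.Etale (MvPolynomial (Fin n) k ⧸
        Ideal.span (Set.range fun _ : Fin 1 => F)) (MvPolynomial (Fin n) K ⧸
        Ideal.span (Set.range fun _ : Fin 1 => MvPolynomial.map (algebraMap k K) F)) ∧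
      Function.Injective (algebraMap (MvPolynomial (Fin n) k ⧸
        Ideal.span (Set.range fun _ : Fin 1 => F)) (MvPolynomial (Fin n) K ⧸
        Ideal.span (Set.range fun _ : Fin 1 => MvPolynomial.map (algebraMap k K) F)))

/-- **DHG** (homogenisation).
Proof.  `F` is the sum over the monomials `μ` of `f` of `coeff μ f * x_0 ^ (m - |μ|) * x^μ`
(variables shifted by `Fin.succ`). -/
def S_DHG : Prop :=
  ∀ (R : Type) [CommRing R] (n m : ℕ) (f : MvPolynomial (Fin n) R), f.totalDegree ≤ m →
    ∃ F : MvPolynomial (Fin (n + 1)) R, F.IsHomogeneous m ∧ lsp (1 : R) F = f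

end QCV


end

section

/-!
# QCV, module DSG: normal form of a cubic form at a singular point
-/

set_option autoImplicit false

open Polynomial

namespace QCV

namespace DSG

/-- the value of a form at `(1, 0, ..., 0)` is the coefficient of `x_0 ^ m` -/
theorem eval_e0 {K : Type} [Field K] {n m : ℕ} {G : MvPolynomial (Fin (n + 1)) K}
    (hG : G.IsHomogeneous m) :
    MvPolynomial.eval (Pi.single 0 1) G = MvPolynomial.coeff (Finsupp.single 0 m) G := by
  classical
  rw [MvPolynomial.eval_eq']
  rw [Finset.sum_eq_single (Finsupp.single (0 : Fin (n + 1)) m)]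
  · rw [Finset.prod_eq_one, mul_one]
    intro i _
    by_cases hi : i = 0
    · subst hi
      rw [Pi.single_eq_same, one_pow]
    · rw [Finsupp.single_eq_of_ne hi, pow_zero]
  · intro d hd hne
    have h1 : ∃ i, i ≠ 0 ∧ d i ≠ 0 := by
      by_contra hcon
      push Not at hcon
      apply hne
      have h2 : d = Finsupp.single 0 (d 0) := by
        ext i
        by_cases hi : i = 0
        · subst hi
          rw [Finsupp.single_eq_same]
        · rw [Finsupp.single_eq_of_ne hi, hcon i hi]
      have h3 := hG (MvPolynomial.mem_support_iff.1 hd)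
      rw [h2, Finsupp.weight_single] at h3
      rw [h2]
      congr 1
      simpa using h3
    obtain ⟨i, hi, hdi⟩ := h1
    rw [Finset.prod_eq_zero (Finset.mem_univ i), mul_zero]
    rw [Pi.single_eq_of_ne hi, zero_pow hdi]
  · intro hd
    rw [MvPolynomial.notMem_support_iff.1 hd, zero_mul]

/-- the chain rule for a linear substitution -/
theorem chain {K : Type} [Field K] {n : ℕ} (M : Matrix (Fin n) (Fin n) K)
    (e : MvPolynomial (Fin n) K ≃ₐ[K] MvPolynomial (Fin n) K)
    (he : ∀ i, e (MvPolynomial.X i) = ∑ j, MvPolynomial.C (M i j) * MvPolynomial.X j)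
    (j : Fin n) (G : MvPolynomial (Fin n) K) :
    MvPolynomial.pderiv j (e G) = ∑ i, MvPolynomial.C (M i j) * e (MvPolynomial.pderiv i G) := by
  classical
  induction G using MvPolynomial.induction_on with
  | C a =>
    have h1 : e (MvPolynomial.C a) = MvPolynomial.C a := e.commutes a
    rw [h1, MvPolynomial.pderiv_C]
    symm
    refine Finset.sum_eq_zero fun i _ => ?_
    rw [MvPolynomial.pderiv_C, map_zero, mul_zero]
  | add p q hp hq =>
    rw [map_add, map_add, hp, hq, ← Finset.sum_add_distrib]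
    refine Finset.sum_congr rfl fun i _ => ?_
    rw [map_add, map_add, mul_add]
  | mul_X p k hp =>
    have h1 : MvPolynomial.pderiv j (e (MvPolynomial.X k)) = MvPolynomial.C (M k j) := by
      rw [he, map_sum, Finset.sum_eq_single j]
      · rw [MvPolynomial.pderiv_C_mul, MvPolynomial.pderiv_X_self, mul_one]
      · intro l _ hl
        rw [MvPolynomial.pderiv_C_mul, MvPolynomial.pderiv_X_of_ne hl, mul_zero]
      · intro h
        exact absurd (Finset.mem_univ _) h
    rw [map_mul, MvPolynomial.pderiv_mul, hp, h1]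
    have h2 : ∀ i, MvPolynomial.C (M i j) * e (MvPolynomial.pderiv i (p * MvPolynomial.X k)) =
        MvPolynomial.C (M i j) * e (MvPolynomial.pderiv i p) * e (MvPolynomial.X k) +
          (if i = k then MvPolynomial.C (M i j) * e p else 0) := by
      intro i
      rw [MvPolynomial.pderiv_mul, map_add, map_mul, map_mul]
      by_cases hik : i = k
      · subst hik
        rw [MvPolynomial.pderiv_X_self, map_one, if_pos rfl]
        ring
      · rw [MvPolynomial.pderiv_X_of_ne (Ne.symm hik), map_zero, if_neg hik]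
        ring
    simp only [h2]
    rw [Finset.sum_add_distrib, ← Finset.sum_mul, Finset.sum_ite_eq' Finset.univ k,
      if_pos (Finset.mem_univ k)]
    ring

end DSG

open _root_.QCV.DSG in
theorem t_DSG : M_DSG := by
  classical
  intro hDAU K _ n F p hF hp h0 hd
  obtain ⟨M, e, hM, he⟩ := hDAU K (n + 1) 1 (fun _ => 0) (fun _ => p)
    (fun a b _ => Subsingleton.elim a b) (LinearIndependent.of_subsingleton 0 hp)
  have hM0 : ∀ i, M i 0 = p i := fun i => hM i 0
  -- evaluation at the first point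
  have hev : ∀ G, MvPolynomial.eval (Pi.single 0 1) (e G) = MvPolynomial.eval p G := by
    intro G
    have h1 : ((MvPolynomial.aeval (Pi.single 0 1 : Fin (n + 1) → K)).comp e.toAlgHom) =
        MvPolynomial.aeval p := by
      apply MvPolynomial.algHom_ext
      intro i
      show MvPolynomial.aeval (Pi.single 0 1 : Fin (n + 1) → K) (e (MvPolynomial.X i)) = _
      rw [he, map_sum, MvPolynomial.aeval_X, Finset.sum_eq_single 0]
      · rw [map_mul, MvPolynomial.aeval_X, Pi.single_eq_same, mul_one, MvPolynomial.aeval_C, hM0]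
        rfl
      · intro j _ hj
        rw [map_mul, MvPolynomial.aeval_X, Pi.single_eq_of_ne hj, mul_zero]
      · intro h
        exact absurd (Finset.mem_univ _) h
    exact DFunLike.congr_fun h1 G
  -- homogeneity
  have hF' : (e F).IsHomogeneous 3 := by
    have h1 : e F = MvPolynomial.aeval (fun i => e (MvPolynomial.X i)) F := by
      have h2 : e.toAlgHom = MvPolynomial.aeval (fun i => e (MvPolynomial.X i)) := by
        apply MvPolynomial.algHom_ext
        intro i
        rw [MvPolynomial.aeval_X]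
        rfl
      exact DFunLike.congr_fun h2 F
    have h3 : (MvPolynomial.aeval (fun i => e (MvPolynomial.X i)) F).IsHomogeneous (1 * 3) := by
      refine hF.aeval _ fun i => ?_
      rw [he]
      refine MvPolynomial.IsHomogeneous.sum _ _ _ fun j _ => ?_
      have h4 := (MvPolynomial.isHomogeneous_C (Fin (n + 1)) (M i j)).mul
        (MvPolynomial.isHomogeneous_X K j)
      rwa [zero_add] at h4
    rw [h1]
    exact h3
  -- the coefficients
  have c3 : MvPolynomial.coeff (Finsupp.single 0 3) (e F) = 0 := by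
    rw [← eval_e0 hF', hev, h0]
  have c2 : ∀ j, MvPolynomial.coeff (Finsupp.single 0 2) (MvPolynomial.pderiv j (e F)) = 0 := by
    intro j
    rw [← eval_e0 (hF'.pderiv (i := j)), chain M e he, map_sum]
    refine Finset.sum_eq_zero fun i _ => ?_
    rw [map_mul, hev, hd, mul_zero]
  -- the homogeneous coefficients in `x_0`
  set f := MvPolynomial.finSuccEquiv K n (e F) with hf
  have hcf : ∀ (m : Fin n →₀ ℕ) (i : ℕ), MvPolynomial.coeff m (f.coeff i) =
      MvPolynomial.coeff (m.cons i) (e F) := fun m i => MvPolynomial.finSuccEquiv_coeff_coeff m _ i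
  have hdeg : ∀ (m : Fin n →₀ ℕ) (i : ℕ), (m.cons i).degree = i + m.degree := by
    intro m i
    rw [Finsupp.degree_eq_sum, Finsupp.degree_eq_sum, Fin.sum_univ_succ]
    simp
  have hz : ∀ i, 2 ≤ i → f.coeff i = 0 := by
    intro i hi
    ext m
    rw [hcf, MvPolynomial.coeff_zero]
    by_contra hne
    have h1 : (m.cons i).degree = 3 := by
      have h2 : Finsupp.weight (fun _ => 1) (m.cons i) = 3 := hF' hne
      rwa [← Finsupp.degree_eq_weight_one] at h2
    rw [hdeg] at h1
    have h2 : i = 3 ∧ m.degree = 0 ∨ i = 2 ∧ m.degree = 1 := by omega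
    rcases h2 with ⟨rfl, h3⟩ | ⟨rfl, h3⟩
    · apply hne
      rw [Finsupp.degree_eq_zero_iff] at h3
      subst h3
      have h4 : (Finsupp.cons 3 (0 : Fin n →₀ ℕ)) = Finsupp.single 0 3 := by
        ext j
        refine Fin.cases ?_ (fun j => ?_) j
        · rw [Finsupp.cons_zero, Finsupp.single_eq_same]
        · rw [Finsupp.cons_succ, Finsupp.single_eq_of_ne (Fin.succ_ne_zero j)]
          rfl
      rw [h4]
      exact c3
    · apply hne
      obtain ⟨j, rfl⟩ : ∃ j : Fin n, m = Finsupp.single j 1 := by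
        have h4 : m ≠ 0 := by
          rintro rfl
          simp at h3
        obtain ⟨j, hj⟩ := Finsupp.ne_iff.1 h4
        refine ⟨j, ?_⟩
        rw [Finsupp.degree_eq_sum] at h3
        have hj' : m j ≠ 0 := hj
        have h5 := Finset.add_sum_erase Finset.univ (fun i => m i) (Finset.mem_univ j)
        have h6 : m j = 1 := by omega
        have h7 : ∑ x ∈ Finset.univ.erase j, m x = 0 := by omega
        rw [Finset.sum_eq_zero_iff] at h7
        ext l
        by_cases hl : l = j
        · subst hl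
          rw [Finsupp.single_eq_same, h6]
        · rw [Finsupp.single_eq_of_ne hl]
          exact h7 l (Finset.mem_erase.2 ⟨hl, Finset.mem_univ l⟩)
      have h4 := c2 j.succ
      rw [MvPolynomial.coeff_pderiv] at h4
      have h5 : Finsupp.single (0 : Fin (n + 1)) 2 + Finsupp.single j.succ 1 =
          Finsupp.cons 2 (Finsupp.single j 1) := by
        ext l
        refine Fin.cases ?_ (fun l => ?_) l
        · rw [Finsupp.cons_zero, Finsupp.add_apply, Finsupp.single_eq_same,
            Finsupp.single_eq_of_ne (Fin.succ_ne_zero j).symm, add_zero]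
        · rw [Finsupp.cons_succ, Finsupp.add_apply,
            Finsupp.single_eq_of_ne (Fin.succ_ne_zero l), zero_add]
          by_cases hl : l = j
          · subst hl
            rw [Finsupp.single_eq_same, Finsupp.single_eq_same]
          · rw [Finsupp.single_eq_of_ne hl,
              Finsupp.single_eq_of_ne (fun h => hl (Fin.succ_injective _ h))]
      rw [h5] at h4
      have h6 : (Finsupp.single (0 : Fin (n + 1)) 2) j.succ = 0 :=
        Finsupp.single_eq_of_ne (Fin.succ_ne_zero j)
      rw [h6] at h4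
      simpa using h4
  refine ⟨f.coeff 1, f.coeff 0, e.trans (MvPolynomial.finSuccEquiv K n),
    hF'.finSuccEquiv_coeff_isHomogeneous 1 2 rfl, hF'.finSuccEquiv_coeff_isHomogeneous 0 3 rfl, ?_⟩
  show f = _
  ext1 i
  rcases i with _ | _ | i
  · simp
  · simp [Polynomial.coeff_C]
  · rw [hz (i + 2) (by omega)]
    simp

end QCV


end

section

/-!
# QCV, module DAU: linear automorphisms of a polynomial ring with prescribed columns
-/

set_option autoImplicit false

open MvPolynomial

namespace QCV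

theorem DAU_ext (K : Type) [Field K] (n m : ℕ) (ι : Fin m → Fin n) (v : Fin m → Fin n → K)
    (hι : Function.Injective ι) (hv : LinearIndependent K v) :
    ∃ b : Module.Basis (Fin n) K (Fin n → K), ∀ j, b (ι j) = v j := by
  classical
  have hin : ∀ j, Module.Basis.sumExtend hv (Sum.inl j) = v j := by
    intro j
    let _ := Classical.decPred (· ∈ Set.range v)
    have h : Module.Basis.sumExtend hv (Sum.inl j) =
        ((Equiv.Set.sumDiffSubset (hv.linearIndepOn_id.subset_extend (Set.subset_univ _))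
          (Sum.inl (Equiv.ofInjective v hv.injective j)) : _) : Fin n → K) := by
      rw [Module.Basis.sumExtend, Module.Basis.reindex_apply, Module.Basis.coe_extend]
      rfl
    rw [h, Equiv.Set.sumDiffSubset_apply_inl]
    simp
  have : Finite (Fin m ⊕ Module.Basis.sumExtendIndex hv) :=
    Module.Finite.finite_basis (Module.Basis.sumExtend hv)
  have : Finite (Module.Basis.sumExtendIndex hv) :=
    Finite.of_injective (β := Fin m ⊕ Module.Basis.sumExtendIndex hv) Sum.inr Sum.inr_injective
  let _ := Fintype.ofFinite (Module.Basis.sumExtendIndex hv)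
  have hcard : Fintype.card (Fin m ⊕ Module.Basis.sumExtendIndex hv) = n := by
    have h := Module.finrank_eq_card_basis (Module.Basis.sumExtend hv)
    rw [← h, Module.finrank_fintype_fun_eq_card, Fintype.card_fin]
  have hcard' : Fintype.card (Module.Basis.sumExtendIndex hv) =
      Fintype.card (↥(Set.range ι)ᶜ) := by
    rw [Fintype.card_sum, Fintype.card_fin] at hcard
    rw [Fintype.card_compl_set, Fintype.card_fin, Set.card_range_of_injective hι,
      Fintype.card_fin]
    omega
  let e : (Fin m ⊕ Module.Basis.sumExtendIndex hv) ≃ Fin n :=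
    (Equiv.sumCongr (Equiv.ofInjective ι hι) (Fintype.equivOfCardEq hcard')).trans
      (Equiv.Set.sumCompl (Set.range ι))
  refine ⟨(Module.Basis.sumExtend hv).reindex e, fun j => ?_⟩
  have he : e (Sum.inl j) = ι j := by
    simp [e]
  rw [Module.Basis.reindex_apply, ← he, Equiv.symm_apply_apply, hin]

theorem t_DAU : S_DAU := by
  classical
  intro K _ n m ι v hι hv
  obtain ⟨b, hb⟩ := DAU_ext K n m ι v hι hv
  let M : Matrix (Fin n) (Fin n) K := (Pi.basisFun K (Fin n)).toMatrix b
  let N : Matrix (Fin n) (Fin n) K := b.toMatrix (Pi.basisFun K (Fin n))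
  have hMN : M * N = 1 := Module.Basis.toMatrix_mul_toMatrix_flip _ _
  have hNM : N * M = 1 := Module.Basis.toMatrix_mul_toMatrix_flip _ _
  have key : ∀ A B : Matrix (Fin n) (Fin n) K, A * B = 1 →
      (bind₁ B.toMvPolynomial).comp (bind₁ A.toMvPolynomial) =
        AlgHom.id K (MvPolynomial (Fin n) K) := by
    intro A B hAB
    ext1 i
    rw [AlgHom.comp_apply, bind₁_X_right, ← Matrix.toMvPolynomial_mul, hAB,
      Matrix.toMvPolynomial_one, AlgHom.id_apply]
  refine ⟨M, AlgEquiv.ofAlgHom (bind₁ M.toMvPolynomial) (bind₁ N.toMvPolynomial)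
    (key N M hNM) (key M N hMN), fun i j => ?_, fun i => ?_⟩
  · simp only [M, Module.Basis.toMatrix_apply, Pi.basisFun_repr, hb]
  · rw [AlgEquiv.ofAlgHom_apply, bind₁_X_right, Matrix.toMvPolynomial]
    simp only [C_mul_X_eq_monomial]

end QCV


end

section

/-!
# QCV, module DNR: normal form of a cubic form with a rational line
-/

set_option autoImplicit false

open Polynomial

namespace QCV

namespace DNRx

/-- the places of the two variables of the line -/
def io (a : ℕ) : Fin 2 → Fin (a + 2 + 1) := ![⟨a + 1, by omega⟩, ⟨a + 2, by omega⟩]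

theorem io_inj (a : ℕ) : Function.Injective (io a) := by
  intro i j h
  fin_cases i <;> fin_cases j <;> simp [io] at h ⊢

theorem io_range {a : ℕ} {j : Fin (a + 2 + 1)} (hj : ¬ j.1 ≤ a) : j ∈ Set.range (io a) := by
  have h1 := j.2
  have h2 : j.1 = a + 1 ∨ j.1 = a + 2 := by omega
  rcases h2 with h | h
  · exact ⟨0, Fin.ext (by simp [io, h])⟩
  · exact ⟨1, Fin.ext (by simp [io, h])⟩

variable {K : Type} [Field K] {a : ℕ}

/-- restriction to the line -/
noncomputable def res (K : Type) [Field K] (a : ℕ) :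
    MvPolynomial (Fin (a + 2 + 1)) K →ₐ[K] MvPolynomial (Fin 2) K :=
  MvPolynomial.killCompl (io_inj a)

theorem res_io (u : Fin 2) : res K a (MvPolynomial.X (io a u)) = MvPolynomial.X u := by
  have h := MvPolynomial.killCompl_rename_app (io_inj a) (MvPolynomial.X u : MvPolynomial (Fin 2) K)
  rwa [MvPolynomial.rename_X] at h

theorem res_zero {j : Fin (a + 2 + 1)} (hj : j ∉ Set.range (io a)) :
    res K a (MvPolynomial.X j) = 0 := by
  unfold res MvPolynomial.killCompl
  rw [MvPolynomial.aeval_X, dif_neg hj]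

theorem res_sum (c : Fin (a + 2 + 1) → K) :
    res K a (∑ j, MvPolynomial.C (c j) * MvPolynomial.X j) =
      MvPolynomial.C (c (io a 0)) * MvPolynomial.X 0 +
        MvPolynomial.C (c (io a 1)) * MvPolynomial.X 1 := by
  rw [map_sum, ← Fin.sum_univ_two (fun u : Fin 2 =>
    (MvPolynomial.C (c (io a u)) * MvPolynomial.X u : MvPolynomial (Fin 2) K))]
  symm
  refine Fintype.sum_of_injective (io a) (io_inj a) _ _ (fun j hj => ?_) (fun u => ?_)
  · rw [map_mul, res_zero hj, mul_zero]
  · rw [map_mul, res_io]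
    congr 1
    exact (MvPolynomial.algHom_C (res K a) _).symm

end DNRx

open _root_.QCV.DNRx in
theorem t_DNR : M_DNR := by
  intro hA hC K _ a F hF hL
  obtain ⟨p, q, hpq, h0⟩ := hL
  obtain ⟨M, e, hM, he⟩ := hA K (a + 2 + 1) 2 (io a) ![p, q] (io_inj a) hpq
  have hp : ∀ i, M i (io a 0) = p i := fun i => hM i 0
  have hq : ∀ i, M i (io a 1) = q i := fun i => hM i 1
  -- the form in the new coordinates
  have heF : e F = MvPolynomial.aeval (fun i => e (MvPolynomial.X i)) F := by
    have h1 : (e : MvPolynomial (Fin (a + 2 + 1)) K →ₐ[K] MvPolynomial (Fin (a + 2 + 1)) K) =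
        MvPolynomial.aeval (fun i => e (MvPolynomial.X i)) := by
      apply MvPolynomial.algHom_ext
      intro i
      rw [MvPolynomial.aeval_X]
      rfl
    exact DFunLike.congr_fun h1 F
  have hom : (e F).IsHomogeneous 3 := by
    rw [heF]
    have h1 := hF.aeval (n := 1) (fun i => e (MvPolynomial.X i)) (fun i => by
      rw [he]
      refine MvPolynomial.IsHomogeneous.sum _ _ _ fun j _ => ?_
      have h2 := (MvPolynomial.isHomogeneous_C (Fin (a + 2 + 1)) (M i j)).mul
        (MvPolynomial.isHomogeneous_X K j)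
      rwa [zero_add] at h2)
    rwa [one_mul] at h1
  have hres : res K a (e F) = 0 := by
    have h1 : (res K a).comp (e : MvPolynomial (Fin (a + 2 + 1)) K →ₐ[K]
        MvPolynomial (Fin (a + 2 + 1)) K) =
        MvPolynomial.aeval (fun i => MvPolynomial.C (p i) * MvPolynomial.X 0 +
          MvPolynomial.C (q i) * MvPolynomial.X 1 :
            Fin (a + 2 + 1) → MvPolynomial (Fin 2) K) := by
      apply MvPolynomial.algHom_ext
      intro i
      rw [MvPolynomial.aeval_X, AlgHom.comp_apply]
      show res K a (e (MvPolynomial.X i)) = _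
      rw [he, res_sum, hp, hq]
    have h2 := DFunLike.congr_fun h1 F
    rw [h0] at h2
    exact h2
  obtain ⟨G, hG1, hG2, hG3⟩ := hC K a 2 (e F) hom (by
    intro μ hμ
    have hs : (μ.support : Set (Fin (a + 2 + 1))) ⊆ Set.range (io a) := by
      intro j hj
      apply io_range
      intro hle
      have h1 := hμ j hle
      exact (Finsupp.mem_support_iff.1 hj) h1
    rw [← Finsupp.mapDomain_comapDomain (io a) (io_inj a) μ hs,
      ← MvPolynomial.coeff_killCompl (io_inj a)]
    show MvPolynomial.coeff _ (res K a (e F)) = 0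
    rw [hres, MvPolynomial.coeff_zero])
  exact ⟨G, e, hG1, hG2, hG3.symm⟩

end QCV


end

section

/-!
# QCV, block D, module DCG: a cubic form in the ideal `(y)` is of the form `lcub G`
-/

set_option autoImplicit false

namespace QCV

open MvPolynomial

namespace DCG

/-- the indices of the variables `y` -/
def fl (a s : ℕ) (i : Fin (a + 1)) : Fin (a + s + 1) := ⟨i.1, by omega⟩

/-- the indices of the variables `x` -/
def fr (a s : ℕ) (j : Fin s) : Fin (a + s + 1) := ⟨a + 1 + j.1, by omega⟩

lemma fl_inj (a s : ℕ) : Function.Injective (fl a s) := fun i j h => by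
  apply Fin.ext
  exact congrArg (fun z : Fin (a + s + 1) => z.1) h

lemma fr_inj (a s : ℕ) : Function.Injective (fr a s) := fun i j h => by
  apply Fin.ext
  have h1 : a + 1 + i.1 = a + 1 + j.1 := congrArg (fun z : Fin (a + s + 1) => z.1) h
  omega

/-- the exponents of the variables `y` -/
noncomputable def ml {a s : ℕ} (m : Fin (a + s + 1) →₀ ℕ) : Fin (a + 1) →₀ ℕ :=
  Finsupp.equivFunOnFinite.symm fun i => m (fl a s i)

/-- the exponents of the variables `x` -/
noncomputable def mr {a s : ℕ} (m : Fin (a + s + 1) →₀ ℕ) : Fin s →₀ ℕ :=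
  Finsupp.equivFunOnFinite.symm fun j => m (fr a s j)

lemma split {a s : ℕ} (m : Fin (a + s + 1) →₀ ℕ) :
    (ml m).mapDomain (fl a s) + (mr m).mapDomain (fr a s) = m := by
  ext i
  rw [Finsupp.add_apply]
  by_cases hi : i.1 < a + 1
  · have e : i = fl a s ⟨i.1, hi⟩ := Fin.ext rfl
    have h2 : i ∉ Set.range (fr a s) := by
      rintro ⟨j, rfl⟩
      simp only [fr] at hi
      omega
    rw [Finsupp.mapDomain_of_notMem_range _ _ h2, add_zero]
    conv_lhs => rw [e]
    rw [Finsupp.mapDomain_apply (fl_inj a s)]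
    show m (fl a s ⟨i.1, hi⟩) = m i
    rw [← e]
  · have hj : i.1 - (a + 1) < s := by omega
    have e : i = fr a s ⟨i.1 - (a + 1), hj⟩ := Fin.ext (by simp only [fr]; omega)
    have h2 : i ∉ Set.range (fl a s) := by
      rintro ⟨j, rfl⟩
      simp only [fl] at hi
      omega
    rw [Finsupp.mapDomain_of_notMem_range _ _ h2, zero_add]
    conv_lhs => rw [e]
    rw [Finsupp.mapDomain_apply (fr_inj a s)]
    show m (fr a s ⟨i.1 - (a + 1), hj⟩) = m i
    rw [← e]

/-- the predicate to be proved -/
def P {K : Type} [Field K] {a s : ℕ} (F : MvPolynomial (Fin (a + s + 1)) K) : Prop :=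
  ∃ G : MvPolynomial (Fin (s + 1)) (MvPolynomial (Fin (a + 1)) K), G.IsHomogeneous 2 ∧
      (∀ μ, (MvPolynomial.coeff μ G).IsHomogeneous (1 + μ 0)) ∧ lcub G = F

variable {K : Type} [Field K] {a s : ℕ}

lemma P_zero : P (0 : MvPolynomial (Fin (a + s + 1)) K) := by
  refine ⟨0, isHomogeneous_zero _ _ _, fun μ => ?_, ?_⟩
  · rw [coeff_zero]
    exact isHomogeneous_zero _ _ _
  · unfold lcub
    rw [eval₂_zero]

lemma P_add {F F' : MvPolynomial (Fin (a + s + 1)) K} (h : P F) (h' : P F') : P (F + F') := by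
  obtain ⟨G, h1, h2, h3⟩ := h
  obtain ⟨G', h1', h2', h3'⟩ := h'
  refine ⟨G + G', h1.add h1', fun μ => ?_, ?_⟩
  · rw [coeff_add]
    exact (h2 μ).add (h2' μ)
  · rw [← h3, ← h3']
    unfold lcub
    rw [eval₂_add]

lemma P_monomial (m : Fin (a + s + 1) →₀ ℕ) (c : K) (h3 : m.degree = 3)
    (h0 : ¬ ∀ i : Fin (a + s + 1), i.1 ≤ a → m i = 0) : P (monomial m c) := by
  have hd : (ml m).degree + (mr m).degree = 3 := by
    rw [← h3]
    conv_rhs => rw [← split m]
    rw [map_add, Finsupp.degree_mapDomain, Finsupp.degree_mapDomain]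
  have hl : (ml m).degree ≠ 0 := by
    intro h
    apply h0
    intro i hi
    have h1 : ml m = 0 := (Finsupp.degree_eq_zero_iff _).1 h
    have h2 := DFunLike.congr_fun h1 ⟨i.1, by omega⟩
    exact h2
  set μ : Fin (s + 1) →₀ ℕ := Finsupp.cons (2 - (mr m).degree) (mr m) with hμ
  have hμd : μ.degree = 2 := by
    rw [Finsupp.degree_eq_sum, Fin.sum_univ_succ, hμ, Finsupp.cons_zero]
    simp only [Finsupp.cons_succ]
    rw [← Finsupp.degree_eq_sum]
    omega
  refine ⟨monomial μ (monomial (ml m) c), isHomogeneous_monomial _ hμd, fun μ' => ?_, ?_⟩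
  · classical
    rw [coeff_monomial]
    split_ifs with h
    · rw [← h]
      apply isHomogeneous_monomial
      rw [hμ, Finsupp.cons_zero]
      omega
    · exact isHomogeneous_zero _ _ _
  · unfold lcub
    rw [eval₂_monomial, Finsupp.prod_fintype _ _ fun i => pow_zero _, Fin.prod_univ_succ]
    simp only [hμ, Finsupp.cons_zero, Finsupp.cons_succ, Fin.cons_zero, Fin.cons_succ, one_pow,
      one_mul]
    have e1 : ∏ j : Fin s, (X (R := K) (fr a s j)) ^ (mr m) j =
        monomial ((mr m).mapDomain (fr a s)) 1 := by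
      rw [← rename_monomial, monomial_eq, C_1, one_mul, Finsupp.prod_fintype _ _ fun i => pow_zero _,
        map_prod]
      refine Finset.prod_congr rfl fun j _ => ?_
      rw [map_pow, rename_X]
    have e2 : rename (fl a s) (monomial (ml m) c) = monomial ((ml m).mapDomain (fl a s)) c :=
      rename_monomial _ _ _
    calc _ = rename (fl a s) (monomial (ml m) c) *
          ∏ j : Fin s, (X (R := K) (fr a s j)) ^ (mr m) j := rfl
      _ = monomial m c := by
        rw [e1, e2, monomial_mul, split, mul_one]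

end DCG

theorem t_DCG : S_DCG := by
  intro K _ a s F hF h0
  have h : DCG.P F := by
    rw [F.as_sum]
    refine Finset.sum_induction _ DCG.P (fun _ _ => DCG.P_add) DCG.P_zero fun m hm => ?_
    have hm' : coeff m F ≠ 0 := mem_support_iff.1 hm
    refine DCG.P_monomial m _ ?_ fun h => hm' (h0 m h)
    rw [Finsupp.degree_eq_weight_one]
    exact hF hm'
  exact h

end QCV


end

section

/-!
# QCV, `M_DDT`: if the discriminant vanishes then there is a rational singular point
-/

set_option autoImplicit false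

namespace QCV

namespace DDT

open MvPolynomial

/-- The inclusion of the first variables. -/
def io (a : ℕ) : Fin (a + 1) → Fin (a + 2 + 1) := fun i => ⟨i.1, by omega⟩

theorem io_inj (a : ℕ) : Function.Injective (io a) := by
  intro i j h
  have := congrArg Fin.val h
  exact Fin.ext this

/-- Evaluation of a form at a multiple. -/
theorem eval_hom {σ K : Type} [Field K] {k : ℕ} {P : MvPolynomial σ K} (h : P.IsHomogeneous k)
    (z : K) (y : σ → K) : eval (fun i => z * y i) P = z ^ k * eval y P := by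
  rw [eval_eq, eval_eq, Finset.mul_sum]
  refine Finset.sum_congr rfl fun d hd => ?_
  have hk := h.degree_eq_sum_deg_support hd
  simp only [mul_pow, Finset.prod_mul_distrib]
  rw [Finset.prod_pow_eq_pow_sum, ← hk]
  ring

/-- Two properties of linear forms. -/
theorem lin_form {σ K : Type} [Field K] [DecidableEq σ] {P : MvPolynomial σ K}
    (h : P.IsHomogeneous 1) :
    (∀ y y' : σ → K, eval (y + y') P = eval y P + eval y' P) ∧
      ∀ (y : σ → K) (i : σ), eval y (pderiv i P) = eval (Pi.single i 1) P := by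
  have h1 : P ∈ homogeneousSubmodule σ K 1 := h
  rw [homogeneousSubmodule_one_eq_span_X] at h1
  clear h
  induction h1 using Submodule.span_induction with
  | mem x hx =>
    obtain ⟨j, rfl⟩ := hx
    refine ⟨fun y y' => by simp, fun y i => ?_⟩
    rw [pderiv_X, eval_X]
    by_cases hij : j = i
    · subst hij
      simp
    · simp [Pi.single_eq_of_ne hij]
  | zero => simp
  | add x x' _ _ ih ih' =>
    refine ⟨fun y y' => ?_, fun y i => ?_⟩
    · rw [map_add, map_add, map_add, ih.1, ih'.1]
      ring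
    · rw [map_add, map_add, map_add, ih.2, ih'.2]
  | smul c x _ ih =>
    refine ⟨fun y y' => ?_, fun y i => ?_⟩
    · rw [smul_eval, smul_eval, smul_eval, ih.1]
      ring
    · rw [Derivation.map_smul, smul_eval, smul_eval, ih.2]

/-- The point `(z y, x₁, x₂)`. -/
def pt {K : Type} [Field K] {a : ℕ} (y : Fin (a + 1) → K) (z x₁ x₂ : K) : Fin (a + 2 + 1) → K :=
  fun i => if h : i.1 < a + 1 then z * y ⟨i.1, h⟩ else if i.1 = a + 1 then x₁ else x₂

theorem pt_io {K : Type} [Field K] {a : ℕ} (y : Fin (a + 1) → K) (z x₁ x₂ : K) :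
    pt y z x₁ x₂ ∘ io a = fun i => z * y i := by
  funext i
  have : (io a i).1 < a + 1 := i.2
  simp only [Function.comp, pt]
  rw [dif_pos this]
  rfl

theorem pt_one {K : Type} [Field K] {a : ℕ} (y : Fin (a + 1) → K) (z x₁ x₂ : K)
    (h : a + 1 < a + 2 + 1) : pt y z x₁ x₂ ⟨a + 1, h⟩ = x₁ := by
  unfold pt
  rw [dif_neg (by simp), if_pos rfl]

theorem pt_two {K : Type} [Field K] {a : ℕ} (y : Fin (a + 1) → K) (z x₁ x₂ : K)
    (h : a + 2 < a + 2 + 1) : pt y z x₁ x₂ ⟨a + 2, h⟩ = x₂ := by
  unfold pt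
  rw [dif_neg (by simp), if_neg (by simp)]

theorem pderiv_rename_zero {K : Type} [Field K] {a : ℕ} (P : MvPolynomial (Fin (a + 1)) K)
    (j : Fin (a + 2 + 1)) (hj : a + 1 ≤ j.1) : pderiv j (rename (io a) P) = 0 := by
  classical
  refine pderiv_eq_zero_of_notMem_vars fun h => ?_
  have h1 := vars_rename (io a) P h
  rw [Finset.mem_image] at h1
  obtain ⟨i, -, hi⟩ := h1
  have := congrArg Fin.val hi
  have h2 : (io a i).1 = i.1 := rfl
  omega

/-- The criterion for a singular point. -/
theorem sing {K : Type} [Field K] {a : ℕ} (L : MvPolynomial (Fin (a + 2 + 1)) K)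
    (A B₁ B₂ D₁ D₂ D₃ : MvPolynomial (Fin (a + 1)) K) (hA : A.IsHomogeneous 3)
    (hB₁ : B₁.IsHomogeneous 2) (hB₂ : B₂.IsHomogeneous 2) (hD₁ : D₁.IsHomogeneous 1)
    (hD₂ : D₂.IsHomogeneous 1) (hD₃ : D₃.IsHomogeneous 1)
    (hL : L = rename (io a) A + rename (io a) B₁ * X ⟨a + 1, by omega⟩ +
      rename (io a) B₂ * X ⟨a + 2, by omega⟩ + rename (io a) D₁ * X ⟨a + 1, by omega⟩ ^ 2 +
      rename (io a) D₂ * (X ⟨a + 1, by omega⟩ * X ⟨a + 2, by omega⟩) +
      rename (io a) D₃ * X ⟨a + 2, by omega⟩ ^ 2)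
    (y : Fin (a + 1) → K) (z x₁ x₂ : K)
    (h0 : z ^ 3 * eval y A + z ^ 2 * eval y B₁ * x₁ + z ^ 2 * eval y B₂ * x₂ +
      z * (eval y D₁ * x₁ ^ 2 + eval y D₂ * (x₁ * x₂) + eval y D₃ * x₂ ^ 2) = 0)
    (h1 : z ^ 2 * eval y B₁ + z * (2 * eval y D₁ * x₁ + eval y D₂ * x₂) = 0)
    (h2 : z ^ 2 * eval y B₂ + z * (eval y D₂ * x₁ + 2 * eval y D₃ * x₂) = 0)
    (h3 : ∀ i, z ^ 2 * eval y (pderiv i A) + z * (eval y (pderiv i B₁) * x₁ +
      eval y (pderiv i B₂) * x₂) + (eval y (pderiv i D₁) * x₁ ^ 2 +
      eval y (pderiv i D₂) * (x₁ * x₂) + eval y (pderiv i D₃) * x₂ ^ 2) = 0)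
    (hne : (∃ i, z * y i ≠ 0) ∨ x₁ ≠ 0 ∨ x₂ ≠ 0) :
    ∃ p : Fin (a + 2 + 1) → K, p ≠ 0 ∧ eval p L = 0 ∧ ∀ i, eval p (pderiv i L) = 0 := by
  have ev : ∀ {k : ℕ} {P : MvPolynomial (Fin (a + 1)) K}, P.IsHomogeneous k →
      eval (pt y z x₁ x₂) (rename (io a) P) = z ^ k * eval y P := by
    intro k P hP
    rw [eval_rename, pt_io, eval_hom hP]
  have lt1 : a + 1 < a + 2 + 1 := by omega
  have lt2 : a + 2 < a + 2 + 1 := by omega
  refine ⟨pt y z x₁ x₂, ?_, ?_, ?_⟩
  · intro hp
    rcases hne with ⟨i, hi⟩ | hx | hx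
    · refine hi ?_
      have := congrFun (pt_io y z x₁ x₂) i
      rw [← this]
      simp only [Function.comp, hp, Pi.zero_apply]
    · refine hx ?_
      rw [← pt_one y z x₁ x₂ (by omega), hp, Pi.zero_apply]
    · refine hx ?_
      rw [← pt_two y z x₁ x₂ (by omega), hp, Pi.zero_apply]
  · rw [hL]
    simp only [map_add, map_mul, map_pow, eval_X, pt_one, pt_two, ev hA, ev hB₁, ev hB₂, ev hD₁,
      ev hD₂, ev hD₃]
    linear_combination h0
  · intro i
    rcases Nat.lt_or_ge i.1 (a + 1) with hi | hi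
    · obtain ⟨j, rfl⟩ : ∃ j, i = io a j := ⟨⟨i.1, hi⟩, Fin.ext rfl⟩
      have n1 : (⟨a + 1, by omega⟩ : Fin (a + 2 + 1)) ≠ io a j := by
        intro h
        have := congrArg Fin.val h
        have h4 : (io a j).1 = j.1 := rfl
        have h5 := j.2
        simp only [h4] at this
        omega
      have n2 : (⟨a + 2, by omega⟩ : Fin (a + 2 + 1)) ≠ io a j := by
        intro h
        have := congrArg Fin.val h
        have h4 : (io a j).1 = j.1 := rfl
        have h5 := j.2
        simp only [h4] at this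
        omega
      have h4 := h3 j
      rw [hL]
      simp only [map_add, pderiv_mul, pderiv_pow, pderiv_X_of_ne n1, pderiv_X_of_ne n2,
        pderiv_rename (io_inj a), mul_zero, zero_mul, add_zero, map_mul, map_pow, eval_X, pt_one,
        pt_two, ev hA.pderiv, ev hB₁.pderiv, ev hB₂.pderiv, ev hD₁.pderiv, ev hD₂.pderiv,
        ev hD₃.pderiv]
      linear_combination h4
    · have r : ∀ P : MvPolynomial (Fin (a + 1)) K, pderiv i (rename (io a) P) = 0 :=
        fun P => pderiv_rename_zero P i hi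
      have hi2 := i.2
      rcases (by omega : i.1 = a + 1 ∨ i.1 = a + 2) with h | h
      · have e1 : i = ⟨a + 1, lt1⟩ := Fin.ext h
        subst e1
        have n2 : (⟨a + 2, lt2⟩ : Fin (a + 2 + 1)) ≠ ⟨a + 1, lt1⟩ := by
          intro h
          have := congrArg Fin.val h
          simp only at this
          omega
        rw [hL]
        simp only [map_add, pderiv_mul, pderiv_pow, pderiv_X_of_ne n2, pderiv_X_self, r, mul_zero,
          zero_mul, zero_add, add_zero, map_mul, map_pow, eval_X, pt_one, pt_two, ev hB₁, ev hB₂,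
          ev hD₁, ev hD₂, ev hD₃, mul_one, map_one, map_natCast]
        linear_combination h1
      · have e1 : i = ⟨a + 2, lt2⟩ := Fin.ext h
        subst e1
        have n2 : (⟨a + 1, lt1⟩ : Fin (a + 2 + 1)) ≠ ⟨a + 2, lt2⟩ := by
          intro h
          have := congrArg Fin.val h
          simp only at this
          omega
        rw [hL]
        simp only [map_add, pderiv_mul, pderiv_pow, pderiv_X_of_ne n2, pderiv_X_self, r, mul_zero,
          zero_mul, zero_add, add_zero, map_mul, map_pow, eval_X, pt_one, pt_two, ev hB₁, ev hB₂,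
          ev hD₁, ev hD₂, ev hD₃, mul_one, map_one, map_natCast]
        linear_combination h2

end DDT

open MvPolynomial in
/-- **DDT**. -/
theorem t_DDT : M_DDT := by
  intro hDEX K _ a G h2 hG hc hdet
  classical
  obtain ⟨A, B₁, B₂, D₁, D₂, D₃, hA, hB₁, hB₂, hD₁, hD₂, hD₃, hM, hC⟩ := hDEX K a G hG hc
  have hL := hC (rename (DDT.io a)) (fun i => by rw [rename_X]; rfl) _ _ rfl rfl
  -- the discriminant
  have hF : A * D₁ * D₃ + A * D₁ * D₃ + A * D₁ * D₃ + A * D₁ * D₃ - A * (D₂ * D₂) - B₁ * B₁ * D₃ +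
      B₁ * B₂ * D₂ - D₁ * (B₂ * B₂) = 0 := by
    rw [hM, Matrix.det_fin_three] at hdet
    simp only [Matrix.of_apply, Matrix.cons_val', Matrix.cons_val_zero, Matrix.cons_val_one,
      Matrix.cons_val, Matrix.empty_val', Matrix.cons_val_fin_one] at hdet
    have h4 : (2 : MvPolynomial (Fin (a + 1)) K) * (A * D₁ * D₃ + A * D₁ * D₃ + A * D₁ * D₃ +
        A * D₁ * D₃ - A * (D₂ * D₂) - B₁ * B₁ * D₃ + B₁ * B₂ * D₂ - D₁ * (B₂ * B₂)) = 0 := by
      linear_combination hdet
    have h5 : (2 : MvPolynomial (Fin (a + 1)) K) ≠ 0 := by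
      intro h
      refine h2 ?_
      have h6 := congrArg (eval (0 : Fin (a + 1) → K)) h
      rwa [map_ofNat, map_zero] at h6
    exact (mul_eq_zero.1 h4).resolve_left h5
  have eF : ∀ y : Fin (a + 1) → K, 4 * eval y A * eval y D₁ * eval y D₃ - eval y A * eval y D₂ ^ 2 -
      eval y B₁ ^ 2 * eval y D₃ + eval y B₁ * eval y B₂ * eval y D₂ - eval y D₁ * eval y B₂ ^ 2 = 0 := by
    intro y
    have h4 := congrArg (eval y) hF
    simp only [map_add, map_sub, map_mul, map_zero] at h4
    linear_combination h4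
  have dF : ∀ (y : Fin (a + 1) → K) (i : Fin (a + 1)),
      (4 * eval y D₁ * eval y D₃ - eval y D₂ ^ 2) * eval y (pderiv i A) +
      (eval y B₂ * eval y D₂ - 2 * eval y B₁ * eval y D₃) * eval y (pderiv i B₁) +
      (eval y B₁ * eval y D₂ - 2 * eval y D₁ * eval y B₂) * eval y (pderiv i B₂) +
      (4 * eval y A * eval y D₃ - eval y B₂ ^ 2) * eval y (pderiv i D₁) +
      (eval y B₁ * eval y B₂ - 2 * eval y A * eval y D₂) * eval y (pderiv i D₂) +
      (4 * eval y A * eval y D₁ - eval y B₁ ^ 2) * eval y (pderiv i D₃) = 0 := by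
    intro y i
    have h4 := congrArg (fun P => eval y (pderiv i P)) hF
    simp only [map_add, map_sub, pderiv_mul, map_mul, map_zero] at h4
    linear_combination h4
  -- the first case
  by_cases hadj : ∃ y : Fin (a + 1) → K, 4 * eval y D₁ * eval y D₃ - eval y D₂ ^ 2 ≠ 0 ∨
      4 * eval y A * eval y D₃ - eval y B₂ ^ 2 ≠ 0 ∨ 4 * eval y A * eval y D₁ - eval y B₁ ^ 2 ≠ 0
  · obtain ⟨y, hy⟩ := hadj
    have f := eF y
    have g := dF y
    rcases hy with hy | hy | hy
    · refine DDT.sing _ A B₁ B₂ D₁ D₂ D₃ hA hB₁ hB₂ hD₁ hD₂ hD₃ hL y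
        (4 * eval y D₁ * eval y D₃ - eval y D₂ ^ 2)
        (eval y B₂ * eval y D₂ - 2 * eval y B₁ * eval y D₃)
        (eval y B₁ * eval y D₂ - 2 * eval y D₁ * eval y B₂) ?_ ?_ ?_ ?_ ?_
      · linear_combination (4 * eval y D₁ * eval y D₃ - eval y D₂ ^ 2) ^ 2 * f
      · ring
      · ring
      · intro i
        linear_combination (4 * eval y D₁ * eval y D₃ - eval y D₂ ^ 2) * g i -
          (4 * eval y D₃ * eval y (pderiv i D₁) - 2 * eval y D₂ * eval y (pderiv i D₂) +
            4 * eval y D₁ * eval y (pderiv i D₃)) * f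
      · left
        by_contra hcon
        push Not at hcon
        refine hy ?_
        have h4 : y = fun i => (0 : K) * y i := by
          funext i
          rw [zero_mul]
          exact (mul_eq_zero.1 (hcon i)).resolve_left hy
        have h5 : eval y D₁ = 0 := by
          rw [h4, DDT.eval_hom hD₁]
          ring
        have h6 : eval y D₂ = 0 := by
          rw [h4, DDT.eval_hom hD₂]
          ring
        rw [h5, h6]
        ring
    · refine DDT.sing _ A B₁ B₂ D₁ D₂ D₃ hA hB₁ hB₂ hD₁ hD₂ hD₃ hL y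
        (eval y B₂ * eval y D₂ - 2 * eval y B₁ * eval y D₃)
        (4 * eval y A * eval y D₃ - eval y B₂ ^ 2)
        (eval y B₁ * eval y B₂ - 2 * eval y A * eval y D₂) ?_ ?_ ?_ ?_ (Or.inr (Or.inl hy))
      · linear_combination (eval y B₂ * eval y D₂ - 2 * eval y B₁ * eval y D₃) *
          (4 * eval y A * eval y D₃ - eval y B₂ ^ 2) * f
      · linear_combination 2 * (eval y B₂ * eval y D₂ - 2 * eval y B₁ * eval y D₃) * f
      · ring
      · intro i
        linear_combination (4 * eval y A * eval y D₃ - eval y B₂ ^ 2) * g i +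
          (-4 * eval y D₃ * eval y (pderiv i A) + 2 * eval y B₂ * eval y (pderiv i B₂) -
            4 * eval y A * eval y (pderiv i D₃)) * f
    · refine DDT.sing _ A B₁ B₂ D₁ D₂ D₃ hA hB₁ hB₂ hD₁ hD₂ hD₃ hL y
        (eval y B₁ * eval y D₂ - 2 * eval y D₁ * eval y B₂)
        (eval y B₁ * eval y B₂ - 2 * eval y A * eval y D₂)
        (4 * eval y A * eval y D₁ - eval y B₁ ^ 2) ?_ ?_ ?_ ?_ (Or.inr (Or.inr hy))
      · linear_combination (eval y B₁ * eval y D₂ - 2 * eval y D₁ * eval y B₂) *
          (4 * eval y A * eval y D₁ - eval y B₁ ^ 2) * f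
      · ring
      · linear_combination 2 * (eval y B₁ * eval y D₂ - 2 * eval y D₁ * eval y B₂) * f
      · intro i
        linear_combination (4 * eval y A * eval y D₁ - eval y B₁ ^ 2) * g i +
          (-4 * eval y D₁ * eval y (pderiv i A) + 2 * eval y B₁ * eval y (pderiv i B₁) -
            4 * eval y A * eval y (pderiv i D₁)) * f
  -- the second case
  push Not at hadj
  have q : ∀ y : Fin (a + 1) → K, 4 * eval y D₁ * eval y D₃ - eval y D₂ ^ 2 = 0 := fun y => (hadj y).1
  obtain ⟨l₁, m₁⟩ := DDT.lin_form hD₁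
  obtain ⟨l₂, m₂⟩ := DDT.lin_form hD₂
  obtain ⟨l₃, m₃⟩ := DDT.lin_form hD₃
  have pol : ∀ y y₀ : Fin (a + 1) → K, 2 * eval y₀ D₁ * eval y D₃ + 2 * eval y D₁ * eval y₀ D₃ -
      eval y₀ D₂ * eval y D₂ = 0 := by
    intro y y₀
    have h4 := q (y₀ + y)
    rw [l₁, l₂, l₃] at h4
    have h5 : 2 * (2 * eval y₀ D₁ * eval y D₃ + 2 * eval y D₁ * eval y₀ D₃ -
        eval y₀ D₂ * eval y D₂) = 0 := by
      linear_combination h4 - q y - q y₀
    exact (mul_eq_zero.1 h5).resolve_left h2
  by_cases hD : ∃ y₀ : Fin (a + 1) → K, eval y₀ D₂ ≠ 0 ∨ 2 * eval y₀ D₁ ≠ 0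
  · obtain ⟨y₀, hy₀⟩ := hD
    refine DDT.sing _ A B₁ B₂ D₁ D₂ D₃ hA hB₁ hB₂ hD₁ hD₂ hD₃ hL y₀ 0 (eval y₀ D₂)
      (-(2 * eval y₀ D₁)) (by ring) (by ring) (by ring) ?_ ?_
    · intro i
      rw [m₁, m₂, m₃]
      linear_combination 2 * eval y₀ D₁ * pol (Pi.single i 1) y₀ -
        eval (Pi.single i 1) D₁ * q y₀
    · rcases hy₀ with h | h
      · exact Or.inr (Or.inl h)
      · exact Or.inr (Or.inr (neg_ne_zero.2 h))
  · push Not at hD
    refine DDT.sing _ A B₁ B₂ D₁ D₂ D₃ hA hB₁ hB₂ hD₁ hD₂ hD₃ hL 0 0 1 0 (by ring) (by ring)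
      (by ring) ?_ (Or.inr (Or.inl one_ne_zero))
    intro i
    have h4 : eval (Pi.single i 1) D₁ = 0 :=
      (mul_eq_zero.1 (hD (Pi.single i 1)).2).resolve_left h2
    rw [m₁, h4]
    ring

end QCV


end

section

/-!
# QCV, DEX: the explicit form of a quadratic form in three variables (helper29)
-/

set_option autoImplicit false

open MvPolynomial

namespace QCV

namespace DEX

/-- the exponent `(i, j, k)` -/
noncomputable def ex (i j k : ℕ) : Fin (2 + 1) →₀ ℕ := Finsupp.equivFunOnFinite.symm ![i, j, k]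

lemma ex_0 (i j k : ℕ) : ex i j k 0 = i := rfl

lemma ex_1 (i j k : ℕ) : ex i j k 1 = j := rfl

lemma ex_2 (i j k : ℕ) : ex i j k 2 = k := rfl

lemma ex_eta (μ : Fin (2 + 1) →₀ ℕ) : ex (μ 0) (μ 1) (μ 2) = μ := by
  ext i
  fin_cases i <;> rfl

lemma ex_inj (i j k i' j' k' : ℕ) : ex i j k = ex i' j' k' ↔ i = i' ∧ j = j' ∧ k = k' := by
  constructor
  · intro h
    exact ⟨DFunLike.congr_fun h 0, DFunLike.congr_fun h 1, DFunLike.congr_fun h 2⟩
  · rintro ⟨rfl, rfl, rfl⟩
    rfl

lemma ex_degree (i j k : ℕ) : (ex i j k).degree = i + j + k := by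
  rw [Finsupp.degree_eq_sum, Fin.sum_univ_three]
  rfl

lemma decomp {R : Type} [CommRing R] (G : MvPolynomial (Fin (2 + 1)) R) (hG : G.IsHomogeneous 2) :
    G = monomial (ex 2 0 0) (coeff (ex 2 0 0) G) + monomial (ex 1 1 0) (coeff (ex 1 1 0) G) +
      monomial (ex 1 0 1) (coeff (ex 1 0 1) G) + monomial (ex 0 2 0) (coeff (ex 0 2 0) G) +
      monomial (ex 0 1 1) (coeff (ex 0 1 1) G) + monomial (ex 0 0 2) (coeff (ex 0 0 2) G) := by
  classical
  ext μ
  obtain ⟨i, j, k, rfl⟩ : ∃ i j k, μ = ex i j k := ⟨μ 0, μ 1, μ 2, (ex_eta μ).symm⟩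
  simp only [coeff_add, coeff_monomial, ex_inj]
  by_cases h : i + j + k = 2
  · have hi : i ≤ 2 := by omega
    have hj : j ≤ 2 := by omega
    have hk : k ≤ 2 := by omega
    interval_cases i <;> interval_cases j <;> interval_cases k <;> first
      | (exfalso; omega)
      | simp
  · have h0 : coeff (ex i j k) G = 0 := by
      apply hG.coeff_eq_zero
      rw [ex_degree]
      exact h
    rw [h0, if_neg (by omega), if_neg (by omega), if_neg (by omega), if_neg (by omega),
      if_neg (by omega), if_neg (by omega)]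
    simp

end DEX

open _root_.QCV.DEX in
theorem t_DEX : S_DEX := by
  intro K _ a G hG hc
  refine ⟨coeff (ex 2 0 0) G, coeff (ex 1 1 0) G, coeff (ex 1 0 1) G, coeff (ex 0 2 0) G,
    coeff (ex 0 1 1) G, coeff (ex 0 0 2) G, hc _, hc _, hc _, hc _, hc _, hc _, ?_, ?_⟩
  · have e00 : (0 : Fin (2 + 1) →₀ ℕ) + Finsupp.single 0 1 + Finsupp.single 0 1 = ex 2 0 0 := by
      ext x; fin_cases x <;> simp [ex]
    have e01 : (0 : Fin (2 + 1) →₀ ℕ) + Finsupp.single 0 1 + Finsupp.single 1 1 = ex 1 1 0 := by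
      ext x; fin_cases x <;> simp [ex]
    have e10 : (0 : Fin (2 + 1) →₀ ℕ) + Finsupp.single 1 1 + Finsupp.single 0 1 = ex 1 1 0 := by
      ext x; fin_cases x <;> simp [ex]
    have e02 : (0 : Fin (2 + 1) →₀ ℕ) + Finsupp.single 0 1 + Finsupp.single 2 1 = ex 1 0 1 := by
      ext x; fin_cases x <;> simp [ex]
    have e20 : (0 : Fin (2 + 1) →₀ ℕ) + Finsupp.single 2 1 + Finsupp.single 0 1 = ex 1 0 1 := by
      ext x; fin_cases x <;> simp [ex]
    have e11 : (0 : Fin (2 + 1) →₀ ℕ) + Finsupp.single 1 1 + Finsupp.single 1 1 = ex 0 2 0 := by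
      ext x; fin_cases x <;> simp [ex]
    have e12 : (0 : Fin (2 + 1) →₀ ℕ) + Finsupp.single 1 1 + Finsupp.single 2 1 = ex 0 1 1 := by
      ext x; fin_cases x <;> simp [ex]
    have e21 : (0 : Fin (2 + 1) →₀ ℕ) + Finsupp.single 2 1 + Finsupp.single 1 1 = ex 0 1 1 := by
      ext x; fin_cases x <;> simp [ex]
    have e22 : (0 : Fin (2 + 1) →₀ ℕ) + Finsupp.single 2 1 + Finsupp.single 2 1 = ex 0 0 2 := by
      ext x; fin_cases x <;> simp [ex]
    have h2 : ∀ x : MvPolynomial (Fin (a + 1)) K, x * (1 + 1) = 2 * x := fun x => by ring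
    ext1 i j
    unfold lgram
    simp only [coeff_pderiv]
    fin_cases i <;> fin_cases j
    · show coeff ((0 : Fin (2 + 1) →₀ ℕ) + Finsupp.single 0 1 + Finsupp.single 0 1) G *
        (((0 + Finsupp.single 0 1 : Fin (2 + 1) →₀ ℕ) 0 : ℕ) + 1) *
        (((0 : Fin (2 + 1) →₀ ℕ) 0 : ℕ) + 1) = 2 * coeff (ex 2 0 0) G
      rw [e00]
      simp [h2]
    · show coeff ((0 : Fin (2 + 1) →₀ ℕ) + Finsupp.single 0 1 + Finsupp.single 1 1) G *
        (((0 + Finsupp.single 0 1 : Fin (2 + 1) →₀ ℕ) 1 : ℕ) + 1) *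
        (((0 : Fin (2 + 1) →₀ ℕ) 0 : ℕ) + 1) = coeff (ex 1 1 0) G
      rw [e01]
      simp
    · show coeff ((0 : Fin (2 + 1) →₀ ℕ) + Finsupp.single 0 1 + Finsupp.single 2 1) G *
        (((0 + Finsupp.single 0 1 : Fin (2 + 1) →₀ ℕ) 2 : ℕ) + 1) *
        (((0 : Fin (2 + 1) →₀ ℕ) 0 : ℕ) + 1) = coeff (ex 1 0 1) G
      rw [e02]
      simp
    · show coeff ((0 : Fin (2 + 1) →₀ ℕ) + Finsupp.single 1 1 + Finsupp.single 0 1) G *
        (((0 + Finsupp.single 1 1 : Fin (2 + 1) →₀ ℕ) 0 : ℕ) + 1) *
        (((0 : Fin (2 + 1) →₀ ℕ) 1 : ℕ) + 1) = coeff (ex 1 1 0) G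
      rw [e10]
      simp
    · show coeff ((0 : Fin (2 + 1) →₀ ℕ) + Finsupp.single 1 1 + Finsupp.single 1 1) G *
        (((0 + Finsupp.single 1 1 : Fin (2 + 1) →₀ ℕ) 1 : ℕ) + 1) *
        (((0 : Fin (2 + 1) →₀ ℕ) 1 : ℕ) + 1) = 2 * coeff (ex 0 2 0) G
      rw [e11]
      simp [h2]
    · show coeff ((0 : Fin (2 + 1) →₀ ℕ) + Finsupp.single 1 1 + Finsupp.single 2 1) G *
        (((0 + Finsupp.single 1 1 : Fin (2 + 1) →₀ ℕ) 2 : ℕ) + 1) *
        (((0 : Fin (2 + 1) →₀ ℕ) 1 : ℕ) + 1) = coeff (ex 0 1 1) G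
      rw [e12]
      simp
    · show coeff ((0 : Fin (2 + 1) →₀ ℕ) + Finsupp.single 2 1 + Finsupp.single 0 1) G *
        (((0 + Finsupp.single 2 1 : Fin (2 + 1) →₀ ℕ) 0 : ℕ) + 1) *
        (((0 : Fin (2 + 1) →₀ ℕ) 2 : ℕ) + 1) = coeff (ex 1 0 1) G
      rw [e20]
      simp
    · show coeff ((0 : Fin (2 + 1) →₀ ℕ) + Finsupp.single 2 1 + Finsupp.single 1 1) G *
        (((0 + Finsupp.single 2 1 : Fin (2 + 1) →₀ ℕ) 1 : ℕ) + 1) *
        (((0 : Fin (2 + 1) →₀ ℕ) 2 : ℕ) + 1) = coeff (ex 0 1 1) G
      rw [e21]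
      simp
    · show coeff ((0 : Fin (2 + 1) →₀ ℕ) + Finsupp.single 2 1 + Finsupp.single 2 1) G *
        (((0 + Finsupp.single 2 1 : Fin (2 + 1) →₀ ℕ) 2 : ℕ) + 1) *
        (((0 : Fin (2 + 1) →₀ ℕ) 2 : ℕ) + 1) = 2 * coeff (ex 0 0 2) G
      rw [e22]
      simp [h2]
  · intro ρ hρ x₁ x₂ h1 h2
    have hr : ρ = MvPolynomial.rename
        (fun i : Fin (a + 1) => (⟨i.1, by omega⟩ : Fin (a + 2 + 1))) := by
      apply MvPolynomial.algHom_ext
      intro i
      rw [hρ, MvPolynomial.rename_X]
    have hev : ∀ (i j k : ℕ) (c : MvPolynomial (Fin (a + 1)) K),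
        lcub (s := 2) (monomial (ex i j k) c) = ρ c * (x₁ ^ j * x₂ ^ k) := by
      intro i j k c
      unfold lcub
      rw [eval₂_monomial, Finsupp.prod_fintype _ _ (fun _ => pow_zero _), Fin.prod_univ_three,
        ex_0, ex_1, ex_2, hr, h1, h2]
      have e0 : (Fin.cons 1 (fun j : Fin 2 => MvPolynomial.X ⟨a + 1 + j.1, by omega⟩) :
          Fin (2 + 1) → MvPolynomial (Fin (a + 2 + 1)) K) 0 = 1 := rfl
      have e1 : (Fin.cons 1 (fun j : Fin 2 => MvPolynomial.X ⟨a + 1 + j.1, by omega⟩) :
          Fin (2 + 1) → MvPolynomial (Fin (a + 2 + 1)) K) 1 = MvPolynomial.X ⟨a + 1, by omega⟩ := rfl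
      have e2 : (Fin.cons 1 (fun j : Fin 2 => MvPolynomial.X ⟨a + 1 + j.1, by omega⟩) :
          Fin (2 + 1) → MvPolynomial (Fin (a + 2 + 1)) K) 2 = MvPolynomial.X ⟨a + 2, by omega⟩ := rfl
      rw [e0, e1, e2, one_pow, one_mul]
      rfl
    have hadd : ∀ f g : MvPolynomial (Fin (2 + 1)) (MvPolynomial (Fin (a + 1)) K),
        lcub (s := 2) (f + g) = lcub f + lcub g := by
      intro f g
      unfold lcub
      rw [eval₂_add]
    conv_lhs => rw [decomp G hG]
    simp only [hadd, hev]
    ring

end QCV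


end

section

/-!
# Module DLN: every cubic form in at least four variables vanishes on a line over a finite extension
-/

set_option autoImplicit false

namespace QCV

open Polynomial

/-- extension by zero -/
def dln_ext {L : Type} [Field L] (n : ℕ) (p : Fin 4 → L) : Fin n → L :=
  fun i => if h : i.1 < 4 then p ⟨i.1, h⟩ else 0

theorem dln_lift {K : Type} [Field K] (n : ℕ) (hn : 4 ≤ n) (F : MvPolynomial (Fin n) K)
    (L : Type) [Field L] [Algebra K L]
    (h : HasLine (MvPolynomial.aeval (fun i : Fin n =>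
      if h : i.1 < 4 then (MvPolynomial.X ⟨i.1, h⟩ : MvPolynomial (Fin 4) K) else 0) F) L) :
    HasLine F L := by
  obtain ⟨p, q, hpq, h0⟩ := h
  refine ⟨dln_ext n p, dln_ext n q, ?_, ?_⟩
  · apply LinearIndependent.of_comp (LinearMap.funLeft L L (Fin.castLE hn))
    have e : (LinearMap.funLeft L L (Fin.castLE hn)) ∘ ![dln_ext n p, dln_ext n q] = ![p, q] := by
      have e1 : ∀ r : Fin 4 → L, (LinearMap.funLeft L L (Fin.castLE hn)) (dln_ext n r) = r := by
        intro r
        funext i
        rw [LinearMap.funLeft_apply]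
        unfold dln_ext
        rw [dif_pos (show (Fin.castLE hn i).1 < 4 from i.2)]
        rfl
      funext j
      fin_cases j
      · exact e1 p
      · exact e1 q
    rw [e]
    exact hpq
  · rw [← h0]
    have e : (MvPolynomial.aeval (fun i : Fin n => MvPolynomial.C (dln_ext n p i) *
        MvPolynomial.X 0 + MvPolynomial.C (dln_ext n q i) * MvPolynomial.X 1 :
        Fin n → MvPolynomial (Fin 2) L) : MvPolynomial (Fin n) K →ₐ[K] MvPolynomial (Fin 2) L) =
        (MvPolynomial.aeval (fun i => MvPolynomial.C (p i) * MvPolynomial.X 0 +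
          MvPolynomial.C (q i) * MvPolynomial.X 1 : Fin 4 → MvPolynomial (Fin 2) L) :
          MvPolynomial (Fin 4) K →ₐ[K] MvPolynomial (Fin 2) L).comp
        (MvPolynomial.aeval (fun i : Fin n =>
          if h : i.1 < 4 then (MvPolynomial.X ⟨i.1, h⟩ : MvPolynomial (Fin 4) K) else 0)) := by
      apply MvPolynomial.algHom_ext
      intro i
      rw [AlgHom.comp_apply, MvPolynomial.aeval_X, MvPolynomial.aeval_X]
      unfold dln_ext
      by_cases hi : i.1 < 4
      · rw [dif_pos hi, dif_pos hi, dif_pos hi, MvPolynomial.aeval_X]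
      · rw [dif_neg hi, dif_neg hi, dif_neg hi, map_zero, map_zero, zero_mul, zero_mul, add_zero]
    exact DFunLike.congr_fun e F

theorem t_DLN : M_DLN := by
  intro hDDF hDVL hDTR K _ n F hn hF
  have hF' : (MvPolynomial.aeval (fun i : Fin n =>
      if h : i.1 < 4 then (MvPolynomial.X ⟨i.1, h⟩ : MvPolynomial (Fin 4) K) else 0)
      F).IsHomogeneous 3 := by
    have h1 := hF.aeval (R := K) (fun i : Fin n =>
      if h : i.1 < 4 then (MvPolynomial.X ⟨i.1, h⟩ : MvPolynomial (Fin 4) K) else 0) (n := 1)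
      (by
        intro i
        split_ifs with hi
        · exact MvPolynomial.isHomogeneous_X _ _
        · exact MvPolynomial.isHomogeneous_zero _ _ _)
    simpa using h1
  obtain ⟨Ω, i1, i2, t, ht, hline⟩ := hDDF K _ hF'
  let _ := i1
  let _ := i2
  obtain ⟨κ, j1, j2, hκ⟩ := hDVL K Ω 4 (MvPolynomial.X 2 * MvPolynomial.X 0 ^ 2 +
    MvPolynomial.X 3 * MvPolynomial.X 1 ^ 2) _ t ht (by
      simpa only [map_add, map_mul, map_pow, MvPolynomial.map_X] using hline)
  let _ := j1
  let _ := j2
  obtain ⟨K', l1, l2, hfin, hK'⟩ := hDTR K κ 4 _ hκ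
  let _ := l1
  let _ := l2
  exact ⟨K', l1, l2, hfin, dln_lift n hn F K' hK'⟩

end QCV


end

section

/-!
# QCV, block D: `S_DTR` (a line over an extension gives a line over a finite extension)

Let `B` be the subalgebra of `L` generated by the coordinates of the two vectors spanning the line
and by the inverse of a nonzero minor of order two; reduce modulo a maximal ideal of `B` and apply
Zariski's lemma.
-/

set_option autoImplicit false

namespace QCV

namespace DTRaux

/-- Functoriality of the restriction of `F` to the line spanned by `p` and `q`. -/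
theorem map_line {K B L : Type} [Field K] [CommRing B] [CommRing L] [Algebra K B] [Algebra K L]
    (φ : B →ₐ[K] L) {n : ℕ} (F : MvPolynomial (Fin n) K) (p q : Fin n → B) :
    MvPolynomial.mapAlgHom φ (MvPolynomial.aeval
      (fun i => MvPolynomial.C (p i) * MvPolynomial.X 0 + MvPolynomial.C (q i) * MvPolynomial.X 1 :
        Fin n → MvPolynomial (Fin 2) B) F) =
    MvPolynomial.aeval
      (fun i => MvPolynomial.C (φ (p i)) * MvPolynomial.X 0 +
        MvPolynomial.C (φ (q i)) * MvPolynomial.X 1 : Fin n → MvPolynomial (Fin 2) L) F := by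
  rw [MvPolynomial.comp_aeval_apply]
  congr 2
  funext i
  simp [MvPolynomial.mapAlgHom_apply]

/-- Two independent vectors have a nonzero minor of order two. -/
theorem exists_minor {L : Type} [Field L] {n : ℕ} (p q : Fin n → L)
    (h : LinearIndependent L ![p, q]) : ∃ i j, p i * q j - p j * q i ≠ 0 := by
  by_contra hcon
  push Not at hcon
  rw [LinearIndependent.pair_iff] at h
  have hp : ∃ i, p i ≠ 0 := by
    by_contra hp
    push Not at hp
    have := h 1 0 (by funext i; simp [hp i])
    exact one_ne_zero this.1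
  obtain ⟨i, hi⟩ := hp
  have h2 := h (q i) (-(p i)) (by
    funext j
    have := hcon i j
    simp only [Pi.add_apply, Pi.smul_apply, smul_eq_mul, Pi.zero_apply]
    linear_combination (-1) * this)
  exact hi (neg_eq_zero.mp h2.2)

/-- Two vectors with a nonzero minor of order two are independent. -/
theorem indep_of_minor {L : Type} [Field L] {n : ℕ} (p q : Fin n → L) (i j : Fin n)
    (h : p i * q j - p j * q i ≠ 0) : LinearIndependent L ![p, q] := by
  rw [LinearIndependent.pair_iff]
  intro s t hst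
  have hi : s * p i + t * q i = 0 := by
    have := congrFun hst i
    simpa using this
  have hj : s * p j + t * q j = 0 := by
    have := congrFun hst j
    simpa using this
  constructor
  · have : s * (p i * q j - p j * q i) = 0 := by linear_combination q j * hi - q i * hj
    exact (mul_eq_zero.mp this).resolve_right h
  · have : t * (p i * q j - p j * q i) = 0 := by linear_combination p i * hj - p j * hi
    exact (mul_eq_zero.mp this).resolve_right h

end DTRaux

open _root_.QCV.DTRaux in
theorem t_DTR : S_DTR := by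
  intro K L _ _ _ n F hL
  obtain ⟨p, q, hli, hF⟩ := hL
  obtain ⟨i, j, hd⟩ := exists_minor p q hli
  -- the finitely generated algebra
  let s : Set L := (Set.range p ∪ Set.range q) ∪ {(p i * q j - p j * q i)⁻¹}
  have hs : s.Finite := ((Set.finite_range p).union (Set.finite_range q)).union
    (Set.finite_singleton _)
  let B : Subalgebra K L := Algebra.adjoin K s
  have hft : Algebra.FiniteType K B :=
    (Subalgebra.fg_iff_finiteType B).mp ⟨hs.toFinset, by simp [B]⟩
  have hpB : ∀ k, p k ∈ B := fun k =>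
    Algebra.subset_adjoin (Or.inl (Or.inl (Set.mem_range_self k)))
  have hqB : ∀ k, q k ∈ B := fun k =>
    Algebra.subset_adjoin (Or.inl (Or.inr (Set.mem_range_self k)))
  have hdB : (p i * q j - p j * q i)⁻¹ ∈ B := Algebra.subset_adjoin (Or.inr rfl)
  let p' : Fin n → B := fun k => ⟨p k, hpB k⟩
  let q' : Fin n → B := fun k => ⟨q k, hqB k⟩
  let d' : B := ⟨(p i * q j - p j * q i)⁻¹, hdB⟩
  have hunit : (p' i * q' j - p' j * q' i) * d' = 1 := by
    apply Subtype.ext
    show (p i * q j - p j * q i) * (p i * q j - p j * q i)⁻¹ = 1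
    exact mul_inv_cancel₀ hd
  have hFB : MvPolynomial.aeval
      (fun k => MvPolynomial.C (p' k) * MvPolynomial.X 0 +
        MvPolynomial.C (q' k) * MvPolynomial.X 1 : Fin n → MvPolynomial (Fin 2) B) F = 0 := by
    have hinj : Function.Injective
        (MvPolynomial.mapAlgHom (σ := Fin 2) (B.val : B →ₐ[K] L)) := by
      have := MvPolynomial.map_injective (σ := Fin 2) (B.val : B →ₐ[K] L).toRingHom
        Subtype.val_injective
      exact this
    apply hinj
    rw [map_line, map_zero]
    exact hF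
  obtain ⟨m, hm⟩ := Ideal.exists_maximal B
  let _ : Field (B ⧸ m) := Ideal.Quotient.field m
  have hfin : Module.Finite K (B ⧸ m) := by
    have : Algebra.FiniteType K (B ⧸ m) := inferInstance
    exact finite_of_finite_type_of_isJacobsonRing K (B ⧸ m)
  refine ⟨B ⧸ m, inferInstance, inferInstance, hfin, ?_⟩
  refine ⟨fun k => Ideal.Quotient.mkₐ K m (p' k), fun k => Ideal.Quotient.mkₐ K m (q' k), ?_, ?_⟩
  · apply indep_of_minor _ _ i j
    intro h0
    have h1 : Ideal.Quotient.mkₐ K m ((p' i * q' j - p' j * q' i) * d') = 1 := by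
      rw [hunit, map_one]
    rw [map_mul, map_sub, map_mul, map_mul, h0, zero_mul] at h1
    exact zero_ne_one h1
  · rw [← map_line (Ideal.Quotient.mkₐ K m) F p' q', hFB, map_zero]

end QCV


end

section

/-!
# QCV, module DHG: homogenisation
-/

set_option autoImplicit false

open Polynomial

namespace QCV

theorem t_DHG : S_DHG := by
  intro R _ n m f hf
  refine ⟨∑ μ ∈ f.support, MvPolynomial.monomial (Finsupp.cons (m - μ.degree) μ)
    (MvPolynomial.coeff μ f), ?_, ?_⟩
  · refine MvPolynomial.IsHomogeneous.sum _ _ _ fun μ hμ => ?_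
    apply MvPolynomial.isHomogeneous_monomial
    have h1 : μ.degree ≤ m := by
      refine le_trans ?_ hf
      have := MvPolynomial.le_totalDegree hμ
      simpa [Finsupp.degree_apply, Finsupp.sum] using this
    rw [Finsupp.degree_eq_sum, Fin.sum_univ_succ]
    simp only [Finsupp.cons_zero, Finsupp.cons_succ]
    rw [← Finsupp.degree_eq_sum]
    omega
  · rw [map_sum]
    conv_rhs => rw [f.as_sum]
    refine Finset.sum_congr rfl fun μ _ => ?_
    rw [lsp, MvPolynomial.aeval_monomial, Finsupp.prod_fintype _ _ (fun i => pow_zero _),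
      Fin.prod_univ_succ]
    simp only [Fin.cons_zero, Fin.cons_succ, Finsupp.cons_zero, Finsupp.cons_succ, map_one,
      one_pow, one_mul]
    rw [MvPolynomial.monomial_eq, Finsupp.prod_fintype _ _ (fun i => pow_zero _)]
    rfl

end QCV


end

section

/-!
# QCV, block U: statements (universality of systems of quadratic forms), part 1 (only Mathlib)

Every polynomial `g ∈ R[t_1, ..., t_m]` is, after addition of hyperbolic planes, the generic member
`f_0 + t_1 f_1 + ... + t_m f_m` of a linear system of quadratic forms over `R`: there are quadratic forms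
`f_0, ..., f_m` in `1 + 2 s` variables over `R` and an invertible matrix over `R[t]` which transforms
`g x_0 ^ 2 + u_1 v_1 + ... + u_s v_s` into `f_0 + t_1 f_1 + ... + t_m f_m`.
-/

set_option autoImplicit false

namespace QCV

/-- The form `f_0 + t_1 f_1 + ... + t_q f_q` over `R[t_1, ..., t_q]` (a copy of `gen`, DefsO). -/
noncomputable def lgen {R : Type} [CommRing R] {n q : ℕ}
    (f : Fin (q + 1) → MvPolynomial (Fin n) R) : MvPolynomial (Fin n) (MvPolynomial (Fin q) R) :=
  MvPolynomial.map MvPolynomial.C (f 0) +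
    ∑ j, MvPolynomial.C (MvPolynomial.X j) * MvPolynomial.map MvPolynomial.C (f j.succ)

/-- The linear substitution `x_i ↦ ∑_j P_(ij) x_j`. -/
noncomputable def lsub {B : Type} [CommRing B] {n : ℕ} (P : Matrix (Fin n) (Fin n) B) :
    MvPolynomial (Fin n) B →ₐ[B] MvPolynomial (Fin n) B :=
  MvPolynomial.aeval fun i => ∑ j, MvPolynomial.C (P i j) * MvPolynomial.X j

/-- The form `φ + u_0 v_0 + ... + u_(s-1) v_(s-1)`; the new variables are `u_i = x_(n + 2 i)` and
`v_i = x_(n + 2 i + 1)`. -/
noncomputable def hyp {B : Type} [CommRing B] {n : ℕ} (φ : MvPolynomial (Fin n) B) (s : ℕ) :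
    MvPolynomial (Fin (n + 2 * s)) B :=
  MvPolynomial.rename (Fin.castAdd (2 * s)) φ +
    ∑ i : Fin s, MvPolynomial.X ⟨n + 2 * i.1, by omega⟩ * MvPolynomial.X ⟨n + 2 * i.1 + 1, by omega⟩

/-- The form `φ` is, after addition of hyperbolic planes, the generic member of a linear system of
quadratic forms over `R`. -/
def LinZ {R : Type} [CommRing R] {m n : ℕ} (φ : MvPolynomial (Fin n) (MvPolynomial (Fin m) R)) :
    Prop :=
  ∃ (s : ℕ) (f : Fin (m + 1) → MvPolynomial (Fin (n + 2 * s)) R)
    (P : Matrix (Fin (n + 2 * s)) (Fin (n + 2 * s)) (MvPolynomial (Fin m) R)),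
    (∀ j, (f j).IsHomogeneous 2) ∧ IsUnit P.det ∧ lsub P (hyp φ s) = lgen f

/-- **ULC** (composition): if `φ + u v` is transformed into `ψ` and `LinZ ψ` then `LinZ φ`.
Proof.  `ψ` has `n + 2` variables.  Let `s, f, P` be as in `LinZ ψ`; take `s + 1`
(`n + 2 * (s + 1) = n + 2 + 2 * s`: rename along the equivalence `Fin.castOrderIso`/`finCongr`).
`hyp φ (s + 1)` is `hyp (hyp φ 1) s` (renamed; the last `s` planes are the same, sums over
`Fin (s + 1)`: `Fin.sum_univ_succ`), `Q ⊕ 1` (block matrix) transforms it into `hyp ψ s`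
(`lsub (Q ⊕ 1) (rename castAdd χ) = rename castAdd (lsub Q χ)`), then `P` into `lgen f`; the product of
the matrices in the right order (`lsub P ∘ lsub Q' = lsub (Q' * P)`), determinant a unit.
(Suggestion: first replace `Fin (n + 2 * s)` by an arbitrary finite type, `f` and `P` by `rename` and
`Matrix.reindex`; all notions are compatible with `MvPolynomial.renameEquiv`.) -/
def S_ULC : Prop :=
  ∀ (R : Type) [CommRing R] (m n : ℕ) (φ : MvPolynomial (Fin n) (MvPolynomial (Fin m) R))
    (ψ : MvPolynomial (Fin (n + 2 * 1)) (MvPolynomial (Fin m) R))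
    (Q : Matrix (Fin (n + 2 * 1)) (Fin (n + 2 * 1)) (MvPolynomial (Fin m) R)), IsUnit Q.det →
    lsub Q (hyp φ 1) = ψ → LinZ ψ → LinZ φ

/-- **ULS** (one step).
Proof.  `φ = ρ + a b x_i x_j`.  Let `u = x_n`, `v = x_(n+1)`.  The substitution `u ↦ u - a x_i`,
`v ↦ v + b x_j`, `x_l ↦ x_l` maps `u v + a b x_i x_j` to `u v + b u x_j - a v x_i`.  Its matrix `Q` is the
identity plus `- a` at the place `(n, i)` and `b` at the place `(n + 1, j)`, unitriangular, so
`det Q = 1` (`Matrix.det_of_lowerTriangular`, or product of two transvections). -/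
def S_ULS : Prop :=
  ∀ (B : Type) [CommRing B] (n : ℕ) (ρ : MvPolynomial (Fin n) B) (a b : B) (i j : Fin n),
    ∃ Q : Matrix (Fin (n + 2 * 1)) (Fin (n + 2 * 1)) B, IsUnit Q.det ∧
      lsub Q (hyp (ρ + MvPolynomial.C (a * b) * (MvPolynomial.X i * MvPolynomial.X j)) 1) =
        MvPolynomial.rename (Fin.castAdd (2 * 1)) ρ +
          MvPolynomial.X ⟨n, by omega⟩ * MvPolynomial.X ⟨n + 1, by omega⟩ +
          MvPolynomial.C b * (MvPolynomial.X ⟨n, by omega⟩ * MvPolynomial.X (Fin.castAdd (2 * 1) j)) +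
          MvPolynomial.C (-a) *
            (MvPolynomial.X ⟨n + 1, by omega⟩ * MvPolynomial.X (Fin.castAdd (2 * 1) i))

/-- **ULZ** (linearisation).
Proof.  For a list `L` of terms `(μ, c, i, j)`, `μ : Fin m →₀ ℕ`, `c : R`, `i j : Fin n`, let
`φ_L = ∑ C (monomial μ c) * (X i * X j)` and `M(L) = ∑ (|μ| - 1)` (`|μ| = Finsupp.degree μ`, truncated
subtraction).  Claim: `LinZ φ_L`, by strong induction on `M(L)`, for all `n`.  If all `|μ| ≤ 1`:
`s = 0`, `P = 1`, `φ_L = lgen f` with `f_0` the sum of the terms `c x_i x_j` with `μ = 0` and `f_(l+1)` the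
sum of those with `μ = single l 1`.  Otherwise there is a term with `|μ| ≥ 2` (move it to the front:
`List.perm`, the sum does not change), `μ = ν + single l 1`; `S_ULS` with `a = monomial ν 1`,
`b = monomial (single l 1) c`, `ρ = φ_(L')`; the result is `φ_(L'')`, where `L''` is `L'` (renamed) and
the terms `(0, 1, n, n + 1)`, `(single l 1, c, n, j)`, `(ν, -1, n + 1, i)`, `M(L'') = M(L') + |ν| - 1 <
M(L)`; `S_ULC`.  Finally every form of degree two over `R[t]` is a `φ_L`: `MvPolynomial.as_sum` for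
the form and for its coefficients; monomials of degree two are products of two variables. -/
def S_ULZ : Prop :=
  ∀ (R : Type) [CommRing R] (m n : ℕ) (φ : MvPolynomial (Fin n) (MvPolynomial (Fin m) R)),
    φ.IsHomogeneous 2 → LinZ φ

def M_ULZ : Prop := S_ULC → S_ULS → S_ULZ

/-- **UGM** (the matrix of second derivatives after a linear substitution).
Proof.  Both sides are additive in `φ` and compatible with multiplication by `C c`, so take
`φ = X a * X b` (`MvPolynomial.as_sum`, monomials of degree two); or chain rule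
`pderiv j (lsub P φ) = ∑ i, C (P i j) * lsub P (pderiv i φ)` twice, `coeff 0 (lsub P ψ) = coeff 0 ψ`
(`lsub P` maps the variables to forms of degree one). -/
def S_UGM : Prop :=
  ∀ (B : Type) [CommRing B] (n : ℕ) (φ : MvPolynomial (Fin n) B) (P : Matrix (Fin n) (Fin n) B),
    φ.IsHomogeneous 2 → lgram (lsub P φ) = P.transpose * lgram φ * P

/-- **UDT** (the discriminant).
Proof.  Induction on `s`, for `φ` with determinant not zero in `n` variables: `lgram (hyp φ (s + 1))`
is (after `Fin.castOrderIso`) the block matrix with the blocks `lgram (hyp φ s)` and `!![0, 1; 1, 0]`,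
so the determinant is multiplied by `-1`.  Or directly: `lgram (hyp φ s)` is the block diagonal matrix
`fromBlocks (lgram φ) 0 0 J` on `Fin n ⊕ Fin (2 * s)`, and `J * J = 1`, so `det J` is a unit
(`Matrix.det_fromBlocks_zero₂₁`).  For `n = 1`, `φ = g x_0 ^ 2`: `lgram φ = (2 g)`. -/
def S_UDT : Prop :=
  ∀ (B : Type) [CommRing B] [IsDomain B] (g : B) (s : ℕ), (2 : B) ≠ 0 → g ≠ 0 →
    (lgram (hyp (MvPolynomial.C g * MvPolynomial.X 0 ^ 2 : MvPolynomial (Fin 1) B) s)).det ≠ 0

/-- **USB** (an invertible linear substitution induces an isomorphism of the quotients).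
Proof.  `lsub P` is an automorphism with inverse `lsub P⁻¹` (`lsub P (lsub Q φ) = lsub (Q * P) φ`, check
on the variables); `Ideal.quotientEquivAlg` for the ideals generated by `ψ` and by `lsub P ψ`,
restricted to `k`. -/
def S_USB : Prop :=
  ∀ (k B : Type) [Field k] [CommRing B] [Algebra k B] (n : ℕ) (ψ : MvPolynomial (Fin n) B)
    (P : Matrix (Fin n) (Fin n) B), IsUnit P.det →
    Nonempty ((MvPolynomial (Fin n) B ⧸ Ideal.span (Set.range fun _ : Fin 1 => lsub P ψ)) ≃ₐ[k]
      (MvPolynomial (Fin n) B ⧸ Ideal.span (Set.range fun _ : Fin 1 => ψ)))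

/-- **UHA** (commutative algebra: an integral domain is birational to a hypersurface).
Proof.  `K = FractionRing A` is a finitely generated extension of the perfect field `k`, so there is a
separating transcendence basis (`exists_isTranscendenceBasis_and_isSeparable_of_perfectField`, or
`Mathlib/FieldTheory/SeparablyGenerated.lean`), of cardinality `trdeg k A = r`, and a primitive element
`α` (`Field.exists_primitive_element`).  So `K` is the fraction field of the subring
`k[t_1, ..., t_r, α]`, where the `t_i` are algebraically independent; multiplying by denominators one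
may assume `t_i, α ∈ A`... (the `t_i` are quotients `a_i / s` of elements of `A`; use the localisation
`A_s` in place of `A`).  The kernel of `MvPolynomial (Fin (r + 1)) k → A_s`, `x_0 ↦ α`, `x_(i+1) ↦ t_i`, is
a prime of height one (transcendence degree; `MvPolynomial` is a UFD), so generated by one element
`g`.  As `A` is of finite type over `k`, its generators are quotients with one denominator
`h ∈ k[x] / (g)`, so `(k[x] / (g))_h ≃ A_a` for some `a ≠ 0`. -/
def S_UHA : Prop :=
  ∀ (k A : Type) [Field k] [PerfectField k] [CommRing A] [IsDomain A] [Algebra k A]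
    [Algebra.FiniteType k A] (r : ℕ), Algebra.trdeg k A = r →
    ∃ (g : MvPolynomial (Fin (r + 1)) k) (a : A)
      (h : MvPolynomial (Fin (r + 1)) k ⧸ Ideal.span {g}), a ≠ 0 ∧
      Nonempty (Localization.Away h ≃ₐ[k] Localization.Away a)

end QCV


end

section

/-!
# QCV, module ULC: linearisation of forms, composition
-/

set_option autoImplicit false

namespace QCV

namespace ULC

open MvPolynomial

variable {B : Type} [CommRing B]

theorem lsub_X {n : ℕ} (P : Matrix (Fin n) (Fin n) B) (i : Fin n) :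
    lsub P (X i) = ∑ j, C (P i j) * X j := by
  simp [lsub]

theorem lsub_C {n : ℕ} (P : Matrix (Fin n) (Fin n) B) (b : B) : lsub P (C b) = C b := by
  have h : (C b : MvPolynomial (Fin n) B) = algebraMap B _ b := rfl
  rw [h, AlgHom.commutes]

/-- two substitutions -/
theorem lsub_lsub {n : ℕ} (P Q : Matrix (Fin n) (Fin n) B) (χ : MvPolynomial (Fin n) B) :
    lsub P (lsub Q χ) = lsub (Q * P) χ := by
  have h : (lsub P).comp (lsub Q) = lsub (Q * P) := by
    apply MvPolynomial.algHom_ext
    intro i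
    rw [AlgHom.comp_apply, lsub_X, map_sum, lsub_X]
    simp only [map_mul, lsub_C, lsub_X, Finset.mul_sum]
    rw [Finset.sum_comm]
    refine Finset.sum_congr rfl fun k _ => ?_
    rw [Matrix.mul_apply, map_sum, Finset.sum_mul]
    refine Finset.sum_congr rfl fun j _ => ?_
    rw [C_mul, mul_assoc]
  rw [← h, AlgHom.comp_apply]

/-- renaming of the variables -/
theorem lsub_rename {n n' : ℕ} (e : Fin n ≃ Fin n') (P : Matrix (Fin n) (Fin n) B)
    (χ : MvPolynomial (Fin n) B) :
    lsub (Matrix.reindex e e P) (rename e χ) = rename e (lsub P χ) := by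
  have h : (lsub (Matrix.reindex e e P)).comp (rename e) = (rename e).comp (lsub P) := by
    apply MvPolynomial.algHom_ext
    intro i
    rw [AlgHom.comp_apply, AlgHom.comp_apply, rename_X, lsub_X, lsub_X, map_sum]
    rw [← e.sum_comp]
    refine Finset.sum_congr rfl fun j _ => ?_
    simp
  have h2 := congrArg (fun g => g χ) h
  simpa only [AlgHom.comp_apply] using h2

theorem lgen_rename {R : Type} [CommRing R] {m n n' : ℕ} (e : Fin n ≃ Fin n')
    (f : Fin (m + 1) → MvPolynomial (Fin n) R) :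
    rename e (lgen f) = lgen fun j => rename e (f j) := by
  unfold lgen
  rw [map_add, map_sum, map_rename]
  congr 1
  refine Finset.sum_congr rfl fun j _ => ?_
  rw [map_mul, rename_C, map_rename]

/-- the block matrix -/
def blk {n k : ℕ} (Q : Matrix (Fin n) (Fin n) B) : Matrix (Fin (n + k)) (Fin (n + k)) B :=
  Matrix.reindex finSumFinEquiv finSumFinEquiv (Matrix.fromBlocks Q 0 0 1)

theorem blk_det {n k : ℕ} (Q : Matrix (Fin n) (Fin n) B) :
    (blk (k := k) Q).det = Q.det := by
  unfold blk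
  rw [Matrix.det_reindex_self, Matrix.det_fromBlocks_zero₂₁, Matrix.det_one, mul_one]

theorem blk_castAdd {n k : ℕ} (Q : Matrix (Fin n) (Fin n) B) (i : Fin n) :
    lsub (blk (k := k) Q) (X (Fin.castAdd k i)) = rename (Fin.castAdd k) (lsub Q (X i)) := by
  rw [lsub_X, lsub_X, map_sum, ← finSumFinEquiv.sum_comp, Fintype.sum_sum_type]
  have h1 : ∀ j : Fin k, C (blk (k := k) Q (Fin.castAdd k i) (finSumFinEquiv (Sum.inr j))) *
      (X (finSumFinEquiv (Sum.inr j)) : MvPolynomial (Fin (n + k)) B) = 0 := by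
    intro j
    simp [blk]
  have h2 : ∀ j : Fin n, C (blk (k := k) Q (Fin.castAdd k i) (finSumFinEquiv (Sum.inl j))) *
      (X (finSumFinEquiv (Sum.inl j)) : MvPolynomial (Fin (n + k)) B) =
      rename (Fin.castAdd k) (C (Q i j) * X j) := by
    intro j
    simp [blk]
  rw [Finset.sum_eq_zero fun j _ => h1 j, add_zero]
  exact Finset.sum_congr rfl fun j _ => h2 j

theorem blk_natAdd {n k : ℕ} (Q : Matrix (Fin n) (Fin n) B) (i : Fin k) :
    lsub (blk (k := k) Q) (X (Fin.natAdd n i)) = X (Fin.natAdd n i) := by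
  rw [lsub_X, ← finSumFinEquiv.sum_comp, Fintype.sum_sum_type]
  have h1 : ∀ j : Fin n, C (blk (k := k) Q (Fin.natAdd n i) (finSumFinEquiv (Sum.inl j))) *
      (X (finSumFinEquiv (Sum.inl j)) : MvPolynomial (Fin (n + k)) B) = 0 := by
    intro j
    simp [blk]
  have h2 : ∀ j : Fin k, C (blk (k := k) Q (Fin.natAdd n i) (finSumFinEquiv (Sum.inr j))) *
      (X (finSumFinEquiv (Sum.inr j)) : MvPolynomial (Fin (n + k)) B) =
      if j = i then X (Fin.natAdd n i) else 0 := by
    intro j
    by_cases h : j = i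
    · subst h
      simp [blk]
    · simp [blk, h, Ne.symm h]
  rw [Finset.sum_eq_zero fun j _ => h1 j, zero_add, Finset.sum_congr rfl fun j _ => h2 j,
    Finset.sum_ite_eq']
  simp

theorem blk_rename {n k : ℕ} (Q : Matrix (Fin n) (Fin n) B) (χ : MvPolynomial (Fin n) B) :
    lsub (blk (k := k) Q) (rename (Fin.castAdd k) χ) = rename (Fin.castAdd k) (lsub Q χ) := by
  have h : (lsub (blk (k := k) Q)).comp (rename (Fin.castAdd k)) =
      (rename (Fin.castAdd k)).comp (lsub Q) := by
    apply MvPolynomial.algHom_ext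
    intro i
    rw [AlgHom.comp_apply, AlgHom.comp_apply, rename_X, blk_castAdd]
  have h2 := congrArg (fun g => g χ) h
  simpa only [AlgHom.comp_apply] using h2

theorem blk_hyp {n s : ℕ} (Q : Matrix (Fin n) (Fin n) B) (χ : MvPolynomial (Fin n) B) :
    lsub (blk (k := 2 * s) Q) (hyp χ s) = hyp (lsub Q χ) s := by
  unfold hyp
  rw [map_add, blk_rename, map_sum]
  congr 1
  refine Finset.sum_congr rfl fun i _ => ?_
  have e1 : (⟨n + 2 * i.1, by omega⟩ : Fin (n + 2 * s)) =
      Fin.natAdd n (⟨2 * i.1, by omega⟩ : Fin (2 * s)) := rfl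
  have e2 : (⟨n + 2 * i.1 + 1, by omega⟩ : Fin (n + 2 * s)) =
      Fin.natAdd n (⟨2 * i.1 + 1, by omega⟩ : Fin (2 * s)) := rfl
  rw [map_mul, e1, e2, blk_natAdd, blk_natAdd]

theorem hyp_succ {n : ℕ} (φ : MvPolynomial (Fin n) B) (s : ℕ)
    (h : n + 2 * 1 + 2 * s = n + 2 * (s + 1)) :
    rename (finCongr h) (hyp (hyp φ 1) s) = hyp φ (s + 1) := by
  unfold hyp
  rw [Fin.sum_univ_succ (n := s), Fin.sum_univ_one]
  simp only [map_add, map_mul, map_sum, rename_rename, rename_X]
  rw [add_assoc]
  congr 1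
  congr 1
  refine Finset.sum_congr rfl fun i _ => ?_
  congr 2
  · apply Fin.ext
    simp only [finCongr_apply, Fin.val_cast, Fin.val_succ]
    ring
  · apply Fin.ext
    simp only [finCongr_apply, Fin.val_cast, Fin.val_succ]
    ring

end ULC

open _root_.QCV.ULC

theorem t_ULC : S_ULC := by
  intro R _ m n φ ψ Q hQ hφ hψ
  obtain ⟨s, f, P, hf, hP, h⟩ := hψ
  have hN : n + 2 * 1 + 2 * s = n + 2 * (s + 1) := by ring
  refine ⟨s + 1, fun j => MvPolynomial.rename (finCongr hN) (f j),
    Matrix.reindex (finCongr hN) (finCongr hN) (blk (k := 2 * s) Q * P), ?_, ?_, ?_⟩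
  · intro j
    exact (hf j).rename_isHomogeneous
  · rw [Matrix.det_reindex_self, Matrix.det_mul, blk_det]
    exact hQ.mul hP
  · rw [← hyp_succ φ s hN, lsub_rename, ← lsub_lsub, blk_hyp, hφ, h, lgen_rename]

end QCV


end

section

/-!
# QCV_UGM: the matrix of second derivatives after a linear substitution
-/

set_option autoImplicit false

namespace QCV

namespace UGM

open MvPolynomial

variable {B : Type} [CommRing B] {n : ℕ}

/-- The chain rule. -/
lemma chain (P : Matrix (Fin n) (Fin n) B) (φ : MvPolynomial (Fin n) B) (j : Fin n) :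
    pderiv j (lsub P φ) = ∑ i, C (P i j) * lsub P (pderiv i φ) := by
  induction φ using MvPolynomial.induction_on with
  | C a =>
    have h : lsub P (C a) = C a := by
      unfold lsub
      rw [MvPolynomial.aeval_C]
      rfl
    rw [h]
    simp
  | add p q hp hq =>
    rw [map_add, map_add, hp, hq, ← Finset.sum_add_distrib]
    refine Finset.sum_congr rfl fun i _ => ?_
    rw [map_add, map_add, mul_add]
  | mul_X p k hp =>
    have h : lsub P (X k) = ∑ l, C (P k l) * X l := by
      unfold lsub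
      rw [MvPolynomial.aeval_X]
    have h2 : pderiv j (lsub P (X k)) = C (P k j) := by
      rw [h, map_sum]
      rw [Finset.sum_eq_single j]
      · simp
      · intro l _ hl
        rw [Derivation.leibniz, pderiv_X_of_ne hl, pderiv_C]
        simp
      · simp
    rw [map_mul, Derivation.leibniz, hp, h2]
    have h3 : ∀ i, C (P i j) * lsub P (pderiv i (p * X k)) =
        (lsub P (X k) * (C (P i j) * lsub P (pderiv i p))) +
          (if i = k then lsub P p * C (P k j) else 0) := by
      intro i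
      rw [Derivation.leibniz, smul_eq_mul, smul_eq_mul, map_add, map_mul, map_mul]
      split_ifs with hik
      · subst hik
        rw [pderiv_X_self, map_one]
        ring
      · rw [pderiv_X_of_ne (Ne.symm hik), map_zero]
        ring
    rw [Finset.sum_congr rfl fun i _ => h3 i, Finset.sum_add_distrib, ← Finset.mul_sum,
      Finset.sum_ite_eq' Finset.univ k, if_pos (Finset.mem_univ k), smul_eq_mul, smul_eq_mul]
    ring

/-- The constant coefficient does not change. -/
lemma coeff_zero_lsub (P : Matrix (Fin n) (Fin n) B) (ψ : MvPolynomial (Fin n) B) :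
    coeff 0 (lsub P ψ) = coeff 0 ψ := by
  change constantCoeff (lsub P ψ) = constantCoeff ψ
  induction ψ using MvPolynomial.induction_on with
  | C a =>
    have h : lsub P (C a) = C a := by
      unfold lsub
      rw [MvPolynomial.aeval_C]
      rfl
    rw [h]
  | add p q hp hq => rw [map_add, map_add, map_add, hp, hq]
  | mul_X p k hp =>
    have h : lsub P (X k) = ∑ l, C (P k l) * X l := by
      unfold lsub
      rw [MvPolynomial.aeval_X]
    rw [map_mul, map_mul, map_mul, h, map_sum]
    simp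

end UGM

open MvPolynomial _root_.QCV.UGM in
/-- QCV_UGM. -/
theorem t_UGM : S_UGM := by
  intro B _ n φ P _
  ext a b
  have h1 : lgram (lsub P φ) a b =
      ∑ i, ∑ k, P i b * (P k a * lgram φ k i) := by
    unfold lgram
    rw [chain, map_sum, coeff_sum]
    refine Finset.sum_congr rfl fun i _ => ?_
    rw [Derivation.leibniz, pderiv_C, smul_zero, add_zero, smul_eq_mul, coeff_C_mul, chain,
      coeff_sum, Finset.mul_sum]
    refine Finset.sum_congr rfl fun k _ => ?_
    rw [coeff_C_mul, coeff_zero_lsub]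
  rw [h1, Matrix.mul_apply]
  refine Finset.sum_congr rfl fun i _ => ?_
  rw [Matrix.mul_apply, Finset.sum_mul]
  refine Finset.sum_congr rfl fun k _ => ?_
  rw [Matrix.transpose_apply]
  ring

end QCV


end

section

/-!
# QCV, module USB: an invertible linear substitution induces an isomorphism of the quotients
-/

set_option autoImplicit false

namespace QCV

namespace USB

theorem lsub_X {B : Type} [CommRing B] {n : ℕ} (P : Matrix (Fin n) (Fin n) B) (i : Fin n) :
    lsub P (MvPolynomial.X i) = ∑ j, MvPolynomial.C (P i j) * MvPolynomial.X j := by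
  unfold lsub
  rw [MvPolynomial.aeval_X]

theorem lsub_C {B : Type} [CommRing B] {n : ℕ} (P : Matrix (Fin n) (Fin n) B) (b : B) :
    lsub P (MvPolynomial.C b) = MvPolynomial.C b := by
  unfold lsub
  rw [MvPolynomial.aeval_C]
  rfl

/-- Composition of two linear substitutions. -/
theorem lsub_comp {B : Type} [CommRing B] {n : ℕ} (P Q : Matrix (Fin n) (Fin n) B) :
    (lsub P).comp (lsub Q) = lsub (Q * P) := by
  apply MvPolynomial.algHom_ext
  intro i
  rw [AlgHom.comp_apply, lsub_X, lsub_X, map_sum]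
  simp only [map_mul, lsub_C, lsub_X, Finset.mul_sum]
  rw [Finset.sum_comm]
  apply Finset.sum_congr rfl
  intro l _
  rw [Matrix.mul_apply, map_sum, Finset.sum_mul]
  apply Finset.sum_congr rfl
  intro j _
  rw [map_mul, mul_assoc]

theorem lsub_one {B : Type} [CommRing B] {n : ℕ} :
    lsub (1 : Matrix (Fin n) (Fin n) B) = AlgHom.id B _ := by
  apply MvPolynomial.algHom_ext
  intro i
  rw [lsub_X, Finset.sum_eq_single i]
  · simp
  · intro j _ hj
    rw [Matrix.one_apply_ne (Ne.symm hj)]
    simp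
  · intro h
    exact absurd (Finset.mem_univ i) h

end USB

open _root_.QCV.USB in
theorem t_USB : S_USB := by
  intro k B _ _ _ n ψ P hP
  have h1 : (lsub P⁻¹).comp (lsub P) = AlgHom.id B _ := by
    rw [lsub_comp, Matrix.mul_nonsing_inv P hP, lsub_one]
  have h2 : (lsub P).comp (lsub P⁻¹) = AlgHom.id B _ := by
    rw [lsub_comp, Matrix.nonsing_inv_mul P hP, lsub_one]
  let e : MvPolynomial (Fin n) B ≃ₐ[B] MvPolynomial (Fin n) B :=
    AlgEquiv.ofAlgHom (lsub P⁻¹) (lsub P) h1 h2
  have he : e (lsub P ψ) = ψ := by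
    have := congrArg (fun f => f ψ) h1
    exact this
  refine ⟨Ideal.quotientEquivAlg _ _ (e.restrictScalars k) ?_⟩
  rw [Ideal.map_span]
  congr 1
  ext x
  constructor
  · rintro ⟨_, rfl⟩
    exact ⟨lsub P ψ, ⟨0, rfl⟩, he⟩
  · rintro ⟨y, ⟨_, rfl⟩, hy⟩
    refine ⟨0, ?_⟩
    have : e (lsub P ψ) = x := hy
    rw [he] at this
    exact this

end QCV


end
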