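import Mathlib
import Pool.Agent.QVM.C11
import Pool.Agent.QVM.C12
import Pool.Agent.QVM.C21

/-! Parts: CUB.R_NORM, CUB2.G_GST, CUB2.H_PFC, QCV.R_SPR, QCV.D_DFC -/

section

/-!
# NORM: the length of `B₁ / x` is the order of the norm of `x`
-/

set_option autoImplicit false

open Polynomial

namespace CUB

namespace NORM

section Len

variable {B : Type} [CommRing B]

lemma len_comp {P Q R : Type} [AddCommGroup P] [AddCommGroup Q] [AddCommGroup R] [Module B P]
    [Module B Q] [Module B R] (f : P →ₗ[B] Q) (g : R →ₗ[B] P) (hf : Function.Injective f) :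
    Module.length B (Q ⧸ LinearMap.range (f ∘ₗ g)) =
      Module.length B (P ⧸ LinearMap.range g) + Module.length B (Q ⧸ LinearMap.range f) := by
  have h1 : LinearMap.range g ≤ (LinearMap.range (f ∘ₗ g)).comap f := by
    rintro _ ⟨r, rfl⟩
    exact ⟨r, rfl⟩
  have h2 : LinearMap.range (f ∘ₗ g) ≤ LinearMap.range f := by
    rintro _ ⟨r, rfl⟩
    exact ⟨g r, rfl⟩
  refine Module.length_eq_add_of_exact (Submodule.mapQ _ _ f h1) (Submodule.factor h2) ?_
    (Submodule.factor_surjective h2) ?_
  · rw [← LinearMap.ker_eq_bot, LinearMap.ker_eq_bot']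
    intro m
    obtain ⟨p, rfl⟩ := Submodule.mkQ_surjective _ m
    intro h
    rw [Submodule.mkQ_apply, Submodule.mapQ_apply, Submodule.Quotient.mk_eq_zero] at h
    obtain ⟨r, hr⟩ := h
    rw [Submodule.mkQ_apply, Submodule.Quotient.mk_eq_zero]
    exact ⟨r, hf hr⟩
  · intro m
    obtain ⟨q, rfl⟩ := Submodule.mkQ_surjective _ m
    constructor
    · intro h
      rw [Submodule.factor_mk, Submodule.mkQ_apply] at h
      have h3 := (Submodule.Quotient.mk_eq_zero _).1 h
      obtain ⟨p, hp⟩ := h3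
      exact ⟨Submodule.Quotient.mk p, by rw [Submodule.mapQ_apply, hp, Submodule.mkQ_apply]⟩
    · rintro ⟨n, hn⟩
      obtain ⟨p, rfl⟩ := Submodule.mkQ_surjective _ n
      rw [Submodule.mkQ_apply, Submodule.mapQ_apply] at hn
      rw [← hn]
      exact (Submodule.Quotient.mk_eq_zero _).2 ⟨p, rfl⟩

/-- the length of the cokernel of an endomorphism of an extension -/
lemma len_ext {P Q R : Type} [AddCommGroup P] [AddCommGroup Q] [AddCommGroup R] [Module B P]
    [Module B Q] [Module B R] (i : P →ₗ[B] Q) (p : Q →ₗ[B] R) (a : P →ₗ[B] P) (b : Q →ₗ[B] Q)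
    (c : R →ₗ[B] R) (hi : Function.Injective i) (hp : Function.Surjective p)
    (he : Function.Exact i p) (h1 : i ∘ₗ a = b ∘ₗ i) (h2 : p ∘ₗ b = c ∘ₗ p)
    (hc : Function.Injective c) :
    Module.length B (Q ⧸ LinearMap.range b) =
      Module.length B (P ⧸ LinearMap.range a) + Module.length B (R ⧸ LinearMap.range c) := by
  have h1' : ∀ x, i (a x) = b (i x) := fun x => LinearMap.congr_fun h1 x
  have h2' : ∀ x, p (b x) = c (p x) := fun x => LinearMap.congr_fun h2 x
  have k1 : LinearMap.range a ≤ (LinearMap.range b).comap i := by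
    rintro _ ⟨r, rfl⟩
    exact ⟨i r, (h1' r).symm⟩
  have k2 : LinearMap.range b ≤ (LinearMap.range c).comap p := by
    rintro _ ⟨r, rfl⟩
    exact ⟨p r, (h2' r).symm⟩
  refine Module.length_eq_add_of_exact (Submodule.mapQ _ _ i k1) (Submodule.mapQ _ _ p k2) ?_ ?_ ?_
  · rw [← LinearMap.ker_eq_bot, LinearMap.ker_eq_bot']
    intro m
    obtain ⟨x, rfl⟩ := Submodule.mkQ_surjective _ m
    intro h
    rw [Submodule.mkQ_apply, Submodule.mapQ_apply, Submodule.Quotient.mk_eq_zero] at h
    obtain ⟨y, hy⟩ := h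
    have h3 : c (p y) = 0 := by
      rw [← h2', hy]
      exact (he (i x)).2 ⟨x, rfl⟩
    have h4 : p y = 0 := hc (by rw [h3, map_zero])
    obtain ⟨z, hz⟩ := (he y).1 h4
    rw [Submodule.mkQ_apply, Submodule.Quotient.mk_eq_zero]
    refine ⟨z, hi ?_⟩
    rw [h1', hz, hy]
  · intro m
    obtain ⟨r, rfl⟩ := Submodule.mkQ_surjective _ m
    obtain ⟨q, rfl⟩ := hp r
    exact ⟨Submodule.Quotient.mk q, rfl⟩
  · intro m
    obtain ⟨q, rfl⟩ := Submodule.mkQ_surjective _ m
    constructor
    · intro h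
      rw [Submodule.mkQ_apply, Submodule.mapQ_apply, Submodule.Quotient.mk_eq_zero] at h
      obtain ⟨r, hr⟩ := h
      obtain ⟨q', rfl⟩ := hp r
      have h3 : p (q - b q') = 0 := by rw [map_sub, h2', hr, sub_self]
      obtain ⟨x, hx⟩ := (he _).1 h3
      refine ⟨Submodule.Quotient.mk x, ?_⟩
      rw [Submodule.mapQ_apply, Submodule.mkQ_apply, Submodule.Quotient.eq, hx]
      refine ⟨-q', ?_⟩
      rw [map_neg]
      abel
    · rintro ⟨n, hn⟩
      obtain ⟨x, rfl⟩ := Submodule.mkQ_surjective _ n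
      rw [Submodule.mkQ_apply, Submodule.mapQ_apply] at hn
      rw [← hn, Submodule.mapQ_apply, (he (i x)).2 ⟨x, rfl⟩]
      exact Submodule.Quotient.mk_zero _

lemma len_bij {P : Type} [AddCommGroup P] [Module B P] (f : P →ₗ[B] P)
    (hf : Function.Surjective f) : Module.length B (P ⧸ LinearMap.range f) = 0 := by
  rw [Module.length_eq_zero_iff, LinearMap.range_eq_top.2 hf]
  infer_instance

end Len

section Det

variable {B : Type} [CommRing B] [IsDomain B]

lemma inj_mv {n : ℕ} (A : Matrix (Fin n) (Fin n) B) (h : A.det ≠ 0) :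
    Function.Injective A.mulVecLin := by
  rw [← LinearMap.ker_eq_bot, LinearMap.ker_eq_bot']
  intro v hv
  rw [Matrix.mulVecLin_apply] at hv
  have h1 : A.adjugate.mulVec (A.mulVec v) = A.det • v := by
    rw [Matrix.mulVec_mulVec, Matrix.adjugate_mul, Matrix.smul_mulVec, Matrix.one_mulVec]
  rw [hv, Matrix.mulVec_zero] at h1
  exact (smul_eq_zero.1 h1.symm).resolve_left h

/-- the length of the cokernel of a matrix -/
noncomputable def ck {n : ℕ} (A : Matrix (Fin n) (Fin n) B) : ℕ∞ :=
  Module.length B ((Fin n → B) ⧸ LinearMap.range A.mulVecLin)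

lemma ck_mul {n : ℕ} (A C : Matrix (Fin n) (Fin n) B) (h : A.det ≠ 0) :
    ck (A * C) = ck C + ck A := by
  unfold ck
  rw [Matrix.mulVecLin_mul]
  exact len_comp _ _ (inj_mv A h)

lemma ck_unit {n : ℕ} (A C : Matrix (Fin n) (Fin n) B) (h : A * C = 1) : ck A = 0 := by
  unfold ck
  refine len_bij _ fun v => ⟨C.mulVec v, ?_⟩
  rw [Matrix.mulVecLin_apply, Matrix.mulVec_mulVec, h, Matrix.one_mulVec]

lemma len_mul (a : B) :
    Module.length B (B ⧸ LinearMap.range (LinearMap.mulLeft B a)) = Ring.ord B a := by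
  unfold Ring.ord
  have h : LinearMap.range (LinearMap.mulLeft B a) = Ideal.span {a} := by
    ext x
    rw [Ideal.mem_span_singleton']
    constructor
    · rintro ⟨y, rfl⟩
      exact ⟨y, mul_comm _ _⟩
    · rintro ⟨y, rfl⟩
      exact ⟨y, mul_comm _ _⟩
  rw [h]

/-- block triangular matrices -/
lemma ck_tri {n : ℕ} (M : Matrix (Fin (n + 1)) (Fin (n + 1)) B)
    (h0 : ∀ i : Fin n, M i.succ 0 = 0) (hd : (M.submatrix Fin.succ Fin.succ).det ≠ 0) :
    ck M = Ring.ord B (M 0 0) + ck (M.submatrix Fin.succ Fin.succ) := by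
  unfold ck
  rw [← len_mul]
  refine len_ext (LinearMap.single B (fun _ : Fin (n + 1) => B) 0)
    (LinearMap.funLeft B B Fin.succ) _ _ _ ?_ ?_ ?_ ?_ ?_ (inj_mv _ hd)
  · intro x y h
    have := congrFun h 0
    simpa using this
  · exact LinearMap.funLeft_surjective_of_injective _ _ _ (Fin.succ_injective n)
  · intro v
    constructor
    · intro h
      refine ⟨v 0, ?_⟩
      funext j
      refine Fin.cases ?_ (fun i => ?_) j
      · simp
      · have := congrFun h i
        simp only [LinearMap.funLeft_apply, Pi.zero_apply] at this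
        rw [this]
        simp
    · rintro ⟨b, rfl⟩
      funext i
      simp [LinearMap.funLeft_apply]
  · apply LinearMap.ext
    intro b
    refine _root_.funext fun j => ?_
    refine Fin.cases ?_ (fun i => ?_) j
    · simp [Matrix.mulVec, dotProduct, Fin.sum_univ_succ]
    · simp [Matrix.mulVec, dotProduct, Fin.sum_univ_succ, h0]
  · apply LinearMap.ext
    intro v
    funext i
    simp only [LinearMap.coe_comp, Function.comp_apply, LinearMap.funLeft_apply,
      Matrix.mulVecLin_apply, Matrix.mulVec, dotProduct, Matrix.submatrix_apply]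
    rw [Fin.sum_univ_succ, h0, zero_mul, zero_add]

lemma ck_zero (A : Matrix (Fin 0) (Fin 0) B) : ck A = 0 := by
  unfold ck
  exact len_bij _ fun v => ⟨v, Subsingleton.elim _ _⟩

lemma ord_neg (a : B) : Ring.ord B (-a) = Ring.ord B a := by
  unfold Ring.ord
  rw [Ideal.span_singleton_neg]

lemma ord_pow (a : B) (ha : a ≠ 0) (n : ℕ) : Ring.ord B (a ^ n) = n * Ring.ord B a := by
  induction n with
  | zero => simp
  | succ n ih =>
    rw [pow_succ, Ring.ord_mul B (mem_nonZeroDivisors_of_ne_zero ha), ih]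
    push_cast
    ring

/-- scalar matrices -/
lemma ck_smul (n : ℕ) (a : B) (ha : a ≠ 0) :
    ck (a • (1 : Matrix (Fin n) (Fin n) B)) = n * Ring.ord B a := by
  induction n with
  | zero => simp [ck_zero]
  | succ n ih =>
    have h1 : (a • (1 : Matrix (Fin (n + 1)) (Fin (n + 1)) B)).submatrix Fin.succ Fin.succ =
        a • (1 : Matrix (Fin n) (Fin n) B) := by
      ext i j
      simp [Matrix.one_apply, Fin.succ_inj]
    rw [ck_tri, h1, ih]
    · simp
      ring
    · intro i
      simp [Fin.succ_ne_zero]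
    · rw [h1, Matrix.det_smul, Matrix.det_one, mul_one]
      exact pow_ne_zero _ ha

/-- the matrix `diag (1, a, .., a)` -/
def dg (n : ℕ) (a : B) : Matrix (Fin (n + 1)) (Fin (n + 1)) B :=
  Matrix.diagonal (Fin.cons 1 fun _ => a)

/-- the elementary matrix `1 + c e_0` -/
def un {n : ℕ} (c : Fin n → B) : Matrix (Fin (n + 1)) (Fin (n + 1)) B :=
  Matrix.of fun i j => if i = j then 1 else if j = 0 then (Fin.cons 0 c : Fin (n + 1) → B) i else 0

lemma un_det {n : ℕ} (c : Fin n → B) : (un c).det = 1 := by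
  rw [Matrix.det_of_isLowerTriangular]
  · simp [un]
  · intro i j hij
    have h1 : i < j := hij
    have h2 : i ≠ j := h1.ne
    have h3 : j ≠ 0 := fun h => by
      rw [h] at h1
      exact absurd h1 (Fin.not_lt_zero _)
    simp [un, h2, h3]

lemma dg_det (n : ℕ) (a : B) : (dg n a).det = a ^ n := by
  rw [dg, Matrix.det_diagonal, Fin.prod_univ_succ]
  simp

lemma ck_det {n : ℕ} (hfin : ∀ x : B, x ≠ 0 → Ring.ord B x ≠ ⊤) :
    ∀ A : Matrix (Fin n) (Fin n) B, A.det ≠ 0 → ck A = Ring.ord B A.det := by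
  induction n with
  | zero =>
    intro A _
    rw [ck_zero, Matrix.det_fin_zero, Ring.ord_one]
  | succ n ih =>
    -- the case of a nonzero corner
    have key : ∀ A : Matrix (Fin (n + 1)) (Fin (n + 1)) B, A 0 0 ≠ 0 → A.det ≠ 0 →
        ck A = Ring.ord B A.det := by
      intro A ha hA
      set a := A 0 0 with haa
      let E : Matrix (Fin (n + 1)) (Fin (n + 1)) B := un (fun i => -A i.succ 0) * dg n a
      have hE : ∀ i j, E i j = un (fun i => -A i.succ 0) i j * (Fin.cons 1 fun _ => a : Fin (n + 1) → B) j := by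
        intro i j
        simp only [E, dg, Matrix.mul_diagonal]
      have hEd : E.det = a ^ n := by
        rw [Matrix.det_mul, un_det, dg_det, one_mul]
      have hE0 : E.det ≠ 0 := by
        rw [hEd]
        exact pow_ne_zero _ ha
      have hckE : ck E = n * Ring.ord B a := by
        have h1 : ck (un (fun i => -A i.succ 0)) = 0 := by
          refine ck_unit _ (Matrix.adjugate (un (fun i => -A i.succ 0))) ?_
          rw [Matrix.mul_adjugate, un_det, one_smul]
        have h2 : (dg n a).submatrix Fin.succ Fin.succ = a • (1 : Matrix (Fin n) (Fin n) B) := by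
          ext i j
          by_cases hij : i = j
          · subst hij
            simp [dg]
          · have : i.succ ≠ j.succ := fun h => hij (Fin.succ_injective n h)
            simp [dg, hij]
        rw [ck_mul _ _ (by rw [un_det]; exact one_ne_zero), h1, add_zero, ck_tri, h2, ck_smul n a ha]
        · have : dg n a 0 0 = 1 := by simp [dg]
          rw [this, Ring.ord_one, zero_add]
        · intro i
          simp [dg, Fin.succ_ne_zero]
        · rw [h2, Matrix.det_smul, Matrix.det_one, mul_one]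
          exact pow_ne_zero _ ha
      have h00 : (E * A) 0 0 = a := by
        rw [Matrix.mul_apply, Fin.sum_univ_succ]
        have h1 : ∀ j : Fin n, E 0 j.succ = 0 := by
          intro j
          rw [hE]
          simp [un, (Fin.succ_ne_zero j).symm, Fin.succ_ne_zero j]
        simp only [h1, zero_mul, Finset.sum_const_zero, add_zero]
        rw [hE]
        simp [un, ← haa]
      have hs0 : ∀ i : Fin n, (E * A) i.succ 0 = 0 := by
        intro i
        rw [Matrix.mul_apply, Fin.sum_univ_succ]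
        have h1 : E i.succ 0 = -A i.succ 0 := by
          rw [hE]
          simp [un, Fin.succ_ne_zero i]
        have h2 : ∀ j : Fin n, E i.succ j.succ = if i = j then a else 0 := by
          intro j
          rw [hE]
          simp [un, Fin.succ_ne_zero j]
        simp only [h1, h2, ite_mul, zero_mul, Finset.sum_ite_eq, Finset.mem_univ, if_true]
        rw [← haa]
        ring
      have hdet : (E * A).det = a * ((E * A).submatrix Fin.succ Fin.succ).det := by
        rw [Matrix.det_succ_column_zero, Fin.sum_univ_succ]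
        simp only [hs0, mul_zero, zero_mul, Finset.sum_const_zero, add_zero]
        rw [h00]
        simp
      have hd1 : (E * A).det = a ^ n * A.det := by
        rw [Matrix.det_mul, hEd]
      have hne : ((E * A).submatrix Fin.succ Fin.succ).det ≠ 0 := by
        intro h
        rw [h, mul_zero] at hdet
        rw [hdet] at hd1
        exact mul_ne_zero (pow_ne_zero _ ha) hA hd1.symm
      have h3 := ck_mul E A hE0
      rw [ck_tri _ hs0 hne, h00, ih _ hne, hckE] at h3
      have h4 : Ring.ord B a + Ring.ord B ((E * A).submatrix Fin.succ Fin.succ).det =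
          n * Ring.ord B a + Ring.ord B A.det := by
        rw [← Ring.ord_mul B (mem_nonZeroDivisors_of_ne_zero hne), ← hdet, hd1,
          Ring.ord_mul B (mem_nonZeroDivisors_of_ne_zero hA), ord_pow a ha]
      rw [h4] at h3
      have h5 : (n : ℕ∞) * Ring.ord B a ≠ ⊤ := by
        rw [← ord_pow a ha]
        exact hfin _ (pow_ne_zero _ ha)
      rw [add_comm] at h3
      exact (ENat.add_left_injective_of_ne_top h5 h3).symm
    intro A hA
    by_cases ha : A 0 0 = 0
    · have : ∃ i, A i 0 ≠ 0 := by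
        by_contra hno
        push Not at hno
        exact hA (Matrix.det_eq_zero_of_column_eq_zero 0 hno)
      obtain ⟨i, hi⟩ := this
      have h0i : (0 : Fin (n + 1)) ≠ i := fun h => hi (h ▸ ha)
      have h1 : (Matrix.transvection 0 i (1 : B) * A) 0 0 ≠ 0 := by
        rw [Matrix.transvection_mul_apply_same, ha, zero_add, one_mul]
        exact hi
      have h2 : (Matrix.transvection 0 i (1 : B) * A).det = A.det := by
        rw [Matrix.det_mul, Matrix.det_transvection_of_ne _ _ h0i, one_mul]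
      have h3 := key _ h1 (by rw [h2]; exact hA)
      rw [h2, ck_mul _ _ (by rw [Matrix.det_transvection_of_ne _ _ h0i]; exact one_ne_zero)] at h3
      have h4 : ck (Matrix.transvection 0 i (1 : B)) = 0 := by
        refine ck_unit _ (Matrix.transvection 0 i (-1 : B)) ?_
        rw [Matrix.transvection_mul_transvection_same _ _ h0i, add_neg_cancel,
          Matrix.transvection_zero]
      rw [h4, add_zero] at h3
      exact h3
    · exact key A ha hA

end Det

section Main

/-- the length of the cokernel of the multiplication by `x` -/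
noncomputable def ml (B : Type) {B₁ : Type} [CommRing B] [CommRing B₁] [Algebra B B₁] (x : B₁) :
    ℕ∞ := Module.length B (B₁ ⧸ LinearMap.range (LinearMap.mulLeft B x))

lemma ml_eq {B B₁ : Type} [CommRing B] [CommRing B₁] [Algebra B B₁] (x : B₁) :
    Module.length B (B₁ ⧸ Ideal.span {x}) = ml B x := by
  unfold ml
  have h : LinearMap.range (LinearMap.mulLeft B x) = (Ideal.span {x}).restrictScalars B := by
    ext y
    rw [Submodule.restrictScalars_mem, Ideal.mem_span_singleton']
    constructor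
    · rintro ⟨z, rfl⟩
      exact ⟨z, mul_comm _ _⟩
    · rintro ⟨z, rfl⟩
      exact ⟨z, mul_comm _ _⟩
  rw [h]
  exact (Submodule.Quotient.restrictScalarsEquiv B (Ideal.span {x})).length_eq.symm

lemma mulLeft_inj {B B₁ : Type} [CommRing B] [CommRing B₁] [IsDomain B₁] [Algebra B B₁] {x : B₁}
    (hx : x ≠ 0) : Function.Injective (LinearMap.mulLeft B x) := by
  intro y z h
  exact mul_left_cancel₀ hx h

/-- a basis of `L` over `F` with elements in `B₁` -/
lemma exists_basis (B B₁ F L : Type) [CommRing B] [IsDomain B]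
    [CommRing B₁] [IsDomain B₁] [Field F] [Field L] [Algebra B B₁] [Algebra B F] [Algebra B L]
    [Algebra B₁ L] [Algebra F L] [IsScalarTower B B₁ L] [IsScalarTower B F L]
    [IsFractionRing B F] [IsFractionRing B₁ L] [Module.Finite B B₁] [Module.Finite F L] :
    ∃ (e : Fin (Module.finrank F L) → B₁)
    (b : Module.Basis (Fin (Module.finrank F L)) F L), ∀ i, algebraMap B₁ L (e i) = b i := by
  classical
  let b0 := Module.finBasis F L
  have h : ∀ i, ∃ (e : B₁) (d : B), d ≠ 0 ∧ algebraMap B₁ L e = algebraMap B F d • b0 i := by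
    intro i
    obtain ⟨s, t, ht, hst⟩ := IsFractionRing.div_surjective (A := B₁) (b0 i)
    have ht1 : IsAlgebraic B t := (Algebra.IsIntegral.isIntegral t).isAlgebraic
    obtain ⟨c, d, hd, hc⟩ := IsAlgebraic.exists_smul_eq_mul s ht1 ht
    refine ⟨c, d, hd, ?_⟩
    have ht0 : algebraMap B₁ L t ≠ 0 := by
      intro h0
      exact nonZeroDivisors.ne_zero ht ((IsFractionRing.injective B₁ L) (by rw [h0, map_zero]))
    rw [← hst, Algebra.smul_def, ← IsScalarTower.algebraMap_apply B F L,
      IsScalarTower.algebraMap_apply B B₁ L]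
    rw [← mul_div_assoc, eq_div_iff ht0, ← map_mul, ← map_mul, mul_comm c t, ← hc,
      Algebra.smul_def]
  choose e d hd he using h
  have hu : ∀ i, IsUnit (algebraMap B F (d i)) := fun i => by
    rw [isUnit_iff_ne_zero]
    intro h0
    exact hd i ((IsFractionRing.injective B F) (by rw [h0, map_zero]))
  refine ⟨e, b0.isUnitSMul hu, fun i => ?_⟩
  rw [Module.Basis.isUnitSMul_apply, he]

lemma map_lc {B B₁ F L : Type} [CommRing B]
    [CommRing B₁] [Field F] [Field L] [Algebra B B₁] [Algebra B F] [Algebra B L]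
    [Algebra B₁ L] [Algebra F L] [IsScalarTower B B₁ L] [IsScalarTower B F L]
    {n : ℕ} (e : Fin n → B₁) (b : Module.Basis (Fin n) F L)
    (he : ∀ i, algebraMap B₁ L (e i) = b i) (v : Fin n → B) :
    algebraMap B₁ L (Fintype.linearCombination B e v) =
      b.equivFun.symm (fun i => algebraMap B F (v i)) := by
  rw [Fintype.linearCombination_apply, Module.Basis.equivFun_symm_apply, map_sum]
  refine Finset.sum_congr rfl fun i _ => ?_
  rw [Algebra.smul_def, map_mul, he, ← IsScalarTower.algebraMap_apply B B₁ L, Algebra.smul_def,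
    ← IsScalarTower.algebraMap_apply B F L]

lemma lc_inj {B B₁ F L : Type} [CommRing B] [IsDomain B]
    [CommRing B₁] [Field F] [Field L] [Algebra B B₁] [Algebra B F] [Algebra B L]
    [Algebra B₁ L] [Algebra F L] [IsScalarTower B B₁ L] [IsScalarTower B F L]
    [IsFractionRing B F]
    {n : ℕ} (e : Fin n → B₁) (b : Module.Basis (Fin n) F L)
    (he : ∀ i, algebraMap B₁ L (e i) = b i) :
    Function.Injective (Fintype.linearCombination B e) := by
  intro v w h
  have h1 := congrArg (algebraMap B₁ L) h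
  rw [map_lc e b he, map_lc e b he] at h1
  have h2 := b.equivFun.symm.injective h1
  funext i
  exact (IsFractionRing.injective B F) (congrFun h2 i)

/-- the lattice generated by the basis has finite index -/
lemma lc_fin {B B₁ F L : Type} [CommRing B] [IsDomain B]
    [CommRing B₁] [IsDomain B₁] [Field F] [Field L] [Algebra B B₁] [Algebra B F] [Algebra B L]
    [Algebra B₁ L] [Algebra F L] [IsScalarTower B B₁ L] [IsScalarTower B F L]
    [IsFractionRing B F] [IsFractionRing B₁ L] [Module.Finite B B₁]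
    (hfin : ∀ x : B, x ≠ 0 → Ring.ord B x ≠ ⊤)
    {n : ℕ} (e : Fin n → B₁) (b : Module.Basis (Fin n) F L)
    (he : ∀ i, algebraMap B₁ L (e i) = b i) :
    Module.length B (B₁ ⧸ LinearMap.range (Fintype.linearCombination B e)) ≠ ⊤ := by
  have h1 : ∀ y : B₁, ∃ d : B, d ≠ 0 ∧ d • y ∈ LinearMap.range (Fintype.linearCombination B e) := by
    intro y
    obtain ⟨c, hc⟩ := IsLocalization.exist_integer_multiples_of_finite (nonZeroDivisors B)
      (fun i => b.equivFun (algebraMap B₁ L y) i)
    choose a ha using hc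
    refine ⟨c, nonZeroDivisors.coe_ne_zero c, a, ?_⟩
    apply IsFractionRing.injective B₁ L
    rw [map_lc e b he]
    have h2 : (fun i => algebraMap B F (a i)) =
        algebraMap B F (c : B) • b.equivFun (algebraMap B₁ L y) := by
      funext i
      rw [ha i, Pi.smul_apply, Algebra.smul_def, smul_eq_mul]
    rw [h2, map_smul, LinearEquiv.symm_apply_apply, Algebra.smul_def, Algebra.smul_def, map_mul,
      ← IsScalarTower.algebraMap_apply B F L, ← IsScalarTower.algebraMap_apply B B₁ L]
  obtain ⟨m, s, hs⟩ := Module.Finite.exists_fin (R := B) (M := B₁)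
  choose d hd hd2 using fun k => h1 (s k)
  set D := ∏ k, d k with hD
  have hD0 : D ≠ 0 := Finset.prod_ne_zero_iff.2 fun k _ => hd k
  have h3 : ∀ k, D • s k ∈ LinearMap.range (Fintype.linearCombination B e) := by
    intro k
    obtain ⟨q, hq⟩ := Finset.dvd_prod_of_mem d (Finset.mem_univ k)
    rw [hD, hq, mul_comm, mul_smul]
    exact Submodule.smul_mem _ _ (hd2 k)
  have h4 : LinearMap.range (D • (1 : Matrix (Fin m) (Fin m) B)).mulVecLin ≤
      (LinearMap.range (Fintype.linearCombination B e)).comap (Fintype.linearCombination B s) := by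
    rintro _ ⟨v, rfl⟩
    rw [Submodule.mem_comap, Matrix.mulVecLin_apply, Matrix.smul_mulVec, Matrix.one_mulVec,
      map_smul, Fintype.linearCombination_apply, Finset.smul_sum]
    refine Submodule.sum_mem _ fun k _ => ?_
    rw [smul_comm]
    exact Submodule.smul_mem _ _ (h3 k)
  have h5 : Function.Surjective (Submodule.mapQ _ _ (Fintype.linearCombination B s) h4) := by
    intro y
    obtain ⟨z, rfl⟩ := Submodule.mkQ_surjective _ y
    have h6 : z ∈ Submodule.span B (Set.range s) := by
      rw [hs]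
      trivial
    rw [← Fintype.range_linearCombination] at h6
    obtain ⟨v, hv⟩ := h6
    exact ⟨Submodule.Quotient.mk v, by rw [Submodule.mapQ_apply, hv, Submodule.mkQ_apply]⟩
  have h7 := Module.length_le_of_surjective _ h5
  have h8 : Module.length B ((Fin m → B) ⧸ LinearMap.range
      (D • (1 : Matrix (Fin m) (Fin m) B)).mulVecLin) = m * Ring.ord B D := ck_smul m D hD0
  rw [h8, ← ord_pow D hD0] at h7
  exact ne_top_of_le_ne_top (hfin _ (pow_ne_zero _ hD0)) h7

/-- comparison of the lattices -/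
lemma ck_ml {B B₁ F L : Type} [CommRing B] [IsDomain B]
    [CommRing B₁] [IsDomain B₁] [Field F] [Field L] [Algebra B B₁] [Algebra B F] [Algebra B L]
    [Algebra B₁ L] [Algebra F L] [IsScalarTower B B₁ L] [IsScalarTower B F L]
    [IsFractionRing B F] [IsFractionRing B₁ L] [Module.Finite B B₁]
    (hfin : ∀ x : B, x ≠ 0 → Ring.ord B x ≠ ⊤)
    {n : ℕ} (e : Fin n → B₁) (b : Module.Basis (Fin n) F L)
    (he : ∀ i, algebraMap B₁ L (e i) = b i) (x : B₁) (hx : x ≠ 0) (A : Matrix (Fin n) (Fin n) B)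
    (hA : ∀ f : Fin n → B, algebraMap B₁ L x * b.equivFun.symm (fun i => algebraMap B F (f i)) =
      b.equivFun.symm (fun i => algebraMap B F (A.mulVec f i))) :
    ck A = ml B x := by
  have h1 := len_comp (LinearMap.mulLeft B x) (Fintype.linearCombination B e) (mulLeft_inj hx)
  have h2 := len_comp (Fintype.linearCombination B e) A.mulVecLin (lc_inj e b he)
  have h3 : LinearMap.mulLeft B x ∘ₗ Fintype.linearCombination B e =
      Fintype.linearCombination B e ∘ₗ A.mulVecLin := by
    apply LinearMap.ext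
    intro v
    apply IsFractionRing.injective B₁ L
    rw [LinearMap.comp_apply, LinearMap.comp_apply, LinearMap.mulLeft_apply, map_mul,
      map_lc e b he, map_lc e b he, hA, Matrix.mulVecLin_apply]
  rw [h3, h2, add_comm] at h1
  exact ENat.add_right_injective_of_ne_top (lc_fin hfin e b he) h1

end Main

end NORM

open _root_.CUB.NORM in
theorem t_NORM : S_NORM := by
  intro B B₁ F L _ _ _ _ _ _ _ _ _ _ _ _ _ _ _ _ _ _ hfin x b c hx hb hc hn
  have hfin' : ∀ x : B, x ≠ 0 → Ring.ord B x ≠ ⊤ := hfin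
  obtain ⟨n, e, bs, he⟩ : ∃ (n : ℕ) (e : Fin n → B₁) (bs : Module.Basis (Fin n) F L),
      ∀ i, algebraMap B₁ L (e i) = bs i := ⟨_, exists_basis B B₁ F L⟩
  set y := algebraMap B₁ L x with hy
  have hy0 : y ≠ 0 := by
    intro h0
    exact hx ((IsFractionRing.injective B₁ L) (by rw [map_zero]; exact h0))
  obtain ⟨c0, hc0⟩ := IsLocalization.exist_integer_multiples_of_finite (nonZeroDivisors B)
    (fun p : Fin n × Fin n => Algebra.leftMulMatrix bs y p.1 p.2)
  choose a ha using hc0
  have hc00 : (c0 : B) ≠ 0 := nonZeroDivisors.coe_ne_zero c0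
  let A : Matrix (Fin n) (Fin n) B := Matrix.of fun i j => a (i, j)
  have hAm : (algebraMap B F).mapMatrix A =
      algebraMap B F (c0 : B) • Algebra.leftMulMatrix bs y := by
    ext i j
    rw [RingHom.mapMatrix_apply, Matrix.map_apply, Matrix.smul_apply, smul_eq_mul]
    show algebraMap B F (a (i, j)) = _
    rw [ha (i, j), Algebra.smul_def]
  have hAdet : algebraMap B F A.det = algebraMap B F (c0 : B) ^ n * Algebra.norm F y := by
    rw [RingHom.map_det, hAm, Matrix.det_smul, Fintype.card_fin, Algebra.norm_eq_matrix_det bs]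
  have hinj := IsFractionRing.injective B F
  have hA1 : A.det * c = (c0 : B) ^ n * b := by
    apply hinj
    rw [map_mul, hAdet, mul_assoc, hn, map_mul, map_pow]
  have hA0 : A.det ≠ 0 := by
    intro h0
    rw [h0, zero_mul] at hA1
    exact mul_ne_zero (pow_ne_zero _ hc00) hb hA1.symm
  have hc0x : algebraMap B B₁ (c0 : B) ≠ 0 := by
    intro h0
    have h1 : algebraMap B L (c0 : B) = 0 := by
      rw [IsScalarTower.algebraMap_apply B B₁ L, h0, map_zero]
    rw [IsScalarTower.algebraMap_apply B F L] at h1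
    have h2 : algebraMap B F (c0 : B) = 0 := (algebraMap F L).injective (by rw [h1, map_zero])
    exact hc00 (hinj (by rw [h2, map_zero]))
  have e1 : ck A = ml B (algebraMap B B₁ (c0 : B) * x) := by
    refine ck_ml hfin' e bs he _ (mul_ne_zero hc0x hx) A fun f => ?_
    rw [map_mul, ← hy]
    have h1 : (fun i => algebraMap B F (A.mulVec f i)) =
        algebraMap B F (c0 : B) • (Algebra.leftMulMatrix bs y).mulVec
          (fun i => algebraMap B F (f i)) := by
      rw [← Matrix.smul_mulVec, ← hAm]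
      funext i
      rw [RingHom.map_mulVec]
      rfl
    have h2 := Algebra.leftMulMatrix_mulVec_repr bs y
      (bs.equivFun.symm fun i => algebraMap B F (f i))
    have h3 : (⇑(bs.repr (bs.equivFun.symm fun i => algebraMap B F (f i))) : Fin n → F) =
        fun i => algebraMap B F (f i) := by
      have := bs.equivFun.apply_symm_apply (fun i => algebraMap B F (f i))
      exact this
    rw [h3] at h2
    have h4 : bs.equivFun.symm ((Algebra.leftMulMatrix bs y).mulVec
        (fun i => algebraMap B F (f i))) =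
        y * bs.equivFun.symm (fun i => algebraMap B F (f i)) := by
      rw [LinearEquiv.symm_apply_eq, h2]
      rfl
    rw [h1, map_smul, h4, Algebra.smul_def, ← IsScalarTower.algebraMap_apply B F L,
      ← IsScalarTower.algebraMap_apply B B₁ L, mul_assoc]
  have e2 : ck ((c0 : B) • (1 : Matrix (Fin n) (Fin n) B)) = ml B (algebraMap B B₁ (c0 : B)) := by
    refine ck_ml hfin' e bs he _ hc0x _ fun f => ?_
    have h1 : (fun i => algebraMap B F (((c0 : B) • (1 : Matrix (Fin n) (Fin n) B)).mulVec f i)) =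
        algebraMap B F (c0 : B) • (fun i => algebraMap B F (f i)) := by
      funext i
      rw [Matrix.smul_mulVec, Matrix.one_mulVec, Pi.smul_apply, Pi.smul_apply, smul_eq_mul,
        smul_eq_mul, map_mul]
    rw [h1, map_smul, Algebra.smul_def, ← IsScalarTower.algebraMap_apply B F L,
      ← IsScalarTower.algebraMap_apply B B₁ L]
  have e3 : ml B (algebraMap B B₁ (c0 : B) * x) = ml B x + ml B (algebraMap B B₁ (c0 : B)) := by
    have h1 := len_comp (LinearMap.mulLeft B (algebraMap B B₁ (c0 : B))) (LinearMap.mulLeft B x)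
      (mulLeft_inj hc0x)
    rw [← LinearMap.mulLeft_mul] at h1
    exact h1
  rw [ck_smul n (c0 : B) hc00, ← ord_pow _ hc00] at e2
  rw [ck_det hfin' A hA0, e3, ← e2] at e1
  have e4 : Ring.ord B A.det + Ring.ord B c = Ring.ord B ((c0 : B) ^ n) + Ring.ord B b := by
    rw [← Ring.ord_mul B (mem_nonZeroDivisors_of_ne_zero hc), hA1,
      Ring.ord_mul B (mem_nonZeroDivisors_of_ne_zero hb)]
  rw [e1] at e4
  rw [ml_eq]
  have e5 : Ring.ord B ((c0 : B) ^ n) + (ml B x + Ring.ord B c) =
      Ring.ord B ((c0 : B) ^ n) + Ring.ord B b := by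
    rw [← e4]
    ring
  exact ENat.add_right_injective_of_ne_top (hfin' _ (pow_ne_zero _ hc00)) e5

end CUB


end

section

/-!
# CUB2, module GST: the step
-/

set_option autoImplicit false

open CategoryTheory AlgebraicGeometry Limits Polynomial TopologicalSpace

namespace CUB

open Pool.Agent.Lib_helper55.Beil Pool.Agent.Lib_helper66.OneP

namespace GST

variable {k : Type} [Field k]

/-- The dimension does not increase under a modification of an integral variety. -/
theorem dimLE_modif {X₁ X : Var k} [IsIntegral X₁.X] (M : Modif X₁ X) (u : M.U.X) (n : ℕ)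
    (h : X.DimLE n) : X₁.DimLE n := by
  have h1 : genericPoint X₁.X ∈ Set.range M.j'.g := by
    have hop : IsOpen (Set.range M.j'.g) := M.j'.g.isOpenEmbedding.isOpen_range
    exact ((genericPoint_spec X₁.X).mem_open_set_iff hop).2
      ⟨_, Set.mem_univ _, M.fU.e.inv u, rfl⟩
  obtain ⟨w, hw⟩ := h1
  intro x
  refine (dim_le_of_specializes X₁ (genericPoint_specializes x)).trans ?_
  rw [← hw, dim_map M.j'.g M.j'.comm, ← dim_map (X := M.U) M.fU.e.hom M.fU.comm w,
    ← dim_map M.j.g M.j.comm]
  exact h _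

/-- The pull-back of an extension of a function is an extension of the pull-back. -/
theorem extend {Y X₁ X : Scheme.{0}} (q : Y ⟶ X₁) (m : X₁ ⟶ X) {X₀ : Scheme.{0}} (f : X ⟶ X₀)
    (V : X₀.Opens) (h : Γ(X₀, V)) (O₁ : X₁.Opens) (g₁ : Γ(X₁, O₁)) (hO₁ : m ⁻¹ᵁ (f ⁻¹ᵁ V) ≤ O₁)
    (hg₁ : X₁.presheaf.map (homOfLE hO₁).op g₁ = m.app (f ⁻¹ᵁ V) (f.app V h))
    (hO : (q ≫ m ≫ f) ⁻¹ᵁ V ≤ q ⁻¹ᵁ O₁) :
    Y.presheaf.map (homOfLE hO).op (q.app O₁ g₁) = (q ≫ m ≫ f).app V h := by
  have h1 : q.app (m ⁻¹ᵁ (f ⁻¹ᵁ V)) (X₁.presheaf.map (homOfLE hO₁).op g₁) =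
      Y.presheaf.map (homOfLE hO).op (q.app O₁ g₁) := by
    have := q.naturality (homOfLE hO₁).op
    have h2 := congrArg (fun φ => φ.hom g₁) this
    exact h2
  rw [← h1, hg₁]
  rw [Scheme.Hom.comp_app, Scheme.Hom.comp_app]
  rfl

end GST

theorem t_GST : M_GST := by
  intro hPLI hPRO hSEC hAFY hGRA hLPT k _ X₀ X hX f hf V h hfX hne
  obtain ⟨H⟩ := hPLI k
  obtain ⟨x₀, hx₀⟩ := hne
  obtain ⟨X₁, hX₁, M, e, he, hr, g₁, hO₁, hg₁⟩ :=
    hGRA k H X hX (f ⁻¹ᵁ V) (f.app V h) ⟨x₀, hx₀⟩
  let p₁ : (X.prod H.P).X ⟶ X.X := pullback.fst X.f H.P.f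
  let p₂ : (X.prod H.P).X ⟶ H.P.X := pullback.snd X.f H.P.f
  have hp₂ : p₂ ≫ H.P.f = (X.prod H.P).f := pullback.condition.symm
  have he' : e.g ≫ p₁ = M.f.g := he
  have hψ : (e.g ≫ p₂) ≫ H.P.f = X₁.f := by
    rw [Category.assoc, hp₂]
    exact e.comm
  obtain ⟨σ, hσ1, hσ2⟩ := hSEC k X₁ H.P (e.g ≫ pullback.snd X.f H.P.f) hψ
  obtain ⟨B, hB⟩ := hPRO.1 k H X₁
  have hP : IsIntegral (X₁.prod H.P).X := hPRO.2.2 k H X₁ hX₁
  -- the open complement of the section
  have hcl : IsClosed (Set.range σ.g) := σ.g.isClosedEmbedding.isClosed_range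
  let O : (X₁.prod H.P).X.Opens := ⟨(Set.range σ.g)ᶜ, hcl.isOpen_compl⟩
  let Y : Var k := openVar (X₁.prod H.P) O
  let j : OpenIn Y (X₁.prod H.P) := openVarIn (X₁.prod H.P) O
  have hcomp : Complementary σ j := by
    unfold Complementary
    rw [range_openVarIn]
    exact (compl_compl _).symm
  obtain ⟨haff, hfun⟩ := hAFY k H X X₁ Y e σ j hσ1 hσ2 hcomp
  -- `Y` is integral
  have hσB : σ.g ≫ B.p.g = 𝟙 X₁.X := by rw [hB, hσ1]
  have hYne : Nonempty Y.X := by
    let x₁ : X₁.X := genericPoint X₁.X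
    obtain ⟨y, hy1, -, hy2, -⟩ := hLPT.2.2.2 k (X₁.prod H.P) X₁ B x₁
    have hsec : ∀ z : X₁.X, B.p.g (σ.g z) = z := by
      intro z
      have := congrArg (fun φ : X₁.X ⟶ X₁.X => φ z) hσB
      simpa using this
    have hinf : B.p.g (B.s.g x₁) = x₁ := by
      have := congrArg (fun φ : X₁.X ⟶ X₁.X => φ x₁) B.hs
      simpa using this
    have hne2 : B.s.g x₁ ≠ y := by
      intro h1
      have h2 : B.s.g x₁ ∈ (Set.range B.j.g)ᶜ := by
        rw [← B.hc]
        exact ⟨x₁, rfl⟩
      exact h2 (h1 ▸ hy2)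
    have hy3 : ∃ y : (X₁.prod H.P).X, y ∉ Set.range σ.g := by
      by_contra hcon
      push Not at hcon
      obtain ⟨z, hz⟩ := hcon y
      obtain ⟨z', hz'⟩ := hcon (B.s.g x₁)
      have h1 : z = x₁ := by rw [← hsec z, hz, hy1]
      have h2 : z' = x₁ := by rw [← hsec z', hz', hinf]
      apply hne2
      rw [← hz', ← hz, h1, h2]
    obtain ⟨w, hw⟩ := hy3
    have hy4 : w ∈ Set.range j.g := by
      rw [range_openVarIn]
      exact hw
    obtain ⟨z, -⟩ := hy4
    exact ⟨z⟩
  have hY : IsIntegral Y.X := isIntegral_of_isOpenImmersion j.g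
  have hMU : ∃ u : M.U.X, True := by
    have : x₀ ∈ Set.range M.j.g := by
      rw [hr]
      exact hx₀
    obtain ⟨u, -⟩ := this
    exact ⟨u, trivial⟩
  obtain ⟨u, -⟩ := hMU
  refine ⟨X₁, X₁.prod H.P, Y, hX₁, hY, M, B, σ, j, j.g ≫ B.p.g ≫ M.f.g ≫ f, hσB, hcomp, rfl, hr,
    ?_, ?_, ?_⟩
  · -- affine
    let q₁ : (X₁.prod H.P).X ⟶ X₁.X := pullback.fst X₁.f H.P.f
    have hB' : B.p.g = q₁ := hB
    have haff' : IsAffineHom (j.g ≫ q₁ ≫ e.g ≫ p₁) := haff
    have h1 : j.g ≫ B.p.g ≫ M.f.g ≫ f = (j.g ≫ q₁ ≫ e.g ≫ p₁) ≫ f := by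
      rw [hB', he']
      simp only [Category.assoc]
    rw [h1]
    infer_instance
  · -- processed
    obtain ⟨s, hs⟩ := hfun H.j₀.g.opensRange
    have hO : ((j.g ≫ B.p.g) ≫ M.f.g ≫ f) ⁻¹ᵁ V ≤
        (j.g ≫ B.p.g) ⁻¹ᵁ ((e.g ≫ pullback.snd X.f H.P.f) ⁻¹ᵁ H.j₀.g.opensRange) := by
      intro y hy
      exact hO₁ hy
    have h1 : j.g ≫ B.p.g ≫ M.f.g ≫ f = (j.g ≫ B.p.g) ≫ M.f.g ≫ f := (Category.assoc _ _ _).symm
    rw [h1]
    refine ⟨s, (j.g ≫ B.p.g) ⁻¹ᵁ ((e.g ≫ pullback.snd X.f H.P.f) ⁻¹ᵁ H.j₀.g.opensRange),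
      (j.g ≫ B.p.g).app _ g₁, hO, ?_, ?_⟩
    · intro y
      rw [← hs y, hB]
      rfl
    · exact GST.extend (j.g ≫ B.p.g) M.f.g f V h _ g₁ hO₁ hg₁ hO
  · intro n hn
    have h1 := GST.dimLE_modif M u n hn
    refine ⟨h1, fun y => ?_⟩
    have h2 := (hLPT.2.2.1 k (X₁.prod H.P) X₁ B (j.g y)).2
    rw [dim_map j.g j.comm] at h2
    refine h2.trans ?_
    have h3 := h1 (B.p.g (j.g y))
    push_cast
    gcongr

end CUB


end

section

/-!
# CUB2, module PFC: push-forward of cycles
-/

set_option autoImplicit false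

open CategoryTheory AlgebraicGeometry Limits Polynomial TopologicalSpace

namespace CUB

open Pool.Agent.Lib_helper55.Beil Pool.Agent.Lib_helper66.OneP

universe v

namespace PFC

theorem dim_le {k : Type} [Field k] {X Y : Var k} (g : X.X ⟶ Y.X) (comm : g ≫ Y.f = X.f)
    (x : X.X) : Y.dim (g x) ≤ X.dim x := by
  let : Algebra k (Y.X.residueField (g x)) := (Y.toResidue (g x)).toAlgebra
  let : Algebra k (X.X.residueField x) := (X.toResidue x).toAlgebra
  let e : Y.X.residueField (g x) →ₐ[k] X.X.residueField x :=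
    { (g.residueFieldMap x).hom with
      commutes' := fun r => by
        have := toResidue_map g comm x
        exact congrArg (fun (φ : k →+* _) => φ r) this }
  exact trdeg_le_of_injective e (g.residueFieldMap x).hom.injective

theorem deg_comp {k : Type} [Field k] {X Y Z : Var k} (f : PrMor X Y) (g : PrMor Y Z)
    (h : PrMor X Z) (hc : f.g ≫ g.g = h.g) (x : X.X) :
    h.deg x = g.deg (f.g x) * f.deg x := by
  obtain ⟨hg, h1, h2⟩ := h
  simp only at hc
  subst hc
  unfold PrMor.deg
  have h3 := Scheme.residueFieldMap_comp f.g g.g x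
  let : Algebra (Z.X.residueField (g.g (f.g x))) (Y.X.residueField (f.g x)) :=
    (g.g.residueFieldMap (f.g x)).hom.toAlgebra
  let : Algebra (Y.X.residueField (f.g x)) (X.X.residueField x) :=
    (f.g.residueFieldMap x).hom.toAlgebra
  let : Algebra (Z.X.residueField (g.g (f.g x))) (X.X.residueField x) :=
    ((f.g ≫ g.g).residueFieldMap x).hom.toAlgebra
  have : IsScalarTower (Z.X.residueField (g.g (f.g x))) (Y.X.residueField (f.g x))
      (X.X.residueField x) := by
    refine IsScalarTower.of_algebraMap_eq' ?_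
    have h4 := congrArg CommRingCat.Hom.hom h3
    exact h4
  exact (Module.finrank_mul_finrank (Z.X.residueField (g.g (f.g x)))
    (Y.X.residueField (f.g x)) (X.X.residueField x)).symm

theorem deg_closed {k : Type} [Field k] {Z X : Var k} (a : ClosedIn Z X) (f : PrMor Z X)
    (h : f.g = a.g) (z : Z.X) : f.deg z = 1 := by
  unfold PrMor.deg
  have : IsPreimmersion f.g := by
    rw [h]
    infer_instance
  let : Algebra (X.X.residueField (f.g z)) (Z.X.residueField z) :=
    (f.g.residueFieldMap z).hom.toAlgebra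
  have h1 : Function.Bijective (algebraMap (X.X.residueField (f.g z)) (Z.X.residueField z)) :=
    residueFieldMap_bijective f.g z
  exact (LinearEquiv.finrank_eq (AlgEquiv.ofBijective (Algebra.ofId _ _) h1).toLinearEquiv).symm.trans
    (Module.finrank_self _)

section

variable {k E : Type} [Field k] [Field E] {i : ℕ}

theorem pfc_single {X Y : Var k} (f : PrMor X Y) (x : Pts i X) (e : E) :
    pfc E i f (Finsupp.single x e) = e • pfPt E i f x := by
  unfold pfc
  rw [Finsupp.linearCombination_single]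

theorem pfPt_pos {X Y : Var k} (f : PrMor X Y) (x : Pts i X) (h : Y.dim (f.g x.1) = i) :
    pfPt E i f x = Finsupp.single ⟨f.g x.1, h⟩ (f.deg x.1 : E) := by
  unfold pfPt
  rw [dif_pos h]

theorem pfPt_neg {X Y : Var k} (f : PrMor X Y) (x : Pts i X) (h : Y.dim (f.g x.1) ≠ i) :
    pfPt E i f x = 0 := by
  unfold pfPt
  rw [dif_neg h]

theorem pfPt_comp {X Y Z : Var k} (f : PrMor X Y) (g : PrMor Y Z) (h : PrMor X Z)
    (hc : f.g ≫ g.g = h.g) (x : Pts i X) :
    pfc E i g (pfPt E i f x) = pfPt E i h x := by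
  have hd := deg_comp f g h hc x.1
  have hx : g.g (f.g x.1) = h.g x.1 := by
    rw [← hc]
    rfl
  by_cases h1 : Y.dim (f.g x.1) = i
  · rw [pfPt_pos f x h1, pfc_single]
    by_cases h2 : Z.dim (g.g (f.g x.1)) = i
    · have h3 : Z.dim (h.g x.1) = i := by rw [← hx]; exact h2
      rw [pfPt_pos h x h3, pfPt_pos g ⟨f.g x.1, h1⟩ h2, Finsupp.smul_single, smul_eq_mul, hd]
      have h4 : (⟨g.g (f.g x.1), h2⟩ : Pts i Z) = ⟨h.g x.1, h3⟩ := Subtype.ext hx
      rw [h4, Nat.cast_mul, mul_comm]
    · have h3 : Z.dim (h.g x.1) ≠ i := by rw [← hx]; exact h2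
      rw [pfPt_neg h x h3, pfPt_neg g ⟨f.g x.1, h1⟩ h2, smul_zero]
  · rw [pfPt_neg f x h1, map_zero]
    have h3 : Z.dim (h.g x.1) ≠ i := by
      intro h4
      apply h1
      refine le_antisymm ((dim_le f.g f.comm x.1).trans x.2.le) ?_
      have h5 : Z.dim (g.g (f.g x.1)) ≤ Y.dim (f.g x.1) := dim_le g.g g.comm _
      have h6 : Z.dim (g.g (f.g x.1)) = Z.dim (h.g x.1) := congrArg Z.dim hx
      exact (h4.symm.trans h6.symm).le.trans h5
    rw [pfPt_neg h x h3]

theorem pfc_eq_sum {X Y : Var k} (f : PrMor X Y) (c : Pts i X →₀ E) :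
    pfc E i f c = c.sum fun x e => e • pfPt E i f x := by
  unfold pfc
  rw [Finsupp.linearCombination_apply]

end

end PFC

open _root_.CUB.PFC in
theorem t_PFC : S_PFC.{v} := by
  refine ⟨?_, ?_, ?_, ?_, ?_, ?_⟩
  · intro k _ X Y g comm x
    exact dim_le g comm x
  · intro k E _ _ i X Y Z f g h hc c
    have h1 : (pfc E i g).comp (pfc E i f) = pfc E i h := by
      refine Finsupp.lhom_ext fun x e => ?_
      rw [LinearMap.comp_apply, pfc_single, pfc_single, map_smul, pfPt_comp f g h hc x]
    exact LinearMap.congr_fun h1 c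
  · intro k E _ _ i Z X a f hf c
    rw [pfc_eq_sum]
    unfold pushCyc
    rw [Finsupp.mapDomain]
    refine Finsupp.sum_congr fun x _ => ?_
    have h1 : X.dim (f.g x.1) = i := by
      rw [hf]
      exact (ptsMap i a x).2
    rw [pfPt_pos f x h1, deg_closed a f hf, Nat.cast_one, Finsupp.smul_single, smul_eq_mul,
      mul_one]
    have h2 : (⟨f.g x.1, h1⟩ : Pts i X) = ptsMap i a x :=
      Subtype.ext (congrArg (fun (g : Z.X ⟶ X.X) => g x.1) hf)
    rw [h2]
  · intro k E _ _ T hT i X Y f c
    have h1 : (Finsupp.linearCombination E ((T i).cl Y)).comp (pfc E i f) =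
        (hT.pf i (2 * i) f).comp (Finsupp.linearCombination E ((T i).cl X)) := by
      refine Finsupp.lhom_ext fun x e => ?_
      rw [LinearMap.comp_apply, LinearMap.comp_apply, pfc_single, map_smul,
        Finsupp.linearCombination_single, map_smul]
      congr 1
      obtain ⟨h2, h3⟩ := hT.pfClasses i f x
      by_cases h4 : Y.dim (f.g x.1) = i
      · rw [pfPt_pos f x h4, Finsupp.linearCombination_single]
        exact (h2 h4).symm
      · rw [pfPt_neg f x h4, map_zero]
        exact (h3 h4).symm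
    exact LinearMap.congr_fun h1 c
  · intro k E _ _ i X Y f c hc
    rw [pfc_eq_sum]
    refine Finset.sum_eq_zero fun x hx => ?_
    show c x • pfPt E i f x = 0
    rw [pfPt_neg f x (hc x (Finsupp.mem_support_iff.mp hx)), smul_zero]
  · intro k E _ _ i X Y f c y
    classical
    rw [pfc_eq_sum, Finsupp.sum_apply]
    refine Finsupp.sum_congr fun x _ => ?_
    rw [Finsupp.smul_apply, smul_eq_mul]
    congr 1
    by_cases h1 : f.g x.1 = y.1
    · have h2 : Y.dim (f.g x.1) = i := by rw [h1]; exact y.2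
      have h3 : (⟨f.g x.1, h2⟩ : Pts i Y) = y := Subtype.ext h1
      rw [pfPt_pos f x h2, if_pos h1, h3, Finsupp.single_eq_same]
    · rw [if_neg h1]
      by_cases h2 : Y.dim (f.g x.1) = i
      · have h3 : (⟨f.g x.1, h2⟩ : Pts i Y) ≠ y := fun h => h1 (congrArg Subtype.val h)
        rw [pfPt_pos f x h2]
        exact Finsupp.single_eq_of_ne h3.symm
      · rw [pfPt_neg f x h2, Finsupp.zero_apply]

end CUB


end

section

set_option autoImplicit false

open Polynomial

namespace QCV

open CUB

theorem t_SPR : M_SPR := by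
  intro hDLR hNOE hFAM k ι _ P hP d n Θ hΘ h R _ _ _ f hR hf
  have hmf : ∀ (S S' : Type) [CommRing S] [Algebra k S] [CommRing S'] [Algebra k S']
      (ψ : R →ₐ[k] S) (φ : S →ₐ[k] S'), mf (φ.comp ψ).toRingHom f =
        mf φ.toRingHom (mf ψ.toRingHom f) := by
    intro S S' _ _ _ _ ψ φ
    funext j
    exact (MvPolynomial.map_map _ _ _).symm
  have h1 : Cls1 k R (fun S _ _ _ ψ => P (ER (mf ψ.toRingHom f))) := by
    constructor
    · intro S S' _ _ _ _ _ _ e ψ hS
      obtain ⟨e'⟩ := hFAM.2 k S S' ι n e (mf ψ.toRingHom f)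
      have := hP.iso e' hS
      rw [← hmf] at this
      exact this
    · intro S _ _ _ ψ hS
      apply hP.triv
      have : Subsingleton (MvPolynomial (Fin n) S) := Module.subsingleton S _
      exact Function.Surjective.subsingleton (Ideal.Quotient.mk_surjective
        (I := Ideal.span (Set.range (mf ψ.toRingHom f))))
    · intro A Z U _ _ _ _ _ _ _ _ _ a z u ψ hs hZ hU
      obtain ⟨z', u', hs'⟩ := hFAM.1 k A Z U ι n a z u (mf ψ.toRingHom f) hs
      refine hP.glue _ z' u' hs' ?_ ?_
      · rw [← hmf]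
        exact hZ
      · rw [← hmf]
        exact hU
    · intro A Z U _ _ _ _ _ _ _ _ _ a z u ψ hs hA hZ
      obtain ⟨z', u', hs'⟩ := hFAM.1 k A Z U ι n a z u (mf ψ.toRingHom f) hs
      have := hP.opn _ z' u' hs' hA (by rw [← hmf]; exact hZ)
      rw [← hmf] at this
      exact this
  have h2 := hNOE k R _ h1 (by
    intro D _ _ _ _ ψ hψ
    have hD : DL k D d := hDLR.1 k R D d ψ hψ hR
    obtain ⟨a, ha, h3⟩ := h D (mf ψ.toRingHom f) hD (hΘ R D ψ.toRingHom f hf)
    refine ⟨a, ha, ?_⟩
    rw [hmf]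
    exact h3)
  have h3 : mf (AlgHom.id k R).toRingHom f = f := by
    funext j
    exact MvPolynomial.map_id _
  rw [h3] at h2
  exact h2

end QCV


end

section

/-!
# QCV, module DFC: a polynomial of degree at most three is zero, irreducible or a product
-/

set_option autoImplicit false

namespace QCV

theorem t_DFC : S_DFC := by
  intro K _ n F hF
  by_cases h0 : F = 0
  · exact Or.inl h0
  refine Or.inr ?_
  by_cases hirr : Irreducible F
  · exact Or.inl hirr
  refine Or.inr ?_
  by_cases hu : IsUnit F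
  · refine ⟨F, 1, ?_, ?_, (mul_one F).symm⟩
    · obtain ⟨c, -, hc⟩ := MvPolynomial.isUnit_iff_eq_C_of_isReduced.1 hu
      rw [hc, MvPolynomial.totalDegree_C]
      exact Nat.zero_le _
    · rw [MvPolynomial.totalDegree_one]
      exact Nat.zero_le _
  · rw [irreducible_iff] at hirr
    push Not at hirr
    obtain ⟨g, h, hgh, hg, hh⟩ := hirr hu
    have hg0 : g ≠ 0 := fun e => h0 (by rw [hgh, e, zero_mul])
    have hh0 : h ≠ 0 := fun e => h0 (by rw [hgh, e, mul_zero])
    have hpos : ∀ f : MvPolynomial (Fin n) K, f ≠ 0 → ¬ IsUnit f → 1 ≤ f.totalDegree := by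
      intro f hf hfu
      by_contra hc
      have hd : f.totalDegree = 0 := by omega
      rw [MvPolynomial.totalDegree_eq_zero_iff_eq_C] at hd
      apply hfu
      rw [hd]
      refine IsUnit.map MvPolynomial.C (isUnit_iff_ne_zero.2 fun hz => hf ?_)
      rw [hd, hz, MvPolynomial.C_0]
    have hdeg := MvPolynomial.totalDegree_mul_of_isDomain hg0 hh0
    rw [← hgh] at hdeg
    have h1 := hpos g hg0 hg
    have h2 := hpos h hh0 hh
    rcases Nat.lt_or_ge g.totalDegree 2 with h3 | h3
    · exact ⟨g, h, by omega, by omega, hgh⟩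
    · exact ⟨h, g, by omega, by omega, by rw [hgh, mul_comm]⟩

end QCV


end
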