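import Mathlib
import Pool.Agent.QVM.C05
import Pool.Agent.QVM.C08

/-! Parts: CUB.B_L0, CUB.C_CHI, CUB.C_CHI2, CUB.C_CS1 -/

section

/-!
# CUB, module L0: cycles on polynomial rings
-/

set_option autoImplicit false

open Polynomial

namespace CUB

namespace L0

/-- In an ideal of `D[X]` there is an element which generates it up to constants. -/
theorem pd {D : Type} [CommRing D] [IsDomain D] (I : Ideal D[X]) (hI : I ≠ ⊥) :
    ∃ g ∈ I, g ≠ 0 ∧ ∀ f ∈ I, ∃ s : D, s ≠ 0 ∧ C s * f ∈ Ideal.span {g} := by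
  classical
  have hex : ∃ n : ℕ, ∃ g ∈ I, g ≠ 0 ∧ g.natDegree = n := by
    obtain ⟨g, hg, hg0⟩ := Submodule.exists_mem_ne_zero_of_ne_bot hI
    exact ⟨_, g, hg, hg0, rfl⟩
  obtain ⟨g, hg, hg0, hgn⟩ := Nat.find_spec hex
  have hmin : ∀ f ∈ I, f ≠ 0 → g.natDegree ≤ f.natDegree := by
    intro f hf hf0
    rw [hgn]
    exact Nat.find_min' hex ⟨f, hf, hf0, rfl⟩
  refine ⟨g, hg, hg0, ?_⟩
  have key : ∀ n : ℕ, ∀ f ∈ I, f.natDegree ≤ n → ∃ s : D, s ≠ 0 ∧ C s * f ∈ Ideal.span {g} := by
    intro n
    induction n using Nat.strong_induction_on with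
    | _ n ih =>
      intro f hf hfn
      by_cases hf0 : f = 0
      · refine ⟨1, one_ne_zero, ?_⟩
        rw [hf0, mul_zero]
        exact Submodule.zero_mem _
      have h1 := hmin f hf hf0
      have hlg : g.leadingCoeff ≠ 0 := leadingCoeff_ne_zero.2 hg0
      have hlf : f.leadingCoeff ≠ 0 := leadingCoeff_ne_zero.2 hf0
      set q : D[X] := C f.leadingCoeff * X ^ (f.natDegree - g.natDegree) with hq
      have hCf : C g.leadingCoeff * f ≠ 0 := mul_ne_zero (C_ne_zero.2 hlg) hf0
      have hd1 : (C g.leadingCoeff * f).degree = f.natDegree := by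
        rw [degree_mul, degree_C hlg, zero_add, degree_eq_natDegree hf0]
      have hd2 : (q * g).degree = f.natDegree := by
        rw [hq, degree_mul, degree_C_mul_X_pow _ hlf, degree_eq_natDegree hg0]
        norm_cast
        omega
      have hl : (C g.leadingCoeff * f).leadingCoeff = (q * g).leadingCoeff := by
        rw [hq, leadingCoeff_mul, leadingCoeff_mul, leadingCoeff_C, leadingCoeff_C_mul_X_pow]
        ring
      have hlt := degree_sub_lt_left (hd1.trans hd2.symm) hCf hl
      have hfI : C g.leadingCoeff * f - q * g ∈ I :=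
        I.sub_mem (I.mul_mem_left _ hf) (I.mul_mem_left _ hg)
      have hspan : ∃ s : D, s ≠ 0 ∧ C s * (C g.leadingCoeff * f - q * g) ∈ Ideal.span {g} := by
        by_cases h0 : C g.leadingCoeff * f - q * g = 0
        · refine ⟨1, one_ne_zero, ?_⟩
          rw [h0, mul_zero]
          exact Submodule.zero_mem _
        · have h2 : (C g.leadingCoeff * f - q * g).natDegree < f.natDegree := by
            rw [hd1, degree_eq_natDegree h0] at hlt
            exact_mod_cast hlt
          exact ih _ (lt_of_lt_of_le h2 hfn) _ hfI le_rfl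
      obtain ⟨s, hs, h3⟩ := hspan
      refine ⟨s * g.leadingCoeff, mul_ne_zero hs hlg, ?_⟩
      have h4 : C (s * g.leadingCoeff) * f =
          C s * (C g.leadingCoeff * f - q * g) + C s * q * g := by
        rw [C_mul]
        ring
      rw [h4]
      exact Ideal.add_mem _ h3 (Ideal.mul_mem_left _ _ (Ideal.mem_span_singleton_self g))
  intro f hf
  exact key _ f hf le_rfl

variable {R : Type} [CommRing R]

theorem gen (p : Ideal R) [p.IsPrime] (P : Ideal R[X]) (hne : ¬ P ≤ p.map (C : R →+* R[X])) :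
    ∃ g ∈ P, g ∉ p.map (C : R →+* R[X]) ∧ ∀ f ∈ P, ∃ s : R, s ∉ p ∧
      C s * f ∈ p.map (C : R →+* R[X]) ⊔ Ideal.span {g} := by
  set π : R[X] →+* (R ⧸ p)[X] := mapRingHom (Ideal.Quotient.mk p) with hπ
  have hsur : Function.Surjective π := map_surjective _ Ideal.Quotient.mk_surjective
  have hker : RingHom.ker π = p.map (C : R →+* R[X]) := by
    rw [hπ, ker_mapRingHom, Ideal.mk_ker]
  have hI : P.map π ≠ ⊥ := by
    intro h
    apply hne
    rw [← hker]
    intro f hf
    have h1 : π f ∈ P.map π := Ideal.mem_map_of_mem π hf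
    rw [h] at h1
    exact h1
  obtain ⟨g', hg', hg0, h⟩ := pd (P.map π) hI
  obtain ⟨g, hg, rfl⟩ := (Ideal.mem_map_iff_of_surjective π hsur).1 hg'
  refine ⟨g, hg, ?_, ?_⟩
  · intro h1
    rw [← hker] at h1
    exact hg0 h1
  · intro f hf
    obtain ⟨s', hs', h2⟩ := h (π f) (Ideal.mem_map_of_mem π hf)
    obtain ⟨s, rfl⟩ := Ideal.Quotient.mk_surjective s'
    obtain ⟨h', h3⟩ := Ideal.mem_span_singleton'.1 h2
    obtain ⟨h'', rfl⟩ := hsur h'
    refine ⟨s, fun hs => hs' (Ideal.Quotient.eq_zero_iff_mem.2 hs), ?_⟩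
    have h4 : C s * f - h'' * g ∈ p.map (C : R →+* R[X]) := by
      rw [← hker, RingHom.mem_ker, map_sub, map_mul, map_mul, h3, hπ, coe_mapRingHom, map_C,
        sub_self]
    have h5 : C s * f = (C s * f - h'' * g) + h'' * g := by ring
    rw [h5]
    exact Submodule.add_mem_sup h4 (Ideal.mul_mem_left _ _ (Ideal.mem_span_singleton_self g))

/-- The length is one if the ideal generates the maximal ideal of the localisation. -/
theorem len_one (P : PrimeSpectrum R[X]) (I : Ideal R[X]) (hI : I ≤ P.asIdeal)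
    (h : ∀ f ∈ P.asIdeal, ∃ s ∉ P.asIdeal, s * f ∈ I) : len I P = 1 := by
  have h1 : I.map (algebraMap R[X] (Localization.AtPrime P.asIdeal)) =
      IsLocalRing.maximalIdeal (Localization.AtPrime P.asIdeal) := by
    rw [← Localization.AtPrime.map_eq_maximalIdeal]
    refine le_antisymm (Ideal.map_mono hI) ?_
    rw [Ideal.map_le_iff_le_comap]
    intro f hf
    obtain ⟨s, hs, hsf⟩ := h f hf
    have h2 := Ideal.mem_map_of_mem (algebraMap R[X] (Localization.AtPrime P.asIdeal)) hsf
    rw [map_mul] at h2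
    have h3 : IsUnit (algebraMap R[X] (Localization.AtPrime P.asIdeal) s) :=
      IsLocalization.map_units (Localization.AtPrime P.asIdeal) (⟨s, hs⟩ : P.asIdeal.primeCompl)
    exact (Ideal.unit_mul_mem_iff_mem _ h3).1 h2
  unfold len
  rw [h1]
  have h4 : IsSimpleModule (Localization.AtPrime P.asIdeal) (Localization.AtPrime P.asIdeal ⧸
      IsLocalRing.maximalIdeal (Localization.AtPrime P.asIdeal)) :=
    isSimpleModule_iff_isCoatom.2 (Ideal.isMaximal_def.1 (IsLocalRing.maximalIdeal.isMaximal _))
  rw [Module.length_eq_one]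
  rfl

variable {k : Type} [Field k] [Algebra k R]

/-- The dimension of `p R[X]`. -/
theorem rdim_map (p : PrimeSpectrum R) (Q : PrimeSpectrum R[X])
    (hQ : Q.asIdeal = p.asIdeal.map (C : R →+* R[X])) : rdim k p + 1 ≤ rdim k Q := by
  unfold rdim
  have h1 := trdeg_add_eq k (R ⧸ p.asIdeal) (A := (R ⧸ p.asIdeal)[X])
  rw [Polynomial.trdeg_of_isDomain] at h1
  rw [h1]
  let f : R[X] →ₐ[k] (R ⧸ p.asIdeal)[X] := mapAlgHom (Ideal.Quotient.mkₐ k p.asIdeal)
  have hf : ∀ x ∈ Q.asIdeal, f x = 0 := by
    intro x hx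
    rw [hQ, ← Ideal.mk_ker (I := p.asIdeal), ← ker_mapRingHom] at hx
    exact hx
  have hs : Function.Surjective (Ideal.Quotient.liftₐ Q.asIdeal f hf) := by
    intro y
    obtain ⟨x, rfl⟩ := map_surjective (Ideal.Quotient.mk p.asIdeal) Ideal.Quotient.mk_surjective y
    exact ⟨Ideal.Quotient.mk _ x, rfl⟩
  exact trdeg_le_of_surjective _ hs

theorem le_rdim (P : PrimeSpectrum R[X]) :
    rdim k (PrimeSpectrum.comap (CC k R).toRingHom P) ≤ rdim k P := by
  have H : (PrimeSpectrum.comap (CC k R).toRingHom P).asIdeal ≤ P.asIdeal.comap (CC k R) := le_refl _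
  have h1 : Function.Injective (Ideal.quotientMapₐ P.asIdeal (CC k R) H) :=
    Ideal.quotientMap_injective' (H := H) (le_refl _)
  exact trdeg_le_of_injective _ h1

/-- The first case. -/
theorem eq_map [Algebra.FiniteType k R] (hG : S_GX) (P : PrimeSpectrum R[X])
    (h : rdim k P = rdim k (PrimeSpectrum.comap (CC k R).toRingHom P) + 1) :
    P.asIdeal = (PrimeSpectrum.comap (CC k R).toRingHom P).asIdeal.map (C : R →+* R[X]) := by
  have h1 := ((hG.1 k R).at' P).2 (by rw [Nat.cast_one]; exact h)
  set p := PrimeSpectrum.comap (CC k R).toRingHom P with hp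
  have h1' : IsLocalRing.maximalIdeal (Localization.AtPrime P.asIdeal) ≤
      (p.asIdeal.map (C : R →+* R[X])).map
        (algebraMap R[X] (Localization.AtPrime P.asIdeal)) := by
    rw [Ideal.map_map]
    exact h1
  have hle : p.asIdeal.map (C : R →+* R[X]) ≤ P.asIdeal := by
    rw [Ideal.map_le_iff_le_comap]
    exact le_refl _
  refine le_antisymm ?_ hle
  intro f hf
  have h2 : algebraMap R[X] (Localization.AtPrime P.asIdeal) f ∈
      (p.asIdeal.map (C : R →+* R[X])).map
        (algebraMap R[X] (Localization.AtPrime P.asIdeal)) := by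
    apply h1'
    rw [← Localization.AtPrime.map_eq_maximalIdeal]
    exact Ideal.mem_map_of_mem _ hf
  have hpr : (p.asIdeal.map (C : R →+* R[X])).IsPrime := Ideal.isPrime_map_C_of_isPrime
  obtain ⟨s, hs, hsf⟩ := (IsLocalization.algebraMap_mem_map_algebraMap_iff P.asIdeal.primeCompl
    (Localization.AtPrime P.asIdeal) (p.asIdeal.map (C : R →+* R[X])) f).1 h2
  rcases hpr.mem_or_mem hsf with h3 | h3
  · exact absurd (hle h3) hs
  · exact h3

theorem pull_single [Algebra.FiniteType k R] (hG : S_GX) (E : Type) [Field E] (n : ℕ)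
    (P : RP k R[X] (n + 1)) (h : rdim k (PrimeSpectrum.comap (CC k R).toRingHom P.1) = n)
    (x : E) : IsPull k E 1 (CC k R) (Finsupp.single
      (⟨PrimeSpectrum.comap (CC k R).toRingHom P.1, h⟩ : RP k R n) x) (Finsupp.single P x) := by
  have hP : P.1.asIdeal = (PrimeSpectrum.comap (CC k R).toRingHom P.1).asIdeal.map
      (C : R →+* R[X]) := by
    refine eq_map (k := k) hG P.1 ?_
    rw [h, P.2]
    push_cast
    rfl
  intro P'
  refine ⟨fun h' => ?_, fun h' => ?_⟩
  · by_cases he : P = P'
    · subst he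
      rw [Finsupp.single_eq_same, Finsupp.single_eq_same]
    · rw [Finsupp.single_eq_of_ne' he, Finsupp.single_eq_of_ne']
      intro h2
      apply he
      apply Subtype.ext
      apply PrimeSpectrum.ext
      have hP' : P'.1.asIdeal = (PrimeSpectrum.comap (CC k R).toRingHom P'.1).asIdeal.map
          (C : R →+* R[X]) := by
        refine eq_map (k := k) hG P'.1 ?_
        rw [h', P'.2]
        push_cast
        rfl
      have h3 := congrArg (fun z : RP k R n => z.1) h2
      rw [hP, hP']
      exact congrArg (fun z : PrimeSpectrum R => z.asIdeal.map (C : R →+* R[X])) h3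
  · by_cases he : P = P'
    · subst he
      exact absurd h h'
    · exact Finsupp.single_eq_of_ne' he

/-- The second case. -/
theorem main [Algebra.FiniteType k R] (hD : S_DIM1) (hC : S_LENC) (hV : S_DVX) (hG : S_GX)
    (E : Type) [Field E] (m : ℕ) (P : RP k R[X] m)
    (h : rdim k (PrimeSpectrum.comap (CC k R).toRingHom P.1) = m) :
    ∃ c : RP k R[X] m →₀ E, c ∈ rat k R[X] E m ∧ c P = 1 ∧ ∀ P' : RP k R[X] m, P' ≠ P →
      c P' ≠ 0 → rdim k (PrimeSpectrum.comap (CC k R).toRingHom P'.1) < m := by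
  set p := PrimeSpectrum.comap (CC k R).toRingHom P.1 with hp
  let Q : PrimeSpectrum R[X] := ⟨p.asIdeal.map (C : R →+* R[X]), Ideal.isPrime_map_C_of_isPrime⟩
  have hQp : PrimeSpectrum.comap (CC k R).toRingHom Q = p := by
    apply PrimeSpectrum.ext
    ext r
    change C r ∈ p.asIdeal.map (C : R →+* R[X]) ↔ r ∈ p.asIdeal
    rw [Ideal.mem_map_C_iff]
    constructor
    · intro h1
      simpa using h1 0
    · intro h1 n
      rw [coeff_C]
      split_ifs
      · exact h1
      · exact Submodule.zero_mem _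
  have hQ1 : rdim k p + 1 ≤ rdim k Q := rdim_map p Q rfl
  have hQ2 := ((hG.1 k R).at' Q).1
  have hQ3 : rdim k Q = (m + 1 : ℕ) := by
    have h2 : rdim k Q ≤ rdim k (PrimeSpectrum.comap (CC k R).toRingHom Q) + (1 : ℕ) := hQ2
    rw [hQp, h] at h2
    rw [h] at hQ1
    refine le_antisymm ?_ ?_
    · exact_mod_cast h2
    · exact_mod_cast hQ1
  have hQP : Q.asIdeal ≤ P.1.asIdeal := by
    change p.asIdeal.map (C : R →+* R[X]) ≤ P.1.asIdeal
    rw [Ideal.map_le_iff_le_comap]
    exact le_refl _
  have hne : ¬ P.1.asIdeal ≤ p.asIdeal.map (C : R →+* R[X]) := by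
    intro h1
    have h2 : Q = P.1 := PrimeSpectrum.ext (le_antisymm hQP h1)
    rw [h2, P.2] at hQ3
    have h3 : m = m + 1 := by exact_mod_cast hQ3
    omega
  obtain ⟨g, hg, hgQ, hgen⟩ := gen p.asIdeal P.1.asIdeal hne
  let Qr : RP k R[X] (m + 1) := ⟨Q, hQ3⟩
  obtain ⟨c, hc⟩ := hV k R[X] E m Qr g hgQ
  have hsmem : ∀ s : R, s ∉ p.asIdeal → C s ∉ P.1.asIdeal := fun s hs h1 => hs h1
  refine ⟨c, ?_, ?_, ?_⟩
  · apply Submodule.subset_span
    exact ⟨Qr, g, bot_le, hgQ, hc⟩
  · rw [hc P, len_one, Nat.cast_one]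
    · refine sup_le hQP ?_
      rw [Ideal.span_le]
      rintro x rfl
      exact hg
    · intro f hf
      obtain ⟨s, hs, h1⟩ := hgen f hf
      exact ⟨C s, hsmem s hs, h1⟩
  · intro P' hP' hc'
    have h1 : len (Q.asIdeal ⊔ Ideal.span {g}) P'.1 ≠ 0 := by
      intro h2
      apply hc'
      rw [hc P']
      change ((len (Q.asIdeal ⊔ Ideal.span {g}) P'.1 : ℕ) : E) = 0
      rw [h2, Nat.cast_zero]
    obtain ⟨h2, h3⟩ := (hC k R[X] m Qr P').2.1 g h1
    have hle : p ≤ PrimeSpectrum.comap (CC k R).toRingHom P'.1 := by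
      rw [← hQp]
      intro r hr
      exact h2 hr
    rcases hle.eq_or_lt with he | hlt
    · exfalso
      have h4 : P.1.asIdeal ≤ P'.1.asIdeal := by
        intro f hf
        obtain ⟨s, hs, h5⟩ := hgen f hf
        have h6 : C s * f ∈ P'.1.asIdeal := by
          refine (sup_le h2 ?_) h5
          rw [Ideal.span_le]
          rintro x rfl
          exact h3
        rcases P'.1.isPrime.mem_or_mem h6 with h7 | h7
        · exfalso
          apply hs
          rw [he]
          exact h7
        · exact h7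
      have h5 : P.1 ≤ P'.1 := h4
      rcases h5.eq_or_lt with h6 | h6
      · exact hP' (Subtype.ext h6.symm)
      · have h7 := (hD k R[X] P.1).2 P'.1 h6
        rw [P.2, P'.2] at h7
        exact lt_irrefl _ h7
    · have h4 := (hD k R p).2 _ hlt
      rwa [h] at h4

end L0

open _root_.CUB.L0 in
theorem t_L0 : M_L0 := by
  intro hD hC hV hG hF hL k R E _ _ _ _ _
  refine ⟨?_, ?_⟩
  · intro n
    have hadd : ∀ c c' : RP k R[X] (n + 1) →₀ E,
        (∃ (v : RP k R n →₀ E) (d : RP k R[X] (n + 1) →₀ E),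
          IsPull k E 1 (CC k R) v d ∧ c - d ∈ rat k R[X] E (n + 1)) →
        (∃ (v : RP k R n →₀ E) (d : RP k R[X] (n + 1) →₀ E),
          IsPull k E 1 (CC k R) v d ∧ c' - d ∈ rat k R[X] E (n + 1)) →
        (∃ (v : RP k R n →₀ E) (d : RP k R[X] (n + 1) →₀ E),
          IsPull k E 1 (CC k R) v d ∧ (c + c') - d ∈ rat k R[X] E (n + 1)) := by
      rintro c c' ⟨v, d, h1, h2⟩ ⟨v', d', h1', h2'⟩
      refine ⟨v + v', d + d', ((hL.1 k R R[X] E 1 n (CC k R) v v' d d' 0 h1 h1').2).1, ?_⟩
      have h3 : c + c' - (d + d') = (c - d) + (c' - d') := by abel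
      rw [h3]
      exact Submodule.add_mem _ h2 h2'
    have hrat : ∀ c ∈ rat k R[X] E (n + 1), (∃ (v : RP k R n →₀ E) (d : RP k R[X] (n + 1) →₀ E),
          IsPull k E 1 (CC k R) v d ∧ c - d ∈ rat k R[X] E (n + 1)) := by
      intro c hc
      refine ⟨0, 0, ?_, by rwa [sub_zero]⟩
      intro P
      exact ⟨fun _ => rfl, fun _ => rfl⟩
    have hsingle : ∀ (P : RP k R[X] (n + 1)) (x : E),
        rdim k (PrimeSpectrum.comap (CC k R).toRingHom P.1) = n →
        (∃ (v : RP k R n →₀ E) (d : RP k R[X] (n + 1) →₀ E),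
          IsPull k E 1 (CC k R) v d ∧ Finsupp.single P x - d ∈ rat k R[X] E (n + 1)) := by
      intro P x h
      refine ⟨_, _, pull_single hG E n P h x, ?_⟩
      rw [sub_self]
      exact Submodule.zero_mem _
    have hlow : ∀ P : RP k R[X] (n + 1),
        rdim k (PrimeSpectrum.comap (CC k R).toRingHom P.1) < (n + 1 : ℕ) →
        rdim k (PrimeSpectrum.comap (CC k R).toRingHom P.1) = n := by
      intro P h
      have h1 : rdim k P.1 ≤ rdim k (PrimeSpectrum.comap (CC k R).toRingHom P.1) + (1 : ℕ) :=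
        ((hG.1 k R).at' P.1).1
      obtain ⟨j, hj⟩ := (hD k R (PrimeSpectrum.comap (CC k R).toRingHom P.1)).1
      rw [hj] at h h1 ⊢
      rw [P.2] at h1
      norm_cast at h h1 ⊢
      omega
    have hall : ∀ (P : RP k R[X] (n + 1)) (x : E),
        (∃ (v : RP k R n →₀ E) (d : RP k R[X] (n + 1) →₀ E),
          IsPull k E 1 (CC k R) v d ∧ Finsupp.single P x - d ∈ rat k R[X] E (n + 1)) := by
      intro P x
      by_cases h : rdim k (PrimeSpectrum.comap (CC k R).toRingHom P.1) = (n + 1 : ℕ)
      · obtain ⟨c, hc, hcP, hc'⟩ := main hD hC hV hG E (n + 1) P h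
        have h1 : ∀ (s : Finset (RP k R[X] (n + 1))), (∀ P' ∈ s, P' ≠ P ∧ c P' ≠ 0) →
            (∃ (v : RP k R n →₀ E) (d : RP k R[X] (n + 1) →₀ E),
              IsPull k E 1 (CC k R) v d ∧
                (∑ P' ∈ s, Finsupp.single P' (-x * c P')) - d ∈ rat k R[X] E (n + 1)) := by
          classical
          intro s
          induction s using Finset.induction_on with
          | empty =>
            intro _
            rw [Finset.sum_empty]
            exact hrat 0 (Submodule.zero_mem _)
          | insert a s ha ih =>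
            intro hs
            rw [Finset.sum_insert ha]
            refine hadd _ _ ?_ (ih fun P' hP' => hs P' (Finset.mem_insert_of_mem hP'))
            obtain ⟨h2, h3⟩ := hs a (Finset.mem_insert_self a s)
            exact hsingle a _ (hlow a (hc' a h2 h3))
        classical
        have h2 : Finsupp.single P x = x • c +
            ∑ P' ∈ c.support.erase P, Finsupp.single P' (-x * c P') := by
          have h3 : c = Finsupp.single P 1 +
              ∑ P' ∈ c.support.erase P, Finsupp.single P' (c P') := by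
            conv_lhs => rw [← Finsupp.sum_single c]
            rw [Finsupp.sum, ← Finset.add_sum_erase _ _ (a := P), hcP]
            rw [Finsupp.mem_support_iff, hcP]
            exact one_ne_zero
          conv_rhs => enter [1]; rw [h3]
          rw [smul_add, Finset.smul_sum, Finsupp.smul_single, smul_eq_mul, mul_one, add_assoc,
            ← Finset.sum_add_distrib]
          rw [Finset.sum_eq_zero, add_zero]
          intro P' _
          rw [Finsupp.smul_single, ← Finsupp.single_add, smul_eq_mul, neg_mul, add_neg_cancel,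
            Finsupp.single_zero]
        rw [h2]
        refine hadd _ _ (hrat _ (Submodule.smul_mem _ _ hc)) (h1 _ ?_)
        intro P' hP'
        rw [Finset.mem_erase, Finsupp.mem_support_iff] at hP'
        exact hP'
      · refine hsingle P x (hlow P ?_)
        refine lt_of_le_of_ne ?_ h
        have h1 := le_rdim (k := k) P.1
        rwa [P.2] at h1
    intro c
    induction c using Finsupp.induction_linear with
    | zero => exact hrat 0 (Submodule.zero_mem _)
    | add f g hf hg => exact hadd _ _ hf hg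
    | single P x => exact hall P x
  · intro c
    have hall : ∀ (P : RP k R[X] 0) (x : E), Finsupp.single P x ∈ rat k R[X] E 0 := by
      intro P x
      have h : rdim k (PrimeSpectrum.comap (CC k R).toRingHom P.1) = (0 : ℕ) := by
        have h1 := le_rdim (k := k) P.1
        rw [P.2] at h1
        exact le_antisymm h1 (le_of_eq_of_le Nat.cast_zero zero_le)
      obtain ⟨c, hc, hcP, hc'⟩ := main hD hC hV hG E 0 P h
      have h2 : Finsupp.single P x = x • c := by
        classical
        refine Finsupp.ext fun P' => ?_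
        by_cases he : P = P'
        · subst he
          rw [Finsupp.single_eq_same, Finsupp.smul_apply, hcP, smul_eq_mul, mul_one]
        · rw [Finsupp.single_eq_of_ne' he, Finsupp.smul_apply]
          by_cases h3 : c P' = 0
          · rw [h3, smul_zero]
          · exfalso
            have h4 := hc' P' (fun h5 => he h5.symm) h3
            exact absurd (lt_of_lt_of_eq h4 Nat.cast_zero) not_lt_zero
      rw [h2]
      exact Submodule.smul_mem _ _ hc
    induction c using Finsupp.induction_linear with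
    | zero => exact Submodule.zero_mem _
    | add f g hf hg => exact Submodule.add_mem _ hf hg
    | single P x => exact hall P x

end CUB


end

section

/-!
# CUB, module CHI: the chart `chi` is a local isomorphism
-/

set_option autoImplicit false

open Polynomial

namespace CUB

namespace CHI

section Surj

variable {A B : Type} [CommRing A] [CommRing B] (φ : A →+* B) (r : A)

/-- The elements of `B` which lie in the image of `A` after multiplication by a power of `r`. -/
def Im (x : B) : Prop := ∃ a m, φ a = φ r ^ m * x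

variable {φ r}

lemma Im.of (a : A) : Im φ r (φ a) := ⟨a, 0, by simp⟩

lemma Im.add {x y : B} (hx : Im φ r x) (hy : Im φ r y) : Im φ r (x + y) := by
  obtain ⟨a, m, h1⟩ := hx
  obtain ⟨b, n, h2⟩ := hy
  refine ⟨r ^ n * a + r ^ m * b, m + n, ?_⟩
  rw [map_add, map_mul, map_mul, map_pow, map_pow, h1, h2]
  ring

lemma Im.mul {x y : B} (hx : Im φ r x) (hy : Im φ r y) : Im φ r (x * y) := by
  obtain ⟨a, m, h1⟩ := hx
  obtain ⟨b, n, h2⟩ := hy
  refine ⟨a * b, m + n, ?_⟩
  rw [map_mul, h1, h2]
  ring

end Surj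

variable {k R : Type} [Field k] [CommRing R] [Algebra k R] {G f v : R}

/-- The equation of the double cover, factorised. -/
lemma rel (hv : v ^ 2 - v = G) :
    (yy (C G + X * C f) - algebraMap R[X] (YY G f) (C v)) *
      (yy (C G + X * C f) - algebraMap R[X] (YY G f) (C (1 - v))) =
    algebraMap R[X] (YY G f) X * algebraMap R[X] (YY G f) (C f) := by
  have h := yy_eq (C G + X * C f)
  rw [← hv] at h ⊢
  simp only [map_sub, map_add, map_mul, map_pow, map_one] at h ⊢
  linear_combination h

/-- Injectivity of the localisation of the chart from a solution `s`. -/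
lemma inj (hv : v ^ 2 - v = G) (b : YY G f) (s : Localization.Away b)
    (h1 : algebraMap (YY G f) (Localization.Away b) (algebraMap R[X] (YY G f) (C v)) +
      s * algebraMap (YY G f) (Localization.Away b) (algebraMap R[X] (YY G f) (C f)) =
      algebraMap (YY G f) (Localization.Away b) (yy (C G + X * C f)))
    (h2 : s * (s * algebraMap (YY G f) (Localization.Away b) (algebraMap R[X] (YY G f) (C f)) +
      algebraMap (YY G f) (Localization.Away b) (algebraMap R[X] (YY G f) (C (2 * v - 1)))) =
      algebraMap (YY G f) (Localization.Away b) (algebraMap R[X] (YY G f) X)) (a : YY G f)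
    (ha : chi (k := k) (f := f) v hv a = 0) : ∃ n, b ^ n * a = 0 := by
  let ι : YY G f →ₐ[k] Localization.Away b := IsScalarTower.toAlgHom k _ _
  let θ : R[X] →ₐ[k] Localization.Away b :=
    evs (ι.comp ((Qbase (C G + X * C f)).comp (CC k R))) s
  have hθC : ∀ r : R, θ (C r) = ι (algebraMap R[X] (YY G f) (C r)) := fun r => evs_C _ _ r
  have hθX : θ X = s := evs_X _ _
  have hcomp : θ.comp (chi (k := k) (f := f) v hv) = ι := by
    apply Q_ext
    · intro t
      rw [AlgHom.comp_apply, chi_algebraMap]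
      have h3 := evs_unique (ι.comp ((Qbase (C G + X * C f)).comp (CC k R)))
        (ι (algebraMap R[X] (YY G f) X))
        (θ.comp (evs (CC k R) (X * (X * C f + C (2 * v - 1))))) (fun r => by
          rw [AlgHom.comp_apply, evs_C, CC_apply, hθC]
          rfl) (by
          rw [AlgHom.comp_apply, evs_X, map_mul, map_add, map_mul, hθX, hθC, hθC]
          exact h2)
      have h4 := evs_unique (ι.comp ((Qbase (C G + X * C f)).comp (CC k R)))
        (ι (algebraMap R[X] (YY G f) X))
        (ι.comp (Qbase (C G + X * C f))) (fun r => rfl) rfl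
      have h5 := h3.trans h4.symm
      exact AlgHom.congr_fun h5 t
    · rw [AlgHom.comp_apply, chi_yy, map_add, map_mul, hθX, hθC, hθC]
      exact h1
  have h6 : ι a = 0 := by
    rw [← hcomp, AlgHom.comp_apply, ha, map_zero]
  have h7 : algebraMap (YY G f) (Localization.Away b) a =
      algebraMap (YY G f) (Localization.Away b) 0 := by
    rw [map_zero]
    exact h6
  rw [IsLocalization.eq_iff_exists (Submonoid.powers b)] at h7
  obtain ⟨⟨_, n, rfl⟩, hn⟩ := h7
  exact ⟨n, by simpa using hn⟩

lemma img1 {W : Type} [CommRing W] (κ : YY G f →+* W) :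
    κ (algebraMap R[X] (YY G f) (C (1 - v))) = 1 - κ (algebraMap R[X] (YY G f) (C v)) := by
  simp only [map_sub, map_one]

lemma img2 {W : Type} [CommRing W] (κ : YY G f →+* W) :
    κ (algebraMap R[X] (YY G f) (C (2 * v - 1))) =
      2 * κ (algebraMap R[X] (YY G f) (C v)) - 1 := by
  have h2 : (C (2 : R) : R[X]) = 2 := rfl
  simp only [map_sub, map_mul, map_one, h2, map_ofNat]

/-- Surjectivity of the localisation of the chart. -/
lemma surj (hv : v ^ 2 - v = G) (b : YY G f)
    (hX : Im (chi (k := k) (f := f) v hv).toRingHom b X) (x : R[X]) :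
    Im (chi (k := k) (f := f) v hv).toRingHom b x := by
  have hC : ∀ r : R, Im (chi (k := k) (f := f) v hv).toRingHom b (C r) := by
    intro r
    have h := Im.of (φ := (chi (k := k) (f := f) v hv).toRingHom) (r := b)
      (algebraMap R[X] (YY G f) (C r))
    have h2 : (chi (k := k) (f := f) v hv).toRingHom (algebraMap R[X] (YY G f) (C r)) = C r := by
      change chi (k := k) (f := f) v hv (algebraMap R[X] (YY G f) (C r)) = C r
      rw [chi_algebraMap, evs_C, CC_apply]
    rwa [h2] at h
  induction x using Polynomial.induction_on with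
  | C a => exact hC a
  | add p q hp hq => exact hp.add hq
  | monomial n a ih =>
    rw [pow_succ, ← mul_assoc]
    exact ih.mul hX

end CHI

/-- CHI. -/
theorem t_CHI : M_CHI := by
  intro hGLI k R _ _ _ _ G f v hv hu
  apply hGLI
  intro P
  have hyv : chi (k := k) (f := f) v hv
      (yy (C G + X * C f) - algebraMap R[X] (YY G f) (C v)) = X * C f := by
    rw [map_sub, chi_yy, chi_algebraMap, evs_C, CC_apply]
    ring
  have hrel := CHI.rel (f := f) hv
  by_cases hf : (C f : R[X]) ∈ P.asIdeal
  · -- `b = y - (1 - v)`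
    let b : YY G f := yy (C G + X * C f) - algebraMap R[X] (YY G f) (C (1 - v))
    have hb : chi (k := k) (f := f) v hv b = X * C f + C (2 * v - 1) := by
      change chi (k := k) (f := f) v hv
        (yy (C G + X * C f) - algebraMap R[X] (YY G f) (C (1 - v))) = _
      rw [map_sub, chi_yy, chi_algebraMap, evs_C, CC_apply]
      have h2 : (C (2 : R) : R[X]) = 2 := rfl
      simp only [map_sub, map_mul, map_one, h2]
      ring
    refine ⟨b, ?_, ?_, ?_⟩
    · intro hmem
      rw [hb] at hmem
      have h1 : (C (2 * v - 1) : R[X]) ∈ P.asIdeal :=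
        (Submodule.add_mem_iff_right _ (P.asIdeal.mul_mem_left X hf)).mp hmem
      exact P.isPrime.ne_top (Ideal.eq_top_of_isUnit_mem _ h1 (hu.map C))
    · rw [Localization.awayMap_injective_iff]
      intro a ha
      obtain ⟨u, hu⟩ : IsUnit (algebraMap (YY G f) (Localization.Away b) b) :=
        IsLocalization.Away.algebraMap_isUnit b
      have hub : (↑u⁻¹ : Localization.Away b) * algebraMap (YY G f) (Localization.Away b) b = 1 := by
        rw [← hu]
        exact u.inv_mul
      have hbe : algebraMap (YY G f) (Localization.Away b) b =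
          algebraMap (YY G f) (Localization.Away b) (yy (C G + X * C f)) -
          algebraMap (YY G f) (Localization.Away b)
            (algebraMap R[X] (YY G f) (C (1 - v))) := map_sub _ _ _
      have hrel2 := congrArg (algebraMap (YY G f) (Localization.Away b)) hrel
      rw [map_mul, map_mul, map_sub, map_sub, CHI.img1] at hrel2
      rw [hbe, CHI.img1] at hub
      refine CHI.inj (k := k) hv b
        (↑u⁻¹ * algebraMap (YY G f) (Localization.Away b) (algebraMap R[X] (YY G f) X))
        ?_ ?_ a ha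
      · generalize (↑u⁻¹ : Localization.Away b) = t at *
        linear_combination (-t) * hrel2 +
          (algebraMap (YY G f) (Localization.Away b) (yy (C G + X * C f)) -
          algebraMap (YY G f) (Localization.Away b) (algebraMap R[X] (YY G f) (C v))) * hub
      · rw [CHI.img2]
        generalize (↑u⁻¹ : Localization.Away b) = t at *
        linear_combination (-t ^ 2 * algebraMap (YY G f) (Localization.Away b)
          (algebraMap R[X] (YY G f) X)) * hrel2 +
          (algebraMap (YY G f) (Localization.Away b) (algebraMap R[X] (YY G f) X)) *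
          (1 + t * (algebraMap (YY G f) (Localization.Away b) (yy (C G + X * C f)) -
          algebraMap (YY G f) (Localization.Away b) (algebraMap R[X] (YY G f) (C v)))) * hub
    · rw [Localization.awayMap_surjective_iff]
      intro x
      refine CHI.surj (k := k) hv b ⟨algebraMap R[X] (YY G f) X, 1, ?_⟩ x
      change chi (k := k) (f := f) v hv (algebraMap R[X] (YY G f) X) =
        chi (k := k) (f := f) v hv b ^ 1 * X
      rw [chi_algebraMap, evs_X, hb]
      ring
  · refine ⟨algebraMap R[X] (YY G f) (C f), ?_, ?_, ?_⟩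
    · rw [chi_algebraMap, evs_C, CC_apply]
      exact hf
    · rw [Localization.awayMap_injective_iff]
      intro a ha
      obtain ⟨t, hub⟩ : ∃ t : Localization.Away (algebraMap R[X] (YY G f) (C f)),
          t * algebraMap (YY G f) (Localization.Away (algebraMap R[X] (YY G f) (C f)))
            (algebraMap R[X] (YY G f) (C f)) = 1 := by
        obtain ⟨u, hu⟩ : IsUnit (algebraMap (YY G f)
            (Localization.Away (algebraMap R[X] (YY G f) (C f)))
            (algebraMap R[X] (YY G f) (C f))) :=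
          IsLocalization.Away.algebraMap_isUnit _
        refine ⟨↑u⁻¹, ?_⟩
        rw [← hu]
        exact u.inv_mul
      have hrel2 := congrArg (algebraMap (YY G f)
        (Localization.Away (algebraMap R[X] (YY G f) (C f)))) hrel
      rw [map_mul, map_mul, map_sub, map_sub, CHI.img1] at hrel2
      refine CHI.inj (k := k) hv _
        (t * (algebraMap (YY G f) (Localization.Away (algebraMap R[X] (YY G f) (C f)))
          (yy (C G + X * C f)) -
          algebraMap (YY G f) (Localization.Away (algebraMap R[X] (YY G f) (C f)))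
            (algebraMap R[X] (YY G f) (C v)))) ?_ ?_ a ha
      · linear_combination (algebraMap (YY G f)
          (Localization.Away (algebraMap R[X] (YY G f) (C f))) (yy (C G + X * C f)) -
          algebraMap (YY G f) (Localization.Away (algebraMap R[X] (YY G f) (C f)))
            (algebraMap R[X] (YY G f) (C v))) * hub
      · rw [CHI.img2]
        linear_combination t * hrel2 +
          (algebraMap (YY G f) (Localization.Away (algebraMap R[X] (YY G f) (C f)))
            (algebraMap R[X] (YY G f) X) + t * (algebraMap (YY G f)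
          (Localization.Away (algebraMap R[X] (YY G f) (C f))) (yy (C G + X * C f)) -
          algebraMap (YY G f) (Localization.Away (algebraMap R[X] (YY G f) (C f)))
            (algebraMap R[X] (YY G f) (C v))) ^ 2) * hub
    · rw [Localization.awayMap_surjective_iff]
      intro x
      refine CHI.surj (k := k) hv _
        ⟨yy (C G + X * C f) - algebraMap R[X] (YY G f) (C v), 1, ?_⟩ x
      change chi (k := k) (f := f) v hv
        (yy (C G + X * C f) - algebraMap R[X] (YY G f) (C v)) =
        chi (k := k) (f := f) v hv (algebraMap R[X] (YY G f) (C f)) ^ 1 * X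
      rw [hyv, chi_algebraMap, evs_C, CC_apply]
      ring

end CUB


end

section

/-!
# CHI2: the charts and the sheets
-/

set_option autoImplicit false

open Polynomial

namespace CUB

namespace CHI2

variable {k : Type} [Field k] {R R' : Type} [CommRing R] [CommRing R'] [Algebra k R]
  [Algebra k R']

theorem comm {G f v : R} (hv : v ^ 2 - v = G) (u : Rˣ) (hu : (u : R) = 2 * v - 1)
    (ψ : R →ₐ[k] R') (hf : ψ f = 0) (h0 : (ψ v) ^ 2 - ψ v = ψ G) :
    (muH (k := k) (Units.map ψ.toRingHom.toMonoidHom u)).comp (shv ψ hf (ψ v) h0) =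
      (mapX ψ).comp (chi (k := k) (f := f) v hv) := by
  have hu' : ((Units.map ψ.toRingHom.toMonoidHom u : R'ˣ) : R') = ψ (2 * v - 1) := by
    rw [← hu]
    rfl
  apply Q_ext
  · intro P
    rw [AlgHom.comp_apply, AlgHom.comp_apply, shv_algebraMap, chi_algebraMap]
    have h1 := evs_unique ((CC k R').comp ψ) (C (ψ (2 * v - 1)) * X)
      ((muH (k := k) (Units.map ψ.toRingHom.toMonoidHom u)).comp (mapX ψ))
      (fun r => by
        rw [AlgHom.comp_apply]
        have : mapX ψ (C r) = C (ψ r) := Polynomial.map_C _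
        rw [this]
        exact mu_C _ _)
      (by
        rw [AlgHom.comp_apply]
        have : mapX ψ X = X := Polynomial.map_X _
        rw [this, ← hu']
        exact mu_X _)
    have h2 := evs_unique ((CC k R').comp ψ) (C (ψ (2 * v - 1)) * X)
      ((mapX ψ).comp (evs (CC k R) (X * (X * C f + C (2 * v - 1)))))
      (fun r => by
        rw [AlgHom.comp_apply, evs_C, CC_apply]
        exact Polynomial.map_C _)
      (by
        rw [AlgHom.comp_apply, evs_X]
        have h3 : mapX ψ (X * (X * C f + C (2 * v - 1))) =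
            X * (X * C (ψ f) + C (ψ (2 * v - 1))) := by
          simp [mapX]
        rw [h3, hf]
        simp [mul_comm])
    have h4 := AlgHom.congr_fun (h1.trans h2.symm) P
    exact h4
  · rw [AlgHom.comp_apply, AlgHom.comp_apply, shv_yy, chi_yy]
    have h3 : mapX ψ (C v + X * C f) = C (ψ v) + X * C (ψ f) := by
      simp [mapX]
    rw [h3, hf, C_0, mul_zero, add_zero]
    exact mu_C _ _

theorem chi_f {G f v : R} (hv : v ^ 2 - v = G) :
    chi (k := k) (f := f) v hv (algebraMap R[X] (YY G f) (C f)) = C f := by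
  rw [chi_algebraMap, evs_C, CC_apply]

theorem shv_f {G f : R} (ψ : R →ₐ[k] R') (hf : ψ f = 0) (w : R') (hw : w ^ 2 - w = ψ G) :
    shv ψ hf w hw (algebraMap R[X] (YY G f) (C f)) = 0 := by
  rw [shv_algebraMap]
  have : mapX ψ (C f) = C (ψ f) := Polynomial.map_C _
  rw [this, hf, C_0]

theorem mem_map_eq {A B : Type} [CommRing A] [CommRing B] (φ : A →+* B) (I : Ideal A) (a : A)
    (b : B) (ha : a ∈ I) (h : φ a = b) : b ∈ I.map φ := by
  subst h
  exact Ideal.mem_map_of_mem φ ha

theorem ker {G f v : R} (hv : v ^ 2 - v = G) (ψ : R →ₐ[k] R') (hf : ψ f = 0)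
    (hk : RingHom.ker ψ.toRingHom = Ideal.span {f}) (h0 : (ψ v) ^ 2 - ψ v = ψ G) :
    RingHom.ker (mapX ψ).toRingHom ≤
      (RingHom.ker (shv ψ hf (ψ v) h0).toRingHom).map
        (chi (k := k) (f := f) v hv).toRingHom := by
  have h1 : RingHom.ker (mapX ψ).toRingHom = Ideal.span {C f} := by
    have h2 : RingHom.ker (mapX ψ).toRingHom = RingHom.ker (Polynomial.mapRingHom ψ.toRingHom) :=
      rfl
    rw [h2, Polynomial.ker_mapRingHom, hk, Ideal.map_span, Set.image_singleton]
  rw [h1, Ideal.span_singleton_le_iff_mem]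
  have h3 : (chi (k := k) (f := f) v hv).toRingHom (algebraMap R[X] (YY G f) (C f)) = C f :=
    chi_f hv
  have h4 : algebraMap R[X] (YY G f) (C f) ∈ RingHom.ker (shv ψ hf (ψ v) h0).toRingHom := by
    rw [RingHom.mem_ker]
    exact shv_f ψ hf (ψ v) h0
  exact mem_map_eq _ _ _ _ h4 h3

theorem zero {G f v : R} (hv : v ^ 2 - v = G) (u : Rˣ) (hu : (u : R) = 2 * v - 1)
    (ψ : R →ₐ[k] R') (hψ : Function.Surjective ψ) (hf : ψ f = 0)
    (h1 : (1 - ψ v) ^ 2 - (1 - ψ v) = ψ G) (E : Type) [Field E] (n : ℕ)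
    (c₁ : RP k R'[X] n →₀ E) :
    IsPull k E 0 (chi (k := k) (f := f) v hv)
      (push E (shv ψ hf (1 - ψ v) h1) (shv_surjective ψ hψ hf _ h1) c₁) 0 := by
  intro P
  refine ⟨fun h => ?_, fun _ => rfl⟩
  symm
  refine Finsupp.mapDomain_of_notMem_range _ _ ?_
  rintro ⟨P', hP'⟩
  have h2 : (pushP (shv ψ hf (1 - ψ v) h1) (shv_surjective ψ hψ hf _ h1) P').1.asIdeal =
      P.1.asIdeal.comap (chi (k := k) (f := f) v hv).toRingHom := by
    rw [hP']
    rfl
  have h3 : ∀ b : YY G f, shv ψ hf (1 - ψ v) h1 b = 0 →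
      chi (k := k) (f := f) v hv b ∈ P.1.asIdeal := by
    intro b hb
    have h4 : b ∈ (pushP (shv ψ hf (1 - ψ v) h1) (shv_surjective ψ hψ hf _ h1) P').1.asIdeal := by
      change shv ψ hf (1 - ψ v) h1 b ∈ P'.1.asIdeal
      rw [hb]
      exact P'.1.asIdeal.zero_mem
    rw [h2] at h4
    exact h4
  have h5 := h3 _ (shv_f ψ hf (1 - ψ v) h1)
  rw [chi_f] at h5
  have h6 := h3 (yy (C G + X * C f) - algebraMap R[X] (YY G f) (C (1 - v))) (by
    rw [map_sub, shv_yy, shv_algebraMap]
    have : mapX ψ (C (1 - v)) = C (ψ (1 - v)) := Polynomial.map_C _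
    have h9 : ψ (1 - v) = 1 - ψ v := by rw [map_sub, map_one]
    rw [this, h9, sub_self])
  rw [map_sub, chi_yy, chi_algebraMap, evs_C, CC_apply] at h6
  have h7 : (C (u : R) : R[X]) ∈ P.1.asIdeal := by
    have h8 : (C (u : R) : R[X]) = (C v + X * C f - C (1 - v)) - X * C f := by
      rw [hu]
      simp only [map_sub, map_mul, map_one]
      have h2 : (C (2 : R) : R[X]) = 2 := rfl
      rw [h2]
      ring
    rw [h8]
    exact P.1.asIdeal.sub_mem h6 (P.1.asIdeal.mul_mem_left _ h5)
  exact P.1.2.ne_top (Ideal.eq_top_of_isUnit_mem _ h7 (u.isUnit.map C))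

end CHI2

open _root_.CUB.CHI2 in
theorem t_CHI2 : M_CHI2 := by
  intro hB hL k R R' E _ _ _ _ _ _ _ G f v hv u hu ψ hψ hf hk h0 h1 n c₀ c₁
  refine ⟨_, (hL.2 k R'[X] R'[X] E n (mu (Units.map ψ.toRingHom.toMonoidHom u)) c₀ _).2 rfl, ?_⟩
  have h2 := hB k (YY G f) R[X] R'[X] R'[X] E 0 n (chi (k := k) (f := f) v hv)
    (muH (Units.map ψ.toRingHom.toMonoidHom u)) (shv ψ hf (ψ v) h0) (mapX ψ)
    (shv_surjective ψ hψ hf _ h0) (mapX_surjective ψ hψ) (comm hv u hu ψ hf h0)
    (ker hv ψ hf hk h0) c₀ _
    ((hL.2 k R'[X] R'[X] E n (mu (Units.map ψ.toRingHom.toMonoidHom u)) c₀ _).2 rfl)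
  have h3 := (hL.1 k (YY G f) R[X] E 0 n _ _ _ _ _ 0 h2
    (zero hv u hu ψ hψ hf h1 E n c₁)).2.1
  rw [add_zero] at h3
  exact h3

end CUB


end

section

/-!
# CUB, block C: surjectivity on cycles, one equation (S_CS1)
-/

set_option autoImplicit false

open Polynomial

namespace CUB

namespace CS1

/-- The localisation homomorphism. -/
noncomputable abbrev locA (k : Type) {V : Type} [Field k] [CommRing V] [Algebra k V] (b : V) :
    V →ₐ[k] Localization.Away b := IsScalarTower.toAlgHom k V (Localization.Away b)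

lemma isLoc (k : Type) {V : Type} [Field k] [CommRing V] [Algebra k V] (b : V) :
    @IsLocalization.Away V _ b (Localization.Away b) _ (locA k b).toRingHom.toAlgebra := by
  have h : (locA k b).toRingHom.toAlgebra =
      (inferInstance : Algebra V (Localization.Away b)) := Algebra.algebra_ext _ _ (fun r => rfl)
  rw [h]
  infer_instance

/-- Every cycle of dimension `n + m + 1` on a polynomial ring in `m + 1` variables is a pull-back
from the base, up to rational equivalence. -/
lemma polyStep (hFP : S_FP) (hFPX : S_FPX) (hPLIN : S_PLIN) (hGCO : S_GCO) (hGX : S_GX)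
    (hL0 : S_L0) (hL0M : S_L0M) (k S E : Type) [Field k] [CommRing S] [Algebra k S]
    [Algebra.FiniteType k S] [Field E] (m n : ℕ)
    (c : RP k (MvPolynomial (Fin m) S)[X] (n + m + 1) →₀ E) :
    ∃ (z : RP k S n →₀ E) (d : RP k (MvPolynomial (Fin m) S)[X] (n + m + 1) →₀ E),
      IsPull k E (m + 1) ((CC k (MvPolynomial (Fin m) S)).comp
        (IsScalarTower.toAlgHom k S (MvPolynomial (Fin m) S))) z d ∧
      c - d ∈ rat k (MvPolynomial (Fin m) S)[X] E (n + m + 1) := by
  obtain ⟨v, d1, hd1, hc1⟩ := (hL0 k (MvPolynomial (Fin m) S) E).1 (n + m) c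
  obtain ⟨z, d', hd', hv⟩ := (hL0M k S E m).1 n v
  have hC : Good k 1 (CC k (MvPolynomial (Fin m) S)) := hGX.1 k (MvPolynomial (Fin m) S)
  have hS : Good k m (IsScalarTower.toAlgHom k S (MvPolynomial (Fin m) S)) := hGX.2 k S m
  obtain ⟨d'', hd''⟩ := hFPX k (MvPolynomial (Fin m) S) (MvPolynomial (Fin m) S)[X] E 1 (n + m)
    (CC k _) hC d'
  refine ⟨z, d'', ?_, ?_⟩
  · exact (hGCO.2.1 k S (MvPolynomial (Fin m) S) (MvPolynomial (Fin m) S)[X] E _ _ m n hS).1 hC
      z d' d'' hd' hd''
  · have h1 : IsPull k E 1 (CC k (MvPolynomial (Fin m) S)) (v - d') (d1 - d'') :=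
      (hPLIN.1 k _ _ E 1 (n + m) _ v d' d1 d'' 0 hd1 hd'').2.2.1
    have h2 := hFP k _ _ E 1 (n + m) _ hC ⊥ _ _ h1 hv
    rw [Ideal.map_bot] at h2
    have h3 : c - d'' = (c - d1) + (d1 - d'') := by abel
    rw [h3]
    exact Submodule.add_mem _ hc1 h2

/-- Push-forward along an isomorphism and its inverse. -/
lemma push_push_symm (hPCO : S_PCO) (k A B E : Type) [Field k] [CommRing A] [CommRing B]
    [Algebra k A] [Algebra k B] [Field E] (n : ℕ) (e : A ≃ₐ[k] B) (c : RP k A n →₀ E) :
    push E e.toAlgHom e.surjective (push E e.symm.toAlgHom e.symm.surjective c) = c := by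
  have h1 := hPCO.1 k A B A E n e.toAlgHom e.symm.toAlgHom (AlgHom.id k A) e.surjective
    e.symm.surjective Function.surjective_id (AlgHom.ext fun x => (e.symm_apply_apply x).symm) c
  rw [← h1]
  exact hPCO.2.1 k A E n (AlgHom.id k A) Function.surjective_id rfl c

/-- The same for a ring which is isomorphic to a polynomial ring in `m + 1` variables over a ring
`S`. -/
lemma isoStep (hFP : S_FP) (hFPX : S_FPX) (hPLIN : S_PLIN) (hGCO : S_GCO) (hGX : S_GX)
    (hPCO : S_PCO) (hL0 : S_L0) (hL0M : S_L0M) (k S B E : Type) [Field k] [CommRing S]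
    [CommRing B] [Algebra k S] [Algebra k B] [Algebra.FiniteType k S] [Algebra.FiniteType k B]
    [Field E] (m n : ℕ) (e : B ≃ₐ[k] (MvPolynomial (Fin m) S)[X])
    (c : RP k B (n + (m + 1)) →₀ E) :
    ∃ (z : RP k S n →₀ E) (d : RP k B (n + (m + 1)) →₀ E),
      IsPull k E (m + 1) (e.symm.toAlgHom.comp ((CC k (MvPolynomial (Fin m) S)).comp
        (IsScalarTower.toAlgHom k S (MvPolynomial (Fin m) S)))) z d ∧
      c - d ∈ rat k B E (n + (m + 1)) := by
  obtain ⟨z, d, hd, hc⟩ := polyStep hFP hFPX hPLIN hGCO hGX hL0 hL0M k S E m n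
    (push E e.symm.toAlgHom e.symm.surjective c)
  have hC : Good k 1 (CC k (MvPolynomial (Fin m) S)) := hGX.1 k (MvPolynomial (Fin m) S)
  have hS : Good k m (IsScalarTower.toAlgHom k S (MvPolynomial (Fin m) S)) := hGX.2 k S m
  have hCS : Good k (m + 1) ((CC k (MvPolynomial (Fin m) S)).comp
      (IsScalarTower.toAlgHom k S (MvPolynomial (Fin m) S))) :=
    hGCO.1 k S (MvPolynomial (Fin m) S) (MvPolynomial (Fin m) S)[X] _ _ m 1 hS hC
  have he : Good k 0 e.symm.toAlgHom := hGCO.2.2.2 k _ _ e.symm
  have hp : IsPull k E 0 e.symm.toAlgHom d (push E e.toAlgHom e.surjective d) :=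
    (hPLIN.2 k _ _ E _ e.symm d _).2 rfl
  refine ⟨z, push E e.toAlgHom e.surjective d, ?_, ?_⟩
  · exact (hGCO.2.1 k S (MvPolynomial (Fin m) S)[X] B E _ _ (m + 1) n hCS).2 he z d _ hd hp
  · refine (hPCO.2.2.1 k _ _ E _ e.symm _).1 ?_
    rw [map_sub]
    have h1 := push_push_symm hPCO k (MvPolynomial (Fin m) S)[X] B E (n + m + 1) e.symm d
    have h2 : push E e.symm.toAlgHom e.symm.surjective (push E e.toAlgHom e.surjective d) = d := h1
    rw [h2]
    exact hc

end CS1

theorem t_CS1 : M_CS1 := by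
  intro hFP hFPX hPLIN hGCO hGX hGLO hGVR hVRL hLOC hPUSH hPCO hKERQ hL0 hL0M
    k R R' E _ _ _ _ _ _ _ m n f l ψ hψ hker ζ
  set a : VR R f := VRbase (k := k) f (f l) with ha
  obtain ⟨e, he, -⟩ := hVRL k R (Localization.Away (f l)) (Localization.Away a) m f l
    (CS1.locA k (f l)) (CS1.locA k a) (CS1.isLoc k _) (CS1.isLoc k _)
  have hφ : Good k 0 (CS1.locA k a) := hGLO k _ _ (CS1.locA k a) a (CS1.isLoc k a)
  have hσ : Good k 0 (CS1.locA k (f l)) := hGLO k _ _ (CS1.locA k (f l)) (f l) (CS1.isLoc k _)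
  have hV : Good k (m + 1) (VRbase (k := k) f) := hGVR k R (m + 1) f
  -- the restriction of `ζ`
  obtain ⟨ζB, hζB⟩ := hFPX k (VR R f) (Localization.Away a) E 0 (n + (m + 1)) (CS1.locA k a) hφ ζ
  obtain ⟨z', dB, hdB, hrat⟩ := CS1.isoStep hFP hFPX hPLIN hGCO hGX hPCO hL0 hL0M k
    (Localization.Away (f l)) (Localization.Away a) E m n e ζB
  obtain ⟨z, hz⟩ := (hLOC k R (Localization.Away (f l)) E (CS1.locA k (f l)) (f l)
    (CS1.isLoc k _) n ⊥).2 z'
  obtain ⟨y, hy⟩ := hFPX k R (VR R f) E (m + 1) n (VRbase f) hV z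
  obtain ⟨yB, hyB⟩ := hFPX k (VR R f) (Localization.Away a) E 0 (n + (m + 1)) (CS1.locA k a) hφ y
  -- the two pull-backs agree
  have h1 : IsPull k E (m + 1) ((CS1.locA k a).comp (VRbase f)) z yB :=
    (hGCO.2.1 k R (VR R f) (Localization.Away a) E (VRbase f) (CS1.locA k a) (m + 1) n hV).2 hφ
      z y yB hy hyB
  have hC : Good k 1 (CC k (MvPolynomial (Fin m) (Localization.Away (f l)))) := hGX.1 k _
  have hS : Good k m (IsScalarTower.toAlgHom k (Localization.Away (f l))
      (MvPolynomial (Fin m) (Localization.Away (f l)))) := hGX.2 k _ m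
  have hCS : Good k (m + 1) ((CC k (MvPolynomial (Fin m) (Localization.Away (f l)))).comp
      (IsScalarTower.toAlgHom k (Localization.Away (f l))
        (MvPolynomial (Fin m) (Localization.Away (f l))))) :=
    hGCO.1 k _ _ _ _ _ m 1 hS hC
  have hes : Good k 0 e.symm.toAlgHom := hGCO.2.2.2 k _ _ e.symm
  have hall : Good k (m + 1) (e.symm.toAlgHom.comp
      ((CC k (MvPolynomial (Fin m) (Localization.Away (f l)))).comp
      (IsScalarTower.toAlgHom k (Localization.Away (f l))
        (MvPolynomial (Fin m) (Localization.Away (f l)))))) :=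
    hGCO.1 k _ _ _ _ _ (m + 1) 0 hCS hes
  have h2 : IsPull k E (m + 1) ((e.symm.toAlgHom.comp
      ((CC k (MvPolynomial (Fin m) (Localization.Away (f l)))).comp
      (IsScalarTower.toAlgHom k (Localization.Away (f l))
        (MvPolynomial (Fin m) (Localization.Away (f l)))))).comp (CS1.locA k (f l))) z dB :=
    hGCO.2.2.1 k R (Localization.Away (f l)) (Localization.Away a) E (CS1.locA k (f l)) _
      (m + 1) n hσ hall z z' dB hz hdB
  have h3 : (e.symm.toAlgHom.comp
      ((CC k (MvPolynomial (Fin m) (Localization.Away (f l)))).comp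
      (IsScalarTower.toAlgHom k (Localization.Away (f l))
        (MvPolynomial (Fin m) (Localization.Away (f l)))))).comp (CS1.locA k (f l)) =
      (CS1.locA k a).comp (VRbase f) := by
    refine AlgHom.ext fun r => ?_
    have h9 := he r
    have h10 : e.symm (Polynomial.C (MvPolynomial.C (CS1.locA k (f l) r))) =
        CS1.locA k a (VRbase (k := k) f r) := by
      rw [← h9, AlgEquiv.symm_apply_apply]
    exact h10
  rw [h3] at h2
  have h4 : yB = dB := (hPLIN.1 k R (Localization.Away a) E (m + 1) n _ z z yB dB 0 h1 h2).1 rfl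
  have h5 : IsPull k E 0 (CS1.locA k a) (ζ - y) (ζB - yB) :=
    (hPLIN.1 k _ _ E 0 (n + (m + 1)) _ ζ y ζB yB 0 hζB hyB).2.2.1
  have h6 : ζB - yB ∈ ratOn k E (n + (m + 1)) ((⊥ : Ideal (VR R f)).map
      (CS1.locA k a).toRingHom) := by
    rw [Ideal.map_bot, h4]
    exact hrat
  obtain ⟨ρ, hρ, hsupp⟩ := (hLOC k (VR R f) (Localization.Away a) E (CS1.locA k a) a
    (CS1.isLoc k a) (n + (m + 1)) ⊥).1 (ζ - y) (ζB - yB) h5 h6
  have h7 : RingHom.ker (VRmap ψ f).toRingHom = Ideal.span {a} := by
    rw [hKERQ.2.2.1 k R R' (m + 1) f ψ, hker, Ideal.map_span, Set.image_singleton]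
    rfl
  rw [← h7] at hsupp
  obtain ⟨ξ, hξ⟩ := ((hPUSH k (VR R f) (VR R' (fun j => ψ (f j))) E (VRmap ψ f)
    (VRmap_surjective ψ hψ f) (n + (m + 1))).2.2.2.1 (ζ - y - ρ)).1 hsupp
  refine ⟨z, y, ξ, hy, ?_⟩
  rw [hξ, sub_sub_cancel]
  exact hρ

end CUB


end
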