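import Mathlib
import Pool.Agent.QVM.C05
import Pool.Agent.QVM.C08

/-! Parts: CUB.A_GLI, CUB.A_PUSH, CUB.C_CS2, CUB.C_DLG, CUB.C_STP, CUB.C_WLO -/

section

/-!
# CUB: local isomorphisms are good
-/

set_option autoImplicit false

namespace CUB

open Polynomial

namespace GLI

variable {k A B : Type} [Field k] [CommRing A] [CommRing B] [Algebra k A] [Algebra k B]

lemma rdim_le (φ : A →ₐ[k] B) (P : PrimeSpectrum B) (b : A) (hb : φ b ∉ P.asIdeal)
    (hs : ∀ x : B, ∃ (a : A) (m : ℕ), φ a = φ b ^ m * x) :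
    rdim k P ≤ rdim k (PrimeSpectrum.comap φ.toRingHom P) := by
  unfold rdim
  have H : (PrimeSpectrum.comap φ.toRingHom P).asIdeal ≤ P.asIdeal.comap φ := le_refl _
  let ψ : (A ⧸ (PrimeSpectrum.comap φ.toRingHom P).asIdeal) →ₐ[k] (B ⧸ P.asIdeal) :=
    Ideal.quotientMapₐ P.asIdeal φ H
  have h1 : Function.Injective ψ := Ideal.quotientMap_injective' (H := H) (le_refl _)
  let _ : Algebra (A ⧸ (PrimeSpectrum.comap φ.toRingHom P).asIdeal) (B ⧸ P.asIdeal) :=
    ψ.toRingHom.toAlgebra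
  have hmap : ∀ x, algebraMap (A ⧸ (PrimeSpectrum.comap φ.toRingHom P).asIdeal)
      (B ⧸ P.asIdeal) x = ψ x := fun _ => rfl
  have hmk : ∀ a : A, ψ (Ideal.Quotient.mk _ a) = Ideal.Quotient.mk P.asIdeal (φ a) :=
    fun _ => rfl
  have : IsScalarTower k (A ⧸ (PrimeSpectrum.comap φ.toRingHom P).asIdeal) (B ⧸ P.asIdeal) :=
    IsScalarTower.of_algebraMap_eq (fun x => (ψ.commutes x).symm)
  have : FaithfulSMul (A ⧸ (PrimeSpectrum.comap φ.toRingHom P).asIdeal) (B ⧸ P.asIdeal) :=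
    (faithfulSMul_iff_algebraMap_injective _ _).mpr h1
  have : Algebra.IsAlgebraic (A ⧸ (PrimeSpectrum.comap φ.toRingHom P).asIdeal)
      (B ⧸ P.asIdeal) := by
    constructor
    intro x
    obtain ⟨x, rfl⟩ := Ideal.Quotient.mk_surjective x
    obtain ⟨a, m, ham⟩ := hs x
    refine ⟨C (Ideal.Quotient.mk _ b ^ m) * X - C (Ideal.Quotient.mk _ a), ?_, ?_⟩
    · intro h0
      have h2 := congrArg (fun q => coeff q 1) h0
      simp only [coeff_sub, coeff_C_mul, coeff_X_one, mul_one, coeff_C_succ, sub_zero,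
        coeff_zero] at h2

      have h4 : (Ideal.Quotient.mk (PrimeSpectrum.comap φ.toRingHom P).asIdeal b) = 0 :=
        eq_zero_of_pow_eq_zero h2
      rw [Ideal.Quotient.eq_zero_iff_mem] at h4
      exact hb h4
    · rw [map_sub, map_mul, aeval_C, aeval_X, aeval_C, hmap, hmap, map_pow, hmk, hmk, ham,
        map_mul, map_pow, sub_self]
  have h := trdeg_add_eq k (A ⧸ (PrimeSpectrum.comap φ.toRingHom P).asIdeal) (A := B ⧸ P.asIdeal)
  rw [trdeg_eq_zero (R := A ⧸ (PrimeSpectrum.comap φ.toRingHom P).asIdeal) (A := B ⧸ P.asIdeal),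
    add_zero] at h
  exact h.ge

lemma max_le (φ : A →ₐ[k] B) (P : PrimeSpectrum B) (b : A) (hb : φ b ∉ P.asIdeal)
    (hs : ∀ x : B, ∃ (a : A) (m : ℕ), φ a = φ b ^ m * x) :
    IsLocalRing.maximalIdeal (Localization.AtPrime P.asIdeal) ≤
      (PrimeSpectrum.comap φ.toRingHom P).asIdeal.map
        ((algebraMap B (Localization.AtPrime P.asIdeal)).comp φ.toRingHom) := by
  rw [← Localization.AtPrime.map_eq_maximalIdeal, Ideal.map_le_iff_le_comap]
  intro x hx
  rw [Ideal.mem_comap]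
  obtain ⟨a, m, ham⟩ := hs x
  have h1 : φ a ∈ P.asIdeal := by
    rw [ham]
    exact P.asIdeal.mul_mem_left _ hx
  have h2 : algebraMap B (Localization.AtPrime P.asIdeal) (φ a) ∈
      (PrimeSpectrum.comap φ.toRingHom P).asIdeal.map
        ((algebraMap B (Localization.AtPrime P.asIdeal)).comp φ.toRingHom) :=
    Ideal.mem_map_of_mem ((algebraMap B (Localization.AtPrime P.asIdeal)).comp φ.toRingHom)
      (show a ∈ (PrimeSpectrum.comap φ.toRingHom P).asIdeal from h1)
  rw [ham, map_mul] at h2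
  have h3 : IsUnit (algebraMap B (Localization.AtPrime P.asIdeal) (φ b ^ m)) := by
    refine IsLocalization.map_units (Localization.AtPrime P.asIdeal)
      (⟨φ b ^ m, ?_⟩ : P.asIdeal.primeCompl)
    intro h
    exact hb (P.isPrime.mem_of_pow_mem m h)
  exact (Ideal.unit_mul_mem_iff_mem _ h3).mp h2

lemma flat (φ : A →ₐ[k] B)
    (h : ∀ P : PrimeSpectrum B, ∃ b : A, φ b ∉ P.asIdeal ∧
      Function.Bijective (Localization.awayMap φ.toRingHom b)) : φ.toRingHom.Flat := by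
  refine RingHom.Flat.ofLocalizationSpanTarget φ.toRingHom
    {y | ∃ b : A, y = φ b ∧ Function.Bijective (Localization.awayMap φ.toRingHom b)} ?_ ?_
  · by_contra hne
    obtain ⟨M, hM, hle⟩ := Ideal.exists_le_maximal _ hne
    obtain ⟨b, hb, hbij⟩ := h ⟨M, hM.isPrime⟩
    exact hb (hle (Ideal.subset_span ⟨b, rfl, hbij⟩))
  · rintro ⟨y, b, rfl, hbij⟩
    have h1 : (Localization.awayMap φ.toRingHom b).Flat := RingHom.Flat.of_bijective hbij
    have h2 : (algebraMap A (Localization.Away b)).Flat :=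
      RingHom.flat_algebraMap_iff.mpr (IsLocalization.flat _ (Submonoid.powers b))
    have h3 := h2.comp h1
    have h4 : (algebraMap B (Localization.Away (φ b))).comp φ.toRingHom =
        (Localization.awayMap φ.toRingHom b).comp (algebraMap A (Localization.Away b)) := by
      ext x
      rw [RingHom.comp_apply, RingHom.comp_apply]
      exact (IsLocalization.map_eq _ _).symm
    rw [← h4] at h3
    exact h3

end GLI

theorem t_GLI : S_GLI := by
  intro k A B _ _ _ _ _ _ _ φ h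
  refine ⟨GLI.flat φ h, fun P => ?_⟩
  obtain ⟨b, hb, hbij⟩ := h P
  have hs : ∀ x : B, ∃ (a : A) (m : ℕ), φ a = φ b ^ m * x := fun x =>
    Localization.awayMap_surjective_iff.mp hbij.2 x
  refine ⟨?_, fun _ => GLI.max_le φ P b hb hs⟩
  have h1 := GLI.rdim_le φ P b hb hs
  simpa using h1

end CUB


end

section

/-!
# CUB, module PUSH: push-forward of cycles along closed immersions
-/

set_option autoImplicit false

open Polynomial

namespace CUB

namespace PUSH

lemma len_zero {A : Type} [CommRing A] (I : Ideal A) (p : PrimeSpectrum A)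
    (h : ¬ I ≤ p.asIdeal) : len I p = 0 := by
  unfold len
  obtain ⟨x, hx, hxp⟩ := Set.not_subset.mp h
  have h1 : I.map (algebraMap A (Localization.AtPrime p.asIdeal)) = ⊤ := by
    apply Ideal.eq_top_of_isUnit_mem _ (Ideal.mem_map_of_mem _ hx)
    exact IsLocalization.map_units (M := p.asIdeal.primeCompl) _ ⟨x, hxp⟩
  rw [h1]
  have h2 : Subsingleton (Localization.AtPrime p.asIdeal ⧸
      (⊤ : Ideal (Localization.AtPrime p.asIdeal))) := Ideal.Quotient.subsingleton_iff.mpr rfl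
  rw [Module.length_eq_zero]
  rfl

variable {k A B E : Type} [Field k] [CommRing A] [CommRing B] [Algebra k A] [Algebra k B]
  [Field E]

lemma pushP_inj (φ : A →ₐ[k] B) (hφ : Function.Surjective φ) (n : ℕ) :
    Function.Injective (pushP (n := n) φ hφ) := by
  intro P P' h
  apply Subtype.ext
  have h1 : PrimeSpectrum.comap φ.toRingHom P.1 = PrimeSpectrum.comap φ.toRingHom P'.1 :=
    congrArg Subtype.val h
  exact PrimeSpectrum.comap_injective_of_surjective φ.toRingHom hφ h1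

lemma mem_range_iff (φ : A →ₐ[k] B) (hφ : Function.Surjective φ) (n : ℕ) (p : RP k A n) :
    p ∈ Set.range (pushP (n := n) φ hφ) ↔ RingHom.ker φ.toRingHom ≤ p.1.asIdeal := by
  constructor
  · rintro ⟨P, rfl⟩
    intro x hx
    change φ x ∈ P.1.asIdeal
    have h : φ x = 0 := hx
    rw [h]
    exact P.1.asIdeal.zero_mem
  · intro h
    have h1 : p.1 ∈ Set.range (PrimeSpectrum.comap φ.toRingHom) := by
      rw [range_comap_of_surjective _ _ hφ]
      exact h
    obtain ⟨P, hP⟩ := h1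
    refine ⟨⟨P, ?_⟩, Subtype.ext hP⟩
    rw [← rdim_comap φ hφ P, hP]
    exact p.2

lemma push_apply {n : ℕ} (φ : A →ₐ[k] B) (hφ : Function.Surjective φ) (c : RP k B n →₀ E)
    (P : RP k B n) : push E φ hφ c (pushP φ hφ P) = c P :=
  Finsupp.mapDomain_apply (pushP_inj φ hφ n) c P

lemma push_zero {n : ℕ} (φ : A →ₐ[k] B) (hφ : Function.Surjective φ) (c : RP k B n →₀ E)
    (p : RP k A n) (hp : ¬ RingHom.ker φ.toRingHom ≤ p.1.asIdeal) : push E φ hφ c p = 0 := by
  apply Finsupp.mapDomain_of_notMem_range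
  rw [mem_range_iff]
  exact hp

lemma push_inj (φ : A →ₐ[k] B) (hφ : Function.Surjective φ) (n : ℕ) :
    Function.Injective (push E (n := n) φ hφ) :=
  Finsupp.mapDomain_injective (pushP_inj φ hφ n)

lemma supp_iff {n : ℕ} (φ : A →ₐ[k] B) (hφ : Function.Surjective φ) (c : RP k A n →₀ E) :
    SuppOn k E (RingHom.ker φ.toRingHom) c ↔ ∃ c' : RP k B n →₀ E, push E φ hφ c' = c := by
  constructor
  · intro h
    refine ⟨Finsupp.comapDomain (pushP φ hφ) c (pushP_inj φ hφ n).injOn, ?_⟩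
    apply Finsupp.mapDomain_comapDomain _ (pushP_inj φ hφ n)
    intro p hp
    rw [mem_range_iff]
    exact h p (Finsupp.mem_support_iff.mp hp)
  · rintro ⟨c', rfl⟩ p hp
    by_contra hcon
    exact hp (push_zero φ hφ c' p hcon)

/-- Comparison of the ideals. -/
lemma ideal_eq {A B : Type} [CommRing A] [CommRing B] (φ : A →+* B)
    (hφ : Function.Surjective φ) (Q : Ideal B) (a : A) :
    (Q ⊔ Ideal.span {φ a}).comap φ = Q.comap φ ⊔ Ideal.span {a} := by
  have h1 : (Q.comap φ ⊔ Ideal.span {a}).map φ = Q ⊔ Ideal.span {φ a} := by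
    rw [Ideal.map_sup, Ideal.map_comap_of_surjective φ hφ, Ideal.map_span, Set.image_singleton]
  rw [← h1, Ideal.comap_map_of_surjective φ hφ]
  apply sup_eq_left.mpr
  exact (Ideal.comap_mono bot_le).trans le_sup_left

lemma dv_iff (hL : S_LENA) {n : ℕ} (φ : A →ₐ[k] B) (hφ : Function.Surjective φ)
    (Q : RP k B (n + 1)) (a : A) (c : RP k B n →₀ E) :
    IsDv k E (pushP φ hφ Q).1 a (push E φ hφ c) ↔ IsDv k E Q.1 (φ a) c := by
  have key : ∀ P : RP k B n, len ((pushP φ hφ Q).1.asIdeal ⊔ Ideal.span {a}) (pushP φ hφ P).1 =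
      len (Q.1.asIdeal ⊔ Ideal.span {φ a}) P.1 := by
    intro P
    rw [← hL A B φ.toRingHom hφ (Q.1.asIdeal ⊔ Ideal.span {φ a}) P.1]
    have h := ideal_eq φ.toRingHom hφ Q.1.asIdeal a
    have h2 : (Q.1.asIdeal ⊔ Ideal.span {φ a}).comap φ.toRingHom =
      (pushP φ hφ Q).1.asIdeal ⊔ Ideal.span {a} := h
    rw [h2]
    rfl
  constructor
  · intro h P
    have h1 := h (pushP φ hφ P)
    rw [push_apply, key P] at h1
    exact h1
  · intro h p
    by_cases hp : RingHom.ker φ.toRingHom ≤ p.1.asIdeal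
    · obtain ⟨P, rfl⟩ := (mem_range_iff φ hφ n p).mpr hp
      rw [push_apply, key P]
      exact h P
    · rw [push_zero φ hφ c p hp, len_zero, Nat.cast_zero]
      intro hle
      apply hp
      have h3 : RingHom.ker φ.toRingHom ≤ (pushP φ hφ Q).1.asIdeal :=
        (mem_range_iff φ hφ (n + 1) (pushP φ hφ Q)).mp ⟨Q, rfl⟩
      exact (h3.trans le_sup_left).trans hle

lemma ratOn_eq (hL : S_LENA) {n : ℕ} (φ : A →ₐ[k] B) (hφ : Function.Surjective φ)
    (J : Ideal B) :
    ratOn k E n (J.comap φ.toRingHom) = Submodule.map (push E φ hφ) (ratOn k E n J) := by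
  apply le_antisymm
  · unfold ratOn
    rw [Submodule.span_le]
    rintro d ⟨q, a, hJ, ha, hd⟩
    have hk : RingHom.ker φ.toRingHom ≤ q.1.asIdeal :=
      (Ideal.comap_mono (bot_le : (⊥ : Ideal B) ≤ J)).trans hJ
    obtain ⟨Q, rfl⟩ := (mem_range_iff φ hφ (n + 1) q).mpr hk
    have hs : SuppOn k E (RingHom.ker φ.toRingHom) d := by
      intro p hp
      by_contra hcon
      apply hp
      rw [hd p, len_zero, Nat.cast_zero]
      intro hle
      exact hcon ((hk.trans le_sup_left).trans hle)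
    obtain ⟨c, rfl⟩ := (supp_iff φ hφ d).mp hs
    refine ⟨c, Submodule.subset_span ⟨Q, φ a, ?_, ?_, (dv_iff hL φ hφ Q a c).mp hd⟩, rfl⟩
    · intro b hb
      obtain ⟨x, rfl⟩ := hφ b
      exact hJ hb
    · exact ha
  · unfold ratOn
    rw [Submodule.map_span, Submodule.span_le]
    rintro _ ⟨c, ⟨Q, b, hJ, hb, hc⟩, rfl⟩
    obtain ⟨a, rfl⟩ := hφ b
    exact Submodule.subset_span ⟨pushP φ hφ Q, a, Ideal.comap_mono hJ, hb,
      (dv_iff hL φ hφ Q a c).mpr hc⟩

end PUSH

open _root_.CUB.PUSH in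
theorem t_PUSH : M_PUSH := by
  intro hL k A B E _ _ _ _ _ _ φ hφ n
  have h2 : ∀ (J : Ideal B) (c : RP k B n →₀ E),
      push E φ hφ c ∈ ratOn k E n (J.comap φ.toRingHom) ↔ c ∈ ratOn k E n J := by
    intro J c
    rw [ratOn_eq hL φ hφ J]
    constructor
    · rintro ⟨c', hc', he⟩
      rw [← push_inj φ hφ n he]
      exact hc'
    · intro h
      exact ⟨c, h, rfl⟩
  refine ⟨push_inj φ hφ n, h2, ?_, supp_iff φ hφ, ?_⟩
  · intro c hc
    exact (h2 ⊥ c).mpr hc
  · intro c hc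
    have h3 : c ∈ Submodule.map (push E φ hφ) (ratOn k E n (⊥ : Ideal B)) := by
      rw [← ratOn_eq hL φ hφ ⊥]
      exact hc
    obtain ⟨c', -, rfl⟩ := h3
    exact (supp_iff φ hφ _).mpr ⟨c', rfl⟩

end CUB


end

section

/-!
# Module CS2: several equations
-/

set_option autoImplicit false

open Polynomial

namespace CUB

namespace CS2

lemma sq {k R S : Type} [Field k] [CommRing R] [CommRing S] [Algebra k R] [Algebra k S] {m : ℕ}
    (f : Fin m → R) (ψ : R →ₐ[k] S) :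
    (VRbase (k := k) (fun j => ψ (f j))).comp ψ = (VRmap ψ f).comp (VRbase f) := by
  ext r
  have h1 : VRmap ψ f (algebraMap (MvPolynomial (Fin m) R) (VR R f) (MvPolynomial.C r)) =
      algebraMap _ (VR S fun j => ψ (f j)) (MvPolynomial.mapAlgHom ψ (MvPolynomial.C r)) :=
    Qmap_algebraMap _ _ _
  have h2 : MvPolynomial.mapAlgHom ψ (MvPolynomial.C (σ := Fin m) r) = MvPolynomial.C (ψ r) := by
    simp
  rw [h2] at h1
  exact h1.symm

lemma qcomp {k T S U : Type} [Field k] [CommRing T] [CommRing S] [CommRing U] [Algebra k T]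
    [Algebra k S] [Algebra k U] {g : T} {g' : S} {g'' : U} (φ : T →ₐ[k] S) (χ : S →ₐ[k] U)
    (ω : T →ₐ[k] U) (h : φ g = g') (h' : χ g' = g'') (h'' : ω g = g'') (hω : ω = χ.comp φ) :
    Qmap ω h'' = (Qmap χ h').comp (Qmap φ h) := by
  subst hω
  apply Q_ext
  · intro t
    rw [AlgHom.comp_apply, Qmap_algebraMap, Qmap_algebraMap, Qmap_algebraMap]
    rfl
  · rw [AlgHom.comp_apply, Qmap_yy, Qmap_yy, Qmap_yy]

lemma vrcomp {k R R₁ S : Type} [Field k] [CommRing R] [CommRing R₁] [CommRing S] [Algebra k R]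
    [Algebra k R₁] [Algebra k S] {m : ℕ} (f : Fin m → R) (ψ₁ : R →ₐ[k] R₁) (ψ' : R₁ →ₐ[k] S) :
    VRmap (ψ'.comp ψ₁) f = (VRmap ψ' (fun j => ψ₁ (f j))).comp (VRmap ψ₁ f) := by
  have h4 : (MvPolynomial.mapAlgHom (σ := Fin m) (ψ'.comp ψ₁)) =
      (MvPolynomial.mapAlgHom ψ').comp (MvPolynomial.mapAlgHom ψ₁) := by
    refine AlgHom.ext fun t => ?_
    rw [AlgHom.comp_apply, MvPolynomial.mapAlgHom_apply, MvPolynomial.mapAlgHom_apply,
      MvPolynomial.mapAlgHom_apply, MvPolynomial.map_map]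
    rfl
  exact qcomp _ _ _ _ _ _ h4

end CS2

open _root_.CUB.CS2 in
theorem t_CS2 : M_CS2 := by
  intro hPUSH hRON hPLIN hPBC _ _ hPCO hKERQ hCS1 k E _ _ m n L
  induction L with
  | nil =>
    intro R R' _ _ _ _ _ f ψ hψ hker ζ
    have hk : RingHom.ker (VRmap ψ f).toRingHom = ⊥ := by
      rw [hKERQ.2.2.1, hker]
      simp
    obtain ⟨ξ, hξ⟩ := ((hPUSH k (VR R f) (VR R' fun j => ψ (f j)) E (VRmap ψ f)
      (VRmap_surjective ψ hψ f) (n + (m + 1))).2.2.2.1 ζ).1 (by
        intro p _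
        rw [hk]
        exact bot_le)
    refine ⟨0, 0, ξ, fun P => ⟨fun _ => rfl, fun _ => rfl⟩, ?_⟩
    rw [hξ, sub_zero, sub_self]
    exact Submodule.zero_mem _
  | cons l L ih =>
    intro R R' _ _ _ _ _ f ψ hψ hker ζ
    obtain ⟨I, hI⟩ : ∃ I : Ideal R, I = Ideal.span {f l} := ⟨_, rfl⟩
    have hIk : ∀ a ∈ I, ψ a = 0 := by
      intro a ha
      have h1 : I ≤ RingHom.ker ψ.toRingHom := by
        rw [hker, hI]
        apply Ideal.span_mono
        rintro _ rfl
        exact ⟨l, List.mem_cons_self, rfl⟩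
      exact RingHom.mem_ker.1 (h1 ha)
    obtain ⟨ψ', hcomp⟩ : ∃ ψ' : (R ⧸ I) →ₐ[k] R', ψ = ψ'.comp (Ideal.Quotient.mkₐ k I) :=
      ⟨Ideal.Quotient.liftₐ I ψ hIk, (Ideal.Quotient.liftₐ_comp I ψ hIk).symm⟩
    have hψ₁ : Function.Surjective (Ideal.Quotient.mkₐ k I) := Ideal.Quotient.mkₐ_surjective k I
    have hker₁ : RingHom.ker (Ideal.Quotient.mkₐ k I).toRingHom = Ideal.span {f l} := by
      rw [← hI]
      exact Ideal.Quotient.mkₐ_ker k I
    have hft : Algebra.FiniteType k (R ⧸ I) :=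
      Algebra.FiniteType.of_surjective (Ideal.Quotient.mkₐ k I) hψ₁
    obtain ⟨ψ₁, hψ₁e⟩ : ∃ ψ₁, ψ₁ = Ideal.Quotient.mkₐ k I := ⟨_, rfl⟩
    rw [← hψ₁e] at hcomp hψ₁ hker₁
    clear hψ₁e
    subst hcomp
    have hψ' : Function.Surjective ψ' := by
      intro x
      obtain ⟨a, ha⟩ := hψ x
      exact ⟨ψ₁ a, ha⟩
    have hker' : RingHom.ker ψ'.toRingHom =
        Ideal.span ((fun j => ψ₁ (f j)) '' {j | j ∈ L}) := by
      have h1 : RingHom.ker (ψ'.comp ψ₁).toRingHom = (RingHom.ker ψ'.toRingHom).comap ψ₁.toRingHom := by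
        ext x
        rfl
      have h2 : RingHom.ker ψ'.toRingHom = (RingHom.ker (ψ'.comp ψ₁).toRingHom).map ψ₁.toRingHom := by
        rw [h1]
        exact (Ideal.map_comap_of_surjective ψ₁.toRingHom hψ₁ _).symm
      rw [h2, hker, Ideal.map_span]
      apply le_antisymm
      · rw [Ideal.span_le]
        rintro _ ⟨_, ⟨j, hj, rfl⟩, rfl⟩
        rcases List.mem_cons.1 hj with hj | hj
        · subst hj
          have h3 : f j ∈ RingHom.ker ψ₁.toRingHom := by
            rw [hker₁]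
            exact Ideal.subset_span rfl
          have h4 : ψ₁.toRingHom (f j) = 0 := RingHom.mem_ker.1 h3
          rw [h4]
          exact Ideal.zero_mem _
        · exact Ideal.subset_span ⟨j, hj, rfl⟩
      · rw [Ideal.span_le]
        rintro _ ⟨j, hj, rfl⟩
        exact Ideal.subset_span ⟨f j, ⟨j, List.mem_cons_of_mem _ hj, rfl⟩, rfl⟩
    obtain ⟨z₁, y₁, ξ₁, hp₁, hr₁⟩ := hCS1 k R (R ⧸ I) E m n f l ψ₁ hψ₁ hker₁ ζ
    obtain ⟨z₂, y₂, ξ, hp₂, hr₂⟩ := ih (R ⧸ I) R' (fun j => ψ₁ (f j)) ψ' hψ' hker' ξ₁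
    have hs₁ : Function.Surjective (VRmap ψ₁ f) := VRmap_surjective ψ₁ hψ₁ f
    have hs₂ : Function.Surjective (VRmap ψ' fun j => ψ₁ (f j)) := VRmap_surjective ψ' hψ' _
    have hp₃ : IsPull k E (m + 1) (VRbase f) (push E ψ₁ hψ₁ z₂) (push E (VRmap ψ₁ f) hs₁ y₂) := by
      refine hPBC k R (VR R f) (R ⧸ I) (VR (R ⧸ I) fun j => ψ₁ (f j)) E (m + 1) n (VRbase f)
        (VRbase fun j => ψ₁ (f j)) ψ₁ (VRmap ψ₁ f) hψ₁ hs₁ (sq f ψ₁) ?_ z₂ y₂ hp₂
      rw [hKERQ.2.2.1]
    have e : push E (VRmap (ψ'.comp ψ₁) f) (VRmap_surjective (ψ'.comp ψ₁) hψ f) ξ =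
        push E (VRmap ψ₁ f) hs₁ (push E (VRmap ψ' fun j => ψ₁ (f j)) hs₂ ξ) :=
      hPCO.1 k _ _ _ E _ (VRmap ψ₁ f) (VRmap ψ' fun j => ψ₁ (f j)) (VRmap (ψ'.comp ψ₁) f) hs₁ hs₂
        (VRmap_surjective (ψ'.comp ψ₁) hψ f) (vrcomp f ψ₁ ψ') ξ
    refine ⟨z₁ + push E ψ₁ hψ₁ z₂, y₁ + push E (VRmap ψ₁ f) hs₁ y₂, ξ,
      (hPLIN.1 k R (VR R f) E (m + 1) n (VRbase f) z₁ (push E ψ₁ hψ₁ z₂) y₁
        (push E (VRmap ψ₁ f) hs₁ y₂) 0 hp₁ hp₃).2.1, ?_⟩
    have hm : push E (VRmap ψ₁ f) hs₁ (ξ₁ - y₂ - push E (VRmap ψ' fun j => ψ₁ (f j)) hs₂ ξ) ∈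
        rat k (VR R f) E (n + (m + 1)) := by
      have h5 := (hPUSH k (VR R f) (VR (R ⧸ I) fun j => ψ₁ (f j)) E (VRmap ψ₁ f) hs₁
        (n + (m + 1))).2.2.1 _ hr₂
      exact hRON k (VR R f) E (n + (m + 1)) ⊥ _ bot_le h5
    have hfin := Submodule.add_mem _ hr₁ hm
    rw [map_sub, map_sub, ← e] at hfin
    have h6 : ζ - (y₁ + push E (VRmap ψ₁ f) hs₁ y₂) -
        push E (VRmap (ψ'.comp ψ₁) f) (VRmap_surjective (ψ'.comp ψ₁) hψ f) ξ =
        ζ - y₁ - push E (VRmap ψ₁ f) (VRmap_surjective ψ₁ hψ₁ f) ξ₁ +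
        (push E (VRmap ψ₁ f) hs₁ ξ₁ - push E (VRmap ψ₁ f) hs₁ y₂ -
          push E (VRmap (ψ'.comp ψ₁) f) (VRmap_surjective (ψ'.comp ψ₁) hψ f) ξ) := by
      abel
    exact h6 ▸ hfin

end CUB


end

section

/-!
# CUB, block C: the case of a generator not contained in `f = 0`
-/

set_option autoImplicit false

open Polynomial

namespace CUB

namespace DLG

variable {k R E K : Type} [Field k] [CommRing R] [Algebra k R] [Field E] [Field K] [Algebra k K]

/-- the point in the chart -/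
noncomputable def spt {G f : R} (κ : YY G f →ₐ[k] K) (θ : R →ₐ[k] K) (v : R) : K :=
  (κ (yy (C G + X * C f)) - θ v) / θ f

lemma dim_ge {A B : Type} [CommRing A] [CommRing B] [Algebra k A] [Algebra k B] (φ : A →ₐ[k] B)
    (P : PrimeSpectrum B) : rdim k (PrimeSpectrum.comap φ.toRingHom P) ≤ rdim k P := by
  unfold rdim
  have H : (PrimeSpectrum.comap φ.toRingHom P).asIdeal ≤ P.asIdeal.comap φ := le_refl _
  have h1 : Function.Injective (Ideal.quotientMapₐ P.asIdeal φ H) :=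
    Ideal.quotientMap_injective' (H := H) (le_refl _)
  exact trdeg_le_of_injective _ h1

lemma l1 {K : Type} [Field K] (s w : K) (_ : s ≠ 0) (ht : s + w ≠ 0) :
    (s + w)⁻¹ / s⁻¹ - 1 = -w * (s + w)⁻¹ := by
  field_simp
  ring

lemma l2 {K : Type} [Field K] (t w : K) (ht : t ≠ 0) (hw : w ≠ 0) : t = -w * (-w * t⁻¹)⁻¹ := by
  field_simp

lemma l3 {K : Type} [Field K] (g f : K) (hg : g ≠ 0) : f⁻¹ = g * (g * f)⁻¹ := by
  rw [mul_inv, mul_inv_cancel_left₀ hg]

/-- one chart -/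
lemma one [Algebra.FiniteType k R] (hFPD : S_FPD) (hCHI : S_CHI) (hCHIV : S_CHIV)
    {G f : R} {n : ℕ} (D : ValuationSubring K → K → K → (RP k R n →₀ E)) (θ : R →ₐ[k] K)
    (κ : YY G f →ₐ[k] K)
    (hD : ∀ (s : K) (P : R[X]) (q : RP k R[X] (n + 1 + 1)) (c : RP k R[X] (n + 1) →₀ E)
      (d : RP k R n →₀ E), (∀ x : K, ∃ A B : R[X], evs θ s B ≠ 0 ∧ x * evs θ s B = evs θ s A) →
      q.1.asIdeal = RingHom.ker (evs θ s).toRingHom → P ∉ q.1.asIdeal → IsDv k E q.1 P c →
      IsBeta k E c d →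
      ∃ h : (VV n θ s).Finite, d = ∑ O ∈ h.toFinset, D O (evs θ s P) s⁻¹)
    (hθ : ∀ r, θ r = κ (algebraMap R[X] (YY G f) (C r))) (hf : θ f ≠ 0)
    (hfr : ∀ x : K, ∃ A B : YY G f, κ B ≠ 0 ∧ x * κ B = κ A)
    (q : RP k (YY G f) (n + 1 + 1)) (hq : q.1.asIdeal = RingHom.ker κ.toRingHom)
    (a : YY G f) (c : RP k (YY G f) (n + 1) →₀ E) (ha : a ∉ q.1.asIdeal)
    (hc : IsDv k E q.1 a c) (v : R) (hv : v ^ 2 - v = G) (hu : IsUnit (2 * v - 1))
    (e : RP k R[X] (n + 1) →₀ E) (d : RP k R n →₀ E) (he : IsPull k E 0 (chi v hv) c e)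
    (hd : IsBeta k E e d) :
    ∃ h : (VV n θ (spt κ θ v)).Finite, d = ∑ O ∈ h.toFinset, D O (κ a) (spt κ θ v)⁻¹ := by
  obtain ⟨c1, c2⟩ := hCHIV k R K G f v hv κ θ hθ hf
  have hgood := hCHI k R G f v hv hu
  change (evs θ (spt κ θ v)).comp (chi (k := k) (f := f) v hv) = κ at c1
  change ∀ P : Ideal R[X], P.IsPrime → P.comap (chi (k := k) (f := f) v hv).toRingHom =
    RingHom.ker κ.toRingHom → P = RingHom.ker (evs θ (spt κ θ v)).toRingHom at c2
  set s : K := spt κ θ v with hs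
  have c1' : ∀ y, evs θ s (chi (k := k) (f := f) v hv y) = κ y := fun y =>
    AlgHom.congr_fun c1 y
  -- the prime over `q`
  have hpr : (RingHom.ker (evs θ s).toRingHom).IsPrime := RingHom.ker_isPrime _
  let P0 : PrimeSpectrum R[X] := ⟨RingHom.ker (evs θ s).toRingHom, hpr⟩
  have hcom : PrimeSpectrum.comap (chi (k := k) (f := f) v hv).toRingHom P0 = q.1 := by
    apply PrimeSpectrum.ext
    rw [hq]
    ext y
    change evs θ s (chi (k := k) (f := f) v hv y) = 0 ↔ κ y = 0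
    rw [c1']
  have hdim : rdim k P0 = ((n + 1 + 1 : ℕ) : Cardinal) := by
    apply le_antisymm
    · have h1 := (hgood.at' P0).1
      rw [hcom, q.2] at h1
      simpa using h1
    · have h1 := dim_ge (chi (k := k) (f := f) v hv) P0
      rw [hcom, q.2] at h1
      exact h1
  let Q0 : RP k R[X] (n + 1 + 1) := ⟨P0, hdim⟩
  obtain ⟨S, e', hS, hS', hde⟩ := hFPD k (YY G f) R[X] E 0 (n + 1) (chi v hv) hgood q a c e ha hc he
  have hQS : Q0 ∈ S := (hS Q0).2 hcom
  have hSs : S = {Q0} := by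
    ext P
    rw [Finset.mem_singleton]
    constructor
    · intro hP
      have h1 := (hS P).1 hP
      apply Subtype.ext
      apply PrimeSpectrum.ext
      refine c2 P.1.asIdeal P.1.isPrime ?_
      rw [← hq, ← h1]
      rfl
    · rintro rfl
      exact hQS
  rw [hSs, Finset.sum_singleton] at hde
  obtain ⟨g1, g2⟩ := hS' Q0 hQS
  rw [← hde] at g2
  have h3 := hD s (chi v hv a) Q0 e d ?_ rfl g1 g2 hd
  · rw [c1'] at h3
    exact h3
  · intro x
    obtain ⟨A, B, hB, hx⟩ := hfr x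
    refine ⟨chi (k := k) v hv A, chi (k := k) v hv B, ?_, ?_⟩
    · rw [c1']
      exact hB
    · rw [c1', c1']
      exact hx

end DLG

open _root_.CUB.DLG in
theorem t_DLG : M_DLG := by
  classical
  intro hR hFPD hCHI hCHIV k R E _ _ _ _ _ _ G f v hv hu n q a c e₀ e₁ d₀ d₁ hfq ha hc he₀ he₁
    hd₀ hd₁
  let A := YY G f ⧸ q.1.asIdeal
  have hdom : IsDomain A := Ideal.Quotient.isDomain q.1.asIdeal
  let K := FractionRing A
  let κ : YY G f →ₐ[k] K := (IsScalarTower.toAlgHom k A K).comp (Ideal.Quotient.mkₐ k q.1.asIdeal)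
  let θ : R →ₐ[k] K := κ.comp ((IsScalarTower.toAlgHom k R[X] (YY G f)).comp (CC k R))
  have hθ : ∀ r, θ r = κ (algebraMap R[X] (YY G f) (C r)) := fun r => rfl
  have hκ : ∀ y, κ y = algebraMap A K (Ideal.Quotient.mk q.1.asIdeal y) := fun y => rfl
  have hκ0 : ∀ y, κ y = 0 ↔ y ∈ q.1.asIdeal := by
    intro y
    rw [hκ, ← Ideal.Quotient.eq_zero_iff_mem]
    exact map_eq_zero_iff _ (IsFractionRing.injective A K)
  have hq : q.1.asIdeal = RingHom.ker κ.toRingHom := by
    ext y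
    exact (hκ0 y).symm
  have hf : θ f ≠ 0 := by
    rw [hθ]
    intro h
    exact hfq ((hκ0 _).1 h)
  have hfr : ∀ x : K, ∃ A' B : YY G f, κ B ≠ 0 ∧ x * κ B = κ A' := by
    intro x
    obtain ⟨⟨x1, x2⟩, hx⟩ := IsLocalization.surj (nonZeroDivisors A) x
    obtain ⟨y1, rfl⟩ := Ideal.Quotient.mk_surjective x1
    obtain ⟨x2, hx2⟩ := x2
    obtain ⟨y2, rfl⟩ := Ideal.Quotient.mk_surjective x2
    refine ⟨y1, y2, ?_, hx⟩
    rw [hκ]
    intro h
    have h1 := (map_eq_zero_iff _ (IsFractionRing.injective A K)).1 h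
    exact (nonZeroDivisors.ne_zero hx2) h1
  obtain ⟨D, r1, r2, r3⟩ := hR k R K E n θ
  have hu1 : IsUnit (2 * (1 - v) - 1) := by
    have h1 : 2 * (1 - v) - 1 = -(2 * v - 1) := by ring
    rw [h1]
    exact hu.neg
  obtain ⟨f0, g0⟩ := one hFPD hCHI hCHIV D θ κ r3 hθ hf hfr q hq a c ha hc v hv hu e₀ d₀ he₀ hd₀
  obtain ⟨f1, g1⟩ := one hFPD hCHI hCHIV D θ κ r3 hθ hf hfr q hq a c ha hc (1 - v)
    (conj_root hv) hu1 e₁ d₁ he₁ hd₁
  set s₀ : K := spt κ θ v with hs₀
  set s₁ : K := spt κ θ (1 - v) with hs₁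
  have hw : s₁ = s₀ + θ (2 * v - 1) * (θ f)⁻¹ := by
    rw [hs₁, hs₀]
    unfold spt
    rw [map_sub, map_sub, map_one, map_mul, div_eq_mul_inv, div_eq_mul_inv]
    have h2 : θ 2 = 2 := map_ofNat θ 2
    rw [h2]
    ring
  -- the common part
  have key : ∀ (O : ValuationSubring K) (s t w : K), w ∈ O → t = s + w → s ∉ O → t ∉ O ∧
      D O (κ a) s⁻¹ = D O (κ a) t⁻¹ := by
    intro O s t w hwO hst hsO
    have ht : t ∉ O := by
      intro h
      apply hsO
      have h1 : s = t - w := by rw [hst]; ring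
      rw [h1]
      exact sub_mem h hwO
    have hs0 : s ≠ 0 := fun h => hsO (h ▸ O.zero_mem)
    have ht0 : t ≠ 0 := fun h => ht (h ▸ O.zero_mem)
    refine ⟨ht, r2 O (κ a) s⁻¹ t⁻¹ (inv_ne_zero hs0) (inv_ne_zero ht0) ?_⟩
    have h1 : t⁻¹ / s⁻¹ - 1 = -w * t⁻¹ := by
      rw [hst] at ht0 ⊢
      exact l1 _ _ hs0 ht0
    rw [h1]
    by_cases hw0 : w = 0
    · left
      rw [hw0]
      ring
    · right
      intro h2
      apply ht
      rw [l2 t w ht0 hw0]
      exact mul_mem (neg_mem hwO) h2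
  have hmem : ∀ (s : K) (O : ValuationSubring K), O ∈ VV n θ s ↔
      s ∉ O ∧ ∃ (h : ∀ r, θ r ∈ O) (T : RP k R (n + 1)),
        T.1.asIdeal = RingHom.ker (rhoO θ O h) := fun s O => Iff.rfl
  have hrat : ∀ (s : K) (O : ValuationSubring K), O ∈ VV n θ s → (θ f)⁻¹ ∉ O →
      D O (κ a) s⁻¹ ∈ ratOn k E n (Ideal.span {f}) := by
    intro s O hO hfO
    obtain ⟨-, hRO, -⟩ := (hmem s O).1 hO
    apply r1
    intro r hr
    by_contra hcon
    push Not at hcon
    obtain ⟨h1, h2⟩ := hcon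
    obtain ⟨g, rfl⟩ := Ideal.mem_span_singleton'.1 hr
    apply hfO
    rw [map_mul] at h1 h2
    rw [l3 (θ g) (θ f) (left_ne_zero_of_mul h1)]
    exact mul_mem (hRO g) h2
  have hgoodset : f0.toFinset.filter (fun O => (θ f)⁻¹ ∈ O) =
      f1.toFinset.filter (fun O => (θ f)⁻¹ ∈ O) := by
    ext O
    rw [Finset.mem_filter, Finset.mem_filter, Set.Finite.mem_toFinset, Set.Finite.mem_toFinset,
      hmem, hmem]
    constructor
    · rintro ⟨⟨h1, h2, T, h3⟩, h4⟩
      exact ⟨⟨(key O s₀ s₁ _ (mul_mem (h2 (2 * v - 1)) h4) hw h1).1, h2, T, h3⟩, h4⟩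
    · rintro ⟨⟨h1, h2, T, h3⟩, h4⟩
      have h5 : s₀ = s₁ + -(θ (2 * v - 1) * (θ f)⁻¹) := by rw [hw]; ring
      exact ⟨⟨(key O s₁ s₀ _ (neg_mem (mul_mem (h2 (2 * v - 1)) h4)) h5 h1).1, h2, T,
        h3⟩, h4⟩
  rw [g0, g1, ← Finset.sum_filter_add_sum_filter_not f0.toFinset (fun O => (θ f)⁻¹ ∈ O),
    ← Finset.sum_filter_add_sum_filter_not f1.toFinset (fun O => (θ f)⁻¹ ∈ O), ← hgoodset]
  have hcommon : ∑ O ∈ f0.toFinset.filter (fun O => (θ f)⁻¹ ∈ O), D O (κ a) s₀⁻¹ =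
      ∑ O ∈ f0.toFinset.filter (fun O => (θ f)⁻¹ ∈ O), D O (κ a) s₁⁻¹ := by
    refine Finset.sum_congr rfl fun O hO => ?_
    rw [Finset.mem_filter, Set.Finite.mem_toFinset, hmem] at hO
    obtain ⟨⟨h1, h2, T, h3⟩, h4⟩ := hO
    exact (key O s₀ s₁ _ (mul_mem (h2 (2 * v - 1)) h4) hw h1).2
  rw [hcommon, add_sub_add_left_eq_sub]
  refine Submodule.sub_mem _ (Submodule.sum_mem _ fun O hO => ?_)
    (Submodule.sum_mem _ fun O hO => ?_)
  · rw [Finset.mem_filter, Set.Finite.mem_toFinset] at hO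
    exact hrat s₀ O hO.1 hO.2
  · rw [Finset.mem_filter, Set.Finite.mem_toFinset] at hO
    exact hrat s₁ O hO.1 hO.2

end CUB


end

section

/-!
# CUB, module STP: one equation
-/

set_option autoImplicit false

open Polynomial

namespace CUB

namespace STP

lemma ker_mapAlg {k R R' : Type} [Field k] [CommRing R] [CommRing R'] [Algebra k R] [Algebra k R'] (m : ℕ)
    (ψ : R →ₐ[k] R') (a : R) (h : RingHom.ker ψ.toRingHom = Ideal.span {a}) :
    RingHom.ker (MvPolynomial.mapAlgHom (σ := Fin m) ψ).toRingHom =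
      Ideal.span {(MvPolynomial.C a : MvPolynomial (Fin m) R)} := by
  have h1 : (MvPolynomial.mapAlgHom (σ := Fin m) ψ).toRingHom = MvPolynomial.map ψ.toRingHom := rfl
  rw [h1, MvPolynomial.ker_map, h, Ideal.map_span, Set.image_singleton]

end STP

open _root_.CUB.STP in
theorem t_STP : M_STP := by
  intro hP h0 hV k R R' E _ _ _ _ _ _ _ _ _ m f l ψ hψ hker n c hc hr
  obtain ⟨e, e', he, he', hee⟩ := hV k R R' m f l ψ
  have : Algebra.FiniteType k (MvPolynomial (Fin m) R) :=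
    Algebra.FiniteType.trans (S := R) inferInstance inferInstance
  set c' := push E e'.symm.toAlgHom e'.symm.surjective c with hc'
  have hs : Function.Surjective (MvPolynomial.mapAlgHom (σ := Fin m) ψ) :=
    MvPolynomial.map_surjective _ hψ
  have h1 : ptau E _ c' = -c' := by
    have h2 : (tauH (k := k) _ : VR R' (fun j => ψ (f j)) →ₐ[k] VR R' (fun j => ψ (f j))).comp e'.symm.toAlgHom =
        e'.symm.toAlgHom.comp (tauH (k := k) _) := by
      refine AlgHom.ext fun x => ?_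
      obtain ⟨y, rfl⟩ := e'.surjective x
      change tauH (k := k) _ (e'.symm (e' y)) = e'.symm (tauH (k := k) _ (e' y))
      rw [← he', AlgEquiv.symm_apply_apply, AlgEquiv.symm_apply_apply]
    have hsur : Function.Surjective (e'.symm.toAlgHom.comp (tauH (k := k) _)) :=
      e'.symm.surjective.comp (tauH_surjective _)
    have h3 := hP.1 k _ _ _ E n (tauH (k := k) _) e'.symm.toAlgHom (e'.symm.toAlgHom.comp (tauH (k := k) _))
      (tauH_surjective _) e'.symm.surjective hsur rfl c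
    have h4 := hP.1 k _ _ _ E n e'.symm.toAlgHom (tauH (k := k) _) (e'.symm.toAlgHom.comp (tauH (k := k) _))
      e'.symm.surjective (tauH_surjective _) hsur h2.symm c
    have h5 : ptau E _ c' = push E (tauH (k := k) _) (tauH_surjective _) c' := rfl
    rw [h5, hc', ← h3, h4]
    have h6 : push E (tauH (k := k) _) (tauH_surjective _) c = -c := hc
    rw [h6, map_neg]
  have h2 : push E (YYmap _ _ (MvPolynomial.mapAlgHom ψ)) (YYmap_surjective _ _ (MvPolynomial.mapAlgHom ψ) hs) c' ∈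
      rat k (YY (lin (fun j => f (l.succAbove j))) (MvPolynomial.C (f l))) E n := by
    have h3 : e'.symm.toAlgHom.comp (YYmap (lin (fun j => f (l.succAbove j))) (MvPolynomial.C (f l))
        (MvPolynomial.mapAlgHom ψ)) = (VRmap ψ f).comp e.symm.toAlgHom := by
      refine AlgHom.ext fun x => ?_
      obtain ⟨y, rfl⟩ := e.surjective x
      change e'.symm (YYmap _ _ (MvPolynomial.mapAlgHom ψ) (e y)) = VRmap ψ f (e.symm (e y))
      rw [← hee, AlgEquiv.symm_apply_apply, AlgEquiv.symm_apply_apply]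
    have hsur : Function.Surjective ((VRmap ψ f).comp e.symm.toAlgHom) :=
      (VRmap_surjective ψ hψ f).comp e.symm.surjective
    have h4 := hP.1 k _ _ _ E n (YYmap (lin (fun j => f (l.succAbove j))) (MvPolynomial.C (f l))
        (MvPolynomial.mapAlgHom ψ)) e'.symm.toAlgHom ((VRmap ψ f).comp e.symm.toAlgHom)
      (YYmap_surjective _ _ (MvPolynomial.mapAlgHom ψ) hs) e'.symm.surjective hsur h3.symm c
    have h5 := hP.1 k _ _ _ E n e.symm.toAlgHom (VRmap ψ f) ((VRmap ψ f).comp e.symm.toAlgHom)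
      e.symm.surjective (VRmap_surjective ψ hψ f) hsur rfl c
    rw [hc', ← h4, h5]
    exact (hP.2.2.1 k _ _ E n e.symm _).mpr hr
  have h3 := h0 k (MvPolynomial (Fin m) R) (MvPolynomial (Fin m) R') E (lin (fun j => f (l.succAbove j)))
    (MvPolynomial.C (f l)) (MvPolynomial.mapAlgHom ψ) hs (ker_mapAlg m ψ (f l) hker) n c' h1 h2
  exact (hP.2.2.1 k _ _ E n e'.symm c).mp h3

end CUB


end

section

/-!
# CUB, module WLO: the sheet of a split double cover is a localisation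
-/

set_option autoImplicit false

open Polynomial

namespace CUB

namespace WLO

variable {k S T : Type} [Field k] [CommRing S] [CommRing T] [Algebra k S] [Algebra k T]

/-- The homomorphism `Q S G → Q S[X] (C G + X * C 0)`. -/
noncomputable def io (G : S) : Q S G →ₐ[k] YY G (0 : S) :=
  Qlift ((Qbase (C G + X * C (0 : S))).comp (CC k S)) (yy (C G + X * C (0 : S))) (by
    have h2 := yy_eq (C G + X * C (0 : S))
    have h3 : ((Qbase (k := k) (C G + X * C (0 : S))).comp (CC k S)) G =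
        algebraMap S[X] (YY G (0 : S)) (C G + X * C (0 : S)) := by
      have h4 : (C G + X * C (0 : S) : S[X]) = C G := by rw [C_0, mul_zero, add_zero]
      exact congrArg (algebraMap S[X] (YY G (0 : S))) h4.symm
    rw [h3]
    exact sub_eq_zero.mp h2)

lemma io_yy (G : S) : io (k := k) G (yy G) = yy (C G + X * C (0 : S)) := by
  unfold io
  exact Qlift_yy _ _ _

lemma io_algebraMap (G a : S) :
    io (k := k) G (algebraMap S (Q S G) a) = algebraMap S[X] (YY G (0 : S)) (C a) := by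
  unfold io
  exact Qlift_algebraMap _ _ _ _

/-- Every element is a polynomial in `X` with coefficients in `Q S G`. -/
lemma expand (G : S) (A B : S[X]) (n : ℕ) (hA : A.natDegree < n) (hB : B.natDegree < n) :
    algebraMap S[X] (YY G (0 : S)) A + algebraMap S[X] (YY G (0 : S)) B * yy (C G + X * C (0 : S)) =
      ∑ i ∈ Finset.range n, algebraMap S[X] (YY G (0 : S)) (X ^ i) *
        io (k := k) G (algebraMap S (Q S G) (A.coeff i) + algebraMap S (Q S G) (B.coeff i) * yy G) := by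
  have h1 : ∀ P : S[X], P.natDegree < n → algebraMap S[X] (YY G (0 : S)) P =
      ∑ i ∈ Finset.range n, algebraMap S[X] (YY G (0 : S)) (X ^ i) *
        algebraMap S[X] (YY G (0 : S)) (C (P.coeff i)) := by
    intro P hP
    conv_lhs => rw [Polynomial.as_sum_range_C_mul_X_pow' P hP]
    rw [map_sum]
    refine Finset.sum_congr rfl fun i _ => ?_
    exact (map_mul (algebraMap S[X] (YY G (0 : S))) (C (P.coeff i)) (X ^ i)).trans (mul_comm _ _)
  rw [h1 A hA, h1 B hB, Finset.sum_mul, ← Finset.sum_add_distrib]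
  refine Finset.sum_congr rfl fun i _ => ?_
  rw [map_add, map_mul, io_algebraMap, io_algebraMap, io_yy]
  ring

end WLO

open _root_.CUB.WLO

theorem t_WLO : S_WLO := by
  intro k S T _ _ _ _ _ G f hf φ σ v hv hf' hloc hσ hvy
  subst hf
  have hiso : ∀ x : Q S G, shv σ hf' v hv (io (k := k) G x) = C (φ x) := by
    intro x
    have h : (shv σ hf' v hv).comp (io (k := k) G) = (CC k T).comp φ := by
      apply Q_ext
      · intro t
        rw [AlgHom.comp_apply, io_algebraMap, shv_algebraMap, AlgHom.comp_apply, CC_apply]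
        change Polynomial.map σ.toRingHom (C t) = _
        rw [Polynomial.map_C, hσ]
        rfl
      · rw [AlgHom.comp_apply, io_yy, shv_yy, AlgHom.comp_apply, CC_apply, hvy]
    exact DFunLike.congr_fun h x
  have hX : ∀ i : ℕ, shv σ hf' v hv (algebraMap S[X] (YY G (0 : S)) (X ^ i)) = X ^ i := by
    intro i
    rw [shv_algebraMap]
    change Polynomial.map σ.toRingHom (X ^ i) = _
    rw [Polynomial.map_pow, Polynomial.map_X]
  have hs : io (k := k) G (2 * yy G - 1) = 2 * yy (C G + X * C (0 : S)) - 1 := by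
    rw [map_sub, map_mul, io_yy, map_one, map_ofNat]
  let _ := φ.toRingHom.toAlgebra
  have hloc' : IsLocalization.Away (2 * yy G - 1) T := hloc
  have hunit : IsUnit (φ (2 * yy G - 1)) := IsLocalization.Away.algebraMap_isUnit (2 * yy G - 1)
  let _ := (shv σ hf' v hv).toRingHom.toAlgebra
  have halg : ∀ z : YY G (0 : S), algebraMap (YY G (0 : S)) T[X] z = shv σ hf' v hv z := fun _ => rfl
  change IsLocalization.Away (2 * yy (C G + X * C (0 : S)) - 1) T[X]
  refine (isLocalization_iff _ _).2 ⟨?_, ?_, ?_⟩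
  · rintro ⟨_, n, rfl⟩
    change IsUnit (shv σ hf' v hv ((2 * yy (C G + X * C (0 : S)) - 1) ^ n))
    rw [map_pow, ← hs, hiso]
    exact (hunit.map C).pow n
  · intro P
    have key : ∃ (n : ℕ) (z : YY G (0 : S)), P * shv σ hf' v hv (io (k := k) G (2 * yy G - 1)) ^ n =
        shv σ hf' v hv z := by
      induction P using Polynomial.induction_on' with
      | add P₁ P₂ h₁ h₂ =>
        obtain ⟨n₁, z₁, e₁⟩ := h₁
        obtain ⟨n₂, z₂, e₂⟩ := h₂
        refine ⟨n₁ + n₂, z₁ * io (k := k) G (2 * yy G - 1) ^ n₂ + z₂ * io (k := k) G (2 * yy G - 1) ^ n₁, ?_⟩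
        rw [map_add, map_mul, map_mul, map_pow, map_pow, ← e₁, ← e₂]
        ring
      | monomial m t =>
        obtain ⟨n, q, hq⟩ := IsLocalization.Away.surj (2 * yy G - 1) t
        refine ⟨n, io (k := k) G q * algebraMap S[X] (YY G (0 : S)) (X ^ m), ?_⟩
        have hq' : t * φ (2 * yy G - 1) ^ n = φ q := hq
        rw [map_mul, hiso, hX, hiso, ← hq', ← Polynomial.C_mul_X_pow_eq_monomial, C_mul, C_pow]
        ring
    obtain ⟨n, z, hz⟩ := key
    refine ⟨(z, ⟨(2 * yy (C G + X * C (0 : S)) - 1) ^ n, n, rfl⟩), ?_⟩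
    change P * shv σ hf' v hv ((2 * yy (C G + X * C (0 : S)) - 1) ^ n) = shv σ hf' v hv z
    rw [map_pow, ← hs, hz]
  · intro x y hxy
    have hxy' : shv σ hf' v hv (x - y) = 0 := by
      have h : shv σ hf' v hv x = shv σ hf' v hv y := hxy
      rw [map_sub, h, sub_self]
    obtain ⟨A, B, hAB⟩ := Q_span (x - y)
    set n : ℕ := max A.natDegree B.natDegree + 1 with hn
    have hA : A.natDegree < n := Nat.lt_succ_of_le (le_max_left _ _)
    have hB : B.natDegree < n := Nat.lt_succ_of_le (le_max_right _ _)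
    have hE := expand (k := k) G A B n hA hB
    rw [← hAB] at hE
    set w : ℕ → Q S G := fun i => algebraMap S (Q S G) (A.coeff i) + algebraMap S (Q S G) (B.coeff i) * yy G
      with hw
    have hE' : x - y = ∑ i ∈ Finset.range n, algebraMap S[X] (YY G (0 : S)) (X ^ i) * io (k := k) G (w i) := hE
    have hzero : ∀ i ∈ Finset.range n, φ (w i) = 0 := by
      intro i hi
      rw [hE', map_sum] at hxy'
      have h1 := congrArg (fun P => Polynomial.coeff P i) hxy'
      simp only [map_mul, hX, hiso, Polynomial.finsetSum_coeff, Polynomial.coeff_zero] at h1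
      rw [Finset.sum_eq_single i] at h1
      · rwa [Polynomial.coeff_X_pow_mul', if_pos (le_refl i), Nat.sub_self, Polynomial.coeff_C_zero] at h1
      · intro j _ hji
        rw [mul_comm, Polynomial.coeff_C_mul, Polynomial.coeff_X_pow, if_neg (fun h => hji h.symm), mul_zero]
      · intro h
        exact absurd hi h
    have hN : ∀ i ∈ Finset.range n, ∃ m : ℕ, (2 * yy G - 1) ^ m * w i = 0 := by
      intro i hi
      have h1 : algebraMap (Q S G) T (w i) = algebraMap (Q S G) T 0 := by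
        rw [map_zero]
        exact hzero i hi
      obtain ⟨⟨_, m, rfl⟩, hc⟩ := IsLocalization.exists_of_eq (M := Submonoid.powers (2 * yy G - 1)) h1
      refine ⟨m, ?_⟩
      rw [mul_zero] at hc
      exact hc
    choose! m hm using hN
    refine ⟨⟨(2 * yy (C G + X * C (0 : S)) - 1) ^ (∑ i ∈ Finset.range n, m i), _, rfl⟩, ?_⟩
    change (2 * yy (C G + X * C (0 : S)) - 1) ^ (∑ i ∈ Finset.range n, m i) * x =
      (2 * yy (C G + X * C (0 : S)) - 1) ^ (∑ i ∈ Finset.range n, m i) * y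
    rw [← sub_eq_zero, ← mul_sub, hE', Finset.mul_sum]
    refine Finset.sum_eq_zero fun i hi => ?_
    have hle : m i ≤ ∑ i ∈ Finset.range n, m i := Finset.single_le_sum (fun _ _ => Nat.zero_le _) hi
    obtain ⟨d, hd⟩ := Nat.exists_eq_add_of_le hle
    have h2 : (2 * yy (C G + X * C (0 : S)) - 1) ^ (m i) * io (k := k) G (w i) = 0 := by
      rw [← hs, ← map_pow, ← map_mul, hm i hi]
      exact map_zero (io (k := k) G)
    rw [hd, pow_add]
    linear_combination (2 * yy (C G + X * C (0 : S)) - 1) ^ d * algebraMap S[X] (YY G (0 : S)) (X ^ i) * h2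

end CUB


end
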