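import Mathlib
import Pool.Agent.QVM.C05
import Pool.Agent.QVM.C08
import Pool.Agent.QVM.C12

/-! Parts: CUB.A_PLIN, CUB.A_RON, CUB.C_ST0A, CUB.R_TAMEF, CUB.R_TDE -/

section

/-!
# CUB: pull-backs are unique and linear; pull-back along an isomorphism
-/

set_option autoImplicit false

namespace CUB

namespace PLIN

section lin

variable {k A B E : Type} [Field k] [CommRing A] [CommRing B] [Algebra k A] [Algebra k B]
  [Field E] {r n : ℕ} {φ : A →ₐ[k] B}

/-- two functions on the primes with the same description are equal -/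
theorem uniq {c : RP k A n →₀ E} {d d' : RP k B (n + r) →₀ E} (h : IsPull k E r φ c d)
    (h' : IsPull k E r φ c d') : d = d' := by
  refine Finsupp.ext fun P => ?_
  by_cases hP : rdim k (PrimeSpectrum.comap φ.toRingHom P.1) = n
  · rw [(h P).1 hP, (h' P).1 hP]
  · rw [(h P).2 hP, (h' P).2 hP]

theorem add {c c' : RP k A n →₀ E} {d d' : RP k B (n + r) →₀ E} (h : IsPull k E r φ c d)
    (h' : IsPull k E r φ c' d') : IsPull k E r φ (c + c') (d + d') := by
  intro P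
  refine ⟨fun hP => ?_, fun hP => ?_⟩
  · rw [Finsupp.add_apply, Finsupp.add_apply, (h P).1 hP, (h' P).1 hP]
  · rw [Finsupp.add_apply, (h P).2 hP, (h' P).2 hP, add_zero]

theorem sub {c c' : RP k A n →₀ E} {d d' : RP k B (n + r) →₀ E} (h : IsPull k E r φ c d)
    (h' : IsPull k E r φ c' d') : IsPull k E r φ (c - c') (d - d') := by
  intro P
  refine ⟨fun hP => ?_, fun hP => ?_⟩
  · rw [Finsupp.sub_apply, Finsupp.sub_apply, (h P).1 hP, (h' P).1 hP]
  · rw [Finsupp.sub_apply, (h P).2 hP, (h' P).2 hP, sub_zero]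

theorem smul {c : RP k A n →₀ E} {d : RP k B (n + r) →₀ E} (x : E) (h : IsPull k E r φ c d) :
    IsPull k E r φ (x • c) (x • d) := by
  intro P
  refine ⟨fun hP => ?_, fun hP => ?_⟩
  · rw [Finsupp.smul_apply, Finsupp.smul_apply, (h P).1 hP]
  · rw [Finsupp.smul_apply, (h P).2 hP, smul_zero]

theorem zero : IsPull k E r φ (0 : RP k A n →₀ E) 0 := by
  intro P
  exact ⟨fun _ => rfl, fun _ => rfl⟩

end lin

section iso

variable {k A B E : Type} [Field k] [CommRing A] [CommRing B] [Algebra k A] [Algebra k B]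
  [Field E] {n : ℕ}

theorem comap_symm (e : A ≃ₐ[k] B) (P : PrimeSpectrum B) :
    PrimeSpectrum.comap (e.symm : B →ₐ[k] A).toRingHom
      (PrimeSpectrum.comap (e : A →ₐ[k] B).toRingHom P) = P := by
  apply PrimeSpectrum.ext
  ext b
  show e (e.symm b) ∈ P.asIdeal ↔ b ∈ P.asIdeal
  rw [e.apply_symm_apply]

theorem symm_comap (e : A ≃ₐ[k] B) (P : PrimeSpectrum A) :
    PrimeSpectrum.comap (e : A →ₐ[k] B).toRingHom
      (PrimeSpectrum.comap (e.symm : B →ₐ[k] A).toRingHom P) = P := by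
  apply PrimeSpectrum.ext
  ext a
  show e.symm (e a) ∈ P.asIdeal ↔ a ∈ P.asIdeal
  rw [e.symm_apply_apply]

theorem dim_eq (e : A ≃ₐ[k] B) (P : RP k B n) :
    rdim k (PrimeSpectrum.comap (e : A →ₐ[k] B).toRingHom P.1) = n :=
  (rdim_comap (e : A →ₐ[k] B) e.surjective P.1).trans P.2

theorem push_eq (e : A ≃ₐ[k] B) (c : RP k A n →₀ E) (P : RP k B n) :
    push E (e.symm : B →ₐ[k] A) e.symm.surjective c P =
      c ⟨PrimeSpectrum.comap (e : A →ₐ[k] B).toRingHom P.1, dim_eq e P⟩ := by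
  have hinj : Function.Injective (pushP (n := n) (e.symm : B →ₐ[k] A) e.symm.surjective) := by
    intro P₁ P₂ h
    have h1 : PrimeSpectrum.comap (e.symm : B →ₐ[k] A).toRingHom P₁.1 =
        PrimeSpectrum.comap (e.symm : B →ₐ[k] A).toRingHom P₂.1 := congrArg Subtype.val h
    apply Subtype.ext
    rw [← symm_comap e P₁.1, ← symm_comap e P₂.1, h1]
  have hP : pushP (n := n) (e.symm : B →ₐ[k] A) e.symm.surjective
      ⟨PrimeSpectrum.comap (e : A →ₐ[k] B).toRingHom P.1, dim_eq e P⟩ = P :=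
    Subtype.ext (comap_symm e P.1)
  have h2 := Finsupp.mapDomain_apply hinj c
    ⟨PrimeSpectrum.comap (e : A →ₐ[k] B).toRingHom P.1, dim_eq e P⟩
  rw [hP] at h2
  exact h2

theorem iso (e : A ≃ₐ[k] B) (c : RP k A n →₀ E) (d : RP k B n →₀ E) :
    IsPull k E 0 (e : A →ₐ[k] B) c d ↔
      push E (e.symm : B →ₐ[k] A) e.symm.surjective c = d := by
  constructor
  · intro h
    refine Finsupp.ext fun P => ?_
    rw [push_eq e c P]
    exact ((h P).1 (dim_eq e P)).symm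
  · rintro rfl
    intro P
    refine ⟨fun _ => push_eq e c P, fun hP => absurd (dim_eq (n := n) e P) hP⟩

end iso

end PLIN

theorem t_PLIN : S_PLIN := by
  refine ⟨?_, ?_⟩
  · intro k A B E _ _ _ _ _ _ r n φ c c' d d' x h h'
    refine ⟨fun hc => ?_, PLIN.add h h', PLIN.sub h h', PLIN.smul x h, PLIN.zero⟩
    subst hc
    exact PLIN.uniq h h'
  · intro k A B E _ _ _ _ _ _ n e c d
    exact PLIN.iso e c d

end CUB


end

section

/-!
# CUB: elementary properties of `ratOn`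
-/

set_option autoImplicit false

namespace CUB

theorem t_RON : S_RON := by
  intro k A E _ _ _ _ n I J hIJ
  unfold ratOn
  apply Submodule.span_mono
  rintro c ⟨q, a, hJ, ha, hc⟩
  exact ⟨q, a, le_trans hIJ hJ, ha, hc⟩

end CUB


end

section

/-!
# CUB, module ST0A: anti-invariant cycles, the pull-back to a sheet over the etale locus
-/

set_option autoImplicit false

open Polynomial

namespace CUB

namespace ST0A

/-- the image of `2 y - 1` in the localisation is a unit -/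
lemma unit_two {k S T : Type} [Field k] [CommRing S] [CommRing T] [Algebra k S] [Algebra k T]
    (G : S) (φ : Q S G →ₐ[k] T)
    (h : @IsLocalization.Away (Q S G) _ (2 * yy G - 1) T _ φ.toRingHom.toAlgebra) :
    IsUnit (2 * φ (yy G) - 1) := by
  have h1 := @IsLocalization.Away.algebraMap_isUnit (Q S G) _ T _ φ.toRingHom.toAlgebra
    (2 * yy G - 1) h
  have h2 : (2 : T) * φ (yy G) - 1 = φ (2 * yy G - 1) := by
    rw [map_sub, map_mul, map_one, map_ofNat]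
  rw [h2]
  exact h1

/-- the root -/
lemma root_eq {k S T : Type} [Field k] [CommRing S] [CommRing T] [Algebra k S] [Algebra k T]
    (G : S) (φ : Q S G →ₐ[k] T) :
    (φ (yy G)) ^ 2 - φ (yy G) = (φ.comp (Qbase G)) G := by
  have h1 := yy_eq G
  have h2 : (φ.comp (Qbase G)) G = φ (algebraMap S (Q S G) G) := rfl
  rw [h2, ← map_pow, ← map_sub, ← sub_eq_zero, ← map_sub, h1, map_zero]

/-- an isomorphism of rings with equal base elements: push-forward along equal homomorphisms -/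
lemma push_congr {k A B : Type} (E : Type) [Field k] [CommRing A] [CommRing B] [Algebra k A]
    [Algebra k B] [Field E] {n : ℕ} (φ χ : A →ₐ[k] B) (hφ : Function.Surjective φ)
    (hχ : Function.Surjective χ) (h : φ = χ) (c : RP k B n →₀ E) :
    push E φ hφ c = push E χ hχ c := by
  subst h
  rfl

end ST0A

theorem t_ST0A : M_ST0A := by
  intro hFP hFPX hPBC hPLIN hGCO _ _ hPCO hKER hTWO hL0 hB1 hBLIN hBINJ hDEL _ hETA
  intro k S S' T T' E _ _ _ _ _ _ _ _ _ _ _ _ _ _ _ _ G f ψ hψ hker φ φ' ψ' σ' v' hv' hf' hloc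
    hloc' hψ' hker' hcomm hσ' hvv n c d hc hpush hd
  obtain ⟨σ, hσ⟩ : ∃ σ : S →ₐ[k] T, σ = φ.comp (Qbase G) := ⟨_, rfl⟩
  obtain ⟨v, hv⟩ : ∃ v : T, v = φ (yy G) := ⟨_, rfl⟩
  have hσσ : ∀ s, ψ' (σ s) = σ' (ψ s) := by
    intro s
    have h1 := hcomm (algebraMap S (Q S G) s)
    rw [Qmap_algebraMap] at h1
    rw [hσ, hσ']
    exact h1
  have hψv : ψ' v = v' := by
    rw [hv, hcomm, Qmap_yy, hvv]
  have hroot : v ^ 2 - v = σ G := by
    rw [hv, hσ]
    exact ST0A.root_eq G φ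
  have hunit : IsUnit (2 * v - 1) := by
    rw [hv]
    exact ST0A.unit_two G φ hloc
  have hunit' : IsUnit (2 * v' - 1) := by
    rw [hvv]
    exact ST0A.unit_two (ψ G) φ' hloc'
  have hkerσ : RingHom.ker ψ'.toRingHom = Ideal.span {σ f} := by
    rw [hker', hσ]
    rfl
  have hψσf : ψ' (σ f) = 0 := by rw [hσσ]; exact hf'
  rcases Nat.eq_zero_or_pos n with hn | hn
  · subst hn
    exact (hL0 k T' E).2 d
  obtain ⟨j, rfl⟩ : ∃ j, n = j + 1 := ⟨n - 1, by omega⟩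
  -- the squares
  have hΦ0 : mapX σ (C G + X * C f) = C (σ G) + X * C (σ f) := by simp [mapX]
  have hGoodΦ : Good k 0 (YYmap G f σ) := hETA k S T G f φ σ hloc hσ _ hΦ0
  have hΦ1 : mapX σ' (C (ψ G) + X * C (ψ f)) = C (ψ' (σ G)) + X * C (ψ' (σ f)) := by
    simp [mapX, hσσ]
  have hGoodΦ' : Good k 0 (Qmap (mapX σ') hΦ1) := hETA k S' T' (ψ G) (ψ f) φ' σ' hloc' hσ' _ hΦ1
  obtain ⟨c', hc'⟩ := hFPX k (YY (ψ G) (ψ f)) (YY (ψ' (σ G)) (ψ' (σ f))) E 0 (j + 1)
    (Qmap (mapX σ') hΦ1) hGoodΦ' c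
  have hsq : (Qmap (mapX σ') hΦ1).comp (YYmap G f ψ) =
      (YYmap (σ G) (σ f) ψ').comp (YYmap G f σ) := by
    apply Q_ext
    · intro P
      simp only [AlgHom.comp_apply, YYmap, Qmap_algebraMap]
      congr 1
      have h1 : (mapX σ').comp (mapX ψ) = (mapX ψ').comp (mapX (k := k) σ) := by
        apply Polynomial.algHom_ext'
        · ext s
          simp [mapX, hσσ]
        · simp [mapX]
      exact DFunLike.congr_fun h1 P
    · simp only [AlgHom.comp_apply, YYmap, Qmap_yy]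
  have hkk : RingHom.ker (YYmap (k := k) (σ G) (σ f) ψ').toRingHom ≤
      (RingHom.ker (YYmap (k := k) G f ψ).toRingHom).map (YYmap (k := k) G f σ).toRingHom := by
    rw [hKER.2.2.2.1 k T T' (σ G) (σ f) ψ', hKER.2.2.2.1 k S S' G f ψ, hkerσ, hker,
      Ideal.map_span, Ideal.map_span, Ideal.map_span, Set.image_singleton, Set.image_singleton,
      Set.image_singleton]
    apply le_of_eq
    congr 2
    have h1 : YYmap (k := k) G f σ (algebraMap S[X] (YY G f) (C f)) =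
        algebraMap T[X] (YY (σ G) (σ f)) (C (σ f)) := by
      have h2 : mapX σ (C f) = C (σ f) := by simp [mapX]
      rw [YYmap, Qmap_algebraMap, h2]
    exact h1.symm
  have hpb := hPBC k (YY G f) (YY (σ G) (σ f)) (YY (ψ G) (ψ f)) (YY (ψ' (σ G)) (ψ' (σ f))) E 0
    (j + 1) (YYmap G f σ) (Qmap (mapX σ') hΦ1) (YYmap G f ψ) (YYmap (σ G) (σ f) ψ')
    (YYmap_surjective G f ψ hψ) (YYmap_surjective (σ G) (σ f) ψ' hψ') hsq hkk c c' hc'
  have hrat := hFP k (YY G f) (YY (σ G) (σ f)) E 0 (j + 1) (YYmap G f σ) hGoodΦ ⊥ _ _ hpb hpush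
  rw [Ideal.map_bot] at hrat
  -- the split cover
  have hV : (C v' : T'[X]) ^ 2 - C v' = C (ψ' (σ G)) + X * C (ψ' (σ f)) := by
    rw [hσσ, hψσf, map_zero, mul_zero, add_zero, ← hv', map_sub, map_pow]
  have hunitC : IsUnit (2 * (C v' : T'[X]) - 1) := by
    have h1 : 2 * (C v' : T'[X]) - 1 = C (2 * v' - 1) := by
      rw [map_sub, map_mul, map_one, map_ofNat]
    rw [h1]
    exact hunit'.map C
  obtain ⟨hg0, hg1, hsplit, -⟩ := hTWO k T'[X] E (C (ψ' (σ G)) + X * C (ψ' (σ f))) (C v') hV hunitC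
  obtain ⟨c₀, hc₀⟩ := hFPX k (YY (ψ' (σ G)) (ψ' (σ f))) T'[X] E 0 (j + 1)
    (sg (k := k) (C v') hV) hg0 c'
  obtain ⟨c₁, hc₁⟩ := hFPX k (YY (ψ' (σ G)) (ψ' (σ f))) T'[X] E 0 (j + 1)
    (sg (k := k) (1 - C v') (conj_root hV)) hg1 c'
  have hsum := hsplit (j + 1) c' c₀ c₁ hc₀ hc₁
  have he0 : (sg (k := k) (C v') hV).comp (Qmap (mapX σ') hΦ1) = shv σ' hf' v' hv' := by
    apply Q_ext
    · intro P
      rw [AlgHom.comp_apply, Qmap_algebraMap, sg_algebraMap, shv_algebraMap]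
    · rw [AlgHom.comp_apply, Qmap_yy, sg_yy, shv_yy]
  have he1 : (sg (k := k) (1 - C v') (conj_root hV)).comp (Qmap (mapX σ') hΦ1) =
      (shv σ' hf' v' hv').comp (tauH (C (ψ G) + X * C (ψ f))) := by
    apply Q_ext
    · intro P
      have h1 : tauH (k := k) (C (ψ G) + X * C (ψ f))
          (algebraMap S'[X] (YY (ψ G) (ψ f)) P) = algebraMap S'[X] (YY (ψ G) (ψ f)) P :=
        tau_algebraMap _ _
      rw [AlgHom.comp_apply, Qmap_algebraMap, sg_algebraMap, AlgHom.comp_apply, h1, shv_algebraMap]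
    · have h1 : tauH (k := k) (C (ψ G) + X * C (ψ f)) (yy (C (ψ G) + X * C (ψ f))) =
          1 - yy (C (ψ G) + X * C (ψ f)) := tau_yy _
      rw [AlgHom.comp_apply, Qmap_yy, sg_yy, AlgHom.comp_apply, h1, map_sub, map_one, shv_yy]
  have hgoodw : Good k 0 (shv (k := k) σ' hf' v' hv') := by
    rw [← he0]
    exact hGCO.1 k (YY (ψ G) (ψ f)) (YY (ψ' (σ G)) (ψ' (σ f))) T'[X] _ _ 0 0 hGoodΦ' hg0
  have hcd0 : IsPull k E 0 (shv σ' hf' v' hv') c c₀ := by
    rw [← he0]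
    exact (hGCO.2.1 k (YY (ψ G) (ψ f)) (YY (ψ' (σ G)) (ψ' (σ f))) T'[X] E _ _ 0 (j + 1)
      hGoodΦ').2 hg0 c c' c₀ hc' hc₀
  have hc₀d : c₀ = d :=
    (hPLIN.1 k (YY (ψ G) (ψ f)) T'[X] E 0 (j + 1) _ c c c₀ d 0 hcd0 hd).1 rfl
  have hcd1 : IsPull k E 0 ((shv σ' hf' v' hv').comp (tauH (C (ψ G) + X * C (ψ f)))) c c₁ := by
    rw [← he1]
    exact (hGCO.2.1 k (YY (ψ G) (ψ f)) (YY (ψ' (σ G)) (ψ' (σ f))) T'[X] E _ _ 0 (j + 1)
      hGoodΦ').2 hg1 c c' c₁ hc' hc₁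
  have hgoodτ : Good k 0 (tauH (k := k) (C (ψ G) + X * C (ψ f))) :=
    hGCO.2.2.2 k _ _ (tau (k := k) (C (ψ G) + X * C (ψ f)))
  have hτ : IsPull k E 0 (tauH (C (ψ G) + X * C (ψ f))) c (-c) := by
    have h1 := (hPCO.2.2.2 k S'[X] E (C (ψ G) + X * C (ψ f)) (j + 1) c).2.1
    rw [hc] at h1
    exact h1
  have hneg : IsPull k E 0 (shv σ' hf' v' hv') (-c) (-d) := by
    have h1 := (hPLIN.1 k (YY (ψ G) (ψ f)) T'[X] E 0 (j + 1) _ c c d d (-1) hd hd).2.2.2.1
    rw [neg_one_smul, neg_one_smul] at h1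
    exact h1
  have hcd2 : IsPull k E 0 ((shv σ' hf' v' hv').comp (tauH (C (ψ G) + X * C (ψ f)))) c (-d) :=
    (hGCO.2.1 k (YY (ψ G) (ψ f)) (YY (ψ G) (ψ f)) T'[X] E _ _ 0 (j + 1) hgoodτ).2 hgoodw
      c (-c) (-d) hτ hneg
  have hc₁d : c₁ = -d :=
    (hPLIN.1 k (YY (ψ G) (ψ f)) T'[X] E 0 (j + 1) _ c c c₁ (-d) 0 hcd1 hcd2).1 rfl
  subst hc₀d
  subst hc₁d
  -- specialisation
  have h0 : (ψ' v) ^ 2 - ψ' v = ψ' (σ G) := by
    rw [hψv, hσσ]
    exact hv'
  have h1 : (1 - ψ' v) ^ 2 - (1 - ψ' v) = ψ' (σ G) := conj_root h0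
  obtain ⟨e, he⟩ := hB1 k T' E j c₀
  have hlin := hBLIN k T' E j c₀ c₀ e e (-1) he he
  have hbn : IsBeta k E (-c₀) (-e) := by
    have h2 := hlin.2.2.2.1
    rw [neg_one_smul, neg_one_smul] at h2
    exact h2
  have hps : push E (shv ψ' hψσf (ψ' v) h0) (shv_surjective ψ' hψ' hψσf _ h0) c₀ +
      push E (shv ψ' hψσf (1 - ψ' v) h1) (shv_surjective ψ' hψ' hψσf _ h1) (-c₀) ∈
        rat k (YY (σ G) (σ f)) E (j + 1) := by
    have e1 : shv ψ' hψσf (ψ' v) h0 =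
        (sg (k := k) (C v') hV).comp (YYmap (σ G) (σ f) ψ') := by
      apply Q_ext
      · intro P
        rw [AlgHom.comp_apply, YYmap, Qmap_algebraMap, sg_algebraMap, shv_algebraMap]
      · rw [AlgHom.comp_apply, YYmap, Qmap_yy, sg_yy, shv_yy, hψv]
    have e2 : shv ψ' hψσf (1 - ψ' v) h1 =
        (sg (k := k) (1 - C v') (conj_root hV)).comp (YYmap (σ G) (σ f) ψ') := by
      apply Q_ext
      · intro P
        rw [AlgHom.comp_apply, YYmap, Qmap_algebraMap, sg_algebraMap, shv_algebraMap]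
      · rw [AlgHom.comp_apply, YYmap, Qmap_yy, sg_yy, shv_yy, hψv, map_sub, map_one]
    rw [hPCO.1 k (YY (σ G) (σ f)) (YY (ψ' (σ G)) (ψ' (σ f))) T'[X] E (j + 1)
      (YYmap (σ G) (σ f) ψ') (sg (C v') hV) (shv ψ' hψσf (ψ' v) h0)
      (YYmap_surjective (σ G) (σ f) ψ' hψ') (sg_surjective _ _)
      (shv_surjective ψ' hψ' hψσf _ h0) e1 c₀,
      hPCO.1 k (YY (σ G) (σ f)) (YY (ψ' (σ G)) (ψ' (σ f))) T'[X] E (j + 1)
      (YYmap (σ G) (σ f) ψ') (sg (1 - C v') (conj_root hV)) (shv ψ' hψσf (1 - ψ' v) h1)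
      (YYmap_surjective (σ G) (σ f) ψ' hψ') (sg_surjective _ _)
      (shv_surjective ψ' hψ' hψσf _ h1) e2 (-c₀), ← map_add, ← hsum]
    exact hrat
  have hdel := hDEL k T T' E (σ G) (σ f) v hroot hunit ψ' hψ' hψσf hkerσ h0 h1 j c₀ (-c₀) e (-e)
    hps he hbn
  have h2e : (2 : E) • e ∈ rat k T' E j := by
    rw [two_smul]
    rw [sub_neg_eq_add] at hdel
    exact hdel
  have hee : e ∈ rat k T' E j := by
    have h3 := Submodule.smul_mem (rat k T' E j) ((2 : E)⁻¹) h2e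
    rwa [smul_smul, inv_mul_cancel₀ (two_ne_zero), one_smul] at h3
  exact hBINJ k T' E j c₀ e he hee

end CUB


end

section

/-!
# CUB, block R: the formal lemma on tame symbols (TAMEF)
-/

set_option autoImplicit false

namespace CUB

namespace TAMEF

/-- The hypotheses of `S_TAMEF`. -/
structure Dat {K H : Type} [Field K] (v lam : H → K → ℤ) (A0 : Set K) : Prop where
  vm : ∀ h a b, a ≠ 0 → b ≠ 0 → v h (a * b) = v h a + v h b
  lm : ∀ h a b, a ≠ 0 → b ≠ 0 → v h a = 0 → v h b = 0 → lam h (a * b) = lam h a + lam h b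
  ef : ∀ a ∈ A0, a ≠ 0 ∧ (∀ h, 0 ≤ v h a) ∧ {h | v h a ≠ 0}.Finite
  appr : ∀ (S : Finset H), ∀ h ∈ S, ∃ π ∈ A0, v h π = 1 ∧ ∀ h' ∈ S, h' ≠ h → v h' π = 0
  frac : ∀ (w : K) (S : Finset H), w ≠ 0 → (∀ h ∈ S, v h w = 0) → ∃ c₁ ∈ A0, ∃ c₂ ∈ A0,
    w * c₂ = c₁ ∧ ∀ h ∈ S, v h c₁ = 0 ∧ v h c₂ = 0
  disj : ∀ a ∈ A0, ∀ b ∈ A0, (∀ h, v h a = 0 ∨ v h b = 0) → ∀ S : Finset H,
    (∀ h, v h a ≠ 0 ∨ v h b ≠ 0 → h ∈ S) → ∑ h ∈ S, (v h b * lam h a - v h a * lam h b) = 0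

variable {K H : Type} [Field K] {v lam : H → K → ℤ} {A0 : Set K}

theorem v_one (D : Dat v lam A0) (h : H) : v h 1 = 0 := by
  have := D.vm h 1 1 one_ne_zero one_ne_zero
  rw [mul_one] at this
  omega

theorem v_inv (D : Dat v lam A0) (h : H) {a : K} (ha : a ≠ 0) : v h a⁻¹ = - v h a := by
  have := D.vm h a a⁻¹ ha (inv_ne_zero ha)
  rw [mul_inv_cancel₀ ha, v_one D] at this
  omega

theorem v_pow (D : Dat v lam A0) (h : H) {a : K} (ha : a ≠ 0) (n : ℕ) :
    v h (a ^ n) = n * v h a := by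
  induction n with
  | zero => simp [v_one D]
  | succ n ih =>
    rw [pow_succ, D.vm h _ _ (pow_ne_zero n ha) ha, ih]
    push_cast
    ring

theorem v_zpow (D : Dat v lam A0) (h : H) {a : K} (ha : a ≠ 0) (n : ℤ) :
    v h (a ^ n) = n * v h a := by
  obtain ⟨m, rfl | rfl⟩ := n.eq_nat_or_neg
  · rw [zpow_natCast, v_pow D h ha]
  · rw [zpow_neg, zpow_natCast, v_inv D h (pow_ne_zero m ha), v_pow D h ha]
    ring

theorem l_one (D : Dat v lam A0) (h : H) : lam h 1 = 0 := by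
  have := D.lm h 1 1 one_ne_zero one_ne_zero (v_one D h) (v_one D h)
  rw [mul_one] at this
  omega

theorem l_inv (D : Dat v lam A0) (h : H) {a : K} (ha : a ≠ 0) (hv : v h a = 0) :
    lam h a⁻¹ = - lam h a := by
  have := D.lm h a a⁻¹ ha (inv_ne_zero ha) hv (by rw [v_inv D h ha, hv, neg_zero])
  rw [mul_inv_cancel₀ ha, l_one D] at this
  omega

theorem l_pow (D : Dat v lam A0) (h : H) {a : K} (ha : a ≠ 0) (hv : v h a = 0) (n : ℕ) :
    lam h (a ^ n) = n * lam h a := by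
  induction n with
  | zero => simp [l_one D]
  | succ n ih =>
    rw [pow_succ, D.lm h _ _ (pow_ne_zero n ha) ha (by rw [v_pow D h ha, hv, mul_zero]) hv, ih]
    push_cast
    ring

theorem l_zpow (D : Dat v lam A0) (h : H) {a : K} (ha : a ≠ 0) (hv : v h a = 0) (n : ℤ) :
    lam h (a ^ n) = n * lam h a := by
  obtain ⟨m, rfl | rfl⟩ := n.eq_nat_or_neg
  · rw [zpow_natCast, l_pow D h ha hv]
  · rw [zpow_neg, zpow_natCast, l_inv D h (pow_ne_zero m ha) (by rw [v_pow D h ha, hv, mul_zero]),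
      l_pow D h ha hv]
    ring

/-- The local term. -/
def g (v lam : H → K → ℤ) (a b : K) (h : H) : ℤ := lam h (a ^ v h b * b ^ (-v h a))

theorem t_ne {a b : K} (ha : a ≠ 0) (hb : b ≠ 0) (m n : ℤ) : a ^ m * b ^ n ≠ 0 :=
  mul_ne_zero (zpow_ne_zero _ ha) (zpow_ne_zero _ hb)

theorem v_t (D : Dat v lam A0) (h : H) {a b : K} (ha : a ≠ 0) (hb : b ≠ 0) :
    v h (a ^ v h b * b ^ (-v h a)) = 0 := by
  rw [D.vm h _ _ (zpow_ne_zero _ ha) (zpow_ne_zero _ hb), v_zpow D h ha, v_zpow D h hb]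
  ring

theorem g_mul (D : Dat v lam A0) (h : H) {a a' b : K} (ha : a ≠ 0) (ha' : a' ≠ 0) (hb : b ≠ 0) :
    g v lam (a * a') b h = g v lam a b h + g v lam a' b h := by
  unfold g
  rw [← D.lm h _ _ (t_ne ha hb _ _) (t_ne ha' hb _ _) (v_t D h ha hb) (v_t D h ha' hb)]
  congr 1
  rw [D.vm h a a' ha ha', neg_add, zpow_add₀ hb, mul_zpow]
  ring

theorem g_symm (D : Dat v lam A0) (h : H) {a b : K} (ha : a ≠ 0) (hb : b ≠ 0) :
    g v lam b a h = - g v lam a b h := by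
  unfold g
  rw [← l_inv D h (t_ne ha hb _ _) (v_t D h ha hb)]
  congr 1
  rw [mul_inv, ← zpow_neg, ← zpow_neg, neg_neg, mul_comm]

theorem g_left (D : Dat v lam A0) (h : H) {a : K} (b : K) (ha : a ≠ 0) (hv : v h a = 0) :
    g v lam a b h = v h b * lam h a := by
  unfold g
  rw [hv, neg_zero, zpow_zero, mul_one, l_zpow D h ha hv]

theorem g_right (D : Dat v lam A0) (h : H) {b : K} (a : K) (hb : b ≠ 0) (hv : v h b = 0) :
    g v lam a b h = - (v h a * lam h b) := by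
  unfold g
  rw [hv, zpow_zero, one_mul, l_zpow D h hb hv]
  ring

theorem g_zero (D : Dat v lam A0) (h : H) {a b : K} (ha : a ≠ 0) (hva : v h a = 0)
    (hvb : v h b = 0) : g v lam a b h = 0 := by
  rw [g_left D h b ha hva, hvb, zero_mul]

theorem g_disj (D : Dat v lam A0) (h : H) {a b : K} (ha : a ≠ 0) (hb : b ≠ 0)
    (hv : v h a = 0 ∨ v h b = 0) : g v lam a b h = v h b * lam h a - v h a * lam h b := by
  rcases hv with hv | hv
  · rw [g_left D h b ha hv, hv]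
    ring
  · rw [g_right D h a hb hv, hv]
    ring

/-- Every nonzero element has finitely many places. -/
theorem fin_pl (D : Dat v lam A0) {a : K} (ha : a ≠ 0) : {h | v h a ≠ 0}.Finite := by
  obtain ⟨c₁, h₁, c₂, h₂, he, -⟩ := D.frac a ∅ ha (by simp)
  obtain ⟨hc₁, -, hf₁⟩ := D.ef c₁ h₁
  obtain ⟨hc₂, -, hf₂⟩ := D.ef c₂ h₂
  refine (hf₁.union hf₂).subset ?_
  intro h hh
  by_contra hcon
  simp only [Set.mem_union, Set.mem_ofPred_eq, not_or, not_not] at hcon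
  have := D.vm h a c₂ ha hc₂
  rw [he] at this
  apply hh
  omega

/-- The sum of the local terms. -/
noncomputable def Phi (v lam : H → K → ℤ) (a b : K) : ℤ := ∑ᶠ h, g v lam a b h

theorem supp (D : Dat v lam A0) {a b : K} (ha : a ≠ 0) :
    Function.support (g v lam a b) ⊆ {h | v h a ≠ 0} ∪ {h | v h b ≠ 0} := by
  intro h hh
  by_contra hcon
  simp only [Set.mem_union, Set.mem_ofPred_eq, not_or, not_not] at hcon
  exact hh (g_zero D h ha hcon.1 hcon.2)

theorem supp_fin (D : Dat v lam A0) {a b : K} (ha : a ≠ 0) (hb : b ≠ 0) :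
    (Function.support (g v lam a b)).Finite :=
  ((fin_pl D ha).union (fin_pl D hb)).subset (supp D ha)

theorem Phi_eq (D : Dat v lam A0) {a b : K} (ha : a ≠ 0) (S : Finset H)
    (hS : ∀ h, v h a ≠ 0 ∨ v h b ≠ 0 → h ∈ S) : Phi v lam a b = ∑ h ∈ S, g v lam a b h := by
  unfold Phi
  apply finsum_eq_sum_of_support_subset
  intro h hh
  exact hS h (supp D ha hh)

theorem Phi_mul (D : Dat v lam A0) {a a' b : K} (ha : a ≠ 0) (ha' : a' ≠ 0) (hb : b ≠ 0) :
    Phi v lam (a * a') b = Phi v lam a b + Phi v lam a' b := by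
  unfold Phi
  rw [← finsum_add_distrib (supp_fin D ha hb) (supp_fin D ha' hb)]
  exact finsum_congr fun h => g_mul D h ha ha' hb

theorem Phi_symm (D : Dat v lam A0) {a b : K} (ha : a ≠ 0) (hb : b ≠ 0) :
    Phi v lam b a = - Phi v lam a b := by
  unfold Phi
  rw [← finsum_neg_distrib]
  exact finsum_congr fun h => g_symm D h ha hb

theorem Phi_one (D : Dat v lam A0) {b : K} (hb : b ≠ 0) : Phi v lam 1 b = 0 := by
  have := Phi_mul D one_ne_zero one_ne_zero hb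
  rw [mul_one] at this
  omega

theorem Phi_inv (D : Dat v lam A0) {a b : K} (ha : a ≠ 0) (hb : b ≠ 0) :
    Phi v lam a⁻¹ b = - Phi v lam a b := by
  have := Phi_mul D ha (inv_ne_zero ha) hb
  rw [mul_inv_cancel₀ ha, Phi_one D hb] at this
  omega

theorem Phi_pow (D : Dat v lam A0) {a b : K} (ha : a ≠ 0) (hb : b ≠ 0) (n : ℕ) :
    Phi v lam (a ^ n) b = n * Phi v lam a b := by
  induction n with
  | zero => simp [Phi_one D hb]
  | succ n ih =>
    rw [pow_succ, Phi_mul D (pow_ne_zero n ha) ha hb, ih]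
    push_cast
    ring

theorem Phi_zpow (D : Dat v lam A0) {a b : K} (ha : a ≠ 0) (hb : b ≠ 0) (n : ℤ) :
    Phi v lam (a ^ n) b = n * Phi v lam a b := by
  obtain ⟨m, rfl | rfl⟩ := n.eq_nat_or_neg
  · rw [zpow_natCast, Phi_pow D ha hb]
  · rw [zpow_neg, zpow_natCast, Phi_inv D (pow_ne_zero m ha) hb, Phi_pow D ha hb]
    ring

/-- A product of elements `π_h ^ n_h`. -/
theorem Phi_prod (D : Dat v lam A0) {b : K} (hb : b ≠ 0) (S : Finset H) (π : H → K) (n : H → ℤ)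
    (hπ : ∀ h ∈ S, π h ≠ 0) (hz : ∀ h ∈ S, Phi v lam (π h) b = 0) :
    (∏ h ∈ S, π h ^ n h) ≠ 0 ∧ Phi v lam (∏ h ∈ S, π h ^ n h) b = 0 := by
  classical
  induction S using Finset.induction_on with
  | empty => simp [Phi_one D hb]
  | insert a S ha ih =>
    obtain ⟨h1, h2⟩ := ih (fun h hh => hπ h (Finset.mem_insert_of_mem hh))
      (fun h hh => hz h (Finset.mem_insert_of_mem hh))
    have hπa := hπ a (Finset.mem_insert_self a S)
    rw [Finset.prod_insert ha]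
    refine ⟨mul_ne_zero (zpow_ne_zero _ hπa) h1, ?_⟩
    rw [Phi_mul D (zpow_ne_zero _ hπa) h1 hb, h2, Phi_zpow D hπa hb,
      hz a (Finset.mem_insert_self a S)]
    ring

/-- The valuation of such a product. -/
theorem v_prod (D : Dat v lam A0) (h₀ : H) (S : Finset H) (π : H → K) (n : H → ℤ)
    (hπ : ∀ h ∈ S, π h ≠ 0) :
    (∏ h ∈ S, π h ^ n h) ≠ 0 ∧ v h₀ (∏ h ∈ S, π h ^ n h) = ∑ h ∈ S, n h * v h₀ (π h) := by
  classical
  induction S using Finset.induction_on with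
  | empty => simp [v_one D]
  | insert a S ha ih =>
    obtain ⟨h1, h2⟩ := ih (fun h hh => hπ h (Finset.mem_insert_of_mem hh))
    have hπa := hπ a (Finset.mem_insert_self a S)
    rw [Finset.prod_insert ha, Finset.sum_insert ha]
    refine ⟨mul_ne_zero (zpow_ne_zero _ hπa) h1, ?_⟩
    rw [D.vm _ _ _ (zpow_ne_zero _ hπa) h1, h2, v_zpow D h₀ hπa]

/-- (A) -/
theorem stepA (D : Dat v lam A0) {a b : K} (ha : a ∈ A0) (hb : b ∈ A0)
    (hd : ∀ h, v h a = 0 ∨ v h b = 0) : Phi v lam a b = 0 := by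
  classical
  have ha0 := (D.ef a ha).1
  have hb0 := (D.ef b hb).1
  have hf := (fin_pl D ha0).union (fin_pl D hb0)
  have hS : ∀ h, v h a ≠ 0 ∨ v h b ≠ 0 → h ∈ hf.toFinset := by
    intro h hh
    rw [Set.Finite.mem_toFinset]
    exact hh
  refine (Phi_eq D ha0 hf.toFinset hS).trans (Eq.trans ?_ (D.disj a ha b hb hd hf.toFinset hS))
  exact Finset.sum_congr rfl fun h _ => g_disj D h ha0 hb0 (hd h)

/-- (B) -/
theorem stepB (D : Dat v lam A0) {c b : K} (hc : c ≠ 0) (hb : b ∈ A0)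
    (hd : ∀ h, v h b ≠ 0 → v h c = 0) : Phi v lam c b = 0 := by
  have hb0 := (D.ef b hb).1
  have hf := fin_pl D hb0
  obtain ⟨c₁, h₁, c₂, h₂, he, hv⟩ := D.frac c hf.toFinset hc (by
    intro h hh
    rw [Set.Finite.mem_toFinset] at hh
    exact hd h hh)
  have hA : ∀ c' ∈ A0, (∀ h ∈ hf.toFinset, v h c' = 0) → Phi v lam c' b = 0 := by
    intro c' hc' hh
    apply stepA D hc' hb
    intro h
    by_cases hvb : v h b = 0
    · exact Or.inr hvb
    · exact Or.inl (hh h (by rw [Set.Finite.mem_toFinset]; exact hvb))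
  have h1 := hA c₁ h₁ fun h hh => (hv h hh).1
  have h2 := hA c₂ h₂ fun h hh => (hv h hh).2
  have h3 := Phi_mul D hc (D.ef c₂ h₂).1 hb0
  rw [he, h1, h2] at h3
  omega

/-- (C), the exchange: `π, σ` good at `h₀`, `ρ ∈ A0` having at most the place `h₀` in common with each of them. -/
theorem exch (D : Dat v lam A0) (h₀ : H) {π σ ρ : K} (hπ : π ∈ A0) (hσ : σ ∈ A0) (hρ : ρ ∈ A0)
    (h1 : v h₀ π = 1) (h2 : v h₀ σ = 1) (h3 : ∀ h, h ≠ h₀ → v h π = 0 ∨ v h ρ = 0)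
    (h4 : ∀ h, h ≠ h₀ → v h σ = 0 ∨ v h ρ = 0) : Phi v lam π ρ = Phi v lam σ ρ := by
  have hπ0 := (D.ef π hπ).1
  have hσ0 := (D.ef σ hσ).1
  have hρ0 := (D.ef ρ hρ).1
  have hB : Phi v lam (π * σ⁻¹) ρ = 0 := by
    apply stepB D (mul_ne_zero hπ0 (inv_ne_zero hσ0)) hρ
    intro h hh
    rw [D.vm h _ _ hπ0 (inv_ne_zero hσ0), v_inv D h hσ0]
    by_cases hh0 : h = h₀
    · subst hh0
      rw [h1, h2]
      norm_num
    · rw [(h3 h hh0).resolve_right hh, (h4 h hh0).resolve_right hh]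
      norm_num
  rw [Phi_mul D hπ0 (inv_ne_zero hσ0) hρ0, Phi_inv D hσ0 hρ0] at hB
  omega

/-- (C) -/
theorem stepC (D : Dat v lam A0) (h₀ : H) {π ρ : K} (hπ : π ∈ A0) (hρ : ρ ∈ A0)
    (h1 : v h₀ π = 1) (h2 : v h₀ ρ = 1) (h3 : ∀ h, h ≠ h₀ → v h π = 0 ∨ v h ρ = 0) :
    Phi v lam π ρ = 0 := by
  classical
  have hπ0 := (D.ef π hπ).1
  have hρ0 := (D.ef ρ hρ).1
  have hf := (fin_pl D hπ0).union (fin_pl D hρ0)
  have hS : ∀ h, v h π ≠ 0 ∨ v h ρ ≠ 0 → h ∈ hf.toFinset := by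
    intro h hh
    rw [Set.Finite.mem_toFinset]
    exact hh
  obtain ⟨σ, hσ, h4, h5⟩ := D.appr hf.toFinset h₀ (hS h₀ (Or.inl (by rw [h1]; norm_num)))
  have hσ0 := (D.ef σ hσ).1
  have hσπ : ∀ h, h ≠ h₀ → v h σ = 0 ∨ v h π = 0 := by
    intro h hh
    by_cases hv : v h π = 0
    · exact Or.inr hv
    · exact Or.inl (h5 h (hS h (Or.inl hv)) hh)
  have hσρ : ∀ h, h ≠ h₀ → v h σ = 0 ∨ v h ρ = 0 := by
    intro h hh
    by_cases hv : v h ρ = 0
    · exact Or.inr hv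
    · exact Or.inl (h5 h (hS h (Or.inr hv)) hh)
  have e1 : Phi v lam π ρ = Phi v lam σ ρ := exch D h₀ hπ hσ hρ h1 h4 h3 hσρ
  have e2 : Phi v lam ρ σ = Phi v lam π σ :=
    exch D h₀ hρ hπ hσ h2 h1 (fun h hh => (hσρ h hh).symm) (fun h hh => (hσπ h hh).symm)
  have e3 : Phi v lam σ π = Phi v lam ρ π :=
    exch D h₀ hσ hρ hπ h4 h2 hσπ (fun h hh => (h3 h hh).symm)
  have s1 := Phi_symm D hρ0 hσ0
  have s2 := Phi_symm D hσ0 hπ0
  have s3 := Phi_symm D hρ0 hπ0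
  omega

/-- (D) for elements of `A0`. -/
theorem stepD (D : Dat v lam A0) {a b : K} (ha : a ∈ A0) (hb : b ∈ A0) : Phi v lam a b = 0 := by
  classical
  have ha0 := (D.ef a ha).1
  have hb0 := (D.ef b hb).1
  have hf := (fin_pl D ha0).union (fin_pl D hb0)
  set S := hf.toFinset with hSdef
  have hS : ∀ h, v h a ≠ 0 ∨ v h b ≠ 0 → h ∈ S := by
    intro h hh
    rw [hSdef, Set.Finite.mem_toFinset]
    exact hh
  -- the elements `π_h`
  have hex : ∀ h : H, ∃ π : K, π ≠ 0 ∧ (h ∈ S → π ∈ A0 ∧ v h π = 1 ∧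
      ∀ h' ∈ S, h' ≠ h → v h' π = 0) := by
    intro h
    by_cases hh : h ∈ S
    · obtain ⟨π, h1, h2, h3⟩ := D.appr S h hh
      exact ⟨π, (D.ef π h1).1, fun _ => ⟨h1, h2, h3⟩⟩
    · exact ⟨1, one_ne_zero, fun h' => absurd h' hh⟩
  choose π hπ0 hπ using hex
  -- it is enough to treat the `π_h`
  have key : ∀ h ∈ S, Phi v lam (π h) b = 0 := by
    intro h hh
    obtain ⟨hπA, hπ1, hπ2⟩ := hπ h hh
    set S' := S ∪ (fin_pl D (hπ0 h)).toFinset with hS'def
    have hSS' : ∀ h', h' ∈ S → h' ∈ S' := fun h' hh' => Finset.mem_union_left _ hh'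
    have hS' : ∀ h', v h' (π h) ≠ 0 → h' ∈ S' := by
      intro h' hh'
      apply Finset.mem_union_right
      rw [Set.Finite.mem_toFinset]
      exact hh'
    have hex2 : ∀ h' : H, ∃ ρ : K, ρ ≠ 0 ∧ (h' ∈ S → ρ ∈ A0 ∧ v h' ρ = 1 ∧
        ∀ h'' ∈ S', h'' ≠ h' → v h'' ρ = 0) := by
      intro h'
      by_cases hh' : h' ∈ S
      · obtain ⟨ρ, h1, h2, h3⟩ := D.appr S' h' (hSS' h' hh')
        exact ⟨ρ, (D.ef ρ h1).1, fun _ => ⟨h1, h2, h3⟩⟩
      · exact ⟨1, one_ne_zero, fun h'' => absurd h'' hh'⟩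
    choose ρ hρ0 hρ using hex2
    -- `Φ(ρ_{h'}, π_h) = 0`
    have hpr : ∀ h' ∈ S, Phi v lam (ρ h') (π h) = 0 := by
      intro h' hh'
      obtain ⟨hρA, hρ1, hρ2⟩ := hρ h' hh'
      have hcom : ∀ h'', h'' ≠ h' → v h'' (ρ h') = 0 ∨ v h'' (π h) = 0 := by
        intro h'' hne
        by_cases hv : v h'' (π h) = 0
        · exact Or.inr hv
        · exact Or.inl (hρ2 h'' (hS' h'' hv) hne)
      by_cases hhh : h' = h
      · subst hhh
        exact stepC D h' hρA hπA hρ1 hπ1 hcom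
      · apply stepA D hρA hπA
        intro h''
        by_cases hne : h'' = h'
        · subst hne
          exact Or.inr (hπ2 h'' hh' hhh)
        · exact hcom h'' hne
    obtain ⟨hP0, hP⟩ := Phi_prod D (hπ0 h) S ρ (fun h' => v h' b) (fun h' _ => hρ0 h') hpr
    -- the rest
    have hd : Phi v lam (b * (∏ h' ∈ S, ρ h' ^ v h' b)⁻¹) (π h) = 0 := by
      apply stepB D (mul_ne_zero hb0 (inv_ne_zero hP0)) hπA
      intro h'' hh''
      have hmem := hS' h'' hh''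
      rw [D.vm _ _ _ hb0 (inv_ne_zero hP0), v_inv D _ hP0,
        (v_prod D h'' S ρ (fun h' => v h' b) (fun h' _ => hρ0 h')).2]
      by_cases hm : h'' ∈ S
      · rw [Finset.sum_eq_single_of_mem h'' hm, (hρ h'' hm).2.1]
        · ring
        · intro h' hh' hne
          rw [(hρ h' hh').2.2 h'' hmem (Ne.symm hne), mul_zero]
      · rw [Finset.sum_eq_zero]
        · have : v h'' b = 0 := by
            by_contra hcon
            exact hm (hS h'' (Or.inr hcon))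
          rw [this]
          ring
        · intro h' hh'
          have hne : h'' ≠ h' := by
            rintro rfl
            exact hm hh'
          rw [(hρ h' hh').2.2 h'' hmem hne, mul_zero]
    rw [Phi_mul D hb0 (inv_ne_zero hP0) (hπ0 h), Phi_inv D hP0 (hπ0 h), hP] at hd
    have := Phi_symm D hb0 (hπ0 h)
    omega
  obtain ⟨hP0, hP⟩ := Phi_prod D hb0 S π (fun h => v h a) (fun h _ => hπ0 h) key
  have hc : Phi v lam (a * (∏ h ∈ S, π h ^ v h a)⁻¹) b = 0 := by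
    apply stepB D (mul_ne_zero ha0 (inv_ne_zero hP0)) hb
    intro h'' hh''
    have hm : h'' ∈ S := hS h'' (Or.inr hh'')
    rw [D.vm _ _ _ ha0 (inv_ne_zero hP0), v_inv D _ hP0,
      (v_prod D h'' S π (fun h => v h a) (fun h _ => hπ0 h)).2,
      Finset.sum_eq_single_of_mem h'' hm, (hπ h'' hm).2.1]
    · ring
    · intro h' hh' hne
      rw [(hπ h' hh').2.2 h'' hm (Ne.symm hne), mul_zero]
  rw [Phi_mul D ha0 (inv_ne_zero hP0) hb0, Phi_inv D hP0 hb0, hP] at hc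
  omega

/-- Half of the reduction to `A0`. -/
theorem half (D : Dat v lam A0) {a b : K} (ha : a ≠ 0) (hb : b ∈ A0) : Phi v lam a b = 0 := by
  obtain ⟨c₁, h₁, c₂, h₂, he, -⟩ := D.frac a ∅ ha (by simp)
  have h3 := Phi_mul D ha (D.ef c₂ h₂).1 (D.ef b hb).1
  rw [he, stepD D h₁ hb, stepD D h₂ hb] at h3
  omega

theorem all (D : Dat v lam A0) {a b : K} (ha : a ≠ 0) (hb : b ≠ 0) : Phi v lam a b = 0 := by
  obtain ⟨c₁, h₁, c₂, h₂, he, -⟩ := D.frac b ∅ hb (by simp)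
  have h3 := Phi_mul D hb (D.ef c₂ h₂).1 ha
  rw [he] at h3
  have s1 := Phi_symm D ha (D.ef c₁ h₁).1
  have s2 := Phi_symm D ha (D.ef c₂ h₂).1
  have s3 := Phi_symm D ha hb
  have z1 := half D ha h₁
  have z2 := half D ha h₂
  omega

end TAMEF

open _root_.CUB.TAMEF in
theorem t_TAMEF : S_TAMEF := by
  intro K H _ v lam A0 hvm hlm hef happr hfrac hdisj a b ha hb S hS
  have D : Dat v lam A0 := ⟨hvm, hlm, hef, happr, hfrac, hdisj⟩
  have h := Phi_eq D ha S hS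
  rw [all D ha hb] at h
  exact h.symm

end CUB


end

section

/-!
# CUB: existence of the divisors of the norms of the tame symbols
-/

set_option autoImplicit false

open Polynomial

namespace CUB

namespace TDE

/-- Evaluation at `0`. -/
noncomputable def ev0 (k R : Type) [Field k] [CommRing R] [Algebra k R] : R[X] →ₐ[k] R :=
  evs (AlgHom.id k R) 0

theorem ev0_C {k R : Type} [Field k] [CommRing R] [Algebra k R] (r : R) : ev0 k R (C r) = r :=
  evs_C _ _ _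

theorem ev0_X {k R : Type} [Field k] [CommRing R] [Algebra k R] : ev0 k R (X : R[X]) = 0 :=
  evs_X _ _

theorem ev0_surj (k R : Type) [Field k] [CommRing R] [Algebra k R] :
    Function.Surjective (ev0 k R) := fun r => ⟨C r, ev0_C r⟩

/-- Norms for the image of a surjective homomorphism. -/
theorem isNm_comp {L R S : Type} [Field L] [CommRing R] [CommRing S] (ρ : R →+* L) (φ : S →+* R)
    (hφ : Function.Surjective φ) (x : L) (b c : S) (h : IsNm (ρ.comp φ) x b c) :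
    IsNm ρ x (φ b) (φ c) := by
  unfold IsNm at h ⊢
  have hr : Set.range (ρ.comp φ) = Set.range ρ := by
    rw [RingHom.coe_comp]
    exact hφ.range_comp ρ
  rw [hr] at h
  exact h

theorem evs_mem {k R K : Type} [Field k] [CommRing R] [Algebra k R] [Field K] [Algebra k K]
    (θ : R →ₐ[k] K) (O : ValuationSubring K) (h : ∀ r, θ r ∈ O) (u : K) (hu : u ∈ O) (P : R[X]) :
    evs θ u P ∈ O := by
  induction P using Polynomial.induction_on with
  | C a => rw [evs_C]; exact h a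
  | add p q hp hq => rw [map_add]; exact O.add_mem _ _ hp hq
  | monomial n a _ =>
    rw [map_mul, map_pow, evs_C, evs_X]
    exact O.mul_mem _ _ (h a) (pow_mem hu _)

theorem res_u {K : Type} [Field K] (O : ValuationSubring K) (u : K) (hu : u ∈ O) (hu' : u⁻¹ ∉ O) :
    IsLocalRing.residue O ⟨u, hu⟩ = 0 := by
  rw [IsLocalRing.residue_eq_zero_iff, IsLocalRing.mem_maximalIdeal, mem_nonunits_iff]
  intro h
  obtain ⟨v, hv⟩ := h.exists_right_inv
  have h1 : u * (v : K) = 1 := congrArg Subtype.val hv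
  have h2 : (v : K) = u⁻¹ := by
    have hu0 : u ≠ 0 := by
      rintro rfl
      rw [zero_mul] at h1
      exact zero_ne_one h1
    field_simp
    linear_combination h1
  exact hu' (h2 ▸ v.2)

theorem rho_eq {k R K : Type} [Field k] [CommRing R] [Algebra k R] [Field K] [Algebra k K]
    (θ : R →ₐ[k] K) (O : ValuationSubring K) (h : ∀ r, θ r ∈ O) (u : K) (hu : u ∈ O)
    (hu' : u⁻¹ ∉ O) (h' : ∀ P, evs θ u P ∈ O) :
    rhoO (evs θ u) O h' = (rhoO θ O h).comp (ev0 k R).toRingHom := by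
  apply Polynomial.ringHom_ext
  · intro r
    have h1 : ((rhoO θ O h).comp (ev0 k R).toRingHom) (C r) = rhoO θ O h (ev0 k R (C r)) := rfl
    rw [h1, ev0_C]
    change IsLocalRing.residue O ⟨evs θ u (C r), _⟩ = IsLocalRing.residue O ⟨θ r, _⟩
    congr 1
    exact Subtype.ext (evs_C _ _ _)
  · have h1 : ((rhoO θ O h).comp (ev0 k R).toRingHom) X = rhoO θ O h (ev0 k R X) := rfl
    rw [h1, ev0_X, map_zero]
    change IsLocalRing.residue O ⟨evs θ u X, _⟩ = 0
    rw [← res_u O u hu hu']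
    congr 1
    exact Subtype.ext (evs_X _ _)

theorem evs_reflect {k R K : Type} [Field k] [CommRing R] [Algebra k R] [Field K] [Algebra k K]
    (θ : R →ₐ[k] K) (s : K) (hs : s ≠ 0) (N : ℕ) (P : R[X]) (hN : P.natDegree ≤ N) :
    evs θ s⁻¹ (reflect N P) * s ^ N = evs θ s P := by
  letI : Invertible s := invertibleOfNonzero hs
  have h := eval₂_reflect_mul_pow θ.toRingHom s N P hN
  rw [invOf_eq_inv] at h
  exact h

end TDE

/-- Existence of the divisors of the norms of the tame symbols. -/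
theorem t_TDE : M_TDE := by
  intro hDIM1 hDVX hINFA hINFD hGTD k R K E _ _ _ _ _ _ _ _ n θ s q hs hfr hq O hO a ha
  obtain ⟨hsO, h, T, hT⟩ := hO
  have hu : s⁻¹ ∈ O := (O.mem_or_inv_mem s).resolve_left hsO
  have hu' : (s⁻¹)⁻¹ ∉ O := by rwa [inv_inv]
  have h' : ∀ P, evs θ s⁻¹ P ∈ O := TDE.evs_mem θ O h s⁻¹ hu
  have hX : (X : R[X]) ∉ q.1.asIdeal := by
    rw [hq]
    intro hc
    have : evs θ s (X : R[X]) = 0 := hc
    rw [evs_X] at this
    exact hs this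
  obtain ⟨hi, _, _⟩ := hINFA.2.2.1 R q.1.asIdeal q.1.isPrime hX
  have hd : rdim k (⟨infI q.1.asIdeal, hi⟩ : PrimeSpectrum R[X]) = (n + 1 + 1 : ℕ) :=
    (hINFD k R q.1.asIdeal q.1.isPrime hi hX).trans q.2
  have hz : rdim k (PrimeSpectrum.comap (TDE.ev0 k R).toRingHom T.1) = (n + 1 : ℕ) :=
    (rdim_comap (TDE.ev0 k R) (TDE.ev0_surj k R) T.1).trans T.2
  have hrho := TDE.rho_eq θ O h s⁻¹ hu hu' h'
  have hq' : infI q.1.asIdeal = RingHom.ker (evs θ s⁻¹).toRingHom := by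
    rw [hq]
    exact hINFA.2.2.2.2 R K θ.toRingHom s hs
  have hfr' : ∀ y : K, ∃ a b : R[X], evs θ s⁻¹ b ≠ 0 ∧ y * evs θ s⁻¹ b = evs θ s⁻¹ a := by
    intro y
    obtain ⟨A, B, hB, hy⟩ := hfr y
    have h1 := TDE.evs_reflect θ s hs (max A.natDegree B.natDegree) A (le_max_left _ _)
    have h2 := TDE.evs_reflect θ s hs (max A.natDegree B.natDegree) B (le_max_right _ _)
    have hp : s ^ (max A.natDegree B.natDegree) ≠ 0 := pow_ne_zero _ hs
    refine ⟨reflect (max A.natDegree B.natDegree) A, reflect (max A.natDegree B.natDegree) B, ?_, ?_⟩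
    · intro h0
      rw [h0, zero_mul] at h2
      exact hB h2.symm
    · refine mul_right_cancel₀ hp ?_
      rw [mul_assoc, h1, h2, hy]
  have hzk : (PrimeSpectrum.comap (TDE.ev0 k R).toRingHom T.1).asIdeal =
      RingHom.ker (rhoO (evs θ s⁻¹) O h') := by
    rw [hrho, ← RingHom.comap_ker, ← hT]
    rfl
  obtain ⟨w, b, c, htame, hnm⟩ := (hGTD k R[X] K n (evs θ s⁻¹) ⟨⟨infI q.1.asIdeal, hi⟩, hd⟩
    ⟨PrimeSpectrum.comap (TDE.ev0 k R).toRingHom T.1, hz⟩ hfr' hq').2 O h' hzk a s⁻¹ ha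
    (inv_ne_zero hs)
  rw [hrho] at hnm
  have hnm' := TDE.isNm_comp (rhoO θ O h) (TDE.ev0 k R).toRingHom (TDE.ev0_surj k R) _ b c hnm
  have hb : (TDE.ev0 k R).toRingHom b ∉ T.1.asIdeal := by
    rw [hT]
    exact hnm'.1
  have hc : (TDE.ev0 k R).toRingHom c ∉ T.1.asIdeal := by
    rw [hT]
    exact hnm'.2.1
  obtain ⟨db, hdb⟩ := hDVX k R E n T _ hb
  obtain ⟨dc, hdc⟩ := hDVX k R E n T _ hc
  exact ⟨db - dc, h, T, w, _, _, db, dc, hT, htame, hnm', hdb, hdc, rfl⟩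

end CUB


end
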