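import Mathlib
import Pool.Agent.QVM.C05
import Pool.Agent.QVM.C12
import Pool.Agent.QVM.C21

/-! Parts: CUB.A_DIM1, CUB.A_GLO, CUB.A_LENA, CUB.B_B1, CUB.B_INFL, CUB.B_KERQ, CUB.R_AVO, CUB.R_DEV, CUB.R_TAME, QCV.U_ULS, QCV.U_ULZ -/

section

/-!
# CUB, module DIM1: the dimension of primes is finite and drops strictly
-/

set_option autoImplicit false

namespace CUB

/-- DIM1. -/
theorem t_DIM1 : S_DIM1 := by
  intro k A _ _ _ _ p
  exact ⟨exists_rdim p, fun q h => rdim_lt h⟩

end CUB


end

section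

/-!
# CUB: localisation away from an element is good
-/

set_option autoImplicit false

namespace CUB

open Polynomial

namespace GLO

variable {k A B : Type} [Field k] [CommRing A] [CommRing B] [Algebra k A] [Algebra k B]

lemma rdim_le (φ : A →ₐ[k] B) (P : PrimeSpectrum B) (b : A) (hb : φ b ∉ P.asIdeal)
    (hs : ∀ x : B, ∃ (a : A) (m : ℕ), φ a = φ b ^ m * x) :
    rdim k P ≤ rdim k (PrimeSpectrum.comap φ.toRingHom P) := by
  unfold rdim
  have H : (PrimeSpectrum.comap φ.toRingHom P).asIdeal ≤ P.asIdeal.comap φ := le_refl _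
  let ψ : (A ⧸ (PrimeSpectrum.comap φ.toRingHom P).asIdeal) →ₐ[k] (B ⧸ P.asIdeal) :=
    Ideal.quotientMapₐ P.asIdeal φ H
  have h1 : Function.Injective ψ := Ideal.quotientMap_injective' (H := H) (le_refl _)
  let _ : Algebra (A ⧸ (PrimeSpectrum.comap φ.toRingHom P).asIdeal) (B ⧸ P.asIdeal) :=
    ψ.toRingHom.toAlgebra
  have hmap : ∀ x, algebraMap (A ⧸ (PrimeSpectrum.comap φ.toRingHom P).asIdeal)
      (B ⧸ P.asIdeal) x = ψ x := fun _ => rfl
  have hmk : ∀ a : A, ψ (Ideal.Quotient.mk _ a) = Ideal.Quotient.mk P.asIdeal (φ a) :=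
    fun _ => rfl
  have : IsScalarTower k (A ⧸ (PrimeSpectrum.comap φ.toRingHom P).asIdeal) (B ⧸ P.asIdeal) :=
    IsScalarTower.of_algebraMap_eq (fun x => (ψ.commutes x).symm)
  have : FaithfulSMul (A ⧸ (PrimeSpectrum.comap φ.toRingHom P).asIdeal) (B ⧸ P.asIdeal) :=
    (faithfulSMul_iff_algebraMap_injective _ _).mpr h1
  have : Algebra.IsAlgebraic (A ⧸ (PrimeSpectrum.comap φ.toRingHom P).asIdeal)
      (B ⧸ P.asIdeal) := by
    constructor
    intro x
    obtain ⟨x, rfl⟩ := Ideal.Quotient.mk_surjective x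
    obtain ⟨a, m, ham⟩ := hs x
    refine ⟨C (Ideal.Quotient.mk _ b ^ m) * X - C (Ideal.Quotient.mk _ a), ?_, ?_⟩
    · intro h0
      have h2 := congrArg (fun q => coeff q 1) h0
      simp only [coeff_sub, coeff_C_mul, coeff_X_one, mul_one, coeff_C_succ, sub_zero,
        coeff_zero] at h2

      have h4 : (Ideal.Quotient.mk (PrimeSpectrum.comap φ.toRingHom P).asIdeal b) = 0 :=
        eq_zero_of_pow_eq_zero h2
      rw [Ideal.Quotient.eq_zero_iff_mem] at h4
      exact hb h4
    · rw [map_sub, map_mul, aeval_C, aeval_X, aeval_C, hmap, hmap, map_pow, hmk, hmk, ham,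
        map_mul, map_pow, sub_self]
  have h := trdeg_add_eq k (A ⧸ (PrimeSpectrum.comap φ.toRingHom P).asIdeal) (A := B ⧸ P.asIdeal)
  rw [trdeg_eq_zero (R := A ⧸ (PrimeSpectrum.comap φ.toRingHom P).asIdeal) (A := B ⧸ P.asIdeal),
    add_zero] at h
  exact h.ge

lemma max_le (φ : A →ₐ[k] B) (P : PrimeSpectrum B) (b : A) (hb : φ b ∉ P.asIdeal)
    (hs : ∀ x : B, ∃ (a : A) (m : ℕ), φ a = φ b ^ m * x) :
    IsLocalRing.maximalIdeal (Localization.AtPrime P.asIdeal) ≤
      (PrimeSpectrum.comap φ.toRingHom P).asIdeal.map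
        ((algebraMap B (Localization.AtPrime P.asIdeal)).comp φ.toRingHom) := by
  rw [← Localization.AtPrime.map_eq_maximalIdeal, Ideal.map_le_iff_le_comap]
  intro x hx
  rw [Ideal.mem_comap]
  obtain ⟨a, m, ham⟩ := hs x
  have h1 : φ a ∈ P.asIdeal := by
    rw [ham]
    exact P.asIdeal.mul_mem_left _ hx
  have h2 : algebraMap B (Localization.AtPrime P.asIdeal) (φ a) ∈
      (PrimeSpectrum.comap φ.toRingHom P).asIdeal.map
        ((algebraMap B (Localization.AtPrime P.asIdeal)).comp φ.toRingHom) :=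
    Ideal.mem_map_of_mem ((algebraMap B (Localization.AtPrime P.asIdeal)).comp φ.toRingHom)
      (show a ∈ (PrimeSpectrum.comap φ.toRingHom P).asIdeal from h1)
  rw [ham, map_mul] at h2
  have h3 : IsUnit (algebraMap B (Localization.AtPrime P.asIdeal) (φ b ^ m)) := by
    refine IsLocalization.map_units (Localization.AtPrime P.asIdeal)
      (⟨φ b ^ m, ?_⟩ : P.asIdeal.primeCompl)
    intro h
    exact hb (P.isPrime.mem_of_pow_mem m h)
  exact (Ideal.unit_mul_mem_iff_mem _ h3).mp h2

end GLO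

theorem t_GLO : S_GLO := by
  intro k A B _ _ _ _ _ _ _ φ a hloc
  let _ : Algebra A B := φ.toRingHom.toAlgebra
  have hloc' : IsLocalization.Away a B := hloc
  have hal : ∀ x : A, algebraMap A B x = φ x := fun _ => rfl
  have hs : ∀ x : B, ∃ (c : A) (m : ℕ), φ c = φ a ^ m * x := by
    intro x
    obtain ⟨m, c, h⟩ := IsLocalization.Away.surj a x
    refine ⟨c, m, ?_⟩
    rw [← hal, ← hal, ← h, mul_comm]
  have hu : IsUnit (φ a) := by
    rw [← hal]
    exact IsLocalization.Away.algebraMap_isUnit a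
  refine ⟨?_, fun P => ?_⟩
  · have h1 : (algebraMap A B).Flat :=
      RingHom.flat_algebraMap_iff.mpr (IsLocalization.flat _ (Submonoid.powers a))
    exact h1
  · have hb : φ a ∉ P.asIdeal := fun h => P.isPrime.ne_top (Ideal.eq_top_of_isUnit_mem _ h hu)
    refine ⟨?_, fun _ => GLO.max_le φ P a hb hs⟩
    have h1 := GLO.rdim_le φ P a hb hs
    simpa using h1

end CUB


end

section

/-!
# CUB: lengths and surjections
-/

set_option autoImplicit false

namespace CUB

namespace LENA

/-- surjective homomorphisms, lengths of the quotients -/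
theorem length_quot {R S : Type} [CommRing R] [CommRing S] (f : R →+* S)
    (hf : Function.Surjective f) (I : Ideal R) (J : Ideal S) (h : I = J.comap f) :
    Module.length R (R ⧸ I) = Module.length S (S ⧸ J) := by
  letI : Algebra R S := f.toAlgebra
  have h1 : Module.length R (S ⧸ J) = Module.length S (S ⧸ J) :=
    Module.length_eq_of_surjective (R := S) (S := R) (M := S ⧸ J) hf
  rw [← h1]
  let g : R →ₐ[R] (S ⧸ J) := Algebra.ofId R (S ⧸ J)
  have hg : ∀ x, g x = Ideal.Quotient.mk J (f x) := fun x => rfl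
  have hgs : Function.Surjective g.toLinearMap := by
    intro y
    obtain ⟨z, rfl⟩ := Ideal.Quotient.mk_surjective y
    obtain ⟨x, rfl⟩ := hf z
    exact ⟨x, rfl⟩
  have hk : LinearMap.ker g.toLinearMap = I := by
    ext x
    rw [LinearMap.mem_ker, h, Ideal.mem_comap]
    have : g.toLinearMap x = Ideal.Quotient.mk J (f x) := rfl
    rw [this, Ideal.Quotient.eq_zero_iff_mem]
  have e := g.toLinearMap.quotKerEquivOfSurjective hgs
  rw [hk] at e
  exact e.length_eq

end LENA

theorem t_LENA : S_LENA := by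
  intro A B _ _ φ hφ J P
  have hP : (PrimeSpectrum.comap φ P).asIdeal = P.asIdeal.comap φ := rfl
  let ψ := Localization.localRingHom (PrimeSpectrum.comap φ P).asIdeal P.asIdeal φ hP
  have hs : Function.Surjective ψ := by
    intro y
    obtain ⟨b, s, rfl⟩ := IsLocalization.exists_mk'_eq P.asIdeal.primeCompl y
    obtain ⟨a, rfl⟩ := hφ b
    obtain ⟨t, ht⟩ := hφ s.1
    have htp : t ∈ (PrimeSpectrum.comap φ P).asIdeal.primeCompl := by
      intro h
      have h2 : φ t ∈ P.asIdeal := h
      rw [ht] at h2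
      exact s.2 h2
    refine ⟨IsLocalization.mk' _ a ⟨t, htp⟩, ?_⟩
    simp only [ψ]
    rw [Localization.localRingHom_mk']
    congr 1
    exact Subtype.ext ht
  have hI : (J.comap φ).map (algebraMap A (Localization.AtPrime (PrimeSpectrum.comap φ P).asIdeal)) =
      (J.map (algebraMap B (Localization.AtPrime P.asIdeal))).comap ψ := by
    ext z
    obtain ⟨a, s, rfl⟩ := IsLocalization.exists_mk'_eq (PrimeSpectrum.comap φ P).asIdeal.primeCompl z
    rw [Ideal.mem_comap, IsLocalization.mk'_mem_map_algebraMap_iff]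
    simp only [ψ]
    rw [Localization.localRingHom_mk', IsLocalization.mk'_mem_map_algebraMap_iff]
    constructor
    · rintro ⟨t, ht, h⟩
      refine ⟨φ t, ht, ?_⟩
      rw [← map_mul]
      exact h
    · rintro ⟨u, hu, h⟩
      obtain ⟨t, rfl⟩ := hφ u
      refine ⟨t, hu, ?_⟩
      rw [Ideal.mem_comap, map_mul]
      exact h
  unfold len
  rw [LENA.length_quot ψ hs _ _ hI]

end CUB


end

section

/-!
# CUB, block B: existence of the specialisation at infinity of a cycle (S_B1)
-/

set_option autoImplicit false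

open Polynomial

namespace CUB

namespace B1

/-- The length at a prime of the quotient by the unit ideal is zero. -/
lemma len_top {A : Type} [CommRing A] (p : PrimeSpectrum A) : len (⊤ : Ideal A) p = 0 := by
  unfold len
  rw [Ideal.map_top]
  have h : Subsingleton (Localization.AtPrime p.asIdeal ⧸
      (⊤ : Ideal (Localization.AtPrime p.asIdeal))) := by
    infer_instance
  rw [Module.length_eq_zero]
  rfl

/-- Evaluation at `0`, as a homomorphism of `k`-algebras. -/
noncomputable def ev0 (k R : Type) [Field k] [CommRing R] [Algebra k R] : R[X] →ₐ[k] R :=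
  evs (AlgHom.id k R) 0

lemma ev0_toRingHom (k R : Type) [Field k] [CommRing R] [Algebra k R] :
    (ev0 k R).toRingHom = evalRingHom (0 : R) := rfl

lemma ev0_surjective (k R : Type) [Field k] [CommRing R] [Algebra k R] :
    Function.Surjective (ev0 k R) := fun r => ⟨C r, evs_C _ _ _⟩

lemma pushP_injective {k A B : Type} [Field k] [CommRing A] [CommRing B] [Algebra k A]
    [Algebra k B] {n : ℕ} (φ : A →ₐ[k] B) (hφ : Function.Surjective φ) :
    Function.Injective (pushP (n := n) φ hφ) := by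
  intro P P' h
  have h1 : PrimeSpectrum.comap φ.toRingHom P.1 = PrimeSpectrum.comap φ.toRingHom P'.1 :=
    congrArg Subtype.val h
  exact Subtype.ext (PrimeSpectrum.comap_injective_of_surjective φ.toRingHom hφ h1)

/-- The specialisation at infinity of one subvariety. -/
lemma one (hDVX : S_DVX) (hINFA : S_INFA) (hINFD : S_INFD) (k R E : Type) [Field k]
    [CommRing R] [Algebra k R] [Algebra.FiniteType k R] [Field E] (n : ℕ)
    (z : RP k R[X] (n + 1)) :
    ∃ d : RP k R n →₀ E, ∀ p : RP k R n, d p = (bet z.1.asIdeal p.1 : E) := by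
  by_cases hX : (X : R[X]) ∈ z.1.asIdeal
  · refine ⟨0, fun p => ?_⟩
    have h1 : infI z.1.asIdeal = ⊤ := hINFA.2.1 R z.1.asIdeal hX
    have h2 : bet z.1.asIdeal p.1 = 0 := by
      unfold bet
      rw [h1, top_sup_eq]
      exact len_top _
    rw [h2]
    simp
  · obtain ⟨hi, hXi, -⟩ := hINFA.2.2.1 R z.1.asIdeal z.1.isPrime hX
    have h1 : rdim k (⟨infI z.1.asIdeal, hi⟩ : PrimeSpectrum R[X]) = ((n + 1 : ℕ) : Cardinal) :=
      (hINFD k R z.1.asIdeal z.1.isPrime hi hX).trans z.2
    obtain ⟨c, hc⟩ := hDVX k R[X] E n ⟨⟨infI z.1.asIdeal, hi⟩, h1⟩ X hXi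
    refine ⟨Finsupp.comapDomain (pushP (n := n) (ev0 k R) (ev0_surjective k R)) c
      (pushP_injective _ _).injOn, fun p => ?_⟩
    rw [Finsupp.comapDomain_apply]
    exact hc (pushP (ev0 k R) (ev0_surjective k R) p)

end B1

theorem t_B1 : M_B1 := by
  intro hDVX hINFA hINFD k R E _ _ _ _ _ n c
  choose D hD using fun z : RP k R[X] (n + 1) => B1.one hDVX hINFA hINFD k R E n z
  refine ⟨c.sum (fun z e => e • D z), fun p => ?_⟩
  rw [Finsupp.sum_apply]
  refine Finsupp.sum_congr fun z _ => ?_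
  rw [Finsupp.smul_apply, smul_eq_mul, hD z p]

end CUB


end

section

/-!
# INFL: lengths in the chart at infinity
-/

set_option autoImplicit false

open Polynomial

namespace CUB

namespace INFL

/-- The ring of Laurent polynomials, in the model used by `infI`. -/
abbrev LL (R : Type) [CommRing R] : Type := Localization.Away (X : R[X])

/-- The first chart. -/
noncomputable abbrev ph1 (R : Type) [CommRing R] : R[X] →+* LL R :=
  algebraMap R[X] (Localization.Away (X : R[X]))

/-- The second chart. -/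
noncomputable abbrev ph2 (R : Type) [CommRing R] : R[X] →+* LL R :=
  eval₂RingHom ((algebraMap R[X] (Localization.Away (X : R[X]))).comp C)
    (IsLocalization.Away.invSelf (X : R[X]))

variable (R : Type) [CommRing R]

lemma ph2_X : ph2 R X = (IsLocalization.Away.invSelf (X : R[X]) : LL R) := by
  simp [ph2]

lemma ph2_C (r : R) : ph2 R (C r) = ph1 R (C r) := by
  simp [ph2]

lemma mul_inv : ph1 R X * (IsLocalization.Away.invSelf (X : R[X]) : LL R) = 1 :=
  IsLocalization.Away.mul_invSelf (X : R[X])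

lemma ph2_unit : IsUnit (ph2 R X) := by
  rw [ph2_X]
  exact IsUnit.of_mul_eq_one (ph1 R X) (by rw [mul_comm]; exact mul_inv R)

/-- The automorphism `X ↦ 1 / X` of the ring of Laurent polynomials. -/
noncomputable def sig : LL R →+* LL R :=
  IsLocalization.Away.lift (X : R[X]) (g := ph2 R) (ph2_unit R)

lemma sig_ph1 (a : R[X]) : sig R (ph1 R a) = ph2 R a :=
  IsLocalization.Away.lift_eq (X : R[X]) (ph2_unit R) a

lemma sig_comp : (sig R).comp (ph1 R) = ph2 R := RingHom.ext (sig_ph1 R)

lemma sig_inv : sig R (IsLocalization.Away.invSelf (X : R[X]) : LL R) = ph1 R X := by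
  have h1 : sig R (ph1 R X) * sig R (IsLocalization.Away.invSelf (X : R[X]) : LL R) = 1 := by
    rw [← map_mul, mul_inv, map_one]
  rw [sig_ph1, ph2_X] at h1
  calc sig R (IsLocalization.Away.invSelf (X : R[X]) : LL R)
      = (ph1 R X * (IsLocalization.Away.invSelf (X : R[X]) : LL R)) *
        sig R (IsLocalization.Away.invSelf (X : R[X]) : LL R) := by rw [mul_inv, one_mul]
    _ = ph1 R X := by rw [mul_assoc, h1, mul_one]

lemma sig_sig : (sig R).comp (sig R) = RingHom.id (LL R) := by
  apply IsLocalization.ringHom_ext (Submonoid.powers (X : R[X]))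
  apply Polynomial.ringHom_ext
  · intro r
    change sig R (sig R (ph1 R (C r))) = ph1 R (C r)
    rw [sig_ph1, ph2_C, sig_ph1, ph2_C]
  · change sig R (sig R (ph1 R X)) = ph1 R X
    rw [sig_ph1, ph2_X, sig_inv]

lemma sig_bij : Function.Bijective (sig R) := by
  have h : ∀ x, sig R (sig R x) = x := fun x => RingHom.congr_fun (sig_sig R) x
  exact ⟨Function.LeftInverse.injective h, Function.RightInverse.surjective h⟩

lemma flat1 : (ph1 R).Flat := by
  rw [RingHom.flat_algebraMap_iff]
  exact IsLocalization.flat (LL R) (Submonoid.powers (X : R[X]))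

lemma flat2 : (ph2 R).Flat := by
  rw [← sig_comp]
  exact RingHom.Flat.comp (flat1 R) (RingHom.Flat.of_bijective (sig_bij R))

lemma mc1 (J : Ideal (LL R)) : (J.comap (ph1 R)).map (ph1 R) = J :=
  IsLocalization.map_comap (Submonoid.powers (X : R[X])) (LL R) J

lemma mc2 (J : Ideal (LL R)) : (J.comap (ph2 R)).map (ph2 R) = J := by
  rw [← sig_comp, ← Ideal.comap_comap, ← Ideal.map_map, mc1,
    Ideal.map_comap_of_surjective _ (sig_bij R).2]

lemma key {A B : Type} [CommRing A] [CommRing B] (φ : A →+* B) (P : PrimeSpectrum B)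
    (h : (P.asIdeal.comap φ).map φ = P.asIdeal) :
    IsLocalRing.maximalIdeal (Localization.AtPrime P.asIdeal) ≤
    (PrimeSpectrum.comap φ P).asIdeal.map
      ((algebraMap B (Localization.AtPrime P.asIdeal)).comp φ) := by
  rw [← Ideal.map_map, PrimeSpectrum.comap_asIdeal, h,
    Localization.AtPrime.map_eq_maximalIdeal]

lemma refl_eq (P : R[X]) (N : ℕ) (hP : P.natDegree ≤ N) :
    ph2 R (reflect N P) * ph1 R X ^ N = ph1 R P := by
  let _ : Invertible (ph1 R X) :=
    { invOf := IsLocalization.Away.invSelf (X : R[X])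
      invOf_mul_self := by rw [mul_comm]; exact mul_inv R
      mul_invOf_self := mul_inv R }
  have h := eval₂_reflect_mul_pow ((ph1 R).comp C) (ph1 R X) N P hP
  refine Eq.trans h ?_
  have h2 : eval₂RingHom ((ph1 R).comp C) (ph1 R X) = ph1 R := by
    apply Polynomial.ringHom_ext
    · intro r
      simp
    · simp
  exact RingHom.congr_fun h2 P

lemma ph1_unit : IsUnit (ph1 R X) := IsUnit.of_mul_eq_one _ (mul_inv R)

lemma span_eq (P : R[X]) (N : ℕ) (hP : P.natDegree ≤ N) :
    Ideal.span {ph1 R P} = Ideal.span {ph2 R (reflect N P)} := by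
  rw [← refl_eq R P N hP]
  exact Ideal.span_singleton_mul_right_unit ((ph1_unit R).pow N) _

end INFL

open _root_.CUB.INFL in
theorem t_INFL : M_INFL := by
  intro hB _ R _ _ q z hz hi P N _ hX hP
  have hd : Disjoint ((Submonoid.powers (X : R[X]) : Submonoid R[X]) : Set R[X]) (z : Set R[X]) := by
    rw [Set.disjoint_left]
    rintro a ⟨n, rfl⟩ ha
    exact hX (hz.mem_of_pow_mem n ha)
  have hp : (z.map (ph1 R)).IsPrime :=
    IsLocalization.isPrime_of_isPrime_disjoint (Submonoid.powers (X : R[X])) (LL R) z hz hd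
  have hc : (z.map (ph1 R)).comap (ph1 R) = z :=
    IsLocalization.comap_map_of_isPrime_disjoint (Submonoid.powers (X : R[X])) (LL R) hz hd
  let W : PrimeSpectrum (LL R) := ⟨z.map (ph1 R), hp⟩
  have e1 : PrimeSpectrum.comap (ph1 R) W = ⟨z, hz⟩ := PrimeSpectrum.ext hc
  have e2 : PrimeSpectrum.comap (ph2 R) W = ⟨infI z, hi⟩ := PrimeSpectrum.ext rfl
  have h1 := hB R[X] (LL R) (ph1 R) W (flat1 R) (key (ph1 R) W (mc1 R _)) (q ⊔ Ideal.span {P})
  have h2 := hB R[X] (LL R) (ph2 R) W (flat2 R) (key (ph2 R) W (mc2 R _))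
    (infI q ⊔ Ideal.span {reflect N P})
  rw [e1] at h1
  rw [e2] at h2
  rw [← h1, ← h2]
  congr 1
  rw [Ideal.map_sup, Ideal.map_sup, Ideal.map_span, Ideal.map_span, Set.image_singleton,
    Set.image_singleton, span_eq R P N hP]
  congr 1
  exact (mc2 R (q.map (ph1 R))).symm

end CUB


end

section

/-!
# CUB, module KERQ: kernels of homomorphisms of double covers
-/

set_option autoImplicit false

open Polynomial

namespace CUB

namespace KERQ

theorem basis_inj (T : Type) [CommRing T] (g a b : T)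
    (h : algebraMap T (Q T g) a + algebraMap T (Q T g) b * yy g = 0) : a = 0 ∧ b = 0 := by
  rcases subsingleton_or_nontrivial T with hT | hT
  · exact ⟨Subsingleton.elim _ _, Subsingleton.elim _ _⟩
  have h1 : AdjoinRoot.mk (asPoly g) (C a + C b * X) = 0 := by
    rw [map_add, map_mul]
    exact h
  have h2 : asPoly g ∣ C a + C b * X := AdjoinRoot.mk_eq_zero.mp h1
  have h3 : (asPoly g).natDegree = 2 := by
    unfold asPoly
    compute_degree!
  have h4 : C a + C b * X = 0 := by
    by_contra hne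
    refine (asPoly_monic g).not_dvd_of_natDegree_lt hne ?_ h2
    rw [h3]
    have h5 : (C a + C b * X).natDegree ≤ 1 := by compute_degree
    omega
  constructor
  · have h5 := congrArg (fun p : T[X] => p.coeff 0) h4
    simpa using h5
  · have h5 := congrArg (fun p : T[X] => p.coeff 1) h4
    simpa using h5

theorem ker_Qmap (k T S : Type) [Field k] [CommRing T] [CommRing S] [Algebra k T] [Algebra k S]
    (g : T) (g' : S) (φ : T →ₐ[k] S) (h : φ g = g') : RingHom.ker (Qmap φ h).toRingHom =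
      (RingHom.ker φ.toRingHom).map (algebraMap T (Q T g)) := by
  apply le_antisymm
  · intro x hx
    obtain ⟨a, b, rfl⟩ := Q_span x
    have h1 : Qmap φ h (algebraMap T (Q T g) a + algebraMap T (Q T g) b * yy g) = 0 := hx
    rw [map_add, map_mul, Qmap_algebraMap, Qmap_algebraMap, Qmap_yy] at h1
    obtain ⟨h2, h3⟩ := basis_inj S g' _ _ h1
    refine Ideal.add_mem _ (Ideal.mem_map_of_mem _ h2) (Ideal.mul_mem_right _ _
      (Ideal.mem_map_of_mem _ h3))
  · rw [Ideal.map_le_iff_le_comap]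
    intro x hx
    have h1 : φ x = 0 := hx
    have h2 : Qmap φ h (algebraMap T (Q T g) x) = 0 := by
      rw [Qmap_algebraMap, h1, map_zero]
    exact h2

theorem ker_mapX (k R S : Type) [Field k] [CommRing R] [CommRing S] [Algebra k R] [Algebra k S]
    (ψ : R →ₐ[k] S) :
    RingHom.ker (mapX ψ).toRingHom = (RingHom.ker ψ.toRingHom).map (CC k R).toRingHom := by
  have h := Polynomial.ker_mapRingHom ψ.toRingHom
  exact h

theorem ker_mv (k R S : Type) [Field k] [CommRing R] [CommRing S] [Algebra k R] [Algebra k S]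
    (m : ℕ) (ψ : R →ₐ[k] S) :
    RingHom.ker (MvPolynomial.mapAlgHom (σ := Fin m) ψ).toRingHom =
      (RingHom.ker ψ.toRingHom).map (MvPolynomial.C : R →+* MvPolynomial (Fin m) R) := by
  have h := MvPolynomial.ker_map (σ := Fin m) ψ.toRingHom
  exact h

end KERQ

theorem t_KERQ : S_KERQ := by
  refine ⟨KERQ.basis_inj, KERQ.ker_Qmap, ?_, ?_, KERQ.ker_mapX⟩
  · intro k R S _ _ _ _ _ m f ψ
    have h1 := KERQ.ker_Qmap k _ _ (lin f) _ (MvPolynomial.mapAlgHom ψ) (map_lin ψ f)
    refine h1.trans ?_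
    rw [KERQ.ker_mv, Ideal.map_map]
    rfl
  · intro k R S _ _ _ _ _ G f ψ
    have h0 : mapX ψ (C G + X * C f) = C (ψ G) + X * C (ψ f) := by simp [mapX]
    have h1 := KERQ.ker_Qmap k _ _ (C G + X * C f) _ (mapX ψ) h0
    refine h1.trans ?_
    rw [KERQ.ker_mapX, Ideal.map_map]
    rfl

end CUB


end

section

/-!
# Module AVO: prime avoidance in a normal Noetherian domain
-/

set_option autoImplicit false

open Polynomial

namespace CUB

namespace AVO

variable {A K : Type} [CommRing A] [IsDomain A] [Field K] [Algebra A K]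

/-- The elements `a` of `A` with `a / x ∈ O`. -/
def sqI (O : ValuationSubring K) (hO : ∀ a : A, algebraMap A K a ∈ O) (x : K) : Ideal A where
  carrier := {a | algebraMap A K a / x ∈ O}
  add_mem' := by
    intro a b ha hb
    show algebraMap A K (a + b) / x ∈ O
    rw [map_add, add_div]
    exact O.add_mem _ _ ha hb
  zero_mem' := by
    show algebraMap A K 0 / x ∈ O
    rw [map_zero, zero_div]
    exact O.zero_mem
  smul_mem' := by
    intro c a ha
    show algebraMap A K (c * a) / x ∈ O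
    rw [map_mul, mul_div_assoc]
    exact O.mul_mem _ _ (hO c) ha

/-- The elements `c` of `A` with `w c ∈ A`. -/
def denI (w : K) : Ideal A where
  carrier := {c | ∃ d : A, w * algebraMap A K c = algebraMap A K d}
  add_mem' := by
    rintro a b ⟨c, hc⟩ ⟨d, hd⟩
    exact ⟨c + d, by rw [map_add, mul_add, hc, hd, map_add]⟩
  zero_mem' := ⟨0, by rw [map_zero, mul_zero]⟩
  smul_mem' := by
    rintro c a ⟨d, hd⟩
    refine ⟨c * d, ?_⟩
    rw [smul_eq_mul, map_mul, map_mul, ← hd]
    ring

end AVO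

open _root_.CUB.AVO in
theorem t_AVO : M_AVO := by
  classical
  intro hV1 hV2 A K _ _ _ _ _ _ _ T O hT
  refine ⟨?_, ?_⟩
  · intro p hp
    obtain ⟨hp0, hph, hpO⟩ := hT p hp
    obtain ⟨hO, hOp⟩ := (hV2 A K p hp0 hph (O p)).2 hpO
    obtain ⟨O', hO', ⟨π₀, hπ₀⟩, -⟩ := hV1 A K p hp0 hph
    have hOO : O' = O p := by
      ext x
      rw [hO' x, hpO x]
    rw [hOO] at hπ₀
    obtain ⟨h1, h2, h3, h4⟩ := hπ₀
    have hne : ∀ i ∈ Finset.insertNone (T.erase p),
        ¬ p.asIdeal ≤ (fun i : Option (PrimeSpectrum A) =>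
          i.elim (sqI (O p) hO (algebraMap A K π₀ ^ 2)) fun q => q.asIdeal) i := by
      intro i hi hle
      rcases i with _ | q
      · have h5 : π₀ ∈ p.asIdeal := (hOp π₀).2 (Or.inr h3)
        have h6 : algebraMap A K π₀ / algebraMap A K π₀ ^ 2 ∈ O p := hle h5
        apply h3
        have h7 : algebraMap A K π₀ / algebraMap A K π₀ ^ 2 = (algebraMap A K π₀)⁻¹ := by
          field_simp
        rw [← h7]
        exact h6
      · have hq : q ∈ T.erase p := by simpa using hi
        obtain ⟨hqp, hqT⟩ := Finset.mem_erase.1 hq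
        obtain ⟨hq0, hqh, -⟩ := hT q hqT
        have hle' : p.asIdeal ≤ q.asIdeal := hle
        rcases lt_or_eq_of_le hle' with h5 | h5
        · exact hp0 (hqh _ p.isPrime h5)
        · exact hqp (PrimeSpectrum.ext h5.symm)
    have hav := mt (Ideal.subset_union_prime (s := Finset.insertNone (T.erase p))
      (f := fun i : Option (PrimeSpectrum A) =>
        i.elim (sqI (O p) hO (algebraMap A K π₀ ^ 2)) fun q => q.asIdeal) none none (by
      intro i _ hi _
      rcases i with _ | q
      · exact absurd rfl hi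
      · exact q.isPrime) (I := p.asIdeal)).1 (by
      rintro ⟨i, hi, hle⟩
      exact hne i hi hle)
    rw [Set.not_subset] at hav
    obtain ⟨π, hπ, hπn⟩ := hav
    have hπn' : ∀ i ∈ Finset.insertNone (T.erase p), π ∉ (fun i : Option (PrimeSpectrum A) =>
        i.elim (sqI (O p) hO (algebraMap A K π₀ ^ 2)) fun q => q.asIdeal) i := by
      intro i hi hmem
      apply hπn
      simp only [Set.mem_iUnion]
      exact ⟨i, Finset.mem_coe.2 hi, hmem⟩
    have hπ2 : ¬ algebraMap A K π / algebraMap A K π₀ ^ 2 ∈ O p :=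
      hπn' none (by simp)
    have hπ0 : algebraMap A K π ≠ 0 := by
      intro h5
      apply hπ2
      rw [h5, zero_div]
      exact (O p).zero_mem
    have hπi : (algebraMap A K π)⁻¹ ∉ O p := by
      rcases (hOp π).1 hπ with h5 | h5
      · exact absurd h5 hπ0
      · exact h5
    refine ⟨π, ⟨hO π, hπ0, hπi, ?_⟩, ?_⟩
    · intro x hx hxi
      have h5 : algebraMap A K π / algebraMap A K π₀ ∈ O p := h4 _ (hO π) hπi
      have h6 : (algebraMap A K π / algebraMap A K π₀)⁻¹ ∈ O p := by
        by_contra h7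
        apply hπ2
        have h8 := h4 _ h5 h7
        have h9 : algebraMap A K π / algebraMap A K π₀ / algebraMap A K π₀ =
            algebraMap A K π / algebraMap A K π₀ ^ 2 := by
          rw [div_div, sq]
        rw [← h9]
        exact h8
      have h7 := (O p).mul_mem _ _ (h4 x hx hxi) h6
      have h8 : x / algebraMap A K π₀ * (algebraMap A K π / algebraMap A K π₀)⁻¹ =
          x / algebraMap A K π := by
        field_simp
      rw [← h8]
      exact h7
    · intro p' hp' hne' hmem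
      exact hπn' (some p') (by simp [hp', hne']) hmem
  · intro w hw0 hw
    have hav := mt (Ideal.subset_union_prime (s := T)
      (f := fun q : PrimeSpectrum A => q.asIdeal) ⟨⊥, Ideal.isPrime_bot⟩ ⟨⊥, Ideal.isPrime_bot⟩
      (fun q _ _ _ => q.isPrime) (I := denI w)).1 (by
      rintro ⟨p, hp, hle⟩
      obtain ⟨hp0, hph, hpO⟩ := hT p hp
      obtain ⟨a, b, hb, hab⟩ := (hpO w).1 (hw p hp).2.1
      exact hb (hle ⟨a, hab⟩))
    rw [Set.not_subset] at hav
    obtain ⟨c₂, ⟨c₁, hc⟩, hn⟩ := hav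
    refine ⟨c₁, c₂, hc, ?_⟩
    intro p hp
    obtain ⟨hp0, hph, hpO⟩ := hT p hp
    obtain ⟨hO, hOp⟩ := (hV2 A K p hp0 hph (O p)).2 hpO
    have hc₂ : c₂ ∉ p.asIdeal := by
      intro h
      apply hn
      simp only [Set.mem_iUnion]
      exact ⟨p, Finset.mem_coe.2 hp, h⟩
    refine ⟨?_, hc₂⟩
    have h1 : algebraMap A K c₂ ≠ 0 ∧ (algebraMap A K c₂)⁻¹ ∈ O p := by
      have := mt (hOp c₂).2 hc₂
      push Not at this
      exact this
    intro h2
    rcases (hOp c₁).1 h2 with h3 | h3
    · rw [← hc] at h3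
      rcases mul_eq_zero.1 h3 with h4 | h4
      · exact hw0 h4
      · exact h1.1 h4
    · apply h3
      rw [← hc, mul_inv]
      exact (O p).mul_mem _ _ (hw p hp).2.2 h1.2

end CUB


end

section

/-!
# CUB, DEV: additivity of `length (M / y M) - length (M[y])`
-/

set_option autoImplicit false

namespace CUB

namespace DEV

section Six

variable {C : Type} [CommRing C] {K₁ K₂ K₃ C₁ C₂ C₃ : Type} [AddCommGroup K₁]
  [AddCommGroup K₂] [AddCommGroup K₃] [AddCommGroup C₁] [AddCommGroup C₂] [AddCommGroup C₃]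
  [Module C K₁] [Module C K₂] [Module C K₃] [Module C C₁] [Module C C₂] [Module C C₃]

/-- the length of the source is that of the kernel plus that of the range -/
lemma len_src (f : K₁ →ₗ[C] K₂) : Module.length C K₁ =
    Module.length C (LinearMap.ker f) + Module.length C (LinearMap.range f) :=
  Module.length_eq_add_of_exact (LinearMap.ker f).subtype f.rangeRestrict
    (Submodule.injective_subtype _) f.surjective_rangeRestrict
    (by
      intro x
      constructor
      · intro hx
        refine ⟨⟨x, ?_⟩, rfl⟩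
        have := congrArg Subtype.val hx
        exact this
      · rintro ⟨x, rfl⟩
        exact Subtype.ext x.2)

/-- the length of the target is that of the range plus that of the cokernel -/
lemma len_tgt (f : K₁ →ₗ[C] K₂) : Module.length C K₂ =
    Module.length C (LinearMap.range f) + Module.length C (K₂ ⧸ LinearMap.range f) :=
  Module.length_eq_add_of_exact (LinearMap.range f).subtype (LinearMap.range f).mkQ
    (Submodule.injective_subtype _) (Submodule.mkQ_surjective _)
    (LinearMap.exact_subtype_mkQ _)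

/-- in an exact sequence the length of the middle term is the sum of the lengths of the ranges -/
lemma len_mid (f : K₁ →ₗ[C] K₂) (g : K₂ →ₗ[C] K₃) (h : Function.Exact f g) :
    Module.length C K₂ =
      Module.length C (LinearMap.range f) + Module.length C (LinearMap.range g) := by
  rw [len_src g, h.linearMap_ker_eq]

lemma len_inj (f : K₁ →ₗ[C] K₂) (h : Function.Injective f) :
    Module.length C (LinearMap.range f) = Module.length C K₁ :=
  (LinearEquiv.ofInjective f h).length_eq.symm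

lemma len_surj (f : K₁ →ₗ[C] K₂) (h : Function.Surjective f) :
    Module.length C (LinearMap.range f) = Module.length C K₂ := by
  rw [LinearMap.range_eq_top.2 h, Module.length_top]

/-- the six term exact sequence -/
lemma six (a : K₁ →ₗ[C] K₂) (b : K₂ →ₗ[C] K₃) (d : K₃ →ₗ[C] C₁) (e : C₁ →ₗ[C] C₂)
    (f : C₂ →ₗ[C] C₃) (ha : Function.Injective a) (hab : Function.Exact a b)
    (hbd : Function.Exact b d) (hde : Function.Exact d e) (hef : Function.Exact e f)
    (hf : Function.Surjective f) (h1 : Module.length C K₁ ≠ ⊤) (h3 : Module.length C K₃ ≠ ⊤)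
    (g1 : Module.length C C₁ ≠ ⊤) (g3 : Module.length C C₃ ≠ ⊤) :
    Module.length C C₂ ≠ ⊤ ∧ Module.length C K₂ ≠ ⊤ ∧
      lC C C₂ + lC C K₁ + lC C K₃ = lC C K₂ + lC C C₁ + lC C C₃ := by
  have e1 := len_mid a b hab
  have e2 := len_mid b d hbd
  have e3 := len_mid d e hde
  have e4 := len_mid e f hef
  rw [len_inj a ha] at e1
  rw [len_surj f hf] at e4
  unfold lC
  generalize Module.length C (LinearMap.range b) = rb at *
  generalize Module.length C (LinearMap.range d) = rd at *
  generalize Module.length C (LinearMap.range e) = re at *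
  generalize Module.length C K₁ = k1 at *
  generalize Module.length C K₂ = k2 at *
  generalize Module.length C K₃ = k3 at *
  generalize Module.length C C₁ = c1 at *
  generalize Module.length C C₂ = c2 at *
  generalize Module.length C C₃ = c3 at *
  subst e1 e2 e3 e4
  have hb : rb ≠ ⊤ := fun h => h3 (by rw [h, top_add])
  have hd : rd ≠ ⊤ := fun h => g1 (by rw [h, top_add])
  have he : re ≠ ⊤ := fun h => g1 (by rw [h, add_top])
  lift rb to ℕ using hb
  lift rd to ℕ using hd
  lift re to ℕ using he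
  lift k1 to ℕ using h1
  lift c3 to ℕ using g3
  refine ⟨by simpa using ENat.coe_ne_top (re + c3), by simpa using ENat.coe_ne_top (k1 + rb), ?_⟩
  simp only [← ENat.coe_add, ENat.toNat_coe]
  omega

end Six

section Snake

variable {C A : Type} [CommRing C] [CommRing A] [Algebra C A] (y : A)
  {M₁ M₂ M₃ : Type} [AddCommGroup M₁] [AddCommGroup M₂] [AddCommGroup M₃]
  [Module A M₁] [Module A M₂] [Module A M₃] [Module C M₁] [Module C M₂] [Module C M₃]
  [IsScalarTower C A M₁] [IsScalarTower C A M₂] [IsScalarTower C A M₃]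

/-- kernel of the multiplication by `y` -/
abbrev Ky (M : Type) [AddCommGroup M] [Module A M] : Submodule A M :=
  LinearMap.ker (LinearMap.lsmul A M y)

/-- range of the multiplication by `y` -/
abbrev Ry (M : Type) [AddCommGroup M] [Module A M] : Submodule A M :=
  LinearMap.range (LinearMap.lsmul A M y)

/-- the map on kernels -/
def kmap (f : M₁ →ₗ[A] M₂) : Ky y M₁ →ₗ[A] Ky y M₂ :=
  f.restrict (p := Ky y M₁) (q := Ky y M₂) (by
    intro x hx
    have hx' : y • x = 0 := hx
    show y • f x = 0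
    rw [← map_smul, hx', map_zero])

/-- the map on cokernels -/
def cmap (f : M₁ →ₗ[A] M₂) : (M₁ ⧸ Ry y M₁) →ₗ[A] (M₂ ⧸ Ry y M₂) :=
  Submodule.mapQ _ _ f (by
    rintro _ ⟨x, rfl⟩
    exact ⟨f x, by simp⟩)

lemma snake (f : M₁ →ₗ[A] M₂) (g : M₂ →ₗ[A] M₃) (hf : Function.Injective f)
    (hg : Function.Surjective g) (hfg : Function.Exact f g)
    (h1 : Module.length C (Ky y M₁) ≠ ⊤) (h3 : Module.length C (Ky y M₃) ≠ ⊤)
    (g1 : Module.length C (M₁ ⧸ Ry y M₁) ≠ ⊤) (g3 : Module.length C (M₃ ⧸ Ry y M₃) ≠ ⊤) :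
    Module.length C (M₂ ⧸ Ry y M₂) ≠ ⊤ ∧ Module.length C (Ky y M₂) ≠ ⊤ ∧
      lC C (M₂ ⧸ Ry y M₂) + lC C (Ky y M₁) + lC C (Ky y M₃) =
        lC C (Ky y M₂) + lC C (M₁ ⧸ Ry y M₁) + lC C (M₃ ⧸ Ry y M₃) := by
  classical
  have s1 : f.comp (LinearMap.lsmul A M₁ y) = (LinearMap.lsmul A M₂ y).comp f := by
    ext x
    simp
  have s2 : g.comp (LinearMap.lsmul A M₂ y) = (LinearMap.lsmul A M₃ y).comp g := by
    ext x
    simp
  obtain ⟨σ, hσ⟩ := hg.hasRightInverse
  obtain ⟨ρ, hρ⟩ := hf.hasLeftInverse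
  have hσ' : g ∘ σ = id := funext hσ
  have hρ' : ρ ∘ f = id := funext hρ
  have hι : ∀ (M : Type) [AddCommGroup M] [Module A M],
      Function.Exact (Ky y M).subtype (LinearMap.lsmul A M y) := by
    intro M _ _
    exact LinearMap.exact_subtype_ker_map _
  have hπ : ∀ (M : Type) [AddCommGroup M] [Module A M],
      Function.Exact (LinearMap.lsmul A M y) (Ry y M).mkQ := by
    intro M _ _
    exact LinearMap.exact_map_mkQ_range _
  let δ := SnakeLemma.δ (LinearMap.lsmul A M₁ y) (LinearMap.lsmul A M₂ y)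
    (LinearMap.lsmul A M₃ y) f g hfg f g hfg s1 s2 σ hσ' ρ hρ' (Ky y M₃).subtype (hι M₃)
    (Ry y M₁).mkQ (hπ M₁)
  have k1 : Function.Exact (kmap y g) δ :=
    SnakeLemma.exact_δ_right (LinearMap.lsmul A M₁ y) (LinearMap.lsmul A M₂ y)
      (LinearMap.lsmul A M₃ y) f g hfg f g hfg s1 s2 σ hσ' ρ hρ' (Ky y M₂).subtype (hι M₂)
      (Ky y M₃).subtype (hι M₃) (Ry y M₁).mkQ (hπ M₁) (kmap y g) rfl
      (Submodule.injective_subtype _)
  have k2 : Function.Exact δ (cmap y f) :=
    SnakeLemma.exact_δ_left (LinearMap.lsmul A M₁ y) (LinearMap.lsmul A M₂ y)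
      (LinearMap.lsmul A M₃ y) f g hfg f g hfg s1 s2 σ hσ' ρ hρ'
      (Ky y M₃).subtype (hι M₃) (Ry y M₁).mkQ (hπ M₁) (Ry y M₂).mkQ (hπ M₂) (cmap y f) rfl
      (Submodule.mkQ_surjective _)
  have k3 : Function.Exact (kmap y f) (kmap y g) := by
    intro x
    constructor
    · intro hx
      have h : g x.1 = 0 := congrArg Subtype.val hx
      obtain ⟨z, hz⟩ := (hfg _).1 h
      have hz0 : y • z = 0 := by
        apply hf
        rw [map_smul, hz, map_zero]
        exact x.2
      exact ⟨⟨z, hz0⟩, Subtype.ext hz⟩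
    · rintro ⟨z, rfl⟩
      exact Subtype.ext ((hfg _).2 ⟨z.1, rfl⟩)
  have k4 : Function.Exact (cmap y f) (cmap y g) := by
    intro x
    constructor
    · intro hx
      induction x using Submodule.Quotient.induction_on with
      | _ x =>
        have h : (Submodule.Quotient.mk (g x) : M₃ ⧸ Ry y M₃) = 0 := hx
        rw [Submodule.Quotient.mk_eq_zero] at h
        obtain ⟨z, hz⟩ := h
        obtain ⟨w, rfl⟩ := hg z
        have hz' : g (x - y • w) = 0 := by
          rw [map_sub, map_smul, ← hz]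
          exact sub_self _
        obtain ⟨u, hu⟩ := (hfg _).1 hz'
        refine ⟨Submodule.Quotient.mk u, ?_⟩
        show (Submodule.Quotient.mk (f u) : M₂ ⧸ Ry y M₂) = Submodule.Quotient.mk x
        rw [hu, Submodule.Quotient.eq]
        exact ⟨-w, by
          show y • (-w) = x - y • w - x
          rw [smul_neg]
          abel⟩
    · rintro ⟨z, rfl⟩
      induction z using Submodule.Quotient.induction_on with
      | _ z =>
        show (Submodule.Quotient.mk (g (f z)) : M₃ ⧸ Ry y M₃) = 0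
        rw [(hfg _).2 ⟨z, rfl⟩]
        rfl
  refine six ((kmap y f).restrictScalars C) ((kmap y g).restrictScalars C)
    (δ.restrictScalars C) ((cmap y f).restrictScalars C) ((cmap y g).restrictScalars C)
    ?_ k3 k1 k2 k4 ?_ h1 h3 g1 g3
  · intro x x' h
    apply Subtype.ext
    apply hf
    exact congrArg Subtype.val h
  · intro x
    induction x using Submodule.Quotient.induction_on with
    | _ x =>
      obtain ⟨z, rfl⟩ := hg x
      exact ⟨Submodule.Quotient.mk z, rfl⟩

end Snake

section Loc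

variable {A : Type} [CommRing A]

/-- the localisation -/
abbrev LM (P : PrimeSpectrum A) (M : Type) [AddCommGroup M] [Module A M] : Type :=
  LocalizedModule P.asIdeal.primeCompl M

lemma loc_add (P : PrimeSpectrum A) {M₁ M₂ M₃ : Type} [AddCommGroup M₁] [AddCommGroup M₂]
    [AddCommGroup M₃] [Module A M₁] [Module A M₂] [Module A M₃] (f : M₁ →ₗ[A] M₂)
    (g : M₂ →ₗ[A] M₃) (hf : Function.Injective f) (hg : Function.Surjective g)
    (hfg : Function.Exact f g) :
    Module.length (Localization.AtPrime P.asIdeal) (LM P M₂) =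
      Module.length (Localization.AtPrime P.asIdeal) (LM P M₁) +
      Module.length (Localization.AtPrime P.asIdeal) (LM P M₃) :=
  Module.length_eq_add_of_exact (LocalizedModule.map P.asIdeal.primeCompl f)
    (LocalizedModule.map P.asIdeal.primeCompl g)
    (LocalizedModule.map_injective _ f hf) (LocalizedModule.map_surjective _ g hg)
    (LocalizedModule.map_exact _ f g hfg)

lemma loc_zero (P p : PrimeSpectrum A) {N : Type} [AddCommGroup N] [Module A N]
    (e : N ≃ₗ[A] A ⧸ p.asIdeal) (h : ¬ p.asIdeal ≤ P.asIdeal) : Subsingleton (LM P N) := by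
  rw [← Module.notMem_support_iff, Module.notMem_support_iff']
  obtain ⟨r, hr, hr'⟩ := SetLike.not_le_iff_exists.1 h
  intro m
  refine ⟨r, hr', ?_⟩
  apply e.injective
  rw [map_smul, map_zero]
  obtain ⟨c, hc⟩ := Ideal.Quotient.mk_surjective (e m)
  rw [← hc]
  show Ideal.Quotient.mk p.asIdeal (r * c) = 0
  rw [Ideal.Quotient.eq_zero_iff_mem]
  exact Ideal.mul_mem_right _ _ hr

lemma loc_one (p : PrimeSpectrum A) {N : Type} [AddCommGroup N] [Module A N]
    (e : N ≃ₗ[A] A ⧸ p.asIdeal) :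
    Module.length (Localization.AtPrime p.asIdeal) (LM p N) = 1 := by
  have hz : ∀ (r : A) (n : N), r • n = 0 → r ∉ p.asIdeal → n = 0 := by
    intro r n h hr
    apply e.injective
    rw [map_zero]
    obtain ⟨c, hc⟩ := Ideal.Quotient.mk_surjective (e n)
    have h1 : r • e n = 0 := by
      rw [← map_smul, h, map_zero]
    rw [← hc] at h1 ⊢
    have h2 : Ideal.Quotient.mk p.asIdeal (r * c) = 0 := h1
    rw [Ideal.Quotient.eq_zero_iff_mem] at h2 ⊢
    exact (p.2.mem_or_mem h2).resolve_left hr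
  rw [Module.length_eq_one_iff, isSimpleModule_iff_toSpanSingleton_surjective]
  constructor
  · rw [← Module.mem_support_iff, Module.mem_support_iff']
    refine ⟨e.symm 1, fun r hr h => ?_⟩
    have h1 := hz r _ h hr
    have h2 : (1 : A ⧸ p.asIdeal) = 0 := by
      rw [← e.apply_symm_apply 1, h1, map_zero]
    exact one_ne_zero h2
  · intro x hx z
    induction x using LocalizedModule.induction_on with
    | _ x s =>
      induction z using LocalizedModule.induction_on with
      | _ z t =>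
        obtain ⟨a, ha⟩ := Ideal.Quotient.mk_surjective (e x)
        obtain ⟨b, hb⟩ := Ideal.Quotient.mk_surjective (e z)
        have ha' : a ∉ p.asIdeal := by
          intro h
          apply hx
          have h1 : x = 0 := by
            apply e.injective
            rw [← ha, map_zero, Ideal.Quotient.eq_zero_iff_mem]
            exact h
          rw [h1, LocalizedModule.zero_mk]
        refine ⟨Localization.mk (b * s) (⟨a, ha'⟩ * t), ?_⟩
        rw [LinearMap.toSpanSingleton_apply, LocalizedModule.mk_smul_mk, LocalizedModule.mk_eq]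
        refine ⟨1, ?_⟩
        simp only [one_smul]
        apply e.injective
        have h3 : ∀ r : A, ∀ n : N, e (r • n) = Ideal.Quotient.mk p.asIdeal r * e n := by
          intro r n
          rw [map_smul]
          rfl
        simp only [Submonoid.smul_def, h3, ← ha, ← hb, Submonoid.coe_mul, ← map_mul]
        congr 1
        ring

end Loc

section Base

variable {C A : Type} [CommRing C] [CommRing A] [Algebra C A]

lemma base_ker (y : A) (p : PrimeSpectrum A) {N : Type} [AddCommGroup N] [Module A N]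
    [Module C N] [IsScalarTower C A N] (e : N ≃ₗ[A] A ⧸ p.asIdeal) (hy : y ∉ p.asIdeal) :
    Module.length C (Ky y N) = 0 := by
  rw [Module.length_eq_zero_iff]
  refine ⟨fun a b => ?_⟩
  have h : ∀ c : Ky y N, c = 0 := by
    rintro ⟨c, hc⟩
    have hc' : y • c = 0 := hc
    apply Subtype.ext
    show c = 0
    apply e.injective
    rw [map_zero]
    obtain ⟨d, hd⟩ := Ideal.Quotient.mk_surjective (e c)
    have h1 : y • e c = 0 := by
      rw [← map_smul, hc', map_zero]
    rw [← hd] at h1 ⊢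
    have h2 : Ideal.Quotient.mk p.asIdeal (y * d) = 0 := h1
    rw [Ideal.Quotient.eq_zero_iff_mem] at h2 ⊢
    exact (p.2.mem_or_mem h2).resolve_left hy
  rw [h a, h b]

lemma base_coker (y : A) (p : PrimeSpectrum A) {N : Type} [AddCommGroup N] [Module A N]
    [Module C N] [IsScalarTower C A N] (e : N ≃ₗ[A] A ⧸ p.asIdeal) :
    Module.length C (N ⧸ Ry y N) = Module.length C (A ⧸ (p.asIdeal ⊔ Ideal.span {y})) := by
  let φ : N →ₗ[A] A ⧸ (p.asIdeal ⊔ Ideal.span {y}) :=
    (Submodule.factor (le_sup_left : p.asIdeal ≤ p.asIdeal ⊔ Ideal.span {y})).comp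
      e.toLinearMap
  have hφ : Function.Surjective φ :=
    (Submodule.factor_surjective
      (le_sup_left : p.asIdeal ≤ p.asIdeal ⊔ Ideal.span {y})).comp e.surjective
  have hk : LinearMap.ker φ = Ry y N := by
    ext n
    obtain ⟨a, ha⟩ := Ideal.Quotient.mk_surjective (e n)
    have h1 : φ n = Submodule.Quotient.mk a := by
      show Submodule.factor (le_sup_left : p.asIdeal ≤ p.asIdeal ⊔ Ideal.span {y}) (e n) = _
      rw [← ha]
      rfl
    rw [LinearMap.mem_ker, h1, Submodule.Quotient.mk_eq_zero, Submodule.mem_sup]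
    constructor
    · rintro ⟨q, hq, r, hr, hqr⟩
      obtain ⟨t, rfl⟩ := Ideal.mem_span_singleton'.1 hr
      refine ⟨e.symm (Ideal.Quotient.mk p.asIdeal t), ?_⟩
      apply e.injective
      show e (y • _) = e n
      rw [map_smul, e.apply_symm_apply, ← ha]
      show Ideal.Quotient.mk p.asIdeal (y * t) = _
      rw [Ideal.Quotient.mk_eq_mk_iff_sub_mem, ← hqr]
      have : y * t - (q + t * y) = -q := by ring
      rw [this]
      exact neg_mem hq
    · rintro ⟨z, hz⟩
      obtain ⟨t, ht⟩ := Ideal.Quotient.mk_surjective (e z)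
      have h2 : Ideal.Quotient.mk p.asIdeal a = Ideal.Quotient.mk p.asIdeal (y * t) := by
        rw [ha, ← hz]
        show e (y • z) = _
        rw [map_smul, ← ht]
        rfl
      rw [Ideal.Quotient.mk_eq_mk_iff_sub_mem] at h2
      exact ⟨a - y * t, h2, y * t, Ideal.mul_mem_right _ _ (Ideal.mem_span_singleton_self y),
        by ring⟩
  rw [← hk]
  exact ((LinearMap.quotKerEquivOfSurjective φ hφ).restrictScalars C).length_eq

end Base

section Concl

variable (C : Type) {A : Type} [CommRing C] [CommRing A] [Algebra C A]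

/-- the condition on the support -/
def Hyp (S : Finset (PrimeSpectrum A)) (M : Type) [AddCommGroup M] [Module A M] : Prop :=
  ∀ P ∈ Module.support A M, P ∈ S ∨
    ((∀ P' ∈ S, ¬ P.asIdeal ≤ P'.asIdeal) ∧ Module.length C (A ⧸ P.asIdeal) ≠ ⊤)

/-- the conclusion -/
def Concl (y : A) (S : Finset (PrimeSpectrum A)) (M : Type) [AddCommGroup M] [Module A M]
    [Module C M] [IsScalarTower C A M] : Prop :=
  Module.length C (M ⧸ (Ry y M)) ≠ ⊤ ∧
  Module.length C (Ky y M) ≠ ⊤ ∧
  (∀ P ∈ S, Module.length (Localization.AtPrime P.asIdeal) (LM P M) ≠ ⊤) ∧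
  lC C (M ⧸ (Ry y M)) =
    lC C (Ky y M) +
      ∑ P ∈ S, lC (Localization.AtPrime P.asIdeal) (LM P M) *
        lC C (A ⧸ (P.asIdeal ⊔ Ideal.span {y}))

lemma concl_sub (y : A) (S : Finset (PrimeSpectrum A)) (M : Type) [AddCommGroup M] [Module A M]
    [Module C M] [IsScalarTower C A M] [Subsingleton M] : Concl C y S M := by
  have h1 : Module.length C (M ⧸ (Ry y M)) = 0 := by
    rw [Module.length_eq_zero_iff]
    infer_instance
  have h2 : Module.length C (Ky y M) = 0 := by
    rw [Module.length_eq_zero_iff]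
    infer_instance
  have h3 : ∀ P : PrimeSpectrum A,
      Module.length (Localization.AtPrime P.asIdeal) (LM P M) = 0 := by
    intro P
    rw [Module.length_eq_zero_iff, ← Module.notMem_support_iff, Module.notMem_support_iff']
    intro m
    exact ⟨1, fun h => P.2.ne_top ((Ideal.eq_top_iff_one _).2 h), Subsingleton.elim _ _⟩
  refine ⟨by rw [h1]; exact ENat.zero_ne_top, by rw [h2]; exact ENat.zero_ne_top,
    fun P _ => by rw [h3]; exact ENat.zero_ne_top, ?_⟩
  unfold lC
  rw [h1, h2]
  simp [h3]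

lemma concl_one (y : A) (S : Finset (PrimeSpectrum A))
    (hS : ∀ P ∈ S, y ∉ P.asIdeal ∧ Module.length C (A ⧸ (P.asIdeal ⊔ Ideal.span {y})) ≠ ⊤)
    (hinc : ∀ P ∈ S, ∀ P' ∈ S, P.asIdeal ≤ P'.asIdeal → P = P') (M : Type) [AddCommGroup M]
    [Module A M] [Module C M] [IsScalarTower C A M] (p : PrimeSpectrum A) (hp : p ∈ S)
    (e : M ≃ₗ[A] A ⧸ p.asIdeal) : Concl C y S M := by
  classical
  have h1 := base_coker (C := C) y p e
  have h2 := base_ker (C := C) y p e (hS p hp).1
  have h3 := loc_one p e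
  have h4 : ∀ P ∈ S, P ≠ p →
      Module.length (Localization.AtPrime P.asIdeal) (LM P M) = 0 := by
    intro P hP hne
    rw [Module.length_eq_zero_iff]
    exact loc_zero P p e fun h => hne (hinc p hp P hP h).symm
  refine ⟨by rw [h1]; exact (hS p hp).2, by rw [h2]; exact ENat.zero_ne_top, ?_, ?_⟩
  · intro P hP
    by_cases h : P = p
    · rw [h, h3]
      exact ENat.one_ne_top
    · rw [h4 P hP h]
      exact ENat.zero_ne_top
  · rw [Finset.sum_eq_single_of_mem p hp]
    · unfold lC
      rw [h1, h2, h3]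
      simp
    · intro P hP hne
      unfold lC
      rw [h4 P hP hne]
      simp

lemma concl_fin (y : A) (S : Finset (PrimeSpectrum A)) (M : Type) [AddCommGroup M]
    [Module A M] [Module C M] [IsScalarTower C A M] (p : PrimeSpectrum A)
    (hp : ∀ P' ∈ S, ¬ p.asIdeal ≤ P'.asIdeal) (hf : Module.length C (A ⧸ p.asIdeal) ≠ ⊤)
    (e : M ≃ₗ[A] A ⧸ p.asIdeal) : Concl C y S M := by
  have h0 : Module.length C M ≠ ⊤ := by
    rw [(e.restrictScalars C).length_eq]
    exact hf
  have h4 : ∀ P ∈ S, Module.length (Localization.AtPrime P.asIdeal) (LM P M) = 0 := by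
    intro P hP
    rw [Module.length_eq_zero_iff]
    exact loc_zero P p e (hp P hP)
  have e1 : Module.length C M = Module.length C (Ky y M) +
      Module.length C (LinearMap.range ((LinearMap.lsmul A M y).restrictScalars C)) :=
    len_src ((LinearMap.lsmul A M y).restrictScalars C)
  have e2 : Module.length C M =
      Module.length C (LinearMap.range ((LinearMap.lsmul A M y).restrictScalars C)) +
      Module.length C (M ⧸ Ry y M) :=
    len_tgt ((LinearMap.lsmul A M y).restrictScalars C)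
  have h5 : ∑ P ∈ S, lC (Localization.AtPrime P.asIdeal) (LM P M) *
      lC C (A ⧸ (P.asIdeal ⊔ Ideal.span {y})) = 0 := by
    refine Finset.sum_eq_zero fun P hP => ?_
    unfold lC
    rw [h4 P hP]
    simp
  unfold Concl
  rw [h5]
  unfold lC
  refine and_assoc.1 (and_assoc.1 ⟨⟨⟨?_, ?_⟩, fun P hP => by rw [h4 P hP]; exact ENat.zero_ne_top⟩,
    ?_⟩)
  · intro h
    rw [h, add_top] at e2
    exact h0 e2
  · intro h
    rw [h, top_add] at e1
    exact h0 e1
  · generalize Module.length C (LinearMap.range ((LinearMap.lsmul A M y).restrictScalars C)) =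
      r at *
    generalize Module.length C (Ky y M) = k at *
    generalize Module.length C (M ⧸ Ry y M) = c at *
    rw [e1] at h0 e2
    have hk : k ≠ ⊤ := fun h => h0 (by rw [h, top_add])
    have hr : r ≠ ⊤ := fun h => h0 (by rw [h, add_top])
    have hc : c ≠ ⊤ := by
      intro h
      apply h0
      rw [e2, h, add_top]
    lift k to ℕ using hk
    lift r to ℕ using hr
    lift c to ℕ using hc
    simp only [ENat.toNat_coe]
    rw [← ENat.coe_add, ← ENat.coe_add] at e2
    have := ENat.coe_inj.1 e2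
    omega

lemma concl_add (y : A) (S : Finset (PrimeSpectrum A)) {M₁ M₂ M₃ : Type} [AddCommGroup M₁]
    [AddCommGroup M₂] [AddCommGroup M₃] [Module A M₁] [Module A M₂] [Module A M₃] [Module C M₁]
    [Module C M₂] [Module C M₃] [IsScalarTower C A M₁] [IsScalarTower C A M₂]
    [IsScalarTower C A M₃] (f : M₁ →ₗ[A] M₂) (g : M₂ →ₗ[A] M₃) (hf : Function.Injective f)
    (hg : Function.Surjective g) (hfg : Function.Exact f g) (h1 : Concl C y S M₁)
    (h3 : Concl C y S M₃) : Concl C y S M₂ := by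
  obtain ⟨a1, a2, a3, a4⟩ := h1
  obtain ⟨b1, b2, b3, b4⟩ := h3
  obtain ⟨c1, c2, c3⟩ := snake y f g hf hg hfg a2 b2 a1 b1
  have hl := fun P : PrimeSpectrum A => loc_add P f g hf hg hfg
  have hl' : ∀ P ∈ S, lC (Localization.AtPrime P.asIdeal) (LM P M₂) =
      lC (Localization.AtPrime P.asIdeal) (LM P M₁) +
      lC (Localization.AtPrime P.asIdeal) (LM P M₃) := by
    intro P hP
    unfold lC
    rw [hl P, ENat.toNat_add (a3 P hP) (b3 P hP)]
  refine ⟨c1, c2, ?_, ?_⟩
  · intro P hP
    rw [hl P]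
    exact WithTop.add_ne_top.2 ⟨a3 P hP, b3 P hP⟩
  · rw [Finset.sum_congr rfl fun P hP => by rw [hl' P hP, add_mul], Finset.sum_add_distrib]
    omega

end Concl

end DEV

open _root_.CUB.DEV in
/-- DEV -/
theorem t_DEV : S_DEV := by
  intro C A _ _ _ _ y S hS hinc M _ _ iC iT _ hsup
  have key := IsNoetherianRing.induction_on_isQuotientEquivQuotientPrime A
    (M := M) ‹Module.Finite A M›
    (motive := fun N _ _ _ => ∀ (_ : Module C N) (_ : IsScalarTower C A N),
      Hyp C S N → Concl C y S N)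
    (by
      intro N _ _ _ _ _ _ _
      exact concl_sub C y S N)
    (by
      intro N _ _ _ p e _ _ hN
      have hp : p ∈ Module.support A N := by
        rw [Module.mem_support_iff']
        refine ⟨e.symm 1, fun r hr h => hr ?_⟩
        have h1 : r • (1 : A ⧸ p.asIdeal) = 0 := by
          rw [← e.apply_symm_apply 1, ← map_smul, h, map_zero]
        have h2 : Ideal.Quotient.mk p.asIdeal (r * 1) = 0 := h1
        rw [Ideal.Quotient.eq_zero_iff_mem, mul_one] at h2
        exact h2
      rcases hN p hp with h | ⟨h, h'⟩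
      · exact concl_one C y S hS hinc N p h e
      · exact concl_fin C y S N p h h' e)
    (by
      intro N₁ _ _ _ N₂ _ _ _ N₃ _ _ _ f g hf hg hfg h1 h3 _ _ hN
      let m1 : Module C N₁ := Module.compHom N₁ (algebraMap C A)
      let m3 : Module C N₃ := Module.compHom N₃ (algebraMap C A)
      have t1 : IsScalarTower C A N₁ := IsScalarTower.of_algebraMap_smul fun _ _ => rfl
      have t3 : IsScalarTower C A N₃ := IsScalarTower.of_algebraMap_smul fun _ _ => rfl
      exact concl_add C y S f g hf hg hfg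
        (h1 m1 t1 fun P hP => hN P (Module.support_subset_of_injective f hf hP))
        (h3 m3 t3 fun P hP => hN P (Module.support_subset_of_surjective g hg hP)))
  exact key iC iT hsup

end CUB


end

section

/-!
# TAME: the tame symbol lemma for a two-dimensional normal domain
-/

set_option autoImplicit false

open Polynomial

namespace CUB

namespace TAME

section Val

variable {K : Type} [Field K] {O : ValuationSubring K}

lemma un_one : IsUn O (1 : K) := ⟨one_ne_zero, O.one_mem, by rw [inv_one]; exact O.one_mem⟩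

lemma un_mul {x y : K} (hx : IsUn O x) (hy : IsUn O y) : IsUn O (x * y) := by
  refine ⟨mul_ne_zero hx.1 hy.1, O.mul_mem _ _ hx.2.1 hy.2.1, ?_⟩
  rw [mul_inv]
  exact O.mul_mem _ _ hx.2.2 hy.2.2

lemma un_inv {x : K} (hx : IsUn O x) : IsUn O x⁻¹ :=
  ⟨inv_ne_zero hx.1, hx.2.2, by rw [inv_inv]; exact hx.2.1⟩

lemma un_pow {x : K} (hx : IsUn O x) (n : ℕ) : IsUn O (x ^ n) := by
  induction n with
  | zero => rw [pow_zero]; exact un_one
  | succ n ih => rw [pow_succ]; exact un_mul ih hx

lemma un_zpow {x : K} (hx : IsUn O x) (n : ℤ) : IsUn O (x ^ n) := by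
  cases n with
  | ofNat n => rw [Int.ofNat_eq_natCast, zpow_natCast]; exact un_pow hx n
  | negSucc n => rw [zpow_negSucc]; exact un_inv (un_pow hx _)

lemma pow_succ_not {π : K} (hπ : IsUnif O π) (n : ℕ) : (π ^ (n + 1))⁻¹ ∉ O := by
  intro h
  apply hπ.2.2.1
  have h1 : π⁻¹ = (π ^ (n + 1))⁻¹ * π ^ n := by
    have h0 := hπ.2.1
    field_simp
    exact pow_succ' π n
  rw [h1]
  exact O.mul_mem _ _ h (pow_mem hπ.1 n)

lemma unif_zpow {π : K} (hπ : IsUnif O π) (n : ℤ) (h : IsUn O (π ^ n)) : n = 0 := by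
  cases n with
  | ofNat n =>
    cases n with
    | zero => rfl
    | succ n =>
      exfalso
      rw [Int.ofNat_eq_natCast, zpow_natCast] at h
      exact pow_succ_not hπ n h.2.2
  | negSucc n =>
    exfalso
    rw [zpow_negSucc] at h
    exact pow_succ_not hπ n h.2.1

lemma un_gamma {π π' : K} (hπ : IsUnif O π) (hπ' : IsUnif O π') : IsUn O (π' / π) := by
  refine ⟨div_ne_zero hπ'.2.1 hπ.2.1, hπ.2.2.2 π' hπ'.1 hπ'.2.2.1, ?_⟩
  rw [inv_div]
  exact hπ'.2.2.2 π hπ.1 hπ.2.2.1

lemma exp_unique {π π' α β : K} {i j : ℤ} (hπ : IsUnif O π) (hπ' : IsUnif O π')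
    (hα : IsUn O α) (hβ : IsUn O β) (h : α * π ^ i = β * π' ^ j) : i = j := by
  have h0 := hπ.2.1
  have h0' := hπ'.2.1
  have h1 : π ^ (i - j) = β * (π' / π) ^ j * α⁻¹ := by
    have ha := hα.1
    rw [zpow_sub₀ h0, div_zpow]
    have hj : π ^ j ≠ 0 := zpow_ne_zero _ h0
    field_simp
    rw [mul_comm (π ^ i) α]
    exact h
  have h2 : IsUn O (π ^ (i - j)) := by
    rw [h1]
    exact un_mul (un_mul hβ (un_zpow (un_gamma hπ hπ') j)) (un_inv hα)
  have h3 := unif_zpow hπ _ h2
  omega

end Val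

section Loc

variable {A K : Type} [CommRing A] [IsDomain A] [Field K] [Algebra A K] [IsFractionRing A K]
  {p : PrimeSpectrum A} {O : ValuationSubring K}

lemma am_ne {a : A} (h : a ≠ 0) : algebraMap A K a ≠ 0 :=
  (map_ne_zero_iff _ (IsFractionRing.injective A K)).2 h

lemma un_of_frac (hO : IsLocO p.asIdeal O) {w : K} {x y : A} (hx : x ∉ p.asIdeal)
    (hy : y ∉ p.asIdeal) (h : w * algebraMap A K y = algebraMap A K x) : IsUn O w := by
  have hx0 : x ≠ 0 := fun h => hx (h ▸ p.asIdeal.zero_mem)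
  have hy0 : y ≠ 0 := fun h => hy (h ▸ p.asIdeal.zero_mem)
  have hw : w ≠ 0 := by
    rintro rfl
    rw [zero_mul] at h
    exact am_ne (K := K) hx0 h.symm
  refine ⟨hw, (hO w).2 ⟨x, y, hy, h⟩, (hO _).2 ⟨y, x, hx, ?_⟩⟩
  rw [← h]
  field_simp

lemma un_of_not (hO : IsLocO p.asIdeal O) {x : A} (hx : x ∉ p.asIdeal) :
    IsUn O (algebraMap A K x) := by
  apply un_of_frac hO hx (y := 1)
  · exact fun h => p.isPrime.ne_top ((Ideal.eq_top_iff_one _).2 h)
  · rw [map_one, mul_one]

lemma frac_of_un (hO : IsLocO p.asIdeal O) {w : K} (hw : IsUn O w) :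
    ∃ x y : A, x ∉ p.asIdeal ∧ y ∉ p.asIdeal ∧ w * algebraMap A K y = algebraMap A K x := by
  obtain ⟨x, y, hy, h⟩ := (hO w).1 hw.2.1
  obtain ⟨x', y', hy', h'⟩ := (hO _).1 hw.2.2
  refine ⟨x, y, ?_, hy, h⟩
  intro hx
  have h1 : algebraMap A K (x * x') = algebraMap A K (y * y') := by
    rw [map_mul, map_mul, ← h, ← h']
    have := hw.1
    field_simp
  have h2 := IsFractionRing.injective A K h1
  have h3 : y * y' ∈ p.asIdeal := h2 ▸ Ideal.mul_mem_right x' _ hx
  rcases p.isPrime.mem_or_mem h3 with h4 | h4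
  · exact hy h4
  · exact hy' h4

lemma not_of_un (hO : IsLocO p.asIdeal O) {x : A} (hx : IsUn O (algebraMap A K x)) :
    x ∉ p.asIdeal := by
  intro h
  obtain ⟨a, b, hb, hab⟩ := (hO _).1 hx.2.2
  apply hb
  have h1 : algebraMap A K b = algebraMap A K (x * a) := by
    rw [map_mul, ← hab]
    have := hx.1
    field_simp
  rw [IsFractionRing.injective A K h1]
  exact Ideal.mul_mem_right a _ h

/-- The local homomorphism `w ↦ length (A / (p + x)) - length (A / (p + y))`, `w = x / y`. -/
lemma exists_lam (C : Type) [CommRing C] [Algebra C A]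
    (hadd : ∀ x y, x ∉ p.asIdeal → y ∉ p.asIdeal →
      lC C (A ⧸ (p.asIdeal ⊔ Ideal.span {x * y})) =
      lC C (A ⧸ (p.asIdeal ⊔ Ideal.span {x})) + lC C (A ⧸ (p.asIdeal ⊔ Ideal.span {y}))) :
    ∃ lam : K → ℤ, ∀ (w : K) (x y : A), x ∉ p.asIdeal → y ∉ p.asIdeal →
      w * algebraMap A K y = algebraMap A K x →
      lam w = (lC C (A ⧸ (p.asIdeal ⊔ Ideal.span {x})) : ℤ) -
        lC C (A ⧸ (p.asIdeal ⊔ Ideal.span {y})) := by
  classical
  have key : ∀ (w : K), ∃ l : ℤ, ∀ x y : A, x ∉ p.asIdeal → y ∉ p.asIdeal →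
      w * algebraMap A K y = algebraMap A K x →
      l = (lC C (A ⧸ (p.asIdeal ⊔ Ideal.span {x})) : ℤ) -
        lC C (A ⧸ (p.asIdeal ⊔ Ideal.span {y})) := by
    intro w
    by_cases hw : ∃ x y : A, x ∉ p.asIdeal ∧ y ∉ p.asIdeal ∧
        w * algebraMap A K y = algebraMap A K x
    · obtain ⟨x₀, y₀, hx₀, hy₀, h₀⟩ := hw
      refine ⟨(lC C (A ⧸ (p.asIdeal ⊔ Ideal.span {x₀})) : ℤ) -
        lC C (A ⧸ (p.asIdeal ⊔ Ideal.span {y₀})), ?_⟩
      intro x y hx hy h
      have h1 : algebraMap A K (x₀ * y) = algebraMap A K (x * y₀) := by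
        rw [map_mul, map_mul, ← h, ← h₀]
        ring
      have h2 := IsFractionRing.injective A K h1
      have h3 := hadd x₀ y hx₀ hy
      have h4 := hadd x y₀ hx hy₀
      rw [h2, h4] at h3
      have h5 : (lC C (A ⧸ (p.asIdeal ⊔ Ideal.span {x})) : ℤ) +
          lC C (A ⧸ (p.asIdeal ⊔ Ideal.span {y₀})) =
          lC C (A ⧸ (p.asIdeal ⊔ Ideal.span {x₀})) +
          lC C (A ⧸ (p.asIdeal ⊔ Ideal.span {y})) := by exact_mod_cast h3
      linarith
    · refine ⟨0, ?_⟩
      intro x y hx hy h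
      exact absurd ⟨x, y, hx, hy, h⟩ hw
  choose lam hlam using key
  exact ⟨lam, hlam⟩

end Loc

end TAME

open _root_.CUB.TAME in
theorem t_TAME : M_TAME := by
  classical
  intro hHHA hVC1 _ hAVO hDISJ hTAMEF C A K _ _ _ _ _ _ _ _ _ _ _ hS a b ha hb O W X Y hO hW
    hW' hXY
  obtain ⟨hN, _, hmin, hfin, _, hadd, _, _, _⟩ := hHHA C A K hS
  have : IsFractionRing A K := hS.frA
  have : IsIntegrallyClosed A := hS.ic
  -- the places
  have hpl : ∀ p ∈ HH A, (∃ π : A, IsUnif (O p) (algebraMap A K π)) ∧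
      ∀ π : K, IsUnif (O p) π →
        (∀ x : K, x ≠ 0 → ∃ (i : ℤ) (α : K), IsUn (O p) α ∧ x = α * π ^ i) ∧
        ∀ a : A, a ≠ 0 → ∃ α : K, IsUn (O p) α ∧
          algebraMap A K a = α * π ^ ((len (Ideal.span {a}) p : ℕ) : ℤ) := by
    intro p hp
    obtain ⟨O', hO', h1, h2⟩ := hVC1 A K p hp.1 (hmin p hp)
    have he : O' = O p := by
      ext x
      rw [hO' x, hO p hp x]
    rw [he] at h1 h2
    exact ⟨h1, h2⟩
  have hv : ∀ h : {p // p ∈ HH A}, ∃ v : K → ℤ, ∀ x : K, x ≠ 0 → ∀ π : K,
      IsUnif (O h.1) π → ∃ α, IsUn (O h.1) α ∧ x = α * π ^ (v x) := by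
    rintro ⟨p, hp⟩
    obtain ⟨⟨π₀, hπ₀⟩, h2⟩ := hpl p hp
    have hex : ∀ x : K, ∃ i : ℤ, x ≠ 0 → ∀ π : K, IsUnif (O p) π →
        ∃ α, IsUn (O p) α ∧ x = α * π ^ i := by
      intro x
      by_cases hx : x = 0
      · exact ⟨0, fun h => absurd hx h⟩
      · obtain ⟨i, α, hα, he⟩ := (h2 _ hπ₀).1 x hx
        refine ⟨i, fun _ π hπ => ?_⟩
        refine ⟨α * (algebraMap A K π₀ / π) ^ i, un_mul hα (un_zpow (un_gamma hπ hπ₀) i), ?_⟩
        rw [he, mul_assoc, ← mul_zpow, div_mul_cancel₀ _ hπ.2.1]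
    choose v hv using hex
    exact ⟨v, hv⟩
  choose v hv using hv
  have hvu : ∀ (h : {p // p ∈ HH A}) (x π α : K) (i : ℤ), x ≠ 0 → IsUnif (O h.1) π →
      IsUn (O h.1) α → x = α * π ^ i → v h x = i := by
    intro h x π α i hx hπ hα he
    obtain ⟨β, hβ, hb⟩ := hv h x hx π hπ
    exact exp_unique hπ hπ hβ hα (hb.symm.trans he)
  have hlam : ∀ h : {p // p ∈ HH A}, ∃ lam : K → ℤ, ∀ (w : K) (x y : A),
      x ∉ h.1.asIdeal → y ∉ h.1.asIdeal → w * algebraMap A K y = algebraMap A K x →
      lam w = (lC C (A ⧸ (h.1.asIdeal ⊔ Ideal.span {x})) : ℤ) -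
        lC C (A ⧸ (h.1.asIdeal ⊔ Ideal.span {y})) :=
    fun h => exists_lam C (hadd h.1 h.2)
  choose lam hlam using hlam
  -- elementary properties
  have hv0 : ∀ (h : {p // p ∈ HH A}) (x : K), x ≠ 0 → (v h x = 0 ↔ IsUn (O h.1) x) := by
    intro h x hx
    obtain ⟨⟨π₀, hπ₀⟩, _⟩ := hpl h.1 h.2
    constructor
    · intro h0
      obtain ⟨α, hα, he⟩ := hv h x hx _ hπ₀
      rw [h0, zpow_zero, mul_one] at he
      rw [he]
      exact hα
    · intro hu
      exact hvu h x _ x 0 hx hπ₀ hu (by rw [zpow_zero, mul_one])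
  have hvA : ∀ (h : {p // p ∈ HH A}) (x : A), x ≠ 0 →
      v h (algebraMap A K x) = (len (Ideal.span {x}) h.1 : ℤ) := by
    intro h x hx
    obtain ⟨⟨π₀, hπ₀⟩, h2⟩ := hpl h.1 h.2
    obtain ⟨α, hα, he⟩ := (h2 _ hπ₀).2 x hx
    exact hvu h _ _ α _ (am_ne hx) hπ₀ hα he
  have hvA0 : ∀ (h : {p // p ∈ HH A}) (x : A), x ≠ 0 →
      (v h (algebraMap A K x) = 0 ↔ x ∉ h.1.asIdeal) := by
    intro h x hx
    rw [hv0 h _ (am_ne hx)]
    exact ⟨not_of_un (hO h.1 h.2), un_of_not (hO h.1 h.2)⟩
  have hone : ∀ h : {p // p ∈ HH A}, (1 : A) ∉ h.1.asIdeal :=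
    fun h h1 => h.1.isPrime.ne_top ((Ideal.eq_top_iff_one _).2 h1)
  have hlamA : ∀ (h : {p // p ∈ HH A}) (x : A), x ∉ h.1.asIdeal →
      lam h (algebraMap A K x) = (lC C (A ⧸ (h.1.asIdeal ⊔ Ideal.span {x})) : ℤ) := by
    intro h x hx
    have h1 := hlam h (algebraMap A K x) x 1 hx (hone h) (by rw [map_one, mul_one])
    have h2 : lC C (A ⧸ (h.1.asIdeal ⊔ Ideal.span {(1 : A)})) = 0 := by
      have h3 := hadd h.1 h.2 1 1 (hone h) (hone h)
      rw [mul_one] at h3
      omega
    rw [h1, h2]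
    simp
  have main := hTAMEF K {p // p ∈ HH A} v lam {x | ∃ a : A, a ≠ 0 ∧ x = algebraMap A K a}
    ?_ ?_ ?_ ?_ ?_ ?_ a b ha hb
  · -- the conclusion
    let e : {p // p ∈ W} ↪ {p // p ∈ HH A} :=
      ⟨fun p => ⟨p.1, hW p.1 p.2⟩, fun p q h => Subtype.ext (congrArg (fun z => z.1) h)⟩
    have h1 := main (W.attach.map e) (by
      intro h hh
      rw [Finset.mem_map]
      refine ⟨⟨h.1, hW' h.1 h.2 ?_⟩, Finset.mem_attach _ _, rfl⟩
      rcases hh with hh | hh
      · left; intro hu; exact hh ((hv0 h a ha).2 hu)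
      · right; intro hu; exact hh ((hv0 h b hb).2 hu))
    rw [Finset.sum_map] at h1
    rw [← Finset.sum_attach, ← h1]
    apply Finset.sum_congr rfl
    intro p _
    obtain ⟨hX, hY, π, α, β, i, j, hπ, hα, hβ, hai, hbj, hw⟩ := hXY p.1 p.2
    have hi : v (e p) a = i := hvu (e p) a π α i ha hπ hα hai
    have hj : v (e p) b = j := hvu (e p) b π β j hb hπ hβ hbj
    rw [hi, hj]
    symm
    apply hlam (e p) _ _ _ hX hY
    rw [← hw]
    have hY0 : Y p.1 ≠ 0 := fun h => hY (h ▸ p.1.asIdeal.zero_mem)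
    exact div_mul_cancel₀ _ (am_ne hY0)
  · -- valuations are homomorphisms
    intro h x y hx hy
    obtain ⟨⟨π₀, hπ₀⟩, _⟩ := hpl h.1 h.2
    obtain ⟨α, hα, he⟩ := hv h x hx _ hπ₀
    obtain ⟨β, hβ, hf⟩ := hv h y hy _ hπ₀
    apply hvu h (x * y) _ (α * β) _ (mul_ne_zero hx hy) hπ₀ (un_mul hα hβ)
    rw [zpow_add₀ hπ₀.2.1]
    calc x * y = (α * algebraMap A K π₀ ^ v h x) * (β * algebraMap A K π₀ ^ v h y) := by
          rw [← he, ← hf]
      _ = _ := by ring
  · intro h x y hx hy hx0 hy0
    obtain ⟨x₁, x₂, hx1, hx2, hxe⟩ := frac_of_un (hO h.1 h.2) ((hv0 h x hx).1 hx0)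
    obtain ⟨y₁, y₂, hy1, hy2, hye⟩ := frac_of_un (hO h.1 h.2) ((hv0 h y hy).1 hy0)
    have hn : ∀ s t : A, s ∉ h.1.asIdeal → t ∉ h.1.asIdeal → s * t ∉ h.1.asIdeal := by
      intro s t hs ht hst
      rcases h.1.isPrime.mem_or_mem hst with h4 | h4
      · exact hs h4
      · exact ht h4
    rw [hlam h (x * y) (x₁ * y₁) (x₂ * y₂) (hn _ _ hx1 hy1) (hn _ _ hx2 hy2)
      (by rw [map_mul, map_mul, ← hxe, ← hye]; ring), hlam h x x₁ x₂ hx1 hx2 hxe,
      hlam h y y₁ y₂ hy1 hy2 hye, hadd h.1 h.2 _ _ hx1 hy1, hadd h.1 h.2 _ _ hx2 hy2]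
    push_cast
    ring
  · rintro x ⟨c, hc, rfl⟩
    refine ⟨am_ne hc, fun h => ?_, ?_⟩
    · rw [hvA h c hc]
      exact Int.natCast_nonneg _
    · have hf := hfin c hc
      refine Set.Finite.of_finite_image (f := fun h => h.1) (hf.subset ?_)
        Subtype.val_injective.injOn
      rintro _ ⟨h, hh, rfl⟩
      refine ⟨h.2, ?_⟩
      by_contra hcon
      exact hh ((hvA0 h c hc).2 hcon)
  · intro S h hh
    obtain ⟨h1, _⟩ := hAVO A K (S.map ⟨fun h => h.1, Subtype.val_injective⟩) O (by
      intro p hp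
      rw [Finset.mem_map] at hp
      obtain ⟨q, _, rfl⟩ := hp
      exact ⟨q.2.1, hmin _ q.2, hO _ q.2⟩)
    obtain ⟨π, hπ, hπ'⟩ := h1 h.1 (Finset.mem_map.2 ⟨h, hh, rfl⟩)
    have hπ0 : π ≠ 0 := by
      rintro rfl
      exact hπ.2.1 (map_zero _)
    refine ⟨algebraMap A K π, ⟨π, hπ0, rfl⟩, ?_, ?_⟩
    · exact hvu h _ _ 1 1 (am_ne hπ0) hπ un_one (by rw [one_mul, zpow_one])
    · intro h' hh' hne
      rw [hvA0 h' π hπ0]
      apply hπ' h'.1 (Finset.mem_map.2 ⟨h', hh', rfl⟩)
      exact fun h => hne (Subtype.ext h)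
  · intro w S hw hS0
    rcases S.eq_empty_or_nonempty with rfl | hne
    · obtain ⟨x, y, hy, hxy⟩ := IsFractionRing.div_surjective (A := A) w
      have hy0 : y ≠ 0 := nonZeroDivisors.ne_zero hy
      have hx0 : x ≠ 0 := by
        rintro rfl
        rw [map_zero, zero_div] at hxy
        exact hw hxy.symm
      refine ⟨algebraMap A K x, ⟨x, hx0, rfl⟩, algebraMap A K y, ⟨y, hy0, rfl⟩, ?_, ?_⟩
      · rw [← hxy]
        exact div_mul_cancel₀ _ (am_ne hy0)
      · intro h hh
        exact absurd hh (Finset.notMem_empty h)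
    · obtain ⟨_, h2⟩ := hAVO A K (S.map ⟨fun h => h.1, Subtype.val_injective⟩) O (by
        intro p hp
        rw [Finset.mem_map] at hp
        obtain ⟨q, _, rfl⟩ := hp
        exact ⟨q.2.1, hmin _ q.2, hO _ q.2⟩)
      obtain ⟨c₁, c₂, hc, hc'⟩ := h2 w hw (by
        intro p hp
        rw [Finset.mem_map] at hp
        obtain ⟨q, hq, rfl⟩ := hp
        exact (hv0 q w hw).1 (hS0 q hq))
      obtain ⟨h0, hh0⟩ := hne
      have h3 := hc' h0.1 (Finset.mem_map.2 ⟨h0, hh0, rfl⟩)
      have hc10 : c₁ ≠ 0 := fun h => h3.1 (h ▸ h0.1.asIdeal.zero_mem)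
      have hc20 : c₂ ≠ 0 := fun h => h3.2 (h ▸ h0.1.asIdeal.zero_mem)
      refine ⟨algebraMap A K c₁, ⟨c₁, hc10, rfl⟩, algebraMap A K c₂, ⟨c₂, hc20, rfl⟩, hc, ?_⟩
      intro h hh
      have h4 := hc' h.1 (Finset.mem_map.2 ⟨h, hh, rfl⟩)
      exact ⟨(hvA0 h c₁ hc10).2 h4.1, (hvA0 h c₂ hc20).2 h4.2⟩
  · rintro _ ⟨x, hx, rfl⟩ _ ⟨y, hy, rfl⟩ hdis S hSS
    have h1 := hDISJ C A K hS x y hx hy (by
      intro p hp hxp hyp
      rcases hdis ⟨p, hp⟩ with h | h
      · exact (hvA0 ⟨p, hp⟩ x hx).1 h hxp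
      · exact (hvA0 ⟨p, hp⟩ y hy).1 h hyp) (S.map ⟨fun h => h.1, Subtype.val_injective⟩)
      (by
        intro p hp
        rw [Finset.mem_map] at hp
        obtain ⟨q, _, rfl⟩ := hp
        exact q.2)
      (by
        intro p hp hxy
        refine Finset.mem_map.2 ⟨⟨p, hp⟩, hSS _ ?_, rfl⟩
        rcases hxy with h | h
        · left; intro h0; exact (hvA0 ⟨p, hp⟩ x hx).1 h0 h
        · right; intro h0; exact (hvA0 ⟨p, hp⟩ y hy).1 h0 h)
    rw [Finset.sum_map, Finset.sum_map] at h1
    have h2 : ∀ h ∈ S, v h (algebraMap A K y) * lam h (algebraMap A K x) -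
        v h (algebraMap A K x) * lam h (algebraMap A K y) =
        ((len (Ideal.span {y}) h.1 * lC C (A ⧸ (h.1.asIdeal ⊔ Ideal.span {x})) : ℕ) : ℤ) -
        ((len (Ideal.span {x}) h.1 * lC C (A ⧸ (h.1.asIdeal ⊔ Ideal.span {y})) : ℕ) : ℤ) := by
      intro h _
      rcases hdis h with h0 | h0
      · have h3 := hlamA h x ((hvA0 h x hx).1 h0)
        have h4 := hvA h x hx
        rw [h0] at h4
        have h5 : len (Ideal.span {x}) h.1 = 0 := by exact_mod_cast h4.symm
        rw [h3, h0, hvA h y hy, h5]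
        push_cast
        ring
      · have h3 := hlamA h y ((hvA0 h y hy).1 h0)
        have h4 := hvA h y hy
        rw [h0] at h4
        have h5 : len (Ideal.span {y}) h.1 = 0 := by exact_mod_cast h4.symm
        rw [h3, h0, hvA h x hx, h5]
        push_cast
        ring
    rw [Finset.sum_congr rfl h2, Finset.sum_sub_distrib, ← Nat.cast_sum, ← Nat.cast_sum, sub_eq_zero]
    have h3 : ∑ h ∈ S, len (Ideal.span {y}) h.1 * lC C (A ⧸ (h.1.asIdeal ⊔ Ideal.span {x})) =
        ∑ h ∈ S, len (Ideal.span {x}) h.1 * lC C (A ⧸ (h.1.asIdeal ⊔ Ideal.span {y})) :=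
      h1.symm
    rw [h3]

end CUB


end

section

/-!
# QCV, module ULS: one step of the linearisation
-/

set_option autoImplicit false

namespace QCV

namespace ULS_aux

open MvPolynomial

variable {B : Type} [CommRing B]

/-- the identity matrix with two more entries -/
def mat {N : ℕ} (p q k l : Fin N) (x y : B) : Matrix (Fin N) (Fin N) B :=
  fun r c => (if r = c then 1 else 0) + (if c = k then (if r = p then x else 0) else 0) +
    (if c = l then (if r = q then y else 0) else 0)

lemma det_mat {N : ℕ} {p q k l : Fin N} (x y : B) (h1 : k < p) (h2 : l < q) :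
    (mat p q k l x y).det = 1 := by
  rw [Matrix.det_of_lowerTriangular]
  · refine Finset.prod_eq_one fun r _ => ?_
    unfold mat
    have e1 : (if r = k then (if r = p then x else 0) else 0) = 0 := by
      split_ifs with h h'
      · exfalso; rw [← h, ← h'] at h1; exact lt_irrefl _ h1
      · rfl
      · rfl
    have e2 : (if r = l then (if r = q then y else 0) else 0) = 0 := by
      split_ifs with h h'
      · exfalso; rw [← h, ← h'] at h2; exact lt_irrefl _ h2
      · rfl
      · rfl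
    rw [e1, e2, if_pos rfl]
    ring
  · intro r c hrc
    have hlt : r < c := hrc
    unfold mat
    rw [if_neg hlt.ne]
    have e1 : (if c = k then (if r = p then x else 0) else 0) = 0 := by
      split_ifs with h h'
      · exfalso; rw [h, h'] at hlt; exact lt_asymm hlt h1
      · rfl
      · rfl
    have e2 : (if c = l then (if r = q then y else 0) else 0) = 0 := by
      split_ifs with h h'
      · exfalso; rw [h, h'] at hlt; exact lt_asymm hlt h2
      · rfl
      · rfl
    rw [e1, e2]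
    ring

lemma row_mat {N : ℕ} (p q k l : Fin N) (x y : B) (r : Fin N) :
    ∑ c, C (mat p q k l x y r c) * (X c : MvPolynomial (Fin N) B)
      = X r + (if r = p then C x * X k else 0) + (if r = q then C y * X l else 0) := by
  have e : ∀ c : Fin N, C (mat p q k l x y r c) * (X c : MvPolynomial (Fin N) B)
      = (if r = c then X c else 0) + (if c = k then (if r = p then C x * X c else 0) else 0) +
        (if c = l then (if r = q then C y * X c else 0) else 0) := by
    intro c
    unfold mat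
    rw [C_add, C_add, add_mul, add_mul]
    congr 1
    · congr 1
      · split_ifs <;> simp
      · split_ifs <;> simp
    · split_ifs <;> simp
  rw [Finset.sum_congr rfl fun c _ => e c, Finset.sum_add_distrib, Finset.sum_add_distrib,
    Finset.sum_ite_eq, if_pos (Finset.mem_univ _), Finset.sum_ite_eq', if_pos (Finset.mem_univ _),
    Finset.sum_ite_eq', if_pos (Finset.mem_univ _)]

end ULS_aux

open _root_.QCV.ULS_aux MvPolynomial in
theorem t_ULS : S_ULS := by
  intro B _ n ρ a b i j
  set p : Fin (n + 2 * 1) := ⟨n, by omega⟩ with hp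
  set q : Fin (n + 2 * 1) := ⟨n + 1, by omega⟩ with hq
  set k : Fin (n + 2 * 1) := Fin.castAdd (2 * 1) i with hk
  set l : Fin (n + 2 * 1) := Fin.castAdd (2 * 1) j with hl
  have hkp : k < p := by
    rw [Fin.lt_def, hk, hp]; simp
  have hlq : l < q := by
    rw [Fin.lt_def, hl, hq]; simp only [Fin.val_castAdd]; omega
  have hpq : p ≠ q := by
    intro h; have := congrArg Fin.val h; simp [hp, hq] at this
  refine ⟨mat p q k l (-a) b, by rw [det_mat _ _ hkp hlq]; exact isUnit_one, ?_⟩
  have hX : ∀ r, lsub (mat p q k l (-a) b) (X r) =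
      X r + (if r = p then C (-a) * X k else 0) + (if r = q then C b * X l else 0) := by
    intro r
    unfold lsub
    rw [aeval_X, row_mat]
  have hcast : ∀ r : Fin n, lsub (mat p q k l (-a) b) (X (Fin.castAdd (2 * 1) r)) =
      X (Fin.castAdd (2 * 1) r) := by
    intro r
    rw [hX, if_neg, if_neg, add_zero, add_zero]
    · intro h
      have := congrArg Fin.val h
      simp [hq] at this
      omega
    · intro h
      have := congrArg Fin.val h
      simp [hp] at this
      omega
  have hren : ∀ φ : MvPolynomial (Fin n) B, lsub (mat p q k l (-a) b)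
      (rename (Fin.castAdd (2 * 1)) φ) = rename (Fin.castAdd (2 * 1)) φ := by
    intro φ
    have : (lsub (mat p q k l (-a) b)).comp (rename (Fin.castAdd (2 * 1))) =
        (rename (Fin.castAdd (2 * 1)) : MvPolynomial (Fin n) B →ₐ[B] _) := by
      apply MvPolynomial.algHom_ext
      intro r
      rw [AlgHom.comp_apply, rename_X, hcast]
    exact DFunLike.congr_fun this φ
  have hsum : (∑ i : Fin 1, X (⟨n + 2 * i.1, by omega⟩ : Fin (n + 2 * 1)) *
      X (⟨n + 2 * i.1 + 1, by omega⟩ : Fin (n + 2 * 1)) : MvPolynomial (Fin (n + 2 * 1)) B)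
      = X p * X q := by
    rw [Fin.sum_univ_one]
    rfl
  have h2 : lsub (mat p q k l (-a) b) (X p * X q) =
      (X p + C (-a) * X k) * (X q + C b * X l) := by
    rw [map_mul, hX, hX, if_pos rfl, if_neg hpq, if_neg hpq.symm, if_pos rfl]
    ring
  unfold hyp
  rw [map_add, hren, hsum, h2]
  simp only [map_add, map_mul, rename_C, rename_X, map_neg, ← hk, ← hl]
  ring

end QCV


end

section

/-!
# QCV, block U, module ULZ (linearisation)

Every form of degree two over `R[t_1, ..., t_m]` is, after addition of hyperbolic planes, the generic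
member of a linear system of quadratic forms over `R`.
-/

set_option autoImplicit false

namespace QCV

namespace ULZ

open MvPolynomial

variable {R : Type} [CommRing R] {m : ℕ}

/-- A term `c t^μ x_i x_j`. -/
noncomputable def term {n : ℕ} (t : (Fin m →₀ ℕ) × R × Fin n × Fin n) :
    MvPolynomial (Fin n) (MvPolynomial (Fin m) R) :=
  C (monomial t.1 t.2.1) * (X t.2.2.1 * X t.2.2.2)

/-- The sum of the terms of a multiset. -/
noncomputable def phi {n : ℕ} (S : Multiset ((Fin m →₀ ℕ) × R × Fin n × Fin n)) :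
    MvPolynomial (Fin n) (MvPolynomial (Fin m) R) :=
  (S.map term).sum

/-- The measure of a multiset of terms. -/
noncomputable def meas {n : ℕ} (S : Multiset ((Fin m →₀ ℕ) × R × Fin n × Fin n)) : ℕ :=
  (S.map fun t => Finsupp.degree t.1 - 1).sum

theorem deg_one {n : ℕ} (d : Fin n →₀ ℕ) (hd : Finsupp.degree d = 1) :
    ∃ i : Fin n, d = Finsupp.single i 1 := by
  have hd0 : d ≠ 0 := by
    intro h
    rw [h] at hd
    simp at hd
  obtain ⟨l, hl⟩ : ∃ l, d l ≠ 0 := by
    by_contra h
    push Not at h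
    exact hd0 (Finsupp.ext h)
  obtain ⟨ν, hν⟩ : ∃ ν : Fin n →₀ ℕ, d = ν + Finsupp.single l 1 := by
    refine ⟨d - Finsupp.single l 1, ?_⟩
    rw [tsub_add_cancel_of_le]
    rw [Finsupp.single_le_iff]
    omega
  have hdeg : Finsupp.degree d = Finsupp.degree ν + 1 := by
    rw [hν, map_add, Finsupp.degree_single]
  have h0 : ν = 0 := (Finsupp.degree_eq_zero_iff ν).1 (by omega)
  exact ⟨l, by rw [hν, h0, zero_add]⟩

theorem lsub_one {B : Type} [CommRing B] {n : ℕ} (φ : MvPolynomial (Fin n) B) :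
    lsub (1 : Matrix (Fin n) (Fin n) B) φ = φ := by
  have h : (lsub (1 : Matrix (Fin n) (Fin n) B)) = AlgHom.id B _ := by
    apply MvPolynomial.algHom_ext
    intro i
    rw [lsub, aeval_X]
    rw [Finset.sum_eq_single i]
    · simp
    · intro j _ hj
      rw [Matrix.one_apply_ne (Ne.symm hj)]
      simp
    · intro h
      exact absurd (Finset.mem_univ i) h
  rw [h]
  rfl

theorem linZ_of_lgen {n : ℕ} (f : Fin (m + 1) → MvPolynomial (Fin n) R)
    (hf : ∀ j, (f j).IsHomogeneous 2) : LinZ (lgen f) := by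
  refine ⟨0, f, 1, hf, ?_, ?_⟩
  · rw [Matrix.det_one]
    exact isUnit_one
  · have h : hyp (lgen f) 0 = lgen f := by
      have h1 : hyp (lgen f) 0 = rename (Fin.castAdd (2 * 0)) (lgen f) := by
        rw [hyp, Finset.univ_eq_empty, Finset.sum_empty, add_zero]
      rw [h1]
      exact rename_id_apply (lgen f)
    exact (lsub_one (hyp (lgen f) 0)).trans h

theorem lgen_add {n : ℕ} (f g : Fin (m + 1) → MvPolynomial (Fin n) R) :
    lgen (f + g) = lgen f + lgen g := by
  simp only [lgen, Pi.add_apply, map_add, mul_add, Finset.sum_add_distrib]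
  ring

theorem lgen_zero {n : ℕ} : lgen (0 : Fin (m + 1) → MvPolynomial (Fin n) R) = 0 := by
  simp [lgen]

theorem term_lgen {n : ℕ} (t : (Fin m →₀ ℕ) × R × Fin n × Fin n) (ht : Finsupp.degree t.1 ≤ 1) :
    ∃ f : Fin (m + 1) → MvPolynomial (Fin n) R, (∀ j, (f j).IsHomogeneous 2) ∧ term t = lgen f := by
  obtain ⟨μ, c, i, j⟩ := t
  have hhom : (C c * (X i * X j) : MvPolynomial (Fin n) R).IsHomogeneous 2 := by
    have h := (isHomogeneous_C (Fin n) c).mul ((isHomogeneous_X R i).mul (isHomogeneous_X R j))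
    exact h
  have hall : ∀ l : Fin (m + 1), ∀ k,
      ((Pi.single l (C c * (X i * X j)) : Fin (m + 1) → MvPolynomial (Fin n) R) k).IsHomogeneous 2 := by
    intro l k
    by_cases h : k = l
    · subst h
      rw [Pi.single_eq_same]
      exact hhom
    · rw [Pi.single_eq_of_ne h]
      exact isHomogeneous_zero _ _ _
  simp only at ht
  rcases Nat.lt_or_ge (Finsupp.degree μ) 1 with h0 | h1
  · have h00 : Finsupp.degree μ = 0 := by omega
    have hμ : μ = 0 := (Finsupp.degree_eq_zero_iff μ).1 h00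
    subst hμ
    refine ⟨Pi.single 0 (C c * (X i * X j)), hall 0, ?_⟩
    rw [lgen, Pi.single_eq_same, Finset.sum_eq_zero, add_zero]
    · simp [term]
    · intro k _
      rw [Pi.single_eq_of_ne (Fin.succ_ne_zero k)]
      simp
  · have h11 : Finsupp.degree μ = 1 := by omega
    obtain ⟨l, hl⟩ := deg_one μ h11
    subst hl
    refine ⟨Pi.single l.succ (C c * (X i * X j)), hall l.succ, ?_⟩
    rw [lgen, Pi.single_eq_of_ne (Fin.succ_ne_zero l).symm, Finset.sum_eq_single l]
    · rw [Pi.single_eq_same]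
      simp only [term, map_zero, zero_add, map_mul, map_C, map_X]
      rw [← C_mul_X_eq_monomial, map_mul]
      ring
    · intro k _ hk
      rw [Pi.single_eq_of_ne (fun h => hk (Fin.succ_injective _ h))]
      simp
    · intro h
      exact absurd (Finset.mem_univ l) h

theorem base {n : ℕ} (S : Multiset ((Fin m →₀ ℕ) × R × Fin n × Fin n)) :
    (∀ t ∈ S, Finsupp.degree t.1 ≤ 1) →
    ∃ f : Fin (m + 1) → MvPolynomial (Fin n) R, (∀ j, (f j).IsHomogeneous 2) ∧ phi S = lgen f := by
  induction S using Multiset.induction_on with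
  | empty =>
    intro _
    refine ⟨0, fun j => isHomogeneous_zero _ _ _, ?_⟩
    rw [lgen_zero]
    simp [phi]
  | cons t S ih =>
    intro h
    obtain ⟨f, hf, hf'⟩ := ih (fun u hu => h u (Multiset.mem_cons_of_mem hu))
    obtain ⟨g, hg, hg'⟩ := term_lgen t (h t (Multiset.mem_cons_self t S))
    refine ⟨g + f, fun j => (hg j).add (hf j), ?_⟩
    rw [lgen_add, ← hf', ← hg']
    simp [phi]

/-- The renaming of a term. -/
def ren {n : ℕ} (t : (Fin m →₀ ℕ) × R × Fin n × Fin n) :
    (Fin m →₀ ℕ) × R × Fin (n + 2 * 1) × Fin (n + 2 * 1) :=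
  (t.1, t.2.1, Fin.castAdd (2 * 1) t.2.2.1, Fin.castAdd (2 * 1) t.2.2.2)

theorem term_ren {n : ℕ} (t : (Fin m →₀ ℕ) × R × Fin n × Fin n) :
    term (ren t) = rename (Fin.castAdd (2 * 1)) (term t) := by
  simp [term, ren]

theorem phi_ren {n : ℕ} (S : Multiset ((Fin m →₀ ℕ) × R × Fin n × Fin n)) :
    phi (S.map ren) = rename (Fin.castAdd (2 * 1)) (phi S) := by
  rw [phi, phi, map_multiset_sum, Multiset.map_map, Multiset.map_map]
  congr 1
  apply Multiset.map_congr rfl
  intro t _
  exact term_ren t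

theorem meas_ren {n : ℕ} (S : Multiset ((Fin m →₀ ℕ) × R × Fin n × Fin n)) :
    meas (S.map ren) = meas S := by
  rw [meas, meas, Multiset.map_map]
  rfl

theorem linZ_phi (hC : S_ULC) (hS : S_ULS) (N : ℕ) :
    ∀ (n : ℕ) (S : Multiset ((Fin m →₀ ℕ) × R × Fin n × Fin n)), meas S = N → LinZ (phi S) := by
  induction N using Nat.strong_induction_on with
  | _ N ih =>
    intro n S hN
    by_cases hall : ∀ t ∈ S, Finsupp.degree t.1 ≤ 1
    · obtain ⟨f, hf, hf'⟩ := base S hall
      rw [hf']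
      exact linZ_of_lgen f hf
    · push Not at hall
      obtain ⟨t, htS, ht⟩ := hall
      obtain ⟨S', rfl⟩ := Multiset.exists_cons_of_mem htS
      obtain ⟨μ, c, i, j⟩ := t
      simp only at ht
      have hμ0 : μ ≠ 0 := by
        intro h
        rw [h] at ht
        simp at ht
      obtain ⟨l, hl⟩ : ∃ l, μ l ≠ 0 := by
        by_contra h
        push Not at h
        exact hμ0 (Finsupp.ext h)
      obtain ⟨ν, hν⟩ : ∃ ν : Fin m →₀ ℕ, μ = ν + Finsupp.single l 1 := by
        refine ⟨μ - Finsupp.single l 1, ?_⟩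
        rw [tsub_add_cancel_of_le]
        rw [Finsupp.single_le_iff]
        omega
      have hdeg : Finsupp.degree μ = Finsupp.degree ν + 1 := by
        rw [hν, map_add, Finsupp.degree_single]
      obtain ⟨Q, hQ, hQe⟩ := hS (MvPolynomial (Fin m) R) n (phi S') (monomial ν 1)
        (monomial (Finsupp.single l 1) c) i j
      have hphi : phi ((μ, c, i, j) ::ₘ S') =
          phi S' + C (monomial ν 1 * monomial (Finsupp.single l 1) c) * (X i * X j) := by
        rw [monomial_mul, ← hν, one_mul, phi, Multiset.map_cons, Multiset.sum_cons, add_comm]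
        rfl
      rw [hphi]
      refine hC R m n _ _ Q hQ hQe ?_
      have hψ : rename (Fin.castAdd (2 * 1)) (phi S') +
          X ⟨n, by omega⟩ * X ⟨n + 1, by omega⟩ +
          C (monomial (Finsupp.single l 1) c) * (X ⟨n, by omega⟩ * X (Fin.castAdd (2 * 1) j)) +
          C (-monomial ν 1) * (X ⟨n + 1, by omega⟩ * X (Fin.castAdd (2 * 1) i)) =
          phi (((0 : Fin m →₀ ℕ), (1 : R), (⟨n, by omega⟩ : Fin (n + 2 * 1)),
              (⟨n + 1, by omega⟩ : Fin (n + 2 * 1))) ::ₘ
            (Finsupp.single l 1, c, (⟨n, by omega⟩ : Fin (n + 2 * 1)), Fin.castAdd (2 * 1) j) ::ₘ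
            (ν, -1, (⟨n + 1, by omega⟩ : Fin (n + 2 * 1)), Fin.castAdd (2 * 1) i) ::ₘ
            S'.map ren) := by
        rw [← phi_ren]
        simp only [phi, Multiset.map_cons, Multiset.sum_cons]
        simp only [term, monomial_zero', map_one, one_mul, map_neg]
        ring
      rw [hψ]
      refine ih _ ?_ _ _ rfl
      rw [← hN]
      simp only [meas, Multiset.map_cons, Multiset.sum_cons]
      have hr := meas_ren S'
      simp only [meas] at hr
      rw [hr, Finsupp.degree_single, map_zero]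
      omega

/-- The forms which are sums of terms. -/
def IsPhi {n : ℕ} (φ : MvPolynomial (Fin n) (MvPolynomial (Fin m) R)) : Prop :=
  ∃ S : Multiset ((Fin m →₀ ℕ) × R × Fin n × Fin n), phi S = φ

theorem isPhi_zero {n : ℕ} : IsPhi (0 : MvPolynomial (Fin n) (MvPolynomial (Fin m) R)) :=
  ⟨0, by simp [phi]⟩

theorem isPhi_add {n : ℕ} (a b : MvPolynomial (Fin n) (MvPolynomial (Fin m) R))
    (ha : IsPhi a) (hb : IsPhi b) : IsPhi (a + b) := by
  obtain ⟨S, rfl⟩ := ha
  obtain ⟨T, rfl⟩ := hb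
  exact ⟨S + T, by simp [phi]⟩

theorem isPhi_term {n : ℕ} (a : MvPolynomial (Fin m) R) (i j : Fin n) :
    IsPhi (C a * (X i * X j)) := by
  have h : C a * (X i * X j) = ∑ μ ∈ a.support,
      (C (monomial μ (coeff μ a)) * (X i * X j) :
        MvPolynomial (Fin n) (MvPolynomial (Fin m) R)) := by
    conv_lhs => rw [a.as_sum]
    rw [map_sum, Finset.sum_mul]
  rw [h]
  apply Finset.sum_induction _ IsPhi isPhi_add isPhi_zero
  intro μ _
  exact ⟨{(μ, coeff μ a, i, j)}, by simp [phi, term]⟩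

theorem deg_two {n : ℕ} (d : Fin n →₀ ℕ) (hd : Finsupp.degree d = 2) :
    ∃ i j : Fin n, d = Finsupp.single i 1 + Finsupp.single j 1 := by
  have hd0 : d ≠ 0 := by
    intro h
    rw [h] at hd
    simp at hd
  obtain ⟨l, hl⟩ : ∃ l, d l ≠ 0 := by
    by_contra h
    push Not at h
    exact hd0 (Finsupp.ext h)
  obtain ⟨ν, hν⟩ : ∃ ν : Fin n →₀ ℕ, d = ν + Finsupp.single l 1 := by
    refine ⟨d - Finsupp.single l 1, ?_⟩
    rw [tsub_add_cancel_of_le]
    rw [Finsupp.single_le_iff]
    omega
  have hdeg : Finsupp.degree d = Finsupp.degree ν + 1 := by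
    rw [hν, map_add, Finsupp.degree_single]
  have h1 : Finsupp.degree ν = 1 := by omega
  obtain ⟨i, hi⟩ := deg_one ν h1
  exact ⟨i, l, by rw [hν, hi]⟩

theorem isPhi_of_hom {n : ℕ} (φ : MvPolynomial (Fin n) (MvPolynomial (Fin m) R))
    (h : φ.IsHomogeneous 2) : IsPhi φ := by
  rw [φ.as_sum]
  apply Finset.sum_induction _ IsPhi isPhi_add isPhi_zero
  intro d hd
  have hd2 : Finsupp.degree d = 2 := by
    have := h (mem_support_iff.1 hd)
    rw [← this, Finsupp.degree_eq_weight_one]
    rfl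
  obtain ⟨i, j, hij⟩ := deg_two d hd2
  have hm : monomial d (coeff d φ) = C (coeff d φ) * (X i * X j) := by
    rw [X, X, monomial_mul, C_mul_monomial, ← hij]
    simp
  rw [hm]
  exact isPhi_term _ i j

end ULZ

theorem t_ULZ : M_ULZ := by
  intro hC hS R _ m n φ hφ
  obtain ⟨S, rfl⟩ := ULZ.isPhi_of_hom φ hφ
  exact ULZ.linZ_phi hC hS _ n S rfl

end QCV


end
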