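import Mathlib
import Pool.Agent.QVM.C05
import Pool.Agent.QVM.C11

/-! Parts: CUB.A_GX, CUB.B_B3, CUB2.H_LPT, CUB2.G_PLP, CUB2.G_QEM, QCV.R_QUA -/

section

/-!
# CUB, module GX: polynomial rings
-/

set_option autoImplicit false

open Polynomial

namespace CUB

namespace GX

theorem trd {k A B : Type} [Field k] [CommRing A] [CommRing B] [IsDomain A] [IsDomain B]
    [Algebra k A] [Algebra k B] (i : A →ₐ[k] B) (hi : Function.Injective i) (x : B)
    (hx : ∀ b : B, ∃ f : A[X], f.eval₂ i.toRingHom x = b) :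
    Algebra.trdeg k B ≤ Algebra.trdeg k A + 1 ∧
    ((∃ f : A[X], f ≠ 0 ∧ f.eval₂ i.toRingHom x = 0) → Algebra.trdeg k B = Algebra.trdeg k A) := by
  let _ : Algebra A B := i.toRingHom.toAlgebra
  have : IsScalarTower k A B := IsScalarTower.of_algebraMap_eq (fun r => (i.commutes r).symm)
  have : FaithfulSMul A B := (faithfulSMul_iff_algebraMap_injective A B).2 hi
  have : FaithfulSMul k A := (faithfulSMul_iff_algebraMap_injective k A).2
    (algebraMap k A).injective
  have h := trdeg_add_eq k A (A := B)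
  have hs : Function.Surjective (aeval x : A[X] →ₐ[A] B) := fun b => hx b
  have h1 : Algebra.trdeg A B ≤ 1 := by
    have h2 := trdeg_le_of_surjective (aeval x : A[X] →ₐ[A] B) hs
    rwa [Polynomial.trdeg_of_isDomain] at h2
  refine ⟨?_, ?_⟩
  · rw [← h]
    gcongr
  · rintro ⟨f, hf, hfx⟩
    have hax : IsAlgebraic A x := ⟨f, hf, hfx⟩
    have hal : Algebra.IsAlgebraic A B := by
      refine ⟨fun b => ?_⟩
      obtain ⟨g, rfl⟩ := hs b
      have h3 : Algebra.adjoin A {x} ≤ Subalgebra.algebraicClosure A B := by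
        refine Algebra.adjoin_le ?_
        rintro y rfl
        exact hax
      exact h3 (aeval_mem_adjoin_singleton A x)
    have h4 : Algebra.trdeg A B = 0 := trdeg_eq_zero
    rw [← h, h4, add_zero]

variable {k R : Type} [Field k] [CommRing R] [Algebra k R]

theorem hyp (P : PrimeSpectrum R[X]) :
    rdim k P ≤ rdim k (PrimeSpectrum.comap (IsScalarTower.toAlgHom k R R[X]).toRingHom P) + 1 ∧
    (¬ P.asIdeal ≤ (PrimeSpectrum.comap (IsScalarTower.toAlgHom k R R[X]).toRingHom P).asIdeal.map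
        (C : R →+* R[X]) →
      rdim k P = rdim k (PrimeSpectrum.comap (IsScalarTower.toAlgHom k R R[X]).toRingHom P)) := by
  set p := PrimeSpectrum.comap (IsScalarTower.toAlgHom k R R[X]).toRingHom P with hp
  have H : p.asIdeal ≤ P.asIdeal.comap (IsScalarTower.toAlgHom k R R[X]) := le_refl _
  have h1 : Function.Injective
      (Ideal.quotientMapₐ P.asIdeal (IsScalarTower.toAlgHom k R R[X]) H) :=
    Ideal.quotientMap_injective' (H := H) (le_refl _)
  have ev : ∀ f : R[X], (f.map (Ideal.Quotient.mk p.asIdeal)).eval₂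
      (Ideal.quotientMapₐ P.asIdeal (IsScalarTower.toAlgHom k R R[X]) H).toRingHom
      (Ideal.Quotient.mk P.asIdeal X) = Ideal.Quotient.mk P.asIdeal f := by
    intro f
    rw [Polynomial.eval₂_map]
    have h2 : ((Ideal.quotientMapₐ P.asIdeal (IsScalarTower.toAlgHom k R R[X]) H).toRingHom).comp
        (Ideal.Quotient.mk p.asIdeal) = (Ideal.Quotient.mk P.asIdeal).comp C := rfl
    rw [h2, ← Polynomial.hom_eval₂, Polynomial.eval₂_C_X]
  have h3 := trd (k := k) (Ideal.quotientMapₐ P.asIdeal (IsScalarTower.toAlgHom k R R[X]) H) h1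
    (Ideal.Quotient.mk P.asIdeal X) (fun b => by
      obtain ⟨f, rfl⟩ := Ideal.Quotient.mk_surjective b
      exact ⟨_, ev f⟩)
  refine ⟨h3.1, fun hn => h3.2 ?_⟩
  obtain ⟨f, hf, hfp⟩ := SetLike.not_le_iff_exists.1 hn
  refine ⟨f.map (Ideal.Quotient.mk p.asIdeal), ?_, ?_⟩
  · intro h0
    refine hfp ?_
    rw [Ideal.mem_map_C_iff]
    intro n
    have h4 := congrArg (fun g => Polynomial.coeff g n) h0
    simp only [Polynomial.coeff_map, Polynomial.coeff_zero] at h4
    exact Ideal.Quotient.eq_zero_iff_mem.1 h4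
  · rw [ev]
    exact Ideal.Quotient.eq_zero_iff_mem.2 hf

theorem good1 (hD : S_DIM1) [Algebra.FiniteType k R] :
    Good k 1 (IsScalarTower.toAlgHom k R R[X]) := by
  refine ⟨?_, fun P => ⟨?_, fun h => ?_⟩⟩
  · have h1 : (algebraMap R R[X]).Flat := by
      rw [RingHom.flat_algebraMap_iff]
      infer_instance
    exact h1
  · have h1 := (hyp (k := k) P).1
    exact_mod_cast h1
  · have h1 : P.asIdeal ≤ (PrimeSpectrum.comap
        (IsScalarTower.toAlgHom k R R[X]).toRingHom P).asIdeal.map (C : R →+* R[X]) := by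
      by_contra hn
      have h2 := (hyp (k := k) P).2 hn
      obtain ⟨n, hn'⟩ := (hD k R
        (PrimeSpectrum.comap (IsScalarTower.toAlgHom k R R[X]).toRingHom P)).1
      rw [h2, hn'] at h
      norm_cast at h
      omega
    rw [← Localization.AtPrime.map_eq_maximalIdeal, ← Ideal.map_map]
    exact Ideal.map_mono h1

end GX

theorem t_GX : M_GX := by
  intro hD hG
  refine ⟨fun k R _ _ _ _ => GX.good1 hD, ?_⟩
  intro k R _ _ _ _ m
  induction m with
  | zero =>
    have h1 := hG.2.2.2 k R (MvPolynomial (Fin 0) R)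
      (AlgEquiv.restrictScalars k (MvPolynomial.isEmptyAlgEquiv R (Fin 0)).symm)
    have h2 : ((AlgEquiv.restrictScalars k (MvPolynomial.isEmptyAlgEquiv R (Fin 0)).symm :
        R ≃ₐ[k] MvPolynomial (Fin 0) R) : R →ₐ[k] MvPolynomial (Fin 0) R) =
        IsScalarTower.toAlgHom k R (MvPolynomial (Fin 0) R) := by
      ext r
      rfl
    rw [h2] at h1
    exact h1
  | succ m ih =>
    have h1 : Good k 1 (IsScalarTower.toAlgHom k (MvPolynomial (Fin m) R)
      (MvPolynomial (Fin m) R)[X]) := GX.good1 hD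
    have h2 := hG.1 k R (MvPolynomial (Fin m) R) (MvPolynomial (Fin m) R)[X] _ _ m 1 ih h1
    have h3 := hG.2.2.2 k (MvPolynomial (Fin m) R)[X] (MvPolynomial (Fin (m + 1)) R)
      (AlgEquiv.restrictScalars k (MvPolynomial.finSuccEquiv R m).symm)
    have h4 := hG.1 k R (MvPolynomial (Fin m) R)[X] (MvPolynomial (Fin (m + 1)) R) _ _ (m + 1) 0
      h2 h3
    have h5 : ((AlgEquiv.restrictScalars k (MvPolynomial.finSuccEquiv R m).symm :
        (MvPolynomial (Fin m) R)[X] ≃ₐ[k] MvPolynomial (Fin (m + 1)) R) :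
        (MvPolynomial (Fin m) R)[X] →ₐ[k] MvPolynomial (Fin (m + 1)) R).comp
        ((IsScalarTower.toAlgHom k (MvPolynomial (Fin m) R) (MvPolynomial (Fin m) R)[X]).comp
          (IsScalarTower.toAlgHom k R (MvPolynomial (Fin m) R))) =
        IsScalarTower.toAlgHom k R (MvPolynomial (Fin (m + 1)) R) := by
      refine AlgHom.ext fun r => ?_
      exact (MvPolynomial.finSuccEquiv R m).symm.commutes r
    rw [h5] at h4
    exact h4

end CUB


end

section

/-!
# CUB, module B3: specialisation at infinity preserves rational equivalence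
-/

set_option autoImplicit false

open Polynomial

namespace CUB

namespace B3

variable {k R : Type} [Field k] [CommRing R] [Algebra k R]

/-- The homomorphism from `R[X]` to the fraction field of the residue ring of the prime `q`. -/
noncomputable def psi (q : Ideal R[X]) [q.IsPrime] : R[X] →ₐ[k] FractionRing (R[X] ⧸ q) :=
  (IsScalarTower.toAlgHom k (R[X] ⧸ q) (FractionRing (R[X] ⧸ q))).comp (Ideal.Quotient.mkₐ k q)

lemma psi_apply (q : Ideal R[X]) [q.IsPrime] (P : R[X]) :
    psi (k := k) q P = algebraMap (R[X] ⧸ q) (FractionRing (R[X] ⧸ q)) (Ideal.Quotient.mk q P) :=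
  rfl

lemma psi_zero (q : Ideal R[X]) [q.IsPrime] (P : R[X]) : psi (k := k) q P = 0 ↔ P ∈ q := by
  rw [psi_apply]
  constructor
  · intro h
    have h1 := IsFractionRing.injective (R[X] ⧸ q) (FractionRing (R[X] ⧸ q))
      (h.trans (map_zero _).symm)
    exact Ideal.Quotient.eq_zero_iff_mem.mp h1
  · intro h
    rw [Ideal.Quotient.eq_zero_iff_mem.mpr h, map_zero]

lemma psi_evs (q : Ideal R[X]) [q.IsPrime] :
    evs ((psi (k := k) q).comp (CC k R)) (psi (k := k) q X) = psi (k := k) q :=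
  (evs_unique _ _ (psi (k := k) q) (fun _ => rfl) rfl).symm

lemma psi_frac (q : Ideal R[X]) [q.IsPrime] (x : FractionRing (R[X] ⧸ q)) :
    ∃ A B : R[X], psi (k := k) q B ≠ 0 ∧ x * psi (k := k) q B = psi (k := k) q A := by
  obtain ⟨⟨a, b⟩, hab⟩ := IsLocalization.surj (nonZeroDivisors (R[X] ⧸ q)) x
  obtain ⟨A, rfl⟩ := Ideal.Quotient.mk_surjective a
  obtain ⟨B, hB⟩ := Ideal.Quotient.mk_surjective (b : R[X] ⧸ q)
  refine ⟨A, B, ?_, ?_⟩
  · intro h0
    rw [psi_zero] at h0
    have h1 : (b : R[X] ⧸ q) = 0 := by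
      rw [← hB]
      exact Ideal.Quotient.eq_zero_iff_mem.mpr h0
    exact nonZeroDivisors.coe_ne_zero b h1
  · rw [psi_apply, psi_apply, hB]
    exact hab

end B3

open _root_.CUB.B3 in
theorem t_B3 : M_B3 := by
  intro hB1 hBL hR k R E _ _ _ _ _ _ n I c d hc hd
  unfold ratOn at hc
  refine Submodule.span_induction
    (p := fun c _ => ∀ d : RP k R n →₀ E, IsBeta k E c d → d ∈ ratOn k E n I)
    ?_ ?_ ?_ ?_ hc d hd
  · rintro c ⟨q, P, hI, hP, hDv⟩ d hd
    have hq : q.1.asIdeal.IsPrime := q.1.isPrime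
    obtain ⟨D, hD1, -, hD3⟩ := hR k R (FractionRing (R[X] ⧸ q.1.asIdeal)) E n
      ((psi (k := k) q.1.asIdeal).comp (CC k R))
    obtain ⟨h, hsum⟩ := hD3 (psi (k := k) q.1.asIdeal X) P q c d
      (by
        intro x
        rw [psi_evs]
        exact psi_frac q.1.asIdeal x)
      (by
        rw [psi_evs]
        ext Q
        exact (psi_zero q.1.asIdeal Q).symm)
      hP hDv hd
    rw [hsum]
    refine Submodule.sum_mem _ fun O _ => hD1 O _ _ I fun r hr => Or.inl ?_
    change psi (k := k) q.1.asIdeal (C r) = 0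
    rw [psi_zero]
    exact hI (Ideal.mem_map_of_mem (CC k R).toRingHom hr)
  · intro d hd
    obtain ⟨h1, -, -, -, h0⟩ := hBL k R E n 0 0 d d 0 hd hd
    have h2 := (hBL k R E n 0 0 d 0 0 hd h0).1 rfl
    rw [h2]
    exact Submodule.zero_mem _
  · intro x y _ _ hx hy d hd
    obtain ⟨dx, hdx⟩ := hB1 k R E n x
    obtain ⟨dy, hdy⟩ := hB1 k R E n y
    obtain ⟨-, hadd, -, -, -⟩ := hBL k R E n x y dx dy 0 hdx hdy
    have h2 := (hBL k R E n (x + y) (x + y) d (dx + dy) 0 hd hadd).1 rfl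
    rw [h2]
    exact Submodule.add_mem _ (hx dx hdx) (hy dy hdy)
  · intro a x _ hx d hd
    obtain ⟨dx, hdx⟩ := hB1 k R E n x
    obtain ⟨-, -, -, hsm, -⟩ := hBL k R E n x x dx dx a hdx hdx
    have h2 := (hBL k R E n (a • x) (a • x) d (a • dx) 0 hd hsm).1 rfl
    rw [h2]
    exact Submodule.smul_mem _ _ (hx dx hdx)

end CUB


end

section

/-!
# CUB2: module LPT
-/

set_option autoImplicit false

open CategoryTheory AlgebraicGeometry Limits Polynomial TopologicalSpace

namespace CUB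

open Pool.Agent.Lib_helper55.Beil Pool.Agent.Lib_helper66.OneP

namespace LPT

variable {k : Type} [Field k]

/-- A point has an affine neighbourhood, given as a chart. -/
lemma exists_chart (X : Var k) (x : X.X) :
    ∃ (A : Type) (_ : CommRing A) (_ : Algebra k A) (_ : Algebra.FiniteType k A)
      (j : OpenIn (aff k A) X), x ∈ Set.range j.g := by
  obtain ⟨W, hW, hxW, -⟩ := exists_isAffineOpen_mem_and_subset (X := X.X) (U := ⊤) (x := x)
    trivial
  have : IsAffine (openVar X W).X := hW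
  obtain ⟨A, i1, i2, i3, ⟨s⟩⟩ := exists_aff (openVar X W)
  refine ⟨A, i1, i2, i3, ⟨s.e.hom ≫ (openVarIn X W).g, ?_, ?_⟩, ?_⟩
  · rw [Category.assoc, (openVarIn X W).comm, s.comm]
  · infer_instance
  · have h1 : x ∈ Set.range (openVarIn X W).g := by
      rw [range_openVarIn]
      exact hxW
    obtain ⟨y, hy⟩ := h1
    refine ⟨s.e.inv y, ?_⟩
    have h2 : s.e.hom (s.e.inv y) = y := s.surj y
    have h3 : (s.e.hom ≫ (openVarIn X W).g) (s.e.inv y) =
        (openVarIn X W).g (s.e.hom (s.e.inv y)) := rfl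
    rw [h3, h2, hy]

variable {A : Type} [CommRing A] [Algebra k A] [Algebra.FiniteType k A]

/-- The part of a line over an affine chart. -/
lemma exists_line {Y X : Var k} (L : Line Y X) (j : OpenIn (aff k A) X) :
    ∃ g : OpenIn (aff k A[X]) Y,
      IsPullback g.g (spm (Polynomial.CAlgHom : A →ₐ[k] A[X])) L.q j.g := by
  let M : Line (aff k A[X]) (aff k A) := lineX A
  have hM : M.q = spm (Polynomial.CAlgHom : A →ₐ[k] A[X]) := rfl
  have hc : (M.q ≫ j.g) ≫ X.f =
      M.t ≫ Spec.map (CommRingCat.ofHom (algebraMap k k[X])) := by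
    rw [Category.assoc, j.comm]
    exact M.prod.w
  let g : (aff k A[X]).X ⟶ Y.X := L.prod.lift (M.q ≫ j.g) M.t hc
  have h1 : g ≫ L.q = M.q ≫ j.g := L.prod.lift_fst _ _ _
  have h2 : g ≫ L.t = M.t := L.prod.lift_snd _ _ _
  have hp : IsPullback g M.q L.q j.g := by
    have h3 : IsPullback (g ≫ L.t) M.q (Spec.map (CommRingCat.ofHom (algebraMap k k[X])))
        (j.g ≫ X.f) := by
      rw [h2, j.comm]
      exact M.prod.flip
    exact IsPullback.of_right h3 h1 L.prod.flip
  have ho : IsOpenImmersion g := MorphismProperty.of_isPullback hp.flip j.isOpen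
  have hg : g ≫ Y.f = (aff k A[X]).f := by
    rw [← L.comm, ← Category.assoc, h1, Category.assoc, j.comm]
    exact M.comm
  exact ⟨⟨g, hg, ho⟩, hp⟩

lemma dim_chart {X : Var k} (j : OpenIn (aff k A) X) (p : PrimeSpectrum A) :
    X.dim (j.g (toPt p)) = rdim k p := by
  rw [dim_map j.g j.comm, dim_toPt]

lemma rdim_comap_le (P : PrimeSpectrum A[X]) :
    rdim k (PrimeSpectrum.comap (C : A →+* A[X]) P) ≤ rdim k P := by
  unfold rdim
  have H : (PrimeSpectrum.comap (C : A →+* A[X]) P).asIdeal ≤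
      P.asIdeal.comap (Polynomial.CAlgHom : A →ₐ[k] A[X]) := le_refl _
  have h1 : Function.Injective (Ideal.quotientMapₐ P.asIdeal
      (Polynomial.CAlgHom : A →ₐ[k] A[X]) H) :=
    Ideal.quotientMap_injective' (H := H) (le_refl _)
  exact trdeg_le_of_injective _ h1

/-- The points of a line, in charts. -/
lemma exists_pt {Y X : Var k} (L : Line Y X) (j : OpenIn (aff k A) X)
    (g : OpenIn (aff k A[X]) Y)
    (hp : IsPullback g.g (spm (Polynomial.CAlgHom : A →ₐ[k] A[X])) L.q j.g)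
    (y : Y.X) (p : PrimeSpectrum A) (h : L.q y = j.g (toPt p)) :
    ∃ P : PrimeSpectrum A[X], g.g (toPt P) = y ∧ PrimeSpectrum.comap C P = p := by
  obtain ⟨z, hz1, hz2⟩ := Scheme.exists_preimage_of_isPullback hp y (toPt p) h
  exact ⟨ofPt z, hz1, hz2⟩

lemma line_le {Y X : Var k} (L : Line Y X) (y : Y.X) : X.dim (L.q y) ≤ Y.dim y ∧
    Y.dim y ≤ X.dim (L.q y) + 1 := by
  obtain ⟨A, i1, i2, i3, j, ⟨p, hp⟩⟩ := exists_chart X (L.q y)
  obtain ⟨g, hg⟩ := exists_line L j
  obtain ⟨P, rfl, hP⟩ := exists_pt L j g hg y (ofPt p) hp.symm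
  have h1 : X.dim (L.q (g.g (toPt P))) = rdim k (PrimeSpectrum.comap (C : A →+* A[X]) P) := by
    rw [← hp, hP]
    exact dim_chart j (ofPt p)
  rw [h1, dim_chart g P]
  exact ⟨rdim_comap_le P, (GX.hyp P).1⟩

lemma exists_dim (X : Var k) (x : X.X) : ∃ n : ℕ, X.dim x = n := by
  obtain ⟨A, i1, i2, i3, j, ⟨p, rfl⟩⟩ := exists_chart X x
  obtain ⟨n, hn⟩ := exists_rdim (k := k) (ofPt p)
  exact ⟨n, (dim_chart j (ofPt p)).trans hn⟩

lemma line_pt {Y X : Var k} (L : Line Y X) (x : X.X) : ∃ y : Y.X, L.q y = x ∧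
    Y.dim y = X.dim x + 1 ∧ (∀ y' : Y.X, L.q y' = x → y ⤳ y') ∧
    ∀ y' : Y.X, L.q y' = x → Y.dim y' = X.dim x + 1 → y' = y := by
  obtain ⟨A, i1, i2, i3, j, ⟨p, rfl⟩⟩ := exists_chart X x
  obtain ⟨g, hg⟩ := exists_line L j
  have hd : X.dim (j.g p) = rdim k (ofPt p) := dim_chart j (ofPt p)
  refine ⟨g.g (toPt (pX (ofPt p))), ?_, ?_, ?_, ?_⟩
  · have h1 : L.q (g.g (toPt (pX (ofPt p)))) = (g.g ≫ L.q) (toPt (pX (ofPt p))) := rfl
    rw [h1, hg.w]
    have h2 : (spm (Polynomial.CAlgHom : A →ₐ[k] A[X]) ≫ j.g) (toPt (pX (ofPt p))) =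
        j.g (toPt (PrimeSpectrum.comap C (pX (ofPt p)))) := rfl
    rw [h2, comap_pX]
    rfl
  · rw [dim_chart g, hd, rdim_pX]
  · intro y' hy'
    obtain ⟨P, rfl, hP⟩ := exists_pt L j g hg y' (ofPt p) hy'
    have h1 : (toPt (k := k) (pX (ofPt p)) : (aff k A[X]).X) ⤳ toPt P :=
      (PrimeSpectrum.le_iff_specializes _ _).mp (pX_le _ P hP)
    exact h1.map g.g.continuous
  · intro y' hy' hdim
    obtain ⟨P, rfl, hP⟩ := exists_pt L j g hg y' (ofPt p) hy'
    have h1 : pX (ofPt p) = P := by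
      apply eq_of_le_of_rdim_eq (k := k) (pX_le _ P hP)
      rw [rdim_pX, ← dim_chart g P, hdim, hd]
    rw [h1]

lemma not_self (X : Var k) (x : X.X) : X.dim x ≠ X.dim x + 1 := by
  obtain ⟨n, hn⟩ := exists_dim X x
  rw [hn]
  intro h
  norm_cast at h
  omega

lemma pbun_cases {P X : Var k} (B : PBun P X) (y : P.X) :
    (∃ u, B.j.g u = y) ∨ ∃ x, B.s.g x = y := by
  by_cases h : y ∈ Set.range B.j.g
  · exact Or.inl h
  · right
    have h1 : y ∈ Set.range B.s.g := by
      rw [B.hc]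
      exact h
    exact h1

lemma pbun_j {P X : Var k} (B : PBun P X) (u : B.U.X) : B.p.g (B.j.g u) = B.L.q u := by
  have h1 : B.p.g (B.j.g u) = (B.j.g ≫ B.p.g) u := rfl
  rw [h1, B.hL]

lemma pbun_s {P X : Var k} (B : PBun P X) (x : X.X) : B.p.g (B.s.g x) = x := by
  have h1 : B.p.g (B.s.g x) = (B.s.g ≫ B.p.g) x := rfl
  rw [h1, B.hs]
  rfl

end LPT

open _root_.CUB.LPT in
theorem t_LPT : S_LPT := by
  refine ⟨fun k _ Y X L y => line_le L y, fun k _ Y X L x => line_pt L x, ?_, ?_⟩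
  · intro k _ P X B y
    rcases pbun_cases B y with ⟨u, rfl⟩ | ⟨x, rfl⟩
    · rw [pbun_j, dim_map B.j.g B.j.comm]
      exact line_le B.L u
    · rw [pbun_s, dim_map B.s.g B.s.comm]
      exact ⟨le_rfl, le_self_add⟩
  · intro k _ P X B x
    obtain ⟨u, h1, h2, -, h4⟩ := line_pt B.L x
    refine ⟨B.j.g u, ?_, ?_, ⟨u, rfl⟩, ?_⟩
    · rw [pbun_j, h1]
    · rw [dim_map B.j.g B.j.comm, h2]
    · intro y' hy' hd
      rcases pbun_cases B y' with ⟨u', rfl⟩ | ⟨x', rfl⟩
      · rw [pbun_j] at hy'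
        rw [dim_map B.j.g B.j.comm] at hd
        rw [h4 u' hy' hd]
      · rw [pbun_s] at hy'
        rw [dim_map B.s.g B.s.comm, hy'] at hd
        exact absurd hd (not_self X x)

end CUB


end

section

/-!
# CUB2, module PLP: the point at infinity of the projective line

The projective line `P` is integral, and the complement of the first chart is the point `s = 0` of
the second chart.
-/

set_option autoImplicit false

open CategoryTheory AlgebraicGeometry Limits Polynomial TopologicalSpace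

namespace CUB.PLP

open Pool.Agent.Lib_helper55.Beil Pool.Agent.Lib_helper66.OneP

/-- The stalks of `X` at the points of a reduced open subscheme are reduced. -/
lemma red_stalk {Y X : Scheme.{0}} (f : Y ⟶ X) (hf : IsOpenImmersion f) (hY : IsReduced Y)
    (y : Y) : _root_.IsReduced (X.presheaf.stalk (f y)) :=
  isReduced_of_injective (f.stalkMap y).hom
    (ConcreteCategory.bijective_of_isIso (f.stalkMap y)).injective

/-- The image of an irreducible space is irreducible. -/
lemma irr_range {Y X : Scheme.{0}} (f : Y ⟶ X) (hY : IrreducibleSpace Y) :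
    IsIrreducible (Set.range f) := by
  rw [← Set.image_univ]
  exact (IrreducibleSpace.isIrreducible_univ Y).image _ f.continuous.continuousOn

/-- A scheme with two integral charts that meet is integral. -/
lemma integral_two {Y₀ Y₁ X : Scheme.{0}} (f₀ : Y₀ ⟶ X) (f₁ : Y₁ ⟶ X)
    (h₀ : IsOpenImmersion f₀) (h₁ : IsOpenImmersion f₁) (i₀ : IsIntegral Y₀) (i₁ : IsIntegral Y₁)
    (hc : Set.range f₀ ∪ Set.range f₁ = Set.univ) (hm : (Set.range f₀ ∩ Set.range f₁).Nonempty) :
    IsIntegral X := by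
  have hr : IsReduced X := by
    have : ∀ x : X, _root_.IsReduced (X.presheaf.stalk x) := by
      intro x
      have hx : x ∈ Set.range f₀ ∪ Set.range f₁ := by rw [hc]; trivial
      rcases hx with ⟨y, rfl⟩ | ⟨y, rfl⟩
      · exact red_stalk f₀ h₀ inferInstance y
      · exact red_stalk f₁ h₁ inferInstance y
    exact isReduced_of_isReduced_stalk X
  have a₀ := irr_range f₀ inferInstance
  have a₁ := irr_range f₁ inferInstance
  have o₀ : IsOpen (Set.range f₀) := f₀.isOpenEmbedding.isOpen_range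
  have o₁ : IsOpen (Set.range f₁) := f₁.isOpenEmbedding.isOpen_range
  have hd : closure (Set.range f₀) = Set.univ := by
    rw [← dense_iff_closure_eq, dense_iff_inter_open]
    intro U hU hne
    obtain ⟨x, hx⟩ := hne
    have hx' : x ∈ Set.range f₀ ∪ Set.range f₁ := by rw [hc]; trivial
    rcases hx' with hx' | hx'
    · exact ⟨x, hx, hx'⟩
    · obtain ⟨z, hz0, hz1⟩ := hm
      obtain ⟨w, -, hw⟩ := a₁.2 U (Set.range f₀) hU o₀ ⟨x, hx', hx⟩ ⟨z, hz1, hz0⟩
      exact ⟨w, hw⟩
  have hi : IrreducibleSpace X := by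
    have := a₀.closure
    rw [hd] at this
    exact { isPreirreducible_univ := this.2, toNonempty := ⟨this.1.some⟩ }
  exact isIntegral_of_irreducibleSpace_of_isReduced X

/-- Points of a cartesian square. -/
lemma exists_pt {P X Y Z : Scheme.{0}} {f : P ⟶ X} {g : P ⟶ Y} {h : X ⟶ Z} {i : Y ⟶ Z}
    (sq : IsPullback f g h i) (a : X) (b : Y) (hab : h a = i b) :
    ∃ z : P, f z = a ∧ g z = b := by
  obtain ⟨z, hz0, hz1⟩ := Scheme.Pullback.exists_preimage_pullback a b hab
  refine ⟨sq.isoPullback.inv z, ?_, ?_⟩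
  · rw [← hz0, ← sq.isoPullback_inv_fst]
    rfl
  · rw [← hz1, ← sq.isoPullback_inv_snd]
    rfl

variable {k : Type} [Field k]

/-- The second gluing morphism has the nonvanishing locus of `s` as its image. -/
lemma mem_range_gm₁ (y : PrimeSpectrum k[X]) (hy : (X : k[X]) ∉ y.asIdeal) :
    ∃ z : PrimeSpectrum (LaurentPolynomial k), PrimeSpectrum.comap gm₁ z = y := by
  have h : y ∈ Set.range (PrimeSpectrum.comap (algebraMap k[X] (LaurentPolynomial k))) := by
    rw [PrimeSpectrum.localization_away_comap_range (LaurentPolynomial k) (X : k[X])]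
    exact hy
  obtain ⟨z, rfl⟩ := h
  refine ⟨PrimeSpectrum.comap
    (LaurentPolynomial.invert (R := k) : LaurentPolynomial k →+* LaurentPolynomial k) z, ?_⟩
  ext p
  simp only [PrimeSpectrum.comap_asIdeal, Ideal.mem_comap, gm₁, gm₀, RingHom.comp_apply]
  have e : ∀ q : LaurentPolynomial k,
      (LaurentPolynomial.invert (R := k) : LaurentPolynomial k →+* LaurentPolynomial k)
        ((LaurentPolynomial.invert (R := k) : LaurentPolynomial k →+* LaurentPolynomial k) q) = q :=
    fun q => LaurentPolynomial.involutive_invert q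
  rw [e]
  rfl

/-- `s` is invertible on the image of the second gluing morphism. -/
lemma not_mem_gm₁ (z : PrimeSpectrum (LaurentPolynomial k)) :
    (X : k[X]) ∉ (PrimeSpectrum.comap gm₁ z).asIdeal := by
  intro h
  rw [PrimeSpectrum.comap_asIdeal, Ideal.mem_comap] at h
  have e : gm₁ (X : k[X]) = LaurentPolynomial.T (R := k) (-1) := by
    change LaurentPolynomial.invert (R := k) (Polynomial.toLaurent X) = _
    rw [Polynomial.toLaurent_X, LaurentPolynomial.invert_T]
  rw [e] at h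
  exact z.isPrime.ne_top (Ideal.eq_top_of_isUnit_mem _ h (LaurentPolynomial.isUnit_T (-1)))

/-- The point `s = 0`. -/
lemma eq_origin (y : PrimeSpectrum k[X]) (hy : (X : k[X]) ∈ y.asIdeal)
    (o : PrimeSpectrum k) :
    y = PrimeSpectrum.comap (Polynomial.aeval (R := k) (0 : k) : k[X] →+* k) o := by
  ext p
  rw [PrimeSpectrum.comap_asIdeal, Ideal.mem_comap]
  have ho : o.asIdeal = ⊥ := Ideal.eq_bot_of_prime _
  rw [ho, Ideal.mem_bot]
  have e : (Polynomial.aeval (R := k) (0 : k) : k[X] →+* k) p = p.coeff 0 := by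
    change Polynomial.aeval (0 : k) p = p.coeff 0
    rw [Polynomial.coe_aeval_eq_eval, Polynomial.coeff_zero_eq_eval_zero]
  rw [e]
  constructor
  · intro hp
    by_contra hne
    have h1 : (C (p.coeff 0) : k[X]) ∈ y.asIdeal := by
      have h2 : X * p.divX + C (p.coeff 0) = p := Polynomial.X_mul_divX_add p
      have h3 : (C (p.coeff 0) : k[X]) = p - X * p.divX := by
        rw [← sub_eq_zero]
        linear_combination h2
      rw [h3]
      exact y.asIdeal.sub_mem hp (y.asIdeal.mul_mem_right _ hy)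
    exact y.isPrime.ne_top (Ideal.eq_top_of_isUnit_mem _ h1 (Polynomial.isUnit_C.2 (isUnit_iff_ne_zero.2 hne)))
  · intro hp
    have h2 : X ∣ p := Polynomial.X_dvd_iff.2 hp
    exact y.asIdeal.mem_of_dvd h2 hy

lemma X_mem_origin (o : PrimeSpectrum k) : (X : k[X]) ∈
    (PrimeSpectrum.comap (Polynomial.aeval (R := k) (0 : k) : k[X] →+* k) o).asIdeal := by
  rw [PrimeSpectrum.comap_asIdeal, Ideal.mem_comap]
  have e : (Polynomial.aeval (R := k) (0 : k) : k[X] →+* k) X = 0 := by
    change Polynomial.aeval (0 : k) X = 0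
    rw [Polynomial.aeval_X]
  rw [e]
  exact o.asIdeal.zero_mem

/-- The origin of the second chart. -/
noncomputable def org (H : PLine k) : (aff k k).X ⟶ H.P.X :=
  spm (Polynomial.aeval (R := k) (0 : k)) ≫ H.j₁.g

lemma org_comm (H : PLine k) : org H ≫ H.P.f = (aff k k).f := by
  rw [org, Category.assoc, H.j₁.comm, spm_comm]

lemma org_closed (H : PLine k) : IsClosedImmersion (org H) := by
  have h1 : IsIso (aff k k).f := by
    change IsIso (Spec.map (CommRingCat.ofHom (algebraMap k k)))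
    have : CommRingCat.ofHom (algebraMap k k) = 𝟙 (CommRingCat.of k) := rfl
    rw [this, Spec.map_id]
    infer_instance
  have h2 : IsClosedImmersion (org H ≫ H.P.f) := by
    rw [org_comm]
    infer_instance
  have h3 : IsSeparated H.P.f := H.P.sep
  exact IsClosedImmersion.of_comp (org H) H.P.f

lemma org_range (H : PLine k) : Set.range (org H) = (Set.range H.j₀.g)ᶜ := by
  ext x
  constructor
  · rintro ⟨o, rfl⟩ ⟨a, ha⟩
    have hw : H.j₀.g a = H.j₁.g (spm (Polynomial.aeval (R := k) (0 : k)) o) := by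
      rw [ha]
      rfl
    obtain ⟨z, -, hz⟩ := exists_pt H.glue a (spm (Polynomial.aeval (R := k) (0 : k)) o) hw
    apply not_mem_gm₁ z
    have hz2 : (PrimeSpectrum.comap gm₁ z) =
        PrimeSpectrum.comap (Polynomial.aeval (R := k) (0 : k) : k[X] →+* k) o := hz
    rw [hz2]
    exact X_mem_origin o
  · intro hx
    have hx' : x ∈ Set.range H.j₀.g ∪ Set.range H.j₁.g := by rw [H.cover]; trivial
    rcases hx' with hx' | ⟨y, rfl⟩
    · exact absurd hx' hx
    · by_cases hy : (X : k[X]) ∈ y.asIdeal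
      · refine ⟨(⊥ : PrimeSpectrum k), ?_⟩
        have h1 := eq_origin y hy ⊥
        have h2 : y = spm (Polynomial.aeval (R := k) (0 : k)) (⊥ : PrimeSpectrum k) := h1
        rw [h2]
        rfl
      · exfalso
        obtain ⟨z, hz⟩ := mem_range_gm₁ y hy
        apply hx
        refine ⟨Spec.map (CommRingCat.ofHom gm₀) z, ?_⟩
        have h1 : Spec.map (CommRingCat.ofHom gm₁) z = y := hz
        have h2 : (Spec.map (CommRingCat.ofHom gm₀) ≫ H.j₀.g) z =
            (Spec.map (CommRingCat.ofHom gm₁) ≫ H.j₁.g) z := by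
          rw [H.glue.w]
        rw [← h1]
        exact h2

/-- The two charts meet. -/
lemma meet (H : PLine k) : (Set.range H.j₀.g ∩ Set.range H.j₁.g).Nonempty := by
  obtain ⟨z⟩ : Nonempty (PrimeSpectrum (LaurentPolynomial k)) := inferInstance
  refine ⟨H.j₀.g (Spec.map (CommRingCat.ofHom gm₀) z), ⟨_, rfl⟩,
    ⟨Spec.map (CommRingCat.ofHom gm₁) z, ?_⟩⟩
  have h2 : (Spec.map (CommRingCat.ofHom gm₀) ≫ H.j₀.g) z =
      (Spec.map (CommRingCat.ofHom gm₁) ≫ H.j₁.g) z := by
    rw [H.glue.w]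
  exact h2.symm

end CUB.PLP

namespace CUB

theorem t_PLP : S_PLP := by
  intro k _ H
  refine ⟨?_, ⟨⟨PLP.org H, PLP.org_comm H, PLP.org_closed H⟩, PLP.org_range H⟩⟩
  have i : IsIntegral (aff k k[X]).X :=
    inferInstanceAs (IsIntegral (Spec (CommRingCat.of k[X])))
  exact PLP.integral_two H.j₀.g H.j₁.g H.j₀.isOpen H.j₁.isOpen i i H.cover (PLP.meet H)

end CUB


end

section

/-!
# CUB2, block G: QEM, a quasi-affine variety is an open subvariety of an affine variety
-/

set_option autoImplicit false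

open CategoryTheory AlgebraicGeometry Limits Polynomial TopologicalSpace

namespace CUB

open Pool.Agent.Lib_helper55.Beil Pool.Agent.Lib_helper66.OneP

namespace QEM

/-- A subalgebra which contains `b` and enough numerators has the same localisation at `b`. -/
theorem away_of_adjoin {k R L : Type} [CommRing k] [CommRing R] [CommRing L] [Algebra k R]
    [Algebra R L] [Algebra k L] [IsScalarTower k R L] (b : R) [IsLocalization.Away b L]
    (A : Subalgebra k R) (hb : b ∈ A) (G : Set L) (hG : Algebra.adjoin k G = ⊤)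
    (h : ∀ g ∈ G, ∃ n : ℕ, ∃ a ∈ A, g * algebraMap R L b ^ n = algebraMap R L a) :
    IsLocalization.Away (⟨b, hb⟩ : A) L := by
  have hval : ∀ a : A, algebraMap A L a = algebraMap R L (a : R) := fun a => rfl
  have hpow : ∀ n : ℕ, algebraMap A L ((⟨b, hb⟩ : A) ^ n) = algebraMap R L b ^ n := by
    intro n
    rw [hval, SubmonoidClass.coe_pow, map_pow]
  have Q : ∀ z : L, ∃ n : ℕ, ∃ a ∈ A, z * algebraMap R L b ^ n = algebraMap R L a := by
    intro z
    have hz : z ∈ Algebra.adjoin k G := by rw [hG]; trivial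
    induction hz using Algebra.adjoin_induction with
    | mem x hx => exact h x hx
    | algebraMap c =>
      exact ⟨0, algebraMap k R c, A.algebraMap_mem c, by
        rw [pow_zero, mul_one, ← IsScalarTower.algebraMap_apply]⟩
    | add x y _ _ hx hy =>
      obtain ⟨n, a, ha, e⟩ := hx
      obtain ⟨m, c, hc, e'⟩ := hy
      refine ⟨n + m, a * b ^ m + c * b ^ n,
        A.add_mem (A.mul_mem ha (A.pow_mem hb _)) (A.mul_mem hc (A.pow_mem hb _)), ?_⟩
      rw [map_add, map_mul, map_mul, map_pow, map_pow, ← e, ← e']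
      ring
    | mul x y _ _ hx hy =>
      obtain ⟨n, a, ha, e⟩ := hx
      obtain ⟨m, c, hc, e'⟩ := hy
      refine ⟨n + m, a * c, A.mul_mem ha hc, ?_⟩
      rw [map_mul, ← e, ← e']
      ring
  constructor; constructor
  · rintro ⟨_, n, rfl⟩
    rw [hpow]
    exact (IsLocalization.Away.algebraMap_isUnit (S := L) b).pow n
  · intro z
    obtain ⟨n, a, ha, e⟩ := Q z
    exact ⟨(⟨a, ha⟩, ⟨_, n, rfl⟩), by rw [hpow]; exact e⟩
  · intro x y e
    rw [hval, hval] at e
    obtain ⟨⟨_, n, rfl⟩, e⟩ := IsLocalization.exists_of_eq (M := Submonoid.powers b) e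
    refine ⟨⟨_, n, rfl⟩, Subtype.ext ?_⟩
    exact e

end QEM

theorem t_QEM : S_QEM := by
  intro k _ Y hY
  let φ : CommRingCat.of k ⟶ Γ(Y.X, ⊤) := (Scheme.ΓSpecIso (.of k)).inv ≫ Y.f.appTop
  let algT : Algebra k Γ(Y.X, ⊤) := φ.hom.toAlgebra
  -- a finite covering by affine basic open subsets
  obtain ⟨B, hB, hcov⟩ : ∃ B : Finset Γ(Y.X, ⊤), (∀ b ∈ B, IsAffineOpen (Y.X.basicOpen b)) ∧
      ∀ y : Y.X, ∃ b ∈ B, y ∈ Y.X.basicOpen b := by
    have h0 : ∀ y : Y.X, ∃ r : Γ(Y.X, ⊤), IsAffineOpen (Y.X.basicOpen r) ∧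
        y ∈ Y.X.basicOpen r := by
      intro y
      obtain ⟨_, ⟨_, ⟨r, hr, rfl⟩, rfl⟩, hyr, -⟩ :=
        (Scheme.IsQuasiAffine.isBasis_basicOpen Y.X).exists_subset_of_mem_open
          (Set.mem_univ y) isOpen_univ
      exact ⟨r, hr, hyr⟩
    choose r hr hyr using h0
    obtain ⟨t, ht⟩ := CompactSpace.elim_nhds_subcover (fun y => (Y.X.basicOpen (r y) : Set Y.X))
      (fun y => (Y.X.basicOpen (r y)).isOpen.mem_nhds (hyr y))
    classical
    refine ⟨t.image r, ?_, ?_⟩
    · intro b hb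
      obtain ⟨y, _, rfl⟩ := Finset.mem_image.1 hb
      exact hr y
    · intro y
      have hy : y ∈ (⊤ : Set Y.X) := trivial
      rw [← ht] at hy
      obtain ⟨z, hz, hy⟩ := Set.mem_iUnion₂.1 hy
      exact ⟨r z, Finset.mem_image_of_mem _ hz, hy⟩
  -- numerators of generators
  have key : ∀ b : Γ(Y.X, ⊤), IsAffineOpen (Y.X.basicOpen b) →
      ∃ T : Finset Γ(Y.X, ⊤), ∀ (A : Subalgebra k Γ(Y.X, ⊤)) (hb : b ∈ A),
        (T : Set Γ(Y.X, ⊤)) ⊆ A →
        IsLocalization.Away (⟨b, hb⟩ : A) Γ(Y.X, Y.X.basicOpen b) := by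
    intro b hb
    have hloc : IsLocalization.Away b Γ(Y.X, Y.X.basicOpen b) :=
      isLocalization_basicOpen_of_qcqs isCompact_univ isQuasiSeparated_univ b
    let ψ : k →+* Γ(Y.X, Y.X.basicOpen b) :=
      (algebraMap Γ(Y.X, ⊤) Γ(Y.X, Y.X.basicOpen b)).comp φ.hom
    let algL : Algebra k Γ(Y.X, Y.X.basicOpen b) := ψ.toAlgebra
    have tower : IsScalarTower k Γ(Y.X, ⊤) Γ(Y.X, Y.X.basicOpen b) :=
      IsScalarTower.of_algebraMap_eq fun _ => rfl
    have hft : ψ.FiniteType := by
      have h1 : (Y.f.appLE ⊤ (Y.X.basicOpen b) le_top).hom.FiniteType :=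
        Y.f.finiteType_appLE (isAffineOpen_top _) hb le_top
      have h2 : (Scheme.ΓSpecIso (CommRingCat.of k)).inv.hom.FiniteType :=
        RingHom.FiniteType.of_surjective _
          (ConcreteCategory.bijective_of_isIso (Scheme.ΓSpecIso (CommRingCat.of k)).inv).2
      have h3 : ψ = ((Scheme.ΓSpecIso (CommRingCat.of k)).inv ≫
          Y.f.appLE ⊤ (Y.X.basicOpen b) le_top).hom := by
        have h4 : Y.f.appLE ⊤ (Y.X.basicOpen b) le_top =
            Y.f.appTop ≫ Y.X.presheaf.map (homOfLE le_top).op := rfl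
        rw [h4]
        rfl
      rw [h3]
      exact h1.comp h2
    obtain ⟨G, hG⟩ := (show Algebra.FiniteType k Γ(Y.X, Y.X.basicOpen b) from hft).out
    choose z hz using fun g : Γ(Y.X, Y.X.basicOpen b) =>
      IsLocalization.surj (Submonoid.powers b) g
    classical
    refine ⟨G.image fun g => (z g).1, fun A hb T => ?_⟩
    refine QEM.away_of_adjoin b A hb G hG fun g hg => ?_
    obtain ⟨n, hn⟩ := (z g).2.2
    refine ⟨n, (z g).1, T (Finset.mem_coe.2 (Finset.mem_image_of_mem _ hg)), ?_⟩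
    rw [← hz g, ← map_pow]
    congr 2
  choose! T hT using key
  classical
  let A : Subalgebra k Γ(Y.X, ⊤) := Algebra.adjoin k ((B ∪ B.biUnion T : Finset Γ(Y.X, ⊤)) : Set _)
  have hBA : ∀ b ∈ B, b ∈ A := fun b hb =>
    Algebra.subset_adjoin (Finset.mem_coe.2 (Finset.mem_union_left _ hb))
  have hTA : ∀ b ∈ B, (T b : Set Γ(Y.X, ⊤)) ⊆ A := fun b hb t ht =>
    Algebra.subset_adjoin (Finset.mem_coe.2 (Finset.mem_union_right _
      (Finset.mem_biUnion.2 ⟨b, hb, ht⟩)))
  have hA : Algebra.FiniteType k A :=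
    A.fg_iff_finiteType.1 ⟨B ∪ B.biUnion T, rfl⟩
  let i : CommRingCat.of A ⟶ Γ(Y.X, ⊤) := CommRingCat.ofHom (algebraMap A Γ(Y.X, ⊤))
  have hopen : IsOpenImmersion (Y.X.toSpecΓ ≫ Spec.map i) := by
    refine IsZariskiLocalAtTarget.of_forall_source_exists_preimage _ fun y ↦ ?_
    obtain ⟨b, hb, hy⟩ := hcov y
    have hpre : (Y.X.toSpecΓ ≫ Spec.map i) ⁻¹ᵁ
        PrimeSpectrum.basicOpen (⟨b, hBA b hb⟩ : A) = Y.X.basicOpen b := by
      rw [← Y.X.toSpecΓ_preimage_basicOpen b]
      rfl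
    refine ⟨PrimeSpectrum.basicOpen (⟨b, hBA b hb⟩ : A), hpre.ge hy, ?_⟩
    suffices IsOpenImmersion ((Y.X.basicOpen b).ι ≫ Y.X.toSpecΓ ≫ Spec.map i) by
      convert! this
    rw [← Scheme.Opens.toSpecΓ_SpecMap_presheaf_map_top_assoc, ← Spec.map_comp]
    have := hT b (hB b hb) A (hBA b hb) (hTA b hb)
    exact MorphismProperty.comp_mem _ (hB b hb).isoSpec.hom _ inferInstance
      (.of_isLocalization (⟨b, hBA b hb⟩ : A))
  have h1 : (Y.X.toSpecΓ ≫ Spec.map i) ≫ Spec.map (CommRingCat.ofHom (algebraMap k A)) = Y.f := by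
    have h2 : CommRingCat.ofHom (algebraMap k A) ≫ i = φ := rfl
    rw [Category.assoc, ← Spec.map_comp, h2, Spec.map_comp, ← Category.assoc]
    have h3 : Y.X.toSpecΓ ≫ Spec.map Y.f.appTop =
        Y.f ≫ (Spec (CommRingCat.of k)).toSpecΓ := (Scheme.toSpecΓ_naturality Y.f).symm
    rw [h3, Category.assoc, ← AlgebraicGeometry.SpecMap_ΓSpecIso_hom, ← Spec.map_comp]
    rw [Iso.inv_hom_id, Spec.map_id, Category.comp_id]
  exact ⟨A, inferInstance, inferInstance, hA, ⟨⟨Y.X.toSpecΓ ≫ Spec.map i, h1, hopen⟩⟩⟩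

end CUB


end

section

set_option autoImplicit false

namespace QCV

theorem t_QUA : M_QUA := by
  intro h01 hst k _ P d hP n
  induction n using Nat.strong_induction_on with
  | _ n ih =>
    match n, ih with
    | 0, _ => exact (h01 k P d hP).1
    | 1, _ => exact (h01 k P d hP).2
    | n + 2, ih => exact hst k P d n hP (fun m hm => ih m (by omega))

end QCV


end
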