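import Mathlib
import Pool.Agent.QVM.C05
import Pool.Agent.QVM.C08
import Pool.Agent.QVM.C21

/-! Parts: CUB.A_PBC, CUB.A_VRL, CUB.B_B4, CUB.B_L0M, CUB.C_ETA, CUB.C_ST0B, CUB.A_DIM2, QCV.D_DHM, QCV.D_DBC -/

section

/-!
# CUB, module PBC: base change for closed immersions
-/

set_option autoImplicit false

open Polynomial

namespace CUB

namespace PBC

variable {k A B E : Type} [Field k] [CommRing A] [CommRing B] [Algebra k A] [Algebra k B]
  [Field E]

lemma pushP_injective {n : ℕ} (φ : A →ₐ[k] B) (hφ : Function.Surjective φ) :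
    Function.Injective (pushP (n := n) φ hφ) := by
  intro P Q h
  have h1 : PrimeSpectrum.comap φ.toRingHom P.1 = PrimeSpectrum.comap φ.toRingHom Q.1 :=
    congrArg Subtype.val h
  exact Subtype.ext (PrimeSpectrum.comap_injective_of_surjective φ.toRingHom hφ h1)

lemma push_apply {n : ℕ} (φ : A →ₐ[k] B) (hφ : Function.Surjective φ) (d : RP k B n →₀ E)
    (P : RP k B n) : push E φ hφ d (pushP φ hφ P) = d P := by
  unfold push
  rw [Finsupp.lmapDomain_apply]
  exact Finsupp.mapDomain_apply (pushP_injective φ hφ) d P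

lemma push_notin {n : ℕ} (φ : A →ₐ[k] B) (hφ : Function.Surjective φ) (d : RP k B n →₀ E)
    (P : RP k A n) (h : ¬ RingHom.ker φ.toRingHom ≤ P.1.asIdeal) : push E φ hφ d P = 0 := by
  unfold push
  rw [Finsupp.lmapDomain_apply]
  refine Finsupp.mapDomain_of_notMem_range d P ?_
  rintro ⟨Q, rfl⟩
  refine h ?_
  intro x hx
  have hx' : φ.toRingHom x = 0 := hx
  show φ.toRingHom x ∈ Q.1.asIdeal
  rw [hx']
  exact Q.1.asIdeal.zero_mem

lemma exists_pushP {n : ℕ} (φ : A →ₐ[k] B) (hφ : Function.Surjective φ) (P : RP k A n)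
    (h : RingHom.ker φ.toRingHom ≤ P.1.asIdeal) : ∃ Q : RP k B n, pushP φ hφ Q = P := by
  have h1 : P.1 ∈ Set.range (PrimeSpectrum.comap φ.toRingHom) := by
    rw [range_comap_of_surjective _ φ.toRingHom hφ]
    exact h
  obtain ⟨Q, hQ⟩ := h1
  refine ⟨⟨Q, ?_⟩, Subtype.ext hQ⟩
  rw [← rdim_comap φ hφ Q, hQ]
  exact P.2

end PBC

open _root_.CUB.PBC in
theorem t_PBC : S_PBC := by
  intro k A B A' B' E _ _ _ _ _ _ _ _ _ _ r n φ φ' α β hα hβ hcomm hker c d hpull P
  by_cases hP : RingHom.ker β.toRingHom ≤ P.1.asIdeal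
  · obtain ⟨P', rfl⟩ := exists_pushP β hβ P hP
    have h1 : PrimeSpectrum.comap φ.toRingHom (pushP β hβ P').1 =
        PrimeSpectrum.comap α.toRingHom (PrimeSpectrum.comap φ'.toRingHom P'.1) := by
      ext x
      show β (φ x) ∈ P'.1.asIdeal ↔ φ' (α x) ∈ P'.1.asIdeal
      have h2 : φ' (α x) = β (φ x) := DFunLike.congr_fun hcomm x
      rw [h2]
    have h3 : rdim k (PrimeSpectrum.comap φ.toRingHom (pushP β hβ P').1) =
        rdim k (PrimeSpectrum.comap φ'.toRingHom P'.1) := by
      rw [h1, rdim_comap α hα]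
    rw [push_apply]
    refine ⟨fun h => ?_, fun h => ?_⟩
    · have h4 : rdim k (PrimeSpectrum.comap φ'.toRingHom P'.1) = n := by rw [← h3]; exact h
      have h5 : (⟨PrimeSpectrum.comap φ.toRingHom (pushP β hβ P').1, h⟩ : RP k A n) =
          pushP α hα ⟨PrimeSpectrum.comap φ'.toRingHom P'.1, h4⟩ := Subtype.ext h1
      rw [h5, push_apply]
      exact (hpull P').1 h4
    · exact (hpull P').2 (by rw [← h3]; exact h)
  · rw [push_notin β hβ d P hP]
    refine ⟨fun h => ?_, fun _ => rfl⟩
    rw [push_notin α hα c _ ?_]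
    intro h1
    refine hP (hker.trans ?_)
    rw [Ideal.map_le_iff_le_comap]
    exact h1

end CUB


end

section

/-!
# CUB, VRL: the varieties `y ^ 2 - y = ∑ t_j f_j` away from one of the functions
-/

set_option autoImplicit false

open Polynomial

namespace CUB

namespace VRL

variable {k R S B : Type} [Field k] [CommRing R] [CommRing S] [CommRing B]
  [Algebra k R] [Algebra k S] [Algebra k B] {m : ℕ}

/-- The image of the variable `t_j`. -/
noncomputable def var (f : Fin (m + 1) → R) (l : Fin (m + 1)) (σ : R →ₐ[k] S) (u : S) :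
    Fin (m + 1) → (MvPolynomial (Fin m) S)[X] :=
  l.insertNth ((X ^ 2 - X - ∑ j : Fin m, C (MvPolynomial.X j) *
    C (MvPolynomial.C (σ (f (l.succAbove j))))) * C (MvPolynomial.C u))
    (fun j => C (MvPolynomial.X j))

/-- The homomorphism on the base. -/
noncomputable def psi (f : Fin (m + 1) → R) (l : Fin (m + 1)) (σ : R →ₐ[k] S) (u : S) :
    MvPolynomial (Fin (m + 1)) R →ₐ[k] (MvPolynomial (Fin m) S)[X] :=
  { MvPolynomial.eval₂Hom
      (((C : MvPolynomial (Fin m) S →+* _).comp MvPolynomial.C).comp σ.toRingHom)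
      (var f l σ u) with
    commutes' := by
      intro c
      show MvPolynomial.eval₂Hom _ _ (MvPolynomial.C (algebraMap k R c)) = _
      rw [MvPolynomial.eval₂Hom_C]
      show C (MvPolynomial.C (σ (algebraMap k R c))) = _
      rw [AlgHom.commutes]
      rfl }

theorem psi_C (f : Fin (m + 1) → R) (l : Fin (m + 1)) (σ : R →ₐ[k] S) (u : S) (r : R) :
    psi f l σ u (MvPolynomial.C r) = C (MvPolynomial.C (σ r)) :=
  MvPolynomial.eval₂Hom_C _ _ _

theorem psi_X (f : Fin (m + 1) → R) (l : Fin (m + 1)) (σ : R →ₐ[k] S) (u : S)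
    (j : Fin (m + 1)) : psi f l σ u (MvPolynomial.X j) = var f l σ u j :=
  MvPolynomial.eval₂Hom_X' _ _ _

theorem psi_lin (f : Fin (m + 1) → R) (l : Fin (m + 1)) (σ : R →ₐ[k] S) (u : S)
    (hu : σ (f l) * u = 1) :
    (X : (MvPolynomial (Fin m) S)[X]) ^ 2 - X = psi f l σ u (lin f) := by
  unfold lin
  rw [map_sum, Fin.sum_univ_succAbove _ l]
  simp only [map_mul, psi_C, psi_X, var, Fin.insertNth_apply_same, Fin.insertNth_apply_succAbove]
  have h : (C (MvPolynomial.C (σ (f l))) : (MvPolynomial (Fin m) S)[X]) *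
      C (MvPolynomial.C u) = 1 := by
    rw [← C_mul, ← MvPolynomial.C_mul, hu, MvPolynomial.C_1, C_1]
  have h2 : (X ^ 2 - X - ∑ j : Fin m, C (MvPolynomial.X j) *
    C (MvPolynomial.C (σ (f (l.succAbove j)))) : (MvPolynomial (Fin m) S)[X]) *
      C (MvPolynomial.C u) * C (MvPolynomial.C (σ (f l))) =
      X ^ 2 - X - ∑ j : Fin m, C (MvPolynomial.X j) *
        C (MvPolynomial.C (σ (f (l.succAbove j)))) := by
    rw [mul_assoc, mul_comm (C (MvPolynomial.C u)), h, mul_one]
  rw [h2]
  ring

end VRL

open _root_.CUB.VRL in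
theorem t_VRL : S_VRL := by
  intro k R S B _ _ _ _ _ _ _ m f l σ φ hS hB
  letI aS : Algebra R S := σ.toRingHom.toAlgebra
  letI aB : Algebra (VR R f) B := φ.toRingHom.toAlgebra
  haveI iS : IsLocalization.Away (f l) S := hS
  haveI iB : IsLocalization.Away (VRbase (k := k) f (f l)) B := hB
  have algS : ∀ r : R, algebraMap R S r = σ r := fun r => rfl
  have algB : ∀ b : VR R f, algebraMap (VR R f) B b = φ b := fun b => rfl
  -- the inverse of `f l`
  obtain ⟨u, hu⟩ : ∃ u : S, σ (f l) * u = 1 := by
    have h := IsLocalization.Away.algebraMap_isUnit (S := S) (f l)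
    obtain ⟨w, hw⟩ := h
    refine ⟨((w⁻¹ : Sˣ) : S), ?_⟩
    rw [← algS, ← hw]
    exact w.mul_inv
  -- the homomorphism from the double cover
  let α : VR R f →ₐ[k] (MvPolynomial (Fin m) S)[X] := Qlift (psi f l σ u) X (psi_lin f l σ u hu)
  have α_base : ∀ t : MvPolynomial (Fin (m + 1)) R,
      α (algebraMap (MvPolynomial (Fin (m + 1)) R) (VR R f) t) = psi f l σ u t :=
    fun t => Qlift_algebraMap _ _ _ _
  have α_yy : α (yy (lin f)) = X := Qlift_yy _ _ _
  have base_eq : ∀ r : R, VRbase (k := k) f r =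
      algebraMap (MvPolynomial (Fin (m + 1)) R) (VR R f) (MvPolynomial.C r) := fun r => rfl
  have α_R : ∀ r : R, α (VRbase (k := k) f r) = C (MvPolynomial.C (σ r)) := by
    intro r
    rw [base_eq, α_base, psi_C]
  have hunit : IsUnit (α.toRingHom (VRbase (k := k) f (f l))) := by
    refine isUnit_iff_exists_inv.2 ⟨C (MvPolynomial.C u), ?_⟩
    show α (VRbase (k := k) f (f l)) * _ = 1
    rw [α_R, ← C_mul, ← MvPolynomial.C_mul, hu, MvPolynomial.C_1, C_1]
  let E : B →+* (MvPolynomial (Fin m) S)[X] :=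
    IsLocalization.Away.lift (VRbase (k := k) f (f l)) hunit
  have hE : ∀ b : VR R f, E (φ b) = α b := fun b =>
    IsLocalization.Away.lift_eq (VRbase (k := k) f (f l)) hunit b
  -- the inverse
  have hunit2 : IsUnit ((φ.toRingHom.comp (VRbase (k := k) f).toRingHom) (f l)) :=
    IsLocalization.Away.algebraMap_isUnit (S := B) (VRbase (k := k) f (f l))
  let γ : S →+* B := IsLocalization.Away.lift (f l) hunit2
  have hγ : ∀ r : R, γ (σ r) = φ (VRbase (k := k) f r) := fun r =>
    IsLocalization.Away.lift_eq (f l) hunit2 r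
  let G : MvPolynomial (Fin m) S →+* B := MvPolynomial.eval₂Hom γ (fun j =>
    φ (algebraMap (MvPolynomial (Fin (m + 1)) R) (VR R f) (MvPolynomial.X (l.succAbove j))))
  have G_C : ∀ s : S, G (MvPolynomial.C s) = γ s := fun s => MvPolynomial.eval₂Hom_C _ _ _
  have G_X : ∀ j : Fin m, G (MvPolynomial.X j) =
      φ (algebraMap (MvPolynomial (Fin (m + 1)) R) (VR R f) (MvPolynomial.X (l.succAbove j))) :=
    fun j => MvPolynomial.eval₂Hom_X' _ _ _
  let β : (MvPolynomial (Fin m) S)[X] →+* B := Polynomial.eval₂RingHom G (φ (yy (lin f)))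
  have β_C : ∀ p : MvPolynomial (Fin m) S, β (C p) = G p := fun p => Polynomial.eval₂_C _ _
  have β_X : β X = φ (yy (lin f)) := Polynomial.eval₂_X _ _
  -- β ∘ α = φ
  have key1 : ∀ t : MvPolynomial (Fin (m + 1)) R,
      β (psi f l σ u t) = φ (algebraMap (MvPolynomial (Fin (m + 1)) R) (VR R f) t) := by
    have h : (β.comp (psi f l σ u).toRingHom) =
        φ.toRingHom.comp (algebraMap (MvPolynomial (Fin (m + 1)) R) (VR R f)) := by
      apply MvPolynomial.ringHom_ext
      · intro r
        show β (psi f l σ u (MvPolynomial.C r)) = φ (VRbase (k := k) f r)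
        rw [psi_C, β_C, G_C, hγ]
      · intro j
        show β (psi f l σ u (MvPolynomial.X j)) =
          φ (algebraMap (MvPolynomial (Fin (m + 1)) R) (VR R f) (MvPolynomial.X j))
        rw [psi_X]
        rcases Fin.eq_self_or_eq_succAbove l j with rfl | ⟨i, rfl⟩
        · rw [var, Fin.insertNth_apply_same, map_mul, β_C, G_C, map_sub, map_sub, map_pow, β_X,
            map_sum]
          simp only [map_mul, β_C, G_C, G_X, hγ]
          have h1 : γ u * φ (VRbase (k := k) f (f j)) = 1 := by
            rw [← hγ, ← map_mul, mul_comm, hu, map_one]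
          have h2 := congrArg φ (yy_eq (lin f))
          rw [map_sub, map_sub, map_pow, map_zero] at h2
          have h3 : φ (algebraMap (MvPolynomial (Fin (m + 1)) R) (VR R f) (lin f)) =
              φ (algebraMap (MvPolynomial (Fin (m + 1)) R) (VR R f) (MvPolynomial.X j)) *
                φ (VRbase (k := k) f (f j)) +
              ∑ i : Fin m, φ (algebraMap (MvPolynomial (Fin (m + 1)) R) (VR R f)
                (MvPolynomial.X (j.succAbove i))) *
                φ (VRbase (k := k) f (f (j.succAbove i))) := by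
            have e1 : algebraMap (MvPolynomial (Fin (m + 1)) R) (VR R f) (lin f) =
                algebraMap (MvPolynomial (Fin (m + 1)) R) (VR R f) (MvPolynomial.X j) *
                  VRbase (k := k) f (f j) +
                ∑ i : Fin m, algebraMap (MvPolynomial (Fin (m + 1)) R) (VR R f)
                  (MvPolynomial.X (j.succAbove i)) * VRbase (k := k) f (f (j.succAbove i)) := by
              simp only [base_eq, ← map_mul, ← map_sum, ← map_add]
              congr 1
              exact Fin.sum_univ_succAbove _ j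
            rw [e1, map_add, map_mul, map_sum]
            congr 1
            exact Finset.sum_congr rfl fun i _ => map_mul _ _ _
          rw [h3] at h2
          have h4 : φ (yy (lin f)) ^ 2 - φ (yy (lin f)) -
              ∑ i : Fin m, φ (algebraMap (MvPolynomial (Fin (m + 1)) R) (VR R f)
                (MvPolynomial.X (j.succAbove i))) *
                φ (VRbase (k := k) f (f (j.succAbove i))) =
              φ (algebraMap (MvPolynomial (Fin (m + 1)) R) (VR R f) (MvPolynomial.X j)) *
                φ (VRbase (k := k) f (f j)) := by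
            linear_combination h2
          rw [h4, mul_assoc, mul_comm (φ (VRbase (k := k) f (f j))), h1, mul_one]
        · rw [var, Fin.insertNth_apply_succAbove, β_C, G_X]
    intro t
    exact RingHom.congr_fun h t
  have key2 : ∀ b : VR R f, β (α b) = φ b := by
    intro b
    obtain ⟨p, q, rfl⟩ := Q_span b
    rw [map_add, map_mul, α_base, α_base, α_yy, map_add, map_mul, key1, key1, β_X, map_add,
      map_mul]
  have key3 : ∀ b : B, β (E b) = b := by
    have h : β.comp E = RingHom.id B := by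
      apply IsLocalization.ringHom_ext (Submonoid.powers (VRbase (k := k) f (f l)))
      refine RingHom.ext fun b => ?_
      show β (E (φ b)) = φ b
      rw [hE, key2]
    intro b
    exact RingHom.congr_fun h b
  have key4 : ∀ s : S, E (γ s) = C (MvPolynomial.C s) := by
    have h : E.comp γ = (C : MvPolynomial (Fin m) S →+* _).comp MvPolynomial.C := by
      apply IsLocalization.ringHom_ext (Submonoid.powers (f l))
      refine RingHom.ext fun r => ?_
      show E (γ (σ r)) = C (MvPolynomial.C (σ r))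
      rw [hγ, hE, α_R]
    intro s
    exact RingHom.congr_fun h s
  have key5 : ∀ j : Fin m, E (φ (algebraMap (MvPolynomial (Fin (m + 1)) R) (VR R f)
      (MvPolynomial.X (l.succAbove j)))) = C (MvPolynomial.X j) := by
    intro j
    rw [hE, α_base, psi_X, var, Fin.insertNth_apply_succAbove]
  have key6 : ∀ p : (MvPolynomial (Fin m) S)[X], E (β p) = p := by
    have h : E.comp β = RingHom.id _ := by
      apply Polynomial.ringHom_ext'
      · apply MvPolynomial.ringHom_ext
        · intro s
          show E (β (C (MvPolynomial.C s))) = C (MvPolynomial.C s)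
          rw [β_C, G_C, key4]
        · intro j
          show E (β (C (MvPolynomial.X j))) = C (MvPolynomial.X j)
          rw [β_C, G_X, key5]
      · show E (β X) = X
        rw [β_X, hE, α_yy]
    intro p
    exact RingHom.congr_fun h p
  let e : B ≃+* (MvPolynomial (Fin m) S)[X] :=
    { E with
      invFun := β
      left_inv := key3
      right_inv := key6 }
  refine ⟨AlgEquiv.ofRingEquiv (f := e) ?_, ?_, ?_, ?_⟩
  · intro c
    show E (algebraMap k B c) = _
    rw [← φ.commutes, hE, α.commutes]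
  · intro r
    show E (φ (VRbase (k := k) f r)) = _
    rw [hE, α_R]
  · exact key5
  · show E (φ (yy (lin f))) = X
    rw [hE, α_yy]

end CUB


end

section

/-!
# CUB: the specialisation at infinity is invariant under `X ↦ u X`
-/

set_option autoImplicit false

open Polynomial

namespace CUB

namespace B4

/-- The multiplicity of the specialisation of the image of `z` under the inverse of `X ↦ u X`. -/
theorem bet_symm (hB : S_BETF) {k R : Type} [Field k] [CommRing R] [Algebra k R] (u : Rˣ)
    (z : Ideal R[X]) (p : PrimeSpectrum R) :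
    bet (z.comap ((mu (k := k) u).symm : R[X] →ₐ[k] R[X]).toRingHom) p = bet z p := by
  have h := hB.2.2.2 k R u (z.comap ((mu (k := k) u).symm : R[X] →ₐ[k] R[X]).toRingHom) p
  rw [← h]
  congr 1
  ext x
  show (mu (k := k) u).symm ((mu (k := k) u) x) ∈ z ↔ x ∈ z
  rw [(mu (k := k) u).symm_apply_apply]

end B4

theorem t_B4 : M_B4 := by
  intro hP hB k R E _ _ _ _ _ n u c d e hpull hbeta p
  have hd : push E ((mu (k := k) u).symm : R[X] →ₐ[k] R[X]) (mu (k := k) u).symm.surjective c = d :=
    (hP.2 k R[X] R[X] E (n + 1) (mu (k := k) u) c d).1 hpull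
  rw [hbeta p, ← hd]
  show _ = (Finsupp.mapDomain (pushP (n := n + 1) ((mu (k := k) u).symm : R[X] →ₐ[k] R[X])
    (mu (k := k) u).symm.surjective) c).sum (fun z e => e * (bet z.1.asIdeal p.1 : E))
  rw [Finsupp.sum_mapDomain_index (fun _ => by rw [zero_mul]) (fun _ _ _ => add_mul _ _ _)]
  refine Finsupp.sum_congr fun z _ => ?_
  have h2 := B4.bet_symm hB (k := k) u z.1.asIdeal p.1
  rw [← h2]
  rfl

end CUB


end

section

/-!
# Cycles on polynomial rings in several variables
-/

set_option autoImplicit false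

open Polynomial

namespace CUB

namespace L0M

lemma ft_mv (k R : Type) [Field k] [CommRing R] [Algebra k R] [Algebra.FiniteType k R] (m : ℕ) :
    Algebra.FiniteType k (MvPolynomial (Fin m) R) :=
  Algebra.FiniteType.trans (S := R) inferInstance inferInstance

lemma ft_X (k R : Type) [Field k] [CommRing R] [Algebra k R] [Algebra.FiniteType k R] :
    Algebra.FiniteType k R[X] :=
  Algebra.FiniteType.trans (S := R) inferInstance inferInstance

/-- The isomorphism `R[x_0, ..., x_m] ≃ R[x_1, ..., x_m][X]` over `k`. -/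
noncomputable def fse (k R : Type) [Field k] [CommRing R] [Algebra k R] (m : ℕ) :
    MvPolynomial (Fin (m + 1)) R ≃ₐ[k] (MvPolynomial (Fin m) R)[X] :=
  (MvPolynomial.finSuccEquiv R m).restrictScalars k

lemma fse_comp (k R : Type) [Field k] [CommRing R] [Algebra k R] (m : ℕ) :
    (((fse k R m).symm : (MvPolynomial (Fin m) R)[X] →ₐ[k] MvPolynomial (Fin (m + 1)) R)).comp
      ((CC k (MvPolynomial (Fin m) R)).comp
        (IsScalarTower.toAlgHom k R (MvPolynomial (Fin m) R))) =
      IsScalarTower.toAlgHom k R (MvPolynomial (Fin (m + 1)) R) := by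
  refine AlgHom.ext fun r => ?_
  have h1 : fse k R m (algebraMap R (MvPolynomial (Fin (m + 1)) R) r) =
      algebraMap R (MvPolynomial (Fin m) R)[X] r := (MvPolynomial.finSuccEquiv R m).commutes r
  have h2 : (fse k R m).symm (algebraMap R (MvPolynomial (Fin m) R)[X] r) =
      algebraMap R (MvPolynomial (Fin (m + 1)) R) r := by
    rw [← h1, AlgEquiv.symm_apply_apply]
  exact h2

/-- The isomorphism `R ≃ R[]` over `k`. -/
noncomputable def emp (k R : Type) [Field k] [CommRing R] [Algebra k R] :
    R ≃ₐ[k] MvPolynomial (Fin 0) R :=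
  ((MvPolynomial.isEmptyAlgEquiv R (Fin 0)).restrictScalars k).symm

lemma emp_eq (k R : Type) [Field k] [CommRing R] [Algebra k R] :
    ((emp k R : R ≃ₐ[k] MvPolynomial (Fin 0) R) : R →ₐ[k] MvPolynomial (Fin 0) R) =
      IsScalarTower.toAlgHom k R (MvPolynomial (Fin 0) R) := by
  refine AlgHom.ext fun r => ?_
  exact (MvPolynomial.isEmptyAlgEquiv R (Fin 0)).symm.commutes r

/-- Push-forward along an isomorphism and back. -/
lemma push_back (hP : S_PCO) {k A B E : Type} [Field k] [CommRing A] [CommRing B] [Algebra k A]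
    [Algebra k B] [Field E] {n : ℕ} (e : A ≃ₐ[k] B) (c : RP k B n →₀ E) :
    push E (e.symm : B →ₐ[k] A) e.symm.surjective (push E (e : A →ₐ[k] B) e.surjective c) = c := by
  have h1 : Function.Surjective (AlgHom.id k B) := Function.surjective_id
  have h2 : AlgHom.id k B = (e : A →ₐ[k] B).comp (e.symm : B →ₐ[k] A) := by
    ext x
    exact (e.apply_symm_apply x).symm
  have h3 := hP.1 k B A B E n (e.symm : B →ₐ[k] A) (e : A →ₐ[k] B) (AlgHom.id k B)
    e.symm.surjective e.surjective h1 h2 c
  rw [← h3]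
  exact hP.2.1 k B E n (AlgHom.id k B) h1 rfl c

lemma main (hGX : S_GX) (hFPX : S_FPX) (hPLIN : S_PLIN) (hGCO : S_GCO) (hFP : S_FP)
    (hPCO : S_PCO) (hL0 : S_L0) : S_L0M := by
  intro k R E _ _ _ _ _ m
  -- pull-back along `CC` preserves rational equivalence
  have hrat : ∀ (A : Type) [CommRing A] [Algebra k A] [Algebra.FiniteType k A] (n : ℕ)
      (c : RP k A n →₀ E) (d : RP k A[X] (n + 1) →₀ E), IsPull k E 1 (CC k A) c d →
      c ∈ rat k A E n → d ∈ rat k A[X] E (n + 1) := by
    intro A _ _ _ n c d h1 h2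
    have := ft_X k A
    have h3 := hFP k A A[X] E 1 n (CC k A) (hGX.1 k A) ⊥ c d h1 h2
    rwa [Ideal.map_bot] at h3
  induction m with
  | zero =>
    refine ⟨fun n c => ?_, fun j hj => absurd hj (Nat.not_lt_zero _)⟩
    refine ⟨push E (emp k R : R →ₐ[k] MvPolynomial (Fin 0) R) (emp k R).surjective c, c, ?_, ?_⟩
    · rw [← emp_eq]
      refine (hPLIN.2 k R (MvPolynomial (Fin 0) R) E n (emp k R) _ c).2 ?_
      exact push_back hPCO (emp k R) c
    · rw [sub_self]
      exact Submodule.zero_mem _
  | succ m ih =>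
    have := ft_mv k R m
    have := ft_mv k R (m + 1)
    have := ft_X k (MvPolynomial (Fin m) R)
    set e := fse k R m with he
    refine ⟨fun n c => ?_, fun j hj c => ?_⟩
    · obtain ⟨v1, d1, hv1, hd1⟩ := (hL0 k (MvPolynomial (Fin m) R) E).1 (n + m)
        (push E (e.symm : (MvPolynomial (Fin m) R)[X] →ₐ[k] MvPolynomial (Fin (m + 1)) R)
          e.symm.surjective c)
      obtain ⟨v, d2, hv, hd2⟩ := ih.1 n v1
      obtain ⟨d3, hd3⟩ := hFPX k _ _ E 1 (n + m) (CC k (MvPolynomial (Fin m) R))
        (hGX.1 k (MvPolynomial (Fin m) R)) d2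
      have h1 : d1 - d3 ∈ rat k (MvPolynomial (Fin m) R)[X] E (n + m + 1) :=
        hrat (MvPolynomial (Fin m) R) (n + m) (v1 - d2) (d1 - d3)
          (hPLIN.1 k _ _ E 1 (n + m) _ v1 d2 d1 d3 0 hv1 hd3).2.2.1 hd2
      have h2 : IsPull k E (m + 1) ((CC k (MvPolynomial (Fin m) R)).comp
          (IsScalarTower.toAlgHom k R (MvPolynomial (Fin m) R))) v d3 :=
        (hGCO.2.1 k R (MvPolynomial (Fin m) R) (MvPolynomial (Fin m) R)[X] E
          (IsScalarTower.toAlgHom k R (MvPolynomial (Fin m) R)) (CC k (MvPolynomial (Fin m) R))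
          m n (hGX.2 k R m)).1 (hGX.1 k (MvPolynomial (Fin m) R)) v d2 d3 hv hd3
      have h3 : Good k (m + 1) ((CC k (MvPolynomial (Fin m) R)).comp
          (IsScalarTower.toAlgHom k R (MvPolynomial (Fin m) R))) :=
        hGCO.1 k R (MvPolynomial (Fin m) R) (MvPolynomial (Fin m) R)[X] _ _ m 1
          (hGX.2 k R m) (hGX.1 k (MvPolynomial (Fin m) R))
      set d := push E (e : MvPolynomial (Fin (m + 1)) R →ₐ[k] (MvPolynomial (Fin m) R)[X])
        e.surjective d3 with hd
      have h4 : IsPull k E 0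
          (e.symm : (MvPolynomial (Fin m) R)[X] →ₐ[k] MvPolynomial (Fin (m + 1)) R) d3 d :=
        (hPLIN.2 k (MvPolynomial (Fin m) R)[X] (MvPolynomial (Fin (m + 1)) R) E
          (n + m + 1) e.symm d3 d).2 rfl
      have h5 := (hGCO.2.1 k R (MvPolynomial (Fin m) R)[X] (MvPolynomial (Fin (m + 1)) R) E
        _ (e.symm : (MvPolynomial (Fin m) R)[X] →ₐ[k] MvPolynomial (Fin (m + 1)) R)
        (m + 1) n h3).2 (hGCO.2.2.2 k _ _ e.symm) v d3 d h2 h4
      rw [fse_comp] at h5
      refine ⟨v, d, h5, ?_⟩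
      have h6 : c = push E (e : MvPolynomial (Fin (m + 1)) R →ₐ[k] (MvPolynomial (Fin m) R)[X])
          e.surjective (push E
            (e.symm : (MvPolynomial (Fin m) R)[X] →ₐ[k] MvPolynomial (Fin (m + 1)) R)
            e.symm.surjective c) := (push_back hPCO e.symm c).symm
      have h7 : c - d = push E
          (e : MvPolynomial (Fin (m + 1)) R →ₐ[k] (MvPolynomial (Fin m) R)[X])
          e.surjective (push E
            (e.symm : (MvPolynomial (Fin m) R)[X] →ₐ[k] MvPolynomial (Fin (m + 1)) R)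
            e.symm.surjective c - d3) := by
        rw [map_sub, ← h6]
      rw [h7]
      refine (hPCO.2.2.1 k (MvPolynomial (Fin (m + 1)) R) (MvPolynomial (Fin m) R)[X] E
        (n + m + 1) e _).2 ?_
      have h8 := Submodule.add_mem _ hd1 h1
      rwa [sub_add_sub_cancel] at h8
    · refine (hPCO.2.2.1 k (MvPolynomial (Fin m) R)[X] (MvPolynomial (Fin (m + 1)) R) E j
        e.symm c).1 ?_
      rcases j with _ | j
      · exact (hL0 k (MvPolynomial (Fin m) R) E).2 _
      · obtain ⟨v1, d1, hv1, hd1⟩ := (hL0 k (MvPolynomial (Fin m) R) E).1 j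
          (push E e.symm.toAlgHom e.symm.surjective c)
        have h1 := hrat (MvPolynomial (Fin m) R) j v1 d1 hv1 (ih.2 j (by omega) v1)
        have h2 := Submodule.add_mem _ hd1 h1
        rwa [sub_add_cancel] at h2

end L0M

theorem t_L0M : M_L0M := fun h1 h2 h3 h4 h5 h6 h7 => L0M.main h1 h2 h3 h4 h5 h6 h7

end CUB


end

section

/-!
# CUB, block C: ETA (base change of the etale part of a double cover)
-/

set_option autoImplicit false

open Polynomial

namespace CUB

namespace ETA

/-- `1, y` is a basis of `A[y] / (y ^ 2 - y - g)`. -/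
lemma basis {A : Type} [CommRing A] {g a b : A}
    (h : algebraMap A (Q A g) a + algebraMap A (Q A g) b * yy g = 0) : a = 0 ∧ b = 0 := by
  rcases subsingleton_or_nontrivial A with hA | hA
  · exact ⟨Subsingleton.elim _ _, Subsingleton.elim _ _⟩
  have h1 : AdjoinRoot.mk (asPoly g) (C b * X + C a) = 0 := by
    rw [map_add, map_mul, add_comm]
    exact h
  rw [AdjoinRoot.mk_eq_zero] at h1
  have h3 : (asPoly g).natDegree = 2 := by
    unfold asPoly
    compute_degree!
  have h2 : C b * X + C a = 0 := by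
    by_contra hne
    refine (asPoly_monic g).not_dvd_of_natDegree_lt hne ?_ h1
    have := natDegree_linear_le (a := b) (b := a)
    omega
  constructor
  · have := congrArg (fun p => coeff p 0) h2
    simpa using this
  · have := congrArg (fun p => coeff p 1) h2
    simpa using this

section

variable {k S T : Type} [Field k] [CommRing S] [CommRing T] [Algebra k S] [Algebra k T]
  (G f : S) (φ : Q S G →ₐ[k] T) (σ : S →ₐ[k] T)

variable (k) in
/-- The homomorphism `S → YY G f`. -/
noncomputable def jS : S →ₐ[k] YY G f := (Qbase (k := k) (C G + X * C f)).comp (CC k S)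

variable (k) in
lemma jS_apply (s : S) : jS k G f s = algebraMap S[X] (YY G f) (C s) := rfl

variable (k) in
/-- The homomorphism from `(Q S G)[X]`. -/
noncomputable def om : (Q S G)[X] →ₐ[k] Q (YY G f) (jS k G f G) :=
  evs (Qmap (jS k G f) rfl)
    (algebraMap (YY G f) (Q (YY G f) (jS k G f G)) (algebraMap S[X] (YY G f) X))

lemma om_map (p : S[X]) : om k G f (p.map (algebraMap S (Q S G))) =
    algebraMap (YY G f) (Q (YY G f) (jS k G f G)) (algebraMap S[X] (YY G f) p) := by
  have h1 := evs_unique (k := k) (R := S)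
    ((Qbase (k := k) (jS k G f G)).comp (jS k G f))
    (algebraMap (YY G f) (Q (YY G f) (jS k G f G)) (algebraMap S[X] (YY G f) X))
    ((om k G f).comp (mapX (Qbase (k := k) G))) (fun r => by
      rw [AlgHom.comp_apply]
      have h0 : mapX (Qbase (k := k) G) (C r) = C (algebraMap S (Q S G) r) := by
        simp [mapX, Qbase]
      rw [h0, om, evs_C, Qmap_algebraMap]
      rfl) (by
      rw [AlgHom.comp_apply]
      have h0 : mapX (Qbase (k := k) G) (X : S[X]) = X := by simp [mapX]
      rw [h0, om, evs_X])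
  have h2 := evs_unique (k := k) (R := S)
    ((Qbase (k := k) (jS k G f G)).comp (jS k G f))
    (algebraMap (YY G f) (Q (YY G f) (jS k G f G)) (algebraMap S[X] (YY G f) X))
    ((Qbase (k := k) (jS k G f G)).comp (Qbase (k := k) (C G + X * C f))) (fun r => rfl) rfl
  have h3 := DFunLike.congr_fun (h1.trans h2.symm) p
  exact h3

lemma om_C (x : Q S G) : om k G f (C x) = Qmap (jS k G f) rfl x := evs_C _ _ _

lemma om_two : om k G f (C (2 * yy G - 1)) = 2 * yy (jS k G f G) - 1 := by
  rw [om_C, map_sub, map_mul, map_one, Qmap_yy]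
  congr 2
  exact map_ofNat _ 2

/-- every element of `Q (YY G f) _` is `om w + (om w') * y`. -/
lemma span (x : Q (YY G f) (jS k G f G)) : ∃ w w' : (Q S G)[X], x = om k G f w +
    om k G f w' * algebraMap (YY G f) (Q (YY G f) (jS k G f G)) (yy (C G + X * C f)) := by
  obtain ⟨p, q, rfl⟩ := Q_span x
  obtain ⟨s0, s1, rfl⟩ := Q_span p
  obtain ⟨s2, s3, rfl⟩ := Q_span q
  have hy : yy (jS k G f G) = om k G f (C (yy G)) := by rw [om_C, Qmap_yy]
  refine ⟨s0.map (algebraMap S (Q S G)) + s2.map (algebraMap S (Q S G)) * C (yy G),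
    s1.map (algebraMap S (Q S G)) + s3.map (algebraMap S (Q S G)) * C (yy G), ?_⟩
  simp only [map_add, map_mul, om_map, ← hy]
  ring

variable (hσ : σ = φ.comp (Qbase G)) (g' : T[X]) (h : mapX σ (C G + X * C f) = g')

include hσ in
lemma root_eq : (φ (yy G)) ^ 2 - φ (yy G) = σ G := by
  have h1 := congrArg φ (yy_eq G)
  rw [map_sub, map_sub, map_pow, map_zero] at h1
  have h2 : σ G = φ (algebraMap S (Q S G) G) := by rw [hσ]; rfl
  rw [h2]
  exact sub_eq_zero.mp h1

include hσ in
lemma Phi_aux : (algebraMap T[X] (Q T[X] g') (C (φ (yy G)))) ^ 2 -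
    algebraMap T[X] (Q T[X] g') (C (φ (yy G))) = Qmap (mapX σ) h (jS k G f G) := by
  rw [jS_apply, Qmap_algebraMap]
  have h1 : mapX σ (C G) = C (σ G) := by simp [mapX]
  rw [h1, ← root_eq G φ σ hσ, ← map_pow, ← map_sub, ← C_pow, ← C_sub]

/-- The homomorphism `Q (YY G f) _ → Q T[X] g'`. -/
noncomputable def Phi : Q (YY G f) (jS k G f G) →ₐ[k] Q T[X] g' :=
  Qlift (Qmap (mapX σ) h) (algebraMap T[X] (Q T[X] g') (C (φ (yy G))))
    (Phi_aux G f φ σ hσ g' h)

lemma Phi_algebraMap (x : YY G f) : Phi G f φ σ hσ g' h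
    (algebraMap (YY G f) (Q (YY G f) (jS k G f G)) x) = Qmap (mapX σ) h x := by
  unfold Phi
  exact Qlift_algebraMap _ _ _ _

lemma Phi_yy : Phi G f φ σ hσ g' h (yy (jS k G f G)) =
    algebraMap T[X] (Q T[X] g') (C (φ (yy G))) := by
  unfold Phi
  exact Qlift_yy _ _ _

lemma Phi_comp : (Phi G f φ σ hσ g' h).comp (Qbase (jS k G f G)) = Qmap (mapX σ) h :=
  AlgHom.ext fun x => Phi_algebraMap G f φ σ hσ g' h x

lemma Phi_om (w : (Q S G)[X]) : Phi G f φ σ hσ g' h (om k G f w) =
    algebraMap T[X] (Q T[X] g') (w.map φ.toRingHom) := by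
  have hq : ∀ x : Q S G, Phi G f φ σ hσ g' h (Qmap (jS k G f) rfl x) =
      algebraMap T[X] (Q T[X] g') (C (φ x)) := by
    intro x
    have h1 : (Phi G f φ σ hσ g' h).comp (Qmap (jS k G f) rfl) =
        ((Qbase (k := k) g').comp (CC k T)).comp φ := by
      apply Q_ext
      · intro t
        rw [AlgHom.comp_apply, Qmap_algebraMap, Phi_algebraMap, jS_apply, Qmap_algebraMap]
        have h2 : mapX σ (C t) = C (σ t) := by simp [mapX]
        rw [h2, hσ]
        rfl
      · rw [AlgHom.comp_apply, Qmap_yy, Phi_yy]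
        rfl
    exact DFunLike.congr_fun h1 x
  have h1 := evs_unique (k := k) (R := Q S G)
    (((Qbase (k := k) g').comp (CC k T)).comp φ)
    (algebraMap T[X] (Q T[X] g') X)
    ((Phi G f φ σ hσ g' h).comp (om k G f)) (fun r => by
      rw [AlgHom.comp_apply, om_C, hq]
      rfl) (by
      rw [AlgHom.comp_apply, om, evs_X, Phi_algebraMap, Qmap_algebraMap]
      simp [mapX])
  have h2 := evs_unique (k := k) (R := Q S G)
    (((Qbase (k := k) g').comp (CC k T)).comp φ)
    (algebraMap T[X] (Q T[X] g') X)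
    ((Qbase (k := k) g').comp (mapX φ)) (fun r => by
      rw [AlgHom.comp_apply]
      have h3 : mapX φ (C r) = C (φ r) := by simp [mapX]
      rw [h3]
      rfl) (by
      rw [AlgHom.comp_apply]
      have h3 : mapX φ (X : (Q S G)[X]) = X := by simp [mapX]
      rw [h3]
      rfl)
  exact DFunLike.congr_fun (h1.trans h2.symm) w

lemma Phi_y : Phi G f φ σ hσ g' h
    (algebraMap (YY G f) (Q (YY G f) (jS k G f G)) (yy (C G + X * C f))) = yy g' := by
  rw [Phi_algebraMap, Qmap_yy]

end

/-- Localisation of polynomial rings, elementwise. -/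
lemma poly_surj {A B : Type} [CommRing A] [CommRing B] (φ : A →+* B) (a : A)
    (hloc : @IsLocalization.Away A _ a B _ φ.toAlgebra) (t : B[X]) :
    ∃ (n : ℕ) (w : A[X]), C (φ a) ^ n * t = w.map φ := by
  letI := φ.toAlgebra
  haveI : IsLocalization.Away a B := hloc
  induction t using Polynomial.induction_on' with
  | add p q hp hq =>
    obtain ⟨n, w, hw⟩ := hp
    obtain ⟨m, w', hw'⟩ := hq
    refine ⟨n + m, C a ^ m * w + C a ^ n * w', ?_⟩
    rw [Polynomial.map_add, Polynomial.map_mul, Polynomial.map_mul, Polynomial.map_pow,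
      Polynomial.map_pow, map_C, ← hw, ← hw']
    ring
  | monomial i b =>
    obtain ⟨n, x, hx⟩ := IsLocalization.Away.surj a b
    refine ⟨n, monomial i x, ?_⟩
    have hx' : b * φ a ^ n = φ x := hx
    rw [map_monomial, ← hx', ← C_pow, C_mul_monomial, mul_comm b]

lemma poly_inj {A B : Type} [CommRing A] [CommRing B] (φ : A →+* B) (a : A)
    (hloc : @IsLocalization.Away A _ a B _ φ.toAlgebra) (w : A[X]) (hw : w.map φ = 0) :
    ∃ n : ℕ, C a ^ n * w = 0 := by
  letI := φ.toAlgebra
  haveI : IsLocalization.Away a B := hloc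
  have h1 : ∀ i, ∃ n : ℕ, a ^ n * w.coeff i = 0 := by
    intro i
    have h2' : φ (w.coeff i) = 0 := by
      have := congrArg (fun p => coeff p i) hw
      simpa using this
    have h2 : algebraMap A B (w.coeff i) = algebraMap A B 0 := by
      rw [map_zero]
      exact h2'
    obtain ⟨n, hn⟩ := IsLocalization.Away.exists_of_eq a h2
    exact ⟨n, by simpa using hn⟩
  choose n hn using h1
  refine ⟨∑ i ∈ w.support, n i, ?_⟩
  ext i
  rw [← C_pow, coeff_C_mul, coeff_zero]
  by_cases hi : i ∈ w.support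
  · rw [← Finset.add_sum_erase _ _ hi, pow_add, mul_comm (a ^ n i), mul_assoc, hn, mul_zero]
  · rw [notMem_support_iff.mp hi, mul_zero]

end ETA

open _root_.CUB.ETA in
theorem t_ETA : M_ETA := by
  intro hGET k S T _ _ _ _ _ _ _ G f φ σ hloc hσ g' h
  haveI : Algebra.FiniteType k S[X] := Algebra.FiniteType.trans (S := S) inferInstance inferInstance
  haveI : Algebra.FiniteType k T[X] := Algebra.FiniteType.trans (S := T) inferInstance inferInstance
  have key : @IsLocalization.Away (Q (YY G f) (jS k G f G)) _ (2 * yy (jS k G f G) - 1)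
      (Q T[X] g') _ (Phi G f φ σ hσ g' h).toRingHom.toAlgebra := by
    letI alg := (Phi G f φ σ hσ g' h).toRingHom.toAlgebra
    have hmap : ∀ x, algebraMap (Q (YY G f) (jS k G f G)) (Q T[X] g') x =
        Phi G f φ σ hσ g' h x := fun x => rfl
    have h2 : Phi G f φ σ hσ g' h (2 * yy (jS k G f G) - 1) =
        algebraMap T[X] (Q T[X] g') (C (φ (2 * yy G - 1))) := by
      rw [← om_two, Phi_om, map_C]
      rfl
    have hunit : IsUnit (φ (2 * yy G - 1)) := by
      letI := φ.toRingHom.toAlgebra
      haveI : IsLocalization.Away (2 * yy G - 1) T := hloc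
      exact IsLocalization.Away.algebraMap_isUnit (S := T) (2 * yy G - 1)
    refine IsLocalization.Away.mk _ ?_ ?_ ?_
    · rw [hmap, h2]
      exact (hunit.map C).map _
    · intro b
      obtain ⟨b0, b1, rfl⟩ := Q_span b
      obtain ⟨n0, w0, hw0⟩ := poly_surj φ.toRingHom _ hloc b0
      obtain ⟨n1, w1, hw1⟩ := poly_surj φ.toRingHom _ hloc b1
      refine ⟨n0 + n1, om k G f (C (2 * yy G - 1) ^ n1 * w0) +
        om k G f (C (2 * yy G - 1) ^ n0 * w1) *
        algebraMap (YY G f) (Q (YY G f) (jS k G f G)) (yy (C G + X * C f)), ?_⟩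
      rw [hmap, hmap, h2, map_add (Phi G f φ σ hσ g' h), map_mul (Phi G f φ σ hσ g' h), Phi_y,
        Phi_om, Phi_om, Polynomial.map_mul, Polynomial.map_mul, Polynomial.map_pow,
        Polynomial.map_pow, map_C, ← hw0, ← hw1]
      simp only [map_mul, map_pow]
      have : φ.toRingHom (2 * yy G - 1) = φ (2 * yy G - 1) := rfl
      rw [this]
      ring
    · intro x y hxy
      obtain ⟨w, w', hw⟩ := ETA.span (k := k) G f (x - y)
      have h3 : Phi G f φ σ hσ g' h (x - y) = 0 := by
        rw [map_sub, ← hmap, ← hmap, hxy, sub_self]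
      rw [hw, map_add, map_mul, Phi_y, Phi_om, Phi_om] at h3
      obtain ⟨e0, e1⟩ := ETA.basis h3
      obtain ⟨n0, hn0⟩ := poly_inj φ.toRingHom _ hloc w e0
      obtain ⟨n1, hn1⟩ := poly_inj φ.toRingHom _ hloc w' e1
      refine ⟨n0 + n1, ?_⟩
      rw [← sub_eq_zero, ← mul_sub, hw, ← om_two (k := k)]
      have f0 := congrArg (om k G f) hn0
      have f1 := congrArg (om k G f) hn1
      rw [map_mul, map_pow, map_zero] at f0 f1
      rw [pow_add]
      linear_combination (om k G f (C (2 * yy G - 1))) ^ n1 * f0 +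
        (om k G f (C (2 * yy G - 1))) ^ n0 *
        algebraMap (YY G f) (Q (YY G f) (jS k G f G)) (yy (C G + X * C f)) * f1
  have := hGET k (YY G f) (Q T[X] g') (jS k G f G) (Phi G f φ σ hσ g' h) key
  rwa [Phi_comp] at this

end CUB


end

section

/-!
# CUB: anti-invariant cycles which are rationally equivalent to zero away from the ramification
-/

set_option autoImplicit false

open Polynomial

namespace CUB

namespace ST0B

/-- The involution is the identity modulo `2 y - 1`. -/
theorem sub_tau {k T : Type} [Field k] [CommRing T] [Algebra k T] (g : T) (x : Q T g) :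
    ∃ b : Q T g, x - tauH (k := k) g x = b * (2 * yy g - 1) := by
  obtain ⟨a, b, rfl⟩ := Q_span x
  refine ⟨algebraMap T (Q T g) b, ?_⟩
  have h : tauH (k := k) g (algebraMap T (Q T g) a + algebraMap T (Q T g) b * yy g) =
      algebraMap T (Q T g) a + algebraMap T (Q T g) b * (1 - yy g) := by
    change tau (k := k) g (algebraMap T (Q T g) a + algebraMap T (Q T g) b * yy g) = _
    rw [map_add, map_mul, tau_algebraMap, tau_algebraMap, tau_yy]
  rw [h]
  ring

/-- The involution fixes the primes which contain `2 y - 1`. -/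
theorem comap_tau {k T : Type} [Field k] [CommRing T] [Algebra k T] (g : T)
    (P : PrimeSpectrum (Q T g)) (hP : 2 * yy g - 1 ∈ P.asIdeal) :
    PrimeSpectrum.comap (tauH (k := k) g).toRingHom P = P := by
  refine PrimeSpectrum.ext ?_
  ext x
  have h1 : x ∈ (PrimeSpectrum.comap (tauH (k := k) g).toRingHom P).asIdeal ↔
      tauH (k := k) g x ∈ P.asIdeal := Iff.rfl
  rw [h1]
  obtain ⟨b, hb⟩ := sub_tau (k := k) g x
  have h2 : x - tauH (k := k) g x ∈ P.asIdeal := by
    rw [hb]
    exact P.asIdeal.mul_mem_left b hP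
  constructor
  · intro h
    have := P.asIdeal.add_mem h2 h
    rwa [sub_add_cancel] at this
  · intro h
    have := P.asIdeal.sub_mem h h2
    rwa [sub_sub_cancel] at this

/-- Cycles supported on `2 y = 1` are fixed. -/
theorem ptau_supp {k T E : Type} [Field k] [CommRing T] [Algebra k T] [Field E] (g : T) (n : ℕ)
    (κ : RP k (Q T g) n →₀ E) (h : SuppOn k E (Ideal.span {2 * yy g - 1}) κ) :
    ptau E g κ = κ := by
  have h1 : ptau E g κ = Finsupp.mapDomain (pushP (n := n) (tauH (k := k) g) (tauH_surjective g)) κ :=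
    rfl
  rw [h1]
  have h2 : Finsupp.mapDomain (pushP (n := n) (tauH (k := k) g) (tauH_surjective g)) κ =
      Finsupp.mapDomain id κ := by
    refine Finsupp.mapDomain_congr fun P hP => ?_
    have h3 : 2 * yy g - 1 ∈ P.1.asIdeal :=
      h P (Finsupp.mem_support_iff.1 hP) (Ideal.subset_span rfl)
    exact Subtype.ext (comap_tau g P.1 h3)
  rw [h2, Finsupp.mapDomain_id]

end ST0B

/-- Anti-invariant cycles which are rationally equivalent to zero away from `2 y = 1`. -/
theorem t_ST0B : M_ST0B := by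
  intro hLOC hPCO k T B E _ _ _ _ _ _ _ _ _ g w hw n c d hc hp hd
  obtain ⟨ρ, hρ, hs⟩ := (hLOC k (Q T g) B E w (2 * yy g - 1) hw n ⊥).1 c d hp
    (by rw [Ideal.map_bot]; exact hd)
  have h1 := ST0B.ptau_supp g n (c - ρ) hs
  rw [map_sub, hc] at h1
  have h2 : ptau E g ρ ∈ rat k (Q T g) E n := (hPCO.2.2.2 k T E g n ρ).2.2 hρ
  have h3 : (2 : E) • c = ρ - ptau E g ρ := by
    rw [two_smul]
    have h4 : ptau E g ρ = -c - (c - ρ) := by
      rw [← h1]
      abel
    rw [h4]
    abel
  have h5 : (2 : E) • c ∈ rat k (Q T g) E n := by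
    rw [h3]
    exact Submodule.sub_mem _ hρ h2
  have h6 := Submodule.smul_mem _ (2 : E)⁻¹ h5
  rwa [smul_smul, inv_mul_cancel₀ (two_ne_zero), one_smul] at h6

end CUB


end

section

/-!
# CUB, module DIM2: the dimension drops by one along a covering relation of primes
-/

set_option autoImplicit false

namespace CUB

namespace DIM2

open Cardinal

/-- The transcendence degree of a hypersurface is at least `n - 1`. -/
lemma le_trdeg {k : Type} [Field k] {n : ℕ} {F : MvPolynomial (Fin n) k} (hF : Prime F) :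
    (n : Cardinal) ≤ Algebra.trdeg k (MvPolynomial (Fin n) k ⧸ Ideal.span {F}) + 1 := by
  classical
  obtain ⟨j, hj⟩ : ∃ j, j ∈ F.vars := by
    by_contra hcon
    push Not at hcon
    have h1 : F.vars = ∅ := Finset.eq_empty_of_forall_notMem hcon
    rw [MvPolynomial.vars_eq_empty_iff_eq_C] at h1
    have h0 : F.coeff 0 ≠ 0 := by
      intro h
      apply hF.ne_zero
      rw [h1, h, map_zero]
    apply hF.not_unit
    rw [h1]
    exact (isUnit_iff_ne_zero.mpr h0).map MvPolynomial.C
  have hdj : 0 < F.degreeOf j := by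
    rw [MvPolynomial.degreeOf_def, Multiset.count_pos]
    rw [MvPolynomial.vars_def, Multiset.mem_toFinset] at hj
    exact hj
  have hind : AlgebraicIndependent k (fun i : {i : Fin n // i ≠ j} =>
      Ideal.Quotient.mk (Ideal.span {F}) (MvPolynomial.X i.1)) := by
    rw [algebraicIndependent_iff]
    intro G hG
    have h1 : MvPolynomial.aeval (fun i : {i : Fin n // i ≠ j} =>
        Ideal.Quotient.mk (Ideal.span {F}) (MvPolynomial.X i.1)) G =
        Ideal.Quotient.mk (Ideal.span {F}) (MvPolynomial.rename Subtype.val G) := by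
      have h2 : (MvPolynomial.aeval (fun i : {i : Fin n // i ≠ j} =>
          Ideal.Quotient.mk (Ideal.span {F}) (MvPolynomial.X i.1)) :
          MvPolynomial {i : Fin n // i ≠ j} k →ₐ[k] _) =
          (Ideal.Quotient.mkₐ k (Ideal.span {F})).comp (MvPolynomial.rename Subtype.val) := by
        apply MvPolynomial.algHom_ext
        intro i
        simp
      rw [h2]
      rfl
    rw [h1, Ideal.Quotient.eq_zero_iff_mem, Ideal.mem_span_singleton] at hG
    obtain ⟨H, hH⟩ := hG
    by_contra hG0
    have hG1 : MvPolynomial.rename (Subtype.val : {i : Fin n // i ≠ j} → Fin n) G ≠ 0 := by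
      intro h
      apply hG0
      exact MvPolynomial.rename_injective _ Subtype.val_injective (h.trans (map_zero _).symm)
    have hH0 : H ≠ 0 := by
      rintro rfl
      exact hG1 (hH.trans (mul_zero _))
    have h2 : (MvPolynomial.rename (Subtype.val : {i : Fin n // i ≠ j} → Fin n) G).degreeOf j
        = 0 := by
      rw [MvPolynomial.degreeOf_def, Multiset.count_eq_zero]
      intro hmem
      have h3 : j ∈ (MvPolynomial.rename (Subtype.val : {i : Fin n // i ≠ j} → Fin n) G).vars := by
        rw [MvPolynomial.vars_def, Multiset.mem_toFinset]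
        exact hmem
      have h4 := MvPolynomial.vars_rename _ _ h3
      rw [Finset.mem_image] at h4
      obtain ⟨a, -, ha⟩ := h4
      exact a.2 ha
    rw [hH, MvPolynomial.degreeOf_mul_eq hF.ne_zero hH0] at h2
    omega
  have h2 := hind.cardinalMk_le_trdeg
  have h3 : #{i : Fin n // i ≠ j} + 1 = n := by
    rw [Cardinal.mk_fintype, Fintype.card_subtype_compl, Fintype.card_fin,
      Fintype.card_subtype_eq]
    have : 0 < n := j.pos
    norm_cast
    omega
  rw [← h3]
  gcongr

/-- The main case: a prime of height one in a domain. -/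
lemma le_trdeg_quot {k A : Type} [Field k] [CommRing A] [IsDomain A] [Algebra k A]
    [Algebra.FiniteType k A] (q : Ideal A) [q.IsPrime] (hq : q ≠ ⊥)
    (hmin : ∀ P : Ideal A, P.IsPrime → P ≤ q → P ≠ ⊥ → P = q) :
    Algebra.trdeg k A ≤ Algebra.trdeg k (A ⧸ q) + 1 := by
  obtain ⟨n, g, hg, hgi⟩ := exists_integral_inj_algHom_of_fg k A
  letI : Algebra (MvPolynomial (Fin n) k) A := g.toRingHom.toAlgebra
  haveI : IsScalarTower k (MvPolynomial (Fin n) k) A :=
    IsScalarTower.of_algebraMap_eq' g.comp_algebraMap.symm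
  haveI : FaithfulSMul (MvPolynomial (Fin n) k) A :=
    (faithfulSMul_iff_algebraMap_injective _ _).mpr hg
  haveI : Algebra.IsIntegral (MvPolynomial (Fin n) k) A := ⟨hgi⟩
  have htr : Algebra.trdeg k A = n := by
    have h0 : Algebra.trdeg (MvPolynomial (Fin n) k) A = 0 := _root_.trdeg_eq_zero
    rw [← _root_.trdeg_add_eq k (MvPolynomial (Fin n) k) (A := A), h0,
      MvPolynomial.trdeg_of_isDomain]
    simp
  have hq' : q.under (MvPolynomial (Fin n) k) ≠ ⊥ := fun h =>
    hq (Ideal.eq_bot_of_comap_eq_bot h)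
  obtain ⟨F, hFq, hF⟩ := (inferInstance : (q.under (MvPolynomial (Fin n) k)).IsPrime)
    |>.exists_mem_prime_of_ne_bot hq'
  haveI hFp : (Ideal.span {F}).IsPrime := (Ideal.span_singleton_prime hF.ne_zero).mpr hF
  have hle : Ideal.span {F} ≤ q.under (MvPolynomial (Fin n) k) := by
    rw [Ideal.span_singleton_le_iff_mem]
    exact hFq
  obtain ⟨P, hPq, hP, hPo⟩ := Ideal.exists_ideal_le_liesOver_of_le
    (R := MvPolynomial (Fin n) k) (p := Ideal.span {F})
    (q := q.under (MvPolynomial (Fin n) k)) q hle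
  have hPq2 : P = q := by
    refine hmin P hP hPq ?_
    rintro rfl
    have h1 := hPo.over
    rw [Ideal.under, Ideal.comap_bot_of_injective _
      (FaithfulSMul.algebraMap_injective (MvPolynomial (Fin n) k) A),
      Ideal.span_singleton_eq_bot] at h1
    exact hF.ne_zero h1
  subst hPq2
  have h2 : Algebra.trdeg k (MvPolynomial (Fin n) k ⧸ Ideal.span {F}) =
      Algebra.trdeg k (A ⧸ P) := by
    have h0 : Algebra.trdeg (MvPolynomial (Fin n) k ⧸ Ideal.span {F}) (A ⧸ P) = 0 :=
      _root_.trdeg_eq_zero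
    rw [← _root_.trdeg_add_eq k (MvPolynomial (Fin n) k ⧸ Ideal.span {F}) (A := A ⧸ P), h0,
      add_zero]
  rw [htr, ← h2]
  exact le_trdeg hF

end DIM2

/-- DIM2. -/
theorem t_DIM2 : S_DIM2 := by
  intro k A _ _ _ _ p q hpq
  refine le_antisymm (rdim_add_one_le hpq.lt) ?_
  have hle : p.asIdeal ≤ q.asIdeal := hpq.le
  have hker : RingHom.ker (Ideal.Quotient.mk p.asIdeal) ≤ q.asIdeal := by
    rw [Ideal.mk_ker]
    exact hle
  haveI : (q.asIdeal.map (Ideal.Quotient.mk p.asIdeal)).IsPrime :=
    Ideal.map_isPrime_of_surjective Ideal.Quotient.mk_surjective hker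
  have hcm : (q.asIdeal.map (Ideal.Quotient.mk p.asIdeal)).comap (Ideal.Quotient.mk p.asIdeal) =
      q.asIdeal := by
    rw [Ideal.comap_map_of_surjective' _ Ideal.Quotient.mk_surjective, sup_eq_left]
    exact hker
  have h1 : Algebra.trdeg k ((A ⧸ p.asIdeal) ⧸ q.asIdeal.map (Ideal.Quotient.mk p.asIdeal)) =
      rdim k q :=
    AlgEquiv.trdeg_eq (DoubleQuot.quotQuotEquivQuotOfLEₐ k hle)
  unfold rdim at h1 ⊢
  rw [← h1]
  refine DIM2.le_trdeg_quot _ ?_ ?_
  · intro h
    rw [h, ← RingHom.ker_eq_comap_bot, Ideal.mk_ker] at hcm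
    exact hpq.lt.ne (PrimeSpectrum.ext hcm)
  · intro P hP hPq hPb
    have h2 : p < ⟨P.comap (Ideal.Quotient.mk p.asIdeal), inferInstance⟩ := by
      rw [lt_iff_le_and_ne]
      refine ⟨?_, fun h => ?_⟩
      · change p.asIdeal ≤ P.comap (Ideal.Quotient.mk p.asIdeal)
        intro x hx
        rw [Ideal.mem_comap, Ideal.Quotient.eq_zero_iff_mem.mpr hx]
        exact P.zero_mem
      · have h3 : p.asIdeal = P.comap (Ideal.Quotient.mk p.asIdeal) := congrArg (·.asIdeal) h
        apply hPb
        have h4 := Ideal.map_comap_of_surjective (Ideal.Quotient.mk p.asIdeal)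
          Ideal.Quotient.mk_surjective P
        rw [← h4, ← h3, Ideal.map_quotient_self]
    have h5 : (⟨P.comap (Ideal.Quotient.mk p.asIdeal), inferInstance⟩ : PrimeSpectrum A) ≤ q := by
      change P.comap (Ideal.Quotient.mk p.asIdeal) ≤ q.asIdeal
      rw [← hcm]
      exact Ideal.comap_mono hPq
    have h6 := (hpq.eq_or_eq h2.le h5).resolve_left h2.ne'
    have h7 : P.comap (Ideal.Quotient.mk p.asIdeal) = q.asIdeal := congrArg (·.asIdeal) h6
    rw [← h7, Ideal.map_comap_of_surjective _ Ideal.Quotient.mk_surjective]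

end CUB


end

section

/-!
# QCV, module DHM: a nonzero form is not zero on the chart `x_0 = 1`
-/

set_option autoImplicit false

namespace QCV

namespace M_DHM

open MvPolynomial

theorem lsp_monomial {R : Type} [CommRing R] {n : ℕ} (d : Fin (n + 1) →₀ ℕ) (a : R) :
    lsp (1 : R) (monomial d a) = monomial (Finsupp.tail d) a := by
  unfold lsp
  rw [aeval_monomial, Finsupp.prod_fintype _ _ (by simp), Fin.prod_univ_succ]
  simp only [Fin.cons_zero, map_one, one_pow, one_mul, Fin.cons_succ]
  rw [monomial_eq (s := Finsupp.tail d), Finsupp.prod_fintype _ _ (by simp)]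
  rfl

theorem degree_tail {n : ℕ} (d : Fin (n + 1) →₀ ℕ) :
    d.degree = d 0 + (Finsupp.tail d).degree := by
  rw [Finsupp.degree_eq_sum, Finsupp.degree_eq_sum, Fin.sum_univ_succ]
  rfl

theorem tail_inj {n m : ℕ} {d e : Fin (n + 1) →₀ ℕ} (hd : d.degree = m) (he : e.degree = m)
    (h : Finsupp.tail d = Finsupp.tail e) : d = e := by
  have h0 : d 0 = e 0 := by
    have h1 := degree_tail d
    have h2 := degree_tail e
    rw [h] at h1
    omega
  rw [← Finsupp.cons_tail d, ← Finsupp.cons_tail e, h, h0]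

end M_DHM

open MvPolynomial in
theorem t_DHM : S_DHM := by
  intro R _ n m f hf h0
  have key : ∀ d ∈ f.support, coeff d f = 0 := by
    intro d hd
    have hdm : d.degree = m := by
      have := hf (mem_support_iff.1 hd)
      rw [← this]
      exact DFunLike.congr_fun (Finsupp.degree_eq_weight_one (R := ℕ)) d
    have h1 : coeff (Finsupp.tail d) (lsp (1 : R) f) = coeff d f := by
      conv_lhs => rw [f.as_sum]
      rw [map_sum, coeff_sum, Finset.sum_eq_single d]
      · rw [M_DHM.lsp_monomial, coeff_monomial, if_pos rfl]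
      · intro e he hne
        rw [M_DHM.lsp_monomial, coeff_monomial, if_neg]
        intro hte
        apply hne
        have hem : e.degree = m := by
          have := hf (mem_support_iff.1 he)
          rw [← this]
          exact DFunLike.congr_fun (Finsupp.degree_eq_weight_one (R := ℕ)) e
        exact M_DHM.tail_inj hem hdm hte
      · intro h
        exact absurd hd h
    rw [← h1, h0, coeff_zero]
  by_contra hne
  obtain ⟨d, hd⟩ := Finset.nonempty_of_ne_empty (fun h => hne (support_eq_empty.1 h))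
  exact (mem_support_iff.1 hd) (key d hd)

end QCV


end

section

set_option autoImplicit false

open Polynomial TensorProduct

namespace QCV

attribute [local instance] MvPolynomial.algebraMvPolynomial

theorem dbc_main (k K : Type) [Field k] [PerfectField k] [Field K] [Algebra k K]
    [Module.Finite k K] (n : ℕ) (I : Ideal (MvPolynomial (Fin n) k))
    (J : Ideal (MvPolynomial (Fin n) K))
    (hJ : J = I.map (algebraMap (MvPolynomial (Fin n) k) (MvPolynomial (Fin n) K))) :
    ∃ (_ : Algebra (MvPolynomial (Fin n) k ⧸ I) (MvPolynomial (Fin n) K ⧸ J)),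
      IsScalarTower k (MvPolynomial (Fin n) k ⧸ I) (MvPolynomial (Fin n) K ⧸ J) ∧
      Module.Finite (MvPolynomial (Fin n) k ⧸ I) (MvPolynomial (Fin n) K ⧸ J) ∧
      Algebra.Etale (MvPolynomial (Fin n) k ⧸ I) (MvPolynomial (Fin n) K ⧸ J) ∧
      Function.Injective (algebraMap (MvPolynomial (Fin n) k ⧸ I)
        (MvPolynomial (Fin n) K ⧸ J)) := by
  subst hJ
  have e1 := Algebra.IsPushout.equiv k (MvPolynomial (Fin n) k) K (MvPolynomial (Fin n) K)
  have e2 := Algebra.TensorProduct.quotIdealMapEquivQuotTensor (MvPolynomial (Fin n) K) I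
  have hsep : Algebra.IsSeparable k K := inferInstance
  have : Algebra.FormallyEtale k K := Algebra.FormallyEtale.of_isSeparable k K
  have : Algebra.FinitePresentation k K :=
    Algebra.FinitePresentation.of_finiteType.mp inferInstance
  have : Algebra.Etale k K :=
    { formallyEtale := inferInstance, finitePresentation := inferInstance }
  have het : Algebra.Etale (MvPolynomial (Fin n) k) (MvPolynomial (Fin n) K) :=
    Algebra.Etale.of_equiv e1
  have hfin : Module.Finite (MvPolynomial (Fin n) k) (MvPolynomial (Fin n) K) :=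
    Module.Finite.equiv e1.toLinearEquiv
  have hfree : Module.Free (MvPolynomial (Fin n) k) (MvPolynomial (Fin n) K) :=
    Module.Free.of_equiv e1.toLinearEquiv
  refine ⟨Ideal.Quotient.algebraQuotientMapQuotient, ?_, ?_, ?_, ?_⟩
  · refine ⟨fun a x y => ?_⟩
    obtain ⟨r, rfl⟩ := Ideal.Quotient.mk_surjective x
    obtain ⟨s, rfl⟩ := Ideal.Quotient.mk_surjective y
    have h1 : algebraMap (MvPolynomial (Fin n) k) (MvPolynomial (Fin n) K) (a • r) * s =
        a • (algebraMap (MvPolynomial (Fin n) k) (MvPolynomial (Fin n) K) r * s) := by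
      rw [← Algebra.smul_def, ← Algebra.smul_def, smul_assoc]
    exact congrArg (Ideal.Quotient.mk _) h1
  · exact Module.Finite.equiv e2.symm.toLinearEquiv
  · have h1 : Algebra.Etale (MvPolynomial (Fin n) k ⧸ I)
        ((MvPolynomial (Fin n) k ⧸ I) ⊗[MvPolynomial (Fin n) k] MvPolynomial (Fin n) K) :=
      inferInstance
    exact Algebra.Etale.of_equiv (R := MvPolynomial (Fin n) k ⧸ I)
      (A := (MvPolynomial (Fin n) k ⧸ I) ⊗[MvPolynomial (Fin n) k] MvPolynomial (Fin n) K) e2.symm
  · rw [injective_iff_map_eq_zero]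
    intro a ha
    obtain ⟨r, rfl⟩ := Ideal.Quotient.mk_surjective a
    rw [Ideal.Quotient.algebraMap_quotient_map_quotient, Ideal.Quotient.eq_zero_iff_mem,
      ← Ideal.mem_comap, Ideal.comap_map_eq_self_of_faithfullyFlat] at ha
    exact Ideal.Quotient.eq_zero_iff_mem.mpr ha

theorem t_DBC : S_DBC := by
  intro k K _ _ _ _ _ n F
  refine dbc_main k K n _ _ ?_
  rw [Ideal.map_span, ← Set.range_comp]
  rfl

end QCV


end
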