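import Mathlib
import Pool.Agent.QVM.C05
import Pool.Agent.QVM.C08
import Pool.Agent.QVM.C11
import Pool.Agent.QVM.C12
import Pool.Agent.QVM.C13
import Pool.Agent.QVM.C14
import Pool.Agent.QVM.C15
import Pool.Agent.QVM.C16
import Pool.Agent.QVM.C17
import Pool.Agent.QVM.C18
import Pool.Agent.QVM.C19
import Pool.Agent.QVM.C20
import Pool.Agent.QVM.C22
import Pool.Agent.QVM.C23
import Pool.Agent.QVM.C24
import Pool.Agent.QVM.C25
import Pool.Agent.QVM.C26
import Pool.Agent.QVM.C27
import Pool.Agent.QVM.C28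

/-! Parts: CUB2.G_PRO, CUB2.H_PUSHR, LOWD.CB, LOWD.CNT, LOWD.NICE, LOWD.STP, LOWD.ZER, LOWD.Asm, QCV.R_DLR -/

section

/-!
# CUB2: module PRO
-/

set_option autoImplicit false

open CategoryTheory AlgebraicGeometry Limits Polynomial TopologicalSpace

namespace CUB

open Pool.Agent.Lib_helper55.Beil Pool.Agent.Lib_helper66.OneP

namespace PRO

/-! ### The affine line is geometrically integral -/

section line

variable (k : Type) [Field k]

/-- The structure morphism of the affine line. -/
noncomputable abbrev lineMap : Spec (CommRingCat.of k[X]) ⟶ Spec (CommRingCat.of k) :=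
  Spec.map (CommRingCat.ofHom (algebraMap k k[X]))

/-- The comparison with the affine space of Mathlib. -/
noncomputable def lineIso : Spec (CommRingCat.of k[X]) ≅ 𝔸(PUnit.{1}; Spec (CommRingCat.of k)) :=
  Scheme.Spec.mapIso
    ((MvPolynomial.uniqueAlgEquiv k PUnit.{1}).toRingEquiv.toCommRingCatIso).op ≪≫
    (AffineSpace.SpecIso PUnit.{1} (CommRingCat.of k)).symm

lemma lineIso_comp :
    (lineIso k).hom ≫ (𝔸(PUnit.{1}; Spec (CommRingCat.of k)) ↘ Spec (CommRingCat.of k)) =
      lineMap k := by
  rw [lineIso, Iso.trans_hom, Category.assoc, Iso.symm_hom, AffineSpace.SpecIso_inv_over]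
  change Spec.map _ ≫ Spec.map _ = Spec.map _
  rw [← Spec.map_comp]
  congr 1
  ext x
  simp

lemma lineSq : IsPullback (lineIso k).hom (lineMap k)
    (𝔸(PUnit.{1}; Spec (CommRingCat.of k)) ↘ Spec (CommRingCat.of k)) (𝟙 _) :=
  IsPullback.of_horiz_isIso ⟨by rw [lineIso_comp, Category.comp_id]⟩

instance geomIntegral_line : GeometricallyIntegral (lineMap k) :=
  MorphismProperty.of_isPullback (P := @GeometricallyIntegral) (lineSq k) inferInstance

instance flat_line : Flat (lineMap k) := by
  rw [HasRingHomProperty.Spec_iff (P := @Flat)]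
  change (algebraMap k k[X]).Flat
  rw [RingHom.flat_algebraMap_iff]
  infer_instance

instance lfp_line : LocallyOfFinitePresentation (lineMap k) :=
  MorphismProperty.of_isPullback (P := @LocallyOfFinitePresentation) (lineSq k) inferInstance

end line

variable {k : Type} [Field k]

/-- A product with the affine line is integral. -/
lemma line_integral {Y X : Var k} (L : Line Y X) [IsIntegral X.X] : IsIntegral Y.X := by
  have h1 : GeometricallyIntegral L.q :=
    MorphismProperty.of_isPullback L.prod.flip (geomIntegral_line k)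
  have h2 : Flat L.q := MorphismProperty.of_isPullback L.prod.flip (flat_line k)
  have h3 : LocallyOfFinitePresentation L.q :=
    MorphismProperty.of_isPullback L.prod.flip (lfp_line k)
  exact GeometricallyIntegral.isIntegral_of_isLocallyNoetherian L.q

/-! ### Products -/

/-- The first projection. -/
noncomputable def pfst (X P : Var k) : (X.prod P).X ⟶ X.X := pullback.fst X.f P.f

/-- The second projection. -/
noncomputable def psnd (X P : Var k) : (X.prod P).X ⟶ P.X := pullback.snd X.f P.f

lemma pfst_comp (X P : Var k) : pfst X P ≫ X.f = (X.prod P).f := rfl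

lemma psnd_comp (X P : Var k) : psnd X P ≫ P.f = (X.prod P).f := pullback.condition.symm

lemma prod_isPullback (X P : Var k) : IsPullback (pfst X P) (psnd X P) X.f P.f :=
  IsPullback.of_hasPullback _ _

lemma range_of_isPullback {A B C D : Scheme.{0}} {f : A ⟶ B} {g : A ⟶ C} {h : B ⟶ D} {i : C ⟶ D}
    (H : IsPullback f g h i) : Set.range f = h ⁻¹' (Set.range i) := by
  have h1 : Set.range (pullback.fst h i) = h ⁻¹' (Set.range i) := Scheme.Pullback.range_fst _ _
  rw [← h1, ← H.isoPullback_hom_fst]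
  ext z
  constructor
  · rintro ⟨a, rfl⟩
    exact ⟨H.isoPullback.hom a, rfl⟩
  · rintro ⟨b, rfl⟩
    refine ⟨H.isoPullback.inv b, ?_⟩
    change (H.isoPullback.inv ≫ H.isoPullback.hom ≫ pullback.fst h i) b = _
    rw [Iso.inv_hom_id_assoc]

section prod

variable (X : Var k) {U P : Var k} (j : OpenIn U P)

/-- The product of `X` with an open subvariety. -/
noncomputable def pmap : (X.prod U).X ⟶ (X.prod P).X :=
  (prod_isPullback X P).lift (pfst X U) (psnd X U ≫ j.g)
    (by rw [Category.assoc, j.comm, psnd_comp, pfst_comp])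

lemma pmap_fst : pmap X j ≫ pfst X P = pfst X U :=
  (prod_isPullback X P).lift_fst _ _ _

lemma pmap_snd : pmap X j ≫ psnd X P = psnd X U ≫ j.g :=
  (prod_isPullback X P).lift_snd _ _ _

lemma pmap_isPullback : IsPullback (psnd X U) (pmap X j) j.g (psnd X P) := by
  have h2 : IsPullback (psnd X U) (pmap X j ≫ pfst X P) (j.g ≫ P.f) X.f := by
    rw [pmap_fst, j.comm]
    exact (prod_isPullback X U).flip
  exact IsPullback.of_bot h2 (pmap_snd X j).symm (prod_isPullback X P).flip

/-- The product of `X` with an open subvariety, as an open subvariety. -/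
noncomputable def prodOpen : OpenIn (X.prod U) (X.prod P) where
  g := pmap X j
  comm := by rw [← pfst_comp, ← Category.assoc, pmap_fst, pfst_comp]
  isOpen := MorphismProperty.of_isPullback (P := @IsOpenImmersion) (pmap_isPullback X j) j.isOpen

lemma range_prodOpen : Set.range (prodOpen X j).g = psnd X P ⁻¹' (Set.range j.g) :=
  range_of_isPullback (pmap_isPullback X j).flip

end prod

/-- The structure morphism of `X`, with target `Spec k`. -/
noncomputable def str (X : Var k) : X.X ⟶ (aff k k).X := X.f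

lemma aff_f : (aff k k).f = 𝟙 (Spec (CommRingCat.of k)) := Spec.map_id _

lemma str_comp (X : Var k) : str X ≫ (aff k k).f = X.f := by
  rw [aff_f]
  exact Category.comp_id X.f

section sect

variable (X : Var k) {P : Var k} (s : ClosedIn (aff k k) P)

/-- The section at infinity. -/
noncomputable def sect : X.X ⟶ (X.prod P).X :=
  (prod_isPullback X P).lift (𝟙 _) (str X ≫ s.g) (by
    rw [Category.id_comp, Category.assoc, s.comm, str_comp])

lemma sect_fst : sect X s ≫ pfst X P = 𝟙 _ := (prod_isPullback X P).lift_fst _ _ _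

lemma sect_snd : sect X s ≫ psnd X P = str X ≫ s.g := (prod_isPullback X P).lift_snd _ _ _

lemma sect_isPullback : IsPullback (str X) (sect X s) s.g (psnd X P) := by
  have h2 : IsPullback (str X) (sect X s ≫ pfst X P) (s.g ≫ P.f) X.f := by
    rw [sect_fst, s.comm]
    have h3 : IsIso (aff k k).f := by
      rw [aff_f]
      exact inferInstanceAs (IsIso (𝟙 (Spec (CommRingCat.of k))))
    exact IsPullback.of_vert_isIso ⟨by rw [Category.id_comp, str_comp]⟩
  exact IsPullback.of_bot h2 (sect_snd X s).symm (prod_isPullback X P).flip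

/-- The section at infinity, as a closed subvariety. -/
noncomputable def sectIn : ClosedIn X (X.prod P) where
  g := sect X s
  comm := by rw [← pfst_comp, ← Category.assoc, sect_fst, Category.id_comp]
  closed := MorphismProperty.of_isPullback (P := @IsClosedImmersion) (sect_isPullback X s) s.closed

lemma range_sectIn : Set.range (sectIn X s).g = psnd X P ⁻¹' (Set.range s.g) :=
  range_of_isPullback (sect_isPullback X s).flip

end sect

/-! ### The bundle -/

/-- The product of `X` with the affine line. -/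
noncomputable def lineProd (X : Var k) : Line (X.prod (aff k k[X])) X where
  q := pfst _ _
  t := psnd _ _
  comm := rfl
  prod := prod_isPullback _ _

lemma exists_pbun (H : PLine k) (hH : ∃ s : ClosedIn (aff k k) H.P, Complementary s H.j₀)
    (X : Var k) : ∃ B : PBun (X.prod H.P) X, B.p.g = pullback.fst X.f H.P.f := by
  obtain ⟨s, hs⟩ := hH
  have hP := H.proper
  have hp : IsProper (pfst X H.P) :=
    MorphismProperty.of_isPullback (P := @IsProper) (prod_isPullback X H.P).flip hP
  refine ⟨{
    p := ⟨pfst X H.P, rfl, hp⟩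
    U := X.prod (aff k k[X])
    j := prodOpen X H.j₀
    L := lineProd X
    hL := pmap_fst X H.j₀
    s := sectIn X s
    hs := sect_fst X s
    hc := ?_ }, rfl⟩
  unfold Complementary at hs ⊢
  rw [range_prodOpen, range_sectIn, hs, Set.preimage_compl]

/-! ### Integrality -/

lemma irreducible_of_two {Z : Type*} [TopologicalSpace Z] {A B : Set Z} (hA : IsOpen A)
    (hAi : IsIrreducible A) (hBi : IsIrreducible B) (hAB : (A ∩ B).Nonempty)
    (hU : A ∪ B = Set.univ) : IrreducibleSpace Z := by
  have key : ∀ u : Set Z, IsOpen u → u.Nonempty → (A ∩ u).Nonempty := by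
    rintro u hu ⟨z, hz⟩
    have hz2 : z ∈ A ∪ B := by rw [hU]; trivial
    rcases hz2 with h | h
    · exact ⟨z, h, hz⟩
    · obtain ⟨y, hy⟩ := hBi.2 A u hA hu (by rwa [Set.inter_comm]) ⟨z, h, hz⟩
      exact ⟨y, hy.2.1, hy.2.2⟩
  have : PreirreducibleSpace Z := ⟨by
    intro u v hu hv h1 h2
    rw [Set.univ_inter] at h1 h2 ⊢
    obtain ⟨y, hy⟩ := hAi.2 u v hu hv (key u hu h1) (key v hv h2)
    exact ⟨y, hy.2⟩⟩
  obtain ⟨y, hy⟩ := hAB
  exact ⟨⟨y⟩⟩

lemma integral_of_two {U₀ U₁ Z : Scheme.{0}} (j₀ : U₀ ⟶ Z) (j₁ : U₁ ⟶ Z) [IsOpenImmersion j₀]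
    [IsOpenImmersion j₁] [IsIntegral U₀] [IsIntegral U₁]
    (hAB : (Set.range j₀ ∩ Set.range j₁).Nonempty)
    (hU : Set.range j₀ ∪ Set.range j₁ = Set.univ) : IsIntegral Z := by
  have h1 : ∀ {U : Scheme.{0}} (j : U ⟶ Z) [IsOpenImmersion j] [IsIntegral U],
      IsIrreducible (Set.range j) := by
    intro U j _ _
    rw [← Set.image_univ]
    exact (IrreducibleSpace.isIrreducible_univ U).image _ j.continuous.continuousOn
  have h2 : IrreducibleSpace Z := irreducible_of_two j₀.isOpenEmbedding.isOpen_range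
    (h1 j₀) (h1 j₁) hAB hU
  have h3 : ∀ {U : Scheme.{0}} (j : U ⟶ Z) [IsOpenImmersion j] [IsIntegral U] (u : U),
      _root_.IsReduced (Z.presheaf.stalk (j u)) := by
    intro U j _ _ u
    exact isReduced_of_injective (j.stalkMap u).hom
      (ConcreteCategory.bijective_of_isIso (j.stalkMap u)).1
  have h4 : ∀ z : Z, _root_.IsReduced (Z.presheaf.stalk z) := by
    intro z
    have hz : z ∈ Set.range j₀ ∪ Set.range j₁ := by rw [hU]; trivial
    rcases hz with ⟨u, rfl⟩ | ⟨u, rfl⟩
    · exact h3 j₀ u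
    · exact h3 j₁ u
  have h5 : IsReduced Z := isReduced_of_isReduced_stalk Z
  exact isIntegral_of_irreducibleSpace_of_isReduced Z

lemma overlap (H : PLine k) : (Set.range H.j₀.g ∩ Set.range H.j₁.g).Nonempty := by
  have hne : Nonempty (Spec (CommRingCat.of (LaurentPolynomial k))) := by
    have : Nontrivial (LaurentPolynomial k) := inferInstance
    exact (inferInstance : Nonempty (PrimeSpectrum (LaurentPolynomial k)))
  obtain ⟨z⟩ := hne
  refine ⟨H.j₀.g (Spec.map (CommRingCat.ofHom gm₀) z), ⟨_, rfl⟩,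
    ⟨Spec.map (CommRingCat.ofHom gm₁) z, ?_⟩⟩
  have h := H.glue.w
  exact (congrArg (fun g : Spec (CommRingCat.of (LaurentPolynomial k)) ⟶ H.P.X => g z) h).symm

lemma prod_integral (H : PLine k) (X : Var k) [IsIntegral X.X] : IsIntegral (X.prod H.P).X := by
  have h0 : IsIntegral (X.prod (aff k k[X])).X := line_integral (lineProd X)
  have i0 := (prodOpen X H.j₀).isOpen
  have i1 := (prodOpen X H.j₁).isOpen
  apply integral_of_two (prodOpen X H.j₀).g (prodOpen X H.j₁).g
  · obtain ⟨y, hy0, hy1⟩ := overlap H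
    have x : X.X := genericPoint X.X
    have hsub : Subsingleton (Spec (CommRingCat.of k)) :=
      inferInstanceAs (Subsingleton (PrimeSpectrum k))
    obtain ⟨z, hz'⟩ : ∃ z : (X.prod H.P).X, psnd X H.P z = y := by
      obtain ⟨z, -, hz⟩ := Scheme.Pullback.exists_preimage_pullback (f := X.f) (g := H.P.f) x y
        (Subsingleton.elim _ _)
      exact ⟨z, hz⟩
    refine ⟨z, ?_, ?_⟩
    · rw [range_prodOpen, Set.mem_preimage, hz']
      exact hy0
    · rw [range_prodOpen, Set.mem_preimage, hz']
      exact hy1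
  · rw [range_prodOpen, range_prodOpen, ← Set.preimage_union, H.cover, Set.preimage_univ]

end PRO

theorem t_PRO : M_PRO := by
  intro hP
  refine ⟨?_, ?_, ?_⟩
  · intro k _ H X
    exact PRO.exists_pbun H (hP k H).2 X
  · intro k _ Y X L hX
    exact PRO.line_integral L
  · intro k _ H X hX
    exact PRO.prod_integral H X

end CUB


end

section

/-!
# CUB2, module PUSHR: push-forward preserves rational equivalence
-/

set_option autoImplicit false

open CategoryTheory AlgebraicGeometry Limits Polynomial TopologicalSpace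

namespace CUB

open Pool.Agent.Lib_helper55.Beil Pool.Agent.Lib_helper66.OneP

universe v

namespace PUSHR

variable {k : Type} [Field k] {E : Type} [Field E] {i : ℕ}

theorem isDiv_push {W X : Var k} (a : ClosedIn W X) [IsIntegral W.X] (φ : W.X.functionField)
    (d : Pts i W →₀ E) (hd : IsDiv (idIn W) φ d) : IsDiv a φ (pushCyc a d) := by
  constructor
  · intro w h
    have hw : W.dim w = i := by
      have := a.closed
      rw [← dim_map a.g a.comm]
      exact h
    have h5 : Finsupp.mapDomain (ptsMap i a) d (ptsMap i a (Subtype.mk w hw : Pts i W)) =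
        d (Subtype.mk w hw : Pts i W) :=
      Finsupp.mapDomain_apply (ptsMap_injective i a) _ _
    refine h5.trans ?_
    exact hd.1 w hw
  · intro x hx
    have hx2 : x ∉ Set.range (ptsMap i a) := by
      rintro ⟨z, rfl⟩
      exact hx ⟨z.1, rfl⟩
    exact Finsupp.mapDomain_of_notMem_range _ _ hx2

theorem isDiv_eq {W X : Var k} (a : ClosedIn W X) [IsIntegral W.X] (φ : W.X.functionField)
    (hφ : φ ≠ 0) (hdim : W.dim (genericPoint W.X) = (i + 1 : ℕ)) (c : Pts i X →₀ E)
    (hc : IsDiv a φ c) : ∃ d ∈ ratZero E i W, pushCyc a d = c := by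
  obtain ⟨d, hd⟩ := exists_div (E := E) (i := i) (idIn W) φ hφ
  exact ⟨d, Submodule.subset_span ⟨W, inferInstance, idIn W, φ, hdim, hφ, hd⟩,
    isDiv_unique a φ _ _ (isDiv_push a φ d hd) hc⟩

/-- the closure of the image of `W` in `Y` -/
noncomputable def cl {W Y : Var k} (f : W.X ⟶ Y.X) : Closeds Y.X :=
  Closeds.closure (Set.range f)

theorem mem_cl {W Y : Var k} (f : W.X ⟶ Y.X) (w : W.X) : f w ∈ cl f :=
  subset_closure ⟨w, rfl⟩

theorem cl_spec {W Y : Var k} [IsIntegral W.X] (f : W.X ⟶ Y.X) (y : Y.X) (hy : y ∈ cl f) :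
    f (genericPoint W.X) ⤳ y := by
  rw [specializes_iff_mem_closure]
  have h1 : closure (Set.range f) ⊆ closure {f (genericPoint W.X)} := by
    apply closure_minimal _ isClosed_closure
    rintro _ ⟨w, rfl⟩
    rw [← specializes_iff_mem_closure]
    exact (genericPoint_specializes w).map f.continuous
  exact h1 hy

end PUSHR

theorem t_PUSHR : M_PUSHR.{v} := by
  rintro ⟨P1, P2, P3, P4, -, -⟩ k E _ _ T hT i X Y f hinj c hc
  induction hc using Submodule.span_induction with
  | mem c hc =>
    obtain ⟨W, hW, a, φ, h1, h2, h3⟩ := hc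
    obtain ⟨d, hd, rfl⟩ := PUSHR.isDiv_eq a φ h2 h1 c h3
    have hcomm : (a.g ≫ f.g) ≫ Y.f = W.f := by rw [Category.assoc, f.comm, a.comm]
    have hlift := liftC_comp (a.g ≫ f.g) (PUSHR.cl (a.g ≫ f.g)) (PUSHR.mem_cl (a.g ≫ f.g))
    have hb := (closedVarIn Y (PUSHR.cl (a.g ≫ f.g))).closed
    have hprop : IsProper (liftC (a.g ≫ f.g) (PUSHR.cl (a.g ≫ f.g))
        (PUSHR.mem_cl (a.g ≫ f.g))) := by
      have h4 : IsProper (liftC (a.g ≫ f.g) (PUSHR.cl (a.g ≫ f.g))
          (PUSHR.mem_cl (a.g ≫ f.g)) ≫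
            (Scheme.IdealSheafData.vanishingIdeal (PUSHR.cl (a.g ≫ f.g))).subschemeι) := by
        rw [hlift]
        infer_instance
      exact IsProper.of_comp _
        (Scheme.IdealSheafData.vanishingIdeal (PUSHR.cl (a.g ≫ f.g))).subschemeι
    let h : PrMor W (closedVar Y (PUSHR.cl (a.g ≫ f.g))) :=
      { g := liftC (a.g ≫ f.g) (PUSHR.cl (a.g ≫ f.g)) (PUSHR.mem_cl (a.g ≫ f.g))
        comm := by
          change liftC (a.g ≫ f.g) _ _ ≫ Scheme.IdealSheafData.subschemeι _ ≫ Y.f = W.f
          rw [← Category.assoc, hlift, hcomm]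
        proper := hprop }
    have hV : (closedVar Y (PUSHR.cl (a.g ≫ f.g))).DimLE (i + 1) := by
      intro y
      have h5 : (closedVarIn Y (PUSHR.cl (a.g ≫ f.g))).g y ∈ PUSHR.cl (a.g ≫ f.g) := by
        have h6 : (closedVarIn Y (PUSHR.cl (a.g ≫ f.g))).g y ∈
            Set.range (closedVarIn Y (PUSHR.cl (a.g ≫ f.g))).g := ⟨y, rfl⟩
        rw [range_closedVarIn] at h6
        exact h6
      have h7 := dim_le_of_specializes Y (PUSHR.cl_spec (a.g ≫ f.g) _ h5)
      have h8 := P1 k W Y (a.g ≫ f.g) hcomm (genericPoint W.X)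
      rw [← dim_map (closedVarIn Y (PUSHR.cl (a.g ≫ f.g))).g
        (closedVarIn Y (PUSHR.cl (a.g ≫ f.g))).comm]
      refine (h7.trans h8).trans ?_
      rw [h1]
    have hcls : clz (T i) W d = 0 := (T i).cl_rat W d hd
    have h9 : clz (T i) _ (pfc E i h d) = 0 := by
      rw [P4 k E T hT i _ _ h d, hcls]
      exact map_zero (hT.pf i (2 * i) h)
    have h10 : pfc E i h d ∈ ratZero E i _ := hinj _ hV _ h9
    have h11 := pushCyc_ratZero (closedVarIn Y (PUSHR.cl (a.g ≫ f.g))) _ h10
    have e1 : pfc E i (clPr a) d = pushCyc a d := P3 k E i _ _ a (clPr a) rfl d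
    have e2 : pfc E i f (pushCyc a d) = pfc E i ((clPr a).trans f) d := by
      rw [← e1]
      exact P2 k E i _ _ _ (clPr a) f ((clPr a).trans f) rfl d
    have e3 := P3 k E i _ _ (closedVarIn Y (PUSHR.cl (a.g ≫ f.g)))
      (clPr (closedVarIn Y (PUSHR.cl (a.g ≫ f.g)))) rfl (pfc E i h d)
    have e4 := P2 k E i _ _ _ h (clPr (closedVarIn Y (PUSHR.cl (a.g ≫ f.g))))
      ((clPr a).trans f) hlift d
    rw [e2, ← e4, e3]
    exact h11
  | zero =>
    rw [map_zero]
    exact zero_mem _
  | add x y _ _ hx hy =>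
    rw [map_add]
    exact add_mem hx hy
  | smul r x _ hx =>
    rw [map_smul]
    exact Submodule.smul_mem _ _ hx

end CUB


end

section

/-!
# Cycles on the chart of lines (module CB)
-/

set_option autoImplicit false

open Polynomial

namespace LOWD

open CUB

namespace CB

lemma ft_X (k R : Type) [Field k] [CommRing R] [Algebra k R] [Algebra.FiniteType k R] :
    Algebra.FiniteType k R[X] :=
  Algebra.FiniteType.trans (S := R) inferInstance inferInstance

/-- The numerical condition for the equations with the coefficients. -/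
lemma count (hCNT : S_CNT) (l : ℕ) {σ ι : Type} [Fintype σ] [Fintype ι] (d : ι → ℕ) (a : σ)
    [Fintype {j : σ // j ≠ a}] (h : l + 1 + ∑ i, cnt (l + 1) (d i) < Fintype.card σ) :
    l + ∑ ie : (Σ i, Fin (d i + 1)), cnt l (d ie.1 - ie.2) < Fintype.card {j : σ // j ≠ a} := by
  have h1 : ∑ ie : (Σ i, Fin (d i + 1)), cnt l (d ie.1 - ie.2) = ∑ i, cnt (l + 1) (d i) := by
    rw [Fintype.sum_sigma]
    exact Finset.sum_congr rfl fun i _ => hCNT.1 l (d i)
  have h2 : Fintype.card {j : σ // j ≠ a} = Fintype.card σ - 1 := by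
    classical
    rw [Fintype.card_congr (Equiv.refl _), Fintype.card_subtype_compl, Fintype.card_subtype_eq]
  rw [h1, h2]
  omega

/-- Cycles on a polynomial ring are trivial if the cycles on the base are. -/
lemma line (hL0 : S_L0) (hGX : S_GX) (hFP : S_FP) (k A E : Type) [Field k] [CommRing A]
    [Algebra k A] [Algebra.FiniteType k A] [Field E] (l : ℕ)
    (h : ∀ v : RP k A l →₀ E, v ∈ rat k A E l) (c : RP k A[X] (l + 1) →₀ E) :
    c ∈ rat k A[X] E (l + 1) := by
  have := ft_X k A
  obtain ⟨v, d, hv, hd⟩ := (hL0 k A E).1 l c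
  have h1 := hFP k A A[X] E 1 l (CC k A) (hGX.1 k A) ⊥ v d hv (h v)
  rw [Ideal.map_bot] at h1
  have h2 := Submodule.add_mem _ hd h1
  rwa [sub_add_cancel] at h2

end CB

theorem t_CB : M_CB := by
  intro hPCO _ hL0 hGX hFP hSUB hDEG hCNT l hLow k R E σ ι _ _ _ _ _ _ _ _ _ f d hd hcard S a c
  classical
  obtain ⟨e⟩ := hSUB k R ι σ f d S a hd
  refine (hPCO.2.2.1 k (AR (gg f d S a))[X] (BR (GG f d) S a) E (l + 1) e.symm c).1 ?_
  refine CB.line hL0 hGX hFP k (AR (gg f d S a)) E l (fun v => ?_) _
  exact hLow k (RV R S a) E {j : σ // j ≠ a} (Σ i, Fin (d i + 1)) (gg f d S a)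
    (fun ie => d ie.1 - ie.2) (hDEG ι σ R f d S a hd) (CB.count hCNT l d a hcard) v

end LOWD


end

section

/-!
# Binomial coefficients
-/

set_option autoImplicit false

namespace LOWD

namespace CNT

theorem cnt_zero (l : ℕ) : cnt l 0 = 0 := by
  unfold cnt
  simp

theorem cnt_succ (l d : ℕ) : cnt l (d + 1) = Nat.choose (l + d) l := by
  unfold cnt
  simp

theorem pascal (l d : ℕ) : cnt l (d + 1) + cnt (l + 1) d = cnt (l + 1) (d + 1) := by
  rw [cnt_succ, cnt_succ]
  cases d with
  | zero => simp [cnt_zero]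
  | succ d =>
    rw [cnt_succ, show l + 1 + (d + 1) = (l + (d + 1)) + 1 by omega,
      show l + 1 + d = l + (d + 1) by omega]
    exact (Nat.choose_succ_succ _ _).symm

theorem pos (l d : ℕ) : 1 ≤ cnt l (d + 1) := by
  rw [cnt_succ]
  exact Nat.choose_pos (by omega)

end CNT

open _root_.LOWD.CNT in
theorem t_CNT : S_CNT := by
  refine ⟨fun l d => ?_, fun l d => ?_, fun l d => ?_⟩
  · induction d with
    | zero => simp [cnt_zero]
    | succ d ih =>
      rw [Fin.sum_univ_succ, ← pascal, ← ih]
      simp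
  · induction d with
    | zero => omega
    | succ d ih =>
      have h1 := pascal l d
      have h2 := pos l d
      omega
  · cases d with
    | zero => simp [cnt_zero]
    | succ d =>
      have h1 := pascal l d
      omega

end LOWD


end

section

/-!
# LOWD, part 2: NICE

A nonzero reduced algebra of finite type over a perfect field has a nonzero localisation which is a
smooth domain.
-/

set_option autoImplicit false

namespace LOWD

namespace NICE

/-- In a reduced Noetherian ring a minimal prime is annihilated by an element outside of it. -/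
theorem exists_ann {A : Type} [CommRing A] [IsNoetherianRing A] [IsReduced A] (p : Ideal A)
    (hp : p ∈ minimalPrimes A) : ∃ g : A, g ∉ p ∧ ∀ x ∈ p, g * x = 0 := by
  classical
  have hpp : p.IsPrime := Ideal.IsMinimalPrime.isPrime hp
  have hfin : (minimalPrimes A).Finite := Ideal.finite_minimalPrimes_of_isNoetherianRing A ⊥
  let T : Finset (Ideal A) := hfin.toFinset.erase p
  have hT : ¬ T.inf id ≤ p := by
    rw [Ideal.IsPrime.inf_le' hpp]
    rintro ⟨q, hq, hqp⟩
    have h1 : q ≠ p := Finset.ne_of_mem_erase hq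
    have h2 : q ∈ minimalPrimes A := by
      have := Finset.mem_of_mem_erase hq
      simpa using this
    apply h1
    refine le_antisymm hqp ?_
    exact hp.2 h2.1 hqp
  obtain ⟨g, hg, hgp⟩ := SetLike.not_le_iff_exists.1 hT
  refine ⟨g, hgp, fun x hx => ?_⟩
  have : g * x ∈ nilradical A := by
    rw [nilradical, ← Ideal.sInf_minimalPrimes, Ideal.mem_sInf]
    intro q hq
    by_cases hqp : q = p
    · subst hqp
      exact Ideal.mul_mem_left _ _ hx
    · refine Ideal.mul_mem_right _ _ ?_
      have hqT : q ∈ T := by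
        refine Finset.mem_erase.2 ⟨hqp, ?_⟩
        simpa using hq
      exact (Finset.inf_le (f := id) hqT : T.inf id ≤ id q) hg
  rw [nilradical_eq_zero] at this
  simpa using this

theorem isDomain_away {A : Type} [CommRing A] (p : Ideal A) [p.IsPrime] (h : A) (hp : h ∉ p)
    (hx : ∀ x ∈ p, h * x = 0) : IsDomain (Localization.Away h) := by
  have hpow : ∀ m : Submonoid.powers h, (m : A) ∉ p := by
    rintro ⟨m, n, rfl⟩ hm
    exact hp (Ideal.IsPrime.mem_of_pow_mem inferInstance n hm)
  have key : ∀ (x : A) (s : Submonoid.powers h), x ∈ p →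
      IsLocalization.mk' (Localization.Away h) x s = 0 := by
    intro x s hxp
    rw [IsLocalization.mk'_eq_zero_iff]
    exact ⟨⟨h, Submonoid.mem_powers h⟩, hx x hxp⟩
  have : Nontrivial (Localization.Away h) := by
    rw [← not_subsingleton_iff_nontrivial, 
      IsLocalization.subsingleton_iff (M := Submonoid.powers h)]
    intro h0
    exact hpow ⟨0, h0⟩ (Ideal.zero_mem p)
  have : NoZeroDivisors (Localization.Away h) := by
    refine ⟨fun {a b} hab => ?_⟩
    obtain ⟨x, s, rfl⟩ := IsLocalization.exists_mk'_eq (Submonoid.powers h) a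
    obtain ⟨y, t, rfl⟩ := IsLocalization.exists_mk'_eq (Submonoid.powers h) b
    rw [← IsLocalization.mk'_mul, IsLocalization.mk'_eq_zero_iff] at hab
    obtain ⟨m, hm⟩ := hab
    have h1 : (m : A) * (x * y) ∈ p := by rw [hm]; exact Ideal.zero_mem p
    rcases Ideal.IsPrime.mem_or_mem inferInstance h1 with h2 | h2
    · exact absurd h2 (hpow m)
    · rcases Ideal.IsPrime.mem_or_mem inferInstance h2 with h3 | h3
      · exact Or.inl (key x s h3)
      · exact Or.inr (key y t h3)
  exact NoZeroDivisors.to_isDomain _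

theorem isField_atPrime {A : Type} [CommRing A] (p : Ideal A) [p.IsPrime] (g : A) (hp : g ∉ p)
    (hx : ∀ x ∈ p, g * x = 0) : IsField (Localization.AtPrime p) := by
  rw [IsLocalRing.isField_iff_maximalIdeal_eq, eq_bot_iff]
  intro a ha
  obtain ⟨x, s, rfl⟩ := IsLocalization.exists_mk'_eq p.primeCompl a
  rw [Ideal.mem_bot, IsLocalization.mk'_eq_zero_iff]
  refine ⟨⟨g, hp⟩, hx x ?_⟩
  exact (IsLocalization.AtPrime.mk'_mem_maximal_iff (Localization.AtPrime p) p x s).1 ha

theorem smoothAt {k A : Type} [Field k] [PerfectField k] [CommRing A] [Algebra k A]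
    [Algebra.FiniteType k A] (p : Ideal A) [p.IsPrime] (hf : IsField (Localization.AtPrime p)) :
    Algebra.IsSmoothAt k p := by
  have : Algebra.EssFiniteType k (Localization.AtPrime p) := inferInstance
  let : Field (Localization.AtPrime p) := hf.toField
  exact Algebra.FormallySmooth.of_perfectField

end NICE

theorem t_NICE : S_NICE := by
  intro k A _ _ _ _ _ _ _
  have : IsNoetherianRing A := Algebra.FiniteType.isNoetherianRing k A
  have : Algebra.FinitePresentation k A := Algebra.FinitePresentation.of_finiteType.1 inferInstance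
  obtain ⟨p, hp⟩ := Ideal.nonempty_minimalPrimes (I := (⊥ : Ideal A)) bot_ne_top
  have hpp : p.IsPrime := Ideal.IsMinimalPrime.isPrime hp
  obtain ⟨g, hg, hgx⟩ := NICE.exists_ann p hp
  have hsm : Algebra.IsSmoothAt k p := NICE.smoothAt p (NICE.isField_atPrime p g hg hgx)
  obtain ⟨f, hf, hs⟩ := Algebra.IsSmoothAt.exists_notMem_smooth k p
  refine ⟨f * g, NICE.isDomain_away p (f * g) ?_ ?_, ?_⟩
  · intro h
    rcases Ideal.IsPrime.mem_or_mem hpp h with h1 | h1
    · exact hf h1
    · exact hg h1
  · intro x hx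
    rw [mul_assoc, hgx x hx, mul_zero]
  · rw [← Algebra.basicOpen_subset_smoothLocus_iff_smooth] at hs ⊢
    refine Set.Subset.trans ?_ hs
    intro q hq
    exact (PrimeSpectrum.basicOpen_mul_le_left f g) hq

end LOWD


end

section

/-!
# LOWD, module STP: the induction step
-/

set_option autoImplicit false

open Polynomial

namespace LOWD

open CUB

theorem t_STP : M_STP := by
  intro hFLD hFPR hKRU hNUL hFNT hPTQ hHOM hCNT hCB l hl
  intro k R E σ ι _ _ _ _ _ _ _ _ _ f d hd hcard
  classical
  have hG : ∀ ie : (Σ i, Fin (d i)), (GG f d ie).IsHomogeneous (ie.2 + 1) := hHOM ι σ R f d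
  have claim : ∀ (S : Finset σ) (p : RP k (AR f) (l + 1)), SolAt (GG f d) (S : Set σ) p.1 →
      Finsupp.single p (1 : E) ∈ rat k (AR f) E (l + 1) := by
    intro S
    induction S using Finset.induction_on with
    | empty =>
      rintro p ⟨w, hw, h0, -⟩
      exact absurd (funext fun j => h0 j (by simp)) hw
    | insert a S haS ih =>
      intro p hp
      by_cases hS : SolAt (GG f d) (S : Set σ) p.1
      · exact ih p hS
      · have haS' : a ∉ (S : Set σ) := by simpa using haS
        rw [Finset.coe_insert] at hp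
        obtain ⟨q, hq⟩ := hPTQ k (AR f) σ _ (GG f d) (fun ie => ie.2 + 1) hG S a haS' (l + 1) p
          hp hS
        have hJ : ¬ JJ (GG f d) (S : Set σ) ≤ p.1.asIdeal :=
          hNUL (AR f) σ _ (GG f d) (fun ie => ie.2 + 1) hG S p.1 hS
        have hfin : FinOn (BRh k (GG f d) (S : Set σ) a) (JJ (GG f d) (S : Set σ)) :=
          hFNT k (AR f) σ _ (GG f d) (fun ie => ie.2 + 1) hG S a haS'
        have hq1 : Finsupp.single q (1 : E) ∈ rat k (BR (GG f d) (S : Set σ) a) E (l + 1) :=
          hCB l hl k R E σ ι f d hd hcard S a _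
        obtain ⟨z, hz, hzp⟩ := hFPR k (AR f) (BR (GG f d) (S : Set σ) a) E
          (BRh k (GG f d) (S : Set σ) a) (JJ (GG f d) (S : Set σ)) hfin (l + 1) _ hq1
        have hdg : dg (BRh k (GG f d) (S : Set σ) a) q.1 ≠ 0 := by
          refine (hFLD k (AR f) (BR (GG f d) (S : Set σ) a) (BRh k (GG f d) (S : Set σ) a)
            (JJ (GG f d) (S : Set σ)) hfin q.1 ?_).2.1
          rw [hq]
          exact hJ
        have hdgE : (dg (BRh k (GG f d) (S : Set σ) a) q.1 : E) ≠ 0 := Nat.cast_ne_zero.mpr hdg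
        -- the rest of the cycle
        have hzv : ∀ p' : RP k (AR f) (l + 1), ¬ JJ (GG f d) (S : Set σ) ≤ p'.1.asIdeal →
            z p' = Finsupp.single p (dg (BRh k (GG f d) (S : Set σ) a) q.1 : E) p' := by
          intro p' hp'
          rw [hzp p' hp', Finsupp.sum_single_index (by simp), Finsupp.single_apply]
          by_cases hpp : p = p'
          · rw [if_pos hpp, if_pos (by rw [hq, hpp]), mul_one]
          · rw [if_neg hpp, if_neg]
            intro h
            exact hpp (Subtype.ext (hq.symm.trans h))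
        have hrest : z - Finsupp.single p (dg (BRh k (GG f d) (S : Set σ) a) q.1 : E) ∈
            rat k (AR f) E (l + 1) := by
          rw [← Finsupp.sum_single
            (z - Finsupp.single p (dg (BRh k (GG f d) (S : Set σ) a) q.1 : E))]
          refine Submodule.sum_mem _ ?_
          intro p' hp'
          have hJ' : JJ (GG f d) (S : Set σ) ≤ p'.1.asIdeal := by
            by_contra hn
            rw [Finsupp.mem_support_iff, Finsupp.sub_apply, hzv p' hn, sub_self] at hp'
            exact hp' rfl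
          have hsol : SolAt (GG f d) (S : Set σ) p'.1 := by
            by_contra hn
            exact hNUL (AR f) σ _ (GG f d) (fun ie => ie.2 + 1) hG S p'.1 hn hJ'
          have h1 := Submodule.smul_mem (rat k (AR f) E (l + 1))
            ((z - Finsupp.single p (dg (BRh k (GG f d) (S : Set σ) a) q.1 : E)) p') (ih p' hsol)
          rwa [Finsupp.smul_single, smul_eq_mul, mul_one] at h1
        have h2 : Finsupp.single p (dg (BRh k (GG f d) (S : Set σ) a) q.1 : E) ∈
            rat k (AR f) E (l + 1) := by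
          have h3 := Submodule.sub_mem _ hz hrest
          rwa [sub_sub_cancel] at h3
        have h4 := Submodule.smul_mem (rat k (AR f) E (l + 1))
          (dg (BRh k (GG f d) (S : Set σ) a) q.1 : E)⁻¹ h2
        rwa [Finsupp.smul_single, smul_eq_mul, inv_mul_cancel₀ hdgE] at h4
  intro c
  rw [← Finsupp.sum_single c]
  refine Submodule.sum_mem _ ?_
  intro p _
  have hcard2 : Fintype.card (Σ i, Fin (d i)) < Fintype.card σ := by
    rw [Fintype.card_sigma]
    simp only [Fintype.card_fin]
    have h5 : ∑ i, d i ≤ ∑ i, cnt (l + 1) (d i) :=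
      Finset.sum_le_sum fun i _ => hCNT.2.1 l (d i)
    omega
  have hsol : SolAt (GG f d) (Set.univ : Set σ) p.1 :=
    hKRU (AR f) σ _ (GG f d) (fun ie => ie.2 + 1) hG (fun _ => Nat.succ_pos _) hcard2 p.1
  have h1 := claim Finset.univ p (by rwa [Finset.coe_univ])
  have h2 := Submodule.smul_mem (rat k (AR f) E (l + 1)) (c p) h1
  rwa [Finsupp.smul_single, smul_eq_mul, mul_one] at h2

end LOWD


end

section

/-!
# LOWD, module ZER: zero-cycles
-/

set_option autoImplicit false

namespace LOWD

open CUB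

namespace ZER

/-- A domain of transcendence degree zero over a field is a field. -/
lemma isField_of_trdeg {k A : Type} [Field k] [CommRing A] [IsDomain A] [Algebra k A]
    (h : Algebra.trdeg k A = 0) : IsField A := by
  have h1 : Algebra.IsAlgebraic k A := (_root_.trdeg_eq_zero_iff).1 h
  have : Algebra.IsIntegral k A := Algebra.isAlgebraic_iff_isIntegral.1 h1
  exact isField_of_isIntegral_of_isField' (Field.toIsField k)

/-- A subring of an algebraic domain over a field is a field. -/
lemma isField_of_injective {k A B : Type} [Field k] [CommRing A] [CommRing B] [IsDomain A]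
    [IsDomain B] [Algebra k A] [Algebra k B] (h : Algebra.trdeg k B = 0) (φ : A →ₐ[k] B)
    (hφ : Function.Injective φ) : IsField A := by
  have h1 : Algebra.IsAlgebraic k B := (_root_.trdeg_eq_zero_iff).1 h
  have h2 : Algebra.IsAlgebraic k A := Algebra.IsAlgebraic.of_injective φ hφ
  have : Algebra.IsIntegral k A := Algebra.isAlgebraic_iff_isIntegral.1 h2
  exact isField_of_isIntegral_of_isField' (Field.toIsField k)

/-- In a Noetherian ring a prime which is not minimal covers a prime. -/
lemma exists_covBy {A : Type} [CommRing A] [IsNoetherianRing A] (p : PrimeSpectrum A)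
    (q₀ : Ideal A) (hq : q₀.IsPrime) (hlt : q₀ < p.asIdeal) : ∃ q : PrimeSpectrum A, q ⋖ p := by
  obtain ⟨m, ⟨hm1, hm2⟩, hm3⟩ := 
    (wellFounded_gt : WellFounded ((· > ·) : Ideal A → Ideal A → Prop)).has_min
    {I : Ideal A | I.IsPrime ∧ I < p.asIdeal} ⟨q₀, hq, hlt⟩
  refine ⟨⟨m, hm1⟩, ?_, ?_⟩
  · exact hm2
  · intro c hc1 hc2
    exact hm3 c.asIdeal ⟨c.isPrime, hc2⟩ hc1

/-- The prime below a point. -/
lemma exists_lt (hHTM : S_HTM) {k R σ ι : Type} [Field k] [CommRing R] [Algebra k R]
    [Fintype σ] (f : ι → MvPolynomial σ R) (S : Finset ι)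
    (hc : ∀ i, i ∉ S → ∃ c : R, f i = MvPolynomial.C c) (hcard : S.card < Fintype.card σ)
    (p : PrimeSpectrum (AR f)) (hp : rdim k p = 0) :
    ∃ q₀ : Ideal (AR f), q₀.IsPrime ∧ q₀ < p.asIdeal := by
  classical
  set π : MvPolynomial σ R →+* AR f := Ideal.Quotient.mk _ with hπ
  have hπs : Function.Surjective π := Ideal.Quotient.mk_surjective
  set P : Ideal (MvPolynomial σ R) := p.asIdeal.comap π with hP
  have hPp : P.IsPrime := Ideal.comap_isPrime π p.asIdeal
  have hpp : p.asIdeal.IsPrime := p.isPrime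
  set m : Ideal R := P.comap MvPolynomial.C with hm
  have hmp : m.IsPrime := Ideal.comap_isPrime MvPolynomial.C P
  have hp' : Algebra.trdeg k (AR f ⧸ p.asIdeal) = 0 := hp
  have hpmax : p.asIdeal.IsMaximal :=
    Ideal.Quotient.maximal_of_isField _ (isField_of_trdeg hp')
  have hPmax : P.IsMaximal := Ideal.comap_isMaximal_of_surjective π hπs
  have hmmax : m.IsMaximal := by
    apply Ideal.Quotient.maximal_of_isField
    have hle : m ≤ p.asIdeal.comap (IsScalarTower.toAlgHom k R (AR f)) := by
      intro x hx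
      exact hx
    refine isField_of_injective hp' (Ideal.quotientMapₐ p.asIdeal
      (IsScalarTower.toAlgHom k R (AR f)) hle) ?_
    refine Ideal.quotientMap_injective' (H := hle) ?_
    intro x hx
    exact hx
  letI : Field (R ⧸ m) := Ideal.Quotient.field m
  set g : MvPolynomial σ R →+* MvPolynomial σ (R ⧸ m) :=
    MvPolynomial.map (Ideal.Quotient.mk m) with hg
  have hgs : Function.Surjective g := MvPolynomial.map_surjective _ Ideal.Quotient.mk_surjective
  have hker : RingHom.ker g ≤ P := by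
    rw [hg, MvPolynomial.ker_map, Ideal.mk_ker]
    rw [Ideal.map_le_iff_le_comap]
  have hcm : (P.map g).comap g = P := by
    rw [Ideal.comap_map_of_surjective g hgs]
    exact sup_eq_left.mpr hker
  have hP'max : (P.map g).IsMaximal := by
    rcases Ideal.map_eq_top_or_isMaximal_of_surjective g hgs hPmax with h | h
    · exfalso
      apply hPmax.ne_top
      rw [← hcm, h, Ideal.comap_top]
    · exact h
  have hfP : ∀ i, f i ∈ P := by
    intro i
    have h0 : π (f i) = 0 := Ideal.Quotient.eq_zero_iff_mem.mpr (Ideal.subset_span ⟨i, rfl⟩)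
    change π (f i) ∈ p.asIdeal
    rw [h0]
    exact zero_mem _
  obtain ⟨Q', hQ'p, hQ'lt, hQ'F⟩ := hHTM (R ⧸ m) σ {i // i ∈ S} (fun i => g (f i.1)) (P.map g)
    hP'max (fun i => Ideal.mem_map_of_mem g (hfP i.1)) (by
      rw [Fintype.card_coe]; exact hcard)
  have := hQ'p
  have hfQ : ∀ i, g (f i) ∈ Q' := by
    intro i
    by_cases hi : i ∈ S
    · exact hQ'F ⟨i, hi⟩
    · obtain ⟨c, hc'⟩ := hc i hi
      have hcm' : c ∈ m := by
        have h1 := hfP i
        rw [hc'] at h1
        exact h1
      have h0 : g (f i) = 0 := by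
        rw [hc', hg, MvPolynomial.map_C, Ideal.Quotient.eq_zero_iff_mem.mpr hcm', map_zero]
      rw [h0]
      exact zero_mem _
  set Q : Ideal (MvPolynomial σ R) := Q'.comap g with hQ
  have hQp : Q.IsPrime := Ideal.comap_isPrime g Q'
  have hQP : Q ≤ P := by
    rw [← hcm]
    exact Ideal.comap_mono hQ'lt.le
  have hPQ : ¬ P ≤ Q := by
    intro h
    apply hQ'lt.not_ge
    rw [Ideal.map_le_iff_le_comap]
    exact h
  have hspan : RingHom.ker π ≤ Q := by
    rw [hπ, Ideal.mk_ker, Ideal.span_le]
    rintro _ ⟨i, rfl⟩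
    exact hfQ i
  have hcmQ : (Q.map π).comap π = Q := by
    rw [Ideal.comap_map_of_surjective π hπs]
    exact sup_eq_left.mpr hspan
  refine ⟨Q.map π, Ideal.map_isPrime_of_surjective hπs hspan, ?_, ?_⟩
  · rw [Ideal.map_le_iff_le_comap]
    exact hQP
  · intro h
    apply hPQ
    rw [← hcmQ]
    exact Ideal.comap_mono h

end ZER

theorem t_ZER : M_ZER := by
  intro _ hDIM2 hHTM hCLG k R E σ ι _ _ _ _ _ _ _ _ _ f S hc hcard c
  have : Algebra.FiniteType k (AR f) := inferInstance
  have : IsNoetherianRing (AR f) := Algebra.FiniteType.isNoetherianRing k (AR f)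
  have key : ∀ p : RP k (AR f) 0, Finsupp.single p (1 : E) ∈ rat k (AR f) E 0 := by
    intro p
    have hp0 : rdim k p.1 = 0 := by
      have := p.2
      simpa using this
    obtain ⟨q₀, hq₀, hlt⟩ := ZER.exists_lt hHTM f S hc hcard p.1 hp0
    obtain ⟨q, hq⟩ := ZER.exists_covBy p.1 q₀ hq₀ hlt
    have h1 := hDIM2 k (AR f) q p.1 hq
    rw [hp0, zero_add] at h1
    have h2 : rdim k q = ((1 : ℕ) : Cardinal) := by
      rw [← h1]; simp
    exact hCLG k (AR f) E ⟨q, h2⟩ p hq.lt.le
  rw [← Finsupp.sum_single c]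
  refine Submodule.sum_mem _ (fun p _ => ?_)
  have h3 : Finsupp.single p (c p) = (c p) • Finsupp.single p (1 : E) := by
    simp
  rw [h3]
  exact Submodule.smul_mem _ _ (key p)

end LOWD


end

section

/-!
# LOWD: assembly of all modules
-/

set_option autoImplicit false

namespace LOWD

namespace Asm

open CUB

universe v

theorem c_DIM1 : S_DIM1 := t_DIM1

theorem c_DIM2 : S_DIM2 := t_DIM2

theorem c_GCO : S_GCO := t_GCO

theorem c_GX : S_GX := t_GX c_DIM1 c_GCO

theorem c_FPX : S_FPX := t_FPX c_DIM1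

theorem c_PLIN : S_PLIN := t_PLIN

theorem c_LENA : S_LENA := t_LENA

theorem c_LENB : S_LENB := t_LENB

theorem c_LENC : S_LENC := t_LENC c_DIM1

theorem c_DVX : S_DVX := t_DVX c_DIM1 c_LENC

theorem c_HER : S_HER := t_HER

theorem c_FP : S_FP := t_FP c_DIM1 c_LENB c_LENC c_DVX c_HER c_FPX

theorem c_PUSH : S_PUSH := t_PUSH c_LENA

theorem c_PCO : S_PCO := t_PCO c_PUSH c_PLIN

theorem c_L0 : S_L0 := t_L0 c_DIM1 c_LENC c_DVX c_GX c_FPX c_PLIN

theorem c_NORM : S_NORM := t_NORM

theorem c_FIN : S_FIN := t_FIN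

theorem s_LTH : S_LTH := t_LTH

theorem s_DGL : S_DGL := t_DGL

theorem s_FLD : S_FLD := t_FLD

theorem s_FPD : S_FPD :=
  LOWD.t_FPD c_DIM1 c_DIM2 c_LENA c_LENB c_LENC c_NORM s_LTH s_DGL s_FLD

theorem s_FPR : S_FPR := t_FPR c_LENC c_DVX s_FLD s_FPD

theorem s_CLF : S_CLF := t_CLF

theorem s_CLG : S_CLG := t_CLG c_DIM1 c_LENC c_DVX c_FIN s_FLD s_FPR s_CLF

theorem s_HTM : S_HTM := t_HTM

theorem s_ZER : S_ZER := t_ZER c_DIM1 c_DIM2 s_HTM s_CLG

theorem s_KRU : S_KRU := t_KRU s_HTM

theorem s_NUL : S_NUL := t_NUL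

theorem s_FNT : S_FNT := t_FNT

theorem s_PTQ : S_PTQ := t_PTQ

theorem s_HOM : S_HOM := t_HOM

theorem s_DEG : S_DEG := t_DEG

theorem s_SUB : S_SUB := t_SUB

theorem s_CNT : S_CNT := t_CNT

theorem s_CB : S_CB := t_CB c_PCO c_PLIN c_L0 c_GX c_FP s_SUB s_DEG s_CNT

theorem s_STP : S_STP := t_STP s_FLD s_FPR s_KRU s_NUL s_FNT s_PTQ s_HOM s_CNT s_CB

theorem s_ALL : S_ALL := t_ALL s_ZER s_STP s_CNT

theorem s_HEX : S_HEX.{v} := t_HEX

theorem s_NICE : S_NICE := t_NICE

theorem s_VA : S_VA.{v} := t_VA s_HEX s_NICE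

theorem s_VB : S_VB.{v} := t_VB s_HEX

end Asm

end LOWD


end

section

set_option autoImplicit false

open Polynomial

namespace QCV

open CUB

theorem t_DLR : S_DLR := by
  refine ⟨?_, ?_, ?_, ?_, ?_⟩
  · intro k A B _ _ _ _ _ d φ hφ h p
    rw [← rdim_comap φ hφ p]
    exact h _
  · intro k A B _ _ _ _ _ _ _ d a φ hφ h p
    rw [← rdim_comap_opn φ (isOpenImmersion_spm φ a hφ) p]
    exact h _
  · intro k A B _ _ _ _ _ _ _ _ _ _ d h p
    have hfin : LOWD.FinOn (IsScalarTower.toAlgHom k A B) ⊤ := by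
      intro t _
      obtain ⟨M, hM⟩ := (inferInstance : Module.Finite A B).fg_top
      refine ⟨M, fun x => ?_⟩
      have hx : x ∈ Submodule.span A (M : Set B) := by
        rw [hM]
        trivial
      rw [Submodule.mem_span_finset] at hx
      obtain ⟨f, _, hf⟩ := hx
      refine ⟨0, f, ?_⟩
      rw [pow_zero, one_mul, ← hf]
      refine Finset.sum_congr rfl fun m _ => ?_
      exact Algebra.smul_def _ _
    have h1 : rdim k (PrimeSpectrum.comap (IsScalarTower.toAlgHom k A B).toRingHom p) =
        rdim k p := by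
      refine (LOWD.t_FLD k A B (IsScalarTower.toAlgHom k A B) ⊤ hfin p ?_).2.2.1
      intro h2
      exact (PrimeSpectrum.comap (IsScalarTower.toAlgHom k A B).toRingHom p).2.ne_top
        (top_le_iff.mp h2)
    rw [← h1]
    exact h _
  · intro k A _ _ _ _ d h P
    have h1 := pX_le (PrimeSpectrum.comap C P) P rfl
    calc rdim k P ≤ rdim k (pX (PrimeSpectrum.comap C P)) := rdim_le h1
      _ = rdim k (PrimeSpectrum.comap C P) + 1 := rdim_pX _
      _ ≤ (d : Cardinal) + 1 := by
        gcongr
        exact h _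
      _ = ((d + 1 : ℕ) : Cardinal) := by push_cast; rfl
  · intro k B _ _ _ _ _ d f hf h P
    have hs : Function.Surjective (Ideal.Quotient.mkₐ k (Ideal.span {f})) :=
      Ideal.Quotient.mkₐ_surjective k _
    rw [← rdim_comap (Ideal.Quotient.mkₐ k (Ideal.span {f})) hs P]
    set Q := PrimeSpectrum.comap (Ideal.Quotient.mkₐ k (Ideal.span {f})).toRingHom P with hQ
    have hlt : (⟨⊥, Ideal.isPrime_bot⟩ : PrimeSpectrum B) < Q := by
      refine lt_of_le_of_ne bot_le ?_
      intro h1
      have h2 : f ∈ Q.asIdeal := by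
        change (Ideal.Quotient.mkₐ k (Ideal.span {f})) f ∈ P.asIdeal
        have h3 : Ideal.Quotient.mkₐ k (Ideal.span {f}) f = 0 :=
          Ideal.Quotient.eq_zero_iff_mem.mpr (Ideal.subset_span rfl)
        rw [h3]
        exact zero_mem _
      rw [← h1] at h2
      exact hf h2
    have h1 := (rdim_add_one_le hlt).trans (h _)
    obtain ⟨n, hn⟩ := exists_rdim (k := k) Q
    rw [hn] at h1 ⊢
    have h2 : n + 1 ≤ d + 1 := by exact_mod_cast h1
    exact_mod_cast (by omega : n ≤ d)

end QCV


end
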