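import Mathlib
import Pool.Agent.QVM.C05
import Pool.Agent.QVM.C11

/-! Parts: CUB2.G_GRA, CUB2.G_QAF, CUB2.G_SEP, QCV.Aux1, QCV.R_VRQ, QCV.R_LNR, QCV.R_V1P, QCV.R_V1R -/

section

/-!
# CUB2, module GRA: the closure of the graph of a function
-/

set_option autoImplicit false

open CategoryTheory AlgebraicGeometry Limits Polynomial TopologicalSpace

namespace CUB

open Pool.Agent.Lib_helper55.Beil Pool.Agent.Lib_helper66.OneP

namespace GRA

variable {k : Type} [Field k]

/-- A closed subvariety with the reduced structure is reduced. -/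
lemma isReduced_closedVar (X : Var k) (C : Closeds X.X) : IsReduced (closedVar X C).X := by
  change IsReduced (Scheme.IdealSheafData.vanishingIdeal C).subscheme
  have h : ∀ U, IsReduced ((Scheme.IdealSheafData.vanishingIdeal C).subschemeCover.openCover.X U) := by
    intro U
    change IsReduced (Spec (.of (Γ(X.X, U.1) ⧸ (Scheme.IdealSheafData.vanishingIdeal C).ideal U)))
    have : _root_.IsReduced (Γ(X.X, U.1) ⧸ (Scheme.IdealSheafData.vanishingIdeal C).ideal U) := by
      rw [← Ideal.isRadical_iff_quotient_reduced]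
      exact PrimeSpectrum.isRadical_vanishingIdeal _
    have : _root_.IsReduced (CommRingCat.of
        (Γ(X.X, U.1) ⧸ (Scheme.IdealSheafData.vanishingIdeal C).ideal U)) := this
    infer_instance
  exact IsReduced.of_openCover _ (Scheme.IdealSheafData.vanishingIdeal C).subschemeCover.openCover

/-- For an open immersion, functions on an open subset of the image. -/
lemma isIso_appLE {A B : Scheme.{0}} (f : A ⟶ B) [IsOpenImmersion f] (U : B.Opens)
    (hU : U ≤ f.opensRange) (e : ⊤ ≤ f ⁻¹ᵁ U) : IsIso (f.appLE U ⊤ e) := by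
  have h1 : IsIso (f.app U) := f.isIso_app U hU
  have h2 : IsIso (homOfLE e) := ⟨homOfLE le_top, Subsingleton.elim _ _, Subsingleton.elim _ _⟩
  have h3 : IsIso (A.presheaf.map (homOfLE e).op) := inferInstance
  rw [Scheme.Hom.appLE]
  infer_instance

/-- The complement of an open subset, as a closed subset. -/
def co {X : Scheme.{0}} (V : X.Opens) : Closeds X := ⟨(V : Set X)ᶜ, V.2.isClosed_compl⟩

/-- The points of the image of a section over an open subset. -/
lemma mem_range {S B : Scheme.{0}} (p : B ⟶ S) [IsSeparated p] (V : S.Opens)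
    (f : V.toScheme ⟶ B) (hf : f ≫ p = V.ι) (y : B) (hy : p y ∈ V)
    (hy2 : y ∈ closure (Set.range f)) : y ∈ Set.range f := by
  have hr : Set.range f ⊆ Set.range (p ⁻¹ᵁ V).ι := by
    rintro _ ⟨x, rfl⟩
    rw [Scheme.Opens.range_ι]
    change p (f x) ∈ V
    rw [← Scheme.Hom.comp_apply, hf]
    exact x.2
  let b : V.toScheme ⟶ (p ⁻¹ᵁ V).toScheme := IsOpenImmersion.lift (p ⁻¹ᵁ V).ι f hr
  have hb : b ≫ (p ⁻¹ᵁ V).ι = f := IsOpenImmersion.lift_fac _ _ _
  have hb2 : b ≫ (p ∣_ V) = 𝟙 _ := by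
    rw [← cancel_mono V.ι, Category.assoc, morphismRestrict_ι, ← Category.assoc, hb, hf,
      Category.id_comp]
  have hbc : IsClosedImmersion b := by
    have h1 : IsClosedImmersion (b ≫ (p ∣_ V)) := by
      rw [hb2]
      infer_instance
    exact IsClosedImmersion.of_comp b (p ∣_ V)
  have h4 : (⟨y, hy⟩ : (p ⁻¹ᵁ V).toScheme) ∈ (p ⁻¹ᵁ V).ι ⁻¹' closure (Set.range f) := hy2
  rw [(p ⁻¹ᵁ V).ι.isOpenEmbedding.isOpenMap.preimage_closure_eq_closure_preimage
    (p ⁻¹ᵁ V).ι.continuous] at h4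
  have h5 : (p ⁻¹ᵁ V).ι ⁻¹' Set.range f = Set.range b := by
    ext v
    constructor
    · rintro ⟨w, hw⟩
      refine ⟨w, (p ⁻¹ᵁ V).ι.isOpenEmbedding.injective ?_⟩
      rw [← hw, ← Scheme.Hom.comp_apply, hb]
    · rintro ⟨w, rfl⟩
      exact ⟨w, by rw [← Scheme.Hom.comp_apply, hb]⟩
  rw [h5, b.isClosedEmbedding.isClosed_range.closure_eq] at h4
  obtain ⟨w, hw⟩ := h4
  refine ⟨w, ?_⟩
  rw [← hb, Scheme.Hom.comp_apply, hw]
  rfl

/-- The canonical morphism to the spectrum. -/
lemma toSpec_comm {X : Scheme.{0}} {R : CommRingCat.{0}} (f : X ⟶ Spec R) (V : X.Opens) :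
    V.toSpecΓ ≫ Spec.map ((Scheme.ΓSpecIso R).inv ≫ f.appLE ⊤ V le_top) = V.ι ≫ f := by
  have e : V ≤ f ⁻¹ᵁ ⊤ := le_top
  change V.toSpecΓ ≫ Spec.map ((Scheme.ΓSpecIso R).inv ≫ f.appLE ⊤ V e) = V.ι ≫ f
  rw [Spec.map_comp, Scheme.Opens.toSpecΓ_SpecMap_appLE_assoc, Scheme.Opens.toSpecΓ_top,
    Category.assoc, toSpecΓ_SpecMap_ΓSpecIso_inv, Category.comp_id, Scheme.Hom.resLE_comp_ι]

/-- Functions under the canonical morphism to the spectrum. -/
lemma toSpec_app {X : Scheme.{0}} {R : CommRingCat.{0}} (V : X.Opens) (ρ : R ⟶ Γ(X, V)) (r : R) :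
    (V.toSpecΓ ≫ Spec.map ρ).appTop ((Scheme.ΓSpecIso R).inv r) = V.topIso.inv (ρ r) := by
  have h1 : (Scheme.ΓSpecIso R).inv ≫ (V.toSpecΓ ≫ Spec.map ρ).appTop = ρ ≫ V.topIso.inv := by
    rw [Scheme.Hom.comp_appTop, ← Category.assoc, ← Scheme.ΓSpecIso_inv_naturality,
      Scheme.Opens.toSpecΓ_appTop, Category.assoc, Iso.inv_hom_id_assoc]
  have h2 := congrArg (fun F => F.hom r) h1
  exact h2

/-- Extension of a function. -/
lemma coord {T A P S : Scheme.{0}} (h : T ⟶ S) [IsOpenImmersion h] (ψ : S ⟶ P) (j : A ⟶ P)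
    [IsOpenImmersion j] (α : T ⟶ A) (hψ : h ≫ ψ = α ≫ j) (W : S.Opens) (hW : W ≤ h.opensRange)
    (e : ⊤ ≤ h ⁻¹ᵁ W) (a : Γ(A, ⊤)) (b : Γ(S, W)) (hab : h.appLE W ⊤ e b = α.appTop a) :
    ∃ (g : Γ(S, ψ ⁻¹ᵁ j.opensRange)) (hO : W ≤ ψ ⁻¹ᵁ j.opensRange),
      S.presheaf.map (homOfLE hO).op g = b := by
  have e1 : ⊤ ≤ j ⁻¹ᵁ j.opensRange := fun x _ => ⟨x, rfl⟩
  have i1 : IsIso (j.appLE j.opensRange ⊤ e1) := isIso_appLE j _ le_rfl e1
  have i2 : IsIso (h.appLE W ⊤ e) := isIso_appLE h W hW e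
  obtain ⟨t, ht⟩ := (ConcreteCategory.bijective_of_isIso (j.appLE j.opensRange ⊤ e1)).2 a
  have hO : W ≤ ψ ⁻¹ᵁ j.opensRange := by
    intro w hw
    obtain ⟨v, hv⟩ := hW hw
    refine ⟨α v, ?_⟩
    rw [← Scheme.Hom.comp_apply, ← hψ, Scheme.Hom.comp_apply, hv]
  refine ⟨ψ.app j.opensRange t, hO, ?_⟩
  apply (ConcreteCategory.bijective_of_isIso (h.appLE W ⊤ e)).1
  rw [hab, ← ht]
  have e2 : ⊤ ≤ (h ≫ ψ) ⁻¹ᵁ j.opensRange := fun x hx => hO (e hx)
  have e3 : ⊤ ≤ (α ≫ j) ⁻¹ᵁ j.opensRange := fun x _ => ⟨α x, by rw [Scheme.Hom.comp_apply]⟩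
  have h1 : ψ.app j.opensRange ≫ S.presheaf.map (homOfLE hO).op ≫ h.appLE W ⊤ e =
      (h ≫ ψ).appLE j.opensRange ⊤ e2 := by
    rw [Scheme.Hom.map_appLE, Scheme.Hom.comp_appLE]
  have h2 : j.appLE j.opensRange ⊤ e1 ≫ α.appTop = (α ≫ j).appLE j.opensRange ⊤ e3 := by
    have e4 : (⊤ : T.Opens) ≤ α ⁻¹ᵁ ⊤ := le_top
    have h3 : α.appTop = α.appLE ⊤ ⊤ e4 := α.app_eq_appLE
    rw [h3, Scheme.Hom.appLE_comp_appLE]
  have h4 : (h ≫ ψ).appLE j.opensRange ⊤ e2 = (α ≫ j).appLE j.opensRange ⊤ e3 := by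
    congr 1
  rw [h4, ← h2] at h1
  exact congrArg (fun F => F.hom t) h1

end GRA

open _root_.CUB.GRA in
theorem t_GRA : S_GRA := by
  intro k _ H X hX V φ hV
  -- the open subset
  have hVne : Nonempty V.toScheme := by
    obtain ⟨x, hx⟩ := hV
    exact ⟨⟨x, hx⟩⟩
  have hVint : IsIntegral V.toScheme := isIntegral_of_isOpenImmersion V.ι
  have hPprop : IsProper H.P.f := H.proper
  let p : (X.prod H.P).X ⟶ X.X := pullback.fst X.f H.P.f
  let q : (X.prod H.P).X ⟶ H.P.X := pullback.snd X.f H.P.f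
  have hp : IsProper p := inferInstanceAs (IsProper (pullback.fst X.f H.P.f))
  -- the morphism to the affine line
  let c : k →+* Γ(X.X, V) := ((Scheme.ΓSpecIso (CommRingCat.of k)).inv ≫ X.f.appLE ⊤ V le_top).hom
  let ρ : k[X] →+* Γ(X.X, V) := Polynomial.eval₂RingHom c φ
  let α : V.toScheme ⟶ (aff k k[X]).X := V.toSpecΓ ≫ Spec.map (CommRingCat.ofHom ρ)
  have hα : α ≫ (aff k k[X]).f = V.ι ≫ X.f := by
    rw [← toSpec_comm X.f V]
    change (V.toSpecΓ ≫ Spec.map (CommRingCat.ofHom ρ)) ≫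
      Spec.map (CommRingCat.ofHom (algebraMap k k[X])) = _
    rw [Category.assoc, ← Spec.map_comp]
    congr 2
    ext x
    change ρ (algebraMap k k[X] x) = c x
    rw [Polynomial.algebraMap_eq]
    change Polynomial.eval₂ c φ (C x) = c x
    rw [Polynomial.eval₂_C]
  let f : V.toScheme ⟶ (X.prod H.P).X := pullback.lift V.ι (α ≫ H.j₀.g) (by
    rw [Category.assoc, H.j₀.comm]
    exact hα.symm)
  have hf1 : f ≫ p = V.ι := pullback.lift_fst _ _ _
  have hf2 : f ≫ q = α ≫ H.j₀.g := pullback.lift_snd _ _ _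
  have himm : IsImmersion f := by
    have : IsImmersion (f ≫ p) := by
      rw [hf1]
      infer_instance
    exact IsImmersion.of_comp f p
  have hqc : QuasiCompact f := by
    have : QuasiCompact (f ≫ p) := by
      rw [hf1]
      infer_instance
    exact QuasiCompact.of_comp f p
  -- the closure of the graph
  let X₁ : Var k :=
    { X := f.image
      f := f.imageι ≫ (X.prod H.P).f
      sep := inferInstance
      lft := inferInstance
      qc := inferInstance }
  have hX₁ : IsIntegral X₁.X := isIntegral_image f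
  let e : ClosedIn X₁ (X.prod H.P) := ⟨f.imageι, rfl, inferInstance⟩
  let h : V.toScheme ⟶ X₁.X := f.toImage
  have hh : IsOpenImmersion h := inferInstanceAs (IsOpenImmersion f.toImage)
  have hhe : h ≫ e.g = f := f.toImage_imageι
  let m : PrMor X₁ X :=
    { g := e.g ≫ p
      comm := by
        rw [Category.assoc]
        exact e.comm
      proper := inferInstance }
  have hm : h ≫ m.g = V.ι := by
    change h ≫ e.g ≫ p = V.ι
    rw [← Category.assoc, hhe, hf1]
  -- the range
  have hrange : m.g ⁻¹ᵁ V ≤ h.opensRange := by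
    intro w hw
    have h1 : e.g w ∈ closure (Set.range f) := by
      have h2 : Set.range f.imageι = (f.ker.support : Set (X.prod H.P).X) :=
        Scheme.IdealSheafData.range_subschemeι _
      have h3 : e.g w ∈ Set.range f.imageι := ⟨w, rfl⟩
      rw [h2, Scheme.Hom.support_ker] at h3
      exact h3
    have hw' : p (e.g w) ∈ V := hw
    obtain ⟨v, hv⟩ := mem_range p V f hf1 (e.g w) hw' h1
    refine ⟨v, ?_⟩
    apply closedIn_injective e
    rw [← Scheme.Hom.comp_apply, hhe, hv]
  have hrange2 : ∀ v, m.g (h v) ∈ V := by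
    intro v
    rw [← Scheme.Hom.comp_apply, hm]
    exact v.2
  -- the isomorphism over `V`
  let s : V.toScheme ⟶ (m.g ⁻¹ᵁ V).toScheme := IsOpenImmersion.lift (m.g ⁻¹ᵁ V).ι h (by
    rintro _ ⟨x, rfl⟩
    rw [Scheme.Opens.range_ι]
    exact hrange2 x)
  have hs : s ≫ (m.g ⁻¹ᵁ V).ι = h := IsOpenImmersion.lift_fac _ _ _
  have hs2 : s ≫ (m.g ∣_ V) = 𝟙 _ := by
    rw [← cancel_mono V.ι, Category.assoc, morphismRestrict_ι, ← Category.assoc, hs, hm,
      Category.id_comp]
  have hso : IsOpenImmersion s := by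
    have h1 : IsOpenImmersion (s ≫ (m.g ⁻¹ᵁ V).ι) := by
      rw [hs]
      exact hh
    exact IsOpenImmersion.of_comp s (m.g ⁻¹ᵁ V).ι
  have hsr : s.opensRange = ⊤ := by
    ext w
    simp only [Scheme.Hom.coe_opensRange, Set.mem_range, Opens.coe_top, Set.mem_univ, iff_true]
    obtain ⟨v, hv⟩ := hrange w.2
    refine ⟨v, (m.g ⁻¹ᵁ V).ι.isOpenEmbedding.injective ?_⟩
    rw [← Scheme.Hom.comp_apply, hs]
    exact hv
  have hsi : IsIso s := isIso_of_isOpenImmersion_of_opensRange_eq_top s hsr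
  have hmi : IsIso (m.g ∣_ V) := by
    have h1 : IsIso (s ≫ (m.g ∣_ V)) := by
      rw [hs2]
      infer_instance
    exact IsIso.of_isIso_comp_left s (m.g ∣_ V)
  -- the closed subvarieties
  have hred : IsReduced (closedVar X₁ (co (m.g ⁻¹ᵁ V))).X := isReduced_closedVar _ _
  have hmem : ∀ w, ((closedVarIn X₁ (co (m.g ⁻¹ᵁ V))).g ≫ m.g) w ∈ co V := by
    intro w
    have h1 : (closedVarIn X₁ (co (m.g ⁻¹ᵁ V))).g w ∈
        Set.range (closedVarIn X₁ (co (m.g ⁻¹ᵁ V))).g := ⟨w, rfl⟩
    rw [range_closedVarIn] at h1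
    rw [Scheme.Hom.comp_apply]
    exact h1
  let z : (closedVar X₁ (co (m.g ⁻¹ᵁ V))).X ⟶ (closedVar X (co V)).X :=
    liftC ((closedVarIn X₁ (co (m.g ⁻¹ᵁ V))).g ≫ m.g) (co V) hmem
  have hz : z ≫ (closedVarIn X (co V)).g = (closedVarIn X₁ (co (m.g ⁻¹ᵁ V))).g ≫ m.g :=
    liftC_comp _ _ _
  have hzp : IsProper z := by
    have h1 : IsProper (z ≫ (closedVarIn X (co V)).g) := by
      rw [hz]
      infer_instance
    exact IsProper.of_comp z (closedVarIn X (co V)).g
  let M : Modif X₁ X :=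
    { f := m
      Z := closedVar X (co V)
      U := openVar X V
      Z' := closedVar X₁ (co (m.g ⁻¹ᵁ V))
      U' := openVar X₁ (m.g ⁻¹ᵁ V)
      a := closedVarIn X (co V)
      j := openVarIn X V
      h := by
        change Set.range (closedVarIn X (co V)).g = (Set.range (openVarIn X V).g)ᶜ
        rw [range_closedVarIn, range_openVarIn]
        rfl
      a' := closedVarIn X₁ (co (m.g ⁻¹ᵁ V))
      j' := openVarIn X₁ (m.g ⁻¹ᵁ V)
      h' := by
        change Set.range (closedVarIn X₁ (co (m.g ⁻¹ᵁ V))).g =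
          (Set.range (openVarIn X₁ (m.g ⁻¹ᵁ V)).g)ᶜ
        rw [range_closedVarIn, range_openVarIn]
        rfl
      fZ :=
        { g := z
          comm := by
            rw [← (closedVarIn X (co V)).comm, ← Category.assoc, hz, Category.assoc, m.comm]
            exact (closedVarIn X₁ (co (m.g ⁻¹ᵁ V))).comm
          proper := hzp }
      fU :=
        { e := @asIso _ _ (m.g ⁻¹ᵁ V).toScheme V.toScheme (m.g ∣_ V) hmi
          comm := by
            change (m.g ∣_ V) ≫ V.ι ≫ X.f = (m.g ⁻¹ᵁ V).ι ≫ X₁.f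
            rw [morphismRestrict_ι_assoc, m.comm] }
      hZ := hz.symm
      hU := (isPullback_morphismRestrict m.g V).flip }
  -- the coordinate
  have hψ : h ≫ e.g ≫ q = α ≫ H.j₀.g := by
    rw [← Category.assoc, hhe, hf2]
  have e1 : ⊤ ≤ h ⁻¹ᵁ (m.g ⁻¹ᵁ V) := fun v _ => hrange2 v
  have hab : h.appLE (m.g ⁻¹ᵁ V) ⊤ e1 (m.g.app V φ) =
      α.appTop ((Scheme.ΓSpecIso (CommRingCat.of k[X])).inv (Polynomial.X : k[X])) := by
    have h1 : m.g.app V ≫ h.appLE (m.g ⁻¹ᵁ V) ⊤ e1 = V.topIso.inv := by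
      have e2 : ⊤ ≤ (h ≫ m.g) ⁻¹ᵁ V := fun v _ => hrange2 v
      have e3 : ⊤ ≤ V.ι ⁻¹ᵁ V := fun v _ => v.2
      have h3 : m.g.app V ≫ h.appLE (m.g ⁻¹ᵁ V) ⊤ e1 = (h ≫ m.g).appLE V ⊤ e2 := by
        rw [Scheme.Hom.comp_appLE]
      have h4 : (h ≫ m.g).appLE V ⊤ e2 = V.ι.appLE V ⊤ e3 := by
        congr 1
      rw [h3, h4, Scheme.Opens.ι_appLE, Scheme.Opens.topIso_inv]
      rfl
    have h2 := toSpec_app V (CommRingCat.ofHom ρ) (Polynomial.X : k[X])
    have h5 : ρ (Polynomial.X : k[X]) = φ := Polynomial.eval₂_X _ _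
    have h6 : (CommRingCat.ofHom ρ) (Polynomial.X : k[X]) = φ := h5
    rw [h6] at h2
    have h7 : h.appLE (m.g ⁻¹ᵁ V) ⊤ e1 (m.g.app V φ) = V.topIso.inv φ :=
      congrArg (fun F => F.hom φ) h1
    exact h7.trans h2.symm
  obtain ⟨g, hO, hg⟩ := coord h (e.g ≫ q) H.j₀.g α hψ (m.g ⁻¹ᵁ V) hrange e1 _ _ hab
  refine ⟨X₁, hX₁, M, e, rfl, ?_, g, hO, hg⟩
  change Set.range (openVarIn X V).g = V
  rw [range_openVarIn]

end CUB


end

section

/-!
# CUB2, module QAF: the criterion for quasi-affine varieties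
-/

set_option autoImplicit false

open CategoryTheory AlgebraicGeometry Limits Polynomial TopologicalSpace

namespace CUB

open Pool.Agent.Lib_helper55.Beil Pool.Agent.Lib_helper66.OneP

universe v

theorem t_QAF : M_QAF := by
  classical
  intro hSEP k _ X₀ Y f _ _ 𝒱 S hcov hV hP
  refine Scheme.IsQuasiAffine.of_forall_exists_mem_basicOpen Y.X fun y => ?_
  obtain ⟨V, hV𝒱, hyV⟩ := hcov (f y)
  obtain ⟨hVa, hVg⟩ := hV V hV𝒱
  have hPV := hP V hV𝒱 ⟨y, hyV⟩
  have h1 : ∀ h : S V, ∃ b : Γ(Y.X, ⊤), y ∈ Y.X.basicOpen b ∧ ∀ y' ∈ Y.X.basicOpen b,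
      ∃ (O : Y.X.Opens) (g : Γ(Y.X, O)) (hO : f ⁻¹ᵁ V ≤ O), y' ∈ O ∧
      Y.X.presheaf.map (homOfLE hO).op g = f.app V h.1 := by
    intro h
    obtain ⟨s, O, g, hO, hs, hg⟩ := hPV h.1 h.2
    have hyO : y ∈ O := hO hyV
    obtain ⟨b, hb, hyb⟩ := (hs y).1 hyO
    exact ⟨b, hyb, fun y' hy' => ⟨O, g, hO, (hs y').2 ⟨b, hb, hy'⟩, hg⟩⟩
  choose b hb hb' using h1
  obtain ⟨c, hc⟩ : ∃ c, c = ∏ h : S V, b h := ⟨_, rfl⟩
  have hmem : ∀ y' : Y.X, y' ∈ Y.X.basicOpen c ↔ ∀ h, y' ∈ Y.X.basicOpen (b h) := by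
    intro y'
    simp only [Scheme.mem_basicOpen_top]
    rw [hc, map_prod, IsUnit.prod_univ_iff]
  have hle : Y.X.basicOpen c ≤ f ⁻¹ᵁ V := by
    intro y' hy'
    have h2 := (hmem y').1 hy'
    exact hSEP.1 k X₀ V Y.X f inferInstance (S V : Set Γ(X₀.X, V)) y' hVa ⟨y, hyV⟩ hVg
      fun h hh => hb' ⟨h, hh⟩ y' (h2 ⟨h, hh⟩)
  refine ⟨c, ?_, (hmem y).2 fun h => hb h⟩
  have h3 := (hVa.preimage f).basicOpen (Y.X.presheaf.map (homOfLE (le_top : f ⁻¹ᵁ V ≤ ⊤)).op c)
  rw [Scheme.basicOpen_res, inf_eq_right.2 hle] at h3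
  exact h3

end CUB


end

section

/-!
# CUB2, module SEP: the separation criterion
-/

set_option autoImplicit false

open CategoryTheory AlgebraicGeometry Limits Polynomial TopologicalSpace

namespace CUB

open Pool.Agent.Lib_helper55.Beil Pool.Agent.Lib_helper66.OneP

universe v

namespace GSEP

/-- the map from the local ring to the function field -/
noncomputable abbrev sp (Y : Scheme.{0}) [IsIntegral Y] (y : Y) :
    Y.presheaf.stalk y ⟶ Y.presheaf.stalk (genericPoint Y) :=
  Y.presheaf.stalkSpecializes ((genericPoint_spec Y).specializes trivial)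

theorem sp_inj (Y : Scheme.{0}) [IsIntegral Y] (y : Y) : Function.Injective (sp Y y).hom :=
  IsFractionRing.injective (Y.presheaf.stalk y) Y.functionField

theorem sp_dom (Y : Scheme.{0}) [IsIntegral Y] (y : Y) : IsDominant (Spec.map (sp Y y)) := by
  refine ⟨?_⟩
  apply (PrimeSpectrum.denseRange_comap_iff_ker_le_nilRadical (sp Y y).hom).2
  rw [(RingHom.injective_iff_ker_eq_bot _).1 (sp_inj Y y)]
  exact bot_le

/-- a ring homomorphism with values in the image of an injective homomorphism factors -/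
theorem factor {A B C : CommRingCat.{0}} (φ : A ⟶ C) (ι : B ⟶ C) (hι : Function.Injective ι.hom)
    (h : ∀ a : A, ∃ b : B, ι.hom b = φ.hom a) : ∃ ψ : A ⟶ B, ψ ≫ ι = φ := by
  choose g hg using h
  refine ⟨CommRingCat.ofHom
    { toFun := g
      map_one' := hι (by rw [hg, map_one, map_one])
      map_mul' := fun a b => hι (by rw [hg, map_mul, map_mul, hg, hg])
      map_zero' := hι (by rw [hg, map_zero, map_zero])
      map_add' := fun a b => hι (by rw [hg, map_add, map_add, hg, hg]) }, ?_⟩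
  ext a
  exact hg a

end GSEP

open _root_.CUB.GSEP in
theorem t_SEP : S_SEP := by
  refine ⟨?_, ?_⟩
  · intro k _ X₀ V Y f _ S y hV hz hcl hS
    obtain ⟨z, hz⟩ := hz
    have hη : f (genericPoint Y) ∈ V := by
      have h1 : genericPoint Y ∈ f ⁻¹ᵁ V :=
        ((genericPoint_spec Y).mem_open_set_iff (f ⁻¹ᵁ V).isOpen).mpr ⟨z, trivial, hz⟩
      exact h1
    -- the homomorphism to the function field
    obtain ⟨φ, hφ⟩ : ∃ φ : Γ(X₀.X, V) ⟶ Y.presheaf.stalk (genericPoint Y),
        φ = f.app V ≫ Y.presheaf.germ (f ⁻¹ᵁ V) (genericPoint Y) hη := ⟨_, rfl⟩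
    have key : ∀ (h : Γ(X₀.X, V)) (O : Y.Opens) (g : Γ(Y, O)) (hO : f ⁻¹ᵁ V ≤ O), y ∈ O →
        Y.presheaf.map (homOfLE hO).op g = f.app V h → ∃ b, (sp Y y).hom b = φ.hom h := by
      intro h O g hO hy hg
      refine ⟨Y.presheaf.germ O y hy g, ?_⟩
      have h1 : (sp Y y) (Y.presheaf.germ O y hy g) = Y.presheaf.germ O (genericPoint Y) (hO hη) g := by
        rw [← ConcreteCategory.comp_apply, TopCat.Presheaf.germ_stalkSpecializes]
      have h2 : φ h = Y.presheaf.germ (f ⁻¹ᵁ V) (genericPoint Y) hη (f.app V h) := by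
        rw [hφ, ConcreteCategory.comp_apply]
      refine h1.trans (Eq.trans ?_ h2.symm)
      rw [← hg, TopCat.Presheaf.germ_res_apply]
    have hrange : ∀ h : Γ(X₀.X, V), ∃ b, (sp Y y).hom b = φ.hom h := by
      intro h
      have hle : Subring.closure (Set.range ((Scheme.ΓSpecIso (CommRingCat.of k)).inv ≫
          X₀.f.appLE ⊤ V le_top).hom ∪ S) ≤ (sp Y y).hom.range.comap φ.hom := by
        rw [Subring.closure_le]
        rintro a (⟨c, rfl⟩ | ha)
        · refine key _ (f ⁻¹ᵁ ⊤) (f.app ⊤ (X₀.f.app ⊤ ((Scheme.ΓSpecIso (CommRingCat.of k)).inv c)))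
            (Scheme.Hom.preimage_mono f le_top) trivial ?_
          have h1 := f.naturality (homOfLE (le_top : V ≤ ⊤)).op
          have h2 := ConcreteCategory.congr_hom h1 (X₀.f.app ⊤ ((Scheme.ΓSpecIso (CommRingCat.of k)).inv c))
          rw [ConcreteCategory.comp_apply, ConcreteCategory.comp_apply] at h2
          refine h2.symm.trans ?_
          rw [Scheme.Hom.appLE]
          rfl
        · obtain ⟨O, g, hO, hy, hg⟩ := hS a ha
          exact key a O g hO hy hg
      have h1 : h ∈ (sp Y y).hom.range.comap φ.hom := hle (by rw [hcl]; trivial)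
      exact h1
    obtain ⟨ψ, hψ⟩ := factor φ (sp Y y) (sp_inj Y y) hrange
    have := sp_dom Y y
    have : IsReduced (Spec (Y.presheaf.stalk y)) := inferInstance
    have e1 : Spec.map (sp Y y) ≫ Y.fromSpecStalk y ≫ f = Spec.map φ ≫ hV.fromSpec := by
      rw [Scheme.SpecMap_stalkSpecializes_fromSpecStalk_assoc, ← Scheme.SpecMap_stalkMap_fromSpecStalk,
        ← hV.fromSpecStalk_eq_fromSpecStalk hη, IsAffineOpen.fromSpecStalk, ← Spec.map_comp_assoc,
        Scheme.Hom.germ_stalkMap, hφ]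
    have e2 : Spec.map (sp Y y) ≫ Spec.map ψ ≫ hV.fromSpec = Spec.map φ ≫ hV.fromSpec := by
      rw [← Spec.map_comp_assoc, hψ]
    have hX : X₀.X.IsSeparated := by
      refine ⟨?_⟩
      rw [← terminal.comp_from X₀.f]
      infer_instance
    have e3 : Y.fromSpecStalk y ≫ f = Spec.map ψ ≫ hV.fromSpec :=
      ext_of_isDominant (Spec.map (sp Y y)) (e1.trans e2.symm)
    have e4 : (Y.fromSpecStalk y ≫ f) (IsLocalRing.closedPoint (Y.presheaf.stalk y)) = f y := by
      rw [Scheme.Hom.comp_apply, Scheme.fromSpecStalk_closedPoint]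
    rw [← e4, e3, Scheme.Hom.comp_apply]
    have h5 := hV.range_fromSpec
    have h6 : hV.fromSpec (Spec.map ψ (IsLocalRing.closedPoint (Y.presheaf.stalk y))) ∈ Set.range hV.fromSpec :=
      ⟨_, rfl⟩
    rw [h5] at h6
    exact h6
  · intro k _ X₀ V hV
    have h1 : (X₀.f.appLE ⊤ V le_top).hom.FiniteType :=
      LocallyOfFiniteType.finiteType_appLE X₀.f (isAffineOpen_top _) hV le_top
    have h2 : ((Scheme.ΓSpecIso (CommRingCat.of k)).inv ≫ X₀.f.appLE ⊤ V le_top).hom.FiniteType := by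
      rw [CommRingCat.hom_comp]
      refine h1.comp (RingHom.FiniteType.of_surjective _ ?_)
      exact ((Scheme.ΓSpecIso (CommRingCat.of k)).symm.commRingCatIsoToRingEquiv).surjective
    obtain ⟨c, hc⟩ : ∃ c : k →+* Γ(X₀.X, V), c = ((Scheme.ΓSpecIso (CommRingCat.of k)).inv ≫
      X₀.f.appLE ⊤ V le_top).hom := ⟨_, rfl⟩
    rw [← hc] at h2 ⊢
    algebraize [c]
    obtain ⟨S, hS⟩ := h2.out
    refine ⟨S, ?_⟩
    have h3 := Algebra.adjoin_eq_ring_closure (R := k) (S : Set Γ(X₀.X, V))
    rw [hS] at h3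
    exact h3.symm

end CUB


end

section

/-!
# QCV: kernels of `Qmap`
-/

set_option autoImplicit false

open Polynomial

namespace QCV

open CUB

/-- The kernel of `Qmap φ` for a surjective `φ` with kernel `(a)`. -/
lemma ker_Qmap {k T S : Type} [Field k] [CommRing T] [CommRing S] [Algebra k T] [Algebra k S]
    {g : T} {g' : S} (φ : T →ₐ[k] S) (h : φ g = g') (a : T)
    (hk : RingHom.ker φ.toRingHom = Ideal.span {a}) :
    RingHom.ker (Qmap φ h).toRingHom = Ideal.span {algebraMap T (Q T g) a} := by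
  apply le_antisymm
  · intro x hx
    obtain ⟨p, q, rfl⟩ := Q_span x
    have h1 : Qmap φ h (algebraMap T (Q T g) p + algebraMap T (Q T g) q * yy g) = 0 := hx
    rw [map_add, map_mul, Qmap_algebraMap, Qmap_algebraMap, Qmap_yy] at h1
    rcases subsingleton_or_nontrivial S with hS | hS
    · have h2 : ∀ t : T, t ∈ Ideal.span {a} := by
        intro t
        rw [← hk]
        exact Subsingleton.elim _ _
      have h3 : ∀ t : T, algebraMap T (Q T g) t ∈ Ideal.span {algebraMap T (Q T g) a} := by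
        intro t
        obtain ⟨c, hc⟩ := Ideal.mem_span_singleton.mp (h2 t)
        rw [hc, map_mul]
        exact Ideal.mul_mem_right _ _ (Ideal.subset_span rfl)
      exact add_mem (h3 _) (Ideal.mul_mem_right _ _ (h3 _))
    have h2 : φ p = 0 ∧ φ q = 0 := by
      have e1 : algebraMap S (Q S g') (φ p) + algebraMap S (Q S g') (φ q) * yy g' =
          AdjoinRoot.mk (asPoly g') (C (φ p) + C (φ q) * X) := by
        rw [map_add, map_mul]
        rfl
      rw [e1, AdjoinRoot.mk_eq_zero] at h1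
      have e2 : (C (φ p) + C (φ q) * X : S[X]) = 0 := by
        by_contra hne
        have hd := (asPoly_monic g').not_dvd_of_natDegree_lt hne ?_
        · exact hd h1
        · have h3 : (asPoly g').natDegree = 2 := by
            unfold asPoly
            compute_degree!
          rw [h3]
          refine lt_of_le_of_lt (natDegree_add_le _ _) ?_
          refine max_lt ?_ ?_
          · rw [natDegree_C]; omega
          · exact lt_of_le_of_lt (natDegree_C_mul_le _ _) (by
              refine lt_of_le_of_lt natDegree_X_le ?_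
              omega)
      constructor
      · simpa using congrArg (fun F => coeff F 0) e2
      · simpa using congrArg (fun F => coeff F 1) e2
    have h3 : ∀ t : T, φ t = 0 → algebraMap T (Q T g) t ∈ Ideal.span {algebraMap T (Q T g) a} := by
      intro t ht
      have h4 : t ∈ RingHom.ker φ.toRingHom := ht
      rw [hk] at h4
      obtain ⟨c, hc⟩ := Ideal.mem_span_singleton.mp h4
      rw [hc, map_mul]
      exact Ideal.mul_mem_right _ _ (Ideal.subset_span rfl)
    exact add_mem (h3 _ h2.1) (Ideal.mul_mem_right _ _ (h3 _ h2.2))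
  · rw [Ideal.span_singleton_le_iff_mem]
    change Qmap φ h (algebraMap T (Q T g) a) = 0
    rw [Qmap_algebraMap]
    have h1 : a ∈ RingHom.ker φ.toRingHom := by
      rw [hk]
      exact Ideal.subset_span rfl
    have h2 : φ a = 0 := h1
    rw [h2, map_zero]

end QCV


end

section

set_option autoImplicit false

open Polynomial

namespace QCV

open CUB

namespace VRQ

/-- A homomorphism isomorphic to a localisation away from an element is one. -/
lemma away_of_inv {A U V : Type} [CommRing A] [CommRing U] [CommRing V] (a : A) [Algebra A U]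
    [IsLocalization.Away a U] (g : A →+* V) (α : U →+* V) (β : V →+* U)
    (h1 : ∀ x, α (algebraMap A U x) = g x) (h2 : β.comp α = RingHom.id U)
    (h3 : α.comp β = RingHom.id V) : @IsLocalization.Away A _ a V _ g.toAlgebra := by
  let : Algebra A V := g.toAlgebra
  let e : U ≃+* V := RingEquiv.ofRingHom α β h3 h2
  let e' : U ≃ₐ[A] V := AlgEquiv.ofRingEquiv (f := e) h1
  exact IsLocalization.isLocalization_of_algEquiv (Submonoid.powers a) e'

/-- The localisations of two rings away from an element are isomorphic. -/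
lemma away_of_psi {k A B : Type} [Field k] [CommRing A] [Algebra k A] [CommRing B] [Algebra k B]
    (a : A) (φ : A →ₐ[k] B) (a' : B) (ha : φ a = a') (ψ : B →ₐ[k] Localization.Away a)
    (h1 : ∀ x, ψ (φ x) = algebraMap A _ x)
    (h2 : ∀ α : Localization.Away a →ₐ[k] Localization.Away a',
      (∀ x : A, α (algebraMap A _ x) = algebraMap B _ (φ x)) → α.comp ψ = awayHom k a') :
    @IsLocalization.Away A _ a (Localization.Away a') _
      ((awayHom k a').comp φ).toRingHom.toAlgebra := by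
  have hu : ∀ y : Submonoid.powers a, IsUnit (((awayHom k a').comp φ) y) := by
    rintro ⟨_, n, rfl⟩
    change IsUnit (algebraMap B (Localization.Away a') (φ (a ^ n)))
    rw [map_pow, ha, map_pow]
    exact (IsLocalization.Away.algebraMap_isUnit a').pow n
  let α : Localization.Away a →ₐ[k] Localization.Away a' :=
    IsLocalization.liftAlgHom (M := Submonoid.powers a) (f := (awayHom k a').comp φ) hu
  have hα : ∀ x : A, α (algebraMap A _ x) = algebraMap B _ (φ x) := fun x =>
    IsLocalization.lift_eq (M := Submonoid.powers a) (g := ((awayHom k a').comp φ).toRingHom) hu x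
  have hv : IsUnit (ψ.toRingHom a') := by
    change IsUnit (ψ a')
    rw [← ha, h1]
    exact IsLocalization.Away.algebraMap_isUnit a
  let β : Localization.Away a' →+* Localization.Away a := IsLocalization.Away.lift a' hv
  have hβ : ∀ x : B, β (algebraMap B _ x) = ψ x := fun x => IsLocalization.Away.lift_eq a' hv x
  refine away_of_inv a _ α.toRingHom β hα ?_ ?_
  · apply IsLocalization.ringHom_ext (Submonoid.powers a)
    ext x
    change β (α (algebraMap A _ x)) = algebraMap A _ x
    rw [hα, hβ, h1]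
  · apply IsLocalization.ringHom_ext (Submonoid.powers a')
    ext x
    change α (β (algebraMap B _ x)) = algebraMap B _ x
    rw [hβ]
    exact AlgHom.congr_fun (h2 α hα) x

section

variable {k : Type} [Field k]

/-- The homomorphism on a polynomial ring which is `θ` on the coefficients and maps the variables
to `s`. -/
noncomputable def mvs {σ R K : Type} [CommRing R] [CommRing K] [Algebra k R] [Algebra k K]
    (θ : R →ₐ[k] K) (s : σ → K) : MvPolynomial σ R →ₐ[k] K where
  toRingHom := MvPolynomial.eval₂Hom θ.toRingHom s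
  commutes' r := by
    have h : algebraMap k (MvPolynomial σ R) r = MvPolynomial.C (algebraMap k R r) := rfl
    rw [h]
    simp

@[simp] lemma mvs_C {σ R K : Type} [CommRing R] [CommRing K] [Algebra k R] [Algebra k K]
    (θ : R →ₐ[k] K) (s : σ → K) (r : R) : mvs θ s (MvPolynomial.C r) = θ r :=
  MvPolynomial.eval₂_C _ _ _

@[simp] lemma mvs_X {σ R K : Type} [CommRing R] [CommRing K] [Algebra k R] [Algebra k K]
    (θ : R →ₐ[k] K) (s : σ → K) (j : σ) : mvs θ s (MvPolynomial.X j) = s j :=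
  MvPolynomial.eval₂_X _ _ _

lemma mv_ext {σ R K : Type} [CommRing R] [CommRing K] [Algebra k R] [Algebra k K]
    {α β : MvPolynomial σ R →ₐ[k] K} (h1 : ∀ r, α (MvPolynomial.C r) = β (MvPolynomial.C r))
    (h2 : ∀ j, α (MvPolynomial.X j) = β (MvPolynomial.X j)) : α = β := by
  have h : α.toRingHom = β.toRingHom := MvPolynomial.ringHom_ext h1 h2
  exact AlgHom.ext fun x => RingHom.congr_fun h x

lemma pl_ext {R K : Type} [CommRing R] [CommRing K] [Algebra k R] [Algebra k K]
    {α β : R[X] →ₐ[k] K} (h1 : ∀ r, α (C r) = β (C r)) (h2 : α X = β X) : α = β := by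
  have h : α.toRingHom = β.toRingHom := Polynomial.ringHom_ext h1 h2
  exact AlgHom.ext fun x => RingHom.congr_fun h x

variable (k) in
/-- The inclusion of the coefficients. -/
noncomputable def mC (σ R : Type) [CommRing R] [Algebra k R] : R →ₐ[k] MvPolynomial σ R :=
  IsScalarTower.toAlgHom k R (MvPolynomial σ R)

@[simp] lemma mC_apply {σ R : Type} [CommRing R] [Algebra k R] (r : R) :
    mC k σ R r = MvPolynomial.C r := rfl

end

section

variable {k S : Type} [Field k] [CommRing S] [Algebra k S] {r : ℕ} (f : Fin (r + 1) → S)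

/-- `t_0 ↦ 0`, `t_(j+1) ↦ t_j`. -/
noncomputable def p0 : MvPolynomial (Fin (r + 1)) S →ₐ[k] MvPolynomial (Fin r) S :=
  mvs (mC k (Fin r) S) (Fin.cons 0 MvPolynomial.X : Fin (r + 1) → MvPolynomial (Fin r) S)

/-- `t_(j+1) ↤ t_j`. -/
noncomputable def i0 : MvPolynomial (Fin r) S →ₐ[k] MvPolynomial (Fin (r + 1)) S :=
  mvs (mC k (Fin (r + 1)) S) (fun j => MvPolynomial.X j.succ)

lemma p0_i0 : (p0 (k := k)).comp (i0 (r := r)) = AlgHom.id k (MvPolynomial (Fin r) S) := by
  apply mv_ext
  · intro s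
    simp [p0, i0]
  · intro j
    simp [p0, i0]

lemma ker_p0 : RingHom.ker (p0 (k := k) (S := S) (r := r)).toRingHom =
    Ideal.span {(MvPolynomial.X 0 : MvPolynomial (Fin (r + 1)) S)} := by
  apply le_antisymm
  · intro x hx
    let I : Ideal (MvPolynomial (Fin (r + 1)) S) := Ideal.span {MvPolynomial.X 0}
    have h1 : Ideal.Quotient.mkₐ k I = ((Ideal.Quotient.mkₐ k I).comp (i0 (r := r))).comp p0 := by
      apply mv_ext
      · intro s
        simp [p0, i0]
      · intro j
        refine Fin.cases ?_ (fun j => ?_) j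
        · have h2 : Ideal.Quotient.mkₐ k I (MvPolynomial.X 0) = 0 :=
            Ideal.Quotient.eq_zero_iff_mem.mpr (Ideal.subset_span rfl)
          rw [h2]
          simp [p0]
        · simp [p0, i0]
    have h2 := AlgHom.congr_fun h1 x
    have h3 : p0 (k := k) x = 0 := hx
    rw [AlgHom.comp_apply, h3, map_zero] at h2
    exact Ideal.Quotient.eq_zero_iff_mem.mp h2
  · rw [Ideal.span_singleton_le_iff_mem]
    change p0 (k := k) (MvPolynomial.X 0) = 0
    simp [p0]

lemma p0_surjective : Function.Surjective (p0 (k := k) (S := S) (r := r)) := fun x =>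
  ⟨i0 x, AlgHom.congr_fun p0_i0 x⟩

lemma p0_lin : p0 (k := k) (lin f) = lin (fun j : Fin r => f j.succ) := by
  simp [lin, p0, Fin.sum_univ_succ]

/-- `t_0 ↦ X`, `t_(j+1) ↦ X s_j`. -/
noncomputable def q0 : MvPolynomial (Fin (r + 1)) S →ₐ[k] (MvPolynomial (Fin r) S)[X] :=
  mvs ((CC k (MvPolynomial (Fin r) S)).comp (mC k (Fin r) S))
    (Fin.cons X (fun j => X * C (MvPolynomial.X j)))

lemma q0_C (s : S) : q0 (k := k) (r := r) (MvPolynomial.C s) = C (MvPolynomial.C s) := by
  simp [q0]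

lemma q0_X0 : q0 (k := k) (r := r) (S := S) (MvPolynomial.X 0) = X := by
  simp [q0]

lemma q0_Xs (j : Fin r) : q0 (k := k) (S := S) (MvPolynomial.X j.succ) =
    X * C (MvPolynomial.X j) := by
  simp [q0]

lemma q0_lin : q0 (k := k) (lin f) = X * C (fs f) := by
  have h1 : lin f = MvPolynomial.X 0 * MvPolynomial.C (f 0) +
      ∑ j : Fin r, MvPolynomial.X j.succ * MvPolynomial.C (f j.succ) := by
    rw [lin, Fin.sum_univ_succ]
  have h2 : (C (fs f) : (MvPolynomial (Fin r) S)[X]) = C (MvPolynomial.C (f 0)) +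
      ∑ j : Fin r, C (MvPolynomial.X j) * C (MvPolynomial.C (f j.succ)) := by
    rw [fs, C_add, map_sum]
    congr 1
    refine Finset.sum_congr rfl fun j _ => ?_
    rw [C_mul]
  rw [h1, h2, map_add, map_mul, map_sum, q0_X0, q0_C, mul_add, Finset.mul_sum]
  congr 1
  refine Finset.sum_congr rfl fun j _ => ?_
  rw [map_mul, q0_Xs, q0_C, mul_assoc]

variable (k) in
/-- The homomorphism from the base to the localisation. -/
noncomputable def bs : MvPolynomial (Fin (r + 1)) S →ₐ[k] Localization.Away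
    (algebraMap (MvPolynomial (Fin (r + 1)) S) (VR S f) (MvPolynomial.X 0)) :=
  (awayHom k _).comp (Qbase (lin f))

/-- The inverse of `t_0`. -/
noncomputable def iv : Localization.Away
    (algebraMap (MvPolynomial (Fin (r + 1)) S) (VR S f) (MvPolynomial.X 0)) :=
  IsLocalization.Away.invSelf (R := VR S f) (algebraMap (MvPolynomial (Fin (r + 1)) S) (VR S f)
    (MvPolynomial.X 0))

lemma bs_iv : bs k f (MvPolynomial.X 0) * iv f = 1 :=
  IsLocalization.Away.mul_invSelf (R := VR S f) (S := Localization.Away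
    (algebraMap (MvPolynomial (Fin (r + 1)) S) (VR S f) (MvPolynomial.X 0)))
    (algebraMap (MvPolynomial (Fin (r + 1)) S) (VR S f) (MvPolynomial.X 0))

variable (k) in
/-- `s_j ↦ t_(j+1) / t_0`. -/
noncomputable def th : MvPolynomial (Fin r) S →ₐ[k] Localization.Away
    (algebraMap (MvPolynomial (Fin (r + 1)) S) (VR S f) (MvPolynomial.X 0)) :=
  mvs ((bs k f).comp (mC k (Fin (r + 1)) S)) (fun j => bs k f (MvPolynomial.X j.succ) * iv f)

lemma th_C (s : S) : th k f (MvPolynomial.C s) = bs k f (MvPolynomial.C s) := mvs_C _ _ _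

lemma th_X (j : Fin r) : th k f (MvPolynomial.X j) = bs k f (MvPolynomial.X j.succ) * iv f :=
  mvs_X _ _ _

variable (k) in
/-- `X ↦ t_0`. -/
noncomputable def ps : (MvPolynomial (Fin r) S)[X] →ₐ[k] Localization.Away
    (algebraMap (MvPolynomial (Fin (r + 1)) S) (VR S f) (MvPolynomial.X 0)) :=
  evs (th k f) (bs k f (MvPolynomial.X 0))

lemma ps_C (p : MvPolynomial (Fin r) S) : ps k f (C p) = th k f p := evs_C _ _ _

lemma ps_X : ps k f X = bs k f (MvPolynomial.X 0) := evs_X _ _

lemma ps_q0 : (ps k f).comp q0 = bs k f := by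
  apply mv_ext
  · intro s
    rw [AlgHom.comp_apply, q0_C, ps_C, th_C]
  · intro j
    refine Fin.cases ?_ (fun j => ?_) j
    · rw [AlgHom.comp_apply, q0_X0, ps_X]
    · rw [AlgHom.comp_apply, q0_Xs, map_mul, ps_X, ps_C, th_X, mul_left_comm, bs_iv, mul_one]

variable (k) in
/-- The homomorphism in the other direction. -/
noncomputable def psi : Q (MvPolynomial (Fin r) S)[X] (X * C (fs f)) →ₐ[k] Localization.Away
    (algebraMap (MvPolynomial (Fin (r + 1)) S) (VR S f) (MvPolynomial.X 0)) :=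
  Qlift (ps k f) (awayHom k _ (yy (lin f))) (by
    rw [← q0_lin (k := k) f, ← AlgHom.comp_apply, ps_q0, ← map_pow, ← map_sub]
    change _ = awayHom k _ (algebraMap _ _ (lin f))
    congr 1
    have h := yy_eq (lin f)
    linear_combination h)

lemma psi_comp : (psi k f).comp (Qmap q0 (q0_lin f)) = awayHom k _ := by
  apply Q_ext
  · intro t
    rw [AlgHom.comp_apply, Qmap_algebraMap, psi, Qlift_algebraMap, ← AlgHom.comp_apply, ps_q0]
    rfl
  · rw [AlgHom.comp_apply, Qmap_yy, psi, Qlift_yy]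

end

end VRQ

open _root_.QCV.VRQ in
theorem t_VRQ : S_VRQ := by
  intro k S _ _ _ r f
  let φ : VR S f →ₐ[k] Q (MvPolynomial (Fin r) S)[X] (X * C (fs f)) := Qmap q0 (q0_lin f)
  let a' : Q (MvPolynomial (Fin r) S)[X] (X * C (fs f)) :=
    algebraMap (MvPolynomial (Fin r) S)[X] (Q (MvPolynomial (Fin r) S)[X] (X * C (fs f))) X
  have ha : φ (algebraMap (MvPolynomial (Fin (r + 1)) S) (VR S f) (MvPolynomial.X 0)) = a' := by
    change Qmap q0 (q0_lin f) _ = _
    rw [Qmap_algebraMap, q0_X0]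
  refine ⟨Qmap p0 (p0_lin f), (awayHom k a').comp φ, Qmap_surjective _ _ p0_surjective,
    ker_Qmap _ _ _ ker_p0, ?_⟩
  refine away_of_psi _ φ a' ha (psi k f) (fun x => AlgHom.congr_fun (psi_comp f) x) ?_
  intro α hα
  let bB : (MvPolynomial (Fin r) S)[X] →ₐ[k] Localization.Away a' :=
    (awayHom k a').comp (Qbase _)
  have hbs : ∀ x : MvPolynomial (Fin (r + 1)) S, α (bs k f x) = bB (q0 (k := k) x) := by
    intro x
    have h1 := hα (algebraMap _ _ x)
    have h2 : φ (algebraMap _ _ x) = algebraMap _ _ (q0 (k := k) x) := Qmap_algebraMap _ _ _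
    rw [h2] at h1
    exact h1
  have hiv : ∀ x : MvPolynomial (Fin r) S, bB (X * C x) * α (iv f) = bB (C x) := by
    intro x
    have h1 := congrArg α (bs_iv (k := k) f)
    rw [map_mul, hbs, q0_X0, map_one] at h1
    rw [map_mul, mul_right_comm, h1, one_mul]
  apply Q_ext
  · intro t
    rw [AlgHom.comp_apply, psi, Qlift_algebraMap]
    have h1 : α.comp (ps k f) = bB := by
      apply pl_ext
      · intro p
        rw [AlgHom.comp_apply, ps_C]
        have h2 : α.comp (th k f) = bB.comp (CC k _) := by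
          apply mv_ext
          · intro s
            rw [AlgHom.comp_apply, th_C, hbs, q0_C]
            rfl
          · intro j
            rw [AlgHom.comp_apply, th_X, map_mul, hbs, q0_Xs, hiv]
            rfl
        exact AlgHom.congr_fun h2 p
      · rw [AlgHom.comp_apply, ps_X, hbs, q0_X0]
    exact AlgHom.congr_fun h1 t
  · rw [AlgHom.comp_apply, psi, Qlift_yy]
    have h1 := hα (yy (lin f))
    have h2 : φ (yy (lin f)) = yy _ := Qmap_yy _ _
    rw [h2] at h1
    exact h1

end QCV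


end

section

set_option autoImplicit false

open Polynomial

namespace QCV

open CUB VRQ

theorem t_LNR : S_LNR := by
  intro k S U _ _ _ _ _ g h u hu
  let I : Ideal S := Ideal.span {g, h}
  let J : Ideal S[X] := Ideal.span {C g * X + C h}
  let mk : S[X] →ₐ[k] S[X] ⧸ J := Ideal.Quotient.mkₐ k J
  have hmk : Function.Surjective mk := Ideal.Quotient.mkₐ_surjective k J
  have hrel : mk (C g) * mk X + mk (C h) = 0 := by
    rw [← map_mul, ← map_add]
    exact Ideal.Quotient.eq_zero_iff_mem.mpr (Ideal.subset_span rfl)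
  -- the closed part
  have hg0 : Ideal.Quotient.mkₐ k I g = 0 :=
    Ideal.Quotient.eq_zero_iff_mem.mpr (Ideal.subset_span (Or.inl rfl))
  have hh0 : Ideal.Quotient.mkₐ k I h = 0 :=
    Ideal.Quotient.eq_zero_iff_mem.mpr (Ideal.subset_span (Or.inr rfl))
  have hmC : ∀ s, mapX (Ideal.Quotient.mkₐ k I) (C s) = C (Ideal.Quotient.mkₐ k I s) :=
    fun s => Polynomial.map_C _
  have hz0 : ∀ a ∈ J, mapX (Ideal.Quotient.mkₐ k I) a = 0 := by
    intro a ha
    obtain ⟨c, rfl⟩ := Ideal.mem_span_singleton.mp ha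
    rw [map_mul, map_add, map_mul, hmC, hmC, hg0, hh0, C_0, zero_mul, add_zero, zero_mul]
  let z' : (S[X] ⧸ J) →ₐ[k] (S ⧸ I)[X] := Ideal.Quotient.liftₐ J (mapX (Ideal.Quotient.mkₐ k I)) hz0
  have hz' : ∀ p, z' (mk p) = mapX (Ideal.Quotient.mkₐ k I) p := fun p => rfl
  have hzs : Function.Surjective z' := by
    intro x
    obtain ⟨p, hp⟩ := mapX_surjective _ (Ideal.Quotient.mkₐ_surjective k I) x
    exact ⟨mk p, hp⟩
  have hzk : RingHom.ker z'.toRingHom = Ideal.span {mk (C g)} := by
    apply le_antisymm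
    · intro x hx
      obtain ⟨p, rfl⟩ := hmk x
      have h1 : p ∈ RingHom.ker (mapRingHom (Ideal.Quotient.mk I)) := hx
      rw [Polynomial.ker_mapRingHom, Ideal.mk_ker, Ideal.map_span, Set.image_pair,
        Ideal.mem_span_pair] at h1
      obtain ⟨a, b, rfl⟩ := h1
      have h2 : mk (C h) = - (mk (C g) * mk X) := by
        rw [eq_neg_iff_add_eq_zero, add_comm]
        exact hrel
      rw [map_add, map_mul, map_mul, h2, Ideal.mem_span_singleton]
      exact ⟨mk a - mk b * mk X, by ring⟩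
    · rw [Ideal.span_singleton_le_iff_mem]
      change z' (mk (C g)) = 0
      rw [hz', hmC, hg0, C_0]
  -- the open part
  let _ : Algebra S U := u.toRingHom.toAlgebra
  have hst : IsScalarTower k S U := IsScalarTower.of_algebraMap_eq' u.comp_algebraMap.symm
  have hu' : IsLocalization.Away g U := hu
  let iv : U := IsLocalization.Away.invSelf (R := S) g
  have hiv : u g * iv = 1 := IsLocalization.Away.mul_invSelf (R := S) g
  have hu0 : ∀ a ∈ J, evs u (-(u h * iv)) a = 0 := by
    intro a ha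
    obtain ⟨c, rfl⟩ := Ideal.mem_span_singleton.mp ha
    rw [map_mul, map_add, map_mul, evs_C, evs_C, evs_X]
    have h1 : u g * -(u h * iv) + u h = 0 := by linear_combination (- u h) * hiv
    rw [h1, zero_mul]
  let u' : (S[X] ⧸ J) →ₐ[k] U := Ideal.Quotient.liftₐ J (evs u (-(u h * iv))) hu0
  have hu'C : ∀ s, u' (mk (C s)) = u s := fun s => evs_C _ _ _
  have hu'X : u' (mk X) = -(u h * iv) := evs_X _ _
  refine ⟨z', u', hzs, hzk, ?_⟩
  let a : S[X] ⧸ J := mk (C g)
  let aw : (S[X] ⧸ J) →ₐ[k] Localization.Away a := awayHom k a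
  let ba : S →ₐ[k] Localization.Away a := (aw.comp mk).comp (CC k S)
  have hau : IsUnit (ba g) := IsLocalization.Away.algebraMap_isUnit a
  have hyu : ∀ y : Submonoid.powers g, IsUnit (ba y) := by
    rintro ⟨_, n, rfl⟩
    change IsUnit (ba (g ^ n))
    rw [map_pow]
    exact hau.pow n
  let β : U →ₐ[k] Localization.Away a :=
    IsLocalization.liftAlgHom (M := Submonoid.powers g) (f := ba) hyu
  have hβ : ∀ x : S, β (u x) = ba x := fun x =>
    IsLocalization.lift_eq (M := Submonoid.powers g) (g := ba.toRingHom) hyu x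
  have hua : IsUnit (u'.toRingHom a) := by
    change IsUnit (u' (mk (C g)))
    rw [hu'C]
    exact IsUnit.of_mul_eq_one iv hiv
  let α : Localization.Away a →+* U := IsLocalization.Away.lift a hua
  have hα : ∀ x, α (algebraMap (S[X] ⧸ J) _ x) = u' x := fun x => IsLocalization.Away.lift_eq a hua x
  have h0 : (β.comp u').comp mk = aw.comp mk := by
    apply pl_ext
    · intro x
      change β (u' (mk (C x))) = aw (mk (C x))
      rw [hu'C, hβ]
      rfl
    · change β (u' (mk X)) = aw (mk X)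
      have h2 : aw (mk (C g)) * β iv = 1 := by
        have h3 : aw (mk (C g)) = β (u g) := (hβ g).symm
        rw [h3, ← map_mul, hiv, map_one]
      have h4 : β (u h) = aw (mk (C h)) := hβ h
      have h5 := congrArg aw hrel
      rw [map_add, map_mul, map_zero] at h5
      rw [hu'X, map_neg, map_mul, h4]
      linear_combination (-β iv) * h5 + aw (mk X) * h2
  refine away_of_inv a _ α β.toRingHom hα ?_ ?_
  · apply IsLocalization.ringHom_ext (Submonoid.powers a)
    refine RingHom.ext fun x => ?_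
    obtain ⟨p, rfl⟩ := hmk x
    change β (α (algebraMap (S[X] ⧸ J) _ (mk p))) = algebraMap (S[X] ⧸ J) _ (mk p)
    rw [hα]
    exact AlgHom.congr_fun h0 p
  · apply IsLocalization.ringHom_ext (Submonoid.powers g)
    refine RingHom.ext fun x => ?_
    change α (β (u x)) = u x
    rw [hβ]
    exact (hα _).trans (hu'C x)

end QCV


end

section

set_option autoImplicit false

open Polynomial

namespace QCV

open CUB

theorem t_V1P : M_V1P := by
  intro hPRD hV1R k _ P hP hl A _ _ _ F hA hZ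
  have h3 : P (Localization.Away F) := by
    refine hP.opn F (Ideal.Quotient.mkₐ k (Ideal.span {F})) (awayHom k F) ⟨?_, ?_, ?_⟩ hA hZ
    · exact Ideal.Quotient.mkₐ_surjective k _
    · exact Ideal.mk_ker
    · exact isLocalization_awayHom F
  obtain ⟨z', u', hs⟩ := hV1R k A (Localization.Away F) F (awayHom k F)
    (isLocalization_awayHom F)
  have hV : P (Q A[X] (X * C F)) :=
    hP.glue _ z' u' hs (hPRD k P hP _ (hl _ hZ)) (hl _ h3)
  -- the quotient by `t`
  have e0 : evs (AlgHom.id k A) (0 : A) (X * C F) = 0 := by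
    rw [map_mul, evs_X, zero_mul]
  let z : Q A[X] (X * C F) →ₐ[k] Q A 0 := Qmap (evs (AlgHom.id k A) (0 : A)) e0
  have hker : RingHom.ker (evs (AlgHom.id k A) (0 : A)).toRingHom = Ideal.span {(X : A[X])} := by
    have h1 : (evs (AlgHom.id k A) (0 : A)).toRingHom = evalRingHom (0 : A) := by
      apply Polynomial.ringHom_ext
      · intro a
        have := evs_C (AlgHom.id k A) (0 : A) a
        simpa using this
      · have := evs_X (AlgHom.id k A) (0 : A)
        simpa using this
    rw [h1, Polynomial.ker_evalRingHom]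
    simp
  refine hP.opn (algebraMap A[X] (Q A[X] (X * C F)) X) z
    (awayHom k (algebraMap A[X] (Q A[X] (X * C F)) X)) ⟨?_, ?_, ?_⟩ hV (hPRD k P hP A hA)
  · refine Qmap_surjective _ _ ?_
    intro a
    exact ⟨C a, evs_C _ _ _⟩
  · exact ker_Qmap _ _ X hker
  · exact isLocalization_awayHom _

end QCV


end

section

set_option autoImplicit false

open Polynomial

namespace QCV

open CUB VRQ

namespace V1R

section

variable {k A U : Type} [Field k] [CommRing A] [Algebra k A] [CommRing U] [Algebra k U] (F : A)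
  (u : A →ₐ[k] U) (iv : U) (hiv : u F * iv = 1)

/-- `t ↦ (y ^ 2 - y) / F`. -/
noncomputable def u0 : A[X] →ₐ[k] U[X] := evs ((CC k U).comp u) ((X ^ 2 - X) * C iv)

lemma u0_C (a : A) : u0 u iv (C a) = C (u a) := evs_C _ _ _

lemma u0_X : u0 u iv X = (X ^ 2 - X) * C iv := evs_X _ _

include hiv in
lemma u0_XF : u0 u iv (X * C F) = X ^ 2 - X := by
  rw [map_mul, u0_C, u0_X, mul_assoc, ← C_mul, mul_comm iv, hiv, C_1, mul_one]

/-- `y ↦ X`. -/
noncomputable def u1 : Q A[X] (X * C F) →ₐ[k] U[X] := Qlift (u0 u iv) X (u0_XF F u iv hiv).symm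

lemma u1_base (p : A[X]) : u1 F u iv hiv (algebraMap _ _ p) = u0 u iv p := Qlift_algebraMap _ _ _ _

lemma u1_yy : u1 F u iv hiv (yy _) = X := Qlift_yy _ _ _

end

end V1R

open _root_.QCV.V1R in
theorem t_V1R : S_V1R := by
  intro k A U _ _ _ _ _ F u hu
  let I : Ideal A := Ideal.span {F}
  have e0 : mapX (Ideal.Quotient.mkₐ k I) (X * C F) = 0 := by
    have h1 : Ideal.Quotient.mkₐ k I F = 0 :=
      Ideal.Quotient.eq_zero_iff_mem.mpr (Ideal.subset_span rfl)
    rw [map_mul]
    have h2 : mapX (Ideal.Quotient.mkₐ k I) (C F) = C (Ideal.Quotient.mkₐ k I F) :=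
      Polynomial.map_C _
    rw [h2, h1, C_0, mul_zero]
  have hker : RingHom.ker (mapX (Ideal.Quotient.mkₐ k I)).toRingHom = Ideal.span {(C F : A[X])} := by
    have h1 : (mapX (Ideal.Quotient.mkₐ k I)).toRingHom = mapRingHom (Ideal.Quotient.mk I) := rfl
    rw [h1, Polynomial.ker_mapRingHom, Ideal.mk_ker, Ideal.map_span, Set.image_singleton]
  let _ : Algebra A U := u.toRingHom.toAlgebra
  have hst : IsScalarTower k A U := IsScalarTower.of_algebraMap_eq' u.comp_algebraMap.symm
  have hu' : IsLocalization.Away F U := hu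
  let iv : U := IsLocalization.Away.invSelf (R := A) F
  have hiv : u F * iv = 1 := IsLocalization.Away.mul_invSelf (R := A) F
  refine ⟨Qmap (mapX (Ideal.Quotient.mkₐ k I)) e0, u1 F u iv hiv,
    Qmap_surjective _ _ (mapX_surjective _ (Ideal.Quotient.mkₐ_surjective k I)),
    ker_Qmap _ _ _ hker, ?_⟩
  let V := Q A[X] (X * C F)
  let a : V := algebraMap A[X] V (C F)
  let aw : V →ₐ[k] Localization.Away a := awayHom k a
  let ba : A[X] →ₐ[k] Localization.Away a := aw.comp (Qbase _)
  have hau : IsUnit (ba (C F)) := IsLocalization.Away.algebraMap_isUnit a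
  -- the homomorphism `U → V_F`
  have hyu : ∀ y : Submonoid.powers F, IsUnit ((ba.comp (CC k A)) y) := by
    rintro ⟨_, n, rfl⟩
    change IsUnit (ba (C (F ^ n)))
    rw [C_pow, map_pow]
    exact hau.pow n
  let bU : U →ₐ[k] Localization.Away a :=
    IsLocalization.liftAlgHom (M := Submonoid.powers F) (f := ba.comp (CC k A)) hyu
  have hbU : ∀ x : A, bU (u x) = ba (C x) := fun x =>
    IsLocalization.lift_eq (M := Submonoid.powers F) (g := (ba.comp (CC k A)).toRingHom) hyu x
  let β : U[X] →ₐ[k] Localization.Away a := evs bU (aw (yy _))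
  have hβC : ∀ x, β (C x) = bU x := fun x => evs_C _ _ _
  have hβX : β X = aw (yy _) := evs_X _ _
  -- the homomorphism `V_F → U[X]`
  have hua : IsUnit ((u1 F u iv hiv).toRingHom a) := by
    change IsUnit (u1 F u iv hiv (algebraMap _ _ (C F)))
    rw [u1_base, u0_C]
    exact (IsUnit.of_mul_eq_one iv hiv).map C
  let α : Localization.Away a →+* U[X] := IsLocalization.Away.lift a hua
  have hα : ∀ x, α (algebraMap V _ x) = u1 F u iv hiv x := fun x => IsLocalization.Away.lift_eq a hua x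
  have h0 : β.comp (u1 F u iv hiv) = aw := by
    apply Q_ext
    · intro p
      rw [AlgHom.comp_apply, u1_base]
      have h1 : β.comp (u0 u iv) = ba := by
        apply pl_ext
        · intro x
          rw [AlgHom.comp_apply, u0_C, hβC, hbU]
        · have h2 : ba (C F) * bU iv = 1 := by
            rw [← hbU, ← map_mul, hiv, map_one]
          have h3 : aw (yy (X * C F)) ^ 2 - aw (yy (X * C F)) = ba X * ba (C F) := by
            rw [← map_pow, ← map_sub, ← map_mul]
            change _ = aw (algebraMap _ _ (X * C F))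
            congr 1
            have h := yy_eq (X * C F)
            linear_combination h
          rw [AlgHom.comp_apply, u0_X, map_mul, map_sub, map_pow, hβX, hβC, h3, mul_assoc, h2,
            mul_one]
      exact AlgHom.congr_fun h1 p
    · rw [AlgHom.comp_apply, u1_yy, hβX]
  refine away_of_inv a _ α β.toRingHom hα ?_ ?_
  · apply IsLocalization.ringHom_ext (Submonoid.powers a)
    refine RingHom.ext fun x => ?_
    change β (α (algebraMap V _ x)) = algebraMap V _ x
    rw [hα]
    exact AlgHom.congr_fun h0 x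
  · apply Polynomial.ringHom_ext
    · intro c
      change α (β (C c)) = C c
      rw [hβC]
      have h1 : α.comp bU.toRingHom = (C : U →+* U[X]) := by
        apply IsLocalization.ringHom_ext (Submonoid.powers F)
        ext1 x
        change α (bU (u x)) = C (u x)
        rw [hbU]
        have h2 := hα (algebraMap _ _ (C x))
        rw [u1_base, u0_C] at h2
        exact h2
      exact RingHom.congr_fun h1 c
    · change α (β X) = X
      rw [hβX]
      exact (hα _).trans (u1_yy F u iv hiv)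

end QCV


end
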