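import Mathlib
import Pool.Agent.QVM.C11
import Pool.Agent.QVM.C12
import Pool.Agent.QVM.C18
import Pool.Agent.QVM.C21

/-! Parts: CUB2.StmtsL, CUB2.StmtsK, CUB2.K_CHA, CUB2.StmtsF, CUB2.F_CHN, CUB2.K_DVC, CUB2.K_FOV, CUB2.F_IND, CUB2.L_LSUM, CUB2.L_LSUQ, CUB2.L_NPU, CUB2.H_PULLP, CUB2.K_PUSHD, CUB2.K_PUSHG, CUB2.K_RDG, CUB2.G_SEC, QCV.R_DLM, QCV.R_IGE, QCV.D_DFX -/

section

/-!
# CUB2, block L: rings (statements)

Module `X` proves `theorem t_X : M_X` (or `t_X : S_X` if there is no `M_X`) in the namespace `CUB`, in the file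
`Pool/Agent/CUB2/L_X.lean`, importing this file.  The hypotheses of `M_X` are statements of other modules, of this file or of the finished project CUB
(`Pool/Agent/CUB/StmtsA.lean`, `StmtsR.lean`; the proofs are in `Pool/Agent/CUB/A_*.lean`, `R_*.lean` and may be imported and used directly instead).
`len I p` is the length of `A_p / I A_p` (`CUB/Defs.lean`), `RP k A n` the primes of dimension `n`, `IsDv k E q a c`: `c` is the divisor of `a` on `V(q)`, `lC C M` the length of the `C`-module `M`
as a natural number, `HH A` the primes which are neither zero nor maximal.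
-/

set_option autoImplicit false

open Polynomial

namespace CUB

/-- The degree of the residue field of `P` over the residue field of its preimage. -/
noncomputable def rdeg {A B : Type} [CommRing A] [CommRing B] (φ : A →+* B)
    (P : PrimeSpectrum B) : ℕ :=
  @Module.finrank (PrimeSpectrum.comap φ P).asIdeal.ResidueField P.asIdeal.ResidueField _ _
    (Ideal.ResidueField.map (PrimeSpectrum.comap φ P).asIdeal P.asIdeal φ rfl).toAlgebra.toModule

/-- SYM. The symmetric formula: `C` a Noetherian local domain of dimension at most two, `x, y` nonzero without a common prime of height one. This is S_DISJ (`CUB/StmtsR`, proof in `CUB/R_DISJ.lean`) for `A = C`, without normality: S_DEV for `M = C / x`, the element `y`, and `S` the primes in `HH C` containing `x`; the same with `x` and `y` exchanged; S_KOS. The facts of S_HHA for `A = C`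
(they do not use normality) are elementary: `p ∈ HH C` has height one; finitely many contain `x ≠ 0` (minimal primes over `(x)`); `C / (p + y)` has finite length for `y ∉ p` (only the maximal ideal in its support). -/
def S_SYM : Prop := ∀ (C : Type) [CommRing C] [IsDomain C] [IsLocalRing C] [IsNoetherianRing C],
  (∀ P P' : Ideal C, P.IsPrime → P'.IsPrime → P ≠ ⊥ → P < P' → P' = IsLocalRing.maximalIdeal C) →
  ∀ x y : C, x ≠ 0 → y ≠ 0 → (∀ p ∈ HH C, x ∈ p.asIdeal → y ∉ p.asIdeal) →
  ∀ W : Finset (PrimeSpectrum C), (∀ p ∈ W, p ∈ HH C) →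
  (∀ p ∈ HH C, x ∈ p.asIdeal ∨ y ∈ p.asIdeal → p ∈ W) →
  ∑ p ∈ W, len (Ideal.span {x}) p * lC C (C ⧸ (p.asIdeal ⊔ Ideal.span {y})) =
    ∑ p ∈ W, len (Ideal.span {y}) p * lC C (C ⧸ (p.asIdeal ⊔ Ideal.span {x}))

def M_SYM : Prop := S_DEV → S_KOS → S_SYM

/-- SYMA. The symmetric formula on an algebra of finite type. `c = div_q x`, `d = div_q y`, `g P = div_P y` for `P` in the support of `c`, `h T = div_T x` for `T` in the support of `d`. Evaluate at a prime `m` of dimension `n`. If `q ⊄ m` both sides are zero (S_LENC (2)). Otherwise let `C = (A / q)_m`: a Noetherian local domain; a prime strictly between `q` and `m` has dimension `n + 1` (S_DIM1), which gives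
the condition on dimensions. `z ↦ z C` is a bijection from the primes `z` of dimension `n + 1` with `q ≤ z ≤ m` to `HH C`; `len (q ⊔ x) z = len (x) (z C)` and `len (z ⊔ y) m = lC C (C / (z C + y))` (see the proof of GREC in `CUB/StmtsR`, file `CUB/R_GREC.lean`). There is no common prime: if `x, y ∈ z`, `q ≤ z`, `dim z = n + 1` then `c z ≠ 0` (S_LENC (3), characteristic zero) and `y ∉ z` by
hypothesis. Apply S_SYM. -/
def S_SYMA : Prop := ∀ (k A E : Type) [Field k] [CommRing A] [Algebra k A]
  [Algebra.FiniteType k A] [Field E] [CharZero E] (n : ℕ) (q : RP k A (n + 1 + 1)) (x y : A)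
  (c d : RP k A (n + 1) →₀ E) (g h : RP k A (n + 1) → (RP k A n →₀ E)), x ∉ q.1.asIdeal →
  y ∉ q.1.asIdeal → IsDv k E q.1 x c → IsDv k E q.1 y d →
  (∀ P, c P ≠ 0 → y ∉ P.1.asIdeal ∧ IsDv k E P.1 y (g P)) →
  (∀ P, d P ≠ 0 → x ∉ P.1.asIdeal ∧ IsDv k E P.1 x (h P)) →
  c.sum (fun P e => e • g P) = d.sum (fun P e => e • h P)

def M_SYMA : Prop := S_DIM1 → S_LENA → S_LENB → S_LENC → S_SYM → S_SYMA

/-- LSUM. Lengths over a finite extension. `D` is finite over the Noetherian ring `B`, `M` a finitely generated `D`-module such that `M_p` has finite length over `B_p`. Then `length_(B_p) M_p = ∑_(P over p) [κ(P) : κ(p)] length_(D_P) M_P`. Dévissage (`IsNoetherianRing.induction_on_isQuotientEquivQuotientPrime` or as in `CUB/A_HER.lean`, `CUB/R_DEV.lean`): both sides are additive in short exact sequences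
(localisation is exact). For `M = D / Q`, `Q` a prime of `D`, `q = Q ∩ B`: if `q ⊄ p` both sides vanish. If `q < p` then `M_p` contains `B_p / q B_p`, a domain which is not a field, so it does not have finite length. If `q = p`: `M_p` is `κ(Q)` (`D / Q` is finite over the domain `B / q`), of length `[κ(Q) : κ(p)]`, and `M_P = 0` for `P ≠ Q` over `p` (incomparability), `M_Q = κ(Q)` has length one. -/
def S_LSUM : Prop := ∀ (B D : Type) [CommRing B] [IsNoetherianRing B] [CommRing D] [Algebra B D]
  [Module.Finite B D] (p : PrimeSpectrum B) (S : Finset (PrimeSpectrum D)),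
  (∀ P, P ∈ S ↔ PrimeSpectrum.comap (algebraMap B D) P = p) →
  ∀ (M : Type) [AddCommGroup M] [Module D M] [Module B M] [IsScalarTower B D M]
    [Module.Finite D M],
  Module.length (Localization.AtPrime p.asIdeal) (LocalizedModule p.asIdeal.primeCompl M) ≠ ⊤ →
  Module.length (Localization.AtPrime p.asIdeal) (LocalizedModule p.asIdeal.primeCompl M) =
    ∑ P ∈ S, (rdeg (algebraMap B D) P : ℕ∞) * Module.length (Localization.AtPrime P.asIdeal)
      (LocalizedModule P.asIdeal.primeCompl M)

/-- LSUQ. The case `M = D / x`, in terms of `len`, for algebras of finite type: `D` finite over `B`, `x ∈ D`, and `D_p / x` of finite length over `B_p`. (`len (x) P` is the length of `D_P / x D_P`, the localisation of `D / x` at `P`; the localisation of the `B`-module `D / x` at `p` is the quotient of `D_p` by `x`.) -/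
def S_LSUQ : Prop := ∀ (B D : Type) [CommRing B] [IsNoetherianRing B] [CommRing D] [Algebra B D]
  [Module.Finite B D] (p : PrimeSpectrum B) (S : Finset (PrimeSpectrum D)) (I : Ideal D),
  (∀ P, P ∈ S ↔ PrimeSpectrum.comap (algebraMap B D) P = p) →
  Module.length (Localization.AtPrime p.asIdeal)
    (LocalizedModule p.asIdeal.primeCompl (D ⧸ I)) ≠ ⊤ →
  lC (Localization.AtPrime p.asIdeal) (LocalizedModule p.asIdeal.primeCompl (D ⧸ I)) =
    ∑ P ∈ S, rdeg (algebraMap B D) P * len I P

def M_LSUQ : Prop := S_LSUM → S_LSUQ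

/-- NPU. The divisor of the norm. `B ⊆ B₁` domains of finite type over `k`, `B₁` finite over `B`, `dim B = n + 1`, fraction fields `F ⊆ L`, `p` a prime of `B` of dimension `n`, `x ∈ B₁` with norm `b / c`. Localise at `p`: `C = B_p`, a Noetherian local domain of dimension one (a nonzero prime contained in `p` is `p` by S_DIM1), `C₁ = ` the localisation of `B₁` at the elements of `B ∖ p`, finite over `C`; S_NORM for `C`, `C₁`, `F`, `L`
(`C / x` has finite length for `x ≠ 0`: `isFiniteLength_quotient_span_singleton` or similar) gives `length_C (C₁ / x) + length_C (C / c) = length_C (C / b)`, and `length_C (C₁ / x) = ∑ rdeg P * len (x) P` by S_LSUQ (`C₁ / x` is the localisation of the `B`-module `B₁ / x` at `p`). -/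
def S_NPU : Prop := ∀ (k B B₁ F L : Type) [Field k] [CommRing B] [IsDomain B] [CommRing B₁]
  [IsDomain B₁] [Algebra k B] [Algebra k B₁] [Algebra.FiniteType k B] [Algebra.FiniteType k B₁]
  [Field F] [Field L] [Algebra B B₁] [IsScalarTower k B B₁] [Algebra B F] [Algebra B L]
  [Algebra B₁ L] [Algebra F L] [IsScalarTower B B₁ L] [IsScalarTower B F L]
  [IsFractionRing B F] [IsFractionRing B₁ L] [Module.Finite B B₁] [Module.Finite F L] (n : ℕ)
  (p : RP k B n) (S : Finset (RP k B₁ n)), Algebra.trdeg k B = (n + 1 : ℕ) →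
  (∀ P : RP k B₁ n, P ∈ S ↔ PrimeSpectrum.comap (algebraMap B B₁) P.1 = p.1) →
  ∀ (x : B₁) (b c : B), x ≠ 0 → b ≠ 0 → c ≠ 0 →
  Algebra.norm F (algebraMap B₁ L x) * algebraMap B F c = algebraMap B F b →
  ∑ P ∈ S, rdeg (algebraMap B B₁) P.1 * len (Ideal.span {x}) P.1 + len (Ideal.span {c}) p.1 =
    len (Ideal.span {b}) p.1

def M_NPU : Prop := S_DIM1 → S_NORM → S_LSUQ → S_NPU

/-- CNTA. The fibre of `V(π) ⊆ X × A^1` over a point. `π ∈ R[X]` monic, `p` a prime of `R` of dimension `n`, `P = p R[X]`, of dimension `n + 1`. `D = R[X] / (π)` is free over `R` with basis `1, .., X^(deg π - 1)`. S_LSUQ for `R`, `D`, `I = p D`: the localisation of `D / p D` at `p` is `κ(p)[X] / π`, of length `deg π` over `R_p`. The primes of `D` over `p` are the primes `Q ∋ π` of `R[X]` over `p`; `len (p D) Q = len (P ⊔ (π)) Q`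
(S_LENA for `R[X] → D`), and the residue degrees agree (the residue fields of `D` and of `R[X]` at `Q` agree). They have dimension `n` (integral extension). -/
def S_CNTA : Prop := ∀ (k R : Type) [Field k] [CommRing R] [Algebra k R]
  [Algebra.FiniteType k R] (n : ℕ) (p : RP k R n) (P : RP k R[X] (n + 1)) (π : R[X])
  (S : Finset (RP k R[X] n)), π.Monic → P.1.asIdeal = p.1.asIdeal.map (C : R →+* R[X]) →
  (∀ Q : RP k R[X] n, Q ∈ S ↔ PrimeSpectrum.comap (C : R →+* R[X]) Q.1 = p.1 ∧
    π ∈ Q.1.asIdeal) →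
  ∑ Q ∈ S, rdeg (C : R →+* R[X]) Q.1 * len (P.1.asIdeal ⊔ Ideal.span {π}) Q.1 = π.natDegree

def M_CNTA : Prop := S_DIM1 → S_LENA → S_LSUQ → S_CNTA

/-- CNTD. A prime `Q` of `R[X]` of dimension `n` containing `p` (a prime of dimension `n`) and the monic polynomial `π` lies over `p`: `R / (Q ∩ R) → R[X] / Q` is integral, so the dimensions agree, and `p ≤ Q ∩ R`; S_DIM1. More generally a prime containing a monic polynomial has the same dimension as its contraction. -/
def S_CNTD : Prop := ∀ (k R : Type) [Field k] [CommRing R] [Algebra k R]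
  [Algebra.FiniteType k R] (π : R[X]), π.Monic →
  (∀ Q : PrimeSpectrum R[X], π ∈ Q.asIdeal →
    rdim k (PrimeSpectrum.comap (C : R →+* R[X]) Q) = rdim k Q) ∧
  ∀ (n : ℕ) (p : RP k R n) (Q : RP k R[X] n), π ∈ Q.1.asIdeal →
    p.1.asIdeal.map (C : R →+* R[X]) ≤ Q.1.asIdeal →
    PrimeSpectrum.comap (C : R →+* R[X]) Q.1 = p.1

def M_CNTD : Prop := S_DIM1 → S_CNTD

end CUB


end

section

/-!
# CUB2, block K: cycles on varieties (statements)

Module `X` proves `theorem t_X : M_X` (or `t_X : S_X` if there is no `M_X`) in the namespace `CUB`, in the file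
`Pool/Agent/CUB2/K_X.lean`, importing this file.  The hypotheses of `M_X` are statements of other modules.
The bridge between schemes and rings: `CUB/Bridge.lean` and `CUB/BR1` - `BR5` (`toPt`, `ofPt`, `ptE`, `cyE`, `isDiv_iff`, `exists_fnA`, `fnA`, `cq`, `exists_aff`, `dim_toPt`),
`Lib_helper66/OneP/Loc` (`resCyc`, `isDiv_res`, `isDiv_unique`, `exists_div`, `exists_isDiv`), `OneP/Ord` (`funMap`, `ord_funMap`), `OneP/Fin` (`finite_ord`, `exists_unit`).
A chart of `X` is an open immersion `j : OpenIn (aff k A) X`.  The aim of the block is `S_PUSHG` and `S_L4`.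
-/

set_option autoImplicit false

open CategoryTheory AlgebraicGeometry Limits Polynomial TopologicalSpace

namespace CUB

open Pool.Agent.Lib_helper55.Beil Pool.Agent.Lib_helper66.OneP

universe v

/-- The restriction of a cycle to a chart, as a cycle on the ring. -/
noncomputable def rc {k : Type} [Field k] {A : Type} [CommRing A] [Algebra k A]
    [Algebra.FiniteType k A] {X : Var k} (E : Type) [Field E] (n : ℕ) (j : OpenIn (aff k A) X)
    (c : Pts n X →₀ E) : RP k A n →₀ E :=
  (cyE E n).symm (resCyc j c)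

/-- The restriction of a global function to a chart. -/
noncomputable def rfn {k : Type} [Field k] {A : Type} [CommRing A] [Algebra k A]
    [Algebra.FiniteType k A] {X : Var k} (j : OpenIn (aff k A) X) (π : Γ(X.X, ⊤)) : A :=
  (Scheme.ΓSpecIso (CommRingCat.of A)).hom (j.g.appTop π)

/-! ## 1. Charts -/

/-- CHA. Charts. (1) every point has small affine neighbourhoods (`exists_aff`, `openVar`). (2) a nonempty chart of an integral variety is `Spec` of a domain. (3) cycles are determined by their restrictions to charts. (4) `W` an integral closed subvariety of `X` with generic point `P`, `j` a chart. If `P` is not in the chart then no point of `W` is (the chart is open). (5) If `P = j p` then `W ∩ Spec A = Spec (A / p)`: there is an open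
immersion `h : Spec (A / p) → W` compatible with `j`, whose image is the preimage of the chart (`pullback a.g j.g` is a reduced closed subscheme of `Spec A`, integral, see `interVar`; a closed subscheme of `Spec A` is `Spec (A / I)`, `IsClosedImmersion.Spec_iff`; `I` is prime with generic point `p`). (6) points and dimensions in a chart. -/
def S_CHA : Prop :=
  (∀ (k : Type) [Field k] (X : Var k) (x : X.X) (O : X.X.Opens), x ∈ O →
    ∃ (A : Type) (_ : CommRing A) (_ : Algebra k A) (_ : Algebra.FiniteType k A)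
      (j : OpenIn (aff k A) X), x ∈ Set.range j.g ∧ Set.range j.g ⊆ O) ∧
  (∀ (k A : Type) [Field k] [CommRing A] [Algebra k A] [Algebra.FiniteType k A] (X : Var k)
    (_ : IsIntegral X.X) (_ : OpenIn (aff k A) X) (_ : (aff k A).X), IsDomain A) ∧
  (∀ (k E : Type) [Field k] [Field E] (n : ℕ) (X : Var k) (c c' : Pts n X →₀ E),
    (∀ (A : Type) [CommRing A] [Algebra k A] [Algebra.FiniteType k A]
      (j : OpenIn (aff k A) X), rc E n j c = rc E n j c') → c = c') ∧
  (∀ (k A : Type) [Field k] [CommRing A] [Algebra k A] [Algebra.FiniteType k A] (X W : Var k)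
    (_ : IsIntegral W.X) (a : ClosedIn W X) (j : OpenIn (aff k A) X),
    a.g (genericPoint W.X) ∉ Set.range j.g → ∀ w : W.X, a.g w ∉ Set.range j.g) ∧
  (∀ (k A : Type) [Field k] [CommRing A] [Algebra k A] [Algebra.FiniteType k A] (X W : Var k)
    (_ : IsIntegral W.X) (a : ClosedIn W X) (j : OpenIn (aff k A) X) (p : PrimeSpectrum A),
    a.g (genericPoint W.X) = j.g (toPt p) →
    ∃ h : (aff k (A ⧸ p.asIdeal)).X ⟶ W.X, IsOpenImmersion h ∧
      h ≫ a.g = (cq p.asIdeal).g ≫ j.g ∧ ∀ w : W.X, a.g w ∈ Set.range j.g → w ∈ Set.range h) ∧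
  (∀ (k A E : Type) [Field k] [CommRing A] [Algebra k A] [Algebra.FiniteType k A] [Field E]
    (n : ℕ) (X : Var k) (j : OpenIn (aff k A) X) (c : Pts n X →₀ E) (p : RP k A n)
    (P : Pts n X), j.g (toPt p.1) = P.1 → rc E n j c p = c P)

/-- DVC. Divisors in charts. `W` integral, `a : W → X`, `φ ≠ 0` a rational function on `W`, `IsDiv a φ c`, `j` a chart. (1) if the generic point `P` of `W` is not in the chart, the restriction of `c` is `0`. (2) if `P = j p`, there are `x, y ∈ A ∖ p` such that `φ` is `x / y` on the chart; for all such `x, y` the restriction of `c` is the difference of the divisors of `x` and `y` on `V(p)` (`isDiv_res` with `h` of S_CHA (5), `exists_fnA`, and `isDiv_iff`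
extended to fractions: `Scheme.ord_mul`). -/
def S_DVC : Prop :=
  (∀ (k A E : Type) [Field k] [CommRing A] [Algebra k A] [Algebra.FiniteType k A] [Field E]
    (n : ℕ) (X W : Var k) (_ : IsIntegral W.X) (a : ClosedIn W X) (φ : W.X.functionField)
    (c : Pts n X →₀ E) (j : OpenIn (aff k A) X), IsDiv a φ c →
    a.g (genericPoint W.X) ∉ Set.range j.g → rc E n j c = 0) ∧
  (∀ (k A E : Type) [Field k] [CommRing A] [Algebra k A] [Algebra.FiniteType k A] [Field E]
    (n : ℕ) (X W : Var k) (_ : IsIntegral W.X) (a : ClosedIn W X) (φ : W.X.functionField)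
    (c : Pts n X →₀ E) (j : OpenIn (aff k A) X) (p : RP k A (n + 1))
    (h : (aff k (A ⧸ p.1.asIdeal)).X ⟶ W.X) (_ : IsOpenImmersion h), φ ≠ 0 → IsDiv a φ c →
    h ≫ a.g = (cq p.1.asIdeal).g ≫ j.g →
    (∀ w : W.X, a.g w ∈ Set.range j.g → w ∈ Set.range h) →
    (∃ x y : A, x ∉ p.1.asIdeal ∧ y ∉ p.1.asIdeal ∧ funMap h φ *
      fnA k (Ideal.Quotient.mk p.1.asIdeal y) = fnA k (Ideal.Quotient.mk p.1.asIdeal x)) ∧
    ∀ x y : A, x ∉ p.1.asIdeal → y ∉ p.1.asIdeal →
      funMap h φ * fnA k (Ideal.Quotient.mk p.1.asIdeal y) =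
        fnA k (Ideal.Quotient.mk p.1.asIdeal x) →
      ∀ dx dy : RP k A n →₀ E, IsDv k E p.1 x dx → IsDv k E p.1 y dy → rc E n j c = dx - dy)

def M_DVC : Prop := S_DST → S_CHA → S_LENC → S_DVC

/-- GYS. The operation `gys π`. `gysPt E n π P` is the divisor of the function `π` on the closure `V` of `P`, if `π` is not zero at `P` (`π` is invertible at `P` iff its restriction to `V` is not zero); it does not depend on the choice of `V` (two integral closed subvarieties with the same generic point are isomorphic over `Y`; or: its value at a point is determined by S_DVC). (1) uniqueness and existence. (2) in a chart: the divisor of `π` on `V(p)`. (3) compatible with closed immersions. (4) the support of `gys π c`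
is contained in the zero set of `π`. -/
def S_GYS : Prop :=
  (∀ (k E : Type) [Field k] [Field E] (n : ℕ) (Y : Var k) (π : Γ(Y.X, ⊤)) (P : Pts (n + 1) Y),
    P.1 ∈ Y.X.basicOpen π → IsFDv π P.1 (gysPt E n π P) ∧
      ∀ c : Pts n Y →₀ E, IsFDv π P.1 c → c = gysPt E n π P) ∧
  (∀ (k A E : Type) [Field k] [CommRing A] [Algebra k A] [Algebra.FiniteType k A] [Field E]
    (n : ℕ) (Y : Var k) (π : Γ(Y.X, ⊤)) (P : Pts (n + 1) Y) (j : OpenIn (aff k A) Y),
    (P.1 ∉ Set.range j.g → rc E n j (gysPt E n π P) = 0) ∧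
    ∀ p : RP k A (n + 1), j.g (toPt p.1) = P.1 → rfn j π ∉ p.1.asIdeal →
      P.1 ∈ Y.X.basicOpen π ∧ IsDv k E p.1 (rfn j π) (rc E n j (gysPt E n π P))) ∧
  (∀ (k A : Type) [Field k] [CommRing A] [Algebra k A] [Algebra.FiniteType k A]
    (Y : Var k) (π : Γ(Y.X, ⊤)) (j : OpenIn (aff k A) Y) (p : PrimeSpectrum A),
    j.g (toPt p) ∈ Y.X.basicOpen π ↔ rfn j π ∉ p.asIdeal) ∧
  (∀ (k E : Type) [Field k] [Field E] (n : ℕ) (W Y : Var k) (a : ClosedIn W Y)
    (π : Γ(Y.X, ⊤)) (c : Pts (n + 1) W →₀ E),
    gys E n π (pushCyc a c) = pushCyc a (gys E n (a.g.appTop π) c)) ∧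
  (∀ (k E : Type) [Field k] [Field E] (n : ℕ) (Y : Var k) (π : Γ(Y.X, ⊤))
    (c : Pts (n + 1) Y →₀ E) (x : Pts n Y), gys E n π c x ≠ 0 → x.1 ∉ Y.X.basicOpen π)

def M_GYS : Prop := S_DST → S_CHA → S_LENC → S_DVC → S_GYS

/-! ## 2. Intersection with the divisor of a function -/

/-- GDV. `W` integral of dimension `n + 2`, `φ ≠ 0`, `f` a unit on the open subset `U` with germ `φ`; `a : D → W` a closed subvariety, `T` a point of `D` of dimension `n + 1` whose image is in `U`. Let `V` be the closure of `T` in `D` (`closedVar`), an integral closed subvariety of `D`, and `φ_T` the rational function on `V` defined by `f`; `ρ` its divisor on `D` (`exists_div`), in `ratZero`. (1) if the image of `T` is not in the chart `j` of `W` then the restriction of `pushCyc a ρ` is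
zero. (2) if it is `j t`, and `φ = x / y` on the chart (`A` is a domain, `funMap j.g φ * fnA y = fnA x`), `x, y ∉ t`: the restriction of `pushCyc a ρ` is `div_t x - div_t y`. Indeed `V → D → W` is a closed immersion with generic point `a T`, `IsDiv (V → W) φ_T (pushCyc a ρ)`, and by S_DVC it is enough that `φ_T = x / y` modulo `t`: this is an identity of sections `f y = x` near `a T`. -/
def S_GDV : Prop := ∀ (k E : Type) [Field k] [Field E] (n : ℕ) (W D : Var k)
  (_ : IsIntegral W.X) (a : ClosedIn D W) (φ : W.X.functionField) (U : W.X.Opens)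
  (hU : genericPoint W.X ∈ U) (f : Γ(W.X, U)), IsUnit f →
  W.X.presheaf.germ U (genericPoint W.X) hU f = φ → ∀ T : Pts (n + 1) D, a.g T.1 ∈ U →
  ∃ ρ ∈ ratZero E n D, ∀ (A : Type) [CommRing A] [Algebra k A] [Algebra.FiniteType k A]
    (j : OpenIn (aff k A) W),
    (a.g T.1 ∉ Set.range j.g → rc E n j (pushCyc a ρ) = 0) ∧
    ∀ (_ : IsDomain A) (_ : IsOpenImmersion j.g) (t : RP k A (n + 1)) (x y : A),
      j.g (toPt t.1) = a.g T.1 → x ∉ t.1.asIdeal → y ∉ t.1.asIdeal →
      funMap j.g φ * fnA k y = fnA k x → ∀ dx dy : RP k A n →₀ E, IsDv k E t.1 x dx →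
      IsDv k E t.1 y dy → rc E n j (pushCyc a ρ) = dx - dy

def M_GDV : Prop := S_DST → S_CHA → S_DVC → S_GDV

/-- SYMW. `W` integral of dimension `n + 2`, `φ ≠ 0` with divisor `c`. There is a finite set `F` of points of `W` such that for all functions `π` which do not vanish at the points of `F`: `gys π c` is rationally equivalent to zero on the zero set `D` of `π`. Proof. Choose `U, f` (`exists_unit`) and finitely many charts `j_s` covering `W` (S_CHA (1), quasi-compactness), rings `A_s`, `φ = x_s / y_s` on `A_s` (`exists_fnA`). `F` consists of the generic point of `W`, the points of the support of `c`, the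
points of dimension `n + 1` of `W ∖ U` (finitely many: maximal points of a Noetherian space, `finite_maximal`), and the points `j_s p`, `dim p = n + 1`, `x_s ∈ p` or `y_s ∈ p` (finitely many, minimal primes). Let `π` be as above and `T` run through the points of `D` of dimension `n + 1` (finitely many: their images are points where `π` has nonzero order, `finite_ord`); `a T ∉ F`, so S_GDV gives `ρ_T`. `m_T = ` order of `π` at `a T` = `len (π_s) t` in a chart. `ρ = ∑ m_T ρ_T`.
To prove `pushCyc a ρ = gys π c` compare in the chart `j_s` (S_CHA (3); it is enough to use the charts `j_s`, evaluate at points, S_CHA (6)): with `q = ⊥` in the domain `A_s`, `π_s = rfn j_s π ∉ ⊥`: `rc c = dx - dy` (S_DVC), `dx, dy` the divisors of `x_s, y_s`; the restriction of `gys π c` is `∑_P (dx P - dy P) div_P π_s` (S_GYS (2)), and by S_SYMA, applied to `x_s, π_s` and to `y_s, π_s`: `∑_P dx(P) div_P π_s = ∑_T len(π_s)(T) div_T x_s`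
(the primes `T` of dimension `n + 1` containing `π_s` do not contain `x_s, y_s`, so also the primes `P` with `dx P ≠ 0` do not contain `π_s`). The right side is the restriction of `pushCyc a ρ`. -/
def S_SYMW : Prop := ∀ (k E : Type) [Field k] [Field E] [CharZero E] (n : ℕ) (W : Var k)
  (_ : IsIntegral W.X) (φ : W.X.functionField) (c : Pts (n + 1) W →₀ E),
  W.dim (genericPoint W.X) = (n + 1 + 1 : ℕ) → φ ≠ 0 → IsDiv (idIn W) φ c →
  ∃ F : Finset W.X, ∀ π : Γ(W.X, ⊤), (∀ y ∈ F, y ∈ W.X.basicOpen π) →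
    ∀ (D : Var k) (a : ClosedIn D W), IsZeros a π →
    ∃ ρ ∈ ratZero E n D, pushCyc a ρ = gys E n π c

def M_SYMW : Prop := S_DST → S_DIM1 → S_LENC → S_DVX → S_SYMA → S_CHA → S_DVC → S_GYS → S_GDV →
  S_SYMW

/-- GYR. The same for all cycles rationally equivalent to zero. Span induction (union of the sets `F`; the zero cycle: `F = ∅`). For a generator: `W, b : W → Y, φ`, `IsDiv b φ d`, `d = pushCyc b c` with `IsDiv (idIn W) φ c`. Take the image under `b` of the set `F` of S_SYMW. For `π` on `Y` apply S_SYMW to `b.g.appTop π` and `D' = ` the reduced zero set (`closedVar`) of it in `W`; `D' → Y` factors through `D`: `D' → D_red → D`, `factorC` or `liftC` (or use for `D` first the reduced case;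
`ratZero` of `D_red` is mapped to `ratZero` of `D`, `ratZero_map`). Push forward (`ratZero_map`, S_GYS (4)). -/
def S_GYR : Prop := ∀ (k E : Type) [Field k] [Field E] [CharZero E] (n : ℕ) (Y : Var k)
  (d : Pts (n + 1) Y →₀ E), d ∈ ratZero E (n + 1) Y →
  ∃ F : Finset Y.X, ∀ π : Γ(Y.X, ⊤), (∀ y ∈ F, y ∈ Y.X.basicOpen π) →
    ∀ (D : Var k) (a : ClosedIn D Y), IsZeros a π →
    ∃ ρ ∈ ratZero E n D, pushCyc a ρ = gys E n π d

def M_GYR : Prop := S_GYS → S_SYMW → S_GYR

/-! ## 3. The divisors `X × V(π)` -/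

/-- PICK. `k[t]` has infinitely many monic irreducible polynomials (Euclid), and a point of `Y` maps to a prime of `k[t]`, which contains at most one of them. `y ∈ basicOpen (L.fn π)` iff `π` is not in the prime `L.t y`. -/
def S_PICK : Prop := (∀ (k : Type) [Field k] (Y X : Var k) (L : Line Y X) (F : Finset Y.X),
    ∃ π : k[X], π.Monic ∧ Irreducible π ∧ ∀ y ∈ F, y ∈ Y.X.basicOpen (L.fn π)) ∧
  ∀ (k : Type) [Field k] (Y X : Var k) (L : Line Y X) (π : k[X]) (y : Y.X),
    y ∈ Y.X.basicOpen (L.fn π) ↔ π ∉ (show PrimeSpectrum k[X] from L.t y).asIdeal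

/-- DPI. The closed subvariety `D = X × V(π)`, finite over `X`: the fibre product of `Y → A^1` and `V(π) = Spec k[t] / π → A^1`; `D → X` is the base change of the finite morphism `Spec (k[t] / π) → Spec k`. A finite morphism preserves the dimension of points (the residue field extension is finite). The chart: for a chart `j : Spec A → X` there is a chart `Spec A[X] → Y` over it (pasting of fibre products, `lineX`, uniqueness of `IsPullback`), under which `L.fn π` corresponds to `π`. -/
def S_DPI : Prop :=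
  (∀ (k : Type) [Field k] (Y X : Var k) (L : Line Y X) (π : k[X]), π.Monic →
    ∃ (D : Var k) (a : ClosedIn D Y) (f : PrMor D X), f.g = a.g ≫ L.q ∧ IsZeros a (L.fn π) ∧
      IsFinite f.g) ∧
  (∀ (k : Type) [Field k] (D X : Var k) (f : PrMor D X), IsFinite f.g →
    ∀ z : D.X, X.dim (f.g z) = D.dim z) ∧
  (∀ (k A : Type) [Field k] [CommRing A] [Algebra k A] [Algebra.FiniteType k A] (Y X : Var k)
    (L : Line Y X) (j : OpenIn (aff k A) X), ∃ j' : OpenIn (aff k A[X]) Y,
    j'.g ≫ L.q = spm (CC k A) ≫ j.g ∧ (∀ y : Y.X, L.q y ∈ Set.range j.g → y ∈ Set.range j'.g) ∧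
    ∀ π : k[X], rfn j' (L.fn π) = π.map (algebraMap k A))

/-- RDG. Residue degrees in charts. (1) the degree of a proper morphism which is `spm φ` on charts. (2) invariance: the degree at a point of an open subvariety. -/
def S_RDG : Prop := ∀ (k A B : Type) [Field k] [CommRing A] [CommRing B] [Algebra k A]
  [Algebra k B] [Algebra.FiniteType k A] [Algebra.FiniteType k B] (φ : A →ₐ[k] B)
  (X Y : Var k) (f : PrMor Y X) (j : OpenIn (aff k A) X) (j' : OpenIn (aff k B) Y),
  j'.g ≫ f.g = spm φ ≫ j.g → ∀ P : PrimeSpectrum B, f.deg (j'.g (toPt P)) = rdeg φ.toRingHom P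

/-- RDD. The degree does not change if the source is replaced by a larger variety: `a : D → Y` a closed immersion, `f : D → X` proper, with `D → X` equal to `a` followed by `q : Y → X`; in charts `Spec A` of `X` and `Spec B` of `Y` with `q` given by `φ`, the degree of `f` at a point `z` of `D` with `a z = j' P` is `rdeg φ P` (a closed immersion does not change residue fields). -/
def S_RDD : Prop := ∀ (k A B : Type) [Field k] [CommRing A] [CommRing B] [Algebra k A]
  [Algebra k B] [Algebra.FiniteType k A] [Algebra.FiniteType k B] (φ : A →ₐ[k] B)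
  (X Y D : Var k) (q : Y.X ⟶ X.X) (a : ClosedIn D Y) (f : PrMor D X) (j : OpenIn (aff k A) X)
  (j' : OpenIn (aff k B) Y), f.g = a.g ≫ q → j'.g ≫ q = spm φ ≫ j.g →
  ∀ (P : PrimeSpectrum B) (z : D.X), a.g z = j'.g (toPt P) → f.deg z = rdeg φ.toRingHom P

/-- CNT. The fibre of `D = X × V(π)` over a point `x` of dimension `n`. `P` the point of `Y` of dimension `n + 1` over `x`. `gysPt (L.fn π) P` is supported on `D`, so it is `pushCyc a g'` (`mem_range_ptsMap`). `pfc f g'` at a point `y` of dimension `n`: S_PFC (6), the sum over the points `z` of `D` over `y`. Take a chart `Spec A` of `X` around `y` and the chart `Spec A[X]` of S_DPI (3). If `P` is not in the chart both sides are zero (S_GYS (2); `x ≠ y`). If it is, `x = j p`, and `P` is the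
prime `p A[X]` (`pX` in CUB/BR5, S_LPT (2)); `gysPt` restricts to the divisor of `π` on `V(p A[X])` (S_GYS (2)), whose value at `Q` is `len (p A[X] ⊔ π) Q`; the nonzero values are at primes `Q ∋ π` over `p` (S_CNTD), so for `y ≠ x` the sum is zero, and for `y = x` it is `deg π` by S_CNTA, with S_RDD for the degrees. -/
def S_CNT : Prop := ∀ (k E : Type) [Field k] [Field E] (n : ℕ) (Y X D : Var k) (L : Line Y X)
  (π : k[X]) (a : ClosedIn D Y) (f : PrMor D X) (x : Pts n X) (P : Pts (n + 1) Y), π.Monic →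
  f.g = a.g ≫ L.q → IsZeros a (L.fn π) → L.q P.1 = x.1 →
  ∃ g' : Pts n D →₀ E, pushCyc a g' = gysPt E n (L.fn π) P ∧
    pfc E n f g' = Finsupp.single x (π.natDegree : E)

def M_CNT : Prop := S_PFC.{v} → S_LPT → S_CHA → S_GYS → S_PICK → S_DPI → S_RDD → S_CNTA →
  S_CNTD → S_LENC → S_CNT

/-! ## 4. Push-forward along generically finite morphisms -/

/-- FOV. `f : W → V` proper, `W`, `V` integral of dimension `n + 1`, generic point to generic point, `v` a point of `V` of dimension `n`. The points `w` over `v` satisfy `dim w ≥ n` (S_PFC (1)), and `dim w ≤ n` since `w` is not the generic point; so the fibre over `v`, of finite type over `κ(v)`, has only points algebraic over `κ(v)`: it is a finite set. By `exists_isFinite_morphismRestrict_of_finite_preimage_singleton` (Mathlib, AlgebraicGeometry/ZariskisMainTheorem) `f` is finite over a neighbourhood of `v`. (2) there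
are charts `Spec B` of `V` around `v` and `Spec B₁` of `W`, the preimage of `Spec B`, with `B → B₁` finite and injective. -/
def S_FOV : Prop := ∀ (k : Type) [Field k] (n : ℕ) (W V : Var k) (_ : IsIntegral W.X)
  (_ : IsIntegral V.X) (f : PrMor W V) (v : V.X), W.dim (genericPoint W.X) = (n + 1 : ℕ) →
  V.dim (genericPoint V.X) = (n + 1 : ℕ) → f.g (genericPoint W.X) = genericPoint V.X →
  V.dim v = n → ∃ (B B₁ : Type) (_ : CommRing B) (_ : CommRing B₁) (_ : Algebra k B)
    (_ : Algebra k B₁) (_ : Algebra.FiniteType k B) (_ : Algebra.FiniteType k B₁)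
    (φ : B →ₐ[k] B₁) (j : OpenIn (aff k B) V) (j₁ : OpenIn (aff k B₁) W),
    j₁.g ≫ f.g = spm φ ≫ j.g ∧ φ.toRingHom.Finite ∧ Function.Injective φ ∧ v ∈ Set.range j.g ∧
    ∀ w : W.X, f.g w ∈ Set.range j.g → w ∈ Set.range j₁.g

def M_FOV : Prop := S_PFC.{v} → S_DST → S_CHA → S_FOV

/-- PUSHD. The push-forward of the divisor of `φ` is the divisor of the norm of `φ`. `K(W)` is a finite extension of `K(V)` (in a chart of S_FOV; there is a point `v` of dimension `n`, otherwise there is nothing to prove since cycles on `V` are zero). Let `N` be the norm of `φ` and `d` its divisor on `V` (`exists_div`), in `ratZero`. To prove `pfc f c = d` evaluate at `v` of dimension `n`. Take the charts of S_FOV. `φ = x / y` with `x, y ∈ B₁`, `N(x) = b / c'`, `N(y) = b' / c''` with `b, ...` in `B`; `N = b c'' / (c' b')`. The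
value of `d` at `v = j p` is `len (b c'') p - len (c' b') p` (S_DVC with the prime `⊥`, S_LENC additivity), the value of `pfc f c` is `∑_P rdeg P (len (x) P - len (y) P)` over the primes `P` of `B₁` over `p` (S_PFC (6), S_RDG; all points of `W` over `v` are in the chart `Spec B₁`), and both agree by S_NPU for `x` and for `y`. -/
def S_PUSHD : Prop := ∀ (k E : Type) [Field k] [Field E] (n : ℕ) (W V : Var k)
  (_ : IsIntegral W.X) (_ : IsIntegral V.X) (f : PrMor W V) (φ : W.X.functionField)
  (c : Pts n W →₀ E), W.dim (genericPoint W.X) = (n + 1 : ℕ) →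
  V.dim (genericPoint V.X) = (n + 1 : ℕ) → f.g (genericPoint W.X) = genericPoint V.X →
  φ ≠ 0 → IsDiv (idIn W) φ c → pfc E n f c ∈ ratZero E n V

def M_PUSHD : Prop := S_PFC.{v} → S_DST → S_DIM1 → S_LENC → S_DVX → S_CHA → S_DVC → S_RDG → S_NPU →
  S_FOV → S_PUSHD

/-- PUSHG. Push-forward preserves rational equivalence if the points of dimension `n + 1` have images of dimension `n + 1`. A generator: `W, a, φ`, `d` the divisor on `W`; `V` = closure of the image of `W` in `Y`, `h : W → V` as in S_PUSHR; `dim V = n + 1` by hypothesis; S_PUSHD for `h`; S_PFC (2), (3), `ratZero_map`. -/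
def S_PUSHG : Prop := ∀ (k E : Type) [Field k] [Field E] (n : ℕ) (X Y : Var k) (f : PrMor X Y),
  (∀ x : X.X, X.dim x = (n + 1 : ℕ) → Y.dim (f.g x) = (n + 1 : ℕ)) →
  ∀ c ∈ ratZero E n X, pfc E n f c ∈ ratZero E n Y

def M_PUSHG : Prop := S_PFC.{v} → S_DST → S_PUSHD → S_PUSHG

/-! ## 5. Homotopy invariance -/

/-- L4F. Proof of S_L4. Let `F` be the set of S_GYR for `d`. Choose `π` by S_PICK for `F` and the support of `d`; `D, a, f` by S_DPI. `gys (L.fn π) d = pushCyc a ρ`, `ρ ∈ ratZero E i D`. By linearity `gys (L.fn π) d = ∑_x c(x) gysPt (L.fn π) P_x`, `P_x` the point of dimension `i + 1` over `x` (S_LPT (2), `IsPullC`), so by S_CNT and injectivity of `pushCyc a`: `ρ = ∑ c(x) g'_x`, `pfc f ρ = deg π • c`. `pfc f ρ ∈ ratZero E i X` by S_PUSHG (S_DPI (2)). `deg π ≠ 0` in `E` (irreducible polynomials have positive degree). -/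
def M_L4F : Prop := S_LPT → S_PCY.{v} → S_GYR → S_PICK → S_DPI → S_CNT → S_PUSHG → S_L4

end CUB


end

section

/-!
# CUB2: module CHA
-/

set_option autoImplicit false

open CategoryTheory AlgebraicGeometry Limits Polynomial TopologicalSpace

namespace CUB

open Pool.Agent.Lib_helper55.Beil Pool.Agent.Lib_helper66.OneP

namespace CHA

variable {k : Type} [Field k]

/-- A point has small affine neighbourhoods, given as charts. -/
lemma exists_chart (X : Var k) (x : X.X) (O : X.X.Opens) (hx : x ∈ O) :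
    ∃ (A : Type) (_ : CommRing A) (_ : Algebra k A) (_ : Algebra.FiniteType k A)
      (j : OpenIn (aff k A) X), x ∈ Set.range j.g ∧ Set.range j.g ⊆ O := by
  obtain ⟨W, hW, hxW, hWO⟩ := exists_isAffineOpen_mem_and_subset (X := X.X) (U := O) (x := x) hx
  have : IsAffine (openVar X W).X := hW
  obtain ⟨A, i1, i2, i3, ⟨s⟩⟩ := exists_aff (openVar X W)
  have key : ∀ y : (aff k A).X, (s.e.hom ≫ (openVarIn X W).g) y =
      (openVarIn X W).g (s.e.hom y) := fun _ => rfl
  refine ⟨A, i1, i2, i3, ⟨s.e.hom ≫ (openVarIn X W).g, ?_, ?_⟩, ?_, ?_⟩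
  · rw [Category.assoc, (openVarIn X W).comm, s.comm]
  · infer_instance
  · have h1 : x ∈ Set.range (openVarIn X W).g := by
      rw [range_openVarIn]
      exact hxW
    obtain ⟨y, hy⟩ := h1
    refine ⟨s.e.inv y, ?_⟩
    have h2 : s.e.hom (s.e.inv y) = y := s.surj y
    exact (key _).trans ((congrArg _ h2).trans hy)
  · rintro _ ⟨y, rfl⟩
    have h1 : (openVarIn X W).g (s.e.hom y) ∈ Set.range (openVarIn X W).g := ⟨_, rfl⟩
    rw [range_openVarIn] at h1
    exact hWO h1

variable {A : Type} [CommRing A] [Algebra k A] [Algebra.FiniteType k A]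

lemma isDomain_of_chart (X : Var k) (hX : IsIntegral X.X) (j : OpenIn (aff k A) X)
    (x : (aff k A).X) : IsDomain A := by
  have hne : Nonempty (aff k A).X := ⟨x⟩
  have hint : IsIntegral (aff k A).X := isIntegral_of_isOpenImmersion j.g
  have h1 : IsIntegral (Spec (CommRingCat.of A)) := hint
  exact (affine_isIntegral_iff (CommRingCat.of A)).mp h1

lemma rc_apply (E : Type) [Field E] (n : ℕ) (X : Var k) (j : OpenIn (aff k A) X)
    (c : Pts n X →₀ E) (p : RP k A n) (P : Pts n X) (hP : j.g (toPt p.1) = P.1) :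
    rc E n j c p = c P := by
  unfold rc
  rw [← cyE_apply ((cyE E n).symm (resCyc j c)) p, LinearEquiv.apply_symm_apply, resCyc_apply]
  congr 1
  exact Subtype.ext hP

lemma notMem (X W : Var k) (hW : IsIntegral W.X) (a : ClosedIn W X) (j : OpenIn (aff k A) X)
    (h : a.g (genericPoint W.X) ∉ Set.range j.g) (w : W.X) : a.g w ∉ Set.range j.g := by
  intro hw
  apply h
  have h1 : a.g (genericPoint W.X) ⤳ a.g w := (genericPoint_specializes w).map a.g.continuous
  exact h1.mem_open j.g.isOpenEmbedding.isOpen_range hw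

lemma exists_h (X W : Var k) (hW : IsIntegral W.X) (a : ClosedIn W X) (j : OpenIn (aff k A) X)
    (p : PrimeSpectrum A) (hp : a.g (genericPoint W.X) = j.g (toPt p)) :
    ∃ h : (aff k (A ⧸ p.asIdeal)).X ⟶ W.X, IsOpenImmersion h ∧
      h ≫ a.g = (cq p.asIdeal).g ≫ j.g ∧ ∀ w : W.X, a.g w ∈ Set.range j.g → w ∈ Set.range h := by
  let b : pullback a.g j.g ⟶ (aff k A).X := pullback.snd a.g j.g
  let h0 : pullback a.g j.g ⟶ W.X := pullback.fst a.g j.g
  have hb : IsClosedImmersion b := inferInstanceAs (IsClosedImmersion (pullback.snd a.g j.g))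
  have hh0 : IsOpenImmersion h0 := inferInstanceAs (IsOpenImmersion (pullback.fst a.g j.g))
  have hcond : h0 ≫ a.g = b ≫ j.g := pullback.condition
  have hr : ∀ w, a.g w ∈ Set.range j.g → w ∈ Set.range h0 := by
    intro w hw
    have h4 := Scheme.Pullback.range_fst a.g j.g
    rw [show Set.range h0 = Set.range (pullback.fst a.g j.g) from rfl, h4]
    exact hw
  obtain ⟨z, hz⟩ := hr (genericPoint W.X) ⟨toPt p, hp.symm⟩
  have hne : Nonempty ↥(pullback a.g j.g) := ⟨z⟩
  have hint : IsIntegral (pullback a.g j.g) := isIntegral_of_isOpenImmersion h0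
  obtain ⟨I, e, he⟩ := (IsClosedImmersion.Spec_iff (R := CommRingCat.of A) (f := b)).mp hb
  have hne' : Nonempty (Spec (CommRingCat.of (A ⧸ I))) := ⟨e.hom z⟩
  have hint' : AlgebraicGeometry.IsIntegral (Spec (CommRingCat.of (A ⧸ I))) :=
    isIntegral_of_isOpenImmersion e.inv
  have hdom : IsDomain (A ⧸ I) := (affine_isIntegral_iff (CommRingCat.of (A ⧸ I))).mp hint'
  have hI : I.IsPrime := (Ideal.Quotient.isDomain_iff_prime I).mp hdom
  have hgen : z = genericPoint ↥(pullback a.g j.g) := by
    apply h0.isOpenEmbedding.injective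
    rw [hz, genericPoint_eq_of_isOpenImmersion h0]
  have hbz : b z = toPt (k := k) p := by
    apply j.g.isOpenEmbedding.injective
    rw [← hp, ← hz]
    exact (congrArg (fun f : pullback a.g j.g ⟶ X.X => f z) hcond).symm
  have hez : e.hom z = (show (Spec (CommRingCat.of (A ⧸ I))) from
      (⟨⊥, Ideal.isPrime_bot⟩ : PrimeSpectrum (A ⧸ I))) := by
    rw [hgen, genericPoint_eq_of_isOpenImmersion e.hom]
    exact genericPoint_eq_bot_of_affine (CommRingCat.of (A ⧸ I))
  have hpI : p.asIdeal = I := by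
    have h1 : b z = Spec.map (CommRingCat.ofHom (Ideal.Quotient.mk I)) (e.hom z) :=
      congrArg (fun f : pullback a.g j.g ⟶ (aff k A).X => f z) he
    rw [hez, hbz] at h1
    have h2 : p = PrimeSpectrum.comap (Ideal.Quotient.mk I)
      (⟨⊥, Ideal.isPrime_bot⟩ : PrimeSpectrum (A ⧸ I)) := h1
    rw [h2]
    change Ideal.comap (Ideal.Quotient.mk I) ⊥ = I
    exact Ideal.mk_ker
  subst hpI
  let ei : (aff k (A ⧸ p.asIdeal)).X ⟶ pullback a.g j.g := e.inv
  have hei : IsOpenImmersion ei := inferInstanceAs (IsOpenImmersion e.inv)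
  have hei2 : ei ≫ b = (cq (k := k) p.asIdeal).g := (Iso.inv_comp_eq e).mpr he
  have hei3 : ∀ y, ei (e.hom y) = y := by
    intro y
    have h1 : (e.hom ≫ e.inv) y = y := by
      rw [e.hom_inv_id]
      rfl
    exact h1
  refine ⟨ei ≫ h0, inferInstance, ?_, ?_⟩
  · rw [Category.assoc, hcond, ← Category.assoc, hei2]
  · intro w hw
    obtain ⟨y, hy⟩ := hr w hw
    refine ⟨e.hom y, ?_⟩
    have h1 : (ei ≫ h0) (e.hom y) = h0 (ei (e.hom y)) := rfl
    rw [h1, hei3]
    exact hy

end CHA

theorem t_CHA : S_CHA := by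
  refine ⟨?_, ?_, ?_, ?_, ?_, ?_⟩
  · intro k _ X x O hx
    exact CHA.exists_chart X x O hx
  · intro k A _ _ _ _ X hX j x
    exact CHA.isDomain_of_chart X hX j x
  · intro k E _ _ n X c c' h
    ext P
    obtain ⟨A, i1, i2, i3, j, ⟨x, hx⟩, -⟩ := CHA.exists_chart X P.1 ⊤ trivial
    have hd : rdim k (ofPt x) = n := by
      have h5 := dim_toPt (k := k) (ofPt x)
      rw [toPt_ofPt] at h5
      rw [← h5, ← dim_map j.g j.comm, hx]
      exact P.2
    have h1 := CHA.rc_apply E n X j c ⟨ofPt x, hd⟩ P hx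
    have h2 := CHA.rc_apply E n X j c' ⟨ofPt x, hd⟩ P hx
    rw [← h1, ← h2, h A j]
  · intro k A _ _ _ _ X W hW a j h w
    exact CHA.notMem X W hW a j h w
  · intro k A _ _ _ _ X W hW a j p hp
    exact CHA.exists_h X W hW a j p hp
  · intro k A E _ _ _ _ _ n X j c p P hP
    exact CHA.rc_apply E n X j c p P hP

end CUB


end

section

/-!
# CUB2, block F: the induction (statements)

Module `X` proves `theorem t_X : M_X` in the namespace `CUB`, in the file `Pool/Agent/CUB2/F_X.lean`, importing this file.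
-/

set_option autoImplicit false

open CategoryTheory AlgebraicGeometry Limits Polynomial TopologicalSpace

namespace CUB

open Pool.Agent.Lib_helper55.Beil Pool.Agent.Lib_helper66.OneP

universe v

/-- CHN. The inductive step. Let `P(d)`: `InjC (T i) X` for all `i` and all `X` with `X.DimLE (i + d)`. Suppose `P(d)`; to prove `P(d + 1)`. By S_REDI we may assume that `X` is integral (closed subvarieties have smaller dimension, `dim_map`). Fix `X₀ = X`, a finite set `𝒱` of affine open subsets covering `X₀` (quasi-compactness), and finite generating sets `S V` (S_SEP (2)).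
Claim B: for all `m`, all integral varieties `Y` with an affine morphism `f : Y → X₀` over `k` and all `i` with `Y.DimLE (i + (d + 1))` such that there are at most `m` pairs `(V, h)`, `V ∈ 𝒱`, `h ∈ S V`, with `f⁻¹ V ≠ ∅` which are not processed (`¬ Processed f V h`): `InjC (T i) Y`. Induction on `m`. If all pairs with `f⁻¹ V ≠ ∅` are processed, `Y` is quasi-affine by S_QAF, so open in an affine variety (S_QEM), use S_OPEN and the hypothesis on affine varieties.
Otherwise let `(V, h)` be a pair with `f⁻¹ V ≠ ∅` which is not processed and apply S_GST to `f, V, h`: `X₁, P, Y', M, B, σ, j, g`. `InjC (T (i + 1)) Y'` by Claim B for `m - 1`: the pairs not processed for `g` with `g⁻¹ V' ≠ ∅` are not processed for `f` (S_PPE, `g` factors through `f`) and `f⁻¹ V' ≠ ∅`, and `(V, h)` is processed for `g`; `Y'.DimLE ((i + 1) + (d + 1))`. `InjC (T (i + 1)) X₁` by `P(d)`, as `X₁.DimLE ((i + 1) + d)`. So `InjC (T i) X₁` by S_DESC.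
`InjC (T i) M.Z` by `P(d)`: `Y` is integral and `M.U` is not empty, so the points of `M.Z` are not the generic point and have dimension smaller than that of the generic point (S_DST). S_MOD gives `InjC (T i) Y`, with the hypothesis on push-forwards. Apply Claim B to `Y = X₀`, `f = 𝟙`. -/
def S_CHN : Prop := ∀ (k E : Type) [Field k] [Finite k] [Field E] [CharZero E]
  (T : ∀ i : ℕ, Homology.{v} k E i) (_ : Full T) (d : ℕ),
  (∀ (i : ℕ) (Z : Var k), (T i).Surj Z ∧ (T i).Semisimple Z) →
  (∀ (i : ℕ) (X : Var k), IsAffine X.X → (T i).InjC X) →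
  (∀ (i : ℕ) (X : Var k), X.DimLE (i + d) → (T i).InjC X) →
  (∀ (i : ℕ) (X' X : Var k) (M : Modif X' X), IsIntegral X'.X → IsIntegral X.X →
    X.DimLE (i + (d + 1)) → (∃ x : X.X, x ∈ Set.range M.j.g) →
    ∀ c ∈ ratZero E i X', pfc E i M.f c ∈ ratZero E i X) →
  ∀ (i : ℕ) (X : Var k), X.DimLE (i + (d + 1)) → (T i).InjC X

def M_CHN : Prop := S_DST → S_GST → S_PPE → S_SEP → S_QAF → S_QEM → S_OPEN.{v} → S_MOD.{v} →
  S_DESC.{v} → S_REDI.{v} → S_CHN.{v}

/-- IND. `P(d)` for all `d` by induction on `d`: `P(0)` is S_P0; `P(d)` implies `P(d + 1)` by S_CHN. The hypothesis of S_CHN on push-forwards: if `d ≥ 1` then `P(1)` holds (`P(d)` implies `P(1)`: the condition `X.DimLE (i + 1)` implies `X.DimLE (i + d)`), so S_PUSHR. If `d = 0`: `X', X` integral, `X.DimLE (i + 1)`, use S_PUSHG: let `x` be a point of `X'` of dimension `i + 1`. The generic point `ξ'` of `X'` is in `U'` (nonempty since isomorphic to `U`), its image in `X` is the generic point `ξ`, of the same dimension (isomorphism over `U`). So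 `dim ξ' ≤ i + 1`,
`x` is a specialisation of `ξ'` of dimension `i + 1`, so `x = ξ'` (S_DST) and `dim (f x) = dim ξ = i + 1`. Finally every variety has finite dimension (S_FDM). -/
def S_IND : Prop := ∀ (k E : Type) [Field k] [Finite k] [Field E] [CharZero E]
  (T : ∀ i : ℕ, Homology.{v} k E i) (_ : Full T),
  (∀ (i : ℕ) (Z : Var k), (T i).Surj Z ∧ (T i).Semisimple Z) →
  (∀ (i : ℕ) (X : Var k), IsAffine X.X → (T i).InjC X) →
  ∀ (i : ℕ) (X : Var k), (T i).InjC X

def M_IND : Prop := S_DST → S_FDM → S_P0.{v} → S_PUSHG → S_PUSHR.{v} → S_CHN.{v} → S_IND.{v}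

end CUB


end

section

/-!
# CUB2, module CHN: the inductive step
-/

set_option autoImplicit false

open CategoryTheory AlgebraicGeometry Limits Polynomial TopologicalSpace

namespace CUB

open Pool.Agent.Lib_helper55.Beil Pool.Agent.Lib_helper66.OneP

universe v

namespace CHN

open Classical in
/-- The pairs which are not processed. -/
noncomputable def bad {k : Type} [Field k] {X₀ : Var k} (𝒱 : Finset X₀.X.Opens)
    (S : ∀ V : X₀.X.Opens, Finset Γ(X₀.X, V)) {Y : Scheme.{0}} (f : Y ⟶ X₀.X) :
    Finset (Σ V : X₀.X.Opens, Γ(X₀.X, V)) :=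
  (𝒱.sigma S).filter (fun p => (∃ y : Y, f y ∈ p.1) ∧ ¬ Processed f p.1 p.2)

lemma mem_bad {k : Type} [Field k] {X₀ : Var k} (𝒱 : Finset X₀.X.Opens)
    (S : ∀ V : X₀.X.Opens, Finset Γ(X₀.X, V)) {Y : Scheme.{0}} (f : Y ⟶ X₀.X)
    (p : Σ V : X₀.X.Opens, Γ(X₀.X, V)) :
    p ∈ bad 𝒱 S f ↔ (p.1 ∈ 𝒱 ∧ p.2 ∈ S p.1) ∧ (∃ y : Y, f y ∈ p.1) ∧
      ¬ Processed f p.1 p.2 := by
  classical
  unfold bad
  rw [Finset.mem_filter, Finset.mem_sigma]

lemma bad_comp (hPPE : S_PPE) {k : Type} [Field k] {X₀ : Var k} (𝒱 : Finset X₀.X.Opens)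
    (S : ∀ V : X₀.X.Opens, Finset Γ(X₀.X, V)) {Z Y : Scheme.{0}} (q : Z ⟶ Y) (f : Y ⟶ X₀.X) :
    bad 𝒱 S (q ≫ f) ⊆ bad 𝒱 S f := by
  intro p hp
  rw [mem_bad] at hp ⊢
  obtain ⟨h1, ⟨z, hz⟩, h2⟩ := hp
  refine ⟨h1, ⟨q z, ?_⟩, fun h => h2 (hPPE _ _ _ q f p.1 p.2 h)⟩
  rw [Scheme.Hom.comp_apply] at hz
  exact hz

/-- The dimension of the complement of a nonempty open subvariety of an integral variety. -/
lemma dimLE_compl (hDST : S_DST) {k : Type} [Field k] {Z X U : Var k} (a : ClosedIn Z X)
    (j : OpenIn U X) (h : Complementary a j) (hX : IsIntegral X.X)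
    (hne : ∃ x : X.X, x ∈ Set.range j.g) (n : ℕ) (hd : X.DimLE (n + 1)) : Z.DimLE n := by
  intro z
  have h1 : X.dim (a.g z) = Z.dim z := dim_map a.g a.comm z
  rw [← h1]
  have h2 : genericPoint X.X ≠ a.g z := by
    intro h3
    obtain ⟨x, hx⟩ := hne
    have h4 : genericPoint X.X ∈ Set.range j.g :=
      (genericPoint_specializes x).mem_open j.g.isOpenEmbedding.isOpen_range hx
    have h5 : a.g z ∈ Set.range a.g := ⟨z, rfl⟩
    rw [show Set.range a.g = (Set.range j.g)ᶜ from h, ← h3] at h5
    exact h5 h4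
  have h3 := hDST.1 k X _ _ (genericPoint_specializes (a.g z)) h2
  obtain ⟨m, hm⟩ := hDST.2.1 k X (genericPoint X.X)
  obtain ⟨r, hr⟩ := hDST.2.1 k X (a.g z)
  have h4 := hd (genericPoint X.X)
  rw [hm] at h3 h4
  rw [hr] at h3 ⊢
  have h5 : r < m := by exact_mod_cast h3
  have h6 : m ≤ n + 1 := by exact_mod_cast h4
  have h7 : r ≤ n := by omega
  exact_mod_cast h7

end CHN

open _root_.CUB.CHN in
theorem t_CHN : M_CHN.{v} := by
  intro hDST hGST hPPE hSEP hQAF hQEM hOPEN hMOD hDESC hREDI k E _ _ _ _ T hT d hgood haff hP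
    hpush i₀ X hX
  refine hREDI k E T hT i₀ X (fun Z => hgood i₀ Z) ?_
  intro X₀ hX₀ a₀
  have hdX₀ : X₀.DimLE (i₀ + (d + 1)) := by
    intro x
    have h1 : X.dim (a₀.g x) = X₀.dim x := dim_map a₀.g a₀.comm x
    rw [← h1]
    exact hX _
  -- the finite covering
  obtain ⟨𝒱, h𝒱, hcov⟩ : ∃ 𝒱 : Finset X₀.X.Opens, (∀ V ∈ 𝒱, IsAffineOpen V) ∧
      ∀ x : X₀.X, ∃ V ∈ 𝒱, x ∈ V := by
    have h1 : ∀ x : X₀.X, ∃ V : X₀.X.Opens, IsAffineOpen V ∧ x ∈ V := by
      intro x
      obtain ⟨W, hW, hxW, -⟩ := exists_isAffineOpen_mem_and_subset (X := X₀.X) (U := ⊤)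
        (x := x) trivial
      exact ⟨W, hW, hxW⟩
    choose V hV1 hV2 using h1
    obtain ⟨t, ht⟩ := isCompact_univ.elim_finite_subcover (fun x : X₀.X => ((V x : X₀.X.Opens) : Set X₀.X))
      (fun x => (V x).isOpen) (fun x _ => Set.mem_iUnion.mpr ⟨x, hV2 x⟩)
    classical
    refine ⟨t.image V, ?_, ?_⟩
    · intro W hW
      obtain ⟨x, -, rfl⟩ := Finset.mem_image.mp hW
      exact hV1 x
    · intro x
      obtain ⟨y, hy1, hy2⟩ := Set.mem_iUnion₂.mp (ht (Set.mem_univ x))
      exact ⟨V y, Finset.mem_image.mpr ⟨y, hy1, rfl⟩, hy2⟩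
  obtain ⟨S, hS⟩ : ∃ S : ∀ V : X₀.X.Opens, Finset Γ(X₀.X, V), ∀ V : X₀.X.Opens, IsAffineOpen V →
      Subring.closure (Set.range ((Scheme.ΓSpecIso (CommRingCat.of k)).inv ≫
        X₀.f.appLE ⊤ V le_top).hom ∪ (S V : Set Γ(X₀.X, V))) = ⊤ := by
    have h1 : ∀ V : X₀.X.Opens, ∃ s : Finset Γ(X₀.X, V), IsAffineOpen V →
        Subring.closure (Set.range ((Scheme.ΓSpecIso (CommRingCat.of k)).inv ≫
          X₀.f.appLE ⊤ V le_top).hom ∪ (s : Set Γ(X₀.X, V))) = ⊤ := by
      intro V
      by_cases hV : IsAffineOpen V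
      · obtain ⟨s, hs⟩ := hSEP.2 k X₀ V hV
        exact ⟨s, fun _ => hs⟩
      · exact ⟨∅, fun h => absurd h hV⟩
    choose S hS using h1
    exact ⟨S, hS⟩
  -- all pairs are processed
  have base : ∀ (i : ℕ) (Y : Var k) (_ : IsIntegral Y.X) (f : Y.X ⟶ X₀.X)
      (_ : IsAffineHom f), bad 𝒱 S f = ∅ → (T i).InjC Y := by
    intro i Y hY f hf hb
    have hqa : Y.X.IsQuasiAffine := by
      refine hQAF k X₀ Y f hf hY (𝒱 : Set X₀.X.Opens) S ?_ ?_ ?_
      · intro x
        obtain ⟨V, hV1, hV2⟩ := hcov x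
        exact ⟨V, hV1, hV2⟩
      · intro V hV
        exact ⟨h𝒱 V hV, hS V (h𝒱 V hV)⟩
      · intro V hV hne h hh
        by_contra hcon
        have h1 : (⟨V, h⟩ : Σ V : X₀.X.Opens, Γ(X₀.X, V)) ∈ bad 𝒱 S f :=
          (mem_bad _ _ _ _).mpr ⟨⟨hV, hh⟩, hne, hcon⟩
        rw [hb] at h1
        exact absurd h1 (Finset.notMem_empty _)
    obtain ⟨A, i1, i2, i3, ⟨j⟩⟩ := hQEM k Y hqa
    refine hOPEN k E i (T i) Y (aff k A) j (hgood i) (haff i (aff k A) ?_)
    change IsAffine (Spec (CommRingCat.of A))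
    infer_instance
  -- Claim B
  have claimB : ∀ (m i : ℕ) (Y : Var k) (_ : IsIntegral Y.X) (f : Y.X ⟶ X₀.X)
      (_ : IsAffineHom f), f ≫ X₀.f = Y.f → Y.DimLE (i + (d + 1)) → (bad 𝒱 S f).card ≤ m →
      (T i).InjC Y := by
    intro m
    induction m with
    | zero =>
      intro i Y hY f hf hfc _ hcard
      exact base i Y hY f hf (Finset.card_eq_zero.mp (Nat.le_zero.mp hcard))
    | succ m ih =>
      intro i Y hY f hf hfc hYd hcard
      by_cases hb : bad 𝒱 S f = ∅
      · exact base i Y hY f hf hb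
      · obtain ⟨⟨V, h⟩, hVh⟩ := Finset.nonempty_iff_ne_empty.mpr hb
        obtain ⟨⟨hV1, hV2⟩, hne, hnp⟩ := (mem_bad _ _ _ _).mp hVh
        obtain ⟨X₁, P, Y', hX₁, hY', M, B, σ, j, g, hσ, hcompl, hg, hMj, hgaff, hproc, hdim⟩ :=
          hGST k X₀ Y hY f hf V h hfc hne
        obtain ⟨hd1, hd2⟩ := hdim _ hYd
        -- the variety `Y'`
        have hgc : g ≫ X₀.f = Y'.f := by
          rw [hg, Category.assoc, Category.assoc, Category.assoc, hfc, M.f.comm, B.p.comm, j.comm]
        have hd2' : Y'.DimLE ((i + 1) + (d + 1)) := by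
          have h1 : i + (d + 1) + 1 = (i + 1) + (d + 1) := by omega
          rw [← h1]
          exact hd2
        have hlt : (bad 𝒱 S g).card < (bad 𝒱 S f).card := by
          apply Finset.card_lt_card
          rw [Finset.ssubset_iff_of_subset]
          · refine ⟨⟨V, h⟩, hVh, ?_⟩
            intro h1
            exact ((mem_bad _ _ _ _).mp h1).2.2 hproc
          · rw [hg, show j.g ≫ B.p.g ≫ M.f.g ≫ f = (j.g ≫ B.p.g ≫ M.f.g) ≫ f by
              simp only [Category.assoc]]
            exact bad_comp hPPE 𝒱 S _ f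
        have hY'inj : (T (i + 1)).InjC Y' := ih (i + 1) Y' hY' g hgaff hgc hd2' (by omega)
        have hX₁inj' : (T (i + 1)).InjC X₁ := by
          apply hP
          have h1 : i + (d + 1) = (i + 1) + d := by omega
          rw [← h1]
          exact hd1
        have hX₁inj : (T i).InjC X₁ := hDESC k E T hT i P X₁ Y' B σ j hσ hcompl hX₁inj' hY'inj
        have hne' : ∃ x : Y.X, x ∈ Set.range M.j.g := by
          obtain ⟨y, hy⟩ := hne
          refine ⟨y, ?_⟩
          rw [hMj]
          exact hy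
        have hZ : (T i).InjC M.Z :=
          hP i M.Z (dimLE_compl hDST M.a M.j M.h hY hne' (i + d) hYd)
        exact hMOD k E T hT i X₁ Y M (hgood i) hX₁inj hZ
          (hpush i X₁ Y M hX₁ hY hYd hne')
  exact claimB _ i₀ X₀ hX₀ (𝟙 X₀.X) inferInstance (Category.id_comp _) hdX₀ le_rfl

end CUB


end

section

/-!
# CUB2: divisors in charts
-/

set_option autoImplicit false

open CategoryTheory AlgebraicGeometry Limits Polynomial TopologicalSpace

namespace CUB

open Pool.Agent.Lib_helper55.Beil Pool.Agent.Lib_helper66.OneP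

namespace DVC

/-- The sum of the divisors of two rational functions is the divisor of the product. -/
lemma isDiv_mul {k : Type} [Field k] {E : Type} [Field E] {i : ℕ} {W X : Var k}
    (a : ClosedIn W X) [IsIntegral W.X] (φ ψ : W.X.functionField) (hφ : φ ≠ 0) (hψ : ψ ≠ 0)
    (c d : Pts i X →₀ E) (hc : IsDiv a φ c) (hd : IsDiv a ψ d) : IsDiv a (φ * ψ) (c + d) := by
  refine ⟨?_, ?_⟩
  · intro w hw
    refine (Finsupp.add_apply _ _ _).trans ((congrArg₂ (· + ·) (hc.1 w hw) (hd.1 w hw)).trans ?_)
    rw [Scheme.ord_mul hφ hψ]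
    push_cast
    rfl
  · intro x hx
    exact (Finsupp.add_apply _ _ _).trans
      ((congrArg₂ (· + ·) (hc.2 x hx) (hd.2 x hx)).trans (add_zero _))

end DVC

theorem t_DVC : M_DVC := by
  intro _ hCHA _
  refine ⟨?_, ?_⟩
  · intro k A E _ _ _ _ _ n X W hW a φ c j hd hP
    have h1 : resCyc j c = 0 := by
      ext u
      rw [resCyc_apply]
      apply hd.2
      rintro ⟨w, hw⟩
      exact hCHA.2.2.2.1 k A X W hW a j hP w ⟨u.1, hw.symm⟩
    unfold rc
    rw [h1, map_zero]
  · intro k A E _ _ _ _ _ n X W hW a φ c j p h hh hφ hd hcomm hr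
    have hres : IsDiv (cq (k := k) p.1.asIdeal) (funMap h φ) (resCyc j c) :=
      isDiv_res a j (cq (k := k) p.1.asIdeal) h hcomm hr φ c hd
    have hψ : funMap h φ ≠ 0 := by
      intro h0
      exact hφ ((map_eq_zero_iff _ (funMap h).hom.injective).mp h0)
    refine ⟨?_, ?_⟩
    · obtain ⟨α, β, hα, hβ, hαβ⟩ := exists_fnA (k := k) (D := A ⧸ p.1.asIdeal) (funMap h φ) hψ
      obtain ⟨α, rfl⟩ := Ideal.Quotient.mk_surjective α
      obtain ⟨β, rfl⟩ := Ideal.Quotient.mk_surjective β
      exact ⟨α, β, fun h => hα (Ideal.Quotient.eq_zero_iff_mem.mpr h),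
        fun h => hβ (Ideal.Quotient.eq_zero_iff_mem.mpr h), hαβ⟩
    · intro x y hx hy hxy dx dy hdx hdy
      have hy' : Ideal.Quotient.mk p.1.asIdeal y ≠ 0 :=
        fun h => hy (Ideal.Quotient.eq_zero_iff_mem.mp h)
      have h1 := (isDiv_iff p.1 p.2 x hx dx).mpr hdx
      have h2 := (isDiv_iff p.1 p.2 y hy dy).mpr hdy
      have h3 := DVC.isDiv_mul (cq (k := k) p.1.asIdeal) _ _ hψ (fnA_ne_zero (k := k) hy')
        _ _ hres h2
      rw [hxy] at h3
      have h4 : resCyc j c + cyE E n dy = cyE E n dx :=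
        isDiv_unique (cq (k := k) p.1.asIdeal) _ _ _ h3 h1
      unfold rc
      rw [eq_sub_of_add_eq h4, ← map_sub, LinearEquiv.symm_apply_apply]

end CUB


end

section

/-!
# CUB2: module FOV
-/

set_option autoImplicit false

open CategoryTheory AlgebraicGeometry Limits Polynomial TopologicalSpace

namespace CUB

open Pool.Agent.Lib_helper55.Beil Pool.Agent.Lib_helper66.OneP

universe v

namespace FOV

variable {k : Type} [Field k]

/-- A Noetherian quasi-sober space without proper specialisations is finite. -/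
lemma finite_of_noeth {T : Type*} [TopologicalSpace T] [NoetherianSpace T] [QuasiSober T]
    (h : ∀ x y : T, x ⤳ y → x = y) : Finite T := by
  have h1 : (irreducibleComponents T).Finite := NoetherianSpace.finite_irreducibleComponents
  have hinj : Function.Injective (irreducibleComponent : T → Set T) := by
    intro x y hxy
    have hir : IsIrreducible (irreducibleComponent x) := isIrreducible_irreducibleComponent
    have hcl : IsClosed (irreducibleComponent x) := isClosed_irreducibleComponent
    obtain ⟨z, hz⟩ := QuasiSober.sober hir hcl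
    have hz' : closure {z} = irreducibleComponent x := hz
    have hx : z ⤳ x := by
      rw [specializes_iff_mem_closure, hz']
      exact mem_irreducibleComponent
    have hy : z ⤳ y := by
      rw [specializes_iff_mem_closure, hz', hxy]
      exact mem_irreducibleComponent
    rw [← h z x hx, ← h z y hy]
  have h2 : Finite (irreducibleComponents T) := h1
  exact Finite.of_injective (fun x : T => (⟨irreducibleComponent x,
    irreducibleComponent_mem_irreducibleComponents x⟩ : irreducibleComponents T))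
    (fun x y hxy => hinj (congrArg Subtype.val hxy))

/-- A fibre without proper specialisations is finite. -/
lemma finite_fibre (W V : Var k) (g : W.X ⟶ V.X) (v : V.X)
    (h : ∀ x y : W.X, g x = v → g y = v → x ⤳ y → x = y) : (g ⁻¹' {v}).Finite := by
  have hN : NoetherianSpace (g.fiber v) :=
    (g.fiberι v).isEmbedding.isInducing.noetherianSpace
  have hfin : Finite (g.fiber v) := by
    apply finite_of_noeth
    intro x y hxy
    apply (g.fiberι v).isEmbedding.injective
    have hx : g (g.fiberι v x) = v := ((g.fiberHomeo v) x).2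
    have hy : g (g.fiberι v y) = v := ((g.fiberHomeo v) y).2
    exact h _ _ hx hy (hxy.map (g.fiberι v).continuous)
  have h2 : Finite (g ⁻¹' {v} : Set W.X) := Finite.of_equiv _ (g.fiberHomeo v).toEquiv
  exact h2

/-- A restriction of a finite restriction is finite. -/
lemma isFinite_restrict {X Y : Scheme.{0}} (f : X ⟶ Y) {U U' : Y.Opens} (h : U ≤ U')
    (hf : IsFinite (f ∣_ U')) : IsFinite (f ∣_ U) := by
  have h1 : IsPullback (f ⁻¹ᵁ U).ι (f ∣_ U) f U.ι :=
    (isPullback_morphismRestrict f U).flip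
  have h2 : IsPullback (f ⁻¹ᵁ U').ι (f ∣_ U') f U'.ι :=
    (isPullback_morphismRestrict f U').flip
  have hle : f ⁻¹ᵁ U ≤ f ⁻¹ᵁ U' := fun x hx => h hx
  have hc : X.homOfLE hle ≫ (f ∣_ U') = (f ∣_ U) ≫ Y.homOfLE h := by
    rw [← cancel_mono U'.ι, Category.assoc, Category.assoc, Scheme.homOfLE_ι, ← h2.w,
      ← Category.assoc, Scheme.homOfLE_ι, h1.w]
  have h3 : IsPullback (X.homOfLE hle) (f ∣_ U) (f ∣_ U') (Y.homOfLE h) := by
    refine IsPullback.of_right ?_ hc h2
    rw [Scheme.homOfLE_ι, Scheme.homOfLE_ι]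
    exact h1
  exact MorphismProperty.of_isPullback h3 hf

/-- Morphisms of affine varieties come from homomorphisms. -/
lemma exists_spm {A B : Type} [CommRing A] [CommRing B] [Algebra k A] [Algebra k B]
    [Algebra.FiniteType k A] [Algebra.FiniteType k B] (l : (aff k B).X ⟶ (aff k A).X)
    (hl : l ≫ (aff k A).f = (aff k B).f) : ∃ φ : A →ₐ[k] B, spm φ = l := by
  let ψ : CommRingCat.of A ⟶ CommRingCat.of B := Spec.preimage l
  have hψ : Spec.map ψ = l := Spec.map_preimage l
  have h1 : Spec.map ψ ≫ Spec.map (CommRingCat.ofHom (algebraMap k A)) =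
      Spec.map (CommRingCat.ofHom (algebraMap k B)) := by
    rw [hψ]
    exact hl
  rw [← Spec.map_comp] at h1
  have h2 := Spec.map_injective h1
  have h3 : ψ.hom.comp (algebraMap k A) = algebraMap k B := by
    have h4 := congrArg CommRingCat.Hom.hom h2
    exact h4
  refine ⟨{ ψ.hom with commutes' := fun r => congrArg (fun F => F r) h3 }, ?_⟩
  rw [← hψ]
  rfl

/-- Charts for a morphism which is finite over an affine open subset. -/
lemma charts (W V : Var k) (hW : IsIntegral W.X) (hV : IsIntegral V.X) (f : PrMor W V)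
    (hgen : f.g (genericPoint W.X) = genericPoint V.X) {B : Type} [CommRing B] [Algebra k B]
    [Algebra.FiniteType k B] (j : OpenIn (aff k B) V)
    (hne : genericPoint V.X ∈ Set.range j.g) (hfin : IsFinite (f.g ∣_ j.g.opensRange)) :
    ∃ (B₁ : Type) (_ : CommRing B₁) (_ : Algebra k B₁) (_ : Algebra.FiniteType k B₁)
    (φ : B →ₐ[k] B₁) (j₁ : OpenIn (aff k B₁) W),
    j₁.g ≫ f.g = spm φ ≫ j.g ∧ φ.toRingHom.Finite ∧ Function.Injective φ ∧
    ∀ w : W.X, f.g w ∈ Set.range j.g → w ∈ Set.range j₁.g := by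
  have hB : IsAffine (aff k B).X := inferInstanceAs (IsAffine (Spec (CommRingCat.of B)))
  have hU : IsAffine (j.g.opensRange).toScheme := isAffineOpen_opensRange j.g
  have hah : IsAffineHom (f.g ∣_ j.g.opensRange) := hfin.toIsAffineHom
  have haff' : IsAffine (f.g ⁻¹ᵁ j.g.opensRange).toScheme :=
    isAffine_of_isAffineHom (f.g ∣_ j.g.opensRange)
  have haff : IsAffine (openVar W (f.g ⁻¹ᵁ j.g.opensRange)).X := haff'
  obtain ⟨B₁, i1, i2, i3, ⟨s⟩⟩ := exists_aff (openVar W (f.g ⁻¹ᵁ j.g.opensRange))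
  let o := openVarIn W (f.g ⁻¹ᵁ j.g.opensRange)
  let j₁ : OpenIn (aff k B₁) W := ⟨s.e.hom ≫ o.g, by rw [Category.assoc, o.comm, s.comm],
    inferInstance⟩
  have hr : Set.range j₁.g = f.g ⁻¹' Set.range j.g := by
    ext w
    constructor
    · rintro ⟨y, rfl⟩
      have h1 : o.g (s.e.hom y) ∈ Set.range o.g := ⟨_, rfl⟩
      rw [range_openVarIn] at h1
      exact h1
    · intro hw
      have h1 : w ∈ Set.range o.g := by
        rw [range_openVarIn]
        exact hw
      obtain ⟨y, hy⟩ := h1
      refine ⟨s.e.inv y, ?_⟩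
      have h2 : s.e.hom (s.e.inv y) = y := s.surj y
      have h3 : j₁.g (s.e.inv y) = o.g (s.e.hom (s.e.inv y)) := rfl
      rw [h3, h2, hy]
  have hr2 : Set.range (j₁.g ≫ f.g) ⊆ Set.range j.g := by
    rintro _ ⟨y, rfl⟩
    have h1 : j₁.g y ∈ Set.range j₁.g := ⟨y, rfl⟩
    rw [hr] at h1
    exact h1
  let l : (aff k B₁).X ⟶ (aff k B).X := IsOpenImmersion.lift j.g (j₁.g ≫ f.g) hr2
  have hl : l ≫ j.g = j₁.g ≫ f.g := IsOpenImmersion.lift_fac j.g (j₁.g ≫ f.g) hr2
  have hlk : l ≫ (aff k B).f = (aff k B₁).f := by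
    rw [← j.comm, ← Category.assoc, hl, Category.assoc, f.comm, j₁.comm]
  have hlfin : IsFinite l := by
    let e : (aff k B₁).X ≅ (f.g ⁻¹ᵁ j.g.opensRange).toScheme := s.e
    have h0 : j₁.g = e.hom ≫ (f.g ⁻¹ᵁ j.g.opensRange).ι := rfl
    have h1 : e.hom ≫ (f.g ∣_ j.g.opensRange) = l ≫ j.g.isoOpensRange.hom := by
      rw [← cancel_mono (j.g.opensRange).ι, Category.assoc, Category.assoc,
        Scheme.Hom.isoOpensRange_hom_ι, hl, morphismRestrict_ι, h0, Category.assoc]
    have h2 : l = e.hom ≫ (f.g ∣_ j.g.opensRange) ≫ j.g.isoOpensRange.inv := by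
      rw [← Category.assoc, h1, Category.assoc, Iso.hom_inv_id, Category.comp_id]
    rw [h2]
    infer_instance
  obtain ⟨φ, hφ⟩ := exists_spm l hlk
  have hcomm : j₁.g ≫ f.g = spm φ ≫ j.g := by rw [hφ, hl]
  refine ⟨B₁, i1, i2, i3, φ, j₁, hcomm, ?_, ?_, ?_⟩
  · have h1 : IsFinite (Spec.map (CommRingCat.ofHom φ.toRingHom)) := by
      have h2 : IsFinite (spm φ) := by
        rw [hφ]
        exact hlfin
      exact h2
    exact (IsFinite.SpecMap_iff _).mp h1
  · have hgW : genericPoint W.X ∈ Set.range j₁.g := by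
      rw [hr]
      change f.g (genericPoint W.X) ∈ Set.range j.g
      rw [hgen]
      exact hne
    obtain ⟨η₁, hη₁⟩ := hgW
    obtain ⟨η, hη⟩ := hne
    have hn1 : Nonempty (aff k B₁).X := ⟨η₁⟩
    have hn : Nonempty (aff k B).X := ⟨η⟩
    have hi1 : IsIntegral (aff k B₁).X := isIntegral_of_isOpenImmersion j₁.g
    have hi : IsIntegral (aff k B).X := isIntegral_of_isOpenImmersion j.g
    have hi1' : IsIntegral (Spec (CommRingCat.of B₁)) := hi1
    have hi' : IsIntegral (Spec (CommRingCat.of B)) := hi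
    have hd1 : IsDomain B₁ := (affine_isIntegral_iff (CommRingCat.of B₁)).mp hi1'
    have hd : IsDomain B := (affine_isIntegral_iff (CommRingCat.of B)).mp hi'
    have e1 : η₁ = genericPoint (aff k B₁).X := by
      apply j₁.g.isOpenEmbedding.injective
      rw [hη₁, genericPoint_eq_of_isOpenImmersion j₁.g]
    have e2 : η = genericPoint (aff k B).X := by
      apply j.g.isOpenEmbedding.injective
      rw [hη, genericPoint_eq_of_isOpenImmersion j.g]
    have e3 : spm φ η₁ = η := by
      apply j.g.isOpenEmbedding.injective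
      have h1 : (j₁.g ≫ f.g) η₁ = (spm φ ≫ j.g) η₁ :=
        congrArg (fun F : (aff k B₁).X ⟶ V.X => F η₁) hcomm
      have h2 : (j₁.g ≫ f.g) η₁ = f.g (j₁.g η₁) := rfl
      have h3 : (spm φ ≫ j.g) η₁ = j.g (spm φ η₁) := rfl
      rw [← h3, ← h1, h2, hη₁, hgen, hη]
    have e4 : η₁ = (show (aff k B₁).X from
        (⟨⊥, Ideal.isPrime_bot⟩ : PrimeSpectrum B₁)) := by
      rw [e1]
      exact genericPoint_eq_bot_of_affine (CommRingCat.of B₁)
    have e5 : η = (show (aff k B).X from
        (⟨⊥, Ideal.isPrime_bot⟩ : PrimeSpectrum B)) := by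
      rw [e2]
      exact genericPoint_eq_bot_of_affine (CommRingCat.of B)
    rw [e4, e5] at e3
    have e6 : PrimeSpectrum.comap φ.toRingHom (⟨⊥, Ideal.isPrime_bot⟩ : PrimeSpectrum B₁) =
        (⟨⊥, Ideal.isPrime_bot⟩ : PrimeSpectrum B) := e3
    have e7 : RingHom.ker φ.toRingHom = ⊥ := congrArg PrimeSpectrum.asIdeal e6
    exact (RingHom.injective_iff_ker_eq_bot φ.toRingHom).mpr e7
  · intro w hw
    rw [hr]
    exact hw

end FOV

theorem t_FOV : M_FOV.{v} := by
  intro hPFC hDST hCHA k _ n W V hW hV f v hdW hdV hgen hv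
  have hfib : ∀ w : W.X, f.g w = v → W.dim w = n := by
    intro w hw
    have h1 : V.dim (f.g w) ≤ W.dim w := hPFC.1 k W V f.g f.comm w
    rw [hw, hv] at h1
    have hne : genericPoint W.X ≠ w := by
      intro h2
      rw [← h2, hgen] at hw
      rw [← hw, hdV] at hv
      have h3 : n + 1 = n := Nat.cast_injective (R := Cardinal) hv
      omega
    have h2 := hDST.1 k W (genericPoint W.X) w (genericPoint_specializes w) hne
    rw [hdW] at h2
    obtain ⟨m, hm⟩ := hDST.2.1 k W w
    rw [hm] at h1 h2 ⊢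
    have h3 : n ≤ m := by exact_mod_cast h1
    have h4 : m < n + 1 := by exact_mod_cast h2
    have h5 : m = n := by omega
    rw [h5]
  have hfin : (f.g ⁻¹' {v}).Finite := by
    apply FOV.finite_fibre
    intro x y hx hy hxy
    by_contra hne
    have h1 := hDST.1 k W x y hxy hne
    rw [hfib x hx, hfib y hy] at h1
    exact lt_irrefl _ h1
  obtain ⟨O, hvO, hO⟩ := exists_isFinite_morphismRestrict_of_finite_preimage_singleton f.g v hfin
  obtain ⟨B, i1, i2, i3, j, hvj, hjO⟩ := hCHA.1 k V v O hvO
  have hgV : genericPoint V.X ∈ Set.range j.g :=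
    (genericPoint_specializes v).mem_open j.g.isOpenEmbedding.isOpen_range hvj
  have hle : j.g.opensRange ≤ O := fun x hx => hjO hx
  obtain ⟨B₁, i4, i5, i6, φ, j₁, h1, h2, h3, h4⟩ := FOV.charts W V hW hV f hgen j hgV
    (FOV.isFinite_restrict f.g hle hO)
  exact ⟨B, B₁, i1, i4, i2, i5, i3, i6, φ, j, j₁, h1, h2, h3, hvj, h4⟩

end CUB


end

section

/-!
# CUB2, module IND: the induction on the dimension
-/

set_option autoImplicit false

open CategoryTheory AlgebraicGeometry Limits Polynomial TopologicalSpace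

namespace CUB

open Pool.Agent.Lib_helper55.Beil Pool.Agent.Lib_helper66.OneP

universe v

namespace IND

variable {k : Type} [Field k]

/-- The generic point of a modification has an image of the same dimension. -/
lemma dim_generic (X' X : Var k) (M : Modif X' X) [IsIntegral X'.X]
    (h : ∃ x : X.X, x ∈ Set.range M.j.g) :
    X.dim (M.f.g (genericPoint X'.X)) = X'.dim (genericPoint X'.X) := by
  obtain ⟨x, u, -⟩ := h
  have hopen : IsOpen (Set.range M.j'.g) := M.j'.g.isOpenEmbedding.isOpen_range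
  have hne : (Set.univ ∩ Set.range M.j'.g).Nonempty :=
    ⟨_, trivial, ⟨M.fU.symm.cl.g u, rfl⟩⟩
  have hgen : genericPoint X'.X ∈ Set.range M.j'.g :=
    ((genericPoint_spec X'.X).mem_open_set_iff hopen).2 hne
  obtain ⟨η, hη⟩ := hgen
  have hw : M.f.g (M.j'.g η) = M.j.g (M.fU.e.hom η) := by
    have h1 : (M.j'.g ≫ M.f.g) η = (M.fU.e.hom ≫ M.j.g) η := by rw [M.hU.w]
    exact h1
  rw [← hη, hw]
  rw [dim_map M.j.g M.j.comm, dim_map M.fU.e.hom M.fU.comm, dim_map M.j'.g M.j'.comm]

end IND

theorem t_IND : M_IND.{v} := by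
  intro hDST hFDM hP0 hPUSHG hPUSHR hCHN k E _ _ _ _ T hT hSS haff
  have key : ∀ d : ℕ, ∀ (i : ℕ) (X : Var k), X.DimLE (i + d) → (T i).InjC X := by
    intro d
    induction d with
    | zero =>
      intro i X hX
      exact hP0 k E T hT i (hSS i) (haff i) X hX
    | succ d ih =>
      refine hCHN k E T hT d hSS haff ih ?_
      intro i X' X M hX' hX hdim hne c hc
      rcases Nat.eq_zero_or_pos d with rfl | hd
      · refine hPUSHG k E i X' X M.f ?_ c hc
        intro x hx
        have hgen := IND.dim_generic X' X M hne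
        have hle : X'.dim (genericPoint X'.X) ≤ ((i + 1 : ℕ) : Cardinal) := by
          rw [← hgen]
          exact hdim _
        have hxe : x = genericPoint X'.X := by
          by_contra hxne
          have hlt := hDST.1 k X' (genericPoint X'.X) x (genericPoint_specializes x)
            (fun e => hxne e.symm)
          rw [hx] at hlt
          exact absurd (lt_of_lt_of_le hlt hle) (by simp)
        rw [hxe, hgen, ← hxe, hx]
      · refine hPUSHR k E T hT i X' X M.f ?_ c hc
        intro V hV
        refine ih i V ?_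
        intro x
        refine (hV x).trans ?_
        exact_mod_cast (by omega : i + 1 ≤ i + d)
  intro i X
  obtain ⟨n, hn⟩ := hFDM k X
  refine key n i X ?_
  intro x
  refine (hn x).trans ?_
  exact_mod_cast (by omega : n ≤ i + n)

end CUB


end

section

/-!
# CUB2, LSUM: lengths over a finite extension
-/

set_option autoImplicit false

namespace CUB

namespace LSUM

lemma len_loc_exact {R : Type} [CommRing R] (W : Submonoid R) {N₁ N₂ N₃ : Type}
    [AddCommGroup N₁] [AddCommGroup N₂] [AddCommGroup N₃] [Module R N₁] [Module R N₂]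
    [Module R N₃] (f : N₁ →ₗ[R] N₂) (g : N₂ →ₗ[R] N₃) (hf : Function.Injective f)
    (hg : Function.Surjective g) (hfg : Function.Exact f g) :
    Module.length (Localization W) (LocalizedModule W N₂) =
      Module.length (Localization W) (LocalizedModule W N₁) +
        Module.length (Localization W) (LocalizedModule W N₃) :=
  Module.length_eq_add_of_exact (LocalizedModule.map W f) (LocalizedModule.map W g)
    (IsLocalizedModule.map_injective W (LocalizedModule.mkLinearMap W N₁)
      (LocalizedModule.mkLinearMap W N₂) f hf)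
    (IsLocalizedModule.map_surjective W (LocalizedModule.mkLinearMap W N₂)
      (LocalizedModule.mkLinearMap W N₃) g hg)
    (LocalizedModule.map_exact W f g hfg)

lemma len_loc_equiv {R : Type} [CommRing R] (W : Submonoid R) {N₁ N₂ : Type}
    [AddCommGroup N₁] [AddCommGroup N₂] [Module R N₁] [Module R N₂] (e : N₁ ≃ₗ[R] N₂) :
    Module.length (Localization W) (LocalizedModule W N₁) =
      Module.length (Localization W) (LocalizedModule W N₂) := by
  apply le_antisymm
  · exact Module.length_le_of_injective (LocalizedModule.map W e.toLinearMap)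
      (IsLocalizedModule.map_injective W (LocalizedModule.mkLinearMap W N₁)
        (LocalizedModule.mkLinearMap W N₂) e.toLinearMap e.injective)
  · exact Module.length_le_of_injective (LocalizedModule.map W e.symm.toLinearMap)
      (IsLocalizedModule.map_injective W (LocalizedModule.mkLinearMap W N₂)
        (LocalizedModule.mkLinearMap W N₁) e.symm.toLinearMap e.symm.injective)

lemma len_loc_zero {R : Type} [CommRing R] (W : Submonoid R) {N : Type}
    [AddCommGroup N] [Module R N] (h : ∀ m : N, ∃ r ∈ W, r • m = 0) :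
    Module.length (Localization W) (LocalizedModule W N) = 0 := by
  rw [Module.length_eq_zero_iff]
  exact LocalizedModule.subsingleton_iff.2 h

lemma mk_zero {R : Type} [CommRing R] {W : Submonoid R} {N : Type} [AddCommGroup N]
    [Module R N] {m : N} {s : W} (h : LocalizedModule.mk m s = 0) : ∃ c : W, c.1 • m = 0 := by
  rw [← LocalizedModule.zero_mk s, LocalizedModule.mk_eq] at h
  obtain ⟨c, hc⟩ := h
  refine ⟨c * s, ?_⟩
  rw [smul_zero, smul_zero, Submonoid.smul_def, Submonoid.smul_def, smul_smul] at hc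
  exact hc

section

variable {B D : Type} [CommRing B] [CommRing D] [Algebra B D]

/-- dévissage -/
lemma devissage [IsNoetherianRing D] (p : PrimeSpectrum B) (S : Finset (PrimeSpectrum D))
    (hq : ∀ Q : PrimeSpectrum D,
      Module.length (Localization.AtPrime p.asIdeal)
        (LocalizedModule p.asIdeal.primeCompl (D ⧸ Q.asIdeal)) ≠ ⊤ →
      Module.length (Localization.AtPrime p.asIdeal)
        (LocalizedModule p.asIdeal.primeCompl (D ⧸ Q.asIdeal)) =
      ∑ P ∈ S, (rdeg (algebraMap B D) P : ℕ∞) * Module.length (Localization.AtPrime P.asIdeal)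
        (LocalizedModule P.asIdeal.primeCompl (D ⧸ Q.asIdeal)))
    (M : Type) [AddCommGroup M] [Module D M] [hfin : Module.Finite D M] :
    ∀ [Module B M] [IsScalarTower B D M],
    Module.length (Localization.AtPrime p.asIdeal) (LocalizedModule p.asIdeal.primeCompl M) ≠ ⊤ →
    Module.length (Localization.AtPrime p.asIdeal) (LocalizedModule p.asIdeal.primeCompl M) =
      ∑ P ∈ S, (rdeg (algebraMap B D) P : ℕ∞) * Module.length (Localization.AtPrime P.asIdeal)
        (LocalizedModule P.asIdeal.primeCompl M) := by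
  induction hfin using IsNoetherianRing.induction_on_isQuotientEquivQuotientPrime D with
  | subsingleton N =>
    intro _ _ _
    rw [len_loc_zero _ (fun m => ⟨1, one_mem _, Subsingleton.elim _ _⟩)]
    symm
    apply Finset.sum_eq_zero
    intro P _
    rw [len_loc_zero _ (fun m => ⟨1, one_mem _, Subsingleton.elim _ _⟩), mul_zero]
  | quotient N Q e =>
    intro _ _ hN
    have e1 := len_loc_equiv p.asIdeal.primeCompl (e.restrictScalars B)
    rw [e1] at hN
    rw [e1, hq Q hN]
    apply Finset.sum_congr rfl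
    intro P _
    rw [len_loc_equiv P.asIdeal.primeCompl e]
  | exact N₁ N₂ N₃ f g hf hg hfg h₁ h₃ =>
    intro _ _ hN
    let m1 : Module B N₁ := Module.compHom N₁ (algebraMap B D)
    let m3 : Module B N₃ := Module.compHom N₃ (algebraMap B D)
    have : IsScalarTower B D N₁ := IsScalarTower.of_algebraMap_smul (fun r x => rfl)
    have : IsScalarTower B D N₃ := IsScalarTower.of_algebraMap_smul (fun r x => rfl)
    have e1 := len_loc_exact p.asIdeal.primeCompl (f.restrictScalars B) (g.restrictScalars B)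
      hf hg hfg
    have hne1 : Module.length (Localization.AtPrime p.asIdeal)
        (LocalizedModule p.asIdeal.primeCompl N₁) ≠ ⊤ := by
      intro h
      apply hN
      exact e1.trans (by rw [h, top_add])
    have hne3 : Module.length (Localization.AtPrime p.asIdeal)
        (LocalizedModule p.asIdeal.primeCompl N₃) ≠ ⊤ := by
      intro h
      apply hN
      exact e1.trans (by rw [h, add_top])
    rw [e1, h₁ hne1, h₃ hne3, ← Finset.sum_add_distrib]
    apply Finset.sum_congr rfl
    intro P _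
    rw [len_loc_exact P.asIdeal.primeCompl f g hf hg hfg, mul_add]

end

lemma len_eq {B : Type} [CommRing B] (W : Submonoid B) {N K κ : Type} [AddCommGroup N]
    [Module B N] [Field κ] [Algebra (Localization W) κ] [AddCommGroup K] [Module κ K]
    [Module B K] [Module (Localization W) K] [IsScalarTower B (Localization W) K]
    [IsScalarTower (Localization W) κ K] (g : N →ₗ[B] K) [IsLocalizedModule W g]
    (hs : Function.Surjective (algebraMap (Localization W) κ)) [Module.Finite B N] :
    Module.length (Localization W) (LocalizedModule W N) = Module.finrank κ K := by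
  have e := (IsLocalizedModule.iso W g).extendScalarsOfIsLocalization W (Localization W)
  rw [e.length_eq, Module.length_eq_of_surjective (M := K) hs]
  have : Module.Finite (Localization W) (LocalizedModule W N) :=
    Module.Finite.of_isLocalizedModule W (LocalizedModule.mkLinearMap W N)
  have : Module.Finite (Localization W) K := Module.Finite.equiv e
  have : Module.Finite κ K := Module.Finite.of_restrictScalars_finite (Localization W) κ K
  exact Module.length_eq_finrank κ K

section

variable {B D : Type} [CommRing B] [CommRing D] [Algebra B D]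

/-- a nonzero element of an integral domain extension divides a nonzero element of the base -/
lemma dvd_base [Algebra.IsIntegral B D] (Q : PrimeSpectrum D) (x : D ⧸ Q.asIdeal) (hx : x ≠ 0) :
    ∃ s ∈ (PrimeSpectrum.comap (algebraMap B D) Q).asIdeal.primeCompl,
      x ∣ algebraMap B (D ⧸ Q.asIdeal) s := by
  have h := Ideal.comap_lt_comap_of_integral_mem_sdiff (R := B) (I := (⊥ : Ideal (D ⧸ Q.asIdeal)))
    (J := Ideal.span {x}) bot_le (x := x) ⟨Ideal.mem_span_singleton_self x, fun h => hx h⟩
    (Algebra.IsIntegral.isIntegral x)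
  obtain ⟨s, hs, hs'⟩ := SetLike.exists_of_lt h
  refine ⟨s, ?_, Ideal.mem_span_singleton.1 hs⟩
  intro hs2
  apply hs'
  show algebraMap B (D ⧸ Q.asIdeal) s = 0
  rw [IsScalarTower.algebraMap_apply B D (D ⧸ Q.asIdeal), Ideal.Quotient.algebraMap_eq,
    Ideal.Quotient.eq_zero_iff_mem]
  exact hs2

lemma algMap_ne {Q : PrimeSpectrum D} {s : B}
    (hs : s ∈ (PrimeSpectrum.comap (algebraMap B D) Q).asIdeal.primeCompl) :
    algebraMap B (D ⧸ Q.asIdeal) s ≠ 0 := by
  intro h
  apply hs
  rw [IsScalarTower.algebraMap_apply B D (D ⧸ Q.asIdeal), Ideal.Quotient.algebraMap_eq,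
    Ideal.Quotient.eq_zero_iff_mem] at h
  exact h

lemma isLoc [Algebra.IsIntegral B D] (Q : PrimeSpectrum D) :
    IsLocalization (Algebra.algebraMapSubmonoid (D ⧸ Q.asIdeal)
      (PrimeSpectrum.comap (algebraMap B D) Q).asIdeal.primeCompl) Q.asIdeal.ResidueField := by
  refine { map_units := ?_, surj := ?_, exists_of_eq := ?_ }
  · rintro ⟨_, s, hs, rfl⟩
    rw [isUnit_iff_ne_zero]
    intro h
    exact algMap_ne hs ((FaithfulSMul.algebraMap_injective (D ⧸ Q.asIdeal)
      Q.asIdeal.ResidueField) (h.trans (map_zero _).symm))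
  · intro z
    obtain ⟨⟨a, b⟩, hab⟩ := IsLocalization.surj (nonZeroDivisors (D ⧸ Q.asIdeal)) z
    obtain ⟨s, hs, c, hc⟩ := dvd_base (B := B) Q b.1 (nonZeroDivisors.ne_zero b.2)
    refine ⟨⟨a * c, ⟨_, s, hs, rfl⟩⟩, ?_⟩
    show z * algebraMap _ _ (algebraMap B (D ⧸ Q.asIdeal) s) = algebraMap _ _ (a * c)
    rw [hc, map_mul, map_mul, ← mul_assoc]
    rw [show z * algebraMap (D ⧸ Q.asIdeal) Q.asIdeal.ResidueField b.1 =
      algebraMap (D ⧸ Q.asIdeal) Q.asIdeal.ResidueField a from hab]
  · intro x y h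
    refine ⟨1, ?_⟩
    rw [(FaithfulSMul.algebraMap_injective (D ⧸ Q.asIdeal) Q.asIdeal.ResidueField) h]

lemma len_fib [Module.Finite B D] (Q : PrimeSpectrum D) :
    Module.length (Localization.AtPrime (PrimeSpectrum.comap (algebraMap B D) Q).asIdeal)
      (LocalizedModule (PrimeSpectrum.comap (algebraMap B D) Q).asIdeal.primeCompl
        (D ⧸ Q.asIdeal)) = rdeg (algebraMap B D) Q := by
  have : Algebra.IsIntegral B D := Algebra.IsIntegral.of_finite B D
  set p := PrimeSpectrum.comap (algebraMap B D) Q with hp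
  let a1 : Algebra p.asIdeal.ResidueField Q.asIdeal.ResidueField :=
    (Ideal.ResidueField.map p.asIdeal Q.asIdeal (algebraMap B D) rfl).toAlgebra
  let a2 : Algebra (Localization.AtPrime p.asIdeal) Q.asIdeal.ResidueField :=
    ((algebraMap p.asIdeal.ResidueField Q.asIdeal.ResidueField).comp
      (algebraMap (Localization.AtPrime p.asIdeal) p.asIdeal.ResidueField)).toAlgebra
  have t1 : IsScalarTower (Localization.AtPrime p.asIdeal) p.asIdeal.ResidueField
      Q.asIdeal.ResidueField := IsScalarTower.of_algebraMap_eq (fun x => rfl)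
  have t2 : IsScalarTower B (Localization.AtPrime p.asIdeal) Q.asIdeal.ResidueField := by
    apply IsScalarTower.of_algebraMap_eq
    intro x
    have h1 := Ideal.ResidueField.map_algebraMap p.asIdeal Q.asIdeal (algebraMap B D) rfl x
    rw [IsScalarTower.algebraMap_apply B D Q.asIdeal.ResidueField, ← h1]
    rfl
  have t3 : IsScalarTower B (D ⧸ Q.asIdeal) Q.asIdeal.ResidueField := by
    apply IsScalarTower.of_algebraMap_eq
    intro x
    rw [IsScalarTower.algebraMap_apply B D Q.asIdeal.ResidueField]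
    rfl
  have : IsLocalization (Algebra.algebraMapSubmonoid (D ⧸ Q.asIdeal) p.asIdeal.primeCompl)
      Q.asIdeal.ResidueField := isLoc Q
  have : IsLocalizedModule p.asIdeal.primeCompl
    (IsScalarTower.toAlgHom B (D ⧸ Q.asIdeal) Q.asIdeal.ResidueField).toLinearMap :=
    isLocalizedModule_iff_isLocalization.2 inferInstance
  exact len_eq (κ := p.asIdeal.ResidueField) p.asIdeal.primeCompl
    (IsScalarTower.toAlgHom B (D ⧸ Q.asIdeal) Q.asIdeal.ResidueField).toLinearMap
    (IsLocalRing.residue_surjective)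


/-- the length of the fibre at `Q` itself -/
lemma len_self (Q : PrimeSpectrum D) :
    Module.length (Localization.AtPrime Q.asIdeal)
      (LocalizedModule Q.asIdeal.primeCompl (D ⧸ Q.asIdeal)) = 1 := by
  rw [Module.length_eq_one_iff, isSimpleModule_iff_toSpanSingleton_surjective]
  constructor
  · rw [← not_subsingleton_iff_nontrivial, LocalizedModule.subsingleton_iff]
    intro h
    obtain ⟨r, hr, hr1⟩ := h 1
    apply hr
    show r ∈ Q.asIdeal
    rw [← Ideal.Quotient.eq_zero_iff_mem]
    rw [Algebra.smul_def, mul_one] at hr1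
    exact hr1
  · intro x hx y
    induction x using LocalizedModule.induction_on with
    | _ m s =>
    induction y using LocalizedModule.induction_on with
    | _ n t =>
    obtain ⟨d, rfl⟩ := Ideal.Quotient.mk_surjective m
    obtain ⟨e, rfl⟩ := Ideal.Quotient.mk_surjective n
    have hd : d ∉ Q.asIdeal := by
      intro h
      apply hx
      rw [Ideal.Quotient.eq_zero_iff_mem.2 h, LocalizedModule.zero_mk]
    refine ⟨Localization.mk (e * s.1) (t * ⟨d, hd⟩), ?_⟩
    rw [LinearMap.toSpanSingleton_apply, LocalizedModule.mk_smul_mk, LocalizedModule.mk_eq]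
    refine ⟨1, ?_⟩
    rw [one_smul, one_smul]
    simp only [Submonoid.smul_def, Algebra.smul_def, Ideal.Quotient.algebraMap_eq, ← map_mul]
    congr 1
    simp only [Submonoid.coe_mul]
    ring

/-- the length of the fibre at another prime -/
lemma len_other [Algebra.IsIntegral B D] (P Q : PrimeSpectrum D)
    (h : PrimeSpectrum.comap (algebraMap B D) P = PrimeSpectrum.comap (algebraMap B D) Q)
    (hPQ : P ≠ Q) :
    Module.length (Localization.AtPrime P.asIdeal)
      (LocalizedModule P.asIdeal.primeCompl (D ⧸ Q.asIdeal)) = 0 := by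
  have hn : ¬ Q.asIdeal ≤ P.asIdeal := by
    intro hle
    have hne : ¬ P.asIdeal ≤ Q.asIdeal := fun h' =>
      hPQ (PrimeSpectrum.ext (le_antisymm h' hle))
    obtain ⟨x, hx, hx'⟩ := SetLike.not_le_iff_exists.1 hne
    have := Ideal.comap_lt_comap_of_integral_mem_sdiff (R := B) hle ⟨hx, hx'⟩
      (Algebra.IsIntegral.isIntegral x)
    apply this.ne
    exact (congrArg PrimeSpectrum.asIdeal h).symm
  obtain ⟨d, hd, hd'⟩ := SetLike.not_le_iff_exists.1 hn
  apply len_loc_zero
  intro m
  refine ⟨d, hd', ?_⟩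
  rw [Algebra.smul_def, Ideal.Quotient.algebraMap_eq, Ideal.Quotient.eq_zero_iff_mem.2 hd,
    zero_mul]

/-- the case `q < p` -/
lemma len_lt (p : PrimeSpectrum B) (Q : PrimeSpectrum D)
    (h : PrimeSpectrum.comap (algebraMap B D) Q ≤ p) (b : B) (hb : b ∈ p.asIdeal)
    (hb' : algebraMap B D b ∉ Q.asIdeal) :
    Module.length (Localization.AtPrime p.asIdeal)
      (LocalizedModule p.asIdeal.primeCompl (D ⧸ Q.asIdeal)) = ⊤ := by
  by_contra hne
  rw [← ne_eq, Module.length_ne_top_iff, isFiniteLength_iff_isNoetherian_isArtinian] at hne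
  obtain ⟨i1, i2⟩ := hne
  have hz : ∀ (c : B) (m : D ⧸ Q.asIdeal), algebraMap B D c ∉ Q.asIdeal → c • m = 0 → m = 0 := by
    intro c m hc hm
    rw [Algebra.smul_def] at hm
    refine (mul_eq_zero.1 hm).resolve_left ?_
    intro h0
    apply hc
    rw [← Ideal.Quotient.eq_zero_iff_mem]
    exact h0
  have hW : ∀ c ∈ p.asIdeal.primeCompl, algebraMap B D c ∉ Q.asIdeal := by
    intro c hc hc'
    exact hc (h hc')
  let β : Localization.AtPrime p.asIdeal := algebraMap B _ b
  have hinj : Function.Injective (LinearMap.lsmul (Localization.AtPrime p.asIdeal)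
      (LocalizedModule p.asIdeal.primeCompl (D ⧸ Q.asIdeal)) β) := by
    rw [← LinearMap.ker_eq_bot, LinearMap.ker_eq_bot']
    intro x hx
    induction x using LocalizedModule.induction_on with
    | _ m s =>
    have h1 : LocalizedModule.mk (b • m) s = 0 := by
      have h2 : β • LocalizedModule.mk m s = 0 := hx
      rw [← h2]
      show _ = algebraMap B (Localization.AtPrime p.asIdeal) b • LocalizedModule.mk m s
      rw [algebraMap_smul, LocalizedModule.smul'_mk]
    obtain ⟨c, hc⟩ := mk_zero h1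
    have h3 := hz c.1 _ (hW _ c.2) hc
    have h4 := hz b m hb' h3
    rw [h4, LocalizedModule.zero_mk]
  have hsurj := (IsArtinian.bijective_of_injective_endomorphism _ hinj).2
  have hbot : (⊤ : Submodule (Localization.AtPrime p.asIdeal)
      (LocalizedModule p.asIdeal.primeCompl (D ⧸ Q.asIdeal))) = ⊥ := by
    apply Submodule.eq_bot_of_le_smul_of_le_jacobson_bot
      (IsLocalRing.maximalIdeal (Localization.AtPrime p.asIdeal)) ⊤
    · exact IsNoetherian.noetherian _
    · intro x _
      obtain ⟨y, rfl⟩ := hsurj x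
      apply Submodule.smul_mem_smul _ Submodule.mem_top
      rw [IsLocalization.AtPrime.to_map_mem_maximal_iff _ p.asIdeal]
      exact hb
    · rw [IsLocalRing.jacobson_eq_maximalIdeal _ bot_ne_top]
  have h5 : (LocalizedModule.mk (1 : D ⧸ Q.asIdeal) (1 : p.asIdeal.primeCompl)) = 0 := by
    have : (LocalizedModule.mk (1 : D ⧸ Q.asIdeal) (1 : p.asIdeal.primeCompl)) ∈
      (⊤ : Submodule (Localization.AtPrime p.asIdeal)
      (LocalizedModule p.asIdeal.primeCompl (D ⧸ Q.asIdeal))) := Submodule.mem_top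
    rw [hbot] at this
    exact this
  obtain ⟨c, hc⟩ := mk_zero h5
  exact one_ne_zero (hz c.1 _ (hW _ c.2) hc)

/-- the case of a prime quotient -/
lemma quot_case [Module.Finite B D] (p : PrimeSpectrum B) (S : Finset (PrimeSpectrum D))
    (hS : ∀ P, P ∈ S ↔ PrimeSpectrum.comap (algebraMap B D) P = p) (Q : PrimeSpectrum D)
    (hne : Module.length (Localization.AtPrime p.asIdeal)
        (LocalizedModule p.asIdeal.primeCompl (D ⧸ Q.asIdeal)) ≠ ⊤) :
      Module.length (Localization.AtPrime p.asIdeal)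
        (LocalizedModule p.asIdeal.primeCompl (D ⧸ Q.asIdeal)) =
      ∑ P ∈ S, (rdeg (algebraMap B D) P : ℕ∞) * Module.length (Localization.AtPrime P.asIdeal)
        (LocalizedModule P.asIdeal.primeCompl (D ⧸ Q.asIdeal)) := by
  have : Algebra.IsIntegral B D := Algebra.IsIntegral.of_finite B D
  by_cases h1 : PrimeSpectrum.comap (algebraMap B D) Q ≤ p
  · by_cases h2 : p ≤ PrimeSpectrum.comap (algebraMap B D) Q
    · obtain rfl : PrimeSpectrum.comap (algebraMap B D) Q = p := le_antisymm h1 h2
      rw [len_fib Q, Finset.sum_eq_single Q]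
      · rw [len_self, mul_one]
      · intro P hP hPQ
        rw [len_other P Q ((hS P).1 hP) hPQ, mul_zero]
      · intro hQ
        exact absurd ((hS Q).2 rfl) hQ
    · obtain ⟨b, hb, hb'⟩ := SetLike.not_le_iff_exists.1 (show ¬ p.asIdeal ≤
        (PrimeSpectrum.comap (algebraMap B D) Q).asIdeal from h2)
      exact absurd (len_lt p Q h1 b hb hb') hne
  · obtain ⟨b, hb, hb'⟩ := SetLike.not_le_iff_exists.1 (show ¬
      (PrimeSpectrum.comap (algebraMap B D) Q).asIdeal ≤ p.asIdeal from h1)
    have hbQ : algebraMap B D b ∈ Q.asIdeal := hb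
    rw [len_loc_zero]
    · symm
      apply Finset.sum_eq_zero
      intro P hP
      rw [len_loc_zero, mul_zero]
      intro m
      refine ⟨algebraMap B D b, ?_, ?_⟩
      · intro hbP
        apply hb'
        rw [← (hS P).1 hP]
        exact hbP
      · rw [Algebra.smul_def, Ideal.Quotient.algebraMap_eq, Ideal.Quotient.eq_zero_iff_mem.2 hbQ,
          zero_mul]
    · intro m
      refine ⟨b, hb', ?_⟩
      rw [Algebra.smul_def, IsScalarTower.algebraMap_apply B D (D ⧸ Q.asIdeal),
        Ideal.Quotient.algebraMap_eq, Ideal.Quotient.eq_zero_iff_mem.2 hbQ, zero_mul]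

end

end LSUM

open _root_.CUB.LSUM in
/-- LSUM -/
theorem t_LSUM : S_LSUM := by
  intro B D _ _ _ _ _ p S hS M _ _ _ _ _ hM
  have : IsNoetherianRing D := IsNoetherianRing.of_finite B D
  exact devissage p S (fun Q hQ => quot_case p S hS Q hQ) M hM

end CUB


end

section

/-!
# CUB2: LSUQ, lengths over a finite extension for a quotient of the algebra
-/

set_option autoImplicit false

namespace CUB

namespace LSUQ

lemma toNat_sum {ι : Type} (S : Finset ι) (f : ι → ℕ∞) (h : ∑ i ∈ S, f i ≠ ⊤) :
    (∑ i ∈ S, f i).toNat = ∑ i ∈ S, (f i).toNat := by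
  classical
  induction S using Finset.induction_on with
  | empty => simp
  | insert a s ha ih =>
    rw [Finset.sum_insert ha] at h ⊢
    have h1 : f a ≠ ⊤ := fun h0 => h (by rw [h0, top_add])
    have h2 : ∑ i ∈ s, f i ≠ ⊤ := fun h0 => h (by rw [h0, add_top])
    rw [ENat.toNat_add h1 h2, ih h2, Finset.sum_insert ha]

end LSUQ

theorem t_LSUQ : M_LSUQ := by
  intro h B D _ _ _ _ _ p S I hS hfin
  have h1 := h B D p S hS (D ⧸ I) hfin
  unfold lC
  rw [h1] at hfin ⊢
  rw [LSUQ.toNat_sum S _ hfin]
  refine Finset.sum_congr rfl fun P _ => ?_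
  rw [ENat.toNat_mul, ENat.toNat_natCast]
  congr 1
  exact DISJ.len_eq I P

end CUB


end

section

/-!
# CUB2, module NPU: the divisor of the norm
-/

set_option autoImplicit false
set_option linter.unusedSectionVars false

namespace CUB

namespace NPU

section Loc

variable {B B₁ C C₁ : Type} [CommRing B] [CommRing B₁] [CommRing C] [CommRing C₁] [Algebra B B₁]
  [Algebra B C] [Algebra B₁ C₁] [Algebra C C₁] [Algebra B C₁] [IsScalarTower B B₁ C₁]
  [IsScalarTower B C C₁] (M : Submonoid B) [IsLocalization M C]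
  [IsLocalization (Algebra.algebraMapSubmonoid B₁ M) C₁]

/-- the map on quotients -/
noncomputable def qmap (I : Ideal B₁) (J : Ideal C₁) (h : J = I.map (algebraMap B₁ C₁)) :
    (B₁ ⧸ I) →ₗ[B] (C₁ ⧸ J) :=
  (Ideal.quotientMapₐ J (IsScalarTower.toAlgHom B B₁ C₁) (by
    rw [h]
    exact Ideal.le_comap_map)).toLinearMap

theorem qmap_mk (I : Ideal B₁) (J : Ideal C₁) (h : J = I.map (algebraMap B₁ C₁)) (a : B₁) :
    qmap (B := B) I J h (Ideal.Quotient.mk I a) = Ideal.Quotient.mk J (algebraMap B₁ C₁ a) := rfl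

include C in
theorem isLoc (I : Ideal B₁) (J : Ideal C₁) (h : J = I.map (algebraMap B₁ C₁)) :
    IsLocalizedModule M (qmap (B := B) I J h) where
  map_units x := by
    have hu : IsUnit (algebraMap B C x) := IsLocalization.map_units C x
    obtain ⟨u, hu⟩ := hu
    refine (Module.End.isUnit_iff _).mpr ⟨fun m n e => ?_, fun m => ⟨(↑u⁻¹ : C) • m, ?_⟩⟩
    · simp only [Module.algebraMap_end_apply] at e
      rw [← algebraMap_smul C (x : B) m, ← algebraMap_smul C (x : B) n, ← hu] at e
      have e' := congrArg (fun z => (↑u⁻¹ : C) • z) e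
      simpa [smul_smul] using e'
    · rw [Module.algebraMap_end_apply, ← algebraMap_smul C (x : B), ← hu, smul_smul, Units.mul_inv,
        one_smul]
  surj y := by
    obtain ⟨y, rfl⟩ := Ideal.Quotient.mk_surjective y
    obtain ⟨⟨a, t, s, hs, hst⟩, hy⟩ :=
      IsLocalization.surj (Algebra.algebraMapSubmonoid B₁ M) y
    refine ⟨⟨Ideal.Quotient.mk I a, ⟨s, hs⟩⟩, ?_⟩
    change (s : B) • (Ideal.Quotient.mk J y) = qmap (B := B) I J h (Ideal.Quotient.mk I a)
    rw [qmap_mk, ← hy]
    change _ = Ideal.Quotient.mk J (y * algebraMap B₁ C₁ t)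
    rw [← hst]
    rw [← IsScalarTower.algebraMap_apply B B₁ C₁, mul_comm, ← Algebra.smul_def]
    rfl
  exists_of_eq {m n} e := by
    obtain ⟨a, rfl⟩ := Ideal.Quotient.mk_surjective m
    obtain ⟨b, rfl⟩ := Ideal.Quotient.mk_surjective n
    rw [qmap_mk, qmap_mk, Ideal.Quotient.eq, ← map_sub, h,
      IsLocalization.mem_map_algebraMap_iff (Algebra.algebraMapSubmonoid B₁ M) C₁] at e
    obtain ⟨⟨⟨i, hi⟩, ⟨t, t', ht', htt⟩⟩, he⟩ := e
    simp only at he
    rw [← map_mul] at he
    obtain ⟨⟨c, c', hc', hcc⟩, hc⟩ :=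
      IsLocalization.exists_of_eq (M := Algebra.algebraMapSubmonoid B₁ M) he
    simp only at hc
    refine ⟨⟨c' * t', mul_mem hc' ht'⟩, ?_⟩
    change ((c' * t' : B)) • (Ideal.Quotient.mk I a) = ((c' * t' : B)) • (Ideal.Quotient.mk I b)
    have h1 : ∀ z : B₁, (c' * t' : B) • (Ideal.Quotient.mk I z) =
        Ideal.Quotient.mk I (c * t * z) := by
      intro z
      rw [← hcc, ← htt]
      rw [← map_mul, ← Algebra.smul_def]
      rfl
    rw [h1, h1, Ideal.Quotient.eq, ← mul_sub]
    have h2 : c * t * (a - b) = c * i := by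
      rw [← hc]
      ring
    rw [h2]
    exact I.mul_mem_left _ hi

theorem length_loc (I : Ideal B₁) (J : Ideal C₁) (h : J = I.map (algebraMap B₁ C₁))
    [Module C (LocalizedModule M (B₁ ⧸ I))] [IsScalarTower B C (LocalizedModule M (B₁ ⧸ I))] :
    Module.length C (LocalizedModule M (B₁ ⧸ I)) = Module.length C (C₁ ⧸ J) := by
  have := isLoc (C := C) M I J h
  exact ((IsLocalizedModule.iso M (qmap (B := B) I J h)).extendScalarsOfIsLocalization M
    C).length_eq

end Loc

section Norm

/-- the local statement -/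
theorem norm_loc (hN : S_NORM) {B B₁ C C₁ F L : Type} [CommRing B] [IsDomain B] [CommRing B₁]
    [IsDomain B₁] [CommRing C] [IsDomain C] [IsNoetherianRing C] [CommRing C₁] [IsDomain C₁]
    [Field F] [Field L] [Algebra B B₁] [Algebra B F] [Algebra B L]
    [Algebra B₁ L] [Algebra F L] [IsScalarTower B B₁ L] [IsScalarTower B F L]
    [IsFractionRing B F] [IsFractionRing B₁ L] [Module.Finite B B₁] [Module.Finite F L]
    [Algebra B C] [Algebra B₁ C₁] [Algebra C C₁] [Algebra B C₁] [IsScalarTower B B₁ C₁]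
    [IsScalarTower B C C₁] (M : Submonoid B) (hM : M ≤ nonZeroDivisors B) [IsLocalization M C]
    [IsLocalization (Algebra.algebraMapSubmonoid B₁ M) C₁] [Module.Finite C C₁]
    (hMB : Algebra.algebraMapSubmonoid B₁ M ≤ nonZeroDivisors B₁)
    (hfin : ∀ x : C, x ≠ 0 → Module.length C (C ⧸ Ideal.span {x}) ≠ ⊤)
    (x : B₁) (b c : B) (hx : x ≠ 0) (hb : b ≠ 0) (hc : c ≠ 0)
    (h : Algebra.norm F (algebraMap B₁ L x) * algebraMap B F c = algebraMap B F b) :
    Module.length C (C₁ ⧸ Ideal.span {algebraMap B₁ C₁ x}) +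
      Module.length C (C ⧸ Ideal.span {algebraMap B C c}) =
      Module.length C (C ⧸ Ideal.span {algebraMap B C b}) := by
  let f : C →+* F := IsLocalization.map _ (T := nonZeroDivisors B) (RingHom.id B) hM
  let g : C₁ →+* L := IsLocalization.map _ (M := Algebra.algebraMapSubmonoid B₁ M)
      (T := nonZeroDivisors B₁) (RingHom.id B₁) hMB
  algebraize [f, g, (algebraMap F L).comp f]
  have i1 : IsScalarTower B C F := IsScalarTower.of_algebraMap_eq'
    (by rw [RingHom.algebraMap_toAlgebra, IsLocalization.map_comp, RingHomCompTriple.comp_eq])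
  have i2 := IsFractionRing.isFractionRing_of_isDomain_of_isLocalization M C F
  have i3 : IsScalarTower B₁ C₁ L := IsScalarTower.of_algebraMap_eq'
    (by rw [RingHom.algebraMap_toAlgebra, IsLocalization.map_comp, RingHomCompTriple.comp_eq])
  have i4 : IsScalarTower C C₁ L := by
    apply IsScalarTower.of_algebraMap_eq'
    apply IsLocalization.ringHom_ext M
    rw [RingHom.algebraMap_toAlgebra, RingHom.algebraMap_toAlgebra (R := C₁), RingHom.comp_assoc,
      RingHom.comp_assoc, ← IsScalarTower.algebraMap_eq, IsScalarTower.algebraMap_eq B B₁ C₁,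
      IsLocalization.map_comp, RingHom.comp_id, ← RingHom.comp_assoc, IsLocalization.map_comp,
      RingHom.comp_id, ← IsScalarTower.algebraMap_eq, ← IsScalarTower.algebraMap_eq]
  have i5 := IsFractionRing.isFractionRing_of_isDomain_of_isLocalization
    (Algebra.algebraMapSubmonoid B₁ M) C₁ L
  have hx' : algebraMap B₁ C₁ x ≠ 0 := by
    rw [Ne, IsLocalization.to_map_eq_zero_iff C₁ hMB]
    exact hx
  have hb' : algebraMap B C b ≠ 0 := by
    rw [Ne, IsLocalization.to_map_eq_zero_iff C hM]
    exact hb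
  have hc' : algebraMap B C c ≠ 0 := by
    rw [Ne, IsLocalization.to_map_eq_zero_iff C hM]
    exact hc
  refine hN C C₁ F L hfin (algebraMap B₁ C₁ x) (algebraMap B C b) (algebraMap B C c) hx' hb' hc' ?_
  rw [← IsScalarTower.algebraMap_apply B₁ C₁ L, ← IsScalarTower.algebraMap_apply B C F,
    ← IsScalarTower.algebraMap_apply B C F]
  exact h

end Norm

section Dim

variable {k B B₁ : Type} [Field k] [CommRing B] [CommRing B₁] [Algebra k B] [Algebra k B₁]
  [Algebra B B₁] [IsScalarTower k B B₁] [Module.Finite B B₁]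

/-- the dimension of a prime of a finite extension is the dimension of its contraction -/
theorem rdim_fin (P : PrimeSpectrum B₁) :
    rdim k (PrimeSpectrum.comap (algebraMap B B₁) P) = rdim k P := by
  have i1 : P.asIdeal.LiesOver (PrimeSpectrum.comap (algebraMap B B₁) P).asIdeal := ⟨rfl⟩
  unfold rdim
  have h := trdeg_add_eq k (B ⧸ (PrimeSpectrum.comap (algebraMap B B₁) P).asIdeal)
    (A := B₁ ⧸ P.asIdeal)
  rw [trdeg_eq_zero (R := B ⧸ (PrimeSpectrum.comap (algebraMap B B₁) P).asIdeal)
    (A := B₁ ⧸ P.asIdeal), add_zero] at h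
  exact h

end Dim

section Fin

variable {k B : Type} [Field k] [CommRing B] [IsDomain B] [Algebra k B] [Algebra.FiniteType k B]

/-- the prime zero -/
def zeroP {n : ℕ} (hB : Algebra.trdeg k B = (n + 1 : ℕ)) : RP k B (n + 1) :=
  ⟨⟨⊥, Ideal.isPrime_bot⟩, (AlgEquiv.quotientBot k B).trdeg_eq.trans hB⟩

theorem fin1 (h1 : S_DIM1) {n : ℕ} (hB : Algebra.trdeg k B = (n + 1 : ℕ)) (p : RP k B n)
    (a : B) (ha : a ≠ 0) :
    Module.length (Localization.AtPrime p.1.asIdeal) (Localization.AtPrime p.1.asIdeal ⧸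
      Ideal.span {algebraMap B (Localization.AtPrime p.1.asIdeal) a}) ≠ ⊤ := by
  have h2 := LENC.lenE_fin h1 (zeroP hB) p (bot_le : (⊥ : Ideal B) ≤ p.1.asIdeal) (a := a) ha
  have h3 : (zeroP hB).1.asIdeal ⊔ Ideal.span {a} = Ideal.span {a} := bot_sup_eq _
  rw [h3] at h2
  unfold LENC.lenE at h2
  rw [Ideal.map_span, Set.image_singleton] at h2
  exact h2

theorem fin2 (h1 : S_DIM1) {n : ℕ} (hB : Algebra.trdeg k B = (n + 1 : ℕ)) (p : RP k B n)
    (x : Localization.AtPrime p.1.asIdeal) (hx : x ≠ 0) :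
    Module.length (Localization.AtPrime p.1.asIdeal) (Localization.AtPrime p.1.asIdeal ⧸
      Ideal.span {x}) ≠ ⊤ := by
  obtain ⟨⟨a, s⟩, has⟩ := IsLocalization.surj p.1.asIdeal.primeCompl x
  simp only at has
  have hu : IsUnit (algebraMap B (Localization.AtPrime p.1.asIdeal) s) :=
    IsLocalization.map_units _ s
  have ha : a ≠ 0 := by
    rintro rfl
    rw [map_zero] at has
    rcases hu with ⟨u, hu⟩
    rw [← hu, Units.mul_left_eq_zero] at has
    exact hx has
  have h2 := fin1 h1 hB p a ha
  rw [← has, Ideal.span_singleton_mul_right_unit hu] at h2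
  exact h2

theorem lspan (p : PrimeSpectrum B) (a : B) :
    len (Ideal.span {a}) p =
      (Module.length (Localization.AtPrime p.asIdeal) (Localization.AtPrime p.asIdeal ⧸
        Ideal.span {algebraMap B (Localization.AtPrime p.asIdeal) a})).toNat := by
  unfold len
  rw [Ideal.map_span, Set.image_singleton]

end Fin

end NPU

section

open _root_.CUB.NPU

/-- NPU: the divisor of the norm. -/
theorem t_NPU : M_NPU := by
  intro h1 hN hQ k B B₁ F L _ _ _ _ _ _ _ _ _ _ _ _ _ _ _ _ _ _ _ _ _ _ _ n p S hB hS x b c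
    hx hb hc h
  classical
  have hNB : IsNoetherianRing B := Algebra.FiniteType.isNoetherianRing k B
  have hinj : Function.Injective (algebraMap B B₁) := by
    have h2 : Function.Injective ((algebraMap B₁ L).comp (algebraMap B B₁)) := by
      rw [← IsScalarTower.algebraMap_eq B B₁ L, IsScalarTower.algebraMap_eq B F L]
      exact (algebraMap F L).injective.comp (IsFractionRing.injective B F)
    exact Function.Injective.of_comp h2
  have hM : p.1.asIdeal.primeCompl ≤ nonZeroDivisors B :=
    p.1.asIdeal.primeCompl_le_nonZeroDivisors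
  have hMB : Algebra.algebraMapSubmonoid B₁ p.1.asIdeal.primeCompl ≤ nonZeroDivisors B₁ :=
    Submonoid.map_le_of_le_comap _ (hM.trans
      (nonZeroDivisors_le_comap_nonZeroDivisors_of_injective _ hinj))
  have d1 : IsDomain (Localization.AtPrime p.1.asIdeal) :=
    IsLocalization.isDomain_localization hM
  have d2 : IsDomain (Localization (Algebra.algebraMapSubmonoid B₁ p.1.asIdeal.primeCompl)) :=
    IsLocalization.isDomain_localization hMB
  have d3 : Module.Finite (Localization.AtPrime p.1.asIdeal)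
      (Localization (Algebra.algebraMapSubmonoid B₁ p.1.asIdeal.primeCompl)) :=
    Module.Finite.of_isLocalization B B₁ p.1.asIdeal.primeCompl
  have key := norm_loc hN (C := Localization.AtPrime p.1.asIdeal)
    (C₁ := Localization (Algebra.algebraMapSubmonoid B₁ p.1.asIdeal.primeCompl))
    p.1.asIdeal.primeCompl hM hMB (fin2 h1 hB p) x b c hx hb hc h
  have hfin := fin1 h1 hB p b hb
  have hlen := length_loc (C := Localization.AtPrime p.1.asIdeal)
    (C₁ := Localization (Algebra.algebraMapSubmonoid B₁ p.1.asIdeal.primeCompl))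
    p.1.asIdeal.primeCompl (Ideal.span {x}) (Ideal.span {algebraMap B₁ _ x}) (by
      rw [Ideal.map_span, Set.image_singleton])
  rw [← hlen] at key
  have hf1 : Module.length (Localization.AtPrime p.1.asIdeal)
      (LocalizedModule p.1.asIdeal.primeCompl (B₁ ⧸ Ideal.span {x})) ≠ ⊤ := by
    intro h2
    rw [h2, top_add] at key
    exact hfin key.symm
  have hsum := hQ B B₁ p.1 (S.map (Function.Embedding.subtype _)) (Ideal.span {x}) (by
    intro P
    rw [Finset.mem_map]
    constructor
    · rintro ⟨P', hP', rfl⟩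
      exact (hS P').mp hP'
    · intro h2
      have h3 : rdim k P = n := by
        rw [← rdim_fin (B := B), h2]
        exact p.2
      exact ⟨⟨P, h3⟩, (hS _).mpr h2, rfl⟩) hf1
  rw [Finset.sum_map] at hsum
  have hf2 := fin1 h1 hB p c hc
  have h4 : (Module.length (Localization.AtPrime p.1.asIdeal)
      (LocalizedModule p.1.asIdeal.primeCompl (B₁ ⧸ Ideal.span {x}))).toNat +
      len (Ideal.span {c}) p.1 = len (Ideal.span {b}) p.1 := by
    rw [NPU.lspan, NPU.lspan, ← ENat.toNat_add hf1 hf2, key]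
  rw [← h4]
  congr 1
  exact hsum.symm

end

end CUB


end

section

/-!
# CUB2, module PULLP

The pull-back to a `P^1`-bundle of a homologically trivial cycle is homologically trivial.
-/

set_option autoImplicit false

open CategoryTheory AlgebraicGeometry Limits Polynomial TopologicalSpace

namespace CUB

open Pool.Agent.Lib_helper55.Beil Pool.Agent.Lib_helper66.OneP

universe v

namespace PULLP

variable {k E : Type} [Field k] [Field E] {T : ∀ i : ℕ, Homology.{v} k E i}

/-- The push-forward along the section followed by the push-forward to the base is the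
identity. -/
lemma push_section (hT : Full T) (i n : ℕ) {P X : Var k} (B : PBun P X) (z : (T i).H n X) :
    hT.G i n B.p ((T i).P n B.s z) = z := by
  have h1 : hT.G i n (clPr B.s) z = (T i).P n B.s z :=
    hT.pfClosed i n B.s (clPr B.s) rfl z
  have h2 : hT.G i n B.p (hT.G i n (clPr B.s) z) = hT.G i n (clPr (idIn X)) z :=
    hT.pfFunctorial i n (clPr B.s) B.p (clPr (idIn X)) B.hs z
  have h3 : hT.G i n (clPr (idIn X)) z = (T i).P n (idIn X) z :=
    hT.pfClosed i n (idIn X) (clPr (idIn X)) rfl z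
  have h4 : (T i).P n (idIn X) z = z := hT.toExtra.push_id i n X (idIn X) rfl z
  rw [← h1, h2, h3, h4]

end PULLP

theorem t_PULLP : M_PULLP.{v} := by
  intro hPFC hPCY k E _ _ T hT i P X B c d hd hc
  have hres : (T (i + 1)).res (2 * (i + 1)) B.j (clz (T (i + 1)) P d) = 0 := by
    rw [res_cls]
    have h1 : IsPullC B.L.q c (resCyc B.j d) := hPCY.2.2.1 k E i P X B c d hd
    have h2 : clz (T (i + 1)) B.U (resCyc B.j d) = hT.L i (2 * i) B.L (clz (T i) X c) :=
      hPCY.2.2.2.2.2 k E T hT.toExtra i B.U X B.L c _ h1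
    rw [hc] at h2
    exact h2.trans (map_zero (hT.line i (2 * i) B.L))
  obtain ⟨z, hz⟩ := ((T (i + 1)).exact_X (2 * (i + 1)) B.s B.j B.hc _).mp hres
  have hz' : (T (i + 1)).P (2 * (i + 1)) B.s z = clz (T (i + 1)) P d := hz
  have h3 : hT.G (i + 1) (2 * (i + 1)) B.p (clz (T (i + 1)) P d) = 0 := by
    rw [← hPFC.2.2.2.1 k E T hT (i + 1) P X B.p d, hPCY.2.2.2.1 k E i P X B c d hd]
    exact map_zero _
  have h4 : z = 0 := by
    rw [← PULLP.push_section hT (i + 1) (2 * (i + 1)) B z, hz', h3]
  rw [← hz', h4]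
  exact map_zero ((T (i + 1)).push (2 * (i + 1)) B.s)

end CUB


end

section

/-!
# CUB2, module PUSHD: push-forward of the divisor of a rational function
-/

set_option autoImplicit false

open CategoryTheory AlgebraicGeometry Limits Polynomial TopologicalSpace

namespace CUB

open Pool.Agent.Lib_helper55.Beil Pool.Agent.Lib_helper66.OneP

universe v

namespace PUSHD

/-! ## Maps of function fields -/

/-- the map of function fields of a dominant morphism -/
noncomputable def fm {W V : Scheme.{0}} [IsIntegral W] [IsIntegral V] (f : W ⟶ V)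
    (h : f (genericPoint W) = genericPoint V) : V.functionField ⟶ W.functionField :=
  V.presheaf.stalkSpecializes (specializes_of_eq h) ≫ f.stalkMap (genericPoint W)

lemma fm_open {W V : Scheme.{0}} [IsIntegral W] [IsIntegral V] (f : W ⟶ V) [IsOpenImmersion f] :
    fm f (genericPoint_eq_of_isOpenImmersion f) = funMap f := rfl

lemma fm_comp {A B C : Scheme.{0}} [IsIntegral A] [IsIntegral B] [IsIntegral C] (g : A ⟶ B)
    (h : B ⟶ C) (hg : g (genericPoint A) = genericPoint B)
    (hh : h (genericPoint B) = genericPoint C) (hgh : (g ≫ h) (genericPoint A) = genericPoint C) :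
    fm (g ≫ h) hgh = fm h hh ≫ fm g hg := by
  unfold fm
  rw [Scheme.Hom.stalkMap_comp, Category.assoc,
    ← Scheme.Hom.stalkSpecializes_stalkMap_assoc h _ _ (specializes_of_eq hg),
    TopCat.Presheaf.stalkSpecializes_comp_assoc]
  rfl

lemma fm_congr {A B : Scheme.{0}} [IsIntegral A] [IsIntegral B] (g h : A ⟶ B) (e : g = h)
    (hg : g (genericPoint A) = genericPoint B) (hh : h (genericPoint A) = genericPoint B) :
    fm g hg = fm h hh := by
  subst e
  rfl

section Aff0

variable {R S : CommRingCat.{0}} [IsDomain R] [IsDomain S]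

/-- functions as elements of the function field -/
noncomputable def fnR (R : CommRingCat.{0}) [IsDomain R] : R →+* (Spec R).functionField :=
  algebraMap R (Spec R).functionField

lemma fnR_apply (b : R) : fnR R b = fn b := rfl

lemma fm_fn (φ : R ⟶ S) (h : Spec.map φ (genericPoint (Spec S)) = genericPoint (Spec R)) (b : R) :
    fm (Spec.map φ) h (fn b) = fn (φ b) := by
  have h1 := congrArg (fun g => g.hom b) (StructureSheaf.toStalk_stalkSpecializes (R := R)
    (x := Spec.map φ (genericPoint (Spec S))) (y := genericPoint (Spec R)) (specializes_of_eq h))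
  have h2 := stalkMap_toStalk_apply φ (genericPoint (Spec S)) b
  exact (congrArg ((Spec.map φ).stalkMap (genericPoint (Spec S))).hom h1).trans h2

end Aff0

section Aff

variable {k : Type} [Field k] {B D : Type} [CommRing B] [CommRing D] [IsDomain B] [IsDomain D]
  [Algebra k B] [Algebra k D] [Algebra.FiniteType k B] [Algebra.FiniteType k D]

variable (k B) in
/-- functions as elements of the function field -/
noncomputable def fnH : B →+* (aff k B).X.functionField := fnR (CommRingCat.of B)

lemma fnH_apply (b : B) : fnH k B b = fnA k b := rfl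

lemma fm_fnA (φ : B →ₐ[k] D) (h : spm φ (genericPoint (aff k D).X) = genericPoint (aff k B).X)
    (b : B) : fm (spm φ) h (fnA k b) = fnA k (φ b) := by
  exact fm_fn (R := CommRingCat.of B) (S := CommRingCat.of D) (CommRingCat.ofHom φ.toRingHom) h b

end Aff

section Chart

variable {k : Type} [Field k] {B : Type} [CommRing B] [IsDomain B] [Algebra k B]
  [Algebra.FiniteType k B] {V : Var k} [AlgebraicGeometry.IsIntegral V.X]

/-- the functions on a chart as rational functions -/
noncomputable def be (j : OpenIn (aff k B) V) : B →+* V.X.functionField :=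
  (inv (funMap j.g)).hom.comp (fnH k B)

lemma funMap_be (j : OpenIn (aff k B) V) (b : B) : (funMap j.g).hom (be j b) = fnA k b := by
  have h : inv (funMap j.g) ≫ funMap j.g = 𝟙 _ := IsIso.inv_hom_id _
  exact congrArg (fun g => g.hom (fnH k B b)) h

lemma funMap_inj (j : OpenIn (aff k B) V) : Function.Injective (funMap j.g).hom :=
  (funMap j.g).hom.injective

lemma be_inj (j : OpenIn (aff k B) V) : Function.Injective (be j) := by
  intro a b h
  have h1 := congrArg (funMap j.g).hom h
  rw [funMap_be, funMap_be] at h1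
  exact fn_injective (R := CommRingCat.of B) h1

lemma be_frac (j : OpenIn (aff k B) V) (z : V.X.functionField) (hz : z ≠ 0) :
    ∃ x y : B, x ≠ 0 ∧ y ≠ 0 ∧ z * be j y = be j x := by
  have h0 : (funMap j.g).hom z ≠ 0 := (map_ne_zero_iff _ (funMap_inj j)).mpr hz
  obtain ⟨x, y, hx, hy, h⟩ := exists_fnA (k := k) (D := B) ((funMap j.g).hom z) h0
  refine ⟨x, y, hx, hy, funMap_inj j ?_⟩
  rw [map_mul, funMap_be, funMap_be]
  exact h

end Chart

section Two

variable {k : Type} [Field k] {B D : Type} [CommRing B] [CommRing D] [IsDomain B] [IsDomain D]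
  [Algebra k B] [Algebra k D] [Algebra.FiniteType k B] [Algebra.FiniteType k D] {V W : Var k}
  [AlgebraicGeometry.IsIntegral V.X] [AlgebraicGeometry.IsIntegral W.X] (f : W.X ⟶ V.X)
  (hf : f (genericPoint W.X) = genericPoint V.X) (φ : B →ₐ[k] D) (j : OpenIn (aff k B) V)
  (j₁ : OpenIn (aff k D) W) (hc : j₁.g ≫ f = spm φ ≫ j.g)

include hc in
lemma fm_be (b : B) : (fm f hf).hom (be j b) = be j₁ (φ b) := by
  have hj := genericPoint_eq_of_isOpenImmersion j.g
  have hj₁ := genericPoint_eq_of_isOpenImmersion j₁.g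
  have h1 : (j₁.g ≫ f) (genericPoint (aff k D).X) = genericPoint V.X := by
    rw [Scheme.Hom.comp_apply, hj₁, hf]
  have h2 : (spm φ) (genericPoint (aff k D).X) = genericPoint (aff k B).X := by
    apply openIn_injective j
    rw [hj, ← Scheme.Hom.comp_apply, ← hc, h1]
  have h3 : (spm φ ≫ j.g) (genericPoint (aff k D).X) = genericPoint V.X := by
    rw [← hc, h1]
  have e1 := fm_comp j₁.g f hj₁ hf h1
  have e2 := fm_comp (spm φ) j.g h2 hj h3
  have e3 := fm_congr _ _ hc h1 h3
  apply funMap_inj j₁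
  rw [funMap_be]
  have e4 : fm f hf ≫ funMap j₁.g = funMap j.g ≫ fm (spm φ) h2 := by
    rw [← fm_open, ← fm_open, ← e1, e3, e2]
  have e5 := congrArg (fun g => g.hom (be j b)) e4
  refine e5.trans ?_
  refine (congrArg (fm (spm φ) h2).hom (funMap_be j b)).trans ?_
  exact fm_fnA φ h2 b

end Two

section Alg

variable {k : Type} [Field k] {B D F L : Type} [CommRing B] [CommRing D] [IsDomain B] [IsDomain D]
  [Algebra k B] [Algebra k D] [Algebra.FiniteType k B] [Algebra.FiniteType k D] [Field F] [Field L]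
  (β : B →+* F) (β₁ : D →+* L) (ι : F →+* L) (φ : B →ₐ[k] D)

omit [IsDomain B] in
lemma frac_of (hβ : Function.Injective β)
    (h : ∀ z : F, z ≠ 0 → ∃ x y : B, x ≠ 0 ∧ y ≠ 0 ∧ z * β y = β x) :
    @IsFractionRing B _ F _ β.toAlgebra := by
  let : Algebra B F := β.toAlgebra
  have : FaithfulSMul B F := (faithfulSMul_iff_algebraMap_injective B F).mpr hβ
  apply IsFractionRing.of_field
  intro z
  by_cases hz : z = 0
  · exact ⟨0, 1, by rw [hz, map_zero, zero_div]⟩
  · obtain ⟨x, y, -, hy, h1⟩ := h z hz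
    refine ⟨x, y, ?_⟩
    have hy' : algebraMap B F y ≠ 0 := (map_ne_zero_iff _ hβ).mpr hy
    rw [eq_div_iff hy']
    exact h1

omit [Algebra.FiniteType k B] [Algebra.FiniteType k D] in
include β β₁ in
theorem fin_alg (hβ : Function.Injective β) (hβ₁ : Function.Injective β₁)
    (h : ∀ z : F, z ≠ 0 → ∃ x y : B, x ≠ 0 ∧ y ≠ 0 ∧ z * β y = β x)
    (h₁ : ∀ z : L, z ≠ 0 → ∃ x y : D, x ≠ 0 ∧ y ≠ 0 ∧ z * β₁ y = β₁ x)
    (hc : ∀ b, ι (β b) = β₁ (φ b)) (hfin : φ.toRingHom.Finite) :
    @Module.Finite F L _ _ ι.toAlgebra.toModule := by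
  let : Algebra B F := β.toAlgebra
  let : Algebra D L := β₁.toAlgebra
  let : Algebra F L := ι.toAlgebra
  let : Algebra B D := φ.toRingHom.toAlgebra
  let : Algebra B L := (β₁.comp φ.toRingHom).toAlgebra
  have t1 : IsScalarTower B D L := IsScalarTower.of_algebraMap_eq' rfl
  have t2 : IsScalarTower B F L := IsScalarTower.of_algebraMap_eq fun b => (hc b).symm
  have f1 : IsFractionRing B F := frac_of β hβ h
  have f2 : IsFractionRing D L := frac_of β₁ hβ₁ h₁
  have f3 : Module.Finite B D := hfin
  have hinj : Function.Injective (algebraMap B D) := by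
    intro a b hab
    apply hβ
    apply ι.injective
    rw [hc, hc]
    exact congrArg β₁ hab
  have f4 : FaithfulSMul B D := (faithfulSMul_iff_algebraMap_injective B D).mpr hinj
  have f5 : Algebra.IsAlgebraic B D := inferInstance
  exact Module.Finite.of_isLocalizedModule (nonZeroDivisors B) (Rₚ := F)
    (IsScalarTower.toAlgHom B D L).toLinearMap

theorem npu_alg (hNPU : S_NPU) (hβ : Function.Injective β) (hβ₁ : Function.Injective β₁)
    (h : ∀ z : F, z ≠ 0 → ∃ x y : B, x ≠ 0 ∧ y ≠ 0 ∧ z * β y = β x)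
    (h₁ : ∀ z : L, z ≠ 0 → ∃ x y : D, x ≠ 0 ∧ y ≠ 0 ∧ z * β₁ y = β₁ x)
    (hc : ∀ b, ι (β b) = β₁ (φ b)) (hfin : φ.toRingHom.Finite) (n : ℕ)
    (p : RP k B n) (S : Finset (RP k D n)) (htr : Algebra.trdeg k B = (n + 1 : ℕ))
    (hS : ∀ P : RP k D n, P ∈ S ↔ PrimeSpectrum.comap φ.toRingHom P.1 = p.1)
    (x : D) (b c : B) (hx : x ≠ 0) (hb : b ≠ 0) (hc0 : c ≠ 0)
    (hn : @Algebra.norm F L _ _ ι.toAlgebra (β₁ x) * β c = β b) :
    ∑ P ∈ S, rdeg φ.toRingHom P.1 * len (Ideal.span {x}) P.1 + len (Ideal.span {c}) p.1 =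
      len (Ideal.span {b}) p.1 := by
  let : Algebra B F := β.toAlgebra
  let : Algebra D L := β₁.toAlgebra
  let : Algebra F L := ι.toAlgebra
  let : Algebra B D := φ.toRingHom.toAlgebra
  let : Algebra B L := (β₁.comp φ.toRingHom).toAlgebra
  have t0 : IsScalarTower k B D := IsScalarTower.of_algebraMap_eq fun r => (φ.commutes r).symm
  have t1 : IsScalarTower B D L := IsScalarTower.of_algebraMap_eq' rfl
  have t2 : IsScalarTower B F L := IsScalarTower.of_algebraMap_eq fun b => (hc b).symm
  have f1 : IsFractionRing B F := frac_of β hβ h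
  have f2 : IsFractionRing D L := frac_of β₁ hβ₁ h₁
  have f3 : Module.Finite B D := hfin
  have f4 : Module.Finite F L := fin_alg β β₁ ι φ hβ hβ₁ h h₁ hc hfin
  exact hNPU k B D F L n p S htr hS x b c hx hb hc0 hn

end Alg

section Ord

variable {k : Type} [Field k] {B : Type} [CommRing B] [IsDomain B] [Algebra k B]
  [Algebra.FiniteType k B] {V : Var k} [AlgebraicGeometry.IsIntegral V.X]

lemma trdeg_chart (j : OpenIn (aff k B) V) : Algebra.trdeg k B = V.dim (genericPoint V.X) := by
  rw [← dim_generic_aff, ← dim_map j.g j.comm, genericPoint_eq_of_isOpenImmersion j.g]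

lemma ord_chart (j : OpenIn (aff k B) V) {n : ℕ} (htr : Algebra.trdeg k B = (n + 1 : ℕ))
    (p : RP k B n) (z : V.X.functionField) (hz : z ≠ 0) (x y : B) (hx : x ≠ 0) (hy : y ≠ 0)
    (h : z * be j y = be j x) :
    Scheme.ord z (j.g (toPt p.1)) = (len (Ideal.span {x}) p.1 : ℤ) - len (Ideal.span {y}) p.1 := by
  have h1 : (funMap j.g).hom z * fnA k y = fnA k x := by
    rw [← funMap_be j y, ← funMap_be j x, ← map_mul, h]
  have hz' : (funMap j.g).hom z ≠ 0 := (map_ne_zero_iff _ (funMap_inj j)).mpr hz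
  have h2 := Scheme.ord_mul hz' (fnA_ne_zero (k := k) hy) (x := (toPt p.1 : (aff k B).X))
  rw [h1, ord_fnA htr x hx (toPt p.1) p.2, ord_fnA htr y hy (toPt p.1) p.2] at h2
  have h3 := ord_funMap j.g z (toPt p.1)
  have h4 : Scheme.ord ((funMap j.g).hom z) (toPt p.1) = Scheme.ord z (j.g (toPt p.1)) := h3
  rw [h4] at h2
  have h5 : (len (Ideal.span {x}) p.1 : ℤ) =
    Scheme.ord z (j.g (toPt p.1)) + (len (Ideal.span {y}) p.1 : ℤ) := h2
  rw [h5]
  ring

lemma len_mul (hLENC : S_LENC) {n : ℕ} (htr : Algebra.trdeg k B = (n + 1 : ℕ)) (p : RP k B n)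
    (a b : B) (ha : a ≠ 0) (hb : b ≠ 0) : len (Ideal.span {a * b}) p.1 =
      len (Ideal.span {a}) p.1 + len (Ideal.span {b}) p.1 := by
  let q : PrimeSpectrum B := ⟨⊥, Ideal.isPrime_bot⟩
  have hq : rdim k q = (n + 1 : ℕ) := by
    rw [← htr]
    exact (AlgEquiv.quotientBot k B).trdeg_eq
  have h := (hLENC k B n ⟨q, hq⟩ p).1 a b ha hb
  have e : ∀ I : Ideal B, q.asIdeal ⊔ I = I := fun I => bot_sup_eq I
  rw [e, e, e] at h
  exact h

end Ord

end PUSHD

open _root_.CUB.PUSHD in
theorem t_PUSHD : M_PUSHD.{v} := by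
  intro hPFC hDST hDIM1 hLENC hDVX hCHA hDVC hRDG hNPU hFOV k E _ _ n W V hW hV f φ c hdW hdV hfg
    hφ hdiv
  classical
  rcases isEmpty_or_nonempty (Pts n V) with hemp | ⟨⟨v₀⟩⟩
  · have h0 : pfc E n f c = 0 := by
      ext y
      exact (hemp.false y).elim
    rw [h0]
    exact zero_mem _
  -- the norm
  let ι : V.X.functionField →+* W.X.functionField := (fm f.g hfg).hom
  let aι : Algebra V.X.functionField W.X.functionField := ι.toAlgebra
  -- the chart at a point
  have key : ∀ y : Pts n V, Module.Finite V.X.functionField W.X.functionField ∧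
      ∀ d : Pts n V →₀ E, IsDiv (idIn V) (Algebra.norm V.X.functionField φ) d →
        pfc E n f c y = d y := by
    intro y
    obtain ⟨B, D, iB, iD, aB, aD, fB, fD, ψ, j, j₁, hcomm, hfin, hinj, hv, hpre⟩ :=
      hFOV k n W V hW hV f y.1 hdW hdV hfg y.2
    obtain ⟨b₀, hb₀⟩ := hv
    have dB : IsDomain B := hCHA.2.1 k B V hV j b₀
    have hgV : genericPoint V.X ∈ Set.range j.g := by
      have h1 : genericPoint V.X ⤳ j.g b₀ := genericPoint_specializes _
      exact h1.mem_open j.g.isOpenEmbedding.isOpen_range ⟨b₀, rfl⟩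
    obtain ⟨d₀, hd₀⟩ := hpre (genericPoint W.X) (by rw [hfg]; exact hgV)
    have dD : IsDomain D := hCHA.2.1 k D W hW j₁ d₀
    have hc0 : ∀ b, ι (be j b) = be j₁ (ψ b) := fm_be f.g hfg ψ j j₁ hcomm
    have hF : Module.Finite V.X.functionField W.X.functionField :=
      fin_alg (be j) (be j₁) ι ψ (be_inj j) (be_inj j₁) (be_frac j) (be_frac j₁) hc0 hfin
    refine ⟨hF, fun d hd => ?_⟩
    have hcomm' : ∀ P : PrimeSpectrum D,
        f.g (j₁.g (toPt P)) = j.g (toPt (PrimeSpectrum.comap ψ.toRingHom P)) := fun P => by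
      have h1 := congrArg (fun g : (aff k D).X ⟶ V.X => g (toPt P)) hcomm
      exact h1
    -- the prime of the point
    have hp : rdim k (ofPt b₀) = n := by
      rw [← dim_toPt, toPt_ofPt, ← dim_map j.g j.comm, hb₀]
      exact y.2
    let p : RP k B n := ⟨ofPt b₀, hp⟩
    have hpy : j.g (toPt p.1) = y.1 := hb₀
    have htrB : Algebra.trdeg k B = (n + 1 : ℕ) := (trdeg_chart j).trans hdV
    have htrD : Algebra.trdeg k D = (n + 1 : ℕ) := (trdeg_chart j₁).trans hdW
    -- the fibre
    have hSfin : {P : RP k D n | PrimeSpectrum.comap ψ.toRingHom P.1 = p.1}.Finite := by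
      let aBD : Algebra B D := ψ.toRingHom.toAlgebra
      have : Module.Finite B D := hfin
      have h1 := Algebra.QuasiFinite.finite_comap_preimage_singleton (R := B) (S := D) p.1
      exact Set.Finite.preimage Subtype.val_injective.injOn h1
    let S : Finset (RP k D n) := hSfin.toFinset
    have hS : ∀ P : RP k D n, P ∈ S ↔ PrimeSpectrum.comap ψ.toRingHom P.1 = p.1 := fun P => by
      rw [Set.Finite.mem_toFinset]
      exact Iff.rfl
    -- fractions
    obtain ⟨x, y', hx, hy', hxy⟩ := be_frac j₁ φ hφ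
    have hbx : be j₁ x ≠ 0 := (map_ne_zero_iff _ (be_inj j₁)).mpr hx
    have hby : be j₁ y' ≠ 0 := (map_ne_zero_iff _ (be_inj j₁)).mpr hy'
    have hN : Algebra.norm V.X.functionField φ ≠ 0 := Algebra.norm_ne_zero_iff.mpr hφ
    have hNx : Algebra.norm V.X.functionField (be j₁ x) ≠ 0 := Algebra.norm_ne_zero_iff.mpr hbx
    have hNy : Algebra.norm V.X.functionField (be j₁ y') ≠ 0 := Algebra.norm_ne_zero_iff.mpr hby
    obtain ⟨b, c', hb, hc', hbc⟩ := be_frac j _ hNx
    obtain ⟨b', c'', hb', hc'', hbc'⟩ := be_frac j _ hNy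
    have hNN : Algebra.norm V.X.functionField φ * be j (b' * c') = be j (b * c'') := by
      have h1 : Algebra.norm V.X.functionField φ * Algebra.norm V.X.functionField (be j₁ y') =
          Algebra.norm V.X.functionField (be j₁ x) := by rw [← map_mul, hxy]
      rw [map_mul, map_mul, ← hbc, ← hbc', ← h1]
      ring
    have e1 := npu_alg (be j) (be j₁) ι ψ hNPU (be_inj j) (be_inj j₁) (be_frac j) (be_frac j₁) hc0
      hfin n p S htrB hS x b c' hx hb hc' hbc
    have e2 := npu_alg (be j) (be j₁) ι ψ hNPU (be_inj j) (be_inj j₁) (be_frac j) (be_frac j₁) hc0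
      hfin n p S htrB hS y' b' c'' hy' hb' hc'' hbc'
    have e3 := ord_chart j htrB p _ hN (b * c'') (b' * c') (mul_ne_zero hb hc'')
      (mul_ne_zero hb' hc') hNN
    rw [len_mul hLENC htrB p b c'' hb hc'', len_mul hLENC htrB p b' c' hb' hc'] at e3
    -- the value of `d`
    have hdy : d y = ((Scheme.ord (Algebra.norm V.X.functionField φ) (j.g (toPt p.1)) : ℤ) : E) := by
      have h1 := hd.1 (j.g (toPt p.1)) (by
        change V.dim (j.g (toPt p.1)) = n
        rw [hpy]
        exact y.2)
      rw [← h1]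
      congr 1
      exact Subtype.ext hpy.symm
    -- the points over `y`
    have hwd : ∀ P : RP k D n, W.dim (j₁.g (toPt P.1)) = n := fun P => by
      rw [dim_map j₁.g j₁.comm, dim_toPt]
      exact P.2
    let w : RP k D n → Pts n W := fun P => ⟨j₁.g (toPt P.1), hwd P⟩
    have hw : Function.Injective w := by
      intro P P' h
      have h1 : j₁.g (toPt P.1) = j₁.g (toPt P'.1) := congrArg Subtype.val h
      exact Subtype.ext (openIn_injective j₁ h1)
    have hcw : ∀ P : RP k D n, c (w P) = (len (Ideal.span {x}) P.1 : E) - len (Ideal.span {y'}) P.1 := by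
      intro P
      have h1 := hdiv.1 (j₁.g (toPt P.1)) (hwd P)
      have h2 : c (w P) = ((Scheme.ord φ (j₁.g (toPt P.1)) : ℤ) : E) := h1
      rw [h2, ord_chart j₁ htrD P φ hφ x y' hx hy' hxy]
      push_cast
      rfl
    let F : Pts n W → E := fun x => c x * (if f.g x.1 = y.1 then (f.deg x.1 : E) else 0)
    have hsum : pfc E n f c y = ∑ P ∈ S, F (w P) := by
      rw [hPFC.2.2.2.2.2 k E n W V f c y]
      have h0 : (c.sum fun x e => e * (if f.g x.1 = y.1 then (f.deg x.1 : E) else 0)) =
          ∑ x ∈ c.support, F x := rfl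
      have h9 : ∑ P ∈ S, F (w P) = ∑ x ∈ S.map ⟨w, hw⟩, F x := (Finset.sum_map S ⟨w, hw⟩ F).symm
      rw [h0, h9]
      have h1 : ∑ x ∈ c.support, F x = ∑ x ∈ c.support ∪ S.map ⟨w, hw⟩, F x := by
        refine Finset.sum_subset Finset.subset_union_left fun x _ hx => ?_
        change c x * _ = 0
        rw [Finsupp.notMem_support_iff.mp hx, zero_mul]
      have h2 : ∑ x ∈ S.map ⟨w, hw⟩, F x = ∑ x ∈ c.support ∪ S.map ⟨w, hw⟩, F x := by
        refine Finset.sum_subset Finset.subset_union_right fun x _ hx => ?_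
        change c x * (if f.g x.1 = y.1 then (f.deg x.1 : E) else 0) = 0
        rw [if_neg, mul_zero]
        intro hxy
        apply hx
        obtain ⟨q, hq⟩ := hpre x.1 (by rw [hxy]; exact ⟨b₀, hb₀⟩)
        have hqn : rdim k (ofPt q) = n := by
          rw [← dim_toPt, toPt_ofPt, ← dim_map j₁.g j₁.comm, hq]
          exact x.2
        rw [Finset.mem_map]
        refine ⟨⟨ofPt q, hqn⟩, ?_, Subtype.ext hq⟩
        rw [hS]
        have h3 := hcomm' (ofPt q)
        rw [toPt_ofPt, hq, hxy, ← hpy] at h3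
        exact (openIn_injective j h3).symm
      rw [h1, h2]
    have hFw : ∀ P ∈ S, F (w P) = ((len (Ideal.span {x}) P.1 : E) - len (Ideal.span {y'}) P.1) *
        (rdeg ψ.toRingHom P.1 : E) := by
      intro P hP
      change c (w P) * (if f.g (j₁.g (toPt P.1)) = y.1 then (f.deg (j₁.g (toPt P.1)) : E) else 0) = _
      rw [hcw, if_pos, hRDG k B D ψ V W f j j₁ hcomm P.1]
      rw [hcomm', (hS P).mp hP, hpy]
    rw [hsum, Finset.sum_congr rfl hFw, hdy, e3]
    have e1' := congrArg (Nat.cast : ℕ → E) e1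
    have e2' := congrArg (Nat.cast : ℕ → E) e2
    push_cast at e1' e2' ⊢
    have h3 : ∑ P ∈ S, ((len (Ideal.span {x}) P.1 : E) - len (Ideal.span {y'}) P.1) *
        (rdeg ψ.toRingHom P.1 : E) =
        ∑ P ∈ S, (rdeg ψ.toRingHom P.1 : E) * len (Ideal.span {x}) P.1 -
          ∑ P ∈ S, (rdeg ψ.toRingHom P.1 : E) * len (Ideal.span {y'}) P.1 := by
      rw [← Finset.sum_sub_distrib]
      refine Finset.sum_congr rfl fun P _ => ?_
      ring
    rw [h3]
    linear_combination e1' - e2'
  have hF := (key v₀).1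
  have hN : Algebra.norm V.X.functionField φ ≠ 0 := Algebra.norm_ne_zero_iff.mpr hφ
  obtain ⟨d, hd⟩ := exists_div (E := E) (i := n) (idIn V) (Algebra.norm V.X.functionField φ) hN
  have hpd : pfc E n f c = d := by
    ext y
    exact (key y).2 d hd
  rw [hpd]
  exact Submodule.subset_span ⟨V, hV, idIn V, _, hdV, hN, hd⟩

end CUB


end

section

/-!
# CUB2: module PUSHG
-/

set_option autoImplicit false

open CategoryTheory AlgebraicGeometry Limits Polynomial TopologicalSpace

namespace CUB

open Pool.Agent.Lib_helper55.Beil Pool.Agent.Lib_helper66.OneP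

universe v

namespace PUSHG

variable {k : Type} [Field k] {E : Type} [Field E]

/-- A divisor on a closed subvariety, as the push-forward of a cycle. -/
lemma isDiv_pushCyc {n : ℕ} {W X : Var k} [IsIntegral W.X] (a : ClosedIn W X)
    (φ : W.X.functionField) (d : Pts n W →₀ E) (hd : IsDiv (idIn W) φ d) :
    IsDiv a φ (pushCyc a d) := by
  constructor
  · intro w h
    have hw : W.dim w = n := by
      rw [← dim_map a.g a.comm]
      exact h
    have h5 : Finsupp.mapDomain (ptsMap n a) d (ptsMap n a (Subtype.mk w hw : Pts n W)) =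
        d (Subtype.mk w hw : Pts n W) :=
      Finsupp.mapDomain_apply (ptsMap_injective n a) _ _
    exact h5.trans (hd.1 w hw)
  · intro x hx
    refine Finsupp.mapDomain_of_notMem_range _ _ ?_
    rintro ⟨w, rfl⟩
    exact hx ⟨w.1, rfl⟩

/-- The image of an integral variety, as a closed subvariety. -/
noncomputable def imVar {W Y : Var k} (F : W.X ⟶ Y.X) [QuasiCompact F] : Var k where
  X := F.image
  f := F.imageι ≫ Y.f
  sep := inferInstance
  lft := inferInstance
  qc := inferInstance

/-- The inclusion of the image. -/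
noncomputable def imIn {W Y : Var k} (F : W.X ⟶ Y.X) [QuasiCompact F] :
    ClosedIn (imVar F) Y where
  g := F.imageι
  comm := rfl
  closed := inferInstanceAs (IsClosedImmersion F.imageι)

/-- The morphism to the image. -/
noncomputable def toIm {W Y : Var k} (F : W.X ⟶ Y.X) [IsProper F] (hF : F ≫ Y.f = W.f) :
    PrMor W (imVar F) where
  g := F.toImage
  comm := by
    change F.toImage ≫ F.imageι ≫ Y.f = W.f
    rw [← Category.assoc, F.toImage_imageι, hF]
  proper := by
    have h1 : IsProper (F.toImage ≫ F.imageι) := by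
      rw [F.toImage_imageι]
      infer_instance
    exact IsProper.of_comp F.toImage F.imageι

lemma toIm_comp {W Y : Var k} (F : W.X ⟶ Y.X) [IsProper F] (hF : F ≫ Y.f = W.f) :
    (toIm F hF).g ≫ (imIn F).g = F := F.toImage_imageι

lemma toIm_generic {W Y : Var k} (F : W.X ⟶ Y.X) [IsProper F] (hF : F ≫ Y.f = W.f)
    [IsIntegral W.X] [hV : IsIntegral (imVar F).X] :
    (toIm F hF).g (genericPoint W.X) = genericPoint (imVar F).X := by
  have h1 := (genericPoint_spec W.X).image F.toImage.continuous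
  rw [Set.image_univ] at h1
  have h2 : closure (Set.range F.toImage) = Set.univ :=
    (IsDominant.denseRange (f := F.toImage)).closure_range
  rw [h2] at h1
  exact h1.eq (genericPoint_spec (imVar F).X)

end PUSHG

open _root_.CUB.PUSHG

theorem t_PUSHG : M_PUSHG.{v} := by
  intro hPFC hDST hPUSHD k E _ _ n X Y f hf c hc
  obtain ⟨-, hfun, hcl, -, -, -⟩ := hPFC
  induction hc using Submodule.span_induction with
  | mem c hc =>
    obtain ⟨W, hW, a, φ, h1, h2, h3⟩ := hc
    obtain ⟨d, hd⟩ := exists_div (E := E) (i := n) (idIn W) φ h2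
    have hcd : c = pushCyc a d := isDiv_unique a φ c _ h3 (isDiv_pushCyc a φ d hd)
    have hF : (a.g ≫ f.g) ≫ Y.f = W.f := by
      rw [Category.assoc, f.comm, a.comm]
    have hV : IsIntegral (imVar (W := W) (Y := Y) (a.g ≫ f.g)).X :=
      isIntegral_image (a.g ≫ f.g)
    have hgen := toIm_generic (W := W) (Y := Y) (a.g ≫ f.g) hF
    have hdim : (imVar (W := W) (Y := Y) (a.g ≫ f.g)).dim
        (genericPoint (imVar (W := W) (Y := Y) (a.g ≫ f.g)).X) = (n + 1 : ℕ) := by
      rw [← hgen, ← dim_map (imIn (W := W) (Y := Y) (a.g ≫ f.g)).g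
        (imIn (W := W) (Y := Y) (a.g ≫ f.g)).comm, ← Scheme.Hom.comp_apply, toIm_comp,
        Scheme.Hom.comp_apply]
      apply hf
      rw [dim_map a.g a.comm, h1]
    have h4 := hPUSHD k E n W (imVar (W := W) (Y := Y) (a.g ≫ f.g)) hW hV
      (toIm (W := W) (Y := Y) (a.g ≫ f.g) hF) φ d h1 hdim hgen h2 hd
    have h5 := ratZero_map (imIn (W := W) (Y := Y) (a.g ≫ f.g)) _ h4
    have h6 : pfc E n f c = pushCyc (imIn (W := W) (Y := Y) (a.g ≫ f.g))
        (pfc E n (toIm (W := W) (Y := Y) (a.g ≫ f.g) hF) d) := by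
      rw [hcd, ← hcl k E n W X a (clPr a) rfl d,
        ← hcl k E n _ Y (imIn (W := W) (Y := Y) (a.g ≫ f.g))
          (clPr (imIn (W := W) (Y := Y) (a.g ≫ f.g))) rfl,
        hfun k E n W X Y (clPr a) f ((clPr a).trans f) rfl d]
      refine (hfun k E n W _ Y _ _ ((clPr a).trans f) ?_ d).symm
      exact toIm_comp (W := W) (Y := Y) (a.g ≫ f.g) hF
    rw [h6]
    exact h5
  | zero => rw [map_zero]; exact zero_mem _
  | add x y _ _ hx hy => rw [map_add]; exact add_mem hx hy
  | smul r x _ hx => rw [map_smul]; exact Submodule.smul_mem _ _ hx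

end CUB


end

section

/-!
# CUB2, module RDG: residue degrees in charts
-/

set_option autoImplicit false

open CategoryTheory AlgebraicGeometry Limits Polynomial TopologicalSpace

namespace CUB

open Pool.Agent.Lib_helper55.Beil Pool.Agent.Lib_helper66.OneP

namespace RDG

/-- The degree of a homomorphism. -/
noncomputable def rd {K L : CommRingCat.{0}} (ψ : K ⟶ L) : ℕ :=
  @Module.finrank K L _ _ ψ.hom.toAlgebra.toModule

theorem rd_eq {K L K' L' : CommRingCat.{0}} (ψ : K ⟶ L) (ψ' : K' ⟶ L') (e : K ≅ K')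
    (e' : L ≅ L') (h : e.hom ≫ ψ' = ψ ≫ e'.hom) : rd ψ = rd ψ' := by
  letI := ψ.hom.toAlgebra
  letI := ψ'.hom.toAlgebra
  refine Algebra.finrank_eq_of_equiv_equiv e.commRingCatIsoToRingEquiv
    e'.commRingCatIsoToRingEquiv ?_
  ext x
  exact congrArg (fun t : K ⟶ L' => t.hom x) h

theorem deg_eq {X Y : Scheme.{0}} (f : X ⟶ Y) (x : X) :
    f.residueDegree x = rd (f.residueFieldMap x) := rfl

theorem deg_comp_left {X Y Z : Scheme.{0}} (f : X ⟶ Y) (g : Y ⟶ Z) [IsOpenImmersion f] (x : X) :
    g.residueDegree (f x) = (f ≫ g).residueDegree x := by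
  rw [deg_eq, deg_eq]
  refine rd_eq _ _ (Iso.refl _) (asIso (f.residueFieldMap x)) ?_
  rw [Scheme.residueFieldMap_comp]
  simp

theorem deg_comp_right {X Y Z : Scheme.{0}} (f : X ⟶ Y) (g : Y ⟶ Z) [IsOpenImmersion g] (x : X) :
    (f ≫ g).residueDegree x = f.residueDegree x := by
  rw [deg_eq, deg_eq]
  have i1 : IsIso (g.residueFieldMap (f x)) := inferInstance
  refine rd_eq _ _ (@asIso _ _ _ _ (g.residueFieldMap (f x)) i1) (Iso.refl _) ?_
  rw [Scheme.residueFieldMap_comp]
  simp

theorem deg_congr {X Y : Scheme.{0}} (f g : X ⟶ Y) (h : f = g) (x : X) :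
    f.residueDegree x = g.residueDegree x := by rw [h]

theorem sq {A B : CommRingCat.{0}} (φ : A ⟶ B) (P : Spec B) :
    (Scheme.Spec.residueFieldIso A (Spec.map φ P)).inv ≫ (Spec.map φ).residueFieldMap P =
      CommRingCat.ofHom (Ideal.ResidueField.map
        (PrimeSpectrum.comap φ.hom P).asIdeal P.asIdeal φ.hom rfl) ≫
        (Scheme.Spec.residueFieldIso B P).inv := by
  apply CommRingCat.hom_ext
  apply Ideal.ResidueField.ringHom_ext
  ext a
  have e1 : (Scheme.Spec.residueFieldIso A (Spec.map φ P)).inv.hom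
      (algebraMap A (PrimeSpectrum.comap φ.hom P).asIdeal.ResidueField a) =
      ((Spec A).Γevaluation (Spec.map φ P)).hom ((Scheme.ΓSpecIso A).inv.hom a) :=
    congrArg (fun t => t.hom a) (Scheme.Spec.algebraMap_residueFieldIso_inv A (Spec.map φ P))
  have e2 : (Scheme.Spec.residueFieldIso B P).inv.hom
      (algebraMap B (PrimeSpectrum.asIdeal P).ResidueField (φ.hom a)) =
      ((Spec B).Γevaluation P).hom ((Scheme.ΓSpecIso B).inv.hom (φ.hom a)) :=
    congrArg (fun t => t.hom (φ.hom a)) (Scheme.Spec.algebraMap_residueFieldIso_inv B P)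
  have e3 : Ideal.ResidueField.map
        (PrimeSpectrum.comap φ.hom P).asIdeal (PrimeSpectrum.asIdeal P) φ.hom rfl
        (algebraMap A (PrimeSpectrum.comap φ.hom P).asIdeal.ResidueField a) =
        algebraMap B (PrimeSpectrum.asIdeal P).ResidueField (φ.hom a) :=
    Ideal.ResidueField.map_algebraMap _ _ _ _ a
  have e4 : ((Spec.map φ).residueFieldMap P).hom
      (((Spec A).Γevaluation (Spec.map φ P)).hom ((Scheme.ΓSpecIso A).inv.hom a)) =
      ((Spec B).Γevaluation P).hom ((Spec.map φ).appTop.hom ((Scheme.ΓSpecIso A).inv.hom a)) :=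
    congrArg (fun t => t.hom ((Scheme.ΓSpecIso A).inv.hom a))
      (Scheme.Γevaluation_naturality (Spec.map φ) P)
  have e5 : (Scheme.ΓSpecIso B).inv.hom (φ.hom a) =
      (Spec.map φ).appTop.hom ((Scheme.ΓSpecIso A).inv.hom a) :=
    congrArg (fun t => t.hom a) (Scheme.ΓSpecIso_inv_naturality φ)
  have g1 : ((Spec.map φ).residueFieldMap P).hom
      ((Scheme.Spec.residueFieldIso A (Spec.map φ P)).inv.hom
      (algebraMap A (PrimeSpectrum.comap φ.hom P).asIdeal.ResidueField a)) =
      ((Spec B).Γevaluation P).hom ((Scheme.ΓSpecIso B).inv.hom (φ.hom a)) := by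
    rw [e5, ← e4]
    exact congrArg ((Spec.map φ).residueFieldMap P).hom e1
  have g2 : (Scheme.Spec.residueFieldIso B P).inv.hom
      (Ideal.ResidueField.map
        (PrimeSpectrum.comap φ.hom P).asIdeal (PrimeSpectrum.asIdeal P) φ.hom rfl
        (algebraMap A (PrimeSpectrum.comap φ.hom P).asIdeal.ResidueField a)) =
      ((Spec B).Γevaluation P).hom ((Scheme.ΓSpecIso B).inv.hom (φ.hom a)) :=
    (congrArg (Scheme.Spec.residueFieldIso B P).inv.hom e3).trans e2
  exact g1.trans g2.symm

theorem sq' {A B : CommRingCat.{0}} (φ : A ⟶ B) (P : Spec B) :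
    (Scheme.Spec.residueFieldIso A (Spec.map φ P)).hom ≫
      CommRingCat.ofHom (Ideal.ResidueField.map
        (PrimeSpectrum.comap φ.hom P).asIdeal P.asIdeal φ.hom rfl) =
      (Spec.map φ).residueFieldMap P ≫ (Scheme.Spec.residueFieldIso B P).hom := by
  have h := (Iso.inv_comp_eq _).1 (sq φ P)
  have h2 := (Iso.eq_comp_inv (Scheme.Spec.residueFieldIso B P)).1
    (h.trans (Category.assoc _ _ _).symm)
  exact h2.symm

end RDG

theorem t_RDG : S_RDG := by
  intro k A B _ _ _ _ _ _ _ φ X Y f j j' h P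
  have h1 : f.deg (j'.g (toPt P)) = f.g.residueDegree (j'.g (toPt P)) := rfl
  have h2 : rdeg φ.toRingHom P = RDG.rd (CommRingCat.ofHom (Ideal.ResidueField.map
        (PrimeSpectrum.comap φ.toRingHom P).asIdeal P.asIdeal φ.toRingHom rfl)) := rfl
  have h3 : f.g.residueDegree (j'.g (toPt P)) = (j'.g ≫ f.g).residueDegree (toPt P) :=
    RDG.deg_comp_left j'.g f.g (toPt P)
  have h4 : (spm φ ≫ j.g).residueDegree (toPt P) = (spm φ).residueDegree (toPt P) :=
    RDG.deg_comp_right (spm φ) j.g (toPt P)
  have h5 : (spm φ).residueDegree (toPt P) = rdeg φ.toRingHom P := by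
    rw [h2]
    exact RDG.rd_eq _ _ (Scheme.Spec.residueFieldIso (CommRingCat.of A)
      (Spec.map (CommRingCat.ofHom φ.toRingHom) P))
      (Scheme.Spec.residueFieldIso (CommRingCat.of B) P) (RDG.sq' (CommRingCat.ofHom φ.toRingHom) P)
  rw [h1, h3, RDG.deg_congr _ _ h, h4, h5]

end CUB


end

section

/-!
# CUB2: the graph of a morphism is a closed immersion
-/

set_option autoImplicit false

open CategoryTheory AlgebraicGeometry Limits Polynomial TopologicalSpace

namespace CUB

open Pool.Agent.Lib_helper55.Beil Pool.Agent.Lib_helper66.OneP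

theorem t_SEC : S_SEC := by
  intro k _ X P ψ hψ
  have hw : 𝟙 X.X ≫ X.f = ψ ≫ P.f := by rw [Category.id_comp, hψ]
  have h1 : pullback.lift (𝟙 X.X) ψ hw ≫ pullback.fst X.f P.f = 𝟙 X.X :=
    pullback.lift_fst _ _ _
  have hcl : IsClosedImmersion (pullback.lift (𝟙 X.X) ψ hw) := by
    have hc : IsClosedImmersion (pullback.lift (𝟙 X.X) ψ hw ≫ pullback.fst X.f P.f) := by
      rw [h1]; infer_instance
    exact IsClosedImmersion.of_comp _ (pullback.fst X.f P.f)
  refine ⟨{ g := pullback.lift (𝟙 X.X) ψ hw, comm := ?_, closed := hcl }, h1,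
    pullback.lift_snd _ _ _⟩
  change pullback.lift (𝟙 X.X) ψ hw ≫ pullback.fst X.f P.f ≫ X.f = X.f
  rw [← Category.assoc, h1, Category.id_comp]

end CUB


end

section

set_option autoImplicit false

open Polynomial

namespace QCV

open CUB

theorem t_DLM : M_DLM := by
  intro hDLR k A _ _ _ _ d n h
  induction n with
  | zero =>
    let e : A ≃ₐ[k] MvPolynomial (Fin 0) A :=
      ((MvPolynomial.isEmptyAlgEquiv A (Fin 0)).restrictScalars k).symm
    exact hDLR.1 k A (MvPolynomial (Fin 0) A) d e.toAlgHom e.surjective h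
  | succ n ih =>
    let e : MvPolynomial (Fin (n + 1)) A ≃ₐ[k] (MvPolynomial (Fin n) A)[X] :=
      (MvPolynomial.finSuccEquiv A n).restrictScalars k
    have h1 := hDLR.2.2.2.1 k (MvPolynomial (Fin n) A) (d + n) ih
    exact hDLR.1 k _ (MvPolynomial (Fin (n + 1)) A) (d + n + 1) e.symm.toAlgHom e.symm.surjective h1

end QCV


end

section

set_option autoImplicit false

open Polynomial

namespace QCV

open CUB

theorem t_IGE : M_IGE := by
  intro hDLR hDLM hSPR k ι _ P n hP hA hB R _ _ _ f hR
  refine hSPR k ι P hP 1 n (fun _ _ _ => True) (fun _ _ _ _ _ _ _ => trivial) ?_ R f hR trivial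
  intro D _ _ _ _ f hD _
  refine ⟨1, one_ne_zero, ?_⟩
  have hD' : DL k (Localization.Away (1 : D)) 1 :=
    hDLR.2.1 k D (Localization.Away (1 : D)) 1 1 (awayHom k 1) (isLocalization_awayHom 1) hD
  have hinj : Function.Injective (algebraMap D (Localization.Away (1 : D))) :=
    IsLocalization.injective _ (powers_le_nonZeroDivisors_of_noZeroDivisors one_ne_zero)
  have hdom : IsDomain (Localization.Away (1 : D)) :=
    IsLocalization.isDomain_localization
      (powers_le_nonZeroDivisors_of_noZeroDivisors one_ne_zero)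
  by_cases h0 : ∀ j, f j = 0
  · have h1 := hA (Localization.Away (1 : D)) hD'
    have h2 : Ideal.span (Set.range (mf (algebraMap D (Localization.Away (1 : D))) f)) = ⊥ := by
      rw [Ideal.span_eq_bot]
      rintro _ ⟨j, rfl⟩
      change MvPolynomial.map _ (f j) = 0
      rw [h0 j, map_zero]
    exact hP.iso ((AlgEquiv.quotientBot k (MvPolynomial (Fin n) (Localization.Away (1 : D)))).symm.trans
      (Ideal.quotientEquivAlgOfEq k h2.symm)) h1
  · push Not at h0
    obtain ⟨j, hj⟩ := h0
    apply hB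
    have h1 : mf (algebraMap D (Localization.Away (1 : D))) f j ≠ 0 := by
      change MvPolynomial.map _ (f j) ≠ 0
      rw [Ne, ← map_zero (MvPolynomial.map (algebraMap D (Localization.Away (1 : D))))]
      exact fun h => hj (MvPolynomial.map_injective _ hinj h)
    have h2 : DL k (MvPolynomial (Fin n) (Localization.Away (1 : D))) (n + 1) := by
      rw [add_comm]
      exact hDLM k _ 1 n hD'
    have h3 := hDLR.2.2.2.2 k (MvPolynomial (Fin n) (Localization.Away (1 : D))) n _ h1 h2
    have hle : Ideal.span {mf (algebraMap D (Localization.Away (1 : D))) f j} ≤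
        Ideal.span (Set.range (mf (algebraMap D (Localization.Away (1 : D))) f)) := by
      rw [Ideal.span_singleton_le_iff_mem]
      exact Ideal.subset_span ⟨j, rfl⟩
    exact hDLR.1 k _ _ n (Ideal.Quotient.factorₐ k hle) (Ideal.Quotient.factor_surjective hle) h3

end QCV


end

section

/-!
# QCV, DFX: a fixed point in the ring of power series
-/

set_option autoImplicit false

namespace QCV

theorem dfx_congr {K : Type} [Field K] {m : ℕ} (a : PowerSeries K) (u u' : Fin m → PowerSeries K)
    (h : ∀ j, a ∣ u j - u' j) (p : MvPolynomial (Fin m) K) :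
    a ∣ MvPolynomial.aeval u p - MvPolynomial.aeval u' p := by
  induction p using MvPolynomial.induction_on with
  | C c => rw [MvPolynomial.aeval_C, MvPolynomial.aeval_C, sub_self]; exact dvd_zero _
  | add p q hp hq =>
    rw [map_add, map_add, add_sub_add_comm]
    exact dvd_add hp hq
  | mul_X p j hp =>
    rw [map_mul, map_mul, MvPolynomial.aeval_X, MvPolynomial.aeval_X]
    have e : MvPolynomial.aeval u p * u j - MvPolynomial.aeval u' p * u' j =
        (MvPolynomial.aeval u p - MvPolynomial.aeval u' p) * u j +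
          MvPolynomial.aeval u' p * (u j - u' j) := by ring
    rw [e]
    exact dvd_add (hp.mul_right _) ((h j).mul_left _)

/-- The approximations. -/
noncomputable def dfx_seq {K : Type} [Field K] {m : ℕ} (Φ : Fin m → MvPolynomial (Fin m) K) :
    ℕ → Fin m → PowerSeries K
  | 0 => 0
  | n + 1 => fun i => PowerSeries.X * MvPolynomial.aeval (dfx_seq Φ n) (Φ i)

theorem dfx_step {K : Type} [Field K] {m : ℕ} (Φ : Fin m → MvPolynomial (Fin m) K) (n : ℕ) :
    ∀ i, (PowerSeries.X : PowerSeries K) ^ (n + 1) ∣ dfx_seq Φ (n + 1) i - dfx_seq Φ n i := by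
  induction n with
  | zero =>
    intro i
    rw [zero_add, pow_one]
    change _ ∣ PowerSeries.X * MvPolynomial.aeval (dfx_seq Φ 0) (Φ i) - 0
    rw [sub_zero]
    exact dvd_mul_right _ _
  | succ n ih =>
    intro i
    change _ ∣ PowerSeries.X * MvPolynomial.aeval (dfx_seq Φ (n + 1)) (Φ i) -
      PowerSeries.X * MvPolynomial.aeval (dfx_seq Φ n) (Φ i)
    rw [← mul_sub, pow_succ' _ (n + 1)]
    exact mul_dvd_mul_left _ (dfx_congr _ _ _ ih _)

theorem dfx_coeff {K : Type} [Field K] {m : ℕ} (Φ : Fin m → MvPolynomial (Fin m) K) (i : Fin m)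
    (k n : ℕ) (h : k ≤ n) :
    PowerSeries.coeff k (dfx_seq Φ (n + 1) i) = PowerSeries.coeff k (dfx_seq Φ (k + 1) i) := by
  induction n, h using Nat.le_induction with
  | base => rfl
  | succ n hn ih =>
    have h1 := PowerSeries.X_pow_dvd_iff.mp (dfx_step Φ (n + 1) i) k (by omega)
    rw [map_sub, sub_eq_zero] at h1
    rw [h1, ih]

theorem t_DFX : S_DFX := by
  intro K _ m Φ
  let v : Fin m → PowerSeries K := fun i =>
    PowerSeries.mk fun k => PowerSeries.coeff k (dfx_seq Φ (k + 1) i)
  have hv : ∀ n i, (PowerSeries.X : PowerSeries K) ^ n ∣ v i - dfx_seq Φ n i := by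
    intro n i
    rw [PowerSeries.X_pow_dvd_iff]
    intro k hk
    obtain ⟨n, rfl⟩ : ∃ j, n = j + 1 := ⟨n - 1, by omega⟩
    rw [map_sub, dfx_coeff Φ i k n (by omega), PowerSeries.coeff_mk, sub_self]
  refine ⟨v, fun i => ?_⟩
  ext k
  have h1 : (PowerSeries.X : PowerSeries K) ^ (k + 1) ∣
      PowerSeries.X * MvPolynomial.aeval v (Φ i) -
        PowerSeries.X * MvPolynomial.aeval (dfx_seq Φ k) (Φ i) := by
    rw [← mul_sub, pow_succ']
    exact mul_dvd_mul_left _ (dfx_congr _ _ _ (hv k) _)
  have h2 := PowerSeries.X_pow_dvd_iff.mp h1 k (by omega)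
  rw [map_sub, sub_eq_zero] at h2
  rw [h2]
  exact PowerSeries.coeff_mk _ _

end QCV


end
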