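import Mathlib
import Pool.Agent.QVM.C09
import Pool.Agent.QVM.C11

/-! Parts: QCV.FDefs, QCV.F_SUP, CUB2.H_DST, QCV.F_CLO, CUB2.H_REDI, QCV.F_GLU, QCV.F_OPE, CUB2.G_AFY, CUB2.H_DESC, CUB2.H_OPEN, CUB2.H_MOD, CUB2.H_PCY, CUB2.G_PPE, QCV.R_FAM, QCV.R_Q01 -/

section

/-!
# QCV, block F (homology): the class of varieties
-/

set_option autoImplicit false

open CategoryTheory AlgebraicGeometry Limits Polynomial TopologicalSpace

namespace QCV

open Pool.Agent.Lib_helper55.Beil Pool.Agent.Lib_helper66.OneP CUB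

universe v

variable {k : Type} [Field k] {E : Type} [Field E]

/-- The homology class `m` of degree `n` on `X` has support of dimension at most `e`: it comes from a
closed subset. -/
def Supp {i : ℕ} (T : Homology.{v} k E i) (n e : ℕ) (X : Var k) (m : T.H n X) : Prop :=
  ∃ C : Closeds X.X, (∀ x ∈ C, X.dim x ≤ e) ∧ ∃ b : T.H n (closedVar X C),
    T.P n (closedVarIn X C) b = m

/-- The class of varieties: the generalised eigenspace of Frobenius for the eigenvalue one on
`H_2i(Xbar, Q_l(i))` is spanned by cycle classes (`Surj` and `Semisimple`), cycles with class zero are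
rationally equivalent to zero, and the classes in the generalised eigenspace of
`H_(2i+1)(Xbar, Q_l(i))` have support of dimension at most `i + 1`. -/
def PF {i : ℕ} (T : Homology.{v} k E i) (X : Var k) : Prop :=
  T.gen X ≤ T.alg X ∧ T.InjC X ∧ ∀ m ∈ gen1 T X, Supp T (2 * i + 1) (i + 1) X m

/-- The class in all dimensions. -/
def PPF (T : ∀ i : ℕ, Homology.{v} k E i) (X : Var k) : Prop := ∀ i : ℕ, PF (T i) X

end QCV


end

section

/-!
# QCV, block F: supports of homology classes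
-/

set_option autoImplicit false

open CategoryTheory AlgebraicGeometry Limits Polynomial TopologicalSpace

namespace QCV

open Pool.Agent.Lib_helper55.Beil Pool.Agent.Lib_helper66.OneP CUB

universe v

variable {k : Type} [Field k] {E : Type} [Field E] {T : ∀ i : ℕ, Homology.{v} k E i}

/-- The push-forward from the reduced subvariety is surjective. -/
lemma push_red_surjective {i : ℕ} (T : Homology.{v} k E i) (n : ℕ) (X : Var k) :
    Function.Surjective (T.P n (redVarIn X)) := by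
  intro m
  have h := (T.exact_X n (redVarIn X) (openVarIn X ⊥) (complementary_red X) m).mp
  have hs := T.empty n _ (isEmpty_openVar_bot X)
  obtain ⟨z, hz⟩ := h (Subsingleton.elim _ _)
  exact ⟨z, hz⟩

lemma dimLE_red {X : Var k} {d : ℕ} (h : X.DimLE d) : (redVar X).DimLE d := by
  intro x
  have := (redVarIn X).closed
  rw [← dim_map (redVarIn X).g (redVarIn X).comm]
  exact h _

lemma dimLE_closed {Z X : Var k} (a : ClosedIn Z X) {d : ℕ} (h : X.DimLE d) : Z.DimLE d := by
  intro x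
  have := a.closed
  rw [← dim_map a.g a.comm]
  exact h _

/-- The underlying closed set of a closed immersion. -/
def ran {Z X : Var k} (a : ClosedIn Z X) : Closeds X.X :=
  ⟨Set.range a.g, by have := a.closed; exact a.g.isClosedEmbedding.isClosed_range⟩

lemma mem_ran {Z X : Var k} (a : ClosedIn Z X) (x : X.X) : x ∈ ran a ↔ x ∈ Set.range a.g :=
  Iff.rfl

/-- A class which comes from a closed subvariety of dimension at most `e`. -/
lemma supp_mk (hT : Extra T) (i n e : ℕ) {D X : Var k} (a : ClosedIn D X) (hD : D.DimLE e)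
    (b : (T i).H n D) : Supp (T i) n e X ((T i).P n a b) := by
  obtain ⟨b', rfl⟩ := push_red_surjective (T i) n D b
  have hred := isReduced_redVar D
  let c : ClosedIn (redVar D) X := (redVarIn D).trans a
  have hc : ∀ w, c.g w ∈ ran a := fun w => ⟨(redVarIn D).g w, rfl⟩
  refine ⟨ran a, ?_, (T i).P n (factorC c (ran a) hc) b', ?_⟩
  · rintro x ⟨d, rfl⟩
    have := a.closed
    rw [dim_map a.g a.comm]
    exact hD d
  · rw [hT.push_comp i n _ _ _ (factorC c (ran a) hc) (closedVarIn X (ran a)) c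
      (factorC_comp c (ran a) hc), hT.push_comp i n _ _ _ (redVarIn D) a c rfl]

lemma supp_zero {i : ℕ} (T : Homology.{v} k E i) (n e : ℕ) (X : Var k) : Supp T n e X 0 :=
  ⟨⊥, fun _ hx => hx.elim, 0, map_zero (T.push n (closedVarIn X ⊥))⟩

lemma supp_mono (hT : Extra T) (i n : ℕ) (X : Var k) {C C' : Closeds X.X} (h : C ≤ C')
    (b : (T i).H n (closedVar X C)) : ∃ b' : (T i).H n (closedVar X C'),
      (T i).P n (closedVarIn X C') b' = (T i).P n (closedVarIn X C) b :=
  ⟨(T i).P n (closedVarMap X h) b, hT.push_comp i n _ _ _ _ _ _ (closedVarMap_comp X h) b⟩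

lemma supp_add (hT : Extra T) (i n e : ℕ) (X : Var k) (m m' : (T i).H n X)
    (h : Supp (T i) n e X m) (h' : Supp (T i) n e X m') : Supp (T i) n e X (m + m') := by
  obtain ⟨C, hC, b, rfl⟩ := h
  obtain ⟨C', hC', b', rfl⟩ := h'
  obtain ⟨c, hc⟩ := supp_mono hT i n X (le_sup_left : C ≤ C ⊔ C') b
  obtain ⟨c', hc'⟩ := supp_mono hT i n X (le_sup_right : C' ≤ C ⊔ C') b'
  refine ⟨C ⊔ C', ?_, c + c', ?_⟩
  · rintro x (hx | hx)
    · exact hC x hx
    · exact hC' x hx
  · rw [← hc, ← hc']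
    exact map_add ((T i).push n (closedVarIn X (C ⊔ C'))) c c'

lemma supp_neg (i n e : ℕ) (X : Var k) (m : (T i).H n X)
    (h : Supp (T i) n e X m) : Supp (T i) n e X (-m) := by
  obtain ⟨C, hC, b, rfl⟩ := h
  exact ⟨C, hC, -b, map_neg ((T i).push n (closedVarIn X C)) b⟩

/-- Push-forward along a closed immersion. -/
lemma supp_push (hT : Extra T) (i n e : ℕ) {X Y : Var k} (a : ClosedIn X Y) (m : (T i).H n X)
    (h : Supp (T i) n e X m) : Supp (T i) n e Y ((T i).P n a m) := by
  obtain ⟨C, hC, b, rfl⟩ := h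
  rw [hT.push_comp i n _ _ _ (closedVarIn X C) a ((closedVarIn X C).trans a) rfl]
  refine supp_mk hT i n e _ ?_ b
  intro x
  have h1 : (closedVarIn X C).g x ∈ (C : Set X.X) := by
    rw [← range_closedVarIn]
    exact ⟨x, rfl⟩
  have := (closedVarIn X C).closed
  rw [← dim_map (closedVarIn X C).g (closedVarIn X C).comm]
  exact hC _ h1

/-- If the class is in the generalised eigenspace for one, it comes from such a class on a closed
subvariety of dimension at most `e`. -/
lemma supp_gen (i n e : ℕ) (X : Var k) (m : (T i).H n X)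
    (h : Supp (T i) n e X m) (hm : m ∈ Module.End.maxGenEigenspace ((T i).frob n X) 1) :
    ∃ (D : Var k) (a : ClosedIn D X) (b : (T i).H n D), D.DimLE e ∧
      b ∈ Module.End.maxGenEigenspace ((T i).frob n D) 1 ∧ (T i).P n a b = m := by
  obtain ⟨C, hC, b, rfl⟩ := h
  obtain ⟨b', hb', h1⟩ := maxGen_lift ((T i).frob n (closedVar X C)) ((T i).frob n X)
    ((T i).push n (closedVarIn X C)) ((T i).push_frob n (closedVarIn X C)) hm
  refine ⟨closedVar X C, closedVarIn X C, b', ?_, hb', h1⟩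
  intro x
  have h1 : (closedVarIn X C).g x ∈ (C : Set X.X) := by
    rw [← range_closedVarIn]
    exact ⟨x, rfl⟩
  have := (closedVarIn X C).closed
  rw [← dim_map (closedVarIn X C).g (closedVarIn X C).comm]
  exact hC _ h1

/-- If `X` has dimension at most `e` there is no condition. -/
lemma supp_of_dimLE (hT : Extra T) (i n e : ℕ) (X : Var k) (hX : X.DimLE e) (m : (T i).H n X) :
    Supp (T i) n e X m := by
  have h := supp_mk hT i n e (idIn X) hX m
  rwa [hT.push_id i n X (idIn X) rfl m] at h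

end QCV


end

section

/-!
# CUB2: module DST
-/

set_option autoImplicit false

open CategoryTheory AlgebraicGeometry Limits Polynomial TopologicalSpace

namespace CUB

open Pool.Agent.Lib_helper55.Beil Pool.Agent.Lib_helper66.OneP

namespace DST

variable {k : Type} [Field k]

/-- A point has an affine neighbourhood, given as a chart. -/
lemma exists_chart (X : Var k) (x : X.X) :
    ∃ (A : Type) (_ : CommRing A) (_ : Algebra k A) (_ : Algebra.FiniteType k A)
      (j : OpenIn (aff k A) X), x ∈ Set.range j.g := by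
  obtain ⟨W, hW, hxW, -⟩ := exists_isAffineOpen_mem_and_subset (X := X.X) (U := ⊤) (x := x)
    trivial
  have : IsAffine (openVar X W).X := hW
  obtain ⟨A, i1, i2, i3, ⟨s⟩⟩ := exists_aff (openVar X W)
  refine ⟨A, i1, i2, i3, ⟨s.e.hom ≫ (openVarIn X W).g, ?_, ?_⟩, ?_⟩
  · rw [Category.assoc, (openVarIn X W).comm, s.comm]
  · infer_instance
  · have h1 : x ∈ Set.range (openVarIn X W).g := by
      rw [range_openVarIn]
      exact hxW
    obtain ⟨y, hy⟩ := h1
    refine ⟨s.e.inv y, ?_⟩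
    have h2 : s.e.hom (s.e.inv y) = y := s.surj y
    have h3 : (s.e.hom ≫ (openVarIn X W).g) (s.e.inv y) =
        (openVarIn X W).g (s.e.hom (s.e.inv y)) := rfl
    rw [h3, h2, hy]

lemma dim_lt (X : Var k) (x y : X.X) (h : x ⤳ y) (hne : x ≠ y) : X.dim y < X.dim x := by
  obtain ⟨A, i1, i2, i3, j, ⟨y', rfl⟩⟩ := exists_chart X y
  have hx : x ∈ Set.range j.g := h.mem_open j.g.isOpenEmbedding.isOpen_range ⟨y', rfl⟩
  obtain ⟨x', rfl⟩ := hx
  rw [dim_map j.g j.comm, dim_map j.g j.comm]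
  have h1 : x' ⤳ y' := j.g.isOpenEmbedding.isInducing.specializes_iff.mp h
  have h2 : ofPt x' ≤ ofPt y' := (PrimeSpectrum.le_iff_specializes _ _).mpr h1
  have h3 : ofPt x' ≠ ofPt y' := by
    intro h4
    apply hne
    have h5 : x' = y' := h4
    rw [h5]
  have h4 := rdim_lt (k := k) (lt_of_le_of_ne h2 h3)
  have h5 := dim_toPt (k := k) (ofPt x')
  have h6 := dim_toPt (k := k) (ofPt y')
  rw [toPt_ofPt] at h5 h6
  rw [h5, h6]
  exact h4

end DST

theorem t_DST : S_DST := by
  refine ⟨?_, ?_, ?_, ?_⟩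
  · intro k _ X x y h hne
    exact DST.dim_lt X x y h hne
  · intro k _ X x
    obtain ⟨A, i1, i2, i3, j, ⟨x', rfl⟩⟩ := DST.exists_chart X x
    rw [dim_map j.g j.comm]
    have h5 := dim_toPt (k := k) (ofPt x')
    rw [toPt_ofPt] at h5
    rw [h5]
    exact exists_rdim (k := k) (ofPt x')
  · intro k _ n X hX x hX2 hx
    obtain ⟨A, i1, i2, i3, j, ⟨x', rfl⟩⟩ := DST.exists_chart X x
    have hne : Nonempty (aff k A).X := ⟨x'⟩
    have hint : IsIntegral (aff k A).X := isIntegral_of_isOpenImmersion j.g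
    have hdom : IsDomain A := by
      have h1 : IsIntegral (Spec (CommRingCat.of A)) := hint
      exact (affine_isIntegral_iff (CommRingCat.of A)).mp h1
    rw [coheight_eq_of_isOpenImmersion j.g]
    apply coheight_eq_one (k := k) (n := n)
    · rw [← dim_generic_aff, ← dim_map j.g j.comm, genericPoint_eq_of_isOpenImmersion j.g, hX2]
    · have h5 := dim_toPt (k := k) (ofPt x')
      rw [toPt_ofPt] at h5
      rw [← h5, ← dim_map j.g j.comm, hx]
  · intro k _ n X hX x hX2 hx
    by_contra hne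
    have h1 := DST.dim_lt X (genericPoint X.X) x (genericPoint_specializes x) (fun h => hne h.symm)
    rw [hx] at h1
    exact absurd (h1.trans_le (hX2 _)) (lt_irrefl _)

end CUB


end

section

/-!
# QCV, block F: closures of locally closed subvarieties, supports of rational equivalence
-/

set_option autoImplicit false

open CategoryTheory AlgebraicGeometry Limits Polynomial TopologicalSpace

namespace QCV

open Pool.Agent.Lib_helper55.Beil Pool.Agent.Lib_helper66.OneP CUB

universe v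

variable {k : Type} [Field k] {E : Type} [Field E]

/-- In a Noetherian sober space every point is a specialisation of a point of a given dense open
subset. -/
lemma exists_specializes (W : Var k) (O : W.X.Opens) (hO : Dense (O : Set W.X)) (w : W.X) :
    ∃ x ∈ O, x ⤳ w := by
  obtain ⟨η, hηw, hη⟩ := exists_maximal W w
  refine ⟨η, ?_, hηw⟩
  have hC : closure ({η} : Set W.X) ∈ irreducibleComponents W.X := by
    refine ⟨isIrreducible_singleton.closure, ?_⟩
    intro D hD hD2
    obtain ⟨ξ, hξ⟩ := QuasiSober.sober hD.closure isClosed_closure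
    have h1 : ξ ⤳ η := by
      rw [specializes_iff_mem_closure, hξ.def]
      exact subset_closure (hD2 (subset_closure rfl))
    have h2 := hη ξ h1
    subst h2
    rw [hξ.def]
    exact subset_closure
  let U₁ : W.X.Opens := Scheme.irreducibleComponentOpen W.X (closure {η})
  have hηU₁ : η ∈ U₁ := by
    change η ∈ (⋃₀ (irreducibleComponents W.X \ {closure {η}}))ᶜ
    rintro ⟨D, ⟨hD1, hD2⟩, hD3⟩
    have hDc : IsClosed D := isClosed_of_mem_irreducibleComponents D hD1
    have h1 : closure ({η} : Set W.X) ≤ D :=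
      closure_minimal (Set.singleton_subset_iff.mpr hD3) hDc
    exact hD2 (le_antisymm (hC.2 hD1.1 h1) h1)
  obtain ⟨y, hy1, hy2⟩ := hO.inter_open_nonempty _ U₁.2 ⟨η, hηU₁⟩
  have h1 : η ⤳ y := by
    rw [specializes_iff_mem_closure]
    by_contra hcon
    apply (show y ∉ ⋃₀ (irreducibleComponents W.X \ {closure {η}}) from hy1)
    refine ⟨irreducibleComponent y, ⟨irreducibleComponent_mem_irreducibleComponents y, ?_⟩,
      mem_irreducibleComponent⟩
    intro h1
    apply hcon
    rw [← (show irreducibleComponent y = closure {η} from h1)]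
    exact mem_irreducibleComponent
  exact h1.mem_open O.2 hy2

/-- The scheme-theoretic image of a morphism from a reduced scheme is reduced. -/
lemma isReduced_image {A B : Scheme.{0}} (f : A ⟶ B) [QuasiCompact f] [IsReduced A] :
    IsReduced f.image := by
  change IsReduced f.ker.subscheme
  have h : ∀ U, IsReduced (f.ker.subschemeCover.openCover.X U) := by
    intro U
    change IsReduced (Spec (.of (Γ(B, U.1) ⧸ f.ker.ideal U)))
    have : _root_.IsReduced (Γ(B, U.1) ⧸ f.ker.ideal U) := by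
      rw [← Ideal.isRadical_iff_quotient_reduced, f.ker_apply]
      intro x hx
      obtain ⟨n, hn⟩ := hx
      rw [RingHom.mem_ker] at hn ⊢
      rw [map_pow] at hn
      exact IsReduced.eq_zero _ ⟨n, hn⟩
    have : _root_.IsReduced (CommRingCat.of (Γ(B, U.1) ⧸ f.ker.ideal U)) := this
    infer_instance
  exact IsReduced.of_openCover _ f.ker.subschemeCover.openCover

/-- The closure of a closed subvariety of an open subvariety. -/
lemma exists_closure {U X D : Var k} (j : OpenIn U X) (b : ClosedIn D U) :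
    ∃ (W : Var k) (a : ClosedIn W X) (h : OpenIn D W), h.g ≫ a.g = b.g ≫ j.g ∧
      (∀ w, a.g w ∈ Set.range j.g → w ∈ Set.range h.g) ∧ (∀ w : W.X, ∃ d, h.g d ⤳ w) ∧
      (IsReduced D.X → IsReduced W.X) := by
  have hb := b.closed
  have hj := j.isOpen
  let f : D.X ⟶ X.X := b.g ≫ j.g
  have hf1 : IsImmersion f := inferInstance
  have e : f ≫ X.f = D.f := by
    rw [Category.assoc, j.comm, b.comm]
  have hf2 : QuasiCompact f := by
    have : QuasiCompact (f ≫ X.f) := by
      rw [e]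
      infer_instance
    exact QuasiCompact.of_comp f X.f
  let W : Var k :=
    { X := f.image
      f := f.imageι ≫ X.f
      sep := inferInstance
      lft := inferInstance
      qc := inferInstance }
  have ha : IsClosedImmersion f.imageι := inferInstance
  let a : ClosedIn W X := ⟨f.imageι, rfl, ha⟩
  have hcomm : f.toImage ≫ f.imageι = b.g ≫ j.g := f.toImage_imageι
  let h : OpenIn D W := ⟨f.toImage, by
    change f.toImage ≫ f.imageι ≫ X.f = D.f
    rw [← Category.assoc, hcomm, Category.assoc, j.comm, b.comm],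
    inferInstanceAs (IsOpenImmersion f.toImage)⟩
  have hh := h.isOpen
  have hpt : ∀ w, a.g (h.g w) = j.g (b.g w) := by
    intro w
    rw [← Scheme.Hom.comp_apply, show h.g ≫ a.g = b.g ≫ j.g from hcomm, Scheme.Hom.comp_apply]
  have hr : ∀ w, a.g w ∈ Set.range j.g → w ∈ Set.range h.g := by
    rintro w ⟨u, hu⟩
    have h1 : a.g w ∈ closure (Set.range f) := by
      have h2 : Set.range f.imageι = (f.ker.support : Set X.X) :=
        Scheme.IdealSheafData.range_subschemeι _
      have h3 : a.g w ∈ Set.range f.imageι := ⟨w, rfl⟩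
      rw [h2, Scheme.Hom.support_ker] at h3
      exact h3
    have h4 : u ∈ j.g ⁻¹' closure (Set.range f) := by
      change j.g u ∈ closure (Set.range f)
      rw [hu]
      exact h1
    rw [j.g.isOpenEmbedding.isOpenMap.preimage_closure_eq_closure_preimage j.g.continuous] at h4
    have h5 : j.g ⁻¹' Set.range f = Set.range b.g := by
      ext v
      constructor
      · rintro ⟨w', hw'⟩
        refine ⟨w', openIn_injective j ?_⟩
        rw [← hw', Scheme.Hom.comp_apply]
      · rintro ⟨w', rfl⟩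
        exact ⟨w', by rw [Scheme.Hom.comp_apply]⟩
    rw [h5, b.g.isClosedEmbedding.isClosed_range.closure_eq] at h4
    obtain ⟨w', rfl⟩ := h4
    refine ⟨w', ?_⟩
    apply closedIn_injective a
    rw [hpt, hu]
  refine ⟨W, a, h, hcomm, hr, fun w => ?_, fun hD => isReduced_image f⟩
  have hd : Dense ((h.g.opensRange : W.X.Opens) : Set W.X) := (IsDominant.denseRange (f := f.toImage))
  obtain ⟨x, ⟨d, rfl⟩, hx⟩ := exists_specializes W h.g.opensRange hd w
  exact ⟨d, hx⟩

/-- The intersection of two closed subvarieties. -/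
lemma exists_inter {W Z X : Var k} (a : ClosedIn W X) (c : ClosedIn Z X) :
    ∃ (Y : Var k) (p : ClosedIn Y W) (q : ClosedIn Y Z), p.g ≫ a.g = q.g ≫ c.g ∧
      ∀ w, w ∈ Set.range p.g ↔ a.g w ∈ Set.range c.g := by
  have ha := a.closed
  have hc := c.closed
  let Y : Var k :=
    { X := pullback a.g c.g
      f := pullback.snd a.g c.g ≫ Z.f
      sep := inferInstance
      lft := inferInstance
      qc := inferInstance }
  have hcomm : pullback.fst a.g c.g ≫ a.g = pullback.snd a.g c.g ≫ c.g := pullback.condition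
  have h1 : IsClosedImmersion (pullback.fst a.g c.g) := inferInstance
  have h2 : IsClosedImmersion (pullback.snd a.g c.g) := inferInstance
  refine ⟨Y, ⟨pullback.fst a.g c.g, ?_, h1⟩, ⟨pullback.snd a.g c.g, rfl, h2⟩, hcomm, ?_⟩
  · change pullback.fst a.g c.g ≫ W.f = pullback.snd a.g c.g ≫ Z.f
    rw [← a.comm, ← c.comm, ← Category.assoc, ← Category.assoc, hcomm]
  · intro w
    have h4 := Scheme.Pullback.range_fst a.g c.g
    change w ∈ Set.range (pullback.fst a.g c.g) ↔ _
    rw [h4]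
    rfl

/-- The boundary of the closure of a closed subvariety of an open subvariety. -/
lemma exists_boundary {Z U X D : Var k} (a : ClosedIn Z X) (j : OpenIn U X)
    (hc : Complementary a j) (b : ClosedIn D U) (e : ℕ) (hD : D.DimLE (e + 1 : ℕ)) :
    ∃ (W : Var k) (w : ClosedIn W X) (h : OpenIn D W) (B : Var k) (p : ClosedIn B W)
      (q : ClosedIn B Z), Complementary p h ∧ p.g ≫ w.g = q.g ≫ a.g ∧ h.g ≫ w.g = b.g ≫ j.g ∧
      W.DimLE (e + 1 : ℕ) ∧ B.DimLE e ∧ (IsReduced D.X → IsReduced W.X) := by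
  obtain ⟨W, w, h, h1, h2, h3, h0⟩ := exists_closure j b
  obtain ⟨B, p, q, h4, h5⟩ := exists_inter w a
  have hh := h.isOpen
  have hp := p.closed
  have hcomp : Complementary p h := by
    ext x
    rw [h5, show Set.range a.g = (Set.range j.g)ᶜ from hc, Set.mem_compl_iff, Set.mem_compl_iff,
      not_iff_not]
    constructor
    · exact h2 x
    · rintro ⟨d, rfl⟩
      refine ⟨b.g d, ?_⟩
      rw [← Scheme.Hom.comp_apply, ← Scheme.Hom.comp_apply, h1]
  have hW : W.DimLE (e + 1 : ℕ) := by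
    intro x
    obtain ⟨d, hd⟩ := h3 x
    refine (dim_le_of_specializes W hd).trans ?_
    rw [dim_map h.g h.comm]
    exact hD d
  refine ⟨W, w, h, B, p, q, hcomp, h4, h1, hW, ?_, h0⟩
  intro x
  rw [← dim_map p.g p.comm]
  obtain ⟨d, hd⟩ := h3 (p.g x)
  have hne : h.g d ≠ p.g x := by
    intro he
    have h6 : p.g x ∈ Set.range p.g := ⟨x, rfl⟩
    rw [show Set.range p.g = (Set.range h.g)ᶜ from hcomp] at h6
    exact h6 ⟨d, he⟩
  have h7 := (t_DST.1 k W (h.g d) (p.g x) hd hne).trans_le ((dim_map h.g h.comm d).trans_le (hD d))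
  obtain ⟨n, hn⟩ := t_DST.2.1 k W (p.g x)
  rw [hn] at h7 ⊢
  have h8 : n < e + 1 := by exact_mod_cast h7
  exact_mod_cast Nat.lt_succ_iff.mp h8

/-- Push-forward of a divisor. -/
lemma isDiv_push {i : ℕ} {W Z X : Var k} [IsIntegral W.X] (b : ClosedIn W Z) (a : ClosedIn Z X)
    (φ : W.X.functionField) (c : Pts i Z →₀ E) (hc : IsDiv b φ c) :
    IsDiv (b.trans a) φ (pushCyc a c) := by
  constructor
  · intro w h
    have hw : Z.dim (b.g w) = i := by
      have := a.closed
      rw [← dim_map a.g a.comm]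
      exact h
    have h5 : Finsupp.mapDomain (ptsMap i a) c (ptsMap i a (Subtype.mk (b.g w) hw : Pts i Z)) =
        c (Subtype.mk (b.g w) hw : Pts i Z) :=
      Finsupp.mapDomain_apply (ptsMap_injective i a) _ _
    exact h5.trans (hc.1 w hw)
  · intro x hx
    by_cases hx2 : x ∈ Set.range (ptsMap i a)
    · obtain ⟨z, rfl⟩ := hx2
      rw [pushCyc, Finsupp.mapDomain_apply (ptsMap_injective i a)]
      apply hc.2
      rintro ⟨w, hw⟩
      exact hx ⟨w, congrArg a.g hw⟩
    · exact Finsupp.mapDomain_of_notMem_range _ _ hx2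

lemma pushCyc_comp {i : ℕ} {W Z X : Var k} (b : ClosedIn W Z) (a : ClosedIn Z X)
    (c : ClosedIn W X) (h : b.g ≫ a.g = c.g) (z : Pts i W →₀ E) :
    pushCyc a (pushCyc b z) = pushCyc c z := by
  rw [pushCyc, pushCyc, pushCyc, ← Finsupp.mapDomain_comp]
  congr 1
  funext x
  refine Subtype.ext ?_
  change a.g (b.g x.1) = c.g x.1
  rw [← h, Scheme.Hom.comp_apply]

/-- A cycle which is rationally equivalent to zero is so on a closed subset of dimension at most
`i + 1`. -/
lemma ratZero_supp {i : ℕ} (X : Var k) (c : Pts i X →₀ E) (hc : c ∈ ratZero E i X) :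
    ∃ C : Closeds X.X, (∀ x ∈ C, X.dim x ≤ (i + 1 : ℕ)) ∧
      ∃ c' ∈ ratZero E i (closedVar X C), pushCyc (closedVarIn X C) c' = c := by
  induction hc using Submodule.span_induction with
  | mem c hc =>
    obtain ⟨W, hW, a, φ, h1, h2, h3⟩ := hc
    have ha : ∀ w, a.g w ∈ ran a := fun w => ⟨w, rfl⟩
    obtain ⟨c', hc'⟩ := exists_div (E := E) (i := i) (factorC a (ran a) ha) φ h2
    refine ⟨ran a, ?_, c', Submodule.subset_span ⟨W, hW, _, φ, h1, h2, hc'⟩, ?_⟩
    · rintro x ⟨w, rfl⟩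
      have := a.closed
      rw [dim_map a.g a.comm, ← h1]
      exact dim_le_of_specializes W (genericPoint_specializes w)
    · have h4 := isDiv_push _ (closedVarIn X (ran a)) φ c' hc'
      have h5 : (factorC a (ran a) ha).trans (closedVarIn X (ran a)) = a :=
        closedIn_ext (factorC_comp a (ran a) ha)
      rw [h5] at h4
      exact isDiv_unique a φ _ _ h4 h3
  | zero => exact ⟨⊥, fun x hx => hx.elim, 0, zero_mem _, by simp [pushCyc]⟩
  | add x y _ _ hx hy =>
    obtain ⟨C, hC, c, hc, rfl⟩ := hx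
    obtain ⟨C', hC', c', hc', rfl⟩ := hy
    refine ⟨C ⊔ C', ?_, pushCyc (closedVarMap X (le_sup_left : C ≤ C ⊔ C')) c +
      pushCyc (closedVarMap X (le_sup_right : C' ≤ C ⊔ C')) c', add_mem (pushCyc_ratZero _ _ hc)
      (pushCyc_ratZero _ _ hc'), ?_⟩
    · rintro x (hx | hx)
      · exact hC x hx
      · exact hC' x hx
    · rw [← pushCyc_comp _ _ _ (closedVarMap_comp X (le_sup_left : C ≤ C ⊔ C')),
        ← pushCyc_comp _ _ _ (closedVarMap_comp X (le_sup_right : C' ≤ C ⊔ C'))]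
      exact Finsupp.mapDomain_add
  | smul r x _ hx =>
    obtain ⟨C, hC, c, hc, rfl⟩ := hx
    exact ⟨C, hC, r • c, Submodule.smul_mem _ _ hc, Finsupp.mapDomain_smul _ _⟩

end QCV


end

section

/-!
# CUB2: module REDI
-/

set_option autoImplicit false

open CategoryTheory AlgebraicGeometry Limits Polynomial TopologicalSpace

namespace CUB

open Pool.Agent.Lib_helper55.Beil Pool.Agent.Lib_helper66.OneP

namespace REDI

variable {k : Type} [Field k]

lemma isReduced_closedVar (X : Var k) (C : Closeds X.X) : IsReduced (closedVar X C).X := by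
  change IsReduced (Scheme.IdealSheafData.vanishingIdeal C).subscheme
  set I := Scheme.IdealSheafData.vanishingIdeal C with hI
  have h : ∀ U, IsReduced (I.subschemeCover.openCover.X U) := by
    intro U
    change IsReduced (Spec (.of (Γ(X.X, U.1) ⧸ I.ideal U)))
    have : _root_.IsReduced (Γ(X.X, U.1) ⧸ I.ideal U) := by
      rw [← Ideal.isRadical_iff_quotient_reduced]
      rw [hI, Scheme.IdealSheafData.vanishingIdeal_ideal]
      exact PrimeSpectrum.isRadical_vanishingIdeal _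
    have : _root_.IsReduced (CommRingCat.of (Γ(X.X, U.1) ⧸ I.ideal U)) := this
    infer_instance
  exact IsReduced.of_openCover _ I.subschemeCover.openCover

lemma isIntegral_closedVar (X : Var k) (C : Closeds X.X) (hC : IsIrreducible (C : Set X.X)) :
    IsIntegral (closedVar X C).X := by
  have h1 := isReduced_closedVar X C
  have h2 := (closedVarIn X C).closed
  have h3 : IrreducibleSpace (closedVar X C).X := by
    have e : Topology.IsEmbedding (closedVarIn X C).g := (closedVarIn X C).g.isEmbedding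
    have hr : ∀ y ∈ (C : Set X.X), ∃ z : (closedVar X C).X, (closedVarIn X C).g z = y := by
      intro y hy
      rw [← range_closedVarIn] at hy
      exact hy
    have hm : ∀ z : (closedVar X C).X, (closedVarIn X C).g z ∈ (C : Set X.X) := by
      intro z
      rw [← range_closedVarIn]
      exact ⟨z, rfl⟩
    obtain ⟨y₀, hy₀⟩ := hC.1
    obtain ⟨z₀, -⟩ := hr y₀ hy₀
    have : Nonempty (closedVar X C).X := ⟨z₀⟩
    refine { toNonempty := this, isPreirreducible_univ := ?_ }
    rintro u v hu hv ⟨a, -, hau⟩ ⟨b, -, hbv⟩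
    obtain ⟨u', hu', rfl⟩ := e.isInducing.isOpen_iff.mp hu
    obtain ⟨v', hv', rfl⟩ := e.isInducing.isOpen_iff.mp hv
    obtain ⟨y, hyC, hyu, hyv⟩ := hC.2 u' v' hu' hv' ⟨_, hm a, hau⟩ ⟨_, hm b, hbv⟩
    obtain ⟨z, rfl⟩ := hr y hyC
    exact ⟨z, trivial, hyu, hyv⟩
  exact isIntegral_of_irreducibleSpace_of_isReduced _

lemma injC_of_top {E : Type} [Field E] {i : ℕ} (T : Homology k E i) (X : Var k)
    (h : T.InjC (closedVar X ⊤)) : T.InjC X := by
  intro c hc
  refine T.injC_glue (closedVarIn X ⊤) (openVarIn X ⊥) ?_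
    (T.empty _ _ (isEmpty_openVar_bot X)) h c (fun p _ => ?_) hc
  · rw [Complementary, range_closedVarIn, range_openVarIn]
    simp
  · rw [range_closedVarIn]
    exact Set.mem_univ _

lemma restrict_surjective {V W : Var k} (f : ClosedIn W V) (O : V.X.Opens)
    (hs : ∀ y : V.X, y ∈ O → y ∈ Set.range f.g) : Surjective (f.g ∣_ O) := by
  refine ⟨fun y => ?_⟩
  have h1 : O.ι y ∈ O := by
    have h2 : O.ι y ∈ Set.range O.ι := ⟨y, rfl⟩
    rwa [Scheme.Opens.range_ι] at h2
  obtain ⟨w, h8⟩ := hs _ h1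
  have h9 : w ∈ (f.g ⁻¹ᵁ O) := by
    change f.g w ∈ O
    rw [h8]
    exact h1
  have h10 : w ∈ Set.range (f.g ⁻¹ᵁ O).ι := by
    rw [Scheme.Opens.range_ι]
    exact h9
  obtain ⟨x, hx⟩ := h10
  refine ⟨x, ?_⟩
  apply O.ι.isOpenEmbedding.injective
  have h11 : O.ι ((f.g ∣_ O) x) = f.g ((f.g ⁻¹ᵁ O).ι x) := by
    rw [← Scheme.Hom.comp_apply, morphismRestrict_ι, Scheme.Hom.comp_apply]
  rw [h11, hx, h8]

lemma restrict_isIso {V W : Var k} (hV : IsReduced V.X) (f : ClosedIn W V) (O : V.X.Opens)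
    (hs : ∀ y : V.X, y ∈ O → y ∈ Set.range f.g) : IsIso (f.g ∣_ O) := by
  have h1 := restrict_surjective f O hs
  have h2 : IsReduced O.toScheme := isReduced_of_isOpenImmersion O.ι
  have h3 : IsClosedImmersion (f.g ∣_ O) := inferInstance
  exact isIso_of_isClosedImmersion_of_surjective (f.g ∣_ O)

/-- A closed immersion which is surjective outside a closed subvariety. -/
noncomputable def modifAux {V W Z : Var k} (hV : IsReduced V.X) (f : ClosedIn W V)
    (a : ClosedIn Z V) (O : V.X.Opens) (hO : Set.range a.g = (O : Set V.X)ᶜ)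
    (hs : ∀ y : V.X, y ∈ O → y ∈ Set.range f.g)
    (fZ : PrMor (closedVar W (f.g ⁻¹ᵁ O).compl) Z)
    (hZ : (closedVarIn W (f.g ⁻¹ᵁ O).compl).g ≫ f.g = fZ.g ≫ a.g) : Modif W V where
  f := clPr f
  Z := Z
  U := openVar V O
  Z' := closedVar W (f.g ⁻¹ᵁ O).compl
  U' := openVar W (f.g ⁻¹ᵁ O)
  a := a
  j := openVarIn V O
  h := by
    rw [Complementary, range_openVarIn]
    exact hO
  a' := closedVarIn W (f.g ⁻¹ᵁ O).compl
  j' := openVarIn W (f.g ⁻¹ᵁ O)
  h' := complementary_open _ _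
  fZ := fZ
  fU :=
    { e := @asIso _ _ _ _ (f.g ∣_ O) (restrict_isIso hV f O hs)
      comm := by
        change (f.g ∣_ O) ≫ O.ι ≫ V.f = (f.g ⁻¹ᵁ O).ι ≫ W.f
        rw [← f.comm, morphismRestrict_ι_assoc] }
  hZ := hZ
  hU := (isPullback_morphismRestrict f.g O).flip

/-- Closed subsets `C₁`, `C₂` with union `C` define a modification. -/
lemma exists_modif (X : Var k) (C C₁ C₂ : Closeds X.X) (h₁ : C₁ ≤ C) (h₂ : C₂ ≤ C)
    (h : C ≤ C₁ ⊔ C₂) : ∃ M : Modif (closedVar X C₁) (closedVar X C),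
      M.f = clPr (closedVarMap X h₁) ∧ M.Z = closedVar X C₂ := by
  have hfac : (closedVarMap X h₁).g ≫ (closedVarIn X C).g = (closedVarIn X C₁).g := closedVarMap_comp X h₁
  have haac : (closedVarMap X h₂).g ≫ (closedVarIn X C).g = (closedVarIn X C₂).g := closedVarMap_comp X h₂
  obtain ⟨O, hO⟩ : ∃ O : (closedVar X C).X.Opens, Set.range (closedVarMap X h₂).g = (O : Set (closedVar X C).X)ᶜ :=
    ⟨⟨(Set.range (closedVarMap X h₂).g)ᶜ,
      ((closedVarMap X h₂).g.isClosedEmbedding.isClosed_range).isOpen_compl⟩, (compl_compl _).symm⟩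
  have hs : ∀ y : (closedVar X C).X, y ∈ O → y ∈ Set.range (closedVarMap X h₁).g := by
    intro y hy
    have h3 : (closedVarIn X C).g y ∈ (C : Set X.X) := by
      rw [← range_closedVarIn]
      exact ⟨_, rfl⟩
    have h4 : (closedVarIn X C).g y ∈ (C₁ : Set X.X) := by
      rcases h h3 with h5 | h5
      · exact h5
      · exfalso
        have h6 : (closedVarIn X C).g y ∈ (C₂ : Set X.X) := h5
        rw [← range_closedVarIn] at h6
        obtain ⟨w, hw⟩ := h6
        rw [← haac] at hw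
        have h7 : (closedVarIn X C).g ((closedVarMap X h₂).g w) = (closedVarIn X C).g y := hw
        have h8 := closedIn_injective (closedVarIn X C) h7
        have h9 : y ∈ (O : Set (closedVar X C).X)ᶜ := by
          rw [← hO]
          exact ⟨w, h8⟩
        exact h9 hy
    rw [← range_closedVarIn] at h4
    obtain ⟨w, hw⟩ := h4
    rw [← hfac] at hw
    have h7 : (closedVarIn X C).g ((closedVarMap X h₁).g w) = (closedVarIn X C).g y := hw
    exact ⟨w, closedIn_injective (closedVarIn X C) h7⟩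
  have hZred := isReduced_closedVar (closedVar X C₁) ((closedVarMap X h₁).g ⁻¹ᵁ O).compl
  have hmem : ∀ w, ((closedVarIn (closedVar X C₁) ((closedVarMap X h₁).g ⁻¹ᵁ O).compl).trans
      (closedVarIn X C₁)).g w ∈ C₂ := by
    intro w
    have h1 : (closedVarIn (closedVar X C₁) ((closedVarMap X h₁).g ⁻¹ᵁ O).compl).g w ∈
        (((closedVarMap X h₁).g ⁻¹ᵁ O).compl : Set (closedVar X C₁).X) := by
      rw [← range_closedVarIn]
      exact ⟨w, rfl⟩
    obtain ⟨y, hy⟩ : (closedVarMap X h₁).g ((closedVarIn (closedVar X C₁) ((closedVarMap X h₁).g ⁻¹ᵁ O).compl).g w) ∈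
        Set.range (closedVarMap X h₂).g := by
      rw [hO]
      exact h1
    have h3 : ((closedVarIn (closedVar X C₁) ((closedVarMap X h₁).g ⁻¹ᵁ O).compl).trans (closedVarIn X C₁)).g w =
        (closedVarIn X C₂).g y := by
      change (closedVarIn X C₁).g ((closedVarIn (closedVar X C₁) ((closedVarMap X h₁).g ⁻¹ᵁ O).compl).g w) = _
      rw [← hfac, ← haac]
      change (closedVarIn X C).g ((closedVarMap X h₁).g
        ((closedVarIn (closedVar X C₁) ((closedVarMap X h₁).g ⁻¹ᵁ O).compl).g w)) =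
        (closedVarIn X C).g ((closedVarMap X h₂).g y)
      rw [hy]
    rw [h3]
    have h4 : (closedVarIn X C₂).g y ∈ (C₂ : Set X.X) := by
      rw [← range_closedVarIn]
      exact ⟨y, rfl⟩
    exact h4
  have hmono : Mono (closedVarIn X C).g := inferInstance
  refine ⟨modifAux (isReduced_closedVar X C) (closedVarMap X h₁) (closedVarMap X h₂) O hO hs
    (clPr (factorC ((closedVarIn (closedVar X C₁) ((closedVarMap X h₁).g ⁻¹ᵁ O).compl).trans
      (closedVarIn X C₁)) C₂ hmem)) ?_, rfl, rfl⟩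
  rw [← cancel_mono (closedVarIn X C).g, Category.assoc, Category.assoc, hfac, haac]
  exact (factorC_comp _ C₂ hmem).symm

end REDI

open _root_.CUB.REDI

universe v

theorem t_REDI : M_REDI.{v} := by
  intro hP hM k E _ _ T hT i X hZ hV
  apply injC_of_top
  generalize (⊤ : Closeds X.X) = C
  induction C using WellFoundedLT.induction with
  | ind C ih =>
  by_cases hirr : IsPreirreducible (C : Set X.X)
  · by_cases hne : (C : Set X.X).Nonempty
    · exact hV _ (isIntegral_closedVar X C ⟨hne, hirr⟩) (closedVarIn X C)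
    · intro c _
      have h1 : IsEmpty (Pts i (closedVar X C)) := by
        refine ⟨fun p => hne ⟨(closedVarIn X C).g p.1, ?_⟩⟩
        rw [← range_closedVarIn]
        exact ⟨_, rfl⟩
      have h2 : c = 0 := Finsupp.ext fun p => (h1.false p).elim
      rw [h2]
      exact Submodule.zero_mem _
  · rw [isPreirreducible_iff_isClosed_union_isClosed] at hirr
    push Not at hirr
    obtain ⟨z₁, z₂, hz₁, hz₂, hsub, hn₁, hn₂⟩ := hirr
    let C₁ : Closeds X.X := C ⊓ ⟨z₁, hz₁⟩
    let C₂ : Closeds X.X := C ⊓ ⟨z₂, hz₂⟩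
    have h₁ : C₁ ≤ C := inf_le_left
    have h₂ : C₂ ≤ C := inf_le_left
    have hlt₁ : C₁ < C := lt_of_le_of_ne h₁ fun h => hn₁ (by
      intro x hx
      have h3 : x ∈ C₁ := by
        rw [h]
        exact hx
      exact h3.2)
    have hlt₂ : C₂ < C := lt_of_le_of_ne h₂ fun h => hn₂ (by
      intro x hx
      have h3 : x ∈ C₂ := by
        rw [h]
        exact hx
      exact h3.2)
    have hun : C ≤ C₁ ⊔ C₂ := by
      intro x hx
      rcases hsub hx with h3 | h3
      · exact Or.inl ⟨hx, h3⟩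
      · exact Or.inr ⟨hx, h3⟩
    obtain ⟨M, hMf, hMZ⟩ := exists_modif X C C₁ C₂ h₁ h₂ hun
    refine hM k E T hT i _ _ M hZ (ih C₁ hlt₁) ?_ ?_
    · rw [hMZ]
      exact ih C₂ hlt₂
    · intro c hc
      rw [hMf, hP.2.2.1 k E i _ _ (closedVarMap X h₁) (clPr (closedVarMap X h₁)) rfl c]
      exact ratZero_map _ c hc

end CUB


end

section

/-!
# QCV, block F: the class of varieties is closed under glueing and open complements
-/

set_option autoImplicit false

open CategoryTheory AlgebraicGeometry Limits Polynomial TopologicalSpace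

namespace QCV

open Pool.Agent.Lib_helper55.Beil Pool.Agent.Lib_helper66.OneP CUB

universe v

variable {k : Type} [Field k] {E : Type} [Field E]

/-! ## Varieties of dimension at most `i` -/

lemma good_aux_dim [PerfectField k] {i : ℕ} (T : Homology.{v} k E i) (X₀ : Var k)
    (C : Closeds X₀.X) :
    ∀ (Y : Var k) (g : Y.X ⟶ X₀.X), g ≫ X₀.f = Y.f → IsPreimmersion g → (∀ y, g y ∈ C) →
      Y.DimLE i → T.gen Y ≤ T.alg Y := by
  induction C using WellFoundedLT.induction with
  | ind C ih =>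
  intro Y g comm hg hC hdim
  apply T.good_of_red
  have hred := isReduced_redVar Y
  have hcl := (redVarIn Y).closed
  have hdim' := dimLE_red hdim
  set Y' := redVar Y
  set g' : Y'.X ⟶ X₀.X := (redVarIn Y).g ≫ g
  have comm' : g' ≫ X₀.f = Y'.f := by
    rw [Category.assoc, comm, (redVarIn Y).comm]
  have hC' : ∀ y, g' y ∈ C := fun y => hC _
  rcases isEmpty_or_nonempty Y'.X with he | ⟨⟨x⟩⟩
  · exact T.good_of_subsingleton _ (T.empty _ _ he)
  obtain ⟨η, -, hη⟩ := exists_maximal Y' x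
  obtain ⟨U, hU1, -, hU3, hU4, hU5, hU6⟩ := exists_nice Y' η hη ⊤ trivial
  have hop := (openVarIn Y' U).isOpen
  refine T.glue (closedVarIn Y' U.compl) (openVarIn Y' U) (complementary_open Y' U) ?_ ?_
  · have hcl := (closedVarIn Y' U.compl).closed
    refine ih (Closeds.closure (g' '' (U.compl : Set Y'.X)))
      (lt_of_closed g' C hC' U.compl η (fun hcon => hcon hU1))
      (closedVar Y' U.compl) ((closedVarIn Y' U.compl).g ≫ g') ?_ inferInstance ?_
      (dimLE_closed (closedVarIn Y' U.compl) hdim')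
    · rw [Category.assoc, comm', (closedVarIn Y' U.compl).comm]
    · intro y
      have h1 : (closedVarIn Y' U.compl).g y ∈ (U.compl : Set Y'.X) := by
        rw [← range_closedVarIn]
        exact ⟨y, rfl⟩
      exact subset_closure ⟨_, h1, rfl⟩
  · have h1 : (openVar Y' U).dim (genericPoint (openVar Y' U).X) ≤ i := by
      rw [← dim_map (openVarIn Y' U).g (openVarIn Y' U).comm]
      exact hdim' _
    rcases lt_or_eq_of_le h1 with h | h
    · obtain ⟨d, hd⟩ := Cardinal.lt_aleph0.1 (h.trans (Cardinal.natCast_lt_aleph0))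
      rw [hd, Nat.cast_lt] at h
      exact T.good_of_subsingleton _ (T.vanish (2 * i) _ hU5 d hd (by omega))
    · refine (T.fundamental _ hU5 h).trans (Submodule.span_mono ?_)
      rintro _ rfl
      exact ⟨_, rfl⟩

/-- For a variety of dimension at most `i` the generalised eigenspace is spanned by cycle classes. -/
theorem good_of_dimLE [PerfectField k] {i : ℕ} (T : Homology.{v} k E i) (X : Var k)
    (hX : X.DimLE i) : T.gen X ≤ T.alg X :=
  good_aux_dim T X ⊤ X (𝟙 _) (Category.id_comp _) inferInstance (fun _ => trivial) hX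

/-! ## The boundary of a class with small support -/

variable {T : ∀ i : ℕ, Homology.{v} k E i}

/-- The boundary map as a linear map. -/
def bdl (hT : Full T) (i n : ℕ) {Z U X : Var k} (a : ClosedIn Z X) (j : OpenIn U X)
    (h : Complementary a j) : (T i).H (n + 1) U →ₗ[E] (T i).H n Z := hT.bd i n a j h

lemma bdl_frob (hT : Full T) (hP : Pub T hT) (i n : ℕ) {Z U X : Var k} (a : ClosedIn Z X) (j : OpenIn U X)
    (h : Complementary a j) (u : (T i).H (n + 1) U) :
    bdl hT i n a j h ((T i).frob (n + 1) U u) = (T i).frob n Z (bdl hT i n a j h u) :=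
  hP.bdFrob i n a j h u

lemma bdl_push (hT : Full T) (i n : ℕ) {Z' U' X' Z U X : Var k} (a' : ClosedIn Z' X')
    (j' : OpenIn U' X') (h' : Complementary a' j') (a : ClosedIn Z X) (j : OpenIn U X)
    (h : Complementary a j) (fZ : ClosedIn Z' Z) (fU : ClosedIn U' U) (fX : ClosedIn X' X)
    (h1 : a'.g ≫ fX.g = fZ.g ≫ a.g) (h2 : j'.g ≫ fX.g = fU.g ≫ j.g)
    (u : (T i).H (n + 1) U') :
    (T i).P n fZ (bdl hT i n a' j' h' u) = bdl hT i n a j h ((T i).P (n + 1) fU u) := by
  have h3 := hT.pfBoundary i n a' j' h' a j h (clPr fZ) (clPr fU) (clPr fX) h1 h2 u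
  rw [hT.pfClosed i n fZ (clPr fZ) rfl, hT.pfClosed i (n + 1) fU (clPr fU) rfl] at h3
  exact h3

/-- The data of `bd_supp`. -/
structure BdData (hT : Full T) (i : ℕ) {Z U X : Var k} (a : ClosedIn Z X) (j : OpenIn U X)
    (h : Complementary a j) (u : (T i).H (2 * i + 1) U) where
  D : Var k
  b : ClosedIn D U
  red : IsReduced D.X
  β : (T i).H (2 * i + 1) D
  hβ : β ∈ gen1 (T i) D
  hu : (T i).P (2 * i + 1) b β = u
  W : Var k
  w : ClosedIn W X
  o : OpenIn D W
  B : Var k
  p : ClosedIn B W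
  q : ClosedIn B Z
  hc : Complementary p o
  h1 : p.g ≫ w.g = q.g ≫ a.g
  h2 : o.g ≫ w.g = b.g ≫ j.g
  hW : W.DimLE (i + 1 : ℕ)
  redW : IsReduced W.X
  v : Pts i B →₀ E
  hv : bdl hT i (2 * i) p o hc β = cls (T i) B v
  hv0 : pushCyc p v ∈ ratZero E i W
  hbd : bdl hT i (2 * i) a j h u = cls (T i) Z (pushCyc q v)

lemma push_cls' {i : ℕ} (T : Homology.{v} k E i) {Z X : Var k} (a : ClosedIn Z X)
    (c : Pts i Z →₀ E) : T.P (2 * i) a (cls T Z c) = cls T X (pushCyc a c) := push_cls T a c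

theorem bd_supp [PerfectField k] (hT : Full T) (hP : Pub T hT) (i : ℕ) {Z U X : Var k} (a : ClosedIn Z X)
    (j : OpenIn U X) (h : Complementary a j) (u : (T i).H (2 * i + 1) U) (hu : u ∈ gen1 (T i) U)
    (hs : Supp (T i) (2 * i + 1) (i + 1) U u) : Nonempty (BdData hT i a j h u) := by
  obtain ⟨D₀, b₀, β₀, hD₀, hβ₀, rfl⟩ := supp_gen i (2 * i + 1) (i + 1) U u hs hu
  -- replace `D₀` by the reduced subvariety
  obtain ⟨β₁, hβ₁⟩ := push_red_surjective (T i) (2 * i + 1) D₀ β₀
  obtain ⟨β, hβ, hβ2⟩ := maxGen_lift ((T i).frob (2 * i + 1) (redVar D₀))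
    ((T i).frob (2 * i + 1) D₀) ((T i).push (2 * i + 1) (redVarIn D₀))
    ((T i).push_frob (2 * i + 1) (redVarIn D₀)) (m := β₁) (by
      rw [show (T i).push (2 * i + 1) (redVarIn D₀) β₁ = β₀ from hβ₁]
      exact hβ₀)
  have hβ3 : (T i).P (2 * i + 1) (redVarIn D₀) β = β₀ := hβ2.trans hβ₁
  have hred := isReduced_redVar D₀
  have hdim : (redVar D₀).DimLE (i + 1 : ℕ) := dimLE_red hD₀
  obtain ⟨W, w, o, B, p, q, hc, h1, h2, hW, hB, hr⟩ := exists_boundary a j h
    ((redVarIn D₀).trans b₀) i hdim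
  have h3 : bdl hT i (2 * i) p o hc β ∈ (T i).gen B :=
    maxGen_map ((T i).frob (2 * i + 1) (redVar D₀)) ((T i).frob (2 * i) B)
      (bdl hT i (2 * i) p o hc) (bdl_frob hT hP i (2 * i) p o hc) hβ
  obtain ⟨v, hv⟩ := exists_cls (T i) B _ (good_of_dimLE (T i) B hB h3)
  have h4 : cls (T i) W (pushCyc p v) = 0 := by
    rw [← push_cls', hv]
    exact (hT.bdExact i (2 * i) p o hc _).mpr ⟨β, rfl⟩
  have h5 : pushCyc p v ∈ ratZero E i W :=
    ((T i).inj_iff W).mp (hP.divisors i W hW) _ h4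
  refine ⟨⟨redVar D₀, (redVarIn D₀).trans b₀, hred, β, hβ, ?_, W, w, o, B, p, q, hc, h1, h2, hW,
    hr hred, v, hv.symm, h5, ?_⟩⟩
  · rw [← hT.push_comp i (2 * i + 1) _ _ _ (redVarIn D₀) b₀ _ rfl, hβ3]
  · have h6 := bdl_push hT i (2 * i) p o hc a j h q ((redVarIn D₀).trans b₀) w h1 h2 β
    rw [← hT.push_comp i (2 * i + 1) _ _ _ (redVarIn D₀) b₀ _ rfl, hβ3, ← hv, push_cls'] at h6
    exact h6.symm

/-! ## Injectivity -/

theorem injC_glue3 [PerfectField k] (hT : Full T) (hP : Pub T hT) (i : ℕ) {Z U X : Var k} (a : ClosedIn Z X)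
    (j : OpenIn U X) (h : Complementary a j) (hU : (T i).InjC U)
    (hUs : ∀ m ∈ gen1 (T i) U, Supp (T i) (2 * i + 1) (i + 1) U m) (hZ : (T i).InjC Z) :
    (T i).InjC X := by
  rw [injC_iff] at hU hZ ⊢
  intro c hc
  have h1 : cls (T i) U (resCyc j c) = 0 := by rw [← res_cls, hc, map_zero]
  obtain ⟨c₁, hc₁, h2⟩ := exists_ratZero j _ (hU _ h1)
  obtain ⟨z, hz⟩ := exists_pushCyc a j h (c - c₁) (by rw [map_sub, h2, sub_self])
  have h3 : cls (T i) X c₁ = 0 := (T i).cl_rat X c₁ hc₁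
  have h4 : (T i).P (2 * i) a (cls (T i) Z z) = 0 := by
    rw [push_cls', hz, cls_sub, hc, h3, sub_self]
  obtain ⟨u, hu⟩ := (hT.bdExact i (2 * i) a j h _).mp h4
  have hu' : bdl hT i (2 * i) a j h u ∈ Module.End.maxGenEigenspace ((T i).frob (2 * i) Z) 1 := by
    have h8 : bdl hT i (2 * i) a j h u = cls (T i) Z z := hu
    rw [h8]
    exact cls_mem_gen (T i) Z z
  obtain ⟨u', hu1, hu2⟩ := maxGen_lift ((T i).frob (2 * i + 1) U) ((T i).frob (2 * i) Z)
    (bdl hT i (2 * i) a j h) (bdl_frob hT hP i (2 * i) a j h) hu'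
  obtain ⟨d⟩ := bd_supp hT hP i a j h u' hu1 (hUs u' hu1)
  have h5 : cls (T i) Z (z - pushCyc d.q d.v) = 0 := by
    rw [cls_sub, ← d.hbd, hu2]
    exact sub_eq_zero.mpr hu.symm
  have h6 := pushCyc_ratZero a _ (hZ _ h5)
  have h7 : pushCyc a (z - pushCyc d.q d.v) = pushCyc a z - pushCyc a (pushCyc d.q d.v) :=
    (Finsupp.lmapDomain E E (ptsMap i a)).map_sub z _
  have h8 : pushCyc a (pushCyc d.q d.v) ∈ ratZero E i X := by
    have h9 := pushCyc_comp d.q a (d.q.trans a) rfl d.v
    have h10 := pushCyc_comp d.p d.w (d.q.trans a) d.h1 d.v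
    rw [h9, ← h10]
    exact pushCyc_ratZero d.w _ d.hv0
  rw [h7] at h6
  have h13 : pushCyc a z ∈ ratZero E i X := by
    have := add_mem h6 h8
    rwa [sub_add_cancel] at this
  rw [hz] at h13
  have := add_mem h13 hc₁
  rwa [sub_add_cancel] at this

/-! ## Supports -/

/-- Restriction after push-forward, for a cartesian square of closed and open immersions. -/
lemma res_push (hT : Full T) (i n : ℕ) {U' X' U X : Var k} (f : ClosedIn X' X)
    (f' : ClosedIn U' U) (j' : OpenIn U' X') (j : OpenIn U X)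
    (h : IsPullback j'.g f'.g f.g j.g) (m : (T i).H n X') :
    (T i).R n j ((T i).P n f m) = (T i).P n f' ((T i).R n j' m) := by
  have h1 := hT.pfRestriction i n (clPr f) (clPr f') j' j h m
  rw [hT.pfClosed i n f (clPr f) rfl, hT.pfClosed i n f' (clPr f') rfl] at h1
  exact h1

/-- The intersection of a closed and an open subvariety. -/
lemma exists_cart {W X U : Var k} (w : ClosedIn W X) (j : OpenIn U X) :
    ∃ (D : Var k) (o : OpenIn D W) (b : ClosedIn D U), IsPullback o.g b.g w.g j.g := by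
  have hw := w.closed
  have hj := j.isOpen
  have h1 : IsOpenImmersion (pullback.fst w.g j.g) := inferInstance
  have h2 : IsClosedImmersion (pullback.snd w.g j.g) := inferInstance
  refine ⟨interVar w j, ⟨pullback.fst w.g j.g, ?_, h1⟩, ⟨pullback.snd w.g j.g, rfl, h2⟩,
    IsPullback.of_hasPullback w.g j.g⟩
  change pullback.fst w.g j.g ≫ W.f = pullback.snd w.g j.g ≫ U.f
  rw [← w.comm, ← j.comm, ← Category.assoc, ← Category.assoc, pullback.condition]

/-- A closed immersion into a fibre product. -/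
lemma lift_closed {V W D U X : Var k} {o : D.X ⟶ W.X} {b : D.X ⟶ U.X} {w : W.X ⟶ X.X}
    {j : U.X ⟶ X.X} (h : IsPullback o b w j) (hD : b ≫ U.f = D.f) (c : V.X ⟶ W.X)
    (e : V.X ⟶ U.X) (he : e ≫ U.f = V.f) [IsClosedImmersion e] [IsSeparated b]
    (hc : c ≫ w = e ≫ j) :
    ∃ l : ClosedIn V D, l.g ≫ o = c ∧ l.g ≫ b = e := by
  have h1 : IsClosedImmersion (h.lift c e hc ≫ b) := by
    rw [h.lift_snd]
    infer_instance
  refine ⟨⟨h.lift c e hc, ?_, IsClosedImmersion.of_comp (h.lift c e hc) b⟩, h.lift_fst c e hc,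
    h.lift_snd c e hc⟩
  rw [← hD, ← Category.assoc, h.lift_snd, he]

theorem supp_glue [PerfectField k] (hT : Full T) (hP : Pub T hT) (i : ℕ) {Z U X : Var k} (a : ClosedIn Z X)
    (j : OpenIn U X) (h : Complementary a j) 
    (hUs : ∀ m ∈ gen1 (T i) U, Supp (T i) (2 * i + 1) (i + 1) U m) (hZ : (T i).InjC Z)
    (hZs : ∀ m ∈ gen1 (T i) Z, Supp (T i) (2 * i + 1) (i + 1) Z m) :
    ∀ m ∈ gen1 (T i) X, Supp (T i) (2 * i + 1) (i + 1) X m := by
  intro m hm
  have hu : (T i).R (2 * i + 1) j m ∈ gen1 (T i) U :=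
    maxGen_map ((T i).frob (2 * i + 1) X) ((T i).frob (2 * i + 1) U) ((T i).res (2 * i + 1) j)
      ((T i).res_frob (2 * i + 1) j) hm
  obtain ⟨d⟩ := bd_supp hT hP i a j h _ hu (hUs _ hu)
  -- the cycle `d.v` is rationally equivalent to zero on a closed subset of `Z`
  have h1 : cls (T i) Z (pushCyc d.q d.v) = 0 := by
    rw [← d.hbd]
    exact (hP.resExact i (2 * i) a j h _).mpr ⟨m, rfl⟩
  obtain ⟨C, hC, c, hc, hcv⟩ := ratZero_supp Z _ ((injC_iff (T i) Z).1 hZ _ h1)
  -- the closed subvariety `Y = W ∪ C` of `X`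
  let e : ClosedIn (closedVar Z C) X := (closedVarIn Z C).trans a
  have hredC := REDI.isReduced_closedVar Z C
  have hredW := d.redW
  let K : Closeds X.X := ran d.w ⊔ ran e
  let Y := closedVar X K
  let y : ClosedIn Y X := closedVarIn X K
  let wY : ClosedIn d.W Y := factorC d.w K fun x => Or.inl ⟨x, rfl⟩
  let eY : ClosedIn (closedVar Z C) Y := factorC e K fun x => Or.inr ⟨x, rfl⟩
  have hwY : wY.g ≫ y.g = d.w.g := factorC_comp _ _ _
  have heY : eY.g ≫ y.g = e.g := factorC_comp _ _ _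
  have hYdim : Y.DimLE (i + 1 : ℕ) := by
    intro x
    have h2 : y.g x ∈ (K : Set X.X) := by
      rw [← range_closedVarIn]
      exact ⟨x, rfl⟩
    have h3 := y.closed
    rw [← dim_map y.g y.comm]
    rcases h2 with ⟨x', hx'⟩ | ⟨x', hx'⟩
    · rw [← hx']
      have := d.w.closed
      rw [dim_map d.w.g d.w.comm]
      exact d.hW x'
    · rw [← hx']
      have := e.closed
      have h4 := (closedVarIn Z C).closed
      rw [dim_map e.g e.comm, ← dim_map (closedVarIn Z C).g (closedVarIn Z C).comm]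
      refine hC _ ?_
      have h5 : (closedVarIn Z C).g x' ∈ (C : Set Z.X) := by
        rw [← range_closedVarIn]
        exact ⟨x', rfl⟩
      exact h5
  -- its open part `D'` and closed part `B'`
  obtain ⟨D', o', b', hD'⟩ := exists_cart y j
  have hya := y.closed
  have haa := a.closed
  have hja := j.isOpen
  let B' : Var k :=
    { X := pullback y.g a.g
      f := pullback.snd y.g a.g ≫ Z.f
      sep := inferInstance
      lft := inferInstance
      qc := inferInstance }
  have hB' : IsPullback (pullback.fst y.g a.g) (pullback.snd y.g a.g) y.g a.g :=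
    IsPullback.of_hasPullback y.g a.g
  have hp1 : IsClosedImmersion (pullback.fst y.g a.g) := inferInstance
  have hp2 : IsClosedImmersion (pullback.snd y.g a.g) := inferInstance
  let p' : ClosedIn B' Y := ⟨pullback.fst y.g a.g, by
    change pullback.fst y.g a.g ≫ Y.f = pullback.snd y.g a.g ≫ Z.f
    rw [← y.comm, ← a.comm, ← Category.assoc, ← Category.assoc, hB'.w], hp1⟩
  let q' : ClosedIn B' Z := ⟨pullback.snd y.g a.g, rfl, hp2⟩
  have hcomp : Complementary p' o' := by
    have h2 : Set.range p'.g = y.g ⁻¹' Set.range a.g := Scheme.Pullback.range_fst y.g a.g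
    have h3 : Set.range o'.g = y.g ⁻¹' Set.range j.g := by
      have h4 := Scheme.Pullback.range_fst y.g j.g
      have h5 : o'.g = hD'.isoPullback.hom ≫ pullback.fst y.g j.g :=
        (hD'.isoPullback_hom_fst).symm
      rw [← h4, h5]
      ext x
      constructor
      · rintro ⟨z, rfl⟩
        exact ⟨hD'.isoPullback.hom z, by rw [Scheme.Hom.comp_apply]⟩
      · rintro ⟨z, rfl⟩
        refine ⟨hD'.isoPullback.inv z, ?_⟩
        rw [← Scheme.Hom.comp_apply, ← Category.assoc, Iso.inv_hom_id, Category.id_comp]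
    rw [Complementary, h2, h3, show Set.range a.g = (Set.range j.g)ᶜ from h]
    rfl
  -- the morphisms to them
  have hbs := d.b.closed
  have hqs := d.q.closed
  have hb's := b'.closed
  obtain ⟨fU, hfU1, hfU2⟩ := lift_closed hD' b'.comm (d.o.g ≫ wY.g) d.b.g d.b.comm (by
    rw [Category.assoc, hwY]
    exact d.h2)
  obtain ⟨fZ, hfZ1, hfZ2⟩ := lift_closed (D := B') hB' rfl (d.p.g ≫ wY.g) d.q.g d.q.comm (by
    rw [Category.assoc, hwY]
    exact d.h1)
  have hCs := (closedVarIn Z C).closed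
  obtain ⟨fC, hfC1, hfC2⟩ := lift_closed (D := B') hB' rfl eY.g (closedVarIn Z C).g
    (closedVarIn Z C).comm heY
  -- the class on `D'`
  let β' := (T i).P (2 * i + 1) fU d.β
  have hβ' : β' ∈ gen1 (T i) D' :=
    maxGen_map ((T i).frob (2 * i + 1) d.D) ((T i).frob (2 * i + 1) D')
      ((T i).push (2 * i + 1) fU) ((T i).push_frob (2 * i + 1) fU) d.hβ
  have h6 : bdl hT i (2 * i) p' o' hcomp β' = 0 := by
    have h7 := bdl_push hT i (2 * i) d.p d.o d.hc p' o' hcomp fZ fU wY hfZ1.symm hfU1.symm d.β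
    rw [← h7, d.hv, push_cls']
    have h8 : pushCyc fZ d.v = pushCyc fC c := by
      apply Finsupp.mapDomain_injective (ptsMap_injective i q')
      change pushCyc q' (pushCyc fZ d.v) = pushCyc q' (pushCyc fC c)
      rw [pushCyc_comp fZ q' d.q hfZ2, pushCyc_comp fC q' (closedVarIn Z C) hfC2, hcv]
    rw [h8]
    exact (T i).cl_rat _ _ (pushCyc_ratZero fC c hc)
  obtain ⟨γ, hγ⟩ := (hP.resExact i (2 * i) p' o' hcomp β').mp h6
  obtain ⟨γ', hγ', hγ2⟩ := maxGen_lift ((T i).frob (2 * i + 1) Y) ((T i).frob (2 * i + 1) D')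
    ((T i).res (2 * i + 1) o') ((T i).res_frob (2 * i + 1) o') (m := γ) (by
      rw [show (T i).res (2 * i + 1) o' γ = β' from hγ]
      exact hβ')
  have hγ3 : (T i).R (2 * i + 1) o' γ' = β' := hγ2.trans hγ
  -- the difference comes from `Z`
  have h9 : (T i).R (2 * i + 1) j (m - (T i).P (2 * i + 1) y γ') = 0 := by
    have h10 : (T i).R (2 * i + 1) j ((T i).P (2 * i + 1) y γ') = (T i).R (2 * i + 1) j m := by
      rw [res_push hT i (2 * i + 1) y b' o' j hD', hγ3,
        hT.push_comp i (2 * i + 1) _ _ _ fU b' d.b hfU2, d.hu]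
    have h11 : (T i).R (2 * i + 1) j (m - (T i).P (2 * i + 1) y γ') =
      (T i).R (2 * i + 1) j m - (T i).R (2 * i + 1) j ((T i).P (2 * i + 1) y γ') :=
        map_sub ((T i).res (2 * i + 1) j) _ _
    rw [h11, h10, sub_self]
  obtain ⟨z, hz⟩ := ((T i).exact_X (2 * i + 1) a j h _).mp h9
  have h12 : (T i).P (2 * i + 1) y γ' ∈ gen1 (T i) X :=
    maxGen_map ((T i).frob (2 * i + 1) Y) ((T i).frob (2 * i + 1) X)
      ((T i).push (2 * i + 1) y) ((T i).push_frob (2 * i + 1) y) hγ'
  obtain ⟨z', hz', hz2⟩ := maxGen_lift ((T i).frob (2 * i + 1) Z) ((T i).frob (2 * i + 1) X)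
    ((T i).push (2 * i + 1) a) ((T i).push_frob (2 * i + 1) a) (m := z) (by
      rw [hz]
      exact sub_mem hm h12)
  have h13 : m = (T i).P (2 * i + 1) a z' + (T i).P (2 * i + 1) y γ' := by
    have h14 : (T i).P (2 * i + 1) a z' = m - (T i).P (2 * i + 1) y γ' := hz2.trans hz
    rw [h14, sub_add_cancel]
  rw [h13]
  exact supp_add hT.toExtra i _ _ X _ _ (supp_push hT.toExtra i _ _ a z' (hZs z' hz'))
    (supp_mk hT.toExtra i _ _ y hYdim γ')

/-- The class of varieties is closed under glueing. -/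
theorem pf_glue [PerfectField k] (hT : Full T) (hP : Pub T hT) (i : ℕ) {Z U X : Var k} (a : ClosedIn Z X)
    (j : OpenIn U X) (h : Complementary a j) (hZ : PF (T i) Z) (hU : PF (T i) U) :
    PF (T i) X :=
  ⟨(T i).glue a j h hZ.1 hU.1, injC_glue3 hT hP i a j h hU.2.1 hU.2.2 hZ.2.1,
    supp_glue hT hP i a j h hU.2.2 hZ.2.1 hZ.2.2⟩

end QCV


end

section

/-!
# QCV, block F: the class of varieties is closed under open complements
-/

set_option autoImplicit false

open CategoryTheory AlgebraicGeometry Limits Polynomial TopologicalSpace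

namespace QCV

open Pool.Agent.Lib_helper55.Beil Pool.Agent.Lib_helper66.OneP CUB

universe v

variable {k : Type} [Field k] {E : Type} [Field E] {T : ∀ i : ℕ, Homology.{v} k E i}

lemma dimLE_open {U X : Var k} (j : OpenIn U X) {d : ℕ} (h : X.DimLE d) : U.DimLE d := by
  intro x
  have := j.isOpen
  rw [← dim_map j.g j.comm]
  exact h _

lemma dimLE_of_mem {X : Var k} {e : ℕ} (C : Closeds X.X) (hC : ∀ x ∈ C, X.dim x ≤ e) :
    (closedVar X C).DimLE e := by
  intro x
  have h1 : (closedVarIn X C).g x ∈ (C : Set X.X) := by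
    rw [← range_closedVarIn]
    exact ⟨x, rfl⟩
  have := (closedVarIn X C).closed
  rw [← dim_map (closedVarIn X C).g (closedVarIn X C).comm]
  exact hC _ h1

/-- Restriction to an open subvariety. -/
lemma supp_res (hT : Full T) (i n e : ℕ) {U X : Var k} (j : OpenIn U X) (m : (T i).H n X)
    (h : Supp (T i) n e X m) : Supp (T i) n e U ((T i).R n j m) := by
  obtain ⟨C, hC, b, rfl⟩ := h
  obtain ⟨D, o, b', hD⟩ := exists_cart (closedVarIn X C) j
  rw [res_push hT i n _ b' o j hD]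
  exact supp_mk hT.toExtra i n e b' (dimLE_open o (dimLE_of_mem C hC)) _

/-- The open and the closed part of a closed subvariety. -/
lemma exists_parts {Z U X Y : Var k} (a : ClosedIn Z X) (j : OpenIn U X) (h : Complementary a j)
    (y : ClosedIn Y X) : ∃ (D B : Var k) (o : OpenIn D Y) (b : ClosedIn D U) (p : ClosedIn B Y)
      (q : ClosedIn B Z), IsPullback o.g b.g y.g j.g ∧ IsPullback p.g q.g y.g a.g ∧
      Complementary p o := by
  obtain ⟨D', o', b', hD'⟩ := exists_cart y j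
  have hya := y.closed
  have haa := a.closed
  have hja := j.isOpen
  let B' : Var k :=
    { X := pullback y.g a.g
      f := pullback.snd y.g a.g ≫ Z.f
      sep := inferInstance
      lft := inferInstance
      qc := inferInstance }
  have hB' : IsPullback (pullback.fst y.g a.g) (pullback.snd y.g a.g) y.g a.g :=
    IsPullback.of_hasPullback y.g a.g
  have hp1 : IsClosedImmersion (pullback.fst y.g a.g) := inferInstance
  have hp2 : IsClosedImmersion (pullback.snd y.g a.g) := inferInstance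
  let p' : ClosedIn B' Y := ⟨pullback.fst y.g a.g, by
    change pullback.fst y.g a.g ≫ Y.f = pullback.snd y.g a.g ≫ Z.f
    rw [← y.comm, ← a.comm, ← Category.assoc, ← Category.assoc, hB'.w], hp1⟩
  let q' : ClosedIn B' Z := ⟨pullback.snd y.g a.g, rfl, hp2⟩
  refine ⟨D', B', o', b', p', q', hD', hB', ?_⟩
  have h2 : Set.range p'.g = y.g ⁻¹' Set.range a.g := Scheme.Pullback.range_fst y.g a.g
  have h3 : Set.range o'.g = y.g ⁻¹' Set.range j.g := by
    have h4 := Scheme.Pullback.range_fst y.g j.g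
    have h5 : o'.g = hD'.isoPullback.hom ≫ pullback.fst y.g j.g :=
      (hD'.isoPullback_hom_fst).symm
    rw [← h4, h5]
    ext x
    constructor
    · rintro ⟨z, rfl⟩
      exact ⟨hD'.isoPullback.hom z, by rw [Scheme.Hom.comp_apply]⟩
    · rintro ⟨z, rfl⟩
      refine ⟨hD'.isoPullback.inv z, ?_⟩
      rw [← Scheme.Hom.comp_apply, ← Category.assoc, Iso.inv_hom_id, Category.id_comp]
  rw [Complementary, h2, h3, show Set.range a.g = (Set.range j.g)ᶜ from h]
  rfl

lemma pushCyc_injective {i : ℕ} {Z X : Var k} (a : ClosedIn Z X) :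
    Function.Injective (pushCyc (i := i) (E := E) a) :=
  Finsupp.mapDomain_injective (ptsMap_injective i a)

/-- A cycle which is supported on both of two closed subvarieties. -/
lemma exists_common {i : ℕ} {Z U X Y D B : Var k} (a : ClosedIn Z X) (j : OpenIn U X)
    (h : Complementary a j) (y : ClosedIn Y X) (o : OpenIn D Y) (b : ClosedIn D U)
    (p : ClosedIn B Y) (q : ClosedIn B Z) (hD : o.g ≫ y.g = b.g ≫ j.g)
    (hB : p.g ≫ y.g = q.g ≫ a.g) (hc : Complementary p o) (c : Pts i Y →₀ E)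
    (w : Pts i Z →₀ E) (hcw : pushCyc y c = pushCyc a w) :
    ∃ z : Pts i B →₀ E, pushCyc p z = c ∧ pushCyc q z = w := by
  have h1 : resCyc o c = 0 := by
    ext u
    rw [resCyc_apply, Finsupp.coe_zero, Pi.zero_apply]
    have h2 : pushCyc y c (ptsMap i y (ptsMapO i o u)) = c (ptsMapO i o u) :=
      Finsupp.mapDomain_apply (ptsMap_injective i y) _ _
    rw [← h2, hcw]
    apply Finsupp.mapDomain_of_notMem_range
    rintro ⟨z, hz⟩
    have h3 : a.g z.1 = y.g (o.g u.1) := congrArg Subtype.val hz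
    have h4 : a.g z.1 ∈ Set.range a.g := ⟨_, rfl⟩
    rw [h3, show Set.range a.g = (Set.range j.g)ᶜ from h] at h4
    refine h4 ⟨b.g u.1, ?_⟩
    rw [← Scheme.Hom.comp_apply, ← Scheme.Hom.comp_apply, hD]
  obtain ⟨z, hz⟩ := exists_pushCyc p o hc c h1
  refine ⟨z, hz, ?_⟩
  apply pushCyc_injective a
  rw [← hcw, ← hz, pushCyc_comp q a (q.trans a) rfl, pushCyc_comp p y (q.trans a) hB]

/-- Injectivity for an open subvariety. -/
lemma injC_open2 {i : ℕ} (T : Homology.{v} k E i) {Z U X : Var k} (a : ClosedIn Z X)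
    (j : OpenIn U X) (h : Complementary a j) (hZ : T.gen Z ≤ T.alg Z) (hX : T.InjC X) :
    T.InjC U := by
  rw [injC_iff] at hX ⊢
  intro c hc
  obtain ⟨c', rfl⟩ := exists_resCyc j c
  have h1 : T.res (2 * i) j (cls T X c') = 0 := by rw [res_cls, hc]
  obtain ⟨z, hz⟩ := (T.exact_X (2 * i) a j h _).mp h1
  obtain ⟨z', hz', h3⟩ := maxGen_lift (T.frob (2 * i) Z) (T.frob (2 * i) X) (T.push (2 * i) a)
    (T.push_frob (2 * i) a) (m := z) (by rw [hz]; exact cls_mem_gen T X c')
  obtain ⟨d, hd⟩ := exists_cls T Z z' (hZ hz')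
  have h4 : cls T X (c' - pushCyc a d) = 0 := by
    rw [cls_sub, ← push_cls, hd, h3, hz, sub_self]
  have h5 := resCyc_ratZero j _ (hX _ h4)
  rwa [map_sub, resCyc_pushCyc a j h, sub_zero] at h5

/-- The generalised eigenspace in degree `2 i` for an open subvariety. -/
lemma good_open (hT : Full T) (hP : Pub T hT) (i : ℕ) {Z U X : Var k} (a : ClosedIn Z X) (j : OpenIn U X)
    (h : Complementary a j) (hX : (T (i + 1)).gen X ≤ (T (i + 1)).alg X) :
    (T (i + 1)).gen U ≤ (T (i + 1)).alg U := by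
  intro m hm
  have h1 : bdl hT (i + 1) (2 * i + 1) a j h m = 0 := by
    apply maxGen_eq_bot ((T (i + 1)).frob (2 * i + 1) Z)
      (fun z hz => hP.weights (i + 1) (2 * i + 1) (by omega) Z z hz)
    exact maxGen_map ((T (i + 1)).frob (2 * i + 1 + 1) U) ((T (i + 1)).frob (2 * i + 1) Z)
      (bdl hT (i + 1) (2 * i + 1) a j h) (bdl_frob hT hP (i + 1) (2 * i + 1) a j h) hm
  obtain ⟨x, hx⟩ := (hP.resExact (i + 1) (2 * i + 1) a j h m).mp h1
  obtain ⟨x', hx', h2⟩ := maxGen_lift ((T (i + 1)).frob (2 * (i + 1)) X)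
    ((T (i + 1)).frob (2 * (i + 1)) U) ((T (i + 1)).res (2 * (i + 1)) j)
    ((T (i + 1)).res_frob (2 * (i + 1)) j) (m := x) (by
      rw [show (T (i + 1)).res (2 * (i + 1)) j x = m from hx]
      exact hm)
  rw [← show (T (i + 1)).res (2 * (i + 1)) j x' = m from h2.trans hx]
  exact res_alg (T (i + 1)) j (hX hx')

/-- Supports for an open subvariety. -/
theorem supp_open (hT : Full T) (hP : Pub T hT) (i : ℕ) {Z U X : Var k} (a : ClosedIn Z X) (j : OpenIn U X)
    (h : Complementary a j) (hZ : (T i).gen Z ≤ (T i).alg Z) (hX : (T i).InjC X)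
    (hXs : ∀ m ∈ gen1 (T i) X, Supp (T i) (2 * i + 1) (i + 1) X m) :
    ∀ m ∈ gen1 (T i) U, Supp (T i) (2 * i + 1) (i + 1) U m := by
  intro m hm
  have h1 : bdl hT i (2 * i) a j h m ∈ (T i).gen Z :=
    maxGen_map ((T i).frob (2 * i + 1) U) ((T i).frob (2 * i) Z) (bdl hT i (2 * i) a j h)
      (bdl_frob hT hP i (2 * i) a j h) hm
  obtain ⟨w, hw⟩ := exists_cls (T i) Z _ (hZ h1)
  have h2 : cls (T i) X (pushCyc a w) = 0 := by
    rw [← push_cls', hw]
    exact (hT.bdExact i (2 * i) a j h _).mpr ⟨m, rfl⟩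
  obtain ⟨C, hC, c, hc, hcw⟩ := ratZero_supp X _ ((injC_iff (T i) X).1 hX _ h2)
  obtain ⟨D, B, o, b, p, q, hD, hB, hcomp⟩ := exists_parts a j h (closedVarIn X C)
  obtain ⟨z, hz1, hz2⟩ := exists_common a j h (closedVarIn X C) o b p q hD.w hB.w hcomp c w hcw
  have h3 : (T i).P (2 * i) p (cls (T i) B z) = 0 := by
    rw [push_cls', hz1]
    exact (T i).cl_rat _ _ hc
  obtain ⟨β, hβ⟩ := (hT.bdExact i (2 * i) p o hcomp _).mp h3
  obtain ⟨β', hβ', hβ2⟩ := maxGen_lift ((T i).frob (2 * i + 1) D) ((T i).frob (2 * i) B)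
    (bdl hT i (2 * i) p o hcomp) (bdl_frob hT hP i (2 * i) p o hcomp) (m := β) (by
      rw [show bdl hT i (2 * i) p o hcomp β = cls (T i) B z from hβ]
      exact cls_mem_gen (T i) B z)
  have hβ3 : bdl hT i (2 * i) p o hcomp β' = cls (T i) B z := hβ2.trans hβ
  have h4 := bdl_push hT i (2 * i) p o hcomp a j h q b (closedVarIn X C) hB.w hD.w β'
  rw [hβ3, push_cls', hz2, hw] at h4
  have h5 : bdl hT i (2 * i) a j h (m - (T i).P (2 * i + 1) b β') = 0 := by
    rw [map_sub, ← h4, sub_self]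
  obtain ⟨x, hx⟩ := (hP.resExact i (2 * i) a j h _).mp h5
  have h6 : (T i).P (2 * i + 1) b β' ∈ gen1 (T i) U :=
    maxGen_map ((T i).frob (2 * i + 1) D) ((T i).frob (2 * i + 1) U)
      ((T i).push (2 * i + 1) b) ((T i).push_frob (2 * i + 1) b) hβ'
  obtain ⟨x', hx', hx2⟩ := maxGen_lift ((T i).frob (2 * i + 1) X) ((T i).frob (2 * i + 1) U)
    ((T i).res (2 * i + 1) j) ((T i).res_frob (2 * i + 1) j) (m := x) (by
      rw [show (T i).res (2 * i + 1) j x = _ from hx]
      exact sub_mem hm h6)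
  have h7 : (T i).R (2 * i + 1) j x' = m - (T i).P (2 * i + 1) b β' := hx2.trans hx
  have h8 : m = (T i).R (2 * i + 1) j x' + (T i).P (2 * i + 1) b β' := by
    rw [h7, sub_add_cancel]
  rw [h8]
  exact supp_add hT.toExtra i _ _ U _ _ (supp_res hT i _ _ j x' (hXs x' hx'))
    (supp_mk hT.toExtra i _ _ b (dimLE_open o (dimLE_of_mem C hC)) β')

/-- The class of varieties is closed under open complements (cycles of positive dimension). -/
theorem pf_open (hT : Full T) (hP : Pub T hT) (i : ℕ) {Z U X : Var k} (a : ClosedIn Z X) (j : OpenIn U X)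
    (h : Complementary a j) (hX : PF (T (i + 1)) X) (hZ : PF (T (i + 1)) Z) :
    PF (T (i + 1)) U :=
  ⟨good_open hT hP i a j h hX.1, injC_open2 (T (i + 1)) a j h hZ.1 hX.2.1,
    supp_open hT hP (i + 1) a j h hZ.1 hX.2.1 hX.2.2⟩

end QCV


end

section

/-!
# CUB2, module AFY: the complement of the graph is affine over the base
-/

set_option autoImplicit false

open CategoryTheory AlgebraicGeometry Limits Polynomial TopologicalSpace

namespace CUB

open Pool.Agent.Lib_helper55.Beil Pool.Agent.Lib_helper66.OneP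

universe v

namespace GAFY

theorem fin_basic (S : Scheme.{0}) [IsAffine S] [IsLocallyNoetherian S] (W : S.Opens) :
    ∃ s : Finset Γ(S, ⊤), ∀ y : S, y ∈ W ↔ ∃ b ∈ s, y ∈ S.basicOpen b := by
  classical
  have hN : IsNoetherian S := { }
  have hc : IsCompact (W : Set S) := NoetherianSpace.isCompact _
  have h1 : ∀ x : W, ∃ b : Γ(S, ⊤), x.1 ∈ S.basicOpen b ∧ S.basicOpen b ≤ W := by
    intro x
    obtain ⟨_, ⟨_, ⟨b, rfl⟩, rfl⟩, hx, hle⟩ := (isBasis_basicOpen S).exists_subset_of_mem_open x.2 W.isOpen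
    exact ⟨b, hx, hle⟩
  choose b hb hb' using h1
  obtain ⟨t, ht⟩ := hc.elim_finite_subcover (fun x : W => (S.basicOpen (b x) : Set S))
    (fun x => (S.basicOpen (b x)).isOpen) (fun x hx => Set.mem_iUnion.2 ⟨⟨x, hx⟩, hb ⟨x, hx⟩⟩)
  refine ⟨t.image b, fun y => ⟨fun hy => ?_, ?_⟩⟩
  · obtain ⟨x, hx, hy'⟩ := Set.mem_iUnion₂.1 (ht hy)
    exact ⟨b x, Finset.mem_image_of_mem _ hx, hy'⟩
  · rintro ⟨c, hc, hy⟩
    obtain ⟨x, -, rfl⟩ := Finset.mem_image.1 hc
    exact hb' x hy

end GAFY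

open _root_.CUB.GAFY in
theorem t_AFY : M_AFY := by
  intro hDIAG k _ H X X₁ Y e σ j hσ1 hσ2 hj
  obtain ⟨T, hT, hTa⟩ := hDIAG k H
  have hje : IsOpenImmersion j.g := j.isOpen
  have hee : IsClosedImmersion e.g := e.closed
  -- the morphisms
  obtain ⟨π₁, hπ₁⟩ : ∃ π₁ : (X₁.prod H.P).X ⟶ X₁.X, π₁ = pullback.fst X₁.f H.P.f := ⟨_, rfl⟩
  obtain ⟨π₂, hπ₂⟩ : ∃ π₂ : (X₁.prod H.P).X ⟶ H.P.X, π₂ = pullback.snd X₁.f H.P.f := ⟨_, rfl⟩
  obtain ⟨a₁, ha₁⟩ : ∃ a₁ : (X.prod H.P).X ⟶ X.X, a₁ = pullback.fst X.f H.P.f := ⟨_, rfl⟩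
  obtain ⟨a₂, ha₂⟩ : ∃ a₂ : (X.prod H.P).X ⟶ H.P.X, a₂ = pullback.snd X.f H.P.f := ⟨_, rfl⟩
  obtain ⟨q₁, hq₁⟩ : ∃ q₁ : (H.P.prod H.P).X ⟶ H.P.X, q₁ = pullback.fst H.P.f H.P.f := ⟨_, rfl⟩
  obtain ⟨q₂, hq₂⟩ : ∃ q₂ : (H.P.prod H.P).X ⟶ H.P.X, q₂ = pullback.snd H.P.f H.P.f := ⟨_, rfl⟩
  obtain ⟨Δ, hΔ⟩ : ∃ Δ : H.P.X ⟶ (H.P.prod H.P).X, Δ = pullback.diagonal H.P.f := ⟨_, rfl⟩
  have hΔ1 : Δ ≫ q₁ = 𝟙 _ := by
    rw [hΔ, hq₁]
    exact pullback.diagonal_fst H.P.f
  have hΔ2 : Δ ≫ q₂ = 𝟙 _ := by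
    rw [hΔ, hq₂]
    exact pullback.diagonal_snd H.P.f
  have hPP : ∀ {Z : Scheme.{0}} {u v : Z ⟶ (H.P.prod H.P).X}, u ≫ q₁ = v ≫ q₁ → u ≫ q₂ = v ≫ q₂ → u = v := by
    intro Z u v h1 h2
    rw [hq₁] at h1
    rw [hq₂] at h2
    exact pullback.hom_ext h1 h2
  have hX₁P : ∀ {Z : Scheme.{0}} {u v : Z ⟶ (X₁.prod H.P).X}, u ≫ π₁ = v ≫ π₁ → u ≫ π₂ = v ≫ π₂ → u = v := by
    intro Z u v h1 h2
    rw [hπ₁] at h1
    rw [hπ₂] at h2
    exact pullback.hom_ext h1 h2
  have hπc : π₁ ≫ X₁.f = π₂ ≫ H.P.f := by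
    rw [hπ₁, hπ₂]
    exact pullback.condition
  have hac : a₁ ≫ X.f = a₂ ≫ H.P.f := by
    rw [ha₁, ha₂]
    exact pullback.condition
  have hqc : q₁ ≫ H.P.f = q₂ ≫ H.P.f := by
    rw [hq₁, hq₂]
    exact pullback.condition
  have hec : e.g ≫ a₁ ≫ X.f = X₁.f := by
    rw [ha₁]
    exact e.comm
  rw [← hπ₁, ← ha₁, ← ha₂]
  rw [← hπ₁] at hσ1
  rw [← hπ₂, ← ha₂] at hσ2
  -- the morphism to `P × P`
  obtain ⟨χ, hχ1, hχ2⟩ : ∃ χ : (X₁.prod H.P).X ⟶ (H.P.prod H.P).X, χ ≫ q₁ = π₁ ≫ e.g ≫ a₂ ∧ χ ≫ q₂ = π₂ := by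
    have h1 : (π₁ ≫ e.g ≫ a₂) ≫ H.P.f = π₂ ≫ H.P.f := by
      rw [Category.assoc, Category.assoc, ← hac, hec, hπc]
    refine ⟨pullback.lift (π₁ ≫ e.g ≫ a₂) π₂ h1, ?_, ?_⟩
    · rw [hq₁]
      exact pullback.lift_fst _ _ _
    · rw [hq₂]
      exact pullback.lift_snd _ _ _
  -- the graph is the preimage of the diagonal
  have hgraph : ∀ z : (X₁.prod H.P).X, χ z ∈ Set.range Δ ↔ z ∈ Set.range σ.g := by
    intro z
    constructor
    · rintro ⟨p, hp⟩
      obtain ⟨w, hw1, hw2⟩ := Scheme.Pullback.exists_preimage_pullback (f := χ) (g := Δ) z p hp.symm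
      have h1 : (pullback.fst χ Δ ≫ π₁) ≫ σ.g = pullback.fst χ Δ := by
        apply hX₁P
        · rw [Category.assoc, hσ1, Category.comp_id]
        · have h2 : pullback.fst χ Δ ≫ χ ≫ q₁ = pullback.fst χ Δ ≫ χ ≫ q₂ := by
            rw [← Category.assoc, ← Category.assoc, pullback.condition, Category.assoc, Category.assoc, hΔ1, hΔ2]
          rw [Category.assoc, hσ2, Category.assoc, ← hχ1, h2, hχ2]
      refine ⟨(pullback.fst χ Δ ≫ π₁) w, ?_⟩
      rw [← Scheme.Hom.comp_apply, h1, hw1]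
    · rintro ⟨x, rfl⟩
      have h1 : σ.g ≫ χ = (e.g ≫ a₂) ≫ Δ := by
        apply hPP
        · rw [Category.assoc, hχ1, Category.assoc, hΔ1, Category.comp_id, ← Category.assoc, hσ1, Category.id_comp]
        · rw [Category.assoc, hχ2, Category.assoc, hΔ2, Category.comp_id, hσ2]
      refine ⟨(e.g ≫ a₂) x, ?_⟩
      rw [← Scheme.Hom.comp_apply, ← h1, Scheme.Hom.comp_apply]
  have hTm : ∀ z : (X₁.prod H.P).X, χ z ∈ T ↔ z ∈ Set.range j.g := by
    intro z
    have h1 : χ z ∈ T ↔ χ z ∈ (T : Set (H.P.prod H.P).X) := Iff.rfl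
    have hT' : (T : Set (H.P.prod H.P).X) = (Set.range Δ)ᶜ := by
      rw [hΔ]
      exact hT
    rw [h1, hT', Set.mem_compl_iff, hgraph]
    have h2 : Set.range σ.g = (Set.range j.g)ᶜ := hj
    rw [h2, Set.mem_compl_iff, not_not]
  -- the closed immersion of `X₁ × P` in `X × (P × P)`
  obtain ⟨fT, hfT⟩ : ∃ fT : (H.P.prod H.P).X ⟶ Spec (CommRingCat.of k), fT = (H.P.prod H.P).f := ⟨_, rfl⟩
  have hfT1 : fT = q₁ ≫ H.P.f := by
    rw [hfT, hq₁]
    rfl
  obtain ⟨c, hc1, hc2⟩ : ∃ c : (X₁.prod H.P).X ⟶ pullback X.f fT,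
      c ≫ pullback.fst X.f fT = π₁ ≫ e.g ≫ a₁ ∧ c ≫ pullback.snd X.f fT = χ := by
    have h1 : (π₁ ≫ e.g ≫ a₁) ≫ X.f = χ ≫ fT := by
      rw [hfT1, ← Category.assoc χ, hχ1, Category.assoc, Category.assoc, Category.assoc, Category.assoc, hac]
    exact ⟨pullback.lift _ _ h1, pullback.lift_fst _ _ _, pullback.lift_snd _ _ _⟩
  have hc : IsClosedImmersion c := by
    obtain ⟨b₁, hb₁⟩ : ∃ b₁ : ((X.prod H.P).prod H.P).X ⟶ (X.prod H.P).X,
      b₁ = pullback.fst (X.prod H.P).f H.P.f := ⟨_, rfl⟩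
    obtain ⟨b₂, hb₂⟩ : ∃ b₂ : ((X.prod H.P).prod H.P).X ⟶ H.P.X,
      b₂ = pullback.snd (X.prod H.P).f H.P.f := ⟨_, rfl⟩
    have hXP : ∀ {Z : Scheme.{0}} {u v : Z ⟶ (X.prod H.P).X}, u ≫ a₁ = v ≫ a₁ → u ≫ a₂ = v ≫ a₂ → u = v := by
      intro Z u v h1 h2
      rw [ha₁] at h1
      rw [ha₂] at h2
      exact pullback.hom_ext h1 h2
    have hXPP : ∀ {Z : Scheme.{0}} {u v : Z ⟶ ((X.prod H.P).prod H.P).X}, u ≫ b₁ = v ≫ b₁ →
        u ≫ b₂ = v ≫ b₂ → u = v := by
      intro Z u v h1 h2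
      rw [hb₁] at h1
      rw [hb₂] at h2
      exact pullback.hom_ext h1 h2
    have hXPf : (X.prod H.P).f = a₁ ≫ X.f := by
      rw [ha₁]
      rfl
    have hcond : pullback.fst X.f fT ≫ X.f = pullback.snd X.f fT ≫ q₁ ≫ H.P.f := by
      rw [pullback.condition, hfT1]
    obtain ⟨s₀, hs₁, hs₂⟩ : ∃ s₀ : pullback X.f fT ⟶ (X.prod H.P).X,
        s₀ ≫ a₁ = pullback.fst X.f fT ∧ s₀ ≫ a₂ = pullback.snd X.f fT ≫ q₁ := by
      have h1 : pullback.fst X.f fT ≫ X.f = (pullback.snd X.f fT ≫ q₁) ≫ H.P.f := by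
        rw [Category.assoc, hcond]
      refine ⟨pullback.lift _ _ h1, ?_, ?_⟩
      · rw [ha₁]
        exact pullback.lift_fst _ _ _
      · rw [ha₂]
        exact pullback.lift_snd _ _ _
    obtain ⟨s, hs3, hs4⟩ : ∃ s : pullback X.f fT ⟶ ((X.prod H.P).prod H.P).X,
        s ≫ b₁ = s₀ ∧ s ≫ b₂ = pullback.snd X.f fT ≫ q₂ := by
      have h1 : s₀ ≫ (X.prod H.P).f = (pullback.snd X.f fT ≫ q₂) ≫ H.P.f := by
        rw [hXPf, ← Category.assoc, hs₁, hcond, Category.assoc, hqc]
      refine ⟨pullback.lift _ _ h1, ?_, ?_⟩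
      · rw [hb₁]
        exact pullback.lift_fst _ _ _
      · rw [hb₂]
        exact pullback.lift_snd _ _ _
    have hb : IsPullback b₂ b₁ H.P.f (X.prod H.P).f := by
      rw [hb₁, hb₂]
      exact (IsPullback.of_hasPullback (X.prod H.P).f H.P.f).flip
    have hπ : IsPullback π₂ π₁ H.P.f X₁.f := by
      rw [hπ₁, hπ₂]
      exact (IsPullback.of_hasPullback X₁.f H.P.f).flip
    have hcs1 : (c ≫ s) ≫ b₁ = π₁ ≫ e.g := by
      rw [Category.assoc, hs3]
      apply hXP
      · rw [Category.assoc, hs₁, hc1, Category.assoc]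
      · rw [Category.assoc, hs₂, ← Category.assoc, hc2, hχ1, Category.assoc]
    have hcs2 : (c ≫ s) ≫ b₂ = π₂ := by
      rw [Category.assoc, hs4, ← Category.assoc, hc2, hχ2]
    have hpb : IsPullback (c ≫ s) π₁ b₁ e.g := by
      refine IsPullback.of_right (h₁₂ := b₂) (v₁₃ := H.P.f) (h₂₂ := (X.prod H.P).f) ?_ hcs1 hb
      rw [hcs2, e.comm]
      exact hπ
    have h1 : IsClosedImmersion (c ≫ s) := MorphismProperty.of_isPullback (P := @IsClosedImmersion) hpb.flip hee
    have h2 : IsSeparated s := by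
      have h3 : s ≫ ((X.prod H.P).prod H.P).f = pullback.fst X.f fT ≫ X.f := by
        have h4 : ((X.prod H.P).prod H.P).f = b₁ ≫ (X.prod H.P).f := by
          rw [hb₁]
          rfl
        rw [h4, ← Category.assoc, hs3, hXPf, ← Category.assoc, hs₁]
      have h5 : IsSeparated fT := by
        rw [hfT]
        infer_instance
      have h6 : IsSeparated (s ≫ ((X.prod H.P).prod H.P).f) := by
        rw [h3]
        infer_instance
      exact IsSeparated.of_comp s ((X.prod H.P).prod H.P).f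
    exact IsClosedImmersion.of_comp c s
  -- the open subset `X × T`
  obtain ⟨ι, hι⟩ : ∃ ι : pullback X.f (T.ι ≫ fT) ⟶ pullback X.f fT,
      ι = pullback.map X.f (T.ι ≫ fT) X.f fT (𝟙 _) T.ι (𝟙 _) (by simp) (by simp) := ⟨_, rfl⟩
  have hι1 : ι ≫ pullback.fst X.f fT = pullback.fst X.f (T.ι ≫ fT) := by
    rw [hι]
    exact (pullback.lift_fst _ _ _).trans (Category.comp_id _)
  have hι2 : ι ≫ pullback.snd X.f fT = pullback.snd X.f (T.ι ≫ fT) ≫ T.ι := by
    rw [hι]
    exact pullback.lift_snd _ _ _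
  have hιo : IsOpenImmersion ι := by
    rw [hι]
    infer_instance
  have hιr : ∀ w, w ∈ ι.opensRange ↔ pullback.snd X.f fT w ∈ T := by
    intro w
    have h1 : w ∈ ι.opensRange ↔ w ∈ Set.range ι := Iff.rfl
    rw [h1, hι, Scheme.Pullback.range_map]
    simp
  obtain ⟨τ, hτ⟩ : ∃ τ : Y.X ⟶ T.toScheme, τ ≫ T.ι = j.g ≫ χ := by
    have h1 : Set.range (j.g ≫ χ) ⊆ Set.range T.ι := by
      rintro _ ⟨y, rfl⟩
      rw [Scheme.Opens.range_ι, Scheme.Hom.comp_apply]
      exact (hTm _).2 ⟨y, rfl⟩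
    exact ⟨IsOpenImmersion.lift T.ι (j.g ≫ χ) h1, IsOpenImmersion.lift_fac _ _ _⟩
  obtain ⟨μ, hμ1, hμ2⟩ : ∃ μ : Y.X ⟶ pullback X.f (T.ι ≫ fT),
      μ ≫ pullback.fst X.f (T.ι ≫ fT) = j.g ≫ π₁ ≫ e.g ≫ a₁ ∧ μ ≫ pullback.snd X.f (T.ι ≫ fT) = τ := by
    have h1 : (j.g ≫ π₁ ≫ e.g ≫ a₁) ≫ X.f = τ ≫ T.ι ≫ fT := by
      rw [← Category.assoc τ, hτ, ← hc1, ← hc2]
      simp only [Category.assoc]
      rw [pullback.condition]
    exact ⟨pullback.lift _ _ h1, pullback.lift_fst _ _ _, pullback.lift_snd _ _ _⟩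
  have hsq : IsPullback μ j.g ι c := by
    refine IsOpenImmersion.isPullback μ j.g ι c ?_ ?_
    · apply pullback.hom_ext
      · rw [Category.assoc, hc1, Category.assoc, hι1, hμ1]
      · rw [Category.assoc, hc2, Category.assoc, hι2, ← Category.assoc, hμ2, hτ]
    · apply TopologicalSpace.Opens.ext
      ext z
      have h1 : z ∈ c ⁻¹ᵁ ι.opensRange ↔ c z ∈ ι.opensRange := Iff.rfl
      have h2 : z ∈ j.g.opensRange ↔ z ∈ Set.range j.g := Iff.rfl
      refine h1.trans (Iff.trans ?_ h2.symm)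
      rw [hιr, ← Scheme.Hom.comp_apply, hc2, hTm]
  have hμc : IsClosedImmersion μ := MorphismProperty.of_isPullback (P := @IsClosedImmersion) hsq.flip hc
  have hTaff : IsAffine T.toScheme := hTa
  refine ⟨?_, ?_⟩
  · rw [← hμ1]
    have h0 : IsAffineHom (T.ι ≫ fT) := inferInstance
    have h1 : IsAffineHom (pullback.fst X.f (T.ι ≫ fT)) := MorphismProperty.pullback_fst _ _ h0
    have h2 : IsAffineHom μ := inferInstance
    exact MorphismProperty.comp_mem (W := @IsAffineHom) _ _ h2 h1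
  · intro W
    have hN : IsLocallyNoetherian T.toScheme := by
      have : IsLocallyNoetherian (H.P.prod H.P).X := inferInstance
      infer_instance
    obtain ⟨s, hs⟩ := fin_basic T.toScheme ((T.ι ≫ q₁) ⁻¹ᵁ W)
    classical
    refine ⟨s.image τ.appTop.hom, fun y => ?_⟩
    have h1 : j.g ≫ π₁ ≫ e.g ≫ a₂ = τ ≫ T.ι ≫ q₁ := by
      rw [← Category.assoc τ, hτ, Category.assoc, hχ1]
    rw [h1, Scheme.Hom.comp_apply]
    have h2 : (T.ι ≫ q₁) (τ y) ∈ W ↔ τ y ∈ (T.ι ≫ q₁) ⁻¹ᵁ W := Iff.rfl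
    rw [h2, hs]
    constructor
    · rintro ⟨b, hb, hy⟩
      refine ⟨τ.appTop.hom b, Finset.mem_image_of_mem _ hb, ?_⟩
      have h3 : Y.X.basicOpen (τ.appTop.hom b) = τ ⁻¹ᵁ T.toScheme.basicOpen b :=
        (Scheme.preimage_basicOpen_top τ b).symm
      rw [h3]
      exact hy
    · rintro ⟨b, hb, hy⟩
      obtain ⟨c, hc, rfl⟩ := Finset.mem_image.1 hb
      refine ⟨c, hc, ?_⟩
      have h3 : Y.X.basicOpen (τ.appTop.hom c) = τ ⁻¹ᵁ T.toScheme.basicOpen c :=
        (Scheme.preimage_basicOpen_top τ c).symm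
      rw [h3] at hy
      exact hy

end CUB


end

section

/-!
# CUB2, module DESC

Descent of the injectivity of the cycle class map from the complement of a section of a
`P^1`-bundle.
-/

set_option autoImplicit false

open CategoryTheory AlgebraicGeometry Limits Polynomial TopologicalSpace

namespace CUB

open Pool.Agent.Lib_helper55.Beil Pool.Agent.Lib_helper66.OneP

universe v

namespace DESC

variable {k E : Type} [Field k] [Field E] {T : ∀ i : ℕ, Homology.{v} k E i}

/-- The push-forward along a section followed by the push-forward to the base is the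
identity. -/
lemma push_section (hT : Full T) (i n : ℕ) {P X : Var k} (p : PrMor P X) (s : ClosedIn X P)
    (hs : s.g ≫ p.g = 𝟙 X.X) (z : (T i).H n X) :
    hT.G i n p ((T i).P n s z) = z := by
  have h1 : hT.G i n (clPr s) z = (T i).P n s z :=
    hT.pfClosed i n s (clPr s) rfl z
  have h2 : hT.G i n p (hT.G i n (clPr s) z) = hT.G i n (clPr (idIn X)) z :=
    hT.pfFunctorial i n (clPr s) p (clPr (idIn X)) hs z
  have h3 : hT.G i n (clPr (idIn X)) z = (T i).P n (idIn X) z :=
    hT.pfClosed i n (idIn X) (clPr (idIn X)) rfl z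
  have h4 : (T i).P n (idIn X) z = z := hT.toExtra.push_id i n X (idIn X) rfl z
  rw [← h1, h2, h3, h4]

end DESC

theorem t_DESC : M_DESC.{v} := by
  intro hPCY hPULLP hL4 k E _ _ _ _ T hT i P X Y B σ j hσ hc hX hY
  rw [injC_iff] at hX hY ⊢
  intro α hα
  obtain ⟨d, hd⟩ := hPCY.2.1 k E i P X B α
  have h1 : clz (T (i + 1)) P d = 0 := hPULLP k E T hT i P X B α d hd hα
  have h2 : clz (T (i + 1)) Y (resCyc j d) = 0 := by
    have h3 := res_cls (T (i + 1)) j d
    exact h3.symm.trans ((congrArg _ h1).trans (map_zero ((T (i + 1)).res (2 * (i + 1)) j)))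
  obtain ⟨ρ, hρ, h4⟩ := exists_ratZero j _ (hY _ h2)
  obtain ⟨δ, hδ⟩ := exists_pushCyc σ j hc (d - ρ) (by rw [map_sub, h4, sub_self])
  have h5 : clz (T (i + 1)) P ρ = 0 := (T (i + 1)).cl_rat P ρ hρ
  have h6 : (T (i + 1)).push (2 * (i + 1)) σ (clz (T (i + 1)) X δ) = 0 := by
    have h7 := push_cls (T (i + 1)) σ δ
    rw [hδ, cls_sub] at h7
    exact h7.trans ((congrArg₂ _ h1 h5).trans (sub_self _))
  have h8 : clz (T (i + 1)) X δ = 0 := by
    have h9 := DESC.push_section hT (i + 1) (2 * (i + 1)) B.p σ hσ (clz (T (i + 1)) X δ)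
    have h10 : (T (i + 1)).P (2 * (i + 1)) σ (clz (T (i + 1)) X δ) = 0 := h6
    rw [h10] at h9
    rw [← h9]
    exact map_zero (hT.pf (i + 1) (2 * (i + 1)) B.p)
  have h11 : pushCyc σ δ ∈ ratZero E (i + 1) P := pushCyc_ratZero σ δ (hX δ h8)
  rw [hδ] at h11
  have h12 : d ∈ ratZero E (i + 1) P := by
    have := add_mem h11 hρ
    rwa [sub_add_cancel] at this
  have h13 : resCyc B.j d ∈ ratZero E (i + 1) B.U := resCyc_ratZero B.j d h12
  exact hL4 k E i B.U X B.L α (resCyc B.j d) (hPCY.2.2.1 k E i P X B α d hd) h13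

end CUB


end

section

/-!
# CUB2, module OPEN: injectivity of the cycle class map for open subvarieties
-/

set_option autoImplicit false

open CategoryTheory AlgebraicGeometry Limits Polynomial TopologicalSpace

namespace CUB

open Pool.Agent.Lib_helper55.Beil Pool.Agent.Lib_helper66.OneP

universe v

namespace OPEN

variable {k E : Type} [Field k] [Field E] {i : ℕ}

/-- Semisimplicity and surjectivity: the generalised eigenspace is spanned by cycle classes. -/
lemma good (T : Homology.{v} k E i) (X : Var k) (hs : T.Surj X) (hss : T.Semisimple X) :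
    T.gen X ≤ T.alg X := by
  intro m hm
  obtain ⟨n, hn⟩ := (mem_maxGen_iff _ _).mp hm
  have key : ∀ n : ℕ, ((T.frob (2 * i) X - 1) ^ n) m = 0 → T.frob (2 * i) X m = m := by
    intro n
    induction n with
    | zero =>
      intro h
      have h0 : m = 0 := h
      rw [h0, map_zero]
    | succ n ih =>
      intro h
      cases n with
      | zero =>
        rw [zero_add, pow_one, LinearMap.sub_apply, Module.End.one_apply] at h
        exact sub_eq_zero.mp h
      | succ n =>
        apply ih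
        set m' := ((T.frob (2 * i) X - 1) ^ n) m with hm'
        have h1 : ((T.frob (2 * i) X - 1) ^ (n + 1)) m = T.frob (2 * i) X m' - m' := by
          rw [pow_succ', Module.End.mul_apply, ← hm', LinearMap.sub_apply, Module.End.one_apply]
        have h2 : ((T.frob (2 * i) X - 1) ^ (n + 1 + 1)) m =
            T.frob (2 * i) X (T.frob (2 * i) X m' - m') - (T.frob (2 * i) X m' - m') := by
          rw [pow_succ', Module.End.mul_apply, h1, LinearMap.sub_apply, Module.End.one_apply]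
        rw [h2] at h
        have h3 : T.frob (2 * i) X m' = m' := hss m' (sub_eq_zero.mp h)
        rw [h1, h3, sub_self]
  obtain ⟨a, ha⟩ := hs m (key n hn)
  rw [← ha]
  exact T.clMap_mem_alg X a

end OPEN

theorem t_OPEN : S_OPEN.{v} := by
  intro k E _ _ i T U X j hgood hX
  exact injC_open T (fun Z => OPEN.good T Z (hgood Z).1 (hgood Z).2) j hX

end CUB


end

section

/-!
# CUB2, module MOD: modifications
-/

set_option autoImplicit false

open CategoryTheory AlgebraicGeometry Limits Polynomial TopologicalSpace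

namespace CUB

open Pool.Agent.Lib_helper55.Beil Pool.Agent.Lib_helper66.OneP

universe v

namespace MOD

variable {k E : Type} [Field k] [Field E] {i : ℕ}

lemma frob_cls (T : Homology.{v} k E i) (X : Var k) (c : Pts i X →₀ E) :
    T.frob (2 * i) X (clz T X c) = clz T X c := by
  induction c using Finsupp.induction_linear with
  | zero =>
    have : clz T X 0 = 0 := map_zero _
    rw [this, map_zero]
  | add f g hf hg =>
    have : clz T X (f + g) = clz T X f + clz T X g := map_add _ _ _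
    rw [this, map_add, hf, hg]
  | single p e =>
    have h1 : clz T X (Finsupp.single p e) = e • T.cl X p :=
      Finsupp.linearCombination_single _ _ _
    rw [h1, map_smul, T.frob_cl]

variable {X' X : Var k} (M : Modif X' X)

/-- the degree is one over the open part -/
lemma deg_one (u : M.U'.X) : M.f.deg (M.j'.g u) = 1 := by
  unfold PrMor.deg
  have h3 := Scheme.residueFieldMap_comp M.j'.g M.f.g u
  have i1 : IsPreimmersion (M.j'.g ≫ M.f.g) := by
    rw [M.hU.w]
    infer_instance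
  have b1 := residueFieldMap_bijective (M.j'.g ≫ M.f.g) u
  have b2 := residueFieldMap_bijective M.j'.g u
  let : Algebra (X.X.residueField (M.f.g (M.j'.g u))) (X'.X.residueField (M.j'.g u)) :=
    (M.f.g.residueFieldMap (M.j'.g u)).hom.toAlgebra
  have h1 : Function.Bijective (algebraMap (X.X.residueField (M.f.g (M.j'.g u)))
      (X'.X.residueField (M.j'.g u))) := by
    have h4 : Function.Bijective
        ((M.j'.g.residueFieldMap u).hom ∘ (M.f.g.residueFieldMap (M.j'.g u)).hom) := by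
      have h5 := congrArg CommRingCat.Hom.hom h3
      rw [h5] at b1
      exact b1
    exact (Function.Bijective.of_comp_iff' b2 _).mp h4
  exact (LinearEquiv.finrank_eq (AlgEquiv.ofBijective (Algebra.ofId _ _) h1).toLinearEquiv).symm.trans
    (Module.finrank_self _)

/-- the points over the open part -/
lemma pt_unique (x : X'.X) (u : M.U.X) (h : M.f.g x = M.j.g u) :
    ∃ u' : M.U'.X, M.j'.g u' = x ∧ M.fU.e.hom u' = u := by
  by_cases hx : x ∈ Set.range M.j'.g
  · obtain ⟨u', rfl⟩ := hx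
    refine ⟨u', rfl, ?_⟩
    have h1 : M.j.g (M.fU.e.hom u') = M.j.g u := by
      rw [← h, ← Scheme.Hom.comp_apply, ← Scheme.Hom.comp_apply, M.hU.w]
    exact M.j.g.isOpenEmbedding.injective h1
  · exfalso
    have h1 : x ∈ Set.range M.a'.g := by
      rw [show Set.range M.a'.g = (Set.range M.j'.g)ᶜ from M.h']
      exact hx
    obtain ⟨z, rfl⟩ := h1
    have h2 : M.f.g (M.a'.g z) ∈ Set.range M.a.g := by
      rw [← Scheme.Hom.comp_apply, M.hZ, Scheme.Hom.comp_apply]
      exact ⟨_, rfl⟩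
    rw [show Set.range M.a.g = (Set.range M.j.g)ᶜ from M.h] at h2
    exact h2 ⟨u, h.symm⟩

lemma res_pfc (hPFC : S_PFC.{v}) (α : Pts i X →₀ E) (α' : Pts i X' →₀ E)
    (hα' : resCyc M.j' α' = Finsupp.mapDomain (M.fU.pts i).symm (resCyc M.j α)) :
    resCyc M.j (pfc E i M.f α') = resCyc M.j α := by
  classical
  obtain ⟨-, -, -, -, -, p6⟩ := hPFC
  ext u
  obtain ⟨u', hu'⟩ : ∃ u', u' = (M.fU.pts i).symm u := ⟨_, rfl⟩
  have e1 : M.fU.pts i u' = u := by rw [hu', Equiv.apply_symm_apply]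
  have e2 : M.fU.e.hom u'.1 = u.1 := congrArg Subtype.val e1
  have e3 : M.f.g (ptsMapO i M.j' u').1 = (ptsMapO i M.j u).1 := by
    change M.f.g (M.j'.g u'.1) = M.j.g u.1
    rw [← e2, ← Scheme.Hom.comp_apply, M.hU.w, Scheme.Hom.comp_apply]
  have e4 : α' (ptsMapO i M.j' u') = resCyc M.j α u := by
    have h1 := DFunLike.congr_fun hα' u'
    rw [resCyc_apply, hu', Finsupp.mapDomain_apply (M.fU.pts i).symm.injective] at h1
    rw [hu']
    exact h1
  rw [resCyc_apply, p6, ← e4, Finsupp.sum, Finset.sum_eq_single (ptsMapO i M.j' u')]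
  · rw [if_pos e3]
    have h2 : M.f.deg (ptsMapO i M.j' u').1 = 1 := deg_one M u'.1
    rw [h2, Nat.cast_one, mul_one]
  · intro x _ hx
    rw [if_neg, mul_zero]
    intro h
    apply hx
    obtain ⟨w, hw1, hw2⟩ := pt_unique M x.1 u.1 h
    have h3 : w = u'.1 := by
      have h4 : M.fU.e.hom w = M.fU.e.hom u'.1 := by rw [hw2, e2]
      exact M.fU.e.hom.homeomorph.injective h4
    apply Subtype.ext
    rw [← hw1, h3]
    rfl
  · intro hx
    rw [Finsupp.notMem_support_iff.mp hx, zero_mul]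

end MOD

open _root_.CUB.MOD in
theorem t_MOD : M_MOD.{v} := by
  intro hPFC k E _ _ T hT i X' X M hgood hX' hZ hpf
  have hres := fun α α' h => res_pfc (E := E) (i := i) M hPFC α α' h
  obtain ⟨-, p2, p3, p4, -, -⟩ := hPFC
  rw [injC_iff] at hX' hZ ⊢
  intro α hα
  change clz (T i) X α = 0 at hα
  obtain ⟨α', hα'⟩ := exists_resCyc M.j'
    (Finsupp.mapDomain (M.fU.pts i).symm (resCyc M.j α))
  have hkey := hres α α' hα'
  obtain ⟨β, hβ⟩ := exists_pushCyc M.a M.j M.h (α - pfc E i M.f α') (by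
    rw [map_sub, hkey, sub_self])
  -- push-forwards along closed immersions
  have hcl : ∀ (n : ℕ) {Z Y : Var k} (a : ClosedIn Z Y) (m : (T i).H n Z),
      hT.G i n (clPr a) m = (T i).push n a m := fun n _ _ a m => hT.pfClosed i n a (clPr a) rfl m
  have hcyc : ∀ {Z Y : Var k} (a : ClosedIn Z Y) (c : Pts i Z →₀ E),
      pfc E i (clPr a) c = pushCyc a c := fun a c => p3 k E i _ _ a (clPr a) rfl c
  -- the class of the strict transform
  have h1 : clz (T i) X (pfc E i M.f α') = hT.G i (2 * i) M.f (clz (T i) X' α') :=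
    p4 k E T hT i X' X M.f α'
  have h2 : (T i).res (2 * i) M.j (hT.G i (2 * i) M.f (clz (T i) X' α')) = 0 := by
    rw [← h1]
    have h3 := res_cls (T i) M.j (pfc E i M.f α')
    rw [hkey, ← res_cls (T i) M.j α] at h3
    rw [h3]
    change (T i).res (2 * i) M.j (clz (T i) X α) = 0
    rw [hα, map_zero]
  have h3 : (T i).res (2 * i) M.j' (clz (T i) X' α') = 0 := by
    have h4 := hT.pfRestriction i (2 * i) M.f M.fU.pr M.j' M.j M.hU (clz (T i) X' α')
    have h5 : hT.G i (2 * i) M.fU.pr ((T i).res (2 * i) M.j' (clz (T i) X' α')) = 0 :=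
      h4.symm.trans h2
    have h6 := hcl (2 * i) M.fU.cl ((T i).res (2 * i) M.j' (clz (T i) X' α'))
    have h7 : (T i).push (2 * i) M.fU.cl ((T i).res (2 * i) M.j' (clz (T i) X' α')) = 0 :=
      h6.symm.trans h5
    exact (push_viso_bijective (T i) (2 * i) M.fU).injective (h7.trans (map_zero _).symm)
  obtain ⟨δ₀, hδ₀⟩ := ((T i).exact_X (2 * i) M.a' M.j' M.h' _).mp h3
  obtain ⟨H, hH⟩ : ∃ H : PrMor M.Z' X, H.g = M.fZ.g ≫ M.a.g := ⟨M.fZ.trans (clPr M.a), rfl⟩
  have hH1 : ∀ (n : ℕ) (m : (T i).H n M.Z'),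
      (T i).push n M.a (hT.G i n M.fZ m) = hT.G i n H m := by
    intro n m
    rw [← hcl]
    exact hT.pfFunctorial i n M.fZ (clPr M.a) H hH.symm m
  have hH2 : ∀ (n : ℕ) (m : (T i).H n M.Z'),
      hT.G i n M.f ((T i).push n M.a' m) = hT.G i n H m := by
    intro n m
    rw [← hcl]
    exact hT.pfFunctorial i n (clPr M.a') M.f H (M.hZ.trans hH.symm) m
  have h4 : (T i).push (2 * i) M.a (hT.G i (2 * i) M.fZ δ₀ + clz (T i) M.Z β) = 0 := by
    rw [map_add, hH1, ← hH2, hδ₀, ← h1]
    have h5 := push_cls (T i) M.a β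
    rw [hβ] at h5
    rw [h5, cls_sub]
    change clz (T i) X (pfc E i M.f α') + (clz (T i) X α - clz (T i) X (pfc E i M.f α')) = 0
    rw [hα]
    abel
  obtain ⟨u, hu⟩ := (hT.bdExact i (2 * i) M.a M.j M.h _).mp h4
  obtain ⟨u', hu'⟩ := (push_viso_bijective (T i) (2 * i + 1) M.fU).surjective u
  have h5 : hT.G i (2 * i + 1) M.fU.pr u' = u := (hcl (2 * i + 1) M.fU.cl u').trans hu'
  have h6 := hT.pfBoundary i (2 * i) M.a' M.j' M.h' M.a M.j M.h M.fZ M.fU.pr M.f M.hZ M.hU.w u'
  rw [h5, hu] at h6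
  obtain ⟨δ, hδ⟩ : ∃ δ, δ = δ₀ - hT.B i (2 * i) M.a' M.j' M.h' u' := ⟨_, rfl⟩
  have h7 : (T i).push (2 * i) M.a' δ = clz (T i) X' α' := by
    have h8 : (T i).push (2 * i) M.a' (hT.B i (2 * i) M.a' M.j' M.h' u') = 0 :=
      (hT.bdExact i (2 * i) M.a' M.j' M.h' _).mpr ⟨u', rfl⟩
    rw [hδ, map_sub, h8, sub_zero]
    exact hδ₀
  have h8 : hT.G i (2 * i) M.fZ δ = -clz (T i) M.Z β := by
    have h9 : hT.G i (2 * i) M.fZ δ = hT.G i (2 * i) M.fZ δ₀ -
        hT.G i (2 * i) M.fZ (hT.B i (2 * i) M.a' M.j' M.h' u') := by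
      rw [hδ]
      exact map_sub (hT.pf i (2 * i) M.fZ) _ _
    rw [h9, h6]
    abel
  -- the component for the eigenvalue one
  obtain ⟨δ₁, hδ₁, h9⟩ := maxGen_lift ((T i).frob (2 * i) M.Z')
    (((T i).frob (2 * i) X').prodMap ((T i).frob (2 * i) M.Z))
    (((T i).push (2 * i) M.a').prod (hT.pf i (2 * i) M.fZ)) (by
      intro m
      apply Prod.ext
      · exact (T i).push_frob (2 * i) M.a' m
      · exact hT.pfFrobenius i (2 * i) M.fZ m) (m := δ) (by
      rw [mem_maxGen_iff]
      refine ⟨1, ?_⟩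
      rw [pow_one, LinearMap.sub_apply, Module.End.one_apply, sub_eq_zero]
      apply Prod.ext
      · change (T i).frob (2 * i) X' ((T i).push (2 * i) M.a' δ) = (T i).push (2 * i) M.a' δ
        rw [h7, frob_cls]
      · change (T i).frob (2 * i) M.Z (hT.G i (2 * i) M.fZ δ) = hT.G i (2 * i) M.fZ δ
        rw [h8, map_neg, frob_cls])
  have h10 : (T i).push (2 * i) M.a' δ₁ = clz (T i) X' α' :=
    (congrArg Prod.fst h9).trans h7
  have h11 : hT.G i (2 * i) M.fZ δ₁ = -clz (T i) M.Z β :=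
    (congrArg Prod.snd h9).trans h8
  obtain ⟨ε, hε⟩ := exists_cls (T i) M.Z' δ₁
    (OPEN.good (T i) M.Z' (hgood M.Z').1 (hgood M.Z').2 hδ₁)
  have h12 : α' - pushCyc M.a' ε ∈ ratZero E i X' := by
    apply hX'
    rw [cls_sub, ← push_cls, hε, h10]
    exact sub_self _
  have h13 : β + pfc E i M.fZ ε ∈ ratZero E i M.Z := by
    apply hZ
    rw [cls_add]
    have h14 := p4 k E T hT i M.Z' M.Z M.fZ ε
    change clz (T i) M.Z β + clz (T i) M.Z (pfc E i M.fZ ε) = 0
    rw [h14]
    have h15 : clz (T i) M.Z' ε = δ₁ := hε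
    rw [h15, h11, add_neg_cancel]
  have h14 : pfc E i M.f (pushCyc M.a' ε) = pushCyc M.a (pfc E i M.fZ ε) := by
    rw [← hcyc, ← hcyc, p2 k E i _ _ _ (clPr M.a') M.f H (M.hZ.trans hH.symm),
      p2 k E i _ _ _ M.fZ (clPr M.a) H hH.symm]
  have h15 : α = pfc E i M.f (α' - pushCyc M.a' ε) + pushCyc M.a (β + pfc E i M.fZ ε) := by
    rw [map_sub, h14]
    have h16 : pushCyc M.a (β + pfc E i M.fZ ε) =
        pushCyc M.a β + pushCyc M.a (pfc E i M.fZ ε) := Finsupp.mapDomain_add
    rw [h16, hβ]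
    abel
  rw [h15]
  exact add_mem (hpf _ h12) (pushCyc_ratZero M.a _ h13)

end CUB


end

section

/-!
# CUB2, module PCY: pull-back of cycles
-/

set_option autoImplicit false

open CategoryTheory AlgebraicGeometry Limits Polynomial TopologicalSpace

namespace CUB

open Pool.Agent.Lib_helper55.Beil Pool.Agent.Lib_helper66.OneP

universe v

namespace PCY

variable {k : Type} [Field k] {E : Type} [Field E]

/-- over every point there is exactly one point of the next dimension -/
def HQ {Y X : Var k} (q : Y.X ⟶ X.X) : Prop :=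
  ∀ x : X.X, ∃ y : Y.X, q y = x ∧ Y.dim y = X.dim x + 1 ∧
    ∀ y' : Y.X, q y' = x → Y.dim y' = X.dim x + 1 → y' = y

lemma exists_up {Y X : Var k} {q : Y.X ⟶ X.X} (hq : HQ q) (i : ℕ) (x : Pts i X) :
    ∃ y : Pts (i + 1) Y, q y.1 = x.1 ∧ ∀ y' : Pts (i + 1) Y, q y'.1 = x.1 → y' = y := by
  obtain ⟨y, h1, h2, h3⟩ := hq x.1
  have hx : X.dim x.1 = i := x.2
  refine ⟨⟨y, ?_⟩, h1, ?_⟩
  · rw [h2, hx]
    push_cast
    rfl
  · intro y' hy'
    apply Subtype.ext
    apply h3 y'.1 hy'
    have h4 : Y.dim y'.1 = ((i + 1 : ℕ) : Cardinal) := y'.2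
    rw [h4, hx]
    push_cast
    rfl

/-- the point of dimension `i + 1` over `x` -/
noncomputable def up {Y X : Var k} {q : Y.X ⟶ X.X} (hq : HQ q) (i : ℕ) (x : Pts i X) :
    Pts (i + 1) Y := (exists_up hq i x).choose

lemma up_q {Y X : Var k} {q : Y.X ⟶ X.X} (hq : HQ q) (i : ℕ) (x : Pts i X) :
    q (up hq i x).1 = x.1 := (exists_up hq i x).choose_spec.1

lemma up_unique {Y X : Var k} {q : Y.X ⟶ X.X} (hq : HQ q) (i : ℕ) (x : Pts i X)
    (y : Pts (i + 1) Y) (h : q y.1 = x.1) : y = up hq i x :=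
  (exists_up hq i x).choose_spec.2 y h

lemma up_inj {Y X : Var k} {q : Y.X ⟶ X.X} (hq : HQ q) (i : ℕ) :
    Function.Injective (up hq i : Pts i X → Pts (i + 1) Y) := by
  intro x x' h
  apply Subtype.ext
  rw [← up_q hq i x, ← up_q hq i x', h]

lemma isPullC_up {Y X : Var k} {q : Y.X ⟶ X.X} (hq : HQ q) (i : ℕ) (c : Pts i X →₀ E) :
    IsPullC q c (Finsupp.mapDomain (up hq i) c) := by
  intro y
  refine ⟨fun h => ?_, fun h => ?_⟩
  · have h1 : y = up hq i ⟨q y.1, h⟩ := up_unique hq i ⟨q y.1, h⟩ y rfl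
    conv_lhs => rw [h1]
    exact Finsupp.mapDomain_apply (up_inj hq i) c _
  · apply Finsupp.mapDomain_of_notMem_range
    rintro ⟨x, hx⟩
    apply h
    rw [← hx, up_q hq i x]
    exact x.2

lemma unique {Y X : Var k} {i : ℕ} {q : Y.X ⟶ X.X} {c : Pts i X →₀ E} {d d' : Pts (i + 1) Y →₀ E}
    (h : IsPullC q c d) (h' : IsPullC q c d') : d = d' := by
  ext y
  by_cases hy : X.dim (q y.1) = i
  · rw [(h y).1 hy, (h' y).1 hy]
  · rw [(h y).2 hy, (h' y).2 hy]

lemma hqLine (hL : S_LPT) {Y X : Var k} (L : Line Y X) : HQ L.q := by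
  intro x
  obtain ⟨y, h1, h2, -, h3⟩ := hL.2.1 k Y X L x
  exact ⟨y, h1, h2, h3⟩

lemma hqBun (hL : S_LPT) {P X : Var k} (B : PBun P X) : HQ B.p.g := by
  intro x
  obtain ⟨y, h1, h2, -, h3⟩ := hL.2.2.2 k P X B x
  exact ⟨y, h1, h2, h3⟩

end PCY

theorem t_PCY : M_PCY.{v} := by
  intro hP hL
  refine ⟨?_, ?_, ?_, ?_, ?_, ?_⟩
  · intro k E _ _ i Y X L c
    exact ⟨_, PCY.isPullC_up (PCY.hqLine hL L) i c⟩
  · intro k E _ _ i P X B c
    exact ⟨_, PCY.isPullC_up (PCY.hqBun hL B) i c⟩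
  · intro k E _ _ i P X B c d h y
    have hq : ∀ u : B.U.X, B.L.q u = B.p.g (B.j.g u) := by
      intro u
      rw [← B.hL]
      rfl
    have h1 := h (ptsMapO (i + 1) B.j y)
    have h2 : (ptsMapO (i + 1) B.j y).1 = B.j.g y.1 := rfl
    rw [resCyc_apply]
    refine ⟨fun h3 => ?_, fun h3 => ?_⟩
    · have h4 : X.dim (B.p.g (B.j.g y.1)) = i := by rw [← hq]; exact h3
      rw [h1.1 h4]
      congr 1
      apply Subtype.ext
      exact (hq y.1).symm
    · apply h1.2
      rw [h2, ← hq]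
      exact h3
  · intro k E _ _ i P X B c d h
    apply hP.2.2.2.2.1 k E (i + 1) P X B.p d
    intro x hx h1
    apply hx
    apply (h x).2
    rw [h1]
    intro h2
    have h3 : i + 1 = i := by exact_mod_cast h2
    omega
  · intro k E _ _ i Y X q c c' d d' h h'
    refine ⟨?_, ?_⟩
    · rintro rfl
      exact PCY.unique h h'
    · intro y
      refine ⟨fun h1 => ?_, fun h1 => ?_⟩
      · rw [Finsupp.add_apply, Finsupp.add_apply, (h y).1 h1, (h' y).1 h1]
      · rw [Finsupp.add_apply, (h y).2 h1, (h' y).2 h1, add_zero]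
  · intro k E _ _ T hT i Y X L c d h
    have hq := PCY.hqLine hL L
    have h1 : d = Finsupp.mapDomain (PCY.up hq i) c := PCY.unique h (PCY.isPullC_up hq i c)
    rw [h1]
    show Finsupp.linearCombination E ((T (i + 1)).cl Y) (Finsupp.mapDomain (PCY.up hq i) c) =
      hT.line i (2 * i) L (Finsupp.linearCombination E ((T i).cl X) c)
    rw [Finsupp.linearCombination_mapDomain, Finsupp.linearCombination_apply,
      Finsupp.linearCombination_apply, map_finsuppSum]
    refine Finsupp.sum_congr fun x _ => ?_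
    rw [map_smul]
    congr 1
    exact (hT.lineClass i L x (PCY.up hq i x) (PCY.up_q hq i x)).symm

end CUB


end

section

/-!
# CUB2, modules PPE: `Processed` is stable under composition
-/

set_option autoImplicit false

open CategoryTheory AlgebraicGeometry Limits Polynomial TopologicalSpace

namespace CUB

open Pool.Agent.Lib_helper55.Beil Pool.Agent.Lib_helper66.OneP

universe v

theorem t_PPE : S_PPE := by
  classical
  intro Z Y X₀ g f V h ⟨s, O, a, hO, hs, ha⟩
  refine ⟨s.image g.appTop.hom, g ⁻¹ᵁ O, g.app O a, ?_, ?_, ?_⟩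
  · rw [Scheme.Hom.comp_preimage]
    exact Scheme.Hom.preimage_mono g hO
  · intro z
    have h1 : z ∈ g ⁻¹ᵁ O ↔ g z ∈ O := Iff.rfl
    rw [h1, hs]
    constructor
    · rintro ⟨b, hb, hzb⟩
      refine ⟨g.appTop.hom b, Finset.mem_image_of_mem _ hb, ?_⟩
      have h2 : Z.basicOpen (g.appTop.hom b) = g ⁻¹ᵁ Y.basicOpen b := (Scheme.preimage_basicOpen_top g b).symm
      rw [h2]
      exact hzb
    · rintro ⟨b, hb, hzb⟩
      obtain ⟨c, hc, rfl⟩ := Finset.mem_image.1 hb
      refine ⟨c, hc, ?_⟩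
      have h2 : Z.basicOpen (g.appTop.hom c) = g ⁻¹ᵁ Y.basicOpen c := (Scheme.preimage_basicOpen_top g c).symm
      rw [h2] at hzb
      exact hzb
  · have h1 := g.naturality (homOfLE hO).op
    have h2 := ConcreteCategory.congr_hom h1 a
    rw [ConcreteCategory.comp_apply, ConcreteCategory.comp_apply, ha] at h2
    rw [Scheme.Hom.comp_app]
    exact h2.symm

end CUB


end

section

set_option autoImplicit false

open Polynomial

namespace QCV

open CUB

namespace FAM

/-- The map of polynomial rings. -/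
noncomputable def mpa {k R S : Type} [Field k] [CommRing R] [Algebra k R] [CommRing S]
    [Algebra k S] (n : ℕ) (ψ : R →ₐ[k] S) : MvPolynomial (Fin n) R →ₐ[k] MvPolynomial (Fin n) S where
  toRingHom := MvPolynomial.map ψ.toRingHom
  commutes' r := by
    rw [IsScalarTower.algebraMap_apply k R (MvPolynomial (Fin n) R),
      IsScalarTower.algebraMap_apply k S (MvPolynomial (Fin n) S)]
    change MvPolynomial.map ψ.toRingHom (MvPolynomial.C _) = MvPolynomial.C _
    rw [MvPolynomial.map_C]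
    congr 1
    exact ψ.commutes r

lemma mpa_apply {k R S : Type} [Field k] [CommRing R] [Algebra k R] [CommRing S]
    [Algebra k S] (n : ℕ) (ψ : R →ₐ[k] S) (x : MvPolynomial (Fin n) R) :
    mpa n ψ x = MvPolynomial.map ψ.toRingHom x := rfl

lemma map_span {R S ι : Type} [CommRing R] [CommRing S] (n : ℕ) (ψ : R →+* S)
    (f : ι → MvPolynomial (Fin n) R) :
    (Ideal.span (Set.range f)).map (MvPolynomial.map ψ) = Ideal.span (Set.range (mf ψ f)) := by
  rw [Ideal.map_span, ← Set.range_comp]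
  rfl

/-- The induced map. -/
noncomputable def ind {k R S ι : Type} [Field k] [CommRing R] [Algebra k R] [CommRing S]
    [Algebra k S] (n : ℕ) (ψ : R →ₐ[k] S) (f : ι → MvPolynomial (Fin n) R) :
    ER f →ₐ[k] ER (mf ψ.toRingHom f) :=
  Ideal.quotientMapₐ _ (mpa n ψ) (by
    rw [← Ideal.map_le_iff_le_comap]
    exact (map_span n ψ.toRingHom f).le)

lemma ind_mk {k R S ι : Type} [Field k] [CommRing R] [Algebra k R] [CommRing S]
    [Algebra k S] (n : ℕ) (ψ : R →ₐ[k] S) (f : ι → MvPolynomial (Fin n) R)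
    (x : MvPolynomial (Fin n) R) :
    ind n ψ f (Ideal.Quotient.mk _ x) = Ideal.Quotient.mk _ (MvPolynomial.map ψ.toRingHom x) := rfl

lemma ind_surj {k R S ι : Type} [Field k] [CommRing R] [Algebra k R] [CommRing S]
    [Algebra k S] (n : ℕ) (ψ : R →ₐ[k] S) (f : ι → MvPolynomial (Fin n) R)
    (h : Function.Surjective ψ) : Function.Surjective (ind n ψ f) := by
  intro y
  obtain ⟨y, rfl⟩ := Ideal.Quotient.mk_surjective y
  obtain ⟨x, rfl⟩ := MvPolynomial.map_surjective ψ.toRingHom h y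
  exact ⟨Ideal.Quotient.mk _ x, rfl⟩

lemma ind_ker {k R S ι : Type} [Field k] [CommRing R] [Algebra k R] [CommRing S]
    [Algebra k S] (n : ℕ) (ψ : R →ₐ[k] S) (f : ι → MvPolynomial (Fin n) R)
    (h : Function.Surjective ψ) (a : R) (ha : RingHom.ker ψ.toRingHom = Ideal.span {a}) :
    RingHom.ker (ind n ψ f).toRingHom =
      Ideal.span {(Ideal.Quotient.mk _ (MvPolynomial.C a) : ER f)} := by
  have hk : RingHom.ker (MvPolynomial.map (σ := Fin n) ψ.toRingHom) =
      Ideal.span {MvPolynomial.C a} := by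
    rw [MvPolynomial.ker_map, ha, Ideal.map_span, Set.image_singleton]
  apply le_antisymm
  · intro x hx
    obtain ⟨x, rfl⟩ := Ideal.Quotient.mk_surjective x
    have h1 : MvPolynomial.map ψ.toRingHom x ∈ Ideal.span (Set.range (mf ψ.toRingHom f)) := by
      rw [← Ideal.Quotient.eq_zero_iff_mem]
      exact hx
    rw [← map_span, Ideal.mem_map_iff_of_surjective _
      (MvPolynomial.map_surjective ψ.toRingHom h)] at h1
    obtain ⟨y, hy, hxy⟩ := h1
    have h2 : x - y ∈ Ideal.span {MvPolynomial.C a} := by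
      rw [← hk, RingHom.mem_ker, map_sub, hxy, sub_self]
    rw [Ideal.mem_span_singleton'] at h2
    obtain ⟨c, hc⟩ := h2
    have h3 : (Ideal.Quotient.mk (Ideal.span (Set.range f)) x) =
        Ideal.Quotient.mk _ c * Ideal.Quotient.mk _ (MvPolynomial.C a) := by
      rw [← map_mul, hc, map_sub, Ideal.Quotient.eq_zero_iff_mem.2 hy, sub_zero]
    rw [h3]
    exact Ideal.mul_mem_left _ _ (Ideal.mem_span_singleton_self _)
  · rw [Ideal.span_le]
    rintro _ rfl
    change ind n ψ f (Ideal.Quotient.mk _ (MvPolynomial.C a)) = 0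
    rw [ind_mk, MvPolynomial.map_C]
    have : ψ.toRingHom a = 0 := by
      rw [← RingHom.mem_ker, ha]
      exact Ideal.mem_span_singleton_self _
    rw [this, map_zero, map_zero]

attribute [local instance] MvPolynomial.algebraMvPolynomial in
lemma ind_away {k R S ι : Type} [Field k] [CommRing R] [Algebra k R] [CommRing S]
    [Algebra k S] (n : ℕ) (ψ : R →ₐ[k] S) (f : ι → MvPolynomial (Fin n) R) (a : R)
    (h : @IsLocalization.Away R _ a S _ ψ.toRingHom.toAlgebra) :
    @IsLocalization.Away (ER f) _ (Ideal.Quotient.mk _ (MvPolynomial.C a)) (ER (mf ψ.toRingHom f)) _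
      (ind n ψ f).toRingHom.toAlgebra := by
  let _i1 := ψ.toRingHom.toAlgebra
  have h' : IsLocalization.Away a S := h
  have hloc : IsLocalization ((Submonoid.powers a).map (MvPolynomial.C (σ := Fin n)))
      (MvPolynomial (Fin n) S) := MvPolynomial.isLocalization _ _
  have halg : algebraMap (MvPolynomial (Fin n) R) (MvPolynomial (Fin n) S) =
      MvPolynomial.map ψ.toRingHom := rfl
  let _i2 : Algebra (ER f) (ER (mf ψ.toRingHom f)) := (ind n ψ f).toRingHom.toAlgebra
  change IsLocalization.Away (Ideal.Quotient.mk _ (MvPolynomial.C a) : ER f) (ER (mf ψ.toRingHom f))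
  have hmap : ∀ x : MvPolynomial (Fin n) R, algebraMap (ER f) (ER (mf ψ.toRingHom f))
      (Ideal.Quotient.mk _ x) = Ideal.Quotient.mk _ (MvPolynomial.map ψ.toRingHom x) :=
    fun x => rfl
  have hpow : ∀ m : ℕ, ∃ s : (Submonoid.powers a).map (MvPolynomial.C (σ := Fin n)),
      (s : MvPolynomial (Fin n) R) = (MvPolynomial.C a) ^ m := fun m =>
    ⟨⟨(MvPolynomial.C a) ^ m, ⟨a ^ m, ⟨m, rfl⟩, by rw [map_pow]⟩⟩, rfl⟩
  have hpow' : ∀ s : (Submonoid.powers a).map (MvPolynomial.C (σ := Fin n)), ∃ m : ℕ,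
      (s : MvPolynomial (Fin n) R) = (MvPolynomial.C a) ^ m := by
    rintro ⟨_, _, ⟨m, rfl⟩, rfl⟩
    exact ⟨m, by simp⟩
  refine ⟨⟨?_, ?_, ?_⟩⟩
  · rintro ⟨_, m, rfl⟩
    change IsUnit (algebraMap _ _ ((Ideal.Quotient.mk _ (MvPolynomial.C a)) ^ m))
    rw [← map_pow, hmap]
    obtain ⟨s, hs⟩ := hpow m
    have := IsLocalization.map_units (MvPolynomial (Fin n) S) s
    rw [hs, halg] at this
    exact this.map _
  · intro z
    obtain ⟨z, rfl⟩ := Ideal.Quotient.mk_surjective z
    obtain ⟨⟨x, s⟩, hz⟩ := IsLocalization.surj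
      ((Submonoid.powers a).map (MvPolynomial.C (σ := Fin n))) z
    obtain ⟨m, hm⟩ := hpow' s
    refine ⟨⟨Ideal.Quotient.mk _ x, ⟨(Ideal.Quotient.mk _ (MvPolynomial.C a)) ^ m, m, rfl⟩⟩, ?_⟩
    change Ideal.Quotient.mk _ z * algebraMap (ER f) (ER (mf ψ.toRingHom f))
      ((Ideal.Quotient.mk _ (MvPolynomial.C a)) ^ m) =
      algebraMap (ER f) (ER (mf ψ.toRingHom f)) (Ideal.Quotient.mk _ x)
    rw [← map_pow, hmap, hmap, ← map_mul]
    congr 1
    simp only [hm, halg] at hz
    exact hz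
  · intro x y hxy
    obtain ⟨x, rfl⟩ := Ideal.Quotient.mk_surjective x
    obtain ⟨y, rfl⟩ := Ideal.Quotient.mk_surjective y
    rw [hmap, hmap, ← sub_eq_zero, ← map_sub, ← map_sub, Ideal.Quotient.eq_zero_iff_mem,
      ← map_span, ← halg] at hxy
    obtain ⟨⟨⟨w, hw⟩, s⟩, hws⟩ := (IsLocalization.mem_map_algebraMap_iff
      ((Submonoid.powers a).map (MvPolynomial.C (σ := Fin n))) (MvPolynomial (Fin n) S)).1 hxy
    rw [← map_mul] at hws
    obtain ⟨c, hc⟩ := IsLocalization.exists_of_eq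
      (M := (Submonoid.powers a).map (MvPolynomial.C (σ := Fin n))) hws
    obtain ⟨m, hm⟩ := hpow' s
    obtain ⟨l, hl⟩ := hpow' c
    have h1 : (MvPolynomial.C a) ^ (l + m) * (x - y) ∈ Ideal.span (Set.range f) := by
      have : (MvPolynomial.C a) ^ (l + m) * (x - y) =
          (c : MvPolynomial (Fin n) R) * ((x - y) * (s : MvPolynomial (Fin n) R)) := by
        rw [hm, hl]
        ring
      rw [this, hc]
      exact Ideal.mul_mem_left _ _ hw
    refine ⟨⟨(Ideal.Quotient.mk _ (MvPolynomial.C a)) ^ (l + m), l + m, rfl⟩, ?_⟩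
    change (Ideal.Quotient.mk _ (MvPolynomial.C a)) ^ (l + m) * Ideal.Quotient.mk _ x =
      (Ideal.Quotient.mk _ (MvPolynomial.C a)) ^ (l + m) * Ideal.Quotient.mk _ y
    rw [← sub_eq_zero, ← mul_sub, ← map_sub, ← map_pow, ← map_mul]
    exact Ideal.Quotient.eq_zero_iff_mem.2 h1

end FAM

theorem t_FAM : S_FAM := by
  refine ⟨?_, ?_⟩
  · intro k R Z U ι _ _ _ _ _ _ _ n a z u f hs
    exact ⟨FAM.ind n z f, FAM.ind n u f, FAM.ind_surj n z f hs.surj, FAM.ind_ker n z f hs.surj a hs.ker,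
      FAM.ind_away n u f a hs.away⟩
  · intro k R S ι _ _ _ _ _ n e f
    have hbij : Function.Bijective (FAM.ind n e.toAlgHom f) := by
      refine ⟨?_, FAM.ind_surj n _ f e.surjective⟩
      rw [injective_iff_map_eq_zero]
      intro x hx
      obtain ⟨x, rfl⟩ := Ideal.Quotient.mk_surjective x
      have h1 : MvPolynomial.map e.toAlgHom.toRingHom x ∈
          Ideal.span (Set.range (mf e.toAlgHom.toRingHom f)) := by
        rw [← Ideal.Quotient.eq_zero_iff_mem]
        exact hx
      rw [← FAM.map_span, Ideal.mem_map_iff_of_surjective _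
        (MvPolynomial.map_surjective e.toAlgHom.toRingHom e.surjective)] at h1
      obtain ⟨y, hy, hxy⟩ := h1
      have : y = x := MvPolynomial.map_injective _ e.injective hxy
      rw [← this]
      exact Ideal.Quotient.eq_zero_iff_mem.2 hy
    exact ⟨AlgEquiv.ofBijective _ hbij⟩

end QCV


end

section

set_option autoImplicit false

open Polynomial

namespace QCV

open CUB

theorem t_Q01 : M_Q01 := by
  intro hDLR hDLM hSPR hPLY k _ P d hP
  constructor
  · intro R _ _ _ f hR _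
    apply hP.base
    have h1 : DL k (MvPolynomial (Fin 0) R) d := hDLM k R d 0 hR
    exact hDLR.1 k _ _ d (Ideal.Quotient.mkₐ k _) (Ideal.Quotient.mkₐ_surjective k _) h1
  · intro R _ _ _ f hR hf
    refine hSPR k (Fin 1) P hP.toCls0 d 1 (fun _ _ _ => True) (fun _ _ _ _ _ _ _ => trivial) ?_ R f
      hR trivial
    intro D _ _ _ _ f hD _
    refine ⟨1, one_ne_zero, ?_⟩
    have hD' : DL k (Localization.Away (1 : D)) d :=
      hDLR.2.1 k D (Localization.Away (1 : D)) d 1 (awayHom k 1) (isLocalization_awayHom 1) hD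
    have hinj : Function.Injective (algebraMap D (Localization.Away (1 : D))) :=
      IsLocalization.injective _ (powers_le_nonZeroDivisors_of_noZeroDivisors one_ne_zero)
    have hdom : IsDomain (Localization.Away (1 : D)) :=
      IsLocalization.isDomain_localization
        (powers_le_nonZeroDivisors_of_noZeroDivisors one_ne_zero)
    by_cases h0 : f 0 = 0
    · refine (hPLY k P hP.toCls0 hP.line _ 1).2.1 (Fin 1) _ ?_ (hP.base _ hD')
      intro j
      fin_cases j
      change MvPolynomial.map _ (f 0) = 0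
      rw [h0, map_zero]
    · apply hP.base
      have h1 : mf (algebraMap D (Localization.Away (1 : D))) f 0 ≠ 0 := by
        change MvPolynomial.map _ (f 0) ≠ 0
        rw [Ne, ← map_zero (MvPolynomial.map (algebraMap D (Localization.Away (1 : D))))]
        exact fun h => h0 (MvPolynomial.map_injective _ hinj h)
      have h2 : DL k (MvPolynomial (Fin 1) (Localization.Away (1 : D))) (d + 1) :=
        hDLM k _ d 1 hD'
      have h3 := hDLR.2.2.2.2 k (MvPolynomial (Fin 1) (Localization.Away (1 : D))) d _ h1 h2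
      have hle : Ideal.span {mf (algebraMap D (Localization.Away (1 : D))) f 0} ≤
          Ideal.span (Set.range (mf (algebraMap D (Localization.Away (1 : D))) f)) := by
        rw [Ideal.span_singleton_le_iff_mem]
        exact Ideal.subset_span ⟨0, rfl⟩
      exact hDLR.1 k _ _ d (Ideal.Quotient.factorₐ k hle) (Ideal.Quotient.factor_surjective hle) h3

end QCV


end
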