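import Mathlib
import Pool.Agent.QVM.C09
import Pool.Agent.QVM.C11

/-! Parts: QCV.G_DEF, QCV.DefsB, QCV.DefsD, QCV.Defs4, CUB2.G_FDM, CUB2.H_P0, QCV.R_DRI, QCV.R_LNF, QCV.R_NOE, QCV.Aux0, QCV.R_QST, QCV.R_SWP, QCV.R_TWQ, QCV.G_DEF2 -/

section

/-!
# QCV: definitions for the general form of the theorem (trivial normal bundles, etale pull-back)
-/

set_option autoImplicit false

open CategoryTheory AlgebraicGeometry

namespace QCV

open Pool.Agent.Lib_helper55.Beil Pool.Agent.Lib_helper66 CUB

universe v

variable {k : Type} [Field k] {E : Type} [Field E]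

/-- The push-forward along a section of a product with the affine line is zero (the normal bundle
of the section is trivial). -/
def SectionZero (T : ∀ i : ℕ, Homology.{v} k E i) : Prop :=
  ∀ (i n : ℕ) {Y X : Var k} (L : Line Y X) (s : ClosedIn X Y), s.g ≫ L.q = 𝟙 X.X →
    ∀ m : (T i).H n X, (T i).P n s m = 0

/-- Pull-back maps along finite etale surjective morphisms. -/
structure EtMaps (T : ∀ i : ℕ, Homology.{v} k E i) where
  /-- the pull-back -/
  pb : ∀ (i n : ℕ) {V U : Var k}, OneP.FinEt V U → ((T i).H n U →ₗ[E] (T i).H n V)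

/-- A finite etale surjective morphism as a proper morphism. -/
def etPr {V U : Var k} (f : OneP.FinEt V U) : PrMor V U where
  g := f.g
  comm := f.comm
  proper := by
    have := f.fin
    infer_instance

section

variable {T : ∀ i : ℕ, Homology.{v} k E i}

/-- The pull-back of a homology class along a finite etale surjective morphism. -/
def EtMaps.Q (S : EtMaps T) (i n : ℕ) {V U : Var k} (f : OneP.FinEt V U) (m : (T i).H n U) :
    (T i).H n V :=
  S.pb i n f m

/-- The pull-back commutes with Frobenius. -/
def EtMaps.Frobenius (S : EtMaps T) : Prop :=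
  ∀ (i n : ℕ) {V U : Var k} (f : OneP.FinEt V U) (m : (T i).H n U),
    S.Q i n f ((T i).F n U m) = (T i).F n V (S.Q i n f m)

/-- If `U` is integral, the push-forward of the pull-back is the multiplication by a positive
integer (the degree). -/
def EtMaps.Degree (S : EtMaps T) (G : ProperMaps T) : Prop :=
  ∀ {V U : Var k} (f : OneP.FinEt V U), IsIntegral U.X → ∃ D : ℕ, D ≠ 0 ∧
    ∀ (i n : ℕ) (m : (T i).H n U), G.G i n (etPr f) (S.Q i n f m) = (D : E) • m

/-- There are pull-back maps along finite etale surjective morphisms, which commute with Frobenius,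
and their composition with the push-forward is the multiplication by the degree. -/
def EtPull (T : ∀ i : ℕ, Homology.{v} k E i) (G : ProperMaps T) : Prop :=
  ∃ S : EtMaps T, S.Frobenius ∧ S.Degree G

end

end QCV


end

section

/-!
# QCV, block B: line bundles
-/

set_option autoImplicit false

open CategoryTheory AlgebraicGeometry Limits

namespace QCV

open Pool.Agent.Lib_helper55.Beil CUB

universe v

variable {k : Type} [Field k]

/-- `Y → X` is, locally on `X`, the product with the affine line (for example a line bundle). -/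
structure Bun (Y X : Var k) where
  /-- the projection -/
  q : Y.X ⟶ X.X
  comm : q ≫ X.f = Y.f
  loc : ∀ x : X.X, ∃ (W V : Var k) (L : Line W V) (l : OpenIn W Y) (j : OpenIn V X),
    IsPullback L.q l.g j.g q ∧ x ∈ Set.range j.g

variable {E : Type} [Field E]

/-- Pull-back maps along line bundles. -/
structure BunMaps (T : ∀ i : ℕ, Homology.{v} k E i) where
  /-- the pull-back -/
  pb : ∀ (i n : ℕ) {Y X : Var k}, Bun Y X → ((T i).H n X →ₗ[E] (T (i + 1)).H (n + 2) Y)

section

variable {T : ∀ i : ℕ, Homology.{v} k E i}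

/-- The pull-back of a homology class along a line bundle. -/
noncomputable def BunMaps.V (S : BunMaps T) (i n : ℕ) {Y X : Var k} (B : Bun Y X)
    (m : (T i).H n X) : (T (i + 1)).H (n + 2) Y :=
  S.pb i n B m

/-- The pull-back commutes with Frobenius. -/
def BunMaps.Frobenius (S : BunMaps T) : Prop :=
  ∀ (i n : ℕ) {Y X : Var k} (B : Bun Y X) (m : (T i).H n X),
    S.V i n B ((T i).F n X m) = (T (i + 1)).F (n + 2) Y (S.V i n B m)

/-- Homotopy invariance. -/
def BunMaps.Bij (S : BunMaps T) : Prop :=
  ∀ (i n : ℕ) {Y X : Var k} (B : Bun Y X), Function.Bijective (S.V i n B)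

/-- For a product with the affine line it is the given pull-back. -/
def BunMaps.Lines (S : BunMaps T) (M : ExtraMaps T) : Prop :=
  ∀ (i n : ℕ) {Y X : Var k} (B : Bun Y X) (L : Line Y X), B.q = L.q →
    ∀ m, S.V i n B m = M.L i n L m

/-- The pull-back is compatible with restriction to open subvarieties. -/
def BunMaps.Restriction (S : BunMaps T) : Prop :=
  ∀ (i n : ℕ) {Y X Y' X' : Var k} (B : Bun Y X) (B' : Bun Y' X') (l : OpenIn Y' Y)
    (j : OpenIn X' X), IsPullback B'.q l.g j.g B.q →
    ∀ m, (T (i + 1)).R (n + 2) l (S.V i n B m) = S.V i n B' ((T i).R n j m)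

/-- The pull-back is compatible with the push-forward along proper morphisms. -/
def BunMaps.Push (S : BunMaps T) (G : ProperMaps T) : Prop :=
  ∀ (i n : ℕ) {Y X Y' X' : Var k} (B : Bun Y X) (B' : Bun Y' X') (r : PrMor Y' Y)
    (s : PrMor X' X), IsPullback B'.q r.g s.g B.q →
    ∀ m, S.V i n B (G.G i n s m) = G.G (i + 1) (n + 2) r (S.V i n B' m)

/-- The pull-back is compatible with the boundary maps. -/
def BunMaps.Boundary (S : BunMaps T) (M : ExtraMaps T) : Prop :=
  ∀ (i n : ℕ) {Z U X Z' U' X' : Var k} (a : ClosedIn Z X) (j : OpenIn U X)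
    (h : Complementary a j) (a' : ClosedIn Z' X') (j' : OpenIn U' X') (h' : Complementary a' j')
    (BZ : Bun Z' Z) (BU : Bun U' U) (B : Bun X' X), IsPullback BZ.q a'.g a.g B.q →
    IsPullback BU.q j'.g j.g B.q →
    ∀ u, S.V i n BZ (M.B i n a j h u) = M.B (i + 1) (n + 2) a' j' h' (S.V i (n + 1) BU u)

/-- The usual properties of the pull-back along line bundles. -/
def BunMaps.Good (S : BunMaps T) (hT : Full T) : Prop :=
  S.Frobenius ∧ S.Bij ∧ S.Lines hT.toExtraMaps ∧ S.Restriction ∧ S.Push hT.toProperMaps ∧
    S.Boundary hT.toExtraMaps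

end

end QCV


end

section

/-!
# QCV: diagonal quadratic forms
-/

set_option autoImplicit false

namespace QCV

/-- The diagonal quadratic form `a_0 x_0 ^ 2 + ... + a_(n-1) x_(n-1) ^ 2`. -/
noncomputable def dia {A : Type} [CommRing A] {n : ℕ} (a : Fin n → A) : MvPolynomial (Fin n) A :=
  ∑ j, MvPolynomial.C (a j) * MvPolynomial.X j ^ 2

end QCV


end

section

/-!
# QCV: the class of varieties of the final statement
-/

set_option autoImplicit false

open CategoryTheory AlgebraicGeometry Polynomial

namespace QCV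

open Pool.Agent.Lib_helper55.Beil Pool.Agent.Lib_helper66.OneP CUB

/-- The class of varieties over `k` which is built from the varieties of dimension at most `d` by
cutting and pasting, products with the affine line, descent along products with the affine line,
double covers and finite etale coverings, passage from the complement of the zero section of a line
bundle to the base, quadric cones in an odd number of variables over a member, quadric cones in an
even number of variables if the discriminant double cover of the base is a member, and passage from the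
hypersurface `y ^ 2 - y = t_0 f_0 + ... + t_m f_m` to `f_0 = ... = f_m = 0`. -/
inductive Member (k : Type) [Field k] (d : ℕ) : Var k → Prop
  /-- varieties of dimension at most `d` -/
  | small (X : Var k) : X.DimLE d → Member k d X
  /-- isomorphic varieties -/
  | iso {X Y : Var k} : VIso X Y → Member k d X → Member k d Y
  /-- a closed subvariety with the same points (for example the reduced subvariety) -/
  | nil {Z X : Var k} (a : ClosedIn Z X) : Function.Surjective a.g → Member k d X → Member k d Z
  /-- `X` is the disjoint union of the closed subvariety `Z` and the open subvariety `U` -/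
  | paste {Z U X : Var k} (a : ClosedIn Z X) (j : OpenIn U X) : Complementary a j →
      Member k d Z → Member k d U → Member k d X
  /-- the complement of the closed subvariety `Z` of `X` -/
  | cut {Z U X : Var k} (a : ClosedIn Z X) (j : OpenIn U X) : Complementary a j →
      Member k d X → Member k d Z → Member k d U
  /-- the product with the affine line -/
  | line (A : Type) [CommRing A] [Algebra k A] [Algebra.FiniteType k A] :
      Member k d (aff k A) → Member k d (aff k A[X])
  /-- descent from the product `Y` of `X` and the affine line to `X` -/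
  | unline {Y X : Var k} (L : Line Y X) : Member k d Y → Member k d X
  /-- descent along the double cover `Spec A[t] / (t ^ 2 + b t + c) → Spec A` -/
  | cover (A : Type) [CommRing A] [Algebra k A] [Algebra.FiniteType k A] (b c : A) :
      Member k d (aff k (Dr A b c)) → Member k d (aff k A)
  /-- descent along the finite etale covering `V → U` of an integral variety -/
  | etale {V U : Var k} (f : Pool.Agent.Lib_helper66.OneP.FinEt V U) : IsIntegral U.X →
      Member k d V → Member k d U
  /-- the base `X` of a line bundle `Y → X`, if the complement `U` of the section `s` belongs to the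
  class -/
  | bundle {Y X U : Var k} (B : Bun Y X) (s : ClosedIn X Y) (j : OpenIn U Y) :
      s.g ≫ B.q = 𝟙 X.X → Complementary s j → Member k d U → Member k d X
  /-- the quadric cone `a_0 x_0 ^ 2 + ... + a_2m x_2m ^ 2 = 0` over `Spec A`, where the `a_j` are
  units of `A` -/
  | odd (A : Type) [CommRing A] [Algebra k A] [Algebra.FiniteType k A] (m : ℕ)
      (a : Fin (2 * m + 1) → A) : (∀ j, IsUnit (a j)) → Member k d (aff k A) →
      Member k d (aff k (MvPolynomial (Fin (2 * m + 1)) A ⧸ Ideal.span {dia a}))
  /-- the quadric cone `a_0 x_0 ^ 2 + ... + a_(2m-1) x_(2m-1) ^ 2 = 0` over `Spec A`, where the `a_j` are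
  units of `A`, if the double cover `t ^ 2 = (-1) ^ m a_0 ... a_(2m-1)` of `Spec A` belongs to the class
  (characteristic different from two) -/
  | even (A : Type) [CommRing A] [Algebra k A] [Algebra.FiniteType k A] (m : ℕ)
      (a : Fin (2 * m) → A) : (2 : k) ≠ 0 → (∀ j, IsUnit (a j)) →
      Member k d (aff k (Dr A 0 ((-1) ^ (m + 1) * ∏ j, a j))) →
      Member k d (aff k (MvPolynomial (Fin (2 * m)) A ⧸ Ideal.span {dia a}))
  /-- the subvariety `f_0 = ... = f_m = 0` of `Spec A`, if the hypersurface
  `y ^ 2 - y = t_0 f_0 + ... + t_m f_m` in the product with the affine space of dimension `m + 2`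
  belongs to the class -/
  | zeros (A : Type) [CommRing A] [Algebra k A] [Algebra.FiniteType k A] (m : ℕ)
      (f : Fin (m + 1) → A) : Member k d (aff k (VR A f)) →
      Member k d (aff k (A ⧸ Ideal.span (Set.range f)))

end QCV


end

section

/-!
# CUB2, module FDM: varieties have finite dimension
-/

set_option autoImplicit false

open CategoryTheory AlgebraicGeometry Limits Polynomial TopologicalSpace

namespace CUB

open Pool.Agent.Lib_helper55.Beil Pool.Agent.Lib_helper66.OneP

namespace FDM

/-- The dimension of a point is finite. -/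
theorem exists_dim {k : Type} [Field k] (X : Var k) (x : X.X) : ∃ n : ℕ, X.dim x = n := by
  obtain ⟨U, hU, hx, -⟩ := exists_isAffineOpen_mem_and_subset (U := ⊤) (x := x) trivial
  have hA : IsAffine (openVar X U).X := hU
  obtain ⟨A, i1, i2, i3, ⟨s⟩⟩ := exists_aff (openVar X U)
  let y : (openVar X U).X := ⟨x, hx⟩
  have hy : (openVarIn X U).g y = x := rfl
  have h1 := dim_map (openVarIn X U).g (openVarIn X U).comm y
  rw [hy] at h1
  have h2 := dim_map s.symm.e.hom s.symm.comm y
  obtain ⟨n, hn⟩ := exists_rdim (k := k) (ofPt (k := k) (s.symm.e.hom y))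
  refine ⟨n, ?_⟩
  rw [h1, ← h2, ← hn, ← dim_toPt]
  rfl

/-- The dimension is bounded on irreducible closed subsets. -/
theorem bounded {k : Type} [Field k] (X : Var k) (C : Set X.X) (h1 : IsIrreducible C)
    (h2 : IsClosed C) : ∃ n : ℕ, ∀ x ∈ C, X.dim x ≤ n := by
  obtain ⟨η, hη⟩ := QuasiSober.sober h1 h2
  obtain ⟨n, hn⟩ := exists_dim X η
  refine ⟨n, fun x hx => ?_⟩
  rw [← hn]
  apply dim_le_of_specializes
  rw [specializes_iff_mem_closure, hη.def]
  exact hx

end FDM

/-- FDM. -/
theorem t_FDM : S_FDM := by
  intro k _ X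
  have h1 : ∀ C : Set X.X, C ∈ irreducibleComponents X.X → ∃ n : ℕ, ∀ x ∈ C, X.dim x ≤ n :=
    fun C hC => FDM.bounded X C hC.1 (isClosed_of_mem_irreducibleComponents C hC)
  choose! f hf using h1
  have h2 : (irreducibleComponents X.X).Finite :=
    TopologicalSpace.NoetherianSpace.finite_irreducibleComponents
  obtain ⟨N, hN⟩ := (h2.image f).bddAbove
  refine ⟨N, fun x => ?_⟩
  have h3 : irreducibleComponent x ∈ irreducibleComponents X.X :=
    irreducibleComponent_mem_irreducibleComponents x
  refine (hf _ h3 x mem_irreducibleComponent).trans ?_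
  exact_mod_cast hN ⟨_, h3, rfl⟩

end CUB


end

section

/-!
# CUB2, module P0: injectivity of the cycle class map in dimension at most `i`
-/

set_option autoImplicit false

open CategoryTheory AlgebraicGeometry Limits Polynomial TopologicalSpace

namespace CUB

open Pool.Agent.Lib_helper55.Beil Pool.Agent.Lib_helper66.OneP

universe v

namespace P0

variable {k E : Type} [Field k] [Field E]

/-- There is nothing rationally equivalent to zero in dimension `i` on a variety of dimension at
most `i`. -/
lemma ratZero_eq_bot (i : ℕ) (U : Var k) (h : U.DimLE i) : ratZero E i U = ⊥ := by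
  unfold ratZero
  rw [Submodule.span_eq_bot]
  rintro c ⟨W, hW, a, φ, hd, -, -⟩
  exfalso
  have h1 : U.dim (a.g (genericPoint W.X)) = W.dim (genericPoint W.X) := dim_map a.g a.comm _
  have h2 := h (a.g (genericPoint W.X))
  rw [h1, hd] at h2
  have h3 : i + 1 ≤ i := by exact_mod_cast h2
  omega

lemma integral (hDST : S_DST) (T : ∀ i : ℕ, Homology.{v} k E i) (i : ℕ)
    (haff : ∀ X : Var k, IsAffine X.X → (T i).InjC X) (V : Var k) (hV : IsIntegral V.X)
    (hdim : V.DimLE i) : (T i).InjC V := by
  rw [injC_iff]
  intro c hc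
  obtain ⟨U, hU, hxU, -⟩ := exists_isAffineOpen_mem_and_subset
    (x := genericPoint V.X) (U := ⊤) trivial
  have hUaff : IsAffine (openVar V U).X := hU
  have hUdim : (openVar V U).DimLE i := by
    intro u
    have h1 : V.dim ((openVarIn V U).g u) = (openVar V U).dim u :=
      dim_map (openVarIn V U).g (openVarIn V U).comm u
    rw [← h1]
    exact hdim _
  have h2 : clz (T i) (openVar V U) (resCyc (openVarIn V U) c) = 0 := by
    have h3 := res_cls (T i) (openVarIn V U) c
    rw [hc, map_zero] at h3
    exact h3.symm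
  have h4 : resCyc (openVarIn V U) c ∈ ratZero E i (openVar V U) :=
    (injC_iff (T i) _).mp (haff _ hUaff) _ h2
  rw [ratZero_eq_bot i _ hUdim, Submodule.mem_bot] at h4
  have h5 : c = 0 := by
    ext x
    have hx : x.1 = genericPoint V.X := hDST.2.2.2 k i V hV x.1 hdim x.2
    have h6 : x.1 ∈ Set.range (openVarIn V U).g := by
      rw [range_openVarIn, hx]
      exact hxU
    obtain ⟨u, rfl⟩ := mem_range_ptsMapO (openVarIn V U) x h6
    rw [← resCyc_apply, h4]
    rfl
  rw [h5]
  exact Submodule.zero_mem _

end P0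

theorem t_P0 : M_P0.{v} := by
  intro hDST hREDI k E _ _ T hT i hSS haff X hX
  apply hREDI k E T hT i X hSS
  intro V hV a
  apply P0.integral hDST T i haff V hV
  intro x
  have h1 : X.dim (a.g x) = V.dim x := dim_map a.g a.comm x
  rw [← h1]
  exact hX _

end CUB


end

section

/-!
# QCV: double covers of the base (`S_DRI`)
-/

set_option autoImplicit false

open CategoryTheory AlgebraicGeometry Polynomial

namespace QCV

namespace DRI

variable {k R ι : Type} [Field k] [CommRing R] [Algebra k R] {n : ℕ}
  (f : ι → MvPolynomial (Fin n) R) (b c : R)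

/-- The double cover of the family. -/
abbrev A0 : Type := Dr (ER f) (Ideal.Quotient.mk _ (MvPolynomial.C b))
  (Ideal.Quotient.mk _ (MvPolynomial.C c))

/-- The family over the double cover. -/
abbrev B0 : Type := ER (mf (algebraMap R (Dr R b c)) f)

theorem dpoly_eval {A B : Type} [CommRing A] [CommRing B] (φ : A →+* B) (b c : A) (x : B)
    (h : x ^ 2 + φ b * x + φ c = 0) : (dpoly b c).eval₂ φ x = 0 := by
  unfold dpoly
  simp only [Polynomial.eval₂_add, Polynomial.eval₂_mul, Polynomial.eval₂_pow,
    Polynomial.eval₂_X, Polynomial.eval₂_C]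
  exact h

theorem root_eq {A : Type} [CommRing A] (b c : A) :
    (AdjoinRoot.root (dpoly b c)) ^ 2 + AdjoinRoot.of (dpoly b c) b * AdjoinRoot.root (dpoly b c) +
      AdjoinRoot.of (dpoly b c) c = 0 := by
  have h := AdjoinRoot.eval₂_root (dpoly b c)
  unfold dpoly at h
  simp only [Polynomial.eval₂_add, Polynomial.eval₂_mul, Polynomial.eval₂_pow,
    Polynomial.eval₂_X, Polynomial.eval₂_C] at h
  exact h

/-- The base change map. -/
noncomputable def F0 : ER f →+* B0 f b c :=
  Ideal.Quotient.lift _ ((Ideal.Quotient.mk _).comp (MvPolynomial.map (algebraMap R (Dr R b c))))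
    (by
      have h : Ideal.span (Set.range f) ≤ RingHom.ker ((Ideal.Quotient.mk
          (Ideal.span (Set.range (mf (algebraMap R (Dr R b c)) f)))).comp
          (MvPolynomial.map (algebraMap R (Dr R b c)))) := by
        rw [Ideal.span_le]
        rintro _ ⟨j, rfl⟩
        rw [SetLike.mem_coe, RingHom.mem_ker, RingHom.comp_apply]
        exact Ideal.Quotient.eq_zero_iff_mem.2 (Ideal.subset_span ⟨j, rfl⟩)
      exact fun a ha => h ha)

/-- The map from the double cover of the family. -/
noncomputable def F1 : A0 f b c →+* B0 f b c :=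
  AdjoinRoot.lift (F0 f b c) (Ideal.Quotient.mk _ (MvPolynomial.C (AdjoinRoot.root (dpoly b c))))
    (dpoly_eval _ _ _ _ (by
      change Ideal.Quotient.mk (Ideal.span (Set.range (mf (algebraMap R (Dr R b c)) f)))
          (MvPolynomial.C (AdjoinRoot.root (dpoly b c))) ^ 2 +
        Ideal.Quotient.mk _ (MvPolynomial.map (algebraMap R (Dr R b c)) (MvPolynomial.C b)) *
          Ideal.Quotient.mk _ (MvPolynomial.C (AdjoinRoot.root (dpoly b c))) +
        Ideal.Quotient.mk _ (MvPolynomial.map (algebraMap R (Dr R b c)) (MvPolynomial.C c)) = 0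
      rw [MvPolynomial.map_C, MvPolynomial.map_C, ← map_pow, ← map_mul, ← map_add, ← map_add,
        ← map_pow, ← map_mul, ← map_add, ← map_add]
      have h := root_eq b c
      change AdjoinRoot.root (dpoly b c) ^ 2 + algebraMap R (Dr R b c) b *
        AdjoinRoot.root (dpoly b c) + algebraMap R (Dr R b c) c = 0 at h
      rw [h, map_zero, map_zero]))

/-- The map of the bases. -/
noncomputable def G0 : Dr R b c →+* A0 f b c :=
  AdjoinRoot.lift ((AdjoinRoot.of _).comp ((Ideal.Quotient.mk _).comp MvPolynomial.C))
    (AdjoinRoot.root _) (dpoly_eval _ _ _ _ (root_eq _ _))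

theorem G0_of (x : R) : G0 f b c (AdjoinRoot.of _ x) =
    AdjoinRoot.of _ (Ideal.Quotient.mk _ (MvPolynomial.C x)) :=
  AdjoinRoot.lift_of (f := dpoly b c) _

theorem G0_comp : (G0 f b c).comp (algebraMap R (Dr R b c)) =
    (AdjoinRoot.of (dpoly (Ideal.Quotient.mk (Ideal.span (Set.range f)) (MvPolynomial.C b))
      (Ideal.Quotient.mk _ (MvPolynomial.C c)))).comp
      ((Ideal.Quotient.mk _).comp MvPolynomial.C) := by
  refine RingHom.ext fun x => ?_
  exact G0_of f b c x

/-- The map to the double cover of the family. -/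
noncomputable def G1 : B0 f b c →+* A0 f b c :=
  Ideal.Quotient.lift _ (MvPolynomial.eval₂Hom (G0 f b c)
    (fun j => AdjoinRoot.of _ (Ideal.Quotient.mk _ (MvPolynomial.X j))))
    (by
      have h : Ideal.span (Set.range (mf (algebraMap R (Dr R b c)) f)) ≤
          RingHom.ker (MvPolynomial.eval₂Hom (G0 f b c) (fun j => AdjoinRoot.of
            (dpoly (Ideal.Quotient.mk (Ideal.span (Set.range f)) (MvPolynomial.C b))
              (Ideal.Quotient.mk _ (MvPolynomial.C c)))
            (Ideal.Quotient.mk _ (MvPolynomial.X j)))) := by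
        rw [Ideal.span_le]
        rintro _ ⟨j, rfl⟩
        rw [SetLike.mem_coe, RingHom.mem_ker]
        change MvPolynomial.eval₂Hom (G0 f b c) _ (MvPolynomial.map _ (f j)) = 0
        have h1 : (MvPolynomial.eval₂Hom (G0 f b c) (fun j => AdjoinRoot.of
            (dpoly (Ideal.Quotient.mk (Ideal.span (Set.range f)) (MvPolynomial.C b))
              (Ideal.Quotient.mk _ (MvPolynomial.C c)))
            (Ideal.Quotient.mk _ (MvPolynomial.X j)))).comp
            (MvPolynomial.map (algebraMap R (Dr R b c))) =
            (AdjoinRoot.of (dpoly (Ideal.Quotient.mk (Ideal.span (Set.range f)) (MvPolynomial.C b))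
              (Ideal.Quotient.mk _ (MvPolynomial.C c)))).comp (Ideal.Quotient.mk _) := by
          refine MvPolynomial.ringHom_ext (fun r => ?_) (fun i => ?_)
          · rw [RingHom.comp_apply, MvPolynomial.map_C, MvPolynomial.eval₂Hom_C]
            exact congrArg (fun φ : R →+* _ => φ r) (G0_comp f b c)
          · rw [RingHom.comp_apply, MvPolynomial.map_X, MvPolynomial.eval₂Hom_X']
            rfl
        have h2 := congrArg (fun φ : MvPolynomial (Fin n) R →+* _ => φ (f j)) h1
        refine h2.trans ?_
        change AdjoinRoot.of _ (Ideal.Quotient.mk _ (f j)) = 0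
        rw [(Ideal.Quotient.eq_zero_iff_mem (I := Ideal.span (Set.range f))).2
          (Ideal.subset_span (Set.mem_range_self j)), map_zero]
      exact fun a ha => h ha)

theorem F1_of (y : ER f) : F1 f b c (AdjoinRoot.of _ y) = F0 f b c y :=
  AdjoinRoot.lift_of (f := dpoly (Ideal.Quotient.mk (Ideal.span (Set.range f)) (MvPolynomial.C b))
    (Ideal.Quotient.mk _ (MvPolynomial.C c))) _

theorem F1_root : F1 f b c (AdjoinRoot.root _) =
    Ideal.Quotient.mk _ (MvPolynomial.C (AdjoinRoot.root (dpoly b c))) :=
  AdjoinRoot.lift_root (f := dpoly (Ideal.Quotient.mk (Ideal.span (Set.range f)) (MvPolynomial.C b))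
    (Ideal.Quotient.mk _ (MvPolynomial.C c))) _

theorem G0_root : G0 f b c (AdjoinRoot.root _) = AdjoinRoot.root _ :=
  AdjoinRoot.lift_root (f := dpoly b c) _

theorem G1_C (r : Dr R b c) : G1 f b c (Ideal.Quotient.mk _ (MvPolynomial.C r)) = G0 f b c r :=
  MvPolynomial.eval₂Hom_C _ _ _

theorem G1_X (i : Fin n) : G1 f b c (Ideal.Quotient.mk _ (MvPolynomial.X i)) =
    AdjoinRoot.of _ (Ideal.Quotient.mk _ (MvPolynomial.X i)) :=
  MvPolynomial.eval₂Hom_X' _ _ _

theorem F0_C (x : R) : F0 f b c (Ideal.Quotient.mk _ (MvPolynomial.C x)) =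
    Ideal.Quotient.mk _ (MvPolynomial.C (AdjoinRoot.of (dpoly b c) x)) := by
  change Ideal.Quotient.mk _ (MvPolynomial.map (algebraMap R (Dr R b c)) (MvPolynomial.C x)) = _
  rw [MvPolynomial.map_C]
  rfl

theorem F0_X (i : Fin n) : F0 f b c (Ideal.Quotient.mk _ (MvPolynomial.X i)) =
    Ideal.Quotient.mk _ (MvPolynomial.X i) := by
  change Ideal.Quotient.mk _ (MvPolynomial.map (algebraMap R (Dr R b c)) (MvPolynomial.X i)) = _
  rw [MvPolynomial.map_X]

theorem FG : (F1 f b c).comp (G1 f b c) = RingHom.id _ := by
  refine Ideal.Quotient.ringHom_ext ?_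
  refine MvPolynomial.ringHom_ext (fun r => ?_) (fun i => ?_)
  · have h : ((F1 f b c).comp (G1 f b c)).comp ((Ideal.Quotient.mk _).comp MvPolynomial.C) =
        (Ideal.Quotient.mk (Ideal.span (Set.range (mf (algebraMap R (Dr R b c)) f)))).comp
          MvPolynomial.C := by
      refine AdjoinRoot.ringHom_ext ?_ ?_
      · refine RingHom.ext fun x => ?_
        change F1 f b c (G1 f b c (Ideal.Quotient.mk _ (MvPolynomial.C (AdjoinRoot.of _ x)))) =
          Ideal.Quotient.mk _ (MvPolynomial.C (AdjoinRoot.of _ x))
        rw [G1_C, G0_of, F1_of, F0_C]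
      · change F1 f b c (G1 f b c (Ideal.Quotient.mk _ (MvPolynomial.C (AdjoinRoot.root _)))) =
          Ideal.Quotient.mk _ (MvPolynomial.C (AdjoinRoot.root _))
        rw [G1_C, G0_root, F1_root]
    exact congrArg (fun φ : Dr R b c →+* _ => φ r) h
  · change F1 f b c (G1 f b c (Ideal.Quotient.mk _ (MvPolynomial.X i))) =
      Ideal.Quotient.mk _ (MvPolynomial.X i)
    rw [G1_X, F1_of, F0_X]

theorem GF : (G1 f b c).comp (F1 f b c) = RingHom.id _ := by
  refine AdjoinRoot.ringHom_ext ?_ ?_
  · refine Ideal.Quotient.ringHom_ext ?_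
    refine MvPolynomial.ringHom_ext (fun r => ?_) (fun i => ?_)
    · change G1 f b c (F1 f b c (AdjoinRoot.of _ (Ideal.Quotient.mk _ (MvPolynomial.C r)))) =
        AdjoinRoot.of _ (Ideal.Quotient.mk _ (MvPolynomial.C r))
      rw [F1_of, F0_C, G1_C, G0_of]
    · change G1 f b c (F1 f b c (AdjoinRoot.of _ (Ideal.Quotient.mk _ (MvPolynomial.X i)))) =
        AdjoinRoot.of _ (Ideal.Quotient.mk _ (MvPolynomial.X i))
      rw [F1_of, F0_X, G1_X]
  · change G1 f b c (F1 f b c (AdjoinRoot.root _)) = AdjoinRoot.root _
    rw [F1_root, G1_C, G0_root]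

end DRI

open _root_.QCV.DRI in
/-- Module DRI. -/
theorem t_DRI : S_DRI := by
  intro k R ι _ _ _ n f b c
  refine ⟨AlgEquiv.ofRingEquiv (f := RingEquiv.ofRingHom (F1 f b c) (G1 f b c) (FG f b c)
    (GF f b c)) ?_⟩
  intro x
  change F1 f b c (AdjoinRoot.of _ (Ideal.Quotient.mk _ (MvPolynomial.C (algebraMap k R x)))) =
    Ideal.Quotient.mk _ (MvPolynomial.C (AdjoinRoot.of _ (algebraMap k R x)))
  rw [F1_of, F0_C]

end QCV


end

section

set_option autoImplicit false

open Polynomial

namespace QCV

open CUB

theorem t_LNF : M_LNF := by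
  intro hPLY hLNR k _ P d m hP hL R _ _ _ g h hR hg hh
  have hPS : P (MvPolynomial (Fin m) R) := (hPLY k P hP.toCls0 hP.line R m).1 (hP.base R hR)
  have h1 : P (MvPolynomial (Fin m) R ⧸ Ideal.span {g, h}) := by
    have := hL R ![g, h] hR hg hh
    have e : Ideal.span (Set.range ![g, h]) = Ideal.span {g, h} := by
      congr 1
      ext x
      simp only [Matrix.range_cons, Matrix.range_empty, Set.union_empty, Set.singleton_union]
    exact hP.iso (Ideal.quotientEquivAlgOfEq k e) this
  have h2 : P (MvPolynomial (Fin m) R ⧸ Ideal.span {g}) := by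
    have := hL R ![g, 0] hR hg (by simp)
    have e : Ideal.span (Set.range ![g, 0]) = Ideal.span {g} := by
      apply le_antisymm
      · rw [Ideal.span_le]
        rintro _ ⟨j, rfl⟩
        fin_cases j
        · exact Ideal.subset_span rfl
        · exact zero_mem _
      · rw [Ideal.span_le]
        rintro _ rfl
        exact Ideal.subset_span ⟨0, rfl⟩
    exact hP.iso (Ideal.quotientEquivAlgOfEq k e) this
  have h3 : P (Localization.Away g) := by
    refine hP.opn g (Ideal.Quotient.mkₐ k (Ideal.span {g})) (awayHom k g) ⟨?_, ?_, ?_⟩ hPS h2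
    · exact Ideal.Quotient.mkₐ_surjective k _
    · exact Ideal.mk_ker
    · exact isLocalization_awayHom g
  obtain ⟨z', u', hs⟩ := hLNR k (MvPolynomial (Fin m) R) (Localization.Away g) g h (awayHom k g)
    (isLocalization_awayHom g)
  exact hP.glue _ z' u' hs (hP.line _ h1) h3

end QCV


end

section

set_option autoImplicit false

open Polynomial

namespace QCV

open CUB

namespace NOE

variable {k R : Type} [Field k] [CommRing R] [Algebra k R]

lemma ker_factor {I J : Ideal R} (h : I ≤ J) (a : R) (hJ : J = I ⊔ Ideal.span {a}) :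
    RingHom.ker (Ideal.Quotient.factorₐ k h).toRingHom = Ideal.span {Ideal.Quotient.mk I a} := by
  have h1 : RingHom.ker (Ideal.Quotient.factorₐ k h).toRingHom = J.map (Ideal.Quotient.mk I) :=
    Ideal.Quotient.factor_ker h
  rw [h1, hJ, Ideal.map_sup, Ideal.map_quotient_self, bot_sup_eq, Ideal.map_span,
    Set.image_singleton]

lemma strat_away {I J : Ideal R} (h : I ≤ J) (a : R) (hJ : J = I ⊔ Ideal.span {a}) :
    Strat (Ideal.Quotient.mk I a) (Ideal.Quotient.factorₐ k h)
      (awayHom k (Ideal.Quotient.mk I a)) :=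
  ⟨Ideal.Quotient.factor_surjective h, ker_factor h a hJ, isLocalization_awayHom _⟩

/-- The open part does not see the ideal generated by `b` if `a * b = 0`. -/
lemma away_comp {A B U : Type} [CommRing A] [CommRing B] [CommRing U] [Algebra k A] [Algebra k B]
    [Algebra k U] (w : A →ₐ[k] B) (u : B →ₐ[k] U) (a b : A) (hw : Function.Surjective w)
    (hk : RingHom.ker w.toRingHom = Ideal.span {b}) (hab : a * b = 0)
    (hu : @IsLocalization.Away B _ (w a) U _ u.toRingHom.toAlgebra) :
    @IsLocalization.Away A _ a U _ (u.comp w).toRingHom.toAlgebra := by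
  let _i1 := u.toRingHom.toAlgebra
  have hu' : IsLocalization.Away (w a) U := hu
  let i2 : Algebra A U := (u.comp w).toRingHom.toAlgebra
  change IsLocalization.Away a U
  have hmap : ∀ x : A, algebraMap A U x = algebraMap B U (w x) := fun x => rfl
  refine ⟨⟨?_, ?_, ?_⟩⟩
  · rintro ⟨_, n, rfl⟩
    rw [hmap]
    have := IsLocalization.map_units U (⟨(w a) ^ n, n, rfl⟩ : Submonoid.powers (w a))
    simpa using this
  · intro z
    obtain ⟨⟨y, ⟨_, n, rfl⟩⟩, hz⟩ := IsLocalization.surj (Submonoid.powers (w a)) z
    obtain ⟨x, rfl⟩ := hw y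
    refine ⟨⟨x, ⟨a ^ n, n, rfl⟩⟩, ?_⟩
    rw [hmap, hmap]
    simpa using hz
  · intro x y hxy
    rw [hmap, hmap] at hxy
    obtain ⟨⟨_, n, rfl⟩, hc⟩ := IsLocalization.exists_of_eq (M := Submonoid.powers (w a)) hxy
    have h1 : a ^ n * x - a ^ n * y ∈ RingHom.ker w.toRingHom := by
      rw [RingHom.mem_ker]
      change w _ = 0
      rw [map_sub, map_mul, map_mul, map_pow]
      exact sub_eq_zero.2 hc
    rw [hk, Ideal.mem_span_singleton'] at h1
    obtain ⟨r, hr⟩ := h1
    refine ⟨⟨a ^ (n + 1), n + 1, rfl⟩, ?_⟩
    have h2 : a * (a ^ n * x - a ^ n * y) = 0 := by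
      rw [← hr, mul_left_comm, hab, mul_zero]
    change a ^ (n + 1) * x = a ^ (n + 1) * y
    rw [← sub_eq_zero, ← h2]
    ring

end NOE

theorem t_NOE : S_NOE := by
  intro k R _ _ _ _ F hF hD
  have : IsNoetherianRing R := Algebra.FiniteType.isNoetherianRing k R
  have key : ∀ I : Ideal R, F (R ⧸ I) (Ideal.Quotient.mkₐ k I) := by
    intro I
    induction I using WellFoundedGT.induction with
    | _ I ih =>
    by_cases hp : I.IsPrime
    · obtain ⟨a, ha, hFa⟩ := hD (R ⧸ I) (Ideal.Quotient.mkₐ k I) (Ideal.Quotient.mkₐ_surjective k I)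
      obtain ⟨a, rfl⟩ := Ideal.Quotient.mk_surjective a
      have haI : a ∉ I := fun h => ha (Ideal.Quotient.eq_zero_iff_mem.2 h)
      have hle : I ≤ I ⊔ Ideal.span {a} := le_sup_left
      have hlt : I < I ⊔ Ideal.span {a} := by
        refine lt_of_le_of_ne hle fun h => haI ?_
        rw [h]
        exact Ideal.mem_sup_right (Ideal.mem_span_singleton_self a)
      refine hF.glue _ _ _ _ (NOE.strat_away hle a rfl) ?_ hFa
      exact ih _ hlt
    · rw [Ideal.not_isPrime_iff] at hp
      rcases hp with rfl | ⟨a, ha, b, hb, hab⟩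
      · exact hF.triv _ _ (Ideal.Quotient.subsingleton_iff.2 rfl)
      · have hlea : I ≤ I ⊔ Ideal.span {a} := le_sup_left
        have hlta : I < I ⊔ Ideal.span {a} := by
          refine lt_of_le_of_ne hlea fun h => ha ?_
          rw [h]
          exact Ideal.mem_sup_right (Ideal.mem_span_singleton_self a)
        have hleb : I ≤ I ⊔ Ideal.span {b} := le_sup_left
        have hltb : I < I ⊔ Ideal.span {b} := by
          refine lt_of_le_of_ne hleb fun h => hb ?_
          rw [h]
          exact Ideal.mem_sup_right (Ideal.mem_span_singleton_self b)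
        have hleab : I ⊔ Ideal.span {b} ≤ (I ⊔ Ideal.span {b}) ⊔ Ideal.span {a} := le_sup_left
        have h1 := hF.opn _ _ _ (Ideal.Quotient.mkₐ k (I ⊔ Ideal.span {b}))
          (NOE.strat_away hleab a rfl) (ih _ hltb) (ih _ (lt_of_lt_of_le hltb hleab))
        refine hF.glue (Ideal.Quotient.mk I a) (Ideal.Quotient.factorₐ k hlea)
          ((awayHom k (Ideal.Quotient.mk (I ⊔ Ideal.span {b}) a)).comp
            (Ideal.Quotient.factorₐ k hleb)) (Ideal.Quotient.mkₐ k I) ⟨?_, ?_, ?_⟩ (ih _ hlta) h1
        · exact Ideal.Quotient.factor_surjective hlea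
        · exact NOE.ker_factor hlea a rfl
        · refine NOE.away_comp (Ideal.Quotient.factorₐ k hleb) _ _ (Ideal.Quotient.mk I b)
            (Ideal.Quotient.factor_surjective hleb) (NOE.ker_factor hleb b rfl) ?_
            (isLocalization_awayHom _)
          rw [← map_mul]
          exact Ideal.Quotient.eq_zero_iff_mem.2 hab
  have := hF.iso (AlgEquiv.quotientBot k R) _ (key ⊥)
  exact this

end QCV


end

section

/-!
# QCV: small lemmas
-/

set_option autoImplicit false

open Polynomial

namespace QCV

lemma totalDegree_map_le {R S : Type} [CommRing R] [CommRing S] {n : ℕ} (ψ : R →+* S)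
    (p : MvPolynomial (Fin n) R) : (MvPolynomial.map ψ p).totalDegree ≤ p.totalDegree :=
  Finset.sup_mono (MvPolynomial.support_map_subset _ _)

end QCV


end

section

set_option autoImplicit false

open Polynomial

namespace QCV

open CUB

lemma eval_dpoly {T S : Type} [CommRing T] [CommRing S] (φ : T →+* S) (b c : T) (x : S) :
    (dpoly b c).eval₂ φ x = x ^ 2 + φ b * x + φ c := by
  simp [dpoly]

theorem t_QST : M_QST := by
  intro hDLR hSPR hTWQ hLNF hLIN hSUB hDRI k _ P d n hP hQ R _ _ _ f hR hf
  have hL : Ln k P d (n + 1) := hTWQ k P d (n + 1) hP hQ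
  refine hSPR k (Fin 1) P hP.toCls0 d (n + 2) (fun _ _ f => ∀ j, (f j).totalDegree ≤ 2) ?_ ?_ R f
    hR hf
  · intro R S _ _ ψ f hf j
    exact (totalDegree_map_le _ _).trans (hf j)
  clear hf hR f
  intro D _ _ _ _ f hD hf
  -- the case of a polynomial without `x_0 ^ 2`
  have key : ∀ (A : Type) [CommRing A] [Algebra k A] [Algebra.FiniteType k A]
      (g : Fin 1 → MvPolynomial (Fin (n + 2)) A), DL k A d → (g 0).totalDegree ≤ 2 →
      MvPolynomial.coeff (Finsupp.single 0 2) (g 0) = 0 → P (ER g) := by
    intro A _ _ _ g hA hg h0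
    obtain ⟨a, b, ha, hb, ⟨e⟩⟩ := hLIN k A (n + 1) g hg h0
    exact hP.iso e.symm (hLNF k P d (n + 1) hP hL A a b hA ha hb)
  by_cases h0 : MvPolynomial.coeff (Finsupp.single 0 2) (f 0) = 0
  · refine ⟨1, one_ne_zero, ?_⟩
    have hD' : DL k (Localization.Away (1 : D)) d :=
      hDLR.2.1 k D (Localization.Away (1 : D)) d 1 (awayHom k 1) (isLocalization_awayHom 1) hD
    refine key _ _ hD' ((totalDegree_map_le _ _).trans (hf 0)) ?_
    change MvPolynomial.coeff (Finsupp.single 0 2) (MvPolynomial.map _ (f 0)) = 0
    rw [MvPolynomial.coeff_map, h0, map_zero]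
  · set a := MvPolynomial.coeff (Finsupp.single 0 2) (f 0) with ha
    refine ⟨a, h0, ?_⟩
    have hD' : DL k (Localization.Away a) d :=
      hDLR.2.1 k D (Localization.Away a) d a (awayHom k a) (isLocalization_awayHom a) hD
    let R := Localization.Away a
    let φ : D →+* R := algebraMap D (Localization.Away a)
    let g : Fin 1 → MvPolynomial (Fin (n + 2)) R := mf φ f
    change P (ER g)
    obtain ⟨v, hv⟩ : ∃ v : R, φ a * v = 1 :=
      (IsLocalization.Away.algebraMap_isUnit a).exists_right_inv
    let b' : R := v * φ (MvPolynomial.coeff (Finsupp.single 0 1 + Finsupp.single 1 1) (f 0))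
    let c' : R := v * φ (MvPolynomial.coeff (Finsupp.single 1 2) (f 0))
    let T := Dr R b' c'
    have hT : DL k T d := hDLR.2.2.1 k R T d hD'
    let t : T := AdjoinRoot.root (dpoly b' c')
    have ht : t ^ 2 + algebraMap R T b' * t + algebraMap R T c' = 0 := by
      have h1 := AdjoinRoot.eval₂_root (dpoly b' c')
      rw [eval_dpoly] at h1
      exact h1
    obtain ⟨f', hf', hf0, ⟨e⟩⟩ := hSUB k T n (mf (algebraMap R T) g) t
      ((totalDegree_map_le _ _).trans ((totalDegree_map_le _ _).trans (hf 0))) (by
        change MvPolynomial.coeff (Finsupp.single 0 2)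
            (MvPolynomial.map (algebraMap R T) (MvPolynomial.map φ (f 0))) * t ^ 2 +
          MvPolynomial.coeff (Finsupp.single 0 1 + Finsupp.single 1 1)
            (MvPolynomial.map (algebraMap R T) (MvPolynomial.map φ (f 0))) * t +
          MvPolynomial.coeff (Finsupp.single 1 2)
            (MvPolynomial.map (algebraMap R T) (MvPolynomial.map φ (f 0))) = 0
        rw [MvPolynomial.coeff_map, MvPolynomial.coeff_map, MvPolynomial.coeff_map,
          MvPolynomial.coeff_map, MvPolynomial.coeff_map, MvPolynomial.coeff_map]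
        have e0 : algebraMap R T (φ a) * algebraMap R T v = 1 := by
          rw [← map_mul, hv, map_one]
        have e1 : algebraMap R T b' = algebraMap R T v * algebraMap R T
            (φ (MvPolynomial.coeff (Finsupp.single 0 1 + Finsupp.single 1 1) (f 0))) :=
          map_mul _ _ _
        have e2 : algebraMap R T c' = algebraMap R T v * algebraMap R T
            (φ (MvPolynomial.coeff (Finsupp.single 1 2) (f 0))) := map_mul _ _ _
        rw [e1, e2] at ht
        linear_combination (algebraMap R T (φ a)) * ht -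
          (algebraMap R T (φ (MvPolynomial.coeff (Finsupp.single 0 1 + Finsupp.single 1 1) (f 0)))
            * t + algebraMap R T (φ (MvPolynomial.coeff (Finsupp.single 1 2) (f 0)))) * e0)
    have h1 : P (ER (mf (algebraMap R T) g)) := hP.iso e.symm (key T f' hT hf' hf0)
    obtain ⟨e2⟩ := hDRI k R (Fin 1) (n + 2) g b' c'
    exact hP.dbl _ _ _ (hP.iso e2.symm h1)

end QCV


end

section

set_option autoImplicit false

open Polynomial

namespace QCV

open CUB

theorem t_SWP : S_SWP := by
  intro k R _ _ _ n r f hf
  let e : MvPolynomial (Fin r) (MvPolynomial (Fin n) R) ≃ₐ[k]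
      MvPolynomial (Fin n) (MvPolynomial (Fin r) R) :=
    (MvPolynomial.commAlgEquiv R (Fin r) (Fin n)).restrictScalars k
  have he : e (fs f) = MvPolynomial.map MvPolynomial.C (f 0) +
      ∑ j : Fin r, MvPolynomial.C (MvPolynomial.X j) * MvPolynomial.map MvPolynomial.C (f j.succ) := by
    change MvPolynomial.commAlgEquiv R (Fin r) (Fin n) (fs f) = _
    unfold fs
    rw [map_add, map_sum, MvPolynomial.commAlgEquiv_C]
    congr 1
    apply Finset.sum_congr rfl
    intro j _
    rw [map_mul, MvPolynomial.commAlgEquiv_C, MvPolynomial.commAlgEquiv_X]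
  refine ⟨fun _ => e (fs f), ?_, ⟨?_⟩⟩
  · intro _
    rw [he]
    refine (MvPolynomial.totalDegree_add _ _).trans (max_le ?_ ?_)
    · exact (totalDegree_map_le _ _).trans (hf 0)
    · refine (MvPolynomial.totalDegree_finsetSum _ _).trans ?_
      apply Finset.sup_le
      intro j _
      refine (MvPolynomial.totalDegree_mul _ _).trans ?_
      rw [MvPolynomial.totalDegree_C, zero_add]
      exact (totalDegree_map_le _ _).trans (hf _)
  · refine Ideal.quotientEquivAlg _ _ e ?_
    rw [Ideal.map_span, Set.image_singleton, Set.range_const]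
    rfl

end QCV


end

section

set_option autoImplicit false

open Polynomial

namespace QCV

open CUB

/-- A polynomial of degree at most one without linear terms is constant. -/
lemma eq_C_of_linear {R : Type} [CommRing R] {n : ℕ} (g : MvPolynomial (Fin n) R)
    (hg : g.totalDegree ≤ 1) (h : ∀ j, MvPolynomial.coeff (Finsupp.single j 1) g = 0) :
    g = MvPolynomial.C (MvPolynomial.coeff 0 g) := by
  ext m
  rw [MvPolynomial.coeff_C]
  split_ifs with hm
  · rw [← hm]
  · by_contra hne
    have h1 : m ∈ g.support := MvPolynomial.mem_support_iff.mpr hne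
    have h2 := MvPolynomial.le_totalDegree h1
    have h3 : m.degree ≤ 1 := by
      refine le_trans ?_ (h2.trans hg)
      rw [Finsupp.degree_eq_sum]
      rw [Finsupp.sum_fintype]
      intro i
      rfl
    have h4 : m.degree ≠ 0 := by
      intro h0
      rw [Finsupp.degree_eq_zero_iff] at h0
      exact hm h0.symm
    have h5 : m.degree = 1 := by omega
    obtain ⟨j, hj⟩ : ∃ j, m = Finsupp.single j 1 := by
      have h6 : m ≠ 0 := fun h => hm h.symm
      obtain ⟨j, hj⟩ := Finsupp.ne_iff.mp h6
      refine ⟨j, ?_⟩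
      have hle : Finsupp.single j 1 ≤ m := by
        rw [Finsupp.single_le_iff]
        have : m j ≠ 0 := hj
        omega
      obtain ⟨c, hc⟩ := exists_add_of_le hle
      have h7 : m.degree = 1 + c.degree := by
        rw [hc, map_add, Finsupp.degree_single]
      have h8 : c.degree = 0 := by omega
      rw [Finsupp.degree_eq_zero_iff] at h8
      rw [hc, h8, add_zero]
    rw [hj] at hne
    exact hne (h j)

theorem t_TWQ : M_TWQ := by
  intro hDLR hSPR hPLY hELI k _ P d n hP hQ R _ _ _ f hR hf0 hf1
  refine hSPR k (Fin 2) P hP.toCls0 d n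
    (fun _ _ f => (f 0).totalDegree ≤ 1 ∧ (f 1).totalDegree ≤ 2) ?_ ?_ R f hR ⟨hf0, hf1⟩
  · intro R S _ _ ψ f hf
    exact ⟨(totalDegree_map_le _ _).trans hf.1,
      (totalDegree_map_le _ _).trans hf.2⟩
  clear hf0 hf1 hR f
  intro D _ _ _ _ f hD hf
  by_cases h0 : f 0 = 0
  · refine ⟨1, one_ne_zero, ?_⟩
    have hD' : DL k (Localization.Away (1 : D)) d :=
      hDLR.2.1 k D (Localization.Away (1 : D)) d 1 (awayHom k 1) (isLocalization_awayHom 1) hD
    have h1 := hQ n le_rfl (Localization.Away (1 : D))
      (fun _ : Fin 1 => mf (algebraMap D (Localization.Away (1 : D))) f 1) hD'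
      (fun _ => (totalDegree_map_le _ _).trans hf.2)
    have e : Ideal.span (Set.range
        (fun _ : Fin 1 => mf (algebraMap D (Localization.Away (1 : D))) f 1)) =
        Ideal.span (Set.range (mf (algebraMap D (Localization.Away (1 : D))) f)) := by
      apply le_antisymm
      · rw [Ideal.span_le]
        rintro _ ⟨j, rfl⟩
        exact Ideal.subset_span ⟨1, rfl⟩
      · rw [Ideal.span_le]
        rintro _ ⟨j, rfl⟩
        fin_cases j
        · have : mf (algebraMap D (Localization.Away (1 : D))) f 0 = 0 := by
            change MvPolynomial.map _ (f 0) = 0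
            rw [h0, map_zero]
          change mf (algebraMap D (Localization.Away (1 : D))) f 0 ∈ Ideal.span _
          rw [this]
          exact zero_mem _
        · exact Ideal.subset_span ⟨0, rfl⟩
    exact hP.iso (Ideal.quotientEquivAlgOfEq k e) h1
  by_cases hj : ∀ j, MvPolynomial.coeff (Finsupp.single j 1) (f 0) = 0
  · have h1 := eq_C_of_linear (f 0) hf.1 hj
    set u := MvPolynomial.coeff 0 (f 0) with hu
    have hu0 : u ≠ 0 := by
      intro h
      rw [h, MvPolynomial.C_0] at h1
      exact h0 h1
    refine ⟨u, hu0, ?_⟩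
    refine (hPLY k P hP.toCls0 hP.line (Localization.Away u) n).2.2 (Fin 2) _ ?_
    have h2 : mf (algebraMap D (Localization.Away u)) f 0 =
        MvPolynomial.C (algebraMap D (Localization.Away u) u) := by
      change MvPolynomial.map _ (f 0) = _
      rw [h1, MvPolynomial.map_C]
    have h3 : IsUnit (mf (algebraMap D (Localization.Away u)) f 0) := by
      rw [h2]
      exact (IsLocalization.Away.algebraMap_isUnit u).map MvPolynomial.C
    have h4 : Ideal.span (Set.range (mf (algebraMap D (Localization.Away u)) f)) = ⊤ :=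
      Ideal.eq_top_of_isUnit_mem _ (Ideal.subset_span ⟨0, rfl⟩) h3
    rw [h4]
    trivial
  · push Not at hj
    obtain ⟨j, hj⟩ := hj
    obtain ⟨n, rfl⟩ : ∃ n', n = n' + 1 := ⟨n - 1, by have := j.2; omega⟩
    set u := MvPolynomial.coeff (Finsupp.single j 1) (f 0) with hu
    refine ⟨u, hj, ?_⟩
    have hD' : DL k (Localization.Away u) d :=
      hDLR.2.1 k D (Localization.Away u) d u (awayHom k u) (isLocalization_awayHom u) hD
    have h1 : IsUnit (MvPolynomial.coeff (Finsupp.single j 1)
        (mf (algebraMap D (Localization.Away u)) f 0)) := by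
      change IsUnit (MvPolynomial.coeff (Finsupp.single j 1) (MvPolynomial.map _ (f 0)))
      rw [MvPolynomial.coeff_map]
      exact IsLocalization.Away.algebraMap_isUnit u
    obtain ⟨h, hh, ⟨e⟩⟩ := hELI k (Localization.Away u) n
      (mf (algebraMap D (Localization.Away u)) f) j
      ((totalDegree_map_le _ _).trans hf.1)
      ((totalDegree_map_le _ _).trans hf.2) h1
    refine hP.iso e.symm (hQ n (by omega) (Localization.Away u) h hD' ?_)
    intro i
    fin_cases i
    exact hh

end QCV


end

section

/-!
# QCV: etale pull-back of homology classes and of cycles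
-/

set_option autoImplicit false

open CategoryTheory AlgebraicGeometry

namespace QCV

open Pool.Agent.Lib_helper55.Beil Pool.Agent.Lib_helper66 CUB

universe v

variable {k : Type} [Field k] {E : Type} [Field E]

/-- There are pull-back maps along finite etale surjective morphisms `V → U`, which commute with
Frobenius; if `U` is integral, then the push-forward of the pull-back of a class is the class
multiplied by the degree, and the pull-back of the class of a point `x` is the class of a cycle
whose push-forward is `x`, multiplied by the degree. -/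
def EtTrans (T : ∀ i : ℕ, Homology.{v} k E i) (G : ProperMaps T) : Prop :=
  ∃ S : EtMaps T, S.Frobenius ∧
    ∀ {V U : Var k} (f : OneP.FinEt V U), IsIntegral U.X → ∃ D : ℕ, D ≠ 0 ∧
      (∀ (i n : ℕ) (m : (T i).H n U), G.G i n (etPr f) (S.Q i n f m) = (D : E) • m) ∧
      ∀ (i : ℕ) (x : Pts i U), ∃ z : Pts i V →₀ E,
        OneP.cls (T i) V z = S.Q i (2 * i) f ((T i).cl U x) ∧
          pfc E i (etPr f) z = Finsupp.single x (D : E)

lemma EtTrans.etPull {T : ∀ i : ℕ, Homology.{v} k E i} {G : ProperMaps T} (h : EtTrans T G) :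
    EtPull T G := by
  obtain ⟨S, hF, hS⟩ := h
  refine ⟨S, hF, fun f hU => ?_⟩
  obtain ⟨D, hD, h1, -⟩ := hS f hU
  exact ⟨D, hD, h1⟩

end QCV


end
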