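import Mathlib
import Pool.Agent.QVM.C11

/-! Parts: CUB2.G_DIAG -/

section

/-!
# CUB2, module DIAG: the complement of the diagonal of the projective line is affine
-/

set_option autoImplicit false

open CategoryTheory AlgebraicGeometry Limits Polynomial TopologicalSpace

namespace CUB

open Pool.Agent.Lib_helper55.Beil Pool.Agent.Lib_helper66.OneP

universe v

namespace GDIAG

section ev

variable {X Y : Scheme.{0}} {R : CommRingCat.{0}}

/-- the value of a function at a point with values in the ring `R` -/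
noncomputable def ev (α : Spec R ⟶ X) (U : X.Opens) (h : ⊤ ≤ α ⁻¹ᵁ U) : Γ(X, U) →+* R :=
  (α.appLE U ⊤ h ≫ (Scheme.ΓSpecIso R).hom).hom

theorem ev_res (α : Spec R ⟶ X) {U V : X.Opens} (i : V ≤ U) (h : ⊤ ≤ α ⁻¹ᵁ V) (h' : ⊤ ≤ α ⁻¹ᵁ U) (f : Γ(X, U)) :
    ev α V h (X.presheaf.map (homOfLE i).op f) = ev α U h' f := by
  have h1 : X.presheaf.map (homOfLE i).op ≫ α.appLE V ⊤ h = α.appLE U ⊤ h' := Scheme.Hom.map_appLE _ _ _
  rw [ev, ev, ← h1]
  rfl

theorem ev_appLE (α : Spec R ⟶ X) (g : X ⟶ Y) (W : Y.Opens) (U : X.Opens) (e : U ≤ g ⁻¹ᵁ W)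
    (h : ⊤ ≤ α ⁻¹ᵁ U) (h' : ⊤ ≤ (α ≫ g) ⁻¹ᵁ W) (f : Γ(Y, W)) :
    ev α U h (g.appLE W U e f) = ev (α ≫ g) W h' f := by
  have h1 : g.appLE W U e ≫ α.appLE U ⊤ h = (α ≫ g).appLE W ⊤ h' := Scheme.Hom.appLE_comp_appLE _ _ _ _ _ _ _
  rw [ev, ev, ← h1]
  rfl

theorem ev_congr {α β : Spec R ⟶ X} (e : α = β) (U : X.Opens) (h : ⊤ ≤ α ⁻¹ᵁ U) (h' : ⊤ ≤ β ⁻¹ᵁ U) (f : Γ(X, U)) :
    ev α U h f = ev β U h' f := by
  subst e
  rfl

theorem le_of_mem (hR : IsField R) (α : Spec R ⟶ X) (U : X.Opens) {x : Spec R} (hx : α x ∈ U) : ⊤ ≤ α ⁻¹ᵁ U := by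
  intro y _
  have h1 : y = x := by
    let _ := hR.toField
    exact Subsingleton.elim (α := PrimeSpectrum R) y x
  rw [h1]
  exact hx

theorem ev_ne_zero (hR : IsField R) (α : Spec R ⟶ X) (U : X.Opens) (h : ⊤ ≤ α ⁻¹ᵁ U) (f : Γ(X, U)) (x : Spec R) :
    α x ∈ X.basicOpen f ↔ ev α U h f ≠ 0 := by
  have h1 : (Spec R).basicOpen (α.appLE U ⊤ h f) = ⊤ ⊓ α ⁻¹ᵁ (X.basicOpen f) := Scheme.basicOpen_appLE α ⊤ U h f
  have h2 : α x ∈ X.basicOpen f ↔ x ∈ (Spec R).basicOpen (α.appLE U ⊤ h f) := by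
    rw [h1]
    exact ⟨fun h => ⟨trivial, h⟩, fun h => h.2⟩
  rw [h2, basicOpen_eq_of_affine']
  have h3 : x ∈ PrimeSpectrum.basicOpen ((Scheme.ΓSpecIso R).hom (α.appLE U ⊤ h f)) ↔
      (Scheme.ΓSpecIso R).hom (α.appLE U ⊤ h f) ∉ PrimeSpectrum.asIdeal x := Iff.rfl
  have h4 : PrimeSpectrum.asIdeal x = ⊥ := by
    let _ := hR.toField
    exact (Ideal.eq_bot_or_top _).resolve_right (PrimeSpectrum.isPrime x).ne_top
  refine h3.trans ?_
  rw [h4]
  rfl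

theorem ev_spec {A : CommRingCat.{0}} (φ : A ⟶ R) (h : ⊤ ≤ Spec.map φ ⁻¹ᵁ ⊤) (a : A) :
    ev (Spec.map φ) ⊤ h ((Scheme.ΓSpecIso A).inv a) = φ a := by
  have h1 : (Spec.map φ).appLE ⊤ ⊤ h = (Spec.map φ).appTop := Scheme.Hom.appLE_eq_app _
  have h2 := Scheme.ΓSpecIso_naturality φ
  rw [ev, h1, h2]
  simp

end ev

section chart

variable {k : Type} [Field k] {P : Var k}

/-- the coordinate of the line -/
noncomputable def cX (k : Type) [Field k] : Γ(Spec (CommRingCat.of k[X]), ⊤) :=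
  (Scheme.ΓSpecIso (CommRingCat.of k[X])).inv (X : k[X])

/-- the image of a chart -/
noncomputable abbrev W (j : OpenIn (aff k k[X]) P) : P.X.Opens := j.g ''ᵁ ⊤

/-- the coordinate of a chart -/
noncomputable def co (j : OpenIn (aff k k[X]) P) : Γ(P.X, W j) := (j.g.appIso ⊤).inv (cX k)

theorem mem_W {j : OpenIn (aff k k[X]) P} {x : P.X} : x ∈ W j ↔ x ∈ Set.range j.g := by
  rw [W, Scheme.Hom.image_top_eq_opensRange]
  exact Iff.rfl

theorem W_le {R : CommRingCat.{0}} (β : Spec R ⟶ (aff k k[X]).X) (j : OpenIn (aff k k[X]) P) :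
    ⊤ ≤ (β ≫ j.g) ⁻¹ᵁ W j := by
  intro x _
  have h1 : (β ≫ j.g) x ∈ W j := mem_W.2 ⟨β x, rfl⟩
  exact h1

theorem ev_co {R : CommRingCat.{0}} (φ : CommRingCat.of k[X] ⟶ R) (j : OpenIn (aff k k[X]) P)
    (h : ⊤ ≤ ((Spec.map φ : Spec R ⟶ (aff k k[X]).X) ≫ j.g) ⁻¹ᵁ W j) :
    ev ((Spec.map φ : Spec R ⟶ (aff k k[X]).X) ≫ j.g) (W j) h (co j) = φ X := by
  have e : (⊤ : (aff k k[X]).X.Opens) ≤ j.g ⁻¹ᵁ W j := (Scheme.Hom.preimage_image_eq j.g ⊤).ge
  have e' : (⊤ : (Spec R).Opens) ≤ (Spec.map φ : Spec R ⟶ (aff k k[X]).X) ⁻¹ᵁ ⊤ := fun _ _ => trivial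
  have h1 := ev_appLE (Spec.map φ : Spec R ⟶ (aff k k[X]).X) j.g (W j) ⊤ e e' h (co j)
  refine h1.symm.trans ?_
  have h2 : j.g.appLE (W j) ⊤ e (co j) = cX k := by
    have h3 := Scheme.Hom.appIso_inv_appLE j.g (U := ⊤) (V := ⊤) e
    have h4 := ConcreteCategory.congr_hom h3 (cX k)
    refine h4.trans ?_
    have h5 : (aff k k[X]).X.presheaf.map (homOfLE (le_refl (⊤ : (aff k k[X]).X.Opens))).op = 𝟙 _ :=
      (aff k k[X]).X.presheaf.map_id _
    exact ConcreteCategory.congr_hom h5 (cX k)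
  exact (congrArg _ h2).trans (ev_spec φ e' (X : k[X]))

theorem lift_chart {R : CommRingCat.{0}} (α : Spec R ⟶ P.X) (j : OpenIn (aff k k[X]) P) (h : ⊤ ≤ α ⁻¹ᵁ W j) :
    ∃ φ : CommRingCat.of k[X] ⟶ R, α = (Spec.map φ : Spec R ⟶ (aff k k[X]).X) ≫ j.g := by
  have h1 : Set.range α ⊆ Set.range j.g := by
    rintro _ ⟨x, rfl⟩
    exact mem_W.1 (h (Set.mem_univ x))
  obtain ⟨β, hβ⟩ : ∃ β : Spec R ⟶ (aff k k[X]).X, β ≫ j.g = α :=
    ⟨IsOpenImmersion.lift j.g α h1, IsOpenImmersion.lift_fac _ _ _⟩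
  refine ⟨Spec.preimage β, ?_⟩
  have h2 : (Spec.map (Spec.preimage β) : Spec R ⟶ (aff k k[X]).X) = β := Spec.map_preimage β
  exact hβ.symm.trans (congrArg (· ≫ j.g) h2.symm)

/-- two charts glued along `t = 1 / s` -/
def Gl (i j : OpenIn (aff k k[X]) P) : Prop :=
  IsPullback (Spec.map (CommRingCat.ofHom (gm₀ (k := k)))) (Spec.map (CommRingCat.ofHom (gm₁ (k := k)))) i.g j.g

/-- `t ↦ 1 / t` -/
noncomputable abbrev iv (k : Type) [Field k] : LaurentPolynomial k →+* LaurentPolynomial k :=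
  (LaurentPolynomial.invert (R := k) : LaurentPolynomial k →+* LaurentPolynomial k)

theorem iv_iv : (iv k).comp (iv k) = RingHom.id _ :=
  RingHom.ext fun f => LaurentPolynomial.involutive_invert f

theorem iv_gm₀ : (iv k).comp (gm₀ (k := k)) = gm₁ := rfl

theorem iv_gm₁ : (iv k).comp (gm₁ (k := k)) = gm₀ := by
  rw [← iv_gm₀, ← RingHom.comp_assoc, iv_iv, RingHom.id_comp]

theorem Gl.symm {i j : OpenIn (aff k k[X]) P} (h : Gl i j) : Gl j i := by
  have e1 : Spec.map (CommRingCat.ofHom (iv k)) ≫ Spec.map (CommRingCat.ofHom (iv k)) = 𝟙 _ := by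
    rw [← Spec.map_comp, ← CommRingCat.ofHom_comp, iv_iv]
    exact Spec.map_id _
  refine IsPullback.of_iso (IsPullback.flip h) ⟨Spec.map (CommRingCat.ofHom (iv k)), Spec.map (CommRingCat.ofHom (iv k)), e1, e1⟩
    (Iso.refl _) (Iso.refl _) (Iso.refl _) ?_ ?_ ?_ ?_
  · rw [Iso.refl_hom, Category.comp_id, ← Spec.map_comp, ← CommRingCat.ofHom_comp, iv_gm₀]
  · rw [Iso.refl_hom, Category.comp_id, ← Spec.map_comp, ← CommRingCat.ofHom_comp, iv_gm₁]
  · simp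
  · simp

theorem gm₀_X : gm₀ (k := k) X = LaurentPolynomial.T 1 := by
  simp [gm₀]

theorem gm₁_X : gm₁ (k := k) X = LaurentPolynomial.T (-1) := by
  rw [← iv_gm₀, RingHom.comp_apply, gm₀_X]
  simp

/-- a point in both charts -/
theorem prod_one {i j : OpenIn (aff k k[X]) P} (hg : Gl i j) {R : CommRingCat.{0}} (α : Spec R ⟶ P.X)
    (hi : ⊤ ≤ α ⁻¹ᵁ W i) (hj : ⊤ ≤ α ⁻¹ᵁ W j) : ev α (W i) hi (co i) * ev α (W j) hj (co j) = 1 := by
  obtain ⟨φ, hφ⟩ := lift_chart α i hi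
  obtain ⟨ψ, hψ⟩ := lift_chart α j hj
  obtain ⟨γ, h1, h2⟩ : ∃ γ : Spec R ⟶ Spec (CommRingCat.of (LaurentPolynomial k)),
      γ ≫ Spec.map (CommRingCat.ofHom gm₀) = Spec.map φ ∧ γ ≫ Spec.map (CommRingCat.ofHom gm₁) = Spec.map ψ :=
    ⟨IsPullback.lift hg _ _ (hφ.symm.trans hψ), IsPullback.lift_fst hg _ _ _, IsPullback.lift_snd hg _ _ _⟩
  obtain ⟨θ, rfl⟩ := Spec.map_surjective γ
  rw [← Spec.map_comp] at h1 h2
  have h3 := Spec.map_injective h1
  have h4 := Spec.map_injective h2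
  have e1 : ev α (W i) hi (co i) = φ X := by
    subst hφ
    exact ev_co φ i hi
  have e2 : ev α (W j) hj (co j) = ψ X := by
    subst hψ
    exact ev_co ψ j hj
  rw [e1, e2, ← h3, ← h4]
  have e3 : (CommRingCat.ofHom gm₀ ≫ θ) (X : k[X]) = θ (LaurentPolynomial.T 1) := by
    rw [← gm₀_X]
    rfl
  have e4 : (CommRingCat.ofHom gm₁ ≫ θ) (X : k[X]) = θ (LaurentPolynomial.T (-1)) := by
    rw [← gm₁_X]
    rfl
  rw [e3, e4, ← map_mul, ← LaurentPolynomial.T_add]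
  simp

/-- a point of the first chart with an invertible coordinate is in the second chart -/
theorem in_both {i j : OpenIn (aff k k[X]) P} (hg : Gl i j) {R : CommRingCat.{0}} (α : Spec R ⟶ P.X)
    (hi : ⊤ ≤ α ⁻¹ᵁ W i) (hu : IsUnit (ev α (W i) hi (co i))) : ⊤ ≤ α ⁻¹ᵁ W j := by
  obtain ⟨φ, hφ⟩ := lift_chart α i hi
  have e1 : ev α (W i) hi (co i) = φ X := by
    subst hφ
    exact ev_co φ i hi
  rw [e1] at hu
  obtain ⟨θ, hθ⟩ : ∃ θ : LaurentPolynomial k →+* R, θ.comp gm₀ = φ.hom :=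
    ⟨IsLocalization.Away.lift (X : k[X]) hu, IsLocalization.Away.lift_comp (X : k[X]) hu⟩
  have h1 : α = Spec.map (CommRingCat.ofHom θ) ≫ Spec.map (CommRingCat.ofHom gm₀) ≫ i.g := by
    have h2 : CommRingCat.ofHom gm₀ ≫ CommRingCat.ofHom θ = φ := by
      rw [← CommRingCat.ofHom_comp, hθ]
      rfl
    rw [← Category.assoc, ← Spec.map_comp, h2]
    exact hφ
  have h2 : α = (Spec.map (CommRingCat.ofHom θ) ≫ Spec.map (CommRingCat.ofHom gm₁)) ≫ j.g := by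
    rw [h1, (IsPullback.toCommSq hg).w, Category.assoc]
  subst h2
  exact W_le _ j

/-- two points of a chart with the same coordinate -/
theorem eq_pt (i : OpenIn (aff k k[X]) P) {R : CommRingCat.{0}} (α β : Spec R ⟶ P.X)
    (hα : ⊤ ≤ α ⁻¹ᵁ W i) (hβ : ⊤ ≤ β ⁻¹ᵁ W i) (he : ev α (W i) hα (co i) = ev β (W i) hβ (co i))
    (hP : α ≫ P.f = β ≫ P.f) : α = β := by
  obtain ⟨φ, hφ⟩ := lift_chart α i hα
  obtain ⟨ψ, hψ⟩ := lift_chart β i hβ
  have e1 : ev α (W i) hα (co i) = φ X := by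
    subst hφ
    exact ev_co φ i hα
  have e2 : ev β (W i) hβ (co i) = ψ X := by
    subst hψ
    exact ev_co ψ i hβ
  have h1 : φ = ψ := by
    have h2 : CommRingCat.ofHom (algebraMap k k[X]) ≫ φ = CommRingCat.ofHom (algebraMap k k[X]) ≫ ψ := by
      apply Spec.map_injective
      rw [Spec.map_comp, Spec.map_comp]
      have h3 : i.g ≫ P.f = Spec.map (CommRingCat.ofHom (algebraMap k k[X])) := i.comm
      rw [← h3]
      have h4 : (Spec.map φ ≫ i.g) ≫ P.f = (Spec.map ψ ≫ i.g) ≫ P.f := by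
        refine Eq.trans ?_ (hP.trans ?_)
        · exact congrArg (· ≫ P.f) hφ.symm
        · exact congrArg (· ≫ P.f) hψ
      exact h4
    apply CommRingCat.hom_ext
    apply Polynomial.ringHom_ext
    · intro a
      exact ConcreteCategory.congr_hom h2 a
    · exact e1.symm.trans (he.trans e2)
  rw [hφ, hψ, h1]

theorem isField_res {X : Scheme.{0}} (x : X) : IsField (X.residueField x) := Field.toIsField _

theorem pt_le {X : Scheme.{0}} {x : X} {U : X.Opens} (h : x ∈ U) : ⊤ ≤ (X.fromSpecResidueField x) ⁻¹ᵁ U := by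
  intro y _
  have h1 : (X.fromSpecResidueField x) y = x := Scheme.fromSpecResidueField_apply x y
  show (X.fromSpecResidueField x) y ∈ U
  rw [h1]
  exact h

/-- the product of the coordinates is one on the intersection of the charts -/
theorem sec_one {i j : OpenIn (aff k k[X]) P} (hg : Gl i j) :
    P.X.presheaf.map (homOfLE (inf_le_left : W i ⊓ W j ≤ W i)).op (co i) *
      P.X.presheaf.map (homOfLE (inf_le_right : W i ⊓ W j ≤ W j)).op (co j) = 1 := by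
  have hoi : IsOpenImmersion (Spec.map (CommRingCat.ofHom (gm₀ (k := k)))) :=
    MorphismProperty.of_isPullback (P := @IsOpenImmersion) (IsPullback.flip hg) j.isOpen
  obtain ⟨ρ, hρ⟩ : ∃ ρ : Spec (CommRingCat.of (LaurentPolynomial k)) ⟶ P.X,
      ρ = Spec.map (CommRingCat.ofHom gm₀) ≫ i.g := ⟨_, rfl⟩
  have hρ' : ρ = Spec.map (CommRingCat.ofHom gm₁) ≫ j.g := hρ.trans (IsPullback.toCommSq hg).w
  have hio := i.isOpen
  have hro : IsOpenImmersion ρ := by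
    rw [hρ]
    exact MorphismProperty.comp_mem (W := @IsOpenImmersion) _ _ hoi hio
  have hi : ⊤ ≤ ρ ⁻¹ᵁ W i := by
    rw [hρ]
    exact W_le _ i
  have hj : ⊤ ≤ ρ ⁻¹ᵁ W j := by
    rw [hρ']
    exact W_le _ j
  have hU : ⊤ ≤ ρ ⁻¹ᵁ (W i ⊓ W j) := fun x hx => ⟨hi hx, hj hx⟩
  have hr : W i ⊓ W j ≤ ρ.opensRange := by
    rintro x ⟨hx, hx'⟩
    obtain ⟨φ, hφ⟩ := lift_chart (P.X.fromSpecResidueField x) i (pt_le hx)
    obtain ⟨ψ, hψ⟩ := lift_chart (P.X.fromSpecResidueField x) j (pt_le hx')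
    obtain ⟨γ, h1⟩ : ∃ γ : Spec (P.X.residueField x) ⟶ Spec (CommRingCat.of (LaurentPolynomial k)),
        γ ≫ Spec.map (CommRingCat.ofHom gm₀) = Spec.map φ :=
      ⟨IsPullback.lift hg _ _ (hφ.symm.trans hψ), IsPullback.lift_fst hg _ _ _⟩
    have h2 : P.X.fromSpecResidueField x = γ ≫ ρ := by
      rw [hρ, ← Category.assoc, h1]
      exact hφ
    have h3 : (P.X.fromSpecResidueField x) (IsLocalRing.closedPoint (P.X.residueField x)) = x :=
      Scheme.fromSpecResidueField_apply x _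
    rw [h2] at h3
    exact ⟨_, h3⟩
  have hiso : IsIso (ρ.app (W i ⊓ W j)) := ρ.isIso_app _ hr
  have hinj : Function.Injective (ev ρ (W i ⊓ W j) hU) := by
    have h1 : IsIso (homOfLE hU) := ⟨homOfLE le_top, Subsingleton.elim _ _, Subsingleton.elim _ _⟩
    have h2 : IsIso (ρ.appLE (W i ⊓ W j) ⊤ hU ≫ (Scheme.ΓSpecIso (CommRingCat.of (LaurentPolynomial k))).hom) := by
      rw [Scheme.Hom.appLE]
      infer_instance
    exact ((asIso (ρ.appLE (W i ⊓ W j) ⊤ hU ≫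
      (Scheme.ΓSpecIso (CommRingCat.of (LaurentPolynomial k))).hom)).commRingCatIsoToRingEquiv).injective
  apply hinj
  rw [map_mul, map_one, ev_res ρ _ hU hi, ev_res ρ _ hU hj]
  exact prod_one hg ρ hi hj

end chart

section prod

variable {k : Type} [Field k] {P : Var k}

/-- the first projection -/
noncomputable abbrev p₁ (P : Var k) : (P.prod P).X ⟶ P.X := pullback.fst P.f P.f

/-- the second projection -/
noncomputable abbrev p₂ (P : Var k) : (P.prod P).X ⟶ P.X := pullback.snd P.f P.f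

/-- the diagonal -/
noncomputable def dg (P : Var k) : P.X ⟶ (P.prod P).X := pullback.diagonal P.f

theorem dg_p₁ (P : Var k) : dg P ≫ p₁ P = 𝟙 P.X := pullback.diagonal_fst P.f

theorem dg_p₂ (P : Var k) : dg P ≫ p₂ P = 𝟙 P.X := pullback.diagonal_snd P.f

/-- the product of two charts -/
noncomputable abbrev QQ (i j : OpenIn (aff k k[X]) P) : (P.prod P).X.Opens := p₁ P ⁻¹ᵁ W i ⊓ p₂ P ⁻¹ᵁ W j

theorem QQ_aff (i j : OpenIn (aff k k[X]) P) : IsAffineOpen (QQ i j) := by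
  obtain ⟨m, hm⟩ : ∃ m : pullback (aff k k[X]).f (aff k k[X]).f ⟶ (P.prod P).X,
      m = pullback.map (aff k k[X]).f (aff k k[X]).f P.f P.f i.g j.g (𝟙 _)
        (by rw [Category.comp_id, i.comm]) (by rw [Category.comp_id, j.comm]) := ⟨_, rfl⟩
  have h0 : IsOpenImmersion m := by
    have h3 := i.isOpen
    have h4 := j.isOpen
    rw [hm]
    exact Scheme.pullback_map_isOpenImmersion (aff k k[X]).f (aff k k[X]).f P.f P.f i.g j.g (𝟙 _) _ _
  have ha : IsAffine (aff k k[X]).X := inferInstanceAs (IsAffine (Spec (CommRingCat.of k[X])))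
  have h1 : m.opensRange = QQ i j := by
    apply TopologicalSpace.Opens.ext
    have h2 : Set.range m = pullback.fst P.f P.f ⁻¹' Set.range i.g ∩ pullback.snd P.f P.f ⁻¹' Set.range j.g := by
      rw [hm]
      exact Scheme.Pullback.range_map _ _ _ _ _ _ _ _ _
    refine h2.trans ?_
    ext z
    exact and_congr mem_W.symm mem_W.symm
  rw [← h1]
  exact isAffineOpen_opensRange m

/-- the function `1 - t s` -/
noncomputable def ee (i j : OpenIn (aff k k[X]) P) (U : (P.prod P).X.Opens) (h : U ≤ QQ i j) : Γ((P.prod P).X, U) :=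
  1 - (p₁ P).appLE (W i) U (h.trans inf_le_left) (co i) * (p₂ P).appLE (W j) U (h.trans inf_le_right) (co j)

theorem ee_res (i j : OpenIn (aff k k[X]) P) {U V : (P.prod P).X.Opens} (h : U ≤ QQ i j) (hV : V ≤ U) :
    (P.prod P).X.presheaf.map (homOfLE hV).op (ee i j U h) = ee i j V (hV.trans h) := by
  have h1 : (p₁ P).appLE (W i) U (h.trans inf_le_left) ≫ (P.prod P).X.presheaf.map (homOfLE hV).op =
      (p₁ P).appLE (W i) V ((hV.trans h).trans inf_le_left) := Scheme.Hom.appLE_map _ _ _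
  have h2 : (p₂ P).appLE (W j) U (h.trans inf_le_right) ≫ (P.prod P).X.presheaf.map (homOfLE hV).op =
      (p₂ P).appLE (W j) V ((hV.trans h).trans inf_le_right) := Scheme.Hom.appLE_map _ _ _
  rw [ee, ee, map_sub, map_one, map_mul, ← h1, ← h2]
  rfl

/-- the open subset where `1 - t s` is invertible -/
noncomputable def TT (i j : OpenIn (aff k k[X]) P) : (P.prod P).X.Opens :=
  (P.prod P).X.basicOpen (ee i j (QQ i j) le_rfl)

theorem TT_le (i j : OpenIn (aff k k[X]) P) : TT i j ≤ QQ i j := Scheme.basicOpen_le _ _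

theorem TT_aff (i j : OpenIn (aff k k[X]) P) : IsAffineOpen (TT i j) := (QQ_aff i j).basicOpen _

theorem ev_ee (i j : OpenIn (aff k k[X]) P) {R : CommRingCat.{0}} (γ : Spec R ⟶ (P.prod P).X)
    (U : (P.prod P).X.Opens) (h : U ≤ QQ i j) (hγ : ⊤ ≤ γ ⁻¹ᵁ U) (h1 : ⊤ ≤ (γ ≫ p₁ P) ⁻¹ᵁ W i)
    (h2 : ⊤ ≤ (γ ≫ p₂ P) ⁻¹ᵁ W j) : ev γ U hγ (ee i j U h) =
      1 - ev (γ ≫ p₁ P) (W i) h1 (co i) * ev (γ ≫ p₂ P) (W j) h2 (co j) := by
  rw [ee, map_sub, map_one, map_mul, ev_appLE γ (p₁ P) (W i) U _ hγ h1, ev_appLE γ (p₂ P) (W j) U _ hγ h2]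

theorem diag_pt {R : CommRingCat.{0}} (γ : Spec R ⟶ (P.prod P).X) (h : γ ≫ p₁ P = γ ≫ p₂ P) (x : Spec R) :
    γ x ∈ Set.range (dg P) := by
  have h1 : γ = (γ ≫ p₁ P) ≫ dg P := by
    apply pullback.hom_ext
    · have h2 : ((γ ≫ p₁ P) ≫ dg P) ≫ p₁ P = γ ≫ p₁ P := by
        rw [Category.assoc, dg_p₁, Category.comp_id]
      exact h2.symm
    · have h2 : ((γ ≫ p₁ P) ≫ dg P) ≫ p₂ P = γ ≫ p₂ P := by
        rw [Category.assoc, dg_p₂, Category.comp_id]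
        exact h
      exact h2.symm
  refine ⟨(γ ≫ p₁ P) x, ?_⟩
  have h2 := congrArg (fun t : Spec R ⟶ (P.prod P).X => t x) h1
  exact h2.symm

theorem comp_f {R : CommRingCat.{0}} (γ : Spec R ⟶ (P.prod P).X) : (γ ≫ p₁ P) ≫ P.f = (γ ≫ p₂ P) ≫ P.f := by
  have h1 : p₁ P ≫ P.f = p₂ P ≫ P.f := pullback.condition
  rw [Category.assoc, Category.assoc, h1]

/-- a point of the product -/
theorem pt_ev {i j : OpenIn (aff k k[X]) P} {z : (P.prod P).X} (hz : z ∈ QQ i j) :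
    z ∈ TT i j ↔ ev ((P.prod P).X.fromSpecResidueField z ≫ p₁ P) (W i)
      (fun _ hx => (pt_le hz hx).1) (co i) *
      ev ((P.prod P).X.fromSpecResidueField z ≫ p₂ P) (W j) (fun _ hx => (pt_le hz hx).2) (co j) ≠ 1 := by
  have h1 := ev_ne_zero (isField_res z) ((P.prod P).X.fromSpecResidueField z) (QQ i j) (pt_le hz)
    (ee i j (QQ i j) le_rfl) (IsLocalRing.closedPoint ((P.prod P).X.residueField z))
  rw [Scheme.fromSpecResidueField_apply, ev_ee i j _ _ _ _ (fun x hx => (pt_le hz hx).1)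
    (fun x hx => (pt_le hz hx).2), sub_ne_zero] at h1
  exact h1.trans ne_comm

theorem lemA {i j : OpenIn (aff k k[X]) P} (hg : Gl i j) {z : (P.prod P).X} (hz : z ∈ QQ i j)
    (hz' : z ∉ TT i j) : z ∈ Set.range (dg P) := by
  obtain ⟨γ, hγ⟩ : ∃ γ, γ = (P.prod P).X.fromSpecResidueField z := ⟨_, rfl⟩
  have h1 : ⊤ ≤ (γ ≫ p₁ P) ⁻¹ᵁ W i := by
    rw [hγ]
    exact fun x hx => (pt_le hz hx).1
  have h2 : ⊤ ≤ (γ ≫ p₂ P) ⁻¹ᵁ W j := by
    rw [hγ]
    exact fun x hx => (pt_le hz hx).2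
  have h3 : ev (γ ≫ p₁ P) (W i) h1 (co i) * ev (γ ≫ p₂ P) (W j) h2 (co j) = 1 := by
    by_contra h4
    apply hz'
    subst hγ
    exact (pt_ev hz).2 h4
  have hu : IsUnit (ev (γ ≫ p₂ P) (W j) h2 (co j)) := IsUnit.of_mul_eq_one_right _ h3
  have h4 : ⊤ ≤ (γ ≫ p₂ P) ⁻¹ᵁ W i := in_both hg.symm (γ ≫ p₂ P) h2 hu
  have h5 := prod_one hg (γ ≫ p₂ P) h4 h2
  have h6 : ev (γ ≫ p₁ P) (W i) h1 (co i) = ev (γ ≫ p₂ P) (W i) h4 (co i) :=
    hu.mul_right_cancel (h3.trans h5.symm)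
  have h7 := eq_pt i (γ ≫ p₁ P) (γ ≫ p₂ P) h1 h4 h6 (comp_f γ)
  have h8 := diag_pt γ h7 (IsLocalRing.closedPoint ((P.prod P).X.residueField z))
  rw [hγ, Scheme.fromSpecResidueField_apply] at h8
  exact h8

theorem lemB {i j : OpenIn (aff k k[X]) P} (hg : Gl i j) {z : (P.prod P).X}
    (hz : z ∈ TT i j) : z ∉ Set.range (dg P) := by
  rintro ⟨x, rfl⟩
  obtain ⟨γ, hγ⟩ : ∃ γ : Spec (P.X.residueField x) ⟶ (P.prod P).X,
      γ = P.X.fromSpecResidueField x ≫ dg P := ⟨_, rfl⟩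
  have hpt : γ (IsLocalRing.closedPoint (P.X.residueField x)) = dg P x := by
    rw [hγ, Scheme.Hom.comp_apply, Scheme.fromSpecResidueField_apply]
  have e : γ ≫ p₁ P = γ ≫ p₂ P := by
    rw [hγ, Category.assoc, Category.assoc, dg_p₁, dg_p₂]
  have hq : ⊤ ≤ γ ⁻¹ᵁ QQ i j := by
    refine le_of_mem (isField_res x) γ (QQ i j) (x := IsLocalRing.closedPoint (P.X.residueField x)) ?_
    rw [hpt]
    exact TT_le i j hz
  have h1 : ⊤ ≤ (γ ≫ p₁ P) ⁻¹ᵁ W i := fun y hy => (hq hy).1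
  have h2 : ⊤ ≤ (γ ≫ p₂ P) ⁻¹ᵁ W j := fun y hy => (hq hy).2
  have h3 := (ev_ne_zero (isField_res x) γ (QQ i j) hq (ee i j (QQ i j) le_rfl)
    (IsLocalRing.closedPoint (P.X.residueField x))).1 (by rw [hpt]; exact hz)
  apply h3
  have h4 : ⊤ ≤ (γ ≫ p₁ P) ⁻¹ᵁ W j := by
    rw [e]
    exact h2
  rw [ev_ee i j γ _ _ hq h1 h2, ← ev_congr e (W j) h4 h2, prod_one hg (γ ≫ p₁ P) h1 h4, sub_self]

theorem lemC {i j : OpenIn (aff k k[X]) P} (hg : Gl i j) {z : (P.prod P).X} (h1 : p₁ P z ∈ W i)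
    (h2 : p₂ P z ∈ W i) (h3 : p₁ P z ∉ W j) (h4 : p₂ P z ∉ W j) : z ∈ Set.range (dg P) := by
  obtain ⟨γ, hγ⟩ : ∃ γ, γ = (P.prod P).X.fromSpecResidueField z := ⟨_, rfl⟩
  have hpt : γ (IsLocalRing.closedPoint ((P.prod P).X.residueField z)) = z := by
    rw [hγ, Scheme.fromSpecResidueField_apply]
  have h5 : ⊤ ≤ (γ ≫ p₁ P) ⁻¹ᵁ W i := by
    refine le_of_mem (isField_res z) (γ ≫ p₁ P) (W i) (x := IsLocalRing.closedPoint _) ?_
    rw [Scheme.Hom.comp_apply, hpt]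
    exact h1
  have h6 : ⊤ ≤ (γ ≫ p₂ P) ⁻¹ᵁ W i := by
    refine le_of_mem (isField_res z) (γ ≫ p₂ P) (W i) (x := IsLocalRing.closedPoint _) ?_
    rw [Scheme.Hom.comp_apply, hpt]
    exact h2
  let _ : Field ((P.prod P).X.residueField z) := (isField_res z).toField
  have h7 : ev (γ ≫ p₁ P) (W i) h5 (co i) = 0 := by
    by_contra hn
    have h8 := in_both hg (γ ≫ p₁ P) h5 (isUnit_iff_ne_zero.2 hn)
      (Set.mem_univ (IsLocalRing.closedPoint ((P.prod P).X.residueField z)))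
    apply h3
    rw [← hpt, ← Scheme.Hom.comp_apply]
    exact h8
  have h8 : ev (γ ≫ p₂ P) (W i) h6 (co i) = 0 := by
    by_contra hn
    have h8 := in_both hg (γ ≫ p₂ P) h6 (isUnit_iff_ne_zero.2 hn)
      (Set.mem_univ (IsLocalRing.closedPoint ((P.prod P).X.residueField z)))
    apply h4
    rw [← hpt, ← Scheme.Hom.comp_apply]
    exact h8
  have h9 := eq_pt i (γ ≫ p₁ P) (γ ≫ p₂ P) h5 h6 (h7.trans h8.symm) (comp_f γ)
  rw [← hpt]
  exact diag_pt γ h9 _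

theorem cover {i j : OpenIn (aff k k[X]) P} (hg : Gl i j) (hc : ∀ x : P.X, x ∈ W i ∨ x ∈ W j) (z : (P.prod P).X) :
    z ∈ TT i j ⊔ TT j i ↔ z ∉ Set.range (dg P) := by
  constructor
  · rintro (h | h)
    · exact lemB hg h
    · exact lemB hg.symm h
  · intro hz
    by_contra hn
    have h1 : z ∉ TT i j := fun h => hn (Or.inl h)
    have h2 : z ∉ TT j i := fun h => hn (Or.inr h)
    have h3 : z ∉ QQ i j := fun h => hz (lemA hg h h1)
    have h4 : z ∉ QQ j i := fun h => hz (lemA hg.symm h h2)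
    rcases hc (p₁ P z) with h5 | h5
    · have h6 : p₂ P z ∉ W j := fun h => h3 ⟨h5, h⟩
      have h7 : p₂ P z ∈ W i := (hc (p₂ P z)).resolve_right h6
      have h8 : p₁ P z ∉ W j := fun h => h4 ⟨h, h7⟩
      exact hz (lemC hg h5 h7 h8 h6)
    · have h6 : p₂ P z ∉ W i := fun h => h4 ⟨h5, h⟩
      have h7 : p₂ P z ∈ W j := (hc (p₂ P z)).resolve_left h6
      have h8 : p₁ P z ∉ W i := fun h => h3 ⟨h, h7⟩
      exact hz (lemC hg.symm h5 h7 h8 h6)

theorem alg {A : Type*} [CommRing A] {a a' b b' v v' : A} (ha : a * a' = 1) (hb : b * b' = 1)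
    (hv : (1 - a * b) * v = 1) (hv' : (1 - a' * b') * v' = 1) : v + v' = 1 := by
  linear_combination (-v) * hv' - v' * hv + (1 - a' * b') * v' * hv + hv' - v * v' * (b * b' * ha + hb)

theorem appLE_one {i j : OpenIn (aff k k[X]) P} (hg : Gl i j) (q : (P.prod P).X ⟶ P.X) (U : (P.prod P).X.Opens)
    (hi : U ≤ q ⁻¹ᵁ W i) (hj : U ≤ q ⁻¹ᵁ W j) :
    q.appLE (W i) U hi (co i) * q.appLE (W j) U hj (co j) = 1 := by
  have h0 : U ≤ q ⁻¹ᵁ (W i ⊓ W j) := fun x hx => ⟨hi hx, hj hx⟩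
  have h1 : P.X.presheaf.map (homOfLE (inf_le_left : W i ⊓ W j ≤ W i)).op ≫ q.appLE (W i ⊓ W j) U h0 =
      q.appLE (W i) U hi := Scheme.Hom.map_appLE _ _ _
  have h2 : P.X.presheaf.map (homOfLE (inf_le_right : W i ⊓ W j ≤ W j)).op ≫ q.appLE (W i ⊓ W j) U h0 =
      q.appLE (W j) U hj := Scheme.Hom.map_appLE _ _ _
  have h3 := congrArg (q.appLE (W i ⊓ W j) U h0) (sec_one hg)
  rw [map_mul, map_one] at h3
  rw [← h1, ← h2]
  exact h3

theorem sum_one {i j : OpenIn (aff k k[X]) P} (hg : Gl i j) {U : (P.prod P).X.Opens} (h : U ≤ QQ i j)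
    (h' : U ≤ QQ j i) {v v' : Γ((P.prod P).X, U)} (hv : ee i j U h * v = 1) (hv' : ee j i U h' * v' = 1) :
    v + v' = 1 :=
  alg (appLE_one hg (p₁ P) U (h.trans inf_le_left) (h'.trans inf_le_left))
    (appLE_one hg.symm (p₂ P) U (h.trans inf_le_right) (h'.trans inf_le_right)) hv hv'

theorem lemE {i j : OpenIn (aff k k[X]) P} (hg : Gl i j) {v : Γ((P.prod P).X, TT j i)}
    (hv : ee j i (TT j i) (TT_le j i) * v = 1) : (P.prod P).X.basicOpen (1 - v) ≤ TT i j := by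
  intro z hz
  have hz' : z ∈ TT j i := Scheme.basicOpen_le _ _ hz
  obtain ⟨γ, hγ⟩ : ∃ γ, γ = (P.prod P).X.fromSpecResidueField z := ⟨_, rfl⟩
  have hpt : γ (IsLocalRing.closedPoint ((P.prod P).X.residueField z)) = z := by
    rw [hγ, Scheme.fromSpecResidueField_apply]
  have h0 : ⊤ ≤ γ ⁻¹ᵁ TT j i := by
    rw [hγ]
    exact pt_le hz'
  have h1 : ⊤ ≤ (γ ≫ p₁ P) ⁻¹ᵁ W j := fun x hx => (TT_le j i (h0 hx)).1
  have h2 : ⊤ ≤ (γ ≫ p₂ P) ⁻¹ᵁ W i := fun x hx => (TT_le j i (h0 hx)).2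
  have h3 := (ev_ne_zero (isField_res z) γ (TT j i) h0 (1 - v) (IsLocalRing.closedPoint _)).1 (by rw [hpt]; exact hz)
  have h4 := congrArg (ev γ (TT j i) h0) hv
  rw [map_mul, map_one, ev_ee j i γ _ _ h0 h1 h2] at h4
  rw [map_sub, map_one] at h3
  have h5 : ev (γ ≫ p₁ P) (W j) h1 (co j) * ev (γ ≫ p₂ P) (W i) h2 (co i) ≠ 0 := by
    intro h6
    rw [h6, sub_zero, one_mul] at h4
    rw [h4, sub_self] at h3
    exact h3 rfl
  have h6 : IsUnit (ev (γ ≫ p₁ P) (W j) h1 (co j)) := by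
    let _ : Field ((P.prod P).X.residueField z) := (isField_res z).toField
    exact isUnit_iff_ne_zero.2 (left_ne_zero_of_mul h5)
  have h7 : IsUnit (ev (γ ≫ p₂ P) (W i) h2 (co i)) := by
    let _ : Field ((P.prod P).X.residueField z) := (isField_res z).toField
    exact isUnit_iff_ne_zero.2 (right_ne_zero_of_mul h5)
  have h8 := in_both hg.symm (γ ≫ p₁ P) h1 h6
  have h9 := in_both hg (γ ≫ p₂ P) h2 h7
  have hzQ : z ∈ QQ i j := by
    rw [← hpt]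
    exact ⟨h8 (Set.mem_univ _), h9 (Set.mem_univ _)⟩
  subst hγ
  refine (pt_ev hzQ).2 ?_
  intro h10
  have h11 := prod_one hg _ h8 h1
  have h12 := prod_one hg _ h2 h9
  apply h5
  have h13 : ev ((P.prod P).X.fromSpecResidueField z ≫ p₁ P) (W j) h1 (co j) *
      ev ((P.prod P).X.fromSpecResidueField z ≫ p₂ P) (W i) h2 (co i) = 1 := by
    linear_combination (-(ev ((P.prod P).X.fromSpecResidueField z ≫ p₁ P) (W j) h1 (co j)) *
      ev ((P.prod P).X.fromSpecResidueField z ≫ p₂ P) (W i) h2 (co i)) * h10 +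
      ev ((P.prod P).X.fromSpecResidueField z ≫ p₂ P) (W i) h2 (co i) *
      ev ((P.prod P).X.fromSpecResidueField z ≫ p₂ P) (W j) h9 (co j) * h11 + h12
  rw [h13, sub_self, zero_mul] at h4
  rw [h13]
  exact h4.symm

theorem inv_ex (i j : OpenIn (aff k k[X]) P) : ∃ v, ee i j (TT i j) (TT_le i j) * v = 1 := by
  have h1 : IsUnit ((P.prod P).X.presheaf.map (homOfLE (TT_le i j)).op (ee i j (QQ i j) le_rfl)) :=
    RingedSpace.isUnit_res_basicOpen (P.prod P).X.toRingedSpace (ee i j (QQ i j) le_rfl)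
  rw [ee_res] at h1
  exact h1.exists_right_inv

end prod

theorem glue_sec {X : Scheme.{0}} (S S' : X.Opens) (v : Γ(X, S)) (w : Γ(X, S'))
    (h : X.presheaf.map (homOfLE (inf_le_left : S ⊓ S' ≤ S)).op v =
      X.presheaf.map (homOfLE (inf_le_right : S ⊓ S' ≤ S')).op w) :
    ∃ u : Γ(X, S ⊔ S'), X.presheaf.map (homOfLE (le_sup_left : S ≤ S ⊔ S')).op u = v ∧
      X.presheaf.map (homOfLE (le_sup_right : S' ≤ S ⊔ S')).op u = w :=
  ⟨(X.sheaf.objSupIsoProdEqLocus S S').inv ⟨(v, w), h⟩,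
    TopCat.Sheaf.objSupIsoProdEqLocus_inv_fst X.sheaf S S' ⟨(v, w), h⟩,
    TopCat.Sheaf.objSupIsoProdEqLocus_inv_snd X.sheaf S S' ⟨(v, w), h⟩⟩

end GDIAG

open _root_.CUB.GDIAG in
theorem t_DIAG : S_DIAG := by
  intro k _ H
  have hg : Gl H.j₀ H.j₁ := H.glue
  have hc : ∀ x : H.P.X, x ∈ W H.j₀ ∨ x ∈ W H.j₁ := by
    intro x
    have h1 : x ∈ Set.range H.j₀.g ∪ Set.range H.j₁.g := by
      rw [H.cover]
      trivial
    exact h1.imp mem_W.2 mem_W.2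
  refine ⟨TT H.j₀ H.j₁ ⊔ TT H.j₁ H.j₀, ?_, ?_⟩
  · ext z
    exact cover hg hc z
  · obtain ⟨v, hv⟩ := inv_ex H.j₀ H.j₁
    obtain ⟨v', hv'⟩ := inv_ex H.j₁ H.j₀
    have hE1 := lemE hg hv'
    have hE2 := lemE hg.symm hv
    have hS1 := TT_aff H.j₀ H.j₁
    have hS2 := TT_aff H.j₁ H.j₀
    have hsum : (H.P.prod H.P).X.presheaf.map (homOfLE (inf_le_left : TT H.j₀ H.j₁ ⊓ TT H.j₁ H.j₀ ≤ _)).op v +
        (H.P.prod H.P).X.presheaf.map (homOfLE (inf_le_right : TT H.j₀ H.j₁ ⊓ TT H.j₁ H.j₀ ≤ _)).op v' = 1 := by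
      refine sum_one hg (inf_le_left.trans (TT_le _ _)) (inf_le_right.trans (TT_le _ _)) ?_ ?_
      · rw [← ee_res H.j₀ H.j₁ (TT_le _ _) inf_le_left, ← map_mul, hv, map_one]
      · rw [← ee_res H.j₁ H.j₀ (TT_le _ _) inf_le_right, ← map_mul, hv', map_one]
    have hu1 : (H.P.prod H.P).X.basicOpen v = TT H.j₀ H.j₁ :=
      Scheme.basicOpen_of_isUnit _ (IsUnit.of_mul_eq_one_right _ hv)
    have hu2 : (H.P.prod H.P).X.basicOpen v' = TT H.j₁ H.j₀ :=
      Scheme.basicOpen_of_isUnit _ (IsUnit.of_mul_eq_one_right _ hv')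
    obtain ⟨u, h1, h2⟩ := glue_sec (TT H.j₀ H.j₁) (TT H.j₁ H.j₀) v (1 - v') (by
      rw [map_sub, map_one]
      exact eq_sub_of_add_eq hsum)
    have h3 : (H.P.prod H.P).X.basicOpen u = TT H.j₀ H.j₁ := by
      apply le_antisymm
      · intro z hz
        rcases (Scheme.basicOpen_le _ _ hz : z ∈ TT H.j₀ H.j₁ ⊔ TT H.j₁ H.j₀) with h | h
        · exact h
        · apply hE1
          rw [← h2, Scheme.basicOpen_res]
          exact ⟨h, hz⟩
      · intro z hz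
        rw [← hu1, ← h1, Scheme.basicOpen_res] at hz
        exact hz.2
    have h4 : (H.P.prod H.P).X.basicOpen (1 - u) = TT H.j₁ H.j₀ := by
      apply le_antisymm
      · intro z hz
        rcases (Scheme.basicOpen_le _ _ hz : z ∈ TT H.j₀ H.j₁ ⊔ TT H.j₁ H.j₀) with h | h
        · apply hE2
          rw [← h1, ← map_one ((H.P.prod H.P).X.presheaf.map (homOfLE (le_sup_left : TT H.j₀ H.j₁ ≤
            TT H.j₀ H.j₁ ⊔ TT H.j₁ H.j₀)).op).hom]
          rw [← map_sub, Scheme.basicOpen_res]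
          exact ⟨h, hz⟩
        · exact h
      · intro z hz
        have h5 : v' = (H.P.prod H.P).X.presheaf.map (homOfLE (le_sup_right : TT H.j₁ H.j₀ ≤
            TT H.j₀ H.j₁ ⊔ TT H.j₁ H.j₀)).op (1 - u) := by
          rw [map_sub, map_one, h2]
          ring
        rw [← hu2, h5, Scheme.basicOpen_res] at hz
        exact hz.2
    refine isAffineOpen_of_isAffineOpen_basicOpen _ {u, 1 - u} ?_ ?_
    · rw [Ideal.eq_top_iff_one]
      have h6 : (1 : Γ((H.P.prod H.P).X, TT H.j₀ H.j₁ ⊔ TT H.j₁ H.j₀)) = u + (1 - u) := by ring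
      rw [h6]
      exact Ideal.add_mem _ (Ideal.subset_span (by simp)) (Ideal.subset_span (by simp))
    · rintro a (rfl | ha)
      · rw [h3]
        exact hS1
      · rw [Set.mem_singleton_iff.1 ha, h4]
        exact hS2

end CUB


end
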