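import Mathlib
import Pool.Agent.QVM.C04
import Pool.Agent.QVM.C08
import Pool.Agent.QVM.C10

/-! Parts: CUB.StmtsV, CUB.V_CUV, CUB.V_MAIN, CUB.V_PAD, CUB.V_SMI, CUB.V_SMO, CUB.V_SURJ -/

section

/-!
# CUB, block V: presentations, smoothness (statements)

Module `X` proves `theorem t_X : M_X` (or `t_X : S_X` if there is no `M_X`) in the namespace `CUB`, in the file
`Pool/Agent/CUB/V_X.lean`, importing this file.  The hypotheses of `M_X` are statements of other modules.
-/

set_option autoImplicit false

open Polynomial CategoryTheory AlgebraicGeometry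

namespace CUB

open Pool.Agent.Lib_helper55.Beil

universe v

/-- QUAD. Every algebra of finite type is defined by equations of degree at most two. Take a presentation `k[x_1, ..., x_n] / I`, `I` generated by finitely many polynomials of degree `≤ D`. New variables `u_a`, one for each exponent `a` with `|a| ≤ D` (a finite type, then reindex by `Fin N`), `u_a ↦ x^a`. Equations: `u_0 - 1`; `u_a u_b - u_(a+b)` whenever `|a + b| ≤ D`; and
for each generator `g = ∑ g_a x^a` of `I` the linear polynomial `∑ g_a u_a`. Let `J` be the ideal generated by them. Modulo `J`, `u_a = ∏ u_(e_i)^(a_i)` (induction on `|a|`), so the homomorphism `k[x] → k[u] / J`, `x_i ↦ u_(e_i)`, is surjective, it maps `g` to `∑ g_a u_a = 0`, so it factors through `A = k[x] / I`; the composition `A → k[u] / J → A` is the identity, so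
`A → k[u] / J` is an isomorphism, inverse to the given map. (Other proofs are fine: for instance add one variable `z` and one equation `z - x y` at a time.) -/
def S_QUAD : Prop := ∀ (k A : Type) [Field k] [CommRing A] [Algebra k A]
  [Algebra.FiniteType k A], ∃ (N m : ℕ) (f : Fin m → MvPolynomial (Fin N) k)
  (φ : MvPolynomial (Fin N) k →ₐ[k] A), Function.Surjective φ ∧
  RingHom.ker φ.toRingHom = Ideal.span (Set.range f) ∧ ∀ j, (f j).totalDegree ≤ 2

/-- PAD. Adding the equation `0` (one more equation), and adding a variable `x` and the equation `x = 0` (one more variable, one more equation; `φ x = 0`, the kernel is generated by the old equations and `x`). -/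
def S_PAD : Prop := ∀ (k A : Type) [Field k] [CommRing A] [Algebra k A] (N m : ℕ)
  (f : Fin m → MvPolynomial (Fin N) k) (φ : MvPolynomial (Fin N) k →ₐ[k] A),
  Function.Surjective φ → RingHom.ker φ.toRingHom = Ideal.span (Set.range f) →
  (∀ j, (f j).totalDegree ≤ 2) → ∀ (N' m' : ℕ), N ≤ N' → m + (N' - N) ≤ m' →
  ∃ (f' : Fin m' → MvPolynomial (Fin N') k) (φ' : MvPolynomial (Fin N') k →ₐ[k] A),
    Function.Surjective φ' ∧ RingHom.ker φ'.toRingHom = Ideal.span (Set.range f') ∧
    ∀ j, (f' j).totalDegree ≤ 2

/-- CUV. `MvPolynomial (Fin b) (MvPolynomial (Fin a) k) ≃ MvPolynomial (Fin b ⊕ Fin a) k ≃ MvPolynomial (Fin (3 n)) k` (`MvPolynomial.sumAlgEquiv`, `renameEquiv`), `F` the image of `∑ t_j f_j`, of degree `≤ 3` (a product of a variable and a renamed polynomial of degree `≤ 2`), and `Qmap` of the isomorphism. -/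
def S_CUV : Prop := ∀ (k : Type) [Field k] (a b n : ℕ), a + b = 3 * n →
  ∀ f : Fin b → MvPolynomial (Fin a) k, (∀ j, (f j).totalDegree ≤ 2) →
  ∃ F : MvPolynomial (Fin (3 * n)) k, F.totalDegree ≤ 3 ∧
    Nonempty (Q (MvPolynomial (Fin (3 * n)) k) F ≃ₐ[k] VR (MvPolynomial (Fin a) k) f)

/-- SMO. `VR P f` is smooth over `k` for `P = k[x_1, ..., x_a]`: standard smooth presentation `k[x, t, y] / (y^2 - y - ∑ t_j f_j)`: locally, where the partial derivative with respect to `y` (`2 y - 1`) or with respect to `t_l` (`- f_l`) is invertible it is standard smooth (Jacobian criterion, Mathlib `Algebra.SubmersivePresentation`), and these open sets cover: a prime containing `2 y - 1` and all the `f_l`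
contains `y^2 - y` and `(2 y - 1)^2 - 4 (y^2 - y) = 1`. Or use S_VRL: away from `f_l` it is a polynomial ring over a localised polynomial ring; away from `2 y - 1` it is standard etale over `P[t]` (`Algebra.IsStandardEtale` or the like). Smoothness is local on the source (`HasRingHomProperty` / `Smooth` is local). `Smooth (aff k A).f` with `(aff k A).f = Spec.map (ofHom (algebraMap k A))`: the ring map is smooth
(`RingHom.Smooth`, `Algebra.Smooth k A`). -/
def S_SMO : Prop := ∀ (k : Type) [Field k] (a b : ℕ) (f : Fin b → MvPolynomial (Fin a) k),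
  Smooth (aff k (VR (MvPolynomial (Fin a) k) f)).f

def M_SMO : Prop := S_VRL → S_SMO

/-- SMI. Smoothness of `aff k A` is invariant under isomorphisms of algebras. -/
def S_SMI : Prop := ∀ (k A B : Type) [Field k] [CommRing A] [CommRing B] [Algebra k A]
  [Algebra k B] [Algebra.FiniteType k A] [Algebra.FiniteType k B], (A ≃ₐ[k] B) →
  Smooth (aff k A).f → Smooth (aff k B).f

/-- RED. The reduction step (block V, helper66). -/
def S_RED : Prop := ∀ (k E : Type) [Field k] [Finite k] [Field E] [CharZero E]
  (T : ∀ i : ℕ, Homology.{v} k E i), Extra T → ∀ (R R' : Type) [CommRing R] [CommRing R']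
  [Algebra k R] [Algebra k R'] [Algebra.FiniteType k R] [Algebra.FiniteType k R'] (m i : ℕ)
  (f : Fin (m + 1) → R) (ψ : R →ₐ[k] R'), Function.Surjective ψ →
  RingHom.ker ψ.toRingHom = Ideal.span (Set.range f) → (∀ z : RP k R i →₀ E, z ∈ rat k R E i) →
  ((T (i + (m + 1))).Inj (aff k (VR R f)) → (T i).Inj (aff k R')) ∧
  ((T (i + (m + 1))).Surj (aff k (VR R f)) → (T i).Surj (aff k R'))

/-- MAIN. From smooth cubic hypersurfaces to all affine varieties. By `exists_aff`, `inj_viso`, `surj_viso` (Bridge) it is enough to treat `aff k A`. Take a presentation of `A` by S_QUAD with `N` variables and `m` equations, let `n = N + m + 2 i + 1`, `N' = n + i`, `m' = 2 n - i = (m' - 1) + 1`; S_PAD gives a presentation with `N'` variables and `m'` equations (`m + (N' - N) ≤ m'`). `i < N'`, so all `i`-dimensional cycles of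
`k[x_1, ..., x_N']` are in `rat` (S_ZPOL). `N' + m' = 3 n`: by S_CUV the ring `VR _ f'` is isomorphic to the coordinate ring of a cubic hypersurface `cubic F`, smooth by S_SMO, S_SMI. `i + m' = 2 n`, so the hypothesis for `n`, `F` gives `Inj` and `Surj` for `T (i + m')` and `aff k (VR _ f')`, and S_RED for `aff k A`. -/
def S_MAIN : Prop := ∀ (k E : Type) [Field k] [Finite k] [Field E] [CharZero E]
  (T : ∀ i : ℕ, Homology.{v} k E i), Extra T →
  ((∀ (n : ℕ) (F : MvPolynomial (Fin (3 * n)) k), F.totalDegree ≤ 3 → Smooth (cubic F).f →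
    (T (2 * n)).Inj (cubic F)) → ∀ (i : ℕ) (X : Var k), IsAffine X.X → (T i).Inj X) ∧
  ((∀ (n : ℕ) (F : MvPolynomial (Fin (3 * n)) k), F.totalDegree ≤ 3 → Smooth (cubic F).f →
    (T (2 * n)).Surj (cubic F)) → ∀ (i : ℕ) (X : Var k), IsAffine X.X → (T i).Surj X)

def M_MAIN : Prop := S_QUAD → S_PAD → S_CUV → S_SMO → S_SMI → S_ZPOL → S_RED.{v} → S_MAIN.{v}

/-- SURJ. If `Surj` holds for all affine varieties then `Surj` and `Semisimple` hold for all varieties, by the theorem of helper55: `Homology.surj_of_good`, `semisimple_of_good`, `good_of_cover` in `Pool/Agent/Lib_helper55/Beil` (see `Results/MP_3af9db_ag/EtaleCoversSuffice.lean`): its hypothesis `CoverVanish` is only about integral finite etale covers `U` of affine spaces, which are affine (finite morphism to an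
affine scheme); as in that file: `T.inv_zero_of_surj`. -/
def S_SURJ : Prop := ∀ (k E : Type) [Field k] [Finite k] [Field E] (i : ℕ)
  (T : Homology.{v} k E i), (∀ X : Var k, IsAffine X.X → T.Surj X) →
  ∀ X : Var k, T.Surj X ∧ T.Semisimple X

end CUB


end

section

/-!
# CUB, module CUV
-/

set_option autoImplicit false

open Polynomial

namespace CUB

namespace CUV

/-- The isomorphism of double covers defined by an isomorphism of the bases. -/
noncomputable def Qequiv {k T S : Type} [Field k] [CommRing T] [CommRing S] [Algebra k T]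
    [Algebra k S] {g : T} {g' : S} (φ : T ≃ₐ[k] S) (h : φ g = g') : Q T g ≃ₐ[k] Q S g' :=
  AlgEquiv.ofAlgHom (Qmap (φ : T →ₐ[k] S) h)
    (Qmap (φ.symm : S →ₐ[k] T) (by rw [← h]; exact φ.symm_apply_apply g))
    (by
      apply Q_ext
      · intro t
        rw [AlgHom.comp_apply, Qmap_algebraMap, Qmap_algebraMap]
        simp
      · rw [AlgHom.comp_apply, Qmap_yy, Qmap_yy]
        rfl)
    (by
      apply Q_ext
      · intro t
        rw [AlgHom.comp_apply, Qmap_algebraMap, Qmap_algebraMap]
        simp
      · rw [AlgHom.comp_apply, Qmap_yy, Qmap_yy]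
        rfl)

/-- The reindexing of the variables. -/
def idx {a b n : ℕ} (h : a + b = 3 * n) : Fin b ⊕ Fin a ≃ Fin (3 * n) :=
  finSumFinEquiv.trans (finCongr (by omega))

end CUV

open _root_.CUB.CUV

theorem t_CUV : S_CUV := by
  intro k _ a b n hab f hf
  let G : MvPolynomial (Fin b ⊕ Fin a) k :=
    ∑ j, MvPolynomial.X (Sum.inl j) * MvPolynomial.rename Sum.inr (f j)
  have hG : G.totalDegree ≤ 3 := by
    refine MvPolynomial.totalDegree_finsetSum_le (fun j _ => ?_)
    refine (MvPolynomial.totalDegree_mul _ _).trans ?_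
    have h1 : (MvPolynomial.X (Sum.inl j) : MvPolynomial (Fin b ⊕ Fin a) k).totalDegree = 1 :=
      MvPolynomial.totalDegree_X _
    have h2 := MvPolynomial.totalDegree_rename_le (Sum.inr : Fin a → Fin b ⊕ Fin a) (f j)
    have h3 := hf j
    omega
  have hS : MvPolynomial.sumAlgEquiv k (Fin b) (Fin a) G = lin f := by
    have hr : ∀ p : MvPolynomial (Fin a) k,
        MvPolynomial.sumAlgEquiv k (Fin b) (Fin a) (MvPolynomial.rename Sum.inr p) =
          MvPolynomial.C p := by
      intro p
      exact DFunLike.congr_fun (MvPolynomial.sumAlgEquiv_comp_rename_inr (R := k)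
        (S₁ := Fin b) (S₂ := Fin a)) p
    simp only [G, lin, map_sum, map_mul, hr, MvPolynomial.sumAlgEquiv_X_inl]
  refine ⟨MvPolynomial.rename (idx hab) G, ?_, ⟨Qequiv
    ((MvPolynomial.renameEquiv k (idx hab)).symm.trans
      (MvPolynomial.sumAlgEquiv k (Fin b) (Fin a))) ?_⟩⟩
  · exact (MvPolynomial.totalDegree_rename_le _ _).trans hG
  · rw [← hS, AlgEquiv.trans_apply]
    congr 1
    rw [AlgEquiv.symm_apply_eq]
    rfl

end CUB


end

section

/-!
# CUB, module MAIN: from smooth cubic hypersurfaces to all affine varieties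
-/

set_option autoImplicit false

open Polynomial CategoryTheory AlgebraicGeometry

namespace CUB

open Pool.Agent.Lib_helper55.Beil

universe v

namespace MAIN

theorem core (hQ : S_QUAD) (hP : S_PAD) (hC : S_CUV) (hS : S_SMO) (hI : S_SMI) (hZ : S_ZPOL)
    (hR : S_RED.{v}) (k E : Type) [Field k] [Finite k] [Field E] [CharZero E]
    (T : ∀ i : ℕ, Homology.{v} k E i) (hT : Extra T) (i : ℕ) (A : Type) [CommRing A]
    [Algebra k A] [Algebra.FiniteType k A] :
    ∃ (n : ℕ) (F : MvPolynomial (Fin (3 * n)) k), F.totalDegree ≤ 3 ∧ Smooth (cubic F).f ∧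
      ((T (2 * n)).Inj (cubic F) → (T i).Inj (aff k A)) ∧
      ((T (2 * n)).Surj (cubic F) → (T i).Surj (aff k A)) := by
  obtain ⟨N, m, f, φ, hφ, hk, hd⟩ := hQ k A
  obtain ⟨f', φ', hφ', hk', hd'⟩ := hP k A N m f φ hφ hk hd (N + m + 3 * i + 1)
    (2 * N + 2 * m + 3 * i + 1 + 1) (by omega) (by omega)
  obtain ⟨F, hF, ⟨e⟩⟩ := hC k (N + m + 3 * i + 1) (2 * N + 2 * m + 3 * i + 1 + 1)
    (N + m + 2 * i + 1) (by omega) f' hd'
  have h2 : 2 * (N + m + 2 * i + 1) = i + (2 * N + 2 * m + 3 * i + 1 + 1) := by omega
  have hs : Smooth (cubic F).f := hI k _ _ e.symm (hS k _ _ f')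
  obtain ⟨r1, r2⟩ := hR k E T hT (MvPolynomial (Fin (N + m + 3 * i + 1)) k) A
    (2 * N + 2 * m + 3 * i + 1) i f' φ' hφ' hk'
    (fun z => hZ k E (N + m + 3 * i + 1) i (by omega) z)
  refine ⟨N + m + 2 * i + 1, F, hF, hs, fun h => r1 ?_, fun h => r2 ?_⟩
  · rw [h2] at h
    exact (inj_viso (T _) (viso e)).mpr h
  · rw [h2] at h
    exact (surj_viso T _ (viso e)).mpr h

end MAIN

theorem t_MAIN : M_MAIN.{v} := by
  intro hQ hP hC hS hI hZ hR k E _ _ _ _ T hT
  constructor
  · intro h i X hX
    obtain ⟨A, _, _, _, ⟨s⟩⟩ := exists_aff X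
    obtain ⟨n, F, h1, h2, h3, -⟩ := MAIN.core hQ hP hC hS hI hZ hR k E T hT i A
    exact (inj_viso (T i) s).mp (h3 (h n F h1 h2))
  · intro h i X hX
    obtain ⟨A, _, _, _, ⟨s⟩⟩ := exists_aff X
    obtain ⟨n, F, h1, h2, -, h3⟩ := MAIN.core hQ hP hC hS hI hZ hR k E T hT i A
    exact (surj_viso T i s).mp (h3 (h n F h1 h2))

end CUB


end

section

/-!
# CUB: more variables and more equations
-/

set_option autoImplicit false

open Polynomial CategoryTheory AlgebraicGeometry

namespace CUB

namespace PAD

/-- The new variables are mapped to zero. -/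
noncomputable def rho (k : Type) [Field k] (N N' : ℕ) :
    MvPolynomial (Fin N') k →ₐ[k] MvPolynomial (Fin N) k :=
  MvPolynomial.aeval fun j : Fin N' => if h : (j : ℕ) < N then MvPolynomial.X ⟨j, h⟩ else 0

theorem rho_X_lt (k : Type) [Field k] (N N' : ℕ) (j : Fin N') (h : (j : ℕ) < N) :
    rho k N N' (MvPolynomial.X j) = MvPolynomial.X ⟨j, h⟩ := by
  rw [rho, MvPolynomial.aeval_X, dif_pos h]

theorem rho_X_ge (k : Type) [Field k] (N N' : ℕ) (j : Fin N') (h : ¬ (j : ℕ) < N) :
    rho k N N' (MvPolynomial.X j) = 0 := by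
  rw [rho, MvPolynomial.aeval_X, dif_neg h]

theorem rho_rename (k : Type) [Field k] (N N' : ℕ) (hN : N ≤ N') (P : MvPolynomial (Fin N) k) :
    rho k N N' (MvPolynomial.rename (Fin.castLE hN) P) = P := by
  have h : (rho k N N').comp (MvPolynomial.rename (Fin.castLE hN)) =
      AlgHom.id k (MvPolynomial (Fin N) k) := by
    refine MvPolynomial.algHom_ext fun i => ?_
    rw [AlgHom.comp_apply, MvPolynomial.rename_X, rho_X_lt k N N' _ i.2]
    rfl
  exact DFunLike.congr_fun h P

/-- The new equations. -/
noncomputable def eqs (k : Type) [Field k] (N N' m m' : ℕ) (hN : N ≤ N')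
    (f : Fin m → MvPolynomial (Fin N) k) (j : Fin m') : MvPolynomial (Fin N') k :=
  if h : (j : ℕ) < m then MvPolynomial.rename (Fin.castLE hN) (f ⟨j, h⟩)
  else if h' : N + (j - m) < N' then MvPolynomial.X ⟨N + (j - m), h'⟩ else 0

theorem X_mem (k : Type) [Field k] (N N' m m' : ℕ) (hN : N ≤ N') (hm : m + (N' - N) ≤ m')
    (f : Fin m → MvPolynomial (Fin N) k) (j : Fin N') (h : ¬ (j : ℕ) < N) :
    (MvPolynomial.X j : MvPolynomial (Fin N') k) ∈
      Ideal.span (Set.range (eqs k N N' m m' hN f)) := by
  have hj := j.2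
  have h1 : m + ((j : ℕ) - N) < m' := by omega
  refine Ideal.subset_span ⟨⟨m + ((j : ℕ) - N), h1⟩, ?_⟩
  have h2 : ¬ (m + ((j : ℕ) - N) < m) := by omega
  have h3 : N + (m + ((j : ℕ) - N) - m) < N' := by omega
  unfold eqs
  rw [dif_neg h2, dif_pos h3]
  congr 1
  refine Fin.ext ?_
  change N + (m + ((j : ℕ) - N) - m) = j
  omega

theorem rename_mem (k : Type) [Field k] (N N' m m' : ℕ) (hN : N ≤ N') (hm : m + (N' - N) ≤ m')
    (f : Fin m → MvPolynomial (Fin N) k) (j : Fin m) :
    MvPolynomial.rename (Fin.castLE hN) (f j) ∈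
      Ideal.span (Set.range (eqs k N N' m m' hN f)) := by
  have h1 : (j : ℕ) < m' := by have := j.2; omega
  refine Ideal.subset_span ⟨⟨j, h1⟩, ?_⟩
  unfold eqs
  rw [dif_pos j.2]

theorem sub_mem (k : Type) [Field k] (N N' m m' : ℕ) (hN : N ≤ N') (hm : m + (N' - N) ≤ m')
    (f : Fin m → MvPolynomial (Fin N) k) (P : MvPolynomial (Fin N') k) :
    P - MvPolynomial.rename (Fin.castLE hN) (rho k N N' P) ∈
      Ideal.span (Set.range (eqs k N N' m m' hN f)) := by
  have h : (Ideal.Quotient.mkₐ k (Ideal.span (Set.range (eqs k N N' m m' hN f)))) =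
      ((Ideal.Quotient.mkₐ k (Ideal.span (Set.range (eqs k N N' m m' hN f)))).comp
        (MvPolynomial.rename (Fin.castLE hN))).comp (rho k N N') := by
    refine MvPolynomial.algHom_ext fun j => ?_
    rw [AlgHom.comp_apply, AlgHom.comp_apply]
    by_cases hj : (j : ℕ) < N
    · rw [rho_X_lt k N N' j hj, MvPolynomial.rename_X]
      rfl
    · rw [rho_X_ge k N N' j hj, map_zero, map_zero]
      exact Ideal.Quotient.eq_zero_iff_mem.2 (X_mem k N N' m m' hN hm f j hj)
  rw [← Ideal.Quotient.eq]
  exact DFunLike.congr_fun h P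

end PAD

/-- More variables and more equations. -/
theorem t_PAD : S_PAD := by
  intro k A _ _ _ N m f φ hφ hker hdeg N' m' hN hm
  refine ⟨PAD.eqs k N N' m m' hN f, φ.comp (PAD.rho k N N'), ?_, ?_, ?_⟩
  · intro x
    obtain ⟨P, rfl⟩ := hφ x
    exact ⟨MvPolynomial.rename (Fin.castLE hN) P, congrArg φ (PAD.rho_rename k N N' hN P)⟩
  · have hmem : ∀ P : MvPolynomial (Fin N) k, φ P = 0 ↔ P ∈ Ideal.span (Set.range f) := by
      intro P
      rw [← hker]
      rfl
    refine le_antisymm ?_ ?_
    · intro P hP
      have hP' : φ (PAD.rho k N N' P) = 0 := hP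
      rw [hmem] at hP'
      have h1 : MvPolynomial.rename (Fin.castLE hN) (PAD.rho k N N' P) ∈
          Ideal.span (Set.range (PAD.eqs k N N' m m' hN f)) := by
        have h2 := Ideal.mem_map_of_mem
          (MvPolynomial.rename (R := k) (Fin.castLE hN) : MvPolynomial (Fin N) k →ₐ[k]
            MvPolynomial (Fin N') k).toRingHom hP'
        rw [Ideal.map_span] at h2
        refine (Ideal.span_le.2 ?_) h2
        rintro _ ⟨_, ⟨j, rfl⟩, rfl⟩
        exact PAD.rename_mem k N N' m m' hN hm f j
      have h3 := Ideal.add_mem _ (PAD.sub_mem k N N' m m' hN hm f P) h1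
      rwa [sub_add_cancel] at h3
    · rw [Ideal.span_le]
      rintro _ ⟨j, rfl⟩
      change φ (PAD.rho k N N' (PAD.eqs k N N' m m' hN f j)) = 0
      unfold PAD.eqs
      split_ifs with h h'
      · rw [PAD.rho_rename, hmem]
        exact Ideal.subset_span ⟨_, rfl⟩
      · rw [PAD.rho_X_ge k N N' _ (by change ¬ (N + ((j : ℕ) - m) < N); omega), map_zero]
      · rw [map_zero, map_zero]
  · intro j
    unfold PAD.eqs
    split_ifs with h h'
    · exact (MvPolynomial.totalDegree_rename_le _ _).trans (hdeg _)
    · rw [MvPolynomial.totalDegree_X]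
      norm_num
    · rw [MvPolynomial.totalDegree_zero]
      norm_num

end CUB


end

section

/-!
# CUB, module SMI: smoothness is invariant under isomorphisms of algebras
-/

set_option autoImplicit false

open Polynomial CategoryTheory AlgebraicGeometry

namespace CUB

open Pool.Agent.Lib_helper55.Beil

/-- SMI. -/
theorem t_SMI : S_SMI := by
  intro k A B _ _ _ _ _ _ _ e h
  have h1 := (viso e).comm
  rw [← h1]
  exact (MorphismProperty.cancel_left_of_respectsIso @Smooth (viso e).e.hom (aff k A).f).2 h

end CUB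


end

section

/-!
# CUB, module SMO: `VR P f` is smooth over `k` for a polynomial ring `P`
-/

set_option autoImplicit false

open Polynomial CategoryTheory AlgebraicGeometry

namespace CUB

open Pool.Agent.Lib_helper55.Beil

namespace SMO

/-- The standard etale pair of the double cover. -/
noncomputable def pair {T : Type} [CommRing T] (g : T) : StandardEtalePair T where
  f := asPoly g
  monic_f := asPoly_monic g
  g := derivative (asPoly g)
  cond := ⟨1, 0, 1, by simp⟩

lemma mk_derivative {T : Type} [CommRing T] (g : T) :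
    AdjoinRoot.mk (asPoly g) (derivative (asPoly g)) = 2 * yy g - 1 := by
  have h : derivative (asPoly g) = (2 : T[X]) * X - 1 := by
    simp [asPoly]
    norm_num
  rw [h, map_sub, map_mul, map_one, AdjoinRoot.mk_X, map_ofNat]
  rfl

lemma etale {T : Type} [CommRing T] (g : T) :
    Algebra.Etale T (Localization.Away (2 * yy g - 1)) := by
  rw [← mk_derivative g]
  exact Algebra.Etale.of_equiv (pair g).equivAwayAdjoinRoot

lemma smoothMv {k : Type} [Field k] {R : Type} [CommRing R] [Algebra k R]
    [Algebra.Smooth k R] (m : ℕ) : Algebra.Smooth k (MvPolynomial (Fin m) R) := by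
  have h : Algebra.Smooth R (MvPolynomial (Fin m) R) := ⟨inferInstance, inferInstance⟩
  exact Algebra.Smooth.comp k R _

lemma smoothX {k : Type} [Field k] {R : Type} [CommRing R] [Algebra k R]
    [Algebra.Smooth k R] : Algebra.Smooth k R[X] := by
  have h : Algebra.Smooth R R[X] := ⟨inferInstance, inferInstance⟩
  exact Algebra.Smooth.comp k R _

lemma smooth1 {k : Type} [Field k] {T : Type} [CommRing T] [Algebra k T] [Algebra.Smooth k T]
    (g : T) : Algebra.Smooth k (Localization.Away (2 * yy g - 1)) := by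
  have := etale g
  exact Algebra.Smooth.comp k T _

lemma smooth2 (hVRL : S_VRL) {k : Type} [Field k] {R : Type} [CommRing R] [Algebra k R]
    [Algebra.Smooth k R] (m : ℕ) (f : Fin (m + 1) → R) (l : Fin (m + 1)) :
    Algebra.Smooth k (Localization.Away (VRbase (k := k) f (f l))) := by
  obtain ⟨e, -⟩ := hVRL k R (Localization.Away (f l))
    (Localization.Away (VRbase (k := k) f (f l))) m f l
    (IsScalarTower.toAlgHom k R _) (IsScalarTower.toAlgHom k (VR R f) _)
    (by
      have h : (IsScalarTower.toAlgHom k R (Localization.Away (f l))).toRingHom.toAlgebra =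
        (inferInstance : Algebra R (Localization.Away (f l))) := by
        apply Algebra.algebra_ext
        intro r
        rfl
      rw [h]
      infer_instance)
    (by
      have h : (IsScalarTower.toAlgHom k (VR R f)
        (Localization.Away (VRbase (k := k) f (f l)))).toRingHom.toAlgebra =
        (inferInstance : Algebra (VR R f) (Localization.Away (VRbase (k := k) f (f l)))) := by
        apply Algebra.algebra_ext
        intro r
        rfl
      rw [h]
      infer_instance)
  have h0 : Algebra.Smooth R (Localization.Away (f l)) :=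
    ⟨Algebra.FormallySmooth.of_isLocalization (.powers (f l)),
      IsLocalization.Away.finitePresentation (f l)⟩
  have h1 : Algebra.Smooth k (Localization.Away (f l)) := Algebra.Smooth.comp k R _
  have h2 : Algebra.Smooth k (MvPolynomial (Fin m) (Localization.Away (f l))) := smoothMv _
  have h3 : Algebra.Smooth k (MvPolynomial (Fin m) (Localization.Away (f l)))[X] := smoothX
  exact Algebra.Smooth.of_equiv e.symm

/-- The open sets cover. -/
lemma span_top {k : Type} [Field k] {R : Type} [CommRing R] [Algebra k R] (m : ℕ)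
    (f : Fin m → R) :
    Ideal.span (insert (2 * yy (lin f) - 1) (Set.range fun l => VRbase (k := k) f (f l))) = ⊤ := by
  rw [Ideal.eq_top_iff_one]
  set I := Ideal.span (insert (2 * yy (lin f) - 1) (Set.range fun l => VRbase (k := k) f (f l)))
    with hI
  have h1 : 2 * yy (lin f) - 1 ∈ I := Ideal.subset_span (Set.mem_insert _ _)
  have h2 : algebraMap (MvPolynomial (Fin m) R) (VR R f) (lin f) ∈ I := by
    have h : algebraMap (MvPolynomial (Fin m) R) (VR R f) (lin f) =
        ∑ j, algebraMap (MvPolynomial (Fin m) R) (VR R f) (MvPolynomial.X j) *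
          VRbase (k := k) f (f j) := by
      unfold lin
      rw [map_sum]
      refine Finset.sum_congr rfl fun j _ => ?_
      rw [map_mul]
      rfl
    rw [h]
    exact Ideal.sum_mem _ fun j _ => Ideal.mul_mem_left _ _
      (Ideal.subset_span (Set.mem_insert_of_mem _ ⟨j, rfl⟩))
  have h3 : (1 : VR R f) = (2 * yy (lin f) - 1) * (2 * yy (lin f) - 1) -
      4 * algebraMap (MvPolynomial (Fin m) R) (VR R f) (lin f) := by
    linear_combination (-4 : VR R f) * yy_eq (lin f)
  rw [h3]
  exact Ideal.sub_mem _ (Ideal.mul_mem_left _ _ h1) (Ideal.mul_mem_left _ _ h2)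

end SMO

/-- SMO. -/
theorem t_SMO : M_SMO := by
  intro hVRL k _ a b f
  refine (HasRingHomProperty.Spec_iff (P := @Smooth)).2 ?_
  refine RingHom.Smooth.ofLocalizationSpanTarget _ _ (SMO.span_top (k := k) b f) ?_
  rintro ⟨r, hr⟩
  have hk : Algebra.Smooth k (MvPolynomial (Fin a) k) := SMO.smoothMv a
  have h0 : Algebra.Smooth k (Localization.Away r) := by
    rcases hr with rfl | ⟨l, rfl⟩
    · have h1 : Algebra.Smooth k (MvPolynomial (Fin b) (MvPolynomial (Fin a) k)) :=
        SMO.smoothMv b
      exact SMO.smooth1 _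
    · cases b with
      | zero => exact l.elim0
      | succ m => exact SMO.smooth2 hVRL m f l
  exact RingHom.smooth_algebraMap.2 h0

end CUB


end

section

/-!
# SURJ: surjectivity for all affine varieties gives it for all varieties, with semisimplicity
-/

set_option autoImplicit false

open Polynomial CategoryTheory AlgebraicGeometry

namespace CUB

open Pool.Agent.Lib_helper55.Beil

universe v

theorem t_SURJ : S_SURJ.{v} := by
  intro k E _ _ _ i T hT X
  have hc : T.CoverVanish := by
    intro d U _ _ _ hcov h0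
    obtain ⟨g, hg, -, -⟩ := hcov
    have hU : IsAffine U.X := isAffine_of_isAffineHom g
    exact ⟨U, ⟨𝟙 _, Category.id_comp _, inferInstance⟩, inferInstance,
      T.inv_zero_of_surj (hT U hU) h0⟩
  exact ⟨T.surj_of_good X (T.good_of_cover hc X), T.semisimple_of_good X (T.good_of_cover hc X)⟩

end CUB


end
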