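import Mathlib
import Pool.Agent.QVM.C08
import Pool.Agent.QVM.C10
import Pool.Agent.QVM.C36

/-! Parts: CUB.V_STEP, CUB.V_CHAIN, CUB.V_LINE, CUB.V_RED -/

section

/-!
# CUB, block V: anti-invariant homology classes
-/

set_option autoImplicit false

open Polynomial CategoryTheory AlgebraicGeometry

namespace CUB

open Pool.Agent.Lib_helper55.Beil Pool.Agent.Lib_helper66.OneP

universe v

variable {k : Type} [Field k] {E : Type} [Field E]

/-! ## Morphisms of affine varieties -/

section Spm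

variable {A B C : Type} [CommRing A] [CommRing B] [CommRing C]
  [Algebra k A] [Algebra k B] [Algebra k C]
  [Algebra.FiniteType k A] [Algebra.FiniteType k B] [Algebra.FiniteType k C]

lemma spm_comp (φ : A →ₐ[k] B) (χ : B →ₐ[k] C) : spm χ ≫ spm φ = spm (χ.comp φ) :=
  (Spec.map_comp _ _).symm

lemma spm_id : spm (AlgHom.id k A) = 𝟙 (aff k A).X := Spec.map_id _

/-- Push-forward along an isomorphism of algebras. -/
noncomputable abbrev vcl (e : A ≃ₐ[k] B) : ClosedIn (aff k B) (aff k A) := (viso e).cl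

lemma vcl_g (e : A ≃ₐ[k] B) : (vcl e).g = spm (e : A →ₐ[k] B) := rfl

variable (T : ∀ i : ℕ, Homology.{v} k E i)

lemma P_add (i n : ℕ) {Z X : Var k} (a : ClosedIn Z X) (x y : (T i).H n Z) :
    (T i).P n a (x + y) = (T i).P n a x + (T i).P n a y := map_add ((T i).push n a) x y

lemma P_sub (i n : ℕ) {Z X : Var k} (a : ClosedIn Z X) (x y : (T i).H n Z) :
    (T i).P n a (x - y) = (T i).P n a x - (T i).P n a y := map_sub ((T i).push n a) x y

lemma P_neg (i n : ℕ) {Z X : Var k} (a : ClosedIn Z X) (x : (T i).H n Z) :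
    (T i).P n a (-x) = -(T i).P n a x := map_neg ((T i).push n a) x

lemma P_zero (i n : ℕ) {Z X : Var k} (a : ClosedIn Z X) :
    (T i).P n a 0 = 0 := map_zero ((T i).push n a)

end Spm

/-! ## One step, abstract form -/

section Abs

variable {A B Z S : Type} [CommRing A] [CommRing B] [CommRing Z] [CommRing S]
  [Algebra k A] [Algebra k B] [Algebra k Z] [Algebra k S]
  [Algebra.FiniteType k A] [Algebra.FiniteType k B] [Algebra.FiniteType k Z]
  [Algebra.FiniteType k S]
  (T : ∀ i : ℕ, Homology.{v} k E i) (X : Extra T)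

include X in
lemma hstep_abs [CharZero E] (i n : ℕ) (a : A) (φ : A →ₐ[k] B)
    (hφ : @IsLocalization.Away A _ a B _ φ.toRingHom.toAlgebra)
    (π : A →ₐ[k] Z) (hπ : Function.Surjective π) (hk : RingHom.ker π.toRingHom = Ideal.span {a})
    (σ : S →ₐ[k] B) (e : S[X] ≃+* B) (he : ∀ s, e (C s) = σ s)
    (tA : A ≃ₐ[k] A) (tB : B ≃ₐ[k] B) (tZ : Z ≃ₐ[k] Z)
    (h1 : ∀ x, φ (tA x) = tB (φ x)) (h2 : ∀ x, π (tA x) = tZ (π x)) (h3 : ∀ s, tB (σ s) = σ s)
    (α : (T (i + 1)).H (n + 1) (aff k Z)) (ht : (T (i + 1)).P (n + 1) (vcl tZ) α = -α)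
    (hz : (T (i + 1)).P (n + 1) (clo π hπ) α = 0) : α = 0 := by
  have hc := complementary_away φ a hφ π hπ hk
  obtain ⟨u, rfl⟩ := (X.bd_exact (i + 1) (n + 1) _ _ hc α).mp hz
  obtain ⟨m0, hm0⟩ := (X.line_bij i n (lineE σ e he)).surjective u
  have hu : (T (i + 1)).P (n + 2) (vcl tB) u = u := by
    rw [← hm0]
    have hid : (T i).P n (VIso.refl (aff k S)).cl m0 = m0 := X.push_id i n _ _ rfl m0
    have := X.line_nat i n (lineE σ e he) (lineE σ e he) (viso tB) (VIso.refl (aff k S))
      (by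
        have h4 : σ = (tB : B →ₐ[k] B).comp σ := AlgHom.ext fun s => (h3 s).symm
        change spm (tB : B →ₐ[k] B) ≫ spm σ = spm σ ≫ 𝟙 _
        rw [spm_comp, ← h4, Category.comp_id]) m0
    rw [hid] at this
    exact this
  have hnat := X.bd_nat (i + 1) (n + 1) _ _ hc _ _ hc (viso tZ) (viso tB) (viso tA)
    (by
      change spm (tZ : Z →ₐ[k] Z) ≫ spm π = spm π ≫ spm (tA : A →ₐ[k] A)
      rw [spm_comp, spm_comp]
      congr 1
      exact AlgHom.ext fun x => (h2 x).symm)
    (by
      change spm (tB : B →ₐ[k] B) ≫ spm φ = spm φ ≫ spm (tA : A →ₐ[k] A)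
      rw [spm_comp, spm_comp]
      congr 1
      exact AlgHom.ext fun x => (h1 x).symm) u
  have h5 : (T (i + 1)).P (n + 2) (viso tB).cl u = u := hu
  rw [h5] at hnat
  have ht' : (T (i + 1)).P (n + 1) (viso tZ).cl (X.bd (i + 1) (n + 1) _ _ hc u) =
      -(X.bd (i + 1) (n + 1) _ _ hc u) := ht
  rw [ht'] at hnat
  have h6 : (2 : E) • (X.bd (i + 1) (n + 1) _ _ hc u) = 0 := by
    rw [two_smul]
    nth_rw 1 [← hnat]
    exact neg_add_cancel _
  exact (smul_eq_zero.mp h6).resolve_left two_ne_zero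

end Abs

section VRs

variable {R R' : Type} [CommRing R] [CommRing R'] [Algebra k R] [Algebra k R']

lemma tau_VRbase {m : ℕ} (f : Fin m → R) (r : R) :
    tau (k := k) (lin f) (VRbase (k := k) f r) = VRbase (k := k) f r := tau_algebraMap _ _

lemma tau_VRalg {m : ℕ} (f : Fin m → R) (r : MvPolynomial (Fin m) R) :
    tau (k := k) (lin f) (algebraMap _ (VR R f) r) = algebraMap _ (VR R f) r := tau_algebraMap _ _

lemma VRmap_tau {m : ℕ} (f : Fin m → R) (ψ : R →ₐ[k] R') (x : VR R f) :
    VRmap ψ f (tau (k := k) (lin f) x) = tau (k := k) (lin fun j => ψ (f j)) (VRmap ψ f x) := by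
  have h : (VRmap ψ f).comp (tau (k := k) (lin f) : VR R f →ₐ[k] VR R f) =
      (tau (k := k) (lin fun j => ψ (f j)) : _ →ₐ[k] _).comp (VRmap ψ f) := by
    apply Q_ext
    · intro t
      change VRmap ψ f (tau (lin f) (algebraMap _ _ t)) = tau _ (VRmap ψ f (algebraMap _ _ t))
      rw [tau_algebraMap]
      have h1 : VRmap ψ f (algebraMap _ (VR R f) t) = algebraMap _ _ (MvPolynomial.mapAlgHom ψ t) :=
        Qmap_algebraMap _ _ _
      rw [h1, tau_algebraMap]
    · change VRmap ψ f (tau (lin f) (yy (lin f))) = tau _ (VRmap ψ f (yy (lin f)))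
      have h1 : VRmap ψ f (yy (lin f)) = yy _ := Qmap_yy _ _
      rw [tau_yy, map_sub, map_one, h1, tau_yy]
  exact AlgHom.congr_fun h x

end VRs

/-- One step. -/
theorem hstep (T : ∀ i : ℕ, Homology.{v} k E i) (X : Extra T) [CharZero E]
    (hKERQ : S_KERQ) (hVRL : S_VRL) {R R' : Type} [CommRing R] [CommRing R'] [Algebra k R]
    [Algebra k R'] [Algebra.FiniteType k R] [Algebra.FiniteType k R'] (i n m : ℕ)
    (f : Fin (m + 1) → R) (l : Fin (m + 1)) (ψ : R →ₐ[k] R') (hψ : Function.Surjective ψ)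
    (hk : RingHom.ker ψ.toRingHom = Ideal.span {f l})
    (α : (T (i + 1)).H (n + 1) (aff k (VR R' (fun j => ψ (f j)))))
    (ht : (T (i + 1)).P (n + 1) (vcl (tau (lin fun j => ψ (f j)))) α = -α)
    (hz : (T (i + 1)).P (n + 1) (clo (VRmap ψ f) (VRmap_surjective ψ hψ f)) α = 0) : α = 0 := by
  let a : VR R f := VRbase (k := k) f (f l)
  let φ : VR R f →ₐ[k] Localization.Away a := awayHom k a
  let σ0 : R →ₐ[k] Localization.Away (f l) := awayHom k (f l)
  obtain ⟨e, he1, he2, he3⟩ := hVRL k R (Localization.Away (f l)) (Localization.Away a) m f l σ0 φ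
    (isLocalization_awayHom _) (isLocalization_awayHom _)
  let σ : MvPolynomial (Fin m) (Localization.Away (f l)) →ₐ[k] Localization.Away a :=
    (e.symm : _ →ₐ[k] _).comp (CC k _)
  let tB : Localization.Away a ≃ₐ[k] Localization.Away a :=
    IsLocalization.algEquivOfAlgEquiv (M := Submonoid.powers a) (T := Submonoid.powers a)
      (Localization.Away a) (Localization.Away a) (tau (k := k) (lin f)) (by
        rw [Submonoid.map_powers]
        congr 1
        exact tau_VRbase f (f l))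
  have htB : ∀ x, tB (φ x) = φ (tau (k := k) (lin f) x) := fun x =>
    IsLocalization.algEquivOfAlgEquiv_eq _ x
  have hker : RingHom.ker (VRmap ψ f).toRingHom = Ideal.span {a} := by
    rw [hKERQ.2.2.1 k R R' (m + 1) f ψ, hk, Ideal.map_span, Set.image_singleton]
    rfl
  refine hstep_abs T X i n a φ (isLocalization_awayHom _) (VRmap ψ f) (VRmap_surjective ψ hψ f)
    hker σ e.symm.toRingEquiv (fun s => rfl) (tau (lin f)) tB (tau (lin fun j => ψ (f j)))
    (fun x => (htB x).symm) (VRmap_tau f ψ) ?_ α ht hz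
  have hC : ∀ r : R, σ (MvPolynomial.C (σ0 r)) = φ (VRbase (k := k) f r) := fun r => by
    change e.symm (C (MvPolynomial.C (σ0 r))) = _
    rw [← he1 r, AlgEquiv.symm_apply_apply]
  have hX : ∀ j : Fin m, σ (MvPolynomial.X j) =
      φ (algebraMap (MvPolynomial (Fin (m + 1)) R) (VR R f) (MvPolynomial.X (l.succAbove j))) :=
    fun j => by
      change e.symm (C (MvPolynomial.X j)) = _
      rw [← he2 j, AlgEquiv.symm_apply_apply]
  have key : tB.toRingEquiv.toRingHom.comp σ.toRingHom = σ.toRingHom := by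
    apply MvPolynomial.ringHom_ext
    · intro s
      have h7 : (tB.toRingEquiv.toRingHom.comp σ.toRingHom).comp MvPolynomial.C =
          σ.toRingHom.comp MvPolynomial.C := by
        apply IsLocalization.ringHom_ext (Submonoid.powers (f l))
        ext1 r
        change tB (σ (MvPolynomial.C (σ0 r))) = σ (MvPolynomial.C (σ0 r))
        rw [hC, htB, tau_VRbase]
      exact RingHom.congr_fun h7 s
    · intro j
      change tB (σ (MvPolynomial.X j)) = σ (MvPolynomial.X j)
      rw [hX, htB, tau_VRalg]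
  exact fun s => RingHom.congr_fun key s

end CUB


end

section

/-!
# CUB, block V: anti-invariant homology classes, several equations
-/

set_option autoImplicit false

open Polynomial CategoryTheory AlgebraicGeometry

namespace CUB

open Pool.Agent.Lib_helper55.Beil Pool.Agent.Lib_helper66.OneP

universe v

variable {k : Type} [Field k] {E : Type} [Field E]

section VRs

variable {R R₁ R' : Type} [CommRing R] [CommRing R₁] [CommRing R'] [Algebra k R] [Algebra k R₁]
  [Algebra k R'] [Algebra.FiniteType k R] [Algebra.FiniteType k R₁] [Algebra.FiniteType k R']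

omit [Algebra.FiniteType k R] [Algebra.FiniteType k R₁] [Algebra.FiniteType k R'] in
lemma VRmap_comp {m : ℕ} (f : Fin m → R) (π : R →ₐ[k] R₁) (ψ : R₁ →ₐ[k] R') :
    (VRmap ψ (fun j => π (f j))).comp (VRmap π f) = VRmap (ψ.comp π) f := by
  apply Q_ext
  · intro t
    change VRmap ψ _ (VRmap π f (algebraMap _ _ t)) = VRmap (ψ.comp π) f (algebraMap _ _ t)
    have h1 : VRmap π f (algebraMap _ (VR R f) t) = algebraMap _ _ (MvPolynomial.mapAlgHom π t) :=
      Qmap_algebraMap _ _ _
    have h2 : ∀ s, VRmap ψ (fun j => π (f j)) (algebraMap _ (VR R₁ (fun j => π (f j))) s) =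
        algebraMap _ _ (MvPolynomial.mapAlgHom ψ s) := fun s => Qmap_algebraMap _ _ _
    have h3 : VRmap (ψ.comp π) f (algebraMap _ (VR R f) t) =
        algebraMap _ _ (MvPolynomial.mapAlgHom (ψ.comp π) t) := Qmap_algebraMap _ _ _
    rw [h1, h2, h3]
    congr 1
    exact MvPolynomial.map_map π.toRingHom ψ.toRingHom t
  · change VRmap ψ _ (VRmap π f (yy (lin f))) = VRmap (ψ.comp π) f (yy (lin f))
    have h1 : VRmap π f (yy (lin f)) = yy _ := Qmap_yy _ _
    have h2 : VRmap ψ (fun j => π (f j)) (yy (lin fun j => π (f j))) = yy _ := Qmap_yy _ _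
    have h3 : VRmap (ψ.comp π) f (yy (lin f)) = yy _ := Qmap_yy _ _
    rw [h1, h2, h3]
    rfl

variable (T : ∀ i : ℕ, Homology.{v} k E i) (X : Extra T)

include X in
/-- The involution commutes with the push-forward. -/
lemma P_tau_VRmap (i n : ℕ) {m : ℕ} (f : Fin m → R) (ψ : R →ₐ[k] R')
    (hψ : Function.Surjective ψ) (α : (T i).H n (aff k (VR R' (fun j => ψ (f j))))) :
    (T i).P n (vcl (tau (lin f))) ((T i).P n (clo (VRmap ψ f) (VRmap_surjective ψ hψ f)) α) =
      (T i).P n (clo (VRmap ψ f) (VRmap_surjective ψ hψ f))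
        ((T i).P n (vcl (tau (lin fun j => ψ (f j)))) α) := by
  have hs : Function.Surjective ((VRmap ψ f).comp (tauH (k := k) (lin f))) :=
    (VRmap_surjective ψ hψ f).comp (tauH_surjective (k := k) (lin f))
  have h1 := X.push_comp i n _ _ _ (clo (VRmap ψ f) (VRmap_surjective ψ hψ f))
    (vcl (tau (k := k) (lin f))) (clo ((VRmap ψ f).comp (tauH (k := k) (lin f))) hs)
    (spm_comp (tauH (k := k) (lin f)) (VRmap ψ f)) α
  have h2 := X.push_comp i n _ _ _ (vcl (tau (k := k) (lin fun j => ψ (f j))))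
    (clo (VRmap ψ f) (VRmap_surjective ψ hψ f)) (clo ((VRmap ψ f).comp (tauH (k := k) (lin f))) hs)
    (by
      change spm (tauH (k := k) (lin fun j => ψ (f j))) ≫ spm (VRmap ψ f) = spm _
      rw [spm_comp]
      congr 1
      exact AlgHom.ext fun x => (VRmap_tau f ψ x).symm) α
  exact h1.trans h2.symm

include X in
/-- The square of the involution is the identity. -/
lemma P_tau_tau (i n : ℕ) {A : Type} [CommRing A] [Algebra k A] [Algebra.FiniteType k A] (g : A)
    (α : (T i).H n (aff k (Q A g))) :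
    (T i).P n (vcl (tau (k := k) g)) ((T i).P n (vcl (tau (k := k) g)) α) = α := by
  have h1 : (tauH (k := k) g).comp (tauH (k := k) g) = AlgHom.id k _ := tauHom_comp g
  have h2 := X.push_comp i n _ _ _ (vcl (tau (k := k) g)) (vcl (tau (k := k) g))
    (clo (AlgHom.id k (Q A g)) Function.surjective_id)
    (by
      change spm (tauH (k := k) g) ≫ spm (tauH (k := k) g) = spm (AlgHom.id k (Q A g))
      rw [spm_comp, h1]) α
  exact h2.trans (X.push_id i n _ _ spm_id α)

include X in
/-- Push-forward along a composition. -/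
lemma P_VRmap_comp (i n : ℕ) {m : ℕ} (f : Fin m → R) (π : R →ₐ[k] R₁) (ψ : R₁ →ₐ[k] R')
    (hπ : Function.Surjective π) (hψ : Function.Surjective ψ)
    (hψπ : Function.Surjective (ψ.comp π))
    (α : (T i).H n (aff k (VR R' (fun j => ψ (π (f j)))))) :
    (T i).P n (clo (VRmap π f) (VRmap_surjective π hπ f))
      ((T i).P n (clo (VRmap ψ (fun j => π (f j))) (VRmap_surjective ψ hψ _)) α) =
      (T i).P n (clo (VRmap (ψ.comp π) f) (VRmap_surjective (ψ.comp π) hψπ f)) α := by
  apply X.push_comp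
  change spm (VRmap ψ (fun j => π (f j))) ≫ spm (VRmap π f) = spm (VRmap (ψ.comp π) f)
  rw [spm_comp]
  exact congrArg spm (VRmap_comp f π ψ)

end VRs

/-- Several equations. -/
theorem hchain (T : ∀ i : ℕ, Homology.{v} k E i) (X : Extra T) [CharZero E]
    (hKERQ : S_KERQ) (hVRL : S_VRL) (i n m : ℕ) (L : List (Fin (m + 1))) :
    ∀ {R R' : Type} [CommRing R] [CommRing R'] [Algebra k R]
    [Algebra k R'] [Algebra.FiniteType k R] [Algebra.FiniteType k R']
    (f : Fin (m + 1) → R) (ψ : R →ₐ[k] R') (hψ : Function.Surjective ψ),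
    RingHom.ker ψ.toRingHom = Ideal.span (f '' {j | j ∈ L}) →
    ∀ α : (T (i + 1)).H (n + 1) (aff k (VR R' (fun j => ψ (f j)))),
    (T (i + 1)).P (n + 1) (vcl (tau (lin fun j => ψ (f j)))) α = -α →
    (T (i + 1)).P (n + 1) (clo (VRmap ψ f) (VRmap_surjective ψ hψ f)) α = 0 → α = 0 := by
  induction L with
  | nil =>
    intro R R' _ _ _ _ _ _ f ψ hψ hk α _ hz
    have h1 : RingHom.ker (VRmap ψ f).toRingHom = ⊥ := by
      rw [hKERQ.2.2.1 k R R' (m + 1) f ψ, hk]
      simp
    have h2 : Function.Injective (VRmap ψ f) := (RingHom.injective_iff_ker_eq_bot _).mpr h1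
    let e : VR R f ≃ₐ[k] VR R' (fun j => ψ (f j)) :=
      AlgEquiv.ofBijective (VRmap ψ f) ⟨h2, VRmap_surjective ψ hψ f⟩
    have h3 := (push_viso_bijective (T (i + 1)) (n + 1) (viso e)).injective
    apply h3
    rw [P_zero]
    exact hz
  | cons l L ih =>
    intro R R' _ _ _ _ _ _ f ψ hψ hk α ht hz
    let I : Ideal R := Ideal.span {f l}
    let π : R →ₐ[k] R ⧸ I := Ideal.Quotient.mkₐ k I
    have hle : I ≤ RingHom.ker ψ.toRingHom := by
      rw [hk]
      apply Ideal.span_mono
      rintro _ rfl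
      exact ⟨l, by simp, rfl⟩
    let ψ₁ : (R ⧸ I) →ₐ[k] R' := Ideal.Quotient.liftₐ I ψ (fun a ha => hle ha)
    have hπ : Function.Surjective π := Ideal.Quotient.mkₐ_surjective k I
    have hcomp : ψ = ψ₁.comp π := by
      ext x
      rfl
    have hkπ : RingHom.ker π.toRingHom = Ideal.span {f l} := Ideal.mk_ker
    clear_value ψ₁ π
    subst hcomp
    have hψ₁ : Function.Surjective ψ₁ := by
      intro x
      obtain ⟨y, hy⟩ := hψ x
      exact ⟨π y, hy⟩
    have hk₁ : RingHom.ker ψ₁.toRingHom = Ideal.span ((fun j => π (f j)) '' {j | j ∈ L}) := by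
      have h1 : RingHom.ker ψ₁.toRingHom =
          (RingHom.ker (ψ₁.comp π).toRingHom).map π.toRingHom := by
        have h2 : RingHom.ker (ψ₁.comp π).toRingHom =
          (RingHom.ker ψ₁.toRingHom).comap π.toRingHom := rfl
        rw [h2]
        exact (Ideal.map_comap_of_surjective π.toRingHom hπ _).symm
      rw [h1, hk, Ideal.map_span]
      apply le_antisymm
      · rw [Ideal.span_le]
        rintro _ ⟨_, ⟨j, hj, rfl⟩, rfl⟩
        rcases List.mem_cons.mp hj with rfl | hj
        · have h3 : π (f j) = 0 := by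
            have : f j ∈ RingHom.ker π.toRingHom := by
              rw [hkπ]; exact Ideal.subset_span rfl
            exact this
          have h4 : π.toRingHom (f j) = 0 := h3
          rw [h4]
          exact Ideal.zero_mem _
        · exact Ideal.subset_span ⟨j, hj, rfl⟩
      · apply Ideal.span_mono
        rintro _ ⟨j, hj, rfl⟩
        exact ⟨f j, ⟨j, List.mem_cons_of_mem _ hj, rfl⟩, rfl⟩
    have key : (T (i + 1)).P (n + 1)
        (clo (VRmap ψ₁ (fun j => π (f j))) (VRmap_surjective ψ₁ hψ₁ _)) α = 0 := by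
      refine hstep T X hKERQ hVRL i n m f l π hπ hkπ _ ?_ ?_
      · rw [P_tau_VRmap T X (i + 1) (n + 1) (fun j => π (f j)) ψ₁ hψ₁ α]
        have ht' : (T (i + 1)).P (n + 1) (vcl (tau (lin fun j => ψ₁ (π (f j))))) α = -α := ht
        exact (congrArg _ ht').trans (P_neg T (i + 1) (n + 1) _ α)
      · rw [P_VRmap_comp T X (i + 1) (n + 1) f π ψ₁ hπ hψ₁ hψ α]
        exact hz
    exact ih (fun j => π (f j)) ψ₁ hψ₁ hk₁ α ht key

end CUB


end

section

/-!
# CUB, block V: the product with an affine space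
-/

set_option autoImplicit false

open Polynomial CategoryTheory AlgebraicGeometry

namespace CUB

open Pool.Agent.Lib_helper55.Beil Pool.Agent.Lib_helper66.OneP

universe v

variable {k : Type} [Field k] {E : Type} [Field E]

/-- The homomorphism `R → R[t_1, ..., t_m]`. -/
noncomputable abbrev mvC (k R : Type) [Field k] [CommRing R] [Algebra k R] (m : ℕ) :
    R →ₐ[k] MvPolynomial (Fin m) R := IsScalarTower.toAlgHom k R (MvPolynomial (Fin m) R)

/-- The pull-back to the product with an affine space. -/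
structure IsLam (T : ∀ i : ℕ, Homology.{v} k E i) (R : Type) [CommRing R] [Algebra k R]
    [Algebra.FiniteType k R] (i m : ℕ)
    (lam : (T i).H (2 * i) (aff k R) →ₗ[E]
      (T (i + m)).H (2 * (i + m)) (aff k (MvPolynomial (Fin m) R))) : Prop where
  inj : Function.Injective lam
  frob : ∀ a, lam ((T i).F (2 * i) (aff k R) a) = (T (i + m)).F (2 * (i + m)) _ (lam a)
  cls : ∀ (c : RP k R i →₀ E) (d : RP k (MvPolynomial (Fin m) R) (i + m) →₀ E),
    IsPull k E m (mvC k R m) c d → lam (CUB.cls T i c) = CUB.cls T (i + m) d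

variable (T : ∀ i : ℕ, Homology.{v} k E i)

/-- The case of no variables. -/
lemma hline_zero (hPLIN : S_PLIN) (R : Type) [CommRing R] [Algebra k R]
    [Algebra.FiniteType k R] (i : ℕ) : ∃ lam, IsLam T R i 0 lam := by
  let e : R ≃ₐ[k] MvPolynomial (Fin 0) R := ((MvPolynomial.isEmptyAlgEquiv R (Fin 0)).restrictScalars k).symm
  have he : (e : R →ₐ[k] MvPolynomial (Fin 0) R) = mvC k R 0 := by
    apply AlgHom.ext
    intro r
    exact ((MvPolynomial.isEmptyAlgEquiv R (Fin 0)).symm.commutes r)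
  refine ⟨(T i).push (2 * i) (vcl e.symm), ?_, ?_, ?_⟩
  · exact (push_viso_bijective (T i) (2 * i) (viso e.symm)).injective
  · intro a
    exact (T i).equivariant.1 (2 * i) _ _ (vcl e.symm) a
  · intro c d h
    rw [← he] at h
    have h1 := (hPLIN.2 k R (MvPolynomial (Fin 0) R) E i e c d).mp h
    have h2 := cls_push T i e.symm.toAlgHom e.symm.surjective c
    rw [h1] at h2
    exact h2

/-- One more variable. -/
lemma hline_succ (X : Extra T) (hPLIN : S_PLIN) (hGX : S_GX) (hGCO : S_GCO) (hFPX : S_FPX) (R : Type)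
    [CommRing R] [Algebra k R] [Algebra.FiniteType k R] (i m : ℕ) (h : ∃ lam, IsLam T R i m lam) :
    ∃ lam, IsLam T R i (m + 1) lam := by
  obtain ⟨lam, hlam⟩ := h
  let A := MvPolynomial (Fin m) R
  let B := MvPolynomial (Fin (m + 1)) R
  let e : B ≃ₐ[k] A[X] := (MvPolynomial.finSuccEquiv R m).restrictScalars k
  let φ : A →ₐ[k] B := (e.symm : _ →ₐ[k] _).comp (CC k A)
  have hφ : φ.comp (mvC k R m) = mvC k R (m + 1) := by
    apply AlgHom.ext
    intro r
    change e.symm (C (algebraMap R A r)) = algebraMap R B r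
    rw [AlgEquiv.symm_apply_eq]
    exact ((MvPolynomial.finSuccEquiv R m).commutes r).symm
  have hg : Good k 1 φ := hGCO.1 k A A[X] B (CC k A) (e.symm : _ →ₐ[k] _) 1 0 (hGX.1 k A)
    (hGCO.2.2.2 k A[X] B e.symm)
  let L : Line (aff k B) (aff k A) := lineE φ e.symm.toRingEquiv (fun _ => rfl)
  refine ⟨(X.line (i + m) (2 * (i + m)) L).comp lam, ?_, ?_, ?_⟩
  · exact (X.line_bij (i + m) (2 * (i + m)) L).injective.comp hlam.inj
  · intro a
    change X.line (i + m) (2 * (i + m)) L (lam _) = _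
    rw [hlam.frob]
    exact X.line_frob (i + m) (2 * (i + m)) L (lam a)
  · intro c d hd
    obtain ⟨d₁, hd₁⟩ := hFPX k R A E m i (mvC k R m) (hGX.2 k R m) c
    have h2 := (isPull_line_iff φ e.symm.toRingEquiv (fun _ => rfl) d₁ (Finsupp.mapDomain
      (lineP φ e.symm.toRingEquiv (fun _ => rfl)) d₁)).mpr rfl
    have h3 := ((hGCO.2.1 k R A B E (mvC k R m) φ m i (hGX.2 k R m)).1 hg) c d₁ _ hd₁ h2
    rw [hφ] at h3
    have h4 := (hPLIN.1 k R B E (m + 1) i (mvC k R (m + 1)) c c d _ 0 hd h3).1 rfl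
    rw [h4]
    change X.line (i + m) (2 * (i + m)) L (lam _) = _
    rw [hlam.cls c d₁ hd₁]
    exact line_cls T X φ e.symm.toRingEquiv (fun _ => rfl) d₁ _ h2

/-- HLINE. -/
theorem hline (X : Extra T) (hPLIN : S_PLIN) (hGX : S_GX) (hGCO : S_GCO) (hFPX : S_FPX) (R : Type)
    [CommRing R] [Algebra k R] [Algebra.FiniteType k R] (i m : ℕ) : ∃ lam, IsLam T R i m lam := by
  induction m with
  | zero => exact hline_zero T hPLIN R i
  | succ m ih => exact hline_succ T X hPLIN hGX hGCO hFPX R i m ih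

end CUB


end

section

/-!
# CUB, block V: the reduction of a variety to its double cover
-/

set_option autoImplicit false

open Polynomial CategoryTheory AlgebraicGeometry

namespace CUB

open Pool.Agent.Lib_helper55.Beil Pool.Agent.Lib_helper66.OneP

universe v

variable {k : Type} [Field k] {E : Type} [Field E]

section Sheets

variable {R R' : Type} [CommRing R] [CommRing R'] [Algebra k R] [Algebra k R']

lemma sheet_yy {m : ℕ} (ψ : R →ₐ[k] R') (f : Fin m → R) (h : ∀ j, ψ (f j) = 0) (ε : Bool) :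
    sheet ψ f h ε (yy (lin f)) = if ε then 1 else 0 := Qlift_yy _ _ _

lemma sheet_alg {m : ℕ} (ψ : R →ₐ[k] R') (f : Fin m → R) (h : ∀ j, ψ (f j) = 0) (ε : Bool)
    (t : MvPolynomial (Fin m) R) :
    sheet ψ f h ε (algebraMap _ (VR R f) t) = MvPolynomial.mapAlgHom ψ t :=
  Qlift_algebraMap _ _ _ _

/-- The involution exchanges the sheets. -/
lemma sheet_tau {m : ℕ} (ψ : R →ₐ[k] R') (f : Fin m → R) (h : ∀ j, ψ (f j) = 0) :
    (sheet ψ f h false).comp (tauH (k := k) (lin f)) = sheet ψ f h true := by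
  apply Q_ext
  · intro t
    change sheet ψ f h false (tau (lin f) (algebraMap _ _ t)) = sheet ψ f h true (algebraMap _ _ t)
    rw [tau_algebraMap, sheet_alg, sheet_alg]
  · change sheet ψ f h false (tau (lin f) (yy _)) = sheet ψ f h true (yy _)
    rw [tau_yy, map_sub, map_one, sheet_yy, sheet_yy]
    simp

/-- The sheets factor over the restriction. -/
lemma sheet_factor {m : ℕ} (ψ : R →ₐ[k] R') (f : Fin m → R) (h : ∀ j, ψ (f j) = 0)
    (h' : ∀ j, AlgHom.id k R' (ψ (f j)) = 0) (ε : Bool) :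
    (sheet (AlgHom.id k R') (fun j => ψ (f j)) h' ε).comp (VRmap ψ f) = sheet ψ f h ε := by
  apply Q_ext
  · intro t
    change sheet (AlgHom.id k R') (fun j => ψ (f j)) h' ε (VRmap ψ f (algebraMap _ _ t)) =
      sheet ψ f h ε (algebraMap _ _ t)
    have h1 : VRmap ψ f (algebraMap _ (VR R f) t) = algebraMap _ _ (MvPolynomial.mapAlgHom ψ t) :=
      Qmap_algebraMap _ _ _
    rw [h1, sheet_alg, sheet_alg]
    exact MvPolynomial.map_id _
  · change sheet (AlgHom.id k R') (fun j => ψ (f j)) h' ε (VRmap ψ f (yy _)) =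
      sheet ψ f h ε (yy _)
    have h1 : VRmap ψ f (yy (lin f)) = yy _ := Qmap_yy _ _
    rw [h1, sheet_yy, sheet_yy]

variable {m : ℕ} (g : Fin m → R') (h' : ∀ j, AlgHom.id k R' (g j) = 0)

lemma sheet_id_alg (ε : Bool) (t : MvPolynomial (Fin m) R') :
    sheet (AlgHom.id k R') g h' ε (algebraMap _ (VR R' g) t) = t :=
  (sheet_alg _ _ _ _ _).trans (MvPolynomial.map_id _)

include h' in
lemma lin_zero : lin g = 0 := by
  unfold lin
  apply Finset.sum_eq_zero
  intro j _
  have : g j = 0 := h' j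
  rw [this, MvPolynomial.C_0, mul_zero]

include h' in
lemma yy_idem : (yy (lin g)) * (yy (lin g)) = yy (lin g) := by
  have h1 := yy_eq (lin g)
  have h2 : algebraMap _ (Q (MvPolynomial (Fin m) R') (lin g)) (lin g) = 0 := by
    have h3 := congrArg (algebraMap (MvPolynomial (Fin m) R') (VR R' g)) (lin_zero (k := k) g h')
    exact h3.trans (map_zero _)
  rw [h2] at h1
  linear_combination h1

lemma ker_sheet_true :
    RingHom.ker (sheet (AlgHom.id k R') g h' true).toRingHom = Ideal.span {1 - yy (lin g)} := by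
  apply le_antisymm
  · intro x hx
    obtain ⟨a, b, rfl⟩ := Q_span x
    have h1 : sheet (AlgHom.id k R') g h' true
        (algebraMap _ _ a + algebraMap _ _ b * yy (lin g)) = 0 := hx
    rw [map_add, map_mul, sheet_id_alg, sheet_id_alg, sheet_yy] at h1
    have h2 : a + b = 0 := by simpa using h1
    rw [Ideal.mem_span_singleton]
    refine ⟨algebraMap _ _ a, ?_⟩
    have h3 : algebraMap _ (VR R' g) a + algebraMap _ (VR R' g) b = 0 := by
      rw [← map_add, h2, map_zero]
    linear_combination (yy (lin g)) * h3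
  · rw [Ideal.span_singleton_le_iff_mem]
    change sheet (AlgHom.id k R') g h' true (1 - yy (lin g)) = 0
    rw [map_sub, map_one, sheet_yy]
    simp

lemma ker_sheet_false :
    RingHom.ker (sheet (AlgHom.id k R') g h' false).toRingHom = Ideal.span {yy (lin g)} := by
  apply le_antisymm
  · intro x hx
    obtain ⟨a, b, rfl⟩ := Q_span x
    have h1 : sheet (AlgHom.id k R') g h' false
        (algebraMap _ _ a + algebraMap _ _ b * yy (lin g)) = 0 := hx
    rw [map_add, map_mul, sheet_id_alg, sheet_id_alg, sheet_yy] at h1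
    have h2 : a = 0 := by simpa using h1
    rw [Ideal.mem_span_singleton]
    refine ⟨algebraMap _ _ b, ?_⟩
    rw [h2, map_zero]
    ring
  · rw [Ideal.span_singleton_le_iff_mem]
    change sheet (AlgHom.id k R') g h' false (yy (lin g)) = 0
    rw [sheet_yy]
    simp

lemma isLocalization_sheet_false :
    @IsLocalization.Away (VR R' g) _ (1 - yy (lin g)) (MvPolynomial (Fin m) R') _
      (sheet (AlgHom.id k R') g h' false).toRingHom.toAlgebra := by
  let : Algebra (VR R' g) (MvPolynomial (Fin m) R') :=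
    (sheet (AlgHom.id k R') g h' false).toRingHom.toAlgebra
  apply IsLocalization.away_of_isIdempotentElem
  · have := yy_idem (k := k) g h'
    unfold IsIdempotentElem
    linear_combination this
  · have h1 := ker_sheet_false (k := k) g h'
    have h2 : (1 - (1 - yy (lin g)) : VR R' g) = yy (lin g) := by ring
    rw [h2]
    exact h1
  · exact sheet_surjective _ Function.surjective_id _ h' false

end Sheets

/-! ## The reduction -/

section Red

variable (T : ∀ i : ℕ, Homology.{v} k E i)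
  {R R' : Type} [CommRing R] [CommRing R'] [Algebra k R] [Algebra k R']
  [Algebra.FiniteType k R] [Algebra.FiniteType k R']

/-- RED, injectivity. -/
theorem red_inj (X : Extra T) [PerfectField k] [CharZero E] (hPLIN : S_PLIN) (hGX : S_GX)
    (hGCO : S_GCO) (hFPX : S_FPX) (hCIN : S_CIN) (i m : ℕ) (f : Fin (m + 1) → R)
    (ψ : R →ₐ[k] R') (hψ : Function.Surjective ψ)
    (hk : RingHom.ker ψ.toRingHom = Ideal.span (Set.range f)) (h : ∀ j, ψ (f j) = 0)
    (hI : (T (i + (m + 1))).Inj (aff k (VR R f))) : (T i).Inj (aff k R') := by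
  rw [inj_iff_cls] at hI ⊢
  intro z hz
  obtain ⟨lam, hlam⟩ := hline T X hPLIN hGX hGCO hFPX R' i (m + 1)
  obtain ⟨d, hd⟩ := hFPX k R' (MvPolynomial (Fin (m + 1)) R') E (m + 1) i (mvC k R' (m + 1))
    (hGX.2 k R' (m + 1)) z
  have hd0 : cls T (i + (m + 1)) d = 0 := by
    rw [← hlam.cls z d hd, hz, map_zero]
  refine hCIN k R R' E m i f ψ hψ h hk z d hd (hI _ ?_)
  have h0 := cls_push T (i + (m + 1)) (sheet ψ f h false) (sheet_surjective ψ hψ f h false) d
  have h1 := cls_push T (i + (m + 1)) (sheet ψ f h true) (sheet_surjective ψ hψ f h true) d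
  rw [hd0, P_zero] at h0 h1
  rw [map_sub, ← h0, ← h1, sub_zero]

/-- RED, surjectivity. -/
theorem red_surj (X : Extra T) [PerfectField k] [CharZero E] (hKERQ : S_KERQ) (hVRL : S_VRL)
    (hPLIN : S_PLIN) (hGX : S_GX)
    (hGCO : S_GCO) (hFPX : S_FPX) (hCSU : S_CSU) (i m : ℕ) (f : Fin (m + 1) → R)
    (ψ : R →ₐ[k] R') (hψ : Function.Surjective ψ)
    (hk : RingHom.ker ψ.toRingHom = Ideal.span (Set.range f)) (h : ∀ j, ψ (f j) = 0)
    (hzr : ∀ z : RP k R i →₀ E, z ∈ rat k R E i)
    (hS : (T (i + (m + 1))).Surj (aff k (VR R f))) : (T i).Surj (aff k R') := by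
  rw [surj_iff_cls] at hS ⊢
  intro α hα
  obtain ⟨lam, hlam⟩ := hline T X hPLIN hGX hGCO hFPX R' i (m + 1)
  have h' : ∀ j, AlgHom.id k R' (ψ (f j)) = 0 := h
  -- notation
  let N := i + (m + 1)
  let g : Fin (m + 1) → R' := fun j => ψ (f j)
  let s0 := sheet (AlgHom.id k R') g h' false
  let s1 := sheet (AlgHom.id k R') g h' true
  have hs0 : Function.Surjective s0 := sheet_surjective _ Function.surjective_id _ h' false
  have hs1 : Function.Surjective s1 := sheet_surjective _ Function.surjective_id _ h' true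
  let I0 := (T N).push (2 * N) (clo s0 hs0)
  let I1 := (T N).push (2 * N) (clo s1 hs1)
  let V := (T N).push (2 * N) (clo (VRmap ψ f) (VRmap_surjective ψ hψ f))
  let τ := (T N).push (2 * N) (vcl (tau (k := k) (lin g)))
  let F := (T N).frob (2 * N) (aff k (MvPolynomial (Fin (m + 1)) R'))
  let a := lam α
  have ha : F a = a := by
    have := hlam.frob α
    rw [hα] at this
    exact this.symm
  -- the sheets are exchanged
  have hτ0 : ∀ x, τ (I0 x) = I1 x := fun x => X.push_comp N (2 * N) _ _ _ (clo s0 hs0)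
    (vcl (tau (k := k) (lin g))) (clo s1 hs1) (by
      change spm s0 ≫ spm (tauH (k := k) (lin g)) = spm s1
      rw [spm_comp]
      exact congrArg spm (sheet_tau (AlgHom.id k R') g h')) x
  have hττ : ∀ x, τ (τ x) = x := fun x => P_tau_tau T X N (2 * N) (lin g) x
  have hτ1 : ∀ x, τ (I1 x) = I0 x := fun x => by rw [← hτ0, hττ]
  -- the class of the difference of the sheets
  let δ := I0 a - I1 a
  have hFV : (T N).F (2 * N) _ (V δ) = V δ := by
    have e1 := (T N).equivariant.1 (2 * N) _ _ (clo (VRmap ψ f) (VRmap_surjective ψ hψ f)) δ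
    have e2 := (T N).equivariant.1 (2 * N) _ _ (clo s0 hs0) a
    have e3 := (T N).equivariant.1 (2 * N) _ _ (clo s1 hs1) a
    have e4 : (T N).F (2 * N) _ δ = δ := by
      change (T N).frob (2 * N) _ (I0 a - I1 a) = I0 a - I1 a
      rw [map_sub]
      change (T N).F (2 * N) _ ((T N).P (2 * N) (clo s0 hs0) a) -
        (T N).F (2 * N) _ ((T N).P (2 * N) (clo s1 hs1) a) = _
      rw [← e2, ← e3]
      change I0 (F a) - I1 (F a) = _
      rw [ha]
    rw [e4] at e1
    exact e1.symm
  obtain ⟨ζ, hζ⟩ := hS (V δ) hFV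
  obtain ⟨z₀, z₁, d₀, d₁, hd₀, hd₁, hrat⟩ := hCSU k R R' E m i f ψ hψ h hk hzr ζ
  let b0 := lam (cls T i z₀)
  let b1 := lam (cls T i z₁)
  have hb0 : b0 = cls T N d₀ := hlam.cls z₀ d₀ hd₀
  have hb1 : b1 = cls T N d₁ := hlam.cls z₁ d₁ hd₁
  have hsh : ∀ ε (hs : Function.Surjective (sheet (AlgHom.id k R') g h' ε)) x,
      (T N).P (2 * N) (clo (sheet ψ f h ε) (sheet_surjective ψ hψ f h ε)) x =
        V ((T N).push (2 * N) (clo (sheet (AlgHom.id k R') g h' ε) hs) x) := by
    intro ε hs x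
    refine (X.push_comp N (2 * N) _ _ _ (clo (sheet (AlgHom.id k R') g h' ε) hs)
      (clo (VRmap ψ f) (VRmap_surjective ψ hψ f))
      (clo (sheet ψ f h ε) (sheet_surjective ψ hψ f h ε)) ?_ x).symm
    change spm (sheet (AlgHom.id k R') g h' ε) ≫ spm (VRmap ψ f) = spm (sheet ψ f h ε)
    rw [spm_comp]
    exact congrArg spm (sheet_factor ψ f h h' ε)
  have hVδ : V δ = V (I0 b0) + V (I1 b1) := by
    have e1 := cls_rat T N _ hrat
    rw [map_sub, map_sub, ← cls_push, ← cls_push] at e1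
    have e2 : cls T N ζ = V δ := hζ
    rw [e2, ← hb0, ← hb1, hsh false hs0, hsh true hs1] at e1
    have e3 : V δ - V (I0 b0) - V (I1 b1) = 0 := e1
    rw [sub_sub, sub_eq_zero] at e3
    exact e3
  let δ' := δ - I0 b0 - I1 b1
  have hVδ' : V δ' = 0 := by
    change V (δ - I0 b0 - I1 b1) = 0
    rw [map_sub, map_sub, hVδ]
    abel
  have hτV : ∀ x, V (τ x) = (T N).push (2 * N) (vcl (tau (k := k) (lin f))) (V x) := fun x =>
    (P_tau_VRmap T X N (2 * N) f ψ hψ x).symm
  have hδ'' : δ' - τ δ' = 0 := by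
    refine hchain T X hKERQ hVRL (i + m) (2 * (i + m) + 1) m (List.finRange (m + 1)) f ψ hψ ?_
      (δ' - τ δ') ?_ ?_
    · rw [hk]
      congr 1
      ext x
      simp
    · change τ (δ' - τ δ') = -(δ' - τ δ')
      rw [map_sub, hττ]
      abel
    · change V (δ' - τ δ') = 0
      rw [map_sub, hVδ', hτV, hVδ', map_zero, sub_zero]
  let w := a - b0 + (a + b1)
  have hδI : δ' = I0 (a - b0) - I1 (a + b1) := by
    change I0 a - I1 a - I0 b0 - I1 b1 = _
    rw [map_sub, map_add]
    abel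
  have hτδ : τ δ' = I1 (a - b0) - I0 (a + b1) := by
    have e1 : τ δ' = τ (I0 (a - b0)) - τ (I1 (a + b1)) := (congrArg τ hδI).trans (map_sub τ _ _)
    rw [e1, hτ0, hτ1]
  have hw : I0 w = I1 w := by
    have e1 : I0 (a - b0) - I1 (a + b1) = I1 (a - b0) - I0 (a + b1) :=
      hδI.symm.trans ((sub_eq_zero.mp hδ'').trans hτδ)
    change I0 (a - b0 + (a + b1)) = I1 (a - b0 + (a + b1))
    rw [map_add I0, map_add I1]
    exact sub_eq_sub_iff_add_eq_add.mp e1
  -- restriction to the first sheet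
  have hloc := isLocalization_sheet_false (k := k) g h'
  have hc := complementary_away s0 (1 - yy (lin g)) hloc s1 hs1 (ker_sheet_true g h')
  have e0 : (T N).R (2 * N) (opn s0 (isOpenImmersion_spm s0 _ hloc)) (I0 w) = w :=
    X.clopen N (2 * N) _ _ (clo s0 hs0) (opn s0 (isOpenImmersion_spm s0 _ hloc)) rfl w
  have e1 : (T N).R (2 * N) (opn s0 (isOpenImmersion_spm s0 _ hloc)) (I1 w) = 0 :=
    (((T N).localisation (2 * N) _ _ _ _ _ hc).1 (I1 w)).mpr ⟨w, rfl⟩
  rw [hw, e1] at e0
  have e2 : lam ((2 : E) • α) = lam (cls T i (z₀ - z₁)) := by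
    rw [map_smul, map_sub, map_sub, two_smul]
    have e3 : a - b0 + (a + b1) = 0 := e0.symm
    have e4 : a + a = b0 - b1 := by
      rw [← sub_eq_zero]
      rw [← e3]
      abel
    exact e4
  have e5 := hlam.inj e2
  refine ⟨(2 : E)⁻¹ • (z₀ - z₁), ?_⟩
  rw [map_smul, ← e5, smul_smul, inv_mul_cancel₀ two_ne_zero, one_smul]

/-- RED. The cycle class maps of the variety `ψ : R → R'`, `R' = R / (f_0, ..., f_m)`, and of the double
cover `y ^ 2 - y = ∑ t_j f_j`. -/
theorem red_main (X : Extra T) [Finite k] [CharZero E] (hKERQ : S_KERQ) (hVRL : S_VRL)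
    (hPLIN : S_PLIN) (hGX : S_GX) (hGCO : S_GCO) (hFPX : S_FPX) (hCIN : S_CIN) (hCSU : S_CSU)
    (i m : ℕ) (f : Fin (m + 1) → R) (ψ : R →ₐ[k] R') (hψ : Function.Surjective ψ)
    (hk : RingHom.ker ψ.toRingHom = Ideal.span (Set.range f)) (h : ∀ j, ψ (f j) = 0)
    (hzr : ∀ z : RP k R i →₀ E, z ∈ rat k R E i) :
    ((T (i + (m + 1))).Inj (aff k (VR R f)) → (T i).Inj (aff k R')) ∧
    ((T (i + (m + 1))).Surj (aff k (VR R f)) → (T i).Surj (aff k R')) :=
  ⟨red_inj T X hPLIN hGX hGCO hFPX hCIN i m f ψ hψ hk h,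
    red_surj T X hKERQ hVRL hPLIN hGX hGCO hFPX hCSU i m f ψ hψ hk h hzr⟩

end Red

/-- RED. -/
theorem t_RED (hKERQ : S_KERQ) (hVRL : S_VRL) (hPLIN : S_PLIN) (hGX : S_GX) (hGCO : S_GCO)
    (hFPX : S_FPX) (hCIN : S_CIN) (hCSU : S_CSU) : S_RED.{v} := by
  intro k E _ _ _ _ T X R R' _ _ _ _ _ _ m i f ψ hψ hk hzr
  have h : ∀ j, ψ (f j) = 0 := by
    intro j
    have h1 : f j ∈ RingHom.ker ψ.toRingHom := by
      rw [hk]
      exact Ideal.subset_span ⟨j, rfl⟩
    exact h1
  exact red_main T X hKERQ hVRL hPLIN hGX hGCO hFPX hCIN hCSU i m f ψ hψ hk h hzr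

end CUB


end
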