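import Mathlib
import Pool.Agent.QVM.C05
import Pool.Agent.QVM.C21
import Pool.Agent.QVM.C36

/-! Parts: CUB.B_B2, CUB.B_INFA, CUB.V_QUAD, QCV.D_DDF -/

section

/-!
# CUB, module B2: the specialisation at infinity of a pull-back
-/

set_option autoImplicit false

open Polynomial

namespace CUB

namespace B2

/-- the extension of a prime to the polynomial ring -/
noncomputable def extp {R : Type} [CommRing R] (p : PrimeSpectrum R) : PrimeSpectrum R[X] :=
  ⟨p.asIdeal.map (C : R →+* R[X]), haveI := p.isPrime; Ideal.isPrime_map_C_of_isPrime⟩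

/-- the residue ring of the extension of a prime -/
noncomputable def eqv (k : Type) {R : Type} [Field k] [CommRing R] [Algebra k R] (I : Ideal R) :
    (R ⧸ I)[X] ≃ₐ[k] (R[X] ⧸ I.map (C : R →+* R[X])) :=
  AlgEquiv.ofRingEquiv (f := Ideal.polynomialQuotientEquivQuotientPolynomial I) (by
    intro r
    have h1 : algebraMap k (R ⧸ I)[X] r = (C (algebraMap k R r)).map (Ideal.Quotient.mk I) := by
      rw [Polynomial.map_C]
      rfl
    rw [h1, Ideal.polynomialQuotientEquivQuotientPolynomial_map_mk]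
    rfl)

theorem rdim_extp (k : Type) {R : Type} [Field k] [CommRing R] [Algebra k R]
    (p : PrimeSpectrum R) : rdim k (extp p) = rdim k p + 1 := by
  unfold rdim
  have h1 : Algebra.trdeg k (R[X] ⧸ (extp p).asIdeal) = Algebra.trdeg k (R ⧸ p.asIdeal)[X] :=
    (AlgEquiv.trdeg_eq (eqv k p.asIdeal)).symm
  rw [h1]
  have h2 := trdeg_add_eq k (R ⧸ p.asIdeal) (A := (R ⧸ p.asIdeal)[X])
  rw [Polynomial.trdeg_of_isDomain] at h2
  exact h2.symm

theorem comap_extp (k : Type) {R : Type} [Field k] [CommRing R] [Algebra k R]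
    (p : PrimeSpectrum R) : PrimeSpectrum.comap (CC k R).toRingHom (extp p) = p := by
  apply PrimeSpectrum.ext
  ext x
  change C x ∈ p.asIdeal.map (C : R →+* R[X]) ↔ x ∈ p.asIdeal
  rw [Ideal.mem_map_C_iff]
  constructor
  · intro h
    simpa using h 0
  · intro h n
    rw [Polynomial.coeff_C]
    split_ifs
    · exact h
    · exact p.asIdeal.zero_mem

/-- a prime of the polynomial ring whose maximal ideal is generated by the primes below is
extended -/
theorem eq_extp (k : Type) {R : Type} [Field k] [CommRing R] [Algebra k R]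
    (z : PrimeSpectrum R[X])
    (h : IsLocalRing.maximalIdeal (Localization.AtPrime z.asIdeal) ≤
      (PrimeSpectrum.comap (CC k R).toRingHom z).asIdeal.map
        ((algebraMap R[X] (Localization.AtPrime z.asIdeal)).comp (CC k R).toRingHom)) :
    z = extp (PrimeSpectrum.comap (CC k R).toRingHom z) := by
  apply PrimeSpectrum.ext
  apply le_antisymm
  · intro x hx
    have h1 : algebraMap R[X] (Localization.AtPrime z.asIdeal) x ∈
        IsLocalRing.maximalIdeal (Localization.AtPrime z.asIdeal) :=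
      (IsLocalization.AtPrime.to_map_mem_maximal_iff (Localization.AtPrime z.asIdeal)
        z.asIdeal x).mpr hx
    have h2 := h h1
    rw [← Ideal.map_map, IsLocalization.algebraMap_mem_map_algebraMap_iff
      z.asIdeal.primeCompl] at h2
    obtain ⟨m, hm, hmx⟩ := h2
    have h3 : m * x ∈ (extp (PrimeSpectrum.comap (CC k R).toRingHom z)).asIdeal := hmx
    rcases (extp (PrimeSpectrum.comap (CC k R).toRingHom z)).isPrime.mem_or_mem h3 with h4 | h4
    · exfalso
      apply hm
      have h5 : (extp (PrimeSpectrum.comap (CC k R).toRingHom z)).asIdeal ≤ z.asIdeal := by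
        change Ideal.map (C : R →+* R[X]) _ ≤ _
        rw [Ideal.map_le_iff_le_comap]
        exact fun y hy => hy
      exact h5 h4
    · exact h4
  · change Ideal.map (C : R →+* R[X]) _ ≤ _
    rw [Ideal.map_le_iff_le_comap]
    exact fun y hy => hy

end B2

/-- The specialisation at infinity of a pull-back. -/
theorem t_B2 : M_B2 := by
  intro _ hGX hBETF k R E _ _ _ _ _ n c d hd p
  classical
  have hz0 : rdim k (B2.extp p.1) = ((n + 1 : ℕ) : Cardinal) := by
    rw [B2.rdim_extp, p.2]
    push_cast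
    rfl
  let z0 : RP k R[X] (n + 1) := ⟨B2.extp p.1, hz0⟩
  have hd0 : d z0 = c p := by
    have h1 : rdim k (PrimeSpectrum.comap (CC k R).toRingHom z0.1) = n := by
      change rdim k (PrimeSpectrum.comap (CC k R).toRingHom (B2.extp p.1)) = n
      rw [B2.comap_extp]
      exact p.2
    rw [(hd z0).1 h1]
    congr 1
    exact Subtype.ext (B2.comap_extp k p.1)
  have hb0 : bet z0.1.asIdeal p.1 = 1 := by
    have h1 := hBETF.1 k R n p p
    rw [if_pos rfl] at h1
    exact h1
  rw [Finsupp.sum, Finset.sum_eq_single z0]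
  · rw [hd0, hb0, Nat.cast_one, mul_one]
  · intro z hz hne
    have hdz : d z ≠ 0 := Finsupp.mem_support_iff.mp hz
    have h1 : rdim k (PrimeSpectrum.comap (CC k R).toRingHom z.1) = n := by
      by_contra h
      exact hdz ((hd z).2 h)
    have h2 : z.1 = B2.extp (PrimeSpectrum.comap (CC k R).toRingHom z.1) := by
      apply B2.eq_extp
      apply ((hGX.1 k R).at' z.1).2
      rw [z.2]
      change ((n + 1 : ℕ) : Cardinal) = rdim k (PrimeSpectrum.comap (CC k R).toRingHom z.1) + (1 : ℕ)
      rw [h1]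
      push_cast
      rfl
    have h3 := hBETF.1 k R n ⟨PrimeSpectrum.comap (CC k R).toRingHom z.1, h1⟩ p
    have h4 : (⟨PrimeSpectrum.comap (CC k R).toRingHom z.1, h1⟩ : RP k R n) ≠ p := by
      intro h
      apply hne
      apply Subtype.ext
      rw [h2]
      have h5 : PrimeSpectrum.comap (CC k R).toRingHom z.1 = p.1 := congrArg Subtype.val h
      rw [h5]
    have h5 : bet z.1.asIdeal p.1 = 0 := by
      rw [h2]
      exact h3.trans (if_neg h4)
    rw [h5, Nat.cast_zero, mul_zero]
  · intro hz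
    rw [Finsupp.notMem_support_iff.mp hz, zero_mul]

end CUB


end

section

/-!
# CUB, block B: the ideals in the chart at infinity
-/

set_option autoImplicit false

open Polynomial

namespace CUB

namespace INFA

variable {R : Type} [CommRing R]

/-- the localisation -/
abbrev LX (R : Type) [CommRing R] : Type := Localization.Away (X : R[X])

/-- the inverse of `X` -/
noncomputable abbrev iv (R : Type) [CommRing R] : LX R := IsLocalization.Away.invSelf (X : R[X])

/-- the chart at infinity -/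
noncomputable abbrev jj (R : Type) [CommRing R] : R[X] →+* LX R :=
  eval₂RingHom ((algebraMap R[X] (LX R)).comp C) (iv R)

lemma X_iv : algebraMap R[X] (LX R) X * iv R = 1 := IsLocalization.Away.mul_invSelf (X : R[X])

lemma eval_id (f : R[X]) :
    eval₂ ((algebraMap R[X] (LX R)).comp C) (algebraMap R[X] (LX R) X) f =
      algebraMap R[X] (LX R) f := by
  rw [← hom_eval₂, eval₂_C_X]

lemma jj_reflect (N : ℕ) (f : R[X]) (hf : f.natDegree ≤ N) :
    jj R (reflect N f) * algebraMap R[X] (LX R) X ^ N = algebraMap R[X] (LX R) f := by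
  letI : Invertible (algebraMap R[X] (LX R) X) :=
    ⟨iv R, by rw [mul_comm]; exact X_iv, X_iv⟩
  have h := eval₂_reflect_mul_pow ((algebraMap R[X] (LX R)).comp C)
    (algebraMap R[X] (LX R) X) N f hf
  rw [eval_id] at h
  exact h

lemma jj_mul (N : ℕ) (g : R[X]) (hg : g.natDegree ≤ N) :
    jj R g * algebraMap R[X] (LX R) X ^ N = algebraMap R[X] (LX R) (reflect N g) := by
  have h1 : (reflect N g).natDegree ≤ N := by
    have := natDegree_reflect_le (N := N) (p := g)
    rwa [max_eq_left hg] at this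
  have h := jj_reflect N (reflect N g) h1
  rwa [reflect_reflect] at h

lemma isUnit_X : IsUnit (algebraMap R[X] (LX R) X) :=
  IsUnit.of_mul_eq_one _ X_iv

lemma mem_iff_jj {z : Ideal R[X]} {g : R[X]} : g ∈ infI z ↔ jj R g ∈ z.map (algebraMap R[X] (LX R)) :=
  Iff.rfl

lemma reflect_add_mul (g : R[X]) {N : ℕ} (m : ℕ) (hg : g.natDegree ≤ N) :
    reflect (N + m) g = X ^ m * reflect N g := by
  have h := reflect_mul g (1 : R[X]) hg (G := m) (by simp)
  rw [mul_one, reflect_one, mul_comm] at h
  exact h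

/-- membership for a fixed `N` -/
lemma mem_iff {z : Ideal R[X]} {g : R[X]} {N : ℕ} (hg : g.natDegree ≤ N) :
    g ∈ infI z ↔ ∃ m : ℕ, X ^ m * reflect N g ∈ z := by
  rw [mem_iff_jj]
  have h1 : jj R g ∈ z.map (algebraMap R[X] (LX R)) ↔
      algebraMap R[X] (LX R) (reflect N g) ∈ z.map (algebraMap R[X] (LX R)) := by
    rw [← jj_mul N g hg]
    exact (Ideal.mul_unit_mem_iff_mem _ (isUnit_X.pow N)).symm
  rw [h1, IsLocalization.algebraMap_mem_map_algebraMap_iff (Submonoid.powers (X : R[X]))]
  constructor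
  · rintro ⟨_, ⟨m, rfl⟩, h⟩
    exact ⟨m, h⟩
  · rintro ⟨m, h⟩
    exact ⟨X ^ m, ⟨m, rfl⟩, h⟩

lemma part1 (z : Ideal R[X]) (g : R[X]) : g ∈ infI z ↔ ∃ N : ℕ, g.natDegree ≤ N ∧ reflect N g ∈ z := by
  constructor
  · intro h
    obtain ⟨m, hm⟩ := (mem_iff (N := g.natDegree) le_rfl).1 h
    exact ⟨g.natDegree + m, Nat.le_add_right _ _, by rwa [reflect_add_mul g m le_rfl]⟩
  · rintro ⟨N, hN, h⟩
    exact (mem_iff hN).2 ⟨0, by simpa using h⟩

/-- removing powers of `X` -/
lemma of_pow {z : Ideal R[X]} (hz : z.IsPrime) (hX : X ∉ z) {m : ℕ} {g : R[X]}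
    (h : X ^ m * g ∈ z) : g ∈ z := by
  rcases hz.mem_or_mem h with h1 | h1
  · exact absurd (hz.mem_of_pow_mem m h1) hX
  · exact h1

/-- for a prime ideal without `X` -/
lemma mem_iff_prime {z : Ideal R[X]} (hz : z.IsPrime) (hX : X ∉ z) {g : R[X]} {N : ℕ}
    (hg : g.natDegree ≤ N) : g ∈ infI z ↔ reflect N g ∈ z := by
  rw [mem_iff hg]
  exact ⟨fun ⟨m, h⟩ => of_pow hz hX h, fun h => ⟨0, by simpa using h⟩⟩

lemma map_prime {z : Ideal R[X]} (hz : z.IsPrime) (hX : X ∉ z) :
    (z.map (algebraMap R[X] (LX R))).IsPrime := by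
  refine IsLocalization.isPrime_of_isPrime_disjoint (Submonoid.powers (X : R[X])) (LX R) z hz ?_
  rw [Set.disjoint_left]
  rintro x ⟨m, rfl⟩ hx
  exact hX (hz.mem_of_pow_mem m hx)

lemma inf_prime {z : Ideal R[X]} (hz : z.IsPrime) (hX : X ∉ z) : (infI z).IsPrime := by
  have h := map_prime hz hX
  exact Ideal.IsPrime.comap (jj R)

lemma X_notMem {z : Ideal R[X]} (hz : z.IsPrime) (hX : X ∉ z) : X ∉ infI z := by
  intro h
  rw [mem_iff_jj] at h
  have h1 : jj R X = iv R := eval₂_X _ _
  rw [h1] at h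
  apply (map_prime hz hX).ne_top
  refine Ideal.eq_top_of_isUnit_mem _ h (IsUnit.of_mul_eq_one (algebraMap R[X] (LX R) X) ?_)
  rw [mul_comm]
  exact X_iv

end INFA

open _root_.CUB.INFA

theorem t_INFA : S_INFA := by
  refine ⟨?_, ?_, ?_, ?_, ?_⟩
  · intro R _ z g
    exact part1 z g
  · intro R _ z hX
    rw [Ideal.eq_top_iff_one, mem_iff (N := 0) (by simp)]
    refine ⟨1, ?_⟩
    rw [reflect_one]
    simpa using hX
  · intro R _ z hz hX
    have h1 := inf_prime hz hX
    have h2 := X_notMem hz hX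
    refine ⟨h1, h2, ?_⟩
    ext g
    have h3 : (reflect g.natDegree g).natDegree ≤ g.natDegree := by
      have := natDegree_reflect_le (N := g.natDegree) (p := g)
      rwa [max_self] at this
    rw [mem_iff_prime h1 h2 (N := g.natDegree) le_rfl, mem_iff_prime hz hX h3, reflect_reflect]
  · intro R _ z hz hX
    ext r
    rw [Ideal.mem_comap, Ideal.mem_comap, mem_iff_prime hz hX (N := 0) (by simp), reflect_C]
    simp
  · intro R K _ _ θ s hs
    ext g
    rw [part1, RingHom.mem_ker]
    letI : Invertible (s⁻¹) := ⟨s, mul_inv_cancel₀ hs, inv_mul_cancel₀ hs⟩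
    have key : ∀ N, g.natDegree ≤ N → (reflect N g ∈ RingHom.ker (eval₂RingHom θ s) ↔
        eval₂RingHom θ s⁻¹ g = 0) := by
      intro N hN
      rw [RingHom.mem_ker]
      exact eval₂_reflect_eq_zero_iff θ s⁻¹ N g hN
    constructor
    · rintro ⟨N, hN, h⟩
      exact (key N hN).1 h
    · intro h
      exact ⟨g.natDegree, le_rfl, (key _ le_rfl).2 h⟩

end CUB


end

section

/-!
# QUAD: every algebra of finite type is defined by equations of degree at most two
-/

set_option autoImplicit false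



namespace CUB

namespace QUAD

open MvPolynomial

open Classical in
/-- the variable of an exponent -/
noncomputable def ev {n : ℕ} (k : Type) [Field k] (S : Finset (Fin n →₀ ℕ)) (a : Fin n →₀ ℕ) :
    MvPolynomial {a // a ∈ S} k := if h : a ∈ S then X ⟨a, h⟩ else 0

lemma ev_pos {n : ℕ} {k : Type} [Field k] {S : Finset (Fin n →₀ ℕ)} {a : Fin n →₀ ℕ} (h : a ∈ S) :
    ev k S a = X ⟨a, h⟩ := by
  simp only [ev, h, dif_pos]

lemma ev_deg {n : ℕ} {k : Type} [Field k] (S : Finset (Fin n →₀ ℕ)) (a : Fin n →₀ ℕ) :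
    (ev k S a).totalDegree ≤ 1 := by
  by_cases h : a ∈ S
  · rw [ev_pos h]
    exact le_of_eq (totalDegree_X _)
  · simp only [ev, h, dif_neg, not_false_eq_true, totalDegree_zero, zero_le]

/-- the linear equation of a polynomial -/
noncomputable def lin {n : ℕ} {k : Type} [Field k] (S : Finset (Fin n →₀ ℕ)) (g : MvPolynomial (Fin n) k) :
    MvPolynomial {a // a ∈ S} k := ∑ a ∈ g.support, C (g.coeff a) * ev k S a

lemma lin_deg {n : ℕ} {k : Type} [Field k] (S : Finset (Fin n →₀ ℕ)) (g : MvPolynomial (Fin n) k) :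
    (lin S g).totalDegree ≤ 1 := by
  unfold lin
  refine (totalDegree_finsetSum _ _).trans (Finset.sup_le fun a _ => ?_)
  refine (totalDegree_mul _ _).trans ?_
  rw [totalDegree_C, zero_add]
  exact ev_deg S a

/-- general index types -/
lemma general {k A : Type} [Field k] [CommRing A] [Algebra k A] [Algebra.FiniteType k A] :
    ∃ (ι : Type) (_ : Finite ι) (E : Finset (MvPolynomial ι k)) (φ : MvPolynomial ι k →ₐ[k] A),
      Function.Surjective φ ∧ RingHom.ker φ.toRingHom = Ideal.span (E : Set (MvPolynomial ι k)) ∧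
      ∀ f ∈ E, f.totalDegree ≤ 2 := by
  classical
  obtain ⟨n, π, hπ⟩ := Algebra.FiniteType.iff_quotient_mvPolynomial''.1 (inferInstance : Algebra.FiniteType k A)
  obtain ⟨G, hG⟩ : (RingHom.ker π.toRingHom).FG := IsNoetherian.noetherian _
  let e : Fin n → Fin n →₀ ℕ := fun i => Finsupp.single i 1
  let Bd : Fin n →₀ ℕ := (G.sup fun g => g.support.sup id) ⊔ (Finset.univ.sup e)
  let S : Finset (Fin n →₀ ℕ) := Finset.Icc 0 Bd
  have hS : ∀ a, a ∈ S ↔ a ≤ Bd := by
    intro a
    simp only [S, Finset.mem_Icc]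
    exact ⟨fun h => h.2, fun h => ⟨bot_le, h⟩⟩
  have h0 : (0 : Fin n →₀ ℕ) ∈ S := (hS 0).2 bot_le
  have hlow : ∀ a b, a ≤ b → b ∈ S → a ∈ S := fun a b hab hb => (hS a).2 (hab.trans ((hS b).1 hb))
  have he : ∀ i, e i ∈ S := fun i => (hS _).2
    ((Finset.le_sup (f := e) (Finset.mem_univ i)).trans le_sup_right)
  have hg : ∀ g ∈ G, ∀ a ∈ g.support, a ∈ S := fun g hg a ha => (hS _).2
    (((Finset.le_sup (f := id) ha).trans (Finset.le_sup (f := fun g : MvPolynomial (Fin n) k => g.support.sup id) hg)).trans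
      le_sup_left)
  -- the maps
  let θ : MvPolynomial {a // a ∈ S} k →ₐ[k] MvPolynomial (Fin n) k := aeval fun a => monomial a.1 1
  have hθ : ∀ a : {a // a ∈ S}, θ (X a) = monomial a.1 1 := fun a => by simp only [θ, aeval_X]
  have hθe : ∀ a ∈ S, θ (ev k S a) = monomial a 1 := fun a ha => by rw [ev_pos ha, hθ]
  let E1 : Finset (MvPolynomial {a // a ∈ S} k) := {ev k S 0 - 1}
  let E2 : Finset (MvPolynomial {a // a ∈ S} k) := ((S ×ˢ S).filter fun p => p.1 + p.2 ∈ S).image
    fun p => ev k S p.1 * ev k S p.2 - ev k S (p.1 + p.2)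
  let E3 : Finset (MvPolynomial {a // a ∈ S} k) := G.image (lin S)
  let E := E1 ∪ E2 ∪ E3
  let J : Ideal (MvPolynomial {a // a ∈ S} k) := Ideal.span (E : Set (MvPolynomial {a // a ∈ S} k))
  have hJ1 : ev k S 0 - 1 ∈ J := Ideal.subset_span (by
    simp only [E, E1, Finset.coe_union, Set.mem_union, Finset.mem_coe, Finset.mem_singleton, true_or])
  have hJ2 : ∀ a ∈ S, ∀ b ∈ S, a + b ∈ S → ev k S a * ev k S b - ev k S (a + b) ∈ J := by
    intro a ha b hb hab
    refine Ideal.subset_span ?_
    have : ev k S a * ev k S b - ev k S (a + b) ∈ E2 :=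
      Finset.mem_image.2 ⟨(a, b), Finset.mem_filter.2 ⟨Finset.mk_mem_product ha hb, hab⟩, rfl⟩
    simp only [E, Finset.coe_union, Set.mem_union, Finset.mem_coe, this, true_or, or_true]
  have hJ3 : ∀ g ∈ G, lin S g ∈ J := by
    intro g hg
    refine Ideal.subset_span ?_
    have : lin S g ∈ E3 := Finset.mem_image.2 ⟨g, hg, rfl⟩
    simp only [E, Finset.coe_union, Set.mem_union, Finset.mem_coe, this, or_true]
  let q : MvPolynomial {a // a ∈ S} k →ₐ[k] (MvPolynomial {a // a ∈ S} k ⧸ J) := Ideal.Quotient.mkₐ k J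
  have hq : ∀ x y, x - y ∈ J → q x = q y := fun x y h => (Ideal.Quotient.mk_eq_mk_iff_sub_mem x y).2 h
  let ψ : MvPolynomial (Fin n) k →ₐ[k] (MvPolynomial {a // a ∈ S} k ⧸ J) := aeval fun i => q (ev k S (e i))
  have hψ : ∀ i, ψ (X i) = q (ev k S (e i)) := fun i => by simp only [ψ, aeval_X]
  have key : ∀ N : ℕ, ∀ a : Fin n →₀ ℕ, a.sum (fun _ c => c) = N → a ∈ S → ψ (monomial a 1) = q (ev k S a) := by
    intro N
    induction N with
    | zero =>
      intro a hsum ha
      have ha0 : a = 0 := by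
        ext i
        rw [Finsupp.sum_fintype _ _ (fun _ => rfl)] at hsum
        exact (Finset.sum_eq_zero_iff.1 hsum) i (Finset.mem_univ i)
      subst ha0
      have h1 : (monomial (0 : Fin n →₀ ℕ) (1 : k)) = 1 := rfl
      rw [h1, map_one, hq _ _ hJ1, map_one]
    | succ N ih =>
      intro a hsum ha
      have hne : a ≠ 0 := by
        rintro rfl
        simp at hsum
      obtain ⟨i, hi⟩ := Finsupp.ne_iff.1 hne
      have hi' : 1 ≤ a i := Nat.one_le_iff_ne_zero.2 (by simpa using hi)
      have hle : e i ≤ a := by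
        simp only [e]
        exact Finsupp.single_le_iff.2 hi'
      have hdec : a - e i + e i = a := tsub_add_cancel_of_le hle
      have h1 : a - e i ∈ S := hlow _ _ tsub_le_self ha
      have h2 : (a - e i).sum (fun _ c => c) = N := by
        have h3 : (a - e i + e i).sum (fun _ c => c) = N + 1 := by rw [hdec, hsum]
        rw [Finsupp.sum_add_index' (fun _ => rfl) (fun _ _ _ => rfl)] at h3
        simp only [e, Finsupp.sum_single_index] at h3
        simp only [e]
        omega
      have h3 := ih _ h2 h1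
      have h4 : monomial a (1 : k) = monomial (a - e i) 1 * X i := by
        rw [X, monomial_mul, mul_one]
        change _ = monomial (a - e i + e i) (1 : k)
        rw [hdec]
      rw [h4, map_mul, h3, hψ, ← map_mul]
      have h5 := hq _ _ (hJ2 _ h1 _ (he i) (by rw [hdec]; exact ha))
      rw [hdec] at h5
      exact h5
  have hmon : ∀ a ∈ S, ψ (monomial a 1) = q (ev k S a) := fun a ha => key _ a rfl ha
  have hlin : ∀ g : MvPolynomial (Fin n) k, (∀ a ∈ g.support, a ∈ S) → ψ g = q (lin S g) := by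
    intro g hgS
    conv_lhs => rw [g.as_sum]
    simp only [lin, map_sum, map_mul]
    refine Finset.sum_congr rfl fun a ha => ?_
    have h1 : monomial a (g.coeff a) = C (g.coeff a) * monomial a 1 := by
      rw [C_mul_monomial, mul_one]
    rw [h1, map_mul, hmon a (hgS a ha)]
    congr 1
    rw [← algebraMap_eq, ← algebraMap_eq, AlgHom.commutes, AlgHom.commutes]
  have hθlin : ∀ g : MvPolynomial (Fin n) k, (∀ a ∈ g.support, a ∈ S) → θ (lin S g) = g := by
    intro g hgS
    conv_rhs => rw [g.as_sum]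
    simp only [lin, map_sum, map_mul]
    refine Finset.sum_congr rfl fun a ha => ?_
    rw [hθe a (hgS a ha)]
    have h1 : θ (C (g.coeff a)) = C (g.coeff a) := by
      rw [← algebraMap_eq, ← algebraMap_eq, AlgHom.commutes]
    rw [h1, C_mul_monomial, mul_one]
  have hker : RingHom.ker π.toRingHom ≤ RingHom.ker ψ.toRingHom := by
    rw [← hG, Ideal.span_le]
    intro g hgG
    have h1 : ψ g = 0 := by
      rw [hlin g (hg g hgG)]
      exact Ideal.Quotient.eq_zero_iff_mem.2 (hJ3 g hgG)
    exact h1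
  have hqθ : ∀ p, q p = ψ (θ p) := by
    have : q = ψ.comp θ := by
      refine MvPolynomial.algHom_ext fun a => ?_
      rw [AlgHom.comp_apply, hθ, hmon a.1 a.2, ev_pos a.2]
    intro p
    rw [this]
    rfl
  refine ⟨{a // a ∈ S}, inferInstance, E, π.comp θ, ?_, ?_, ?_⟩
  · intro b
    obtain ⟨p, rfl⟩ := hπ b
    refine ⟨aeval (fun i => ev k S (e i)) p, ?_⟩
    rw [AlgHom.comp_apply]
    congr 1
    have : (θ.comp (aeval fun i => ev k S (e i))) = AlgHom.id k _ := by
      refine MvPolynomial.algHom_ext fun i => ?_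
      rw [AlgHom.comp_apply, aeval_X, hθe _ (he i)]
      rfl
    exact DFunLike.congr_fun this p
  · apply le_antisymm
    · intro p hp
      have h1 : π (θ p) = 0 := hp
      have h2 : ψ (θ p) = 0 := hker h1
      rw [← hqθ] at h2
      exact Ideal.Quotient.eq_zero_iff_mem.1 h2
    · rw [Ideal.span_le]
      intro f hf
      change π (θ f) = 0
      simp only [E, Finset.coe_union, Set.mem_union, Finset.mem_coe] at hf
      rcases hf with (hf | hf) | hf
      · have h1 : (monomial (0 : Fin n →₀ ℕ) (1 : k)) = 1 := rfl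
        have h2 : θ 1 = 1 := map_one θ
        rw [Finset.mem_singleton.1 hf, map_sub, hθe _ h0, h1, h2, sub_self, map_zero]
      · obtain ⟨p, hp, rfl⟩ := Finset.mem_image.1 hf
        obtain ⟨hp1, hp2⟩ := Finset.mem_filter.1 hp
        obtain ⟨hp3, hp4⟩ := Finset.mem_product.1 hp1
        rw [map_sub, map_mul, hθe _ hp3, hθe _ hp4, hθe _ hp2, monomial_mul, mul_one, sub_self, map_zero]
      · obtain ⟨g, hgG, rfl⟩ := Finset.mem_image.1 hf
        rw [hθlin g (hg g hgG)]
        have : g ∈ RingHom.ker π.toRingHom := by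
          rw [← hG]
          exact Ideal.subset_span hgG
        exact this
  · intro f hf
    simp only [E, Finset.mem_union] at hf
    rcases hf with (hf | hf) | hf
    · rw [Finset.mem_singleton.1 hf]
      refine (totalDegree_sub _ _).trans (max_le ((ev_deg S 0).trans (by norm_num)) ?_)
      rw [totalDegree_one]
      norm_num
    · obtain ⟨p, hp, rfl⟩ := Finset.mem_image.1 hf
      refine (totalDegree_sub _ _).trans (max_le ?_ ((ev_deg S _).trans (by norm_num)))
      exact (totalDegree_mul _ _).trans (add_le_add (ev_deg S _) (ev_deg S _))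
    · obtain ⟨g, hgG, rfl⟩ := Finset.mem_image.1 hf
      exact (lin_deg S g).trans (by norm_num)

end QUAD

theorem t_QUAD : S_QUAD := by
  intro k A _ _ _ _
  classical
  obtain ⟨ι, hι, E, φ, h1, h2, h3⟩ := QUAD.general (k := k) (A := A)
  have := Fintype.ofFinite ι
  let r : ι ≃ Fin (Fintype.card ι) := Fintype.equivFin ι
  let ρ : MvPolynomial ι k ≃ₐ[k] MvPolynomial (Fin (Fintype.card ι)) k := MvPolynomial.renameEquiv k r
  refine ⟨Fintype.card ι, E.card, fun j => ρ (E.equivFin.symm j).1, φ.comp ρ.symm.toAlgHom, ?_, ?_, ?_⟩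
  · exact h1.comp ρ.symm.surjective
  · have hr : (Set.range fun j : Fin E.card => ρ (E.equivFin.symm j).1) = ρ '' (E : Set (MvPolynomial ι k)) := by
      ext x
      constructor
      · rintro ⟨j, rfl⟩
        exact ⟨_, (E.equivFin.symm j).2, rfl⟩
      · rintro ⟨y, hy, rfl⟩
        refine ⟨E.equivFin ⟨y, hy⟩, ?_⟩
        simp
    rw [hr]
    have h4 : Ideal.span (ρ '' (E : Set (MvPolynomial ι k))) =
        (Ideal.span (E : Set (MvPolynomial ι k))).map ρ.toAlgHom.toRingHom := by
      rw [Ideal.map_span]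
      rfl
    rw [h4, ← h2]
    ext x
    constructor
    · intro hx
      have h5 : φ (ρ.symm x) = 0 := hx
      have h6 : ρ.symm x ∈ RingHom.ker φ.toRingHom := h5
      have h7 := Ideal.mem_map_of_mem ρ.toAlgHom.toRingHom h6
      have h8 : ρ.toAlgHom.toRingHom (ρ.symm x) = x := ρ.apply_symm_apply x
      rw [h8] at h7
      exact h7
    · intro hx
      have h5 : (RingHom.ker φ.toRingHom).map ρ.toAlgHom.toRingHom ≤
          RingHom.ker (φ.comp ρ.symm.toAlgHom).toRingHom := by
        rw [Ideal.map_le_iff_le_comap]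
        intro y hy
        have h6 : φ y = 0 := hy
        change φ (ρ.symm (ρ y)) = 0
        rw [ρ.symm_apply_apply]
        exact h6
      exact h5 hx
  · intro j
    have h4 := h3 _ (E.equivFin.symm j).2
    have h5 : (ρ (E.equivFin.symm j).1).totalDegree ≤ ((E.equivFin.symm j).1).totalDegree := by
      change (MvPolynomial.rename r (E.equivFin.symm j).1).totalDegree ≤ _
      exact MvPolynomial.totalDegree_rename_le r _
    exact h5.trans h4

end CUB


end

section

set_option autoImplicit false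

open Polynomial

namespace QCV

namespace DDF

theorem eqi (a b c d : ℕ) : (Finsupp.single (0 : Fin 2) a + Finsupp.single 1 b =
    Finsupp.single (0 : Fin 2) c + Finsupp.single 1 d) ↔ a = c ∧ b = d := by
  constructor
  · intro h
    have h0 := DFunLike.congr_fun h 0
    have h1 := DFunLike.congr_fun h 1
    simp at h0 h1
    exact ⟨h0, h1⟩
  · rintro ⟨rfl, rfl⟩; rfl

theorem monE {A : Type} [CommRing A] (a b : ℕ) (c : A) :
    MvPolynomial.C c * MvPolynomial.X 0 ^ a * MvPolynomial.X 1 ^ b =
      (MvPolynomial.monomial (Finsupp.single (0 : Fin 2) a + Finsupp.single 1 b) c) := by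
  rw [MvPolynomial.X_pow_eq_monomial, MvPolynomial.X_pow_eq_monomial,
    MvPolynomial.C_mul_monomial, MvPolynomial.monomial_mul]
  simp

theorem hom3 {A : Type} [CommRing A] (H : MvPolynomial (Fin 2) A) (hH : H.IsHomogeneous 3) :
    ∃ c : Fin 4 → A, H = MvPolynomial.C (c 0) * MvPolynomial.X 0 ^ 3 * MvPolynomial.X 1 ^ 0 +
      MvPolynomial.C (c 1) * MvPolynomial.X 0 ^ 2 * MvPolynomial.X 1 ^ 1 +
      MvPolynomial.C (c 2) * MvPolynomial.X 0 ^ 1 * MvPolynomial.X 1 ^ 2 +
      MvPolynomial.C (c 3) * MvPolynomial.X 0 ^ 0 * MvPolynomial.X 1 ^ 3 := by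
  refine ⟨fun j => MvPolynomial.coeff (Finsupp.single (0 : Fin 2) (3 - j.1) +
    Finsupp.single 1 j.1) H, ?_⟩
  rw [monE, monE, monE, monE]
  ext μ
  have hμ : μ = Finsupp.single (0 : Fin 2) (μ 0) + Finsupp.single 1 (μ 1) := by
    ext i; fin_cases i <;> simp
  obtain ⟨a, ha⟩ : ∃ a, a = μ 0 := ⟨_, rfl⟩
  obtain ⟨b, hb⟩ : ∃ b, b = μ 1 := ⟨_, rfl⟩
  rw [← ha, ← hb] at hμ
  subst hμ
  simp only [MvPolynomial.coeff_add, MvPolynomial.coeff_monomial, eqi]
  by_cases h : a + b = 3
  · have hb' : b = 3 - a := by omega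
    have ha' : a ≤ 3 := by omega
    subst hb'
    interval_cases a <;> simp
  · rw [hH.coeff_eq_zero (by
      intro h'
      apply h
      rw [map_add, Finsupp.degree_single, Finsupp.degree_single] at h'
      exact h')]
    have h1 : ¬ (3 = a ∧ 0 = b) := by omega
    have h2 : ¬ (2 = a ∧ 1 = b) := by omega
    have h3 : ¬ (1 = a ∧ 2 = b) := by omega
    have h4 : ¬ (0 = a ∧ 3 = b) := by omega
    simp [h1, h2, h3, h4]

theorem transc (K : Type) [Field K] :
    Transcendental K (algebraMap (PowerSeries K) (FractionRing (PowerSeries K)) PowerSeries.X) := by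
  rw [transcendental_iff]
  intro p hp
  rw [Polynomial.aeval_algebraMap_apply] at hp
  have h1 : aeval (PowerSeries.X : PowerSeries K) p = 0 := by
    apply IsFractionRing.injective (PowerSeries K) (FractionRing (PowerSeries K))
    rw [hp, map_zero]
  have h2 : aeval (PowerSeries.X : PowerSeries K) p = (p : PowerSeries K) := by
    rw [← Polynomial.eval₂_C_X_eq_coe]
    rfl
  rw [h2] at h1
  exact_mod_cast h1

end DDF

open _root_.QCV.DDF

theorem t_DDF : M_DDF := by
  intro hfx K _ F hF
  -- the form over the ring of the unknowns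
  let R := MvPolynomial (Fin 4) K
  let ℓ : Fin 4 → MvPolynomial (Fin 2) R := ![MvPolynomial.X 0, MvPolynomial.X 1,
    MvPolynomial.C (MvPolynomial.X 0) * MvPolynomial.X 0 +
      MvPolynomial.C (MvPolynomial.X 1) * MvPolynomial.X 1,
    MvPolynomial.C (MvPolynomial.X 2) * MvPolynomial.X 0 +
      MvPolynomial.C (MvPolynomial.X 3) * MvPolynomial.X 1]
  have hℓ : ∀ i, (ℓ i).IsHomogeneous 1 := by
    have hc : ∀ (a : R) (i : Fin 2), (MvPolynomial.C a * MvPolynomial.X i :
        MvPolynomial (Fin 2) R).IsHomogeneous 1 := by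
      intro a i
      have := (MvPolynomial.isHomogeneous_C (Fin 2) a).mul (MvPolynomial.isHomogeneous_X R i)
      simpa using this
    intro i
    fin_cases i
    · exact MvPolynomial.isHomogeneous_X R 0
    · exact MvPolynomial.isHomogeneous_X R 1
    · exact (hc _ _).add (hc _ _)
    · exact (hc _ _).add (hc _ _)
  have hG : (MvPolynomial.aeval ℓ F).IsHomogeneous 3 := by
    have := hF.aeval ℓ hℓ
    simpa using this
  obtain ⟨Φ, hΦ⟩ := hom3 _ hG
  obtain ⟨v, hv⟩ := hfx K 4 (fun j => - Φ j)
  let Ω := FractionRing (PowerSeries K)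
  let w : Fin 4 → Ω := fun j => algebraMap (PowerSeries K) Ω (v j)
  let t : Ω := algebraMap (PowerSeries K) Ω PowerSeries.X
  have hw : ∀ j, w j + t * MvPolynomial.aeval w (Φ j) = 0 := by
    intro j
    have h1 : MvPolynomial.aeval w (Φ j) =
        algebraMap (PowerSeries K) Ω (MvPolynomial.aeval v (Φ j)) := by
      rw [← MvPolynomial.aeval_algebraMap_apply]
      rfl
    have h2 := congrArg (algebraMap (PowerSeries K) Ω) (hv j)
    rw [map_mul, map_neg, map_neg] at h2
    rw [h1]
    show algebraMap (PowerSeries K) Ω (v j) + t * _ = 0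
    rw [h2]
    ring
  refine ⟨Ω, inferInstance, inferInstance, t, transc K, ![1, 0, w 0, w 2], ![0, 1, w 1, w 3],
    ?_, ?_⟩
  · rw [LinearIndependent.pair_iff]
    intro a b hab
    have h0 := congrFun hab 0
    have h1 := congrFun hab 1
    simp at h0 h1
    exact ⟨h0, h1⟩
  · -- the value of `F`
    let φ : R →ₐ[K] Ω := MvPolynomial.aeval w
    have hval : MvPolynomial.aeval (fun i => MvPolynomial.C ((![1, 0, w 0, w 2] : Fin 4 → Ω) i) *
        MvPolynomial.X 0 + MvPolynomial.C ((![0, 1, w 1, w 3] : Fin 4 → Ω) i) *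
        MvPolynomial.X 1 : Fin 4 → MvPolynomial (Fin 2) Ω) (MvPolynomial.map (algebraMap K Ω) F) =
        MvPolynomial.map φ.toRingHom (MvPolynomial.aeval ℓ F) := by
      have hcomp : ((MvPolynomial.aeval (fun i => MvPolynomial.C ((![1, 0, w 0, w 2] :
          Fin 4 → Ω) i) * MvPolynomial.X 0 + MvPolynomial.C ((![0, 1, w 1, w 3] : Fin 4 → Ω) i) *
          MvPolynomial.X 1 : Fin 4 → MvPolynomial (Fin 2) Ω)).toRingHom.comp
          (MvPolynomial.map (algebraMap K Ω))) =
          (MvPolynomial.map φ.toRingHom).comp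
            (MvPolynomial.aeval ℓ : MvPolynomial (Fin 4) K →ₐ[K] _).toRingHom := by
        apply MvPolynomial.ringHom_ext
        · intro r
          simp only [RingHom.comp_apply, MvPolynomial.map_C, AlgHom.toRingHom_eq_coe,
            RingHom.coe_coe, MvPolynomial.aeval_C]
          have : (algebraMap K (MvPolynomial (Fin 2) R)) r =
              MvPolynomial.C (algebraMap K R r) := rfl
          rw [this, MvPolynomial.map_C]
          congr 1
          exact (φ.commutes r).symm
        · intro i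
          have hφ : ∀ j, φ (MvPolynomial.X j) = w j := fun j => MvPolynomial.aeval_X _ _
          fin_cases i <;>
            simp [ℓ, hφ]
      exact RingHom.congr_fun hcomp F
    have e : MvPolynomial.map φ.toRingHom (MvPolynomial.aeval ℓ F) =
        MvPolynomial.C (φ (Φ 0)) * MvPolynomial.X 0 ^ 3 * MvPolynomial.X 1 ^ 0 +
        MvPolynomial.C (φ (Φ 1)) * MvPolynomial.X 0 ^ 2 * MvPolynomial.X 1 ^ 1 +
        MvPolynomial.C (φ (Φ 2)) * MvPolynomial.X 0 ^ 1 * MvPolynomial.X 1 ^ 2 +
        MvPolynomial.C (φ (Φ 3)) * MvPolynomial.X 0 ^ 0 * MvPolynomial.X 1 ^ 3 := by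
      rw [hΦ]
      simp only [map_add, map_mul, map_pow, MvPolynomial.map_C, MvPolynomial.map_X]
      rfl
    rw [map_add, map_mul (MvPolynomial.aeval _) (MvPolynomial.C t), hval, e]
    have hC : ∀ j, (MvPolynomial.C (w j) : MvPolynomial (Fin 2) Ω) +
        MvPolynomial.C t * MvPolynomial.C (φ (Φ j)) = 0 := by
      intro j
      rw [← MvPolynomial.C_mul, ← MvPolynomial.C_add, hw j, MvPolynomial.C_0]
    have h0 := hC 0
    have h1 := hC 1
    have h2 := hC 2
    have h3 := hC 3
    simp only [map_add, map_mul, map_pow, MvPolynomial.aeval_X, MvPolynomial.aeval_C,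
      MvPolynomial.algebraMap_eq]
    simp
    linear_combination (MvPolynomial.X 0 ^ 3) * h0 + (MvPolynomial.X 0 ^ 2 * MvPolynomial.X 1) * h1 +
      (MvPolynomial.X 0 * MvPolynomial.X 1 ^ 2) * h2 + (MvPolynomial.X 1 ^ 3) * h3

end QCV


end
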