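import Mathlib
import Pool.Agent.QVM.C05
import Pool.Agent.QVM.C08
import Pool.Agent.QVM.C11
import Pool.Agent.QVM.C12

/-! Parts: CUB.A_LOC, CUB.C_CSU, CUB.R_TDF, QCV.R_ELI, QCV.R_SUB -/

section

/-!
# Module LOC: the localisation sequence
-/

set_option autoImplicit false

open Polynomial

namespace CUB

namespace LOC

variable {k A B E : Type} [Field k] [CommRing A] [CommRing B] [Algebra k A] [Algebra k B]
  [Field E] {φ : A →ₐ[k] B} {a : A}

lemma rdim_le (φ : A →ₐ[k] B) (P : PrimeSpectrum B) :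
    rdim k (PrimeSpectrum.comap φ.toRingHom P) ≤ rdim k P := by
  unfold rdim
  have H : (PrimeSpectrum.comap φ.toRingHom P).asIdeal ≤ P.asIdeal.comap φ := le_refl _
  have h1 : Function.Injective (Ideal.quotientMapₐ P.asIdeal φ H) :=
    Ideal.quotientMap_injective' (H := H) (le_refl _)
  have hP : P.asIdeal.IsPrime := P.isPrime
  exact trdeg_le_of_injective (Ideal.quotientMapₐ P.asIdeal φ H) h1

lemma rdim_eq (hG : Good k 0 φ) (P : PrimeSpectrum B) :
    rdim k (PrimeSpectrum.comap φ.toRingHom P) = rdim k P := by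
  refine le_antisymm (rdim_le φ P) ?_
  have := (hG.at' P).1
  simpa using this

lemma len_eq (hB : S_LENB) (hG : Good k 0 φ) (P : PrimeSpectrum B) (I : Ideal A) :
    len (I.map φ.toRingHom) P = len I (PrimeSpectrum.comap φ.toRingHom P) := by
  refine hB A B φ.toRingHom P hG.flat ((hG.at' P).2 ?_) I
  rw [rdim_eq hG P]
  simp

lemma a_notMem (hloc : @IsLocalization.Away A _ a B _ φ.toRingHom.toAlgebra)
    (P : PrimeSpectrum B) : a ∉ (PrimeSpectrum.comap φ.toRingHom P).asIdeal := by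
  let _ := φ.toRingHom.toAlgebra
  intro h
  have h1 : IsUnit (algebraMap A B a) := IsLocalization.Away.algebraMap_isUnit a
  exact P.isPrime.ne_top (Ideal.eq_top_of_isUnit_mem _ h h1)

lemma exists_prime (hloc : @IsLocalization.Away A _ a B _ φ.toRingHom.toAlgebra)
    (p : PrimeSpectrum A) (hp : a ∉ p.asIdeal) :
    ∃ P : PrimeSpectrum B, PrimeSpectrum.comap φ.toRingHom P = p := by
  let _ := φ.toRingHom.toAlgebra
  have h := PrimeSpectrum.localization_away_comap_range B a
  have h1 : p ∈ Set.range (PrimeSpectrum.comap (algebraMap A B)) := by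
    rw [h]
    exact hp
  exact h1

lemma comap_inj (hloc : @IsLocalization.Away A _ a B _ φ.toRingHom.toAlgebra) :
    Function.Injective (PrimeSpectrum.comap φ.toRingHom) := by
  let _ := φ.toRingHom.toAlgebra
  exact PrimeSpectrum.localization_comap_injective B (Submonoid.powers a)

lemma map_comap (hloc : @IsLocalization.Away A _ a B _ φ.toRingHom.toAlgebra) (J : Ideal B) :
    (J.comap φ.toRingHom).map φ.toRingHom = J := by
  let _ := φ.toRingHom.toAlgebra
  exact IsLocalization.map_under (Submonoid.powers a) B J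

lemma exists_num (hloc : @IsLocalization.Away A _ a B _ φ.toRingHom.toAlgebra) (b : B) :
    ∃ (b' : A) (u : Bˣ), φ b' = (u : B) * b := by
  let _ := φ.toRingHom.toAlgebra
  obtain ⟨⟨b', s⟩, h⟩ := IsLocalization.surj (Submonoid.powers a) b
  have hu : IsUnit (algebraMap A B s) := IsLocalization.map_units B s
  refine ⟨b', hu.unit, ?_⟩
  rw [IsUnit.unit_spec, mul_comm]
  exact h.symm

/-- the points of `B` as points of `A` -/
noncomputable def iota (hG : Good k 0 φ) (n : ℕ) (P : RP k B n) : RP k A n :=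
  ⟨PrimeSpectrum.comap φ.toRingHom P.1, (rdim_eq hG P.1).trans P.2⟩

lemma isPull_iff (hG : Good k 0 φ) (n : ℕ) (c : RP k A n →₀ E) (d : RP k B n →₀ E) :
    IsPull k E 0 φ c d ↔ ∀ P : RP k B n, d P = c (iota hG n P) := by
  constructor
  · intro h P
    exact (h P).1 ((rdim_eq hG P.1).trans P.2)
  · intro h P
    refine ⟨fun _ => h P, fun hne => absurd ((rdim_eq hG P.1).trans P.2) hne⟩

lemma sup_eq (Q : Ideal B) (u : Bˣ) (b : B) :
    Q ⊔ Ideal.span {(u : B) * b} = Q ⊔ Ideal.span {b} := by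
  congr 1
  rw [Ideal.span_singleton_mul_left_unit u.isUnit]

end LOC

open _root_.CUB.LOC in
/-- the localisation sequence -/
theorem t_LOC : M_LOC := by
  intro _ hLB _ hDV hGLO k A B E _ _ _ _ _ _ _ _ φ a hloc n I
  have hG : Good k 0 φ := hGLO k A B φ a hloc
  refine ⟨?_, ?_⟩
  · intro c d hcd hd
    -- lift of the rational equivalence
    have key : ∀ d' : RP k B n →₀ E, d' ∈ ratOn k E n (I.map φ.toRingHom) →
        ∃ ρ ∈ ratOn k E n I, ∀ P : RP k B n, d' P = ρ (iota hG n P) := by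
      intro d' hd'
      unfold ratOn at hd'
      induction hd' using Submodule.span_induction with
      | mem x hx =>
        obtain ⟨Q, b, hIQ, hbQ, hdv⟩ := hx
        obtain ⟨b', u, hb'⟩ := exists_num hloc b
        set q : RP k A (n + 1) := iota hG (n + 1) Q with hq
        have hb'q : b' ∉ q.1.asIdeal := by
          intro h
          have h1 : φ b' ∈ Q.1.asIdeal := h
          rw [hb'] at h1
          rcases Q.1.isPrime.mem_or_mem h1 with h2 | h2
          · exact Q.1.isPrime.ne_top (Ideal.eq_top_of_isUnit_mem _ h2 u.isUnit)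
          · exact hbQ h2
        obtain ⟨ρ, hρ⟩ := hDV k A E n q b' hb'q
        refine ⟨ρ, Submodule.subset_span ⟨q, b', ?_, hb'q, hρ⟩, ?_⟩
        · exact Ideal.map_le_iff_le_comap.mp hIQ
        · intro P
          rw [hdv P, hρ (iota hG n P)]
          have h3 := len_eq hLB hG P.1 (q.1.asIdeal ⊔ Ideal.span {b'})
          have h4 : (q.1.asIdeal ⊔ Ideal.span {b'}).map φ.toRingHom =
              Q.1.asIdeal ⊔ Ideal.span {b} := by
            rw [Ideal.map_sup, Ideal.map_span, Set.image_singleton]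
            have h5 : q.1.asIdeal.map φ.toRingHom = Q.1.asIdeal :=
              map_comap hloc Q.1.asIdeal
            have h6 : φ.toRingHom b' = (u : B) * b := hb'
            rw [h5, h6, sup_eq]
          rw [h4] at h3
          rw [h3]
          rfl
      | zero => exact ⟨0, Submodule.zero_mem _, fun P => rfl⟩
      | add x y _ _ hx hy =>
        obtain ⟨ρ₁, h1, h2⟩ := hx
        obtain ⟨ρ₂, h3, h4⟩ := hy
        refine ⟨ρ₁ + ρ₂, Submodule.add_mem _ h1 h3, fun P => ?_⟩
        rw [Finsupp.add_apply, Finsupp.add_apply, h2, h4]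
      | smul r x _ hx =>
        obtain ⟨ρ₁, h1, h2⟩ := hx
        refine ⟨r • ρ₁, Submodule.smul_mem _ r h1, fun P => ?_⟩
        rw [Finsupp.smul_apply, Finsupp.smul_apply, h2]
    obtain ⟨ρ, hρ, hρd⟩ := key d hd
    refine ⟨ρ, hρ, ?_⟩
    intro p hp
    rw [Ideal.span_singleton_le_iff_mem]
    by_contra hap
    obtain ⟨P, hP⟩ := exists_prime hloc p.1 hap
    have hPn : rdim k P = n := by
      rw [← rdim_eq hG P, hP]
      exact p.2
    have h1 := (isPull_iff hG n c d).mp hcd ⟨P, hPn⟩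
    have h2 := hρd ⟨P, hPn⟩
    have h3 : iota hG n ⟨P, hPn⟩ = p := Subtype.ext hP
    rw [h3] at h1 h2
    apply hp
    rw [Finsupp.sub_apply, ← h1, ← h2, sub_self]
  · intro d
    have hinj : Function.Injective (iota hG n) := by
      intro P P' h
      exact Subtype.ext (comap_inj hloc (congrArg Subtype.val h))
    refine ⟨Finsupp.mapDomain (iota hG n) d, (isPull_iff hG n _ d).mpr fun P => ?_⟩
    exact (Finsupp.mapDomain_apply hinj d P).symm

end CUB


end

section

/-!
# CUB, module CSU: the surjectivity statement on cycles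
-/

set_option autoImplicit false

open Polynomial

namespace CUB

namespace CSU

lemma span_range_eq {R : Type} [CommRing R] (m : ℕ) (f : Fin (m + 1) → R) :
    Ideal.span (Set.range f) = Ideal.span (f '' {j | j ∈ List.finRange (m + 1)}) := by
  congr 1
  ext x
  simp

end CSU

/-- CSU. -/
theorem t_CSU : M_CSU := by
  intro hFP hGVR hPUSH hRON hL0M hSHE hCS2 k R R' E _ _ _ _ _ _ _ m n f ψ hψ h hker hz ζ
  have hft : Algebra.FiniteType k R' := Algebra.FiniteType.of_surjective ψ hψ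
  obtain ⟨z, y, ξ, hy, hζ⟩ := hCS2 k E m n (List.finRange (m + 1)) R R' f ψ hψ
    (hker.trans (CSU.span_range_eq m f)) ζ
  have hyr : y ∈ rat k (VR R f) E (n + (m + 1)) := by
    have h1 := hFP k R (VR R f) E (m + 1) n (VRbase f) (hGVR k R (m + 1) f) ⊥ z y hy (hz z)
    rw [Ideal.map_bot] at h1
    exact h1
  obtain ⟨-, -, hc, -, -, hp0, hp1⟩ := hSHE k R R' E (m + 1) f ψ hψ h (fun j => h j) (n + (m + 1))
  obtain ⟨ξ₀, ξ₁, hξ⟩ := hc ξ
  obtain ⟨z₀, d₀, hd₀, he₀⟩ := (hL0M k R' E (m + 1)).1 n ξ₀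
  obtain ⟨z₁, d₁, hd₁, he₁⟩ := (hL0M k R' E (m + 1)).1 n ξ₁
  refine ⟨z₀, z₁, d₀, d₁, hd₀, hd₁, ?_⟩
  have key : ∀ (ε : Bool) (c : RP k (MvPolynomial (Fin (m + 1)) R') (n + (m + 1)) →₀ E),
      c ∈ rat k (MvPolynomial (Fin (m + 1)) R') E (n + (m + 1)) →
      push E (sheet ψ f h ε) (sheet_surjective ψ hψ f h ε) c ∈
        rat k (VR R f) E (n + (m + 1)) := by
    intro ε c hc
    have h1 := (hPUSH k (VR R f) (MvPolynomial (Fin (m + 1)) R') E (sheet ψ f h ε)
      (sheet_surjective ψ hψ f h ε) (n + (m + 1))).2.2.1 c hc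
    exact hRON k (VR R f) E (n + (m + 1)) ⊥ _ bot_le h1
  have h0 := key false _ he₀
  have h1 := key true _ he₁
  rw [map_sub] at h0 h1
  have h2 : push E (VRmap ψ f) (VRmap_surjective ψ hψ f) ξ =
      push E (sheet ψ f h false) (sheet_surjective ψ hψ f h false) ξ₀ +
      push E (sheet ψ f h true) (sheet_surjective ψ hψ f h true) ξ₁ := by
    rw [hξ, map_add]
    exact congrArg₂ (· + ·) (hp0 ξ₀) (hp1 ξ₁)
  rw [h2] at hζ
  have h3 := Submodule.add_mem _ (Submodule.add_mem _ hζ hyr) (Submodule.add_mem _ h0 h1)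
  convert h3 using 1
  abel

end CUB


end

section

/-!
# CUB: the main formula (TDF)
-/

set_option autoImplicit false

open Polynomial

namespace CUB

namespace TDF

section Basic

variable {k : Type} [Field k] {R K : Type} [CommRing R] [Algebra k R]

variable (k R) in
/-- evaluation at zero -/
noncomputable def ev0 : R[X] →ₐ[k] R := evs (AlgHom.id k R) 0

lemma ev0_toRingHom : (ev0 k R).toRingHom = evalRingHom (0 : R) := rfl

lemma ev0_surj : Function.Surjective (ev0 k R) := fun r => ⟨C r, evs_C _ _ _⟩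

lemma rdim0 (p : PrimeSpectrum R) :
    rdim k (PrimeSpectrum.comap (evalRingHom (0 : R)) p) = rdim k p :=
  rdim_comap (ev0 k R) ev0_surj p

/-- the prime `(p, X)` -/
noncomputable def up {n : ℕ} (p : RP k R n) : RP k R[X] n :=
  ⟨PrimeSpectrum.comap (evalRingHom (0 : R)) p.1, (rdim0 p.1).trans p.2⟩

lemma mem_up {n : ℕ} (p : RP k R n) (g : R[X]) : g ∈ (up p).1.asIdeal ↔ g.eval 0 ∈ p.1.asIdeal :=
  Iff.rfl

lemma X_mem_up {n : ℕ} (p : RP k R n) : (X : R[X]) ∈ (up p).1.asIdeal := by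
  rw [mem_up, eval_X]
  exact zero_mem _

lemma up_le {n m : ℕ} (p : RP k R n) (p' : RP k R m) (h : (up p).1.asIdeal ≤ (up p').1.asIdeal) :
    p.1.asIdeal ≤ p'.1.asIdeal := by
  intro r hr
  have h1 : C r ∈ (up p).1.asIdeal := by
    rw [mem_up, eval_C]
    exact hr
  have h2 := h h1
  rw [mem_up, eval_C] at h2
  exact h2

lemma le_up {n m : ℕ} (p : RP k R n) (p' : RP k R m) (h : p.1.asIdeal ≤ p'.1.asIdeal) :
    (up p).1.asIdeal ≤ (up p').1.asIdeal := fun _ hg => h hg

/-- the length with a constant -/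
lemma len_up (hL : S_LENA) {n m : ℕ} (T : RP k R m) (p : RP k R n) (b : R) :
    len ((up T).1.asIdeal ⊔ Ideal.span {C b}) (up p).1 = len (T.1.asIdeal ⊔ Ideal.span {b}) p.1 := by
  rw [← hL R[X] R (evalRingHom (0 : R)) (fun r => ⟨C r, by simp⟩) (T.1.asIdeal ⊔ Ideal.span {b}) p.1]
  have h1 : (T.1.asIdeal ⊔ Ideal.span {b}).comap (evalRingHom (0 : R)) =
      (up T).1.asIdeal ⊔ Ideal.span {C b} := by
    apply le_antisymm
    · intro g hg
      rw [Ideal.mem_comap, Submodule.mem_sup] at hg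
      obtain ⟨t, ht, y, hy, hty⟩ := hg
      obtain ⟨r, rfl⟩ := Ideal.mem_span_singleton'.1 hy
      rw [Submodule.mem_sup]
      refine ⟨g - C (r * b), ?_, C (r * b), ?_, by ring⟩
      · rw [mem_up, eval_sub, eval_C]
        have h2 : eval 0 g = t + r * b := hty.symm
        rw [h2, add_sub_cancel_right]
        exact ht
      · rw [C_mul]
        exact Ideal.mul_mem_left _ _ (Ideal.mem_span_singleton_self _)
    · apply sup_le
      · intro g hg
        exact Ideal.mem_comap.2 (Ideal.mem_sup_left hg)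
      · rw [Ideal.span_le, Set.singleton_subset_iff]
        rw [SetLike.mem_coe, Ideal.mem_comap]
        have h2 : evalRingHom (0 : R) (C b) = b := eval_C
        rw [h2]
        exact Ideal.mem_sup_right (Ideal.mem_span_singleton_self _)
  rw [h1]
  rfl

end Basic

section Eval

variable {k : Type} [Field k] {R K : Type} [CommRing R] [Algebra k R] [Field K] [Algebra k K]

lemma evs_reflect (θ : R →ₐ[k] K) {s : K} (hs : s ≠ 0) (N : ℕ) (g : R[X]) (hg : g.natDegree ≤ N) :
    evs θ s⁻¹ (reflect N g) = s⁻¹ ^ N * evs θ s g := by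
  have : Invertible s := invertibleOfNonzero hs
  have h1 := eval₂_reflect_mul_pow θ.toRingHom s N g hg
  rw [invOf_eq_inv] at h1
  rw [evs_apply, evs_apply, ← h1, inv_pow]
  field_simp

lemma evs_mem (θ : R →ₐ[k] K) (O : ValuationSubring K) (h : ∀ r, θ r ∈ O) {u : K} (hu : u ∈ O)
    (g : R[X]) : evs θ u g ∈ O := by
  induction g using Polynomial.induction_on' with
  | add p q hp hq => rw [map_add]; exact O.add_mem _ _ hp hq
  | monomial n a =>
    rw [← C_mul_X_pow_eq_monomial, map_mul, map_pow, evs_C, evs_X]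
    exact O.mul_mem _ _ (h a) (pow_mem hu n)

/-- a nonunit has residue zero -/
lemma res_zero (O : ValuationSubring K) {u : K} (hu : u ∈ O) (hn : u⁻¹ ∉ O) :
    IsLocalRing.residue O ⟨u, hu⟩ = 0 := by
  rw [IsLocalRing.residue_eq_zero_iff, IsLocalRing.mem_maximalIdeal, mem_nonunits_iff]
  intro h
  obtain ⟨v, hv⟩ := h.exists_right_inv
  apply hn
  have h1 : u * (v : K) = 1 := congrArg Subtype.val hv
  rw [inv_eq_of_mul_eq_one_right h1]
  exact v.2

lemma not_res_zero (O : ValuationSubring K) {u : K} (hu : u ∈ O)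
    (hr : IsLocalRing.residue O ⟨u, hu⟩ = 0) (h0 : u ≠ 0) : u⁻¹ ∉ O := by
  rw [IsLocalRing.residue_eq_zero_iff, IsLocalRing.mem_maximalIdeal, mem_nonunits_iff] at hr
  intro h
  apply hr
  exact IsUnit.of_mul_eq_one (⟨u⁻¹, h⟩ : O) (Subtype.ext (mul_inv_cancel₀ h0))

lemma rho_apply (θ : R →ₐ[k] K) (O : ValuationSubring K) (h : ∀ r, θ r ∈ O) (r : R) :
    rhoO θ O h r = IsLocalRing.residue O ⟨θ r, h r⟩ := rfl

/-- the residue of the value of a polynomial -/
lemma rho_evs (θ : R →ₐ[k] K) (O : ValuationSubring K) (h : ∀ r, θ r ∈ O) {u : K}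
    (h' : ∀ g, evs θ u g ∈ O) (hu : u ∈ O) (hn : IsLocalRing.residue O ⟨u, hu⟩ = 0) (g : R[X]) :
    rhoO (evs θ u) O h' g = rhoO θ O h (g.eval 0) := by
  have h1 : rhoO (evs θ u) O h' X = 0 := by
    rw [rho_apply]
    have h2 : (⟨evs θ u X, h' X⟩ : O) = ⟨u, hu⟩ := Subtype.ext (evs_X θ u)
    rw [h2, hn]
  have h3 : ∀ r : R, rhoO (evs θ u) O h' (C r) = rhoO θ O h r := by
    intro r
    rw [rho_apply, rho_apply]
    congr 1
    exact Subtype.ext (evs_C θ u r)
  have h4 : g = divX g * X + C (g.coeff 0) := (divX_mul_X_add g).symm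
  conv_lhs => rw [h4]
  rw [map_add, map_mul, h1, mul_zero, zero_add, h3, coeff_zero_eq_eval_zero]

end Eval

section Data

variable {k : Type} [Field k] {R K : Type} [CommRing R] [Algebra k R] [Field K] [Algebra k K]

lemma ker_evs (θ : R →ₐ[k] K) (O : ValuationSubring K) (h : ∀ r, θ r ∈ O) {u : K}
    (h' : ∀ g, evs θ u g ∈ O) (hu : u ∈ O) (hn : IsLocalRing.residue O ⟨u, hu⟩ = 0) {m : ℕ}
    (T : RP k R m) (hT : T.1.asIdeal = RingHom.ker (rhoO θ O h)) :
    (up T).1.asIdeal = RingHom.ker (rhoO (evs θ u) O h') := by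
  ext g
  rw [mem_up, hT, RingHom.mem_ker, RingHom.mem_ker, rho_evs θ O h h' hu hn]

lemma vv_data {n : ℕ} (θ : R →ₐ[k] K) {s : K} {O : ValuationSubring K}
    (hO : O ∈ VV n θ s) : ∃ (h : ∀ r, θ r ∈ O) (h' : ∀ g, evs θ s⁻¹ g ∈ O) (hu : s⁻¹ ∈ O)
    (T : RP k R (n + 1)), IsLocalRing.residue O ⟨s⁻¹, hu⟩ = 0 ∧
    T.1.asIdeal = RingHom.ker (rhoO θ O h) ∧
    (up T).1.asIdeal = RingHom.ker (rhoO (evs θ s⁻¹) O h') := by
  obtain ⟨hsO, h, T, hT⟩ := hO
  have hu : s⁻¹ ∈ O := (O.mem_or_inv_mem s).resolve_left hsO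
  have h' : ∀ g, evs θ s⁻¹ g ∈ O := evs_mem θ O h hu
  have hres : IsLocalRing.residue O ⟨s⁻¹, hu⟩ = 0 := res_zero O hu (by rw [inv_inv]; exact hsO)
  exact ⟨h, h', hu, T, hres, hT, ker_evs θ O h h' hu hres T hT⟩

lemma vv_of {n : ℕ} (θ : R →ₐ[k] K) {s : K} (hs : s ≠ 0) {O : ValuationSubring K}
    (h' : ∀ g, evs θ s⁻¹ g ∈ O) (z : RP k R[X] (n + 1))
    (hz : z.1.asIdeal = RingHom.ker (rhoO (evs θ s⁻¹) O h')) (hX : X ∈ z.1.asIdeal) :
    O ∈ VV n θ s := by
  have hu : s⁻¹ ∈ O := by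
    have := h' X
    rwa [evs_X] at this
  have hres : IsLocalRing.residue O ⟨s⁻¹, hu⟩ = 0 := by
    rw [hz, RingHom.mem_ker, rho_apply] at hX
    have h2 : (⟨evs θ s⁻¹ X, h' X⟩ : O) = ⟨s⁻¹, hu⟩ := Subtype.ext (evs_X θ s⁻¹)
    rwa [h2] at hX
  have hsO : s ∉ O := by
    have := not_res_zero O hu hres (inv_ne_zero hs)
    rwa [inv_inv] at this
  have h : ∀ r, θ r ∈ O := by
    intro r
    have := h' (C r)
    rwa [evs_C] at this
  let T0 : PrimeSpectrum R := ⟨RingHom.ker (rhoO θ O h), RingHom.ker_isPrime _⟩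
  have hT0 : PrimeSpectrum.comap (evalRingHom (0 : R)) T0 = z.1 := by
    apply PrimeSpectrum.ext
    ext g
    rw [hz, RingHom.mem_ker, rho_evs θ O h h' hu hres]
    exact Iff.rfl
  have hd : rdim k T0 = ((n + 1 : ℕ) : Cardinal) := by
    rw [← rdim0 T0, hT0]
    exact z.2
  exact ⟨hsO, h, ⟨T0, hd⟩, rfl⟩

/-- the tame symbol after multiplication of `a` by a power of `u` -/
lemma tame_pow {O : ValuationSubring K} {a u w : K} (hu : u ≠ 0) (N : ℕ) (h : IsTame O a u w) :
    IsTame O (u ^ N * a) u w := by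
  obtain ⟨π, α, β, i, j, hπ, hα, hβ, ha, hb, hw⟩ := h
  have hπ0 : π ≠ 0 := hπ.2.1
  refine ⟨π, β ^ N * α, β, i + N * j, j, hπ, ?_, hβ, ?_, hb, ?_⟩
  · refine ⟨mul_ne_zero (pow_ne_zero _ hβ.1) hα.1, O.mul_mem _ _ (pow_mem hβ.2.1 N) hα.2.1, ?_⟩
    rw [mul_inv, ← inv_pow]
    exact O.mul_mem _ _ (pow_mem hβ.2.2 N) hα.2.2
  · rw [ha, hb, mul_pow, ← zpow_natCast (π ^ j), ← zpow_mul, zpow_add₀ hπ0, mul_comm (N : ℤ) j]
    ring
  · rw [hw, mul_zpow, ← zpow_natCast, ← zpow_mul, mul_comm (u ^ ((N : ℤ) * j)) (a ^ j), mul_assoc,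
      ← zpow_add₀ hu]
    congr 2
    ring

lemma nm_congr {L : Type} [Field L] {R' : Type} [CommRing R'] (ρ : R →+* L) (ρ' : R' →+* L)
    (x : L) (b c : R) (b' c' : R') (hr : Set.range ρ' = Set.range ρ) (hb : ρ' b' = ρ b)
    (hc : ρ' c' = ρ c) (h : IsNm ρ x b c) : IsNm ρ' x b' c' := by
  obtain ⟨h1, h2, h3⟩ := h
  refine ⟨by rwa [hb], by rwa [hc], ?_⟩
  rw [hb, hc, hr]
  exact h3

end Data

section Fin

/-- The length at a prime of the quotient by the unit ideal is zero. -/
lemma len_top {A : Type} [CommRing A] (p : PrimeSpectrum A) : len (⊤ : Ideal A) p = 0 := by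
  unfold len
  rw [Ideal.map_top]
  have h : Subsingleton (Localization.AtPrime p.asIdeal ⧸
      (⊤ : Ideal (Localization.AtPrime p.asIdeal))) := by
    infer_instance
  rw [Module.length_eq_zero]
  rfl

lemma infI_mono {R : Type} [CommRing R] {I J : Ideal R[X]} (h : I ≤ J) : infI I ≤ infI J :=
  Ideal.comap_mono (Ideal.map_mono h)

lemma div_fin (hDVX : S_DVX) (k A : Type) [Field k] [CommRing A] [Algebra k A]
    [Algebra.FiniteType k A] (n : ℕ) (q : RP k A (n + 1)) (a : A) (ha : a ∉ q.1.asIdeal) :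
    ∃ F : Finset (RP k A n), ∀ z : RP k A n, len (q.1.asIdeal ⊔ Ideal.span {a}) z.1 ≠ 0 →
      z ∈ F := by
  obtain ⟨c, hc⟩ := hDVX k A ℚ n q a ha
  refine ⟨c.support, fun z hz => ?_⟩
  rw [Finsupp.mem_support_iff, hc z]
  exact_mod_cast hz

lemma ex_inf (hINFA : S_INFA) (hINFD : S_INFD) (k R : Type) [Field k] [CommRing R] [Algebra k R]
    [Algebra.FiniteType k R] (m : ℕ) (z : RP k R[X] m) (hX : X ∉ z.1.asIdeal) :
    ∃ z' : RP k R[X] m, z'.1.asIdeal = infI z.1.asIdeal ∧ X ∉ z'.1.asIdeal ∧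
      infI z'.1.asIdeal = z.1.asIdeal := by
  obtain ⟨hi, hXi, hii⟩ := hINFA.2.2.1 R z.1.asIdeal z.1.isPrime hX
  have h1 : rdim k (⟨infI z.1.asIdeal, hi⟩ : PrimeSpectrum R[X]) = (m : Cardinal) :=
    (hINFD k R z.1.asIdeal z.1.isPrime hi hX).trans z.2
  exact ⟨⟨⟨infI z.1.asIdeal, hi⟩, h1⟩, rfl, hXi, hii⟩

lemma vv_finite (hLENC : S_LENC) (hDVX : S_DVX) (hGTD : S_GTD) (k R K : Type) [Field k]
    [PerfectField k] [CommRing R] [Algebra k R] [Algebra.FiniteType k R] [Field K] [Algebra k K]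
    (n : ℕ) (θ : R →ₐ[k] K) (s : K)
    (hf : ∀ x : K, ∃ A B : R[X], evs θ s⁻¹ B ≠ 0 ∧ x * evs θ s⁻¹ B = evs θ s⁻¹ A)
    (q' : RP k R[X] (n + 1 + 1)) (hq' : q'.1.asIdeal = RingHom.ker (evs θ s⁻¹).toRingHom)
    (hX : X ∉ q'.1.asIdeal) : (VV n θ s).Finite := by
  have : Algebra.FiniteType k R[X] := Algebra.FiniteType.trans (S := R) inferInstance inferInstance
  obtain ⟨F, hF⟩ := div_fin hDVX k R[X] (n + 1) q' X hX
  refine Set.Finite.subset (Set.Finite.biUnion F.finite_toSet
    (fun z _ => (hGTD k R[X] K n (evs θ s⁻¹) q' z hf hq').1)) ?_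
  intro O hO
  obtain ⟨h, h', hu, T, hres, hT, hT'⟩ := vv_data θ hO
  rw [Set.mem_iUnion₂]
  refine ⟨up T, ?_, h', hT'⟩
  apply hF
  apply (hLENC k R[X] (n + 1) q' (up T)).2.2.1 X hX
  · intro g hg
    rw [hq', RingHom.mem_ker] at hg
    rw [hT', RingHom.mem_ker, rho_apply]
    have h2 : (⟨evs θ s⁻¹ g, h' g⟩ : O) = 0 := Subtype.ext hg
    rw [h2, map_zero]
  · exact X_mem_up T

end Fin

end TDF

/-- The main formula. -/
theorem t_TDF : M_TDF := by
  intro _ hLENA hLENC hDVX hINFA hINFD hINFL hGREC hGTD k R K E _ _ _ _ _ _ _ _ n θ s P q c d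
    hs hfr hq hP hc hd
  classical
  have hFT : Algebra.FiniteType k R[X] := Algebra.FiniteType.trans (S := R) inferInstance inferInstance
  have hNR : IsNoetherianRing R := Algebra.FiniteType.isNoetherianRing k R
  -- the chart at infinity
  have hXq : X ∉ q.1.asIdeal := by
    rw [hq, RingHom.mem_ker]
    have h1 : (evs θ s).toRingHom X = s := evs_X θ s
    rw [h1]
    exact hs
  obtain ⟨q', hq'1, hXq', hq'2⟩ := TDF.ex_inf hINFA hINFD k R (n + 1 + 1) q hXq
  have hq'k : q'.1.asIdeal = RingHom.ker (evs θ s⁻¹).toRingHom := by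
    rw [hq'1, hq]
    exact hINFA.2.2.2.2 R K θ.toRingHom s hs
  have hfr' : ∀ x : K, ∃ A B : R[X], evs θ s⁻¹ B ≠ 0 ∧ x * evs θ s⁻¹ B = evs θ s⁻¹ A := by
    intro x
    obtain ⟨A, B, hB, hAB⟩ := hfr x
    set N := max A.natDegree B.natDegree
    refine ⟨reflect N A, reflect N B, ?_, ?_⟩
    · rw [TDF.evs_reflect θ hs N B (le_max_right _ _)]
      exact mul_ne_zero (pow_ne_zero _ (inv_ne_zero hs)) hB
    · rw [TDF.evs_reflect θ hs N B (le_max_right _ _), TDF.evs_reflect θ hs N A (le_max_left _ _),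
        ← hAB]
      ring
  have hfin := TDF.vv_finite hLENC hDVX hGTD k R K n θ s hfr' q' hq'k hXq'
  refine ⟨hfin, fun D hD => ?_⟩
  set N := P.natDegree with hN
  set P' := reflect N P with hP'
  have hPe : evs θ s P ≠ 0 := by
    intro h0
    apply hP
    rw [hq, RingHom.mem_ker]
    exact h0
  have hP'e : evs θ s⁻¹ P' = s⁻¹ ^ N * evs θ s P := TDF.evs_reflect θ hs N P le_rfl
  have hP'q : P' ∉ q'.1.asIdeal := by
    rw [hq'k, RingHom.mem_ker]
    intro h0
    have h1 : evs θ s⁻¹ P' = 0 := h0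
    rw [hP'e] at h1
    exact mul_ne_zero (pow_ne_zero _ (inv_ne_zero hs)) hPe h1
  have hex : ∀ z : RP k R[X] (n + 1), ∃ z' : RP k R[X] (n + 1), X ∉ z.1.asIdeal →
      z'.1.asIdeal = infI z.1.asIdeal ∧ X ∉ z'.1.asIdeal ∧ infI z'.1.asIdeal = z.1.asIdeal := by
    intro z
    by_cases hXz : X ∈ z.1.asIdeal
    · exact ⟨z, fun h => absurd hXz h⟩
    · obtain ⟨z', hz'⟩ := TDF.ex_inf hINFA hINFD k R (n + 1) z hXz
      exact ⟨z', fun _ => hz'⟩
  choose ι hι using hex
  obtain ⟨Z0, hZ0⟩ := TDF.div_fin hDVX k R[X] (n + 1) q P hP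
  apply Finsupp.ext
  intro p
  rw [Finsupp.finsetSum_apply]
  -- the data at the valuation rings
  have hdat : ∀ O ∈ VV n θ s, ∃ g : ℤ, (g : E) = D O p ∧
      (∀ h' : ∀ f, evs θ s⁻¹ f ∈ O, ∃ (w : O) (b c : R[X]),
        IsTame O (evs θ s⁻¹ P') (evs θ s⁻¹ X) (w : K) ∧
        IsNm (rhoO (evs θ s⁻¹) O h') (IsLocalRing.residue O w) b c ∧
        g = (len (RingHom.ker (rhoO (evs θ s⁻¹) O h') ⊔ Ideal.span {b}) (TDF.up p).1 : ℤ) -
          len (RingHom.ker (rhoO (evs θ s⁻¹) O h') ⊔ Ideal.span {c}) (TDF.up p).1) ∧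
      ((¬ ∃ (h' : ∀ f, evs θ s⁻¹ f ∈ O) (z : RP k R[X] (n + 1)),
        z.1.asIdeal = RingHom.ker (rhoO (evs θ s⁻¹) O h') ∧ X ∈ z.1.asIdeal ∧
        z.1.asIdeal ≤ (TDF.up p).1.asIdeal) → g = 0) := by
    intro O hO
    obtain ⟨h, h'0, hu, T0, hres, hT0, hT0'⟩ := TDF.vv_data θ hO
    obtain ⟨h1, T, w, b, c', db, dc, hT, htame, hnm, hdb, hdc, hDO⟩ := hD O hO
    have hT' := TDF.ker_evs θ O h1 h'0 hu hres T hT
    refine ⟨(len (T.1.asIdeal ⊔ Ideal.span {b}) p.1 : ℤ) - len (T.1.asIdeal ⊔ Ideal.span {c'}) p.1,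
      ?_, ?_, ?_⟩
    · rw [hDO, Finsupp.sub_apply, hdb p, hdc p]
      push_cast
      rfl
    · intro h'
      refine ⟨w, C b, C c', ?_, ?_, ?_⟩
      · rw [evs_X, hP'e]
        exact TDF.tame_pow (inv_ne_zero hs) N htame
      · apply TDF.nm_congr _ _ _ _ _ _ _ _ _ _ hnm
        · ext y
          constructor
          · rintro ⟨g, rfl⟩
            exact ⟨g.eval 0, (TDF.rho_evs θ O h1 h' hu hres g).symm⟩
          · rintro ⟨r, rfl⟩
            refine ⟨C r, ?_⟩
            rw [TDF.rho_evs θ O h1 h' hu hres, eval_C]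
        · rw [TDF.rho_evs θ O h1 h' hu hres, eval_C]
        · rw [TDF.rho_evs θ O h1 h' hu hres, eval_C]
      · rw [← hT', TDF.len_up hLENA, TDF.len_up hLENA]
    · intro hno
      have h2 : ¬ T.1.asIdeal ≤ p.1.asIdeal := by
        intro hle
        exact hno ⟨h'0, TDF.up T, hT', TDF.X_mem_up T, TDF.le_up T p hle⟩
      have h3 : ∀ a : R, len (T.1.asIdeal ⊔ Ideal.span {a}) p.1 = 0 := by
        intro a
        by_contra h4
        exact h2 ((hLENC k R n T p).2.1 a h4).1
      rw [h3, h3]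
      simp
  choose! g hg1 hg2 hg3 using hdat
  -- the finite sets
  set Z1 : Finset (RP k R[X] (n + 1)) :=
    Z0.filter (fun z => X ∉ z.1.asIdeal ∧ q.1.asIdeal ≤ z.1.asIdeal) with hZ1
  set Z : Finset (RP k R[X] (n + 1)) := Z1.image ι with hZ
  set W : Finset (ValuationSubring K) := hfin.toFinset.filter (fun O =>
    ∃ (h' : ∀ f, evs θ s⁻¹ f ∈ O) (z : RP k R[X] (n + 1)),
        z.1.asIdeal = RingHom.ker (rhoO (evs θ s⁻¹) O h') ∧ X ∈ z.1.asIdeal ∧
        z.1.asIdeal ≤ (TDF.up p).1.asIdeal) with hW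
  have hlen : ∀ z : RP k R[X] (n + 1), X ∉ z.1.asIdeal → q.1.asIdeal ≤ z.1.asIdeal →
      len (q.1.asIdeal ⊔ Ideal.span {P}) z.1 = len (q'.1.asIdeal ⊔ Ideal.span {P'}) (ι z).1 := by
    intro z hXz hqz
    obtain ⟨hi, -, -⟩ := hINFA.2.2.1 R z.1.asIdeal z.1.isPrime hXz
    have h1 := hINFL R q.1.asIdeal z.1.asIdeal z.1.isPrime hi P N hqz hXz le_rfl
    have h2 : (ι z).1 = ⟨infI z.1.asIdeal, hi⟩ := PrimeSpectrum.ext (hι z hXz).1
    rw [h2, hq'1]
    exact h1
  have hιι : ∀ z : RP k R[X] (n + 1), X ∉ z.1.asIdeal → ι (ι z) = z := by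
    intro z hXz
    obtain ⟨h1, h2, h3⟩ := hι z hXz
    apply Subtype.ext
    apply PrimeSpectrum.ext
    rw [(hι (ι z) h2).1, h3]
  have hmain := hGREC k R[X] K n (evs θ s⁻¹) q' (TDF.up p) X P' hfr' hq'k (TDF.X_mem_up p) hXq' hP'q
    Z W g ?_ ?_ ?_ ?_
  · -- conclusion
    have hsumO : ∑ O ∈ hfin.toFinset, D O p = ((∑ O ∈ W, g O : ℤ) : E) := by
      rw [Int.cast_sum, hW, Finset.sum_filter]
      refine Finset.sum_congr rfl fun O hO => ?_
      have hOV : O ∈ VV n θ s := hfin.mem_toFinset.1 hO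
      rw [← hg1 O hOV]
      split_ifs with hcnd
      · rfl
      · rw [hg3 O hOV hcnd]
        simp
    rw [hsumO, ← hmain, hd p]
    have hsupp : c.support ⊆ Z0 := by
      intro z hz
      apply hZ0
      intro h0
      rw [Finsupp.mem_support_iff, hc z, h0] at hz
      exact hz (by simp)
    rw [Finsupp.sum_of_support_subset c hsupp _ (fun z _ => by rw [zero_mul])]
    have h1 : ∑ z ∈ Z0, c z * (bet z.1.asIdeal p.1 : E) =
        ∑ z ∈ Z1, c z * (bet z.1.asIdeal p.1 : E) := by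
      rw [hZ1]
      refine (Finset.sum_filter_of_ne ?_).symm
      intro z _ hne
      constructor
      · intro hXz
        apply hne
        have h2 : bet z.1.asIdeal p.1 = 0 := by
          unfold bet
          rw [hINFA.2.1 R z.1.asIdeal hXz, top_sup_eq]
          exact TDF.len_top _
        rw [h2]
        simp
      · by_contra hqz
        apply hne
        have h2 : len (q.1.asIdeal ⊔ Ideal.span {P}) z.1 = 0 := by
          by_contra h3
          exact hqz ((hLENC k R[X] (n + 1) q z).2.1 P h3).1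
        rw [hc z, h2]
        simp
    rw [h1, hZ, Finset.sum_image, Int.cast_sum]
    · refine Finset.sum_congr rfl fun z hz => ?_
      rw [hZ1, Finset.mem_filter] at hz
      obtain ⟨-, hXz, hqz⟩ := hz
      rw [← hlen z hXz hqz, hc z]
      have h2 : bet z.1.asIdeal p.1 = len ((ι z).1.asIdeal ⊔ Ideal.span {X}) (TDF.up p).1 := by
        rw [(hι z hXz).1]
        rfl
      rw [h2]
      push_cast
      rfl
    · intro z hz z' hz' hzz
      have h2 : X ∉ z.1.asIdeal := by
        have := Finset.mem_coe.1 hz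
        rw [hZ1, Finset.mem_filter] at this
        exact this.2.1
      have h3 : X ∉ z'.1.asIdeal := by
        have := Finset.mem_coe.1 hz'
        rw [hZ1, Finset.mem_filter] at this
        exact this.2.1
      rw [← hιι z h2, ← hιι z' h3, hzz]
  · -- `X` is not in the elements of `Z`
    intro z hz
    rw [hZ, Finset.mem_image] at hz
    obtain ⟨z0, hz0, rfl⟩ := hz
    rw [hZ1, Finset.mem_filter] at hz0
    exact (hι z0 hz0.2.1).2.1
  · intro z hPz hqz _ hXz
    obtain ⟨h1, h2, h3⟩ := hι z hXz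
    rw [hZ, Finset.mem_image]
    have h4 : q.1.asIdeal ≤ (ι z).1.asIdeal := by
      rw [← hq'2, h1]
      exact TDF.infI_mono hqz
    refine ⟨ι z, ?_, hιι z hXz⟩
    rw [hZ1, Finset.mem_filter]
    refine ⟨?_, h2, h4⟩
    apply hZ0
    rw [hlen (ι z) h2 h4, hιι z hXz]
    exact (hLENC k R[X] (n + 1) q' z).2.2.1 P' hP'q hqz hPz
  · intro O
    rw [hW, Finset.mem_filter]
    constructor
    · exact fun h => h.2
    · intro hcnd
      refine ⟨?_, hcnd⟩
      obtain ⟨h', z, hz, hXz, -⟩ := hcnd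
      exact hfin.mem_toFinset.2 (TDF.vv_of θ hs h' z hz hXz)
  · intro O hO h'
    rw [hW, Finset.mem_filter] at hO
    exact hg2 O (hfin.mem_toFinset.1 hO.1) h'

end CUB


end

section

set_option autoImplicit false

open Polynomial

namespace QCV

open CUB

namespace ELI

variable {R : Type} [CommRing R]

/-- Substitution of polynomials of degree at most one does not raise the degree. -/
lemma totalDegree_aeval_le {m n : ℕ} (g : Fin m → MvPolynomial (Fin n) R)
    (hg : ∀ i, (g i).totalDegree ≤ 1) (p : MvPolynomial (Fin m) R) :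
    (MvPolynomial.aeval g p).totalDegree ≤ p.totalDegree := by
  have h0 : MvPolynomial.aeval g p =
      ∑ d ∈ p.support, MvPolynomial.C (MvPolynomial.coeff d p) * ∏ i, g i ^ d i := by
    rw [MvPolynomial.aeval_def, MvPolynomial.eval₂_eq']
    rfl
  rw [h0]
  refine MvPolynomial.totalDegree_finsetSum_le fun d hd => ?_
  refine (MvPolynomial.totalDegree_mul _ _).trans ?_
  rw [MvPolynomial.totalDegree_C, zero_add]
  refine (MvPolynomial.totalDegree_finsetProd _ _).trans ?_
  have h1 : ∀ i ∈ (Finset.univ : Finset (Fin m)), (g i ^ d i).totalDegree ≤ d i := by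
    intro i _
    refine (MvPolynomial.totalDegree_pow _ _).trans ?_
    calc d i * (g i).totalDegree ≤ d i * 1 := Nat.mul_le_mul_left _ (hg i)
      _ = d i := mul_one _
  refine (Finset.sum_le_sum h1).trans ?_
  have h2 := MvPolynomial.le_totalDegree hd
  rwa [Finsupp.sum_fintype _ _ (fun _ => rfl)] at h2

/-- A polynomial of degree at most one is affine linear. -/
lemma deg_one {n : ℕ} (p : MvPolynomial (Fin n) R) (hp : p.totalDegree ≤ 1) :
    p = MvPolynomial.C (MvPolynomial.coeff 0 p) +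
      ∑ i, MvPolynomial.C (MvPolynomial.coeff (Finsupp.single i 1) p) * MvPolynomial.X i := by
  classical
  ext d
  rw [MvPolynomial.coeff_add, MvPolynomial.coeff_C, MvPolynomial.coeff_sum]
  simp_rw [MvPolynomial.coeff_C_mul, MvPolynomial.coeff_X]
  by_cases h0 : d = 0
  · subst h0
    rw [if_pos rfl, Finset.sum_eq_zero, add_zero]
    intro i _
    rw [if_neg, mul_zero]
    exact Finsupp.single_ne_zero.2 one_ne_zero
  · rw [if_neg (Ne.symm h0), zero_add]
    by_cases h1 : ∃ i, Finsupp.single i 1 = d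
    · obtain ⟨i, rfl⟩ := h1
      rw [Finset.sum_eq_single i, if_pos rfl, mul_one]
      · intro b _ hb
        rw [if_neg, mul_zero]
        intro h
        exact hb (Finsupp.single_left_injective one_ne_zero h)
      · intro h
        exact absurd (Finset.mem_univ i) h
    · rw [Finset.sum_eq_zero]
      · apply MvPolynomial.coeff_eq_zero_of_totalDegree_lt
        refine lt_of_le_of_lt hp ?_
        rw [← Finsupp.degree_apply]
        have h2 : d.degree ≠ 0 := by
          rw [Ne, Finsupp.degree_eq_zero_iff]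
          exact h0
        have h3 : d.degree ≠ 1 := by
          intro h
          have : d ∈ Set.range (fun a : Fin n => Finsupp.single a 1) := by
            rw [Finsupp.range_single_one]
            exact h
          obtain ⟨i, hi⟩ := this
          exact h1 ⟨i, hi⟩
        omega
      · intro i _
        rw [if_neg, mul_zero]
        exact fun h => h1 ⟨i, h⟩

/-- Inverse isomorphisms of quotients from homomorphisms which are inverse to each other modulo
the ideals. -/
lemma equiv_of {k A B : Type} [Field k] [CommRing A] [Algebra k A] [CommRing B] [Algebra k B]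
    (I : Ideal A) (J : Ideal B) (σ : A →ₐ[k] B) (ι : B →ₐ[k] A) (h1 : I ≤ J.comap σ)
    (h2 : J ≤ I.comap ι) (h3 : ∀ b, σ (ι b) - b ∈ J) (h4 : ∀ a, ι (σ a) - a ∈ I) :
    Nonempty ((A ⧸ I) ≃ₐ[k] (B ⧸ J)) := by
  refine ⟨AlgEquiv.ofAlgHom (Ideal.quotientMapₐ J σ h1) (Ideal.quotientMapₐ I ι h2) ?_ ?_⟩
  · ext b
    obtain ⟨b, rfl⟩ := Ideal.Quotient.mk_surjective b
    exact (Ideal.Quotient.eq).2 (h3 b)
  · ext a
    obtain ⟨a, rfl⟩ := Ideal.Quotient.mk_surjective a
    exact (Ideal.Quotient.eq).2 (h4 a)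

end ELI

theorem t_ELI : S_ELI := by
  classical
  intro k R _ _ _ n f j h0 h1 hu
  obtain ⟨u, hu⟩ := hu
  rcases subsingleton_or_nontrivial R with hR | hR
  · refine ⟨fun _ => 0, by simp, ?_⟩
    refine ELI.equiv_of _ _ (IsScalarTower.toAlgHom k R (MvPolynomial (Fin n) R) |>.comp
      ((MvPolynomial.aeval (fun _ => (0 : R))).restrictScalars k)) (IsScalarTower.toAlgHom k R
      (MvPolynomial (Fin (n + 1)) R) |>.comp
      ((MvPolynomial.aeval (fun _ => (0 : R))).restrictScalars k)) ?_ ?_ ?_ ?_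
    · intro x _
      rw [Subsingleton.elim x 0]
      exact zero_mem _
    · intro x _
      rw [Subsingleton.elim x 0]
      exact zero_mem _
    · intro b
      rw [Subsingleton.elim (_ - b) 0]
      exact zero_mem _
    · intro b
      rw [Subsingleton.elim (_ - b) 0]
      exact zero_mem _
  -- the linear form in the other variables
  let l : MvPolynomial (Fin n) R := MvPolynomial.C (MvPolynomial.coeff 0 (f 0)) +
    ∑ i, MvPolynomial.C (MvPolynomial.coeff (Finsupp.single (j.succAbove i) 1) (f 0)) *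
      MvPolynomial.X i
  let v : MvPolynomial (Fin n) R := - (MvPolynomial.C ((u⁻¹ : Rˣ) : R) * l)
  let σ : MvPolynomial (Fin (n + 1)) R →ₐ[R] MvPolynomial (Fin n) R :=
    MvPolynomial.aeval (j.insertNth v MvPolynomial.X)
  let ι : MvPolynomial (Fin n) R →ₐ[R] MvPolynomial (Fin (n + 1)) R :=
    MvPolynomial.rename j.succAbove
  have hσj : σ (MvPolynomial.X j) = v := by
    change MvPolynomial.aeval _ _ = _
    rw [MvPolynomial.aeval_X, Fin.insertNth_apply_same]
  have hσi : ∀ i, σ (MvPolynomial.X (j.succAbove i)) = MvPolynomial.X i := by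
    intro i
    change MvPolynomial.aeval _ _ = _
    rw [MvPolynomial.aeval_X, Fin.insertNth_apply_succAbove]
  have hιi : ∀ i, ι (MvPolynomial.X i) = MvPolynomial.X (j.succAbove i) := fun i =>
    MvPolynomial.rename_X _ _
  have hσC : ∀ r : R, σ (MvPolynomial.C r) = MvPolynomial.C r := fun r => σ.commutes r
  have hιC : ∀ r : R, ι (MvPolynomial.C r) = MvPolynomial.C r := fun r => ι.commutes r
  have hdl : l.totalDegree ≤ 1 := by
    refine (MvPolynomial.totalDegree_add _ _).trans (max_le ?_ ?_)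
    · rw [MvPolynomial.totalDegree_C]
      exact Nat.zero_le _
    · refine MvPolynomial.totalDegree_finsetSum_le fun i _ => ?_
      refine (MvPolynomial.totalDegree_mul _ _).trans ?_
      rw [MvPolynomial.totalDegree_C, MvPolynomial.totalDegree_X]
  have hdv : v.totalDegree ≤ 1 := by
    change (- _ : MvPolynomial (Fin n) R).totalDegree ≤ 1
    rw [MvPolynomial.totalDegree_neg]
    refine (MvPolynomial.totalDegree_mul _ _).trans ?_
    rw [MvPolynomial.totalDegree_C, zero_add]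
    exact hdl
  have hdσ : ∀ i, ((j.insertNth v MvPolynomial.X : Fin (n + 1) → MvPolynomial (Fin n) R)
      i).totalDegree ≤ 1 := by
    intro i
    rcases Fin.eq_self_or_eq_succAbove j i with rfl | ⟨i, rfl⟩
    · rw [Fin.insertNth_apply_same]
      exact hdv
    · rw [Fin.insertNth_apply_succAbove, MvPolynomial.totalDegree_X]
  have hιl : ι l = MvPolynomial.C (MvPolynomial.coeff 0 (f 0)) +
      ∑ i, MvPolynomial.C (MvPolynomial.coeff (Finsupp.single (j.succAbove i) 1) (f 0)) *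
        MvPolynomial.X (j.succAbove i) := by
    change ι (_ + _) = _
    rw [map_add, hιC, map_sum]
    congr 1
    refine Finset.sum_congr rfl fun i _ => ?_
    rw [map_mul, hιC, hιi]
  have hf0 : f 0 = MvPolynomial.C (u : R) * MvPolynomial.X j + ι l := by
    conv_lhs => rw [ELI.deg_one (f 0) h0, Fin.sum_univ_succAbove _ j, ← hu]
    rw [hιl]
    ring
  have huu : MvPolynomial.C (u : R) * MvPolynomial.C ((u⁻¹ : Rˣ) : R) =
      (1 : MvPolynomial (Fin n) R) := by
    rw [← map_mul, Units.mul_inv, map_one]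
  have huu' : MvPolynomial.C ((u⁻¹ : Rˣ) : R) * MvPolynomial.C (u : R) =
      (1 : MvPolynomial (Fin (n + 1)) R) := by
    rw [← map_mul, Units.inv_mul, map_one]
  have hσι : ∀ x, σ (ι x) = x := by
    intro x
    have : σ.comp ι = AlgHom.id R _ := by
      ext i
      change MvPolynomial.coeff _ (σ (ι (MvPolynomial.X i))) = _
      rw [hιi, hσi]
      rfl
    exact DFunLike.congr_fun this x
  have hσf0 : σ (f 0) = 0 := by
    rw [hf0, map_add, map_mul, hσC, hσj, hσι]
    change MvPolynomial.C (u : R) * (- (MvPolynomial.C ((u⁻¹ : Rˣ) : R) * l)) + l = 0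
    rw [mul_neg, ← mul_assoc, huu, one_mul, neg_add_cancel]
  have hισ : ∀ x, ι (σ x) - x ∈ Ideal.span {f 0} := by
    intro x
    have : ((Ideal.Quotient.mkₐ R (Ideal.span {f 0})).comp ι).comp σ =
        Ideal.Quotient.mkₐ R (Ideal.span {f 0}) := by
      apply MvPolynomial.algHom_ext
      intro i
      change Ideal.Quotient.mk _ (ι (σ (MvPolynomial.X i))) = Ideal.Quotient.mk _ _
      rcases Fin.eq_self_or_eq_succAbove j i with rfl | ⟨i, rfl⟩
      · rw [hσj, Ideal.Quotient.eq, Ideal.mem_span_singleton']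
        refine ⟨- MvPolynomial.C ((u⁻¹ : Rˣ) : R), ?_⟩
        change _ = ι (- (MvPolynomial.C ((u⁻¹ : Rˣ) : R) * l)) - _
        rw [map_neg, map_mul, hιC, hf0, mul_add, ← mul_assoc, neg_mul, huu']
        ring
      · rw [hσi, hιi]
    rw [← Ideal.Quotient.eq]
    exact DFunLike.congr_fun this x
  refine ⟨fun _ => σ (f 1), (ELI.totalDegree_aeval_le _ hdσ (f 1)).trans h1, ?_⟩
  have hm0 : f 0 ∈ Ideal.span (Set.range f) := Ideal.subset_span ⟨0, rfl⟩
  have hm1 : f 1 ∈ Ideal.span (Set.range f) := Ideal.subset_span ⟨1, rfl⟩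
  have hle : Ideal.span {f 0} ≤ Ideal.span (Set.range f) := by
    rw [Ideal.span_singleton_le_iff_mem]
    exact hm0
  refine ELI.equiv_of _ _ (σ.restrictScalars k) (ι.restrictScalars k) ?_ ?_ ?_ ?_
  · rw [Ideal.span_le]
    rintro _ ⟨i, rfl⟩
    fin_cases i
    · change σ (f 0) ∈ Ideal.span (Set.range fun _ : Fin 1 => σ (f 1))
      rw [hσf0]
      exact zero_mem _
    · exact Ideal.subset_span ⟨0, rfl⟩
  · rw [Ideal.span_le]
    rintro _ ⟨i, rfl⟩
    change ι (σ (f 1)) ∈ Ideal.span (Set.range f)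
    have := add_mem (hle (hισ (f 1))) hm1
    rwa [sub_add_cancel] at this
  · intro b
    change σ (ι b) - b ∈ _
    rw [hσι, sub_self]
    exact zero_mem _
  · intro a
    exact hle (hισ a)

end QCV


end

section

set_option autoImplicit false

open Polynomial

namespace QCV

open CUB

namespace SUB

variable {R : Type} [CommRing R]

/-- The evaluation `x_0 ↦ α X`, `x_1 ↦ β X`, `x_j ↦ 0`. -/
noncomputable def del {n : ℕ} (α β : R) : MvPolynomial (Fin (n + 2)) R →ₐ[R] R[X] :=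
  MvPolynomial.aeval (Fin.cons (C α * X) (Fin.cons (C β * X) fun _ => 0))

lemma del_C {n : ℕ} (α β r : R) : del (n := n) α β (MvPolynomial.C r) = C r :=
  (del α β).commutes r

lemma del_X0 {n : ℕ} (α β : R) : del (n := n) α β (MvPolynomial.X 0) = C α * X := by
  rw [del, MvPolynomial.aeval_X, Fin.cons_zero]

lemma del_X1 {n : ℕ} (α β : R) : del (n := n) α β (MvPolynomial.X 1) = C β * X := by
  rw [del, MvPolynomial.aeval_X, ← Fin.succ_zero_eq_one, Fin.cons_succ, Fin.cons_zero]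

lemma del_Xs {n : ℕ} (α β : R) (i : Fin n) :
    del (n := n) α β (MvPolynomial.X i.succ.succ) = 0 := by
  rw [del, MvPolynomial.aeval_X, Fin.cons_succ, Fin.cons_succ]

lemma ext3 {n : ℕ} (d e : Fin (n + 2) →₀ ℕ) :
    d = e ↔ d 0 = e 0 ∧ d 1 = e 1 ∧ ∀ i : Fin n, d i.succ.succ = e i.succ.succ := by
  rw [Finsupp.ext_iff, Fin.forall_fin_succ, Fin.forall_fin_succ, Fin.succ_zero_eq_one]

lemma coeff_del {n : ℕ} (α β : R) (p : MvPolynomial (Fin (n + 2)) R) :
    (del α β p).coeff 2 = MvPolynomial.coeff (Finsupp.single 0 2) p * α ^ 2 +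
      MvPolynomial.coeff (Finsupp.single 0 1 + Finsupp.single 1 1) p * (α * β) +
      MvPolynomial.coeff (Finsupp.single 1 2) p * β ^ 2 := by
  classical
  induction p using MvPolynomial.induction_on' with
  | add p q hp hq =>
    rw [map_add, Polynomial.coeff_add, hp, hq, MvPolynomial.coeff_add, MvPolynomial.coeff_add,
      MvPolynomial.coeff_add]
    ring
  | monomial d r =>
    have h1 : del α β (MvPolynomial.monomial d r) =
        C (r * (α ^ d 0 * β ^ d 1)) * (X ^ (d 0 + d 1) * ∏ i : Fin n, (0 : R[X]) ^ d i.succ.succ) := by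
      have h2 : del α β (MvPolynomial.monomial d r) =
          C r * ((C α * X) ^ d 0 * ((C β * X) ^ d 1 * ∏ i : Fin n, (0 : R[X]) ^ d i.succ.succ)) := by
        rw [del, MvPolynomial.aeval_monomial, Finsupp.prod_fintype _ _ (fun _ => pow_zero _),
          Fin.prod_univ_succ, Fin.prod_univ_succ]
        rfl
      rw [h2]
      simp only [map_mul, map_pow, mul_pow, pow_add]
      ring
    rw [h1, Polynomial.coeff_C_mul]
    simp only [MvPolynomial.coeff_monomial, ext3]
    have e10 : ((1 : Fin (n + 2)) = 0) = False := by simp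
    have e01 : ((0 : Fin (n + 2)) = 1) = False := by simp
    have es0 : ∀ i : Fin n, (i.succ.succ = (0 : Fin (n + 2))) = False := fun i => by
      simp [Fin.succ_ne_zero]
    have es1 : ∀ i : Fin n, (i.succ.succ = (1 : Fin (n + 2))) = False := fun i => by
      rw [← Fin.succ_zero_eq_one, Fin.succ_inj]
      simp [Fin.succ_ne_zero]
    have es0' : ∀ i : Fin n, ((0 : Fin (n + 2)) = i.succ.succ) = False := fun i => by
      rw [eq_comm (a := (0 : Fin (n + 2)))]
      exact es0 i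
    have es1' : ∀ i : Fin n, ((1 : Fin (n + 2)) = i.succ.succ) = False := fun i => by
      rw [eq_comm (a := (1 : Fin (n + 2)))]
      exact es1 i
    simp only [Finsupp.add_apply, Finsupp.single_apply, e10, e01, es0', es1', if_true, if_false,
      add_zero, zero_add]
    by_cases hd : ∀ i : Fin n, d i.succ.succ = 0
    · have h2 : ∏ i : Fin n, (0 : R[X]) ^ d i.succ.succ = 1 :=
        Finset.prod_eq_one fun i _ => by rw [hd i, pow_zero]
      rw [h2, mul_one, Polynomial.coeff_X_pow]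
      simp only [hd, implies_true, and_true]
      by_cases h3 : d 0 + d 1 = 2
      · have h4 : (d 0 = 0 ∧ d 1 = 2) ∨ (d 0 = 1 ∧ d 1 = 1) ∨ (d 0 = 2 ∧ d 1 = 0) := by omega
        rcases h4 with ⟨h5, h6⟩ | ⟨h5, h6⟩ | ⟨h5, h6⟩
        · simp [h5, h6]
        · simp [h5, h6]
        · simp [h5, h6]
      · rw [if_neg (fun h => h3 h.symm), if_neg (by omega), if_neg (by omega), if_neg (by omega)]
        ring
    · obtain ⟨i, hi⟩ := not_forall.1 hd
      have h2 : ∏ i : Fin n, (0 : R[X]) ^ d i.succ.succ = 0 :=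
        Finset.prod_eq_zero (Finset.mem_univ i) (zero_pow hi)
      rw [h2, mul_zero, Polynomial.coeff_zero, mul_zero, if_neg (fun h => hd h.2.2),
        if_neg (fun h => hd h.2.2), if_neg (fun h => hd h.2.2)]
      ring

/-- The substitution `x_0 = t y_0 + y_1`, `x_1 = y_0`. -/
noncomputable def sig {n : ℕ} (t : R) :
    MvPolynomial (Fin (n + 2)) R →ₐ[R] MvPolynomial (Fin (n + 2)) R :=
  MvPolynomial.aeval (Fin.cons (MvPolynomial.C t * MvPolynomial.X 0 + MvPolynomial.X 1)
    (Fin.cons (MvPolynomial.X 0) fun i => MvPolynomial.X i.succ.succ))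

/-- The inverse substitution. -/
noncomputable def tau {n : ℕ} (t : R) :
    MvPolynomial (Fin (n + 2)) R →ₐ[R] MvPolynomial (Fin (n + 2)) R :=
  MvPolynomial.aeval (Fin.cons (MvPolynomial.X 1)
    (Fin.cons (MvPolynomial.X 0 - MvPolynomial.C t * MvPolynomial.X 1)
      fun i => MvPolynomial.X i.succ.succ))

lemma sig0 {n : ℕ} (t : R) : sig (n := n) t (MvPolynomial.X 0) =
    MvPolynomial.C t * MvPolynomial.X 0 + MvPolynomial.X 1 := by
  rw [sig, MvPolynomial.aeval_X, Fin.cons_zero]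

lemma sig1 {n : ℕ} (t : R) : sig (n := n) t (MvPolynomial.X 1) = MvPolynomial.X 0 := by
  rw [sig, MvPolynomial.aeval_X, ← Fin.succ_zero_eq_one, Fin.cons_succ, Fin.cons_zero]

lemma sigs {n : ℕ} (t : R) (i : Fin n) :
    sig (n := n) t (MvPolynomial.X i.succ.succ) = MvPolynomial.X i.succ.succ := by
  rw [sig, MvPolynomial.aeval_X, Fin.cons_succ, Fin.cons_succ]

lemma tau0 {n : ℕ} (t : R) : tau (n := n) t (MvPolynomial.X 0) = MvPolynomial.X 1 := by
  rw [tau, MvPolynomial.aeval_X, Fin.cons_zero]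

lemma tau1 {n : ℕ} (t : R) : tau (n := n) t (MvPolynomial.X 1) =
    MvPolynomial.X 0 - MvPolynomial.C t * MvPolynomial.X 1 := by
  rw [tau, MvPolynomial.aeval_X, ← Fin.succ_zero_eq_one, Fin.cons_succ, Fin.cons_zero]

lemma taus {n : ℕ} (t : R) (i : Fin n) :
    tau (n := n) t (MvPolynomial.X i.succ.succ) = MvPolynomial.X i.succ.succ := by
  rw [tau, MvPolynomial.aeval_X, Fin.cons_succ, Fin.cons_succ]

lemma sigC {n : ℕ} (t r : R) : sig (n := n) t (MvPolynomial.C r) = MvPolynomial.C r :=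
  (sig t).commutes r

lemma tauC {n : ℕ} (t r : R) : tau (n := n) t (MvPolynomial.C r) = MvPolynomial.C r :=
  (tau t).commutes r

lemma tau_sig {n : ℕ} (t : R) (x : MvPolynomial (Fin (n + 2)) R) : tau t (sig t x) = x := by
  have : (tau t).comp (sig t) = AlgHom.id R (MvPolynomial (Fin (n + 2)) R) := by
    apply MvPolynomial.algHom_ext
    intro i
    rw [AlgHom.comp_apply, AlgHom.id_apply]
    refine Fin.cases ?_ (fun i => ?_) i
    · rw [sig0, map_add, map_mul, tauC, tau0, tau1]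
      ring
    · refine Fin.cases ?_ (fun i => ?_) i
      · rw [Fin.succ_zero_eq_one, sig1, tau0]
      · rw [sigs, taus]
  exact DFunLike.congr_fun this x

lemma sig_tau {n : ℕ} (t : R) (x : MvPolynomial (Fin (n + 2)) R) : sig t (tau t x) = x := by
  have : (sig t).comp (tau t) = AlgHom.id R (MvPolynomial (Fin (n + 2)) R) := by
    apply MvPolynomial.algHom_ext
    intro i
    rw [AlgHom.comp_apply, AlgHom.id_apply]
    refine Fin.cases ?_ (fun i => ?_) i
    · rw [tau0, sig1]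
    · refine Fin.cases ?_ (fun i => ?_) i
      · rw [Fin.succ_zero_eq_one, tau1, map_sub, map_mul, sigC, sig0, sig1]
        ring
      · rw [taus, sigs]
  exact DFunLike.congr_fun this x

lemma del_sig {n : ℕ} (t : R) (x : MvPolynomial (Fin (n + 2)) R) :
    del 1 0 (sig t x) = del t 1 x := by
  have : (del (n := n) (1 : R) 0).comp (sig t) = del t 1 := by
    apply MvPolynomial.algHom_ext
    intro i
    rw [AlgHom.comp_apply]
    refine Fin.cases ?_ (fun i => ?_) i
    · rw [sig0, map_add, map_mul, del_X0, del_X1, del_X0, del_C]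
      simp
    · refine Fin.cases ?_ (fun i => ?_) i
      · rw [Fin.succ_zero_eq_one, sig1, del_X0, del_X1]
      · rw [sigs, del_Xs, del_Xs]
  exact DFunLike.congr_fun this x

lemma sig_deg [Nontrivial R] {n : ℕ} (t : R) (x : MvPolynomial (Fin (n + 2)) R) :
    (sig t x).totalDegree ≤ x.totalDegree := by
  refine ELI.totalDegree_aeval_le _ (fun i => ?_) x
  refine Fin.cases ?_ (fun i => ?_) i
  · rw [Fin.cons_zero]
    refine (MvPolynomial.totalDegree_add _ _).trans (max_le ?_ ?_)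
    · refine (MvPolynomial.totalDegree_mul _ _).trans ?_
      rw [MvPolynomial.totalDegree_C, MvPolynomial.totalDegree_X]
    · rw [MvPolynomial.totalDegree_X]
  · rw [Fin.cons_succ]
    refine Fin.cases ?_ (fun i => ?_) i
    · rw [Fin.cons_zero]
      exact (MvPolynomial.totalDegree_X _).le
    · rw [Fin.cons_succ]
      exact (MvPolynomial.totalDegree_X _).le

lemma sig_coeff {n : ℕ} (t : R) (p : MvPolynomial (Fin (n + 2)) R)
    (hc : MvPolynomial.coeff (Finsupp.single 0 2) p * t ^ 2 +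
      MvPolynomial.coeff (Finsupp.single 0 1 + Finsupp.single 1 1) p * t +
      MvPolynomial.coeff (Finsupp.single 1 2) p = 0) :
    MvPolynomial.coeff (Finsupp.single 0 2) (sig t p) = 0 := by
  have h3 := coeff_del 1 0 (sig t p)
  rw [del_sig, coeff_del] at h3
  simp only [one_pow, mul_one, mul_zero, add_zero, ne_eq, OfNat.ofNat_ne_zero,
    not_false_eq_true, zero_pow] at h3
  rw [← h3]
  exact hc

lemma iso {k A : Type} [Field k] [CommRing A] [Algebra R A] [Algebra k R] [Algebra k A]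
    [IsScalarTower k R A] (σ τ : A →ₐ[R] A) (h1 : ∀ x, τ (σ x) = x) (h2 : ∀ x, σ (τ x) = x)
    (f : Fin 1 → A) :
    Nonempty ((A ⧸ Ideal.span (Set.range f)) ≃ₐ[k]
      (A ⧸ Ideal.span (Set.range fun _ : Fin 1 => σ (f 0)))) := by
  refine ELI.equiv_of _ _ (σ.restrictScalars k) (τ.restrictScalars k) ?_ ?_ ?_ ?_
  · rw [Ideal.span_le]
    rintro _ ⟨i, rfl⟩
    rw [Fin.fin_one_eq_zero i]
    exact Ideal.subset_span ⟨0, rfl⟩
  · rw [Ideal.span_le]
    rintro _ ⟨i, rfl⟩
    change τ (σ (f 0)) ∈ Ideal.span (Set.range f)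
    rw [h1]
    exact Ideal.subset_span ⟨0, rfl⟩
  · intro b
    rw [AlgHom.restrictScalars_apply, AlgHom.restrictScalars_apply, h2, sub_self]
    exact zero_mem _
  · intro a
    rw [AlgHom.restrictScalars_apply, AlgHom.restrictScalars_apply, h1, sub_self]
    exact zero_mem _

end SUB

theorem t_SUB : S_SUB := by
  intro k R _ _ _ n f t h2 hc
  rcases subsingleton_or_nontrivial R with hR | hR
  · exact ⟨f, h2, Subsingleton.elim _ _, ⟨AlgEquiv.refl⟩⟩
  exact ⟨fun _ => SUB.sig t (f 0), (SUB.sig_deg t (f 0)).trans h2, SUB.sig_coeff t (f 0) hc,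
    SUB.iso (SUB.sig t) (SUB.tau t) (SUB.tau_sig t) (SUB.sig_tau t) f⟩

end QCV


end
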