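import Mathlib
import Pool.Agent.QVM.C08

/-! Parts: CUB.C_CHC -/

section

/-!
# CUB, module CHC: several equations
-/

set_option autoImplicit false

open Polynomial

namespace CUB

namespace CHC

variable {k : Type} [Field k]

lemma push_congr (E : Type) [Field E] {A B : Type} [CommRing A] [CommRing B] [Algebra k A]
    [Algebra k B] {n : ℕ} {φ φ' : A →ₐ[k] B} (h : φ = φ') (hφ : Function.Surjective φ)
    (hφ' : Function.Surjective φ') (c : RP k B n →₀ E) : push E φ hφ c = push E φ' hφ' c := by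
  subst h
  rfl

lemma VRmap_comp {m : ℕ} {R R₁ R' : Type} [CommRing R] [CommRing R₁] [CommRing R'] [Algebra k R]
    [Algebra k R₁] [Algebra k R'] (π : R →ₐ[k] R₁) (ψ₁ : R₁ →ₐ[k] R') (f : Fin m → R) :
    VRmap (ψ₁.comp π) f = (VRmap ψ₁ (fun j => π (f j))).comp (VRmap π f) := by
  apply Q_ext
  · intro t
    have h1 : VRmap (ψ₁.comp π) f (algebraMap _ (VR R f) t) =
        algebraMap _ (VR R' (fun j => ψ₁ (π (f j))))
          (MvPolynomial.mapAlgHom (ψ₁.comp π) t) := Qmap_algebraMap _ _ t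
    have h2 : VRmap ψ₁ (fun j => π (f j)) (VRmap π f (algebraMap _ (VR R f) t)) =
        algebraMap _ (VR R' (fun j => ψ₁ (π (f j))))
          (MvPolynomial.mapAlgHom ψ₁ (MvPolynomial.mapAlgHom π t)) :=
      (congrArg (VRmap ψ₁ (fun j => π (f j))) (Qmap_algebraMap _ _ t)).trans
        (Qmap_algebraMap _ _ _)
    have h3 : MvPolynomial.mapAlgHom (ψ₁.comp π) t =
        MvPolynomial.mapAlgHom ψ₁ (MvPolynomial.mapAlgHom π t) :=
      (MvPolynomial.map_map _ _ t).symm
    exact h1.trans ((congrArg _ h3).trans h2.symm)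
  · have h1 : VRmap (ψ₁.comp π) f (yy (lin f)) = yy (lin (fun j => ψ₁ (π (f j)))) :=
      Qmap_yy _ _
    have h2 : VRmap ψ₁ (fun j => π (f j)) (VRmap π f (yy (lin f))) =
        yy (lin (fun j => ψ₁ (π (f j)))) :=
      (congrArg (VRmap ψ₁ (fun j => π (f j))) (Qmap_yy _ _)).trans (Qmap_yy _ _)
    exact h1.trans h2.symm

lemma VRmap_tau {m : ℕ} {R R' : Type} [CommRing R] [CommRing R'] [Algebra k R]
    [Algebra k R'] (ψ : R →ₐ[k] R') (f : Fin m → R) :
    (VRmap ψ f).comp (tauH (lin f)) = (tauH (lin (fun j => ψ (f j)))).comp (VRmap ψ f) := by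
  apply Q_ext
  · intro t
    rw [AlgHom.comp_apply, AlgHom.comp_apply]
    change VRmap ψ f (tau (lin f) _) = tau _ _
    rw [tau_algebraMap]
    unfold VRmap
    rw [Qmap_algebraMap, tau_algebraMap]
  · rw [AlgHom.comp_apply, AlgHom.comp_apply]
    change VRmap ψ f (tau (lin f) _) = tau _ _
    rw [tau_yy]
    unfold VRmap
    rw [map_sub, map_one, Qmap_yy, tau_yy]

lemma VRmap_inj {m : ℕ} {R R' : Type} [CommRing R] [CommRing R'] [Algebra k R]
    [Algebra k R'] (e : R ≃ₐ[k] R') (f : Fin m → R) :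
    Function.Injective (VRmap (e : R →ₐ[k] R') f) := by
  have h : (MvPolynomial.mapAlgHom (e.symm : R' →ₐ[k] R))
      (lin (fun j => (e : R →ₐ[k] R') (f j))) = lin f := by
    rw [map_lin]
    congr 1
    funext j
    exact e.symm_apply_apply (f j)
  have h1 : (Qmap (MvPolynomial.mapAlgHom (e.symm : R' →ₐ[k] R)) h).comp
      (VRmap (e : R →ₐ[k] R') f) = AlgHom.id k (VR R f) := by
    apply Q_ext
    · intro t
      rw [AlgHom.comp_apply]
      unfold VRmap
      rw [Qmap_algebraMap, Qmap_algebraMap]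
      change algebraMap _ _ _ = algebraMap _ _ t
      congr 1
      change MvPolynomial.map _ (MvPolynomial.map _ t) = t
      rw [MvPolynomial.map_map]
      have h2 : (((e.symm : R' →ₐ[k] R) : R' →+* R).comp ((e : R →ₐ[k] R') : R →+* R')) =
          RingHom.id R := by
        ext x
        exact e.symm_apply_apply x
      exact (congrArg (fun r => MvPolynomial.map r t) h2).trans (MvPolynomial.map_id t)
    · rw [AlgHom.comp_apply]
      unfold VRmap
      rw [Qmap_yy, Qmap_yy]
      rfl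
  intro x y hxy
  have h3 := congrArg (Qmap (MvPolynomial.mapAlgHom (e.symm : R' →ₐ[k] R)) h) hxy
  have h4 : ∀ z, Qmap (MvPolynomial.mapAlgHom (e.symm : R' →ₐ[k] R)) h
      (VRmap (e : R →ₐ[k] R') f z) = z := fun z => AlgHom.congr_fun h1 z
  rw [h4, h4] at h3
  exact h3

lemma anti (hP : S_PCO) (E : Type) [Field E] {m n : ℕ} {R R' : Type} [CommRing R] [CommRing R']
    [Algebra k R] [Algebra k R'] (ψ : R →ₐ[k] R') (hψ : Function.Surjective ψ) (f : Fin m → R)
    (c : RP k (VR R' (fun j => ψ (f j))) n →₀ E) (hc : ptau E _ c = -c) :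
    ptau E _ (push E (VRmap ψ f) (VRmap_surjective ψ hψ f) c) =
      -(push E (VRmap ψ f) (VRmap_surjective ψ hψ f) c) := by
  have hs := VRmap_surjective ψ hψ f
  have h1 := hP.1 k _ _ _ E n (tauH (k := k) (lin f)) (VRmap ψ f)
    ((VRmap ψ f).comp (tauH (lin f))) (tauH_surjective _) hs
    (hs.comp (tauH_surjective _)) rfl c
  have h2 := hP.1 k _ _ _ E n (VRmap ψ f) (tauH (k := k) (lin (fun j => ψ (f j))))
    ((tauH (lin (fun j => ψ (f j)))).comp (VRmap ψ f)) hs (tauH_surjective _)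
    ((tauH_surjective _).comp hs) rfl c
  have h3 := push_congr (n := n) E (VRmap_tau ψ f) (hs.comp (tauH_surjective _))
    ((tauH_surjective _).comp hs) c
  have h4 : ptau E _ (push E (VRmap ψ f) hs c) = push E (VRmap ψ f) hs (ptau E _ c) :=
    h1.symm.trans (h3.trans h2)
  rw [h4, hc, map_neg]

end CHC

theorem t_CHC : M_CHC := by
  intro hP hS k E _ _ _ _ m L
  induction L with
  | nil =>
    intro R R' _ _ _ _ _ f ψ hψ hk n c _ hm
    have hinj : Function.Injective ψ := by
      have h1 : RingHom.ker ψ.toRingHom = ⊥ := by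
        rw [hk]
        have h2 : f '' {j | j ∈ ([] : List (Fin (m + 1)))} = ∅ := by
          ext x; simp
        rw [h2, Ideal.span_empty]
      exact (RingHom.injective_iff_ker_eq_bot ψ.toRingHom).mpr h1
    obtain ⟨e, he⟩ : ∃ e : R ≃ₐ[k] R', (e : R →ₐ[k] R') = ψ :=
      ⟨AlgEquiv.ofBijective ψ ⟨hinj, hψ⟩, AlgHom.ext fun x => rfl⟩
    subst he
    have hb : Function.Bijective (VRmap (e : R →ₐ[k] R') f) :=
      ⟨CHC.VRmap_inj e f, VRmap_surjective _ hψ f⟩
    have h1 := (hP.2.2.1 k _ _ E n (AlgEquiv.ofBijective (VRmap (e : R →ₐ[k] R') f) hb) c).mp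
    refine h1 ?_
    have h2 := CHC.push_congr (n := n) E
      (show (AlgEquiv.ofBijective (VRmap (e : R →ₐ[k] R') f) hb).toAlgHom =
        VRmap (e : R →ₐ[k] R') f from AlgHom.ext fun x => rfl)
      (AlgEquiv.ofBijective (VRmap (e : R →ₐ[k] R') f) hb).surjective hb.2 c
    rw [h2]
    exact hm
  | cons l L ih =>
    intro R R' _ _ _ _ _ f ψ hψ hk n c hc hm
    have hl : Ideal.span {f l} ≤ RingHom.ker ψ.toRingHom := by
      rw [hk]
      apply Ideal.span_mono
      rintro x rfl
      exact ⟨l, by simp, rfl⟩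
    obtain ⟨π, hπ, hπk, ψ₁, h1⟩ : ∃ π : R →ₐ[k] (R ⧸ Ideal.span {f l}), Function.Surjective π ∧
        RingHom.ker π.toRingHom = Ideal.span {f l} ∧
        ∃ ψ₁ : (R ⧸ Ideal.span {f l}) →ₐ[k] R', ψ = ψ₁.comp π :=
      ⟨Ideal.Quotient.mkₐ k _, Ideal.Quotient.mkₐ_surjective k _, Ideal.mk_ker,
        Ideal.Quotient.liftₐ _ ψ (fun a ha => hl ha), AlgHom.ext fun x => rfl⟩
    subst h1
    have hψ₁ : Function.Surjective ψ₁ := fun y => by
      obtain ⟨x, hx⟩ := hψ y
      exact ⟨π x, hx⟩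
    have hk₁ : RingHom.ker ψ₁.toRingHom =
        Ideal.span ((fun j => π (f j)) '' {j | j ∈ L}) := by
      have h2 : RingHom.ker ψ₁.toRingHom =
          (RingHom.ker (ψ₁.comp π).toRingHom).map π.toRingHom := by
        apply le_antisymm
        · intro y hy
          obtain ⟨x, rfl⟩ := hπ y
          exact Ideal.mem_map_of_mem π.toRingHom (show x ∈ RingHom.ker (ψ₁.comp π).toRingHom from hy)
        · rw [Ideal.map_le_iff_le_comap]
          intro x hx
          exact hx
      rw [h2, hk, Ideal.map_span]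
      apply le_antisymm
      · rw [Ideal.span_le]
        rintro _ ⟨_, ⟨j, hj, rfl⟩, rfl⟩
        have hj' : j = l ∨ j ∈ L := by simpa using hj
        rcases hj' with rfl | hj'
        · have h3 : π (f j) = 0 := by
            have h4 : f j ∈ RingHom.ker π.toRingHom := by
              rw [hπk]
              exact Ideal.subset_span rfl
            exact h4
          have h5 : π.toRingHom (f j) = 0 := h3
          rw [h5]
          exact Ideal.zero_mem _
        · exact Ideal.subset_span ⟨j, hj', rfl⟩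
      · apply Ideal.span_mono
        rintro _ ⟨j, hj, rfl⟩
        exact ⟨f j, ⟨j, List.mem_cons_of_mem l hj, rfl⟩, rfl⟩
    have hs := VRmap_surjective π hπ f
    have hs₁ := VRmap_surjective ψ₁ hψ₁ (fun j => π (f j))
    have h2 := hP.1 k _ _ _ E n (VRmap π f) (VRmap ψ₁ (fun j => π (f j)))
      (VRmap (ψ₁.comp π) f) hs hs₁ (VRmap_surjective _ hψ f) (CHC.VRmap_comp π ψ₁ f) c
    have h3 := CHC.anti hP E ψ₁ hψ₁ (fun j => π (f j)) c hc
    have h4 := hS k R (R ⧸ Ideal.span {f l}) E m f l π hπ hπk n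
      (push E (VRmap ψ₁ (fun j => π (f j))) hs₁ c) h3 (by rw [← h2]; exact hm)
    exact ih (R ⧸ Ideal.span {f l}) R' (fun j => π (f j)) ψ₁ hψ₁ hk₁ n c hc h4

end CUB


end
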