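import Mathlib
import Pool.Agent.QVM.C05
import Pool.Agent.QVM.C06
import Pool.Agent.QVM.C08
import Pool.Agent.QVM.C09
import Pool.Agent.QVM.C11
import Pool.Agent.QVM.C12
import Pool.Agent.QVM.C13
import Pool.Agent.QVM.C14
import Pool.Agent.QVM.C15
import Pool.Agent.QVM.C16
import Pool.Agent.QVM.C17
import Pool.Agent.QVM.C18
import Pool.Agent.QVM.C19
import Pool.Agent.QVM.C20
import Pool.Agent.QVM.C22
import Pool.Agent.QVM.C23
import Pool.Agent.QVM.C24
import Pool.Agent.QVM.C25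
import Pool.Agent.QVM.C26
import Pool.Agent.QVM.C27
import Pool.Agent.QVM.C28
import Pool.Agent.QVM.C36
import Pool.Agent.QVM.C37
import Pool.Agent.QVM.C38
import Pool.Agent.QVM.C39
import Pool.Agent.QVM.C40

/-! Parts: CUB.Asm, CUB2.L4Chart, CUB2.L4Val, CUB2.L4Loc, CUB2.L4Main, CUB2.L4Div, CUB2.L4, CUB2.L4S -/

section

/-!
# CUB: assembly of all modules
-/

set_option autoImplicit false

namespace CUB

namespace Asm

universe v

theorem s_QUAD : S_QUAD := t_QUAD

theorem s_PAD : S_PAD := t_PAD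

theorem s_CUV : S_CUV := t_CUV

theorem s_VRL : S_VRL := t_VRL

theorem s_SMO : S_SMO := t_SMO s_VRL

theorem s_SMI : S_SMI := t_SMI

theorem s_DIM1 : S_DIM1 := t_DIM1

theorem s_GCO : S_GCO := t_GCO

theorem s_GX : S_GX := t_GX s_DIM1 s_GCO

theorem s_FPX : S_FPX := t_FPX s_DIM1

theorem s_PLIN : S_PLIN := t_PLIN

theorem s_LENB : S_LENB := t_LENB

theorem s_LENC : S_LENC := t_LENC s_DIM1

theorem s_DVX : S_DVX := t_DVX s_DIM1 s_LENC

theorem s_HER : S_HER := t_HER

theorem s_FP : S_FP := t_FP s_DIM1 s_LENB s_LENC s_DVX s_HER s_FPX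

theorem s_LENA : S_LENA := t_LENA

theorem s_PUSH : S_PUSH := t_PUSH s_LENA

theorem s_PCO : S_PCO := t_PCO s_PUSH s_PLIN

theorem s_L0 : S_L0 := t_L0 s_DIM1 s_LENC s_DVX s_GX s_FPX s_PLIN

theorem s_L0M : S_L0M := t_L0M s_GX s_FPX s_PLIN s_GCO s_FP s_PCO s_L0

theorem s_ZPOL : S_ZPOL := t_ZPOL s_L0M

theorem s_KERQ : S_KERQ := t_KERQ

theorem s_GLO : S_GLO := t_GLO

theorem s_WLO : S_WLO := t_WLO

theorem s_PBC : S_PBC := t_PBC

theorem s_GET : S_GET := t_GET

theorem s_TWO : S_TWO := t_TWO s_GLO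

theorem s_INFA : S_INFA := t_INFA

theorem s_INFD : S_INFD := t_INFD s_INFA

theorem s_B1 : S_B1 := t_B1 s_DVX s_INFA s_INFD

theorem s_BLIN : S_BLIN := t_BLIN

theorem s_BETF : S_BETF := t_BETF s_DIM1 s_LENA s_INFA

theorem s_B2 : S_B2 := t_B2 s_DIM1 s_GX s_BETF

theorem s_TDU : S_TDU := t_TDU s_LENC

theorem s_INFL : S_INFL := t_INFL s_LENB s_INFA

theorem s_HHA : S_HHA := t_HHA

theorem s_VC1 : S_VC1 := t_VC1

theorem s_VC2 : S_VC2 := t_VC2

theorem s_AVO : S_AVO := t_AVO s_VC1 s_VC2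

theorem s_DEV : S_DEV := t_DEV

theorem s_KOS : S_KOS := t_KOS

theorem s_DISJ : S_DISJ := t_DISJ s_DEV s_KOS s_HHA

theorem s_TAMEF : S_TAMEF := t_TAMEF

theorem s_TAME : S_TAME := t_TAME s_HHA s_VC1 s_VC2 s_AVO s_DISJ s_TAMEF

theorem s_PC : S_PC := t_PC s_DEV s_HHA

theorem s_REC : S_REC := t_REC s_HHA s_VC1 s_VC2 s_TAME s_PC

theorem s_NORM : S_NORM := t_NORM

theorem s_NM : S_NM := t_NM s_HHA s_VC2 s_NORM

theorem s_FIN : S_FIN := t_FIN

theorem s_FINL : S_FINL := t_FINL s_FIN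

theorem s_GREC : S_GREC := t_GREC s_DIM1 s_LENA s_LENB s_HHA s_VC1 s_VC2 s_REC s_NM s_FINL

theorem s_GTD : S_GTD := t_GTD s_DIM1 s_FIN s_VC1 s_VC2

theorem s_TDF : S_TDF := t_TDF s_DIM1 s_LENA s_LENC s_DVX s_INFA s_INFD s_INFL s_GREC s_GTD

theorem s_TDE : S_TDE := t_TDE s_DIM1 s_DVX s_INFA s_INFD s_GTD

theorem s_R : S_R := t_R s_LENC s_INFA s_TDU s_TDF s_TDE

theorem s_B3 : S_B3 := t_B3 s_B1 s_BLIN s_R

theorem s_BINJ : S_BINJ := t_BINJ s_FP s_GX s_L0 s_B2 s_B3 s_BLIN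

theorem s_CHI2 : S_CHI2 := t_CHI2 s_PBC s_PLIN

theorem s_B4 : S_B4 := t_B4 s_PLIN s_BETF

theorem s_BPU : S_BPU := t_BPU s_BETF

theorem s_GLI : S_GLI := t_GLI

theorem s_CHI : S_CHI := t_CHI s_GLI

theorem s_FPD : S_FPD := t_FPD s_DIM1 s_LENB s_LENC s_DVX s_HER s_FPX

theorem s_CHIV : S_CHIV := t_CHIV

theorem s_DLG : S_DLG := t_DLG s_R s_FPD s_CHI s_CHIV

theorem s_DL1 : S_DL1 := t_DL1 s_FPX s_FP s_PLIN s_CHI s_B1 s_BLIN s_B3 s_DLG

theorem s_DEL : S_DEL := t_DEL s_PUSH s_PLIN s_CHI2 s_B4 s_BPU s_DL1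

theorem s_ETA : S_ETA := t_ETA s_GET

theorem s_ST0A : S_ST0A := t_ST0A s_FP s_FPX s_PBC s_PLIN s_GCO s_GLO s_GET s_PCO s_KERQ s_TWO s_L0 s_B1 s_BLIN s_BINJ s_DEL s_WLO s_ETA

theorem s_LOC : S_LOC := t_LOC s_DIM1 s_LENB s_LENC s_DVX s_GLO

theorem s_ST0B : S_ST0B := t_ST0B s_LOC s_PCO

theorem s_ST0 : S_ST0 := t_ST0 s_GLO s_FPX s_KERQ s_WLO s_ST0A s_ST0B

theorem s_VRX : S_VRX := t_VRX

theorem s_STP : S_STP := t_STP s_PCO s_ST0 s_VRX

theorem s_CHC : S_CHC := t_CHC s_PCO s_STP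

theorem s_SHE : S_SHE := t_SHE s_TWO s_PCO s_FPX

theorem s_MVI : S_MVI := t_MVI s_GX s_FPX s_PLIN s_GCO s_PCO s_B2 s_B3

theorem s_CIN : S_CIN := t_CIN s_FP s_PLIN s_CHC s_SHE s_MVI

theorem s_GVR : S_GVR := t_GVR s_DIM1 s_GCO s_GX s_GLO s_GET s_VRL

theorem s_RON : S_RON := t_RON

theorem s_CS1 : S_CS1 := t_CS1 s_FP s_FPX s_PLIN s_GCO s_GX s_GLO s_GVR s_VRL s_LOC s_PUSH s_PCO s_KERQ s_L0 s_L0M

theorem s_CS2 : S_CS2 := t_CS2 s_PUSH s_RON s_PLIN s_PBC s_FPX s_GVR s_PCO s_KERQ s_CS1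

theorem s_CSU : S_CSU := t_CSU s_FP s_GVR s_PUSH s_RON s_L0M s_SHE s_CS2

theorem s_RED : S_RED.{v} := t_RED.{v} s_KERQ s_VRL s_PLIN s_GX s_GCO s_FPX s_CIN s_CSU

theorem s_MAIN : S_MAIN.{v} := t_MAIN.{v} s_QUAD s_PAD s_CUV s_SMO s_SMI s_ZPOL s_RED.{v}

theorem s_SURJ : S_SURJ.{v} := t_SURJ.{v}

end Asm

end CUB


end

section

/-!
# CUB2, L4: charts
-/

set_option autoImplicit false

open Polynomial CategoryTheory AlgebraicGeometry Limits TopologicalSpace

namespace CUB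

open Pool.Agent.Lib_helper55.Beil Pool.Agent.Lib_helper66.OneP

namespace L4

variable {k : Type} [Field k]

/-- Every point has an affine chart. -/
theorem exists_chartAt (X : Var k) (x : X.X) : ∃ (R : Type) (_ : CommRing R) (_ : Algebra k R)
    (_ : Algebra.FiniteType k R) (j : OpenIn (aff k R) X), x ∈ Set.range j.g := by
  obtain ⟨_, ⟨U, hU, rfl⟩, hxU, -⟩ := X.X.isBasis_affineOpens.exists_subset_of_mem_open
    (Set.mem_univ x) isOpen_univ
  have hU2 : IsAffineOpen U := hU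
  have haff : IsAffine (openVar X U).X := hU2
  obtain ⟨R, _, _, _, ⟨s⟩⟩ := exists_aff (openVar X U)
  have hj := (openVarIn X U).isOpen
  refine ⟨R, inferInstance, inferInstance, inferInstance,
    ⟨s.e.hom ≫ (openVarIn X U).g, ?_, inferInstance⟩, ?_⟩
  · rw [Category.assoc, (openVarIn X U).comm, s.comm]
  · have h1 : x ∈ Set.range (openVarIn X U).g := by
      rw [range_openVarIn]
      exact hxU
    obtain ⟨y, hy⟩ := h1
    refine ⟨s.e.inv y, ?_⟩
    change (s.e.hom ≫ (openVarIn X U).g) (s.e.inv y) = x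
    rw [← Scheme.Hom.comp_apply, s.e.inv_hom_id_assoc, hy]

/-- The chart of `Y = X × A^1` over a chart of `X`. -/
theorem exists_lineChart {X Y : Var k} (q : Line Y X) {R : Type} [CommRing R] [Algebra k R]
    [Algebra.FiniteType k R] (j : OpenIn (aff k R) X) :
    ∃ j' : OpenIn (aff k R[X]) Y, j'.g ≫ q.q = spm (CC k R) ≫ j.g ∧
      j'.g ≫ q.t = Spec.map (CommRingCat.ofHom (Polynomial.mapRingHom (algebraMap k R))) ∧
      ∀ y : Y.X, q.q y ∈ Set.range j.g → y ∈ Set.range j'.g := by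
  have hj := j.isOpen
  let l := lineX (k := k) R
  have hw : (l.q ≫ j.g) ≫ X.f = l.t ≫ Spec.map (CommRingCat.ofHom (algebraMap k k[X])) := by
    rw [Category.assoc, j.comm, l.prod.w]
  let g : (aff k R[X]).X ⟶ Y.X := q.prod.lift (l.q ≫ j.g) l.t hw
  have h1 : g ≫ q.q = l.q ≫ j.g := q.prod.lift_fst _ _ _
  have h2 : g ≫ q.t = l.t := q.prod.lift_snd _ _ _
  have hpb : IsPullback g l.q q.q j.g := by
    have hr : IsPullback (g ≫ q.t) l.q (Spec.map (CommRingCat.ofHom (algebraMap k k[X])))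
        (j.g ≫ X.f) := by
      rw [h2, j.comm]
      exact l.prod.flip
    exact IsPullback.of_right hr h1 q.prod.flip
  have hg : IsOpenImmersion g := MorphismProperty.of_isPullback hpb.flip hj
  refine ⟨⟨g, ?_, hg⟩, h1, ?_, ?_⟩
  · rw [← q.comm, ← Category.assoc, h1, Category.assoc, j.comm, l.comm]
  · rw [h2]
    rfl
  · rintro y ⟨x, hx⟩
    obtain ⟨z, hz1, -⟩ := Scheme.Pullback.exists_preimage_pullback (f := q.q) (g := j.g) y x hx.symm
    refine ⟨hpb.isoPullback.inv z, ?_⟩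
    change g (hpb.isoPullback.inv z) = y
    rw [← Scheme.Hom.comp_apply, hpb.isoPullback_inv_fst, hz1]

end L4

end CUB


end

section

/-!
# CUB2, L4: valuation rings of a function field and their centres
-/

set_option autoImplicit false

open Polynomial CategoryTheory AlgebraicGeometry Limits

namespace CUB

open Pool.Agent.Lib_helper55.Beil Pool.Agent.Lib_helper66.OneP

namespace L4

/-! ## Tame symbols and norms -/

section Tame

variable {K : Type} [Field K]

lemma isTame_div {O : ValuationSubring K} {a a' u w w' : K} (h : IsTame O a u w)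
    (h' : IsTame O a' u w') : IsTame O (a / a') u (w / w') := by
  obtain ⟨π, α, β, i, j, hπ, hα, hβ, ha, hu, hw⟩ := h
  obtain ⟨π', α', β', i', j', hπ', hα', hβ', ha', hu', hw'⟩ := h'
  have hj : j = j' := TDU.unif_uniq hπ hπ' hβ hβ' (hu.symm.trans hu')
  subst hj
  have hp : O.valuation π = O.valuation π' :=
    le_antisymm (TDU.unif_val hπ' hπ) (TDU.unif_val hπ hπ')
  have h0 : O.valuation π ≠ 0 := (Valuation.ne_zero_iff _).2 hπ.2.1
  refine ⟨π, α / (α' * (π' / π) ^ i'), β, i - i', j, hπ, ?_, hβ, ?_, hu, ?_⟩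
  · apply TDU.val_un
    rw [map_div₀, map_mul, map_zpow₀, map_div₀, ← hp, div_self h0, one_zpow, TDU.un_val hα,
      TDU.un_val hα', mul_one, div_one]
  · have h1 : (π' / π) ^ i' = π' ^ i' / π ^ i' := div_zpow _ _ _
    rw [ha, ha', h1, zpow_sub₀ hπ.2.1]
    have h2 : π ^ i' ≠ 0 := zpow_ne_zero _ hπ.2.1
    have h3 : π' ^ i' ≠ 0 := zpow_ne_zero _ hπ'.2.1
    have h4 : α' ≠ 0 := hα'.1
    field_simp
  · have hu0 : u ≠ 0 := by
      rw [hu]
      exact mul_ne_zero hβ.1 (zpow_ne_zero _ hπ.2.1)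
    rw [hw, hw', div_zpow, neg_sub, zpow_sub₀ hu0, zpow_neg, zpow_neg]
    have h2 : u ^ i ≠ 0 := zpow_ne_zero _ hu0
    have h3 : u ^ i' ≠ 0 := zpow_ne_zero _ hu0
    field_simp

lemma isTame_un {O : ValuationSubring K} {a u w : K} (h : IsTame O a u w) : IsUn O w := by
  obtain ⟨π, α, β, i, j, hπ, hα, hβ, ha, hu, hw⟩ := h
  apply TDU.val_un
  have h0 : O.valuation π ≠ 0 := (Valuation.ne_zero_iff _).2 hπ.2.1
  rw [hw, ha, hu, map_mul, map_zpow₀, map_zpow₀, map_mul, map_mul, map_zpow₀, map_zpow₀,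
    TDU.un_val hα, TDU.un_val hβ, one_mul, one_mul, ← zpow_mul, ← zpow_mul, ← zpow_add₀ h0]
  have : i * j + j * -i = 0 := by ring
  rw [this, zpow_zero]

end Tame

section Nm

variable {L : Type} [Field L]

/-- The norm to a subfield, as an element of the field. -/
noncomputable def nm (F : Subfield L) (x : L) : L := ((Algebra.norm F x : F) : L)

lemma nm_mem (F : Subfield L) (x : L) : nm F x ∈ F := (Algebra.norm F x).2

lemma nm_mul (F : Subfield L) (x y : L) : nm F (x * y) = nm F x * nm F y := by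
  unfold nm
  rw [map_mul]
  rfl

lemma isNm_iff {R : Type} [CommRing R] {ρ : R →+* L} {F : Subfield L}
    (hF : Subfield.closure (Set.range ρ) = F) {x : L} {b c : R} :
    IsNm ρ x b c ↔ ρ b ≠ 0 ∧ ρ c ≠ 0 ∧ nm F x * ρ c = ρ b := by
  subst hF
  exact Iff.rfl

end Nm

/-! ## Centres -/

section Centre

variable {k : Type} [Field k] {K : Type} [Field K]

/-- The morphism `Spec K → Spec O`. -/
noncomputable def iO (O : ValuationSubring K) : Spec (CommRingCat.of K) ⟶ Spec (CommRingCat.of O) :=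
  Spec.map (CommRingCat.ofHom O.subtype)

instance isDominant_iO (O : ValuationSubring K) : IsDominant (iO O) := by
  constructor
  have h1 : Function.Injective O.subtype := Subtype.val_injective
  exact PrimeSpectrum.denseRange_comap_iff_ker_le_nilRadical O.subtype |>.mpr (by
    rw [(RingHom.injective_iff_ker_eq_bot _).mp h1]
    exact bot_le)

/-- The morphism `Spec κ(O) → Spec O`. -/
noncomputable def rO (O : ValuationSubring K) :
    Spec (CommRingCat.of (IsLocalRing.ResidueField O)) ⟶ Spec (CommRingCat.of O) :=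
  Spec.map (CommRingCat.ofHom (IsLocalRing.residue O))

/-- The closed point. -/
noncomputable abbrev cO (O : ValuationSubring K) : Spec (CommRingCat.of O) :=
  IsLocalRing.closedPoint (CommRingCat.of O)

lemma rO_pt (O : ValuationSubring K) :
    (rO O) (pt (IsLocalRing.ResidueField O)) = cO O := by
  apply PrimeSpectrum.ext
  change Ideal.comap (IsLocalRing.residue O) (IsLocalRing.maximalIdeal _) = IsLocalRing.maximalIdeal O
  rw [IsLocalRing.maximalIdeal_eq_bot]
  exact IsLocalRing.ker_residue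

variable {X : Var k} {x : Spec (CommRingCat.of K) ⟶ X.X} {O : ValuationSubring K}

/-- The morphism from `Spec O` is determined by its restriction to `Spec K`. -/
lemma pl_unique {y y' : Spec (CommRingCat.of O) ⟶ X.X} (h : iO O ≫ y = x)
    (h' : iO O ≫ y' = x) : y = y' := by
  have hred : AlgebraicGeometry.IsReduced (Spec (CommRingCat.of O)) := inferInstance
  refine ext_of_isDominant_of_isSeparated X.f ?_ (iO O) (h.trans h'.symm)
  obtain ⟨α, hα⟩ : ∃ α : CommRingCat.of k ⟶ CommRingCat.of O, Spec.map α = y ≫ X.f :=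
    ⟨Spec.preimage _, Spec.map_preimage _⟩
  obtain ⟨α', hα'⟩ : ∃ α : CommRingCat.of k ⟶ CommRingCat.of O, Spec.map α = y' ≫ X.f :=
    ⟨Spec.preimage _, Spec.map_preimage _⟩
  have h1 : α ≫ CommRingCat.ofHom O.subtype = α' ≫ CommRingCat.ofHom O.subtype := by
    apply Spec.map_injective
    rw [Spec.map_comp, Spec.map_comp, hα, hα']
    change iO O ≫ y ≫ X.f = iO O ≫ y' ≫ X.f
    rw [← Category.assoc, ← Category.assoc, h, h']
  rw [← hα, ← hα']
  congr 1
  apply CommRingCat.hom_ext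
  apply RingHom.ext
  intro r
  apply Subtype.val_injective
  exact congrArg (fun f => f.hom r) h1

/-- A morphism from the spectrum of a local ring which maps the closed point to a chart. -/
lemma lift_chart {O' : Type} [CommRing O'] [IsLocalRing O'] (y : Spec (CommRingCat.of O') ⟶ X.X)
    {R : Type} [CommRing R] [Algebra k R] [Algebra.FiniteType k R] (j : OpenIn (aff k R) X)
    (h : y (IsLocalRing.closedPoint (CommRingCat.of O')) ∈ Set.range j.g) :
    ∃ ρ : R →+* O', sp k ρ ≫ j.g = y := by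
  have hj := j.isOpen
  have h1 : Set.range y ⊆ Set.range j.g := by
    rintro _ ⟨p, rfl⟩
    have h2 : p ⤳ IsLocalRing.closedPoint (CommRingCat.of O') :=
      IsLocalRing.specializes_closedPoint p
    exact (h2.map y.continuous).mem_open j.g.opensRange.2 h
  let l : Spec (CommRingCat.of O') ⟶ (aff k R).X := IsOpenImmersion.lift j.g y h1
  have hl : l ≫ j.g = y := IsOpenImmersion.lift_fac j.g y h1
  obtain ⟨ρ, hρ⟩ := exists_sp k l
  exact ⟨ρ, by rw [hρ, hl]⟩

variable [Algebra k K] {R : Type} [CommRing R] [Algebra k R] [Algebra.FiniteType k R]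
  (j : OpenIn (aff k R) X)

/-- The homomorphism from the functions on a chart to `K`. -/
lemma exists_theta (hx : x ≫ X.f = Spec.map (CommRingCat.ofHom (algebraMap k K)))
    (h : x (pt K) ∈ Set.range j.g) :
    ∃ θ : R →ₐ[k] K, sp k θ.toRingHom ≫ j.g = x := by
  obtain ⟨ρ, hρ⟩ := lift_chart x j h
  have h1 : CommRingCat.ofHom (ρ.comp (algebraMap k R)) = CommRingCat.ofHom (algebraMap k K) := by
    apply Spec.map_injective
    rw [← sp_f, ← hx, ← hρ, Category.assoc, j.comm]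
  exact ⟨{ ρ with commutes' := fun r => congrArg (fun f => f.hom r) h1 }, hρ⟩

variable (θ : R →ₐ[k] K) (hθ : sp k θ.toRingHom ≫ j.g = x)

include hθ

lemma theta_unique (θ' : R →ₐ[k] K)
    (hθ' : sp k θ'.toRingHom ≫ j.g = x) : θ = θ' := by
  have hj := j.isOpen
  have h1 : sp k θ.toRingHom = sp k θ'.toRingHom := (cancel_mono j.g).mp (hθ.trans hθ'.symm)
  have h2 := sp_injective k h1
  apply AlgHom.ext
  intro r
  exact RingHom.congr_fun h2 r

lemma mem_of_centre {y : Spec (CommRingCat.of O) ⟶ X.X} (hy : iO O ≫ y = x)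
    (hc : y (cO O) ∈ Set.range j.g) (r : R) : θ r ∈ O := by
  have hj := j.isOpen
  obtain ⟨ρ, hρ⟩ := lift_chart y j hc
  have h1 : sp k (O.subtype.comp ρ) ≫ j.g = sp k θ.toRingHom ≫ j.g := by
    rw [hθ, ← hy, ← hρ, ← sp_comp, Category.assoc]
    rfl
  have h2 := sp_injective k ((cancel_mono j.g).mp h1)
  have h3 : O.subtype (ρ r) = θ r := RingHom.congr_fun h2 r
  rw [← h3]
  exact (ρ r).2

lemma centre_of_mem {y : Spec (CommRingCat.of O) ⟶ X.X} (hy : iO O ≫ y = x)
    (h : ∀ r, θ r ∈ O) :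
    sp k (rhoO θ O h) ≫ j.g = rO O ≫ y ∧ y (cO O) ∈ Set.range j.g ∧
      ∀ T : PrimeSpectrum R, T.asIdeal = RingHom.ker (rhoO θ O h) →
        X.dim (y (cO O)) = rdim k T := by
  have hj := j.isOpen
  let y' : Spec (CommRingCat.of O) ⟶ X.X :=
    sp k (θ.toRingHom.codRestrict O.toSubring h) ≫ j.g
  have hy' : iO O ≫ y' = x := by
    rw [← hθ]
    change iO O ≫ sp k _ ≫ j.g = _
    rw [← Category.assoc]
    congr 1
    exact sp_comp k O.subtype _
  have e1 : y = y' := pl_unique hy hy'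
  have e2 : sp k (rhoO θ O h) ≫ j.g = rO O ≫ y := by
    rw [e1]
    change _ = rO O ≫ sp k _ ≫ j.g
    rw [← Category.assoc]
    congr 1
    exact (sp_comp k (IsLocalRing.residue O) _).symm
  have e3 : y (cO O) = j.g ((sp k (rhoO θ O h)) (pt (IsLocalRing.ResidueField O))) := by
    rw [← rO_pt, ← Scheme.Hom.comp_apply, ← e2, Scheme.Hom.comp_apply]
  refine ⟨e2, ⟨_, e3.symm⟩, ?_⟩
  intro T hT
  have e4 : (sp k (rhoO θ O h)) (pt (IsLocalRing.ResidueField O)) = toPt (k := k) T := by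
    apply PrimeSpectrum.ext
    change Ideal.comap (rhoO θ O h) (IsLocalRing.maximalIdeal _) = T.asIdeal
    rw [IsLocalRing.maximalIdeal_eq_bot, hT]
    rfl
  rw [e3, dim_map j.g j.comm, ← dim_toPt, e4]

end Centre

end L4

end CUB


end

section

/-!
# CUB2, L4: the contribution of one valuation ring
-/

set_option autoImplicit false

open Polynomial CategoryTheory AlgebraicGeometry Limits

namespace CUB

open Pool.Agent.Lib_helper55.Beil Pool.Agent.Lib_helper66.OneP

namespace L4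

variable {k : Type} [Field k] {E : Type} [Field E] {i : ℕ}

section

variable {K : Type} [Field K] [Algebra k K]

/-- The divisor of a product on `V(T)`. -/
lemma isDv_mul {R : Type} [CommRing R] [Algebra k R] [Algebra.FiniteType k R]
    (T : RP k R (i + 1)) {b c : R} (hb : b ∉ T.1.asIdeal) (hc : c ∉ T.1.asIdeal)
    {db dc : RP k R i →₀ E} (h : IsDv k E T.1 b db) (h' : IsDv k E T.1 c dc) :
    IsDv k E T.1 (b * c) (db + dc) := by
  intro p
  rw [Finsupp.add_apply, h p, h' p, (Asm.s_LENC k R i T p).1 b c hb hc]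
  push_cast
  rfl

/-- The global cycle defined by the tame symbol at one valuation ring. -/
theorem exists_D {X : Var k} {x : Spec (CommRingCat.of K) ⟶ X.X} {O : ValuationSubring K}
    {y : Spec (CommRingCat.of O) ⟶ X.X} (hy : iO O ≫ y = x) (hdim : X.dim (y (cO O)) = (i + 1 : ℕ))
    (f s : K) : ∃ D ∈ ratZero E i X,
      (∀ (R : Type) [CommRing R] [Algebra k R] [Algebra.FiniteType k R] (j : OpenIn (aff k R) X)
        (θ : R →ₐ[k] K), sp k θ.toRingHom ≫ j.g = x → ∀ (A B : K), B ≠ 0 → f * B = A →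
        ∀ dA dB : RP k R i →₀ E, IsTD E θ O A s⁻¹ dA → IsTD E θ O B s⁻¹ dB →
        resCyc j D = cyE E i (dA - dB)) ∧
      ∀ (R : Type) [CommRing R] [Algebra k R] [Algebra.FiniteType k R] (j : OpenIn (aff k R) X),
        y (cO O) ∉ Set.range j.g → resCyc j D = 0 := by
  classical
  let z : Spec (CommRingCat.of (IsLocalRing.ResidueField O)) ⟶ X.X := rO O ≫ y
  have hz : z (pt (IsLocalRing.ResidueField O)) = y (cO O) := by
    change (rO O ≫ y) _ = _
    rw [Scheme.Hom.comp_apply, rO_pt]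
  obtain ⟨F, hF1, hF2⟩ := exists_global (E := E) (i := i) z (by rw [hz, hdim])
  -- the symbols and the norms in one chart
  have key : ∀ (R : Type) [CommRing R] [Algebra k R] [Algebra.FiniteType k R]
      (j : OpenIn (aff k R) X) (θ : R →ₐ[k] K), sp k θ.toRingHom ≫ j.g = x →
      ∀ (A B : K), B ≠ 0 → f * B = A → ∀ dA dB : RP k R i →₀ E, IsTD E θ O A s⁻¹ dA →
      IsTD E θ O B s⁻¹ dB → ∃ (w : O) (ρ : R →+* IsLocalRing.ResidueField O) (T : RP k R (i + 1))
        (b c : R) (db dc : RP k R i →₀ E), IsTame O f s⁻¹ (w : K) ∧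
        sp k ρ ≫ j.g = z ∧ T.1.asIdeal = RingHom.ker ρ ∧ ρ b ≠ 0 ∧ ρ c ≠ 0 ∧
        nm F (IsLocalRing.residue O w) * ρ c = ρ b ∧ IsDv k E T.1 b db ∧ IsDv k E T.1 c dc ∧
        dA - dB = db - dc := by
    intro R _ _ _ j θ hθ A B hB hfB dA dB hA' hB'
    obtain ⟨h, T, wA, b, c, db, dc, hT, hw, hN, hb, hc, rfl⟩ := hA'
    obtain ⟨h', T', wB, b', c', db', dc', hT', hw', hN', hb', hc', rfl⟩ := hB'
    obtain rfl : T = T' := Subtype.ext (PrimeSpectrum.ext (hT.trans hT'.symm))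
    have hρ : sp k (rhoO θ O h) ≫ j.g = z := (centre_of_mem j θ hθ hy h).1
    have hcl := (hF1 R j (rhoO θ O h) hρ).1
    rw [isNm_iff hcl] at hN hN'
    have htame := isTame_div hw hw'
    have hf : A / B = f := by rw [← hfB, mul_div_cancel_right₀ _ hB]
    rw [hf] at htame
    have hun := isTame_un htame
    let w : O := ⟨(wA : K) / (wB : K), hun.2.1⟩
    have hww : wA = w * wB := by
      apply Subtype.ext
      have h1 : (wB : K) ≠ 0 := (isTame_un hw').1
      change (wA : K) = (wA : K) / (wB : K) * (wB : K)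
      rw [div_mul_cancel₀ _ h1]
    have hnm : nm F (IsLocalRing.residue O wA) =
        nm F (IsLocalRing.residue O w) * nm F (IsLocalRing.residue O wB) := by
      rw [hww, map_mul, nm_mul]
    have mT : ∀ x : R, rhoO θ O h x ≠ 0 → x ∉ T.1.asIdeal := by
      intro x hx hx'
      rw [hT, RingHom.mem_ker] at hx'
      exact hx hx'
    refine ⟨w, rhoO θ O h, T, b * c', b' * c, db + dc', db' + dc, htame, hρ, hT, ?_, ?_, ?_,
      isDv_mul T (mT _ hN.1) (mT _ hN'.2.1) hb hc', isDv_mul T (mT _ hN'.1) (mT _ hN.2.1) hb' hc,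
      ?_⟩
    · rw [map_mul]
      exact mul_ne_zero hN.1 hN'.2.1
    · rw [map_mul]
      exact mul_ne_zero hN'.1 hN.2.1
    · rw [map_mul, map_mul, ← hN.2.2, ← hN'.2.2, hnm]
      ring
    · abel
  by_cases hex : ∃ w : O, IsTame O f s⁻¹ (w : K) ∧ nm F (IsLocalRing.residue O w) ≠ 0
  · obtain ⟨w, hw, hw0⟩ := hex
    obtain ⟨D, hD, hD1, hD2⟩ := hF2 (nm F (IsLocalRing.residue O w)) (nm_mem F _) hw0
    refine ⟨D, hD, ?_, ?_⟩
    · intro R _ _ _ j θ hθ A B hB hfB dA dB hA' hB'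
      obtain ⟨w', ρ, T, b, c, db, dc, h1, h2, h3, h4, h5, h6, h7, h8, h9⟩ :=
        key R j θ hθ A B hB hfB dA dB hA' hB'
      obtain rfl : w = w' := Subtype.ext (TDU.tame_uniq hw h1)
      rw [h9]
      exact hD1 R j ρ h2 T h3 b c h4 h5 h6 db dc h7 h8
    · intro R _ _ _ j hj
      exact hD2 R j (by rw [hz]; exact hj)
  · refine ⟨0, zero_mem _, ?_, fun R _ _ _ j _ => map_zero _⟩
    intro R _ _ _ j θ hθ A B hB hfB dA dB hA' hB'
    obtain ⟨w', ρ, T, b, c, db, dc, h1, h2, h3, h4, h5, h6, h7, h8, h9⟩ :=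
      key R j θ hθ A B hB hfB dA dB hA' hB'
    refine absurd ⟨w', h1, ?_⟩ hex
    intro h0
    rw [h0, zero_mul] at h6
    exact h4 h6.symm

end

end L4

end CUB


end

section

/-!
# CUB2, L4: homotopy invariance of rational equivalence
-/

set_option autoImplicit false

open Polynomial CategoryTheory AlgebraicGeometry Limits

namespace CUB

open Pool.Agent.Lib_helper55.Beil Pool.Agent.Lib_helper66.OneP

namespace L4

variable {k : Type} [Field k] {E : Type} [Field E] {i : ℕ}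

/-- The cycle `d` on `X` is the specialisation at infinity of the cycle `c` on `Y = X × A^1`. -/
def IsSp {X Y : Var k} (q : Line Y X) (c : Pts (i + 1) Y →₀ E) (d : Pts i X →₀ E) : Prop :=
  ∀ (R : Type) [CommRing R] [Algebra k R] [Algebra.FiniteType k R] (j : OpenIn (aff k R) X)
    (j' : OpenIn (aff k R[X]) Y), j'.g ≫ q.q = spm (CC k R) ≫ j.g →
    j'.g ≫ q.t = Spec.map (CommRingCat.ofHom (Polynomial.mapRingHom (algebraMap k R))) →
    ∀ (c₁ : RP k R[X] (i + 1) →₀ E) (d₁ : RP k R i →₀ E), resCyc j' c = cyE E (i + 1) c₁ →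
      resCyc j d = cyE E i d₁ → IsBeta k E c₁ d₁

section Basic

variable {X Y : Var k} (q : Line Y X)

lemma isSp_zero : IsSp q (0 : Pts (i + 1) Y →₀ E) (0 : Pts i X →₀ E) := by
  intro R _ _ _ j j' _ _ c₁ d₁ hc hd
  rw [map_zero] at hc hd
  have h1 : c₁ = 0 := (cyE E (i + 1)).injective (by rw [← hc, map_zero])
  have h2 : d₁ = 0 := (cyE E i).injective (by rw [← hd, map_zero])
  rw [h1, h2]
  intro p
  rw [Finsupp.sum_zero_index]
  rfl

variable {q}

lemma isSp_add {c c' : Pts (i + 1) Y →₀ E} {d d' : Pts i X →₀ E} (h : IsSp q c d)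
    (h' : IsSp q c' d') : IsSp q (c + c') (d + d') := by
  intro R _ _ _ j j' hq ht c₁ d₁ hc hd
  obtain ⟨u, hu⟩ := (cyE (k := k) (A := R[X]) E (i + 1)).surjective (resCyc j' c)
  obtain ⟨u', hu'⟩ := (cyE (k := k) (A := R[X]) E (i + 1)).surjective (resCyc j' c')
  obtain ⟨v, hv⟩ := (cyE (k := k) (A := R) E i).surjective (resCyc j d)
  obtain ⟨v', hv'⟩ := (cyE (k := k) (A := R) E i).surjective (resCyc j d')
  have h1 := h R j j' hq ht u v hu.symm hv.symm
  have h2 := h' R j j' hq ht u' v' hu'.symm hv'.symm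
  have h3 := (Asm.s_BLIN k R E i u u' v v' 1 h1 h2).2.1
  have e1 : c₁ = u + u' := (cyE E (i + 1)).injective (by rw [← hc, map_add, map_add, hu, hu'])
  have e2 : d₁ = v + v' := (cyE E i).injective (by rw [← hd, map_add, map_add, hv, hv'])
  rw [e1, e2]
  exact h3

lemma isSp_smul {c : Pts (i + 1) Y →₀ E} {d : Pts i X →₀ E} (r : E) (h : IsSp q c d) :
    IsSp q (r • c) (r • d) := by
  intro R _ _ _ j j' hq ht c₁ d₁ hc hd
  obtain ⟨u, hu⟩ := (cyE (k := k) (A := R[X]) E (i + 1)).surjective (resCyc j' c)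
  obtain ⟨v, hv⟩ := (cyE (k := k) (A := R) E i).surjective (resCyc j d)
  have h1 := h R j j' hq ht u v hu.symm hv.symm
  have h3 := (Asm.s_BLIN k R E i u u v v r h1 h1).2.2.2.1
  have e1 : c₁ = r • u := (cyE E (i + 1)).injective (by rw [← hc, map_smul, map_smul, hu])
  have e2 : d₁ = r • v := (cyE E i).injective (by rw [← hd, map_smul, map_smul, hv])
  rw [e1, e2]
  exact h3

lemma isSp_unique {c : Pts (i + 1) Y →₀ E} {d d' : Pts i X →₀ E} (h : IsSp q c d)
    (h' : IsSp q c d') : d = d' := by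
  ext p
  obtain ⟨R, _, _, _, j, x, hx⟩ := exists_chartAt X p.1
  obtain ⟨j', hq, ht, -⟩ := exists_lineChart q j
  obtain ⟨u, hu⟩ := (cyE (k := k) (A := R[X]) E (i + 1)).surjective (resCyc j' c)
  obtain ⟨v, hv⟩ := (cyE (k := k) (A := R) E i).surjective (resCyc j d)
  obtain ⟨v', hv'⟩ := (cyE (k := k) (A := R) E i).surjective (resCyc j d')
  have h1 := h R j j' hq ht u v hu.symm hv.symm
  have h2 := h' R j j' hq ht u v' hu.symm hv'.symm
  have h3 := (Asm.s_BLIN k R E i u u v v' 1 h1 h2).1 rfl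
  rw [h3, hv'] at hv
  obtain ⟨y, hy⟩ := mem_range_ptsMapO j p ⟨x, hx⟩
  rw [← hy, ← resCyc_apply, ← resCyc_apply, hv]

lemma pull_apply {c : Pts (i + 1) Y →₀ E} {d : Pts i X →₀ E}
    (h : ∀ y : Pts (i + 1) Y, (∀ h : X.dim (q.q y.1) = i, c y = d ⟨q.q y.1, h⟩) ∧
      (X.dim (q.q y.1) ≠ i → c y = 0)) (y : Pts (i + 1) Y) (x : Pts i X) (hyx : q.q y.1 = x.1) :
    c y = d x := by
  obtain ⟨x, hx⟩ := x
  change q.q y.1 = x at hyx
  subst hyx
  exact (h y).1 hx

/-- The pull-back of a cycle specialises to the cycle. -/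
lemma isSp_pull {c : Pts (i + 1) Y →₀ E} {d : Pts i X →₀ E}
    (h : ∀ y : Pts (i + 1) Y, (∀ h : X.dim (q.q y.1) = i, c y = d ⟨q.q y.1, h⟩) ∧
      (X.dim (q.q y.1) ≠ i → c y = 0)) : IsSp q c d := by
  intro R _ _ _ j j' hq ht c₁ d₁ hc hd
  have hj := j.isOpen
  apply Asm.s_B2 k R E i d₁ c₁
  intro P
  have e2 : c₁ P = c (ptsMapO (i + 1) j' (ptE (i + 1) P)) := by
    rw [← resCyc_apply, hc, cyE_apply]
  have e1 : q.q (ptsMapO (i + 1) j' (ptE (i + 1) P)).1 =
      j.g (toPt (PrimeSpectrum.comap (CC k R).toRingHom P.1)) := by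
    change q.q (j'.g (toPt P.1)) = _
    rw [← Scheme.Hom.comp_apply, hq, Scheme.Hom.comp_apply]
    rfl
  have e3 : X.dim (q.q (ptsMapO (i + 1) j' (ptE (i + 1) P)).1) =
      rdim k (PrimeSpectrum.comap (CC k R).toRingHom P.1) := by
    rw [e1, dim_map j.g j.comm, dim_toPt]
  refine ⟨?_, ?_⟩
  · intro hP
    have key : ∀ p : RP k R i, p.1 = PrimeSpectrum.comap (CC k R).toRingHom P.1 → c₁ P = d₁ p := by
      intro p hp
      have e4 : d₁ p = d (ptsMapO i j (ptE i p)) := by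
        rw [← resCyc_apply, hd, cyE_apply]
      rw [e2, e4]
      apply pull_apply h
      rw [e1, ← hp]
      rfl
    exact key _ rfl
  · intro hP
    rw [e2]
    exact (h _).2 (fun h0 => hP (e3.symm.trans h0))

end Basic

end L4

end CUB


end

section

/-!
# CUB2, L4: the specialisation of a divisor
-/

set_option autoImplicit false

open Polynomial CategoryTheory AlgebraicGeometry Limits

namespace CUB

open Pool.Agent.Lib_helper55.Beil Pool.Agent.Lib_helper66.OneP

namespace L4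

variable {k : Type} [Field k] {E : Type} [Field E] {i : ℕ}

section Div

variable {X Y W : Var k} (q : Line Y X) (a : ClosedIn W Y)
  {K : Type} [Field K] [Algebra k K] (g : Spec (CommRingCat.of K) ⟶ W.X)

/-- The coordinate on the line, as an element of the field. -/
lemma exists_s (hg : g ≫ W.f = Spec.map (CommRingCat.ofHom (algebraMap k K))) :
    ∃ s : K, (g ≫ a.g) ≫ q.t =
      Spec.map (CommRingCat.ofHom (eval₂RingHom (algebraMap k K) s)) := by
  obtain ⟨τ, hτ⟩ : ∃ τ : CommRingCat.of k[X] ⟶ CommRingCat.of K, Spec.map τ = (g ≫ a.g) ≫ q.t :=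
    ⟨Spec.preimage _, Spec.map_preimage _⟩
  refine ⟨τ.hom Polynomial.X, ?_⟩
  rw [← hτ]
  congr 1
  apply CommRingCat.hom_ext
  apply Polynomial.ringHom_ext
  · intro r
    have h1 : CommRingCat.ofHom (algebraMap k k[X]) ≫ τ = CommRingCat.ofHom (algebraMap k K) := by
      apply Spec.map_injective
      rw [Spec.map_comp, hτ, ← hg, Category.assoc, Category.assoc, ← q.prod.w, ← a.comm, ← q.comm]
    have h2 := congrArg (fun f => f.hom r) h1
    refine Eq.trans ?_ (eval₂_C (algebraMap k K) (τ.hom Polynomial.X)).symm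
    exact h2
  · exact (eval₂_X (algebraMap k K) (τ.hom Polynomial.X)).symm

/-- The homomorphism from the functions on a chart of `Y` to the field. -/
lemma sigma_chart {s : K} (hs : (g ≫ a.g) ≫ q.t =
      Spec.map (CommRingCat.ofHom (eval₂RingHom (algebraMap k K) s)))
    {R : Type} [CommRing R] [Algebra k R] [Algebra.FiniteType k R] (j : OpenIn (aff k R) X)
    (j' : OpenIn (aff k R[X]) Y) (hq : j'.g ≫ q.q = spm (CC k R) ≫ j.g)
    (ht : j'.g ≫ q.t = Spec.map (CommRingCat.ofHom (Polynomial.mapRingHom (algebraMap k R))))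
    (θ : R →ₐ[k] K) (hθ : sp k θ.toRingHom ≫ j.g = (g ≫ a.g) ≫ q.q) :
    sp k (evs θ s).toRingHom ≫ j'.g = g ≫ a.g := by
  apply q.prod.hom_ext
  · rw [Category.assoc, hq, ← Category.assoc, sp_spm, ← hθ]
    congr 2
    ext r
    exact evs_C θ s r
  · rw [Category.assoc, ht, hs]
    change Spec.map (CommRingCat.ofHom (evs θ s).toRingHom) ≫ Spec.map _ = _
    rw [← Spec.map_comp]
    congr 1
    apply CommRingCat.hom_ext
    apply Polynomial.ringHom_ext
    · intro r
      change evs θ s (Polynomial.map (algebraMap k R) (C r)) = eval₂ (algebraMap k K) s (C r)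
      rw [Polynomial.map_C, evs_C, eval₂_C, AlgHom.commutes]
    · change evs θ s (Polynomial.map (algebraMap k R) Polynomial.X) = eval₂ (algebraMap k K) s Polynomial.X
      rw [Polynomial.map_X, evs_X, eval₂_X]

end Div

section Places

variable {K : Type} [Field K] [Algebra k K] {X : Var k} {x : Spec (CommRingCat.of K) ⟶ X.X}

lemma exists_pl {R : Type} [CommRing R] [Algebra k R] [Algebra.FiniteType k R]
    (j : OpenIn (aff k R) X) (θ : R →ₐ[k] K) (hθ : sp k θ.toRingHom ≫ j.g = x)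
    {O : ValuationSubring K} (h : ∀ r, θ r ∈ O) :
    ∃ y : Spec (CommRingCat.of O) ⟶ X.X, iO O ≫ y = x := by
  refine ⟨sp k (θ.toRingHom.codRestrict O.toSubring h) ≫ j.g, ?_⟩
  rw [← hθ, ← Category.assoc]
  congr 1
  exact sp_comp k O.subtype _

variable (i x) in
/-- The valuation rings whose centre on `X` exists and has dimension `i + 1`, and which do not
contain `s`. -/
def Pl (s : K) : Set (ValuationSubring K) :=
  {O | s ∉ O ∧ ∃ y : Spec (CommRingCat.of O) ⟶ X.X, iO O ≫ y = x ∧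
    X.dim (y (cO O)) = (i + 1 : ℕ)}

lemma mem_VV {R : Type} [CommRing R] [Algebra k R] [Algebra.FiniteType k R]
    (j : OpenIn (aff k R) X) (θ : R →ₐ[k] K) (hθ : sp k θ.toRingHom ≫ j.g = x) {s : K}
    {O : ValuationSubring K} (hs : s ∉ O) {y : Spec (CommRingCat.of O) ⟶ X.X}
    (hy : iO O ≫ y = x) (hd : X.dim (y (cO O)) = (i + 1 : ℕ)) (hc : y (cO O) ∈ Set.range j.g) :
    O ∈ VV i θ s := by
  have h : ∀ r, θ r ∈ O := mem_of_centre j θ hθ hy hc
  let T : PrimeSpectrum R := ⟨RingHom.ker (rhoO θ O h), RingHom.ker_isPrime _⟩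
  have hT := (centre_of_mem j θ hθ hy h).2.2 T rfl
  exact ⟨hs, h, ⟨T, hT.symm.trans hd⟩, rfl⟩

lemma of_mem_VV {R : Type} [CommRing R] [Algebra k R] [Algebra.FiniteType k R]
    (j : OpenIn (aff k R) X) (θ : R →ₐ[k] K) (hθ : sp k θ.toRingHom ≫ j.g = x) {s : K}
    {O : ValuationSubring K} (hO : O ∈ VV i θ s) : s ∉ O ∧
    ∃ y : Spec (CommRingCat.of O) ⟶ X.X, iO O ≫ y = x ∧ X.dim (y (cO O)) = (i + 1 : ℕ) ∧
      y (cO O) ∈ Set.range j.g := by
  obtain ⟨hs, h, T, hT⟩ := hO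
  obtain ⟨y, hy⟩ := exists_pl j θ hθ h
  obtain ⟨-, h2, h3⟩ := centre_of_mem j θ hθ hy h
  exact ⟨hs, y, hy, (h3 T.1 hT).trans T.2, h2⟩

/-- Finitely many valuation rings. -/
theorem finite_Pl {s : K} (hx : x ≫ X.f = Spec.map (CommRingCat.ofHom (algebraMap k K)))
    (H : ∀ (R : Type) [CommRing R] [Algebra k R] [Algebra.FiniteType k R]
      (j : OpenIn (aff k R) X) (θ : R →ₐ[k] K), sp k θ.toRingHom ≫ j.g = x →
      (VV i θ s).Finite) : (Pl i x s).Finite := by
  classical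
  have hcomp : CompactSpace X.X := by
    have h1 : CompactSpace (Spec (CommRingCat.of k)) := inferInstance
    exact QuasiCompact.compactSpace_of_compactSpace X.f
  -- the places with centre in a chart
  have key : ∀ p : X.X, ∃ U : Set X.X, IsOpen U ∧ p ∈ U ∧
      {O : ValuationSubring K | s ∉ O ∧ ∃ y : Spec (CommRingCat.of O) ⟶ X.X, iO O ≫ y = x ∧
        X.dim (y (cO O)) = (i + 1 : ℕ) ∧ y (cO O) ∈ U}.Finite := by
    intro p
    obtain ⟨R, _, _, _, j, hp⟩ := exists_chartAt X p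
    have hj := j.isOpen
    refine ⟨Set.range j.g, j.g.opensRange.2, hp, ?_⟩
    by_cases hpt : x (pt K) ∈ Set.range j.g
    · obtain ⟨θ, hθ⟩ := exists_theta j hx hpt
      apply (H R j θ hθ).subset
      rintro O ⟨hs, y, hy, hd, hc⟩
      exact mem_VV j θ hθ hs hy hd hc
    · convert Set.finite_empty
      rw [Set.eq_empty_iff_forall_notMem]
      rintro O ⟨hs, y, hy, hd, hc⟩
      apply hpt
      rw [← hy, Scheme.Hom.comp_apply]
      have h2 : (iO O) (pt K) ⤳ cO O := IsLocalRing.specializes_closedPoint _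
      exact (h2.map y.continuous).mem_open j.g.opensRange.2 hc
  choose U hU hpU hfin using key
  obtain ⟨t, ht⟩ := isCompact_univ.elim_finite_subcover (fun p : X.X => U p) hU
    (fun p _ => Set.mem_iUnion.mpr ⟨p, hpU p⟩)
  apply (Set.Finite.biUnion t.finite_toSet (fun p _ => hfin p)).subset
  rintro O ⟨hs, y, hy, hd⟩
  obtain ⟨p, hp⟩ := Set.mem_iUnion.mp (ht (Set.mem_univ (y (cO O))))
  obtain ⟨hpt, hp2⟩ := Set.mem_iUnion.mp hp
  exact Set.mem_biUnion (Finset.mem_coe.mpr hpt) ⟨hs, y, hy, hd, hp2⟩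

end Places

end L4

end CUB


end

section

/-!
# CUB2, L4: homotopy invariance of rational equivalence (main theorem)
-/

set_option autoImplicit false

open Polynomial CategoryTheory AlgebraicGeometry Limits

namespace CUB

open Pool.Agent.Lib_helper55.Beil Pool.Agent.Lib_helper66.OneP

namespace L4

variable {k : Type} [Field k] [PerfectField k] {E : Type} [Field E] {i : ℕ}

section Main

variable {X Y W : Var k} (q : Line Y X) [AlgebraicGeometry.IsIntegral W.X] (a : ClosedIn W Y)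

theorem sp_div_aux {K : Type} [Field K] [Algebra k K] (g : Spec (CommRingCat.of K) ⟶ W.X)
    (e : W.X.functionField ⟶ CommRingCat.of K) (he : Ev g e) (hsurj : Function.Surjective e.hom)
    (hg : g ≫ W.f = Spec.map (CommRingCat.ofHom (algebraMap k K)))
    (φ : W.X.functionField) (hφ : φ ≠ 0) (hW : W.dim (genericPoint W.X) = (i + 1 + 1 : ℕ))
    (c : Pts (i + 1) Y →₀ E) (hc : IsDiv a φ c) : ∃ d ∈ ratZero E i X, IsSp q c d := by
  classical
  obtain ⟨s, hs⟩ := exists_s q a g hg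
  obtain ⟨x, hxdef⟩ : ∃ x : Spec (CommRingCat.of K) ⟶ X.X, x = (g ≫ a.g) ≫ q.q := ⟨_, rfl⟩
  have hx : x ≫ X.f = Spec.map (CommRingCat.ofHom (algebraMap k K)) := by
    rw [hxdef, Category.assoc, q.comm, Category.assoc, a.comm, hg]
  have hx1 : x (pt K) = q.q (a.g (genericPoint W.X)) := by
    rw [hxdef, Scheme.Hom.comp_apply, Scheme.Hom.comp_apply, ev_pt he]
  have hf : e.hom φ ≠ 0 := fun h0 => hφ ((map_eq_zero_iff _ e.hom.injective).mp h0)
  -- charts which do not meet the variety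
  have hout : ∀ (R : Type) [CommRing R] [Algebra k R] [Algebra.FiniteType k R]
      (j : OpenIn (aff k R) X) (j' : OpenIn (aff k R[X]) Y), j'.g ≫ q.q = spm (CC k R) ≫ j.g →
      x (pt K) ∉ Set.range j.g → resCyc j' c = 0 := by
    intro R _ _ _ j j' hq hpt
    apply chart_div_zero a φ c hc j'
    rintro ⟨z, hz⟩
    apply hpt
    rw [hx1, ← hz, ← Scheme.Hom.comp_apply, hq, Scheme.Hom.comp_apply]
    exact ⟨_, rfl⟩
  -- the other charts
  have hin : ∀ (R : Type) [CommRing R] [Algebra k R] [Algebra.FiniteType k R]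
      (j : OpenIn (aff k R) X) (θ : R →ₐ[k] K), sp k θ.toRingHom ≫ j.g = x →
      (∃ Q : RP k R[X] (i + 1 + 1), Q.1.asIdeal = RingHom.ker (evs θ s).toRingHom) ∧
      (∀ u : K, ∃ A B : R[X], evs θ s B ≠ 0 ∧ u * evs θ s B = evs θ s A) := by
    intro R _ _ _ j θ hθ
    obtain ⟨j', hq, ht, -⟩ := exists_lineChart q j
    have hσ := sigma_chart q a g hs j j' hq ht θ (hθ.trans hxdef)
    refine ⟨⟨⟨⟨RingHom.ker (evs θ s).toRingHom, RingHom.ker_isPrime _⟩, ?_⟩, rfl⟩, ?_⟩
    · rw [chart_dim a g e he j' (evs θ s).toRingHom hσ _ rfl, hW]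
    · intro u
      obtain ⟨v, rfl⟩ := hsurj u
      exact chart_frac a g e he j' (evs θ s).toRingHom hσ v
  by_cases hs0 : s = 0
  · -- the function `s` vanishes
    refine ⟨0, zero_mem _, ?_⟩
    intro R _ _ _ j j' hq ht c₁ d₁ hc₁ hd₁
    rw [map_zero] at hd₁
    have hd2 : d₁ = 0 := (cyE E i).injective (by rw [← hd₁, map_zero])
    by_cases hpt : x (pt K) ∈ Set.range j.g
    · obtain ⟨θ, hθ⟩ := exists_theta j hx hpt
      have hσ := sigma_chart q a g hs j j' hq ht θ (hθ.trans hxdef)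
      obtain ⟨⟨Q, hQ⟩, hfr⟩ := hin R j θ hθ
      obtain ⟨A, B, hB, hAB⟩ := hfr (e.hom φ)
      have hA : evs θ s A ≠ 0 := by
        rw [← hAB]
        exact mul_ne_zero hf hB
      have hA' : A ∉ Q.1.asIdeal := by rw [hQ]; exact hA
      have hB' : B ∉ Q.1.asIdeal := by rw [hQ]; exact hB
      obtain ⟨cA, hcA⟩ := Asm.s_DVX k R[X] E (i + 1) Q A hA'
      obtain ⟨cB, hcB⟩ := Asm.s_DVX k R[X] E (i + 1) Q B hB'
      obtain ⟨dA, hdA⟩ := Asm.s_B1 k R E i cA
      obtain ⟨dB, hdB⟩ := Asm.s_B1 k R E i cB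
      have h1 : c₁ = cA - cB := (cyE E (i + 1)).injective (by
        rw [← hc₁]
        exact chart_div a g e he j' (evs θ s).toRingHom hσ φ hφ c hc Q hQ A B hA hB hAB cA cB
          hcA hcB)
      obtain ⟨D, -, -, hD⟩ := Asm.s_R k R K E i θ
      have hV : VV i θ s = ∅ := by
        rw [Set.eq_empty_iff_forall_notMem]
        rintro O ⟨h2, -⟩
        apply h2
        rw [hs0]
        exact O.zero_mem
      obtain ⟨hfin, h3⟩ := hD s A Q cA dA hfr hQ hA' hcA hdA
      obtain ⟨hfin2, h4⟩ := hD s B Q cB dB hfr hQ hB' hcB hdB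
      have h5 : dA = 0 := by
        rw [h3]
        apply Finset.sum_eq_zero
        intro O hO
        rw [Set.Finite.mem_toFinset, hV] at hO
        exact absurd hO (Set.notMem_empty _)
      have h6 : dB = 0 := by
        rw [h4]
        apply Finset.sum_eq_zero
        intro O hO
        rw [Set.Finite.mem_toFinset, hV] at hO
        exact absurd hO (Set.notMem_empty _)
      have h7 := (Asm.s_BLIN k R E i cA cB dA dB 1 hdA hdB).2.2.1
      rw [h1, hd2]
      rw [h5, h6, sub_zero] at h7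
      exact h7
    · rw [hout R j j' hq hpt] at hc₁
      have h1 : c₁ = 0 := (cyE E (i + 1)).injective (by rw [← hc₁, map_zero])
      rw [h1, hd2]
      intro p
      rw [Finsupp.sum_zero_index]
      rfl
  · -- the main case
    have hVV : ∀ (R : Type) [CommRing R] [Algebra k R] [Algebra.FiniteType k R]
        (j : OpenIn (aff k R) X) (θ : R →ₐ[k] K), sp k θ.toRingHom ≫ j.g = x →
        (VV i θ s).Finite := by
      intro R _ _ _ j θ hθ
      obtain ⟨⟨Q, hQ⟩, hfr⟩ := hin R j θ hθ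
      have h1 : (1 : R[X]) ∉ Q.1.asIdeal := fun h0 => Q.1.2.ne_top ((Ideal.eq_top_iff_one _).mpr h0)
      obtain ⟨c1, hc1⟩ := Asm.s_DVX k R[X] E (i + 1) Q 1 h1
      obtain ⟨d1, hd1⟩ := Asm.s_B1 k R E i c1
      exact (Asm.s_TDF k R K E i θ s 1 Q c1 d1 hs0 hfr hQ h1 hc1 hd1).choose
    have hPl : (Pl i x s).Finite := finite_Pl hx hVV
    have hD : ∀ O ∈ Pl i x s, ∃ D ∈ ratZero E i X,
      (∀ (R : Type) [CommRing R] [Algebra k R] [Algebra.FiniteType k R] (j : OpenIn (aff k R) X)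
        (θ : R →ₐ[k] K), sp k θ.toRingHom ≫ j.g = x → ∀ (A B : K), B ≠ 0 → e.hom φ * B = A →
        ∀ dA dB : RP k R i →₀ E, IsTD E θ O A s⁻¹ dA → IsTD E θ O B s⁻¹ dB →
        resCyc j D = cyE E i (dA - dB)) ∧
      ∀ (y : Spec (CommRingCat.of O) ⟶ X.X), iO O ≫ y = x →
      ∀ (R : Type) [CommRing R] [Algebra k R] [Algebra.FiniteType k R] (j : OpenIn (aff k R) X),
        y (cO O) ∉ Set.range j.g → resCyc j D = 0 := by
      rintro O ⟨h1, y, hy, hyd⟩
      obtain ⟨D, hD, hD1, hD2⟩ := exists_D (E := E) hy hyd (e.hom φ) s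
      refine ⟨D, hD, hD1, ?_⟩
      intro y' hy' R _ _ _ j hj
      obtain rfl : y = y' := pl_unique hy hy'
      exact hD2 R j hj
    choose! D hD0 hD1 hD2 using hD
    refine ⟨∑ O ∈ hPl.toFinset, D O, Submodule.sum_mem _ (fun O hO => hD0 O
      (hPl.mem_toFinset.mp hO)), ?_⟩
    intro R _ _ _ j j' hq ht c₁ d₁ hc₁ hd₁
    have hj := j.isOpen
    by_cases hpt : x (pt K) ∈ Set.range j.g
    · obtain ⟨θ, hθ⟩ := exists_theta j hx hpt
      have hσ := sigma_chart q a g hs j j' hq ht θ (hθ.trans hxdef)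
      obtain ⟨⟨Q, hQ⟩, hfr⟩ := hin R j θ hθ
      obtain ⟨A, B, hB, hAB⟩ := hfr (e.hom φ)
      have hA : evs θ s A ≠ 0 := by
        rw [← hAB]
        exact mul_ne_zero hf hB
      have hA' : A ∉ Q.1.asIdeal := by rw [hQ]; exact hA
      have hB' : B ∉ Q.1.asIdeal := by rw [hQ]; exact hB
      obtain ⟨cA, hcA⟩ := Asm.s_DVX k R[X] E (i + 1) Q A hA'
      obtain ⟨cB, hcB⟩ := Asm.s_DVX k R[X] E (i + 1) Q B hB'
      obtain ⟨dA, hdA⟩ := Asm.s_B1 k R E i cA
      obtain ⟨dB, hdB⟩ := Asm.s_B1 k R E i cB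
      have h1 : c₁ = cA - cB := (cyE E (i + 1)).injective (by
        rw [← hc₁]
        exact chart_div a g e he j' (evs θ s).toRingHom hσ φ hφ c hc Q hQ A B hA hB hAB cA cB
          hcA hcB)
      have hTA : ∀ O ∈ VV i θ s, ∃ d : RP k R i →₀ E, IsTD E θ O (evs θ s A) s⁻¹ d :=
        fun O hO => Asm.s_TDE k R K E i θ s Q hs0 hfr hQ O hO _ hA
      have hTB : ∀ O ∈ VV i θ s, ∃ d : RP k R i →₀ E, IsTD E θ O (evs θ s B) s⁻¹ d :=
        fun O hO => Asm.s_TDE k R K E i θ s Q hs0 hfr hQ O hO _ hB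
      choose! DA hDA using hTA
      choose! DB hDB using hTB
      obtain ⟨hfin, h3⟩ := Asm.s_TDF k R K E i θ s A Q cA dA hs0 hfr hQ hA' hcA hdA
      obtain ⟨hfin2, h4⟩ := Asm.s_TDF k R K E i θ s B Q cB dB hs0 hfr hQ hB' hcB hdB
      have h5 := h3 DA hDA
      have h6 := h4 DB hDB
      have h7 := (Asm.s_BLIN k R E i cA cB dA dB 1 hdA hdB).2.2.1
      have h8 : d₁ = dA - dB := by
        apply (cyE (k := k) (A := R) E i).injective
        rw [← hd₁, h5, h6, map_sum, ← Finset.sum_sub_distrib, map_sum]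
        symm
        apply Finset.sum_subset_zero_on_sdiff
        · intro O hO
          rw [Set.Finite.mem_toFinset] at hO ⊢
          obtain ⟨g1, y, g2, g3, -⟩ := of_mem_VV j θ hθ hO
          exact ⟨g1, y, g2, g3⟩
        · intro O hO
          rw [Finset.mem_sdiff, Set.Finite.mem_toFinset, Set.Finite.mem_toFinset] at hO
          obtain ⟨hO1, hO2⟩ := hO
          obtain ⟨g1, y, g2, g3⟩ := id hO1
          apply hD2 O hO1 y g2 R j
          intro hcon
          exact hO2 (mem_VV j θ hθ g1 g2 g3 hcon)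
        · intro O hO
          rw [Set.Finite.mem_toFinset] at hO
          obtain ⟨g1, y, g2, g3, -⟩ := of_mem_VV j θ hθ hO
          exact (hD1 O ⟨g1, y, g2, g3⟩ R j θ hθ _ _ hB hAB _ _ (hDA O hO) (hDB O hO)).symm
      rw [h1, h8]
      exact h7
    · rw [hout R j j' hq hpt] at hc₁
      have h1 : c₁ = 0 := (cyE E (i + 1)).injective (by rw [← hc₁, map_zero])
      have h2 : resCyc j (∑ O ∈ hPl.toFinset, D O) = 0 := by
        rw [map_sum]
        apply Finset.sum_eq_zero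
        intro O hO
        rw [Set.Finite.mem_toFinset] at hO
        obtain ⟨g1, y, g2, g3⟩ := id hO
        apply hD2 O hO y g2 R j
        intro hcon
        apply hpt
        rw [← g2, Scheme.Hom.comp_apply]
        have h2 : (iO O) (pt K) ⤳ cO O := IsLocalRing.specializes_closedPoint _
        exact (h2.map y.continuous).mem_open j.g.opensRange.2 hcon
      rw [h2] at hd₁
      have h3 : d₁ = 0 := (cyE E i).injective (by rw [← hd₁, map_zero])
      rw [h1, h3]
      intro p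
      rw [Finsupp.sum_zero_index]
      rfl

/-- The divisor of a rational function specialises to a cycle which is rationally equivalent to
zero. -/
theorem sp_div (φ : W.X.functionField) (hφ : φ ≠ 0)
    (hW : W.dim (genericPoint W.X) = (i + 1 + 1 : ℕ))
    (c : Pts (i + 1) Y →₀ E) (hc : IsDiv a φ c) : ∃ d ∈ ratZero E i X, IsSp q c d := by
  let K : Type := W.X.functionField
  let _ : Field K := inferInstanceAs (Field W.X.functionField)
  let g : Spec (CommRingCat.of K) ⟶ W.X := W.X.fromSpecStalk (genericPoint W.X)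
  let α : CommRingCat.of k ⟶ CommRingCat.of K := Spec.preimage (g ≫ W.f)
  let _ : Algebra k K := α.hom.toAlgebra
  let e : W.X.functionField ⟶ CommRingCat.of K := 𝟙 _
  have he : Ev g e := by
    change Spec.map (𝟙 _) ≫ W.X.fromSpecStalk (genericPoint W.X) = _
    rw [Spec.map_id, Category.id_comp]
  have hg : g ≫ W.f = Spec.map (CommRingCat.ofHom (algebraMap k K)) := (Spec.map_preimage _).symm
  exact sp_div_aux q a g e he (fun y => ⟨y, rfl⟩) hg φ hφ hW c hc

end Main

/-- Homotopy invariance: if the pull-back to `Y = X × A^1` of a cycle `d` on `X` is rationally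
equivalent to zero, then so is `d`. -/
theorem homotopy {X Y : Var k} (q : Line Y X) (d : Pts i X →₀ E) (c : Pts (i + 1) Y →₀ E)
    (h : ∀ y : Pts (i + 1) Y, (∀ h : X.dim (q.q y.1) = i, c y = d ⟨q.q y.1, h⟩) ∧
      (X.dim (q.q y.1) ≠ i → c y = 0)) (hc : c ∈ ratZero E (i + 1) Y) : d ∈ ratZero E i X := by
  have key : ∀ c ∈ ratZero E (i + 1) Y, ∃ d ∈ ratZero E i X, IsSp q c d := by
    intro c hc
    induction hc using Submodule.span_induction with
    | mem c hc =>
      obtain ⟨W, hW, a, φ, h1, h2, h3⟩ := hc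
      exact sp_div q a φ h2 h1 c h3
    | zero => exact ⟨0, zero_mem _, isSp_zero q⟩
    | add x y _ _ hx hy =>
      obtain ⟨x', hx', h1⟩ := hx
      obtain ⟨y', hy', h2⟩ := hy
      exact ⟨x' + y', add_mem hx' hy', isSp_add h1 h2⟩
    | smul r x _ hx =>
      obtain ⟨x', hx', h1⟩ := hx
      exact ⟨r • x', Submodule.smul_mem _ _ hx', isSp_smul r h1⟩
  obtain ⟨d', hd', h1⟩ := key c hc
  rw [isSp_unique (isSp_pull h) h1]
  exact hd'

end L4

end CUB


end

section

/-!
# CUB2: the statement `S_L4` (homotopy invariance of rational equivalence)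
-/

set_option autoImplicit false

namespace CUB

open Pool.Agent.Lib_helper55.Beil

/-- Homotopy invariance: the pull-back `CH_i(X) → CH_(i+1)(X × A^1)` is injective. -/
theorem s_L4 : S_L4 := by
  intro k E _ _ _ _ i Y X L c d h hd
  exact L4.homotopy L c d h hd

end CUB


end
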