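import Mathlib
import Pool.Agent.QVM.C10
import Pool.Agent.QVM.C11
import Pool.Agent.QVM.C22
import Pool.Agent.QVM.C27
import Pool.Agent.QVM.C29
import Pool.Agent.QVM.C30
import Pool.Agent.QVM.C31
import Pool.Agent.QVM.C32
import Pool.Agent.QVM.C33
import Pool.Agent.QVM.C34
import Pool.Agent.QVM.C35
import Pool.Agent.QVM.C37
import Pool.Agent.QVM.C41

/-! Parts: CUB2.Asm2, QCV.F_BAS, QCV.F_RNG, QCV.F_LIN, QCV.F_DBL, QCV.Nil, QCV.G_INV, QCV.G_TC, QCV.G_UNC, QCV.G_CHN -/

section

/-!
# CUB2: assembly of all modules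
-/

set_option autoImplicit false

namespace CUB

namespace Asm2

open CUB.Asm

universe v

theorem s_DST : S_DST := t_DST

theorem s_FDM : S_FDM := t_FDM

theorem s_PFC : S_PFC.{v} := t_PFC.{v}

theorem s_MOD : S_MOD.{v} := t_MOD.{v} s_PFC.{v}

theorem s_REDI : S_REDI.{v} := t_REDI.{v} s_PFC.{v} s_MOD.{v}

theorem s_P0 : S_P0.{v} := t_P0.{v} s_DST s_REDI.{v}

theorem s_CHA : S_CHA := t_CHA

theorem s_DVC : S_DVC := t_DVC s_DST s_CHA s_LENC

theorem s_RDG : S_RDG := t_RDG

theorem s_LSUM : S_LSUM := t_LSUM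

theorem s_LSUQ : S_LSUQ := t_LSUQ s_LSUM

theorem s_NPU : S_NPU := t_NPU s_DIM1 s_NORM s_LSUQ

theorem s_FOV : S_FOV := t_FOV.{0} s_PFC.{0} s_DST s_CHA

theorem s_PUSHD : S_PUSHD :=
    t_PUSHD.{0} s_PFC.{0} s_DST s_DIM1 s_LENC s_DVX s_CHA s_DVC s_RDG s_NPU s_FOV

theorem s_PUSHG : S_PUSHG := t_PUSHG.{0} s_PFC.{0} s_DST s_PUSHD

theorem s_PUSHR : S_PUSHR.{v} := t_PUSHR.{v} s_PFC.{v}

theorem s_PLI : S_PLI := t_PLI

theorem s_PLP : S_PLP := t_PLP

theorem s_PRO : S_PRO := t_PRO s_PLP

theorem s_SEC : S_SEC := t_SEC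

theorem s_DIAG : S_DIAG := t_DIAG

theorem s_AFY : S_AFY := t_AFY s_DIAG

theorem s_GRA : S_GRA := t_GRA

theorem s_LPT : S_LPT := t_LPT

theorem s_GST : S_GST := t_GST s_PLI s_PRO s_SEC s_AFY s_GRA s_LPT

theorem s_PPE : S_PPE := t_PPE

theorem s_SEP : S_SEP := t_SEP

theorem s_QAF : S_QAF := t_QAF s_SEP

theorem s_QEM : S_QEM := t_QEM

theorem s_OPEN : S_OPEN.{v} := t_OPEN.{v}

theorem s_PCY : S_PCY.{v} := t_PCY.{v} s_PFC.{v} s_LPT

theorem s_PULLP : S_PULLP.{v} := t_PULLP.{v} s_PFC.{v} s_PCY.{v}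

theorem s_DESC : S_DESC.{v} := t_DESC.{v} s_PCY.{v} s_PULLP.{v} s_L4

theorem s_CHN : S_CHN.{v} :=
    t_CHN.{v} s_DST s_GST s_PPE s_SEP s_QAF s_QEM s_OPEN.{v} s_MOD.{v} s_DESC.{v} s_REDI.{v}

theorem s_IND : S_IND.{v} := t_IND.{v} s_DST s_FDM s_P0.{v} s_PUSHG s_PUSHR.{v} s_CHN.{v}

end Asm2

end CUB


end

section

/-!
# QCV, block F: small dimensions, zero-cycles, noetherian induction
-/

set_option autoImplicit false

open CategoryTheory AlgebraicGeometry Limits Polynomial TopologicalSpace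

namespace QCV

open Pool.Agent.Lib_helper55.Beil Pool.Agent.Lib_helper66.OneP CUB

universe v

variable {k : Type} [Field k] {E : Type} [Field E] {T : ∀ i : ℕ, Homology.{v} k E i}

/-! ## F6 -/

theorem q1_of_pf {i : ℕ} (T : Homology.{v} k E i) (X : Var k) (h : PF T X) : Q1 T X :=
  ⟨(T.inj_iff X).mpr h.2.1, T.surj_of_good X h.1, T.semisimple_of_good X h.1⟩

/-! ## Empty varieties and reduced structures -/

theorem pf_of_isEmpty (hT : Full T) (i : ℕ) (X : Var k) (h : IsEmpty X.X) : PF (T i) X := by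
  refine ⟨(T i).good_of_subsingleton X ((T i).empty _ X h), ?_, ?_⟩
  · rw [injC_iff]
    intro c _
    have : c = 0 := by
      ext p
      exact (h.false p.1).elim
    rw [this]
    exact zero_mem _
  · intro m _
    exact supp_of_dimLE hT.toExtra i _ _ X (fun x => (h.false x).elim) m

theorem pf_of_red [PerfectField k] (hT : Full T) (hP : Pub T hT) (i : ℕ) (X : Var k)
    (h : PF (T i) (redVar X)) : PF (T i) X :=
  pf_glue hT hP i (redVarIn X) (openVarIn X ⊥) (complementary_red X) h
    (pf_of_isEmpty hT i _ (isEmpty_openVar_bot X))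

/-- The class is invariant under isomorphisms. -/
theorem pf_viso [PerfectField k] (hT : Full T) (hP : Pub T hT) (i : ℕ) {X Y : Var k}
    (s : VIso X Y) (h : PF (T i) X) : PF (T i) Y := by
  have hc : Complementary s.cl (openVarIn Y ⊥) := by
    rw [Complementary, s.range, range_openVarIn]
    simp
  exact pf_glue hT hP i s.cl (openVarIn Y ⊥) hc h
    (pf_of_isEmpty hT i _ (isEmpty_openVar_bot Y))

/-! ## Noetherian induction -/

lemma pf_aux [PerfectField k] (hT : Full T) (hP : Pub T hT) (i : ℕ)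
    (hN : ∀ (V : Var k) (_ : IsIntegral V.X), IsAffine V.X → Smooth V.f → PF (T i) V)
    (X₀ : Var k) (C : Closeds X₀.X) :
    ∀ (Y : Var k) (g : Y.X ⟶ X₀.X), g ≫ X₀.f = Y.f → IsPreimmersion g → (∀ y, g y ∈ C) →
      PF (T i) Y := by
  induction C using WellFoundedLT.induction with
  | ind C ih =>
  intro Y g comm hg hC
  apply pf_of_red hT hP
  have hred := isReduced_redVar Y
  have hcl := (redVarIn Y).closed
  set Y' := redVar Y
  set g' : Y'.X ⟶ X₀.X := (redVarIn Y).g ≫ g
  have comm' : g' ≫ X₀.f = Y'.f := by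
    rw [Category.assoc, comm, (redVarIn Y).comm]
  have hC' : ∀ y, g' y ∈ C := fun y => hC _
  rcases isEmpty_or_nonempty Y'.X with he | ⟨⟨x⟩⟩
  · exact pf_of_isEmpty hT i _ he
  obtain ⟨η, -, hη⟩ := exists_maximal Y' x
  obtain ⟨U, hU1, -, hU3, hU4, hU5, hU6⟩ := exists_nice Y' η hη ⊤ trivial
  have hop := (openVarIn Y' U).isOpen
  refine pf_glue hT hP i (closedVarIn Y' U.compl) (openVarIn Y' U) (complementary_open Y' U) ?_
    (hN _ hU5 hU3 hU4)
  have hcl := (closedVarIn Y' U.compl).closed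
  refine ih (Closeds.closure (g' '' (U.compl : Set Y'.X)))
    (lt_of_closed g' C hC' U.compl η (fun hcon => hcon hU1))
    (closedVar Y' U.compl) ((closedVarIn Y' U.compl).g ≫ g') ?_ inferInstance ?_
  · rw [Category.assoc, comm', (closedVarIn Y' U.compl).comm]
  · intro y
    have h1 : (closedVarIn Y' U.compl).g y ∈ (U.compl : Set Y'.X) := by
      rw [← range_closedVarIn]
      exact ⟨y, rfl⟩
    exact subset_closure ⟨_, h1, rfl⟩

/-- It is enough to treat smooth affine integral varieties. -/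
theorem pf_ind [PerfectField k] (hT : Full T) (hP : Pub T hT) (i : ℕ)
    (hN : ∀ (V : Var k) (_ : IsIntegral V.X), IsAffine V.X → Smooth V.f → PF (T i) V)
    (X : Var k) : PF (T i) X :=
  pf_aux hT hP i hN X ⊤ X (𝟙 _) (Category.id_comp _) inferInstance (fun _ => trivial)

/-! ## F5 and varieties of dimension at most `i` -/

theorem pf_of_dimLE [PerfectField k] (hT : Full T) (hP : Pub T hT) (i : ℕ) (X : Var k)
    (h : X.DimLE i) : PF (T i) X := by
  have h1 : X.DimLE (i + 1 : ℕ) := fun x => (h x).trans (by exact_mod_cast Nat.le_succ i)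
  exact ⟨good_of_dimLE (T i) X h, ((T i).inj_iff X).mp (hP.divisors i X h1),
    fun m _ => supp_of_dimLE hT.toExtra i _ _ X h1 m⟩

/-- F5. -/
theorem good_inj_of_dimLE [PerfectField k] (hT : Full T) (hP : Pub T hT) (i : ℕ) (X : Var k)
    (h : X.DimLE i) : (T i).gen X ≤ (T i).alg X ∧ (T i).Inj X :=
  ⟨good_of_dimLE (T i) X h, ((T i).inj_iff X).mpr (pf_of_dimLE hT hP i X h).2.1⟩

/-! ## Zero-cycles -/

/-- Every zero-cycle on an integral affine variety of positive dimension over a finite field is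
rationally equivalent to zero (rational coefficients). -/
theorem zero_cycles [Finite k] [CharZero E] (A : Type) [CommRing A] [IsDomain A] [Algebra k A]
    [Algebra.FiniteType k A] (h : 0 < Algebra.trdeg k A) (c : RP k A 0 →₀ E) :
    c ∈ rat k A E 0 := by
  induction c using Finsupp.induction_linear with
  | zero => exact zero_mem _
  | add f g hf hg => exact add_mem hf hg
  | single p e =>
    have h1 : Finsupp.single p e = e • Finsupp.single p (1 : E) := by
      rw [Finsupp.smul_single, smul_eq_mul, mul_one]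
    rw [h1]
    refine Submodule.smul_mem _ _ ?_
    have : IsNoetherianRing A := Algebra.FiniteType.isNoetherianRing k A
    have hp0 : rdim k p.1 = 0 := by
      have := p.2
      simpa using this
    have hlt : (⊥ : Ideal A) < p.1.asIdeal := by
      rw [bot_lt_iff_ne_bot]
      intro hb
      have h2 : p.1 = ⟨⊥, Ideal.isPrime_bot⟩ := PrimeSpectrum.ext hb
      rw [h2, rdim_bot] at hp0
      rw [hp0] at h
      exact lt_irrefl _ h
    obtain ⟨q, hq⟩ := LOWD.ZER.exists_covBy p.1 ⊥ Ideal.isPrime_bot hlt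
    have h1 := LOWD.Asm.c_DIM2 k A q p.1 hq
    rw [hp0, zero_add] at h1
    have h2 : rdim k q = ((1 : ℕ) : Cardinal) := by
      rw [← h1]
      simp
    exact LOWD.Asm.s_CLG k A E ⟨q, h2⟩ p hq.lt.le

/-- F3 for `i = 0`: all varieties. -/
theorem pf_zero [Finite k] [CharZero E] (hT : Full T) (hP : Pub T hT) (X : Var k) :
    PF (T 0) X := by
  refine pf_ind hT hP 0 (fun V hint haff hsm => ?_) X
  obtain ⟨d, hd⟩ := t_DST.2.1 k V (genericPoint V.X)
  have hdim : V.DimLE d := fun x => by
    rw [← hd]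
    exact dim_le_of_specializes V (genericPoint_specializes x)
  rcases Nat.lt_or_ge 1 d with h | h
  · have h0 : Subsingleton ((T 0).H 0 V) := (T 0).artin 0 V hint haff hsm (by
      rw [hd]
      exact_mod_cast (by omega : 0 < d))
    have h1 : Subsingleton ((T 0).H 1 V) := (T 0).artin 1 V hint haff hsm (by
      rw [hd]
      exact_mod_cast h)
    refine ⟨(T 0).good_of_subsingleton V h0, ?_, ?_⟩
    · obtain ⟨A, _, _, _, ⟨s⟩⟩ := exists_aff V
      refine injC_of_viso (T 0) s.symm ?_
      have hne : Nonempty (aff k A).X := ⟨s.symm.cl.g (genericPoint V.X)⟩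
      have hs : IsIntegral (aff k A).X := isIntegral_of_isOpenImmersion s.e.hom
      have hdom : IsDomain A := by
        have h3 : IsIntegral (Spec (.of A)) := hs
        exact (affine_isIntegral_iff (CommRingCat.of A)).mp h3
      have htr : 0 < Algebra.trdeg k A := by
        have hcl := s.symm.cl.closed
        have h4 : rdim k (ofPt (s.symm.cl.g (genericPoint V.X))) = (d : Cardinal) := by
          rw [← dim_toPt, toPt_ofPt, dim_map s.symm.cl.g s.symm.cl.comm, hd]
        have h5 : rdim k (ofPt (s.symm.cl.g (genericPoint V.X))) ≤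
            rdim k (⟨⊥, Ideal.isPrime_bot⟩ : PrimeSpectrum A) := rdim_le bot_le
        rw [h4, rdim_bot] at h5
        refine lt_of_lt_of_le ?_ h5
        exact_mod_cast (by omega : 0 < d)
      rw [injC_iff]
      intro c _
      obtain ⟨c, rfl⟩ := (cyE (k := k) (A := A) E 0).surjective c
      exact (cyE_mem c).mpr (zero_cycles A htr c)
    · intro m _
      have : m = 0 := Subsingleton.elim (α := (T 0).H 1 V) _ _
      rw [this]
      exact supp_zero _ _ _ _
  · rcases Nat.eq_zero_or_pos d with h' | h'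
    · subst h'
      exact pf_of_dimLE hT hP 0 V hdim
    · have h2 : d = 1 := by omega
      subst h2
      have h0 : Subsingleton ((T 0).H 0 V) := (T 0).artin 0 V hint haff hsm (by
        rw [hd]
        exact_mod_cast Nat.one_pos)
      exact ⟨(T 0).good_of_subsingleton V h0, ((T 0).inj_iff V).mp (hP.divisors 0 V hdim),
        fun m _ => supp_of_dimLE hT.toExtra 0 _ _ V hdim m⟩

/-- F3. -/
theorem ppf_of_dimLE_one [Finite k] [CharZero E] (hT : Full T) (hP : Pub T hT) (X : Var k)
    (h : X.DimLE (1 : ℕ)) : PPF T X := by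
  intro i
  rcases Nat.eq_zero_or_pos i with h0 | h0
  · subst h0
    exact pf_zero hT hP X
  · exact pf_of_dimLE hT hP i X fun x => (h x).trans (by exact_mod_cast h0)

/-- F4. -/
theorem ppf_of_dimLE_two [Finite k] [CharZero E] (hT : Full T) (hP : Pub T hT)
    (hTate : ∀ X : Var k, X.DimLE (2 : ℕ) → (T 1).Surj X ∧ (T 1).Semisimple X) (X : Var k)
    (h : X.DimLE (2 : ℕ)) : PPF T X := by
  intro i
  rcases Nat.lt_or_ge 1 i with h1 | h1
  · exact pf_of_dimLE hT hP i X fun x => (h x).trans (by exact_mod_cast h1)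
  rcases Nat.eq_zero_or_pos i with h0 | h0
  · subst h0
    exact pf_zero hT hP X
  · have h2 : i = 1 := by omega
    subst h2
    exact ⟨CUB.OPEN.good (T 1) X (hTate X h).1 (hTate X h).2,
      ((T 1).inj_iff X).mp (hP.divisors 1 X h), fun m _ => supp_of_dimLE hT.toExtra 1 _ _ X h m⟩

end QCV


end

section

/-!
# QCV, block F: rings
-/

set_option autoImplicit false

open CategoryTheory AlgebraicGeometry Limits Polynomial TopologicalSpace

namespace QCV

open Pool.Agent.Lib_helper55.Beil Pool.Agent.Lib_helper66.OneP CUB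

universe v

variable {k : Type} [Field k] {E : Type} [Field E] {T : ∀ i : ℕ, Homology.{v} k E i}

/-- The two formulations of the property agree. -/
theorem pi_iff (hT : Extra T) (i : ℕ) (X : Var k) : PI (T i) X ↔ PF (T i) X := by
  constructor
  · rintro ⟨h1, h2, h3⟩
    refine ⟨h1, ((T i).inj_iff X).mp h2, fun m hm => ?_⟩
    obtain ⟨W, hW, a, hdim, w, rfl⟩ := h3 m hm
    exact supp_mk hT i _ _ a hdim w
  · rintro ⟨h1, h2, h3⟩
    refine ⟨h1, ((T i).inj_iff X).mpr h2, fun m hm => ?_⟩
    obtain ⟨C, hC, b, rfl⟩ := h3 m hm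
    exact ⟨closedVar X C, REDI.isReduced_closedVar X C, closedVarIn X C, dimLE_of_mem C hC, b, rfl⟩

theorem pp_iff (hT : Extra T) (X : Var k) : PP T X ↔ PPF T X :=
  ⟨fun h i => (pi_iff hT i X).mp (h i), fun h i => (pi_iff hT i X).mpr (h i)⟩

lemma isEmpty_aff (A : Type) [CommRing A] [Algebra k A] [Algebra.FiniteType k A]
    (h : Subsingleton A) : IsEmpty (aff k A).X := by
  have : IsEmpty (PrimeSpectrum A) := inferInstance
  exact this

theorem cls0_pf [Finite k] [CharZero E] (hT : Full T) (hP : Pub T hT) (i : ℕ) :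
    Cls0 k (fun A [CommRing A] [Algebra k A] [Algebra.FiniteType k A] => PF (T i) (aff k A)) where
  iso := fun e h => pf_viso hT hP i (viso e.symm) h
  triv := fun A _ _ _ h => pf_of_isEmpty hT i _ (isEmpty_aff A h)
  glue := fun a z u s hZ hU => pf_glue hT hP i _ _
    (complementary_away u a s.away z s.surj s.ker) hZ hU
  opn := fun a z u s hA hZ => by
    rcases i with _ | i
    · exact pf_zero hT hP _
    · exact pf_open hT hP i _ _ (complementary_away u a s.away z s.surj s.ker) hA hZ

/-- F1. -/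
theorem cls0_pi [Finite k] [CharZero E] (hT : Full T) (hP : Pub T hT) (i : ℕ) :
    Cls0 k (fun A [CommRing A] [Algebra k A] [Algebra.FiniteType k A] => PI (T i) (aff k A)) := by
  have h := cls0_pf hT hP i
  simp only [pi_iff hT.toExtra]
  exact h

theorem cls0_ppf [Finite k] [CharZero E] (hT : Full T) (hP : Pub T hT) :
    Cls0 k (fun A [CommRing A] [Algebra k A] [Algebra.FiniteType k A] => PPF T (aff k A)) where
  iso := fun e h i => (cls0_pf hT hP i).iso e (h i)
  triv := fun A _ _ _ h i => (cls0_pf hT hP i).triv A h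
  glue := fun a z u s hZ hU i => (cls0_pf hT hP i).glue a z u s (hZ i) (hU i)
  opn := fun a z u s hA hZ i => (cls0_pf hT hP i).opn a z u s (hA i) (hZ i)

/-- The dimension of `Spec A`. -/
lemma dimLE_of_DL {A : Type} [CommRing A] [Algebra k A] [Algebra.FiniteType k A] {d : ℕ}
    (h : DL k A d) : (aff k A).DimLE d := by
  intro x
  have h1 := h (ofPt x)
  rwa [← dim_toPt, toPt_ofPt] at h1

/-- F3. -/
theorem pp_of_dimLE_one [Finite k] [CharZero E] (hT : Full T) (hP : Pub T hT) (X : Var k)
    (h : X.DimLE (1 : ℕ)) : PP T X :=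
  (pp_iff hT.toExtra X).mpr (ppf_of_dimLE_one hT hP X h)

/-- F4. -/
theorem pp_of_dimLE_two [Finite k] [CharZero E] (hT : Full T) (hP : Pub T hT)
    (hTate : ∀ X : Var k, X.DimLE (2 : ℕ) → (T 1).Surj X ∧ (T 1).Semisimple X) (X : Var k)
    (h : X.DimLE (2 : ℕ)) : PP T X :=
  (pp_iff hT.toExtra X).mpr (ppf_of_dimLE_two hT hP hTate X h)

/-- F6. -/
theorem q1_of_pi {i : ℕ} (T : Homology.{v} k E i) (X : Var k) (h : PI T X) : Q1 T X :=
  ⟨h.inj, T.surj_of_good X h.gg, T.semisimple_of_good X h.gg⟩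

end QCV


end

section

/-!
# QCV, block F: products with the affine line
-/

set_option autoImplicit false

open CategoryTheory AlgebraicGeometry Limits Polynomial TopologicalSpace

namespace QCV

open Pool.Agent.Lib_helper55.Beil Pool.Agent.Lib_helper66.OneP CUB

universe v

variable {k : Type} [Field k] {E : Type} [Field E] {T : ∀ i : ℕ, Homology.{v} k E i}

/-- The restriction of a line to an open subvariety. -/
lemma exists_lineRes {Y X V : Var k} (L : Line Y X) (j : OpenIn V X) :
    ∃ (Y' : Var k) (L' : Line Y' V) (l : OpenIn Y' Y), l.g ≫ L.q = L'.q ≫ j.g ∧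
      Set.range l.g = L.q ⁻¹' Set.range j.g := by
  have hj := j.isOpen
  have e1 : LocallyOfFiniteType (L.q ≫ X.f) := by
    rw [L.comm]
    infer_instance
  have e2 : QuasiCompact (L.q ≫ X.f) := by
    rw [L.comm]
    infer_instance
  have e3 : IsSeparated (L.q ≫ X.f) := by
    rw [L.comm]
    infer_instance
  have h1 : LocallyOfFiniteType L.q := locallyOfFiniteType_of_comp L.q X.f
  have h2 : QuasiCompact L.q := QuasiCompact.of_comp L.q X.f
  have h3 : IsSeparated L.q := IsSeparated.of_comp L.q X.f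
  have hP : IsPullback (pullback.fst L.q j.g) (pullback.snd L.q j.g) L.q j.g :=
    IsPullback.of_hasPullback L.q j.g
  let Y' : Var k :=
    { X := pullback L.q j.g
      f := pullback.snd L.q j.g ≫ V.f
      sep := inferInstance
      lft := inferInstance
      qc := inferInstance }
  have hc : pullback.fst L.q j.g ≫ Y.f = pullback.snd L.q j.g ≫ V.f := by
    rw [← L.comm, ← Category.assoc, hP.w, Category.assoc, j.comm]
  have h5 : IsOpenImmersion (pullback.fst L.q j.g) := inferInstance
  let l : OpenIn Y' Y := ⟨pullback.fst L.q j.g, hc, h5⟩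
  let L' : Line Y' V :=
    { q := pullback.snd L.q j.g
      t := pullback.fst L.q j.g ≫ L.t
      comm := rfl
      prod := by
        have h4 := (hP.paste_horiz L.prod.flip).flip
        rw [j.comm] at h4
        exact h4 }
  exact ⟨Y', L', l, hP.w, Scheme.Pullback.range_fst L.q j.g⟩

/-- Supports for a product with the affine line. -/
theorem supp_line (hT : Full T) (hP : Pub T hT) (i : ℕ) {Y X : Var k} (L : Line Y X)
    (hdim : ∀ y, Y.dim y ≤ X.dim (L.q y) + 1)
    (hX : ∀ m ∈ gen1 (T i) X, Supp (T i) (2 * i + 1) (i + 1) X m) :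
    ∀ m ∈ gen1 (T (i + 1)) Y, Supp (T (i + 1)) (2 * (i + 1) + 1) (i + 1 + 1) Y m := by
  intro m hm
  obtain ⟨x, hx⟩ := (hT.line_bij i (2 * i + 1) L).surjective m
  obtain ⟨x', hx', hx2⟩ := maxGen_lift ((T i).frob (2 * i + 1) X)
    ((T (i + 1)).frob (2 * (i + 1) + 1) Y) (hT.line i (2 * i + 1) L)
    (hT.line_frob i (2 * i + 1) L) (m := x) (by
      rw [show hT.line i (2 * i + 1) L x = m from hx]
      exact hm)
  have hx3 : hT.line i (2 * i + 1) L x' = m := hx2.trans hx
  obtain ⟨C, hC, b, hb⟩ := hX x' hx'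
  let j : OpenIn (openVar X C.compl) X := openVarIn X C.compl
  have hc : Complementary (closedVarIn X C) j := by
    rw [Complementary, range_closedVarIn, range_openVarIn]
    simp
  have h1 : (T i).R (2 * i + 1) j x' = 0 := by
    rw [← hb]
    exact ((T i).exact_X (2 * i + 1) _ j hc).apply_apply_eq_zero b
  obtain ⟨Y', L', l, h2, h3⟩ := exists_lineRes L j
  have h4 : (T (i + 1)).R (2 * i + 1 + 2) l (hT.line i (2 * i + 1) L x') =
      hT.line i (2 * i + 1) L' ((T i).R (2 * i + 1) j x') :=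
    hP.lineRes i (2 * i + 1) L L' l j h2 x'
  rw [h1, map_zero, hx3] at h4
  let C' : Closeds Y.X := C.preimage L.q.continuous
  have hc' : Complementary (closedVarIn Y C') l := by
    rw [Complementary, range_closedVarIn, h3, range_openVarIn]
    ext y
    simp [C']
  obtain ⟨z, hz⟩ := ((T (i + 1)).exact_X (2 * i + 1 + 2) (closedVarIn Y C') l hc' m).mp h4
  refine ⟨C', ?_, z, hz⟩
  intro y hy
  have h5 : X.dim (L.q y) ≤ (i + 1 : ℕ) := hC _ hy
  calc Y.dim y ≤ X.dim (L.q y) + 1 := hdim y
    _ ≤ (i + 1 : ℕ) + 1 := by gcongr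
    _ = ((i + 1 + 1 : ℕ) : Cardinal) := by push_cast; ring

theorem inj_line (hT : Extra T) (i : ℕ) (A : Type) [CommRing A] [Algebra k A]
    [Algebra.FiniteType k A] (h : (T i).Inj (aff k A)) : (T (i + 1)).Inj (aff k A[X]) := by
  rw [inj_iff_cls] at h ⊢
  intro c hc
  obtain ⟨v, d, h1, h2⟩ := (CUB.Asm.s_L0 k A E).1 i c
  have h3 : CUB.cls T (i + 1) d = 0 := by
    have := cls_rat T (i + 1) (c - d) h2
    rw [map_sub, hc, zero_sub, neg_eq_zero] at this
    exact this
  have h4 := line_cls T hT (CC k A) (RingEquiv.refl _) (fun _ => rfl) v d h1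
  have h5 : CUB.cls T i v = 0 := (hT.line_bij i (2 * i) _).injective (by
    rw [map_zero]
    exact h4.trans h3)
  have h7 : d ∈ rat k A[X] E (i + 1) := by
    have := CUB.Asm.s_FP k A A[X] E 1 i (CC k A) (CUB.Asm.s_GX.1 k A) ⊥ v d h1 (h v h5)
    rwa [Ideal.map_bot] at this
  have := add_mem h2 h7
  rwa [sub_add_cancel] at this

theorem good_line (hT : Extra T) (i : ℕ) (A : Type) [CommRing A] [Algebra k A]
    [Algebra.FiniteType k A] (h : (T i).gen (aff k A) ≤ (T i).alg (aff k A)) :
    (T (i + 1)).gen (aff k A[X]) ≤ (T (i + 1)).alg (aff k A[X]) := by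
  intro m hm
  let L : Line (aff k A[X]) (aff k A) := lineE (CC k A) (RingEquiv.refl _) (fun _ => rfl)
  obtain ⟨x, hx⟩ := (hT.line_bij i (2 * i) L).surjective m
  obtain ⟨x', hx', hx2⟩ := maxGen_lift ((T i).frob (2 * i) (aff k A))
    ((T (i + 1)).frob (2 * (i + 1)) (aff k A[X])) (hT.line i (2 * i) L)
    (hT.line_frob i (2 * i) L) (m := x) (by
      rw [show hT.line i (2 * i) L x = m from hx]
      exact hm)
  have hx3 : hT.line i (2 * i) L x' = m := hx2.trans hx
  obtain ⟨c, hc⟩ := exists_cls (T i) _ x' (h hx')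
  obtain ⟨c, rfl⟩ := (cyE (k := k) (A := A) E i).surjective c
  have h2 := line_cls T hT (CC k A) (RingEquiv.refl _) (fun _ => rfl) c _
    ((isPull_line_iff (CC k A) (RingEquiv.refl _) (fun _ => rfl) c _).mpr rfl)
  have h3 : m = CUB.cls T (i + 1) (Finsupp.mapDomain (lineP (CC k A) (RingEquiv.refl _)
      (fun _ => rfl)) c) := by
    rw [← hx3, ← hc]
    exact h2
  rw [h3]
  exact (T (i + 1)).linComb_mem_alg _ _

/-- The class is closed under products with the affine line. -/
theorem pf_line (hT : Full T) (hP : Pub T hT) (i : ℕ) (A : Type) [CommRing A] [Algebra k A]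
    [Algebra.FiniteType k A] (h : PF (T i) (aff k A)) : PF (T (i + 1)) (aff k A[X]) := by
  refine ⟨good_line hT.toExtra i A h.1, ((T (i + 1)).inj_iff _).mp
    (inj_line hT.toExtra i A (((T i).inj_iff _).mpr h.2.1)), ?_⟩
  refine supp_line hT hP i (lineE (CC k A) (RingEquiv.refl _) (fun _ => rfl)) ?_ h.2.2
  intro y
  have h1 := ((CUB.Asm.s_GX.1 k A).at' (ofPt y)).1
  have h2 := dim_toPt (k := k) (ofPt y)
  have h3 := dim_toPt (k := k) (PrimeSpectrum.comap (CC k A).toRingHom (ofPt y))
  have h4 : (aff k A[X]).dim y ≤ (aff k A).dim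
      (toPt (PrimeSpectrum.comap (CC k A).toRingHom (ofPt y))) + 1 := by
    have h5 : (aff k A[X]).dim y = rdim k (ofPt y) := h2
    rw [h5, h3]
    have h6 := h1
    rw [Nat.cast_one] at h6
    exact h6
  exact h4

theorem ppf_line [Finite k] [CharZero E] (hT : Full T) (hP : Pub T hT) (A : Type) [CommRing A]
    [Algebra k A] [Algebra.FiniteType k A] (h : PPF T (aff k A)) : PPF T (aff k A[X]) := by
  intro i
  rcases i with _ | i
  · exact pf_zero hT hP _
  · exact pf_line hT hP i A (h i)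

end QCV


end

section

/-!
# QCV, block F: descent along double covers
-/

set_option autoImplicit false

open CategoryTheory AlgebraicGeometry Limits Polynomial TopologicalSpace

namespace QCV

open Pool.Agent.Lib_helper55.Beil Pool.Agent.Lib_helper66.OneP CUB

universe v

variable {k : Type} [Field k] {E : Type} [Field E] {T : ∀ i : ℕ, Homology.{v} k E i}

/-! ## Dimensions -/

section

variable {A : Type} [CommRing A] [Algebra k A] (b c : A)

lemma finOn_drHom : LOWD.FinOn (drHom b c k) ⊤ := by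
  intro h _
  obtain ⟨M, hM⟩ := (inferInstance : Module.Finite A (Dr A b c)).fg_top
  refine ⟨M, fun x => ?_⟩
  have hx : x ∈ Submodule.span A (M : Set (Dr A b c)) := by
    rw [hM]
    trivial
  rw [Submodule.mem_span_finset] at hx
  obtain ⟨f, _, hf⟩ := hx
  refine ⟨0, f, ?_⟩
  rw [pow_zero, one_mul, ← hf]
  refine Finset.sum_congr rfl fun m _ => ?_
  exact Algebra.smul_def _ _

lemma rdim_drHom (q : PrimeSpectrum (Dr A b c)) :
    rdim k (PrimeSpectrum.comap (drHom b c k).toRingHom q) = rdim k q := by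
  refine (LOWD.Asm.s_FLD k A _ (drHom b c k) ⊤ (finOn_drHom b c) q ?_).2.2.1
  intro h
  exact (PrimeSpectrum.comap (drHom b c k).toRingHom q).2.ne_top (top_le_iff.mp h)

variable [Algebra.FiniteType k A]

lemma dim_dbl (y : (aff k (Dr A b c)).X) :
    (aff k A).dim ((dbl b c k).g y) = (aff k (Dr A b c)).dim y := by
  have h1 := dim_toPt (k := k) (ofPt y)
  have h2 := dim_toPt (k := k) (PrimeSpectrum.comap (drHom b c k).toRingHom (ofPt y))
  rw [rdim_drHom] at h2
  exact h2.trans h1.symm

end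

/-! ## The generalised eigenspace in degree `2 i` -/

theorem good_dbl [CharZero E] (hT : Full T) (S : DblMaps T) (hF : S.Frobenius)
    (hD : S.Degree hT.toProperMaps) (i : ℕ) (A : Type) [CommRing A] [Algebra k A]
    [Algebra.FiniteType k A] (b c : A)
    (h : (T i).gen (aff k (Dr A b c)) ≤ (T i).alg (aff k (Dr A b c))) :
    (T i).gen (aff k A) ≤ (T i).alg (aff k A) := by
  intro m hm
  have h1 : S.pb i (2 * i) A b c m ∈ (T i).gen (aff k (Dr A b c)) :=
    maxGen_map ((T i).frob (2 * i) (aff k A)) ((T i).frob (2 * i) (aff k (Dr A b c)))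
      (S.pb i (2 * i) A b c) (hF i (2 * i) A b c) hm
  obtain ⟨z, hz⟩ := exists_cls (T i) _ _ (h h1)
  have h2 := (CUB.Asm2.s_PFC.{v}).2.2.2.1 k E T hT i _ _ (dbl b c k) z
  have h3 : hT.G i (2 * i) (dbl b c k) (clz (T i) _ z) = (2 : E) • m := by
    have h4 := hD i (2 * i) A b c m
    have h5 : clz (T i) _ z = S.D i (2 * i) A b c m := hz
    rw [h5]
    exact h4
  rw [h3] at h2
  have h6 : m = (2 : E)⁻¹ • clz (T i) _ (pfc E i (dbl b c k) z) := by
    rw [h2, smul_smul, inv_mul_cancel₀ (two_ne_zero), one_smul]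
  rw [h6]
  exact Submodule.smul_mem _ _ ((T i).linComb_mem_alg _ _)

/-! ## Injectivity -/

lemma exists_dbl (S : DblMaps T) (hC : S.Classes) (i : ℕ) (A : Type) [CommRing A] [Algebra k A]
    [Algebra.FiniteType k A] (b c : A) (x : Pts i (aff k A) →₀ E) :
    ∃ z : Pts i (aff k (Dr A b c)) →₀ E,
      clz (T i) _ z = S.pb i (2 * i) A b c (clz (T i) _ x) ∧
        pfc E i (dbl b c k) z = (2 : E) • x := by
  induction x using Finsupp.induction_linear with
  | zero =>
    refine ⟨0, ?_, ?_⟩
    · have h1 : clz (T i) (aff k (Dr A b c)) (0 : Pts i (aff k (Dr A b c)) →₀ E) = 0 := map_zero _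
      have h2 : clz (T i) (aff k A) (0 : Pts i (aff k A) →₀ E) = 0 := map_zero _
      rw [h1, h2, map_zero]
    · rw [map_zero, smul_zero]
  | add x y hx hy =>
    obtain ⟨z, h1, h2⟩ := hx
    obtain ⟨w, h3, h4⟩ := hy
    refine ⟨z + w, ?_, ?_⟩
    · have h5 := cls_add (T i) (aff k (Dr A b c)) z w
      have h6 := cls_add (T i) (aff k A) x y
      change Pool.Agent.Lib_helper66.OneP.cls (T i) _ (z + w) =
        S.pb i (2 * i) A b c (Pool.Agent.Lib_helper66.OneP.cls (T i) _ (x + y))
      rw [h5, h6, map_add, ← h1, ← h3]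
    · rw [map_add, h2, h4, smul_add]
  | single p e =>
    obtain ⟨z, h1, h2⟩ := hC i A b c p
    refine ⟨e • z, ?_, ?_⟩
    · have h5 : clz (T i) (aff k (Dr A b c)) (e • z) = e • clz (T i) (aff k (Dr A b c)) z :=
        map_smul (Finsupp.linearCombination E ((T i).cl (aff k (Dr A b c)))) e z
      have h6 : clz (T i) (aff k A) (Finsupp.single p e) = e • (T i).cl (aff k A) p :=
        Finsupp.linearCombination_single E e p
      rw [h5, h6, map_smul]
      congr 1
    · rw [map_smul, h2, Finsupp.smul_single, Finsupp.smul_single, smul_eq_mul, smul_eq_mul,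
        mul_comm]

theorem injC_dbl [CharZero E] (S : DblMaps T) (hC : S.Classes) (i : ℕ) (A : Type) [CommRing A]
    [Algebra k A] [Algebra.FiniteType k A] (b c : A) (h : (T i).InjC (aff k (Dr A b c))) :
    (T i).InjC (aff k A) := by
  rw [injC_iff] at h ⊢
  intro x hx
  obtain ⟨z, h1, h2⟩ := exists_dbl S hC i A b c x
  have h3 : clz (T i) _ z = 0 := by
    rw [h1, show clz (T i) _ x = 0 from hx, map_zero]
  have h4 := CUB.Asm2.s_PUSHG k E i _ _ (dbl b c k) (fun y hy => by rw [dim_dbl, hy]) z (h z h3)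
  rw [h2] at h4
  have h5 := Submodule.smul_mem _ (2 : E)⁻¹ h4
  rwa [smul_smul, inv_mul_cancel₀ (two_ne_zero), one_smul] at h5

/-! ## Supports -/

/-- The image of a closed set under a proper morphism. -/
lemma supp_pf (hT : Full T) (i n e : ℕ) {X Y : Var k} (f : PrMor X Y) (m : (T i).H n X)
    (h : Supp (T i) n e X m) : Supp (T i) n e Y (hT.G i n f m) := by
  obtain ⟨C, hC, b, rfl⟩ := h
  have hred := REDI.isReduced_closedVar X C
  have hpr := f.proper
  let C' : Closeds Y.X := ⟨f.g '' (C : Set X.X), f.g.isClosedMap _ C.2⟩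
  have h1 : ∀ w, ((closedVarIn X C).g ≫ f.g) w ∈ C' := by
    intro w
    rw [Scheme.Hom.comp_apply]
    refine ⟨_, ?_, rfl⟩
    rw [← range_closedVarIn]
    exact ⟨w, rfl⟩
  obtain ⟨l, h2⟩ : ∃ l : (closedVar X C).X ⟶ (closedVar Y C').X,
      l ≫ (closedVarIn Y C').g = (closedVarIn X C).g ≫ f.g := ⟨liftC _ C' h1, liftC_comp _ _ _⟩
  let g : PrMor (closedVar X C) (closedVar Y C') :=
    { g := l
      comm := by
        rw [← (closedVarIn Y C').comm, ← Category.assoc, h2, Category.assoc, f.comm,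
          (closedVarIn X C).comm]
      proper := by
        have h3 : IsProper (l ≫ (closedVarIn Y C').g) := by
          rw [h2]
          infer_instance
        exact IsProper.of_comp l (closedVarIn Y C').g }
  refine ⟨C', ?_, hT.G i n g b, ?_⟩
  · rintro _ ⟨x, hx, rfl⟩
    exact ((CUB.Asm2.s_PFC.{v}).1 k X Y f.g f.comm x).trans (hC x hx)
  · rw [← hT.pfClosed i n (closedVarIn Y C') (clPr (closedVarIn Y C')) rfl,
      ← hT.pfClosed i n (closedVarIn X C) (clPr (closedVarIn X C)) rfl]
    rw [hT.pfFunctorial i n g (clPr (closedVarIn Y C')) ((clPr (closedVarIn X C)).trans f) h2,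
      hT.pfFunctorial i n (clPr (closedVarIn X C)) f ((clPr (closedVarIn X C)).trans f) rfl]

lemma supp_smul (i n e : ℕ) (X : Var k) (r : E) (m : (T i).H n X)
    (h : Supp (T i) n e X m) : Supp (T i) n e X (r • m) := by
  obtain ⟨C, hC, b, rfl⟩ := h
  exact ⟨C, hC, r • b, map_smul ((T i).push n (closedVarIn X C)) r b⟩

theorem supp_dbl [CharZero E] (hT : Full T) (S : DblMaps T) (hF : S.Frobenius)
    (hD : S.Degree hT.toProperMaps) (i : ℕ) (A : Type) [CommRing A] [Algebra k A]
    [Algebra.FiniteType k A] (b c : A)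
    (h : ∀ m ∈ gen1 (T i) (aff k (Dr A b c)), Supp (T i) (2 * i + 1) (i + 1) _ m) :
    ∀ m ∈ gen1 (T i) (aff k A), Supp (T i) (2 * i + 1) (i + 1) (aff k A) m := by
  intro m hm
  have h1 : S.pb i (2 * i + 1) A b c m ∈ gen1 (T i) (aff k (Dr A b c)) :=
    maxGen_map ((T i).frob (2 * i + 1) (aff k A)) ((T i).frob (2 * i + 1) (aff k (Dr A b c)))
      (S.pb i (2 * i + 1) A b c) (hF i (2 * i + 1) A b c) hm
  have h2 := supp_pf hT i _ _ (dbl b c k) _ (h _ h1)
  have h3 : hT.G i (2 * i + 1) (dbl b c k) (S.pb i (2 * i + 1) A b c m) = (2 : E) • m :=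
    hD i (2 * i + 1) A b c m
  rw [h3] at h2
  have h4 := supp_smul i _ _ _ (2 : E)⁻¹ _ h2
  rwa [smul_smul, inv_mul_cancel₀ (two_ne_zero), one_smul] at h4

theorem pf_dbl [CharZero E] (hT : Full T) (hP : Pub T hT) (i : ℕ) (A : Type) [CommRing A]
    [Algebra k A] [Algebra.FiniteType k A] (b c : A) (h : PF (T i) (aff k (Dr A b c))) :
    PF (T i) (aff k A) := by
  obtain ⟨S, hF, hD, hC⟩ := hP.dbl
  exact ⟨good_dbl hT S hF hD i A b c h.1, injC_dbl S hC i A b c h.2.1,
    supp_dbl hT S hF hD i A b c h.2.2⟩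

/-! ## F2 -/

/-- F2. -/
theorem cls_pp [Finite k] [CharZero E] (hT : Full T) (hP : Pub T hT) (d : ℕ)
    (hd : ∀ X : Var k, X.DimLE d → PP T X) :
    Cls k d (fun A [CommRing A] [Algebra k A] [Algebra.FiniteType k A] => PP T (aff k A)) where
  iso := fun e h i => (cls0_pi hT hP i).iso e (h i)
  triv := fun A _ _ _ h i => (cls0_pi hT hP i).triv A h
  glue := fun a z u s hZ hU i => (cls0_pi hT hP i).glue a z u s (hZ i) (hU i)
  opn := fun a z u s hA hZ i => (cls0_pi hT hP i).opn a z u s (hA i) (hZ i)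
  line := fun A _ _ _ h => (pp_iff hT.toExtra _).mpr
    (ppf_line hT hP A ((pp_iff hT.toExtra _).mp h))
  dbl := fun A _ _ _ b c h i => (pi_iff hT.toExtra i _).mpr
    (pf_dbl hT hP i A b c ((pi_iff hT.toExtra i _).mp (h i)))
  base := fun A _ _ _ h => hd _ (dimLE_of_DL h)

/-- F5. -/
theorem pi_of_dimLE [PerfectField k] (hT : Full T) (hP : Pub T hT) (i : ℕ) (X : Var k)
    (h : X.DimLE i) : PI (T i) X :=
  (pi_iff hT.toExtra i X).mpr (pf_of_dimLE hT hP i X h)

end QCV


end

section

/-!
# QCV: invariance under nilpotent thickenings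
-/

set_option autoImplicit false

open CategoryTheory AlgebraicGeometry Limits Polynomial TopologicalSpace

namespace QCV

open Pool.Agent.Lib_helper55.Beil Pool.Agent.Lib_helper66.OneP CUB

universe v

variable {k : Type} [Field k] {E : Type} [Field E]

/-- A closed immersion from a reduced variety factors through a closed immersion with larger
image. -/
lemma exists_factor_range {Z X W : Var k} (a : ClosedIn Z X) [IsReduced W.X] (c : ClosedIn W X)
    (h : Set.range c.g ⊆ Set.range a.g) : ∃ l : ClosedIn W Z, l.g ≫ a.g = c.g := by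
  have h1 : a.g.ker ≤ Scheme.IdealSheafData.vanishingIdeal (ran a) := by
    rw [← Scheme.IdealSheafData.le_support_iff_le_vanishingIdeal]
    intro x hx
    have h3 : ((a.g.ker.support : Closeds X.X) : Set X.X) = closure (Set.range a.g) :=
      Scheme.Hom.support_ker _
    change x ∈ ((a.g.ker.support : Closeds X.X) : Set X.X)
    rw [h3]
    exact subset_closure hx
  have h2 : a.g.ker ≤ c.g.ker := h1.trans (vanishingIdeal_le_ker c.g _ (fun w => h ⟨w, rfl⟩))
  have h4 : IsClosedImmersion.lift a.g c.g h2 ≫ a.g = c.g := IsClosedImmersion.lift_fac _ _ _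
  have h5 : IsClosedImmersion (IsClosedImmersion.lift a.g c.g h2) := by
    have : IsClosedImmersion (IsClosedImmersion.lift a.g c.g h2 ≫ a.g) := by
      rw [h4]
      infer_instance
    exact IsClosedImmersion.of_comp (IsClosedImmersion.lift a.g c.g h2) a.g
  refine ⟨⟨IsClosedImmersion.lift a.g c.g h2, ?_, h5⟩, h4⟩
  rw [← a.comm, ← Category.assoc, h4, c.comm]

/-- A closed immersion from a reduced variety factors through every surjective closed immersion. -/
lemma exists_factor_red {Z X W : Var k} (a : ClosedIn Z X) (hs : Function.Surjective a.g)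
    [IsReduced W.X] (c : ClosedIn W X) : ∃ l : ClosedIn W Z, l.g ≫ a.g = c.g :=
  exists_factor_range a c (by rw [hs.range_eq]; exact Set.subset_univ _)

variable {T : ∀ i : ℕ, Homology.{v} k E i}

lemma complementary_surj {Z X : Var k} (a : ClosedIn Z X) (hs : Function.Surjective a.g) :
    Complementary a (openVarIn X ⊥) := by
  rw [Complementary, hs.range_eq, range_openVarIn]
  simp

lemma push_injective_surj (hT : Full T) (i n : ℕ) {Z X : Var k} (a : ClosedIn Z X)
    (hs : Function.Surjective a.g) (m : (T i).H n Z) (h : (T i).P n a m = 0) : m = 0 := by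
  obtain ⟨u, rfl⟩ := (hT.bdExact i n a (openVarIn X ⊥) (complementary_surj a hs) m).mp h
  have h1 := (T i).empty (n + 1) _ (isEmpty_openVar_bot X)
  have h2 : u = 0 := Subsingleton.elim _ _
  rw [h2]
  exact map_zero (hT.bd i n a (openVarIn X ⊥) (complementary_surj a hs))

lemma push_inj_surj (hT : Full T) (i n : ℕ) {Z X : Var k} (a : ClosedIn Z X)
    (hs : Function.Surjective a.g) (m m' : (T i).H n Z) (h : (T i).P n a m = (T i).P n a m') :
    m = m' := by
  rw [← sub_eq_zero]
  apply push_injective_surj hT i n a hs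
  exact (map_sub ((T i).push n a) m m').trans (sub_eq_zero.mpr h)

/-- The property `PF` is inherited by closed subvarieties with the same points. -/
theorem pf_nil (hT : Full T) (i : ℕ) {Z X : Var k} (a : ClosedIn Z X)
    (hs : Function.Surjective a.g) (h : PF (T i) X) : PF (T i) Z := by
  refine ⟨?_, ?_, ?_⟩
  · intro m hm
    have h1 : (T i).P (2 * i) a m ∈ (T i).gen X :=
      maxGen_map ((T i).frob (2 * i) Z) ((T i).frob (2 * i) X) ((T i).push (2 * i) a)
        ((T i).push_frob (2 * i) a) hm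
    obtain ⟨c, hc⟩ := exists_cls (T i) X _ (h.1 h1)
    obtain ⟨c', rfl⟩ := exists_pushCyc a (openVarIn X ⊥) (complementary_surj a hs) c (by
      ext u
      exact ((isEmpty_openVar_bot X).false u.1).elim)
    have h2 : m = cls (T i) Z c' := by
      apply push_inj_surj hT i (2 * i) a hs
      rw [push_cls', hc]
    rw [h2]
    exact (T i).linComb_mem_alg _ _
  · rw [injC_iff]
    intro c hc
    have h1 : cls (T i) X (pushCyc a c) = 0 := by
      rw [← push_cls', hc]
      exact map_zero ((T i).push (2 * i) a)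
    obtain ⟨C, -, c', hc', h2⟩ := ratZero_supp X _ ((injC_iff (T i) X).1 h.2.1 _ h1)
    have hred := REDI.isReduced_closedVar X C
    obtain ⟨l, hl⟩ := exists_factor_red a hs (closedVarIn X C)
    have h3 : pushCyc l c' = c := by
      apply pushCyc_injective a
      rw [pushCyc_comp l a (closedVarIn X C) hl, h2]
    rw [← h3]
    exact pushCyc_ratZero l _ hc'
  · intro m hm
    have h1 : (T i).P (2 * i + 1) a m ∈ gen1 (T i) X :=
      maxGen_map ((T i).frob (2 * i + 1) Z) ((T i).frob (2 * i + 1) X)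
        ((T i).push (2 * i + 1) a) ((T i).push_frob (2 * i + 1) a) hm
    obtain ⟨C, hC, b, hb⟩ := h.2.2 _ h1
    have hred := REDI.isReduced_closedVar X C
    obtain ⟨l, hl⟩ := exists_factor_red a hs (closedVarIn X C)
    have h3 : (T i).P (2 * i + 1) l b = m := by
      apply push_inj_surj hT i (2 * i + 1) a hs
      rw [hT.push_comp i (2 * i + 1) _ _ _ l a (closedVarIn X C) hl, hb]
    rw [← h3]
    exact supp_mk hT.toExtra i _ _ l (dimLE_of_mem C hC) b

end QCV


end

section

/-!
# QCV, block G: anti-invariant homology classes for an involution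
-/

set_option autoImplicit false

open CategoryTheory AlgebraicGeometry Limits Polynomial TopologicalSpace

namespace QCV

open Pool.Agent.Lib_helper55.Beil Pool.Agent.Lib_helper66.OneP CUB

universe v

variable {k : Type} [Field k] {E : Type} [Field E] {T : ∀ i : ℕ, Homology.{v} k E i}

/-! ## Linearity -/

section Lin

variable {i : ℕ} (T : Homology.{v} k E i) (n : ℕ) {Z X : Var k} (a : ClosedIn Z X)

lemma hP_add (x y : T.H n Z) : T.P n a (x + y) = T.P n a x + T.P n a y := map_add (T.push n a) x y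

lemma hP_sub (x y : T.H n Z) : T.P n a (x - y) = T.P n a x - T.P n a y := map_sub (T.push n a) x y

lemma hP_neg (x : T.H n Z) : T.P n a (-x) = -T.P n a x := map_neg (T.push n a) x

lemma hP_zero : T.P n a 0 = 0 := map_zero (T.push n a)

lemma hP_smul (r : E) (x : T.H n Z) : T.P n a (r • x) = r • T.P n a x := map_smul (T.push n a) r x

end Lin

/-! ## Involutions -/

/-- `t` is an involution. -/
def Inv {V : Var k} (t : ClosedIn V V) : Prop := t.g ≫ t.g = 𝟙 V.X

lemma Inv.isIso {V : Var k} {t : ClosedIn V V} (h : Inv t) : IsIso t.g := ⟨t.g, h, h⟩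

/-- An involution as an isomorphism. -/
def Inv.viso {V : Var k} {t : ClosedIn V V} (h : Inv t) : VIso V V where
  e := ⟨t.g, t.g, h, h⟩
  comm := t.comm

lemma Inv.viso_cl {V : Var k} {t : ClosedIn V V} (h : Inv t) : h.viso.cl = t :=
  closedIn_ext rfl

lemma inv_closed {W V : Var k} (a : ClosedIn W V) (t : ClosedIn V V) (r : ClosedIn W W)
    (ht : Inv t) (h : r.g ≫ a.g = a.g ≫ t.g) : Inv r := by
  have h1 : (r.g ≫ r.g) ≫ a.g = 𝟙 W.X ≫ a.g := by
    rw [Category.assoc, h, ← Category.assoc, h, Category.assoc, ht, Category.comp_id,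
      Category.id_comp]
  exact (cancel_mono a.g).mp h1

lemma inv_open {U V : Var k} (j : OpenIn U V) (t : ClosedIn V V) (r : ClosedIn U U)
    (ht : Inv t) (h : r.g ≫ j.g = j.g ≫ t.g) : Inv r := by
  have h1 : (r.g ≫ r.g) ≫ j.g = 𝟙 U.X ≫ j.g := by
    rw [Category.assoc, h, ← Category.assoc, h, Category.assoc, ht, Category.comp_id,
      Category.id_comp]
  exact (cancel_mono j.g).mp h1

lemma inv_P (hT : Extra T) (i n : ℕ) {V : Var k} (t : ClosedIn V V) (ht : Inv t)
    (u : (T i).H n V) : (T i).P n t ((T i).P n t u) = u := by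
  rw [hT.push_comp i n _ _ _ t t (idIn V) ht]
  exact hT.push_id i n V (idIn V) rfl u

/-- The anti-invariant part. -/
lemma anti_avg [CharZero E] (hT : Extra T) (i n : ℕ) {V : Var k} (t : ClosedIn V V) (ht : Inv t)
    (u : (T i).H n V) :
    (T i).P n t ((2 : E)⁻¹ • (u - (T i).P n t u)) = -((2 : E)⁻¹ • (u - (T i).P n t u)) := by
  rw [hP_smul, hP_sub, inv_P hT i n t ht, ← smul_neg, neg_sub]

lemma avg_anti [CharZero E] {M : Type*} [AddCommGroup M] [Module E M] (u v : M) (h : v = -u) :
    (2 : E)⁻¹ • (u - v) = u := by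
  rw [h, sub_neg_eq_add, ← two_smul E u, smul_smul, inv_mul_cancel₀ two_ne_zero, one_smul]

/-! ## The properties -/

/-- The anti-invariant classes of degree `n` in the generalised eigenspace have support of
dimension at most `e`. -/
def AM {i : ℕ} (T : Homology.{v} k E i) (n e : ℕ) (V : Var k) (t : ClosedIn V V) : Prop :=
  ∀ u ∈ genN T n V, T.P n t u = -u → Supp T n e V u

/-- The anti-invariant classes on stable subvarieties of dimension at most `e` which become zero
do so on a subvariety of dimension at most `e + 1`. -/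
def BM {i : ℕ} (T : Homology.{v} k E i) (n e : ℕ) (V : Var k) (t : ClosedIn V V) : Prop :=
  ∀ (W : Var k) [IsReduced W.X] (a : ClosedIn W V) (r : ClosedIn W W), r.g ≫ a.g = a.g ≫ t.g →
    W.DimLE e → ∀ w ∈ genN T n W, T.P n r w = -w → T.P n a w = 0 →
      ∃ (C : Closeds V.X) (h : ∀ x, a.g x ∈ C), (∀ x ∈ C, V.dim x ≤ (e + 1 : ℕ)) ∧
        T.P n (factorC a C h) w = 0

/-- The anti-invariant classes on stable subvarieties of dimension at most `e` become zero on a
subvariety of dimension at most `e + 1`. -/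
def BU {i : ℕ} (T : Homology.{v} k E i) (n e : ℕ) (V : Var k) (t : ClosedIn V V) : Prop :=
  ∀ (W : Var k) [IsReduced W.X] (a : ClosedIn W V) (r : ClosedIn W W), r.g ≫ a.g = a.g ≫ t.g →
    W.DimLE e → ∀ w : T.H n W, T.P n r w = -w →
      ∃ (C : Closeds V.X) (h : ∀ x, a.g x ∈ C), (∀ x ∈ C, V.dim x ≤ (e + 1 : ℕ)) ∧
        T.P n (factorC a C h) w = 0

/-- There are no anti-invariant classes. -/
def HU {i : ℕ} (T : Homology.{v} k E i) (n : ℕ) (V : Var k) (t : ClosedIn V V) : Prop :=
  ∀ u : T.H n V, T.P n t u = -u → u = 0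

/-! ## Stable closed subsets -/

/-- The smallest stable closed subset which contains `C`. -/
def stab {V : Var k} (t : ClosedIn V V) (C : Closeds V.X) : Closeds V.X :=
  C ⊔ C.preimage t.g.continuous

lemma inv_apply {V : Var k} {t : ClosedIn V V} (ht : Inv t) (x : V.X) : t.g (t.g x) = x := by
  rw [← Scheme.Hom.comp_apply, show t.g ≫ t.g = 𝟙 V.X from ht]
  rfl

lemma stab_stable {V : Var k} {t : ClosedIn V V} (ht : Inv t) (C : Closeds V.X) :
    ∀ x ∈ stab t C, t.g x ∈ stab t C := by
  rintro x (hx | hx)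
  · refine Or.inr ?_
    change t.g (t.g x) ∈ C
    rw [inv_apply ht]
    exact hx
  · exact Or.inl hx

lemma le_stab {V : Var k} (t : ClosedIn V V) (C : Closeds V.X) : C ≤ stab t C := le_sup_left

lemma stab_dim {V : Var k} (t : ClosedIn V V) (C : Closeds V.X) (e : ℕ)
    (h : ∀ x ∈ C, V.dim x ≤ e) : ∀ x ∈ stab t C, V.dim x ≤ e := by
  rintro x (hx | hx)
  · exact h x hx
  · rw [← dim_map t.g t.comm]
    exact h _ hx

/-- The involution of a stable closed subvariety. -/
noncomputable def stC {V : Var k} (t : ClosedIn V V) (C : Closeds V.X)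
    (h : ∀ x ∈ C, t.g x ∈ C) : ClosedIn (closedVar V C) (closedVar V C) :=
  have := REDI.isReduced_closedVar V C
  factorC ((closedVarIn V C).trans t) C (fun w => by
    change ((closedVarIn V C).g ≫ t.g) w ∈ C
    rw [Scheme.Hom.comp_apply]
    apply h
    have h1 : (closedVarIn V C).g w ∈ (C : Set V.X) := by
      rw [← range_closedVarIn]
      exact ⟨w, rfl⟩
    exact h1)

lemma stC_comp {V : Var k} (t : ClosedIn V V) (C : Closeds V.X) (h : ∀ x ∈ C, t.g x ∈ C) :
    (stC t C h).g ≫ (closedVarIn V C).g = (closedVarIn V C).g ≫ t.g :=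
  have := REDI.isReduced_closedVar V C
  factorC_comp ((closedVarIn V C).trans t) C _

/-- Support on a stable subset. -/
lemma supp_stable [CharZero E] (hT : Extra T) (i n e : ℕ) {V : Var k} (t : ClosedIn V V)
    (ht : Inv t) (u : (T i).H n V) (hu : (T i).P n t u = -u) (h : Supp (T i) n e V u) :
    ∃ (C : Closeds V.X) (hC : ∀ x ∈ C, t.g x ∈ C), (∀ x ∈ C, V.dim x ≤ e) ∧
      ∃ w : (T i).H n (closedVar V C), (T i).P n (stC t C hC) w = -w ∧
        (T i).P n (closedVarIn V C) w = u := by
  obtain ⟨C₀, hC₀, w₀, rfl⟩ := h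
  refine ⟨stab t C₀, stab_stable ht C₀, stab_dim t C₀ e hC₀, ?_⟩
  set C := stab t C₀
  have hC := stab_stable ht C₀
  let w₁ := (T i).P n (closedVarMap V (le_stab t C₀)) w₀
  have hw₁ : (T i).P n (closedVarIn V C) w₁ = (T i).P n (closedVarIn V C₀) w₀ :=
    hT.push_comp i n _ _ _ _ _ _ (closedVarMap_comp V (le_stab t C₀)) w₀
  have hinv : Inv (stC t C hC) := inv_closed (closedVarIn V C) t _ ht (stC_comp t C hC)
  refine ⟨(2 : E)⁻¹ • (w₁ - (T i).P n (stC t C hC) w₁), anti_avg hT i n _ hinv w₁, ?_⟩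
  rw [hP_smul, hP_sub, hT.push_comp i n _ _ _ (stC t C hC) (closedVarIn V C)
    ((closedVarIn V C).trans t) (stC_comp t C hC), ← hT.push_comp i n _ _ _ (closedVarIn V C) t
    ((closedVarIn V C).trans t) rfl, hw₁]
  exact avg_anti _ _ hu

/-! ## Fibre products -/

/-- The range of the projection of a fibre product. -/
lemma cart_range {D W U X : Scheme.{0}} {o : D ⟶ W} {b : D ⟶ U} {w : W ⟶ X} {j : U ⟶ X}
    (h : IsPullback o b w j) : Set.range b = j ⁻¹' Set.range w := by
  have h4 := Scheme.Pullback.range_snd w j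
  have h5 : b = h.isoPullback.hom ≫ pullback.snd w j := (h.isoPullback_hom_snd).symm
  rw [← h4, h5]
  ext x
  constructor
  · rintro ⟨z, rfl⟩
    exact ⟨h.isoPullback.hom z, by rw [Scheme.Hom.comp_apply]⟩
  · rintro ⟨z, rfl⟩
    refine ⟨h.isoPullback.inv z, ?_⟩
    rw [← Scheme.Hom.comp_apply, ← Category.assoc, Iso.inv_hom_id, Category.id_comp]

/-- A closed subset of `V` with given intersection with `U`. -/
lemma exists_K {Z U V : Var k} (a : ClosedIn Z V) (j : OpenIn U V) (hc : Complementary a j)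
    (e : ℕ) (C : Closeds V.X) (CU : Closeds U.X) (h1 : ∀ u, j.g u ∈ C → u ∈ CU)
    (h2 : ∀ u ∈ CU, U.dim u ≤ (e + 1 : ℕ)) :
    ∃ K : Closeds V.X, C ≤ K ∧ (∀ u, j.g u ∈ K ↔ u ∈ CU) ∧
      ∀ z : Z.X, a.g z ∈ K → a.g z ∈ C ∨ Z.dim z ≤ e := by
  obtain ⟨W, w, h, B, p, q, hcomp, h3, h4, hW, hB, -⟩ := exists_boundary a j hc (closedVarIn U CU)
    e (dimLE_of_mem CU h2)
  have hmem : ∀ d, (closedVarIn U CU).g d ∈ CU := by
    intro d
    have h5 : (closedVarIn U CU).g d ∈ (CU : Set U.X) := by
      rw [← range_closedVarIn]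
      exact ⟨d, rfl⟩
    exact h5
  refine ⟨C ⊔ ran w, le_sup_left, ?_, ?_⟩
  · intro u
    constructor
    · rintro (hu | ⟨x, hx⟩)
      · exact h1 u hu
      · by_cases hxr : x ∈ Set.range h.g
        · obtain ⟨d, rfl⟩ := hxr
          have h5 : j.g ((closedVarIn U CU).g d) = j.g u := by
            rw [← hx, ← Scheme.Hom.comp_apply, ← Scheme.Hom.comp_apply, h4]
          rw [← openIn_injective j h5]
          exact hmem d
        · exfalso
          have h5 : x ∈ Set.range p.g := by
            rw [show Set.range p.g = (Set.range h.g)ᶜ from hcomp]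
            exact hxr
          obtain ⟨y, rfl⟩ := h5
          have h6 : w.g (p.g y) = a.g (q.g y) := by
            rw [← Scheme.Hom.comp_apply, ← Scheme.Hom.comp_apply, h3]
          have h7 : j.g u ∈ Set.range a.g := ⟨q.g y, by rw [← hx, h6]⟩
          rw [show Set.range a.g = (Set.range j.g)ᶜ from hc] at h7
          exact h7 ⟨u, rfl⟩
    · intro hu
      refine Or.inr ?_
      have h5 : u ∈ Set.range (closedVarIn U CU).g := by
        rw [range_closedVarIn]
        exact hu
      obtain ⟨d, rfl⟩ := h5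
      refine ⟨h.g d, ?_⟩
      rw [← Scheme.Hom.comp_apply, ← Scheme.Hom.comp_apply, h4]
  · rintro z (hz | ⟨x, hx⟩)
    · exact Or.inl hz
    · refine Or.inr ?_
      have hxr : x ∉ Set.range h.g := by
        rintro ⟨d, rfl⟩
        have h5 : a.g z ∈ Set.range a.g := ⟨z, rfl⟩
        rw [show Set.range a.g = (Set.range j.g)ᶜ from hc] at h5
        apply h5
        refine ⟨(closedVarIn U CU).g d, ?_⟩
        rw [← hx, ← Scheme.Hom.comp_apply, ← Scheme.Hom.comp_apply, h4]
      have h5 : x ∈ Set.range p.g := by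
        rw [show Set.range p.g = (Set.range h.g)ᶜ from hcomp]
        exact hxr
      obtain ⟨y, rfl⟩ := h5
      have h6 : a.g (q.g y) = a.g z := by
        rw [← hx, ← Scheme.Hom.comp_apply, ← Scheme.Hom.comp_apply, h3]
      rw [← closedIn_injective a h6]
      have := q.closed
      rw [dim_map q.g q.comm]
      exact hB y

/-! ## Vanishing on a larger subvariety -/

lemma push_red_injective (hT : Extra T) (i n : ℕ) (X : Var k) :
    Function.Injective ((T i).P n (redVarIn X)) := by
  change Function.Injective ((T i).push n (redVarIn X))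
  rw [injective_iff_map_eq_zero]
  intro m hm
  obtain ⟨u, hu⟩ := (hT.bd_exact i n (redVarIn X) (openVarIn X ⊥) (complementary_red X) m).mp hm
  have hs := (T i).empty (n + 1) _ (isEmpty_openVar_bot X)
  rw [← hu, Subsingleton.elim u 0, map_zero]

/-- A morphism from a reduced variety factors through the reduced subvariety. -/
lemma exists_liftRed {W B : Var k} [IsReduced W.X] (c : ClosedIn W B) :
    ∃ c' : ClosedIn W (redVar B), c'.g ≫ (redVarIn B).g = c.g := by
  have h1 : (redVarIn B).g.ker ≤ c.g.ker := by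
    have h2 : (redVarIn B).g.ker = B.X.nilradical :=
      Scheme.IdealSheafData.ker_subschemeι _
    rw [h2]
    have h3 := vanishingIdeal_le_ker c.g ⊤ (fun _ => trivial)
    rwa [Scheme.IdealSheafData.vanishingIdeal_top] at h3
  have hcl := (redVarIn B).closed
  refine ⟨⟨IsClosedImmersion.lift (redVarIn B).g c.g h1, ?_, ?_⟩,
    IsClosedImmersion.lift_fac _ _ _⟩
  · rw [← (redVarIn B).comm, ← Category.assoc, IsClosedImmersion.lift_fac, c.comm]
  · have h2 : IsClosedImmersion (IsClosedImmersion.lift (redVarIn B).g c.g h1 ≫ (redVarIn B).g) := by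
      rw [IsClosedImmersion.lift_fac]
      infer_instance
    exact IsClosedImmersion.of_comp _ (redVarIn B).g

lemma die_factor (hT : Extra T) (i n : ℕ) {W V B : Var k} [IsReduced W.X] (a : ClosedIn W V)
    (c : ClosedIn W B) (q : ClosedIn B V) (h : c.g ≫ q.g = a.g) (C : Closeds V.X)
    (hC : ∀ b, q.g b ∈ C) (w : (T i).H n W) (hw : (T i).P n c w = 0) :
    ∃ h' : ∀ x, a.g x ∈ C, (T i).P n (factorC a C h') w = 0 := by
  have h1 : ∀ x, a.g x ∈ C := by
    intro x
    rw [← h, Scheme.Hom.comp_apply]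
    exact hC _
  refine ⟨h1, ?_⟩
  obtain ⟨c', hc'⟩ := exists_liftRed c
  have h2 : (T i).P n c' w = 0 := by
    apply push_red_injective hT i n B
    rw [hP_zero, hT.push_comp i n _ _ _ c' (redVarIn B) c hc', hw]
  have hred := isReduced_redVar B
  let m : ClosedIn (redVar B) (closedVar V C) := factorC ((redVarIn B).trans q) C (fun b => by
    change ((redVarIn B).g ≫ q.g) b ∈ C
    rw [Scheme.Hom.comp_apply]
    exact hC _)
  have hm : m.g ≫ (closedVarIn V C).g = (redVarIn B).g ≫ q.g := factorC_comp _ _ _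
  have h3 : c'.g ≫ m.g = (factorC a C h1).g := by
    rw [← cancel_mono (closedVarIn V C).g, Category.assoc, hm, ← Category.assoc, hc', h,
      factorC_comp]
  rw [← hT.push_comp i n _ _ _ c' m _ h3, h2, hP_zero]

end QCV


end

section

/-!
# QCV, block G: the closed part
-/

set_option autoImplicit false

open CategoryTheory AlgebraicGeometry Limits Polynomial TopologicalSpace

namespace QCV

open Pool.Agent.Lib_helper55.Beil Pool.Agent.Lib_helper66.OneP CUB

universe v

variable {k : Type} [Field k] {E : Type} [Field E] {T : ∀ i : ℕ, Homology.{v} k E i}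

/-- The involution on the open part of a stable closed subvariety. -/
lemma exists_rD {W V U D : Var k} (w : ClosedIn W V) (j : OpenIn U V) (o : OpenIn D W)
    (b : ClosedIn D U) (hD : IsPullback o.g b.g w.g j.g) (t : ClosedIn V V) (r : ClosedIn W W)
    (tU : ClosedIn U U) (hr : r.g ≫ w.g = w.g ≫ t.g) (htU : tU.g ≫ j.g = j.g ≫ t.g) :
    ∃ rD : ClosedIn D D, rD.g ≫ o.g = o.g ≫ r.g ∧ rD.g ≫ b.g = b.g ≫ tU.g := by
  have hb := b.closed
  have ht := tU.closed
  exact lift_closed hD b.comm (o.g ≫ r.g) (b.g ≫ tU.g)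
    (by rw [Category.assoc, tU.comm, b.comm]) (by
      rw [Category.assoc, hr, ← Category.assoc, hD.w, Category.assoc, Category.assoc, htU])

/-- Restriction commutes with the involutions. -/
lemma res_inv (hT : Full T) (i n : ℕ) {W D : Var k} (o : OpenIn D W) (r : ClosedIn W W)
    (rD : ClosedIn D D) (hr : Inv r) (h : rD.g ≫ o.g = o.g ≫ r.g) (m : (T i).H n W) :
    (T i).R n o ((T i).P n r m) = (T i).P n rD ((T i).R n o m) := by
  have hrD : Inv rD := inv_open o r rD hr h
  have h1 := hr.isIso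
  have h2 := hrD.isIso
  exact res_push hT i n r rD o o (IsPullback.of_vert_isIso ⟨h.symm⟩) m

/-- The class on the part of a larger closed subvariety over `U`. -/
lemma die_open (hT : Full T) (i n : ℕ) {D U V D' : Var k} [IsReduced D.X] (j : OpenIn U V)
    (b : ClosedIn D U)
    (CU : Closeds U.X) (hCU : ∀ x, b.g x ∈ CU) (K : Closeds V.X) (hK : ∀ u ∈ CU, j.g u ∈ K)
    (o' : OpenIn D' (closedVar V K)) (b' : ClosedIn D' U)
    (hD' : IsPullback o'.g b'.g (closedVarIn V K).g j.g) (l : ClosedIn D D')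
    (hl : l.g ≫ b'.g = b.g) (w : (T i).H n D)
    (hw : (T i).P n (factorC b CU hCU) w = 0) : (T i).P n l w = 0 := by
  have hred := REDI.isReduced_closedVar U CU
  have hmem : ∀ d, (closedVarIn U CU).g d ∈ CU := by
    intro d
    have h5 : (closedVarIn U CU).g d ∈ (CU : Set U.X) := by
      rw [← range_closedVarIn]
      exact ⟨d, rfl⟩
    exact h5
  have hcl := (closedVarIn U CU).closed
  have hb' := b'.closed
  obtain ⟨c, hc⟩ : ∃ c : (closedVar U CU).X ⟶ (closedVar V K).X,
      c ≫ (closedVarIn V K).g = (closedVarIn U CU).g ≫ j.g :=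
    ⟨liftC ((closedVarIn U CU).g ≫ j.g) K (fun d => by
      rw [Scheme.Hom.comp_apply]
      exact hK _ (hmem d)), liftC_comp _ _ _⟩
  obtain ⟨m, -, hm⟩ := lift_closed hD' b'.comm c (closedVarIn U CU).g (closedVarIn U CU).comm hc
  have h1 : (factorC b CU hCU).g ≫ m.g = l.g := by
    rw [← cancel_mono b'.g, Category.assoc, hm, hl, factorC_comp]
  rw [← hT.push_comp i n _ _ _ (factorC b CU hCU) m l h1, hw, hP_zero]

/-- The data on the closed and the open part. -/
structure Parts {Z U V : Var k} (a : ClosedIn Z V) (j : OpenIn U V) (t : ClosedIn V V)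
    (tZ : ClosedIn Z Z) (tU : ClosedIn U U) : Prop where
  hc : Complementary a j
  ht : Inv t
  hZ : tZ.g ≫ a.g = a.g ≫ t.g
  hU : tU.g ≫ j.g = j.g ≫ t.g

/-- A class which dies in `V` is the boundary of an anti-invariant class. -/
lemma exists_bd_anti [CharZero E] (hT : Full T) (i n : ℕ) {Z U V : Var k} {a : ClosedIn Z V}
    {j : OpenIn U V} {t : ClosedIn V V} {tZ : ClosedIn Z Z} {tU : ClosedIn U U}
    (h : Parts a j t tZ tU) (z : (T i).H n Z) (hz : (T i).P n tZ z = -z)
    (hz2 : (T i).P n a z = 0) :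
    ∃ u : (T i).H (n + 1) U, (T i).P (n + 1) tU u = -u ∧ bdl hT i n a j h.hc u = z := by
  have hiU : Inv tU := inv_open j t tU h.ht h.hU
  obtain ⟨u, hu⟩ := (hT.bdExact i n a j h.hc z).mp hz2
  refine ⟨(2 : E)⁻¹ • (u - (T i).P (n + 1) tU u), anti_avg hT.toExtra i (n + 1) tU hiU u, ?_⟩
  have h1 : (T i).P n tZ (bdl hT i n a j h.hc u) = bdl hT i n a j h.hc ((T i).P (n + 1) tU u) :=
    bdl_push hT i n a j h.hc a j h.hc tZ tU t h.hZ.symm h.hU.symm u
  have h2 : bdl hT i n a j h.hc u = z := hu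
  rw [map_smul, map_sub, ← h1, h2]
  exact avg_anti _ _ hz

/-- The closed part: supports. -/
theorem am_closed [CharZero E] (hT : Full T) (i n e : ℕ) {Z U V : Var k} {a : ClosedIn Z V}
    {j : OpenIn U V} {t : ClosedIn V V} {tZ : ClosedIn Z Z} {tU : ClosedIn U U}
    (h : Parts a j t tZ tU) (hBU : BU (T i) n e U tU) (hHU : HU (T i) (n + 1) U tU)
    (hV : AM (T i) n e V t) : AM (T i) n e Z tZ := by
  intro z hz hza
  have hiZ : Inv tZ := inv_closed a t tZ h.ht h.hZ
  have hv1 : (T i).P n a z ∈ genN (T i) n V :=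
    maxGen_map ((T i).frob n Z) ((T i).frob n V) ((T i).push n a) ((T i).push_frob n a) hz
  have hv2 : (T i).P n t ((T i).P n a z) = -(T i).P n a z := by
    rw [hT.push_comp i n _ _ _ a t (a.trans t) rfl,
      ← hT.push_comp i n _ _ _ tZ a (a.trans t) h.hZ, hza, hP_neg]
  obtain ⟨C, hC, hCd, w, hw, hwv⟩ := supp_stable hT.toExtra i n e t h.ht _ hv2 (hV _ hv1 hv2)
  -- restriction to `U`
  let W := closedVar V C
  have hWred : IsReduced W.X := REDI.isReduced_closedVar V C
  obtain ⟨D, o, b, hD⟩ := exists_cart (closedVarIn V C) j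
  have hob := o.isOpen
  have hDred : IsReduced D.X := isReduced_of_isOpenImmersion o.g
  obtain ⟨rD, hr1, hr2⟩ := exists_rD (closedVarIn V C) j o b hD t (stC t C hC) tU
    (stC_comp t C hC) h.hU
  have hinv : Inv (stC t C hC) := inv_closed (closedVarIn V C) t _ h.ht (stC_comp t C hC)
  have hRw : (T i).P n rD ((T i).R n o w) = -(T i).R n o w := by
    rw [← res_inv hT i n o (stC t C hC) rD hinv hr1, hw]
    exact map_neg ((T i).res n o) w
  obtain ⟨CU, hCU, hCUd, hdie⟩ := hBU D b rD hr2 (dimLE_open o (dimLE_of_mem C hCd)) _ hRw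
  have hCCU : ∀ u, j.g u ∈ C → u ∈ CU := by
    intro u hu
    have h1 : u ∈ Set.range b.g := by
      rw [cart_range hD, range_closedVarIn]
      exact hu
    obtain ⟨x, rfl⟩ := h1
    exact hCU x
  obtain ⟨K, hK1, hK2, hK3⟩ := exists_K a j h.hc e C CU hCCU hCUd
  obtain ⟨D', B', o', b', p', q', hD', hB', hcomp'⟩ := exists_parts a j h.hc (closedVarIn V K)
  let wY := (T i).P n (closedVarMap V hK1) w
  have hb := b.closed
  have hb' := b'.closed
  obtain ⟨l, hl1, hl2⟩ := lift_closed hD' b'.comm (o.g ≫ (closedVarMap V hK1).g) b.g b.comm (by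
    rw [Category.assoc, closedVarMap_comp, hD.w])
  have hsq : IsPullback o.g l.g (closedVarMap V hK1).g o'.g := by
    refine IsPullback.of_bot ?_ hl1.symm hD'
    rw [hl2, closedVarMap_comp]
    exact hD
  have h1 : (T i).R n o' wY = 0 := by
    rw [res_push hT i n (closedVarMap V hK1) l o o' hsq]
    exact die_open hT i n j b CU hCU K (fun u hu => (hK2 u).mpr hu) o' b' hD' l hl2 _ hdie
  obtain ⟨z', hz'⟩ := ((T i).exact_X n p' o' hcomp' wY).mp h1
  let z'' := (T i).P n q' z'
  have hz''a : (T i).P n a z'' = (T i).P n a z := by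
    change (T i).P n a ((T i).P n q' z') = _
    rw [hT.push_comp i n _ _ _ q' a (q'.trans a) rfl,
      ← hT.push_comp i n _ _ _ p' (closedVarIn V K) (q'.trans a) hB'.w,
      show (T i).P n p' z' = wY from hz',
      hT.push_comp i n _ _ _ (closedVarMap V hK1) (closedVarIn V K) _ (closedVarMap_comp V hK1),
      hwv]
  have hB'd : B'.DimLE e := by
    intro x
    have h2 : a.g (q'.g x) = (closedVarIn V K).g (p'.g x) := by
      rw [← Scheme.Hom.comp_apply, ← Scheme.Hom.comp_apply, hB'.w]
    have h3 : a.g (q'.g x) ∈ K := by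
      rw [h2]
      have h4 : (closedVarIn V K).g (p'.g x) ∈ (K : Set V.X) := by
        rw [← range_closedVarIn]
        exact ⟨_, rfl⟩
      exact h4
    have hq' := q'.closed
    have ha := a.closed
    rw [← dim_map q'.g q'.comm]
    rcases hK3 _ h3 with h4 | h4
    · rw [← dim_map a.g a.comm]
      exact hCd _ h4
    · exact h4
  have hs : Supp (T i) n e Z z'' := supp_mk hT.toExtra i n e q' hB'd z'
  -- the difference
  let z0 := z - (2 : E)⁻¹ • (z'' - (T i).P n tZ z'')
  have hz0a : (T i).P n tZ z0 = -z0 := by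
    change (T i).P n tZ (z - (2 : E)⁻¹ • (z'' - (T i).P n tZ z'')) = _
    rw [hP_sub, hza, anti_avg hT.toExtra i n tZ hiZ z'']
    have e0 : ∀ x y : (T i).H n Z, -x - -y = -(x - y) := fun x y => by abel
    exact e0 _ _
  have hz0b : (T i).P n a z0 = 0 := by
    change (T i).P n a (z - (2 : E)⁻¹ • (z'' - (T i).P n tZ z'')) = _
    have h2 : (T i).P n a ((T i).P n tZ z'') = -(T i).P n a z := by
      rw [hT.push_comp i n _ _ _ tZ a (a.trans t) h.hZ,
        ← hT.push_comp i n _ _ _ a t (a.trans t) rfl, hz''a, hv2]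
    rw [hP_sub, hP_smul, hP_sub, hz''a, h2, avg_anti _ _ rfl, sub_self]
  obtain ⟨u, hu1, hu2⟩ := exists_bd_anti hT i n h z0 hz0a hz0b
  have hu0 : u = 0 := hHU u hu1
  rw [hu0, map_zero] at hu2
  have hzz : z = (2 : E)⁻¹ • (z'' - (T i).P n tZ z'') := sub_eq_zero.mp hu2.symm
  rw [hzz]
  apply supp_smul
  rw [sub_eq_add_neg]
  exact supp_add hT.toExtra i n e Z _ _ hs (supp_neg i n e Z _ (supp_push hT.toExtra i n e tZ _ hs))

/-- The closed part: vanishing on larger subvarieties. -/
theorem bm_closed [CharZero E] (hT : Full T) (i n e : ℕ) {Z U V : Var k} {a : ClosedIn Z V}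
    {j : OpenIn U V} {t : ClosedIn V V} {tZ : ClosedIn Z Z} {tU : ClosedIn U U}
    (h : Parts a j t tZ tU) (hBU : BU (T i) (n + 1) (e + 1) U tU)
    (hV : BM (T i) n e V t) : BM (T i) n e Z tZ := by
  intro W hWred aW r hr hWd w hw hwa hwz
  have h1 : r.g ≫ (aW.trans a).g = (aW.trans a).g ≫ t.g := by
    change r.g ≫ aW.g ≫ a.g = (aW.g ≫ a.g) ≫ t.g
    rw [← Category.assoc, hr, Category.assoc, h.hZ, Category.assoc]
  have h2 : (T i).P n (aW.trans a) w = 0 := by
    rw [← hT.push_comp i n _ _ _ aW a (aW.trans a) rfl, hwz, hP_zero]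
  obtain ⟨C, hC, hCd, hdie⟩ := hV W (aW.trans a) r h1 hWd w hw hwa h2
  -- a stable subset
  let C₁ := stab t C
  have hC₁ := stab_stable h.ht C
  have hC₁d := stab_dim t C (e + 1) hCd
  have hle : C ≤ C₁ := le_stab t C
  have hCmem : ∀ x, (aW.trans a).g x ∈ C₁ := fun x => hle (hC x)
  have hdie₁ : (T i).P n (factorC (aW.trans a) C₁ hCmem) w = 0 := by
    have h3 : (factorC (aW.trans a) C hC).g ≫ (closedVarMap V hle).g =
        (factorC (aW.trans a) C₁ hCmem).g := by
      rw [← cancel_mono (closedVarIn V C₁).g, Category.assoc, closedVarMap_comp, factorC_comp,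
        factorC_comp]
    rw [← hT.push_comp i n _ _ _ _ (closedVarMap V hle) _ h3, hdie, hP_zero]
  obtain ⟨D, B, o, b, p, q, hD, hB, hcomp⟩ := exists_parts a j h.hc (closedVarIn V C₁)
  have hYred : IsReduced (closedVar V C₁).X := REDI.isReduced_closedVar V C₁
  have hoo := o.isOpen
  have hDred : IsReduced D.X := isReduced_of_isOpenImmersion o.g
  have haW := aW.closed
  have hb := b.closed
  have hq := q.closed
  have hyinv : Inv (stC t C₁ hC₁) := inv_closed (closedVarIn V C₁) t _ h.ht (stC_comp t C₁ hC₁)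
  -- `W` in the closed part
  obtain ⟨wB, hwB1, hwB2⟩ := lift_closed hB q.comm (factorC (aW.trans a) C₁ hCmem).g aW.g aW.comm
    (by rw [factorC_comp]; rfl)
  -- the involutions
  obtain ⟨rD, hrD1, hrD2⟩ := exists_rD (closedVarIn V C₁) j o b hD t (stC t C₁ hC₁) tU
    (stC_comp t C₁ hC₁) h.hU
  have htZ := tZ.closed
  obtain ⟨rB, hrB1, hrB2⟩ := lift_closed hB q.comm (p.g ≫ (stC t C₁ hC₁).g) (q.g ≫ tZ.g)
    (by rw [Category.assoc, tZ.comm, q.comm]) (by
      rw [Category.assoc, stC_comp, ← Category.assoc, hB.w, Category.assoc, Category.assoc, h.hZ])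
  have hparts : Parts p o (stC t C₁ hC₁) rB rD := ⟨hcomp, hyinv, hrB1, hrD1⟩
  have hwBa : (T i).P n rB ((T i).P n wB w) = -(T i).P n wB w := by
    have h3 : wB.g ≫ rB.g = r.g ≫ wB.g := by
      rw [← cancel_mono q.g, Category.assoc, hrB2, Category.assoc, hwB2, hr, ← Category.assoc, hwB2]
    rw [hT.push_comp i n _ _ _ wB rB (wB.trans rB) rfl,
      ← hT.push_comp i n _ _ _ r wB (wB.trans rB) h3.symm, hwa, hP_neg]
  have hwBz : (T i).P n p ((T i).P n wB w) = 0 := by
    rw [hT.push_comp i n _ _ _ wB p _ hwB1, hdie₁]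
  obtain ⟨u, hu1, hu2⟩ := exists_bd_anti hT i n hparts _ hwBa hwBz
  obtain ⟨CU, hCU, hCUd, hdieU⟩ := hBU D b rD hrD2 (dimLE_open o (dimLE_of_mem C₁ hC₁d)) u hu1
  have hCCU : ∀ u, j.g u ∈ C₁ → u ∈ CU := by
    intro u hu
    have h3 : u ∈ Set.range b.g := by
      rw [cart_range hD, range_closedVarIn]
      exact hu
    obtain ⟨x, rfl⟩ := h3
    exact hCU x
  obtain ⟨K, hK1, hK2, hK3⟩ := exists_K a j h.hc (e + 1) C₁ CU hCCU hCUd
  obtain ⟨D', B', o', b', p', q', hD', hB', hcomp'⟩ := exists_parts a j h.hc (closedVarIn V K)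
  have hb' := b'.closed
  have hq' := q'.closed
  obtain ⟨l, hl1, hl2⟩ := lift_closed hD' b'.comm (o.g ≫ (closedVarMap V hK1).g) b.g b.comm (by
    rw [Category.assoc, closedVarMap_comp, hD.w])
  obtain ⟨lB, hlB1, hlB2⟩ := lift_closed hB' q'.comm (p.g ≫ (closedVarMap V hK1).g) q.g q.comm (by
    rw [Category.assoc, closedVarMap_comp, hB.w])
  have h4 : (T i).P (n + 1) l u = 0 :=
    die_open hT i (n + 1) j b CU hCU K (fun u hu => (hK2 u).mpr hu) o' b' hD' l hl2 u hdieU
  have h5 := bdl_push hT i n p o hcomp p' o' hcomp' lB l (closedVarMap V hK1) hlB1.symm hl1.symm u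
  rw [h4, map_zero, hu2, hT.push_comp i n _ _ _ wB lB (wB.trans lB) rfl] at h5
  let CZ : Closeds Z.X := K.preimage a.g.continuous
  have hCZ : ∀ x, q'.g x ∈ CZ := by
    intro x
    change a.g (q'.g x) ∈ K
    have h6 : a.g (q'.g x) = (closedVarIn V K).g (p'.g x) := by
      rw [← Scheme.Hom.comp_apply, ← Scheme.Hom.comp_apply, hB'.w]
    rw [h6]
    have h7 : (closedVarIn V K).g (p'.g x) ∈ (K : Set V.X) := by
      rw [← range_closedVarIn]
      exact ⟨_, rfl⟩
    exact h7
  have h8 : (wB.trans lB).g ≫ q'.g = aW.g := by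
    change (wB.g ≫ lB.g) ≫ q'.g = aW.g
    rw [Category.assoc, hlB2, hwB2]
  obtain ⟨h9, h10⟩ := die_factor hT.toExtra i n aW (wB.trans lB) q' h8 CZ hCZ w h5
  refine ⟨CZ, h9, ?_, h10⟩
  intro z hz
  have ha := a.closed
  rcases hK3 z hz with h11 | h11
  · rw [← dim_map a.g a.comm]
    exact hC₁d _ h11
  · exact h11

end QCV


end

section

/-!
# QCV, block G: products with the affine line and an involution over the base
-/

set_option autoImplicit false

open CategoryTheory AlgebraicGeometry Limits Polynomial TopologicalSpace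

namespace QCV

open Pool.Agent.Lib_helper55.Beil Pool.Agent.Lib_helper66.OneP CUB

universe v

variable {k : Type} [Field k] {E : Type} [Field E] {T : ∀ i : ℕ, Homology.{v} k E i}

/-- There are no anti-invariant classes on a product with the affine line. -/
theorem hu_line [CharZero E] (hT : Extra T) (i n : ℕ) {U S : Var k} (L : Line U S)
    (t : ClosedIn U U) (ht : Inv t) (h : t.g ≫ L.q = L.q) : HU (T (i + 1)) (n + 2) U t := by
  intro u hu
  obtain ⟨x, rfl⟩ := (hT.line_bij i n L).surjective u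
  have h1 := hT.line_nat i n L L ht.viso (VIso.refl S) (by
    change t.g ≫ L.q = L.q ≫ 𝟙 S.X
    rw [h, Category.comp_id]) x
  have h2 : (T i).P n (VIso.refl S).cl x = x := hT.push_id i n _ _ rfl x
  rw [ht.viso_cl, h2, hu] at h1
  have h3 : (2 : E) • hT.line i n L x = 0 := by
    rw [two_smul]
    nth_rw 1 [← h1]
    exact neg_add_cancel _
  exact (smul_eq_zero.mp h3).resolve_left two_ne_zero

/-- The dimension of the closure of an image. -/
lemma closure_dim {W S : Var k} (f : W.X ⟶ S.X) (hf : f ≫ S.f = W.f) (e : ℕ) (hW : W.DimLE e)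
    (x : S.X) (hx : x ∈ closure (Set.range f)) : S.dim x ≤ e := by
  have hfin : (irreducibleComponents W.X).Finite := NoetherianSpace.finite_irreducibleComponents
  have h1 : Set.range f ⊆ ⋃ Z ∈ irreducibleComponents W.X, f '' Z := by
    rintro _ ⟨w, rfl⟩
    simp only [Set.mem_iUnion]
    exact ⟨irreducibleComponent w, irreducibleComponent_mem_irreducibleComponents w, w,
      mem_irreducibleComponent, rfl⟩
  have h2 := closure_mono h1 hx
  rw [hfin.closure_biUnion] at h2
  simp only [Set.mem_iUnion] at h2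
  obtain ⟨Z, hZ, hxZ⟩ := h2
  obtain ⟨η, hη⟩ := QuasiSober.sober hZ.1 (isClosed_of_mem_irreducibleComponents Z hZ)
  have h3 : f '' Z ⊆ closure {f η} := by
    rintro _ ⟨w, hw, rfl⟩
    have h4 : η ⤳ w := by
      rw [specializes_iff_mem_closure, hη.def]
      exact hw
    exact (h4.map f.continuous).mem_closure
  have h5 : f η ⤳ x := by
    rw [specializes_iff_mem_closure]
    exact closure_minimal h3 isClosed_closure hxZ
  exact (dim_le_of_specializes S h5).trans (((CUB.Asm2.s_PFC.{0}).1 k W S f hf η).trans (hW η))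

/-- The restriction of a line to a closed subvariety. -/
lemma exists_lineClosed {Y X Z : Var k} (L : Line Y X) (a : ClosedIn Z X) :
    ∃ (Y' : Var k) (L' : Line Y' Z) (c : ClosedIn Y' Y), IsPullback L'.q c.g a.g L.q := by
  have ha := a.closed
  have e1 : LocallyOfFiniteType (L.q ≫ X.f) := by
    rw [L.comm]
    infer_instance
  have e2 : QuasiCompact (L.q ≫ X.f) := by
    rw [L.comm]
    infer_instance
  have e3 : IsSeparated (L.q ≫ X.f) := by
    rw [L.comm]
    infer_instance
  have h1 : LocallyOfFiniteType L.q := locallyOfFiniteType_of_comp L.q X.f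
  have h2 : QuasiCompact L.q := QuasiCompact.of_comp L.q X.f
  have h3 : IsSeparated L.q := IsSeparated.of_comp L.q X.f
  have hP : IsPullback (pullback.fst L.q a.g) (pullback.snd L.q a.g) L.q a.g :=
    IsPullback.of_hasPullback L.q a.g
  let Y' : Var k :=
    { X := pullback L.q a.g
      f := pullback.snd L.q a.g ≫ Z.f
      sep := inferInstance
      lft := inferInstance
      qc := inferInstance }
  have hc : pullback.fst L.q a.g ≫ Y.f = pullback.snd L.q a.g ≫ Z.f := by
    rw [← L.comm, ← Category.assoc, hP.w, Category.assoc, a.comm]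
  have h5 : IsClosedImmersion (pullback.fst L.q a.g) := inferInstance
  let L' : Line Y' Z :=
    { q := pullback.snd L.q a.g
      t := pullback.fst L.q a.g ≫ L.t
      comm := rfl
      prod := by
        have h4 := (hP.paste_horiz L.prod.flip).flip
        rw [a.comm] at h4
        exact h4 }
  exact ⟨Y', L', ⟨pullback.fst L.q a.g, hc, h5⟩, hP.flip⟩

/-- The anti-invariant classes on stable subvarieties of a product with the affine line. -/
theorem bu_line [CharZero E] (hT : Full T) (i n e : ℕ) {U S : Var k} (L : Line U S)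
    (t : ClosedIn U U) (ht : Inv t) (h : t.g ≫ L.q = L.q) : BU (T (i + 1)) (n + 2) e U t := by
  intro W hWred a r hr hWd w hw
  have ha := a.closed
  let f : W.X ⟶ S.X := a.g ≫ L.q
  have hf : f ≫ S.f = W.f := by
    rw [Category.assoc, L.comm, a.comm]
  let C' : Closeds S.X := Closeds.closure (Set.range f)
  have hfC : ∀ x, f x ∈ C' := fun x => subset_closure ⟨x, rfl⟩
  obtain ⟨Y', L', cl, hP⟩ := exists_lineClosed L (closedVarIn S C')
  have hcl := cl.closed
  have htc := t.closed
  obtain ⟨c, hc1, hc2⟩ := lift_closed hP cl.comm (liftC f C' hfC) a.g a.comm (liftC_comp f C' hfC)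
  obtain ⟨tY, htY1, htY2⟩ := lift_closed hP cl.comm L'.q (cl.g ≫ t.g)
    (by rw [Category.assoc, t.comm, cl.comm]) (by
      rw [Category.assoc, h, hP.w])
  have hinv : Inv tY := inv_closed cl t tY ht htY2
  have h1 : (T (i + 1)).P (n + 2) tY ((T (i + 1)).P (n + 2) c w) =
      -(T (i + 1)).P (n + 2) c w := by
    have h3 : c.g ≫ tY.g = r.g ≫ c.g := by
      rw [← cancel_mono cl.g, Category.assoc, htY2, ← Category.assoc, hc2, Category.assoc, hc2, hr]
    rw [hT.push_comp (i + 1) (n + 2) _ _ _ c tY (c.trans tY) rfl,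
      ← hT.push_comp (i + 1) (n + 2) _ _ _ r c (c.trans tY) h3.symm, hw, hP_neg]
  have h2 : (T (i + 1)).P (n + 2) c w = 0 := hu_line hT.toExtra i n L' tY hinv htY1 _ h1
  obtain ⟨h3, h4⟩ := die_factor hT.toExtra (i + 1) (n + 2) a c cl hc2 (C'.preimage L.q.continuous)
    (fun y => by
      change L.q (cl.g y) ∈ C'
      have h5 : L.q (cl.g y) = (closedVarIn S C').g (L'.q y) := by
        rw [← Scheme.Hom.comp_apply, ← Scheme.Hom.comp_apply, hP.w]
      rw [h5]
      have h7 : (closedVarIn S C').g (L'.q y) ∈ (C' : Set S.X) := by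
        rw [← range_closedVarIn]
        exact ⟨_, rfl⟩
      exact h7) w h2
  refine ⟨_, h3, ?_, h4⟩
  intro x hx
  have h6 : S.dim (L.q x) ≤ e := closure_dim f hf e hWd _ hx
  calc U.dim x ≤ S.dim (L.q x) + 1 := (CUB.Asm2.s_LPT.1 k U S L x).2
    _ ≤ (e : Cardinal) + 1 := by gcongr
    _ = ((e + 1 : ℕ) : Cardinal) := by push_cast; rfl

end QCV


end

section

/-!
# QCV, block G: the varieties `y ^ 2 - y = ∑ t_j f_j`
-/

set_option autoImplicit false

open CategoryTheory AlgebraicGeometry Limits Polynomial TopologicalSpace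

namespace QCV

open Pool.Agent.Lib_helper55.Beil Pool.Agent.Lib_helper66.OneP CUB

universe v

variable {k : Type} [Field k] {E : Type} [Field E] {T : ∀ i : ℕ, Homology.{v} k E i}

/-- The three properties. -/
def AB {i : ℕ} (T : Homology.{v} k E i) (n e : ℕ) (V : Var k) (t : ClosedIn V V) : Prop :=
  AM T n e V t ∧ BM T n e V t ∧ AM T (n + 1) (e + 1) V t

/-- The closed part of a variety whose open part is a product with the affine line. -/
theorem ab_line [CharZero E] (hT : Full T) (i n e : ℕ) {Z U V S : Var k} {a : ClosedIn Z V}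
    {j : OpenIn U V} {t : ClosedIn V V} {tZ : ClosedIn Z Z} {tU : ClosedIn U U}
    (h : Parts a j t tZ tU) (L : Line U S) (hL : tU.g ≫ L.q = L.q)
    (hV : AB (T (i + 1)) (n + 2) e V t) : AB (T (i + 1)) (n + 2) e Z tZ := by
  have hi : Inv tU := inv_open j t tU h.ht h.hU
  exact ⟨am_closed hT (i + 1) (n + 2) e h (bu_line hT i n e L tU hi hL)
      (hu_line hT.toExtra i (n + 1) L tU hi hL) hV.1,
    bm_closed hT (i + 1) (n + 2) e h (bu_line hT i (n + 1) (e + 1) L tU hi hL) hV.2.1,
    am_closed hT (i + 1) (n + 2 + 1) (e + 1) h (bu_line hT i (n + 1) (e + 1) L tU hi hL)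
      (hu_line hT.toExtra i (n + 2) L tU hi hL) hV.2.2⟩

/-- Invariance under isomorphisms. -/
theorem ab_iso [CharZero E] (hT : Full T) (i n e : ℕ) {Z V : Var k} (a : ClosedIn Z V)
    (ha : Function.Surjective a.g) (t : ClosedIn V V) (tZ : ClosedIn Z Z) (ht : Inv t)
    (hZ : tZ.g ≫ a.g = a.g ≫ t.g) (hV : AB (T i) n e V t) : AB (T i) n e Z tZ := by
  have hem := isEmpty_openVar_bot V
  have hc : Complementary a (openVarIn V ⊥) := by
    rw [Complementary, range_openVarIn, ha.range_eq]
    simp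
  have hU : (idIn (openVar V ⊥)).g ≫ (openVarIn V ⊥).g = (openVarIn V ⊥).g ≫ t.g :=
    isInitialOfIsEmpty.hom_ext _ _
  have h : Parts a (openVarIn V ⊥) t tZ (idIn (openVar V ⊥)) := ⟨hc, ht, hZ, hU⟩
  have hHU : ∀ n, HU (T i) n (openVar V ⊥) (idIn (openVar V ⊥)) := by
    intro n u _
    have := (T i).empty n _ hem
    exact Subsingleton.elim _ _
  have hBU : ∀ n e, BU (T i) n e (openVar V ⊥) (idIn (openVar V ⊥)) := by
    intro n e W _ b r _ _ w _
    have hW : IsEmpty W.X := ⟨fun x => hem.false (b.g x)⟩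
    refine ⟨⊥, fun x => (hW.false x).elim, fun x _ => (hem.false x).elim, ?_⟩
    have := (T i).empty n _ hW
    rw [Subsingleton.elim w 0, hP_zero]
  exact ⟨am_closed hT i n e h (hBU _ _) (hHU _) hV.1, bm_closed hT i n e h (hBU _ _) hV.2.1,
    am_closed hT i (n + 1) (e + 1) h (hBU _ _) (hHU _) hV.2.2⟩

section VRs

variable {R R' : Type} [CommRing R] [CommRing R'] [Algebra k R] [Algebra k R']
  [Algebra.FiniteType k R] [Algebra.FiniteType k R']

lemma inv_tau {A : Type} [CommRing A] [Algebra k A] [Algebra.FiniteType k A] (g : A) :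
    Inv (vcl (tau (k := k) g)) := by
  have h1 : (tauH (k := k) g).comp (tauH (k := k) g) = AlgHom.id k _ := tauHom_comp g
  change spm (tauH (k := k) g) ≫ spm (tauH (k := k) g) = 𝟙 _
  rw [spm_comp, h1, spm_id]

lemma tau_VRmap_g {m : ℕ} (f : Fin m → R) (ψ : R →ₐ[k] R') (hψ : Function.Surjective ψ) :
    (vcl (tau (k := k) (lin fun j => ψ (f j)))).g ≫
      (clo (VRmap ψ f) (VRmap_surjective ψ hψ f)).g =
      (clo (VRmap ψ f) (VRmap_surjective ψ hψ f)).g ≫ (vcl (tau (k := k) (lin f))).g := by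
  change spm (tauH (k := k) (lin fun j => ψ (f j))) ≫ spm (VRmap ψ f) =
    spm (VRmap ψ f) ≫ spm (tauH (k := k) (lin f))
  rw [spm_comp, spm_comp]
  congr 1
  exact AlgHom.ext fun x => (VRmap_tau f ψ x).symm

/-- One step. -/
theorem ab_step [CharZero E] (hT : Full T) (hKERQ : S_KERQ) (hVRL : S_VRL) (i n e m : ℕ)
    (f : Fin (m + 1) → R) (l : Fin (m + 1)) (ψ : R →ₐ[k] R') (hψ : Function.Surjective ψ)
    (hk : RingHom.ker ψ.toRingHom = Ideal.span {f l})
    (hV : AB (T (i + 1)) (n + 2) e (aff k (VR R f)) (vcl (tau (lin f)))) :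
    AB (T (i + 1)) (n + 2) e (aff k (VR R' (fun j => ψ (f j)))) (vcl (tau (lin fun j => ψ (f j)))) := by
  let a : VR R f := VRbase (k := k) f (f l)
  let φ : VR R f →ₐ[k] Localization.Away a := awayHom k a
  let σ0 : R →ₐ[k] Localization.Away (f l) := awayHom k (f l)
  obtain ⟨ee, he1, he2, he3⟩ := hVRL k R (Localization.Away (f l)) (Localization.Away a) m f l σ0 φ
    (isLocalization_awayHom _) (isLocalization_awayHom _)
  let σ : MvPolynomial (Fin m) (Localization.Away (f l)) →ₐ[k] Localization.Away a :=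
    (ee.symm : _ →ₐ[k] _).comp (CC k _)
  let tB : Localization.Away a ≃ₐ[k] Localization.Away a :=
    IsLocalization.algEquivOfAlgEquiv (M := Submonoid.powers a) (T := Submonoid.powers a)
      (Localization.Away a) (Localization.Away a) (tau (k := k) (lin f)) (by
        rw [Submonoid.map_powers]
        congr 1
        exact tau_VRbase f (f l))
  have htB : ∀ x, tB (φ x) = φ (tau (k := k) (lin f) x) := fun x =>
    IsLocalization.algEquivOfAlgEquiv_eq _ x
  have hker : RingHom.ker (VRmap ψ f).toRingHom = Ideal.span {a} := by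
    rw [hKERQ.2.2.1 k R R' (m + 1) f ψ, hk, Ideal.map_span, Set.image_singleton]
    rfl
  have hC : ∀ r : R, σ (MvPolynomial.C (σ0 r)) = φ (VRbase (k := k) f r) := fun r => by
    change ee.symm (C (MvPolynomial.C (σ0 r))) = _
    rw [← he1 r, AlgEquiv.symm_apply_apply]
  have hX : ∀ j : Fin m, σ (MvPolynomial.X j) =
      φ (algebraMap (MvPolynomial (Fin (m + 1)) R) (VR R f) (MvPolynomial.X (l.succAbove j))) :=
    fun j => by
      change ee.symm (C (MvPolynomial.X j)) = _
      rw [← he2 j, AlgEquiv.symm_apply_apply]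
  have key : tB.toRingEquiv.toRingHom.comp σ.toRingHom = σ.toRingHom := by
    apply MvPolynomial.ringHom_ext
    · intro s
      have h7 : (tB.toRingEquiv.toRingHom.comp σ.toRingHom).comp MvPolynomial.C =
          σ.toRingHom.comp MvPolynomial.C := by
        apply IsLocalization.ringHom_ext (Submonoid.powers (f l))
        ext1 r
        change tB (σ (MvPolynomial.C (σ0 r))) = σ (MvPolynomial.C (σ0 r))
        rw [hC, htB, tau_VRbase]
      exact RingHom.congr_fun h7 s
    · intro j
      change tB (σ (MvPolynomial.X j)) = σ (MvPolynomial.X j)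
      rw [hX, htB, tau_VRalg]
  have hloc := isLocalization_awayHom (k := k) a
  have hparts : Parts (clo (VRmap ψ f) (VRmap_surjective ψ hψ f))
      (opn φ (isOpenImmersion_spm φ a hloc)) (vcl (tau (k := k) (lin f)))
      (vcl (tau (k := k) (lin fun j => ψ (f j)))) (vcl tB) := by
    refine ⟨complementary_away φ a hloc (VRmap ψ f) (VRmap_surjective ψ hψ f) hker,
      inv_tau (lin f), tau_VRmap_g f ψ hψ, ?_⟩
    change spm (tB : _ →ₐ[k] _) ≫ spm φ = spm φ ≫ spm (tauH (k := k) (lin f))
    rw [spm_comp, spm_comp]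
    congr 1
    exact AlgHom.ext fun x => htB x
  refine ab_line hT i n e hparts (lineE σ ee.symm.toRingEquiv (fun s => rfl)) ?_ hV
  change spm (tB : _ →ₐ[k] _) ≫ spm σ = spm σ
  rw [spm_comp]
  congr 1
  exact AlgHom.ext fun x => RingHom.congr_fun key x

/-- Several equations. -/
theorem ab_chain [CharZero E] (hT : Full T) (hKERQ : S_KERQ) (hVRL : S_VRL) (i n e m : ℕ)
    (L : List (Fin (m + 1))) :
    ∀ {R R' : Type} [CommRing R] [CommRing R'] [Algebra k R]
    [Algebra k R'] [Algebra.FiniteType k R] [Algebra.FiniteType k R']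
    (f : Fin (m + 1) → R) (ψ : R →ₐ[k] R') (_ : Function.Surjective ψ),
    RingHom.ker ψ.toRingHom = Ideal.span (f '' {j | j ∈ L}) →
    AB (T (i + 1)) (n + 2) e (aff k (VR R f)) (vcl (tau (lin f))) →
    AB (T (i + 1)) (n + 2) e (aff k (VR R' (fun j => ψ (f j))))
      (vcl (tau (lin fun j => ψ (f j)))) := by
  induction L with
  | nil =>
    intro R R' _ _ _ _ _ _ f ψ hψ hk hV
    have h1 : RingHom.ker (VRmap ψ f).toRingHom = ⊥ := by
      rw [hKERQ.2.2.1 k R R' (m + 1) f ψ, hk]
      simp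
    have h2 : Function.Injective (VRmap ψ f) := (RingHom.injective_iff_ker_eq_bot _).mpr h1
    refine ab_iso hT (i + 1) (n + 2) e (clo (VRmap ψ f) (VRmap_surjective ψ hψ f)) ?_
      (vcl (tau (k := k) (lin f))) _ (inv_tau (lin f)) (tau_VRmap_g f ψ hψ) hV
    have h3 : (Set.range (clo (VRmap ψ f) (VRmap_surjective ψ hψ f)).g : Set (PrimeSpectrum _)) =
        Set.univ := by
      have h4 : (Set.range (clo (VRmap ψ f) (VRmap_surjective ψ hψ f)).g : Set (PrimeSpectrum _)) =
        (Set.range (PrimeSpectrum.comap (VRmap ψ f).toRingHom) : Set (PrimeSpectrum _)) := rfl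
      rw [h4, range_spm_surj _ (VRmap_surjective ψ hψ f), h1]
      ext x
      simp
    exact Set.range_eq_univ.mp h3
  | cons l L ih =>
    intro R R' _ _ _ _ _ _ f ψ hψ hk hV
    let I : Ideal R := Ideal.span {f l}
    let π : R →ₐ[k] R ⧸ I := Ideal.Quotient.mkₐ k I
    have hle : I ≤ RingHom.ker ψ.toRingHom := by
      rw [hk]
      apply Ideal.span_mono
      rintro _ rfl
      exact ⟨l, by simp, rfl⟩
    let ψ₁ : (R ⧸ I) →ₐ[k] R' := Ideal.Quotient.liftₐ I ψ (fun a ha => hle ha)
    have hπ : Function.Surjective π := Ideal.Quotient.mkₐ_surjective k I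
    have hcomp : ψ = ψ₁.comp π := by
      ext x
      rfl
    have hkπ : RingHom.ker π.toRingHom = Ideal.span {f l} := Ideal.mk_ker
    clear_value ψ₁ π
    subst hcomp
    have hψ₁ : Function.Surjective ψ₁ := by
      intro x
      obtain ⟨y, hy⟩ := hψ x
      exact ⟨π y, hy⟩
    have hk₁ : RingHom.ker ψ₁.toRingHom = Ideal.span ((fun j => π (f j)) '' {j | j ∈ L}) := by
      have h1 : RingHom.ker ψ₁.toRingHom =
          (RingHom.ker (ψ₁.comp π).toRingHom).map π.toRingHom := by
        have h2 : RingHom.ker (ψ₁.comp π).toRingHom =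
          (RingHom.ker ψ₁.toRingHom).comap π.toRingHom := rfl
        rw [h2]
        exact (Ideal.map_comap_of_surjective π.toRingHom hπ _).symm
      rw [h1, hk, Ideal.map_span]
      apply le_antisymm
      · rw [Ideal.span_le]
        rintro _ ⟨_, ⟨j, hj, rfl⟩, rfl⟩
        rcases List.mem_cons.mp hj with rfl | hj
        · have h3 : π (f j) = 0 := by
            have : f j ∈ RingHom.ker π.toRingHom := by
              rw [hkπ]; exact Ideal.subset_span rfl
            exact this
          have h4 : π.toRingHom (f j) = 0 := h3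
          rw [h4]
          exact Ideal.zero_mem _
        · exact Ideal.subset_span ⟨j, hj, rfl⟩
      · apply Ideal.span_mono
        rintro _ ⟨j, hj, rfl⟩
        exact ⟨f j, ⟨j, List.mem_cons_of_mem _ hj, rfl⟩, rfl⟩
    exact ih (fun j => π (f j)) ψ₁ hψ₁ hk₁
      (ab_step hT hKERQ hVRL i n e m f l π hπ hkπ hV)

end VRs

end QCV


end
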