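import Mathlib
import Pool.Agent.QVM.C11
import Pool.Agent.QVM.C36
import Pool.Agent.QVM.C37
import Pool.Agent.QVM.C39
import Pool.Agent.QVM.C41

/-! Parts: QCV.R_PRD, QCV.StRed, QCV.F_RED2, QCV.Fin, QCV.R_ELM -/

section

set_option autoImplicit false

open Polynomial

namespace QCV

open CUB

section

variable {k A : Type} [Field k] [CommRing A] [Algebra k A]

/-- the homomorphism `y ↦ ε`, where `ε ^ 2 = ε` -/
noncomputable def pr01 (ε : A) (h : ε ^ 2 - ε = 0) : Q A 0 →ₐ[k] A :=
  Qlift (AlgHom.id k A) ε (h.trans (map_zero _).symm)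

lemma pr01_yy (ε : A) (h : ε ^ 2 - ε = 0) : pr01 (k := k) ε h (yy 0) = ε := Qlift_yy _ _ _

lemma pr01_alg (ε : A) (h : ε ^ 2 - ε = 0) (a : A) :
    pr01 (k := k) ε h (algebraMap A (Q A 0) a) = a := Qlift_algebraMap _ _ _ _

lemma pr01_surjective (ε : A) (h : ε ^ 2 - ε = 0) : Function.Surjective (pr01 (k := k) ε h) :=
  fun a => ⟨algebraMap A (Q A 0) a, pr01_alg _ _ _⟩

lemma yy0_idem : (yy (0 : A)) * (yy (0 : A)) = yy 0 := by
  have h1 := yy_eq (0 : A)
  rw [map_zero, sub_zero, sub_eq_zero, sq] at h1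
  exact h1

end

theorem t_PRD : S_PRD := by
  intro k _ P hP A _ _ _ hA
  refine hP.glue (yy (0 : A)) (pr01 (k := k) (0 : A) (by ring)) (pr01 (k := k) (1 : A) (by ring))
    ⟨pr01_surjective _ _, ?_, ?_⟩ hA hA
  · apply le_antisymm
    · intro x hx
      obtain ⟨a, b, rfl⟩ := Q_span x
      have h1 : pr01 (k := k) (0 : A) (by ring)
        (algebraMap A (Q A 0) a + algebraMap A (Q A 0) b * yy 0) = 0 := hx
      rw [map_add, map_mul, pr01_alg, pr01_alg, pr01_yy, mul_zero, add_zero] at h1
      rw [h1, map_zero, zero_add]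
      exact Ideal.mul_mem_left _ _ (Ideal.subset_span rfl)
    · rw [Ideal.span_singleton_le_iff_mem]
      exact pr01_yy (k := k) (0 : A) (by ring)
  · let : Algebra (Q A 0) A := (pr01 (k := k) (1 : A) (by ring)).toRingHom.toAlgebra
    apply IsLocalization.away_of_isIdempotentElem
    · exact yy0_idem
    · apply le_antisymm
      · intro x hx
        obtain ⟨a, b, rfl⟩ := Q_span x
        have h1 : pr01 (k := k) (1 : A) (by ring)
          (algebraMap A (Q A 0) a + algebraMap A (Q A 0) b * yy 0) = 0 := hx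
        rw [map_add, map_mul, pr01_alg, pr01_alg, pr01_yy, mul_one] at h1
        rw [Ideal.mem_span_singleton]
        refine ⟨algebraMap A (Q A 0) a, ?_⟩
        have h2 : b = -a := by linear_combination h1
        rw [h2, map_neg]
        ring
      · rw [Ideal.span_singleton_le_iff_mem]
        change pr01 (k := k) (1 : A) (by ring) (1 - yy 0) = 0
        rw [map_sub, map_one, pr01_yy, sub_self]
    · exact pr01_surjective (k := k) (1 : A) (by ring)

end QCV


end

section

/-!
# QCV: statement of the reduction of several equations to one, for generalised eigenspaces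
-/

set_option autoImplicit false

open CategoryTheory AlgebraicGeometry Polynomial

namespace QCV

open Pool.Agent.Lib_helper55.Beil Pool.Agent.Lib_helper66.OneP CUB

universe v

/-- **RED2**.  The version of `CUB.S_RED` for the inclusion `gen ≤ alg`.
Proof: as the surjectivity part of `CUB.red_surj` (`V_RED.lean`), for a class `α` in the generalised
eigenspace instead of an invariant class. -/
def S_RED2 : Prop := ∀ (k E : Type) [Field k] [Finite k] [Field E] [CharZero E]
  (T : ∀ i : ℕ, Homology.{v} k E i), Extra T → ∀ (R R' : Type) [CommRing R] [CommRing R']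
  [Algebra k R] [Algebra k R'] [Algebra.FiniteType k R] [Algebra.FiniteType k R'] (m i : ℕ)
  (f : Fin (m + 1) → R) (ψ : R →ₐ[k] R'), Function.Surjective ψ →
  RingHom.ker ψ.toRingHom = Ideal.span (Set.range f) → (∀ z : RP k R i →₀ E, z ∈ rat k R E i) →
  (T (i + (m + 1))).gen (aff k (VR R f)) ≤ (T (i + (m + 1))).alg (aff k (VR R f)) →
  (T i).gen (aff k R') ≤ (T i).alg (aff k R')

end QCV


end

section

/-!
# QCV: the reduction of several equations to one, for generalised eigenspaces
-/

set_option autoImplicit false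

open Polynomial CategoryTheory AlgebraicGeometry

namespace QCV

open Pool.Agent.Lib_helper55.Beil Pool.Agent.Lib_helper66.OneP CUB

universe v

variable {k : Type} [Field k] {E : Type} [Field E]

section Red

variable (T : ∀ i : ℕ, Homology.{v} k E i)
  {R R' : Type} [CommRing R] [CommRing R'] [Algebra k R] [Algebra k R']
  [Algebra.FiniteType k R] [Algebra.FiniteType k R']

lemma exists_cls_of_alg {A : Type} [CommRing A] [Algebra k A] [Algebra.FiniteType k A] (n : ℕ)
    (m : (T n).H (2 * n) (aff k A)) (hm : m ∈ (T n).alg (aff k A)) :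
    ∃ ζ : RP k A n →₀ E, cls T n ζ = m := by
  rw [Homology.alg, ← Finsupp.range_linearCombination] at hm
  obtain ⟨c, hc⟩ := hm
  refine ⟨(cyE E n).symm c, ?_⟩
  rw [cls_eq, LinearEquiv.apply_symm_apply]
  exact hc

lemma cls_mem_alg {A : Type} [CommRing A] [Algebra k A] [Algebra.FiniteType k A] (n : ℕ)
    (ζ : RP k A n →₀ E) : cls T n ζ ∈ (T n).alg (aff k A) := by
  rw [cls_eq]
  exact (T n).linComb_mem_alg _ _

/-- RED, for generalised eigenspaces. -/
theorem red_gen (X : Extra T) [PerfectField k] [CharZero E] (hKERQ : S_KERQ) (hVRL : S_VRL)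
    (hPLIN : S_PLIN) (hGX : S_GX)
    (hGCO : S_GCO) (hFPX : S_FPX) (hCSU : S_CSU) (i m : ℕ) (f : Fin (m + 1) → R)
    (ψ : R →ₐ[k] R') (hψ : Function.Surjective ψ)
    (hk : RingHom.ker ψ.toRingHom = Ideal.span (Set.range f)) (h : ∀ j, ψ (f j) = 0)
    (hzr : ∀ z : RP k R i →₀ E, z ∈ rat k R E i)
    (hS : (T (i + (m + 1))).gen (aff k (VR R f)) ≤ (T (i + (m + 1))).alg (aff k (VR R f))) :
    (T i).gen (aff k R') ≤ (T i).alg (aff k R') := by
  intro α hα
  obtain ⟨lam, hlam⟩ := hline T X hPLIN hGX hGCO hFPX R' i (m + 1)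
  have h' : ∀ j, AlgHom.id k R' (ψ (f j)) = 0 := h
  -- notation
  let N := i + (m + 1)
  let g : Fin (m + 1) → R' := fun j => ψ (f j)
  let s0 := sheet (AlgHom.id k R') g h' false
  let s1 := sheet (AlgHom.id k R') g h' true
  have hs0 : Function.Surjective s0 := sheet_surjective _ Function.surjective_id _ h' false
  have hs1 : Function.Surjective s1 := sheet_surjective _ Function.surjective_id _ h' true
  let I0 := (T N).push (2 * N) (clo s0 hs0)
  let I1 := (T N).push (2 * N) (clo s1 hs1)
  let V := (T N).push (2 * N) (clo (VRmap ψ f) (VRmap_surjective ψ hψ f))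
  let τ := (T N).push (2 * N) (vcl (tau (k := k) (lin g)))
  let F := (T N).frob (2 * N) (aff k (MvPolynomial (Fin (m + 1)) R'))
  let a := lam α
  have ha : a ∈ (T N).gen (aff k (MvPolynomial (Fin (m + 1)) R')) :=
    maxGen_map ((T i).frob (2 * i) (aff k R')) F lam (fun x => hlam.frob x) hα
  -- the sheets are exchanged
  have hτ0 : ∀ x, τ (I0 x) = I1 x := fun x => X.push_comp N (2 * N) _ _ _ (clo s0 hs0)
    (vcl (tau (k := k) (lin g))) (clo s1 hs1) (by
      change spm s0 ≫ spm (tauH (k := k) (lin g)) = spm s1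
      rw [spm_comp]
      exact congrArg spm (sheet_tau (AlgHom.id k R') g h')) x
  have hττ : ∀ x, τ (τ x) = x := fun x => P_tau_tau T X N (2 * N) (lin g) x
  have hτ1 : ∀ x, τ (I1 x) = I0 x := fun x => by rw [← hτ0, hττ]
  -- the class of the difference of the sheets
  let δ := I0 a - I1 a
  have hFV : V δ ∈ (T N).gen (aff k (VR R f)) := by
    have e2 : I0 a ∈ (T N).gen _ := maxGen_map F ((T N).frob (2 * N) _) I0
      (fun x => (T N).push_frob (2 * N) _ x) ha
    have e3 : I1 a ∈ (T N).gen _ := maxGen_map F ((T N).frob (2 * N) _) I1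
      (fun x => (T N).push_frob (2 * N) _ x) ha
    exact maxGen_map ((T N).frob (2 * N) _) ((T N).frob (2 * N) _) V
      (fun x => (T N).push_frob (2 * N) _ x) (sub_mem e2 e3)
  obtain ⟨ζ, hζ⟩ := exists_cls_of_alg T N (V δ) (hS hFV)
  obtain ⟨z₀, z₁, d₀, d₁, hd₀, hd₁, hrat⟩ := hCSU k R R' E m i f ψ hψ h hk hzr ζ
  let b0 := lam (cls T i z₀)
  let b1 := lam (cls T i z₁)
  have hb0 : b0 = cls T N d₀ := hlam.cls z₀ d₀ hd₀
  have hb1 : b1 = cls T N d₁ := hlam.cls z₁ d₁ hd₁
  have hsh : ∀ ε (hs : Function.Surjective (sheet (AlgHom.id k R') g h' ε)) x,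
      (T N).P (2 * N) (clo (sheet ψ f h ε) (sheet_surjective ψ hψ f h ε)) x =
        V ((T N).push (2 * N) (clo (sheet (AlgHom.id k R') g h' ε) hs) x) := by
    intro ε hs x
    refine (X.push_comp N (2 * N) _ _ _ (clo (sheet (AlgHom.id k R') g h' ε) hs)
      (clo (VRmap ψ f) (VRmap_surjective ψ hψ f))
      (clo (sheet ψ f h ε) (sheet_surjective ψ hψ f h ε)) ?_ x).symm
    change spm (sheet (AlgHom.id k R') g h' ε) ≫ spm (VRmap ψ f) = spm (sheet ψ f h ε)
    rw [spm_comp]
    exact congrArg spm (sheet_factor ψ f h h' ε)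
  have hVδ : V δ = V (I0 b0) + V (I1 b1) := by
    have e1 := cls_rat T N _ hrat
    rw [map_sub, map_sub, ← cls_push, ← cls_push] at e1
    have e2 : cls T N ζ = V δ := hζ
    rw [e2, ← hb0, ← hb1, hsh false hs0, hsh true hs1] at e1
    have e3 : V δ - V (I0 b0) - V (I1 b1) = 0 := e1
    rw [sub_sub, sub_eq_zero] at e3
    exact e3
  let δ' := δ - I0 b0 - I1 b1
  have hVδ' : V δ' = 0 := by
    change V (δ - I0 b0 - I1 b1) = 0
    rw [map_sub, map_sub, hVδ]
    abel
  have hτV : ∀ x, V (τ x) = (T N).push (2 * N) (vcl (tau (k := k) (lin f))) (V x) := fun x =>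
    (P_tau_VRmap T X N (2 * N) f ψ hψ x).symm
  have hδ'' : δ' - τ δ' = 0 := by
    refine hchain T X hKERQ hVRL (i + m) (2 * (i + m) + 1) m (List.finRange (m + 1)) f ψ hψ ?_
      (δ' - τ δ') ?_ ?_
    · rw [hk]
      congr 1
      ext x
      simp
    · change τ (δ' - τ δ') = -(δ' - τ δ')
      rw [map_sub, hττ]
      abel
    · change V (δ' - τ δ') = 0
      rw [map_sub, hVδ', hτV, hVδ', map_zero, sub_zero]
  let w := a - b0 + (a + b1)
  have hδI : δ' = I0 (a - b0) - I1 (a + b1) := by
    change I0 a - I1 a - I0 b0 - I1 b1 = _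
    rw [map_sub, map_add]
    abel
  have hτδ : τ δ' = I1 (a - b0) - I0 (a + b1) := by
    have e1 : τ δ' = τ (I0 (a - b0)) - τ (I1 (a + b1)) := (congrArg τ hδI).trans (map_sub τ _ _)
    rw [e1, hτ0, hτ1]
  have hw : I0 w = I1 w := by
    have e1 : I0 (a - b0) - I1 (a + b1) = I1 (a - b0) - I0 (a + b1) :=
      hδI.symm.trans ((sub_eq_zero.mp hδ'').trans hτδ)
    change I0 (a - b0 + (a + b1)) = I1 (a - b0 + (a + b1))
    rw [map_add I0, map_add I1]
    exact sub_eq_sub_iff_add_eq_add.mp e1
  -- restriction to the first sheet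
  have hloc := isLocalization_sheet_false (k := k) g h'
  have hc := complementary_away s0 (1 - yy (lin g)) hloc s1 hs1 (ker_sheet_true g h')
  have e0 : (T N).R (2 * N) (opn s0 (isOpenImmersion_spm s0 _ hloc)) (I0 w) = w :=
    X.clopen N (2 * N) _ _ (clo s0 hs0) (opn s0 (isOpenImmersion_spm s0 _ hloc)) rfl w
  have e1 : (T N).R (2 * N) (opn s0 (isOpenImmersion_spm s0 _ hloc)) (I1 w) = 0 :=
    (((T N).localisation (2 * N) _ _ _ _ _ hc).1 (I1 w)).mpr ⟨w, rfl⟩
  rw [hw, e1] at e0
  have e2 : lam ((2 : E) • α) = lam (cls T i (z₀ - z₁)) := by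
    rw [map_smul, map_sub, map_sub, two_smul]
    have e3 : a - b0 + (a + b1) = 0 := e0.symm
    have e4 : a + a = b0 - b1 := by
      rw [← sub_eq_zero]
      rw [← e3]
      abel
    exact e4
  have e5 := hlam.inj e2
  have e6 : α = cls T i ((2 : E)⁻¹ • (z₀ - z₁)) := by
    rw [map_smul, ← e5, smul_smul, inv_mul_cancel₀ two_ne_zero, one_smul]
  rw [e6]
  exact cls_mem_alg T i _

end Red

/-- RED2. -/
theorem t_RED2 : S_RED2.{v} := by
  intro k E _ _ _ _ T X R R' _ _ _ _ _ _ m i f ψ hψ hk hzr hG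
  have h : ∀ j, ψ (f j) = 0 := by
    intro j
    have h1 : f j ∈ RingHom.ker ψ.toRingHom := by
      rw [hk]
      exact Ideal.subset_span ⟨j, rfl⟩
    exact h1
  exact red_gen T X Asm.s_KERQ Asm.s_VRL Asm.s_PLIN Asm.s_GX Asm.s_GCO Asm.s_FPX Asm.s_CSU i m f ψ
    hψ hk h hzr hG

end QCV


end

section

/-!
# QCV: assembly of the two halves
-/

set_option autoImplicit false

open CategoryTheory AlgebraicGeometry Polynomial

namespace QCV

open Pool.Agent.Lib_helper55.Beil Pool.Agent.Lib_helper66.OneP CUB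

universe v

variable {k : Type} [Field k] {E : Type} [Field E]

lemma Q1_of_PI {i : ℕ} (T : Homology.{v} k E i) (X : Var k) (h : PI T X) : Q1 T X :=
  ⟨h.inj, T.surj_of_good X h.gg, T.semisimple_of_good X h.gg⟩

/-- dimension of affine varieties and of their primes -/
lemma dimLE_aff {A : Type} [CommRing A] [Algebra k A] [Algebra.FiniteType k A] (d : ℕ) :
    (aff k A).DimLE d ↔ DL k A d := by
  constructor
  · intro h p
    rw [← dim_toPt]
    exact h _
  · intro h x
    have := h (ofPt x)
    rw [← dim_toPt] at this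
    exact this

/-- The results of the homology half used in the assembly. -/
structure HomBlock (T : ∀ i : ℕ, Homology.{v} k E i) : Prop where
  cls0 : ∀ i, Cls0 k (fun A _ _ _ => PI (T i) (aff k A))
  cls : ∀ d, (∀ X : Var k, X.DimLE d → PP T X) → Cls k d (fun A _ _ _ => PP T (aff k A))
  small : ∀ (i : ℕ) (X : Var k), X.DimLE i → PI (T i) X

/-- The main theorem, given the base case. -/
theorem main_of (hPLY : S_PLY) (hQUA : S_QUA) (hVRP : S_VRP)
    (hIGE : S_IGE) [Finite k] [CharZero E] (T : ∀ i : ℕ, Homology.{v} k E i) (hT : Full T)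
    (hH : HomBlock T) (d : ℕ) (hd1 : 1 ≤ d) (hd2 : d ≤ 2)
    (hB : ∀ X : Var k, X.DimLE d → PP T X)
    (R : Type) [CommRing R] [Algebra k R] [Algebra.FiniteType k R] (e n r : ℕ)
    (f : Fin r → MvPolynomial (Fin n) R) (hR : DL k R e) (hr : 1 ≤ r) (her : e + r ≤ d + 1)
    (hf : ∀ j, (f j).totalDegree ≤ 2) (i : ℕ) : Q1 (T i) (aff k (ER f)) := by
  have hC := hH.cls d hB
  have mono : ∀ (A : Type) [CommRing A] [Algebra k A] (a b : ℕ), a ≤ b → DL k A a → DL k A b := by
    intro A _ _ a b hab h p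
    exact (h p).trans (by exact_mod_cast hab)
  obtain ⟨m, rfl⟩ : ∃ m, r = m + 1 := ⟨r - 1, by omega⟩
  rcases Nat.eq_zero_or_pos m with rfl | hm
  · have h1 : PP T (aff k (ER f)) := hQUA k _ d hC n R f (mono R e d (by omega) hR) hf
    exact Q1_of_PI _ _ (h1 i)
  have he : e ≤ 1 := by omega
  by_cases hin : i < n
  · have h1 : PP T (aff k (VR (MvPolynomial (Fin n) R) f)) :=
      hVRP k _ d e n (m + 1) hC (by omega) (by omega) R f hR hf
    have h2 := h1 (i + (m + 1))
    let ψ : MvPolynomial (Fin n) R →ₐ[k] ER f := Ideal.Quotient.mkₐ k _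
    have hψ : Function.Surjective ψ := Ideal.Quotient.mkₐ_surjective k _
    have hk : RingHom.ker ψ.toRingHom = Ideal.span (Set.range f) := Ideal.mk_ker
    have hz : ∀ z : RP k (MvPolynomial (Fin n) R) i →₀ E,
        z ∈ rat k (MvPolynomial (Fin n) R) E i := (Asm.s_L0M k R E n).2 i hin
    have h3 := (Asm.s_RED k E T hT.toExtra (MvPolynomial (Fin n) R) (ER f) m i f ψ hψ hk hz).1
      h2.inj
    have h4 := t_RED2 k E T hT.toExtra (MvPolynomial (Fin n) R) (ER f) m i f ψ hψ hk hz h2.gg
    exact ⟨h3, (T i).surj_of_good _ h4, (T i).semisimple_of_good _ h4⟩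
  · have h1 : PI (T i) (aff k (ER f)) := by
      refine hIGE k (Fin (m + 1)) (fun A _ _ _ => PI (T i) (aff k A)) n (hH.cls0 i) ?_ ?_ R f
        (mono R e 1 he hR)
      · intro A _ _ _ hA
        have h2 := (hPLY k (fun A _ _ _ => PP T (aff k A)) hC.toCls0 hC.line A n).1
          (hC.base A (mono A 1 d hd1 hA))
        exact h2 i
      · intro A _ _ _ hA
        exact hH.small i _ ((dimLE_aff i).2 (mono A n i (not_lt.mp hin) hA))
    exact Q1_of_PI _ _ h1

end QCV


end

section

/-!
# QCV: elimination of a variable by an equation of degree at most one, for any family of equations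
-/

set_option autoImplicit false

open Polynomial

namespace QCV

open CUB

/-- Elimination of the variable `x_j` by the equation `f none`. -/
theorem eli {k R ι₀ : Type} [Field k] [CommRing R] [Algebra k R] {n : ℕ}
    (f : Option ι₀ → MvPolynomial (Fin (n + 1)) R) (j : Fin (n + 1))
    (h0 : (f none).totalDegree ≤ 1)
    (hu : IsUnit (MvPolynomial.coeff (Finsupp.single j 1) (f none))) :
    ∃ h : ι₀ → MvPolynomial (Fin n) R,
      (∀ c, (h c).totalDegree ≤ (f (some c)).totalDegree) ∧ Nonempty (ER f ≃ₐ[k] ER h) := by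
  classical
  obtain ⟨u, hu⟩ := hu
  rcases subsingleton_or_nontrivial R with hR | hR
  · refine ⟨fun _ => 0, by simp, ?_⟩
    refine ELI.equiv_of _ _ (IsScalarTower.toAlgHom k R (MvPolynomial (Fin n) R) |>.comp
      ((MvPolynomial.aeval (fun _ => (0 : R))).restrictScalars k)) (IsScalarTower.toAlgHom k R
      (MvPolynomial (Fin (n + 1)) R) |>.comp
      ((MvPolynomial.aeval (fun _ => (0 : R))).restrictScalars k)) ?_ ?_ ?_ ?_
    · intro x _
      rw [Subsingleton.elim x 0]
      exact zero_mem _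
    · intro x _
      rw [Subsingleton.elim x 0]
      exact zero_mem _
    · intro b
      rw [Subsingleton.elim (_ - b) 0]
      exact zero_mem _
    · intro b
      rw [Subsingleton.elim (_ - b) 0]
      exact zero_mem _
  -- the linear form in the other variables
  let l : MvPolynomial (Fin n) R := MvPolynomial.C (MvPolynomial.coeff 0 (f none)) +
    ∑ i, MvPolynomial.C (MvPolynomial.coeff (Finsupp.single (j.succAbove i) 1) (f none)) *
      MvPolynomial.X i
  let v : MvPolynomial (Fin n) R := - (MvPolynomial.C ((u⁻¹ : Rˣ) : R) * l)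
  let σ : MvPolynomial (Fin (n + 1)) R →ₐ[R] MvPolynomial (Fin n) R :=
    MvPolynomial.aeval (j.insertNth v MvPolynomial.X)
  let ι : MvPolynomial (Fin n) R →ₐ[R] MvPolynomial (Fin (n + 1)) R :=
    MvPolynomial.rename j.succAbove
  have hσj : σ (MvPolynomial.X j) = v := by
    change MvPolynomial.aeval _ _ = _
    rw [MvPolynomial.aeval_X, Fin.insertNth_apply_same]
  have hσi : ∀ i, σ (MvPolynomial.X (j.succAbove i)) = MvPolynomial.X i := by
    intro i
    change MvPolynomial.aeval _ _ = _
    rw [MvPolynomial.aeval_X, Fin.insertNth_apply_succAbove]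
  have hιi : ∀ i, ι (MvPolynomial.X i) = MvPolynomial.X (j.succAbove i) := fun i =>
    MvPolynomial.rename_X _ _
  have hσC : ∀ r : R, σ (MvPolynomial.C r) = MvPolynomial.C r := fun r => σ.commutes r
  have hιC : ∀ r : R, ι (MvPolynomial.C r) = MvPolynomial.C r := fun r => ι.commutes r
  have hdl : l.totalDegree ≤ 1 := by
    refine (MvPolynomial.totalDegree_add _ _).trans (max_le ?_ ?_)
    · rw [MvPolynomial.totalDegree_C]
      exact Nat.zero_le _
    · refine MvPolynomial.totalDegree_finsetSum_le fun i _ => ?_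
      refine (MvPolynomial.totalDegree_mul _ _).trans ?_
      rw [MvPolynomial.totalDegree_C, MvPolynomial.totalDegree_X]
  have hdv : v.totalDegree ≤ 1 := by
    change (- _ : MvPolynomial (Fin n) R).totalDegree ≤ 1
    rw [MvPolynomial.totalDegree_neg]
    refine (MvPolynomial.totalDegree_mul _ _).trans ?_
    rw [MvPolynomial.totalDegree_C, zero_add]
    exact hdl
  have hdσ : ∀ i, ((j.insertNth v MvPolynomial.X : Fin (n + 1) → MvPolynomial (Fin n) R)
      i).totalDegree ≤ 1 := by
    intro i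
    rcases Fin.eq_self_or_eq_succAbove j i with rfl | ⟨i, rfl⟩
    · rw [Fin.insertNth_apply_same]
      exact hdv
    · rw [Fin.insertNth_apply_succAbove, MvPolynomial.totalDegree_X]
  have hιl : ι l = MvPolynomial.C (MvPolynomial.coeff 0 (f none)) +
      ∑ i, MvPolynomial.C (MvPolynomial.coeff (Finsupp.single (j.succAbove i) 1) (f none)) *
        MvPolynomial.X (j.succAbove i) := by
    change ι (_ + _) = _
    rw [map_add, hιC, map_sum]
    congr 1
    refine Finset.sum_congr rfl fun i _ => ?_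
    rw [map_mul, hιC, hιi]
  have hf0 : f none = MvPolynomial.C (u : R) * MvPolynomial.X j + ι l := by
    conv_lhs => rw [ELI.deg_one (f none) h0, Fin.sum_univ_succAbove _ j, ← hu]
    rw [hιl]
    ring
  have huu : MvPolynomial.C (u : R) * MvPolynomial.C ((u⁻¹ : Rˣ) : R) =
      (1 : MvPolynomial (Fin n) R) := by
    rw [← map_mul, Units.mul_inv, map_one]
  have huu' : MvPolynomial.C ((u⁻¹ : Rˣ) : R) * MvPolynomial.C (u : R) =
      (1 : MvPolynomial (Fin (n + 1)) R) := by
    rw [← map_mul, Units.inv_mul, map_one]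
  have hσι : ∀ x, σ (ι x) = x := by
    intro x
    have : σ.comp ι = AlgHom.id R _ := by
      ext i
      change MvPolynomial.coeff _ (σ (ι (MvPolynomial.X i))) = _
      rw [hιi, hσi]
      rfl
    exact DFunLike.congr_fun this x
  have hσf0 : σ (f none) = 0 := by
    rw [hf0, map_add, map_mul, hσC, hσj, hσι]
    change MvPolynomial.C (u : R) * (- (MvPolynomial.C ((u⁻¹ : Rˣ) : R) * l)) + l = 0
    rw [mul_neg, ← mul_assoc, huu, one_mul, neg_add_cancel]
  have hισ : ∀ x, ι (σ x) - x ∈ Ideal.span {f none} := by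
    intro x
    have : ((Ideal.Quotient.mkₐ R (Ideal.span {f none})).comp ι).comp σ =
        Ideal.Quotient.mkₐ R (Ideal.span {f none}) := by
      apply MvPolynomial.algHom_ext
      intro i
      change Ideal.Quotient.mk _ (ι (σ (MvPolynomial.X i))) = Ideal.Quotient.mk _ _
      rcases Fin.eq_self_or_eq_succAbove j i with rfl | ⟨i, rfl⟩
      · rw [hσj, Ideal.Quotient.eq, Ideal.mem_span_singleton']
        refine ⟨- MvPolynomial.C ((u⁻¹ : Rˣ) : R), ?_⟩
        change _ = ι (- (MvPolynomial.C ((u⁻¹ : Rˣ) : R) * l)) - _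
        rw [map_neg, map_mul, hιC, hf0, mul_add, ← mul_assoc, neg_mul, huu']
        ring
      · rw [hσi, hιi]
    rw [← Ideal.Quotient.eq]
    exact DFunLike.congr_fun this x
  refine ⟨fun c => σ (f (some c)), fun c => ELI.totalDegree_aeval_le _ hdσ (f (some c)), ?_⟩
  have hm : ∀ c, f c ∈ Ideal.span (Set.range f) := fun c => Ideal.subset_span ⟨c, rfl⟩
  have hle : Ideal.span {f none} ≤ Ideal.span (Set.range f) := by
    rw [Ideal.span_singleton_le_iff_mem]
    exact hm none
  refine ELI.equiv_of _ _ (σ.restrictScalars k) (ι.restrictScalars k) ?_ ?_ ?_ ?_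
  · rw [Ideal.span_le]
    rintro _ ⟨c, rfl⟩
    rcases c with _ | c
    · change σ (f none) ∈ Ideal.span (Set.range fun c => σ (f (some c)))
      rw [hσf0]
      exact zero_mem _
    · exact Ideal.subset_span ⟨c, rfl⟩
  · rw [Ideal.span_le]
    rintro _ ⟨c, rfl⟩
    change ι (σ (f (some c))) ∈ Ideal.span (Set.range f)
    have := add_mem (hle (hισ (f (some c)))) (hm (some c))
    rwa [sub_add_cancel] at this
  · intro b
    change σ (ι b) - b ∈ _
    rw [hσι, sub_self]
    exact zero_mem _
  · intro a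
    exact hle (hισ a)

end QCV


end
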