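import Mathlib
import Pool.Agent.QVM.C11
import Pool.Agent.QVM.C34
import Pool.Agent.QVM.C39

/-! Parts: QCV.Defs3, QCV.R_LIN, QCV.R_PLY, QCV.R_VRP, QCV.StP, QCV.P_PRA, QCV.P_DEG -/

section

/-!
# QCV: the class of varieties of the final statement
-/

set_option autoImplicit false

open CategoryTheory AlgebraicGeometry Polynomial

namespace QCV

open Pool.Agent.Lib_helper55.Beil Pool.Agent.Lib_helper66.OneP CUB

/-- The class of varieties over `k` which is built from the varieties of dimension at most `d` by
cutting and pasting, products with the affine line, descent along products with the affine line,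
double covers and finite etale coverings, passage from the complement of the zero section of a line
bundle to the base, quadric cones in an odd number of variables, and passage from the hypersurface
`y ^ 2 - y = t_0 f_0 + ... + t_m f_m` to `f_0 = ... = f_m = 0`. -/
inductive Built (k : Type) [Field k] (d : ℕ) : Var k → Prop
  /-- varieties of dimension at most `d` -/
  | small (X : Var k) : X.DimLE d → Built k d X
  /-- isomorphic varieties -/
  | iso {X Y : Var k} : VIso X Y → Built k d X → Built k d Y
  /-- a closed subvariety with the same points (for example the reduced subvariety) -/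
  | nil {Z X : Var k} (a : ClosedIn Z X) : Function.Surjective a.g → Built k d X → Built k d Z
  /-- `X` is the disjoint union of the closed subvariety `Z` and the open subvariety `U` -/
  | paste {Z U X : Var k} (a : ClosedIn Z X) (j : OpenIn U X) : Complementary a j →
      Built k d Z → Built k d U → Built k d X
  /-- the complement of the closed subvariety `Z` of `X` -/
  | cut {Z U X : Var k} (a : ClosedIn Z X) (j : OpenIn U X) : Complementary a j →
      Built k d X → Built k d Z → Built k d U
  /-- the product with the affine line -/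
  | line (A : Type) [CommRing A] [Algebra k A] [Algebra.FiniteType k A] :
      Built k d (aff k A) → Built k d (aff k A[X])
  /-- descent from the product `Y` of `X` and the affine line to `X` -/
  | unline {Y X : Var k} (L : Line Y X) : Built k d Y → Built k d X
  /-- descent along the double cover `Spec A[t] / (t ^ 2 + b t + c) → Spec A` -/
  | cover (A : Type) [CommRing A] [Algebra k A] [Algebra.FiniteType k A] (b c : A) :
      Built k d (aff k (Dr A b c)) → Built k d (aff k A)
  /-- descent along the finite etale covering `V → U` of an integral variety -/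
  | etale {V U : Var k} (f : Pool.Agent.Lib_helper66.OneP.FinEt V U) : IsIntegral U.X →
      Built k d V → Built k d U
  /-- the base `X` of a line bundle `Y → X`, if the complement `U` of the section `s` belongs to the
  class -/
  | bundle {Y X U : Var k} (B : Bun Y X) (s : ClosedIn X Y) (j : OpenIn U Y) :
      s.g ≫ B.q = 𝟙 X.X → Complementary s j → Built k d U → Built k d X
  /-- the quadric cone `a_0 x_0 ^ 2 + ... + a_2m x_2m ^ 2 = 0` over `Spec A`, where the `a_j` are
  units of `A` -/
  | odd (A : Type) [CommRing A] [Algebra k A] [Algebra.FiniteType k A] (m : ℕ)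
      (a : Fin (2 * m + 1) → A) : (∀ j, IsUnit (a j)) → Built k d (aff k A) →
      Built k d (aff k (MvPolynomial (Fin (2 * m + 1)) A ⧸ Ideal.span {dia a}))
  /-- the subvariety `f_0 = ... = f_m = 0` of `Spec A`, if the hypersurface
  `y ^ 2 - y = t_0 f_0 + ... + t_m f_m` in the product with the affine space of dimension `m + 2`
  belongs to the class -/
  | zeros (A : Type) [CommRing A] [Algebra k A] [Algebra.FiniteType k A] (m : ℕ)
      (f : Fin (m + 1) → A) : Built k d (aff k (VR A f)) →
      Built k d (aff k (A ⧸ Ideal.span (Set.range f)))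

end QCV


end

section

set_option autoImplicit false

open Polynomial

namespace QCV

open CUB

theorem t_LIN : S_LIN := by
  intro k R _ _ _ m f hf h0
  set q := MvPolynomial.finSuccEquiv R m (f 0) with hq
  have hdeg : ∀ i, q.coeff i ≠ 0 → (q.coeff i).totalDegree + i ≤ 2 := fun i hi =>
    (MvPolynomial.totalDegree_coeff_finSuccEquiv_add_le (f 0) i hi).trans hf
  have h2 : q.coeff 2 = 0 := by
    by_contra hne
    have h3 := hdeg 2 hne
    have h4 : (q.coeff 2).totalDegree = 0 := by omega
    rw [MvPolynomial.totalDegree_eq_zero_iff_eq_C] at h4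
    have h5 : MvPolynomial.coeff 0 (q.coeff 2) = 0 := by
      rw [hq, MvPolynomial.finSuccEquiv_coeff_coeff]
      have e : Finsupp.cons 2 (0 : Fin m →₀ ℕ) = Finsupp.single 0 2 := by
        ext j
        refine Fin.cases ?_ (fun j => ?_) j
        · simp
        · simp
      rw [e]
      exact h0
    rw [h5, MvPolynomial.C_0] at h4
    exact hne h4
  have h3 : q.natDegree ≤ 1 := by
    rw [Polynomial.natDegree_le_iff_coeff_eq_zero]
    intro N hN
    by_contra hne
    have h4 := hdeg N hne
    have h5 : N = 2 := by omega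
    rw [h5] at hne
    exact hne h2
  refine ⟨q.coeff 1, q.coeff 0, ?_, ?_, ⟨?_⟩⟩
  · by_cases h4 : q.coeff 1 = 0
    · rw [h4, MvPolynomial.totalDegree_zero]; omega
    · have := hdeg 1 h4
      omega
  · by_cases h4 : q.coeff 0 = 0
    · rw [h4, MvPolynomial.totalDegree_zero]; omega
    · have := hdeg 0 h4
      omega
  · refine Ideal.quotientEquivAlg _ _ ((MvPolynomial.finSuccEquiv R m).restrictScalars k) ?_
    rw [Ideal.map_span]
    congr 1
    have e1 : Set.range f = {f 0} := by
      ext x
      constructor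
      · rintro ⟨j, rfl⟩
        fin_cases j
        rfl
      · rintro rfl
        exact ⟨0, rfl⟩
    rw [e1, Set.image_singleton]
    congr 1
    exact (Polynomial.eq_X_add_C_of_natDegree_le_one h3).symm

end QCV


end

section

set_option autoImplicit false

open Polynomial

namespace QCV

open CUB

theorem t_PLY : S_PLY := by
  intro k _ P hP hl R _ _ _ n
  have h1 : ∀ n : ℕ, P R → P (MvPolynomial (Fin n) R) := by
    intro n hR
    induction n with
    | zero =>
      exact hP.iso ((MvPolynomial.isEmptyAlgEquiv R (Fin 0)).restrictScalars k).symm hR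
    | succ n ih =>
      exact hP.iso ((MvPolynomial.finSuccEquiv R n).restrictScalars k).symm (hl _ ih)
  refine ⟨h1 n, ?_, ?_⟩
  · intro ι f hf hR
    have h2 : Ideal.span (Set.range f) = ⊥ := by
      rw [Ideal.span_eq_bot]
      rintro _ ⟨j, rfl⟩
      exact hf j
    exact hP.iso ((AlgEquiv.quotientBot k (MvPolynomial (Fin n) R)).symm.trans
      (Ideal.quotientEquivAlgOfEq k h2.symm)) (h1 n hR)
  · intro ι f h
    apply hP.triv
    rw [Ideal.Quotient.subsingleton_iff, Ideal.eq_top_iff_one]
    exact h

end QCV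


end

section

set_option autoImplicit false

open Polynomial

namespace QCV

open CUB

lemma DL.mono {k A : Type} [Field k] [CommRing A] [Algebra k A] {a b : ℕ} (h : DL k A a)
    (hab : a ≤ b) : DL k A b := fun p => (h p).trans (by exact_mod_cast hab)

theorem t_VRP : M_VRP := by
  intro hDLM hPLY hQUA hPRD hV1P hVRQ hSWP k _ P d e n r hP hed
  induction r with
  | zero =>
    intro _ R _ _ _ f hR hf
    have h1 : P (MvPolynomial (Fin 0) (MvPolynomial (Fin n) R)) :=
      (hPLY k P hP.toCls0 hP.line _ 0).1 ((hPLY k P hP.toCls0 hP.line R n).1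
        (hP.base R (hR.mono hed)))
    have h2 := hPRD k P hP.toCls0 _ h1
    have h3 : lin f = 0 := by
      unfold lin
      simp
    have h4 : ∀ g : MvPolynomial (Fin 0) (MvPolynomial (Fin n) R), g = 0 →
        P (Q (MvPolynomial (Fin 0) (MvPolynomial (Fin n) R)) g) := by
      rintro g rfl
      exact h2
    exact h4 _ h3
  | succ r ih =>
    intro her R _ _ _ f hR hf
    have hS' : P (MvPolynomial (Fin r) (MvPolynomial (Fin n) R)) :=
      (hPLY k P hP.toCls0 hP.line _ r).1 ((hPLY k P hP.toCls0 hP.line R n).1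
        (hP.base R (hR.mono hed)))
    have hDL : DL k (MvPolynomial (Fin r) R) d := (hDLM k R e r hR).mono (by omega)
    obtain ⟨F, hF, ⟨eF⟩⟩ := hSWP k R n r f hf
    have h1 : P (ER F) := hQUA k P d hP n (MvPolynomial (Fin r) R) F hDL hF
    have h2 : P (MvPolynomial (Fin r) (MvPolynomial (Fin n) R) ⧸ Ideal.span {fs f}) :=
      hP.iso eF.symm h1
    have h3 := hV1P k P hP.toCls0 hP.line (MvPolynomial (Fin r) (MvPolynomial (Fin n) R)) (fs f)
      hS' h2
    have h4 := ih (by omega) R (fun j : Fin r => f j.succ) hR (fun j => hf _)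
    obtain ⟨z', u', hs⟩ := hVRQ k (MvPolynomial (Fin n) R) r f
    exact hP.glue _ z' u' hs h4 h3

end QCV


end

section

/-!
# QCV: statements for projective varieties
-/

set_option autoImplicit false

open CategoryTheory AlgebraicGeometry Polynomial

namespace QCV

open Pool.Agent.Lib_helper55.Beil Pool.Agent.Lib_helper66.OneP CUB

attribute [local instance] MvPolynomial.gradedAlgebra

/-- The grading of `R[x_0, ..., x_n]`. -/
noncomputable abbrev gr (R : Type) [CommRing R] (n : ℕ) :
    ℕ → Submodule R (MvPolynomial (Fin (n + 1)) R) :=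
  MvPolynomial.homogeneousSubmodule (Fin (n + 1)) R

/-- The projective space `Proj R[x_0, ..., x_n]`. -/
noncomputable abbrev PS (R : Type) [CommRing R] (n : ℕ) : Scheme.{0} := Proj (gr R n)

/-- The structure morphism of the projective space over `k`. -/
noncomputable def PSf (k R : Type) [Field k] [CommRing R] [Algebra k R] (n : ℕ) :
    PS R n ⟶ Spec (CommRingCat.of k) :=
  Proj.toSpecZero (gr R n) ≫ Spec.map (CommRingCat.ofHom
    ((algebraMap R (gr R n 0)).comp (algebraMap k R)))

/-- The closed subvariety `X` of the projective space over `R` is, up to nilpotents, defined by the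
homogeneous polynomials `f j`. -/
structure ProjSub {k : Type} [Field k] {R ι : Type} [CommRing R] [Algebra k R] {n : ℕ}
    (f : ι → MvPolynomial (Fin (n + 1)) R) (X : Var k) where
  /-- the closed immersion -/
  g : X.X ⟶ PS R n
  closed : IsClosedImmersion g
  comm : g ≫ PSf k R n = X.f
  range : ∀ p : ProjectiveSpectrum (gr R n),
    (∃ x : X.X, g x = p) ↔ ∀ j, f j ∈ p.asHomogeneousIdeal.toIdeal

end QCV


end

section

/-!
# QCV: the standard charts of projective space and dehomogenisation
-/

set_option autoImplicit false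

open CategoryTheory AlgebraicGeometry HomogeneousLocalization

namespace QCV

namespace PRA

attribute [local instance] MvPolynomial.gradedAlgebra

variable {R : Type} [CommRing R] {n : ℕ} (l : Fin (n + 1))

/-- the polynomial ring -/
abbrev A (R : Type) [CommRing R] (n : ℕ) : Type := MvPolynomial (Fin (n + 1)) R

lemma X_mem (j : Fin (n + 1)) : (MvPolynomial.X j : A R n) ∈ gr R n 1 :=
  MvPolynomial.isHomogeneous_X _ _

/-- the chart ring -/
abbrev S (R : Type) [CommRing R] {n : ℕ} (l : Fin (n + 1)) : Type :=
  Away (gr R n) (MvPolynomial.X l : A R n)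

/-- the localisation -/
abbrev L (R : Type) [CommRing R] {n : ℕ} (l : Fin (n + 1)) : Type :=
  Localization.Away (MvPolynomial.X l : A R n)

/-- the localisation map -/
noncomputable def loc : A R n →+* L R l := algebraMap _ _

/-- the inclusion of the scalars -/
noncomputable def sc : R →+* S R l :=
  (fromZeroRingHom (gr R n) _).comp (algebraMap R (gr R n 0))

lemma val_sc (c : R) : (sc l c).val = loc l (MvPolynomial.C c) := by
  change Localization.mk ((algebraMap R (gr R n 0) c : gr R n 0) : A R n) 1 = _
  rw [Localization.mk_one_eq_algebraMap]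
  rfl

/-- the coordinate `x_j / x_l` -/
noncomputable def q (j : Fin (n + 1)) : S R l :=
  Away.isLocalizationElem (X_mem (R := R) l) (X_mem (R := R) j)

/-- the fraction -/
lemma mk_spec {N : ℕ} (a : A R n) (ha : a ∈ gr R n (N • 1)) :
    (Away.mk (gr R n) (X_mem (R := R) l) N a ha).val * loc l (MvPolynomial.X l) ^ N =
      loc l a := by
  rw [Away.val_mk, Localization.mk_eq_mk', ← map_pow]
  exact IsLocalization.mk'_spec _ _ _

lemma q_spec (j : Fin (n + 1)) : (q (R := R) l j).val * loc l (MvPolynomial.X l) =
      loc l (MvPolynomial.X j) := by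
  have h := mk_spec (R := R) l (MvPolynomial.X j ^ 1) (N := 1) (by
    rw [pow_one]
    exact X_mem j)
  rw [pow_one (loc l (MvPolynomial.X l))] at h
  rw [show (loc l (MvPolynomial.X j) : L R l) = loc l (MvPolynomial.X j ^ 1) by rw [pow_one]]
  exact h

/-- the homomorphism `x_j ↦ x_j / x_l` -/
noncomputable def δ : A R n →+* S R l :=
  MvPolynomial.eval₂Hom (sc l) (q l)

/-- the value as a ring homomorphism -/
noncomputable def vl : S R l →+* L R l := algebraMap _ _

lemma vl_apply (z : S R l) : vl l z = z.val := rfl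

lemma vl_δ {N : ℕ} (a : A R n) (ha : a.IsHomogeneous N) :
    vl l (δ l a) * loc l (MvPolynomial.X l) ^ N = loc l a := by
  have h0 : (δ l a : S R l) = ∑ d ∈ a.support, sc l (MvPolynomial.coeff d a) *
      ∏ i, q l i ^ d i := by
    rw [δ, MvPolynomial.coe_eval₂Hom, MvPolynomial.eval₂_eq']
  have h1 : a = ∑ d ∈ a.support, MvPolynomial.C (MvPolynomial.coeff d a) *
      ∏ i, MvPolynomial.X i ^ d i := by
    have h2 := MvPolynomial.eval₂_eq' (MvPolynomial.C : R →+* A R n) MvPolynomial.X a
    rw [← h2]
    exact (MvPolynomial.eval₂_eta a).symm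
  rw [h0, map_sum, Finset.sum_mul]
  conv_rhs => rw [h1, map_sum]
  apply Finset.sum_congr rfl
  intro d hd
  have h2 : ∑ i, d i = N := by
    have h3 := ha (MvPolynomial.mem_support_iff.mp hd)
    rw [← h3, Finsupp.weight_apply, Finsupp.sum_fintype]
    · simp
    · simp
  rw [map_mul, map_prod, map_mul, map_prod, vl_apply, val_sc, mul_assoc]
  congr 1
  rw [← h2, ← Finset.prod_pow_eq_pow_sum, ← Finset.prod_mul_distrib]
  apply Finset.prod_congr rfl
  intro i _
  rw [map_pow, map_pow, ← mul_pow, vl_apply, q_spec]

lemma δ_eq {N : ℕ} (a : A R n) (ha : a.IsHomogeneous N) (ha' : a ∈ gr R n (N • 1)) :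
    δ l a = Away.mk (gr R n) (X_mem (R := R) l) N a ha' := by
  apply val_injective
  have h1 := vl_δ l a ha
  have h2 := mk_spec (R := R) l a ha'
  have hu : IsUnit (loc (R := R) l (MvPolynomial.X l) ^ N) :=
    (IsLocalization.Away.algebraMap_isUnit _).pow N
  exact hu.mul_right_cancel (h1.trans h2.symm)

lemma δ_X (j : Fin (n + 1)) : δ (R := R) l (MvPolynomial.X j) = q l j := by
  rw [δ, MvPolynomial.coe_eval₂Hom, MvPolynomial.eval₂_X]

lemma δ_C (c : R) : δ (R := R) l (MvPolynomial.C c) = sc l c := by
  rw [δ, MvPolynomial.coe_eval₂Hom, MvPolynomial.eval₂_C]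

lemma q_self : q (R := R) l l = 1 := by
  apply val_injective
  have h1 := q_spec (R := R) l l
  have hu : IsUnit (loc (R := R) l (MvPolynomial.X l)) :=
    IsLocalization.Away.algebraMap_isUnit _
  have h2 : (q (R := R) l l).val * loc l (MvPolynomial.X l) = 1 * loc l (MvPolynomial.X l) := by
    rw [h1, one_mul]
  rw [hu.mul_right_cancel h2, val_one]

/-- every element of the chart ring is a value of `δ` -/
lemma exists_δ (z : S R l) : ∃ (N : ℕ) (a : A R n), a.IsHomogeneous N ∧ δ l a = z := by
  obtain ⟨N, a, ha, rfl⟩ := Away.mk_surjective (gr R n) (X_mem (R := R) l) z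
  have ha' : a.IsHomogeneous N := by
    rw [smul_eq_mul, mul_one] at ha
    exact ha
  exact ⟨N, a, ha', δ_eq l a ha' ha⟩

/-! ## Dehomogenisation -/

/-- the number of the remaining variables -/
abbrev ns {n : ℕ} (l : Fin (n + 1)) : ℕ := n - l.1

/-- the values of the variables -/
noncomputable def ev (j : Fin (n + 1)) : MvPolynomial (Fin (ns l)) R :=
  if h : l.1 < j.1 then MvPolynomial.X ⟨j.1 - l.1 - 1, by have := j.2; unfold ns; omega⟩
  else if j = l then 1 else 0

lemma ev_lt (j : Fin (n + 1)) (h : j < l) : ev (R := R) l j = 0 := by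
  have h1 : ¬ l.1 < j.1 := by have : j.1 < l.1 := h; omega
  rw [ev, dif_neg h1, if_neg (ne_of_lt h)]

lemma ev_self : ev (R := R) l l = 1 := by
  rw [ev, dif_neg (lt_irrefl _), if_pos rfl]

/-- the index of the variable -/
def ix (i : Fin (ns l)) : Fin (n + 1) := ⟨l.1 + 1 + i.1, by have := i.2; unfold ns at this; omega⟩

lemma ev_ix (i : Fin (ns l)) : ev (R := R) l (ix l i) = MvPolynomial.X i := by
  have h1 : l.1 < (ix l i).1 := by unfold ix; simp only; omega
  rw [ev, dif_pos h1]
  congr 1
  ext
  unfold ix
  simp only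
  omega

lemma exists_ix (j : Fin (n + 1)) (h : l < j) : ∃ i, ix l i = j := by
  have h1 : l.1 < j.1 := h
  refine ⟨⟨j.1 - l.1 - 1, by have := j.2; unfold ns; omega⟩, ?_⟩
  ext
  unfold ix
  simp only
  omega

/-- dehomogenisation -/
noncomputable def e : A R n →ₐ[R] MvPolynomial (Fin (ns l)) R := MvPolynomial.aeval (ev l)

lemma e_X (j : Fin (n + 1)) : e (R := R) l (MvPolynomial.X j) = ev l j := MvPolynomial.aeval_X _ _

lemma e_C (c : R) : e (R := R) l (MvPolynomial.C c) = MvPolynomial.C c := (e l).commutes c

lemma totalDegree_e (a : A R n) : (e l a).totalDegree ≤ a.totalDegree := by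
  apply ELI.totalDegree_aeval_le
  intro j
  rw [ev]
  split_ifs
  · exact (MvPolynomial.isHomogeneous_X _ _).totalDegree_le
  · simp
  · simp

lemma isUnit_e : IsUnit ((e (R := R) l).toRingHom (MvPolynomial.X l)) := by
  change IsUnit (e (R := R) l (MvPolynomial.X l))
  rw [e_X, ev_self]
  exact isUnit_one

/-- dehomogenisation on the localisation -/
noncomputable def lf : L R l →+* MvPolynomial (Fin (ns l)) R :=
  IsLocalization.Away.lift (S := L R l) (MvPolynomial.X l : A R n) (g := (e (R := R) l).toRingHom)
    (isUnit_e l)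

lemma φ_loc (a : A R n) : lf l (loc l a) = e l a := IsLocalization.Away.lift_eq _ _ _

/-- dehomogenisation on the chart ring -/
noncomputable def φ : S R l →+* MvPolynomial (Fin (ns l)) R := (lf l).comp (vl l)

lemma φ_q (j : Fin (n + 1)) : φ (R := R) l (q l j) = ev l j := by
  have h1 := congrArg (lf l) (q_spec (R := R) l j)
  rw [map_mul, φ_loc, φ_loc, e_X, e_X, ev_self, mul_one] at h1
  exact h1

lemma φ_sc (c : R) : φ (R := R) l (sc l c) = MvPolynomial.C c := by
  have h1 := φ_loc (R := R) l (MvPolynomial.C c)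
  rw [e_C] at h1
  rw [← h1, ← val_sc]
  rfl

lemma φ_δ (a : A R n) : φ l (δ l a) = e l a := by
  have h : (φ (R := R) l).comp (δ l) = (e l).toRingHom := by
    apply MvPolynomial.ringHom_ext
    · intro c
      change φ l (δ l (MvPolynomial.C c)) = e l (MvPolynomial.C c)
      rw [δ_C, φ_sc, e_C]
    · intro j
      change φ l (δ l (MvPolynomial.X j)) = e l (MvPolynomial.X j)
      rw [δ_X, φ_q, e_X]
  exact RingHom.congr_fun h a

/-- the section of `φ` -/
noncomputable def σ : MvPolynomial (Fin (ns l)) R →+* S R l :=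
  MvPolynomial.eval₂Hom (sc l) (fun i => q l (ix l i))

lemma σ_X (i : Fin (ns l)) : σ (R := R) l (MvPolynomial.X i) = q l (ix l i) := by
  rw [σ, MvPolynomial.coe_eval₂Hom, MvPolynomial.eval₂_X]

lemma σ_C (c : R) : σ (R := R) l (MvPolynomial.C c) = sc l c := by
  rw [σ, MvPolynomial.coe_eval₂Hom, MvPolynomial.eval₂_C]

lemma φ_σ (b : MvPolynomial (Fin (ns l)) R) : φ l (σ l b) = b := by
  have h : (φ (R := R) l).comp (σ l) = RingHom.id _ := by
    apply MvPolynomial.ringHom_ext
    · intro c
      change φ l (σ l (MvPolynomial.C c)) = MvPolynomial.C c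
      rw [σ_C, φ_sc]
    · intro i
      change φ l (σ l (MvPolynomial.X i)) = MvPolynomial.X i
      rw [σ_X, φ_q, ev_ix]
  exact RingHom.congr_fun h b

lemma φ_surjective : Function.Surjective (φ (R := R) l) := fun b => ⟨σ l b, φ_σ l b⟩

/-- modulo the coordinates `x_j / x_l`, `j < l`, the homomorphism `σ ∘ φ` is the identity -/
lemma σφ (p : Ideal (S R l)) (hp : ∀ j, j < l → q l j ∈ p) (z : S R l) :
    z - σ l (φ l z) ∈ p := by
  obtain ⟨N, a, -, rfl⟩ := exists_δ l z
  rw [φ_δ]
  have h : (Ideal.Quotient.mk p).comp (δ (R := R) l) =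
      (Ideal.Quotient.mk p).comp ((σ l).comp (e l).toRingHom) := by
    apply MvPolynomial.ringHom_ext
    · intro c
      change Ideal.Quotient.mk p (δ l (MvPolynomial.C c)) =
        Ideal.Quotient.mk p (σ l (e l (MvPolynomial.C c)))
      rw [δ_C, e_C, σ_C]
    · intro j
      change Ideal.Quotient.mk p (δ l (MvPolynomial.X j)) =
        Ideal.Quotient.mk p (σ l (e l (MvPolynomial.X j)))
      rw [δ_X, e_X]
      rcases lt_trichotomy j l with hj | hj | hj
      · rw [ev_lt l j hj, map_zero, map_zero]
        exact Ideal.Quotient.eq_zero_iff_mem.mpr (hp j hj)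
      · subst hj
        rw [ev_self, q_self, map_one, map_one, map_one]
      · obtain ⟨i, rfl⟩ := exists_ix l j hj
        rw [ev_ix, σ_X]
  have h1 := RingHom.congr_fun h a
  rw [← Ideal.Quotient.eq]
  exact h1

end PRA

/-! ## The module -/

attribute [local instance] MvPolynomial.gradedAlgebra

/-- **PRA**: the charts. -/
theorem chart {R ι : Type} [CommRing R] {n : ℕ} (l : Fin (n + 1)) (m : ι → ℕ)
    (f : ι → MvPolynomial (Fin (n + 1)) R) (hf : ∀ j, f j ∈ gr R n (m j)) :
    ∃ φ : PRA.S R l →+* MvPolynomial (Fin (PRA.ns l)) R ⧸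
        Ideal.span (Set.range fun j => PRA.e l (f j)),
      Function.Surjective φ ∧ (∀ c : R, φ (PRA.sc l c) = algebraMap R _ c) ∧
      ∀ p : PrimeSpectrum (PRA.S R l), RingHom.ker φ ≤ p.asIdeal ↔
        (∀ j, j < l → Away.isLocalizationElem (PRA.X_mem (R := R) l) (PRA.X_mem j) ∈ p.asIdeal) ∧
        ∀ j, Away.isLocalizationElem (PRA.X_mem (R := R) l) (hf j) ∈ p.asIdeal := by
  let h : ι → MvPolynomial (Fin (PRA.ns l)) R := fun j => PRA.e l (f j)
  refine ⟨(Ideal.Quotient.mk _).comp (PRA.φ l), ?_, ?_, ?_⟩
  · exact Ideal.Quotient.mk_surjective.comp (PRA.φ_surjective l)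
  · intro c
    change Ideal.Quotient.mk _ (PRA.φ l (PRA.sc l c)) = _
    rw [PRA.φ_sc]
    rfl
  · intro p
    have hF : ∀ j, Away.isLocalizationElem (PRA.X_mem (R := R) l) (hf j) = PRA.δ l (f j) := by
      intro j
      rw [PRA.δ_eq l (f j) (hf j) (by rw [smul_eq_mul, mul_one]; exact hf j)]
      apply val_injective
      rw [Away.val_mk, Away.val_mk, pow_one]
    constructor
    · intro hk
      constructor
      · intro j hj
        apply hk
        rw [RingHom.mem_ker]
        change Ideal.Quotient.mk _ (PRA.φ l (PRA.q l j)) = 0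
        rw [PRA.φ_q, PRA.ev_lt l j hj, map_zero]
      · intro j
        apply hk
        rw [RingHom.mem_ker, hF]
        change Ideal.Quotient.mk _ (PRA.φ l (PRA.δ l (f j))) = 0
        rw [PRA.φ_δ]
        exact Ideal.Quotient.eq_zero_iff_mem.mpr (Ideal.subset_span ⟨j, rfl⟩)
    · rintro ⟨h1, h2⟩ z hz
      rw [RingHom.mem_ker] at hz
      have h3 : PRA.φ l z ∈ Ideal.span (Set.range h) := Ideal.Quotient.eq_zero_iff_mem.mp hz
      have h4 := PRA.σφ l p.asIdeal h1
      have h5 : Ideal.span (Set.range h) ≤ p.asIdeal.comap (PRA.σ l) := by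
        rw [Ideal.span_le]
        rintro _ ⟨j, rfl⟩
        have h6 := h4 (PRA.δ l (f j))
        rw [PRA.φ_δ] at h6
        have h7 := h2 j
        rw [hF] at h7
        have h8 := sub_mem h7 h6
        rw [sub_sub_cancel] at h8
        exact h8
      have h9 := h5 h3
      have h10 := add_mem (h4 z) h9
      rwa [sub_add_cancel] at h10

end QCV


end

section

/-!
# QCV: degrees in the last variables and dehomogenisation
-/

set_option autoImplicit false

namespace QCV

namespace PRA

variable {R : Type} [CommRing R] {n : ℕ} (l : Fin (n + 1))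

lemma ix_injective : Function.Injective (ix (n := n) l) := by
  intro i j h
  have h1 : (ix l i).1 = (ix l j).1 := congrArg Fin.val h
  unfold ix at h1
  simp only at h1
  exact Fin.ext (by omega)

lemma lt_ix (i : Fin (ns l)) : l < ix l i := by
  change l.1 < (ix l i).1
  unfold ix
  simp only
  omega

/-- The exponents of a dehomogenised monomial. -/
noncomputable def dm (d : Fin (n + 1) →₀ ℕ) : Fin (ns l) →₀ ℕ :=
  d.comapDomain (ix l) (ix_injective l).injOn

lemma dm_apply (d : Fin (n + 1) →₀ ℕ) (i : Fin (ns l)) : dm l d i = d (ix l i) := rfl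

lemma e_monomial (d : Fin (n + 1) →₀ ℕ) (c : R) :
    (e l) (MvPolynomial.monomial d c) = 0 ∨
      (e l) (MvPolynomial.monomial d c) = MvPolynomial.monomial (dm l d) c := by
  have h1 : (e l) (MvPolynomial.monomial d c) = MvPolynomial.C c * ∏ j, ev l j ^ d j := by
    rw [e, MvPolynomial.aeval_monomial, Finsupp.prod_fintype _ _ (fun j => by rw [pow_zero])]
    rfl
  by_cases h : ∃ j, j < l ∧ d j ≠ 0
  · obtain ⟨j, hj, hd⟩ := h
    left
    rw [h1, Finset.prod_eq_zero (Finset.mem_univ j), mul_zero]
    rw [ev_lt l j hj]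
    exact zero_pow hd
  · right
    have h2 : ∏ i : Fin (ns l), (MvPolynomial.X i : MvPolynomial (Fin (ns l)) R) ^ dm l d i =
        ∏ j, ev l j ^ d j := by
      refine Fintype.prod_of_injective (ix l) (ix_injective l) _ _ ?_ ?_
      · intro j hj
        rcases lt_trichotomy j l with hjl | hjl | hjl
        · have h3 : d j = 0 := by
            by_contra h4
            exact h ⟨j, hjl, h4⟩
          rw [h3, pow_zero]
        · subst hjl
          rw [ev_self, one_pow]
        · obtain ⟨i, hi⟩ := exists_ix l j hjl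
          exact absurd ⟨i, hi⟩ hj
      · intro i
        rw [ev_ix, dm_apply]
    rw [h1, ← h2, MvPolynomial.monomial_eq, Finsupp.prod_fintype _ _ (fun j => by rw [pow_zero])]

lemma exists_dm (f : MvPolynomial (Fin (n + 1)) R) (m : Fin (ns l) →₀ ℕ)
    (hm : m ∈ (e l f).support) : ∃ d ∈ f.support, m = dm l d := by
  classical
  have h1 : e l f = ∑ d ∈ f.support, e l (MvPolynomial.monomial d (MvPolynomial.coeff d f)) := by
    conv_lhs => rw [f.as_sum]
    rw [map_sum]
  rw [h1] at hm
  have h2 := MvPolynomial.support_sum hm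
  rw [Finset.mem_biUnion] at h2
  obtain ⟨d, hd, h3⟩ := h2
  refine ⟨d, hd, ?_⟩
  rcases e_monomial l d (MvPolynomial.coeff d f) with h4 | h4
  · rw [h4, MvPolynomial.support_zero] at h3
    exact absurd h3 (Finset.notMem_empty _)
  · rw [h4] at h3
    exact Finset.mem_singleton.mp (MvPolynomial.support_monomial_subset h3)

/-- Dehomogenisation and the degree in the last variables. -/
theorem deg_e' (a D : ℕ) (f : MvPolynomial (Fin (n + 1)) R)
    (hf : ∀ m ∈ f.support,
      (Finset.univ.filter (fun i : Fin (n + 1) => a < i.1)).sum (fun i => m i) ≤ D) :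
    ∀ m ∈ (PRA.e l f).support,
      (Finset.univ.filter (fun i : Fin (PRA.ns l) => a - l.1 ≤ i.1)).sum (fun i => m i) ≤ D := by
  classical
  intro m hm
  obtain ⟨d, hd, rfl⟩ := exists_dm l f m hm
  refine le_trans ?_ (hf d hd)
  have h1 : (Finset.univ.filter (fun i : Fin (PRA.ns l) => a - l.1 ≤ i.1)).sum
      (fun i => dm l d i) =
      ((Finset.univ.filter (fun i : Fin (PRA.ns l) => a - l.1 ≤ i.1)).image (ix l)).sum
        (fun j => d j) := by
    rw [Finset.sum_image (fun i _ j _ h => ix_injective l h)]
    rfl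
  rw [h1]
  apply Finset.sum_le_sum_of_subset
  intro j hj
  rw [Finset.mem_image] at hj
  obtain ⟨i, hi, rfl⟩ := hj
  rw [Finset.mem_filter] at hi ⊢
  refine ⟨Finset.mem_univ _, ?_⟩
  have h2 := hi.2
  unfold ix
  simp only
  omega

/-- Dehomogenisation and the degree in the last variables. -/
theorem deg_e {R : Type} [CommRing R] {n : ℕ} (l : Fin (n + 1)) (a : ℕ)
    (f : MvPolynomial (Fin (n + 1)) R)
    (hf : ∀ m ∈ f.support,
      (Finset.univ.filter (fun i : Fin (n + 1) => a < i.1)).sum (fun i => m i) ≤ 2) :
    ∀ m ∈ (PRA.e l f).support,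
      (Finset.univ.filter (fun i : Fin (PRA.ns l) => a - l.1 ≤ i.1)).sum (fun i => m i) ≤ 2 :=
  deg_e' l a 2 f hf

end PRA

end QCV


end
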