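import Mathlib
import Pool.Agent.QVM.C21
import Pool.Agent.QVM.C22
import Pool.Agent.QVM.C27
import Pool.Agent.QVM.C29
import Pool.Agent.QVM.C30
import Pool.Agent.QVM.C31
import Pool.Agent.QVM.C32
import Pool.Agent.QVM.C34
import Pool.Agent.QVM.C37
import Pool.Agent.QVM.C39
import Pool.Agent.QVM.C42
import Pool.Agent.QVM.C43
import Pool.Agent.QVM.C44

/-! Parts: QCV.Asm, QCV.G_CYC, QCV.G_TWO, QCV.G_LND, QCV.G_RED3, QCV.R_LNM, QCV.Cls, QCV.DefsO, QCV.StO, QCV.StC, QCV.StD -/

section

/-!
# QCV: assembly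
-/

set_option autoImplicit false

open CategoryTheory AlgebraicGeometry Polynomial

namespace QCV

open Pool.Agent.Lib_helper55.Beil Pool.Agent.Lib_helper66.OneP CUB

universe v

namespace Asm

theorem s_DLR : S_DLR := t_DLR

theorem s_DLM : S_DLM := t_DLM s_DLR

theorem s_NOE : S_NOE := t_NOE

theorem s_FAM : S_FAM := t_FAM

theorem s_SPR : S_SPR := t_SPR s_DLR s_NOE s_FAM

theorem s_PLY : S_PLY := t_PLY

theorem s_ELI : S_ELI := t_ELI

theorem s_TWQ : S_TWQ := t_TWQ s_DLR s_SPR s_PLY s_ELI

theorem s_LNR : S_LNR := t_LNR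

theorem s_LNF : S_LNF := t_LNF s_PLY s_LNR

theorem s_LIN : S_LIN := t_LIN

theorem s_SUB : S_SUB := t_SUB

theorem s_DRI : S_DRI := t_DRI

theorem s_QST : S_QST := t_QST s_DLR s_SPR s_TWQ s_LNF s_LIN s_SUB s_DRI

theorem s_Q01 : S_Q01 := t_Q01 s_DLR s_DLM s_SPR s_PLY

theorem s_QUA : S_QUA := t_QUA s_Q01 s_QST

theorem s_PRD : S_PRD := t_PRD

theorem s_V1R : S_V1R := t_V1R

theorem s_V1P : S_V1P := t_V1P s_PRD s_V1R

theorem s_VRQ : S_VRQ := t_VRQ

theorem s_SWP : S_SWP := t_SWP

theorem s_VRP : S_VRP := t_VRP s_DLM s_PLY s_QUA s_PRD s_V1P s_VRQ s_SWP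

theorem s_IGE : S_IGE := t_IGE s_DLR s_DLM s_SPR

end Asm

variable {k : Type} [Field k] {E : Type} [Field E]

/-- The conjecture for the varieties defined by `r` equations of degree at most two over a base of
dimension at most `e`. -/
def QuadricCase (T : ∀ i : ℕ, Homology.{v} k E i) (r e : ℕ) : Prop :=
  ∀ (R : Type) [CommRing R] [Algebra k R] [Algebra.FiniteType k R] (n : ℕ)
    (f : Fin r → MvPolynomial (Fin n) R), (aff k R).DimLE e → (∀ j, (f j).totalDegree ≤ 2) →
    ∀ i, Q1 (T i) (aff k (MvPolynomial (Fin n) R ⧸ Ideal.span (Set.range f)))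

theorem homBlock [Finite k] [CharZero E] (T : ∀ i : ℕ, Homology.{v} k E i) (hT : Full T)
    (hP : Pub T hT) : HomBlock T where
  cls0 := cls0_pi hT hP
  cls := cls_pp hT hP
  small := pi_of_dimLE hT hP

theorem main [Finite k] [CharZero E] (T : ∀ i : ℕ, Homology.{v} k E i) (hT : Full T)
    (hP : Pub T hT) :
    (∀ r e : ℕ, 1 ≤ r → r + e ≤ 2 → QuadricCase T r e) ∧
    ((∀ X : Var k, X.DimLE 2 → (T 1).Surj X ∧ (T 1).Semisimple X) →
      ∀ r e : ℕ, 1 ≤ r → r + e ≤ 3 → QuadricCase T r e) := by
  constructor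
  · intro r e hr her R _ _ _ n f hR hf i
    exact main_of Asm.s_PLY Asm.s_QUA Asm.s_VRP Asm.s_IGE T hT (homBlock T hT hP) 1 le_rfl
      (by omega) (fun X hX => pp_of_dimLE_one hT hP X hX) R e n r f ((dimLE_aff e).1 hR) hr
      (by omega) hf i
  · intro h r e hr her R _ _ _ n f hR hf i
    exact main_of Asm.s_PLY Asm.s_QUA Asm.s_VRP Asm.s_IGE T hT (homBlock T hT hP) 2 (by omega)
      le_rfl (fun X hX => pp_of_dimLE_two hT hP h X hX) R e n r f ((dimLE_aff e).1 hR) hr
      (by omega) hf i

end QCV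


end

section

/-!
# QCV, block G: cycles
-/

set_option autoImplicit false

open CategoryTheory AlgebraicGeometry Limits Polynomial TopologicalSpace

namespace QCV

open Pool.Agent.Lib_helper55.Beil Pool.Agent.Lib_helper66.OneP CUB

universe v

variable {k : Type} [Field k] {E : Type} [Field E] {T : ∀ i : ℕ, Homology.{v} k E i}

section

variable {i : ℕ} {Z X : Var k} (a : ClosedIn Z X)

lemma pushCyc_add (c d : Pts i Z →₀ E) : pushCyc a (c + d) = pushCyc a c + pushCyc a d :=
  (Finsupp.lmapDomain E E (ptsMap i a)).map_add c d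

lemma pushCyc_sub' (c d : Pts i Z →₀ E) : pushCyc a (c - d) = pushCyc a c - pushCyc a d :=
  (Finsupp.lmapDomain E E (ptsMap i a)).map_sub c d

lemma pushCyc_neg (c : Pts i Z →₀ E) : pushCyc a (-c) = -pushCyc a c :=
  (Finsupp.lmapDomain E E (ptsMap i a)).map_neg c

lemma pushCyc_smul (r : E) (c : Pts i Z →₀ E) : pushCyc a (r • c) = r • pushCyc a c :=
  (Finsupp.lmapDomain E E (ptsMap i a)).map_smul r c

lemma clz_smul (T : Homology.{v} k E i) (X : Var k) (r : E) (c : Pts i X →₀ E) :
    clz T X (r • c) = r • clz T X c :=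
  map_smul (Finsupp.linearCombination E (T.cl X)) r c

lemma clz_sub (T : Homology.{v} k E i) (X : Var k) (c d : Pts i X →₀ E) :
    clz T X (c - d) = clz T X c - clz T X d :=
  map_sub (Finsupp.linearCombination E (T.cl X)) c d

lemma clz_push (T : Homology.{v} k E i) (c : Pts i Z →₀ E) :
    T.P (2 * i) a (clz T Z c) = clz T X (pushCyc a c) := push_cls T a c

end

/-- The closure of a point. -/
lemma exists_supp_point {i : ℕ} {X : Var k} (p : Pts i X) :
    ∃ (C : Closeds X.X) (x : Pts i (closedVar X C)), (∀ y ∈ C, X.dim y ≤ i) ∧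
      ptsMap i (closedVarIn X C) x = p := by
  let C : Closeds X.X := ⟨closure {p.1}, isClosed_closure⟩
  have h1 : p.1 ∈ Set.range (closedVarIn X C).g := by
    rw [range_closedVarIn]
    exact subset_closure rfl
  obtain ⟨x, hx⟩ := h1
  have hcl := (closedVarIn X C).closed
  refine ⟨C, ⟨x, ?_⟩, ?_, Subtype.ext hx⟩
  · rw [← dim_map (closedVarIn X C).g (closedVarIn X C).comm, hx]
    exact p.2
  · intro y hy
    have h2 : p.1 ⤳ y := by
      rw [specializes_iff_mem_closure]
      exact hy
    rw [← p.2]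
    exact dim_le_of_specializes X h2

/-- Every cycle comes from a closed subvariety of dimension at most `i`. -/
lemma exists_supp_cyc {i : ℕ} (X : Var k) (c : Pts i X →₀ E) :
    ∃ C : Closeds X.X, (∀ x ∈ C, X.dim x ≤ i) ∧ ∃ c' : Pts i (closedVar X C) →₀ E,
      pushCyc (closedVarIn X C) c' = c := by
  induction c using Finsupp.induction_linear with
  | zero => exact ⟨⊥, fun x hx => hx.elim, 0, by simp [pushCyc]⟩
  | add x y hx hy =>
    obtain ⟨C, hC, c, rfl⟩ := hx
    obtain ⟨C', hC', c', rfl⟩ := hy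
    refine ⟨C ⊔ C', ?_, pushCyc (closedVarMap X (le_sup_left : C ≤ C ⊔ C')) c +
      pushCyc (closedVarMap X (le_sup_right : C' ≤ C ⊔ C')) c', ?_⟩
    · rintro x (hx | hx)
      · exact hC x hx
      · exact hC' x hx
    · rw [pushCyc_add, pushCyc_comp _ _ _ (closedVarMap_comp X (le_sup_left : C ≤ C ⊔ C')),
        pushCyc_comp _ _ _ (closedVarMap_comp X (le_sup_right : C' ≤ C ⊔ C'))]
  | single p e =>
    obtain ⟨C, x, h1, h2⟩ := exists_supp_point p
    refine ⟨C, h1, Finsupp.single x e, ?_⟩
    rw [pushCyc, Finsupp.mapDomain_single, h2]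

/-- The class of a cycle has support of dimension at most `i`. -/
lemma supp_cls (i : ℕ) (X : Var k) (c : Pts i X →₀ E) : Supp (T i) (2 * i) i X (clz (T i) X c) := by
  obtain ⟨C, hC, c', rfl⟩ := exists_supp_cyc X c
  exact ⟨C, hC, clz (T i) _ c', clz_push _ _ _⟩

/-- A class in the generalised eigenspace with support of dimension at most `i` is the class of a
cycle. -/
lemma alg_of_supp [PerfectField k] (i : ℕ) (X : Var k) (m : (T i).H (2 * i) X)
    (hm : m ∈ (T i).gen X) (h : Supp (T i) (2 * i) i X m) : m ∈ (T i).alg X := by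
  obtain ⟨D, a, b, hD, hb, rfl⟩ := supp_gen i (2 * i) i X m h hm
  obtain ⟨c, hc⟩ := exists_cls (T i) D b (good_of_dimLE (T i) D hD hb)
  have h1 := push_cls' (T i) a c
  rw [hc] at h1
  rw [h1]
  exact (T i).linComb_mem_alg _ _

/-- Anti-invariant cycles with class zero are rationally equivalent to zero. -/
def IM {i : ℕ} (T : Homology.{v} k E i) (V : Var k) (t : ClosedIn V V) : Prop :=
  ∀ c : Pts i V →₀ E, pushCyc t c = -c → clz T V c = 0 → c ∈ ratZero E i V

lemma inv_pushCyc {i : ℕ} {V : Var k} (t : ClosedIn V V) (ht : Inv t) (c : Pts i V →₀ E) :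
    pushCyc t (pushCyc t c) = c := by
  rw [pushCyc_comp t t (idIn V) ht]
  have h : ptsMap i (idIn V) = id := by
    funext x
    exact Subtype.ext rfl
  rw [pushCyc, h, Finsupp.mapDomain_id]

lemma avgc_anti [CharZero E] {i : ℕ} {V : Var k} (t : ClosedIn V V) (ht : Inv t)
    (c : Pts i V →₀ E) :
    pushCyc t ((2 : E)⁻¹ • (c - pushCyc t c)) = -((2 : E)⁻¹ • (c - pushCyc t c)) := by
  rw [pushCyc_smul, pushCyc_sub', inv_pushCyc t ht, ← smul_neg, neg_sub]

theorem bm_of_im [PerfectField k] [CharZero E] (hT : Full T) (i : ℕ) (V : Var k)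
    (t : ClosedIn V V) (ht : Inv t) (h : IM (T i) V t) : BM (T i) (2 * i) i V t := by
  intro W hWred a r hr hWd w hw hwa hwz
  have hri : Inv r := inv_closed a t r ht hr
  obtain ⟨c, hc⟩ := exists_cls (T i) W w (good_of_dimLE (T i) W hWd hw)
  let c' : Pts i W →₀ E := (2 : E)⁻¹ • (c - pushCyc r c)
  have hc'a : pushCyc r c' = -c' := avgc_anti r hri c
  have hc'w : clz (T i) W c' = w := by
    change clz (T i) W ((2 : E)⁻¹ • (c - pushCyc r c)) = w
    rw [clz_smul, clz_sub, ← clz_push]
    have h1 : clz (T i) W c = w := hc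
    rw [h1]
    exact avg_anti _ _ hwa
  have hz1 : pushCyc t (pushCyc a c') = -pushCyc a c' := by
    rw [pushCyc_comp a t (a.trans t) rfl, ← pushCyc_comp r a (a.trans t) hr, hc'a, pushCyc_neg]
  have hz2 : clz (T i) V (pushCyc a c') = 0 := by
    rw [← clz_push, hc'w, hwz]
  obtain ⟨C, hC, d, hd, hdc⟩ := ratZero_supp V _ (h _ hz1 hz2)
  have ha := a.closed
  refine ⟨C ⊔ ran a, fun x => Or.inr ⟨x, rfl⟩, ?_, ?_⟩
  · rintro x (hx | ⟨y, rfl⟩)
    · exact hC x hx
    · rw [dim_map a.g a.comm]
      exact (hWd y).trans (by exact_mod_cast Nat.le_succ i)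
  · have h1 : pushCyc (factorC a (C ⊔ ran a) fun x => Or.inr ⟨x, rfl⟩) c' =
        pushCyc (closedVarMap V (le_sup_left : C ≤ C ⊔ ran a)) d := by
      apply pushCyc_injective (closedVarIn V (C ⊔ ran a))
      rw [pushCyc_comp _ _ a (factorC_comp a _ _), pushCyc_comp _ _ _ (closedVarMap_comp V _), hdc]
    rw [← hc'w, clz_push, h1]
    exact (T i).cl_rat _ _ (pushCyc_ratZero _ _ hd)

theorem im_of_bm [CharZero E] (hT : Full T) (hP : Pub T hT) (i : ℕ) (V : Var k)
    (t : ClosedIn V V) (ht : Inv t) (h : BM (T i) (2 * i) i V t) : IM (T i) V t := by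
  intro c hca hc
  obtain ⟨C₀, hC₀, c₀, hc₀⟩ := exists_supp_cyc V c
  let C := stab t C₀
  have hC := stab_stable ht C₀
  have hCd := stab_dim t C₀ i hC₀
  have hred := REDI.isReduced_closedVar V C
  have hinv : Inv (stC t C hC) := inv_closed (closedVarIn V C) t _ ht (stC_comp t C hC)
  let c₁ := pushCyc (closedVarMap V (le_stab t C₀)) c₀
  have hc₁ : pushCyc (closedVarIn V C) c₁ = c := by
    change pushCyc (closedVarIn V C) (pushCyc (closedVarMap V (le_stab t C₀)) c₀) = c
    rw [pushCyc_comp _ _ _ (closedVarMap_comp V (le_stab t C₀)), hc₀]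
  let c₂ : Pts i (closedVar V C) →₀ E := (2 : E)⁻¹ • (c₁ - pushCyc (stC t C hC) c₁)
  have hc₂a : pushCyc (stC t C hC) c₂ = -c₂ := avgc_anti _ hinv c₁
  have hc₂ : pushCyc (closedVarIn V C) c₂ = c := by
    change pushCyc (closedVarIn V C) ((2 : E)⁻¹ • (c₁ - pushCyc (stC t C hC) c₁)) = c
    rw [pushCyc_smul, pushCyc_sub', pushCyc_comp (stC t C hC) (closedVarIn V C)
      ((closedVarIn V C).trans t) (stC_comp t C hC), ← pushCyc_comp (closedVarIn V C) t
      ((closedVarIn V C).trans t) rfl, hc₁, hca]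
    exact avg_anti c (-c) rfl
  obtain ⟨C₂, hC₂, hC₂d, hdie⟩ := h (closedVar V C) (closedVarIn V C) (stC t C hC)
    (stC_comp t C hC) (dimLE_of_mem C hCd) (clz (T i) _ c₂) (cls_mem_gen (T i) _ c₂)
    (by
      rw [clz_push, hc₂a]
      have h1 : clz (T i) (closedVar V C) (-c₂) = -clz (T i) (closedVar V C) c₂ :=
        map_neg (Finsupp.linearCombination E ((T i).cl _)) c₂
      exact h1)
    (by rw [clz_push, hc₂, hc])
  rw [clz_push] at hdie
  have h2 := (injC_iff (T i) _).mp (((T i).inj_iff _).mp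
    (hP.divisors i (closedVar V C₂) (dimLE_of_mem C₂ hC₂d))) _ hdie
  have h3 := pushCyc_ratZero (closedVarIn V C₂) _ h2
  rwa [pushCyc_comp _ _ _ (factorC_comp (closedVarIn V C) C₂ hC₂), hc₂] at h3

/-- From the property `PF` to the three properties. -/
theorem ab_of_pf [PerfectField k] [CharZero E] (hT : Full T) (i : ℕ) (V : Var k)
    (t : ClosedIn V V) (ht : Inv t) (h : PF (T i) V) : AB (T i) (2 * i) i V t := by
  refine ⟨?_, bm_of_im hT i V t ht fun c _ hc => (injC_iff (T i) V).mp h.2.1 c hc,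
    fun u hu _ => h.2.2 u hu⟩
  intro u hu _
  obtain ⟨c, hc⟩ := exists_cls (T i) V u (h.1 hu)
  rw [← hc]
  exact supp_cls i V c

end QCV


end

section

/-!
# QCV, block G: two sheets which are exchanged by the involution
-/

set_option autoImplicit false

open CategoryTheory AlgebraicGeometry Limits Polynomial TopologicalSpace

namespace QCV

open Pool.Agent.Lib_helper55.Beil Pool.Agent.Lib_helper66.OneP CUB

universe v

variable {k : Type} [Field k] {E : Type} [Field E] {T : ∀ i : ℕ, Homology.{v} k E i}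

section Sheets

variable {S V : Var k} (I0 I1 : ClosedIn S V) (o : OpenIn S V) (t : ClosedIn V V)

lemma supp_sheet (hT : Full T) (i n e : ℕ) (ho : I0.g = o.g) (hc : Complementary I1 o)
    (h01 : I0.g ≫ t.g = I1.g) (h10 : I1.g ≫ t.g = I0.g) (hV : AM (T i) n e V t)
    (u : (T i).H n S) (hu : u ∈ genN (T i) n S) : Supp (T i) n e S u := by
  let δ := (T i).P n I0 u - (T i).P n I1 u
  have h0 : (T i).P n I0 u ∈ genN (T i) n V :=
    maxGen_map ((T i).frob n S) ((T i).frob n V) ((T i).push n I0)
      (fun x => (T i).push_frob n _ x) hu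
  have h1 : (T i).P n I1 u ∈ genN (T i) n V :=
    maxGen_map ((T i).frob n S) ((T i).frob n V) ((T i).push n I1)
      (fun x => (T i).push_frob n _ x) hu
  have hδ : (T i).P n t δ = -δ := by
    change (T i).P n t ((T i).P n I0 u - (T i).P n I1 u) = -((T i).P n I0 u - (T i).P n I1 u)
    rw [hP_sub, hT.push_comp i n _ _ _ I0 t I1 h01, hT.push_comp i n _ _ _ I1 t I0 h10, neg_sub]
  have h2 := supp_res hT i n e o δ (hV δ (sub_mem h0 h1) hδ)
  have h3 : (T i).R n o δ = u := by
    have e0 : (T i).R n o ((T i).P n I0 u) = u := hT.clopen i n _ _ I0 o ho u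
    have e1 : (T i).R n o ((T i).P n I1 u) = 0 :=
      (((T i).localisation n _ _ _ _ _ hc).1 _).mpr ⟨u, rfl⟩
    have e2 : (T i).R n o δ = (T i).R n o ((T i).P n I0 u) - (T i).R n o ((T i).P n I1 u) :=
      map_sub ((T i).res n o) _ _
    rw [e2, e0, e1, sub_zero]
  rwa [h3] at h2

lemma inj_sheet (i : ℕ) (ho : I0.g = o.g) (hc : Complementary I1 o)
    (h01 : I0.g ≫ t.g = I1.g) (h10 : I1.g ≫ t.g = I0.g) (hV : IM (T i) V t) :
    (T i).InjC S := by
  rw [injC_iff]
  intro c hc0
  let d := pushCyc I0 c - pushCyc I1 c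
  have hd : pushCyc t d = -d := by
    change pushCyc t (pushCyc I0 c - pushCyc I1 c) = -(pushCyc I0 c - pushCyc I1 c)
    rw [pushCyc_sub', pushCyc_comp I0 t I1 h01, pushCyc_comp I1 t I0 h10, neg_sub]
  have hz : clz (T i) V d = 0 := by
    change clz (T i) V (pushCyc I0 c - pushCyc I1 c) = 0
    have h1 : clz (T i) S c = 0 := hc0
    rw [clz_sub, ← clz_push, ← clz_push, h1, hP_zero, hP_zero, sub_zero]
  have h1 := resCyc_ratZero o d (hV d hd hz)
  have h2 : resCyc o d = c := by
    change resCyc o (pushCyc I0 c - pushCyc I1 c) = c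
    rw [map_sub, resCyc_pushCyc I1 o hc, sub_zero]
    ext x
    rw [resCyc_apply]
    have h3 : ptsMapO i o x = ptsMap i I0 x := by
      apply Subtype.ext
      change o.g x.1 = I0.g x.1
      rw [ho]
    rw [h3, pushCyc, Finsupp.mapDomain_apply (ptsMap_injective i I0)]
  rwa [h2] at h1

/-- Two sheets which are exchanged by the involution. -/
theorem pf_of_sheets [PerfectField k] [CharZero E] (hT : Full T) (hP : Pub T hT) (i : ℕ)
    (ht : Inv t) (ho : I0.g = o.g) (hc : Complementary I1 o)
    (h01 : I0.g ≫ t.g = I1.g) (h10 : I1.g ≫ t.g = I0.g) (hV : AB (T i) (2 * i) i V t) :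
    PF (T i) S :=
  ⟨fun α hα => alg_of_supp i S α hα (supp_sheet I0 I1 o t hT i (2 * i) i ho hc h01 h10 hV.1 α hα),
    inj_sheet I0 I1 o t i ho hc h01 h10 (im_of_bm hT hP i V t ht hV.2.1),
    fun m hm => supp_sheet I0 I1 o t hT i (2 * i + 1) (i + 1) ho hc h01 h10 hV.2.2 m hm⟩

end Sheets

/-- The double cover which belongs to the zero function. -/
theorem pf_of_zero [PerfectField k] [CharZero E] (hT : Full T) (hP : Pub T hT) (N m : ℕ)
    {R' : Type} [CommRing R'] [Algebra k R'] [Algebra.FiniteType k R'] (g : Fin (m + 1) → R')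
    (hg : ∀ j, g j = 0)
    (hV : AB (T N) (2 * N) N (aff k (VR R' g)) (vcl (tau (lin g)))) :
    PF (T N) (aff k (MvPolynomial (Fin (m + 1)) R')) := by
  have h' : ∀ j, AlgHom.id k R' (g j) = 0 := hg
  let s0 := sheet (AlgHom.id k R') g h' false
  let s1 := sheet (AlgHom.id k R') g h' true
  have hs0 : Function.Surjective s0 := sheet_surjective _ Function.surjective_id _ h' false
  have hs1 : Function.Surjective s1 := sheet_surjective _ Function.surjective_id _ h' true
  have hloc := isLocalization_sheet_false (k := k) g h'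
  have hc := complementary_away s0 (1 - yy (lin g)) hloc s1 hs1 (ker_sheet_true g h')
  have h01 : (clo s0 hs0).g ≫ (vcl (tau (k := k) (lin g))).g = (clo s1 hs1).g := by
    change spm s0 ≫ spm (tauH (k := k) (lin g)) = spm s1
    rw [spm_comp]
    exact congrArg spm (sheet_tau (AlgHom.id k R') g h')
  have h10 : (clo s1 hs1).g ≫ (vcl (tau (k := k) (lin g))).g = (clo s0 hs0).g := by
    rw [← h01, Category.assoc, inv_tau (k := k) (lin g), Category.comp_id]
  exact pf_of_sheets (clo s0 hs0) (clo s1 hs1) (opn s0 (isOpenImmersion_spm s0 _ hloc))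
    (vcl (tau (k := k) (lin g))) hT hP N (inv_tau (lin g)) rfl hc h01 h10 hV

end QCV


end

section

/-!
# QCV, block G: from a product with the affine line to the base
-/

set_option autoImplicit false

open CategoryTheory AlgebraicGeometry Limits Polynomial TopologicalSpace

namespace QCV

open Pool.Agent.Lib_helper55.Beil Pool.Agent.Lib_helper66.OneP CUB

universe v

variable {k : Type} [Field k] {E : Type} [Field E] {T : ∀ i : ℕ, Homology.{v} k E i}

/-- The restriction of a line to an open subvariety. -/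
lemma exists_lineOpen {Y X V : Var k} (L : Line Y X) (j : OpenIn V X) :
    ∃ (Y' : Var k) (L' : Line Y' V) (l : OpenIn Y' Y), IsPullback L'.q l.g j.g L.q := by
  have hj := j.isOpen
  have e1 : LocallyOfFiniteType (L.q ≫ X.f) := by
    rw [L.comm]
    infer_instance
  have e2 : QuasiCompact (L.q ≫ X.f) := by
    rw [L.comm]
    infer_instance
  have e3 : IsSeparated (L.q ≫ X.f) := by
    rw [L.comm]
    infer_instance
  have h1 : LocallyOfFiniteType L.q := locallyOfFiniteType_of_comp L.q X.f
  have h2 : QuasiCompact L.q := QuasiCompact.of_comp L.q X.f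
  have h3 : IsSeparated L.q := IsSeparated.of_comp L.q X.f
  have hP : IsPullback (pullback.fst L.q j.g) (pullback.snd L.q j.g) L.q j.g :=
    IsPullback.of_hasPullback L.q j.g
  let Y' : Var k :=
    { X := pullback L.q j.g
      f := pullback.snd L.q j.g ≫ V.f
      sep := inferInstance
      lft := inferInstance
      qc := inferInstance }
  have hc : pullback.fst L.q j.g ≫ Y.f = pullback.snd L.q j.g ≫ V.f := by
    rw [← L.comm, ← Category.assoc, hP.w, Category.assoc, j.comm]
  have h5 : IsOpenImmersion (pullback.fst L.q j.g) := inferInstance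
  let l : OpenIn Y' Y := ⟨pullback.fst L.q j.g, hc, h5⟩
  let L' : Line Y' V :=
    { q := pullback.snd L.q j.g
      t := pullback.fst L.q j.g ≫ L.t
      comm := rfl
      prod := by
        have h4 := (hP.paste_horiz L.prod.flip).flip
        rw [j.comm] at h4
        exact h4 }
  exact ⟨Y', L', l, hP.flip⟩

/-- The base change of a line along a proper morphism. -/
lemma exists_linePr {Y X Z : Var k} (L : Line Y X) (r : PrMor Z X) :
    ∃ (Y' : Var k) (L' : Line Y' Z) (R : PrMor Y' Y), IsPullback L'.q R.g r.g L.q := by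
  have ha := r.proper
  have e1 : LocallyOfFiniteType (L.q ≫ X.f) := by
    rw [L.comm]
    infer_instance
  have e2 : QuasiCompact (L.q ≫ X.f) := by
    rw [L.comm]
    infer_instance
  have e3 : IsSeparated (L.q ≫ X.f) := by
    rw [L.comm]
    infer_instance
  have h1 : LocallyOfFiniteType L.q := locallyOfFiniteType_of_comp L.q X.f
  have h2 : QuasiCompact L.q := QuasiCompact.of_comp L.q X.f
  have h3 : IsSeparated L.q := IsSeparated.of_comp L.q X.f
  have hP : IsPullback (pullback.fst L.q r.g) (pullback.snd L.q r.g) L.q r.g :=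
    IsPullback.of_hasPullback L.q r.g
  let Y' : Var k :=
    { X := pullback L.q r.g
      f := pullback.snd L.q r.g ≫ Z.f
      sep := inferInstance
      lft := inferInstance
      qc := inferInstance }
  have hc : pullback.fst L.q r.g ≫ Y.f = pullback.snd L.q r.g ≫ Z.f := by
    rw [← L.comm, ← Category.assoc, hP.w, Category.assoc, r.comm]
  have h5 : IsProper (pullback.fst L.q r.g) := inferInstance
  let L' : Line Y' Z :=
    { q := pullback.snd L.q r.g
      t := pullback.fst L.q r.g ≫ L.t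
      comm := rfl
      prod := by
        have h4 := (hP.paste_horiz L.prod.flip).flip
        rw [r.comm] at h4
        exact h4 }
  exact ⟨Y', L', ⟨pullback.fst L.q r.g, hc, h5⟩, hP.flip⟩

/-- Two products with the affine line are isomorphic. -/
lemma exists_lineIso {Y Y' X : Var k} (L : Line Y X) (L' : Line Y' X) :
    ∃ s : VIso Y Y', s.e.hom ≫ L'.q = L.q := by
  refine ⟨⟨L.prod.isoIsPullback _ _ L'.prod, ?_⟩, IsPullback.isoIsPullback_hom_fst _ _ _ _⟩
  rw [← L'.comm, ← Category.assoc, IsPullback.isoIsPullback_hom_fst, L.comm]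

/-- The projection of a closed subvariety of the affine line over the part of the base where it
does not meet the section at infinity is proper. -/
lemma proper_part {P X O D D' W Y' Bd : Var k} (B : PBun P X) (d : ClosedIn D B.U)
    (w : ClosedIn W P) (h : OpenIn D W) (p : ClosedIn Bd W) (q : ClosedIn Bd X)
    (hc : Complementary p h) (h1 : p.g ≫ w.g = q.g ≫ B.s.g) (h2 : h.g ≫ w.g = d.g ≫ B.j.g)
    (j : OpenIn O X) (hj : Disjoint (Set.range j.g) (Set.range q.g)) (L' : Line Y' O)
    (l : OpenIn Y' B.U) (hl : IsPullback L'.q l.g j.g B.L.q) (o : OpenIn D' D)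
    (b' : ClosedIn D' Y') (ho : IsPullback o.g b'.g d.g l.g) :
    IsProper (b'.g ≫ L'.q) := by
  have hjO := j.isOpen
  have hwc := w.closed
  have hho := h.isOpen
  have hoo := o.isOpen
  have hpr := B.p.proper
  let π : W.X ⟶ X.X := w.g ≫ B.p.g
  have hπ : IsProper π := inferInstance
  have e1 : (o.g ≫ h.g) ≫ π = (b'.g ≫ L'.q) ≫ j.g := by
    calc (o.g ≫ h.g) ≫ π = o.g ≫ (h.g ≫ w.g) ≫ B.p.g := by simp only [π, Category.assoc]
      _ = o.g ≫ (d.g ≫ B.j.g) ≫ B.p.g := by rw [h2]
      _ = (o.g ≫ d.g) ≫ (B.j.g ≫ B.p.g) := by simp only [Category.assoc]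
      _ = (b'.g ≫ l.g) ≫ B.L.q := by rw [ho.w, B.hL]
      _ = b'.g ≫ (l.g ≫ B.L.q) := by rw [Category.assoc]
      _ = b'.g ≫ (L'.q ≫ j.g) := by rw [hl.w]
      _ = (b'.g ≫ L'.q) ≫ j.g := by rw [Category.assoc]
  let c : D'.X ⟶ pullback π j.g := pullback.lift (o.g ≫ h.g) (b'.g ≫ L'.q) e1
  have hc1 : c ≫ pullback.fst π j.g = o.g ≫ h.g := pullback.lift_fst _ _ _
  have hc2 : c ≫ pullback.snd π j.g = b'.g ≫ L'.q := pullback.lift_snd _ _ _
  have hfst : IsOpenImmersion (pullback.fst π j.g) := inferInstance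
  have hsnd : IsProper (pullback.snd π j.g) := inferInstance
  have h3 : IsOpenImmersion (c ≫ pullback.fst π j.g) := by
    rw [hc1]
    infer_instance
  have h4 : IsOpenImmersion c := IsOpenImmersion.of_comp c (pullback.fst π j.g)
  have h5 : Function.Surjective c := by
    intro z
    have e2 : π (pullback.fst π j.g z) = j.g (pullback.snd π j.g z) := by
      rw [← Scheme.Hom.comp_apply, ← Scheme.Hom.comp_apply, pullback.condition]
    have e3 : pullback.fst π j.g z ∈ Set.range h.g := by
      by_contra hne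
      have e4 : pullback.fst π j.g z ∈ Set.range p.g := by
        rw [show Set.range p.g = (Set.range h.g)ᶜ from hc]
        exact hne
      obtain ⟨y, hy⟩ := e4
      have e5 : π (p.g y) = q.g y := by
        have e6 : p.g ≫ π = q.g := by
          calc p.g ≫ π = (p.g ≫ w.g) ≫ B.p.g := by simp only [π, Category.assoc]
            _ = q.g ≫ (B.s.g ≫ B.p.g) := by rw [h1, Category.assoc]
            _ = q.g := by rw [B.hs, Category.comp_id]
        rw [← Scheme.Hom.comp_apply, e6]
      rw [← hy, e5] at e2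
      exact Set.disjoint_left.mp hj ⟨_, e2.symm⟩ ⟨y, rfl⟩
    obtain ⟨x, hx⟩ := e3
    have e7' : d.g ≫ B.L.q = h.g ≫ π := by
      calc d.g ≫ B.L.q = (d.g ≫ B.j.g) ≫ B.p.g := by rw [← B.hL, Category.assoc]
        _ = h.g ≫ π := by rw [← h2]; simp only [π, Category.assoc]
    have e7 : B.L.q (d.g x) = j.g (pullback.snd π j.g z) := by
      rw [← e2, ← hx, ← Scheme.Hom.comp_apply, ← Scheme.Hom.comp_apply, e7']
    have e8 : d.g x ∈ Set.range l.g := by
      have e9 := cart_range hl.flip.flip
      rw [e9]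
      exact ⟨_, e7.symm⟩
    have e10 : x ∈ Set.range o.g := by
      have e11 := cart_range ho.flip
      rw [e11]
      exact e8
    obtain ⟨y, rfl⟩ := e10
    refine ⟨y, ?_⟩
    apply (pullback.fst π j.g).isOpenEmbedding.injective
    rw [← Scheme.Hom.comp_apply, hc1, Scheme.Hom.comp_apply, hx]
  have h6 : Epi c.base := (TopCat.epi_iff_surjective c.base).mpr h5
  have h7 : IsIso c := IsOpenImmersion.isIso c
  rw [← hc2]
  infer_instance

/-- Supports descend from a product with the affine line to the base. -/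
theorem supp_line_desc (hT : Full T) (hP : Pub T hT) (hS : SectionZero T) (i n e : ℕ)
    {Y X : Var k} (L : Line Y X) (u : (T i).H n X)
    (h : Supp (T (i + 1)) (n + 2) (e + 1) Y (hT.line i n L u)) : Supp (T i) n e X u := by
  obtain ⟨H⟩ := CUB.Asm2.s_PLI k
  obtain ⟨B, -⟩ := CUB.Asm2.s_PRO.1 k H X
  -- the class on the open part of the bundle
  obtain ⟨sY, hsY⟩ := exists_lineIso L B.L
  have h1 := hT.line_nat i n L B.L sY (VIso.refl X) (by
    change sY.e.hom ≫ B.L.q = L.q ≫ 𝟙 X.X
    rw [hsY, Category.comp_id]) u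
  have h2 : (T i).P n (VIso.refl X).cl u = u := hT.push_id i n _ _ rfl u
  rw [h2] at h1
  obtain ⟨C, hC, b₀, hb₀⟩ := h
  have h3 : Supp (T (i + 1)) (n + 2) (e + 1) B.U (hT.line i n B.L u) := by
    rw [← h1, ← hb₀, hT.push_comp (i + 1) (n + 2) _ _ _ (closedVarIn Y C) sY.cl
      ((closedVarIn Y C).trans sY.cl) rfl]
    exact supp_mk hT.toExtra (i + 1) (n + 2) (e + 1) _ (dimLE_of_mem C hC) b₀
  clear h1 h2 hb₀ b₀ hC C hsY sY
  obtain ⟨C, hC, b, hb⟩ := h3
  obtain ⟨W, w, o₁, Bd, p, q, hcomp, h4, h5, -, hBd, -⟩ := exists_boundary B.s B.j B.hc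
    (closedVarIn B.U C) e (dimLE_of_mem C hC)
  -- the open part of the base
  let F : Closeds X.X := ran q
  let j : OpenIn (openVar X F.compl) X := openVarIn X F.compl
  have hcF : Complementary (closedVarIn X F) j := by
    rw [Complementary, range_closedVarIn, range_openVarIn]
    simp
  have hFd : ∀ x ∈ F, X.dim x ≤ e := by
    rintro x ⟨y, rfl⟩
    have := q.closed
    rw [dim_map q.g q.comm]
    exact hBd y
  obtain ⟨Y', L', l, hl⟩ := exists_lineOpen B.L j
  obtain ⟨D', o, b', ho⟩ := exists_cart (closedVarIn B.U C) l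
  have hprop := proper_part B (closedVarIn B.U C) w o₁ p q hcomp h4 h5 j (by
    rw [Set.disjoint_left]
    intro x hx hx2
    have h6 : x ∈ (F.compl : Set X.X) := by
      rw [← range_openVarIn]
      exact hx
    exact h6 hx2) L' l hl o b' ho
  let r : PrMor D' (openVar X F.compl) := ⟨b'.g ≫ L'.q, by
    rw [Category.assoc, L'.comm, b'.comm], hprop⟩
  obtain ⟨Z, M, R, hR⟩ := exists_linePr L' r
  -- the section
  have hb'c := b'.closed
  have hRp := R.proper
  have hsec : IsClosedImmersion (hR.lift (𝟙 D'.X) b'.g (by rw [Category.id_comp])) := by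
    have h7 : IsClosedImmersion (hR.lift (𝟙 D'.X) b'.g (by rw [Category.id_comp]) ≫ R.g) := by
      rw [hR.lift_snd]
      infer_instance
    exact IsClosedImmersion.of_comp _ R.g
  let s : ClosedIn D' Z := ⟨hR.lift (𝟙 D'.X) b'.g (by rw [Category.id_comp]), by
    rw [← R.comm, ← Category.assoc, hR.lift_snd, b'.comm], hsec⟩
  have hs1 : s.g ≫ M.q = 𝟙 D'.X := hR.lift_fst _ _ _
  have hs2 : s.g ≫ R.g = b'.g := hR.lift_snd _ _ _
  have hzero : ∀ v : (T (i + 1)).H (n + 2) D', (T (i + 1)).P (n + 2) b' v = 0 := by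
    intro v
    rw [← hT.pfClosed (i + 1) (n + 2) b' (clPr b') rfl,
      ← hT.pfFunctorial (i + 1) (n + 2) (clPr s) R (clPr b') hs2,
      hT.pfClosed (i + 1) (n + 2) s (clPr s) rfl, hS (i + 1) (n + 2) M s hs1]
    exact map_zero (hT.pf (i + 1) (n + 2) R)
  have h8 : (T (i + 1)).R (n + 2) l (hT.line i n B.L u) = hT.line i n L' ((T i).R n j u) :=
    hP.lineRes i n B.L L' l j hl.w.symm u
  have h9 : hT.line i n L' ((T i).R n j u) = 0 := by
    rw [← h8, ← hb, res_push hT (i + 1) (n + 2) (closedVarIn B.U C) b' o l ho, hzero]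
  have h10 : (T i).R n j u = 0 := (hT.line_bij i n L').injective (by rw [h9, map_zero])
  obtain ⟨z, hz⟩ := ((T i).exact_X n (closedVarIn X F) j hcF u).mp h10
  exact ⟨F, hFd, z, hz⟩

/-- The property `PF` descends from a product with the affine line to the base. -/
theorem pf_line_desc [Finite k] [CharZero E] (hT : Full T) (hP : Pub T hT) (hS : SectionZero T)
    (i : ℕ) {Y X : Var k} (L : Line Y X) (h : PF (T (i + 1)) Y) : PF (T i) X := by
  refine ⟨?_, ?_, ?_⟩
  · intro α hα
    refine alg_of_supp i X α hα (supp_line_desc hT hP hS i (2 * i) i L α ?_)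
    have h1 : hT.line i (2 * i) L α ∈ (T (i + 1)).gen Y :=
      maxGen_map ((T i).frob (2 * i) X) ((T (i + 1)).frob (2 * (i + 1)) Y) (hT.line i (2 * i) L)
        (hT.line_frob i (2 * i) L) hα
    obtain ⟨c, hc⟩ := exists_cls (T (i + 1)) Y _ (h.1 h1)
    have h2 := supp_cls (T := T) (i + 1) Y c
    have h3 : clz (T (i + 1)) Y c = hT.line i (2 * i) L α := hc
    rw [h3] at h2
    exact h2
  · rw [injC_iff]
    intro c hc
    obtain ⟨d, hd⟩ := CUB.Asm2.s_PCY.{v}.1 k E i Y X L c
    have h1 := CUB.Asm2.s_PCY.{v}.2.2.2.2.2 k E T hT.toExtra i Y X L c d hd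
    have h2 : clz (T (i + 1)) Y d = 0 := by
      rw [h1]
      have h3 : clz (T i) X c = 0 := hc
      rw [h3]
      exact map_zero (hT.line i (2 * i) L)
    exact CUB.s_L4 k E i Y X L c d hd ((injC_iff (T (i + 1)) Y).mp h.2.1 d h2)
  · intro m hm
    refine supp_line_desc hT hP hS i (2 * i + 1) (i + 1) L m (h.2.2 _ ?_)
    exact maxGen_map ((T i).frob (2 * i + 1) X) ((T (i + 1)).frob (2 * (i + 1) + 1) Y)
      (hT.line i (2 * i + 1) L) (hT.line_frob i (2 * i + 1) L) hm

end QCV


end

section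

/-!
# QCV, block G: the reduction of several equations to one, without a hypothesis on the base
-/

set_option autoImplicit false

open CategoryTheory AlgebraicGeometry Limits Polynomial TopologicalSpace

namespace QCV

open Pool.Agent.Lib_helper55.Beil Pool.Agent.Lib_helper66.OneP CUB

universe v

variable {k : Type} [Field k] {E : Type} [Field E] {T : ∀ i : ℕ, Homology.{v} k E i}

/-- The property `PF` descends from a product with an affine space to the base. -/
theorem pf_mv_desc [Finite k] [CharZero E] (hT : Full T) (hP : Pub T hT) (hS : SectionZero T)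
    (A : Type) [CommRing A] [Algebra k A] [Algebra.FiniteType k A] (i m : ℕ)
    (h : PF (T (i + m)) (aff k (MvPolynomial (Fin m) A))) : PF (T i) (aff k A) := by
  induction m with
  | zero =>
    let e : MvPolynomial (Fin 0) A ≃ₐ[k] A :=
      (MvPolynomial.isEmptyAlgEquiv A (Fin 0)).restrictScalars k
    exact pf_viso hT hP i (viso e.symm) h
  | succ m ih =>
    refine ih ?_
    let B := MvPolynomial (Fin m) A
    let e : MvPolynomial (Fin (m + 1)) A ≃ₐ[k] B[X] :=
      (MvPolynomial.finSuccEquiv A m).restrictScalars k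
    let φ : B →ₐ[k] MvPolynomial (Fin (m + 1)) A := (e.symm : _ →ₐ[k] _).comp (CC k B)
    exact pf_line_desc hT hP hS (i + m) (lineE φ e.symm.toRingEquiv (fun _ => rfl)) h

/-- RED3. The reduction of several equations to one. -/
theorem red3 [Finite k] [CharZero E] (hT : Full T) (hP : Pub T hT) (hS : SectionZero T)
    (i m : ℕ) {R R' : Type} [CommRing R] [CommRing R'] [Algebra k R] [Algebra k R']
    [Algebra.FiniteType k R] [Algebra.FiniteType k R'] (f : Fin (m + 1) → R) (ψ : R →ₐ[k] R')
    (hψ : Function.Surjective ψ)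
    (hk : RingHom.ker ψ.toRingHom = Ideal.span (Set.range f))
    (h : PI (T (i + (m + 1))) (aff k (VR R f))) : PI (T i) (aff k R') := by
  rw [pi_iff hT.toExtra] at h ⊢
  refine pf_mv_desc hT hP hS R' i (m + 1) ?_
  refine pf_of_zero hT hP (i + m + 1) m (fun j => ψ (f j)) ?_ ?_
  · intro j
    have h1 : f j ∈ RingHom.ker ψ.toRingHom := by
      rw [hk]
      exact Ideal.subset_span ⟨j, rfl⟩
    exact h1
  · refine ab_chain hT CUB.Asm.s_KERQ CUB.Asm.s_VRL (i + m) (2 * (i + m)) (i + m + 1) m
      (List.finRange (m + 1)) f ψ hψ ?_ ?_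
    · rw [hk]
      congr 1
      ext x
      simp
    · exact ab_of_pf hT (i + m + 1) _ _ (inv_tau (lin f)) h

end QCV


end

section

/-!
# QCV: any number of linear equations
-/

set_option autoImplicit false

open Polynomial

namespace QCV

open CUB

/-- Elimination of a variable, for a family of polynomials. -/
def S_ELM : Prop :=
  ∀ (k R ι : Type) [Field k] [CommRing R] [Algebra k R] (n : ℕ)
    (f : Option ι → MvPolynomial (Fin (n + 1)) R) (j : Fin (n + 1)),
    (f none).totalDegree ≤ 1 → IsUnit (MvPolynomial.coeff (Finsupp.single j 1) (f none)) →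
    ∃ h : ι → MvPolynomial (Fin n) R, (∀ c, (h c).totalDegree ≤ (f (some c)).totalDegree) ∧
      Nonempty (ER f ≃ₐ[k] ER h)

namespace LNM

variable {R : Type} [CommRing R] {n s r : ℕ}

/-- The family without the first linear equation. -/
def drop (f : Fin (s + 1) ⊕ Fin r → MvPolynomial (Fin n) R) :
    Fin s ⊕ Fin r → MvPolynomial (Fin n) R :=
  Sum.elim (fun i => f (Sum.inl i.succ)) (fun j => f (Sum.inr j))

/-- The family, indexed by an option type. -/
def opt (f : Fin (s + 1) ⊕ Fin r → MvPolynomial (Fin n) R) :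
    Option (Fin s ⊕ Fin r) → MvPolynomial (Fin n) R
  | none => f (Sum.inl 0)
  | some i => drop f i

lemma range_opt (f : Fin (s + 1) ⊕ Fin r → MvPolynomial (Fin n) R) :
    Set.range (opt f) = Set.range f := by
  ext x
  constructor
  · rintro ⟨_ | (i | i), rfl⟩
    · exact ⟨Sum.inl 0, rfl⟩
    · exact ⟨Sum.inl i.succ, rfl⟩
    · exact ⟨Sum.inr i, rfl⟩
  · rintro ⟨i | i, rfl⟩
    · rcases Fin.eq_zero_or_eq_succ i with rfl | ⟨i, rfl⟩
      · exact ⟨none, rfl⟩
      · exact ⟨some (Sum.inl i), rfl⟩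
    · exact ⟨some (Sum.inr i), rfl⟩

lemma span_drop (f : Fin (s + 1) ⊕ Fin r → MvPolynomial (Fin n) R) (h0 : f (Sum.inl 0) = 0) :
    Ideal.span (Set.range (drop f)) = Ideal.span (Set.range f) := by
  apply le_antisymm
  · rw [Ideal.span_le]
    rintro _ ⟨i | i, rfl⟩
    · exact Ideal.subset_span ⟨Sum.inl i.succ, rfl⟩
    · exact Ideal.subset_span ⟨Sum.inr i, rfl⟩
  · rw [Ideal.span_le]
    rintro _ ⟨i | i, rfl⟩
    · rcases Fin.eq_zero_or_eq_succ i with rfl | ⟨i, rfl⟩
      · change f (Sum.inl 0) ∈ Ideal.span _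
        rw [h0]
        exact zero_mem _
      · exact Ideal.subset_span ⟨Sum.inl i, rfl⟩
    · exact Ideal.subset_span ⟨Sum.inr i, rfl⟩

end LNM

/-- Any number of equations of degree at most one, besides the `r` equations of degree at most
two. -/
theorem many_linear' (hELM : S_ELM) (k : Type) [Field k]
    (P : ∀ (A : Type) [CommRing A] [Algebra k A] [Algebra.FiniteType k A], Prop) (hP : Cls0 k P)
    (e r : ℕ)
    (hQ : ∀ (n : ℕ) (R : Type) [CommRing R] [Algebra k R] [Algebra.FiniteType k R]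
      (f : Fin r → MvPolynomial (Fin n) R), DL k R e → (∀ j, (f j).totalDegree ≤ 2) → P (ER f))
    (s : ℕ) : ∀ (n : ℕ) (R : Type) [CommRing R] [Algebra k R] [Algebra.FiniteType k R]
      (f : Fin s ⊕ Fin r → MvPolynomial (Fin n) R), DL k R e →
      (∀ j, (f (Sum.inl j)).totalDegree ≤ 1) → (∀ j, (f (Sum.inr j)).totalDegree ≤ 2) →
      P (ER f) := by
  induction s with
  | zero =>
    intro n R _ _ _ f hR _ h2
    have e1 : Ideal.span (Set.range (fun j : Fin r => f (Sum.inr j))) =
        Ideal.span (Set.range f) := by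
      congr 1
      ext x
      constructor
      · rintro ⟨i, rfl⟩
        exact ⟨Sum.inr i, rfl⟩
      · rintro ⟨i | i, rfl⟩
        · exact i.elim0
        · exact ⟨i, rfl⟩
    exact hP.iso (Ideal.quotientEquivAlgOfEq k e1) (hQ n R _ hR h2)
  | succ s ih =>
    intro n R _ _ _ f hR h1 h2
    refine Asm.s_SPR k (Fin (s + 1) ⊕ Fin r) P hP e n
      (fun _ _ f => (∀ j, (f (Sum.inl j)).totalDegree ≤ 1) ∧
        ∀ j, (f (Sum.inr j)).totalDegree ≤ 2) ?_ ?_ R f hR ⟨h1, h2⟩
    · intro R S _ _ ψ f hf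
      exact ⟨fun j => (totalDegree_map_le _ _).trans (hf.1 j),
        fun j => (totalDegree_map_le _ _).trans (hf.2 j)⟩
    clear h1 h2 hR f
    intro D _ _ _ _ f hD hf
    have hDu : ∀ u : D, DL k (Localization.Away u) e := fun u =>
      Asm.s_DLR.2.1 k D (Localization.Away u) e u (awayHom k u) (isLocalization_awayHom u) hD
    by_cases h0 : f (Sum.inl 0) = 0
    · refine ⟨1, one_ne_zero, ?_⟩
      have h3 := ih n (Localization.Away (1 : D))
        (LNM.drop (mf (algebraMap D (Localization.Away (1 : D))) f)) (hDu 1)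
        (fun j => (totalDegree_map_le _ _).trans (hf.1 j.succ))
        (fun j => (totalDegree_map_le _ _).trans (hf.2 j))
      refine hP.iso (Ideal.quotientEquivAlgOfEq k (LNM.span_drop _ ?_)) h3
      change MvPolynomial.map _ (f (Sum.inl 0)) = 0
      rw [h0, map_zero]
    by_cases hj : ∀ j, MvPolynomial.coeff (Finsupp.single j 1) (f (Sum.inl 0)) = 0
    · have h1 := eq_C_of_linear (f (Sum.inl 0)) (hf.1 0) hj
      set u := MvPolynomial.coeff 0 (f (Sum.inl 0)) with hu
      have hu0 : u ≠ 0 := by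
        intro h
        rw [h, MvPolynomial.C_0] at h1
        exact h0 h1
      refine ⟨u, hu0, ?_⟩
      have h2 : mf (algebraMap D (Localization.Away u)) f (Sum.inl 0) =
          MvPolynomial.C (algebraMap D (Localization.Away u) u) := by
        change MvPolynomial.map _ (f (Sum.inl 0)) = _
        rw [h1, MvPolynomial.map_C]
      have h3 : IsUnit (mf (algebraMap D (Localization.Away u)) f (Sum.inl 0)) := by
        rw [h2]
        exact (IsLocalization.Away.algebraMap_isUnit u).map MvPolynomial.C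
      have h4 : Ideal.span (Set.range (mf (algebraMap D (Localization.Away u)) f)) = ⊤ :=
        Ideal.eq_top_of_isUnit_mem _ (Ideal.subset_span ⟨Sum.inl 0, rfl⟩) h3
      apply hP.triv
      exact Ideal.Quotient.subsingleton_iff.mpr h4
    · push Not at hj
      obtain ⟨j, hj⟩ := hj
      obtain ⟨n, rfl⟩ : ∃ n', n = n' + 1 := ⟨n - 1, by have := j.2; omega⟩
      set u := MvPolynomial.coeff (Finsupp.single j 1) (f (Sum.inl 0)) with hu
      refine ⟨u, hj, ?_⟩
      set g := mf (algebraMap D (Localization.Away u)) f with hg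
      have h1 : IsUnit (MvPolynomial.coeff (Finsupp.single j 1) (g (Sum.inl 0))) := by
        change IsUnit (MvPolynomial.coeff (Finsupp.single j 1) (MvPolynomial.map _ (f (Sum.inl 0))))
        rw [MvPolynomial.coeff_map]
        exact IsLocalization.Away.algebraMap_isUnit u
      obtain ⟨h, hh, ⟨e'⟩⟩ := hELM k (Localization.Away u) (Fin s ⊕ Fin r) n (LNM.opt g) j
        ((totalDegree_map_le _ _).trans (hf.1 0)) h1
      have h3 := ih n (Localization.Away u) h (hDu u)
        (fun i => (hh (Sum.inl i)).trans ((totalDegree_map_le _ _).trans (hf.1 i.succ)))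
        (fun i => (hh (Sum.inr i)).trans ((totalDegree_map_le _ _).trans (hf.2 i)))
      have h4 : Ideal.span (Set.range (LNM.opt g)) = Ideal.span (Set.range g) := by
        rw [LNM.range_opt]
      exact hP.iso (e'.symm.trans (Ideal.quotientEquivAlgOfEq k h4)) h3

/-- Any number of equations of degree at most one, besides the `r` equations of degree at most
two. -/
theorem many_linear (k : Type) [Field k]
    (P : ∀ (A : Type) [CommRing A] [Algebra k A] [Algebra.FiniteType k A], Prop) (hP : Cls0 k P)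
    (e r : ℕ)
    (hQ : ∀ (n : ℕ) (R : Type) [CommRing R] [Algebra k R] [Algebra.FiniteType k R]
      (f : Fin r → MvPolynomial (Fin n) R), DL k R e → (∀ j, (f j).totalDegree ≤ 2) → P (ER f))
    (s n : ℕ) (R : Type) [CommRing R] [Algebra k R] [Algebra.FiniteType k R]
    (f : Fin s ⊕ Fin r → MvPolynomial (Fin n) R) (hR : DL k R e)
    (h1 : ∀ j, (f (Sum.inl j)).totalDegree ≤ 1) (h2 : ∀ j, (f (Sum.inr j)).totalDegree ≤ 2) :
    P (ER f) :=
  many_linear' (fun _ _ _ _ _ _ _ f j h0 hu => eli f j h0 hu) k P hP e r hQ s n R f hR h1 h2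

end QCV


end

section

/-!
# QCV: the class `Built`
-/

set_option autoImplicit false

open CategoryTheory AlgebraicGeometry Limits Polynomial TopologicalSpace

namespace QCV

open Pool.Agent.Lib_helper55.Beil Pool.Agent.Lib_helper66.OneP CUB

universe v

variable {k : Type} [Field k] {E : Type} [Field E]

lemma built_of_isEmpty {X : Var k} (h : IsEmpty X.X) (d : ℕ) : Built k d X :=
  Built.small X (fun x => (h.false x).elim)

lemma built_of_red {X : Var k} {d : ℕ} (h : Built k d (redVar X)) : Built k d X :=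
  Built.paste (redVarIn X) (openVarIn X ⊥) (complementary_red X) h
    (built_of_isEmpty (isEmpty_openVar_bot X) d)

/-- The class is determined by the closed subset of an ambient variety. -/
theorem built_same_range {X Y W : Var k} {d : ℕ} (a : ClosedIn X W) (b : ClosedIn Y W)
    (h : Set.range a.g = Set.range b.g) (hX : Built k d X) : Built k d Y := by
  have hred := isReduced_redVar Y
  obtain ⟨l, hl⟩ := exists_factor_range a ((redVarIn Y).trans b) (by
    rintro _ ⟨y, rfl⟩
    rw [h]
    exact ⟨(redVarIn Y).g y, rfl⟩)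
  apply built_of_red
  refine Built.nil l ?_ hX
  intro x
  have h1 : a.g x ∈ Set.range b.g := by
    rw [← h]
    exact ⟨x, rfl⟩
  obtain ⟨y, hy⟩ := h1
  obtain ⟨y', hy'⟩ : y ∈ Set.range (redVarIn Y).g := by
    rw [range_redVarIn]
    trivial
  refine ⟨y', ?_⟩
  apply closedIn_injective a
  rw [← hy, ← hy', ← Scheme.Hom.comp_apply, hl]
  rfl

/-! ## Theorem A: quadratic equations -/

lemma cls_built (k : Type) [Field k] (d : ℕ) :
    Cls k d (fun A [CommRing A] [Algebra k A] [Algebra.FiniteType k A] => Built k d (aff k A)) where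
  iso := fun e h => Built.iso (viso e.symm) h
  triv := fun A _ _ _ h => built_of_isEmpty (isEmpty_aff A h) d
  glue := fun a z u s hZ hU => Built.paste _ _
    (complementary_away u a s.away z s.surj s.ker) hZ hU
  opn := fun a z u s hA hZ => Built.cut _ _
    (complementary_away u a s.away z s.surj s.ker) hA hZ
  line := fun A _ _ _ h => Built.line A h
  dbl := fun A _ _ _ b c h => Built.cover A b c h
  base := fun A _ _ _ h => Built.small _ (dimLE_of_DL h)

/-- The affine varieties defined by `r` equations of degree at most two over a base of dimension at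
most `e`, `r + e ≤ d + 1`. -/
theorem built_quadrics {d r e n : ℕ} {R : Type} [CommRing R] [Algebra k R]
    [Algebra.FiniteType k R] (f : Fin r → MvPolynomial (Fin n) R) (hr : 1 ≤ r)
    (her : r + e ≤ d + 1) (hR : (aff k R).DimLE e) (hf : ∀ j, (f j).totalDegree ≤ 2) :
    Built k d (aff k (MvPolynomial (Fin n) R ⧸ Ideal.span (Set.range f))) := by
  obtain ⟨m, rfl⟩ : ∃ m, r = m + 1 := ⟨r - 1, by omega⟩
  exact Built.zeros _ m f (Asm.s_VRP k _ d e n (m + 1) (cls_built k d) (by omega) (by omega) R f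
    ((dimLE_aff e).1 hR) hf)

/-- The affine varieties defined by any number `s` of equations of degree at most one and `r`
equations of degree at most two over a base of dimension at most `e`, `e ≤ d`, `r + e ≤ d + 1`. -/
theorem built_equations {d r e n s : ℕ} {R : Type} [CommRing R] [Algebra k R]
    [Algebra.FiniteType k R] (f : Fin s ⊕ Fin r → MvPolynomial (Fin n) R) (hed : e ≤ d)
    (her : r + e ≤ d + 1) (hR : (aff k R).DimLE e)
    (h1 : ∀ j, (f (Sum.inl j)).totalDegree ≤ 1) (h2 : ∀ j, (f (Sum.inr j)).totalDegree ≤ 2) :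
    Built k d (aff k (MvPolynomial (Fin n) R ⧸ Ideal.span (Set.range f))) := by
  refine many_linear k (fun A [CommRing A] [Algebra k A] [Algebra.FiniteType k A] =>
    Built k d (aff k A)) (cls_built k d).toCls0 e r ?_ s n R f ((dimLE_aff e).1 hR) h1 h2
  intro n R _ _ _ f hR hf
  rcases Nat.eq_zero_or_pos r with rfl | hr
  · exact (Asm.s_PLY k _ (cls_built k d).toCls0 (cls_built k d).line R n).2.1 _ f
      (fun j => j.elim0) (Built.small _ (fun x => (dimLE_of_DL hR x).trans (by exact_mod_cast hed)))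
  · exact built_quadrics f hr her (dimLE_of_DL hR) hf

/-! ## Theorem B: the property `PP` holds on the class -/

/-- The statement of the descent along finite etale coverings. -/
def PfEt (T : ∀ i : ℕ, Homology.{v} k E i) : Prop :=
  ∀ (i : ℕ) {V U : Var k}, Pool.Agent.Lib_helper66.OneP.FinEt V U → IsIntegral U.X →
    PF (T i) V → PF (T i) U

/-- The statement for quadric cones in an odd number of variables. -/
def PpfOdd (T : ∀ i : ℕ, Homology.{v} k E i) : Prop :=
  ∀ (A : Type) [CommRing A] [Algebra k A] [Algebra.FiniteType k A] (m : ℕ)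
    (a : Fin (2 * m + 1) → A), (∀ j, IsUnit (a j)) → PPF T (aff k A) →
    PPF T (aff k (MvPolynomial (Fin (2 * m + 1)) A ⧸ Ideal.span {dia a}))

/-- The statement for line bundles. -/
def PpfBun (T : ∀ i : ℕ, Homology.{v} k E i) : Prop :=
  ∀ {Y X U : Var k} (B : Bun Y X) (s : ClosedIn X Y) (j : OpenIn U Y), s.g ≫ B.q = 𝟙 X.X →
    Complementary s j → PPF T U → PPF T X

theorem ppf_of_built [Finite k] [CharZero E] {T : ∀ i : ℕ, Homology.{v} k E i} (hT : Full T)
    (hP : Pub T hT) (hS : SectionZero T) (hE : PfEt T) (hO : PpfOdd T) (hL : PpfBun T) (d : ℕ)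
    (hB : ∀ X : Var k, X.DimLE d → PP T X) (X : Var k) (h : Built k d X) : PPF T X := by
  induction h with
  | small X hX => exact (pp_iff hT.toExtra _).mp (hB X hX)
  | iso s _ ih => exact fun i => pf_viso hT hP i s (ih i)
  | nil a hs _ ih => exact fun i => pf_nil hT i a hs (ih i)
  | paste a j hc _ _ ihZ ihU => exact fun i => pf_glue hT hP i a j hc (ihZ i) (ihU i)
  | cut a j hc _ _ ihX ihZ =>
    intro i
    rcases i with _ | i
    · exact pf_zero hT hP _
    · exact pf_open hT hP i a j hc (ihX _) (ihZ _)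
  | line A _ ih => exact ppf_line hT hP A ih
  | unline L _ ih => exact fun i => pf_line_desc hT hP hS i L (ih (i + 1))
  | cover A b c _ ih => exact fun i => pf_dbl hT hP i A b c (ih i)
  | etale f hint _ ih => exact fun i => hE i f hint (ih i)
  | bundle B s j hs hc _ ih => exact hL B s j hs hc ih
  | odd A m a ha _ ih => exact hO A m a ha ih
  | zeros A m f _ ih =>
    intro i
    exact (pi_iff hT.toExtra i _).mp (red3 hT hP hS i m f (Ideal.Quotient.mkₐ k _)
      (Ideal.Quotient.mkₐ_surjective k _) Ideal.mk_ker ((pi_iff hT.toExtra _ _).mpr (ih _)))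

/-- The conjecture holds on the class if the property holds in dimension at most `d`. -/
theorem q1_of_built [Finite k] [CharZero E] {T : ∀ i : ℕ, Homology.{v} k E i} (hT : Full T)
    (hP : Pub T hT) (hS : SectionZero T) (hE : PfEt T) (hO : PpfOdd T) (hL : PpfBun T) (d : ℕ)
    (hB : ∀ X : Var k, X.DimLE d → PP T X) (X : Var k) (hX : Built k d X) (i : ℕ) :
    Q1 (T i) X :=
  Q1_of_PI _ _ ((pp_iff hT.toExtra X).mpr (ppf_of_built hT hP hS hE hO hL d hB X hX) i)

end QCV


end

section

/-!
# QCV, block O: involutions of double covers, quadratic forms in an odd number of variables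
-/

set_option autoImplicit false

open CategoryTheory AlgebraicGeometry Polynomial

namespace QCV

open Pool.Agent.Lib_helper55.Beil Pool.Agent.Lib_helper66.OneP CUB

universe v

/-! ## The involution of a double cover -/

section Inv

variable {A : Type} [CommRing A] (b c : A)

/-- The root of `t ^ 2 + b t + c` in `A[t] / (t ^ 2 + b t + c)`. -/
noncomputable def rt : Dr A b c := AdjoinRoot.root (dpoly b c)

lemma eval₂_dpoly {B : Type} [CommRing B] (φ : A →+* B) (y : B) :
    (dpoly b c).eval₂ φ y = y ^ 2 + φ b * y + φ c := by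
  simp only [dpoly, eval₂_add, eval₂_mul, eval₂_pow, eval₂_X, eval₂_C]

lemma rt_eq : rt b c ^ 2 + algebraMap A (Dr A b c) b * rt b c + algebraMap A (Dr A b c) c = 0 :=
  (eval₂_dpoly b c _ _).symm.trans (AdjoinRoot.eval₂_root (dpoly b c))

lemma inv_eq : (dpoly b c).eval₂ (algebraMap A (Dr A b c))
    (- algebraMap A (Dr A b c) b - rt b c) = 0 := by
  rw [eval₂_dpoly]
  have h := rt_eq b c
  linear_combination h

/-- The homomorphism `t ↦ - b - t`. -/
noncomputable def dinvHom : Dr A b c →+* Dr A b c :=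
  AdjoinRoot.lift (algebraMap A (Dr A b c)) (- algebraMap A (Dr A b c) b - rt b c) (inv_eq b c)

lemma dinvHom_of (a : A) : dinvHom b c (algebraMap A (Dr A b c) a) = algebraMap A (Dr A b c) a :=
  AdjoinRoot.lift_of _

lemma dinvHom_rt : dinvHom b c (rt b c) = - algebraMap A (Dr A b c) b - rt b c :=
  AdjoinRoot.lift_root _

lemma dinvHom_comp : (dinvHom b c).comp (dinvHom b c) = RingHom.id _ := by
  apply AdjoinRoot.ringHom_ext
  · ext a
    change dinvHom b c (dinvHom b c (algebraMap A (Dr A b c) a)) = algebraMap A (Dr A b c) a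
    rw [dinvHom_of, dinvHom_of]
  · change dinvHom b c (dinvHom b c (rt b c)) = rt b c
    rw [dinvHom_rt, map_sub, map_neg, dinvHom_of, dinvHom_rt]
    ring

variable (k : Type) [Field k] [Algebra k A]

/-- The involution `t ↦ - b - t` of `A[t] / (t ^ 2 + b t + c)`. -/
noncomputable def dinv : Dr A b c ≃ₐ[k] Dr A b c :=
  AlgEquiv.ofAlgHom
    { dinvHom b c with
      commutes' := fun r => by
        have h := dinvHom_of b c (algebraMap k A r)
        exact h }
    { dinvHom b c with
      commutes' := fun r => by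
        have h := dinvHom_of b c (algebraMap k A r)
        exact h }
    (AlgHom.ext fun x => RingHom.congr_fun (dinvHom_comp b c) x)
    (AlgHom.ext fun x => RingHom.congr_fun (dinvHom_comp b c) x)

lemma dinv_of (a : A) : dinv b c k (algebraMap A (Dr A b c) a) = algebraMap A (Dr A b c) a :=
  dinvHom_of b c a

lemma dinv_rt : dinv b c k (rt b c) = - algebraMap A (Dr A b c) b - rt b c := dinvHom_rt b c

lemma dinv_dinv (x : Dr A b c) : dinv b c k (dinv b c k x) = x :=
  RingHom.congr_fun (dinvHom_comp b c) x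

end Inv

variable {k : Type} [Field k]

/-- An automorphism of an algebra as a closed immersion of the affine variety. -/
noncomputable def autc {A : Type} [CommRing A] [Algebra k A] [Algebra.FiniteType k A]
    (t : A ≃ₐ[k] A) : ClosedIn (aff k A) (aff k A) :=
  clo (t : A →ₐ[k] A) t.surjective

variable {E : Type} [Field E]

/-- The pull-back of the push-forward of a class `m` along the double cover
`Spec A[t] / (t ^ 2 + b t + c) → Spec A` is the sum of `m` and its image under the involution. -/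
def DblMaps.Galois {T : ∀ i : ℕ, Homology.{v} k E i} (S : DblMaps T) (G : ProperMaps T) : Prop :=
  ∀ (i n : ℕ) (A : Type) [CommRing A] [Algebra k A] [Algebra.FiniteType k A] (b c : A)
    (m : (T i).H n (aff k (Dr A b c))),
    S.D i n A b c (G.G i n (dbl b c k) m) = m + (T i).P n (autc (dinv b c k)) m

/-- The automorphism `t` acts trivially on the homology of degree at least `2 i` and on the
`i`-dimensional cycles modulo rational equivalence. -/
structure TR (T : ∀ i : ℕ, Homology.{v} k E i) (i : ℕ) (A : Type) [CommRing A] [Algebra k A]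
    [Algebra.FiniteType k A] (t : A ≃ₐ[k] A) : Prop where
  hom : ∀ n, 2 * i ≤ n → ∀ m : (T i).H n (aff k A), (T i).P n (autc t) m = m
  cyc : ∀ c : Pts i (aff k A) →₀ E, c - pushCyc (autc t) c ∈ ratZero E i (aff k A)

/-! ## Quadratic forms -/

/-- The matrix of second derivatives of a quadratic form. -/
noncomputable def gram {A : Type} [CommRing A] {n : ℕ} (f : MvPolynomial (Fin n) A) :
    Matrix (Fin n) (Fin n) A :=
  fun i j => MvPolynomial.coeff 0 (MvPolynomial.pderiv i (MvPolynomial.pderiv j f))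

/-- The form `f_0 + t_1 f_1 + ... + t_q f_q` over `R[t_1, ..., t_q]`. -/
noncomputable def gen {R : Type} [CommRing R] {n q : ℕ}
    (f : Fin (q + 1) → MvPolynomial (Fin n) R) : MvPolynomial (Fin n) (MvPolynomial (Fin q) R) :=
  MvPolynomial.map MvPolynomial.C (f 0) +
    ∑ j, MvPolynomial.C (MvPolynomial.X j) * MvPolynomial.map MvPolynomial.C (f j.succ)

end QCV


end

section

/-!
# QCV, block O: statements (quadratic forms in an odd number of variables)

Goal.  If `a_0, ..., a_2m` are units of `A` and the varieties `Spec A` has the property `PPF`, then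
so has `Spec A[x_0, ..., x_2m] / (a_0 x_0 ^ 2 + ... + a_2m x_2m ^ 2)` (`S_OODD`), WITHOUT hypotheses
on the double covers of `Spec A`.  Proof: it is a double cover `t ^ 2 + c = 0` of the affine space
`A[x_1, ..., x_2m]`, and the involution `t ↦ - t` acts trivially on homology and on cycles modulo
rational equivalence (`TR`; `S_ODIA`), so the property descends in the other direction (`S_OPFD`).
`TR` is proved by cutting and pasting: it is inherited by gluing (`S_OGLU`), products with the affine
line (`S_OLN`), and may be checked after double covers of `A` (`S_ODCV`), so the form may be assumed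
to be a sum of hyperbolic planes (`S_OHYP`), and finally zero (`S_ONIL`).
All modules are independent (the other statements are hypotheses `M_X`).
-/

set_option autoImplicit false

open CategoryTheory AlgebraicGeometry Polynomial

namespace QCV

open Pool.Agent.Lib_helper55.Beil Pool.Agent.Lib_helper66.OneP CUB

universe v

/-! ## Triviality of involutions (homology) -/

/-- **ONIL**: an automorphism which is trivial modulo nilpotents.
Proof.  `autc t` composed with `redVarIn (aff k A)` is `redVarIn (aff k A)` (ring homomorphisms: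
`A → A / nilradical`; or: work with `A → A ⧸ nilradical A`, `clo` of the quotient map, which is
surjective on points, and push-forward along it is surjective by exactness, see
`push_red_surjective` in F_SUP).  Homology: `m = P n r m'`, `P t (P r m') = P r m'` by
`hT.push_comp` twice.  Cycles: `t` fixes every prime (`t x - x` is in every prime), so
`pushCyc (autc t) c = c` (`Finsupp.mapDomain` with the identity map). -/
def S_ONIL : Prop :=
  ∀ (k E : Type) [Field k] [Field E] (T : ∀ i : ℕ, Homology.{v} k E i) (_ : Full T)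
    (A : Type) [CommRing A] [Algebra k A] [Algebra.FiniteType k A] (t : A ≃ₐ[k] A),
    (∀ x, IsNilpotent (t x - x)) → ∀ i, TR T i A t

/-- **OLN**: an automorphism `t'` of `A[X]` which extends the automorphism `t` of `A` (for example
`t = 1` and `X ↦ - X`).
Proof.  `L = lineE (CC k A) (RingEquiv.refl _) (fun _ => rfl) : Line (aff k A[X]) (aff k A)`.
Homology: `n ≥ 2 (i + 1)`, `n = n' + 2`, `m = hT.line i n' L m'` (`hT.line_bij`), and
`hT.line_nat i n' L L sY sX` for the isomorphisms `sY`, `sX` defined by `t'`, `t` gives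
`P t' (line m') = line (P t m') = line m'` (a `ClosedIn` is determined by its morphism `g`).
Cycles: by `CUB.Asm.s_L0 k A E` (1) a cycle `c` of dimension `i + 1` is rationally equivalent to the
pull-back `d` of a cycle `v` (`cyE`, `IsPull`, see `good_line` and `inj_line` in F_LIN);
`pushCyc t' d` is the pull-back of `pushCyc t v`, and `v - pushCyc t v` is in `rat`, so
`d - pushCyc t' d`, its pull-back, is in `rat` (`CUB.Asm.s_FP` with `s_GX`, as in `inj_line`).
(Or on the level of varieties: `CUB.Asm2.s_PCY` for the pull-back of cycles.) -/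
def S_OLN : Prop :=
  ∀ (k E : Type) [Field k] [Field E] (T : ∀ i : ℕ, Homology.{v} k E i) (_ : Full T)
    (A : Type) [CommRing A] [Algebra k A] [Algebra.FiniteType k A] (t : A ≃ₐ[k] A)
    (t' : A[X] ≃ₐ[k] A[X]), (∀ a, t' (C a) = C (t a)) → ∀ i, TR T i A t → TR T (i + 1) A[X] t'

/-- **OGLU**: gluing.
Proof.  `Complementary` by `complementary_away u a s.away z s.surj s.ker`, closed immersion
`clo z`, open immersion `opn u` (as in F_RNG).  The automorphisms are compatible:
`clo z ≫ autc tA = autc tZ ≫ clo z` etc.  Homology: let `δ = P tA m - m`.  `R δ = P tU (R m) - R m = 0`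
(`res_push` in F_GLU for the cartesian square of isomorphisms), so `δ = P z w` (`exact_X`), and
`P tA δ = P z (P tZ w) = δ`.  As `tA` is an involution `P tA δ = m - P tA m = - δ`, so `2 δ = 0`.
Cycles: let `δ = c - tA c`.  `resCyc δ = res c - tU (res c)` is in `ratZero`, so it is `resCyc c'`
with `c' ∈ ratZero` (`exists_ratZero` in OneP/Loc), so `δ - c' = pushCyc (clo z) w` (`exists_pushCyc`).
`(δ - c') - tA (δ - c') = z (w - tZ w) ∈ ratZero`, `tA c' ∈ ratZero` (`pushCyc_ratZero`), so
`δ - tA δ ∈ ratZero`; `tA δ = - δ`, so `2 δ ∈ ratZero`. -/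
def S_OGLU : Prop :=
  ∀ (k E : Type) [Field k] [Field E] [CharZero E] (T : ∀ i : ℕ, Homology.{v} k E i) (_ : Full T)
    (A Z U : Type) [CommRing A] [Algebra k A] [Algebra.FiniteType k A] [CommRing Z] [Algebra k Z]
    [Algebra.FiniteType k Z] [CommRing U] [Algebra k U] [Algebra.FiniteType k U] (a : A)
    (z : A →ₐ[k] Z) (u : A →ₐ[k] U) (tA : A ≃ₐ[k] A) (tZ : Z ≃ₐ[k] Z) (tU : U ≃ₐ[k] U),
    Strat a z u → (∀ x, tA (tA x) = x) → (∀ x, z (tA x) = tZ (z x)) →
    (∀ x, u (tA x) = tU (u x)) → ∀ i, TR T i Z tZ → TR T i U tU → TR T i A tA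

/-- **OISO**: isomorphisms.
Proof.  `hT.push_comp` and `pushCyc_comp` for `autc t`, `autc t'` and `clo e`; the push-forward along
the isomorphism is bijective on homology and on cycles and preserves `ratZero` in both directions
(`pushCyc_ratZero` for `e` and for its inverse). -/
def S_OISO : Prop :=
  ∀ (k E : Type) [Field k] [Field E] (T : ∀ i : ℕ, Homology.{v} k E i) (_ : Full T)
    (A B : Type) [CommRing A] [Algebra k A] [Algebra.FiniteType k A] [CommRing B] [Algebra k B]
    [Algebra.FiniteType k B] (t : A ≃ₐ[k] A) (t' : B ≃ₐ[k] B) (e : A ≃ₐ[k] B),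
    (∀ x, e (t x) = t' (e x)) → ∀ i, TR T i A t → TR T i B t'

/-- **ODCV**: descent along a double cover `Spec A' → Spec A`, `A' = Dr A b c`, with an automorphism
`t'` of `A'` which extends `t`.
Proof.  Homology: `2 m = G (dbl) (D m)` (`Degree`), and `P t (G dbl m') = G dbl (P t' m')`
(`pfClosed`, `pfFunctorial`: `autc t' ≫ dbl = dbl ≫ autc t`), `= G dbl m'`.  Cycles: `2 c = pfc dbl z`
(`exists_dbl` in F_DBL), `pushCyc t (pfc dbl z) = pfc dbl (pushCyc t' z)`
(`CUB.Asm2.s_PFC` (2), (3)), and `pfc dbl (z - t' z) ∈ ratZero` by `CUB.Asm2.s_PUSHG` with `dim_dbl`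
(as in `injC_dbl`). -/
def S_ODCV : Prop :=
  ∀ (k E : Type) [Field k] [Field E] [CharZero E] (T : ∀ i : ℕ, Homology.{v} k E i)
    (hT : Full T), Pub T hT →
    ∀ (A : Type) [CommRing A] [Algebra k A] [Algebra.FiniteType k A] (b c : A) (t : A ≃ₐ[k] A)
      (t' : Dr A b c ≃ₐ[k] Dr A b c),
      (∀ a, t' (algebraMap A (Dr A b c) a) = algebraMap A (Dr A b c) (t a)) →
      ∀ i, TR T i (Dr A b c) t' → TR T i A t

/-! ## Hyperbolic planes -/

/-- The double cover `t ^ 2 + y y' + c = 0` of `Spec S[y, y']`, `y = C X`, `y' = X`. -/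
abbrev HW (S : Type) [CommRing S] (c : S) : Type := Dr S[X][X] 0 (C X * X + C (C c))

/-- **OHYR** (commutative algebra): the strata `y = 0` and `y ≠ 0` of `HW S c`.
Proof.  `z : y ↦ 0, y' ↦ X, t ↦ C t`; surjective with kernel `(y)`.
`u : y ↦ C x` (`x` the image of `X` in `B = Localization.Away X`), `t ↦ X`,
`y' ↦ - x⁻¹ (X ^ 2 + c)`: a localisation away from `y` (`HW[1 / y]`: the equation can be solved for
`y'`; see R_VRQ, R_LNR for the method: universal property).  `tZ`: `dinv` on the coefficients,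
`X ↦ X` (`Polynomial.mapAlgEquiv`); `tU`: `X ↦ - X`. -/
def S_OHYR : Prop :=
  ∀ (k S : Type) [Field k] [CommRing S] [Algebra k S] (c : S),
    ∃ (z : HW S c →ₐ[k] (Dr S 0 c)[X]) (u : HW S c →ₐ[k] (Localization.Away (X : S[X]))[X])
      (tZ : (Dr S 0 c)[X] ≃ₐ[k] (Dr S 0 c)[X])
      (tU : (Localization.Away (X : S[X]))[X] ≃ₐ[k] (Localization.Away (X : S[X]))[X]),
      Strat (algebraMap S[X][X] (HW S c) (C X)) z u ∧
      (∀ x, z (dinv _ _ k x) = tZ (z x)) ∧ (∀ x, u (dinv _ _ k x) = tU (u x)) ∧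
      (∀ a, tZ (C a) = C (dinv 0 c k a)) ∧ ∀ a, tU (C a) = C a

/-- **OHYP**: `TR` for `HW S c`.
Proof.  `S_OGLU` with `S_OHYR`; the closed part by `S_OLN` (`t = dinv 0 c k`), the open part by
`S_OLN` with `t = AlgEquiv.refl` (`TR` for the identity: `hT.push_id`, and `pushCyc` of the identity
is the identity). -/
def S_OHYP : Prop :=
  ∀ (k E : Type) [Field k] [Field E] [CharZero E] (T : ∀ i : ℕ, Homology.{v} k E i) (_ : Full T)
    (S : Type) [CommRing S] [Algebra k S] [Algebra.FiniteType k S] (c : S) (i : ℕ),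
    TR T i (Dr S 0 c) (dinv 0 c k) → TR T (i + 1) (HW S c) (dinv _ _ k)

def M_OHYP : Prop := S_OLN.{v} → S_OGLU.{v} → S_OHYR → S_OHYP.{v}

/-! ## Commutative algebra of double covers -/

/-- **DFN**: an isomorphism `S ≃ S'` induces an isomorphism of the double covers.
Proof.  `AdjoinRoot.lift` in both directions (or `AdjoinRoot.mapAlgEquiv` ...). -/
def S_DFN : Prop :=
  ∀ (k S S' : Type) [Field k] [CommRing S] [Algebra k S] [CommRing S'] [Algebra k S']
    (e : S ≃ₐ[k] S') (b c : S) (b' c' : S'), e b = b' → e c = c' →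
    ∃ e' : Dr S b c ≃ₐ[k] Dr S' b' c',
      (∀ s, e' (algebraMap S _ s) = algebraMap S' _ (e s)) ∧ e' (rt b c) = rt b' c'

/-- **DSW**: two double covers may be exchanged.
Proof.  `AdjoinRoot.lift` of `AdjoinRoot.lift` in both directions; check on the generators. -/
def S_DSW : Prop :=
  ∀ (k S : Type) [Field k] [CommRing S] [Algebra k S] (b c b' c' : S),
    ∃ e : Dr (Dr S b c) (algebraMap S _ b') (algebraMap S _ c') ≃ₐ[k]
        Dr (Dr S b' c') (algebraMap S _ b) (algebraMap S _ c),
      (∀ s, e (algebraMap (Dr S b c) _ (algebraMap S _ s)) =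
        algebraMap (Dr S b' c') _ (algebraMap S _ s)) ∧
      e (algebraMap (Dr S b c) _ (rt b c)) = rt _ _ ∧
      e (rt _ _) = algebraMap (Dr S b' c') _ (rt b' c')

/-- **DMV**: double covers of polynomial rings whose coefficients come from the base.
Proof.  `AdjoinRoot.lift` of `MvPolynomial.map`, and `MvPolynomial.eval₂Hom` of `AdjoinRoot.map`. -/
def S_DMV : Prop :=
  ∀ (k A σ : Type) [Field k] [CommRing A] [Algebra k A] (b c : A),
    ∃ e : Dr (MvPolynomial σ A) (MvPolynomial.C b) (MvPolynomial.C c) ≃ₐ[k]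
        MvPolynomial σ (Dr A b c),
      (∀ p, e (algebraMap (MvPolynomial σ A) _ p) =
        MvPolynomial.map (algebraMap A (Dr A b c)) p) ∧
      e (rt _ _) = MvPolynomial.C (rt b c)

/-- **DTH**: coordinates for a binary form `a_0 x_0 ^ 2 + a_1 x_1 ^ 2` which splits:
`a_0 (x_0 - s x_1) (x_0 + s x_1)`, `s ^ 2 a_0 = - a_1`.
Proof.  `θ : x_0 ↦ (a_0⁻¹ y + y') / 2`, `x_1 ↦ (y' - a_0⁻¹ y) / (2 s)`, `x_(j+2) ↦ C (C (X j))` with
`y = C X`, `y' = X`; the inverse is `C (C (X j)) ↦ x_(j+2)`, `C X ↦ a_0 (x_0 - s x_1)`,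
`X ↦ x_0 + s x_1`.  (`s` is a unit, as `s ^ 2 a_0 = - a_1` is.) -/
def S_DTH : Prop :=
  ∀ (k A : Type) [Field k] [CommRing A] [Algebra k A] (n : ℕ) (a : Fin (n + 2) → A) (s : A),
    (2 : k) ≠ 0 → IsUnit (a 0) → IsUnit (a 1) → s ^ 2 * a 0 = - a 1 →
    ∃ θ : MvPolynomial (Fin (n + 2)) A ≃ₐ[k] (MvPolynomial (Fin n) A)[X][X],
      θ (dia a) = C X * X + C (C (dia fun j => a j.succ.succ))

/-- **ORNG**: after adjoining `s`, `s ^ 2 = - a_1 / a_0`, the double cover `t ^ 2 + dia a = 0` is
`HW` of the double cover of the remaining variables.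
Proof.  `A' = Dr A 0 δ`, `S = MvPolynomial (Fin (n + 2)) A`.  `S_DSW` (`b = 0`, `c = dia a`, `b' = 0`,
`c' = C δ`), `S_DFN` with `S_DMV` (`Dr S 0 (C δ) ≅ MvPolynomial _ A'`, `dia a ↦ dia (of ∘ a)`), `S_DFN`
with `S_DTH` for `A'`, `s = rt 0 δ` (`s ^ 2 = - δ`).  `t'` is the transport of `dinv` under the
isomorphism `e`; `t'` fixes `s` and maps `t` to `- t`, as `e` maps `t` to the root of `HW` and the
elements of `S` to elements of the base of `HW`. -/
def S_ORNG : Prop :=
  ∀ (k A : Type) [Field k] [CommRing A] [Algebra k A] (n : ℕ) (a : Fin (n + 2) → A) (δ : A),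
    (2 : k) ≠ 0 → IsUnit (a 0) → IsUnit (a 1) → δ * a 0 = a 1 →
    ∃ (e : Dr (Dr (MvPolynomial (Fin (n + 2)) A) 0 (dia a)) 0
          (algebraMap (MvPolynomial (Fin (n + 2)) A) _ (MvPolynomial.C δ)) ≃ₐ[k]
        HW (MvPolynomial (Fin n) (Dr A 0 δ))
          (dia fun j => algebraMap A (Dr A 0 δ) (a j.succ.succ)))
      (t' : Dr (Dr (MvPolynomial (Fin (n + 2)) A) 0 (dia a)) 0
          (algebraMap (MvPolynomial (Fin (n + 2)) A) _ (MvPolynomial.C δ)) ≃ₐ[k] _),
      (∀ x, t' (algebraMap (Dr (MvPolynomial (Fin (n + 2)) A) 0 (dia a)) _ x) =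
        algebraMap (Dr (MvPolynomial (Fin (n + 2)) A) 0 (dia a)) _ (dinv 0 (dia a) k x)) ∧
      ∀ x, e (t' x) = dinv _ _ k (e x)

def M_ORNG : Prop := S_DFN → S_DSW → S_DMV → S_DTH → S_ORNG

/-- **ODIA**: `TR` for `t ^ 2 + a_0 x_0 ^ 2 + ... + a_(2m-1) x_(2m-1) ^ 2 = 0` in the levels `i ≥ m`.
Proof.  Induction on `m` for all `A`.  `m = 0`: `dia a = 0` (empty sum), `t ^ 2 = 0`,
`dinv x - x` is a multiple of `t` (`x = p + q t`, `dinv x = p - q t`), nilpotent: `S_ONIL`.
`m + 1` (`2 * (m + 1) = 2 * m + 2`): `i = i' + 1`, `i' ≥ m`; `δ = a_1 / a_0`; induction hypothesis for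
`A' = Dr A 0 δ`, level `i'`; `S_OHYP`; `S_OISO` with the inverse of `e` of `S_ORNG`; `S_ODCV` with
`t'`.  (`FiniteType` of the rings involved: instances.) -/
def S_ODIA : Prop :=
  ∀ (k E : Type) [Field k] [Field E] [CharZero E] (T : ∀ i : ℕ, Homology.{v} k E i)
    (hT : Full T), Pub T hT → (2 : k) ≠ 0 →
    ∀ (m : ℕ) (A : Type) [CommRing A] [Algebra k A] [Algebra.FiniteType k A]
      (a : Fin (2 * m) → A), (∀ j, IsUnit (a j)) → ∀ i, m ≤ i →
      TR T i (Dr (MvPolynomial (Fin (2 * m)) A) 0 (dia a)) (dinv 0 (dia a) k)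

def M_ODIA : Prop :=
  S_ONIL.{v} → S_OISO.{v} → S_ODCV.{v} → S_OHYP.{v} → S_ORNG → S_ODIA.{v}

/-! ## From the base to the double cover -/

/-- **OPDN**: the push-forward of the divisor of `φ` is the divisor of the norm of `φ` (explicit form
of `CUB.S_PUSHD`).
Proof.  The statement `key` in the proof of `t_PUSHD` in `CUB2/K_PUSHD.lean` (copy the proof; at the
end `ext y` instead of the choice of `d`). -/
def S_OPDN : Prop :=
  ∀ (k E : Type) [Field k] [Field E] (n : ℕ) (W V : Var k) (_ : IsIntegral W.X)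
    (_ : IsIntegral V.X) (f : PrMor W V) (hf : f.g (genericPoint W.X) = genericPoint V.X)
    (φ : W.X.functionField) (c : Pts n W →₀ E) (d : Pts n V →₀ E),
    W.dim (genericPoint W.X) = (n + 1 : ℕ) → V.dim (genericPoint V.X) = (n + 1 : ℕ) → φ ≠ 0 →
    IsDiv (idIn W) φ c →
    IsDiv (idIn V) (@Algebra.norm V.X.functionField W.X.functionField _ _
      (PUSHD.fm f.g hf).hom.toAlgebra φ) d → pfc E n f c = d

/-- **OLFT**: every cycle in `ratZero` of `Spec A` is the push-forward of a cycle in `ratZero` of the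
double cover.
Proof.  By linearity, for a generator: `V = Spec A / p` (or an integral closed subvariety `V` of
`aff k A` of dimension `i + 1`), `φ` a function on `V`, `d` its divisor.  Let `q` be a prime of
`Dr A b c` over `p` (`Algebra.IsIntegral`, `comap` surjective: `A → Dr A b c` is injective and
finite), `W = V(q)`, `f : W → V`.  `W` has the same dimension as `V` (`dim_dbl`).  Let `φ'` be the image of
`φ` in the function field of `W` (`(PUSHD.fm f.g hf).hom φ`), `c` its divisor.  The norm of `φ'` is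
`φ ^ δ`, `δ` the degree (`Algebra.norm_algebraMap`), whose divisor is `δ d`
(`Scheme.ord` is multiplicative), so `pfc f c = δ d` by `S_OPDN`, `δ ≠ 0`.  Functoriality of `pfc`
(`CUB.Asm2.s_PFC` (2), (3)). -/
def S_OLFT : Prop :=
  ∀ (k E : Type) [Field k] [Field E] [CharZero E] (A : Type) [CommRing A] [Algebra k A]
    [Algebra.FiniteType k A] (b c : A) (i : ℕ), ∀ z ∈ ratZero E i (aff k A),
    ∃ c' ∈ ratZero E i (aff k (Dr A b c)), pfc E i (dbl b c k) c' = z

def M_OLFT : Prop := S_OPDN → S_OLFT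

/-- **OKER**: cycles on the double cover with push-forward zero.
Proof.  Let `τ = dinv b c k`.  (1) Two primes `q, q'` over the same prime of `A`: `q' = q` or
`q' = τ q`: for `x ∈ q'` the norm `x τ(x)` is in `A` (`x = α + β t`: `x τ(x) = α ^ 2 - α β b + β ^ 2 c`), so in
`q`, so `x ∈ q ∪ τ q`; prime avoidance (`Ideal.subset_union`), and there are no inclusions between
primes over the same prime (`Ideal.comap_lt_comap_of_integral_mem_sdiff` or
`Algebra.IsIntegral`...).  (2) The degrees of `q` and `τ q` over their image agree (functoriality,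
degree one for isomorphisms), and are not zero.  (3) `c` is the sum over the fibres; in a fibre `{q}`
the coefficient is zero, in a fibre `{q, τ q}` the coefficients are `e, - e`:
`e q - e τ q = d - τ d`, `d = e q`.  To avoid the choice of representatives: put `d = c / 2`; then
`c - (d - τ d) = (c + τ c) / 2`, and `c + τ c = 0`: its value at `q` is `c q + c (τ q)`, and
`(pfc c) (q ∩ A) = deg q (c q + c (τ q))` or `deg q * c q` (`s_PFC` (6)). -/
def S_OKER : Prop :=
  ∀ (k E : Type) [Field k] [Field E] [CharZero E] (A : Type) [CommRing A] [Algebra k A]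
    [Algebra.FiniteType k A] (b c : A) (i : ℕ) (z : Pts i (aff k (Dr A b c)) →₀ E),
    pfc E i (dbl b c k) z = 0 → z + pushCyc (autc (dinv b c k)) z = 0

/-- **OPFD**: the property `PF` ascends to a double cover whose involution acts trivially.
Proof.  `g = dbl b c k`, `τ = autc (dinv b c k)`, `S` the maps of `Pub`-type with `Frobenius`,
`Degree`, `Classes`, `Galois`.
(1) `G g` is injective in degrees `≥ 2 i`: `D (G g m) = m + P τ m = 2 m`.
(2) `gen ≤ alg`: for `m ∈ gen`, `G g m ∈ gen (Spec A) ≤ alg`, `G g m = cls x`; `2 x = pfc g z`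
(`exists_dbl`), `G g (cls z) = 2 G g m` (`s_PFC` (4)), so `cls z = 2 m` by (1).
(3) `InjC`: let `cls z = 0`.  `pfc g z` has class zero, so it is in `ratZero`, so
`pfc g z = pfc g z'`, `z' ∈ ratZero` (`S_OLFT`).  `S_OKER` for `z - z'`: `z + τ z = z' + τ z' ∈ ratZero`.
`z - τ z ∈ ratZero` by `TR`, so `2 z ∈ ratZero`.
(4) supports: for `m ∈ gen1`, `G g m = P ι w` with `W ⊆ Spec A` closed of dimension `≤ i + 1`,
`W = Spec A / I` (closed subvarieties of affine varieties are affine: `exists_aff`,
or take the closed set and `I` its vanishing ideal).  `W' = Spec Dr (A / I) b c`, closed in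
`Spec Dr A b c`, double cover of `W`, `w = G g_W w'` (`w' = D w / 2`).  `G g (P ι' w') = P ι w = G g m`, so
`m = P ι' w'` by (1). -/
def S_OPFD : Prop :=
  ∀ (k E : Type) [Field k] [Finite k] [Field E] [CharZero E] (T : ∀ i : ℕ, Homology.{v} k E i)
    (hT : Full T) (S : DblMaps T), Pub T hT → S.Frobenius → S.Degree hT.toProperMaps →
    S.Classes → S.Galois hT.toProperMaps →
    ∀ (A : Type) [CommRing A] [Algebra k A] [Algebra.FiniteType k A] (b c : A) (i : ℕ),
      PF (T i) (aff k A) → TR T i (Dr A b c) (dinv b c k) → PF (T i) (aff k (Dr A b c))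

def M_OPFD : Prop := S_OLFT → S_OKER → S_OPFD.{v}

/-- **ODR** (commutative algebra): the quadric cone in an odd number of variables as a double cover.
Proof.  Divide by the unit `a_0`; `MvPolynomial.finSuccEquiv`:
`A[x_1, ..., x_n][x_0] / (x_0 ^ 2 + ∑ (b_j) x_j ^ 2)`, `b_j = a_j / a_0`; `Ideal.quotientEquivAlg` and
`AdjoinRoot` is by definition the quotient. -/
def S_ODR : Prop :=
  ∀ (k A : Type) [Field k] [CommRing A] [Algebra k A] (n : ℕ) (a : Fin (n + 1) → A)
    (b : Fin n → A), IsUnit (a 0) → (∀ j, b j * a 0 = a j.succ) →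
    Nonempty ((MvPolynomial (Fin (n + 1)) A ⧸ Ideal.span {dia a}) ≃ₐ[k]
      Dr (MvPolynomial (Fin n) A) 0 (dia b))

/-- **OBCH** (commutative algebra): more variables in the base.
Proof.  `S_DFN` with `MvPolynomial (Fin n) (MvPolynomial (Fin m) A) ≅
MvPolynomial (Fin m) (MvPolynomial (Fin n) A)` (`MvPolynomial.commAlgEquiv`), and `S_DMV`. -/
def S_OBCH : Prop :=
  ∀ (k A : Type) [Field k] [CommRing A] [Algebra k A] (n m : ℕ) (b : Fin n → A),
    Nonempty (Dr (MvPolynomial (Fin n) (MvPolynomial (Fin m) A)) 0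
        (dia fun j => MvPolynomial.C (b j)) ≃ₐ[k]
      MvPolynomial (Fin m) (Dr (MvPolynomial (Fin n) A) 0 (dia b)))

def M_OBCH : Prop := S_DFN → S_DMV → S_OBCH

/-- **OODD**: the main result of the homological part.
Proof.  By `S_ODR` (and `pf_viso`) consider `V(A) = Dr (MvPolynomial (Fin (2 * m)) A) 0 (dia b)`, `b_j`
units.  Claim for `i ≥ m` and every `A` with `PPF`: `PF (T i) (V(A))`: `S_OPFD` for the base
`MvPolynomial (Fin (2 * m)) A` (`PF` by `Asm.s_PLY` (1) for `PPF`, `cls0_ppf`, `ppf_line`), `TR` by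
`S_ODIA` if `(2 : k) ≠ 0`; if `(2 : k) = 0` then `dinv = id` (`- t = t`), `S_ONIL`.
For arbitrary `i`: the claim for `A[w_1, ..., w_m]` and `i + m`; `S_OBCH`, `pf_viso`, and
`pf_mv_desc` (G_RED3; this is where `SectionZero` is used). -/
def S_OODD : Prop :=
  ∀ (k E : Type) [Field k] [Finite k] [Field E] [CharZero E] (T : ∀ i : ℕ, Homology.{v} k E i)
    (hT : Full T) (S : DblMaps T), Pub T hT → SectionZero T → S.Frobenius →
    S.Degree hT.toProperMaps → S.Classes → S.Galois hT.toProperMaps →
    ∀ (A : Type) [CommRing A] [Algebra k A] [Algebra.FiniteType k A] (m : ℕ)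
      (a : Fin (2 * m + 1) → A), (∀ j, IsUnit (a j)) → PPF T (aff k A) →
      PPF T (aff k (MvPolynomial (Fin (2 * m + 1)) A ⧸ Ideal.span {dia a}))

def M_OODD : Prop := S_ONIL.{v} → S_ODIA.{v} → S_OPFD.{v} → S_ODR → S_OBCH → S_OODD.{v}

/-! ## Quadratic forms: linear algebra -/

/-- **QDF**: diagonalisation over a field.
Proof.  `LinearMap.BilinForm.exists_orthogonal_basis` (or
`QuadraticForm.equivalent_weightedSumSquares`) for the symmetric form with matrix `G`; permute the basis so
that the nonzero diagonal entries come first; `rank (Pᵀ G P) = rank G` and the rank of a diagonal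
matrix is the number of nonzero entries (`Matrix.rank_diagonal`). -/
def S_QDF : Prop :=
  ∀ (K : Type) [Field K] (n : ℕ) (G : Matrix (Fin n) (Fin n) K), (2 : K) ≠ 0 → G.transpose = G →
    ∃ (P : Matrix (Fin n) (Fin n) K) (w : Fin n → K), IsUnit P.det ∧
      P.transpose * G * P = Matrix.diagonal w ∧ ∀ j : Fin n, w j ≠ 0 ↔ j.1 < G.rank

/-- **QDS**: diagonalisation over a localisation of a domain `D`.
Proof.  `S_QDF` over the fraction field; multiply `P` by a common denominator `s` (`w` is multiplied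
by `s ^ 2`), so `P` and `w` have entries in `D` (`D → FractionRing D` is injective, so
`Pᵀ G P = diag w` in `D`).  `a = det P * ∏ (nonzero w_j)`. -/
def S_QDS : Prop :=
  ∀ (D : Type) [CommRing D] [IsDomain D] (n : ℕ) (G : Matrix (Fin n) (Fin n) D), (2 : D) ≠ 0 →
    G.transpose = G →
    ∃ a : D, a ≠ 0 ∧ ∃ (P : Matrix (Fin n) (Fin n) (Localization.Away a))
      (w : Fin n → Localization.Away a), IsUnit P.det ∧
      P.transpose * G.map (algebraMap D (Localization.Away a)) * P = Matrix.diagonal w ∧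
      ∀ j : Fin n, (j.1 < (G.map (algebraMap D (FractionRing D))).rank → IsUnit (w j)) ∧
        (¬ j.1 < (G.map (algebraMap D (FractionRing D))).rank → w j = 0)

def M_QDS : Prop := S_QDF → S_QDS

/-- **QDP**: the linear substitution with matrix `P`.
Proof.  `2 f = ∑_(i,j) G_(ij) x_i x_j` for `f` homogeneous of degree two (Euler:
`MvPolynomial.IsHomogeneous.sum_X_mul_pderiv` twice; or coefficientwise).  The substitution
`x_i ↦ ∑_j P_(ij) x_j` is an automorphism of the polynomial ring (inverse: `P⁻¹`), and maps `2 f` to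
`∑ w_j x_j ^ 2`.  `v_j = w_j / 2`. -/
def S_QDP : Prop :=
  ∀ (k B : Type) [Field k] [CommRing B] [Algebra k B] (n : ℕ) (f : MvPolynomial (Fin n) B)
    (P : Matrix (Fin n) (Fin n) B) (w v : Fin n → B), (2 : k) ≠ 0 → f.IsHomogeneous 2 →
    IsUnit P.det → P.transpose * gram f * P = Matrix.diagonal w → (∀ j, 2 * v j = w j) →
    Nonempty ((MvPolynomial (Fin n) B ⧸ Ideal.span {f}) ≃ₐ[k]
      (MvPolynomial (Fin n) B ⧸ Ideal.span {dia v}))

/-- **QDL**: the variables which do not occur.
Proof.  `MvPolynomial (Fin n) B ≅ MvPolynomial (Fin (n - ρ)) (MvPolynomial (Fin ρ) B)`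
(`P_SPL.spl` with `b = ρ`), `dia v ↦ C (dia (v on the first ρ))`;
`MvPolynomial.quotientEquivQuotientMvPolynomial`. -/
def S_QDL : Prop :=
  ∀ (k B : Type) [Field k] [CommRing B] [Algebra k B] (n ρ : ℕ) (hρ : ρ ≤ n) (v : Fin n → B),
    (∀ j : Fin n, ¬ j.1 < ρ → v j = 0) →
    Nonempty ((MvPolynomial (Fin n) B ⧸ Ideal.span {dia v}) ≃ₐ[k]
      MvPolynomial (Fin (n - ρ)) (MvPolynomial (Fin ρ) B ⧸
        Ideal.span {dia fun j : Fin ρ => v (Fin.castLE hρ j)}))

/-! ## Quadratic forms of odd generic rank -/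

/-- The closure property: quadric cones in an odd number of variables. -/
def OddCl (k : Type) [Field k]
    (P : ∀ (A : Type) [CommRing A] [Algebra k A] [Algebra.FiniteType k A], Prop) : Prop :=
  ∀ (A : Type) [CommRing A] [Algebra k A] [Algebra.FiniteType k A] (m : ℕ)
    (a : Fin (2 * m + 1) → A), (∀ j, IsUnit (a j)) → P A →
    P (MvPolynomial (Fin (2 * m + 1)) A ⧸ Ideal.span {dia a})

/-- **QOD**: one quadratic form of odd rank over the fraction field of the domain `B`.
Proof.  `G = gram f` (symmetric: `MvPolynomial.pderiv_pderiv` commute).  `S_QDS` gives `a`; `ρ` the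
rank (odd, `≤ n`).  `Z = B / a` (`Ideal.Quotient.mkₐ`), `U = Localization.Away a` (`awayHom k a`),
`Strat a z u` (`CUB.isLocalization_awayHom`, see R_SPR, R_NOE).  `P (B / a)` by `base`, as
`DL k (B / a) d` (`Asm.s_DLR`: the dimension drops), `P U` by `opn`.  `P` of the family over `Z`:
`Asm.s_QUA` (`mf` keeps the degree).  Over `U`: `gram` commutes with `map`; `S_QDP` with `v = w / 2`,
`S_QDL` with `ρ = 2 m + 1`, `OddCl` over `U` (`v_j` units for `j < ρ`), and `Asm.s_PLY` (1).  Glue with
`Asm.s_FAM` (1). -/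
def S_QOD : Prop :=
  ∀ (k : Type) [Field k]
    (P : ∀ (A : Type) [CommRing A] [Algebra k A] [Algebra.FiniteType k A], Prop) (d : ℕ),
    (2 : k) ≠ 0 → Cls k d P → OddCl k P →
    ∀ (B : Type) [CommRing B] [IsDomain B] [Algebra k B] [Algebra.FiniteType k B] (n : ℕ)
      (f : MvPolynomial (Fin n) B), DL k B (d + 1) → P B → f.IsHomogeneous 2 →
      Odd ((gram f).map (algebraMap B (FractionRing B))).rank →
      P (ER (fun _ : Fin 1 => f))

def M_QOD : Prop := S_QDS → S_QDP → S_QDL → S_QOD

/-- **QSW**: `S_SWP` with the explicit polynomial `gen f`.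
Proof.  As R_SWP: `R[x][s] ≅ R[s][x]`, `fs f ↦ gen f`. -/
def S_QSW : Prop :=
  ∀ (k R : Type) [Field k] [CommRing R] [Algebra k R] (n q : ℕ)
    (f : Fin (q + 1) → MvPolynomial (Fin n) R),
    Nonempty ((MvPolynomial (Fin q) (MvPolynomial (Fin n) R) ⧸ Ideal.span {fs f}) ≃ₐ[k]
      ER (fun _ : Fin 1 => gen f))

/-- The ring homomorphism `R[t_1, ..., t_q] → Frac ((R / p)[t_1, ..., t_q])`. -/
noncomputable def genHom {R : Type} [CommRing R] (q : ℕ) (p : PrimeSpectrum R) :
    MvPolynomial (Fin q) R →+* FractionRing (MvPolynomial (Fin q) (R ⧸ p.asIdeal)) :=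
  (algebraMap (MvPolynomial (Fin q) (R ⧸ p.asIdeal)) _).comp
    (MvPolynomial.map (Ideal.Quotient.mk p.asIdeal))

/-- The generic member `f_0 + t_1 f_1 + ... + t_q f_q` of the linear system has odd rank over every
prime of `R` of dimension at least `e`. -/
def OddGen (k : Type) [Field k] {R : Type} [CommRing R] [Algebra k R] {n q : ℕ} (e : ℕ)
    (f : Fin (q + 1) → MvPolynomial (Fin n) R) : Prop :=
  ∀ p : PrimeSpectrum R, (e : Cardinal) ≤ rdim k p → Odd ((gram (gen f)).map (genHom q p)).rank

/-- **QNO**: noetherian induction over `R`.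
Proof.  `Asm.s_NOE` for `F S ψ := P (MvPolynomial (Fin q) (MvPolynomial (Fin n) S) ⧸
Ideal.span {fs (fun j => map ψ (f j))})`; `Cls1` as in R_SPR: this is a family over `S` in the
`q + n` variables (`MvPolynomial (Fin (q + n)) S`, one equation: `S_FAM` (1), (2) after the
isomorphism `MvPolynomial.sumAlgEquiv`, `finSumFinEquiv`).  For a domain `D = R / p` (`ψ` surjective,
`p` its kernel, `D ≅ R / p`) take `a = 1`, `Localization.Away 1 ≅ D` and isomorphism invariance; so show
`P (ER (gen f_D))` (`S_QSW`): `B = MvPolynomial (Fin q) D`, a domain, `P B` (`base`, `e ≤ d`, `line`).  If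
`rdim k p < e`: `DL k D (e - 1)` (`e ≥ 1`; every prime of `D` has dimension at most that of `⊥`), so
`DL k B d` (`Asm.s_DLM`), and `Asm.s_QUA`.  Otherwise `S_QOD` for `B` (`DL k B (d + 1)`):
`gram (gen f_D)` is the image of `gram (gen f)`, and the rank condition is `OddGen` at `p`
(transport along `R / p ≅ D`). -/
def S_QNO : Prop :=
  ∀ (k : Type) [Field k]
    (P : ∀ (A : Type) [CommRing A] [Algebra k A] [Algebra.FiniteType k A], Prop) (d : ℕ),
    (2 : k) ≠ 0 → Cls k d P → OddCl k P →
    ∀ (R : Type) [CommRing R] [Algebra k R] [Algebra.FiniteType k R] (n q e : ℕ)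
      (f : Fin (q + 1) → MvPolynomial (Fin n) R), e ≤ d → q + e ≤ d + 1 → DL k R e →
      (∀ j, (f j).IsHomogeneous 2) → OddGen k e f →
      P (MvPolynomial (Fin q) (MvPolynomial (Fin n) R) ⧸ Ideal.span {fs f})

def M_QNO : Prop := S_QOD → S_QSW → S_QNO

/-- **QVR**: `P (VR R[x] f)` for `q + 1` quadratic forms with odd generic rank.
Proof.  As R_VRP, step `r + 1`: `S' = MvPolynomial (Fin q) (MvPolynomial (Fin n) R)`, `P S'`,
`P (S' / (fs f))` by `S_QNO`, `Asm.s_V1P`, `P (VR _ (f ∘ succ))` by `Asm.s_VRP` (`e + q ≤ d + 1`,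
`totalDegree ≤ 2` by homogeneity), `glue` with `Asm.s_VRQ`. -/
def S_QVR : Prop :=
  ∀ (k : Type) [Field k]
    (P : ∀ (A : Type) [CommRing A] [Algebra k A] [Algebra.FiniteType k A], Prop) (d : ℕ),
    (2 : k) ≠ 0 → Cls k d P → OddCl k P →
    ∀ (R : Type) [CommRing R] [Algebra k R] [Algebra.FiniteType k R] (n q e : ℕ)
      (f : Fin (q + 1) → MvPolynomial (Fin n) R), e ≤ d → q + e ≤ d + 1 → DL k R e →
      (∀ j, (f j).IsHomogeneous 2) → OddGen k e f → P (VR (MvPolynomial (Fin n) R) f)

def M_QVR : Prop := S_QNO → S_QVR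

end QCV


end

section

/-!
# QCV, block C: statements (conic bundles over surfaces, cubic hypersurfaces)

Goals.  (1) One quadratic form of odd generic rank over `R[y_1, ..., y_a]`, `e ≤ d`, `e + a ≤ d + 1`
(`S_QOP`; for example conic bundles over the affine plane, `d = 1`).
(2) Cubic hypersurfaces in `P^(a+s)_R` which contain the linear subspace `y_0 = ... = y_a = 0`, and
whose residual quadrics have odd generic rank, `e + a ≤ d + 1`, `e + s ≤ d + 1` (`S_CUB`; for example
cubic threefolds with a line, `a = s = 2`, `d = 1`).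
The cubic form is written as `G(1, x_1, ..., x_s)`, where `G` is a quadratic form in `x_0, ..., x_s`
over `R[y_0, ..., y_a]`, in which the coefficient of the monomial `μ` is homogeneous of degree
`1 + μ_0`.
-/

set_option autoImplicit false

open Polynomial

namespace QCV

open CUB

/-- The homomorphism `x_0 ↦ c`, `x_(j+1) ↦ x_j`. -/
noncomputable def sp {R : Type} [CommRing R] {n : ℕ} (c : R) :
    MvPolynomial (Fin (n + 1)) R →ₐ[R] MvPolynomial (Fin n) R :=
  MvPolynomial.aeval (Fin.cons (MvPolynomial.C c) MvPolynomial.X)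

/-- The closure property: from the product with the punctured affine line to the base. -/
def GmCl (k : Type) [Field k]
    (P : ∀ (A : Type) [CommRing A] [Algebra k A] [Algebra.FiniteType k A], Prop) : Prop :=
  ∀ (A : Type) [CommRing A] [Algebra k A] [Algebra.FiniteType k A],
    P (Localization.Away (X : A[X])) → P A

/-- The quadratic form `f` over `R[y_1, ..., y_a]` has odd rank over the generic point of the affine
space over every prime of `R` of dimension at least `e`. -/
def OddOne (k : Type) [Field k] {R : Type} [CommRing R] [Algebra k R] {n a : ℕ} (e : ℕ)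
    (f : MvPolynomial (Fin n) (MvPolynomial (Fin a) R)) : Prop :=
  ∀ p : PrimeSpectrum R, (e : Cardinal) ≤ rdim k p → Odd ((gram f).map (genHom a p)).rank

/-- **QOP**: one quadratic form of odd generic rank over a polynomial ring.
Proof.  That of `t_QNO` (O_QNO.lean), word by word, with `q = a`, and `f` over `MvPolynomial (Fin a) R`
instead of `gen f`, `MvPolynomial.map (FAM.mpa a ψ) f` instead of `gen (mf ψ f)`; the last step
(`hQSW`) is not needed. -/
def S_QOP : Prop :=
  ∀ (k : Type) [Field k]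
    (P : ∀ (A : Type) [CommRing A] [Algebra k A] [Algebra.FiniteType k A], Prop) (d : ℕ),
    (2 : k) ≠ 0 → Cls k d P → OddCl k P →
    ∀ (R : Type) [CommRing R] [Algebra k R] [Algebra.FiniteType k R] (n a e : ℕ)
      (f : MvPolynomial (Fin n) (MvPolynomial (Fin a) R)), e ≤ d → e + a ≤ d + 1 → DL k R e →
      f.IsHomogeneous 2 → OddOne k e f → P (ER (fun _ : Fin 1 => f))

def M_QOP : Prop := S_QOD → S_QOP

/-- **HCH** (commutative algebra): the strata `x_0 = 0` and `x_0 ≠ 0` of an affine cone.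
Proof.  `z`: `sp 0`, surjective; the kernel of `ER f → ER (sp 0 ∘ f)` is generated by `x_0`, because
`g - (sp 0 g)(x_1, ..., x_n)` is a multiple of `x_0`.  `u`: with `A = ER (sp 1 ∘ f)` and `t` the image of
`X` in `Localization.Away X`: `x_0 ↦ t`, `x_(j+1) ↦ t x_j`; `f_j ↦ t ^ (m_j) (sp 1 f_j) = 0` by
homogeneity.  It is a localisation away from `x_0`: the inverse of
`ER f [x_0⁻¹] → Localization.Away X` is `x_j ↦ x_(j+1) / x_0`, `X ↦ x_0` (methods: R_VRQ, R_LNR,
O_OHYR). -/
def S_HCH : Prop :=
  ∀ (k R ι : Type) [Field k] [CommRing R] [Algebra k R] (n : ℕ)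
    (f : ι → MvPolynomial (Fin (n + 1)) R) (m : ι → ℕ), (∀ j, (f j).IsHomogeneous (m j)) →
    ∃ (z : ER f →ₐ[k] ER (fun j => sp 0 (f j)))
      (u : ER f →ₐ[k] Localization.Away (X : (ER (fun j => sp 1 (f j)))[X])),
      Strat (Ideal.Quotient.mk (Ideal.span (Set.range f)) (MvPolynomial.X 0)) z u

/-- **HDE**: affine cones and their charts.
Proof.  `S_HCH`.  (1) `glue`: for `A = ER (sp 1 ∘ f)`, `P A` implies `P A[X]` (`line`) and
`P (Localization.Away X)` (`opn` for the strata `X = 0`: `A`, and `X ≠ 0` of `A[X]`).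
(2) `opn`, then `GmCl`. -/
def S_HDE : Prop :=
  ∀ (k : Type) [Field k]
    (P : ∀ (A : Type) [CommRing A] [Algebra k A] [Algebra.FiniteType k A], Prop),
    Cls0 k P → (∀ (A : Type) [CommRing A] [Algebra k A] [Algebra.FiniteType k A], P A → P A[X]) →
    GmCl k P →
    ∀ (R ι : Type) [CommRing R] [Algebra k R] [Algebra.FiniteType k R] (n : ℕ)
      (f : ι → MvPolynomial (Fin (n + 1)) R) (m : ι → ℕ), (∀ j, (f j).IsHomogeneous (m j)) →
      P (ER (fun j => sp 0 (f j))) → (P (ER (fun j => sp 1 (f j))) ↔ P (ER f))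

def M_HDE : Prop := S_HCH → S_HDE

/-- **LN1**: one equation of degree at most one over `R[x_1, ..., x_s]`, `e + s ≤ d + 1`.
Proof.  Noetherian induction over `R` (`Asm.s_NOE` with `Cls1` as in O_QNO), so for a domain `D = R / p`
(take `a = 1` as in O_QNO): `B = MvPolynomial (Fin s) D`, a domain, `P B` (`base`, `Asm.s_PLY` (1)),
`DL k B (d + 1)`, `f = g_0 + ∑ g_j y_j` over `B`.  If `f = 0`: `Asm.s_PLY` (1) for `B`.  Otherwise let
`u` be a nonzero coefficient, `u = g_j` with `j ≥ 1` if possible.  `Strat u`: `DL k (B / u) d`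
(`Asm.s_DLR`), so the family over `B / u` is `Asm.s_QUA`; `P (B_u)` by `opn`; over `B_u`: if `u = g_j`,
`j ≥ 1`: `QCV.eli` (R_ELM) with no other equation: a polynomial ring over `B_u`; if `u = g_0` and all
`g_j = 0`: the unit ideal (`triv`).  `Asm.s_FAM` (1) and `glue`. -/
def S_LN1 : Prop :=
  ∀ (k : Type) [Field k]
    (P : ∀ (A : Type) [CommRing A] [Algebra k A] [Algebra.FiniteType k A], Prop) (d : ℕ),
    Cls k d P →
    ∀ (R : Type) [CommRing R] [Algebra k R] [Algebra.FiniteType k R] (n s e : ℕ)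
      (f : MvPolynomial (Fin n) (MvPolynomial (Fin s) R)), e ≤ d → e + s ≤ d + 1 → DL k R e →
      f.totalDegree ≤ 1 → P (ER (fun _ : Fin 1 => f))

/-- **AFF**: the chart `y_0 = 1` of the cubic hypersurface.
Proof.  If `e + a ≤ d`: `Asm.s_QUA` for the base `MvPolynomial (Fin a) R` (`Asm.s_DLM`); the degree is at
most two (homogeneity of `G`; `sp 1` does not raise the total degree).
If `e + a = d + 1`: `G₁ = map (sp 1) G`, homogeneous of degree two over `R[y_1, ..., y_a]`; `P (ER G₁)`
by `S_QOP`.  `sp 0 G₁` consists of the terms of `G₁` without `x_0`, its coefficients are `sp 1` of linear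
forms in `y`, so of degree at most one in `y`: exchange `R[y][x] ≅ R[x][y]` (`MvPolynomial` swap as in
R_SWP, O_QSW, `MvPolynomial.commAlgEquiv`), so `P (ER (sp 0 G₁))` by `S_LN1`.  `S_HDE` (←) for
`G₁` over the base `MvPolynomial (Fin a) R`. -/
def S_AFF : Prop :=
  ∀ (k : Type) [Field k]
    (P : ∀ (A : Type) [CommRing A] [Algebra k A] [Algebra.FiniteType k A], Prop) (d : ℕ),
    (2 : k) ≠ 0 → Cls k d P → OddCl k P → GmCl k P →
    ∀ (R : Type) [CommRing R] [Algebra k R] [Algebra.FiniteType k R] (a s e : ℕ)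
      (G : MvPolynomial (Fin (s + 1)) (MvPolynomial (Fin (a + 1)) R)), e ≤ d → e + a ≤ d + 1 →
      e + s ≤ d + 1 → DL k R e → G.IsHomogeneous 2 →
      (∀ μ, (MvPolynomial.coeff μ G).IsHomogeneous (1 + μ 0)) →
      (d < e + a → OddOne k e (MvPolynomial.map (sp (1 : R)).toRingHom G)) →
      P (ER (fun _ : Fin 1 => sp 1 (MvPolynomial.map (sp (1 : R)).toRingHom G)))

def M_AFF : Prop := S_QOP → S_LN1 → S_HDE → S_AFF

/-- The cubic form `G(1, x_1, ..., x_s)` in `R[y_0, ..., y_a, x_1, ..., x_s]`. -/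
noncomputable def cub {R : Type} [CommRing R] {a s : ℕ}
    (G : MvPolynomial (Fin (s + 1)) (MvPolynomial (Fin (a + 1)) R)) :
    MvPolynomial (Fin (a + s + 1)) R :=
  MvPolynomial.eval₂
    (MvPolynomial.rename fun i : Fin (a + 1) => (⟨i.1, by omega⟩ : Fin (a + s + 1))).toRingHom
    (Fin.cons 1 fun j : Fin s => MvPolynomial.X ⟨a + 1 + j.1, by omega⟩) G

/-- **CUH**: `cub G` is homogeneous of degree three.
Proof.  Sum over the monomials `μ` of `G`: the coefficient has degree `1 + μ_0`, the product of the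
`x_j ^ μ_j`, `j ≥ 1`, has degree `2 - μ_0`. -/
def S_CUH : Prop :=
  ∀ (R : Type) [CommRing R] (a s : ℕ)
    (G : MvPolynomial (Fin (s + 1)) (MvPolynomial (Fin (a + 1)) R)), G.IsHomogeneous 2 →
    (∀ μ, (MvPolynomial.coeff μ G).IsHomogeneous (1 + μ 0)) → (cub G).IsHomogeneous 3

/-- **CUB**: the affine cone over the cubic hypersurface.
Proof.  Induction on `a` with `S_HDE` (→) for `f = cub G`, `m = 3` (`S_CUH`).
`sp 1 (cub G)`: `R[y_1, ..., y_a, x_1, ..., x_s] ≅ R[y_1, ..., y_a][x_1, ..., x_s]` (P_SPL, or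
`MvPolynomial.sumAlgEquiv` and `finSumFinEquiv`) maps it to `sp 1 (map (sp 1) G)`: `S_AFF`.
`sp 0 (cub G)`: if `a = 0` it is zero (its coefficients are `sp 0` of forms of positive degree in `y_0`):
`Asm.s_PLY`.  If `a = a' + 1`: it is `cub (map (sp 0) G)`, and `map (sp 0) G` satisfies the hypotheses
for `a'` (now `e + a' ≤ d`, so no condition on the rank). -/
def S_CUB : Prop :=
  ∀ (k : Type) [Field k]
    (P : ∀ (A : Type) [CommRing A] [Algebra k A] [Algebra.FiniteType k A], Prop) (d : ℕ),
    (2 : k) ≠ 0 → Cls k d P → OddCl k P → GmCl k P →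
    ∀ (R : Type) [CommRing R] [Algebra k R] [Algebra.FiniteType k R] (a s e : ℕ)
      (G : MvPolynomial (Fin (s + 1)) (MvPolynomial (Fin (a + 1)) R)), e ≤ d → e + a ≤ d + 1 →
      e + s ≤ d + 1 → DL k R e → G.IsHomogeneous 2 →
      (∀ μ, (MvPolynomial.coeff μ G).IsHomogeneous (1 + μ 0)) →
      (d < e + a → OddOne k e (MvPolynomial.map (sp (1 : R)).toRingHom G)) →
      P (ER (fun _ : Fin 1 => cub G))

def M_CUB : Prop := S_AFF → S_HDE → S_CUH → S_CUB

end QCV


end

section

/-!
# QCV, block D: statements (all cubic hypersurfaces), part 2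

See StD1.lean for the overview.
-/

set_option autoImplicit false

open CategoryTheory AlgebraicGeometry Polynomial

namespace QCV

open CUB

lemma lcub_eq {R : Type} [CommRing R] {a s : ℕ}
    (G : MvPolynomial (Fin (s + 1)) (MvPolynomial (Fin (a + 1)) R)) : lcub G = cub G := rfl

lemma lgram_eq {A : Type} [CommRing A] {n : ℕ} (f : MvPolynomial (Fin n) A) :
    lgram f = gram f := rfl

lemma lsp_eq {R : Type} [CommRing R] {n : ℕ} (c : R) : (lsp c : MvPolynomial (Fin (n + 1)) R →ₐ[R]
    MvPolynomial (Fin n) R) = sp c := rfl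

/-- **DRC** (a product of a polynomial of degree at most one and one of degree at most two).
Proof.  `P (ER ![l, q])` by `Asm.s_TWQ` (and `Asm.s_QUA`), `P (ER (fun _ : Fin 1 => l))`,
`P (ER (fun _ : Fin 1 => q))` by `Asm.s_QUA`.  Let `B = ER (fun _ => q)`, `U = Localization.Away l`
(of `B`): `P U` by `opn` (`B / l ≅ ER ![l, q]`, `DoubleQuot`).  `A = ER (fun _ => l * q)`:
`Strat l (A → ER (fun _ => l)) (A → U)`: in `A[1 / l]` the element `q` is zero (as in the last step of
`t_NOE`, R_NOE: the third case).  `glue`. -/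
def S_DRC : Prop :=
  ∀ (k : Type) [Field k]
    (P : ∀ (A : Type) [CommRing A] [Algebra k A] [Algebra.FiniteType k A], Prop) (d : ℕ),
    Cls k d P →
    ∀ (R : Type) [CommRing R] [Algebra k R] [Algebra.FiniteType k R] (n : ℕ)
      (l q : MvPolynomial (Fin n) R), DL k R d → l.totalDegree ≤ 1 → q.totalDegree ≤ 2 →
      P (ER (fun _ : Fin 1 => l * q))

/-- **DGM** (dimension).
Proof.  Let `p` be a prime of `A`, `P = p A[X]` (`CUB.pX`), `rdim k P = rdim k p + 1`
(`CUB.rdim_pX`), `X ∉ P`, so `P` is the preimage of a prime `P'` of `Localization.Away X`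
(`IsLocalization.Away`, `PrimeSpectrum.localization_away_comap_range`), and `rdim k P' = rdim k P`
(`CUB.rdim_comap_opn`, as in R_DLR (2)).  The values are natural numbers (`CUB.exists_rdim`). -/
def S_DGM : Prop :=
  ∀ (k A : Type) [Field k] [CommRing A] [Algebra k A] [Algebra.FiniteType k A] (d : ℕ),
    DL k (Localization.Away (X : A[X])) (d + 1) → DL k A d

/-- **DCN** (affine cones of dimension at most `d + 1`).
Proof.  Induction on `n`.  `n = 0`: `ER f` is a quotient of `MvPolynomial (Fin 0) R ≅ R`, so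
`DL k (ER f) d` (`Asm.s_DLR` (1)), `base`.  `n + 1`: `S_HDE` (→).  `ER (sp 0 ∘ f)` is a quotient of
`ER f` (`S_HCH`: `z`), so `DL _ (d + 1)`, and `sp 0 (f j)` is homogeneous (the images of the variables
are homogeneous of degree one): `P` by induction.  `Localization.Away (X : (ER (sp 1 ∘ f))[X])` is a
localisation of `ER f` away from one element (`S_HCH`: `u`), so `DL _ (d + 1)` (`Asm.s_DLR` (2)), so
`DL k (ER (sp 1 ∘ f)) d` (`S_DGM`), `base`. -/
def S_DCN : Prop :=
  ∀ (k : Type) [Field k]
    (P : ∀ (A : Type) [CommRing A] [Algebra k A] [Algebra.FiniteType k A], Prop) (d : ℕ),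
    Cls k d P → GmCl k P →
    ∀ (R ι : Type) [CommRing R] [Algebra k R] [Algebra.FiniteType k R] (n : ℕ)
      (f : ι → MvPolynomial (Fin n) R) (m : ι → ℕ), (∀ j, (f j).IsHomogeneous (m j)) →
      DL k R d → DL k (ER f) (d + 1) → P (ER f)

def M_DCN : Prop := S_HCH → S_HDE → S_DGM → S_DCN

/-- **DCP** (the dimension of the intersection of two hypersurfaces without common component).
Proof.  Let `p` be a prime of `ER ![Q, H]`, `p'` its preimage in `K[x_1, ..., x_n]` (same dimension,
`CUB.rdim_comap`).  `Q ≠ 0` is a product of irreducibles (UFD) and a unit and `Q ∈ p'`, so an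
irreducible factor `π` of `Q` is in `p'`; `π` does not divide `H` (else `π` is a unit), `H ∈ p'`, so
`⊥ < (π) < p'` are primes and `rdim p' + 2 ≤ rdim ⊥ ≤ n` (`CUB.rdim_add_one_le`, `Asm.s_DLM` with
`DL k K 0`). -/
def S_DCP : Prop :=
  ∀ (k K : Type) [Field k] [Field K] [Algebra k K] [Algebra.FiniteType k K] (n d : ℕ)
    (Q H : MvPolynomial (Fin n) K), DL k K 0 → n ≤ d + 2 → Q ≠ 0 →
    (∀ g, g ∣ Q → g ∣ H → IsUnit g) → DL k (ER ![Q, H]) d

/-- **DSL** (a cubic form with a singular point).
Proof.  `Asm.s_LNR` for `S = MvPolynomial (Fin n) K`, `g = Q`, `h = H`, `U = Localization.Away Q`.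
`P S` (`Asm.s_PLY` (1), `base`), `P (S / Q)` (`Asm.s_QUA`), so `P U` by `opn`.  `S / (Q, H) ≅
ER ![Q, H]`, `P` by `S_DCN` (`m = ![2, 3]`) and `S_DCP` (`n ≤ (d + 1) + 2`), `line`; `glue`. -/
def S_DSL : Prop :=
  ∀ (k : Type) [Field k]
    (P : ∀ (A : Type) [CommRing A] [Algebra k A] [Algebra.FiniteType k A], Prop) (d : ℕ),
    Cls k d P → GmCl k P →
    ∀ (K : Type) [Field K] [Algebra k K] [Algebra.FiniteType k K] (n : ℕ)
      (Q H : MvPolynomial (Fin n) K), DL k K 0 → n ≤ d + 3 → Q.IsHomogeneous 2 →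
      H.IsHomogeneous 3 → Q ≠ 0 → (∀ g, g ∣ Q → g ∣ H → IsUnit g) →
      P ((MvPolynomial (Fin n) K)[X] ⧸ Ideal.span {C Q * X + C H})

def M_DSL : Prop := S_DCN → S_DCP → S_DSL

/-- **DRK**: the rank is odd if the discriminant is not zero.
Proof.  `φ = (sp 1).toRingHom`.  `gram (map φ G) = (gram G).map φ` (compute with `pderiv_map`, see
O_QNO), `det` of it is `φ (det (gram G))` (`RingHom.map_det`), and `det (gram G)` is homogeneous of
degree five (`S_DEX`, `Matrix.det_fin_three`), so it is not zero by `S_DHM`.  A prime `p` of `K` is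
`⊥`, `genHom a p` is injective (`MvPolynomial.map_injective`, `FractionRing`; `K → K / ⊥` is
injective), so the determinant over the fraction field is not zero and the rank is three
(`Matrix.rank_of_isUnit`). -/
def S_DRK : Prop :=
  ∀ (k K : Type) [Field k] [Field K] [Algebra k K] (a : ℕ)
    (G : MvPolynomial (Fin (2 + 1)) (MvPolynomial (Fin (a + 1)) K)), G.IsHomogeneous 2 →
    (∀ μ, (MvPolynomial.coeff μ G).IsHomogeneous (1 + μ 0)) → (gram G).det ≠ 0 →
    OddOne k 0 (MvPolynomial.map (sp (1 : K)).toRingHom G)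

def M_DRK : Prop := S_DEX → S_DHM → S_DRK

/-- **DSI** (a cubic form with a singular point which is not a cone with this vertex).
Proof.  `ER F ≃ K[x][X] / (C Q * X + C H)` (`Ideal.quotientEquiv`, restricted to `k`).  `S_DFC` for `F`
(`F ≠ 0` as `Q ≠ 0`).  If `F` is irreducible then `Q` and `H` have no common factor: if `g ∣ Q`, `g ∣ H`
then `C g` divides the irreducible element `e F`, so `C g` is a unit (so `g` is), or
`C Q * X + C H = C g * u` with a unit `u` of `K[x][X]`, which is a constant (`K[x]` is a domain), so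
`Q = 0`.  `S_DSL`.  If `F = l q`: `S_DRC` (`DL k K 0`, so `DL k K d`). -/
def S_DSI : Prop :=
  ∀ (k : Type) [Field k]
    (P : ∀ (A : Type) [CommRing A] [Algebra k A] [Algebra.FiniteType k A], Prop) (d : ℕ),
    Cls k d P → GmCl k P →
    ∀ (K : Type) [Field K] [Algebra k K] [Algebra.FiniteType k K] (n : ℕ)
      (F : MvPolynomial (Fin (n + 1)) K) (Q H : MvPolynomial (Fin n) K)
      (e : MvPolynomial (Fin (n + 1)) K ≃ₐ[K] (MvPolynomial (Fin n) K)[X]), DL k K 0 →
      n ≤ d + 3 → F.IsHomogeneous 3 → Q.IsHomogeneous 2 → H.IsHomogeneous 3 → Q ≠ 0 →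
      e F = C Q * X + C H → P (ER (fun _ : Fin 1 => F))

def M_DSI : Prop := S_DSL → S_DRC → S_DFC → S_DSI

/-- **DCO** (cones, base change of a linear change of coordinates).
Proof.  `φ = e` followed by `(MvPolynomial.finSuccEquiv K n).symm` is an automorphism of
`MvPolynomial (Fin (n + 1)) K` with `φ F = rename succ H`.  For a `K`-algebra homomorphism `ψ` between
polynomial rings over `K` let `ψ' = aeval (fun i => map (ψ (X i)))` over `K'`; then
`ψ' (map G) = map (ψ G)` (check on variables), so `φ'` and `(φ⁻¹)'` are inverse to each other and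
`φ' (map F) = rename succ (map H)`.  So `ER (map F) ≃ K'[x][X] / (C (map H)) ≃ (ER (map H))[X]`
(`Ideal.polynomialQuotientEquivQuotientPolynomial`, `finSuccEquiv`), `hline`, `iso`. -/
def S_DCO : Prop :=
  ∀ (k : Type) [Field k]
    (P : ∀ (A : Type) [CommRing A] [Algebra k A] [Algebra.FiniteType k A], Prop),
    Cls0 k P → (∀ (A : Type) [CommRing A] [Algebra k A] [Algebra.FiniteType k A], P A → P A[X]) →
    ∀ (K K' : Type) [Field K] [Field K'] [Algebra K K'] [Algebra k K'] [Algebra.FiniteType k K']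
      (n : ℕ) (F : MvPolynomial (Fin (n + 1)) K) (H : MvPolynomial (Fin n) K)
      (e : MvPolynomial (Fin (n + 1)) K ≃ₐ[K] (MvPolynomial (Fin n) K)[X]), e F = C H →
      P (ER (fun _ : Fin 1 => MvPolynomial.map (algebraMap K K') H)) →
      P (ER (fun _ : Fin 1 => MvPolynomial.map (algebraMap K K') F))

/-- **DCX** (a cubic form over a finite extension).
Proof.  Induction on `n`, for all `K`.  `DL k K 0` (`K` is finite over `k`; `Asm.s_DLR` (3)).
(1) `n ≤ d + 2`: `K' = K`.  `F = 0`: `Asm.s_PLY` (2) after `base`.  `F ≠ 0`: `DL k (ER F) (d + 1)`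
(`Asm.s_DLM`, `Asm.s_DLR` (5)), `S_DCN`.
(2) `n = a + 3`, `a = d` or `a = d + 1` (so `4 ≤ n`).  `S_DLN`: `K₁`, made a `k`-algebra by composition
(`IsScalarTower.of_algebraMap_eq`), finite over `k`.  Let `F₁ = map F` over `K₁`; `HasLine F K₁` gives
`HasLine F₁ K₁`.  `S_DNR`: `e F₁ = cub G`, so `ER F₁ ≃ ER (cub G)`.
If `a = d`: `S_CUB` (`e = 0`, `s = 2 ≤ d + 1`, no condition on the rank), `K' = K₁`.
If `a = d + 1` and `(gram G).det ≠ 0`: `S_CUB` with `S_DRK`, `K' = K₁`.
If `a = d + 1` and `(gram G).det = 0`: `S_DDT` for `G`, `S_DSG` for `cub G` (number of variables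
`n' + 1`, `n' = d + 3`), so `e' F₁ = C Q * X + C H` for the composition `e'`.
If `Q ≠ 0`: `S_DSI`, `K' = K₁`.
If `Q = 0`: the induction hypothesis for `H` over `K₁` (`n' < n`): `K₂`, and `P (ER (map H))`; `S_DCO`;
`K' = K₂` with the composed `K`-algebra structure, `MvPolynomial.map_map`. -/
def S_DCX : Prop :=
  ∀ (k : Type) [Field k]
    (P : ∀ (A : Type) [CommRing A] [Algebra k A] [Algebra.FiniteType k A], Prop) (d : ℕ),
    (2 : k) ≠ 0 → Cls k d P → OddCl k P → GmCl k P → 1 ≤ d →
    ∀ (n : ℕ) (K : Type) [Field K] [Algebra k K] [Module.Finite k K]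
      (F : MvPolynomial (Fin n) K), n ≤ d + 4 → F.IsHomogeneous 3 →
      ∃ (K' : Type) (_ : Field K') (_ : Algebra k K') (_ : Algebra K K')
        (_ : IsScalarTower k K K') (_ : Module.Finite k K'),
        P (ER (fun _ : Fin 1 => MvPolynomial.map (algebraMap K K') F))

def M_DCX : Prop :=
  S_CUB → S_DCN → S_DSI → S_DCO → S_DLN → S_DNR → S_DSG → S_DDT → S_DRK → S_DCX

/-- **DFE** (finite etale homomorphisms).
Proof.  `g = spm` of the homomorphism (as in `dbl`, Defs.lean), finite as there, etale: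
`AlgebraicGeometry.Etale` of `Spec.map` (`HasRingHomProperty.Spec_iff` or `Etale.SpecMap_iff`,
`RingHom.Etale` and `Algebra.Etale`), surjective: an injective integral homomorphism is surjective on
spectra (`Algebra.IsIntegral.comap_surjective`/`RingHom.IsIntegral.comap_surjective`). -/
def S_DFE : Prop :=
  ∀ (k A B : Type) [Field k] [CommRing A] [Algebra k A] [Algebra.FiniteType k A] [CommRing B]
    [Algebra k B] [Algebra.FiniteType k B] [Algebra A B] [IsScalarTower k A B] [Module.Finite A B]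
    [Algebra.Etale A B], Function.Injective (algebraMap A B) →
    Nonempty (Pool.Agent.Lib_helper66.OneP.FinEt (aff k B) (aff k A))

/-- **DDS** (descent).
Proof.  `S_DBC`, `S_DFE`; `F` is irreducible, so prime (UFD), so `ER (fun _ => F)` is a domain and
`(aff k _).X` is integral; `Built.etale`. -/
def S_DDS : Prop :=
  ∀ (k K : Type) [Field k] [PerfectField k] [Field K] [Algebra k K] [Module.Finite k K] (d n : ℕ)
    (F : MvPolynomial (Fin n) k), Irreducible F →
    Built k d (aff k (ER (fun _ : Fin 1 => MvPolynomial.map (algebraMap k K) F))) →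
    Built k d (aff k (ER (fun _ : Fin 1 => F)))

def M_DDS : Prop := S_DFE → S_DBC → S_DDS

end QCV


end
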