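import Mathlib
import Pool.Agent.QVM.C10
import Pool.Agent.QVM.C32
import Pool.Agent.QVM.C43
import Pool.Agent.QVM.C45

/-! Parts: QCV.O_OGLU, QCV.O_OLFT, QCV.O_QNO, QCV.C_QOP, QCV.C_LN1, QCV.C_AFF, QCV.D_DSL -/

section

/-!
# QCV, block O: gluing of automorphisms which act trivially (OGLU)
-/

set_option autoImplicit false

open CategoryTheory AlgebraicGeometry Limits Polynomial

namespace QCV

namespace OGLU

open Pool.Agent.Lib_helper55.Beil Pool.Agent.Lib_helper66.OneP CUB

universe v

variable {k : Type} [Field k] {E : Type} [Field E] {T : ∀ i : ℕ, Homology.{v} k E i}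

/-! ## Homology -/

lemma two_mul_zero {M : Type v} [AddCommGroup M] [Module E M] [CharZero E] (x : M) (h : x = -x) :
    x = 0 := by
  have h1 : (2 : E) • x = 0 := by
    rw [two_smul]
    nth_rw 2 [h]
    exact add_neg_cancel x
  exact (smul_eq_zero.mp h1).resolve_left two_ne_zero

theorem hom [CharZero E] (hT : Full T) (i n : ℕ) {Z U X : Var k} (a : ClosedIn Z X)
    (j : OpenIn U X) (h : Complementary a j) (tX : ClosedIn X X) (tZ : ClosedIn Z Z)
    (tU : ClosedIn U U) (hX : tX.g ≫ tX.g = 𝟙 X.X) (hZ : a.g ≫ tX.g = tZ.g ≫ a.g)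
    (hU : IsPullback j.g tU.g tX.g j.g) (h1 : ∀ m : (T i).H n Z, (T i).P n tZ m = m)
    (h2 : ∀ m : (T i).H n U, (T i).P n tU m = m) (m : (T i).H n X) : (T i).P n tX m = m := by
  have e1 : (T i).R n j ((T i).P n tX m - m) = 0 := by
    have e2 : (T i).R n j ((T i).P n tX m - m) =
      (T i).R n j ((T i).P n tX m) - (T i).R n j m := map_sub ((T i).res n j) _ _
    rw [e2, res_push hT i n tX tU j j hU m, h2, sub_self]
  obtain ⟨w, hw⟩ := ((T i).exact_X n a j h _).mp e1
  have hw' : (T i).P n a w = (T i).P n tX m - m := hw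
  -- the class is invariant
  have e3 : (T i).P n tX ((T i).P n tX m - m) = (T i).P n tX m - m := by
    rw [← hw']
    have e4 := hT.push_comp i n _ _ _ a tX (a.trans tX) rfl w
    have e5 := hT.push_comp i n _ _ _ tZ a (a.trans tX) hZ.symm w
    rw [e4, ← e5, h1]
  -- and anti-invariant
  have e6 : (T i).P n tX ((T i).P n tX m - m) = -((T i).P n tX m - m) := by
    have e7 : (T i).P n tX ((T i).P n tX m - m) =
      (T i).P n tX ((T i).P n tX m) - (T i).P n tX m := map_sub ((T i).push n tX) _ _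
    have e8 := hT.push_comp i n _ _ _ tX tX (tX.trans tX) rfl m
    have e9 := hT.push_id i n X (tX.trans tX) hX m
    rw [e7, e8, e9, neg_sub]
  exact sub_eq_zero.mp (two_mul_zero (E := E) _ (e3.symm.trans e6))

/-! ## Cycles -/

variable {i : ℕ}

lemma pushCyc_sub {Z X : Var k} (a : ClosedIn Z X) (c d : Pts i Z →₀ E) :
    pushCyc a (c - d) = pushCyc a c - pushCyc a d :=
  (Finsupp.lmapDomain E E (ptsMap i a)).map_sub c d

lemma pushCyc_id {X : Var k} (a : ClosedIn X X) (h : a.g = 𝟙 X.X) (c : Pts i X →₀ E) :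
    pushCyc a c = c := by
  have h1 : ptsMap i a = id := by
    funext x
    refine Subtype.ext ?_
    change a.g x.1 = x.1
    rw [h]
    rfl
  rw [pushCyc, h1, Finsupp.mapDomain_id]

lemma resCyc_pushCyc' {U X : Var k} (j : OpenIn U X) (tX : ClosedIn X X) (tU : ClosedIn U U)
    (hU : j.g ≫ tX.g = tU.g ≫ j.g) (hs : Set.range tU.g = Set.univ) (c : Pts i X →₀ E) :
    resCyc j (pushCyc tX c) = pushCyc tU (resCyc j c) := by
  ext u
  obtain ⟨u', rfl⟩ := mem_range_ptsMap tU u (by rw [hs]; trivial)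
  rw [resCyc_apply]
  have h1 : ptsMapO i j (ptsMap i tU u') = ptsMap i tX (ptsMapO i j u') := by
    refine Subtype.ext ?_
    change j.g (tU.g u'.1) = tX.g (j.g u'.1)
    rw [← Scheme.Hom.comp_apply, ← Scheme.Hom.comp_apply, hU]
  rw [h1, pushCyc, Finsupp.mapDomain_apply (ptsMap_injective i tX), pushCyc,
    Finsupp.mapDomain_apply (ptsMap_injective i tU), resCyc_apply]

theorem cyc [CharZero E] {Z U X : Var k} (a : ClosedIn Z X)
    (j : OpenIn U X) (h : Complementary a j) (tX : ClosedIn X X) (tZ : ClosedIn Z Z)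
    (tU : ClosedIn U U) (hX : tX.g ≫ tX.g = 𝟙 X.X) (hZ : a.g ≫ tX.g = tZ.g ≫ a.g)
    (hU : j.g ≫ tX.g = tU.g ≫ j.g) (hs : Set.range tU.g = Set.univ)
    (h1 : ∀ c : Pts i Z →₀ E, c - pushCyc tZ c ∈ ratZero E i Z)
    (h2 : ∀ c : Pts i U →₀ E, c - pushCyc tU c ∈ ratZero E i U) (c : Pts i X →₀ E) :
    c - pushCyc tX c ∈ ratZero E i X := by
  have e1 : resCyc j (c - pushCyc tX c) ∈ ratZero E i U := by
    rw [map_sub, resCyc_pushCyc' j tX tU hU hs]
    exact h2 _
  obtain ⟨c', hc', e2⟩ := exists_ratZero j _ e1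
  obtain ⟨w, hw⟩ := exists_pushCyc a j h (c - pushCyc tX c - c') (by rw [map_sub, e2, sub_self])
  -- the difference is invariant modulo rational equivalence
  have e3 : pushCyc a w - pushCyc tX (pushCyc a w) ∈ ratZero E i X := by
    rw [pushCyc_comp a tX (a.trans tX) rfl w, ← pushCyc_comp tZ a (a.trans tX) hZ.symm w,
      ← pushCyc_sub]
    exact pushCyc_ratZero a _ (h1 w)
  have e4 : pushCyc tX c' ∈ ratZero E i X := pushCyc_ratZero tX c' hc'
  have e5 : pushCyc tX (pushCyc tX c) = c := by
    rw [pushCyc_comp tX tX (tX.trans tX) rfl c, pushCyc_id (tX.trans tX) hX]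
  rw [hw, pushCyc_sub, pushCyc_sub, e5] at e3
  have e6 : (2 : E) • (c - pushCyc tX c) ∈ ratZero E i X := by
    have e7 : (2 : E) • (c - pushCyc tX c) =
        (c - pushCyc tX c - c' - (pushCyc tX c - c - pushCyc tX c')) + (c' - pushCyc tX c') := by
      rw [two_smul]
      abel
    rw [e7]
    exact add_mem e3 (sub_mem hc' e4)
  have e8 := Submodule.smul_mem (ratZero E i X) (2 : E)⁻¹ e6
  rwa [smul_smul, inv_mul_cancel₀ two_ne_zero, one_smul] at e8

/-! ## Rings -/

lemma spm_comp' {A B C : Type} [CommRing A] [CommRing B] [CommRing C] [Algebra k A] [Algebra k B]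
    [Algebra k C] [Algebra.FiniteType k A] [Algebra.FiniteType k B] [Algebra.FiniteType k C]
    (φ : A →ₐ[k] B) (χ : B →ₐ[k] C) : spm χ ≫ spm φ = spm (χ.comp φ) :=
  (Spec.map_comp _ _).symm

lemma spm_id' {A : Type} [CommRing A] [Algebra k A] [Algebra.FiniteType k A] :
    spm (AlgHom.id k A) = 𝟙 (aff k A).X := Spec.map_id _

lemma isIso_autc {A : Type} [CommRing A] [Algebra k A] [Algebra.FiniteType k A] (t : A ≃ₐ[k] A) :
    IsIso (autc t).g := by
  have h1 : (autc t).g = (viso t).e.hom := rfl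
  rw [h1]
  infer_instance

lemma autc_autc {A : Type} [CommRing A] [Algebra k A] [Algebra.FiniteType k A] (t : A ≃ₐ[k] A)
    (h : ∀ x, t (t x) = x) : (autc t).g ≫ (autc t).g = 𝟙 (aff k A).X := by
  have h1 : ((t : A →ₐ[k] A).comp (t : A →ₐ[k] A)) = AlgHom.id k A := AlgHom.ext fun x => h x
  change spm (t : A →ₐ[k] A) ≫ spm (t : A →ₐ[k] A) = _
  rw [spm_comp', h1, spm_id']

lemma comm_autc {A B : Type} [CommRing A] [Algebra k A] [Algebra.FiniteType k A] [CommRing B]
    [Algebra k B] [Algebra.FiniteType k B] (t : A ≃ₐ[k] A) (t' : B ≃ₐ[k] B) (φ : A →ₐ[k] B)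
    (h : ∀ x, φ (t x) = t' (φ x)) : spm φ ≫ (autc t).g = (autc t').g ≫ spm φ := by
  have h1 : φ.comp (t : A →ₐ[k] A) = (t' : B →ₐ[k] B).comp φ := AlgHom.ext fun x => h x
  change spm φ ≫ spm (t : A →ₐ[k] A) = spm (t' : B →ₐ[k] B) ≫ spm φ
  rw [spm_comp', spm_comp', h1]

lemma range_autc {A : Type} [CommRing A] [Algebra k A] [Algebra.FiniteType k A] (t : A ≃ₐ[k] A) :
    Set.range (autc t).g = Set.univ := by
  have := isIso_autc t
  exact Set.range_eq_univ.mpr (autc t).g.surjective

end OGLU

open _root_.QCV.OGLU CUB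

universe v

/-- **OGLU**. -/
theorem t_OGLU : S_OGLU.{v} := by
  intro k E _ _ _ T hT A Z U _ _ _ _ _ _ _ _ _ a z u tA tZ tU s hA hz hu i rZ rU
  have hc := complementary_away u a s.away z s.surj s.ker
  have hi := isIso_autc tA
  have hi' := isIso_autc tU
  have c1 : (clo z s.surj).g ≫ (autc tA).g = (autc tZ).g ≫ (clo z s.surj).g :=
    comm_autc tA tZ z hz
  have c2 : (opn u (isOpenImmersion_spm u a s.away)).g ≫ (autc tA).g =
      (autc tU).g ≫ (opn u (isOpenImmersion_spm u a s.away)).g :=
    comm_autc tA tU u hu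
  have c3 := IsPullback.of_vert_isIso ⟨c2⟩
  exact ⟨fun n hn m => hom hT i n _ _ hc (autc tA) (autc tZ) (autc tU) (autc_autc tA hA) c1 c3
      (rZ.hom n hn) (rU.hom n hn) m,
    fun c => cyc _ _ hc (autc tA) (autc tZ) (autc tU) (autc_autc tA hA) c1 c2 (range_autc tU)
      rZ.cyc rU.cyc c⟩

end QCV


end

section

/-!
# QCV, block O: cycles rationally equivalent to zero lift to a double cover
-/

set_option autoImplicit false

open CategoryTheory AlgebraicGeometry Limits Polynomial TopologicalSpace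

namespace QCV

open Pool.Agent.Lib_helper55.Beil Pool.Agent.Lib_helper66.OneP CUB

universe v

namespace OLFT

variable {k : Type} [Field k] {E : Type} [Field E]

/-! ## The double cover is surjective -/

lemma algebraMap_dr_injective {A : Type} [CommRing A] (b c : A) :
    Function.Injective (algebraMap A (Dr A b c)) := by
  intro x y h
  nontriviality A
  have hdeg : (dpoly b c).natDegree = 2 := by
    unfold dpoly
    compute_degree!
  have hlt : ∀ z : A, (C z : A[X]).degree < (dpoly b c).degree := by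
    intro z
    refine lt_of_le_of_lt Polynomial.degree_C_le ?_
    rw [Polynomial.degree_eq_natDegree (dpoly_monic b c).ne_zero, hdeg]
    norm_num
  have h1 : AdjoinRoot.mk (dpoly b c) (C x) = AdjoinRoot.mk (dpoly b c) (C y) := h
  have h2 := congrArg (AdjoinRoot.modByMonicHom (dpoly_monic b c)) h1
  rw [AdjoinRoot.modByMonicHom_mk, AdjoinRoot.modByMonicHom_mk,
    (Polynomial.modByMonic_eq_self_iff (dpoly_monic b c)).mpr (hlt x),
    (Polynomial.modByMonic_eq_self_iff (dpoly_monic b c)).mpr (hlt y)] at h2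
  exact Polynomial.C_injective h2

lemma comap_drHom_surjective {A : Type} [CommRing A] [Algebra k A] (b c : A) :
    Function.Surjective (PrimeSpectrum.comap (drHom b c k).toRingHom) := by
  have h1 : FaithfulSMul A (Dr A b c) :=
    (faithfulSMul_iff_algebraMap_injective A (Dr A b c)).mpr (algebraMap_dr_injective b c)
  have h2 : Algebra.IsIntegral A (Dr A b c) := inferInstance
  exact Algebra.IsIntegral.comap_surjective A (Dr A b c)

lemma dbl_surjective {A : Type} [CommRing A] [Algebra k A] [Algebra.FiniteType k A] (b c : A) :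
    Function.Surjective (dbl b c k).g := by
  intro v
  obtain ⟨q, hq⟩ := comap_drHom_surjective (k := k) b c (ofPt v)
  exact ⟨toPt q, hq⟩

/-! ## The closure of a point -/

/-- The closure of a point as a closed set. -/
def clPt {X : Var k} (w : X.X) : Closeds X.X := ⟨closure {w}, isClosed_closure⟩

lemma isIntegral_clPt {X : Var k} (w : X.X) : IsIntegral (closedVar X (clPt w)).X :=
  REDI.isIntegral_closedVar X (clPt w) isIrreducible_singleton.closure

lemma genericPoint_clPt {X : Var k} (w : X.X) [IsIntegral (closedVar X (clPt w)).X] :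
    (closedVarIn X (clPt w)).g (genericPoint (closedVar X (clPt w)).X) = w := by
  have h1 := (genericPoint_spec (closedVar X (clPt w)).X).image
    (closedVarIn X (clPt w)).g.continuous
  rw [Set.image_univ] at h1
  have h2 : Set.range (closedVarIn X (clPt w)).g = closure {w} := range_closedVarIn X (clPt w)
  rw [h2, closure_closure] at h1
  exact h1.eq isGenericPoint_closure

/-! ## Factorisation through a closed subvariety -/

lemma exists_lift {Z X W : Var k} (a : ClosedIn Z X) [IsReduced W.X] (F : PrMor W X)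
    (h : ∀ w, F.g w ∈ Set.range a.g) : ∃ l : PrMor W Z, l.g ≫ a.g = F.g := by
  have h1 : a.g.ker ≤ Scheme.IdealSheafData.vanishingIdeal (ran a) := by
    rw [← Scheme.IdealSheafData.le_support_iff_le_vanishingIdeal]
    intro x hx
    have h3 : ((a.g.ker.support : Closeds X.X) : Set X.X) = closure (Set.range a.g) :=
      Scheme.Hom.support_ker _
    change x ∈ ((a.g.ker.support : Closeds X.X) : Set X.X)
    rw [h3]
    exact subset_closure hx
  have h2 : a.g.ker ≤ F.g.ker := h1.trans (vanishingIdeal_le_ker F.g _ h)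
  have h4 : IsClosedImmersion.lift a.g F.g h2 ≫ a.g = F.g := IsClosedImmersion.lift_fac _ _ _
  have h5 : IsProper (IsClosedImmersion.lift a.g F.g h2) := by
    have : IsProper (IsClosedImmersion.lift a.g F.g h2 ≫ a.g) := by
      rw [h4]
      infer_instance
    exact IsProper.of_comp (IsClosedImmersion.lift a.g F.g h2) a.g
  refine ⟨⟨IsClosedImmersion.lift a.g F.g h2, ?_, h5⟩, h4⟩
  rw [← a.comm, ← Category.assoc, h4, F.comm]

/-! ## The divisor of a power -/

lemma ord_pow_aux {X : Scheme.{0}} [IsIntegral X] [IsLocallyNoetherian X] (φ : X.functionField)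
    (hφ : φ ≠ 0) (n : ℕ) (x : X) : Scheme.ord (φ ^ n) x = (n : ℤ) * Scheme.ord φ x := by
  induction n with
  | zero =>
    have h1 := Scheme.ord_mul (f := (1 : X.functionField)) (g := 1) one_ne_zero one_ne_zero (x := x)
    rw [mul_one] at h1
    rw [pow_zero]
    push_cast
    have h2 : Scheme.ord (1 : X.functionField) x = 0 := by
      have h3 : Scheme.ord (1 : X.functionField) x =
        Scheme.ord (1 : X.functionField) x + Scheme.ord (1 : X.functionField) x := h1
      linarith
    rw [h2, zero_mul]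
  | succ n ih =>
    have h1 := Scheme.ord_mul (pow_ne_zero n hφ) hφ (x := x)
    rw [pow_succ]
    have h3 : Scheme.ord (φ ^ n * φ) x = Scheme.ord (φ ^ n) x + Scheme.ord φ x := h1
    rw [h3, ih]
    push_cast
    ring

lemma isDiv_pow {i : ℕ} {V X : Var k} [IsIntegral V.X] (a : ClosedIn V X)
    (φ : V.X.functionField) (hφ : φ ≠ 0) (n : ℕ) (d : Pts i X →₀ E) (hd : IsDiv a φ d) :
    IsDiv a (φ ^ n) ((n : E) • d) := by
  constructor
  · intro w h
    rw [Finsupp.smul_apply, hd.1 w h, ord_pow_aux φ hφ n w, smul_eq_mul]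
    push_cast
    rfl
  · intro x hx
    rw [Finsupp.smul_apply, hd.2 x hx, smul_zero]

/-! ## Finiteness of the extension of the function fields -/

open PUSHD in
lemma finite_fm {n : ℕ} {W V : Var k} (hW : IsIntegral W.X) (hV : IsIntegral V.X) (f : PrMor W V)
    (hfg : f.g (genericPoint W.X) = genericPoint V.X)
    (hdW : W.dim (genericPoint W.X) = (n + 1 : ℕ)) (hdV : V.dim (genericPoint V.X) = (n + 1 : ℕ))
    (y : Pts n V) :
    @Module.Finite V.X.functionField W.X.functionField _ _
      (fm f.g hfg).hom.toAlgebra.toModule := by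
  have hCHA := CUB.Asm2.s_CHA
  obtain ⟨B, D, iB, iD, aB, aD, fB, fD, ψ, j, j₁, hcomm, hfin, hinj, hv, hpre⟩ :=
    CUB.Asm2.s_FOV k n W V hW hV f y.1 hdW hdV hfg y.2
  obtain ⟨b₀, hb₀⟩ := hv
  have dB : IsDomain B := hCHA.2.1 k B V hV j b₀
  have hgV : genericPoint V.X ∈ Set.range j.g := by
    have h1 : genericPoint V.X ⤳ j.g b₀ := genericPoint_specializes _
    exact h1.mem_open j.g.isOpenEmbedding.isOpen_range ⟨b₀, rfl⟩
  obtain ⟨d₀, hd₀⟩ := hpre (genericPoint W.X) (by rw [hfg]; exact hgV)
  have dD : IsDomain D := hCHA.2.1 k D W hW j₁ d₀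
  have hc0 : ∀ b, (fm f.g hfg).hom (be j b) = be j₁ (ψ b) := fm_be f.g hfg ψ j j₁ hcomm
  exact fin_alg (be j) (be j₁) (fm f.g hfg).hom ψ (be_inj j) (be_inj j₁) (be_frac j) (be_frac j₁)
    hc0 hfin

/-! ## A generator -/

lemma lift_gen (hOPDN : S_OPDN) [CharZero E] {A : Type} [CommRing A] [Algebra k A]
    [Algebra.FiniteType k A] (b c : A) (i : ℕ) (V : Var k) (hV : IsIntegral V.X)
    (a : ClosedIn V (aff k A)) (φ : V.X.functionField)
    (hdV : V.dim (genericPoint V.X) = (i + 1 : ℕ)) (hφ : φ ≠ 0)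
    (z : Pts i (aff k A) →₀ E) (hz : IsDiv a φ z) :
    ∃ c' ∈ ratZero E i (aff k (Dr A b c)), pfc E i (dbl b c k) c' = z := by
  obtain ⟨d, hd⟩ := exists_div (E := E) (i := i) (idIn V) φ hφ
  have hzd : z = pushCyc a d := isDiv_unique a φ z _ hz (PUSHG.isDiv_pushCyc a φ d hd)
  by_cases hd0 : d = 0
  · refine ⟨0, zero_mem _, ?_⟩
    rw [map_zero, hzd, hd0]
    exact (Finsupp.mapDomain_zero).symm
  obtain ⟨y, hy⟩ := Finsupp.ne_iff.mp hd0
  -- the subvariety of the double cover
  obtain ⟨w₀, hw₀⟩ := dbl_surjective (k := k) b c (a.g (genericPoint V.X))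
  have hW : IsIntegral (closedVar (aff k (Dr A b c)) (clPt w₀)).X := isIntegral_clPt w₀
  set W : Var k := closedVar (aff k (Dr A b c)) (clPt w₀) with hWdef
  set β : ClosedIn W (aff k (Dr A b c)) := closedVarIn (aff k (Dr A b c)) (clPt w₀) with hβdef
  have hβ : β.g (genericPoint W.X) = w₀ := genericPoint_clPt w₀
  let F : PrMor W (aff k A) := (clPr β).trans (dbl b c k)
  have hFg : F.g = β.g ≫ (dbl b c k).g := rfl
  have hFgen : F.g (genericPoint W.X) = a.g (genericPoint V.X) := by
    rw [hFg, Scheme.Hom.comp_apply, hβ, hw₀]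
  have hran : ∀ w, F.g w ∈ Set.range a.g := by
    intro w
    have h1 : genericPoint W.X ⤳ w := genericPoint_specializes _
    have h2 : F.g (genericPoint W.X) ⤳ F.g w := h1.map F.g.continuous
    have h3 : IsClosed (Set.range a.g) := a.g.isClosedEmbedding.isClosed_range
    exact h2.mem_closed h3 (by rw [hFgen]; exact ⟨_, rfl⟩)
  obtain ⟨f, hf⟩ := exists_lift a F hran
  have hfg : f.g (genericPoint W.X) = genericPoint V.X := by
    apply closedIn_injective a
    rw [← Scheme.Hom.comp_apply, hf, hFgen]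
  have hdW : W.dim (genericPoint W.X) = (i + 1 : ℕ) := by
    rw [← dim_map β.g β.comm, hβ, ← dim_dbl b c w₀, hw₀, dim_map a.g a.comm, hdV]
  -- the function
  have hfin := finite_fm hW hV f hfg hdW hdV y
  let ι : V.X.functionField →+* W.X.functionField := (PUSHD.fm f.g hfg).hom
  let aι : Algebra V.X.functionField W.X.functionField := ι.toAlgebra
  have hfin' : Module.Finite V.X.functionField W.X.functionField := hfin
  have hφ' : ι φ ≠ 0 := (map_ne_zero_iff ι ι.injective).mpr hφ
  obtain ⟨e, he⟩ := exists_div (E := E) (i := i) (idIn W) (ι φ) hφ'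
  let δ : ℕ := Module.finrank V.X.functionField W.X.functionField
  have hδ : 0 < δ := Module.finrank_pos
  have hnorm : Algebra.norm V.X.functionField (ι φ) = φ ^ δ := Algebra.norm_algebraMap φ
  have hdn : IsDiv (idIn V) (Algebra.norm V.X.functionField (ι φ)) ((δ : E) • d) := by
    rw [hnorm]
    exact isDiv_pow (idIn V) φ hφ δ d hd
  have hpd : pfc E i f e = (δ : E) • d :=
    hOPDN k E i W V hW hV f hfg (ι φ) e ((δ : E) • d) hdW hdV hφ' he hdn
  -- the cycle
  have hδE : (δ : E) ≠ 0 := Nat.cast_ne_zero.mpr hδ.ne'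
  refine ⟨(δ : E)⁻¹ • pushCyc β e, Submodule.smul_mem _ _ (Submodule.subset_span
    ⟨W, hW, β, ι φ, hdW, hφ', PUSHG.isDiv_pushCyc β (ι φ) e he⟩), ?_⟩
  obtain ⟨-, hfun, hcl, -, -, -⟩ := CUB.Asm2.s_PFC.{0}
  have h1 : pfc E i (dbl b c k) (pushCyc β e) = (δ : E) • z := by
    rw [← hcl k E i W _ β (clPr β) rfl e, hfun k E i W _ _ (clPr β) (dbl b c k) F rfl e,
      ← hfun k E i W V _ f (clPr a) F hf e, hpd, hcl k E i V _ a (clPr a) rfl, hzd]
    exact Finsupp.mapDomain_smul _ _
  rw [map_smul, h1, smul_smul, inv_mul_cancel₀ hδE, one_smul]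

end OLFT

open _root_.QCV.OLFT in
theorem t_OLFT : M_OLFT := by
  intro hOPDN k E _ _ _ A _ _ _ b c i z hz
  induction hz using Submodule.span_induction with
  | mem z hz =>
    obtain ⟨V, hV, a, φ, h1, h2, h3⟩ := hz
    exact lift_gen hOPDN b c i V hV a φ h1 h2 z h3
  | zero => exact ⟨0, zero_mem _, map_zero _⟩
  | add x y _ _ hx hy =>
    obtain ⟨x', hx', rfl⟩ := hx
    obtain ⟨y', hy', rfl⟩ := hy
    exact ⟨x' + y', add_mem hx' hy', map_add _ _ _⟩
  | smul r x _ hx =>
    obtain ⟨x', hx', rfl⟩ := hx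
    exact ⟨r • x', Submodule.smul_mem _ _ hx', map_smul _ _ _⟩

end QCV


end

section

/-!
# QCV, block O: noetherian induction for a linear system of quadratic forms of odd rank
-/

set_option autoImplicit false

open Polynomial

namespace QCV

open CUB

namespace QNO

attribute [local instance] MvPolynomial.algebraMvPolynomial in
lemma away_mv {A U : Type} [CommRing A] [CommRing U] (q : ℕ) (a : A) (ψ : A →+* U)
    (h : @IsLocalization.Away A _ a U _ ψ.toAlgebra) :
    @IsLocalization.Away (MvPolynomial (Fin q) A) _ (MvPolynomial.C a) (MvPolynomial (Fin q) U) _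
      (MvPolynomial.map ψ).toAlgebra := by
  let _i1 := ψ.toAlgebra
  have h' : IsLocalization.Away a U := h
  have hloc : IsLocalization ((Submonoid.powers a).map (MvPolynomial.C (σ := Fin q)))
      (MvPolynomial (Fin q) U) := MvPolynomial.isLocalization _ _
  have h1 : (Submonoid.powers a).map (MvPolynomial.C (σ := Fin q)) =
      Submonoid.powers (MvPolynomial.C a) := Submonoid.map_powers _ _
  rw [h1] at hloc
  have h2 : (MvPolynomial.map ψ : MvPolynomial (Fin q) A →+* MvPolynomial (Fin q) U).toAlgebra =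
      (inferInstance : Algebra (MvPolynomial (Fin q) A) (MvPolynomial (Fin q) U)) := by
    apply Algebra.algebra_ext
    intro r
    rfl
  rw [h2]
  exact hloc

/-- The strata of polynomial rings. -/
lemma strat_mv {k A Z U : Type} [Field k] [CommRing A] [CommRing Z] [CommRing U] [Algebra k A]
    [Algebra k Z] [Algebra k U] (q : ℕ) {a : A} {z : A →ₐ[k] Z} {u : A →ₐ[k] U}
    (h : Strat a z u) :
    Strat (MvPolynomial.C a : MvPolynomial (Fin q) A) (FAM.mpa q z) (FAM.mpa q u) := by
  refine ⟨?_, ?_, ?_⟩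
  · exact MvPolynomial.map_surjective z.toRingHom h.surj
  · change RingHom.ker (MvPolynomial.map (σ := Fin q) z.toRingHom) = _
    rw [MvPolynomial.ker_map, h.ker, Ideal.map_span, Set.image_singleton]
  · exact away_mv q a u.toRingHom h.away

lemma gen_map {R S : Type} [CommRing R] [CommRing S] {n q : ℕ} (ψ : R →+* S)
    (f : Fin (q + 1) → MvPolynomial (Fin n) R) :
    gen (mf ψ f) = MvPolynomial.map (MvPolynomial.map ψ) (gen f) := by
  have hC : ∀ p : MvPolynomial (Fin n) R, MvPolynomial.map (MvPolynomial.C (σ := Fin q))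
      (MvPolynomial.map ψ p) =
      MvPolynomial.map (MvPolynomial.map ψ) (MvPolynomial.map (MvPolynomial.C (σ := Fin q)) p) := by
    intro p
    rw [MvPolynomial.map_map, MvPolynomial.map_map]
    have h1 : (MvPolynomial.C (σ := Fin q)).comp ψ =
        (MvPolynomial.map ψ).comp (MvPolynomial.C (σ := Fin q)) := by
      ext r : 1
      exact (MvPolynomial.map_C ψ r).symm
    rw [h1]
  unfold gen
  rw [map_add, map_sum, hC]
  congr 1
  refine Finset.sum_congr rfl fun j _ => ?_
  rw [map_mul, MvPolynomial.map_C, MvPolynomial.map_X, hC]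

lemma gram_map {A B : Type} [CommRing A] [CommRing B] {n : ℕ} (ψ : A →+* B)
    (f : MvPolynomial (Fin n) A) : gram (MvPolynomial.map ψ f) = (gram f).map ψ := by
  ext i j
  rw [Matrix.map_apply]
  change MvPolynomial.coeff 0 _ = ψ (MvPolynomial.coeff 0 _)
  rw [MvPolynomial.pderiv_map, MvPolynomial.pderiv_map, MvPolynomial.coeff_map]

lemma gen_homog {R : Type} [CommRing R] {n q : ℕ} (f : Fin (q + 1) → MvPolynomial (Fin n) R)
    (h : ∀ j, (f j).IsHomogeneous 2) : (gen f).IsHomogeneous 2 := by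
  unfold gen
  refine MvPolynomial.IsHomogeneous.add ((h 0).map _) ?_
  refine MvPolynomial.IsHomogeneous.sum _ _ _ fun j _ => ?_
  exact ((h j.succ).map _).C_mul _

lemma DL_mono {k A : Type} [Field k] [CommRing A] [Algebra k A] {d d' : ℕ} (h : d ≤ d')
    (hA : DL k A d) : DL k A d' := fun p => (hA p).trans (by exact_mod_cast h)

end QNO

open _root_.QCV.QNO in
theorem t_QNO : M_QNO := by
  intro hQOD hQSW k _ P d h2 hP hodd R _ _ _ n q e f hed hqe hR hf hgen
  have hmf : ∀ (S S' : Type) [CommRing S] [Algebra k S] [CommRing S'] [Algebra k S']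
      (ψ : R →ₐ[k] S) (φ : S →ₐ[k] S'),
      (fun _ : Fin 1 => gen (mf (φ.comp ψ).toRingHom f)) =
        mf (FAM.mpa q φ).toRingHom (fun _ : Fin 1 => gen (mf ψ.toRingHom f)) := by
    intro S S' _ _ _ _ ψ φ
    funext j
    have h1 : mf (φ.comp ψ).toRingHom f = mf φ.toRingHom (mf ψ.toRingHom f) := by
      funext j
      exact (MvPolynomial.map_map _ _ _).symm
    rw [h1, gen_map]
    rfl
  have h1 : Cls1 k R (fun S _ _ _ ψ => P (ER (fun _ : Fin 1 => gen (mf ψ.toRingHom f)))) := by
    constructor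
    · intro S S' _ _ _ _ _ _ e ψ hS
      have hb : Function.Bijective (FAM.mpa q e.toAlgHom) :=
        ⟨MvPolynomial.map_injective _ e.injective, MvPolynomial.map_surjective _ e.surjective⟩
      obtain ⟨e'⟩ := Asm.s_FAM.2 k _ _ (Fin 1) n (AlgEquiv.ofBijective _ hb)
        (fun _ : Fin 1 => gen (mf ψ.toRingHom f))
      have := hP.iso e' hS
      have h3 : mf ((AlgEquiv.ofBijective _ hb).toAlgHom).toRingHom
          (fun _ : Fin 1 => gen (mf ψ.toRingHom f)) =
          fun _ : Fin 1 => gen (mf (e.toAlgHom.comp ψ).toRingHom f) := by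
        rw [hmf]
        rfl
      rw [h3] at this
      exact this
    · intro S _ _ _ ψ hS
      apply hP.triv
      have h3 : Subsingleton (MvPolynomial (Fin q) S) := Module.subsingleton S _
      have h4 : Subsingleton (MvPolynomial (Fin n) (MvPolynomial (Fin q) S)) :=
        Module.subsingleton (MvPolynomial (Fin q) S) _
      exact Function.Surjective.subsingleton (Ideal.Quotient.mk_surjective
        (I := Ideal.span (Set.range (fun _ : Fin 1 => gen (mf ψ.toRingHom f)))))
    · intro A Z U _ _ _ _ _ _ _ _ _ a z u ψ hs hZ hU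
      obtain ⟨z', u', hs'⟩ := Asm.s_FAM.1 k _ _ _ (Fin 1) n _ _ _
        (fun _ : Fin 1 => gen (mf ψ.toRingHom f)) (strat_mv q hs)
      refine hP.glue _ z' u' hs' ?_ ?_
      · rw [← hmf]
        exact hZ
      · rw [← hmf]
        exact hU
    · intro A Z U _ _ _ _ _ _ _ _ _ a z u ψ hs hA hZ
      obtain ⟨z', u', hs'⟩ := Asm.s_FAM.1 k _ _ _ (Fin 1) n _ _ _
        (fun _ : Fin 1 => gen (mf ψ.toRingHom f)) (strat_mv q hs)
      have := hP.opn _ z' u' hs' hA (by rw [← hmf]; exact hZ)
      rw [← hmf] at this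
      exact this
  -- the residue rings of the primes
  have hdom : ∀ p : PrimeSpectrum R, P (ER (fun _ : Fin 1 =>
      gen (mf (Ideal.Quotient.mkₐ k p.asIdeal).toRingHom f))) := by
    intro p
    have hD : DL k (R ⧸ p.asIdeal) e :=
      Asm.s_DLR.1 k R _ e (Ideal.Quotient.mkₐ k p.asIdeal) (Ideal.Quotient.mkₐ_surjective k _) hR
    have hh : (gen (mf (Ideal.Quotient.mkₐ k p.asIdeal).toRingHom f)).IsHomogeneous 2 :=
      gen_homog _ fun j => (hf j).map _
    by_cases hp : (e : Cardinal) ≤ rdim k p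
    · have hB : DL k (MvPolynomial (Fin q) (R ⧸ p.asIdeal)) (d + 1) :=
        DL_mono (by omega) (Asm.s_DLM k _ e q hD)
      refine hQOD k P d h2 hP hodd (MvPolynomial (Fin q) (R ⧸ p.asIdeal)) n _ hB ?_ hh ?_
      · exact (Asm.s_PLY k P hP.toCls0 hP.line _ q).1 (hP.base _ (DL_mono hed hD))
      · have h3 := hgen p hp
        have h4 : (gram (gen (mf (Ideal.Quotient.mkₐ k p.asIdeal).toRingHom f))).map
            (algebraMap (MvPolynomial (Fin q) (R ⧸ p.asIdeal)) (FractionRing _)) =
            (gram (gen f)).map (genHom q p) := by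
          rw [gen_map, gram_map, Matrix.map_map]
          rfl
        rw [h4]
        exact h3
    · obtain ⟨e', rfl⟩ : ∃ e', e = e' + 1 := by
        refine ⟨e - 1, ?_⟩
        have : e ≠ 0 := by
          rintro rfl
          exact hp (by simp)
        omega
      have hD' : DL k (R ⧸ p.asIdeal) e' := by
        intro P'
        have h3 := rdim_comap (Ideal.Quotient.mkₐ k p.asIdeal)
          (Ideal.Quotient.mkₐ_surjective k _) P'
        rw [← h3]
        have h4 : p ≤ PrimeSpectrum.comap (Ideal.Quotient.mkₐ k p.asIdeal).toRingHom P' := by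
          intro x hx
          change Ideal.Quotient.mk p.asIdeal x ∈ P'.asIdeal
          rw [Ideal.Quotient.eq_zero_iff_mem.2 hx]
          exact zero_mem _
        refine (rdim_le h4).trans ?_
        rw [not_le] at hp
        obtain ⟨m, hm⟩ := Cardinal.lt_aleph0.1 (hp.trans (Cardinal.natCast_lt_aleph0))
        rw [hm] at hp ⊢
        have h5 : m < e' + 1 := by exact_mod_cast hp
        exact_mod_cast Nat.lt_succ_iff.1 h5
      have hB : DL k (MvPolynomial (Fin q) (R ⧸ p.asIdeal)) d :=
        DL_mono (by omega) (Asm.s_DLM k _ e' q hD')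
      exact Asm.s_QUA k P d hP n _ _ hB fun _ => hh.totalDegree_le
  have h3 := Asm.s_NOE k R _ h1 (by
    intro D _ _ _ _ ψ hψ
    have hprime : (RingHom.ker ψ.toRingHom).IsPrime := RingHom.ker_isPrime _
    refine ⟨1, one_ne_zero, ?_⟩
    have hbij : Function.Bijective (awayHom k (1 : D)) := by
      have := isLocalization_awayHom (k := k) (1 : D)
      exact (IsLocalization.atUnit D (Localization.Away (1 : D)) (1 : D) isUnit_one).bijective
    let e1 : (R ⧸ RingHom.ker ψ.toRingHom) ≃ₐ[k] D :=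
      Ideal.quotientKerAlgEquivOfSurjective hψ
    let e2 : (R ⧸ RingHom.ker ψ.toRingHom) ≃ₐ[k] Localization.Away (1 : D) :=
      e1.trans (AlgEquiv.ofBijective _ hbij)
    have h4 := h1.iso e2 _ (hdom ⟨RingHom.ker ψ.toRingHom, hprime⟩)
    have h5 : e2.toAlgHom.comp (Ideal.Quotient.mkₐ k (RingHom.ker ψ.toRingHom)) =
        (awayHom k (1 : D)).comp ψ := by
      apply AlgHom.ext
      intro x
      rfl
    have h6 := h5 ▸ h4
    exact h6)
  have h4 : mf (AlgHom.id k R).toRingHom f = f := by
    funext j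
    exact MvPolynomial.map_id _
  have h5 : P (ER (fun _ : Fin 1 => gen f)) := by
    have h6 : P (ER (fun _ : Fin 1 => gen (mf (AlgHom.id k R).toRingHom f))) := h3
    rw [h4] at h6
    exact h6
  obtain ⟨e'⟩ := hQSW k R n q f
  exact hP.iso e'.symm h5

end QCV


end

section

/-!
# QCV, block C: one quadratic form of odd generic rank over a polynomial ring
-/

set_option autoImplicit false

open Polynomial

namespace QCV

open CUB

namespace QOP

lemma mpa_comp {k R S S' : Type} [Field k] [CommRing R] [Algebra k R] [CommRing S] [Algebra k S]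
    [CommRing S'] [Algebra k S'] {n : ℕ} (a : ℕ) (ψ : R →ₐ[k] S) (φ : S →ₐ[k] S')
    (f : MvPolynomial (Fin n) (MvPolynomial (Fin a) R)) :
    MvPolynomial.map (FAM.mpa a (φ.comp ψ)).toRingHom f =
      MvPolynomial.map (FAM.mpa a φ).toRingHom (MvPolynomial.map (FAM.mpa a ψ).toRingHom f) := by
  have h : (FAM.mpa a (φ.comp ψ)).toRingHom =
      (FAM.mpa a φ).toRingHom.comp (FAM.mpa a ψ).toRingHom :=
    RingHom.ext fun x => (MvPolynomial.map_map ψ.toRingHom φ.toRingHom x).symm
  rw [h, MvPolynomial.map_map]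

end QOP

open QNO _root_.QCV.QOP in
theorem t_QOP : M_QOP := by
  intro hQOD k _ P d h2 hP hodd R _ _ _ n q e f hed hqe hR hf hgen
  have hmf : ∀ (S S' : Type) [CommRing S] [Algebra k S] [CommRing S'] [Algebra k S']
      (ψ : R →ₐ[k] S) (φ : S →ₐ[k] S'),
      (fun _ : Fin 1 => MvPolynomial.map (FAM.mpa q (φ.comp ψ)).toRingHom f) =
        mf (FAM.mpa q φ).toRingHom
          (fun _ : Fin 1 => MvPolynomial.map (FAM.mpa q ψ).toRingHom f) := by
    intro S S' _ _ _ _ ψ φ
    funext j
    exact mpa_comp q ψ φ f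
  have h1 : Cls1 k R (fun S _ _ _ ψ =>
      P (ER (fun _ : Fin 1 => MvPolynomial.map (FAM.mpa q ψ).toRingHom f))) := by
    constructor
    · intro S S' _ _ _ _ _ _ e ψ hS
      have hb : Function.Bijective (FAM.mpa q e.toAlgHom) :=
        ⟨MvPolynomial.map_injective _ e.injective, MvPolynomial.map_surjective _ e.surjective⟩
      obtain ⟨e'⟩ := Asm.s_FAM.2 k _ _ (Fin 1) n (AlgEquiv.ofBijective _ hb)
        (fun _ : Fin 1 => MvPolynomial.map (FAM.mpa q ψ).toRingHom f)
      have := hP.iso e' hS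
      have h3 : mf ((AlgEquiv.ofBijective _ hb).toAlgHom).toRingHom
          (fun _ : Fin 1 => MvPolynomial.map (FAM.mpa q ψ).toRingHom f) =
          fun _ : Fin 1 => MvPolynomial.map (FAM.mpa q (e.toAlgHom.comp ψ)).toRingHom f := by
        rw [hmf]
        rfl
      rw [h3] at this
      exact this
    · intro S _ _ _ ψ hS
      apply hP.triv
      have h3 : Subsingleton (MvPolynomial (Fin q) S) := Module.subsingleton S _
      have h4 : Subsingleton (MvPolynomial (Fin n) (MvPolynomial (Fin q) S)) :=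
        Module.subsingleton (MvPolynomial (Fin q) S) _
      exact Function.Surjective.subsingleton (Ideal.Quotient.mk_surjective
        (I := Ideal.span (Set.range
          (fun _ : Fin 1 => MvPolynomial.map (FAM.mpa q ψ).toRingHom f))))
    · intro A Z U _ _ _ _ _ _ _ _ _ a z u ψ hs hZ hU
      obtain ⟨z', u', hs'⟩ := Asm.s_FAM.1 k _ _ _ (Fin 1) n _ _ _
        (fun _ : Fin 1 => MvPolynomial.map (FAM.mpa q ψ).toRingHom f) (strat_mv q hs)
      refine hP.glue _ z' u' hs' ?_ ?_
      · rw [← hmf]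
        exact hZ
      · rw [← hmf]
        exact hU
    · intro A Z U _ _ _ _ _ _ _ _ _ a z u ψ hs hA hZ
      obtain ⟨z', u', hs'⟩ := Asm.s_FAM.1 k _ _ _ (Fin 1) n _ _ _
        (fun _ : Fin 1 => MvPolynomial.map (FAM.mpa q ψ).toRingHom f) (strat_mv q hs)
      have := hP.opn _ z' u' hs' hA (by rw [← hmf]; exact hZ)
      rw [← hmf] at this
      exact this
  -- the residue rings of the primes
  have hdom : ∀ p : PrimeSpectrum R, P (ER (fun _ : Fin 1 =>
      MvPolynomial.map (FAM.mpa q (Ideal.Quotient.mkₐ k p.asIdeal)).toRingHom f)) := by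
    intro p
    have hD : DL k (R ⧸ p.asIdeal) e :=
      Asm.s_DLR.1 k R _ e (Ideal.Quotient.mkₐ k p.asIdeal) (Ideal.Quotient.mkₐ_surjective k _) hR
    have hh : (MvPolynomial.map
        (FAM.mpa q (Ideal.Quotient.mkₐ k p.asIdeal)).toRingHom f).IsHomogeneous 2 := hf.map _
    by_cases hp : (e : Cardinal) ≤ rdim k p
    · have hB : DL k (MvPolynomial (Fin q) (R ⧸ p.asIdeal)) (d + 1) :=
        DL_mono (by omega) (Asm.s_DLM k _ e q hD)
      refine hQOD k P d h2 hP hodd (MvPolynomial (Fin q) (R ⧸ p.asIdeal)) n _ hB ?_ hh ?_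
      · exact (Asm.s_PLY k P hP.toCls0 hP.line _ q).1 (hP.base _ (DL_mono hed hD))
      · have h3 := hgen p hp
        have h4 : (gram (MvPolynomial.map
            (FAM.mpa q (Ideal.Quotient.mkₐ k p.asIdeal)).toRingHom f)).map
            (algebraMap (MvPolynomial (Fin q) (R ⧸ p.asIdeal)) (FractionRing _)) =
            (gram f).map (genHom q p) := by
          rw [gram_map, Matrix.map_map]
          rfl
        rw [h4]
        exact h3
    · obtain ⟨e', rfl⟩ : ∃ e', e = e' + 1 := by
        refine ⟨e - 1, ?_⟩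
        have : e ≠ 0 := by
          rintro rfl
          exact hp (by simp)
        omega
      have hD' : DL k (R ⧸ p.asIdeal) e' := by
        intro P'
        have h3 := rdim_comap (Ideal.Quotient.mkₐ k p.asIdeal)
          (Ideal.Quotient.mkₐ_surjective k _) P'
        rw [← h3]
        have h4 : p ≤ PrimeSpectrum.comap (Ideal.Quotient.mkₐ k p.asIdeal).toRingHom P' := by
          intro x hx
          change Ideal.Quotient.mk p.asIdeal x ∈ P'.asIdeal
          rw [Ideal.Quotient.eq_zero_iff_mem.2 hx]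
          exact zero_mem _
        refine (rdim_le h4).trans ?_
        rw [not_le] at hp
        obtain ⟨m, hm⟩ := Cardinal.lt_aleph0.1 (hp.trans (Cardinal.natCast_lt_aleph0))
        rw [hm] at hp ⊢
        have h5 : m < e' + 1 := by exact_mod_cast hp
        exact_mod_cast Nat.lt_succ_iff.1 h5
      have hB : DL k (MvPolynomial (Fin q) (R ⧸ p.asIdeal)) d :=
        DL_mono (by omega) (Asm.s_DLM k _ e' q hD')
      exact Asm.s_QUA k P d hP n _ _ hB fun _ => hh.totalDegree_le
  have h3 := Asm.s_NOE k R _ h1 (by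
    intro D _ _ _ _ ψ hψ
    have hprime : (RingHom.ker ψ.toRingHom).IsPrime := RingHom.ker_isPrime _
    refine ⟨1, one_ne_zero, ?_⟩
    have hbij : Function.Bijective (awayHom k (1 : D)) := by
      have := isLocalization_awayHom (k := k) (1 : D)
      exact (IsLocalization.atUnit D (Localization.Away (1 : D)) (1 : D) isUnit_one).bijective
    let e1 : (R ⧸ RingHom.ker ψ.toRingHom) ≃ₐ[k] D :=
      Ideal.quotientKerAlgEquivOfSurjective hψ
    let e2 : (R ⧸ RingHom.ker ψ.toRingHom) ≃ₐ[k] Localization.Away (1 : D) :=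
      e1.trans (AlgEquiv.ofBijective _ hbij)
    have h4 := h1.iso e2 _ (hdom ⟨RingHom.ker ψ.toRingHom, hprime⟩)
    have h5 : e2.toAlgHom.comp (Ideal.Quotient.mkₐ k (RingHom.ker ψ.toRingHom)) =
        (awayHom k (1 : D)).comp ψ := by
      apply AlgHom.ext
      intro x
      rfl
    have h6 := h5 ▸ h4
    exact h6)
  have h4 : MvPolynomial.map (FAM.mpa q (AlgHom.id k R)).toRingHom f = f := by
    have h5 : (FAM.mpa q (AlgHom.id k R)).toRingHom = RingHom.id (MvPolynomial (Fin q) R) := by
      apply RingHom.ext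
      intro x
      exact MvPolynomial.map_id x
    rw [h5]
    exact MvPolynomial.map_id _
  have h6 : P (ER (fun _ : Fin 1 =>
      MvPolynomial.map (FAM.mpa q (AlgHom.id k R)).toRingHom f)) := h3
  rw [h4] at h6
  exact h6

end QCV


end

section

/-!
# QCV, block C: one equation of degree at most one over a polynomial ring
-/

set_option autoImplicit false

open Polynomial

namespace QCV

open CUB

namespace LN1

/-- One equation of degree at most one over a domain `B` of dimension at most `d + 1` with `P B`. -/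
theorem dom {k : Type} [Field k]
    {P : ∀ (A : Type) [CommRing A] [Algebra k A] [Algebra.FiniteType k A], Prop} {d : ℕ}
    (hP : Cls k d P) (B : Type) [CommRing B] [IsDomain B] [Algebra k B] [Algebra.FiniteType k B]
    (hB : DL k B (d + 1)) (hPB : P B) (n : ℕ) (f : MvPolynomial (Fin n) B)
    (hf : f.totalDegree ≤ 1) : P (ER (fun _ : Fin 1 => f)) := by
  by_cases h0 : f = 0
  · exact (Asm.s_PLY k P hP.toCls0 hP.line B n).2.1 (Fin 1) _ (fun _ => h0) hPB
  -- the two strata for a nonzero element of `B`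
  have key : ∀ u : B, u ≠ 0 → P (ER (mf (awayHom k u).toRingHom (fun _ : Fin 1 => f))) →
      P (ER (fun _ : Fin 1 => f)) := by
    intro u hu hU
    have hs : Strat u (Ideal.Quotient.mkₐ k (Ideal.span {u})) (awayHom k u) :=
      ⟨Ideal.Quotient.mkₐ_surjective k _, Ideal.mk_ker, isLocalization_awayHom u⟩
    obtain ⟨z', u', hs'⟩ := Asm.s_FAM.1 k _ _ _ (Fin 1) n _ _ _ (fun _ : Fin 1 => f) hs
    refine hP.glue _ z' u' hs' ?_ hU
    refine Asm.s_QUA k P d hP n _ _ (Asm.s_DLR.2.2.2.2 k B d u hu hB) fun _ => ?_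
    exact (totalDegree_map_le _ _).trans (hf.trans (by omega))
  have hPU : ∀ u : B, u ≠ 0 → P (Localization.Away u) := by
    intro u hu
    have hs : Strat u (Ideal.Quotient.mkₐ k (Ideal.span {u})) (awayHom k u) :=
      ⟨Ideal.Quotient.mkₐ_surjective k _, Ideal.mk_ker, isLocalization_awayHom u⟩
    exact hP.opn _ _ _ hs hPB (hP.base _ (Asm.s_DLR.2.2.2.2 k B d u hu hB))
  by_cases hj : ∀ j, MvPolynomial.coeff (Finsupp.single j 1) f = 0
  · have h1 := eq_C_of_linear f hf hj
    set u := MvPolynomial.coeff 0 f with hu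
    have hu0 : u ≠ 0 := by
      intro h
      rw [h, MvPolynomial.C_0] at h1
      exact h0 h1
    refine key u hu0 ?_
    refine (Asm.s_PLY k P hP.toCls0 hP.line (Localization.Away u) n).2.2 (Fin 1) _ ?_
    have h3 : IsUnit (mf (awayHom k u).toRingHom (fun _ : Fin 1 => f) 0) := by
      change IsUnit (MvPolynomial.map _ f)
      rw [h1, MvPolynomial.map_C]
      exact (IsLocalization.Away.algebraMap_isUnit u).map MvPolynomial.C
    have h4 : Ideal.span (Set.range (mf (awayHom k u).toRingHom (fun _ : Fin 1 => f))) = ⊤ :=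
      Ideal.eq_top_of_isUnit_mem _ (Ideal.subset_span ⟨0, rfl⟩) h3
    rw [h4]
    trivial
  · push Not at hj
    obtain ⟨j, hj⟩ := hj
    obtain ⟨n, rfl⟩ : ∃ n', n = n' + 1 := ⟨n - 1, by have := j.2; omega⟩
    set u := MvPolynomial.coeff (Finsupp.single j 1) f with hu
    refine key u hj ?_
    have h1 : IsUnit (MvPolynomial.coeff (Finsupp.single j 1)
        (MvPolynomial.map (awayHom k u).toRingHom f)) := by
      rw [MvPolynomial.coeff_map]
      exact IsLocalization.Away.algebraMap_isUnit u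
    obtain ⟨h, -, ⟨e⟩⟩ := eli (k := k)
      (fun _ : Option Empty => MvPolynomial.map (awayHom k u).toRingHom f) j
      ((totalDegree_map_le _ _).trans hf) h1
    have h2 : P (ER h) := (Asm.s_PLY k P hP.toCls0 hP.line (Localization.Away u) n).2.1 Empty h
      (fun c => c.elim) (hPU u hj)
    have h3 : Ideal.span (Set.range (fun _ : Option Empty =>
        MvPolynomial.map (awayHom k u).toRingHom f)) =
        Ideal.span (Set.range (mf (awayHom k u).toRingHom (fun _ : Fin 1 => f))) := by
      congr 1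
      ext x
      constructor
      · rintro ⟨_, rfl⟩
        exact ⟨0, rfl⟩
      · rintro ⟨_, rfl⟩
        exact ⟨none, rfl⟩
    exact hP.iso (e.symm.trans (Ideal.quotientEquivAlgOfEq k h3)) h2

end LN1

open QNO in
theorem t_LN1 : S_LN1 := by
  intro k _ P d hP R _ _ _ n s e f hed hse hR hf
  have hmf : ∀ (S S' : Type) [CommRing S] [Algebra k S] [CommRing S'] [Algebra k S']
      (ψ : R →ₐ[k] S) (φ : S →ₐ[k] S'),
      (fun _ : Fin 1 => MvPolynomial.map (FAM.mpa s (φ.comp ψ)).toRingHom f) =
        mf (FAM.mpa s φ).toRingHom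
          (fun _ : Fin 1 => MvPolynomial.map (FAM.mpa s ψ).toRingHom f) := by
    intro S S' _ _ _ _ ψ φ
    funext j
    change _ = MvPolynomial.map _ (MvPolynomial.map _ f)
    rw [MvPolynomial.map_map]
    have h1 : (FAM.mpa s (φ.comp ψ)).toRingHom =
        (FAM.mpa s φ).toRingHom.comp (FAM.mpa s ψ).toRingHom := by
      apply RingHom.ext
      intro x
      exact (MvPolynomial.map_map _ _ x).symm
    rw [h1]
  have h1 : Cls1 k R (fun S _ _ _ ψ => P (ER (fun _ : Fin 1 =>
      MvPolynomial.map (FAM.mpa s ψ).toRingHom f))) := by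
    constructor
    · intro S S' _ _ _ _ _ _ e ψ hS
      have hb : Function.Bijective (FAM.mpa s e.toAlgHom) :=
        ⟨MvPolynomial.map_injective _ e.injective, MvPolynomial.map_surjective _ e.surjective⟩
      obtain ⟨e'⟩ := Asm.s_FAM.2 k _ _ (Fin 1) n (AlgEquiv.ofBijective _ hb)
        (fun _ : Fin 1 => MvPolynomial.map (FAM.mpa s ψ).toRingHom f)
      have := hP.iso e' hS
      have h3 : mf ((AlgEquiv.ofBijective _ hb).toAlgHom).toRingHom
          (fun _ : Fin 1 => MvPolynomial.map (FAM.mpa s ψ).toRingHom f) =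
          fun _ : Fin 1 => MvPolynomial.map (FAM.mpa s (e.toAlgHom.comp ψ)).toRingHom f := by
        rw [hmf]
        rfl
      rw [h3] at this
      exact this
    · intro S _ _ _ ψ hS
      apply hP.triv
      have h3 : Subsingleton (MvPolynomial (Fin s) S) := Module.subsingleton S _
      have h4 : Subsingleton (MvPolynomial (Fin n) (MvPolynomial (Fin s) S)) :=
        Module.subsingleton (MvPolynomial (Fin s) S) _
      exact Function.Surjective.subsingleton (Ideal.Quotient.mk_surjective
        (I := Ideal.span (Set.range (fun _ : Fin 1 =>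
          MvPolynomial.map (FAM.mpa s ψ).toRingHom f))))
    · intro A Z U _ _ _ _ _ _ _ _ _ a z u ψ hs hZ hU
      obtain ⟨z', u', hs'⟩ := Asm.s_FAM.1 k _ _ _ (Fin 1) n _ _ _
        (fun _ : Fin 1 => MvPolynomial.map (FAM.mpa s ψ).toRingHom f) (strat_mv s hs)
      refine hP.glue _ z' u' hs' ?_ ?_
      · rw [← hmf]
        exact hZ
      · rw [← hmf]
        exact hU
    · intro A Z U _ _ _ _ _ _ _ _ _ a z u ψ hs hA hZ
      obtain ⟨z', u', hs'⟩ := Asm.s_FAM.1 k _ _ _ (Fin 1) n _ _ _
        (fun _ : Fin 1 => MvPolynomial.map (FAM.mpa s ψ).toRingHom f) (strat_mv s hs)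
      have := hP.opn _ z' u' hs' hA (by rw [← hmf]; exact hZ)
      rw [← hmf] at this
      exact this
  -- the residue rings of the primes
  have hdom : ∀ p : PrimeSpectrum R, P (ER (fun _ : Fin 1 =>
      MvPolynomial.map (FAM.mpa s (Ideal.Quotient.mkₐ k p.asIdeal)).toRingHom f)) := by
    intro p
    have hD : DL k (R ⧸ p.asIdeal) e :=
      Asm.s_DLR.1 k R _ e (Ideal.Quotient.mkₐ k p.asIdeal) (Ideal.Quotient.mkₐ_surjective k _) hR
    have hB : DL k (MvPolynomial (Fin s) (R ⧸ p.asIdeal)) (d + 1) :=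
      DL_mono (by omega) (Asm.s_DLM k _ e s hD)
    exact LN1.dom hP _ hB
      ((Asm.s_PLY k P hP.toCls0 hP.line _ s).1 (hP.base _ (DL_mono hed hD))) n _
      ((totalDegree_map_le _ _).trans hf)
  have h3 := Asm.s_NOE k R _ h1 (by
    intro D _ _ _ _ ψ hψ
    have hprime : (RingHom.ker ψ.toRingHom).IsPrime := RingHom.ker_isPrime _
    refine ⟨1, one_ne_zero, ?_⟩
    have hbij : Function.Bijective (awayHom k (1 : D)) := by
      have := isLocalization_awayHom (k := k) (1 : D)
      exact (IsLocalization.atUnit D (Localization.Away (1 : D)) (1 : D) isUnit_one).bijective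
    let e1 : (R ⧸ RingHom.ker ψ.toRingHom) ≃ₐ[k] D :=
      Ideal.quotientKerAlgEquivOfSurjective hψ
    let e2 : (R ⧸ RingHom.ker ψ.toRingHom) ≃ₐ[k] Localization.Away (1 : D) :=
      e1.trans (AlgEquiv.ofBijective _ hbij)
    have h4 := h1.iso e2 _ (hdom ⟨RingHom.ker ψ.toRingHom, hprime⟩)
    have h5 : e2.toAlgHom.comp (Ideal.Quotient.mkₐ k (RingHom.ker ψ.toRingHom)) =
        (awayHom k (1 : D)).comp ψ := by
      apply AlgHom.ext
      intro x
      rfl
    have h6 := h5 ▸ h4
    exact h6)
  have h4 : MvPolynomial.map (FAM.mpa s (AlgHom.id k R)).toRingHom f = f := by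
    have h5 : (FAM.mpa s (AlgHom.id k R)).toRingHom = RingHom.id (MvPolynomial (Fin s) R) := by
      apply RingHom.ext
      intro x
      exact MvPolynomial.map_id x
    rw [h5]
    exact MvPolynomial.map_id f
  have h6 : P (ER (fun _ : Fin 1 => MvPolynomial.map (FAM.mpa s (AlgHom.id k R)).toRingHom f)) :=
    h3
  rw [h4] at h6
  exact h6

end QCV


end

section

set_option autoImplicit false

open Polynomial

namespace QCV

open CUB

namespace AFFX

lemma td_term {R : Type} [CommRing R] {σ τ : Type} (g : σ → MvPolynomial τ R)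
    (hg : ∀ i, (g i).totalDegree ≤ 1) (m : σ →₀ ℕ) (c : R) :
    (MvPolynomial.C c * ∏ i ∈ m.support, g i ^ m i).totalDegree ≤ m.degree := by
  refine (MvPolynomial.totalDegree_mul _ _).trans ?_
  rw [MvPolynomial.totalDegree_C, zero_add]
  refine (MvPolynomial.totalDegree_finsetProd _ _).trans ?_
  rw [Finsupp.degree_apply]
  apply Finset.sum_le_sum
  intro i _
  refine (MvPolynomial.totalDegree_pow _ _).trans ?_
  calc m i * (g i).totalDegree ≤ m i * 1 := Nat.mul_le_mul_left _ (hg i)
    _ = m i := mul_one _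

lemma td_sp_le {R : Type} [CommRing R] {n : ℕ} (c : R) (p : MvPolynomial (Fin (n + 1)) R) :
    (sp c p).totalDegree ≤ p.totalDegree := by
  unfold sp
  rw [MvPolynomial.aeval_def, MvPolynomial.eval₂_eq]
  refine (MvPolynomial.totalDegree_finsetSum _ _).trans ?_
  apply Finset.sup_le
  intro m hm
  refine le_trans ?_ (MvPolynomial.le_totalDegree hm)
  have h := td_term (R := R) (Fin.cons (MvPolynomial.C c) MvPolynomial.X :
    Fin (n + 1) → MvPolynomial (Fin n) R) (fun i => by
      refine Fin.cases ?_ (fun j => ?_) i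
      · simp only [Fin.cons_zero]
        rw [MvPolynomial.totalDegree_C]
        exact Nat.zero_le _
      · simp only [Fin.cons_succ]
        by_cases hR : Nontrivial R
        · rw [MvPolynomial.totalDegree_X]
        · have hs : Subsingleton R := not_nontrivial_iff_subsingleton.1 hR
          have : (MvPolynomial.X j : MvPolynomial (Fin n) R) = 0 := Subsingleton.elim _ _
          rw [this]
          simp) m (MvPolynomial.coeff m p)
  exact h

lemma deg_swap {R : Type} [CommRing R] {a s : ℕ}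
    (G : MvPolynomial (Fin (s + 1)) (MvPolynomial (Fin (a + 1)) R))
    (hc : ∀ μ, (MvPolynomial.coeff μ G).IsHomogeneous (1 + μ 0)) :
    (MvPolynomial.commAlgEquiv R (Fin s) (Fin a)
      (sp 0 (MvPolynomial.map (sp (1 : R)).toRingHom G))).totalDegree ≤ 1 := by
  have hg : sp (0 : MvPolynomial (Fin a) R) (MvPolynomial.map (sp (1 : R)).toRingHom G) =
      ∑ m ∈ G.support, MvPolynomial.C (sp (1 : R) (MvPolynomial.coeff m G)) *
        ∏ i ∈ m.support, (Fin.cons (MvPolynomial.C 0) MvPolynomial.X :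
          Fin (s + 1) → MvPolynomial (Fin s) (MvPolynomial (Fin a) R)) i ^ m i := by
    unfold sp
    rw [MvPolynomial.aeval_def, MvPolynomial.eval₂_map, MvPolynomial.eval₂_eq]
    rfl
  rw [hg, map_sum]
  refine (MvPolynomial.totalDegree_finsetSum _ _).trans ?_
  apply Finset.sup_le
  intro m hm
  by_cases h0 : m 0 = 0
  · rw [map_mul, MvPolynomial.commAlgEquiv_C, map_prod]
    have hprod : ∀ i ∈ m.support, MvPolynomial.commAlgEquiv R (Fin s) (Fin a)
        ((Fin.cons (MvPolynomial.C 0) MvPolynomial.X :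
          Fin (s + 1) → MvPolynomial (Fin s) (MvPolynomial (Fin a) R)) i ^ m i) =
        MvPolynomial.C ((Fin.cons 0 MvPolynomial.X :
          Fin (s + 1) → MvPolynomial (Fin s) R) i ^ m i) := by
      intro i hi
      have hi0 : i ≠ 0 := by
        rintro rfl
        exact (Finsupp.mem_support_iff.1 hi) h0
      obtain ⟨j, rfl⟩ := Fin.exists_succ_eq.2 hi0
      simp only [Fin.cons_succ]
      rw [map_pow, MvPolynomial.commAlgEquiv_X, map_pow]
    rw [Finset.prod_congr rfl hprod, ← map_prod]
    refine (MvPolynomial.totalDegree_mul _ _).trans ?_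
    rw [MvPolynomial.totalDegree_C, add_zero]
    refine (totalDegree_map_le _ _).trans ((td_sp_le _ _).trans ?_)
    have := (hc m).totalDegree_le
    omega
  · have hz : (∏ i ∈ m.support, (Fin.cons (MvPolynomial.C 0) MvPolynomial.X :
          Fin (s + 1) → MvPolynomial (Fin s) (MvPolynomial (Fin a) R)) i ^ m i) = 0 := by
      apply Finset.prod_eq_zero (i := 0) (Finsupp.mem_support_iff.2 h0)
      simp only [Fin.cons_zero, map_zero]
      exact zero_pow h0
    rw [hz, mul_zero, map_zero, MvPolynomial.totalDegree_zero]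
    exact Nat.zero_le _

end AFFX

open _root_.QCV.AFFX in
theorem t_AFF : M_AFF := by
  intro hQOP hLN1 hHDE k _ P d h2 hP hOdd hGm R _ _ _ a s e G hed hea hes hDL hG hc hodd
  have hG1 : (MvPolynomial.map (sp (1 : R)).toRingHom G :
      MvPolynomial (Fin (s + 1)) (MvPolynomial (Fin a) R)).IsHomogeneous 2 := hG.map _
  by_cases h : e + a ≤ d
  · have hD : DL k (MvPolynomial (Fin a) R) d :=
      fun p => (Asm.s_DLM k R e a hDL p).trans (by exact_mod_cast h)
    exact Asm.s_QUA k P d hP s (MvPolynomial (Fin a) R)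
      (fun _ => sp 1 (MvPolynomial.map (sp (1 : R)).toRingHom G)) hD
      (fun _ => (td_sp_le _ _).trans hG1.totalDegree_le)
  · have hQ : P (ER (fun _ : Fin 1 => (MvPolynomial.map (sp (1 : R)).toRingHom G :
        MvPolynomial (Fin (s + 1)) (MvPolynomial (Fin a) R)))) :=
      hQOP k P d h2 hP hOdd R (s + 1) a e _ hed hea hDL hG1 (hodd (by omega))
    have h1 : P (ER (fun _ : Fin 1 => MvPolynomial.commAlgEquiv R (Fin s) (Fin a)
        (sp 0 (MvPolynomial.map (sp (1 : R)).toRingHom G)))) :=
      hLN1 k P d hP R a s e _ hed hes hDL (deg_swap G hc)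
    have h0 : P (ER (fun _ : Fin 1 => sp (0 : MvPolynomial (Fin a) R)
        (MvPolynomial.map (sp (1 : R)).toRingHom G))) := by
      refine hP.iso (AlgEquiv.symm (Ideal.quotientEquivAlg _ _
        ((MvPolynomial.commAlgEquiv R (Fin s) (Fin a)).restrictScalars k) ?_)) h1
      rw [Ideal.map_span, Set.range_const, Set.range_const, Set.image_singleton]
      rfl
    exact (hHDE k P hP.toCls0 hP.line hGm (MvPolynomial (Fin a) R) (Fin 1) s (fun _ => _)
      (fun _ => 2) (fun _ => hG1) h0).2 hQ

end QCV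


end

section

/-!
# QCV, block D: a cubic form with a singular point
-/

set_option autoImplicit false

open Polynomial

namespace QCV

open CUB

theorem t_DSL : M_DSL := by
  intro hDCN hDCP k _ P d hP hG K _ _ _ n Q H hK hn hQ hH hQ0 hcop
  have hKd : DL k K d := fun p => (hK p).trans (by exact_mod_cast Nat.zero_le d)
  have hPS : P (MvPolynomial (Fin n) K) := (Asm.s_PLY k P hP.toCls0 hP.line K n).1 (hP.base _ hKd)
  have hPQ : P (MvPolynomial (Fin n) K ⧸ Ideal.span {Q}) := by
    have h1 : P (ER (fun _ : Fin 1 => Q)) :=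
      Asm.s_QUA k P d hP n K (fun _ : Fin 1 => Q) hKd fun _ => hQ.totalDegree_le
    have h2 : Ideal.span (Set.range (fun _ : Fin 1 => Q)) = Ideal.span {Q} := by
      rw [Set.range_const]
    exact hP.iso (Ideal.quotientEquivAlgOfEq k h2) h1
  have hs : Strat Q (Ideal.Quotient.mkₐ k (Ideal.span {Q})) (awayHom k Q) :=
    ⟨Ideal.Quotient.mkₐ_surjective k _, Ideal.mk_ker, isLocalization_awayHom Q⟩
  have hPU : P (Localization.Away Q) := hP.opn _ _ _ hs hPS hPQ
  have hPZ : P (MvPolynomial (Fin n) K ⧸ Ideal.span {Q, H}) := by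
    have h1 : P (ER ![Q, H]) := by
      refine hDCN k P d hP hG K (Fin 2) n ![Q, H] ![2, 3] ?_ hKd
        (hDCP k K n (d + 1) Q H hK (by omega) hQ0 hcop)
      intro j
      fin_cases j
      · exact hQ
      · exact hH
    have h2 : Ideal.span (Set.range ![Q, H]) = Ideal.span {Q, H} := by
      rw [Matrix.range_cons, Matrix.range_cons, Matrix.range_empty, Set.union_empty,
        Set.singleton_union]
    exact hP.iso (Ideal.quotientEquivAlgOfEq k h2) h1
  obtain ⟨z', u', hs'⟩ := Asm.s_LNR k (MvPolynomial (Fin n) K) (Localization.Away Q) Q H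
    (awayHom k Q) (isLocalization_awayHom Q)
  exact hP.glue _ z' u' hs' (hP.line _ hPZ) hPU

end QCV


end
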