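import Mathlib
import Pool.Agent.QVM.C21
import Pool.Agent.QVM.C45

/-! Parts: QCV.StU2, QCV.StE1 -/

section

/-!
# QCV, block U: statements, commutative algebra over `Defs2`
-/

set_option autoImplicit false

open CategoryTheory AlgebraicGeometry Polynomial

namespace QCV

open Pool.Agent.Lib_helper55.Beil Pool.Agent.Lib_helper66.OneP CUB

/-- Closure properties of a property of finitely generated algebras: as `Cls0`, but the passage to the
open part needs nothing about the closed part; products with the affine line. -/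
structure ClsT (k : Type) [Field k]
    (P : ∀ (A : Type) [CommRing A] [Algebra k A] [Algebra.FiniteType k A], Prop) : Prop where
  iso : ∀ {A B : Type} [CommRing A] [Algebra k A] [Algebra.FiniteType k A] [CommRing B]
    [Algebra k B] [Algebra.FiniteType k B], (A ≃ₐ[k] B) → P A → P B
  triv : ∀ (A : Type) [CommRing A] [Algebra k A] [Algebra.FiniteType k A], Subsingleton A → P A
  glue : ∀ {A Z U : Type} [CommRing A] [Algebra k A] [Algebra.FiniteType k A] [CommRing Z]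
    [Algebra k Z] [Algebra.FiniteType k Z] [CommRing U] [Algebra k U] [Algebra.FiniteType k U]
    (a : A) (z : A →ₐ[k] Z) (u : A →ₐ[k] U), Strat a z u → P Z → P U → P A
  opn : ∀ {A U : Type} [CommRing A] [Algebra k A] [Algebra.FiniteType k A] [CommRing U]
    [Algebra k U] [Algebra.FiniteType k U] (a : A) (u : A →ₐ[k] U),
    @IsLocalization.Away A _ a U _ u.toRingHom.toAlgebra → P A → P U
  line : ∀ (A : Type) [CommRing A] [Algebra k A] [Algebra.FiniteType k A], P A → P A[X]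

/-- **UST** (the stratification of the generic member).
Proof.  Induction on `m` (for all `S`).  `m = 0`: `MvPolynomial (Fin 0) S ≃ S`, `fs f ↦ f 0`,
`range f = {f 0}`.  `m + 1`: let `S' = MvPolynomial (Fin m) S`, `g = C (f 1)`,
`h = fs (f 0, f 2, ..., f (m + 1))`.  `MvPolynomial.finSuccEquiv` (restricted to `k`) maps `fs f` to
`C g * X + C h`.  `Asm.s_LNR` for `u = ` the localisation `S' → S'_g` and `ClsT.glue`:
(1) `P S'`: `P S` (the hypothesis for `j = 0`: `f '' ∅ = ∅`) and `ClsT.line` `m` times (as R_PLY (1));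
`P S'_g` by `opn`.  (2) `P ((S' / (g, h))[X])`: `line`, and `S' / (g, h) ≅ MvPolynomial (Fin m) S₁ / (fs f')`
for `S₁ = S / (f 1)`, `f' = (f 0, f 2, ..., f (m + 1))` modulo `f 1`; induction for `S₁, f'`: the
hypothesis for `j < m` is the one for `j + 1` and `S`: `S₁ / (f' '' {1 ≤ l ≤ j}) ≅ S / (f '' {1 ≤ l ≤ j + 1})`
(`DoubleQuot.quotQuotEquivQuotOfLE` or `DoubleQuot.quotQuotEquivQuotSupₐ`), similarly for `range f`. -/
def S_UST : Prop :=
  ∀ (k : Type) [Field k]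
    (P : ∀ (A : Type) [CommRing A] [Algebra k A] [Algebra.FiniteType k A], Prop), ClsT k P →
    ∀ (m : ℕ) (S : Type) [CommRing S] [Algebra k S] [Algebra.FiniteType k S] (f : Fin (m + 1) → S),
      (∀ j < m, P (S ⧸ Ideal.span (f '' {l : Fin (m + 1) | 1 ≤ l.1 ∧ l.1 ≤ j}))) →
      P (S ⧸ Ideal.span (Set.range f)) → P (MvPolynomial (Fin m) S ⧸ Ideal.span {fs f})

/-- The ring `S[X] / (g X + h)` of `S_LNR`. -/
abbrev HR (S : Type) [CommRing S] (g h : S) : Type := S[X] ⧸ Ideal.span {C g * X + C h}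

/-- **UHI** (commutative algebra).
Proof.  `n + 2 * (s + 1) = (n + 2 * s) + 2` (`MvPolynomial.renameEquiv` along `finCongr`), the last two
variables are `u = x_(n + 2 s)`, `v = x_(n + 2 s + 1)`;
`MvPolynomial (Fin (N + 1)) B ≃ (MvPolynomial (Fin N) B)[X]` with the last variable as `X`, e.g.
`MvPolynomial.renameEquiv` along `finSuccEquivLast`, `MvPolynomial.optionEquivLeft` (twice), all
restricted to `k`; `hyp φ (s + 1)` is mapped to `C X * X + C (C (hyp φ s))` (`Fin.sum_univ_castSucc`). -/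
def S_UHI : Prop :=
  ∀ (k B : Type) [Field k] [CommRing B] [Algebra k B] (n s : ℕ) (φ : MvPolynomial (Fin n) B),
    Nonempty (ER (fun _ : Fin 1 => hyp φ (s + 1)) ≃ₐ[k]
      HR (MvPolynomial (Fin (n + 2 * s)) B)[X] X (C (hyp φ s)))

/-- **UGA** (commutative algebra).  The open part `x_0 ≠ 0` of `g x_0 ^ 2 = 0` is the punctured line over
`B / g`.
Proof.  `u` is induced by `B[x_0] → (B / g)[X] → Localization.Away X`, `x_0 ↦ X`.  It maps `x_0` to a
unit.  Surjective up to powers of `x_0`: clear.  If the class of `F ∈ B[x_0]` is mapped to zero then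
`X ^ n * F = 0` in `(B / g)[X]`, so all coefficients of `F` are divisible by `g`, `F = g F'`, and
`x_0 ^ 2 F = 0` in the quotient. -/
def S_UGA : Prop :=
  ∀ (k B : Type) [Field k] [CommRing B] [Algebra k B] (g : B),
    ∃ u : ER (fun _ : Fin 1 => (MvPolynomial.C g * MvPolynomial.X 0 ^ 2 : MvPolynomial (Fin 1) B)) →ₐ[k]
        Localization.Away (X : (B ⧸ Ideal.span {g})[X]),
      @IsLocalization.Away _ _ (Ideal.Quotient.mk _ (MvPolynomial.X 0)) _ _ u.toRingHom.toAlgebra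

end QCV


end

section

/-!
# QCV, block E: statements (quadratic forms in an even number of variables), commutative algebra

Goal.  Let `a_0, ..., a_(2m-1)` be units of `A`, and `D = A[t] / (t ^ 2 - (-1) ^ m a_0 ... a_(2m-1))`.
If `Spec D` has the property `P` (`PPF` or `GG`), then so has the quadric cone
`a_0 x_0 ^ 2 + ... + a_(2m-1) x_(2m-1) ^ 2 = 0` over `Spec A` (`EvenCl`).  Proof by induction on `m`: the cones
of the forms `(a_0, a_1, a_2, a_3, ...)` and `(a_0, - a_0, a_2, δ a_3, ...)`, `δ = - a_1 / a_0`, are twists of each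
other: they become isomorphic over `A_1 = A[t] / (t ^ 2 - δ)`, and the two actions of the involution differ by
the automorphism `w : x_1 ↦ - x_1, x_3 ↦ - x_3`, which acts trivially on homology and on cycles modulo rational
equivalence (`S_EQT`; the determinant is one).  So the property passes from one to the other (`S_ECM`), and the
second form contains a hyperbolic plane (`S_EH2`).
-/

set_option autoImplicit false

open CategoryTheory AlgebraicGeometry Polynomial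

namespace QCV

open Pool.Agent.Lib_helper55.Beil Pool.Agent.Lib_helper66.OneP CUB

/-- The automorphism `w` of a quotient of a polynomial ring fixes the coefficients and multiplies the
variable `x_j` by `ε_j`. -/
def Sgn {k B : Type} [Field k] [CommRing B] [Algebra k B] {n : ℕ}
    {I : Ideal (MvPolynomial (Fin n) B)} (ε : Fin n → ℤ)
    (w : (MvPolynomial (Fin n) B ⧸ I) ≃ₐ[k] (MvPolynomial (Fin n) B ⧸ I)) : Prop :=
  (∀ b : B, w (Ideal.Quotient.mk I (MvPolynomial.C b)) = Ideal.Quotient.mk I (MvPolynomial.C b)) ∧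
    ∀ j, w (Ideal.Quotient.mk I (MvPolynomial.X j)) = ε j • Ideal.Quotient.mk I (MvPolynomial.X j)

/-- `B[x_0, x_1] / (x_0 x_1 + c)`. -/
abbrev HQ (B : Type) [CommRing B] (c : B) : Type :=
  MvPolynomial (Fin 2) B ⧸
    Ideal.span {(MvPolynomial.X 0 * MvPolynomial.X 1 + MvPolynomial.C c : MvPolynomial (Fin 2) B)}

/-- `B[x_0, ..., x_3] / (x_0 x_1 + x_2 x_3 + c)`. -/
abbrev HP (B : Type) [CommRing B] (c : B) : Type :=
  MvPolynomial (Fin 4) B ⧸
    Ideal.span {(MvPolynomial.X 0 * MvPolynomial.X 1 + MvPolynomial.X 2 * MvPolynomial.X 3 +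
      MvPolynomial.C c : MvPolynomial (Fin 4) B)}

/-- `B[x_0, ..., x_3] / (a_0 x_0 ^ 2 + ... + a_3 x_3 ^ 2 + c)`. -/
abbrev QC (B : Type) [CommRing B] (a : Fin 4 → B) (c : B) : Type :=
  MvPolynomial (Fin 4) B ⧸ Ideal.span {(dia a + MvPolynomial.C c : MvPolynomial (Fin 4) B)}

/-- **ESG** (existence of sign automorphisms).
Proof.  `MvPolynomial.aeval (fun j => ε j • X j)` is an involution (check on the variables) which
preserves the ideal; `Ideal.quotientEquivAlg`. -/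
def S_ESG : Prop :=
  ∀ (k B : Type) [Field k] [CommRing B] [Algebra k B] (n : ℕ) (F : MvPolynomial (Fin n) B)
    (ε : Fin n → ℤ), (∀ j, ε j * ε j = 1) →
    MvPolynomial.aeval (fun j => ε j • (MvPolynomial.X j : MvPolynomial (Fin n) B)) F = F →
    ∃ w : (MvPolynomial (Fin n) B ⧸ Ideal.span {F}) ≃ₐ[k] (MvPolynomial (Fin n) B ⧸ Ideal.span {F}),
      Sgn ε w

/-- **EBC** (base change of `QC` to a double cover of the base).
Proof.  As `S_DMV` (O_DMV.lean) or R_DRI: homomorphisms in both directions (`AdjoinRoot.lift` of the map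
induced by `MvPolynomial.map`; `MvPolynomial.eval₂Hom` of `AdjoinRoot.lift`, `Ideal.Quotient.lift`), inverse to
each other on the generators. -/
def S_EBC : Prop :=
  ∀ (k B : Type) [Field k] [CommRing B] [Algebra k B] (a : Fin 4 → B) (c δ : B),
    ∃ e : Dr (QC B a c) 0 (Ideal.Quotient.mk _ (MvPolynomial.C δ)) ≃ₐ[k]
        QC (Dr B 0 δ) (fun j => algebraMap B (Dr B 0 δ) (a j)) (algebraMap B (Dr B 0 δ) c),
      (∀ p : MvPolynomial (Fin 4) B, e (algebraMap (QC B a c) _ (Ideal.Quotient.mk _ p)) =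
        Ideal.Quotient.mk _ (MvPolynomial.map (algebraMap B (Dr B 0 δ)) p)) ∧
      e (rt _ _) = Ideal.Quotient.mk _ (MvPolynomial.C (rt 0 δ))

/-- **EHQ** (strata of `HQ B c`, `x_0 = 0` and `x_0 ≠ 0`).
Proof.  `z : x_0 ↦ 0, x_1 ↦ X` (surjective with kernel `(x_0)`), `u : x_0 ↦ X, x_1 ↦ - c / X`
(as R_LNR, O_OHYR); `wZ : X ↦ - X`, `wX : X ↦ - X` (`Polynomial.algEquivAevalNegX` restricted to `k`),
`wU` the extension of `wX` to the localisation (`IsLocalization` functoriality; `wX X = - X` is the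
generator up to a unit).  Compatibility on generators. -/
def S_EHQ : Prop :=
  ∀ (k B : Type) [Field k] [CommRing B] [Algebra k B] (c : B) (w : HQ B c ≃ₐ[k] HQ B c),
    Sgn ![-1, -1] w →
    ∃ (z : HQ B c →ₐ[k] (B ⧸ Ideal.span {c})[X]) (u : HQ B c →ₐ[k] Localization.Away (X : B[X]))
      (wZ : (B ⧸ Ideal.span {c})[X] ≃ₐ[k] (B ⧸ Ideal.span {c})[X]) (wX : B[X] ≃ₐ[k] B[X])
      (wU : Localization.Away (X : B[X]) ≃ₐ[k] Localization.Away (X : B[X])),
      Strat (Ideal.Quotient.mk _ (MvPolynomial.X 0) : HQ B c) z u ∧ (∀ x, z (w x) = wZ (z x)) ∧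
      (∀ x, u (w x) = wU (u x)) ∧ (∀ a, wZ (C a) = C a) ∧ (∀ b, wX (C b) = C b) ∧ wX X = - X ∧
      ∀ p : B[X], wU (algebraMap B[X] _ p) = algebraMap B[X] _ (wX p)

/-- **EHP** (strata of `HP B c`, `x_0 = 0` and `x_0 ≠ 0`).
Proof.  `z : x_0 ↦ 0, x_1 ↦ X, x_2 ↦ C x_0, x_3 ↦ C x_1`; `u : x_0 ↦ C (C X), x_2 ↦ C X, x_3 ↦ X,
x_1 ↦ - (x_2 x_3 + c) / x_0`.  `w₀` exists as the ideal is preserved (`S_ESG`-type argument), `wZ` the extension
of `w₀` to polynomials with `X ↦ X` (`Polynomial.mapAlgEquiv`), `w₁ : X ↦ - X`, `wU` the extension of `w₁`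
with `X ↦ - X`. -/
def S_EHP : Prop :=
  ∀ (k B : Type) [Field k] [CommRing B] [Algebra k B] (c : B) (w : HP B c ≃ₐ[k] HP B c),
    Sgn ![1, 1, -1, -1] w →
    ∃ (z : HP B c →ₐ[k] (HQ B c)[X]) (u : HP B c →ₐ[k] (Localization.Away (X : B[X]))[X][X])
      (w₀ : HQ B c ≃ₐ[k] HQ B c) (wZ : (HQ B c)[X] ≃ₐ[k] (HQ B c)[X])
      (w₁ : (Localization.Away (X : B[X]))[X] ≃ₐ[k] (Localization.Away (X : B[X]))[X])
      (wU : (Localization.Away (X : B[X]))[X][X] ≃ₐ[k] (Localization.Away (X : B[X]))[X][X]),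
      Strat (A := HP B c) (Z := (HQ B c)[X]) (U := (Localization.Away (X : B[X]))[X][X])
        (Ideal.Quotient.mk _ (MvPolynomial.X 0)) z u ∧ Sgn ![-1, -1] w₀ ∧
      (∀ x, z (w x) = wZ (z x)) ∧ (∀ x, u (w x) = wU (u x)) ∧ (∀ a, wZ (C a) = C (w₀ a)) ∧
      (∀ a, w₁ (C a) = C a) ∧ ∀ a, wU (C a) = C (w₁ a)

/-- **ESP** (coordinates for a form with two hyperbolic planes).
Proof.  `θ : x_0 ↦ (a_0⁻¹ y_0 + y_1) / 2, x_2 ↦ (y_1 - a_0⁻¹ y_0) / (2 s₁), x_1 ↦ (a_1⁻¹ y_2 + y_3) / 2,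
x_3 ↦ (y_3 - a_1⁻¹ y_2) / (2 s₂)`, with the inverse `y_0 ↦ a_0 (x_0 - s₁ x_2), y_1 ↦ x_0 + s₁ x_2,
y_2 ↦ a_1 (x_1 - s₂ x_3), y_3 ↦ x_1 + s₂ x_3` (as O_DTH.lean; `s₁, s₂` are units).  The compatibility on
generators. -/
def S_ESP : Prop :=
  ∀ (k B : Type) [Field k] [CommRing B] [Algebra k B] (a : Fin 4 → B) (c s₁ s₂ : B),
    (2 : k) ≠ 0 → (∀ j, IsUnit (a j)) → s₁ ^ 2 * a 0 = - a 2 → s₂ ^ 2 * a 1 = - a 3 →
    ∃ θ : QC B a c ≃ₐ[k] HP B c, ∀ (w : QC B a c ≃ₐ[k] QC B a c) (w' : HP B c ≃ₐ[k] HP B c),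
      Sgn ![1, -1, 1, -1] w → Sgn ![1, 1, -1, -1] w' → ∀ x, θ (w x) = w' (θ x)

/-- **ETW** (the twist).
Proof.  Let `B₁ = Dr B 0 (-δ)`, `t = rt`, `t ^ 2 = δ`.  By `S_EBC` (proved independently; hypothesis of
`M_ETW`) both sides are `QC B₁ _ _`; the isomorphism `QC B₁ a c → QC B₁ a' c` is `x_0 ↦ x_0, x_1 ↦ t δ⁻¹ x_1,
x_2 ↦ x_2, x_3 ↦ t x_3` (`a_1 t ^ 2 δ⁻² = - a_0`, `a_3 t ^ 2 = δ a_3`).  `w'` is the sign automorphism (`S_ESG`), `e'`
is `S_EBC` for `a'`, `w = e'⁻¹ w' e'`.  The relation is checked on the generators (`B`, `t`, `x_j`): `dinv` fixes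
`B` and `x_j` and maps `t` to `- t`. -/
def S_ETW : Prop :=
  ∀ (k B : Type) [Field k] [CommRing B] [Algebra k B] (a : Fin 4 → B) (c δ : B),
    IsUnit δ → δ * a 0 = - a 1 →
    ∃ (e : Dr (QC B a c) 0 (Ideal.Quotient.mk _ (MvPolynomial.C (-δ))) ≃ₐ[k]
        Dr (QC B ![a 0, - a 0, a 2, δ * a 3] c) 0 (Ideal.Quotient.mk _ (MvPolynomial.C (-δ))))
      (w : Dr (QC B ![a 0, - a 0, a 2, δ * a 3] c) 0 (Ideal.Quotient.mk _ (MvPolynomial.C (-δ))) ≃ₐ[k]
        Dr (QC B ![a 0, - a 0, a 2, δ * a 3] c) 0 (Ideal.Quotient.mk _ (MvPolynomial.C (-δ))))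
      (e' : Dr (QC B ![a 0, - a 0, a 2, δ * a 3] c) 0 (Ideal.Quotient.mk _ (MvPolynomial.C (-δ))) ≃ₐ[k]
        QC (Dr B 0 (-δ))
          (fun j => algebraMap B (Dr B 0 (-δ)) ((![a 0, - a 0, a 2, δ * a 3] : Fin 4 → B) j))
          (algebraMap B (Dr B 0 (-δ)) c))
      (w' : QC (Dr B 0 (-δ))
          (fun j => algebraMap B (Dr B 0 (-δ)) ((![a 0, - a 0, a 2, δ * a 3] : Fin 4 → B) j))
          (algebraMap B (Dr B 0 (-δ)) c) ≃ₐ[k] _),
      Sgn ![1, -1, 1, -1] w' ∧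
      (∀ x, e (dinv _ _ k x) = w (dinv _ _ k (e x))) ∧ ∀ x, e' (w x) = w' (e' x)

def M_ETW : Prop := S_EBC → S_ESG → S_ETW

/-- **EBM** (more variables in the base).
Proof.  `MvPolynomial (Fin 4) (MvPolynomial (Fin 2) B) ≅ MvPolynomial (Fin 2) (MvPolynomial (Fin 4) B)`
(`MvPolynomial.commAlgEquiv`), `MvPolynomial.quotientEquivQuotientMvPolynomial`; as O_OBCH.lean. -/
def S_EBM : Prop :=
  ∀ (k B : Type) [Field k] [CommRing B] [Algebra k B] (a : Fin 4 → B) (c : B),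
    Nonempty (QC (MvPolynomial (Fin 2) B) (fun j => MvPolynomial.C (a j)) (MvPolynomial.C c) ≃ₐ[k]
      MvPolynomial (Fin 2) (QC B a c))

/-- **EQI** (the first four variables).
Proof.  `MvPolynomial (Fin (4 + n)) A ≅ MvPolynomial (Fin 4) (MvPolynomial (Fin n) A)` (`finSumFinEquiv`,
`MvPolynomial.sumAlgEquiv`; compare P_SPL.lean), `dia a ↦ dia (C ∘ a) + C (dia ...)` (`Fin.sum_univ_add`). -/
def S_EQI : Prop :=
  ∀ (k A : Type) [Field k] [CommRing A] [Algebra k A] (m : ℕ) (a : Fin (2 * (m + 2)) → A),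
    Nonempty ((MvPolynomial (Fin (2 * (m + 2))) A ⧸ Ideal.span {dia a}) ≃ₐ[k]
      QC (MvPolynomial (Fin (2 * m)) A) (fun j => MvPolynomial.C (a ⟨j.1, by omega⟩))
        (dia fun j : Fin (2 * m) => a ⟨j.1 + 4, by omega⟩))

/-- **EH2** (a hyperbolic plane `a_0 (x_0 ^ 2 - x_1 ^ 2)`).
Proof.  `S_DTH` with `s = 1` (`t_DTH`): `MvPolynomial (Fin (n + 2)) A ≃ S[X][X]`, `S = MvPolynomial (Fin n) A`,
`dia a ↦ C X * X + C (C q)`, `q = dia (a_2, ...)`; then `Asm.s_LNR` for `S[X]`, `g = X`, `h = C q`,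
`U = Localization.Away X`, and `(S[X] / (X, C q))[X] ≃ (S / (q))[X]`. -/
def S_EH2 : Prop :=
  ∀ (k A : Type) [Field k] [CommRing A] [Algebra k A] (n : ℕ) (a : Fin (n + 2) → A),
    (2 : k) ≠ 0 → IsUnit (a 0) → a 1 = - a 0 →
    ∃ (s : MvPolynomial (Fin (n + 2)) A ⧸ Ideal.span {dia a})
      (z : (MvPolynomial (Fin (n + 2)) A ⧸ Ideal.span {dia a}) →ₐ[k]
        (MvPolynomial (Fin n) A ⧸ Ideal.span {dia fun j => a j.succ.succ})[X])
      (u : (MvPolynomial (Fin (n + 2)) A ⧸ Ideal.span {dia a}) →ₐ[k]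
        Localization.Away (X : (MvPolynomial (Fin n) A)[X])),
      Strat (Z := (MvPolynomial (Fin n) A ⧸ Ideal.span {dia fun j => a j.succ.succ})[X])
        (U := Localization.Away (X : (MvPolynomial (Fin n) A)[X])) s z u

/-- **EE1** (two variables).
Proof.  `z : x_1 ↦ 0, x_0 ↦ X` (the ideal `(a_0 X ^ 2)` is `(X ^ 2)`).  `u : x_1 ↦ X, x_0 ↦ a_0⁻¹ t X`, where
`t = rt`, `t ^ 2 + a_0 a_1 = 0`: `a_0 a_0⁻² t ^ 2 X ^ 2 + a_1 X ^ 2 = 0`.  A localisation away from `x_1`: universal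
property, `t ↦ a_0 x_0 / x_1` (see R_VRQ, R_LNR for the method). -/
def S_EE1 : Prop :=
  ∀ (k A : Type) [Field k] [CommRing A] [Algebra k A] (a : Fin 2 → A), (∀ j, IsUnit (a j)) →
    ∃ (z : (MvPolynomial (Fin 2) A ⧸ Ideal.span {dia a}) →ₐ[k] (A[X] ⧸ Ideal.span {(X : A[X]) ^ 2}))
      (u : (MvPolynomial (Fin 2) A ⧸ Ideal.span {dia a}) →ₐ[k]
        Localization.Away (X : (Dr A 0 (a 0 * a 1))[X])),
      Strat (Ideal.Quotient.mk _ (MvPolynomial.X 1)) z u

/-- **EDU** (change of the root by a unit).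
Proof.  `AdjoinRoot.lift`, `t ↦ u⁻¹ t` and `t ↦ u t`, in both directions. -/
def S_EDU : Prop :=
  ∀ (k A : Type) [Field k] [CommRing A] [Algebra k A] (c u : A), IsUnit u →
    Nonempty (Dr A 0 c ≃ₐ[k] Dr A 0 (u ^ 2 * c))

/-- **EDS** (strata of a double cover).
Proof.  `Dr A b c` is free over `A` with the basis `1, t` (`AdjoinRoot.powerBasis'` of the monic
polynomial `dpoly b c`, or `Q_span`-type lemma: every element is `p + q t`, uniquely).  `z'`, `u'` by
`AdjoinRoot.lift` (or `AdjoinRoot.map`).  Kernel of `z'`: `z p = z q = 0`.  `u'` is a localisation away from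
`a`: coefficientwise. -/
def S_EDS : Prop :=
  ∀ (k A Z U : Type) [Field k] [CommRing A] [Algebra k A] [CommRing Z] [Algebra k Z] [CommRing U]
    [Algebra k U] (a : A) (z : A →ₐ[k] Z) (u : A →ₐ[k] U), Strat a z u → ∀ b c : A,
    ∃ (z' : Dr A b c →ₐ[k] Dr Z (z b) (z c)) (u' : Dr A b c →ₐ[k] Dr U (u b) (u c)),
      Strat (algebraMap A (Dr A b c) a) z' u'

/-- The closure property for the twist. -/
def TwCl (k : Type) [Field k]
    (P : ∀ (A : Type) [CommRing A] [Algebra k A] [Algebra.FiniteType k A], Prop) : Prop :=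
  ∀ (B : Type) [CommRing B] [Algebra k B] [Algebra.FiniteType k B] (a : Fin 4 → B) (c δ : B),
    (∀ j, IsUnit (a j)) → IsUnit δ → δ * a 0 = - a 1 →
    P (QC B ![a 0, - a 0, a 2, δ * a 3] c) → P (QC B a c)

/-- The closure property: quadric cones in an even number of variables, if the discriminant double
cover of the base has the property. -/
def EvenCl (k : Type) [Field k]
    (P : ∀ (A : Type) [CommRing A] [Algebra k A] [Algebra.FiniteType k A], Prop) : Prop :=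
  ∀ (A : Type) [CommRing A] [Algebra k A] [Algebra.FiniteType k A] (m : ℕ)
    (a : Fin (2 * m) → A), (∀ j, IsUnit (a j)) → P (Dr A 0 ((-1) ^ (m + 1) * ∏ j, a j)) →
    P (MvPolynomial (Fin (2 * m)) A ⧸ Ideal.span {dia a})

/-- **EVI** (induction on `m`).
Proof.  `P A` follows from `P (Dr A 0 _)` (`dbl`).  `m = 0`: `dia a = 0`, the ring is `A`.  `m = 1`: `S_EE1`:
the closed part `A[X] / (X ^ 2)` is glued (`a = X`) from `A` and the zero ring; the open part
`D[X, 1 / X]`, `D = Dr A 0 (a_0 a_1)`, by `line` and `opn` (closed part `D`).  `m + 2`: let `δ a_0 = - a_1` and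
`a' = (a_0, - a_0, a_2, δ a_3, a_4, ...)`.  `S_EQI` for `a` and for `a'`, and `TwCl` for the base
`MvPolynomial (Fin (2 * m)) A`: it is enough to prove `P` for `a'`.  `S_EH2` (`2 * (m + 2) = 2 * (m + 1) + 2`):
the open part is a localisation of a polynomial ring over `A`, the closed part is the product of the
line and the cone of `a'' = (a_2, δ a_3, a_4, ...)`, which has `P` by induction for `m + 1`:
`(-1) ^ (m + 2) ∏ a'' = (-1) ^ (m + 3) (∏ a) / a_0 ^ 2`, `S_EDU`. -/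
def S_EVI : Prop :=
  ∀ (k : Type) [Field k]
    (P : ∀ (A : Type) [CommRing A] [Algebra k A] [Algebra.FiniteType k A], Prop), (2 : k) ≠ 0 →
    Cls0 k P →
    (∀ (A : Type) [CommRing A] [Algebra k A] [Algebra.FiniteType k A], P A → P A[X]) →
    (∀ (A : Type) [CommRing A] [Algebra k A] [Algebra.FiniteType k A] (b c : A),
      P (Dr A b c) → P A) → TwCl k P → EvenCl k P

def M_EVI : Prop := S_EQI → S_EH2 → S_EE1 → S_EDU → S_EVI

/-- **EOD** (one quadratic form over a domain).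
Proof.  As `t_QOD` (O_QOD.lean) with `n = 2 * m` and full rank (`(gram f).det ≠ 0`): `S_QDS` (`t_QDS`), `U =
Localization.Away a`, `Pᵀ G P = diag w`, all `w_j` units, `v = w / 2`, `S_QDP`, `EvenCl` over `U`.  The
hypothesis: `det G (det P) ^ 2 = ∏ w = (2 ^ m) ^ 2 ∏ v`, so by `S_EDU` it is enough to have
`P (Dr U 0 ((-1) ^ (m + 1) * det G))`; this is a localisation of `Dr B 0 (...)` (`opn`; the closed part is
`Dr (B / a) 0 _`, of dimension at most `d` by `Asm.s_DLR` (3), `base`; `S_EDS`). -/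
def S_EOD : Prop :=
  ∀ (k : Type) [Field k]
    (P : ∀ (A : Type) [CommRing A] [Algebra k A] [Algebra.FiniteType k A], Prop) (d : ℕ),
    (2 : k) ≠ 0 → Cls k d P → EvenCl k P →
    ∀ (B : Type) [CommRing B] [IsDomain B] [Algebra k B] [Algebra.FiniteType k B] (m : ℕ)
      (f : MvPolynomial (Fin (2 * m)) B), DL k B (d + 1) → P B → f.IsHomogeneous 2 →
      (gram f).det ≠ 0 → P (Dr B 0 ((-1) ^ (m + 1) * (gram f).det)) →
      P (ER (fun _ : Fin 1 => f))

def M_EOD : Prop := S_EDU → S_EDS → S_EOD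

/-- **EVS** (systems of quadratic forms).
Proof.  As `t_QVR` (O_QVR.lean): `S' = MvPolynomial (Fin q) (MvPolynomial (Fin (2 * m)) R)`, `P S'`,
`P (S' / (fs f))` by `t_QSW` and `S_EOD` for `B = MvPolynomial (Fin q) R` (a domain, `DL k B (d + 1)` by
`Asm.s_DLM`, `P B` by `base` and `line`), `Asm.s_V1P`, `P (VR _ (f ∘ succ))` by `Asm.s_VRP`, `glue` with
`Asm.s_VRQ`. -/
def S_EVS : Prop :=
  ∀ (k : Type) [Field k]
    (P : ∀ (A : Type) [CommRing A] [Algebra k A] [Algebra.FiniteType k A], Prop) (d : ℕ),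
    (2 : k) ≠ 0 → Cls k d P → EvenCl k P →
    ∀ (R : Type) [CommRing R] [IsDomain R] [Algebra k R] [Algebra.FiniteType k R] (m q e : ℕ)
      (f : Fin (q + 1) → MvPolynomial (Fin (2 * m)) R), e ≤ d → q + e ≤ d + 1 → DL k R e →
      (∀ j, (f j).IsHomogeneous 2) → (gram (gen f)).det ≠ 0 →
      P (Dr (MvPolynomial (Fin q) R) 0 ((-1) ^ (m + 1) * (gram (gen f)).det)) →
      P (VR (MvPolynomial (Fin (2 * m)) R) f)

def M_EVS : Prop := S_EOD → S_EVS

/-- **UD2** (the discriminant of `x_0 ^ 2 - g x_1 ^ 2` and hyperbolic planes).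
Proof.  As `t_UDT` (U_UDT.lean); for `s = 0` the matrix is `diag (2, - 2 g)`. -/
def S_UD2 : Prop :=
  ∀ (B : Type) [CommRing B] [IsDomain B] (g : B) (s : ℕ), (2 : B) ≠ 0 → g ≠ 0 →
    (lgram (hyp (MvPolynomial.X 0 ^ 2 - MvPolynomial.C g * MvPolynomial.X 1 ^ 2 :
      MvPolynomial (Fin 2) B) s)).det ≠ 0

/-- **UG2** (the open part `x_1 ≠ 0` of `x_0 ^ 2 = g x_1 ^ 2`).
Proof.  As `S_EE1`: `u : x_1 ↦ X, x_0 ↦ C (rt 0 (-g)) * X`. -/
def S_UG2 : Prop :=
  ∀ (k B : Type) [Field k] [CommRing B] [Algebra k B] (g : B),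
    ∃ u : ER (fun _ : Fin 1 => (MvPolynomial.X 0 ^ 2 - MvPolynomial.C g * MvPolynomial.X 1 ^ 2 :
        MvPolynomial (Fin 2) B)) →ₐ[k] Localization.Away (X : (Dr B 0 (-g))[X]),
      @IsLocalization.Away _ _ (Ideal.Quotient.mk _ (MvPolynomial.X 1)) _ _ u.toRingHom.toAlgebra

end QCV


end
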