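import Mathlib
import Pool.Agent.QVM.C42
import Pool.Agent.QVM.C45
import Pool.Agent.QVM.C47

/-! Parts: QCV.O_OLN, QCV.O_OODD, QCV.O_QSW, QCV.E_ESG, QCV.E_EVS -/

section

set_option autoImplicit false

open CategoryTheory AlgebraicGeometry Polynomial

namespace QCV

open Pool.Agent.Lib_helper55.Beil Pool.Agent.Lib_helper66.OneP CUB

universe v

namespace OLN_aux

variable {k : Type} [Field k] {E : Type} [Field E]
  {A : Type} [CommRing A] [Algebra k A] [Algebra.FiniteType k A]

lemma cyE_mapDomain {n : ℕ} (c : RP k A n →₀ E) :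
    cyE E n c = Finsupp.mapDomain (ptE n) c := by
  unfold cyE
  rw [Finsupp.domLCongr_apply, Finsupp.domCongr_apply, Finsupp.equivMapDomain_eq_mapDomain]

/-- Push-forward of cycles along an automorphism, on the level of rings. -/
lemma pushCyc_cyE {n : ℕ} (t : A ≃ₐ[k] A) (c : RP k A n →₀ E) :
    pushCyc (autc t) (cyE E n c) = cyE E n (push E (t : A →ₐ[k] A) t.surjective c) := by
  rw [cyE_mapDomain, cyE_mapDomain, pushCyc, ← Finsupp.mapDomain_comp]
  change _ = Finsupp.mapDomain (ptE n)
    (Finsupp.mapDomain (pushP (t : A →ₐ[k] A) t.surjective) c)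
  rw [← Finsupp.mapDomain_comp]
  congr 1

/-- The generic point of a fibre is mapped to the generic point of a fibre. -/
lemma pushP_lineP {n : ℕ} (t : A ≃ₐ[k] A) (t' : A[X] ≃ₐ[k] A[X])
    (h : ∀ a, t' (C a) = C (t a)) (p : RP k A n) :
    pushP (t' : A[X] →ₐ[k] A[X]) t'.surjective
        (lineP (CC k A) (RingEquiv.refl _) (fun _ => rfl) p) =
      lineP (CC k A) (RingEquiv.refl _) (fun _ => rfl)
        (pushP (t : A →ₐ[k] A) t.surjective p) := by
  set P := pushP (t' : A[X] →ₐ[k] A[X]) t'.surjective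
        (lineP (CC k A) (RingEquiv.refl _) (fun _ => rfl) p) with hP
  have h1 : PrimeSpectrum.comap (CC k A).toRingHom P.1 =
      (pushP (t : A →ₐ[k] A) t.surjective p).1 := by
    have h2 : ((t' : A[X] →ₐ[k] A[X]).toRingHom).comp (CC k A).toRingHom =
        ((CC k A).toRingHom).comp (t : A →ₐ[k] A).toRingHom := by
      ext1 a
      exact h a
    have h3 : PrimeSpectrum.comap (CC k A).toRingHom P.1 =
        PrimeSpectrum.comap (((t' : A[X] →ₐ[k] A[X]).toRingHom).comp (CC k A).toRingHom)
          (lineP (CC k A) (RingEquiv.refl _) (fun _ => rfl) p).1 := rfl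
    rw [h3, h2]
    have h4 : PrimeSpectrum.comap (((CC k A).toRingHom).comp (t : A →ₐ[k] A).toRingHom)
          (lineP (CC k A) (RingEquiv.refl _) (fun _ => rfl) p).1 =
        PrimeSpectrum.comap (t : A →ₐ[k] A).toRingHom
          (PrimeSpectrum.comap (CC k A).toRingHom
            (lineP (CC k A) (RingEquiv.refl _) (fun _ => rfl) p).1) := rfl
    rw [h4, comap_lineP]
    rfl
  have h5 : rdim k (PrimeSpectrum.comap (CC k A).toRingHom P.1) = n := by
    rw [h1]
    exact (pushP (t : A →ₐ[k] A) t.surjective p).2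
  rw [eq_lineP (CC k A) (RingEquiv.refl _) (fun _ => rfl) P h5]
  congr 1
  exact Subtype.ext h1

end OLN_aux

open _root_.QCV.OLN_aux in
theorem t_OLN : S_OLN.{v} := by
  intro k E _ _ T hT A _ _ _ t t' htt i h
  let L : Line (aff k A[X]) (aff k A) := lineE (CC k A) (RingEquiv.refl _) (fun _ => rfl)
  constructor
  · intro n hn m
    obtain ⟨n', rfl⟩ : ∃ n', n = n' + 2 := ⟨n - 2, by omega⟩
    obtain ⟨x, rfl⟩ := (hT.line_bij i n' L).surjective m
    have h1 := hT.line_nat i n' L L (viso t') (viso t) (by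
      change Spec.map (CommRingCat.ofHom (t' : A[X] →ₐ[k] A[X]).toRingHom) ≫
          Spec.map (CommRingCat.ofHom (CC k A).toRingHom) =
        Spec.map (CommRingCat.ofHom (CC k A).toRingHom) ≫
          Spec.map (CommRingCat.ofHom (t : A →ₐ[k] A).toRingHom)
      rw [← Spec.map_comp, ← Spec.map_comp, ← CommRingCat.ofHom_comp, ← CommRingCat.ofHom_comp]
      congr 2
      ext1 a
      exact htt a) x
    have h2 : (viso t').cl = autc t' := rfl
    have h3 : (viso t).cl = autc t := rfl
    rw [h2, h3, h.hom n' (by omega) x] at h1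
    exact h1
  · intro c
    obtain ⟨c0, rfl⟩ := (cyE (k := k) (A := A[X]) E (i + 1)).surjective c
    obtain ⟨v, d, h1, h2⟩ := (CUB.Asm.s_L0 k A E).1 i c0
    have hd : d = Finsupp.mapDomain (lineP (CC k A) (RingEquiv.refl _) (fun _ => rfl)) v :=
      (isPull_line_iff (CC k A) (RingEquiv.refl _) (fun _ => rfl) v d).mp h1
    have h3 : v - push E (t : A →ₐ[k] A) t.surjective v ∈ rat k A E i := by
      rw [← cyE_mem, map_sub, ← pushCyc_cyE]
      exact h.cyc _
    have h4 : IsPull k E 1 (CC k A) (v - push E (t : A →ₐ[k] A) t.surjective v)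
        (d - push E (t' : A[X] →ₐ[k] A[X]) t'.surjective d) := by
      rw [isPull_line_iff (CC k A) (RingEquiv.refl _) (fun _ => rfl)]
      have h5 : push E (t' : A[X] →ₐ[k] A[X]) t'.surjective d =
          Finsupp.mapDomain (lineP (CC k A) (RingEquiv.refl _) (fun _ => rfl))
            (push E (t : A →ₐ[k] A) t.surjective v) := by
        rw [hd]
        change Finsupp.mapDomain (pushP (t' : A[X] →ₐ[k] A[X]) t'.surjective)
            (Finsupp.mapDomain (lineP (CC k A) (RingEquiv.refl _) (fun _ => rfl)) v) =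
          Finsupp.mapDomain (lineP (CC k A) (RingEquiv.refl _) (fun _ => rfl))
            (Finsupp.mapDomain (pushP (t : A →ₐ[k] A) t.surjective) v)
        rw [← Finsupp.mapDomain_comp, ← Finsupp.mapDomain_comp]
        congr 1
        funext p
        exact pushP_lineP t t' htt p
      rw [h5, hd]
      exact ((Finsupp.lmapDomain E E (lineP (CC k A) (RingEquiv.refl _)
        (fun _ => rfl))).map_sub _ _).symm
    have h6 : d - push E (t' : A[X] →ₐ[k] A[X]) t'.surjective d ∈ rat k A[X] E (i + 1) := by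
      have := CUB.Asm.s_FP k A A[X] E 1 i (CC k A) (CUB.Asm.s_GX.1 k A) ⊥ _ _ h4 h3
      rwa [Ideal.map_bot] at this
    have h7 : cyE E (i + 1) (c0 - d) ∈ ratZero E (i + 1) (aff k A[X]) := cyE_mem _ |>.mpr h2
    have h8 : pushCyc (autc t') (cyE E (i + 1) (c0 - d)) ∈ ratZero E (i + 1) (aff k A[X]) :=
      pushCyc_ratZero _ _ h7
    have h9 : cyE E (i + 1) (d - push E (t' : A[X] →ₐ[k] A[X]) t'.surjective d) ∈
        ratZero E (i + 1) (aff k A[X]) := cyE_mem _ |>.mpr h6
    rw [pushCyc_cyE] at h8 ⊢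
    have h10 : cyE E (i + 1) c0 -
        cyE E (i + 1) (push E (t' : A[X] →ₐ[k] A[X]) t'.surjective c0) =
        cyE E (i + 1) (c0 - d) + cyE E (i + 1) (d - push E (t' : A[X] →ₐ[k] A[X]) t'.surjective d) -
          cyE E (i + 1) (push E (t' : A[X] →ₐ[k] A[X]) t'.surjective (c0 - d)) := by
      simp only [map_sub]
      abel
    rw [h10]
    exact Submodule.sub_mem _ (Submodule.add_mem _ h7 h9) h8

end QCV


end

section

/-!
# QCV, module OODD: quadric cones in an odd number of variables (assembly)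
-/

set_option autoImplicit false

open CategoryTheory AlgebraicGeometry Polynomial

namespace QCV

open Pool.Agent.Lib_helper55.Beil Pool.Agent.Lib_helper66.OneP CUB

universe v

namespace OODD

/-- in characteristic two the involution `t ↦ - t` is the identity -/
lemma dinv_eq_self (k : Type) [Field k] {S : Type} [CommRing S] [Algebra k S] (c : S)
    (h2 : (2 : k) = 0) (x : Dr S 0 c) : dinv 0 c k x = x := by
  have h : dinvHom 0 c = RingHom.id (Dr S 0 c) := by
    apply AdjoinRoot.ringHom_ext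
    · ext a
      exact dinvHom_of 0 c a
    · change dinvHom 0 c (rt 0 c) = rt 0 c
      rw [dinvHom_rt, map_zero, neg_zero, zero_sub]
      have h3 : (2 : Dr S 0 c) = 0 := by
        have h4 := congrArg (algebraMap k (Dr S 0 c)) h2
        rwa [map_ofNat, map_zero] at h4
      linear_combination (- (rt 0 c)) * h3
  exact RingHom.congr_fun h x

variable {k : Type} [Field k] {E : Type} [Field E] {T : ∀ i : ℕ, Homology.{v} k E i}

lemma ppf_mv [Finite k] [CharZero E] (hT : Full T) (hP : Pub T hT) (A : Type) [CommRing A]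
    [Algebra k A] [Algebra.FiniteType k A] (n : ℕ) (hA : PPF T (aff k A)) :
    PPF T (aff k (MvPolynomial (Fin n) A)) :=
  (Asm.s_PLY k (fun A [CommRing A] [Algebra k A] [Algebra.FiniteType k A] => PPF T (aff k A))
    (cls0_ppf hT hP) (fun A _ _ _ h => ppf_line hT hP A h) A n).1 hA

/-- the claim in the levels `i ≥ m` -/
lemma claim [Finite k] [CharZero E] (h1 : S_ONIL.{v}) (h2 : S_ODIA.{v}) (h3 : S_OPFD.{v})
    (hT : Full T) (S : DblMaps T) (hP : Pub T hT) (hF : S.Frobenius)
    (hD : S.Degree hT.toProperMaps) (hC : S.Classes) (hG : S.Galois hT.toProperMaps) (A : Type)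
    [CommRing A] [Algebra k A] [Algebra.FiniteType k A] (m : ℕ) (b : Fin (2 * m) → A)
    (hb : ∀ j, IsUnit (b j)) (hA : PPF T (aff k A)) (i : ℕ) (hi : m ≤ i) :
    PF (T i) (aff k (Dr (MvPolynomial (Fin (2 * m)) A) 0 (dia b))) := by
  refine h3 k E T hT S hP hF hD hC hG (MvPolynomial (Fin (2 * m)) A) 0 (dia b) i
    (ppf_mv hT hP A (2 * m) hA i) ?_
  by_cases h : (2 : k) = 0
  · refine h1 k E T hT _ _ (fun x => ?_) i
    rw [dinv_eq_self k _ h, sub_self]
    exact IsNilpotent.zero
  · exact h2 k E T hT hP h m A b hb i hi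

end OODD

theorem t_OODD : M_OODD.{v} := by
  intro h1 h2 h3 h4 h5 k E _ _ _ _ T hT S hP hS hF hD hC hG A _ _ _ m a ha hA i
  obtain ⟨u, hu⟩ := ha 0
  have hb : ∀ j : Fin (2 * m), IsUnit (a j.succ * (↑u⁻¹ : A)) :=
    fun j => (ha _).mul (Units.isUnit _)
  have hba : ∀ j : Fin (2 * m), a j.succ * (↑u⁻¹ : A) * a 0 = a j.succ := by
    intro j
    rw [← hu, mul_assoc, Units.inv_mul, mul_one]
  obtain ⟨e⟩ := h4 k A (2 * m) a (fun j => a j.succ * (↑u⁻¹ : A)) (ha 0) hba
  refine pf_viso hT hP i (viso e) ?_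
  refine pf_mv_desc hT hP hS _ i m ?_
  obtain ⟨e'⟩ := h5 k A (2 * m) m (fun j => a j.succ * (↑u⁻¹ : A))
  refine pf_viso hT hP (i + m) (viso e'.symm) ?_
  exact OODD.claim h1 h2 h3 hT S hP hF hD hC hG (MvPolynomial (Fin m) A) m
    (fun j => MvPolynomial.C (a j.succ * (↑u⁻¹ : A))) (fun j => (hb j).map _)
    (OODD.ppf_mv hT hP A m hA) (i + m) (by omega)

end QCV


end

section

/-!
# QCV, block O, module QSW (helper91)
-/

set_option autoImplicit false

open Polynomial

namespace QCV

open CUB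

theorem t_QSW : S_QSW := by
  intro k R _ _ _ n q f
  let e : MvPolynomial (Fin q) (MvPolynomial (Fin n) R) ≃ₐ[k]
      MvPolynomial (Fin n) (MvPolynomial (Fin q) R) :=
    (MvPolynomial.commAlgEquiv R (Fin q) (Fin n)).restrictScalars k
  have he : e (fs f) = gen f := by
    change MvPolynomial.commAlgEquiv R (Fin q) (Fin n) (fs f) = _
    unfold fs gen
    rw [map_add, map_sum, MvPolynomial.commAlgEquiv_C]
    congr 1
    apply Finset.sum_congr rfl
    intro j _
    rw [map_mul, MvPolynomial.commAlgEquiv_C, MvPolynomial.commAlgEquiv_X]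
  refine ⟨Ideal.quotientEquivAlg _ _ e ?_⟩
  rw [Ideal.map_span, Set.image_singleton, Set.range_const]
  exact congrArg (fun z => Ideal.span {z}) he.symm

end QCV


end

section

/-!
# QCV_ESG: existence of sign automorphisms
-/

set_option autoImplicit false

open CategoryTheory AlgebraicGeometry Polynomial

namespace QCV

open Pool.Agent.Lib_helper55.Beil Pool.Agent.Lib_helper66.OneP CUB

theorem t_ESG : S_ESG := by
  intro k B _ _ _ n F ε hε hF
  let s : MvPolynomial (Fin n) B →ₐ[B] MvPolynomial (Fin n) B :=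
    MvPolynomial.aeval (fun j => ε j • (MvPolynomial.X j : MvPolynomial (Fin n) B))
  have hs : s.comp s = AlgHom.id B (MvPolynomial (Fin n) B) := by
    apply MvPolynomial.algHom_ext
    intro j
    simp only [s, AlgHom.comp_apply, MvPolynomial.aeval_X, map_zsmul, smul_smul, hε j, one_smul,
      AlgHom.id_apply]
  have hsk : (s.restrictScalars k).comp (s.restrictScalars k) =
      AlgHom.id k (MvPolynomial (Fin n) B) := by
    refine AlgHom.ext fun x => ?_
    exact DFunLike.congr_fun hs x
  let e : MvPolynomial (Fin n) B ≃ₐ[k] MvPolynomial (Fin n) B :=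
    AlgEquiv.ofAlgHom (s.restrictScalars k) (s.restrictScalars k) hsk hsk
  have he : ∀ x, e x = s x := fun _ => rfl
  have hI : Ideal.span {F} = (Ideal.span {F}).map (e : MvPolynomial (Fin n) B →+* _) := by
    rw [Ideal.map_span, Set.image_singleton]
    congr 2
    exact hF.symm
  refine ⟨Ideal.quotientEquivAlg _ _ e hI, ?_, ?_⟩
  · intro b
    rw [Ideal.quotientEquivAlg_mk, he]
    congr 1
    exact MvPolynomial.aeval_C _ b
  · intro j
    rw [Ideal.quotientEquivAlg_mk, he]
    change Ideal.Quotient.mk _ (s (MvPolynomial.X j)) = _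
    rw [show s (MvPolynomial.X j) = ε j • MvPolynomial.X j from MvPolynomial.aeval_X _ j, map_zsmul]

end QCV


end

section

/-!
# QCV, module EVS
-/

set_option autoImplicit false

open Polynomial

namespace QCV

open CUB

namespace EVS

lemma gen_homog {R : Type} [CommRing R] {n q : ℕ} (f : Fin (q + 1) → MvPolynomial (Fin n) R)
    (h : ∀ j, (f j).IsHomogeneous 2) : (gen f).IsHomogeneous 2 := by
  unfold gen
  refine MvPolynomial.IsHomogeneous.add ((h 0).map _) ?_
  refine MvPolynomial.IsHomogeneous.sum _ _ _ fun j _ => ?_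
  exact ((h j.succ).map _).C_mul _

end EVS

theorem t_EVS : M_EVS := by
  intro hEOD k _ P d h2 hP hE R _ _ _ _ m q e f hed hqe hDL hf hdet hD
  have hS' : P (MvPolynomial (Fin q) (MvPolynomial (Fin (2 * m)) R)) :=
    (Asm.s_PLY k P hP.toCls0 hP.line _ q).1 ((Asm.s_PLY k P hP.toCls0 hP.line R (2 * m)).1
      (hP.base R (hDL.mono hed)))
  have hB : DL k (MvPolynomial (Fin q) R) (d + 1) :=
    (Asm.s_DLM k R e q hDL).mono (by omega)
  have hPB : P (MvPolynomial (Fin q) R) :=
    (Asm.s_PLY k P hP.toCls0 hP.line R q).1 (hP.base R (hDL.mono hed))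
  obtain ⟨e1⟩ := t_QSW k R (2 * m) q f
  have h1 : P (MvPolynomial (Fin q) (MvPolynomial (Fin (2 * m)) R) ⧸ Ideal.span {fs f}) :=
    hP.iso e1.symm (hEOD k P d h2 hP hE (MvPolynomial (Fin q) R) m (gen f) hB hPB
      (EVS.gen_homog f hf) hdet hD)
  have h3 := Asm.s_V1P k P hP.toCls0 hP.line (MvPolynomial (Fin q) (MvPolynomial (Fin (2 * m)) R))
    (fs f) hS' h1
  have h4 := Asm.s_VRP k P d e (2 * m) q hP hed (by omega) R (fun j : Fin q => f j.succ) hDL
    (fun j => (hf _).totalDegree_le)
  obtain ⟨z', u', hs⟩ := Asm.s_VRQ k (MvPolynomial (Fin (2 * m)) R) q f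
  exact hP.glue _ z' u' hs h4 h3

end QCV


end
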