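import Mathlib
import Pool.Agent.QVM.C45
import Pool.Agent.QVM.C47

/-! Parts: QCV.O_ODR, QCV.QDF, QCV.O_QDS, QCV.O_QDP, QCV.O_QOD, QCV.E_EOD -/

section

/-!
# QCV, module ODR (helper44): the quadric cone in an odd number of variables as a double cover
-/

set_option autoImplicit false

open Polynomial

namespace QCV

namespace ODR

variable {A : Type} [CommRing A] {n : ℕ}

lemma fin_dia (a : Fin (n + 1) → A) (b : Fin n → A) (h : ∀ j, b j * a 0 = a j.succ) :
    MvPolynomial.finSuccEquiv A n (dia a) =
      C (MvPolynomial.C (a 0)) * dpoly (0 : MvPolynomial (Fin n) A) (dia b) := by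
  have h1 : ∀ r : A, MvPolynomial.finSuccEquiv A n (MvPolynomial.C r) =
      C (MvPolynomial.C r) := fun r => by
    rw [MvPolynomial.finSuccEquiv_apply, MvPolynomial.eval₂Hom_C]
    rfl
  rw [dia, Fin.sum_univ_succ, map_add, map_mul, map_pow, h1, MvPolynomial.finSuccEquiv_X_zero,
    map_sum, dpoly, dia, map_sum, map_zero, zero_mul, add_zero, mul_add, Finset.mul_sum]
  congr 1
  refine Finset.sum_congr rfl fun j _ => ?_
  rw [map_mul, map_pow, h1, MvPolynomial.finSuccEquiv_X_succ, ← h j, mul_comm (b j), map_mul,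
    map_mul, map_mul, map_pow, mul_assoc]

end ODR

open _root_.QCV.ODR in
/-- ODR: the quadric cone in an odd number of variables as a double cover. -/
theorem t_ODR : S_ODR := by
  intro k A _ _ _ n a b h0 h
  have hu : IsUnit (C (MvPolynomial.C (a 0)) : (MvPolynomial (Fin n) A)[X]) :=
    (h0.map MvPolynomial.C).map C
  have hI : (Ideal.span {dpoly (0 : MvPolynomial (Fin n) A) (dia b)} :
      Ideal (MvPolynomial (Fin n) A)[X]) =
      (Ideal.span {dia a}).map
        (((MvPolynomial.finSuccEquiv A n).restrictScalars k : MvPolynomial (Fin (n + 1)) A ≃ₐ[k]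
          (MvPolynomial (Fin n) A)[X]) : MvPolynomial (Fin (n + 1)) A →+*
          (MvPolynomial (Fin n) A)[X]) := by
    rw [Ideal.map_span, Set.image_singleton]
    have h2 : (((MvPolynomial.finSuccEquiv A n).restrictScalars k :
        MvPolynomial (Fin (n + 1)) A ≃ₐ[k] (MvPolynomial (Fin n) A)[X]) :
        MvPolynomial (Fin (n + 1)) A →+* (MvPolynomial (Fin n) A)[X]) (dia a) =
        C (MvPolynomial.C (a 0)) * dpoly (0 : MvPolynomial (Fin n) A) (dia b) := fin_dia a b h
    rw [h2, Ideal.span_singleton_mul_left_unit hu]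
  exact ⟨Ideal.quotientEquivAlg (Ideal.span {dia a}) _
    ((MvPolynomial.finSuccEquiv A n).restrictScalars k) hI⟩

end QCV


end

section

/-!
# QCV, module QDF: diagonalisation of a symmetric matrix over a field
-/

set_option autoImplicit false

open Matrix

namespace QCV

theorem QDF_body (K : Type) [Field K] (n : ℕ) (G : Matrix (Fin n) (Fin n) K) (h2 : (2 : K) ≠ 0) (hG : G.transpose = G) :
    ∃ (P : Matrix (Fin n) (Fin n) K) (w : Fin n → K), IsUnit P.det ∧
      P.transpose * G * P = Matrix.diagonal w ∧ ∀ j : Fin n, w j ≠ 0 ↔ j.1 < G.rank := by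
  classical
  have inv2 : Invertible (2 : K) := invertibleOfNonzero h2
  let B : LinearMap.BilinForm K (Fin n → K) := Matrix.toBilin' G
  have hBa : ∀ x y, B x y = x ⬝ᵥ (G *ᵥ y) := fun x y => Matrix.toBilin'_apply' G x y
  have hB : LinearMap.IsSymm B := by
    refine ⟨fun x y => ?_⟩
    rw [RingHom.id_apply, hBa, hBa, Matrix.dotProduct_mulVec, ← Matrix.mulVec_transpose, hG,
      dotProduct_comm]
  obtain ⟨v0, hv0⟩ := LinearMap.BilinForm.exists_orthogonal_basis hB
  have hn : Module.finrank K (Fin n → K) = n := by simp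
  let v : Module.Basis (Fin n) K (Fin n → K) := v0.reindex (finCongr hn)
  have hv : ∀ i j, i ≠ j → B (v i) (v j) = 0 := by
    intro i j hij
    have h1 : v i = v0 ((finCongr hn).symm i) := by simp [v]
    have h3 : v j = v0 ((finCongr hn).symm j) := by simp [v]
    rw [h1, h3]
    exact hv0 (fun h => hij ((finCongr hn).symm.injective h))
  let P0 : Matrix (Fin n) (Fin n) K := (Pi.basisFun K (Fin n)).toMatrix v
  have hP0 : ∀ i j, P0 i j = v j i := by
    intro i j
    simp [P0, Module.Basis.toMatrix_apply]
  have hdet : IsUnit P0.det := by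
    have := (Pi.basisFun K (Fin n)).isUnit_det v
    rwa [Module.Basis.det_apply] at this
  let w0 : Fin n → K := fun j => B (v j) (v j)
  have hdiag : P0.transpose * G * P0 = Matrix.diagonal w0 := by
    ext i j
    have h1 : (P0.transpose * G * P0) i j = B (v i) (v j) := by
      rw [hBa, Matrix.mul_assoc]
      rw [Matrix.mul_apply]
      simp only [Matrix.transpose_apply, hP0, dotProduct]
      refine Finset.sum_congr rfl fun l _ => ?_
      congr 1
    rw [h1]
    by_cases h : i = j
    · subst h
      rw [Matrix.diagonal_apply_eq]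
    · rw [Matrix.diagonal_apply_ne _ h]
      exact hv i j h
  have hrank : G.rank = Fintype.card {i // w0 i ≠ 0} := by
    rw [← Matrix.rank_diagonal w0, ← hdiag, Matrix.rank_mul_eq_left_of_isUnit_det _ _ hdet,
      Matrix.rank_mul_eq_right_of_isUnit_det _ _ (by rwa [Matrix.det_transpose])]
  have hrn : G.rank ≤ n := by
    have := Matrix.rank_le_card_width G
    simpa using this
  have hcard : Fintype.card {j : Fin n // j.1 < G.rank} = Fintype.card {i // w0 i ≠ 0} := by
    rw [← hrank]
    rw [Fintype.card_subtype]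
    have h1 : (Finset.univ.filter fun j : Fin n => j.1 < G.rank).card = G.rank := by
      rw [Fin.card_filter_val_lt]
      omega
    exact h1
  let e := Fintype.equivOfCardEq hcard
  let σ : Equiv.Perm (Fin n) := e.extendSubtype
  refine ⟨P0.submatrix id σ, w0 ∘ σ, ?_, ?_, ?_⟩
  · rw [Matrix.det_permute']
    exact (((Equiv.Perm.sign σ).isUnit.map (Int.castRingHom K))).mul hdet
  · rw [← Matrix.submatrix_diagonal_equiv, ← hdiag]
    ext i j
    simp [Matrix.mul_apply, Matrix.submatrix_apply, Matrix.transpose_apply]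
  · intro j
    constructor
    · intro h
      by_contra hj
      exact e.extendSubtype_not_mem j hj h
    · intro h
      exact e.extendSubtype_mem j h

theorem t_QDF : S_QDF := fun K _ n G h2 hG => QDF_body K n G h2 hG

end QCV


end

section

set_option autoImplicit false

/-!
# QDS: diagonalisation of a symmetric matrix over a localisation of a domain
-/

namespace QCV

theorem t_QDS : M_QDS := by
  intro hF D _ _ n G h2 hG
  classical
  set φ : D →+* FractionRing D := algebraMap D (FractionRing D) with hφ
  have hinj : Function.Injective φ := IsFractionRing.injective D (FractionRing D)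
  have h2' : (2 : FractionRing D) ≠ 0 := by
    intro h
    apply h2
    apply hinj
    rw [map_ofNat, map_zero, h]
  obtain ⟨P', w', hP', hw', hr⟩ := hF (FractionRing D) n (G.map φ) h2' (by
    rw [← Matrix.transpose_map, hG])
  obtain ⟨s, hs⟩ := IsLocalization.exist_integer_multiples (nonZeroDivisors D)
    (Finset.univ : Finset (Fin n × Fin n)) (fun ij => P' ij.1 ij.2)
  have hs' : ∀ i j, ∃ d : D, φ d = φ s.1 * P' i j := by
    intro i j
    obtain ⟨d, hd⟩ := hs (i, j) (Finset.mem_univ _)
    exact ⟨d, by rw [hφ, hd, Algebra.smul_def]⟩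
  choose P₀ hP₀ using hs'
  have hs0 : φ s.1 ≠ 0 := by
    rw [Ne, ← map_zero φ, hinj.eq_iff]
    exact nonZeroDivisors.ne_zero s.2
  have hPm : (Matrix.of P₀).map φ = φ s.1 • P' := by
    ext i j
    simp only [Matrix.map_apply, Matrix.of_apply, Matrix.smul_apply, smul_eq_mul, hP₀]
  have hW : ((Matrix.of P₀).transpose * G * Matrix.of P₀).map φ =
      Matrix.diagonal fun j => φ s.1 ^ 2 * w' j := by
    rw [Matrix.map_mul, Matrix.map_mul, Matrix.transpose_map, hPm, Matrix.transpose_smul,
      Matrix.smul_mul, Matrix.smul_mul, Matrix.mul_smul, hw', smul_smul]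
    ext i j
    by_cases h : i = j
    · subst h
      simp [sq]
    · simp [Matrix.diagonal_apply_ne _ h]
  set W₀ : Matrix (Fin n) (Fin n) D := (Matrix.of P₀).transpose * G * Matrix.of P₀ with hW₀
  have hWe : ∀ i j, φ (W₀ i j) = (Matrix.diagonal fun j => φ s.1 ^ 2 * w' j) i j := by
    intro i j
    rw [← hW, Matrix.map_apply]
  have hWd : W₀ = Matrix.diagonal fun j => W₀ j j := by
    ext i j
    by_cases h : i = j
    · subst h
      rw [Matrix.diagonal_apply_eq]
    · rw [Matrix.diagonal_apply_ne _ h]
      apply hinj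
      rw [hWe, Matrix.diagonal_apply_ne _ h, map_zero]
  have hWj : ∀ j, W₀ j j ≠ 0 ↔ j.1 < (G.map φ).rank := by
    intro j
    rw [← hr j, ← hinj.ne_iff, hWe, Matrix.diagonal_apply_eq, map_zero]
    exact mul_ne_zero_iff_left (pow_ne_zero 2 hs0)
  have hdet : (Matrix.of P₀).det ≠ 0 := by
    rw [← hinj.ne_iff, map_zero, RingHom.map_det, RingHom.mapMatrix_apply, hPm, Matrix.det_smul]
    exact mul_ne_zero (pow_ne_zero _ hs0) hP'.ne_zero
  refine ⟨(Matrix.of P₀).det * ∏ j, (if W₀ j j = 0 then 1 else W₀ j j), ?_, ?_⟩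
  · refine mul_ne_zero hdet (Finset.prod_ne_zero_iff.2 fun j _ => ?_)
    split_ifs with h
    · exact one_ne_zero
    · exact h
  · set a : D := (Matrix.of P₀).det * ∏ j, (if W₀ j j = 0 then 1 else W₀ j j) with ha
    have hau : IsUnit (algebraMap D (Localization.Away a) a) :=
      IsLocalization.Away.algebraMap_isUnit a
    refine ⟨(Matrix.of P₀).map (algebraMap D (Localization.Away a)),
      fun j => algebraMap D (Localization.Away a) (W₀ j j), ?_, ?_, fun j => ⟨fun hj => ?_, fun hj => ?_⟩⟩
    · have h := RingHom.map_det (algebraMap D (Localization.Away a)) (Matrix.of P₀)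
      rw [RingHom.mapMatrix_apply] at h
      rw [← h]
      exact isUnit_of_dvd_unit (map_dvd _ (Dvd.intro _ rfl)) hau
    · rw [← Matrix.transpose_map, ← Matrix.map_mul, ← Matrix.map_mul, ← hW₀]
      conv_lhs => rw [hWd]
      rw [Matrix.diagonal_map (map_zero _)]
    · have h0 := (hWj j).2 hj
      refine isUnit_of_dvd_unit (map_dvd _ ?_) hau
      refine Dvd.dvd.mul_left ?_ _
      have h1 : (if W₀ j j = 0 then 1 else W₀ j j) = W₀ j j := if_neg h0
      calc W₀ j j = (if W₀ j j = 0 then 1 else W₀ j j) := h1.symm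
        _ ∣ _ := Finset.dvd_prod_of_mem (fun j => if W₀ j j = 0 then 1 else W₀ j j)
          (Finset.mem_univ j)
    · have h0 : W₀ j j = 0 := by
        by_contra h
        exact hj ((hWj j).1 h)
      change algebraMap D (Localization.Away a) (W₀ j j) = 0
      rw [h0, map_zero]

end QCV


end

section

/-!
# QCV, module QDP: linear substitution diagonalises a quadratic form
-/

set_option autoImplicit false

open MvPolynomial

namespace QCV

namespace QDP

variable {B : Type} [CommRing B] {n : ℕ}

/-- Euler's identity for a quadratic form -/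
theorem two_mul_form (f : MvPolynomial (Fin n) B) (hf : f.IsHomogeneous 2) :
    2 * f = ∑ j, ∑ i, C (gram f i j) * X i * X j := by
  have h1 := hf.sum_X_mul_pderiv
  have h2 : ∀ j, pderiv j f = ∑ i, X i * pderiv i (pderiv j f) := by
    intro j
    have := (hf.pderiv (i := j)).sum_X_mul_pderiv
    rw [this]
    simp
  have h3 : ∀ i j, pderiv i (pderiv j f) = C (gram f i j) := by
    intro i j
    have h4 := (hf.pderiv (i := j)).pderiv (i := i)
    have h5 := (totalDegree_zero_iff_isHomogeneous _).2 h4
    exact totalDegree_eq_zero_iff_eq_C.1 h5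
  have h6 : (2 : MvPolynomial (Fin n) B) * f = 2 • f := by
    rw [nsmul_eq_mul]
    norm_num
  rw [h6, ← h1]
  refine Finset.sum_congr rfl fun j _ => ?_
  rw [h2 j, Finset.mul_sum]
  refine Finset.sum_congr rfl fun i _ => ?_
  rw [h3 i j]
  ring

/-- the linear substitution with matrix `P` -/
noncomputable def sub (P : Matrix (Fin n) (Fin n) B) :
    MvPolynomial (Fin n) B →ₐ[B] MvPolynomial (Fin n) B :=
  aeval fun i => ∑ a, C (P i a) * X a

theorem sub_X (P : Matrix (Fin n) (Fin n) B) (i : Fin n) :
    sub P (X i) = ∑ a, C (P i a) * X a := by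
  rw [sub, aeval_X]

theorem sub_C (P : Matrix (Fin n) (Fin n) B) (b : B) : sub P (C b) = C b := by
  rw [sub, aeval_C]
  rfl

theorem sub_comp (P Q : Matrix (Fin n) (Fin n) B) : (sub Q).comp (sub P) = sub (P * Q) := by
  apply algHom_ext
  intro i
  rw [AlgHom.comp_apply, sub_X, sub_X, map_sum]
  have h : ∀ a, sub Q (C (P i a) * X a) = ∑ b, C (P i a * Q a b) * X b := by
    intro a
    rw [map_mul, sub_C, sub_X, Finset.mul_sum]
    refine Finset.sum_congr rfl fun b _ => ?_
    rw [C_mul, mul_assoc]
  rw [Finset.sum_congr rfl fun a _ => h a, Finset.sum_comm]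
  refine Finset.sum_congr rfl fun b _ => ?_
  rw [Matrix.mul_apply, map_sum, Finset.sum_mul]

theorem sub_one : sub (1 : Matrix (Fin n) (Fin n) B) = AlgHom.id B _ := by
  apply algHom_ext
  intro i
  rw [sub_X, Finset.sum_eq_single i]
  · simp
  · intro b _ hb
    rw [Matrix.one_apply_ne hb.symm, C_0, zero_mul]
  · simp

theorem sub_form (f : MvPolynomial (Fin n) B) (hf : f.IsHomogeneous 2)
    (P : Matrix (Fin n) (Fin n) B) (w : Fin n → B)
    (h : P.transpose * gram f * P = Matrix.diagonal w) : 2 * sub P f = dia w := by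
  have h1 : 2 * sub P f = sub P (2 * f) := by
    rw [map_mul, map_ofNat]
  rw [h1, two_mul_form f hf]
  simp only [map_sum, map_mul, sub_C, sub_X]
  have h2 : ∀ a b, ∑ j, ∑ i, P i a * gram f i j * P j b = if a = b then w a else 0 := by
    intro a b
    have h3 := congrFun (congrFun h a) b
    rw [Matrix.diagonal_apply] at h3
    rw [← h3, Matrix.mul_apply]
    refine Finset.sum_congr rfl fun j _ => ?_
    rw [Matrix.mul_apply, Finset.sum_mul]
    rfl
  calc ∑ j, ∑ i, C (gram f i j) * (∑ a, C (P i a) * X a) * (∑ b, C (P j b) * X b)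
      = ∑ j, ∑ i, ∑ a, ∑ b, C (P i a * gram f i j * P j b) * (X a * X b) := by
        refine Finset.sum_congr rfl fun j _ => Finset.sum_congr rfl fun i _ => ?_
        rw [mul_assoc, Finset.sum_mul_sum, Finset.mul_sum]
        refine Finset.sum_congr rfl fun a _ => ?_
        rw [Finset.mul_sum]
        refine Finset.sum_congr rfl fun b _ => ?_
        rw [C_mul, C_mul]
        ring
    _ = ∑ a, ∑ b, C (∑ j, ∑ i, P i a * gram f i j * P j b) * (X a * X b) := by
        rw [Finset.sum_congr rfl fun j _ => Finset.sum_comm]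
        rw [Finset.sum_comm]
        refine Finset.sum_congr rfl fun a _ => ?_
        rw [Finset.sum_congr rfl fun j _ => Finset.sum_comm]
        rw [Finset.sum_comm]
        refine Finset.sum_congr rfl fun b _ => ?_
        rw [map_sum, Finset.sum_mul]
        refine Finset.sum_congr rfl fun j _ => ?_
        rw [map_sum, Finset.sum_mul]
    _ = dia w := by
        rw [dia]
        refine Finset.sum_congr rfl fun a _ => ?_
        rw [Finset.sum_eq_single a]
        · rw [h2 a a, if_pos rfl]
          ring
        · intro b _ hb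
          rw [h2 a b, if_neg hb.symm, C_0, zero_mul]
        · simp

end QDP

open _root_.QCV.QDP in
theorem t_QDP : S_QDP := by
  intro k B _ _ _ n f P w v h2 hf hP h hv
  have hPQ : P * P⁻¹ = 1 := Matrix.mul_nonsing_inv P hP
  have hQP : P⁻¹ * P = 1 := Matrix.nonsing_inv_mul P hP
  let φ : MvPolynomial (Fin n) B ≃ₐ[B] MvPolynomial (Fin n) B :=
    AlgEquiv.ofAlgHom (sub P) (sub P⁻¹)
      (by rw [sub_comp, hQP, sub_one]) (by rw [sub_comp, hPQ, sub_one])
  have hφ : φ f = dia v := by
    have h3 : (2 : MvPolynomial (Fin n) B) * φ f = 2 * dia v := by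
      refine (sub_form f hf P w h).trans ?_
      rw [dia, dia, Finset.mul_sum]
      refine Finset.sum_congr rfl fun j _ => ?_
      rw [← hv j, C_mul, mul_assoc, map_ofNat]
    have hu : IsUnit (2 : MvPolynomial (Fin n) B) := by
      have h4 : IsUnit (algebraMap k (MvPolynomial (Fin n) B) 2) :=
        (isUnit_iff_ne_zero.2 h2).map _
      rwa [map_ofNat] at h4
    exact hu.mul_left_cancel h3
  have hφk : ∀ r : k, φ (algebraMap k (MvPolynomial (Fin n) B) r) =
      algebraMap k (MvPolynomial (Fin n) B) r := by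
    intro r
    rw [IsScalarTower.algebraMap_apply k B (MvPolynomial (Fin n) B)]
    exact φ.commutes _
  refine ⟨Ideal.quotientEquivAlg (Ideal.span {f}) (Ideal.span {dia v}) (φ.restrictScalars k) ?_⟩
  rw [Ideal.map_span, Set.image_singleton]
  congr 1
  exact congrArg _ hφ.symm

end QCV


end

section

/-!
# QCV_QOD: one quadratic form of odd generic rank (helper70)
-/

set_option autoImplicit false

open Polynomial

namespace QCV

open CUB

namespace QOD

/-- the partial derivatives commute -/
lemma pderiv_comm {A : Type} [CommRing A] {n : ℕ} (i j : Fin n) (f : MvPolynomial (Fin n) A) :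
    MvPolynomial.pderiv i (MvPolynomial.pderiv j f) =
      MvPolynomial.pderiv j (MvPolynomial.pderiv i f) := by
  have h : ⁅(MvPolynomial.pderiv i : Derivation A (MvPolynomial (Fin n) A)
        (MvPolynomial (Fin n) A)),
      (MvPolynomial.pderiv j : Derivation A (MvPolynomial (Fin n) A)
        (MvPolynomial (Fin n) A))⁆ = 0 := by
    apply MvPolynomial.derivation_ext
    intro l
    rw [Derivation.commutator_apply, MvPolynomial.pderiv_X, MvPolynomial.pderiv_X,
      Derivation.zero_apply]
    have h1 : ∀ (a b : Fin n), MvPolynomial.pderiv a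
        ((Pi.single b 1 : Fin n → MvPolynomial (Fin n) A) l) = 0 := by
      intro a b
      by_cases h : l = b
      · subst h
        rw [Pi.single_eq_same]
        exact MvPolynomial.pderiv_one
      · rw [Pi.single_eq_of_ne h, map_zero]
    rw [h1, h1, sub_zero]
  have h2 := congrArg (fun D : Derivation A (MvPolynomial (Fin n) A) (MvPolynomial (Fin n) A) =>
    D f) h
  simp only [Derivation.commutator_apply, Derivation.zero_apply] at h2
  exact sub_eq_zero.1 h2

lemma gram_transpose {A : Type} [CommRing A] {n : ℕ} (f : MvPolynomial (Fin n) A) :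
    (gram f).transpose = gram f := by
  ext i j
  rw [Matrix.transpose_apply]
  unfold gram
  rw [pderiv_comm]

lemma gram_map {A B : Type} [CommRing A] [CommRing B] {n : ℕ} (φ : A →+* B)
    (f : MvPolynomial (Fin n) A) : gram (MvPolynomial.map φ f) = (gram f).map φ := by
  ext i j
  rw [Matrix.map_apply]
  unfold gram
  rw [MvPolynomial.pderiv_map, MvPolynomial.pderiv_map, MvPolynomial.coeff_map]

end QOD

open _root_.QCV.QOD in
theorem t_QOD : M_QOD := by
  intro hQDS hQDP hQDL k _ P d h2 hP hO B _ _ _ _ n f hD hB hf hodd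
  have hinj : Function.Injective (algebraMap k B) := (algebraMap k B).injective
  have h2B : (2 : B) ≠ 0 := by
    intro h
    apply h2
    apply hinj
    rw [map_zero, map_ofNat, h]
  obtain ⟨a, ha, Pm, w, hdet, hdiag, hw⟩ := hQDS B n (gram f) h2B (gram_transpose f)
  obtain ⟨m, hm⟩ := hodd
  have hρ : 2 * m + 1 ≤ n := by
    rw [← hm]
    refine (Matrix.rank_le_width _).trans le_rfl
  rw [hm] at hw
  -- the strata of the base
  have hstrat : Strat (k := k) a (Ideal.Quotient.mkₐ k (Ideal.span {a})) (awayHom k a) := by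
    refine ⟨Ideal.Quotient.mkₐ_surjective k _, ?_, isLocalization_awayHom a⟩
    exact Ideal.Quotient.mkₐ_ker k (Ideal.span {a})
  have hDZ : DL k (B ⧸ Ideal.span {a}) d := Asm.s_DLR.2.2.2.2 k B d a ha hD
  have hZ : P (B ⧸ Ideal.span {a}) := hP.base _ hDZ
  have hU : P (Localization.Away a) := hP.opn a _ _ hstrat hB hZ
  obtain ⟨z', u', hs'⟩ := Asm.s_FAM.1 k B (B ⧸ Ideal.span {a}) (Localization.Away a) (Fin 1) n a
    _ _ (fun _ => f) hstrat
  refine hP.glue _ z' u' hs' ?_ ?_
  · refine Asm.s_QUA k P d hP n _ _ hDZ fun j => ?_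
    exact (totalDegree_map_le _ _).trans hf.totalDegree_le
  · have hf' : (MvPolynomial.map (algebraMap B (Localization.Away a)) f).IsHomogeneous 2 :=
      hf.map _
    have hdiag' : Pm.transpose *
        gram (MvPolynomial.map (algebraMap B (Localization.Away a)) f) * Pm =
        Matrix.diagonal w := by
      rw [gram_map]
      exact hdiag
    have htwo : (2 : Localization.Away a) * algebraMap k (Localization.Away a) 2⁻¹ = 1 := by
      rw [← map_ofNat (algebraMap k (Localization.Away a)) 2, ← map_mul, mul_inv_cancel₀ h2,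
        map_one]
    obtain ⟨e1⟩ := hQDP k (Localization.Away a) n
      (MvPolynomial.map (algebraMap B (Localization.Away a)) f) Pm w
      (fun j => algebraMap k (Localization.Away a) 2⁻¹ * w j) h2 hf' hdet hdiag' (fun j => by
        rw [← mul_assoc, htwo, one_mul])
    obtain ⟨e2⟩ := hQDL k (Localization.Away a) n (2 * m + 1) hρ
      (fun j => algebraMap k (Localization.Away a) 2⁻¹ * w j) (fun j hj => by
        rw [(hw j).2 hj, mul_zero])
    have hunit : IsUnit (algebraMap k (Localization.Away a) 2⁻¹) :=
      IsUnit.of_mul_eq_one_right _ htwo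
    have hS := hO (Localization.Away a) m (fun j : Fin (2 * m + 1) =>
        algebraMap k (Localization.Away a) 2⁻¹ * w (Fin.castLE hρ j))
      (fun j => hunit.mul ((hw (Fin.castLE hρ j)).1 j.2)) hU
    have hS' := (Asm.s_PLY k P hP.toCls0 hP.line _ (n - (2 * m + 1))).1 hS
    have h3 := hP.iso e1.symm (hP.iso e2.symm hS')
    have e3 : Ideal.span {MvPolynomial.map (algebraMap B (Localization.Away a)) f} =
        Ideal.span (Set.range (mf (awayHom k a).toRingHom (fun _ : Fin 1 => f))) := by
      congr 1
      ext x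
      constructor
      · rintro rfl
        exact ⟨0, rfl⟩
      · rintro ⟨j, rfl⟩
        rfl
    exact hP.iso (Ideal.quotientEquivAlgOfEq k e3) h3

end QCV


end

section

/-!
# QCV_EOD: one quadratic form of full even rank over a domain
-/

set_option autoImplicit false

open Polynomial

namespace QCV

open CUB

namespace EOD

/-- the discriminant of a diagonalised form, divided by two -/
lemma det_eq {U : Type} [CommRing U] {m : ℕ} (G Pm : Matrix (Fin (2 * m)) (Fin (2 * m)) U)
    (w : Fin (2 * m) → U) (h : U) (hd : Pm.transpose * G * Pm = Matrix.diagonal w) :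
    (-1 : U) ^ (m + 1) * ∏ j, (h * w j) = (Pm.det * h ^ m) ^ 2 * ((-1) ^ (m + 1) * G.det) := by
  have h1 := congrArg Matrix.det hd
  rw [Matrix.det_mul, Matrix.det_mul, Matrix.det_transpose, Matrix.det_diagonal] at h1
  rw [Finset.prod_mul_distrib, Finset.prod_const, Finset.card_univ, Fintype.card_fin, ← h1]
  ring

end EOD

open QOD in
theorem t_EOD : M_EOD := by
  intro hEDU hEDS k _ P d h2 hP hE B _ _ _ _ m f hD hB hf hdet0 hDr
  have hinj : Function.Injective (algebraMap k B) := (algebraMap k B).injective
  have h2B : (2 : B) ≠ 0 := by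
    intro h
    apply h2
    apply hinj
    rw [map_zero, map_ofNat, h]
  obtain ⟨a, ha, Pm, w, hdet, hdiag, hw⟩ :=
    t_QDS t_QDF B (2 * m) (gram f) h2B (gram_transpose f)
  have hrank : ((gram f).map (algebraMap B (FractionRing B))).rank = 2 * m := by
    rw [Matrix.rank_of_isUnit, Fintype.card_fin]
    rw [Matrix.isUnit_iff_isUnit_det, isUnit_iff_ne_zero]
    intro h
    apply hdet0
    apply IsFractionRing.injective B (FractionRing B)
    rw [map_zero, ← h, RingHom.map_det]
    rfl
  have hwu : ∀ j, IsUnit (w j) := fun j => (hw j).1 (by rw [hrank]; exact j.2)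
  -- the strata of the base
  have hstrat : Strat (k := k) a (Ideal.Quotient.mkₐ k (Ideal.span {a})) (awayHom k a) := by
    refine ⟨Ideal.Quotient.mkₐ_surjective k _, ?_, isLocalization_awayHom a⟩
    exact Ideal.Quotient.mkₐ_ker k (Ideal.span {a})
  have hDZ : DL k (B ⧸ Ideal.span {a}) d := Asm.s_DLR.2.2.2.2 k B d a ha hD
  -- the double cover of the open part
  obtain ⟨zd, ud, hsd⟩ := hEDS k B (B ⧸ Ideal.span {a}) (Localization.Away a) a _ _ hstrat 0
    ((-1) ^ (m + 1) * (gram f).det)
  have hDU : P (Dr (Localization.Away a) 0 (awayHom k a ((-1) ^ (m + 1) * (gram f).det))) := by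
    have hZ0 := hP.base (Dr (B ⧸ Ideal.span {a}) (Ideal.Quotient.mkₐ k (Ideal.span {a}) 0)
      (Ideal.Quotient.mkₐ k (Ideal.span {a}) ((-1) ^ (m + 1) * (gram f).det)))
      (Asm.s_DLR.2.2.1 k (B ⧸ Ideal.span {a}) _ d hDZ)
    have h3 := hP.opn _ zd ud hsd hDr hZ0
    have e0 : awayHom k a 0 = 0 := map_zero _
    rw [e0] at h3
    exact h3
  obtain ⟨z', u', hs'⟩ := Asm.s_FAM.1 k B (B ⧸ Ideal.span {a}) (Localization.Away a) (Fin 1)
    (2 * m) a _ _ (fun _ => f) hstrat
  refine hP.glue _ z' u' hs' ?_ ?_
  · refine Asm.s_QUA k P d hP (2 * m) _ _ hDZ fun j => ?_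
    exact (totalDegree_map_le _ _).trans hf.totalDegree_le
  · have hf' : (MvPolynomial.map (algebraMap B (Localization.Away a)) f).IsHomogeneous 2 :=
      hf.map _
    have hdiag' : Pm.transpose *
        gram (MvPolynomial.map (algebraMap B (Localization.Away a)) f) * Pm =
        Matrix.diagonal w := by
      rw [gram_map]
      exact hdiag
    have htwo : (2 : Localization.Away a) * algebraMap k (Localization.Away a) 2⁻¹ = 1 := by
      rw [← map_ofNat (algebraMap k (Localization.Away a)) 2, ← map_mul, mul_inv_cancel₀ h2,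
        map_one]
    obtain ⟨e1⟩ := t_QDP k (Localization.Away a) (2 * m)
      (MvPolynomial.map (algebraMap B (Localization.Away a)) f) Pm w
      (fun j => algebraMap k (Localization.Away a) 2⁻¹ * w j) h2 hf' hdet hdiag' (fun j => by
        rw [← mul_assoc, htwo, one_mul])
    have hunit : IsUnit (algebraMap k (Localization.Away a) 2⁻¹) :=
      IsUnit.of_mul_eq_one_right _ htwo
    have hdG : ((gram f).map (algebraMap B (Localization.Away a))).det =
        algebraMap B (Localization.Away a) (gram f).det := by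
      rw [RingHom.map_det]
      rfl
    have hc : (-1 : Localization.Away a) ^ (m + 1) *
        ∏ j, (algebraMap k (Localization.Away a) 2⁻¹ * w j) =
        (Pm.det * (algebraMap k (Localization.Away a) 2⁻¹) ^ m) ^ 2 *
          awayHom k a ((-1) ^ (m + 1) * (gram f).det) := by
      rw [EOD.det_eq _ Pm w _ hdiag, hdG]
      congr 1
      change _ = algebraMap B (Localization.Away a) _
      rw [map_mul, map_pow, map_neg, map_one]
    obtain ⟨e2⟩ := hEDU k (Localization.Away a)
      (awayHom k a ((-1) ^ (m + 1) * (gram f).det))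
      (Pm.det * (algebraMap k (Localization.Away a) 2⁻¹) ^ m) (hdet.mul (hunit.pow m))
    have hDv : ∀ c' : Localization.Away a, c' =
        (Pm.det * (algebraMap k (Localization.Away a) 2⁻¹) ^ m) ^ 2 *
          awayHom k a ((-1) ^ (m + 1) * (gram f).det) →
        P (Dr (Localization.Away a) 0 c') := by
      rintro _ rfl
      exact hP.iso e2 hDU
    have hS := hE (Localization.Away a) m (fun j : Fin (2 * m) =>
        algebraMap k (Localization.Away a) 2⁻¹ * w j)
      (fun j => hunit.mul (hwu j)) (hDv _ hc)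
    have h3 := hP.iso e1.symm hS
    have e3 : Ideal.span {MvPolynomial.map (algebraMap B (Localization.Away a)) f} =
        Ideal.span (Set.range (mf (awayHom k a).toRingHom (fun _ : Fin 1 => f))) := by
      congr 1
      ext x
      constructor
      · rintro rfl
        exact ⟨0, rfl⟩
      · rintro ⟨j, rfl⟩
        rfl
    exact hP.iso (Ideal.quotientEquivAlgOfEq k e3) h3

end QCV


end
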