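import Mathlib
import Pool.Agent.QVM.C01
import Pool.Agent.QVM.C32
import Pool.Agent.QVM.C34
import Pool.Agent.QVM.C42
import Pool.Agent.QVM.C45

/-! Parts: QCV.O_DSW, QCV.O_DMV, QCV.O_OPDN, QCV.O_OKER, QCV.G_ET, QCV.O_OPFD, QCV.O_QDL, QCV.U4, QCV.U2, QCV.U3 -/

section

/-!
# QCV, block O, module DSW: two double covers may be exchanged
-/

set_option autoImplicit false

open Polynomial

namespace QCV

namespace DSW

section

variable {S : Type} [CommRing S] (b c b' c' : S)

/-- the first step -/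
noncomputable def f1 : Dr S b c →+*
    Dr (Dr S b' c') (algebraMap S (Dr S b' c') b) (algebraMap S (Dr S b' c') c) :=
  AdjoinRoot.lift ((algebraMap (Dr S b' c')
    (Dr (Dr S b' c') (algebraMap S (Dr S b' c') b) (algebraMap S (Dr S b' c') c))).comp
      (algebraMap S (Dr S b' c'))) (rt _ _) (by
    rw [eval₂_dpoly]
    exact rt_eq (algebraMap S (Dr S b' c') b) (algebraMap S (Dr S b' c') c))

theorem f1_of (s : S) : f1 b c b' c' (algebraMap S (Dr S b c) s) =
    algebraMap (Dr S b' c')
      (Dr (Dr S b' c') (algebraMap S (Dr S b' c') b) (algebraMap S (Dr S b' c') c))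
        (algebraMap S (Dr S b' c') s) :=
  AdjoinRoot.lift_of _

theorem f1_rt : f1 b c b' c' (rt b c) =
    rt (algebraMap S (Dr S b' c') b) (algebraMap S (Dr S b' c') c) :=
  AdjoinRoot.lift_root _

/-- the exchange -/
noncomputable def f2 :
    Dr (Dr S b c) (algebraMap S (Dr S b c) b') (algebraMap S (Dr S b c) c') →+*
      Dr (Dr S b' c') (algebraMap S (Dr S b' c') b) (algebraMap S (Dr S b' c') c) :=
  AdjoinRoot.lift (f1 b c b' c') (algebraMap (Dr S b' c')
    (Dr (Dr S b' c') (algebraMap S (Dr S b' c') b) (algebraMap S (Dr S b' c') c)) (rt b' c'))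
    (by
      rw [eval₂_dpoly, f1_of, f1_of, ← map_pow, ← map_mul, ← map_add, ← map_add, rt_eq, map_zero])

theorem f2_of (x : Dr S b c) : f2 b c b' c' (algebraMap (Dr S b c)
    (Dr (Dr S b c) (algebraMap S (Dr S b c) b') (algebraMap S (Dr S b c) c')) x) =
      f1 b c b' c' x :=
  AdjoinRoot.lift_of _

theorem f2_rt : f2 b c b' c'
    (rt (algebraMap S (Dr S b c) b') (algebraMap S (Dr S b c) c')) =
      algebraMap (Dr S b' c')
        (Dr (Dr S b' c') (algebraMap S (Dr S b' c') b) (algebraMap S (Dr S b' c') c))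
          (rt b' c') :=
  AdjoinRoot.lift_root _

theorem f2_f1 (x : Dr S b c) : f2 b' c' b c (f1 b c b' c' x) =
    algebraMap (Dr S b c)
      (Dr (Dr S b c) (algebraMap S (Dr S b c) b') (algebraMap S (Dr S b c) c')) x := by
  have h : (f2 b' c' b c).comp (f1 b c b' c') = algebraMap (Dr S b c)
      (Dr (Dr S b c) (algebraMap S (Dr S b c) b') (algebraMap S (Dr S b c) c')) := by
    apply AdjoinRoot.ringHom_ext
    · ext s
      change f2 b' c' b c (f1 b c b' c' (algebraMap S (Dr S b c) s)) = _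
      rw [f1_of, f2_of, f1_of]
      rfl
    · change f2 b' c' b c (f1 b c b' c' (rt b c)) = _
      rw [f1_rt, f2_rt]
      rfl
  exact RingHom.congr_fun h x

theorem f2_f2 : (f2 b' c' b c).comp (f2 b c b' c') = RingHom.id _ := by
  apply AdjoinRoot.ringHom_ext
  · apply RingHom.ext
    intro x
    change f2 b' c' b c (f2 b c b' c' (algebraMap (Dr S b c)
      (Dr (Dr S b c) (algebraMap S (Dr S b c) b') (algebraMap S (Dr S b c) c')) x)) =
        algebraMap (Dr S b c)
          (Dr (Dr S b c) (algebraMap S (Dr S b c) b') (algebraMap S (Dr S b c) c')) x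
    rw [f2_of, f2_f1]
  · change f2 b' c' b c (f2 b c b' c'
      (rt (algebraMap S (Dr S b c) b') (algebraMap S (Dr S b c) c'))) =
        rt (algebraMap S (Dr S b c) b') (algebraMap S (Dr S b c) c')
    rw [f2_rt, f2_of, f1_rt]

end

end DSW

theorem t_DSW : S_DSW := by
  intro k S _ _ _ b c b' c'
  have hk : ∀ (b c b' c' : S) (r : k), DSW.f2 b c b' c' (algebraMap k
      (Dr (Dr S b c) (algebraMap S (Dr S b c) b') (algebraMap S (Dr S b c) c')) r) =
        algebraMap k
          (Dr (Dr S b' c') (algebraMap S (Dr S b' c') b) (algebraMap S (Dr S b' c') c)) r := by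
    intro b c b' c' r
    change DSW.f2 b c b' c' (algebraMap (Dr S b c)
      (Dr (Dr S b c) (algebraMap S (Dr S b c) b') (algebraMap S (Dr S b c) c'))
        (algebraMap S (Dr S b c) (algebraMap k S r))) = _
    rw [DSW.f2_of, DSW.f1_of]
    rfl
  refine ⟨AlgEquiv.ofAlgHom { DSW.f2 b c b' c' with commutes' := hk b c b' c' }
    { DSW.f2 b' c' b c with commutes' := hk b' c' b c }
    (AlgHom.ext fun x => RingHom.congr_fun (DSW.f2_f2 b' c' b c) x)
    (AlgHom.ext fun x => RingHom.congr_fun (DSW.f2_f2 b c b' c') x), fun s => ?_, ?_, ?_⟩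
  · change DSW.f2 b c b' c' (algebraMap (Dr S b c) _ (algebraMap S (Dr S b c) s)) = _
    rw [DSW.f2_of, DSW.f1_of]
  · change DSW.f2 b c b' c' (algebraMap (Dr S b c) _ (rt b c)) = _
    rw [DSW.f2_of, DSW.f1_rt]
  · exact DSW.f2_rt b c b' c'

end QCV


end

section

/-!
# QCV, module DMV: double covers of polynomial rings whose coefficients come from the base
-/

set_option autoImplicit false

open Polynomial

namespace QCV

namespace DMV_aux

section

variable {A σ : Type} [CommRing A] (b c : A)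

/-- the homomorphism `Dr (MvPolynomial σ A) → MvPolynomial σ (Dr A)` -/
noncomputable def fwd : Dr (MvPolynomial σ A) (MvPolynomial.C b) (MvPolynomial.C c) →+*
    MvPolynomial σ (Dr A b c) :=
  AdjoinRoot.lift (MvPolynomial.map (algebraMap A (Dr A b c))) (MvPolynomial.C (rt b c)) (by
    rw [eval₂_dpoly, MvPolynomial.map_C, MvPolynomial.map_C, ← map_pow, ← map_mul, ← map_add,
      ← map_add, rt_eq, map_zero])

lemma fwd_of (p : MvPolynomial σ A) :
    fwd b c (algebraMap (MvPolynomial σ A)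
      (Dr (MvPolynomial σ A) (MvPolynomial.C b) (MvPolynomial.C c)) p) =
      MvPolynomial.map (algebraMap A (Dr A b c)) p :=
  AdjoinRoot.lift_of _

lemma fwd_rt : fwd (σ := σ) b c (rt _ _) = MvPolynomial.C (rt b c) :=
  AdjoinRoot.lift_root _

/-- the homomorphism `Dr A → Dr (MvPolynomial σ A)` -/
noncomputable def bas : Dr A b c →+*
    Dr (MvPolynomial σ A) (MvPolynomial.C b) (MvPolynomial.C c) :=
  AdjoinRoot.lift ((algebraMap (MvPolynomial σ A)
      (Dr (MvPolynomial σ A) (MvPolynomial.C b) (MvPolynomial.C c))).comp MvPolynomial.C)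
    (rt _ _) (by
      rw [eval₂_dpoly]
      exact rt_eq (A := MvPolynomial σ A) (MvPolynomial.C b) (MvPolynomial.C c))

lemma bas_of (a : A) : bas (σ := σ) b c (algebraMap A (Dr A b c) a) =
    algebraMap (MvPolynomial σ A) _ (MvPolynomial.C a) :=
  AdjoinRoot.lift_of _

lemma bas_rt : bas (σ := σ) b c (rt b c) = rt _ _ :=
  AdjoinRoot.lift_root _

/-- the homomorphism `MvPolynomial σ (Dr A) → Dr (MvPolynomial σ A)` -/
noncomputable def bwd : MvPolynomial σ (Dr A b c) →+*
    Dr (MvPolynomial σ A) (MvPolynomial.C b) (MvPolynomial.C c) :=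
  MvPolynomial.eval₂Hom (bas b c) fun i => algebraMap (MvPolynomial σ A) _ (MvPolynomial.X i)

lemma bwd_C (x : Dr A b c) : bwd (σ := σ) b c (MvPolynomial.C x) = bas b c x :=
  MvPolynomial.eval₂_C _ _ _

lemma bwd_X (i : σ) : bwd (σ := σ) b c (MvPolynomial.X i) =
    algebraMap (MvPolynomial σ A) _ (MvPolynomial.X i) :=
  MvPolynomial.eval₂_X _ _ _

lemma fwd_bas : (fwd (σ := σ) b c).comp (bas b c) = MvPolynomial.C := by
  apply AdjoinRoot.ringHom_ext
  · ext1 a
    change fwd (σ := σ) b c (bas b c (algebraMap A (Dr A b c) a)) =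
      MvPolynomial.C (algebraMap A (Dr A b c) a)
    rw [bas_of, fwd_of, MvPolynomial.map_C]
  · change fwd (σ := σ) b c (bas b c (rt b c)) = MvPolynomial.C (rt b c)
    rw [bas_rt, fwd_rt]

lemma fwd_bwd : (fwd (σ := σ) b c).comp (bwd b c) = RingHom.id _ := by
  apply MvPolynomial.ringHom_ext
  · intro x
    rw [RingHom.comp_apply, bwd_C, RingHom.id_apply]
    exact RingHom.congr_fun (fwd_bas (σ := σ) b c) x
  · intro i
    rw [RingHom.comp_apply, bwd_X, RingHom.id_apply, fwd_of, MvPolynomial.map_X]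

lemma bwd_fwd : (bwd (σ := σ) b c).comp (fwd b c) = RingHom.id _ := by
  apply AdjoinRoot.ringHom_ext
  · apply MvPolynomial.ringHom_ext
    · intro a
      change bwd (σ := σ) b c (fwd b c (algebraMap (MvPolynomial σ A) _ (MvPolynomial.C a))) =
        algebraMap (MvPolynomial σ A) _ (MvPolynomial.C a)
      rw [fwd_of, MvPolynomial.map_C, bwd_C, bas_of]
    · intro i
      change bwd (σ := σ) b c (fwd b c (algebraMap (MvPolynomial σ A) _ (MvPolynomial.X i))) =
        algebraMap (MvPolynomial σ A) _ (MvPolynomial.X i)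
      rw [fwd_of, MvPolynomial.map_X, bwd_X]
  · change bwd (σ := σ) b c (fwd b c (rt _ _)) = rt _ _
    rw [fwd_rt, bwd_C, bas_rt]

end

end DMV_aux

open _root_.QCV.DMV_aux in
theorem t_DMV : S_DMV := by
  intro k A σ _ _ _ b c
  have h : ∀ r : k, fwd (σ := σ) b c (algebraMap k _ r) = algebraMap k _ r := by
    intro r
    have h1 := fwd_of (σ := σ) b c (MvPolynomial.C (algebraMap k A r))
    rw [MvPolynomial.map_C] at h1
    exact h1
  exact ⟨AlgEquiv.ofRingEquiv (f := RingEquiv.ofRingHom (fwd b c) (bwd b c) (fwd_bwd b c)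
    (bwd_fwd b c)) h, fun p => fwd_of b c p, fwd_rt b c⟩

end QCV


end

section

/-!
# QCV, module OPDN: push-forward of the divisor of a rational function (explicit form)

The proof is the one of `CUB.t_PUSHD` (`Pool/Agent/CUB2/K_PUSHD.lean`), with the divisor of the norm
given in advance.
-/

set_option autoImplicit false

open CategoryTheory AlgebraicGeometry Limits Polynomial TopologicalSpace

namespace QCV

open Pool.Agent.Lib_helper55.Beil Pool.Agent.Lib_helper66.OneP CUB CUB.PUSHD

theorem t_OPDN : S_OPDN := by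
  intro k E _ _ n W V hW hV f hfg φ c d hdW hdV hφ hdiv hd
  classical
  have hPFC : CUB.S_PFC.{0} := CUB.Asm2.s_PFC.{0}
  have hLENC : CUB.S_LENC := CUB.Asm.s_LENC
  have hCHA : CUB.S_CHA := CUB.Asm2.s_CHA
  have hRDG : CUB.S_RDG := CUB.Asm2.s_RDG
  have hNPU : CUB.S_NPU := CUB.Asm2.s_NPU
  have hFOV : CUB.S_FOV := CUB.Asm2.s_FOV
  -- the norm
  let ι : V.X.functionField →+* W.X.functionField := (fm f.g hfg).hom
  let aι : Algebra V.X.functionField W.X.functionField := ι.toAlgebra
  change IsDiv (idIn V) (Algebra.norm V.X.functionField φ) d at hd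
  ext y
  obtain ⟨B, D, iB, iD, aB, aD, fB, fD, ψ, j, j₁, hcomm, hfin, hinj, hv, hpre⟩ :=
    hFOV k n W V hW hV f y.1 hdW hdV hfg y.2
  obtain ⟨b₀, hb₀⟩ := hv
  have dB : IsDomain B := hCHA.2.1 k B V hV j b₀
  have hgV : genericPoint V.X ∈ Set.range j.g := by
    have h1 : genericPoint V.X ⤳ j.g b₀ := genericPoint_specializes _
    exact h1.mem_open j.g.isOpenEmbedding.isOpen_range ⟨b₀, rfl⟩
  obtain ⟨d₀, hd₀⟩ := hpre (genericPoint W.X) (by rw [hfg]; exact hgV)
  have dD : IsDomain D := hCHA.2.1 k D W hW j₁ d₀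
  have hc0 : ∀ b, ι (be j b) = be j₁ (ψ b) := fm_be f.g hfg ψ j j₁ hcomm
  have hF : Module.Finite V.X.functionField W.X.functionField :=
    fin_alg (be j) (be j₁) ι ψ (be_inj j) (be_inj j₁) (be_frac j) (be_frac j₁) hc0 hfin
  have hcomm' : ∀ P : PrimeSpectrum D,
      f.g (j₁.g (toPt P)) = j.g (toPt (PrimeSpectrum.comap ψ.toRingHom P)) := fun P => by
    have h1 := congrArg (fun g : (aff k D).X ⟶ V.X => g (toPt P)) hcomm
    exact h1
  -- the prime of the point
  have hp : rdim k (ofPt b₀) = n := by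
    rw [← dim_toPt, toPt_ofPt, ← dim_map j.g j.comm, hb₀]
    exact y.2
  let p : RP k B n := ⟨ofPt b₀, hp⟩
  have hpy : j.g (toPt p.1) = y.1 := hb₀
  have htrB : Algebra.trdeg k B = (n + 1 : ℕ) := (trdeg_chart j).trans hdV
  have htrD : Algebra.trdeg k D = (n + 1 : ℕ) := (trdeg_chart j₁).trans hdW
  -- the fibre
  have hSfin : {P : RP k D n | PrimeSpectrum.comap ψ.toRingHom P.1 = p.1}.Finite := by
    let aBD : Algebra B D := ψ.toRingHom.toAlgebra
    have : Module.Finite B D := hfin
    have h1 := Algebra.QuasiFinite.finite_comap_preimage_singleton (R := B) (S := D) p.1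
    exact Set.Finite.preimage Subtype.val_injective.injOn h1
  let S : Finset (RP k D n) := hSfin.toFinset
  have hS : ∀ P : RP k D n, P ∈ S ↔ PrimeSpectrum.comap ψ.toRingHom P.1 = p.1 := fun P => by
    rw [Set.Finite.mem_toFinset]
    exact Iff.rfl
  -- fractions
  obtain ⟨x, y', hx, hy', hxy⟩ := be_frac j₁ φ hφ
  have hbx : be j₁ x ≠ 0 := (map_ne_zero_iff _ (be_inj j₁)).mpr hx
  have hby : be j₁ y' ≠ 0 := (map_ne_zero_iff _ (be_inj j₁)).mpr hy'
  have hN : Algebra.norm V.X.functionField φ ≠ 0 := Algebra.norm_ne_zero_iff.mpr hφ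
  have hNx : Algebra.norm V.X.functionField (be j₁ x) ≠ 0 := Algebra.norm_ne_zero_iff.mpr hbx
  have hNy : Algebra.norm V.X.functionField (be j₁ y') ≠ 0 := Algebra.norm_ne_zero_iff.mpr hby
  obtain ⟨b, c', hb, hc', hbc⟩ := be_frac j _ hNx
  obtain ⟨b', c'', hb', hc'', hbc'⟩ := be_frac j _ hNy
  have hNN : Algebra.norm V.X.functionField φ * be j (b' * c') = be j (b * c'') := by
    have h1 : Algebra.norm V.X.functionField φ * Algebra.norm V.X.functionField (be j₁ y') =
        Algebra.norm V.X.functionField (be j₁ x) := by rw [← map_mul, hxy]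
    rw [map_mul, map_mul, ← hbc, ← hbc', ← h1]
    ring
  have e1 := npu_alg (be j) (be j₁) ι ψ hNPU (be_inj j) (be_inj j₁) (be_frac j) (be_frac j₁) hc0
    hfin n p S htrB hS x b c' hx hb hc' hbc
  have e2 := npu_alg (be j) (be j₁) ι ψ hNPU (be_inj j) (be_inj j₁) (be_frac j) (be_frac j₁) hc0
    hfin n p S htrB hS y' b' c'' hy' hb' hc'' hbc'
  have e3 := ord_chart j htrB p _ hN (b * c'') (b' * c') (mul_ne_zero hb hc'')
    (mul_ne_zero hb' hc') hNN
  rw [len_mul hLENC htrB p b c'' hb hc'', len_mul hLENC htrB p b' c' hb' hc'] at e3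
  -- the value of `d`
  have hdy : d y = ((Scheme.ord (Algebra.norm V.X.functionField φ) (j.g (toPt p.1)) : ℤ) : E) := by
    have h1 := hd.1 (j.g (toPt p.1)) (by
      change V.dim (j.g (toPt p.1)) = n
      rw [hpy]
      exact y.2)
    rw [← h1]
    congr 1
    exact Subtype.ext hpy.symm
  -- the points over `y`
  have hwd : ∀ P : RP k D n, W.dim (j₁.g (toPt P.1)) = n := fun P => by
    rw [dim_map j₁.g j₁.comm, dim_toPt]
    exact P.2
  let w : RP k D n → Pts n W := fun P => ⟨j₁.g (toPt P.1), hwd P⟩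
  have hw : Function.Injective w := by
    intro P P' h
    have h1 : j₁.g (toPt P.1) = j₁.g (toPt P'.1) := congrArg Subtype.val h
    exact Subtype.ext (openIn_injective j₁ h1)
  have hcw : ∀ P : RP k D n, c (w P) = (len (Ideal.span {x}) P.1 : E) - len (Ideal.span {y'}) P.1 := by
    intro P
    have h1 := hdiv.1 (j₁.g (toPt P.1)) (hwd P)
    have h2 : c (w P) = ((Scheme.ord φ (j₁.g (toPt P.1)) : ℤ) : E) := h1
    rw [h2, ord_chart j₁ htrD P φ hφ x y' hx hy' hxy]
    push_cast
    rfl
  let F : Pts n W → E := fun x => c x * (if f.g x.1 = y.1 then (f.deg x.1 : E) else 0)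
  have hsum : pfc E n f c y = ∑ P ∈ S, F (w P) := by
    rw [hPFC.2.2.2.2.2 k E n W V f c y]
    have h0 : (c.sum fun x e => e * (if f.g x.1 = y.1 then (f.deg x.1 : E) else 0)) =
        ∑ x ∈ c.support, F x := rfl
    have h9 : ∑ P ∈ S, F (w P) = ∑ x ∈ S.map ⟨w, hw⟩, F x := (Finset.sum_map S ⟨w, hw⟩ F).symm
    rw [h0, h9]
    have h1 : ∑ x ∈ c.support, F x = ∑ x ∈ c.support ∪ S.map ⟨w, hw⟩, F x := by
      refine Finset.sum_subset Finset.subset_union_left fun x _ hx => ?_
      change c x * _ = 0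
      rw [Finsupp.notMem_support_iff.mp hx, zero_mul]
    have h2 : ∑ x ∈ S.map ⟨w, hw⟩, F x = ∑ x ∈ c.support ∪ S.map ⟨w, hw⟩, F x := by
      refine Finset.sum_subset Finset.subset_union_right fun x _ hx => ?_
      change c x * (if f.g x.1 = y.1 then (f.deg x.1 : E) else 0) = 0
      rw [if_neg, mul_zero]
      intro hxy
      apply hx
      obtain ⟨q, hq⟩ := hpre x.1 (by rw [hxy]; exact ⟨b₀, hb₀⟩)
      have hqn : rdim k (ofPt q) = n := by
        rw [← dim_toPt, toPt_ofPt, ← dim_map j₁.g j₁.comm, hq]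
        exact x.2
      rw [Finset.mem_map]
      refine ⟨⟨ofPt q, hqn⟩, ?_, Subtype.ext hq⟩
      refine (hS _).mpr ?_
      have h3 := hcomm' (ofPt q)
      rw [toPt_ofPt, hq, hxy, ← hpy] at h3
      exact (openIn_injective j h3).symm
    rw [h1, h2]
  have hFw : ∀ P ∈ S, F (w P) = ((len (Ideal.span {x}) P.1 : E) - len (Ideal.span {y'}) P.1) *
      (rdeg ψ.toRingHom P.1 : E) := by
    intro P hP
    change c (w P) * (if f.g (j₁.g (toPt P.1)) = y.1 then (f.deg (j₁.g (toPt P.1)) : E) else 0) = _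
    rw [hcw, if_pos, hRDG k B D ψ V W f j j₁ hcomm P.1]
    rw [hcomm', (hS P).mp hP, hpy]
  rw [hsum, Finset.sum_congr rfl hFw, hdy, e3]
  have e1' := congrArg (Nat.cast : ℕ → E) e1
  have e2' := congrArg (Nat.cast : ℕ → E) e2
  push_cast at e1' e2' ⊢
  have h3 : ∑ P ∈ S, ((len (Ideal.span {x}) P.1 : E) - len (Ideal.span {y'}) P.1) *
      (rdeg ψ.toRingHom P.1 : E) =
      ∑ P ∈ S, (rdeg ψ.toRingHom P.1 : E) * len (Ideal.span {x}) P.1 -
        ∑ P ∈ S, (rdeg ψ.toRingHom P.1 : E) * len (Ideal.span {y'}) P.1 := by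
    rw [← Finset.sum_sub_distrib]
    refine Finset.sum_congr rfl fun P _ => ?_
    ring
  rw [h3]
  linear_combination e1' - e2'

end QCV


end

section

/-!
# QCV, block O, module OKER: cycles on a double cover with push-forward zero
-/

set_option autoImplicit false

open CategoryTheory AlgebraicGeometry Polynomial

namespace QCV

open Pool.Agent.Lib_helper55.Beil Pool.Agent.Lib_helper66.OneP CUB

universe v

namespace OKER

/-- evaluation of a function at a point of an affine scheme -/
noncomputable def ev (R : CommRingCat.{0}) (x : Spec R) : R →+* (Spec R).residueField x :=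
  ((Scheme.ΓSpecIso R).inv ≫ (Spec R).Γevaluation x).hom

set_option backward.isDefEq.respectTransparency.types false in
theorem ev_frac (R : CommRingCat.{0}) (x : Spec R) (z : (Spec R).residueField x) :
    ∃ b s : R, ev R x s ≠ 0 ∧ z * ev R x s = ev R x b := by
  have hev : ev R x = (CommRingCat.ofHom (algebraMap R x.asIdeal.ResidueField) ≫
      (Scheme.Spec.residueFieldIso R x).inv).hom := by
    rw [Scheme.Spec.algebraMap_residueFieldIso_inv]
    rfl
  obtain ⟨⟨b, s⟩, h⟩ := IsLocalization.surj (nonZeroDivisors (R ⧸ x.asIdeal))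
    ((Scheme.Spec.residueFieldIso R x).hom.hom z)
  obtain ⟨b, rfl⟩ := Ideal.Quotient.mk_surjective b
  obtain ⟨s, hs⟩ := s
  obtain ⟨s, rfl⟩ := Ideal.Quotient.mk_surjective s
  have hinv : ∀ w, (Scheme.Spec.residueFieldIso R x).inv.hom
      ((Scheme.Spec.residueFieldIso R x).hom.hom w) = w := by
    intro w
    have := congrArg (fun g => g.hom w) (Scheme.Spec.residueFieldIso R x).hom_inv_id
    exact this
  have hinv2 : ∀ w, (Scheme.Spec.residueFieldIso R x).hom.hom
      ((Scheme.Spec.residueFieldIso R x).inv.hom w) = w := by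
    intro w
    have := congrArg (fun g => g.hom w) (Scheme.Spec.residueFieldIso R x).inv_hom_id
    exact this
  have hs' : algebraMap R x.asIdeal.ResidueField s ≠ 0 := by
    intro h0
    rw [Ideal.algebraMap_residueField_eq_zero] at h0
    rw [(Ideal.Quotient.eq_zero_iff_mem).2 h0] at hs
    exact nonZeroDivisors.ne_zero hs rfl
  refine ⟨b, s, ?_, ?_⟩
  · rw [hev]
    intro h0
    apply hs'
    have h1 := congrArg (Scheme.Spec.residueFieldIso R x).hom.hom h0
    rw [map_zero] at h1
    rw [← h1]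
    exact (hinv2 _).symm
  · rw [hev]
    have h1 := congrArg (Scheme.Spec.residueFieldIso R x).inv.hom h
    rw [map_mul, hinv] at h1
    exact h1

/-- a field which consists of the fractions of a finite algebra is finite -/
theorem fin_field {A B F K : Type} [CommRing A] [CommRing B] [Algebra A B] [Module.Finite A B]
    [Field F] [Field K] [Algebra F K] (ψ : A →+* F) (φ : B →+* K)
    (hc : ∀ a, algebraMap F K (ψ a) = φ (algebraMap A B a))
    (hf : ∀ z : K, ∃ b s : B, φ s ≠ 0 ∧ z * φ s = φ b) : Module.Finite F K := by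
  obtain ⟨G, hG⟩ := (inferInstance : Module.Finite A B).fg_top
  have hint : ∀ b : B, IsIntegral F (φ b) := by
    intro b
    obtain ⟨p, hp, hpb⟩ := (Algebra.IsIntegral.isIntegral (R := A) b : IsIntegral A b)
    refine ⟨p.map ψ, hp.map ψ, ?_⟩
    rw [Polynomial.eval₂_map]
    have h1 : (algebraMap F K).comp ψ = φ.comp (algebraMap A B) := RingHom.ext hc
    rw [h1, ← Polynomial.hom_eval₂, hpb, map_zero]
  have hmem : ∀ b : B, φ b ∈ Algebra.adjoin F (φ '' (G : Set B)) := by
    intro b
    have hb : b ∈ Submodule.span A (G : Set B) := by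
      rw [hG]
      trivial
    induction hb using Submodule.span_induction with
    | mem x hx => exact Algebra.subset_adjoin ⟨x, hx, rfl⟩
    | zero => rw [map_zero]; exact Subalgebra.zero_mem _
    | add x y _ _ hx hy => rw [map_add]; exact Subalgebra.add_mem _ hx hy
    | smul a x _ hx =>
      rw [Algebra.smul_def, map_mul, ← hc]
      exact Subalgebra.mul_mem _ (Subalgebra.algebraMap_mem _ _) hx
  have htop : Algebra.adjoin F (φ '' (G : Set B)) = ⊤ := by
    refine top_le_iff.1 fun z _ => ?_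
    obtain ⟨b, s, hs, hz⟩ := hf z
    have h1 : z = φ b * (φ s)⁻¹ := by
      rw [← hz, mul_assoc, mul_inv_cancel₀ hs, mul_one]
    rw [h1]
    refine Subalgebra.mul_mem _ (hmem b) ?_
    exact Subalgebra.inv_mem_of_algebraic (Algebra.adjoin F (φ '' (G : Set B)))
      (x := ⟨φ s, hmem s⟩) (hint s).isAlgebraic
  have hfg : (Algebra.adjoin F (φ '' (G : Set B))).toSubmodule.FG := by
    apply fg_adjoin_of_finite (G.finite_toSet.image φ)
    rintro _ ⟨x, _, rfl⟩
    exact hint x
  rw [htop] at hfg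
  exact ⟨hfg⟩

/-- the degree of a finite morphism at a point is not zero -/
theorem deg_ne {k : Type} [Field k] {A : Type} [CommRing A] [Algebra k A]
    [Algebra.FiniteType k A] (b c : A) (x : (aff k (Dr A b c)).X) :
    (dbl b c k).deg x ≠ 0 := by
  unfold PrMor.deg
  let : Algebra ((aff k A).X.residueField ((dbl b c k).g x))
    ((aff k (Dr A b c)).X.residueField x) := ((dbl b c k).g.residueFieldMap x).hom.toAlgebra
  have hfin : Module.Finite ((aff k A).X.residueField ((dbl b c k).g x))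
      ((aff k (Dr A b c)).X.residueField x) := by
    refine fin_field (A := A) (B := Dr A b c) (ev (CommRingCat.of A) ((dbl b c k).g x))
      (ev (CommRingCat.of (Dr A b c)) x) ?_ ?_
    · intro a
      have h1 := Scheme.Γevaluation_naturality_apply (dbl b c k).g x
        ((Scheme.ΓSpecIso (CommRingCat.of A)).inv.hom a)
      refine h1.trans ?_
      have h2 := Scheme.ΓSpecIso_inv_naturality (CommRingCat.ofHom (drHom b c k).toRingHom)
      have h3 := congrArg (fun g => g.hom a) h2
      refine congrArg _ (Eq.trans ?_ h3.symm)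
      rfl
    · intro z
      exact ev_frac _ _ z
  have := Module.finrank_pos (R := (aff k A).X.residueField ((dbl b c k).g x))
    (M := (aff k (Dr A b c)).X.residueField x)
  exact this.ne'

/-- coordinates in a quadratic extension -/
theorem coord {A : Type} [CommRing A] (b c : A) (x : Dr A b c) :
    ∃ α β : A, x = algebraMap A (Dr A b c) α + algebraMap A (Dr A b c) β * rt b c := by
  induction x using AdjoinRoot.induction_on with
  | ih p =>
    induction p using Polynomial.induction_on with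
    | C a =>
      refine ⟨a, 0, ?_⟩
      rw [map_zero, zero_mul, add_zero]
      rfl
    | add p q hp hq =>
      obtain ⟨α, β, h1⟩ := hp
      obtain ⟨γ, δ, h2⟩ := hq
      refine ⟨α + γ, β + δ, ?_⟩
      rw [map_add, h1, h2, map_add, map_add]
      ring
    | monomial n a h =>
      obtain ⟨α, β, h1⟩ := h
      refine ⟨- (β * c), α - β * b, ?_⟩
      rw [pow_succ, ← mul_assoc, map_mul, h1]
      have h2 : AdjoinRoot.mk (dpoly b c) X = rt b c := rfl
      rw [h2, map_neg, map_mul, map_sub, map_mul]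
      linear_combination (algebraMap A (Dr A b c) β) * rt_eq b c

theorem norm_mem {A : Type} [CommRing A] (b c : A) (x : Dr A b c) :
    ∃ a : A, x * dinvHom b c x = algebraMap A (Dr A b c) a := by
  obtain ⟨α, β, rfl⟩ := coord b c x
  refine ⟨α ^ 2 - α * β * b + β ^ 2 * c, ?_⟩
  rw [map_add, map_mul, dinvHom_of, dinvHom_of, dinvHom_rt]
  simp only [map_add, map_sub, map_mul, map_pow]
  linear_combination - (algebraMap A (Dr A b c) β) ^ 2 * rt_eq b c

theorem primes {A : Type} [CommRing A] (b c : A) (q q' : PrimeSpectrum (Dr A b c))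
    (h : q.asIdeal.comap (algebraMap A (Dr A b c)) = q'.asIdeal.comap (algebraMap A (Dr A b c))) :
    q' = q ∨ q' = PrimeSpectrum.comap (dinvHom b c) q := by
  have hcom : ∀ a : A, dinvHom b c (algebraMap A (Dr A b c) a) = algebraMap A (Dr A b c) a :=
    dinvHom_of b c
  have hsub : (q'.asIdeal : Set (Dr A b c)) ⊆
      (q.asIdeal : Set (Dr A b c)) ∪ (q.asIdeal.comap (dinvHom b c) : Set (Dr A b c)) := by
    intro x hx
    obtain ⟨a, ha⟩ := norm_mem b c x
    have h1 : algebraMap A (Dr A b c) a ∈ q'.asIdeal := by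
      rw [← ha]
      exact Ideal.mul_mem_right _ _ hx
    have h2 : algebraMap A (Dr A b c) a ∈ q.asIdeal := by
      have h3 : a ∈ q'.asIdeal.comap (algebraMap A (Dr A b c)) := h1
      rw [← h] at h3
      exact h3
    rw [← ha] at h2
    rcases q.2.mem_or_mem h2 with h4 | h4
    · exact Or.inl h4
    · exact Or.inr h4
  have hinc : ∀ q'' : PrimeSpectrum (Dr A b c), q'.asIdeal ≤ q''.asIdeal →
      q''.asIdeal.comap (algebraMap A (Dr A b c)) = q'.asIdeal.comap (algebraMap A (Dr A b c)) →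
      q' = q'' := by
    intro q'' hle he
    rcases hle.lt_or_eq with hlt | heq
    · have := Ideal.IsIntegral.comap_lt_comap (R := A) hlt
      exact absurd he this.ne'
    · exact PrimeSpectrum.ext heq
  rcases (Ideal.subset_union).1 hsub with h1 | h1
  · exact Or.inl (hinc q h1 h)
  · refine Or.inr (hinc (PrimeSpectrum.comap (dinvHom b c) q) h1 ?_)
    rw [← h]
    ext a
    change dinvHom b c (algebraMap A (Dr A b c) a) ∈ q.asIdeal ↔ algebraMap A (Dr A b c) a ∈ q.asIdeal
    rw [hcom]

section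

variable {k : Type} [Field k] {A : Type} [CommRing A] [Algebra k A] [Algebra.FiniteType k A]
  (b c : A)

theorem tau_f : (autc (dinv b c k)).g ≫ (dbl b c k).g = (dbl b c k).g := by
  change Spec.map _ ≫ Spec.map _ = Spec.map _
  rw [← Spec.map_comp, ← CommRingCat.ofHom_comp]
  congr 2
  ext a
  exact dinv_of b c k a

theorem tau_tau : (autc (dinv b c k)).g ≫ (autc (dinv b c k)).g = 𝟙 _ := by
  change Spec.map _ ≫ Spec.map _ = 𝟙 (Spec _)
  rw [← Spec.map_comp, ← CommRingCat.ofHom_comp, ← Spec.map_id]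
  congr 1
  refine CommRingCat.hom_ext (RingHom.ext fun a => ?_)
  exact dinv_dinv b c k a

theorem f_tau_pt (q : (aff k (Dr A b c)).X) :
    (dbl b c k).g ((autc (dinv b c k)).g q) = (dbl b c k).g q := by
  have h := congrArg (fun g : (aff k (Dr A b c)).X ⟶ (aff k A).X => g q) (tau_f (k := k) b c)
  exact h

theorem tau_tau_pt (q : (aff k (Dr A b c)).X) :
    (autc (dinv b c k)).g ((autc (dinv b c k)).g q) = q := by
  have h := congrArg (fun g : (aff k (Dr A b c)).X ⟶ (aff k (Dr A b c)).X => g q)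
    (tau_tau (k := k) b c)
  exact h

theorem deg_tau (q : (aff k (Dr A b c)).X) :
    (dbl b c k).deg ((autc (dinv b c k)).g q) = (dbl b c k).deg q := by
  have h1 := PFC.deg_comp (clPr (autc (dinv b c k))) (dbl b c k) (dbl b c k) (tau_f b c) q
  have h2 := PFC.deg_closed (autc (dinv b c k)) (clPr (autc (dinv b c k))) rfl q
  rw [h2, mul_one] at h1
  exact h1.symm

theorem fibre (q q' : (aff k (Dr A b c)).X) (h : (dbl b c k).g q' = (dbl b c k).g q) :
    q' = q ∨ q' = (autc (dinv b c k)).g q := by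
  have h1 := primes b c (show PrimeSpectrum (Dr A b c) from q)
    (show PrimeSpectrum (Dr A b c) from q')
    (congrArg (fun p : PrimeSpectrum A => p.asIdeal) h.symm)
  exact h1

end

end OKER

open _root_.QCV.OKER in
theorem t_OKER : S_OKER := by
  classical
  intro k E _ _ _ A _ _ _ b c i z hz
  have hinv : ∀ q : Pts i (aff k (Dr A b c)),
      ptsMap i (autc (dinv b c k)) (ptsMap i (autc (dinv b c k)) q) = q :=
    fun q => Subtype.ext (tau_tau_pt b c q.1)
  have hinj : Function.Injective (ptsMap i (autc (dinv b c k))) :=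
    Function.LeftInverse.injective (g := ptsMap i (autc (dinv b c k))) hinv
  refine Finsupp.ext fun q => ?_
  have hp : pushCyc (autc (dinv b c k)) z q = z (ptsMap i (autc (dinv b c k)) q) := by
    unfold pushCyc
    conv_lhs => rw [← hinv q]
    exact Finsupp.mapDomain_apply hinj z _
  rw [Finsupp.add_apply, hp, Finsupp.zero_apply]
  have hd : (aff k A).dim ((dbl b c k).g q.1) = i := (dim_dbl b c q.1).trans q.2
  obtain ⟨g, hg⟩ : ∃ g : Pts i (aff k (Dr A b c)) → E, g = fun x =>
      (if (dbl b c k).g x.1 = (dbl b c k).g q.1 then ((dbl b c k).deg x.1 : E) else 0) := ⟨_, rfl⟩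
  have h0 : (0 : E) = z.sum fun x e => e * g x := by
    have h := (CUB.Asm2.s_PFC.{0}).2.2.2.2.2 k E i _ _ (dbl b c k) z ⟨(dbl b c k).g q.1, hd⟩
    rw [hz] at h
    rw [hg]
    exact h
  have hdeg : ((dbl b c k).deg q.1 : E) ≠ 0 := Nat.cast_ne_zero.2 (deg_ne b c q.1)
  have g1 : g q = (dbl b c k).deg q.1 := by
    rw [hg]
    exact if_pos rfl
  have g2 : g (ptsMap i (autc (dinv b c k)) q) = (dbl b c k).deg q.1 := by
    rw [hg]
    refine (if_pos (f_tau_pt b c q.1)).trans ?_
    exact congrArg _ (deg_tau b c q.1)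
  have g3 : ∀ x, x ≠ q → x ≠ ptsMap i (autc (dinv b c k)) q → g x = 0 := by
    intro x h1 h2
    rw [hg]
    refine if_neg fun h3 => ?_
    rcases fibre b c q.1 x.1 h3 with h4 | h4
    · exact h1 (Subtype.ext h4)
    · exact h2 (Subtype.ext h4)
  rw [Finsupp.sum_of_support_subset z
    (s := z.support ∪ {q, ptsMap i (autc (dinv b c k)) q}) Finset.subset_union_left
    (fun x e => e * g x) (fun x _ => zero_mul (g x)),
    ← Finset.sum_subset (s₁ := {q, ptsMap i (autc (dinv b c k)) q})
    Finset.subset_union_right] at h0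
  · by_cases hq : q = ptsMap i (autc (dinv b c k)) q
    · rw [← hq, Finset.pair_eq_singleton, Finset.sum_singleton, g1] at h0
      rcases mul_eq_zero.1 h0.symm with h1 | h1
      · rw [← hq, h1, add_zero]
      · exact absurd h1 hdeg
    · rw [Finset.sum_pair hq, g1, g2, ← add_mul] at h0
      rcases mul_eq_zero.1 h0.symm with h1 | h1
      · exact h1
      · exact absurd h1 hdeg
  · intro x _ hx
    rw [Finset.mem_insert, Finset.mem_singleton, not_or] at hx
    rw [g3 x hx.1 hx.2, mul_zero]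

end QCV


end

section

/-!
# QCV, block G: descent along finite etale morphisms
-/

set_option autoImplicit false

open CategoryTheory AlgebraicGeometry Limits Polynomial TopologicalSpace

namespace QCV

open Pool.Agent.Lib_helper55.Beil Pool.Agent.Lib_helper66.OneP CUB

universe v

variable {k : Type} [Field k] {E : Type} [Field E]

variable {T : ∀ i : ℕ, Homology.{v} k E i}

namespace ET

/-! ## Descent along finite etale morphisms -/

section Et

variable {i : ℕ} {V U : Var k} (f : Pool.Agent.Lib_helper66.OneP.FinEt V U) (S : EtMaps T)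
  (D : ℕ)

lemma exists_pull (hC : ∀ x : Pts i U, ∃ z : Pts i V →₀ E,
    Pool.Agent.Lib_helper66.OneP.cls (T i) V z = S.Q i (2 * i) f ((T i).cl U x) ∧
      pfc E i (etPr f) z = Finsupp.single x (D : E)) (x : Pts i U →₀ E) :
    ∃ z : Pts i V →₀ E, clz (T i) V z = S.pb i (2 * i) f (clz (T i) U x) ∧
      pfc E i (etPr f) z = (D : E) • x := by
  induction x using Finsupp.induction_linear with
  | zero =>
    refine ⟨0, ?_, ?_⟩
    · have h1 : clz (T i) V (0 : Pts i V →₀ E) = 0 := map_zero _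
      have h2 : clz (T i) U (0 : Pts i U →₀ E) = 0 := map_zero _
      rw [h1, h2, map_zero]
    · rw [map_zero, smul_zero]
  | add x y hx hy =>
    obtain ⟨z, h1, h2⟩ := hx
    obtain ⟨w, h3, h4⟩ := hy
    refine ⟨z + w, ?_, ?_⟩
    · have h5 := cls_add (T i) V z w
      have h6 := cls_add (T i) U x y
      change Pool.Agent.Lib_helper66.OneP.cls (T i) _ (z + w) =
        S.pb i (2 * i) f (Pool.Agent.Lib_helper66.OneP.cls (T i) _ (x + y))
      rw [h5, h6, map_add, ← h1, ← h3]
    · rw [map_add, h2, h4, smul_add]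
  | single p e =>
    obtain ⟨z, h1, h2⟩ := hC p
    refine ⟨e • z, ?_, ?_⟩
    · have h5 : clz (T i) V (e • z) = e • clz (T i) V z :=
        map_smul (Finsupp.linearCombination E ((T i).cl V)) e z
      have h6 : clz (T i) U (Finsupp.single p e) = e • (T i).cl U p :=
        Finsupp.linearCombination_single E e p
      rw [h5, h6, map_smul]
      congr 1
    · rw [map_smul, h2, Finsupp.smul_single, Finsupp.smul_single, smul_eq_mul, smul_eq_mul,
        mul_comm]

/-- The property `PF` descends along finite etale surjective morphisms. -/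
theorem pf_et [CharZero E] (hT : Full T) (hP : Pub T hT) (hF : S.Frobenius) (hD : D ≠ 0)
    (hG : ∀ (n : ℕ) (m : (T i).H n U), hT.G i n (etPr f) (S.Q i n f m) = (D : E) • m)
    (hC : ∀ x : Pts i U, ∃ z : Pts i V →₀ E,
      Pool.Agent.Lib_helper66.OneP.cls (T i) V z = S.Q i (2 * i) f ((T i).cl U x) ∧
        pfc E i (etPr f) z = Finsupp.single x (D : E)) (h : PF (T i) V) : PF (T i) U := by
  have hc : (D : E) ≠ 0 := Nat.cast_ne_zero.2 hD
  refine ⟨?_, ?_, ?_⟩
  · intro m hm
    have h1 : S.pb i (2 * i) f m ∈ (T i).gen V :=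
      maxGen_map ((T i).frob (2 * i) U) ((T i).frob (2 * i) V) (S.pb i (2 * i) f)
        (hF i (2 * i) f) hm
    obtain ⟨z, hz⟩ := exists_cls (T i) _ _ (h.1 h1)
    have h2 := (CUB.Asm2.s_PFC.{v}).2.2.2.1 k E T hT i _ _ (etPr f) z
    have h3 : hT.G i (2 * i) (etPr f) (clz (T i) _ z) = (D : E) • m := by
      have h4 := hG (2 * i) m
      have h5 : clz (T i) _ z = S.Q i (2 * i) f m := hz
      rw [h5]
      exact h4
    rw [h3] at h2
    have h6 : m = (D : E)⁻¹ • clz (T i) _ (pfc E i (etPr f) z) := by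
      rw [h2, smul_smul, inv_mul_cancel₀ hc, one_smul]
    rw [h6]
    exact Submodule.smul_mem _ _ ((T i).linComb_mem_alg _ _)
  · have hI := h.2.1
    rw [injC_iff] at hI ⊢
    intro x hx
    obtain ⟨z, h1, h2⟩ := exists_pull f S D hC x
    have h3 : clz (T i) _ z = 0 := by
      rw [h1, show clz (T i) _ x = 0 from hx, map_zero]
    have h4 := (CUB.Asm2.s_PUSHR.{v}) k E T hT i _ _ (etPr f)
      (fun W hW => ((T i).inj_iff W).mp (hP.divisors i W hW)) z (hI z h3)
    rw [h2] at h4
    have h5 := Submodule.smul_mem _ (D : E)⁻¹ h4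
    rwa [smul_smul, inv_mul_cancel₀ hc, one_smul] at h5
  · intro m hm
    have h1 : S.Q i (2 * i + 1) f m ∈ gen1 (T i) V :=
      maxGen_map ((T i).frob (2 * i + 1) U) ((T i).frob (2 * i + 1) V)
        (S.pb i (2 * i + 1) f) (hF i (2 * i + 1) f) hm
    have h2 := supp_pf hT i _ _ (etPr f) _ (h.2.2 _ h1)
    rw [hG] at h2
    have h4 := supp_smul i _ _ _ (D : E)⁻¹ _ h2
    rwa [smul_smul, inv_mul_cancel₀ hc, one_smul] at h4

end Et

end ET

/-- The property `PF` descends along finite etale surjective morphisms to integral varieties. -/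
theorem pf_et [CharZero E] (hT : Full T) (hP : Pub T hT) (hE : EtTrans T hT.toProperMaps)
    (i : ℕ) {V U : Var k} (f : Pool.Agent.Lib_helper66.OneP.FinEt V U) (hint : IsIntegral U.X)
    (h : PF (T i) V) : PF (T i) U := by
  obtain ⟨S, hF, hS⟩ := hE
  obtain ⟨c, hc0, hPG, hC⟩ := hS f hint
  exact ET.pf_et f S c hT hP hF hc0 (hPG i) (hC i) h

end QCV


end

section

/-!
# QCV, block O: the property `PF` ascends to a double cover whose involution acts trivially
-/

set_option autoImplicit false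

open CategoryTheory AlgebraicGeometry Limits Polynomial TopologicalSpace

namespace QCV

open Pool.Agent.Lib_helper55.Beil Pool.Agent.Lib_helper66.OneP CUB

universe v

namespace OPFD

/-! ## Base change of double covers -/

section Ring

variable {A : Type} [CommRing A] (b c : A)

/-- A ring homomorphism induces a homomorphism of the double covers. -/
noncomputable def mapHom {B : Type} [CommRing B] (φ : A →+* B) :
    Dr A b c →+* Dr B (φ b) (φ c) :=
  AdjoinRoot.lift ((algebraMap B (Dr B (φ b) (φ c))).comp φ) (rt (φ b) (φ c)) (by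
    rw [eval₂_dpoly]
    exact rt_eq _ _)

lemma mapHom_of {B : Type} [CommRing B] (φ : A →+* B) (a : A) :
    mapHom b c φ (algebraMap A (Dr A b c) a) = algebraMap B (Dr B (φ b) (φ c)) (φ a) :=
  AdjoinRoot.lift_of _

lemma mapHom_surjective {B : Type} [CommRing B] (φ : A →+* B) (hφ : Function.Surjective φ) :
    Function.Surjective (mapHom b c φ) := by
  intro y
  obtain ⟨q, rfl⟩ := AdjoinRoot.mk_surjective y
  obtain ⟨p, rfl⟩ := Polynomial.map_surjective φ hφ q
  refine ⟨AdjoinRoot.mk _ p, ?_⟩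
  have h1 : mapHom b c φ (AdjoinRoot.mk (dpoly b c) p) =
      p.eval₂ ((algebraMap B (Dr B (φ b) (φ c))).comp φ) (rt (φ b) (φ c)) :=
    AdjoinRoot.lift_mk _ p
  rw [h1, ← Polynomial.eval₂_map]
  exact AdjoinRoot.aeval_eq (f := dpoly (φ b) (φ c)) (p.map φ)

variable {k : Type} [Field k] [Algebra k A]

/-- An algebra homomorphism induces a homomorphism of the double covers. -/
noncomputable def mapAlg {B : Type} [CommRing B] [Algebra k B] (φ : A →ₐ[k] B) :
    Dr A b c →ₐ[k] Dr B (φ b) (φ c) :=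
  { mapHom b c φ.toRingHom with
    commutes' := fun r => by
      have h := mapHom_of b c φ.toRingHom (algebraMap k A r)
      have h2 : φ.toRingHom (algebraMap k A r) = algebraMap k B r := φ.commutes r
      rw [h2] at h
      exact h }

lemma mapAlg_surjective {B : Type} [CommRing B] [Algebra k B] (φ : A →ₐ[k] B)
    (hφ : Function.Surjective φ) : Function.Surjective (mapAlg b c φ) :=
  mapHom_surjective b c φ.toRingHom hφ

lemma mapAlg_comp {B : Type} [CommRing B] [Algebra k B] (φ : A →ₐ[k] B) :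
    (mapAlg b c φ).comp (drHom b c k) = (drHom (φ b) (φ c) k).comp φ :=
  AlgHom.ext fun a => mapHom_of b c φ.toRingHom a

end Ring

variable {k : Type} [Field k] {E : Type} [Field E] {T : ∀ i : ℕ, Homology.{v} k E i}

/-! ## Injectivity of the push-forward -/

lemma inj_G [CharZero E] (hT : Full T) (S : DblMaps T) (hGal : S.Galois hT.toProperMaps)
    (i n : ℕ) (A : Type) [CommRing A] [Algebra k A] [Algebra.FiniteType k A] (b c : A)
    (hτ : ∀ m : (T i).H n (aff k (Dr A b c)), (T i).P n (autc (dinv b c k)) m = m)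
    (m m' : (T i).H n (aff k (Dr A b c)))
    (h : hT.G i n (dbl b c k) m = hT.G i n (dbl b c k) m') : m = m' := by
  have h1 := hGal i n A b c m
  have h2 := hGal i n A b c m'
  rw [hτ] at h1 h2
  rw [← h] at h2
  have h3 : (2 : E) • m = (2 : E) • m' := by
    rw [two_smul, two_smul, ← h1, ← h2]
  have h4 := congrArg (fun x => (2 : E)⁻¹ • x) h3
  simp only [smul_smul] at h4
  rwa [inv_mul_cancel₀ (two_ne_zero), one_smul, one_smul] at h4

/-! ## Algebraicity -/

theorem good_up [CharZero E] (hT : Full T) (S : DblMaps T) (hC : S.Classes) (i : ℕ) (A : Type)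
    [CommRing A] [Algebra k A] [Algebra.FiniteType k A] (b c : A)
    (hinj : ∀ m m' : (T i).H (2 * i) (aff k (Dr A b c)),
      hT.G i (2 * i) (dbl b c k) m = hT.G i (2 * i) (dbl b c k) m' → m = m')
    (h : (T i).gen (aff k A) ≤ (T i).alg (aff k A)) :
    (T i).gen (aff k (Dr A b c)) ≤ (T i).alg (aff k (Dr A b c)) := by
  intro m hm
  have h1 : hT.pf i (2 * i) (dbl b c k) m ∈ (T i).gen (aff k A) :=
    maxGen_map ((T i).frob (2 * i) (aff k (Dr A b c))) ((T i).frob (2 * i) (aff k A))
      (hT.pf i (2 * i) (dbl b c k)) (hT.pfFrobenius i (2 * i) (dbl b c k)) hm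
  obtain ⟨x, hx⟩ := exists_cls (T i) _ _ (h h1)
  obtain ⟨z, -, hz⟩ := exists_dbl S hC i A b c x
  have h2 := (CUB.Asm2.s_PFC.{v}).2.2.2.1 k E T hT i _ _ (dbl b c k) z
  have h3 : clz (T i) (aff k A) ((2 : E) • x) = (2 : E) • clz (T i) (aff k A) x :=
    map_smul (Finsupp.linearCombination E ((T i).cl (aff k A))) (2 : E) x
  rw [hz, h3] at h2
  have h4 : clz (T i) _ z = (2 : E) • m := by
    apply hinj
    have h5 : hT.G i (2 * i) (dbl b c k) ((2 : E) • m) =
        (2 : E) • hT.G i (2 * i) (dbl b c k) m :=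
      map_smul (hT.pf i (2 * i) (dbl b c k)) (2 : E) m
    have h6 : clz (T i) (aff k A) x = hT.G i (2 * i) (dbl b c k) m := hx
    rw [h5, ← h6]
    exact h2.symm
  have h7 : m = (2 : E)⁻¹ • clz (T i) _ z := by
    rw [h4, smul_smul, inv_mul_cancel₀ (two_ne_zero), one_smul]
  rw [h7]
  exact Submodule.smul_mem _ _ ((T i).linComb_mem_alg _ _)

/-! ## Injectivity of the cycle class map -/

theorem injC_up [CharZero E] (hT : Full T) (hL : S_OLFT) (hK : S_OKER) (i : ℕ) (A : Type)
    [CommRing A] [Algebra k A] [Algebra.FiniteType k A] (b c : A)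
    (hcyc : ∀ z : Pts i (aff k (Dr A b c)) →₀ E,
      z - pushCyc (autc (dinv b c k)) z ∈ ratZero E i (aff k (Dr A b c)))
    (h : (T i).InjC (aff k A)) : (T i).InjC (aff k (Dr A b c)) := by
  rw [injC_iff] at h ⊢
  intro z hz
  have h2 := (CUB.Asm2.s_PFC.{v}).2.2.2.1 k E T hT i _ _ (dbl b c k) z
  have h3 : clz (T i) (aff k A) (pfc E i (dbl b c k) z) = 0 := by
    rw [h2, show clz (T i) _ z = 0 from hz]
    exact map_zero (hT.pf i (2 * i) (dbl b c k))
  obtain ⟨z', hz', hzz⟩ := hL k E A b c i _ (h _ h3)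
  have h4 : pfc E i (dbl b c k) (z - z') = 0 := by
    rw [map_sub, hzz, sub_self]
  have h5 := hK k E A b c i _ h4
  rw [pushCyc_sub'] at h5
  have h6 := hcyc z
  have h7 := hcyc z'
  set τ := pushCyc (autc (dinv b c k)) z with hτ
  set τ' := pushCyc (autc (dinv b c k)) z' with hτ'
  have h8 : (2 : E) • z = (z - τ) + ((2 : E) • z' - (z' - τ')) := by
    have h9 : z = z' - τ + τ' := by
      have : z - z' + (τ - τ') = 0 := h5
      rw [← sub_eq_zero]
      rw [← this]
      abel
    rw [two_smul, two_smul]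
    nth_rewrite 2 [h9]
    abel
  have h9 : (2 : E) • z ∈ ratZero E i (aff k (Dr A b c)) := by
    rw [h8]
    exact add_mem h6 (sub_mem (Submodule.smul_mem _ _ hz') h7)
  have h10 := Submodule.smul_mem _ (2 : E)⁻¹ h9
  rwa [smul_smul, inv_mul_cancel₀ (two_ne_zero), one_smul] at h10

/-! ## Supports -/

/-- The vanishing ideal of a closed subset of an affine variety. -/
def idl (A : Type) [CommRing A] [Algebra k A] [Algebra.FiniteType k A]
    (C : Closeds (aff k A).X) : Ideal A :=
  PrimeSpectrum.vanishingIdeal {p : PrimeSpectrum A | toPt (k := k) p ∈ C}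

lemma range_idl (A : Type) [CommRing A] [Algebra k A] [Algebra.FiniteType k A]
    (C : Closeds (aff k A).X) :
    Set.range (clo (Ideal.Quotient.mkₐ k (idl A C)) (Ideal.Quotient.mkₐ_surjective k _)).g =
      (C : Set (aff k A).X) := by
  have h1 : Set.range (PrimeSpectrum.comap (Ideal.Quotient.mk (idl A C))) =
      {p : PrimeSpectrum A | toPt (k := k) p ∈ C} := by
    rw [range_comap_of_surjective _ _ Ideal.Quotient.mk_surjective, Ideal.mk_ker,
      idl, PrimeSpectrum.zeroLocus_vanishingIdeal_eq_closure]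
    have h2 : IsClosed {p : PrimeSpectrum A | toPt (k := k) p ∈ C} := C.isClosed
    exact h2.closure_eq
  exact h1

lemma supp_up [CharZero E] (hT : Full T) (S : DblMaps T) (hD : S.Degree hT.toProperMaps)
    (i n e : ℕ) (A : Type) [CommRing A] [Algebra k A] [Algebra.FiniteType k A] (b c : A)
    (hinj : ∀ m m' : (T i).H n (aff k (Dr A b c)),
      hT.G i n (dbl b c k) m = hT.G i n (dbl b c k) m' → m = m')
    (m : (T i).H n (aff k (Dr A b c)))
    (h : Supp (T i) n e (aff k A) (hT.G i n (dbl b c k) m)) :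
    Supp (T i) n e (aff k (Dr A b c)) m := by
  obtain ⟨C, hC, w0, hw0⟩ := h
  have hred := REDI.isReduced_closedVar (aff k A) C
  let φ := Ideal.Quotient.mkₐ k (idl A C)
  have hφ : Function.Surjective φ := Ideal.Quotient.mkₐ_surjective k _
  let ι := clo φ hφ
  obtain ⟨l, hl⟩ := exists_factor_range ι (closedVarIn (aff k A) C) (by
    rw [range_closedVarIn]
    exact (range_idl A C).ge)
  let ι' := clo (mapAlg b c φ) (mapAlg_surjective b c φ hφ)
  let g' := dbl (φ b) (φ c) k
  let w := (T i).P n l w0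
  have hw : (T i).P n ι w = hT.G i n (dbl b c k) m := by
    rw [← hw0]
    exact hT.push_comp i n _ _ _ l ι (closedVarIn (aff k A) C) hl w0
  let w' := (2 : E)⁻¹ • S.D i n _ (φ b) (φ c) w
  have hw' : hT.G i n g' w' = w := by
    have h1 : hT.G i n g' w' = (2 : E)⁻¹ • hT.G i n g' (S.D i n _ (φ b) (φ c) w) :=
      map_smul (hT.pf i n g') _ _
    have h2 : hT.G i n g' (S.D i n _ (φ b) (φ c) w) = (2 : E) • w := hD i n _ (φ b) (φ c) w
    rw [h1, h2, smul_smul, inv_mul_cancel₀ (two_ne_zero), one_smul]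
  have hsq : ι'.g ≫ (dbl b c k).g = g'.g ≫ ι.g := by
    change spm _ ≫ spm _ = spm _ ≫ spm _
    rw [spm_comp, spm_comp, mapAlg_comp]
  have h3 : (T i).P n ι' w' = m := by
    apply hinj
    rw [← hw, ← hw', ← hT.pfClosed i n ι' (clPr ι') rfl, ← hT.pfClosed i n ι (clPr ι) rfl,
      hT.pfFunctorial i n (clPr ι') (dbl b c k) ((clPr ι').trans (dbl b c k)) rfl,
      hT.pfFunctorial i n g' (clPr ι) ((clPr ι').trans (dbl b c k)) hsq.symm]
  rw [← h3]
  refine supp_mk hT.toExtra i n e ι' ?_ w'
  intro y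
  rw [← dim_dbl (φ b) (φ c) y]
  have := ι.closed
  rw [← dim_map ι.g ι.comm]
  apply hC
  have h4 : ι.g (g'.g y) ∈ Set.range ι.g := ⟨_, rfl⟩
  rw [range_idl A C] at h4
  exact h4

end OPFD

/-- **OPFD**. -/
theorem t_OPFD : M_OPFD.{v} := by
  intro hL hK k E _ _ _ _ T hT S _ _ hD hC hGal A _ _ _ b c i hA hTR
  have hi0 := OPFD.inj_G hT S hGal i (2 * i) A b c (hTR.hom (2 * i) le_rfl)
  have hi1 := OPFD.inj_G hT S hGal i (2 * i + 1) A b c (hTR.hom (2 * i + 1) (by omega))
  refine ⟨OPFD.good_up hT S hC i A b c hi0 hA.1, OPFD.injC_up hT hL hK i A b c hTR.cyc hA.2.1, ?_⟩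
  intro m hm
  apply OPFD.supp_up hT S hD i _ _ A b c hi1
  apply hA.2.2
  exact maxGen_map ((T i).frob (2 * i + 1) (aff k (Dr A b c))) ((T i).frob (2 * i + 1) (aff k A))
    (hT.pf i (2 * i + 1) (dbl b c k)) (hT.pfFrobenius i (2 * i + 1) (dbl b c k)) hm

end QCV


end

section

/-!
# QCV_QDL: the variables which do not occur
-/

set_option autoImplicit false

namespace QCV

namespace O_QDL

open MvPolynomial

lemma spl_dia {B : Type} [CommRing B] {n ρ : ℕ} (hρ : ρ ≤ n) (v : Fin n → B)
    (hv : ∀ j : Fin n, ¬ j.1 < ρ → v j = 0) :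
    P_SPL.spl (R := B) hρ (dia v) =
      C (dia fun j : Fin ρ => v (Fin.castLE hρ j)) := by
  obtain ⟨r, rfl⟩ := Nat.exists_eq_add_of_le hρ
  unfold dia
  rw [map_sum, map_sum, Fin.sum_univ_add]
  have h2 : ∑ i : Fin r, P_SPL.spl (R := B) hρ
      (C (v (Fin.natAdd ρ i)) * X (Fin.natAdd ρ i) ^ 2) = 0 := by
    refine Finset.sum_eq_zero fun i _ => ?_
    rw [hv (Fin.natAdd ρ i) (by simp), C_0, zero_mul, map_zero]
  rw [h2, add_zero]
  refine Finset.sum_congr rfl fun i _ => ?_
  rw [map_mul, map_pow, P_SPL.spl_C, P_SPL.spl_X_lt hρ (Fin.castAdd r i) (by simp), map_mul,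
    map_pow]
  rfl

end O_QDL

open _root_.QCV.O_QDL in
/-- QCV_QDL. -/
theorem t_QDL : S_QDL := by
  intro k B _ _ _ n ρ hρ v hv
  set g : MvPolynomial (Fin ρ) B := dia fun j : Fin ρ => v (Fin.castLE hρ j) with hg
  refine ⟨(Ideal.quotientEquivAlg (Ideal.span {dia v})
    (Ideal.map (MvPolynomial.C (σ := Fin (n - ρ))) (Ideal.span {g}))
    ((P_SPL.spl hρ).restrictScalars k) ?_).trans
    ((MvPolynomial.quotientEquivQuotientMvPolynomial (Ideal.span {g})).restrictScalars k).symm⟩
  rw [Ideal.map_span, Ideal.map_span, Set.image_singleton, Set.image_singleton]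
  congr 2
  exact (spl_dia hρ v hv).symm

end QCV


end

section

/-!
# QCV, upgrade: it is enough to know the conjecture for smooth proper varieties
-/

set_option autoImplicit false

open CategoryTheory AlgebraicGeometry Limits Polynomial TopologicalSpace

namespace QCV

open Pool.Agent.Lib_helper55.Beil Pool.Agent.Lib_helper66.OneP CUB

universe v

variable {k : Type} [Field k] {E : Type} [Field E]

variable {T : ∀ i : ℕ, Homology.{v} k E i}

namespace U4

/-- The property for an open part of an integral variety. -/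
lemma pf_part [Finite k] [CharZero E] (hT : Full T) (hP : Pub T hT)
    (hA : Pool.Agent.Lib_helper66.OneP.Alterations k) (i : ℕ) (hPu : Purity (T i))
    (hE : EtTrans T hT.toProperMaps) (d : ℕ)
    (h : ∀ (Y : Var k) (D : ℕ), D ≤ d → Y.SmoothProper D → Q1 (T i) Y) (e : ℕ) (he : e + 1 ≤ d)
    (hlow : ∀ Z : Var k, Z.DimLE e → PF (T i) Z) (V₀ : Var k) (hint : IsIntegral V₀.X)
    (hdim : V₀.DimLE (e + 1 : ℕ)) :
    ∃ (U' : Var k) (_ : OpenIn U' V₀), Nonempty U'.X ∧ PF (T i) U' := by
  obtain ⟨D, hD⟩ := t_DST.2.1 k V₀ (genericPoint V₀.X)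
  obtain ⟨U', V, Y, j, p, o, hne, hsp⟩ := hA V₀ hint D hD
  refine ⟨U', j, hne, ?_⟩
  have hDd : D ≤ e + 1 := by
    have := hdim (genericPoint V₀.X)
    rw [hD] at this
    exact_mod_cast this
  have hsp' := hsp
  obtain ⟨-, -, hYint, hYdim⟩ := hsp'
  have hop := o.isOpen
  let K : Closeds Y.X := (⟨Set.range o.g, o.g.isOpenEmbedding.isOpen_range⟩ : Opens Y.X).compl
  have hcomp : Complementary (closedVarIn Y K) o := by
    rw [Complementary, range_closedVarIn]
    rfl
  have hQ := h Y D (hDd.trans he) hsp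
  have hY : PF (T i) Y := by
    refine ⟨CUB.OPEN.good (T i) Y hQ.2.1 hQ.2.2, ((T i).inj_iff Y).mp hQ.1, ?_⟩
    intro m hm
    have h0 : m = 0 := maxGen_eq_bot ((T i).frob (2 * i + 1) Y)
      (fun z hz => hPu Y D hsp z hz) hm
    rw [h0]
    exact supp_zero _ _ _ _
  have hVne : Nonempty V.X := by
    obtain ⟨u⟩ := hne
    obtain ⟨v, -⟩ := p.surj.surj u
    exact ⟨v⟩
  have hgen : genericPoint Y.X ∈ Set.range o.g := by
    obtain ⟨v⟩ := hVne
    exact (genericPoint_specializes (o.g v)).mem_open o.g.isOpenEmbedding.isOpen_range ⟨v, rfl⟩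
  have hKd : ∀ x ∈ K, Y.dim x ≤ e := by
    intro x hx
    have hne' : genericPoint Y.X ≠ x := by
      rintro rfl
      exact hx hgen
    have h7 := t_DST.1 k Y (genericPoint Y.X) x (genericPoint_specializes x) hne'
    rw [hYdim] at h7
    obtain ⟨n, hn⟩ := t_DST.2.1 k Y x
    rw [hn] at h7 ⊢
    have h8 : n < D := by exact_mod_cast h7
    have h9 : n ≤ e := by omega
    exact_mod_cast h9
  have hV : PF (T i) V := by
    have hZ := hlow _ (dimLE_of_mem K hKd)
    rcases i with _ | i
    · exact pf_zero hT hP V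
    · exact pf_open hT hP i (closedVarIn Y K) o hcomp hY hZ
  have hj := j.isOpen
  have hU'int : IsIntegral U'.X := isIntegral_of_isOpenImmersion j.g
  exact pf_et hT hP hE i p hU'int hV

lemma pf_auxd [PerfectField k] (hT : Full T) (hP : Pub T hT) (i e : ℕ)
    (hpart : ∀ V₀ : Var k, IsIntegral V₀.X → V₀.DimLE (e : ℕ) →
      ∃ (U' : Var k) (_ : OpenIn U' V₀), Nonempty U'.X ∧ PF (T i) U')
    (X₀ : Var k) (C : Closeds X₀.X) :
    ∀ (Y : Var k) (g : Y.X ⟶ X₀.X), g ≫ X₀.f = Y.f → IsPreimmersion g → (∀ y, g y ∈ C) →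
      Y.DimLE (e : ℕ) → PF (T i) Y := by
  induction C using WellFoundedLT.induction with
  | ind C ih =>
  intro Y g comm hg hC hdimY
  apply pf_of_red hT hP
  have hdimR : (redVar Y).DimLE (e : ℕ) := dimLE_red hdimY
  have hred := isReduced_redVar Y
  have hcl := (redVarIn Y).closed
  set Y' := redVar Y
  set g' : Y'.X ⟶ X₀.X := (redVarIn Y).g ≫ g
  have comm' : g' ≫ X₀.f = Y'.f := by
    rw [Category.assoc, comm, (redVarIn Y).comm]
  have hC' : ∀ y, g' y ∈ C := fun y => hC _
  rcases isEmpty_or_nonempty Y'.X with he | ⟨⟨x⟩⟩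
  · exact pf_of_isEmpty hT i _ he
  obtain ⟨η, -, hη⟩ := exists_maximal Y' x
  obtain ⟨U, hU1, -, hU3, hU4, hU5, hU6⟩ := exists_nice Y' η hη ⊤ trivial
  have hop := (openVarIn Y' U).isOpen
  obtain ⟨U', j, ⟨u⟩, hU'⟩ := hpart (openVar Y' U) hU5 (dimLE_open (openVarIn Y' U) hdimR)
  let jj : OpenIn U' Y' := j.trans (openVarIn Y' U)
  have hjj := jj.isOpen
  let K : Closeds Y'.X := (⟨Set.range jj.g, jj.g.isOpenEmbedding.isOpen_range⟩ : Opens Y'.X).compl
  have hcomp : Complementary (closedVarIn Y' K) jj := by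
    rw [Complementary, range_closedVarIn]
    rfl
  refine pf_glue hT hP i (closedVarIn Y' K) jj hcomp ?_ hU'
  have hclK := (closedVarIn Y' K).closed
  refine ih (Closeds.closure (g' '' (K : Set Y'.X)))
    (lt_of_closed g' C hC' K (jj.g u) (fun hcon => hcon ⟨u, rfl⟩))
    (closedVar Y' K) ((closedVarIn Y' K).g ≫ g') ?_ inferInstance ?_
    (dimLE_closed (closedVarIn Y' K) hdimR)
  · rw [Category.assoc, comm', (closedVarIn Y' K).comm]
  · intro y
    have h1 : (closedVarIn Y' K).g y ∈ (K : Set Y'.X) := by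
      rw [← range_closedVarIn]
      exact ⟨y, rfl⟩
    exact subset_closure ⟨_, h1, rfl⟩

end U4

/-- If the conjecture holds for smooth proper varieties of dimension at most `d` in degree `i`,
then all varieties of dimension at most `d` have the property `PF` in degree `i`. -/
theorem pf_of_sp [Finite k] [CharZero E] (hT : Full T) (hP : Pub T hT)
    (hA : Pool.Agent.Lib_helper66.OneP.Alterations k) (i : ℕ) (hPu : Purity (T i))
    (hE : EtTrans T hT.toProperMaps) (d : ℕ)
    (h : ∀ (Y : Var k) (D : ℕ), D ≤ d → Y.SmoothProper D → Q1 (T i) Y) (e : ℕ) (he : e ≤ d) :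
    ∀ X : Var k, X.DimLE (e : ℕ) → PF (T i) X := by
  induction e with
  | zero =>
    intro X hX
    exact pf_of_dimLE hT hP i X fun x => (hX x).trans (by exact_mod_cast Nat.zero_le i)
  | succ e ih =>
    intro X hX
    exact U4.pf_auxd hT hP i (e + 1) (fun V₀ hint hdim => U4.pf_part hT hP hA i hPu hE d h e he
      (ih (by omega)) V₀ hint hdim) X ⊤ X (𝟙 _) (Category.id_comp _) inferInstance
      (fun _ => trivial) hX

/-- All degrees. -/
theorem pp_of_sp [Finite k] [CharZero E] (hT : Full T) (hP : Pub T hT)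
    (hA : Pool.Agent.Lib_helper66.OneP.Alterations k) (hPu : ∀ i, Purity (T i))
    (hE : EtTrans T hT.toProperMaps) (d : ℕ)
    (h : ∀ (Y : Var k) (D : ℕ), D ≤ d → Y.SmoothProper D → ∀ i, Q1 (T i) Y) (X : Var k)
    (hX : X.DimLE d) : PP T X :=
  (pp_iff hT.toExtra X).mpr fun i => pf_of_sp hT hP hA i (hPu i) hE d
    (fun Y D hD hY => h Y D hD hY i) d le_rfl X hX

/-- If the conjecture holds for smooth proper varieties of dimension at most `d`, then it holds for
all varieties of dimension at most `d`. -/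
theorem q1_of_sp [Finite k] [CharZero E] (hT : Full T) (hP : Pub T hT)
    (hA : Pool.Agent.Lib_helper66.OneP.Alterations k) (hPu : ∀ i, Purity (T i))
    (hE : EtTrans T hT.toProperMaps) (d : ℕ)
    (h : ∀ (Y : Var k) (D : ℕ), D ≤ d → Y.SmoothProper D → ∀ i, Q1 (T i) Y) (X : Var k)
    (hX : X.DimLE d) (i : ℕ) : Q1 (T i) X := by
  have h1 := pp_of_sp hT hP hA hPu hE d h X hX i
  exact ⟨h1.inj, (T i).surj_of_good X h1.gg, (T i).semisimple_of_good X h1.gg⟩

end QCV


end

section

/-!
# QCV, upgrade: the class of varieties contains all varieties of dimension at most `d` if the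
conjecture holds for them (all degrees)
-/

set_option autoImplicit false

open CategoryTheory AlgebraicGeometry Limits Polynomial TopologicalSpace

namespace QCV

open Pool.Agent.Lib_helper55.Beil Pool.Agent.Lib_helper66.OneP CUB

universe v

variable {k : Type} [Field k] {E : Type} [Field E]

variable {T : ∀ i : ℕ, Homology.{v} k E i}

namespace U2

/-- The supports for an open part of an integral variety. -/
lemma supp_part [CharZero E] (hT : Full T) (hP : Pub T hT) (hA : Pool.Agent.Lib_helper66.OneP.Alterations k)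
    (hPu : ∀ i, Purity (T i)) (hE : EtPull T hT.toProperMaps) (d i : ℕ)
    (hG : ∀ X : Var k, X.DimLE d → (T i).gen X ≤ (T i).alg X)
    (hI : ∀ X : Var k, X.DimLE d → (T i).InjC X)
    (V₀ : Var k) (hint : IsIntegral V₀.X) (hdim : V₀.DimLE d) :
    ∃ (U' : Var k) (_ : OpenIn U' V₀), Nonempty U'.X ∧
      ∀ m ∈ gen1 (T i) U', Supp (T i) (2 * i + 1) (i + 1) U' m := by
  obtain ⟨D, hD⟩ := t_DST.2.1 k V₀ (genericPoint V₀.X)
  obtain ⟨U', V, Y, j, p, o, hne, hsp⟩ := hA V₀ hint D hD
  refine ⟨U', j, hne, ?_⟩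
  have hDd : D ≤ d := by
    have := hdim (genericPoint V₀.X)
    rw [hD] at this
    exact_mod_cast this
  have hsp' := hsp
  obtain ⟨-, -, hYint, hYdim⟩ := hsp'
  have hYd : Y.DimLE d := fun x => by
    refine (dim_le_of_specializes Y (genericPoint_specializes x)).trans ?_
    rw [hYdim]
    exact_mod_cast hDd
  -- supports on `V`
  have hop := o.isOpen
  let K : Closeds Y.X := (⟨Set.range o.g, o.g.isOpenEmbedding.isOpen_range⟩ : Opens Y.X).compl
  have hcomp : Complementary (closedVarIn Y K) o := by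
    rw [Complementary, range_closedVarIn]
    rfl
  have hV : ∀ m ∈ gen1 (T i) V, Supp (T i) (2 * i + 1) (i + 1) V m := by
    refine supp_open hT hP i (closedVarIn Y K) o hcomp
      (hG _ (dimLE_closed (closedVarIn Y K) hYd)) (hI Y hYd) ?_
    intro m hm
    have h0 : m = 0 := maxGen_eq_bot ((T i).frob (2 * i + 1) Y)
      (fun z hz => hPu i Y D hsp z hz) hm
    rw [h0]
    exact supp_zero _ _ _ _
  -- descent
  intro m hm
  have hj := j.isOpen
  have hU'int : IsIntegral U'.X := isIntegral_of_isOpenImmersion j.g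
  obtain ⟨S, hF, hS⟩ := hE
  obtain ⟨c, hc0, hPG⟩ := hS p hU'int
  have hc : (c : E) ≠ 0 := Nat.cast_ne_zero.2 hc0
  have h1 : S.Q i (2 * i + 1) p m ∈ gen1 (T i) V :=
    maxGen_map ((T i).frob (2 * i + 1) U') ((T i).frob (2 * i + 1) V)
      (S.pb i (2 * i + 1) p) (hF i (2 * i + 1) p) hm
  have h2 := supp_pf hT i _ _ (etPr p) _ (hV _ h1)
  rw [hPG] at h2
  have h4 := supp_smul i _ _ _ (c : E)⁻¹ _ h2
  rwa [smul_smul, inv_mul_cancel₀ hc, one_smul] at h4

lemma supp_of_isEmpty (hT : Full T) (i : ℕ) (X : Var k) (h : IsEmpty X.X) :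
    ∀ m ∈ gen1 (T i) X, Supp (T i) (2 * i + 1) (i + 1) X m := fun m _ =>
  supp_of_dimLE hT.toExtra i _ _ X (fun x => (h.false x).elim) m

lemma supp_aux [PerfectField k] [CharZero E] (hT : Full T) (hP : Pub T hT) (hA : Pool.Agent.Lib_helper66.OneP.Alterations k)
    (hPu : ∀ i, Purity (T i)) (hE : EtPull T hT.toProperMaps) (d i : ℕ)
    (hG : ∀ X : Var k, X.DimLE d → (T i).gen X ≤ (T i).alg X)
    (hI : ∀ X : Var k, X.DimLE d → (T i).InjC X) (X₀ : Var k) (C : Closeds X₀.X) :
    ∀ (Y : Var k) (g : Y.X ⟶ X₀.X), g ≫ X₀.f = Y.f → IsPreimmersion g → (∀ y, g y ∈ C) →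
      Y.DimLE d → ∀ m ∈ gen1 (T i) Y, Supp (T i) (2 * i + 1) (i + 1) Y m := by
  induction C using WellFoundedLT.induction with
  | ind C ih =>
  intro Y g comm hg hC hdimY
  have hdimR : (redVar Y).DimLE d := dimLE_red hdimY
  refine supp_glue hT hP i (redVarIn Y) (openVarIn Y ⊥) (complementary_red Y)
    (supp_of_isEmpty hT i _ (isEmpty_openVar_bot Y)) (hI _ hdimR) ?_
  have hred := isReduced_redVar Y
  have hcl := (redVarIn Y).closed
  set Y' := redVar Y
  set g' : Y'.X ⟶ X₀.X := (redVarIn Y).g ≫ g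
  have comm' : g' ≫ X₀.f = Y'.f := by
    rw [Category.assoc, comm, (redVarIn Y).comm]
  have hC' : ∀ y, g' y ∈ C := fun y => hC _
  rcases isEmpty_or_nonempty Y'.X with he | ⟨⟨x⟩⟩
  · exact supp_of_isEmpty hT i _ he
  obtain ⟨η, -, hη⟩ := exists_maximal Y' x
  obtain ⟨U, hU1, -, hU3, hU4, hU5, hU6⟩ := exists_nice Y' η hη ⊤ trivial
  have hop := (openVarIn Y' U).isOpen
  obtain ⟨U', j, ⟨u⟩, hU'⟩ := supp_part hT hP hA hPu hE d i hG hI (openVar Y' U) hU5
    (dimLE_open (openVarIn Y' U) hdimR)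
  let jj : OpenIn U' Y' := j.trans (openVarIn Y' U)
  have hjj := jj.isOpen
  let K : Closeds Y'.X := (⟨Set.range jj.g, jj.g.isOpenEmbedding.isOpen_range⟩ : Opens Y'.X).compl
  have hcomp : Complementary (closedVarIn Y' K) jj := by
    rw [Complementary, range_closedVarIn]
    rfl
  have hdimK := dimLE_closed (closedVarIn Y' K) hdimR
  refine supp_glue hT hP i (closedVarIn Y' K) jj hcomp hU' (hI _ hdimK) ?_
  have hclK := (closedVarIn Y' K).closed
  refine ih (Closeds.closure (g' '' (K : Set Y'.X)))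
    (lt_of_closed g' C hC' K (jj.g u) (fun hcon => hcon ⟨u, rfl⟩))
    (closedVar Y' K) ((closedVarIn Y' K).g ≫ g') ?_ inferInstance ?_ hdimK
  · rw [Category.assoc, comm', (closedVarIn Y' K).comm]
  · intro y
    have h1 : (closedVarIn Y' K).g y ∈ (K : Set Y'.X) := by
      rw [← range_closedVarIn]
      exact ⟨y, rfl⟩
    exact subset_closure ⟨_, h1, rfl⟩

end U2

theorem ppf_of_q1 [PerfectField k] [CharZero E] (hT : Full T) (hP : Pub T hT) (hA : Pool.Agent.Lib_helper66.OneP.Alterations k)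
    (hPu : ∀ i, Purity (T i)) (hE : EtPull T hT.toProperMaps) (d : ℕ)
    (hQ : ∀ X : Var k, X.DimLE d → ∀ i, Q1 (T i) X) (X : Var k) (hX : X.DimLE d) : PPF T X := by
  intro i
  have hG : ∀ X : Var k, X.DimLE d → (T i).gen X ≤ (T i).alg X := fun X hX =>
    CUB.OPEN.good (T i) X (hQ X hX i).2.1 (hQ X hX i).2.2
  have hI : ∀ X : Var k, X.DimLE d → (T i).InjC X := fun X hX =>
    ((T i).inj_iff X).mp (hQ X hX i).1
  exact ⟨hG X hX, hI X hX, U2.supp_aux hT hP hA hPu hE d i hG hI X ⊤ X (𝟙 _)
    (Category.id_comp _) inferInstance (fun _ => trivial) hX⟩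

/-- If the conjecture holds in all degrees for all varieties of dimension at most `d`, then these
varieties are in the class. -/
theorem pp_of_q1 [Finite k] [CharZero E] (hT : Full T) (hP : Pub T hT) (hA : Pool.Agent.Lib_helper66.OneP.Alterations k)
    (hPu : ∀ i, Purity (T i)) (hE : EtPull T hT.toProperMaps) (d : ℕ)
    (hQ : ∀ X : Var k, X.DimLE d → ∀ i, Q1 (T i) X) (X : Var k) (hX : X.DimLE d) : PP T X :=
  (pp_iff hT.toExtra X).mpr (ppf_of_q1 hT hP hA hPu hE d hQ X hX)

end QCV


end

section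

/-!
# QCV, upgrade: the conjecture of Tate for smooth proper surfaces implies the surjectivity and the
semisimplicity for the one-dimensional cycles on all surfaces
-/

set_option autoImplicit false

open CategoryTheory AlgebraicGeometry Limits Polynomial TopologicalSpace

namespace QCV

open Pool.Agent.Lib_helper55.Beil Pool.Agent.Lib_helper66.OneP CUB

universe v

variable {k : Type} [Field k] {E : Type} [Field E]

variable {T : ∀ i : ℕ, Homology.{v} k E i}

namespace U3

lemma boundary (hT : Full T) (hP : Pub T hT) (i : ℕ) :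
    Pool.Agent.Lib_helper66.OneP.Boundary (T i) := by
  intro n Z U X a j h
  exact ⟨hT.bd i n a j h, fun u => hP.bdFrob i n a j h u, fun u => hP.resExact i n a j h u⟩

/-- Descent along finite etale coverings. -/
lemma good_et [CharZero E] (hT : Full T) (hE : EtPull T hT.toProperMaps) (i : ℕ) {V U : Var k}
    (f : Pool.Agent.Lib_helper66.OneP.FinEt V U) (hint : IsIntegral U.X)
    (h : (T i).gen V ≤ (T i).alg V) : (T i).gen U ≤ (T i).alg U := by
  obtain ⟨S, hF, hS⟩ := hE
  obtain ⟨c, hc0, hPG⟩ := hS f hint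
  have hc : (c : E) ≠ 0 := Nat.cast_ne_zero.2 hc0
  intro m hm
  have h1 : S.pb i (2 * i) f m ∈ (T i).gen V :=
    maxGen_map ((T i).frob (2 * i) U) ((T i).frob (2 * i) V)
      (S.pb i (2 * i) f) (hF i (2 * i) f) hm
  obtain ⟨z, hz⟩ := exists_cls (T i) _ _ (h h1)
  have h2 := (CUB.Asm2.s_PFC.{v}).2.2.2.1 k E T hT i _ _ (etPr f) z
  have h3 : hT.G i (2 * i) (etPr f) (clz (T i) _ z) = (c : E) • m := by
    have h4 := hPG i (2 * i) m
    have h5 : clz (T i) _ z = S.Q i (2 * i) f m := hz
    rw [h5]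
    exact h4
  rw [h3] at h2
  have h6 : m = (c : E)⁻¹ • clz (T i) _ (pfc E i (etPr f) z) := by
    rw [h2, smul_smul, inv_mul_cancel₀ hc, one_smul]
  rw [h6]
  exact Submodule.smul_mem _ _ ((T i).linComb_mem_alg _ _)

end U3

/-- If the surjectivity and the semisimplicity hold for the smooth proper varieties of dimension
`D`, `i < D ≤ 2 * i`, then they hold for all varieties (cycles of dimension `i`). -/
theorem good_of_sp [Finite k] [CharZero E] (hT : Full T) (hP : Pub T hT)
    (hA : Pool.Agent.Lib_helper66.OneP.Alterations k) (hE : EtPull T hT.toProperMaps) (i : ℕ)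
    (h : ∀ (D : ℕ) (Y : Var k), i < D → D ≤ 2 * i → Y.SmoothProper D →
      (T i).Surj Y ∧ (T i).Semisimple Y) (X : Var k) : (T i).gen X ≤ (T i).alg X := by
  refine (T i).good_all ?_ X
  intro U hint haff hsm h1 h2
  obtain ⟨D, hD⟩ := Cardinal.lt_aleph0.1 (h2.trans_lt (Cardinal.natCast_lt_aleph0))
  rw [hD, Nat.cast_lt] at h1
  rw [hD, Nat.cast_le] at h2
  obtain ⟨U', V, Y, jU, g, jV, hne, hY⟩ := hA U hint D hD
  obtain ⟨hs, hss⟩ := h D Y h1 h2 hY
  have hgood : (T i).gen Y ≤ (T i).alg Y := CUB.OPEN.good (T i) Y hs hss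
  have hj := jU.isOpen
  have hU'int : IsIntegral U'.X := isIntegral_of_isOpenImmersion jU.g
  refine ⟨U', jU, hne, ?_⟩
  exact (T i).surj_of_good U' (U3.good_et hT hE i g hU'int
    (Pool.Agent.Lib_helper66.OneP.good_open (T i) (by omega) (hP.weights i) (U3.boundary hT hP i) jV hgood))

/-- If the surjectivity and the semisimplicity hold for the smooth proper varieties of dimension
`D`, `i < D ≤ 2 * i`, then they hold for all varieties (cycles of dimension `i`). -/
theorem surj_of_sp [Finite k] [CharZero E] (hT : Full T) (hP : Pub T hT)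
    (hA : Pool.Agent.Lib_helper66.OneP.Alterations k) (hE : EtPull T hT.toProperMaps) (i : ℕ)
    (h : ∀ (D : ℕ) (Y : Var k), i < D → D ≤ 2 * i → Y.SmoothProper D →
      (T i).Surj Y ∧ (T i).Semisimple Y) (X : Var k) : (T i).Surj X ∧ (T i).Semisimple X :=
  ⟨(T i).surj_of_good X (good_of_sp hT hP hA hE i h X),
    (T i).semisimple_of_good X (good_of_sp hT hP hA hE i h X)⟩

/-- The conjecture of Tate (with semisimplicity) for the divisors on smooth proper surfaces implies
the surjectivity and the semisimplicity for the one-dimensional cycles on all varieties. -/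
theorem surf_of_sp [Finite k] [CharZero E] (hT : Full T) (hP : Pub T hT)
    (hA : Pool.Agent.Lib_helper66.OneP.Alterations k) (hE : EtPull T hT.toProperMaps)
    (h : ∀ Y : Var k, Y.SmoothProper 2 → (T 1).Surj Y ∧ (T 1).Semisimple Y) (X : Var k) :
    (T 1).Surj X ∧ (T 1).Semisimple X := by
  refine surj_of_sp hT hP hA hE 1 (fun D Y h1 h2 hY => ?_) X
  obtain rfl : D = 2 := by omega
  exact h Y hY

end QCV


end
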