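import Mathlib
import Pool.Agent.QVM.C21
import Pool.Agent.QVM.C45

/-! Parts: QCV.O_ORNG, QCV.C_CUH, QCV.D_DSI, QCV.D_DCX, QCV.U_UHA -/

section

/-!
# QCV, block O: module ORNG
-/

set_option autoImplicit false

open CategoryTheory AlgebraicGeometry Polynomial

namespace QCV

namespace ORNG

/-- the image of a diagonal form under a homomorphism of the coefficients -/
lemma map_dia {A B : Type} [CommRing A] [CommRing B] (φ : A →+* B) {n : ℕ} (a : Fin n → A) :
    MvPolynomial.map φ (dia a) = dia fun j => φ (a j) := by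
  unfold dia
  rw [map_sum]
  refine Finset.sum_congr rfl fun j _ => ?_
  rw [map_mul, map_pow, MvPolynomial.map_C, MvPolynomial.map_X]

/-- two homomorphisms on a double cover -/
lemma hom_ext {A B : Type} [CommRing A] [CommRing B] (b c : A) (f g : Dr A b c →+* B)
    (h1 : ∀ x, f (algebraMap A _ x) = g (algebraMap A _ x)) (h2 : f (rt b c) = g (rt b c))
    (x : Dr A b c) : f x = g x := by
  have h : f = g := by
    apply AdjoinRoot.ringHom_ext
    · ext a
      exact h1 a
    · exact h2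
  rw [h]

/-- transport of the involution -/
lemma transport (k S W : Type) [Field k] [CommRing S] [Algebra k S] [CommRing W] [Algebra k W]
    (c d : S) (w : W) (e : Dr (Dr S 0 c) 0 (algebraMap S _ d) ≃ₐ[k] Dr W 0 w)
    (φ : S → W) (h1 : ∀ s, e (algebraMap (Dr S 0 c) _ (algebraMap S _ s)) = algebraMap W _ (φ s))
    (h2 : e (algebraMap (Dr S 0 c) _ (rt 0 c)) = rt 0 w) :
    ∃ t' : Dr (Dr S 0 c) 0 (algebraMap S _ d) ≃ₐ[k] Dr (Dr S 0 c) 0 (algebraMap S _ d),
      (∀ x, t' (algebraMap (Dr S 0 c) _ x) = algebraMap (Dr S 0 c) _ (dinv 0 c k x)) ∧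
      ∀ x, e (t' x) = dinv _ _ k (e x) := by
  have key : ∀ x : Dr S 0 c, dinv 0 w k (e (algebraMap (Dr S 0 c) _ x)) =
      e (algebraMap (Dr S 0 c) _ (dinv 0 c k x)) := by
    intro x
    refine hom_ext 0 c ((dinv 0 w k).toRingHom.comp
        (e.toRingHom.comp (algebraMap (Dr S 0 c) _)))
      (e.toRingHom.comp ((algebraMap (Dr S 0 c) _).comp (dinv 0 c k).toRingHom)) ?_ ?_ x
    · intro p
      change dinv 0 w k (e (algebraMap (Dr S 0 c) _ (algebraMap _ _ p))) =
        e (algebraMap (Dr S 0 c) _ (dinv 0 c k (algebraMap _ _ p)))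
      rw [dinv_of, h1, dinv_of]
    · change dinv 0 w k (e (algebraMap (Dr S 0 c) _ (rt 0 c))) =
        e (algebraMap (Dr S 0 c) _ (dinv 0 c k (rt 0 c)))
      rw [dinv_rt, h2, dinv_rt, map_zero, map_zero, neg_zero, neg_zero, zero_sub, zero_sub,
        map_neg, map_neg, h2]
  refine ⟨(e.trans (dinv _ _ k)).trans e.symm, ?_, ?_⟩
  · intro x
    rw [AlgEquiv.trans_apply, AlgEquiv.symm_apply_eq]
    exact key x
  · intro x
    rw [AlgEquiv.trans_apply, AlgEquiv.apply_symm_apply]
    rfl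

/-- the isomorphism, for abstract rings -/
lemma core (hDFN : S_DFN) (hDSW : S_DSW) (k S R W : Type) [Field k] [CommRing S] [Algebra k S]
    [CommRing R] [Algebra k R] [CommRing W] [Algebra k W] (c d z : S) (hz : z = 0)
    (m : Dr S z d ≃ₐ[k] R) (c' : R) (hm : m (algebraMap S _ c) = c') (θ : R ≃ₐ[k] W) (w : W)
    (hθ : θ c' = w) :
    ∃ (e : Dr (Dr S 0 c) 0 (algebraMap S _ d) ≃ₐ[k] Dr W 0 w)
      (t' : Dr (Dr S 0 c) 0 (algebraMap S _ d) ≃ₐ[k] Dr (Dr S 0 c) 0 (algebraMap S _ d)),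
      (∀ x, t' (algebraMap (Dr S 0 c) _ x) = algebraMap (Dr S 0 c) _ (dinv 0 c k x)) ∧
      ∀ x, e (t' x) = dinv _ _ k (e x) := by
  obtain ⟨e0, e0a, e0r⟩ := hDFN k (Dr S 0 c) (Dr S 0 c) AlgEquiv.refl 0
    (algebraMap S _ d) (algebraMap S _ z) (algebraMap S _ d)
    (by rw [hz, map_zero, map_zero]) rfl
  obtain ⟨e1, e1a, e1r, e1s⟩ := hDSW k S 0 c z d
  obtain ⟨e2, e2a, e2r⟩ := hDFN k (Dr S z d) R m (algebraMap S _ 0)
    (algebraMap S _ c) 0 c' (by rw [map_zero, map_zero]) hm
  obtain ⟨e3, e3a, e3r⟩ := hDFN k R W θ 0 c' 0 w (map_zero _) hθ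
  obtain ⟨t', h1, h2⟩ := transport k S W c d w (((e0.trans e1).trans e2).trans e3)
    (fun s => θ (m (algebraMap S _ s)))
    (by
      intro s
      change e3 (e2 (e1 (e0 (algebraMap (Dr S 0 c) _ (algebraMap S _ s))))) = _
      rw [e0a, AlgEquiv.coe_refl, id_eq, e1a, e2a, e3a])
    (by
      change e3 (e2 (e1 (e0 (algebraMap (Dr S 0 c) _ (rt 0 c))))) = _
      rw [e0a, AlgEquiv.coe_refl, id_eq, e1r, e2r, e3r])
  exact ⟨_, t', h1, h2⟩

end ORNG

open _root_.QCV.ORNG

theorem t_ORNG : M_ORNG := by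
  intro hDFN hDSW hDMV hDTH k A _ _ _ n a δ h2 ha0 ha1 hδ
  obtain ⟨m, ma, mr⟩ := hDMV k A (Fin (n + 2)) 0 δ
  have hs : rt (0 : A) δ ^ 2 * algebraMap A (Dr A 0 δ) (a 0) =
      - algebraMap A (Dr A 0 δ) (a 1) := by
    have h := rt_eq (0 : A) δ
    rw [map_zero, zero_mul, add_zero] at h
    rw [← hδ, map_mul]
    linear_combination algebraMap A (Dr A 0 δ) (a 0) * h
  obtain ⟨θ, hθ⟩ := hDTH k (Dr A 0 δ) n (fun j => algebraMap A (Dr A 0 δ) (a j)) (rt 0 δ) h2
    (ha0.map _) (ha1.map _) hs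
  exact core hDFN hDSW k (MvPolynomial (Fin (n + 2)) A) (MvPolynomial (Fin (n + 2)) (Dr A 0 δ))
    ((MvPolynomial (Fin n) (Dr A 0 δ))[X][X]) (dia a) (MvPolynomial.C δ) (MvPolynomial.C 0)
    (map_zero _) m (dia fun j => algebraMap A (Dr A 0 δ) (a j)) (by rw [ma, map_dia]) θ
    (C X * X + C (C (dia fun j => algebraMap A (Dr A 0 δ) (a j.succ.succ)))) hθ

end QCV


end

section

/-!
# QCV, block C: the cubic form is homogeneous of degree three
-/

set_option autoImplicit false

open Polynomial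

namespace QCV

theorem t_CUH : S_CUH := by
  intro R _ a s G hG hc
  unfold cub
  rw [MvPolynomial.eval₂_eq']
  apply MvPolynomial.IsHomogeneous.sum
  intro μ hμ
  have hdeg : μ.degree = 2 := by
    have := hG (MvPolynomial.mem_support_iff.mp hμ)
    rw [Finsupp.degree_eq_weight_one (R := ℕ)]; exact this
  have hs : μ 0 + ∑ j : Fin s, μ j.succ = 2 := by
    rw [← hdeg, Finsupp.degree_eq_sum, Fin.sum_univ_succ]
  have h1 : ((MvPolynomial.rename fun i : Fin (a + 1) =>
      (⟨i.1, by omega⟩ : Fin (a + s + 1))).toRingHom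
      (MvPolynomial.coeff μ G)).IsHomogeneous (1 + μ 0) :=
    MvPolynomial.IsHomogeneous.rename_isHomogeneous (hc μ)
  have h2 : (∏ i, (Fin.cons (α := fun _ => MvPolynomial (Fin (a + s + 1)) R) 1
      fun j : Fin s => MvPolynomial.X ⟨a + 1 + j.1, by omega⟩ :
        Fin (s + 1) → MvPolynomial (Fin (a + s + 1)) R) i ^ μ i).IsHomogeneous
      (∑ j : Fin s, μ j.succ) := by
    rw [Fin.prod_univ_succ]
    simp only [Fin.cons_zero, Fin.cons_succ, one_pow, one_mul]
    apply MvPolynomial.IsHomogeneous.prod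
    intro j _
    have := (MvPolynomial.isHomogeneous_X R
      (⟨a + 1 + j.1, by omega⟩ : Fin (a + s + 1))).pow (μ j.succ)
    simpa using this
  have h3 := h1.mul h2
  have e3 : 1 + μ 0 + ∑ j : Fin s, μ j.succ = 3 := by omega
  rw [e3] at h3
  exact h3

end QCV


end

section

/-!
# QCV, module DSI: cubic forms with a rational singular point
-/

set_option autoImplicit false

open CategoryTheory AlgebraicGeometry Polynomial

namespace QCV

open CUB

namespace DSIx

theorem no_const {S : Type} [CommRing S] {Q H c : S} (hQ : Q ≠ 0) : (C Q * X + C H : S[X]) ≠ C c := by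
  intro h
  have h1 := congrArg (fun f : S[X] => f.coeff 1) h
  simp only [coeff_add, coeff_C_mul, coeff_X_one, mul_one, coeff_C_succ, add_zero] at h1
  exact hQ h1

theorem coprime {S : Type} [CommRing S] [IsDomain S] {Q H : S} (hQ : Q ≠ 0) (hI : Irreducible (C Q * X + C H : S[X])) :
    ∀ g, g ∣ Q → g ∣ H → IsUnit g := by
  rintro g ⟨a, rfl⟩ ⟨b, rfl⟩
  have h1 : (C (g * a) * X + C (g * b) : S[X]) = C g * (C a * X + C b) := by
    rw [C_mul, C_mul]
    ring
  rcases hI.isUnit_or_isUnit h1 with h2 | h2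
  · exact isUnit_C.1 h2
  · exfalso
    obtain ⟨r, -, hr⟩ := Polynomial.isUnit_iff.1 h2
    refine no_const (H := g * b) (c := g * r) hQ ?_
    rw [h1, ← hr, C_mul]

end DSIx

open _root_.QCV.DSIx in
theorem t_DSI : M_DSI := by
  intro hSL hRC hFC k _ P d hP hG K _ _ _ n F Q H e hK hn hF hQ hH hQ0 heF
  rcases hFC K (n + 1) F hF.totalDegree_le with h0 | hI | ⟨l, q, hl, hq, rfl⟩
  · exfalso
    rw [h0, map_zero] at heF
    refine no_const (c := 0) (H := H) hQ0 ?_
    rw [← heF, C_0]
  · have hI' : Irreducible (C Q * X + C H : (MvPolynomial (Fin n) K)[X]) := by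
      rw [← heF]
      exact (MulEquiv.irreducible_iff e).2 hI
    have h1 := hSL k P d hP hG K n Q H hK hn hQ hH hQ0 (coprime hQ0 hI')
    let e' : MvPolynomial (Fin (n + 1)) K ≃ₐ[k] (MvPolynomial (Fin n) K)[X] :=
      e.restrictScalars k
    have hmap : Ideal.span {(C Q * X + C H : (MvPolynomial (Fin n) K)[X])} =
        (Ideal.span (Set.range (fun _ : Fin 1 => F))).map
          (e' : MvPolynomial (Fin (n + 1)) K →+* (MvPolynomial (Fin n) K)[X]) := by
      rw [Ideal.map_span, Set.range_const, Set.image_singleton]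
      congr 2
      exact heF.symm
    exact hP.iso (Ideal.quotientEquivAlg _ _ e' hmap).symm h1
  · exact hRC k P d hP K (n + 1) l q (fun p => (hK p).trans (by exact_mod_cast Nat.zero_le d)) hl hq

end QCV


end

section

/-!
# QCV, module DCX: a cubic form over a finite extension
-/

set_option autoImplicit false

open CategoryTheory AlgebraicGeometry Polynomial

namespace QCV

open CUB

namespace DCX

lemma dl_mono {k A : Type} [Field k] [CommRing A] [Algebra k A] {d e : ℕ} (h : d ≤ e)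
    (hA : DL k A d) : DL k A e := fun p => (hA p).trans (by exact_mod_cast h)

lemma dl_zero {k K : Type} [Field k] [Field K] [Algebra k K] [Module.Finite k K] : DL k K 0 := by
  intro p
  unfold rdim
  have : Algebra.IsAlgebraic k (K ⧸ p.asIdeal) := inferInstance
  rw [(trdeg_eq_zero_iff (R := k) (A := K ⧸ p.asIdeal)).2 this]
  simp

lemma of_eq {k K : Type} [Field k] [CommRing K] [Algebra k K] [Algebra.FiniteType k K]
    {P : ∀ (A : Type) [CommRing A] [Algebra k A] [Algebra.FiniteType k A], Prop} {n : ℕ}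
    {F G : MvPolynomial (Fin n) K} (h : F = G) (hP : P (ER (fun _ : Fin 1 => G))) :
    P (ER (fun _ : Fin 1 => F)) := by
  subst h
  exact hP

/-- An isomorphism of polynomial rings gives an isomorphism of the quotients. -/
lemma iso {k K : Type} [Field k] [CommRing K] [Algebra k K] {n n' : ℕ}
    (e : MvPolynomial (Fin n) K ≃ₐ[K] MvPolynomial (Fin n') K) (F : MvPolynomial (Fin n) K)
    (G : MvPolynomial (Fin n') K) (h : e F = G) :
    Nonempty (ER (fun _ : Fin 1 => G) ≃ₐ[k] ER (fun _ : Fin 1 => F)) := by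
  refine ⟨(Ideal.quotientEquivAlg _ _ (e.restrictScalars k) ?_).symm⟩
  rw [Ideal.map_span]
  congr 1
  rw [Set.range_const, Set.range_const, Set.image_singleton]
  congr 1
  exact h.symm

lemma hasLine_map {K L : Type} [Field K] [Field L] [Algebra K L] {n : ℕ}
    {F : MvPolynomial (Fin n) K} (h : HasLine F L) :
    HasLine (MvPolynomial.map (algebraMap K L) F) L := by
  obtain ⟨p, q, h1, h2⟩ := h
  refine ⟨p, q, h1, ?_⟩
  rw [MvPolynomial.aeval_map_algebraMap]
  exact h2

/-- The case of few variables. -/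
lemma small (hDCN : S_DCN) {k : Type} [Field k]
    {P : ∀ (A : Type) [CommRing A] [Algebra k A] [Algebra.FiniteType k A], Prop} {d : ℕ}
    (hC : Cls k d P) (hG : GmCl k P) {n : ℕ} {K : Type} [Field K] [Algebra k K]
    [Module.Finite k K] (F : MvPolynomial (Fin n) K) (hn : n ≤ d + 2) (hF : F.IsHomogeneous 3) :
    P (ER (fun _ : Fin 1 => F)) := by
  have hK : DL k K 0 := dl_zero
  by_cases h0 : F = 0
  · exact (Asm.s_PLY k P hC.toCls0 hC.line K n).2.1 (Fin 1) _ (fun _ => h0)
      (hC.base K (dl_mono (Nat.zero_le d) hK))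
  · refine hDCN k P d hC hG K (Fin 1) n _ (fun _ => 3) (fun _ => hF)
      (dl_mono (Nat.zero_le d) hK) ?_
    have h1 : DL k (MvPolynomial (Fin n) K) (d + 1 + 1) :=
      dl_mono (by omega) (Asm.s_DLM k K 0 n hK)
    have h2 := Asm.s_DLR.2.2.2.2 k (MvPolynomial (Fin n) K) (d + 1) F h0 h1
    refine Asm.s_DLR.1 k _ (ER (fun _ : Fin 1 => F)) (d + 1)
      (Ideal.quotientEquivAlgOfEq k ?_).toAlgHom (AlgEquiv.surjective _) h2
    rw [Set.range_const]

end DCX

theorem t_DCX : M_DCX := by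
  intro hCUB hDCN hDSI hDCO hDLN hDNR hDSG hDDT hDRK k _ P d h2 hC hO hG hd n
  induction n using Nat.strong_induction_on with
  | _ n ih =>
  intro K _ _ _ F hn hF
  rcases Nat.lt_or_ge (d + 2) n with hn2 | hn2
  swap
  · refine ⟨K, inferInstance, inferInstance, Algebra.id K, inferInstance, inferInstance, ?_⟩
    have : MvPolynomial.map (algebraMap K K) F = F := MvPolynomial.map_id F
    exact DCX.of_eq this (DCX.small hDCN hC hG F hn2 hF)
  obtain ⟨a, rfl⟩ : ∃ a, n = a + 2 + 1 := ⟨n - 3, by omega⟩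
  obtain ⟨K₁, hK₁, hA₁, hfin, hline⟩ := hDLN K (a + 2 + 1) F (by omega) hF
  let _ : Algebra k K₁ := ((algebraMap K K₁).comp (algebraMap k K)).toAlgebra
  have : IsScalarTower k K K₁ := IsScalarTower.of_algebraMap_eq fun _ => rfl
  have : Module.Finite k K₁ := Module.Finite.trans K K₁
  have hK1 : DL k K₁ 0 := DCX.dl_zero
  have hF₁ : (MvPolynomial.map (algebraMap K K₁) F).IsHomogeneous 3 := hF.map _
  obtain ⟨G, e, hG2, hGc, he⟩ := hDNR K₁ a _ hF₁ (DCX.hasLine_map hline)
  obtain ⟨eq⟩ := DCX.iso (k := k) e _ _ he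
  have two : (2 : K₁) ≠ 0 := by
    intro h
    apply h2
    apply (algebraMap k K₁).injective
    rw [map_zero, map_ofNat]
    exact h
  by_cases hcase : a = d ∨ (gram G).det ≠ 0
  · refine ⟨K₁, hK₁, inferInstance, hA₁, inferInstance, inferInstance, ?_⟩
    refine hC.iso eq ?_
    exact hCUB k P d h2 hC hO hG K₁ a 2 0 G (Nat.zero_le d) (by omega) (by omega) hK1 hG2 hGc
      (fun h => by
        rcases hcase with h3 | h3
        · omega
        · exact hDRK k K₁ a G hG2 hGc h3)
  · rw [not_or, not_not] at hcase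
    obtain ⟨ha, hdet⟩ := hcase
    obtain ⟨p, hp0, hp1, hp2⟩ := hDDT K₁ a G two hG2 hGc hdet
    obtain ⟨Q, H, e', hQ, hH, he'⟩ := hDSG K₁ (a + 2) (lcub G) p (t_CUH K₁ a 2 G hG2 hGc) hp0 hp1
      hp2
    have he2 : (e.trans e') (MvPolynomial.map (algebraMap K K₁) F) = C Q * X + C H := by
      rw [AlgEquiv.trans_apply, he, he']
    by_cases hQ0 : Q = 0
    · rw [hQ0, map_zero, zero_mul, zero_add] at he2
      obtain ⟨K₂, hK₂, hA₂, hB₂, hT₂, hfin₂, hP⟩ := ih (a + 2) (by omega) K₁ H (by omega) hH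
      have hP2 := hDCO k P hC.toCls0 hC.line K₁ K₂ (a + 2) _ H (e.trans e') he2 hP
      let hK2 : Algebra K K₂ := ((algebraMap K₁ K₂).comp (algebraMap K K₁)).toAlgebra
      have hT : IsScalarTower k K K₂ := IsScalarTower.of_algebraMap_eq fun x => by
        rw [IsScalarTower.algebraMap_apply k K₁ K₂]
        rfl
      refine ⟨K₂, hK₂, hA₂, hK2, hT, hfin₂, ?_⟩
      have hEq : MvPolynomial.map (algebraMap K K₂) F =
          MvPolynomial.map (algebraMap K₁ K₂) (MvPolynomial.map (algebraMap K K₁) F) := by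
        rw [MvPolynomial.map_map]
        rfl
      exact DCX.of_eq hEq hP2
    · refine ⟨K₁, hK₁, inferInstance, hA₁, inferInstance, inferInstance, ?_⟩
      exact hDSI k P d hC hG K₁ (a + 2) _ Q H (e.trans e') hK1 (by omega) hF₁ hQ hH hQ0 he2

end QCV


end

section

/-!
# QCV, block U: a domain of finite type over a perfect field is birational to a hypersurface
-/

set_option autoImplicit false

namespace QCV

namespace UHA

open Polynomial

/-- The kernel of an evaluation `R[X] → L`, `R` factorial and contained in the field `L`, is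
principal. -/
theorem ker_principal {R L : Type} [CommRing R] [IsDomain R] [UniqueFactorizationMonoid R]
    [Field L] (j : R →+* L) (hj : Function.Injective j) (α : L) :
    ∃ g : R[X], ∀ f : R[X], Polynomial.eval₂ j α f = 0 ↔ g ∣ f := by
  classical
  let _ : Algebra R L := j.toAlgebra
  have : FaithfulSMul R L := (faithfulSMul_iff_algebraMap_injective R L).mpr hj
  let _ : NormalizedGCDMonoid R :=
    Classical.choice (inferInstance : Nonempty (NormalizedGCDMonoid R))
  by_cases h0 : RingHom.ker (Polynomial.eval₂RingHom j α) = ⊥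
  · refine ⟨0, fun f => ?_⟩
    have h1 : f ∈ RingHom.ker (Polynomial.eval₂RingHom j α) ↔ f ∈ (⊥ : Ideal R[X]) := by rw [h0]
    rw [RingHom.mem_ker, Ideal.mem_bot, Polynomial.coe_eval₂RingHom] at h1
    rw [h1, zero_dvd_iff]
  · obtain ⟨g, hg, hgp⟩ := (RingHom.ker_isPrime (Polynomial.eval₂RingHom j α)).exists_mem_prime_of_ne_bot h0
    rw [RingHom.mem_ker, Polynomial.coe_eval₂RingHom] at hg
    have hdeg : g.natDegree ≠ 0 := by
      intro h
      rw [Polynomial.eq_C_of_natDegree_eq_zero h, Polynomial.eval₂_C] at hg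
      have h2 : g.coeff 0 = 0 := hj (by rw [hg, map_zero])
      apply hgp.ne_zero
      rw [Polynomial.eq_C_of_natDegree_eq_zero h, h2, Polynomial.C_0]
    have hprim : g.IsPrimitive := hgp.irreducible.isPrimitive hdeg
    let _ : Algebra (FractionRing R) L := FractionRing.liftAlgebra R L
    have hirr : Irreducible (g.map (algebraMap R (FractionRing R))) :=
      (hprim.irreducible_iff_irreducible_map_fraction_map).mp hgp.irreducible
    have hev : ∀ f : R[X], Polynomial.aeval α (f.map (algebraMap R (FractionRing R))) =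
        Polynomial.eval₂ j α f := by
      intro f
      rw [Polynomial.aeval_map_algebraMap]
      rfl
    have hint : IsIntegral (FractionRing R) α := by
      rw [← isAlgebraic_iff_isIntegral]
      exact ⟨g.map (algebraMap R (FractionRing R)), hirr.ne_zero, by rw [hev, hg]⟩
    have hd1 : minpoly (FractionRing R) α ∣ g.map (algebraMap R (FractionRing R)) :=
      minpoly.dvd _ _ (by rw [hev, hg])
    have hd2 : g.map (algebraMap R (FractionRing R)) ∣ minpoly (FractionRing R) α :=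
      (minpoly.irreducible hint).dvd_symm hirr hd1
    refine ⟨g, fun f => ⟨fun hf => ?_, ?_⟩⟩
    · exact hprim.dvd_of_fraction_map_dvd_fraction_map
        (hd2.trans (minpoly.dvd _ _ (by rw [hev, hf])))
    · rintro ⟨q, rfl⟩
      rw [Polynomial.eval₂_mul, hg, zero_mul]

/-- A subalgebra of finite type of the fraction field of a subalgebra is contained in a localisation
of it. -/
theorem exists_den {k K : Type} [Field k] [Field K] [Algebra k K] (B A : Subalgebra k K)
    (hB : ∀ z : K, ∃ c ∈ B, c ≠ 0 ∧ c * z ∈ B) (hA : A.FG) :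
    ∃ h ∈ B, h ≠ 0 ∧ ∀ z ∈ A, ∃ n : ℕ, h ^ n * z ∈ B := by
  classical
  obtain ⟨s, hs⟩ := hA
  have h1 : ∃ h ∈ B, h ≠ 0 ∧ ∀ z ∈ s, h * z ∈ B := by
    clear hs
    induction s using Finset.induction_on with
    | empty => exact ⟨1, B.one_mem, one_ne_zero, fun z hz => absurd hz (Finset.notMem_empty z)⟩
    | insert x s _ ih =>
      obtain ⟨h, hh, hh0, hz⟩ := ih
      obtain ⟨c, hc, hc0, hcx⟩ := hB x
      refine ⟨h * c, B.mul_mem hh hc, mul_ne_zero hh0 hc0, fun z hz' => ?_⟩
      rcases Finset.mem_insert.mp hz' with rfl | hz'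
      · rw [mul_assoc]; exact B.mul_mem hh hcx
      · rw [mul_comm h c, mul_assoc]; exact B.mul_mem hc (hz z hz')
  obtain ⟨h, hh, hh0, hz⟩ := h1
  refine ⟨h, hh, hh0, fun z hzA => ?_⟩
  rw [← hs] at hzA
  induction hzA using Algebra.adjoin_induction with
  | mem x hx => exact ⟨1, by rw [pow_one]; exact hz x hx⟩
  | algebraMap r => exact ⟨0, by rw [pow_zero, one_mul]; exact B.algebraMap_mem r⟩
  | add x y _ _ hx hy =>
    obtain ⟨n, hn⟩ := hx
    obtain ⟨m, hm⟩ := hy
    refine ⟨n + m, ?_⟩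
    have h2 : h ^ (n + m) * (x + y) = h ^ m * (h ^ n * x) + h ^ n * (h ^ m * y) := by ring
    rw [h2]
    exact B.add_mem (B.mul_mem (B.pow_mem hh m) hn) (B.mul_mem (B.pow_mem hh n) hm)
  | mul x y _ _ hx hy =>
    obtain ⟨n, hn⟩ := hx
    obtain ⟨m, hm⟩ := hy
    refine ⟨n + m, ?_⟩
    have h2 : h ^ (n + m) * (x * y) = (h ^ n * x) * (h ^ m * y) := by ring
    rw [h2]
    exact B.mul_mem hn hm

/-- One inclusion of the comparison of the two localisations. -/
theorem incl {k K : Type} [Field k] [Field K] [Algebra k K] (B A : Subalgebra k K) (p q : K)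
    (hq : q ∈ B) (hAB : ∀ z ∈ A, ∃ n : ℕ, q ^ n * z ∈ B) (m n : ℕ) (hy : q ^ m * p ∈ B) (z : K)
    (hz : ∃ N : ℕ, (q * p ^ (n + 1)) ^ N * z ∈ A) : ∃ P : ℕ, (p * q ^ (m + 1)) ^ P * z ∈ B := by
  obtain ⟨N, hN⟩ := hz
  obtain ⟨M, hM⟩ := hAB _ hN
  refine ⟨(n + 1) * N + M + N, ?_⟩
  have h : (p * q ^ (m + 1)) ^ ((n + 1) * N + M + N) * z =
      (q ^ m * p) ^ (M + N) * q ^ (m * ((n + 1) * N)) * q ^ ((n + 1) * N) *
        (q ^ M * ((q * p ^ (n + 1)) ^ N * z)) := by
    ring
  rw [h]
  exact B.mul_mem (B.mul_mem (B.mul_mem (B.pow_mem hy _) (B.pow_mem hq _)) (B.pow_mem hq _)) hM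

/-- Two subalgebras of finite type with the same fraction field have a common localisation. -/
theorem birat {k K : Type} [Field k] [Field K] [Algebra k K] (B A : Subalgebra k K)
    (hB : ∀ z : K, ∃ c ∈ B, c ≠ 0 ∧ c * z ∈ B) (hA : ∀ z : K, ∃ c ∈ A, c ≠ 0 ∧ c * z ∈ A)
    (hBf : B.FG) (hAf : A.FG) :
    ∃ h ∈ B, ∃ a ∈ A, h ≠ 0 ∧ a ≠ 0 ∧
      ∀ z : K, (∃ n : ℕ, h ^ n * z ∈ B) ↔ (∃ n : ℕ, a ^ n * z ∈ A) := by
  obtain ⟨q, hq, hq0, hAB⟩ := exists_den B A hB hAf
  obtain ⟨p, hp, hp0, hBA⟩ := exists_den A B hA hBf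
  obtain ⟨m, hm⟩ := hAB p hp
  obtain ⟨n, hn⟩ := hBA q hq
  refine ⟨p * q ^ (m + 1), ?_, q * p ^ (n + 1), ?_, mul_ne_zero hp0 (pow_ne_zero _ hq0),
    mul_ne_zero hq0 (pow_ne_zero _ hp0), fun z => ⟨?_, ?_⟩⟩
  · have h : p * q ^ (m + 1) = q ^ m * p * q := by ring
    rw [h]
    exact B.mul_mem hm hq
  · have h : q * p ^ (n + 1) = p ^ n * q * p := by ring
    rw [h]
    exact A.mul_mem hn hp
  · exact incl A B q p hp hBA n m hn z
  · exact incl B A p q hq hAB m n hm z

/-- The localisation at one element of a domain, in a field. -/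
theorem loc_emb {k K D : Type} [Field k] [Field K] [Algebra k K] [CommRing D] [Algebra k D]
    (f : D →ₐ[k] K) (hf : Function.Injective f) (d : D) (hd : f d ≠ 0) :
    ∃ F : Localization.Away d →ₐ[k] K, Function.Injective F ∧
      ∀ z : K, z ∈ F.range ↔ ∃ n : ℕ, f d ^ n * z ∈ f.range := by
  have hu : ∀ y : Submonoid.powers d, IsUnit (f y) := by
    rintro ⟨y, n, rfl⟩
    simp only [map_pow]
    exact (isUnit_iff_ne_zero.mpr (pow_ne_zero _ hd))
  let F : Localization.Away d →ₐ[k] K := IsLocalization.liftAlgHom (M := Submonoid.powers d) hu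
  have hF : ∀ x : D, F (algebraMap D (Localization.Away d) x) = f x := by
    intro x
    exact IsLocalization.lift_eq (M := Submonoid.powers d) (g := (f : D →+* K)) hu x
  have hsurj : ∀ w : Localization.Away d, ∃ (n : ℕ) (x : D),
      algebraMap D (Localization.Away d) d ^ n * w = algebraMap D (Localization.Away d) x := by
    intro w
    obtain ⟨⟨x, ⟨y, n, rfl⟩⟩, h⟩ := IsLocalization.surj (Submonoid.powers d) w
    refine ⟨n, x, ?_⟩
    rw [← h, ← map_pow, mul_comm]
  refine ⟨F, ?_, fun z => ⟨?_, ?_⟩⟩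
  · rw [injective_iff_map_eq_zero]
    intro w hw
    obtain ⟨n, x, h⟩ := hsurj w
    have h1 : f x = 0 := by
      rw [← hF, ← h, map_mul, hw, mul_zero]
    have h2 : x = 0 := hf (by rw [h1, map_zero])
    rw [h2, map_zero] at h
    have h3 : IsUnit (algebraMap D (Localization.Away d) d ^ n) :=
      (IsLocalization.Away.algebraMap_isUnit d).pow n
    exact (h3.mul_right_eq_zero).mp h
  · rintro ⟨w, rfl⟩
    obtain ⟨n, x, h⟩ := hsurj w
    refine ⟨n, x, ?_⟩
    have h1 := congrArg F h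
    rw [map_mul, map_pow, hF, hF] at h1
    exact h1.symm
  · rintro ⟨n, x, hx⟩
    refine ⟨IsLocalization.mk' (Localization.Away d) x (⟨d ^ n, n, rfl⟩ : Submonoid.powers d), ?_⟩
    have h1 := congrArg F (IsLocalization.mk'_spec (Localization.Away d) x
      (⟨d ^ n, n, rfl⟩ : Submonoid.powers d))
    rw [map_mul, hF, hF] at h1
    simp only [map_pow] at h1
    change F _ * f d ^ n = f x at h1
    have h2 : f d ^ n ≠ 0 := pow_ne_zero _ hd
    apply mul_right_cancel₀ h2
    change F _ * f d ^ n = z * f d ^ n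
    rw [h1, mul_comm z]
    exact hx

end UHA

open _root_.QCV.UHA in
/-- **UHA**. -/
theorem t_UHA : S_UHA := by
  intro k A _ _ _ _ _ _ r hr
  classical
  let K := FractionRing A
  have : Algebra.EssFiniteType A K := Algebra.EssFiniteType.of_isLocalization K (nonZeroDivisors A)
  have : Algebra.EssFiniteType k K := Algebra.EssFiniteType.comp k A K
  obtain ⟨s, hs, hsep⟩ := exists_isTranscendenceBasis_and_isSeparable_of_perfectField k K
  -- the cardinality of the transcendence basis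
  have hcard : s.card = r := by
    have h1 := hs.cardinalMk_eq_trdeg
    have : Algebra.IsAlgebraic A K := IsLocalization.isAlgebraic K (nonZeroDivisors A)
    have h2 : Algebra.trdeg k K = r := by
      rw [← hr, ← trdeg_add_eq k A (A := K), trdeg_eq_zero (R := A) (A := K), add_zero]
    rw [h2, Cardinal.mk_coe_finset] at h1
    exact_mod_cast h1
  let e : Fin r ≃ s := (Finset.equivFinOfCardEq hcard).symm
  let t : Fin r → K := fun i => (e i : K)
  have ht : AlgebraicIndependent k t := hs.1.comp e e.injective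
  have hrt : Set.range t = (s : Set K) := by
    ext z
    constructor
    · rintro ⟨i, rfl⟩; exact (e i).2
    · intro hz; exact ⟨e.symm ⟨z, hz⟩, by simp [t]⟩
  -- the primitive element
  have : Algebra.EssFiniteType (IntermediateField.adjoin k (s : Set K)) K :=
    Algebra.EssFiniteType.of_comp k _ _
  have : FiniteDimensional (IntermediateField.adjoin k (s : Set K)) K :=
    Algebra.finite_of_essFiniteType_of_isAlgebraic
  obtain ⟨α, hα⟩ := Field.exists_primitive_element (IntermediateField.adjoin k (s : Set K)) K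
  let φ : MvPolynomial (Fin (r + 1)) k →ₐ[k] K := MvPolynomial.aeval (Fin.cons α t : Fin (r + 1) → K)
  have hφ : φ.range = Algebra.adjoin k ((s : Set K) ∪ {α}) := by
    have h1 : (s : Set K) ∪ {α} = Set.range (Fin.cons α t : Fin (r + 1) → K) := by
      rw [Fin.range_cons, hrt, Set.union_comm, Set.insert_eq]
    rw [h1, Algebra.adjoin_range_eq_range_aeval]
  have hfrac : ∀ z : K, ∃ c ∈ φ.range, c ≠ 0 ∧ c * z ∈ φ.range := by
    intro z
    have h1 : z ∈ IntermediateField.adjoin k ((s : Set K) ∪ {α}) := by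
      rw [← IntermediateField.adjoin_adjoin_left, hα]
      trivial
    obtain ⟨x, hx, y, hy, hz⟩ := IntermediateField.mem_adjoin_iff_div.mp h1
    rw [hφ]
    by_cases hy0 : y = 0
    · refine ⟨1, Subalgebra.one_mem _, one_ne_zero, ?_⟩
      rw [hz, hy0, div_zero, mul_zero]
      exact Subalgebra.zero_mem _
    · refine ⟨y, hy, hy0, ?_⟩
      rw [hz, mul_div_cancel₀ _ hy0]
      exact hx
  -- the kernel is principal
  obtain ⟨g', hg'⟩ := ker_principal (MvPolynomial.aeval t : MvPolynomial (Fin r) k →ₐ[k] K).toRingHom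
    ht α
  have hcomp : ∀ f : MvPolynomial (Fin (r + 1)) k,
      Polynomial.eval₂ (MvPolynomial.aeval t : MvPolynomial (Fin r) k →ₐ[k] K).toRingHom α
        (MvPolynomial.finSuccEquiv k r f) = φ f := by
    intro f
    induction f using MvPolynomial.induction_on with
    | C a =>
      rw [MvPolynomial.finSuccEquiv_apply]
      simp [φ]
    | add p q hp hq => rw [map_add, Polynomial.eval₂_add, hp, hq, map_add]
    | mul_X p i hp =>
      rw [map_mul, Polynomial.eval₂_mul, hp, map_mul]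
      congr 1
      refine Fin.cases ?_ (fun j => ?_) i
      · rw [MvPolynomial.finSuccEquiv_X_zero, Polynomial.eval₂_X]
        simp [φ]
      · rw [MvPolynomial.finSuccEquiv_X_succ, Polynomial.eval₂_C]
        simp [φ]
  let g : MvPolynomial (Fin (r + 1)) k := (MvPolynomial.finSuccEquiv k r).symm g'
  have hg : ∀ f : MvPolynomial (Fin (r + 1)) k, φ f = 0 ↔ f ∈ Ideal.span {g} := by
    intro f
    rw [← hcomp f, hg', Ideal.mem_span_singleton]
    constructor
    · rintro ⟨q, hq⟩
      refine ⟨(MvPolynomial.finSuccEquiv k r).symm q, ?_⟩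
      apply (MvPolynomial.finSuccEquiv k r).injective
      rw [hq, map_mul, AlgEquiv.apply_symm_apply, AlgEquiv.apply_symm_apply]
    · rintro ⟨q, hq⟩
      refine ⟨MvPolynomial.finSuccEquiv k r q, ?_⟩
      rw [hq, map_mul, AlgEquiv.apply_symm_apply]
  let ψ : (MvPolynomial (Fin (r + 1)) k ⧸ Ideal.span {g}) →ₐ[k] K :=
    Ideal.Quotient.liftₐ (Ideal.span {g}) φ (fun a ha => (hg a).mpr ha)
  have hψ : ∀ f, ψ (Ideal.Quotient.mk _ f) = φ f := fun f => rfl
  have hψi : Function.Injective ψ := by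
    rw [injective_iff_map_eq_zero]
    intro x hx
    obtain ⟨f, rfl⟩ := Ideal.Quotient.mk_surjective x
    rw [hψ] at hx
    exact Ideal.Quotient.eq_zero_iff_mem.mpr ((hg f).mp hx)
  have hψr : ψ.range = φ.range := by
    ext z
    constructor
    · rintro ⟨x, rfl⟩
      obtain ⟨f, rfl⟩ := Ideal.Quotient.mk_surjective x
      exact ⟨f, rfl⟩
    · rintro ⟨f, rfl⟩
      exact ⟨Ideal.Quotient.mk _ f, rfl⟩
  -- the algebra `A` in `K`
  let ι : A →ₐ[k] K := Algebra.algHom k A K
  have hιi : Function.Injective ι := IsFractionRing.injective A K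
  have hA : ∀ z : K, ∃ c ∈ ι.range, c ≠ 0 ∧ c * z ∈ ι.range := by
    intro z
    obtain ⟨⟨x, ⟨y, hy⟩⟩, h⟩ := IsLocalization.surj (nonZeroDivisors A) z
    refine ⟨ι y, ⟨y, rfl⟩, ?_, x, ?_⟩
    · rw [Ne, map_eq_zero_iff ι hιi]
      exact nonZeroDivisors.ne_zero hy
    · rw [mul_comm]
      exact h.symm
  have hAf : ι.range.FG := by
    have h1 : (⊤ : Subalgebra k A).FG := Algebra.FiniteType.out
    have h2 := h1.map ι
    rwa [Algebra.map_top] at h2
  have hBf : φ.range.FG := by
    rw [hφ]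
    exact ⟨s ∪ {α}, by simp⟩
  obtain ⟨h, hh, a, ha, hh0, ha0, hmain⟩ := birat φ.range ι.range hfrac hA hBf hAf
  rw [← hψr] at hh
  obtain ⟨h', rfl⟩ := hh
  obtain ⟨a', rfl⟩ := ha
  obtain ⟨F, hF, hFr⟩ := loc_emb ψ hψi h' hh0
  obtain ⟨G, hG, hGr⟩ := loc_emb ι hιi a' ha0
  refine ⟨g, a', h', ?_, ?_⟩
  · rintro rfl
    exact ha0 (map_zero ι)
  · have hr : F.range = G.range := by
      ext z
      rw [hFr, hGr, hψr]
      exact hmain z
    exact ⟨(AlgEquiv.ofInjective F hF).trans ((Subalgebra.equivOfEq _ _ hr).trans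
      (AlgEquiv.ofInjective G hG).symm)⟩

end QCV


end
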