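import Mathlib
import Pool.Agent.QVM.C30
import Pool.Agent.QVM.C45
import Pool.Agent.QVM.C47

/-! Parts: QCV.O_DTH, QCV.U_UGA, QCV.E_EH2 -/

section

/-!
# QCV_DTH: coordinates for a binary form which splits
-/

set_option autoImplicit false

open Polynomial

namespace QCV

namespace DTH

variable {A : Type} [CommRing A] (n : ℕ)

/-- the target ring -/
abbrev B (A : Type) [CommRing A] (n : ℕ) := (MvPolynomial (Fin n) A)[X][X]

/-- the coordinates -/
noncomputable def vv (v0 v1 : B A n) : Fin (n + 2) → B A n :=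
  Fin.cons v0 (Fin.cons v1 fun j => C (C (MvPolynomial.X j)))

/-- the homomorphism `θ` -/
noncomputable def F (v0 v1 : B A n) : MvPolynomial (Fin (n + 2)) A →ₐ[A] B A n :=
  MvPolynomial.aeval (vv n v0 v1)

/-- its inverse -/
noncomputable def G (y y' : MvPolynomial (Fin (n + 2)) A) : B A n →ₐ[A] MvPolynomial (Fin (n + 2)) A :=
  Polynomial.eval₂AlgHom (Polynomial.eval₂AlgHom
    (MvPolynomial.aeval fun j : Fin n => (MvPolynomial.X j.succ.succ : MvPolynomial (Fin (n + 2)) A))
    y (fun _ => Commute.all _ _)) y' (fun _ => Commute.all _ _)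

lemma F_zero (v0 v1 : B A n) : F n v0 v1 (MvPolynomial.X 0) = v0 := by
  unfold F vv
  rw [MvPolynomial.aeval_X]
  rfl

lemma F_one (v0 v1 : B A n) : F n v0 v1 (MvPolynomial.X 1) = v1 := by
  unfold F vv
  rw [MvPolynomial.aeval_X]
  rfl

lemma F_succ (v0 v1 : B A n) (j : Fin n) :
    F n v0 v1 (MvPolynomial.X j.succ.succ) = C (C (MvPolynomial.X j)) := by
  unfold F vv
  rw [MvPolynomial.aeval_X]
  rfl

lemma G_X (y y' : MvPolynomial (Fin (n + 2)) A) : G n y y' X = y' := by
  unfold G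
  simp [Polynomial.eval₂AlgHom]

lemma G_CX (y y' : MvPolynomial (Fin (n + 2)) A) : G n y y' (C X) = y := by
  unfold G
  simp [Polynomial.eval₂AlgHom]

lemma G_CC (y y' : MvPolynomial (Fin (n + 2)) A) (j : Fin n) :
    G n y y' (C (C (MvPolynomial.X j))) = MvPolynomial.X j.succ.succ := by
  unfold G
  simp [Polynomial.eval₂AlgHom]

section

variable {R : Type} [CommRing R] {p1 p2 q1 q2 s a m x y : R}

lemma alg1 (h1 : p1 + s * q2 = 0) (h2 : p2 + s * q1 = 1) :
    (p1 * x + p2 * y) + s * (q1 * y + q2 * x) = y := by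
  linear_combination x * h1 + y * h2

lemma alg2 (h1 : a * p1 + m * q2 = 1) (h2 : a * p2 + m * q1 = 0) :
    a * (p1 * x + p2 * y) + m * (q1 * y + q2 * x) = x := by
  linear_combination x * h1 + y * h2

lemma alg3 (h1 : p1 * a + p2 = 1) (h2 : p1 * m + p2 * s = 0) :
    p1 * (a * x + m * y) + p2 * (x + s * y) = x := by
  linear_combination x * h1 + y * h2

lemma alg4 (h1 : q1 + q2 * a = 0) (h2 : q1 * s + q2 * m = 1) :
    q1 * (x + s * y) + q2 * (a * x + m * y) = y := by
  linear_combination x * h1 + y * h2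

lemma alg5 {b : R} (h1 : a * s + m = 0) (h2 : m * s = b) :
    a * x ^ 2 + b * y ^ 2 = (a * x + m * y) * (x + s * y) := by
  linear_combination - x * y * h1 - y ^ 2 * h2

end

end DTH

open _root_.QCV.DTH in
theorem t_DTH : S_DTH := by
  intro k A _ _ _ n a s h2 h0 h1 hs
  obtain ⟨u, hu⟩ := h0.exists_right_inv
  have hsu : IsUnit s := by
    have h3 : IsUnit (s ^ 2 * a 0) := by rw [hs]; exact h1.neg
    have h4 : IsUnit (s ^ 2) := isUnit_of_mul_isUnit_left h3
    exact (isUnit_pow_iff (by norm_num)).1 h4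
  obtain ⟨w, hw⟩ := hsu.exists_right_inv
  set h : A := algebraMap k A (1 / 2) with hh
  have hh2 : 2 * h = 1 := by
    rw [hh, ← map_ofNat (algebraMap k A) 2, ← map_mul, mul_one_div_cancel h2, map_one]
  obtain ⟨p1, hp1⟩ : ∃ p1, p1 = h * u := ⟨_, rfl⟩
  obtain ⟨q1, hq1⟩ : ∃ q1, q1 = h * w := ⟨_, rfl⟩
  obtain ⟨q2, hq2⟩ : ∃ q2, q2 = - (h * w * u) := ⟨_, rfl⟩
  obtain ⟨m, hm⟩ : ∃ m, m = - (a 0 * s) := ⟨_, rfl⟩
  -- relations in `A`
  have a1 : p1 + s * q2 = 0 := by
    rw [hp1, hq2]; linear_combination - h * u * hw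
  have a2 : h + s * q1 = 1 := by
    rw [hq1]; linear_combination h * hw + hh2
  have a3 : a 0 * p1 + m * q2 = 1 := by
    rw [hp1, hm, hq2]; linear_combination (2 * h) * hu + h * a 0 * u * hw + hh2
  have a4 : a 0 * h + m * q1 = 0 := by
    rw [hm, hq1]; linear_combination - a 0 * h * hw
  have a5 : p1 * a 0 + h = 1 := by
    rw [hp1]; linear_combination h * hu + hh2
  have a6 : p1 * m + h * s = 0 := by
    rw [hp1, hm]; linear_combination - h * s * hu
  have a7 : q1 + q2 * a 0 = 0 := by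
    rw [hq1, hq2]; linear_combination - h * w * hu
  have a8 : q1 * s + q2 * m = 1 := by
    rw [hq1, hq2, hm]; linear_combination (2 * h) * hw + h * w * s * hu + hh2
  have a9 : a 0 * s + m = 0 := by
    rw [hm]; ring
  have a10 : m * s = a 1 := by
    rw [hm]; linear_combination - hs
  have toB : ∀ {p q r t v : A}, p * q + r * t = v → algebraMap A (B A n) p * algebraMap A (B A n) q
      + algebraMap A (B A n) r * algebraMap A (B A n) t = algebraMap A (B A n) v := by
    intro p q r t v hv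
    rw [← map_mul, ← map_mul, ← map_add, hv]
  have toB' : ∀ {p r t v : A}, p + r * t = v → algebraMap A (B A n) p
      + algebraMap A (B A n) r * algebraMap A (B A n) t = algebraMap A (B A n) v := by
    intro p r t v hv
    rw [← map_mul, ← map_add, hv]
  set v0 : B A n := algebraMap A (B A n) p1 * C X + algebraMap A (B A n) h * X with hv0
  set v1 : B A n := algebraMap A (B A n) q1 * X + algebraMap A (B A n) q2 * C X with hv1
  set y : MvPolynomial (Fin (n + 2)) A := MvPolynomial.C (a 0) * MvPolynomial.X 0 +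
    MvPolynomial.C m * MvPolynomial.X 1 with hy
  set y' : MvPolynomial (Fin (n + 2)) A :=
    MvPolynomial.X 0 + MvPolynomial.C s * MvPolynomial.X 1 with hy'
  have FC : ∀ r : A, F n v0 v1 (MvPolynomial.C r) = algebraMap A (B A n) r := fun r =>
    (F n v0 v1).commutes r
  have GC : ∀ r : A, G n y y' (algebraMap A (B A n) r) = MvPolynomial.C r := fun r =>
    (G n y y').commutes r
  have e1 : (F n v0 v1) y' = X := by
    rw [hy', map_add, map_mul, FC, F_zero, F_one, hv0, hv1]
    refine alg1 (R := B A n) ?_ ?_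
    · exact (toB' a1).trans (map_zero _)
    · exact (toB' a2).trans (map_one _)
  have e2 : (F n v0 v1) y = C X := by
    rw [hy, map_add, map_mul, map_mul, FC, FC, F_zero, F_one, hv0, hv1]
    refine alg2 (R := B A n) ?_ ?_
    · exact (toB a3).trans (map_one _)
    · exact (toB a4).trans (map_zero _)
  have e3 : (G n y y') v0 = MvPolynomial.X 0 := by
    rw [hv0, map_add, map_mul, map_mul, GC, GC, G_X, G_CX, hy, hy']
    refine alg3 ?_ ?_
    · rw [← map_mul, ← map_add, a5, map_one]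
    · rw [← map_mul, ← map_mul, ← map_add, a6, map_zero]
  have e4 : (G n y y') v1 = MvPolynomial.X 1 := by
    rw [hv1, map_add, map_mul, map_mul, GC, GC, G_X, G_CX, hy, hy']
    refine alg4 ?_ ?_
    · rw [← map_mul, ← map_add, a7, map_zero]
    · rw [← map_mul, ← map_mul, ← map_add, a8, map_one]
  have c1 : (F n v0 v1).comp (G n y y') = AlgHom.id A (B A n) := by
    apply Polynomial.algHom_ext'
    · apply Polynomial.algHom_ext'
      · apply MvPolynomial.algHom_ext
        intro j
        change F n v0 v1 (G n y y' (C (C (MvPolynomial.X j)))) = C (C (MvPolynomial.X j))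
        rw [G_CC, F_succ]
      · change F n v0 v1 (G n y y' (C X)) = C X
        rw [G_CX, e2]
    · change F n v0 v1 (G n y y' X) = X
      rw [G_X, e1]
  have c2 : (G n y y').comp (F n v0 v1) = AlgHom.id A (MvPolynomial (Fin (n + 2)) A) := by
    apply MvPolynomial.algHom_ext
    intro i
    rw [AlgHom.comp_apply, AlgHom.id_apply]
    refine Fin.cases ?_ (fun i => ?_) i
    · rw [F_zero, e3]
    · refine Fin.cases ?_ (fun j => ?_) i
      · exact (congrArg _ (F_one n v0 v1)).trans e4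
      · rw [F_succ, G_CC]
  refine ⟨(AlgEquiv.ofAlgHom (F n v0 v1) (G n y y') c1 c2).restrictScalars k, ?_⟩
  change F n v0 v1 (dia a) = _
  have e5 : dia a = y * y' + ∑ j : Fin n, MvPolynomial.C (a j.succ.succ)
      * MvPolynomial.X j.succ.succ ^ 2 := by
    unfold dia
    rw [Fin.sum_univ_succ, Fin.sum_univ_succ, ← add_assoc]
    congr 1
    rw [hy, hy']
    refine alg5 ?_ ?_
    · rw [← map_mul, ← map_add, a9, map_zero]
    · rw [← map_mul, a10]
      rfl
  rw [e5, map_add, map_mul, e1, e2, map_sum]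
  congr 1
  unfold dia
  rw [map_sum, map_sum]
  refine Finset.sum_congr rfl fun j _ => ?_
  rw [map_mul, map_pow, FC, F_succ]
  simp only [map_mul, map_pow]
  rfl

end QCV


end

section

/-!
# UGA: the open part of `g x_0 ^ 2 = 0`
-/

set_option autoImplicit false

open Polynomial

namespace QCV

namespace UGA

variable (k B : Type) [Field k] [CommRing B] [Algebra k B] (g : B)

/-- The quotient map, with the variable `X`. -/
noncomputable def v : MvPolynomial (Fin 1) B →ₐ[k] (B ⧸ Ideal.span {g})[X] :=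
  ((MvPolynomial.uniqueAlgEquiv (B ⧸ Ideal.span {g}) (Fin 1)).restrictScalars k).toAlgHom.comp
    (MvPolynomial.mapAlgHom (Ideal.Quotient.mkₐ k (Ideal.span {g})))

theorem v_C (b : B) : v k B g (MvPolynomial.C b) = C (Ideal.Quotient.mk (Ideal.span {g}) b) := by
  change MvPolynomial.uniqueAlgEquiv (B ⧸ Ideal.span {g}) (Fin 1)
    (MvPolynomial.map (Ideal.Quotient.mk (Ideal.span {g})) (MvPolynomial.C b)) = _
  rw [MvPolynomial.map_C]
  simp

theorem v_X : v k B g (MvPolynomial.X 0) = X := by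
  change MvPolynomial.uniqueAlgEquiv (B ⧸ Ideal.span {g}) (Fin 1)
    (MvPolynomial.map (Ideal.Quotient.mk (Ideal.span {g})) (MvPolynomial.X 0)) = _
  rw [MvPolynomial.map_X]
  simp

theorem v_surj : Function.Surjective (v k B g) := by
  intro p
  obtain ⟨P, hP⟩ := (MvPolynomial.uniqueAlgEquiv (B ⧸ Ideal.span {g}) (Fin 1)).surjective p
  obtain ⟨F, hF⟩ := MvPolynomial.map_surjective (Ideal.Quotient.mk (Ideal.span {g}))
    Ideal.Quotient.mk_surjective P
  refine ⟨F, ?_⟩
  change MvPolynomial.uniqueAlgEquiv (B ⧸ Ideal.span {g}) (Fin 1)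
    (MvPolynomial.map (Ideal.Quotient.mk (Ideal.span {g})) F) = _
  rw [hF, hP]

theorem v_ker (F : MvPolynomial (Fin 1) B) (h : v k B g F = 0) : MvPolynomial.C g ∣ F := by
  change MvPolynomial.uniqueAlgEquiv (B ⧸ Ideal.span {g}) (Fin 1)
    (MvPolynomial.map (Ideal.Quotient.mk (Ideal.span {g})) F) = 0 at h
  rw [MvPolynomial.C_dvd_iff_map_hom_eq_zero (Ideal.Quotient.mk (Ideal.span {g})) g
    (fun r => by rw [Ideal.Quotient.eq_zero_iff_mem, Ideal.mem_span_singleton])]
  exact (map_eq_zero_iff _ (MvPolynomial.uniqueAlgEquiv (B ⧸ Ideal.span {g})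
    (Fin 1)).injective).1 h

end UGA

open _root_.QCV.UGA

theorem t_UGA : S_UGA := by
  intro k B _ _ _ g
  let f : Fin 1 → MvPolynomial (Fin 1) B := fun _ => MvPolynomial.C g * MvPolynomial.X 0 ^ 2
  let L := Localization.Away (X : (B ⧸ Ideal.span {g})[X])
  let w : (B ⧸ Ideal.span {g})[X] →ₐ[k] L := IsScalarTower.toAlgHom k _ _
  have hg : (Ideal.Quotient.mk (Ideal.span {g})) g = 0 :=
    Ideal.Quotient.eq_zero_iff_mem.2 (Ideal.subset_span rfl)
  have hz : ∀ a ∈ Ideal.span (Set.range f), (w.comp (v k B g)) a = 0 := by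
    intro a ha
    have h1 : Ideal.span (Set.range f) ≤ RingHom.ker (w.comp (v k B g)) := by
      rw [Ideal.span_le]
      rintro _ ⟨i, rfl⟩
      change w (v k B g (MvPolynomial.C g * MvPolynomial.X 0 ^ 2)) = 0
      rw [map_mul, v_C, hg, C_0, zero_mul, map_zero]
    exact h1 ha
  let u : ER f →ₐ[k] L := Ideal.Quotient.liftₐ _ (w.comp (v k B g)) hz
  have hu : ∀ F, u (Ideal.Quotient.mk _ F) = algebraMap _ L (v k B g F) := fun F => rfl
  refine ⟨u, ?_⟩
  let _ : Algebra (ER f) L := u.toRingHom.toAlgebra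
  have hux : u (Ideal.Quotient.mk _ (MvPolynomial.X 0)) =
      algebraMap _ L (X : (B ⧸ Ideal.span {g})[X]) := by
    rw [hu, v_X]
  refine (isLocalization_iff (Submonoid.powers
    (Ideal.Quotient.mk (Ideal.span (Set.range f)) (MvPolynomial.X 0))) L).2
      ⟨?_, ?_, fun {a b} hab => ?_⟩
  · rintro ⟨_, n, rfl⟩
    change IsUnit (u (Ideal.Quotient.mk _ (MvPolynomial.X 0) ^ n))
    rw [map_pow, hux]
    exact (IsLocalization.Away.algebraMap_isUnit (S := L) (X : (B ⧸ Ideal.span {g})[X])).pow n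
  · intro z
    obtain ⟨n, p, hp⟩ := IsLocalization.Away.surj (X : (B ⧸ Ideal.span {g})[X]) z
    obtain ⟨F, rfl⟩ := v_surj k B g p
    refine ⟨⟨Ideal.Quotient.mk _ F, ⟨_, n, rfl⟩⟩, ?_⟩
    change z * u (Ideal.Quotient.mk _ (MvPolynomial.X 0) ^ n) = u (Ideal.Quotient.mk _ F)
    rw [map_pow, hux, hu]
    exact hp
  · obtain ⟨A, rfl⟩ := Ideal.Quotient.mk_surjective a
    obtain ⟨A', rfl⟩ := Ideal.Quotient.mk_surjective b
    have h1 : algebraMap _ L (v k B g (A - A')) = 0 := by
      rw [map_sub, map_sub, sub_eq_zero]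
      exact hab
    rw [IsLocalization.map_eq_zero_iff (Submonoid.powers (X : (B ⧸ Ideal.span {g})[X]))] at h1
    obtain ⟨⟨_, n, rfl⟩, h2⟩ := h1
    have h3 : v k B g (A - A') = 0 := by
      have h4 : (X : (B ⧸ Ideal.span {g})[X]) ^ n * v k B g (A - A') = 0 := h2
      rw [mul_comm] at h4
      exact (Polynomial.monic_X_pow n).mul_left_eq_zero_iff.1 h4
    obtain ⟨F', hF'⟩ := v_ker k B g _ h3
    refine ⟨⟨_, 2, rfl⟩, ?_⟩
    change Ideal.Quotient.mk _ (MvPolynomial.X 0) ^ 2 * Ideal.Quotient.mk _ A =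
      Ideal.Quotient.mk _ (MvPolynomial.X 0) ^ 2 * Ideal.Quotient.mk _ A'
    rw [← sub_eq_zero, ← mul_sub, ← map_sub, ← map_pow, ← map_mul,
      Ideal.Quotient.eq_zero_iff_mem, hF']
    have h5 : (MvPolynomial.X 0 ^ 2 * (MvPolynomial.C g * F') : MvPolynomial (Fin 1) B) =
        F' * f 0 := by
      change _ = F' * (MvPolynomial.C g * MvPolynomial.X 0 ^ 2)
      ring
    rw [h5]
    exact Ideal.mul_mem_left _ _ (Ideal.subset_span ⟨0, rfl⟩)

end QCV


end

section

/-!
# QCV_EH2: strata of a quadratic form with a hyperbolic plane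
-/

set_option autoImplicit false

open Polynomial

namespace QCV

open Pool.Agent.Lib_helper55.Beil Pool.Agent.Lib_helper66.OneP CUB

namespace EH2

/-- transport of strata under isomorphisms -/
lemma strat_iso {k A A' Z Z' U : Type} [Field k] [CommRing A] [CommRing A'] [CommRing Z]
    [CommRing Z'] [CommRing U] [Algebra k A] [Algebra k A'] [Algebra k Z] [Algebra k Z']
    [Algebra k U] (e : A' ≃ₐ[k] A) (f : Z ≃ₐ[k] Z') {a : A} {z : A →ₐ[k] Z} {u : A →ₐ[k] U}
    (h : Strat a z u) :
    Strat (e.symm a) ((f.toAlgHom.comp z).comp e.toAlgHom) (u.comp e.toAlgHom) := by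
  refine ⟨?_, ?_, ?_⟩
  · exact (f.surjective.comp h.surj).comp e.surjective
  · ext x
    rw [RingHom.mem_ker, Ideal.mem_span_singleton]
    have h1 : ((f.toAlgHom.comp z).comp e.toAlgHom).toRingHom x = f (z (e x)) := rfl
    rw [h1, map_eq_zero_iff f f.injective]
    have h2 : z (e x) = 0 ↔ e x ∈ Ideal.span {a} := by
      rw [← h.ker, RingHom.mem_ker]
      rfl
    rw [h2, Ideal.mem_span_singleton]
    constructor
    · rintro ⟨y, hy⟩
      refine ⟨e.symm y, ?_⟩
      rw [← map_mul, ← hy, e.symm_apply_apply]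
    · rintro ⟨y, hy⟩
      refine ⟨e y, ?_⟩
      rw [hy, map_mul, e.apply_symm_apply]
  · letI : Algebra A U := u.toRingHom.toAlgebra
    letI : Algebra A' U := (u.comp e.toAlgHom).toRingHom.toAlgebra
    haveI : IsLocalization (Submonoid.powers a) U := h.away
    change IsLocalization (Submonoid.powers (e.symm a)) U
    refine IsLocalization.of_ringEquiv_left (e := e.toRingEquiv) (M₁ := Submonoid.powers a)
      (M₂ := Submonoid.powers (e.symm a)) ?_ fun x => rfl
    rw [Submonoid.map_powers]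
    congr 1
    exact e.apply_symm_apply a

/-- the value at zero -/
noncomputable def ev (k D : Type) [Field k] [CommRing D] [Algebra k D] : D[X] →ₐ[k] D :=
  (Polynomial.aeval (0 : D)).restrictScalars k

lemma ev_apply {k D : Type} [Field k] [CommRing D] [Algebra k D] (F : D[X]) :
    ev k D F = F.coeff 0 := by
  change Polynomial.aeval (0 : D) F = _
  rw [Polynomial.coe_aeval_eq_eval, Polynomial.coeff_zero_eq_eval_zero]

lemma ev_surj {k D : Type} [Field k] [CommRing D] [Algebra k D] :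
    Function.Surjective (ev k D) := fun d => ⟨C d, by rw [ev_apply, coeff_C_zero]⟩

/-- the quotient by `X` and a constant -/
lemma quot_iso (k D : Type) [Field k] [CommRing D] [Algebra k D] (c : D) :
    Nonempty ((D[X] ⧸ Ideal.span {(X : D[X]), C c}) ≃ₐ[k] (D ⧸ Ideal.span {c})) := by
  let q : D →ₐ[k] (D ⧸ Ideal.span {c}) := Ideal.Quotient.mkₐ k (Ideal.span {c})
  let f : D[X] →ₐ[k] (D ⧸ Ideal.span {c}) := q.comp (ev k D)
  have hf : Function.Surjective f :=
    (Ideal.Quotient.mkₐ_surjective k _).comp (ev_surj (k := k) (D := D))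
  have hk : RingHom.ker f.toRingHom = Ideal.span {(X : D[X]), C c} := by
    apply le_antisymm
    · intro F hF
      have h1 : q (F.coeff 0) = 0 := by
        have h2 : f F = 0 := hF
        have h3 : f F = q (ev k D F) := rfl
        rwa [h3, ev_apply] at h2
      have h2 : F.coeff 0 ∈ Ideal.span {c} := Ideal.Quotient.eq_zero_iff_mem.1 h1
      rw [Ideal.mem_span_singleton] at h2
      obtain ⟨d, hd⟩ := h2
      rw [← Polynomial.divX_mul_X_add F, hd, C_mul]
      refine add_mem (Ideal.mul_mem_left _ _ (Ideal.subset_span (by simp)))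
        (Ideal.mul_mem_right _ _ (Ideal.subset_span (by simp)))
    · rw [Ideal.span_le]
      rintro F (rfl | rfl)
      · change q (ev k D X) = 0
        rw [ev_apply, coeff_X_zero, map_zero]
      · change q (ev k D (C c)) = 0
        rw [ev_apply, coeff_C_zero]
        exact Ideal.Quotient.eq_zero_iff_mem.2 (Ideal.subset_span rfl)
  exact ⟨(Ideal.quotientEquivAlgOfEq k hk.symm).trans
    (Ideal.quotientKerAlgEquivOfSurjective hf)⟩

/-- a ring isomorphic to `D[Y][X] / (Y X + q)` -/
lemma key (k B D : Type) [Field k] [CommRing B] [Algebra k B] [CommRing D] [Algebra k D]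
    (θ : B ≃ₐ[k] D[X][X]) (d : B) (q : D) (hθ : θ d = C X * X + C (C q)) :
    ∃ (s : B ⧸ Ideal.span {d}) (z : (B ⧸ Ideal.span {d}) →ₐ[k] (D ⧸ Ideal.span {q})[X])
      (u : (B ⧸ Ideal.span {d}) →ₐ[k] Localization.Away (X : D[X])),
      Strat (Z := (D ⧸ Ideal.span {q})[X]) (U := Localization.Away (X : D[X])) s z u := by
  obtain ⟨z', u', hs⟩ := t_LNR k D[X] (Localization.Away (X : D[X])) X (C q)
    (awayHom k X) (isLocalization_awayHom X)
  have hI : Ideal.span {(C X * X + C (C q) : D[X][X])} =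
      Ideal.map (θ : B →+* D[X][X]) (Ideal.span {d}) := by
    rw [Ideal.map_span, Set.image_singleton]
    congr 2
    exact hθ.symm
  let e1 : (B ⧸ Ideal.span {d}) ≃ₐ[k] (D[X][X] ⧸ Ideal.span {(C X * X + C (C q) : D[X][X])}) :=
    Ideal.quotientEquivAlg _ _ θ hI
  obtain ⟨e2⟩ := quot_iso k D q
  exact ⟨_, _, _, strat_iso e1 (Polynomial.mapAlgEquiv e2) hs⟩

end EH2

open _root_.QCV.EH2 in
theorem t_EH2 : S_EH2 := by
  intro k A _ _ _ n a h2 h0 h1
  have hu1 : IsUnit (a 1) := by
    rw [h1]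
    exact h0.neg
  obtain ⟨θ, hθ⟩ := t_DTH k A n a 1 h2 h0 hu1 (by rw [h1]; ring)
  exact key k (MvPolynomial (Fin (n + 2)) A) (MvPolynomial (Fin n) A) θ (dia a)
    (dia fun j => a j.succ.succ) hθ

end QCV


end
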