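import Mathlib
import Pool.Agent.QVM.C21
import Pool.Agent.QVM.C30
import Pool.Agent.QVM.C45

/-! Parts: QCV.O_OHYR, QCV.D_DVL -/

section

/-!
# QCV, block O: the strata `y = 0` and `y ≠ 0` of `S[y, y'][t] / (t ^ 2 + y y' + c)`
-/

set_option autoImplicit false

open Polynomial

namespace QCV

open CUB VRQ

namespace OHYR

section Gen

variable {k : Type} [Field k] {A K : Type} [CommRing A] [Algebra k A] [CommRing K] [Algebra k K]
  (b c : A)

/-- The homomorphism on a double cover which is `θ` on the base and maps the root to `s`. -/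
noncomputable def dl (θ : A →ₐ[k] K) (s : K) (h : s ^ 2 + θ b * s + θ c = 0) :
    Dr A b c →ₐ[k] K where
  toRingHom := AdjoinRoot.lift θ.toRingHom s ((eval₂_dpoly b c _ _).trans h)
  commutes' r := by
    have h1 : algebraMap k (Dr A b c) r = algebraMap A (Dr A b c) (algebraMap k A r) := rfl
    rw [h1]
    exact (AdjoinRoot.lift_of _).trans (θ.commutes r)

lemma dl_of (θ : A →ₐ[k] K) (s : K) (h : s ^ 2 + θ b * s + θ c = 0) (a : A) :
    dl b c θ s h (algebraMap A (Dr A b c) a) = θ a :=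
  AdjoinRoot.lift_of ((eval₂_dpoly b c _ _).trans h)

lemma dl_rt (θ : A →ₐ[k] K) (s : K) (h : s ^ 2 + θ b * s + θ c = 0) :
    dl b c θ s h (rt b c) = s :=
  AdjoinRoot.lift_root ((eval₂_dpoly b c _ _).trans h)

variable {b c}

lemma dr_ext {α β : Dr A b c →ₐ[k] K}
    (h1 : ∀ a, α (algebraMap A (Dr A b c) a) = β (algebraMap A (Dr A b c) a))
    (h2 : α (rt b c) = β (rt b c)) : α = β := by
  have h : α.toRingHom = β.toRingHom := AdjoinRoot.ringHom_ext (RingHom.ext h1) h2
  exact AlgHom.ext fun x => RingHom.congr_fun h x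

end Gen

section HWs

variable {k : Type} [Field k] {S : Type} [CommRing S] [Algebra k S] (c : S)

variable (k) in
/-- The inclusion of the base. -/
noncomputable def ib : S[X][X] →ₐ[k] HW S c := IsScalarTower.toAlgHom k S[X][X] (HW S c)

/-- The root. -/
noncomputable def tH : HW S c := rt 0 (C X * X + C (C c))

lemma relH : tH c ^ 2 + ib k c (C X) * ib k c X + ib k c (C (C c)) = 0 := by
  have h := rt_eq (A := S[X][X]) 0 (C X * X + C (C c))
  rw [map_zero, zero_mul, add_zero, map_add, map_mul, ← add_assoc] at h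
  exact h

variable {c}

lemma hw_ext {K : Type} [CommRing K] [Algebra k K] {α β : HW S c →ₐ[k] K}
    (h0 : ∀ s, α (ib k c (C (C s))) = β (ib k c (C (C s))))
    (h1 : α (ib k c (C X)) = β (ib k c (C X))) (h2 : α (ib k c X) = β (ib k c X))
    (h3 : α (tH c) = β (tH c)) : α = β := by
  refine dr_ext (fun a => ?_) h3
  have e1 : (α.comp (ib k c)).comp (CC k S[X]) = (β.comp (ib k c)).comp (CC k S[X]) :=
    pl_ext h0 h1
  have e2 : α.comp (ib k c) = β.comp (ib k c) := pl_ext (fun p => AlgHom.congr_fun e1 p) h2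
  exact AlgHom.congr_fun e2 a

variable (k c)

/-- `y ↦ 0`, `y' ↦ X` -/
noncomputable def z0 : S[X][X] →ₐ[k] (Dr S 0 c)[X] :=
  evs (evs ((CC k (Dr S 0 c)).comp (drHom 0 c k)) 0) X

lemma z0_CC (s : S) : z0 k c (C (C s)) = C (algebraMap S (Dr S 0 c) s) := by
  rw [z0, evs_C, evs_C]
  rfl

lemma z0_CX : z0 k c (C X) = 0 := by
  rw [z0, evs_C, evs_X]

lemma z0_X : z0 k c X = X := by
  rw [z0, evs_X]

lemma z0_rel : (C (rt 0 c) : (Dr S 0 c)[X]) ^ 2 + z0 k c 0 * C (rt 0 c) +
    z0 k c (C X * X + C (C c)) = 0 := by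
  have h := rt_eq 0 c
  rw [map_zero, zero_mul, add_zero] at h
  rw [map_zero, zero_mul, add_zero, map_add, map_mul, z0_CX, zero_mul, zero_add, z0_CC, ← C_pow,
    ← C_add, h, C_0]

/-- The closed stratum. -/
noncomputable def zH : HW S c →ₐ[k] (Dr S 0 c)[X] := dl _ _ (z0 k c) (C (rt 0 c)) (z0_rel k c)

lemma zH_ib (p : S[X][X]) : zH k c (ib k c p) = z0 k c p := dl_of _ _ _ _ _ _

lemma zH_t : zH k c (tH c) = C (rt 0 c) := dl_rt _ _ _ _ _

lemma zH_CC (s : S) : zH k c (ib k c (C (C s))) = C (algebraMap S (Dr S 0 c) s) := by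
  rw [zH_ib, z0_CC]

lemma zH_CX : zH k c (ib k c (C X)) = 0 := by
  rw [zH_ib, z0_CX]

lemma zH_X : zH k c (ib k c X) = X := by
  rw [zH_ib, z0_X]

lemma zH_surjective : Function.Surjective (zH k c) := by
  have hC : ∀ a : Dr S 0 c, ∃ x, zH k c x = C a := by
    intro a
    obtain ⟨p, rfl⟩ := AdjoinRoot.mk_surjective a
    induction p using Polynomial.induction_on' with
    | add p q hp hq =>
      obtain ⟨x, hx⟩ := hp
      obtain ⟨y, hy⟩ := hq
      exact ⟨x + y, by rw [map_add, map_add, C_add, hx, hy]⟩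
    | monomial n s =>
      refine ⟨ib k c (C (C s)) * tH c ^ n, ?_⟩
      rw [map_mul, map_pow, zH_CC, zH_t, ← C_mul_X_pow_eq_monomial, map_mul, map_pow, ← C_pow,
        ← C_mul]
      rfl
  intro p
  induction p using Polynomial.induction_on' with
  | add p q hp hq =>
    obtain ⟨x, hx⟩ := hp
    obtain ⟨y, hy⟩ := hq
    exact ⟨x + y, by rw [map_add, hx, hy]⟩
  | monomial n a =>
    obtain ⟨x, hx⟩ := hC a
    refine ⟨x * ib k c X ^ n, ?_⟩
    rw [map_mul, map_pow, hx, zH_X, C_mul_X_pow_eq_monomial]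

lemma zH_ker : RingHom.ker (zH k c).toRingHom = Ideal.span {ib k c (C X)} := by
  apply le_antisymm
  · intro x hx
    let I : Ideal (HW S c) := Ideal.span {ib k c (C X)}
    let m : HW S c →ₐ[k] HW S c ⧸ I := Ideal.Quotient.mkₐ k I
    have hm0 : m (ib k c (C X)) = 0 := Ideal.Quotient.eq_zero_iff_mem.mpr (Ideal.subset_span rfl)
    let m0 : S →ₐ[k] HW S c ⧸ I := ((m.comp (ib k c)).comp (CC k S[X])).comp (CC k S)
    have hrel : m (tH c) ^ 2 + m0 0 * m (tH c) + m0 c = 0 := by
      have h := congrArg m (relH (k := k) c)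
      rw [map_add, map_add, map_mul, hm0, zero_mul, add_zero, map_pow, map_zero] at h
      rw [map_zero, zero_mul, add_zero]
      exact h
    let g : (Dr S 0 c)[X] →ₐ[k] HW S c ⧸ I := evs (dl 0 c m0 (m (tH c)) hrel) (m (ib k c X))
    have h1 : m = g.comp (zH k c) := by
      apply hw_ext
      · intro s
        rw [AlgHom.comp_apply, zH_CC, evs_C, dl_of]
        rfl
      · rw [AlgHom.comp_apply, zH_CX, map_zero, hm0]
      · rw [AlgHom.comp_apply, zH_X, evs_X]
      · rw [AlgHom.comp_apply, zH_t, evs_C, dl_rt]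
    have h2 := AlgHom.congr_fun h1 x
    have h3 : zH k c x = 0 := hx
    rw [AlgHom.comp_apply, h3, map_zero] at h2
    exact Ideal.Quotient.eq_zero_iff_mem.mp h2
  · rw [Ideal.span_singleton_le_iff_mem]
    exact zH_CX k c

/-- The inverse of `x`. -/
noncomputable def iv (S : Type) [CommRing S] : Localization.Away (X : S[X]) :=
  IsLocalization.Away.invSelf (R := S[X]) (X : S[X])

lemma aw_iv : awayHom k (X : S[X]) X * iv S = 1 :=
  IsLocalization.Away.mul_invSelf (R := S[X]) (X : S[X])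

/-- `y ↦ x`, `y' ↦ - x⁻¹ (X ^ 2 + c)` -/
noncomputable def u0 : S[X][X] →ₐ[k] (Localization.Away (X : S[X]))[X] :=
  evs ((CC k (Localization.Away (X : S[X]))).comp (awayHom k (X : S[X])))
    (-(C (iv S) * (X ^ 2 + C (awayHom k (X : S[X]) (C c)))))

lemma u0_C (p : S[X]) : u0 k c (C p) = C (awayHom k (X : S[X]) p) := by
  rw [u0, evs_C]
  rfl

lemma u0_X : u0 k c X = -(C (iv S) * (X ^ 2 + C (awayHom k (X : S[X]) (C c)))) := by
  rw [u0, evs_X]

lemma u0_rel : (X : (Localization.Away (X : S[X]))[X]) ^ 2 + u0 k c 0 * X +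
    u0 k c (C X * X + C (C c)) = 0 := by
  have h : (C (awayHom k (X : S[X]) X) : (Localization.Away (X : S[X]))[X]) * C (iv S) = 1 := by
    rw [← C_mul, aw_iv, C_1]
  rw [map_zero, zero_mul, add_zero, map_add, map_mul, u0_C, u0_C, u0_X]
  linear_combination (-(X ^ 2 + C (awayHom k (X : S[X]) (C c)))) * h

/-- The open stratum. -/
noncomputable def uH : HW S c →ₐ[k] (Localization.Away (X : S[X]))[X] :=
  dl _ _ (u0 k c) X (u0_rel k c)

lemma uH_ib (p : S[X][X]) : uH k c (ib k c p) = u0 k c p := dl_of _ _ _ _ _ _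

lemma uH_t : uH k c (tH c) = X := dl_rt _ _ _ _ _

lemma uH_C (p : S[X]) : uH k c (ib k c (C p)) = C (awayHom k (X : S[X]) p) := by
  rw [uH_ib, u0_C]

lemma uH_X : uH k c (ib k c X) = -(C (iv S) * (X ^ 2 + C (awayHom k (X : S[X]) (C c)))) := by
  rw [uH_ib, u0_X]

lemma uH_away : @IsLocalization.Away (HW S c) _ (ib k c (C X)) (Localization.Away (X : S[X]))[X] _
    (uH k c).toRingHom.toAlgebra := by
  let a : HW S c := ib k c (C X)
  let aw : HW S c →ₐ[k] Localization.Away a := awayHom k a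
  let ba : S[X] →ₐ[k] Localization.Away a := (aw.comp (ib k c)).comp (CC k S[X])
  have hau : IsUnit (ba X) := IsLocalization.Away.algebraMap_isUnit a
  have hyu : ∀ y : Submonoid.powers (X : S[X]), IsUnit (ba y) := by
    rintro ⟨_, n, rfl⟩
    change IsUnit (ba (X ^ n))
    rw [map_pow]
    exact hau.pow n
  let β₀ : Localization.Away (X : S[X]) →ₐ[k] Localization.Away a :=
    IsLocalization.liftAlgHom (M := Submonoid.powers (X : S[X])) (f := ba) hyu
  have hβ₀ : ∀ x : S[X], β₀ (awayHom k (X : S[X]) x) = ba x := fun x =>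
    IsLocalization.lift_eq (M := Submonoid.powers (X : S[X])) (g := ba.toRingHom) hyu x
  let β : (Localization.Away (X : S[X]))[X] →ₐ[k] Localization.Away a := evs β₀ (aw (tH c))
  have hua : IsUnit ((uH k c).toRingHom a) := by
    change IsUnit (uH k c (ib k c (C X)))
    rw [uH_C]
    refine IsUnit.of_mul_eq_one (C (iv S)) ?_
    rw [← C_mul, aw_iv, C_1]
  let α : Localization.Away a →+* (Localization.Away (X : S[X]))[X] := IsLocalization.Away.lift a hua
  have hα : ∀ x, α (algebraMap (HW S c) _ x) = uH k c x := fun x => IsLocalization.Away.lift_eq a hua x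
  have h0 : β.comp (uH k c) = aw := by
    have hC : ∀ p : S[X], β (uH k c (ib k c (C p))) = aw (ib k c (C p)) := by
      intro p
      rw [uH_C, evs_C, hβ₀]
      rfl
    apply hw_ext
    · intro s
      exact hC (C s)
    · exact hC X
    · rw [AlgHom.comp_apply, uH_X, map_neg, map_mul, map_add, map_pow, evs_C, evs_C, evs_X, hβ₀]
      have h2 : aw (ib k c (C X)) * β₀ (iv S) = 1 := by
        have h3 : aw (ib k c (C X)) = β₀ (awayHom k (X : S[X]) X) := (hβ₀ X).symm
        rw [h3, ← map_mul, aw_iv, map_one]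
      have h5 := congrArg aw (relH (k := k) c)
      rw [map_add, map_add, map_mul, map_zero, map_pow] at h5
      have h6 : ba (C c) = aw (ib k c (C (C c))) := rfl
      rw [h6]
      linear_combination (-β₀ (iv S)) * h5 + aw (ib k c X) * h2
    · rw [AlgHom.comp_apply, uH_t, evs_X]
  refine away_of_inv a _ α β.toRingHom hα ?_ ?_
  · apply IsLocalization.ringHom_ext (Submonoid.powers a)
    refine RingHom.ext fun x => ?_
    change β (α (algebraMap (HW S c) _ x)) = algebraMap (HW S c) _ x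
    rw [hα]
    exact AlgHom.congr_fun h0 x
  · apply Polynomial.ringHom_ext'
    · apply IsLocalization.ringHom_ext (Submonoid.powers (X : S[X]))
      refine RingHom.ext fun x => ?_
      change α (β (C (awayHom k (X : S[X]) x))) = C (awayHom k (X : S[X]) x)
      rw [evs_C, hβ₀]
      exact (hα _).trans (uH_C k c x)
    · change α (β X) = X
      rw [evs_X]
      exact (hα _).trans (uH_t k c)

lemma dinv_ib (p : S[X][X]) : dinv 0 (C X * X + C (C c)) k (ib k c p) = ib k c p :=
  dinv_of _ _ _ _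

lemma dinv_t : dinv 0 (C X * X + C (C c)) k (tH c) = - tH c := by
  have h := dinv_rt (A := S[X][X]) 0 (C X * X + C (C c)) k
  rw [map_zero, neg_zero, zero_sub] at h
  exact h

end HWs

end OHYR

open _root_.QCV.OHYR in
theorem t_OHYR : S_OHYR := by
  intro k S _ _ _ c
  let tZ : (Dr S 0 c)[X] ≃ₐ[k] (Dr S 0 c)[X] := Polynomial.mapAlgEquiv (dinv 0 c k)
  let tU : (Localization.Away (X : S[X]))[X] ≃ₐ[k] (Localization.Away (X : S[X]))[X] :=
    (algEquivAevalNegX (R := Localization.Away (X : S[X]))).restrictScalars k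
  have hZC : ∀ a, tZ (C a) = C (dinv 0 c k a) := fun a => Polynomial.map_C _
  have hZX : tZ X = X := Polynomial.map_X _
  have hUC : ∀ a, tU (C a) = C a := fun a => AlgEquiv.commutes (algEquivAevalNegX (R := _)) a
  have hUX : tU X = -X := by
    change algEquivAevalNegX (R := Localization.Away (X : S[X])) X = -X
    simp
  refine ⟨zH k c, uH k c, tZ, tU, ⟨zH_surjective k c, zH_ker k c, uH_away k c⟩, ?_, ?_, hZC, hUC⟩
  · have h : (zH k c).comp (dinv 0 (C X * X + C (C c)) k).toAlgHom =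
        tZ.toAlgHom.comp (zH k c) := by
      apply hw_ext
      · intro s
        change zH k c (dinv 0 (C X * X + C (C c)) k _) = tZ (zH k c _)
        rw [dinv_ib, zH_CC, hZC, dinv_of]
      · change zH k c (dinv 0 (C X * X + C (C c)) k _) = tZ (zH k c _)
        rw [dinv_ib, zH_CX, map_zero]
      · change zH k c (dinv 0 (C X * X + C (C c)) k _) = tZ (zH k c _)
        rw [dinv_ib, zH_X, hZX]
      · change zH k c (dinv 0 (C X * X + C (C c)) k _) = tZ (zH k c _)
        rw [dinv_t, map_neg, zH_t, hZC, dinv_rt, map_zero, neg_zero, zero_sub, C_neg]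
    exact fun x => AlgHom.congr_fun h x
  · have h : (uH k c).comp (dinv 0 (C X * X + C (C c)) k).toAlgHom =
        tU.toAlgHom.comp (uH k c) := by
      apply hw_ext
      · intro s
        change uH k c (dinv 0 (C X * X + C (C c)) k _) = tU (uH k c _)
        rw [dinv_ib, uH_C, hUC]
      · change uH k c (dinv 0 (C X * X + C (C c)) k _) = tU (uH k c _)
        rw [dinv_ib, uH_C, hUC]
      · change uH k c (dinv 0 (C X * X + C (C c)) k _) = tU (uH k c _)
        rw [dinv_ib, uH_X, map_neg, map_mul, map_add, map_pow, hUC, hUC, hUX]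
        ring
      · change uH k c (dinv 0 (C X * X + C (C c)) k _) = tU (uH k c _)
        rw [dinv_t, map_neg, uH_t, hUX]
    exact fun x => AlgHom.congr_fun h x

end QCV


end

section

/-!
# QCV_DVL: specialisation of a line
-/

set_option autoImplicit false

namespace QCV

open MvPolynomial

/-- Substitution in the variables of the line. -/
theorem dvl_change {Ω : Type} [Field Ω] {n : ℕ} (F : MvPolynomial (Fin n) Ω) (p q : Fin n → Ω)
    (h : MvPolynomial.aeval (fun i => C (p i) * X 0 + C (q i) * X 1 :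
      Fin n → MvPolynomial (Fin 2) Ω) F = 0) (a b c d : Ω) (p' q' : Fin n → Ω)
    (hp : ∀ i, p' i = a * p i + c * q i) (hq : ∀ i, q' i = b * p i + d * q i) :
    MvPolynomial.aeval (fun i => C (p' i) * X 0 + C (q' i) * X 1 :
      Fin n → MvPolynomial (Fin 2) Ω) F = 0 := by
  let φ : MvPolynomial (Fin 2) Ω →ₐ[Ω] MvPolynomial (Fin 2) Ω :=
    MvPolynomial.aeval (![C a * X 0 + C b * X 1, C c * X 0 + C d * X 1] :
      Fin 2 → MvPolynomial (Fin 2) Ω)
  have h1 : (MvPolynomial.aeval (fun i => C (p' i) * X 0 + C (q' i) * X 1 :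
      Fin n → MvPolynomial (Fin 2) Ω)) = φ.comp (MvPolynomial.aeval
        (fun i => C (p i) * X 0 + C (q i) * X 1 : Fin n → MvPolynomial (Fin 2) Ω)) := by
    apply MvPolynomial.algHom_ext
    intro i
    have h2 : φ (X 0) = C a * X 0 + C b * X 1 := by
      simp [φ]
    have h3 : φ (X 1) = C c * X 0 + C d * X 1 := by
      simp [φ]
    rw [AlgHom.comp_apply, aeval_X, aeval_X, map_add, map_mul, map_mul, h2, h3,
      MvPolynomial.algHom_C, MvPolynomial.algHom_C, hp, hq]
    simp only [MvPolynomial.algebraMap_eq, map_add, map_mul]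
    ring
  rw [h1, AlgHom.comp_apply, h, map_zero]

/-- Normalisation of a nonzero vector. -/
theorem dvl_norm {Ω : Type} [Field Ω] (V : ValuationSubring Ω) {n : ℕ} (p : Fin n → Ω)
    (hp : p ≠ 0) : ∃ i, p i ≠ 0 ∧ ∀ k, (p i)⁻¹ * p k ∈ V := by
  obtain ⟨k0, hk0⟩ := Function.ne_iff.1 hp
  obtain ⟨i, -, hi⟩ := Finset.exists_max_image Finset.univ (fun k => V.valuation (p k))
    ⟨k0, Finset.mem_univ _⟩
  have hne : p i ≠ 0 := by
    intro h0
    have h1 := hi k0 (Finset.mem_univ _)
    rw [h0, map_zero, le_zero_iff, map_eq_zero] at h1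
    exact hk0 h1
  refine ⟨i, hne, fun k => ?_⟩
  rw [← V.valuation_le_one_iff, map_mul, map_inv₀]
  have h2 : V.valuation (p i) ≠ 0 := by
    rw [Ne, map_eq_zero]
    exact hne
  calc (V.valuation (p i))⁻¹ * V.valuation (p k) ≤ (V.valuation (p i))⁻¹ * V.valuation (p i) :=
        mul_le_mul_right (hi k (Finset.mem_univ _)) _
    _ = 1 := inv_mul_cancel₀ h2

/-- A valuation ring with `t⁻¹` in its maximal ideal. -/
theorem dvl_val {K Ω : Type} [Field K] [Field Ω] [Algebra K Ω] (t : Ω) (ht : Transcendental K t) :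
    ∃ V : ValuationSubring Ω, (∀ x, algebraMap K Ω x ∈ V) ∧ t⁻¹ ∈ V.nonunits := by
  have hs : Transcendental K t⁻¹ := by
    intro h
    apply ht
    have h1 := h.inv
    rwa [inv_inv] at h1
  let A : Subalgebra K Ω := (Polynomial.aeval t⁻¹ : Polynomial K →ₐ[K] Ω).range
  have hsA : t⁻¹ ∈ A.toSubring := ⟨Polynomial.X, Polynomial.aeval_X _⟩
  let I : Ideal A.toSubring := Ideal.span {⟨t⁻¹, hsA⟩}
  have hI : I ≠ ⊤ := by
    intro htop
    have h1 : (1 : A.toSubring) ∈ I := by
      rw [htop]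
      exact Submodule.mem_top
    rw [Ideal.mem_span_singleton'] at h1
    obtain ⟨⟨a, p, hp⟩, ha⟩ := h1
    have h2 : a * t⁻¹ = 1 := congrArg Subtype.val ha
    have hp' : Polynomial.aeval t⁻¹ p = a := hp
    have h3 : Polynomial.aeval t⁻¹ (p * Polynomial.X - 1) = 0 := by
      rw [map_sub, map_mul, Polynomial.aeval_X, map_one, hp', h2, sub_self]
    have h4 : p * Polynomial.X - 1 = 0 := by
      by_contra hne
      exact hs ⟨_, hne, h3⟩
    have h5 := congrArg (fun f => Polynomial.coeff f 0) h4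
    simp at h5
  obtain ⟨V, hV1, hV2⟩ := Ideal.image_subset_nonunits_valuationSubring I hI
  refine ⟨V, fun x => hV1 ?_, hV2 ⟨_, Ideal.subset_span rfl, rfl⟩⟩
  exact A.algebraMap_mem x

/-- **DVL** -/
theorem t_DVL : S_DVL := by
  intro K Ω _ _ _ n F₀ F t ht hline
  obtain ⟨V, hK, hs⟩ := dvl_val t ht
  have ht0 : t ≠ 0 := by
    rintro rfl
    exact ht (isAlgebraic_zero)
  obtain ⟨p, q, hpq, hF⟩ := hline
  rw [LinearIndependent.pair_iff] at hpq
  -- normalisation
  have hp0 : p ≠ 0 := by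
    rintro rfl
    have := (hpq 1 0 (by simp)).1
    exact one_ne_zero this
  obtain ⟨i, hi0, hi⟩ := dvl_norm V p hp0
  have hq0 : (fun k => q k - q i * ((p i)⁻¹ * p k)) ≠ 0 := by
    intro h
    have h1 := (hpq (-(q i * (p i)⁻¹)) 1 (by
      funext k
      have h2 := congrFun h k
      simp only [Pi.zero_apply] at h2
      simp only [Pi.add_apply, Pi.smul_apply, smul_eq_mul, Pi.zero_apply]
      rw [← h2]
      ring)).2
    exact one_ne_zero h1
  obtain ⟨j, hj0, hj⟩ := dvl_norm V _ hq0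
  set c : Ω := q j - q i * ((p i)⁻¹ * p j) with hc
  have hF' := dvl_change _ p q hF (p i)⁻¹ (-(c⁻¹ * (q i * (p i)⁻¹))) 0 c⁻¹
    (fun k => (p i)⁻¹ * p k) (fun k => c⁻¹ * (q k - q i * ((p i)⁻¹ * p k)))
    (fun k => by ring) (fun k => by ring)
  -- the residue field
  have hsV : t⁻¹ ∈ V := V.nonunits_subset hs
  let ι : K →+* V := (algebraMap K Ω).codRestrict V hK
  let κ : Type := IsLocalRing.ResidueField V
  let ρ : V →+* κ := IsLocalRing.residue V
  let _ : Field κ := inferInstanceAs (Field (IsLocalRing.ResidueField V))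
  let algκ : Algebra K κ := (ρ.comp ι).toAlgebra
  let P : Fin n → V := fun k => ⟨(p i)⁻¹ * p k, hi k⟩
  let Q : Fin n → V := fun k => ⟨c⁻¹ * (q k - q i * ((p i)⁻¹ * p k)), hj k⟩
  let S : V := ⟨t⁻¹, hsV⟩
  have hS : ρ S = 0 := by
    rw [IsLocalRing.residue_eq_zero_iff]
    exact V.coe_mem_nonunits_iff.1 hs
  have hP : P i = 1 := Subtype.ext (inv_mul_cancel₀ hi0)
  have hQi : Q i = 0 := Subtype.ext (by
    change c⁻¹ * (q i - q i * ((p i)⁻¹ * p i)) = 0
    rw [inv_mul_cancel₀ hi0]
    ring)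
  have hQj : Q j = 1 := Subtype.ext (inv_mul_cancel₀ hj0)
  -- evaluation over `V`
  let ev : MvPolynomial (Fin n) K →+* MvPolynomial (Fin 2) V :=
    MvPolynomial.eval₂Hom ((C : V →+* MvPolynomial (Fin 2) V).comp ι)
      (fun k => C (P k) * X 0 + C (Q k) * X 1)
  have hev : ∀ G : MvPolynomial (Fin n) K, MvPolynomial.map V.subtype (ev G) =
      MvPolynomial.aeval (fun k => C ((p i)⁻¹ * p k) * X 0 +
        C (c⁻¹ * (q k - q i * ((p i)⁻¹ * p k))) * X 1 : Fin n → MvPolynomial (Fin 2) Ω)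
        (MvPolynomial.map (algebraMap K Ω) G) := by
    intro G
    have h1 : (MvPolynomial.map V.subtype).comp ev =
        ((MvPolynomial.aeval (fun k => C ((p i)⁻¹ * p k) * X 0 +
        C (c⁻¹ * (q k - q i * ((p i)⁻¹ * p k))) * X 1 :
        Fin n → MvPolynomial (Fin 2) Ω) : MvPolynomial (Fin n) Ω →ₐ[Ω] _) :
          MvPolynomial (Fin n) Ω →+* _).comp (MvPolynomial.map (algebraMap K Ω)) := by
      apply MvPolynomial.ringHom_ext
      · intro x
        rw [RingHom.comp_apply, RingHom.comp_apply, MvPolynomial.coe_eval₂Hom,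
          MvPolynomial.eval₂_C, RingHom.comp_apply, MvPolynomial.map_C, MvPolynomial.map_C,
          AlgHom.coe_toRingHom, MvPolynomial.aeval_C]
        rfl
      · intro k
        rw [RingHom.comp_apply, RingHom.comp_apply, MvPolynomial.coe_eval₂Hom,
          MvPolynomial.eval₂_X, MvPolynomial.map_X]
        rw [AlgHom.coe_toRingHom, MvPolynomial.aeval_X, map_add, map_mul, map_mul,
          MvPolynomial.map_C, MvPolynomial.map_C, MvPolynomial.map_X, MvPolynomial.map_X]
        rfl
    exact congrArg (fun φ => φ G) h1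
  have hzero : C S * ev F₀ + ev F = 0 := by
    apply MvPolynomial.map_injective V.subtype V.subtype_injective
    rw [map_add, map_mul, map_zero, hev, hev, MvPolynomial.map_C]
    rw [map_add, map_mul, MvPolynomial.algHom_C] at hF'
    have h2 := congrArg (fun x => C (t⁻¹) * x) hF'
    rw [mul_zero, mul_add, ← mul_assoc] at h2
    rw [← h2]
    have h3 : (C t⁻¹ * (algebraMap Ω (MvPolynomial (Fin 2) Ω)) t : MvPolynomial (Fin 2) Ω) = 1 := by
      rw [MvPolynomial.algebraMap_eq, ← C_mul, inv_mul_cancel₀ ht0, C_1]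
    rw [h3, one_mul]
    rfl
  have hres : MvPolynomial.map ρ (ev F) = 0 := by
    have h1 := congrArg (MvPolynomial.map ρ) hzero
    rw [map_add, map_mul, map_zero, MvPolynomial.map_C, hS, C_0, zero_mul, zero_add] at h1
    exact h1
  refine ⟨κ, inferInstance, algκ, fun k => ρ (P k), fun k => ρ (Q k), ?_, ?_⟩
  · rw [LinearIndependent.pair_iff]
    intro a b hab
    have h1 := congrFun hab i
    have h2 := congrFun hab j
    simp only [Pi.add_apply, Pi.smul_apply, smul_eq_mul, Pi.zero_apply] at h1 h2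
    rw [hP, hQi, map_one, map_zero, mul_one, mul_zero, add_zero] at h1
    rw [h1, zero_mul, zero_add, hQj, map_one, mul_one] at h2
    exact ⟨h1, h2⟩
  · rw [← hres]
    have h1 : ((MvPolynomial.aeval (fun k => C (ρ (P k)) * X 0 + C (ρ (Q k)) * X 1 :
        Fin n → MvPolynomial (Fin 2) κ) : MvPolynomial (Fin n) K →ₐ[K] MvPolynomial (Fin 2) κ) :
        MvPolynomial (Fin n) K →+* MvPolynomial (Fin 2) κ) = (MvPolynomial.map ρ).comp ev := by
      apply MvPolynomial.ringHom_ext
      · intro x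
        rw [RingHom.comp_apply, MvPolynomial.coe_eval₂Hom, MvPolynomial.eval₂_C,
          RingHom.comp_apply, MvPolynomial.map_C, AlgHom.coe_toRingHom, MvPolynomial.aeval_C]
        rfl
      · intro k
        rw [RingHom.comp_apply, MvPolynomial.coe_eval₂Hom, MvPolynomial.eval₂_X]
        rw [AlgHom.coe_toRingHom, MvPolynomial.aeval_X, map_add, map_mul, map_mul,
          MvPolynomial.map_C, MvPolynomial.map_C, MvPolynomial.map_X, MvPolynomial.map_X]
    exact congrArg (fun φ => φ F) h1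

end QCV


end
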