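import Mathlib
import Pool.Agent.QVM.C34
import Pool.Agent.QVM.C44
import Pool.Agent.QVM.C45

/-! Parts: QCV.StB, QCV.B_BPL, QCV.B_BCO, QCV.B_BDS -/

section

/-!
# QCV, block B: statements (from the affine cone to the projective variety)

Goal.  If the affine cone over the projective variety `X ⊆ P^n_R` is in the class and `R` is small,
then `X` is in the class.  Let `Y → X` be the line bundle `O(1)`, with zero section `X → Y` and
complement `U` = the cone without its vertex.  `PF (T (i + 1)) Y → PF (T i) X` (`S_BDS`, with the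
pull-back along line bundles as a hypothesis: `BunMaps.Good`), and
`PF (T (i + 1)) X`, `PF (T (i + 1)) U` imply `PF (T (i + 1)) Y` (`pf_glue`), so descending induction
on `i` gives `PPF T U → PPF T X` (`S_BCT`).  The geometry is `S_UNI`, `S_BPL`, `S_BCO`.
-/

set_option autoImplicit false

open CategoryTheory AlgebraicGeometry Limits Polynomial TopologicalSpace

namespace QCV

open Pool.Agent.Lib_helper55.Beil Pool.Agent.Lib_helper66.OneP CUB

universe v

/-! ## Homology -/

/-- **BPR** (geometry): a closed subset `C` of dimension at most `e + 1` of a line bundle `Y → X` is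
proper over the base outside a closed subset `F` of dimension at most `e` of the base.
Proof.  For a product with the affine line this is in `supp_line_desc` (G_LND): `CUB.Asm2.s_PRO`,
`exists_boundary`, `proper_part`.  In general: cover `X` by finitely many open `V_m` with
`Y|V_m` a product (`B.loc`, quasi-compactness of `X`), `F_m` closed in `V_m` of dimension `≤ e` for
`C|V_m`, `F` the union of the closures of the `F_m` in `X` (dimension `≤ e`: `dim_le_of_specializes`
and closure of the image of a closed subset of dimension `≤ e`; see exists_common, F_OPE / F_BAS).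
`D → O` is proper: local on the target (`IsZariskiLocalAtTarget`), over `O ∩ V_m` it is a base change
of the proper morphism of the product case. -/
def S_BPR : Prop :=
  ∀ (k : Type) [Field k] {Y X : Var k} (B : Bun Y X) (C : Closeds Y.X) (e : ℕ),
    (∀ y ∈ C, Y.dim y ≤ (e + 1 : ℕ)) →
    ∃ F : Closeds X.X, (∀ x ∈ F, X.dim x ≤ e) ∧
      ∀ {O Y' D : Var k} (j : OpenIn O X) (l : OpenIn Y' Y) (B' : Bun Y' O)
        (o : OpenIn D (closedVar Y C)) (b : ClosedIn D Y'),
        (∀ x : O.X, j.g x ∉ F) → IsPullback B'.q l.g j.g B.q →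
        IsPullback o.g b.g (closedVarIn Y C).g l.g → IsProper (b.g ≫ B'.q)

/-- **BSE**: the push-forward along a section `s` of a line bundle `M → D`, `dim D ≤ e + 1`, is the
pull-back of a class with support of dimension at most `e` (the first Chern class).
Proof.  `s_* w = V B v₀` (`Bij`).  If `x` is a point of `D` of dimension `e + 1` and `V₁` an open
neighbourhood with `M|V₁` a product: `V B' (v₀|V₁) = (s_* w)|V₁ = s'_* (w|V₁) = 0` (`Restriction`,
`res_push`, `Lines`, `SectionZero`), so `v₀|V₁ = 0`; also over every smaller open set.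
Let `F` be a minimal closed subset such that `v₀` comes from `H_n(F)` (noetherian; `v₀ = P_F v`).  If
`F` contains a point `x` of dimension `e + 1`, then `x` is a generic point of `D`; choose the open
neighbourhood `V₁` in the closure of `x`, so `V₁ ⊆ F` (as a set) and `v|V₁ = 0`, because
`v₀|V₁ = P (v|V₁)` and `V₁ ∩ F → V₁` is bijective on points (surjective closed immersion: injective on
homology by exactness with the empty complement, `bd_exact`), so `v` comes from `F \ V₁`, a
contradiction. -/
def S_BSE : Prop :=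
  ∀ (k E : Type) [Field k] [Field E] (T : ∀ i : ℕ, Homology.{v} k E i) (hT : Full T),
    Pub T hT → SectionZero T → ∀ S : BunMaps T, S.Good hT →
    ∀ (i n e : ℕ) {M D : Var k} (B : Bun M D) (s : ClosedIn D M), s.g ≫ B.q = 𝟙 D.X →
      D.DimLE (e + 1 : ℕ) → ∀ w : (T (i + 1)).H (n + 2) D,
      ∃ F : Closeds D.X, (∀ x ∈ F, D.dim x ≤ e) ∧ ∃ v : (T i).H n (closedVar D F),
        (T (i + 1)).P (n + 2) s w = S.V i n B ((T i).P n (closedVarIn D F) v)

/-- **BSU**: supports descend from a line bundle to the base.
Proof.  As `supp_line_desc`: `V B u = P_C b`.  `F₀` by `S_BPR` for `C`, `O` the complement,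
`Y'`, `D` the parts over `O` (`Bun` restricted to `O`: base change of the local trivialisations),
`r : D → O` proper.  `R : M → Y'` the base change of `Y' → O` along `r` (a line bundle over `D`), `s` its
tautological section, `R ∘ s = b`.  By `S_BSE` `s_* (b|D) = V (P_F₁ v)`, `dim F₁ ≤ e`.  So
`V (u|O) = (V B u)|Y' = b_* = R_* s_* = R_* V (P_F₁ v) = V (r_* P_F₁ v)` (`Push`), `u|O = r_* P_F₁ v`
(`Bij`), which comes from the closure `F₂` of the image of `F₁` in `X` (dimension `≤ e`), so
`u` minus a class coming from `H_n(F₂)`... precisely: `u` restricted to the complement of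
`F₀ ∪ F₂` is zero, so `u` comes from `F₀ ∪ F₂` (`exact_X`). -/
def S_BSU : Prop :=
  ∀ (k E : Type) [Field k] [Field E] (T : ∀ i : ℕ, Homology.{v} k E i) (hT : Full T),
    Pub T hT → SectionZero T → ∀ S : BunMaps T, S.Good hT →
    ∀ (i n e : ℕ) {Y X : Var k} (B : Bun Y X) (u : (T i).H n X),
      Supp (T (i + 1)) (n + 2) (e + 1) Y (S.V i n B u) → Supp (T i) n e X u

def M_BSU : Prop := S_BPR → S_BSE.{v} → S_BSU.{v}

/-- **BIN**: the injectivity of the cycle class map descends from a line bundle to the base.
Proof.  Let `cls_X c = 0`, `W ⊆ X` closed of dimension `≤ i` with `c` on `W` (`exists_supp_cyc`),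
`w = cls_W c`, `Y_W` the line bundle over `W`.  `V w` is in `gen Y_W ≤ alg Y_W` (`good_of_dimLE`,
dimension `≤ i + 1`), so `V w = cls_(Y_W) d`; `cls_Y d = V (cls_X c) = 0` (`Push`), so `d` (as a cycle
on `Y`) is in `ratZero Y` by hypothesis, so there is `W₃ ⊆ Y` closed of dimension `≤ i + 2`,
containing `Y_W`, such that the class of `d` on `W₃` is zero (generators of `ratZero` live on integral
closed subvarieties of dimension `i + 1 + 1`; or: see im_of_bm, bm_of_im in G_CYC).
Take `F` of dimension `≤ i + 1` by `S_BPR` for `W₃`, enlarged by `W`; `O` its complement,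
`Y_F`, `Y_O` the parts of `Y` over `F`, `O`; `W₄ = Y_F ∪ W₃`, `D = W₃ ∩ Y_O = W₄ \ Y_F`, `r : D → O`
proper.  The image `w_F` of `w` in `H_2i(F)`: `V w_F` dies in `W₄`, so `V w_F = bd u`,
`u ∈ H_(2i+3)(D)` (`bd_exact`).  As in `S_BSU` `b_* u = V u'`, `u' = r_* P_F₁ v ∈ H_(2i+1)(O)`,
`dim F₁ ≤ i + 1` (`S_BSE` with `e = i + 1`).  `V w_F = bd (b_* u)` (`pfBoundary` for `W₄ → Y`),
`= bd (V u') = V (bd u')` (`Boundary`), so `w_F = bd u'`.  With `F₂` = union of `F` and the closure of
the image of `F₁` (dimension `≤ i + 1`), `w_F` is the boundary of a class on `F₂ \ F`, so it dies in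
`F₂`: the class of `c` on `F₂` is zero, and `c ∈ ratZero` by `Pub.divisors`. -/
def S_BIN : Prop :=
  ∀ (k E : Type) [Field k] [Finite k] [Field E] [CharZero E]
    (T : ∀ i : ℕ, Homology.{v} k E i) (hT : Full T),
    Pub T hT → SectionZero T → ∀ S : BunMaps T, S.Good hT →
    ∀ (i : ℕ) {Y X : Var k} (_ : Bun Y X), PF (T (i + 1)) Y → (T i).InjC X

def M_BIN : Prop := S_BPR → S_BSE.{v} → S_BIN.{v}

/-- **BDS**: the property `PF` descends from a line bundle to the base.
Proof.  As `pf_line_desc`, with `S_BSU` and `S_BIN`. -/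
def S_BDS : Prop :=
  ∀ (k E : Type) [Field k] [Finite k] [Field E] [CharZero E]
    (T : ∀ i : ℕ, Homology.{v} k E i) (hT : Full T),
    Pub T hT → SectionZero T → ∀ S : BunMaps T, S.Good hT →
    ∀ (i : ℕ) {Y X : Var k} (_ : Bun Y X), PF (T (i + 1)) Y → PF (T i) X

def M_BDS : Prop := S_BSU.{v} → S_BIN.{v} → S_BDS.{v}

/-- **BCT**: from the complement of a section of a line bundle to the base.
Proof.  `X.DimLE D` for some `D`; descending induction on `i` (`Nat.decreasingInduction` or induction
on `D - i`): `pf_of_dimLE` for `i ≥ D`; otherwise `S_BDS` and `pf_glue`. -/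
def S_BCT : Prop :=
  ∀ (k E : Type) [Field k] [Finite k] [Field E] [CharZero E]
    (T : ∀ i : ℕ, Homology.{v} k E i) (hT : Full T),
    Pub T hT → SectionZero T → ∀ S : BunMaps T, S.Good hT →
    ∀ {Y X U : Var k} (B : Bun Y X) (s : ClosedIn X Y) (j : OpenIn U Y), s.g ≫ B.q = 𝟙 X.X →
      Complementary s j → PPF T U → PPF T X

def M_BCT : Prop := S_BDS.{v} → S_BCT.{v}

/-! ## Geometry -/

attribute [local instance] MvPolynomial.gradedAlgebra

/-- **UNI**: the line bundle `O(1)` over the projective space over `R`: total space `Y`, zero section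
`s`, complement `U` = the affine space without the origin.
Proof.  `A = R[x_0, ..., x_n]`, `A' = R[x_0, ..., x_(n+1)]`, `φ : A → A'`, `x_j ↦ x_(j+1)` (graded),
`ψ : A' → A`, `x_0 ↦ 0`, `x_(j+1) ↦ x_j`.  `Y` = the union of the `D_+(x_l)`, `l ≥ 1`, in `Proj A'`;
`q : Y → Proj A` glued (`Scheme.Cover.glueMorphisms`, model: `Proj.fromOfGlobalSections`) from
`Spec (Away.map φ x_l) ≫ awayι`; on overlaps use `SpecMap_awayMap_awayι`, `pullbackAwayιIso`.
`q y = φ⁻¹ (y)` on homogeneous primes, so `q⁻¹ D_+(x_l) = D_+(x_(l+1))`, and over `D_+(x_l)` it is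
`Away A' x_(l+1) = (Away A x_l)[x_0 / x_(l+1)]`, a polynomial ring (`Line`).  The zero section:
`Proj.map ψ` (Mathlib, ProjectiveSpectrum/Functor; `ψ` is surjective, a closed immersion on the
charts) factors through `Y`; `ψ ∘ φ = 1` gives `s ≫ q = 1`; its image is `x_0 = 0`.
`U = D_+(x_0) ∩ Y`, `D_+(x_0) = Spec (Away A' x_0) = Spec R[x_1, ..., x_(n+1)]` (P_PRA with `l = 0`:
`PRA.φ`, `PRA.σ` are inverse to each other), where `x_(l+1) / x_0` corresponds to the `l`-th variable,
and `q u` consists of the `f` with `f(x / x_0)` in the prime of `u`. -/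
def S_UNI : Prop :=
  ∀ (k R : Type) [Field k] [CommRing R] [Algebra k R] [Algebra.FiniteType k R] (n : ℕ),
    ∃ (P Y U : Var k) (ε : P.X ≅ PS R n) (B : Bun Y P) (s : ClosedIn P Y) (j : OpenIn U Y)
      (c : OpenIn U (aff k (MvPolynomial (Fin (n + 1)) R))),
      ε.hom ≫ PSf k R n = P.f ∧ s.g ≫ B.q = 𝟙 P.X ∧ Complementary s j ∧
      (∀ p : PrimeSpectrum (MvPolynomial (Fin (n + 1)) R),
        (∃ u : U.X, ofPt (c.g u) = p) ↔ ∃ l, (MvPolynomial.X l) ∉ p.asIdeal) ∧
      ∀ (u : U.X) (m : ℕ) (f : MvPolynomial (Fin (n + 1)) R), f.IsHomogeneous m →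
        (f ∈ (show ProjectiveSpectrum (gr R n) from
          ε.hom (B.q (j.g u))).asHomogeneousIdeal.toIdeal ↔ f ∈ (ofPt (c.g u)).asIdeal)

/-- **BPL**: pull-back of a line bundle with a section to a closed subvariety.
Proof.  Fibre products (`pullback`), as in exists_linePr, exists_lineOpen (G_LND); the local
trivialisations are pulled back; `Complementary` and the last statement from `cart_range`. -/
def S_BPL : Prop :=
  ∀ (k : Type) [Field k] {P Y U : Var k} (B : Bun Y P) (s : ClosedIn P Y) (j : OpenIn U Y),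
    s.g ≫ B.q = 𝟙 P.X → Complementary s j → ∀ {X : Var k} (g : ClosedIn X P),
    ∃ (Y' U' : Var k) (B' : Bun Y' X) (s' : ClosedIn X Y') (j' : OpenIn U' Y')
      (b : ClosedIn U' U), s'.g ≫ B'.q = 𝟙 X.X ∧ Complementary s' j' ∧
      ∀ u : U.X, u ∈ Set.range b.g ↔ B.q (j.g u) ∈ Set.range g.g

/-- **BCO**: from the affine cone to the projective variety, for a class `P` of varieties.
Proof.  `S_UNI`, `S_BPL` for `X → P` (`ε⁻¹` after `S.g`): `U' → U` closed with image the `u` with
`f_j ∈ ofPt (c u)` for all `j` (`ProjSub.range`, homogeneity).  `C = aff k (A / (f))`, closed in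
`aff k A`, `A = R[x_0, ..., x_n]`; the vertex is the closed subvariety `Spec R` of `C` (`x ↦ 0`; the
`f_j` have no constant term).  `C° = C ∩ U` (fibre product), open in `C` with complement the vertex:
`P C°` by `cut`.  `C° → U` closed with the same image as `U' → U`: `P U'` by `range`.  `P X` by
`contract`. -/
def S_BCO : Prop :=
  ∀ (k : Type) [Field k] (P : Var k → Prop),
    (∀ {Z U X : Var k} (a : ClosedIn Z X) (j : OpenIn U X), Complementary a j → P X → P Z → P U) →
    (∀ {X Y W : Var k} (a : ClosedIn X W) (b : ClosedIn Y W), Set.range a.g = Set.range b.g →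
      P X → P Y) →
    (∀ {Y X U : Var k} (B : Bun Y X) (s : ClosedIn X Y) (j : OpenIn U Y), s.g ≫ B.q = 𝟙 X.X →
      Complementary s j → P U → P X) →
    ∀ (R ι : Type) [CommRing R] [Algebra k R] [Algebra.FiniteType k R] (n : ℕ)
      (f : ι → MvPolynomial (Fin (n + 1)) R) (m : ι → ℕ), (∀ j, (f j).IsHomogeneous (m j)) →
      (∀ j, 1 ≤ m j) → P (aff k R) →
      P (aff k (MvPolynomial (Fin (n + 1)) R ⧸ Ideal.span (Set.range f))) →
      ∀ (X : Var k) (_ : ProjSub f X), P X

def M_BCO : Prop := S_UNI → S_BPL → S_BCO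

end QCV


end

section

set_option autoImplicit false

/-!
# QCV, block B: pull-back of a line bundle with a section to a closed subvariety
-/

open CategoryTheory AlgebraicGeometry Limits

namespace QCV

open Pool.Agent.Lib_helper55.Beil Pool.Agent.Lib_helper66.OneP CUB

namespace BPL

variable {k : Type} [Field k]

/-- The base change of a line. -/
lemma exists_lineBC {Y X Z : Var k} (L : Line Y X) (r : Z.X ⟶ X.X) (hr : r ≫ X.f = Z.f) :
    ∃ (Y' : Var k) (L' : Line Y' Z) (R : Y'.X ⟶ Y.X), IsPullback R L'.q L.q r := by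
  have e1 : LocallyOfFiniteType (L.q ≫ X.f) := by
    rw [L.comm]
    infer_instance
  have e2 : QuasiCompact (L.q ≫ X.f) := by
    rw [L.comm]
    infer_instance
  have e3 : IsSeparated (L.q ≫ X.f) := by
    rw [L.comm]
    infer_instance
  have h1 : LocallyOfFiniteType L.q := locallyOfFiniteType_of_comp L.q X.f
  have h2 : QuasiCompact L.q := QuasiCompact.of_comp L.q X.f
  have h3 : IsSeparated L.q := IsSeparated.of_comp L.q X.f
  have hP : IsPullback (pullback.fst L.q r) (pullback.snd L.q r) L.q r :=
    IsPullback.of_hasPullback L.q r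
  let Y' : Var k :=
    { X := pullback L.q r
      f := pullback.snd L.q r ≫ Z.f
      sep := inferInstance
      lft := inferInstance
      qc := inferInstance }
  let L' : Line Y' Z :=
    { q := pullback.snd L.q r
      t := pullback.fst L.q r ≫ L.t
      comm := rfl
      prod := by
        have h4 := (hP.paste_horiz L.prod.flip).flip
        rw [hr] at h4
        exact h4 }
  exact ⟨Y', L', pullback.fst L.q r, hP⟩

/-- The projection of a line bundle is separated, quasi-compact and of finite type. -/
lemma bun_props {Y P : Var k} (B : Bun Y P) :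
    LocallyOfFiniteType B.q ∧ QuasiCompact B.q ∧ IsSeparated B.q := by
  have e1 : LocallyOfFiniteType (B.q ≫ P.f) := by
    rw [B.comm]
    infer_instance
  have e2 : QuasiCompact (B.q ≫ P.f) := by
    rw [B.comm]
    infer_instance
  have e3 : IsSeparated (B.q ≫ P.f) := by
    rw [B.comm]
    infer_instance
  exact ⟨locallyOfFiniteType_of_comp B.q P.f, QuasiCompact.of_comp B.q P.f,
    IsSeparated.of_comp B.q P.f⟩

end BPL

open _root_.QCV.BPL

theorem t_BPL : S_BPL := by
  intro k _ P Y U B s j hs hc X g
  obtain ⟨h1, h2, h3⟩ := bun_props B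
  have hgc := g.closed
  have hjo := j.isOpen
  have hsc := s.closed
  let fY : pullback B.q g.g ⟶ Y.X := pullback.fst B.q g.g
  let qX : pullback B.q g.g ⟶ X.X := pullback.snd B.q g.g
  have hP : IsPullback fY qX B.q g.g := IsPullback.of_hasPullback B.q g.g
  have hfc : IsClosedImmersion fY := inferInstanceAs (IsClosedImmersion (pullback.fst B.q g.g))
  let Y' : Var k :=
    { X := pullback B.q g.g
      f := pullback.snd B.q g.g ≫ X.f
      sep := inferInstance
      lft := inferInstance
      qc := inferInstance }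
  have hfY : fY ≫ Y.f = Y'.f := by
    change fY ≫ Y.f = qX ≫ X.f
    rw [← B.comm, ← g.comm, ← Category.assoc, hP.w, Category.assoc]
  -- the line bundle
  let B' : Bun Y' X :=
    { q := qX
      comm := rfl
      loc := by
        intro x
        obtain ⟨W, V, L, l, jj, hpb, hx⟩ := B.loc (g.g x)
        have hjj := jj.isOpen
        have hV : IsPullback (pullback.fst g.g jj.g) (pullback.snd g.g jj.g) g.g jj.g :=
          IsPullback.of_hasPullback g.g jj.g
        let V' : Var k :=
          { X := pullback g.g jj.g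
            f := pullback.fst g.g jj.g ≫ X.f
            sep := inferInstance
            lft := inferInstance
            qc := by
              have e1 : pullback.fst g.g jj.g ≫ X.f = pullback.snd g.g jj.g ≫ V.f := by
                rw [← g.comm, ← jj.comm, ← Category.assoc, hV.w, Category.assoc]
              rw [e1]
              infer_instance }
        let jV : OpenIn V' X := ⟨pullback.fst g.g jj.g, rfl, inferInstance⟩
        have hVf : pullback.snd g.g jj.g ≫ V.f = V'.f := by
          change pullback.snd g.g jj.g ≫ V.f = pullback.fst g.g jj.g ≫ X.f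
          rw [← g.comm, ← jj.comm, ← Category.assoc, ← hV.w, Category.assoc]
        obtain ⟨W', L', R, hR⟩ := exists_lineBC (Z := V') L (pullback.snd g.g jj.g) hVf
        have hbig : IsPullback (R ≫ l.g) L'.q B.q (pullback.snd g.g jj.g ≫ jj.g) :=
          hR.paste_horiz hpb.flip
        have hcond : pullback.snd g.g jj.g ≫ jj.g = pullback.fst g.g jj.g ≫ g.g := hV.w.symm
        rw [hcond] at hbig
        let l' : W'.X ⟶ Y'.X := hP.lift (R ≫ l.g) (L'.q ≫ pullback.fst g.g jj.g) (by
          rw [hbig.w, Category.assoc])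
        have hl1 : l' ≫ fY = R ≫ l.g := hP.lift_fst _ _ _
        have hl2 : l' ≫ qX = L'.q ≫ pullback.fst g.g jj.g := hP.lift_snd _ _ _
        rw [← hl1] at hbig
        have hsq : IsPullback l' L'.q qX (pullback.fst g.g jj.g) :=
          IsPullback.of_right hbig hl2 hP
        have hopen : IsOpenImmersion l' :=
          MorphismProperty.of_isPullback (P := @IsOpenImmersion) hsq.flip
            (show IsOpenImmersion (pullback.fst g.g jj.g) from inferInstance)
        refine ⟨W', V', L', ⟨l', ?_, hopen⟩, jV, hsq.flip, ?_⟩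
        · change l' ≫ qX ≫ X.f = W'.f
          rw [← Category.assoc, hl2, Category.assoc, ← L'.comm]
        · change x ∈ Set.range (pullback.fst g.g jj.g)
          rw [cart_range hV.flip]
          exact hx }
  -- the section
  let s' : X.X ⟶ Y'.X := hP.lift (g.g ≫ s.g) (𝟙 X.X) (by
    rw [Category.assoc, hs, Category.comp_id, Category.id_comp])
  have hs1 : s' ≫ fY = g.g ≫ s.g := hP.lift_fst _ _ _
  have hs2 : s' ≫ qX = 𝟙 X.X := hP.lift_snd _ _ _
  have hs3 : IsClosedImmersion (s' ≫ fY) := by
    rw [hs1]
    infer_instance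
  have hs4 : IsClosedImmersion s' := IsClosedImmersion.of_comp s' fY
  let sC : ClosedIn X Y' := ⟨s', by
    change s' ≫ qX ≫ X.f = X.f
    rw [← Category.assoc, hs2, Category.id_comp], hs4⟩
  -- the complement
  have hU : IsPullback (pullback.fst fY j.g) (pullback.snd fY j.g) fY j.g :=
    IsPullback.of_hasPullback fY j.g
  have hUf : pullback.snd fY j.g ≫ U.f = pullback.fst fY j.g ≫ Y'.f := by
    rw [← hfY, ← j.comm, ← Category.assoc, ← hU.w, Category.assoc]
  let U' : Var k :=
    { X := pullback fY j.g
      f := pullback.fst fY j.g ≫ Y'.f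
      sep := inferInstance
      lft := inferInstance
      qc := by
        rw [← hUf]
        infer_instance }
  let j' : OpenIn U' Y' := ⟨pullback.fst fY j.g, rfl, inferInstance⟩
  let b : ClosedIn U' U := ⟨pullback.snd fY j.g, hUf, inferInstance⟩
  refine ⟨Y', U', B', sC, j', b, hs2, ?_, ?_⟩
  · -- complementary
    have h5 : IsPullback (s' ≫ qX) g.g g.g (s.g ≫ B.q) := by
      rw [hs2, hs]
      exact IsPullback.of_horiz_isIso ⟨by rw [Category.id_comp, Category.comp_id]⟩
    have h6 : IsPullback s' g.g fY s.g := IsPullback.of_right h5 hs1 hP.flip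
    have h7 : Set.range s' = fY ⁻¹' Set.range s.g := cart_range h6.flip
    have h8 : Set.range (pullback.fst fY j.g) = fY ⁻¹' Set.range j.g := cart_range hU.flip
    change Set.range s' = (Set.range (pullback.fst fY j.g))ᶜ
    rw [h7, h8, show Set.range s.g = (Set.range j.g)ᶜ from hc]
    rfl
  · intro u
    change u ∈ Set.range (pullback.snd fY j.g) ↔ _
    rw [cart_range hU]
    change j.g u ∈ Set.range fY ↔ _
    rw [cart_range hP.flip]
    rfl

end QCV


end

section

/-!
# QCV, block B: from the affine cone to the projective variety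
-/

set_option autoImplicit false

open CategoryTheory AlgebraicGeometry Limits Polynomial TopologicalSpace

namespace QCV

open Pool.Agent.Lib_helper55.Beil Pool.Agent.Lib_helper66.OneP CUB

attribute [local instance] MvPolynomial.gradedAlgebra

namespace BCO

/-- The range of the closed immersion of `Spec (A / I)`. -/
lemma mem_range_clo {k : Type} [Field k] {A B : Type} [CommRing A] [CommRing B] [Algebra k A]
    [Algebra k B] [Algebra.FiniteType k A] [Algebra.FiniteType k B] (ψ : A →ₐ[k] B)
    (hψ : Function.Surjective ψ) (x : (aff k A).X) :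
    x ∈ Set.range (clo ψ hψ).g ↔ RingHom.ker ψ.toRingHom ≤ (ofPt x).asIdeal := by
  have h1 : Set.range (clo ψ hψ).g =
      (Set.range (PrimeSpectrum.comap ψ.toRingHom) : Set (PrimeSpectrum A)) := rfl
  rw [h1]
  have h2 : (Set.range (PrimeSpectrum.comap ψ.toRingHom) : Set (PrimeSpectrum A)) =
      {p : PrimeSpectrum A | RingHom.ker ψ.toRingHom ≤ p.asIdeal} := range_spm_surj ψ hψ
  constructor
  · intro h
    have h3 : ofPt x ∈ (Set.range (PrimeSpectrum.comap ψ.toRingHom) : Set (PrimeSpectrum A)) := h
    rw [h2] at h3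
    exact h3
  · intro h
    have h3 : ofPt x ∈ (Set.range (PrimeSpectrum.comap ψ.toRingHom) : Set (PrimeSpectrum A)) := by
      rw [h2]
      exact h
    exact h3

end BCO

theorem t_BCO : M_BCO := by
  intro hUNI hBPL k _ P cut range contract R ι _ _ _ n f m hm hm1 hPZ hPC X S
  obtain ⟨Q, Y, U, ε, B, s, j, c, hε, hs, hc, hU1, hU2⟩ := hUNI k R n
  have hSc := S.closed
  let g : ClosedIn X Q := ⟨S.g ≫ ε.inv, by
    rw [← hε, Category.assoc, Iso.inv_hom_id_assoc, S.comm], inferInstance⟩
  obtain ⟨Y', U', B', s', j', b, hs', hc', hb⟩ := hBPL k B s j hs hc g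
  have hb2 : ∀ u : U.X, u ∈ Set.range b.g ↔ ∀ l, f l ∈ (ofPt (c.g u)).asIdeal := by
    intro u
    rw [hb u]
    have h1 : B.q (j.g u) ∈ Set.range g.g ↔ ∃ x : X.X, S.g x = ε.hom (B.q (j.g u)) := by
      constructor
      · rintro ⟨x, hx⟩
        refine ⟨x, ?_⟩
        rw [← hx]
        change S.g x = ε.hom ((S.g ≫ ε.inv) x)
        rw [← Scheme.Hom.comp_apply, Category.assoc, Iso.inv_hom_id, Category.comp_id]
      · rintro ⟨x, hx⟩
        refine ⟨x, ?_⟩
        change (S.g ≫ ε.inv) x = _
        rw [Scheme.Hom.comp_apply, hx, ← Scheme.Hom.comp_apply, Iso.hom_inv_id]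
        rfl
    rw [h1]
    refine (S.range _).trans (forall_congr' fun l => ?_)
    exact hU2 u (m l) (f l) (hm l)
  -- the cone
  let A := MvPolynomial (Fin (n + 1)) R
  let I : Ideal A := Ideal.span (Set.range f)
  let cC : ClosedIn (aff k (A ⧸ I)) (aff k A) :=
    clo (Ideal.Quotient.mkₐ k I) (Ideal.Quotient.mkₐ_surjective k I)
  have hcC : ∀ x : (aff k A).X, x ∈ Set.range cC.g ↔ ∀ l, f l ∈ (ofPt x).asIdeal := by
    intro x
    refine (BCO.mem_range_clo _ _ x).trans ?_
    have h1 : RingHom.ker (Ideal.Quotient.mkₐ k I).toRingHom = I := Ideal.mk_ker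
    rw [h1, Ideal.span_le]
    exact Set.range_subset_iff
  -- the vertex
  let ψ : A →ₐ[k] R := (MvPolynomial.aeval (R := R) (0 : Fin (n + 1) → R)).restrictScalars k
  have hψC : ∀ a : R, ψ (MvPolynomial.C a) = a := fun a => MvPolynomial.aeval_C _ a
  have hψX : ∀ l, ψ (MvPolynomial.X l) = 0 := fun l => MvPolynomial.aeval_X _ l
  have hψs : Function.Surjective ψ := fun a => ⟨MvPolynomial.C a, hψC a⟩
  have hψf : ∀ l, ψ (f l) = 0 := by
    intro l
    have h1 : ψ (f l) = MvPolynomial.constantCoeff (f l) := by
      change MvPolynomial.aeval (R := R) (0 : Fin (n + 1) → R) (f l) = _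
      rw [MvPolynomial.aeval_zero]
      rfl
    rw [h1, MvPolynomial.constantCoeff_eq]
    apply (hm l).coeff_eq_zero
    have h2 := hm1 l
    rw [map_zero]
    omega
  have hψI : ∀ a ∈ I, ψ a = 0 := by
    intro a ha
    have h1 : I ≤ RingHom.ker ψ.toRingHom := by
      rw [Ideal.span_le]
      exact Set.range_subset_iff.mpr hψf
    exact h1 ha
  let aZ : ClosedIn (aff k R) (aff k (A ⧸ I)) :=
    clo (Ideal.Quotient.liftₐ I ψ hψI) (Ideal.Quotient.lift_surjective_of_surjective I hψI hψs)
  have haZ : aZ.g ≫ cC.g = (clo ψ hψs).g := by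
    change Spec.map _ ≫ Spec.map _ = Spec.map _
    rw [← Spec.map_comp, ← CommRingCat.ofHom_comp]
    rfl
  have hψk : ∀ q : PrimeSpectrum A, RingHom.ker ψ.toRingHom ≤ q.asIdeal ↔
      ∀ l, (MvPolynomial.X l : A) ∈ q.asIdeal := by
    intro q
    constructor
    · intro h l
      exact h (hψX l)
    · intro h p hp
      have key : ∀ p : A, p - MvPolynomial.C (ψ p) ∈ q.asIdeal := by
        intro p
        induction p using MvPolynomial.induction_on with
        | C a =>
          rw [hψC, sub_self]
          exact q.asIdeal.zero_mem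
        | add p p' hp hp' =>
          have h1 : p + p' - MvPolynomial.C (ψ (p + p')) =
              (p - MvPolynomial.C (ψ p)) + (p' - MvPolynomial.C (ψ p')) := by
            rw [map_add, map_add]
            ring
          rw [h1]
          exact q.asIdeal.add_mem hp hp'
        | mul_X p i hp =>
          rw [map_mul, hψX, mul_zero, map_zero, sub_zero]
          exact q.asIdeal.mul_mem_left _ (h i)
      have h1 : ψ p = 0 := hp
      have h2 := key p
      rw [h1, map_zero, sub_zero] at h2
      exact h2
  -- the open part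
  obtain ⟨D, o, b', hD⟩ := exists_cart cC c
  have ho : Set.range o.g = cC.g ⁻¹' Set.range c.g := cart_range hD.flip
  have hb' : Set.range b'.g = c.g ⁻¹' Set.range cC.g := cart_range hD
  have hcomp : Complementary aZ o := by
    rw [Complementary, ho]
    ext x
    have h1 : x ∈ Set.range aZ.g ↔ ∀ l, (MvPolynomial.X l : A) ∈ (ofPt (cC.g x)).asIdeal := by
      rw [← hψk, ← BCO.mem_range_clo ψ hψs, ← haZ]
      constructor
      · rintro ⟨z, rfl⟩
        exact ⟨z, by rw [Scheme.Hom.comp_apply]⟩
      · rintro ⟨z, hz⟩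
        refine ⟨z, closedIn_injective cC ?_⟩
        rw [← hz, Scheme.Hom.comp_apply]
    have h5 : cC.g x ∈ Set.range c.g ↔ ∃ l, (MvPolynomial.X l : A) ∉ (ofPt (cC.g x)).asIdeal := by
      rw [← hU1 (ofPt (cC.g x))]
      rfl
    rw [h1, Set.mem_compl_iff, Set.mem_preimage, h5]
    push Not
    rfl
  have hPD : P D := cut aZ o hcomp hPC hPZ
  have hPU' : P U' := by
    refine range b' b ?_ hPD
    ext u
    rw [hb2 u, hb', Set.mem_preimage, hcC]
  exact contract B' s' j' hs' hc' hPU'

end QCV


end

section

/-!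
# QCV, block B: the property `PF` descends from a line bundle to the base
-/

set_option autoImplicit false

open CategoryTheory AlgebraicGeometry Limits Polynomial TopologicalSpace

namespace QCV

open Pool.Agent.Lib_helper55.Beil Pool.Agent.Lib_helper66.OneP CUB

universe v

/-- The property `PF` descends from a line bundle to the base. -/
theorem t_BDS : M_BDS.{v} := by
  intro hBSU hBIN k E _ _ _ _ T hT hP hS S hG i Y X B h
  have hfr := hG.1
  refine ⟨?_, hBIN k E T hT hP hS S hG i B h, ?_⟩
  · intro α hα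
    refine alg_of_supp i X α hα (hBSU k E T hT hP hS S hG i (2 * i) i B α ?_)
    have h1 : S.V i (2 * i) B α ∈ (T (i + 1)).gen Y :=
      maxGen_map ((T i).frob (2 * i) X) ((T (i + 1)).frob (2 * (i + 1)) Y) (S.pb i (2 * i) B)
        (hfr i (2 * i) B) hα
    obtain ⟨c, hc⟩ := exists_cls (T (i + 1)) Y _ (h.1 h1)
    have h2 := supp_cls (T := T) (i + 1) Y c
    have h3 : clz (T (i + 1)) Y c = S.V i (2 * i) B α := hc
    rw [h3] at h2
    exact h2
  · intro m hm
    refine hBSU k E T hT hP hS S hG i (2 * i + 1) (i + 1) B m (h.2.2 _ ?_)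
    exact maxGen_map ((T i).frob (2 * i + 1) X) ((T (i + 1)).frob (2 * (i + 1) + 1) Y)
      (S.pb i (2 * i + 1) B) (hfr i (2 * i + 1) B) hm

end QCV


end
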