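import Mathlib
import Pool.Agent.QVM.C42
import Pool.Agent.QVM.C45
import Pool.Agent.QVM.C54

/-! Parts: QCV.O_ONIL, QCV.O_OISO, QCV.O_ODCV, QCV.D_DRC, QCV.B_BSU, QCV.B_BIN, QCV.B_BCT, QCV.B_ASM -/

section

/-!
# QCV, block O, module ONIL: an automorphism which is trivial modulo nilpotents
-/

set_option autoImplicit false

open CategoryTheory AlgebraicGeometry Polynomial TopologicalSpace

namespace QCV

open Pool.Agent.Lib_helper55.Beil Pool.Agent.Lib_helper66.OneP CUB

universe v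

namespace ONIL

variable {k : Type} [Field k] {A : Type} [CommRing A] [Algebra k A] [Algebra.FiniteType k A]

/-- the reduction -/
noncomputable def rd (k A : Type) [Field k] [CommRing A] [Algebra k A] [Algebra.FiniteType k A] :
    ClosedIn (aff k (A ⧸ nilradical A)) (aff k A) :=
  clo (Ideal.Quotient.mkₐ k (nilradical A)) Ideal.Quotient.mk_surjective

lemma rd_surj : Function.Surjective (rd k A).g := by
  intro x
  have h := (PrimeSpectrum.comap_quotientMk_bijective_of_le_nilradical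
    (le_refl (nilradical A))).2 x
  obtain ⟨y, hy⟩ := h
  exact ⟨y, hy⟩

lemma rd_comp (t : A ≃ₐ[k] A) (ht : ∀ x, IsNilpotent (t x - x)) :
    (rd k A).g ≫ (autc t).g = (rd k A).g := by
  change Spec.map _ ≫ Spec.map _ = Spec.map _
  rw [← Spec.map_comp, ← CommRingCat.ofHom_comp]
  congr 2
  ext x
  change Ideal.Quotient.mk (nilradical A) (t x) = Ideal.Quotient.mk (nilradical A) x
  rw [Ideal.Quotient.eq]
  exact ht x

lemma fix (t : A ≃ₐ[k] A) (ht : ∀ x, IsNilpotent (t x - x)) (x : (aff k A).X) :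
    (autc t).g x = x := by
  obtain ⟨y, rfl⟩ := rd_surj (k := k) x
  have h := congrArg (fun f => f y) (rd_comp t ht)
  exact h

end ONIL

open _root_.QCV.ONIL

theorem t_ONIL : S_ONIL.{v} := by
  intro k E _ _ T hT A _ _ _ t ht i
  refine ⟨fun n _ m => ?_, fun c => ?_⟩
  · have h := ((T i).exact_X n (rd k A) (openVarIn (aff k A) ⊥)
      (complementary_surj (rd k A) rd_surj) m).mp
    have hs := (T i).empty n _ (isEmpty_openVar_bot (aff k A))
    obtain ⟨z, rfl⟩ := h (Subsingleton.elim _ _)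
    exact hT.push_comp i n _ _ _ (rd k A) (autc t) (rd k A) (rd_comp t ht) z
  · have h : pushCyc (autc t) c = c := by
      have h1 : (ptsMap i (autc t) : Pts i (aff k A) → Pts i (aff k A)) = id := by
        funext u
        exact Subtype.ext (fix t ht u.1)
      unfold pushCyc
      rw [h1, Finsupp.mapDomain_id]
    rw [h, sub_self]
    exact Submodule.zero_mem _

end QCV


end

section

/-!
# QCV, block O: isomorphism invariance of `TR`
-/

set_option autoImplicit false

open CategoryTheory AlgebraicGeometry Polynomial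

namespace QCV

open Pool.Agent.Lib_helper55.Beil Pool.Agent.Lib_helper66.OneP CUB

universe v

namespace OISO

variable {k : Type} [Field k] {A B : Type} [CommRing A] [Algebra k A] [Algebra.FiniteType k A]
  [CommRing B] [Algebra k B] [Algebra.FiniteType k B]

/-- The closed immersion defined by an isomorphism of algebras. -/
noncomputable abbrev isc (e : A ≃ₐ[k] B) : ClosedIn (aff k B) (aff k A) :=
  clo (e : A →ₐ[k] B) e.surjective

lemma isc_symm (e : A ≃ₐ[k] B) : (isc e).g ≫ (isc e.symm).g = (idIn (aff k B)).g := by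
  change spm (e : A →ₐ[k] B) ≫ spm (e.symm : B →ₐ[k] A) = 𝟙 _
  rw [spm_comp, ← spm_id]
  exact congrArg spm (AlgHom.ext fun x => e.apply_symm_apply x)

lemma isc_comm (t : A ≃ₐ[k] A) (t' : B ≃ₐ[k] B) (e : A ≃ₐ[k] B) (h : ∀ x, e (t x) = t' (e x)) :
    (isc e).g ≫ (autc t).g = (autc t').g ≫ (isc e).g := by
  change spm (e : A →ₐ[k] B) ≫ spm (t : A →ₐ[k] A) =
    spm (t' : B →ₐ[k] B) ≫ spm (e : A →ₐ[k] B)
  rw [spm_comp, spm_comp]
  exact congrArg spm (AlgHom.ext fun x => h x)

end OISO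

open _root_.QCV.OISO

/-- OISO. -/
theorem t_OISO : S_OISO.{v} := by
  intro k E _ _ T hT A B _ _ _ _ _ _ t t' e h i H
  have hc := isc_comm t t' e h
  have hs := isc_symm e
  constructor
  · intro n hn m
    have h1 := H.hom n hn ((T i).P n (isc e) m)
    rw [hT.push_comp i n _ _ _ (isc e) (autc t) ((isc e).trans (autc t)) rfl,
      ← hT.push_comp i n _ _ _ (autc t') (isc e) ((isc e).trans (autc t)) hc.symm] at h1
    have h2 := congrArg ((T i).P n (isc e.symm)) h1
    rwa [hT.push_comp i n _ _ _ (isc e) (isc e.symm) (idIn (aff k B)) hs,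
      hT.push_comp i n _ _ _ (isc e) (isc e.symm) (idIn (aff k B)) hs,
      hT.push_id i n _ (idIn (aff k B)) rfl, hT.push_id i n _ (idIn (aff k B)) rfl] at h2
  · intro c
    have hid : ∀ d : Pts i (aff k B) →₀ E, pushCyc (isc e.symm) (pushCyc (isc e) d) = d := by
      intro d
      rw [pushCyc_comp (isc e) (isc e.symm) (idIn (aff k B)) hs]
      have h0 : ptsMap i (idIn (aff k B)) = id := by
        funext x
        exact Subtype.ext rfl
      rw [pushCyc, h0, Finsupp.mapDomain_id]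
    have h1 := H.cyc (pushCyc (isc e) c)
    rw [pushCyc_comp (isc e) (autc t) ((isc e).trans (autc t)) rfl,
      ← pushCyc_comp (autc t') (isc e) ((isc e).trans (autc t)) hc.symm, ← pushCyc_sub'] at h1
    have h2 := pushCyc_ratZero (isc e.symm) _ h1
    rwa [hid] at h2

end QCV


end

section

/-!
# QCV, block O: descent of the triviality of an automorphism along a double cover
-/

set_option autoImplicit false

open CategoryTheory AlgebraicGeometry Polynomial

namespace QCV

open Pool.Agent.Lib_helper55.Beil Pool.Agent.Lib_helper66.OneP CUB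

universe v

namespace ODCV

variable {k : Type} [Field k]

lemma autc_dbl {A : Type} [CommRing A] [Algebra k A] [Algebra.FiniteType k A] (b c : A)
    (t : A ≃ₐ[k] A) (t' : Dr A b c ≃ₐ[k] Dr A b c)
    (h : ∀ a, t' (algebraMap A (Dr A b c) a) = algebraMap A (Dr A b c) (t a)) :
    (clPr (autc t')).g ≫ (dbl b c k).g = (dbl b c k).g ≫ (clPr (autc t)).g := by
  change Spec.map _ ≫ Spec.map _ = Spec.map _ ≫ Spec.map _
  rw [← Spec.map_comp, ← Spec.map_comp, ← CommRingCat.ofHom_comp, ← CommRingCat.ofHom_comp]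
  congr 2
  apply RingHom.ext
  intro a
  exact h a

end ODCV

open _root_.QCV.ODCV in
theorem t_ODCV : S_ODCV.{v} := by
  intro k E _ _ _ T hT hP A _ _ _ b c t t' htt i hTR
  obtain ⟨S, hF, hD, hC⟩ := hP.dbl
  have hcomm := autc_dbl b c t t' htt
  have h2 : (2 : E) ≠ 0 := two_ne_zero
  refine ⟨?_, ?_⟩
  · intro n hn m
    have h1 : hT.G i n (dbl b c k) (S.D i n A b c m) = (2 : E) • m := hD i n A b c m
    have h3 : (T i).P n (autc t) (hT.G i n (dbl b c k) (S.D i n A b c m)) =
        hT.G i n (dbl b c k) (S.D i n A b c m) := by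
      rw [← hT.pfClosed i n (autc t) (clPr (autc t)) rfl,
        hT.pfFunctorial i n (dbl b c k) (clPr (autc t)) ((dbl b c k).trans (clPr (autc t))) rfl,
        ← hT.pfFunctorial i n (clPr (autc t')) (dbl b c k)
          ((dbl b c k).trans (clPr (autc t))) hcomm,
        hT.pfClosed i n (autc t') (clPr (autc t')) rfl, hTR.hom n hn]
    rw [h1] at h3
    have h4 : (T i).P n (autc t) ((2 : E) • m) = (2 : E) • (T i).P n (autc t) m :=
      map_smul ((T i).push n (autc t)) (2 : E) m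
    rw [h4] at h3
    have h5 := congrArg (fun y => (2 : E)⁻¹ • y) h3
    simpa only [smul_smul, inv_mul_cancel₀ h2, one_smul] using h5
  · intro x
    obtain ⟨z, -, hz⟩ := exists_dbl S hC i A b c x
    have h4 := CUB.Asm2.s_PUSHG k E i _ _ (dbl b c k) (fun y hy => by rw [dim_dbl, hy])
      (z - pushCyc (autc t') z) (hTR.cyc z)
    have h5 : pfc E i (dbl b c k) (pushCyc (autc t') z) = (2 : E) • pushCyc (autc t) x := by
      rw [← (CUB.Asm2.s_PFC.{v}).2.2.1 k E i _ _ (autc t') (clPr (autc t')) rfl z,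
        (CUB.Asm2.s_PFC.{v}).2.1 k E i _ _ _ (clPr (autc t')) (dbl b c k)
          ((dbl b c k).trans (clPr (autc t))) hcomm z,
        ← (CUB.Asm2.s_PFC.{v}).2.1 k E i _ _ _ (dbl b c k) (clPr (autc t))
          ((dbl b c k).trans (clPr (autc t))) rfl z, hz,
        map_smul, (CUB.Asm2.s_PFC.{v}).2.2.1 k E i _ _ (autc t) (clPr (autc t)) rfl x]
    rw [map_sub, hz, h5, ← smul_sub] at h4
    have h6 := Submodule.smul_mem _ (2 : E)⁻¹ h4
    rwa [smul_smul, inv_mul_cancel₀ h2, one_smul] at h6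

end QCV


end

section

/-!
# QCV, block D, module DRC: a product of two polynomials of degree at most one and two
-/

set_option autoImplicit false

open Polynomial

namespace QCV

open CUB

namespace DRC

/-- the equation `a * b` -/
lemma core {k : Type} [Field k]
    {P : ∀ (A : Type) [CommRing A] [Algebra k A] [Algebra.FiniteType k A], Prop}
    (hF : Cls0 k P) {S : Type} [CommRing S] [Algebra k S] [Algebra.FiniteType k S]
    (a b : S) {I Ja Jb Jab : Ideal S} (hI : I = Ideal.span {a * b}) (hJa : Ja = Ideal.span {a})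
    (hJb : Jb = Ideal.span {b}) (hJab : Jab = Ideal.span {a, b}) (hA : P (S ⧸ Ja))
    (hB : P (S ⧸ Jb)) (hAB : P (S ⧸ Jab)) : P (S ⧸ I) := by
  have hIa : Ja = I ⊔ Ideal.span {a} := by
    rw [hI, hJa]
    refine le_antisymm le_sup_right (sup_le ?_ le_rfl)
    rw [Ideal.span_singleton_le_span_singleton]
    exact dvd_mul_right a b
  have hIb : Jb = I ⊔ Ideal.span {b} := by
    rw [hI, hJb]
    refine le_antisymm le_sup_right (sup_le ?_ le_rfl)
    rw [Ideal.span_singleton_le_span_singleton]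
    exact dvd_mul_left b a
  have hIab : Jab = Jb ⊔ Ideal.span {a} := by
    rw [hJab, hJb, Ideal.span_insert, sup_comm]
  have hlea : I ≤ Ja := by
    rw [hIa]
    exact le_sup_left
  have hleb : I ≤ Jb := by
    rw [hIb]
    exact le_sup_left
  have hleab : Jb ≤ Jab := by
    rw [hIab]
    exact le_sup_left
  have h1 := hF.opn _ _ _ (NOE.strat_away (k := k) hleab a hIab) hB hAB
  refine hF.glue (Ideal.Quotient.mk I a) (Ideal.Quotient.factorₐ k hlea)
    ((awayHom k (Ideal.Quotient.mk Jb a)).comp (Ideal.Quotient.factorₐ k hleb)) ⟨?_, ?_, ?_⟩ hA h1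
  · exact Ideal.Quotient.factor_surjective hlea
  · exact NOE.ker_factor hlea a hIa
  · refine NOE.away_comp (Ideal.Quotient.factorₐ k hleb) _ _ (Ideal.Quotient.mk I b)
      (Ideal.Quotient.factor_surjective hleb) (NOE.ker_factor hleb b hIb) ?_
      (isLocalization_awayHom _)
    rw [← map_mul, hI]
    exact Ideal.Quotient.eq_zero_iff_mem.2 (Ideal.mem_span_singleton_self _)

end DRC

theorem t_DRC : S_DRC := by
  intro k _ P d hP R _ _ _ n l q hR hl hq
  have hQ : ∀ m, Qn k P d m := Asm.s_QUA k P d hP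
  have p1 : P (ER (fun _ : Fin 1 => l)) := hQ n R _ hR (fun _ => hl.trans (by norm_num))
  have p2 : P (ER (fun _ : Fin 1 => q)) := hQ n R _ hR (fun _ => hq)
  have p3 : P (ER ![l, q]) := Asm.s_TWQ k P d n hP (fun m _ => hQ m) R ![l, q] hR hl hq
  refine DRC.core hP.toCls0 l q ?_ ?_ ?_ ?_ p1 p2 p3
  · rw [Set.range_const]
  · rw [Set.range_const]
  · rw [Set.range_const]
  · rw [Matrix.range_cons, Matrix.range_cons, Matrix.range_empty, Set.union_empty,
      Set.singleton_union]

end QCV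


end

section

/-!
# QCV, block B, module BSU: supports descend from a line bundle to the base

All restrictions are to open subvarieties in one step. First (`exists_small`) the class is
replaced by a class on a closed subvariety of dimension at most `e + 1`; then (`supp_small`) a
minimal support is considered.
-/

set_option autoImplicit false

open CategoryTheory AlgebraicGeometry Limits Polynomial TopologicalSpace

namespace QCV

open Pool.Agent.Lib_helper55.Beil Pool.Agent.Lib_helper66.OneP CUB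

universe v

namespace BSU

variable {k : Type} [Field k] {E : Type} [Field E] {T : ∀ i : ℕ, Homology.{v} k E i}

/-! ## Base change -/

lemma q_props {Y X : Var k} (q : Y.X ⟶ X.X) (h : q ≫ X.f = Y.f) :
    LocallyOfFiniteType q ∧ QuasiCompact q ∧ IsSeparated q := by
  have e1 : LocallyOfFiniteType (q ≫ X.f) := by
    rw [h]
    infer_instance
  have e2 : QuasiCompact (q ≫ X.f) := by
    rw [h]
    infer_instance
  have e3 : IsSeparated (q ≫ X.f) := by
    rw [h]
    infer_instance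
  exact ⟨locallyOfFiniteType_of_comp q X.f, QuasiCompact.of_comp q X.f,
    IsSeparated.of_comp q X.f⟩

/-- The base change of a variety. -/
lemma exists_pullVar {Y X Z : Var k} (q : Y.X ⟶ X.X) (hq : q ≫ X.f = Y.f) (g : Z.X ⟶ X.X)
    (hg : g ≫ X.f = Z.f) : ∃ (Y' : Var k) (q' : Y'.X ⟶ Z.X) (h : Y'.X ⟶ Y.X),
      IsPullback q' h g q ∧ q' ≫ Z.f = Y'.f ∧ h ≫ Y.f = Y'.f := by
  obtain ⟨h1, h2, h3⟩ := q_props q hq
  have hP : IsPullback (pullback.fst q g) (pullback.snd q g) q g := IsPullback.of_hasPullback q g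
  let Y' : Var k :=
    { X := pullback q g
      f := pullback.snd q g ≫ Z.f
      sep := inferInstance
      lft := inferInstance
      qc := inferInstance }
  refine ⟨Y', pullback.snd q g, pullback.fst q g, hP.flip, rfl, ?_⟩
  change pullback.fst q g ≫ Y.f = pullback.snd q g ≫ Z.f
  rw [← hq, ← Category.assoc, hP.w, Category.assoc, hg]

/-- The base change of a line. -/
lemma exists_linePull {Y X Z : Var k} (L : Line Y X) (g : Z.X ⟶ X.X) (hg : g ≫ X.f = Z.f) :
    ∃ (Y' : Var k) (L' : Line Y' Z) (h : Y'.X ⟶ Y.X), IsPullback L'.q h g L.q ∧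
      h ≫ Y.f = Y'.f := by
  obtain ⟨Y', q', h, hP, h1, h2⟩ := exists_pullVar L.q L.comm g hg
  refine ⟨Y', ⟨q', h ≫ L.t, h1, ?_⟩, h, hP, h2⟩
  have h4 := (hP.flip.paste_horiz L.prod.flip).flip
  rw [hg] at h4
  exact h4

/-- The base change of a line bundle. -/
lemma exists_bunPull {Y X Z : Var k} (B : Bun Y X) (g : Z.X ⟶ X.X) (hg : g ≫ X.f = Z.f) :
    ∃ (Y' : Var k) (B' : Bun Y' Z) (h : Y'.X ⟶ Y.X), IsPullback B'.q h g B.q ∧
      h ≫ Y.f = Y'.f := by
  obtain ⟨Y', q', h, hP, h1, h2⟩ := exists_pullVar B.q B.comm g hg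
  refine ⟨Y', ⟨q', h1, fun z => ?_⟩, h, hP, h2⟩
  obtain ⟨W, V, L, l, j, hL, hx⟩ := B.loc (g z)
  have hj := j.isOpen
  obtain ⟨V', p₀, p₁, hV, hV1, hV2⟩ := exists_pullVar g hg j.g j.comm
  have hp₁ : IsOpenImmersion p₁ := MorphismProperty.of_isPullback hV hj
  obtain ⟨W', L', hW, hP', hW2⟩ := exists_linePull L p₀ hV1
  have hO := hP'.paste_vert hL
  rw [hV.w] at hO
  have e1 : (L'.q ≫ p₁) ≫ g = (hW ≫ l.g) ≫ B.q := by
    rw [Category.assoc]
    exact hO.w
  obtain ⟨l', hl1, hl2⟩ : ∃ l' : W'.X ⟶ Y'.X, l' ≫ q' = L'.q ≫ p₁ ∧ l' ≫ h = hW ≫ l.g :=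
    ⟨hP.lift _ _ e1, hP.lift_fst _ _ _, hP.lift_snd _ _ _⟩
  rw [← hl2] at hO
  have hpb : IsPullback L'.q l' p₁ q' := IsPullback.of_bot hO hl1.symm hP
  have hl' : IsOpenImmersion l' := MorphismProperty.of_isPullback hpb hp₁
  refine ⟨W', V', L', ⟨l', ?_, hl'⟩, ⟨p₁, hV2, hp₁⟩, hpb, ?_⟩
  · rw [← h2, ← Category.assoc, hl2, Category.assoc, l.comm, hW2]
  · have h3 := cart_range hV
    change z ∈ Set.range p₁
    rw [h3]
    exact hx

/-- A product with the affine line is a line bundle. -/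
noncomputable def ofLine {Y X : Var k} (L : Line Y X) : Bun Y X where
  q := L.q
  comm := L.comm
  loc := fun x => ⟨Y, X, L, ⟨𝟙 Y.X, Category.id_comp _, inferInstance⟩,
    ⟨𝟙 X.X, Category.id_comp _, inferInstance⟩, IsPullback.id_vert L.q, ⟨x, rfl⟩⟩

/-! ## Topology -/

/-- A generic point has a neighbourhood in its closure. -/
lemma exists_irrOpen (W : Var k) (η : W.X) (hη : ∀ y, y ⤳ η → y = η) :
    ∃ O : W.X.Opens, η ∈ O ∧ ∀ y ∈ O, η ⤳ y := by
  have hC : closure ({η} : Set W.X) ∈ irreducibleComponents W.X := by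
    refine ⟨isIrreducible_singleton.closure, ?_⟩
    intro D hD hD2
    obtain ⟨ξ, hξ⟩ := QuasiSober.sober hD.closure isClosed_closure
    have h1 : ξ ⤳ η := by
      rw [specializes_iff_mem_closure, hξ.def]
      exact subset_closure (hD2 (subset_closure rfl))
    have h2 := hη ξ h1
    subst h2
    rw [hξ.def]
    exact subset_closure
  refine ⟨Scheme.irreducibleComponentOpen W.X (closure {η}), ?_, ?_⟩
  · change η ∈ (⋃₀ (irreducibleComponents W.X \ {closure {η}}))ᶜ
    rintro ⟨D, ⟨hD1, hD2⟩, hD3⟩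
    have hDc : IsClosed D := isClosed_of_mem_irreducibleComponents D hD1
    have h1 : closure ({η} : Set W.X) ≤ D :=
      closure_minimal (Set.singleton_subset_iff.mpr hD3) hDc
    exact hD2 (le_antisymm (hC.2 hD1.1 h1) h1)
  · intro y hy1
    rw [specializes_iff_mem_closure]
    by_contra hcon
    apply (show y ∉ ⋃₀ (irreducibleComponents W.X \ {closure {η}}) from hy1)
    refine ⟨irreducibleComponent y, ⟨irreducibleComponent_mem_irreducibleComponents y, ?_⟩,
      mem_irreducibleComponent⟩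
    intro h1
    apply hcon
    rw [← (show irreducibleComponent y = closure {η} from h1)]
    exact mem_irreducibleComponent

/-- Every point of the closure of the image is a specialisation of a point of the image. -/
lemma spec_closure {W X : Var k} (f : W.X ⟶ X.X) (y : X.X) (hy : y ∈ closure (Set.range f)) :
    ∃ w, f w ⤳ y := by
  have hfin : (irreducibleComponents W.X).Finite :=
    TopologicalSpace.NoetherianSpace.finite_irreducibleComponents
  have h1 : closure (Set.range f) ⊆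
      ⋃ Z ∈ irreducibleComponents W.X, closure (f '' Z) := by
    refine closure_minimal ?_ (hfin.isClosed_biUnion fun Z _ => isClosed_closure)
    rintro _ ⟨w, rfl⟩
    refine Set.mem_biUnion (irreducibleComponent_mem_irreducibleComponents w) ?_
    exact subset_closure ⟨w, mem_irreducibleComponent, rfl⟩
  obtain ⟨Z, hZ, hy'⟩ := Set.mem_iUnion₂.1 (h1 hy)
  obtain ⟨η, hη⟩ := QuasiSober.sober hZ.1 (isClosed_of_mem_irreducibleComponents Z hZ)
  refine ⟨η, ?_⟩
  rw [specializes_iff_mem_closure]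
  refine closure_minimal ?_ isClosed_closure hy'
  rintro _ ⟨z, hz, rfl⟩
  have h2 : η ⤳ z := by
    rw [specializes_iff_mem_closure, hη.def]
    exact hz
  rw [← specializes_iff_mem_closure]
  exact h2.map f.continuous

/-! ## Injectivity for surjective closed immersions -/

lemma push_inj (hT : Extra T) (i n : ℕ) {Z X : Var k} (a : ClosedIn Z X)
    (ha : ∀ x, x ∈ Set.range a.g) (m : (T i).H n Z) (hm : (T i).P n a m = 0) : m = 0 := by
  have hc : Complementary a (openVarIn X ⊥) := by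
    rw [Complementary, range_openVarIn]
    ext x
    simp only [Set.mem_compl_iff]
    exact ⟨fun _ h => h, fun _ => ha x⟩
  obtain ⟨u, hu⟩ := (hT.bd_exact i n a (openVarIn X ⊥) hc m).mp hm
  have hs := (T i).empty (n + 1) _ (isEmpty_openVar_bot X)
  rw [← hu, Subsingleton.elim u 0, map_zero]

/-! ## Properness over a product with the affine line -/

lemma proper_line {W V D₀ : Var k} (L : Line W V) (d : ClosedIn D₀ W) (e : ℕ)
    (hD : D₀.DimLE (e + 1 : ℕ)) : ∃ F : Closeds V.X, (∀ x ∈ F, V.dim x ≤ e) ∧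
      ∀ {O Y' D : Var k} (j : OpenIn O V) (L' : Line Y' O) (l : OpenIn Y' W) (o : OpenIn D D₀)
        (b : ClosedIn D Y'), (∀ x : O.X, j.g x ∉ F) → IsPullback L'.q l.g j.g L.q →
        IsPullback o.g b.g d.g l.g → IsProper (b.g ≫ L'.q) := by
  obtain ⟨H⟩ := CUB.Asm2.s_PLI k
  obtain ⟨B, -⟩ := CUB.Asm2.s_PRO.1 k H V
  obtain ⟨s, hs⟩ := exists_lineIso L B.L
  obtain ⟨P, w, h, Bd, p, q, hcomp, h4, h5, -, hBd, -⟩ :=
    exists_boundary B.s B.j B.hc (d.trans s.cl) e hD
  refine ⟨ran q, ?_, ?_⟩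
  · rintro x ⟨y, rfl⟩
    have := q.closed
    rw [dim_map q.g q.comm]
    exact hBd y
  · intro O Y' D j L' l o b hj hl ho
    let sO : OpenIn W B.U := ⟨s.e.hom, s.comm, inferInstance⟩
    refine proper_part B (d.trans s.cl) w h p q hcomp h4 h5 j ?_ L' (l.trans sO) ?_ o b ?_
    · rw [Set.disjoint_left]
      rintro _ ⟨x, rfl⟩ hx
      exact hj x hx
    · have h6 : IsPullback L.q s.e.hom (𝟙 V.X) B.L.q :=
        IsPullback.of_vert_isIso ⟨by rw [hs, Category.comp_id]⟩
      have h7 := hl.paste_vert h6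
      rw [Category.comp_id] at h7
      exact h7
    · exact ho.of_iso (Iso.refl _) (Iso.refl _) (Iso.refl _) s.e (by simp) (by simp)
        (by simp [ClosedIn.trans, VIso.cl]) (by simp [OpenIn.trans, sO])

/-! ## Vanishing of the restriction -/

/-- If the bundle is a product over the open subvariety and the support is proper over it then
the restriction of the class is zero. -/
lemma res_zero (hT : Full T) (hS : SectionZero T) (S : BunMaps T) (hG : S.Good hT)
    (i n : ℕ) {Y X C : Var k} (B : Bun Y X) (u : (T i).H n X) (c : ClosedIn C Y)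
    (b : (T (i + 1)).H (n + 2) C) (hb : (T (i + 1)).P (n + 2) c b = S.V i n B u)
    {O Y' D : Var k} (j : OpenIn O X) (L' : Line Y' O) (l : OpenIn Y' Y)
    (hl : IsPullback L'.q l.g j.g B.q) (o : OpenIn D C) (b' : ClosedIn D Y')
    (ho : IsPullback o.g b'.g c.g l.g) (hprop : IsProper (b'.g ≫ L'.q)) :
    (T i).R n j u = 0 := by
  obtain ⟨-, hbij, -, hres, -, -⟩ := hG
  let r : PrMor D O := ⟨b'.g ≫ L'.q, by
    rw [Category.assoc, L'.comm, b'.comm], hprop⟩
  obtain ⟨Z, M, R, hR⟩ := exists_linePr L' r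
  -- the section
  have hb'c := b'.closed
  have hRp := R.proper
  have hsec : IsClosedImmersion (hR.lift (𝟙 D.X) b'.g (by rw [Category.id_comp])) := by
    have h7 : IsClosedImmersion (hR.lift (𝟙 D.X) b'.g (by rw [Category.id_comp]) ≫ R.g) := by
      rw [hR.lift_snd]
      infer_instance
    exact IsClosedImmersion.of_comp _ R.g
  let s : ClosedIn D Z := ⟨hR.lift (𝟙 D.X) b'.g (by rw [Category.id_comp]), by
    rw [← R.comm, ← Category.assoc, hR.lift_snd, b'.comm], hsec⟩
  have hs1 : s.g ≫ M.q = 𝟙 D.X := hR.lift_fst _ _ _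
  have hs2 : s.g ≫ R.g = b'.g := hR.lift_snd _ _ _
  have hzero : ∀ v : (T (i + 1)).H (n + 2) D, (T (i + 1)).P (n + 2) b' v = 0 := by
    intro v
    rw [← hT.pfClosed (i + 1) (n + 2) b' (clPr b') rfl,
      ← hT.pfFunctorial (i + 1) (n + 2) (clPr s) R (clPr b') hs2,
      hT.pfClosed (i + 1) (n + 2) s (clPr s) rfl, hS (i + 1) (n + 2) M s hs1]
    exact map_zero (hT.pf (i + 1) (n + 2) R)
  have h8 := hres i n B (ofLine L') l j hl u
  rw [← hb, res_push hT (i + 1) (n + 2) c b' o l ho, hzero] at h8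
  exact (hbij i n (ofLine L')).injective (h8.symm.trans (map_zero (S.pb i n (ofLine L'))).symm)

/-! ## Small dimension -/

lemma supp_small (hT : Full T) (hS : SectionZero T) (S : BunMaps T) (hG : S.Good hT)
    (i n e : ℕ) {Y X : Var k} (B : Bun Y X) (hX : X.DimLE (e + 1 : ℕ)) (u : (T i).H n X)
    (h : Supp (T (i + 1)) (n + 2) (e + 1) Y (S.V i n B u)) : Supp (T i) n e X u := by
  obtain ⟨C, hC, b, hb⟩ := h
  -- a minimal support
  have hne : ({F : Closeds X.X | ∃ v : (T i).H n (closedVar X F),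
      (T i).P n (closedVarIn X F) v = u}).Nonempty := by
    have hc : Complementary (closedVarIn X ⊤) (openVarIn X ⊥) := by
      rw [Complementary, range_closedVarIn, range_openVarIn]
      simp
    have hs := (T i).empty n _ (isEmpty_openVar_bot X)
    obtain ⟨z, hz⟩ := ((T i).exact_X n (closedVarIn X ⊤) (openVarIn X ⊥) hc u).mp
      (Subsingleton.elim _ _)
    exact ⟨⊤, z, hz⟩
  obtain ⟨F, ⟨v, hv⟩, hmin⟩ := WellFounded.has_min (r := fun a b : Closeds X.X => a < b)
    wellFounded_lt _ hne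
  refine ⟨F, fun x hx => ?_, v, hv⟩
  by_contra hlt
  have hmax : ∀ y, y ⤳ x → y = x := by
    intro y hy
    by_contra hyx
    have h1 := (CUB.t_DST.1 k X y x hy hyx).trans_le (hX y)
    obtain ⟨m, hm⟩ := CUB.t_DST.2.1 k X x
    rw [hm] at h1 hlt
    have h2 : m < e + 1 := by exact_mod_cast h1
    exact hlt (by exact_mod_cast Nat.lt_succ_iff.mp h2)
  obtain ⟨O₁, hxO₁, hO₁⟩ := exists_irrOpen X x hmax
  obtain ⟨W, V, L, l, j, hL, ⟨x', hx'⟩⟩ := B.loc x
  have hj := j.isOpen
  obtain ⟨D₀, o₀, b₀, hD₀⟩ := exists_cart (closedVarIn Y C) l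
  obtain ⟨F₀, hF₀, hprop⟩ := proper_line L b₀ e (dimLE_open o₀ (dimLE_of_mem C hC))
  let V₁ : V.X.Opens := (j.g ⁻¹ᵁ O₁) ⊓ F₀.compl
  have hV₁ : ∀ y, y ∈ V₁ ↔ j.g y ∈ O₁ ∧ y ∉ F₀ := fun y => Iff.rfl
  have hxV : x' ∈ V₁ := by
    rw [hV₁, hx']
    refine ⟨hxO₁, fun h => hlt ?_⟩
    have h1 := hF₀ x' h
    rwa [← dim_map j.g j.comm, hx'] at h1
  obtain ⟨Y₁, L₁, l₁, hl₁⟩ := exists_lineOpen L (openVarIn V V₁)
  obtain ⟨D₁, o₁, b₁, hD₁⟩ := exists_cart b₀ l₁
  have hrV : ∀ y : (openVar V V₁).X, (openVarIn V V₁).g y ∈ V₁ := by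
    intro y
    have h1 : (openVarIn V V₁).g y ∈ Set.range (openVarIn V V₁).g := ⟨y, rfl⟩
    rw [range_openVarIn] at h1
    exact h1
  have hpr := hprop (openVarIn V V₁) L₁ l₁ o₁ b₁ (fun y => ((hV₁ _).1 (hrV y)).2) hl₁ hD₁
  have hvan : (T i).R n ((openVarIn V V₁).trans j) u = 0 :=
    res_zero hT hS S hG i n B u (closedVarIn Y C) b hb ((openVarIn V V₁).trans j) L₁
      (l₁.trans l) (hl₁.paste_vert hL) (o₁.trans o₀) b₁ (hD₁.paste_horiz hD₀) hpr
  obtain ⟨D₂, o₂, b₂, hD₂⟩ := exists_cart (closedVarIn X F) ((openVarIn V V₁).trans j)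
  have h1 : (T i).P n b₂ ((T i).R n o₂ v) = 0 := by
    rw [← res_push hT i n (closedVarIn X F) b₂ o₂ _ hD₂, hv]
    exact hvan
  have hsurj : ∀ z, z ∈ Set.range b₂.g := by
    intro z
    rw [cart_range hD₂, Set.mem_preimage, range_closedVarIn]
    have h2 : x ⤳ ((openVarIn V V₁).trans j).g z := by
      apply hO₁
      have h3 := ((hV₁ _).1 (hrV z)).1
      rwa [← Scheme.Hom.comp_apply] at h3
    exact h2.mem_closed F.2 hx
  have h2 : (T i).R n o₂ v = 0 := push_inj hT.toExtra i n b₂ hsurj _ h1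
  -- the smaller support
  have ho₂ := o₂.isOpen
  let G : Closeds (closedVar X F).X :=
    ⟨(Set.range o₂.g)ᶜ, o₂.g.isOpenEmbedding.isOpen_range.isClosed_compl⟩
  have hcG : Complementary (closedVarIn (closedVar X F) G) o₂ := by
    rw [Complementary, range_closedVarIn]
    rfl
  obtain ⟨v', hv'⟩ := ((T i).exact_X n _ o₂ hcG v).mp h2
  have hred := REDI.isReduced_closedVar (closedVar X F) G
  obtain ⟨a, ha⟩ : ∃ a : ClosedIn (closedVar (closedVar X F) G) X,
      a = (closedVarIn (closedVar X F) G).trans (closedVarIn X F) := ⟨_, rfl⟩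
  have hag : ∀ w, a.g w = (closedVarIn X F).g ((closedVarIn (closedVar X F) G).g w) := by
    intro w
    rw [ha, ← Scheme.Hom.comp_apply]
    rfl
  have hau : (T i).P n a v' = u := by
    rw [← hv, ← hv', ha]
    exact (hT.push_comp i n _ _ _ (closedVarIn (closedVar X F) G) (closedVarIn X F)
      ((closedVarIn (closedVar X F) G).trans (closedVarIn X F)) rfl v').symm
  have hP : ∃ v₂ : (T i).H n (closedVar X (ran a)), (T i).P n (closedVarIn X (ran a)) v₂ = u := by
    have hc : ∀ w, a.g w ∈ ran a := fun w => ⟨w, rfl⟩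
    refine ⟨(T i).P n (factorC a (ran a) hc) v', ?_⟩
    rw [hT.push_comp i n _ _ _ (factorC a (ran a) hc) (closedVarIn X (ran a)) a
      (factorC_comp a (ran a) hc), hau]
  refine hmin (ran a) hP (lt_of_le_of_ne ?_ ?_)
  · rintro _ ⟨w, rfl⟩
    rw [hag]
    have h3 : (closedVarIn X F).g ((closedVarIn (closedVar X F) G).g w) ∈
        Set.range (closedVarIn X F).g := ⟨_, rfl⟩
    rw [range_closedVarIn] at h3
    exact h3
  · intro heq
    have h3 : x ∈ ran a := by
      rw [heq]
      exact hx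
    obtain ⟨w, hw⟩ := h3
    rw [hag] at hw
    have h4 : (closedVarIn (closedVar X F) G).g w ∈
        Set.range (closedVarIn (closedVar X F) G).g := ⟨w, rfl⟩
    rw [hcG] at h4
    apply h4
    rw [cart_range hD₂.flip, Set.mem_preimage, hw]
    obtain ⟨z, hz⟩ : x' ∈ Set.range (openVarIn V V₁).g := by
      rw [range_openVarIn]
      exact hxV
    refine ⟨z, ?_⟩
    rw [show ((openVarIn V V₁).trans j).g = (openVarIn V V₁).g ≫ j.g from rfl,
      Scheme.Hom.comp_apply, hz, hx']

/-! ## Reduction to small dimension -/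

lemma exists_small (hT : Full T) (S : BunMaps T) (hG : S.Good hT) (i n e : ℕ) {Y X : Var k}
    (B : Bun Y X) (u : (T i).H n X)
    (h : Supp (T (i + 1)) (n + 2) (e + 1) Y (S.V i n B u)) :
    ∃ (Z Y' : Var k) (a : ClosedIn Z X) (B' : Bun Y' Z) (u' : (T i).H n Z),
      Z.DimLE (e + 1 : ℕ) ∧ (T i).P n a u' = u ∧
      Supp (T (i + 1)) (n + 2) (e + 1) Y' (S.V i n B' u') := by
  obtain ⟨-, hbij, -, hres, hpush, hbd⟩ := hG
  obtain ⟨C, hC, b, hb⟩ := h
  have hredC := REDI.isReduced_closedVar Y C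
  obtain ⟨f, hf⟩ : ∃ f : (closedVar Y C).X ⟶ X.X, f = (closedVarIn Y C).g ≫ B.q := ⟨_, rfl⟩
  have hfX : f ≫ X.f = (closedVar Y C).f := by
    rw [hf, Category.assoc, B.comm, (closedVarIn Y C).comm]
  -- the closure of the image of the support
  let K : Closeds X.X := ⟨closure (Set.range f), isClosed_closure⟩
  have hfK : ∀ w, f w ∈ K := fun w => subset_closure ⟨w, rfl⟩
  have hdimK : (closedVar X K).DimLE (e + 1 : ℕ) := by
    apply dimLE_of_mem
    intro y hy
    obtain ⟨w, hw⟩ := spec_closure f y hy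
    refine (dim_le_of_specializes X hw).trans ?_
    exact ((CUB.Asm2.s_PFC.{v}).1 k (closedVar Y C) X f hfX w).trans (dimLE_of_mem C hC w)
  let j : OpenIn (openVar X K.compl) X := openVarIn X K.compl
  have hcK : Complementary (closedVarIn X K) j := by
    rw [Complementary, range_closedVarIn, range_openVarIn]
    simp
  have haK := (closedVarIn X K).closed
  have hjo := j.isOpen
  -- the bundles over the closed and the open part
  obtain ⟨Y₁, B₁, h₁, hP₁, hY₁⟩ := exists_bunPull B (closedVarIn X K).g (closedVarIn X K).comm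
  obtain ⟨Y₂, B₂, h₂, hP₂, hY₂⟩ := exists_bunPull B j.g j.comm
  have hh₁ : IsClosedImmersion h₁ := MorphismProperty.of_isPullback hP₁ haK
  have hh₂ : IsOpenImmersion h₂ := MorphismProperty.of_isPullback hP₂ hjo
  let a' : ClosedIn Y₁ Y := ⟨h₁, hY₁, hh₁⟩
  let l : OpenIn Y₂ Y := ⟨h₂, hY₂, hh₂⟩
  have hca : Complementary a' l := by
    rw [Complementary]
    have h3 : Set.range a'.g = B.q ⁻¹' Set.range (closedVarIn X K).g := cart_range hP₁.flip.flip
    have h4 : Set.range l.g = B.q ⁻¹' Set.range j.g := cart_range hP₂.flip.flip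
    rw [h3, h4, hcK]
    rfl
  -- the restriction to the open part is zero
  obtain ⟨D', o, b', ho⟩ := exists_cart (closedVarIn Y C) l
  have hempty : IsEmpty D'.X := by
    constructor
    intro d
    have h3 : l.g (b'.g d) = (closedVarIn Y C).g (o.g d) := by
      rw [← Scheme.Hom.comp_apply, ← Scheme.Hom.comp_apply, ho.w]
    have h4 : B.q (l.g (b'.g d)) = j.g (B₂.q (b'.g d)) := by
      rw [← Scheme.Hom.comp_apply B₂.q j.g, hP₂.w, Scheme.Hom.comp_apply]
    have h5 : f (o.g d) = j.g (B₂.q (b'.g d)) := by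
      rw [← h4, h3, hf, Scheme.Hom.comp_apply]
    have h6 : j.g (B₂.q (b'.g d)) ∈ Set.range (closedVarIn X K).g := by
      rw [range_closedVarIn, ← h5]
      exact hfK _
    rw [hcK] at h6
    exact h6 ⟨_, rfl⟩
  have hsub := (T (i + 1)).empty (n + 2) D' hempty
  have hju : (T i).R n j u = 0 := by
    have h8 := hres i n B B₂ l j hP₂ u
    rw [← hb, res_push hT (i + 1) (n + 2) (closedVarIn Y C) b' o l ho,
      Subsingleton.elim ((T (i + 1)).R (n + 2) o b) 0] at h8
    refine (hbij i n B₂).injective (h8.symm.trans ?_)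
    exact (map_zero ((T (i + 1)).push (n + 2) b')).trans (map_zero (S.pb i n B₂)).symm
  obtain ⟨u₀, hu₀⟩ := ((T i).exact_X n (closedVarIn X K) j hcK u).mp hju
  -- the support in the closed part
  have hc : liftC f K hfK ≫ (closedVarIn X K).g = (closedVarIn Y C).g ≫ B.q := by
    rw [← hf]
    exact liftC_comp f K hfK
  obtain ⟨c₀, hc1, hc2⟩ : ∃ c₀ : (closedVar Y C).X ⟶ Y₁.X, c₀ ≫ B₁.q = liftC f K hfK ∧
      c₀ ≫ h₁ = (closedVarIn Y C).g := ⟨hP₁.lift _ _ hc, hP₁.lift_fst _ _ _, hP₁.lift_snd _ _ _⟩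
  have hccl : IsClosedImmersion c₀ := by
    have h3 : IsClosedImmersion (c₀ ≫ h₁) := by
      rw [hc2]
      exact (closedVarIn Y C).closed
    exact IsClosedImmersion.of_comp c₀ h₁
  let c : ClosedIn (closedVar Y C) Y₁ := ⟨c₀, by
    rw [← hY₁, ← Category.assoc, hc2, (closedVarIn Y C).comm], hccl⟩
  have hPc : (T (i + 1)).P (n + 2) a' ((T (i + 1)).P (n + 2) c b) = S.V i n B u := by
    rw [hT.push_comp (i + 1) (n + 2) _ _ _ c a' (closedVarIn Y C) hc2, hb]
  have hPV : (T (i + 1)).P (n + 2) a' (S.V i n B₁ u₀) = S.V i n B u := by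
    have h9 := hpush i n B B₁ (clPr a') (clPr (closedVarIn X K)) hP₁ u₀
    rw [hT.pfClosed i n (closedVarIn X K) (clPr (closedVarIn X K)) rfl,
      hT.pfClosed (i + 1) (n + 2) a' (clPr a') rfl] at h9
    rw [← h9]
    exact congrArg _ hu₀
  have hdiff : (T (i + 1)).push (n + 2) a'
      (S.V i n B₁ u₀ - (T (i + 1)).P (n + 2) c b) = 0 := by
    rw [map_sub, sub_eq_zero]
    exact hPV.trans hPc.symm
  obtain ⟨w', hw'⟩ := (hT.bdExact (i + 1) (n + 2) a' l hca _).mp hdiff
  obtain ⟨w, hw⟩ := (hbij i (n + 1) B₂).surjective w'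
  have hbw := hbd i n (closedVarIn X K) j hcK a' l hca B₁ B₂ B hP₁ hP₂ w
  rw [hw, hw'] at hbw
  refine ⟨closedVar X K, Y₁, closedVarIn X K, B₁,
    u₀ - hT.B i n (closedVarIn X K) j hcK w, hdimK, ?_, ?_⟩
  · have h3 : (T i).P n (closedVarIn X K) (hT.B i n (closedVarIn X K) j hcK w) = 0 :=
      (hT.bdExact i n (closedVarIn X K) j hcK _).mpr ⟨w, rfl⟩
    have h4 : (T i).push n (closedVarIn X K)
        (u₀ - hT.B i n (closedVarIn X K) j hcK w) = u := by
      rw [map_sub]
      have h5 : (T i).push n (closedVarIn X K) (hT.B i n (closedVarIn X K) j hcK w) = 0 := h3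
      rw [h5, sub_zero]
      exact hu₀
    exact h4
  · have h3 : S.V i n B₁ (u₀ - hT.B i n (closedVarIn X K) j hcK w) =
        (T (i + 1)).P (n + 2) c b := by
      have h4 : S.V i n B₁ (u₀ - hT.B i n (closedVarIn X K) j hcK w) =
          S.V i n B₁ u₀ - S.V i n B₁ (hT.B i n (closedVarIn X K) j hcK w) :=
        map_sub (S.pb i n B₁) _ _
      rw [h4, hbw, sub_sub_cancel]
    rw [h3]
    exact supp_mk hT.toExtra (i + 1) (n + 2) (e + 1) c (dimLE_of_mem C hC) b

/-- The statement without hypotheses. -/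
theorem main : S_BSU.{v} := by
  intro k E _ _ T hT hP hS S hG i n e Y X B u h
  obtain ⟨Z, Y', a, B', u', hZ, hu, hs⟩ := exists_small hT S hG i n e B u h
  rw [← hu]
  exact supp_push hT.toExtra i n e a u' (supp_small hT hS S hG i n e B' hZ u' hs)

end BSU

theorem t_BSU : M_BSU.{v} := fun _ _ => BSU.main

end QCV


end

section

/-!
# QCV, block B: the injectivity of the cycle class map descends from a line bundle to the base
-/

set_option autoImplicit false

open CategoryTheory AlgebraicGeometry Limits Polynomial TopologicalSpace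

namespace QCV

open Pool.Agent.Lib_helper55.Beil Pool.Agent.Lib_helper66.OneP CUB

universe v

namespace BIN

variable {k : Type} [Field k]

/-- The base change of a morphism of varieties. -/
lemma exists_base {Y X X' : Var k} (q : Y.X ⟶ X.X) (hq : q ≫ X.f = Y.f) (g : X'.X ⟶ X.X)
    (hg : g ≫ X.f = X'.f) :
    ∃ (Y' : Var k) (q' : Y'.X ⟶ X'.X) (h : Y'.X ⟶ Y.X), q' ≫ X'.f = Y'.f ∧ h ≫ Y.f = Y'.f ∧
      IsPullback q' h g q := by
  have e1 : LocallyOfFiniteType (q ≫ X.f) := by
    rw [hq]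
    infer_instance
  have e2 : QuasiCompact (q ≫ X.f) := by
    rw [hq]
    infer_instance
  have e3 : IsSeparated (q ≫ X.f) := by
    rw [hq]
    infer_instance
  have h1 : LocallyOfFiniteType q := locallyOfFiniteType_of_comp q X.f
  have h2 : QuasiCompact q := QuasiCompact.of_comp q X.f
  have h3 : IsSeparated q := IsSeparated.of_comp q X.f
  have hP : IsPullback (pullback.fst q g) (pullback.snd q g) q g :=
    IsPullback.of_hasPullback q g
  let Y' : Var k :=
    { X := pullback q g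
      f := pullback.snd q g ≫ X'.f
      sep := inferInstance
      lft := inferInstance
      qc := inferInstance }
  have hc : pullback.fst q g ≫ Y.f = pullback.snd q g ≫ X'.f := by
    rw [← hq, ← Category.assoc, hP.w, Category.assoc, hg]
  exact ⟨Y', pullback.snd q g, pullback.fst q g, rfl, hc, hP.flip⟩

/-- The base change of a product with the affine line. -/
lemma exists_lineBase {Y X X' : Var k} (L : Line Y X) (g : X'.X ⟶ X.X) (hg : g ≫ X.f = X'.f) :
    ∃ (Y' : Var k) (L' : Line Y' X') (h : Y'.X ⟶ Y.X), h ≫ Y.f = Y'.f ∧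
      IsPullback L'.q h g L.q := by
  obtain ⟨Y', q', h, h1, h2, h3⟩ := exists_base L.q L.comm g hg
  have h4 := (h3.flip.paste_horiz L.prod.flip).flip
  rw [hg] at h4
  exact ⟨Y', ⟨q', h ≫ L.t, h1, h4⟩, h, h2, h3⟩

/-- The base change of a line bundle. -/
lemma exists_bun {Y X X' : Var k} (B : Bun Y X) (g : X'.X ⟶ X.X) (hg : g ≫ X.f = X'.f) :
    ∃ (Y' : Var k) (B' : Bun Y' X') (h : Y'.X ⟶ Y.X), h ≫ Y.f = Y'.f ∧
      IsPullback B'.q h g B.q := by
  obtain ⟨Y', q', h, h1, h2, h3⟩ := exists_base B.q B.comm g hg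
  refine ⟨Y', ⟨q', h1, ?_⟩, h, h2, h3⟩
  intro x
  obtain ⟨W, V, L, l, j, hL, v, hv⟩ := B.loc (g x)
  obtain ⟨V', j', gV, e1, e2, hV⟩ := exists_base j.g j.comm g hg
  have hj' : IsOpenImmersion j' := MorphismProperty.of_isPullback hV.flip j.isOpen
  obtain ⟨W', L', m, f1, hm⟩ := exists_lineBase L gV e2
  have ho : IsPullback L'.q (m ≫ l.g) (gV ≫ j.g) B.q := hm.paste_vert hL
  have hw : (L'.q ≫ j') ≫ g = (m ≫ l.g) ≫ B.q := by
    rw [Category.assoc, hV.w, ho.w]
  let l' : W'.X ⟶ Y'.X := h3.lift (L'.q ≫ j') (m ≫ l.g) hw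
  have hl1 : l' ≫ q' = L'.q ≫ j' := h3.lift_fst _ _ _
  have hl2 : l' ≫ h = m ≫ l.g := h3.lift_snd _ _ _
  have hp : IsPullback L'.q l' j' q' := by
    refine IsPullback.of_bot ?_ hl1.symm h3
    rw [hl2, hV.w]
    exact ho
  have hl' : IsOpenImmersion l' := MorphismProperty.of_isPullback hp hj'
  have hc : l' ≫ Y'.f = W'.f := by
    rw [← h1, ← Category.assoc, hl1, Category.assoc, e1, L'.comm]
  obtain ⟨z, hz, -⟩ := Scheme.exists_preimage_of_isPullback hV x v hv.symm
  exact ⟨W', V', L', ⟨l', hc, hl'⟩, ⟨j', e1, hj'⟩, hp, z, hz⟩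

/-- The restriction of a line bundle to a closed subvariety. -/
lemma exists_bunClosed {Y X Z : Var k} (B : Bun Y X) (a : ClosedIn Z X) :
    ∃ (Y' : Var k) (B' : Bun Y' Z) (b : ClosedIn Y' Y), IsPullback B'.q b.g a.g B.q := by
  obtain ⟨Y', B', h, h1, h2⟩ := exists_bun B a.g a.comm
  have h3 : IsClosedImmersion h := MorphismProperty.of_isPullback h2 a.closed
  exact ⟨Y', B', ⟨h, h1, h3⟩, h2⟩

/-- The restriction of a line bundle to an open subvariety. -/
lemma exists_bunOpen {Y X U : Var k} (B : Bun Y X) (j : OpenIn U X) :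
    ∃ (Y' : Var k) (B' : Bun Y' U) (l : OpenIn Y' Y), IsPullback B'.q l.g j.g B.q := by
  obtain ⟨Y', B', h, h1, h2⟩ := exists_bun B j.g j.comm
  have h3 : IsOpenImmersion h := MorphismProperty.of_isPullback h2 j.isOpen
  exact ⟨Y', B', ⟨h, h1, h3⟩, h2⟩

/-- The parts of a line bundle over the two parts of the base are complementary. -/
lemma bun_compl {Y X Z U Y₁ Y₂ : Var k} (B : Bun Y X) (B₁ : Bun Y₁ Z) (B₂ : Bun Y₂ U)
    (a : ClosedIn Z X) (j : OpenIn U X) (h : Complementary a j) (b : ClosedIn Y₁ Y)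
    (l : OpenIn Y₂ Y) (hb : IsPullback B₁.q b.g a.g B.q) (hl : IsPullback B₂.q l.g j.g B.q) :
    Complementary b l := by
  have h1 := cart_range hb
  have h2 := cart_range hl
  rw [Complementary, h1, h2, show Set.range a.g = (Set.range j.g)ᶜ from h]
  rfl

/-- The dimension of the points of a line bundle. -/
lemma bun_dim {Y X : Var k} (B : Bun Y X) (y : Y.X) : Y.dim y ≤ X.dim (B.q y) + 1 := by
  obtain ⟨W, V, L, l, j, hL, v, hv⟩ := B.loc (B.q y)
  obtain ⟨z, hz1, hz2⟩ := Scheme.exists_preimage_of_isPullback hL v y hv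
  have h1 := (LPT.line_le L z).2
  rw [hz1] at h1
  have hj := j.isOpen
  have hl := l.isOpen
  rw [← hv, ← hz2, dim_map l.g l.comm, dim_map j.g j.comm]
  exact h1

lemma bun_dimLE {Y X : Var k} (B : Bun Y X) {e : ℕ} (h : X.DimLE e) :
    Y.DimLE (e + 1 : ℕ) := by
  intro y
  calc Y.dim y ≤ X.dim (B.q y) + 1 := bun_dim B y
    _ ≤ (e : Cardinal) + 1 := by
      gcongr
      exact h _
    _ = ((e + 1 : ℕ) : Cardinal) := by push_cast; rfl

end BIN

open _root_.QCV.BIN in
/-- The injectivity of the cycle class map descends, from the descent of supports. -/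
theorem t_BINu : S_BSU.{v} → S_BIN.{v} := by
  intro hBSU k E _ _ _ _ T hT hP hS S hG i Y X B hY
  rw [injC_iff]
  intro c hc
  obtain ⟨hFr, hBij, -, hRes, hPush, hBdy⟩ := id hG
  obtain ⟨C₀, hC₀, c', rfl⟩ := exists_supp_cyc X c
  let W : Var k := closedVar X C₀
  let a : ClosedIn W X := closedVarIn X C₀
  let j : OpenIn (openVar X C₀.compl) X := openVarIn X C₀.compl
  have hc1 : Complementary a j := by
    rw [Complementary, range_closedVarIn, range_openVarIn]
    simp
  have hWd : W.DimLE i := dimLE_of_mem C₀ hC₀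
  let w : (T i).H (2 * i) W := clz (T i) W c'
  have hw : (T i).P (2 * i) a w = 0 := by
    change (T i).P (2 * i) a (clz (T i) W c') = 0
    rw [clz_push]
    exact hc
  obtain ⟨u₁, hu₁⟩ := (hT.bdExact i (2 * i) a j hc1 w).mp hw
  have hu₁' : bdl hT i (2 * i) a j hc1 u₁ = w := hu₁
  -- the parts of the line bundle
  obtain ⟨YW, BW, b, hbP⟩ := exists_bunClosed B a
  obtain ⟨YO, BO, l, hlP⟩ := exists_bunOpen B j
  have hcb : Complementary b l := bun_compl B BW BO a j hc1 b l hbP hlP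
  have hVw : S.V i (2 * i) BW w ∈ (T (i + 1)).gen YW :=
    maxGen_map ((T i).frob (2 * i) W) ((T (i + 1)).frob (2 * (i + 1)) YW) (S.pb i (2 * i) BW)
      (hFr i (2 * i) BW) (cls_mem_gen (T i) W c')
  obtain ⟨d, hd⟩ := exists_cls (T (i + 1)) YW _
    (good_of_dimLE (T (i + 1)) YW (bun_dimLE BW hWd) hVw)
  have h1 : (T (i + 1)).P (2 * i + 2) b (S.V i (2 * i) BW w) = 0 := by
    rw [← hT.pfClosed (i + 1) (2 * i + 2) b (clPr b) rfl,
      ← hPush i (2 * i) B BW (clPr b) (clPr a) hbP, hT.pfClosed i (2 * i) a (clPr a) rfl, hw]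
    exact map_zero (S.pb i (2 * i) B)
  have h2 : clz (T (i + 1)) Y (pushCyc b d) = 0 := by
    rw [← clz_push]
    have h3 : clz (T (i + 1)) YW d = S.V i (2 * i) BW w := hd
    rw [h3]
    exact h1
  obtain ⟨C, hC, e, he, hed⟩ := ratZero_supp Y _ ((injC_iff (T (i + 1)) Y).1 hY.2.1 _ h2)
  obtain ⟨D, Bd, o, bD, p, q, hD, hBd, hcomp⟩ := exists_parts b l hcb (closedVarIn Y C)
  obtain ⟨z, hz1, hz2⟩ := exists_common b l hcb (closedVarIn Y C) o bD p q hD.w hBd.w hcomp e d hed
  have h3 : (T (i + 1)).P (2 * (i + 1)) p (clz (T (i + 1)) Bd z) = 0 := by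
    rw [clz_push, hz1]
    exact (T (i + 1)).cl_rat _ _ he
  obtain ⟨u₂, hu₂⟩ := (hT.bdExact (i + 1) (2 * (i + 1)) p o hcomp _).mp h3
  have hu₂' : bdl hT (i + 1) (2 * (i + 1)) p o hcomp u₂ = clz (T (i + 1)) Bd z := hu₂
  have h4 := bdl_push hT (i + 1) (2 * (i + 1)) p o hcomp b l hcb q bD (closedVarIn Y C) hBd.w
    hD.w u₂
  rw [hu₂', clz_push, hz2] at h4
  have h5 : bdl hT (i + 1) (2 * (i + 1)) b l hcb ((T (i + 1)).P (2 * (i + 1) + 1) bD u₂) =
      S.V i (2 * i) BW w := by
    rw [← h4]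
    exact hd
  have h6 : bdl hT (i + 1) (2 * (i + 1)) b l hcb (S.V i (2 * i + 1) BO u₁) =
      S.V i (2 * i) BW w := by
    have h := hBdy i (2 * i) a j hc1 b l hcb BW BO B hbP hlP u₁
    have h' : S.V i (2 * i) BW (bdl hT i (2 * i) a j hc1 u₁) =
      bdl hT (i + 1) (2 * (i + 1)) b l hcb (S.V i (2 * i + 1) BO u₁) := h
    rw [← h', hu₁']
  have h7 : bdl hT (i + 1) (2 * (i + 1)) b l hcb ((T (i + 1)).P (2 * (i + 1) + 1) bD u₂ -
      S.V i (2 * i + 1) BO u₁) = 0 := by
    rw [map_sub, h5]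
    exact sub_eq_zero.mpr h6.symm
  obtain ⟨y, hy⟩ := (hP.resExact (i + 1) (2 * (i + 1)) b l hcb _).mp h7
  obtain ⟨x, hx⟩ := (hBij i (2 * i + 1) B).surjective y
  let u : (T i).H (2 * i + 1) (openVar X C₀.compl) := u₁ + (T i).R (2 * i + 1) j x
  have h8 : S.V i (2 * i + 1) BO u = (T (i + 1)).P (2 * (i + 1) + 1) bD u₂ := by
    have h9 := hRes i (2 * i + 1) B BO l j hlP x
    have h10 : S.V i (2 * i + 1) BO u = S.V i (2 * i + 1) BO u₁ +
      S.V i (2 * i + 1) BO ((T i).R (2 * i + 1) j x) := map_add (S.pb i (2 * i + 1) BO) _ _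
    rw [h10, ← h9, hx]
    have h11 : (T (i + 1)).R (2 * i + 1 + 2) l y = (T (i + 1)).P (2 * (i + 1) + 1) bD u₂ -
      S.V i (2 * i + 1) BO u₁ := hy
    rw [h11]
    exact add_sub_cancel _ _
  have h11 : bdl hT i (2 * i) a j hc1 u = w := by
    have h12 : bdl hT i (2 * i) a j hc1 ((T i).R (2 * i + 1) j x) = 0 :=
      (hP.resExact i (2 * i) a j hc1 _).mpr ⟨x, rfl⟩
    have h13 : bdl hT i (2 * i) a j hc1 u = bdl hT i (2 * i) a j hc1 u₁ +
      bdl hT i (2 * i) a j hc1 ((T i).R (2 * i + 1) j x) := map_add _ _ _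
    rw [h13, h12, hu₁', add_zero]
  have h12 : Supp (T i) (2 * i + 1) (i + 1) _ u := by
    refine hBSU k E T hT hP hS S hG i (2 * i + 1) (i + 1) BO u ?_
    rw [h8]
    exact supp_mk hT.toExtra (i + 1) (2 * (i + 1) + 1) (i + 1 + 1) bD
      (dimLE_open o (dimLE_of_mem C hC)) u₂
  obtain ⟨G, hGd, g, hg⟩ := h12
  obtain ⟨W', w', h', B', p', q', hcomp', e1, e2, hW', -, hred⟩ := exists_boundary a j hc1
    (closedVarIn _ G) i (dimLE_of_mem G hGd)
  have h13 := bdl_push hT i (2 * i) p' h' hcomp' a j hc1 q' (closedVarIn _ G) w' e1 e2 g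
  rw [hg, h11] at h13
  have h14 : (T i).P (2 * i) p' (bdl hT i (2 * i) p' h' hcomp' g) = 0 :=
    (hT.bdExact i (2 * i) p' h' hcomp' _).mpr ⟨g, rfl⟩
  have hredD := REDI.isReduced_closedVar (openVar X C₀.compl) G
  have hW'r := hred hredD
  let K : Closeds X.X := C₀ ⊔ ran w'
  let f₁ : ClosedIn W (closedVar X K) := closedVarMap X (le_sup_left : C₀ ≤ C₀ ⊔ ran w')
  let f₂ : ClosedIn W' (closedVar X K) := factorC w' K fun x => Or.inr ⟨x, rfl⟩
  have hf₁ : f₁.g ≫ (closedVarIn X K).g = a.g := closedVarMap_comp X le_sup_left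
  have hf₂ : f₂.g ≫ (closedVarIn X K).g = w'.g := factorC_comp _ _ _
  have hKd : ∀ x ∈ K, X.dim x ≤ (i + 1 : ℕ) := by
    rintro x (hx | ⟨x', rfl⟩)
    · exact (hC₀ x hx).trans (by exact_mod_cast Nat.le_succ i)
    · have := w'.closed
      rw [dim_map w'.g w'.comm]
      exact hW' x'
  have hK := (closedVarIn X K).closed
  have hcm : p'.g ≫ f₂.g = (q'.trans f₁).g := by
    apply (cancel_mono (closedVarIn X K).g).mp
    change (p'.g ≫ f₂.g) ≫ (closedVarIn X K).g = (q'.g ≫ f₁.g) ≫ (closedVarIn X K).g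
    rw [Category.assoc, Category.assoc, hf₁, hf₂, e1]
  have h15 : (T i).P (2 * i) f₁ w = 0 := by
    rw [← h13, hT.push_comp i (2 * i) _ _ _ q' f₁ (q'.trans f₁) rfl,
      ← hT.push_comp i (2 * i) _ _ _ p' f₂ (q'.trans f₁) hcm, h14]
    exact map_zero ((T i).push (2 * i) f₂)
  have h16 : clz (T i) (closedVar X K) (pushCyc f₁ c') = 0 := by
    rw [← clz_push]
    exact h15
  have h17 := (injC_iff (T i) _).mp (((T i).inj_iff _).mp
    (hP.divisors i (closedVar X K) (dimLE_of_mem K hKd))) _ h16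
  have h18 := pushCyc_ratZero (closedVarIn X K) _ h17
  rwa [pushCyc_comp f₁ (closedVarIn X K) a hf₁] at h18

theorem t_BIN : M_BIN.{v} := fun h1 h2 => t_BINu (t_BSU h1 h2)

end QCV


end

section

/-!
# QCV, module BCT: from the complement of a section of a line bundle to the base
-/

set_option autoImplicit false

open CategoryTheory AlgebraicGeometry Limits Polynomial TopologicalSpace

namespace QCV

open Pool.Agent.Lib_helper55.Beil Pool.Agent.Lib_helper66.OneP CUB

universe v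

/-- BCT. -/
theorem t_BCT : M_BCT.{v} := by
  intro hB k E _ _ _ _ T hT hP hS S hG Y X U B s j hs hc hU
  obtain ⟨D, hD⟩ := CUB.t_FDM k X
  have key : ∀ m i : ℕ, D ≤ i + m → PF (T i) X := by
    intro m
    induction m with
    | zero =>
      intro i hi
      exact pf_of_dimLE hT hP i X fun x => (hD x).trans (by exact_mod_cast hi)
    | succ m ih =>
      intro i hi
      exact hB k E T hT hP hS S hG i B
        (pf_glue hT hP (i + 1) s j hc (ih (i + 1) (by omega)) (hU (i + 1)))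
  intro i
  exact key D i (by omega)

end QCV


end

section

/-!
# QCV, block B: assembly
-/

set_option autoImplicit false

namespace QCV

universe v

namespace Asm

theorem s_BIN : S_BIN.{v} := t_BINu BSU.main

theorem s_BDS : S_BDS.{v} := t_BDS BSU.main s_BIN

theorem s_BCT : S_BCT.{v} := t_BCT s_BDS

end Asm

end QCV


end
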