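import Mathlib
import Pool.Agent.QVM.C30
import Pool.Agent.QVM.C45

/-! Parts: QCV.C_HCH, QCV.C_HDE, QCV.C_CUB, QCV.D_DRK -/

section

/-!
# QCV, module HCH: the strata `x_0 = 0` and `x_0 ≠ 0` of an affine cone
-/

set_option autoImplicit false

open Polynomial

namespace QCV

open CUB VRQ

namespace HCH

section Gen

variable {k R K ι : Type} [Field k] [CommRing R] [Algebra k R] [CommRing K] [Algebra k K] {n : ℕ}
  (f : ι → MvPolynomial (Fin n) R)

variable (k) in
/-- The quotient map. -/
noncomputable def mkf : MvPolynomial (Fin n) R →ₐ[k] ER f := Ideal.Quotient.mkₐ k _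

lemma mkf_surjective : Function.Surjective (mkf k f) := Ideal.Quotient.mk_surjective

variable (k) in
lemma mkf_rel (j : ι) : mkf k f (f j) = 0 :=
  Ideal.Quotient.eq_zero_iff_mem.mpr (Ideal.subset_span ⟨j, rfl⟩)

/-- A homomorphism on the quotient. -/
noncomputable def ql (g : MvPolynomial (Fin n) R →ₐ[k] K) (h : ∀ j, g (f j) = 0) : ER f →ₐ[k] K :=
  Ideal.Quotient.liftₐ _ g fun a ha => by
    have h1 : Ideal.span (Set.range f) ≤ RingHom.ker g.toRingHom := by
      rw [Ideal.span_le]
      rintro _ ⟨j, rfl⟩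
      exact h j
    exact h1 ha

lemma ql_mk (g : MvPolynomial (Fin n) R →ₐ[k] K) (h : ∀ j, g (f j) = 0)
    (x : MvPolynomial (Fin n) R) : ql f g h (mkf k f x) = g x := rfl

variable {f}

lemma er_ext {α β : ER f →ₐ[k] K}
    (h1 : ∀ r, α (mkf k f (MvPolynomial.C r)) = β (mkf k f (MvPolynomial.C r)))
    (h2 : ∀ j, α (mkf k f (MvPolynomial.X j)) = β (mkf k f (MvPolynomial.X j))) : α = β := by
  have h : α.comp (mkf k f) = β.comp (mkf k f) := mv_ext h1 h2
  refine AlgHom.ext fun y => ?_
  obtain ⟨x, rfl⟩ := mkf_surjective (k := k) f y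
  exact AlgHom.congr_fun h x

/-- Homogeneity. -/
lemma mvs_homog {p : MvPolynomial (Fin n) R} {m : ℕ} (hp : p.IsHomogeneous m) (θ : R →ₐ[k] K)
    (t : K) (s : Fin n → K) : mvs θ (fun i => t * s i) p = t ^ m * mvs θ s p := by
  change MvPolynomial.eval₂ θ.toRingHom _ p = t ^ m * MvPolynomial.eval₂ θ.toRingHom s p
  rw [MvPolynomial.eval₂_eq', MvPolynomial.eval₂_eq', Finset.mul_sum]
  refine Finset.sum_congr rfl fun d hd => ?_
  have h1 : ∑ i, d i = m := by
    have h2 : d.degree = m := by
      rw [Finsupp.degree_eq_weight_one]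
      exact hp (MvPolynomial.mem_support_iff.1 hd)
    rw [← h2, Finsupp.degree_eq_sum]
  have h3 : ∏ i, (t * s i) ^ d i = t ^ m * ∏ i, s i ^ d i := by
    rw [← h1, ← Finset.prod_pow_eq_pow_sum, ← Finset.prod_mul_distrib]
    exact Finset.prod_congr rfl fun i _ => mul_pow _ _ _
  rw [h3]
  ring

end Gen

section Cone

variable {k R ι : Type} [Field k] [CommRing R] [Algebra k R] {n : ℕ}

variable (k) in
/-- The homomorphism `sp c` over `k`. -/
noncomputable def spk (c : R) : MvPolynomial (Fin (n + 1)) R →ₐ[k] MvPolynomial (Fin n) R :=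
  (sp c).restrictScalars k

lemma spk_apply (c : R) (x : MvPolynomial (Fin (n + 1)) R) : spk k c x = sp c x := rfl

lemma spk_C (c r : R) : spk k (n := n) c (MvPolynomial.C r) = MvPolynomial.C r :=
  MvPolynomial.aeval_C _ _

lemma spk_X0 (c : R) : spk k (n := n) c (MvPolynomial.X 0) = MvPolynomial.C c := by
  rw [spk_apply, sp, MvPolynomial.aeval_X, Fin.cons_zero]

lemma spk_Xs (c : R) (j : Fin n) : spk k c (MvPolynomial.X j.succ) = MvPolynomial.X j := by
  rw [spk_apply, sp, MvPolynomial.aeval_X, Fin.cons_succ]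

lemma spk_i0 (c : R) (x : MvPolynomial (Fin n) R) : spk k c (i0 (k := k) x) = x := by
  have h : (spk k c).comp (i0 (k := k)) = AlgHom.id k (MvPolynomial (Fin n) R) := by
    apply mv_ext
    · intro r
      rw [AlgHom.comp_apply, i0, mvs_C, mC_apply, spk_C]
      rfl
    · intro j
      rw [AlgHom.comp_apply, i0, mvs_X, spk_Xs]
      rfl
  exact AlgHom.congr_fun h x

variable (f : ι → MvPolynomial (Fin (n + 1)) R)

/-- The equations of the hyperplane section. -/
noncomputable abbrev F0 : ι → MvPolynomial (Fin n) R := fun j => sp 0 (f j)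

/-- The equations of the chart. -/
noncomputable abbrev F1 : ι → MvPolynomial (Fin n) R := fun j => sp 1 (f j)

variable (k) in
/-- The closed stratum. -/
noncomputable def zC : ER f →ₐ[k] ER (F0 f) :=
  ql f ((mkf k (F0 f)).comp (spk k 0)) fun j => mkf_rel k (F0 f) j

lemma zC_mk (x : MvPolynomial (Fin (n + 1)) R) :
    zC k f (mkf k f x) = mkf k (F0 f) (spk k 0 x) := rfl

lemma zC_surjective : Function.Surjective (zC k f) := by
  intro y
  obtain ⟨x, rfl⟩ := mkf_surjective (k := k) (F0 f) y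
  exact ⟨mkf k f (i0 (k := k) x), by rw [zC_mk, spk_i0]⟩

lemma zC_eq_zero {K : Type} [CommRing K] [Algebra k K] (g : ER f →ₐ[k] K)
    (hg : g (mkf k f (MvPolynomial.X 0)) = 0) (x : ER f) (hx : zC k f x = 0) : g x = 0 := by
  have hE : g.comp (mkf k f) = ((g.comp (mkf k f)).comp (i0 (k := k))).comp (spk k 0) := by
    apply mv_ext
    · intro r
      simp only [AlgHom.comp_apply]
      rw [spk_C, i0, mvs_C, mC_apply]
    · intro j
      simp only [AlgHom.comp_apply]
      refine Fin.cases ?_ (fun j => ?_) j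
      · rw [spk_X0, map_zero, map_zero, map_zero, map_zero, hg]
      · rw [spk_Xs, i0, mvs_X]
  have h0 : ∀ j, ((g.comp (mkf k f)).comp (i0 (k := k))) (F0 f j) = 0 := fun j => by
    have h := AlgHom.congr_fun hE (f j)
    rw [AlgHom.comp_apply, AlgHom.comp_apply, mkf_rel, map_zero] at h
    exact h.symm
  have h1 : g = (ql (F0 f) ((g.comp (mkf k f)).comp (i0 (k := k))) h0).comp (zC k f) :=
    er_ext (fun r => AlgHom.congr_fun hE (MvPolynomial.C r))
      (fun j => AlgHom.congr_fun hE (MvPolynomial.X j))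
  rw [h1, AlgHom.comp_apply, hx, map_zero]

lemma zC_ker : RingHom.ker (zC k f).toRingHom =
    Ideal.span {mkf k f (MvPolynomial.X 0)} := by
  apply le_antisymm
  · intro x hx
    let I : Ideal (ER f) := Ideal.span {mkf k f (MvPolynomial.X 0)}
    have h1 : Ideal.Quotient.mkₐ k I (mkf k f (MvPolynomial.X 0)) = 0 :=
      Ideal.Quotient.eq_zero_iff_mem.mpr (Ideal.subset_span rfl)
    have h2 := zC_eq_zero (K := ER f ⧸ I) f (Ideal.Quotient.mkₐ k I) h1 x hx
    exact Ideal.Quotient.eq_zero_iff_mem.mp h2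
  · rw [Ideal.span_singleton_le_iff_mem]
    change zC k f (mkf k f (MvPolynomial.X 0)) = 0
    rw [zC_mk, spk_X0, map_zero, map_zero]

/-- The homomorphism `x_0 ↦ t`, `x_(j+1) ↦ t x_j`. -/
lemma exists_u {L : Type} [CommRing L] [Algebra k L] {m : ι → ℕ}
    (hf : ∀ j, (f j).IsHomogeneous (m j)) (g : ER (F1 f) →ₐ[k] L) (t : L) :
    ∃ u : ER f →ₐ[k] L, (∀ r, u (mkf k f (MvPolynomial.C r)) = g (mkf k (F1 f) (MvPolynomial.C r))) ∧
      u (mkf k f (MvPolynomial.X 0)) = t ∧
      ∀ j : Fin n, u (mkf k f (MvPolynomial.X j.succ)) =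
        t * g (mkf k (F1 f) (MvPolynomial.X j)) := by
  let θ : R →ₐ[k] L := (g.comp (mkf k (F1 f))).comp (mC k (Fin n) R)
  let s : Fin (n + 1) → L := Fin.cons 1 fun j => g (mkf k (F1 f) (MvPolynomial.X j))
  have h1 : mvs θ s = (g.comp (mkf k (F1 f))).comp (spk k 1) := by
    apply mv_ext
    · intro r
      simp only [AlgHom.comp_apply]
      rw [mvs_C, spk_C]
      rfl
    · intro j
      simp only [AlgHom.comp_apply]
      refine Fin.cases ?_ (fun j => ?_) j
      · rw [mvs_X, spk_X0, map_one, map_one, map_one]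
        rfl
      · rw [mvs_X, spk_Xs]
        rfl
  have h0 : ∀ j, mvs θ (fun i => t * s i) (f j) = 0 := by
    intro j
    have h3 : mkf k (F1 f) (spk k 1 (f j)) = 0 := mkf_rel k (F1 f) j
    rw [mvs_homog (hf j), h1, AlgHom.comp_apply, AlgHom.comp_apply, h3, map_zero, mul_zero]
  refine ⟨ql f (mvs θ fun i => t * s i) h0, fun r => ?_, ?_, fun j => ?_⟩
  · rw [ql_mk, mvs_C]
    rfl
  · rw [ql_mk, mvs_X]
    exact mul_one t
  · rw [ql_mk, mvs_X]
    rfl

/-- The homomorphism `x_j ↦ x_(j+1) / x_0`. -/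
lemma exists_b {K : Type} [CommRing K] [Algebra k K] {m : ι → ℕ}
    (hf : ∀ j, (f j).IsHomogeneous (m j)) (w : ER f →ₐ[k] K) (iv : K)
    (hiv : w (mkf k f (MvPolynomial.X 0)) * iv = 1) :
    ∃ b : ER (F1 f) →ₐ[k] K,
      (∀ r, b (mkf k (F1 f) (MvPolynomial.C r)) = w (mkf k f (MvPolynomial.C r))) ∧
      ∀ j : Fin n, b (mkf k (F1 f) (MvPolynomial.X j)) =
        w (mkf k f (MvPolynomial.X j.succ)) * iv := by
  let θ : R →ₐ[k] K := (w.comp (mkf k f)).comp (mC k (Fin (n + 1)) R)
  let t : K := w (mkf k f (MvPolynomial.X 0))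
  have ht : IsUnit t := IsUnit.of_mul_eq_one iv hiv
  let s : Fin (n + 1) → K := Fin.cons 1 fun j => w (mkf k f (MvPolynomial.X j.succ)) * iv
  let β : MvPolynomial (Fin n) R →ₐ[k] K :=
    mvs θ fun j => w (mkf k f (MvPolynomial.X j.succ)) * iv
  have hβC : ∀ r : R, β (MvPolynomial.C r) = w (mkf k f (MvPolynomial.C r)) :=
    fun r => mvs_C _ _ _
  have hβX : ∀ j : Fin n, β (MvPolynomial.X j) = w (mkf k f (MvPolynomial.X j.succ)) * iv :=
    fun j => mvs_X _ _ _
  have e1 : w.comp (mkf k f) = mvs θ fun i => t * s i := by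
    apply mv_ext
    · intro r
      rw [mvs_C]
      rfl
    · intro j
      rw [mvs_X]
      refine Fin.cases ?_ (fun j => ?_) j
      · change t = t * 1
        rw [mul_one]
      · change w (mkf k f (MvPolynomial.X j.succ)) =
          t * (w (mkf k f (MvPolynomial.X j.succ)) * iv)
        linear_combination (- w (mkf k f (MvPolynomial.X j.succ))) * hiv
  have e2 : mvs θ s = β.comp (spk k 1) := by
    apply mv_ext
    · intro r
      rw [mvs_C]
      change θ r = β (spk k 1 (MvPolynomial.C r))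
      rw [spk_C, hβC]
      rfl
    · intro j
      rw [mvs_X]
      change s j = β (spk k 1 (MvPolynomial.X j))
      refine Fin.cases ?_ (fun j => ?_) j
      · rw [spk_X0, map_one, map_one]
        rfl
      · rw [spk_Xs, hβX]
        rfl
  have hβ : ∀ j, β (F1 f j) = 0 := by
    intro j
    have h1 := AlgHom.congr_fun e1 (f j)
    rw [AlgHom.comp_apply, mkf_rel, map_zero, mvs_homog (hf j)] at h1
    have h2 : mvs θ s (f j) = 0 := (ht.pow (m j)).mul_right_eq_zero.1 h1.symm
    rw [AlgHom.congr_fun e2 (f j)] at h2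
    exact h2
  exact ⟨ql (F1 f) β hβ, hβC, hβX⟩

/-- The localisation, abstractly. -/
lemma away_gen {V L A : Type} [CommRing V] [Algebra k V] [CommRing L] [Algebra k L]
    [CommRing A] [Algebra k A] [Algebra (ER f) V]
    [IsLocalization.Away (mkf k f (MvPolynomial.X 0)) V] [Algebra A[X] L]
    [IsLocalization.Away (X : A[X]) L] (q : MvPolynomial (Fin n) R →ₐ[k] A)
    (hq : Function.Surjective q)
    (w : ER f →ₐ[k] V) (hw : ∀ x, w x = algebraMap (ER f) V x)
    (l : A[X] →ₐ[k] L) (hl : ∀ x, l x = algebraMap A[X] L x)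
    (u : ER f →ₐ[k] L)
    (hu1 : ∀ r, u (mkf k f (MvPolynomial.C r)) = l (C (q (MvPolynomial.C r))))
    (hu2 : u (mkf k f (MvPolynomial.X 0)) = l X)
    (hu3 : ∀ j : Fin n, u (mkf k f (MvPolynomial.X j.succ)) =
      l X * l (C (q (MvPolynomial.X j)))) (iv : V)
    (hiv : w (mkf k f (MvPolynomial.X 0)) * iv = 1) (b : A →ₐ[k] V)
    (hb1 : ∀ r, b (q (MvPolynomial.C r)) = w (mkf k f (MvPolynomial.C r)))
    (hb2 : ∀ j : Fin n, b (q (MvPolynomial.X j)) =
        w (mkf k f (MvPolynomial.X j.succ)) * iv) :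
    @IsLocalization.Away (ER f) _ (mkf k f (MvPolynomial.X 0)) L _ u.toRingHom.toAlgebra := by
  have hwu : IsUnit (w (mkf k f (MvPolynomial.X 0))) := IsUnit.of_mul_eq_one iv hiv
  have hlu : IsUnit (l X) := by
    rw [hl]
    exact IsLocalization.Away.algebraMap_isUnit (X : A[X])
  have hX : evs b (w (mkf k f (MvPolynomial.X 0))) X = w (mkf k f (MvPolynomial.X 0)) := evs_X _ _
  have hC : ∀ y, evs b (w (mkf k f (MvPolynomial.X 0))) (C y) = b y := fun y => evs_C _ _ _
  let β : L →+* V := IsLocalization.Away.lift (X : A[X])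
    (g := (evs b (w (mkf k f (MvPolynomial.X 0)))).toRingHom) (by
      change IsUnit (evs b (w (mkf k f (MvPolynomial.X 0))) X)
      rw [hX]
      exact hwu)
  have hβ : ∀ x, β (l x) = evs b (w (mkf k f (MvPolynomial.X 0))) x := by
    intro x
    rw [hl]
    exact IsLocalization.Away.lift_eq _ _ x
  let α : V →+* L := IsLocalization.Away.lift (mkf k f (MvPolynomial.X 0))
    (g := u.toRingHom) (by
      change IsUnit (u (mkf k f (MvPolynomial.X 0)))
      rw [hu2]
      exact hlu)
  have hα : ∀ x, α (w x) = u x := by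
    intro x
    rw [hw]
    exact IsLocalization.Away.lift_eq _ _ x
  have hαiv : l X * α iv = 1 := by
    have h1 := congrArg α hiv
    rw [map_mul, map_one, hα, hu2] at h1
    exact h1
  refine away_of_inv (mkf k f (MvPolynomial.X 0)) _ α β (fun x => ?_) ?_ ?_
  · rw [← hw, hα]
    rfl
  · apply IsLocalization.ringHom_ext (Submonoid.powers (mkf k f (MvPolynomial.X 0)))
    have h1 : (β.comp u.toRingHom).comp (mkf k f).toRingHom =
        w.toRingHom.comp (mkf k f).toRingHom := by
      apply MvPolynomial.ringHom_ext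
      · intro r
        change β (u (mkf k f (MvPolynomial.C r))) = w (mkf k f (MvPolynomial.C r))
        rw [hu1, hβ, hC, hb1]
      · intro j
        change β (u (mkf k f (MvPolynomial.X j))) = w (mkf k f (MvPolynomial.X j))
        refine Fin.cases ?_ (fun j => ?_) j
        · rw [hu2, hβ, hX]
        · rw [hu3, map_mul, hβ, hβ, hX, hC, hb2]
          linear_combination (w (mkf k f (MvPolynomial.X j.succ))) * hiv
    refine RingHom.ext fun y => ?_
    obtain ⟨x, rfl⟩ := mkf_surjective (k := k) f y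
    change β (α (algebraMap (ER f) V (mkf k f x))) = algebraMap (ER f) V (mkf k f x)
    rw [← hw, hα]
    exact RingHom.congr_fun h1 x
  · apply IsLocalization.ringHom_ext (Submonoid.powers (X : A[X]))
    apply Polynomial.ringHom_ext
    · have h1 : (α.comp b.toRingHom).comp q.toRingHom =
          (l.toRingHom.comp C).comp q.toRingHom := by
        apply MvPolynomial.ringHom_ext
        · intro r
          change α (b (q (MvPolynomial.C r))) = l (C (q (MvPolynomial.C r)))
          rw [hb1, hα, hu1]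
        · intro j
          change α (b (q (MvPolynomial.X j))) = l (C (q (MvPolynomial.X j)))
          rw [hb2, map_mul, hα, hu3]
          linear_combination (l (C (q (MvPolynomial.X j)))) * hαiv
      intro y
      obtain ⟨x, rfl⟩ := hq y
      change α (β (algebraMap A[X] L (C (q x)))) =
        algebraMap A[X] L (C (q x))
      rw [← hl, hβ, hC]
      exact RingHom.congr_fun h1 x
    · change α (β (algebraMap A[X] L X)) = algebraMap A[X] L X
      rw [← hl, hβ, hX, hα, hu2]

end Cone

end HCH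

open _root_.QCV.HCH in
theorem t_HCH : S_HCH := by
  intro k R ι _ _ _ n f m hf
  obtain ⟨u, hu1, hu2, hu3⟩ := exists_u f hf
    ((awayHom k (X : (ER (F1 f))[X])).comp (CC k (ER (F1 f)))) (awayHom k (X : (ER (F1 f))[X]) X)
  obtain ⟨b, hb1, hb2⟩ := exists_b f hf (awayHom k (mkf k f (MvPolynomial.X 0)))
    (IsLocalization.Away.invSelf (R := ER f) (mkf k f (MvPolynomial.X 0)))
    (IsLocalization.Away.mul_invSelf (R := ER f) (mkf k f (MvPolynomial.X 0)))
  refine ⟨zC k f, u, zC_surjective f, zC_ker f, ?_⟩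
  exact away_gen f (mkf k (F1 f)) (mkf_surjective (F1 f))
    (awayHom k (mkf k f (MvPolynomial.X 0))) (fun _ => rfl)
    (awayHom k (X : (ER (F1 f))[X])) (fun _ => rfl) u hu1 hu2 hu3 _
    (IsLocalization.Away.mul_invSelf (R := ER f) (mkf k f (MvPolynomial.X 0))) b hb1 hb2

end QCV


end

section

/-!
# QCV, module HDE: affine cones and their charts (helper83)
-/

set_option autoImplicit false

open Polynomial

namespace QCV

namespace HDE_aux

/-- The strata `X = 0` and `X ≠ 0` of the affine line over `A`. -/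
theorem line (k : Type) [Field k] (A : Type) [CommRing A] [Algebra k A] :
    Strat (Polynomial.X : A[X]) ((Polynomial.aeval (0 : A)).restrictScalars k : A[X] →ₐ[k] A)
      (IsScalarTower.toAlgHom k A[X] (Localization.Away (Polynomial.X : A[X]))) where
  surj := fun a => ⟨Polynomial.C a, by simp⟩
  ker := by
    ext p
    rw [RingHom.mem_ker, Ideal.mem_span_singleton, Polynomial.X_dvd_iff,
      Polynomial.coeff_zero_eq_aeval_zero]
    rfl
  away := by
    have h : (IsScalarTower.toAlgHom k A[X] (Localization.Away (Polynomial.X : A[X]))).toRingHom.toAlgebra =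
        (inferInstance : Algebra A[X] (Localization.Away (Polynomial.X : A[X]))) := by
      refine Algebra.algebra_ext _ _ fun r => rfl
    rw [h]
    infer_instance

end HDE_aux

theorem t_HDE : M_HDE := by
  intro hHCH k _ P hC hline hG R ι _ _ _ n f m hm hz
  obtain ⟨z, u, hS⟩ := hHCH k R ι n f m hm
  constructor
  · intro hA
    have h1 := hC.opn _ _ _ (HDE_aux.line k (ER (fun j => sp 1 (f j)))) (hline _ hA) hA
    exact hC.glue _ _ _ hS hz h1
  · intro hf
    exact hG _ (hC.opn _ _ _ hS hf hz)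

end QCV


end

section

/-!
# QCV, block C, module CUB: the affine cone over a cubic hypersurface
-/

set_option autoImplicit false

open Polynomial

namespace QCV

open CUB

namespace C_CUB

/-- quotients by one element -/
lemma quotIso {k A B : Type} [Field k] [CommRing A] [Algebra k A] [CommRing B] [Algebra k B]
    (θ : A ≃ₐ[k] B) (x : A) (y : B) (h : θ x = y) :
    Nonempty ((A ⧸ Ideal.span (Set.range fun _ : Fin 1 => x)) ≃ₐ[k]
      (B ⧸ Ideal.span (Set.range fun _ : Fin 1 => y))) := by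
  refine ⟨Ideal.quotientEquivAlg _ _ θ ?_⟩
  rw [Ideal.map_span, Set.range_const, Set.range_const, Set.image_singleton]
  exact congrArg (fun z => Ideal.span {z}) h.symm

section

variable {R : Type} [CommRing R]

lemma sp_C {n : ℕ} (c r : R) : sp (n := n) c (MvPolynomial.C r) = MvPolynomial.C r := by
  unfold sp
  rw [MvPolynomial.aeval_C]
  rfl

lemma sp_X0 {n : ℕ} (c : R) : sp (n := n) c (MvPolynomial.X 0) = MvPolynomial.C c := by
  unfold sp
  rw [MvPolynomial.aeval_X, Fin.cons_zero]

lemma sp_Xs {n : ℕ} (c : R) (i : Fin n) :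
    sp (n := n) c (MvPolynomial.X i.succ) = MvPolynomial.X i := by
  unfold sp
  rw [MvPolynomial.aeval_X, Fin.cons_succ]

/-- the ring homomorphism `cub` -/
noncomputable def cubH (R : Type) [CommRing R] (a s : ℕ) :
    MvPolynomial (Fin (s + 1)) (MvPolynomial (Fin (a + 1)) R) →+*
      MvPolynomial (Fin (a + s + 1)) R :=
  MvPolynomial.eval₂Hom
    (MvPolynomial.rename fun i : Fin (a + 1) => (⟨i.1, by omega⟩ : Fin (a + s + 1))).toRingHom
    (Fin.cons 1 fun j : Fin s => MvPolynomial.X ⟨a + 1 + j.1, by omega⟩)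

lemma cubH_apply {a s : ℕ} (G : MvPolynomial (Fin (s + 1)) (MvPolynomial (Fin (a + 1)) R)) :
    cubH R a s G = cub G := rfl

lemma cubH_C {a s : ℕ} (p : MvPolynomial (Fin (a + 1)) R) :
    cubH R a s (MvPolynomial.C p) =
      MvPolynomial.rename (fun i : Fin (a + 1) => (⟨i.1, by omega⟩ : Fin (a + s + 1))) p := by
  unfold cubH
  rw [MvPolynomial.eval₂Hom_C]
  rfl

lemma cubH_X0 {a s : ℕ} : cubH R a s (MvPolynomial.X 0) = 1 := by
  unfold cubH
  rw [MvPolynomial.eval₂Hom_X', Fin.cons_zero]

lemma cubH_Xs {a s : ℕ} (j : Fin s) :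
    cubH R a s (MvPolynomial.X j.succ) = MvPolynomial.X ⟨a + 1 + j.1, by omega⟩ := by
  unfold cubH
  rw [MvPolynomial.eval₂Hom_X', Fin.cons_succ]

/-- the first `a` variables are the inner ones -/
noncomputable def th (R : Type) [CommRing R] (a s : ℕ) :
    MvPolynomial (Fin (a + s)) R ≃ₐ[R] MvPolynomial (Fin s) (MvPolynomial (Fin a) R) :=
  (MvPolynomial.renameEquiv R (finSumFinEquiv.symm.trans (Equiv.sumComm (Fin a) (Fin s)))).trans
    (MvPolynomial.sumAlgEquiv R (Fin s) (Fin a))

lemma th_C {a s : ℕ} (r : R) : th R a s (MvPolynomial.C r) = MvPolynomial.C (MvPolynomial.C r) := by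
  rw [th, AlgEquiv.trans_apply, MvPolynomial.renameEquiv_apply, MvPolynomial.rename_C,
    MvPolynomial.sumAlgEquiv_C_inl]

lemma th_Xl {a s : ℕ} (i : ℕ) (hi : i < a) (hi' : i < a + s) :
    th R a s (MvPolynomial.X ⟨i, hi'⟩) = MvPolynomial.C (MvPolynomial.X ⟨i, hi⟩) := by
  have h : (finSumFinEquiv.symm.trans (Equiv.sumComm (Fin a) (Fin s))) ⟨i, hi'⟩ =
      Sum.inr ⟨i, hi⟩ := by
    rw [Equiv.trans_apply]
    have h1 : finSumFinEquiv.symm (⟨i, hi'⟩ : Fin (a + s)) = Sum.inl ⟨i, hi⟩ := by
      rw [Equiv.symm_apply_eq]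
      rfl
    rw [h1]
    rfl
  rw [th, AlgEquiv.trans_apply, MvPolynomial.renameEquiv_apply, MvPolynomial.rename_X, h,
    MvPolynomial.sumAlgEquiv_X_inr]

lemma th_Xr {a s : ℕ} (j : ℕ) (hj : j < s) (hj' : a + j < a + s) :
    th R a s (MvPolynomial.X ⟨a + j, hj'⟩) = MvPolynomial.X ⟨j, hj⟩ := by
  have h : (finSumFinEquiv.symm.trans (Equiv.sumComm (Fin a) (Fin s))) ⟨a + j, hj'⟩ =
      Sum.inl ⟨j, hj⟩ := by
    rw [Equiv.trans_apply]
    have h1 : finSumFinEquiv.symm (⟨a + j, hj'⟩ : Fin (a + s)) = Sum.inr ⟨j, hj⟩ := by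
      rw [Equiv.symm_apply_eq]
      rfl
    rw [h1]
    rfl
  rw [th, AlgEquiv.trans_apply, MvPolynomial.renameEquiv_apply, MvPolynomial.rename_X, h,
    MvPolynomial.sumAlgEquiv_X_inl]

/-- the chart `y_0 = 1` -/
lemma chart {a s : ℕ} (G : MvPolynomial (Fin (s + 1)) (MvPolynomial (Fin (a + 1)) R)) :
    th R a s (sp (1 : R) (cub G)) = sp 1 (MvPolynomial.map (sp (1 : R)).toRingHom G) := by
  have H : ((th R a s).toAlgHom.toRingHom.comp ((sp (1 : R)).toRingHom.comp (cubH R a s))) =
      ((sp (n := s) (1 : MvPolynomial (Fin a) R)).toRingHom.comp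
        (MvPolynomial.map (sp (n := a) (1 : R)).toRingHom)) := by
    apply MvPolynomial.ringHom_ext
    · intro p
      change th R a s (sp (1 : R) (cubH R a s (MvPolynomial.C p))) =
        sp 1 (MvPolynomial.map (sp (1 : R)).toRingHom (MvPolynomial.C p))
      rw [cubH_C, MvPolynomial.map_C, sp_C]
      have H2 : ((th R a s).toAlgHom.toRingHom.comp ((sp (1 : R)).toRingHom.comp
          (MvPolynomial.rename (R := R)
            (fun i : Fin (a + 1) => (⟨i.1, by omega⟩ : Fin (a + s + 1)))).toRingHom)) =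
          ((MvPolynomial.C (σ := Fin s)).comp (sp (n := a) (1 : R)).toRingHom) := by
        apply MvPolynomial.ringHom_ext
        · intro r
          change th R a s (sp (1 : R) (MvPolynomial.rename _ (MvPolynomial.C r))) =
            MvPolynomial.C (sp (1 : R) (MvPolynomial.C r))
          rw [MvPolynomial.rename_C, sp_C, sp_C, th_C]
        · intro i
          change th R a s (sp (1 : R) (MvPolynomial.rename _ (MvPolynomial.X i))) =
            MvPolynomial.C (sp (1 : R) (MvPolynomial.X i))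
          rw [MvPolynomial.rename_X]
          refine Fin.cases ?_ (fun i => ?_) i
          · have h0 : (⟨(0 : Fin (a + 1)).1, by omega⟩ : Fin (a + s + 1)) = 0 := rfl
            rw [h0, sp_X0, sp_X0, th_C]
          · have h0 : (⟨(i.succ : Fin (a + 1)).1, by omega⟩ : Fin (a + s + 1)) =
              Fin.succ ⟨i.1, by omega⟩ := rfl
            rw [h0, sp_Xs, sp_Xs, th_Xl i.1 i.2]
      exact RingHom.congr_fun H2 p
    · intro i
      change th R a s (sp (1 : R) (cubH R a s (MvPolynomial.X i))) =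
        sp 1 (MvPolynomial.map (sp (1 : R)).toRingHom (MvPolynomial.X i))
      rw [MvPolynomial.map_X]
      refine Fin.cases ?_ (fun i => ?_) i
      · rw [cubH_X0, map_one, map_one, sp_X0, map_one]
      · have h0 : (⟨a + 1 + i.1, by omega⟩ : Fin (a + s + 1)) = Fin.succ ⟨a + i.1, by omega⟩ :=
          Fin.ext (by simp only [Fin.val_succ]; omega)
        rw [cubH_Xs, h0, sp_Xs, sp_Xs, th_Xr i.1 i.2]
  exact RingHom.congr_fun H G

/-- the stratum `y_0 = 0`, one variable `y_0` -/
lemma stratum_zero {s : ℕ} (G : MvPolynomial (Fin (s + 1)) (MvPolynomial (Fin (0 + 1)) R))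
    (hG : ∀ μ, (MvPolynomial.coeff μ G).IsHomogeneous (1 + μ 0)) : sp (0 : R) (cub G) = 0 := by
  unfold cub
  rw [MvPolynomial.eval₂_eq, map_sum]
  refine Finset.sum_eq_zero fun μ _ => ?_
  rw [map_mul]
  have h1 : sp (0 : R) ((MvPolynomial.rename (R := R)
      (fun i : Fin (0 + 1) => (⟨i.1, by omega⟩ : Fin (0 + s + 1)))).toRingHom
        (MvPolynomial.coeff μ G)) = 0 := by
    have h2 : ((sp (n := 0 + s) (0 : R)).comp (MvPolynomial.rename (R := R)
        (fun i : Fin (0 + 1) => (⟨i.1, by omega⟩ : Fin (0 + s + 1))))) =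
        MvPolynomial.aeval (fun _ => 0) := by
      apply MvPolynomial.algHom_ext
      intro i
      rw [AlgHom.comp_apply, MvPolynomial.rename_X, MvPolynomial.aeval_X]
      have h0 : (⟨i.1, by omega⟩ : Fin (0 + s + 1)) = 0 := Fin.ext (by
        change i.1 = 0
        omega)
      rw [h0, sp_X0, map_zero]
    have h3 := congrArg (fun φ : MvPolynomial (Fin (0 + 1)) R →ₐ[R] MvPolynomial (Fin (0 + s)) R =>
      φ (MvPolynomial.coeff μ G)) h2
    refine Eq.trans h3 ?_
    change MvPolynomial.aeval (fun _ => (0 : MvPolynomial (Fin (0 + s)) R))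
      (MvPolynomial.coeff μ G) = 0
    rw [MvPolynomial.aeval_zero']
    have h4 : MvPolynomial.constantCoeff (MvPolynomial.coeff μ G) = 0 := by
      rw [MvPolynomial.constantCoeff_eq]
      refine (hG μ).coeff_eq_zero ?_
      rw [map_zero]
      omega
    rw [h4, map_zero]
  rw [h1, zero_mul]

/-- the stratum `y_0 = 0` -/
lemma stratum_succ {a s : ℕ}
    (G : MvPolynomial (Fin (s + 1)) (MvPolynomial (Fin (a + 1 + 1)) R))
    (h : a + 1 + s = a + s + 1) :
    MvPolynomial.renameEquiv R (finCongr h) (sp (0 : R) (cub G)) =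
      cub (MvPolynomial.map (sp (0 : R)).toRingHom G) := by
  have H : ((MvPolynomial.renameEquiv R (finCongr h)).toAlgHom.toRingHom.comp
      ((sp (0 : R)).toRingHom.comp (cubH R (a + 1) s))) =
      ((cubH R a s).comp (MvPolynomial.map (sp (n := a + 1) (0 : R)).toRingHom)) := by
    apply MvPolynomial.ringHom_ext
    · intro p
      change MvPolynomial.renameEquiv R (finCongr h)
        (sp (0 : R) (cubH R (a + 1) s (MvPolynomial.C p))) =
        cubH R a s (MvPolynomial.map (sp (0 : R)).toRingHom (MvPolynomial.C p))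
      rw [cubH_C, MvPolynomial.map_C, cubH_C]
      have H2 : ((MvPolynomial.renameEquiv R (finCongr h)).toAlgHom.comp
          ((sp (0 : R)).comp (MvPolynomial.rename (R := R)
            (fun i : Fin (a + 1 + 1) => (⟨i.1, by omega⟩ : Fin (a + 1 + s + 1)))))) =
          ((MvPolynomial.rename (R := R)
            (fun i : Fin (a + 1) => (⟨i.1, by omega⟩ : Fin (a + s + 1)))).comp
            (sp (n := a + 1) (0 : R))) := by
        apply MvPolynomial.algHom_ext
        intro i
        change MvPolynomial.renameEquiv R (finCongr h)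
          (sp (0 : R) (MvPolynomial.rename _ (MvPolynomial.X i))) =
          MvPolynomial.rename _ (sp (0 : R) (MvPolynomial.X i))
        rw [MvPolynomial.rename_X]
        refine Fin.cases ?_ (fun i => ?_) i
        · have h0 : (⟨(0 : Fin (a + 1 + 1)).1, by omega⟩ : Fin (a + 1 + s + 1)) = 0 := rfl
          rw [h0, sp_X0, sp_X0, map_zero, map_zero, map_zero, map_zero]
        · have h0 : (⟨(i.succ : Fin (a + 1 + 1)).1, by omega⟩ : Fin (a + 1 + s + 1)) =
            Fin.succ ⟨i.1, by omega⟩ := rfl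
          rw [h0, sp_Xs, sp_Xs, MvPolynomial.renameEquiv_apply, MvPolynomial.rename_X,
            MvPolynomial.rename_X]
          rfl
      exact congrArg (fun φ : MvPolynomial (Fin (a + 1 + 1)) R →ₐ[R]
        MvPolynomial (Fin (a + s + 1)) R => φ p) H2
    · intro i
      change MvPolynomial.renameEquiv R (finCongr h)
        (sp (0 : R) (cubH R (a + 1) s (MvPolynomial.X i))) =
        cubH R a s (MvPolynomial.map (sp (0 : R)).toRingHom (MvPolynomial.X i))
      rw [MvPolynomial.map_X]
      refine Fin.cases ?_ (fun i => ?_) i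
      · rw [cubH_X0, cubH_X0, map_one, map_one]
      · have h0 : (⟨a + 1 + 1 + i.1, by omega⟩ : Fin (a + 1 + s + 1)) =
            Fin.succ ⟨a + 1 + i.1, by omega⟩ := Fin.ext (by simp only [Fin.val_succ]; omega)
        rw [cubH_Xs, cubH_Xs, h0, sp_Xs, MvPolynomial.renameEquiv_apply, MvPolynomial.rename_X]
        rfl
  exact RingHom.congr_fun H G

/-- `sp 0` preserves homogeneity -/
lemma sp_hom {n m : ℕ} {p : MvPolynomial (Fin (n + 1)) R} (h : p.IsHomogeneous m) :
    (sp (0 : R) p).IsHomogeneous m := by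
  have h1 := h.aeval (Fin.cons (MvPolynomial.C 0) MvPolynomial.X :
    Fin (n + 1) → MvPolynomial (Fin n) R) (n := 1) (by
      intro i
      refine Fin.cases ?_ (fun i => ?_) i
      · rw [Fin.cons_zero, map_zero]
        exact MvPolynomial.isHomogeneous_zero _ _ _
      · rw [Fin.cons_succ]
        exact MvPolynomial.isHomogeneous_X _ _)
  rwa [one_mul] at h1

end

end C_CUB

open _root_.QCV.C_CUB in
/-- QCV_CUB. -/
theorem t_CUB : M_CUB := by
  intro hAFF hHDE hCUH k _ P d h2 hCls hOdd hGm R _ _ _ a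
  induction a with
  | zero =>
    intro s e G hed hea hes hDL hG hc hodd
    refine (hHDE k P hCls.toCls0 hCls.line hGm R (Fin 1) (0 + s) (fun _ => cub G) (fun _ => 3)
      (fun _ => hCUH R 0 s G hG hc) ?_).1 ?_
    · refine (Asm.s_PLY k P hCls.toCls0 hCls.line R _).2.1 _ _ (fun _ => stratum_zero G hc) ?_
      exact hCls.base R fun p => (hDL p).trans (by exact_mod_cast hed)
    · obtain ⟨i⟩ := quotIso ((th R 0 s).restrictScalars k) _ _ (_root_.QCV.C_CUB.chart G)
      exact hCls.iso i.symm (hAFF k P d h2 hCls hOdd hGm R 0 s e G hed hea hes hDL hG hc hodd)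
  | succ a ih =>
    intro s e G hed hea hes hDL hG hc hodd
    refine (hHDE k P hCls.toCls0 hCls.line hGm R (Fin 1) (a + 1 + s) (fun _ => cub G)
      (fun _ => 3) (fun _ => hCUH R (a + 1) s G hG hc) ?_).1 ?_
    · have hP := ih s e (MvPolynomial.map (sp (0 : R)).toRingHom G) hed (by omega) hes hDL
        (hG.map _) (fun μ => by
          rw [MvPolynomial.coeff_map]
          exact sp_hom (hc μ)) (fun h => by omega)
      obtain ⟨i⟩ := quotIso ((MvPolynomial.renameEquiv R
        (finCongr (show a + 1 + s = a + s + 1 by omega))).restrictScalars k) _ _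
        (stratum_succ G (by omega))
      exact hCls.iso i.symm hP
    · obtain ⟨i⟩ := quotIso ((th R (a + 1) s).restrictScalars k) _ _ (_root_.QCV.C_CUB.chart G)
      exact hCls.iso i.symm (hAFF k P d h2 hCls hOdd hGm R (a + 1) s e G hed hea hes hDL hG hc
        hodd)

end QCV


end

section

/-!
# QCV, module DRK: the rank is odd if the discriminant is not zero (helper38)
-/

set_option autoImplicit false

open Polynomial

namespace QCV

open CUB

namespace DRK

lemma gram_map {A B : Type} [CommRing A] [CommRing B] {n : ℕ} (φ : A →+* B)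
    (f : MvPolynomial (Fin n) A) : gram (MvPolynomial.map φ f) = (gram f).map φ := by
  ext i j
  simp only [gram, Matrix.map_apply]
  rw [MvPolynomial.pderiv_map, MvPolynomial.pderiv_map, MvPolynomial.coeff_map]

lemma genHom_injective {K : Type} [Field K] (a : ℕ) (p : PrimeSpectrum K) :
    Function.Injective (genHom a p) := by
  have hp := p.isPrime
  have h1 : Function.Injective (Ideal.Quotient.mk p.asIdeal) := RingHom.injective _
  unfold genHom
  rw [RingHom.coe_comp]
  exact (IsFractionRing.injective (MvPolynomial (Fin a) (K ⧸ p.asIdeal)) _).comp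
    (MvPolynomial.map_injective _ h1)

lemma two_mul_hom {K σ : Type} [CommRing K] {f : MvPolynomial σ K} {n : ℕ}
    (h : f.IsHomogeneous n) : (2 * f).IsHomogeneous n := by
  rw [two_mul]
  exact h.add h

end DRK


theorem t_DRK : M_DRK := by
  intro hDEX hDHM k K _ _ _ a G hG hc hdet p _
  have hp := p.isPrime
  obtain ⟨A, B₁, B₂, D₁, D₂, D₃, hA, hB₁, hB₂, hD₁, hD₂, hD₃, hgr, -⟩ := hDEX K a G hG hc
  have hhom : (gram G).det.IsHomogeneous 5 := by
    have h1 : gram G = !![2 * A, B₁, B₂; B₁, 2 * D₁, D₂; B₂, D₂, 2 * D₃] := hgr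
    rw [h1, Matrix.det_fin_three]
    have e1 := DRK.two_mul_hom hA
    have e2 := DRK.two_mul_hom hD₁
    have e3 := DRK.two_mul_hom hD₃
    simp only [Matrix.of_apply, Matrix.cons_val', Matrix.cons_val_zero, Matrix.cons_val_one,
      Matrix.cons_val, Matrix.cons_val_fin_one]
    exact ((((((e1.mul e2).mul e3).sub ((e1.mul hD₂).mul hD₂)).sub
      ((hB₁.mul hB₁).mul e3)).add ((hB₁.mul hD₂).mul hB₂)).add ((hB₂.mul hB₁).mul hD₂)).sub
      ((hB₂.mul e2).mul hB₂)
  have hne : (sp (1 : K)).toRingHom (gram G).det ≠ 0 := by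
    intro h0
    exact hdet (hDHM K a 5 _ hhom h0)
  have hdet2 : ((gram (MvPolynomial.map (sp (1 : K)).toRingHom G)).map (genHom a p)).det ≠ 0 := by
    rw [DRK.gram_map]
    have h2 : (((gram G).map (sp (1 : K)).toRingHom).map (genHom a p)).det =
        genHom a p ((sp (1 : K)).toRingHom (gram G).det) := by
      rw [RingHom.map_det, RingHom.map_det]
      rfl
    rw [h2]
    intro h0
    exact hne ((map_eq_zero_iff _ (DRK.genHom_injective a p)).1 h0)
  have hrank : ((gram (MvPolynomial.map (sp (1 : K)).toRingHom G)).map (genHom a p)).rank = 3 := by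
    rw [Matrix.rank_of_isUnit _ ((Matrix.isUnit_iff_isUnit_det _).2 (isUnit_iff_ne_zero.2 hdet2))]
    simp
  rw [hrank]
  decide

end QCV


end
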