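import Mathlib
import Pool.Agent.QVM.C01
import Pool.Agent.QVM.C44
import Pool.Agent.QVM.C45

/-! Parts: QCV.P_PRJ, QCV.P_FRM -/

section

/-!
# QCV: projective varieties defined by quadratic forms belong to the class
-/

set_option autoImplicit false

open CategoryTheory AlgebraicGeometry Limits Polynomial TopologicalSpace HomogeneousLocalization

namespace QCV

open Pool.Agent.Lib_helper55.Beil Pool.Agent.Lib_helper66.OneP CUB

variable {k : Type} [Field k]

/-- Two varieties which are closed subschemes, with the same points, of a scheme over `k`. -/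
theorem built_same_image {X Y : Var k} {W : Scheme.{0}} (fW : W ⟶ Spec (CommRingCat.of k)) {d : ℕ}
    (a : X.X ⟶ W) [IsClosedImmersion a] (b : Y.X ⟶ W) [IsClosedImmersion b]
    (ha : a ≫ fW = X.f) (hb : b ≫ fW = Y.f) (h : Set.range a = Set.range b)
    (hX : Built k d X) : Built k d Y := by
  have hred := isReduced_redVar Y
  have hclY := (redVarIn Y).closed
  let c : (redVar Y).X ⟶ W := (redVarIn Y).g ≫ b
  let C : Closeds W := ⟨Set.range a, a.isClosedEmbedding.isClosed_range⟩
  have h1 : a.ker ≤ Scheme.IdealSheafData.vanishingIdeal C := by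
    rw [← Scheme.IdealSheafData.le_support_iff_le_vanishingIdeal]
    intro x hx
    have h3 : ((a.ker.support : Closeds W) : Set W) = closure (Set.range a) :=
      Scheme.Hom.support_ker _
    change x ∈ ((a.ker.support : Closeds W) : Set W)
    rw [h3]
    exact subset_closure hx
  have h2 : a.ker ≤ c.ker := h1.trans (vanishingIdeal_le_ker c C (fun w => by
    change c w ∈ Set.range a
    rw [h]
    exact ⟨(redVarIn Y).g w, rfl⟩))
  have h4 : IsClosedImmersion.lift a c h2 ≫ a = c := IsClosedImmersion.lift_fac _ _ _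
  have h5 : IsClosedImmersion (IsClosedImmersion.lift a c h2) := by
    have : IsClosedImmersion (IsClosedImmersion.lift a c h2 ≫ a) := by
      rw [h4]
      infer_instance
    exact IsClosedImmersion.of_comp (IsClosedImmersion.lift a c h2) a
  let l : ClosedIn (redVar Y) X := ⟨IsClosedImmersion.lift a c h2, by
    rw [← ha, ← Category.assoc, h4, Category.assoc, hb, (redVarIn Y).comm], h5⟩
  have hl : l.g ≫ a = (redVarIn Y).g ≫ b := h4
  apply built_of_red
  refine Built.nil l ?_ hX
  intro x
  have h1 : a x ∈ Set.range b := by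
    rw [← h]
    exact ⟨x, rfl⟩
  obtain ⟨y, hy⟩ := h1
  obtain ⟨y', hy'⟩ : y ∈ Set.range (redVarIn Y).g := by
    rw [range_redVarIn]
    trivial
  refine ⟨y', ?_⟩
  apply a.isClosedEmbedding.injective
  rw [← hy, ← hy', ← Scheme.Hom.comp_apply, hl]
  rfl

attribute [local instance] MvPolynomial.gradedAlgebra

namespace PRJ

variable {R : Type} [CommRing R] {n : ℕ}

/-- the open subset where the coordinate `x_j` does not vanish -/
noncomputable abbrev bo (R : Type) [CommRing R] {n : ℕ} (j : Fin (n + 1)) : (PS R n).Opens :=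
  Proj.basicOpen (gr R n) (MvPolynomial.X j)

/-- the closed subset where the first `l` coordinates vanish -/
noncomputable def Cl {X : Scheme.{0}} (g : X ⟶ PS R n) (l : ℕ) : Closeds X :=
  ⟨{x | ∀ j : Fin (n + 1), j.1 < l → g x ∉ bo R j}, by
    have h : {x : X | ∀ j : Fin (n + 1), j.1 < l → g x ∉ bo R j} =
        ⋂ (j : Fin (n + 1)) (_ : j.1 < l), ((g ⁻¹ᵁ bo R j : X.Opens) : Set X)ᶜ := by
      ext x
      simp only [Set.mem_ofPred_eq, Set.mem_iInter, Set.mem_compl_iff]
      rfl
    rw [h]
    exact isClosed_iInter fun j => isClosed_iInter fun _ =>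
      (g ⁻¹ᵁ bo R j : X.Opens).isOpen.isClosed_compl⟩

lemma mem_Cl {X : Scheme.{0}} (g : X ⟶ PS R n) (l : ℕ) (x : X) :
    x ∈ Cl g l ↔ ∀ j : Fin (n + 1), j.1 < l → g x ∉ bo R j := Iff.rfl

lemma iSup_bo (R : Type) [CommRing R] (n : ℕ) : ⨆ j : Fin (n + 1), bo R j = ⊤ := by
  apply Proj.iSup_basicOpen_eq_top' (gr R n)
    (fun j : Fin (n + 1) => (MvPolynomial.X j : MvPolynomial (Fin (n + 1)) R))
  · intro j
    exact ⟨1, PRA.X_mem j⟩
  · rw [eq_top_iff]
    rintro a -
    induction a using MvPolynomial.induction_on with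
    | C c =>
      have h := Subalgebra.algebraMap_mem (Algebra.adjoin (gr R n 0) (Set.range
        (fun j : Fin (n + 1) => (MvPolynomial.X j : MvPolynomial (Fin (n + 1)) R))))
        (algebraMap R (gr R n 0) c)
      exact h
    | add p q hp hq => exact add_mem hp hq
    | mul_X p j hp => exact mul_mem hp (Algebra.subset_adjoin ⟨j, rfl⟩)

lemma not_mem_Cl {X : Scheme.{0}} (g : X ⟶ PS R n) (x : X) : x ∉ Cl g (n + 1) := by
  intro hx
  have h2 : g x ∈ (⨆ j : Fin (n + 1), bo R j : (PS R n).Opens) := by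
    rw [iSup_bo]
    trivial
  obtain ⟨j, hj⟩ := Opens.mem_iSup.mp h2
  exact hx j j.2 hj

/-- the inclusion of the chart -/
noncomputable abbrev io (R : Type) [CommRing R] {n : ℕ} (l : Fin (n + 1)) :
    Spec (CommRingCat.of (PRA.S R l)) ⟶ PS R n :=
  Proj.awayι (gr R n) (MvPolynomial.X l) (PRA.X_mem l) one_pos

/-- a homogeneous polynomial vanishes at a point of the chart if and only if its quotient by the
power of the coordinate does -/
lemma mem_iff (l : Fin (n + 1)) (p : Spec (CommRingCat.of (PRA.S R l))) {m : ℕ} (hm : 1 ≤ m)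
    {f : MvPolynomial (Fin (n + 1)) R} (hf : f ∈ gr R n m) :
    io R l p ∉ Proj.basicOpen (gr R n) f ↔
      Away.isLocalizationElem (PRA.X_mem (R := R) l) hf ∈ (p : PrimeSpectrum (PRA.S R l)).asIdeal := by
  have h1 := Proj.awayι_preimage_basicOpen (gr R n) (PRA.X_mem (R := R) l) one_pos hf hm
  have h2 : io R l p ∈ Proj.basicOpen (gr R n) f ↔
      (p : PrimeSpectrum (PRA.S R l)) ∈
        PrimeSpectrum.basicOpen (Away.isLocalizationElem (PRA.X_mem (R := R) l) hf) := by
    change p ∈ (io R l ⁻¹ᵁ Proj.basicOpen (gr R n) f) ↔ _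
    rw [h1]
    rfl
  rw [h2]
  exact not_not

variable [Algebra k R]

lemma io_comm (l : Fin (n + 1)) : io R l ≫ PSf k R n =
    Spec.map (CommRingCat.ofHom ((PRA.sc (R := R) l).comp (algebraMap k R))) := by
  rw [PSf, ← Category.assoc, Proj.awayι_toSpecZero, ← Spec.map_comp]
  rfl

lemma range_io (l : Fin (n + 1)) (z : PS R n) : z ∈ Set.range (io R l) ↔ z ∈ bo R l := by
  have h2 : (io R l).opensRange = bo R l := Proj.opensRange_awayι _ _ _ _
  change z ∈ (io R l).opensRange ↔ _
  rw [h2]

/-- the part of the variety in the chart -/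
lemma chart_step [Algebra.FiniteType k R] {ι : Type} {d : ℕ} {X : Var k}
    (f : ι → MvPolynomial (Fin (n + 1)) R)
    (S : ProjSub f X) (m : ι → ℕ) (hf : ∀ j, f j ∈ gr R n (m j)) (hm1 : ∀ j, 1 ≤ m j)
    (l : Fin (n + 1)) (hquad : Built k d (aff k (MvPolynomial (Fin (PRA.ns l)) R ⧸
      Ideal.span (Set.range fun j => PRA.e l (f j)))))
    {Y U : Var k} (c : ClosedIn Y X) (j : OpenIn U Y)
    (hc : Set.range c.g = Cl S.g l.1)
    (hj : Set.range j.g = ((c.g ≫ S.g) ⁻¹ᵁ bo R l : Y.X.Opens)) :
    Built k d U := by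
  have hSc := S.closed
  have hYc := c.closed
  have hop := j.isOpen
  have hrange : Set.range (j.g ≫ c.g ≫ S.g) ⊆ Set.range (io R l) := by
    rintro _ ⟨y, rfl⟩
    have h1 : j.g y ∈ Set.range j.g := ⟨y, rfl⟩
    rw [hj] at h1
    have h2 : (c.g ≫ S.g) (j.g y) ∈ bo R l := h1
    rw [range_io, Scheme.Hom.comp_apply]
    exact h2
  let h : U.X ⟶ Spec (CommRingCat.of (PRA.S R l)) :=
    IsOpenImmersion.lift (io R l) (j.g ≫ c.g ≫ S.g) hrange
  have hfac : h ≫ io R l = j.g ≫ c.g ≫ S.g := IsOpenImmersion.lift_fac _ _ _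
  have hpb : IsPullback h j.g (io R l) (c.g ≫ S.g) := by
    apply IsOpenImmersion.isPullback h j.g (io R l) (c.g ≫ S.g) hfac.symm
    rw [Proj.opensRange_awayι]
    ext1
    exact hj.symm
  have hcl : IsClosedImmersion h :=
    MorphismProperty.of_isPullback hpb.flip (inferInstanceAs (IsClosedImmersion (c.g ≫ S.g)))
  obtain ⟨φ, h2, h3, h4⟩ := chart l m f hf
  let a : (aff k (MvPolynomial (Fin (PRA.ns l)) R ⧸
      Ideal.span (Set.range fun j => PRA.e l (f j)))).X ⟶
      Spec (CommRingCat.of (PRA.S R l)) := Spec.map (CommRingCat.ofHom φ)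
  have hacl : IsClosedImmersion a := IsClosedImmersion.spec_of_surjective _ h2
  refine built_same_image
    (Spec.map (CommRingCat.ofHom ((PRA.sc (R := R) l).comp (algebraMap k R)))) a h ?_ ?_ ?_ hquad
  · change Spec.map (CommRingCat.ofHom φ) ≫ _ = _
    rw [← Spec.map_comp, ← CommRingCat.ofHom_comp]
    change _ = Spec.map (CommRingCat.ofHom _)
    congr 2
    ext c
    change φ (PRA.sc l (algebraMap k R c)) = _
    rw [h3]
    rfl
  · rw [← io_comm, ← Category.assoc, hfac, Category.assoc, Category.assoc, S.comm, c.comm, j.comm]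
  · ext p
    have h5 : p ∈ Set.range a ↔ RingHom.ker φ ≤ (p : PrimeSpectrum (PRA.S R l)).asIdeal := by
      have h6 := range_comap_of_surjective _ φ h2
      change p ∈ Set.range (PrimeSpectrum.comap φ) ↔ _
      rw [h6]
      rfl
    have h6 : p ∈ Set.range h ↔ (∃ x, S.g x = io R l p ∧ x ∈ Cl S.g l.1) := by
      constructor
      · rintro ⟨u, rfl⟩
        refine ⟨c.g (j.g u), ?_, ?_⟩
        · rw [← Scheme.Hom.comp_apply, ← Scheme.Hom.comp_apply, ← Scheme.Hom.comp_apply, hfac]
        · change _ ∈ ((Cl S.g l.1 : Closeds X.X) : Set X.X)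
          rw [← hc]
          exact ⟨_, rfl⟩
      · rintro ⟨x, hx1, hx2⟩
        obtain ⟨y, hy⟩ : x ∈ Set.range c.g := by
          rw [hc]
          exact hx2
        have h8 : (c.g ≫ S.g) y = io R l p := by
          rw [Scheme.Hom.comp_apply, hy, hx1]
        obtain ⟨u, hu⟩ : y ∈ Set.range j.g := by
          rw [hj]
          change (c.g ≫ S.g) y ∈ bo R l
          rw [h8, ← range_io]
          exact ⟨p, rfl⟩
        refine ⟨u, ?_⟩
        apply (io R l).isOpenEmbedding.injective
        rw [← Scheme.Hom.comp_apply, hfac, ← h8, ← hu]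
        rfl
    have h7 : (∃ x, S.g x = io R l p ∧ x ∈ Cl S.g l.1) ↔
        (∃ x, S.g x = io R l p) ∧ ∀ j : Fin (n + 1), j.1 < l.1 → io R l p ∉ bo R j := by
      constructor
      · rintro ⟨x, hx, hx2⟩
        refine ⟨⟨x, hx⟩, ?_⟩
        intro j hj
        rw [← hx]
        exact hx2 j hj
      · rintro ⟨⟨x, hx⟩, hx2⟩
        refine ⟨x, hx, ?_⟩
        intro j hj
        rw [hx]
        exact hx2 j hj
    refine h5.trans ((h4 p).trans (Iff.trans ?_ (h6.trans h7).symm))
    rw [and_comm]
    apply and_congr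
    · refine Iff.trans ?_ (S.range (io R l p)).symm
      apply forall_congr'
      intro j
      refine (mem_iff l p (hm1 j) (hf j)).symm.trans ?_
      exact not_not
    · apply forall_congr'
      intro j
      apply imp_congr Iff.rfl
      exact (mem_iff l p le_rfl (PRA.X_mem j)).symm

/-- the parts of the variety -/
lemma main_step [Algebra.FiniteType k R] {ι : Type} {d : ℕ} {X : Var k}
    (f : ι → MvPolynomial (Fin (n + 1)) R)
    (S : ProjSub f X) (m : ι → ℕ) (hf : ∀ j, f j ∈ gr R n (m j)) (hm1 : ∀ j, 1 ≤ m j)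
    (hquad : ∀ l : Fin (n + 1), Built k d (aff k (MvPolynomial (Fin (PRA.ns l)) R ⧸
      Ideal.span (Set.range fun j => PRA.e l (f j)))))
    (t : ℕ) (l : ℕ) (hl : l + t = n + 1) :
    Built k d (closedVar X (Cl S.g l)) := by
  induction t generalizing l with
  | zero =>
    obtain rfl : l = n + 1 := by omega
    apply built_of_isEmpty
    constructor
    intro y
    have h1 : (closedVarIn X (Cl S.g (n + 1))).g y ∈
        ((Cl S.g (n + 1) : Closeds X.X) : Set X.X) := by
      rw [← range_closedVarIn]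
      exact ⟨y, rfl⟩
    exact not_mem_Cl _ _ h1
  | succ t ih =>
    have hl' : l < n + 1 := by omega
    have hZ := ih (l + 1) (by omega)
    set Y := closedVar X (Cl S.g l) with hY
    set gY : Y.X ⟶ PS R n := (closedVarIn X (Cl S.g l)).g ≫ S.g with hgY
    let O : Y.X.Opens := gY ⁻¹ᵁ bo R ⟨l, hl'⟩
    have hU : Built k d (openVar Y O) :=
      chart_step f S m hf hm1 ⟨l, hl'⟩ (hquad _) (closedVarIn X (Cl S.g l)) (openVarIn Y O)
        (range_closedVarIn _ _) (range_openVarIn _ _)
    refine Built.paste (closedVarIn Y O.compl) (openVarIn Y O) (complementary_open Y O)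
      ?_ hU
    refine built_same_range (closedVarIn X (Cl S.g (l + 1)))
      ((closedVarIn Y O.compl).trans (closedVarIn X (Cl S.g l))) ?_ hZ
    rw [range_closedVarIn]
    ext x
    constructor
    · intro hx
      obtain ⟨y, hy⟩ : x ∈ Set.range (closedVarIn X (Cl S.g l)).g := by
        rw [range_closedVarIn]
        intro j hj
        exact hx j (by omega)
      obtain ⟨z, hz⟩ : y ∈ Set.range (closedVarIn Y O.compl).g := by
        rw [range_closedVarIn]
        intro hyO
        have h1 : gY y ∈ bo R ⟨l, hl'⟩ := hyO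
        rw [hgY, Scheme.Hom.comp_apply, hy] at h1
        exact hx ⟨l, hl'⟩ (by simp) h1
      refine ⟨z, ?_⟩
      change ((closedVarIn Y O.compl).g ≫ (closedVarIn X (Cl S.g l)).g) z = x
      rw [Scheme.Hom.comp_apply, hz, hy]
    · rintro ⟨z, rfl⟩
      change ((closedVarIn Y O.compl).g ≫ (closedVarIn X (Cl S.g l)).g) z ∈ _
      rw [Scheme.Hom.comp_apply]
      have h1 : (closedVarIn Y O.compl).g z ∈ ((O.compl : Closeds Y.X) : Set Y.X) := by
        rw [← range_closedVarIn]
        exact ⟨z, rfl⟩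
      have h2 : (closedVarIn X (Cl S.g l)).g ((closedVarIn Y O.compl).g z) ∈
          ((Cl S.g l : Closeds X.X) : Set X.X) := by
        rw [← range_closedVarIn]
        exact ⟨_, rfl⟩
      intro j hj
      rcases Nat.lt_or_ge j.1 l with h3 | h3
      · exact h2 j h3
      · obtain rfl : j = ⟨l, hl'⟩ := by
          ext
          simp only
          omega
        intro h4
        apply h1
        change gY ((closedVarIn Y O.compl).g z) ∈ bo R ⟨l, hl'⟩
        rw [hgY, Scheme.Hom.comp_apply]
        exact h4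

end PRJ

/-- **PRJ**: a projective variety belongs to the class if the standard affine varieties do. -/
theorem built_of_charts {R ι : Type} [CommRing R] [Algebra k R] [Algebra.FiniteType k R]
    {n d : ℕ} {X : Var k} (f : ι → MvPolynomial (Fin (n + 1)) R) (m : ι → ℕ)
    (hf : ∀ j, (f j).IsHomogeneous (m j)) (hm1 : ∀ j, 1 ≤ m j)
    (hquad : ∀ l : Fin (n + 1), Built k d (aff k (MvPolynomial (Fin (PRA.ns l)) R ⧸
      Ideal.span (Set.range fun j => PRA.e l (f j)))))
    (S : ProjSub f X) : Built k d X := by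
  have h := PRJ.main_step f S m hf hm1 hquad (n + 1) 0 (by omega)
  refine Built.paste (closedVarIn X (PRJ.Cl S.g 0)) (openVarIn X ⊥) ?_ h
    (built_of_isEmpty (isEmpty_openVar_bot X) d)
  rw [Complementary, range_closedVarIn, range_openVarIn]
  ext x
  simp only [Opens.coe_bot, Set.compl_empty, Set.mem_univ, iff_true]
  intro j hj
  omega

end QCV


end

section

/-!
# QCV: projective varieties defined by forms of degree at most two in most of the variables
-/

set_option autoImplicit false

open CategoryTheory AlgebraicGeometry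

namespace QCV

open Pool.Agent.Lib_helper55.Beil CUB

variable {k : Type} [Field k]

/-- The degree of the monomial with exponents `u` in the variables `x_i`, `i > a`. -/
def xdeg {n : ℕ} (a : ℕ) (u : Fin (n + 1) →₀ ℕ) : ℕ :=
  (Finset.univ.filter (fun i : Fin (n + 1) => a < i.1)).sum (fun i => u i)

/-- **FRM**: let `X` be a closed subvariety of the projective space of dimension `n` over `R`,
`dim R ≤ e`, with the same points as `f_1 = ... = f_(s + r) = 0`, where the `f_j` are homogeneous of
any positive degrees, the first `s` are of degree at most one and the others are of degree at most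
two in the variables `x_i`, `i > a`.  If `e + a ≤ d` and `r + e + a ≤ d + 1`, then `X` belongs to the
class. -/
theorem built_of_forms {R : Type} [CommRing R] [Algebra k R] [Algebra.FiniteType k R]
    {n r s d e a : ℕ} (hed : e + a ≤ d) (her : r + e + a ≤ d + 1) (hR : (aff k R).DimLE e)
    {X : Var k} (f : Fin s ⊕ Fin r → MvPolynomial (Fin (n + 1)) R) (m : Fin s ⊕ Fin r → ℕ)
    (hf : ∀ j, (f j).IsHomogeneous (m j)) (hm : ∀ j, 1 ≤ m j)
    (h1 : ∀ j, ∀ u ∈ (f (Sum.inl j)).support, xdeg a u ≤ 1)
    (h2 : ∀ j, ∀ u ∈ (f (Sum.inr j)).support, xdeg a u ≤ 2)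
    (S : ProjSub f X) : Built k d X := by
  refine built_of_charts f m hf hm ?_ S
  intro l
  have hb : min (a - l.1) (PRA.ns l) ≤ PRA.ns l := min_le_right _ _
  let D : Fin s ⊕ Fin r → ℕ := Sum.elim (fun _ => 1) (fun _ => 2)
  have hdeg : ∀ j, ∀ u ∈ (f j).support, xdeg a u ≤ D j := by
    rintro (j | j)
    · exact h1 j
    · exact h2 j
  obtain ⟨g, hg, ⟨eg⟩⟩ := exists_split (k := k) hb D (fun j => PRA.e l (f j)) (by
    intro j u hu
    by_cases h1 : a - l.1 ≤ PRA.ns l
    · rw [min_eq_left h1]
      exact PRA.deg_e' l a (D j) (f j) (hdeg j) u hu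
    · rw [min_eq_right (by omega)]
      rw [Finset.filter_false_of_mem (fun i _ => by have := i.2; omega), Finset.sum_empty]
      exact Nat.zero_le _)
  have hmin : min (a - l.1) (PRA.ns l) ≤ a := (min_le_left _ _).trans (Nat.sub_le _ _)
  refine Built.iso (viso eg) (built_equations (e := e + min (a - l.1) (PRA.ns l)) g ?_ ?_ ?_
    (fun j => hg (Sum.inl j)) (fun j => hg (Sum.inr j)))
  · omega
  · omega
  · rw [dimLE_aff]
    exact Asm.s_DLM k R e _ ((dimLE_aff e).1 hR)

end QCV


end
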