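import Mathlib
import Pool.Agent.QVM.C54
import Pool.Agent.QVM.C57

/-! Parts: QCV.B_UNI -/

section

/-!
# QCV, module UNI: the line bundle `O(1)` over the projective space
-/

set_option autoImplicit false
set_option linter.unusedSectionVars false

open CategoryTheory AlgebraicGeometry Limits TopologicalSpace HomogeneousLocalization

namespace QCV

open Pool.Agent.Lib_helper55.Beil Pool.Agent.Lib_helper66.OneP CUB

namespace UNI

section Gen

variable {A B σ τ : Type} [CommRing A] [SetLike σ A] [AddSubgroupClass σ A]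
  [CommRing B] [SetLike τ B] [AddSubgroupClass τ B]
  {𝒜 : ℕ → σ} {ℬ : ℕ → τ} [GradedRing 𝒜] [GradedRing ℬ] (f : 𝒜 →+*ᵍ ℬ)

lemma mk_congr {s a b : A} {d n : ℕ} (hs : s ∈ 𝒜 d) (ha : a ∈ 𝒜 (n • d)) (hab : a = b)
    (hb : b ∈ 𝒜 (n • d)) : Away.mk 𝒜 hs n a ha = Away.mk 𝒜 hs n b hb := by
  subst hab
  rfl

lemma map_awayMap {s t : A} {d e : ℕ} (hs : s ∈ 𝒜 d) (ht : t ∈ 𝒜 e) {x : A} (hx : x = s * t)
    (hx' : f x = f s * f t) :
    (awayMap ℬ (f.map_mem ht) hx').comp (Away.map f s) =
      (Away.map f x).comp (awayMap 𝒜 ht hx) := by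
  apply RingHom.ext
  intro a
  obtain ⟨n, a, ha, rfl⟩ := Away.mk_surjective 𝒜 hs a
  rw [RingHom.comp_apply, RingHom.comp_apply, Away.map_mk, awayMap_mk, awayMap_mk, Away.map_mk]
  exact mk_congr _ _ (by rw [map_mul, map_pow]; rfl) _

variable {ι : Type} (t : ι → A) (m : ι → ℕ) (ht : ∀ i, t i ∈ 𝒜 (m i)) (hm : ∀ i, 0 < m i)
  (O : (Proj ℬ).Opens) (hO : ∀ x, x ∈ O ↔ ∃ i, x ∈ Proj.basicOpen ℬ (f (t i)))

/-- the chart of `Proj B` -/
noncomputable abbrev ch (i : ι) : Spec (CommRingCat.of (Away ℬ (f (t i)))) ⟶ Proj ℬ :=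
  Proj.awayι ℬ (f (t i)) (f.map_mem (ht i)) (hm i)

include hO in
lemma range_ch (i : ι) : Set.range (ch f t m ht hm i) ⊆ Set.range O.ι := by
  rw [Scheme.Opens.range_ι]
  intro x hx
  have h2 : (ch f t m ht hm i).opensRange = Proj.basicOpen ℬ (f (t i)) :=
    Proj.opensRange_awayι _ _ _ _
  refine (hO x).2 ⟨i, ?_⟩
  rw [← h2]
  exact hx

/-- the chart of `O` -/
noncomputable def chO (i : ι) : Spec (CommRingCat.of (Away ℬ (f (t i)))) ⟶ O.toScheme :=
  IsOpenImmersion.lift O.ι (ch f t m ht hm i) (range_ch f t m ht hm O hO i)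

lemma chO_ι (i : ι) : chO f t m ht hm O hO i ≫ O.ι = ch f t m ht hm i :=
  IsOpenImmersion.lift_fac _ _ _

instance (i : ι) : IsOpenImmersion (chO f t m ht hm O hO i) := by
  have : IsOpenImmersion (chO f t m ht hm O hO i ≫ O.ι) := by
    rw [chO_ι]
    infer_instance
  exact IsOpenImmersion.of_comp _ O.ι

lemma exists_chO (y : O.toScheme) : ∃ i z, chO f t m ht hm O hO i z = y := by
  obtain ⟨i, hi⟩ := (hO (O.ι y)).1 (by
    have : O.ι y ∈ Set.range O.ι := ⟨y, rfl⟩
    rwa [Scheme.Opens.range_ι] at this)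
  have h2 : (ch f t m ht hm i).opensRange = Proj.basicOpen ℬ (f (t i)) :=
    Proj.opensRange_awayι _ _ _ _
  rw [← h2] at hi
  obtain ⟨z, hz⟩ := hi
  refine ⟨i, z, ?_⟩
  apply O.ι.isOpenEmbedding.injective
  rw [← hz, ← Scheme.Hom.comp_apply, chO_ι]

/-- the cover of `O` -/
noncomputable def cov : O.toScheme.OpenCover :=
  Scheme.Cover.mkOfCovers ι (fun i => Spec (CommRingCat.of (Away ℬ (f (t i)))))
    (chO f t m ht hm O hO) (exists_chO f t m ht hm O hO) (fun _ => inferInstance)

/-- the morphism on the chart -/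
noncomputable def qc (i : ι) : Spec (CommRingCat.of (Away ℬ (f (t i)))) ⟶ Proj 𝒜 :=
  Spec.map (CommRingCat.ofHom (Away.map f (t i))) ≫ Proj.awayι 𝒜 (t i) (ht i) (hm i)

lemma glue (i j : ι) :
    pullback.fst (chO f t m ht hm O hO i) (chO f t m ht hm O hO j) ≫ qc f t m ht hm i =
      pullback.snd _ _ ≫ qc f t m ht hm j := by
  let h : pullback (chO f t m ht hm O hO i) (chO f t m ht hm O hO j) ⟶
      pullback (ch f t m ht hm i) (ch f t m ht hm j) :=
    pullback.lift (pullback.fst _ _) (pullback.snd _ _) (by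
      rw [← chO_ι f t m ht hm O hO i, ← chO_ι f t m ht hm O hO j, ← Category.assoc,
        ← Category.assoc, pullback.condition])
  have hx : f (t i * t j) = f (t i) * f (t j) := map_mul f _ _
  let e := Proj.pullbackAwayιIso ℬ (f.map_mem (ht i)) (hm i) (f.map_mem (ht j)) (hm j) hx
  have e1 : pullback.fst (chO f t m ht hm O hO i) (chO f t m ht hm O hO j) =
      h ≫ e.hom ≫ Spec.map (CommRingCat.ofHom (awayMap ℬ (f.map_mem (ht j)) hx)) := by
    rw [Proj.pullbackAwayιIso_hom_SpecMap_awayMap_left]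
    exact (pullback.lift_fst _ _ _).symm
  have e2 : pullback.snd (chO f t m ht hm O hO i) (chO f t m ht hm O hO j) =
      h ≫ e.hom ≫ Spec.map (CommRingCat.ofHom (awayMap ℬ (f.map_mem (ht i))
        (hx.trans (mul_comm _ _)))) := by
    rw [Proj.pullbackAwayιIso_hom_SpecMap_awayMap_right]
    exact (pullback.lift_snd _ _ _).symm
  have e3 : Spec.map (CommRingCat.ofHom (awayMap ℬ (f.map_mem (ht j)) hx)) ≫
      qc f t m ht hm i = Spec.map (CommRingCat.ofHom (Away.map f (t i * t j))) ≫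
        Proj.awayι 𝒜 (t i * t j) (SetLike.mul_mem_graded (ht i) (ht j))
          (Nat.add_pos_left (hm i) _) := by
    rw [qc, ← Category.assoc, ← Spec.map_comp, ← CommRingCat.ofHom_comp,
      map_awayMap f (ht i) (ht j) rfl hx, CommRingCat.ofHom_comp, Spec.map_comp, Category.assoc,
      Proj.SpecMap_awayMap_awayι]
  have e4 : Spec.map (CommRingCat.ofHom (awayMap ℬ (f.map_mem (ht i))
        (hx.trans (mul_comm _ _)))) ≫
      qc f t m ht hm j = Spec.map (CommRingCat.ofHom (Away.map f (t i * t j))) ≫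
        Proj.awayι 𝒜 (t i * t j) (SetLike.mul_mem_graded (ht i) (ht j))
          (Nat.add_pos_left (hm i) _) := by
    rw [qc, ← Category.assoc, ← Spec.map_comp, ← CommRingCat.ofHom_comp,
      map_awayMap f (ht j) (ht i) (mul_comm _ _) (hx.trans (mul_comm _ _)),
      CommRingCat.ofHom_comp, Spec.map_comp, Category.assoc,
      Proj.SpecMap_awayMap_awayι]
    rfl
  rw [e1, e2, Category.assoc, Category.assoc, Category.assoc, Category.assoc, e3, e4]

/-- the projection -/
noncomputable def q : O.toScheme ⟶ Proj 𝒜 :=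
  (cov f t m ht hm O hO).glueMorphisms (qc f t m ht hm) (glue f t m ht hm O hO)

lemma chO_q (i : ι) : chO f t m ht hm O hO i ≫ q f t m ht hm O hO = qc f t m ht hm i :=
  (cov f t m ht hm O hO).ι_glueMorphisms (qc f t m ht hm) (glue f t m ht hm O hO) i

lemma mem_ch {s a : A} {d e : ℕ} (hs : s ∈ 𝒜 d) (hd : 0 < d) (ha : a ∈ 𝒜 e) (he : 0 < e)
    (z : Spec (CommRingCat.of (Away 𝒜 s))) :
    Proj.awayι 𝒜 s hs hd z ∈ Proj.basicOpen 𝒜 a ↔
      Away.isLocalizationElem hs ha ∉ (z : PrimeSpectrum (Away 𝒜 s)).asIdeal := by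
  have h1 := Proj.awayι_preimage_basicOpen 𝒜 hs hd ha he
  change z ∈ (Proj.awayι 𝒜 s hs hd ⁻¹ᵁ Proj.basicOpen 𝒜 a) ↔ _
  rw [h1]
  rfl

lemma map_elem {s a : A} {d e : ℕ} (hs : s ∈ 𝒜 d) (ha : a ∈ 𝒜 e) :
    Away.map f s (Away.isLocalizationElem hs ha) =
      Away.isLocalizationElem (f.map_mem hs) (f.map_mem ha) := by
  rw [Away.isLocalizationElem, Away.isLocalizationElem, Away.map_mk]
  exact mk_congr _ _ (by rw [map_pow]; rfl) _

/-- the points -/
lemma q_mem {a : A} {e : ℕ} (ha : a ∈ 𝒜 e) (he : 0 < e) (y : O.toScheme) :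
    q f t m ht hm O hO y ∈ Proj.basicOpen 𝒜 a ↔ O.ι y ∈ Proj.basicOpen ℬ (f a) := by
  obtain ⟨i, z, rfl⟩ := exists_chO f t m ht hm O hO y
  rw [← Scheme.Hom.comp_apply, ← Scheme.Hom.comp_apply, chO_q, chO_ι]
  have h1 := mem_ch (f.map_mem (ht i)) (hm i) (f.map_mem ha) he z
  have h2 := mem_ch (ht i) (hm i) ha he
    (Spec.map (CommRingCat.ofHom (Away.map f (t i))) z)
  rw [qc, Scheme.Hom.comp_apply, h2]
  refine Iff.trans ?_ h1.symm
  rw [← map_elem f (ht i) ha]
  rfl

end Gen

attribute [local instance] MvPolynomial.gradedAlgebra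

section Alg

variable {R : Type} [CommRing R] {n : ℕ}

open Polynomial in
/-- the chart of the line bundle is the product of the chart with the affine line -/
lemma exists_polyEquiv (l : Fin (n + 1)) (x' : PRA.A R (n + 1)) (hx : x' = MvPolynomial.X l.succ)
    (hx1 : x' ∈ gr R (n + 1) 1) (μ : PRA.S R l →+* Away (gr R (n + 1)) x')
    (hμC : ∀ c : R, μ (PRA.sc l c) = fromZeroRingHom (gr R (n + 1)) _
      (algebraMap R (gr R (n + 1) 0) c))
    (hμ : ∀ j, μ (PRA.q l j) = Away.isLocalizationElem hx1 (PRA.X_mem j.succ)) :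
    ∃ e : (PRA.S R l)[X] ≃+* Away (gr R (n + 1)) x', ∀ a, e (C a) = μ a := by
  subst hx
  -- the inverse homomorphism
  let g0 : PRA.A R (n + 1) →+* (PRA.S R l)[X] :=
    MvPolynomial.eval₂Hom (C.comp (PRA.sc l)) (Fin.cons X fun j => C (PRA.q l j))
  have hg0C : ∀ c : R, g0 (MvPolynomial.C c) = C (PRA.sc l c) := by
    intro c
    simp only [g0, MvPolynomial.coe_eval₂Hom, MvPolynomial.eval₂_C, RingHom.comp_apply]
  have hg00 : g0 (MvPolynomial.X 0) = X := by
    simp only [g0, MvPolynomial.coe_eval₂Hom, MvPolynomial.eval₂_X, Fin.cons_zero]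
  have hg0s : ∀ j : Fin (n + 1), g0 (MvPolynomial.X j.succ) = C (PRA.q l j) := by
    intro j
    simp only [g0, MvPolynomial.coe_eval₂Hom, MvPolynomial.eval₂_X, Fin.cons_succ]
  have hg0l : g0 (MvPolynomial.X l.succ) = 1 := by
    rw [hg0s, PRA.q_self, map_one]
  have hu : IsUnit (g0 (MvPolynomial.X l.succ)) := by
    rw [hg0l]
    exact isUnit_one
  let g1 : PRA.L R l.succ →+* (PRA.S R l)[X] :=
    IsLocalization.Away.lift (S := PRA.L R l.succ) (MvPolynomial.X l.succ : PRA.A R (n + 1))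
      (g := g0) hu
  have hg1 : ∀ a, g1 (PRA.loc l.succ a) = g0 a := fun a => IsLocalization.Away.lift_eq _ _ _
  let g : PRA.S R l.succ →+* (PRA.S R l)[X] := g1.comp (PRA.vl l.succ)
  have hgC : ∀ c : R, g (PRA.sc l.succ c) = C (PRA.sc l c) := by
    intro c
    rw [← hg0C, ← hg1, ← PRA.val_sc]
    rfl
  have hgq : ∀ j, g (PRA.q l.succ j) = g0 (MvPolynomial.X j) := by
    intro j
    have h1 := congrArg g1 (PRA.q_spec (R := R) l.succ j)
    rw [map_mul, hg1, hg1, hg0l, mul_one] at h1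
    exact h1
  -- the homomorphism
  let e : (PRA.S R l)[X] →+* PRA.S R l.succ := Polynomial.eval₂RingHom μ (PRA.q l.succ 0)
  have heC : ∀ a, e (C a) = μ a := fun a => Polynomial.eval₂_C _ _
  have heX : e X = PRA.q l.succ 0 := Polynomial.eval₂_X _ _
  have hμ' : ∀ j, μ (PRA.q l j) = PRA.q l.succ j.succ := hμ
  have hμC' : ∀ c : R, μ (PRA.sc l c) = PRA.sc l.succ c := hμC
  have h1 : g.comp μ = C := by
    apply RingHom.ext
    intro z
    obtain ⟨N, a, -, rfl⟩ := PRA.exists_δ l z
    have h2 : (g.comp μ).comp (PRA.δ (R := R) l) = (C : PRA.S R l →+* _).comp (PRA.δ l) := by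
      apply MvPolynomial.ringHom_ext
      · intro c
        change g (μ (PRA.δ l (MvPolynomial.C c))) = C (PRA.δ l (MvPolynomial.C c))
        rw [PRA.δ_C, hμC', hgC]
      · intro j
        change g (μ (PRA.δ l (MvPolynomial.X j))) = C (PRA.δ l (MvPolynomial.X j))
        rw [PRA.δ_X, hμ', hgq, hg0s]
    exact RingHom.congr_fun h2 a
  have h2 : g.comp e = RingHom.id _ := by
    apply Polynomial.ringHom_ext
    · intro a
      rw [RingHom.comp_apply, heC, RingHom.id_apply]
      exact RingHom.congr_fun h1 a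
    · rw [RingHom.comp_apply, heX, hgq, hg00, RingHom.id_apply]
  have h3 : e.comp g = RingHom.id _ := by
    apply RingHom.ext
    intro z
    obtain ⟨N, a, -, rfl⟩ := PRA.exists_δ l.succ z
    have h4 : (e.comp g).comp (PRA.δ (R := R) l.succ) =
        (RingHom.id (PRA.S R l.succ)).comp (PRA.δ l.succ) := by
      apply MvPolynomial.ringHom_ext
      · intro c
        change e (g (PRA.δ l.succ (MvPolynomial.C c))) = PRA.δ l.succ (MvPolynomial.C c)
        rw [PRA.δ_C, hgC, heC, hμC']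
      · intro j
        change e (g (PRA.δ l.succ (MvPolynomial.X j))) = PRA.δ l.succ (MvPolynomial.X j)
        rw [PRA.δ_X, hgq]
        refine Fin.cases ?_ (fun i => ?_) j
        · rw [hg00, heX]
        · rw [hg0s, heC, hμ']
    exact RingHom.congr_fun h4 a
  exact ⟨RingEquiv.ofRingHom e g h3 h2, heC⟩

end Alg

section Pro

/-- the homomorphism `x_j ↦ x_(j+1)` -/
noncomputable def fr (R : Type) [CommRing R] (n : ℕ) : gr R n →+*ᵍ gr R (n + 1) where
  __ := (MvPolynomial.rename Fin.succ : PRA.A R n →ₐ[R] PRA.A R (n + 1)).toRingHom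
  map_mem {i x} hx := by
    have hx' : x.IsHomogeneous i := hx
    exact hx'.rename_isHomogeneous

/-- the homomorphism `x_0 ↦ 0`, `x_(j+1) ↦ x_j` -/
noncomputable def sr (R : Type) [CommRing R] (n : ℕ) : gr R (n + 1) →+*ᵍ gr R n where
  __ := (MvPolynomial.aeval (Fin.cons 0 MvPolynomial.X : Fin (n + 2) → PRA.A R n)).toRingHom
  map_mem {i x} hx := by
    have hx' : x.IsHomogeneous i := hx
    have h := hx'.aeval (Fin.cons 0 MvPolynomial.X : Fin (n + 2) → PRA.A R n) (n := 1) (by
      intro j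
      refine Fin.cases ?_ (fun i => ?_) j
      · exact MvPolynomial.isHomogeneous_zero _ _ _
      · exact MvPolynomial.isHomogeneous_X _ _)
    rw [one_mul] at h
    exact h

variable {R : Type} [CommRing R] {n : ℕ}

lemma fr_X (j : Fin (n + 1)) : fr R n (MvPolynomial.X j) = MvPolynomial.X j.succ :=
  MvPolynomial.rename_X _ _

lemma fr_C (c : R) : fr R n (MvPolynomial.C c) = MvPolynomial.C c :=
  MvPolynomial.rename_C _ _

lemma sr_X0 : sr R n (MvPolynomial.X 0) = 0 :=
  (MvPolynomial.aeval_X _ _).trans rfl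

lemma sr_Xs (j : Fin (n + 1)) : sr R n (MvPolynomial.X j.succ) = MvPolynomial.X j :=
  (MvPolynomial.aeval_X _ _).trans rfl

lemma sr_C (c : R) : sr R n (MvPolynomial.C c) = MvPolynomial.C c :=
  MvPolynomial.aeval_C _ _

lemma sr_comp_fr : (sr R n).comp (fr R n) = .id (gr R n) := by
  apply GradedRingHom.coe_ringHom_injective
  apply MvPolynomial.ringHom_ext
  · intro c
    change sr R n (fr R n (MvPolynomial.C c)) = MvPolynomial.C c
    rw [fr_C, sr_C]
  · intro j
    change sr R n (fr R n (MvPolynomial.X j)) = MvPolynomial.X j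
    rw [fr_X, sr_Xs]

lemma sr_fr (a : PRA.A R n) : sr R n (fr R n a) = a :=
  GradedRingHom.congr_fun sr_comp_fr a

lemma fr_sr (I : Ideal (PRA.A R (n + 1))) (hI : MvPolynomial.X 0 ∈ I) (b : PRA.A R (n + 1)) :
    b - fr R n (sr R n b) ∈ I := by
  have h : (Ideal.Quotient.mk I) =
      (Ideal.Quotient.mk I).comp ((fr R n).toRingHom.comp (sr R n).toRingHom) := by
    apply MvPolynomial.ringHom_ext
    · intro c
      change Ideal.Quotient.mk I (MvPolynomial.C c) =
        Ideal.Quotient.mk I (fr R n (sr R n (MvPolynomial.C c)))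
      rw [sr_C, fr_C]
    · intro j
      change Ideal.Quotient.mk I (MvPolynomial.X j) =
        Ideal.Quotient.mk I (fr R n (sr R n (MvPolynomial.X j)))
      refine Fin.cases ?_ (fun i => ?_) j
      · rw [sr_X0, map_zero, map_zero]
        exact Ideal.Quotient.eq_zero_iff_mem.mpr hI
      · rw [sr_Xs, fr_X]
  rw [← Ideal.Quotient.eq]
  exact RingHom.congr_fun h b

lemma irr_le : HomogeneousIdeal.irrelevant (gr R n) ≤
    (HomogeneousIdeal.irrelevant (gr R (n + 1))).map (sr R n) := by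
  rw [HomogeneousIdeal.irrelevant_le]
  intro i hi x hx
  have h1 : fr R n x ∈ HomogeneousIdeal.irrelevant (gr R (n + 1)) :=
    HomogeneousIdeal.mem_irrelevant_of_mem _ hi ((fr R n).map_mem hx)
  have h2 : sr R n (fr R n x) ∈ (HomogeneousIdeal.irrelevant (gr R (n + 1))).map (sr R n) :=
    Ideal.mem_map_of_mem _ h1
  rw [sr_fr] at h2
  exact h2

lemma map_id' (χ : gr R n →+*ᵍ gr R n) (h : χ = .id _)
    (hχ : HomogeneousIdeal.irrelevant (gr R n) ≤ (HomogeneousIdeal.irrelevant (gr R n)).map χ) :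
    Proj.map χ hχ = 𝟙 _ := by
  subst h
  exact Proj.map_id

variable (k : Type) [Field k] [Algebra k R] [Algebra.FiniteType k R]

lemma surj_zero : Function.Surjective (algebraMap R (gr R n 0)) := by
  rintro ⟨a, ha⟩
  have ha' : a.IsHomogeneous 0 := ha
  have h1 : a.totalDegree = 0 := by
    have := ha'.totalDegree_le
    omega
  rw [MvPolynomial.totalDegree_eq_zero_iff_eq_C] at h1
  exact ⟨MvPolynomial.coeff 0 a, Subtype.ext h1.symm⟩

lemma finiteType_zero : Algebra.FiniteType (gr R n 0) (PRA.A R n) := by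
  have : IsScalarTower R (gr R n 0) (PRA.A R n) := 
    @IsScalarTower.of_algebraMap_eq R (gr R n 0) (PRA.A R n) _ _ _ _ _ _ (fun _ => rfl)
  exact Algebra.FiniteType.of_restrictScalars_finiteType R (gr R n 0) (PRA.A R n)

/-- the projective space as a variety -/
noncomputable def PV (k R : Type) [Field k] [CommRing R] [Algebra k R] [Algebra.FiniteType k R]
    (n : ℕ) : Var k where
  X := PS R n
  f := PSf k R n
  sep := by
    unfold PSf
    infer_instance
  lft := by
    have h1 : Algebra.FiniteType (gr R n 0) (PRA.A R n) := finiteType_zero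
    have h2 : LocallyOfFiniteType (Spec.map (CommRingCat.ofHom
        ((algebraMap R (gr R n 0)).comp (algebraMap k R)))) := by
      rw [HasRingHomProperty.Spec_iff (P := @LocallyOfFiniteType)]
      exact (RingHom.FiniteType.of_surjective _ surj_zero).comp
        (RingHom.finiteType_algebraMap.2 inferInstance)
    unfold PSf
    infer_instance
  qc := by
    have h1 : Algebra.FiniteType (gr R n 0) (PRA.A R n) := finiteType_zero
    unfold PSf
    infer_instance

end Pro

section Main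

variable (k R : Type) [Field k] [CommRing R] [Algebra k R] [Algebra.FiniteType k R] (n : ℕ)

lemma tX_mem (R : Type) [CommRing R] (n : ℕ) (i : Fin (n + 1)) :
    (MvPolynomial.X i : PRA.A R n) ∈ gr R n 1 := PRA.X_mem i

/-- the open subset of the projective space where one of the coordinates `x_(j+1)` is not zero -/
noncomputable def OO (R : Type) [CommRing R] (n : ℕ) : (Proj (gr R (n + 1))).Opens :=
  ⨆ i : Fin (n + 1), Proj.basicOpen (gr R (n + 1)) (fr R n (MvPolynomial.X i))

lemma mem_OO (R : Type) [CommRing R] (n : ℕ) (x : Proj (gr R (n + 1))) :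
    x ∈ OO R n ↔ ∃ i : Fin (n + 1), x ∈ Proj.basicOpen (gr R (n + 1)) (fr R n (MvPolynomial.X i)) :=
  Opens.mem_iSup

/-- the line bundle -/
noncomputable def YV : Var k := openVar (PV k R (n + 1)) (OO R n)

/-- the projection -/
noncomputable def qq (R : Type) [CommRing R] (n : ℕ) : (OO R n).toScheme ⟶ Proj (gr R n) :=
  q (fr R n) (fun i : Fin (n + 1) => (MvPolynomial.X i : PRA.A R n)) (fun _ => 1) (tX_mem R n)
    (fun _ => one_pos) (OO R n) (mem_OO R n)

/-- the charts -/
noncomputable def cc (R : Type) [CommRing R] (n : ℕ) (i : Fin (n + 1)) :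
    Spec (CommRingCat.of (Away (gr R (n + 1)) (fr R n (MvPolynomial.X i)))) ⟶
      (OO R n).toScheme :=
  chO (fr R n) (fun i : Fin (n + 1) => (MvPolynomial.X i : PRA.A R n)) (fun _ => 1) (tX_mem R n)
    (fun _ => one_pos) (OO R n) (mem_OO R n) i

instance (i : Fin (n + 1)) : IsOpenImmersion (cc R n i) := by
  unfold cc
  infer_instance

variable {k R n}

lemma cc_ι (i : Fin (n + 1)) : cc R n i ≫ (OO R n).ι =
    Proj.awayι (gr R (n + 1)) (fr R n (MvPolynomial.X i)) ((fr R n).map_mem (tX_mem R n i))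
      one_pos :=
  chO_ι (fr R n) (fun i : Fin (n + 1) => (MvPolynomial.X i : PRA.A R n)) (fun _ => 1) (tX_mem R n)
    (fun _ => one_pos) (OO R n) (mem_OO R n) i

lemma cc_qq (i : Fin (n + 1)) : cc R n i ≫ qq R n =
    Spec.map (CommRingCat.ofHom (Away.map (fr R n) (MvPolynomial.X i))) ≫
      Proj.awayι (gr R n) (MvPolynomial.X i) (tX_mem R n i) one_pos :=
  chO_q (fr R n) (fun i : Fin (n + 1) => (MvPolynomial.X i : PRA.A R n)) (fun _ => 1) (tX_mem R n)
    (fun _ => one_pos) (OO R n) (mem_OO R n) i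

lemma exists_cc (y : (OO R n).toScheme) : ∃ i z, cc R n i z = y :=
  exists_chO (fr R n) (fun i : Fin (n + 1) => (MvPolynomial.X i : PRA.A R n)) (fun _ => 1)
    (tX_mem R n) (fun _ => one_pos) (OO R n) (mem_OO R n) y

lemma qq_mem {a : PRA.A R n} {e : ℕ} (ha : a ∈ gr R n e) (he : 0 < e) (y : (OO R n).toScheme) :
    qq R n y ∈ Proj.basicOpen (gr R n) a ↔
      (OO R n).ι y ∈ Proj.basicOpen (gr R (n + 1)) (fr R n a) :=
  q_mem (fr R n) (fun i : Fin (n + 1) => (MvPolynomial.X i : PRA.A R n)) (fun _ => 1)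
    (tX_mem R n) (fun _ => one_pos) (OO R n) (mem_OO R n) ha he y

/-- morphisms from `O` are equal if they are equal on the charts -/
lemma hom_ext_cc {T : Scheme.{0}} (a b : (OO R n).toScheme ⟶ T)
    (h : ∀ i, cc R n i ≫ a = cc R n i ≫ b) : a = b :=
  (cov (fr R n) (fun i : Fin (n + 1) => (MvPolynomial.X i : PRA.A R n)) (fun _ => 1)
    (tX_mem R n) (fun _ => one_pos) (OO R n) (mem_OO R n)).hom_ext a b h

/-- the scalars in a chart ring -/
noncomputable def sca {a : PRA.A R n} : R →+* Away (gr R n) a :=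
  (fromZeroRingHom (gr R n) _).comp (algebraMap R (gr R n 0))

lemma map_sca {a : PRA.A R n} (c : R) : Away.map (fr R n) a (sca c) = sca c := by
  apply val_injective
  change (HomogeneousLocalization.map (fr R n) _ (HomogeneousLocalization.mk _)).val = _
  rw [HomogeneousLocalization.map_mk]
  change Localization.mk (fr R n (MvPolynomial.C c)) ⟨fr R n 1, _⟩ =
    Localization.mk (MvPolynomial.C c) ⟨1, _⟩
  congr 1
  · exact fr_C c
  · exact Subtype.ext (map_one _)

lemma awayι_PSf {a : PRA.A R n} {d : ℕ} (ha : a ∈ gr R n d) (hd : 0 < d) :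
    Proj.awayι (gr R n) a ha hd ≫ PSf k R n =
      Spec.map (CommRingCat.ofHom ((sca (a := a)).comp (algebraMap k R))) := by
  rw [PSf, ← Category.assoc, Proj.awayι_toSpecZero, ← Spec.map_comp]
  rfl

lemma qq_comm : qq R n ≫ PSf k R n = (OO R n).ι ≫ PSf k R (n + 1) := by
  apply hom_ext_cc
  intro i
  rw [← Category.assoc, cc_qq, Category.assoc, awayι_PSf, ← Spec.map_comp,
    ← CommRingCat.ofHom_comp, ← Category.assoc, cc_ι, awayι_PSf]
  congr 2
  apply RingHom.ext
  intro c
  exact map_sca _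

/-! ### The zero section -/

/-- the morphism of the projective spaces defined by `sr` -/
noncomputable def s0 (R : Type) [CommRing R] (n : ℕ) : PS R n ⟶ PS R (n + 1) :=
  Proj.map (sr R n) irr_le

lemma s0_mem (b : PRA.A R (n + 1)) (p : PS R n) :
    s0 R n p ∈ Proj.basicOpen (gr R (n + 1)) b ↔ p ∈ Proj.basicOpen (gr R n) (sr R n b) := by
  change p ∈ (s0 R n ⁻¹ᵁ Proj.basicOpen (gr R (n + 1)) b) ↔ _
  rw [s0, Proj.map_preimage_basicOpen]

lemma exists_X (p : PS R n) : ∃ i : Fin (n + 1), p ∈ Proj.basicOpen (gr R n) (MvPolynomial.X i) := by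
  have h2 : p ∈ (⨆ j, PRJ.bo R j : (PS R n).Opens) := by
    rw [PRJ.iSup_bo]
    trivial
  exact Opens.mem_iSup.mp h2

lemma range_s0 : Set.range (s0 R n) ⊆ Set.range (OO R n).ι := by
  rw [Scheme.Opens.range_ι]
  rintro _ ⟨p, rfl⟩
  obtain ⟨i, hi⟩ := exists_X p
  refine (mem_OO R n _).2 ⟨i, ?_⟩
  rw [s0_mem, sr_fr]
  exact hi

/-- the zero section -/
noncomputable def ss (R : Type) [CommRing R] (n : ℕ) : PS R n ⟶ (OO R n).toScheme :=
  IsOpenImmersion.lift (OO R n).ι (s0 R n) range_s0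

lemma ss_ι : ss R n ≫ (OO R n).ι = s0 R n := IsOpenImmersion.lift_fac _ _ _

lemma hom_ext_PS {T : Scheme.{0}} (a b : PS R n ⟶ T) (x : Fin (n + 1) → PRA.A R n)
    (hx : ∀ i, x i = MvPolynomial.X i) (hx1 : ∀ i, x i ∈ gr R n 1)
    (h : ∀ i, Proj.awayι (gr R n) (x i) (hx1 i) one_pos ≫ a =
      Proj.awayι (gr R n) (x i) (hx1 i) one_pos ≫ b) : a = b := by
  obtain rfl : x = fun i => MvPolynomial.X i := funext hx
  let 𝒰 : (PS R n).OpenCover :=
    Scheme.Cover.mkOfCovers (Fin (n + 1))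
      (fun i => Spec (CommRingCat.of (Away (gr R n) (MvPolynomial.X i : PRA.A R n))))
      (fun i => Proj.awayι (gr R n) (MvPolynomial.X i) (hx1 i) one_pos) (fun p => by
        obtain ⟨i, hi⟩ := exists_X p
        have h2 : (Proj.awayι (gr R n) (MvPolynomial.X i) (hx1 i) one_pos).opensRange =
            Proj.basicOpen (gr R n) (MvPolynomial.X i) := Proj.opensRange_awayι _ _ _ _
        rw [← h2] at hi
        obtain ⟨z, hz⟩ := hi
        exact ⟨i, z, hz⟩) (fun _ => inferInstance)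
  exact 𝒰.hom_ext a b h

lemma ss_qq : ss R n ≫ qq R n = 𝟙 _ := by
  have hirr : HomogeneousIdeal.irrelevant (gr R n) ≤
      (HomogeneousIdeal.irrelevant (gr R n)).map ((sr R n).comp (fr R n)) := by
    rw [sr_comp_fr]
    simp
  refine hom_ext_PS _ _ (fun i => sr R n (fr R n (MvPolynomial.X i))) (fun i => sr_fr _)
    (fun i => (sr R n).map_mem ((fr R n).map_mem (tX_mem R n i))) (fun i => ?_)
  have h1 : Proj.awayι (gr R n) (sr R n (fr R n (MvPolynomial.X i)))
      ((sr R n).map_mem ((fr R n).map_mem (tX_mem R n i))) one_pos ≫ ss R n =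
      Spec.map (CommRingCat.ofHom (Away.map (sr R n) (fr R n (MvPolynomial.X i)))) ≫
        cc R n i := by
    rw [← cancel_mono (OO R n).ι, Category.assoc, ss_ι, Category.assoc, cc_ι]
    exact Proj.awayι_comp_map (sr R n) irr_le one_pos _ ((fr R n).map_mem (tX_mem R n i))
  have h2 := Proj.awayι_comp_map ((sr R n).comp (fr R n)) hirr one_pos
    (MvPolynomial.X i : PRA.A R n) (tX_mem R n i)
  rw [map_id' _ sr_comp_fr hirr] at h2
  rw [← Category.assoc, h1, Category.assoc, cc_qq, ← Category.assoc, ← Spec.map_comp,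
    ← CommRingCat.ofHom_comp]
  rw [Away.map_comp] at h2
  exact h2.symm

/-! ### The affine space without the origin -/

/-- dehomogenisation -/
noncomputable def th (R : Type) [CommRing R] (n : ℕ) :
    Away (gr R (n + 1)) (MvPolynomial.X 0 : PRA.A R (n + 1)) →+* PRA.A R n :=
  PRA.φ (R := R) (0 : Fin (n + 1 + 1))

lemma th_bij : Function.Bijective (th R n) := by
  constructor
  · intro z z' hz
    have h1 := PRA.σφ (R := R) (0 : Fin (n + 1 + 1)) ⊥ (fun j hj => absurd hj (Fin.not_lt_zero j)) z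
    have h2 := PRA.σφ (R := R) (0 : Fin (n + 1 + 1)) ⊥ (fun j hj => absurd hj (Fin.not_lt_zero j)) z'
    rw [Ideal.mem_bot, sub_eq_zero] at h1 h2
    rw [h1, h2]
    exact congrArg _ hz
  · exact PRA.φ_surjective (R := R) (0 : Fin (n + 1 + 1))

lemma e_fr (a : PRA.A R n) :
    (PRA.e (R := R) (0 : Fin (n + 1 + 1)) (fr R n a) : PRA.A R n) = a := by
  have h : (PRA.e (R := R) (0 : Fin (n + 1 + 1))).toRingHom.comp (fr R n).toRingHom =
      RingHom.id (PRA.A R n) := by
    apply MvPolynomial.ringHom_ext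
    · intro c
      change PRA.e (R := R) (0 : Fin (n + 1 + 1)) (fr R n (MvPolynomial.C c)) = MvPolynomial.C c
      rw [fr_C, PRA.e_C]
    · intro j
      change PRA.e (R := R) (0 : Fin (n + 1 + 1)) (fr R n (MvPolynomial.X j)) = MvPolynomial.X j
      rw [fr_X, PRA.e_X]
      have h1 : PRA.ix (0 : Fin (n + 1 + 1)) j = j.succ := by
        ext
        change 0 + 1 + j.1 = j.1 + 1
        omega
      rw [← h1]
      exact PRA.ev_ix (R := R) (0 : Fin (n + 1 + 1)) j
  exact RingHom.congr_fun h a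

lemma th_elem {a : PRA.A R n} {e : ℕ} (ha : a ∈ gr R n e) :
    th R n (Away.isLocalizationElem (tX_mem R (n + 1) 0) ((fr R n).map_mem ha)) = a := by
  have h1 : Away.isLocalizationElem (tX_mem R (n + 1) 0) ((fr R n).map_mem ha) =
      PRA.δ (R := R) (0 : Fin (n + 1 + 1)) (fr R n a) := by
    rw [PRA.δ_eq (R := R) (0 : Fin (n + 1 + 1)) (fr R n a) ((fr R n).map_mem ha)
      (by rw [smul_eq_mul, mul_one]; exact (fr R n).map_mem ha)]
    apply val_injective
    rw [Away.val_mk, Away.val_mk, pow_one]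
    rfl
  rw [h1]
  exact (PRA.φ_δ (R := R) (0 : Fin (n + 1 + 1)) (fr R n a)).trans (e_fr a)

lemma th_sca (c : R) : th R n (sca c) = MvPolynomial.C c :=
  PRA.φ_sc (R := R) (0 : Fin (n + 1 + 1)) c

instance : IsIso (Spec.map (CommRingCat.ofHom (th R n))) := by
  have : IsIso (CommRingCat.ofHom (th R n)) :=
    (ConcreteCategory.isIso_iff_bijective (CommRingCat.ofHom (th R n))).2 th_bij
  infer_instance

/-- the affine space as an open subscheme of the projective space -/
noncomputable def ka (R : Type) [CommRing R] (n : ℕ) :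
    Spec (CommRingCat.of (PRA.A R n)) ⟶ PS R (n + 1) :=
  Spec.map (CommRingCat.ofHom (th R n)) ≫
    Proj.awayι (gr R (n + 1)) (MvPolynomial.X 0) (tX_mem R (n + 1) 0) one_pos

instance : IsOpenImmersion (ka R n) := by
  unfold ka
  infer_instance

lemma ka_mem {a : PRA.A R n} {e : ℕ} (ha : a ∈ gr R n e) (he : 0 < e)
    (p : Spec (CommRingCat.of (PRA.A R n))) :
    ka R n p ∈ Proj.basicOpen (gr R (n + 1)) (fr R n a) ↔
      a ∉ (p : PrimeSpectrum (PRA.A R n)).asIdeal := by
  have h1 := mem_ch (tX_mem R (n + 1) 0) one_pos ((fr R n).map_mem ha) he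
    (Spec.map (CommRingCat.ofHom (th R n)) p)
  rw [ka, Scheme.Hom.comp_apply]
  refine h1.trans ?_
  have h2 : th R n (Away.isLocalizationElem (tX_mem R (n + 1) 0) ((fr R n).map_mem ha)) ∉
      (p : PrimeSpectrum (PRA.A R n)).asIdeal ↔ a ∉ (p : PrimeSpectrum (PRA.A R n)).asIdeal := by
    rw [th_elem ha]
  exact h2

lemma ka_range (x : PS R (n + 1)) :
    x ∈ Set.range (ka R n) ↔ x ∈ Proj.basicOpen (gr R (n + 1)) (MvPolynomial.X 0) := by
  have h2 : (Proj.awayι (gr R (n + 1)) (MvPolynomial.X 0) (tX_mem R (n + 1) 0)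
      one_pos).opensRange = Proj.basicOpen (gr R (n + 1)) (MvPolynomial.X 0) :=
    Proj.opensRange_awayι _ _ _ _
  rw [← h2]
  constructor
  · rintro ⟨p, rfl⟩
    exact ⟨Spec.map (CommRingCat.ofHom (th R n)) p, rfl⟩
  · rintro ⟨z, hz⟩
    obtain ⟨p, hp⟩ := (Spec.map (CommRingCat.ofHom (th R n))).surjective z
    refine ⟨p, ?_⟩
    rw [ka, Scheme.Hom.comp_apply, hp]
    exact hz

lemma ka_comm : ka R n ≫ PSf k R (n + 1) =
    Spec.map (CommRingCat.ofHom (algebraMap k (PRA.A R n))) := by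
  rw [ka, Category.assoc, awayι_PSf, ← Spec.map_comp, ← CommRingCat.ofHom_comp]
  congr 2
  apply RingHom.ext
  intro c
  exact th_sca _

/-! ### Points of the projective space -/

lemma mem_iff_of {x y : PS R n} (h : ∀ (e : ℕ) (a : PRA.A R n), 0 < e → a ∈ gr R n e →
    (x ∈ Proj.basicOpen (gr R n) a ↔ y ∈ Proj.basicOpen (gr R n) a)) : x = y := by
  have key : ∀ (x y : PS R n), (∀ (e : ℕ) (a : PRA.A R n), 0 < e → a ∈ gr R n e →
      (x ∈ Proj.basicOpen (gr R n) a ↔ y ∈ Proj.basicOpen (gr R n) a)) →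
      ∀ a : PRA.A R n, a ∈ (show ProjectiveSpectrum (gr R n) from x).asHomogeneousIdeal →
        a ∈ (show ProjectiveSpectrum (gr R n) from y).asHomogeneousIdeal := by
    intro x y h a ha
    obtain ⟨i, hi⟩ := exists_X y
    rw [← HomogeneousIdeal.mem_iff] at ha ⊢
    have hy := (show ProjectiveSpectrum (gr R n) from y).isPrime
    rw [((show ProjectiveSpectrum (gr R n) from y).asHomogeneousIdeal).2.mem_iff]
    intro e
    have h1 := ((show ProjectiveSpectrum (gr R n) from x).asHomogeneousIdeal).2 e ha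
    have h2 : (DirectSum.decompose (gr R n) a e : PRA.A R n) * MvPolynomial.X i ∈
        gr R n (e + 1) := SetLike.mul_mem_graded (SetLike.coe_mem _) (tX_mem R n i)
    have h3 := h (e + 1) _ (Nat.succ_pos e) h2
    have h4 : x ∉ Proj.basicOpen (gr R n)
        ((DirectSum.decompose (gr R n) a e : PRA.A R n) * MvPolynomial.X i) := by
      rw [Proj.mem_basicOpen, not_not]
      exact Ideal.mul_mem_right _ _ h1
    rw [h3, Proj.mem_basicOpen, not_not] at h4
    rcases hy.mem_or_mem h4 with h5 | h5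
    · exact h5
    · exact absurd h5 hi
  apply ProjectiveSpectrum.ext
  apply HomogeneousIdeal.ext
  ext a
  exact ⟨key x y h a, key y x (fun e a he ha => (h e a he ha).symm) a⟩

/-! ### The local structure -/

lemma elem_congr {s a b : PRA.A R n} {d e : ℕ} (hs : s ∈ gr R n d) (ha : a ∈ gr R n e)
    (hab : a = b) (hb : b ∈ gr R n e) :
    Away.isLocalizationElem hs ha = Away.isLocalizationElem hs hb := by
  subst hab
  rfl

open Polynomial in
lemma loc_aux (x : PS R n) :
    ∃ (W V : Var k) (L : Line W V) (l : OpenIn W (YV k R n)) (j : OpenIn V (PV k R n)),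
      IsPullback L.q l.g j.g (qq R n) ∧ x ∈ Set.range j.g := by
  obtain ⟨i, hi⟩ := exists_X x
  obtain ⟨e, he⟩ := exists_polyEquiv i (fr R n (MvPolynomial.X i)) (fr_X i)
    ((fr R n).map_mem (tX_mem R n i)) (Away.map (fr R n) (MvPolynomial.X i))
    (fun c => map_sca c) (fun j => (map_elem (fr R n) (tX_mem R n i) (tX_mem R n j)).trans
      (elem_congr _ _ (fr_X j) _))
  let _ : Algebra k (PRA.S R i) := ((PRA.sc (R := R) i).comp (algebraMap k R)).toAlgebra
  have : Algebra.FiniteType k (PRA.S R i) := by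
    let g : PRA.A R n →ₐ[k] PRA.S R i :=
      { PRA.δ (R := R) i with
        commutes' := fun r => PRA.δ_C (R := R) i (algebraMap k R r) }
    refine Algebra.FiniteType.of_surjective g ?_
    intro z
    obtain ⟨N, a, -, h⟩ := PRA.exists_δ i z
    exact ⟨a, h⟩
  have hiso : IsIso (Spec.map (CommRingCat.ofHom e.symm.toRingHom)) := by
    have : IsIso (CommRingCat.ofHom e.symm.toRingHom) :=
      (ConcreteCategory.isIso_iff_bijective (CommRingCat.ofHom e.symm.toRingHom)).2
        e.symm.bijective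
    infer_instance
  let L : Line (aff k (PRA.S R i)[X]) (aff k (PRA.S R i)) :=
    lineE (CC k (PRA.S R i)) (RingEquiv.refl _) (fun _ => rfl)
  let j : OpenIn (aff k (PRA.S R i)) (PV k R n) :=
    ⟨Proj.awayι (gr R n) (MvPolynomial.X i) (tX_mem R n i) one_pos,
      awayι_PSf (tX_mem R n i) one_pos,
      (inferInstance : IsOpenImmersion (Proj.awayι (gr R n) (MvPolynomial.X i)
        (tX_mem R n i) one_pos))⟩
  have hlq : (Spec.map (CommRingCat.ofHom e.symm.toRingHom) ≫ cc R n i) ≫ qq R n =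
      Spec.map (CommRingCat.ofHom (C : PRA.S R i →+* (PRA.S R i)[X])) ≫
        Proj.awayι (gr R n) (MvPolynomial.X i) (tX_mem R n i) one_pos := by
    have h1 : e.symm.toRingHom.comp (Away.map (fr R n) (MvPolynomial.X i)) =
        (C : PRA.S R i →+* (PRA.S R i)[X]) := by
      apply RingHom.ext
      intro a
      change e.symm (Away.map (fr R n) (MvPolynomial.X i) a) = C a
      rw [← he, RingEquiv.symm_apply_apply]
    rw [Category.assoc, cc_qq, ← Category.assoc, ← Spec.map_comp, ← CommRingCat.ofHom_comp, h1]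
  have hlc : (Spec.map (CommRingCat.ofHom e.symm.toRingHom) ≫ cc R n i) ≫
      (OO R n).ι ≫ PSf k R (n + 1) =
        Spec.map (CommRingCat.ofHom (algebraMap k (PRA.S R i)[X])) := by
    rw [← qq_comm, ← Category.assoc, hlq, Category.assoc, awayι_PSf, ← Spec.map_comp,
      ← CommRingCat.ofHom_comp]
    rfl
  let l : OpenIn (aff k (PRA.S R i)[X]) (YV k R n) :=
    ⟨Spec.map (CommRingCat.ofHom e.symm.toRingHom) ≫ cc R n i, hlc,
      (inferInstance : IsOpenImmersion (Spec.map (CommRingCat.ofHom e.symm.toRingHom) ≫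
        cc R n i))⟩
  have hj : ∀ z : PS R n, z ∈ Set.range j.g ↔ z ∈ Proj.basicOpen (gr R n) (MvPolynomial.X i) := by
    intro z
    have h2 : (Proj.awayι (gr R n) (MvPolynomial.X i) (tX_mem R n i)
        one_pos).opensRange = Proj.basicOpen (gr R n) (MvPolynomial.X i) :=
      Proj.opensRange_awayι _ _ _ _
    rw [← h2]
    rfl
  have hjo : IsOpenImmersion j.g := j.isOpen
  have hlo : IsOpenImmersion l.g := l.isOpen
  refine ⟨_, _, L, l, j, ?_, (hj x).2 hi⟩
  refine IsOpenImmersion.isPullback L.q l.g j.g (qq R n) hlq ?_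
  ext y
  have h2 : (Proj.awayι (gr R (n + 1)) (fr R n (MvPolynomial.X i))
      ((fr R n).map_mem (tX_mem R n i)) one_pos).opensRange =
      Proj.basicOpen (gr R (n + 1)) (fr R n (MvPolynomial.X i)) := Proj.opensRange_awayι _ _ _ _
  have h3 : qq R n y ∈ Set.range j.g ↔ (OO R n).ι y ∈
      Proj.basicOpen (gr R (n + 1)) (fr R n (MvPolynomial.X i)) :=
    (hj _).trans (qq_mem (tX_mem R n i) one_pos y)
  have h4 : y ∈ Set.range l.g ↔ (OO R n).ι y ∈
      Proj.basicOpen (gr R (n + 1)) (fr R n (MvPolynomial.X i)) := by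
    rw [← h2]
    constructor
    · rintro ⟨z, rfl⟩
      refine ⟨Spec.map (CommRingCat.ofHom e.symm.toRingHom) z, ?_⟩
      rw [← cc_ι]
      rfl
    · rintro ⟨z, hz⟩
      obtain ⟨p, hp⟩ := (Spec.map (CommRingCat.ofHom e.symm.toRingHom)).surjective z
      refine ⟨p, ?_⟩
      apply (OO R n).ι.isOpenEmbedding.injective
      rw [← hz, ← cc_ι, ← hp]
      rfl
  exact h3.trans h4.symm

/-- the bundle -/
noncomputable def bu (k R : Type) [Field k] [CommRing R] [Algebra k R] [Algebra.FiniteType k R]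
    (n : ℕ) : Bun (YV k R n) (PV k R n) where
  q := qq R n
  comm := qq_comm
  loc := loc_aux

/-! ### The zero section and its complement -/

lemma ss_comm : ss R n ≫ (OO R n).ι ≫ PSf k R (n + 1) = PSf k R n := by
  rw [← qq_comm, ← Category.assoc, ss_qq, Category.id_comp]

lemma sep_qq (k R : Type) [Field k] [CommRing R] [Algebra k R] [Algebra.FiniteType k R]
    (n : ℕ) : IsSeparated (qq R n) := by
  have h1 : IsSeparated ((OO R n).ι ≫ PSf k R (n + 1)) := (YV k R n).sep
  rw [← qq_comm] at h1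
  exact IsSeparated.of_comp (qq R n) (PSf k R n)

lemma closed_ss (k R : Type) [Field k] [CommRing R] [Algebra k R] [Algebra.FiniteType k R]
    (n : ℕ) : IsClosedImmersion (ss R n) := by
  have h1 := sep_qq k R n
  have h2 : IsClosedImmersion (ss R n ≫ qq R n) := by
    rw [ss_qq]
    infer_instance
  exact IsClosedImmersion.of_comp (ss R n) (qq R n)

/-- the open subset `x_0 ≠ 0` -/
noncomputable def VV (R : Type) [CommRing R] (n : ℕ) : (OO R n).toScheme.Opens :=
  (OO R n).ι ⁻¹ᵁ Proj.basicOpen (gr R (n + 1)) (MvPolynomial.X 0)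

lemma mem_VV (y : (OO R n).toScheme) : y ∈ VV R n ↔
    (OO R n).ι y ∈ Proj.basicOpen (gr R (n + 1)) (MvPolynomial.X 0) := Iff.rfl

lemma ss_compl (y : (OO R n).toScheme) : y ∈ Set.range (ss R n) ↔ y ∉ VV R n := by
  constructor
  · rintro ⟨p, rfl⟩ h
    rw [mem_VV, ← Scheme.Hom.comp_apply, ss_ι, s0_mem, sr_X0, Proj.basicOpen_zero] at h
    exact h
  · intro h
    rw [mem_VV, Proj.mem_basicOpen, not_not] at h
    refine ⟨qq R n y, ?_⟩
    apply (OO R n).ι.isOpenEmbedding.injective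
    rw [← Scheme.Hom.comp_apply, ss_ι]
    apply mem_iff_of
    intro e a he ha
    have ha' : sr R n a ∈ gr R n e := (sr R n).map_mem ha
    rw [s0_mem, qq_mem ha' he, Proj.mem_basicOpen, Proj.mem_basicOpen, not_iff_not]
    have h1 := fr_sr _ h a
    constructor
    · intro h2
      have h3 := add_mem h1 h2
      rwa [sub_add_cancel] at h3
    · intro h2
      have h3 := Ideal.sub_mem _ h2 h1
      rwa [sub_sub_cancel] at h3

lemma range_VV : Set.range ((VV R n).ι ≫ (OO R n).ι) ⊆ Set.range (ka R n) := by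
  rintro _ ⟨u, rfl⟩
  rw [ka_range, Scheme.Hom.comp_apply, ← mem_VV]
  have : (VV R n).ι u ∈ Set.range (VV R n).ι := ⟨u, rfl⟩
  rwa [Scheme.Opens.range_ι] at this

/-- the morphism to the affine space -/
noncomputable def cv (R : Type) [CommRing R] (n : ℕ) :
    (VV R n).toScheme ⟶ Spec (CommRingCat.of (PRA.A R n)) :=
  IsOpenImmersion.lift (ka R n) ((VV R n).ι ≫ (OO R n).ι) range_VV

lemma cv_ka : cv R n ≫ ka R n = (VV R n).ι ≫ (OO R n).ι := IsOpenImmersion.lift_fac _ _ _

lemma cv_ka' (u : (VV R n).toScheme) : ka R n (cv R n u) = (OO R n).ι ((VV R n).ι u) := by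
  rw [← Scheme.Hom.comp_apply, cv_ka, Scheme.Hom.comp_apply]

lemma cv_comm : cv R n ≫ Spec.map (CommRingCat.ofHom (algebraMap k (PRA.A R n))) =
    (VV R n).ι ≫ (OO R n).ι ≫ PSf k R (n + 1) := by
  rw [← ka_comm, ← Category.assoc, cv_ka, Category.assoc]

lemma open_cv : IsOpenImmersion (cv R n) := by
  have : IsOpenImmersion (cv R n ≫ ka R n) := by
    rw [cv_ka]
    infer_instance
  exact IsOpenImmersion.of_comp (cv R n) (ka R n)

lemma cv_range (p : Spec (CommRingCat.of (PRA.A R n))) : (∃ u, cv R n u = p) ↔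
    ∃ l : Fin (n + 1), (MvPolynomial.X l : PRA.A R n) ∉ (p : PrimeSpectrum (PRA.A R n)).asIdeal := by
  constructor
  · rintro ⟨u, rfl⟩
    have h1 : (OO R n).ι ((VV R n).ι u) ∈ OO R n := by
      have : (OO R n).ι ((VV R n).ι u) ∈ Set.range (OO R n).ι := ⟨_, rfl⟩
      rwa [Scheme.Opens.range_ι] at this
    obtain ⟨l, hl⟩ := (mem_OO R n _).1 h1
    rw [← cv_ka'] at hl
    exact ⟨l, (ka_mem (tX_mem R n l) one_pos _).1 hl⟩
  · rintro ⟨l, hl⟩
    have h1 : ka R n p ∈ OO R n :=
      (mem_OO R n _).2 ⟨l, (ka_mem (tX_mem R n l) one_pos _).2 hl⟩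
    have h2 : ka R n p ∈ Set.range (OO R n).ι := by
      rw [Scheme.Opens.range_ι]
      exact h1
    obtain ⟨y, hy⟩ := h2
    have h3 : y ∈ VV R n := by
      rw [mem_VV, hy, ← ka_range]
      exact ⟨p, rfl⟩
    have h4 : y ∈ Set.range (VV R n).ι := by
      rw [Scheme.Opens.range_ι]
      exact h3
    obtain ⟨u, hu⟩ := h4
    refine ⟨u, ?_⟩
    apply (ka R n).isOpenEmbedding.injective
    rw [cv_ka', hu, hy]

lemma cv_point_pos (u : (VV R n).toScheme) {m : ℕ} (hm : 0 < m) {f : PRA.A R n}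
    (hf : f ∈ gr R n m) :
    f ∈ (show ProjectiveSpectrum (gr R n) from
      qq R n ((VV R n).ι u)).asHomogeneousIdeal.toIdeal ↔
      f ∈ (show PrimeSpectrum (PRA.A R n) from cv R n u).asIdeal := by
  have h1 := qq_mem hf hm ((VV R n).ι u)
  rw [← cv_ka'] at h1
  have h2 := h1.trans (ka_mem hf hm (cv R n u))
  rw [Proj.mem_basicOpen] at h2
  exact not_iff_not.1 h2

lemma cv_point (u : (VV R n).toScheme) {m : ℕ} {f : PRA.A R n} (hf : f ∈ gr R n m) :
    f ∈ (show ProjectiveSpectrum (gr R n) from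
      qq R n ((VV R n).ι u)).asHomogeneousIdeal.toIdeal ↔
      f ∈ (show PrimeSpectrum (PRA.A R n) from cv R n u).asIdeal := by
  obtain ⟨l, hl⟩ := (cv_range (cv R n u)).1 ⟨u, rfl⟩
  have hl' := mt (cv_point_pos u one_pos (tX_mem R n l)).1 hl
  have h1 := cv_point_pos u (Nat.succ_pos m) (SetLike.mul_mem_graded hf (tX_mem R n l))
  have p1 := (show ProjectiveSpectrum (gr R n) from qq R n ((VV R n).ι u)).isPrime
  have p2 := (show PrimeSpectrum (PRA.A R n) from cv R n u).isPrime
  constructor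
  · intro h
    exact (p2.mem_or_mem (h1.1 (Ideal.mul_mem_right _ _ h))).resolve_right hl
  · intro h
    exact (p1.mem_or_mem (h1.2 (Ideal.mul_mem_right _ _ h))).resolve_right hl'

end Main

end UNI

attribute [local instance] MvPolynomial.gradedAlgebra

open _root_.QCV.UNI in
/-- **UNI**: the line bundle `O(1)` over the projective space. -/
theorem t_UNI : S_UNI := by
  intro k R _ _ _ _ n
  let s : ClosedIn (PV k R n) (YV k R n) := ⟨ss R n, ss_comm, closed_ss k R n⟩
  let j : OpenIn (openVar (YV k R n) (VV R n)) (YV k R n) := openVarIn (YV k R n) (VV R n)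
  let c : OpenIn (openVar (YV k R n) (VV R n)) (aff k (MvPolynomial (Fin (n + 1)) R)) :=
    ⟨cv R n, cv_comm, open_cv⟩
  refine ⟨PV k R n, YV k R n, openVar (YV k R n) (VV R n), Iso.refl _, bu k R n, s, j, c,
    Category.id_comp _, ss_qq, ?_, cv_range, ?_⟩
  · refine Eq.trans ?_ (congrArg compl (range_openVarIn (YV k R n) (VV R n))).symm
    ext y
    exact ss_compl y
  · intro u m f hf
    exact cv_point u hf

end QCV


end
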