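import Mathlib
import Pool.Agent.QVM.C45
import Pool.Agent.QVM.C46
import Pool.Agent.QVM.C47
import Pool.Agent.QVM.C48
import Pool.Agent.QVM.C49
import Pool.Agent.QVM.C50
import Pool.Agent.QVM.C51
import Pool.Agent.QVM.C52
import Pool.Agent.QVM.C53
import Pool.Agent.QVM.C54
import Pool.Agent.QVM.C55
import Pool.Agent.QVM.C56
import Pool.Agent.QVM.C57
import Pool.Agent.QVM.C58

/-! Parts: QCV.O_OHYP, QCV.O_DFN, QCV.O_ODIA, QCV.O_OBCH, QCV.O_QVR, QCV.O_ASM, QCV.C_ASM, QCV.B_GM, QCV.Fin3, QCV.Fin4, QCV.Fin5, QCV.Asm3, QCV.StT, QCV.StU -/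

section

/-!
# QCV, module OHYP: the involution of the double cover of a hyperbolic plane
-/

set_option autoImplicit false

open CategoryTheory AlgebraicGeometry Polynomial

namespace QCV

open Pool.Agent.Lib_helper55.Beil Pool.Agent.Lib_helper66.OneP CUB

universe v

namespace OHYP

/-- The identity acts trivially. -/
lemma tr_refl {k E : Type} [Field k] [Field E] (T : ∀ i : ℕ, Homology.{v} k E i) (hT : Full T)
    (A : Type) [CommRing A] [Algebra k A] [Algebra.FiniteType k A] (i : ℕ) :
    TR T i A (AlgEquiv.refl : A ≃ₐ[k] A) := by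
  have hg : (autc (AlgEquiv.refl : A ≃ₐ[k] A)).g = 𝟙 (aff k A).X := spm_id
  refine ⟨fun n _ m => hT.push_id i n _ _ hg m, fun c => ?_⟩
  have h1 : ptsMap i (autc (AlgEquiv.refl : A ≃ₐ[k] A)) = id := by
    funext x
    apply Subtype.ext
    change (autc (AlgEquiv.refl : A ≃ₐ[k] A)).g x.1 = x.1
    rw [hg]
    rfl
  have h2 : pushCyc (autc (AlgEquiv.refl : A ≃ₐ[k] A)) c = c := by
    rw [pushCyc, h1, Finsupp.mapDomain_id]
  rw [h2, sub_self]
  exact Submodule.zero_mem _

end OHYP

theorem t_OHYP : M_OHYP.{v} := by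
  intro hN hG hR k E _ _ _ T hT S _ _ _ c i h
  obtain ⟨z, u, tZ, tU, hS, hz, hu, hZC, hUC⟩ := hR k S c
  haveI h1 : Algebra.FiniteType S[X] (Localization.Away (X : S[X])) :=
    IsLocalization.finiteType_of_monoid_fg (Submonoid.powers (X : S[X])) _
  haveI h2 : Algebra.FiniteType k (Localization.Away (X : S[X])) :=
    Algebra.FiniteType.trans (S := S[X]) inferInstance h1
  refine hG k E T hT (HW S c) (Dr S 0 c)[X] (Localization.Away (X : S[X]))[X] _ z u (dinv _ _ k)
    tZ tU hS (dinv_dinv _ _ k) hz hu (i + 1) ?_ ?_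
  · exact hN k E T hT (Dr S 0 c) (dinv 0 c k) tZ hZC i h
  · exact hN k E T hT (Localization.Away (X : S[X])) AlgEquiv.refl tU (fun a => hUC a) i
      (OHYP.tr_refl T hT _ i)

end QCV


end

section

/-!
# QCV, module DFN (helper92): functoriality of `A[t] / (t ^ 2 + b t + c)`
-/

set_option autoImplicit false

open CategoryTheory AlgebraicGeometry Polynomial

namespace QCV

open Pool.Agent.Lib_helper55.Beil Pool.Agent.Lib_helper66.OneP CUB

theorem t_DFN : S_DFN := by
  intro k S S' _ _ _ _ _ e b c b' c' hb hc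
  have h : (dpoly b c).map (e : S →+* S') = dpoly b' c' := by
    unfold dpoly
    rw [Polynomial.map_add, Polynomial.map_add, Polynomial.map_mul, Polynomial.map_pow,
      Polynomial.map_X, Polynomial.map_C, Polynomial.map_C]
    have h1 : (e : S →+* S') b = b' := hb
    have h2 : (e : S →+* S') c = c' := hc
    rw [h1, h2]
  have h' : Associated ((dpoly b c).map (e : S →+* S')) (dpoly b' c') := by rw [h]
  refine ⟨AdjoinRoot.mapAlgEquiv e (dpoly b c) (dpoly b' c') h', fun s => ?_, ?_⟩
  · exact AdjoinRoot.map_of (e : S →+* S') (dpoly b c) (dpoly b' c') h'.symm.dvd s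
  · exact AdjoinRoot.map_root (e : S →+* S') (dpoly b c) (dpoly b' c') h'.symm.dvd

end QCV


end

section

/-!
# QCV, module ODIA: induction on the number of hyperbolic planes
-/

set_option autoImplicit false

open CategoryTheory AlgebraicGeometry Polynomial

namespace QCV

open Pool.Agent.Lib_helper55.Beil Pool.Agent.Lib_helper66.OneP CUB

universe v

namespace ODIA

/-- the involution `t ↦ - t` is trivial modulo the root -/
lemma rt_dvd (k : Type) [Field k] {S : Type} [CommRing S] [Algebra k S] (c : S) (x : Dr S 0 c) :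
    rt 0 c ∣ dinv 0 c k x - x := by
  induction x using AdjoinRoot.induction_on with
  | ih f =>
    induction f using Polynomial.induction_on' with
    | add p q hp hq =>
      rw [map_add, map_add]
      have h := dvd_add hp hq
      have e : dinv 0 c k (AdjoinRoot.mk (dpoly 0 c) p) + dinv 0 c k (AdjoinRoot.mk (dpoly 0 c) q) -
          (AdjoinRoot.mk (dpoly 0 c) p + AdjoinRoot.mk (dpoly 0 c) q) =
          dinv 0 c k (AdjoinRoot.mk (dpoly 0 c) p) - AdjoinRoot.mk (dpoly 0 c) p +
          (dinv 0 c k (AdjoinRoot.mk (dpoly 0 c) q) - AdjoinRoot.mk (dpoly 0 c) q) := by ring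
      rw [e]
      exact h
    | monomial n a =>
      have e : AdjoinRoot.mk (dpoly 0 c) (Polynomial.monomial n a) =
          algebraMap S (Dr S 0 c) a * rt 0 c ^ n := by
        rw [← Polynomial.C_mul_X_pow_eq_monomial, map_mul, map_pow]
        rfl
      rw [e, map_mul, map_pow, dinv_of, dinv_rt, map_zero, neg_zero, zero_sub, ← mul_sub]
      apply Dvd.dvd.mul_left
      rcases Nat.eq_zero_or_pos n with h | h
      · subst h
        simp
      · obtain ⟨j, rfl⟩ := Nat.exists_eq_succ_of_ne_zero h.ne'
        rw [pow_succ, pow_succ]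
        exact dvd_sub (Dvd.dvd.mul_left (dvd_neg.2 dvd_rfl) _) (Dvd.dvd.mul_left dvd_rfl _)

lemma nil (k : Type) [Field k] {S : Type} [CommRing S] [Algebra k S] (c : S) (hc : c = 0)
    (x : Dr S 0 c) : IsNilpotent (dinv 0 c k x - x) := by
  obtain ⟨y, hy⟩ := rt_dvd k c x
  refine ⟨2, ?_⟩
  have h := rt_eq (0 : S) c
  rw [hy, mul_pow]
  have h2 : rt 0 c ^ 2 = 0 := by
    rw [hc, map_zero, zero_mul, add_zero, add_zero] at h
    rw [hc]
    exact h
  rw [h2, zero_mul]

/-- one hyperbolic plane -/
lemma step (hOISO : S_OISO.{v}) (hODCV : S_ODCV.{v}) (hOHYP : S_OHYP.{v}) (hORNG : S_ORNG)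
    (k E : Type) [Field k] [Field E] [CharZero E] (T : ∀ i : ℕ, Homology.{v} k E i)
    (hT : Full T) (hP : Pub T hT) (h2 : (2 : k) ≠ 0) (n : ℕ) (A : Type) [CommRing A] [Algebra k A]
    [Algebra.FiniteType k A] (a : Fin (n + 2) → A) (ha : ∀ j, IsUnit (a j)) (δ : A)
    (hδ : δ * a 0 = a 1) (i : ℕ)
    (h : TR T i (Dr (MvPolynomial (Fin n) (Dr A 0 δ)) 0
      (dia fun j => algebraMap A (Dr A 0 δ) (a j.succ.succ))) (dinv 0 _ k)) :
    TR T (i + 1) (Dr (MvPolynomial (Fin (n + 2)) A) 0 (dia a)) (dinv 0 (dia a) k) := by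
  obtain ⟨e, t', h1, h3⟩ := hORNG k A n a δ h2 (ha 0) (ha 1) hδ
  have g1 := hOHYP k E T hT (MvPolynomial (Fin n) (Dr A 0 δ))
    (dia fun j => algebraMap A (Dr A 0 δ) (a j.succ.succ)) i h
  have g2 := hOISO k E T hT _ _ (dinv _ _ k) t' e.symm (fun y => by
    apply e.injective
    rw [h3, AlgEquiv.apply_symm_apply, AlgEquiv.apply_symm_apply]) (i + 1) g1
  exact hODCV k E T hT hP _ 0 (algebraMap (MvPolynomial (Fin (n + 2)) A) _ (MvPolynomial.C δ))
    (dinv 0 (dia a) k) t' h1 (i + 1) g2

end ODIA

open _root_.QCV.ODIA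

theorem t_ODIA : M_ODIA.{v} := by
  intro hONIL hOISO hODCV hOHYP hORNG k E _ _ _ T hT hP h2 m
  induction m with
  | zero =>
    intro A _ _ _ a _ i _
    have hc : dia a = 0 := by
      unfold dia
      exact Finset.sum_eq_zero (fun j _ => absurd j.2 (by omega))
    exact hONIL k E T hT _ (dinv 0 (dia a) k) (nil k (dia a) hc) i
  | succ m ih =>
    intro A _ _ _ a ha i hi
    obtain ⟨i', rfl⟩ : ∃ i', i = i' + 1 := ⟨i - 1, by omega⟩
    have hu0 : IsUnit (a (0 : Fin (2 * m + 2))) := ha _
    obtain ⟨u, hu⟩ := hu0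
    refine step hOISO hODCV hOHYP hORNG k E T hT hP h2 (2 * m) A a ha
      (a (1 : Fin (2 * m + 2)) * ↑u⁻¹) ?_ i' ?_
    · rw [← hu, mul_assoc, Units.inv_mul, mul_one]
    · exact ih (Dr A 0 _) _ (fun j => (ha _).map _) i' (by omega)

end QCV


end

section

/-!
# QCV, module OBCH: more variables in the base
-/

set_option autoImplicit false

open Polynomial

namespace QCV

theorem t_OBCH : M_OBCH := by
  intro hDFN hDMV k A _ _ _ n m b
  let e : MvPolynomial (Fin n) (MvPolynomial (Fin m) A) ≃ₐ[k]
      MvPolynomial (Fin m) (MvPolynomial (Fin n) A) :=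
    (MvPolynomial.commAlgEquiv A (Fin n) (Fin m)).restrictScalars k
  have he : ∀ p, e p = MvPolynomial.commAlgEquiv A (Fin n) (Fin m) p := fun _ => rfl
  have hc : e (dia fun j => MvPolynomial.C (b j)) = MvPolynomial.C (dia b) := by
    rw [he]
    simp only [dia, map_sum, map_mul, map_pow, MvPolynomial.commAlgEquiv_C,
      MvPolynomial.commAlgEquiv_X, MvPolynomial.map_C]
  have h0 : e 0 = MvPolynomial.C 0 := by rw [map_zero, map_zero]
  obtain ⟨e', -, -⟩ := hDFN k _ _ e 0 (dia fun j => MvPolynomial.C (b j)) (MvPolynomial.C 0)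
    (MvPolynomial.C (dia b)) h0 hc
  obtain ⟨e'', -, -⟩ := hDMV k (MvPolynomial (Fin n) A) (Fin m) 0 (dia b)
  exact ⟨e'.trans e''⟩

end QCV


end

section

/-!
# QCV, module QVR
-/

set_option autoImplicit false

open Polynomial

namespace QCV

open CUB

theorem t_QVR : M_QVR := by
  intro hQNO k _ P d h2 hP hO R _ _ _ n q e f hed hqe hDL hf hodd
  have hS' : P (MvPolynomial (Fin q) (MvPolynomial (Fin n) R)) :=
    (Asm.s_PLY k P hP.toCls0 hP.line _ q).1 ((Asm.s_PLY k P hP.toCls0 hP.line R n).1
      (hP.base R (hDL.mono hed)))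
  have h1 : P (MvPolynomial (Fin q) (MvPolynomial (Fin n) R) ⧸ Ideal.span {fs f}) :=
    hQNO k P d h2 hP hO R n q e f hed hqe hDL hf hodd
  have h3 := Asm.s_V1P k P hP.toCls0 hP.line (MvPolynomial (Fin q) (MvPolynomial (Fin n) R))
    (fs f) hS' h1
  have h4 := Asm.s_VRP k P d e n q hP hed (by omega) R (fun j : Fin q => f j.succ) hDL
    (fun j => (hf _).totalDegree_le)
  obtain ⟨z', u', hs⟩ := Asm.s_VRQ k (MvPolynomial (Fin n) R) q f
  exact hP.glue _ z' u' hs h4 h3

end QCV


end

section

/-!
# QCV, block O: assembly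
-/

set_option autoImplicit false

namespace QCV

universe v

namespace Asm

theorem s_OHYP : S_OHYP.{v} := t_OHYP t_OLN t_OGLU t_OHYR

theorem s_ORNG : S_ORNG := t_ORNG t_DFN t_DSW t_DMV t_DTH

theorem s_ODIA : S_ODIA.{v} := t_ODIA t_ONIL t_OISO t_ODCV s_OHYP s_ORNG

theorem s_OLFT : S_OLFT := t_OLFT t_OPDN

theorem s_OPFD : S_OPFD.{v} := t_OPFD s_OLFT t_OKER

theorem s_OBCH : S_OBCH := t_OBCH t_DFN t_DMV

theorem s_OODD : S_OODD.{v} := t_OODD t_ONIL s_ODIA s_OPFD t_ODR s_OBCH

theorem s_QDS : S_QDS := t_QDS t_QDF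

theorem s_QOD : S_QOD := t_QOD s_QDS t_QDP t_QDL

theorem s_QNO : S_QNO := t_QNO s_QOD t_QSW

theorem s_QVR : S_QVR := t_QVR s_QNO

end Asm

end QCV


end

section

/-!
# QCV, block C: assembly
-/

set_option autoImplicit false

namespace QCV

namespace Asm

theorem s_QOP : S_QOP := t_QOP s_QOD

theorem s_HDE : S_HDE := t_HDE t_HCH

theorem s_AFF : S_AFF := t_AFF s_QOP t_LN1 s_HDE

theorem s_CUB : S_CUB := t_CUB s_AFF s_HDE t_CUH

end Asm

end QCV


end

section

/-!
# QCV, block B: the trivial line bundle
-/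

set_option autoImplicit false

open CategoryTheory AlgebraicGeometry Limits Polynomial

namespace QCV

open Pool.Agent.Lib_helper55.Beil CUB

variable {k : Type} [Field k]

/-- A product with the affine line as a line bundle. -/
def toBun {Y X : Var k} (L : Line Y X) : Bun Y X where
  q := L.q
  comm := L.comm
  loc := fun x => ⟨Y, X, L, ⟨𝟙 _, Category.id_comp _, inferInstance⟩,
    ⟨𝟙 _, Category.id_comp _, inferInstance⟩,
    IsPullback.of_vert_isIso ⟨by simp⟩, ⟨x, rfl⟩⟩

lemma gmCl_built (k : Type) [Field k] (d : ℕ) :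
    GmCl k (fun A [CommRing A] [Algebra k A] [Algebra.FiniteType k A] => Built k d (aff k A)) := by
  intro A _ _ _ h
  let φ : A[X] →ₐ[k] A := (Polynomial.aeval (0 : A)).restrictScalars k
  have hφ : Function.Surjective φ := fun x => ⟨C x, by
    change Polynomial.aeval (0 : A) (C x) = x
    rw [Polynomial.aeval_C]
    rfl⟩
  have hk : RingHom.ker φ.toRingHom = Ideal.span {(X : A[X])} := by
    ext p
    rw [RingHom.mem_ker, Ideal.mem_span_singleton, Polynomial.X_dvd_iff]
    change Polynomial.aeval (0 : A) p = 0 ↔ _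
    rw [← Polynomial.coeff_zero_eq_aeval_zero]
  have hu := isLocalization_awayHom (k := k) (X : A[X])
  refine Built.bundle (toBun (lineE (CC k A) (RingEquiv.refl _) (fun _ => rfl))) (clo φ hφ)
    (opn (awayHom k (X : A[X])) (isOpenImmersion_spm _ _ hu)) ?_ ?_ h
  · have h1 : φ.toRingHom.comp (CC k A).toRingHom = RingHom.id A := by
      ext x
      change Polynomial.aeval (0 : A) (C x) = x
      rw [Polynomial.aeval_C]
      rfl
    have h2 : Spec.map (CommRingCat.ofHom φ.toRingHom) ≫
        Spec.map (CommRingCat.ofHom (CC k A).toRingHom) = 𝟙 (Spec (CommRingCat.of A)) := by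
      rw [← Spec.map_comp, ← CommRingCat.ofHom_comp, h1]
      exact Spec.map_id _
    exact h2
  · exact complementary_away _ _ hu φ hφ hk

end QCV


end

section

/-!
# QCV: quadratic forms of odd generic rank and cubic hypersurfaces belong to the class
-/

set_option autoImplicit false

open CategoryTheory AlgebraicGeometry Polynomial

namespace QCV

open Pool.Agent.Lib_helper55.Beil CUB

theorem Asm.s_BCO : S_BCO := t_BCO t_UNI t_BPL

variable {k : Type} [Field k]

/-- If the affine cone over the projective variety `X` over `R` and `Spec R` belong to the class,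
then `X` belongs to the class. -/
theorem built_of_cone {R ι : Type} [CommRing R] [Algebra k R] [Algebra.FiniteType k R] {n d : ℕ}
    (hR : Built k d (aff k R)) (f : ι → MvPolynomial (Fin (n + 1)) R) (m : ι → ℕ)
    (hf : ∀ j, (f j).IsHomogeneous (m j)) (hm : ∀ j, 1 ≤ m j)
    (h : Built k d (aff k (MvPolynomial (Fin (n + 1)) R ⧸ Ideal.span (Set.range f))))
    {X : Var k} (S : ProjSub f X) : Built k d X :=
  Asm.s_BCO k (Built k d) (fun a j hc hX hZ => Built.cut a j hc hX hZ)
    (fun a b hab hX => built_same_range a b hab hX)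
    (fun B s j hs hc hU => Built.bundle B s j hs hc hU) R ι n f m hf hm hR h X S

lemma oddCl_built (k : Type) [Field k] (d : ℕ) :
    OddCl k (fun A [CommRing A] [Algebra k A] [Algebra.FiniteType k A] => Built k d (aff k A)) :=
  fun A _ _ _ m a ha h => Built.odd A m a ha h

/-- Affine varieties defined by `q + 1` quadratic forms whose generic linear combination has odd
rank, over a base of dimension at most `e`, `q + e ≤ d + 1`. -/
theorem built_odd {R : Type} [CommRing R] [Algebra k R] [Algebra.FiniteType k R] {n q e d : ℕ}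
    (h2 : (2 : k) ≠ 0) (hed : e ≤ d) (hq : q + e ≤ d + 1) (hR : (aff k R).DimLE e)
    (f : Fin (q + 1) → MvPolynomial (Fin n) R) (hf : ∀ j, (f j).IsHomogeneous 2)
    (ho : OddGen k e f) :
    Built k d (aff k (MvPolynomial (Fin n) R ⧸ Ideal.span (Set.range f))) :=
  Built.zeros _ q f (Asm.s_QVR k (fun A [CommRing A] [Algebra k A] [Algebra.FiniteType k A] =>
    Built k d (aff k A)) d h2 (cls_built k d) (oddCl_built k d) R n q e f hed hq
    ((dimLE_aff e).1 hR) hf ho)

/-- Projective varieties defined by `q + 1` quadratic forms whose generic linear combination has odd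
rank, over a base of dimension at most `e`, `q + e ≤ d + 1`. -/
theorem built_odd_proj {R : Type} [CommRing R] [Algebra k R] [Algebra.FiniteType k R]
    {n q e d : ℕ} (h2 : (2 : k) ≠ 0) (hed : e ≤ d) (hq : q + e ≤ d + 1) (hR : (aff k R).DimLE e)
    (f : Fin (q + 1) → MvPolynomial (Fin (n + 1)) R) (hf : ∀ j, (f j).IsHomogeneous 2)
    (ho : OddGen k e f) {X : Var k} (S : ProjSub f X) : Built k d X :=
  built_of_cone (Built.small _ fun x => (hR x).trans (by exact_mod_cast hed)) f (fun _ => 2) hf
    (fun _ => by norm_num) (built_odd h2 hed hq hR f hf ho) S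

/-- Projective varieties over the affine space `R[y_1, ..., y_a]` defined by a quadratic form of odd
generic rank, `e + a ≤ d + 1`. -/
theorem built_one_proj {R : Type} [CommRing R] [Algebra k R] [Algebra.FiniteType k R]
    {n a e d : ℕ} (h2 : (2 : k) ≠ 0) (hed : e ≤ d) (ha : e + a ≤ d + 1) (hR : (aff k R).DimLE e)
    (f : MvPolynomial (Fin (n + 1)) (MvPolynomial (Fin a) R)) (hf : f.IsHomogeneous 2)
    (ho : OddOne k e f) {X : Var k} (S : ProjSub (fun _ : Fin 1 => f) X) : Built k d X := by
  have hb : Built k d (aff k R) := Built.small _ fun x => (hR x).trans (by exact_mod_cast hed)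
  refine built_of_cone ?_ (fun _ : Fin 1 => f) (fun _ => 2) (fun _ => hf) (fun _ => by norm_num)
    ?_ S
  · exact (Asm.s_PLY k _ (cls_built k d).toCls0 (cls_built k d).line R a).1 hb
  · exact Asm.s_QOP k (fun A [CommRing A] [Algebra k A] [Algebra.FiniteType k A] =>
      Built k d (aff k A)) d h2 (cls_built k d) (oddCl_built k d) R (n + 1) a e f hed ha
      ((dimLE_aff e).1 hR) hf ho

/-- Cubic hypersurfaces which contain a linear subspace, with residual quadrics of odd generic
rank. -/
theorem built_cubic {R : Type} [CommRing R] [Algebra k R] [Algebra.FiniteType k R]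
    {a s e d : ℕ} (h2 : (2 : k) ≠ 0) (hed : e ≤ d) (ha : e + a ≤ d + 1) (hs : e + s ≤ d + 1)
    (hR : (aff k R).DimLE e) (G : MvPolynomial (Fin (s + 1)) (MvPolynomial (Fin (a + 1)) R))
    (hG : G.IsHomogeneous 2) (hG' : ∀ μ, (MvPolynomial.coeff μ G).IsHomogeneous (1 + μ 0))
    (ho : d < e + a → OddOne k e (MvPolynomial.map (sp (1 : R)).toRingHom G)) {X : Var k}
    (S : ProjSub (fun _ : Fin 1 => cub G) X) : Built k d X := by
  have hb : Built k d (aff k R) := Built.small _ fun x => (hR x).trans (by exact_mod_cast hed)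
  refine built_of_cone hb (fun _ : Fin 1 => cub G) (fun _ => 3) (fun _ => t_CUH R a s G hG hG')
    (fun _ => by norm_num) ?_ S
  exact Asm.s_CUB k (fun A [CommRing A] [Algebra k A] [Algebra.FiniteType k A] =>
      Built k d (aff k A)) d h2 (cls_built k d) (oddCl_built k d) (gmCl_built k d) R a s e G hed ha
      hs ((dimLE_aff e).1 hR) hG hG' ho

end QCV


end

section

/-!
# QCV: cubic hypersurfaces
-/

set_option autoImplicit false

open CategoryTheory AlgebraicGeometry Polynomial

namespace QCV

open Pool.Agent.Lib_helper55.Beil CUB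

lemma dl_field (k : Type) [Field k] : DL k k 0 := by
  intro p
  have h1 : Algebra.IsAlgebraic k (k ⧸ p.asIdeal) := inferInstance
  have h2 : Algebra.trdeg k (k ⧸ p.asIdeal) = 0 := trdeg_eq_zero
  change Algebra.trdeg k (k ⧸ p.asIdeal) ≤ _
  rw [h2, Nat.cast_zero]

section

variable {k : Type} [Field k]

lemma built_field (k : Type) [Field k] (d : ℕ) : Built k d (aff k k) :=
  Built.small _ (dimLE_of_DL ((dl_field k).mono (Nat.zero_le d)))

/-- The affine cone defined by a cubic form in `n` variables, `n ≤ d + 4`. -/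
theorem built_cubic_cone_of (hDFC : S_DFC) (hDRC : S_DRC) (hDCX : S_DCX) (hDDS : S_DDS)
    [PerfectField k] (h2 : (2 : k) ≠ 0) {n d : ℕ} (hd : 1 ≤ d) (hn : n ≤ d + 4)
    (F : MvPolynomial (Fin n) k) (hF : F.IsHomogeneous 3) :
    Built k d (aff k (MvPolynomial (Fin n) k ⧸ Ideal.span (Set.range fun _ : Fin 1 => F))) := by
  rcases hDFC k n F hF.totalDegree_le with h | h | ⟨l, q, hl, hq, h⟩
  · exact (Asm.s_PLY k (fun A [CommRing A] [Algebra k A] [Algebra.FiniteType k A] =>
      Built k d (aff k A)) (cls_built k d).toCls0 (cls_built k d).line k n).2.1 _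
      (fun _ : Fin 1 => F) (fun _ => h) (built_field k d)
  · obtain ⟨K', hK', a1, a2, ht, hfin, hP⟩ := hDCX k (fun A [CommRing A] [Algebra k A]
      [Algebra.FiniteType k A] => Built k d (aff k A)) d h2 (cls_built k d) (oddCl_built k d)
      (gmCl_built k d) hd n k F hn hF
    have h3 : a1 = a2 := by
      apply Algebra.algebra_ext
      intro r
      have h4 := @IsScalarTower.algebraMap_apply k k K' _ _ _ _ a2 a1 ht r
      exact h4
    subst h3
    exact hDDS k K' d n F h hP
  · subst h
    exact hDRC k (fun A [CommRing A] [Algebra k A] [Algebra.FiniteType k A] =>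
      Built k d (aff k A)) d (cls_built k d) k n l q ((dl_field k).mono (Nat.zero_le d)) hl hq

/-- Projective cubic hypersurfaces of dimension at most `d + 2`. -/
theorem built_cubic_proj_of (hDFC : S_DFC) (hDRC : S_DRC) (hDCX : S_DCX) (hDDS : S_DDS)
    [PerfectField k] (h2 : (2 : k) ≠ 0) {n d : ℕ} (hd : 1 ≤ d) (hn : n ≤ d + 3)
    (F : MvPolynomial (Fin (n + 1)) k) (hF : F.IsHomogeneous 3) {X : Var k}
    (S : ProjSub (fun _ : Fin 1 => F) X) : Built k d X :=
  built_of_cone (built_field k d) (fun _ : Fin 1 => F) (fun _ => 3) (fun _ => hF)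
    (fun _ => by norm_num)
    (built_cubic_cone_of hDFC hDRC hDCX hDDS h2 hd (by omega) F hF) S

/-- Affine hypersurfaces of degree at most three in `n` variables, `n ≤ d + 3`. -/
theorem built_cubic_affine_of (hDFC : S_DFC) (hDRC : S_DRC) (hDCX : S_DCX) (hDDS : S_DDS)
    (hDHG : S_DHG) [PerfectField k] (h2 : (2 : k) ≠ 0) {n d : ℕ} (hd : 1 ≤ d) (hn : n ≤ d + 3)
    (f : MvPolynomial (Fin n) k) (hf : f.totalDegree ≤ 3) :
    Built k d (aff k (MvPolynomial (Fin n) k ⧸ Ideal.span (Set.range fun _ : Fin 1 => f))) := by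
  obtain ⟨F, hF, hFf⟩ := hDHG k n 3 f hf
  have hFf : sp (1 : k) F = f := hFf
  subst hFf
  have h0 : (sp (0 : k) F).IsHomogeneous 3 := by
    have h := hF.aeval (Fin.cons (MvPolynomial.C (0 : k)) MvPolynomial.X :
      Fin (n + 1) → MvPolynomial (Fin n) k) (n := 1) ?_
    · rwa [one_mul] at h
    · intro i
      refine Fin.cases ?_ (fun j => ?_) i
      · rw [Fin.cons_zero, map_zero]
        exact MvPolynomial.isHomogeneous_zero _ _ _
      · rw [Fin.cons_succ]
        exact MvPolynomial.isHomogeneous_X _ _
  have h3 := (Asm.s_HDE k (fun A [CommRing A] [Algebra k A] [Algebra.FiniteType k A] =>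
      Built k d (aff k A)) (cls_built k d).toCls0 (cls_built k d).line (gmCl_built k d) k (Fin 1) n
      (fun _ => F) (fun _ => 3) (fun _ => hF)
      (built_cubic_cone_of hDFC hDRC hDCX hDDS h2 hd (by omega) (sp (0 : k) F) h0)).2
      (built_cubic_cone_of hDFC hDRC hDCX hDDS h2 hd (by omega) F hF)
  exact h3

end

end QCV


end

section

/-!
# QCV: quadratic forms of odd rank over integral bases of the class, uniruled varieties
-/

set_option autoImplicit false

open CategoryTheory AlgebraicGeometry Polynomial TopologicalSpace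

namespace QCV

open Pool.Agent.Lib_helper55.Beil Pool.Agent.Lib_helper66.OneP CUB

variable {k : Type} [Field k]

/-- The zero set of a quadratic form of odd generic rank over an integral affine variety of the class,
of dimension at most `d + 1`. -/
theorem built_odd_base {A : Type} [CommRing A] [IsDomain A] [Algebra k A] [Algebra.FiniteType k A]
    {n d : ℕ} (h2 : (2 : k) ≠ 0) (hA : (aff k A).DimLE (d + 1 : ℕ)) (hb : Built k d (aff k A))
    (f : MvPolynomial (Fin n) A) (hf : f.IsHomogeneous 2)
    (ho : Odd ((gram f).map (algebraMap A (FractionRing A))).rank) :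
    Built k d (aff k (MvPolynomial (Fin n) A ⧸ Ideal.span (Set.range fun _ : Fin 1 => f))) :=
  Asm.s_QOD k (fun A [CommRing A] [Algebra k A] [Algebra.FiniteType k A] =>
    Built k d (aff k A)) d h2 (cls_built k d) (oddCl_built k d) A n f ((dimLE_aff _).1 hA) hb hf ho

/-- The projective version. -/
theorem built_odd_base_proj {A : Type} [CommRing A] [IsDomain A] [Algebra k A]
    [Algebra.FiniteType k A] {n d : ℕ} (h2 : (2 : k) ≠ 0) (hA : (aff k A).DimLE (d + 1 : ℕ))
    (hb : Built k d (aff k A)) (f : MvPolynomial (Fin (n + 1)) A) (hf : f.IsHomogeneous 2)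
    (ho : Odd ((gram f).map (algebraMap A (FractionRing A))).rank) {X : Var k}
    (S : ProjSub (fun _ : Fin 1 => f) X) : Built k d X :=
  built_of_cone hb (fun _ : Fin 1 => f) (fun _ => 2) (fun _ => hf) (fun _ => by norm_num)
    (built_odd_base h2 hA hb f hf ho) S

/-- The complement of a nonempty open subvariety of an integral variety of dimension at most
`d + 1`. -/
lemma exists_compl {X U : Var k} {d : ℕ} (hX : IsIntegral X.X) (hd : X.DimLE (d + 1 : ℕ))
    (j : OpenIn U X) (hU : Nonempty U.X) :
    ∃ (Z : Var k) (a : ClosedIn Z X), Complementary a j ∧ Z.DimLE d := by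
  have hop := j.isOpen
  let K : Closeds X.X := (⟨Set.range j.g, j.g.isOpenEmbedding.isOpen_range⟩ : Opens X.X).compl
  have hcomp : Complementary (closedVarIn X K) j := by
    rw [Complementary, range_closedVarIn]
    rfl
  have hgen : genericPoint X.X ∈ Set.range j.g := by
    obtain ⟨v⟩ := hU
    exact (genericPoint_specializes (j.g v)).mem_open j.g.isOpenEmbedding.isOpen_range ⟨v, rfl⟩
  have hKd : ∀ x ∈ K, X.dim x ≤ d := by
    intro x hx
    have hne' : genericPoint X.X ≠ x := by
      rintro rfl
      exact hx hgen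
    have h7 := t_DST.1 k X (genericPoint X.X) x (genericPoint_specializes x) hne'
    have h6 := hd (genericPoint X.X)
    obtain ⟨n, hn⟩ := t_DST.2.1 k X x
    obtain ⟨m, hm⟩ := t_DST.2.1 k X (genericPoint X.X)
    rw [hn, hm] at h7
    rw [hm] at h6
    rw [hn]
    have h8 : n < m := by exact_mod_cast h7
    have h9 : m ≤ d + 1 := by exact_mod_cast h6
    have h10 : n ≤ d := by omega
    exact_mod_cast h10
  exact ⟨_, closedVarIn X K, hcomp, dimLE_of_mem K hKd⟩

/-- The variety `X` is separably uniruled over varieties of dimension at most `d`: a nonempty open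
subvariety of `X` has a finite etale covering which is an open subvariety of the product of an
integral affine variety of dimension at most `d` and the affine line. -/
def SepUniruled (d : ℕ) (X : Var k) : Prop :=
  ∃ (U V : Var k) (A : Type) (_ : CommRing A) (_ : Algebra k A) (_ : Algebra.FiniteType k A)
    (_ : OpenIn U X) (_ : Pool.Agent.Lib_helper66.OneP.FinEt V U) (_ : OpenIn V (aff k A[X])),
    Nonempty U.X ∧ IsDomain A ∧ (aff k A).DimLE d

/-- Separably uniruled varieties of dimension at most `d + 1` belong to the class. -/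
theorem built_of_uniruled {X : Var k} {d : ℕ} (hint : IsIntegral X.X) (hX : X.DimLE (d + 1 : ℕ))
    (h : SepUniruled d X) : Built k d X := by
  obtain ⟨U, V, A, _, _, _, j, p, o, hU, hA, hdA⟩ := h
  have hUint : IsIntegral U.X := by
    have hj := j.isOpen
    exact isIntegral_of_isOpenImmersion j.g
  have hV : Nonempty V.X := by
    obtain ⟨u⟩ := hU
    obtain ⟨v, -⟩ := p.surj.surj u
    exact ⟨v⟩
  have hW : IsIntegral (aff k A[X]).X := by
    change IsIntegral (Spec (CommRingCat.of A[X]))
    infer_instance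
  have hWd : (aff k A[X]).DimLE (d + 1 : ℕ) :=
    (dimLE_aff _).2 (Asm.s_DLR.2.2.2.1 k A d ((dimLE_aff _).1 hdA))
  obtain ⟨Z, a, hc, hZ⟩ := exists_compl hW hWd o hV
  obtain ⟨Z', a', hc', hZ'⟩ := exists_compl hint hX j hU
  have h1 : Built k d (aff k A[X]) := Built.line A (Built.small _ hdA)
  have h2 : Built k d V := Built.cut a o hc h1 (Built.small _ hZ)
  exact Built.paste a' j hc' (Built.small _ hZ') (Built.etale p hUint h2)

end QCV


end

section

/-!
# QCV: the final theorem
-/

set_option autoImplicit false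

open CategoryTheory AlgebraicGeometry Polynomial

namespace QCV

open Pool.Agent.Lib_helper55.Beil Pool.Agent.Lib_helper66.OneP CUB

universe v

variable {k : Type} [Field k] {E : Type} [Field E]

/-- Published properties of the l-adic homology `(T i).H n X = H_n(Xbar, Q_l(i))`: weights
(Deligne), the localisation sequences, injectivity of the cycle class map for divisors, pull-back
along double covers, finite etale coverings and line bundles. -/
structure Pub2 (T : ∀ i : ℕ, Homology.{v} k E i) (hT : Full T) : Prop where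
  /-- no eigenvalue one in `H_(2i-1)(Xbar, Q_l(i))` -/
  weights : ∀ i, Weights (T i)
  bdFrob : BdFrob hT.toExtraMaps
  resExact : ResExact hT.toExtraMaps
  lineRes : LineRes hT.toExtraMaps
  /-- a divisor with class zero is rationally equivalent to zero -/
  divisors : ∀ (i : ℕ) (X : Var k), X.DimLE (i + 1) → (T i).Inj X
  /-- the push-forward along a section of a product with the affine line is zero -/
  sectionZero : SectionZero T
  /-- pull-back along the double covers `Spec A[t] / (t ^ 2 + b t + c) → Spec A` -/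
  dbl : ∃ S : DblMaps T, S.Frobenius ∧ S.Degree hT.toProperMaps ∧ S.Classes ∧
    S.Galois hT.toProperMaps
  /-- pull-back along finite etale coverings -/
  etale : EtTrans T hT.toProperMaps
  /-- pull-back along line bundles -/
  bundles : ∃ S : BunMaps T, S.Good hT

variable {T : ∀ i : ℕ, Homology.{v} k E i} {hT : Full T}

lemma Pub2.toPub (hP : Pub2 T hT) : Pub T hT where
  weights := hP.weights
  bdFrob := hP.bdFrob
  resExact := hP.resExact
  lineRes := hP.lineRes
  dbl := by
    obtain ⟨S, h1, h2, h3, -⟩ := hP.dbl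
    exact ⟨S, h1, h2, h3⟩
  divisors := hP.divisors

lemma dimLE_of_smoothProper {Y : Var k} {d : ℕ} (h : Y.SmoothProper d) : Y.DimLE d := by
  obtain ⟨-, -, hint, hdim⟩ := h
  intro x
  refine (dim_le_of_specializes Y (genericPoint_specializes x)).trans ?_
  rw [hdim]

section

variable [CharZero E]

lemma pfEt (hP : Pub2 T hT) : PfEt T :=
  fun i _ _ f hint h => pf_et hT hP.toPub hP.etale i f hint h

lemma ppfOdd [Finite k] (hP : Pub2 T hT) : PpfOdd T := by
  obtain ⟨S, h1, h2, h3, h4⟩ := hP.dbl
  exact fun A _ _ _ m a ha h =>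
    Asm.s_OODD k E T hT S hP.toPub hP.sectionZero h1 h2 h3 h4 A m a ha h

lemma ppfBun [Finite k] (hP : Pub2 T hT) : PpfBun T := by
  obtain ⟨S, hS⟩ := hP.bundles
  exact fun B s j hs hc h => Asm.s_BCT k E T hT hP.toPub hP.sectionZero S hS B s j hs hc h

/-- The conjecture holds on the class if the property holds in dimension at most `d`. -/
theorem q1_of_pp [Finite k] (hP : Pub2 T hT) (d : ℕ) (hB : ∀ X : Var k, X.DimLE d → PP T X)
    (X : Var k) (hX : Built k d X) (i : ℕ) : Q1 (T i) X :=
  q1_of_built hT hP.toPub hP.sectionZero (pfEt hP) (ppfOdd hP) (ppfBun hP) d hB X hX i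

/-- The conjecture holds on the class built from the varieties of dimension at most one. -/
theorem main_one [Finite k] (hP : Pub2 T hT) (X : Var k) (hX : Built k 1 X) (i : ℕ) :
    Q1 (T i) X :=
  q1_of_pp hP 1 (fun X hX => pp_of_dimLE_one hT hP.toPub X hX) X hX i

/-- The conjecture of Tate for smooth proper surfaces is equivalent to the conjecture for the class
built from the varieties of dimension at most two. -/
theorem main_two [Finite k] (hP : Pub2 T hT) (hA : Pool.Agent.Lib_helper66.OneP.Alterations k) :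
    (∀ Y : Var k, Y.SmoothProper 2 → (T 1).Surj Y ∧ (T 1).Semisimple Y) ↔
      ∀ X : Var k, Built k 2 X → ∀ i, Q1 (T i) X := by
  constructor
  · intro h X hX i
    exact q1_of_pp hP 2 (fun X hX => pp_of_dimLE_two hT hP.toPub
      (fun X _ => surf_of_sp hT hP.toPub hA hP.etale.etPull h X) X hX) X hX i
  · intro h Y hY
    have h1 := h Y (Built.small Y (dimLE_of_smoothProper hY)) 1
    exact ⟨h1.2.1, h1.2.2⟩

/-- The conjecture for smooth proper varieties of dimension at most `d` is equivalent to the
conjecture for the class built from the varieties of dimension at most `d`. -/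
theorem main_all [Finite k] (hP : Pub2 T hT) (hA : Pool.Agent.Lib_helper66.OneP.Alterations k) (hPu : ∀ i, Purity (T i))
    (d : ℕ) :
    (∀ (Y : Var k) (D : ℕ), D ≤ d → Y.SmoothProper D → ∀ i, Q1 (T i) Y) ↔
      ∀ X : Var k, Built k d X → ∀ i, Q1 (T i) X := by
  constructor
  · intro h X hX i
    exact q1_of_pp hP d
      (fun X hX => pp_of_sp hT hP.toPub hA hPu hP.etale d h X hX) X hX i
  · intro h Y D hD hY i
    refine h Y (Built.small Y ?_) i
    intro x
    exact (dimLE_of_smoothProper hY x).trans (by exact_mod_cast hD)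

end

end QCV


end

section

/-!
# QCV, block T: statements (the conjecture of Tate alone)

`GG T X`: for all `i` the generalised eigenspace of Frobenius for the eigenvalue one on
`H_2i(Xbar, Q_l(i))` is spanned by the classes of cycles (`Surj` and `Semisimple`).  Every constructor
of `Built` preserves `GG` alone (`gg_of_built` in T_ALL.lean), so the conjecture of Tate in dimension at
most `d` implies the conjecture of Tate on the class `Built k d`.
-/

set_option autoImplicit false

open CategoryTheory AlgebraicGeometry Limits Polynomial TopologicalSpace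

namespace QCV

open Pool.Agent.Lib_helper55.Beil Pool.Agent.Lib_helper66.OneP CUB

universe v

/-- The generalised eigenspaces of Frobenius for the eigenvalue one are spanned by classes of
cycles. -/
def GG {k : Type} [Field k] {E : Type} [Field E] (T : ∀ i : ℕ, Homology.{v} k E i) (X : Var k) :
    Prop :=
  ∀ i : ℕ, (T i).gen X ≤ (T i).alg X

/-- **TZE** (several equations).
Proof.  The first component of `red3` (G_RED3.lean): replace `AB` by its first component `AM` in
`ab_line`, `ab_iso`, `ab_step`, `ab_chain` (G_CHN.lean) and in `ab_of_pf` (G_CYC.lean: for `AM` only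
`h.1` is used), so `am_chain : AM (T (i + 1)) (n + 2) e (VR R f) τ → AM ... (VR R' (ψ ∘ f)) τ`; then
`pf_of_zero` (G_TWO.lean): its first component (`supp_sheet` and `alg_of_supp`) gives
`gen ≤ alg` for `MvPolynomial (Fin (m + 1)) R'` at the level `i + m + 1`; then descend along the
polynomial rings as in `pf_mv_desc` with the first component of `pf_line_desc` (G_LND.lean:
`supp_line_desc`, `supp_cls`, `alg_of_supp`). -/
def S_TZE : Prop :=
  ∀ (k E : Type) [Field k] [Finite k] [Field E] [CharZero E] (T : ∀ i : ℕ, Homology.{v} k E i)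
    (hT : Full T), Pub T hT → SectionZero T →
    ∀ (A : Type) [CommRing A] [Algebra k A] [Algebra.FiniteType k A] (m : ℕ)
      (f : Fin (m + 1) → A), GG T (aff k (VR A f)) →
      GG T (aff k (A ⧸ Ideal.span (Set.range f)))

/-- **TOD** (quadric cones in an odd number of variables).
Proof.  As `t_OODD` (O_OODD.lean) with `GG`: in `OODD.claim` replace `S_OPFD` by its first component
(`good_up` with `inj_G`, O_OPFD.lean; `TR` by `Asm.s_ODIA` (O_ASM.lean) or `t_ONIL`), `ppf_mv` by
iterating `good_line` (level `0`: `(pf_zero hT hP _).1`), `pf_viso` and `pf_mv_desc` by their first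
components (`(T i).glue` and `supp_line_desc`, see `S_TZE`). -/
def S_TOD : Prop :=
  ∀ (k E : Type) [Field k] [Finite k] [Field E] [CharZero E] (T : ∀ i : ℕ, Homology.{v} k E i)
    (hT : Full T) (S : DblMaps T), Pub T hT → SectionZero T → S.Frobenius →
    S.Degree hT.toProperMaps → S.Classes → S.Galois hT.toProperMaps →
    ∀ (A : Type) [CommRing A] [Algebra k A] [Algebra.FiniteType k A] (m : ℕ)
      (a : Fin (2 * m + 1) → A), (∀ j, IsUnit (a j)) → GG T (aff k A) →
      GG T (aff k (MvPolynomial (Fin (2 * m + 1)) A ⧸ Ideal.span {dia a}))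

/-- **TBU** (from the complement of a section of a line bundle to the base).
Proof.  As `t_BCT` and the first component of `t_BDS` (with `BSU.main`): descending induction,
`(T (i + 1)).glue s j hc`. -/
def S_TBU : Prop :=
  ∀ (k E : Type) [Field k] [Finite k] [Field E] [CharZero E]
    (T : ∀ i : ℕ, Homology.{v} k E i) (hT : Full T),
    Pub T hT → SectionZero T → ∀ S : BunMaps T, S.Good hT →
    ∀ {Y X U : Var k} (B : Bun Y X) (s : ClosedIn X Y) (j : OpenIn U Y), s.g ≫ B.q = 𝟙 X.X →
      Complementary s j → GG T U → GG T X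

/-- **TCL** (the closed part).
Proof.  Let `m ∈ gen Z` (level `i`).  `P a m ∈ gen X ≤ alg X` is `cls c` (`exists_cls`);
`cls (resCyc j c) = R j (P a m) = 0` (`localisation`/`exact_X`), so `resCyc j c ∈ ratZero`
(`InjC U`), so there is `c₁ ∈ ratZero` on `X` with the same restriction (`exists_ratZero`) and
`c - c₁ = pushCyc a z` (`exists_pushCyc`).  `P a (m - cls z) = cls c₁ = 0`, so `m - cls z = ∂ u`
(`bdExact`), `u` may be chosen in `gen1 U` (`maxGen_lift`), and `∂ u` is the class of a cycle by
`bd_supp` (F_GLU.lean, `BdData.hbd`).  (Compare the proof of `injC_glue3`.) -/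
def S_TCL : Prop :=
  ∀ (k E : Type) [Field k] [Finite k] [Field E] [CharZero E]
    (T : ∀ i : ℕ, Homology.{v} k E i) (hT : Full T), Pub T hT →
    ∀ {Z U X : Var k} (a : ClosedIn Z X) (j : OpenIn U X), Complementary a j → GG T X → PPF T U →
      GG T Z

/-- **TGM** (the punctured line).
Proof.  The strata `X = 0` (`A`, section of the line `aff k A[X] → aff k A`) and `X ≠ 0` of `A[X]`.
Level `i + 1`: for `m ∈ gen (A[X])` the restriction is `cls` of a cycle on the open part, which is the
restriction of a cycle `c` on `A[X]` (`exists_resCyc`), so `m - cls c = P w` comes from the section,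
which is zero by `SectionZero`.  So `gen ≤ alg` for `A[X]` at the level `i + 1`, and for `A` at the
level `i` by the first component of `pf_line_desc`. -/
def S_TGM : Prop :=
  ∀ (k E : Type) [Field k] [Finite k] [Field E] [CharZero E]
    (T : ∀ i : ℕ, Homology.{v} k E i) (hT : Full T), Pub T hT → SectionZero T →
    ∀ (A : Type) [CommRing A] [Algebra k A] [Algebra.FiniteType k A],
      GG T (aff k (Localization.Away (X : A[X]))) → GG T (aff k A)

end QCV


end

section

/-!
# QCV, block U: statements (universality of systems of quadratic forms), part 2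

Let `m = d + 1`.  A variety of dimension `d` is birational to a hypersurface `g = 0` in the affine space of
dimension `m`.  By `S_ULZ` the form `g x_0 ^ 2` is, after addition of hyperbolic planes, the generic member
of a linear system `f_0, ..., f_m` of quadratic forms over `k`.  The zero set of the generic member has
strata which are vector bundles over the heads `f_1 = ... = f_j = 0` (at most `d` quadratic forms) and over
`f_0 = ... = f_m = 0` (`S_UST`).
-/

set_option autoImplicit false

open CategoryTheory AlgebraicGeometry Limits Polynomial TopologicalSpace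

namespace QCV

open Pool.Agent.Lib_helper55.Beil Pool.Agent.Lib_helper66.OneP CUB

universe v

/-- Closure properties of `GG` (proved in T_TGG.lean). -/
structure GGC {k : Type} [Field k] {E : Type} [Field E] (T : ∀ i : ℕ, Homology.{v} k E i) : Prop where
  iso : ∀ {X Y : Var k}, VIso X Y → GG T X → GG T Y
  nil : ∀ {Z X : Var k} (a : ClosedIn Z X), Function.Surjective a.g → GG T X → GG T Z
  red : ∀ X : Var k, GG T (redVar X) → GG T X
  empty : ∀ X : Var k, IsEmpty X.X → GG T X
  glue : ∀ {Z U X : Var k} (a : ClosedIn Z X) (j : OpenIn U X), Complementary a j →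
    GG T Z → GG T U → GG T X
  opn : ∀ {U X : Var k}, OpenIn U X → GG T X → GG T U
  line : ∀ (A : Type) [CommRing A] [Algebra k A] [Algebra.FiniteType k A],
    GG T (aff k A) → GG T (aff k A[X])
  unline : ∀ {Y X : Var k}, Line Y X → GG T Y → GG T X
  unpoly : ∀ (A : Type) [CommRing A] [Algebra k A] [Algebra.FiniteType k A],
    GG T (aff k A[X]) → GG T (aff k A)
  dbl : ∀ (A : Type) [CommRing A] [Algebra k A] [Algebra.FiniteType k A] (b c : A),
    GG T (aff k (Dr A b c)) → GG T (aff k A)
  et : ∀ {V U : Var k}, Pool.Agent.Lib_helper66.OneP.FinEt V U → IsIntegral U.X → GG T V → GG T U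

/-- **TGG** (helper86). -/
def S_TGG : Prop :=
  ∀ (k E : Type) [Field k] [Finite k] [Field E] [CharZero E]
    (T : ∀ i : ℕ, Homology.{v} k E i) (hT : Full T), Pub T hT → SectionZero T →
    EtTrans T hT.toProperMaps → GGC T

/-- **UHY** (removal of the hyperbolic planes).
Proof.  Induction on `s`.  `s = 0`: `hyp φ 0 = rename (castAdd 0) φ`, isomorphic.  `s + 1`: let
`D = MvPolynomial (Fin (n + 2 * s)) B`, `S = D[X]`, `g = X`, `h = C (hyp φ s)`.  `S_UHI` and `Asm.s_LNR`
(with `U = Localization.Away X`): a closed part `(S / (g, h))[X]` and an open part `U` of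
`aff k (ER (hyp φ (s + 1)))` (`complementary_away`, see `cls_built` in Cls.lean).  `PPF T (aff k D)`
(`ppf_mv`/`ppf_line`), `PPF T (aff k S)` by `ppf_line`, `PPF T (aff k U)` by `pf_open` (closed part
`S / (X) ≅ D`; level `0`: `pf_zero`).  `S_TCL`: `GG` for `(S / (X, C c))[X]`, so for `S / (X, C c) ≅ D / (c)`
by `GGC.unpoly`, `c = hyp φ s`. -/
def S_UHY : Prop :=
  ∀ (k E : Type) [Field k] [Finite k] [Field E] [CharZero E]
    (T : ∀ i : ℕ, Homology.{v} k E i) (hT : Full T), Pub T hT → SectionZero T → GGC T →
    ∀ (B : Type) [CommRing B] [Algebra k B] [Algebra.FiniteType k B] (n s : ℕ)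
      (φ : MvPolynomial (Fin n) B), PPF T (aff k B) →
      GG T (aff k (ER (fun _ : Fin 1 => hyp φ s))) → GG T (aff k (ER (fun _ : Fin 1 => φ)))

def M_UHY : Prop := S_TCL.{v} → S_UHI → S_UHY.{v}

/-- **UAF** (geometry).
Proof.  Let `η` be the generic point of `X`; `exists_nice` (Beil/Geom.lean), `openVar X U` affine and
integral; `A = Γ(U)` (of finite type over `k`; the universe is `Type`), a domain,
`openVar X U ≅ aff k A` (compare `exists_affine`-type lemmas used with `Var.dim`, `dim_generic_aff`, CUB/BR1.lean, and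
`dim_map`: the dimension of the generic point does not change under the open immersion). -/
def S_UAF : Prop :=
  ∀ (k : Type) [Field k] [PerfectField k] (X : Var k) [IsIntegral X.X],
    ∃ (A : Type) (_ : CommRing A) (_ : IsDomain A) (_ : Algebra k A) (_ : Algebra.FiniteType k A)
      (_ : OpenIn (aff k A) X), (aff k A).dim (genericPoint (aff k A).X) = X.dim (genericPoint X.X)

/-- **UNO** (reduction to hypersurfaces).
Proof.  As `pf_auxd` (U4.lean) with `GG T` in place of `PF (T i)` (`GGC.red`, `GGC.empty`, `GGC.glue`): it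
suffices that every integral `V₀` with `V₀.DimLE (d + 1)` has a nonempty open subvariety with `GG`.
`S_UAF`: `V₀` contains `aff k A`, `trdeg k A = r ≤ d + 1` (`dim_generic_aff`).  If `r ≤ d`, then
`(aff k A).DimLE d` (every point is a specialisation of the generic point, `dim_le_of_specializes`) and the
first hypothesis applies.  If `r = d + 1`: `S_UHA` gives `g`, `a`, `h`; `GG` for `k[x] / (g)` by
hypothesis, for `Localization.Away h` by `GGC.opn` (`opn` of a localisation as in `complementary_away`),
for `Localization.Away a` by `GGC.iso` (`viso`); `aff k (Localization.Away a)` is a nonempty open part of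
`aff k A`. -/
def S_UNO : Prop :=
  ∀ (k E : Type) [Field k] [PerfectField k] [Field E] (T : ∀ i : ℕ, Homology.{v} k E i), GGC T →
    ∀ d : ℕ, (∀ X : Var k, X.DimLE d → GG T X) →
      (∀ g : MvPolynomial (Fin (d + 2)) k,
        GG T (aff k (MvPolynomial (Fin (d + 2)) k ⧸ Ideal.span {g}))) →
      ∀ X : Var k, X.DimLE (d + 1 : ℕ) → GG T X

def M_UNO : Prop := S_UHA → S_UAF → S_UNO.{v}

/-- The conjecture of Tate for the zero sets of `q + 1` quadratic forms in an odd number of variables
over `k` with nondegenerate generic member. -/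
def OddTate {k : Type} [Field k] {E : Type} [Field E] (T : ∀ i : ℕ, Homology.{v} k E i) (q : ℕ) :
    Prop :=
  ∀ (s : ℕ) (f : Fin (q + 1) → MvPolynomial (Fin (1 + 2 * s)) k), (∀ j, (f j).IsHomogeneous 2) →
    (gram (gen f)).det ≠ 0 →
    GG T (aff k (MvPolynomial (Fin (1 + 2 * s)) k ⧸ Ideal.span (Set.range f)))

/-- **UPD** (fewer equations).
Proof.  For `f : Fin (q + 1) → _` let `f' = Fin.snoc f 0 : Fin (q + 2) → _`.  `span (range f') =
span (range f)`.  `gen f' = map (rename Fin.castSucc) (gen f)` (`Fin.sum_univ_castSucc`, the last summand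
is zero), so `gram (gen f') = (gram (gen f)).map (rename Fin.castSucc)`, and `det` is compatible with the
injective homomorphism `rename Fin.castSucc` (`MvPolynomial.rename_injective`). -/
def S_UPD : Prop :=
  ∀ (k E : Type) [Field k] [Field E] (T : ∀ i : ℕ, Homology.{v} k E i) (q : ℕ),
    OddTate T (q + 1) → OddTate T q

end QCV


end
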