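import Mathlib
import Pool.Agent.QVM.C47
import Pool.Agent.QVM.C59

/-! Parts: QCV.T_TZE, QCV.StE2, QCV.E_EHT, QCV.E_EST -/

section

/-!
# QCV, block T: the conjecture of Tate alone, several equations
-/

set_option autoImplicit false

open CategoryTheory AlgebraicGeometry Limits Polynomial TopologicalSpace

namespace QCV

open Pool.Agent.Lib_helper55.Beil Pool.Agent.Lib_helper66.OneP CUB

universe v

namespace TZE

variable {k : Type} [Field k] {E : Type} [Field E] {T : ∀ i : ℕ, Homology.{v} k E i}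

/-- The closed part of a variety whose open part is a product with the affine line. -/
theorem am_line [CharZero E] (hT : Full T) (i n e : ℕ) {Z U V S : Var k} {a : ClosedIn Z V}
    {j : OpenIn U V} {t : ClosedIn V V} {tZ : ClosedIn Z Z} {tU : ClosedIn U U}
    (h : Parts a j t tZ tU) (L : Line U S) (hL : tU.g ≫ L.q = L.q)
    (hV : AM (T (i + 1)) (n + 2) e V t) : AM (T (i + 1)) (n + 2) e Z tZ := by
  have hi : Inv tU := inv_open j t tU h.ht h.hU
  exact am_closed hT (i + 1) (n + 2) e h (bu_line hT i n e L tU hi hL)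
      (hu_line hT.toExtra i (n + 1) L tU hi hL) hV

/-- Invariance under isomorphisms. -/
theorem am_iso [CharZero E] (hT : Full T) (i n e : ℕ) {Z V : Var k} (a : ClosedIn Z V)
    (ha : Function.Surjective a.g) (t : ClosedIn V V) (tZ : ClosedIn Z Z) (ht : Inv t)
    (hZ : tZ.g ≫ a.g = a.g ≫ t.g) (hV : AM (T i) n e V t) : AM (T i) n e Z tZ := by
  have hem := isEmpty_openVar_bot V
  have hc : Complementary a (openVarIn V ⊥) := by
    rw [Complementary, range_openVarIn, ha.range_eq]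
    simp
  have hU : (idIn (openVar V ⊥)).g ≫ (openVarIn V ⊥).g = (openVarIn V ⊥).g ≫ t.g :=
    isInitialOfIsEmpty.hom_ext _ _
  have h : Parts a (openVarIn V ⊥) t tZ (idIn (openVar V ⊥)) := ⟨hc, ht, hZ, hU⟩
  have hHU : ∀ n, HU (T i) n (openVar V ⊥) (idIn (openVar V ⊥)) := by
    intro n u _
    have := (T i).empty n _ hem
    exact Subsingleton.elim _ _
  have hBU : ∀ n e, BU (T i) n e (openVar V ⊥) (idIn (openVar V ⊥)) := by
    intro n e W _ b r _ _ w _
    have hW : IsEmpty W.X := ⟨fun x => hem.false (b.g x)⟩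
    refine ⟨⊥, fun x => (hW.false x).elim, fun x _ => (hem.false x).elim, ?_⟩
    have := (T i).empty n _ hW
    rw [Subsingleton.elim w 0, hP_zero]
  exact am_closed hT i n e h (hBU _ _) (hHU _) hV

section VRs

variable {R R' : Type} [CommRing R] [CommRing R'] [Algebra k R] [Algebra k R']
  [Algebra.FiniteType k R] [Algebra.FiniteType k R']

/-- One step. -/
theorem am_step [CharZero E] (hT : Full T) (hKERQ : S_KERQ) (hVRL : S_VRL) (i n e m : ℕ)
    (f : Fin (m + 1) → R) (l : Fin (m + 1)) (ψ : R →ₐ[k] R') (hψ : Function.Surjective ψ)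
    (hk : RingHom.ker ψ.toRingHom = Ideal.span {f l})
    (hV : AM (T (i + 1)) (n + 2) e (aff k (VR R f)) (vcl (tau (lin f)))) :
    AM (T (i + 1)) (n + 2) e (aff k (VR R' (fun j => ψ (f j)))) (vcl (tau (lin fun j => ψ (f j)))) := by
  let a : VR R f := VRbase (k := k) f (f l)
  let φ : VR R f →ₐ[k] Localization.Away a := awayHom k a
  let σ0 : R →ₐ[k] Localization.Away (f l) := awayHom k (f l)
  obtain ⟨ee, he1, he2, he3⟩ := hVRL k R (Localization.Away (f l)) (Localization.Away a) m f l σ0 φ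
    (isLocalization_awayHom _) (isLocalization_awayHom _)
  let σ : MvPolynomial (Fin m) (Localization.Away (f l)) →ₐ[k] Localization.Away a :=
    (ee.symm : _ →ₐ[k] _).comp (CC k _)
  let tB : Localization.Away a ≃ₐ[k] Localization.Away a :=
    IsLocalization.algEquivOfAlgEquiv (M := Submonoid.powers a) (T := Submonoid.powers a)
      (Localization.Away a) (Localization.Away a) (tau (k := k) (lin f)) (by
        rw [Submonoid.map_powers]
        congr 1
        exact tau_VRbase f (f l))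
  have htB : ∀ x, tB (φ x) = φ (tau (k := k) (lin f) x) := fun x =>
    IsLocalization.algEquivOfAlgEquiv_eq _ x
  have hker : RingHom.ker (VRmap ψ f).toRingHom = Ideal.span {a} := by
    rw [hKERQ.2.2.1 k R R' (m + 1) f ψ, hk, Ideal.map_span, Set.image_singleton]
    rfl
  have hC : ∀ r : R, σ (MvPolynomial.C (σ0 r)) = φ (VRbase (k := k) f r) := fun r => by
    change ee.symm (C (MvPolynomial.C (σ0 r))) = _
    rw [← he1 r, AlgEquiv.symm_apply_apply]
  have hX : ∀ j : Fin m, σ (MvPolynomial.X j) =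
      φ (algebraMap (MvPolynomial (Fin (m + 1)) R) (VR R f) (MvPolynomial.X (l.succAbove j))) :=
    fun j => by
      change ee.symm (C (MvPolynomial.X j)) = _
      rw [← he2 j, AlgEquiv.symm_apply_apply]
  have key : tB.toRingEquiv.toRingHom.comp σ.toRingHom = σ.toRingHom := by
    apply MvPolynomial.ringHom_ext
    · intro s
      have h7 : (tB.toRingEquiv.toRingHom.comp σ.toRingHom).comp MvPolynomial.C =
          σ.toRingHom.comp MvPolynomial.C := by
        apply IsLocalization.ringHom_ext (Submonoid.powers (f l))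
        ext1 r
        change tB (σ (MvPolynomial.C (σ0 r))) = σ (MvPolynomial.C (σ0 r))
        rw [hC, htB, tau_VRbase]
      exact RingHom.congr_fun h7 s
    · intro j
      change tB (σ (MvPolynomial.X j)) = σ (MvPolynomial.X j)
      rw [hX, htB, tau_VRalg]
  have hloc := isLocalization_awayHom (k := k) a
  have hparts : Parts (clo (VRmap ψ f) (VRmap_surjective ψ hψ f))
      (opn φ (isOpenImmersion_spm φ a hloc)) (vcl (tau (k := k) (lin f)))
      (vcl (tau (k := k) (lin fun j => ψ (f j)))) (vcl tB) := by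
    refine ⟨complementary_away φ a hloc (VRmap ψ f) (VRmap_surjective ψ hψ f) hker,
      inv_tau (lin f), tau_VRmap_g f ψ hψ, ?_⟩
    change spm (tB : _ →ₐ[k] _) ≫ spm φ = spm φ ≫ spm (tauH (k := k) (lin f))
    rw [spm_comp, spm_comp]
    congr 1
    exact AlgHom.ext fun x => htB x
  refine am_line hT i n e hparts (lineE σ ee.symm.toRingEquiv (fun s => rfl)) ?_ hV
  change spm (tB : _ →ₐ[k] _) ≫ spm σ = spm σ
  rw [spm_comp]
  congr 1
  exact AlgHom.ext fun x => RingHom.congr_fun key x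

/-- Several equations. -/
theorem am_chain [CharZero E] (hT : Full T) (hKERQ : S_KERQ) (hVRL : S_VRL) (i n e m : ℕ)
    (L : List (Fin (m + 1))) :
    ∀ {R R' : Type} [CommRing R] [CommRing R'] [Algebra k R]
    [Algebra k R'] [Algebra.FiniteType k R] [Algebra.FiniteType k R']
    (f : Fin (m + 1) → R) (ψ : R →ₐ[k] R') (_ : Function.Surjective ψ),
    RingHom.ker ψ.toRingHom = Ideal.span (f '' {j | j ∈ L}) →
    AM (T (i + 1)) (n + 2) e (aff k (VR R f)) (vcl (tau (lin f))) →
    AM (T (i + 1)) (n + 2) e (aff k (VR R' (fun j => ψ (f j))))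
      (vcl (tau (lin fun j => ψ (f j)))) := by
  induction L with
  | nil =>
    intro R R' _ _ _ _ _ _ f ψ hψ hk hV
    have h1 : RingHom.ker (VRmap ψ f).toRingHom = ⊥ := by
      rw [hKERQ.2.2.1 k R R' (m + 1) f ψ, hk]
      simp
    have h2 : Function.Injective (VRmap ψ f) := (RingHom.injective_iff_ker_eq_bot _).mpr h1
    refine am_iso hT (i + 1) (n + 2) e (clo (VRmap ψ f) (VRmap_surjective ψ hψ f)) ?_
      (vcl (tau (k := k) (lin f))) _ (inv_tau (lin f)) (tau_VRmap_g f ψ hψ) hV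
    have h3 : (Set.range (clo (VRmap ψ f) (VRmap_surjective ψ hψ f)).g : Set (PrimeSpectrum _)) =
        Set.univ := by
      have h4 : (Set.range (clo (VRmap ψ f) (VRmap_surjective ψ hψ f)).g : Set (PrimeSpectrum _)) =
        (Set.range (PrimeSpectrum.comap (VRmap ψ f).toRingHom) : Set (PrimeSpectrum _)) := rfl
      rw [h4, range_spm_surj _ (VRmap_surjective ψ hψ f), h1]
      ext x
      simp
    exact Set.range_eq_univ.mp h3
  | cons l L ih =>
    intro R R' _ _ _ _ _ _ f ψ hψ hk hV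
    let I : Ideal R := Ideal.span {f l}
    let π : R →ₐ[k] R ⧸ I := Ideal.Quotient.mkₐ k I
    have hle : I ≤ RingHom.ker ψ.toRingHom := by
      rw [hk]
      apply Ideal.span_mono
      rintro _ rfl
      exact ⟨l, by simp, rfl⟩
    let ψ₁ : (R ⧸ I) →ₐ[k] R' := Ideal.Quotient.liftₐ I ψ (fun a ha => hle ha)
    have hπ : Function.Surjective π := Ideal.Quotient.mkₐ_surjective k I
    have hcomp : ψ = ψ₁.comp π := by
      ext x
      rfl
    have hkπ : RingHom.ker π.toRingHom = Ideal.span {f l} := Ideal.mk_ker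
    clear_value ψ₁ π
    subst hcomp
    have hψ₁ : Function.Surjective ψ₁ := by
      intro x
      obtain ⟨y, hy⟩ := hψ x
      exact ⟨π y, hy⟩
    have hk₁ : RingHom.ker ψ₁.toRingHom = Ideal.span ((fun j => π (f j)) '' {j | j ∈ L}) := by
      have h1 : RingHom.ker ψ₁.toRingHom =
          (RingHom.ker (ψ₁.comp π).toRingHom).map π.toRingHom := by
        have h2 : RingHom.ker (ψ₁.comp π).toRingHom =
          (RingHom.ker ψ₁.toRingHom).comap π.toRingHom := rfl
        rw [h2]
        exact (Ideal.map_comap_of_surjective π.toRingHom hπ _).symm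
      rw [h1, hk, Ideal.map_span]
      apply le_antisymm
      · rw [Ideal.span_le]
        rintro _ ⟨_, ⟨j, hj, rfl⟩, rfl⟩
        rcases List.mem_cons.mp hj with rfl | hj
        · have h3 : π (f j) = 0 := by
            have : f j ∈ RingHom.ker π.toRingHom := by
              rw [hkπ]; exact Ideal.subset_span rfl
            exact this
          have h4 : π.toRingHom (f j) = 0 := h3
          rw [h4]
          exact Ideal.zero_mem _
        · exact Ideal.subset_span ⟨j, hj, rfl⟩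
      · apply Ideal.span_mono
        rintro _ ⟨j, hj, rfl⟩
        exact ⟨f j, ⟨j, List.mem_cons_of_mem _ hj, rfl⟩, rfl⟩
    exact ih (fun j => π (f j)) ψ₁ hψ₁ hk₁
      (am_step hT hKERQ hVRL i n e m f l π hπ hkπ hV)

end VRs

/-- From the first component of `PF` to the property `AM`. -/
theorem am_of_gg (i : ℕ) (V : Var k) (t : ClosedIn V V) (h : (T i).gen V ≤ (T i).alg V) :
    AM (T i) (2 * i) i V t := by
  intro u hu _
  obtain ⟨c, hc⟩ := exists_cls (T i) V u (h hu)
  rw [← hc]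
  exact supp_cls i V c

/-- The double cover which belongs to the zero function. -/
theorem gg_of_zero [PerfectField k] [CharZero E] (hT : Full T) (N m : ℕ)
    {R' : Type} [CommRing R'] [Algebra k R'] [Algebra.FiniteType k R'] (g : Fin (m + 1) → R')
    (hg : ∀ j, g j = 0)
    (hV : AM (T N) (2 * N) N (aff k (VR R' g)) (vcl (tau (lin g)))) :
    (T N).gen (aff k (MvPolynomial (Fin (m + 1)) R')) ≤
      (T N).alg (aff k (MvPolynomial (Fin (m + 1)) R')) := by
  have h' : ∀ j, AlgHom.id k R' (g j) = 0 := hg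
  let s0 := sheet (AlgHom.id k R') g h' false
  let s1 := sheet (AlgHom.id k R') g h' true
  have hs0 : Function.Surjective s0 := sheet_surjective _ Function.surjective_id _ h' false
  have hs1 : Function.Surjective s1 := sheet_surjective _ Function.surjective_id _ h' true
  have hloc := isLocalization_sheet_false (k := k) g h'
  have hc := complementary_away s0 (1 - yy (lin g)) hloc s1 hs1 (ker_sheet_true g h')
  have h01 : (clo s0 hs0).g ≫ (vcl (tau (k := k) (lin g))).g = (clo s1 hs1).g := by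
    change spm s0 ≫ spm (tauH (k := k) (lin g)) = spm s1
    rw [spm_comp]
    exact congrArg spm (sheet_tau (AlgHom.id k R') g h')
  have h10 : (clo s1 hs1).g ≫ (vcl (tau (k := k) (lin g))).g = (clo s0 hs0).g := by
    rw [← h01, Category.assoc, inv_tau (k := k) (lin g), Category.comp_id]
  intro α hα
  exact alg_of_supp N _ α hα (supp_sheet (clo s0 hs0) (clo s1 hs1)
    (opn s0 (isOpenImmersion_spm s0 _ hloc)) (vcl (tau (k := k) (lin g))) hT N (2 * N) N rfl hc
    h01 h10 hV α hα)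

/-- Invariance under isomorphisms. -/
theorem gg_viso (i : ℕ) {X Y : Var k} (s : VIso X Y) (h : (T i).gen X ≤ (T i).alg X) :
    (T i).gen Y ≤ (T i).alg Y := by
  have hc : Complementary s.cl (openVarIn Y ⊥) := by
    rw [Complementary, s.range, range_openVarIn]
    simp
  exact (T i).glue s.cl (openVarIn Y ⊥) hc h
    ((T i).good_of_subsingleton _ ((T i).empty _ _ (isEmpty_openVar_bot Y)))

/-- From a product with the affine line to the base. -/
theorem gg_line_desc [Finite k] [CharZero E] (hT : Full T) (hP : Pub T hT) (hS : SectionZero T)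
    (i : ℕ) {Y X : Var k} (L : Line Y X) (h : (T (i + 1)).gen Y ≤ (T (i + 1)).alg Y) :
    (T i).gen X ≤ (T i).alg X := by
  intro α hα
  refine alg_of_supp i X α hα (supp_line_desc hT hP hS i (2 * i) i L α ?_)
  have h1 : hT.line i (2 * i) L α ∈ (T (i + 1)).gen Y :=
    maxGen_map ((T i).frob (2 * i) X) ((T (i + 1)).frob (2 * (i + 1)) Y) (hT.line i (2 * i) L)
      (hT.line_frob i (2 * i) L) hα
  obtain ⟨c, hc⟩ := exists_cls (T (i + 1)) Y _ (h h1)
  have h2 := supp_cls (T := T) (i + 1) Y c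
  have h3 : clz (T (i + 1)) Y c = hT.line i (2 * i) L α := hc
  rw [h3] at h2
  exact h2

/-- From a product with an affine space to the base. -/
theorem gg_mv_desc [Finite k] [CharZero E] (hT : Full T) (hP : Pub T hT) (hS : SectionZero T)
    (A : Type) [CommRing A] [Algebra k A] [Algebra.FiniteType k A] (i m : ℕ)
    (h : (T (i + m)).gen (aff k (MvPolynomial (Fin m) A)) ≤
      (T (i + m)).alg (aff k (MvPolynomial (Fin m) A))) :
    (T i).gen (aff k A) ≤ (T i).alg (aff k A) := by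
  induction m with
  | zero =>
    let e : MvPolynomial (Fin 0) A ≃ₐ[k] A :=
      (MvPolynomial.isEmptyAlgEquiv A (Fin 0)).restrictScalars k
    exact gg_viso i (viso e.symm) h
  | succ m ih =>
    refine ih ?_
    let B := MvPolynomial (Fin m) A
    let e : MvPolynomial (Fin (m + 1)) A ≃ₐ[k] B[X] :=
      (MvPolynomial.finSuccEquiv A m).restrictScalars k
    let φ : B →ₐ[k] MvPolynomial (Fin (m + 1)) A := (e.symm : _ →ₐ[k] _).comp (CC k B)
    exact gg_line_desc hT hP hS (i + m) (lineE φ e.symm.toRingEquiv (fun _ => rfl)) h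

end TZE

/-- TZE. -/
theorem t_TZE : S_TZE.{v} := by
  intro k E _ _ _ _ T hT hP hS A _ _ _ m f hV i
  let ψ : A →ₐ[k] A ⧸ Ideal.span (Set.range f) := Ideal.Quotient.mkₐ k (Ideal.span (Set.range f))
  have hψ : Function.Surjective ψ := Ideal.Quotient.mkₐ_surjective k _
  have hk : RingHom.ker ψ.toRingHom = Ideal.span (Set.range f) := Ideal.mk_ker
  refine TZE.gg_mv_desc hT hP hS _ i (m + 1) ?_
  refine TZE.gg_of_zero hT (i + m + 1) m (fun j => ψ (f j)) ?_ ?_
  · intro j
    have h1 : f j ∈ RingHom.ker ψ.toRingHom := by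
      rw [hk]
      exact Ideal.subset_span ⟨j, rfl⟩
    exact h1
  · refine TZE.am_chain hT CUB.Asm.s_KERQ CUB.Asm.s_VRL (i + m) (2 * (i + m)) (i + m + 1) m
      (List.finRange (m + 1)) f ψ hψ ?_ ?_
    · rw [hk]
      congr 1
      ext x
      simp
    · exact TZE.am_of_gg (i + m + 1) _ _ (hV _)

end QCV


end

section

/-!
# QCV, block E: statements (quadratic forms in an even number of variables), homological part
-/

set_option autoImplicit false

open CategoryTheory AlgebraicGeometry Limits Polynomial TopologicalSpace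

namespace QCV

open Pool.Agent.Lib_helper55.Beil Pool.Agent.Lib_helper66.OneP CUB

universe v

/-- **EGM** (the automorphism `X ↦ - X` of `B[X, 1 / X]`).
Proof.  The strata `X = 0` (`Spec B`, on which the automorphism is the identity) and `X ≠ 0` of
`Spec B[X]`; `TR T (i + 1) B[X] wX` by `t_OLN` (`TR` for the identity of `B`: see O_OHYP).  Homology, `n ≥ 2 (i + 1)`:
let `δ = P wU m - m`.  `∂ (P wU m) = ∂ m` (`bdl_push`, F_GLU/F_OPE), so `∂ δ = 0`, so `δ = R x`
(`hP.resExact`), `P wU δ = R (P wX x) = R x = δ` (`res_push`), and `P wU δ = m - P wU m = - δ` as `wU` is an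
involution, so `2 δ = 0`.  Cycles: extend `c` to a cycle `c'` on `B[X]` (`exists_resCyc`), `c' - wX c' ∈ ratZero`,
restrict (`resCyc_ratZero`). -/
def S_EGM : Prop :=
  ∀ (k E : Type) [Field k] [Field E] [CharZero E] (T : ∀ i : ℕ, Homology.{v} k E i) (hT : Full T),
    Pub T hT → ∀ (B : Type) [CommRing B] [Algebra k B] [Algebra.FiniteType k B]
      (wX : B[X] ≃ₐ[k] B[X])
      (wU : Localization.Away (X : B[X]) ≃ₐ[k] Localization.Away (X : B[X])),
      (∀ b, wX (C b) = C b) → wX X = - X →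
      (∀ p : B[X], wU (algebraMap B[X] _ p) = algebraMap B[X] _ (wX p)) →
      ∀ i, TR T (i + 1) (Localization.Away (X : B[X])) wU

/-- **EHT** (`x_0 x_1 + x_2 x_3 + c = 0` with `x_2 ↦ - x_2, x_3 ↦ - x_3`).
Proof.  First `TR T (i + 1) (HQ B c) w₀` for `Sgn ![-1, -1] w₀`: `t_OGLU` with `S_EHQ`, closed part by `t_OLN` (from
the identity of `B / c` at the level `i`), open part by `S_EGM`.  Then `HP B c`: `t_OGLU` with `S_EHP`, closed
part `(HQ B c)[X]` by `t_OLN` from the first step (level `i + 1`), open part by `t_OLN` twice from the identity of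
`B[X, 1 / X]` at the level `i`. -/
def S_EHT : Prop :=
  ∀ (k E : Type) [Field k] [Field E] [CharZero E] (T : ∀ i : ℕ, Homology.{v} k E i) (hT : Full T),
    Pub T hT → ∀ (B : Type) [CommRing B] [Algebra k B] [Algebra.FiniteType k B] (c : B)
      (w : HP B c ≃ₐ[k] HP B c), Sgn ![1, 1, -1, -1] w → ∀ i, TR T (i + 2) (HP B c) w

def M_EHT : Prop := S_EHQ → S_EHP → S_EGM.{v} → S_EHT.{v}

/-- **EQT** (the automorphism `x_1 ↦ - x_1, x_3 ↦ - x_3` of a quadric).
Proof.  (1) If there are `s₁, s₂ ∈ B` with `s₁ ^ 2 * a 0 = - a 2`, `s₂ ^ 2 * a 1 = - a 3`: `S_ESP`, `S_EHT` (the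
automorphism `w'` of `HP B c` exists: `S_ESG`) and `t_OISO`.  (2) If `s₁` exists: let `δ₂ a_1 = a_3`,
`B' = Dr B 0 δ₂` (`s₂ = rt`), `S_EBC`, `w'` the sign automorphism of `QC B' a c` (`S_ESG`), (1) for `B'`; `t_OISO`
and `t_ODCV` with `t' = e⁻¹ w' e`, which extends `w` (on generators).  (3) The same for `s₁`, `δ₁ a_0 = a_2`. -/
def S_EQT : Prop :=
  ∀ (k E : Type) [Field k] [Field E] [CharZero E] (T : ∀ i : ℕ, Homology.{v} k E i) (hT : Full T),
    Pub T hT → (2 : k) ≠ 0 → ∀ (B : Type) [CommRing B] [Algebra k B] [Algebra.FiniteType k B]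
      (a : Fin 4 → B) (c : B) (w : QC B a c ≃ₐ[k] QC B a c), (∀ j, IsUnit (a j)) →
      Sgn ![1, -1, 1, -1] w → ∀ i, TR T (i + 2) (QC B a c) w

def M_EQT : Prop := S_EHT.{v} → S_EBC → S_ESG → S_ESP → S_EQT.{v}

/-- **ECM** (two varieties with isomorphic double covers).
Proof.  `g₁ = dbl b₁ c₁ k`, `g₂ = dbl b₂ c₂ k`, `τ₁`, `τ₂` the involutions `autc (dinv _ _ k)`, `ε = clo e` (the
isomorphism `Spec Dr X₂ → Spec Dr X₁`), so `P τ₁ (P ε x) = P ε (P τ₂ (P w x))` for all `x` (`push_comp`), and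
similarly for cycles.  `P ε` is bijective (inverse: `e.symm`).
(0) `P τ₁ (D m) = D m`: `D (G g₁ (D m)) = D m + P τ₁ (D m)` (`Galois`), `G g₁ (D m) = 2 m` (`Degree`).  Let `μ` be
the class with `P ε μ = D m` (`n ≥ 2 i`).  Then `P τ₂ (P w μ) = μ`, and `P w μ = μ` by `TR`, so `P τ₂ μ = μ` and
`D (G g₂ μ) = 2 μ`.
(1) `gen ≤ alg`: `m ∈ gen`, `G g₂ μ ∈ gen (X₂) ≤ alg`, `= cls x`, `D (cls x) = cls z` (`exists_dbl`), so
`2 μ = cls z`, `2 D m = cls (pushCyc ε z)`, `4 m = cls (pfc g₁ ...)` (`s_PFC` (4)).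
(2) `InjC`: let `cls z = 0` on `X₁`; `z₁` on `Dr X₁` with class zero and `pfc g₁ z₁ = 2 z` (`exists_dbl`), `z₂` its
transport to `Dr X₂`.  `pfc g₂ z₂` has class zero, so it is in `ratZero` and `= pfc g₂ z'`, `z' ∈ ratZero`
(`t_OLFT`, see O_OPFD).  `t_OKER`: `z₂ + τ₂ z₂ = z' + τ₂ z' ∈ ratZero`.  Transport to `Dr X₁` (`TR` for cycles):
`z₁ + τ₁ z₁ ∈ ratZero`; apply `pfc g₁`: `4 z ∈ ratZero` (`CUB.Asm2.s_PUSHG`).
(3) supports: `m ∈ gen1`, `n = 2 i + 1`: `G g₂ μ ∈ gen1 (X₂)` is `P ι w'`, `W = Spec X₂ / I` of dimension `≤ i + 1`;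
`W' = Spec Dr (X₂ / I)`, `w'' = D w' / 2`, `ι'' : W' → Spec Dr X₂`: `G g₂ (P ι'' w'') = P ι w' = G g₂ μ`.  Apply
`D`: `P ι'' w'' + P τ₂ (P ι'' w'') = 2 μ`.  So `μ`, `D m` and `2 m = G g₁ (D m)` have support of dimension
`≤ i + 1` (`supp_add`, `supp_push`, the push-forward lemma used in `pf_dbl`, F_DBL.lean).
(Compare `t_OPFD` in O_OPFD.lean, where `X₁` is replaced by `Dr X₂` itself; most of its lemmas apply.) -/
def S_ECM : Prop :=
  ∀ (k E : Type) [Field k] [Finite k] [Field E] [CharZero E] (T : ∀ i : ℕ, Homology.{v} k E i)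
    (hT : Full T) (S : DblMaps T), Pub T hT → S.Frobenius → S.Degree hT.toProperMaps →
    S.Classes → S.Galois hT.toProperMaps →
    ∀ (X₁ X₂ : Type) [CommRing X₁] [Algebra k X₁] [Algebra.FiniteType k X₁] [CommRing X₂]
      [Algebra k X₂] [Algebra.FiniteType k X₂] (b₁ c₁ : X₁) (b₂ c₂ : X₂)
      (e : Dr X₁ b₁ c₁ ≃ₐ[k] Dr X₂ b₂ c₂) (w : Dr X₂ b₂ c₂ ≃ₐ[k] Dr X₂ b₂ c₂),
      (∀ x, e (dinv b₁ c₁ k x) = w (dinv b₂ c₂ k (e x))) → ∀ i, TR T i (Dr X₂ b₂ c₂) w →
      (PF (T i) (aff k X₂) → PF (T i) (aff k X₁)) ∧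
        ((T i).gen (aff k X₂) ≤ (T i).alg (aff k X₂) → (T i).gen (aff k X₁) ≤ (T i).alg (aff k X₁))

/-- **EST** (the closure property for the twist, at all levels).
Proof.  Let `a' = ![a 0, - a 0, a 2, δ * a 3]`.  (1) At the levels `i + 2`: `S_ETW` gives `e, w, e', w'`; `TR T
(i + 2) _ w` by `S_EQT` for `QC (Dr B 0 (-δ)) _ _`, `w'` and `t_OISO` (`e'.symm`); `S_ECM`.  (2) Level `i`: let `B₂ =
MvPolynomial (Fin 2) B`.  From `aff k (QC B a' c)` at the level `i` to `MvPolynomial (Fin 2) (QC B a' c)` at the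
level `i + 2` by `pf_line` twice (`good_line` for `GG`; `MvPolynomial (Fin 2) R ≅ R[X][X]`: see
`pf_mv_desc`, `ppf_mv`), `S_EBM`, (1) for `B₂` (the vector `fun j => C (a' j)` is `![C (a 0), ...]`), `S_EBM`, and
descent along the polynomial ring at the level `i`: `pf_mv_desc` (G_RED3.lean), for `GG` as in T_TZE.lean
or `supp_line_desc`, `supp_cls`, `alg_of_supp` as in `gg_unline` (T_TGG.lean). -/
def S_EST : Prop :=
  ∀ (k E : Type) [Field k] [Finite k] [Field E] [CharZero E] (T : ∀ i : ℕ, Homology.{v} k E i)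
    (hT : Full T) (S : DblMaps T), Pub T hT → SectionZero T → S.Frobenius →
    S.Degree hT.toProperMaps → S.Classes → S.Galois hT.toProperMaps → (2 : k) ≠ 0 →
    TwCl k (fun A [CommRing A] [Algebra k A] [Algebra.FiniteType k A] => PPF T (aff k A)) ∧
      TwCl k (fun A [CommRing A] [Algebra k A] [Algebra.FiniteType k A] => GG T (aff k A))

def M_EST : Prop := S_ETW → S_EQT.{v} → S_ECM.{v} → S_EBM → S_EST.{v}

end QCV


end

section

/-!
# QCV, module EHT: the sign automorphism of the split quadric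
-/

set_option autoImplicit false

open CategoryTheory AlgebraicGeometry Limits Polynomial TopologicalSpace

namespace QCV

open Pool.Agent.Lib_helper55.Beil Pool.Agent.Lib_helper66.OneP CUB

universe v

namespace EHT

/-- A sign automorphism is an involution. -/
lemma sgn_sgn {k B : Type} [Field k] [CommRing B] [Algebra k B] {n : ℕ}
    {I : Ideal (MvPolynomial (Fin n) B)} {ε : Fin n → ℤ}
    {w : (MvPolynomial (Fin n) B ⧸ I) ≃ₐ[k] (MvPolynomial (Fin n) B ⧸ I)} (h : Sgn ε w)
    (hε : ∀ j, ε j * ε j = 1) (x : MvPolynomial (Fin n) B ⧸ I) : w (w x) = x := by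
  have h1 : ((w : (MvPolynomial (Fin n) B ⧸ I) →+* (MvPolynomial (Fin n) B ⧸ I)).comp
      (w : (MvPolynomial (Fin n) B ⧸ I) →+* (MvPolynomial (Fin n) B ⧸ I))) = RingHom.id _ := by
    apply Ideal.Quotient.ringHom_ext
    apply MvPolynomial.ringHom_ext
    · intro b
      change w (w (Ideal.Quotient.mk I (MvPolynomial.C b))) =
        Ideal.Quotient.mk I (MvPolynomial.C b)
      rw [h.1, h.1]
    · intro j
      change w (w (Ideal.Quotient.mk I (MvPolynomial.X j))) =
        Ideal.Quotient.mk I (MvPolynomial.X j)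
      rw [h.2, map_zsmul, h.2, smul_smul, hε, one_smul]
  exact RingHom.congr_fun h1 x

end EHT

theorem t_EHT : M_EHT.{v} := by
  intro hHQ hHP hGM k E _ _ _ T hT hP B _ _ _ c w hw i
  haveI f1 : Algebra.FiniteType B[X] (Localization.Away (X : B[X])) :=
    IsLocalization.finiteType_of_monoid_fg (Submonoid.powers (X : B[X])) _
  haveI f2 : Algebra.FiniteType k (Localization.Away (X : B[X])) :=
    Algebra.FiniteType.trans (S := B[X]) inferInstance f1
  have key : ∀ w₀ : HQ B c ≃ₐ[k] HQ B c, Sgn ![-1, -1] w₀ → TR T (i + 1) (HQ B c) w₀ := by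
    intro w₀ h₀
    obtain ⟨z, u, wZ, wX, wU, hS, hz, hu, hZC, hXC, hXX, hUX⟩ := hHQ k B c w₀ h₀
    refine t_OGLU k E T hT (HQ B c) (B ⧸ Ideal.span {c})[X] (Localization.Away (X : B[X])) _ z u
      w₀ wZ wU hS (EHT.sgn_sgn h₀ (by
        intro j
        fin_cases j <;> rfl)) hz hu (i + 1) ?_ ?_
    · exact t_OLN k E T hT (B ⧸ Ideal.span {c}) AlgEquiv.refl wZ (fun a => hZC a) i
        (OHYP.tr_refl T hT _ i)
    · exact hGM k E T hT hP B wX wU hXC hXX hUX i
  obtain ⟨z, u, w₀, wZ, w₁, wU, hS, hw₀, hz, hu, hZC, h₁C, hUC⟩ := hHP k B c w hw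
  refine t_OGLU k E T hT (HP B c) (HQ B c)[X] (Localization.Away (X : B[X]))[X][X] _ z u
    w wZ wU hS (EHT.sgn_sgn hw (by
      intro j
      fin_cases j <;> rfl)) hz hu (i + 2) ?_ ?_
  · exact t_OLN k E T hT (HQ B c) w₀ wZ hZC (i + 1) (key w₀ hw₀)
  · exact t_OLN k E T hT (Localization.Away (X : B[X]))[X] w₁ wU hUC (i + 1)
      (t_OLN k E T hT (Localization.Away (X : B[X])) AlgEquiv.refl w₁ (fun a => h₁C a) i
        (OHYP.tr_refl T hT _ i))

end QCV


end

section

/-!
# QCV, block E: the closure property for the twist, at all levels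
-/

set_option autoImplicit false

open CategoryTheory AlgebraicGeometry Limits Polynomial TopologicalSpace

namespace QCV

open Pool.Agent.Lib_helper55.Beil Pool.Agent.Lib_helper66.OneP CUB

universe v

namespace EST

variable {k : Type} [Field k] {E : Type} [Field E] {T : ∀ i : ℕ, Homology.{v} k E i}

/-- From the base to a product with an affine space. -/
theorem gg_mv_up (hT : Full T) (A : Type) [CommRing A] [Algebra k A] [Algebra.FiniteType k A]
    (i m : ℕ) (h : (T i).gen (aff k A) ≤ (T i).alg (aff k A)) :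
    (T (i + m)).gen (aff k (MvPolynomial (Fin m) A)) ≤
      (T (i + m)).alg (aff k (MvPolynomial (Fin m) A)) := by
  induction m with
  | zero =>
    let e : MvPolynomial (Fin 0) A ≃ₐ[k] A :=
      (MvPolynomial.isEmptyAlgEquiv A (Fin 0)).restrictScalars k
    exact TZE.gg_viso i (viso e) h
  | succ m ih =>
    let e : MvPolynomial (Fin (m + 1)) A ≃ₐ[k] (MvPolynomial (Fin m) A)[X] :=
      (MvPolynomial.finSuccEquiv A m).restrictScalars k
    exact TZE.gg_viso (i + m + 1) (viso e) (good_line hT.toExtra (i + m) _ ih)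

/-- From the base to a product with an affine space. -/
theorem pf_mv_up [PerfectField k] (hT : Full T) (hP : Pub T hT) (A : Type) [CommRing A]
    [Algebra k A] [Algebra.FiniteType k A] (i m : ℕ) (h : PF (T i) (aff k A)) :
    PF (T (i + m)) (aff k (MvPolynomial (Fin m) A)) := by
  induction m with
  | zero =>
    let e : MvPolynomial (Fin 0) A ≃ₐ[k] A :=
      (MvPolynomial.isEmptyAlgEquiv A (Fin 0)).restrictScalars k
    exact pf_viso hT hP i (viso e) h
  | succ m ih =>
    let e : MvPolynomial (Fin (m + 1)) A ≃ₐ[k] (MvPolynomial (Fin m) A)[X] :=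
      (MvPolynomial.finSuccEquiv A m).restrictScalars k
    exact pf_viso hT hP (i + m + 1) (viso e) (pf_line hT hP (i + m) _ ih)

lemma unit_vec {B : Type} [CommRing B] (a : Fin 4 → B) (δ : B) (ha : ∀ j, IsUnit (a j))
    (hδ : IsUnit δ) (j : Fin 4) : IsUnit ((![a 0, - a 0, a 2, δ * a 3] : Fin 4 → B) j) := by
  fin_cases j
  · exact ha 0
  · exact (ha 0).neg
  · exact ha 2
  · exact hδ.mul (ha 3)

lemma vec_C {B : Type} [CommRing B] (a : Fin 4 → B) (δ : B) :
    (fun j => (MvPolynomial.C ((![a 0, - a 0, a 2, δ * a 3] : Fin 4 → B) j) :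
        MvPolynomial (Fin 2) B)) =
      ![MvPolynomial.C (a 0), - MvPolynomial.C (a 0), MvPolynomial.C (a 2),
        MvPolynomial.C δ * MvPolynomial.C (a 3)] := by
  funext j
  fin_cases j
  · rfl
  · exact map_neg _ _
  · rfl
  · exact map_mul _ _ _

/-- The step, at the levels `i + 2`. -/
theorem step [Finite k] [CharZero E] (hETW : S_ETW) (hEQT : S_EQT.{v}) (hECM : S_ECM.{v})
    (hT : Full T) (S : DblMaps T) (hP : Pub T hT) (hF : S.Frobenius)
    (hD : S.Degree hT.toProperMaps) (hC : S.Classes) (hG : S.Galois hT.toProperMaps)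
    (h2 : (2 : k) ≠ 0) (B : Type) [CommRing B] [Algebra k B] [Algebra.FiniteType k B]
    (a : Fin 4 → B) (c δ : B) (ha : ∀ j, IsUnit (a j)) (hδ : IsUnit δ) (h : δ * a 0 = - a 1)
    (i : ℕ) :
    (PF (T (i + 2)) (aff k (QC B ![a 0, - a 0, a 2, δ * a 3] c)) →
        PF (T (i + 2)) (aff k (QC B a c))) ∧
      ((T (i + 2)).gen (aff k (QC B ![a 0, - a 0, a 2, δ * a 3] c)) ≤
        (T (i + 2)).alg (aff k (QC B ![a 0, - a 0, a 2, δ * a 3] c)) →
        (T (i + 2)).gen (aff k (QC B a c)) ≤ (T (i + 2)).alg (aff k (QC B a c))) := by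
  obtain ⟨e, w, e', w', hw', h3, h4⟩ := hETW k B a c δ hδ h
  have h5 := hEQT k E T hT hP h2 (Dr B 0 (-δ)) _ _ w'
    (fun j => (unit_vec a δ ha hδ j).map (algebraMap B (Dr B 0 (-δ)))) hw' i
  have h6 := t_OISO k E T hT _ _ w' w e'.symm (fun x => by
    rw [AlgEquiv.symm_apply_eq, h4, AlgEquiv.apply_symm_apply]) (i + 2) h5
  exact hECM k E T hT S hP hF hD hC hG _ _ _ _ _ _ e w h3 (i + 2) h6

end EST

/-- **EST**. -/
theorem t_EST : M_EST.{v} := by
  intro hETW hEQT hECM hEBM k E _ _ _ _ T hT S hP hS hF hD hC hG h2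
  have hst : ∀ (B : Type) [CommRing B] [Algebra k B] [Algebra.FiniteType k B] (a : Fin 4 → B)
      (c δ : B) (_ : ∀ j, IsUnit (a j)) (_ : IsUnit δ) (_ : δ * a 0 = - a 1) (i : ℕ),
      (PF (T i) (aff k (QC B ![a 0, - a 0, a 2, δ * a 3] c)) → PF (T i) (aff k (QC B a c))) ∧
      ((T i).gen (aff k (QC B ![a 0, - a 0, a 2, δ * a 3] c)) ≤
        (T i).alg (aff k (QC B ![a 0, - a 0, a 2, δ * a 3] c)) →
        (T i).gen (aff k (QC B a c)) ≤ (T i).alg (aff k (QC B a c))) := by
    intro B _ _ _ a c δ ha hδ h i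
    obtain ⟨e1⟩ := hEBM k B ![a 0, - a 0, a 2, δ * a 3] c
    obtain ⟨e2⟩ := hEBM k B a c
    have h3 := EST.step hETW hEQT hECM hT S hP hF hD hC hG h2 (MvPolynomial (Fin 2) B)
      (fun j => MvPolynomial.C (a j)) (MvPolynomial.C c) (MvPolynomial.C δ)
      (fun j => (ha j).map MvPolynomial.C) (hδ.map MvPolynomial.C)
      (by rw [← map_mul, h, map_neg]) i
    rw [← EST.vec_C a δ] at h3
    constructor
    · intro h4
      refine pf_mv_desc hT hP hS _ i 2 ?_
      refine pf_viso hT hP (i + 2) (viso e2.symm) (h3.1 ?_)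
      exact pf_viso hT hP (i + 2) (viso e1) (EST.pf_mv_up hT hP _ i 2 h4)
    · intro h4
      refine TZE.gg_mv_desc hT hP hS _ i 2 ?_
      refine TZE.gg_viso (i + 2) (viso e2.symm) (h3.2 ?_)
      exact TZE.gg_viso (i + 2) (viso e1) (EST.gg_mv_up hT _ i 2 h4)
  exact ⟨fun B _ _ _ a c δ ha hδ h h4 i => (hst B a c δ ha hδ h i).1 (h4 i),
    fun B _ _ _ a c δ ha hδ h h4 i => (hst B a c δ ha hδ h i).2 (h4 i)⟩

end QCV


end
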