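import Mathlib
import Pool.Agent.QVM.C47
import Pool.Agent.QVM.C59

/-! Parts: QCV.T_TBU, QCV.U_UPD, QCV.E_EBC -/

section

/-!
# QCV, module TBU: line bundles, for `gen ≤ alg` alone
-/

set_option autoImplicit false

open CategoryTheory AlgebraicGeometry Limits Polynomial TopologicalSpace

namespace QCV

open Pool.Agent.Lib_helper55.Beil Pool.Agent.Lib_helper66.OneP CUB

universe v

/-- The first component of `t_BDS`. -/
lemma gen_bun_desc {k E : Type} [Field k] [Finite k] [Field E] [CharZero E]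
    {T : ∀ i : ℕ, Homology.{v} k E i} (hT : Full T) (hP : Pub T hT) (hS : SectionZero T)
    (S : BunMaps T) (hG : S.Good hT) (i : ℕ) {Y X : Var k} (B : Bun Y X)
    (h : (T (i + 1)).gen Y ≤ (T (i + 1)).alg Y) : (T i).gen X ≤ (T i).alg X := by
  have hfr := hG.1
  intro α hα
  refine alg_of_supp i X α hα (BSU.main k E T hT hP hS S hG i (2 * i) i B α ?_)
  have h1 : S.V i (2 * i) B α ∈ (T (i + 1)).gen Y :=
    maxGen_map ((T i).frob (2 * i) X) ((T (i + 1)).frob (2 * (i + 1)) Y) (S.pb i (2 * i) B)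
      (hfr i (2 * i) B) hα
  obtain ⟨c, hc⟩ := exists_cls (T (i + 1)) Y _ (h h1)
  have h2 := supp_cls (T := T) (i + 1) Y c
  have h3 : clz (T (i + 1)) Y c = S.V i (2 * i) B α := hc
  rw [h3] at h2
  exact h2

/-- **TBU**. -/
theorem t_TBU : S_TBU.{v} := by
  intro k E _ _ _ _ T hT hP hS S hG Y X U B s j hs hc hU
  obtain ⟨D, hD⟩ := CUB.t_FDM k X
  have key : ∀ m i : ℕ, D ≤ i + m → (T i).gen X ≤ (T i).alg X := by
    intro m
    induction m with
    | zero =>
      intro i hi
      exact (pf_of_dimLE hT hP i X fun x => (hD x).trans (by exact_mod_cast hi)).1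
    | succ m ih =>
      intro i hi
      exact gen_bun_desc hT hP hS S hG i B
        ((T (i + 1)).glue s j hc (ih (i + 1) (by omega)) (hU (i + 1)))
  intro i
  exact key D i (by omega)

end QCV


end

section

/-!
# Module UPD: fewer equations
-/

set_option autoImplicit false

open CategoryTheory AlgebraicGeometry Limits Polynomial TopologicalSpace

namespace QCV

open Pool.Agent.Lib_helper55.Beil Pool.Agent.Lib_helper66.OneP CUB

universe v

namespace UPD

/-- `f` with a zero appended -/
noncomputable def app {R : Type} [CommRing R] {n q : ℕ} (f : Fin (q + 1) → MvPolynomial (Fin n) R) :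
    Fin (q + 1 + 1) → MvPolynomial (Fin n) R :=
  Fin.snoc (α := fun _ => MvPolynomial (Fin n) R) f 0

theorem app_castSucc {R : Type} [CommRing R] {n q : ℕ} (f : Fin (q + 1) → MvPolynomial (Fin n) R)
    (j : Fin (q + 1)) : app f j.castSucc = f j := by
  unfold app
  exact Fin.snoc_castSucc (α := fun _ => MvPolynomial (Fin n) R) _ _ _

theorem app_last {R : Type} [CommRing R] {n q : ℕ} (f : Fin (q + 1) → MvPolynomial (Fin n) R) :
    app f (Fin.last (q + 1)) = 0 := by
  unfold app
  exact Fin.snoc_last (α := fun _ => MvPolynomial (Fin n) R) _ _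

theorem span_app {R : Type} [CommRing R] {n q : ℕ} (f : Fin (q + 1) → MvPolynomial (Fin n) R) :
    Ideal.span (Set.range (app f)) = Ideal.span (Set.range f) := by
  apply le_antisymm
  · rw [Ideal.span_le]
    rintro _ ⟨j, rfl⟩
    induction j using Fin.lastCases with
    | last => rw [app_last]; exact Ideal.zero_mem _
    | cast j => rw [app_castSucc]; exact Ideal.subset_span ⟨j, rfl⟩
  · rw [Ideal.span_le]
    rintro _ ⟨j, rfl⟩
    rw [← app_castSucc f j]
    exact Ideal.subset_span ⟨_, rfl⟩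

theorem gen_app {R : Type} [CommRing R] {n q : ℕ} (f : Fin (q + 1) → MvPolynomial (Fin n) R) :
    gen (app f) = MvPolynomial.map (MvPolynomial.rename (R := R)
      (Fin.castSucc : Fin q → Fin (q + 1))).toRingHom (gen f) := by
  unfold gen
  rw [map_add, map_sum, Fin.sum_univ_castSucc]
  have h0 : app f 0 = f 0 := app_castSucc f 0
  have hc : ((MvPolynomial.rename (R := R) (Fin.castSucc : Fin q → Fin (q + 1))).toRingHom).comp
      (MvPolynomial.C : R →+* MvPolynomial (Fin q) R) = MvPolynomial.C := by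
    ext x
    simp
  rw [h0, Fin.succ_last, app_last, map_zero, mul_zero, add_zero, MvPolynomial.map_map, hc]
  congr 1
  refine Finset.sum_congr rfl fun i _ => ?_
  rw [Fin.succ_castSucc, app_castSucc, map_mul, MvPolynomial.map_map, hc, MvPolynomial.map_C]
  congr 2
  simp

theorem gram_map {A B : Type} [CommRing A] [CommRing B] (φ : A →+* B) {n : ℕ}
    (p : MvPolynomial (Fin n) A) : gram (MvPolynomial.map φ p) = φ.mapMatrix (gram p) := by
  ext i j
  simp only [gram, RingHom.mapMatrix_apply, Matrix.map_apply]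
  rw [MvPolynomial.pderiv_map, MvPolynomial.pderiv_map, MvPolynomial.coeff_map]

end UPD

open _root_.QCV.UPD in
theorem t_UPD : S_UPD.{v} := by
  intro k E _ _ T q hT s f hf hdet
  have h := hT s (app f) (by
    intro j
    induction j using Fin.lastCases with
    | last => rw [app_last]; exact MvPolynomial.isHomogeneous_zero _ _ _
    | cast j => rw [app_castSucc]; exact hf j) (by
    rw [gen_app, gram_map, ← RingHom.map_det]
    intro h0
    apply hdet
    exact MvPolynomial.rename_injective _ (Fin.castSucc_injective q) (by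
      rw [map_zero]
      exact h0))
  have key : ∀ (I J : Ideal (MvPolynomial (Fin (1 + 2 * s)) k)), I = J →
      ∀ (_ : Algebra.FiniteType k (MvPolynomial (Fin (1 + 2 * s)) k ⧸ I))
        (_ : Algebra.FiniteType k (MvPolynomial (Fin (1 + 2 * s)) k ⧸ J)),
      GG T (aff k (MvPolynomial (Fin (1 + 2 * s)) k ⧸ I)) →
        GG T (aff k (MvPolynomial (Fin (1 + 2 * s)) k ⧸ J)) := by
    rintro I _ rfl _ _ h
    exact h
  exact key _ _ (span_app f) _ _ h

end QCV


end

section

/-!
# QCV, module EBC: base change of an affine hypersurface to a double cover of the base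
-/

set_option autoImplicit false

open Polynomial

namespace QCV

namespace EBC

section

variable {B : Type} [CommRing B] (F : MvPolynomial (Fin 4) B) (δ : B)
  (F' : MvPolynomial (Fin 4) (Dr B 0 δ))

/-- The algebra over `B`. -/
abbrev S0 : Type := MvPolynomial (Fin 4) B ⧸ Ideal.span {F}

/-- The algebra over the double cover. -/
abbrev S1 : Type := MvPolynomial (Fin 4) (Dr B 0 δ) ⧸ Ideal.span {F'}

/-- The double cover of the algebra. -/
abbrev D0 : Type := Dr (S0 F) 0 (Ideal.Quotient.mk _ (MvPolynomial.C δ))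

variable {F'} (hF : MvPolynomial.map (algebraMap B (Dr B 0 δ)) F = F')

/-- The base change map. -/
noncomputable def f0 : S0 F →+* S1 δ F' :=
  Ideal.Quotient.lift _ ((Ideal.Quotient.mk _).comp (MvPolynomial.map (algebraMap B (Dr B 0 δ))))
    (by
      have h : Ideal.span {F} ≤ RingHom.ker ((Ideal.Quotient.mk (Ideal.span {F'})).comp
          (MvPolynomial.map (algebraMap B (Dr B 0 δ)))) := by
        rw [Ideal.span_le, Set.singleton_subset_iff, SetLike.mem_coe, RingHom.mem_ker,
          RingHom.comp_apply, hF]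
        exact Ideal.Quotient.eq_zero_iff_mem.2 (Ideal.subset_span rfl)
      exact fun a ha => h ha)

theorem f0_mk (p : MvPolynomial (Fin 4) B) : f0 F δ hF (Ideal.Quotient.mk _ p) =
    Ideal.Quotient.mk _ (MvPolynomial.map (algebraMap B (Dr B 0 δ)) p) := rfl

/-- The map from the double cover of the algebra. -/
noncomputable def f1 : D0 F δ →+* S1 δ F' :=
  AdjoinRoot.lift (f0 F δ hF) (Ideal.Quotient.mk _ (MvPolynomial.C (rt 0 δ))) (by
    rw [eval₂_dpoly, f0_mk, MvPolynomial.map_C, map_zero, zero_mul, add_zero, ← map_pow,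
      ← map_pow, ← map_add, ← map_add]
    have h := rt_eq 0 δ
    rw [map_zero, zero_mul, add_zero] at h
    rw [h, map_zero, map_zero])

theorem f1_of (x : S0 F) : f1 F δ hF (algebraMap _ _ x) = f0 F δ hF x :=
  AdjoinRoot.lift_of _

theorem f1_rt : f1 F δ hF (rt _ _) = Ideal.Quotient.mk _ (MvPolynomial.C (rt 0 δ)) :=
  AdjoinRoot.lift_root _

/-- The map of the bases. -/
noncomputable def g0 : Dr B 0 δ →+* D0 F δ :=
  AdjoinRoot.lift ((algebraMap (S0 F) (D0 F δ)).comp ((Ideal.Quotient.mk _).comp MvPolynomial.C))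
    (rt _ _) (by
      rw [eval₂_dpoly, map_zero, zero_mul, add_zero]
      have h := rt_eq (A := S0 F) 0 (Ideal.Quotient.mk _ (MvPolynomial.C δ))
      rw [map_zero, zero_mul, add_zero] at h
      exact h)

theorem g0_of (b : B) : g0 F δ (algebraMap _ _ b) =
    algebraMap (S0 F) (D0 F δ) (Ideal.Quotient.mk _ (MvPolynomial.C b)) :=
  AdjoinRoot.lift_of _

theorem g0_rt : g0 F δ (rt 0 δ) = rt _ _ :=
  AdjoinRoot.lift_root _

/-- The map of the polynomial rings. -/
noncomputable def g2 : MvPolynomial (Fin 4) (Dr B 0 δ) →+* D0 F δ :=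
  MvPolynomial.eval₂Hom (g0 F δ)
    (fun j => algebraMap (S0 F) (D0 F δ) (Ideal.Quotient.mk _ (MvPolynomial.X j)))

theorem g2_map (p : MvPolynomial (Fin 4) B) :
    g2 F δ (MvPolynomial.map (algebraMap B (Dr B 0 δ)) p) =
      algebraMap (S0 F) (D0 F δ) (Ideal.Quotient.mk _ p) := by
  have h : (g2 F δ).comp (MvPolynomial.map (algebraMap B (Dr B 0 δ))) =
      (algebraMap (S0 F) (D0 F δ)).comp (Ideal.Quotient.mk _) := by
    refine MvPolynomial.ringHom_ext (fun r => ?_) (fun i => ?_)
    · rw [RingHom.comp_apply, MvPolynomial.map_C, RingHom.comp_apply]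
      unfold g2
      rw [MvPolynomial.eval₂Hom_C, g0_of]
    · rw [RingHom.comp_apply, MvPolynomial.map_X, RingHom.comp_apply]
      unfold g2
      rw [MvPolynomial.eval₂Hom_X']
  exact congrArg (fun φ : MvPolynomial (Fin 4) B →+* _ => φ p) h

/-- The map to the double cover of the algebra. -/
noncomputable def g1 : S1 δ F' →+* D0 F δ :=
  Ideal.Quotient.lift _ (g2 F δ)
    (by
      have h : Ideal.span {F'} ≤ RingHom.ker (g2 F δ) := by
        rw [Ideal.span_le, Set.singleton_subset_iff, SetLike.mem_coe, RingHom.mem_ker, ← hF,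
          g2_map, (Ideal.Quotient.eq_zero_iff_mem (I := Ideal.span {F})).2
          (Ideal.subset_span rfl), map_zero]
      exact fun a ha => h ha)

theorem g1_mk (p : MvPolynomial (Fin 4) (Dr B 0 δ)) : g1 F δ hF (Ideal.Quotient.mk _ p) =
    g2 F δ p := rfl

theorem fg : (f1 F δ hF).comp (g1 F δ hF) = RingHom.id _ := by
  refine Ideal.Quotient.ringHom_ext ?_
  refine MvPolynomial.ringHom_ext (fun r => ?_) (fun i => ?_)
  · change f1 F δ hF (g1 F δ hF (Ideal.Quotient.mk _ (MvPolynomial.C r))) =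
      Ideal.Quotient.mk _ (MvPolynomial.C r)
    rw [g1_mk]
    unfold g2
    rw [MvPolynomial.eval₂Hom_C]
    have h : (f1 F δ hF).comp (g0 F δ) = (Ideal.Quotient.mk _).comp MvPolynomial.C := by
      apply AdjoinRoot.ringHom_ext
      · ext1 a
        change f1 F δ hF (g0 F δ (algebraMap B (Dr B 0 δ) a)) =
          Ideal.Quotient.mk _ (MvPolynomial.C (algebraMap B (Dr B 0 δ) a))
        rw [g0_of, f1_of, f0_mk, MvPolynomial.map_C]
      · change f1 F δ hF (g0 F δ (rt 0 δ)) = Ideal.Quotient.mk _ (MvPolynomial.C (rt 0 δ))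
        rw [g0_rt, f1_rt]
    exact congrArg (fun φ : Dr B 0 δ →+* _ => φ r) h
  · change f1 F δ hF (g1 F δ hF (Ideal.Quotient.mk _ (MvPolynomial.X i))) =
      Ideal.Quotient.mk _ (MvPolynomial.X i)
    rw [g1_mk]
    unfold g2
    rw [MvPolynomial.eval₂Hom_X', f1_of, f0_mk, MvPolynomial.map_X]

theorem gf : (g1 F δ hF).comp (f1 F δ hF) = RingHom.id _ := by
  apply AdjoinRoot.ringHom_ext
  · refine Ideal.Quotient.ringHom_ext ?_
    refine RingHom.ext fun p => ?_
    change g1 F δ hF (f1 F δ hF (algebraMap (S0 F) (D0 F δ) (Ideal.Quotient.mk _ p))) =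
      algebraMap (S0 F) (D0 F δ) (Ideal.Quotient.mk _ p)
    rw [f1_of, f0_mk, g1_mk, g2_map]
  · change g1 F δ hF (f1 F δ hF (rt _ _)) = rt _ _
    rw [f1_rt, g1_mk]
    unfold g2
    rw [MvPolynomial.eval₂Hom_C, g0_rt]

end

end EBC

theorem t_EBC : S_EBC := by
  intro k B _ _ _ a c δ
  have hF : MvPolynomial.map (algebraMap B (Dr B 0 δ))
      (dia a + MvPolynomial.C c : MvPolynomial (Fin 4) B) =
      (dia (fun j => algebraMap B (Dr B 0 δ) (a j)) +
        MvPolynomial.C (algebraMap B (Dr B 0 δ) c)) := by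
    unfold dia
    simp only [map_add, map_sum, map_mul, map_pow, MvPolynomial.map_C, MvPolynomial.map_X]
  refine ⟨AlgEquiv.ofRingEquiv (f := RingEquiv.ofRingHom (EBC.f1 _ δ hF) (EBC.g1 _ δ hF)
    (EBC.fg _ δ hF) (EBC.gf _ δ hF)) ?_, fun p => ?_, ?_⟩
  · intro r
    have h1 := EBC.f1_of _ δ hF (Ideal.Quotient.mk _ (MvPolynomial.C (algebraMap k B r)))
    rw [EBC.f0_mk, MvPolynomial.map_C] at h1
    exact h1
  · exact EBC.f1_of _ δ hF (Ideal.Quotient.mk _ p)
  · exact EBC.f1_rt _ δ hF

end QCV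


end
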