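import Mathlib
import Pool.Agent.QVM.C59

/-! Parts: QCV.T_TGG, QCV.T_ALL, QCV.U_ALL, QCV.T_TCL, QCV.T_TOD, QCV.U_UAF, QCV.U_UNO -/

section

/-!
# QCV, module TGG: closure properties of `GG`
-/

set_option autoImplicit false

open CategoryTheory AlgebraicGeometry Limits Polynomial TopologicalSpace

namespace QCV

open Pool.Agent.Lib_helper55.Beil Pool.Agent.Lib_helper66.OneP CUB

universe v

variable {k : Type} [Field k] {E : Type} [Field E] {T : ∀ i : ℕ, Homology.{v} k E i}

lemma gg_empty (X : Var k) (h : IsEmpty X.X) : GG T X :=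
  fun i => (T i).good_of_subsingleton X ((T i).empty _ X h)

lemma gg_glue {Z U X : Var k} (a : ClosedIn Z X) (j : OpenIn U X) (hc : Complementary a j)
    (hZ : GG T Z) (hU : GG T U) : GG T X :=
  fun i => (T i).glue a j hc (hZ i) (hU i)

lemma gg_red (X : Var k) (h : GG T (redVar X)) : GG T X :=
  gg_glue (redVarIn X) (openVarIn X ⊥) (complementary_red X) h
    (gg_empty _ (isEmpty_openVar_bot X))

lemma gg_iso {X Y : Var k} (s : VIso X Y) (h : GG T X) : GG T Y := by
  have hc : Complementary s.cl (openVarIn Y ⊥) := by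
    rw [Complementary, s.range, range_openVarIn]
    simp
  exact gg_glue s.cl (openVarIn Y ⊥) hc h (gg_empty _ (isEmpty_openVar_bot Y))

lemma gg_nil (hT : Full T) {Z X : Var k} (a : ClosedIn Z X) (hs : Function.Surjective a.g)
    (h : GG T X) : GG T Z := by
  intro i m hm
  have h1 : (T i).P (2 * i) a m ∈ (T i).gen X :=
    maxGen_map ((T i).frob (2 * i) Z) ((T i).frob (2 * i) X) ((T i).push (2 * i) a)
      ((T i).push_frob (2 * i) a) hm
  obtain ⟨c, hc⟩ := exists_cls (T i) X _ (h i h1)
  obtain ⟨c', rfl⟩ := exists_pushCyc a (openVarIn X ⊥) (complementary_surj a hs) c (by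
    ext u
    exact ((isEmpty_openVar_bot X).false u.1).elim)
  have h2 : m = cls (T i) Z c' := by
    apply push_inj_surj hT i (2 * i) a hs
    rw [push_cls', hc]
  rw [h2]
  exact (T i).linComb_mem_alg _ _

lemma gg_unline [Finite k] [CharZero E] (hT : Full T) (hP : Pub T hT) (hS : SectionZero T)
    {Y X : Var k} (L : Line Y X) (h : GG T Y) : GG T X := by
  intro i α hα
  refine alg_of_supp i X α hα (supp_line_desc hT hP hS i (2 * i) i L α ?_)
  have h1 : hT.line i (2 * i) L α ∈ (T (i + 1)).gen Y :=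
    maxGen_map ((T i).frob (2 * i) X) ((T (i + 1)).frob (2 * (i + 1)) Y) (hT.line i (2 * i) L)
      (hT.line_frob i (2 * i) L) hα
  obtain ⟨c, hc⟩ := exists_cls (T (i + 1)) Y _ (h (i + 1) h1)
  have h2 := supp_cls (T := T) (i + 1) Y c
  have h3 : clz (T (i + 1)) Y c = hT.line i (2 * i) L α := hc
  rw [h3] at h2
  exact h2

/-- **TGG**. -/
theorem t_TGG : S_TGG.{v} := by
  intro k E _ _ _ _ T hT hP hS hE
  exact
    { iso := gg_iso
      nil := gg_nil hT
      red := gg_red
      empty := gg_empty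
      glue := gg_glue
      opn := by
        intro U X j h i
        have hop := j.isOpen
        rcases i with _ | i
        · exact (pf_zero hT hP U).1
        · let K : Closeds X.X :=
            (⟨Set.range j.g, j.g.isOpenEmbedding.isOpen_range⟩ : Opens X.X).compl
          have hcomp : Complementary (closedVarIn X K) j := by
            rw [Complementary, range_closedVarIn]
            rfl
          exact good_open hT hP i (closedVarIn X K) j hcomp (h (i + 1))
      line := by
        intro A _ _ _ h i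
        rcases i with _ | i
        · exact (pf_zero hT hP _).1
        · exact good_line hT.toExtra i A (h i)
      unline := gg_unline hT hP hS
      unpoly := by
        intro A _ _ _ h
        exact gg_unline hT hP hS (lineE (CC k A) (RingEquiv.refl _) (fun _ => rfl)) h
      dbl := by
        intro A _ _ _ b c h i
        obtain ⟨S, h1, h2, -⟩ := hP.dbl
        exact good_dbl hT S h1 h2 i A b c (h i)
      et := fun f hint h i => U3.good_et hT hE.etPull i f hint (h i) }

end QCV


end

section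

/-!
# QCV: the conjecture of Tate on the class `Built`, and the equivalence theorem
-/

set_option autoImplicit false

open CategoryTheory AlgebraicGeometry Limits Polynomial TopologicalSpace

namespace QCV

open Pool.Agent.Lib_helper55.Beil Pool.Agent.Lib_helper66.OneP CUB

universe v

variable {k : Type} [Field k] {E : Type} [Field E] {T : ∀ i : ℕ, Homology.{v} k E i} {hT : Full T}

/-- The property `GG` in dimension at most `d` implies `GG` on the class. -/
theorem gg_of_built_of (hTZE : S_TZE.{v}) (hTOD : S_TOD.{v}) (hTBU : S_TBU.{v}) [Finite k]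
    [CharZero E] (hP : Pub2 T hT) (d : ℕ) (hB : ∀ X : Var k, X.DimLE d → GG T X) (X : Var k)
    (h : Built k d X) : GG T X := by
  have hG : GGC T := t_TGG k E T hT hP.toPub hP.sectionZero hP.etale
  induction h with
  | small X hX => exact hB X hX
  | iso s _ ih => exact hG.iso s ih
  | nil a hs _ ih => exact hG.nil a hs ih
  | paste a j hc _ _ ihZ ihU => exact hG.glue a j hc ihZ ihU
  | cut a j hc _ _ ihX ihZ => exact hG.opn j ihX
  | line A _ ih => exact hG.line A ih
  | unline L _ ih => exact hG.unline L ih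
  | cover A b c _ ih => exact hG.dbl A b c ih
  | etale f hint _ ih => exact hG.et f hint ih
  | bundle B s j hs hc _ ih =>
    obtain ⟨S, hS⟩ := hP.bundles
    exact hTBU k E T hT hP.toPub hP.sectionZero S hS B s j hs hc ih
  | odd A m a ha _ ih =>
    obtain ⟨S, h1, h2, h3, h4⟩ := hP.dbl
    exact hTOD k E T hT S hP.toPub hP.sectionZero h1 h2 h3 h4 A m a ha ih
  | zeros A m f _ ih =>
    exact hTZE k E T hT hP.toPub hP.sectionZero A m f ih

/-- The conjecture of Tate (in the formulation of Jannsen) for `X`: the classes of cycles span the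
Frobenius invariants, and Frobenius acts semisimply at the eigenvalue one. -/
def Tate (T : ∀ i : ℕ, Homology.{v} k E i) (X : Var k) : Prop :=
  ∀ i, (T i).Surj X ∧ (T i).Semisimple X

lemma gg_iff (X : Var k) : GG T X ↔ Tate T X := by
  constructor
  · intro h i
    exact ⟨(T i).surj_of_good X (h i), (T i).semisimple_of_good X (h i)⟩
  · intro h i
    exact CUB.OPEN.good (T i) X (h i).1 (h i).2

end QCV


end

section

/-!
# QCV: universality of systems of quadratic forms
-/

set_option autoImplicit false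

open CategoryTheory AlgebraicGeometry Limits Polynomial TopologicalSpace

namespace QCV

open Pool.Agent.Lib_helper55.Beil Pool.Agent.Lib_helper66.OneP CUB

universe v

variable {k : Type} [Field k] {E : Type} [Field E] {T : ∀ i : ℕ, Homology.{v} k E i} {hT : Full T}

lemma clsT_gg (hG : GGC T) :
    ClsT k (fun A [CommRing A] [Algebra k A] [Algebra.FiniteType k A] => GG T (aff k A)) where
  iso := fun e h => hG.iso (viso e.symm) h
  triv := fun A _ _ _ h => hG.empty _ (isEmpty_aff A h)
  glue := fun a z u s hZ hU => hG.glue _ _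
    (complementary_away u a s.away z s.surj s.ker) hZ hU
  opn := fun a u h hA => hG.opn (opn u (isOpenImmersion_spm u a h)) hA
  line := hG.line

lemma cls0_gg (hG : GGC T) :
    Cls0 k (fun A [CommRing A] [Algebra k A] [Algebra.FiniteType k A] => GG T (aff k A)) where
  iso := fun e h => hG.iso (viso e.symm) h
  triv := fun A _ _ _ h => hG.empty _ (isEmpty_aff A h)
  glue := fun a z u s hZ hU => hG.glue _ _
    (complementary_away u a s.away z s.surj s.ker) hZ hU
  opn := fun a _ u s hA _ => hG.opn (opn u (isOpenImmersion_spm u a s.away)) hA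

lemma ppf_field [Finite k] [CharZero E] (hP : Pub T hT) : PPF T (aff k k) :=
  fun i => pf_of_dimLE hT hP i _
    (fun x => (dimLE_of_DL (dl_field k) x).trans (by exact_mod_cast Nat.zero_le i))

lemma ppf_poly [Finite k] [CharZero E] (hP : Pub T hT) (n : ℕ) :
    PPF T (aff k (MvPolynomial (Fin n) k)) :=
  (Asm.s_PLY k (fun A [CommRing A] [Algebra k A] [Algebra.FiniteType k A] => PPF T (aff k A))
    (cls0_ppf hT hP) (fun A _ _ _ h => ppf_line hT hP A h) k n).1 (ppf_field hP)

/-- One polynomial: from a system of `m + 1` quadratic forms to the hypersurface `g = 0`. -/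
lemma gg_hyper_of (hULZ : S_ULZ) (hUGM : S_UGM) (hUDT : S_UDT) (hUSB : S_USB) (hUST : S_UST)
    (hUHY : S_UHY.{v}) (hUGA : S_UGA) (hTGM : S_TGM.{v}) (hTZE : S_TZE.{v}) (hTOD : S_TOD.{v})
    (hTBU : S_TBU.{v}) [Finite k] [CharZero E] (hP : Pub2 T hT) (h2 : (2 : k) ≠ 0) (d : ℕ)
    (hlow : ∀ X : Var k, X.DimLE d → GG T X) (ho : OddTate T (d + 2))
    (g : MvPolynomial (Fin (d + 2)) k) :
    GG T (aff k (MvPolynomial (Fin (d + 2)) k ⧸ Ideal.span {g})) := by
  have hG : GGC T := t_TGG k E T hT hP.toPub hP.sectionZero hP.etale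
  have hpoly := ppf_poly hP.toPub (T := T) (d + 2)
  have h2B : (2 : MvPolynomial (Fin (d + 2)) k) ≠ 0 := by
    intro h
    apply h2
    have h3 : MvPolynomial.C (2 : k) = (0 : MvPolynomial (Fin (d + 2)) k) := by
      rw [← h]
      exact map_ofNat _ 2
    exact MvPolynomial.C_eq_zero.mp h3
  by_cases hg : g = 0
  · subst hg
    refine (clsT_gg hG).iso (A := MvPolynomial (Fin (d + 2)) k) ?_ (fun i => (hpoly i).1)
    have h1 : Ideal.span {(0 : MvPolynomial (Fin (d + 2)) k)} = ⊥ := by simp
    exact ((Ideal.quotientEquivAlgOfEq k h1).trans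
      (AlgEquiv.quotientBot k (MvPolynomial (Fin (d + 2)) k))).symm
  obtain ⟨s, f, P, hf, hPu, heq⟩ := hULZ k (d + 2) 1
    (MvPolynomial.C g * MvPolynomial.X 0 ^ 2)
    ((MvPolynomial.isHomogeneous_C_mul_X_pow g 0 2))
  have hdet : (gram (gen f)).det ≠ 0 := by
    have h3 : gram (gen f) = lgram (lsub P (hyp (MvPolynomial.C g * MvPolynomial.X 0 ^ 2 :
        MvPolynomial (Fin 1) (MvPolynomial (Fin (d + 2)) k)) s)) := by
      rw [heq]
      rfl
    have h4 := hUGM _ (1 + 2 * s) (hyp (MvPolynomial.C g * MvPolynomial.X 0 ^ 2 :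
        MvPolynomial (Fin 1) (MvPolynomial (Fin (d + 2)) k)) s) P ?_
    · rw [h3, h4, Matrix.det_mul, Matrix.det_mul, Matrix.det_transpose]
      exact mul_ne_zero (mul_ne_zero hPu.ne_zero (hUDT _ g s h2B hg)) hPu.ne_zero
    · refine MvPolynomial.IsHomogeneous.add ?_ ?_
      · exact (MvPolynomial.isHomogeneous_C_mul_X_pow g 0 2).rename_isHomogeneous
      · refine MvPolynomial.IsHomogeneous.sum _ _ _ fun i _ => ?_
        exact (MvPolynomial.isHomogeneous_X _ _).mul (MvPolynomial.isHomogeneous_X _ _)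
  have h5 : GG T (aff k (MvPolynomial (Fin (d + 2)) (MvPolynomial (Fin (1 + 2 * s)) k) ⧸
      Ideal.span {fs f})) := by
    refine hUST k (fun A [CommRing A] [Algebra k A] [Algebra.FiniteType k A] => GG T (aff k A))
      (clsT_gg hG) (d + 2) (MvPolynomial (Fin (1 + 2 * s)) k) f ?_ (ho s f hf hdet)
    intro j hj
    have h6 : f '' {l : Fin (d + 2 + 1) | 1 ≤ l.1 ∧ l.1 ≤ j} =
        Set.range (fun l : Fin j => f ⟨l.1 + 1, by omega⟩) := by
      ext y
      constructor
      · rintro ⟨l, ⟨hl1, hl2⟩, rfl⟩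
        refine ⟨⟨l.1 - 1, by omega⟩, congrArg f (Fin.ext ?_)⟩
        change l.1 - 1 + 1 = l.1
        omega
      · rintro ⟨l, rfl⟩
        refine ⟨_, ⟨?_, ?_⟩, rfl⟩
        · change 1 ≤ l.1 + 1
          omega
        · change l.1 + 1 ≤ j
          have := l.2
          omega
    refine (clsT_gg hG).iso (Ideal.quotientEquivAlgOfEq k (congrArg Ideal.span h6.symm)) ?_
    rcases Nat.eq_zero_or_pos j with rfl | hj0
    · refine (clsT_gg hG).iso (A := MvPolynomial (Fin (1 + 2 * s)) k) ?_
        (fun i => (ppf_poly hP.toPub (T := T) (1 + 2 * s) i).1)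
      have h1 : Ideal.span (Set.range (fun l : Fin 0 =>
          f ⟨l.1 + 1, by have := l.2; omega⟩)) = ⊥ := by
        rw [Set.range_eq_empty, Ideal.span_empty]
      exact ((Ideal.quotientEquivAlgOfEq k h1).trans
        (AlgEquiv.quotientBot k (MvPolynomial (Fin (1 + 2 * s)) k))).symm
    · refine gg_of_built_of hTZE hTOD hTBU hP d hlow _ ?_
      exact built_quadrics (e := 0) _ hj0 (by omega)
        (dimLE_of_DL (dl_field k)) (fun l => (hf _).totalDegree_le)
  obtain ⟨e1⟩ := t_QSW k k (1 + 2 * s) (d + 2) f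
  have h6 := (clsT_gg hG).iso e1 h5
  obtain ⟨e2⟩ := hUSB k (MvPolynomial (Fin (d + 2)) k) (1 + 2 * s)
    (hyp (MvPolynomial.C g * MvPolynomial.X 0 ^ 2) s) P hPu
  rw [heq] at e2
  have h7 := (clsT_gg hG).iso e2 h6
  have h8 := hUHY k E T hT hP.toPub hP.sectionZero hG (MvPolynomial (Fin (d + 2)) k) 1 s
    (MvPolynomial.C g * MvPolynomial.X 0 ^ 2) hpoly h7
  obtain ⟨u, hu⟩ := hUGA k (MvPolynomial (Fin (d + 2)) k) g
  have h9 := (clsT_gg hG).opn _ u hu h8
  exact hTGM k E T hT hP.toPub hP.sectionZero _ h9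

/-- Universality: the conjecture of Tate for systems of `d + 2` quadratic forms implies the conjecture
of Tate in dimension at most `d`. -/
theorem universal_of (hULZ : S_ULZ) (hUGM : S_UGM) (hUDT : S_UDT) (hUSB : S_USB) (hUST : S_UST)
    (hUHY : S_UHY.{v}) (hUGA : S_UGA) (hUNO : S_UNO.{v}) (hUPD : S_UPD.{v}) (hTGM : S_TGM.{v})
    (hTZE : S_TZE.{v}) (hTOD : S_TOD.{v}) (hTBU : S_TBU.{v}) [Finite k] [CharZero E]
    (hP : Pub2 T hT) (h2 : (2 : k) ≠ 0) (d : ℕ) (ho : OddTate T (d + 1)) :
    ∀ X : Var k, X.DimLE d → GG T X := by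
  have hG : GGC T := t_TGG k E T hT hP.toPub hP.sectionZero hP.etale
  induction d with
  | zero =>
    intro X hX i
    exact (pf_of_dimLE hT hP.toPub i X
      (fun x => (hX x).trans (by exact_mod_cast Nat.zero_le i))).1
  | succ d ih =>
    have hlow := ih (hUPD k E T (d + 1) ho)
    exact hUNO k E T hG d hlow (gg_hyper_of hULZ hUGM hUDT hUSB hUST hUHY hUGA hTGM hTZE hTOD hTBU
      hP h2 d hlow ho)

lemma oddGen_of_det {s q : ℕ} (f : Fin (q + 1) → MvPolynomial (Fin (1 + 2 * s)) k)
    (h : (gram (gen f)).det ≠ 0) : OddGen k 0 f := by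
  intro p _
  have hinj : Function.Injective (genHom q p) := by
    have h1 : Function.Injective (Ideal.Quotient.mk p.asIdeal) := by
      rw [RingHom.injective_iff_ker_eq_bot, Ideal.mk_ker]
      exact (Ideal.eq_bot_or_top p.asIdeal).resolve_right p.isPrime.ne_top
    have h5 : Function.Injective (algebraMap (MvPolynomial (Fin q) (k ⧸ p.asIdeal))
        (FractionRing (MvPolynomial (Fin q) (k ⧸ p.asIdeal)))) := IsFractionRing.injective _ _
    exact h5.comp (MvPolynomial.map_injective _ h1)
  have h3 : ((gram (gen f)).map (genHom q p)).det ≠ 0 := by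
    have h4 : ((gram (gen f)).map (genHom q p)).det = genHom q p (gram (gen f)).det :=
      (RingHom.map_det _ _).symm
    rw [h4]
    exact (map_ne_zero_iff _ hinj).mpr h
  rw [Matrix.rank_of_isUnit _ ((Matrix.isUnit_iff_isUnit_det _).mpr (isUnit_iff_ne_zero.mpr h3))]
  rw [Fintype.card_fin]
  exact ⟨s, by ring⟩

/-- The system belongs to the class. -/
lemma built_oddTate (h2 : (2 : k) ≠ 0) (d : ℕ) {s : ℕ}
    (f : Fin (d + 1 + 1) → MvPolynomial (Fin (1 + 2 * s)) k) (hf : ∀ j, (f j).IsHomogeneous 2)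
    (h : (gram (gen f)).det ≠ 0) :
    Built k d (aff k (MvPolynomial (Fin (1 + 2 * s)) k ⧸ Ideal.span (Set.range f))) :=
  built_odd h2 (Nat.zero_le d) (by omega) (dimLE_of_DL (dl_field k)) f hf (oddGen_of_det f h)

end QCV


end

section

/-!
# QCV, block T: the closed part (TCL)
-/

set_option autoImplicit false

open CategoryTheory AlgebraicGeometry Limits Polynomial TopologicalSpace

namespace QCV

open Pool.Agent.Lib_helper55.Beil Pool.Agent.Lib_helper66.OneP CUB

universe v

/-- **TCL** (the closed part). -/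
theorem t_TCL : S_TCL.{v} := by
  intro k E _ _ _ _ T hT hP Z U X a j h hX hU i m hm
  have hm' : m ∈ Module.End.maxGenEigenspace ((T i).frob (2 * i) Z) 1 := hm
  have h1 : (T i).P (2 * i) a m ∈ (T i).gen X :=
    maxGen_map ((T i).frob (2 * i) Z) ((T i).frob (2 * i) X) ((T i).push (2 * i) a)
      (fun x => (T i).push_frob (2 * i) a x) hm'
  obtain ⟨c, hc⟩ := exists_cls (T i) X _ (hX i h1)
  have h2 : cls (T i) U (resCyc j c) = 0 := by
    rw [← res_cls, hc]
    exact (((T i).localisation (2 * i) _ _ _ _ _ h).1 _).mpr ⟨m, rfl⟩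
  obtain ⟨-, hUi, hUs⟩ := hU i
  obtain ⟨c₁, hc₁, h3⟩ := exists_ratZero j _ ((injC_iff (T i) U).1 hUi _ h2)
  obtain ⟨z, hz⟩ := exists_pushCyc a j h (c - c₁) (by rw [map_sub, h3, sub_self])
  have h4 : cls (T i) X c₁ = 0 := (T i).cl_rat X c₁ hc₁
  have h5 : (T i).P (2 * i) a (m - cls (T i) Z z) = 0 := by
    have e1 : (T i).P (2 * i) a (m - cls (T i) Z z) =
        (T i).P (2 * i) a m - (T i).P (2 * i) a (cls (T i) Z z) :=
      map_sub ((T i).push (2 * i) a) _ _
    rw [e1, push_cls', hz, cls_sub, hc, h4, sub_zero, sub_self]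
  obtain ⟨u, hu⟩ := (hT.bdExact i (2 * i) a j h _).mp h5
  have hu' : bdl hT i (2 * i) a j h u ∈ Module.End.maxGenEigenspace ((T i).frob (2 * i) Z) 1 := by
    have h8 : bdl hT i (2 * i) a j h u = m - cls (T i) Z z := hu
    rw [h8]
    exact sub_mem hm' (cls_mem_gen (T i) Z z)
  obtain ⟨u', hu1, hu2⟩ := maxGen_lift ((T i).frob (2 * i + 1) U) ((T i).frob (2 * i) Z)
    (bdl hT i (2 * i) a j h) (bdl_frob hT hP i (2 * i) a j h) hu'
  obtain ⟨d⟩ := bd_supp hT hP i a j h u' hu1 (hUs u' hu1)
  have h6 : m = cls (T i) Z (z + pushCyc d.q d.v) := by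
    have h8 : bdl hT i (2 * i) a j h u = m - cls (T i) Z z := hu
    rw [cls_add, ← d.hbd, hu2, h8, add_sub_cancel]
  rw [h6]
  exact (T i).linComb_mem_alg Z _

end QCV


end

section

/-!
# QCV, module TOD: quadric cones in an odd number of variables, for `GG` alone
-/

set_option autoImplicit false

open CategoryTheory AlgebraicGeometry Limits Polynomial TopologicalSpace

namespace QCV

open Pool.Agent.Lib_helper55.Beil Pool.Agent.Lib_helper66.OneP CUB

universe v

namespace TOD

variable {k : Type} [Field k] {E : Type} [Field E] {T : ∀ i : ℕ, Homology.{v} k E i}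

/-- Invariance under isomorphisms. -/
theorem gg_viso (i : ℕ) {X Y : Var k} (s : VIso X Y) (h : (T i).gen X ≤ (T i).alg X) :
    (T i).gen Y ≤ (T i).alg Y := by
  have hc : Complementary s.cl (openVarIn Y ⊥) := by
    rw [Complementary, s.range, range_openVarIn]
    simp
  exact (T i).glue s.cl (openVarIn Y ⊥) hc h
    ((T i).good_of_subsingleton _ ((T i).empty _ _ (isEmpty_openVar_bot Y)))

/-- From a product with the affine line to the base. -/
theorem gg_line_desc [Finite k] [CharZero E] (hT : Full T) (hP : Pub T hT) (hS : SectionZero T)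
    (i : ℕ) {Y X : Var k} (L : Line Y X) (h : (T (i + 1)).gen Y ≤ (T (i + 1)).alg Y) :
    (T i).gen X ≤ (T i).alg X := by
  intro α hα
  refine alg_of_supp i X α hα (supp_line_desc hT hP hS i (2 * i) i L α ?_)
  have h1 : hT.line i (2 * i) L α ∈ (T (i + 1)).gen Y :=
    maxGen_map ((T i).frob (2 * i) X) ((T (i + 1)).frob (2 * (i + 1)) Y) (hT.line i (2 * i) L)
      (hT.line_frob i (2 * i) L) hα
  obtain ⟨c, hc⟩ := exists_cls (T (i + 1)) Y _ (h h1)
  have h2 := supp_cls (T := T) (i + 1) Y c
  have h3 : clz (T (i + 1)) Y c = hT.line i (2 * i) L α := hc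
  rw [h3] at h2
  exact h2

/-- From a product with an affine space to the base. -/
theorem gg_mv_desc [Finite k] [CharZero E] (hT : Full T) (hP : Pub T hT) (hS : SectionZero T)
    (A : Type) [CommRing A] [Algebra k A] [Algebra.FiniteType k A] (i m : ℕ)
    (h : (T (i + m)).gen (aff k (MvPolynomial (Fin m) A)) ≤
      (T (i + m)).alg (aff k (MvPolynomial (Fin m) A))) :
    (T i).gen (aff k A) ≤ (T i).alg (aff k A) := by
  induction m with
  | zero =>
    let e : MvPolynomial (Fin 0) A ≃ₐ[k] A :=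
      (MvPolynomial.isEmptyAlgEquiv A (Fin 0)).restrictScalars k
    exact gg_viso i (viso e.symm) h
  | succ m ih =>
    refine ih ?_
    let B := MvPolynomial (Fin m) A
    let e : MvPolynomial (Fin (m + 1)) A ≃ₐ[k] B[X] :=
      (MvPolynomial.finSuccEquiv A m).restrictScalars k
    let φ : B →ₐ[k] MvPolynomial (Fin (m + 1)) A := (e.symm : _ →ₐ[k] _).comp (CC k B)
    exact gg_line_desc hT hP hS (i + m) (lineE φ e.symm.toRingEquiv (fun _ => rfl)) h

/-- From the base to a product with an affine space. -/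
theorem gg_mv [Finite k] [CharZero E] (hT : Full T) (hP : Pub T hT) (A : Type) [CommRing A]
    [Algebra k A] [Algebra.FiniteType k A] (n : ℕ) (hA : GG T (aff k A)) :
    GG T (aff k (MvPolynomial (Fin n) A)) := by
  induction n with
  | zero =>
    let e : MvPolynomial (Fin 0) A ≃ₐ[k] A :=
      (MvPolynomial.isEmptyAlgEquiv A (Fin 0)).restrictScalars k
    exact fun i => gg_viso i (viso e) (hA i)
  | succ n ih =>
    let e : MvPolynomial (Fin (n + 1)) A ≃ₐ[k] (MvPolynomial (Fin n) A)[X] :=
      (MvPolynomial.finSuccEquiv A n).restrictScalars k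
    intro i
    refine gg_viso i (viso e) ?_
    rcases i with _ | i
    · exact (pf_zero hT hP _).1
    · exact good_line hT.toExtra i _ (ih i)

/-- in characteristic two the involution `t ↦ - t` is the identity -/
lemma dinv_eq_self (k : Type) [Field k] {S : Type} [CommRing S] [Algebra k S] (c : S)
    (h2 : (2 : k) = 0) (x : Dr S 0 c) : dinv 0 c k x = x := by
  have h : dinvHom 0 c = RingHom.id (Dr S 0 c) := by
    apply AdjoinRoot.ringHom_ext
    · ext a
      exact dinvHom_of 0 c a
    · change dinvHom 0 c (rt 0 c) = rt 0 c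
      rw [dinvHom_rt, map_zero, neg_zero, zero_sub]
      have h3 : (2 : Dr S 0 c) = 0 := by
        have h4 := congrArg (algebraMap k (Dr S 0 c)) h2
        rwa [map_ofNat, map_zero] at h4
      linear_combination (- (rt 0 c)) * h3
  exact RingHom.congr_fun h x

/-- the involution acts trivially in the levels `i ≥ m` -/
lemma tr [CharZero E] (hT : Full T) (hP : Pub T hT) (A : Type)
    [CommRing A] [Algebra k A] [Algebra.FiniteType k A] (m : ℕ) (b : Fin (2 * m) → A)
    (hb : ∀ j, IsUnit (b j)) (i : ℕ) (hi : m ≤ i) :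
    TR T i (Dr (MvPolynomial (Fin (2 * m)) A) 0 (dia b)) (dinv 0 (dia b) k) := by
  by_cases h : (2 : k) = 0
  · refine t_ONIL k E T hT _ _ (fun x => ?_) i
    rw [dinv_eq_self k _ h, sub_self]
    exact IsNilpotent.zero
  · exact Asm.s_ODIA k E T hT hP h m A b hb i hi

/-- the claim in the levels `i ≥ m` -/
lemma claim [Finite k] [CharZero E] (hT : Full T) (S : DblMaps T) (hP : Pub T hT)
    (hC : S.Classes) (hG : S.Galois hT.toProperMaps) (A : Type)
    [CommRing A] [Algebra k A] [Algebra.FiniteType k A] (m : ℕ) (b : Fin (2 * m) → A)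
    (hb : ∀ j, IsUnit (b j)) (hA : GG T (aff k A)) (i : ℕ) (hi : m ≤ i) :
    (T i).gen (aff k (Dr (MvPolynomial (Fin (2 * m)) A) 0 (dia b))) ≤
      (T i).alg (aff k (Dr (MvPolynomial (Fin (2 * m)) A) 0 (dia b))) :=
  OPFD.good_up hT S hC i (MvPolynomial (Fin (2 * m)) A) 0 (dia b)
    (OPFD.inj_G hT S hG i (2 * i) (MvPolynomial (Fin (2 * m)) A) 0 (dia b)
      ((tr hT hP A m b hb i hi).hom (2 * i) le_rfl)) (gg_mv hT hP A (2 * m) hA i)

end TOD

/-- **TOD**. -/
theorem t_TOD : S_TOD.{v} := by
  intro k E _ _ _ _ T hT S hP hS hF hD hC hG A _ _ _ m a ha hA i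
  obtain ⟨u, hu⟩ := ha 0
  have hb : ∀ j : Fin (2 * m), IsUnit (a j.succ * (↑u⁻¹ : A)) :=
    fun j => (ha _).mul (Units.isUnit _)
  have hba : ∀ j : Fin (2 * m), a j.succ * (↑u⁻¹ : A) * a 0 = a j.succ := by
    intro j
    rw [← hu, mul_assoc, Units.inv_mul, mul_one]
  obtain ⟨e⟩ := t_ODR k A (2 * m) a (fun j => a j.succ * (↑u⁻¹ : A)) (ha 0) hba
  refine TOD.gg_viso i (viso e) ?_
  refine TOD.gg_mv_desc hT hP hS _ i m ?_
  obtain ⟨e'⟩ := Asm.s_OBCH k A (2 * m) m (fun j => a j.succ * (↑u⁻¹ : A))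
  refine TOD.gg_viso (i + m) (viso e'.symm) ?_
  exact TOD.claim hT S hP hC hG (MvPolynomial (Fin m) A) m
    (fun j => MvPolynomial.C (a j.succ * (↑u⁻¹ : A))) (fun j => (hb j).map _)
    (TOD.gg_mv hT hP A m hA) (i + m) (by omega)

end QCV


end

section

/-!
# UAF: an integral variety contains an affine open subvariety of the same dimension

Proof of `QCV.S_UAF`.
-/

set_option autoImplicit false

open CategoryTheory AlgebraicGeometry Limits Polynomial TopologicalSpace

namespace QCV

open Pool.Agent.Lib_helper55.Beil Pool.Agent.Lib_helper66.OneP CUB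

namespace UAF_aux

variable {k : Type} [Field k]

theorem generic_max (X : Var k) [IsIntegral X.X] (y : X.X) (h : y ⤳ genericPoint X.X) :
    y = genericPoint X.X :=
  (h.antisymm (genericPoint_specializes y)).eq

/-- An affine integral variety is the spectrum of a domain of finite type. -/
theorem exists_domain (V : Var k) [IsAffine V.X] [IsIntegral V.X] :
    ∃ (A : Type) (_ : CommRing A) (_ : IsDomain A) (_ : Algebra k A) (_ : Algebra.FiniteType k A),
      Nonempty (VIso (aff k A) V) := by
  obtain ⟨A, iA, iB, iC, ⟨s⟩⟩ := exists_aff V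
  have hne : Nonempty (aff k A).X := ⟨s.e.inv (genericPoint V.X)⟩
  have hint : IsIntegral (aff k A).X := isIntegral_of_isOpenImmersion s.e.hom
  have hd : IsDomain A := by
    have h1 : IsIntegral (Spec (CommRingCat.of A)) := hint
    exact (affine_isIntegral_iff (CommRingCat.of A)).1 h1
  exact ⟨A, iA, hd, iB, iC, ⟨s⟩⟩

end UAF_aux

open _root_.QCV.UAF_aux in
theorem t_UAF : S_UAF := by
  intro k _ _ X _
  obtain ⟨U, hU1, -, hU3, -, hU5, -⟩ := exists_nice X (genericPoint X.X)
    (fun y hy => generic_max X y hy) ⊤ trivial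
  obtain ⟨A, iA, hd, iB, iC, ⟨s⟩⟩ := exists_domain (openVar X U)
  have hopen : IsOpenImmersion (openVarIn X U).g := (openVarIn X U).isOpen
  have hopen2 : IsOpenImmersion (s.e.hom ≫ (openVarIn X U).g) := inferInstance
  let j : OpenIn (aff k A) X :=
    { g := s.e.hom ≫ (openVarIn X U).g
      comm := by rw [Category.assoc, (openVarIn X U).comm, s.comm]
      isOpen := hopen2 }
  refine ⟨A, iA, hd, iB, iC, j, ?_⟩
  have hj : IsOpenImmersion j.g := hopen2
  have h1 := dim_map j.g j.comm (genericPoint (aff k A).X)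
  have h2 : j.g (genericPoint (aff k A).X) = genericPoint X.X :=
    genericPoint_eq_of_isOpenImmersion j.g
  rw [h2] at h1
  exact h1.symm

end QCV


end

section

/-!
# QCV, UNO: reduction to hypersurfaces
-/

set_option autoImplicit false

open CategoryTheory AlgebraicGeometry Limits Polynomial TopologicalSpace

namespace QCV

open Pool.Agent.Lib_helper55.Beil Pool.Agent.Lib_helper66.OneP CUB

universe v

namespace UNO

variable {k : Type} [Field k] {E : Type} [Field E] {T : ∀ i : ℕ, Homology.{v} k E i}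

/-- Geometric noetherian induction. -/
lemma gg_auxd [PerfectField k] (hC : GGC T) (e : ℕ)
    (hpart : ∀ V₀ : Var k, IsIntegral V₀.X → V₀.DimLE (e : ℕ) →
      ∃ (U' : Var k) (_ : OpenIn U' V₀), Nonempty U'.X ∧ GG T U')
    (X₀ : Var k) (C : Closeds X₀.X) :
    ∀ (Y : Var k) (g : Y.X ⟶ X₀.X), g ≫ X₀.f = Y.f → IsPreimmersion g → (∀ y, g y ∈ C) →
      Y.DimLE (e : ℕ) → GG T Y := by
  induction C using WellFoundedLT.induction with
  | ind C ih =>
  intro Y g comm hg hC' hdimY
  apply hC.red
  have hdimR : (redVar Y).DimLE (e : ℕ) := dimLE_red hdimY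
  have hred := isReduced_redVar Y
  have hcl := (redVarIn Y).closed
  set Y' := redVar Y
  set g' : Y'.X ⟶ X₀.X := (redVarIn Y).g ≫ g
  have comm' : g' ≫ X₀.f = Y'.f := by
    rw [Category.assoc, comm, (redVarIn Y).comm]
  have hC'' : ∀ y, g' y ∈ C := fun y => hC' _
  rcases isEmpty_or_nonempty Y'.X with he | ⟨⟨x⟩⟩
  · exact hC.empty _ he
  obtain ⟨η, -, hη⟩ := exists_maximal Y' x
  obtain ⟨U, hU1, -, hU3, hU4, hU5, hU6⟩ := exists_nice Y' η hη ⊤ trivial
  have hop := (openVarIn Y' U).isOpen
  obtain ⟨U', j, ⟨u⟩, hU'⟩ := hpart (openVar Y' U) hU5 (dimLE_open (openVarIn Y' U) hdimR)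
  let jj : OpenIn U' Y' := j.trans (openVarIn Y' U)
  have hjj := jj.isOpen
  let K : Closeds Y'.X := (⟨Set.range jj.g, jj.g.isOpenEmbedding.isOpen_range⟩ : Opens Y'.X).compl
  have hcomp : Complementary (closedVarIn Y' K) jj := by
    rw [Complementary, range_closedVarIn]
    rfl
  refine hC.glue (closedVarIn Y' K) jj hcomp ?_ hU'
  have hclK := (closedVarIn Y' K).closed
  refine ih (Closeds.closure (g' '' (K : Set Y'.X)))
    (lt_of_closed g' C hC'' K (jj.g u) (fun hcon => hcon ⟨u, rfl⟩))
    (closedVar Y' K) ((closedVarIn Y' K).g ≫ g') ?_ inferInstance ?_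
    (dimLE_closed (closedVarIn Y' K) hdimR)
  · rw [Category.assoc, comm', (closedVarIn Y' K).comm]
  · intro y
    have h1 : (closedVarIn Y' K).g y ∈ (K : Set Y'.X) := by
      rw [← range_closedVarIn]
      exact ⟨y, rfl⟩
    exact subset_closure ⟨_, h1, rfl⟩

/-- Every integral variety of dimension at most `d + 1` has a nonempty open part with the
property. -/
lemma gg_part [PerfectField k] (hUHA : S_UHA) (hUAF : S_UAF) (hC : GGC T) (d : ℕ)
    (hlow : ∀ X : Var k, X.DimLE d → GG T X)
    (hyp : ∀ g : MvPolynomial (Fin (d + 2)) k,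
      GG T (aff k (MvPolynomial (Fin (d + 2)) k ⧸ Ideal.span {g})))
    (V₀ : Var k) (hint : IsIntegral V₀.X) (hdim : V₀.DimLE (d + 1 : ℕ)) :
    ∃ (U' : Var k) (_ : OpenIn U' V₀), Nonempty U'.X ∧ GG T U' := by
  obtain ⟨A, i1, i2, i3, i4, j, hj⟩ := hUAF k V₀
  have hgd : Algebra.trdeg k A ≤ ((d + 1 : ℕ) : Cardinal) := by
    rw [← dim_generic_aff, hj]
    exact hdim _
  have hjo := j.isOpen
  obtain ⟨r, hr2, hr⟩ := Cardinal.exists_nat_eq_of_le_nat hgd
  rcases Nat.lt_or_ge d r with h1 | h1
  · obtain rfl : r = d + 1 := by omega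
    obtain ⟨g, a, h, ha, ⟨e⟩⟩ := hUHA k A (d + 1) hr
    have hne : Nonempty (aff k (Localization.Away a)).X := by
      have : IsDomain (Localization.Away a) :=
        IsLocalization.isDomain_localization (powers_le_nonZeroDivisors_of_noZeroDivisors ha)
      exact ⟨genericPoint _⟩
    refine ⟨aff k (Localization.Away a), (opn (awayHom k a) (isOpenImmersion_away a)).trans j, hne,
      ?_⟩
    have h2 : GG T (aff k (Localization.Away h)) :=
      hC.opn (opn (awayHom k h) (isOpenImmersion_away h)) (hyp g)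
    exact hC.iso (viso e.symm) h2
  · refine ⟨aff k A, j, ⟨genericPoint _⟩, hlow _ fun x => ?_⟩
    refine (dim_le_of_specializes (aff k A) (genericPoint_specializes x)).trans ?_
    rw [dim_generic_aff, hr]
    exact_mod_cast h1

end UNO

theorem t_UNO : M_UNO.{v} := by
  intro hUHA hUAF k E _ _ _ T hC d hlow hyp X hX
  exact UNO.gg_auxd hC (d + 1) (fun V₀ hint hdim => UNO.gg_part hUHA hUAF hC d hlow hyp V₀ hint hdim)
    X ⊤ X (𝟙 _) (Category.id_comp _) inferInstance (fun _ => trivial) hX

end QCV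


end
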