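import Mathlib
import Pool.Agent.QVM.C21
import Pool.Agent.QVM.C30
import Pool.Agent.QVM.C45
import Pool.Agent.QVM.C47

/-! Parts: QCV.D_DCN, QCV.D_DCP, QCV.D_DCO, QCV.U_UDT, QCV.U_UST, QCV.E_EBM, QCV.E_EDS, QCV.E_EVI, QCV.E_UD2 -/

section

/-!
# QCV, module DCN: affine cones of dimension at most `d + 1`
-/

set_option autoImplicit false

open Polynomial

namespace QCV

open CUB

namespace DCN

/-- `sp 0` preserves homogeneity. -/
lemma sp_zero_homog {R : Type} [CommRing R] {n m : ℕ} {f : MvPolynomial (Fin (n + 1)) R}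
    (hf : f.IsHomogeneous m) : (sp (0 : R) f).IsHomogeneous m := by
  have h1 : ∀ i : Fin (n + 1), ((Fin.cons (MvPolynomial.C 0) MvPolynomial.X :
      Fin (n + 1) → MvPolynomial (Fin n) R) i).IsHomogeneous 1 := by
    intro i
    refine Fin.cases ?_ (fun j => ?_) i
    · rw [Fin.cons_zero, map_zero]
      exact MvPolynomial.isHomogeneous_zero _ _ _
    · rw [Fin.cons_succ]
      exact MvPolynomial.isHomogeneous_X _ _
  have h2 := hf.aeval _ h1
  rw [one_mul] at h2
  exact h2

end DCN

/-- Module DCN. -/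
theorem t_DCN : M_DCN := by
  intro hHCH hHDE hDGM k _ P d hP hGm R ι _ _ _ n
  induction n with
  | zero =>
    intro f m hf hR _
    refine hP.base _ (Asm.s_DLR.1 k R (ER f) d
      ((Ideal.Quotient.mkₐ k (Ideal.span (Set.range f))).comp
        (((MvPolynomial.isEmptyAlgEquiv R (Fin 0)).symm.toAlgHom).restrictScalars k)) ?_ hR)
    intro y
    obtain ⟨g, rfl⟩ := Ideal.Quotient.mk_surjective y
    refine ⟨(MvPolynomial.isEmptyAlgEquiv R (Fin 0)) g, ?_⟩
    show Ideal.Quotient.mk _ ((MvPolynomial.isEmptyAlgEquiv R (Fin 0)).symm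
      ((MvPolynomial.isEmptyAlgEquiv R (Fin 0)) g)) = _
    rw [AlgEquiv.symm_apply_apply]
  | succ n ih =>
    intro f m hf hR hD
    obtain ⟨z, u, hs⟩ := hHCH k R ι n f m hf
    have h0 : P (ER (fun j => sp (0 : R) (f j))) :=
      ih _ m (fun j => DCN.sp_zero_homog (hf j)) hR (Asm.s_DLR.1 k _ _ _ z hs.surj hD)
    refine (hHDE k P hP.toCls0 hP.line hGm R ι n f m hf h0).1 (hP.base _ ?_)
    exact hDGM k _ d (Asm.s_DLR.2.1 k (ER f) _ (d + 1) _ u hs.away hD)

end QCV


end

section

/-!
# QCV, block D: module DCP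
-/

set_option autoImplicit false

open Polynomial

namespace QCV

open CUB

theorem t_DCP : S_DCP := by
  intro k K _ _ _ _ n d Q H hK hn hQ hco P
  have hs : Function.Surjective (Ideal.Quotient.mkₐ k (Ideal.span (Set.range ![Q, H]))) :=
    Ideal.Quotient.mkₐ_surjective k _
  rw [← rdim_comap (Ideal.Quotient.mkₐ k (Ideal.span (Set.range ![Q, H]))) hs P]
  set q := PrimeSpectrum.comap
    (Ideal.Quotient.mkₐ k (Ideal.span (Set.range ![Q, H]))).toRingHom P with hq
  have hmem : ∀ j, ![Q, H] j ∈ q.asIdeal := by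
    intro j
    change (Ideal.Quotient.mkₐ k (Ideal.span (Set.range ![Q, H]))) (![Q, H] j) ∈ P.asIdeal
    have h3 : Ideal.Quotient.mkₐ k (Ideal.span (Set.range ![Q, H])) (![Q, H] j) = 0 :=
      Ideal.Quotient.eq_zero_iff_mem.mpr (Ideal.subset_span ⟨j, rfl⟩)
    rw [h3]
    exact zero_mem _
  have hQq : Q ∈ q.asIdeal := hmem 0
  have hHq : H ∈ q.asIdeal := hmem 1
  -- a prime factor of `Q` in `q`
  obtain ⟨x, hx, hxQ, hxq⟩ : ∃ x : MvPolynomial (Fin n) K, Prime x ∧ x ∣ Q ∧ x ∈ q.asIdeal := by
    obtain ⟨f, hf, u, hu⟩ := UniqueFactorizationMonoid.exists_prime_factors Q hQ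
    have h1 : f.prod ∈ q.asIdeal := by
      rw [← hu] at hQq
      rcases q.isPrime.mem_or_mem hQq with h | h
      · exact h
      · exact absurd (Ideal.eq_top_of_isUnit_mem _ h u.isUnit) q.isPrime.ne_top
    obtain ⟨x, hx, hxq⟩ := (q.isPrime.multiset_prod_mem_iff_exists_mem f).1 h1
    refine ⟨x, hf x hx, ?_, hxq⟩
    rw [← hu]
    exact (Multiset.dvd_prod hx).mul_right _
  have hxH : ¬ x ∣ H := fun h => hx.not_isUnit (hco x hxQ h)
  have hpr : (Ideal.span {x}).IsPrime := (Ideal.span_singleton_prime hx.ne_zero).2 hx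
  set p : PrimeSpectrum (MvPolynomial (Fin n) K) := ⟨Ideal.span {x}, hpr⟩ with hp
  have h1 : (⟨⊥, Ideal.isPrime_bot⟩ : PrimeSpectrum (MvPolynomial (Fin n) K)) < p := by
    refine lt_of_le_of_ne bot_le ?_
    intro h1
    have h2 : x ∈ p.asIdeal := Ideal.mem_span_singleton_self x
    rw [← h1] at h2
    exact hx.ne_zero h2
  have h2 : p < q := by
    refine lt_of_le_of_ne ?_ ?_
    · change Ideal.span {x} ≤ q.asIdeal
      rw [Ideal.span_singleton_le_iff_mem]
      exact hxq
    · intro h
      apply hxH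
      rw [← Ideal.mem_span_singleton]
      change H ∈ p.asIdeal
      rw [h]
      exact hHq
  have h3 := rdim_add_one_le (k := k) h1
  have h4 := rdim_add_one_le (k := k) h2
  have h5 := Asm.s_DLM k K 0 n hK ⟨⊥, Ideal.isPrime_bot⟩
  obtain ⟨a, ha⟩ := exists_rdim (k := k) q
  obtain ⟨b, hb⟩ := exists_rdim (k := k) p
  obtain ⟨c, hc⟩ := exists_rdim (k := k)
    (⟨⊥, Ideal.isPrime_bot⟩ : PrimeSpectrum (MvPolynomial (Fin n) K))
  rw [hb, hc] at h3
  rw [ha, hb] at h4
  rw [hc] at h5
  rw [ha]
  have h3' : b + 1 ≤ c := by exact_mod_cast h3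
  have h4' : a + 1 ≤ b := by exact_mod_cast h4
  have h5' : c ≤ 0 + n := by exact_mod_cast h5
  exact_mod_cast (by omega : a ≤ d)

end QCV


end

section

/-!
# QCV, module DCO: cones, base change of a linear change of coordinates
-/

set_option autoImplicit false

open CategoryTheory AlgebraicGeometry Polynomial

namespace QCV

/-- base change of an algebra homomorphism between polynomial rings -/
noncomputable def dco_bc {K K' : Type} [Field K] [Field K'] [Algebra K K'] {m n : ℕ}
    (ψ : MvPolynomial (Fin m) K →ₐ[K] MvPolynomial (Fin n) K) :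
    MvPolynomial (Fin m) K' →ₐ[K'] MvPolynomial (Fin n) K' :=
  MvPolynomial.aeval fun i => MvPolynomial.map (algebraMap K K') (ψ (MvPolynomial.X i))

theorem dco_bc_map {K K' : Type} [Field K] [Field K'] [Algebra K K'] {m n : ℕ}
    (ψ : MvPolynomial (Fin m) K →ₐ[K] MvPolynomial (Fin n) K) (G : MvPolynomial (Fin m) K) :
    dco_bc (K' := K') ψ (MvPolynomial.map (algebraMap K K') G) =
      MvPolynomial.map (algebraMap K K') (ψ G) := by
  induction G using MvPolynomial.induction_on with
  | C a =>
    rw [MvPolynomial.map_C, ← MvPolynomial.algebraMap_eq, AlgHom.commutes,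
      ← MvPolynomial.algebraMap_eq, AlgHom.commutes, MvPolynomial.algebraMap_eq,
      MvPolynomial.algebraMap_eq, MvPolynomial.map_C]
  | add p q hp hq => rw [map_add, map_add, map_add, map_add, hp, hq]
  | mul_X p i hp =>
    rw [map_mul, map_mul, map_mul, map_mul, hp, MvPolynomial.map_X]
    congr 1
    exact MvPolynomial.aeval_X _ _

theorem dco_bc_comp {K K' : Type} [Field K] [Field K'] [Algebra K K'] {m n : ℕ}
    (ψ : MvPolynomial (Fin m) K →ₐ[K] MvPolynomial (Fin n) K)
    (φ : MvPolynomial (Fin n) K →ₐ[K] MvPolynomial (Fin m) K) (h : ∀ G, φ (ψ G) = G) :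
    (dco_bc (K' := K') φ).comp (dco_bc (K' := K') ψ) = AlgHom.id K' _ := by
  refine MvPolynomial.algHom_ext fun i => ?_
  rw [AlgHom.comp_apply, AlgHom.id_apply]
  have h1 : (MvPolynomial.X i : MvPolynomial (Fin m) K') =
      MvPolynomial.map (algebraMap K K') (MvPolynomial.X i) := (MvPolynomial.map_X _ _).symm
  rw [h1, dco_bc_map, dco_bc_map, h]

/-- base change of an automorphism -/
noncomputable def dco_equiv {K : Type} (K' : Type) [Field K] [Field K'] [Algebra K K'] {m : ℕ}
    (φ : MvPolynomial (Fin m) K ≃ₐ[K] MvPolynomial (Fin m) K) :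
    MvPolynomial (Fin m) K' ≃ₐ[K'] MvPolynomial (Fin m) K' :=
  AlgEquiv.ofAlgHom (dco_bc φ.toAlgHom) (dco_bc φ.symm.toAlgHom)
    (dco_bc_comp _ _ fun G => φ.apply_symm_apply G)
    (dco_bc_comp _ _ fun G => φ.symm_apply_apply G)

theorem dco_equiv_map {K : Type} (K' : Type) [Field K] [Field K'] [Algebra K K'] {m : ℕ}
    (φ : MvPolynomial (Fin m) K ≃ₐ[K] MvPolynomial (Fin m) K) (G : MvPolynomial (Fin m) K) :
    dco_equiv K' φ (MvPolynomial.map (algebraMap K K') G) =
      MvPolynomial.map (algebraMap K K') (φ G) := dco_bc_map φ.toAlgHom G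

theorem dco_rename {K : Type} [Field K] {n : ℕ} (H : MvPolynomial (Fin n) K) :
    MvPolynomial.finSuccEquiv K n (MvPolynomial.rename Fin.succ H) = C H := by
  induction H using MvPolynomial.induction_on with
  | C a =>
    rw [MvPolynomial.rename_C]
    have h := RingHom.congr_fun (MvPolynomial.finSuccEquiv_comp_C_eq_C (R := K) n) a
    exact ((AlgEquiv.symm_apply_eq _).1 h).symm
  | add p q hp hq => rw [map_add, map_add, hp, hq, map_add]
  | mul_X p i hp =>
    rw [map_mul, map_mul, hp, MvPolynomial.rename_X, MvPolynomial.finSuccEquiv_X_succ, map_mul]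

/-- the coordinate change over the larger field -/
theorem dco_coord {K : Type} (K' : Type) [Field K] [Field K'] [Algebra K K'] {n : ℕ}
    (F : MvPolynomial (Fin (n + 1)) K) (H : MvPolynomial (Fin n) K)
    (e : MvPolynomial (Fin (n + 1)) K ≃ₐ[K] (MvPolynomial (Fin n) K)[X]) (he : e F = C H) :
    ∃ Φ : MvPolynomial (Fin (n + 1)) K' ≃ₐ[K'] (MvPolynomial (Fin n) K')[X],
      Φ (MvPolynomial.map (algebraMap K K') F) = C (MvPolynomial.map (algebraMap K K') H) := by
  refine ⟨(dco_equiv K' (e.trans (MvPolynomial.finSuccEquiv K n).symm)).trans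
    (MvPolynomial.finSuccEquiv K' n), ?_⟩
  rw [AlgEquiv.trans_apply, dco_equiv_map, AlgEquiv.trans_apply, he, ← dco_rename,
    AlgEquiv.symm_apply_apply, MvPolynomial.map_rename, dco_rename]

/-- the quotient -/
theorem dco_quot (k A B : Type) [Field k] [CommRing A] [CommRing B] [Algebra k A] [Algebra k B]
    (Φ : A ≃ₐ[k] B[X]) (F : A) (H : B) (h : Φ F = C H) (I : Ideal A) (J : Ideal B)
    (hI : I = Ideal.span {F}) (hJ : J = Ideal.span {H}) :
    Nonempty ((B ⧸ J)[X] ≃ₐ[k] (A ⧸ I)) := by
  subst hI hJ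
  set J := Ideal.span {H} with hJ
  let θ : A →ₐ[k] (B ⧸ J)[X] := (Polynomial.mapAlgHom (Ideal.Quotient.mkₐ k J)).comp Φ.toAlgHom
  have hθ : ∀ a, θ a = Polynomial.map (Ideal.Quotient.mk J) (Φ a) := fun a => rfl
  have hsurj : Function.Surjective θ := by
    intro b
    obtain ⟨c, hc⟩ := Polynomial.map_surjective (Ideal.Quotient.mk J) Ideal.Quotient.mk_surjective b
    exact ⟨Φ.symm c, by rw [hθ, AlgEquiv.apply_symm_apply, hc]⟩
  have hker : RingHom.ker θ = Ideal.span {F} := by
    ext a
    rw [RingHom.mem_ker]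
    have h1 : θ a = 0 ↔ Φ a ∈ RingHom.ker (Polynomial.mapRingHom (Ideal.Quotient.mk J)) := by
      rw [RingHom.mem_ker]
      rfl
    rw [h1, Polynomial.ker_mapRingHom, Ideal.mk_ker, hJ, Ideal.map_span, Set.image_singleton,
      Ideal.mem_span_singleton, Ideal.mem_span_singleton, ← h]
    constructor
    · rintro ⟨c, hc⟩
      refine ⟨Φ.symm c, Φ.injective ?_⟩
      rw [hc, map_mul, AlgEquiv.apply_symm_apply]
    · rintro ⟨c, hc⟩
      exact ⟨Φ c, by rw [hc, map_mul]⟩
  exact ⟨((Ideal.quotientEquivAlgOfEq k hker.symm).trans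
    (Ideal.quotientKerAlgEquivOfSurjective hsurj)).symm⟩

theorem t_DCO : S_DCO := by
  intro k _ P h0 hline K K' _ _ _ _ _ n F H e he hP
  obtain ⟨Φ, hΦ⟩ := dco_coord K' F H e he
  obtain ⟨E⟩ := dco_quot k (MvPolynomial (Fin (n + 1)) K') (MvPolynomial (Fin n) K')
    (Φ.restrictScalars k) (MvPolynomial.map (algebraMap K K') F)
    (MvPolynomial.map (algebraMap K K') H) hΦ
    (Ideal.span (Set.range fun _ : Fin 1 => MvPolynomial.map (algebraMap K K') F))
    (Ideal.span (Set.range fun _ : Fin 1 => MvPolynomial.map (algebraMap K K') H))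
    (by rw [Set.range_const]) (by rw [Set.range_const])
  exact h0.iso E (hline _ hP)

end QCV


end

section

/-!
# QCV, UDT: the discriminant of `g x_0 ^ 2 + u_1 v_1 + ... + u_s v_s` is not zero.
-/

set_option autoImplicit false

namespace QCV

open MvPolynomial in
/-- The matrix of second derivatives of a product of two variables. -/
theorem udt_mon {B : Type} [CommRing B] {n : ℕ} (c : B) (a b i j : Fin n) :
    lgram (C c * (X a * X b)) i j =
      c * ((if j = a then (if i = b then 1 else 0) else 0) +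
        (if j = b then (if i = a then 1 else 0) else 0)) := by
  unfold lgram
  rw [pderiv_C_mul, pderiv_C_mul, pderiv_mul, pderiv_X, pderiv_X, Pi.single_apply, Pi.single_apply]
  have e1 : (if a = j then (1 : MvPolynomial (Fin n) B) else 0) * X b +
      X a * (if b = j then 1 else 0) =
      C (if j = a then 1 else 0) * X b + C (if j = b then 1 else 0) * X a := by
    by_cases h1 : j = a
    · by_cases h2 : j = b
      · rw [if_pos h1.symm, if_pos h2.symm, if_pos h1, if_pos h2]; simp
      · rw [if_pos h1.symm, if_neg (fun h => h2 h.symm), if_pos h1, if_neg h2]; simp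
    · by_cases h2 : j = b
      · rw [if_neg (fun h => h1 h.symm), if_pos h2.symm, if_neg h1, if_pos h2]; simp
      · rw [if_neg (fun h => h1 h.symm), if_neg (fun h => h2 h.symm), if_neg h1, if_neg h2]; simp
  rw [e1, map_add, pderiv_C_mul, pderiv_C_mul, pderiv_X, pderiv_X, Pi.single_apply,
    Pi.single_apply, coeff_C_mul, coeff_add, coeff_C_mul, coeff_C_mul]
  have e2 : ∀ x y : Fin n, coeff 0 (if x = y then (1 : MvPolynomial (Fin n) B) else 0) =
      if y = x then 1 else 0 := by
    intro x y
    by_cases h1 : x = y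
    · rw [if_pos h1, if_pos h1.symm, coeff_zero_one]
    · rw [if_neg h1, if_neg (fun h => h1 h.symm), coeff_zero]
  rw [e2, e2]
  congr 1
  congr 1
  · by_cases h1 : j = a
    · rw [if_pos h1, if_pos h1, one_mul]
    · rw [if_neg h1, if_neg h1, zero_mul]
  · by_cases h1 : j = b
    · rw [if_pos h1, if_pos h1, one_mul]
    · rw [if_neg h1, if_neg h1, zero_mul]

theorem udt_add {B : Type} [CommRing B] {n : ℕ} (f g : MvPolynomial (Fin n) B) (i j : Fin n) :
    lgram (f + g) i j = lgram f i j + lgram g i j := by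
  unfold lgram
  simp

theorem udt_sum {B : Type} [CommRing B] {n : ℕ} {ι : Type} (t : Finset ι)
    (f : ι → MvPolynomial (Fin n) B) (i j : Fin n) :
    lgram (∑ l ∈ t, f l) i j = ∑ l ∈ t, lgram (f l) i j := by
  unfold lgram
  simp [MvPolynomial.coeff_sum]

/-- The entries of the matrix. -/
theorem udt_entry {B : Type} [CommRing B] (g : B) (s : ℕ) (i j : Fin (1 + 2 * s)) :
    lgram (hyp (MvPolynomial.C g * MvPolynomial.X 0 ^ 2 : MvPolynomial (Fin 1) B) s) i j =
      g * ((if j = ⟨0, by omega⟩ then (if i = ⟨0, by omega⟩ then 1 else 0) else 0) +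
        (if j = ⟨0, by omega⟩ then (if i = ⟨0, by omega⟩ then 1 else 0) else 0)) +
      ∑ l : Fin s, ((if j = ⟨1 + 2 * l.1, by omega⟩ then
          (if i = ⟨1 + 2 * l.1 + 1, by omega⟩ then 1 else 0) else 0) +
        (if j = ⟨1 + 2 * l.1 + 1, by omega⟩ then
          (if i = ⟨1 + 2 * l.1, by omega⟩ then 1 else 0) else 0)) := by
  unfold hyp
  rw [udt_add, udt_sum]
  congr 1
  · have h : MvPolynomial.rename (Fin.castAdd (2 * s))
        (MvPolynomial.C g * MvPolynomial.X 0 ^ 2 : MvPolynomial (Fin 1) B) =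
        MvPolynomial.C g * (MvPolynomial.X ⟨0, by omega⟩ * MvPolynomial.X ⟨0, by omega⟩) := by
      simp only [map_mul, map_pow, MvPolynomial.rename_C, MvPolynomial.rename_X]
      rw [sq]
      rfl
    rw [h, udt_mon]
  · refine Finset.sum_congr rfl fun l _ => ?_
    have h := udt_mon (1 : B) (⟨1 + 2 * l.1, by omega⟩ : Fin (1 + 2 * s))
      ⟨1 + 2 * l.1 + 1, by omega⟩ i j
    rw [MvPolynomial.C_1, one_mul, one_mul] at h
    exact h

theorem t_UDT : S_UDT := by
  intro B _ _ g s h2 hg hdet
  obtain ⟨v, hv, hMv⟩ := (Matrix.exists_mulVec_eq_zero_iff).2 hdet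
  apply hv
  have key : ∀ i : Fin (1 + 2 * s),
      g * ((if i = ⟨0, by omega⟩ then v ⟨0, by omega⟩ else 0) +
        (if i = ⟨0, by omega⟩ then v ⟨0, by omega⟩ else 0)) +
      ∑ l : Fin s, ((if i = ⟨1 + 2 * l.1 + 1, by omega⟩ then v ⟨1 + 2 * l.1, by omega⟩ else 0) +
        (if i = ⟨1 + 2 * l.1, by omega⟩ then v ⟨1 + 2 * l.1 + 1, by omega⟩ else 0)) = 0 := by
    intro i
    have h := congrFun hMv i
    rw [Matrix.mulVec, dotProduct, Pi.zero_apply] at h
    refine Eq.trans ?_ h
    simp_rw [udt_entry, add_mul, Finset.sum_mul, Finset.sum_add_distrib, mul_add, add_mul]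
    simp_rw [Finset.sum_add_distrib]
    rw [Finset.sum_comm (s := Finset.univ) (t := Finset.univ)
      (f := fun (j : Fin (1 + 2 * s)) (l : Fin s) =>
        (if j = ⟨1 + 2 * l.1, by omega⟩ then
          (if i = ⟨1 + 2 * l.1 + 1, by omega⟩ then (1 : B) else 0) else 0) * v j)]
    rw [Finset.sum_comm (s := Finset.univ) (t := Finset.univ)
      (f := fun (j : Fin (1 + 2 * s)) (l : Fin s) =>
        (if j = ⟨1 + 2 * l.1 + 1, by omega⟩ then
          (if i = ⟨1 + 2 * l.1, by omega⟩ then (1 : B) else 0) else 0) * v j)]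
    simp only [mul_ite, ite_mul, mul_one, mul_zero, zero_mul, one_mul, Finset.sum_ite_eq',
      Finset.mem_univ, if_true]
  funext i
  rw [Pi.zero_apply]
  obtain ⟨i, hi⟩ := i
  rcases Nat.eq_zero_or_pos i with h0 | h0
  · subst h0
    have h := key ⟨0, by omega⟩
    rw [Finset.sum_eq_zero] at h
    · rw [if_pos rfl, add_zero, ← two_mul, ← mul_assoc] at h
      rcases mul_eq_zero.1 h with h | h
      · rcases mul_eq_zero.1 h with h | h
        · exact absurd h hg
        · exact absurd h h2
      · exact h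
    · intro l _
      rw [if_neg, if_neg, add_zero]
      · intro hh
        have := congrArg Fin.val hh
        simp only at this
        omega
      · intro hh
        have := congrArg Fin.val hh
        simp only at this
        omega
  · rcases Nat.even_or_odd' i with ⟨m, hm | hm⟩
    · -- `i = 2 m = 1 + 2 (m - 1) + 1`, look at the row `1 + 2 (m - 1)`
      obtain ⟨m, rfl⟩ : ∃ m', m = m' + 1 := ⟨m - 1, by omega⟩
      subst hm
      have h := key ⟨1 + 2 * m, by omega⟩
      rw [Finset.sum_eq_single (⟨m, by omega⟩ : Fin s)] at h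
      · rw [if_neg, add_zero, mul_zero, zero_add, if_neg, zero_add, if_pos rfl] at h
        · have e : (⟨2 * (m + 1), hi⟩ : Fin (1 + 2 * s)) = ⟨1 + 2 * m + 1, by omega⟩ := by
            apply Fin.ext
            simp only
            omega
          rw [e]
          exact h
        · intro hh
          have := congrArg Fin.val hh
          simp only at this
          omega
        · intro hh
          have := congrArg Fin.val hh
          simp only at this
          omega
      · intro l _ hl
        rw [if_neg, if_neg, add_zero]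
        · intro hh
          apply hl
          have := congrArg Fin.val hh
          simp only at this
          apply Fin.ext
          simp only
          omega
        · intro hh
          have := congrArg Fin.val hh
          simp only at this
          omega
      · intro hh
        exact absurd (Finset.mem_univ _) hh
    · -- `i = 2 m + 1`, look at the row `1 + 2 m + 1`
      subst hm
      have h := key ⟨1 + 2 * m + 1, by omega⟩
      rw [Finset.sum_eq_single (⟨m, by omega⟩ : Fin s)] at h
      · rw [if_neg, add_zero, mul_zero, zero_add, if_pos rfl, if_neg, add_zero] at h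
        · have e : (⟨2 * m + 1, hi⟩ : Fin (1 + 2 * s)) = ⟨1 + 2 * m, by omega⟩ := by
            apply Fin.ext
            simp only
            omega
          rw [e]
          exact h
        · intro hh
          have := congrArg Fin.val hh
          simp only at this
          omega
        · intro hh
          have := congrArg Fin.val hh
          simp only at this
          omega
      · intro l _ hl
        rw [if_neg, if_neg, add_zero]
        · intro hh
          have := congrArg Fin.val hh
          simp only at this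
          omega
        · intro hh
          apply hl
          have := congrArg Fin.val hh
          simp only at this
          apply Fin.ext
          simp only
          omega
      · intro hh
        exact absurd (Finset.mem_univ _) hh

end QCV


end

section

/-!
# QCV, block U: the stratification of the generic member
-/

set_option autoImplicit false

open Polynomial

namespace QCV

open CUB

/-- Quotients along a surjective homomorphism. -/
theorem ust_iso {k A B : Type} [Field k] [CommRing A] [Algebra k A] [CommRing B] [Algebra k B]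
    (φ : A →ₐ[k] B) (hφ : Function.Surjective φ) (s t w : Set A) (u : Set B)
    (hk : RingHom.ker φ.toRingHom = Ideal.span s) (hu : φ '' t = u) (hw : s ∪ t = w) :
    Nonempty ((A ⧸ Ideal.span w) ≃ₐ[k] (B ⧸ Ideal.span u)) := by
  let ψ : A →ₐ[k] B ⧸ Ideal.span u := (Ideal.Quotient.mkₐ k (Ideal.span u)).comp φ
  have hψ : Function.Surjective ψ := (Ideal.Quotient.mkₐ_surjective k _).comp hφ
  have hk2 : RingHom.ker ψ = Ideal.span w := by
    have h1 : RingHom.ker ψ = Ideal.comap φ.toRingHom (Ideal.span u) := by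
      ext x
      rw [RingHom.mem_ker, Ideal.mem_comap]
      exact Ideal.Quotient.eq_zero_iff_mem
    have h2 : Ideal.span u = Ideal.map φ.toRingHom (Ideal.span t) := by
      rw [Ideal.map_span, ← hu]
      rfl
    rw [h1, h2, Ideal.comap_map_of_surjective' φ.toRingHom hφ, hk, ← Ideal.span_union,
      Set.union_comm, hw]
  exact ⟨(Ideal.quotientEquivAlgOfEq k hk2.symm).trans
    (Ideal.quotientKerAlgEquivOfSurjective hψ)⟩

/-- The family `f 0, f 2, ..., f (m + 1)`. -/
def usf {S : Type} {m : ℕ} (f : Fin (m + 2) → S) : Fin (m + 1) → S :=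
  Fin.cons (f 0) fun j => f j.succ.succ

theorem usf_zero {S : Type} {m : ℕ} (f : Fin (m + 2) → S) : usf f 0 = f 0 := rfl

theorem usf_succ {S : Type} {m : ℕ} (f : Fin (m + 2) → S) (j : Fin m) :
    usf f j.succ = f j.succ.succ := rfl

theorem ust_fs {S : Type} [CommRing S] {m : ℕ} (f : Fin (m + 2) → S) :
    MvPolynomial.finSuccEquiv S m (fs f) =
      C (MvPolynomial.C (f 1)) * X + C (fs (usf f)) := by
  have h1 : (1 : Fin (m + 2)) = Fin.succ (0 : Fin (m + 1)) := rfl
  unfold fs
  rw [map_add, map_sum, Fin.sum_univ_succ]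
  simp only [map_mul, MvPolynomial.finSuccEquiv_apply, MvPolynomial.eval₂Hom_C, map_add, map_sum, usf_zero, usf_succ,
    h1, RingHom.coe_comp, Function.comp_apply, MvPolynomial.eval₂Hom_X', Fin.cases_zero,
    Fin.cases_succ]
  ring

theorem t_UST : S_UST := by
  intro k _ P hP m
  induction m with
  | zero =>
    intro S _ _ _ f _ hr
    have h1 : Ideal.span (Set.range f) = Ideal.span {f 0} := by
      congr 1
      ext x
      constructor
      · rintro ⟨j, rfl⟩
        rw [Set.mem_singleton_iff, show j = 0 from Fin.eq_zero j]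
      · rintro rfl
        exact ⟨0, rfl⟩
    let φ : MvPolynomial (Fin 0) S →ₐ[k] S :=
      ((MvPolynomial.isEmptyAlgEquiv S (Fin 0)).restrictScalars k).toAlgHom
    have hφi : Function.Injective φ :=
      ((MvPolynomial.isEmptyAlgEquiv S (Fin 0)).restrictScalars k).injective
    obtain ⟨e'⟩ := ust_iso φ
      ((MvPolynomial.isEmptyAlgEquiv S (Fin 0)).restrictScalars k).surjective ∅ {fs f} {fs f}
      (Set.range f) (by
        rw [Ideal.span_empty]
        exact (RingHom.injective_iff_ker_eq_bot φ.toRingHom).1 hφi) (by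
        rw [Set.image_singleton]
        have h2 : φ (fs f) = f 0 := by
          unfold fs
          rw [Finset.univ_eq_empty, Finset.sum_empty, add_zero]
          exact (MvPolynomial.isEmptyAlgEquiv S (Fin 0)).commutes (f 0)
        rw [h2]
        ext x
        constructor
        · rintro rfl
          exact ⟨0, rfl⟩
        · rintro ⟨j, rfl⟩
          rw [Set.mem_singleton_iff, show j = 0 from Fin.eq_zero j]) (Set.empty_union _)
    exact hP.iso e'.symm hr
  | succ m ih =>
    intro S _ _ _ f hj hr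
    -- `P S`
    have hS : P S := by
      have h1 := hj 0 (Nat.succ_pos m)
      have h2 : Ideal.span (f '' {l : Fin (m + 1 + 1) | 1 ≤ l.1 ∧ l.1 ≤ 0}) = ⊥ := by
        have h3 : {l : Fin (m + 1 + 1) | 1 ≤ l.1 ∧ l.1 ≤ 0} = ∅ := by
          ext l
          simp only [Set.mem_ofPred_eq, Set.mem_empty_iff_false, iff_false]
          omega
        rw [h3, Set.image_empty, Ideal.span_empty]
      exact hP.iso ((Ideal.quotientEquivAlgOfEq k h2).trans (AlgEquiv.quotientBot k S)) h1
    have hS' : P (MvPolynomial (Fin m) S) := by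
      have h1 : ∀ n : ℕ, P (MvPolynomial (Fin n) S) := by
        intro n
        induction n with
        | zero =>
          exact hP.iso ((MvPolynomial.isEmptyAlgEquiv S (Fin 0)).restrictScalars k).symm hS
        | succ n ih2 =>
          exact hP.iso ((MvPolynomial.finSuccEquiv S n).restrictScalars k).symm (hP.line _ ih2)
      exact h1 m
    let g : MvPolynomial (Fin m) S := MvPolynomial.C (f 1)
    let h : MvPolynomial (Fin m) S := fs (usf f)
    have hU : P (Localization.Away g) := hP.opn g (awayHom k g) (isLocalization_awayHom g) hS'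
    -- the closed part
    let φ₁ : S →ₐ[k] S ⧸ Ideal.span {f 1} := Ideal.Quotient.mkₐ k (Ideal.span {f 1})
    have hφ₁ : Function.Surjective φ₁ := Ideal.Quotient.mkₐ_surjective k _
    have hk₁ : RingHom.ker φ₁.toRingHom = Ideal.span {f 1} := Ideal.mk_ker
    have hset : ∀ j : ℕ, ({f 1} : Set S) ∪ usf f '' {l : Fin (m + 1) | 1 ≤ l.1 ∧ l.1 ≤ j} =
        f '' {l : Fin (m + 1 + 1) | 1 ≤ l.1 ∧ l.1 ≤ j + 1} := by
      intro j
      ext x
      constructor
      · rintro (rfl | ⟨l, ⟨hl1, hl2⟩, rfl⟩)
        · exact ⟨1, ⟨by simp, by simp⟩, rfl⟩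
        · obtain ⟨l', rfl⟩ : ∃ l' : Fin m, l = l'.succ := by
            refine ⟨l.pred ?_, (Fin.succ_pred _ _).symm⟩
            rintro rfl
            simp at hl1
          refine ⟨l'.succ.succ, ⟨?_, ?_⟩, (usf_succ f l').symm⟩
          · simp only [Fin.val_succ]
            omega
          · simp only [Fin.val_succ] at hl2 ⊢
            omega
      · rintro ⟨l, ⟨hl1, hl2⟩, rfl⟩
        obtain ⟨l', rfl⟩ : ∃ l' : Fin (m + 1), l = l'.succ := by
          refine ⟨l.pred ?_, (Fin.succ_pred _ _).symm⟩
          rintro rfl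
          simp at hl1
        rcases Fin.eq_zero_or_eq_succ l' with rfl | ⟨l'', rfl⟩
        · left
          rfl
        · right
          refine ⟨l''.succ, ⟨?_, ?_⟩, usf_succ f l''⟩
          · simp only [Fin.val_succ]
            omega
          · simp only [Fin.val_succ] at hl2 ⊢
            omega
    have hset2 : ({f 1} : Set S) ∪ Set.range (usf f) = Set.range f := by
      ext x
      constructor
      · rintro (rfl | ⟨l, rfl⟩)
        · exact ⟨1, rfl⟩
        · rcases Fin.eq_zero_or_eq_succ l with rfl | ⟨l', rfl⟩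
          · exact ⟨0, rfl⟩
          · exact ⟨l'.succ.succ, rfl⟩
      · rintro ⟨l, rfl⟩
        rcases Fin.eq_zero_or_eq_succ l with rfl | ⟨l', rfl⟩
        · right
          exact ⟨0, rfl⟩
        · rcases Fin.eq_zero_or_eq_succ l' with rfl | ⟨l'', rfl⟩
          · left
            rfl
          · right
            exact ⟨l''.succ, rfl⟩
    have hZ1 : P (MvPolynomial (Fin m) (S ⧸ Ideal.span {f 1}) ⧸
        Ideal.span {fs (fun j => φ₁ (usf f j))}) := by
      refine ih (S ⧸ Ideal.span {f 1}) (fun j => φ₁ (usf f j)) ?_ ?_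
      · intro j hjm
        obtain ⟨e⟩ := ust_iso φ₁ hφ₁ {f 1} (usf f '' {l : Fin (m + 1) | 1 ≤ l.1 ∧ l.1 ≤ j}) _
          ((fun j => φ₁ (usf f j)) '' {l : Fin (m + 1) | 1 ≤ l.1 ∧ l.1 ≤ j}) hk₁
          (by rw [Set.image_image]) (hset j)
        exact hP.iso e (hj (j + 1) (by omega))
      · obtain ⟨e⟩ := ust_iso φ₁ hφ₁ {f 1} (Set.range (usf f)) _
          (Set.range fun j => φ₁ (usf f j)) hk₁ (by rw [← Set.range_comp]; rfl) hset2
        exact hP.iso e hr
    have hZ : P (MvPolynomial (Fin m) S ⧸ Ideal.span {g, h}) := by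
      let φ : MvPolynomial (Fin m) S →ₐ[k] MvPolynomial (Fin m) (S ⧸ Ideal.span {f 1}) :=
        MvPolynomial.mapAlgHom φ₁
      have hφ : Function.Surjective φ := MvPolynomial.map_surjective φ₁.toRingHom hφ₁
      have hφk : RingHom.ker φ.toRingHom = Ideal.span {g} := by
        have h1 : RingHom.ker φ.toRingHom = Ideal.map MvPolynomial.C (RingHom.ker φ₁.toRingHom) :=
          MvPolynomial.ker_map φ₁.toRingHom
        rw [h1, hk₁, Ideal.map_span, Set.image_singleton]
      have hφh : φ h = fs (fun j => φ₁ (usf f j)) := by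
        change MvPolynomial.map φ₁.toRingHom (fs (usf f)) = _
        unfold fs
        simp only [map_add, map_sum, map_mul, MvPolynomial.map_C, MvPolynomial.map_X]
        rfl
      obtain ⟨e⟩ := ust_iso φ hφ {g} {h} {g, h} {fs (fun j => φ₁ (usf f j))} hφk
        (by rw [Set.image_singleton, hφh]) (Set.singleton_union)
      exact hP.iso e.symm hZ1
    obtain ⟨z', u', hs⟩ := t_LNR k (MvPolynomial (Fin m) S) (Localization.Away g) g h (awayHom k g)
      (isLocalization_awayHom g)
    have hmain : P ((MvPolynomial (Fin m) S)[X] ⧸ Ideal.span {C g * X + C h}) :=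
      hP.glue _ z' u' hs (hP.line _ hZ) hU
    let φ₂ : MvPolynomial (Fin (m + 1)) S →ₐ[k] (MvPolynomial (Fin m) S)[X] :=
      ((MvPolynomial.finSuccEquiv S m).restrictScalars k).toAlgHom
    have hφ₂i : Function.Injective φ₂ :=
      ((MvPolynomial.finSuccEquiv S m).restrictScalars k).injective
    obtain ⟨e⟩ := ust_iso φ₂ ((MvPolynomial.finSuccEquiv S m).restrictScalars k).surjective
      ∅ {fs f} {fs f} {C g * X + C h}
      (by
        rw [Ideal.span_empty]
        exact (RingHom.injective_iff_ker_eq_bot φ₂.toRingHom).1 hφ₂i)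
      (by
        rw [Set.image_singleton]
        exact congrArg _ (ust_fs f)) (Set.empty_union _)
    exact hP.iso e.symm hmain

end QCV


end

section

/-!
# QCV, module EBM: more variables in the base
-/

set_option autoImplicit false

namespace QCV

theorem t_EBM : S_EBM := by
  intro k B _ _ _ a c
  let e : MvPolynomial (Fin 4) (MvPolynomial (Fin 2) B) ≃ₐ[k]
      MvPolynomial (Fin 2) (MvPolynomial (Fin 4) B) :=
    (MvPolynomial.commAlgEquiv B (Fin 4) (Fin 2)).restrictScalars k
  have he : ∀ p, e p = MvPolynomial.commAlgEquiv B (Fin 4) (Fin 2) p := fun _ => rfl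
  have hc : e (dia (fun j => MvPolynomial.C (a j)) + MvPolynomial.C (MvPolynomial.C c)) =
      MvPolynomial.C (dia a + MvPolynomial.C c) := by
    rw [he]
    simp only [dia, map_add, map_sum, map_mul, map_pow, MvPolynomial.commAlgEquiv_C,
      MvPolynomial.commAlgEquiv_X, MvPolynomial.map_C]
  have h1 : (Ideal.span {(MvPolynomial.C (dia a + MvPolynomial.C c) :
      MvPolynomial (Fin 2) (MvPolynomial (Fin 4) B))}) =
      (Ideal.span {(dia (fun j => MvPolynomial.C (a j)) + MvPolynomial.C (MvPolynomial.C c) :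
        MvPolynomial (Fin 4) (MvPolynomial (Fin 2) B))}).map
        (e : MvPolynomial (Fin 4) (MvPolynomial (Fin 2) B) →+*
          MvPolynomial (Fin 2) (MvPolynomial (Fin 4) B)) := by
    rw [Ideal.map_span, Set.image_singleton]
    exact congrArg (fun z => Ideal.span {z}) hc.symm
  have h2 : Ideal.map (MvPolynomial.C : MvPolynomial (Fin 4) B →+*
      MvPolynomial (Fin 2) (MvPolynomial (Fin 4) B))
      (Ideal.span {(dia a + MvPolynomial.C c : MvPolynomial (Fin 4) B)}) =
      Ideal.span {(MvPolynomial.C (dia a + MvPolynomial.C c) :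
      MvPolynomial (Fin 2) (MvPolynomial (Fin 4) B))} := by
    rw [Ideal.map_span, Set.image_singleton]
  exact ⟨((Ideal.quotientEquivAlg _ _ e h1).trans (Ideal.quotientEquivAlgOfEq k h2.symm)).trans
    ((MvPolynomial.quotientEquivQuotientMvPolynomial (σ := Fin 2)
      (Ideal.span {(dia a + MvPolynomial.C c : MvPolynomial (Fin 4) B)})).restrictScalars k).symm⟩

end QCV


end

section

/-!
# QCV, module EDS: strata of a double cover
-/

set_option autoImplicit false

open Polynomial

namespace QCV

namespace EDSx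

section span

variable {A : Type} [CommRing A] {b c : A}

lemma natDegree_dp [Nontrivial A] (b c : A) : (dpoly b c).natDegree = 2 := by
  unfold dpoly
  compute_degree!

lemma span_dr (x : Dr A b c) :
    ∃ p q : A, x = algebraMap A (Dr A b c) p + algebraMap A (Dr A b c) q * rt b c := by
  obtain ⟨p, rfl⟩ := AdjoinRoot.mk_surjective (g := dpoly b c) x
  rcases subsingleton_or_nontrivial A with hT | hT
  · refine ⟨0, 0, ?_⟩
    have : Subsingleton (Dr A b c) := Module.subsingleton A (Dr A b c)
    exact Subsingleton.elim _ _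
  have h1 : AdjoinRoot.mk (dpoly b c) p = AdjoinRoot.mk (dpoly b c) (p %ₘ dpoly b c) := by
    rw [AdjoinRoot.mk_eq_mk]
    refine ⟨p /ₘ dpoly b c, ?_⟩
    have := modByMonic_add_div p (dpoly b c)
    linear_combination -this
  have h2 : (p %ₘ dpoly b c).natDegree < 2 := by
    have h3 := natDegree_dp b c
    rw [← h3]
    exact natDegree_modByMonic_lt _ (dpoly_monic b c) (fun h => by rw [h] at h3; simp at h3)
  have h4 : p %ₘ dpoly b c = C ((p %ₘ dpoly b c).coeff 0) + C ((p %ₘ dpoly b c).coeff 1) * X := by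
    have := Polynomial.eq_X_add_C_of_natDegree_le_one (Nat.lt_succ_iff.mp h2)
    rw [add_comm]
    exact this
  refine ⟨(p %ₘ dpoly b c).coeff 0, (p %ₘ dpoly b c).coeff 1, ?_⟩
  rw [h1]
  conv_lhs => rw [h4]
  rw [map_add, map_mul]
  rfl

lemma free_dr {p q : A}
    (h : algebraMap A (Dr A b c) p + algebraMap A (Dr A b c) q * rt b c = 0) : p = 0 ∧ q = 0 := by
  rcases subsingleton_or_nontrivial A with hS | hS
  · exact ⟨Subsingleton.elim _ _, Subsingleton.elim _ _⟩
  have e1 : algebraMap A (Dr A b c) p + algebraMap A (Dr A b c) q * rt b c =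
      AdjoinRoot.mk (dpoly b c) (C p + C q * X) := by
    rw [map_add, map_mul]
    rfl
  rw [e1, AdjoinRoot.mk_eq_zero] at h
  have e2 : (C p + C q * X : A[X]) = 0 := by
    by_contra hne
    have hd := (dpoly_monic b c).not_dvd_of_natDegree_lt hne ?_
    · exact hd h
    · rw [natDegree_dp]
      refine lt_of_le_of_lt (natDegree_add_le _ _) ?_
      refine max_lt ?_ ?_
      · rw [natDegree_C]; omega
      · exact lt_of_le_of_lt (natDegree_C_mul_le _ _) (by
          refine lt_of_le_of_lt natDegree_X_le ?_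
          omega)
  constructor
  · simpa using congrArg (fun F => coeff F 0) e2
  · simpa using congrArg (fun F => coeff F 1) e2

end span

variable {k A B : Type} [Field k] [CommRing A] [Algebra k A] [CommRing B] [Algebra k B]

lemma dm_cond (φ : A →ₐ[k] B) (b c : A) :
    (dpoly b c).eval₂ ((algebraMap B (Dr B (φ b) (φ c))).comp φ.toRingHom) (rt (φ b) (φ c)) = 0 := by
  rw [eval₂_dpoly]
  exact rt_eq (φ b) (φ c)

/-- The homomorphism of double covers. -/
noncomputable def dm (φ : A →ₐ[k] B) (b c : A) : Dr A b c →ₐ[k] Dr B (φ b) (φ c) :=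
  { AdjoinRoot.lift ((algebraMap B (Dr B (φ b) (φ c))).comp φ.toRingHom) (rt (φ b) (φ c))
      (dm_cond φ b c) with
    commutes' := fun r => by
      have h : AdjoinRoot.lift ((algebraMap B (Dr B (φ b) (φ c))).comp φ.toRingHom)
          (rt (φ b) (φ c)) (dm_cond φ b c) (algebraMap A (Dr A b c) (algebraMap k A r)) =
          algebraMap B (Dr B (φ b) (φ c)) (φ (algebraMap k A r)) :=
        AdjoinRoot.lift_of (dm_cond φ b c)
      rw [φ.commutes] at h
      exact h }

lemma dm_alg (φ : A →ₐ[k] B) (b c a : A) :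
    dm φ b c (algebraMap A (Dr A b c) a) = algebraMap B (Dr B (φ b) (φ c)) (φ a) :=
  AdjoinRoot.lift_of (dm_cond φ b c)

lemma dm_rt (φ : A →ₐ[k] B) (b c : A) : dm φ b c (rt b c) = rt (φ b) (φ c) :=
  AdjoinRoot.lift_root (dm_cond φ b c)

lemma dm_pq (φ : A →ₐ[k] B) (b c p q : A) :
    dm φ b c (algebraMap A (Dr A b c) p + algebraMap A (Dr A b c) q * rt b c) =
      algebraMap B (Dr B (φ b) (φ c)) (φ p) +
        algebraMap B (Dr B (φ b) (φ c)) (φ q) * rt (φ b) (φ c) := by
  rw [map_add, map_mul, dm_alg, dm_alg, dm_rt]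

lemma dm_surj (φ : A →ₐ[k] B) (b c : A) (h : Function.Surjective φ) :
    Function.Surjective (dm φ b c) := by
  intro x
  obtain ⟨p, q, rfl⟩ := span_dr x
  obtain ⟨p', rfl⟩ := h p
  obtain ⟨q', rfl⟩ := h q
  exact ⟨_, dm_pq φ b c p' q'⟩

lemma dm_ker (φ : A →ₐ[k] B) (b c a : A) (h : RingHom.ker φ.toRingHom = Ideal.span {a}) :
    RingHom.ker (dm φ b c).toRingHom = Ideal.span {algebraMap A (Dr A b c) a} := by
  apply le_antisymm
  · intro x hx
    obtain ⟨p, q, rfl⟩ := span_dr x
    have h1 : dm φ b c (algebraMap A (Dr A b c) p + algebraMap A (Dr A b c) q * rt b c) = 0 := hx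
    rw [dm_pq] at h1
    have h2 := free_dr h1
    have h3 : ∀ t : A, φ t = 0 →
        algebraMap A (Dr A b c) t ∈ Ideal.span {algebraMap A (Dr A b c) a} := by
      intro t ht
      have h4 : t ∈ RingHom.ker φ.toRingHom := ht
      rw [h] at h4
      obtain ⟨d, hd⟩ := Ideal.mem_span_singleton.mp h4
      rw [hd, map_mul]
      exact Ideal.mul_mem_right _ _ (Ideal.subset_span rfl)
    exact add_mem (h3 _ h2.1) (Ideal.mul_mem_right _ _ (h3 _ h2.2))
  · rw [Ideal.span_singleton_le_iff_mem]
    change dm φ b c (algebraMap A (Dr A b c) a) = 0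
    have h1 : a ∈ RingHom.ker φ.toRingHom := by
      rw [h]
      exact Ideal.subset_span rfl
    have h2 : φ a = 0 := h1
    rw [dm_alg, h2, map_zero]

lemma dm_away (φ : A →ₐ[k] B) (b c a : A)
    (h : @IsLocalization.Away A _ a B _ φ.toRingHom.toAlgebra) :
    @IsLocalization.Away (Dr A b c) _ (algebraMap A (Dr A b c) a) (Dr B (φ b) (φ c)) _
      (dm φ b c).toRingHom.toAlgebra := by
  -- the facts about `φ`
  have hu : IsUnit (φ a) := by
    let _ : Algebra A B := φ.toRingHom.toAlgebra
    have h' : IsLocalization.Away a B := h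
    exact IsLocalization.Away.algebraMap_isUnit a
  have hs : ∀ x : B, ∃ (p : A) (n : ℕ), x * φ a ^ n = φ p := by
    intro x
    let _ : Algebra A B := φ.toRingHom.toAlgebra
    have h' : IsLocalization.Away a B := h
    obtain ⟨⟨p, ⟨_, n, rfl⟩⟩, hp⟩ := IsLocalization.surj (Submonoid.powers a) x
    refine ⟨p, n, ?_⟩
    have h1 : x * φ (a ^ n) = φ p := hp
    rwa [map_pow] at h1
  have he : ∀ p : A, φ p = 0 → ∃ n : ℕ, a ^ n * p = 0 := by
    intro p hp
    let _ : Algebra A B := φ.toRingHom.toAlgebra
    have h' : IsLocalization.Away a B := h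
    have h1 : algebraMap A B p = algebraMap A B 0 := by
      rw [map_zero]
      exact hp
    obtain ⟨⟨_, n, rfl⟩, hn⟩ := IsLocalization.exists_of_eq (M := Submonoid.powers a) h1
    exact ⟨n, by simpa using hn⟩
  let _ : Algebra (Dr A b c) (Dr B (φ b) (φ c)) := (dm φ b c).toRingHom.toAlgebra
  have hal : ∀ x : Dr A b c, algebraMap (Dr A b c) (Dr B (φ b) (φ c)) x = dm φ b c x :=
    fun x => rfl
  refine ⟨?_, ?_, ?_⟩
  · rintro ⟨_, n, rfl⟩
    rw [hal, map_pow, dm_alg]
    exact (hu.map (algebraMap B (Dr B (φ b) (φ c)))).pow n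
  · intro x
    obtain ⟨P, Q, rfl⟩ := span_dr x
    obtain ⟨p, n, hp⟩ := hs P
    obtain ⟨q, m, hq⟩ := hs Q
    refine ⟨⟨algebraMap A (Dr A b c) (p * a ^ m) + algebraMap A (Dr A b c) (q * a ^ n) * rt b c,
      ⟨algebraMap A (Dr A b c) a ^ (n + m), n + m, rfl⟩⟩, ?_⟩
    change (algebraMap B (Dr B (φ b) (φ c)) P + algebraMap B (Dr B (φ b) (φ c)) Q *
        rt (φ b) (φ c)) * algebraMap (Dr A b c) (Dr B (φ b) (φ c))
          (algebraMap A (Dr A b c) a ^ (n + m)) = algebraMap (Dr A b c) (Dr B (φ b) (φ c)) _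
    have hp' : φ (p * a ^ m) = P * φ a ^ n * φ a ^ m := by rw [map_mul, map_pow, hp]
    have hq' : φ (q * a ^ n) = Q * φ a ^ m * φ a ^ n := by rw [map_mul, map_pow, hq]
    rw [hal, hal, dm_pq, map_pow, dm_alg, hp', hq']
    simp only [map_mul, map_pow]
    ring
  · intro x y hxy
    obtain ⟨p, q, hpq⟩ := span_dr (x - y)
    have h1 : dm φ b c (x - y) = 0 := by
      rw [map_sub, sub_eq_zero]
      exact hxy
    rw [hpq, dm_pq] at h1
    have h2 := free_dr h1
    obtain ⟨n, hn⟩ := he p h2.1
    obtain ⟨m, hm⟩ := he q h2.2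
    refine ⟨⟨algebraMap A (Dr A b c) a ^ (n + m), n + m, rfl⟩, ?_⟩
    change algebraMap A (Dr A b c) a ^ (n + m) * x = algebraMap A (Dr A b c) a ^ (n + m) * y
    rw [← sub_eq_zero, ← mul_sub, hpq]
    have e1 : algebraMap A (Dr A b c) a ^ (n + m) * (algebraMap A (Dr A b c) p +
        algebraMap A (Dr A b c) q * rt b c) =
        algebraMap A (Dr A b c) (a ^ m * (a ^ n * p)) +
          algebraMap A (Dr A b c) (a ^ n * (a ^ m * q)) * rt b c := by
      simp only [map_mul, map_pow]
      ring
    rw [e1, hn, hm, mul_zero, mul_zero, map_zero, zero_mul, add_zero]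

end EDSx

theorem t_EDS : S_EDS := by
  intro k A Z U _ _ _ _ _ _ _ a z u h b c
  exact ⟨EDSx.dm z b c, EDSx.dm u b c, EDSx.dm_surj z b c h.surj, EDSx.dm_ker z b c a h.ker,
    EDSx.dm_away u b c a h.away⟩

end QCV


end

section

/-!
# QCV, block E: quadratic forms in an even number of variables, the induction
-/

set_option autoImplicit false

open Polynomial

namespace QCV

open CUB

namespace EVI

variable {k : Type} [Field k]
  {P : ∀ (A : Type) [CommRing A] [Algebra k A] [Algebra.FiniteType k A], Prop}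

/-- the value at zero -/
noncomputable def ev0 (k S : Type) [Field k] [CommRing S] [Algebra k S] : S[X] →ₐ[k] S :=
  (Polynomial.aeval (0 : S)).restrictScalars k

lemma ev0_surj (S : Type) [CommRing S] [Algebra k S] : Function.Surjective (ev0 k S) := by
  intro s
  refine ⟨C s, ?_⟩
  change Polynomial.aeval (0 : S) (C s) = s
  rw [Polynomial.aeval_C]
  rfl

lemma ev0_ker (S : Type) [CommRing S] [Algebra k S] :
    RingHom.ker (ev0 k S).toRingHom = Ideal.span {(X : S[X])} := by
  ext p
  rw [RingHom.mem_ker, Ideal.mem_span_singleton, Polynomial.X_dvd_iff]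
  change Polynomial.aeval (0 : S) p = 0 ↔ _
  rw [Polynomial.coeff_zero_eq_aeval_zero]

/-- the punctured line -/
lemma punct (hP : Cls0 k P)
    (hl : ∀ (A : Type) [CommRing A] [Algebra k A] [Algebra.FiniteType k A], P A → P A[X])
    (S : Type) [CommRing S] [Algebra k S] [Algebra.FiniteType k S] (h : P S) :
    P (Localization.Away (X : S[X])) :=
  hP.opn (X : S[X]) (ev0 k S) (awayHom k (X : S[X]))
    ⟨ev0_surj S, ev0_ker S, isLocalization_awayHom _⟩ (hl S h) h

/-- the double point of the line -/
lemma dpoint (hP : Cls0 k P) (S : Type) [CommRing S] [Algebra k S] [Algebra.FiniteType k S]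
    (h : P S) : P (S[X] ⧸ Ideal.span {(X : S[X]) ^ 2}) := by
  have hle : Ideal.span {(X : S[X]) ^ 2} ≤ RingHom.ker (ev0 k S).toRingHom := by
    rw [ev0_ker, Ideal.span_singleton_le_span_singleton]
    exact dvd_pow_self _ two_ne_zero
  let q : (S[X] ⧸ Ideal.span {(X : S[X]) ^ 2}) →ₐ[k] S :=
    Ideal.Quotient.liftₐ _ (ev0 k S) fun a ha => hle ha
  have hq : ∀ p : S[X], q (Ideal.Quotient.mk _ p) = ev0 k S p := fun p => rfl
  let x : S[X] ⧸ Ideal.span {(X : S[X]) ^ 2} := Ideal.Quotient.mk _ X
  have hx : x ^ 2 = 0 := by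
    change (Ideal.Quotient.mk _ X) ^ 2 = 0
    rw [← map_pow, Ideal.Quotient.eq_zero_iff_mem]
    exact Ideal.subset_span rfl
  refine hP.glue x q (awayHom k x) ⟨?_, ?_, isLocalization_awayHom _⟩ h (hP.triv _ ?_)
  · intro s
    obtain ⟨p, hp⟩ := ev0_surj (k := k) S s
    exact ⟨Ideal.Quotient.mk _ p, (hq p).trans hp⟩
  · apply le_antisymm
    · intro y hy
      obtain ⟨p, rfl⟩ := Ideal.Quotient.mk_surjective y
      have h1 : ev0 k S p = 0 := hy
      have h2 : p ∈ RingHom.ker (ev0 k S).toRingHom := h1
      rw [ev0_ker, Ideal.mem_span_singleton] at h2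
      obtain ⟨r, rfl⟩ := h2
      rw [Ideal.mem_span_singleton, map_mul]
      exact ⟨_, rfl⟩
    · rw [Ideal.span_le]
      rintro _ rfl
      change ev0 k S X = 0
      have h2 : (X : S[X]) ∈ RingHom.ker (ev0 k S).toRingHom := by
        rw [ev0_ker]
        exact Ideal.subset_span rfl
      exact h2
  · have h3 : IsUnit (algebraMap _ (Localization.Away x) x) :=
      IsLocalization.Away.algebraMap_isUnit x
    have h4 : (0 : Localization.Away x) = algebraMap _ (Localization.Away x) x ^ 2 := by
      rw [← map_pow, hx, map_zero]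
    have h5 : IsUnit (0 : Localization.Away x) := by
      rw [h4]
      exact h3.pow 2
    exact isUnit_zero_iff.1 h5 |> fun h6 => subsingleton_of_zero_eq_one h6

lemma dr_congr {A : Type} [CommRing A] [Algebra k A] [Algebra.FiniteType k A] {c c' : A}
    (h : c = c') (hD : P (Dr A 0 c)) : P (Dr A 0 c') := by
  subst h
  exact hD

lemma qc_congr {B : Type} [CommRing B] [Algebra k B] [Algebra.FiniteType k B] {a a' : Fin 4 → B}
    {c c' : B} (h : a = a') (h' : c = c') (hD : P (QC B a c)) : P (QC B a' c') := by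
  subst h
  subst h'
  exact hD

lemma prod_two {A : Type} [CommRing A] (n : ℕ) (a : Fin (n + 2) → A) :
    ∏ j, a j = a 0 * (a 1 * ∏ j : Fin n, a j.succ.succ) := by
  rw [Fin.prod_univ_succ, Fin.prod_univ_succ]
  rfl

/-- the product of the first four coefficients and the others -/
lemma prod_four {A : Type} [CommRing A] (n : ℕ) (a : Fin (n + 4) → A) :
    ∏ j, a j = a 0 * a 1 * a 2 * a 3 * ∏ j : Fin n, a j.succ.succ.succ.succ := by
  rw [Fin.prod_univ_succ, Fin.prod_univ_succ, Fin.prod_univ_succ, Fin.prod_univ_succ]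
  change a 0 * (a 1 * (a 2 * (a 3 * _))) = _
  simp only [mul_assoc]

end EVI

open _root_.QCV.EVI in
theorem t_EVI : M_EVI := by
  intro hEQI hEH2 hEE1 hEDU k _ P h2 hP hl hd hTw A _ _ _ m
  have hA : ∀ c : A, P (Dr A 0 c) → P A := fun c h => hd A 0 c h
  induction m with
  | zero =>
    intro a _ hD
    have h0 : (dia a : MvPolynomial (Fin (2 * 0)) A) = 0 := by
      unfold dia
      exact Finset.sum_eq_zero fun j _ => (Fin.elim0 j : _)
    have h1 := (Asm.s_PLY k P hP hl A 0).2.1 PUnit (fun _ => dia a) (fun _ => h0) (hA _ hD)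
    have e : Ideal.span (Set.range fun _ : PUnit => (dia a : MvPolynomial (Fin (2 * 0)) A)) =
        Ideal.span {dia a} := by
      rw [Set.range_const]
    exact hP.iso (Ideal.quotientEquivAlgOfEq k e) h1
  | succ m ih =>
    cases m with
    | zero =>
      intro a ha hD
      obtain ⟨z, u, hs⟩ := hEE1 k A a ha
      refine hP.glue _ z u hs (dpoint hP A (hA _ hD)) (punct hP hl _ ?_)
      have e : (-1 : A) ^ (0 + 1 + 1) * ∏ j, a j = a 0 * a 1 := by
        have h3 : ∏ j, a j = a 0 * a 1 := Fin.prod_univ_two a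
        rw [h3]
        ring
      exact dr_congr e hD
    | succ m =>
      intro a ha hD
      obtain ⟨v, hv⟩ := (ha 0).exists_right_inv
      -- the coefficients
      let b : Fin (2 * m + 4) → A := a
      have hb : ∀ j, IsUnit (b j) := ha
      change b 0 * v = 1 at hv
      let δ : A := - (b 1 * v)
      have hδu : IsUnit δ := ((hb 1).mul (IsUnit.of_mul_eq_one_right (b 0) hv)).neg
      have hδ : δ * b 0 = - b 1 := by
        change - (b 1 * v) * b 0 = - b 1
        linear_combination (- b 1) * hv
      let b' : Fin (2 * m + 4) → A := fun j =>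
        if j.1 = 1 then - b 0 else if j.1 = 3 then δ * b 3 else b j
      have h0' : b' 0 = b 0 := rfl
      have h1' : b' 1 = - b 0 := rfl
      have h2' : b' 2 = b 2 := rfl
      have h3' : b' 3 = δ * b 3 := rfl
      have h4' : ∀ j : Fin (2 * m), b' j.succ.succ.succ.succ = b j.succ.succ.succ.succ := by
        intro j
        change (if (j.1 + 1 + 1 + 1 + 1 : ℕ) = 1 then _ else if (j.1 + 1 + 1 + 1 + 1 : ℕ) = 3 then _
          else _) = _
        rw [if_neg (by omega), if_neg (by omega)]
      have hb' : ∀ j, IsUnit (b' j) := by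
        intro j
        change IsUnit (if j.1 = 1 then - b 0 else if j.1 = 3 then δ * b 3 else b j)
        split_ifs
        · exact (hb 0).neg
        · exact hδu.mul (hb 3)
        · exact hb j
      have hprod : ∏ j, b' j = ∏ j, b j := by
        rw [prod_four, prod_four, h0', h1', h2', h3']
        simp only [h4']
        linear_combination (- b 0 * b 2 * b 3 * ∏ j : Fin (2 * m), b j.succ.succ.succ.succ) * hδ
      -- the cone of `b'`
      have hcone : P (MvPolynomial (Fin (2 * (m + 2))) A ⧸
          Ideal.span {dia (b' : Fin (2 * (m + 2)) → A)}) := by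
        obtain ⟨s, z, u, hs⟩ := hEH2 k A (2 * (m + 1)) b' h2 (hb' 0) rfl
        refine hP.glue s z u hs (hl _ (ih (fun j => b' j.succ.succ) (fun j => hb' _) ?_))
          (punct hP hl _ ((Asm.s_PLY k P hP hl A _).1 (hA _ hD)))
        obtain ⟨e⟩ := hEDU k A ((-1) ^ (m + 1 + 1) * ∏ j : Fin (2 * (m + 1)), b' j.succ.succ) (b 0)
          (hb 0)
        refine hP.iso e.symm (dr_congr ?_ hD)
        have h5 : ∏ j, a j = b' 0 * (b' 1 * ∏ j : Fin (2 * (m + 1)), b' j.succ.succ) :=
          hprod.symm.trans (prod_two (2 * (m + 1)) b')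
        rw [h5, h0', h1']
        ring
      obtain ⟨e1⟩ := hEQI k A m a
      obtain ⟨e2⟩ := hEQI k A m b'
      refine hP.iso e1.symm (hTw _ _ _ (MvPolynomial.C δ) ?_ ?_ ?_ ?_)
      · intro j
        exact (ha _).map MvPolynomial.C
      · exact hδu.map MvPolynomial.C
      · change MvPolynomial.C δ * MvPolynomial.C (b 0) = - MvPolynomial.C (b 1)
        rw [← map_mul, hδ, map_neg]
      · refine qc_congr ?_ ?_ (hP.iso e2 hcone)
        · funext j
          fin_cases j
          · rfl
          · change MvPolynomial.C (- b 0) = - MvPolynomial.C (b 0)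
            rw [map_neg]
          · rfl
          · change MvPolynomial.C (δ * b 3) = MvPolynomial.C δ * MvPolynomial.C (b 3)
            rw [map_mul]
        · congr 1

end QCV


end

section

/-!
# QCV, UD2: the discriminant of `x_0 ^ 2 - g x_1 ^ 2 + u_1 v_1 + ... + u_s v_s` is not zero.
-/

set_option autoImplicit false

namespace QCV

/-- The entries of the matrix. -/
theorem ud2_entry {B : Type} [CommRing B] (g : B) (s : ℕ) (i j : Fin (2 + 2 * s)) :
    lgram (hyp (MvPolynomial.X 0 ^ 2 - MvPolynomial.C g * MvPolynomial.X 1 ^ 2 :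
      MvPolynomial (Fin 2) B) s) i j =
      (1 * ((if j = ⟨0, by omega⟩ then (if i = ⟨0, by omega⟩ then 1 else 0) else 0) +
        (if j = ⟨0, by omega⟩ then (if i = ⟨0, by omega⟩ then 1 else 0) else 0)) +
      (-g) * ((if j = ⟨1, by omega⟩ then (if i = ⟨1, by omega⟩ then 1 else 0) else 0) +
        (if j = ⟨1, by omega⟩ then (if i = ⟨1, by omega⟩ then 1 else 0) else 0))) +
      ∑ l : Fin s, ((if j = ⟨2 + 2 * l.1, by omega⟩ then
          (if i = ⟨2 + 2 * l.1 + 1, by omega⟩ then 1 else 0) else 0) +
        (if j = ⟨2 + 2 * l.1 + 1, by omega⟩ then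
          (if i = ⟨2 + 2 * l.1, by omega⟩ then 1 else 0) else 0)) := by
  unfold hyp
  rw [udt_add, udt_sum]
  congr 1
  · have h : MvPolynomial.rename (Fin.castAdd (2 * s))
        (MvPolynomial.X 0 ^ 2 - MvPolynomial.C g * MvPolynomial.X 1 ^ 2 : MvPolynomial (Fin 2) B) =
        MvPolynomial.C 1 * (MvPolynomial.X ⟨0, by omega⟩ * MvPolynomial.X ⟨0, by omega⟩) +
        MvPolynomial.C (-g) * (MvPolynomial.X ⟨1, by omega⟩ * MvPolynomial.X ⟨1, by omega⟩) := by
      simp only [map_sub, map_mul, map_pow, MvPolynomial.rename_C, MvPolynomial.rename_X]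
      rw [sq, sq, MvPolynomial.C_1, one_mul, MvPolynomial.C_neg, neg_mul, sub_eq_add_neg]
      rfl
    rw [h, udt_add, udt_mon, udt_mon]
  · refine Finset.sum_congr rfl fun l _ => ?_
    have h := udt_mon (1 : B) (⟨2 + 2 * l.1, by omega⟩ : Fin (2 + 2 * s))
      ⟨2 + 2 * l.1 + 1, by omega⟩ i j
    rw [MvPolynomial.C_1, one_mul, one_mul] at h
    exact h

theorem t_UD2 : S_UD2 := by
  intro B _ _ g s h2 hg hdet
  obtain ⟨v, hv, hMv⟩ := (Matrix.exists_mulVec_eq_zero_iff).2 hdet
  apply hv
  have key : ∀ i : Fin (2 + 2 * s),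
      (((if i = ⟨0, by omega⟩ then v ⟨0, by omega⟩ else 0) +
        (if i = ⟨0, by omega⟩ then v ⟨0, by omega⟩ else 0)) +
      (-g) * ((if i = ⟨1, by omega⟩ then v ⟨1, by omega⟩ else 0) +
        (if i = ⟨1, by omega⟩ then v ⟨1, by omega⟩ else 0))) +
      ∑ l : Fin s, ((if i = ⟨2 + 2 * l.1 + 1, by omega⟩ then v ⟨2 + 2 * l.1, by omega⟩ else 0) +
        (if i = ⟨2 + 2 * l.1, by omega⟩ then v ⟨2 + 2 * l.1 + 1, by omega⟩ else 0)) = 0 := by
    intro i
    have h := congrFun hMv i
    rw [Matrix.mulVec, dotProduct, Pi.zero_apply] at h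
    refine Eq.trans ?_ h
    simp_rw [ud2_entry, one_mul, add_mul, Finset.sum_mul, Finset.sum_add_distrib, mul_add, add_mul]
    simp_rw [Finset.sum_add_distrib]
    rw [Finset.sum_comm (s := Finset.univ) (t := Finset.univ)
      (f := fun (j : Fin (2 + 2 * s)) (l : Fin s) =>
        (if j = ⟨2 + 2 * l.1, by omega⟩ then
          (if i = ⟨2 + 2 * l.1 + 1, by omega⟩ then (1 : B) else 0) else 0) * v j)]
    rw [Finset.sum_comm (s := Finset.univ) (t := Finset.univ)
      (f := fun (j : Fin (2 + 2 * s)) (l : Fin s) =>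
        (if j = ⟨2 + 2 * l.1 + 1, by omega⟩ then
          (if i = ⟨2 + 2 * l.1, by omega⟩ then (1 : B) else 0) else 0) * v j)]
    simp only [mul_ite, ite_mul, mul_one, mul_zero, zero_mul, one_mul, Finset.sum_ite_eq',
      Finset.mem_univ, if_true]
  have kz : ∀ i : Fin (2 + 2 * s), i.1 < 2 →
      ∑ l : Fin s, ((if i = ⟨2 + 2 * l.1 + 1, by omega⟩ then v ⟨2 + 2 * l.1, by omega⟩ else 0) +
        (if i = ⟨2 + 2 * l.1, by omega⟩ then v ⟨2 + 2 * l.1 + 1, by omega⟩ else 0)) = 0 := by
    intro i hi
    refine Finset.sum_eq_zero fun l _ => ?_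
    rw [if_neg, if_neg, add_zero]
    · intro hh
      have := congrArg Fin.val hh
      simp only at this
      omega
    · intro hh
      have := congrArg Fin.val hh
      simp only at this
      omega
  funext i
  rw [Pi.zero_apply]
  obtain ⟨i, hi⟩ := i
  rcases Nat.lt_or_ge i 2 with h0 | h0
  · rcases Nat.eq_zero_or_pos i with h00 | h00
    · subst h00
      have h := key ⟨0, by omega⟩
      rw [kz _ (by simp), if_pos rfl, if_neg (by simp [Fin.ext_iff]), add_zero, add_zero, mul_zero,
        add_zero, ← two_mul] at h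
      rcases mul_eq_zero.1 h with h | h
      · exact absurd h h2
      · exact h
    · obtain rfl : i = 1 := by omega
      have h := key ⟨1, by omega⟩
      rw [kz _ (by simp), if_neg (by simp [Fin.ext_iff]), if_pos rfl, add_zero, add_zero, zero_add,
        ← two_mul, neg_mul, neg_eq_zero] at h
      rcases mul_eq_zero.1 h with h | h
      · exact absurd h hg
      · rcases mul_eq_zero.1 h with h | h
        · exact absurd h h2
        · exact h
  · have kf : ∀ m : ℕ, ∀ hm : 2 + 2 * m < 2 + 2 * s, ∀ hm' : 2 + 2 * m + 1 < 2 + 2 * s,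
        v ⟨2 + 2 * m, hm⟩ = 0 ∧ v ⟨2 + 2 * m + 1, hm'⟩ = 0 := by
      intro m hm hm'
      constructor
      · have h := key ⟨2 + 2 * m + 1, by omega⟩
        rw [Finset.sum_eq_single (⟨m, by omega⟩ : Fin s)] at h
        · rw [if_neg, if_neg, if_pos rfl, if_neg, add_zero, add_zero, mul_zero, add_zero,
            zero_add] at h
          · exact h
          all_goals
            intro hh
            have := congrArg Fin.val hh
            simp only at this
            omega
        · intro l _ hl
          rw [if_neg, if_neg, add_zero]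
          · intro hh
            have := congrArg Fin.val hh
            simp only at this
            omega
          · intro hh
            apply hl
            have := congrArg Fin.val hh
            simp only at this
            apply Fin.ext
            simp only
            omega
        · intro hh
          exact absurd (Finset.mem_univ _) hh
      · have h := key ⟨2 + 2 * m, by omega⟩
        rw [Finset.sum_eq_single (⟨m, by omega⟩ : Fin s)] at h
        · rw [if_neg, if_neg, if_neg, if_pos rfl, add_zero, mul_zero, add_zero, zero_add,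
            zero_add] at h
          · exact h
          all_goals
            intro hh
            have := congrArg Fin.val hh
            simp only at this
            omega
        · intro l _ hl
          rw [if_neg, if_neg, add_zero]
          · intro hh
            apply hl
            have := congrArg Fin.val hh
            simp only at this
            apply Fin.ext
            simp only
            omega
          · intro hh
            have := congrArg Fin.val hh
            simp only at this
            omega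
        · intro hh
          exact absurd (Finset.mem_univ _) hh
    rcases Nat.even_or_odd' i with ⟨m, hm | hm⟩
    · obtain ⟨m, rfl⟩ : ∃ m', m = m' + 1 := ⟨m - 1, by omega⟩
      have h := (kf m (by omega) (by omega)).1
      have e : (⟨i, hi⟩ : Fin (2 + 2 * s)) = ⟨2 + 2 * m, by omega⟩ := by
        apply Fin.ext
        simp only
        omega
      rw [e]
      exact h
    · obtain ⟨m, rfl⟩ : ∃ m', m = m' + 1 := ⟨m - 1, by omega⟩
      have h := (kf m (by omega) (by omega)).2
      have e : (⟨i, hi⟩ : Fin (2 + 2 * s)) = ⟨2 + 2 * m + 1, by omega⟩ := by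
        apply Fin.ext
        simp only
        omega
      rw [e]
      exact h

end QCV


end
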