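import Mathlib
import Pool.Agent.QVM.C47
import Pool.Agent.QVM.C59

/-! Parts: QCV.T_TGM, QCV.E_EE1 -/

section

/-!
# QCV, block T: the punctured line
-/

set_option autoImplicit false

open CategoryTheory AlgebraicGeometry Limits Polynomial TopologicalSpace

namespace QCV

open Pool.Agent.Lib_helper55.Beil Pool.Agent.Lib_helper66.OneP CUB

universe v

namespace TGM

variable {k : Type} [Field k] {E : Type} [Field E] {T : ∀ i : ℕ, Homology.{v} k E i}

/-- The part in degree `2 i` and eigenvalue one for a product with the affine line from the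
complement of a section. -/
lemma gen_section (hS : SectionZero T) (i : ℕ) {Y X U : Var k} (L : Line Y X) (s : ClosedIn X Y)
    (j : OpenIn U Y) (hs : s.g ≫ L.q = 𝟙 X.X) (hc : Complementary s j)
    (h : (T i).gen U ≤ (T i).alg U) : (T i).gen Y ≤ (T i).alg Y := by
  intro m hm
  have h1 : (T i).res (2 * i) j m ∈ (T i).gen U :=
    maxGen_map ((T i).frob (2 * i) Y) ((T i).frob (2 * i) U) ((T i).res (2 * i) j)
      ((T i).res_frob (2 * i) j) hm
  obtain ⟨c, hc1⟩ := exists_cls (T i) U _ (h h1)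
  obtain ⟨c', rfl⟩ := exists_resCyc j c
  have h2 : (T i).res (2 * i) j (m - cls (T i) Y c') = 0 := by
    rw [map_sub, res_cls, hc1, sub_self]
  obtain ⟨w, hw⟩ := ((T i).exact_X (2 * i) s j hc _).mp h2
  have h3 : (T i).push (2 * i) s w = 0 := hS i (2 * i) L s hs w
  have h4 : m = cls (T i) Y c' := by
    rw [← sub_eq_zero, ← hw]
    exact h3
  rw [h4]
  exact (T i).linComb_mem_alg _ _

/-- The first component of `pf_line_desc`. -/
lemma gen_line_desc [Finite k] (hT : Full T) (hP : Pub T hT) (hS : SectionZero T) (i : ℕ)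
    {Y X : Var k} (L : Line Y X) (h : (T (i + 1)).gen Y ≤ (T (i + 1)).alg Y) :
    (T i).gen X ≤ (T i).alg X := by
  intro α hα
  refine alg_of_supp i X α hα (supp_line_desc hT hP hS i (2 * i) i L α ?_)
  have h1 : hT.line i (2 * i) L α ∈ (T (i + 1)).gen Y :=
    maxGen_map ((T i).frob (2 * i) X) ((T (i + 1)).frob (2 * (i + 1)) Y) (hT.line i (2 * i) L)
      (hT.line_frob i (2 * i) L) hα
  obtain ⟨c, hc⟩ := exists_cls (T (i + 1)) Y _ (h h1)
  have h2 := supp_cls (T := T) (i + 1) Y c
  have h3 : clz (T (i + 1)) Y c = hT.line i (2 * i) L α := hc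
  rw [h3] at h2
  exact h2

end TGM

/-- **TGM**. -/
theorem t_TGM : S_TGM.{v} := by
  intro k E _ _ _ _ T hT hP hS A _ _ _ h i
  let φ : A[X] →ₐ[k] A := (Polynomial.aeval (0 : A)).restrictScalars k
  have hφ : Function.Surjective φ := fun x => ⟨C x, by
    change Polynomial.aeval (0 : A) (C x) = x
    rw [Polynomial.aeval_C]
    rfl⟩
  have hk : RingHom.ker φ.toRingHom = Ideal.span {(X : A[X])} := by
    ext p
    rw [RingHom.mem_ker, Ideal.mem_span_singleton, Polynomial.X_dvd_iff]
    change Polynomial.aeval (0 : A) p = 0 ↔ _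
    rw [← Polynomial.coeff_zero_eq_aeval_zero]
  have hu := isLocalization_awayHom (k := k) (X : A[X])
  have hs : (clo φ hφ).g ≫ (lineE (CC k A) (RingEquiv.refl _) (fun _ => rfl)).q =
      𝟙 (aff k A).X := by
    have h1 : φ.toRingHom.comp (CC k A).toRingHom = RingHom.id A := by
      ext x
      change Polynomial.aeval (0 : A) (C x) = x
      rw [Polynomial.aeval_C]
      rfl
    have h2 : Spec.map (CommRingCat.ofHom φ.toRingHom) ≫
        Spec.map (CommRingCat.ofHom (CC k A).toRingHom) = 𝟙 (Spec (CommRingCat.of A)) := by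
      rw [← Spec.map_comp, ← CommRingCat.ofHom_comp, h1]
      exact Spec.map_id _
    exact h2
  exact TGM.gen_line_desc hT hP hS i (lineE (CC k A) (RingEquiv.refl _) (fun _ => rfl))
    (TGM.gen_section hS (i + 1) _ (clo φ hφ)
      (opn (awayHom k (X : A[X])) (isOpenImmersion_spm _ _ hu)) hs
      (complementary_away _ _ hu φ hφ hk) (h (i + 1)))

end QCV


end

section

/-!
# QCV, module EE1: strata of the cone `a_0 x_0 ^ 2 + a_1 x_1 ^ 2 = 0`
-/

set_option autoImplicit false

open CategoryTheory AlgebraicGeometry Polynomial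

namespace QCV

open Pool.Agent.Lib_helper55.Beil Pool.Agent.Lib_helper66.OneP CUB

namespace EE1x

/-- Homomorphisms from a double cover. -/
noncomputable def drs {k A T : Type} [Field k] [CommRing A] [Algebra k A] [CommRing T] [Algebra k T]
    {b c : A} (i : A →ₐ[k] T) (x : T) (h : x ^ 2 + i b * x + i c = 0) : Dr A b c →ₐ[k] T where
  __ := AdjoinRoot.lift i.toRingHom x ((eval₂_dpoly b c i.toRingHom x).trans h)
  commutes' r := by
    have h1 : algebraMap k (Dr A b c) r = AdjoinRoot.of (dpoly b c) (algebraMap k A r) := rfl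
    rw [h1]
    change AdjoinRoot.lift i.toRingHom x _ (AdjoinRoot.of (dpoly b c) (algebraMap k A r)) = _
    rw [AdjoinRoot.lift_of]
    exact i.commutes r

section

variable {k A T : Type} [Field k] [CommRing A] [Algebra k A] [CommRing T] [Algebra k T]

lemma drs_of {b c : A} (i : A →ₐ[k] T) (x : T) (h : x ^ 2 + i b * x + i c = 0) (a : A) :
    drs i x h (algebraMap A (Dr A b c) a) = i a :=
  AdjoinRoot.lift_of ((eval₂_dpoly b c i.toRingHom x).trans h)

lemma drs_rt {b c : A} (i : A →ₐ[k] T) (x : T) (h : x ^ 2 + i b * x + i c = 0) :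
    drs i x h (rt b c) = x :=
  AdjoinRoot.lift_root ((eval₂_dpoly b c i.toRingHom x).trans h)

lemma dr_ext {b c : A} {α β : Dr A b c →+* T}
    (h1 : ∀ a : A, α (algebraMap A (Dr A b c) a) = β (algebraMap A (Dr A b c) a))
    (h2 : α (rt b c) = β (rt b c)) : α = β := by
  apply AdjoinRoot.ringHom_ext
  · ext a
    exact h1 a
  · exact h2

end

end EE1x

open VRQ _root_.QCV.EE1x in
theorem t_EE1 : S_EE1 := by
  intro k A _ _ _ a ha
  obtain ⟨a0i, h0i⟩ := (ha 0).exists_right_inv
  let I : Ideal (MvPolynomial (Fin 2) A) := Ideal.span {dia a}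
  have hdia : dia a = MvPolynomial.C (a 0) * MvPolynomial.X 0 ^ 2 +
      MvPolynomial.C (a 1) * MvPolynomial.X 1 ^ 2 := by
    simp [dia, Fin.sum_univ_two]
  let mk : MvPolynomial (Fin 2) A →ₐ[k] MvPolynomial (Fin 2) A ⧸ I := Ideal.Quotient.mkₐ k I
  have hmk : Function.Surjective mk := Ideal.Quotient.mkₐ_surjective k I
  have hrel : mk (MvPolynomial.C (a 0)) * mk (MvPolynomial.X 0) ^ 2 +
      mk (MvPolynomial.C (a 1)) * mk (MvPolynomial.X 1) ^ 2 = 0 := by
    rw [← map_pow, ← map_pow, ← map_mul, ← map_mul, ← map_add, ← hdia]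
    exact Ideal.Quotient.eq_zero_iff_mem.mpr (Ideal.subset_span rfl)
  have hinv : mk (MvPolynomial.C (a 0)) * mk (MvPolynomial.C a0i) = 1 := by
    rw [← map_mul, ← map_mul, h0i, map_one, map_one]
  -- the closed part
  let J : Ideal A[X] := Ideal.span {(X : A[X]) ^ 2}
  let mj : A[X] →ₐ[k] A[X] ⧸ J := Ideal.Quotient.mkₐ k J
  have hmj : Function.Surjective mj := Ideal.Quotient.mkₐ_surjective k J
  have hX2 : mj X ^ 2 = 0 := by
    rw [← map_pow]
    exact Ideal.Quotient.eq_zero_iff_mem.mpr (Ideal.subset_span rfl)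
  let z0 : MvPolynomial (Fin 2) A →ₐ[k] A[X] ⧸ J :=
    mvs (mj.comp (CC k A)) ![mj X, 0]
  have hz0C : ∀ r, z0 (MvPolynomial.C r) = mj (C r) := fun r => mvs_C _ _ r
  have hz00 : z0 (MvPolynomial.X 0) = mj X := mvs_X _ _ 0
  have hz01 : z0 (MvPolynomial.X 1) = 0 := mvs_X _ _ 1
  have hz0I : ∀ x ∈ I, z0 x = 0 := by
    intro x hx
    obtain ⟨c, rfl⟩ := Ideal.mem_span_singleton.mp hx
    rw [map_mul, hdia, map_add, map_mul, map_mul, map_pow, map_pow, hz00, hz01, hX2]
    ring
  let z : (MvPolynomial (Fin 2) A ⧸ I) →ₐ[k] (A[X] ⧸ J) := Ideal.Quotient.liftₐ I z0 hz0I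
  have hz : ∀ x, z (mk x) = z0 x := fun x => rfl
  -- the open part
  let t : Dr A 0 (a 0 * a 1) := rt 0 (a 0 * a 1)
  have ht : t ^ 2 + algebraMap A (Dr A 0 (a 0 * a 1)) (a 0 * a 1) = 0 := by
    have h := rt_eq (0 : A) (a 0 * a 1)
    rw [map_zero, zero_mul, add_zero] at h
    exact h
  let aD : A →ₐ[k] Dr A 0 (a 0 * a 1) := drHom 0 (a 0 * a 1) k
  have haD : ∀ r, aD r = algebraMap A (Dr A 0 (a 0 * a 1)) r := fun r => rfl
  let φ0 : MvPolynomial (Fin 2) A →ₐ[k] (Dr A 0 (a 0 * a 1))[X] :=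
    mvs ((CC k (Dr A 0 (a 0 * a 1))).comp aD) ![C (aD a0i * t) * X, X]
  have hφC : ∀ r, φ0 (MvPolynomial.C r) = C (aD r) := fun r => mvs_C _ _ r
  have hφ0 : φ0 (MvPolynomial.X 0) = C (aD a0i * t) * X := mvs_X _ _ 0
  have hφ1 : φ0 (MvPolynomial.X 1) = X := mvs_X _ _ 1
  have haD0 : aD (a 0) * aD a0i = 1 := by rw [← map_mul, h0i, map_one]
  have ht' : t ^ 2 + aD (a 0) * aD (a 1) = 0 := by rw [← map_mul]; exact ht
  have hφI : ∀ x ∈ I, φ0 x = 0 := by
    intro x hx
    obtain ⟨c, rfl⟩ := Ideal.mem_span_singleton.mp hx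
    have h1 : aD (a 0) * (aD a0i * t) ^ 2 + aD (a 1) = 0 := by
      linear_combination (aD a0i) * ht' + (aD a0i * t ^ 2) * haD0 - aD (a 1) * haD0
    have h2 : φ0 (dia a) = C (aD (a 0) * (aD a0i * t) ^ 2 + aD (a 1)) * X ^ 2 := by
      rw [hdia, map_add, map_mul, map_mul, map_pow, map_pow, hφC, hφC, hφ0, hφ1, C_add, C_mul (a := aD (a 0)),
        C_pow]
      ring
    rw [map_mul, h2, h1, C_0, zero_mul, zero_mul]
  let φ : (MvPolynomial (Fin 2) A ⧸ I) →ₐ[k] (Dr A 0 (a 0 * a 1))[X] :=
    Ideal.Quotient.liftₐ I φ0 hφI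
  have hφ : ∀ x, φ (mk x) = φ0 x := fun x => rfl
  let x1 : MvPolynomial (Fin 2) A ⧸ I := mk (MvPolynomial.X 1)
  refine ⟨z, (awayHom k (X : (Dr A 0 (a 0 * a 1))[X])).comp φ, ?_, ?_, ?_⟩
  · -- surjectivity
    intro y
    obtain ⟨p, rfl⟩ := hmj y
    refine ⟨mk (Polynomial.eval₂ MvPolynomial.C (MvPolynomial.X 0) p), ?_⟩
    rw [hz]
    have h1 : ((z0 : MvPolynomial (Fin 2) A →+* A[X] ⧸ J).comp
        (Polynomial.eval₂RingHom MvPolynomial.C (MvPolynomial.X 0))) = (mj : A[X] →+* A[X] ⧸ J) := by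
      apply Polynomial.ringHom_ext
      · intro r
        change z0 (Polynomial.eval₂ MvPolynomial.C (MvPolynomial.X 0) (C r)) = mj (C r)
        rw [Polynomial.eval₂_C, hz0C]
      · change z0 (Polynomial.eval₂ MvPolynomial.C (MvPolynomial.X 0) X) = mj X
        rw [Polynomial.eval₂_X, hz00]
    exact RingHom.congr_fun h1 p
  · -- the kernel
    apply le_antisymm
    · intro x hx
      let K : Ideal (MvPolynomial (Fin 2) A ⧸ I) := Ideal.span {x1}
      let mK : (MvPolynomial (Fin 2) A ⧸ I) →ₐ[k] (MvPolynomial (Fin 2) A ⧸ I) ⧸ K :=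
        Ideal.Quotient.mkₐ k K
      have hK1 : mK x1 = 0 := Ideal.Quotient.eq_zero_iff_mem.mpr (Ideal.subset_span rfl)
      have hK0 : mK (mk (MvPolynomial.X 0)) ^ 2 = 0 := by
        have h1 := congrArg mK hrel
        have h2 := congrArg mK hinv
        rw [map_add, map_mul, map_mul, map_pow, map_pow, hK1, map_zero] at h1
        rw [map_mul, map_one] at h2
        linear_combination (mK (mk (MvPolynomial.C a0i))) * h1 -
          (mK (mk (MvPolynomial.X 0)) ^ 2) * h2
      let j0 : A[X] →+* (MvPolynomial (Fin 2) A ⧸ I) ⧸ K :=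
        Polynomial.eval₂RingHom ((mK.toRingHom.comp mk.toRingHom).comp MvPolynomial.C)
          (mK (mk (MvPolynomial.X 0)))
      have hj0 : ∀ y ∈ J, j0 y = 0 := by
        intro y hy
        obtain ⟨c, rfl⟩ := Ideal.mem_span_singleton.mp hy
        rw [map_mul, map_pow]
        have h1 : j0 X = mK (mk (MvPolynomial.X 0)) := Polynomial.eval₂_X _ _
        rw [h1]
        exact (congrArg (fun y => y * j0 c) hK0).trans (zero_mul (j0 c))
      let j : (A[X] ⧸ J) →+* (MvPolynomial (Fin 2) A ⧸ I) ⧸ K := Ideal.Quotient.lift J j0 hj0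
      have hj : ∀ p, j (mj p) = j0 p := fun p => rfl
      have h1 : j.comp (z.toRingHom.comp mk.toRingHom) = mK.toRingHom.comp mk.toRingHom := by
        apply MvPolynomial.ringHom_ext
        · intro r
          change j (z (mk (MvPolynomial.C r))) = mK (mk (MvPolynomial.C r))
          rw [hz, hz0C, hj]
          exact Polynomial.eval₂_C _ _
        · intro i
          fin_cases i
          · change j (z (mk (MvPolynomial.X 0))) = mK (mk (MvPolynomial.X 0))
            rw [hz, hz00, hj]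
            exact Polynomial.eval₂_X _ _
          · change j (z (mk (MvPolynomial.X 1))) = mK (mk (MvPolynomial.X 1))
            rw [hz, hz01, map_zero]
            exact hK1.symm
      obtain ⟨p, rfl⟩ := hmk x
      have h2 : mK (mk p) = j (z (mk p)) := (RingHom.congr_fun h1 p).symm
      have h3 : z (mk p) = 0 := hx
      rw [h3, map_zero] at h2
      exact Ideal.Quotient.eq_zero_iff_mem.mp h2
    · rw [Ideal.span_singleton_le_iff_mem]
      change z (mk (MvPolynomial.X 1)) = 0
      rw [hz, hz01]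
  · -- the localisation
    let aw : (MvPolynomial (Fin 2) A ⧸ I) →ₐ[k] Localization.Away x1 := awayHom k x1
    have hx1 : IsUnit (aw x1) := IsLocalization.Away.algebraMap_isUnit x1
    obtain ⟨iv, hiv⟩ := hx1.exists_right_inv
    let i0 : A →ₐ[k] Localization.Away x1 := (aw.comp mk).comp (mC k (Fin 2) A)
    have hi0 : ∀ r, i0 r = aw (mk (MvPolynomial.C r)) := fun r => rfl
    have hrel' : i0 (a 0) * aw (mk (MvPolynomial.X 0)) ^ 2 + i0 (a 1) * aw x1 ^ 2 = 0 := by
      have h1 := congrArg aw hrel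
      rw [map_add, map_mul, map_mul, map_pow, map_pow, map_zero] at h1
      exact h1
    have hroot : (i0 (a 0) * aw (mk (MvPolynomial.X 0)) * iv) ^ 2 +
        i0 0 * (i0 (a 0) * aw (mk (MvPolynomial.X 0)) * iv) + i0 (a 0 * a 1) = 0 := by
      rw [map_zero, map_mul]
      have h3 : (aw x1 * iv) ^ 2 = 1 := by rw [hiv, one_pow]
      linear_combination (i0 (a 0) * iv ^ 2) * hrel' - (i0 (a 0) * i0 (a 1)) * h3
    let δ : Dr A 0 (a 0 * a 1) →ₐ[k] Localization.Away x1 :=
      drs i0 (i0 (a 0) * aw (mk (MvPolynomial.X 0)) * iv) hroot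
    have hδo : ∀ r, δ (aD r) = i0 r := fun r => drs_of _ _ _ r
    have hδt : δ t = i0 (a 0) * aw (mk (MvPolynomial.X 0)) * iv := drs_rt _ _ _
    let ψ : (Dr A 0 (a 0 * a 1))[X] →ₐ[k] Localization.Away x1 := evs δ (aw x1)
    have hψC : ∀ d, ψ (C d) = δ d := fun d => evs_C _ _ _
    have hψX : ψ X = aw x1 := evs_X _ _
    refine away_of_psi (k := k) x1 φ X hφ1 ψ ?_ ?_
    · intro x
      obtain ⟨p, rfl⟩ := hmk x
      have h1 : (ψ.comp φ).comp mk = aw.comp mk := by
        apply mv_ext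
        · intro r
          change ψ (φ (mk (MvPolynomial.C r))) = aw (mk (MvPolynomial.C r))
          rw [hφ, hφC, hψC, hδo, hi0]
        · intro i
          fin_cases i
          · change ψ (φ (mk (MvPolynomial.X 0))) = aw (mk (MvPolynomial.X 0))
            rw [hφ, hφ0, map_mul, hψC, map_mul, hδo, hδt, hψX]
            have h4 : i0 (a 0) * i0 a0i = 1 := by rw [← map_mul, h0i, map_one]
            linear_combination (aw (mk (MvPolynomial.X 0)) * (iv * aw x1)) * h4 +
              (aw (mk (MvPolynomial.X 0))) * hiv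
          · change ψ (φ (mk (MvPolynomial.X 1))) = aw (mk (MvPolynomial.X 1))
            rw [hφ, hφ1, hψX]
      exact AlgHom.congr_fun h1 p
    · intro α hα
      have hα1 : α (aw x1) = awayHom k (X : (Dr A 0 (a 0 * a 1))[X]) X := by
        have h1 := hα x1
        have h2 : φ x1 = X := hφ1
        rw [h2] at h1
        exact h1
      have hαC : ∀ r, α (i0 r) = awayHom k (X : (Dr A 0 (a 0 * a 1))[X]) (C (aD r)) := by
        intro r
        have h1 := hα (mk (MvPolynomial.C r))
        have h2 : φ (mk (MvPolynomial.C r)) = C (aD r) := hφC r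
        rw [h2] at h1
        exact h1
      have hα0 : α (aw (mk (MvPolynomial.X 0))) =
          awayHom k (X : (Dr A 0 (a 0 * a 1))[X]) (C (aD a0i * t) * X) := by
        have h1 := hα (mk (MvPolynomial.X 0))
        have h2 : φ (mk (MvPolynomial.X 0)) = C (aD a0i * t) * X := hφ0
        rw [h2] at h1
        exact h1
      apply pl_ext
      · intro d
        have h1 : ((α.comp ψ).comp (CC k (Dr A 0 (a 0 * a 1)))).toRingHom =
            ((awayHom k (X : (Dr A 0 (a 0 * a 1))[X])).comp (CC k (Dr A 0 (a 0 * a 1)))).toRingHom := by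
          apply dr_ext
          · intro r
            change α (ψ (C (aD r))) = awayHom k (X : (Dr A 0 (a 0 * a 1))[X]) (C (aD r))
            rw [hψC, hδo, hαC]
          · change α (ψ (C t)) = awayHom k (X : (Dr A 0 (a 0 * a 1))[X]) (C t)
            rw [hψC, hδt, map_mul, map_mul, hαC, hα0]
            have h2 : awayHom k (X : (Dr A 0 (a 0 * a 1))[X]) X * α iv = 1 := by
              rw [← hα1, ← map_mul, hiv, map_one]
            have h3 : awayHom k (X : (Dr A 0 (a 0 * a 1))[X]) (C (aD (a 0))) *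
                awayHom k (X : (Dr A 0 (a 0 * a 1))[X]) (C (aD a0i)) = 1 := by
              rw [← map_mul, ← C_mul, haD0, C_1, map_one]
            rw [map_mul, C_mul, map_mul]
            linear_combination (awayHom k (X : (Dr A 0 (a 0 * a 1))[X]) (C t) *
              (awayHom k (X : (Dr A 0 (a 0 * a 1))[X]) X * α iv)) * h3 +
              (awayHom k (X : (Dr A 0 (a 0 * a 1))[X]) (C t)) * h2
        exact RingHom.congr_fun h1 d
      · change α (ψ X) = awayHom k (X : (Dr A 0 (a 0 * a 1))[X]) X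
        rw [hψX, hα1]

end QCV


end
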