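import Mathlib
import Pool.Agent.QVM.C21
import Pool.Agent.QVM.C22
import Pool.Agent.QVM.C28
import Pool.Agent.QVM.C31
import Pool.Agent.QVM.C34
import Pool.Agent.QVM.C38
import Pool.Agent.QVM.C45
import Pool.Agent.QVM.C46
import Pool.Agent.QVM.C47
import Pool.Agent.QVM.C51
import Pool.Agent.QVM.C53
import Pool.Agent.QVM.C55
import Pool.Agent.QVM.C56
import Pool.Agent.QVM.C57
import Pool.Agent.QVM.C59
import Pool.Agent.QVM.C64

/-! Parts: QCV.D_DGM, QCV.D_DDS, QCV.D_DFE, QCV.D_ASM0, QCV.D_ASM, QCV.Cls4 -/

section

/-!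
# QCV, block D: dimension of `A` from that of `A[X, 1 / X]`
-/

set_option autoImplicit false

open CategoryTheory AlgebraicGeometry Polynomial

namespace QCV

open CUB

lemma X_notMem_pX {A : Type} [CommRing A] (p : PrimeSpectrum A) : (X : A[X]) ∉ (pX p).asIdeal := by
  intro h
  change (X : A[X]) ∈ p.asIdeal.map (C : A →+* A[X]) at h
  rw [Ideal.mem_map_C_iff] at h
  have h1 := h 1
  rw [coeff_X_one] at h1
  exact p.2.ne_top ((Ideal.eq_top_iff_one _).mpr h1)

/-- DGM. -/
theorem t_DGM : S_DGM := by
  intro k A _ _ _ _ d h p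
  have hu := isLocalization_awayHom (k := k) (X : A[X])
  have hr := range_spm_away (awayHom k (X : A[X])) X hu
  have hm : pX p ∈ Set.range (PrimeSpectrum.comap (awayHom k (X : A[X])).toRingHom) := by
    rw [hr]
    exact X_notMem_pX p
  obtain ⟨P, hP⟩ := hm
  have h1 : rdim k (pX p) ≤ ((d + 1 : ℕ) : Cardinal) := by
    rw [← hP, rdim_comap_opn (awayHom k (X : A[X])) (isOpenImmersion_spm _ _ hu) P]
    exact h P
  rw [rdim_pX] at h1
  obtain ⟨n, hn⟩ := exists_rdim (k := k) p
  rw [hn] at h1 ⊢
  have h2 : n + 1 ≤ d + 1 := by exact_mod_cast h1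
  exact_mod_cast (by omega : n ≤ d)

end QCV


end

section

/-!
# QCV, module DDS: etale descent
-/

set_option autoImplicit false

open CategoryTheory AlgebraicGeometry Polynomial

namespace QCV

open CUB

theorem t_DDS : M_DDS := by
  intro hE hC k K _ _ _ _ _ d n F hF hB
  obtain ⟨i1, h1, h2, h3, h4⟩ := hC k K n F
  obtain ⟨g⟩ := hE k (MvPolynomial (Fin n) k ⧸ Ideal.span (Set.range fun _ : Fin 1 => F))
    (MvPolynomial (Fin n) K ⧸
        Ideal.span (Set.range fun _ : Fin 1 => MvPolynomial.map (algebraMap k K) F)) h4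
  refine Built.etale g ?_ hB
  have hp : (Ideal.span (Set.range fun _ : Fin 1 => F)).IsPrime := by
    rw [Set.range_const, Ideal.span_singleton_prime hF.ne_zero]
    exact hF.prime
  have hd : IsDomain (MvPolynomial (Fin n) k ⧸ Ideal.span (Set.range fun _ : Fin 1 => F)) :=
    (Ideal.Quotient.isDomain_iff_prime _).2 hp
  change IsIntegral (Spec (CommRingCat.of (MvPolynomial (Fin n) k ⧸
    Ideal.span (Set.range fun _ : Fin 1 => F))))
  have : IsDomain ↑(CommRingCat.of (MvPolynomial (Fin n) k ⧸
    Ideal.span (Set.range fun _ : Fin 1 => F))) := hd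
  infer_instance

end QCV


end

section

/-!
# Module DFE: finite etale homomorphisms
-/

set_option autoImplicit false

open CategoryTheory AlgebraicGeometry Polynomial

namespace QCV

open CUB

theorem t_DFE : S_DFE := by
  intro k A B _ _ _ _ _ _ _ _ _ _ _ hinj
  refine ⟨⟨spm (IsScalarTower.toAlgHom k A B), spm_comm _, ?_, ?_, ?_⟩⟩
  · change IsFinite (Spec.map (CommRingCat.ofHom (IsScalarTower.toAlgHom k A B).toRingHom))
    rw [IsFinite.SpecMap_iff]
    change (algebraMap A B).Finite
    exact RingHom.finite_algebraMap.2 inferInstance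
  · change Etale (Spec.map (CommRingCat.ofHom (IsScalarTower.toAlgHom k A B).toRingHom))
    rw [HasRingHomProperty.Spec_iff (P := @Etale)]
    change (algebraMap A B).Etale
    exact RingHom.etale_algebraMap.2 inferInstance
  · refine ⟨?_⟩
    change Function.Surjective (PrimeSpectrum.comap (algebraMap A B))
    exact (algebraMap_isIntegral_iff.2 inferInstance).comap_surjective hinj

end QCV


end

section

/-!
# QCV, block D: assembly, part 1
-/

set_option autoImplicit false

namespace QCV

namespace Asm

theorem s_DSG : S_DSG := t_DSG t_DAU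

theorem s_DNR : S_DNR := t_DNR t_DAU t_DCG

theorem s_DDT : S_DDT := t_DDT t_DEX

theorem s_DLN : S_DLN := t_DLN (t_DDF t_DFX) t_DVL t_DTR

theorem s_DCN : S_DCN := t_DCN t_HCH s_HDE t_DGM

theorem s_DSL : S_DSL := t_DSL s_DCN t_DCP

theorem s_DSI : S_DSI := t_DSI s_DSL t_DRC t_DFC

theorem s_DRK : S_DRK := t_DRK t_DEX t_DHM

theorem s_DDS : S_DDS := t_DDS t_DFE t_DBC

end Asm

end QCV


end

section

/-!
# QCV, block D: assembly, part 2: cubic hypersurfaces
-/

set_option autoImplicit false

open CategoryTheory AlgebraicGeometry Polynomial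

namespace QCV

open Pool.Agent.Lib_helper55.Beil CUB

namespace Asm

theorem s_DCX : S_DCX := t_DCX s_CUB s_DCN s_DSI t_DCO s_DLN s_DNR s_DSG s_DDT s_DRK

end Asm

variable {k : Type} [Field k]

/-- The affine cone defined by a cubic form in `n` variables, `n ≤ d + 4`. -/
theorem built_cubic_cone [PerfectField k] (h2 : (2 : k) ≠ 0) {n d : ℕ} (hd : 1 ≤ d)
    (hn : n ≤ d + 4) (F : MvPolynomial (Fin n) k) (hF : F.IsHomogeneous 3) :
    Built k d (aff k (MvPolynomial (Fin n) k ⧸ Ideal.span (Set.range fun _ : Fin 1 => F))) :=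
  built_cubic_cone_of t_DFC t_DRC Asm.s_DCX Asm.s_DDS h2 hd hn F hF

/-- Projective cubic hypersurfaces of dimension at most `d + 2`. -/
theorem built_cubic_proj [PerfectField k] (h2 : (2 : k) ≠ 0) {n d : ℕ} (hd : 1 ≤ d)
    (hn : n ≤ d + 3) (F : MvPolynomial (Fin (n + 1)) k) (hF : F.IsHomogeneous 3) {X : Var k}
    (S : ProjSub (fun _ : Fin 1 => F) X) : Built k d X :=
  built_cubic_proj_of t_DFC t_DRC Asm.s_DCX Asm.s_DDS h2 hd hn F hF S

/-- Affine hypersurfaces of degree at most three in `n` variables, `n ≤ d + 3`. -/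
theorem built_cubic_affine [PerfectField k] (h2 : (2 : k) ≠ 0) {n d : ℕ} (hd : 1 ≤ d)
    (hn : n ≤ d + 3) (f : MvPolynomial (Fin n) k) (hf : f.totalDegree ≤ 3) :
    Built k d (aff k (MvPolynomial (Fin n) k ⧸ Ideal.span (Set.range fun _ : Fin 1 => f))) :=
  built_cubic_affine_of t_DFC t_DRC Asm.s_DCX Asm.s_DDS t_DHG h2 hd hn f hf

end QCV


end

section

/-!
# QCV: the class `Member`
-/

set_option autoImplicit false

open CategoryTheory AlgebraicGeometry Limits Polynomial TopologicalSpace

namespace QCV

open Pool.Agent.Lib_helper55.Beil Pool.Agent.Lib_helper66.OneP CUB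

universe v

variable {k : Type} [Field k] {E : Type} [Field E]

/-- The class `Built` is contained in the class `Member`. -/
theorem member_of_built {d : ℕ} {X : Var k} (h : Built k d X) : Member k d X := by
  induction h with
  | small X hX => exact Member.small X hX
  | iso s _ ih => exact Member.iso s ih
  | nil a hs _ ih => exact Member.nil a hs ih
  | paste a j hc _ _ ihZ ihU => exact Member.paste a j hc ihZ ihU
  | cut a j hc _ _ ihX ihZ => exact Member.cut a j hc ihX ihZ
  | line A _ ih => exact Member.line A ih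
  | unline L _ ih => exact Member.unline L ih
  | cover A b c _ ih => exact Member.cover A b c ih
  | etale f hint _ ih => exact Member.etale f hint ih
  | bundle B s j hs hc _ ih => exact Member.bundle B s j hs hc ih
  | odd A m a ha _ ih => exact Member.odd A m a ha ih
  | zeros A m f _ ih => exact Member.zeros A m f ih

lemma member_of_isEmpty {X : Var k} (h : IsEmpty X.X) (d : ℕ) : Member k d X :=
  Member.small X (fun x => (h.false x).elim)

lemma member_of_red {X : Var k} {d : ℕ} (h : Member k d (redVar X)) : Member k d X :=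
  Member.paste (redVarIn X) (openVarIn X ⊥) (complementary_red X) h
    (member_of_isEmpty (isEmpty_openVar_bot X) d)

/-- The class is determined by the closed subset of an ambient variety. -/
theorem member_same_range {X Y W : Var k} {d : ℕ} (a : ClosedIn X W) (b : ClosedIn Y W)
    (h : Set.range a.g = Set.range b.g) (hX : Member k d X) : Member k d Y := by
  have hred := isReduced_redVar Y
  obtain ⟨l, hl⟩ := exists_factor_range a ((redVarIn Y).trans b) (by
    rintro _ ⟨y, rfl⟩
    rw [h]
    exact ⟨(redVarIn Y).g y, rfl⟩)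
  apply member_of_red
  refine Member.nil l ?_ hX
  intro x
  have h1 : a.g x ∈ Set.range b.g := by
    rw [← h]
    exact ⟨x, rfl⟩
  obtain ⟨y, hy⟩ := h1
  obtain ⟨y', hy'⟩ : y ∈ Set.range (redVarIn Y).g := by
    rw [range_redVarIn]
    trivial
  refine ⟨y', ?_⟩
  apply closedIn_injective a
  rw [← hy, ← hy', ← Scheme.Hom.comp_apply, hl]
  rfl

lemma cls_member (k : Type) [Field k] (d : ℕ) :
    Cls k d (fun A [CommRing A] [Algebra k A] [Algebra.FiniteType k A] => Member k d (aff k A)) where
  iso := fun e h => Member.iso (viso e.symm) h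
  triv := fun A _ _ _ h => member_of_isEmpty (isEmpty_aff A h) d
  glue := fun a z u s hZ hU => Member.paste _ _
    (complementary_away u a s.away z s.surj s.ker) hZ hU
  opn := fun a z u s hA hZ => Member.cut _ _
    (complementary_away u a s.away z s.surj s.ker) hA hZ
  line := fun A _ _ _ h => Member.line A h
  dbl := fun A _ _ _ b c h => Member.cover A b c h
  base := fun A _ _ _ h => Member.small _ (dimLE_of_DL h)

lemma oddCl_member (k : Type) [Field k] (d : ℕ) :
    OddCl k (fun A [CommRing A] [Algebra k A] [Algebra.FiniteType k A] => Member k d (aff k A)) :=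
  fun A _ _ _ m a ha h => Member.odd A m a ha h

lemma evenCl_member (k : Type) [Field k] (d : ℕ) (h2 : (2 : k) ≠ 0) :
    EvenCl k (fun A [CommRing A] [Algebra k A] [Algebra.FiniteType k A] => Member k d (aff k A)) :=
  fun A _ _ _ m a ha h => Member.even A m a h2 ha h

/-- If the affine cone over the projective variety `X` over `R` and `Spec R` belong to the class,
then `X` belongs to the class. -/
theorem member_of_cone {R ι : Type} [CommRing R] [Algebra k R] [Algebra.FiniteType k R] {n d : ℕ}
    (hR : Member k d (aff k R)) (f : ι → MvPolynomial (Fin (n + 1)) R) (m : ι → ℕ)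
    (hf : ∀ j, (f j).IsHomogeneous (m j)) (hm : ∀ j, 1 ≤ m j)
    (h : Member k d (aff k (MvPolynomial (Fin (n + 1)) R ⧸ Ideal.span (Set.range f))))
    {X : Var k} (S : ProjSub f X) : Member k d X :=
  Asm.s_BCO k (Member k d) (fun a j hc hX hZ => Member.cut a j hc hX hZ)
    (fun a b hab hX => member_same_range a b hab hX)
    (fun B s j hs hc hU => Member.bundle B s j hs hc hU) R ι n f m hf hm hR h X S

/-! ## Quadratic forms over integral bases of the class -/

/-- The zero set of a quadratic form of odd generic rank over an integral affine member. -/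
theorem member_odd_base {A : Type} [CommRing A] [IsDomain A] [Algebra k A] [Algebra.FiniteType k A]
    {n d : ℕ} (h2 : (2 : k) ≠ 0) (hA : (aff k A).DimLE (d + 1 : ℕ)) (hb : Member k d (aff k A))
    (f : MvPolynomial (Fin n) A) (hf : f.IsHomogeneous 2)
    (ho : Odd ((gram f).map (algebraMap A (FractionRing A))).rank) :
    Member k d (aff k (MvPolynomial (Fin n) A ⧸ Ideal.span (Set.range fun _ : Fin 1 => f))) :=
  Asm.s_QOD k (fun A [CommRing A] [Algebra k A] [Algebra.FiniteType k A] =>
    Member k d (aff k A)) d h2 (cls_member k d) (oddCl_member k d) A n f ((dimLE_aff _).1 hA) hb hf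
    ho

/-- The projective version. -/
theorem member_odd_base_proj {A : Type} [CommRing A] [IsDomain A] [Algebra k A]
    [Algebra.FiniteType k A] {n d : ℕ} (h2 : (2 : k) ≠ 0) (hA : (aff k A).DimLE (d + 1 : ℕ))
    (hb : Member k d (aff k A)) (f : MvPolynomial (Fin (n + 1)) A) (hf : f.IsHomogeneous 2)
    (ho : Odd ((gram f).map (algebraMap A (FractionRing A))).rank) {X : Var k}
    (S : ProjSub (fun _ : Fin 1 => f) X) : Member k d X :=
  member_of_cone hb (fun _ : Fin 1 => f) (fun _ => 2) (fun _ => hf) (fun _ => by norm_num)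
    (member_odd_base h2 hA hb f hf ho) S

/-- The zero set of a nondegenerate quadratic form in an even number of variables over an integral
affine variety of dimension at most `d + 1`, if the discriminant double cover is a member. -/
theorem member_even_base_of (hEOD : S_EOD) {A : Type} [CommRing A] [IsDomain A] [Algebra k A]
    [Algebra.FiniteType k A] {m d : ℕ} (h2 : (2 : k) ≠ 0) (hA : (aff k A).DimLE (d + 1 : ℕ))
    (f : MvPolynomial (Fin (2 * m)) A) (hf : f.IsHomogeneous 2) (hg : (gram f).det ≠ 0)
    (hD : Member k d (aff k (Dr A 0 ((-1) ^ (m + 1) * (gram f).det)))) :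
    Member k d (aff k (MvPolynomial (Fin (2 * m)) A ⧸ Ideal.span (Set.range fun _ : Fin 1 => f))) :=
  hEOD k (fun A [CommRing A] [Algebra k A] [Algebra.FiniteType k A] => Member k d (aff k A)) d h2
    (cls_member k d) (evenCl_member k d h2) A m f ((dimLE_aff _).1 hA) (Member.cover A _ _ hD) hf hg
    hD

/-- Systems of `q + 1` quadratic forms in an even number of variables with nondegenerate generic
member, over an integral base of dimension at most `e`, `q + e ≤ d + 1`, if the discriminant double
cover of the affine space over the base is a member. -/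
theorem member_even_of (hEVS : S_EVS) {R : Type} [CommRing R] [IsDomain R] [Algebra k R]
    [Algebra.FiniteType k R] {m q e d : ℕ} (h2 : (2 : k) ≠ 0) (hed : e ≤ d) (hq : q + e ≤ d + 1)
    (hR : (aff k R).DimLE e) (f : Fin (q + 1) → MvPolynomial (Fin (2 * m)) R)
    (hf : ∀ j, (f j).IsHomogeneous 2) (hg : (gram (gen f)).det ≠ 0)
    (hD : Member k d (aff k (Dr (MvPolynomial (Fin q) R) 0
      ((-1) ^ (m + 1) * (gram (gen f)).det)))) :
    Member k d (aff k (MvPolynomial (Fin (2 * m)) R ⧸ Ideal.span (Set.range f))) :=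
  Member.zeros _ q f (hEVS k (fun A [CommRing A] [Algebra k A] [Algebra.FiniteType k A] =>
    Member k d (aff k A)) d h2 (cls_member k d) (evenCl_member k d h2) R m q e f hed hq
    ((dimLE_aff e).1 hR) hf hg hD)

/-! ## The property `PP` holds on the class -/

/-- The statement for quadric cones in an even number of variables. -/
def PpfEven (T : ∀ i : ℕ, Homology.{v} k E i) : Prop :=
  (2 : k) ≠ 0 →
    EvenCl k (fun A [CommRing A] [Algebra k A] [Algebra.FiniteType k A] => PPF T (aff k A))

theorem ppf_of_member [Finite k] [CharZero E] {T : ∀ i : ℕ, Homology.{v} k E i} (hT : Full T)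
    (hP : Pub T hT) (hS : SectionZero T) (hE : PfEt T) (hO : PpfOdd T) (hV : PpfEven T)
    (hL : PpfBun T) (d : ℕ) (hB : ∀ X : Var k, X.DimLE d → PP T X) (X : Var k)
    (h : Member k d X) : PPF T X := by
  induction h with
  | small X hX => exact (pp_iff hT.toExtra _).mp (hB X hX)
  | iso s _ ih => exact fun i => pf_viso hT hP i s (ih i)
  | nil a hs _ ih => exact fun i => pf_nil hT i a hs (ih i)
  | paste a j hc _ _ ihZ ihU => exact fun i => pf_glue hT hP i a j hc (ihZ i) (ihU i)
  | cut a j hc _ _ ihX ihZ =>
    intro i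
    rcases i with _ | i
    · exact pf_zero hT hP _
    · exact pf_open hT hP i a j hc (ihX _) (ihZ _)
  | line A _ ih => exact ppf_line hT hP A ih
  | unline L _ ih => exact fun i => pf_line_desc hT hP hS i L (ih (i + 1))
  | cover A b c _ ih => exact fun i => pf_dbl hT hP i A b c (ih i)
  | etale f hint _ ih => exact fun i => hE i f hint (ih i)
  | bundle B s j hs hc _ ih => exact hL B s j hs hc ih
  | odd A m a ha _ ih => exact hO A m a ha ih
  | even A m a h2 ha _ ih => exact hV h2 A m a ha ih
  | zeros A m f _ ih =>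
    intro i
    exact (pi_iff hT.toExtra i _).mp (red3 hT hP hS i m f (Ideal.Quotient.mkₐ k _)
      (Ideal.Quotient.mkₐ_surjective k _) Ideal.mk_ker ((pi_iff hT.toExtra _ _).mpr (ih _)))

/-- The conjecture holds on the class if the property holds in dimension at most `d`. -/
theorem q1_of_member [Finite k] [CharZero E] {T : ∀ i : ℕ, Homology.{v} k E i} (hT : Full T)
    (hP : Pub T hT) (hS : SectionZero T) (hE : PfEt T) (hO : PpfOdd T) (hV : PpfEven T)
    (hL : PpfBun T) (d : ℕ) (hB : ∀ X : Var k, X.DimLE d → PP T X) (X : Var k)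
    (hX : Member k d X) (i : ℕ) : Q1 (T i) X :=
  Q1_of_PI _ _
    ((pp_iff hT.toExtra X).mpr (ppf_of_member hT hP hS hE hO hV hL d hB X hX) i)

end QCV


end
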