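import Mathlib
import Pool.Agent.QVM.C21
import Pool.Agent.QVM.C26
import Pool.Agent.QVM.C47
import Pool.Agent.QVM.C51
import Pool.Agent.QVM.C52
import Pool.Agent.QVM.C60
import Pool.Agent.QVM.C61
import Pool.Agent.QVM.C62
import Pool.Agent.QVM.C63
import Pool.Agent.QVM.C64
import Pool.Agent.QVM.C65
import Pool.Agent.QVM.C66

/-! Parts: QCV.U_UHI, QCV.U_FIN, QCV.Fin8, QCV.Fin9, QCV.Final, QCV.Fin10 -/

section

/-!
# QCV, block U: UHI
-/

set_option autoImplicit false

open CategoryTheory AlgebraicGeometry Polynomial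

namespace QCV

open Pool.Agent.Lib_helper55.Beil Pool.Agent.Lib_helper66.OneP CUB

namespace UHI_aux

noncomputable section

variable (B : Type) [CommRing B] (n s : ℕ)

/-- the images of the variables -/
def vv (i : Fin (n + 2 * (s + 1))) : (MvPolynomial (Fin (n + 2 * s)) B)[X][X] :=
  if h : i.1 < n + 2 * s then C (C (MvPolynomial.X ⟨i.1, h⟩))
  else if i.1 = n + 2 * s then C X else X

/-- the map -/
def F : MvPolynomial (Fin (n + 2 * (s + 1))) B →ₐ[B] (MvPolynomial (Fin (n + 2 * s)) B)[X][X] :=
  MvPolynomial.aeval (vv B n s)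

/-- the first step of the inverse map -/
def G1 : MvPolynomial (Fin (n + 2 * s)) B →ₐ[B] MvPolynomial (Fin (n + 2 * (s + 1))) B :=
  MvPolynomial.rename (Fin.castLE (by omega))

/-- the second step of the inverse map -/
def G2 : (MvPolynomial (Fin (n + 2 * s)) B)[X] →ₐ[B] MvPolynomial (Fin (n + 2 * (s + 1))) B :=
  Polynomial.eval₂AlgHom (G1 B n s) (MvPolynomial.X ⟨n + 2 * s, by omega⟩) (fun _ => Commute.all _ _)

/-- the inverse map -/
def G3 : (MvPolynomial (Fin (n + 2 * s)) B)[X][X] →ₐ[B] MvPolynomial (Fin (n + 2 * (s + 1))) B :=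
  Polynomial.eval₂AlgHom (G2 B n s) (MvPolynomial.X ⟨n + 2 * s + 1, by omega⟩)
    (fun _ => Commute.all _ _)

theorem G3_X : G3 B n s X = MvPolynomial.X ⟨n + 2 * s + 1, by omega⟩ := by
  simp [G3]

theorem G3_C (a : (MvPolynomial (Fin (n + 2 * s)) B)[X]) : G3 B n s (C a) = G2 B n s a := by
  simp [G3]

theorem G2_X : G2 B n s X = MvPolynomial.X ⟨n + 2 * s, by omega⟩ := by
  simp [G2]

theorem G2_C (a : MvPolynomial (Fin (n + 2 * s)) B) : G2 B n s (C a) = G1 B n s a := by
  simp [G2]

theorem F_X (i : Fin (n + 2 * (s + 1))) : F B n s (MvPolynomial.X i) = vv B n s i := by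
  simp [F]

theorem vv_lt (i : Fin (n + 2 * (s + 1))) (h : i.1 < n + 2 * s) :
    vv B n s i = C (C (MvPolynomial.X ⟨i.1, h⟩)) := by
  simp [vv, h]

theorem vv_eq (i : Fin (n + 2 * (s + 1))) (h : i.1 = n + 2 * s) : vv B n s i = C X := by
  simp [vv, h]

theorem vv_gt (i : Fin (n + 2 * (s + 1))) (h : i.1 = n + 2 * s + 1) : vv B n s i = X := by
  simp [vv, h]

theorem FG : (F B n s).comp (G3 B n s) = AlgHom.id B _ := by
  apply Polynomial.algHom_ext'
  · apply Polynomial.algHom_ext'
    · apply MvPolynomial.algHom_ext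
      intro i
      change F B n s (G3 B n s (C (C (MvPolynomial.X i)))) = C (C (MvPolynomial.X i))
      rw [G3_C, G2_C]
      change F B n s (MvPolynomial.rename _ (MvPolynomial.X i)) = _
      rw [MvPolynomial.rename_X, F_X, vv_lt B n s _ i.2]
      rfl
    · change F B n s (G3 B n s (C X)) = C X
      rw [G3_C, G2_X, F_X, vv_eq B n s _ rfl]
  · change F B n s (G3 B n s X) = X
    rw [G3_X, F_X, vv_gt B n s _ rfl]

theorem GF : (G3 B n s).comp (F B n s) = AlgHom.id B _ := by
  apply MvPolynomial.algHom_ext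
  intro i
  change G3 B n s (F B n s (MvPolynomial.X i)) = MvPolynomial.X i
  rw [F_X]
  rcases lt_trichotomy i.1 (n + 2 * s) with h | h | h
  · rw [vv_lt B n s i h, G3_C, G2_C]
    change MvPolynomial.rename _ (MvPolynomial.X _) = _
    rw [MvPolynomial.rename_X]
    rfl
  · rw [vv_eq B n s i h, G3_C, G2_X]
    congr 1
    exact Fin.ext h.symm
  · have h2 : i.1 = n + 2 * s + 1 := by
      have := i.2
      omega
    rw [vv_gt B n s i h2, G3_X]
    congr 1
    exact Fin.ext h2.symm

/-- the isomorphism -/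
def E : MvPolynomial (Fin (n + 2 * (s + 1))) B ≃ₐ[B] (MvPolynomial (Fin (n + 2 * s)) B)[X][X] :=
  AlgEquiv.ofAlgHom (F B n s) (G3 B n s) (FG B n s) (GF B n s)

theorem F_hyp (φ : MvPolynomial (Fin n) B) :
    F B n s (hyp φ (s + 1)) = C X * X + C (C (hyp φ s)) := by
  unfold hyp
  rw [map_add, map_sum, Fin.sum_univ_castSucc]
  have h1 : F B n s (MvPolynomial.rename (Fin.castAdd (2 * (s + 1))) φ) =
      C (C (MvPolynomial.rename (Fin.castAdd (2 * s)) φ)) := by
    have h2 : (F B n s).comp (MvPolynomial.rename (Fin.castAdd (2 * (s + 1)))) =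
        ((Polynomial.CAlgHom (R := B) (A := (MvPolynomial (Fin (n + 2 * s)) B)[X])).comp
          (Polynomial.CAlgHom (R := B) (A := MvPolynomial (Fin (n + 2 * s)) B))).comp
          (MvPolynomial.rename (R := B) (Fin.castAdd (2 * s))) := by
      apply MvPolynomial.algHom_ext
      intro i
      change F B n s (MvPolynomial.rename _ (MvPolynomial.X i)) =
        C (C (MvPolynomial.rename _ (MvPolynomial.X i)))
      rw [MvPolynomial.rename_X, MvPolynomial.rename_X, F_X,
        vv_lt B n s _ (by simp only [Fin.val_castAdd]; have := i.2; omega)]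
      rfl
    exact congrArg (fun f : MvPolynomial (Fin n) B →ₐ[B] _ => f φ) h2
  have h3 : ∀ i : Fin s, F B n s (MvPolynomial.X ⟨n + 2 * (Fin.castSucc i).1, by
      have := (Fin.castSucc i).2; omega⟩ *
      MvPolynomial.X ⟨n + 2 * (Fin.castSucc i).1 + 1, by have := (Fin.castSucc i).2; omega⟩) =
      C (C (MvPolynomial.X ⟨n + 2 * i.1, by omega⟩ * MvPolynomial.X ⟨n + 2 * i.1 + 1, by omega⟩)) := by
    intro i
    rw [map_mul, F_X, F_X, vv_lt B n s _ (by simp only [Fin.val_castSucc]; have := i.2; omega),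
      vv_lt B n s _ (by simp only [Fin.val_castSucc]; have := i.2; omega), ← C_mul, ← C_mul]
    rfl
  have h4 : F B n s (MvPolynomial.X ⟨n + 2 * (Fin.last s).1, by
      have := (Fin.last s).2; omega⟩ *
      MvPolynomial.X ⟨n + 2 * (Fin.last s).1 + 1, by have := (Fin.last s).2; omega⟩) = C X * X := by
    rw [map_mul, F_X, F_X, vv_eq B n s _ rfl, vv_gt B n s _ rfl]
  rw [h1, h4, Finset.sum_congr rfl (fun i _ => h3 i), ← map_sum, ← map_sum, C_add, C_add]
  ring

end

end UHI_aux

open _root_.QCV.UHI_aux in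
/-- **UHI** -/
theorem t_UHI : S_UHI := by
  intro k B _ _ _ n s φ
  refine ⟨Ideal.quotientEquivAlg _ _ ((E B n s).restrictScalars k) ?_⟩
  rw [Ideal.map_span]
  congr 1
  rw [Set.range_const, Set.image_singleton]
  congr 1
  exact (F_hyp B n s φ).symm

end QCV


end

section

/-!
# QCV: universality of systems of quadratic forms in an odd number of variables
-/

set_option autoImplicit false

open CategoryTheory AlgebraicGeometry Limits Polynomial TopologicalSpace

namespace QCV

open Pool.Agent.Lib_helper55.Beil Pool.Agent.Lib_helper66.OneP CUB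

universe v

namespace Asm

theorem s_ULZ : S_ULZ := t_ULZ t_ULC t_ULS

theorem s_UHY : S_UHY.{v} := t_UHY t_TCL t_UHI

theorem s_UNO : S_UNO.{v} := t_UNO t_UHA t_UAF

end Asm

variable {k : Type} [Field k] {E : Type} [Field E] {T : ∀ i : ℕ, Homology.{v} k E i} {hT : Full T}

/-- The conjecture of Tate in dimension at most `d` implies the conjecture of Tate on the class. -/
theorem gg_of_built [Finite k] [CharZero E] (hP : Pub2 T hT) (d : ℕ)
    (hB : ∀ X : Var k, X.DimLE d → GG T X) (X : Var k) (h : Built k d X) : GG T X :=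
  gg_of_built_of t_TZE t_TOD t_TBU hP d hB X h

/-- Universality. -/
theorem universal [Finite k] [CharZero E] (hP : Pub2 T hT) (h2 : (2 : k) ≠ 0) (d : ℕ)
    (ho : OddTate T (d + 1)) : ∀ X : Var k, X.DimLE d → GG T X :=
  universal_of Asm.s_ULZ t_UGM t_UDT t_USB t_UST Asm.s_UHY t_UGA Asm.s_UNO t_UPD t_TGM t_TZE t_TOD
    t_TBU hP h2 d ho

end QCV


end

section

/-!
# QCV: the equivalence theorems
-/

set_option autoImplicit false

open CategoryTheory AlgebraicGeometry Limits Polynomial TopologicalSpace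

namespace QCV

open Pool.Agent.Lib_helper55.Beil Pool.Agent.Lib_helper66.OneP CUB

universe v

variable {k : Type} [Field k] {E : Type} [Field E]

/-- The affine variety `f_0 = ... = f_q = 0` over `k`. -/
noncomputable abbrev zer {n q : ℕ} (f : Fin (q + 1) → MvPolynomial (Fin n) k) : Var k :=
  aff k (MvPolynomial (Fin n) k ⧸ Ideal.span (Set.range f))

/-- The property `P` holds for the zero sets of `q + 1` quadratic forms in an odd number of variables
over `k` whose generic linear combination is nondegenerate. -/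
def OddSystems (P : Var k → Prop) (q : ℕ) : Prop :=
  ∀ (n : ℕ) (f : Fin (q + 1) → MvPolynomial (Fin n) k), Odd n → (∀ j, (f j).IsHomogeneous 2) →
    (gram (gen f)).det ≠ 0 → P (zer f)

/-- The property `P` holds for the zero sets of `q + 1` quadratic forms in an even number of variables
over `k` whose generic linear combination is nondegenerate. -/
def EvenSystems (P : Var k → Prop) (q : ℕ) : Prop :=
  ∀ (n : ℕ) (f : Fin (q + 1) → MvPolynomial (Fin n) k), Even n → (∀ j, (f j).IsHomogeneous 2) →
    (gram (gen f)).det ≠ 0 → P (zer f)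

/-- The property `P` holds for the double covers `t ^ 2 = g(x_1, ..., x_m)` of the affine space. -/
def DoubleCovers (P : Var k → Prop) (m : ℕ) : Prop :=
  ∀ g : MvPolynomial (Fin m) k, P (aff k (Dr (MvPolynomial (Fin m) k) 0 (-g)))

variable {T : ∀ i : ℕ, Homology.{v} k E i} {hT : Full T}

lemma tate_iff (P : Var k → Prop) :
    (∀ X, P X → Tate T X) ↔ ∀ X, P X → GG T X :=
  forall_congr' fun X => forall_congr' fun _ => (gg_iff X).symm

lemma oddTate_of (q : ℕ) (h : OddSystems (Tate T) q) : OddTate T q :=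
  fun s f hf hd => (gg_iff _).mpr (h (1 + 2 * s) f ⟨s, by ring⟩ hf hd)

/-- Systems of `d + 2` quadratic forms in an odd number of variables belong to the class. -/
lemma member_oddSystems (h2 : (2 : k) ≠ 0) (d : ℕ) : OddSystems (Member k d) (d + 1) := by
  intro n f hn hf hd
  refine member_of_built (built_odd h2 (Nat.zero_le d) (by omega) (dimLE_of_DL (dl_field k)) f hf ?_)
  obtain ⟨s, rfl⟩ := hn
  intro p _
  have hinj : Function.Injective (genHom (d + 1) p) := by
    have h1 : Function.Injective (Ideal.Quotient.mk p.asIdeal) := by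
      rw [RingHom.injective_iff_ker_eq_bot, Ideal.mk_ker]
      exact (Ideal.eq_bot_or_top p.asIdeal).resolve_right p.isPrime.ne_top
    have h5 : Function.Injective (algebraMap (MvPolynomial (Fin (d + 1)) (k ⧸ p.asIdeal))
        (FractionRing (MvPolynomial (Fin (d + 1)) (k ⧸ p.asIdeal)))) := IsFractionRing.injective _ _
    exact h5.comp (MvPolynomial.map_injective _ h1)
  have h3 : ((gram (gen f)).map (genHom (d + 1) p)).det ≠ 0 := by
    have h4 : ((gram (gen f)).map (genHom (d + 1) p)).det = genHom (d + 1) p (gram (gen f)).det :=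
      (RingHom.map_det _ _).symm
    rw [h4]
    exact (map_ne_zero_iff _ hinj).mpr hd
  rw [Matrix.rank_of_isUnit _ ((Matrix.isUnit_iff_isUnit_det _).mpr (isUnit_iff_ne_zero.mpr h3))]
  rw [Fintype.card_fin]
  exact ⟨s, by ring⟩

section

variable [Finite k] [CharZero E]

lemma ggc (hP : Pub2 T hT) : GGC T := t_TGG k E T hT hP.toPub hP.sectionZero hP.etale

/-- The property `GG` on the class `Member`. -/
theorem gg_of_member (hEV : (2 : k) ≠ 0 →
      EvenCl k (fun A [CommRing A] [Algebra k A] [Algebra.FiniteType k A] => GG T (aff k A)))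
    (hP : Pub2 T hT) (d : ℕ) (hB : ∀ X : Var k, X.DimLE d → GG T X) (X : Var k)
    (h : Member k d X) : GG T X := by
  have hG : GGC T := ggc hP
  induction h with
  | small X hX => exact hB X hX
  | iso s _ ih => exact hG.iso s ih
  | nil a hs _ ih => exact hG.nil a hs ih
  | paste a j hc _ _ ihZ ihU => exact hG.glue a j hc ihZ ihU
  | cut a j hc _ _ ihX ihZ => exact hG.opn j ihX
  | line A _ ih => exact hG.line A ih
  | unline L _ ih => exact hG.unline L ih
  | cover A b c _ ih => exact hG.dbl A b c ih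
  | etale f hint _ ih => exact hG.et f hint ih
  | bundle B s j hs hc _ ih =>
    obtain ⟨S, hS⟩ := hP.bundles
    exact t_TBU k E T hT hP.toPub hP.sectionZero S hS B s j hs hc ih
  | odd A m a ha _ ih =>
    obtain ⟨S, h1, h2, h3, h4⟩ := hP.dbl
    exact t_TOD k E T hT S hP.toPub hP.sectionZero h1 h2 h3 h4 A m a ha ih
  | even A m a h2 ha _ ih => exact hEV h2 A m a ha ih
  | zeros A m f _ ih => exact t_TZE k E T hT hP.toPub hP.sectionZero A m f ih

/-- The conjecture of Tate in dimension at most `d` is equivalent to the conjecture of Tate for systems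
of `d + 2` quadratic forms in an odd number of variables. -/
theorem tate_odd (hP : Pub2 T hT) (h2 : (2 : k) ≠ 0) (d : ℕ) :
    (∀ X : Var k, X.DimLE d → Tate T X) ↔ OddSystems (Tate T) (d + 1) := by
  rw [tate_iff]
  constructor
  · intro h n f hn hf hd
    obtain ⟨s, rfl⟩ := hn
    have hn' : 2 * s + 1 = 1 + 2 * s := by ring
    have h3 : ∀ (n : ℕ) (_ : n = 1 + 2 * s) (f : Fin (d + 1 + 1) → MvPolynomial (Fin n) k),
        (∀ j, (f j).IsHomogeneous 2) → (gram (gen f)).det ≠ 0 → Built k d (zer f) := by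
      intro n hn f hf hd
      subst hn
      exact built_oddTate h2 d f hf hd
    exact (gg_iff _).mp (gg_of_built hP d h _ (h3 _ hn' f hf hd))
  · intro h
    exact universal hP h2 d (oddTate_of _ h)

end

end QCV


end

section

/-!
# QCV: the equivalence theorem for an even number of variables
-/

set_option autoImplicit false

open CategoryTheory AlgebraicGeometry Limits Polynomial TopologicalSpace

namespace QCV

open Pool.Agent.Lib_helper55.Beil Pool.Agent.Lib_helper66.OneP CUB

universe v

variable {k : Type} [Field k] {E : Type} [Field E]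
variable {T : ∀ i : ℕ, Homology.{v} k E i} {hT : Full T}

section

variable [Finite k] [CharZero E]

/-- `GG` satisfies the closure properties of `Cls` if it holds in dimension at most `d`. -/
lemma cls_gg (hP : Pub2 T hT) (d : ℕ) (h : ∀ X : Var k, X.DimLE d → GG T X) :
    Cls k d (fun A [CommRing A] [Algebra k A] [Algebra.FiniteType k A] => GG T (aff k A)) where
  toCls0 := cls0_gg (ggc hP)
  line := (ggc hP).line
  dbl := (ggc hP).dbl
  base := fun A _ _ _ hA => h _ (dimLE_of_DL hA)

omit [Finite k] [CharZero E] in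
lemma gg_dr_congr {B : Type} [CommRing B] [Algebra k B] [Algebra.FiniteType k B] {c c' : B}
    (h : c = c') (hc : GG T (aff k (Dr B 0 c))) : GG T (aff k (Dr B 0 c')) := by
  subst h
  exact hc

/-- The double cover `t ^ 2 = 0`. -/
lemma gg_dr_zero (hP : Pub2 T hT) (B : Type) [CommRing B] [Algebra k B] [Algebra.FiniteType k B]
    (h : GG T (aff k B)) : GG T (aff k (Dr B 0 0)) := by
  obtain ⟨S, h1, h2, h3, h4⟩ := hP.dbl
  have h5 := t_TOD k E T hT S hP.toPub hP.sectionZero h1 h2 h3 h4 B 0 (fun _ => 1)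
    (fun _ => isUnit_one) h
  obtain ⟨e1⟩ := t_ODR k B 0 (fun _ => 1) (fun j : Fin 0 => j.elim0) isUnit_one
    (fun j => j.elim0)
  have h6 := (clsT_gg (ggc hP)).iso e1 h5
  obtain ⟨e2, -, -⟩ := t_DFN k (MvPolynomial (Fin 0) B) B
    ((MvPolynomial.isEmptyAlgEquiv B (Fin 0)).restrictScalars k) 0
    (dia fun j : Fin 0 => j.elim0) 0 0 (map_zero _) (by simp [dia])
  exact (clsT_gg (ggc hP)).iso e2 h6

/-- The step from the double covers to systems of quadratic forms. -/
lemma evenSystems_of (hEVS : S_EVS) (hEV : (2 : k) ≠ 0 →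
      EvenCl k (fun A [CommRing A] [Algebra k A] [Algebra.FiniteType k A] => GG T (aff k A)))
    (hP : Pub2 T hT) (h2 : (2 : k) ≠ 0) (d : ℕ) (hlow : ∀ X : Var k, X.DimLE d → GG T X)
    (hD : DoubleCovers (GG T) (d + 1)) : EvenSystems (GG T) (d + 1) := by
  intro n f hn hf hd
  obtain ⟨m, hm⟩ : ∃ m, n = 2 * m := by
    obtain ⟨m, hm⟩ := hn
    exact ⟨m, by omega⟩
  subst hm
  have h3 := hEVS k (fun A [CommRing A] [Algebra k A] [Algebra.FiniteType k A] => GG T (aff k A)) d
    h2 (cls_gg hP d hlow) (hEV h2) k m (d + 1) 0 f (Nat.zero_le d) le_rfl (dl_field k) hf hd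
    (gg_dr_congr (neg_neg _) (hD (-((-1) ^ (m + 1) * (gram (gen f)).det))))
  exact t_TZE k E T hT hP.toPub hP.sectionZero _ (d + 1) f h3

/-- The step from systems of quadratic forms to double covers. -/
lemma doubleCovers_of (hUD2 : S_UD2) (hUG2 : S_UG2) (hP : Pub2 T hT) (h2 : (2 : k) ≠ 0) (d : ℕ)
    (hlow : ∀ X : Var k, X.DimLE d → GG T X) (ho : EvenSystems (GG T) (d + 1)) :
    DoubleCovers (GG T) (d + 1) := by
  intro g
  have hG : GGC T := ggc hP
  have hpoly := ppf_poly hP.toPub (T := T) (d + 1)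
  have h2B : (2 : MvPolynomial (Fin (d + 1)) k) ≠ 0 := by
    intro h
    apply h2
    have h3 : MvPolynomial.C (2 : k) = (0 : MvPolynomial (Fin (d + 1)) k) := by
      rw [← h]
      exact map_ofNat _ 2
    exact MvPolynomial.C_eq_zero.mp h3
  by_cases hg : g = 0
  · subst hg
    exact gg_dr_congr (neg_zero).symm (gg_dr_zero hP _ fun i => (hpoly i).1)
  have hφ : (MvPolynomial.X 0 ^ 2 - MvPolynomial.C g * MvPolynomial.X 1 ^ 2 :
      MvPolynomial (Fin 2) (MvPolynomial (Fin (d + 1)) k)).IsHomogeneous 2 :=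
    (MvPolynomial.isHomogeneous_X_pow 0 2).sub (MvPolynomial.isHomogeneous_C_mul_X_pow g 1 2)
  obtain ⟨s, f, P, hf, hPu, heq⟩ := Asm.s_ULZ k (d + 1) 2
    (MvPolynomial.X 0 ^ 2 - MvPolynomial.C g * MvPolynomial.X 1 ^ 2) hφ
  have hdet : (gram (gen f)).det ≠ 0 := by
    have h3 : gram (gen f) = lgram (lsub P (hyp (MvPolynomial.X 0 ^ 2 -
        MvPolynomial.C g * MvPolynomial.X 1 ^ 2 :
        MvPolynomial (Fin 2) (MvPolynomial (Fin (d + 1)) k)) s)) := by
      rw [heq]
      rfl
    have h4 := t_UGM _ (2 + 2 * s) (hyp (MvPolynomial.X 0 ^ 2 -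
        MvPolynomial.C g * MvPolynomial.X 1 ^ 2 :
        MvPolynomial (Fin 2) (MvPolynomial (Fin (d + 1)) k)) s) P ?_
    · rw [h3, h4, Matrix.det_mul, Matrix.det_mul, Matrix.det_transpose]
      exact mul_ne_zero (mul_ne_zero hPu.ne_zero (hUD2 _ g s h2B hg)) hPu.ne_zero
    · refine MvPolynomial.IsHomogeneous.add ?_ ?_
      · exact hφ.rename_isHomogeneous
      · refine MvPolynomial.IsHomogeneous.sum _ _ _ fun i _ => ?_
        exact (MvPolynomial.isHomogeneous_X _ _).mul (MvPolynomial.isHomogeneous_X _ _)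
  have h5 : GG T (aff k (MvPolynomial (Fin (d + 1)) (MvPolynomial (Fin (2 + 2 * s)) k) ⧸
      Ideal.span {fs f})) := by
    refine t_UST k (fun A [CommRing A] [Algebra k A] [Algebra.FiniteType k A] => GG T (aff k A))
      (clsT_gg hG) (d + 1) (MvPolynomial (Fin (2 + 2 * s)) k) f ?_
      (ho (2 + 2 * s) f ⟨1 + s, by ring⟩ hf hdet)
    intro j hj
    have h6 : f '' {l : Fin (d + 1 + 1) | 1 ≤ l.1 ∧ l.1 ≤ j} =
        Set.range (fun l : Fin j => f ⟨l.1 + 1, by omega⟩) := by
      ext y
      constructor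
      · rintro ⟨l, ⟨hl1, hl2⟩, rfl⟩
        refine ⟨⟨l.1 - 1, by omega⟩, congrArg f (Fin.ext ?_)⟩
        change l.1 - 1 + 1 = l.1
        omega
      · rintro ⟨l, rfl⟩
        refine ⟨_, ⟨?_, ?_⟩, rfl⟩
        · change 1 ≤ l.1 + 1
          omega
        · change l.1 + 1 ≤ j
          have := l.2
          omega
    refine (clsT_gg hG).iso (Ideal.quotientEquivAlgOfEq k (congrArg Ideal.span h6.symm)) ?_
    rcases Nat.eq_zero_or_pos j with rfl | hj0
    · refine (clsT_gg hG).iso (A := MvPolynomial (Fin (2 + 2 * s)) k) ?_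
        (fun i => (ppf_poly hP.toPub (T := T) (2 + 2 * s) i).1)
      have h1 : Ideal.span (Set.range (fun l : Fin 0 =>
          f ⟨l.1 + 1, by have := l.2; omega⟩)) = ⊥ := by
        rw [Set.range_eq_empty, Ideal.span_empty]
      exact ((Ideal.quotientEquivAlgOfEq k h1).trans
        (AlgEquiv.quotientBot k (MvPolynomial (Fin (2 + 2 * s)) k))).symm
    · refine gg_of_built hP d hlow _ ?_
      exact built_quadrics (e := 0) _ hj0 (by omega)
        (dimLE_of_DL (dl_field k)) (fun l => (hf _).totalDegree_le)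
  obtain ⟨e1⟩ := t_QSW k k (2 + 2 * s) (d + 1) f
  have h6 := (clsT_gg hG).iso e1 h5
  obtain ⟨e2⟩ := t_USB k (MvPolynomial (Fin (d + 1)) k) (2 + 2 * s)
    (hyp (MvPolynomial.X 0 ^ 2 - MvPolynomial.C g * MvPolynomial.X 1 ^ 2) s) P hPu
  rw [heq] at e2
  have h7 := (clsT_gg hG).iso e2 h6
  have h8 := Asm.s_UHY k E T hT hP.toPub hP.sectionZero hG (MvPolynomial (Fin (d + 1)) k) 2 s
    (MvPolynomial.X 0 ^ 2 - MvPolynomial.C g * MvPolynomial.X 1 ^ 2) hpoly h7
  obtain ⟨u, hu⟩ := hUG2 k (MvPolynomial (Fin (d + 1)) k) g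
  have h9 := (clsT_gg hG).opn _ u hu h8
  exact t_TGM k E T hT hP.toPub hP.sectionZero _ h9

end

end QCV


end

section

/-!
# QCV: the final theorem
-/

set_option autoImplicit false

open CategoryTheory AlgebraicGeometry Polynomial

namespace QCV

open Pool.Agent.Lib_helper55.Beil Pool.Agent.Lib_helper66.OneP CUB

universe v

/-! ## Members of the class -/

section Members

variable (k : Type) [Field k] (d : ℕ)

/-- Affine varieties defined by any number of equations of degree at most one and `r` equations of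
degree at most two over a base of dimension at most `e`, `e ≤ d`, `r + e ≤ d + 1`. -/
def Equations : Prop :=
  ∀ (R : Type) [CommRing R] [Algebra k R] [Algebra.FiniteType k R] (n r s e : ℕ)
    (f : Fin s ⊕ Fin r → MvPolynomial (Fin n) R), e ≤ d → r + e ≤ d + 1 → (aff k R).DimLE e →
    (∀ j, (f (Sum.inl j)).totalDegree ≤ 1) → (∀ j, (f (Sum.inr j)).totalDegree ≤ 2) →
    Member k d (aff k (MvPolynomial (Fin n) R ⧸ Ideal.span (Set.range f)))

/-- Projective varieties over a base of dimension at most `e` defined by forms of arbitrary degrees: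
`s` forms of degree at most one and `r` forms of degree at most two in the variables `x_i`, `i > a`
(for `a = 0`: linear and quadratic forms), if `e + a ≤ d` and `r + e + a ≤ d + 1`. -/
def Forms : Prop :=
  ∀ (R : Type) [CommRing R] [Algebra k R] [Algebra.FiniteType k R] (n r s e a : ℕ)
    (f : Fin s ⊕ Fin r → MvPolynomial (Fin (n + 1)) R) (m : Fin s ⊕ Fin r → ℕ), e + a ≤ d →
    r + e + a ≤ d + 1 → (aff k R).DimLE e → (∀ j, (f j).IsHomogeneous (m j)) → (∀ j, 1 ≤ m j) →
    (∀ j, ∀ u ∈ (f (Sum.inl j)).support, xdeg a u ≤ 1) →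
    (∀ j, ∀ u ∈ (f (Sum.inr j)).support, xdeg a u ≤ 2) →
    ∀ X : Var k, Nonempty (ProjSub f X) → Member k d X

/-- Affine and projective varieties defined by `q + 1` quadratic forms over a base of dimension at
most `e`, `e ≤ d`, `q + e ≤ d + 1`, whose generic linear combination has odd rank over every prime of
dimension at least `e` of the base. -/
def OddForms : Prop :=
  ∀ (R : Type) [CommRing R] [Algebra k R] [Algebra.FiniteType k R] (n q e : ℕ)
    (f : Fin (q + 1) → MvPolynomial (Fin n) R), e ≤ d → q + e ≤ d + 1 → (aff k R).DimLE e →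
    (∀ j, (f j).IsHomogeneous 2) → OddGen k e f →
    Member k d (aff k (MvPolynomial (Fin n) R ⧸ Ideal.span (Set.range f)))

/-- The projective version. -/
def OddFormsProj : Prop :=
  ∀ (R : Type) [CommRing R] [Algebra k R] [Algebra.FiniteType k R] (n q e : ℕ)
    (f : Fin (q + 1) → MvPolynomial (Fin (n + 1)) R), e ≤ d → q + e ≤ d + 1 → (aff k R).DimLE e →
    (∀ j, (f j).IsHomogeneous 2) → OddGen k e f → ∀ X : Var k, Nonempty (ProjSub f X) →
    Member k d X

/-- Affine and projective varieties defined by `q + 1` quadratic forms in `n = 2 m` variables with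
nondegenerate generic linear combination over an integral base `R` of dimension at most `e`, `e ≤ d`,
`q + e ≤ d + 1`, if the discriminant double cover `t ^ 2 = (-1) ^ m det` of `Spec R[t_1, ..., t_q]` is a
member. -/
def EvenForms : Prop :=
  ∀ (R : Type) [CommRing R] [IsDomain R] [Algebra k R] [Algebra.FiniteType k R] (n m q e : ℕ)
    (f : Fin (q + 1) → MvPolynomial (Fin n) R), n = 2 * m → e ≤ d → q + e ≤ d + 1 →
    (aff k R).DimLE e → (∀ j, (f j).IsHomogeneous 2) → (gram (gen f)).det ≠ 0 →
    Member k d (aff k (Dr (MvPolynomial (Fin q) R) 0 ((-1) ^ (m + 1) * (gram (gen f)).det))) →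
    Member k d (aff k (MvPolynomial (Fin n) R ⧸ Ideal.span (Set.range f)))

/-- The projective version. -/
def EvenFormsProj : Prop :=
  ∀ (R : Type) [CommRing R] [IsDomain R] [Algebra k R] [Algebra.FiniteType k R] (n m q e : ℕ)
    (f : Fin (q + 1) → MvPolynomial (Fin (n + 1)) R), n + 1 = 2 * m → e ≤ d → q + e ≤ d + 1 →
    (aff k R).DimLE e → (∀ j, (f j).IsHomogeneous 2) → (gram (gen f)).det ≠ 0 →
    Member k d (aff k (Dr (MvPolynomial (Fin q) R) 0 ((-1) ^ (m + 1) * (gram (gen f)).det))) →
    ∀ X : Var k, Nonempty (ProjSub f X) → Member k d X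

/-- The zero set of one quadratic form over an integral affine member `Spec A` of dimension at most
`d + 1`: forms of odd rank over the fraction field (affine and projective version). -/
def OddBase : Prop :=
  ∀ (A : Type) [CommRing A] [IsDomain A] [Algebra k A] [Algebra.FiniteType k A],
    (aff k A).DimLE (d + 1 : ℕ) → Member k d (aff k A) →
    (∀ (n : ℕ) (f : MvPolynomial (Fin n) A), f.IsHomogeneous 2 →
      Odd ((gram f).map (algebraMap A (FractionRing A))).rank →
      Member k d (aff k (MvPolynomial (Fin n) A ⧸ Ideal.span (Set.range fun _ : Fin 1 => f)))) ∧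
    ∀ (n : ℕ) (f : MvPolynomial (Fin (n + 1)) A), f.IsHomogeneous 2 →
      Odd ((gram f).map (algebraMap A (FractionRing A))).rank →
      ∀ X : Var k, Nonempty (ProjSub (fun _ : Fin 1 => f) X) → Member k d X

/-- The same for nondegenerate forms in `2 m` variables whose discriminant double cover of `Spec A` is
a member (affine and projective version). -/
def EvenBase : Prop :=
  ∀ (A : Type) [CommRing A] [IsDomain A] [Algebra k A] [Algebra.FiniteType k A],
    (aff k A).DimLE (d + 1 : ℕ) →
    (∀ (n m : ℕ) (f : MvPolynomial (Fin n) A), n = 2 * m → f.IsHomogeneous 2 → (gram f).det ≠ 0 →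
      Member k d (aff k (Dr A 0 ((-1) ^ (m + 1) * (gram f).det))) →
      Member k d (aff k (MvPolynomial (Fin n) A ⧸ Ideal.span (Set.range fun _ : Fin 1 => f)))) ∧
    ∀ (n m : ℕ) (f : MvPolynomial (Fin (n + 1)) A), n + 1 = 2 * m → f.IsHomogeneous 2 →
      (gram f).det ≠ 0 → Member k d (aff k (Dr A 0 ((-1) ^ (m + 1) * (gram f).det))) →
      ∀ X : Var k, Nonempty (ProjSub (fun _ : Fin 1 => f) X) → Member k d X

/-- All hypersurfaces of degree at most three in the affine space of dimension at most `d + 3`, and all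
projective cubic hypersurfaces of dimension at most `d + 2`. -/
def Cubics : Prop :=
  (∀ (n : ℕ) (f : MvPolynomial (Fin n) k), n ≤ d + 3 → f.totalDegree ≤ 3 →
    Member k d (aff k (MvPolynomial (Fin n) k ⧸ Ideal.span (Set.range fun _ : Fin 1 => f)))) ∧
  ∀ (n : ℕ) (F : MvPolynomial (Fin (n + 1)) k), n ≤ d + 3 → F.IsHomogeneous 3 →
    ∀ X : Var k, Nonempty (ProjSub (fun _ : Fin 1 => F) X) → Member k d X

/-- Integral varieties of dimension at most `d + 1` which are separably uniruled over varieties of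
dimension at most `d`. -/
def Uniruled : Prop :=
  ∀ X : Var k, IsIntegral X.X → X.DimLE (d + 1 : ℕ) → SepUniruled d X → Member k d X

end Members

lemma equations (k : Type) [Field k] (d : ℕ) : Equations k d :=
  fun _ _ _ _ _ _ _ _ f he hr hR h1 h2 => member_of_built (built_equations f he hr hR h1 h2)

lemma forms (k : Type) [Field k] (d : ℕ) : Forms k d :=
  fun _ _ _ _ _ _ _ _ _ f m he hr hR hf hm h1 h2 _ ⟨S⟩ =>
    member_of_built (built_of_forms he hr hR f m hf hm h1 h2 S)

lemma oddForms (k : Type) [Field k] (h2 : (2 : k) ≠ 0) (d : ℕ) : OddForms k d :=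
  fun _ _ _ _ _ _ _ f he hq hR hf ho => member_of_built (built_odd h2 he hq hR f hf ho)

lemma oddFormsProj (k : Type) [Field k] (h2 : (2 : k) ≠ 0) (d : ℕ) : OddFormsProj k d :=
  fun _ _ _ _ _ _ _ f he hq hR hf ho _ ⟨S⟩ =>
    member_of_built (built_odd_proj h2 he hq hR f hf ho S)

lemma oddBase (k : Type) [Field k] (h2 : (2 : k) ≠ 0) (d : ℕ) : OddBase k d :=
  fun _ _ _ _ _ hA hb => ⟨fun _ f hf ho => member_odd_base h2 hA hb f hf ho,
    fun _ f hf ho _ ⟨S⟩ => member_odd_base_proj h2 hA hb f hf ho S⟩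

lemma cubics (k : Type) [Field k] [PerfectField k] (h2 : (2 : k) ≠ 0) {d : ℕ} (hd : 1 ≤ d) :
    Cubics k d :=
  ⟨fun _ f hn hf => member_of_built (built_cubic_affine h2 hd hn f hf),
    fun _ F hn hF _ ⟨S⟩ => member_of_built (built_cubic_proj h2 hd hn F hF S)⟩

lemma uniruled (k : Type) [Field k] (d : ℕ) : Uniruled k d :=
  fun _ hint hX h => member_of_built (built_of_uniruled hint hX h)

end QCV


end

section

/-!
# QCV: the conjecture of Tate for smooth proper varieties and for all varieties
-/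

set_option autoImplicit false

open CategoryTheory AlgebraicGeometry Polynomial

namespace QCV

open Pool.Agent.Lib_helper55.Beil Pool.Agent.Lib_helper66.OneP CUB

universe v

variable {k : Type} [Field k] {E : Type} [Field E] {T : ∀ i : ℕ, Homology.{v} k E i} {hT : Full T}

/-- The conjecture of Tate for smooth proper varieties of dimension at most `d` implies the conjecture
of Tate for all varieties of dimension at most `d`. -/
theorem tate_of_sp [Finite k] [CharZero E] (hP : Pub2 T hT)
    (hA : Pool.Agent.Lib_helper66.OneP.Alterations k) (d : ℕ)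
    (h : ∀ (Y : Var k) (D : ℕ), D ≤ d → Y.SmoothProper D → Tate T Y) (X : Var k)
    (hX : X.DimLE d) : Tate T X := by
  rw [← gg_iff]
  have hG : GGC T := ggc hP
  refine UNO.gg_auxd hG d (fun V₀ hint hdim => ?_) X ⊤ X (𝟙 _) (Category.id_comp _) inferInstance
    (fun _ => trivial) hX
  obtain ⟨D, hD⟩ := t_DST.2.1 k V₀ (genericPoint V₀.X)
  obtain ⟨U', V, Y, j, p, o, hne, hsp⟩ := hA V₀ hint D hD
  refine ⟨U', j, hne, ?_⟩
  have hDd : D ≤ d := by
    have := hdim (genericPoint V₀.X)
    rw [hD] at this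
    exact_mod_cast this
  have hj := j.isOpen
  have hU'int : IsIntegral U'.X := isIntegral_of_isOpenImmersion j.g
  exact hG.et p hU'int (hG.opn o ((gg_iff Y).mpr (h Y D hDd hsp)))

/-- The conjecture of Tate for smooth proper varieties of dimension at most `d` and for all varieties
of dimension at most `d` are equivalent. -/
theorem tate_sp_iff [Finite k] [CharZero E] (hP : Pub2 T hT)
    (hA : Pool.Agent.Lib_helper66.OneP.Alterations k) (d : ℕ) :
    (∀ (Y : Var k) (D : ℕ), D ≤ d → Y.SmoothProper D → Tate T Y) ↔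
      ∀ X : Var k, X.DimLE d → Tate T X := by
  constructor
  · exact fun h X hX => tate_of_sp hP hA d h X hX
  · intro h Y D hD hY
    refine h Y ?_
    intro x
    exact (dimLE_of_smoothProper hY x).trans (by exact_mod_cast hD)

end QCV


end
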