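import Mathlib
import Pool.Agent.QVM.C60

/-! Parts: QCV.E_ECM -/

section

/-!
# QCV, block E: two varieties with isomorphic double covers
-/

set_option autoImplicit false

open CategoryTheory AlgebraicGeometry Limits Polynomial TopologicalSpace

namespace QCV

open Pool.Agent.Lib_helper55.Beil Pool.Agent.Lib_helper66.OneP CUB

universe v

namespace ECM

open OISO

variable {k : Type} [Field k] {E : Type} [Field E] {T : ∀ i : ℕ, Homology.{v} k E i}

lemma isc_symm' {A B : Type} [CommRing A] [Algebra k A] [Algebra.FiniteType k A]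
    [CommRing B] [Algebra k B] [Algebra.FiniteType k B] (e : A ≃ₐ[k] B) :
    (isc e.symm).g ≫ (isc e).g = (idIn (aff k A)).g := by
  change spm (e.symm : B →ₐ[k] A) ≫ spm (e : A →ₐ[k] B) = 𝟙 _
  rw [spm_comp, ← spm_id]
  exact congrArg spm (AlgHom.ext fun x => e.symm_apply_apply x)

section Iso

variable {A B : Type} [CommRing A] [Algebra k A] [Algebra.FiniteType k A]
  [CommRing B] [Algebra k B] [Algebra.FiniteType k B] (e : A ≃ₐ[k] B)

lemma push_symm (hT : Full T) (i n : ℕ) (m : (T i).H n (aff k B)) :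
    (T i).P n (isc e.symm) ((T i).P n (isc e) m) = m := by
  rw [hT.push_comp i n _ _ _ (isc e) (isc e.symm) (idIn (aff k B)) (isc_symm e),
    hT.push_id i n _ (idIn (aff k B)) rfl]

lemma push_symm' (hT : Full T) (i n : ℕ) (m : (T i).H n (aff k A)) :
    (T i).P n (isc e) ((T i).P n (isc e.symm) m) = m := by
  rw [hT.push_comp i n _ _ _ (isc e.symm) (isc e) (idIn (aff k A)) (isc_symm' e),
    hT.push_id i n _ (idIn (aff k A)) rfl]

lemma cyc_symm' (i : ℕ) (c : Pts i (aff k A) →₀ E) :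
    pushCyc (isc e) (pushCyc (isc e.symm) c) = c := by
  rw [pushCyc_comp (isc e.symm) (isc e) (idIn (aff k A)) (isc_symm' e)]
  have h0 : ptsMap i (idIn (aff k A)) = id := by
    funext x
    exact Subtype.ext rfl
  rw [pushCyc, h0, Finsupp.mapDomain_id]

variable (t : A ≃ₐ[k] A) (t' w : B ≃ₐ[k] B)

lemma comm (h : ∀ x, e (t x) = w (t' (e x))) :
    ((autc w).trans (autc t')).g ≫ (isc e).g = ((isc e).trans (autc t)).g := by
  change (spm (w : B →ₐ[k] B) ≫ spm (t' : B →ₐ[k] B)) ≫ spm (e : A →ₐ[k] B) =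
    spm (e : A →ₐ[k] B) ≫ spm (t : A →ₐ[k] A)
  rw [spm_comp, spm_comp, spm_comp]
  exact congrArg spm (AlgHom.ext fun x => (h x).symm)

lemma push_comm (hT : Full T) (h : ∀ x, e (t x) = w (t' (e x))) (i n : ℕ)
    (m : (T i).H n (aff k B)) :
    (T i).P n (autc t) ((T i).P n (isc e) m) =
      (T i).P n (isc e) ((T i).P n (autc t') ((T i).P n (autc w) m)) := by
  rw [hT.push_comp i n _ _ _ (isc e) (autc t) ((isc e).trans (autc t)) rfl,
    hT.push_comp i n _ _ _ (autc w) (autc t') ((autc w).trans (autc t')) rfl,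
    hT.push_comp i n _ _ _ ((autc w).trans (autc t')) (isc e) ((isc e).trans (autc t))
      (comm e t t' w h)]

lemma cyc_comm (h : ∀ x, e (t x) = w (t' (e x))) (i : ℕ) (c : Pts i (aff k B) →₀ E) :
    pushCyc (autc t) (pushCyc (isc e) c) =
      pushCyc (isc e) (pushCyc (autc t') (pushCyc (autc w) c)) := by
  rw [pushCyc_comp (isc e) (autc t) ((isc e).trans (autc t)) rfl,
    pushCyc_comp (autc w) (autc t') ((autc w).trans (autc t')) rfl,
    pushCyc_comp ((autc w).trans (autc t')) (isc e) ((isc e).trans (autc t)) (comm e t t' w h)]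

end Iso

/-! ## The involution and the push-forward -/

lemma autc_dinv {A : Type} [CommRing A] [Algebra k A] [Algebra.FiniteType k A] (b c : A) :
    (clPr (autc (dinv b c k))).g ≫ (dbl b c k).g = (dbl b c k).g := by
  change Spec.map _ ≫ Spec.map _ = Spec.map _
  rw [← Spec.map_comp, ← CommRingCat.ofHom_comp]
  congr 2
  apply RingHom.ext
  intro a
  exact dinv_of b c k a

lemma pfc_dinv {A : Type} [CommRing A] [Algebra k A] [Algebra.FiniteType k A] (b c : A) (i : ℕ)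
    (z : Pts i (aff k (Dr A b c)) →₀ E) :
    pfc E i (dbl b c k) (pushCyc (autc (dinv b c k)) z) = pfc E i (dbl b c k) z := by
  rw [← (CUB.Asm2.s_PFC.{0}).2.2.1 k E i _ _ (autc (dinv b c k)) (clPr (autc (dinv b c k))) rfl z,
    (CUB.Asm2.s_PFC.{0}).2.1 k E i _ _ _ (clPr (autc (dinv b c k))) (dbl b c k) (dbl b c k)
      (autc_dinv b c) z]

lemma push_D (hT : Full T) (S : DblMaps T) (hD : S.Degree hT.toProperMaps)
    (hGal : S.Galois hT.toProperMaps) (i n : ℕ) (A : Type) [CommRing A] [Algebra k A]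
    [Algebra.FiniteType k A] (b c : A) (m : (T i).H n (aff k A)) :
    (T i).P n (autc (dinv b c k)) (S.D i n A b c m) = S.D i n A b c m := by
  have h1 := hGal i n A b c (S.D i n A b c m)
  have h2 := hD i n A b c m
  have h3 : S.D i n A b c ((2 : E) • m) = (2 : E) • S.D i n A b c m :=
    map_smul (S.pb i n A b c) (2 : E) m
  rw [h2, h3, two_smul] at h1
  exact (add_left_cancel h1).symm

/-! ## Supports -/

lemma lift_up [CharZero E] (hT : Full T) (S : DblMaps T) (hD : S.Degree hT.toProperMaps)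
    (i n e : ℕ) (A : Type) [CommRing A] [Algebra k A] [Algebra.FiniteType k A] (b c : A)
    (x : (T i).H n (aff k A)) (h : Supp (T i) n e (aff k A) x) :
    ∃ y : (T i).H n (aff k (Dr A b c)), Supp (T i) n e (aff k (Dr A b c)) y ∧
      hT.G i n (dbl b c k) y = x := by
  obtain ⟨C, hC, w0, hw0⟩ := h
  have hred := REDI.isReduced_closedVar (aff k A) C
  let φ := Ideal.Quotient.mkₐ k (OPFD.idl A C)
  have hφ : Function.Surjective φ := Ideal.Quotient.mkₐ_surjective k _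
  let ι := clo φ hφ
  obtain ⟨l, hl⟩ := exists_factor_range ι (closedVarIn (aff k A) C) (by
    rw [range_closedVarIn]
    exact (OPFD.range_idl A C).ge)
  let ι' := clo (OPFD.mapAlg b c φ) (OPFD.mapAlg_surjective b c φ hφ)
  let g' := dbl (φ b) (φ c) k
  let w := (T i).P n l w0
  have hw : (T i).P n ι w = x := by
    rw [← hw0]
    exact hT.push_comp i n _ _ _ l ι (closedVarIn (aff k A) C) hl w0
  let w' := (2 : E)⁻¹ • S.D i n _ (φ b) (φ c) w
  have hw' : hT.G i n g' w' = w := by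
    have h1 : hT.G i n g' w' = (2 : E)⁻¹ • hT.G i n g' (S.D i n _ (φ b) (φ c) w) :=
      map_smul (hT.pf i n g') _ _
    have h2 : hT.G i n g' (S.D i n _ (φ b) (φ c) w) = (2 : E) • w := hD i n _ (φ b) (φ c) w
    rw [h1, h2, smul_smul, inv_mul_cancel₀ (two_ne_zero), one_smul]
  have hsq : ι'.g ≫ (dbl b c k).g = g'.g ≫ ι.g := by
    change spm _ ≫ spm _ = spm _ ≫ spm _
    rw [spm_comp, spm_comp, OPFD.mapAlg_comp]
  refine ⟨(T i).P n ι' w', ?_, ?_⟩
  · refine supp_mk hT.toExtra i n e ι' ?_ w'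
    intro y
    rw [← dim_dbl (φ b) (φ c) y]
    have := ι.closed
    rw [← dim_map ι.g ι.comm]
    apply hC
    have h4 : ι.g (g'.g y) ∈ Set.range ι.g := ⟨_, rfl⟩
    rw [OPFD.range_idl A C] at h4
    exact h4
  · rw [← hw, ← hw', ← hT.pfClosed i n ι' (clPr ι') rfl, ← hT.pfClosed i n ι (clPr ι) rfl,
      hT.pfFunctorial i n (clPr ι') (dbl b c k) ((clPr ι').trans (dbl b c k)) rfl,
      hT.pfFunctorial i n g' (clPr ι) ((clPr ι').trans (dbl b c k)) hsq.symm]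

/-- The pull-back of a class with small support. -/
lemma supp_D [CharZero E] (hT : Full T) (S : DblMaps T) (hD : S.Degree hT.toProperMaps)
    (hGal : S.Galois hT.toProperMaps) (i n e : ℕ) (A : Type) [CommRing A] [Algebra k A]
    [Algebra.FiniteType k A] (b c : A) (x : (T i).H n (aff k A))
    (h : Supp (T i) n e (aff k A) x) :
    Supp (T i) n e (aff k (Dr A b c)) (S.D i n A b c x) := by
  obtain ⟨y, hy, hyx⟩ := lift_up hT S hD i n e A b c x h
  rw [← hyx, hGal i n A b c y]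
  exact supp_add hT.toExtra i n e _ _ _ hy (supp_push hT.toExtra i n e _ _ hy)

/-! ## The transfer -/

section Main

variable {X₁ X₂ : Type} [CommRing X₁] [Algebra k X₁] [Algebra.FiniteType k X₁] [CommRing X₂]
  [Algebra k X₂] [Algebra.FiniteType k X₂] {b₁ c₁ : X₁} {b₂ c₂ : X₂}
  (e : Dr X₁ b₁ c₁ ≃ₐ[k] Dr X₂ b₂ c₂) (w : Dr X₂ b₂ c₂ ≃ₐ[k] Dr X₂ b₂ c₂)

/-- The class `μ` on the second double cover which corresponds to `D m`. -/
noncomputable def mu (S : DblMaps T) (i n : ℕ) (m : (T i).H n (aff k X₁)) :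
    (T i).H n (aff k (Dr X₂ b₂ c₂)) :=
  (T i).P n (isc e.symm) (S.D i n X₁ b₁ c₁ m)

lemma push_mu (hT : Full T) (S : DblMaps T) (i n : ℕ) (m : (T i).H n (aff k X₁)) :
    (T i).P n (isc e) (mu e S i n m) = S.D i n X₁ b₁ c₁ m :=
  push_symm' e hT i n _

lemma D_mu (hT : Full T) (S : DblMaps T) (hD : S.Degree hT.toProperMaps)
    (hGal : S.Galois hT.toProperMaps) (h : ∀ x, e (dinv b₁ c₁ k x) = w (dinv b₂ c₂ k (e x)))
    (i n : ℕ) (hn : 2 * i ≤ n) (hw : TR T i (Dr X₂ b₂ c₂) w) (m : (T i).H n (aff k X₁)) :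
    S.D i n X₂ b₂ c₂ (hT.G i n (dbl b₂ c₂ k) (mu e S i n m)) = (2 : E) • mu e S i n m := by
  have h1 := push_comm e (dinv b₁ c₁ k) (dinv b₂ c₂ k) w hT h i n (mu e S i n m)
  rw [push_mu e hT, push_D hT S hD hGal, hw.hom n hn] at h1
  have h2 : (T i).P n (autc (dinv b₂ c₂ k)) (mu e S i n m) = mu e S i n m := by
    have h3 := congrArg ((T i).P n (isc e.symm)) h1
    rw [push_symm e hT] at h3
    exact h3.symm
  rw [hGal i n X₂ b₂ c₂, h2, two_smul]

lemma mu_mem (S : DblMaps T) (hF : S.Frobenius) (i n : ℕ) (m : (T i).H n (aff k X₁))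
    (hm : m ∈ Module.End.maxGenEigenspace ((T i).frob n (aff k X₁)) 1) :
    mu e S i n m ∈ Module.End.maxGenEigenspace ((T i).frob n (aff k (Dr X₂ b₂ c₂))) 1 := by
  have h1 : S.pb i n X₁ b₁ c₁ m ∈
      Module.End.maxGenEigenspace ((T i).frob n (aff k (Dr X₁ b₁ c₁))) 1 :=
    maxGen_map ((T i).frob n (aff k X₁)) ((T i).frob n (aff k (Dr X₁ b₁ c₁)))
      (S.pb i n X₁ b₁ c₁) (hF i n X₁ b₁ c₁) hm
  exact maxGen_map ((T i).frob n (aff k (Dr X₁ b₁ c₁))) ((T i).frob n (aff k (Dr X₂ b₂ c₂)))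
    ((T i).push n (isc e.symm)) ((T i).push_frob n (isc e.symm)) h1

lemma G_mu_mem (hT : Full T) (S : DblMaps T) (hF : S.Frobenius) (i n : ℕ)
    (m : (T i).H n (aff k X₁))
    (hm : m ∈ Module.End.maxGenEigenspace ((T i).frob n (aff k X₁)) 1) :
    hT.G i n (dbl b₂ c₂ k) (mu e S i n m) ∈
      Module.End.maxGenEigenspace ((T i).frob n (aff k X₂)) 1 :=
  maxGen_map ((T i).frob n (aff k (Dr X₂ b₂ c₂))) ((T i).frob n (aff k X₂))
    (hT.pf i n (dbl b₂ c₂ k)) (hT.pfFrobenius i n (dbl b₂ c₂ k)) (mu_mem e S hF i n m hm)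

/-- Algebraicity. -/
theorem good [CharZero E] (hT : Full T) (S : DblMaps T) (hF : S.Frobenius)
    (hD : S.Degree hT.toProperMaps) (hC : S.Classes) (hGal : S.Galois hT.toProperMaps)
    (h : ∀ x, e (dinv b₁ c₁ k x) = w (dinv b₂ c₂ k (e x))) (i : ℕ)
    (hw : TR T i (Dr X₂ b₂ c₂) w) (hX : (T i).gen (aff k X₂) ≤ (T i).alg (aff k X₂)) :
    (T i).gen (aff k X₁) ≤ (T i).alg (aff k X₁) := by
  intro m hm
  have h1 := G_mu_mem e hT S hF i (2 * i) m hm
  obtain ⟨x, hx⟩ := exists_cls (T i) _ _ (hX h1)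
  obtain ⟨z, hz, -⟩ := exists_dbl S hC i X₂ b₂ c₂ x
  have h2 : clz (T i) _ z = (2 : E) • mu e S i (2 * i) m := by
    rw [hz, ← D_mu e w hT S hD hGal h i (2 * i) le_rfl hw m]
    exact congrArg (S.pb i (2 * i) X₂ b₂ c₂) hx
  have h3 : clz (T i) _ (pushCyc (isc e) z) = (2 : E) • S.D i (2 * i) X₁ b₁ c₁ m := by
    rw [← clz_push, h2]
    have h4 : (T i).P (2 * i) (isc e) ((2 : E) • mu e S i (2 * i) m) =
        (2 : E) • (T i).P (2 * i) (isc e) (mu e S i (2 * i) m) :=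
      map_smul ((T i).push (2 * i) (isc e)) (2 : E) _
    rw [h4, push_mu e hT]
  have h5 := (CUB.Asm2.s_PFC.{v}).2.2.2.1 k E T hT i _ _ (dbl b₁ c₁ k) (pushCyc (isc e) z)
  have h6 : hT.G i (2 * i) (dbl b₁ c₁ k) (clz (T i) _ (pushCyc (isc e) z)) =
      (2 : E) • (2 : E) • m := by
    rw [h3]
    have h7 : hT.G i (2 * i) (dbl b₁ c₁ k) ((2 : E) • S.D i (2 * i) X₁ b₁ c₁ m) =
        (2 : E) • hT.G i (2 * i) (dbl b₁ c₁ k) (S.D i (2 * i) X₁ b₁ c₁ m) :=
      map_smul (hT.pf i (2 * i) (dbl b₁ c₁ k)) (2 : E) _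
    rw [h7, hD i (2 * i) X₁ b₁ c₁ m]
  rw [h6] at h5
  have h8 : m = (2 : E)⁻¹ • (2 : E)⁻¹ •
      clz (T i) _ (pfc E i (dbl b₁ c₁ k) (pushCyc (isc e) z)) := by
    rw [h5, smul_smul (2 : E)⁻¹ (2 : E), inv_mul_cancel₀ (two_ne_zero), one_smul, smul_smul,
      inv_mul_cancel₀ (two_ne_zero), one_smul]
  rw [h8]
  exact Submodule.smul_mem _ _ (Submodule.smul_mem _ _ ((T i).linComb_mem_alg _ _))

/-- Injectivity of the cycle class map. -/
theorem injC [CharZero E] (hT : Full T) (S : DblMaps T) (hC : S.Classes)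
    (h : ∀ x, e (dinv b₁ c₁ k x) = w (dinv b₂ c₂ k (e x))) (i : ℕ)
    (hw : TR T i (Dr X₂ b₂ c₂) w) (hX : (T i).InjC (aff k X₂)) : (T i).InjC (aff k X₁) := by
  rw [injC_iff] at hX ⊢
  intro z hz
  obtain ⟨z₁, hz₁, hz₂⟩ := exists_dbl S hC i X₁ b₁ c₁ z
  have h1 : clz (T i) _ z₁ = 0 := by
    rw [hz₁, show clz (T i) _ z = 0 from hz, map_zero]
  let y := pushCyc (isc e.symm) z₁
  have hy : pushCyc (isc e) y = z₁ := cyc_symm' e i z₁
  have h2 : clz (T i) _ y = 0 := by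
    change clz (T i) _ (pushCyc (isc e.symm) z₁) = 0
    rw [← clz_push, h1]
    exact map_zero ((T i).push (2 * i) (isc e.symm))
  have h3 := (CUB.Asm2.s_PFC.{v}).2.2.2.1 k E T hT i _ _ (dbl b₂ c₂ k) y
  have h4 : clz (T i) (aff k X₂) (pfc E i (dbl b₂ c₂ k) y) = 0 := by
    rw [h3, h2]
    exact map_zero (hT.pf i (2 * i) (dbl b₂ c₂ k))
  obtain ⟨y', hy', hyy⟩ := Asm.s_OLFT k E X₂ b₂ c₂ i _ (hX _ h4)
  have h5 : pfc E i (dbl b₂ c₂ k) (y - y') = 0 := by
    rw [map_sub, hyy, sub_self]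
  have h6 := t_OKER k E X₂ b₂ c₂ i _ h5
  rw [pushCyc_sub'] at h6
  have h7 : y + pushCyc (autc (dinv b₂ c₂ k)) y ∈ ratZero E i (aff k (Dr X₂ b₂ c₂)) := by
    have h8 : y + pushCyc (autc (dinv b₂ c₂ k)) y =
        y' + pushCyc (autc (dinv b₂ c₂ k)) y' := by
      rw [← sub_eq_zero, ← h6]
      abel
    rw [h8]
    exact add_mem hy' (pushCyc_ratZero _ _ hy')
  have h9 : z₁ + pushCyc (autc (dinv b₁ c₁ k)) z₁ ∈ ratZero E i (aff k (Dr X₁ b₁ c₁)) := by
    have h10 := pushCyc_ratZero (isc e) _ h7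
    rw [pushCyc_add, hy] at h10
    have h11 := pushCyc_ratZero (isc e) _
      (pushCyc_ratZero (autc (dinv b₂ c₂ k)) _ (hw.cyc y))
    rw [pushCyc_sub', pushCyc_sub', ← cyc_comm e (dinv b₁ c₁ k) (dinv b₂ c₂ k) w h, hy] at h11
    have h12 := sub_mem h10 h11
    have h13 : z₁ + pushCyc (isc e) (pushCyc (autc (dinv b₂ c₂ k)) y) -
        (pushCyc (isc e) (pushCyc (autc (dinv b₂ c₂ k)) y) -
          pushCyc (autc (dinv b₁ c₁ k)) z₁) = z₁ + pushCyc (autc (dinv b₁ c₁ k)) z₁ := by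
      abel
    rwa [h13] at h12
  have h14 := CUB.Asm2.s_PUSHG k E i _ _ (dbl b₁ c₁ k) (fun y hy => by rw [dim_dbl, hy]) _ h9
  rw [map_add, pfc_dinv, hz₂, ← two_smul E] at h14
  have h15 := Submodule.smul_mem _ (2 : E)⁻¹ (Submodule.smul_mem _ (2 : E)⁻¹ h14)
  rwa [smul_smul (2 : E)⁻¹ (2 : E), inv_mul_cancel₀ (two_ne_zero), one_smul, smul_smul,
    inv_mul_cancel₀ (two_ne_zero), one_smul] at h15

/-- Supports. -/
theorem supp [CharZero E] (hT : Full T) (S : DblMaps T) (hF : S.Frobenius)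
    (hD : S.Degree hT.toProperMaps) (hGal : S.Galois hT.toProperMaps)
    (h : ∀ x, e (dinv b₁ c₁ k x) = w (dinv b₂ c₂ k (e x))) (i : ℕ)
    (hw : TR T i (Dr X₂ b₂ c₂) w)
    (hX : ∀ m ∈ gen1 (T i) (aff k X₂), Supp (T i) (2 * i + 1) (i + 1) (aff k X₂) m) :
    ∀ m ∈ gen1 (T i) (aff k X₁), Supp (T i) (2 * i + 1) (i + 1) (aff k X₁) m := by
  intro m hm
  have h1 := supp_D hT S hD hGal i _ _ X₂ b₂ c₂ _ (hX _ (G_mu_mem e hT S hF i (2 * i + 1) m hm))
  rw [D_mu e w hT S hD hGal h i (2 * i + 1) (by omega) hw m] at h1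
  have h2 := supp_smul i _ _ _ (2 : E)⁻¹ _ h1
  rw [smul_smul, inv_mul_cancel₀ (two_ne_zero), one_smul] at h2
  have h3 := supp_pf hT i _ _ (dbl b₁ c₁ k) _ (supp_push hT.toExtra i _ _ (isc e) _ h2)
  rw [push_mu e hT, hD i (2 * i + 1) X₁ b₁ c₁ m] at h3
  have h4 := supp_smul i _ _ _ (2 : E)⁻¹ _ h3
  rwa [smul_smul, inv_mul_cancel₀ (two_ne_zero), one_smul] at h4

end Main

end ECM

/-- ECM. -/
theorem t_ECM : S_ECM.{v} := by
  intro k E _ _ _ _ T hT S _ hF hD hC hGal X₁ X₂ _ _ _ _ _ _ b₁ c₁ b₂ c₂ e w h i hw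
  exact ⟨fun hX => ⟨ECM.good e w hT S hF hD hC hGal h i hw hX.1,
    ECM.injC e w hT S hC h i hw hX.2.1, ECM.supp e w hT S hF hD hGal h i hw hX.2.2⟩,
    ECM.good e w hT S hF hD hC hGal h i hw⟩

end QCV


end
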