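import Mathlib
import Pool.Agent.QVM.C55
import Pool.Agent.QVM.C60

/-! Parts: QCV.E_EQT -/

section

/-!
# QCV, block E: the automorphism `x_1 ↦ - x_1, x_3 ↦ - x_3` of a quadric
-/

set_option autoImplicit false

open CategoryTheory AlgebraicGeometry Polynomial

namespace QCV

open Pool.Agent.Lib_helper55.Beil Pool.Agent.Lib_helper66.OneP CUB

universe v

namespace EQT

lemma sgn_sq (j : Fin 4) : (![1, -1, 1, -1] : Fin 4 → ℤ) j * (![1, -1, 1, -1] : Fin 4 → ℤ) j = 1 := by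
  fin_cases j <;> rfl

lemma aeval_dia {B : Type} [CommRing B] (a : Fin 4 → B) (c : B) :
    MvPolynomial.aeval (fun j => (![1, -1, 1, -1] : Fin 4 → ℤ) j •
      (MvPolynomial.X j : MvPolynomial (Fin 4) B)) (dia a + MvPolynomial.C c) =
      dia a + MvPolynomial.C c := by
  rw [map_add, dia, map_sum]
  congr 1
  · refine Finset.sum_congr rfl fun j _ => ?_
    rw [map_mul, map_pow, MvPolynomial.aeval_X, MvPolynomial.aeval_C, MvPolynomial.algebraMap_eq,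
      _root_.smul_pow, pow_two, sgn_sq, one_smul]
  · rw [MvPolynomial.aeval_C, MvPolynomial.algebraMap_eq]

lemma aeval_hp {B : Type} [CommRing B] (c : B) :
    MvPolynomial.aeval (fun j => (![1, 1, -1, -1] : Fin 4 → ℤ) j •
      (MvPolynomial.X j : MvPolynomial (Fin 4) B))
      (MvPolynomial.X 0 * MvPolynomial.X 1 + MvPolynomial.X 2 * MvPolynomial.X 3 +
        MvPolynomial.C c) =
      MvPolynomial.X 0 * MvPolynomial.X 1 + MvPolynomial.X 2 * MvPolynomial.X 3 +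
        MvPolynomial.C c := by
  simp only [map_add, map_mul, MvPolynomial.aeval_X, MvPolynomial.aeval_C,
    MvPolynomial.algebraMap_eq]
  simp

lemma hp_sq (j : Fin 4) : (![1, 1, -1, -1] : Fin 4 → ℤ) j * (![1, 1, -1, -1] : Fin 4 → ℤ) j = 1 := by
  fin_cases j <;> rfl

variable {k E : Type} [Field k] [Field E] [CharZero E] {T : ∀ i : ℕ, Homology.{v} k E i}

/-- Two hyperbolic planes. -/
lemma split (hT : Full T) (hP : Pub T hT) (h1 : S_EHT.{v}) (h3 : S_ESG) (h4 : S_ESP)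
    (h2 : (2 : k) ≠ 0) {B : Type} [CommRing B] [Algebra k B] [Algebra.FiniteType k B]
    (a : Fin 4 → B) (c : B) (w : QC B a c ≃ₐ[k] QC B a c) (ha : ∀ j, IsUnit (a j))
    (hw : Sgn ![1, -1, 1, -1] w) (s₁ s₂ : B) (hs₁ : s₁ ^ 2 * a 0 = - a 2)
    (hs₂ : s₂ ^ 2 * a 1 = - a 3) (i : ℕ) : TR T (i + 2) (QC B a c) w := by
  obtain ⟨θ, hθ⟩ := h4 k B a c s₁ s₂ h2 ha hs₁ hs₂
  obtain ⟨w', hw'⟩ := h3 k B 4 _ ![1, 1, -1, -1] hp_sq (aeval_hp c)
  refine t_OISO k E T hT (HP B c) (QC B a c) w' w θ.symm (fun x => ?_) (i + 2)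
    (h1 k E T hT hP B c w' hw' i)
  rw [AlgEquiv.symm_apply_eq, hθ w w' hw hw', AlgEquiv.apply_symm_apply]

/-- Descent from a double cover of the base. -/
lemma desc (hT : Full T) (hP : Pub T hT) (h2 : S_EBC) (h3 : S_ESG)
    {B : Type} [CommRing B] [Algebra k B] [Algebra.FiniteType k B]
    (a : Fin 4 → B) (c δ : B) (w : QC B a c ≃ₐ[k] QC B a c)
    (hw : Sgn ![1, -1, 1, -1] w) (i : ℕ)
    (H : ∀ w' : QC (Dr B 0 δ) (fun j => algebraMap B (Dr B 0 δ) (a j))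
      (algebraMap B (Dr B 0 δ) c) ≃ₐ[k] QC (Dr B 0 δ) (fun j => algebraMap B (Dr B 0 δ) (a j))
      (algebraMap B (Dr B 0 δ) c), Sgn ![1, -1, 1, -1] w' →
      TR T i (QC (Dr B 0 δ) (fun j => algebraMap B (Dr B 0 δ) (a j))
        (algebraMap B (Dr B 0 δ) c)) w') : TR T i (QC B a c) w := by
  obtain ⟨e, he, -⟩ := h2 k B a c δ
  obtain ⟨w', hw'⟩ := h3 k (Dr B 0 δ) 4 (dia (fun j => algebraMap B (Dr B 0 δ) (a j)) +
    MvPolynomial.C (algebraMap B (Dr B 0 δ) c)) ![1, -1, 1, -1] sgn_sq (aeval_dia _ _)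
  have h5 := t_OISO k E T hT _ _ w' ((e.trans w').trans e.symm) e.symm (fun x => by
    rw [AlgEquiv.trans_apply, AlgEquiv.trans_apply, AlgEquiv.apply_symm_apply]) i (H w' hw')
  refine t_ODCV k E T hT hP (QC B a c) 0 (Ideal.Quotient.mk _ (MvPolynomial.C δ)) w
    ((e.trans w').trans e.symm) (fun x => ?_) i h5
  rw [AlgEquiv.trans_apply, AlgEquiv.trans_apply, AlgEquiv.symm_apply_eq]
  obtain ⟨p, rfl⟩ := Ideal.Quotient.mk_surjective x
  rw [he]
  induction p using MvPolynomial.induction_on with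
  | C b => rw [hw.1, he, MvPolynomial.map_C, hw'.1]
  | add p q hp hq => simp only [map_add, hp, hq]
  | mul_X p j hp =>
    simp only [map_mul, hp, MvPolynomial.map_X]
    rw [hw.2, hw'.2, map_zsmul, map_zsmul, he, MvPolynomial.map_X]

end EQT

open _root_.QCV.EQT in
/-- EQT. -/
theorem t_EQT : M_EQT.{v} := by
  intro h1 h2 h3 h4 k E _ _ _ T hT hP hk B _ _ _ a c w ha hw i
  -- division by a unit
  have hdiv : ∀ {R : Type} [CommRing R] (x y : R), IsUnit x → ∃ δ : R, δ * x = y := by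
    intro R _ x y hx
    obtain ⟨u, rfl⟩ := hx
    exact ⟨y * ↑u⁻¹, by rw [mul_assoc, Units.inv_mul, mul_one]⟩
  obtain ⟨δ₁, hδ₁⟩ := hdiv (a 0) (a 2) (ha 0)
  refine desc hT hP h2 h3 a c δ₁ w hw (i + 2) fun w₁ hw₁ => ?_
  obtain ⟨δ₂, hδ₂⟩ := hdiv (algebraMap B (Dr B 0 δ₁) (a 1)) (algebraMap B (Dr B 0 δ₁) (a 3))
    ((ha 1).map _)
  refine desc hT hP h2 h3 _ _ δ₂ w₁ hw₁ (i + 2) fun w₂ hw₂ => ?_
  refine split hT hP h1 h3 h4 hk _ _ w₂ (fun j => ((ha j).map _).map _) hw₂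
    (algebraMap _ _ (rt 0 δ₁)) (rt 0 δ₂) ?_ ?_ i
  · have h5 := rt_eq 0 δ₁
    rw [map_zero, zero_mul, add_zero] at h5
    rw [← map_pow, ← map_mul, ← map_neg]
    congr 1
    rw [← hδ₁, map_mul]
    linear_combination (algebraMap B (Dr B 0 δ₁) (a 0)) * h5
  · have h5 := rt_eq 0 δ₂
    rw [map_zero, zero_mul, add_zero] at h5
    rw [← hδ₂, map_mul]
    linear_combination (algebraMap (Dr B 0 δ₁) (Dr (Dr B 0 δ₁) 0 δ₂)
      (algebraMap B (Dr B 0 δ₁) (a 1))) * h5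

end QCV


end
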