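import Mathlib
import Pool.Agent.QVM.C32
import Pool.Agent.QVM.C46
import Pool.Agent.QVM.C48
import Pool.Agent.QVM.C59
import Pool.Agent.QVM.C60

/-! Parts: QCV.E_EGM -/

section

/-!
# QCV, block E: the automorphism `X ↦ - X` of `B[X, 1 / X]` (EGM)
-/

set_option autoImplicit false

open CategoryTheory AlgebraicGeometry Limits Polynomial TopologicalSpace

namespace QCV

open Pool.Agent.Lib_helper55.Beil Pool.Agent.Lib_helper66.OneP CUB

universe v

namespace EGM

variable {k : Type} [Field k] {E : Type} [Field E] {T : ∀ i : ℕ, Homology.{v} k E i}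

/-- Homology: an involution of the open part, which extends to an automorphism acting trivially on
the homology of the ambient variety and of the closed part. -/
theorem hom [CharZero E] (hT : Full T) (hP : Pub T hT) (i n : ℕ) {Z U X : Var k}
    (a : ClosedIn Z X) (j : OpenIn U X) (h : Complementary a j) (tX : ClosedIn X X)
    (tZ : ClosedIn Z Z) (tU : ClosedIn U U) (hU2 : tU.g ≫ tU.g = 𝟙 U.X)
    (hZ : a.g ≫ tX.g = tZ.g ≫ a.g) (hU : IsPullback j.g tU.g tX.g j.g)
    (h1 : ∀ m : (T i).H n Z, (T i).P n tZ m = m)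
    (h2 : ∀ m : (T i).H (n + 1) X, (T i).P (n + 1) tX m = m) (m : (T i).H (n + 1) U) :
    (T i).P (n + 1) tU m = m := by
  have e1 : bdl hT i n a j h ((T i).P (n + 1) tU m - m) = 0 := by
    rw [map_sub, ← bdl_push hT i n a j h a j h tZ tU tX hZ hU.w m, h1, sub_self]
  obtain ⟨x, hx⟩ := (hP.resExact i n a j h _).mp e1
  have hx' : (T i).R (n + 1) j x = (T i).P (n + 1) tU m - m := hx
  have e3 : (T i).P (n + 1) tU ((T i).P (n + 1) tU m - m) = (T i).P (n + 1) tU m - m := by
    rw [← hx', ← res_push hT i (n + 1) tX tU j j hU x, h2]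
  have e6 : (T i).P (n + 1) tU ((T i).P (n + 1) tU m - m) = -((T i).P (n + 1) tU m - m) := by
    have e7 : (T i).P (n + 1) tU ((T i).P (n + 1) tU m - m) =
      (T i).P (n + 1) tU ((T i).P (n + 1) tU m) - (T i).P (n + 1) tU m :=
        map_sub ((T i).push (n + 1) tU) _ _
    have e8 := hT.push_comp i (n + 1) _ _ _ tU tU (tU.trans tU) rfl m
    have e9 := hT.push_id i (n + 1) U (tU.trans tU) hU2 m
    rw [e7, e8, e9, neg_sub]
  exact sub_eq_zero.mp (OGLU.two_mul_zero (E := E) _ (e3.symm.trans e6))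

/-- Cycles. -/
theorem cyc {i : ℕ} {U X : Var k} (j : OpenIn U X) (tX : ClosedIn X X) (tU : ClosedIn U U)
    (hU : j.g ≫ tX.g = tU.g ≫ j.g) (hs : Set.range tU.g = Set.univ)
    (h : ∀ c : Pts i X →₀ E, c - pushCyc tX c ∈ ratZero E i X) (c : Pts i U →₀ E) :
    c - pushCyc tU c ∈ ratZero E i U := by
  obtain ⟨c', rfl⟩ := exists_resCyc j c
  rw [← OGLU.resCyc_pushCyc' j tX tU hU hs, ← map_sub]
  exact resCyc_ratZero j _ (h c')

end EGM

open OGLU

/-- **EGM**. -/
theorem t_EGM : S_EGM.{v} := by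
  intro k E _ _ _ T hT hP B _ _ _ wX wU hC hX hU i
  -- the strata
  let z : B[X] →ₐ[k] B := (Polynomial.aeval (R := B) (0 : B)).restrictScalars k
  let u : B[X] →ₐ[k] Localization.Away (X : B[X]) := awayHom k (X : B[X])
  have hzC : ∀ b, z (C b) = b := fun b => Polynomial.aeval_C (R := B) (0 : B) b
  have hz0 : ∀ p, z p = p.coeff 0 := fun p => by
    change Polynomial.aeval (R := B) (0 : B) p = _
    rw [Polynomial.coeff_zero_eq_aeval_zero]
  have s : Strat (X : B[X]) z u := by
    refine ⟨fun b => ⟨C b, hzC b⟩, ?_, isLocalization_awayHom (X : B[X])⟩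
    ext p
    rw [RingHom.mem_ker, Ideal.mem_span_singleton, Polynomial.X_dvd_iff]
    exact ⟨fun h => (hz0 p).symm.trans h, fun h => (hz0 p).trans h⟩
  have hc := complementary_away u X s.away z s.surj s.ker
  have hi := isIso_autc wX
  have hi' := isIso_autc wU
  have hXX : ∀ p, wX (wX p) = p := by
    intro p
    have h1 : (wX.toAlgHom.comp wX.toAlgHom).toRingHom = RingHom.id B[X] := by
      apply Polynomial.ringHom_ext
      · intro b
        change wX (wX (C b)) = C b
        rw [hC, hC]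
      · change wX (wX X) = X
        rw [hX, map_neg, hX, neg_neg]
    exact RingHom.congr_fun h1 p
  have hUU : ∀ x, wU (wU x) = x := by
    intro x
    have h1 : (wU.toAlgHom.comp wU.toAlgHom).toRingHom = RingHom.id _ := by
      apply IsLocalization.ringHom_ext (Submonoid.powers (X : B[X]))
      refine RingHom.ext fun p => ?_
      change wU (wU (algebraMap B[X] _ p)) = algebraMap B[X] _ p
      rw [hU, hU, hXX]
    exact RingHom.congr_fun h1 x
  have hz : ∀ x, z (wX x) = (AlgEquiv.refl : B ≃ₐ[k] B) (z x) := by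
    intro x
    have h1 : (z.comp wX.toAlgHom).toRingHom = z.toRingHom := by
      apply Polynomial.ringHom_ext
      · intro b
        change z (wX (C b)) = z (C b)
        rw [hC]
      · change z (wX X) = z X
        rw [hX, map_neg, hz0, Polynomial.coeff_X_zero, neg_zero]
    exact RingHom.congr_fun h1 x
  have hu : ∀ x, u (wX x) = wU (u x) := fun x => (hU x).symm
  have c1 : (clo z s.surj).g ≫ (autc wX).g =
      (autc (AlgEquiv.refl : B ≃ₐ[k] B)).g ≫ (clo z s.surj).g :=
    comm_autc wX AlgEquiv.refl z hz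
  have c2 : (opn u (isOpenImmersion_spm u X s.away)).g ≫ (autc wX).g =
      (autc wU).g ≫ (opn u (isOpenImmersion_spm u X s.away)).g :=
    comm_autc wX wU u hu
  have c3 := IsPullback.of_vert_isIso ⟨c2⟩
  have rX : TR T (i + 1) B[X] wX := t_OLN k E T hT B AlgEquiv.refl wX (fun b => hC b) i
    (OHYP.tr_refl T hT B i)
  have rZ : TR T (i + 1) B (AlgEquiv.refl : B ≃ₐ[k] B) := OHYP.tr_refl T hT B (i + 1)
  have hgZ : (autc (AlgEquiv.refl : B ≃ₐ[k] B)).g = 𝟙 (aff k B).X := spm_id
  refine ⟨fun n hn m => ?_, fun c => EGM.cyc _ (autc wX) (autc wU) c2 (range_autc wU) rX.cyc c⟩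
  obtain ⟨n, rfl⟩ : ∃ n', n = n' + 1 := ⟨n - 1, by omega⟩
  exact EGM.hom hT hP (i + 1) n _ _ hc (autc wX) (autc AlgEquiv.refl) (autc wU)
    (autc_autc wU hUU) c1 c3 (fun m => hT.push_id (i + 1) n _ _ hgZ m) (rX.hom (n + 1) hn) m

end QCV


end
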