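import Mathlib
import Pool.Agent.QVM.C47

/-! Parts: QCV.E_ESP, QCV.E_EQI, QCV.E_UG2 -/

section

/-!
# QCV_ESP: coordinates for a form with two hyperbolic planes
-/

set_option autoImplicit false

namespace QCV

namespace ESP

open MvPolynomial

variable {B : Type} [CommRing B]

/-- the homomorphism with given values on the variables -/
noncomputable def ev (v0 v1 v2 v3 : MvPolynomial (Fin 4) B) :
    MvPolynomial (Fin 4) B →ₐ[B] MvPolynomial (Fin 4) B :=
  aeval (![v0, v1, v2, v3] : Fin 4 → MvPolynomial (Fin 4) B)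

lemma ev0 (v0 v1 v2 v3 : MvPolynomial (Fin 4) B) : ev v0 v1 v2 v3 (X 0) = v0 := by
  unfold ev; rw [aeval_X]; rfl

lemma ev1 (v0 v1 v2 v3 : MvPolynomial (Fin 4) B) : ev v0 v1 v2 v3 (X 1) = v1 := by
  unfold ev; rw [aeval_X]; rfl

lemma ev2 (v0 v1 v2 v3 : MvPolynomial (Fin 4) B) : ev v0 v1 v2 v3 (X 2) = v2 := by
  unfold ev; rw [aeval_X]; rfl

lemma ev3 (v0 v1 v2 v3 : MvPolynomial (Fin 4) B) : ev v0 v1 v2 v3 (X 3) = v3 := by
  unfold ev; rw [aeval_X]; rfl

lemma evC (v0 v1 v2 v3 : MvPolynomial (Fin 4) B) (b : B) : ev v0 v1 v2 v3 (C b) = C b := by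
  unfold ev; rw [aeval_C]; rfl

lemma dia4 (a : Fin 4 → B) : dia a = C (a 0) * X 0 ^ 2 + C (a 1) * X 1 ^ 2 + C (a 2) * X 2 ^ 2 +
    C (a 3) * X 3 ^ 2 := by
  unfold dia
  rw [Fin.sum_univ_four]

end ESP

open _root_.QCV.ESP MvPolynomial in
theorem t_ESP : S_ESP := by
  intro k B _ _ _ a c s₁ s₂ h2 ha hs1 hs2
  obtain ⟨u0, hu0⟩ := (ha 0).exists_right_inv
  obtain ⟨u1, hu1⟩ := (ha 1).exists_right_inv
  have hsu1 : IsUnit s₁ := by
    have h3 : IsUnit (s₁ ^ 2 * a 0) := by rw [hs1]; exact (ha 2).neg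
    exact (isUnit_pow_iff (by norm_num)).1 (isUnit_of_mul_isUnit_left h3)
  have hsu2 : IsUnit s₂ := by
    have h3 : IsUnit (s₂ ^ 2 * a 1) := by rw [hs2]; exact (ha 3).neg
    exact (isUnit_pow_iff (by norm_num)).1 (isUnit_of_mul_isUnit_left h3)
  obtain ⟨w1, hw1⟩ := hsu1.exists_right_inv
  obtain ⟨w2, hw2⟩ := hsu2.exists_right_inv
  obtain ⟨h, hh⟩ : ∃ h : B, h = algebraMap k B (1 / 2) := ⟨_, rfl⟩
  have hh2 : 2 * h = 1 := by
    rw [hh, ← map_ofNat (algebraMap k B) 2, ← map_mul, mul_one_div_cancel h2, map_one]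
  -- relations in the polynomial ring
  have r0 : (C (a 0) * C u0 : MvPolynomial (Fin 4) B) = 1 := by rw [← C_mul, hu0, C_1]
  have r1 : (C (a 1) * C u1 : MvPolynomial (Fin 4) B) = 1 := by rw [← C_mul, hu1, C_1]
  have q1 : (C s₁ * C w1 : MvPolynomial (Fin 4) B) = 1 := by rw [← C_mul, hw1, C_1]
  have q2 : (C s₂ * C w2 : MvPolynomial (Fin 4) B) = 1 := by rw [← C_mul, hw2, C_1]
  have rh : (2 * C h : MvPolynomial (Fin 4) B) = 1 := by
    have := congrArg (C : B → MvPolynomial (Fin 4) B) hh2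
    rw [C_mul, C_1] at this
    exact this
  have t1 : (C s₁ ^ 2 * C (a 0) : MvPolynomial (Fin 4) B) = - C (a 2) := by
    rw [← C_pow, ← C_mul, hs1, C_neg]
  have t2 : (C s₂ ^ 2 * C (a 1) : MvPolynomial (Fin 4) B) = - C (a 3) := by
    rw [← C_pow, ← C_mul, hs2, C_neg]
  obtain ⟨v0, hv0⟩ : ∃ v : MvPolynomial (Fin 4) B, v = C h * C u0 * X 0 + C h * X 1 := ⟨_, rfl⟩
  obtain ⟨v2, hv2⟩ : ∃ v : MvPolynomial (Fin 4) B, v = C h * C w1 * (X 1 - C u0 * X 0) := ⟨_, rfl⟩
  obtain ⟨v1, hv1⟩ : ∃ v : MvPolynomial (Fin 4) B, v = C h * C u1 * X 2 + C h * X 3 := ⟨_, rfl⟩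
  obtain ⟨v3, hv3⟩ : ∃ v : MvPolynomial (Fin 4) B, v = C h * C w2 * (X 3 - C u1 * X 2) := ⟨_, rfl⟩
  obtain ⟨y0, hy0⟩ : ∃ v : MvPolynomial (Fin 4) B, v = C (a 0) * (X 0 - C s₁ * X 2) := ⟨_, rfl⟩
  obtain ⟨y1, hy1⟩ : ∃ v : MvPolynomial (Fin 4) B, v = X 0 + C s₁ * X 2 := ⟨_, rfl⟩
  obtain ⟨y2, hy2⟩ : ∃ v : MvPolynomial (Fin 4) B, v = C (a 1) * (X 1 - C s₂ * X 3) := ⟨_, rfl⟩
  obtain ⟨y3, hy3⟩ : ∃ v : MvPolynomial (Fin 4) B, v = X 1 + C s₂ * X 3 := ⟨_, rfl⟩
  -- compositions on the variables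
  have c1 : (ev v0 v1 v2 v3).comp (ev y0 y1 y2 y3) = AlgHom.id B (MvPolynomial (Fin 4) B) := by
    apply MvPolynomial.algHom_ext
    intro i
    rw [AlgHom.comp_apply, AlgHom.id_apply]
    fin_cases i
    · show ev v0 v1 v2 v3 (ev y0 y1 y2 y3 (X 0)) = X 0
      rw [ev0, hy0]
      simp only [map_mul, map_sub, evC, ev0, ev2]
      rw [hv0, hv2]
      linear_combination (2 * C h * X 0) * r0 + X 0 * rh -
        (C h * C (a 0) * (X 1 - C u0 * X 0)) * q1
    · show ev v0 v1 v2 v3 (ev y0 y1 y2 y3 (X 1)) = X 1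
      rw [ev1, hy1]
      simp only [map_mul, map_add, evC, ev0, ev2]
      rw [hv0, hv2]
      linear_combination (C h * (X 1 - C u0 * X 0)) * q1 + X 1 * rh
    · show ev v0 v1 v2 v3 (ev y0 y1 y2 y3 (X 2)) = X 2
      rw [ev2, hy2]
      simp only [map_mul, map_sub, evC, ev1, ev3]
      rw [hv1, hv3]
      linear_combination (2 * C h * X 2) * r1 + X 2 * rh -
        (C h * C (a 1) * (X 3 - C u1 * X 2)) * q2
    · show ev v0 v1 v2 v3 (ev y0 y1 y2 y3 (X 3)) = X 3
      rw [ev3, hy3]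
      simp only [map_mul, map_add, evC, ev1, ev3]
      rw [hv1, hv3]
      linear_combination (C h * (X 3 - C u1 * X 2)) * q2 + X 3 * rh
  have c2 : (ev y0 y1 y2 y3).comp (ev v0 v1 v2 v3) = AlgHom.id B (MvPolynomial (Fin 4) B) := by
    apply MvPolynomial.algHom_ext
    intro i
    rw [AlgHom.comp_apply, AlgHom.id_apply]
    fin_cases i
    · show ev y0 y1 y2 y3 (ev v0 v1 v2 v3 (X 0)) = X 0
      rw [ev0, hv0]
      simp only [map_mul, map_add, evC, ev0, ev1]
      rw [hy0, hy1]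
      linear_combination (C h * (X 0 - C s₁ * X 2)) * r0 + X 0 * rh
    · show ev y0 y1 y2 y3 (ev v0 v1 v2 v3 (X 1)) = X 1
      rw [ev1, hv1]
      simp only [map_mul, map_add, evC, ev2, ev3]
      rw [hy2, hy3]
      linear_combination (C h * (X 1 - C s₂ * X 3)) * r1 + X 1 * rh
    · show ev y0 y1 y2 y3 (ev v0 v1 v2 v3 (X 2)) = X 2
      rw [ev2, hv2]
      simp only [map_mul, map_sub, evC, ev0, ev1]
      rw [hy0, hy1]
      linear_combination (- C h * C w1 * (X 0 - C s₁ * X 2)) * r0 + (2 * C h * X 2) * q1 +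
        X 2 * rh
    · show ev y0 y1 y2 y3 (ev v0 v1 v2 v3 (X 3)) = X 3
      rw [ev3, hv3]
      simp only [map_mul, map_sub, evC, ev2, ev3]
      rw [hy2, hy3]
      linear_combination (- C h * C w2 * (X 1 - C s₂ * X 3)) * r1 + (2 * C h * X 3) * q2 +
        X 3 * rh
  obtain ⟨e, he⟩ : ∃ e : MvPolynomial (Fin 4) B ≃ₐ[k] MvPolynomial (Fin 4) B,
      ∀ p, e p = ev v0 v1 v2 v3 p :=
    ⟨(AlgEquiv.ofAlgHom (ev v0 v1 v2 v3) (ev y0 y1 y2 y3) c1 c2).restrictScalars k, fun p => rfl⟩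
  have hF : e (dia a + C c) = X 0 * X 1 + X 2 * X 3 + C c := by
    rw [he, dia4]
    simp only [map_add, map_mul, map_pow, evC, ev0, ev1, ev2, ev3]
    have g1 : C (a 0) * v0 ^ 2 + C (a 2) * v2 ^ 2 =
        (C (a 0) * (v0 - C s₁ * v2)) * (v0 + C s₁ * v2) := by
      linear_combination v2 ^ 2 * t1
    have g2 : C (a 1) * v1 ^ 2 + C (a 3) * v3 ^ 2 =
        (C (a 1) * (v1 - C s₂ * v3)) * (v1 + C s₂ * v3) := by
      linear_combination v3 ^ 2 * t2
    have g3 : C (a 0) * (v0 - C s₁ * v2) = X 0 := by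
      have := DFunLike.congr_fun c1 (X 0)
      rw [AlgHom.comp_apply, AlgHom.id_apply, ev0, hy0] at this
      simpa only [map_mul, map_sub, evC, ev0, ev2] using this
    have g4 : v0 + C s₁ * v2 = X 1 := by
      have := DFunLike.congr_fun c1 (X 1)
      rw [AlgHom.comp_apply, AlgHom.id_apply, ev1, hy1] at this
      simpa only [map_mul, map_add, evC, ev0, ev2] using this
    have g5 : C (a 1) * (v1 - C s₂ * v3) = X 2 := by
      have := DFunLike.congr_fun c1 (X 2)
      rw [AlgHom.comp_apply, AlgHom.id_apply, ev2, hy2] at this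
      simpa only [map_mul, map_sub, evC, ev1, ev3] using this
    have g6 : v1 + C s₂ * v3 = X 3 := by
      have := DFunLike.congr_fun c1 (X 3)
      rw [AlgHom.comp_apply, AlgHom.id_apply, ev3, hy3] at this
      simpa only [map_mul, map_add, evC, ev1, ev3] using this
    rw [g3, g4] at g1
    rw [g5, g6] at g2
    linear_combination g1 + g2
  have hI : (Ideal.span {(X 0 * X 1 + X 2 * X 3 + C c : MvPolynomial (Fin 4) B)}) =
      (Ideal.span {(dia a + C c : MvPolynomial (Fin 4) B)}).map (e : _ →+* _) := by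
    rw [Ideal.map_span, Set.image_singleton]
    congr 1
    exact congrArg _ hF.symm
  refine ⟨Ideal.quotientEquivAlg _ _ e hI, fun w w' hw hw' x => ?_⟩
  have hθ : ∀ p, Ideal.quotientEquivAlg _ _ e hI (Ideal.Quotient.mk _ p) =
      Ideal.Quotient.mk _ (e p) := fun p => rfl
  have hc : ((Ideal.quotientEquivAlg _ _ e hI : QC B a c ≃ₐ[k] HP B c) : QC B a c →+* HP B c).comp
      (w : QC B a c →+* QC B a c) = (w' : HP B c →+* HP B c).comp
        ((Ideal.quotientEquivAlg _ _ e hI : QC B a c ≃ₐ[k] HP B c) : QC B a c →+* HP B c) := by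
    apply Ideal.Quotient.ringHom_ext
    apply MvPolynomial.ringHom_ext
    · intro b
      show Ideal.quotientEquivAlg _ _ e hI (w (Ideal.Quotient.mk _ (C b))) =
        w' (Ideal.quotientEquivAlg _ _ e hI (Ideal.Quotient.mk _ (C b)))
      rw [hw.1, hθ, he, evC, hw'.1]
    · intro j
      show Ideal.quotientEquivAlg _ _ e hI (w (Ideal.Quotient.mk _ (X j))) =
        w' (Ideal.quotientEquivAlg _ _ e hI (Ideal.Quotient.mk _ (X j)))
      have x0 := hw'.2 0
      have x1 := hw'.2 1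
      have x2 := hw'.2 2
      have x3 := hw'.2 3
      rw [show (![1, 1, -1, -1] : Fin 4 → ℤ) 0 = 1 from rfl, one_smul] at x0
      rw [show (![1, 1, -1, -1] : Fin 4 → ℤ) 1 = 1 from rfl, one_smul] at x1
      rw [show (![1, 1, -1, -1] : Fin 4 → ℤ) 2 = -1 from rfl, neg_one_smul] at x2
      rw [show (![1, 1, -1, -1] : Fin 4 → ℤ) 3 = -1 from rfl, neg_one_smul] at x3
      rw [hw.2, map_zsmul, hθ, he]
      fin_cases j
      · show (1 : ℤ) • Ideal.Quotient.mk _ (ev v0 v1 v2 v3 (X 0)) =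
          w' (Ideal.Quotient.mk _ (ev v0 v1 v2 v3 (X 0)))
        rw [one_smul, ev0, hv0]
        simp only [map_add, map_mul, hw'.1, x0, x1]
      · show (-1 : ℤ) • Ideal.Quotient.mk _ (ev v0 v1 v2 v3 (X 1)) =
          w' (Ideal.Quotient.mk _ (ev v0 v1 v2 v3 (X 1)))
        rw [neg_one_smul, ev1, hv1]
        simp only [map_add, map_mul, hw'.1, x2, x3]
        ring
      · show (1 : ℤ) • Ideal.Quotient.mk _ (ev v0 v1 v2 v3 (X 2)) =
          w' (Ideal.Quotient.mk _ (ev v0 v1 v2 v3 (X 2)))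
        rw [one_smul, ev2, hv2]
        simp only [map_sub, map_mul, hw'.1, x0, x1]
      · show (-1 : ℤ) • Ideal.Quotient.mk _ (ev v0 v1 v2 v3 (X 3)) =
          w' (Ideal.Quotient.mk _ (ev v0 v1 v2 v3 (X 3)))
        rw [neg_one_smul, ev3, hv3]
        simp only [map_sub, map_mul, hw'.1, x2, x3]
        ring
  exact DFunLike.congr_fun hc x

end QCV


end

section

/-!
# QCV, block E: the first four variables of a diagonal form
-/

set_option autoImplicit false

namespace QCV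

namespace E_EQI

open MvPolynomial

/-- The first four variables are the outer ones. -/
def idx (m : ℕ) : Fin (2 * (m + 2)) ≃ Fin 4 ⊕ Fin (2 * m) :=
  (finCongr (show 2 * (m + 2) = 4 + 2 * m by omega)).trans finSumFinEquiv.symm

lemma idx_symm_inl (m : ℕ) (i : Fin 4) : (idx m).symm (Sum.inl i) = ⟨i.1, by omega⟩ := by
  rw [idx, Equiv.symm_trans_apply]
  ext
  simp only [Equiv.symm_symm, finSumFinEquiv_apply_left, finCongr_symm, finCongr_apply,
    Fin.val_cast, Fin.val_castAdd]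

lemma idx_symm_inr (m : ℕ) (i : Fin (2 * m)) :
    (idx m).symm (Sum.inr i) = ⟨i.1 + 4, by omega⟩ := by
  rw [idx, Equiv.symm_trans_apply]
  ext
  simp only [Equiv.symm_symm, finSumFinEquiv_apply_right, finCongr_symm, finCongr_apply,
    Fin.val_cast, Fin.val_natAdd]
  omega

variable {A : Type} [CommRing A]

/-- Polynomials in `2 (m + 2)` variables as polynomials in four variables. -/
noncomputable def spl (m : ℕ) : MvPolynomial (Fin (2 * (m + 2))) A ≃ₐ[A]
    MvPolynomial (Fin 4) (MvPolynomial (Fin (2 * m)) A) :=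
  (renameEquiv A (idx m)).trans (sumAlgEquiv A (Fin 4) (Fin (2 * m)))

lemma spl_inl (m : ℕ) (i : Fin 4) :
    spl (A := A) m (X ((idx m).symm (Sum.inl i))) = X i := by
  rw [spl, AlgEquiv.trans_apply, renameEquiv_apply, rename_X, Equiv.apply_symm_apply,
    sumAlgEquiv_X_inl]

lemma spl_inr (m : ℕ) (i : Fin (2 * m)) :
    spl (A := A) m (X ((idx m).symm (Sum.inr i))) = C (X i) := by
  rw [spl, AlgEquiv.trans_apply, renameEquiv_apply, rename_X, Equiv.apply_symm_apply,
    sumAlgEquiv_X_inr]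

lemma spl_C (m : ℕ) (c : A) : spl (A := A) m (C c) = C (C c) := by
  rw [spl, AlgEquiv.trans_apply, renameEquiv_apply, rename_C, sumAlgEquiv_C_inl]

lemma spl_dia (m : ℕ) (a : Fin (2 * (m + 2)) → A) :
    spl m (dia a) = dia (fun j : Fin 4 => (C (a ⟨j.1, by omega⟩) : MvPolynomial (Fin (2 * m)) A)) +
      C (dia fun j : Fin (2 * m) => a ⟨j.1 + 4, by omega⟩) := by
  unfold dia
  rw [map_sum, ← (idx m).symm.sum_comp, Fintype.sum_sum_type, map_sum]
  congr 1
  · refine Finset.sum_congr rfl fun i _ => ?_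
    rw [map_mul, map_pow, spl_C, spl_inl, idx_symm_inl]
  · refine Finset.sum_congr rfl fun i _ => ?_
    rw [map_mul, map_pow, spl_C, spl_inr, idx_symm_inr, map_mul, map_pow]

end E_EQI

theorem t_EQI : S_EQI := by
  intro k A _ _ _ m a
  refine ⟨Ideal.quotientEquivAlg _ _ ((E_EQI.spl m).restrictScalars k) ?_⟩
  rw [Ideal.map_span, Set.image_singleton]
  exact congrArg (fun y => Ideal.span {y}) (E_EQI.spl_dia m a).symm

end QCV


end

section

/-!
# UG2: the open part of `x_0 ^ 2 = g x_1 ^ 2`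
-/

set_option autoImplicit false

open Polynomial

namespace QCV

namespace UG2

variable (k B : Type) [Field k] [CommRing B] [Algebra k B] (g : B)

theorem rt_sq : (rt 0 (-g) : Dr B 0 (-g)) ^ 2 = algebraMap B (Dr B 0 (-g)) g := by
  have h := rt_eq (0 : B) (-g)
  rw [map_zero, map_neg] at h
  linear_combination h

/-- The map `x_0 ↦ t X, x_1 ↦ X`. -/
noncomputable def v : MvPolynomial (Fin 2) B →ₐ[k] (Dr B 0 (-g))[X] :=
  (MvPolynomial.aeval (R := B) ![C (rt 0 (-g)) * X, X]).restrictScalars k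

theorem v_C (b : B) : v k B g (MvPolynomial.C b) = C (algebraMap B (Dr B 0 (-g)) b) := by
  change MvPolynomial.aeval (R := B) ![C (rt 0 (-g)) * X, X] (MvPolynomial.C b) = _
  rw [MvPolynomial.aeval_C]
  rfl

theorem v_X0 : v k B g (MvPolynomial.X 0) = C (rt 0 (-g)) * X := by
  change MvPolynomial.aeval (R := B) ![C (rt 0 (-g)) * X, X] (MvPolynomial.X 0) = _
  rw [MvPolynomial.aeval_X]
  rfl

theorem v_X1 : v k B g (MvPolynomial.X 1) = X := by
  change MvPolynomial.aeval (R := B) ![C (rt 0 (-g)) * X, X] (MvPolynomial.X 1) = _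
  rw [MvPolynomial.aeval_X]
  rfl

theorem v_eq : v k B g (MvPolynomial.X 0 ^ 2 - MvPolynomial.C g * MvPolynomial.X 1 ^ 2) = 0 := by
  rw [map_sub, map_mul, map_pow, map_pow, v_C, v_X0, v_X1, mul_pow, ← C_pow, rt_sq, sub_self]

end UG2

open _root_.QCV.UG2

theorem t_UG2 : S_UG2 := by
  intro k B _ _ _ g
  let f : Fin 1 → MvPolynomial (Fin 2) B :=
    fun _ => MvPolynomial.X 0 ^ 2 - MvPolynomial.C g * MvPolynomial.X 1 ^ 2
  let L := Localization.Away (X : (Dr B 0 (-g))[X])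
  let w : (Dr B 0 (-g))[X] →ₐ[k] L := IsScalarTower.toAlgHom k _ _
  have hz : ∀ a ∈ Ideal.span (Set.range f), (w.comp (v k B g)) a = 0 := by
    intro a ha
    have h1 : Ideal.span (Set.range f) ≤ RingHom.ker (w.comp (v k B g)) := by
      rw [Ideal.span_le]
      rintro _ ⟨i, rfl⟩
      change w (v k B g (MvPolynomial.X 0 ^ 2 - MvPolynomial.C g * MvPolynomial.X 1 ^ 2)) = 0
      rw [v_eq, map_zero]
    exact h1 ha
  let u : ER f →ₐ[k] L := Ideal.Quotient.liftₐ _ (w.comp (v k B g)) hz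
  have hu : ∀ F, u (Ideal.Quotient.mk _ F) = algebraMap _ L (v k B g F) := fun F => rfl
  refine ⟨u, ?_⟩
  let _ : Algebra (ER f) L := u.toRingHom.toAlgebra
  let m : MvPolynomial (Fin 2) B →+* ER f := Ideal.Quotient.mk (Ideal.span (Set.range f))
  have hm : m (MvPolynomial.X 0) ^ 2 = m (MvPolynomial.C g) * m (MvPolynomial.X 1) ^ 2 := by
    rw [← sub_eq_zero, ← map_pow, ← map_pow, ← map_mul, ← map_sub]
    exact Ideal.Quotient.eq_zero_iff_mem.2 (Ideal.subset_span ⟨0, rfl⟩)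
  have hux : IsUnit (u.toRingHom (m (MvPolynomial.X 1))) := by
    change IsUnit (algebraMap _ L (v k B g (MvPolynomial.X 1)))
    rw [v_X1]
    exact IsLocalization.Away.algebraMap_isUnit (S := L) (X : (Dr B 0 (-g))[X])
  let W := Localization.Away (m (MvPolynomial.X 1))
  let a : ER f →+* W := algebraMap (ER f) W
  let i : W := IsLocalization.Away.invSelf (m (MvPolynomial.X 1))
  have hi : a (m (MvPolynomial.X 1)) * i = 1 :=
    IsLocalization.Away.mul_invSelf (S := W) (m (MvPolynomial.X 1))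
  have hr : (dpoly 0 (-g)).eval₂ (a.comp (m.comp MvPolynomial.C))
      (a (m (MvPolynomial.X 0)) * i) = 0 := by
    rw [eval₂_dpoly, map_zero, map_neg]
    have h1 : a (m (MvPolynomial.X 0)) ^ 2 = a (m (MvPolynomial.C g)) *
        a (m (MvPolynomial.X 1)) ^ 2 := by
      rw [← map_pow, hm, map_mul, map_pow]
    change (a (m (MvPolynomial.X 0)) * i) ^ 2 + 0 * (a (m (MvPolynomial.X 0)) * i) +
      -(a (m (MvPolynomial.C g))) = 0
    linear_combination i ^ 2 * h1 + a (m (MvPolynomial.C g)) *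
      (a (m (MvPolynomial.X 1)) * i + 1) * hi
  let δ : Dr B 0 (-g) →+* W :=
    AdjoinRoot.lift (a.comp (m.comp MvPolynomial.C)) (a (m (MvPolynomial.X 0)) * i) hr
  have hδ : ∀ b : B, δ (algebraMap B _ b) = a (m (MvPolynomial.C b)) := fun b =>
    AdjoinRoot.lift_of _
  have hδt : δ (rt 0 (-g)) = a (m (MvPolynomial.X 0)) * i := AdjoinRoot.lift_root _
  let e : (Dr B 0 (-g))[X] →+* W := Polynomial.eval₂RingHom δ (a (m (MvPolynomial.X 1)))
  have heX : e X = a (m (MvPolynomial.X 1)) := Polynomial.eval₂_X _ _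
  have heC : ∀ d, e (C d) = δ d := fun d => Polynomial.eval₂_C _ _
  have heU : IsUnit (e X) := by
    rw [heX]
    exact IsLocalization.Away.algebraMap_isUnit (S := W) (m (MvPolynomial.X 1))
  let ε : L →+* W := IsLocalization.Away.lift (X : (Dr B 0 (-g))[X]) heU
  have hε : ∀ p, ε (algebraMap _ L p) = e p := fun p => IsLocalization.Away.lift_eq _ heU p
  let η : W →+* L := IsLocalization.Away.lift (m (MvPolynomial.X 1)) hux
  have hη : ∀ r, η (a r) = u r := fun r => IsLocalization.Away.lift_eq _ hux r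
  have hηx : ∀ F, η (a (m F)) = algebraMap _ L (v k B g F) := fun F => (hη _).trans (hu F)
  have hηi : algebraMap _ L (X : (Dr B 0 (-g))[X]) * η i = 1 := by
    have h := congrArg η hi
    rw [map_mul, map_one, hηx, v_X1] at h
    exact h
  have h1 : η.comp ε = RingHom.id L := by
    refine IsLocalization.ringHom_ext (Submonoid.powers (X : (Dr B 0 (-g))[X])) ?_
    refine Polynomial.ringHom_ext' ?_ ?_
    · refine AdjoinRoot.ringHom_ext ?_ ?_
      · ext b
        change η (ε (algebraMap _ L (C (algebraMap B (Dr B 0 (-g)) b)))) =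
          algebraMap _ L (C (algebraMap B (Dr B 0 (-g)) b))
        rw [hε, heC, hδ, hηx, v_C]
      · change η (ε (algebraMap _ L (C (rt 0 (-g))))) = algebraMap _ L (C (rt 0 (-g)))
        rw [hε, heC, hδt, map_mul, hηx, v_X0, map_mul, mul_assoc, hηi, mul_one]
    · change η (ε (algebraMap _ L X)) = algebraMap _ L X
      rw [hε, heX, hηx, v_X1]
  have h2 : ε.comp η = RingHom.id W := by
    refine IsLocalization.ringHom_ext (Submonoid.powers (m (MvPolynomial.X 1))) ?_
    refine Ideal.Quotient.ringHom_ext ?_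
    refine MvPolynomial.ringHom_ext (fun b => ?_) (fun j => ?_)
    · change ε (η (a (m (MvPolynomial.C b)))) = a (m (MvPolynomial.C b))
      rw [hηx, hε, v_C, heC, hδ]
    · change ε (η (a (m (MvPolynomial.X j)))) = a (m (MvPolynomial.X j))
      rw [hηx, hε]
      fin_cases j
      · change e (v k B g (MvPolynomial.X 0)) = a (m (MvPolynomial.X 0))
        rw [v_X0, map_mul, heC, heX, hδt, mul_assoc, mul_comm i, hi, mul_one]
      · change e (v k B g (MvPolynomial.X 1)) = a (m (MvPolynomial.X 1))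
        rw [v_X1, heX]
  exact IsLocalization.isLocalization_of_algEquiv (Submonoid.powers (m (MvPolynomial.X 1)))
    (AlgEquiv.ofRingEquiv (R := ER f) (f := RingEquiv.ofRingHom η ε h1 h2) hη)

end QCV


end
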