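import Mathlib
import Pool.Agent.QVM.C30
import Pool.Agent.QVM.C47
import Pool.Agent.QVM.C48
import Pool.Agent.QVM.C73

/-! Parts: QCV.E_EHP -/

section

/-!
# QCV, block E: the strata `x_0 = 0` and `x_0 ≠ 0` of `B[x_0, ..., x_3] / (x_0 x_1 + x_2 x_3 + c)`
-/

set_option autoImplicit false
set_option maxHeartbeats 4000000

open Polynomial

namespace QCV

open CUB VRQ

namespace EHP

variable {k : Type} [Field k] {B : Type} [CommRing B] [Algebra k B] (c : B)

variable (k) in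
/-- The projection. -/
noncomputable def pm : MvPolynomial (Fin 4) B →ₐ[k] HP B c := Ideal.Quotient.mkₐ k _

lemma pm_surj : Function.Surjective (pm k c) := Ideal.Quotient.mkₐ_surjective k _

lemma pm_rel : pm k c (MvPolynomial.X 0) * pm k c (MvPolynomial.X 1) +
    pm k c (MvPolynomial.X 2) * pm k c (MvPolynomial.X 3) + pm k c (MvPolynomial.C c) = 0 := by
  rw [← map_mul, ← map_mul, ← map_add, ← map_add]
  exact Ideal.Quotient.eq_zero_iff_mem.mpr (Ideal.subset_span rfl)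

variable {c} in
lemma hp_ext {K : Type} [CommRing K] [Algebra k K] {α β : HP B c →ₐ[k] K}
    (h : ∀ b, α (pm k c (MvPolynomial.C b)) = β (pm k c (MvPolynomial.C b)))
    (h0 : α (pm k c (MvPolynomial.X 0)) = β (pm k c (MvPolynomial.X 0)))
    (h1 : α (pm k c (MvPolynomial.X 1)) = β (pm k c (MvPolynomial.X 1)))
    (h2 : α (pm k c (MvPolynomial.X 2)) = β (pm k c (MvPolynomial.X 2)))
    (h3 : α (pm k c (MvPolynomial.X 3)) = β (pm k c (MvPolynomial.X 3))) : α = β := by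
  have e : α.comp (pm k c) = β.comp (pm k c) := by
    refine mv_ext h fun j => ?_
    fin_cases j
    · exact h0
    · exact h1
    · exact h2
    · exact h3
  refine AlgHom.ext fun x => ?_
  obtain ⟨p, rfl⟩ := pm_surj (k := k) c x
  exact AlgHom.congr_fun e p

section lift

variable {K : Type} [CommRing K] [Algebra k K] (θ : B →ₐ[k] K) (s₀ s₁ s₂ s₃ : K)
  (h : s₀ * s₁ + s₂ * s₃ + θ c = 0)

/-- The homomorphism which is `θ` on the coefficients and maps the variables to `s₀`, ..., `s₃`. -/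
noncomputable def pl : HP B c →ₐ[k] K :=
  Ideal.Quotient.liftₐ _ (mvs θ ![s₀, s₁, s₂, s₃]) (by
    intro a ha
    obtain ⟨d, rfl⟩ := Ideal.mem_span_singleton.mp ha
    rw [map_mul, map_add, map_add, map_mul, map_mul, mvs_C, mvs_X, mvs_X, mvs_X, mvs_X]
    have h' : (![s₀, s₁, s₂, s₃] : Fin 4 → K) 0 * (![s₀, s₁, s₂, s₃] : Fin 4 → K) 1 +
      (![s₀, s₁, s₂, s₃] : Fin 4 → K) 2 * (![s₀, s₁, s₂, s₃] : Fin 4 → K) 3 + θ c = 0 := h
    rw [h', zero_mul])

lemma pl_C (b : B) : pl c θ s₀ s₁ s₂ s₃ h (pm k c (MvPolynomial.C b)) = θ b :=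
  mvs_C θ ![s₀, s₁, s₂, s₃] b

lemma pl_X0 : pl c θ s₀ s₁ s₂ s₃ h (pm k c (MvPolynomial.X 0)) = s₀ :=
  mvs_X θ ![s₀, s₁, s₂, s₃] 0

lemma pl_X1 : pl c θ s₀ s₁ s₂ s₃ h (pm k c (MvPolynomial.X 1)) = s₁ :=
  mvs_X θ ![s₀, s₁, s₂, s₃] 1

lemma pl_X2 : pl c θ s₀ s₁ s₂ s₃ h (pm k c (MvPolynomial.X 2)) = s₂ :=
  mvs_X θ ![s₀, s₁, s₂, s₃] 2

lemma pl_X3 : pl c θ s₀ s₁ s₂ s₃ h (pm k c (MvPolynomial.X 3)) = s₃ :=
  mvs_X θ ![s₀, s₁, s₂, s₃] 3

end lift

/-! ### The closed stratum -/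

section closed

variable {Q : Type} [CommRing Q] [Algebra k Q] (q : MvPolynomial (Fin 2) B →ₐ[k] Q)

lemma z_factor
    (hu : ∀ (K : Type) [CommRing K] [Algebra k K] (θ : B →ₐ[k] K) (s₀ s₁ : K),
      s₀ * s₁ + θ c = 0 → ∃ m : Q →ₐ[k] K, (∀ b, m (q (MvPolynomial.C b)) = θ b) ∧
        m (q (MvPolynomial.X 0)) = s₀ ∧ m (q (MvPolynomial.X 1)) = s₁)
    (z : HP B c →ₐ[k] Q[X])
    (zC : ∀ b, z (pm k c (MvPolynomial.C b)) = C (q (MvPolynomial.C b)))
    (z0 : z (pm k c (MvPolynomial.X 0)) = 0) (z1 : z (pm k c (MvPolynomial.X 1)) = X)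
    (z2 : z (pm k c (MvPolynomial.X 2)) = C (q (MvPolynomial.X 0)))
    (z3 : z (pm k c (MvPolynomial.X 3)) = C (q (MvPolynomial.X 1)))
    {K : Type} [CommRing K] [Algebra k K] (m : HP B c →ₐ[k] K)
    (hm0 : m (pm k c (MvPolynomial.X 0)) = 0) {x : HP B c} (hx : z x = 0) : m x = 0 := by
  let m0 : B →ₐ[k] K := (m.comp (pm k c)).comp (mC k (Fin 4) B)
  have hmc : m (pm k c (MvPolynomial.X 2)) * m (pm k c (MvPolynomial.X 3)) + m0 c = 0 := by
    have h := congrArg m (pm_rel (k := k) c)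
    rw [map_add, map_add, map_mul, map_mul, hm0, zero_mul, zero_add, map_zero] at h
    exact h
  obtain ⟨m1, hm1, hm2, hm3⟩ := hu _ m0 _ _ hmc
  let g : Q[X] →ₐ[k] K := evs m1 (m (pm k c (MvPolynomial.X 1)))
  have h1 : m = g.comp z := by
    apply hp_ext
    · intro b
      rw [AlgHom.comp_apply, zC, evs_C]
      exact (hm1 b).symm
    · rw [AlgHom.comp_apply, z0, map_zero, hm0]
    · rw [AlgHom.comp_apply, z1, evs_X]
    · rw [AlgHom.comp_apply, z2, evs_C]
      exact hm2.symm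
    · rw [AlgHom.comp_apply, z3, evs_C]
      exact hm3.symm
  have h2 := AlgHom.congr_fun h1 x
  rw [AlgHom.comp_apply, hx, map_zero] at h2
  exact h2

lemma z_exists (hq : Function.Surjective q)
    (hr : q (MvPolynomial.X 0) * q (MvPolynomial.X 1) + q (MvPolynomial.C c) = 0)
    (hu : ∀ (K : Type) [CommRing K] [Algebra k K] (θ : B →ₐ[k] K) (s₀ s₁ : K),
      s₀ * s₁ + θ c = 0 → ∃ m : Q →ₐ[k] K, (∀ b, m (q (MvPolynomial.C b)) = θ b) ∧
        m (q (MvPolynomial.X 0)) = s₀ ∧ m (q (MvPolynomial.X 1)) = s₁) :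
    ∃ z : HP B c →ₐ[k] Q[X], Function.Surjective z ∧
      RingHom.ker z.toRingHom = Ideal.span {pm k c (MvPolynomial.X 0)} ∧
      (∀ b, z (pm k c (MvPolynomial.C b)) = C (q (MvPolynomial.C b))) ∧
      z (pm k c (MvPolynomial.X 0)) = 0 ∧ z (pm k c (MvPolynomial.X 1)) = X ∧
      z (pm k c (MvPolynomial.X 2)) = C (q (MvPolynomial.X 0)) ∧
      z (pm k c (MvPolynomial.X 3)) = C (q (MvPolynomial.X 1)) := by
  have h : (0 : Q[X]) * X + C (q (MvPolynomial.X 0)) * C (q (MvPolynomial.X 1)) +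
      ((CC k Q).comp (q.comp (mC k (Fin 2) B))) c = 0 := by
    change (0 : Q[X]) * X + C (q (MvPolynomial.X 0)) * C (q (MvPolynomial.X 1)) +
      C (q (MvPolynomial.C c)) = 0
    rw [zero_mul, zero_add, ← C_mul, ← C_add, hr, C_0]
  let z : HP B c →ₐ[k] Q[X] := pl c _ _ _ _ _ h
  have zC : ∀ b, z (pm k c (MvPolynomial.C b)) = C (q (MvPolynomial.C b)) := pl_C _ _ _ _ _ _ _
  have z0 : z (pm k c (MvPolynomial.X 0)) = 0 := pl_X0 _ _ _ _ _ _ _
  have z1 : z (pm k c (MvPolynomial.X 1)) = X := pl_X1 _ _ _ _ _ _ _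
  have z2 : z (pm k c (MvPolynomial.X 2)) = C (q (MvPolynomial.X 0)) := pl_X2 _ _ _ _ _ _ _
  have z3 : z (pm k c (MvPolynomial.X 3)) = C (q (MvPolynomial.X 1)) := pl_X3 _ _ _ _ _ _ _
  let rho : MvPolynomial (Fin 2) B →ₐ[k] HP B c :=
    mvs ((pm k c).comp (mC k (Fin 4) B)) ![pm k c (MvPolynomial.X 2), pm k c (MvPolynomial.X 3)]
  have zrho : ∀ p, z (rho p) = C (q p) := by
    have h : z.comp rho = (CC k Q).comp q := by
      apply mv_ext
      · intro b
        change z (rho (MvPolynomial.C b)) = C (q (MvPolynomial.C b))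
        have h1 : rho (MvPolynomial.C b) = pm k c (MvPolynomial.C b) := mvs_C _ _ _
        rw [h1, zC]
      · intro j
        fin_cases j
        · change z (rho (MvPolynomial.X 0)) = C (q (MvPolynomial.X 0))
          have h1 : rho (MvPolynomial.X 0) = pm k c (MvPolynomial.X 2) := mvs_X _ _ _
          rw [h1, z2]
        · change z (rho (MvPolynomial.X 1)) = C (q (MvPolynomial.X 1))
          have h1 : rho (MvPolynomial.X 1) = pm k c (MvPolynomial.X 3) := mvs_X _ _ _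
          rw [h1, z3]
    exact fun p => AlgHom.congr_fun h p
  refine ⟨z, ?_, ?_, zC, z0, z1, z2, z3⟩
  · intro p
    induction p using Polynomial.induction_on' with
    | add p q hp hq =>
      obtain ⟨x, hx⟩ := hp
      obtain ⟨y, hy⟩ := hq
      exact ⟨x + y, by rw [map_add, hx, hy]⟩
    | monomial n a =>
      obtain ⟨b, rfl⟩ := hq a
      refine ⟨rho b * pm k c (MvPolynomial.X 1) ^ n, ?_⟩
      rw [map_mul, map_pow, zrho, z1, C_mul_X_pow_eq_monomial]
  · apply le_antisymm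
    · intro x hx
      let I : Ideal (HP B c) := Ideal.span {pm k c (MvPolynomial.X 0)}
      let m : HP B c →ₐ[k] HP B c ⧸ I := Ideal.Quotient.mkₐ k I
      have hm0 : m (pm k c (MvPolynomial.X 0)) = 0 :=
        Ideal.Quotient.eq_zero_iff_mem.mpr (Ideal.subset_span rfl)
      have hx' : z x = 0 := hx
      have h : m x = 0 := @z_factor k _ B _ _ c Q _ _ q hu z zC z0 z1 z2 z3 (HP B c ⧸ I)
        (Ideal.Quotient.commRing I) _ m hm0 x hx'
      exact Ideal.Quotient.eq_zero_iff_mem.mp h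
    · rw [Ideal.span_singleton_le_iff_mem]
      exact z0

lemma z_w (w : HP B c ≃ₐ[k] HP B c) (w₀ : Q ≃ₐ[k] Q) (z : HP B c →ₐ[k] Q[X])
    (zC : ∀ b, z (pm k c (MvPolynomial.C b)) = C (q (MvPolynomial.C b)))
    (z0 : z (pm k c (MvPolynomial.X 0)) = 0) (z1 : z (pm k c (MvPolynomial.X 1)) = X)
    (z2 : z (pm k c (MvPolynomial.X 2)) = C (q (MvPolynomial.X 0)))
    (z3 : z (pm k c (MvPolynomial.X 3)) = C (q (MvPolynomial.X 1)))
    (hC : ∀ b, w (pm k c (MvPolynomial.C b)) = pm k c (MvPolynomial.C b))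
    (h0 : w (pm k c (MvPolynomial.X 0)) = pm k c (MvPolynomial.X 0))
    (h1 : w (pm k c (MvPolynomial.X 1)) = pm k c (MvPolynomial.X 1))
    (h2 : w (pm k c (MvPolynomial.X 2)) = - pm k c (MvPolynomial.X 2))
    (h3 : w (pm k c (MvPolynomial.X 3)) = - pm k c (MvPolynomial.X 3))
    (g0 : ∀ b, w₀ (q (MvPolynomial.C b)) = q (MvPolynomial.C b))
    (g1 : w₀ (q (MvPolynomial.X 0)) = - q (MvPolynomial.X 0))
    (g2 : w₀ (q (MvPolynomial.X 1)) = - q (MvPolynomial.X 1)) :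
    ∃ wZ : Q[X] ≃ₐ[k] Q[X], (∀ x, z (w x) = wZ (z x)) ∧ ∀ a, wZ (C a) = C (w₀ a) := by
  let wZ : Q[X] ≃ₐ[k] Q[X] := Polynomial.mapAlgEquiv w₀
  have hwZC : ∀ a, wZ (C a) = C (w₀ a) := fun a => Polynomial.map_C _
  have hwZX : wZ X = X := Polynomial.map_X _
  refine ⟨wZ, ?_, hwZC⟩
  have h : z.comp w.toAlgHom = wZ.toAlgHom.comp z := by
    apply hp_ext
    · intro b
      change z (w _) = wZ (z _)
      rw [hC, zC, hwZC, g0]
    · change z (w _) = wZ (z _)
      rw [h0, z0, map_zero]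
    · change z (w _) = wZ (z _)
      rw [h1, z1, hwZX]
    · change z (w _) = wZ (z _)
      rw [h2, map_neg, z2, hwZC, g1, C_neg]
    · change z (w _) = wZ (z _)
      rw [h3, map_neg, z3, hwZC, g2, C_neg]
  exact fun x => AlgHom.congr_fun h x

end closed

/-! ### The open stratum -/

section opn

variable {L : Type} [CommRing L] [Algebra k L]

lemma u_rel (x i d : L) (h : x * i = 1) :
    (C (C x) : L[X][X]) * -((C X * X + C (C d)) * C (C i)) + C X * X + C (C d) = 0 := by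
  have h' : (C (C x) : L[X][X]) * C (C i) = 1 := by
    rw [← C_mul, ← C_mul, h, C_1, C_1]
  linear_combination (-(C X * X + C (C d))) * h'

lemma u_exists (g : B[X] →ₐ[k] L)
    (hg : @IsLocalization.Away B[X] _ (X : B[X]) L _ g.toRingHom.toAlgebra) :
    ∃ (i : L) (u : HP B c →ₐ[k] L[X][X]), g X * i = 1 ∧
      @IsLocalization.Away (HP B c) _ (pm k c (MvPolynomial.X 0)) L[X][X] _
        u.toRingHom.toAlgebra ∧
      (∀ b, u (pm k c (MvPolynomial.C b)) = C (C (g (C b)))) ∧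
      u (pm k c (MvPolynomial.X 0)) = C (C (g X)) ∧
      u (pm k c (MvPolynomial.X 1)) = -((C X * X + C (C (g (C c)))) * C (C i)) ∧
      u (pm k c (MvPolynomial.X 2)) = C X ∧ u (pm k c (MvPolynomial.X 3)) = X := by
  let : Algebra B[X] L := g.toRingHom.toAlgebra
  have hg' : IsLocalization.Away (X : B[X]) L := hg
  have hgu : IsUnit (g X) := IsLocalization.Away.algebraMap_isUnit (S := L) (X : B[X])
  obtain ⟨i, hi⟩ := hgu.exists_right_inv
  let u : HP B c →ₐ[k] L[X][X] :=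
    pl c ((CC k L[X]).comp ((CC k L).comp (g.comp (CC k B)))) (C (C (g X)))
      (-((C X * X + C (C (g (C c)))) * C (C i))) (C X) X (u_rel (g X) i (g (C c)) hi)
  have uC : ∀ b, u (pm k c (MvPolynomial.C b)) = C (C (g (C b))) := pl_C _ _ _ _ _ _ _
  have u0 : u (pm k c (MvPolynomial.X 0)) = C (C (g X)) := pl_X0 _ _ _ _ _ _ _
  have u1 : u (pm k c (MvPolynomial.X 1)) = -((C X * X + C (C (g (C c)))) * C (C i)) :=
    pl_X1 _ _ _ _ _ _ _
  have u2 : u (pm k c (MvPolynomial.X 2)) = C X := pl_X2 _ _ _ _ _ _ _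
  have u3 : u (pm k c (MvPolynomial.X 3)) = X := pl_X3 _ _ _ _ _ _ _
  refine ⟨i, u, hi, ?_, uC, u0, u1, u2, u3⟩
  let a : HP B c := pm k c (MvPolynomial.X 0)
  let aw : HP B c →ₐ[k] Localization.Away a := awayHom k a
  let ba : B[X] →ₐ[k] Localization.Away a :=
    evs ((aw.comp (pm k c)).comp (mC k (Fin 4) B)) (aw a)
  have hbaC : ∀ b, ba (C b) = aw (pm k c (MvPolynomial.C b)) := fun b => evs_C _ _ _
  have hbaX : ba X = aw a := evs_X _ _
  have hau : IsUnit (ba X) := by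
    rw [hbaX]
    exact IsLocalization.Away.algebraMap_isUnit a
  have hyu : ∀ y : Submonoid.powers (X : B[X]), IsUnit (ba.toRingHom y) := by
    rintro ⟨_, n, rfl⟩
    change IsUnit (ba (X ^ n))
    rw [map_pow]
    exact hau.pow n
  let β' : L →+* Localization.Away a :=
    IsLocalization.lift (M := Submonoid.powers (X : B[X])) (g := ba.toRingHom) hyu
  have hβ' : ∀ x : B[X], β' (g x) = ba x := fun x =>
    IsLocalization.lift_eq (M := Submonoid.powers (X : B[X])) (g := ba.toRingHom) hyu x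
  let β₀ : L →ₐ[k] Localization.Away a :=
    { β' with
      commutes' := by
        intro r
        change β' (algebraMap k L r) = _
        rw [← g.commutes, hβ', ba.commutes] }
  have hβ₀ : ∀ x : B[X], β₀ (g x) = ba x := hβ'
  let β₁ : L[X] →ₐ[k] Localization.Away a := evs β₀ (aw (pm k c (MvPolynomial.X 2)))
  let β : L[X][X] →ₐ[k] Localization.Away a := evs β₁ (aw (pm k c (MvPolynomial.X 3)))
  have hβc : ∀ y, β (C (C y)) = β₀ y := by
    intro y
    rw [evs_C, evs_C]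
  have hβ2 : β (C X) = aw (pm k c (MvPolynomial.X 2)) := by
    rw [evs_C, evs_X]
  have hβ3 : β X = aw (pm k c (MvPolynomial.X 3)) := evs_X _ _
  have hua : IsUnit (u.toRingHom a) := by
    change IsUnit (u (pm k c (MvPolynomial.X 0)))
    rw [u0]
    exact (hgu.map (C : L →+* L[X])).map (C : L[X] →+* L[X][X])
  let α : Localization.Away a →+* L[X][X] := IsLocalization.Away.lift a hua
  have hα : ∀ x, α (algebraMap (HP B c) _ x) = u x := fun x => IsLocalization.Away.lift_eq a hua x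
  have hα' : ∀ x, α (aw x) = u x := hα
  have h0 : β.comp u = aw := by
    apply hp_ext
    · intro b
      rw [AlgHom.comp_apply, uC, hβc, hβ₀, hbaC]
    · rw [AlgHom.comp_apply, u0, hβc, hβ₀, hbaX]
    · rw [AlgHom.comp_apply, u1, map_neg, map_mul, map_add, map_mul, hβ2, hβ3, hβc, hβc, hβ₀,
        hbaC]
      have h2 : aw (pm k c (MvPolynomial.X 0)) * β₀ i = 1 := by
        have h3 : aw (pm k c (MvPolynomial.X 0)) = β₀ (g X) := by
          rw [hβ₀, hbaX]
        rw [h3, ← map_mul, hi, map_one]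
      have h5 := congrArg aw (pm_rel (k := k) c)
      rw [map_add, map_add, map_mul, map_mul, map_zero] at h5
      linear_combination (-β₀ i) * h5 + aw (pm k c (MvPolynomial.X 1)) * h2
    · rw [AlgHom.comp_apply, u2, hβ2]
    · rw [AlgHom.comp_apply, u3, hβ3]
  refine away_of_inv a _ α β.toRingHom hα ?_ ?_
  · apply IsLocalization.ringHom_ext (Submonoid.powers a)
    refine RingHom.ext fun x => ?_
    change β (α (algebraMap (HP B c) _ x)) = algebraMap (HP B c) _ x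
    rw [hα]
    exact AlgHom.congr_fun h0 x
  · apply Polynomial.ringHom_ext'
    · apply Polynomial.ringHom_ext'
      · apply IsLocalization.ringHom_ext (Submonoid.powers (X : B[X]))
        apply Polynomial.ringHom_ext
        · intro b
          change α (β (C (C (g (C b))))) = C (C (g (C b)))
          rw [hβc, hβ₀, hbaC, hα', uC]
        · change α (β (C (C (g X)))) = C (C (g X))
          rw [hβc, hβ₀, hbaX, hα']
          exact u0
      · change α (β (C X)) = C X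
        rw [hβ2, hα', u2]
    · change α (β X) = X
      rw [hβ3, hα', u3]

lemma u_w (w : HP B c ≃ₐ[k] HP B c) (g : B[X] →ₐ[k] L) (i : L) (u : HP B c →ₐ[k] L[X][X])
    (uC : ∀ b, u (pm k c (MvPolynomial.C b)) = C (C (g (C b))))
    (u0 : u (pm k c (MvPolynomial.X 0)) = C (C (g X)))
    (u1 : u (pm k c (MvPolynomial.X 1)) = -((C X * X + C (C (g (C c)))) * C (C i)))
    (u2 : u (pm k c (MvPolynomial.X 2)) = C X) (u3 : u (pm k c (MvPolynomial.X 3)) = X)
    (hC : ∀ b, w (pm k c (MvPolynomial.C b)) = pm k c (MvPolynomial.C b))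
    (h0 : w (pm k c (MvPolynomial.X 0)) = pm k c (MvPolynomial.X 0))
    (h1 : w (pm k c (MvPolynomial.X 1)) = pm k c (MvPolynomial.X 1))
    (h2 : w (pm k c (MvPolynomial.X 2)) = - pm k c (MvPolynomial.X 2))
    (h3 : w (pm k c (MvPolynomial.X 3)) = - pm k c (MvPolynomial.X 3)) :
    ∃ (w₁ : L[X] ≃ₐ[k] L[X]) (wU : L[X][X] ≃ₐ[k] L[X][X]), (∀ x, u (w x) = wU (u x)) ∧
      (∀ a, w₁ (C a) = C a) ∧ ∀ a, wU (C a) = C (w₁ a) := by
  let w₁ := EHQ.ng k L
  let wM : L[X][X] ≃ₐ[k] L[X][X] := Polynomial.mapAlgEquiv w₁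
  have hwMC : ∀ a, wM (C a) = C (w₁ a) := fun a => Polynomial.map_C _
  have hwMX : wM X = X := Polynomial.map_X _
  let wU := wM.trans (EHQ.ng k L[X])
  have hwUC : ∀ a, wU (C a) = C (w₁ a) := by
    intro a
    change EHQ.ng k _ (wM (C a)) = _
    rw [hwMC, EHQ.ng_C]
  have hwUX : wU X = - X := by
    change EHQ.ng k _ (wM X) = _
    rw [hwMX, EHQ.ng_X]
  have hwUc : ∀ y, wU (C (C y)) = C (C y) := by
    intro y
    rw [hwUC, EHQ.ng_C]
  have hwU2 : wU (C X) = -(C X : L[X][X]) := by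
    rw [hwUC, EHQ.ng_X, C_neg]
  refine ⟨w₁, wU, ?_, EHQ.ng_C k, hwUC⟩
  have h : u.comp w.toAlgHom = wU.toAlgHom.comp u := by
    apply hp_ext
    · intro b
      change u (w _) = wU (u _)
      rw [hC, uC, hwUc]
    · change u (w _) = wU (u _)
      rw [h0, u0, hwUc]
    · change u (w _) = wU (u _)
      rw [h1, u1, map_neg, map_mul, map_add, map_mul, hwU2, hwUX, hwUc, hwUc, neg_mul_neg]
    · change u (w _) = wU (u _)
      rw [h2, map_neg, u2, hwU2]
    · change u (w _) = wU (u _)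
      rw [h3, map_neg, u3, hwUX]
  exact fun x => AlgHom.congr_fun h x

end opn

end EHP

open _root_.QCV.EHP in
theorem t_EHP : S_EHP := by
  intro k B _ _ _ c w hw
  obtain ⟨hwC, hwX⟩ := hw
  have hC : ∀ b, w (pm k c (MvPolynomial.C b)) = pm k c (MvPolynomial.C b) := hwC
  have h0 : w (pm k c (MvPolynomial.X 0)) = pm k c (MvPolynomial.X 0) := by
    have h := hwX 0
    have e : (![1, 1, -1, -1] : Fin 4 → ℤ) 0 = 1 := rfl
    rw [e, one_zsmul] at h
    exact h
  have h1 : w (pm k c (MvPolynomial.X 1)) = pm k c (MvPolynomial.X 1) := by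
    have h := hwX 1
    have e : (![1, 1, -1, -1] : Fin 4 → ℤ) 1 = 1 := rfl
    rw [e, one_zsmul] at h
    exact h
  have h2 : w (pm k c (MvPolynomial.X 2)) = - pm k c (MvPolynomial.X 2) := by
    have h := hwX 2
    have e : (![1, 1, -1, -1] : Fin 4 → ℤ) 2 = -1 := rfl
    rw [e, neg_one_zsmul] at h
    exact h
  have h3 : w (pm k c (MvPolynomial.X 3)) = - pm k c (MvPolynomial.X 3) := by
    have h := hwX 3
    have e : (![1, 1, -1, -1] : Fin 4 → ℤ) 3 = -1 := rfl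
    rw [e, neg_one_zsmul] at h
    exact h
  obtain ⟨w₀, hw₀⟩ := t_ESG k B 2
    (MvPolynomial.X 0 * MvPolynomial.X 1 + MvPolynomial.C c) ![-1, -1]
    (fun j => by fin_cases j <;> rfl) (by
      rw [map_add, map_mul, MvPolynomial.aeval_X, MvPolynomial.aeval_X, MvPolynomial.aeval_C]
      have e0 : (![-1, -1] : Fin 2 → ℤ) 0 = -1 := rfl
      have e1 : (![-1, -1] : Fin 2 → ℤ) 1 = -1 := rfl
      rw [e0, e1, neg_one_zsmul, neg_one_zsmul, neg_mul_neg]
      rfl)
  have g0 : ∀ b, w₀ (EHQ.mk k c (MvPolynomial.C b)) = EHQ.mk k c (MvPolynomial.C b) := hw₀.1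
  have g1 : w₀ (EHQ.mk k c (MvPolynomial.X 0)) = - EHQ.mk k c (MvPolynomial.X 0) := by
    have h := hw₀.2 0
    have e : (![-1, -1] : Fin 2 → ℤ) 0 = -1 := rfl
    rw [e, neg_one_zsmul] at h
    exact h
  have g2 : w₀ (EHQ.mk k c (MvPolynomial.X 1)) = - EHQ.mk k c (MvPolynomial.X 1) := by
    have h := hw₀.2 1
    have e : (![-1, -1] : Fin 2 → ℤ) 1 = -1 := rfl
    rw [e, neg_one_zsmul] at h
    exact h
  obtain ⟨z, zs, zk, zC, z0, z1, z2, z3⟩ := z_exists c (EHQ.mk k c) (EHQ.mk_surj c)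
    (EHQ.mk_rel c) (fun K _ _ θ s₀ s₁ h => ⟨EHQ.hl c θ s₀ s₁ h, EHQ.hl_C c θ s₀ s₁ h,
      EHQ.hl_X0 c θ s₀ s₁ h, EHQ.hl_X1 c θ s₀ s₁ h⟩)
  obtain ⟨wZ, hz, hwZ⟩ := z_w c (EHQ.mk k c) w w₀ z zC z0 z1 z2 z3 hC h0 h1 h2 h3 g0 g1 g2
  have hloc : @IsLocalization.Away B[X] _ (X : B[X]) (Localization.Away (X : B[X])) _
      (EHQ.aX k B).toRingHom.toAlgebra := isLocalization_awayHom (k := k) (X : B[X])
  obtain ⟨i, u, -, ua, uC, u0, u1, u2, u3⟩ := u_exists c (EHQ.aX k B) hloc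
  obtain ⟨w₁, wU, hu, hw1, hwU⟩ := u_w c w (EHQ.aX k B) i u uC u0 u1 u2 u3 hC h0 h1 h2 h3
  exact ⟨z, u, w₀, wZ, w₁, wU, ⟨zs, zk, ua⟩, hw₀, hz, hu, hwZ, hw1, hwU⟩

end QCV


end
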