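import Mathlib
import Pool.Agent.QVM.C48
import Pool.Agent.QVM.C49
import Pool.Agent.QVM.C52
import Pool.Agent.QVM.C60
import Pool.Agent.QVM.C61
import Pool.Agent.QVM.C63
import Pool.Agent.QVM.C64
import Pool.Agent.QVM.C65
import Pool.Agent.QVM.C67
import Pool.Agent.QVM.C68
import Pool.Agent.QVM.C69
import Pool.Agent.QVM.C70
import Pool.Agent.QVM.C71
import Pool.Agent.QVM.C72
import Pool.Agent.QVM.C73
import Pool.Agent.QVM.C74
import Pool.Agent.UQ.Defs

/-! Parts: QCV.E_ASM, UQ.Geo, UQ.Hom, UQ.Fin -/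

section

/-!
# QCV, block E: assembly, and the main theorems for the class `Member`
-/

set_option autoImplicit false

open CategoryTheory AlgebraicGeometry Polynomial

namespace QCV

open Pool.Agent.Lib_helper55.Beil Pool.Agent.Lib_helper66.OneP CUB

universe v

namespace Asm

theorem s_EVI : S_EVI := t_EVI t_EQI t_EH2 t_EE1 t_EDU

theorem s_EHT : S_EHT.{v} := t_EHT t_EHQ t_EHP t_EGM

theorem s_EQT : S_EQT.{v} := t_EQT s_EHT t_EBC t_ESG t_ESP

theorem s_EST : S_EST.{v} := t_EST (t_ETW t_EBC t_ESG) s_EQT t_ECM t_EBM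

theorem s_EOD : S_EOD := t_EOD t_EDU t_EDS

theorem s_EVS : S_EVS := t_EVS s_EOD

end Asm

variable {k : Type} [Field k] {E : Type} [Field E] {T : ∀ i : ℕ, Homology.{v} k E i} {hT : Full T}

lemma evenForms (h2 : (2 : k) ≠ 0) (d : ℕ) : EvenForms k d := by
  intro R _ _ _ _ n m q e f hn he hq hR hf hg hD
  subst hn
  exact member_even_of Asm.s_EVS h2 he hq hR f hf hg hD

lemma evenFormsProj (h2 : (2 : k) ≠ 0) (d : ℕ) : EvenFormsProj k d := by
  intro R _ _ _ _ n m q e f hn he hq hR hf hg hD X ⟨S⟩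
  exact member_of_cone (Member.small _ fun x => (hR x).trans (by exact_mod_cast he)) f (fun _ => 2)
    hf (fun _ => by norm_num) (evenForms h2 d R (n + 1) m q e f hn he hq hR hf hg hD) S

lemma evenBase (h2 : (2 : k) ≠ 0) (d : ℕ) : EvenBase k d := by
  intro A _ _ _ _ hA
  have h : ∀ (n m : ℕ) (f : MvPolynomial (Fin n) A), n = 2 * m → f.IsHomogeneous 2 →
      (gram f).det ≠ 0 → Member k d (aff k (Dr A 0 ((-1) ^ (m + 1) * (gram f).det))) →
      Member k d (aff k (MvPolynomial (Fin n) A ⧸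
        Ideal.span (Set.range fun _ : Fin 1 => f))) := by
    intro n m f hn hf hg hD
    subst hn
    exact member_even_base_of Asm.s_EOD h2 hA f hf hg hD
  refine ⟨h, ?_⟩
  intro n m f hn hf hg hD X ⟨S⟩
  exact member_of_cone (Member.cover A _ _ hD) (fun _ : Fin 1 => f) (fun _ => 2) (fun _ => hf)
    (fun _ => by norm_num) (h (n + 1) m f hn hf hg hD) S

section

variable [Finite k] [CharZero E]

lemma ppfEven (hP : Pub2 T hT) : PpfEven T := by
  intro h2
  obtain ⟨S, h1, h2', h3, h4⟩ := hP.dbl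
  exact Asm.s_EVI k _ h2 (cls0_ppf hT hP.toPub) (fun A _ _ _ h => ppf_line hT hP.toPub A h)
    (fun A _ _ _ b c h i => pf_dbl hT hP.toPub i A b c (h i))
    (Asm.s_EST k E T hT S hP.toPub hP.sectionZero h1 h2' h3 h4 h2).1

lemma ggEven (hP : Pub2 T hT) (h2 : (2 : k) ≠ 0) :
    EvenCl k (fun A [CommRing A] [Algebra k A] [Algebra.FiniteType k A] => GG T (aff k A)) := by
  obtain ⟨S, h1, h2', h3, h4⟩ := hP.dbl
  exact Asm.s_EVI k _ h2 (cls0_gg (ggc hP)) (ggc hP).line (ggc hP).dbl
    (Asm.s_EST k E T hT S hP.toPub hP.sectionZero h1 h2' h3 h4 h2).2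

/-- The conjecture holds on the class if the property holds in dimension at most `d`. -/
theorem q1_member_of_pp (hP : Pub2 T hT) (d : ℕ) (hB : ∀ X : Var k, X.DimLE d → PP T X)
    (X : Var k) (hX : Member k d X) (i : ℕ) : Q1 (T i) X :=
  q1_of_member hT hP.toPub hP.sectionZero (pfEt hP) (ppfOdd hP) (ppfEven hP) (ppfBun hP) d hB X hX i

/-- The conjecture holds on the class built from the varieties of dimension at most one. -/
theorem member_one (hP : Pub2 T hT) (X : Var k) (hX : Member k 1 X) (i : ℕ) : Q1 (T i) X :=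
  q1_member_of_pp hP 1 (fun X hX => pp_of_dimLE_one hT hP.toPub X hX) X hX i

/-- The conjecture of Tate in dimension at most `d` is equivalent to the conjecture of Tate on the
class. -/
theorem tate_member (hP : Pub2 T hT) (d : ℕ) :
    (∀ X : Var k, X.DimLE d → Tate T X) ↔ ∀ X : Var k, Member k d X → Tate T X := by
  rw [tate_iff, tate_iff]
  exact ⟨fun h X hX => gg_of_member (ggEven hP) hP d h X hX, fun h X hX => h X (Member.small X hX)⟩

/-- Surfaces, with alterations. -/
theorem member_two (hP : Pub2 T hT) (hA : Pool.Agent.Lib_helper66.OneP.Alterations k)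
    (h : ∀ Y : Var k, Y.SmoothProper 2 → (T 1).Surj Y ∧ (T 1).Semisimple Y) (X : Var k)
    (hX : Member k 2 X) (i : ℕ) : Q1 (T i) X :=
  q1_member_of_pp hP 2 (fun X hX => pp_of_dimLE_two hT hP.toPub
    (fun X _ => surf_of_sp hT hP.toPub hA hP.etale.etPull h X) X hX) X hX i

/-- All dimensions, with alterations and purity. -/
theorem member_all (hP : Pub2 T hT) (hA : Pool.Agent.Lib_helper66.OneP.Alterations k)
    (hPu : ∀ i, Purity (T i)) (d : ℕ)
    (h : ∀ (Y : Var k) (D : ℕ), D ≤ d → Y.SmoothProper D → ∀ i, Q1 (T i) Y) (X : Var k)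
    (hX : Member k d X) (i : ℕ) : Q1 (T i) X :=
  q1_member_of_pp hP d (fun X hX => pp_of_sp hT hP.toPub hA hPu hP.etale d h X hX) X hX i

/-- Systems of quadratic forms in an even number of variables and double covers of the affine
space. -/
theorem tate_even (hP : Pub2 T hT) (h2 : (2 : k) ≠ 0) (d : ℕ)
    (h : ∀ X : Var k, X.DimLE d → Tate T X) :
    EvenSystems (Tate T) (d + 1) ↔ DoubleCovers (Tate T) (d + 1) := by
  have hlow := (tate_iff (T := T) _).mp h
  constructor
  · intro h3 g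
    exact (gg_iff _).mp (doubleCovers_of t_UD2 t_UG2 hP h2 d hlow
      (fun n f hn hf hd => (gg_iff _).mpr (h3 n f hn hf hd)) g)
  · intro h3 n f hn hf hd
    exact (gg_iff _).mp (evenSystems_of Asm.s_EVS (fun h2 => ggEven hP h2) hP h2 d hlow
      (fun g => (gg_iff _).mpr (h3 g)) n f hn hf hd)

end

end QCV


end

section

/-!
# UQ: comparison of the language of the final statement with the one of the proofs, geometry
-/

set_option autoImplicit false

open CategoryTheory AlgebraicGeometry Polynomial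

namespace UQ

open Pool.Agent.Lib_helper55.Beil (Var ClosedIn OpenIn Complementary)
open CUB (PrMor VIso)

variable {k : Type} [Field k]

/-! ## Morphisms -/

/-- A closed immersion. -/
def toCl {Z X : Var k} (a : Mo Z X) (h : a.Cl) : ClosedIn Z X := ⟨a.g, a.comm, h⟩

/-- An open immersion. -/
def toOp {U X : Var k} (j : Mo U X) (h : j.Op) : OpenIn U X := ⟨j.g, j.comm, h⟩

/-- A proper morphism. -/
def toPr {X Y : Var k} (f : Mo X Y) (h : f.Pr) : PrMor X Y := ⟨f.g, f.comm, h⟩

/-- A finite etale covering. -/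
def toEt {V U : Var k} (f : Mo V U) (h : f.Et) : Pool.Agent.Lib_helper66.OneP.FinEt V U :=
  ⟨f.g, f.comm, h.1, h.2.1, h.2.2⟩

/-- A closed immersion. -/
def ofCl {Z X : Var k} (a : ClosedIn Z X) : Mo Z X := ⟨a.g, a.comm⟩

/-- An open immersion. -/
def ofOp {U X : Var k} (j : OpenIn U X) : Mo U X := ⟨j.g, j.comm⟩

/-- A proper morphism. -/
def ofPr {X Y : Var k} (f : PrMor X Y) : Mo X Y := ⟨f.g, f.comm⟩

/-- A finite etale covering. -/
def ofEt {V U : Var k} (f : Pool.Agent.Lib_helper66.OneP.FinEt V U) : Mo V U := ⟨f.g, f.comm⟩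

/-- A product with the affine line. -/
def ofLine {Y X : Var k} (L : CUB.Line Y X) : Mo Y X := ⟨L.q, L.comm⟩

/-- A line bundle. -/
def ofBun {Y X : Var k} (B : QCV.Bun Y X) : Mo Y X := ⟨B.q, B.comm⟩

/-- An isomorphism. -/
def ofIso {X Y : Var k} (s : VIso X Y) : Mo X Y := ⟨s.e.hom, s.comm⟩

lemma cl_ofCl {Z X : Var k} (a : ClosedIn Z X) : (ofCl a).Cl := a.closed

lemma op_ofOp {U X : Var k} (j : OpenIn U X) : (ofOp j).Op := j.isOpen

lemma pr_ofPr {X Y : Var k} (f : PrMor X Y) : (ofPr f).Pr := f.proper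

lemma et_ofEt {V U : Var k} (f : Pool.Agent.Lib_helper66.OneP.FinEt V U) : (ofEt f).Et :=
  ⟨f.fin, f.etale, f.surj⟩

lemma pr_of_cl {Z X : Var k} {a : Mo Z X} (h : a.Cl) : a.Pr := by
  have h' : IsClosedImmersion a.g := h
  exact (inferInstance : IsProper a.g)

lemma pr_of_et {Z X : Var k} {a : Mo Z X} (h : a.Et) : a.Pr := by
  have h' : IsFinite a.g := h.1
  exact (inferInstance : IsProper a.g)

lemma line_ofLine {Y X : Var k} (L : CUB.Line Y X) : (ofLine L).Line := ⟨L.t, L.prod⟩

lemma line_exists {Y X : Var k} (q : Mo Y X) (h : q.Line) : ∃ L : CUB.Line Y X, L.q = q.g := by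
  obtain ⟨t, ht⟩ := h
  exact ⟨⟨q.g, t, q.comm, ht⟩, rfl⟩

lemma bun_ofBun {Y X : Var k} (B : QCV.Bun Y X) : (ofBun B).Bun := by
  intro x
  obtain ⟨W, V, L, l, j, h1, h2⟩ := B.loc x
  exact ⟨W, V, ofLine L, ofOp l, ofOp j, line_ofLine L, op_ofOp l, op_ofOp j, h1, h2⟩

lemma bun_exists {Y X : Var k} (q : Mo Y X) (h : q.Bun) : ∃ B : QCV.Bun Y X, B.q = q.g := by
  refine ⟨⟨q.g, q.comm, fun x => ?_⟩, rfl⟩
  obtain ⟨W, V, L, l, j, h1, h2, h3, h4, h5⟩ := h x
  obtain ⟨L', hL'⟩ := line_exists L h1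
  refine ⟨W, V, L', toOp l h2, toOp j h3, ?_, h5⟩
  rw [hL']
  exact h4

lemma bun_of_line {Y X : Var k} {q : Mo Y X} (h : q.Line) : q.Bun := by
  intro x
  refine ⟨Y, X, q, ⟨𝟙 Y.X, Category.id_comp _⟩, ⟨𝟙 X.X, Category.id_comp _⟩, h, ?_, ?_, ?_, x, rfl⟩
  · exact (inferInstance : IsOpenImmersion (𝟙 Y.X))
  · exact (inferInstance : IsOpenImmersion (𝟙 X.X))
  · exact IsPullback.of_vert_isIso ⟨by change q.g ≫ 𝟙 _ = 𝟙 _ ≫ q.g; simp⟩

lemma comp_of {Z U X : Var k} {a : ClosedIn Z X} {j : OpenIn U X} (h : Complementary a j) :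
    Comp (ofCl a) (ofOp j) := by
  refine ⟨a.closed, j.isOpen, fun x => ?_⟩
  have h1 : x ∈ Set.range a.g ↔ x ∈ (Set.range j.g)ᶜ := by rw [h]
  exact h1

lemma comp_to {Z U X : Var k} {a : Mo Z X} {j : Mo U X} (h : Comp a j) :
    Complementary (toCl a h.1) (toOp j h.2.1) := by
  ext x
  exact h.2.2 x

lemma sp_smoothProper {Y : Var k} {d : ℕ} : SP Y d ↔ Y.SmoothProper d := Iff.rfl

lemma dimLE_iff {X : Var k} {n : ℕ} : DimLE X n ↔ X.DimLE n := Iff.rfl

/-! ## The class -/

lemma dpoly_eq {A : Type} [CommRing A] (b c : A) : QCV.dpoly b c = dp b c := rfl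

lemma cone_eq {A : Type} [CommRing A] [Algebra k A] [Algebra.FiniteType k A] {n : ℕ}
    (a : Fin n → A) :
    cone k A a = CUB.aff k (MvPolynomial (Fin n) A ⧸ Ideal.span {QCV.dia a}) := by
  have h : Set.range (fun _ : Fin 1 => QCV.dia a) = {QCV.dia a} := Set.range_const
  exact congrArg (fun S : Set (MvPolynomial (Fin n) A) =>
    CUB.aff k (MvPolynomial (Fin n) A ⧸ Ideal.span S)) h

lemma adj_iso {A : Type} [CommRing A] [Algebra k A] {p q : A[X]} (h : p = q) :
    Nonempty (AdjoinRoot p ≃ₐ[k] AdjoinRoot q) := by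
  subst h
  exact ⟨AlgEquiv.refl⟩

lemma as_eq {A : Type} [CommRing A] {m : ℕ} (f : Fin m → A) :
    CUB.asPoly (CUB.lin f) = dp (-1) (-∑ j, MvPolynomial.X j * MvPolynomial.C (f j)) := by
  unfold CUB.asPoly dp
  rw [map_neg, map_neg, map_one]
  change X ^ 2 - X - C (∑ j, MvPolynomial.X j * MvPolynomial.C (f j)) = _
  ring

lemma sas_iso {A : Type} [CommRing A] [Algebra k A] [Algebra.FiniteType k A] {m : ℕ}
    (f : Fin m → A) : Nonempty (VIso (CUB.aff k (CUB.VR A f)) (sas k A f)) := by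
  obtain ⟨e⟩ := adj_iso (k := k) (as_eq f)
  exact ⟨@CUB.viso k _ _ _ _ _ _ _ (ft_dp k _ _) _ e.symm⟩

/-- The members in the language of the proofs are members. -/
theorem member_of {d : ℕ} {X : Var k} (h : QCV.Member k d X) : Member k d X := by
  induction h with
  | small X hX => exact .small X hX
  | @iso X Y s _ ih => exact .iso (ofIso s) (inferInstance : IsIso s.e.hom) ih
  | nil a hs _ ih => exact .nil (ofCl a) a.closed hs ih
  | paste a j hc _ _ ihZ ihU => exact .paste (ofCl a) (ofOp j) (comp_of hc) ihZ ihU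
  | cut a j hc _ _ ihX ihZ => exact .cut (ofCl a) (ofOp j) (comp_of hc) ihX ihZ
  | line A _ ih => exact .line A ih
  | unline L _ ih => exact .unline (ofLine L) (line_ofLine L) ih
  | cover A b c _ ih => exact .cover A b c ih
  | etale f hint _ ih => exact .etale (ofEt f) (et_ofEt f) hint ih
  | bundle B s j hs hc _ ih => exact .bundle (ofBun B) (ofCl s) (ofOp j) (bun_ofBun B) hs (comp_of hc) ih
  | odd A m a ha _ ih =>
    rw [← cone_eq]
    exact .odd A m a ha ih
  | even A m a h2 ha _ ih =>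
    rw [← cone_eq]
    exact .even A m a h2 ha ih
  | zeros A m f _ ih =>
    obtain ⟨s⟩ := sas_iso (k := k) f
    exact .zeros A m f (.iso (ofIso s) (inferInstance : IsIso s.e.hom) ih)

lemma viso_of {X Y : Var k} (f : Mo X Y) (h : IsIso f.g) : Nonempty (VIso X Y) :=
  ⟨⟨asIso f.g, f.comm⟩⟩

/-- The members are members in the language of the proofs. -/
theorem member_to {d : ℕ} {X : Var k} (h : Member k d X) : QCV.Member k d X := by
  induction h with
  | small X hX => exact .small X hX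
  | iso f hf _ ih =>
    obtain ⟨s⟩ := viso_of f hf
    exact .iso s ih
  | nil a ha hs _ ih => exact .nil (toCl a ha) hs ih
  | paste a j hc _ _ ihZ ihU => exact .paste (toCl a hc.1) (toOp j hc.2.1) (comp_to hc) ihZ ihU
  | cut a j hc _ _ ihX ihZ => exact .cut (toCl a hc.1) (toOp j hc.2.1) (comp_to hc) ihX ihZ
  | line A _ ih => exact .line A ih
  | unline q hq _ ih =>
    obtain ⟨L, -⟩ := line_exists q hq
    exact .unline L ih
  | cover A b c _ ih => exact .cover A b c ih
  | etale f hf hint _ ih => exact .etale (toEt f hf) hint ih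
  | bundle q s j hq hs hc _ ih =>
    obtain ⟨B, hB⟩ := bun_exists q hq
    refine .bundle B (toCl s hc.1) (toOp j hc.2.1) ?_ (comp_to hc) ih
    rw [hB]
    exact hs
  | odd A m a ha _ ih =>
    rw [cone_eq]
    exact .odd A m a ha ih
  | even A m a h2 ha _ ih =>
    rw [cone_eq]
    exact .even A m a h2 ha ih
  | zeros A m f _ ih =>
    obtain ⟨s⟩ := sas_iso (k := k) f
    exact .zeros A m f (.iso ⟨s.e.symm, by rw [← s.comm]; exact s.e.inv_hom_id_assoc _⟩ ih)

theorem member_iff {d : ℕ} {X : Var k} : Member k d X ↔ QCV.Member k d X :=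
  ⟨member_to, member_of⟩

/-! ## Projective varieties -/

lemma psub_iff {R : Type} [CommRing R] [Algebra k R] {n : ℕ} {ι : Type}
    (f : ι → MvPolynomial (Fin (n + 1)) R) (X : Var k) :
    PSub k f X ↔ Nonempty (QCV.ProjSub f X) := by
  constructor
  · rintro ⟨g, h1, h2, h3⟩
    exact ⟨⟨g, h1, h2, h3⟩⟩
  · rintro ⟨⟨g, h1, h2, h3⟩⟩
    exact ⟨g, h1, h2, h3⟩

end UQ

namespace UQ

open Pool.Agent.Lib_helper55.Beil (Var ClosedIn OpenIn Complementary)
open CUB (PrMor VIso)

variable {k : Type} [Field k]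

lemma both_of {d : ℕ} {A : Type} [CommRing A] [Algebra k A] [Algebra.FiniteType k A] {n : ℕ}
    {ι : Type} (f : ι → MvPolynomial (Fin (n + 1)) A)
    (h1 : QCV.Member k d (CUB.aff k (MvPolynomial (Fin (n + 1)) A ⧸ Ideal.span (Set.range f))))
    (h2 : ∀ X : Var k, Nonempty (QCV.ProjSub f X) → QCV.Member k d X) : Both k d A f :=
  ⟨member_of h1, fun X hX => member_of (h2 X ((psub_iff f X).mp hX))⟩

lemma num_to {d r e : ℕ} {A : Type} [CommRing A] [Algebra k A] [Algebra.FiniteType k A]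
    (h : Num k d A r e) : e ≤ d ∧ r + e ≤ d + 1 ∧ (CUB.aff k A).DimLE e := h

/-- The members of the class. -/
theorem members (k : Type) [Field k] (d : ℕ) : Members k d where
  equations A _ _ _ n r s e f hN h1 h2 :=
    member_of (QCV.equations k d A n r s e f hN.1 hN.2.1 hN.2.2 h1 h2)
  forms A _ _ _ n r s e a f m ha hr hA hf hm h1 h2 X hX :=
    member_of (QCV.forms k d A n r s e a f m ha hr hA hf hm h1 h2 X ((psub_iff f X).mp hX))
  uniruled A _ _ _ X hint hX h := by
    obtain ⟨U, V, j, p, o, h1, h2, h3, h4, h5, h6⟩ := h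
    have hX' : X.DimLE (d + 1 : ℕ) := hX
    have hU : QCV.SepUniruled d X := by
      let j' : OpenIn U X := toOp j h1
      let p' : Pool.Agent.Lib_helper66.OneP.FinEt V U := toEt p h2
      let o' : OpenIn V (CUB.aff k A[X]) := toOp o h3
      exact ⟨U, V, A, inferInstance, inferInstance, inferInstance, j', p', o', h4, h5, h6⟩
    exact member_of (QCV.uniruled k d X hint hX' hU)
  oddForms h2 A _ _ _ n q e f hN hf ho :=
    both_of f (QCV.oddForms k h2 d A (n + 1) q e f hN.1 hN.2.1 hN.2.2 hf ho)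
      (QCV.oddFormsProj k h2 d A n q e f hN.1 hN.2.1 hN.2.2 hf ho)
  evenForms h2 A _ _ _ n m q e f hA hn hN hf hd hM := by
    have hM' := member_to hM
    exact both_of f (QCV.evenForms h2 d A (n + 1) m q e f hn hN.1 hN.2.1 hN.2.2 hf hd hM')
      (QCV.evenFormsProj h2 d A n m q e f hn hN.1 hN.2.1 hN.2.2 hf hd hM')
  oddBase h2 A _ _ _ n f hA hdA hM hf ho := by
    have h := QCV.oddBase k h2 d A hdA (member_to hM)
    exact both_of _ (h.1 (n + 1) f hf ho) (h.2 n f hf ho)
  evenBase h2 A _ _ _ n m f hA hdA hn hf hd hM := by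
    have h := QCV.evenBase h2 d A hdA
    exact both_of _ (h.1 (n + 1) m f hn hf hd (member_to hM)) (h.2 n m f hn hf hd (member_to hM))
  cubicsA _ h2 hd n f hn hf := member_of ((QCV.cubics k h2 hd).1 n f hn hf)
  cubicsP _ h2 hd n f hn hf X hX :=
    member_of ((QCV.cubics k h2 hd).2 n f hn hf X ((psub_iff _ X).mp hX))

end UQ


end

section

/-!
# UQ: comparison of the language of the final statement with the one of the proofs, homology
-/

set_option autoImplicit false

open CategoryTheory AlgebraicGeometry Polynomial Limits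

namespace UQ

open Pool.Agent.Lib_helper55.Beil (Var ClosedIn OpenIn Complementary Homology Maps)
open CUB (PrMor VIso)

universe v

variable {k : Type} [Field k] {E : Type} [Field E]

lemma mo_ext {X Y : Var k} {f g : Mo X Y} (h : f.g = g.g) : f = g := by
  cases f
  cases g
  cases h
  rfl

/-! ## Cycles -/

lemma rat_eq (i : ℕ) (X : Var k) : rat E i X = Pool.Agent.Lib_helper55.Beil.ratZero E i X := by
  unfold rat Pool.Agent.Lib_helper55.Beil.ratZero
  apply congrArg (Submodule.span E)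
  ext c
  constructor
  · rintro ⟨W, hW, a, φ, h1, h2, h3, h4⟩
    exact ⟨W, hW, toCl a h1, φ, h2, h3, h4⟩
  · rintro ⟨W, hW, a, φ, h2, h3, h4⟩
    exact ⟨W, hW, ofCl a, φ, a.closed, h2, h3, h4⟩

lemma pfc_eq {i : ℕ} {V U : Var k} (f : PrMor V U) (x : Ps i U) (z : Ps i V →₀ E) (D : ℕ)
    (h1 : ∀ w, z w ≠ 0 → im (ofPr f) w.1 = x.1)
    (h2 : z.sum (fun w e => e * (deg (ofPr f) w.1 : E)) = D) :
    CUB.pfc E i f z = Finsupp.single x (D : E) := by
  have h3 : CUB.pfc E i f z = z.sum fun w e => e • CUB.pfPt E i f w :=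
    Finsupp.linearCombination_apply E z
  rw [h3, ← h2, Finsupp.sum, Finsupp.sum]
  rw [Finsupp.single_finsetSum]
  apply Finset.sum_congr rfl
  intro w hw
  have h4 : im (ofPr f) w.1 = x.1 := h1 w (Finsupp.mem_support_iff.mp hw)
  have h5 : U.dim (f.g w.1) = i := by
    have h6 : U.dim (im (ofPr f) w.1) = i := by
      rw [h4]
      exact x.2
    exact h6
  have h7 : CUB.pfPt E i f w = Finsupp.single (⟨f.g w.1, h5⟩ : Pool.Agent.Lib_helper55.Beil.Pts i U)
      (f.deg w.1 : E) := dif_pos h5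
  have h8 : (⟨f.g w.1, h5⟩ : Pool.Agent.Lib_helper55.Beil.Pts i U) = x := Subtype.ext h4
  have h9 : z w • Finsupp.single x (f.deg w.1 : E) = Finsupp.single x (z w * (f.deg w.1 : E)) :=
    Finsupp.smul_single _ _ _
  rw [h7, h8]
  exact h9

/-! ## The theory -/

/-- The maps. -/
noncomputable def toMaps (T : Th.{v} k E) (i : ℕ) : Maps.{v} k E where
  H n X := T.H i n X
  grp := inferInstance
  mod := inferInstance
  fin n X := T.fin i n X
  frob n X := T.fr i n X
  push n _ _ a := T.pf i n (ofCl a)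
  res n _ _ j := T.pb i n (ofOp j)

variable {T : Th.{v} k E}

/-- The homology theory. -/
noncomputable def toHom (hT : T.Pub) (i : ℕ) : Homology.{v} k E i where
  toMaps := toMaps T i
  equivariant := ⟨fun n _ _ a m => hT.frob.push i n (ofCl a) (pr_of_cl a.closed) m,
    fun n _ _ j m => hT.frob.res i n (ofOp j) (Or.inl j.isOpen) m⟩
  localisation := fun n _ _ _ a j h =>
    ⟨fun m => hT.loc.atX i n (ofCl a) (ofOp j) (comp_of h) m,
      T.bd i n (ofCl a) (ofOp j), fun z => hT.loc.atZ i n (ofCl a) (ofOp j) (comp_of h) z⟩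
  vanishing := ⟨fun n X h => hT.van.empty i n X h,
    fun n X hX d h1 h2 => hT.van.large i n d X ⟨hX, h1⟩ h2⟩
  artin := by
    intro n X hint haff hsm h
    obtain ⟨d, hd⟩ := CUB.t_DST.2.1 k X (genericPoint X.X)
    rw [hd] at h
    exact hT.van.artin i n d X ⟨hint, hd⟩ haff hsm (by exact_mod_cast h)
  cl := fun X x => T.cl i X x
  functorial := ⟨fun _ _ a z h => hT.cyc.closed i (ofCl a) a.closed z h,
    fun _ _ j u h => hT.cyc.res i (ofOp j) j.isOpen u h⟩
  invariant := ⟨fun X x => hT.frob.cls i X x,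
    fun X c hc => hT.cyc.rat i X c (by rw [rat_eq]; exact hc)⟩
  fundamental := by
    intro X hint h m hm
    obtain ⟨e, he⟩ := hT.cyc.fund i X hint h m hm
    have h1 : e • T.cl i X ⟨gp X hint, h⟩ ∈ Submodule.span E {T.cl i X ⟨gp X hint, h⟩} :=
      Submodule.smul_mem _ e (Submodule.subset_span rfl)
    rw [he] at h1
    exact h1


variable (hT : T.Pub)

/-- The further maps. -/
noncomputable def toExtra : CUB.ExtraMaps (toHom hT) where
  bd i n _ _ _ a j _ := T.bd i n (ofCl a) (ofOp j)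
  line i n _ _ L := T.lb i n (ofLine L)

/-- The push-forward along proper morphisms. -/
noncomputable def toProper : CUB.ProperMaps (toHom hT) where
  pf i n _ _ f := T.pf i n (ofPr f)

/-- All properties of the push-forward and of the pull-back along lines. -/
noncomputable def full : CUB.Full (toHom hT) where
  toExtraMaps := toExtra hT
  toProperMaps := toProper hT
  pushFunctorial := ⟨fun i n X a h m => hT.push.one i n (ofCl a) h m,
    fun i n W Z X a b c h m =>
      hT.push.comp i n (ofCl a) (ofCl b) (ofCl c) (pr_of_cl a.closed) (pr_of_cl b.closed) h m⟩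
  isClopen := by
    intro i n Z X a j h m
    have h1 : ofOp j = ofCl a := mo_ext h.symm
    have h2 := hT.push.clopen i n (ofCl a) a.closed (by rw [← h1]; exact j.isOpen) m
    have h3 : T.R (ofOp j) (T.P (ofCl a) m) = m := by
      rw [h1]
      exact h2
    exact h3
  bdExact := fun i n _ _ _ a j h z => hT.loc.atZ i n (ofCl a) (ofOp j) (comp_of h) z
  bdNatural := by
    intro i n Z U X Z' U' X' a j h a' j' h' sZ sU sX h1 h2 u
    exact hT.push.boundary i n (ofCl a) (ofOp j) (ofCl a') (ofOp j') (ofCl sZ.cl) (ofCl sU.cl)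
      (ofCl sX.cl) (comp_of h) (comp_of h') (pr_of_cl sZ.cl.closed) (pr_of_cl sU.cl.closed)
      (pr_of_cl sX.cl.closed) h1.symm h2.symm u
  lineBij := fun i n _ _ q => hT.bundles.bij i n (ofLine q) (bun_of_line (line_ofLine q))
  lineFrob := fun i n _ _ q m => hT.frob.bun i n (ofLine q) (bun_of_line (line_ofLine q)) m
  lineNatural := by
    intro i n Y X Y' X' q q' sY sX h m
    have h1 : IsPullback q.q sY.e.hom sX.e.hom q'.q :=
      IsPullback.of_vert_isIso ⟨h.symm⟩
    exact (hT.bundles.push i n (ofLine q') (ofLine q) (ofCl sY.cl) (ofCl sX.cl)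
      (bun_of_line (line_ofLine q')) (pr_of_cl sX.cl.closed) h1 m).symm
  lineClass := fun i _ _ q x y h => hT.cyc.bun i (ofLine q) (bun_of_line (line_ofLine q)) x y h
  pfClosed := by
    intro i n Z X a f h m
    have h1 : ofPr f = ofCl a := mo_ext h
    have h2 : T.P (ofPr f) m = T.P (ofCl a) m := by rw [h1]
    exact h2
  pfFunctorial := fun i n _ _ _ f g h e m =>
    hT.push.comp i n (ofPr f) (ofPr g) (ofPr h) f.proper g.proper e m
  pfRestriction := fun i n _ _ _ _ f f' j' j e m =>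
    hT.push.base i n (ofOp j') (ofPr f') (ofPr f) (ofOp j) f.proper j.isOpen e m
  pfBoundary := fun i n _ _ _ _ _ _ a' j' h' a j h fZ fU fX h1 h2 u =>
    hT.push.boundary i n (ofCl a') (ofOp j') (ofCl a) (ofOp j) (ofPr fZ) (ofPr fU) (ofPr fX)
      (comp_of h') (comp_of h) fZ.proper fU.proper fX.proper h1 h2 u
  pfFrobenius := fun i n _ _ f m => hT.frob.push i n (ofPr f) f.proper m
  pfClasses := fun i _ _ f x => hT.cyc.push i (ofPr f) f.proper x

/-! ## The conjectures -/

lemma inj_iff (i : ℕ) (X : Var k) : T.Inj i X ↔ (toHom hT i).Inj X := by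
  have hmk : ∀ c : Pool.Agent.Lib_helper55.Beil.Pts i X →₀ E,
      (toHom hT i).clMap X (Submodule.Quotient.mk c) = T.C c := fun c => rfl
  constructor
  · intro h a b hab
    obtain ⟨a, rfl⟩ := Submodule.Quotient.mk_surjective _ a
    obtain ⟨b, rfl⟩ := Submodule.Quotient.mk_surjective _ b
    rw [hmk, hmk] at hab
    rw [Submodule.Quotient.eq]
    have h1 : T.C (a - b) = 0 := by
      have h2 : T.C (a - b) = T.C a - T.C b := map_sub (Finsupp.linearCombination E (T.cl i X)) a b
      rw [h2, hab, sub_self]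
    have h3 := h (a - b) h1
    rw [rat_eq] at h3
    exact h3
  · intro h c hc
    rw [rat_eq]
    have h1 : (toHom hT i).clMap X (Submodule.Quotient.mk c) = (toHom hT i).clMap X 0 := by
      exact (hmk c).trans (hc.trans (map_zero ((toHom hT i).clMap X)).symm)
    exact (Submodule.Quotient.mk_eq_zero _).mp (h h1)

lemma surj_iff (i : ℕ) (X : Var k) : T.Surj i X ↔ (toHom hT i).Surj X := by
  constructor
  · intro h m hm
    obtain ⟨c, hc⟩ := h m hm
    exact ⟨Submodule.Quotient.mk c, hc⟩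
  · intro h m hm
    obtain ⟨a, ha⟩ := h m hm
    obtain ⟨a, rfl⟩ := Submodule.Quotient.mk_surjective _ a
    exact ⟨a, ha⟩

lemma semi_iff (i : ℕ) (X : Var k) : T.Semi i X ↔ (toHom hT i).Semisimple X := Iff.rfl

lemma q1_iff (X : Var k) : T.Q1 X ↔ ∀ i, QCV.Q1 (toHom hT i) X :=
  forall_congr' fun i => and_congr (inj_iff hT i X) (and_congr (surj_iff hT i X) (semi_iff hT i X))

lemma tate_iff (X : Var k) : T.Tate X ↔ QCV.Tate (toHom hT) X :=
  forall_congr' fun i => and_congr (surj_iff hT i X) (semi_iff hT i X)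

/-! ## The further published properties -/

lemma ofPr_dbl {A : Type} [CommRing A] [Algebra k A] [Algebra.FiniteType k A] (b c : A) :
    ofPr (QCV.dbl b c k) = dm k A b c := rfl

lemma inv_dinv {A : Type} [CommRing A] [Algebra k A] [Algebra.FiniteType k A] (b c : A) :
    Inv k A b c (ofCl (QCV.autc (QCV.dinv b c k))) :=
  ⟨QCV.dinvHom b c, QCV.dinvHom_of b c, QCV.dinvHom_rt b c, rfl⟩

theorem pub2 : QCV.Pub2 (toHom hT) (full hT) where
  weights := fun i n h Z m hm => hT.van.weights i n Z h m hm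
  bdFrob := fun i n _ _ _ a j h u => hT.frob.boundary i n (ofCl a) (ofOp j) (comp_of h) u
  resExact := fun i n _ _ _ a j h u => hT.loc.atU i n (ofCl a) (ofOp j) (comp_of h) u
  lineRes := fun i n _ _ _ _ L L' l j h m =>
    hT.bundles.res i n (ofLine L) (ofLine L') (ofOp l) (ofOp j) (bun_of_line (line_ofLine L))
      (bun_of_line (line_ofLine L')) l.isOpen j.isOpen h m
  divisors := fun i X h => (inj_iff hT i X).mp (hT.cyc.divisors i X h)
  sectionZero := fun i n _ _ L s h m => hT.bundles.zero i n (ofLine L) (ofCl s) (line_ofLine L)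
    s.closed h m
  dbl := by
    refine ⟨⟨fun i n A _ _ _ b c => T.pb i n (dm k A b c)⟩, ?_, ?_, ?_, ?_⟩
    · intro i n A _ _ _ b c m
      exact hT.frob.dbl i n A b c m
    · intro i n A _ _ _ b c m
      exact (hT.cov.dbl A b c).1 i n m
    · intro i A _ _ _ b c x
      obtain ⟨z, h1, h2, h3⟩ := (hT.cov.dbl A b c).2 i x
      exact ⟨z, h1, pfc_eq (QCV.dbl b c k) x z 2 h2 h3⟩
    · intro i n A _ _ _ b c m
      exact hT.cov.inv i n A b c _ (inv_dinv b c) m
  etale := by
    refine ⟨⟨fun i n _ _ f => T.pb i n (ofEt f)⟩, ?_, ?_⟩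
    · intro i n V U f m
      exact hT.frob.res i n (ofEt f) (Or.inr (et_ofEt f)) m
    · intro V U f hU
      obtain ⟨D, hD, h1, h2⟩ := hT.cov.etale (ofEt f) (et_ofEt f) hU
      refine ⟨D, hD, fun i n m => h1 i n m, fun i x => ?_⟩
      obtain ⟨z, h3, h4, h5⟩ := h2 i x
      exact ⟨z, h3, pfc_eq (QCV.etPr f) x z D h4 h5⟩
  bundles := by
    refine ⟨⟨fun i n _ _ B => T.lb i n (ofBun B)⟩, ?_, ?_, ?_, ?_, ?_, ?_⟩
    · intro i n Y X B m
      exact hT.frob.bun i n (ofBun B) (bun_ofBun B) m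
    · intro i n Y X B
      exact hT.bundles.bij i n (ofBun B) (bun_ofBun B)
    · intro i n Y X B L h m
      have h1 : ofBun B = ofLine L := mo_ext h
      have h2 : T.V (ofBun B) m = T.V (ofLine L) m := by rw [h1]
      exact h2
    · intro i n Y X Y' X' B B' l j h m
      exact hT.bundles.res i n (ofBun B) (ofBun B') (ofOp l) (ofOp j) (bun_ofBun B) (bun_ofBun B')
        l.isOpen j.isOpen h.w.symm m
    · intro i n Y X Y' X' B B' r s h m
      exact hT.bundles.push i n (ofBun B) (ofBun B') (ofPr r) (ofPr s) (bun_ofBun B) s.proper h m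
    · intro i n Z U X Z' U' X' a j h a' j' h' BZ BU B h1 h2 u
      exact hT.bundles.boundary i n (ofCl a) (ofOp j) (ofCl a') (ofOp j') (ofBun BZ) (ofBun BU)
        (ofBun B) (comp_of h) (comp_of h') (bun_ofBun B) h1 h2 u

end UQ


end

section

/-!
# UQ: the main results
-/

set_option autoImplicit false

open CategoryTheory AlgebraicGeometry Polynomial

namespace UQ

open Pool.Agent.Lib_helper55.Beil (Var)

universe v

variable {k : Type} [Field k] {E : Type} [Field E] {T : Th.{v} k E}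

lemma alterations_to (h : Alterations k) : Pool.Agent.Lib_helper66.OneP.Alterations k := by
  intro U hU d hd
  obtain ⟨U', V, Y, a, p, b, h1, h2, h3, h4, h5⟩ := h U d ⟨hU, hd⟩
  exact ⟨U', V, Y, toOp a h1, toEt p h2, toOp b h3, h4, h5⟩

lemma oddS_iff (P : Var k → Prop) (q : ℕ) : OddS P q ↔ QCV.OddSystems P q := Iff.rfl

lemma evenS_iff (P : Var k → Prop) (q : ℕ) : EvenS P q ↔ QCV.EvenSystems P q := Iff.rfl

lemma dblS_iff (P : Var k → Prop) (m : ℕ) : DblS P m ↔ QCV.DoubleCovers P m := Iff.rfl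

lemma tate_eq (hT : T.Pub) : T.Tate = QCV.Tate (toHom hT) := by
  funext X
  exact propext (tate_iff hT X)

lemma q1_eq (hT : T.Pub) : T.Q1 = fun X : Var k => ∀ i, QCV.Q1 (toHom hT i) X := by
  funext X
  exact propext (q1_iff hT X)

lemma surf_iff (hT : T.Pub) : (∀ Y : Var k, SP Y 2 → T.Surj 1 Y ∧ T.Semi 1 Y) ↔
    ∀ Y : Var k, Y.SmoothProper 2 → (toHom hT 1).Surj Y ∧ (toHom hT 1).Semisimple Y :=
  forall_congr' fun Y => forall_congr' fun _ => and_congr (surj_iff hT 1 Y) (semi_iff hT 1 Y)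

variable [Finite k] [CharZero E]

theorem main (hT : T.Pub) : T.Main where
  one X hX := by
    rw [q1_eq hT]
    exact fun i => QCV.member_one (pub2 hT) X (member_to hX) i
  tate d := by
    rw [tate_eq hT]
    refine (QCV.tate_member (pub2 hT) d).trans ?_
    exact forall_congr' fun X => imp_congr_left member_iff.symm
  odd h2 d := by
    rw [tate_eq hT]
    exact QCV.tate_odd (pub2 hT) h2 d
  even h2 d h := by
    rw [tate_eq hT] at h ⊢
    exact QCV.tate_even (pub2 hT) h2 d h

theorem main2 (hT : T.Pub) (hA' : Alterations k) : T.Main2 where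
  tate d := by
    rw [tate_eq hT]
    exact QCV.tate_sp_iff (pub2 hT) (alterations_to hA') d
  two := by
    rw [surf_iff hT, q1_eq hT]
    constructor
    · exact fun h X hX i => QCV.member_two (pub2 hT) (alterations_to hA') h X (member_to hX) i
    · intro h Y hY
      have h1 := h Y (Member.small Y (QCV.dimLE_of_smoothProper hY)) 1
      exact ⟨h1.2.1, h1.2.2⟩
  odd h2 := by
    rw [surf_iff hT, q1_eq hT]
    constructor
    · exact fun h n f hn hf hd i => QCV.member_two (pub2 hT) (alterations_to hA') h _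
        (QCV.member_oddSystems h2 2 n f hn hf hd) i
    · intro h Y hY
      have h1 : QCV.OddSystems (QCV.Tate (toHom hT)) (2 + 1) := fun n f hn hf hd i =>
        ⟨(h n f hn hf hd i).2.1, (h n f hn hf hd i).2.2⟩
      exact (QCV.tate_odd (pub2 hT) h2 2).mpr h1 Y (QCV.dimLE_of_smoothProper hY) 1
  all hP d := by
    have hP' : ∀ i, Pool.Agent.Lib_helper66.OneP.Purity (toHom hT i) := fun i Y d h m hm =>
      hP i Y d h m hm
    rw [q1_eq hT]
    constructor
    · exact fun h X hX i => QCV.member_all (pub2 hT) (alterations_to hA') hP' d h X (member_to hX) i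
    · intro h Y D hD hY i
      refine h Y (Member.small Y ?_) i
      intro x
      exact (QCV.dimLE_of_smoothProper hY x).trans (by exact_mod_cast hD)

end UQ


end
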